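import Pool.Agent.P.MP_ad7a55_nt.Defs
import Mathlib
import Pool.Agent.Lib.Sieve.Upper
import Pool.Agent.P.MP_ad7a55_nt.CtA
import Pool.Agent.P.MP_ad7a55_nt.SgA

-- part Pool.Agent.P.MP_ad7a55_nt.Base
section

/-! The groups and spaces of the dynamical part. -/

set_option autoImplicit false

noncomputable section

open MeasureTheory Topology Filter
open scoped MatrixGroups

namespace Pool.Agent.EQ

/-- Upper unipotent. -/
def uu {R : Type} [CommRing R] (x : R) : SL(2, R) := ⟨!![1, x; 0, 1], by simp [Matrix.det_fin_two]⟩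

/-- Lower unipotent. -/
def ul {R : Type} [CommRing R] (x : R) : SL(2, R) := ⟨!![1, 0; x, 1], by simp [Matrix.det_fin_two]⟩

/-- Diagonal element. -/
def dg {F : Type} [Field F] (a : F) (ha : a ≠ 0) : SL(2, F) :=
  ⟨!![a, 0; 0, a⁻¹], by simp [Matrix.det_fin_two, ha]⟩

@[simp] theorem uu_val {R : Type} [CommRing R] (x : R) :
    (uu x : Matrix (Fin 2) (Fin 2) R) = !![1, x; 0, 1] := rfl

@[simp] theorem ul_val {R : Type} [CommRing R] (x : R) :
    (ul x : Matrix (Fin 2) (Fin 2) R) = !![1, 0; x, 1] := rfl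

@[simp] theorem dg_val {F : Type} [Field F] (a : F) (ha : a ≠ 0) :
    (dg a ha : Matrix (Fin 2) (Fin 2) F) = !![a, 0; 0, a⁻¹] := rfl

theorem uu_add {R : Type} [CommRing R] (x y : R) : uu (x + y) = uu x * uu y := by
  ext i j; fin_cases i <;> fin_cases j <;> simp [Matrix.mul_apply, Fin.sum_univ_two, add_comm]

theorem ul_add {R : Type} [CommRing R] (x y : R) : ul (x + y) = ul x * ul y := by
  ext i j; fin_cases i <;> fin_cases j <;> simp [Matrix.mul_apply, Fin.sum_univ_two]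

@[simp] theorem uu_zero {R : Type} [CommRing R] : uu (0 : R) = 1 := by
  ext i j; fin_cases i <;> fin_cases j <;> simp

@[simp] theorem ul_zero {R : Type} [CommRing R] : ul (0 : R) = 1 := by
  ext i j; fin_cases i <;> fin_cases j <;> simp

theorem uu_inv {R : Type} [CommRing R] (x : R) : (uu x)⁻¹ = uu (-x) :=
  inv_eq_of_mul_eq_one_right (by rw [← uu_add]; simp)

theorem ul_inv {R : Type} [CommRing R] (x : R) : (ul x)⁻¹ = ul (-x) :=
  inv_eq_of_mul_eq_one_right (by rw [← ul_add]; simp)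

theorem continuous_SL {α R : Type} [CommRing R] [TopologicalSpace R] [TopologicalSpace α]
    {f : α → SL(2, R)} (h : ∀ i j, Continuous fun a => f a i j) : Continuous f :=
  Continuous.subtype_mk (continuous_matrix h) _

theorem continuous_uu {R : Type} [CommRing R] [TopologicalSpace R] :
    Continuous (uu : R → SL(2, R)) :=
  continuous_SL fun i j => by fin_cases i <;> fin_cases j <;> simp [uu] <;> fun_prop

theorem continuous_ul {R : Type} [CommRing R] [TopologicalSpace R] :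
    Continuous (ul : R → SL(2, R)) :=
  continuous_SL fun i j => by fin_cases i <;> fin_cases j <;> simp [ul] <;> fun_prop

section inst

variable {F : Type} [NormedField F]

instance instLCSL [LocallyCompactSpace F] : LocallyCompactSpace SL(2, F) :=
  haveI : LocallyCompactSpace (Matrix (Fin 2) (Fin 2) F) :=
    inferInstanceAs (LocallyCompactSpace (Fin 2 → Fin 2 → F))
  Matrix.SpecialLinearGroup.isClosedEmbedding_val.locallyCompactSpace

instance instSCSL [SecondCountableTopology F] : SecondCountableTopology SL(2, F) :=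
  haveI : SecondCountableTopology (Matrix (Fin 2) (Fin 2) F) :=
    inferInstanceAs (SecondCountableTopology (Fin 2 → Fin 2 → F))
  Matrix.SpecialLinearGroup.isClosedEmbedding_val.isEmbedding.secondCountableTopology

instance instT2SL : T2Space SL(2, F) :=
  Matrix.SpecialLinearGroup.isClosedEmbedding_val.isEmbedding.t2Space

instance instPolishSL [SecondCountableTopology F] [CompleteSpace F] : PolishSpace SL(2, F) :=
  haveI : PolishSpace (Matrix (Fin 2) (Fin 2) F) :=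
    inferInstanceAs (PolishSpace (Fin 2 → Fin 2 → F))
  Matrix.SpecialLinearGroup.isClosedEmbedding_val.polishSpace

instance instMSSL : MeasurableSpace SL(2, F) := borel _

instance instBSSL : BorelSpace SL(2, F) := ⟨rfl⟩

end inst

/-- A locally compact second countable Hausdorff space is Polish. -/
theorem polish_of_lc (Z : Type) [TopologicalSpace Z] [T2Space Z] [LocallyCompactSpace Z]
    [SecondCountableTopology Z] : PolishSpace Z := by
  have hsc : SecondCountableTopology (OnePoint Z) := by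
    obtain ⟨K⟩ : Nonempty (CompactExhaustion Z) := inferInstance
    obtain ⟨b, hbc, -, hb⟩ := TopologicalSpace.exists_countable_basis Z
    have hB : TopologicalSpace.IsTopologicalBasis
        (((fun U : Set Z => ((↑) : Z → OnePoint Z) '' U) '' b) ∪
          Set.range fun n : ℕ => (((↑) : Z → OnePoint Z) '' K n)ᶜ) := by
      refine TopologicalSpace.isTopologicalBasis_of_isOpen_of_nhds ?_ ?_
      · rintro _ (⟨U, hU, rfl⟩ | ⟨n, rfl⟩)
        · exact OnePoint.isOpenEmbedding_coe.isOpenMap _ (hb.isOpen hU)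
        · exact ((K.isCompact n).image OnePoint.continuous_coe).isClosed.isOpen_compl
      · intro a u hau hu
        induction a using OnePoint.rec with
        | infty =>
          obtain ⟨n, hn⟩ := K.exists_superset_of_isCompact
            ((OnePoint.isOpen_iff_of_mem hau).1 hu).2
          refine ⟨_, Or.inr ⟨n, rfl⟩, by simp, ?_⟩
          intro z hz
          induction z using OnePoint.rec with
          | infty => exact hau
          | coe z =>
            by_contra h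
            exact hz ⟨z, hn h, rfl⟩
        | coe a =>
          obtain ⟨U, hU, haU, hUu⟩ := hb.exists_subset_of_mem_open
            (show a ∈ ((↑) : Z → OnePoint Z) ⁻¹' u from hau) (hu.preimage OnePoint.continuous_coe)
          exact ⟨_, Or.inl ⟨U, hU, rfl⟩, ⟨a, haU, rfl⟩, Set.image_subset_iff.2 hUu⟩
    exact hB.secondCountableTopology ((hbc.image _).union (Set.countable_range _))
  let _ := TopologicalSpace.metrizableSpaceMetric (OnePoint Z)
  have : PolishSpace (OnePoint Z) := inferInstance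
  have : PolishSpace (Set.range ((↑) : Z → OnePoint Z)) :=
    OnePoint.isOpenEmbedding_coe.isOpen_range.polishSpace
  exact OnePoint.isOpenEmbedding_coe.isEmbedding.toHomeomorph.isClosedEmbedding.polishSpace

variable (p : ℕ) [Fact p.Prime]

instance instMSQp : MeasurableSpace ℚ_[p] := borel _

instance instBSQp : BorelSpace ℚ_[p] := ⟨rfl⟩

/-- `G = SL₂(ℝ) × SL₂(ℚ_p)`. -/
abbrev GG : Type := SL(2, ℝ) × SL(2, ℚ_[p])

/-- `x ∈ ℤ[1/p]`. -/
def InZp (p : ℕ) (x : ℚ) : Prop := ∃ (a : ℕ) (m : ℤ), (p : ℚ) ^ a * x = m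

theorem InZp.add {p : ℕ} {x y : ℚ} (hx : InZp p x) (hy : InZp p y) : InZp p (x + y) := by
  obtain ⟨a, m, h⟩ := hx
  obtain ⟨b, n, h'⟩ := hy
  refine ⟨a + b, p ^ b * m + p ^ a * n, ?_⟩
  push_cast
  rw [← h, ← h']; ring

theorem InZp.mul {p : ℕ} {x y : ℚ} (hx : InZp p x) (hy : InZp p y) : InZp p (x * y) := by
  obtain ⟨a, m, h⟩ := hx
  obtain ⟨b, n, h'⟩ := hy
  refine ⟨a + b, m * n, ?_⟩
  push_cast
  rw [← h, ← h']; ring

theorem InZp.neg {p : ℕ} {x : ℚ} (hx : InZp p x) : InZp p (-x) := by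
  obtain ⟨a, m, h⟩ := hx
  refine ⟨a, -m, ?_⟩
  push_cast
  rw [← h]; ring

theorem inZp_int (p : ℕ) (m : ℤ) : InZp p m := ⟨0, m, by simp⟩

/-- `SL₂(ℤ[1/p])` inside `SL₂(ℚ)`. -/
def GamQ (p : ℕ) : Subgroup SL(2, ℚ) where
  carrier := {γ | ∀ i j, InZp p (γ i j)}
  one_mem' := fun i j => by
    fin_cases i <;> fin_cases j
    · simpa using inZp_int p 1
    · simpa using inZp_int p 0
    · simpa using inZp_int p 0
    · simpa using inZp_int p 1
  mul_mem' := fun {a b} ha hb i j => by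
    simp only [Matrix.SpecialLinearGroup.coe_mul, Matrix.mul_apply, Fin.sum_univ_two]
    exact ((ha _ _).mul (hb _ _)).add ((ha _ _).mul (hb _ _))
  inv_mem' := fun {a} ha i j => by
    rw [Matrix.SpecialLinearGroup.SL2_inv_expl]
    fin_cases i <;> fin_cases j
    · simpa using ha 1 1
    · simpa using (ha 0 1).neg
    · simpa using (ha 1 0).neg
    · simpa using ha 0 0

/-- The diagonal embedding of `SL₂(ℚ)`. -/
def emb : SL(2, ℚ) →* GG p :=
  (Matrix.SpecialLinearGroup.map (Rat.castHom ℝ)).prod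
    (Matrix.SpecialLinearGroup.map (Rat.castHom ℚ_[p]))

/-- The lattice `Γ`. -/
def Gam : Subgroup (GG p) := (GamQ p).map (emb p)

/-- `SL₂(ℤ)` inside `SL₂(ℝ)`. -/
def Gam0 : Subgroup SL(2, ℝ) := (Matrix.SpecialLinearGroup.map (Int.castRingHom ℝ)).range

/-- `K = SL₂(ℤ_p)`. -/
def Kp : Subgroup SL(2, ℚ_[p]) where
  carrier := {k | ∀ i j, ‖k i j‖ ≤ 1}
  one_mem' := fun i j => by fin_cases i <;> fin_cases j <;> simp
  mul_mem' := fun {a b} ha hb i j => by
    simp only [Matrix.SpecialLinearGroup.coe_mul, Matrix.mul_apply, Fin.sum_univ_two]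
    refine (Padic.nonarchimedean _ _).trans (max_le ?_ ?_) <;> rw [norm_mul] <;>
      exact mul_le_one₀ (ha _ _) (norm_nonneg _) (hb _ _)
  inv_mem' := fun {a} ha i j => by
    rw [Matrix.SpecialLinearGroup.SL2_inv_expl]
    fin_cases i <;> fin_cases j
    · simpa using ha 1 1
    · simpa using ha 0 1
    · simpa using ha 1 0
    · simpa using ha 0 0

/-- Elements of `(1/q) ℤ[1/p]` bounded at both places form a finite set. -/
theorem finite_bounded (q : ℕ) (hq : 0 < q) (R : ℝ) :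
    {x : ℚ | InZp p (q * x) ∧ |(x : ℝ)| ≤ R ∧ ‖(x : ℚ_[p])‖ ≤ R}.Finite := by
  have hp : (1 : ℝ) < p := by exact_mod_cast (Fact.out : p.Prime).one_lt
  obtain ⟨c, hc⟩ := pow_unbounded_of_one_lt R hp
  have hq' : (q : ℚ) ≠ 0 := by positivity
  have hp' : (p : ℚ) ≠ 0 := by exact_mod_cast (Fact.out : p.Prime).ne_zero
  have hpP : (p : ℚ_[p]) ≠ 0 := by exact_mod_cast (Fact.out : p.Prime).ne_zero
  refine ((Set.finite_Icc (-⌈(p : ℝ) ^ c * q * R⌉) ⌈(p : ℝ) ^ c * q * R⌉).image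
    fun m : ℤ => (m : ℚ) / (p ^ c * q)).subset ?_
  rintro x ⟨⟨a, m, hm⟩, h1, h2⟩
  have hn : ‖(((p : ℚ) ^ c * (q * x) : ℚ) : ℚ_[p])‖ ≤ 1 := by
    push_cast
    rw [norm_mul, norm_mul, norm_pow, Padic.norm_p, inv_pow]
    have h3 : ‖(q : ℚ_[p])‖ ≤ 1 := by simpa using Padic.norm_int_le_one (p := p) (q : ℤ)
    have h4 : ‖(q : ℚ_[p])‖ * ‖(x : ℚ_[p])‖ ≤ p ^ c :=
      (mul_le_of_le_one_left (norm_nonneg _) h3).trans (h2.trans hc.le)
    rw [inv_mul_le_iff₀ (by positivity)]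
    simpa using h4
  have hint : ∃ n : ℤ, (p : ℚ) ^ c * (q * x) = n := by
    rcases le_total a c with h | h
    · obtain ⟨e, rfl⟩ := Nat.exists_eq_add_of_le h
      exact ⟨p ^ e * m, by push_cast; rw [← hm]; ring⟩
    · obtain ⟨e, rfl⟩ := Nat.exists_eq_add_of_le h
      have h5 : (p : ℚ) ^ e * ((p : ℚ) ^ c * (q * x)) = m := by rw [← hm]; ring
      have h6 : ‖((m : ℤ) : ℚ_[p])‖ ≤ (p : ℝ) ^ (-(e : ℤ)) := by
        have : ((m : ℤ) : ℚ_[p]) = (p : ℚ_[p]) ^ e * (((p : ℚ) ^ c * (q * x) : ℚ) : ℚ_[p]) := by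
          have := congrArg (fun z : ℚ => (z : ℚ_[p])) h5
          simpa using this.symm
        rw [this, norm_mul, norm_pow, Padic.norm_p, zpow_neg, zpow_natCast, inv_pow]
        exact mul_le_of_le_one_right (by positivity) hn
      obtain ⟨n, hn'⟩ := (Padic.norm_int_le_pow_iff_dvd m e).1 h6
      refine ⟨n, mul_left_cancel₀ (pow_ne_zero e hp') ?_⟩
      rw [h5, hn']; push_cast; ring
  obtain ⟨n, hn'⟩ := hint
  refine ⟨n, ?_, ?_⟩
  · have h7 : |(n : ℝ)| ≤ (p : ℝ) ^ c * q * R := by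
      have : (n : ℝ) = (p : ℝ) ^ c * q * x := by
        have := congrArg (fun z : ℚ => (z : ℝ)) hn'
        simp only [Rat.cast_mul, Rat.cast_pow, Rat.cast_natCast, Rat.cast_intCast] at this
        rw [← this]; ring
      rw [this, abs_mul, abs_of_nonneg (by positivity : (0 : ℝ) ≤ (p : ℝ) ^ c * q)]
      exact mul_le_mul_of_nonneg_left h1 (by positivity)
    have h8 : |n| ≤ ⌈(p : ℝ) ^ c * q * R⌉ := by
      have : ((|n| : ℤ) : ℝ) ≤ (⌈(p : ℝ) ^ c * q * R⌉ : ℤ) := by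
        rw [Int.cast_abs]; exact h7.trans (Int.le_ceil _)
      exact_mod_cast this
    exact abs_le.1 h8
  · change (n : ℚ) / (p ^ c * q) = x
    rw [← hn']; field_simp

theorem norm_entry_le {F : Type} [NormedField F] (f : Fin 2 → Fin 2 → F) (i j : Fin 2) :
    ‖f i j‖ ≤ ‖f‖ := (norm_le_pi_norm (f i) j).trans (norm_le_pi_norm f i)

/-- `Γ` meets every compact set in a finite set. -/
theorem Gam_finite {C : Set (GG p)} (hC : IsCompact C) : (C ∩ Gam p).Finite := by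
  have hb : ∃ R : ℝ, ∀ g ∈ C, ∀ i j, |g.1 i j| ≤ R ∧ ‖g.2 i j‖ ≤ R := by
    have hc : Continuous fun g : GG p =>
        ((fun i j => g.1 i j : Fin 2 → Fin 2 → ℝ), (fun i j => g.2 i j : Fin 2 → Fin 2 → ℚ_[p])) :=
      (continuous_pi fun i => continuous_pi fun j =>
        (continuous_apply j).comp ((continuous_apply i).comp
          (continuous_subtype_val.comp continuous_fst))).prodMk
      (continuous_pi fun i => continuous_pi fun j =>
        (continuous_apply j).comp ((continuous_apply i).comp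
          (continuous_subtype_val.comp continuous_snd)))
    obtain ⟨R, hR⟩ := (hC.image hc).isBounded.exists_norm_le
    refine ⟨R, fun g hg i j => ?_⟩
    have := hR _ ⟨g, hg, rfl⟩
    rw [Prod.norm_def, max_le_iff] at this
    exact ⟨(norm_entry_le (fun i j => g.1 i j) i j).trans this.1,
      (norm_entry_le (fun i j => g.2 i j) i j).trans this.2⟩
  obtain ⟨R, hR⟩ := hb
  have hf := finite_bounded p 1 one_pos R
  have hfin : {γ : SL(2, ℚ) | ∀ i j, γ i j ∈
      {x : ℚ | InZp p ((1 : ℕ) * x) ∧ |(x : ℝ)| ≤ R ∧ ‖(x : ℚ_[p])‖ ≤ R}}.Finite := by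
    have := Set.Finite.pi' fun _ : Fin 2 => Set.Finite.pi' fun _ : Fin 2 => hf
    refine Set.Finite.of_finite_image (f := fun γ : SL(2, ℚ) => (fun i j => γ i j)) (this.subset ?_)
      fun a _ b _ h => Subtype.ext h
    rintro _ ⟨γ, hγ, rfl⟩ i j
    exact hγ i j
  refine (hfin.image (emb p)).subset ?_
  rintro _ ⟨hg, γ, hγ, rfl⟩
  refine ⟨γ, fun i j => ⟨by simpa using hγ i j, ?_, ?_⟩, rfl⟩
  · exact (hR _ hg i j).1
  · exact (hR _ hg i j).2

theorem Gam0_finite {C : Set SL(2, ℝ)} (hC : IsCompact C) : (C ∩ Gam0).Finite := by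
  have hc : Continuous fun g : SL(2, ℝ) => (fun i j => g i j : Fin 2 → Fin 2 → ℝ) :=
    continuous_pi fun i => continuous_pi fun j =>
      (continuous_apply j).comp ((continuous_apply i).comp continuous_subtype_val)
  obtain ⟨R, hR⟩ := (hC.image hc).isBounded.exists_norm_le
  have hfin : {γ : SL(2, ℤ) | ∀ i j, γ i j ∈ Set.Icc (-⌈R⌉) ⌈R⌉}.Finite := by
    have := Set.Finite.pi' fun _ : Fin 2 => Set.Finite.pi' fun _ : Fin 2 =>
      Set.finite_Icc (-⌈R⌉) ⌈R⌉
    refine Set.Finite.of_finite_image (f := fun γ : SL(2, ℤ) => (fun i j => γ i j)) (this.subset ?_)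
      fun a _ b _ h => Subtype.ext h
    rintro _ ⟨γ, hγ, rfl⟩ i j
    exact hγ i j
  refine (hfin.image (Matrix.SpecialLinearGroup.map (Int.castRingHom ℝ))).subset ?_
  rintro _ ⟨hg, γ, rfl⟩
  refine ⟨γ, fun i j => abs_le.1 ?_, rfl⟩
  have h1 := (norm_entry_le _ i j).trans (hR _ ⟨_, hg, rfl⟩)
  have h2 : ((|γ i j| : ℤ) : ℝ) ≤ (⌈R⌉ : ℤ) := by
    rw [Int.cast_abs]; exact le_trans h1 (Int.le_ceil _)
  exact_mod_cast h2

/-- A subgroup that meets compact sets in finite sets is closed. -/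
theorem isClosed_of_finite {H : Type} [Group H] [TopologicalSpace H] [T2Space H]
    [LocallyCompactSpace H] {Γ : Subgroup H}
    (h : ∀ C : Set H, IsCompact C → (C ∩ Γ).Finite) : IsClosed (Γ : Set H) := by
  refine isClosed_of_closure_subset fun x hx => ?_
  obtain ⟨C, hC, hxC⟩ := exists_compact_mem_nhds x
  have h2 : x ∈ closure (C ∩ Γ) := by
    rw [mem_closure_iff_nhds] at hx ⊢
    intro t ht
    obtain ⟨y, hy⟩ := hx (t ∩ C) (inter_mem ht hxC)
    exact ⟨y, hy.1.1, hy.1.2, hy.2⟩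
  rw [(h C hC).isClosed.closure_eq] at h2
  exact h2.2

instance Gam_closed : IsClosed (Gam p : Set (GG p)) := isClosed_of_finite fun _ => Gam_finite p

instance Gam0_closed : IsClosed (Gam0 : Set SL(2, ℝ)) := isClosed_of_finite fun _ => Gam0_finite

/-- `X = G / Γ`. -/
abbrev XX : Type := GG p ⧸ Gam p

/-- `Y₀ = SL₂(ℝ) / SL₂(ℤ)`. -/
abbrev YY : Type := SL(2, ℝ) ⧸ Gam0

instance instPolishXX : PolishSpace (XX p) := polish_of_lc _

instance instPolishYY : PolishSpace YY := polish_of_lc _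

instance instBSXX : BorelSpace (XX p) := inferInstance

instance instBSYY : BorelSpace YY := inferInstance

/-- The image of an integral matrix in `SL₂(ℝ)`. -/
def toR : SL(2, ℤ) →* SL(2, ℝ) := Matrix.SpecialLinearGroup.map (Int.castRingHom ℝ)

/-- The image of an integral matrix in `SL₂(ℚ_p)`. -/
def toP : SL(2, ℤ) →* SL(2, ℚ_[p]) := Matrix.SpecialLinearGroup.map (Int.castRingHom ℚ_[p])

/-- The `p`-adic unipotent `u(s)` as an element of `G`. -/
def uP (s : ℚ_[p]) : GG p := (1, uu s)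

/-- The `p`-adic diagonal element `diag(p^j, p^{-j})` as an element of `G`. -/
def aP (j : ℕ) : GG p :=
  (1, dg ((p : ℚ_[p]) ^ j) (pow_ne_zero _ (Nat.cast_ne_zero.2 (Fact.out : p.Prime).ne_zero)))

theorem uP_add (s t : ℚ_[p]) : uP p (s + t) = uP p s * uP p t := by simp [uP, uu_add]

@[simp] theorem uP_zero : uP p 0 = 1 := by simp [uP]

theorem continuous_uP : Continuous (uP p) := continuous_const.prodMk continuous_uu

/-- The unipotent flow on `X`. -/
def ufl1 : Flow ℚ_[p] (XX p) where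
  toFun s x := uP p s • x
  cont' := ((continuous_uP p).comp continuous_fst).smul continuous_snd
  map_add' s t x := by rw [uP_add, mul_smul]
  map_zero' x := by simp

/-- The unipotent flow on `X × X` with speeds `d₁, d₂`. -/
def ufl2 (d₁ d₂ : ℚ_[p]) : Flow ℚ_[p] (XX p × XX p) where
  toFun s w := (uP p (d₁ * s) • w.1, uP p (d₂ * s) • w.2)
  cont' := (((continuous_uP p).comp (continuous_const.mul continuous_fst)).smul
      continuous_snd.fst).prodMk
    (((continuous_uP p).comp (continuous_const.mul continuous_fst)).smul continuous_snd.snd)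
  map_add' s t x := by simp only [mul_add, uP_add, mul_smul]
  map_zero' x := by simp

/-- The unipotent flow on `X^κ` with speeds `d`. -/
def ufl {κ : Type} (d : κ → ℚ_[p]) : Flow ℚ_[p] (κ → XX p) where
  toFun s w := fun k => uP p (d k * s) • w k
  cont' := continuous_pi fun k =>
    ((continuous_uP p).comp (continuous_const.mul continuous_fst)).smul
      ((continuous_apply k).comp continuous_snd)
  map_add' s t x := by simp only [mul_add, uP_add, mul_smul]
  map_zero' x := by simp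

theorem ufl1_apply (s : ℚ_[p]) (x : XX p) : ufl1 p s x = uP p s • x := rfl

theorem ufl2_apply (d₁ d₂ s : ℚ_[p]) (w : XX p × XX p) :
    ufl2 p d₁ d₂ s w = (uP p (d₁ * s) • w.1, uP p (d₂ * s) • w.2) := rfl

theorem ufl_apply {κ : Type} (d : κ → ℚ_[p]) (s : ℚ_[p]) (w : κ → XX p) :
    ufl p d s w = fun k => uP p (d k * s) • w k := rfl

/-- The stabiliser of a measure. -/
def Stab (H : Type) {W : Type} [Group H] [MulAction H W] [MeasurableSpace W]
    [MeasurableConstSMul H W] (ρ : Measure W) : Subgroup H where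
  carrier := {g | ρ.map (fun w => g • w) = ρ}
  one_mem' := by simp
  mul_mem' := fun {a b} ha hb => by
    have ha' : ρ.map (fun w => a • w) = ρ := ha
    have hb' : ρ.map (fun w => b • w) = ρ := hb
    change ρ.map (fun w => (a * b) • w) = ρ
    have : (fun w : W => (a * b) • w) = (fun w => a • w) ∘ (fun w => b • w) := by
      ext w; simp [mul_smul]
    rw [this, ← Measure.map_map (measurable_const_smul a) (measurable_const_smul b), hb', ha']
  inv_mem' := fun {a} ha => by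
    have ha' : ρ.map (fun w => a • w) = ρ := ha
    change ρ.map (fun w => a⁻¹ • w) = ρ
    conv_lhs => rw [← ha']
    rw [Measure.map_map (measurable_const_smul a⁻¹) (measurable_const_smul a)]
    have : ((fun w : W => a⁻¹ • w) ∘ fun w => a • w) = id := by ext w; simp
    rw [this, Measure.map_id]

theorem mem_Stab {H W : Type} [Group H] [MulAction H W] [MeasurableSpace W]
    [MeasurableConstSMul H W] {ρ : Measure W} {g : H} :
    g ∈ Stab H ρ ↔ ρ.map (fun w => g • w) = ρ := Iff.rfl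

/-- All entries have norm at most `R`. -/
def Bd {F : Type} [NormedField F] (R : ℝ) (P : Matrix (Fin 2) (Fin 2) F) : Prop :=
  ∀ i j, ‖P i j‖ ≤ R

/-- `θ` is conjugation by an invertible real matrix. -/
def IsConjHom (θ : SL(2, ℝ) →* SL(2, ℝ)) : Prop :=
  ∃ η : Matrix (Fin 2) (Fin 2) ℝ, η.det ≠ 0 ∧
    ∀ h : SL(2, ℝ), (θ h : Matrix (Fin 2) (Fin 2) ℝ) * η = η * (h : Matrix (Fin 2) (Fin 2) ℝ)


end Pool.Agent.EQ
end
end

-- part Pool.Agent.P.MP_ad7a55_nt.TLg
section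

/-! Pairs of integral matrices up to conjugation: the local-global principle. -/

set_option autoImplicit false

noncomputable section

open Finset Matrix

namespace Pool.Agent.EQ

/-- Integral two by two matrices. -/
abbrev M2 : Type := Matrix (Fin 2) (Fin 2) ℤ

/-- The matrix of `√(B² - 4AC)` on the lattice with basis `1, -τ`, `A τ² + B τ + C = 0`. -/
def Th (A B C : ℤ) : M2 := !![B, 2 * C; -2 * A, -B]

/-- `Θ` comes from a primitive positive form of discriminant `E`. -/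
def IsTh (E : ℤ) (Θ : M2) : Prop :=
  ∃ A B C : ℤ, 0 < A ∧ Int.gcd (Int.gcd A B) C = 1 ∧ B ^ 2 - 4 * A * C = E ∧ Θ = Th A B C

/-- The determinant of two vectors. -/
def dt (v w : Fin 2 → ℤ) : ℤ := v 0 * w 1 - v 1 * w 0

/-- The value of the form at `v` is prime to `l`. -/
def Gn (l : ℕ) (Θ : M2) (v : Fin 2 → ℤ) : Prop := ¬ (2 * l : ℤ) ∣ dt v (Θ *ᵥ v)

/-- Pairs with given invariants. -/
def Pr (E Y N x : ℤ) (P : M2 × M2) : Prop :=
  IsTh E P.1 ∧ P.2.trace = Y ∧ P.2.det = N ∧ (P.1 * P.2).trace = x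

/-- Equivalence at the prime `l`. -/
def Leq (l : ℕ) (P P' : M2 × M2) : Prop :=
  ∃ g : M2, ¬ (l : ℤ) ∣ g.det ∧ g * P.1 = P'.1 * g ∧ g * P.2 = P'.2 * g

/-- Global equivalence. -/
def Geq (P P' : M2 × M2) : Prop :=
  ∃ g : M2, g.det = 1 ∧ g * P.1 = P'.1 * g ∧ g * P.2 = P'.2 * g

/-- `S` has at most `W` pairwise unrelated elements. -/
def Few {α : Type} (R : α → α → Prop) (S : Set α) (W : ℝ) : Prop :=
  ∀ T : Finset α, (∀ a ∈ T, a ∈ S) → (∀ a ∈ T, ∀ b ∈ T, a ≠ b → ¬ R a b) → (T.card : ℝ) ≤ W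

theorem Few.mono {α : Type} {R : α → α → Prop} {S S' : Set α} {W W' : ℝ} (h : Few R S W)
    (hS : S' ⊆ S) (hW : W ≤ W') : Few R S' W' :=
  fun T h1 h2 => (h T (fun a ha => hS (h1 a ha)) h2).trans hW

theorem Few.nonneg {α : Type} {R : α → α → Prop} {S : Set α} {W : ℝ} (h : Few R S W) : 0 ≤ W := by
  simpa using h ∅ (by simp) (by simp)

theorem Few.of_rel {α β : Type} {R : α → α → Prop} {R' : β → β → Prop} {S : Set α} {S' : Set β}
    {W : ℝ} (h : Few R' S' W) (φ : α → β → Prop) (h1 : ∀ a ∈ S, ∃ b ∈ S', φ a b)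
    (h2 : ∀ a ∈ S, ∀ a' ∈ S, ∀ b b', φ a b → φ a' b' → (b = b' ∨ R' b b') → R a a') :
    Few R S W := by
  classical
  intro T hT hT'
  choose f hf hf' using h1
  let g : {a // a ∈ T} → β := fun a => f a.1 (hT a.1 a.2)
  have key : ∀ a b : {a // a ∈ T}, (g a = g b ∨ R' (g a) (g b)) → a = b := fun a b hab => by
    by_contra hne
    exact hT' a.1 a.2 b.1 b.2 (fun e => hne (Subtype.ext e))
      (h2 a.1 (hT a.1 a.2) b.1 (hT b.1 b.2) _ _ (hf' _ _) (hf' _ _) hab)
  have hinj : Function.Injective g := fun a b e => key a b (Or.inl e)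
  have h3 := h (T.attach.image g) (fun b hb => by
    obtain ⟨a, -, rfl⟩ := Finset.mem_image.1 hb
    exact hf _ _) (fun b hb c hc hbc hR => by
    obtain ⟨a, -, rfl⟩ := Finset.mem_image.1 hb
    obtain ⟨a', -, rfl⟩ := Finset.mem_image.1 hc
    exact hbc (congrArg g (key a a' (Or.inr hR))))
  rwa [Finset.card_image_of_injective _ hinj, Finset.card_attach] at h3

/-- Elements with the same label are related. -/
theorem few_of_label {α β : Type} {R : α → α → Prop} {S : Set α} (L : Finset β) (φ : α → β → Prop)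
    (h1 : ∀ a ∈ S, ∃ b ∈ L, φ a b) (h2 : ∀ a ∈ S, ∀ a' ∈ S, ∀ b, φ a b → φ a' b → R a a') :
    Few R S L.card := by
  have h0 : Few (fun _ _ : β => False) (L : Set β) L.card := fun T hT _ => by
    exact_mod_cast Finset.card_le_card fun a ha => Finset.mem_coe.1 (hT a ha)
  refine h0.of_rel φ (fun a ha => ?_) fun a ha a' ha' b b' hb hb' e => ?_
  · obtain ⟨b, hb, h⟩ := h1 a ha
    exact ⟨b, Finset.mem_coe.2 hb, h⟩
  · rcases e with rfl | e
    · exact h2 a ha a' ha' b hb hb'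
    · exact e.elim

theorem tlg_max {α : Type} (R : α → α → Prop) (T : Finset α)
    (hs : ∀ a b, R a b → R b a) : ∃ T₀ : Finset α, T₀ ⊆ T ∧
      (∀ a ∈ T₀, ∀ b ∈ T₀, a ≠ b → ¬ R a b) ∧ ∀ a ∈ T, ∃ a₀ ∈ T₀, a = a₀ ∨ R a a₀ := by
  classical
  induction T using Finset.induction_on with
  | empty => exact ⟨∅, by simp, by simp, by simp⟩
  | insert a T ha ih =>
    obtain ⟨T₀, h1, h2, h3⟩ := ih
    by_cases h : ∃ a₀ ∈ T₀, a = a₀ ∨ R a a₀
    · refine ⟨T₀, h1.trans (Finset.subset_insert _ _), h2, fun b hb => ?_⟩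
      rcases Finset.mem_insert.1 hb with rfl | hb
      · exact h
      · exact h3 b hb
    · refine ⟨insert a T₀, Finset.insert_subset_insert _ h1, fun b hb c hc hbc => ?_, fun b hb => ?_⟩
      · rcases Finset.mem_insert.1 hb with rfl | hb' <;> rcases Finset.mem_insert.1 hc with rfl | hc'
        · exact absurd rfl hbc
        · exact fun hR => h ⟨c, hc', Or.inr hR⟩
        · exact fun hR => h ⟨b, hb', Or.inr (hs _ _ hR)⟩
        · exact h2 b hb' c hc' hbc
      · rcases Finset.mem_insert.1 hb with rfl | hb'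
        · exact ⟨b, Finset.mem_insert_self _ _, Or.inl rfl⟩
        · obtain ⟨a₀, h4, h5⟩ := h3 b hb'
          exact ⟨a₀, Finset.mem_insert_of_mem h4, h5⟩

theorem tlg_cover {α ζ : Type} (T₀ : Finset α) (Z : Finset ζ) (ψ : ζ → α → Prop) {m : ℝ}
    (h1 : ∀ z ∈ Z, ∃ a ∈ T₀, ψ z a)
    (h2 : ∀ a ∈ T₀, ∀ Z' ⊆ Z, (∀ z ∈ Z', ψ z a) → (Z'.card : ℝ) ≤ m) :
    (Z.card : ℝ) ≤ T₀.card * m := by
  classical
  have h3 : Z ⊆ T₀.biUnion fun a => Z.filter fun z => ψ z a := fun z hz => by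
    obtain ⟨a, ha, h⟩ := h1 z hz
    exact Finset.mem_biUnion.2 ⟨a, ha, Finset.mem_filter.2 ⟨hz, h⟩⟩
  have h4 : (Z.card : ℝ) ≤ ∑ a ∈ T₀, ((Z.filter fun z => ψ z a).card : ℝ) := by
    exact_mod_cast (Finset.card_le_card h3).trans Finset.card_biUnion_le
  refine h4.trans ?_
  rw [← nsmul_eq_mul]
  exact Finset.sum_le_card_nsmul _ _ _ fun a ha =>
    h2 a ha _ (Finset.filter_subset _ _) fun z hz => (Finset.mem_filter.1 hz).2

/-- Finitely many equivalence relations. -/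
theorem few_prod {α ι : Type} (I : Finset ι) (R : ι → α → α → Prop) {S : Set α} (W : ι → ℝ)
    (hs : ∀ i ∈ I, ∀ a b, R i a b → R i b a) (ht : ∀ i ∈ I, ∀ a b c, R i a b → R i b c → R i a c)
    (h : ∀ i ∈ I, Few (R i) S (W i)) : Few (fun a b => ∀ i ∈ I, R i a b) S (∏ i ∈ I, W i) := by
  classical
  induction I using Finset.induction_on with
  | empty =>
    intro T _ hT'
    rw [Finset.prod_empty]
    have : T.card ≤ 1 := Finset.card_le_one.2 fun a ha b hb => by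
      by_contra hne
      exact hT' a ha b hb hne (by simp)
    exact_mod_cast this
  | insert i I hi ih =>
    have ih' := ih (fun j hj => hs j (Finset.mem_insert_of_mem hj))
      (fun j hj => ht j (Finset.mem_insert_of_mem hj)) (fun j hj => h j (Finset.mem_insert_of_mem hj))
    have hs' := hs i (Finset.mem_insert_self _ _)
    have ht' := ht i (Finset.mem_insert_self _ _)
    intro T hT hT'
    obtain ⟨T₀, h1, h2, h3⟩ := tlg_max (R i) T hs'
    have h4 := h i (Finset.mem_insert_self _ _) T₀ (fun a ha => hT a (h1 ha)) h2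
    have h5 := tlg_cover T₀ T (fun a a₀ => a = a₀ ∨ R i a a₀) (m := ∏ j ∈ I, W j) h3
      fun a₀ _ Z' hZ' hZ => ih' Z' (fun a ha => hT a (hZ' ha)) fun a ha b hb hab hR =>
        hT' a (hZ' ha) b (hZ' hb) hab fun j hj => by
          rcases Finset.mem_insert.1 hj with rfl | hj'
          · rcases hZ a ha with e | e <;> rcases hZ b hb with e' | e'
            · exact absurd (e.trans e'.symm) hab
            · exact e ▸ hs' _ _ e'
            · exact e' ▸ e
            · exact ht' _ _ _ e (hs' _ _ e')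
          · exact hR j hj'
    rw [Finset.prod_insert hi]
    exact h5.trans (mul_le_mul_of_nonneg_right h4 ih'.nonneg)

/-- Counting with fibres over equivalence classes. -/
theorem card_le_few {α ζ : Type} {R : α → α → Prop} {S : Set α} {W : ℝ} (h : Few R S W)
    (hr : ∀ a, R a a) (hs : ∀ a b, R a b → R b a) (Z : Finset ζ) (φ : ζ → α → Prop)
    (h1 : ∀ z ∈ Z, ∃ a ∈ S, φ z a) {m : ℕ}
    (hm : ∀ a₀ ∈ S, ∀ Z' ⊆ Z, (∀ z ∈ Z', ∃ a, φ z a ∧ R a a₀) → Z'.card ≤ m) :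
    (Z.card : ℝ) ≤ m * W := by
  classical
  choose f hf hf' using h1
  let g : {z // z ∈ Z} → α := fun z => f z.1 z.2
  obtain ⟨T₀, h1, h2, h3⟩ := tlg_max R (Z.attach.image g) hs
  have hS : ∀ a ∈ T₀, a ∈ S := fun a ha => by
    obtain ⟨z, -, rfl⟩ := Finset.mem_image.1 (h1 ha)
    exact hf _ _
  have h4 := h T₀ hS h2
  have h5 := tlg_cover T₀ Z (fun z a₀ => ∃ a, φ z a ∧ R a a₀) (m := m) (fun z hz => by
    obtain ⟨a₀, h6, h7⟩ := h3 (g ⟨z, hz⟩) (Finset.mem_image_of_mem _ (Finset.mem_attach _ _))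
    refine ⟨a₀, h6, g ⟨z, hz⟩, hf' _ _, ?_⟩
    rcases h7 with e | e
    · exact e ▸ hr _
    · exact e) fun a₀ ha Z' hZ' hZ => by exact_mod_cast hm a₀ (hS a₀ ha) Z' hZ' hZ
  rw [mul_comm] at h5
  exact h5.trans (mul_le_mul_of_nonneg_left h4 (Nat.cast_nonneg _))

theorem tlg_adj {g X X' : M2} (hg : g.det ≠ 0) (h : g * X = X' * g) :
    g.adjugate * X' = X * g.adjugate := by
  apply smul_right_injective M2 hg
  calc g.det • (g.adjugate * X') = g.adjugate * X' * (g * g.adjugate) := by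
        rw [Matrix.mul_adjugate, Matrix.mul_smul, Matrix.mul_one]
    _ = g.adjugate * (g * X) * g.adjugate := by rw [h]; simp only [Matrix.mul_assoc]
    _ = g.det • (X * g.adjugate) := by
        rw [← Matrix.mul_assoc, Matrix.adjugate_mul, Matrix.smul_mul, Matrix.one_mul,
          Matrix.smul_mul]

theorem tlg_det_adj (g : M2) : g.adjugate.det = g.det := by
  rw [Matrix.det_adjugate]
  simp

theorem Leq.refl {l : ℕ} (hl : l.Prime) (P : M2 × M2) : Leq l P P := by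
  refine ⟨1, ?_, by simp, by simp⟩
  rw [Matrix.det_one]
  exact (Nat.prime_iff_prime_int.1 hl).not_dvd_one

theorem Leq.symm {l : ℕ} {P P' : M2 × M2} (h : Leq l P P') : Leq l P' P := by
  obtain ⟨g, hg, h1, h2⟩ := h
  have hg0 : g.det ≠ 0 := fun h0 => hg (h0 ▸ dvd_zero _)
  exact ⟨g.adjugate, by rwa [tlg_det_adj], tlg_adj hg0 h1, tlg_adj hg0 h2⟩

theorem Leq.trans {l : ℕ} (hl : l.Prime) {P P' P'' : M2 × M2} (h : Leq l P P') (h' : Leq l P' P'') :
    Leq l P P'' := by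
  obtain ⟨g, hg, h1, h2⟩ := h
  obtain ⟨g', hg', h1', h2'⟩ := h'
  refine ⟨g' * g, fun hd => ?_, ?_, ?_⟩
  · rw [Matrix.det_mul] at hd
    exact ((Nat.prime_iff_prime_int.1 hl).dvd_or_dvd hd).elim hg' hg
  · rw [Matrix.mul_assoc, h1, ← Matrix.mul_assoc, h1', Matrix.mul_assoc]
  · rw [Matrix.mul_assoc, h2, ← Matrix.mul_assoc, h2', Matrix.mul_assoc]

theorem Geq.refl (P : M2 × M2) : Geq P P := by
  exact ⟨1, Matrix.det_one, by simp, by simp⟩

theorem Geq.symm {P P' : M2 × M2} (h : Geq P P') : Geq P' P := by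
  obtain ⟨g, hg, h1, h2⟩ := h
  have hg0 : g.det ≠ 0 := by rw [hg]; exact one_ne_zero
  exact ⟨g.adjugate, by rwa [tlg_det_adj], tlg_adj hg0 h1, tlg_adj hg0 h2⟩

theorem IsTh.sq {E : ℤ} {Θ : M2} (h : IsTh E Θ) : Θ * Θ = E • (1 : M2) ∧ Θ.trace = 0 := by
  obtain ⟨A, B, C, -, -, rfl, rfl⟩ := h
  refine ⟨?_, by simp [Th, Matrix.trace_fin_two]⟩
  ext i j
  fin_cases i <;> fin_cases j <;> simp [Th, Matrix.mul_apply, Fin.sum_univ_two] <;> ring

theorem tlg_dt (A B C : ℤ) (v : Fin 2 → ℤ) :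
    dt v (Th A B C *ᵥ v) = -2 * (A * v 0 ^ 2 + B * v 0 * v 1 + C * v 1 ^ 2) := by
  simp [dt, Th, Matrix.mulVec, dotProduct, Fin.sum_univ_two]
  ring

theorem IsTh.exists_gn {E : ℤ} {Θ : M2} (h : IsTh E Θ) {l : ℕ} (hl : l.Prime) :
    ∃ v, Gn l Θ v := by
  obtain ⟨A, B, C, -, hg, -, rfl⟩ := h
  by_contra hn
  have key : ∀ v : Fin 2 → ℤ, (l : ℤ) ∣ A * v 0 ^ 2 + B * v 0 * v 1 + C * v 1 ^ 2 := fun v => by
    have h1 : (2 * l : ℤ) ∣ dt v (Th A B C *ᵥ v) := by
      by_contra h2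
      exact hn ⟨v, h2⟩
    rw [tlg_dt, neg_mul, dvd_neg] at h1
    exact (mul_dvd_mul_iff_left two_ne_zero).1 h1
  have hA : (l : ℤ) ∣ A := by simpa using key ![1, 0]
  have hC : (l : ℤ) ∣ C := by simpa using key ![0, 1]
  have hB : (l : ℤ) ∣ B := by
    have h1 : (l : ℤ) ∣ A + B + C := by simpa using key ![1, 1]
    have h2 := (h1.sub hA).sub hC
    rwa [show A + B + C - A - C = B by ring] at h2
  have h3 : (l : ℤ) ∣ (Int.gcd (Int.gcd A B) C : ℕ) :=
    Int.dvd_coe_gcd (Int.dvd_coe_gcd hA hB) hC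
  rw [hg] at h3
  exact (Nat.prime_iff_prime_int.1 hl).not_dvd_one (by simpa using h3)

theorem tlg_scalar {E Y N x : ℤ} (hx : x ^ 2 ≠ E * (Y ^ 2 - 4 * N)) {P : M2 × M2}
    (hP : Pr E Y N x P) {M : M2} (h1 : M * P.1 = P.1 * M) (h2 : M * P.2 = P.2 * M) :
    M = M 0 0 • (1 : M2) := by
  obtain ⟨⟨A, B, C, hA, -, hE, hT⟩, hY, hN, hx'⟩ := hP
  rw [hT] at h1 hx'
  rw [Matrix.trace_fin_two] at hY hx'
  rw [Matrix.det_fin_two] at hN
  have e1 := congrFun (congrFun h1 0) 0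
  have e3 := congrFun (congrFun h1 1) 0
  have e4 := congrFun (congrFun h2 0) 0
  have e6 := congrFun (congrFun h2 1) 0
  simp only [Th, Matrix.mul_apply, Fin.sum_univ_two, Matrix.of_apply, Matrix.cons_val',
    Matrix.cons_val_zero, Matrix.cons_val_one, Matrix.cons_val_fin_one] at e1 e3 e4 e6 hx'
  have h0 : M 1 0 = 0 := by
    by_contra h0
    have f1 : A * P.2 0 1 = -(C * P.2 1 0) := by
      apply mul_left_cancel₀ (mul_ne_zero two_ne_zero h0)
      linear_combination -2 * A * e4 - P.2 1 0 * e1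
    have f2 : A * (P.2 0 0 - P.2 1 1) = -(B * P.2 1 0) := by
      apply mul_left_cancel₀ (mul_ne_zero two_ne_zero h0)
      linear_combination 2 * A * e6 + P.2 1 0 * e3
    have f3 : A * x = -(E * P.2 1 0) := by
      rw [← hx', ← hE]
      linear_combination B * f2 - 2 * A * f1
    have f4 : A ^ 2 * (Y ^ 2 - 4 * N) = E * P.2 1 0 ^ 2 := by
      rw [← hY, ← hN, ← hE]
      linear_combination (A * (P.2 0 0 - P.2 1 1) - B * P.2 1 0) * f2 + 4 * A * P.2 1 0 * f1
    refine hx (mul_left_cancel₀ (pow_ne_zero 2 hA.ne') ?_)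
    linear_combination (A * x - E * P.2 1 0) * f3 - E * f4
  have h3 : M 0 1 = 0 := by
    apply mul_left_cancel₀ (mul_ne_zero two_ne_zero hA.ne')
    linear_combination -e1 - 2 * C * h0
  have h4 : M 1 1 = M 0 0 := by
    apply mul_left_cancel₀ (mul_ne_zero two_ne_zero hA.ne')
    linear_combination -e3 + 2 * B * h0
  ext i j
  fin_cases i <;> fin_cases j <;> simp [h0, h3, h4]

theorem tlg_unit {E Y N x : ℤ} (hx : x ^ 2 ≠ E * (Y ^ 2 - 4 * N)) {P P' : M2 × M2}
    (hP : Pr E Y N x P) (h : ∀ l : ℕ, l.Prime → Leq l P P') (n : ℕ) : ∀ g : M2, g.det ≠ 0 →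
    g.det.natAbs = n → g * P.1 = P'.1 * g → g * P.2 = P'.2 * g →
    ∃ g₀ : M2, g₀.det.natAbs = 1 ∧ g₀ * P.1 = P'.1 * g₀ ∧ g₀ * P.2 = P'.2 * g₀ := by
  induction n using Nat.strong_induction_on with
  | _ n ih =>
  intro g hg hn h1 h2
  by_cases hn1 : n = 1
  · exact ⟨g, hn.trans hn1, h1, h2⟩
  obtain ⟨l, hl, hln⟩ := Nat.exists_prime_and_dvd hn1
  have hl' : Prime (l : ℤ) := Nat.prime_iff_prime_int.1 hl
  have hld : (l : ℤ) ∣ g.det := Int.natCast_dvd.2 (hn ▸ hln)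
  obtain ⟨g', hg', h1', h2'⟩ := h l hl
  have hg0 : g'.det ≠ 0 := fun h0 => hg' (h0 ▸ dvd_zero _)
  have hM := tlg_scalar hx hP (M := g'.adjugate * g)
    (by rw [Matrix.mul_assoc, h1, ← Matrix.mul_assoc, tlg_adj hg0 h1', Matrix.mul_assoc])
    (by rw [Matrix.mul_assoc, h2, ← Matrix.mul_assoc, tlg_adj hg0 h2', Matrix.mul_assoc])
  generalize (g'.adjugate * g) 0 0 = t at hM
  have e1 : g'.det * g.det = t ^ 2 := by
    have := congrArg Matrix.det hM
    rw [Matrix.det_mul, tlg_det_adj, Matrix.det_smul] at this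
    simpa using this
  have e2 : g'.det • g = t • g' := by
    have := congrArg (fun X => g' * X) hM
    simpa only [← Matrix.mul_assoc, Matrix.mul_adjugate, Matrix.smul_mul, Matrix.one_mul,
      Matrix.mul_smul, Matrix.mul_one] using this
  have e3 : (l : ℤ) ∣ t := hl'.dvd_of_dvd_pow (e1 ▸ hld.mul_left _)
  have e4 : ∀ i j, (l : ℤ) ∣ g i j := fun i j => by
    have e5 : g'.det * g i j = t * g' i j := congrFun (congrFun e2 i) j
    exact (hl'.dvd_or_dvd (e5 ▸ e3.mul_right _)).resolve_left hg'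
  choose k hk using e4
  have e6 : g = (l : ℤ) • Matrix.of k := by
    ext i j
    exact hk i j
  have hl0 : (l : ℤ) ≠ 0 := hl'.ne_zero
  have e7 : g.det = (l : ℤ) ^ 2 * (Matrix.of k).det := by
    rw [e6, Matrix.det_smul]
    simp
  have e8 : (Matrix.of k).det ≠ 0 := fun h0 => hg (by rw [e7, h0, mul_zero])
  refine ih _ ?_ (Matrix.of k) e8 rfl ?_ ?_
  · rw [← hn, e7, Int.natAbs_mul, Int.natAbs_pow, Int.natAbs_natCast]
    have h5 := Int.natAbs_pos.2 e8
    have h6 : 1 < l ^ 2 := Nat.one_lt_pow two_ne_zero hl.one_lt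
    nlinarith
  · apply smul_right_injective M2 hl0
    simpa only [e6, Matrix.smul_mul, Matrix.mul_smul] using h1
  · apply smul_right_injective M2 hl0
    simpa only [e6, Matrix.smul_mul, Matrix.mul_smul] using h2

theorem ge_of_le {E Y N x : ℤ} (hE : E < 0) (hx : x ^ 2 ≠ E * (Y ^ 2 - 4 * N)) {P P' : M2 × M2}
    (hP : Pr E Y N x P) (hP' : Pr E Y N x P') (h : ∀ l : ℕ, l.Prime → Leq l P P') : Geq P P' := by
  obtain ⟨g₂, hg₂, k1, k2⟩ := h 2 Nat.prime_two
  obtain ⟨g, hg, h1, h2⟩ := tlg_unit hx hP h _ g₂ (fun h0 => hg₂ (h0 ▸ dvd_zero _)) rfl k1 k2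
  refine ⟨g, ?_, h1, h2⟩
  obtain ⟨⟨A, B, C, hA, -, -, hT⟩, -⟩ := hP
  obtain ⟨⟨A', B', C', hA', -, hE', hT'⟩, -⟩ := hP'
  rw [hT, hT'] at h1
  have e1 : dt (g *ᵥ ![1, 0]) (Th A' B' C' *ᵥ (g *ᵥ ![1, 0])) = g.det * (-2 * A) := by
    rw [Matrix.mulVec_mulVec, ← h1, Matrix.det_fin_two]
    simp [dt, Th, Matrix.mulVec, dotProduct, Fin.sum_univ_two, Matrix.mul_apply]
    ring
  rw [tlg_dt] at e1
  generalize (g *ᵥ ![1, 0]) 0 = u at e1
  generalize (g *ᵥ ![1, 0]) 1 = w at e1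
  have e2 : 4 * A' * (g.det * A) = (2 * A' * u + B' * w) ^ 2 - E * w ^ 2 := by
    rw [← hE']
    linear_combination 2 * A' * e1
  have e3 : 0 ≤ 4 * A' * (g.det * A) := by
    rw [e2]
    nlinarith [sq_nonneg (2 * A' * u + B' * w), sq_nonneg w]
  have e4 : 0 ≤ g.det * A := nonneg_of_mul_nonneg_right e3 (by linarith) |> fun h => h
  have e5 : 0 ≤ g.det := nonneg_of_mul_nonneg_left e4 hA
  omega

theorem local_global {E Y N x : ℤ} (hE : E < 0) (hx : x ^ 2 ≠ E * (Y ^ 2 - 4 * N))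
    {S : Set (M2 × M2)} (hS : ∀ P ∈ S, Pr E Y N x P) (I : Finset ℕ) (hI : ∀ l ∈ I, l.Prime)
    (W : ℕ → ℝ) (h : ∀ l ∈ I, Few (Leq l) S (W l))
    (h' : ∀ l : ℕ, l.Prime → l ∉ I → Few (Leq l) S 1) : Few Geq S (∏ l ∈ I, W l) := by
  classical
  intro T hT hT'
  refine few_prod I Leq W (fun l _ a b => Leq.symm) (fun l hl a b c => Leq.trans (hI l hl)) h T hT
    fun a ha b hb hab hR => hT' a ha b hb hab ?_
  refine ge_of_le hE hx (hS a (hT a ha)) (hS b (hT b hb)) fun l hl => ?_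
  by_cases hl' : l ∈ I
  · exact hR l hl'
  by_contra hn
  have h1 := h' l hl hl' {a, b} (fun c hc => by
    rcases Finset.mem_insert.1 hc with rfl | hc
    · exact hT _ ha
    · rw [Finset.mem_singleton.1 hc]
      exact hT _ hb) (fun c hc d hd hcd => by
    simp only [Finset.mem_insert, Finset.mem_singleton] at hc hd
    rcases hc with rfl | rfl <;> rcases hd with rfl | rfl
    · exact absurd rfl hcd
    · exact hn
    · exact fun h => hn h.symm
    · exact absurd rfl hcd)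
  rw [Finset.card_pair hab] at h1
  norm_num at h1

end Pool.Agent.EQ
end
end

-- part Pool.Agent.P.MP_ad7a55_nt.TLv
section

/-! Level structures for weighted sums over intervals. -/

set_option autoImplicit false

noncomputable section

open Finset

namespace Pool.Agent.EQ

open Classical in
/-- The number of residues modulo `q` with property `A`. -/
def cnt (q : ℕ) (A : ℤ → Prop) : ℕ := ((range q).filter fun r : ℕ => A r).card

/-- Level sets `Ω k` modulo `l ^ k` with weights `f k`; `a` bounds the bias at level one. -/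
structure Lv (l : ℕ) (K : ℝ) (Ω : ℕ → ℤ → Prop) (f : ℕ → ℝ) (a : ℝ) : Prop where
  per : ∀ k x y, (l : ℤ) ^ k ∣ x - y → Ω k x → Ω k y
  cnt_le : ∀ k, 0 < k → cnt (l ^ k) (Ω k) ≤ 2
  nonneg : ∀ k, 0 ≤ f k
  le : ∀ k, f k ≤ K * (k + 1)
  zero : f 0 ≤ 1
  one : (f 1 - 1) * cnt l (Ω 1) ≤ a

/-- `x` has level `k`. -/
def At (Ω : ℕ → ℤ → Prop) (x : ℤ) (k : ℕ) : Prop := (k = 0 → ¬ Ω 1 x) ∧ (0 < k → Ω k x)

/-- The weight `w` on `S` is majorised by finitely many types: a type fixes a residue class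
modulo `l ^ t.1`, carries a factor `π t`, and a level structure in the remaining variable. -/
def LS (K : ℝ) (l : ℕ) (S : Set ℤ) (B : ℤ → ℤ) (w : ℤ → ℝ) (mu : ℤ → ℕ) (M a : ℝ) : Prop :=
  ∃ (T : Finset (ℕ × ℤ × ℕ)) (π : ℕ × ℤ × ℕ → ℝ) (Ω : ℕ × ℤ × ℕ → ℕ → ℤ → Prop)
    (f : ℕ × ℤ × ℕ → ℕ → ℝ), (∀ t ∈ T, 0 ≤ π t ∧ Lv l K (Ω t) (f t) a) ∧
    ∑ t ∈ T, π t / (l : ℝ) ^ t.1 ≤ M ∧
    ∀ x ∈ S, w x ≤ 0 ∨ ∃ t ∈ T, ∃ (y : ℤ) (k : ℕ), t.1 ≤ mu x ∧ x = t.2.1 + (l : ℤ) ^ t.1 * y ∧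
      At (Ω t) y k ∧ (l : ℤ) ^ k ∣ B x ∧ w x ≤ π t * f t k

theorem Lv.mono {l : ℕ} {K K' a a' : ℝ} {Ω : ℕ → ℤ → Prop} {f : ℕ → ℝ} (h : Lv l K Ω f a)
    (hK : K ≤ K') (ha : a ≤ a') : Lv l K' Ω f a' :=
  ⟨h.per, h.cnt_le, h.nonneg, fun k => (h.le k).trans
    (mul_le_mul_of_nonneg_right hK (by positivity)), h.zero, h.one.trans ha⟩

theorem LS.mono {K K' M M' a a' : ℝ} {l : ℕ} {S S' : Set ℤ} {B : ℤ → ℤ} {w w' : ℤ → ℝ}
    {mu mu' : ℤ → ℕ} (h : LS K l S B w mu M a) (hK : K ≤ K') (hS : S' ⊆ S)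
    (hw : ∀ x ∈ S', w' x ≤ w x) (hmu : ∀ x ∈ S', mu x ≤ mu' x) (hM : M ≤ M') (ha : a ≤ a') :
    LS K' l S' B w' mu' M' a' := by
  obtain ⟨T, π, Ω, f, h1, h2, h3⟩ := h
  refine ⟨T, π, Ω, f, fun t ht => ⟨(h1 t ht).1, (h1 t ht).2.mono hK ha⟩, h2.trans hM,
    fun x hx => ?_⟩
  rcases h3 x (hS hx) with h | ⟨t, ht, y, k, a1, a2, a3, a4, a5⟩
  · exact Or.inl ((hw x hx).trans h)
  · exact Or.inr ⟨t, ht, y, k, a1.trans (hmu x hx), a2, a3, a4, (hw x hx).trans a5⟩

theorem Lv.neg_two_le {l : ℕ} {K a : ℝ} {Ω : ℕ → ℤ → Prop} {f : ℕ → ℝ} (h : Lv l K Ω f a) :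
    -2 ≤ a := by
  have h1 : (cnt l (Ω 1) : ℝ) ≤ 2 := by
    have := h.cnt_le 1 one_pos
    rw [pow_one] at this
    exact_mod_cast this
  have h2 : (0 : ℝ) ≤ cnt l (Ω 1) := by positivity
  nlinarith [h.one, h.nonneg 1]

theorem tlv_sum_zmod {q : ℕ} [NeZero q] (G : ZMod q → ℝ) :
    ∑ r ∈ range q, G (r : ZMod q) = ∑ z : ZMod q, G z := by
  refine sum_bij (fun r _ => (r : ZMod q)) (fun _ _ => mem_univ _) ?_ ?_ (fun _ _ => rfl)
  · intro a ha b hb hab
    have := congrArg ZMod.val hab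
    rwa [ZMod.val_cast_of_lt (mem_range.1 ha), ZMod.val_cast_of_lt (mem_range.1 hb)] at this
  · intro z _
    exact ⟨z.val, mem_range.2 (ZMod.val_lt z), ZMod.natCast_zmod_val z⟩

theorem tlv_affine {q : ℕ} (hq : 0 < q) {F : ℤ → ℝ}
    (hF : ∀ x y, (q : ℤ) ∣ x - y → F x = F y) (r : ℤ) {u : ℤ} (hu : IsCoprime u q) :
    ∑ y ∈ range q, F (r + u * y) = ∑ y ∈ range q, F y := by
  haveI : NeZero q := ⟨hq.ne'⟩
  have hG : ∀ x : ℤ, F x = F (((x : ZMod q).val : ℕ) : ℤ) := fun x =>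
    hF _ _ ((ZMod.intCast_eq_intCast_iff_dvd_sub _ _ _).1 (by simp))
  have hunit : IsUnit (u : ZMod q) := by
    obtain ⟨a, b, hab⟩ := hu
    have := congrArg (Int.cast : ℤ → ZMod q) hab
    push_cast at this
    rw [ZMod.natCast_self, mul_zero, add_zero] at this
    exact IsUnit.of_mul_eq_one_right _ this
  have e1 : ∑ y ∈ range q, F (r + u * y) =
      ∑ z : ZMod q, F ((((r : ZMod q) + u * z).val : ℕ) : ℤ) := by
    rw [← tlv_sum_zmod]
    refine sum_congr rfl fun y _ => ?_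
    rw [hG]; push_cast; rfl
  have e2 : ∑ y ∈ range q, F y = ∑ z : ZMod q, F ((z.val : ℕ) : ℤ) := by
    rw [← tlv_sum_zmod]
    refine sum_congr rfl fun y _ => ?_
    rw [hG, Int.cast_natCast]
  rw [e1, e2]
  refine Function.Bijective.sum_comp (e := fun z : ZMod q => (r : ZMod q) + u * z) ?_
    (fun z => F ((z.val : ℕ) : ℤ))
  refine Finite.injective_iff_bijective.1 fun a b hab => ?_
  exact hunit.mul_left_cancel (add_left_cancel hab)

theorem tlv_split (a b : ℕ) (H : ℕ → ℝ) :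
    ∑ r ∈ range (a * b), H r = ∑ j ∈ range b, ∑ i ∈ range a, H (a * j + i) := by
  induction b with
  | zero => simp
  | succ b ih => rw [Nat.mul_succ, sum_range_add, ih, sum_range_succ]

theorem tlv_crt {a b : ℕ} (hb : 0 < b) (hab : a.Coprime b) {F G : ℤ → ℝ}
    (hF : ∀ x y, (a : ℤ) ∣ x - y → F x = F y) (hG : ∀ x y, (b : ℤ) ∣ x - y → G x = G y) :
    ∑ r ∈ range (a * b), F r * G r = (∑ r ∈ range a, F r) * ∑ r ∈ range b, G r := by
  rw [tlv_split a b fun r => F r * G r, sum_comm, sum_mul]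
  refine sum_congr rfl fun i _ => ?_
  rw [← tlv_affine hb hG i (Nat.isCoprime_iff_coprime.2 hab), mul_sum]
  refine sum_congr rfl fun j _ => ?_
  push_cast
  rw [hF (a * j + i) i ⟨j, by ring⟩, add_comm]

open Classical in
theorem tlv_cnt (q : ℕ) (A : ℤ → Prop) :
    (cnt q A : ℝ) = ∑ r ∈ range q, if A r then (1 : ℝ) else 0 := by
  rw [cnt, sum_boole]

open Classical in
theorem tlv_ind {q : ℤ} {A : ℤ → Prop} (hA : ∀ x y, q ∣ x - y → A x → A y) (x y : ℤ)
    (h : q ∣ x - y) : (if A x then (1 : ℝ) else 0) = if A y then 1 else 0 :=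
  if_congr ⟨hA x y h, hA y x (dvd_sub_comm.1 h)⟩ rfl rfl

theorem tlv_period {q : ℕ} (hq : 0 < q) {F : ℤ → ℝ} (h0 : ∀ x, 0 ≤ F x)
    (hF : ∀ x y, (q : ℤ) ∣ x - y → F x = F y) (x₀ : ℤ) (N : ℕ) :
    ∑ x ∈ Ico x₀ (x₀ + N), F x ≤ (N / q + 1) * ∑ r ∈ range q, F r := by
  have e1 : ∑ x ∈ Ico x₀ (x₀ + N), F x = ∑ i ∈ range N, F (x₀ + i) := by
    symm
    refine sum_bij (fun i _ => x₀ + (i : ℤ)) ?_ ?_ ?_ (fun _ _ => rfl)
    · intro i hi
      have := mem_range.1 hi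
      exact mem_Ico.2 ⟨by omega, by omega⟩
    · intro a _ b _ hab
      have : x₀ + (a : ℤ) = x₀ + b := hab
      omega
    · intro x hx
      have := mem_Ico.1 hx
      exact ⟨(x - x₀).toNat, mem_range.2 (by omega), by omega⟩
  have e2 : ∑ i ∈ range N, F (x₀ + i) ≤ ∑ i ∈ range (q * (N / q + 1)), F (x₀ + i) :=
    sum_le_sum_of_subset_of_nonneg (range_mono (Nat.lt_mul_div_succ N hq).le) fun _ _ _ => h0 _
  have e3 : ∑ i ∈ range (q * (N / q + 1)), F (x₀ + i) =
      ((N / q + 1 : ℕ) : ℝ) * ∑ r ∈ range q, F r := by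
    rw [tlv_split q (N / q + 1) fun i => F (x₀ + i), ← nsmul_eq_mul, ← card_range (N / q + 1),
      ← sum_const, card_range]
    refine sum_congr rfl fun j _ => ?_
    rw [← tlv_affine hq hF (x₀ + q * j) isCoprime_one_left]
    refine sum_congr rfl fun i _ => ?_
    push_cast
    rw [one_mul, add_assoc]
  rw [e1]
  refine e2.trans (e3.le.trans (mul_le_mul_of_nonneg_right ?_ (sum_nonneg fun _ _ => h0 _)))
  push_cast
  linarith [Nat.cast_div_le (α := ℝ) (m := N) (n := q)]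

theorem tlv_prod (Q : Finset ℕ) (hQ : ∀ l ∈ Q, l.Prime) (k : ℕ → ℕ) (F : ℕ → ℤ → ℝ)
    (hF : ∀ l ∈ Q, ∀ x y, (l : ℤ) ^ k l ∣ x - y → F l x = F l y) :
    ∑ r ∈ range (∏ l ∈ Q, l ^ k l), ∏ l ∈ Q, F l r =
      ∏ l ∈ Q, ∑ r ∈ range (l ^ k l), F l r := by
  induction Q using Finset.induction_on with
  | empty => simp
  | insert p Q hp ih =>
    have hQ' : ∀ l ∈ Q, l.Prime := fun l hl => hQ l (mem_insert_of_mem hl)
    have hpp := hQ p (mem_insert_self _ _)
    have hcop : (p ^ k p).Coprime (∏ l ∈ Q, l ^ k l) :=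
      Nat.Coprime.prod_right fun l hl => Nat.Coprime.pow _ _
        ((Nat.coprime_primes hpp (hQ' l hl)).2 fun h => hp (h ▸ hl))
    simp only [prod_insert hp]
    rw [← ih hQ' fun l hl => hF l (mem_insert_of_mem hl)]
    refine tlv_crt (F := F p) (G := fun x => ∏ l ∈ Q, F l x)
      (prod_pos fun l hl => pow_pos (hQ' l hl).pos _) hcop (fun x y h => ?_) fun x y h => ?_
    · exact hF p (mem_insert_self _ _) x y (by exact_mod_cast h)
    · refine prod_congr rfl fun l hl => hF l (mem_insert_of_mem hl) x y (Dvd.dvd.trans ?_ h)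
      exact_mod_cast dvd_prod_of_mem (fun l => l ^ k l) hl

/-- A periodic property has the same count after an invertible affine change of variable. -/
theorem cnt_affine {q : ℕ} (hq : 0 < q) {A : ℤ → Prop} (hA : ∀ x y, (q : ℤ) ∣ x - y → A x → A y)
    (r : ℤ) {u : ℤ} (hu : IsCoprime u q) : cnt q (fun y => A (r + u * y)) = cnt q A := by
  classical
  have := tlv_affine hq (tlv_ind hA) r hu
  rw [← tlv_cnt q A] at this
  have h2 := tlv_cnt q fun y => A (r + u * y)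
  exact_mod_cast h2.trans this

theorem Lv.affine {l : ℕ} (hl : l.Prime) {K a : ℝ} {Ω : ℕ → ℤ → Prop} {f : ℕ → ℝ}
    (h : Lv l K Ω f a) (r : ℤ) {u : ℤ} (hu : ¬ (l : ℤ) ∣ u) :
    Lv l K (fun k y => Ω k (r + u * y)) f a := by
  have hc : IsCoprime u (l : ℤ) :=
    ((Nat.prime_iff_prime_int.1 hl).coprime_iff_not_dvd.2 hu).symm
  have key : ∀ k, cnt (l ^ k) (fun y => Ω k (r + u * y)) = cnt (l ^ k) (Ω k) := fun k =>
    cnt_affine (pow_pos hl.pos k) (fun x y hxy => h.per k x y (by exact_mod_cast hxy)) r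
      (by push_cast; exact hc.pow_right)
  refine ⟨fun k x y hxy => h.per k _ _ ?_, fun k hk => (key k).trans_le (h.cnt_le k hk),
    h.nonneg, h.le, h.zero, ?_⟩
  · rw [add_sub_add_left_eq_sub, ← mul_sub]
    exact hxy.mul_left u
  · have := key 1
    rw [pow_one] at this
    rw [this]
    exact h.one

theorem cnt_le_two {q : ℕ} {A : ℤ → Prop}
    (h : ∀ x y z, A x → A y → A z → (q : ℤ) ∣ x - y ∨ (q : ℤ) ∣ x - z ∨ (q : ℤ) ∣ y - z) :
    cnt q A ≤ 2 := by
  classical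
  by_contra hc
  obtain ⟨a, b, c, ha, hb, hc, hab, hac, hbc⟩ := two_lt_card_iff.1 (not_le.1 hc)
  rw [mem_filter, mem_range] at ha hb hc
  have key : ∀ x y : ℕ, x < q → y < q → (q : ℤ) ∣ (x : ℤ) - y → x = y := fun x y hx hy hd => by
    have := Int.eq_zero_of_dvd_of_natAbs_lt_natAbs hd (by omega)
    omega
  rcases h a b c ha.2 hb.2 hc.2 with h | h | h
  · exact hab (key _ _ ha.1 hb.1 h)
  · exact hac (key _ _ ha.1 hc.1 h)
  · exact hbc (key _ _ hb.1 hc.1 h)

/-- Chinese remainder theorem for counts. -/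
theorem cnt_prod (Q : Finset ℕ) (hQ : ∀ l ∈ Q, l.Prime) (k : ℕ → ℕ) (A : ℕ → ℤ → Prop)
    (hA : ∀ l ∈ Q, ∀ x y, (l : ℤ) ^ k l ∣ x - y → A l x → A l y) :
    cnt (∏ l ∈ Q, l ^ k l) (fun x => ∀ l ∈ Q, A l x) = ∏ l ∈ Q, cnt (l ^ k l) (A l) := by
  classical
  have := tlv_prod Q hQ k (fun l x => if A l x then (1 : ℝ) else 0)
    fun l hl => tlv_ind (hA l hl)
  have h2 := tlv_cnt (∏ l ∈ Q, l ^ k l) fun x => ∀ l ∈ Q, A l x
  have h3 : ((∏ l ∈ Q, cnt (l ^ k l) (A l) : ℕ) : ℝ) =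
      ∏ l ∈ Q, ∑ r ∈ range (l ^ k l), if A l r then (1 : ℝ) else 0 := by
    rw [Nat.cast_prod]
    exact prod_congr rfl fun l _ => tlv_cnt _ _
  refine Nat.cast_injective (R := ℝ) (h2.trans ?_)
  rw [h3, ← this]
  refine sum_congr rfl fun r _ => ?_
  rw [prod_boole]
  by_cases hr : ∀ l ∈ Q, A l r
  · rw [if_pos hr, if_pos hr]
  · rw [if_neg hr, if_neg hr]

/-- A periodic set meets an interval in the expected number of points. -/
theorem card_le_cnt {q : ℕ} (hq : 0 < q) {A : ℤ → Prop}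
    (hA : ∀ x y, (q : ℤ) ∣ x - y → A x → A y) (x₀ : ℤ) (N : ℕ) (S : Finset ℤ)
    (hS : ∀ x ∈ S, x₀ ≤ x ∧ x < x₀ + N ∧ A x) :
    (S.card : ℝ) ≤ cnt q A * (N / q + 1) := by
  classical
  have h1 := tlv_period hq (F := fun x => if A x then (1 : ℝ) else 0)
    (fun x => by positivity) (tlv_ind hA) x₀ N
  rw [← tlv_cnt q A, sum_boole, mul_comm] at h1
  refine le_trans ?_ h1
  exact_mod_cast card_le_card fun x hx =>
    mem_filter.2 ⟨mem_Ico.2 ⟨(hS x hx).1, (hS x hx).2.1⟩, (hS x hx).2.2⟩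

theorem sum_le_period {q : ℕ} (hq : 0 < q) {F : ℤ → ℝ} (h0 : ∀ x, 0 ≤ F x)
    (hF : ∀ x y, (q : ℤ) ∣ x - y → F x = F y) (x₀ : ℤ) (N : ℕ) :
    ∑ x ∈ Ico x₀ (x₀ + N), F x ≤ (N / q + 1) * ∑ r ∈ range q, F r := by
  exact tlv_period hq h0 hF x₀ N

theorem sum_period_prod (Q : Finset ℕ) (hQ : ∀ l ∈ Q, l.Prime) (k : ℕ → ℕ) (F : ℕ → ℤ → ℝ)
    (hF : ∀ l ∈ Q, ∀ x y, (l : ℤ) ^ k l ∣ x - y → F l x = F l y) :
    ∑ r ∈ range (∏ l ∈ Q, l ^ k l), ∏ l ∈ Q, F l r =
      ∏ l ∈ Q, ∑ r ∈ range (l ^ k l), F l r := by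
  exact tlv_prod Q hQ k F hF

end Pool.Agent.EQ
end
end

-- part Pool.Agent.P.MP_ad7a55_nt.TPr
section

/-! Sums over primes. -/

set_option autoImplicit false

noncomputable section

open Finset

namespace Pool.Agent.EQ

/-- The truncated Euler product of the symbol of `D`. -/
def EE (D : ℤ) (X : ℕ) : ℝ :=
  Real.exp (∑ l ∈ Nat.primesLE X, (jacobiSym D l : ℝ) / l)

/-- The expected size of the class number. -/
def HH (D : ℤ) : ℝ := Real.sqrt (-(D : ℝ)) * EE D D.natAbs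

theorem EE_pos (D : ℤ) (X : ℕ) : 0 < EE D X := Real.exp_pos _

theorem tpr_split (f : ℕ → ℝ) {z X : ℕ} (h : z ≤ X) :
    ∑ l ∈ Nat.primesLE X, f l =
      ∑ l ∈ Nat.primesLE z, f l + ∑ l ∈ (Nat.primesLE X).filter (fun l => z < l), f l := by
  rw [← sum_filter_add_sum_filter_not (Nat.primesLE X) (fun l => z < l), add_comm]
  have e : (Nat.primesLE X).filter (fun l => ¬ z < l) = Nat.primesLE z := by
    ext l
    simp only [mem_filter, Nat.mem_primesLE, not_lt]
    exact ⟨fun hl => ⟨hl.2, hl.1.2⟩, fun hl => ⟨⟨hl.1.trans h, hl.2⟩, hl.1⟩⟩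
  rw [e]

theorem tpr_jac (D : ℤ) (l : ℕ) : -1 ≤ (jacobiSym D l : ℝ) ∧ (jacobiSym D l : ℝ) ≤ 1 := by
  rcases jacobiSym.trichotomy D l with h | h | h <;> rw [h] <;> norm_num

theorem tpr_jac_le (D : ℤ) (l : ℕ) : (jacobiSym D l : ℝ) / l ≤ 1 / l :=
  div_le_div_of_nonneg_right (tpr_jac D l).2 (Nat.cast_nonneg l)

theorem tpr_le_jac (D : ℤ) (l : ℕ) : -(1 / (l : ℝ)) ≤ (jacobiSym D l : ℝ) / l := by
  rw [← neg_div]
  exact div_le_div_of_nonneg_right (tpr_jac D l).1 (Nat.cast_nonneg l)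

theorem tpr_sum_le (D : ℤ) (S : Finset ℕ) :
    ∑ l ∈ S, (jacobiSym D l : ℝ) / l ≤ ∑ l ∈ S, 1 / (l : ℝ) :=
  sum_le_sum fun l _ => tpr_jac_le D l

theorem tpr_le_sum (D : ℤ) (S : Finset ℕ) :
    -∑ l ∈ S, 1 / (l : ℝ) ≤ ∑ l ∈ S, (jacobiSym D l : ℝ) / l := by
  rw [← sum_neg_distrib]
  exact sum_le_sum fun l _ => tpr_le_jac D l

theorem tpr_logdiv {z X : ℕ} (hz : 2 ≤ z) (h : z ≤ X) :
    Real.log (Real.log X / Real.log z) = Real.log (Real.log X) - Real.log (Real.log z) := by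
  have h1 := Lib.Sieve.one_half_le_log hz
  have h2 := Lib.Sieve.one_half_le_log (hz.trans h)
  exact Real.log_div (by linarith) (by linarith)

theorem range_le {z X : ℕ} (hz : 2 ≤ z) (h : z ≤ X) :
    ∑ l ∈ (Nat.primesLE X).filter (fun l => z < l), 1 / (l : ℝ) ≤
      Real.log (Real.log X / Real.log z) + 9 := by
  have h1 := tpr_split (fun l => 1 / (l : ℝ)) h
  have h2 := Lib.Sieve.sum_inv_primes_le (hz.trans h)
  have h3 := Lib.Sieve.le_sum_inv_primes hz
  rw [tpr_logdiv hz h]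
  linarith

theorem le_range {z X : ℕ} (hz : 2 ≤ z) (h : z ≤ X) :
    Real.log (Real.log X / Real.log z) - 9 ≤
      ∑ l ∈ (Nat.primesLE X).filter (fun l => z < l), 1 / (l : ℝ) := by
  have h1 := tpr_split (fun l => 1 / (l : ℝ)) h
  have h2 := Lib.Sieve.le_sum_inv_primes (hz.trans h)
  have h3 := Lib.Sieve.sum_inv_primes_le hz
  rw [tpr_logdiv hz h]
  linarith

/-- Primes between `z` and `z ^ A` contribute a bounded amount. -/
theorem range_pow (A : ℕ) : ∃ C : ℝ, ∀ z X : ℕ, X ≤ z ^ A →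
    ∑ l ∈ (Nat.primesLE X).filter (fun l => z < l), 1 / (l : ℝ) ≤ C := by
  refine ⟨A + 9, fun z X hX => ?_⟩
  by_cases hne : ((Nat.primesLE X).filter (fun l => z < l)).Nonempty
  · obtain ⟨l, hl⟩ := hne
    have hl1 := mem_filter.1 hl
    have hl2 := Nat.mem_primesLE.1 hl1.1
    have hl3 := hl2.2.two_le
    have hz : 2 ≤ z := by
      by_contra hz
      have : z ^ A ≤ 1 ^ A := Nat.pow_le_pow_left (by omega) A
      rw [one_pow] at this
      omega
    have h : z ≤ X := by omega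
    have h1 := Lib.Sieve.one_half_le_log hz
    have h2 := Lib.Sieve.one_half_le_log (hz.trans h)
    have h3 : Real.log X ≤ A * Real.log z := by
      rw [← Real.log_pow]
      apply Real.log_le_log
      · exact_mod_cast (by omega : 0 < X)
      · exact_mod_cast hX
    have h4 : Real.log X / Real.log z ≤ A := by
      rw [div_le_iff₀ (by linarith)]; exact h3
    have h5 := Real.log_le_sub_one_of_pos (x := Real.log X / Real.log z)
      (div_pos (by linarith) (by linarith))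
    have h6 := range_le hz h
    linarith
  · rw [not_nonempty_iff_eq_empty.1 hne, sum_empty]
    positivity

theorem sum_big_primeFactors {n : ℕ} {z : ℝ} (hz : 0 < z) (hn : n ≠ 0) :
    ∑ l ∈ n.primeFactors.filter (fun l : ℕ => z < l), 1 / (l : ℝ) ≤ 2 * Real.log n / z := by
  have h1 := Lib.Sieve.sum_log_primeFactors_le hn
  calc ∑ l ∈ n.primeFactors.filter (fun l : ℕ => z < l), 1 / (l : ℝ)
      ≤ ∑ l ∈ n.primeFactors.filter (fun l : ℕ => z < l), 2 / z * Real.log l := by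
        refine sum_le_sum fun l hl => ?_
        have hl1 := mem_filter.1 hl
        have h2 := Lib.Sieve.one_half_le_log (Nat.prime_of_mem_primeFactors hl1.1).two_le
        calc 1 / (l : ℝ) ≤ 1 / z := one_div_le_one_div_of_le hz hl1.2.le
          _ = 2 / z * (1 / 2) := by ring
          _ ≤ _ := mul_le_mul_of_nonneg_left h2 (by positivity)
    _ ≤ ∑ l ∈ n.primeFactors, 2 / z * Real.log l :=
        sum_le_sum_of_subset_of_nonneg (filter_subset _ _) fun l _ _ =>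
          mul_nonneg (by positivity) (Real.log_natCast_nonneg l)
    _ = 2 / z * ∑ l ∈ n.primeFactors, Real.log l := by rw [mul_sum]
    _ ≤ 2 / z * Real.log n := mul_le_mul_of_nonneg_left h1 (by positivity)
    _ = _ := by ring

theorem tpr_exp_le {w : ℝ} (hw : 0 ≤ w) : Real.exp w ≤ (1 + w) * Real.exp (w ^ 2) := by
  have h1 : 0 < 1 + w := by linarith
  have h2 := Real.one_sub_inv_le_log_of_pos h1
  have h3 : w - w ^ 2 ≤ 1 - (1 + w)⁻¹ := by
    have e : 1 - (1 + w)⁻¹ = w - w ^ 2 + w ^ 3 / (1 + w) := by field_simp; ring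
    have : 0 ≤ w ^ 3 / (1 + w) := by positivity
    linarith
  calc Real.exp w ≤ Real.exp (Real.log (1 + w) + w ^ 2) := Real.exp_le_exp.2 (by linarith)
    _ = _ := by rw [Real.exp_add, Real.exp_log h1]

theorem tpr_half {y : ℕ} (hy : 8 ≤ y) (P : Finset ℕ) (w : ℕ → ℝ)
    (hP : ∀ p ∈ P, p.Prime ∧ p ≤ y) (hw0 : ∀ p ∈ P, 0 ≤ w p) (hw2 : ∀ p ∈ P, w p ≤ 2 / p) :
    (∏ p ∈ P, (1 + w p)) / 2 ≤
      ∑ S ∈ P.powerset.filter (fun S => ∏ l ∈ S, l ≤ y ^ 9), ∏ l ∈ S, w l := by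
  have hl := Lib.Sieve.two_le_log hy
  have hl0 : 0 < Real.log y := by linarith
  have hy0 : (0 : ℝ) < y := by positivity
  set κ := 1 / Real.log y with hκ
  have hκ0 : 0 < κ := by positivity
  have hsplit : ∏ p ∈ P, (1 + w p) =
      ∑ S ∈ P.powerset.filter (fun S => ∏ l ∈ S, l ≤ y ^ 9), ∏ l ∈ S, w l +
      ∑ S ∈ P.powerset.filter (fun S => ¬ ∏ p ∈ S, p ≤ y ^ 9), ∏ p ∈ S, w p := by
    rw [prod_one_add, sum_filter_add_sum_filter_not]
  have htail : ∑ S ∈ P.powerset.filter (fun S => ¬ ∏ p ∈ S, p ≤ y ^ 9), ∏ p ∈ S, w p ≤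
      Real.exp (-9) * ∏ p ∈ P, (1 + w p * (p : ℝ) ^ κ) := by
    rw [prod_one_add, mul_sum]
    refine le_trans (sum_le_sum fun S hS => ?_) (sum_le_sum_of_subset_of_nonneg
      (filter_subset (fun S => ¬ ∏ p ∈ S, p ≤ y ^ 9) _) fun S hS _ => ?_)
    · have hS' := mem_powerset.1 (mem_filter.1 hS).1
      have hS2 : y ^ 9 ≤ ∏ p ∈ S, p := (not_le.1 (mem_filter.1 hS).2).le
      rw [prod_mul_distrib, Real.finsetProd_rpow _ _ (fun p _ => by positivity), ← Nat.cast_prod]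
      have h3 : Real.exp 9 ≤ ((∏ p ∈ S, p : ℕ) : ℝ) ^ κ := by
        calc Real.exp 9 = ((y ^ 9 : ℕ) : ℝ) ^ κ := by
              rw [Real.rpow_def_of_pos (by positivity)]
              push_cast
              rw [Real.log_pow, hκ]
              congr 1
              field_simp
              norm_num
          _ ≤ _ := Real.rpow_le_rpow (by positivity) (by exact_mod_cast hS2) hκ0.le
      have h4 : 0 ≤ ∏ p ∈ S, w p := prod_nonneg fun p hp => hw0 p (hS' hp)
      calc ∏ p ∈ S, w p = Real.exp (-9) * ((∏ p ∈ S, w p) * Real.exp 9) := by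
            rw [Real.exp_neg]; field_simp
        _ ≤ _ := by gcongr
    · have hS' := mem_powerset.1 hS
      exact mul_nonneg (Real.exp_pos _).le
        (prod_nonneg fun p hp => mul_nonneg (hw0 p (hS' hp)) (by positivity))
  have hfac : ∀ p ∈ P, 1 + w p * (p : ℝ) ^ κ ≤
      (1 + w p) * Real.exp (4 * κ * (Real.log p / p)) := by
    intro p hp
    obtain ⟨hpp, hpy⟩ := hP p hp
    have hp0 : (0 : ℝ) < p := by exact_mod_cast hpp.pos
    have hlp : 0 ≤ Real.log p := Real.log_natCast_nonneg p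
    have hu : Real.log p * κ ≤ 1 := by
      rw [hκ, mul_one_div, div_le_one hl0]
      exact Real.log_le_log hp0 (by exact_mod_cast hpy)
    have hu0 : 0 ≤ Real.log p * κ := by positivity
    have h3 : (p : ℝ) ^ κ - 1 ≤ 2 * (Real.log p * κ) := by
      rw [Real.rpow_def_of_pos hp0]
      have := Real.abs_exp_sub_one_le (x := Real.log p * κ) (by rwa [abs_of_nonneg hu0])
      rw [abs_of_nonneg hu0] at this
      exact (le_abs_self _).trans this
    have h5 : 1 + 4 * κ * (Real.log p / p) ≤ Real.exp (4 * κ * (Real.log p / p)) := by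
      have := Real.add_one_le_exp (4 * κ * (Real.log p / p)); linarith
    have hw := hw0 p hp
    have h6 : w p * (2 * (Real.log p * κ)) ≤ 4 * κ * (Real.log p / p) := by
      calc w p * (2 * (Real.log p * κ)) ≤ 2 / p * (2 * (Real.log p * κ)) :=
            mul_le_mul_of_nonneg_right (hw2 p hp) (by positivity)
        _ = _ := by ring
    have h7 : 0 ≤ w p * (4 * κ * (Real.log p / p)) := by positivity
    calc 1 + w p * (p : ℝ) ^ κ = (1 + w p) + w p * ((p : ℝ) ^ κ - 1) := by ring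
      _ ≤ (1 + w p) + w p * (2 * (Real.log p * κ)) := by gcongr
      _ ≤ (1 + w p) * (1 + 4 * κ * (Real.log p / p)) := by linarith
      _ ≤ _ := mul_le_mul_of_nonneg_left h5 (by linarith)
  have hsum : 4 * κ * ∑ p ∈ P, Real.log p / p ≤ 7 := by
    have h3 : ∑ p ∈ P, Real.log p / p ≤ ∑ p ∈ Nat.primesLE y, Real.log p / p := by
      refine sum_le_sum_of_subset_of_nonneg (fun p hp => ?_) fun p _ _ => ?_
      · exact Nat.mem_primesLE.2 ⟨(hP p hp).2, (hP p hp).1⟩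
      · have := Real.log_natCast_nonneg p; positivity
    have h4 := Lib.Sieve.sum_log_div_le (N := y) (by omega)
    have h5 := Lib.Sieve.log_four_le
    calc 4 * κ * ∑ p ∈ P, Real.log p / p ≤ 4 * κ * (Real.log y + 3 / 2) := by
          apply mul_le_mul_of_nonneg_left _ (by positivity); linarith
      _ = 4 * (Real.log y + 3 / 2) / Real.log y := by rw [hκ]; ring
      _ ≤ 7 := by rw [div_le_iff₀ hl0]; linarith
  have hpos : 0 ≤ ∏ p ∈ P, (1 + w p) := prod_nonneg fun p hp => by have := hw0 p hp; positivity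
  have hprod : ∏ p ∈ P, (1 + w p * (p : ℝ) ^ κ) ≤ (∏ p ∈ P, (1 + w p)) * Real.exp 7 := by
    calc ∏ p ∈ P, (1 + w p * (p : ℝ) ^ κ)
        ≤ ∏ p ∈ P, ((1 + w p) * Real.exp (4 * κ * (Real.log p / p))) :=
          prod_le_prod (fun p hp => by have := hw0 p hp; positivity) hfac
      _ = (∏ p ∈ P, (1 + w p)) * Real.exp (4 * κ * ∑ p ∈ P, Real.log p / p) := by
          rw [prod_mul_distrib, mul_sum, Real.exp_sum]
      _ ≤ _ := mul_le_mul_of_nonneg_left (Real.exp_le_exp.2 hsum) hpos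
  have he : Real.exp (-9) * Real.exp 7 ≤ 1 / 2 := by
    rw [← Real.exp_add]
    have : Real.exp (-9 + 7) = (Real.exp 2)⁻¹ := by rw [← Real.exp_neg]; norm_num
    rw [this]
    have h3 : 2 ≤ Real.exp 2 := by have := Real.add_one_le_exp 2; linarith
    rw [inv_eq_one_div]
    exact one_div_le_one_div_of_le (by norm_num) h3
  have : Real.exp (-9) * ∏ p ∈ P, (1 + w p * (p : ℝ) ^ κ) ≤ (∏ p ∈ P, (1 + w p)) / 2 := by
    calc _ ≤ Real.exp (-9) * ((∏ p ∈ P, (1 + w p)) * Real.exp 7) := by gcongr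
      _ = (∏ p ∈ P, (1 + w p)) * (Real.exp (-9) * Real.exp 7) := by ring
      _ ≤ (∏ p ∈ P, (1 + w p)) * (1 / 2) := by gcongr
      _ = _ := by ring
  linarith

theorem rev_rankin : ∃ C : ℝ, 0 < C ∧ ∀ (X : ℕ) (P : Finset ℕ) (g : ℕ → ℝ), 1 ≤ X →
    (∀ l ∈ P, l.Prime ∧ l ≤ X) → (∀ l ∈ P, 0 ≤ g l ∧ g l ≤ 2) →
    Real.exp (∑ l ∈ P, g l / l) ≤
      C * ∑ S ∈ P.powerset.filter (fun S => ∏ l ∈ S, l ≤ X ^ 9), ∏ l ∈ S, g l / l := by
  refine ⟨2 * Real.exp 4, by positivity, fun X P g hX hP hg => ?_⟩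
  have hw0 : ∀ p ∈ P, 0 ≤ g p / p := fun p hp => div_nonneg (hg p hp).1 (Nat.cast_nonneg p)
  have hw2 : ∀ p ∈ P, g p / p ≤ 2 / p := fun p hp =>
    div_le_div_of_nonneg_right (hg p hp).2 (Nat.cast_nonneg p)
  by_cases hy : 8 ≤ X
  · have h1 := tpr_half hy P (fun p => g p / p) hP hw0 hw2
    have h2 : ∑ p ∈ P, (g p / p) ^ 2 ≤ 4 := by
      have h3 := Lib.Sieve.sum_inv_sq_primes_le P fun p hp => (hP p hp).1
      calc ∑ p ∈ P, (g p / p) ^ 2 ≤ ∑ p ∈ P, 4 * (1 / (p : ℝ)) ^ 2 := by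
            refine sum_le_sum fun p hp => ?_
            calc (g p / p) ^ 2 ≤ (2 / p) ^ 2 := pow_le_pow_left₀ (hw0 p hp) (hw2 p hp) 2
              _ = _ := by ring
        _ = 4 * ∑ p ∈ P, (1 / (p : ℝ)) ^ 2 := by rw [mul_sum]
        _ ≤ 4 := by linarith
    have hpos : 0 ≤ ∏ p ∈ P, (1 + g p / p) :=
      prod_nonneg fun p hp => by have := hw0 p hp; positivity
    calc Real.exp (∑ l ∈ P, g l / l) = ∏ l ∈ P, Real.exp (g l / l) := Real.exp_sum _ _
      _ ≤ ∏ l ∈ P, ((1 + g l / l) * Real.exp ((g l / l) ^ 2)) :=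
          prod_le_prod (fun _ _ => (Real.exp_pos _).le) fun l hl => tpr_exp_le (hw0 l hl)
      _ = (∏ l ∈ P, (1 + g l / l)) * Real.exp (∑ l ∈ P, (g l / l) ^ 2) := by
          rw [prod_mul_distrib, Real.exp_sum]
      _ ≤ (∏ l ∈ P, (1 + g l / l)) * Real.exp 4 :=
          mul_le_mul_of_nonneg_left (Real.exp_le_exp.2 h2) hpos
      _ = 2 * Real.exp 4 * ((∏ l ∈ P, (1 + g l / l)) / 2) := by ring
      _ ≤ _ := mul_le_mul_of_nonneg_left h1 (by positivity)
  · have h1 : (1 : ℝ) ≤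
        ∑ S ∈ P.powerset.filter (fun S => ∏ l ∈ S, l ≤ X ^ 9), ∏ l ∈ S, g l / l := by
      have hm : (∅ : Finset ℕ) ∈ P.powerset.filter (fun S => ∏ l ∈ S, l ≤ X ^ 9) := by
        rw [mem_filter, prod_empty]
        exact ⟨empty_mem_powerset P, Nat.one_le_pow _ _ hX⟩
      have := single_le_sum (f := fun S : Finset ℕ => ∏ l ∈ S, g l / l)
        (fun S hS => prod_nonneg fun l hl => hw0 l (mem_powerset.1 (mem_filter.1 hS).1 hl)) hm
      rwa [prod_empty] at this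
    have h2 : ∑ l ∈ P, g l / l ≤ 4 := by
      have hsub : P ⊆ {2, 3, 5, 7} := fun l hl => by
        obtain ⟨h3, h4⟩ := hP l hl
        have h5 : l ≤ 7 := by omega
        interval_cases l <;> simp_all (decide := true)
      calc ∑ l ∈ P, g l / l ≤ ∑ l ∈ P, 2 / (l : ℝ) := sum_le_sum hw2
        _ ≤ ∑ l ∈ ({2, 3, 5, 7} : Finset ℕ), 2 / (l : ℝ) :=
            sum_le_sum_of_subset_of_nonneg hsub fun _ _ _ => by positivity
        _ ≤ 4 := by norm_num
    have h3 := Real.exp_le_exp.2 h2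
    have h4 := Real.exp_pos 4
    nlinarith

theorem EE_comp (A : ℕ) : ∃ C : ℝ, 0 < C ∧ ∀ (D : ℤ) (X Y : ℕ), X ≤ Y ^ A → Y ≤ X ^ A →
    EE D X ≤ C * EE D Y := by
  obtain ⟨C, hC⟩ := range_pow A
  refine ⟨Real.exp C, Real.exp_pos _, fun D X Y h1 h2 => ?_⟩
  rw [EE, EE, ← Real.exp_add]
  apply Real.exp_le_exp.2
  rcases le_total X Y with h | h
  · have h3 := tpr_split (fun l => (jacobiSym D l : ℝ) / l) h
    have h4 := tpr_le_sum D ((Nat.primesLE Y).filter (fun l => X < l))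
    have h5 := hC X Y h2
    linarith
  · have h3 := tpr_split (fun l => (jacobiSym D l : ℝ) / l) h
    have h4 := tpr_sum_le D ((Nat.primesLE X).filter (fun l => Y < l))
    have h5 := hC Y X h1
    linarith

theorem EE_log : ∃ C : ℝ, 0 < C ∧ ∀ (D : ℤ) (X : ℕ), 2 ≤ X →
    EE D X ≤ C * Real.log X ∧ 1 ≤ C * Real.log X * EE D X := by
  refine ⟨Real.exp 7, Real.exp_pos _, fun D X hX => ?_⟩
  have h1 := Lib.Sieve.sum_inv_primes_le hX
  have h2 := Lib.Sieve.one_half_le_log hX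
  have h3 : Real.exp 7 * Real.log X = Real.exp (Real.log (Real.log X) + 7) := by
    rw [Real.exp_add, Real.exp_log (by linarith), mul_comm]
  have h4 := tpr_sum_le D (Nat.primesLE X)
  have h5 := tpr_le_sum D (Nat.primesLE X)
  rw [h3, EE, ← Real.exp_add]
  exact ⟨Real.exp_le_exp.2 (by linarith), Real.one_le_exp (by linarith)⟩

theorem exp_primes_le (K : ℕ) : ∃ C : ℝ, 0 < C ∧ ∀ X : ℕ, 2 ≤ X →
    Real.exp (K * ∑ l ∈ Nat.primesLE X, 1 / (l : ℝ)) ≤ C * Real.log X ^ K := by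
  refine ⟨Real.exp 7 ^ K, by positivity, fun X hX => ?_⟩
  have h1 := Lib.Sieve.sum_inv_primes_le hX
  have h2 := Lib.Sieve.one_half_le_log hX
  have h3 : Real.exp 7 * Real.log X = Real.exp (Real.log (Real.log X) + 7) := by
    rw [Real.exp_add, Real.exp_log (by linarith), mul_comm]
  rw [← mul_pow, h3, Real.exp_nat_mul]
  exact pow_le_pow_left₀ (Real.exp_pos _).le (Real.exp_le_exp.2 h1) K

theorem tpr_omega (K : ℝ) {ε : ℝ} (hε : 0 < ε) : ∃ C : ℝ, 0 < C ∧ ∀ n : ℕ, n ≠ 0 →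
    ∏ l ∈ n.primeFactors, (|K| * (n.factorization l + 1) ^ 3) ≤ C * (n : ℝ) ^ ε := by
  obtain ⟨j, hj⟩ := pow_unbounded_of_one_lt |K| (one_lt_two (α := ℝ))
  have hj3 : (0 : ℝ) < ((j + 3 : ℕ) : ℝ) := by positivity
  obtain ⟨C, hC, hd⟩ := div_bound (ε := ε / ((j + 3 : ℕ) : ℝ)) (by positivity)
  refine ⟨C ^ (j + 3), by positivity, fun n hn => ?_⟩
  have h1 := hd n (Nat.pos_of_ne_zero hn)
  have h2 : (n.divisors.card : ℝ) = ∏ l ∈ n.primeFactors, ((n.factorization l : ℝ) + 1) := by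
    rw [Nat.card_divisors hn]; push_cast; rfl
  calc ∏ l ∈ n.primeFactors, (|K| * ((n.factorization l : ℝ) + 1) ^ 3)
      ≤ ∏ l ∈ n.primeFactors, ((n.factorization l : ℝ) + 1) ^ (j + 3) := by
        refine prod_le_prod (fun l _ => by positivity) fun l hl => ?_
        have h3 : 0 < n.factorization l := (Nat.prime_of_mem_primeFactors hl).factorization_pos_of_dvd
          hn (Nat.dvd_of_mem_primeFactors hl)
        have h4 : (2 : ℝ) ≤ (n.factorization l : ℝ) + 1 := by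
          have : (1 : ℝ) ≤ n.factorization l := by exact_mod_cast h3
          linarith
        rw [pow_add]
        exact mul_le_mul_of_nonneg_right
          (hj.le.trans (pow_le_pow_left₀ (by norm_num) h4 j)) (by positivity)
    _ = (n.divisors.card : ℝ) ^ (j + 3) := by rw [prod_pow, h2]
    _ ≤ (C * (n : ℝ) ^ (ε / ((j + 3 : ℕ) : ℝ))) ^ (j + 3) :=
        pow_le_pow_left₀ (by positivity) h1 _
    _ = _ := by
        rw [mul_pow, ← Real.rpow_mul_natCast (Nat.cast_nonneg n), div_mul_cancel₀ _ hj3.ne']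

theorem tpr_exp_pf {ε : ℝ} (hε : 0 < ε) : ∃ C : ℝ, 0 < C ∧ ∀ n : ℕ, n ≠ 0 →
    Real.exp (∑ l ∈ n.primeFactors, 1 / (l : ℝ)) ≤ C * (n : ℝ) ^ ε := by
  obtain ⟨C, hC, h⟩ := tpr_omega 3 hε
  refine ⟨C, hC, fun n hn => le_trans ?_ (h n hn)⟩
  rw [Real.exp_sum]
  refine prod_le_prod (fun _ _ => (Real.exp_pos _).le) fun l hl => ?_
  have h1 : (1 : ℝ) ≤ l := by exact_mod_cast (Nat.prime_of_mem_primeFactors hl).one_le
  have h2 : Real.exp (1 / (l : ℝ)) ≤ Real.exp 1 :=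
    Real.exp_le_exp.2 (by rw [div_le_one (by linarith)]; exact h1)
  have h3 := Real.exp_one_lt_d9
  have h4 : (1 : ℝ) ≤ ((n.factorization l : ℝ) + 1) ^ 3 :=
    one_le_pow₀ (by have := Nat.cast_nonneg (α := ℝ) (n.factorization l); linarith)
  rw [abs_of_pos (by norm_num : (0 : ℝ) < 3)]
  linarith

theorem tpr_twist (E : ℤ) {G : ℕ} (hG : 0 < G) (X : ℕ) :
    ∑ l ∈ Nat.primesLE X, (jacobiSym E l : ℝ) / l ≤
      ∑ l ∈ Nat.primesLE X, (jacobiSym (G ^ 2 * E) l : ℝ) / l +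
        2 * ∑ l ∈ G.primeFactors, 1 / (l : ℝ) := by
  have h1 : ∑ l ∈ (Nat.primesLE X).filter (fun l => l ∣ G), 1 / (l : ℝ) ≤
      ∑ l ∈ G.primeFactors, 1 / (l : ℝ) := by
    refine sum_le_sum_of_subset_of_nonneg (fun l hl => ?_) fun _ _ _ => by positivity
    have := mem_filter.1 hl
    exact Nat.mem_primeFactors.2 ⟨Nat.prime_of_mem_primesLE this.1, this.2, hG.ne'⟩
  have h2 : ∑ l ∈ Nat.primesLE X, (jacobiSym E l : ℝ) / l ≤
      ∑ l ∈ Nat.primesLE X, ((jacobiSym (G ^ 2 * E) l : ℝ) / l +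
        2 * if l ∣ G then 1 / (l : ℝ) else 0) := by
    refine sum_le_sum fun l hl => ?_
    have hp := Nat.prime_of_mem_primesLE hl
    split_ifs with h
    · have h3 := tpr_jac_le E l
      have h4 := tpr_le_jac (G ^ 2 * E) l
      linarith
    · have h3 : (G : ℤ).gcd l = 1 := by
        rw [Int.gcd_natCast_natCast]
        exact ((Nat.Prime.coprime_iff_not_dvd hp).2 h).symm
      rw [jacobiSym.mul_left, jacobiSym.sq_one' h3, one_mul, mul_zero, add_zero]
  rw [sum_add_distrib, ← mul_sum, ← sum_filter] at h2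
  linarith

theorem HH_le {ε : ℝ} (hε : 0 < ε) : ∃ C : ℝ, 0 < C ∧ ∀ (E : ℤ) (G : ℕ), E < -1 → 0 < G →
    G * HH E ≤ C * (G : ℝ) ^ ε * HH (G ^ 2 * E) := by
  have hδ : 0 < ε / 3 := by positivity
  obtain ⟨C, hC, h⟩ := tpr_exp_pf hδ
  refine ⟨C ^ 2 * (Real.exp 9 * (1 + 4 / (ε / 3))), by positivity, fun E G hE hG => ?_⟩
  have hG0 : (0 : ℝ) < G := by exact_mod_cast hG
  have hG1 : (1 : ℝ) ≤ G := by exact_mod_cast hG
  have hz : 2 ≤ E.natAbs := by omega
  have hn : ((G : ℤ) ^ 2 * E).natAbs = G ^ 2 * E.natAbs := by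
    rw [Int.natAbs_mul, Int.natAbs_pow, Int.natAbs_natCast]
  have hle : E.natAbs ≤ G ^ 2 * E.natAbs := Nat.le_mul_of_pos_left _ (by positivity)
  have hs : Real.sqrt (-(((G : ℤ) ^ 2 * E : ℤ) : ℝ)) = G * Real.sqrt (-(E : ℝ)) := by
    push_cast
    rw [show -((G : ℝ) ^ 2 * E) = (G : ℝ) ^ 2 * -E by ring, Real.sqrt_mul (by positivity),
      Real.sqrt_sq hG0.le]
  have h1 := tpr_twist E hG E.natAbs
  have h2 := tpr_split (fun l => (jacobiSym (G ^ 2 * E) l : ℝ) / l) hle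
  have h3 := tpr_le_sum (G ^ 2 * E)
    ((Nat.primesLE (G ^ 2 * E.natAbs)).filter (fun l => E.natAbs < l))
  have h4 := range_le hz hle
  have h5 := Lib.Sieve.one_half_le_log hz
  have hlG : 0 ≤ Real.log G := Real.log_natCast_nonneg G
  have hz0 : (0 : ℝ) < E.natAbs := by exact_mod_cast (by omega : 0 < E.natAbs)
  have h6 : Real.log ((G ^ 2 * E.natAbs : ℕ) : ℝ) = 2 * Real.log G + Real.log E.natAbs := by
    rw [Nat.cast_mul, Nat.cast_pow, Real.log_mul (by positivity) hz0.ne', Real.log_pow]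
    norm_num
  set r := Real.log ((G ^ 2 * E.natAbs : ℕ) : ℝ) / Real.log E.natAbs with hr
  have hr0 : 0 < r := div_pos (by linarith) (by linarith)
  have hr1 : r ≤ 1 + 4 * Real.log G := by
    rw [hr, div_le_iff₀ (by linarith), h6]
    have := mul_le_mul_of_nonneg_left h5 hlG
    linarith
  have hg1 : 1 ≤ (G : ℝ) ^ (ε / 3) := Real.one_le_rpow hG1 hδ.le
  have hg2 := Real.log_le_rpow_div hG0.le hδ
  have hr2 : r ≤ (1 + 4 / (ε / 3)) * (G : ℝ) ^ (ε / 3) := by
    have e : (1 + 4 / (ε / 3)) * (G : ℝ) ^ (ε / 3) =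
        (G : ℝ) ^ (ε / 3) + 4 * ((G : ℝ) ^ (ε / 3) / (ε / 3)) := by ring
    linarith
  have h7 := h G hG.ne'
  have hε3 : (G : ℝ) ^ ε = ((G : ℝ) ^ (ε / 3)) ^ 3 := by
    rw [← Real.rpow_mul_natCast hG0.le]
    congr 1
    push_cast
    ring
  have key : EE E E.natAbs ≤ C ^ 2 * (Real.exp 9 * (1 + 4 / (ε / 3))) * (G : ℝ) ^ ε *
      EE (G ^ 2 * E) (G ^ 2 * E.natAbs) := by
    calc EE E E.natAbs ≤ Real.exp (∑ l ∈ G.primeFactors, 1 / (l : ℝ)) ^ 2 * (Real.exp 9 * r) *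
          EE (G ^ 2 * E) (G ^ 2 * E.natAbs) := by
          rw [EE, EE, ← Real.exp_log hr0, ← Real.exp_nat_mul, ← Real.exp_add, ← Real.exp_add,
            ← Real.exp_add]
          apply Real.exp_le_exp.2
          rw [Nat.cast_ofNat]
          linarith
      _ ≤ (C * (G : ℝ) ^ (ε / 3)) ^ 2 * (Real.exp 9 * ((1 + 4 / (ε / 3)) * (G : ℝ) ^ (ε / 3))) *
          EE (G ^ 2 * E) (G ^ 2 * E.natAbs) := by
          have := (EE_pos (G ^ 2 * E) (G ^ 2 * E.natAbs)).le
          gcongr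
      _ = _ := by rw [hε3]; ring
  rw [HH, HH, hs, hn]
  have h8 : 0 ≤ G * Real.sqrt (-(E : ℝ)) := by positivity
  calc G * (Real.sqrt (-(E : ℝ)) * EE E E.natAbs)
      = G * Real.sqrt (-(E : ℝ)) * EE E E.natAbs := by ring
    _ ≤ G * Real.sqrt (-(E : ℝ)) * (C ^ 2 * (Real.exp 9 * (1 + 4 / (ε / 3))) * (G : ℝ) ^ ε *
      EE (G ^ 2 * E) (G ^ 2 * E.natAbs)) := mul_le_mul_of_nonneg_left key h8
    _ = _ := by ring

theorem omega_bound (K : ℝ) {ε : ℝ} (hε : 0 < ε) : ∃ C : ℝ, 0 < C ∧ ∀ n : ℕ, n ≠ 0 →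
    ∏ l ∈ n.primeFactors, (K * (n.factorization l + 1) ^ 3) ≤ C * (n : ℝ) ^ ε := by
  obtain ⟨C, hC, h⟩ := tpr_omega K hε
  refine ⟨C, hC, fun n hn => le_trans ((le_abs_self _).trans (le_of_eq ?_)) (h n hn)⟩
  rw [abs_prod]
  refine prod_congr rfl fun l _ => ?_
  rw [abs_mul, abs_of_nonneg (a := ((n.factorization l : ℝ) + 1) ^ 3) (by positivity)]

end Pool.Agent.EQ
end
end

-- part Pool.Agent.P.MP_ad7a55_nt.WLa
section

/-! Sums of coefficients and a real zero near one. -/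

set_option autoImplicit false

noncomputable section

open Finset

namespace Pool.Agent.EQ

/-- The logarithmic sum of the coefficients. -/
def SL1 (a : ℕ → ℝ) (X : ℕ) : ℝ := ∑ m ∈ Icc 1 X, a m / m

/-- `ζ f` is a series with the nonnegative coefficients `a`, and `f` is bounded by `M`. -/
structure Ser (f : ℂ → ℂ) (a : ℕ → ℝ) (M : ℝ) : Prop where
  diff : Differentiable ℂ f
  one_le : 1 ≤ M
  bd : ∀ s ∈ Metric.closedBall (2 : ℂ) (4 / 3), ‖f s‖ ≤ M
  nn : ∀ n, 0 ≤ a n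
  one : 1 ≤ a 1
  sum : ∀ s : ℂ, 1 < s.re → LSeriesHasSum (fun n => (a n : ℂ)) s (riemannZeta s * f s)

theorem wla_iter (g : ℕ → ℂ) (n m : ℕ) : (LSeries.logMul^[n] g) m = Complex.log m ^ n * g m := by
  induction n with
  | zero => simp
  | succ n ih =>
    rw [Function.iterate_succ_apply', LSeries.logMul, ih]
    ring

open Filter Topology in
theorem wla_coeff {f : ℂ → ℂ} {a : ℕ → ℝ} {M : ℝ} (h : Ser f a M) (n : ℕ) :
    HasSum (fun m : ℕ => a m / (m : ℝ) ^ 2 * (Real.log m ^ n / n.factorial))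
      (((n.factorial : ℂ)⁻¹ * ((-1) ^ n * iteratedDeriv n (sgG f) 2)).re + (f 1).re) := by
  have hs := h.sum
  have hab : LSeries.abscissaOfAbsConv (fun n => (a n : ℂ)) ≤ (1 : ℝ) :=
    LSeries.abscissaOfAbsConv_le_of_forall_lt_LSeriesSummable fun y hy =>
      (hs y (by simpa using hy)).LSeriesSummable
  have hlt : LSeries.abscissaOfAbsConv (fun n => (a n : ℂ)) < (2 : ℂ).re :=
    hab.trans_lt (by exact_mod_cast (show (1 : ℝ) < (2 : ℂ).re by norm_num))
  have h1 := LSeries_iteratedDeriv n hlt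
  have hev : LSeries (fun n => (a n : ℂ)) =ᶠ[𝓝 2] sgG f + fun s => f 1 * (s - 1)⁻¹ := by
    filter_upwards [(isOpen_lt continuous_const Complex.continuous_re).mem_nhds
      (show (2 : ℂ) ∈ {s : ℂ | 1 < s.re} by norm_num)] with s hs'
    rw [(hs s hs').LSeries_eq, sgG_eq f (by rintro rfl; simp at hs')]
    rfl
  have hinv : iteratedDeriv n (fun s : ℂ => (s - 1)⁻¹) 2 = (-1) ^ n * n.factorial := by
    have := congrFun (iter_deriv_inv_linear_sub n (1 : ℂ) 1) 2
    simp only [one_mul] at this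
    rw [iteratedDeriv_eq_iterate, this]
    norm_num
  have hc : ContDiffAt ℂ n (fun s : ℂ => f 1 * (s - 1)⁻¹) 2 :=
    contDiffAt_const.mul ((contDiffAt_id.sub contDiffAt_const).inv (by norm_num))
  rw [hev.iteratedDeriv_eq, iteratedDeriv_add (sgG_diff h.diff).contDiff.contDiffAt hc,
    iteratedDeriv_const_mul_field, hinv] at h1
  have hn : (n.factorial : ℂ) ≠ 0 := by exact_mod_cast n.factorial_ne_zero
  have h2 : LSeriesSummable (LSeries.logMul^[n] fun n => (a n : ℂ)) 2 :=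
    LSeriesSummable_of_abscissaOfAbsConv_lt_re
      (by rwa [LSeries.absicssaOfAbsConv_logPowMul])
  have h3 := Complex.hasSum_re (h2.LSeriesHasSum.mul_left (n.factorial : ℂ)⁻¹)
  have h4 : (n.factorial : ℂ)⁻¹ * LSeries (LSeries.logMul^[n] fun n => (a n : ℂ)) 2 =
      (n.factorial : ℂ)⁻¹ * ((-1) ^ n * iteratedDeriv n (sgG f) 2) + f 1 := by
    have h5 : ((-1 : ℂ) ^ n) ^ 2 = 1 := by rw [← pow_mul, mul_comm, pow_mul]; norm_num
    field_simp
    linear_combination (-(-1 : ℂ) ^ n) * h1 +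
      (f 1 * n.factorial - LSeries (LSeries.logMul^[n] fun n => (a n : ℂ)) 2) * h5
  rw [h4, Complex.add_re] at h3
  have h6 : (fun m : ℕ => a m / (m : ℝ) ^ 2 * (Real.log m ^ n / n.factorial)) = fun m : ℕ =>
      ((n.factorial : ℂ)⁻¹ * LSeries.term (LSeries.logMul^[n] fun n => (a n : ℂ)) 2 m).re := by
    funext m
    rcases eq_or_ne m 0 with rfl | hm
    · simp
    · rw [LSeries.term_of_ne_zero hm, wla_iter, ← Complex.natCast_log, Complex.cpow_two,
        ← Complex.ofReal_re (a m / (m : ℝ) ^ 2 * (Real.log m ^ n / n.factorial))]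
      refine congrArg Complex.re ?_
      push_cast
      ring
  rw [h6]
  exact h3

theorem wla_real {u : ℕ → ℝ} {lam B t : ℝ} (ht1 : 1 < t) (ht2 : t ≤ 16 / 15)
    (hS : HasSum (fun n => u n * t ^ n) (lam / (t - 1))) (hB : ∀ n, |u n| ≤ B * (3 / 4) ^ n)
    (K : ℕ) : |∑ n ∈ range (K + 1), (u n + lam) * t ^ n - lam * t ^ (K + 1) / (t - 1)| ≤
      4 * B * (4 / 5) ^ K := by
  have hB0 : 0 ≤ B := by simpa using (abs_nonneg _).trans (hB 0)
  have ht0 : 0 < t := by linarith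
  have h1 := (hasSum_nat_add_iff' (K + 1)).2 hS
  have h2 := (hasSum_geometric_of_lt_one (r := 4 / 5) (by norm_num) (by norm_num)).mul_left
    (B * (4 / 5) ^ (K + 1))
  have h3 : ∀ n, |u (n + (K + 1)) * t ^ (n + (K + 1))| ≤ B * (4 / 5) ^ (K + 1) * (4 / 5) ^ n := by
    intro n
    have h4 : (3 / 4 : ℝ) ^ (n + (K + 1)) * t ^ (n + (K + 1)) ≤ (4 / 5) ^ (n + (K + 1)) := by
      rw [← mul_pow]
      exact pow_le_pow_left₀ (by positivity) (by linarith) _
    rw [abs_mul, abs_of_pos (pow_pos ht0 _)]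
    calc _ ≤ B * (3 / 4) ^ (n + (K + 1)) * t ^ (n + (K + 1)) :=
          mul_le_mul_of_nonneg_right (hB _) (pow_pos ht0 _).le
      _ = B * ((3 / 4) ^ (n + (K + 1)) * t ^ (n + (K + 1))) := mul_assoc _ _ _
      _ ≤ B * (4 / 5) ^ (n + (K + 1)) := mul_le_mul_of_nonneg_left h4 hB0
      _ = _ := by ring
  have h4 := hasSum_le (fun n => (abs_le.1 (h3 n)).2) h1 h2
  have h5 := hasSum_le (fun n => (abs_le.1 (h3 n)).1) h2.neg h1
  have h6 : ∑ n ∈ range (K + 1), (u n + lam) * t ^ n - lam * t ^ (K + 1) / (t - 1) =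
      -(lam / (t - 1) - ∑ n ∈ range (K + 1), u n * t ^ n) := by
    simp only [add_mul]
    rw [sum_add_distrib, ← mul_sum, geom_sum_eq ht1.ne']
    ring
  have h7 : B * (4 / 5) ^ (K + 1) * (1 - 4 / 5 : ℝ)⁻¹ = 4 * B * (4 / 5) ^ K := by
    norm_num
    ring
  rw [h6, abs_neg, abs_le, ← h7]
  exact ⟨h5, h4⟩

theorem wla_hc {f g : ℕ → ℝ} {S : ℝ} (h : HasSum f S) (e : ∀ n, f n = g n) : HasSum g S := by
  have e1 : f = g := funext e
  rw [← e1]
  exact h

theorem ser_core : ∃ C : ℝ, 1 ≤ C ∧ ∀ (f : ℂ → ℂ) (a : ℕ → ℝ) (M : ℝ), Ser f a M → ∀ β : ℝ,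
    14 / 15 ≤ β → β < 1 → f β = 0 → ∀ K : ℕ, ∃ S : ℝ,
      HasSum (fun m : ℕ => a m / (m : ℝ) ^ 2 *
        ∑ n ∈ range (K + 1), ((2 - β) * Real.log m) ^ n / n.factorial) S ∧
      |S - (f 1).re * (2 - β) ^ (K + 1) / (1 - β)| ≤ C * M * (4 / 5) ^ K := by
  obtain ⟨C, hC1, hC⟩ := sg_bound
  refine ⟨4 * (C + 6), by linarith, fun f a M h β h1 h2 h0 K => ?_⟩
  have hf := h.diff
  have hS : HasSum (fun n : ℕ =>
      ((n.factorial : ℂ)⁻¹ * ((-1) ^ n * iteratedDeriv n (sgG f) 2)).re * (2 - β) ^ n)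
      (sgG f β).re := by
    have := Complex.hasSum_re (Complex.hasSum_taylorSeries_of_entire (sgG_diff hf) 2 β)
    refine wla_hc this fun n => ?_
    rw [← Complex.re_mul_ofReal]
    refine congrArg Complex.re ?_
    push_cast
    rw [smul_eq_mul, smul_eq_mul, ← neg_sub (2 : ℂ) β, neg_pow (2 - (β : ℂ))]
    ring
  have hB : ∀ n : ℕ, |((n.factorial : ℂ)⁻¹ * ((-1) ^ n * iteratedDeriv n (sgG f) 2)).re| ≤
      (C + 6) * M * (3 / 4) ^ n := fun n => by
    refine (Complex.abs_re_le_norm _).trans ?_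
    have h4 := Complex.norm_iteratedDeriv_le_of_forall_mem_sphere_norm_le n
      (show (0 : ℝ) < 4 / 3 by norm_num) (sgG_diff hf).diffContOnCl fun z hz => sgG_le hC h.bd hz
    have hn : (0 : ℝ) < n.factorial := by exact_mod_cast n.factorial_pos
    rw [norm_mul, norm_mul, norm_pow, norm_neg, norm_one, one_pow, one_mul, norm_inv,
      Complex.norm_natCast, inv_mul_le_iff₀ hn]
    refine h4.trans_eq ?_
    rw [div_eq_mul_inv, ← inv_pow]
    norm_num
    ring
  have he : (sgG f β).re = (f 1).re / (2 - β - 1) := by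
    have h3 := congrArg Complex.re (sgG_eq f (s := β) (by exact_mod_cast h2.ne))
    rw [h0, mul_zero, Complex.zero_re, Complex.add_re, sg_re_inv, Complex.re_mul_ofReal] at h3
    have h4 : (β - 1)⁻¹ = -(2 - β - 1)⁻¹ := by rw [← inv_neg]; congr 1; ring
    rw [h4] at h3
    rw [div_eq_mul_inv]
    linarith
  rw [he] at hS
  have h4 := wla_real (by linarith) (by linarith) hS hB K
  rw [show 2 - β - 1 = 1 - β by ring] at h4
  refine ⟨_, ?_, h4.trans_eq (by ring)⟩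
  have h5 := hasSum_sum (s := range (K + 1)) fun n _ => (wla_coeff h n).mul_right ((2 - β) ^ n)
  refine wla_hc h5 fun m => ?_
  rw [mul_sum]
  refine sum_congr rfl fun n _ => ?_
  rw [mul_pow]
  ring

theorem exp_half {x : ℝ} (hx : 0 ≤ x) {K : ℕ} (h : 2 * x ≤ K + 1) :
    Real.exp x / 2 ≤ ∑ n ∈ range (K + 1), x ^ n / n.factorial := by
  have h0 : HasSum (fun n : ℕ => x ^ n / n.factorial) (Real.exp x) := by
    rw [Real.exp_eq_exp_ℝ]
    exact NormedSpace.expSeries_div_hasSum_exp x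
  have h1 := (hasSum_nat_add_iff' (K + 1)).2 h0
  have h2 := ((hasSum_nat_add_iff' K).2 h0).mul_left (1 / 2)
  have h3 := hasSum_le (fun n => ?_) h1 h2
  · have h4 : 0 ≤ ∑ n ∈ range K, x ^ n / n.factorial := sum_nonneg fun n _ => by positivity
    linarith
  · rw [← add_assoc, Nat.factorial_succ, pow_succ]
    have h4 : (0 : ℝ) < (n + K).factorial := by exact_mod_cast (n + K).factorial_pos
    have h5 : (0 : ℝ) ≤ n := n.cast_nonneg
    have h6 : (0 : ℝ) ≤ K := K.cast_nonneg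
    have h7 : x / (n + K + 1) ≤ 1 / 2 := by
      rw [div_le_iff₀ (by linarith)]
      linarith
    have h8 := mul_le_mul_of_nonneg_right h7 (div_nonneg (pow_nonneg hx (n + K)) h4.le)
    refine le_trans (le_of_eq ?_) h8
    push_cast
    field_simp

theorem exp_eight {x : ℝ} (hx : 0 ≤ x) (K : ℕ) :
    ∑ n ∈ range (K + 1), x ^ n / n.factorial ≤ 8 ^ K * Real.exp (x / 8) := by
  refine le_trans ?_ (mul_le_mul_of_nonneg_left
    (Real.sum_le_exp_of_nonneg (div_nonneg hx (by norm_num)) (K + 1)) (by positivity))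
  rw [mul_sum]
  refine sum_le_sum fun n hn => ?_
  have h1 : (8 : ℝ) ^ n ≤ 8 ^ K :=
    pow_le_pow_right₀ (by norm_num) (Nat.lt_succ_iff.1 (mem_range.1 hn))
  have h2 := mul_le_mul_of_nonneg_right h1 (show 0 ≤ (x / 8) ^ n / n.factorial by positivity)
  refine le_trans (le_of_eq ?_) h2
  rw [div_pow]
  field_simp

theorem wla_log {q : ℕ} (hq : 2 ≤ q) : 1 / 2 ≤ Real.log q := by
  have h1 : Real.log 2 ≤ Real.log q := Real.log_le_log (by norm_num) (by exact_mod_cast hq)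
  linarith [Real.log_two_gt_d9]

theorem wla_pow {q : ℕ} (hq : 2 ≤ q) (A : ℕ) : (q : ℝ) ^ A = Real.exp (A * Real.log q) := by
  rw [Real.exp_nat_mul, Real.exp_log (by exact_mod_cast (by omega : 0 < q))]

theorem wla_K {C : ℝ} (hC : 1 ≤ C) (A : ℕ) : ∃ D : ℝ, 0 ≤ D ∧ ∀ (q : ℕ) (M : ℝ), 2 ≤ q →
    M ≤ (q : ℝ) ^ A → ∃ K : ℕ, C * M * (4 / 5) ^ K ≤ 1 / 4 ∧ 2 * (A * Real.log q) ≤ K + 1 ∧
      (K : ℝ) + 1 ≤ D * Real.log q := by
  have hl : 0 ≤ Real.log (4 * C) := Real.log_nonneg (by linarith)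
  have hA : (0 : ℝ) ≤ A := A.cast_nonneg
  refine ⟨10 * Real.log (4 * C) + 5 * A + 4, by positivity, fun q M hq hM => ?_⟩
  have hL := wla_log hq
  have h0 : 0 ≤ (10 * Real.log (4 * C) + 5 * A) * Real.log q := by positivity
  have h1 := Nat.le_ceil ((10 * Real.log (4 * C) + 5 * A) * Real.log q)
  have h2 := Nat.ceil_lt_add_one h0
  generalize ⌈(10 * Real.log (4 * C) + 5 * A) * Real.log q⌉₊ = K at h1 h2
  have h3 := mul_le_mul_of_nonneg_left hL hl
  have h4 : 0 ≤ A * Real.log q := by positivity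
  refine ⟨K, ?_, by nlinarith, by nlinarith⟩
  have h5 : (4 / 5 : ℝ) ≤ Real.exp (-(1 / 5)) := by
    have := Real.add_one_le_exp (-(1 / 5))
    linarith
  have h6 : (4 / 5 : ℝ) ^ K ≤ Real.exp (-Real.log (4 * C)) * Real.exp (-(A * Real.log q)) := by
    refine (pow_le_pow_left₀ (by norm_num) h5 K).trans ?_
    rw [← Real.exp_nat_mul, ← Real.exp_add]
    exact Real.exp_le_exp.2 (by nlinarith)
  rw [wla_pow hq] at hM
  rw [Real.exp_neg, Real.exp_neg, Real.exp_log (by linarith)] at h6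
  have h7 := Real.exp_pos (A * Real.log q)
  calc C * M * (4 / 5) ^ K ≤ C * Real.exp (A * Real.log q) * (4 / 5) ^ K := by gcongr
    _ ≤ C * Real.exp (A * Real.log q) * ((4 * C)⁻¹ * (Real.exp (A * Real.log q))⁻¹) := by gcongr
    _ = 1 / 4 := by field_simp

theorem wla_one {f : ℂ → ℂ} {a : ℕ → ℝ} {M : ℝ} (h : Ser f a M) {X : ℕ} (hX : 1 ≤ X) :
    1 ≤ SL1 a X := by
  have := single_le_sum (f := fun m : ℕ => a m / m) (s := Icc 1 X)
    (fun m _ => div_nonneg (h.nn m) m.cast_nonneg) (mem_Icc.2 ⟨le_rfl, hX⟩)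
  simp only [Nat.cast_one, div_one] at this
  exact h.one.trans this

theorem wla_logle {q m A : ℕ} (_hq : 2 ≤ q) (h1 : 1 ≤ m) (hm : m ≤ q ^ A) :
    Real.log m ≤ A * Real.log q := by
  rw [← Real.log_pow]
  exact Real.log_le_log (by exact_mod_cast h1) (by exact_mod_cast hm)

theorem ser_up (A : ℕ) : ∃ C : ℝ, 0 < C ∧ ∀ (f : ℂ → ℂ) (a : ℕ → ℝ) (M : ℝ) (q : ℕ) (β : ℝ),
    Ser f a M → 2 ≤ q → M ≤ (q : ℝ) ^ A → 14 / 15 ≤ β → β < 1 → (1 - β) * Real.log q ≤ 1 →
      f β = 0 → (1 - β) * SL1 a (q ^ A) ≤ C * (f 1).re := by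
  obtain ⟨C, hC1, hC⟩ := ser_core
  obtain ⟨D, hD0, hD⟩ := wla_K hC1 A
  refine ⟨4 * Real.exp D, by positivity, fun f a M q β h hq hM h1 h2 h3 h0 => ?_⟩
  obtain ⟨K, k1, k2, k3⟩ := hD q M hq hM
  obtain ⟨S, hS, hb⟩ := hC f a M h β h1 h2 h0 K
  have hone := wla_one h (Nat.one_le_pow A q (by omega))
  have hy : 0 < 1 - β := by linarith
  have s1 : SL1 a (q ^ A) / 2 ≤ S := by
    refine le_trans ?_ (sum_le_hasSum (Icc 1 (q ^ A)) (fun m _ => mul_nonneg
      (div_nonneg (h.nn m) (by positivity)) (sum_nonneg fun n _ => div_nonneg (pow_nonneg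
        (mul_nonneg (by linarith) (Real.log_natCast_nonneg m)) n) (by positivity))) hS)
    rw [SL1, sum_div]
    refine sum_le_sum fun m hm => ?_
    rw [mem_Icc] at hm
    have m0 : (0 : ℝ) < m := by exact_mod_cast hm.1
    have l0 := Real.log_natCast_nonneg m
    have e1 := exp_half l0 (K := K) (by linarith [wla_logle hq hm.1 hm.2])
    rw [Real.exp_log m0] at e1
    have e2 : ∑ n ∈ range (K + 1), Real.log m ^ n / n.factorial ≤
        ∑ n ∈ range (K + 1), ((2 - β) * Real.log m) ^ n / n.factorial :=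
      sum_le_sum fun n _ => div_le_div_of_nonneg_right
        (pow_le_pow_left₀ l0 (by nlinarith) n) (by positivity)
    refine le_trans (le_of_eq ?_) (mul_le_mul_of_nonneg_left (e1.trans e2)
      (div_nonneg (h.nn m) (by positivity)))
    field_simp
  have s2 : SL1 a (q ^ A) / 4 ≤ (f 1).re * (2 - β) ^ (K + 1) / (1 - β) := by
    have := (abs_le.1 (hb.trans k1)).2
    linarith
  rw [le_div_iff₀ hy] at s2
  have hp : 0 < (2 - β) ^ (K + 1) := pow_pos (by linarith) _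
  have s3 : 0 < (f 1).re := (mul_pos_iff_of_pos_right hp).1 (lt_of_lt_of_le (by positivity) s2)
  have s4 : (2 - β) ^ (K + 1) ≤ Real.exp D := by
    have e1 : 2 - β ≤ Real.exp (1 - β) := by linarith [Real.add_one_le_exp (1 - β)]
    refine (pow_le_pow_left₀ (by linarith) e1 _).trans ?_
    rw [← Real.exp_nat_mul]
    refine Real.exp_le_exp.2 ?_
    push_cast
    have e2 := mul_le_mul_of_nonneg_right k3 hy.le
    have e3 := mul_le_mul_of_nonneg_left h3 hD0
    nlinarith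
  have s5 := mul_le_mul_of_nonneg_left s4 s3.le
  linarith

theorem wla_hs {f : ℂ → ℂ} {a : ℕ → ℝ} {M : ℝ} (h : Ser f a M) : ∃ Z : ℝ,
    HasSum (fun m : ℕ => a m / (m : ℝ) ^ (3 / 2 : ℝ)) Z ∧
      Z ≤ ‖riemannZeta (3 / 2 : ℝ)‖ * M := by
  have h1 := Complex.hasSum_re (h.sum (3 / 2 : ℝ) (by rw [Complex.ofReal_re]; norm_num))
  refine ⟨_, wla_hc h1 fun m => ?_, (Complex.re_le_norm _).trans ?_⟩
  · rcases eq_or_ne m 0 with rfl | hm
    · simp
    · rw [LSeries.term_of_ne_zero hm, ← Complex.ofReal_natCast,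
        ← Complex.ofReal_cpow m.cast_nonneg, ← Complex.ofReal_div, Complex.ofReal_re]
  · rw [norm_mul]
    refine mul_le_mul_of_nonneg_left (h.bd _ ?_) (norm_nonneg _)
    rw [mem_closedBall_iff_norm]
    have : ((3 / 2 : ℝ) : ℂ) - 2 = ((3 / 2 - 2 : ℝ) : ℂ) := by push_cast; rfl
    rw [this, Complex.norm_real, Real.norm_eq_abs, abs_le]
    constructor <;> norm_num

theorem ser_low (A : ℕ) : ∃ (B : ℕ) (C : ℝ), 2 ≤ B ∧ 0 < C ∧ ∀ (f : ℂ → ℂ) (a : ℕ → ℝ) (M : ℝ)
    (q : ℕ) (β : ℝ), Ser f a M → 2 ≤ q → M ≤ (q : ℝ) ^ A → 14 / 15 ≤ β → β < 1 →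
      (1 - β) * Real.log q ≤ 1 → f β = 0 → (f 1).re ≤ C * (1 - β) * SL1 a (q ^ B) := by
  obtain ⟨C, hC1, hC⟩ := ser_core
  obtain ⟨D, hD0, hD⟩ := wla_K hC1 A
  obtain ⟨z, hz⟩ : ∃ z, z = ‖riemannZeta (3 / 2 : ℝ)‖ := ⟨_, rfl⟩
  have z0 : 0 ≤ z := hz ▸ norm_nonneg _
  obtain ⟨B, hB2, hB⟩ : ∃ B : ℕ, 2 ≤ B ∧ 9 * D + 3 * A + 6 * z ≤ B :=
    ⟨⌈9 * D + 3 * A + 6 * z⌉₊ + 2, by omega, by
      push_cast
      linarith [Nat.le_ceil (9 * D + 3 * A + 6 * z)]⟩
  refine ⟨B, Real.exp B + 2, hB2, by positivity, fun f a M q β h hq hM h1 h2 h3 h0 => ?_⟩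
  obtain ⟨K, k1, -, k3⟩ := hD q M hq hM
  obtain ⟨S, hS, hb⟩ := hC f a M h β h1 h2 h0 K
  obtain ⟨Z, hZ, hZ'⟩ := wla_hs h
  rw [← hz] at hZ'
  have hone := wla_one h (Nat.one_le_pow B q (by omega))
  have hy : 0 < 1 - β := by linarith
  have hL := wla_log hq
  have hB0 : (0 : ℝ) ≤ B := B.cast_nonneg
  rcases le_or_gt (f 1).re 0 with hl | hl
  · exact hl.trans (by positivity)
  have g1 : HasSum (fun m : ℕ => if m ∈ Icc 1 (q ^ B) then Real.exp B * (a m / m) else 0)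
      (Real.exp B * SL1 a (q ^ B)) := by
    have := hasSum_sum_of_ne_finset_zero (L := .unconditional ℕ) (s := Icc 1 (q ^ B))
      (f := fun m : ℕ => if m ∈ Icc 1 (q ^ B) then Real.exp B * (a m / m) else 0)
      fun b hb => if_neg hb
    rwa [sum_congr rfl fun b hb => if_pos hb, ← mul_sum] at this
  have hκ : 0 ≤ (8 : ℝ) ^ K * Real.exp (-(B * Real.log q / 3)) := by positivity
  have g2 := hasSum_le (fun m => ?_) hS
    (g1.add (hZ.mul_left ((8 : ℝ) ^ K * Real.exp (-(B * Real.log q / 3)))))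
  · have e1 : (8 : ℝ) ^ K ≤ Real.exp (3 * D * Real.log q) := by
      have e2 : (8 : ℝ) ≤ Real.exp 3 := by
        have e3 : (2 : ℝ) ≤ Real.exp 1 := by linarith [Real.add_one_le_exp 1]
        have e4 := pow_le_pow_left₀ (by norm_num) e3 3
        rw [← Real.exp_nat_mul] at e4
        norm_num at e4
        exact e4
      refine (pow_le_pow_left₀ (by norm_num) e2 K).trans ?_
      rw [← Real.exp_nat_mul]
      exact Real.exp_le_exp.2 (by linarith)
    have e2 : z ≤ Real.exp (2 * z * Real.log q) := by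
      have := Real.add_one_le_exp (2 * z * Real.log q)
      nlinarith
    rw [wla_pow hq] at hM
    have e3 : (8 : ℝ) ^ K * Real.exp (-(B * Real.log q / 3)) * Z ≤ 1 := by
      have M0 : 0 ≤ M := by linarith [h.one_le]
      calc _ ≤ (8 : ℝ) ^ K * Real.exp (-(B * Real.log q / 3)) * (z * M) :=
            mul_le_mul_of_nonneg_left hZ' hκ
        _ ≤ Real.exp (3 * D * Real.log q) * Real.exp (-(B * Real.log q / 3)) *
            (Real.exp (2 * z * Real.log q) * Real.exp (A * Real.log q)) := by gcongr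
        _ ≤ 1 := by
            rw [← Real.exp_add, ← Real.exp_add, ← Real.exp_add, Real.exp_le_one_iff]
            have := mul_le_mul_of_nonneg_right hB (show 0 ≤ Real.log q by linarith)
            linarith
    have e4 := (abs_le.1 (hb.trans k1)).1
    have e5 : (f 1).re * (2 - β) ^ (K + 1) / (1 - β) ≤ (Real.exp B + 2) * SL1 a (q ^ B) := by
      linarith
    rw [div_le_iff₀ hy] at e5
    have e6 : (1 : ℝ) ≤ (2 - β) ^ (K + 1) := one_le_pow₀ (by linarith)
    have e7 := mul_le_mul_of_nonneg_left e6 hl.le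
    linarith
  · have w0 : 0 ≤ a m / (m : ℝ) ^ (3 / 2 : ℝ) := div_nonneg (h.nn m) (by positivity)
    rcases Nat.eq_zero_or_pos m with rfl | hm
    · simp
    have m0 : (0 : ℝ) < m := by exact_mod_cast hm
    have l0 := Real.log_natCast_nonneg m
    have x0 : 0 ≤ (2 - β) * Real.log m := mul_nonneg (by linarith) l0
    have a0 : 0 ≤ a m / (m : ℝ) ^ 2 := div_nonneg (h.nn m) (by positivity)
    by_cases hY : m ≤ q ^ B
    · rw [if_pos (mem_Icc.2 ⟨hm, hY⟩)]
      refine le_trans ?_ (le_add_of_nonneg_right (mul_nonneg hκ w0))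
      have e1 : Real.exp ((2 - β) * Real.log m) ≤ Real.exp B * m := by
        rw [← Real.exp_log m0, ← Real.exp_add, Real.log_exp]
        refine Real.exp_le_exp.2 ?_
        have e2 := mul_le_mul_of_nonneg_left (wla_logle hq hm hY) hy.le
        have e3 := mul_le_mul_of_nonneg_left h3 hB0
        nlinarith
      refine (mul_le_mul_of_nonneg_left ((Real.sum_le_exp_of_nonneg x0 _).trans e1) a0).trans_eq ?_
      field_simp
    · rw [if_neg fun hh => hY (mem_Icc.1 hh).2, zero_add]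
      have e1 : B * Real.log q ≤ Real.log m := by
        rw [← Real.log_pow]
        exact Real.log_le_log (by positivity) (by exact_mod_cast (not_le.1 hY).le)
      have e2 : Real.exp ((2 - β) * Real.log m / 8) ≤
          Real.exp (-(B * Real.log q / 3)) * ((m : ℝ) ^ 2 / (m : ℝ) ^ (3 / 2 : ℝ)) := by
        rw [← Real.rpow_natCast, ← Real.rpow_sub m0, Real.rpow_def_of_pos m0, ← Real.exp_add]
        refine Real.exp_le_exp.2 ?_
        have e3 := mul_le_mul_of_nonneg_right (show 2 - β ≤ 16 / 15 by linarith) l0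
        push_cast
        linarith
      refine (mul_le_mul_of_nonneg_left ((exp_eight x0 K).trans
        (mul_le_mul_of_nonneg_left e2 (by positivity))) a0).trans_eq ?_
      field_simp

end Pool.Agent.EQ
end
end
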