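import Mathlib
import Pool.Agent.P.MP_ad7a55_nt.SgB

-- part Pool.Agent.P.MP_ad7a55_nt.XEa
section

/-! Finite probability: means, conditional probabilities, entropy. -/

set_option autoImplicit false

noncomputable section

open Finset
open scoped Classical

namespace Pool.Agent.EQ

variable {α β β' Y : Type}

/-- The mean over a finite set. -/
def mn (O : Finset α) (G : α → ℝ) : ℝ := (∑ z ∈ O, G z) / #O

/-- The proportion of the points with a property. -/
def prb (O : Finset α) (p : α → Prop) : ℝ := (#{z ∈ O | p z} : ℝ) / #O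

/-- The conditional probability of `ξ = y` given `F = b`. -/
def cp (O : Finset α) (F : α → β) (ξ : α → Y) (b : β) (y : Y) : ℝ :=
  (#{z ∈ O | F z = b ∧ ξ z = y} : ℝ) / #{z ∈ O | F z = b}

/-- The conditional entropy. -/
def ent (O : Finset α) (F : α → β) (ξ : α → Y) : ℝ :=
  mn O fun x => -Real.log (cp O F ξ (F x) (ξ x))

variable {O : Finset α} {F : α → β} {ξ : α → Y} {p p' : α → Prop} {G G' : α → ℝ}

theorem pb_eq (O : Finset α) (p : α → Prop) : prb O p = mn O fun x => if p x then 1 else 0 := by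
  unfold prb mn
  rw [Finset.sum_boole]

theorem pb_nonneg (O : Finset α) (p : α → Prop) : 0 ≤ prb O p := by
  unfold prb
  positivity

theorem pb_le_one (O : Finset α) (p : α → Prop) : prb O p ≤ 1 := by
  unfold prb
  exact div_le_one_of_le₀ (by exact_mod_cast Finset.card_filter_le _ _) (by positivity)

theorem pb_mono (h : ∀ x ∈ O, p x → p' x) : prb O p ≤ prb O p' := by
  unfold prb
  refine div_le_div_of_nonneg_right ?_ (by positivity)
  exact_mod_cast Finset.card_le_card fun x hx => by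
    rw [Finset.mem_filter] at hx ⊢
    exact ⟨hx.1, h x hx.1 hx.2⟩

theorem pb_or (O : Finset α) (p p' : α → Prop) :
    prb O (fun x => p x ∨ p' x) ≤ prb O p + prb O p' := by
  unfold prb
  rw [← add_div]
  refine div_le_div_of_nonneg_right ?_ (by positivity)
  rw [← Nat.cast_add, Nat.cast_le]
  refine le_trans (Finset.card_le_card ?_) (Finset.card_union_le _ _)
  intro x hx
  simp only [Finset.mem_filter, Finset.mem_union] at hx ⊢
  tauto

theorem pb_exists {ι : Type} (O : Finset α) (I : Finset ι) (p : ι → α → Prop) :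
    prb O (fun x => ∃ i ∈ I, p i x) ≤ ∑ i ∈ I, prb O (p i) := by
  unfold prb
  rw [← Finset.sum_div]
  refine div_le_div_of_nonneg_right ?_ (by positivity)
  rw [← Nat.cast_sum, Nat.cast_le]
  refine le_trans (Finset.card_le_card ?_) Finset.card_biUnion_le
  intro x hx
  simp only [Finset.mem_filter, Finset.mem_biUnion] at hx ⊢
  obtain ⟨h1, i, hi, h2⟩ := hx
  exact ⟨i, hi, h1, h2⟩

theorem pb_sub (O : Finset α) (p p' : α → Prop) :
    prb O p - prb O p' ≤ prb O fun x => p x ∧ ¬ p' x := by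
  have h1 := pb_or O (fun x => p x ∧ ¬ p' x) p'
  have h2 : prb O p ≤ prb O (fun x => (p x ∧ ¬ p' x) ∨ p' x) := pb_mono fun x _ hx => by tauto
  linarith

theorem mn_mono (h : ∀ x ∈ O, G x ≤ G' x) : mn O G ≤ mn O G' := by
  unfold mn
  exact div_le_div_of_nonneg_right (Finset.sum_le_sum h) (by positivity)

theorem mn_add (O : Finset α) (G G' : α → ℝ) :
    mn O (fun x => G x + G' x) = mn O G + mn O G' := by
  unfold mn
  rw [Finset.sum_add_distrib, add_div]

theorem mn_mul (O : Finset α) (c : ℝ) (G : α → ℝ) : mn O (fun x => c * G x) = c * mn O G := by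
  unfold mn
  rw [← Finset.mul_sum, mul_div_assoc]

theorem mn_const (hO : O.Nonempty) (c : ℝ) : mn O (fun _ => c) = c := by
  unfold mn
  have : (#O : ℝ) ≠ 0 := by exact_mod_cast hO.card_pos.ne'
  rw [Finset.sum_const, nsmul_eq_mul]
  field_simp

theorem mn_sum {ι : Type} (O : Finset α) (I : Finset ι) (G : ι → α → ℝ) :
    mn O (fun x => ∑ i ∈ I, G i x) = ∑ i ∈ I, mn O (G i) := by
  unfold mn
  rw [Finset.sum_comm, Finset.sum_div]

theorem mn_swap (O : Finset α) (U : Finset β) (G : α → β → ℝ) :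
    mn O (fun x => mn U (G x)) = mn U fun u => mn O fun x => G x u := by
  unfold mn
  rw [← Finset.sum_div, ← Finset.sum_div, Finset.sum_comm, div_div, div_div, mul_comm]

theorem abs_mn_le (O : Finset α) (G : α → ℝ) : |mn O G| ≤ mn O fun x => |G x| := by
  unfold mn
  rw [abs_div, Nat.abs_cast]
  exact div_le_div_of_nonneg_right (Finset.abs_sum_le_sum_abs _ _) (by positivity)

theorem mn_perm {π : α → α} (h : ∀ x ∈ O, π x ∈ O) (hi : Set.InjOn π O) (G : α → ℝ) :
    mn O (fun x => G (π x)) = mn O G := by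
  unfold mn
  congr 1
  have himg : O.image π = O := by
    apply Finset.eq_of_subset_of_card_le
    · intro y hy
      obtain ⟨x, hx, rfl⟩ := Finset.mem_image.1 hy
      exact h x hx
    · rw [Finset.card_image_of_injOn hi]
  conv_rhs => rw [← himg]
  rw [Finset.sum_image hi]

theorem pb_perm {π : α → α} (h : ∀ x ∈ O, π x ∈ O) (hi : Set.InjOn π O) (p : α → Prop) :
    prb O (fun x => p (π x)) = prb O p := by
  rw [pb_eq, pb_eq]
  exact mn_perm h hi fun x => if p x then 1 else 0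

theorem pb_markov (h : ∀ x ∈ O, 0 ≤ G x) {t : ℝ} (ht : 0 < t) :
    prb O (fun x => t ≤ G x) ≤ mn O G / t := by
  rw [pb_eq, div_eq_inv_mul, ← mn_mul]
  refine mn_mono fun x hx => ?_
  have := h x hx
  split_ifs with hh
  · rw [← div_eq_inv_mul, le_div_iff₀ ht]
    linarith
  · positivity

theorem pb_rev {B t : ℝ} (hB : 0 < B) (h : ∀ x ∈ O, G x ≤ B) (ht : 0 ≤ t) :
    (mn O G - t) / B ≤ prb O fun x => t ≤ G x := by
  rcases O.eq_empty_or_nonempty with rfl | hO
  · refine le_trans ?_ (pb_nonneg _ _)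
    simp only [mn, Finset.sum_empty, zero_div, zero_sub]
    exact div_nonpos_of_nonpos_of_nonneg (by linarith) hB.le
  rw [div_le_iff₀ hB, pb_eq, mul_comm, ← mn_mul, sub_le_iff_le_add]
  refine le_trans (mn_mono (G' := fun x => B * (if t ≤ G x then 1 else 0) + t)
    fun x hx => ?_) (le_of_eq (by rw [mn_add, mn_const hO]))
  have := h x hx
  split_ifs with hh
  · linarith
  · linarith [not_le.1 hh]

theorem cp_nonneg (O : Finset α) (F : α → β) (ξ : α → Y) (b : β) (y : Y) : 0 ≤ cp O F ξ b y := by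
  unfold cp
  positivity

theorem cp_le_one (O : Finset α) (F : α → β) (ξ : α → Y) (b : β) (y : Y) : cp O F ξ b y ≤ 1 := by
  unfold cp
  refine div_le_one_of_le₀ ?_ (by positivity)
  exact_mod_cast Finset.card_le_card fun x hx => by
    rw [Finset.mem_filter] at hx ⊢
    exact ⟨hx.1, hx.2.1⟩

theorem cp_pos {x : α} (hx : x ∈ O) : 0 < cp O F ξ (F x) (ξ x) := by
  unfold cp
  refine div_pos ?_ ?_
  · exact Nat.cast_pos.2 (Finset.card_pos.2 ⟨x, Finset.mem_filter.2 ⟨hx, rfl, rfl⟩⟩)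
  · exact Nat.cast_pos.2 (Finset.card_pos.2 ⟨x, Finset.mem_filter.2 ⟨hx, rfl⟩⟩)

theorem sum_cp_le (O : Finset α) (F : α → β) (ξ : α → Y) (b : β) (T : Finset Y) :
    ∑ y ∈ T, cp O F ξ b y ≤ 1 := by
  unfold cp
  rw [← Finset.sum_div]
  refine div_le_one_of_le₀ ?_ (by positivity)
  rw [← Nat.cast_sum, Nat.cast_le, ← Finset.card_biUnion]
  · refine Finset.card_le_card fun x hx => ?_
    simp only [Finset.mem_filter, Finset.mem_biUnion] at hx ⊢
    obtain ⟨y, -, h1, h2, -⟩ := hx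
    exact ⟨h1, h2⟩
  · intro y _ y' _ hyy
    refine Finset.disjoint_left.2 fun x hx hx' => hyy ?_
    rw [Finset.mem_filter] at hx hx'
    rw [← hx.2.2, ← hx'.2.2]

theorem xea_mn_le {H : β → Y → ℝ} {c : ℝ} (hc : 0 ≤ c)
    (h1 : ∀ b, ∑ y ∈ ({z ∈ O | F z = b}).image ξ, cp O F ξ b y * H b y ≤ c) :
    mn O (fun x => H (F x) (ξ x)) ≤ c := by
  unfold mn
  refine div_le_of_le_mul₀ (by positivity) hc ?_
  have key : ∀ b ∈ O.image F, ∑ x ∈ O with F x = b, H (F x) (ξ x) ≤
      c * (#{z ∈ O | F z = b} : ℝ) := by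
    intro b hb
    obtain ⟨x0, hx0, hb0⟩ := Finset.mem_image.1 hb
    have hpos : (0 : ℝ) < #{z ∈ O | F z = b} := by
      exact_mod_cast Finset.card_pos.2 ⟨x0, Finset.mem_filter.2 ⟨hx0, hb0⟩⟩
    have e1 : ∑ x ∈ O with F x = b, H (F x) (ξ x) = ∑ x ∈ O with F x = b, H b (ξ x) :=
      Finset.sum_congr rfl fun x hx => by rw [(Finset.mem_filter.1 hx).2]
    rw [e1, Finset.sum_comp (H b) ξ]
    refine le_trans (le_of_eq ?_) (mul_le_mul_of_nonneg_right (h1 b) hpos.le)
    rw [Finset.sum_mul]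
    refine Finset.sum_congr rfl fun y _ => ?_
    rw [nsmul_eq_mul, Finset.filter_filter, cp]
    field_simp
  have e2 := Finset.sum_fiberwise_of_maps_to (s := O) (t := O.image F) (g := F)
    (fun x hx => Finset.mem_image_of_mem F hx) fun x => H (F x) (ξ x)
  rw [← e2]
  refine le_trans (Finset.sum_le_sum key) (le_of_eq ?_)
  rw [← Finset.mul_sum, ← Nat.cast_sum, ← Finset.card_eq_sum_card_image]

theorem mn_div_cp {w : β → Y → ℝ} (h0 : ∀ b y, 0 ≤ w b y)
    (h1 : ∀ b, ∑ y ∈ ({z ∈ O | F z = b}).image ξ, w b y ≤ 1) :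
    mn O (fun x => w (F x) (ξ x) / cp O F ξ (F x) (ξ x)) ≤ 1 := by
  refine xea_mn_le zero_le_one
    (H := fun b y => w b y / cp O F ξ b y) fun b => ?_
  refine le_trans (Finset.sum_le_sum fun y _ => ?_) (h1 b)
  rcases eq_or_ne (cp O F ξ b y) 0 with h | h
  · rw [h, zero_mul]
    exact h0 b y
  · rw [mul_div_cancel₀ _ h]

theorem ent_nonneg (O : Finset α) (F : α → β) (ξ : α → Y) : 0 ≤ ent O F ξ := by
  unfold ent mn
  refine div_nonneg (Finset.sum_nonneg fun x _ => ?_) (by positivity)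
  have := Real.log_nonpos (cp_nonneg O F ξ (F x) (ξ x)) (cp_le_one O F ξ (F x) (ξ x))
  linarith

theorem ent_le {s : ℝ} (hs : 1 ≤ s) (h : (#(O.image ξ) : ℝ) ≤ s) : ent O F ξ ≤ Real.log s := by
  have hs0 : 0 < s := by linarith
  rcases O.eq_empty_or_nonempty with rfl | hO
  · simpa [ent, mn] using Real.log_nonneg hs
  have h1 := mn_div_cp (O := O) (F := F) (ξ := ξ) (w := fun _ _ => s⁻¹)
    (fun _ _ => by positivity) (fun b => by
      rw [Finset.sum_const, nsmul_eq_mul, ← div_eq_mul_inv, div_le_one hs0]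
      refine le_trans ?_ h
      exact_mod_cast Finset.card_le_card (Finset.image_subset_image (Finset.filter_subset _ _)))
  have h2 : ent O F ξ ≤
      mn O fun x => s⁻¹ / cp O F ξ (F x) (ξ x) + (Real.log s - 1) := by
    refine mn_mono fun x hx => ?_
    have hc : 0 < cp O F ξ (F x) (ξ x) := cp_pos hx
    have h3 := Real.log_le_sub_one_of_pos (x := s⁻¹ / cp O F ξ (F x) (ξ x)) (by positivity)
    rw [Real.log_div (by positivity) hc.ne', Real.log_inv] at h3
    linarith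
  rw [mn_add, mn_const hO] at h2
  linarith

theorem pb_small {R : β → Finset Y} {s t : ℝ} (hs : 0 ≤ s) (ht : 0 ≤ t)
    (h : ∀ b, (#(R b) : ℝ) ≤ s) :
    prb O (fun x => ξ x ∈ R (F x) ∧ cp O F ξ (F x) (ξ x) < t) ≤ s * t := by
  rw [pb_eq]
  refine le_trans (le_of_eq ?_) (xea_mn_le (O := O) (F := F) (ξ := ξ) (mul_nonneg hs ht)
    (H := fun b y => if y ∈ R b ∧ cp O F ξ b y < t then 1 else 0) fun b => ?_)
  · refine congrArg _ (funext fun x => ?_)
    by_cases hh : ξ x ∈ R (F x) ∧ cp O F ξ (F x) (ξ x) < t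
    · rw [if_pos hh, if_pos hh]
    · rw [if_neg hh, if_neg hh]
  · have h2 : ∀ y ∈ ({z ∈ O | F z = b}).image ξ,
        cp O F ξ b y * (if y ∈ R b ∧ cp O F ξ b y < t then 1 else 0) ≤
          if y ∈ R b then t else 0 := by
      intro y _
      by_cases h3 : y ∈ R b
      · by_cases h4 : cp O F ξ b y < t
        · rw [if_pos ⟨h3, h4⟩, if_pos h3, mul_one]
          exact h4.le
        · rw [if_neg fun hh => h4 hh.2, if_pos h3, mul_zero]
          exact ht
      · rw [if_neg fun hh => h3 hh.1, if_neg h3, mul_zero]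
    refine le_trans (Finset.sum_le_sum h2) ?_
    rw [← Finset.sum_filter, Finset.sum_const, nsmul_eq_mul]
    refine mul_le_mul_of_nonneg_right (le_trans ?_ (h b)) ht
    exact_mod_cast Finset.card_le_card fun y hy => (Finset.mem_filter.1 hy).2

theorem exists_drop (h : ℕ → ℝ) {B : ℝ} (h0 : ∀ j, 0 ≤ h j) (hB : h 0 ≤ B) {J : ℕ} (hJ : 0 < J) :
    ∃ j < J, h j - h (j + 1) ≤ B / J := by
  by_contra hc
  push Not at hc
  have hJ' : (0 : ℝ) < J := by exact_mod_cast hJ
  have h1 : ∑ j ∈ Finset.range J, B / J < ∑ j ∈ Finset.range J, (h j - h (j + 1)) :=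
    Finset.sum_lt_sum_of_nonempty (Finset.nonempty_range_iff.2 hJ.ne')
      fun j hj => hc j (Finset.mem_range.1 hj)
  rw [Finset.sum_range_sub', Finset.sum_const, Finset.card_range, nsmul_eq_mul,
    mul_div_cancel₀ _ hJ'.ne'] at h1
  linarith [h0 J]

end Pool.Agent.EQ
end
end

-- part Pool.Agent.P.MP_ad7a55_nt.XFa
section

/-! Convolution on a finite group. -/

set_option autoImplicit false

noncomputable section

open Finset
open scoped Pointwise MatrixGroups Classical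

namespace Pool.Agent.EQ

/-- The sum of the squares. -/
def n2 {α : Type} [Fintype α] (f : α → ℝ) : ℝ := ∑ x, f x ^ 2

variable {G : Type} [Group G] [Fintype G]

/-- Convolution. -/
def cv (μ ν : G → ℝ) : G → ℝ := fun x => ∑ y, μ y * ν (y⁻¹ * x)

/-- Symmetrisation followed by repeated squaring. -/
def cit (ρ : G → ℝ) : ℕ → G → ℝ
  | 0 => cv (fun x => ρ x⁻¹) ρ
  | i + 1 => cv (cit ρ i) (cit ρ i)

/-- The average correlation of `f` with the translates of `f'`. -/
def cor {Y : Type} [Fintype Y] [MulAction G Y] (ν : G → ℝ) (f f' : Y → ℝ) : ℝ :=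
  ∑ g, ν g * ∑ y, f y * f' (g • y)

variable {Y : Type} [Fintype Y] [MulAction G Y] {ρ ν : G → ℝ} {f f' : Y → ℝ}

theorem xfa_shift (φ : G → ℝ) (y : G) : ∑ x, φ (y * x) = ∑ x, φ x :=
  Equiv.sum_comp (Equiv.mulLeft y) φ

theorem xfa_shiftR (φ : G → ℝ) (y : G) : ∑ x, φ (x * y) = ∑ x, φ x :=
  Equiv.sum_comp (Equiv.mulRight y) φ

theorem xfa_inv (φ : G → ℝ) : ∑ x, φ x⁻¹ = ∑ x, φ x :=
  Equiv.sum_comp (Equiv.inv G) φ

omit [Fintype G] in
theorem xfa_act (φ : Y → ℝ) (g : G) : ∑ y, φ (g • y) = ∑ y, φ y :=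
  Equiv.sum_comp (MulAction.toPerm g) φ

theorem xfa_cv_nonneg {μ : G → ℝ} (hμ : ∀ g, 0 ≤ μ g) (hν : ∀ g, 0 ≤ ν g) (g : G) :
    0 ≤ cv μ ν g :=
  sum_nonneg fun _ _ => mul_nonneg (hμ _) (hν _)

theorem xfa_cv_sum (μ ν : G → ℝ) : ∑ x, cv μ ν x = (∑ x, μ x) * ∑ x, ν x := by
  unfold cv
  rw [sum_comm, sum_mul]
  refine sum_congr rfl fun y _ => ?_
  rw [← mul_sum, xfa_shift ν y⁻¹]

theorem xfa_cv_symm (μ : G → ℝ) (g : G) :
    cv (fun x => μ x⁻¹) μ g⁻¹ = cv (fun x => μ x⁻¹) μ g := by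
  unfold cv
  rw [← xfa_shift (fun y => μ y⁻¹ * μ (y⁻¹ * g)) g]
  refine sum_congr rfl fun y _ => ?_
  simp only [mul_inv_rev, inv_mul_cancel_right]
  ring

theorem xfa_cv_set {μ : G → ℝ} (hμ : ∀ g, 0 ≤ μ g) (h1 : ∑ g, μ g ≤ 1) (hν : ∀ g, 0 ≤ ν g)
    (A : G → Prop) {s : ℝ} (h : ∀ w, ∑ g with A (w * g), ν g ≤ s) (w : G) :
    ∑ g with A (w * g), cv μ ν g ≤ s := by
  have hs : 0 ≤ s := le_trans (sum_nonneg fun _ _ => hν _) (h 1)
  unfold cv
  rw [sum_comm]
  calc ∑ y, ∑ g with A (w * g), μ y * ν (y⁻¹ * g) ≤ ∑ y, μ y * s := by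
        refine sum_le_sum fun y _ => ?_
        rw [← mul_sum]
        refine mul_le_mul_of_nonneg_left ?_ (hμ y)
        refine le_trans (le_of_eq ?_) (h (w * y))
        rw [sum_filter, sum_filter,
          ← xfa_shift (fun g => if A (w * g) then ν (y⁻¹ * g) else 0) y]
        refine sum_congr rfl fun g _ => ?_
        simp only [mul_assoc, inv_mul_cancel_left]
    _ = (∑ y, μ y) * s := by rw [sum_mul]
    _ ≤ s := by nlinarith

theorem xfa_cor_sq (hf' : n2 f' ≤ 1) (ρ : G → ℝ) :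
    cor ρ f f' ^ 2 ≤ cor (cv (fun x => ρ x⁻¹) ρ) f f := by
  have e1 : cor ρ f f' = ∑ z, f' z * ∑ g, ρ g * f (g⁻¹ • z) := by
    unfold cor
    simp only [mul_sum]
    rw [sum_comm (s := (univ : Finset Y))]
    refine sum_congr rfl fun g _ => ?_
    rw [← xfa_act (fun z => f' z * (ρ g * f (g⁻¹ • z))) g]
    refine sum_congr rfl fun y _ => ?_
    simp only [inv_smul_smul]
    ring
  have e2 : cor (cv (fun x => ρ x⁻¹) ρ) f f = ∑ z, (∑ g, ρ g * f (g⁻¹ • z)) ^ 2 := by
    have r1 : ∑ z, (∑ g, ρ g * f (g⁻¹ • z)) ^ 2 =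
        ∑ g, ∑ h, ρ g * ρ h * ∑ z, f (h⁻¹ • z) * f (g⁻¹ • z) := by
      simp only [sq, sum_mul_sum]
      simp only [mul_sum]
      rw [sum_comm]
      refine sum_congr rfl fun g _ => ?_
      rw [sum_comm]
      refine sum_congr rfl fun h _ => sum_congr rfl fun z _ => ?_
      ring
    rw [r1]
    unfold cor cv
    simp only [sum_mul]
    rw [sum_comm, ← xfa_inv]
    refine sum_congr rfl fun g _ => ?_
    rw [← xfa_shift _ g⁻¹]
    refine sum_congr rfl fun h _ => ?_
    rw [← xfa_act (fun z => f (h⁻¹ • z) * f (g⁻¹ • z)) h]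
    simp only [inv_inv, mul_inv_cancel_left, inv_smul_smul, mul_smul]
  rw [e1, e2]
  refine le_trans (sum_mul_sq_le_sq_mul_sq _ _ _) ?_
  have h2 : 0 ≤ ∑ z, (∑ g, ρ g * f (g⁻¹ • z)) ^ 2 := sum_nonneg fun _ _ => sq_nonneg _
  unfold n2 at hf'
  nlinarith

theorem xfa_avg [MulAction.IsPretransitive G Y] (f : Y → ℝ) (y : Y) :
    (Fintype.card Y : ℝ) * ∑ g : G, f (g • y) = Fintype.card G * ∑ z, f z := by
  have h1 : ∀ y' : Y, ∑ g : G, f (g • y') = ∑ g : G, f (g • y) := by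
    intro y'
    obtain ⟨k, rfl⟩ := MulAction.exists_smul_eq G y y'
    rw [← xfa_shiftR (fun g => f (g • y)) k]
    simp only [mul_smul]
  calc (Fintype.card Y : ℝ) * ∑ g : G, f (g • y) = ∑ y' : Y, ∑ g : G, f (g • y') := by
        simp only [h1, sum_const, card_univ, nsmul_eq_mul]
    _ = ∑ g : G, ∑ z, f z := by
        rw [sum_comm]
        exact sum_congr rfl fun g _ => xfa_act f g
    _ = _ := by simp only [sum_const, card_univ, nsmul_eq_mul]

theorem cit_nonneg (h0 : ∀ g, 0 ≤ ρ g) (i : ℕ) (g : G) : 0 ≤ cit ρ i g := by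
  induction i generalizing g with
  | zero => exact xfa_cv_nonneg (fun _ => h0 _) h0 g
  | succ i ih => exact xfa_cv_nonneg ih ih g

theorem cit_sum (h0 : ∀ g, 0 ≤ ρ g) (h1 : ∑ g, ρ g ≤ 1) (i : ℕ) : ∑ g, cit ρ i g ≤ 1 := by
  induction i with
  | zero =>
    have h2 : 0 ≤ ∑ g, ρ g := sum_nonneg fun _ _ => h0 _
    change ∑ g, cv (fun x => ρ x⁻¹) ρ g ≤ 1
    rw [xfa_cv_sum, xfa_inv]
    nlinarith
  | succ i ih =>
    have h2 : 0 ≤ ∑ g, cit ρ i g := sum_nonneg fun _ _ => cit_nonneg h0 i _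
    change ∑ g, cv (cit ρ i) (cit ρ i) g ≤ 1
    rw [xfa_cv_sum]
    nlinarith

theorem cit_symm (ρ : G → ℝ) (i : ℕ) (g : G) : cit ρ i g⁻¹ = cit ρ i g := by
  induction i generalizing g with
  | zero => exact xfa_cv_symm ρ g
  | succ i ih =>
    have := xfa_cv_symm (cit ρ i) g
    simp only [ih] at this
    exact this

theorem cit_set (h0 : ∀ g, 0 ≤ ρ g) (h1 : ∑ g, ρ g ≤ 1) (A : G → Prop) {s : ℝ}
    (h : ∀ w, ∑ g with A (w * g), ρ g ≤ s) (i : ℕ) : ∑ g with A g, cit ρ i g ≤ s := by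
  have key : ∀ w, ∑ g with A (w * g), cit ρ i g ≤ s := by
    induction i with
    | zero =>
      intro w
      exact xfa_cv_set (fun _ => h0 _) (by rw [xfa_inv]; exact h1) h0 A h w
    | succ i ih =>
      intro w
      exact xfa_cv_set (cit_nonneg h0 i) (cit_sum h0 h1 i) (cit_nonneg h0 i) A ih w
  simpa only [one_mul] using key 1

theorem cit_le (ρ : G → ℝ) (i : ℕ) (g : G) : cit ρ (i + 1) g ≤ n2 (cit ρ i) := by
  have h1 : ∑ y, cit ρ i (y⁻¹ * g) ^ 2 = n2 (cit ρ i) := by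
    unfold n2
    rw [← xfa_shiftR (fun x => cit ρ i x ^ 2) g, ← xfa_inv (fun x => cit ρ i (x * g) ^ 2)]
  have h2 : ∑ y, cit ρ i y * cit ρ i (y⁻¹ * g) ≤
      ∑ y, (cit ρ i y ^ 2 + cit ρ i (y⁻¹ * g) ^ 2) / 2 :=
    sum_le_sum fun y _ => by nlinarith [sq_nonneg (cit ρ i y - cit ρ i (y⁻¹ * g))]
  rw [← sum_div, sum_add_distrib, h1] at h2
  change ∑ y, cit ρ i y * cit ρ i (y⁻¹ * g) ≤ _
  unfold n2 at h2 ⊢
  linarith

theorem cor_cit (hf : n2 f ≤ 1) (hf' : n2 f' ≤ 1) (ρ : G → ℝ) (i : ℕ) :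
    cor ρ f f' ^ 2 ^ (i + 1) ≤ cor (cit ρ i) f f := by
  induction i with
  | zero =>
    have := xfa_cor_sq (f := f) hf' ρ
    rw [zero_add, pow_one]
    exact this
  | succ i ih =>
    have h1 := xfa_cor_sq (f := f) hf (cit ρ i)
    simp only [cit_symm] at h1
    have h2 : 0 ≤ cor ρ f f' ^ 2 ^ (i + 1) := by
      rw [pow_succ, pow_mul]
      exact sq_nonneg _
    refine le_trans ?_ h1
    rw [pow_succ 2 (i + 1), pow_mul]
    exact pow_le_pow_left₀ h2 ih 2

theorem cor_le_sum (h0 : ∀ g, 0 ≤ ν g) (hf : n2 f ≤ 1) : cor ν f f ≤ ∑ g, ν g := by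
  unfold cor
  refine sum_le_sum fun g _ => ?_
  have h1 : ∑ y, f y * f (g • y) ≤ ∑ y, (f y ^ 2 + f (g • y) ^ 2) / 2 :=
    sum_le_sum fun y _ => by nlinarith [sq_nonneg (f y - f (g • y))]
  rw [← sum_div, sum_add_distrib, xfa_act (fun y => f y ^ 2) g] at h1
  unfold n2 at hf
  have := h0 g
  nlinarith

theorem cor_le_sup [MulAction.IsPretransitive G Y] [Nonempty Y] (hf : ∀ y, 0 ≤ f y) {s : ℝ}
    (h : ∀ g, ν g ≤ s) (h0 : ∀ g, 0 ≤ ν g) :
    cor ν f f ≤ s * Fintype.card G * ((∑ y, f y) ^ 2 / Fintype.card Y) := by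
  have hY : (0 : ℝ) < Fintype.card Y := by exact_mod_cast Fintype.card_pos
  calc cor ν f f ≤ ∑ g : G, s * ∑ y, f y * f (g • y) :=
        sum_le_sum fun g _ => mul_le_mul_of_nonneg_right (h g)
          (sum_nonneg fun _ _ => mul_nonneg (hf _) (hf _))
    _ = s * ∑ y, f y * (Fintype.card G * (∑ z, f z) / Fintype.card Y) := by
        rw [← mul_sum, sum_comm]
        congr 1
        refine sum_congr rfl fun y _ => ?_
        rw [← mul_sum, ← xfa_avg (G := G) f y]
        field_simp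
    _ = _ := by
        rw [← sum_mul]
        ring

theorem flat (h0 : ∀ g, 0 ≤ ρ g) (h1 : ∑ g, ρ g ≤ 1) {K a : ℝ} (hK : 1 ≤ K) (ha : 0 < a) (I : ℕ)
    (h : a ≤ ∑ g, cit ρ I g) (hI : Fintype.card G < K ^ I * a ^ 2) :
    ∃ i < I, 0 < n2 (cit ρ i) ∧ n2 (cit ρ i) ≤ K * n2 (cit ρ (i + 1)) := by
  by_contra hc
  push Not at hc
  have hn : ∀ i, 0 ≤ n2 (cit ρ i) := fun i => sum_nonneg fun _ _ => sq_nonneg _
  have step : ∀ i < I, K * n2 (cit ρ (i + 1)) ≤ n2 (cit ρ i) := by
    intro i hi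
    rcases (hn i).lt_or_eq with hp | hz
    · exact (hc i hi hp).le
    · have hz' : ∀ g, cit ρ i g = 0 := by
        intro g
        have := (sum_eq_zero_iff_of_nonneg (fun x _ => sq_nonneg (cit ρ i x))).1 hz.symm g
          (mem_univ g)
        exact pow_eq_zero_iff (two_ne_zero) |>.1 this
      have : n2 (cit ρ (i + 1)) = 0 := by
        change ∑ x, (∑ y, cit ρ i y * cit ρ i (y⁻¹ * x)) ^ 2 = 0
        simp [hz']
      rw [this, mul_zero]
      exact hn i
  have base : n2 (cit ρ 0) ≤ 1 := by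
    refine le_trans (sum_le_sum fun g _ => ?_) (cit_sum h0 h1 0)
    have a1 := cit_nonneg h0 0 g
    have a2 : cit ρ 0 g ≤ 1 :=
      le_trans (single_le_sum (fun x _ => cit_nonneg h0 0 x) (mem_univ g)) (cit_sum h0 h1 0)
    nlinarith
  have all : ∀ i ≤ I, K ^ i * n2 (cit ρ i) ≤ 1 := by
    intro i
    induction i with
    | zero => intro _; simpa using base
    | succ i ih =>
      intro hi
      refine le_trans ?_ (ih (by omega))
      rw [pow_succ, mul_assoc]
      exact mul_le_mul_of_nonneg_left (step i (by omega)) (by positivity)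
  have h2 : a ^ 2 ≤ Fintype.card G * n2 (cit ρ I) :=
    le_trans (pow_le_pow_left₀ ha.le h 2) (by
      have := sq_sum_le_card_mul_sum_sq (s := univ) (f := cit ρ I)
      rw [card_univ] at this
      exact this)
  have h3 := all I le_rfl
  have hG : (0 : ℝ) ≤ Fintype.card G := Nat.cast_nonneg _
  have hKI : 0 ≤ K ^ I := by positivity
  have h4 := mul_le_mul_of_nonneg_left h2 hKI
  have h5 := mul_le_mul_of_nonneg_left h3 hG
  nlinarith

end Pool.Agent.EQ
end
end

-- part Pool.Agent.P.MP_ad7a55_nt.XFf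
section

/-! Elementary facts on SL(2) over a prime field. -/

set_option autoImplicit false

noncomputable section

open Finset
open scoped Pointwise MatrixGroups Classical

namespace Pool.Agent.EQ

/-- The group. -/
abbrev GQ (q : ℕ) : Type := SL(2, ZMod q)

/-- Matrices modulo `q`. -/
abbrev MQ (q : ℕ) : Type := Matrix (Fin 2) (Fin 2) (ZMod q)

variable {q : ℕ}

/-- Upper unipotents. -/
def uU (t : ZMod q) : GQ q := ⟨!![1, t; 0, 1], by simp [Matrix.det_fin_two]⟩

/-- Lower unipotents. -/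
def uL (t : ZMod q) : GQ q := ⟨!![1, 0; t, 1], by simp [Matrix.det_fin_two]⟩

theorem uU_add (s t : ZMod q) : uU (s + t) = uU s * uU t := by
  ext i j
  fin_cases i <;> fin_cases j <;> simp [uU, Matrix.mul_apply, Fin.sum_univ_two, add_comm]

theorem uL_add (s t : ZMod q) : uL (s + t) = uL s * uL t := by
  ext i j
  fin_cases i <;> fin_cases j <;> simp [uL, Matrix.mul_apply, Fin.sum_univ_two]

theorem xff_det (h : GQ q) : h 0 0 * h 1 1 - h 0 1 * h 1 0 = 1 := by
  have := h.det_coe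
  rwa [Matrix.det_fin_two] at this

theorem xff_ext {g h : GQ q} (h0 : g 0 0 = h 0 0) (h1 : g 0 1 = h 0 1) (h2 : g 1 0 = h 1 0)
    (h3 : g 1 1 = h 1 1) : g = h := by
  ext i j
  fin_cases i <;> fin_cases j <;> assumption

theorem xff_mul (g h : GQ q) (i j : Fin 2) : (g * h) i j = g i 0 * h 0 j + g i 1 * h 1 j := by
  simp [Matrix.mul_apply, Fin.sum_univ_two]

theorem xff_U (t : ZMod q) : uU t 0 0 = 1 ∧ uU t 0 1 = t ∧ uU t 1 0 = 0 ∧ uU t 1 1 = 1 :=
  ⟨rfl, rfl, rfl, rfl⟩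

theorem xff_L (t : ZMod q) : uL t 0 0 = 1 ∧ uL t 0 1 = 0 ∧ uL t 1 0 = t ∧ uL t 1 1 = 1 :=
  ⟨rfl, rfl, rfl, rfl⟩

theorem xff_U0 : uU (0 : ZMod q) = 1 := by
  apply xff_ext <;> simp [xff_U]

theorem xff_L0 : uL (0 : ZMod q) = 1 := by
  apply xff_ext <;> simp [xff_L]

theorem xff_Uinv (t : ZMod q) : (uU t)⁻¹ = uU (-t) :=
  inv_eq_of_mul_eq_one_right (by rw [← uU_add, add_neg_cancel, xff_U0])

theorem xff_Linv (t : ZMod q) : (uL t)⁻¹ = uL (-t) :=
  inv_eq_of_mul_eq_one_right (by rw [← uL_add, add_neg_cancel, xff_L0])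

theorem xff_neg (h : GQ q) (i j : Fin 2) : (-h) i j = -(h i j) := by
  simp

variable [Fact q.Prime]

theorem xff_ne (hq : 5 < q) {n : ℕ} (h0 : 0 < n) (h5 : n ≤ 5) : (n : ZMod q) ≠ 0 := by
  intro h
  have := Nat.le_of_dvd h0 ((ZMod.natCast_eq_zero_iff n q).1 h)
  omega

theorem xff_three (σ : GQ q) (hc : σ 1 0 ≠ 0) : ∃ a b c, σ = uU a * uL b * uU c := by
  refine ⟨(σ 0 0 - 1) / σ 1 0, σ 1 0, (σ 1 1 - 1) / σ 1 0, ?_⟩
  have hd := xff_det σ
  apply xff_ext <;> simp only [xff_mul, xff_U, xff_L] <;> field_simp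
  · ring
  · linear_combination -hd
  · ring
  · ring

theorem gen_four (σ : GQ q) : ∃ a b c d, σ = uU a * uL b * uU c * uL d := by
  by_cases hc : σ 1 0 = 0
  · have hd := xff_det σ
    have h1 : (σ * uL 1 : GQ q) 1 0 ≠ 0 := by
      simp only [xff_mul, xff_L, hc]
      intro h
      have h2 : σ 1 1 = 0 := by linear_combination h
      rw [hc, h2] at hd
      simp at hd
    obtain ⟨a, b, c, e⟩ := xff_three _ h1
    refine ⟨a, b, c, -1, ?_⟩
    rw [← e, ← xff_Linv, mul_inv_cancel_right]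
  · obtain ⟨a, b, c, e⟩ := xff_three σ hc
    exact ⟨a, b, c, 0, by rw [xff_L0, mul_one]; exact e⟩

theorem card_GQ : Fintype.card (GQ q) ≤ q ^ 3 := by
  have key : Function.Injective fun g : GQ q =>
      (g 0 0, g 0 1, if g 0 0 = 0 then g 1 1 else g 1 0) := by
    intro g h e
    simp only [Prod.mk.injEq] at e
    obtain ⟨e0, e1, e2⟩ := e
    have dg := xff_det g
    have dh := xff_det h
    by_cases ha : g 0 0 = 0
    · have hb : h 0 0 = 0 := e0 ▸ ha
      rw [if_pos ha, if_pos hb] at e2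
      have hb0 : g 0 1 ≠ 0 := by
        intro h0
        rw [ha, h0] at dg
        simp at dg
      refine xff_ext e0 e1 (mul_left_cancel₀ hb0 ?_) e2
      rw [← e1, hb] at dh
      rw [ha] at dg
      linear_combination dh - dg
    · have hb : ¬ h 0 0 = 0 := e0 ▸ ha
      rw [if_neg ha, if_neg hb] at e2
      refine xff_ext e0 e1 e2 (mul_left_cancel₀ ha ?_)
      rw [← e0, ← e1, ← e2] at dh
      linear_combination dg - dh
  refine (Fintype.card_le_of_injective _ key).trans (le_of_eq ?_)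
  simp only [Fintype.card_prod, ZMod.card]
  ring

theorem xff_scalar {h : GQ q} (hb : h 0 1 = 0) (hc : h 1 0 = 0) (had : h 0 0 = h 1 1) :
    h = 1 ∨ h = -1 := by
  have hd := xff_det h
  rw [hb, ← had] at hd
  have : (h 0 0 - 1) * (h 0 0 + 1) = 0 := by linear_combination hd
  rcases mul_eq_zero.1 this with e | e
  · have e1 : h 0 0 = 1 := by linear_combination e
    refine Or.inl (xff_ext ?_ ?_ ?_ ?_)
    · simpa using e1
    · simpa using hb
    · simpa using hc
    · simpa using had ▸ e1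
  · have e1 : h 0 0 = -1 := by linear_combination e
    refine Or.inr (xff_ext ?_ ?_ ?_ ?_)
    · simpa using e1
    · simpa using hb
    · simpa using hc
    · simpa using had ▸ e1

theorem centre_pm (hq : 5 < q) {h : GQ q} (h1 : h * uU 1 = uU 1 * h ∨ h * uU 1 = -(uU 1 * h))
    (h2 : h * uL 1 = uL 1 * h ∨ h * uL 1 = -(uL 1 * h)) : h = 1 ∨ h = -1 := by
  have h2' : (2 : ZMod q) ≠ 0 := by exact_mod_cast xff_ne hq (n := 2) (by norm_num) (by norm_num)
  have hd := xff_det h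
  have a1 : h 1 0 = 0 ∧ h 0 0 = h 1 1 := by
    rcases h1 with e | e
    · have e0 := congrArg (fun g : GQ q => g 0 0) e
      have e1 := congrArg (fun g : GQ q => g 0 1) e
      simp only [xff_mul, xff_U] at e0 e1
      exact ⟨by linear_combination -e0, by linear_combination e1⟩
    · have e0 := congrArg (fun g : GQ q => g 0 0) e
      have e1 := congrArg (fun g : GQ q => g 1 0) e
      simp only [xff_neg, xff_mul, xff_U] at e0 e1
      have c0 : h 1 0 = 0 := mul_left_cancel₀ h2' (by linear_combination e1)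
      have c1 : h 0 0 = 0 := mul_left_cancel₀ h2' (by linear_combination e0 - c0)
      rw [c0, c1] at hd
      simp at hd
  have a2 : h 0 1 = 0 := by
    rcases h2 with e | e
    · have e0 := congrArg (fun g : GQ q => g 0 0) e
      simp only [xff_mul, xff_L] at e0
      linear_combination e0
    · have e1 := congrArg (fun g : GQ q => g 0 1) e
      simp only [xff_neg, xff_mul, xff_L] at e1
      exact mul_left_cancel₀ h2' (by linear_combination e1)
  exact xff_scalar a2 a1.1 a1.2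

/-- products of at most `k` conjugates -/
def xffP (h : GQ q) (k : ℕ) (σ : GQ q) : Prop :=
  ∃ l : List (GQ q × Bool), l.length ≤ k ∧
    σ = (l.map fun p => p.1 * (if p.2 then h else h⁻¹) * p.1⁻¹).prod

theorem xff_Pmul {h a b : GQ q} {k m : ℕ} (ha : xffP h k a) (hb : xffP h m b) :
    xffP h (k + m) (a * b) := by
  obtain ⟨l, h1, rfl⟩ := ha
  obtain ⟨l', h2, rfl⟩ := hb
  exact ⟨l ++ l', by rw [List.length_append]; omega, by rw [List.map_append, List.prod_append]⟩

theorem xff_Pconj {h a : GQ q} {k : ℕ} (ha : xffP h k a) (x : GQ q) :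
    xffP h k (x * a * x⁻¹) := by
  obtain ⟨l, h1, rfl⟩ := ha
  refine ⟨l.map fun p => (x * p.1, p.2), by simpa using h1, ?_⟩
  clear h1
  induction l with
  | nil => simp
  | cons p l ih =>
    simp only [List.map_cons, List.prod_cons] at ih ⊢
    rw [← ih]
    group

theorem xff_Pinv {h a : GQ q} {k : ℕ} (ha : xffP h k a) : xffP h k a⁻¹ := by
  obtain ⟨l, h1, rfl⟩ := ha
  refine ⟨(l.map fun p => (p.1, !p.2)).reverse, by simpa using h1, ?_⟩
  clear h1
  induction l with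
  | nil => simp
  | cons p l ih =>
    simp only [List.map_cons, List.prod_cons, List.reverse_cons, List.map_append,
      List.prod_append, List.map_nil, List.prod_nil, mul_one] at ih ⊢
    rw [← ih, mul_inv_rev]
    obtain ⟨y, b⟩ := p
    cases b <;> simp [mul_assoc]

theorem xff_Pone (h : GQ q) : xffP h 1 h := ⟨[(1, true)], le_rfl, by simp⟩

theorem xff_Pcomm {h a : GQ q} {k : ℕ} (ha : xffP h k a) (x : GQ q) :
    xffP h (k + k) (a * x * a⁻¹ * x⁻¹) := by
  have := xff_Pmul ha (xff_Pconj (xff_Pinv ha) x)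
  simpa only [mul_assoc] using this

theorem xff_low (hq : 5 < q) {h : GQ q} (h1 : h ≠ 1) (h2 : h ≠ -1) :
    ∃ g, xffP h 1 g ∧ g 1 0 ≠ 0 := by
  have h2' : (2 : ZMod q) ≠ 0 := by exact_mod_cast xff_ne hq (n := 2) (by norm_num) (by norm_num)
  by_contra hn
  push Not at hn
  have c0 := hn _ (xff_Pone h)
  have c1 := hn _ (xff_Pconj (xff_Pone h) (uL 1))
  have c2 := hn _ (xff_Pconj (xff_Pone h) (uL (-1)))
  rw [xff_Linv] at c1 c2
  simp only [xff_mul, xff_L, c0] at c1 c2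
  have b0 : h 0 1 = 0 := mul_left_cancel₀ h2' (by linear_combination -c1 - c2)
  have ad : h 0 0 = h 1 1 := by linear_combination c1 + b0
  rcases xff_scalar b0 c0 ad with e | e
  · exact h1 e
  · exact h2 e

theorem xff_upper (hq : 5 < q) {h : GQ q} (h1 : h ≠ 1) (h2 : h ≠ -1) (r : ZMod q) :
    xffP h 4 (uU r) := by
  have n2 : (2 : ZMod q) ≠ 0 := by exact_mod_cast xff_ne hq (n := 2) (by norm_num) (by norm_num)
  have n3 : (3 : ZMod q) ≠ 0 := by exact_mod_cast xff_ne hq (n := 3) (by norm_num) (by norm_num)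
  have n5 : (5 : ZMod q) ≠ 0 := by exact_mod_cast xff_ne hq (n := 5) (by norm_num) (by norm_num)
  obtain ⟨g, hg, hc⟩ := xff_low hq h1 h2
  obtain ⟨k, hk, k0, k1⟩ : ∃ k, xffP h 1 k ∧ k 0 0 = 0 ∧ k 1 0 ≠ 0 := by
    refine ⟨_, xff_Pconj hg (uU (-g 0 0 / g 1 0)), ?_, ?_⟩
    · rw [xff_Uinv]
      simp only [xff_mul, xff_U]
      field_simp
      ring
    · rw [xff_Uinv]
      simp only [xff_mul, xff_U]
      simpa using hc
  obtain ⟨t, ht⟩ : ∃ t, 2 * k 1 0 * t = 3 := ⟨3 / (2 * k 1 0), by field_simp⟩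
  obtain ⟨s, hs⟩ : ∃ s, 15 * s = r := ⟨r / (3 * 5), by field_simp; ring⟩
  have hd := xff_det k
  rw [k0] at hd
  have e1 : k * uU t = uL (-(k 1 0 ^ 2 * t)) * k := by
    apply xff_ext <;> simp only [xff_mul, xff_U, xff_L, k0]
    · ring
    · ring
    · ring
    · linear_combination (-(k 1 0 * t)) * hd
  have p2 := xff_Pconj (xff_Pcomm hk (uU t)) (uL (2 * k 1 0))
  rw [e1, mul_inv_cancel_right, xff_Uinv, xff_Linv] at p2
  generalize k 1 0 = c at ht p2
  have e2 : uL (2 * c) * (uL (-(c ^ 2 * t)) * uU (-t)) * uL (-(2 * c)) * uU s =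
      uU (16 * s) * (uL (2 * c) * (uL (-(c ^ 2 * t)) * uU (-t)) * uL (-(2 * c))) := by
    apply xff_ext <;> simp only [xff_mul, xff_U, xff_L]
    · linear_combination (16 * s * c ^ 2 * t) * ht
    · linear_combination (s * (5 - 8 * c * t)) * ht
    · ring
    · linear_combination (-(s * c ^ 2 * t)) * ht
  have p4 := xff_Pcomm p2 (uU s)
  rw [e2, mul_inv_cancel_right, xff_Uinv, ← uU_add] at p4
  have e3 : 16 * s + -s = r := by linear_combination hs
  rwa [e3] at p4

theorem xff_weyl (r : ZMod q) : uL r = (uU (-1) * uL 1 * uU (-1))⁻¹ * uU (-r) *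
    (uU (-1) * uL 1 * uU (-1))⁻¹⁻¹ := by
  rw [inv_inv, mul_assoc, eq_inv_mul_iff_mul_eq]
  apply xff_ext <;> simp only [xff_mul, xff_U, xff_L] <;> ring

theorem conj_sixteen (hq : 5 < q) {h : GQ q} (h1 : h ≠ 1) (h2 : h ≠ -1) (σ : GQ q) :
    ∃ l : List (GQ q × Bool), l.length ≤ 16 ∧
      σ = (l.map fun p => p.1 * (if p.2 then h else h⁻¹) * p.1⁻¹).prod := by
  obtain ⟨a, b, c, d, rfl⟩ := gen_four σ
  have hL : ∀ r, xffP h 4 (uL r) := fun r => by
    rw [xff_weyl]
    exact xff_Pconj (xff_upper hq h1 h2 _) _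
  exact xff_Pmul (xff_Pmul (xff_Pmul (xff_upper hq h1 h2 a) (hL b)) (xff_upper hq h1 h2 c)) (hL d)

theorem normal_top (hq : 5 < q) (N : Subgroup (GQ q)) (hN : N.Normal) {h : GQ q} (hh : h ∈ N)
    (h1 : h ≠ 1) (h2 : h ≠ -1) : N = ⊤ := by
  rw [eq_top_iff]
  intro σ _
  obtain ⟨l, -, rfl⟩ := conj_sixteen hq h1 h2 σ
  refine N.list_prod_mem fun x hx => ?_
  obtain ⟨p, -, rfl⟩ := List.mem_map.1 hx
  refine hN.conj_mem _ ?_ _
  split_ifs
  · exact hh
  · exact N.inv_mem hh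

theorem uU_ne (hq : 5 < q) : uU (1 : ZMod q) ≠ 1 ∧ uU (1 : ZMod q) ≠ -1 := by
  constructor
  · intro e
    have e1 := congrArg (fun g : GQ q => g 0 1) e
    simp [xff_U] at e1
  · intro e
    have e1 := congrArg (fun g : GQ q => g 0 1) e
    simp [xff_U] at e1

theorem closure_uUL (H : Subgroup (GQ q)) (h1 : uU 1 ∈ H) (h2 : uL 1 ∈ H) : H = ⊤ := by
  have hU : ∀ n : ℕ, uU (n : ZMod q) ∈ H ∧ uL (n : ZMod q) ∈ H := by
    intro n
    induction n with
    | zero => rw [Nat.cast_zero, xff_U0, xff_L0]; exact ⟨H.one_mem, H.one_mem⟩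
    | succ n ih =>
      rw [Nat.cast_succ, uU_add, uL_add]
      exact ⟨H.mul_mem ih.1 h1, H.mul_mem ih.2 h2⟩
  have hV : ∀ t : ZMod q, uU t ∈ H ∧ uL t ∈ H := fun t => by
    have := hU t.val
    rwa [ZMod.natCast_zmod_val] at this
  rw [eq_top_iff]
  intro σ _
  obtain ⟨a, b, c, d, rfl⟩ := gen_four σ
  exact H.mul_mem (H.mul_mem (H.mul_mem (hV a).1 (hV b).2) (hV c).1) (hV d).2

end Pool.Agent.EQ
end
end

-- part Pool.Agent.P.MP_ad7a55_nt.XHd
section

/-! Derivatives of logarithmic derivatives at the point two. -/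

set_option autoImplicit false

noncomputable section

open Finset
open scoped Classical ArithmeticFunction.vonMangoldt

namespace Pool.Agent.EQ

theorem xhd_prim {R : ℝ} {f : ℂ → ℂ} {c : ℂ} {M : ℝ} (hR : 0 < R)
    (hf : DifferentiableOn ℂ f (Metric.ball c R)) (h0 : ∀ z ∈ Metric.ball c R, f z ≠ 0)
    (hM : 1 ≤ M) (hb : ∀ z ∈ Metric.ball c R, ‖f z‖ ≤ M * ‖f c‖) :
    ∃ h : ℂ → ℂ, (∀ z ∈ Metric.ball c R, HasDerivAt h (deriv f z / f z) z) ∧
      ∀ z ∈ Metric.ball c R, ‖h z‖ ≤ 2 * (Real.log M + 1) * ‖z - c‖ / (R - ‖z - c‖) := by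
  have hg : DifferentiableOn ℂ (fun z => deriv f z / f z) (Metric.ball c R) :=
    (hf.deriv Metric.isOpen_ball).div hf h0
  obtain ⟨h, hc, hh⟩ := hg.isExactOn_ball.with_val_at c 0
  have hcm : c ∈ Metric.ball c R := Metric.mem_ball_self hR
  have hd : ∀ z ∈ Metric.ball c R,
      HasDerivAt (fun z => f z * Complex.exp (-h z)) 0 z := by
    intro z hz
    have h1 : HasDerivAt f (deriv f z) z :=
      (hf.differentiableAt (Metric.isOpen_ball.mem_nhds hz)).hasDerivAt
    have h2 := h1.mul (hh z hz).neg.cexp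
    have h3 : deriv f z * Complex.exp (-h z) +
        f z * (Complex.exp (-h z) * -(deriv f z / f z)) = 0 := by
      have := h0 z hz
      field_simp
      ring
    have h4 : HasDerivAt (fun z => f z * Complex.exp (-h z))
        (deriv f z * Complex.exp (-h z) + f z * (Complex.exp (-h z) * -(deriv f z / f z))) z := h2
    rwa [h3] at h4
  have hre : ∀ z ∈ Metric.ball c R, (h z).re ≤ Real.log M + 1 := by
    intro z hz
    have h1 : f z * Complex.exp (-h z) = f c * Complex.exp (-h c) :=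
      Metric.isOpen_ball.is_const_of_deriv_eq_zero (convex_ball c R).isPreconnected
        (fun w hw => (hd w hw).differentiableAt.differentiableWithinAt)
        (fun w hw => (hd w hw).deriv) hz hcm
    rw [hc, neg_zero, Complex.exp_zero, mul_one] at h1
    have h2 : f z = f c * Complex.exp (h z) := by
      rw [← h1, mul_assoc, ← Complex.exp_add, neg_add_cancel, Complex.exp_zero, mul_one]
    have h3 := hb z hz
    rw [h2, norm_mul, Complex.norm_exp, mul_comm] at h3
    have h4 : Real.exp (h z).re ≤ M :=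
      le_of_mul_le_mul_right h3 (norm_pos_iff.2 (h0 c hcm))
    have h5 := (Real.le_log_iff_exp_le (by linarith)).2 h4
    linarith
  refine ⟨h, hh, fun z hz => ?_⟩
  have hmem : ∀ w ∈ Metric.ball (0 : ℂ) R, w + c ∈ Metric.ball c R := by
    intro w hw
    rw [mem_ball_iff_norm, add_sub_cancel_right]
    exact mem_ball_zero_iff.1 hw
  have hlog : 0 ≤ Real.log M := Real.log_nonneg hM
  have h6 := Complex.borelCaratheodory_zero (f := fun w => h (w + c)) (M := Real.log M + 1)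
    (R := R) (z := z - c) (by linarith)
    (fun w hw => ((hh _ (hmem w hw)).differentiableAt.comp w
      (differentiableAt_id.add_const c)).differentiableWithinAt)
    (fun w hw => hre _ (hmem w hw)) hR (mem_ball_zero_iff.2 (mem_ball_iff_norm.1 hz))
    (by simpa using hc)
  simpa using h6

theorem xhd_mono {A t R S : ℝ} (hA : 0 ≤ A) (ht : 0 ≤ t) (hS : t ≤ S) (hR : S < R) :
    A * t / (R - t) ≤ A * S / (R - S) :=
  div_le_div₀ (mul_nonneg hA (ht.trans hS)) (mul_le_mul_of_nonneg_left hS hA) (by linarith)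
    (by linarith)

theorem logderiv_bound {r R : ℝ} (hr : 0 < r) (hR : r < R) : ∃ C : ℝ, 0 < C ∧
    ∀ (f : ℂ → ℂ) (c : ℂ) (M : ℝ), DifferentiableOn ℂ f (Metric.ball c R) →
      (∀ z ∈ Metric.ball c R, f z ≠ 0) → 1 ≤ M → (∀ z ∈ Metric.ball c R, ‖f z‖ ≤ M * ‖f c‖) →
      ∀ k : ℕ, ‖iteratedDeriv k (fun z => deriv f z / f z) c‖ ≤
        C * (Real.log M + 1) * k.factorial / r ^ k := by
  refine ⟨2 * ((r + R) / 2) / (R - (r + R) / 2) / ((R - r) / 2),
    div_pos (div_pos (by linarith) (by linarith)) (by linarith), ?_⟩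
  intro f c M hf h0 hM hb k
  obtain ⟨h, hh, hn⟩ := xhd_prim (hr.trans hR) hf h0 hM hb
  have hlog : 0 ≤ Real.log M := Real.log_nonneg hM
  have hδ : 0 < (R - r) / 2 := by linarith
  have hg : DifferentiableOn ℂ (fun z => deriv f z / f z) (Metric.ball c R) :=
    (hf.deriv Metric.isOpen_ball).div hf h0
  have hhd : DifferentiableOn ℂ h (Metric.ball c R) :=
    fun z hz => (hh z hz).differentiableAt.differentiableWithinAt
  have hs : ∀ z ∈ Metric.sphere c r, ‖deriv f z / f z‖ ≤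
      2 * (Real.log M + 1) * ((r + R) / 2) / (R - (r + R) / 2) / ((R - r) / 2) := by
    intro z hz
    have hz1 : dist z c = r := Metric.mem_sphere.1 hz
    have hsub : Metric.closedBall z ((R - r) / 2) ⊆ Metric.ball c R :=
      Metric.closedBall_subset_ball' (by linarith)
    rw [← (hh z (by rw [Metric.mem_ball]; linarith)).deriv]
    refine Complex.norm_deriv_le_of_forall_mem_sphere_norm_le hδ
      (hhd.diffContOnCl_ball hsub) fun w hw => ?_
    refine (hn w (hsub (Metric.sphere_subset_closedBall hw))).trans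
      (xhd_mono (by linarith) (norm_nonneg _) ?_ (by linarith))
    have h1 := dist_triangle w z c
    rw [Metric.mem_sphere.1 hw, hz1, dist_eq_norm] at h1
    linarith
  refine (Complex.norm_iteratedDeriv_le_of_forall_mem_sphere_norm_le k hr
    (hg.diffContOnCl_ball (Metric.closedBall_subset_ball hR)) hs).trans (le_of_eq ?_)
  ring

theorem xhd_iter (a : ℕ → ℂ) (k n : ℕ) :
    LSeries.logMul^[k] a n = Complex.log n ^ k * a n := by
  induction k with
  | zero => simp
  | succ k ih =>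
    rw [Function.iterate_succ_apply', pow_succ']
    show Complex.log n * LSeries.logMul^[k] a n = _
    rw [ih, mul_assoc]

theorem xhd_deriv (b : ℕ → ℂ)
    (hb : ∀ s : ℂ, 1 < s.re → LSeriesSummable (fun n => b n * (Λ n : ℂ)) s) (k : ℕ) :
    iteratedDeriv k (LSeries fun n => b n * (Λ n : ℂ)) 2 =
      (-1) ^ k * ∑' n : ℕ, b n * ((Λ n * Real.log n ^ k / (n : ℝ) ^ 2 : ℝ) : ℂ) := by
  have h1 : LSeries.abscissaOfAbsConv (fun n => b n * (Λ n : ℂ)) ≤ (1 : ℝ) :=
    LSeries.abscissaOfAbsConv_le_of_forall_lt_LSeriesSummable fun y hy => hb y (by simpa using hy)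
  have h2 : LSeries.abscissaOfAbsConv (fun n => b n * (Λ n : ℂ)) < (2 : ℂ).re :=
    h1.trans_lt (EReal.coe_lt_coe_iff.2 (by norm_num))
  rw [LSeries_iteratedDeriv k h2, LSeries]
  congr 1
  refine tsum_congr fun n => ?_
  rcases Nat.eq_zero_or_pos n with rfl | hn
  · simp
  · rw [LSeries.term_of_ne_zero hn.ne', xhd_iter, ← Complex.natCast_log]
    have h3 : (n : ℂ) ^ (2 : ℂ) = (n : ℂ) ^ 2 := Complex.cpow_two _
    rw [h3]
    push_cast
    ring

theorem xhd_two {q : ℕ} [NeZero q] (χ : DirichletCharacter ℂ q) : 1 ≤ 2 * ‖χ.LFunction 2‖ := by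
  have h2 : 1 < (2 : ℂ).re := by norm_num
  have h1 := DirichletCharacter.LSeries.mul_mu_eq_one χ h2
  have h3 : ‖LSeries ((fun n : ℕ => χ n) * fun n : ℕ => (ArithmeticFunction.moebius n : ℂ)) 2‖ ≤
      Real.pi ^ 2 / 6 := by
    refine tsum_of_norm_bounded hasSum_zeta_two fun n => ?_
    rcases Nat.eq_zero_or_pos n with rfl | hn
    · simp
    · rw [LSeries.term_of_ne_zero hn.ne', Complex.cpow_two, norm_div, norm_pow,
        Complex.norm_natCast, Pi.mul_apply, norm_mul]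
      refine div_le_div_of_nonneg_right ?_ (by positivity)
      have h4 : ‖((ArithmeticFunction.moebius n : ℤ) : ℂ)‖ ≤ 1 := by
        rw [Complex.norm_intCast]
        exact_mod_cast ArithmeticFunction.abs_moebius_le_one
      exact mul_le_one₀ (χ.norm_le_one _) (norm_nonneg _) h4
  have h5 : Real.pi ^ 2 / 6 ≤ 2 := by
    have h6 := Real.pi_lt_d2
    have h7 := Real.pi_pos
    nlinarith
  have h8 := congrArg norm h1
  rw [norm_mul, norm_one] at h8
  rw [χ.LFunction_eq_LSeries h2, ← h8, mul_comm]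
  exact mul_le_mul_of_nonneg_right (h3.trans h5) (norm_nonneg _)

theorem xhd_nhds : {s : ℂ | 1 < s.re} ∈ nhds (2 : ℂ) :=
  (isOpen_lt continuous_const Complex.continuous_re).mem_nhds (by simp)

theorem sum_chi {ε : ℝ} (hε : 0 < ε) : ∃ C ρ : ℝ, 0 < C ∧ 1 < ρ ∧ ∀ (q : ℕ) [NeZero q]
    (χ : DirichletCharacter ℂ q), χ ≠ 1 → (∀ s : ℂ, ‖s - 2‖ < 1 + ε → χ.LFunction s ≠ 0) → ∀ k : ℕ,
      ‖∑' n : ℕ, χ n * ((Λ n * Real.log n ^ k / (n : ℝ) ^ 2 : ℝ) : ℂ)‖ ≤
        C * (Real.log q + 1) * k.factorial / ρ ^ k := by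
  have he : 0 < min ε (1 / 3) := lt_min hε (by norm_num)
  have he1 : min ε (1 / 3) ≤ ε := min_le_left _ _
  have he2 : min ε (1 / 3) ≤ 1 / 3 := min_le_right _ _
  obtain ⟨C, hC, H⟩ := logderiv_bound (r := 1 + min ε (1 / 3) / 2) (R := 1 + min ε (1 / 3))
    (by linarith) (by linarith)
  refine ⟨C * 10, 1 + min ε (1 / 3) / 2, by linarith, by linarith, ?_⟩
  intro q _ χ hχ hz k
  have hq : (1 : ℝ) ≤ q := by exact_mod_cast Nat.pos_of_ne_zero (NeZero.ne q)
  have h1 := H χ.LFunction 2 (10 * q) (χ.differentiable_LFunction hχ).differentiableOn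
    (fun s hs => hz s (by linarith [mem_ball_iff_norm.1 hs])) (by linarith)
    (fun s hs => by
      have h2 := L_ball hχ (s := s) (Metric.ball_subset_closedBall
        (Metric.ball_subset_ball (by linarith) hs))
      have h3 := mul_le_mul_of_nonneg_left (xhd_two χ) (show (0 : ℝ) ≤ 5 * q by linarith)
      linarith) k
  have h2 : (fun z => deriv χ.LFunction z / χ.LFunction z) =ᶠ[nhds 2]
      fun z => -LSeries (fun n : ℕ => χ n * (Λ n : ℂ)) z := by
    filter_upwards [xhd_nhds] with s hs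
    have h3 : χ.LFunction =ᶠ[nhds s] LSeries fun n : ℕ => χ n := by
      filter_upwards [(isOpen_lt continuous_const Complex.continuous_re).mem_nhds hs] with w hw
      exact χ.LFunction_eq_LSeries hw
    have h4 : LSeries (fun n : ℕ => χ n * (Λ n : ℂ)) s = _ :=
      χ.LSeries_twist_vonMangoldt_eq hs
    rw [h4, h3.deriv_eq, χ.LFunction_eq_LSeries hs, neg_div, neg_neg]
  rw [h2.iteratedDeriv_eq, iteratedDeriv_fun_neg, norm_neg,
    xhd_deriv (fun n : ℕ => χ n) (fun s hs => χ.LSeriesSummable_twist_vonMangoldt hs) k,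
    norm_mul, norm_pow, norm_neg, norm_one, one_pow, one_mul] at h1
  refine h1.trans (div_le_div_of_nonneg_right
    (mul_le_mul_of_nonneg_right ?_ (Nat.cast_nonneg _)) (by positivity))
  rw [mul_assoc]
  refine mul_le_mul_of_nonneg_left ?_ hC.le
  have h5 : Real.log 10 ≤ 10 - 1 := Real.log_le_sub_one_of_pos (by norm_num)
  have h6 := Real.log_nonneg hq
  rw [Real.log_mul (by norm_num) (by linarith)]
  linarith

theorem xhd_ball : ∃ δ : ℝ, 0 < δ ∧ ∀ z ∈ Metric.ball (2 : ℂ) (δ + 1), riemannZeta₁ z ≠ 0 := by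
  have h1 : IsOpen {z : ℂ | riemannZeta₁ z ≠ 0} :=
    isOpen_ne_fun differentiable_riemannZeta₁.continuous continuous_const
  have h2 : Metric.closedBall (2 : ℂ) 1 ⊆ {z : ℂ | riemannZeta₁ z ≠ 0} := by
    intro s hs
    have h3 := abs_le.1 ((Complex.abs_re_le_norm (s - 2)).trans (mem_closedBall_iff_norm.1 hs))
    have h4 : (s - 2).re = s.re - 2 := by simp
    rcases eq_or_ne s 1 with rfl | h5
    · simp
    · intro h6
      refine riemannZeta_ne_zero_of_one_le_re (s := s) (by linarith [h3.1]) ?_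
      rw [riemannZeta_eq_inv_sub_mul h5, h6, mul_zero]
  obtain ⟨δ, hδ, h7⟩ := (isCompact_closedBall (2 : ℂ) 1).exists_thickening_subset_open h1 h2
  rw [thickening_closedBall hδ zero_le_one] at h7
  exact ⟨δ, hδ, fun z hz => h7 hz⟩

theorem xhd_split {s : ℂ} (hs : 1 < s.re) :
    LSeries (fun n : ℕ => (1 : ℂ) * (Λ n : ℂ)) s =
      (1 * s - 1)⁻¹ - deriv riemannZeta₁ s / riemannZeta₁ s := by
  have h1 : s ≠ 1 := by
    rintro rfl
    simp at hs
  have h2 : s - 1 ≠ 0 := sub_ne_zero.2 h1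
  have h3 := riemannZeta_ne_zero_of_one_le_re hs.le
  have h4 : ∀ w : ℂ, w ≠ 1 → riemannZeta₁ w = (w - 1) * riemannZeta w := by
    intro w hw
    rw [riemannZeta_eq_inv_sub_mul hw, ← mul_assoc, mul_inv_cancel₀ (sub_ne_zero.2 hw), one_mul]
  have h5 : riemannZeta₁ =ᶠ[nhds s] fun w => (w - 1) * riemannZeta w := by
    filter_upwards [isOpen_ne.mem_nhds h1] with w hw
    exact h4 w hw
  have h6 : HasDerivAt (fun w => (w - 1) * riemannZeta w)
      (1 * riemannZeta s + (s - 1) * deriv riemannZeta s) s :=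
    ((hasDerivAt_id s).sub_const 1).mul (differentiableAt_riemannZeta h1).hasDerivAt
  have h7 : LSeries (fun n : ℕ => (Λ n : ℂ)) s = _ :=
    ArithmeticFunction.LSeries_vonMangoldt_eq_deriv_riemannZeta_div hs
  simp only [one_mul]
  rw [h7, h5.deriv_eq, h6.deriv, h4 s h1]
  field_simp
  ring

theorem sum_zeta : ∃ C ρ : ℝ, 0 < C ∧ 1 < ρ ∧ ∀ k : ℕ,
    |∑' n : ℕ, Λ n * Real.log n ^ k / (n : ℝ) ^ 2 - k.factorial| ≤ C * k.factorial / ρ ^ k := by
  obtain ⟨δ, hδ, h0⟩ := xhd_ball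
  obtain ⟨C, hC, H⟩ := logderiv_bound (r := δ / 2 + 1) (R := δ + 1) (by linarith) (by linarith)
  obtain ⟨B, hB⟩ := (isCompact_closedBall (2 : ℂ) (δ + 1)).exists_bound_of_continuousOn
    differentiable_riemannZeta₁.continuous.continuousOn
  have h2 : 0 < ‖riemannZeta₁ 2‖ := norm_pos_iff.2 (h0 2 (Metric.mem_ball_self (by linarith)))
  have hM : 1 ≤ max 1 (B / ‖riemannZeta₁ 2‖) := le_max_left _ _
  have hlog := Real.log_nonneg hM
  refine ⟨C * (Real.log (max 1 (B / ‖riemannZeta₁ 2‖)) + 1), δ / 2 + 1,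
    mul_pos hC (by linarith), by linarith, fun k => ?_⟩
  have h1 := H riemannZeta₁ 2 _ differentiable_riemannZeta₁.differentiableOn h0 hM
    (fun z hz => (hB z (Metric.ball_subset_closedBall hz)).trans
      ((div_le_iff₀ h2).1 (le_max_right _ _))) k
  have h3 : (LSeries fun n : ℕ => (1 : ℂ) * (Λ n : ℂ)) =ᶠ[nhds 2]
      fun s => (1 * s - 1)⁻¹ - deriv riemannZeta₁ s / riemannZeta₁ s := by
    filter_upwards [xhd_nhds] with s hs
    exact xhd_split hs
  have h4 := xhd_deriv (fun _ => 1)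
    (fun s hs => by simpa using ArithmeticFunction.LSeriesSummable_vonMangoldt hs) k
  have h5 : ContDiffAt ℂ k (fun s : ℂ => (1 * s - 1)⁻¹) 2 :=
    ((contDiffAt_const.mul contDiffAt_id).sub contDiffAt_const).inv (by norm_num)
  have h6 : ContDiffAt ℂ k (fun s : ℂ => deriv riemannZeta₁ s / riemannZeta₁ s) 2 :=
    (differentiable_riemannZeta₁.deriv.contDiff.contDiffAt).div
      differentiable_riemannZeta₁.contDiff.contDiffAt (norm_pos_iff.1 h2)
  have h7 : iteratedDeriv k (fun s : ℂ => (1 * s - 1)⁻¹) 2 = (-1) ^ k * k.factorial := by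
    rw [iteratedDeriv_eq_iterate, iter_deriv_inv_linear_sub]
    norm_num
  rw [h3.iteratedDeriv_eq, iteratedDeriv_fun_sub h5 h6, h7] at h4
  simp only [one_mul] at h4
  rw [← Complex.ofReal_tsum] at h4
  have h8 : iteratedDeriv k (fun s : ℂ => deriv riemannZeta₁ s / riemannZeta₁ s) 2 =
      -((-1) ^ k * ((∑' n : ℕ, Λ n * Real.log n ^ k / (n : ℝ) ^ 2 - k.factorial : ℝ) : ℂ)) := by
    rw [Complex.ofReal_sub, mul_sub, ← h4, Complex.ofReal_natCast]
    ring
  rw [h8, norm_neg, norm_mul, norm_pow, norm_neg, norm_one, one_pow, one_mul, Complex.norm_real,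
    Real.norm_eq_abs] at h1
  exact h1

end Pool.Agent.EQ
end
end
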