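import Pool.Agent.K.MP_ad7a55_nt.C4

-- part Pool.Agent.P.MP_ad7a55_nt.Di
section

/-! Subgroups of SL₂(ℝ) × SL₂(ℝ) with full first projection. -/

set_option autoImplicit false

noncomputable section

open MeasureTheory Topology Filter UpperHalfPlane
open scoped MatrixGroups ENNReal BoundedContinuousFunction

namespace Pool.Agent.EQ

/-- A matrix that commutes with a nonscalar matrix is a polynomial in it. -/
theorem di_par {X Y : Matrix (Fin 2) (Fin 2) ℝ} (hX : X 0 1 ≠ 0 ∨ X 1 0 ≠ 0 ∨ X 0 0 ≠ X 1 1)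
    (h : X * Y = Y * X) : ∃ α χ : ℝ, Y = α • (1 : Matrix (Fin 2) (Fin 2) ℝ) + χ • X := by
  have e00 := congrFun (congrFun h 0) 0
  have e01 := congrFun (congrFun h 0) 1
  have e10 := congrFun (congrFun h 1) 0
  simp only [Matrix.mul_apply, Fin.sum_univ_two] at e00 e01 e10
  have key : ∃ χ : ℝ, Y 0 1 = χ * X 0 1 ∧ Y 1 0 = χ * X 1 0 ∧
      Y 0 0 - Y 1 1 = χ * (X 0 0 - X 1 1) := by
    rcases hX with hX | hX | hX
    · refine ⟨Y 0 1 / X 0 1, ?_, ?_, ?_⟩ <;> field_simp <;> linarith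
    · refine ⟨Y 1 0 / X 1 0, ?_, ?_, ?_⟩ <;> field_simp <;> linarith
    · have hX' := sub_ne_zero.2 hX
      refine ⟨(Y 0 0 - Y 1 1) / (X 0 0 - X 1 1), ?_, ?_, ?_⟩ <;> field_simp <;> linarith
  obtain ⟨χ, h1, h2, h3⟩ := key
  refine ⟨Y 0 0 - χ * X 0 0, χ, ?_⟩
  ext i j
  fin_cases i <;> fin_cases j <;> simp [h1, h2]
  linarith

theorem di_nonscalar {A : SL(2, ℝ)} (h1 : A ≠ 1) (h2 : A ≠ -1) :
    A 0 1 ≠ 0 ∨ A 1 0 ≠ 0 ∨ A 0 0 ≠ A 1 1 := by
  by_contra hc
  simp only [not_or, not_not] at hc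
  obtain ⟨hb, hc, hd⟩ := hc
  have hdet := A.det_coe
  rw [Matrix.det_fin_two] at hdet
  have h3 : (A 1 1 - 1) * (A 1 1 + 1) = 0 := by
    rw [hb, hd] at hdet
    linarith
  rcases mul_eq_zero.1 h3 with h | h
  · refine h1 ?_
    have h4 : A 1 1 = 1 := by linarith
    ext i j
    fin_cases i <;> fin_cases j <;> simp [hb, hc, hd, h4]
  · refine h2 ?_
    have h4 : A 1 1 = -1 := by linarith
    ext i j
    fin_cases i <;> fin_cases j <;> simp [hb, hc, hd, h4]

/-- The reverse Cauchy–Schwarz inequality with its equality case. -/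
theorem di_lorentz {u v a u' v' a' δ : ℝ} (hδ : 0 ≤ δ) (h : u ^ 2 - v ^ 2 - a ^ 2 = δ)
    (h' : u' ^ 2 - v' ^ 2 - a' ^ 2 = δ) (hB : |u * u' - v * v' - a * a'| ≤ δ) :
    v * a' - a * v' = 0 ∧ u * a' - a * u' = 0 ∧ u * v' - v * u' = 0 := by
  have hB2 : (u * u' - v * v' - a * a') ^ 2 ≤ δ ^ 2 := sq_le_sq' (abs_le.1 hB).1 (abs_le.1 hB).2
  have hL : (u * a' - a * u') ^ 2 + (u * v' - v * u') ^ 2 ≤ (v * a' - a * v') ^ 2 := by
    have : (u * u' - v * v' - a * a') ^ 2 -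
        (u ^ 2 - v ^ 2 - a ^ 2) * (u' ^ 2 - v' ^ 2 - a' ^ 2) =
        (u * a' - a * u') ^ 2 + (u * v' - v * u') ^ 2 - (v * a' - a * v') ^ 2 := by ring
    rw [h, h'] at this
    nlinarith
  have hw : v * a' - a * v' = 0 := by
    rcases hδ.eq_or_lt with h0 | h0
    · subst h0
      have h1 : u * u' = v * v' + a * a' := by
        have := abs_nonpos_iff.1 hB
        linarith
      have h2 : (v * a' - a * v') ^ 2 = 0 := by
        have h3 : (v * a' - a * v') ^ 2 =
            (v ^ 2 + a ^ 2) * (v' ^ 2 + a' ^ 2) - (v * v' + a * a') ^ 2 := by ring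
        have h4 : v ^ 2 + a ^ 2 = u ^ 2 := by linarith
        have h5 : v' ^ 2 + a' ^ 2 = u' ^ 2 := by linarith
        rw [h3, h4, h5, ← h1]; ring
      exact pow_eq_zero_iff two_ne_zero |>.1 h2
    · have h1 : u ^ 2 * (v * a' - a * v') ^ 2 ≤
          (v ^ 2 + a ^ 2) * ((u * a' - a * u') ^ 2 + (u * v' - v * u') ^ 2) := by
        have : (v ^ 2 + a ^ 2) * ((u * a' - a * u') ^ 2 + (u * v' - v * u') ^ 2) -
            u ^ 2 * (v * a' - a * v') ^ 2 =
            (a * (u * a' - a * u') + v * (u * v' - v * u')) ^ 2 := by ring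
        nlinarith [sq_nonneg (a * (u * a' - a * u') + v * (u * v' - v * u'))]
      have h2 := mul_le_mul_of_nonneg_left hL (by positivity : 0 ≤ v ^ 2 + a ^ 2)
      have h3 : δ * (v * a' - a * v') ^ 2 ≤ 0 := by rw [← h]; linarith
      have h4 : (v * a' - a * v') ^ 2 ≤ 0 := by
        by_contra hc
        exact absurd h3 (not_le.2 (mul_pos h0 (not_le.1 hc)))
      exact pow_eq_zero_iff two_ne_zero |>.1 (le_antisymm h4 (sq_nonneg _))
  rw [hw] at hL
  refine ⟨hw, pow_eq_zero_iff two_ne_zero |>.1 ?_, pow_eq_zero_iff two_ne_zero |>.1 ?_⟩ <;>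
    nlinarith [sq_nonneg (u * a' - a * u'), sq_nonneg (u * v' - v * u')]

/-- Two elements with the same trace commute if no hyperbolic element appears. -/
theorem di_comm {A C : SL(2, ℝ)} (ht : C 0 0 + C 1 1 = A 0 0 + A 1 1)
    (h1 : |(A * C) 0 0 + (A * C) 1 1| ≤ 2) (h2 : |(A * C⁻¹) 0 0 + (A * C⁻¹) 1 1| ≤ 2) :
    (A : Matrix (Fin 2) (Fin 2) ℝ) * C = C * A := by
  have hA := A.det_coe
  have hC := C.det_coe
  rw [Matrix.det_fin_two] at hA hC
  rw [Matrix.SpecialLinearGroup.SL2_inv_expl] at h2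
  simp only [Matrix.SpecialLinearGroup.coe_mul, Matrix.mul_apply, Fin.sum_univ_two] at h1 h2
  simp only [Matrix.cons_val', Matrix.cons_val_zero, Matrix.cons_val_one,
    Matrix.cons_val_fin_one] at h2
  have h1' := (abs_le.1 h1).2
  have h2' := (abs_le.1 h2).2
  have hd : C 1 1 = A 0 0 + A 1 1 - C 0 0 := by linarith
  obtain ⟨e1, e2, e3⟩ := di_lorentz (u := (A 0 1 - A 1 0) / 2) (v := (A 0 1 + A 1 0) / 2)
    (a := (A 0 0 - A 1 1) / 2) (u' := (C 0 1 - C 1 0) / 2) (v' := (C 0 1 + C 1 0) / 2)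
    (a' := (C 0 0 - C 1 1) / 2) (δ := 1 - (A 0 0 + A 1 1) ^ 2 / 4)
    (by rw [hd] at h1' h2'; nlinarith) (by linarith)
    (by rw [← ht]; linarith)
    (by rw [hd] at h1' h2' ⊢; rw [abs_le]; constructor <;> nlinarith)
  ext i j
  fin_cases i <;> fin_cases j <;> simp [Matrix.mul_apply, Fin.sum_univ_two] <;> linarith

theorem di_trace (A B : SL(2, ℝ)) :
    (B * A * B⁻¹) 0 0 + (B * A * B⁻¹) 1 1 = A 0 0 + A 1 1 := by
  have h : Matrix.trace ((B * A * B⁻¹ : SL(2, ℝ)) : Matrix (Fin 2) (Fin 2) ℝ) =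
      Matrix.trace (A : Matrix (Fin 2) (Fin 2) ℝ) := by
    rw [Matrix.SpecialLinearGroup.coe_mul, Matrix.trace_mul_comm,
      ← Matrix.SpecialLinearGroup.coe_mul, ← mul_assoc, inv_mul_cancel, one_mul]
  simpa only [Matrix.trace_fin_two] using h

theorem di_conj (B : SL(2, ℝ)) (X : Matrix (Fin 2) (Fin 2) ℝ) (α χ : ℝ) :
    (B : Matrix (Fin 2) (Fin 2) ℝ) * (α • (1 : Matrix (Fin 2) (Fin 2) ℝ) + χ • X) *
      (B⁻¹ : SL(2, ℝ)) = α • (1 : Matrix (Fin 2) (Fin 2) ℝ) +
        χ • ((B : Matrix (Fin 2) (Fin 2) ℝ) * X * (B⁻¹ : SL(2, ℝ))) := by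
  have h : (B : Matrix (Fin 2) (Fin 2) ℝ) * (B⁻¹ : SL(2, ℝ)) = 1 := by
    rw [← Matrix.SpecialLinearGroup.coe_mul, mul_inv_cancel, Matrix.SpecialLinearGroup.coe_one]
  rw [mul_add, add_mul, Matrix.mul_smul, Matrix.mul_smul, Matrix.smul_mul, Matrix.smul_mul,
    mul_one, h]

/-- If the fibre over `1` has a noncentral element but no hyperbolic one, the second projection is
metabelian. -/
theorem di_a (M : Subgroup (SL(2, ℝ) × SL(2, ℝ))) (hfull : ∀ h, ∃ g, (h, g) ∈ M)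
    (hnh : ∀ g : SL(2, ℝ), (1, g) ∈ M → |g 0 0 + g 1 1| ≤ 2) {A : SL(2, ℝ)} (hA : (1, A) ∈ M)
    (h1 : A ≠ 1) (h2 : A ≠ -1) (h : SL(2, ℝ)) : (h, 1) ∈ M := by
  have hX := di_nonscalar h1 h2
  have hN : ∀ {x B : SL(2, ℝ)}, (x, B) ∈ M → ∃ χ : ℝ,
      (B : Matrix (Fin 2) (Fin 2) ℝ) * A * (B⁻¹ : SL(2, ℝ)) =
        ((A 0 0 + A 1 1) * (1 - χ) / 2) • (1 : Matrix (Fin 2) (Fin 2) ℝ) +
          χ • (A : Matrix (Fin 2) (Fin 2) ℝ) := by
    intro x B hB
    have hC : ((1 : SL(2, ℝ)), B * A * B⁻¹) ∈ M := by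
      simpa using M.mul_mem (M.mul_mem hB hA) (M.inv_mem hB)
    have hc := di_comm (di_trace A B) (hnh _ (by simpa using M.mul_mem hA hC))
      (hnh _ (by simpa using M.mul_mem hA (M.inv_mem hC)))
    obtain ⟨α, χ, e⟩ := di_par hX hc
    have ht := di_trace A B
    rw [e] at ht
    simp only [Matrix.add_apply, Matrix.smul_apply, Matrix.one_apply_eq, smul_eq_mul] at ht
    refine ⟨χ, ?_⟩
    rw [show (A 0 0 + A 1 1) * (1 - χ) / 2 = α by linarith, ← e]
    rfl
  have hK : ∀ {x y B C : SL(2, ℝ)}, (x, B) ∈ M → (y, C) ∈ M →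
      B * C * A * (B * C)⁻¹ = C * B * A * (C * B)⁻¹ := by
    intro x y B C hB hC
    obtain ⟨χ, e⟩ := hN hB
    obtain ⟨χ', e'⟩ := hN hC
    have e1 : B * C * A * (B * C)⁻¹ = B * (C * A * C⁻¹) * B⁻¹ := by group
    have e2 : C * B * A * (C * B)⁻¹ = C * (B * A * B⁻¹) * C⁻¹ := by group
    rw [e1, e2]
    apply Subtype.ext
    simp only [Matrix.SpecialLinearGroup.coe_mul]
    rw [e, e', di_conj, di_conj, e, e']
    module
  let M1 : Subgroup SL(2, ℝ) :=
    (M ⊓ (Subgroup.centralizer {A}).comap (MonoidHom.snd _ _)).map (MonoidHom.fst _ _)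
  have hM1 : M1 = ⊤ := by
    refine SL2_perfect _ fun a b => ?_
    obtain ⟨B, hB⟩ := hfull a
    obtain ⟨C, hC⟩ := hfull b
    refine ⟨(a * b * a⁻¹ * b⁻¹, B * C * B⁻¹ * C⁻¹), ⟨?_, ?_⟩, rfl⟩
    · exact M.mul_mem (M.mul_mem (M.mul_mem hB hC) (M.inv_mem hB)) (M.inv_mem hC)
    · have e := hK (M.inv_mem hB) (M.inv_mem hC)
      change B * C * B⁻¹ * C⁻¹ ∈ Subgroup.centralizer {A}
      rw [Subgroup.mem_centralizer_singleton_iff]
      calc B * C * B⁻¹ * C⁻¹ * A
          = B * C * (B⁻¹ * C⁻¹ * A * (B⁻¹ * C⁻¹)⁻¹) * B⁻¹ * C⁻¹ := by group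
        _ = B * C * (C⁻¹ * B⁻¹ * A * (C⁻¹ * B⁻¹)⁻¹) * B⁻¹ * C⁻¹ := by rw [e]
        _ = A * (B * C * B⁻¹ * C⁻¹) := by group
  have hM : ∀ a : SL(2, ℝ), ∃ B : SL(2, ℝ), (a, B) ∈ M ∧ ∃ α χ : ℝ,
      (B : Matrix (Fin 2) (Fin 2) ℝ) = α • (1 : Matrix (Fin 2) (Fin 2) ℝ) +
        χ • (A : Matrix (Fin 2) (Fin 2) ℝ) := by
    intro a
    obtain ⟨⟨a', B⟩, ⟨hB, hc⟩, rfl⟩ : a ∈ M1 := hM1 ▸ Subgroup.mem_top a
    have hc' : B * A = A * B := Subgroup.mem_centralizer_singleton_iff.1 hc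
    refine ⟨B, hB, di_par hX ?_⟩
    rw [← Matrix.SpecialLinearGroup.coe_mul, ← hc', Matrix.SpecialLinearGroup.coe_mul]
  have hM2 : M.comap (MonoidHom.inl _ _) = ⊤ := by
    refine SL2_perfect _ fun a b => ?_
    obtain ⟨B, hB, α, χ, e⟩ := hM a
    obtain ⟨C, hC, α', χ', e'⟩ := hM b
    have hc : B * C = C * B := by
      apply Subtype.ext
      simp only [Matrix.SpecialLinearGroup.coe_mul]
      rw [e, e']
      simp only [mul_add, add_mul, Matrix.mul_smul, Matrix.smul_mul, mul_one, one_mul]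
      module
    have h3 : B * C * B⁻¹ * C⁻¹ = 1 := by rw [hc]; group
    have := M.mul_mem (M.mul_mem (M.mul_mem hB hC) (M.inv_mem hB)) (M.inv_mem hC)
    change (a * b * a⁻¹ * b⁻¹, B * C * B⁻¹ * C⁻¹) ∈ M at this
    rw [h3] at this
    exact this
  have : h ∈ M.comap (MonoidHom.inl _ _) := hM2 ▸ Subgroup.mem_top h
  exact this

theorem IsConjHom.surj {θ : SL(2, ℝ) →* SL(2, ℝ)} (h : IsConjHom θ) : Function.Surjective θ := by
  obtain ⟨η, hη, h⟩ := h
  have hu : IsUnit η.det := isUnit_iff_ne_zero.2 hη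
  intro g
  refine ⟨⟨η⁻¹ * g * η, ?_⟩, Subtype.ext ?_⟩
  · rw [Matrix.det_mul, Matrix.det_mul, g.det_coe, mul_one, Matrix.det_nonsing_inv_mul_det η hu]
  · have := congrArg (· * η⁻¹) (h ⟨η⁻¹ * g * η, by
      rw [Matrix.det_mul, Matrix.det_mul, g.det_coe, mul_one,
        Matrix.det_nonsing_inv_mul_det η hu]⟩)
    simp only [Matrix.mul_assoc, Matrix.mul_nonsing_inv η hu, mul_one,
      Matrix.mul_nonsing_inv_cancel_left η _ hu] at this
    simpa only [Matrix.mul_assoc] using this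

/-- An element all of whose commutators are `±1` is `±1`. -/
theorem eq_pm_of_commutator {g : SL(2, ℝ)}
    (h : ∀ a : SL(2, ℝ), g * a * g⁻¹ * a⁻¹ = 1 ∨ g * a * g⁻¹ * a⁻¹ = -1) : g = 1 ∨ g = -1 := by
  have key : ∀ a : SL(2, ℝ), a 0 0 + a 1 1 = 2 → g * a = a * g := by
    intro a ha
    rcases h a with e | e
    · calc g * a = g * a * g⁻¹ * a⁻¹ * (a * g) := by group
        _ = a * g := by rw [e, one_mul]
    · exfalso
      have e' : g * a * g⁻¹ = -a := by
        calc g * a * g⁻¹ = g * a * g⁻¹ * a⁻¹ * a := by group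
          _ = -a := by rw [e, neg_mul, one_mul]
      have ht := di_trace a g
      rw [e'] at ht
      simp only [Matrix.SpecialLinearGroup.coe_neg, Matrix.neg_apply] at ht
      linarith
  exact eq_pm_of_comm (key _ (by simp; norm_num)) (key _ (by simp; norm_num))

end Pool.Agent.EQ
end
end

-- part Pool.Agent.P.MP_ad7a55_nt.JBas2
section

/-! Basic properties of j. -/

set_option autoImplicit false

noncomputable section

open MeasureTheory Topology Filter UpperHalfPlane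
open scoped MatrixGroups ENNReal BoundedContinuousFunction

namespace Pool.Agent.EQ

namespace JInj

open ModularForm EisensteinSeries

/-- Equal `j` gives a common scaling of `E₄` and `E₆`. -/
theorem exists_scale {τ τ' : ℍ} (h : jInv τ = jInv τ') :
    ∃ c : ℂ, c ≠ 0 ∧ E₄ τ' = c ^ 4 * E₄ τ ∧ E₆ τ' = c ^ 6 * E₆ τ := by
  have hD := discriminant_ne_zero τ
  have hD' := discriminant_ne_zero τ'
  have e := discriminant_eq_E₄_cube_sub_E₆_sq τ
  have e' := discriminant_eq_E₄_cube_sub_E₆_sq τ'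
  unfold jInv at h
  rw [div_eq_div_iff hD hD'] at h
  generalize E₄ τ = a at *
  generalize E₆ τ = b at *
  generalize E₄ τ' = a' at *
  generalize E₆ τ' = b' at *
  generalize discriminant τ = D at *
  generalize discriminant τ' = D' at *
  have h6 : b ^ 2 * D' = b' ^ 2 * D := by
    linear_combination h - (D * 1728) * e' + (D' * 1728) * e
  suffices hs : ∃ s : ℂ, s ≠ 0 ∧ a' = s ^ 2 * a ∧ b' = s ^ 3 * b by
    obtain ⟨s, hs0, h1, h2⟩ := hs
    obtain ⟨c, hc⟩ := IsAlgClosed.exists_pow_nat_eq s (n := 2) (by norm_num)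
    refine ⟨c, ?_, ?_, ?_⟩
    · rintro rfl
      exact hs0 (by rw [← hc]; norm_num)
    · rw [h1, ← hc]; ring
    · rw [h2, ← hc]; ring
  by_cases ha : a = 0
  · subst ha
    have ha' : a' = 0 := by
      have : a' ^ 3 * D = 0 := by rw [← h]; ring
      rcases mul_eq_zero.mp this with h1 | h1
      · exact pow_eq_zero_iff (by norm_num) |>.mp h1
      · exact absurd h1 hD
    have hb : b ≠ 0 := by
      rintro rfl
      exact hD (by rw [e]; norm_num)
    have hb' : b' ≠ 0 := by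
      rintro rfl
      exact hD' (by rw [e', ha']; norm_num)
    obtain ⟨s, hs⟩ := IsAlgClosed.exists_pow_nat_eq (b' / b) (n := 3) (by norm_num)
    refine ⟨s, ?_, by rw [ha']; ring, by rw [hs]; field_simp⟩
    rintro rfl
    exact div_ne_zero hb' hb (by rw [← hs]; norm_num)
  have ha' : a' ≠ 0 := by
    rintro rfl
    have : a ^ 3 * D' = 0 := by rw [h]; ring
    rcases mul_eq_zero.mp this with h1 | h1
    · exact ha (pow_eq_zero_iff (by norm_num) |>.mp h1)
    · exact hD' h1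
  by_cases hb : b = 0
  · subst hb
    have hb' : b' = 0 := by
      have : b' ^ 2 * D = 0 := by rw [← h6]; ring
      rcases mul_eq_zero.mp this with h1 | h1
      · exact pow_eq_zero_iff (by norm_num) |>.mp h1
      · exact absurd h1 hD
    obtain ⟨s, hs⟩ := IsAlgClosed.exists_pow_nat_eq (a' / a) (n := 2) (by norm_num)
    refine ⟨s, ?_, by rw [hs]; field_simp, by rw [hb']; ring⟩
    rintro rfl
    exact div_ne_zero ha' ha (by rw [← hs]; norm_num)
  have hb' : b' ≠ 0 := by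
    rintro rfl
    have : b ^ 2 * D' = 0 := by rw [h6]; ring
    rcases mul_eq_zero.mp this with h1 | h1
    · exact hb (pow_eq_zero_iff (by norm_num) |>.mp h1)
    · exact hD' h1
  have key : b' ^ 2 * a ^ 3 = a' ^ 3 * b ^ 2 := by
    apply mul_right_cancel₀ (mul_ne_zero hD hD')
    linear_combination (b ^ 2 * D') * h - (a ^ 3 * D') * h6
  refine ⟨b' * a / (b * a'), div_ne_zero (mul_ne_zero hb' ha) (mul_ne_zero hb ha'), ?_, ?_⟩
  · field_simp
    linear_combination -key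
  · field_simp
    linear_combination -key

theorem exists_unit_form {τ τ' : ℍ} {c : ℂ} (h4 : E₄ τ' = c ^ 4 * E₄ τ)
    (h6 : E₆ τ' = c ^ 6 * E₆ τ) (k : ℕ) (hk : 4 ≤ k) (he : Even k) :
    ∃ g : ModularForm 𝒮ℒ (k : ℤ), (qExpansion 1 g).coeff 0 = 1 ∧ g τ' = c ^ k * g τ := by
  obtain ⟨a, b, hab⟩ : ∃ a b : ℕ, k = 4 * a + 6 * b := by
    obtain ⟨m, rfl⟩ := he
    rcases Nat.even_or_odd' m with ⟨n, rfl | rfl⟩
    · exact ⟨n, 0, by omega⟩
    · exact ⟨n - 1, 1, by omega⟩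
  refine ⟨ModularForm.mcast (by rw [hab]; push_cast; ring) ((E₄.pow a).mul (E₆.pow b)), ?_, ?_⟩
  · rw [coe_mcast, ModularForm.qExpansion_mul one_pos one_mem_strictPeriods_SL,
      ModularForm.qExpansion_pow one_pos one_mem_strictPeriods_SL,
      ModularForm.qExpansion_pow one_pos one_mem_strictPeriods_SL]
    have e4 := E_qExpansion_coeff_zero (by norm_num : 3 ≤ 4) ⟨2, rfl⟩
    have e6 := E_qExpansion_coeff_zero (by norm_num : 3 ≤ 6) ⟨3, rfl⟩
    simp only [PowerSeries.coeff_zero_eq_constantCoeff] at e4 e6 ⊢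
    rw [map_mul, map_pow, map_pow, e4, e6]
    simp
  · simp only [coe_mcast, coe_mul, coe_pow, Pi.mul_apply, Pi.pow_apply, h4, h6, hab]
    ring

theorem scale_all {τ τ' : ℍ} {c : ℂ} (h4 : E₄ τ' = c ^ 4 * E₄ τ)
    (h6 : E₆ τ' = c ^ 6 * E₆ τ) (k : ℕ) (f : ModularForm 𝒮ℒ (k : ℤ)) :
    f τ' = c ^ k * f τ := by
  have hD : discriminant τ' = c ^ 12 * discriminant τ := by
    rw [discriminant_eq_E₄_cube_sub_E₆_sq, discriminant_eq_E₄_cube_sub_E₆_sq, h4, h6]; ring
  induction k using Nat.strong_induction_on with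
  | _ k ih =>
  rcases Nat.even_or_odd k with he | ho
  swap
  · rw [ModularForm.levelOne_odd_weight_eq_zero (by exact_mod_cast ho) f]; simp
  by_cases h0 : k = 0
  · subst h0
    obtain ⟨x, hx⟩ := ModularFormClass.levelOne_weight_zero_const (F := ModularForm 𝒮ℒ 0) f
    have e1 : f τ' = x := congrFun hx τ'
    have e2 : f τ = x := congrFun hx τ
    rw [e1, e2]; simp
  by_cases h2 : k = 2
  · subst h2
    have : f = 0 := rank_zero_iff_forall_zero.mp levelOne_weight_two_rank_zero f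
    rw [this]; simp
  have hk : 4 ≤ k := by obtain ⟨m, rfl⟩ := he; omega
  obtain ⟨g, hg0, hg⟩ := exists_unit_form h4 h6 k hk he
  obtain ⟨φ, hφ⟩ := sub_smul_isCuspForm f g hg0
  set a0 := (qExpansion 1 f).coeff 0
  have hφ' : ∀ z, φ z = f z - a0 * g z := fun z => by
    have := DFunLike.congr_fun hφ z
    simpa using this
  have hφs : φ τ' = c ^ k * φ τ := by
    rw [← discriminant_mul_discriminantEquiv_apply φ τ',
      ← discriminant_mul_discriminantEquiv_apply φ τ]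
    by_cases h12 : k < 12
    · have : CuspForm.discriminantEquiv φ = 0 :=
        rank_zero_iff_forall_zero.mp (ModularForm.levelOne_neg_weight_rank_zero (by omega)) _
      rw [this]; simp
    · obtain ⟨n, rfl⟩ : ∃ n, k = n + 12 := ⟨k - 12, by omega⟩
      have := ih n (by omega) (ModularForm.mcast (by push_cast; ring) (CuspForm.discriminantEquiv φ))
      simp only [coe_mcast] at this
      rw [this, hD]; ring
  rw [hφ', hφ', hg] at hφs
  linear_combination hφs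

/-- An even summable weight with vanishing even moments and discrete support vanishes off `0`. -/
theorem moment_zero (u : ℂ → ℂ) (hs : Summable fun x => ‖u x‖) (hev : ∀ x, u (-x) = u x)
    (hbig : ∀ x, u x ≠ 0 → ‖x‖ ^ 4 ≤ ‖u x‖) (hm : ∀ m : ℕ, ∑' x, u x * x ^ (2 * m) = 0)
    (x1 : ℂ) (hx1 : x1 ≠ 0) : u x1 = 0 := by
  by_contra hu1
  have hpos : 0 < ‖x1‖ := norm_pos_iff.mpr hx1
  have hfin : {x | u x ≠ 0 ∧ ‖x1‖ ≤ ‖x‖}.Finite := by
    have h1 := hs.tendsto_cofinite_zero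
    have h2 := (h1.eventually (gt_mem_nhds (pow_pos hpos 4)))
    rw [Filter.eventually_cofinite] at h2
    refine h2.subset fun x hx => ?_
    simp only [Set.mem_ofPred_eq, not_lt]
    exact le_trans (pow_le_pow_left₀ hpos.le hx.2 4) (hbig x hx.1)
  obtain ⟨x0, hx0, hmax⟩ := hfin.exists_maximalFor (fun x : ℂ => ‖x‖) _ ⟨x1, hu1, le_rfl⟩
  have hle : ∀ x, u x ≠ 0 → ‖x‖ ≤ ‖x0‖ := fun x hx => by
    by_contra hlt
    push Not at hlt
    exact absurd (hmax ⟨hx, hx0.2.trans hlt.le⟩ hlt.le) (not_le.mpr hlt)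
  have hpos0 : 0 < ‖x0‖ := hpos.trans_le hx0.2
  have hx00 : x0 ≠ 0 := norm_pos_iff.mp hpos0
  set ρ : ℂ → ℂ := fun x => (x ^ 2 + x0 ^ 2) / (2 * x0 ^ 2) with hρ
  have hρ1 : ∀ x, u x ≠ 0 → ‖ρ x‖ ≤ 1 := fun x hx => by
    simp only [hρ, norm_div, norm_mul, norm_pow, Complex.norm_ofNat]
    rw [div_le_one (by positivity)]
    refine (norm_add_le _ _).trans ?_
    rw [norm_pow, norm_pow]
    have := pow_le_pow_left₀ (norm_nonneg x) (hle x hx) 2
    linarith
  have hsum : ∀ m n : ℕ, Summable fun x => u x * x ^ (2 * n) * ρ x ^ m := fun m n => by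
    refine Summable.of_norm_bounded (hs.mul_right (‖x0‖ ^ (2 * n))) fun x => ?_
    by_cases hx : u x = 0
    · simp [hx]
    rw [norm_mul, norm_mul, norm_pow, norm_pow]
    calc ‖u x‖ * ‖x‖ ^ (2 * n) * ‖ρ x‖ ^ m ≤ ‖u x‖ * ‖x0‖ ^ (2 * n) * 1 := by
          gcongr
          · exact hle x hx
          · exact pow_le_one₀ (norm_nonneg _) (hρ1 x hx)
      _ = _ := mul_one _
  have hzero : ∀ m n : ℕ, ∑' x, u x * x ^ (2 * n) * ρ x ^ m = 0 := by
    intro m
    induction m with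
    | zero => intro n; simpa using hm n
    | succ m ih =>
      intro n
      have e : ∀ x, u x * x ^ (2 * n) * ρ x ^ (m + 1) =
          (2 * x0 ^ 2)⁻¹ * (u x * x ^ (2 * (n + 1)) * ρ x ^ m) +
            2⁻¹ * (u x * x ^ (2 * n) * ρ x ^ m) := fun x => by
        rw [pow_succ (ρ x)]
        generalize ρ x ^ m = t
        simp only [hρ]
        field_simp
        ring
      simp_rw [e]
      rw [Summable.tsum_add ((hsum m (n + 1)).mul_left _) ((hsum m n).mul_left _), tsum_mul_left,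
        tsum_mul_left, ih, ih]
      simp
  have hlim : Tendsto (fun m : ℕ => ∑' x, u x * ρ x ^ m) atTop
      (𝓝 (∑' x, if x ^ 2 = x0 ^ 2 then u x else 0)) := by
    refine tendsto_tsum_of_dominated_convergence hs (fun x => ?_) (Eventually.of_forall fun m x => ?_)
    · by_cases hx : u x = 0
      · simp [hx]
      split_ifs with h
      · have : ρ x = 1 := by simp only [hρ, h]; field_simp; ring
        simp [this]
      · have hlt : ‖ρ x‖ < 1 := by
          simp only [hρ, norm_div, norm_mul, norm_pow, Complex.norm_ofNat]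
          rw [div_lt_one (by positivity)]
          have h1 : ‖x ^ 2‖ ≤ ‖x0‖ ^ 2 := by
            rw [norm_pow]; exact pow_le_pow_left₀ (norm_nonneg x) (hle x hx) 2
          have h2 : ‖x0 ^ 2‖ ≤ ‖x0‖ ^ 2 := by rw [norm_pow]
          have h3 := norm_combo_lt_of_ne h1 h2 h (a := (1 / 2 : ℝ)) (b := (1 / 2 : ℝ))
            (by norm_num) (by norm_num) (by norm_num)
          rw [← smul_add, norm_smul, Real.norm_of_nonneg (by norm_num)] at h3
          linarith
        simpa using (tendsto_pow_atTop_nhds_zero_of_norm_lt_one hlt).const_mul (u x)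
    · by_cases hx : u x = 0
      · simp [hx]
      rw [norm_mul, norm_pow]
      exact mul_le_of_le_one_right (norm_nonneg _) (pow_le_one₀ (norm_nonneg _) (hρ1 x hx))
  have hc : (fun m : ℕ => ∑' x, u x * ρ x ^ m) = fun _ => 0 := by
    funext m; simpa using hzero m 0
  rw [hc] at hlim
  have h0 := tendsto_nhds_unique hlim tendsto_const_nhds
  have hne : x0 ≠ -x0 := fun h => hx00 (by linear_combination h / 2)
  rw [tsum_eq_sum (s := {x0, -x0})] at h0
  · rw [Finset.sum_pair hne, if_pos rfl, if_pos (by ring), hev] at h0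
    exact hx0.1 (by linear_combination h0 / 2)
  · intro x hx
    simp only [Finset.mem_insert, Finset.mem_singleton, not_or] at hx
    rw [if_neg]
    intro h
    rcases sq_eq_sq_iff_eq_or_eq_neg.mp h with h | h
    · exact hx.1 h
    · exact hx.2 h

/-- The inverses of the primitive vectors of the lattice `c⁻¹ ⟨τ, 1⟩`. -/
def inv (c : ℂ) (τ : ℍ) (v : gammaSet 1 1 (0 : Fin 2 → ZMod 1)) : ℂ :=
  c * ((v.1 0 : ℂ) * τ + v.1 1)⁻¹

theorem lin_indep (τ : ℍ) {p q : ℤ} (h : (p : ℂ) * τ + q = 0) : p = 0 ∧ q = 0 := by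
  have h1 := congrArg Complex.im h
  simp only [Complex.add_im, Complex.mul_im, Complex.intCast_re, Complex.intCast_im, zero_mul,
    add_zero, Complex.zero_im, coe_im, mul_eq_zero, Int.cast_eq_zero, τ.im_pos.ne', or_false] at h1
  subst h1
  simpa using h

theorem den_ne (τ : ℍ) (v : gammaSet 1 1 (0 : Fin 2 → ZMod 1)) :
    (v.1 0 : ℂ) * τ + v.1 1 ≠ 0 := fun h => by
  obtain ⟨h0, h1⟩ := lin_indep τ h
  have := (mem_gammaSet_one v.1).mp v.2
  rw [h0, h1] at this
  exact not_isCoprime_zero_zero this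

theorem inv_ne {c : ℂ} (hc : c ≠ 0) (τ : ℍ) (v : gammaSet 1 1 (0 : Fin 2 → ZMod 1)) :
    inv c τ v ≠ 0 := mul_ne_zero hc (inv_ne_zero (den_ne τ v))

theorem inv_inj {c : ℂ} (hc : c ≠ 0) (τ : ℍ) : Function.Injective (inv c τ) := by
  intro v w h
  have h1 := inv_injective (mul_left_cancel₀ hc h)
  have h2 : ((v.1 0 - w.1 0 : ℤ) : ℂ) * τ + ((v.1 1 - w.1 1 : ℤ) : ℂ) = 0 := by
    push_cast; linear_combination h1
  obtain ⟨h3, h4⟩ := lin_indep τ h2
  ext i
  fin_cases i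
  · simpa using sub_eq_zero.mp h3
  · simpa using sub_eq_zero.mp h4

theorem neg_mem_range (c : ℂ) (τ : ℍ) {x : ℂ} (hx : x ∈ Set.range (inv c τ)) :
    -x ∈ Set.range (inv c τ) := by
  obtain ⟨v, rfl⟩ := hx
  refine ⟨⟨-v.1, ?_⟩, ?_⟩
  · rw [mem_gammaSet_one]
    exact ((mem_gammaSet_one v.1).mp v.2).neg_neg
  · simp only [inv, Pi.neg_apply, Int.cast_neg, neg_mul]
    rw [← neg_add, inv_neg, mul_neg]

theorem hasSum_inv {c : ℂ} (hc : c ≠ 0) (τ : ℍ) {k : ℕ} (hk : 3 ≤ k) :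
    HasSum (fun x => (Set.range (inv c τ)).indicator (fun x => x ^ k) x)
      (c ^ k * (2 * E hk τ)) := by
  rw [← (inv_inj hc τ).hasSum_iff fun x hx => Set.indicator_of_notMem hx _]
  have h1 : Summable fun v : gammaSet 1 1 (0 : Fin 2 → ZMod 1) => eisSummand k v τ :=
    (summable_eisSummand hk τ).subtype _
  have h2 : 2 * E hk τ = ∑' v : gammaSet 1 1 (0 : Fin 2 → ZMod 1), eisSummand k v τ := by
    have : E hk τ = (1 / 2 : ℂ) * eisensteinSeries (0 : Fin 2 → ZMod 1) k τ := rfl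
    rw [this, eisensteinSeries]; ring
  rw [h2]
  refine (h1.hasSum.mul_left (c ^ k)).congr_fun fun v => ?_
  rw [Function.comp, Set.indicator_of_mem (Set.mem_range_self v)]
  simp only [inv, eisSummand, mul_pow, zpow_neg, zpow_natCast, inv_pow]

theorem range_eq {τ τ' : ℍ} {c : ℂ} (hc : c ≠ 0) (h4 : E₄ τ' = c ^ 4 * E₄ τ)
    (h6 : E₆ τ' = c ^ 6 * E₆ τ) : Set.range (inv 1 τ') = Set.range (inv c τ) := by
  classical
  set A := Set.range (inv 1 τ') with hA
  set B := Set.range (inv c τ) with hB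
  set u : ℂ → ℂ := fun x => A.indicator (fun x => x ^ 4) x - B.indicator (fun x => x ^ 4) x with hu
  have hsA := fun (k : ℕ) (hk : 3 ≤ k) => hasSum_inv one_ne_zero τ' hk
  have hsB := fun (k : ℕ) (hk : 3 ≤ k) => hasSum_inv hc τ hk
  have hAn : ∀ x, -x ∈ A ↔ x ∈ A := fun x =>
    ⟨fun h => neg_neg x ▸ neg_mem_range _ _ h, neg_mem_range _ _⟩
  have hBn : ∀ x, -x ∈ B ↔ x ∈ B := fun x =>
    ⟨fun h => neg_neg x ▸ neg_mem_range _ _ h, neg_mem_range _ _⟩
  have key : ∀ x, x ≠ 0 → u x = 0 := by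
    refine moment_zero u ?_ ?_ ?_ ?_
    · exact summable_norm_iff.mpr
        ((hsA 4 (by norm_num)).summable.sub (hsB 4 (by norm_num)).summable)
    · intro x
      simp only [hu, Set.indicator_apply, hAn, hBn, Even.neg_pow (by decide : Even 4)]
    · intro x hx
      simp only [hu, Set.indicator_apply] at hx ⊢
      split_ifs at hx ⊢ <;> simp_all
    · intro m
      have hk : 3 ≤ 4 + 2 * m := by omega
      have := (hsA _ hk).sub (hsB _ hk)
      rw [scale_all h4 h6 _ (E hk)] at this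
      have e : (1 : ℂ) ^ (4 + 2 * m) * (2 * (c ^ (4 + 2 * m) * (E hk) τ)) -
          c ^ (4 + 2 * m) * (2 * (E hk) τ) = 0 := by ring
      rw [e] at this
      rw [← this.tsum_eq]
      refine tsum_congr fun x => ?_
      simp only [hu, Set.indicator_apply, ← hA, ← hB]
      split_ifs <;> ring
  ext x
  constructor
  · intro hx
    have hx0 : x ≠ 0 := by obtain ⟨v, rfl⟩ := hx; exact inv_ne one_ne_zero _ _
    by_contra hB'
    have := key x hx0
    simp only [hu, Set.indicator_of_mem hx, Set.indicator_of_notMem hB', sub_zero] at this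
    exact pow_ne_zero 4 hx0 this
  · intro hx
    have hx0 : x ≠ 0 := by obtain ⟨v, rfl⟩ := hx; exact inv_ne hc _ _
    by_contra hA'
    have := key x hx0
    simp only [hu, Set.indicator_of_mem hx, Set.indicator_of_notMem hA', zero_sub,
      neg_eq_zero] at this
    exact pow_ne_zero 4 hx0 this

end JInj

open JInj EisensteinSeries in
/-- `j` is injective on `SL₂(ℤ)\ℍ`. -/
theorem jInv_inj {τ τ' : ℍ} (h : jInv τ = jInv τ') : ∃ γ : SL(2, ℤ), τ' = γ • τ := by
  obtain ⟨c, hc, h4, h6⟩ := exists_scale h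
  have hr := range_eq hc h4 h6
  let e0 : gammaSet 1 1 (0 : Fin 2 → ZMod 1) :=
    ⟨![1, 0], (mem_gammaSet_one _).mpr (by simpa using isCoprime_one_left)⟩
  let e1 : gammaSet 1 1 (0 : Fin 2 → ZMod 1) :=
    ⟨![0, 1], (mem_gammaSet_one _).mpr (by simpa using isCoprime_one_right)⟩
  have fwd : ∀ w, ∃ p q : ℤ, (p : ℂ) * τ + q = c * (((w : gammaSet 1 1 (0 : Fin 2 → ZMod 1)).1 0 : ℂ)
      * τ' + w.1 1) := fun w => by
    obtain ⟨v, hv⟩ : inv 1 τ' w ∈ Set.range (inv c τ) := hr ▸ Set.mem_range_self w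
    refine ⟨v.1 0, v.1 1, ?_⟩
    have h1 := den_ne τ v
    have h2 := den_ne τ' w
    simp only [JInj.inv] at hv
    field_simp at hv
    linear_combination -hv
  have bwd : ∀ w, ∃ p q : ℤ, c * ((p : ℂ) * τ' + q) =
      (((w : gammaSet 1 1 (0 : Fin 2 → ZMod 1)).1 0 : ℂ) * τ + w.1 1) := fun w => by
    obtain ⟨v, hv⟩ : inv c τ w ∈ Set.range (inv 1 τ') := hr ▸ Set.mem_range_self w
    refine ⟨v.1 0, v.1 1, ?_⟩
    have h1 := den_ne τ w
    have h2 := den_ne τ' v
    simp only [JInj.inv] at hv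
    field_simp at hv
    linear_combination -hv
  obtain ⟨p, q, hpq⟩ := fwd e0
  obtain ⟨r, s, hrs⟩ := fwd e1
  obtain ⟨p', q', hpq'⟩ := bwd e0
  obtain ⟨r', s', hrs'⟩ := bwd e1
  simp only [e0, e1, Matrix.cons_val_zero, Matrix.cons_val_one, Int.cast_one, Int.cast_zero,
    one_mul, zero_mul, add_zero, zero_add, mul_one] at hpq hrs hpq' hrs'
  obtain ⟨a1, a2⟩ := lin_indep τ (p := p' * p + q' * r - 1) (q := p' * q + q' * s) (by
    push_cast; linear_combination p' * hpq + q' * hrs + hpq')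
  obtain ⟨a3, a4⟩ := lin_indep τ (p := r' * p + s' * r) (q := r' * q + s' * s - 1) (by
    push_cast; linear_combination r' * hpq + s' * hrs + hrs')
  have hdet : (p * s - q * r) * (p' * s' - q' * r') = 1 := by
    linear_combination (r' * q + s' * s) * a1 + a4 - (r' * p + s' * r) * a2
  have hτ : (τ' : ℂ) * (r * τ + s) = p * τ + q := by rw [hpq, hrs]; ring
  have hpos : 0 < p * s - q * r := by
    have h1 := congrArg Complex.re hτ
    have h2 := congrArg Complex.im hτ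
    simp only [Complex.mul_re, Complex.mul_im, Complex.add_re, Complex.add_im, Complex.intCast_re,
      Complex.intCast_im, zero_mul, sub_zero, add_zero, coe_re, coe_im] at h1 h2
    have h3 : τ'.im * ((r * τ.re + s) ^ 2 + (r * τ.im) ^ 2) = (p * s - q * r) * τ.im := by
      linear_combination (r * τ.re + s) * h2 - (r * τ.im) * h1
    have h4 : 0 ≤ ((p : ℝ) * s - q * r) * τ.im := by
      rw [← h3]; exact mul_nonneg τ'.im_pos.le (by positivity)
    have h5 : 0 ≤ (p : ℝ) * s - q * r := nonneg_of_mul_nonneg_left h4 τ.im_pos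
    have h6 : 0 ≤ p * s - q * r := by exact_mod_cast h5
    refine lt_of_le_of_ne h6 fun h7 => ?_
    rw [← h7] at hdet
    simp at hdet
  have hone : p * s - q * r = 1 := Int.eq_one_of_mul_eq_one_right hpos.le hdet
  obtain ⟨γ, hγ⟩ : ∃ γ : SL(2, ℤ), (γ : Matrix (Fin 2) (Fin 2) ℤ) = !![p, q; r, s] :=
    ⟨⟨!![p, q; r, s], by rw [Matrix.det_fin_two_of]; exact hone⟩, rfl⟩
  refine ⟨γ, ?_⟩
  apply UpperHalfPlane.ext
  rw [coe_specialLinearGroup_apply, eq_div_iff]
  · simpa [hγ] using hτ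
  · have : (r : ℂ) * τ + s ≠ 0 := by rw [hrs]; exact hc
    simpa [hγ] using this

end Pool.Agent.EQ
end
end
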