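import Pool.Agent.K.MP_ad7a55_nt.C5

/-! Lifting measures from a quotient by a discrete subgroup. -/

set_option autoImplicit false

noncomputable section

open MeasureTheory Topology Filter UpperHalfPlane
open scoped MatrixGroups ENNReal BoundedContinuousFunction

namespace Pool.Agent.EQ

variable {H : Type} [Group H] [TopologicalSpace H] [IsTopologicalGroup H] [PolishSpace H]
  [LocallyCompactSpace H] [MeasurableSpace H] [BorelSpace H] {Γ : Subgroup H}
  [IsClosed (Γ : Set H)] {Z : Type} [MeasurableSpace Z]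

omit [TopologicalSpace H] [IsTopologicalGroup H] [PolishSpace H] [LocallyCompactSpace H]
  [BorelSpace H] [IsClosed (Γ : Set H)] in
theorem meas_pi_lift2 : Measurable fun w : H × Z => ((w.1 : H ⧸ Γ), w.2) :=
  (QuotientGroup.measurable_coe.comp measurable_fst).prodMk measurable_snd

omit [LocallyCompactSpace H] [IsClosed (Γ : Set H)] in
theorem meas_phi_lift2 {s : H ⧸ Γ → H} (hs : IsSec s) (γ : H) :
    Measurable fun w : (H ⧸ Γ) × Z => (s w.1 * γ, w.2) :=
  ((hs.1.comp measurable_fst).mul_const γ).prodMk measurable_snd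

omit [LocallyCompactSpace H] [IsClosed (Γ : Set H)] in
theorem meas_R_lift2 {s : H ⧸ Γ → H} (hs : IsSec s) (γ : H) :
    MeasurableSet {w : H × Z | s (w.1 : H ⧸ Γ) * γ = w.1} :=
  measurableSet_eq_fun
    ((hs.1.comp (QuotientGroup.measurable_coe.comp measurable_fst)).mul_const γ) measurable_fst

omit [TopologicalSpace H] [IsTopologicalGroup H] [PolishSpace H] [LocallyCompactSpace H]
  [BorelSpace H] [IsClosed (Γ : Set H)] in
theorem mk_sec_lift2 {s : H ⧸ Γ → H} (hs : IsSec s) (x : H ⧸ Γ) (γ : Γ) :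
    ((s x * γ : H) : H ⧸ Γ) = x := by
  rw [QuotientGroup.mk_mul_of_mem _ γ.2, hs.2]

omit [LocallyCompactSpace H] [IsClosed (Γ : Set H)] in
theorem lift_apply_lift2 {s : H ⧸ Γ → H} (hs : IsSec s) (ρ : Measure ((H ⧸ Γ) × Z))
    {E : Set (H × Z)} (hE : MeasurableSet E) :
    lift s ρ E = ∑' γ : Γ, ρ {w | (s w.1 * γ, w.2) ∈ E} := by
  rw [lift, Measure.sum_apply _ hE]
  exact tsum_congr fun γ => Measure.map_apply (meas_phi_lift2 hs γ) hE

theorem lift_inj {s : H ⧸ Γ → H} (hΓ : Disc Γ) (hs : IsSec s) {ρ ρ' : Measure ((H ⧸ Γ) × Z)}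
    (h : lift s ρ = lift s ρ') : ρ = ρ' := by
  have key : ∀ (ρ : Measure ((H ⧸ Γ) × Z)) (E : Set ((H ⧸ Γ) × Z)), MeasurableSet E →
      lift s ρ ({w | ((w.1 : H ⧸ Γ), w.2) ∈ E} ∩ {w | s (w.1 : H ⧸ Γ) * 1 = w.1}) = ρ E := by
    intro ρ E hE
    have hm : MeasurableSet ({w : H × Z | ((w.1 : H ⧸ Γ), w.2) ∈ E} ∩
        {w | s (w.1 : H ⧸ Γ) * 1 = w.1}) := (meas_pi_lift2 hE).inter (meas_R_lift2 hs 1)
    rw [lift_apply_lift2 hs ρ hm, tsum_eq_single 1]
    · congr 1
      ext w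
      simp [hs.2]
    · intro γ hγ
      convert measure_empty (μ := ρ)
      refine Set.eq_empty_of_forall_notMem fun w hw => hγ ?_
      have h2 : s ((s w.1 * γ : H) : H ⧸ Γ) * 1 = s w.1 * γ := hw.2
      rw [mk_sec_lift2 hs] at h2
      exact Subtype.ext (mul_left_cancel h2).symm
  ext E hE
  rw [← key ρ E hE, h, key ρ' E hE]

/-- A set `F` that maps onto the quotient sees at least the mass downstairs. -/
theorem le_lift {s : H ⧸ Γ → H} (hΓ : Disc Γ) (hs : IsSec s) (ρ : Measure ((H ⧸ Γ) × Z))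
    {F : Set H} (hF : MeasurableSet F) (hF' : ∀ x : H ⧸ Γ, ∃ g ∈ F, (g : H ⧸ Γ) = x)
    {E : Set ((H ⧸ Γ) × Z)} (hE : MeasurableSet E) :
    ρ E ≤ lift s ρ {w | w.1 ∈ F ∧ ((w.1 : H ⧸ Γ), w.2) ∈ E} := by
  have := hΓ.countable
  have hm : MeasurableSet {w : H × Z | w.1 ∈ F ∧ ((w.1 : H ⧸ Γ), w.2) ∈ E} :=
    (measurable_fst hF).inter (meas_pi_lift2 hE)
  rw [lift_apply_lift2 hs ρ hm]
  refine le_trans (measure_mono fun w hw => ?_) (measure_iUnion_le _)
  obtain ⟨g, hg, e⟩ := hF' w.1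
  have h1 : (s w.1)⁻¹ * g ∈ Γ := QuotientGroup.eq.1 (by rw [hs.2, e])
  refine Set.mem_iUnion.2 ⟨⟨_, h1⟩, ?_⟩
  simp only [Set.mem_setOf_eq, mul_inv_cancel_left, e]
  exact ⟨hg, hw⟩

theorem lift_null {s : H ⧸ Γ → H} (hΓ : Disc Γ) (hs : IsSec s) (ρ : Measure ((H ⧸ Γ) × Z))
    {E : Set ((H ⧸ Γ) × Z)} (hE : ρ E = 0) : lift s ρ {w | ((w.1 : H ⧸ Γ), w.2) ∈ E} = 0 := by
  refine measure_mono_null (t := {w | ((w.1 : H ⧸ Γ), w.2) ∈ toMeasurable ρ E})
    (fun w hw => subset_toMeasurable ρ E hw) ?_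
  rw [lift_apply_lift2 hs ρ (E := {w | ((w.1 : H ⧸ Γ), w.2) ∈ toMeasurable ρ E})
    (meas_pi_lift2 (measurableSet_toMeasurable ρ E))]
  simp only [Set.mem_setOf_eq, mk_sec_lift2 hs, Prod.mk.eta, Set.setOf_mem_eq, measure_toMeasurable,
    hE, tsum_zero]

/-- Every right `Γ`-invariant measure is a lift. -/
theorem exists_lift_eq {s : H ⧸ Γ → H} (hΓ : Disc Γ) (hs : IsSec s) (ν : Measure (H × Z))
    (hν : ∀ γ ∈ Γ, ν.map (fun w => (w.1 * γ, w.2)) = ν) :
    ∃ ρ : Measure ((H ⧸ Γ) × Z), lift s ρ = ν := by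
  have := hΓ.countable
  refine ⟨(ν.restrict {w | s (w.1 : H ⧸ Γ) * 1 = w.1}).map fun w => ((w.1 : H ⧸ Γ), w.2), ?_⟩
  ext E hE
  have h1 : E = ⋃ γ : Γ, E ∩ {w | s (w.1 : H ⧸ Γ) * γ = w.1} := by
    rw [← Set.inter_iUnion]
    refine (Set.inter_eq_left.2 fun w _ => Set.mem_iUnion.2
      ⟨⟨(s (w.1 : H ⧸ Γ))⁻¹ * w.1, QuotientGroup.eq.1 (hs.2 _)⟩, ?_⟩).symm
    exact mul_inv_cancel_left _ _
  rw [lift_apply_lift2 hs _ hE]
  conv_rhs => rw [h1]
  rw [measure_iUnion ?_ fun γ : Γ => hE.inter (meas_R_lift2 hs γ)]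
  · refine tsum_congr fun γ => ?_
    have hm : MeasurableSet {w : (H ⧸ Γ) × Z | (s w.1 * γ, w.2) ∈ E} := meas_phi_lift2 hs γ hE
    have hT : Measurable fun w : H × Z => (w.1 * γ, w.2) :=
      (measurable_fst.mul_const _).prodMk measurable_snd
    rw [Measure.map_apply meas_pi_lift2 hm, Measure.restrict_apply (meas_pi_lift2 hm)]
    conv_rhs => rw [← hν γ γ.2]
    rw [Measure.map_apply hT (hE.inter (meas_R_lift2 hs γ))]
    congr 1
    ext w
    simp only [Set.mem_inter_iff, Set.mem_preimage, Set.mem_setOf_eq, mul_one,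
      QuotientGroup.mk_mul_of_mem _ γ.2, mul_left_inj]
    exact and_congr_left fun e => by rw [e]
  · intro γ γ' hne
    refine Set.disjoint_left.2 fun w h1 h2 => hne (Subtype.ext ?_)
    exact mul_left_cancel (h1.2.trans h2.2.symm)

omit [IsClosed (Γ : Set H)] in
/-- A measure on `H × Z` invariant under left translations of `H` is a product with Haar measure. -/
theorem prod_haar (μ : Measure H) [μ.IsHaarMeasure] (ν : Measure (H × Z))
    (hν : ∀ h : H, ν.map (fun w => (h * w.1, w.2)) = ν) (A : ℕ → Set Z)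
    (hA : ∀ n, MeasurableSet (A n)) (hA' : ⋃ n, A n = Set.univ)
    (hfin : ∀ n, ∀ C : Set H, IsCompact C → ν (C ×ˢ A n) < ∞) :
    ∃ τ : Measure Z, (∀ n, τ (A n) < ∞) ∧ ν = μ.prod τ := by
  obtain ⟨C, hC, hC1⟩ := exists_compact_mem_nhds (1 : H)
  have h0 : μ C ≠ 0 := (Measure.measure_pos_of_mem_nhds μ hC1).ne'
  have h1 : μ C ≠ ∞ := hC.measure_lt_top.ne
  set τ : Measure Z := (μ C)⁻¹ • (ν.restrict (C ×ˢ Set.univ)).map Prod.snd with hτ
  have hτE : ∀ E, MeasurableSet E → τ E = (μ C)⁻¹ * ν (C ×ˢ E) := fun E hE => by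
    rw [hτ, Measure.smul_apply, Measure.map_apply measurable_snd hE,
      Measure.restrict_apply (measurable_snd hE), smul_eq_mul]
    congr 2
    ext w
    simp [and_comm]
  have hf : ∀ n, τ (A n) < ∞ := fun n => by
    rw [hτE _ (hA n)]
    exact ENNReal.mul_lt_top (ENNReal.inv_lt_top.2 (pos_iff_ne_zero.2 h0)) (hfin n C hC)
  have key : ∀ n E, MeasurableSet E → E ⊆ A n → ∀ B, MeasurableSet B →
      ν (B ×ˢ E) = μ B * τ E := by
    intro n E hE hEA
    set m : Measure H := (ν.restrict (Set.univ ×ˢ E)).map Prod.fst with hm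
    have hmB : ∀ B, MeasurableSet B → m B = ν (B ×ˢ E) := fun B hB => by
      rw [hm, Measure.map_apply measurable_fst hB, Measure.restrict_apply (measurable_fst hB)]
      congr 1
      ext w
      simp
    have : IsFiniteMeasureOnCompacts m := ⟨fun K hK => by
      rw [hmB K hK.measurableSet]
      exact (measure_mono (Set.prod_mono_right hEA)).trans_lt (hfin n K hK)⟩
    have : m.IsMulLeftInvariant := ⟨fun h => by
      ext B hB
      have hT : Measurable fun w : H × Z => (h * w.1, w.2) :=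
        (measurable_fst.const_mul _).prodMk measurable_snd
      rw [Measure.map_apply (measurable_const_mul h) hB, hmB B hB,
        hmB _ (measurable_const_mul h hB)]
      conv_rhs => rw [← hν h]
      rw [Measure.map_apply hT (hB.prod hE)]
      rfl⟩
    have e := Measure.isMulLeftInvariant_eq_smul m μ
    intro B hB
    rw [hτE E hE, ← hmB B hB, ← hmB C hC.measurableSet, e]
    simp only [Measure.smul_apply, ENNReal.smul_def, smul_eq_mul]
    rw [mul_left_comm (μ C)⁻¹, ENNReal.inv_mul_cancel h0 h1, mul_one, mul_comm]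
  have : SigmaFinite τ := ⟨⟨⟨A, fun _ => trivial, hf, hA'⟩⟩⟩
  refine ⟨τ, hf, (Measure.prod_eq fun B E hB hE => ?_).symm⟩
  have hd : ∀ n, MeasurableSet (E ∩ disjointed A n) := fun n =>
    hE.inter (MeasurableSet.disjointed hA n)
  have hdis : Pairwise (Function.onFun Disjoint fun n => E ∩ disjointed A n) := fun i j hij =>
    (disjoint_disjointed A hij).mono Set.inter_subset_right Set.inter_subset_right
  have e : E = ⋃ n, E ∩ disjointed A n := by
    rw [← Set.inter_iUnion, iUnion_disjointed, hA', Set.inter_univ]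
  rw [e, Set.prod_iUnion, measure_iUnion hdis hd, measure_iUnion
    (fun i j hij => Set.Disjoint.set_prod_right (hdis hij) B B) fun n => hB.prod (hd n),
    ← ENNReal.tsum_mul_left]
  exact tsum_congr fun n => key n _ (hd n)
    (Set.inter_subset_right.trans (disjointed_subset A n)) B hB

end Pool.Agent.EQ
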