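import Pool.Agent.K.MP_ad7a55_nt.C0

-- part Pool.Agent.P.MP_ad7a55_nt.TDt
section

/-! Configurations and their weights. -/

set_option autoImplicit false

noncomputable section

open Finset Matrix

namespace Pool.Agent.EQ

/-- The data of a counting problem: a form `(a, b, c)`, a degree `n`, two conductors, a prime. -/
structure Dt where
  a : ℤ
  b : ℤ
  c : ℤ
  n : ℤ
  g₁ : ℕ
  g₂ : ℕ
  p : ℕ

namespace Dt

variable (d : Dt)

def E : ℤ := d.b ^ 2 - 4 * d.a * d.c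

def G : ℕ := d.g₁ * d.g₂

def m : ℤ := d.n * d.G

def F (x y : ℤ) : ℤ := d.a * x ^ 2 + d.b * x * y + d.c * y ^ 2

def x₁ (X Y : ℤ) : ℤ := d.b * Y + 2 * d.a * X

def x₂ (X Y : ℤ) : ℤ := 2 * d.c * Y + d.b * X

def Δ₁ (Y : ℤ) : ℤ := Y ^ 2 - 4 * (d.m * d.a)

def Δ₂ (X : ℤ) : ℤ := X ^ 2 - 4 * (d.m * d.c)

def B (X Y : ℤ) : ℤ := d.F X Y + d.m * d.E

structure Good (κ : ℕ) : Prop where
  a_pos : 0 < d.a
  E_neg : d.E < 0
  prim : Int.gcd (Int.gcd d.a d.b) d.c = 1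
  n_ne : d.n ≠ 0
  g₁_pos : 0 < d.g₁
  g₂_pos : 0 < d.g₂
  cop : d.g₁.Coprime d.g₂
  prime : d.p.Prime
  val : padicValNat d.p d.G ≤ κ

/-- A configuration with traces `Y` and `-X`. -/
structure Cf (X Y : ℤ) (Θ η₁ η₂ : M2) : Prop where
  th : IsTh d.E Θ
  r₁ : η₁ * Θ = d.b • η₁ - (2 * d.a) • η₂
  r₂ : η₂ * Θ = (2 * d.c) • η₁ - d.b • η₂
  det : ∀ x y : ℤ, (x • η₁ + y • η₂).det = d.m * d.F x y
  t₁ : η₁.trace = Y
  t₂ : η₂.trace = -X

/-- Transversality at the primes of the conductors. -/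
def TG (Θ η₁ η₂ : M2) : Prop :=
  ∀ l : ℕ, l.Prime → ∀ x y : ℤ, ¬ (l : ℤ) ∣ d.F x y →
    (l ∣ d.g₁ → ∃ v, Gn l Θ v ∧
      ∀ i, (l : ℤ) ^ padicValNat l d.g₁ ∣ ((x • η₁ + y • η₂).adjugate *ᵥ v) i) ∧
    (l ∣ d.g₂ → ∃ v, Gn l Θ v ∧ ∀ i, (l : ℤ) ^ padicValNat l d.g₂ ∣ ((x • η₁ + y • η₂) *ᵥ v) i)

/-- The set of configurations with an additional property. -/
def CS (X Y : ℤ) (R : M2 → M2 → M2 → Prop) : Set (M2 × M2) :=
  {P | ∃ η₂, d.Cf X Y P.1 P.2 η₂ ∧ d.TG P.1 P.2 η₂ ∧ R P.1 P.2 η₂}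

/-- Primes at which the conductors dominate. -/
def Dom (l : ℕ) : Prop :=
  l ≠ d.p ∧ (padicValInt l d.n + 3 ≤ padicValNat l d.G ∨ (¬ (l : ℤ) ∣ 2 * d.n ∧ l ∣ d.G))

def xe (l : ℕ) (X Y : ℤ) : ℤ := if (l : ℤ) ∣ d.a then d.x₂ X Y else d.x₁ X Y

def Δe (l : ℕ) (X Y : ℤ) : ℤ := if (l : ℤ) ∣ d.a then d.Δ₂ X else d.Δ₁ Y

def ie (l : ℕ) (X Y : ℤ) : ℕ :=
  padicValNat l (Int.gcd (Int.gcd (d.xe l X Y) (d.Δe l X Y)) d.E) / 2

/-- The general weight. -/
def W5 (l : ℕ) (X Y : ℤ) : ℝ := 16 * (l : ℝ) ^ d.ie l X Y *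
  (1 + if padicValInt l d.E ≤ 2 * d.ie l X Y + 3 then (padicValInt l (4 * d.B X Y) : ℝ) else 0)

open Classical in
/-- The weight at `l`. -/
def Wt (l : ℕ) (X Y : ℤ) : ℝ :=
  if d.Dom l then 1
  else if (l : ℤ) ∣ 2 * d.n * d.p then d.W5 l X Y
  else if ¬ (l : ℤ) ∣ d.E then
    (if jacobiSym d.E l = 1 then (padicValInt l (d.B X Y) : ℝ) + 1
      else if Even (padicValInt l (d.B X Y)) then 1 else 0)
  else if ¬ (l : ℤ) ∣ d.xe l X Y then 1
  else if ¬ (l : ℤ) ∣ d.Δe l X Y then 1 + jacobiSym (d.Δe l X Y) l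
  else d.W5 l X Y

/-- The primes that can carry a weight different from one. -/
def PP (X Y : ℤ) : Finset ℕ := (2 * d.n * d.p * d.B X Y).natAbs.primeFactors

/-- The total weight, modified at the primes of `S`. -/
def WS (S : Finset ℕ) (w : ℕ → ℤ → ℤ → ℝ) (X Y : ℤ) : ℝ :=
  (∏ l ∈ S, w l X Y) * ∏ l ∈ d.PP X Y \ S, d.Wt l X Y

/-- The total weight. -/
def WW (X Y : ℤ) : ℝ := ∏ l ∈ d.PP X Y, d.Wt l X Y

/-- The congruences forced by a level structure. -/
def LevC (q : ℕ) (b₀ X Y : ℤ) : Prop :=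
  (q : ℤ) ∣ 4 * d.B X Y ∧ (∃ u, (q : ℤ) ∣ u ^ 2 - d.Δ₁ Y ∧ (q : ℤ) ∣ d.x₁ X Y - b₀ * u) ∧
    ∃ u, (q : ℤ) ∣ u ^ 2 - d.Δ₂ X ∧ (q : ℤ) ∣ d.x₂ X Y - b₀ * u

/-- The level at the primes that divide `E`, `a` and `Y`. -/
def mu (l : ℕ) (X Y : ℤ) : ℕ :=
  2 * d.ie l X Y + if (l : ℤ) ∣ d.E ∧ (l : ℤ) ∣ d.a ∧ (l : ℤ) ∣ Y then 1 else 0

variable {d}

theorem key₁ (X Y : ℤ) : d.x₁ X Y ^ 2 - d.E * d.Δ₁ Y = 4 * d.a * d.B X Y := by
  simp only [x₁, E, Δ₁, B, F]; ring

theorem key₂ (X Y : ℤ) : d.x₂ X Y ^ 2 - d.E * d.Δ₂ X = 4 * d.c * d.B X Y := by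
  simp only [x₂, E, Δ₂, B, F]; ring

theorem B_eq (X Y : ℤ) :
    d.B X Y = d.a * X ^ 2 + d.b * Y * X + (d.c * Y ^ 2 + d.m * d.E) := by
  simp only [B, F]; ring

theorem disc_B (Y : ℤ) :
    (d.b * Y) ^ 2 - 4 * d.a * (d.c * Y ^ 2 + d.m * d.E) = d.E * d.Δ₁ Y := by
  simp only [E, Δ₁]; ring

theorem tdt_jac (a : ℤ) (b : ℕ) : (-1 : ℝ) ≤ jacobiSym a b ∧ (jacobiSym a b : ℝ) ≤ 1 := by
  rcases jacobiSym.trichotomy a b with h | h | h <;> rw [h] <;> norm_num

theorem tdt_W5_nonneg (l : ℕ) (X Y : ℤ) : 0 ≤ d.W5 l X Y := by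
  unfold W5
  split_ifs <;> positivity

theorem tdt_W5 {l : ℕ} (hl : l.Prime) (X Y : ℤ) : 16 ≤ d.W5 l X Y ∧
    (padicValInt l d.E = 0 → 1 + (padicValInt l (4 * d.B X Y) : ℝ) ≤ d.W5 l X Y) := by
  have h1 : (1 : ℝ) ≤ (l : ℝ) ^ d.ie l X Y := one_le_pow₀ (by exact_mod_cast hl.one_le)
  have h2 : (0 : ℝ) ≤ padicValInt l (4 * d.B X Y) := by positivity
  unfold W5
  constructor
  · split_ifs <;> nlinarith
  · intro h0
    rw [if_pos (by omega)]
    nlinarith

theorem tdt_m_ne {κ : ℕ} (h : d.Good κ) : d.G ≠ 0 ∧ d.m ≠ 0 := by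
  have hG : d.G ≠ 0 := (mul_pos h.g₁_pos h.g₂_pos).ne'
  exact ⟨hG, mul_ne_zero h.n_ne (by exact_mod_cast hG)⟩

theorem tdt_not_dvd_c {κ : ℕ} (h : d.Good κ) {l : ℕ} (hl : l.Prime) (ha : (l : ℤ) ∣ d.a)
    (hE : (l : ℤ) ∣ d.E) : (l : ℤ) ∣ d.b ∧ ¬ (l : ℤ) ∣ d.c := by
  have hp := Nat.prime_iff_prime_int.1 hl
  have hb : (l : ℤ) ∣ d.b := by
    refine hp.dvd_of_dvd_pow (n := 2) ?_
    have : d.b ^ 2 = d.E + d.a * (4 * d.c) := by simp only [E]; ring
    rw [this]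
    exact hE.add (ha.mul_right _)
  refine ⟨hb, fun hc => hp.not_dvd_one ?_⟩
  have := Int.dvd_coe_gcd (Int.dvd_coe_gcd ha hb) hc
  rwa [h.prim] at this

/-- both key identities in one form -/
theorem tdt_key {κ : ℕ} (h : d.Good κ) {l : ℕ} (hl : l.Prime) (hE : (l : ℤ) ∣ d.E) (X Y : ℤ) :
    ∃ e : ℤ, ¬ (l : ℤ) ∣ e ∧ d.xe l X Y ^ 2 - d.E * d.Δe l X Y = e * (4 * d.B X Y) := by
  unfold xe Δe
  split_ifs with ha
  · exact ⟨d.c, (tdt_not_dvd_c h hl ha hE).2, by rw [key₂]; ring⟩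
  · exact ⟨d.a, ha, by rw [key₁]; ring⟩

theorem one_le_W5 {l : ℕ} (hl : l.Prime) (X Y : ℤ) : 1 ≤ d.W5 l X Y := by
  linarith [(tdt_W5 (d := d) hl X Y).1]

theorem Wt_nonneg (l : ℕ) (X Y : ℤ) : 0 ≤ d.Wt l X Y := by
  have h1 := tdt_W5_nonneg (d := d) l X Y
  have h2 := (tdt_jac (d.Δe l X Y) l).1
  unfold Wt
  split_ifs <;> first | positivity | linarith

theorem Wt_le {κ : ℕ} (h : d.Good κ) {l : ℕ} (hl : l.Prime) {X Y : ℤ} (hB : d.B X Y ≠ 0) :
    d.Wt l X Y ≤ d.W5 l X Y := by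
  haveI := Fact.mk hl
  obtain ⟨h1, h2⟩ := tdt_W5 (d := d) hl X Y
  have h3 := (tdt_jac (d.Δe l X Y) l).2
  have h4 : (padicValInt l (d.B X Y) : ℝ) ≤ padicValInt l (4 * d.B X Y) := by
    rw [padicValInt.mul (by norm_num) hB]
    exact_mod_cast Nat.le_add_left _ _
  unfold Wt
  by_cases hE : (l : ℤ) ∣ d.E
  · rw [if_neg (not_not.2 hE)]
    split_ifs <;> linarith
  · have h5 := h2 (padicValInt.eq_zero_of_not_dvd hE)
    rw [if_pos hE]
    split_ifs <;> linarith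

theorem Wt_eq_one {κ : ℕ} (h : d.Good κ) {l : ℕ} (hl : l.Prime) {X Y : ℤ} (hB : d.B X Y ≠ 0)
    (hP : l ∉ d.PP X Y) : d.Wt l X Y = 1 := by
  have hp := Nat.prime_iff_prime_int.1 hl
  have hne : 2 * d.n * d.p * d.B X Y ≠ 0 :=
    mul_ne_zero (mul_ne_zero (mul_ne_zero two_ne_zero h.n_ne)
      (by exact_mod_cast h.prime.ne_zero)) hB
  have hnd : ¬ (l : ℤ) ∣ 2 * d.n * d.p * d.B X Y := fun hd =>
    hP (Nat.mem_primeFactors.2 ⟨hl, Int.natCast_dvd.1 hd, Int.natAbs_ne_zero.2 hne⟩)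
  have h1 : ¬ (l : ℤ) ∣ 2 * d.n * d.p := fun hd => hnd (hd.mul_right _)
  have h2 : ¬ (l : ℤ) ∣ d.B X Y := fun hd => hnd (hd.mul_left _)
  have h3 : ¬ (l : ℤ) ∣ 2 := fun hd => h1 ((hd.mul_right _).mul_right _)
  unfold Wt
  by_cases hD : d.Dom l
  · rw [if_pos hD]
  rw [if_neg hD, if_neg h1]
  by_cases hE : (l : ℤ) ∣ d.E
  · rw [if_neg (not_not.2 hE), if_pos]
    intro hx
    obtain ⟨e, he, hk⟩ := tdt_key h hl hE X Y
    have h4 : (l : ℤ) ∣ e * (2 * 2 * d.B X Y) := by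
      rw [show (2 * 2 : ℤ) = 4 by norm_num, ← hk]
      exact (dvd_pow hx two_ne_zero).sub (hE.mul_right _)
    rcases hp.dvd_or_dvd h4 with h5 | h5
    · exact he h5
    rcases hp.dvd_or_dvd h5 with h5 | h5
    · exact h3 ((hp.dvd_or_dvd h5).elim id id)
    · exact h2 h5
  · rw [if_pos hE, padicValInt.eq_zero_of_not_dvd h2]
    simp

theorem not_dvd_c {κ : ℕ} (h : d.Good κ) {l : ℕ} (hl : l.Prime) (ha : (l : ℤ) ∣ d.a)
    (hE : (l : ℤ) ∣ d.E) : (l : ℤ) ∣ d.b ∧ ¬ (l : ℤ) ∣ d.c := by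
  exact tdt_not_dvd_c h hl ha hE

theorem ie_spec {κ : ℕ} (h : d.Good κ) {l : ℕ} (hl : l.Prime) (X Y : ℤ) :
    (l : ℤ) ^ (2 * d.ie l X Y) ∣ d.xe l X Y ∧ (l : ℤ) ^ (2 * d.ie l X Y) ∣ d.Δe l X Y ∧
      (l : ℤ) ^ (2 * d.ie l X Y) ∣ d.E ∧ (l : ℤ) ^ (4 * d.ie l X Y) ∣ 4 * d.B X Y := by
  have hp := Nat.prime_iff_prime_int.1 hl
  have h0 : (l : ℤ) ^ (2 * d.ie l X Y) ∣
      (Int.gcd (Int.gcd (d.xe l X Y) (d.Δe l X Y)) d.E : ℤ) := by
    have h1 : l ^ (2 * d.ie l X Y) ∣ Int.gcd (Int.gcd (d.xe l X Y) (d.Δe l X Y)) d.E :=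
      (pow_dvd_pow l (Nat.mul_div_le _ 2)).trans pow_padicValNat_dvd
    exact_mod_cast h1
  have h1 := h0.trans (Int.gcd_dvd_left _ _)
  have hx := h1.trans (Int.gcd_dvd_left _ _)
  have hΔ := h1.trans (Int.gcd_dvd_right _ _)
  have hE := h0.trans (Int.gcd_dvd_right _ _)
  refine ⟨hx, hΔ, hE, ?_⟩
  rcases Nat.eq_zero_or_pos (d.ie l X Y) with hi | hi
  · simp [hi]
  obtain ⟨e, he, hk⟩ := tdt_key h hl ((dvd_pow_self _ (by omega)).trans hE) X Y
  refine hp.pow_dvd_of_dvd_mul_left _ he ?_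
  rw [← hk, show 4 * d.ie l X Y = 2 * d.ie l X Y + 2 * d.ie l X Y by ring, pow_add, sq]
  exact (mul_dvd_mul hx hx).sub (mul_dvd_mul hE hΔ)

/-- The content of `B` as a polynomial in `X`. -/
theorem content {κ : ℕ} (h : d.Good κ) {l : ℕ} (hl : l.Prime) (Y : ℤ) {s : ℕ}
    (hs : s = padicValInt l d.m + padicValInt l d.E) :
    ¬ ((l : ℤ) ^ (s + 1) ∣ d.a ∧ (l : ℤ) ^ (s + 1) ∣ d.b * Y ∧
      (l : ℤ) ^ (s + 1) ∣ d.c * Y ^ 2 + d.m * d.E) := by
  haveI := Fact.mk hl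
  rintro ⟨ha, hb, hc⟩
  have hm := (tdt_m_ne h).2
  have hE := h.E_neg.ne
  have h1 : ¬ (l : ℤ) ^ (s + 1) ∣ d.m * d.E := by
    rw [padicValInt_dvd_iff, padicValInt.mul hm hE]
    rintro (h0 | h0)
    · exact mul_ne_zero hm hE h0
    · omega
  have h2 : ¬ (l : ℤ) ^ (s + 1) ∣ d.b * d.b := fun hd => h1 (Dvd.dvd.mul_left (by
    have : d.E = d.b * d.b - d.a * (4 * d.c) := by simp only [E]; ring
    rw [this]
    exact hd.sub (ha.mul_right _)) _)
  have h3 : ¬ (l : ℤ) ^ (s + 1) ∣ Y * Y := fun hd =>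
    h1 ((dvd_add_right (by rw [sq]; exact hd.mul_left _)).1 hc)
  have hb0 : d.b ≠ 0 := fun h0 => h2 (by simp [h0])
  have hY0 : Y ≠ 0 := fun h0 => h3 (by simp [h0])
  rw [padicValInt_dvd_iff, padicValInt.mul hb0 hb0, not_or] at h2
  rw [padicValInt_dvd_iff, padicValInt.mul hY0 hY0, not_or] at h3
  rw [padicValInt_dvd_iff, padicValInt.mul hb0 hY0] at hb
  rcases hb with h0 | h0
  · exact mul_ne_zero hb0 hY0 h0
  · omega

/-- Off the dominated primes the order of `m` is bounded. -/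
theorem val_m {κ : ℕ} (h : d.Good κ) {l : ℕ} (hl : l.Prime) (hD : ¬ d.Dom l) :
    padicValInt l d.m ≤ 2 * d.n.natAbs + κ + 2 ∧
      (¬ (l : ℤ) ∣ 2 * d.n * d.p → ¬ (l : ℤ) ∣ d.m) := by
  haveI := Fact.mk hl
  have hp := Nat.prime_iff_prime_int.1 hl
  have hG := (tdt_m_ne h).1
  have hv : padicValInt l d.m = padicValInt l d.n + padicValNat l d.G := by
    rw [m, padicValInt.mul h.n_ne (by exact_mod_cast hG), padicValInt.of_nat]
  have hn : padicValInt l d.n ≤ d.n.natAbs :=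
    ((Nat.lt_pow_self hl.one_lt).trans_le
      (Nat.le_of_dvd (Int.natAbs_pos.2 h.n_ne) pow_padicValNat_dvd)).le
  rw [Dom, not_and_or, not_not, not_or, not_and_or, not_not] at hD
  constructor
  · rcases hD with hD | hD
    · have := h.val
      rw [← hD] at this
      omega
    · omega
  · intro h1 hm
    rcases hD with hD | ⟨-, hD | hD⟩
    · exact h1 (hD ▸ dvd_mul_left _ _)
    · exact h1 (hD.mul_right _)
    · rcases hp.dvd_or_dvd hm with h2 | h2
      · exact h1 ((h2.mul_left _).mul_right _)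
      · exact hD (by exact_mod_cast h2)

end Dt

/-- A common eigenvector modulo `q`. -/
def Lvl (q : ℕ) (b₀ : ℤ) (Θ η₁ η₂ : M2) : Prop :=
  ∃ (v : Fin 2 → ℤ) (r s l₁ l₂ : ℤ), (q : ℤ) ∣ r * v 0 + s * v 1 - 1 ∧
    (∀ i, (2 * q : ℤ) ∣ (Θ *ᵥ v) i - b₀ * v i) ∧ (∀ i, (q : ℤ) ∣ (η₁ *ᵥ v) i - l₁ * v i) ∧
    ∀ i, (q : ℤ) ∣ (η₂ *ᵥ v) i - l₂ * v i

end Pool.Agent.EQ
end
end

-- part Pool.Agent.P.MP_ad7a55_nt.THt
section

/-! Mean values of submultiplicative functions. -/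

set_option autoImplicit false

noncomputable section

open Finset

namespace Pool.Agent.EQ

/-- The hypotheses of the mean value bound. -/
structure HT (K : ℝ) (a : ℕ → ℝ) (f : ℕ → ℝ) : Prop where
  nonneg : ∀ n, 0 ≤ f n
  one : f 1 ≤ 1
  mul : ∀ m n : ℕ, m.Coprime n → f (m * n) ≤ f m * f n
  prime : ∀ l : ℕ, l.Prime → f l ≤ 2
  sq : ∀ l : ℕ, l.Prime → f l + f (l ^ 2) / l ≤ 1 + a l + K / l
  pow : ∀ l k : ℕ, l.Prime → f (l ^ k) ≤ K * (k + 1) * Real.sqrt (l ^ k)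

theorem tht_K {K : ℝ} {a f : ℕ → ℝ} (h : HT K a f) : 0 ≤ K := by
  have h1 := h.pow 2 0 Nat.prime_two
  have h2 := h.nonneg (2 ^ 0)
  simp at h1 h2
  linarith

theorem tht_geo : ∃ c : ℝ, 0 < c ∧ ∀ I : ℕ,
    ∑ k ∈ range I, ((k : ℝ) + 4) ^ 2 * (7 / 8 : ℝ) ^ k ≤ c := by
  have h1 : Summable (fun n : ℕ => (n : ℝ) ^ 2 * (7 / 8 : ℝ) ^ n) :=
    summable_pow_mul_geometric_of_norm_lt_one 2 (by rw [Real.norm_eq_abs, abs_lt]; norm_num)
  have h2 := ((summable_nat_add_iff 4).2 h1).mul_left (((7 / 8 : ℝ) ^ 4)⁻¹)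
  have h3 : Summable (fun k : ℕ => ((k : ℝ) + 4) ^ 2 * (7 / 8 : ℝ) ^ k) := by
    refine h2.congr fun k => ?_
    rw [pow_add]
    push_cast
    field_simp
  refine ⟨∑' k : ℕ, ((k : ℝ) + 4) ^ 2 * (7 / 8 : ℝ) ^ k + 1, ?_, fun I => ?_⟩
  · have : 0 ≤ ∑' k : ℕ, ((k : ℝ) + 4) ^ 2 * (7 / 8 : ℝ) ^ k :=
      tsum_nonneg fun k => by positivity
    linarith
  · have := h3.sum_le_tsum (range I) (fun k _ => by positivity)
    linarith

theorem tht_r {l : ℕ} (hl : l.Prime) : (Real.sqrt l)⁻¹ ≤ (7 / 8 : ℝ) ^ 2 := by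
  have h2 : (2 : ℝ) ≤ l := by exact_mod_cast hl.two_le
  have h3 : (64 / 49 : ℝ) ≤ Real.sqrt l := by
    apply Real.le_sqrt_of_sq_le
    linarith [show (64 / 49 : ℝ) ^ 2 ≤ 2 by norm_num]
  calc (Real.sqrt l)⁻¹ ≤ (64 / 49 : ℝ)⁻¹ := inv_anti₀ (by norm_num) h3
    _ = _ := by norm_num

theorem tht_rpow {l : ℕ} (hl : l.Prime) (k : ℕ) :
    (Real.sqrt l)⁻¹ ^ k ≤ (7 / 8 : ℝ) ^ k * (7 / 8 : ℝ) ^ k := by
  rw [← mul_pow, ← sq]
  exact pow_le_pow_left₀ (by positivity) (tht_r hl) k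

theorem tht_rpow' {l : ℕ} (hl : l.Prime) (k : ℕ) :
    (Real.sqrt l)⁻¹ ^ k ≤ (7 / 8 : ℝ) ^ k := by
  refine (tht_rpow hl k).trans ?_
  exact mul_le_of_le_one_right (by positivity) (pow_le_one₀ (by norm_num) (by norm_num))

theorem tht_pow {K : ℝ} {a f : ℕ → ℝ} (h : HT K a f) {l : ℕ} (hl : l.Prime) (k : ℕ) :
    f (l ^ k) ≤ K * (k + 1) * ((l : ℝ) ^ k * (Real.sqrt l)⁻¹ ^ k) := by
  have h0 : (0 : ℝ) < l := by exact_mod_cast hl.pos
  have hs : 0 < Real.sqrt l := Real.sqrt_pos.2 h0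
  have h1 : Real.sqrt ((l : ℝ) ^ k) = (l : ℝ) ^ k * (Real.sqrt l)⁻¹ ^ k := by
    have h2 : (l : ℝ) * (Real.sqrt l)⁻¹ = Real.sqrt l := by
      rw [mul_inv_eq_iff_eq_mul₀ hs.ne', Real.mul_self_sqrt h0.le]
    rw [← mul_pow, h2, Real.sqrt_eq_iff_mul_self_eq (by positivity) (by positivity), ← mul_pow,
      Real.mul_self_sqrt h0.le]
  rw [← h1]
  exact h.pow l k hl

theorem tht_w (N : ℕ) :
    ∑ l ∈ Nat.primesLE N, Real.log l * (Real.sqrt l)⁻¹ ^ 3 ≤ 20 := by
  have h1 := Pool.Agent.Lib.Sieve.sum_rpow_le (κ := 1 / 4) (by norm_num) N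
  have h2 : ∑ l ∈ Nat.primesLE N, Real.log l * (Real.sqrt l)⁻¹ ^ 3 ≤
      ∑ l ∈ Nat.primesLE N, 4 * (l : ℝ) ^ (-(1 + 1 / 4 : ℝ)) := by
    refine sum_le_sum fun l hl => ?_
    have h0 : (0 : ℝ) < l := by exact_mod_cast (Nat.prime_of_mem_primesLE hl).pos
    have h3 := Real.log_le_rpow_div h0.le (show (0 : ℝ) < 1 / 4 by norm_num)
    have h4 : (Real.sqrt l)⁻¹ ^ 3 = (l : ℝ) ^ (-(3 / 2 : ℝ)) := by
      rw [Real.sqrt_eq_rpow, ← Real.rpow_neg h0.le, ← Real.rpow_natCast, ← Real.rpow_mul h0.le]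
      norm_num
    have h5 : (l : ℝ) ^ (-(1 + 1 / 4 : ℝ)) = (l : ℝ) ^ (1 / 4 : ℝ) * (l : ℝ) ^ (-(3 / 2 : ℝ)) := by
      rw [← Real.rpow_add h0]
      norm_num
    rw [h4, h5]
    have h6 : 0 ≤ (l : ℝ) ^ (-(3 / 2 : ℝ)) := by positivity
    calc _ ≤ ((l : ℝ) ^ (1 / 4 : ℝ) / (1 / 4)) * (l : ℝ) ^ (-(3 / 2 : ℝ)) :=
          mul_le_mul_of_nonneg_right h3 h6
      _ = _ := by ring
  have h3 : ∑ l ∈ Nat.primesLE N, (l : ℝ) ^ (-(1 + 1 / 4 : ℝ)) ≤
      ∑ l ∈ Ioc 0 N, (l : ℝ) ^ (-(1 + 1 / 4 : ℝ)) := by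
    rw [Nat.primesLE_eq_filter_Ioc_zero]
    exact sum_le_sum_of_subset_of_nonneg (filter_subset _ _) fun _ _ _ => by positivity
  rw [← mul_sum] at h2
  linarith

theorem tht_w' (N : ℕ) : ∑ l ∈ Nat.primesLE N, (Real.sqrt l)⁻¹ ^ 3 ≤ 40 := by
  have h1 := tht_w N
  have h2 : ∑ l ∈ Nat.primesLE N, (Real.sqrt l)⁻¹ ^ 3 ≤
      ∑ l ∈ Nat.primesLE N, 2 * (Real.log l * (Real.sqrt l)⁻¹ ^ 3) := by
    refine sum_le_sum fun l hl => ?_
    have h3 := Pool.Agent.Lib.Sieve.one_half_le_log (Nat.two_le_of_mem_primesLE hl)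
    have h4 : 0 ≤ (Real.sqrt l)⁻¹ ^ 3 := by positivity
    nlinarith
  rw [← mul_sum] at h2
  linarith

/-- Splitting off the power of a prime. -/
theorem tht_fib {f : ℕ → ℝ} (f0 : ∀ n, 0 ≤ f n)
    (fm : ∀ m n : ℕ, m.Coprime n → f (m * n) ≤ f m * f n) {l : ℕ} (hl : l.Prime) (k N : ℕ) :
    ∑ n ∈ (Icc 1 N).filter (fun n => n.factorization l = k), f n ≤
      f (l ^ k) * ∑ m ∈ Icc 1 (N / l ^ k), f m := by
  set S := (Icc 1 N).filter (fun n => n.factorization l = k) with hS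
  have hdec : ∀ n ∈ S, l ^ k * (n / l ^ k) = n := by
    intro n hn
    have h1 := (mem_filter.1 hn).2
    rw [← h1]
    exact Nat.ordProj_mul_ordCompl_eq_self n l
  have hinj : Set.InjOn (fun n => n / l ^ k) S := by
    intro x hx y hy hxy
    simp only at hxy
    rw [← hdec x hx, ← hdec y hy, hxy]
  calc ∑ n ∈ S, f n ≤ ∑ n ∈ S, f (l ^ k) * f (n / l ^ k) := by
        refine sum_le_sum fun n hn => ?_
        have h1 := (mem_filter.1 hn).2
        have h2 : n ≠ 0 := by have := (mem_Icc.1 (mem_filter.1 hn).1).1; omega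
        have h3 : (l ^ k).Coprime (n / l ^ k) := by
          have := Nat.coprime_ordCompl hl h2
          rw [h1] at this
          exact Nat.Coprime.pow_left k this
        have h4 := fm _ _ h3
        rwa [hdec n hn] at h4
    _ = f (l ^ k) * ∑ m ∈ S.image (fun n => n / l ^ k), f m := by
        rw [sum_image hinj, mul_sum]
    _ ≤ _ := by
        refine mul_le_mul_of_nonneg_left
          (sum_le_sum_of_subset_of_nonneg ?_ fun _ _ _ => f0 _) (f0 _)
        intro m hm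
        obtain ⟨n, hn, rfl⟩ := mem_image.1 hm
        have h1 := mem_Icc.1 (mem_filter.1 hn).1
        refine mem_Icc.2 ⟨?_, Nat.div_le_div_right h1.2⟩
        have h2 := hdec n hn
        rcases Nat.eq_zero_or_pos (n / l ^ k) with h | h
        · rw [h] at h2; omega
        · exact h

/-- Euler product majorant. -/
theorem tht_euler (g : ℕ → ℝ) (g0 : ∀ n, 0 ≤ g n) (g1 : g 1 ≤ 1)
    (gm : ∀ m n : ℕ, m.Coprime n → g (m * n) ≤ g m * g n) (T : ℕ → ℝ) (P : Finset ℕ)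
    (hP : ∀ p ∈ P, p.Prime) (hT : ∀ p ∈ P, ∀ I, ∑ k ∈ range I, g (p ^ k) ≤ T p)
    (S : Finset ℕ) (hS : ∀ n ∈ S, n ≠ 0 ∧ n.primeFactors ⊆ P) :
    ∑ n ∈ S, g n ≤ ∏ p ∈ P, T p := by
  classical
  induction P using Finset.induction_on generalizing S with
  | empty =>
    have : S ⊆ {1} := by
      intro v hv
      have h1 := hS v hv
      have h2 := Nat.primeFactors_eq_empty.1 (subset_empty.1 h1.2)
      simp only [mem_singleton]
      omega
    calc ∑ v ∈ S, g v ≤ ∑ v ∈ ({1} : Finset ℕ), g v :=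
          sum_le_sum_of_subset_of_nonneg this fun _ _ _ => g0 _
      _ ≤ _ := by simpa using g1
  | insert q G hq ih =>
    have hqp : q.Prime := hP q (mem_insert_self _ _)
    let i : ℕ → ℕ := fun n => n.factorization q
    let w : ℕ → ℕ := fun n => n / q ^ n.factorization q
    have hiw : ∀ v, q ^ i v * w v = v := fun v => Nat.ordProj_mul_ordCompl_eq_self v q
    let φ : ℕ → ℕ × ℕ := fun v => (i v, w v)
    have hφ : Set.InjOn φ S := by
      intro x _ y _ hxy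
      simp only [φ, Prod.mk.injEq] at hxy
      rw [← hiw x, ← hiw y, hxy.1, hxy.2]
    let F : ℕ × ℕ → ℝ := fun x => g (q ^ x.1) * g x.2
    have hF0 : ∀ x, 0 ≤ F x := fun x => mul_nonneg (g0 _) (g0 _)
    have hsub : S.image φ ⊆ range (S.sup i + 1) ×ˢ S.image w := by
      intro x hx
      obtain ⟨v, hv, rfl⟩ := mem_image.1 hx
      simp only [φ, mem_product, mem_range]
      exact ⟨Nat.lt_succ_of_le (le_sup (f := i) hv), mem_image_of_mem _ hv⟩
    have hT0 : 0 ≤ T q := by simpa using hT q (mem_insert_self _ _) 0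
    calc ∑ v ∈ S, g v ≤ ∑ v ∈ S, F (φ v) := by
          refine sum_le_sum fun v hv => ?_
          have h3 : (q ^ i v).Coprime (w v) :=
            Nat.Coprime.pow_left _ (Nat.coprime_ordCompl hqp (hS v hv).1)
          have h4 := gm _ _ h3
          rwa [hiw v] at h4
      _ = ∑ x ∈ S.image φ, F x := (sum_image hφ).symm
      _ ≤ ∑ x ∈ range (S.sup i + 1) ×ˢ S.image w, F x :=
          sum_le_sum_of_subset_of_nonneg hsub fun _ _ _ => hF0 _
      _ = (∑ k ∈ range (S.sup i + 1), g (q ^ k)) * ∑ v ∈ S.image w, g v := by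
          rw [sum_mul_sum, sum_product]
      _ ≤ T q * ∏ r ∈ G, T r := by
          apply mul_le_mul (hT q (mem_insert_self _ _) _)
            (ih (fun r hr => hP r (mem_insert_of_mem hr))
              (fun r hr => hT r (mem_insert_of_mem hr)) _ ?_)
            (sum_nonneg fun _ _ => g0 _) hT0
          intro v hv
          obtain ⟨u, hu, rfl⟩ := mem_image.1 hv
          have hu0 := (hS u hu).1
          have hw0 : w u ≠ 0 := by
            intro h0
            have := hiw u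
            rw [h0] at this
            omega
          refine ⟨hw0, fun r hr => ?_⟩
          have hr1 : r.Prime := Nat.prime_of_mem_primeFactors hr
          have hr2 : r ∣ w u := Nat.dvd_of_mem_primeFactors hr
          have hr3 : r ∈ insert q G := (hS u hu).2 (Nat.mem_primeFactors.2
            ⟨hr1, hr2.trans (Nat.ordCompl_dvd u q), hu0⟩)
          rcases mem_insert.1 hr3 with h | h
          · subst h
            exact absurd hr2 (Nat.not_dvd_ordCompl hqp hu0)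
          · exact h
      _ = _ := by rw [prod_insert hq]

theorem tht_three (t : ℕ → ℝ) (t0 : ∀ k, 0 ≤ t k) (I : ℕ) :
    ∑ k ∈ range I, t k ≤ t 0 + t 1 + t 2 + ∑ j ∈ range I, t (j + 3) := by
  calc ∑ k ∈ range I, t k ≤ ∑ k ∈ range (I + 1 + 1 + 1), t k :=
        sum_le_sum_of_subset_of_nonneg (range_subset_range.2 (by omega)) fun _ _ _ => t0 _
    _ = _ := by
        rw [sum_range_succ', sum_range_succ', sum_range_succ']
        ring

/-- The logarithmic mean value. -/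
theorem tht_log (K : ℝ) : ∃ C : ℝ, 0 < C ∧ ∀ a f : ℕ → ℝ, HT K a f → ∀ N : ℕ, 2 ≤ N →
    ∑ n ∈ Icc 1 N, f n / n ≤
      C * Real.log N * Real.exp (∑ l ∈ Nat.primesLE N, a l / l) := by
  obtain ⟨c, hc0, hc⟩ := tht_geo
  refine ⟨Real.exp (7 + K + K * c * 40), Real.exp_pos _, fun a f h N hN => ?_⟩
  have hK := tht_K h
  have hP : ∀ p ∈ Nat.primesLE N, p.Prime := fun p hp => Nat.prime_of_mem_primesLE hp
  have h1 := tht_euler (fun n => f n / n) (fun n => div_nonneg (h.nonneg n) (by positivity))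
    (by simpa using h.one)
    (fun m n hmn => by
      have := h.mul m n hmn
      push_cast
      rw [div_mul_div_comm]
      exact div_le_div_of_nonneg_right this (by positivity))
    (fun l => Real.exp (1 / l + a l / l + K * (1 / l) ^ 2 + K * c * (Real.sqrt l)⁻¹ ^ 3))
    (Nat.primesLE N) hP
    (fun l hl I => by
      have hlp := hP l hl
      have h0 : (0 : ℝ) < l := by exact_mod_cast hlp.pos
      refine (tht_three (fun k => f (l ^ k) / ((l ^ k : ℕ) : ℝ))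
        (fun k => div_nonneg (h.nonneg _) (by positivity)) I).trans ?_
      refine le_trans ?_ (Real.add_one_le_exp _)
      have h2 : ∑ j ∈ range I, f (l ^ (j + 3)) / ((l ^ (j + 3) : ℕ) : ℝ) ≤
          K * c * (Real.sqrt l)⁻¹ ^ 3 := by
        calc _ ≤ ∑ j ∈ range I, K * (Real.sqrt l)⁻¹ ^ 3 * (((j : ℝ) + 4) ^ 2 * (7 / 8 : ℝ) ^ j) := by
              refine sum_le_sum fun j _ => ?_
              have h3 := tht_pow h hlp (j + 3)
              have h4 := tht_rpow' hlp j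
              have h5 : (0 : ℝ) ≤ j := by positivity
              push_cast at h3 ⊢
              rw [div_le_iff₀ (by positivity)]
              refine h3.trans ?_
              have h6 : ((j : ℝ) + 3 + 1) * (Real.sqrt l)⁻¹ ^ j ≤ ((j : ℝ) + 4) ^ 2 * (7 / 8 : ℝ) ^ j :=
                mul_le_mul (by nlinarith) h4 (by positivity) (by positivity)
              calc K * ((j : ℝ) + 3 + 1) * ((l : ℝ) ^ (j + 3) * (Real.sqrt l)⁻¹ ^ (j + 3))
                  = K * (Real.sqrt l)⁻¹ ^ 3 * (((j : ℝ) + 3 + 1) * (Real.sqrt l)⁻¹ ^ j) *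
                    (l : ℝ) ^ (j + 3) := by ring
                _ ≤ _ := by gcongr
          _ = K * (Real.sqrt l)⁻¹ ^ 3 * ∑ j ∈ range I, (((j : ℝ) + 4) ^ 2 * (7 / 8 : ℝ) ^ j) := by
              rw [mul_sum]
          _ ≤ K * (Real.sqrt l)⁻¹ ^ 3 * c := mul_le_mul_of_nonneg_left (hc I) (by positivity)
          _ = _ := by ring
      have h3 := h.sq l hlp
      have h4 : f l / l + f (l ^ 2) / (l : ℝ) ^ 2 ≤ 1 / l + a l / l + K * (1 / l) ^ 2 := by
        calc f l / l + f (l ^ 2) / (l : ℝ) ^ 2 = (f l + f (l ^ 2) / l) / l := by field_simp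
          _ ≤ (1 + a l + K / l) / l := div_le_div_of_nonneg_right h3 h0.le
          _ = _ := by field_simp
      have h5 := h.one
      simp only [pow_zero, pow_one, Nat.cast_one, div_one, Nat.cast_pow] at h2 ⊢
      linarith)
    (Icc 1 N) (fun n hn => by
      have h2 := mem_Icc.1 hn
      refine ⟨by omega, fun p hp => Nat.mem_primesLE.2 ⟨?_, Nat.prime_of_mem_primeFactors hp⟩⟩
      exact (Nat.le_of_mem_primeFactors hp).trans h2.2)
  refine h1.trans ?_
  rw [← Real.exp_sum, sum_add_distrib, sum_add_distrib, sum_add_distrib, ← mul_sum, ← mul_sum]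
  have h2 := Pool.Agent.Lib.Sieve.sum_inv_primes_le hN
  have h3 := Pool.Agent.Lib.Sieve.sum_inv_sq_primes_le _ hP
  have h4 := tht_w' N
  have h5 : 0 < Real.log N := by linarith [Pool.Agent.Lib.Sieve.one_half_le_log hN]
  rw [← Real.exp_log h5, ← Real.exp_add, ← Real.exp_add]
  refine Real.exp_le_exp.2 ?_
  have h6 := mul_le_mul_of_nonneg_left h3 hK
  have h7 := mul_le_mul_of_nonneg_left h4 (mul_nonneg hK hc0.le)
  linarith

theorem tht_theta (N M : ℕ) :
    ∑ l ∈ Nat.primesLE N, (if l ≤ M then Real.log l else 0) ≤ 2 * M := by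
  rw [← sum_filter]
  have h1 : ∑ l ∈ (Nat.primesLE N).filter (fun l => l ≤ M), Real.log l ≤
      ∑ l ∈ Nat.primesLE M, Real.log l := by
    refine sum_le_sum_of_subset_of_nonneg (fun l hl => ?_) fun l _ _ => Real.log_natCast_nonneg l
    exact Nat.mem_primesLE.2 ⟨(mem_filter.1 hl).2, Nat.prime_of_mem_primesLE (mem_filter.1 hl).1⟩
  have h2 : ∑ p ∈ Nat.primesLE M, Real.log p ≤ Real.log 4 * M := by
    rw [← Chebyshev.theta_eq_sum_primesLE_log]
    exact Chebyshev.theta_le_log4_mul_x (by positivity)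
  have h3 := Pool.Agent.Lib.Sieve.log_four_le
  have h4 : (0 : ℝ) ≤ M := by positivity
  nlinarith

/-- Chebyshev bound for the prime powers. -/
theorem tht_cheb (K : ℝ) : ∃ B : ℝ, 0 < B ∧ ∀ a f : ℕ → ℝ, HT K a f → ∀ N M : ℕ,
    ∑ l ∈ Nat.primesLE N, ∑ k ∈ range (N + 1),
      (if l ^ k ≤ M then k * Real.log l * f (l ^ k) else 0) ≤ B * M := by
  obtain ⟨c, hc0, hc⟩ := tht_geo
  refine ⟨4 + 12 * |K| + 20 * |K| * c, by positivity, fun a f h N M => ?_⟩
  have hK := tht_K h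
  rw [abs_of_nonneg hK]
  have hM : (0 : ℝ) ≤ M := by positivity
  have h1 : ∀ l ∈ Nat.primesLE N, ∑ k ∈ range (N + 1),
      (if l ^ k ≤ M then k * Real.log l * f (l ^ k) else 0) ≤
      2 * (if l ≤ M then Real.log l else 0) +
      6 * K * M.sqrt * (if l ≤ M.sqrt then Real.log l else 0) +
      K * c * M * (Real.log l * (Real.sqrt l)⁻¹ ^ 3) := by
    intro l hl
    have hlp := Nat.prime_of_mem_primesLE hl
    have h0 : (0 : ℝ) < l := by exact_mod_cast hlp.pos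
    have hlog : 0 ≤ Real.log l := Real.log_natCast_nonneg l
    refine (tht_three (fun k => if l ^ k ≤ M then k * Real.log l * f (l ^ k) else 0)
      (fun k => ?_) _).trans ?_
    · split_ifs
      · exact mul_nonneg (by positivity) (h.nonneg _)
      · exact le_rfl
    have e0 : (if l ^ 0 ≤ M then ((0 : ℕ) : ℝ) * Real.log l * f (l ^ 0) else 0) = 0 := by simp
    have e1 : (if l ^ 1 ≤ M then ((1 : ℕ) : ℝ) * Real.log l * f (l ^ 1) else 0) ≤
        2 * (if l ≤ M then Real.log l else 0) := by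
      rw [pow_one]
      split_ifs
      · have := h.prime l hlp
        push_cast
        nlinarith
      · simp
    have e2 : (if l ^ 2 ≤ M then ((2 : ℕ) : ℝ) * Real.log l * f (l ^ 2) else 0) ≤
        6 * K * M.sqrt * (if l ≤ M.sqrt then Real.log l else 0) := by
      by_cases h2 : l ^ 2 ≤ M
      · have h3 : l ≤ M.sqrt := Nat.le_sqrt'.2 h2
        rw [if_pos h2, if_pos h3]
        have h4 := h.pow l 2 hlp
        rw [Real.sqrt_sq h0.le] at h4
        have h5 : (l : ℝ) ≤ M.sqrt := by exact_mod_cast h3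
        have h6 : f (l ^ 2) ≤ 3 * K * M.sqrt := by
          push_cast at h4
          nlinarith
        push_cast
        nlinarith
      · rw [if_neg h2]
        split_ifs
        · positivity
        · simp
    have e3 : ∑ j ∈ range (N + 1),
        (if l ^ (j + 3) ≤ M then ((j + 3 : ℕ) : ℝ) * Real.log l * f (l ^ (j + 3)) else 0) ≤
        K * c * M * (Real.log l * (Real.sqrt l)⁻¹ ^ 3) := by
      calc _ ≤ ∑ j ∈ range (N + 1), K * M * (Real.log l * (Real.sqrt l)⁻¹ ^ 3) *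
            (((j : ℝ) + 4) ^ 2 * (7 / 8 : ℝ) ^ j) := by
            refine sum_le_sum fun j _ => ?_
            split_ifs with h2
            · have h3 := tht_pow h hlp (j + 3)
              have h4 := tht_rpow' hlp j
              have h5 : (0 : ℝ) ≤ j := by positivity
              have h7 : (l : ℝ) ^ (j + 3) ≤ M := by exact_mod_cast h2
              push_cast at h3 ⊢
              have h6 : (((j : ℝ) + 3) * ((j : ℝ) + 3 + 1)) * (Real.sqrt l)⁻¹ ^ j ≤
                  ((j : ℝ) + 4) ^ 2 * (7 / 8 : ℝ) ^ j :=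
                mul_le_mul (by nlinarith) h4 (by positivity) (by positivity)
              calc ((j : ℝ) + 3) * Real.log l * f (l ^ (j + 3))
                  ≤ ((j : ℝ) + 3) * Real.log l *
                    (K * ((j : ℝ) + 3 + 1) * ((l : ℝ) ^ (j + 3) * (Real.sqrt l)⁻¹ ^ (j + 3))) :=
                    mul_le_mul_of_nonneg_left h3 (by positivity)
                _ = K * (l : ℝ) ^ (j + 3) * (Real.log l * (Real.sqrt l)⁻¹ ^ 3) *
                    ((((j : ℝ) + 3) * ((j : ℝ) + 3 + 1)) * (Real.sqrt l)⁻¹ ^ j) := by ring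
                _ ≤ _ := by gcongr
            · positivity
        _ = K * M * (Real.log l * (Real.sqrt l)⁻¹ ^ 3) *
            ∑ j ∈ range (N + 1), (((j : ℝ) + 4) ^ 2 * (7 / 8 : ℝ) ^ j) := by rw [mul_sum]
        _ ≤ K * M * (Real.log l * (Real.sqrt l)⁻¹ ^ 3) * c :=
            mul_le_mul_of_nonneg_left (hc _) (by positivity)
        _ = _ := by ring
    refine add_le_add (add_le_add ?_ e2) e3
    rw [e0, zero_add]
    exact e1
  refine (sum_le_sum h1).trans ?_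
  rw [sum_add_distrib, sum_add_distrib, ← mul_sum, ← mul_sum, ← mul_sum]
  have h2 := tht_theta N M
  have h3 := tht_theta N M.sqrt
  have h4 := tht_w N
  have h5 : (M.sqrt : ℝ) * M.sqrt ≤ M := by exact_mod_cast Nat.sqrt_le M
  have h6 := mul_le_mul_of_nonneg_left h3 (show (0 : ℝ) ≤ 6 * K * M.sqrt by positivity)
  have h7 := mul_le_mul_of_nonneg_left h4 (show (0 : ℝ) ≤ K * c * M by positivity)
  have h8 := mul_le_mul_of_nonneg_left h5 hK
  nlinarith

theorem tht_fact_lt {n N l : ℕ} (hn : n ∈ Icc 1 N) : n.factorization l ∈ range (N + 1) := by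
  have h1 := mem_Icc.1 hn
  have h2 := Nat.factorization_lt l (show n ≠ 0 by omega)
  exact mem_range.2 (by omega)

theorem tht_main (K : ℝ) : ∃ B : ℝ, 0 < B ∧ ∀ a f : ℕ → ℝ, HT K a f → ∀ N : ℕ,
    ∑ n ∈ Icc 1 N, f n * Real.log n ≤ B * N * ∑ n ∈ Icc 1 N, f n / n := by
  obtain ⟨B, hB0, hB⟩ := tht_cheb K
  refine ⟨B, hB0, fun a f h N => ?_⟩
  have h1 : ∀ n ∈ Icc 1 N, f n * Real.log n =
      ∑ l ∈ Nat.primesLE N, f n * (n.factorization l * Real.log l) := by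
    intro n hn
    have h2 := mem_Icc.1 hn
    rw [← mul_sum, Real.log_nat_eq_sum_factorization, Finsupp.sum_of_support_subset]
    · intro p hp
      rw [Nat.support_factorization] at hp
      exact Nat.mem_primesLE.2 ⟨(Nat.le_of_mem_primeFactors hp).trans h2.2,
        Nat.prime_of_mem_primeFactors hp⟩
    · intro p _
      simp
  rw [sum_congr rfl h1, sum_comm]
  have h2 : ∀ l ∈ Nat.primesLE N, ∑ n ∈ Icc 1 N, f n * (n.factorization l * Real.log l) ≤
      ∑ m ∈ Icc 1 N, f m * ∑ k ∈ range (N + 1),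
        (if l ^ k ≤ N / m then k * Real.log l * f (l ^ k) else 0) := by
    intro l hl
    have hlp := Nat.prime_of_mem_primesLE hl
    have hlog : 0 ≤ Real.log l := Real.log_natCast_nonneg l
    rw [← sum_fiberwise_of_maps_to (s := Icc 1 N) (t := range (N + 1))
      (g := fun n => n.factorization l) (fun n hn => tht_fact_lt hn)]
    simp only [mul_sum]
    rw [sum_comm]
    refine sum_le_sum fun k _ => ?_
    have h3 := tht_fib h.nonneg h.mul hlp k N
    have h4 : ∑ m ∈ Icc 1 N, f m * (if l ^ k ≤ N / m then k * Real.log l * f (l ^ k) else 0) =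
        k * Real.log l * (f (l ^ k) * ∑ m ∈ Icc 1 (N / l ^ k), f m) := by
      have h5 : Icc 1 (N / l ^ k) = (Icc 1 N).filter (fun m => l ^ k ≤ N / m) := by
        ext m
        simp only [mem_filter, mem_Icc]
        have h6 : 0 < l ^ k := pow_pos hlp.pos k
        constructor
        · rintro ⟨h7, h8⟩
          refine ⟨⟨h7, h8.trans (Nat.div_le_self _ _)⟩, ?_⟩
          rw [Nat.le_div_iff_mul_le h7, mul_comm]
          exact (Nat.le_div_iff_mul_le h6).1 h8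
        · rintro ⟨⟨h7, _⟩, h8⟩
          refine ⟨h7, ?_⟩
          rw [Nat.le_div_iff_mul_le h6, mul_comm]
          exact (Nat.le_div_iff_mul_le h7).1 h8
      rw [h5, sum_filter, mul_sum, mul_sum]
      refine sum_congr rfl fun m _ => ?_
      split_ifs
      · ring
      · simp
    rw [h4]
    calc ∑ n ∈ (Icc 1 N).filter (fun n => n.factorization l = k),
          f n * (n.factorization l * Real.log l)
        = ∑ n ∈ (Icc 1 N).filter (fun n => n.factorization l = k), k * Real.log l * f n := by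
          refine sum_congr rfl fun n hn => ?_
          rw [(mem_filter.1 hn).2]
          ring
      _ = k * Real.log l * ∑ n ∈ (Icc 1 N).filter (fun n => n.factorization l = k), f n := by
          rw [mul_sum]
      _ ≤ _ := mul_le_mul_of_nonneg_left h3 (by positivity)
  refine (sum_le_sum h2).trans ?_
  rw [sum_comm, mul_sum]
  refine sum_le_sum fun m _ => ?_
  rw [← mul_sum]
  have h3 := hB a f h N (N / m)
  have h4 : ((N / m : ℕ) : ℝ) ≤ (N : ℝ) / m := Nat.cast_div_le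
  calc _ ≤ f m * (B * ((N : ℝ) / m)) :=
        mul_le_mul_of_nonneg_left (h3.trans (mul_le_mul_of_nonneg_left h4 hB0.le)) (h.nonneg m)
    _ = _ := by ring

theorem ht_le (K : ℝ) : ∃ C : ℝ, 0 < C ∧ ∀ a f : ℕ → ℝ, HT K a f → ∀ N : ℕ,
    ∑ n ∈ Icc 1 N, f n ≤ C * N * Real.exp (∑ l ∈ Nat.primesLE N, a l / l) := by
  obtain ⟨B, hB0, hB⟩ := tht_main K
  obtain ⟨C, hC0, hC⟩ := tht_log K
  refine ⟨(B + 1) * C + 1, by positivity, fun a f h N => ?_⟩
  rcases lt_or_ge N 2 with hN | hN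
  · interval_cases N
    · simp
    · have h1 := h.one
      have h2 : 0 ≤ (B + 1) * C := by positivity
      simp only [Icc_self, sum_singleton, Nat.primesLE_one, sum_empty, Real.exp_zero, Nat.cast_one,
        mul_one]
      linarith
  have h5 : 0 < Real.log N := by linarith [Pool.Agent.Lib.Sieve.one_half_le_log hN]
  have hN0 : (0 : ℝ) < N := by positivity
  have h1 : Real.log N * ∑ n ∈ Icc 1 N, f n ≤
      ∑ n ∈ Icc 1 N, f n * Real.log n + N * ∑ n ∈ Icc 1 N, f n / n := by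
    rw [mul_sum, mul_sum, ← sum_add_distrib]
    refine sum_le_sum fun n hn => ?_
    have h2 : (0 : ℝ) < n := by exact_mod_cast (mem_Icc.1 hn).1
    have h3 : Real.log N ≤ Real.log n + N / n := by
      have h4 := Real.log_le_sub_one_of_pos (div_pos hN0 h2)
      rw [Real.log_div hN0.ne' h2.ne'] at h4
      linarith
    calc Real.log N * f n ≤ (Real.log n + N / n) * f n := mul_le_mul_of_nonneg_right h3 (h.nonneg n)
      _ = _ := by ring
  have h2 := hB a f h N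
  have h3 := hC a f h N hN
  set E := Real.exp (∑ l ∈ Nat.primesLE N, a l / l) with hE
  have hE0 : 0 < E := Real.exp_pos _
  have h4 : Real.log N * ∑ n ∈ Icc 1 N, f n ≤ Real.log N * ((B + 1) * C * N * E) := by
    calc _ ≤ (B + 1) * N * ∑ n ∈ Icc 1 N, f n / n := by linarith
      _ ≤ (B + 1) * N * (C * Real.log N * E) := mul_le_mul_of_nonneg_left h3 (by positivity)
      _ = _ := by ring
  refine (le_of_mul_le_mul_left h4 h5).trans ?_
  have h6 : 0 ≤ N * E := by positivity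
  nlinarith

theorem tht_range {p j N : ℕ} (hp : p.Prime) (hy : 1 ≤ N / p ^ j) :
    Real.exp (∑ l ∈ (Nat.primesLE N).filter (fun l => N / p ^ j < l), 1 / (l : ℝ)) ≤
      Real.exp 9 * ((3 + 2 * Real.log p) * (j + 1)) := by
  set y := N / p ^ j with hy'
  have hlp : 0 ≤ Real.log p := Real.log_natCast_nonneg p
  have hj : (0 : ℝ) ≤ j := by positivity
  have hq : 0 < p ^ j := pow_pos hp.pos j
  have hyN : y ≤ N := Nat.div_le_self _ _
  have hy0 : (0 : ℝ) < y := by exact_mod_cast hy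
  have hN0 : (0 : ℝ) < N := by exact_mod_cast hy.trans hyN
  have hp0 : (0 : ℝ) < p := by exact_mod_cast hp.pos
  have h1 : N ≤ 2 * y * p ^ j := by
    have := Nat.lt_div_mul_add (a := N) hq
    rw [← hy'] at this
    nlinarith
  have h2 : Real.log N ≤ 1 + Real.log y + j * Real.log p := by
    have h3 : (N : ℝ) ≤ 2 * y * (p : ℝ) ^ j := by exact_mod_cast h1
    have h4 := Real.log_le_log hN0 h3
    rw [Real.log_mul (by positivity) (by positivity), Real.log_mul (by positivity) (by positivity),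
      Real.log_pow] at h4
    linarith [Real.log_two_lt_d9]
  have h9 : (1 : ℝ) ≤ Real.exp 9 := Real.one_le_exp (by norm_num)
  have hR : 1 ≤ (3 + 2 * Real.log p) * (j + 1) := by nlinarith [mul_nonneg hj hlp]
  rcases eq_or_lt_of_le hy with h | h
  · rcases lt_or_ge N 2 with hN | hN
    · have h3 : (Nat.primesLE N).filter (fun l => y < l) = ∅ := by
        refine filter_eq_empty_iff.2 fun l hl => ?_
        have := Nat.le_of_mem_primesLE hl
        omega
      rw [h3, sum_empty, Real.exp_zero]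
      nlinarith
    · have h3 := Pool.Agent.Lib.Sieve.sum_inv_primes_le hN
      have h4 : ∑ l ∈ (Nat.primesLE N).filter (fun l => y < l), 1 / (l : ℝ) ≤
          ∑ l ∈ Nat.primesLE N, 1 / (l : ℝ) :=
        sum_le_sum_of_subset_of_nonneg (filter_subset _ _) fun _ _ _ => by positivity
      have h5 : 0 < Real.log N := by linarith [Pool.Agent.Lib.Sieve.one_half_le_log hN]
      have h6 : Real.log y = 0 := by rw [← h]; simp
      calc _ ≤ Real.exp (9 + Real.log (Real.log N)) := Real.exp_le_exp.2 (by linarith)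
        _ = Real.exp 9 * Real.log N := by rw [Real.exp_add, Real.exp_log h5]
        _ ≤ _ := mul_le_mul_of_nonneg_left (by nlinarith [mul_nonneg hj hlp]) (by positivity)
  · have h3 := range_le (z := y) (X := N) h hyN
    have h4 := Pool.Agent.Lib.Sieve.one_half_le_log (y := y) h
    have h5 := Pool.Agent.Lib.Sieve.one_half_le_log (y := N) (le_trans h hyN)
    have h6 : 0 < Real.log N / Real.log y := div_pos (by linarith) (by linarith)
    calc _ ≤ Real.exp (9 + Real.log (Real.log N / Real.log y)) := Real.exp_le_exp.2 (by linarith)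
      _ = Real.exp 9 * (Real.log N / Real.log y) := by rw [Real.exp_add, Real.exp_log h6]
      _ ≤ _ := by
          refine mul_le_mul_of_nonneg_left ?_ (by positivity)
          rw [div_le_iff₀ (by linarith)]
          have h7 : 0 ≤ Real.log y - 1 / 2 := by linarith
          have h8 : 0 ≤ Real.log y := by linarith
          nlinarith [mul_nonneg (mul_nonneg hj hlp) h7, mul_nonneg hj h8, mul_nonneg hlp h8]

theorem ht_dvd (K : ℝ) {p : ℕ} (hp : p.Prime) {δ : ℝ} (hδ : 0 < δ) : ∃ m : ℕ, ∀ a f : ℕ → ℝ,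
    HT K a f → (∀ l, |a l| ≤ 1) → ∀ N : ℕ,
    ∑ n ∈ (Icc 1 N).filter (fun n => p ^ m ∣ n), f n ≤
      δ * N * Real.exp (∑ l ∈ Nat.primesLE N, a l / l) := by
  obtain ⟨C, hC0, hC⟩ := ht_le K
  obtain ⟨c, hc0, hc⟩ := tht_geo
  have hlp : 0 ≤ Real.log p := Real.log_natCast_nonneg p
  set A : ℝ := |K| * C * (Real.exp 9 * (3 + 2 * Real.log p)) with hA
  have hA0 : 0 ≤ A := by positivity
  obtain ⟨m, hm⟩ := exists_pow_lt_of_lt_one (show 0 < δ / (A * c + 1) by positivity)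
    (show (7 / 8 : ℝ) < 1 by norm_num)
  refine ⟨m, fun a f h ha N => ?_⟩
  have hK := tht_K h
  rw [abs_of_nonneg hK] at hA
  set E := Real.exp (∑ l ∈ Nat.primesLE N, a l / l) with hE
  have hE0 : 0 < E := Real.exp_pos _
  have hp0 : (0 : ℝ) < p := by exact_mod_cast hp.pos
  rw [← sum_fiberwise_of_maps_to (s := (Icc 1 N).filter (fun n => p ^ m ∣ n)) (t := range (N + 1))
    (g := fun n => n.factorization p) (fun n hn => tht_fact_lt (mem_filter.1 hn).1)]
  have h1 : ∀ j ∈ range (N + 1), ∑ n ∈ ((Icc 1 N).filter (fun n => p ^ m ∣ n)).filter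
      (fun n => n.factorization p = j), f n ≤
      A * (7 / 8 : ℝ) ^ m * (N * E) * (((j : ℝ) + 4) ^ 2 * (7 / 8 : ℝ) ^ j) := by
    intro j _
    rcases lt_or_ge j m with hjm | hjm
    · have h2 : ((Icc 1 N).filter (fun n => p ^ m ∣ n)).filter
          (fun n => n.factorization p = j) = ∅ := by
        refine filter_eq_empty_iff.2 fun n hn => ?_
        have h3 := mem_filter.1 hn
        have h4 := (mem_Icc.1 h3.1).1
        have h5 := (hp.pow_dvd_iff_le_factorization (show n ≠ 0 by omega)).1 h3.2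
        omega
      rw [h2, sum_empty]
      positivity
    have h2 : ∑ n ∈ ((Icc 1 N).filter (fun n => p ^ m ∣ n)).filter
        (fun n => n.factorization p = j), f n ≤
        ∑ n ∈ (Icc 1 N).filter (fun n => n.factorization p = j), f n :=
      sum_le_sum_of_subset_of_nonneg (filter_subset_filter _ (filter_subset _ _))
        fun _ _ _ => h.nonneg _
    refine h2.trans ((tht_fib h.nonneg h.mul hp j N).trans ?_)
    rcases Nat.eq_zero_or_pos (N / p ^ j) with hy | hy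
    · rw [hy]
      simp only [zero_lt_one, Icc_eq_empty_of_lt, sum_empty, mul_zero]
      positivity
    have h3 := hC a f h (N / p ^ j)
    have h4 := tht_range hp hy
    have h5 : Real.exp (∑ l ∈ Nat.primesLE (N / p ^ j), a l / l) ≤
        E * Real.exp (∑ l ∈ (Nat.primesLE N).filter (fun l => N / p ^ j < l), 1 / (l : ℝ)) := by
      rw [hE, ← Real.exp_add]
      refine Real.exp_le_exp.2 ?_
      rw [← sum_filter_add_sum_filter_not (Nat.primesLE N) (fun l => N / p ^ j < l)]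
      have h6 : (Nat.primesLE N).filter (fun l => ¬ N / p ^ j < l) = Nat.primesLE (N / p ^ j) := by
        ext l
        simp only [mem_filter, Nat.mem_primesLE, not_lt]
        exact ⟨fun h => ⟨h.2, h.1.2⟩, fun h => ⟨⟨h.1.trans (Nat.div_le_self _ _), h.2⟩, h.1⟩⟩
      rw [h6]
      have h7 : 0 ≤ ∑ l ∈ (Nat.primesLE N).filter (fun l => N / p ^ j < l),
          (a l / l + 1 / (l : ℝ)) := by
        refine sum_nonneg fun l _ => ?_
        rw [← add_div]
        exact div_nonneg (by linarith [(abs_le.1 (ha l)).1]) (by positivity)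
      rw [sum_add_distrib] at h7
      linarith
    have h6 := tht_pow h hp j
    have h7 : ((N / p ^ j : ℕ) : ℝ) ≤ (N : ℝ) / (p : ℝ) ^ j := by
      have : ((N / p ^ j : ℕ) : ℝ) ≤ (N : ℝ) / ((p ^ j : ℕ) : ℝ) := Nat.cast_div_le
      exact_mod_cast this
    have h8 : (Real.sqrt p)⁻¹ ^ j ≤ (7 / 8 : ℝ) ^ m * (7 / 8 : ℝ) ^ j :=
      (tht_rpow hp j).trans (mul_le_mul_of_nonneg_right
        (pow_le_pow_of_le_one (by norm_num) (by norm_num) hjm) (by positivity))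
    have h9 : ∑ n ∈ Icc 1 (N / p ^ j), f n ≤ C * ((N : ℝ) / (p : ℝ) ^ j) *
        (E * (Real.exp 9 * ((3 + 2 * Real.log p) * (j + 1)))) := by
      refine h3.trans ?_
      have := h5.trans (mul_le_mul_of_nonneg_left h4 hE0.le)
      gcongr
    have h10 : ((j : ℝ) + 1) ^ 2 ≤ ((j : ℝ) + 4) ^ 2 := by gcongr; norm_num
    calc _ ≤ (K * (j + 1) * ((p : ℝ) ^ j * (Real.sqrt p)⁻¹ ^ j)) * (C * ((N : ℝ) / (p : ℝ) ^ j) *
          (E * (Real.exp 9 * ((3 + 2 * Real.log p) * (j + 1))))) :=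
          mul_le_mul h6 h9 (sum_nonneg fun _ _ => h.nonneg _) (by positivity)
      _ = A * (N * E) * (((j : ℝ) + 1) ^ 2 * (Real.sqrt p)⁻¹ ^ j) := by
          rw [hA]
          field_simp
      _ ≤ A * (N * E) * (((j : ℝ) + 4) ^ 2 * ((7 / 8 : ℝ) ^ m * (7 / 8 : ℝ) ^ j)) := by gcongr
      _ = _ := by ring
  refine (sum_le_sum h1).trans ?_
  rw [← mul_sum]
  have h2 : A * (7 / 8 : ℝ) ^ m * c ≤ δ := by
    rw [lt_div_iff₀ (by positivity)] at hm
    have : (0 : ℝ) ≤ (7 / 8 : ℝ) ^ m := by positivity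
    nlinarith
  calc _ ≤ A * (7 / 8 : ℝ) ^ m * (N * E) * c := mul_le_mul_of_nonneg_left (hc _) (by positivity)
    _ = A * (7 / 8 : ℝ) ^ m * c * (N * E) := by ring
    _ ≤ δ * (N * E) := mul_le_mul_of_nonneg_right h2 (by positivity)
    _ = _ := by ring

end Pool.Agent.EQ
end
end
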