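import Pool.Agent.K.MP_ad7a55_nt.C0
import Pool.Agent.K.MP_ad7a55_nt.C1

-- part Pool.Agent.P.MP_ad7a55_nt.TQd
section

/-! Congruences for quadratic polynomials. -/

set_option autoImplicit false

noncomputable section

open Finset

namespace Pool.Agent.EQ

theorem tqd_prime {l : ℕ} (hl : l.Prime) : Prime (l : ℤ) := Nat.prime_iff_prime_int.1 hl

theorem tqd_cnt (q : ℕ) (A : ℤ → Prop) [DecidablePred A] :
    cnt q A = ((range q).filter fun r : ℕ => A r).card := by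
  unfold cnt
  exact congrArg card (Finset.ext fun r => by simp only [mem_filter])

theorem tqd_split {l : ℕ} (hl : l.Prime) (m : ℕ) : ∀ (k : ℕ) (x y : ℤ),
    (l : ℤ) ^ (k + m) ∣ x * y → ¬ (l : ℤ) ^ (m + 1) ∣ x → (l : ℤ) ^ k ∣ y := by
  have hp := tqd_prime hl
  induction m with
  | zero =>
    intro k x y h hx
    exact hp.pow_dvd_of_dvd_mul_left k (by simpa using hx) (by simpa using h)
  | succ m ih =>
    intro k x y h hx
    by_cases h1 : (l : ℤ) ∣ x
    · obtain ⟨x', rfl⟩ := h1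
      refine ih k x' y ?_ fun h2 => hx ?_
      · rw [← add_assoc, pow_succ', mul_assoc] at h
        exact (mul_dvd_mul_iff_left hp.ne_zero).1 h
      · rw [pow_succ' _ (m + 1)]
        exact mul_dvd_mul_left _ h2
    · exact (pow_dvd_pow _ (Nat.le_add_right _ _)).trans (hp.pow_dvd_of_dvd_mul_left _ h1 h)

theorem tqd_eq {q r r' : ℕ} (h1 : r < q) (h2 : r' < q) (h : (q : ℤ) ∣ (r : ℤ) - r') : r = r' := by
  have := (Nat.modEq_iff_dvd.2 h).symm
  exact this.eq_of_lt_of_lt h1 h2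

theorem tqd_mod (d r : ℕ) : (d : ℤ) ∣ (r : ℤ) - ((r % d : ℕ) : ℤ) :=
  Nat.modEq_iff_dvd.1 (Nat.mod_modEq r d)

theorem tqd_per {d : ℕ} (hd : 0 < d) (e : ℕ) {A A' : ℤ → Prop} (h : ∀ x, A x → A' x)
    (hA : ∀ x y, (d : ℤ) ∣ x - y → A' x → A' y) : cnt (d * e) A ≤ e * cnt d A' := by
  classical
  unfold cnt
  have e1 : e = (range e).card := (card_range e).symm
  conv_rhs => rw [e1, ← card_product]
  refine card_le_card_of_injOn (fun r => (r / d, r % d)) (fun r hr => ?_) fun r _ r' _ he => ?_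
  · obtain ⟨h1, h2⟩ := mem_filter.1 (mem_coe.1 hr)
    refine mem_coe.2 (mem_product.2 ⟨mem_range.2 ?_, mem_filter.2 ⟨mem_range.2 (Nat.mod_lt _ hd),
      hA _ _ (tqd_mod d r) (h _ h2)⟩⟩)
    exact Nat.div_lt_of_lt_mul (mem_range.1 h1)
  · obtain ⟨h1, h2⟩ := Prod.mk.inj he
    rw [← Nat.div_add_mod r d, ← Nat.div_add_mod r' d, h1, h2]

theorem tqd_le_one {q : ℕ} {A : ℤ → Prop} (h : ∀ x y, A x → A y → (q : ℤ) ∣ x - y) :
    cnt q A ≤ 1 := by
  classical
  unfold cnt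
  refine card_le_one.2 fun r hr r' hr' => ?_
  obtain ⟨h1, h2⟩ := mem_filter.1 hr
  obtain ⟨h3, h4⟩ := mem_filter.1 hr'
  exact tqd_eq (mem_range.1 h1) (mem_range.1 h3) (h _ _ h2 h4)

theorem tqd_zero {q : ℕ} {A : ℤ → Prop} (h : ¬ ∃ x, A x) : cnt q A = 0 := by
  classical
  unfold cnt
  exact card_eq_zero.2 (filter_eq_empty_iff.2 fun r _ hr => h ⟨_, hr⟩)

theorem tqd_congr {q : ℕ} {A A' : ℤ → Prop} (h : ∀ x, A x ↔ A' x) : cnt q A = cnt q A' := by
  rw [show A = A' from funext fun x => propext (h x)]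

theorem tqd_one {l : ℕ} (hl : l.Prime) {k j : ℕ} (hj : j ≤ k) {A : ℤ → Prop} (c : ℤ)
    (h : ∀ x, A x → (l : ℤ) ^ (k - j) ∣ x - c) : cnt (l ^ k) A ≤ l ^ j := by
  have h1 := tqd_per (pow_pos hl.pos (k - j)) (l ^ j) (A := A)
    (A' := fun x => (l : ℤ) ^ (k - j) ∣ x - c) h fun x y h1 h2 => by
      push_cast at h1
      have := dvd_sub h2 h1
      rwa [show x - c - (x - y) = y - c by ring] at this
  have h2 := tqd_le_one (q := l ^ (k - j)) (A := fun x => (l : ℤ) ^ (k - j) ∣ x - c)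
    fun x y h1 h2 => by
      push_cast
      have := dvd_sub h1 h2
      rwa [show x - c - (y - c) = x - y by ring] at this
  rw [← pow_add, Nat.sub_add_cancel hj] at h1
  exact h1.trans (by simpa using Nat.mul_le_mul_left (l ^ j) h2)

theorem tqd_two {l : ℕ} (hl : l.Prime) {k j : ℕ} (hj : j ≤ k) {A : ℤ → Prop} (c c' : ℤ)
    (h : ∀ x, A x → (l : ℤ) ^ (k - j) ∣ x - c ∨ (l : ℤ) ^ (k - j) ∣ x - c') :
    cnt (l ^ k) A ≤ 2 * l ^ j := by
  have t : ∀ {x y c : ℤ}, (l : ℤ) ^ (k - j) ∣ x - c → (l : ℤ) ^ (k - j) ∣ y - c →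
      (l : ℤ) ^ (k - j) ∣ x - y := fun {x y c} h1 h2 => by
    have := dvd_sub h1 h2
    rwa [show x - c - (y - c) = x - y by ring] at this
  have t' : ∀ {x y c : ℤ}, (l : ℤ) ^ (k - j) ∣ x - y → (l : ℤ) ^ (k - j) ∣ x - c →
      (l : ℤ) ^ (k - j) ∣ y - c := fun {x y c} h1 h2 => by
    have := dvd_sub h2 h1
    rwa [show x - c - (x - y) = y - c by ring] at this
  have h1 := tqd_per (pow_pos hl.pos (k - j)) (l ^ j) (A := A)
    (A' := fun x => (l : ℤ) ^ (k - j) ∣ x - c ∨ (l : ℤ) ^ (k - j) ∣ x - c') h fun x y h1 h2 => by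
      push_cast at h1
      exact h2.imp (t' h1) (t' h1)
  have h2 := cnt_le_two (q := l ^ (k - j))
    (A := fun x => (l : ℤ) ^ (k - j) ∣ x - c ∨ (l : ℤ) ^ (k - j) ∣ x - c')
    fun x y z h1 h2 h3 => by
      push_cast
      rcases h1 with h1 | h1 <;> rcases h2 with h2 | h2 <;> rcases h3 with h3 | h3
      all_goals first
        | exact Or.inl (t h1 h2)
        | exact Or.inr (Or.inl (t h1 h3))
        | exact Or.inr (Or.inr (t h2 h3))
  rw [← pow_add, Nat.sub_add_cancel hj] at h1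
  exact h1.trans (by rw [mul_comm 2]; exact Nat.mul_le_mul_left (l ^ j) h2)

theorem tqd_not_two {l : ℕ} (hl : l.Prime) (h2 : l ≠ 2) : ¬ (l : ℤ) ∣ 2 := fun h =>
  h2 ((Nat.prime_dvd_prime_iff_eq hl Nat.prime_two).1 (by exact_mod_cast h))

theorem tqd_sq {l k : ℕ} {a r r0 : ℤ} (h : (l : ℤ) ^ k ∣ r ^ 2 - a) (h0 : (l : ℤ) ^ k ∣ r0 ^ 2 - a) :
    (l : ℤ) ^ k ∣ (r - r0) * (r - -r0) := by
  have := dvd_sub h h0
  rwa [show r ^ 2 - a - (r0 ^ 2 - a) = (r - r0) * (r - -r0) by ring] at this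

theorem tqd_poly {d A B C x y : ℤ} (h : d ∣ x - y) (hx : d ∣ A * x ^ 2 + B * x + C) :
    d ∣ A * y ^ 2 + B * y + C := by
  have := dvd_sub hx (h.mul_right (A * (x + y) + B))
  rwa [show A * x ^ 2 + B * x + C - (x - y) * (A * (x + y) + B) = A * y ^ 2 + B * y + C by ring]
    at this

theorem tqd_diff {d A B C x y : ℤ} (hx : d ∣ A * x ^ 2 + B * x + C)
    (hy : d ∣ A * y ^ 2 + B * y + C) : d ∣ (x - y) * (A * (x + y) + B) := by
  have := dvd_sub hx hy
  rwa [show A * x ^ 2 + B * x + C - (A * y ^ 2 + B * y + C) = (x - y) * (A * (x + y) + B) by ring]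
    at this

theorem tqd_lift {l : ℕ} (hl : l.Prime) {A B C : ℤ}
    (hs : ∀ y, (l : ℤ) ∣ A * y ^ 2 + B * y + C → ¬ (l : ℤ) ∣ 2 * A * y + B) (k : ℕ) :
    cnt (l ^ (k + 1)) (fun y => (l : ℤ) ^ (k + 1) ∣ A * y ^ 2 + B * y + C) =
      cnt l (fun y => (l : ℤ) ∣ A * y ^ 2 + B * y + C) := by
  classical
  have hp := tqd_prime hl
  induction k with
  | zero => simp only [zero_add, pow_one]
  | succ k ih =>
    rw [← ih, tqd_cnt, tqd_cnt]
    have hq : 0 < l ^ (k + 1) := pow_pos hl.pos _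
    have hq' : 0 < l ^ (k + 1 + 1) := pow_pos hl.pos _
    have d1 : (l : ℤ) ∣ (l : ℤ) ^ (k + 1) := dvd_pow_self _ (Nat.succ_ne_zero k)
    have d2 : (l : ℤ) ^ (k + 1) ∣ (l : ℤ) ^ (k + 1 + 1) := pow_dvd_pow _ (Nat.le_succ _)
    refine card_bij (fun r _ => r % l ^ (k + 1)) (fun r hr => ?_) (fun r hr r' hr' he => ?_)
      fun y hy => ?_
    · obtain ⟨-, h2⟩ := mem_filter.1 hr
      refine mem_filter.2 ⟨mem_range.2 (Nat.mod_lt _ hq), tqd_poly ?_ (d2.trans h2)⟩
      exact_mod_cast tqd_mod (l ^ (k + 1)) r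
    · obtain ⟨h1, h2⟩ := mem_filter.1 hr
      obtain ⟨h3, h4⟩ := mem_filter.1 hr'
      have h5 : (l : ℤ) ∣ (r : ℤ) - r' := by
        have := Nat.modEq_iff_dvd.1 (show r' ≡ r [MOD l ^ (k + 1)] from he.symm)
        push_cast at this
        exact d1.trans this
      have h6 : ¬ (l : ℤ) ∣ A * (r + r') + B := fun h => hs r (d1.trans (d2.trans h2)) (by
        have := dvd_add h (h5.mul_left A)
        rwa [show A * (r + r') + B + A * ((r : ℤ) - r') = 2 * A * r + B by ring] at this)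
      refine tqd_eq (mem_range.1 h1) (mem_range.1 h3) ?_
      push_cast
      exact hp.pow_dvd_of_dvd_mul_right _ h6 (tqd_diff h2 h4)
    · obtain ⟨h1, c, hc⟩ := mem_filter.1 hy
      have h6 := hs y (d1.trans ⟨c, hc⟩)
      obtain ⟨a, b, hab⟩ := (hp.irreducible.coprime_iff_not_dvd).2 h6
      obtain ⟨x, hx⟩ : ∃ x : ℤ, x = y + (l : ℤ) ^ (k + 1) * (-c * b) := ⟨_, rfl⟩
      have h7 : (l : ℤ) ^ (k + 1 + 1) ∣ A * x ^ 2 + B * x + C := by
        refine ⟨c * a + A * (c * b) ^ 2 * (l : ℤ) ^ k, ?_⟩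
        rw [hx]
        linear_combination hc - (l : ℤ) ^ (k + 1) * c * hab
      have hq2 : (0 : ℤ) < (l : ℤ) ^ (k + 1 + 1) := by exact_mod_cast hq'
      obtain ⟨r, hr⟩ := Int.eq_ofNat_of_zero_le (Int.emod_nonneg x hq2.ne')
      have h8 : (l : ℤ) ^ (k + 1 + 1) ∣ x - r := by
        rw [← hr]
        exact Int.dvd_self_sub_emod
      have h9 : r < l ^ (k + 1 + 1) := by
        have := Int.emod_lt_of_pos x hq2
        rw [hr] at this
        exact_mod_cast this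
      refine ⟨r, mem_filter.2 ⟨mem_range.2 h9, tqd_poly h8 h7⟩, ?_⟩
      refine tqd_eq (Nat.mod_lt _ hq) (mem_range.1 h1) ?_
      have e1 := tqd_mod (l ^ (k + 1)) r
      push_cast at e1 ⊢
      have e2 := dvd_sub (dvd_sub (Dvd.intro (-c * b) rfl : (l : ℤ) ^ (k + 1) ∣ _) (d2.trans h8)) e1
      rwa [hx, show (l : ℤ) ^ (k + 1) * (-c * b) - (y + (l : ℤ) ^ (k + 1) * (-c * b) - r) -
        (r - r % (l : ℤ) ^ (k + 1)) = r % (l : ℤ) ^ (k + 1) - y by ring] at e2

theorem tqd_roots {l : ℕ} (hl : l.Prime) (h2 : l ≠ 2) (D : ℤ) :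
    (cnt l (fun z => (l : ℤ) ∣ z ^ 2 - D) : ℤ) = 1 + jacobiSym D l := by
  classical
  have : Fact l.Prime := ⟨hl⟩
  have h := legendreSym.card_sqrts l h2 D
  rw [← jacobiSym.legendreSym.to_jacobiSym, add_comm, ← h]
  congr 1
  rw [tqd_cnt]
  refine card_bij (fun r _ => (r : ZMod l)) (fun r hr => ?_) (fun r hr r' hr' he => ?_)
    fun y hy => ?_
  · have h1 := (ZMod.intCast_zmod_eq_zero_iff_dvd _ l).2 (mem_filter.1 hr).2
    push_cast at h1
    simpa [sub_eq_zero] using h1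
  · exact ((ZMod.natCast_eq_natCast_iff _ _ _).1 he).eq_of_lt_of_lt
      (mem_range.1 (mem_filter.1 hr).1) (mem_range.1 (mem_filter.1 hr').1)
  · refine ⟨y.val, mem_filter.2 ⟨mem_range.2 (ZMod.val_lt y), ?_⟩, ZMod.natCast_zmod_val y⟩
    rw [← ZMod.intCast_zmod_eq_zero_iff_dvd]
    push_cast
    rw [ZMod.natCast_zmod_val, sub_eq_zero]
    simpa using hy

theorem cnt_sq_le {l : ℕ} (hl : l.Prime) (k : ℕ) (a : ℤ) :
    cnt (l ^ k) (fun r => (l : ℤ) ^ k ∣ r ^ 2 - a) ≤ 4 * l ^ (k / 2) := by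
  by_cases h : ∃ r0 : ℤ, (l : ℤ) ^ k ∣ r0 ^ 2 - a
  · obtain ⟨r0, h0⟩ := h
    refine (tqd_two hl (Nat.div_le_self k 2) r0 (-r0) fun r hr => ?_).trans
      (Nat.mul_le_mul_right _ (by norm_num))
    by_cases h1 : (l : ℤ) ^ (k - k / 2) ∣ r - r0
    · exact Or.inl h1
    · have hk : k - k / 2 ≠ 0 := fun e => h1 (by rw [e, pow_zero]; exact one_dvd _)
      have e1 : k - k / 2 = k - k / 2 - 1 + 1 := by omega
      have h3 := tqd_sq hr h0
      have e2 : k = k / 2 + 1 + (k - k / 2 - 1) := by omega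
      rw [e1] at h1
      conv at h3 => rw [e2]
      exact Or.inr ((pow_dvd_pow _ (by omega)).trans (tqd_split hl _ _ _ _ h3 h1))
  · rw [tqd_zero h]
    exact Nat.zero_le _

theorem cnt_sq_le' {l : ℕ} (hl : l.Prime) (k j : ℕ) {a : ℤ} (ha : ¬ (l : ℤ) ^ (2 * j + 2) ∣ a) :
    cnt (l ^ k) (fun r => (l : ℤ) ^ k ∣ r ^ 2 - a) ≤ 4 * l ^ j := by
  by_cases hk : k ≤ 2 * j + 1
  · exact (cnt_sq_le hl k a).trans
      (Nat.mul_le_mul_left _ (Nat.pow_le_pow_right hl.pos (by omega)))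
  by_cases h : ∃ r0 : ℤ, (l : ℤ) ^ k ∣ r0 ^ 2 - a
  · obtain ⟨r0, h0⟩ := h
    have h1 : ¬ (l : ℤ) ^ (j + 1) ∣ r0 := fun h1 => ha (by
      have h2 : (l : ℤ) ^ (2 * j + 2) ∣ r0 ^ 2 := by
        rw [show 2 * j + 2 = (j + 1) * 2 by ring, pow_mul]
        exact pow_dvd_pow_of_dvd h1 2
      have := dvd_sub h2 ((pow_dvd_pow _ (by omega)).trans h0)
      rwa [sub_sub_cancel] at this)
    have key : ∀ m ≤ k, ¬ (l : ℤ) ^ (m + 1) ∣ 2 * r0 →
        cnt (l ^ k) (fun r => (l : ℤ) ^ k ∣ r ^ 2 - a) ≤ 2 * l ^ m := by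
      intro m hm h2
      refine tqd_two hl hm r0 (-r0) fun r hr => ?_
      have h3 := tqd_sq hr h0
      conv at h3 => rw [← Nat.sub_add_cancel hm]
      by_cases h4 : (l : ℤ) ^ (m + 1) ∣ r - r0
      · refine Or.inl (tqd_split hl _ _ (r - -r0) _ (by rwa [mul_comm]) fun h5 => h2 ?_)
        have := dvd_sub h5 h4
        rwa [show r - -r0 - (r - r0) = 2 * r0 by ring] at this
      · exact Or.inr (tqd_split hl _ _ _ _ h3 h4)
    by_cases h2 : l = 2
    · subst h2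
      refine (key (j + 1) (by omega) fun h3 => h1 ?_).trans (le_of_eq (by ring))
      rw [pow_succ'] at h3
      exact (mul_dvd_mul_iff_left (by norm_num)).1 h3
    · exact (key j (by omega) fun h3 => h1
        ((tqd_prime hl).pow_dvd_of_dvd_mul_left _ (tqd_not_two hl h2) h3)).trans
        (Nat.mul_le_mul_right _ (by norm_num))
  · rw [tqd_zero h]
    exact Nat.zero_le _

theorem cnt_lin_le {l : ℕ} (hl : l.Prime) (k : ℕ) {u : ℤ} (hu : ¬ (l : ℤ) ∣ u) (v : ℤ) :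
    cnt (l ^ k) (fun r => (l : ℤ) ^ k ∣ 2 * u * r + v) ≤ 2 := by
  by_cases h : ∃ r0 : ℤ, (l : ℤ) ^ k ∣ 2 * u * r0 + v
  · obtain ⟨r0, h0⟩ := h
    have key : ∀ r, (l : ℤ) ^ k ∣ 2 * u * r + v → (l : ℤ) ^ k ∣ 2 * (r - r0) := fun r hr => by
      have := dvd_sub hr h0
      rw [show 2 * u * r + v - (2 * u * r0 + v) = u * (2 * (r - r0)) by ring] at this
      exact (tqd_prime hl).pow_dvd_of_dvd_mul_left _ hu this
    by_cases h2 : l = 2
    · subst h2
      cases k with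
      | zero => exact (tqd_one hl le_rfl r0 fun r _ => by simp).trans (by norm_num)
      | succ k =>
        refine tqd_one hl (j := 1) (by omega) r0 fun r hr => ?_
        have := key r hr
        rw [pow_succ'] at this
        exact (mul_dvd_mul_iff_left (by norm_num)).1 this
    · exact (tqd_one hl (Nat.zero_le k) r0 fun r hr =>
        (tqd_prime hl).pow_dvd_of_dvd_mul_left _ (tqd_not_two hl h2) (key r hr)).trans
        (by norm_num)
  · rw [tqd_zero h]
    exact Nat.zero_le _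

/-- The number of roots of a quadratic polynomial with unit discriminant. -/
theorem cnt_hensel {l : ℕ} (hl : l.Prime) (h2 : l ≠ 2) {A B C : ℤ} (hA : ¬ (l : ℤ) ∣ A)
    (hd : ¬ (l : ℤ) ∣ B ^ 2 - 4 * A * C) {k : ℕ} (hk : 0 < k) :
    (cnt (l ^ k) (fun y => (l : ℤ) ^ k ∣ A * y ^ 2 + B * y + C) : ℤ) =
      1 + jacobiSym (B ^ 2 - 4 * A * C) l := by
  have hp := tqd_prime hl
  obtain ⟨k, rfl⟩ := Nat.exists_eq_succ_of_ne_zero hk.ne'
  have h2A : ¬ (l : ℤ) ∣ 2 * A := fun h => (hp.dvd_or_dvd h).elim (tqd_not_two hl h2) hA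
  have key : ∀ y, (l : ℤ) ∣ A * y ^ 2 + B * y + C ↔
      (l : ℤ) ∣ (B + 2 * A * y) ^ 2 - (B ^ 2 - 4 * A * C) := fun y => by
    rw [show (B + 2 * A * y) ^ 2 - (B ^ 2 - 4 * A * C) =
      2 * (2 * A * (A * y ^ 2 + B * y + C)) by ring]
    exact ⟨fun h => (h.mul_left _).mul_left _, fun h =>
      (hp.dvd_or_dvd ((hp.dvd_or_dvd h).resolve_left (tqd_not_two hl h2))).resolve_left h2A⟩
  rw [tqd_lift hl fun y hy h => hd (by
      have h1 := dvd_sub (h.mul_left (2 * A * y + B)) ((key y).1 hy)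
      rwa [show (2 * A * y + B) * (2 * A * y + B) - ((B + 2 * A * y) ^ 2 - (B ^ 2 - 4 * A * C)) =
        B ^ 2 - 4 * A * C by ring] at h1),
    tqd_congr key, cnt_affine hl.pos (A := fun z => (l : ℤ) ∣ z ^ 2 - (B ^ 2 - 4 * A * C))
      (fun x y h1 h3 => by
        have := dvd_sub h3 (h1.mul_right (x + y))
        rwa [show x ^ 2 - (B ^ 2 - 4 * A * C) - (x - y) * (x + y) =
          y ^ 2 - (B ^ 2 - 4 * A * C) by ring] at this) B
      ((hp.irreducible.coprime_iff_not_dvd).2 h2A).symm, tqd_roots hl h2]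

theorem cnt_hensel' {l : ℕ} (hl : l.Prime) {A B : ℤ} (hA : (l : ℤ) ∣ A) (hB : ¬ (l : ℤ) ∣ B)
    (C : ℤ) (k : ℕ) : cnt (l ^ k) (fun y => (l : ℤ) ^ k ∣ A * y ^ 2 + B * y + C) = 1 := by
  classical
  have hp := tqd_prime hl
  cases k with
  | zero => simp [cnt]
  | succ k =>
    have key : ∀ y, (l : ℤ) ∣ A * y ^ 2 + B * y + C ↔ (l : ℤ) ∣ C + B * y := fun y => by
      rw [add_assoc, dvd_add_right (hA.mul_right _), add_comm]
    rw [tqd_lift hl fun y _ h => hB ((dvd_add_right ((hA.mul_left 2).mul_right y)).1 h),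
      tqd_congr key, cnt_affine hl.pos (A := fun z => (l : ℤ) ∣ z)
        (fun x y h1 h3 => by simpa using dvd_sub h3 h1) C
        ((hp.irreducible.coprime_iff_not_dvd).2 hB).symm]
    refine le_antisymm (tqd_le_one fun x y h1 h3 => dvd_sub h1 h3) ?_
    rw [tqd_cnt]
    exact card_pos.2 ⟨0, mem_filter.2 ⟨mem_range.2 hl.pos, by simp⟩⟩

/-- `l ^ j` divides all three coefficients. -/
def Ct (l j : ℕ) (A B C : ℤ) : Prop := (l : ℤ) ^ j ∣ A ∧ (l : ℤ) ^ j ∣ B ∧ (l : ℤ) ^ j ∣ C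

theorem three_roots {l : ℕ} (hl : l.Prime) {A B C : ℤ} {s k : ℕ} (h : ¬ Ct l (s + 1) A B C)
    {x y z : ℤ} (hx : (l : ℤ) ^ (s + 2 * k) ∣ A * x ^ 2 + B * x + C)
    (hy : (l : ℤ) ^ (s + 2 * k) ∣ A * y ^ 2 + B * y + C)
    (hz : (l : ℤ) ^ (s + 2 * k) ∣ A * z ^ 2 + B * z + C) :
    (l : ℤ) ^ k ∣ x - y ∨ (l : ℤ) ^ k ∣ x - z ∨ (l : ℤ) ^ k ∣ y - z := by
  by_contra hn
  push Not at hn
  obtain ⟨n1, n2, n3⟩ := hn
  cases k with
  | zero => exact n1 (by simp)
  | succ m =>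
    have e : s + 2 * (m + 1) = s + 2 + m + m := by ring
    have h1 := tqd_diff hx hy
    have h2 := tqd_diff hx hz
    rw [e] at h1 h2
    have h3 := tqd_split hl _ _ _ _ h1 n1
    have h4 := tqd_split hl _ _ _ _ h2 n2
    have h5 := dvd_sub h3 h4
    rw [show A * (x + y) + B - (A * (x + z) + B) = (y - z) * A by ring] at h5
    have h6 : (l : ℤ) ^ (s + 1) ∣ A :=
      (pow_dvd_pow _ (by omega)).trans (tqd_split hl _ _ _ _ h5 n3)
    have h7 : (l : ℤ) ^ (s + 1) ∣ B :=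
      (dvd_add_right (h6.mul_right _)).1 ((pow_dvd_pow _ (by omega)).trans h3)
    exact h ⟨h6, h7, (dvd_add_right (dvd_add (h6.mul_right _) (h7.mul_right _))).1
      ((pow_dvd_pow _ (by omega)).trans hx)⟩

theorem ct_shift {l : ℕ} (hl : l.Prime) {A B C : ℤ} {s : ℕ} (h : ¬ Ct l (s + 1) A B C) (r : ℤ)
    (μ : ℕ) : ¬ Ct l (s + 2 * μ + 1) (A * (l : ℤ) ^ (2 * μ)) ((2 * A * r + B) * (l : ℤ) ^ μ)
      (A * r ^ 2 + B * r + C) := by
  rintro ⟨h1, h2, h3⟩
  have h0 : ∀ n : ℕ, (l : ℤ) ^ n ≠ 0 := fun n => pow_ne_zero _ (tqd_prime hl).ne_zero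
  rw [show s + 2 * μ + 1 = s + 1 + 2 * μ by ring, pow_add] at h1
  rw [show s + 2 * μ + 1 = s + 1 + μ + μ by ring, pow_add] at h2
  have h4 := (mul_dvd_mul_iff_right (h0 _)).1 h1
  have h5 : (l : ℤ) ^ (s + 1) ∣ B := (dvd_add_right ((h4.mul_left 2).mul_right r)).1
    ((pow_dvd_pow _ (by omega)).trans ((mul_dvd_mul_iff_right (h0 _)).1 h2))
  exact h ⟨h4, h5, (dvd_add_right (dvd_add (h4.mul_right _) (h5.mul_right _))).1
    ((pow_dvd_pow _ (by omega)).trans h3)⟩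

theorem tqd_om_per {d e A B C x y : ℤ} (h1 : d ∣ x - y)
    (h2 : ∃ y', d ∣ x - y' ∧ e ∣ A * y' ^ 2 + B * y' + C) :
    ∃ y', d ∣ y - y' ∧ e ∣ A * y' ^ 2 + B * y' + C := by
  obtain ⟨y', h3, h4⟩ := h2
  refine ⟨y', ?_, h4⟩
  have := dvd_sub h3 h1
  rwa [show x - y' - (x - y) = y - y' by ring] at this

theorem tqd_om {l : ℕ} (hl : l.Prime) {A B C : ℤ} {s : ℕ} (h : ¬ Ct l (s + 1) A B C) (k : ℕ) :
    cnt (l ^ k) (fun y => ∃ y', (l : ℤ) ^ k ∣ y - y' ∧
      (l : ℤ) ^ (s + 2 * k) ∣ A * y' ^ 2 + B * y' + C) ≤ 2 := by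
  refine cnt_le_two ?_
  rintro x y z ⟨x', x1, x2⟩ ⟨y', y1, y2⟩ ⟨z', z1, z2⟩
  have t : ∀ {a b a' b' : ℤ}, (l : ℤ) ^ k ∣ a - a' → (l : ℤ) ^ k ∣ b - b' →
      (l : ℤ) ^ k ∣ a' - b' → (l : ℤ) ^ k ∣ a - b := fun {a b a' b'} h1 h2 h3 => by
    have := dvd_add (dvd_sub h1 h2) h3
    rwa [show a - a' - (b - b') + (a' - b') = a - b by ring] at this
  push_cast
  exact (three_roots hl h x2 y2 z2).imp (t x1 y1) fun h' => h'.imp (t x1 z1) (t y1 z1)

/-- The level structure attached to a quadratic polynomial whose content has order at most `s`. -/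
theorem exists_qlev {l : ℕ} (hl : l.Prime) {A B C : ℤ} {s : ℕ} (h : ¬ Ct l (s + 1) A B C) :
    ∃ Ω : ℕ → ℤ → Prop, Lv l 1 Ω (fun k => k + 1) 2 ∧ ∀ y, A * y ^ 2 + B * y + C ≠ 0 →
      ∃ k, At Ω y k ∧ (l : ℤ) ^ k ∣ A * y ^ 2 + B * y + C ∧
        padicValInt l (A * y ^ 2 + B * y + C) ≤ s + 2 * k + 1 := by
  have : Fact l.Prime := ⟨hl⟩
  have hc := tqd_om hl h
  refine ⟨fun k y => ∃ y', (l : ℤ) ^ k ∣ y - y' ∧ (l : ℤ) ^ (s + 2 * k) ∣ A * y' ^ 2 + B * y' + C,
    ⟨fun k x y h1 h2 => tqd_om_per h1 h2, fun k _ => hc k, fun k => by positivity,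
      fun k => by rw [one_mul], by norm_num, ?_⟩, fun y hy => ?_⟩
  · have h1 := hc 1
    conv at h1 => rw [pow_one l]
    have h2 : (cnt l (fun y => ∃ y', (l : ℤ) ^ 1 ∣ y - y' ∧
      (l : ℤ) ^ (s + 2 * 1) ∣ A * y' ^ 2 + B * y' + C) : ℝ) ≤ 2 := by exact_mod_cast h1
    push_cast
    linarith
  have hv : ∀ n ≤ padicValInt l (A * y ^ 2 + B * y + C), (l : ℤ) ^ n ∣ A * y ^ 2 + B * y + C :=
    fun n hn => (padicValInt_dvd_iff n _).2 (Or.inr hn)
  generalize padicValInt l (A * y ^ 2 + B * y + C) = v at hv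
  by_cases h1 : s + 2 ≤ v
  · exact ⟨(v - s) / 2, ⟨fun e => by omega, fun _ => ⟨y, by simp, hv _ (by omega)⟩⟩,
      hv _ (by omega), by omega⟩
  by_cases h2 : ∃ y', (l : ℤ) ^ 1 ∣ y - y' ∧ (l : ℤ) ^ (s + 2 * 1) ∣ A * y' ^ 2 + B * y' + C
  · refine ⟨1, ⟨fun e => absurd e one_ne_zero, fun _ => h2⟩, ?_, by omega⟩
    obtain ⟨y', h3, h4⟩ := h2
    exact tqd_poly (dvd_sub_comm.1 h3) ((pow_dvd_pow _ (by omega)).trans h4)
  · exact ⟨0, ⟨fun _ => h2, fun e => absurd e (lt_irrefl 0)⟩, by simp, by omega⟩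

/-- The variant for primitive polynomials: level zero means coprime to `l`. -/
theorem exists_qlev' {l : ℕ} (hl : l.Prime) {A B C : ℤ} (h : ¬ Ct l 1 A B C) {K : ℝ}
    (hK : 1 ≤ K) : ∃ Ω : ℕ → ℤ → Prop,
      Lv l K Ω (fun k => if k = 0 then 1 else K * (k + 1)) (4 * K) ∧
      ∀ y, A * y ^ 2 + B * y + C ≠ 0 → ∃ k, At Ω y k ∧ (l : ℤ) ^ k ∣ A * y ^ 2 + B * y + C ∧
        padicValInt l (A * y ^ 2 + B * y + C) ≤ 2 * k + 1 ∧
        (k = 0 → ¬ (l : ℤ) ∣ A * y ^ 2 + B * y + C) := by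
  have : Fact l.Prime := ⟨hl⟩
  have hp := tqd_prime hl
  have hc := tqd_om hl (s := 0) h
  have hc1 : cnt l (fun y => (l : ℤ) ∣ A * y ^ 2 + B * y + C) ≤ 2 := by
    refine cnt_le_two fun x y z hx hy hz => ?_
    by_contra hn
    push Not at hn
    obtain ⟨n1, n2, n3⟩ := hn
    have h3 := (hp.dvd_or_dvd (tqd_diff hx hy)).resolve_left n1
    have h4 := (hp.dvd_or_dvd (tqd_diff hx hz)).resolve_left n2
    have h5 := dvd_sub h3 h4
    rw [show A * (x + y) + B - (A * (x + z) + B) = (y - z) * A by ring] at h5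
    have h6 := (hp.dvd_or_dvd h5).resolve_left n3
    have h7 := (dvd_add_right (h6.mul_right _)).1 h3
    have h8 := (dvd_add_right (dvd_add (h6.mul_right _) (h7.mul_right _))).1 hx
    exact h ⟨by rwa [pow_one], by rwa [pow_one], by rwa [pow_one]⟩
  obtain ⟨Ω, o1, o2⟩ : ∃ Ω : ℕ → ℤ → Prop, (Ω 1 = fun y => (l : ℤ) ∣ A * y ^ 2 + B * y + C) ∧
      ∀ k, k ≠ 1 → Ω k = fun y => ∃ y', (l : ℤ) ^ k ∣ y - y' ∧
        (l : ℤ) ^ (0 + 2 * k) ∣ A * y' ^ 2 + B * y' + C :=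
    ⟨fun k => if k = 1 then fun y => (l : ℤ) ∣ A * y ^ 2 + B * y + C else
      fun y => ∃ y', (l : ℤ) ^ k ∣ y - y' ∧ (l : ℤ) ^ (0 + 2 * k) ∣ A * y' ^ 2 + B * y' + C,
      if_pos rfl, fun k hk => if_neg hk⟩
  refine ⟨Ω, ⟨fun k x y h1 h2 => ?_, fun k _ => ?_, fun k => ?_, fun k => ?_, by simp, ?_⟩,
    fun y hy => ?_⟩
  · by_cases hk : k = 1
    · subst hk
      rw [o1] at h2 ⊢
      exact tqd_poly (by rwa [pow_one] at h1) h2
    · rw [o2 k hk] at h2 ⊢
      exact tqd_om_per h1 h2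
  · by_cases hk : k = 1
    · subst hk
      rw [o1, pow_one]
      exact hc1
    · rw [o2 k hk]
      exact hc k
  · split_ifs
    · exact zero_le_one
    · have : 0 ≤ K := by linarith
      positivity
  · split_ifs with hk
    · subst hk
      simpa using hK
    · exact le_rfl
  · rw [o1, if_neg one_ne_zero]
    have h2 : (cnt l (fun y => (l : ℤ) ∣ A * y ^ 2 + B * y + C) : ℝ) ≤ 2 := by exact_mod_cast hc1
    have h3 : (0 : ℝ) ≤ cnt l (fun y => (l : ℤ) ∣ A * y ^ 2 + B * y + C) := by positivity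
    push_cast
    nlinarith
  have hv : ∀ n, n ≤ padicValInt l (A * y ^ 2 + B * y + C) ↔
      (l : ℤ) ^ n ∣ A * y ^ 2 + B * y + C := fun n => by
    rw [padicValInt_dvd_iff, or_iff_right hy]
  generalize padicValInt l (A * y ^ 2 + B * y + C) = v at hv
  have hv1 := hv 1
  rw [pow_one] at hv1
  by_cases h1 : 4 ≤ v
  · refine ⟨v / 2, ⟨fun e => by omega, fun _ => ?_⟩, (hv _).1 (by omega), by omega,
      fun e => by omega⟩
    rw [o2 _ (by omega)]
    exact ⟨y, by simp, (hv _).1 (by omega)⟩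
  by_cases h2 : 1 ≤ v
  · refine ⟨1, ⟨fun e => absurd e one_ne_zero, fun _ => ?_⟩, (hv _).1 h2, by omega,
      fun e => absurd e one_ne_zero⟩
    rw [o1]
    exact hv1.1 h2
  · refine ⟨0, ⟨fun _ => ?_, fun e => absurd e (lt_irrefl 0)⟩, by simp, by omega,
      fun _ e => h2 (hv1.2 e)⟩
    rw [o1]
    exact fun e => h2 (hv1.2 e)

/-- The mean of `gcd (r ^ 2 - a, l ^ k)` for `a` of small order. -/
theorem sum_gcd_le {l : ℕ} (hl : l.Prime) (k : ℕ) {u : ℤ} (hu : ¬ (l : ℤ) ∣ u) :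
    ∑ r ∈ range (l ^ k), (Int.gcd ((r : ℤ) ^ 2 - 4 * u) (l ^ k) : ℝ) ≤
      8 * (k + 1) * (l : ℝ) ^ k := by
  classical
  have hp := tqd_prime hl
  have h8 : ∀ j, cnt (l ^ j) (fun r => (l : ℤ) ^ j ∣ r ^ 2 - 4 * u) ≤ 8 := by
    intro j
    by_cases h2 : l = 2
    · subst h2
      refine (cnt_sq_le' hl j 1 fun h => hu ?_).trans (by norm_num)
      obtain ⟨c, hc⟩ := h
      exact ⟨2 * c, by push_cast at hc ⊢; linarith⟩
    · refine (cnt_sq_le' hl j 0 fun h => ?_).trans (by norm_num)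
      have h3 : (l : ℤ) ∣ 2 * (2 * u) := by
        rw [← mul_assoc]
        exact (dvd_pow_self _ (by norm_num)).trans h
      exact hu ((hp.dvd_or_dvd ((hp.dvd_or_dvd h3).resolve_left (tqd_not_two hl h2))).resolve_left
        (tqd_not_two hl h2))
  have h1 : ∀ r ∈ range (l ^ k), (Int.gcd ((r : ℤ) ^ 2 - 4 * u) (l ^ k) : ℝ) ≤
      ∑ j ∈ range (k + 1), if (l : ℤ) ^ j ∣ (r : ℤ) ^ 2 - 4 * u then (l : ℝ) ^ j else 0 := by
    intro r _
    have h2 : Int.gcd ((r : ℤ) ^ 2 - 4 * u) (l ^ k) ∣ l ^ k := by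
      have := Int.gcd_dvd_right ((r : ℤ) ^ 2 - 4 * u) ((l : ℤ) ^ k)
      exact Int.natCast_dvd_natCast.1 (by rw [Nat.cast_pow]; exact this)
    obtain ⟨j, hj, e⟩ := (Nat.dvd_prime_pow hl).1 h2
    have h3 := Int.gcd_dvd_left ((r : ℤ) ^ 2 - 4 * u) ((l : ℤ) ^ k)
    rw [e] at h3 ⊢
    push_cast at h3 ⊢
    have h4 := single_le_sum (s := range (k + 1))
      (f := fun j => if (l : ℤ) ^ j ∣ (r : ℤ) ^ 2 - 4 * u then (l : ℝ) ^ j else 0)
      (fun j _ => by split_ifs <;> positivity) (mem_range.2 (Nat.lt_succ_of_le hj))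
    rwa [if_pos h3] at h4
  refine (sum_le_sum h1).trans ?_
  rw [sum_comm]
  refine (sum_le_card_nsmul _ _ (8 * (l : ℝ) ^ k) fun j hj => ?_).trans
    (le_of_eq (by rw [card_range, nsmul_eq_mul]; push_cast; ring))
  have hj' : j ≤ k := Nat.le_of_lt_succ (mem_range.1 hj)
  have h2 := tqd_per (pow_pos hl.pos j) (l ^ (k - j))
    (A := fun r => (l : ℤ) ^ j ∣ r ^ 2 - 4 * u) (fun _ h => h) fun x y h1 h3 => by
      push_cast at h1
      have := dvd_sub h3 (h1.mul_right (x + y))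
      rwa [show x ^ 2 - 4 * u - (x - y) * (x + y) = y ^ 2 - 4 * u by ring] at this
  rw [← pow_add, Nat.add_sub_cancel' hj'] at h2
  have h3 := h2.trans (Nat.mul_le_mul_left _ (h8 j))
  have h4 : ((range (l ^ k)).filter fun r : ℕ => (l : ℤ) ^ j ∣ (r : ℤ) ^ 2 - 4 * u).card ≤
      l ^ (k - j) * 8 := by
    rwa [tqd_cnt] at h3
  rw [← sum_filter, sum_const, nsmul_eq_mul]
  have h5 : (((range (l ^ k)).filter fun r : ℕ =>
      (l : ℤ) ^ j ∣ (r : ℤ) ^ 2 - 4 * u).card : ℝ) ≤ (l : ℝ) ^ (k - j) * 8 := by exact_mod_cast h4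
  calc _ ≤ (l : ℝ) ^ (k - j) * 8 * (l : ℝ) ^ j := by gcongr
    _ = 8 * (l : ℝ) ^ (k - j + j) := by rw [pow_add]; ring
    _ = _ := by rw [Nat.sub_add_cancel hj']

end Pool.Agent.EQ
end
end

-- part Pool.Agent.P.MP_ad7a55_nt.TShA
section

/-! The sieve in residue classes. -/

set_option autoImplicit false

noncomputable section

open Finset

namespace Pool.Agent.EQ

theorem tsha_exp {P : Finset ℕ} {c : ℕ → ℕ} {y : ℕ} (hP : ∀ l ∈ P, l.Prime ∧ l ≤ y)
    (hc : ∀ l ∈ P, c l ≤ 2) (hy : 1 ≤ y) :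
    Real.exp (∑ l ∈ P, (c l : ℝ) / l) ≤ 4 * Real.exp 14 * y := by
  have h14 : (1 : ℝ) ≤ Real.exp 14 := Real.one_le_exp (by norm_num)
  have hy' : (1 : ℝ) ≤ y := by exact_mod_cast hy
  rcases hy.eq_or_lt with h | h
  · have : P = ∅ := eq_empty_of_forall_notMem fun l hl => by
      have := (hP l hl).1.two_le
      have := (hP l hl).2
      omega
    rw [this, sum_empty, Real.exp_zero]
    nlinarith
  · have h1 : ∑ l ∈ P, (c l : ℝ) / l ≤ 2 * ∑ p ∈ Nat.primesLE y, 1 / (p : ℝ) := by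
      rw [mul_sum]
      refine (sum_le_sum fun l hl => ?_).trans (sum_le_sum_of_subset_of_nonneg
        (fun l hl => Nat.mem_primesLE.2 ⟨(hP l hl).2, (hP l hl).1⟩) fun _ _ _ => by positivity)
      rw [mul_one_div]
      have : (c l : ℝ) ≤ 2 := by exact_mod_cast hc l hl
      gcongr
    have h2 := Pool.Agent.Lib.Sieve.sum_inv_primes_le (y := y) h
    have hl : 0 < Real.log y := Real.log_pos (by exact_mod_cast h)
    have h3 : Real.log y ≤ (y : ℝ) ^ (1 / 2 : ℝ) / (1 / 2) :=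
      Real.log_le_rpow_div (by positivity) (by norm_num)
    have h4 : ((y : ℝ) ^ (1 / 2 : ℝ)) ^ 2 = y := by
      rw [← Real.rpow_natCast, ← Real.rpow_mul (by positivity)]; norm_num
    have h5 : Real.log y ^ 2 ≤ 4 * (y : ℝ) := by
      calc Real.log y ^ 2 ≤ ((y : ℝ) ^ (1 / 2 : ℝ) / (1 / 2)) ^ 2 := by gcongr
        _ = 4 * (y : ℝ) := by rw [div_pow, h4]; ring
    calc Real.exp (∑ l ∈ P, (c l : ℝ) / l)
        ≤ Real.exp (Real.log (Real.log y) + Real.log (Real.log y) + 14) :=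
          Real.exp_le_exp.2 (by linarith)
      _ = Real.log y ^ 2 * Real.exp 14 := by
          rw [Real.exp_add, Real.exp_add, Real.exp_log hl]; ring
      _ ≤ 4 * y * Real.exp 14 := by gcongr
      _ = _ := by ring

theorem tsha_class (P : Finset ℕ) (Ω : ℕ → ℤ → Prop) {m y : ℕ} (M : ℕ) (x₁ : ℤ) (S : Finset ℤ)
    (hy : 8 ≤ y) (hP : ∀ p ∈ P, p.Prime ∧ 4 ≤ p ∧ p ≤ y)
    (hco : ∀ p ∈ P, IsCoprime (m : ℤ) p)
    (hper : ∀ p ∈ P, ∀ x x', (p : ℤ) ∣ x - x' → Ω p x → Ω p x')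
    (hc : ∀ p ∈ P, cnt p (Ω p) ≤ 2)
    (hS : ∀ x ∈ S, ∃ t : ℕ, t < M ∧ x = x₁ + m * t ∧ ∀ p ∈ P, ¬ Ω p x) :
    (S.card : ℝ) ≤ 2 * M * Real.exp (-∑ p ∈ P, (cnt p (Ω p) : ℝ) / p) + 2 * (y : ℝ) ^ 36 := by
  classical
  let W : ℕ → Finset ℕ := fun p => (range p).filter fun i : ℕ => Ω p (x₁ + m * i)
  have hW : ∀ p ∈ P, (W p).card = cnt p (Ω p) := fun p hp => by
    rw [← cnt_affine (hP p hp).1.pos (hper p hp) x₁ (hco p hp)]
    rfl
  have h1 := Pool.Agent.Lib.Sieve.sieve_upper W P hy hP (fun p _ => filter_subset _ _)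
    (fun p hp => (hW p hp).le.trans (hc p hp)) M
  rw [sum_congr rfl fun p hp => by rw [hW p hp]] at h1
  refine le_trans ?_ h1
  have h2 : S ⊆ ((range M).filter fun n => ∀ p ∈ P, n % p ∉ W p).image
      fun t : ℕ => x₁ + m * t := by
    intro x hx
    obtain ⟨t, ht, e, h⟩ := hS x hx
    refine mem_image.2 ⟨t, mem_filter.2 ⟨mem_range.2 ht, fun p hp hm => h p hp ?_⟩, e.symm⟩
    refine hper p hp _ _ ?_ (mem_filter.1 hm).2
    refine ⟨-(m * (t / p : ℕ)), ?_⟩
    have := Nat.mod_add_div t p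
    have e2 : (t : ℤ) = (t % p : ℕ) + p * (t / p : ℕ) := by exact_mod_cast this.symm
    rw [e]
    linear_combination (-(m : ℤ)) * e2
  exact_mod_cast (card_le_card h2).trans card_image_le

theorem tsha_log {N j A : ℕ} {ε : ℝ} (hε : 0 < ε) (h : 2 ^ j ≤ N ^ A) :
    (j : ℝ) ≤ 2 * A * (N : ℝ) ^ ε / ε := by
  have h1 : (2 : ℝ) ^ j ≤ (N : ℝ) ^ A := by exact_mod_cast h
  have h2 := Real.log_le_log (by positivity) h1
  rw [Real.log_pow, Real.log_pow] at h2
  have h3 : Real.log N ≤ (N : ℝ) ^ ε / ε := Real.log_le_rpow_div (by positivity) hε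
  have h4 := Real.log_two_gt_d9
  have h5 : (A : ℝ) * Real.log N ≤ A * ((N : ℝ) ^ ε / ε) := by gcongr
  have h6 : (0 : ℝ) ≤ j := by positivity
  calc (j : ℝ) ≤ 2 * (j * Real.log 2) := by nlinarith
    _ ≤ 2 * (A * ((N : ℝ) ^ ε / ε)) := by linarith
    _ = _ := by ring

theorem tsha_pow (N n : ℕ) : ((N : ℝ) ^ (1 / 16 : ℝ)) ^ n = (N : ℝ) ^ ((n : ℝ) / 16) := by
  rw [← Real.rpow_natCast, ← Real.rpow_mul (by positivity)]
  congr 1
  ring

theorem tsha_div {N q : ℕ} (hN : 1 ≤ N) (h : N ≤ q ^ 4) :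
    (N : ℝ) / q + 1 ≤ 2 * ((N : ℝ) ^ (1 / 16 : ℝ)) ^ 12 := by
  set u := (N : ℝ) ^ (1 / 16 : ℝ) with hu
  have h1 : 1 ≤ u := Real.one_le_rpow (by exact_mod_cast hN) (by norm_num)
  have h2 : u ^ 16 = N := by rw [hu, tsha_pow]; norm_num
  have h3 : u ^ 4 ≤ q := by
    refine le_of_pow_le_pow_left₀ (n := 4) (by norm_num) (by positivity) ?_
    rw [← pow_mul, h2]
    exact_mod_cast h
  have h4 : (N : ℝ) / q ≤ u ^ 12 := by
    rw [div_le_iff₀ (lt_of_lt_of_le (by positivity) h3), ← h2]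
    calc u ^ 16 = u ^ 12 * u ^ 4 := by ring
      _ ≤ _ := by gcongr
  have h5 : 1 ≤ u ^ 12 := one_le_pow₀ h1
  linarith

theorem sieve_cls : ∃ C : ℝ, 0 < C ∧ ∀ (P Q : Finset ℕ) (Ω : ℕ → ℕ → ℤ → Prop) (k : ℕ → ℕ)
    (y N : ℕ) (x₀ : ℤ) (S : Finset ℤ), (∀ l ∈ P, l.Prime) → Q ⊆ P →
    (∀ l ∈ P, ∀ j x x', (l : ℤ) ^ j ∣ x - x' → Ω l j x → Ω l j x') →
    (∀ l ∈ P, cnt l (Ω l 1) ≤ 2) → 1 ≤ y → (∏ l ∈ Q, l ^ k l) * y ^ 37 ≤ N →
    (∀ x ∈ S, x₀ ≤ x ∧ x < x₀ + N ∧ (∀ l ∈ Q, Ω l (k l) x) ∧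
      ∀ l ∈ P, l ∉ Q → l ≤ y → ¬ Ω l 1 x) →
    (S.card : ℝ) ≤ C * N * (∏ l ∈ Q, (cnt (l ^ k l) (Ω l (k l)) : ℝ) / (l : ℝ) ^ k l) *
      Real.exp (-∑ l ∈ (P \ Q).filter (fun l => l ≤ y), (cnt l (Ω l 1) : ℝ) / l) := by
  classical
  refine ⟨4 * Real.exp 2 + 64 * Real.exp 14, by positivity, ?_⟩
  intro P Q Ω k y N x₀ S hP hQ hper hc hy hN hS
  set m := ∏ l ∈ Q, l ^ k l with hm
  have hm0 : 0 < m := prod_pos fun l hl => pow_pos (hP l (hQ hl)).pos _
  have hm' : (0 : ℝ) < m := by exact_mod_cast hm0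
  have hy' : (1 : ℝ) ≤ y := by exact_mod_cast hy
  have hN' : (m : ℝ) * (y : ℝ) ^ 37 ≤ N := by exact_mod_cast hN
  let A : ℤ → Prop := fun x => ∀ l ∈ Q, Ω l (k l) x
  have hA : ∀ x x', (m : ℤ) ∣ x - x' → A x → A x' := fun x x' h hx l hl => by
    refine hper l (hQ hl) _ _ _ (dvd_trans ?_ h) (hx l hl)
    exact_mod_cast Int.natCast_dvd_natCast.2 (dvd_prod_of_mem (fun l => l ^ k l) hl)
  have hcp : cnt m A = ∏ l ∈ Q, cnt (l ^ k l) (Ω l (k l)) :=
    cnt_prod Q (fun l hl => hP l (hQ hl)) k (fun l => Ω l (k l))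
      fun l hl x x' h => hper l (hQ hl) _ x x' h
  have hpr : ∏ l ∈ Q, (cnt (l ^ k l) (Ω l (k l)) : ℝ) / (l : ℝ) ^ k l = cnt m A / m := by
    rw [prod_div_distrib, hcp, hm]; push_cast; rfl
  set T := ∑ l ∈ (P \ Q).filter (fun l => l ≤ y), (cnt l (Ω l 1) : ℝ) / l with hT
  have hE : Real.exp T ≤ 4 * Real.exp 14 * y :=
    tsha_exp (c := fun l => cnt l (Ω l 1)) (fun l hl =>
      ⟨hP l (mem_sdiff.1 (mem_filter.1 hl).1).1, (mem_filter.1 hl).2⟩)
      (fun l hl => hc l (mem_sdiff.1 (mem_filter.1 hl).1).1) hy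
  have hE' : 1 ≤ 4 * Real.exp 14 * y * Real.exp (-T) := by
    rw [Real.exp_neg, ← div_eq_mul_inv, le_div_iff₀ (Real.exp_pos _), one_mul]
    exact hE
  have hD : (y : ℝ) ^ 37 ≤ N / m := by rw [le_div_iff₀ hm']; linarith
  have hD1 : (1 : ℝ) ≤ N / m := (one_le_pow₀ hy').trans hD
  have hc0 : (0 : ℝ) ≤ cnt m A := by positivity
  have hx0 := Real.exp_pos (-T)
  have h14 := Real.exp_pos 14
  have h2 := Real.exp_pos 2
  rw [hpr]
  have hgoal : ∀ B : ℝ, (S.card : ℝ) ≤ cnt m A * B →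
      B ≤ (4 * Real.exp 2 + 64 * Real.exp 14) * (N / m) * Real.exp (-T) →
      (S.card : ℝ) ≤ (4 * Real.exp 2 + 64 * Real.exp 14) * N * (cnt m A / m) * Real.exp (-T) := by
    intro B h1 h2
    refine h1.trans ((mul_le_mul_of_nonneg_left h2 hc0).trans_eq ?_)
    ring
  by_cases h8 : 8 ≤ y
  swap
  · refine hgoal _ (card_le_cnt hm0 hA x₀ N S fun x hx =>
      ⟨(hS x hx).1, (hS x hx).2.1, (hS x hx).2.2.1⟩) ?_
    have hy8 : (y : ℝ) ≤ 8 := by exact_mod_cast (not_le.1 h8).le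
    have h3 : 1 ≤ 32 * (Real.exp 14 * Real.exp (-T)) := by
      have := mul_pos h14 hx0
      nlinarith
    have h4 : 0 ≤ Real.exp 2 * (N / m) * Real.exp (-T) := by positivity
    nlinarith
  · let P' := (P \ Q).filter fun l => 4 ≤ l ∧ l ≤ y
    have hP' : ∀ l ∈ P', l ∈ P ∧ l ∉ Q ∧ 4 ≤ l ∧ l ≤ y := fun l hl =>
      ⟨(mem_sdiff.1 (mem_filter.1 hl).1).1, (mem_sdiff.1 (mem_filter.1 hl).1).2,
        (mem_filter.1 hl).2⟩
    set T' := ∑ l ∈ P', (cnt l (Ω l 1) : ℝ) / l with hT'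
    have hTT : T ≤ T' + 2 := by
      have e : T ≤ ∑ l ∈ P' ∪ ({2, 3} ∩ P), (cnt l (Ω l 1) : ℝ) / l := by
        refine sum_le_sum_of_subset_of_nonneg (fun l hl => ?_) fun _ _ _ => by positivity
        have h1 := mem_filter.1 hl
        have h2 := (hP l (mem_sdiff.1 h1.1).1).two_le
        by_cases h4 : 4 ≤ l
        · exact mem_union_left _ (mem_filter.2 ⟨h1.1, h4, h1.2⟩)
        · refine mem_union_right _ (mem_inter.2 ⟨?_, (mem_sdiff.1 h1.1).1⟩)
          simp only [mem_insert, mem_singleton]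
          omega
      have e2 : ∑ l ∈ ({2, 3} ∩ P : Finset ℕ), (cnt l (Ω l 1) : ℝ) / l ≤ 2 := by
        calc _ ≤ ∑ _l ∈ ({2, 3} ∩ P : Finset ℕ), (1 : ℝ) := by
              refine sum_le_sum fun l hl => ?_
              have h1 := (hP l (mem_inter.1 hl).2).two_le
              have h2 := hc l (mem_inter.1 hl).2
              exact div_le_one_of_le₀ (by exact_mod_cast h2.trans h1) (by positivity)
          _ ≤ 2 := by
              rw [sum_const, nsmul_eq_mul, mul_one]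
              exact_mod_cast (card_le_card inter_subset_left).trans card_le_two
      have e3 := sum_union_inter (s₁ := P') (s₂ := {2, 3} ∩ P)
        (f := fun l => (cnt l (Ω l 1) : ℝ) / l)
      have e4 : 0 ≤ ∑ l ∈ P' ∩ ({2, 3} ∩ P), (cnt l (Ω l 1) : ℝ) / l :=
        sum_nonneg fun _ _ => by positivity
      linarith
    have hco : ∀ p ∈ P', IsCoprime (m : ℤ) p := fun p hp => by
      rw [Nat.isCoprime_iff_coprime]
      refine Nat.Coprime.prod_left fun l hl => Nat.Coprime.pow_left _ ?_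
      exact (Nat.coprime_primes (hP l (hQ hl)) (hP p (hP' p hp).1)).2
        fun e => (hP' p hp).2.1 (e ▸ hl)
    let R := (range m).filter fun r : ℕ => A r
    have hR : R.card = cnt m A := by
      unfold cnt
      congr 1
      ext r
      simp only [R, mem_filter]
    have hmz : (0 : ℤ) < m := by exact_mod_cast hm0
    have hsub : S ⊆ R.biUnion fun r => S.filter fun x => (m : ℤ) ∣ x - r := by
      intro x hx
      have e : ((x % m).toNat : ℤ) = x % m := Int.toNat_of_nonneg (Int.emod_nonneg _ hmz.ne')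
      have hd : (m : ℤ) ∣ x - (x % m).toNat := by rw [e]; exact Int.dvd_self_sub_emod
      refine mem_biUnion.2 ⟨(x % m).toNat, mem_filter.2 ⟨mem_range.2 ?_, ?_⟩,
        mem_filter.2 ⟨hx, hd⟩⟩
      · have := Int.emod_lt_of_pos x hmz
        omega
      · exact hA _ _ hd (hS x hx).2.2.1
    have hone : ∀ r ∈ R, ((S.filter fun x => (m : ℤ) ∣ x - r).card : ℝ) ≤
        2 * (N / m + 1 : ℕ) * Real.exp (-T') + 2 * (y : ℝ) ^ 36 := by
      intro r _
      refine tsha_class P' (fun l => Ω l 1) (N / m + 1) (x₀ + (r - x₀) % m) _ h8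
        (fun p hp => ⟨hP p (hP' p hp).1, (hP' p hp).2.2⟩) hco
        (fun p hp x x' h => hper p (hP' p hp).1 1 x x' (by rwa [pow_one]))
        (fun p hp => hc p (hP' p hp).1) fun x hx => ?_
      obtain ⟨hx, hd⟩ := mem_filter.1 hx
      obtain ⟨a1, a2, -, a4⟩ := hS x hx
      have e0 : 0 ≤ (x - x₀) / m := Int.ediv_nonneg (by omega) hmz.le
      have e1 : (((x - x₀) / m).toNat : ℤ) = (x - x₀) / m := Int.toNat_of_nonneg e0
      refine ⟨((x - x₀) / m).toNat, ?_, ?_, fun p hp =>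
        a4 p (hP' p hp).1 (hP' p hp).2.1 (hP' p hp).2.2.2⟩
      · have e2 : (x - x₀) / m ≤ (N : ℤ) / m := Int.ediv_le_ediv hmz (by omega)
        have e3 : ((N / m : ℕ) : ℤ) = (N : ℤ) / m := Int.natCast_div _ _
        omega
      · have e2 : (r - x₀) % m = (x - x₀) % m := by
          refine (Int.emod_emod_of_dvd _ (dvd_refl _)).symm.trans ?_
          rw [Int.emod_emod_of_dvd _ (dvd_refl _)]
          exact (Int.modEq_iff_dvd.2 (by rwa [sub_sub_sub_cancel_right]))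
        rw [e1, e2]
        have := Int.emod_add_mul_ediv (x - x₀) m
        linarith
    refine hgoal (2 * (N / m + 1 : ℕ) * Real.exp (-T') + 2 * (y : ℝ) ^ 36) ?_ ?_
    · calc (S.card : ℝ) ≤ ∑ r ∈ R, ((S.filter fun x => (m : ℤ) ∣ x - r).card : ℝ) := by
            exact_mod_cast (card_le_card hsub).trans card_biUnion_le
        _ ≤ _ := (sum_le_card_nsmul _ _ _ hone).trans_eq (by rw [nsmul_eq_mul, hR])
    · have e1 : ((N / m + 1 : ℕ) : ℝ) ≤ 2 * (N / m) := by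
        have : ((N / m : ℕ) : ℝ) ≤ N / m := Nat.cast_div_le
        push_cast
        linarith
      have e2 : Real.exp (-T') ≤ Real.exp 2 * Real.exp (-T) := by
        rw [← Real.exp_add]
        exact Real.exp_le_exp.2 (by linarith)
      have e3 : (y : ℝ) ^ 36 ≤ 4 * Real.exp 14 * (N / m) * Real.exp (-T) := by
        calc (y : ℝ) ^ 36 ≤ (y : ℝ) ^ 36 * (4 * Real.exp 14 * y * Real.exp (-T)) :=
              le_mul_of_one_le_right (by positivity) hE'
          _ = 4 * Real.exp 14 * (y : ℝ) ^ 37 * Real.exp (-T) := by ring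
          _ ≤ _ := by gcongr
      have e4 : 2 * ((N / m + 1 : ℕ) : ℝ) * Real.exp (-T') ≤
          2 * (2 * (N / m)) * (Real.exp 2 * Real.exp (-T)) := by gcongr
      have e5 : 0 ≤ Real.exp 14 * (N / m) * Real.exp (-T) := by positivity
      nlinarith

theorem crude_one (A : ℕ) : ∃ C : ℝ, 0 < C ∧ ∀ (P : Finset ℕ) (Ω : ℕ → ℕ → ℤ → Prop) (N : ℕ)
    (x₀ : ℤ) (S : Finset ℤ), (∀ l ∈ P, l.Prime) →
    (∀ l ∈ P, ∀ j x x', (l : ℤ) ^ j ∣ x - x' → Ω l j x → Ω l j x') →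
    (∀ l ∈ P, ∀ j, 0 < j → cnt (l ^ j) (Ω l j) ≤ 2) →
    (∀ x ∈ S, x₀ ≤ x ∧ x < x₀ + N ∧
      ∃ l ∈ P, ∃ j, l ^ 8 ≤ N ∧ N ≤ (l ^ j) ^ 4 ∧ l ^ j ≤ N ^ A ∧ Ω l j x) →
    (S.card : ℝ) ≤ C * (N : ℝ) ^ (15 / 16 : ℝ) := by
  classical
  refine ⟨128 * A + 1, by positivity, ?_⟩
  intro P Ω N x₀ S hP hper hc hS
  rcases Nat.eq_zero_or_pos N with rfl | hN
  · have e : S = ∅ := eq_empty_of_forall_notMem fun x hx => by
      have := (hS x hx).1; have := (hS x hx).2.1; omega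
    simp [e]
  set u := (N : ℝ) ^ (1 / 16 : ℝ) with hu
  have h1 : 1 ≤ u := Real.one_le_rpow (by exact_mod_cast hN) (by norm_num)
  have h2 : u ^ 16 = N := by rw [hu, tsha_pow]; norm_num
  have h15 : (N : ℝ) ^ (15 / 16 : ℝ) = u ^ 15 := by rw [hu, tsha_pow]; norm_num
  let I := (Icc 1 ⌊u ^ 2⌋₊ ×ˢ Icc 1 ⌊32 * A * u⌋₊).filter fun t => t.1 ∈ P ∧ N ≤ (t.1 ^ t.2) ^ 4
  have hsub : S ⊆ I.biUnion fun t => S.filter fun x => Ω t.1 t.2 x := by
    intro x hx
    obtain ⟨-, -, l, hl, j, a1, a2, a3, a4⟩ := hS x hx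
    have hl2 := (hP l hl).two_le
    refine mem_biUnion.2 ⟨(l, j), mem_filter.2 ⟨mem_product.2 ⟨mem_Icc.2 ⟨by omega, ?_⟩,
      mem_Icc.2 ⟨?_, ?_⟩⟩, hl, a2⟩, mem_filter.2 ⟨hx, a4⟩⟩
    · refine Nat.le_floor (le_of_pow_le_pow_left₀ (n := 8) (by norm_num) (by positivity) ?_)
      rw [← pow_mul, h2]
      exact_mod_cast a1
    · refine Nat.pos_of_ne_zero fun e => ?_
      have : 2 ^ 8 ≤ l ^ 8 := Nat.pow_le_pow_left hl2 _
      have e' : j = 0 := e
      simp only [e', pow_zero, one_pow] at a2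
      omega
    · refine Nat.le_floor ((tsha_log (ε := 1 / 16) (by norm_num)
        ((Nat.pow_le_pow_left hl2 j).trans a3)).trans_eq ?_)
      rw [← hu]; ring
  have hone : ∀ t ∈ I, ((S.filter fun x => Ω t.1 t.2 x).card : ℝ) ≤ 4 * u ^ 12 := by
    intro t ht
    obtain ⟨a1, a2, a3⟩ := mem_filter.1 ht
    have b1 := card_le_cnt (pow_pos (hP _ a2).pos t.2) (A := Ω t.1 t.2)
      (fun x x' h => hper _ a2 _ x x' (by exact_mod_cast h)) x₀ N
      (S.filter fun x => Ω t.1 t.2 x) fun x hx =>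
        ⟨(hS x (mem_filter.1 hx).1).1, (hS x (mem_filter.1 hx).1).2.1, (mem_filter.1 hx).2⟩
    have b2 : (cnt (t.1 ^ t.2) (Ω t.1 t.2) : ℝ) ≤ 2 := by
      exact_mod_cast hc _ a2 _ (mem_Icc.1 (mem_product.1 a1).2).1
    have b3 := tsha_div hN a3
    calc _ ≤ _ := b1
      _ ≤ 2 * (2 * u ^ 12) := by gcongr
      _ = _ := by ring
  have hI : (I.card : ℝ) ≤ u ^ 2 * (32 * A * u) := by
    have b1 : I.card ≤ ⌊u ^ 2⌋₊ * ⌊32 * A * u⌋₊ :=
      (card_filter_le _ _).trans_eq (by simp)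
    have b2 : (⌊u ^ 2⌋₊ : ℝ) ≤ u ^ 2 := Nat.floor_le (by positivity)
    have b3 : (⌊32 * A * u⌋₊ : ℝ) ≤ 32 * A * u := Nat.floor_le (by positivity)
    calc (I.card : ℝ) ≤ ⌊u ^ 2⌋₊ * ⌊32 * A * u⌋₊ := by exact_mod_cast b1
      _ ≤ _ := by gcongr
  calc (S.card : ℝ) ≤ ∑ t ∈ I, ((S.filter fun x => Ω t.1 t.2 x).card : ℝ) := by
        exact_mod_cast (card_le_card hsub).trans card_biUnion_le
    _ ≤ I.card * (4 * u ^ 12) := (sum_le_card_nsmul _ _ _ hone).trans_eq (nsmul_eq_mul _ _)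
    _ ≤ u ^ 2 * (32 * A * u) * (4 * u ^ 12) := by gcongr
    _ = 128 * A * u ^ 15 := by ring
    _ ≤ _ := by rw [h15]; gcongr; linarith

theorem crude_two (y : ℕ) : ∃ C : ℝ, 0 < C ∧ ∀ (P : Finset ℕ) (Ω : ℕ → ℕ → ℤ → Prop) (N : ℕ)
    (x₀ : ℤ) (S : Finset ℤ), (∀ l ∈ P, l.Prime) →
    (∀ l ∈ P, ∀ j x x', (l : ℤ) ^ j ∣ x - x' → Ω l j x → Ω l j x') →
    (∀ l ∈ P, ∀ j, 0 < j → cnt (l ^ j) (Ω l j) ≤ 2) →
    (∀ x ∈ S, x₀ ≤ x ∧ x < x₀ + N ∧ ∃ m : ℕ, m ≠ 0 ∧ N ≤ m ^ 4 ∧ m ^ 2 ≤ N ∧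
      ∀ l ∈ m.primeFactors, l ∈ P ∧ l ≤ y ∧ Ω l (m.factorization l) x) →
    (S.card : ℝ) ≤ C * (N : ℝ) ^ (15 / 16 : ℝ) := by
  classical
  set ε : ℝ := 3 / (16 * (y + 1)) with hε
  have hε0 : 0 < ε := by positivity
  refine ⟨(2 / ε + 1) ^ (y + 1) * (2 ^ (y + 1) * 2), by positivity, ?_⟩
  intro P Ω N x₀ S hP hper hc hS
  rcases Nat.eq_zero_or_pos N with rfl | hN
  · have e : S = ∅ := eq_empty_of_forall_notMem fun x hx => by
      have := (hS x hx).1; have := (hS x hx).2.1; omega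
    simp [e]
  set u := (N : ℝ) ^ (1 / 16 : ℝ) with hu
  have h15 : (N : ℝ) ^ (15 / 16 : ℝ) = u ^ 15 := by rw [hu, tsha_pow]; norm_num
  set v := (N : ℝ) ^ ε with hv
  have hv1 : 1 ≤ v := Real.one_le_rpow (by exact_mod_cast hN) hε0.le
  have hvu : v ^ (y + 1) = u ^ 3 := by
    rw [hu, tsha_pow, hv, ← Real.rpow_natCast, ← Real.rpow_mul (by positivity), hε]
    congr 1
    push_cast
    field_simp
  let I := (range (N + 1)).filter fun m : ℕ =>
    m ≠ 0 ∧ N ≤ m ^ 4 ∧ ∀ l ∈ m.primeFactors, l ∈ P ∧ l ≤ y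
  let A : ℕ → ℤ → Prop := fun m x => ∀ l ∈ m.primeFactors, Ω l (m.factorization l) x
  have hsub : S ⊆ I.biUnion fun m => S.filter (A m) := by
    intro x hx
    obtain ⟨-, -, m, a1, a2, a3, a4⟩ := hS x hx
    refine mem_biUnion.2 ⟨m, mem_filter.2 ⟨mem_range.2 ?_, a1, a2, fun l hl =>
      ⟨(a4 l hl).1, (a4 l hl).2.1⟩⟩, mem_filter.2 ⟨hx, fun l hl => (a4 l hl).2.2⟩⟩
    have := Nat.le_self_pow (n := 2) (by norm_num) m
    omega
  have hone : ∀ m ∈ I, ((S.filter (A m)).card : ℝ) ≤ 2 ^ (y + 1) * (2 * u ^ 12) := by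
    intro m hm
    obtain ⟨-, a1, a2, a3⟩ := mem_filter.1 hm
    have e : ∏ l ∈ m.primeFactors, l ^ m.factorization l = m :=
      Nat.prod_factorization_pow_eq_self a1
    have b1 := card_le_cnt (Nat.pos_of_ne_zero a1) (A := A m)
      (fun x x' h hx l hl => hper l (a3 l hl).1 _ x x' (dvd_trans (by
        exact_mod_cast Int.natCast_dvd_natCast.2 (Nat.ordProj_dvd m l)) h) (hx l hl)) x₀ N
      (S.filter (A m)) fun x hx =>
        ⟨(hS x (mem_filter.1 hx).1).1, (hS x (mem_filter.1 hx).1).2.1, (mem_filter.1 hx).2⟩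
    have b2 := cnt_prod m.primeFactors (fun l hl => Nat.prime_of_mem_primeFactors hl)
      m.factorization (fun l => Ω l (m.factorization l))
      fun l hl x x' h => hper l (a3 l hl).1 _ x x' h
    rw [e] at b2
    have b3 : cnt m (A m) ≤ 2 ^ (y + 1) := by
      refine b2.le.trans ((prod_le_pow_card _ _ 2 fun l hl => hc l (a3 l hl).1 _ ?_).trans
        (Nat.pow_le_pow_right two_pos ?_))
      · exact (Nat.prime_of_mem_primeFactors hl).factorization_pos_of_dvd a1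
          (Nat.dvd_of_mem_primeFactors hl)
      · exact (card_le_card fun l hl => mem_range.2 (Nat.lt_succ_of_le (a3 l hl).2)).trans_eq
          (card_range _)
    have b4 : (cnt m (A m) : ℝ) ≤ 2 ^ (y + 1) := by exact_mod_cast b3
    have b5 := tsha_div hN a2
    exact b1.trans (by gcongr)
  have hI : (I.card : ℝ) ≤ (2 / ε + 1) ^ (y + 1) * u ^ 3 := by
    have b1 : I.card ≤ (Fintype.piFinset fun _ : Fin (y + 1) => range (⌊2 / ε * v⌋₊ + 1)).card := by
      refine card_le_card_of_injOn (fun m i => m.factorization i) (fun m hm => ?_)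
        fun m hm m' hm' e => ?_
      · obtain ⟨a0, a1, -, -⟩ := mem_filter.1 (mem_coe.1 hm)
        refine mem_coe.2 (Fintype.mem_piFinset.2 fun i => mem_range.2
          (Nat.lt_succ_of_le (Nat.le_floor ?_)))
        show (m.factorization i : ℝ) ≤ _
        by_cases hi : (i : ℕ).Prime
        · have b : 2 ^ m.factorization i ≤ N ^ 1 := by
            have := (Nat.pow_le_pow_left hi.two_le _).trans (Nat.ordProj_le (i : ℕ) a1)
            have := mem_range.1 a0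
            rw [pow_one]
            omega
          refine (tsha_log hε0 b).trans_eq ?_
          rw [← hv]; push_cast; ring
        · rw [Nat.factorization_eq_zero_of_not_prime _ hi, Nat.cast_zero]
          positivity
      · obtain ⟨-, a1, -, a3⟩ := mem_filter.1 (mem_coe.1 hm)
        obtain ⟨-, a1', -, a3'⟩ := mem_filter.1 (mem_coe.1 hm')
        refine Nat.eq_of_factorization_eq a1 a1' fun l => ?_
        by_cases hl : l ≤ y
        · exact congrFun e ⟨l, Nat.lt_succ_of_le hl⟩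
        · rw [Finsupp.notMem_support_iff.1 fun h => hl (a3 l h).2,
            Finsupp.notMem_support_iff.1 fun h => hl (a3' l h).2]
    rw [Fintype.card_piFinset, prod_const, card_range, card_univ, Fintype.card_fin] at b1
    have b2 : (⌊2 / ε * v⌋₊ : ℝ) ≤ 2 / ε * v := Nat.floor_le (by positivity)
    calc (I.card : ℝ) ≤ ((⌊2 / ε * v⌋₊ : ℝ) + 1) ^ (y + 1) := by exact_mod_cast b1
      _ ≤ ((2 / ε + 1) * v) ^ (y + 1) := by gcongr; linarith
      _ = _ := by rw [mul_pow, hvu]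
  calc (S.card : ℝ) ≤ ∑ m ∈ I, ((S.filter (A m)).card : ℝ) := by
        exact_mod_cast (card_le_card hsub).trans card_biUnion_le
    _ ≤ I.card * (2 ^ (y + 1) * (2 * u ^ 12)) :=
        (sum_le_card_nsmul _ _ _ hone).trans_eq (nsmul_eq_mul _ _)
    _ ≤ (2 / ε + 1) ^ (y + 1) * u ^ 3 * (2 ^ (y + 1) * (2 * u ^ 12)) := by gcongr
    _ = _ := by rw [h15]; ring

end Pool.Agent.EQ
end
end

-- part Pool.Agent.P.MP_ad7a55_nt.TShB
section

/-! Sums of multiplicative weights over smooth numbers. -/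

set_option autoImplicit false

noncomputable section

open Finset

namespace Pool.Agent.EQ

theorem euler_sum (P : Finset ℕ) (hP : ∀ l ∈ P, l.Prime) (g : ℕ → ℕ → ℝ) (hg : ∀ l k, 0 ≤ g l k)
    (u : ℕ → ℝ) (hu : ∀ l ∈ P, ∀ J : ℕ, ∑ k ∈ Icc 1 J, g l k ≤ u l) (M : Finset ℕ)
    (hM : ∀ m ∈ M, m ≠ 0 ∧ m.primeFactors ⊆ P) :
    ∑ m ∈ M, ∏ l ∈ m.primeFactors, g l (m.factorization l) ≤ Real.exp (∑ l ∈ P, u l) := by
  classical
  let J := M.sup id
  let g' : ℕ → ℕ → ℝ := fun l k => if k = 0 then 1 else g l k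
  have hg' : ∀ l k, 0 ≤ g' l k := fun l k => by
    simp only [g']; split_ifs; exacts [zero_le_one, hg l k]
  let φ : ℕ → ∀ l ∈ P, ℕ := fun m l _ => m.factorization l
  have h1 : ∀ m ∈ M, ∏ l ∈ m.primeFactors, g l (m.factorization l) =
      ∏ x ∈ P.attach, g' x.1 (φ m x.1 x.2) := fun m hm => by
    simp only [φ]
    rw [prod_attach P fun l => g' l (m.factorization l)]
    refine (prod_congr rfl fun l hl => ?_).trans (prod_subset (hM m hm).2 fun l _ hl => ?_)
    · exact (if_neg (Finsupp.mem_support_iff.1 hl)).symm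
    · exact if_pos (Finsupp.notMem_support_iff.1 hl)
  have h2 : Set.InjOn φ M := fun m hm n hn h => by
    refine Nat.eq_of_factorization_eq (hM m hm).1 (hM n hn).1 fun l => ?_
    by_cases hl : l ∈ P
    · exact congrFun (congrFun h l) hl
    · rw [Finsupp.notMem_support_iff.1 fun h => hl ((hM m hm).2 h),
        Finsupp.notMem_support_iff.1 fun h => hl ((hM n hn).2 h)]
  rw [sum_congr rfl h1, ← sum_image (f := fun p : ∀ l ∈ P, ℕ => ∏ x ∈ P.attach, g' x.1 (p x.1 x.2))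
    h2]
  calc _ ≤ ∑ p ∈ P.pi (fun _ => range (J + 1)), ∏ x ∈ P.attach, g' x.1 (p x.1 x.2) := by
        refine sum_le_sum_of_subset_of_nonneg (fun p hp => ?_) fun p _ _ =>
          prod_nonneg fun x _ => hg' _ _
        obtain ⟨m, hm, rfl⟩ := mem_image.1 hp
        refine mem_pi.2 fun l _ => mem_range.2 ?_
        have h3 : m ≤ J := le_sup (f := id) hm
        have h4 := Nat.factorization_lt l (hM m hm).1
        simp only [φ]
        omega
    _ = ∏ l ∈ P, ∑ k ∈ range (J + 1), g' l k := (prod_sum _ _ _).symm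
    _ ≤ _ := by
        rw [Real.exp_sum]
        refine prod_le_prod (fun l _ => sum_nonneg fun k _ => hg' _ _) fun l hl => ?_
        have h3 : ∑ k ∈ range (J + 1), g' l k = 1 + ∑ k ∈ Icc 1 J, g l k := by
          rw [range_eq_Ico, sum_eq_sum_Ico_succ_bot (Nat.succ_pos J), Nat.succ_eq_add_one,
            Ico_add_one_right_eq_Icc]
          congr 1
          exact sum_congr rfl fun k hk => if_neg (by have := (mem_Icc.1 hk).1; omega)
        linarith [hu l hl J, Real.add_one_le_exp (u l)]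

theorem tshb_local {K t : ℝ} (ht : 0 ≤ t) (ht1 : t ≤ 3 / 5) (G : ℕ → ℝ)
    (hG : ∀ k, 0 ≤ G k ∧ G k ≤ K * (k + 1)) (J : ℕ) :
    ∑ k ∈ Icc 1 J, G k * t ^ k ≤ G 1 * t + 30 * K * t ^ 2 := by
  have hK : 0 ≤ K := by simpa using (hG 0).1.trans (hG 0).2
  have h1 : ∀ j : ℕ, ((j : ℝ) + 3) * t ^ j ≤ 3 * (9 / 10) ^ j := fun j => by
    induction j with
    | zero => simp
    | succ j ih =>
      have h2 : 0 ≤ t ^ j := by positivity
      have h3 : (0 : ℝ) ≤ j := j.cast_nonneg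
      have h4 : ((j : ℝ) + 1 + 3) * t ≤ 9 / 10 * (j + 3) := by nlinarith
      push_cast
      rw [pow_succ, pow_succ]
      nlinarith [mul_le_mul_of_nonneg_left h4 h2]
  have h2 : ∀ J : ℕ, ∑ k ∈ Icc 1 (J + 1), G k * t ^ k ≤
      G 1 * t + 30 * K * t ^ 2 * (1 - (9 / 10) ^ J) := fun J => by
    induction J with
    | zero => simp
    | succ J ih =>
      rw [sum_Icc_succ_top (by omega)]
      have h3 : G (J + 1 + 1) * t ^ (J + 1 + 1) ≤ K * t ^ 2 * (3 * (9 / 10) ^ J) := by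
        calc _ ≤ K * ((J + 1 + 1 : ℕ) + 1) * t ^ (J + 1 + 1) :=
              mul_le_mul_of_nonneg_right (hG _).2 (by positivity)
          _ = K * t ^ 2 * ((J + 3) * t ^ J) := by push_cast; ring
          _ ≤ _ := mul_le_mul_of_nonneg_left (h1 J) (by positivity)
      rw [pow_succ (9 / 10 : ℝ)]
      linarith
  have h3 : 0 ≤ 30 * K * t ^ 2 := by positivity
  rcases J with _ | J
  · have := mul_nonneg (hG 1).1 ht
    simp only [Nat.lt_one_iff, pos_of_gt, Icc_eq_empty_of_lt, sum_empty]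
    linarith
  · refine (h2 J).trans ?_
    have : (0 : ℝ) ≤ (9 / 10) ^ J := by positivity
    nlinarith

theorem tshb_twist {K h : ℝ} (h1 : h ≤ 1 / 4) (P : Finset ℕ) (G : ℕ → ℕ → ℝ) (M : Finset ℕ)
    (hP : ∀ l ∈ P, l.Prime) (hG : ∀ l k, 0 ≤ G l k ∧ G l k ≤ K * (k + 1))
    (hM : ∀ m ∈ M, m ≠ 0 ∧ m.primeFactors ⊆ P) :
    ∑ m ∈ M, (∏ l ∈ m.primeFactors, G l (m.factorization l)) * (m : ℝ) ^ (h - 1) ≤
      Real.exp (90 * K) * Real.exp (∑ l ∈ P, G l 1 * (l : ℝ) ^ (h - 1)) := by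
  have hK : 0 ≤ K := by simpa using (hG 0 0).1.trans (hG 0 0).2
  have ht : ∀ l ∈ P, (l : ℝ) ^ (h - 1) ≤ (l : ℝ) ^ (-(3 / 4) : ℝ) := fun l hl =>
    Real.rpow_le_rpow_of_exponent_le (by exact_mod_cast (hP l hl).one_le) (by linarith)
  have h2 := euler_sum P hP (fun l k => G l k * ((l : ℝ) ^ (h - 1)) ^ k)
    (fun l k => mul_nonneg (hG l k).1 (by positivity))
    (fun l => G l 1 * (l : ℝ) ^ (h - 1) + 30 * K * ((l : ℝ) ^ (h - 1)) ^ 2)
    (fun l hl J => tshb_local (by positivity) ((ht l hl).trans (by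
      have h3 : (l : ℝ) ^ (-(3 / 4) : ℝ) ≤ (2 : ℝ) ^ (-(3 / 4) : ℝ) :=
        Real.rpow_le_rpow_of_nonpos (by norm_num) (by exact_mod_cast (hP l hl).two_le)
          (by norm_num)
      refine h3.trans (le_of_pow_le_pow_left₀ (n := 4) (by norm_num) (by norm_num) ?_)
      rw [← Real.rpow_natCast, ← Real.rpow_mul (by norm_num)]
      norm_num)) (G l) (hG l) J) M hM
  refine le_trans (le_of_eq (sum_congr rfl fun m hm => ?_)) (h2.trans ?_)
  · have hpr : (m : ℝ) = ∏ p ∈ m.primeFactors, (p : ℝ) ^ m.factorization p := by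
      exact_mod_cast (Nat.prod_factorization_pow_eq_self (hM m hm).1).symm
    rw [prod_mul_distrib]
    congr 1
    rw [hpr, ← Real.finsetProd_rpow _ _ fun p _ => by positivity]
    refine prod_congr rfl fun p _ => ?_
    rw [← Real.rpow_natCast, ← Real.rpow_natCast, ← Real.rpow_mul p.cast_nonneg,
      ← Real.rpow_mul p.cast_nonneg, mul_comm]
  · rw [← Real.exp_add, Real.exp_le_exp, sum_add_distrib, ← mul_sum]
    have h3 : ∑ l ∈ P, ((l : ℝ) ^ (h - 1)) ^ 2 ≤ 3 := by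
      calc _ ≤ ∑ l ∈ P, (l : ℝ) ^ (-(1 + 1 / 2) : ℝ) := by
            refine sum_le_sum fun l hl => (pow_le_pow_left₀ (by positivity) (ht l hl) 2).trans ?_
            rw [← Real.rpow_natCast, ← Real.rpow_mul l.cast_nonneg]
            norm_num
        _ ≤ ∑ l ∈ Ioc 0 (P.sup id), (l : ℝ) ^ (-(1 + 1 / 2) : ℝ) :=
            sum_le_sum_of_subset_of_nonneg (fun l hl => mem_Ioc.2
              ⟨(hP l hl).pos, le_sup (f := id) hl⟩) fun l _ _ => by positivity
        _ ≤ _ := (Pool.Agent.Lib.Sieve.sum_rpow_le (by norm_num) _).trans (by norm_num)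
    nlinarith

theorem rankin_sum (K : ℝ) : ∃ C : ℝ, 0 < C ∧ ∀ (P : Finset ℕ) (G : ℕ → ℕ → ℝ) (M : Finset ℕ),
    (∀ l ∈ P, l.Prime) → (∀ l k, 0 ≤ G l k ∧ G l k ≤ K * (k + 1)) →
    (∀ m ∈ M, m ≠ 0 ∧ m.primeFactors ⊆ P) →
    ∑ m ∈ M, (∏ l ∈ m.primeFactors, G l (m.factorization l)) / m ≤
      C * Real.exp (∑ l ∈ P, G l 1 / l) := by
  refine ⟨Real.exp (90 * K), Real.exp_pos _, fun P G M hP hG hM => ?_⟩
  simpa only [zero_sub, Real.rpow_neg_one, div_eq_mul_inv] using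
    tshb_twist (h := 0) (by norm_num) P G M hP hG hM

theorem rankin_tail (K L : ℝ) : ∃ (C : ℝ) (y₀ : ℕ), 0 < C ∧ 2 ≤ y₀ ∧ ∀ (P : Finset ℕ)
    (G : ℕ → ℕ → ℝ) (M : Finset ℕ) (y w : ℝ), y₀ ≤ y → 1 ≤ w → (∀ l ∈ P, l.Prime ∧ (l : ℝ) ≤ y) →
    (∀ l k, 0 ≤ G l k ∧ G l k ≤ K * (k + 1)) →
    (∀ m ∈ M, m ≠ 0 ∧ m.primeFactors ⊆ P ∧ w ≤ m) →
    ∑ m ∈ M, (∏ l ∈ m.primeFactors, G l (m.factorization l)) / m ≤
      C * Real.exp (-(L * Real.log w / Real.log y)) * Real.exp (∑ l ∈ P, G l 1 / l) := by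
  set L' := max L 0 with hL'
  have hL0 : 0 ≤ L' := le_max_right _ _
  refine ⟨Real.exp (90 * K) * Real.exp (2 * K * Real.exp L' * (L' + 1)),
    max 2 ⌈Real.exp (4 * L')⌉₊, by positivity, le_max_left _ _,
    fun P G M y w hy hw hP hG hM => ?_⟩
  have hK : 0 ≤ K := by simpa using (hG 0 0).1.trans (hG 0 0).2
  push_cast at hy
  have hy2 : 2 ≤ y := (le_max_left _ _).trans hy
  have hly : 0 < Real.log y := Real.log_pos (by linarith)
  have hy4 : 4 * L' ≤ Real.log y := (Real.le_log_iff_exp_le (by linarith)).2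
    ((Nat.le_ceil _).trans ((le_max_right _ _).trans hy))
  have hlw := Real.log_nonneg hw
  set h := L' / Real.log y with hh
  have h0 : 0 ≤ h := by positivity
  have h1 : h ≤ 1 / 4 := by rw [hh, div_le_iff₀ hly]; linarith
  have h2 := tshb_twist h1 P G M (fun l hl => (hP l hl).1) hG
    fun m hm => ⟨(hM m hm).1, (hM m hm).2.1⟩
  have h3 : ∑ l ∈ P, G l 1 * (l : ℝ) ^ (h - 1) ≤
      2 * K * Real.exp L' * (L' + 1) + ∑ l ∈ P, G l 1 / l := by
    have h4 : ∑ l ∈ P, Real.log l / l ≤ Real.log y + 4 := by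
      have h5 := Pool.Agent.Lib.Sieve.sum_log_div_le (N := ⌊y⌋₊) (Nat.le_floor (by
        push_cast; linarith))
      have h6 : Real.log ⌊y⌋₊ ≤ Real.log y := Real.log_le_log
        (by exact_mod_cast Nat.floor_pos.2 (by linarith)) (Nat.floor_le (by linarith))
      have h7 : ∑ l ∈ P, Real.log l / l ≤ ∑ l ∈ Nat.primesLE ⌊y⌋₊, Real.log l / l :=
        sum_le_sum_of_subset_of_nonneg (fun l hl => Nat.mem_primesLE.2
          ⟨Nat.le_floor (hP l hl).2, (hP l hl).1⟩) fun l _ _ =>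
          div_nonneg (Real.log_natCast_nonneg l) l.cast_nonneg
      linarith [Real.log_le_sub_one_of_pos (show (0 : ℝ) < 4 by norm_num)]
    calc _ ≤ ∑ l ∈ P, (2 * K * Real.exp L' * h * (Real.log l / l) + G l 1 / l) := by
          refine sum_le_sum fun l hl => ?_
          have hl0 : (0 : ℝ) < l := by exact_mod_cast (hP l hl).1.pos
          have hll := Real.log_natCast_nonneg l
          have h5 : Real.log l * h ≤ L' := by
            rw [hh, ← mul_div_assoc, div_le_iff₀ hly]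
            nlinarith [Real.log_le_log hl0 (hP l hl).2]
          have h6 : (l : ℝ) ^ h - 1 ≤ Real.exp L' * (Real.log l * h) := by
            rw [Real.rpow_def_of_pos hl0]
            have h7 := Real.add_one_le_exp (-(Real.log l * h))
            have h8 : Real.exp (Real.log l * h) * Real.exp (-(Real.log l * h)) = 1 := by
              rw [← Real.exp_add]; simp
            have h9 := Real.exp_le_exp.2 h5
            have h10 : 0 ≤ Real.log l * h := by positivity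
            nlinarith [Real.exp_pos (Real.log l * h)]
          have h7 : G l 1 ≤ 2 * K := by have := (hG l 1).2; push_cast at this; linarith
          have h8 : G l 1 * ((l : ℝ) ^ h - 1) ≤ 2 * K * (Real.exp L' * (Real.log l * h)) :=
            (mul_le_mul_of_nonneg_left h6 (hG l 1).1).trans
              (mul_le_mul_of_nonneg_right h7 (by positivity))
          rw [Real.rpow_sub_one hl0.ne', ← mul_div_assoc, ← mul_div_assoc, ← add_div]
          exact div_le_div_of_nonneg_right (by linarith) hl0.le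
      _ ≤ _ := by
          rw [sum_add_distrib, ← mul_sum]
          have h5 : h * ∑ l ∈ P, Real.log l / l ≤ L' + 1 := by
            have : h * Real.log y = L' := by rw [hh]; field_simp
            nlinarith [mul_le_mul_of_nonneg_left h4 h0]
          have h6 : 0 ≤ 2 * K * Real.exp L' := by positivity
          nlinarith [mul_le_mul_of_nonneg_left h5 h6]
  calc _ ≤ ∑ m ∈ M, Real.exp (-(L * Real.log w / Real.log y)) *
        ((∏ l ∈ m.primeFactors, G l (m.factorization l)) * (m : ℝ) ^ (h - 1)) := by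
        refine sum_le_sum fun m hm => ?_
        have hm0 : (0 : ℝ) < m := by exact_mod_cast Nat.pos_of_ne_zero (hM m hm).1
        have h4 : 1 ≤ Real.exp (-(L * Real.log w / Real.log y)) * (m : ℝ) ^ h := by
          rw [Real.rpow_def_of_pos hm0, ← Real.exp_add]
          refine Real.one_le_exp ?_
          have h5 : Real.log w ≤ Real.log m := Real.log_le_log (by linarith) (hM m hm).2.2
          have h6 : L * Real.log w / Real.log y ≤ Real.log w * h := by
            rw [hh, ← mul_div_assoc, mul_comm]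
            gcongr
            exact le_max_left _ _
          nlinarith
        have h5 : 0 ≤ (∏ l ∈ m.primeFactors, G l (m.factorization l)) / m :=
          div_nonneg (prod_nonneg fun l _ => (hG _ _).1) hm0.le
        rw [Real.rpow_sub_one hm0.ne']
        refine (le_mul_of_one_le_right h5 h4).trans (le_of_eq ?_)
        ring
    _ ≤ Real.exp (-(L * Real.log w / Real.log y)) * (Real.exp (90 * K) *
        Real.exp (2 * K * Real.exp L' * (L' + 1) + ∑ l ∈ P, G l 1 / l)) := by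
        rw [← mul_sum]
        exact mul_le_mul_of_nonneg_left (h2.trans (mul_le_mul_of_nonneg_left
          (Real.exp_le_exp.2 h3) (Real.exp_pos _).le)) (Real.exp_pos _).le
    _ = _ := by rw [Real.exp_add]; ring

end Pool.Agent.EQ
end
end

-- part Pool.Agent.P.MP_ad7a55_nt.Weak
section

/-! Weak convergence along a filter. -/

set_option autoImplicit false

noncomputable section

open MeasureTheory Topology Filter UpperHalfPlane
open scoped MatrixGroups ENNReal BoundedContinuousFunction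

namespace Pool.Agent.EQ

/-- Weak convergence of measures along a filter on `ℕ`. -/
def WT {W : Type} [TopologicalSpace W] [MeasurableSpace W] (L : Filter ℕ) (μ : ℕ → Measure W)
    (ν : Measure W) : Prop :=
  ∀ f : W →ᵇ ℝ, Tendsto (fun i => ∫ x, f x ∂μ i) L (𝓝 (∫ x, f x ∂ν))

variable {W : Type} [TopologicalSpace W] [PolishSpace W] [MeasurableSpace W] [BorelSpace W]
  {L : Filter ℕ} {μ : ℕ → Measure W} {ν : Measure W}

omit [PolishSpace W] in
theorem weak_aux1 [hμ : ∀ i, IsProbabilityMeasure (μ i)] [hν : IsProbabilityMeasure ν]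
    (h : WT L μ ν) :
    Tendsto (β := ProbabilityMeasure W) (fun i => ⟨μ i, hμ i⟩) L
      (@nhds (ProbabilityMeasure W) _ ⟨ν, hν⟩) :=
  (ProbabilityMeasure.tendsto_iff_forall_integral_tendsto (μs := fun i => ⟨μ i, hμ i⟩)
    (μ := ⟨ν, hν⟩)).2 h

theorem WT.open_le [L.NeBot] [∀ i, IsProbabilityMeasure (μ i)] [IsProbabilityMeasure ν]
    (h : WT L μ ν) {U : Set W} (hU : IsOpen U) {c : ℝ≥0∞} (hc : ∀ᶠ i in L, μ i U ≤ c) :
    ν U ≤ c := by
  have h1 : ν U ≤ L.liminf fun i => μ i U :=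
    ProbabilityMeasure.le_liminf_measure_open_of_tendsto (weak_aux1 h) hU
  exact h1.trans (liminf_le_of_frequently_le' hc.frequently)

theorem WT.closed_lt [∀ i, IsProbabilityMeasure (μ i)] [IsProbabilityMeasure ν]
    (h : WT L μ ν) {F : Set W} (hF : IsClosed F) {c : ℝ≥0∞} (hc : ν F < c) :
    ∀ᶠ i in L, μ i F < c := by
  have h1 : (L.limsup fun i => μ i F) ≤ ν F :=
    ProbabilityMeasure.limsup_measure_closed_le_of_tendsto (weak_aux1 h) hF
  exact eventually_lt_of_limsup_lt (h1.trans_lt hc)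

theorem WT.map {W' : Type} [TopologicalSpace W'] [MeasurableSpace W'] [BorelSpace W']
    (h : WT L μ ν) {F : W → W'} (hF : Continuous F) :
    WT L (fun i => (μ i).map F) (ν.map F) := by
  intro f
  have e : ∀ m : Measure W, ∫ x, f x ∂m.map F = ∫ x, f.compContinuous ⟨F, hF⟩ x ∂m := fun m =>
    integral_map hF.measurable.aemeasurable f.continuous.aestronglyMeasurable
  simp only [e]
  exact h _

theorem WT.unique [L.NeBot] {ν' : Measure W} [IsFiniteMeasure ν] [IsFiniteMeasure ν']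
    (h : WT L μ ν) (h' : WT L μ ν') : ν = ν' := by
  exact ext_of_forall_integral_eq_of_IsFiniteMeasure fun f => tendsto_nhds_unique (h f) (h' f)

/-- Weak convergence with a converging parameter. -/
theorem WT.param {T : Type} [TopologicalSpace T] [PolishSpace T]
    [∀ i, IsProbabilityMeasure (μ i)] [IsProbabilityMeasure ν] (h : WT L μ ν)
    {t : ℕ → T} {t₀ : T} (ht : Tendsto t L (𝓝 t₀)) (f : (T × W) →ᵇ ℝ) :
    Tendsto (fun i => ∫ x, f (t i, x) ∂μ i) L (𝓝 (∫ x, f (t₀, x) ∂ν)) := by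
  borelize T
  have h1 := ((continuous_diracProba (X := T)).tendsto t₀).comp ht
  have h2 := (ProbabilityMeasure.continuous_prod.tendsto _).comp (h1.prodMk_nhds (weak_aux1 h))
  have h3 := ProbabilityMeasure.tendsto_iff_forall_integral_tendsto.1 h2 f
  have e : ∀ (a : T) (m : Measure W) [IsProbabilityMeasure m],
      ∫ x, f x ∂(Measure.dirac a).prod m = ∫ x, f (a, x) ∂m := by
    intro a m _
    rw [Measure.dirac_prod]
    exact integral_map measurable_prodMk_left.aemeasurable f.continuous.aestronglyMeasurable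
  rw [← e]
  refine h3.congr fun i => ?_
  exact e _ _

/-- Two finite measures with the same integrals of compactly supported functions agree. -/
theorem ext_cc [LocallyCompactSpace W] {ν ν' : Measure W} [IsFiniteMeasure ν] [IsFiniteMeasure ν']
    (h : ∀ f : W →ᵇ ℝ, HasCompactSupport f → ∫ x, f x ∂ν = ∫ x, f x ∂ν') : ν = ν' := by
  exact Measure.ext_of_integral_eq_on_compactlySupported fun f =>
    h f.toBoundedContinuousFunction f.hasCompactSupport

theorem isClosed_Stab {H : Type} [Group H] [TopologicalSpace H] [FirstCountableTopology H]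
    [MulAction H W] [ContinuousSMul H W] (ρ : Measure W) [IsFiniteMeasure ρ] :
    IsClosed (Stab H ρ : Set H) := by
  have e : ∀ (g : H) (f : W →ᵇ ℝ), ∫ x, f x ∂ρ.map (fun w => g • w) = ∫ x, f (g • x) ∂ρ :=
    fun g f => integral_map (continuous_const_smul g).measurable.aemeasurable
      f.continuous.aestronglyMeasurable
  have h1 : (Stab H ρ : Set H) = ⋂ f : W →ᵇ ℝ, {g | ∫ x, f (g • x) ∂ρ = ∫ x, f x ∂ρ} := by
    ext g
    simp only [SetLike.mem_coe, mem_Stab, Set.mem_iInter, Set.mem_ofPred_eq]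
    constructor
    · intro hg f
      rw [← e, hg]
    · intro hg
      exact ext_of_forall_integral_eq_of_IsFiniteMeasure fun f => by rw [e, hg]
  rw [h1]
  refine isClosed_iInter fun f => isClosed_eq ?_ continuous_const
  refine continuous_of_dominated (bound := fun _ => ‖f‖) (fun g => ?_) (fun g => ?_)
    (integrable_const _) ?_
  · exact (f.continuous.comp (continuous_const_smul g)).aestronglyMeasurable
  · exact Eventually.of_forall fun x => f.norm_coe_le_norm _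
  · exact Eventually.of_forall fun x => f.continuous.comp (continuous_id.smul continuous_const)

end Pool.Agent.EQ
end
end

-- part Pool.Agent.P.MP_ad7a55_nt.XEb
section

/-! Comparison of conditional laws along a measure preserving map. -/

set_option autoImplicit false

noncomputable section

open Finset
open scoped Classical

namespace Pool.Agent.EQ

variable {α β β' Y δ : Type}

theorem xeb_cp (V : Finset α) (ξ : α → Y) (y : Y) :
    cp V (fun _ => ()) ξ () y = prb V (fun v => ξ v = y) := by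
  unfold cp prb
  simp

theorem xeb_pb (O : Finset α) (p : α → Prop) [DecidablePred p] :
    mn O (fun x => if p x then 1 else 0) = prb O p := by
  rw [pb_eq]
  exact congrArg (mn O) (funext fun x => by by_cases h : p x <;> simp [h])

theorem xeb_pairs (V : Finset α) (P : α × α → Prop) [DecidablePred P] (Q : α → α → Prop)
    (h : ∀ v v', P (v, v') ↔ Q v v') (hV : V.Nonempty) :
    mn V (fun v => prb V (Q v)) * (#V : ℝ) ^ 2 = #{z ∈ V ×ˢ V | P z} := by
  have hc : (0 : ℝ) < #V := by exact_mod_cast hV.card_pos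
  have e1 : (#{z ∈ V ×ˢ V | P z} : ℝ) = ∑ v ∈ V, (#{v' ∈ V | Q v v'} : ℝ) := by
    rw [card_filter, sum_product, Nat.cast_sum]
    refine sum_congr rfl fun v _ => ?_
    rw [card_filter]
    refine congrArg _ (sum_congr rfl fun v' _ => ?_)
    by_cases hq : Q v v'
    · rw [if_pos hq, if_pos ((h v v').2 hq)]
    · rw [if_neg hq, if_neg (fun e => hq ((h v v').1 e))]
  have e2 : ∀ S c : ℝ, c ≠ 0 → S / c / c * c ^ 2 = S := fun S c hc => by field_simp
  rw [e1]
  unfold mn prb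
  rw [← sum_div]
  exact e2 _ _ hc.ne'

theorem xeb_sub {ι : Type} [Fintype ι] [DecidableEq ι] {Λ : ι → Type} (V : Finset α)
    (l : ∀ q, α → Λ q) (S : Finset (∀ q, Λ q)) (h : ∀ y ∈ S, ∃ v ∈ V, (fun q => l q v) = y) :
    ∑ y ∈ S, ∏ q, prb V (fun v' => l q v' = y q) ≤ 1 := by
  refine le_trans (sum_le_sum_of_subset_of_nonneg
    (t := Fintype.piFinset fun q => V.image (l q)) (fun y hy => ?_)
    fun y _ _ => prod_nonneg fun q _ => pb_nonneg _ _) ?_
  · obtain ⟨v, hv, rfl⟩ := h y hy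
    exact Fintype.mem_piFinset.2 fun q => mem_image_of_mem _ hv
  rw [← prod_univ_sum (fun q => V.image (l q)) (fun q y => prb V fun v' => l q v' = y)]
  refine prod_le_one (fun q _ => sum_nonneg fun y _ => pb_nonneg _ _) fun q _ => ?_
  simpa only [xeb_cp] using sum_cp_le V (fun _ => ()) (l q) () (V.image (l q))

theorem xeb_inv {O : Finset α} (F : α → β) (ξ : α → Y) {s : ℝ} (hs : 0 < s)
    (hY : (#(O.image ξ) : ℝ) ≤ s) : mn O (fun x => s⁻¹ / cp O F ξ (F x) (ξ x)) ≤ 1 := by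
  refine mn_div_cp (w := fun _ _ => s⁻¹) (fun _ _ => by positivity) (fun b => ?_)
  rw [sum_const, nsmul_eq_mul]
  have h1 : (#(({z ∈ O | F z = b}).image ξ) : ℝ) ≤ #(O.image ξ) := by
    exact_mod_cast card_le_card (image_subset_image (filter_subset _ _))
  rw [← div_eq_mul_inv, div_le_one hs]
  exact h1.trans hY

theorem xeb_log {a s : ℝ} (ha : 0 < a) (hs : 0 < s) :
    -Real.log a ≤ Real.log s + s⁻¹ / a := by
  have h1 := Real.log_le_sub_one_of_pos (show 0 < s⁻¹ / a by positivity)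
  rw [Real.log_div (by positivity) ha.ne', Real.log_inv] at h1
  linarith

theorem xeb_good {O : Finset α} (hO : O.Nonempty) (F : α → β) (κ : α → β') (ξ : α → Y)
    (π : α → α) (Gd : α → Prop) (ix : α → δ) {A : ℝ} (hA : 1 ≤ A)
    (h1 : ∀ b, (#(({x ∈ O | Gd x ∧ F x = b}).image ix) : ℝ) ≤ A)
    (h2 : ∀ x ∈ O, ∀ x' ∈ O, Gd x → Gd x' → F x = F x' → ix x = ix x' →
      κ (π x) = κ (π x') ∧ (ξ (π x) = ξ (π x') ↔ ξ x = ξ x')) :
    mn O (fun x => if Gd x then
      A⁻¹ * cp O κ ξ (κ (π x)) (ξ (π x)) / cp O F ξ (F x) (ξ x) else 0) ≤ 1 := by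
  obtain ⟨x0, -⟩ := hO
  have hA0 : 0 < A := by linarith
  obtain ⟨k, hk⟩ : ∃ k : β → δ → β', ∀ x ∈ O, Gd x → k (F x) (ix x) = κ (π x) := by
    refine ⟨fun b i => if h : ∃ x ∈ O, Gd x ∧ F x = b ∧ ix x = i then κ (π h.choose)
      else κ (π x0), fun x hx hg => ?_⟩
    have h : ∃ x' ∈ O, Gd x' ∧ F x' = F x ∧ ix x' = ix x := ⟨x, hx, hg, rfl, rfl⟩
    simp only [dif_pos h]
    obtain ⟨e1, e2, e3, e4⟩ := h.choose_spec
    exact (h2 _ e1 _ hx e2 hg e3 e4).1
  let T : β → δ → Y → Finset Y := fun b i y =>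
    ({x ∈ O | Gd x ∧ F x = b ∧ ix x = i ∧ ξ x = y}).image fun x => ξ (π x)
  let w : β → Y → ℝ := fun b y => A⁻¹ * ∑ i ∈ ({x ∈ O | Gd x ∧ F x = b}).image ix,
    ∑ y' ∈ T b i y, cp O κ ξ (k b i) y'
  have w0 : ∀ b y, 0 ≤ w b y := fun b y =>
    mul_nonneg (by positivity) (sum_nonneg fun i _ => sum_nonneg fun y' _ => cp_nonneg _ _ _ _ _)
  refine le_trans (mn_mono fun x hx => ?_) (mn_div_cp (O := O) (F := F) (ξ := ξ) w0 fun b => ?_)
  · split_ifs with hg
    · refine div_le_div_of_nonneg_right (mul_le_mul_of_nonneg_left ?_ (by positivity))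
        (cp_nonneg _ _ _ _ _)
      have m1 : ix x ∈ ({z ∈ O | Gd z ∧ F z = F x}).image ix :=
        mem_image_of_mem _ (mem_filter.2 ⟨hx, hg, rfl⟩)
      have m2 : ξ (π x) ∈ T (F x) (ix x) (ξ x) :=
        mem_image_of_mem (fun x => ξ (π x)) (mem_filter.2 ⟨hx, hg, rfl, rfl, rfl⟩)
      refine le_trans ?_ (single_le_sum (f := fun i => ∑ y' ∈ T (F x) i (ξ x),
        cp O κ ξ (k (F x) i) y') (fun i _ => sum_nonneg fun y' _ => cp_nonneg _ _ _ _ _) m1)
      rw [← hk x hx hg]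
      exact single_le_sum (f := fun y' => cp O κ ξ (k (F x) (ix x)) y')
        (fun y' _ => cp_nonneg _ _ _ _ _) m2
    · exact div_nonneg (w0 _ _) (cp_nonneg _ _ _ _ _)
  · simp only [w]
    rw [← mul_sum, sum_comm, inv_mul_le_iff₀ hA0, mul_one]
    refine le_trans (sum_le_sum (g := fun _ => (1 : ℝ)) fun i _ => ?_) ?_
    · rw [← sum_biUnion]
      · exact sum_cp_le _ _ _ _ _
      · intro y _ y' _ hne
        rw [Function.onFun, disjoint_left]
        intro z hz hz'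
        obtain ⟨x, hx, rfl⟩ := mem_image.1 hz
        obtain ⟨x', hx', e⟩ := mem_image.1 hz'
        obtain ⟨m1, m2, m3, m4, m5⟩ := mem_filter.1 hx
        obtain ⟨n1, n2, n3, n4, n5⟩ := mem_filter.1 hx'
        have := (h2 x' n1 x m1 n2 m2 (n3.trans m3.symm) (n4.trans m4.symm)).2.1 e
        exact hne (by rw [← m5, ← n5, this])
    · rw [sum_const, nsmul_eq_mul, mul_one]
      exact h1 b

theorem xeb_one {V : Finset α} (hV : V.Nonempty) (l : α → Y) {s s' p : ℝ}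
    (hs : (#(V.image l) : ℝ) ≤ s) (h0 : 0 < s') (h1 : 1 ≤ s * s')
    (hp : p ≤ prb V fun v => s' < prb V fun v' => l v' = l v) :
    p * Real.log (s * s') - Real.log s - 1 ≤
      mn V fun v => Real.log (prb V fun v' => l v' = l v) := by
  have s0 : 0 < s := by
    by_contra h
    have := mul_nonpos_of_nonpos_of_nonneg (not_lt.1 h) h0.le
    linarith
  have hl : 0 ≤ Real.log (s * s') := Real.log_nonneg h1
  have k1 := xeb_inv (fun _ => ()) l s0 hs
  simp only [xeb_cp] at k1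
  have k2 : mn V (fun v => Real.log (s * s') *
      (if s' < prb V fun v' => l v' = l v then 1 else 0) +
        ((-1) * (s⁻¹ / prb V fun v' => l v' = l v) + -Real.log s)) ≤
      mn V fun v => Real.log (prb V fun v' => l v' = l v) := by
    refine mn_mono fun v hv => ?_
    have r0 : 0 < prb V fun v' => l v' = l v := by
      rw [← xeb_cp]
      exact cp_pos (F := fun _ => ()) hv
    split_ifs with hh
    · have e1 := Real.log_le_log h0 hh.le
      have e2 : 0 ≤ s⁻¹ / prb V fun v' => l v' = l v := by positivity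
      rw [Real.log_mul s0.ne' h0.ne']
      linarith
    · have := xeb_log r0 s0
      linarith
  rw [mn_add, mn_add, mn_mul, mn_mul, mn_const hV, xeb_pb] at k2
  have k3 := mul_le_mul_of_nonneg_left hp hl
  linarith

theorem compare_cp {O : Finset α} (hO : O.Nonempty) (F : α → β) (κ : α → β') (ξ : α → Y)
    {π : α → α} (h : ∀ x ∈ O, π x ∈ O) (hi : Set.InjOn π O) (Gd : α → Prop) (ix : α → δ)
    {A s t : ℝ} (hA : 1 ≤ A) (hs : 1 ≤ s) (ht : 0 < t) (hY : (#(O.image ξ) : ℝ) ≤ s)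
    (h1 : ∀ b, (#(({x ∈ O | Gd x ∧ F x = b}).image ix) : ℝ) ≤ A)
    (h2 : ∀ x ∈ O, ∀ x' ∈ O, Gd x → Gd x' → F x = F x' → ix x = ix x' →
      κ (π x) = κ (π x') ∧ (ξ (π x) = ξ (π x') ↔ ξ x = ξ x')) :
    prb O (fun x => cp O κ ξ (κ (π x)) (ξ (π x)) < Real.exp (-t) * cp O F ξ (F x) (ξ x)) ≤
      (ent O κ ξ - ent O F ξ + prb O (fun x => ¬ Gd x) * Real.log s + Real.log A + 2) / t := by
  have hA0 : 0 < A := by linarith
  have hs0 : 0 < s := by linarith
  set a : α → ℝ := fun x => cp O F ξ (F x) (ξ x) with ha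
  set c : α → ℝ := fun x => cp O κ ξ (κ (π x)) (ξ (π x)) with hc
  have a0 : ∀ x ∈ O, 0 < a x := fun x hx => cp_pos hx
  have c0 : ∀ x ∈ O, 0 < c x := fun x hx => cp_pos (h x hx)
  have lA : 0 ≤ Real.log A := Real.log_nonneg hA
  have ls : 0 ≤ Real.log s := Real.log_nonneg hs
  have k1 : prb O (fun x => c x < Real.exp (-t) * a x) ≤
      prb O (fun x => t ≤ max (Real.log (a x) - Real.log (c x)) 0) := by
    refine pb_mono fun x hx hlt => le_max_of_le_left ?_
    have := Real.log_le_log (c0 x hx) hlt.le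
    rw [Real.log_mul (Real.exp_pos _).ne' (a0 x hx).ne', Real.log_exp] at this
    linarith
  have k2 := pb_markov (O := O) (G := fun x => max (Real.log (a x) - Real.log (c x)) 0)
    (fun x _ => le_max_right _ _) ht
  refine k1.trans (k2.trans (div_le_div_of_nonneg_right ?_ ht.le))
  have k3 : mn O (fun x => max (Real.log (a x) - Real.log (c x)) 0) ≤
      mn O (fun x => (-Real.log (c x) + (-1) * (-Real.log (a x))) +
        (Real.log s * (if ¬ Gd x then 1 else 0) + (Real.log A +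
          ((if Gd x then A⁻¹ * c x / a x else 0) + s⁻¹ / a x)))) := by
    refine mn_mono fun x hx => ?_
    have e1 := a0 x hx
    have e2 := c0 x hx
    have e3 : 0 ≤ s⁻¹ / a x := by positivity
    have e4 : 0 ≤ A⁻¹ * c x / a x := by positivity
    by_cases hg : Gd x
    · have e5 := Real.log_le_sub_one_of_pos (show 0 < A⁻¹ * c x / a x by positivity)
      rw [Real.log_div (by positivity) e1.ne', Real.log_mul (by positivity) e2.ne',
        Real.log_inv] at e5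
      simp only [hg, not_true, if_true, if_false]
      exact max_le (by linarith) (by linarith)
    · have e5 := xeb_log e1 hs0
      have e6 : Real.log (c x) ≤ 0 := Real.log_nonpos e2.le (cp_le_one _ _ _ _ _)
      simp only [hg, not_false_iff, if_true, if_false]
      exact max_le (by linarith) (by linarith)
  rw [mn_add, mn_add, mn_add, mn_add, mn_add, mn_mul, mn_mul, mn_const hO, xeb_pb] at k3
  have k4 : mn O (fun x => -Real.log (c x)) = ent O κ ξ :=
    mn_perm h hi (fun x => -Real.log (cp O κ ξ (κ x) (ξ x)))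
  have k5 : mn O (fun x => -Real.log (a x)) = ent O F ξ := rfl
  have k6 : mn O (fun x => if Gd x then A⁻¹ * c x / a x else 0) ≤ 1 :=
    xeb_good hO F κ ξ π Gd ix hA h1 h2
  have k7 : mn O (fun x => s⁻¹ / a x) ≤ 1 := xeb_inv F ξ hs0 hY
  rw [k4, k5] at k3
  linarith

theorem collide {Λ : ℕ → Type} {V : Finset α} (hV : V.Nonempty) (B : Finset ℕ)
    (lab : ∀ q, α → Λ q) (s s' p : ℕ → ℝ) (hs : ∀ q ∈ B, (#(V.image (lab q)) : ℝ) ≤ s q)
    (hs' : ∀ q ∈ B, 0 < s' q ∧ 1 ≤ s q * s' q)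
    (hp : ∀ q ∈ B, p q ≤ prb V fun v => s' q < prb V fun v' => lab q v' = lab q v) :
    Real.exp (∑ q ∈ B, (p q * Real.log (s q * s' q) - Real.log (s q) - 1)) * (#V : ℝ) ^ 2 ≤
      #{z ∈ V ×ˢ V | ∀ q ∈ B, lab q z.1 = lab q z.2} := by
  have hc : (0 : ℝ) < #V := by exact_mod_cast hV.card_pos
  let J : α → ∀ q : B, Λ q := fun v q => lab q v
  set ρ : α → ℝ := fun v => prb V fun v' => J v' = J v with hρ
  set r : ℕ → α → ℝ := fun q v => prb V fun v' => lab q v' = lab q v with hr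
  have ρ0 : ∀ v ∈ V, 0 < ρ v := fun v hv => by
    simp only [hρ, ← xeb_cp]
    exact cp_pos (F := fun _ => ()) hv
  have r0 : ∀ q, ∀ v ∈ V, 0 < r q v := fun q v hv => by
    simp only [hr, ← xeb_cp]
    exact cp_pos (F := fun _ => ()) hv
  have k1 : ∑ q ∈ B, (p q * Real.log (s q * s' q) - Real.log (s q) - 1) ≤
      mn V fun v => ∑ q ∈ B, Real.log (r q v) := by
    rw [mn_sum]
    exact sum_le_sum fun q hq => xeb_one hV (lab q) (hs q hq) (hs' q hq).1 (hs' q hq).2 (hp q hq)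
  have k2 : mn V (fun v => (∏ q : B, r q v) / ρ v) ≤ 1 := by
    have := mn_div_cp (O := V) (F := fun _ => ()) (ξ := J)
      (w := fun _ y => ∏ q : B, prb V fun v' => lab q v' = y q)
      (fun _ y => prod_nonneg fun q _ => pb_nonneg _ _) (fun b => ?_)
    · simpa only [xeb_cp] using this
    · refine xeb_sub V (fun q : B => lab q) _ fun y hy => ?_
      simp only [mem_image, mem_filter] at hy
      obtain ⟨v, ⟨hv, -⟩, e⟩ := hy
      exact ⟨v, hv, e⟩
  have k3 : mn V (fun v => ∑ q ∈ B, Real.log (r q v)) ≤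
      mn V (fun v => Real.log (ρ v) + ((∏ q : B, r q v) / ρ v + -1)) := by
    refine mn_mono fun v hv => ?_
    have e1 : 0 < ∏ q : B, r q v := prod_pos fun q _ => r0 q v hv
    have e2 := Real.log_le_sub_one_of_pos (div_pos e1 (ρ0 v hv))
    rw [Real.log_div e1.ne' (ρ0 v hv).ne', Real.log_prod (fun (q : B) _ => (r0 q v hv).ne'),
      sum_coe_sort B (fun q => Real.log (r q v))] at e2
    linarith
  rw [mn_add, mn_add, mn_const hV] at k3
  set m : ℝ := mn V fun v => Real.log (ρ v) with hm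
  have k4 : Real.exp m ≤ mn V ρ := by
    have e1 : mn V (fun v => Real.exp m * (Real.log (ρ v) + (1 - m))) ≤ mn V ρ := by
      refine mn_mono fun v hv => ?_
      have e2 := Real.add_one_le_exp (Real.log (ρ v) - m)
      have e3 : ρ v = Real.exp m * Real.exp (Real.log (ρ v) - m) := by
        rw [← Real.exp_add, add_sub_cancel, Real.exp_log (ρ0 v hv)]
      calc _ ≤ Real.exp m * Real.exp (Real.log (ρ v) - m) :=
            mul_le_mul_of_nonneg_left (by linarith) (Real.exp_pos _).le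
        _ = ρ v := e3.symm
    rw [mn_mul, mn_add, mn_const hV, ← hm] at e1
    simpa using e1
  have k5 : mn V ρ * (#V : ℝ) ^ 2 = #{z ∈ V ×ˢ V | ∀ q ∈ B, lab q z.1 = lab q z.2} :=
    xeb_pairs V _ (fun v v' => J v' = J v) (fun v v' => ⟨fun h => funext fun q => (h q q.2).symm,
      fun h q hq => (congrFun h ⟨q, hq⟩).symm⟩) hV
  rw [← k5]
  refine mul_le_mul_of_nonneg_right (le_trans (Real.exp_le_exp.2 ?_) k4) (by positivity)
  linarith

end Pool.Agent.EQ
end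
end

-- part Pool.Agent.P.MP_ad7a55_nt.XEc
section

/-! Second moment transfer, tuples, large deviations. -/

set_option autoImplicit false

noncomputable section

open Finset
open scoped Classical

namespace Pool.Agent.EQ

variable {α β Λ : Type}

/-- The number of points with a given label. -/
def xecN (O : Finset α) (In : α → Prop) (lab : α → Λ) (l : Λ) : ℝ :=
  ∑ x ∈ O, if In x ∧ lab x = l then 1 else 0

theorem xec_nonneg (O : Finset α) (In : α → Prop) (lab : α → Λ) (l : Λ) : 0 ≤ xecN O In lab l :=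
  sum_nonneg fun _ _ => by split_ifs <;> norm_num

theorem xec_pb (O : Finset α) (p : α → Prop) [DecidablePred p] :
    prb O p = (∑ x ∈ O, if p x then (1 : ℝ) else 0) / #O := by
  rw [pb_eq, mn]
  congr 1
  exact sum_congr rfl fun x _ => by by_cases h : p x <;> simp [h]

theorem xec_pbN (O : Finset α) (In : α → Prop) (lab : α → Λ) (l : Λ) :
    prb O (fun x' => In x' ∧ lab x' = l) = xecN O In lab l / #O := xec_pb _ _

theorem xec_fib (O : Finset α) (In : α → Prop) (lab : α → Λ) (B : Finset Λ) (G : Λ → ℝ) :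
    ∑ x ∈ O, (if In x ∧ lab x ∈ B then G (lab x) else 0) = ∑ l ∈ B, xecN O In lab l * G l := by
  simp only [xecN, sum_mul]
  rw [sum_comm]
  refine sum_congr rfl fun x _ => ?_
  by_cases h : In x
  · simp [h]
  · simp [h]

theorem xec_pair (O : Finset α) (In : α → Prop) (lab : α → Λ) :
    (#{z ∈ O ×ˢ O | In z.1 ∧ In z.2 ∧ lab z.1 = lab z.2} : ℝ)
      = ∑ x ∈ O, if In x then xecN O In lab (lab x) else 0 := by
  rw [card_filter]
  push_cast
  rw [sum_product]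
  refine sum_congr rfl fun x _ => ?_
  by_cases h : In x
  · rw [if_pos h, xecN]
    refine sum_congr rfl fun y _ => ?_
    simp only [h, true_and, eq_comm]
  · simp [h]

theorem transfer (O : Finset α) (In : α → Prop) (lab : α → Λ) (B : Finset Λ) {s : ℝ}
    (h : (#{z ∈ O ×ˢ O | In z.1 ∧ In z.2 ∧ lab z.1 = lab z.2} : ℝ) ≤ s * (#O : ℝ) ^ 2)
    (hs : 0 ≤ s) : prb O (fun x => In x ∧ lab x ∈ B) ^ 2 ≤ #B * s := by
  rw [xec_pair] at h
  have e1 := xec_fib O In lab B fun _ => 1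
  have e2 := xec_fib O In lab B (xecN O In lab)
  have e3 : ∑ l ∈ B, xecN O In lab l ^ 2 ≤ s * (#O : ℝ) ^ 2 := by
    refine le_trans ?_ h
    simp only [sq]
    rw [← e2]
    refine sum_le_sum fun x _ => ?_
    have := xec_nonneg O In lab (lab x)
    by_cases h1 : In x <;> by_cases h2 : lab x ∈ B <;> simp [h1, h2, this]
  rw [xec_pb, e1, div_pow]
  simp only [mul_one]
  refine div_le_of_le_mul₀ (by positivity) (by positivity) ?_
  refine sq_sum_le_card_mul_sum_sq.trans ?_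
  rw [mul_assoc]
  exact mul_le_mul_of_nonneg_left e3 (by positivity)

theorem atypical (O : Finset α) (In : α → Prop) (lab : α → Λ) {s t : ℝ}
    (h : (#{z ∈ O ×ˢ O | In z.1 ∧ In z.2 ∧ lab z.1 = lab z.2} : ℝ) ≤ s * (#O : ℝ) ^ 2)
    (hs : 0 ≤ s) (ht : 0 < t) :
    prb O (fun x => In x ∧ t < prb O fun x' => In x' ∧ lab x' = lab x) ≤ s / t := by
  rw [xec_pair] at h
  have h1 := pb_markov (O := O) (G := fun x => (if In x then xecN O In lab (lab x) else 0) / #O)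
    (fun x _ => by
      have := xec_nonneg O In lab (lab x)
      split_ifs <;> positivity) ht
  refine le_trans (pb_mono fun x _ hx => ?_) (h1.trans ?_)
  · rw [if_pos hx.1, ← xec_pbN]
    exact hx.2.le
  · refine div_le_div_of_nonneg_right ?_ ht.le
    rw [mn, ← sum_div, div_div, ← sq]
    exact div_le_of_le_mul₀ (by positivity) hs h

theorem typical (O : Finset α) (In : α → Prop) (lab : α → Λ) (B : Finset Λ) {t : ℝ} (ht : 0 ≤ t) :
    prb O (fun x => In x ∧ (prb O fun x' => In x' ∧ lab x' = lab x) ≤ t ∧ lab x ∈ B) ≤ #B * t := by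
  have e1 := xec_fib O In lab {l ∈ B | xecN O In lab l / #O ≤ t} fun _ => 1
  refine le_trans (pb_mono (p' := fun x => In x ∧ lab x ∈ {l ∈ B | xecN O In lab l / #O ≤ t})
    fun x _ hx => ⟨hx.1, mem_filter.2 ⟨hx.2.2, by rw [← xec_pbN]; exact hx.2.1⟩⟩) ?_
  rw [xec_pb, e1, sum_div]
  refine (sum_le_card_nsmul _ _ t fun l hl => ?_).trans ?_
  · rw [mul_one]
    exact (mem_filter.1 hl).2
  · rw [nsmul_eq_mul]
    exact mul_le_mul_of_nonneg_right (by exact_mod_cast card_filter_le _ _) ht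

theorem tuples (V : Finset α) (B : Finset β) (W : β → Finset α) {e : ℝ} (he : 0 ≤ e)
    (h : ∀ q ∈ B, W q ⊆ V ∧ e * #V ≤ #(W q)) (hB : B.Nonempty) (r : ℕ) :
    e ^ r / 2 * (#V : ℝ) ^ r ≤ #{t ∈ Fintype.piFinset fun _ : Fin r => V |
      e ^ r / 2 * #B ≤ #{q ∈ B | ∀ i, t i ∈ W q}} := by
  have hB0 : (0 : ℝ) < #B := by exact_mod_cast hB.card_pos
  have hP : (#(Fintype.piFinset fun _ : Fin r => V) : ℝ) = (#V : ℝ) ^ r := by
    rw [Fintype.card_piFinset]
    simp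
  rcases (show (0 : ℝ) ≤ (#V : ℝ) ^ r by positivity).eq_or_lt with h0 | h0
  · rw [← h0, mul_zero]
    positivity
  have h1 := pb_rev (O := Fintype.piFinset fun _ : Fin r => V)
    (G := fun t => (#{q ∈ B | ∀ i, t i ∈ W q} : ℝ)) (t := e ^ r / 2 * #B) hB0
    (fun t _ => by exact_mod_cast card_filter_le _ _) (by positivity)
  have h2 : #B * (e ^ r * (#V : ℝ) ^ r)
      ≤ ∑ t ∈ Fintype.piFinset fun _ : Fin r => V, (#{q ∈ B | ∀ i, t i ∈ W q} : ℝ) := by
    simp only [card_filter]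
    push_cast
    rw [sum_comm, ← nsmul_eq_mul]
    refine card_nsmul_le_sum _ _ _ fun q hq => ?_
    rw [sum_boole]
    have e1 : {t ∈ Fintype.piFinset fun _ : Fin r => V | ∀ i, t i ∈ W q}
        = Fintype.piFinset fun _ : Fin r => W q := by
      ext t
      simp only [mem_filter, Fintype.mem_piFinset]
      exact ⟨fun h' => h'.2, fun h' => ⟨fun i => (h q hq).1 (h' i), h'⟩⟩
    rw [e1, Fintype.card_piFinset, ← mul_pow]
    simp only [prod_const, card_univ, Fintype.card_fin, Nat.cast_pow]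
    exact pow_le_pow_left₀ (by positivity) (h q hq).2 r
  have h3 : #B * e ^ r ≤ mn (Fintype.piFinset fun _ : Fin r => V)
      (fun t => (#{q ∈ B | ∀ i, t i ∈ W q} : ℝ)) := by
    rw [mn, hP, le_div_iff₀ h0, mul_assoc]
    exact h2
  have h4 : e ^ r / 2 ≤ (mn (Fintype.piFinset fun _ : Fin r => V)
      (fun t => (#{q ∈ B | ∀ i, t i ∈ W q} : ℝ)) - e ^ r / 2 * #B) / #B := by
    rw [le_div_iff₀ hB0]
    linarith
  have h5 := h4.trans h1
  rw [prb, hP, le_div_iff₀ h0] at h5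
  exact h5

theorem xec_prod {ι : Type} [Fintype ι] [DecidableEq ι] (X : ι → Finset α) (g : ι → α → ℝ) :
    mn (Fintype.piFinset X) (fun ω => ∏ i, g i (ω i)) = ∏ i, mn (X i) (g i) := by
  unfold mn
  rw [prod_div_distrib, prod_univ_sum, Fintype.card_piFinset]
  push_cast
  rfl

theorem xec_exp {X : Finset α} (hX : X.Nonempty) {Y : α → ℝ} (h1 : ∀ a ∈ X, |Y a| ≤ 1) {c : ℝ}
    (hc : 0 ≤ c) (hc1 : c ≤ 1 / 2) :
    mn X (fun a => Real.exp (c * (Y a - mn X Y))) ≤ Real.exp (4 * c ^ 2) := by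
  have hm : |mn X Y| ≤ 1 :=
    (abs_mn_le X Y).trans ((mn_mono h1).trans (mn_const hX 1).le)
  have h2 : ∀ a ∈ X, Real.exp (c * (Y a - mn X Y))
      ≤ c * Y a + (1 + 4 * c ^ 2 - c * mn X Y) := fun a ha => by
    have b1 : |Y a - mn X Y| ≤ 2 := (abs_sub _ _).trans (by linarith [h1 a ha])
    have b2 : |c * (Y a - mn X Y)| ≤ c * 2 := by
      rw [abs_mul, abs_of_nonneg hc]
      exact mul_le_mul_of_nonneg_left b1 hc
    have b3 := (abs_le.1 (Real.abs_exp_sub_one_sub_id_le (b2.trans (by linarith)))).2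
    have b4 : (c * (Y a - mn X Y)) ^ 2 ≤ (c * 2) ^ 2 := by
      rw [← sq_abs]
      exact pow_le_pow_left₀ (abs_nonneg _) b2 2
    nlinarith
  refine (mn_mono h2).trans ?_
  rw [mn_add X (fun a => c * Y a) (fun _ => 1 + 4 * c ^ 2 - c * mn X Y), mn_mul, mn_const hX]
  linarith [Real.add_one_le_exp (4 * c ^ 2)]

theorem xec_one {M : ℕ} (X : Fin M → Finset α) (hX : ∀ i, (X i).Nonempty) (Y : Fin M → α → ℝ)
    (h1 : ∀ i, ∀ a ∈ X i, |Y i a| ≤ 1) {e t : ℝ} (h2 : ∀ i, mn (X i) (Y i) ≤ e) (ht : 0 < t)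
    (ht1 : t ≤ 1) : prb (Fintype.piFinset X) (fun ω => (e + t) * M < ∑ i, Y i (ω i)) ≤
      Real.exp (-(t ^ 2 * M / 16)) := by
  have h3 := pb_markov (O := Fintype.piFinset X)
    (G := fun ω => ∏ i, Real.exp (t / 8 * (Y i (ω i) - mn (X i) (Y i))))
    (fun ω _ => by positivity) (Real.exp_pos (t / 8 * (t * M)))
  refine le_trans (pb_mono fun ω _ hω => ?_) (h3.trans ?_)
  · rw [← Real.exp_sum, Real.exp_le_exp, ← mul_sum, sum_sub_distrib]
    refine mul_le_mul_of_nonneg_left ?_ (by positivity)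
    have : ∑ i, mn (X i) (Y i) ≤ M * e := by
      simpa using sum_le_card_nsmul univ _ e fun i _ => h2 i
    linarith
  · rw [xec_prod X fun i a => Real.exp (t / 8 * (Y i a - mn (X i) (Y i))),
      div_le_iff₀ (Real.exp_pos _), ← Real.exp_add]
    refine (prod_le_prod (g := fun _ => Real.exp (4 * (t / 8) ^ 2))
      (fun i _ => div_nonneg (sum_nonneg fun _ _ => (Real.exp_pos _).le) (Nat.cast_nonneg _))
      (fun i _ => xec_exp (hX i) (h1 i) (by positivity) (by linarith))).trans (le_of_eq ?_)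
    rw [prod_const, card_univ, Fintype.card_fin, ← Real.exp_nat_mul]
    congr 1
    ring

theorem hoeffding {M : ℕ} (X : Fin M → Finset α) (hX : ∀ i, (X i).Nonempty) (Y : Fin M → α → ℝ)
    (h1 : ∀ i, ∀ a ∈ X i, |Y i a| ≤ 1) {e t : ℝ} (h2 : ∀ i, |mn (X i) (Y i)| ≤ e) (ht : 0 < t)
    (ht1 : t ≤ 1) : prb (Fintype.piFinset X) (fun ω => (e + t) * M < |∑ i, Y i (ω i)|) ≤
      2 * Real.exp (-(t ^ 2 * M / 16)) := by
  have a := xec_one X hX Y h1 (fun i => (abs_le.1 (h2 i)).2) ht ht1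
  have b := xec_one X hX (fun i a => -1 * Y i a) (fun i a ha => by simpa using h1 i a ha) (e := e)
    (fun i => by rw [mn_mul]; linarith [(abs_le.1 (h2 i)).1]) ht ht1
  refine le_trans (pb_mono fun ω _ hω => ?_) ((pb_or _ _ _).trans ((add_le_add a b).trans
    (two_mul _).ge))
  rw [← mul_sum, neg_one_mul]
  exact lt_abs.1 hω

theorem few_corr {M : ℕ} (hM : 0 < M) (T : Finset α) (w : Fin M → ℝ) (f : α → Fin M → ℝ)
    {t e : ℝ} (ht : 0 < t) (hw : ∀ i, |w i| ≤ 1) (hf : ∀ a ∈ T, ∀ i, |f a i| ≤ 1)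
    (h1 : ∀ a ∈ T, t * M ≤ |∑ i, w i * f a i|)
    (h2 : ∀ a ∈ T, ∀ a' ∈ T, a ≠ a' → |∑ i, f a i * f a' i| ≤ e * M) (he : 2 * e ≤ t ^ 2) :
    (#T : ℝ) ≤ 2 / t ^ 2 := by
  have hM0 : (0 : ℝ) < M := by exact_mod_cast hM
  have hs : ∀ x : ℝ, ∃ s : ℝ, |s| ≤ 1 ∧ s * x = |x| := fun x => by
    rcases le_total 0 x with h | h
    · exact ⟨1, by simp, by rw [one_mul, abs_of_nonneg h]⟩
    · exact ⟨-1, by simp, by rw [neg_one_mul, abs_of_nonpos h]⟩
  choose s hs1 hs2 using fun a => hs (∑ i, w i * f a i)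
  have a1 : #T * (t * M) ≤ ∑ i, w i * ∑ a ∈ T, s a * f a i := by
    have e1 : ∑ i, w i * ∑ a ∈ T, s a * f a i = ∑ a ∈ T, s a * ∑ i, w i * f a i := by
      simp only [mul_sum]
      rw [sum_comm]
      exact sum_congr rfl fun a _ => sum_congr rfl fun i _ => by ring
    rw [e1, ← nsmul_eq_mul]
    exact card_nsmul_le_sum _ _ _ fun a ha => (h1 a ha).trans (hs2 a).ge
  have a2 : ∑ i, w i ^ 2 ≤ M := by
    simpa using sum_le_card_nsmul univ (fun i => w i ^ 2) 1
      fun i _ => (sq_le_one_iff_abs_le_one _).2 (hw i)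
  have a3 : ∑ i, (∑ a ∈ T, s a * f a i) ^ 2 ≤ #T * (M + #T * (t ^ 2 / 2 * M)) := by
    have e1 : ∑ i, (∑ a ∈ T, s a * f a i) ^ 2
        = ∑ a ∈ T, ∑ a' ∈ T, s a * s a' * ∑ i, f a i * f a' i := by
      simp only [sq, sum_mul_sum]
      simp only [mul_sum]
      rw [sum_comm]
      refine sum_congr rfl fun a _ => ?_
      rw [sum_comm]
      exact sum_congr rfl fun a' _ => sum_congr rfl fun i _ => by ring
    rw [e1, ← nsmul_eq_mul]
    refine sum_le_card_nsmul _ _ _ fun a ha => ?_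
    have b1 : ∀ a' ∈ T, s a * s a' * ∑ i, f a i * f a' i
        ≤ (if a = a' then (M : ℝ) else 0) + t ^ 2 / 2 * M := fun a' ha' => by
      have c1 : s a * s a' * ∑ i, f a i * f a' i ≤ |∑ i, f a i * f a' i| := by
        refine (le_abs_self _).trans ?_
        rw [abs_mul, abs_mul]
        exact mul_le_of_le_one_left (abs_nonneg _) (mul_le_one₀ (hs1 a) (abs_nonneg _) (hs1 a'))
      refine c1.trans ?_
      split_ifs with h
      · have c2 : |∑ i, f a i * f a' i| ≤ M := by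
          refine (abs_sum_le_sum_abs _ _).trans ?_
          simpa using sum_le_card_nsmul univ (fun i => |f a i * f a' i|) 1 fun i _ => by
            rw [abs_mul]
            exact mul_le_one₀ (hf a ha i) (abs_nonneg _) (hf a' ha' i)
        have : 0 ≤ t ^ 2 / 2 * M := by positivity
        linarith
      · rw [zero_add]
        exact (h2 a ha a' ha' h).trans (mul_le_mul_of_nonneg_right (by linarith) hM0.le)
    refine (sum_le_sum b1).trans (le_of_eq ?_)
    rw [sum_add_distrib, sum_ite_eq, if_pos ha, sum_const, nsmul_eq_mul]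
  have a4 : (#T * (t * M)) ^ 2 ≤ M * (#T * (M + #T * (t ^ 2 / 2 * M))) :=
    (pow_le_pow_left₀ (by positivity) a1 2).trans ((sum_mul_sq_le_sq_mul_sq _ _ _).trans
      (mul_le_mul a2 a3 (by positivity) hM0.le))
  rcases (Nat.cast_nonneg (α := ℝ) #T).eq_or_lt with h0 | h0
  · rw [← h0]
    positivity
  · rw [le_div_iff₀ (by positivity)]
    refine le_of_mul_le_mul_left ?_ (show (0 : ℝ) < #T * M ^ 2 by positivity)
    nlinarith

theorem xec_eq {u r : ℕ} (hu : 0 < u) {i j : Fin r} (h : i ≠ j) :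
    prb (univ : Finset (Fin r → Fin u)) (fun f => f i = f j) ≤ 1 / u := by
  have hu0 : (0 : ℝ) < u := by exact_mod_cast hu
  rw [xec_pb, sum_boole]
  refine div_le_of_le_mul₀ (Nat.cast_nonneg _) (by positivity) ?_
  rw [one_div, ← div_eq_inv_mul, le_div_iff₀ hu0]
  have := card_le_card_of_injOn (s := ({f ∈ (univ : Finset (Fin r → Fin u)) | f i = f j}) ×ˢ
    (univ : Finset (Fin u))) (t := (univ : Finset (Fin r → Fin u)))
    (fun z => Function.update z.1 i z.2) (fun _ _ => mem_coe.2 (mem_univ _)) (by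
      rintro ⟨f, c⟩ hf ⟨f', c'⟩ hf' e
      have hf1 : f i = f j := (mem_filter.1 (mem_product.1 (mem_coe.1 hf)).1).2
      have hf2 : f' i = f' j := (mem_filter.1 (mem_product.1 (mem_coe.1 hf')).1).2
      have e1 : ∀ l, l ≠ i → f l = f' l := fun l hl => by
        simpa [Function.update_of_ne hl] using congrFun e l
      refine Prod.ext (funext fun l => ?_) (by simpa using congrFun e i)
      by_cases hl : l = i
      · change f l = f' l
        rw [hl, hf1, hf2, e1 j h.symm]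
      · exact e1 l hl)
  rw [card_product, card_univ (α := Fin u), Fintype.card_fin] at this
  exact_mod_cast this

theorem xec_bad {u r : ℕ} (hu : 0 < u) :
    prb (univ : Finset (Fin r → Fin u)) (fun f => ¬ Function.Injective f) ≤ (r : ℝ) ^ 2 / u := by
  have a := pb_exists (univ : Finset (Fin r → Fin u)) (univ : Finset (Fin r)).offDiag
    fun (z : Fin r × Fin r) (f : Fin r → Fin u) => f z.1 = f z.2
  refine le_trans (pb_mono fun f _ hf => ?_) (le_trans a ?_)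
  · obtain ⟨i, j, h1, h2⟩ := Function.not_injective_iff.1 hf
    exact ⟨(i, j), mem_offDiag.2 ⟨mem_univ _, mem_univ _, h2⟩, h1⟩
  · refine (sum_le_card_nsmul _ _ (1 / u : ℝ) fun z hz => xec_eq hu (mem_offDiag.1 hz).2.2).trans ?_
    rw [nsmul_eq_mul, mul_one_div]
    refine div_le_div_of_nonneg_right ?_ (by positivity)
    have := card_le_univ (univ : Finset (Fin r)).offDiag
    rw [Fintype.card_prod, Fintype.card_fin, ← sq] at this
    exact_mod_cast this

theorem xec_set {L u r : ℕ} (hu : 0 < u) (S : Finset (Fin L)) :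
    prb (univ : Finset (Fin r → Fin L → Fin u))
      (fun t => ∀ g ∈ S, ¬ Function.Injective fun i => t i g) ≤ ((r : ℝ) ^ 2 / u) ^ #S := by
  have e1 := xec_prod (fun _ : Fin L => (univ : Finset (Fin r → Fin u)))
    fun g f => if g ∈ S then (if ¬ Function.Injective f then (1 : ℝ) else 0) else 1
  rw [Fintype.piFinset_univ] at e1
  have e2 : prb (univ : Finset (Fin r → Fin L → Fin u))
      (fun t => ∀ g ∈ S, ¬ Function.Injective fun i => t i g)
      = mn (univ : Finset (Fin L → Fin r → Fin u)) fun ω => ∏ g,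
        if g ∈ S then (if ¬ Function.Injective (ω g) then (1 : ℝ) else 0) else 1 := by
    rw [xec_pb, mn, card_univ, card_univ,
      Fintype.card_congr (Equiv.piComm fun (_ : Fin r) (_ : Fin L) => Fin u),
      ← Equiv.sum_comp (Equiv.piComm fun (_ : Fin r) (_ : Fin L) => Fin u)]
    congr 1
    refine sum_congr rfl fun t _ => ?_
    rw [prod_ite_mem, univ_inter, prod_boole]
    by_cases h : ∀ g ∈ S, ¬ Function.Injective fun i => t i g
    · rw [if_pos h]
      exact (if_pos h).symm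
    · rw [if_neg h]
      exact (if_neg h).symm
  have hne : (univ : Finset (Fin r → Fin u)).Nonempty := ⟨fun _ => ⟨0, hu⟩, mem_univ _⟩
  rw [e2, e1, ← prod_const, ← univ_inter S, ← prod_ite_mem]
  simp only [univ_inter]
  refine prod_le_prod (fun g _ => div_nonneg (sum_nonneg fun _ _ => ?_) (Nat.cast_nonneg _))
    fun g _ => ?_
  · split_ifs <;> norm_num
  · by_cases hg : g ∈ S
    · simp only [hg, if_true]
      refine le_trans (le_of_eq ?_) (xec_bad hu)
      rw [xec_pb, mn]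
    · simp only [hg, if_false]
      exact (mn_const hne 1).le

theorem overlap {L u r : ℕ} (hu : 0 < u) (hr : r ^ 2 ≤ u) :
    prb (univ : Finset (Fin r → Fin L → Fin u))
      (fun t => L ≤ 2 * #{g : Fin L | ¬ Function.Injective fun i => t i g}) ≤
      2 ^ L * ((r : ℝ) ^ 2 / u) ^ ((L : ℝ) / 2) := by
  have hu0 : (0 : ℝ) < u := by exact_mod_cast hu
  have h1 : (r : ℝ) ^ 2 / u ≤ 1 := by
    rw [div_le_one hu0]
    exact_mod_cast hr
  have a := pb_exists (univ : Finset (Fin r → Fin L → Fin u))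
    {S ∈ (univ : Finset (Finset (Fin L))) | L ≤ 2 * #S}
    fun (S : Finset (Fin L)) (t : Fin r → Fin L → Fin u) =>
      ∀ g ∈ S, ¬ Function.Injective fun i => t i g
  refine le_trans (pb_mono fun t _ ht => ?_) (le_trans a ?_)
  · exact ⟨_, mem_filter.2 ⟨mem_univ _, ht⟩, fun g hg => (mem_filter.1 hg).2⟩
  · refine (sum_le_card_nsmul _ _ (((r : ℝ) ^ 2 / u) ^ ((L : ℝ) / 2)) fun S hS => ?_).trans ?_
    · refine (xec_set hu S).trans ?_
      rw [← Real.rpow_natCast]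
      refine Real.rpow_le_rpow_of_exponent_ge' (by positivity) h1 (by positivity) ?_
      have : (L : ℝ) ≤ 2 * #S := by exact_mod_cast (mem_filter.1 hS).2
      linarith
    · rw [nsmul_eq_mul]
      refine mul_le_mul_of_nonneg_right ?_ (by positivity)
      have := card_le_univ {S ∈ (univ : Finset (Finset (Fin L))) | L ≤ 2 * #S}
      rw [Fintype.card_finset, Fintype.card_fin] at this
      exact_mod_cast this

end Pool.Agent.EQ
end
end

-- part Pool.Agent.P.MP_ad7a55_nt.XFb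
section

/-! From a measure that does not flatten to a set of large energy. -/

set_option autoImplicit false
set_option linter.unusedSectionVars false

noncomputable section

open Finset
open scoped Pointwise MatrixGroups Classical

namespace Pool.Agent.EQ

variable {G : Type} [Group G] [Fintype G]

/-- The number of representations `x = a⁻¹ b`. -/
def rq (A : Finset G) (x : G) : ℝ := #{p ∈ A ×ˢ A | p.1⁻¹ * p.2 = x}

/-- The multiplicative energy. -/
def en (A : Finset G) : ℝ := ∑ x, rq A x ^ 2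

/-- indicator function -/
def xfb_i (A : Finset G) (x : G) : ℝ := if x ∈ A then 1 else 0

theorem xfb_i_nonneg (A : Finset G) (x : G) : 0 ≤ xfb_i A x := by
  unfold xfb_i
  split_ifs <;> norm_num

theorem xfb_i_le (A : Finset G) (x : G) : xfb_i A x ≤ 1 := by
  unfold xfb_i
  split_ifs <;> norm_num

theorem xfb_sum_i (A : Finset G) : ∑ x, xfb_i A x = #A := by
  simp [xfb_i]

theorem xfb_card (A : Finset G) (φ : G → G) :
    (#{a ∈ A | φ a ∈ A} : ℝ) = ∑ a, xfb_i A a * xfb_i A (φ a) := by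
  rw [card_eq_sum_ones, Nat.cast_sum, sum_filter, ← sum_subset (subset_univ A)]
  · refine sum_congr rfl fun a ha => ?_
    simp [xfb_i, ha]
  · intro a _ ha
    simp [xfb_i, ha]

theorem xfb_rq (A : Finset G) (x : G) : rq A x = ∑ a, xfb_i A a * xfb_i A (a * x) := by
  rw [← xfb_card A (fun a => a * x)]
  unfold rq
  congr 1
  refine card_bij' (fun p _ => p.1) (fun a _ => (a, a * x)) ?_ ?_ ?_ ?_
  · intro p hp
    simp only [mem_filter, mem_product] at hp ⊢
    refine ⟨hp.1.1, ?_⟩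
    rw [← hp.2, mul_inv_cancel_left]
    exact hp.1.2
  · intro a ha
    simp only [mem_filter, mem_product] at ha ⊢
    exact ⟨ha, inv_mul_cancel_left _ _⟩
  · intro p hp
    simp only [mem_filter, mem_product] at hp
    rw [← hp.2, mul_inv_cancel_left]
  · intro a _
    rfl

theorem xfb_l (f : G → ℝ) (a : G) : ∑ c, f (a * c) = ∑ c, f c :=
  Equiv.sum_comp (Equiv.mulLeft a) f

theorem xfb_r (f : G → ℝ) (a : G) : ∑ s, f (s⁻¹ * a) = ∑ s, f s :=
  ((Equiv.inv G).trans (Equiv.mulRight a)).sum_comp f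

theorem xfb_sum_rq (A : Finset G) : ∑ x, rq A x = (#A : ℝ) ^ 2 := by
  simp only [xfb_rq]
  rw [sum_comm]
  simp only [← mul_sum, xfb_l (xfb_i A), xfb_sum_i]
  rw [← sum_mul, xfb_sum_i, sq]

theorem xfb_rq_nonneg (A : Finset G) (x : G) : 0 ≤ rq A x := Nat.cast_nonneg _

theorem xfb_rq_le (A : Finset G) (x : G) : rq A x ≤ #A := by
  rw [xfb_rq, ← xfb_sum_i]
  exact sum_le_sum fun a _ => mul_le_of_le_one_right (xfb_i_nonneg _ _) (xfb_i_le _ _)

theorem en_eq (A : Finset G) : en A = ∑ s : G, (#{a ∈ A | s⁻¹ * a ∈ A} : ℝ) ^ 2 := by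
  unfold en
  simp only [xfb_rq, xfb_card A (fun a => _⁻¹ * a), sq, sum_mul_sum]
  rw [sum_comm]
  conv_rhs => rw [sum_comm]
  refine sum_congr rfl fun a _ => ?_
  rw [sum_comm, ← xfb_r _ a]
  refine sum_congr rfl fun s _ => ?_
  rw [← xfb_l _ a⁻¹]
  refine sum_congr rfl fun c _ => ?_
  rw [mul_inv_cancel_left, mul_assoc s⁻¹, mul_inv_cancel_left]
  ring

theorem sum_inter (A : Finset G) : ∑ s : G, (#{a ∈ A | s⁻¹ * a ∈ A} : ℝ) = (#A : ℝ) ^ 2 := by
  simp only [xfb_card A (fun a => _⁻¹ * a)]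
  rw [sum_comm]
  simp only [← mul_sum, xfb_r (xfb_i A), xfb_sum_i]
  rw [← sum_mul, xfb_sum_i, sq]

theorem en_le (A : Finset G) : en A ≤ (#A : ℝ) ^ 3 := by
  calc en A ≤ ∑ x, (#A : ℝ) * rq A x := by
        refine sum_le_sum fun x _ => ?_
        rw [sq]
        exact mul_le_mul_of_nonneg_right (xfb_rq_le A x) (xfb_rq_nonneg A x)
    _ = (#A : ℝ) ^ 3 := by rw [← mul_sum, xfb_sum_rq]; ring

theorem le_en (A : Finset G) : (#A : ℝ) ^ 4 ≤ #(A⁻¹ * A) * en A := by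
  have hz : ∀ x, x ∉ A⁻¹ * A → rq A x = 0 := by
    intro x hx
    unfold rq
    rw [Nat.cast_eq_zero, card_eq_zero, filter_eq_empty_iff]
    intro p hp hpx
    rw [mem_product] at hp
    exact hx (hpx ▸ mul_mem_mul (inv_mem_inv hp.1) hp.2)
  have h1 : ∑ x ∈ A⁻¹ * A, rq A x = (#A : ℝ) ^ 2 := by
    rw [← xfb_sum_rq]
    exact sum_subset (subset_univ _) fun x _ hx => hz x hx
  have h2 : ∑ x ∈ A⁻¹ * A, rq A x ^ 2 ≤ en A :=
    sum_le_sum_of_subset_of_nonneg (subset_univ _) fun x _ _ => sq_nonneg _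
  calc (#A : ℝ) ^ 4 = (∑ x ∈ A⁻¹ * A, rq A x) ^ 2 := by rw [h1]; ring
    _ ≤ #(A⁻¹ * A) * ∑ x ∈ A⁻¹ * A, rq A x ^ 2 := sq_sum_le_card_mul_sum_sq
    _ ≤ _ := mul_le_mul_of_nonneg_left h2 (Nat.cast_nonneg _)

theorem xfb_cs (w t : G → ℝ) (hw : ∀ y, 0 ≤ w y) :
    (∑ y, w y * t y) ^ 2 ≤ (∑ y, w y) * ∑ y, w y * t y ^ 2 :=
  sum_sq_le_sum_mul_sum_of_sq_le_mul _ (fun y _ => hw y)
    (fun y _ => mul_nonneg (hw y) (sq_nonneg _)) (fun y _ => le_of_eq (by ring))

theorem xfb_y1 (a b : G → ℝ) (ha : ∀ y, 0 ≤ a y) : n2 (cv a b) ≤ (∑ y, a y) ^ 2 * n2 b := by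
  unfold n2 cv
  calc ∑ x, (∑ y, a y * b (y⁻¹ * x)) ^ 2
      ≤ ∑ x, (∑ y, a y) * ∑ y, a y * b (y⁻¹ * x) ^ 2 :=
        sum_le_sum fun x _ => xfb_cs a (fun y => b (y⁻¹ * x)) ha
    _ = (∑ y, a y) ^ 2 * ∑ x, b x ^ 2 := by
        rw [← mul_sum, sum_comm]
        simp only [← mul_sum, xfb_l (fun x => b x ^ 2)]
        rw [← sum_mul]
        ring

theorem xfb_y2 (a b : G → ℝ) (hb : ∀ y, 0 ≤ b y) : n2 (cv a b) ≤ n2 a * (∑ y, b y) ^ 2 := by
  unfold n2 cv
  calc ∑ x, (∑ y, a y * b (y⁻¹ * x)) ^ 2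
      ≤ ∑ x, (∑ y, b y) * ∑ y, b (y⁻¹ * x) * a y ^ 2 := by
        refine sum_le_sum fun x _ => ?_
        have h := xfb_cs (fun y => b (y⁻¹ * x)) a (fun y => hb _)
        rw [xfb_r b x] at h
        simpa only [mul_comm (a _)] using h
    _ = (∑ x, a x ^ 2) * (∑ y, b y) ^ 2 := by
        rw [← mul_sum, sum_comm]
        simp only [← sum_mul, xfb_l b]
        rw [← mul_sum]
        ring

theorem xfb_five (a b c d e : G → ℝ) :
    n2 (fun x => a x + b x + c x + d x + e x) ≤ 5 * (n2 a + n2 b + n2 c + n2 d + n2 e) := by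
  unfold n2
  rw [← sum_add_distrib, ← sum_add_distrib, ← sum_add_distrib, ← sum_add_distrib, mul_sum]
  refine sum_le_sum fun x _ => ?_
  nlinarith [sq_nonneg (a x - b x), sq_nonneg (a x - c x), sq_nonneg (a x - d x),
    sq_nonneg (a x - e x), sq_nonneg (b x - c x), sq_nonneg (b x - d x), sq_nonneg (b x - e x),
    sq_nonneg (c x - d x), sq_nonneg (c x - e x), sq_nonneg (d x - e x)]

theorem xfb_n2_nonneg (f : G → ℝ) : 0 ≤ n2 f := sum_nonneg fun _ _ => sq_nonneg _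

theorem xfb_mid {A : Finset G} (hA : ∀ x, xfb_i A x⁻¹ = xfb_i A x) {m : G → ℝ} {c : ℝ}
    (hc : 0 ≤ c) (h0 : ∀ x, 0 ≤ m x) (h1 : ∀ x, m x ≤ c * xfb_i A x) :
    n2 (cv m m) ≤ c ^ 4 * en A := by
  rw [en_eq, mul_sum]
  unfold n2 cv
  refine sum_le_sum fun x _ => ?_
  rw [xfb_card A (fun a => x⁻¹ * a)]
  have h : ∑ y, m y * m (y⁻¹ * x) ≤ c ^ 2 * ∑ a, xfb_i A a * xfb_i A (x⁻¹ * a) := by
    rw [mul_sum]
    refine sum_le_sum fun y _ => ?_
    have e : xfb_i A (x⁻¹ * y) = xfb_i A (y⁻¹ * x) := by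
      rw [← hA, mul_inv_rev, inv_inv]
    rw [e]
    calc m y * m (y⁻¹ * x) ≤ (c * xfb_i A y) * (c * xfb_i A (y⁻¹ * x)) :=
          mul_le_mul (h1 _) (h1 _) (h0 _) (mul_nonneg hc (xfb_i_nonneg _ _))
      _ = _ := by ring
  calc _ ≤ (c ^ 2 * ∑ a, xfb_i A a * xfb_i A (x⁻¹ * a)) ^ 2 :=
        pow_le_pow_left₀ (sum_nonneg fun y _ => mul_nonneg (h0 _) (h0 _)) h 2
    _ = _ := by ring

theorem xfb_core {ν lo md hi : G → ℝ} (h0 : ∀ g, 0 ≤ ν g) (h1 : ∑ g, ν g ≤ 1)
    (e : ∀ g, ν g = lo g + md g + hi g) (hm : ∀ g, 0 ≤ md g)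
    (hm' : ∀ g, md g ≤ ν g) (hh : ∀ g, 0 ≤ hi g) {t : ℝ} (ht1 : t ≤ 1)
    (hlo : n2 lo ≤ t * n2 ν) (hhi : ∑ g, hi g ≤ t) :
    n2 (cv ν ν) ≤ 5 * (n2 (cv md md) + 4 * (t * n2 ν)) := by
  have hN := xfb_n2_nonneg ν
  have s0 : 0 ≤ ∑ g, ν g := sum_nonneg fun g _ => h0 g
  have s1 : (∑ g, ν g) ^ 2 ≤ 1 := pow_le_one₀ s0 h1
  have m0 : 0 ≤ ∑ g, md g := sum_nonneg fun g _ => hm g
  have m1 : (∑ g, md g) ^ 2 ≤ 1 := pow_le_one₀ m0 ((sum_le_sum fun g _ => hm' g).trans h1)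
  have i0 : 0 ≤ ∑ g, hi g := sum_nonneg fun g _ => hh g
  have i1 : (∑ g, hi g) ^ 2 ≤ t := by nlinarith
  have m2 : n2 md ≤ n2 ν := sum_le_sum fun g _ => pow_le_pow_left₀ (hm g) (hm' g) 2
  have ec : cv ν ν = fun x => cv md md x + cv md lo x + cv md hi x + cv lo ν x + cv hi ν x := by
    funext x
    unfold cv
    rw [← sum_add_distrib, ← sum_add_distrib, ← sum_add_distrib, ← sum_add_distrib]
    refine sum_congr rfl fun y _ => ?_
    have e1 := e y
    have e2 := e (y⁻¹ * x)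
    linear_combination (ν (y⁻¹ * x)) * e1 + md y * e2
  have b1 : n2 (cv md lo) ≤ t * n2 ν :=
    (xfb_y1 md lo hm).trans ((mul_le_of_le_one_left (xfb_n2_nonneg _) m1).trans hlo)
  have b2 : n2 (cv md hi) ≤ t * n2 ν :=
    (xfb_y2 md hi hh).trans (by
      rw [mul_comm t]
      exact mul_le_mul m2 i1 (sq_nonneg _) hN)
  have b3 : n2 (cv lo ν) ≤ t * n2 ν :=
    (xfb_y2 lo ν h0).trans ((mul_le_of_le_one_right (xfb_n2_nonneg _) s1).trans hlo)
  have b4 : n2 (cv hi ν) ≤ t * n2 ν :=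
    (xfb_y1 hi ν hh).trans (mul_le_mul_of_nonneg_right i1 hN)
  rw [ec]
  refine (xfb_five _ _ _ _ _).trans ?_
  linarith

theorem trunc {ν : G → ℝ} (h0 : ∀ g, 0 ≤ ν g) (h1 : ∑ g, ν g ≤ 1) (hs : ∀ g, ν g⁻¹ = ν g) {K : ℝ}
    (hK : 1 ≤ K) (hn : 0 < n2 ν) (h : n2 ν ≤ K * n2 (cv ν ν)) :
    ∃ A : Finset G, (∀ x ∈ A, n2 ν ≤ 64 * K * ν x) ∧ #A * n2 ν ≤ 64 * K ∧
      1 ≤ (64 * K) ^ 2 * (#A * n2 ν) ∧ (#A : ℝ) ^ 3 ≤ (64 * K) ^ 8 * en A := by
  set N := n2 ν with hN
  set L := 64 * K with hL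
  have hL1 : 1 ≤ L := by linarith
  have hL0 : 0 < L := by linarith
  let A : Finset G := univ.filter fun x => N ≤ L * ν x ∧ ν x ≤ L * N
  have hA : ∀ x, x ∈ A ↔ N ≤ L * ν x ∧ ν x ≤ L * N := fun x => by simp [A]
  let lo : G → ℝ := fun x => if L * ν x < N then ν x else 0
  let hi : G → ℝ := fun x => if L * N < ν x then ν x else 0
  let md : G → ℝ := fun x => if x ∈ A then ν x else 0
  have e : ∀ g, ν g = lo g + md g + hi g := by
    intro g
    simp only [lo, md, hi, hA]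
    by_cases c1 : L * ν g < N
    · have c2 : ¬ L * N < ν g := by
        intro c2
        have := mul_le_mul_of_nonneg_right hL1 (h0 g)
        have := mul_le_mul_of_nonneg_right hL1 hn.le
        linarith
      rw [if_pos c1, if_neg c2, if_neg (fun hc => absurd hc.1 (not_le.2 c1))]
      ring
    · by_cases c2 : L * N < ν g
      · rw [if_neg c1, if_pos c2, if_neg (fun hc => absurd hc.2 (not_le.2 c2))]
        ring
      · rw [if_neg c1, if_neg c2, if_pos ⟨not_lt.1 c1, not_lt.1 c2⟩]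
        ring
  have hm : ∀ g, 0 ≤ md g := fun g => by
    simp only [md]
    split_ifs
    exacts [h0 g, le_rfl]
  have hm' : ∀ g, md g ≤ ν g := fun g => by
    simp only [md]
    split_ifs
    exacts [le_rfl, h0 g]
  have hh : ∀ g, 0 ≤ hi g := fun g => by
    simp only [hi]
    split_ifs
    exacts [h0 g, le_rfl]
  have ht0 : 0 < L⁻¹ := inv_pos.2 hL0
  have htL : L⁻¹ * L = 1 := inv_mul_cancel₀ hL0.ne'
  have hlo : n2 lo ≤ L⁻¹ * N := by
    calc n2 lo ≤ ∑ g, L⁻¹ * N * ν g := by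
          refine sum_le_sum fun g _ => ?_
          simp only [lo]
          split_ifs with c
          · rw [sq]
            refine mul_le_mul_of_nonneg_right ?_ (h0 g)
            rw [le_inv_mul_iff₀ hL0]
            exact c.le
          · rw [zero_pow two_ne_zero]
            exact mul_nonneg (mul_nonneg ht0.le hn.le) (h0 g)
      _ ≤ L⁻¹ * N := by
          rw [← mul_sum]
          exact mul_le_of_le_one_right (mul_nonneg ht0.le hn.le) h1
  have hhi : ∑ g, hi g ≤ L⁻¹ := by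
    have h2 : L * N * ∑ g, hi g ≤ N := by
      rw [mul_sum]
      refine sum_le_sum fun g _ => ?_
      simp only [hi]
      split_ifs with c
      · rw [sq]
        exact mul_le_mul_of_nonneg_right c.le (h0 g)
      · rw [mul_zero]
        exact sq_nonneg _
    have h3 : L * ∑ g, hi g ≤ 1 := by
      refine le_of_mul_le_mul_left ?_ hn
      linarith
    rw [← mul_one L⁻¹, le_inv_mul_iff₀ hL0]
    exact h3
  have hcore := xfb_core h0 h1 e hm hm' hh (inv_le_one_of_one_le₀ hL1) hlo hhi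
  have hsym : ∀ x, xfb_i A x⁻¹ = xfb_i A x := fun x => by
    simp only [xfb_i, hA, hs]
  have hmid : n2 (cv md md) ≤ (L * N) ^ 4 * en A := by
    refine xfb_mid hsym (by positivity) hm fun x => ?_
    simp only [md, xfb_i]
    split_ifs with c
    · rw [mul_one]
      exact ((hA x).1 c).2
    · rw [mul_zero]
  have hKL : K * L⁻¹ = 1 / 64 := by
    rw [hL]
    field_simp
  have hM : N ≤ L * n2 (cv md md) := by
    have h2 := h.trans (mul_le_mul_of_nonneg_left hcore (by linarith))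
    rw [← hN] at h2
    have h3 : K * (5 * (n2 (cv md md) + 4 * (L⁻¹ * N))) =
        5 * (K * n2 (cv md md)) + 20 * (K * L⁻¹) * N := by ring
    rw [h3, hKL] at h2
    rw [hL, mul_assoc]
    linarith
  have hE : 1 ≤ L ^ 5 * N ^ 3 * en A := by
    refine le_of_mul_le_mul_left ?_ hn
    calc N * 1 = N := mul_one _
      _ ≤ L * ((L * N) ^ 4 * en A) := hM.trans (mul_le_mul_of_nonneg_left hmid hL0.le)
      _ = _ := by ring
  have hAN : #A * N ≤ L := by
    calc (#A : ℝ) * N = ∑ x ∈ A, N := by rw [sum_const, nsmul_eq_mul]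
      _ ≤ ∑ x ∈ A, L * ν x := sum_le_sum fun x hx => ((hA x).1 hx).1
      _ ≤ ∑ x, L * ν x :=
          sum_le_sum_of_subset_of_nonneg (subset_univ _) fun x _ _ => mul_nonneg hL0.le (h0 x)
      _ ≤ L := by
          rw [← mul_sum]
          exact mul_le_of_le_one_right hL0.le h1
  have hA0 : (0 : ℝ) ≤ #A * N := mul_nonneg (Nat.cast_nonneg _) hn.le
  refine ⟨A, fun x hx => ((hA x).1 hx).1, hAN, ?_, ?_⟩
  · refine le_of_pow_le_pow_left₀ (n := 3) (by norm_num) (mul_nonneg (sq_nonneg _) hA0) ?_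
    calc (1 : ℝ) ^ 3 = 1 := one_pow _
      _ ≤ L ^ 5 * N ^ 3 * en A := hE
      _ ≤ L ^ 6 * N ^ 3 * (#A : ℝ) ^ 3 :=
          mul_le_mul (mul_le_mul_of_nonneg_right (pow_le_pow_right₀ hL1 (by norm_num))
            (by positivity)) (en_le A) (sum_nonneg fun _ _ => sq_nonneg _) (by positivity)
      _ = _ := by ring
  · refine le_of_mul_le_mul_left ?_ (pow_pos hn 3)
    calc N ^ 3 * (#A : ℝ) ^ 3 = (#A * N) ^ 3 * 1 := by ring
      _ ≤ L ^ 3 * (L ^ 5 * N ^ 3 * en A) :=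
          mul_le_mul (pow_le_pow_left₀ hA0 hAN 3) hE zero_le_one (by positivity)
      _ = _ := by ring

end Pool.Agent.EQ
end
end
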