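import Pool.Agent.K.MP_ad7a55_nt.C4
import Pool.Agent.K.MP_ad7a55_nt.C6
import Pool.Agent.K.MP_ad7a55_nt.C8
import Pool.Agent.K.MP_ad7a55_nt.C0

-- part Pool.Agent.P.MP_ad7a55_nt.Maut
section

/-! The Mautner phenomenon. -/

set_option autoImplicit false

noncomputable section

open MeasureTheory Topology Filter UpperHalfPlane
open scoped MatrixGroups ENNReal BoundedContinuousFunction

namespace Pool.Agent.EQ

/-- The Mautner property of a subgroup. -/
def MProp {H : Type} [Group H] [TopologicalSpace H] (S : Subgroup H) : Prop :=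
  ∀ (g : H) (gs c c' : ℕ → H), Tendsto gs atTop (𝓝 1) → (∀ n, c n ∈ S) → (∀ n, c' n ∈ S) →
    Tendsto (fun n => c n * gs n * c' n) atTop (𝓝 g) → g ∈ S

/-- The stabiliser of a measure dominated by an invariant one has the Mautner property. -/
theorem mprop_Stab {H W : Type} [Group H] [TopologicalSpace H] [IsTopologicalGroup H]
    [TopologicalSpace W] [PolishSpace W] [MeasurableSpace W] [BorelSpace W] [MulAction H W]
    [ContinuousSMul H W] (m μ : Measure W) [IsFiniteMeasure m]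
    (hm : ∀ g : H, m.map (fun w => g • w) = m) (hμ : μ ≤ m) : MProp (Stab H μ) := by
  borelize H
  have : IsFiniteMeasure μ := isFiniteMeasure_of_le m hμ
  have hmp : ∀ g : H, MeasurePreserving (fun w : W => g • w) m m := fun g =>
    ⟨measurable_const_smul g, hm g⟩
  have : SMulInvariantMeasure H W m := ⟨fun g s hs => (hmp g).measure_preimage hs.nullMeasurableSet⟩
  have : Fact ((1 : ℝ≥0∞) ≠ ∞) := ⟨ENNReal.one_ne_top⟩
  have hac : μ ≪ m := Measure.absolutelyContinuous_of_le hμ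
  have hi : MemLp (fun w => (μ.rnDeriv m w).toReal) 1 m :=
    memLp_one_iff_integrable.2 Measure.integrable_toReal_rnDeriv
  have key : ∀ g : H, g ∈ Stab H μ ↔ DomMulAct.mk g • hi.toLp _ = hi.toLp _ := by
    intro g
    rw [DomMulAct.mk_smul_toLp, MemLp.toLp_eq_toLp_iff, mem_Stab]
    constructor
    · intro h
      have := (MeasurableEquiv.smul g).measurableEmbedding.rnDeriv_map μ m
      have e : ⇑(MeasurableEquiv.smul (α := W) g) = fun w => g • w := rfl
      rw [e, h, hm g] at this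
      filter_upwards [this] with w hw
      rw [hw]
    · intro h
      have h1 := Measure.rnDeriv_lt_top μ m
      have h2 := (hmp g).quasiMeasurePreserving.ae h1
      have h3 : (fun w => μ.rnDeriv m (g • w)) =ᵐ[m] μ.rnDeriv m := by
        filter_upwards [h, h1, h2] with w a1 a2 a3
        exact (ENNReal.toReal_eq_toReal_iff' a3.ne a2.ne).1 a1
      ext B hB
      rw [Measure.map_apply (measurable_const_smul g) hB, ← Measure.setLIntegral_rnDeriv hac,
        ← Measure.setLIntegral_rnDeriv hac B,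
        ← (hmp g).setLIntegral_comp_preimage hB (Measure.measurable_rnDeriv μ m)]
      exact (lintegral_congr_ae (ae_restrict_of_ae h3)).symm
  intro g gs c c' h1 h2 h3 h4
  rw [key]
  generalize hi.toLp _ = f at key
  have hc : Continuous fun a : H => DomMulAct.mk a • f :=
    DomMulAct.continuous_mk.smul continuous_const
  have a1 := (hc.tendsto g).comp h4
  have a2 := (hc.tendsto 1).comp h1
  rw [DomMulAct.mk_one, one_smul, tendsto_iff_dist_tendsto_zero] at a2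
  refine tendsto_nhds_unique a1 (tendsto_iff_dist_tendsto_zero.2 (a2.congr fun n => ?_))
  simp only [Function.comp_apply]
  rw [DomMulAct.mk_mul, DomMulAct.mk_mul, mul_smul, mul_smul, (key _).1 (h2 n)]
  conv_rhs => rw [← (key _).1 (h3 n)]
  conv_rhs => enter [1, 2, 2]; rw [(key _).1 (h3 n)]
  rw [DomMulAct.dist_smul_Lp]

theorem maut_comap {H H' : Type} [Group H] [TopologicalSpace H] [Group H'] [TopologicalSpace H']
    {S : Subgroup H} (hS : MProp S) (φ : H' →* H) (hφ : Continuous φ) : MProp (S.comap φ) := by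
  intro g gs c c' h1 h2 h3 h4
  refine hS (φ g) (fun n => φ (gs n)) (fun n => φ (c n)) (fun n => φ (c' n)) ?_ h2 h3 ?_
  · simpa only [map_one, Function.comp_def] using (hφ.tendsto 1).comp h1
  · simpa only [← map_mul, Function.comp_def] using (hφ.tendsto g).comp h4

theorem maut_dg_uu {F : Type} [Field F] (t : F) (h0 : t ≠ 0) (x : F) :
    dg t h0 * uu x * (dg t h0)⁻¹ = uu (t ^ 2 * x) := by
  rw [mul_inv_eq_iff_eq_mul]
  ext i j
  fin_cases i <;> fin_cases j <;> simp [Matrix.mul_apply, Fin.sum_univ_two]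
  field_simp

theorem maut_dg_ul {F : Type} [Field F] (t : F) (h0 : t ≠ 0) (x : F) :
    dg t h0 * ul (t ^ 2 * x) * (dg t h0)⁻¹ = ul x := by
  rw [mul_inv_eq_iff_eq_mul]
  ext i j
  fin_cases i <;> fin_cases j <;> simp [Matrix.mul_apply, Fin.sum_univ_two]
  field_simp

/-- An element of `S` that acts on a copy of `SL₂` as a contracting diagonal matrix puts the
whole copy into `S`. -/
theorem maut_contract {F H : Type} [NormedField F] [Group H] [TopologicalSpace H]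
    {S : Subgroup H} (hS : MProp S) (φ : SL(2, F) →* H) (hφ : Continuous φ) (t : F) (h0 : t ≠ 0)
    (h1 : ‖t‖ < 1) {A : H} (hA : A ∈ S)
    (hc : ∀ b, A * φ b * A⁻¹ = φ (dg t h0 * b * (dg t h0)⁻¹)) (g : SL(2, F)) : φ g ∈ S := by
  have hz : ∀ x : F, Tendsto (fun n : ℕ => (t ^ 2) ^ n * x) atTop (𝓝 0) := fun x => by
    have : ‖t ^ 2‖ < 1 := by
      rw [norm_pow]
      exact pow_lt_one₀ (norm_nonneg _) h1 two_ne_zero
    simpa using (tendsto_pow_atTop_nhds_zero_of_norm_lt_one this).mul_const x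
  have hu : ∀ (x : F) (n : ℕ), (A ^ n)⁻¹ * φ (uu ((t ^ 2) ^ n * x)) * A ^ n = φ (uu x) := by
    intro x n
    induction n with
    | zero => simp
    | succ n ih =>
      rw [pow_succ' (t ^ 2), mul_assoc (t ^ 2), ← maut_dg_uu t h0, ← hc, ← ih, pow_succ' A]
      group
  have hl : ∀ (x : F) (n : ℕ), A ^ n * φ (ul ((t ^ 2) ^ n * x)) * (A ^ n)⁻¹ = φ (ul x) := by
    intro x n
    induction n with
    | zero => simp
    | succ n ih =>
      rw [pow_succ' (t ^ 2), mul_assoc (t ^ 2), ← ih, ← maut_dg_ul t h0 ((t ^ 2) ^ n * x), ← hc,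
        pow_succ A]
      group
  have : S.comap φ = ⊤ := by
    refine SL2_gen _ (fun x => ?_) fun x => ?_
    · refine hS _ (fun n => φ (uu ((t ^ 2) ^ n * x))) (fun n => (A ^ n)⁻¹) (fun n => A ^ n) ?_
        (fun n => S.inv_mem (S.pow_mem hA n)) (fun n => S.pow_mem hA n) ?_
      · simpa [Function.comp_def] using ((hφ.comp continuous_uu).tendsto 0).comp (hz x)
      · simpa only [hu] using tendsto_const_nhds
    · refine hS _ (fun n => φ (ul ((t ^ 2) ^ n * x))) (fun n => A ^ n) (fun n => (A ^ n)⁻¹) ?_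
        (fun n => S.pow_mem hA n) (fun n => S.inv_mem (S.pow_mem hA n)) ?_
      · simpa [Function.comp_def] using ((hφ.comp continuous_ul).tendsto 0).comp (hz x)
      · simpa only [hl] using tendsto_const_nhds
  exact (Subgroup.eq_top_iff' _).1 this g

theorem maut_prod {F : Type} [Field F] (t : F) (h0 : t ≠ 0) (d e : F) (hd : d ≠ 0) (he : e ≠ 0) :
    uu (d * ((t - 1) / e)) * ul (e / d) * uu (d * (-((t - 1) / e) / t)) =
      ul (e / d / t) * dg t h0 := by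
  ext i j
  fin_cases i <;> fin_cases j <;> simp [Matrix.mul_apply, Fin.sum_univ_two] <;> field_simp <;> ring

/-- A hyperbolic real matrix is diagonalisable. -/
theorem maut_diag {g : SL(2, ℝ)} (hg : 2 < |g 0 0 + g 1 1|) :
    ∃ (P : SL(2, ℝ)) (t : ℝ) (h0 : t ≠ 0), |t| ≠ 1 ∧ g * P = P * dg t h0 := by
  have hdet : g 0 0 * g 1 1 - g 0 1 * g 1 0 = 1 := by
    have := g.det_coe
    rwa [Matrix.det_fin_two] at this
  have hT : 4 < (g 0 0 + g 1 1) ^ 2 := by
    rw [← sq_abs]; nlinarith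
  have hne : ∀ t : ℝ, t ^ 2 - (g 0 0 + g 1 1) * t + 1 = 0 → t ≠ 0 ∧ t ^ 2 ≠ 1 := by
    intro t ht
    constructor
    · rintro rfl
      simp at ht
    · intro h
      have h2 : (g 0 0 + g 1 1) * t = 2 := by linarith
      have h3 : (g 0 0 + g 1 1) ^ 2 * t ^ 2 = 4 := by rw [← mul_pow, h2]; norm_num
      rw [h] at h3
      linarith
  have habs : ∀ t : ℝ, t ^ 2 ≠ 1 → |t| ≠ 1 := fun t ht h => ht (by rw [← sq_abs, h]; norm_num)
  by_cases hc : g 1 0 = 0
  · rw [hc, mul_zero, sub_zero] at hdet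
    obtain ⟨a0, a1⟩ := hne (g 0 0) (by linear_combination -hdet)
    have a2 : g 1 1 = (g 0 0)⁻¹ := eq_inv_of_mul_eq_one_right hdet
    have a3 : 1 - g 0 0 ^ 2 ≠ 0 := sub_ne_zero.2 a1.symm
    refine ⟨uu (g 0 1 * g 0 0 / (1 - g 0 0 ^ 2)), g 0 0, a0, habs _ a1, ?_⟩
    ext i j
    fin_cases i <;> fin_cases j <;> simp [Matrix.mul_apply, Fin.sum_univ_two, hc, a2]
    field_simp
    ring
  · obtain ⟨r, hr⟩ : ∃ r : ℝ, r ^ 2 = (g 0 0 + g 1 1) ^ 2 - 4 :=
      ⟨_, Real.sq_sqrt (by linarith)⟩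
    obtain ⟨t, ht⟩ : ∃ t : ℝ, t ^ 2 - (g 0 0 + g 1 1) * t + 1 = 0 :=
      ⟨(g 0 0 + g 1 1 + r) / 2, by linear_combination hr / 4⟩
    obtain ⟨a0, a1⟩ := hne t ht
    have a3 : t ^ 2 - 1 ≠ 0 := sub_ne_zero.2 a1
    refine ⟨⟨!![t - g 1 1, (1 - t * g 1 1) / (g 1 0 * (t ^ 2 - 1)); g 1 0, t / (t ^ 2 - 1)], ?_⟩,
      t, a0, habs _ a1, ?_⟩
    · rw [Matrix.det_fin_two_of]
      field_simp
      ring
    · ext i j
      fin_cases i <;> fin_cases j <;> simp [Matrix.mul_apply, Fin.sum_univ_two]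
      · linear_combination -ht - hdet
      · field_simp
        linear_combination -ht - t ^ 2 * hdet
      · ring
      · field_simp
        ring

variable (p : ℕ) [Fact p.Prime]

theorem mautner_U {κ : Type} [Fintype κ] [DecidableEq κ] (S : Subgroup (κ → GG p)) (hS : MProp S)
    (d : κ → ℚ_[p]) (hd : ∀ k, d k ≠ 0) (h : ∀ s, (fun k => uP p (d k * s)) ∈ S) (k : κ)
    (g : SL(2, ℚ_[p])) : Pi.mulSingle (M := fun _ => GG p) k (1, g) ∈ S := by
  have h0 : (p : ℚ_[p]) ≠ 0 := Nat.cast_ne_zero.2 (Fact.out : p.Prime).ne_zero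
  have h1 : ‖(p : ℚ_[p])‖ < 1 := Padic.norm_p_lt_one
  have hz := tendsto_pow_atTop_nhds_zero_of_norm_lt_one h1
  have hA : (fun _ => ((1, dg (p : ℚ_[p]) h0) : GG p)) ∈ S := by
    refine hS _ (fun n j => (1, ul ((p : ℚ_[p]) ^ n / d j)))
      (fun n j => uP p (d j * (((p : ℚ_[p]) - 1) / p ^ n)))
      (fun n j => uP p (d j * (-(((p : ℚ_[p]) - 1) / p ^ n) / p))) ?_ (fun n => h _)
      (fun n => h _) ?_
    · refine tendsto_pi_nhds.2 fun j => tendsto_const_nhds.prodMk_nhds ?_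
      simpa [Function.comp_def] using (continuous_ul.tendsto _).comp (hz.div_const (d j))
    · refine tendsto_pi_nhds.2 fun j => ?_
      simp only [Pi.mul_apply, uP, Prod.mk_mul_mk, mul_one,
        maut_prod _ h0 _ _ (hd j) (pow_ne_zero _ h0)]
      refine tendsto_const_nhds.prodMk_nhds ?_
      simpa using ((continuous_ul.tendsto _).comp
        ((hz.div_const (d j)).div_const (p : ℚ_[p]))).mul_const (dg (p : ℚ_[p]) h0)
  refine maut_contract hS
    ((MonoidHom.mulSingle (fun _ : κ => GG p) k).comp (MonoidHom.inr _ _))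
    ((continuous_mulSingle (A := fun _ : κ => GG p) k).comp
      (continuous_const.prodMk continuous_id)) _ h0 h1 hA (fun b => ?_) g
  funext j
  by_cases hj : j = k
  · subst hj
    simp
  · simp [Pi.mulSingle_eq_of_ne hj]

theorem mautner_U1 (S : Subgroup (GG p)) (hS : MProp S) (h : ∀ s, uP p s ∈ S)
    (g : SL(2, ℚ_[p])) : ((1, g) : GG p) ∈ S := by
  have := mautner_U p (S.comap (Pi.evalMonoidHom (fun _ : Unit => GG p) ()))
    (maut_comap hS _ (continuous_apply ())) (fun _ => 1) (fun _ => one_ne_zero)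
    (fun s => h _) () g
  simpa using this

theorem mautner_hyp (S : Subgroup (GG p)) (hS : MProp S) {g : SL(2, ℝ)}
    (hg : 2 < |g 0 0 + g 1 1|) (h : ((g, 1) : GG p) ∈ S) (g' : SL(2, ℝ)) :
    ((g', 1) : GG p) ∈ S := by
  have key : ∀ (a P : SL(2, ℝ)) (t : ℝ) (h0 : t ≠ 0), |t| < 1 → a * P = P * dg t h0 →
      ((a, 1) : GG p) ∈ S → ((g', 1) : GG p) ∈ S := by
    intro a P t h0 h1 h2 h3
    have h4 : a = P * dg t h0 * P⁻¹ := eq_mul_inv_of_mul_eq h2
    have := maut_contract hS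
      ((MonoidHom.inl SL(2, ℝ) SL(2, ℚ_[p])).comp (MulAut.conj P).toMonoidHom)
      (((continuous_const.mul continuous_id).mul continuous_const).prodMk continuous_const)
      t h0 h1 h3 (fun b => by
        rw [h4]
        refine Prod.ext ?_ (by simp)
        simp [mul_assoc]) (P⁻¹ * g' * P)
    simpa [mul_assoc] using this
  obtain ⟨P, t, h0, h1, h2⟩ := maut_diag hg
  rcases lt_or_gt_of_ne h1 with h3 | h3
  · exact key g P t h0 h3 h2 h
  · refine key g⁻¹ P t⁻¹ (inv_ne_zero h0) (by rw [abs_inv]; exact inv_lt_one_of_one_lt₀ h3) ?_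
      (by simpa using S.inv_mem h)
    have : dg t h0 * dg t⁻¹ (inv_ne_zero h0) = 1 := by
      ext i j
      fin_cases i <;> fin_cases j <;> simp [Matrix.mul_apply, Fin.sum_univ_two, h0]
    rw [inv_mul_eq_iff_eq_mul, ← mul_assoc, h2, mul_assoc, this, mul_one]

end Pool.Agent.EQ
end
end

-- part Pool.Agent.P.MP_ad7a55_nt.TCr
section

/-! The part of the box with large moduli. -/

set_option autoImplicit false

noncomputable section

open Finset Matrix

namespace Pool.Agent.EQ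

namespace Dt

/-- The sizes of the box. -/
structure Sz (d : Dt) (H N : ℕ) : Prop where
  one : 1 ≤ H
  le : H ≤ N ^ 2
  ma : |d.m * d.a| ≤ H ^ 2
  low : (d.G ^ 2 * d.E).natAbs ≤ N ^ 8
  up : N ≤ (d.G ^ 2 * d.E).natAbs ^ 2

/-- The box. -/
structure Box (d : Dt) (H N : ℕ) (X Y : ℤ) : Prop where
  y : |Y| ≤ H
  x : |d.x₁ X Y| ≤ d.a * N
  ne : d.B X Y ≠ 0
  le : |d.B X Y| ≤ (H * N) ^ 2

open Classical in
def JJ (d : Dt) (X Y : ℤ) : ℕ :=
  ∏ l ∈ d.E.natAbs.primeFactors.filter (fun l => ¬ d.Dom l), l ^ d.ie l X Y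

def QQ (d : Dt) (Y : ℤ) : ℕ :=
  ∏ l ∈ d.E.natAbs.primeFactors.filter (fun l : ℕ => (l : ℤ) ∣ d.a ∧ (l : ℤ) ∣ Y), l

open Classical in
/-- The crude weight. -/
def WC (d : Dt) (X Y : ℤ) : ℝ := ∏ l ∈ d.PP X Y, if d.Dom l then 1 else d.W5 l X Y

theorem Box.ico {d : Dt} (ha : 0 < d.a) (N : ℕ) (Y : ℤ) :
    ∃ x₀ : ℤ, ∀ H X, d.Box H N X Y → x₀ ≤ X ∧ X < x₀ + (N + 1 : ℕ) := by
  refine ⟨-((d.a * N + d.b * Y) / (2 * d.a)), fun H X h => ?_⟩
  have h1 := abs_le.1 h.x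
  simp only [x₁] at h1
  have h2 : 0 < 2 * d.a := by linarith
  have h3 : -X ≤ (d.a * N + d.b * Y) / (2 * d.a) := (Int.le_ediv_iff_mul_le h2).2 (by linarith)
  have h4 := Int.ediv_mul_le (d.a * N + d.b * Y) h2.ne'
  refine ⟨by linarith, ?_⟩
  push_cast
  by_contra hc
  have h5 : -((d.a * N + d.b * Y) / (2 * d.a)) + (N + 1) ≤ X := not_lt.1 hc
  have h6 := mul_le_mul_of_nonneg_left h5 h2.le
  nlinarith [h1.2]

theorem WS_le {d : Dt} {κ : ℕ} (h : d.Good κ) {X Y : ℤ} (hB : d.B X Y ≠ 0) {S : Finset ℕ}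
    (hS : S ⊆ d.PP X Y) (hD : ∀ l ∈ S, ¬ d.Dom l) {w : ℕ → ℤ → ℤ → ℝ}
    (hw : ∀ l ∈ S, 0 ≤ w l X Y ∧ w l X Y ≤ d.W5 l X Y) : d.WS S w X Y ≤ d.WC X Y := by
  classical
  unfold WS WC
  rw [← prod_sdiff hS, mul_comm]
  refine mul_le_mul (prod_le_prod (fun l _ => Wt_nonneg l X Y) fun l hl => ?_)
    (prod_le_prod (fun l hl => (hw l hl).1) fun l hl => ?_)
    (prod_nonneg fun l hl => (hw l hl).1) (prod_nonneg fun l hl => ?_)
  · split_ifs with hd
    · rw [Wt, if_pos hd]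
    · exact Wt_le h (Nat.prime_of_mem_primeFactors (mem_sdiff.1 hl).1) hB
  · rw [if_neg (hD l hl)]
    exact (hw l hl).2
  · split_ifs with hd
    · exact zero_le_one
    · exact zero_le_one.trans (one_le_W5 (Nat.prime_of_mem_primeFactors (mem_sdiff.1 hl).1) X Y)

theorem tcr_sub (P T : Finset ℕ) (f g : ℕ → ℕ) (h1 : ∀ l ∈ P, l ∉ T → f l ≤ 1)
    (h2 : ∀ l ∈ T, 1 ≤ g l) (h3 : ∀ l ∈ P, l ∈ T → f l ≤ g l) :
    ∏ l ∈ P, f l ≤ ∏ l ∈ T, g l := by
  classical
  rw [← prod_filter_mul_prod_filter_not P (fun l => l ∈ T)]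
  have e1 : ∏ l ∈ P.filter (fun l => ¬ l ∈ T), f l ≤ 1 :=
    prod_le_one' fun l hl => h1 l (mem_filter.1 hl).1 (mem_filter.1 hl).2
  have e2 : ∏ l ∈ P.filter (fun l => l ∈ T), f l ≤ ∏ l ∈ T, g l :=
    (prod_le_prod' fun l hl => h3 l (mem_filter.1 hl).1 (mem_filter.1 hl).2).trans
      (prod_le_prod_of_subset_of_one_le' (fun l hl => (mem_filter.1 hl).2)
        fun l hl _ => h2 l hl)
  exact (Nat.mul_le_mul e2 e1).trans (by rw [mul_one])

theorem tcr_mem {d : Dt} {κ : ℕ} (h : d.Good κ) {l : ℕ} (hl : l.Prime) (hE : (l : ℤ) ∣ d.E) :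
    l ∈ d.E.natAbs.primeFactors :=
  Nat.mem_primeFactors.2 ⟨hl, Int.natCast_dvd.1 hE, Int.natAbs_ne_zero.2 h.E_neg.ne⟩

open Classical in
theorem tcr_J {d : Dt} {κ : ℕ} (h : d.Good κ) (X Y : ℤ) (P : Finset ℕ) (hP : ∀ l ∈ P, l.Prime) :
    ∏ l ∈ P, l ^ (if d.Dom l then 0 else d.ie l X Y) ≤ d.JJ X Y := by
  unfold JJ
  refine tcr_sub _ _ _ _ (fun l hl hT => ?_) (fun l hl => ?_) (fun l _ hT => ?_)
  · split_ifs with hd
    · simp
    · have h0 : d.ie l X Y = 0 := by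
        by_contra hc
        refine hT (mem_filter.2 ⟨tcr_mem h (hP l hl) ?_, hd⟩)
        exact (dvd_pow_self (l : ℤ) (by omega)).trans (ie_spec h (hP l hl) X Y).2.2.1
      rw [h0]; simp
  · exact Nat.one_le_pow _ _ (Nat.prime_of_mem_primeFactors (mem_filter.1 hl).1).pos
  · rw [if_neg (mem_filter.1 hT).2]

open Classical in
theorem mod_le {d : Dt} {κ : ℕ} (h : d.Good κ) (X Y : ℤ) (P : Finset ℕ) (hP : ∀ l ∈ P, l.Prime) :
    ∏ l ∈ P, l ^ (if d.Dom l then 0 else d.mu l X Y) ≤ d.JJ X Y ^ 2 * d.QQ Y := by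
  have h1 := tcr_J h X Y P hP
  have h2 : ∏ l ∈ P, l ^ (if (l : ℤ) ∣ d.E ∧ (l : ℤ) ∣ d.a ∧ (l : ℤ) ∣ Y then 1 else 0) ≤
      d.QQ Y := by
    unfold QQ
    refine tcr_sub _ _ _ _ (fun l hl hT => ?_) (fun l hl => ?_) (fun l hl _ => ?_)
    · rw [if_neg fun hc => hT (mem_filter.2 ⟨tcr_mem h (hP l hl) hc.1, hc.2⟩)]
      simp
    · exact (Nat.prime_of_mem_primeFactors (mem_filter.1 hl).1).pos
    · split_ifs
      · simp
      · simpa using (hP l hl).one_le
  refine le_trans ?_ (Nat.mul_le_mul (Nat.pow_le_pow_left h1 2) h2)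
  rw [← prod_pow, ← prod_mul_distrib]
  refine prod_le_prod' fun l hl => ?_
  rw [← pow_mul, ← pow_add]
  refine Nat.pow_le_pow_right (hP l hl).pos ?_
  by_cases hd : d.Dom l
  · rw [if_pos hd]; exact Nat.zero_le _
  · rw [if_neg hd, if_neg hd, mu, mul_comm]

theorem WC_le {ε : ℝ} (hε : 0 < ε) : ∃ C : ℝ, 0 < C ∧ ∀ (d : Dt) (κ : ℕ), d.Good κ → ∀ X Y : ℤ,
    d.B X Y ≠ 0 → d.WC X Y ≤ C * (|(8 * d.n * d.p * d.B X Y : ℝ)|) ^ ε * d.JJ X Y := by
  classical
  obtain ⟨C, hC, hb⟩ := omega_bound 16 hε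
  refine ⟨C, hC, fun d κ h X Y hB => ?_⟩
  have hp0 : (d.p : ℤ) ≠ 0 := by exact_mod_cast h.prime.ne_zero
  have h0 : 2 * d.n * d.p * d.B X Y ≠ 0 :=
    mul_ne_zero (mul_ne_zero (mul_ne_zero two_ne_zero h.n_ne) hp0) hB
  obtain ⟨M, hM⟩ : ∃ M : ℕ, M = (8 * d.n * d.p * d.B X Y).natAbs := ⟨_, rfl⟩
  have hM4 : M = 4 * (2 * d.n * d.p * d.B X Y).natAbs := by
    rw [hM, show 8 * d.n * d.p * d.B X Y = 4 * (2 * d.n * d.p * d.B X Y) by ring, Int.natAbs_mul]
    rfl
  have h1 : (2 * d.n * d.p * d.B X Y).natAbs ≠ 0 := Int.natAbs_ne_zero.2 h0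
  have hM0 : M ≠ 0 := by omega
  have hsub : d.PP X Y ⊆ M.primeFactors :=
    Nat.primeFactors_mono (hM4 ▸ Dvd.intro_left 4 rfl) hM0
  have hMR : (M : ℝ) = |(8 * d.n * d.p * d.B X Y : ℝ)| := by
    rw [hM, Nat.cast_natAbs]; push_cast; rfl
  have hP : ∀ l ∈ d.PP X Y, l.Prime := fun l hl => Nat.prime_of_mem_primeFactors hl
  have hge : ∀ l : ℕ, (1 : ℝ) ≤ 16 * ((M.factorization l : ℝ) + 1) ^ 3 := fun l => by
    have : (1 : ℝ) ≤ ((M.factorization l : ℝ) + 1) ^ 3 :=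
      one_le_pow₀ (by have := Nat.cast_nonneg (α := ℝ) (M.factorization l); linarith)
    linarith
  have h2 : d.WC X Y ≤ (∏ l ∈ d.PP X Y, (16 * ((M.factorization l : ℝ) + 1) ^ 3)) *
      ((∏ l ∈ d.PP X Y, l ^ (if d.Dom l then 0 else d.ie l X Y) : ℕ) : ℝ) := by
    unfold WC
    push_cast
    rw [← prod_mul_distrib]
    refine prod_le_prod (fun l hl => ?_) fun l hl => ?_
    · split_ifs
      · exact zero_le_one
      · exact zero_le_one.trans (one_le_W5 (hP l hl) X Y)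
    · split_ifs with hd
      · simpa using hge l
      · have hv : padicValInt l (4 * d.B X Y) ≤ M.factorization l := by
          have : Fact l.Prime := ⟨hP l hl⟩
          have e1 : (l : ℤ) ^ padicValInt l (4 * d.B X Y) ∣ 8 * d.n * d.p * d.B X Y :=
            (padicValInt_dvd _).trans ⟨2 * d.n * d.p, by ring⟩
          refine ((hP l hl).pow_dvd_iff_le_factorization hM0).1 ?_
          rw [hM]
          exact Int.natCast_dvd.1 (by exact_mod_cast e1)
        have hv' : (padicValInt l (4 * d.B X Y) : ℝ) ≤ M.factorization l := by exact_mod_cast hv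
        have hf : (0 : ℝ) ≤ M.factorization l := Nat.cast_nonneg _
        have e2 : (M.factorization l : ℝ) + 1 ≤ ((M.factorization l : ℝ) + 1) ^ 3 :=
          le_self_pow₀ (by linarith) (by norm_num)
        have e3 : (1 + if padicValInt l d.E ≤ 2 * d.ie l X Y + 3 then
            (padicValInt l (4 * d.B X Y) : ℝ) else 0) ≤ ((M.factorization l : ℝ) + 1) ^ 3 := by
          split_ifs <;> linarith
        unfold W5
        have e4 : (0 : ℝ) ≤ 16 * (l : ℝ) ^ d.ie l X Y := by positivity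
        calc _ ≤ 16 * (l : ℝ) ^ d.ie l X Y * ((M.factorization l : ℝ) + 1) ^ 3 :=
              mul_le_mul_of_nonneg_left e3 e4
          _ = _ := by ring
  refine h2.trans (mul_le_mul ?_ (by exact_mod_cast tcr_J h X Y _ hP) (by positivity)
    (by positivity))
  rw [← hMR]
  refine le_trans ?_ (hb M hM0)
  rw [← prod_sdiff hsub]
  exact le_mul_of_one_le_left (prod_nonneg fun l _ => zero_le_one.trans (hge l))
    (Finset.one_le_prod fun l _ => hge l)

theorem tcr_fibre {α β : Type} [DecidableEq β] (s : Finset α) (t : Finset β) (f : α → β)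
    (w : α → ℝ) (M : ℝ) (hf : ∀ a ∈ s, f a ∈ t)
    (h : ∀ b ∈ t, ∑ a ∈ s.filter (fun a => f a = b), w a ≤ M) :
    ∑ a ∈ s, w a ≤ t.card * M := by
  rw [← sum_fiberwise_of_maps_to hf, ← nsmul_eq_mul]
  exact sum_le_card_nsmul _ _ _ h

theorem tcr_card {α β : Type} [DecidableEq β] (s : Finset α) (t : Finset β) (f : α → β)
    (M : ℝ) (hf : ∀ a ∈ s, f a ∈ t)
    (h : ∀ b ∈ t, ((s.filter (fun a => f a = b)).card : ℝ) ≤ M) :
    (s.card : ℝ) ≤ t.card * M := by
  have := tcr_fibre s t f (fun _ => 1) M hf (fun b hb => by simpa using h b hb)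
  simpa using this

theorem tcr_class {q : ℕ} (hq : 0 < q) (c x₀ : ℤ) (N : ℕ) (S : Finset ℤ)
    (hS : ∀ x ∈ S, x₀ ≤ x ∧ x < x₀ + N ∧ (q : ℤ) ∣ x - c) : (S.card : ℝ) ≤ N / q + 1 := by
  have h1 := card_le_cnt hq (A := fun x => (q : ℤ) ∣ x - c) (fun x y h1 h2 => by
    have := dvd_sub h2 h1
    rwa [show x - c - (x - y) = y - c by ring] at this) x₀ N S hS
  have h2 : cnt q (fun x => (q : ℤ) ∣ x - c) ≤ 1 := tqd_le_one fun x y h1 h2 => by
    have := dvd_sub h1 h2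
    rwa [show x - c - (y - c) = x - y by ring] at this
  have h3 : (cnt q (fun x => (q : ℤ) ∣ x - c) : ℝ) ≤ 1 := by exact_mod_cast h2
  exact h1.trans (mul_le_of_le_one_left (by positivity) h3)

theorem tcr_box {d : Dt} (ha : 0 < d.a) (H N : ℕ) {q₁ q₂ : ℕ} (h₁ : 0 < q₁) (h₂ : 0 < q₂)
    (c₁ c₂ : ℤ) (S : Finset (ℤ × ℤ))
    (hS : ∀ z ∈ S, d.Box H N z.1 z.2 ∧ (q₁ : ℤ) ∣ z.1 - c₁ ∧ (q₂ : ℤ) ∣ z.2 - c₂) :
    (S.card : ℝ) ≤ ((2 * H + 1) / q₂ + 1) * ((N + 1) / q₁ + 1) := by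
  classical
  have h1 := tcr_card S (S.image Prod.snd) Prod.snd ((N + 1) / q₁ + 1)
    (fun a ha => mem_image_of_mem _ ha) (fun Y _ => by
      obtain ⟨x₀, hx⟩ := Box.ico ha N Y
      have h2 := tcr_class h₁ c₁ x₀ (N + 1) ((S.filter fun a => a.2 = Y).image Prod.fst)
        (fun x hx' => by
          obtain ⟨z, hz, rfl⟩ := mem_image.1 hx'
          obtain ⟨hz1, hz2⟩ := mem_filter.1 hz
          have h3 := hx H z.1 (hz2 ▸ (hS z hz1).1)
          exact ⟨h3.1, h3.2, (hS z hz1).2.1⟩)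
      rw [card_image_of_injOn] at h2
      · push_cast at h2
        exact h2
      · intro z hz z' hz' he
        exact Prod.ext he ((mem_filter.1 hz).2.trans (mem_filter.1 hz').2.symm))
  have h2 := tcr_class h₂ c₂ (-H) (2 * H + 1) (S.image Prod.snd) (fun y hy => by
    obtain ⟨z, hz, rfl⟩ := mem_image.1 hy
    have h3 := abs_le.1 (hS z hz).1.y
    refine ⟨h3.1, ?_, (hS z hz).2.2⟩
    push_cast
    linarith [h3.2])
  push_cast at h2
  exact h1.trans (mul_le_mul_of_nonneg_right h2 (by positivity))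

theorem tcr_prod_dvd (T : Finset ℕ) (hT : ∀ l ∈ T, l.Prime) (e : ℕ → ℕ) (z : ℤ)
    (h : ∀ l ∈ T, (l : ℤ) ^ e l ∣ z) : ((∏ l ∈ T, l ^ e l : ℕ) : ℤ) ∣ z := by
  push_cast
  refine Finset.prod_dvd_of_coprime (fun l hl l' hl' hne => ?_) h
  exact (Nat.isCoprime_iff_coprime.2 ((Nat.coprime_primes (hT l hl) (hT l' hl')).2 hne)).pow

theorem tcr_fac (T : Finset ℕ) (hT : ∀ l ∈ T, l.Prime) (e : ℕ → ℕ) (q : ℕ) :
    (∏ l ∈ T, l ^ e l).factorization q = if q ∈ T then e q else 0 := by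
  rw [Nat.factorization_prod fun l hl => pow_ne_zero _ (hT l hl).ne_zero, Finsupp.finsetSum_apply,
    sum_congr rfl fun l hl => by rw [(hT l hl).factorization_pow, Finsupp.single_apply]]
  exact sum_ite_eq' T q e

theorem tcr_pairs (q : ℕ) (A : ℤ → Prop) (R : ℤ → ℤ → Prop) (α : ℕ) (hA : cnt q A ≤ α)
    (hR : ∀ s, cnt q (R s) ≤ 2) (L : Finset (ℕ × ℕ)) (f g : ℕ × ℕ → ℕ)
    (hfg : ∀ z z', f z = f z' → g z = g z' → z = z')
    (hL : ∀ z ∈ L, f z < q ∧ g z < q ∧ A (f z) ∧ R (f z) (g z)) : L.card ≤ 2 * α := by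
  classical
  refine le_trans (card_le_mul_card_image_of_maps_to (f := f)
    (t := (range q).filter fun r : ℕ => A r) (fun z hz => ?_) 2 fun s _ => ?_)
    (Nat.mul_le_mul_left 2 ?_)
  · exact mem_filter.2 ⟨mem_range.2 (hL z hz).1, (hL z hz).2.2.1⟩
  · refine le_trans ?_ (hR s)
    rw [tqd_cnt]
    refine card_le_card_of_injOn g (fun z hz => ?_) fun z hz z' hz' he => ?_
    · obtain ⟨h1, h2⟩ := mem_filter.1 hz
      exact mem_filter.2 ⟨mem_range.2 (hL z h1).2.1, h2 ▸ (hL z h1).2.2.2⟩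
    · exact hfg z z' ((mem_filter.1 hz).2.trans (mem_filter.1 hz').2.symm) he
  · exact (tqd_cnt q A).symm.le.trans hA

theorem tcr_sq {d : Dt} {κ : ℕ} (h : d.Good κ) {l : ℕ} (hl : l.Prime) (hD : ¬ d.Dom l) {u : ℤ}
    (hu : ¬ (l : ℤ) ∣ u) (k : ℕ) :
    cnt (l ^ k) (fun r => (l : ℤ) ^ k ∣ r ^ 2 - 4 * (d.m * u)) ≤
      4 * (2 * d.n.natAbs * d.p) ^ (d.n.natAbs + κ + 2) := by
  have hv := val_m h hl hD
  have hp := tqd_prime hl
  have hpos : 0 < 2 * d.n.natAbs * d.p :=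
    Nat.mul_pos (Nat.mul_pos two_pos (Int.natAbs_pos.2 h.n_ne)) h.prime.pos
  by_cases hc : (l : ℤ) ∣ 2 * d.n * d.p
  · have hle : l ≤ 2 * d.n.natAbs * d.p := by
      refine Nat.le_of_dvd hpos ?_
      have := Int.natCast_dvd.1 hc
      simpa [Int.natAbs_mul] using this
    refine (cnt_sq_le' hl k (d.n.natAbs + κ + 2) fun h1 => ?_).trans
      (Nat.mul_le_mul_left 4 (Nat.pow_le_pow_left hle _))
    have h2 := tqd_split hl 2 (2 * (d.n.natAbs + κ + 2)) _ _ h1 (fun h3 => by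
      have h4 := Int.le_of_dvd (by norm_num) h3
      have h5 : (2 : ℤ) ≤ l := by exact_mod_cast hl.two_le
      have h6 : (2 : ℤ) ^ (2 + 1) ≤ (l : ℤ) ^ (2 + 1) := pow_le_pow_left₀ (by norm_num) h5 _
      norm_num at h6 h4
      linarith)
    rw [mul_comm d.m u] at h2
    have h3 := tqd_split hl 0 (2 * (d.n.natAbs + κ + 2)) _ _ h2 (by simpa using hu)
    have : Fact l.Prime := ⟨hl⟩
    have hm0 : d.m ≠ 0 := by
      have : (d.G : ℤ) ≠ 0 := by exact_mod_cast (Nat.mul_pos h.g₁_pos h.g₂_pos).ne'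
      exact mul_ne_zero h.n_ne this
    have h4 := ((padicValInt_dvd_iff _ _).1 h3).resolve_left hm0
    omega
  · refine (cnt_sq_le' hl k 0 fun h1 => ?_).trans
      (Nat.mul_le_mul_left 4 (by rw [pow_zero]; exact Nat.one_le_pow _ _ hpos))
    have h2 : (l : ℤ) ∣ 4 * (d.m * u) := (dvd_pow_self _ (by norm_num)).trans h1
    rcases hp.dvd_or_dvd h2 with h3 | h3
    · have h4 : (l : ℤ) ∣ 2 := hp.dvd_of_dvd_pow (n := 2) (by norm_num; exact h3)
      exact hc ((h4.mul_right _).mul_right _)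
    · rcases hp.dvd_or_dvd h3 with h4 | h4
      · exact hv.2 hc h4
      · exact hu h4

/-- The admissible pairs of residues. -/
def tcrL (d : Dt) (l k : ℕ) : Finset (ℕ × ℕ) :=
  (range (l ^ k) ×ˢ range (l ^ k)).filter fun z =>
    (l : ℤ) ^ k ∣ d.xe l z.1 z.2 ∧ (l : ℤ) ^ k ∣ d.Δe l z.1 z.2

theorem tcr_L {d : Dt} {κ : ℕ} (h : d.Good κ) {l : ℕ} (hl : l.Prime) (hD : ¬ d.Dom l)
    (hE : (l : ℤ) ∣ d.E) (k : ℕ) :
    (tcrL d l k).card ≤ 2 * (4 * (2 * d.n.natAbs * d.p) ^ (d.n.natAbs + κ + 2)) := by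
  by_cases ha : (l : ℤ) ∣ d.a
  · have hc := (not_dvd_c h hl ha hE).2
    refine tcr_pairs _ _ (fun s r => (l : ℤ) ^ k ∣ 2 * d.c * r + d.b * s) _ (tcr_sq h hl hD hc k)
      (fun s => cnt_lin_le hl k hc _) _ Prod.fst Prod.snd (fun z z' h1 h2 => Prod.ext h1 h2)
      fun z hz => ?_
    obtain ⟨h1, h2, h3⟩ := mem_filter.1 hz
    rw [xe, if_pos ha] at h2
    rw [Δe, if_pos ha] at h3
    exact ⟨mem_range.1 (mem_product.1 h1).1, mem_range.1 (mem_product.1 h1).2, h3, h2⟩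
  · refine tcr_pairs _ _ (fun s r => (l : ℤ) ^ k ∣ 2 * d.a * r + d.b * s) _ (tcr_sq h hl hD ha k)
      (fun s => cnt_lin_le hl k ha _) _ Prod.snd Prod.fst (fun z z' h1 h2 => Prod.ext h2 h1)
      fun z hz => ?_
    obtain ⟨h1, h2, h3⟩ := mem_filter.1 hz
    rw [xe, if_neg ha, x₁, add_comm] at h2
    rw [Δe, if_neg ha] at h3
    exact ⟨mem_range.1 (mem_product.1 h1).2, mem_range.1 (mem_product.1 h1).1, h3, h2⟩

/-- The least residue. -/
def tcrR (q : ℕ) (X : ℤ) : ℕ := (X % q).toNat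

theorem tcr_res {q : ℕ} (hq : 0 < q) (X : ℤ) :
    tcrR q X < q ∧ (q : ℤ) ∣ X - tcrR q X := by
  unfold tcrR
  have hq' : (0 : ℤ) < q := by exact_mod_cast hq
  have h1 := Int.emod_nonneg X hq'.ne'
  have h2 := Int.emod_lt_of_pos X hq'
  refine ⟨by omega, ?_⟩
  rw [Int.toNat_of_nonneg h1]
  exact Int.dvd_self_sub_emod

theorem tcr_memL (d : Dt) {l : ℕ} (hl : l.Prime) (k : ℕ) {X Y : ℤ}
    (h1 : (l : ℤ) ^ k ∣ d.xe l X Y) (h2 : (l : ℤ) ^ k ∣ d.Δe l X Y) :
    (tcrR (l ^ k) X, tcrR (l ^ k) Y) ∈ tcrL d l k := by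
  obtain ⟨a1, a2⟩ := tcr_res (pow_pos hl.pos k) X
  obtain ⟨b1, b2⟩ := tcr_res (pow_pos hl.pos k) Y
  generalize tcrR (l ^ k) X = r at a1 a2 ⊢
  generalize tcrR (l ^ k) Y = s at b1 b2 ⊢
  push_cast at a2 b2
  refine mem_filter.2 ⟨mem_product.2 ⟨mem_range.2 a1, mem_range.2 b1⟩, ?_⟩
  by_cases ha : (l : ℤ) ∣ d.a
  · simp only [xe, Δe, if_pos ha, x₂, Δ₂] at h1 h2 ⊢
    constructor
    · have := dvd_sub h1 (dvd_add (b2.mul_left (2 * d.c)) (a2.mul_left d.b))
      rwa [show 2 * d.c * Y + d.b * X - (2 * d.c * (Y - s) + d.b * (X - r)) =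
        2 * d.c * s + d.b * r by ring] at this
    · have := dvd_sub h2 (a2.mul_right (X + r))
      rwa [show X ^ 2 - 4 * (d.m * d.c) - (X - r) * (X + r) = r ^ 2 - 4 * (d.m * d.c) by ring]
        at this
  · simp only [xe, Δe, if_neg ha, x₁, Δ₁] at h1 h2 ⊢
    constructor
    · have := dvd_sub h1 (dvd_add (b2.mul_left d.b) (a2.mul_left (2 * d.a)))
      rwa [show d.b * Y + 2 * d.a * X - (d.b * (Y - s) + 2 * d.a * (X - r)) =
        d.b * s + 2 * d.a * r by ring] at this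
    · have := dvd_sub h2 (b2.mul_right (Y + s))
      rwa [show Y ^ 2 - 4 * (d.m * d.a) - (Y - s) * (Y + s) = s ^ 2 - 4 * (d.m * d.a) by ring]
        at this

theorem tcr_JJ {d : Dt} {κ : ℕ} (h : d.Good κ) (X Y : ℤ) :
    0 < d.JJ X Y ∧ d.JJ X Y ∣ d.E.natAbs ∧ ((d.JJ X Y : ℤ) ^ 4 ∣ 4 * d.B X Y) ∧
      ∀ l ∈ (d.JJ X Y).primeFactors, ¬ d.Dom l ∧ (l : ℤ) ∣ d.E ∧
        (d.JJ X Y).factorization l = d.ie l X Y := by
  classical
  have hT : ∀ l ∈ d.E.natAbs.primeFactors.filter (fun l => ¬ d.Dom l), l.Prime :=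
    fun l hl => Nat.prime_of_mem_primeFactors (mem_filter.1 hl).1
  refine ⟨prod_pos fun l hl => pow_pos (hT l hl).pos _, ?_, ?_, fun l hl => ?_⟩
  · refine Int.natCast_dvd.1 (tcr_prod_dvd _ hT _ _ fun l hl => ?_)
    exact (pow_dvd_pow _ (by omega)).trans (ie_spec h (hT l hl) X Y).2.2.1
  · have h1 := tcr_prod_dvd _ hT (fun l => 4 * d.ie l X Y) _
      fun l hl => (ie_spec h (hT l hl) X Y).2.2.2
    have e : d.JJ X Y ^ 4 = ∏ l ∈ d.E.natAbs.primeFactors.filter (fun l => ¬ d.Dom l),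
        l ^ (4 * d.ie l X Y) := by
      unfold JJ
      rw [← prod_pow]
      exact prod_congr rfl fun l _ => by rw [← pow_mul, mul_comm]
    rw [← e] at h1
    exact_mod_cast h1
  · have h1 := tcr_fac _ hT (fun l => d.ie l X Y) l
    have h2 : (d.JJ X Y).factorization l ≠ 0 := Finsupp.mem_support_iff.1 hl
    have h3 : l ∈ d.E.natAbs.primeFactors.filter (fun l => ¬ d.Dom l) := by
      by_contra hc
      rw [if_neg hc] at h1
      exact h2 h1
    rw [if_pos h3] at h1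
    exact ⟨(mem_filter.1 h3).2,
      Int.natCast_dvd.2 (Nat.dvd_of_mem_primeFactors (mem_filter.1 h3).1), h1⟩

theorem tcr_cntJ {d : Dt} {κ : ℕ} (h : d.Good κ) (H N J : ℕ) (hJ : 0 < J) (S : Finset (ℤ × ℤ))
    (hS : ∀ z ∈ S, d.Box H N z.1 z.2 ∧ d.JJ z.1 z.2 = J) :
    (S.card : ℝ) ≤ (∏ _l ∈ J.primeFactors,
      ((2 * (4 * (2 * d.n.natAbs * d.p) ^ (d.n.natAbs + κ + 2)) : ℕ) : ℝ)) *
      (((2 * H + 1) / (J ^ 2 : ℕ) + 1) * ((N + 1) / (J ^ 2 : ℕ) + 1)) := by
  classical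
  rcases S.eq_empty_or_nonempty with h0 | ⟨z0, hz0⟩
  · rw [h0, card_empty, Nat.cast_zero]; positivity
  have hP : ∀ l ∈ J.primeFactors, l.Prime := fun l hl => Nat.prime_of_mem_primeFactors hl
  have hJ2 : J ^ 2 = ∏ l ∈ J.primeFactors, l ^ (2 * J.factorization l) := by
    conv_lhs => rw [← Nat.prod_factorization_pow_eq_self hJ.ne']
    rw [Finsupp.prod, ← prod_pow]
    exact prod_congr rfl fun l _ => by rw [← pow_mul, mul_comm]
  have h1 := tcr_card S
    (Fintype.piFinset fun l : J.primeFactors => tcrL d l (2 * J.factorization l))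
    (fun z l => (tcrR ((l : ℕ) ^ (2 * J.factorization l)) z.1,
      tcrR ((l : ℕ) ^ (2 * J.factorization l)) z.2))
    (((2 * H + 1) / (J ^ 2 : ℕ) + 1) * ((N + 1) / (J ^ 2 : ℕ) + 1))
    (fun z hz => Fintype.mem_piFinset.2 fun l => by
      have h2 := (tcr_JJ h z.1 z.2).2.2.2
      rw [(hS z hz).2] at h2
      have h3 := ie_spec h (hP l l.2) z.1 z.2
      rw [← (h2 l l.2).2.2] at h3
      exact tcr_memL d (hP l l.2) _ h3.1 h3.2.1)
    (fun b _ => by
      rcases (S.filter fun z => (fun l : J.primeFactors =>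
        (tcrR ((l : ℕ) ^ (2 * J.factorization l)) z.1,
          tcrR ((l : ℕ) ^ (2 * J.factorization l)) z.2)) = b).eq_empty_or_nonempty
        with h0 | ⟨z1, hz1⟩
      · rw [h0, card_empty, Nat.cast_zero]; positivity
      refine tcr_box h.a_pos H N (pow_pos hJ 2) (pow_pos hJ 2) z1.1 z1.2 _ fun z hz => ?_
      have e := (mem_filter.1 hz).2.trans (mem_filter.1 hz1).2.symm
      have key : ∀ (l : ℕ) (x y : ℤ), l ∈ J.primeFactors →
          tcrR (l ^ (2 * J.factorization l)) x = tcrR (l ^ (2 * J.factorization l)) y →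
          (l : ℤ) ^ (2 * J.factorization l) ∣ x - y := by
        intro l x y hl he
        have a1 := (tcr_res (pow_pos (hP l hl).pos (2 * J.factorization l)) x).2
        have a2 := (tcr_res (pow_pos (hP l hl).pos (2 * J.factorization l)) y).2
        rw [he] at a1
        have a3 := dvd_sub a1 a2
        rw [sub_sub_sub_cancel_right] at a3
        exact_mod_cast a3
      rw [hJ2]
      exact ⟨(hS z (mem_filter.1 hz).1).1,
        tcr_prod_dvd _ hP _ _ fun l hl => key l _ _ hl (congrArg Prod.fst (congrFun e ⟨l, hl⟩)),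
        tcr_prod_dvd _ hP _ _ fun l hl => key l _ _ hl (congrArg Prod.snd (congrFun e ⟨l, hl⟩))⟩)
  refine h1.trans (mul_le_mul_of_nonneg_right ?_ (by positivity))
  rw [Fintype.card_piFinset,
    prod_coe_sort J.primeFactors (fun l => (tcrL d l (2 * J.factorization l)).card)]
  have h2 := (tcr_JJ h z0.1 z0.2).2.2.2
  rw [(hS z0 hz0).2] at h2
  rw [← Nat.cast_prod]
  exact Nat.cast_le.2 (prod_le_prod' fun l hl => tcr_L h (hP l hl) (h2 l hl).1 (h2 l hl).2.1 _)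

theorem tcr_num {H N J : ℝ} (hH : 1 ≤ H) (hN : 1 ≤ N) (hJ : 1 ≤ J) (h : J ^ 2 ≤ 2 * (H * N)) :
    J * (((2 * H + 1) / J ^ 2 + 1) * ((N + 1) / J ^ 2 + 1)) ≤ 13 * (H * N) / J := by
  have hJ0 : 0 < J := by linarith
  have hJ2 : 1 ≤ J ^ 2 := one_le_pow₀ hJ
  rw [le_div_iff₀ hJ0]
  have e : J * (((2 * H + 1) / J ^ 2 + 1) * ((N + 1) / J ^ 2 + 1)) * J =
      (2 * H + 1) * (N + 1) / J ^ 2 + (2 * H + 1) + (N + 1) + J ^ 2 := by
    field_simp
    ring
  have h1 : (2 * H + 1) * (N + 1) / J ^ 2 ≤ (2 * H + 1) * (N + 1) :=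
    div_le_self (by positivity) hJ2
  have h2 : H ≤ H * N := le_mul_of_one_le_right (by linarith) hN
  have h3 : N ≤ H * N := le_mul_of_one_le_left (by linarith) hH
  rw [e]
  nlinarith

theorem crude_sum (n : ℤ) (p κ : ℕ) : ∃ N₀ : ℕ, ∀ d : Dt, d.Good κ → d.n = n → d.p = p →
    ∀ H N : ℕ, d.Sz H N → N₀ ≤ N → ∀ Z : Finset (ℤ × ℤ),
    (∀ z ∈ Z, d.Box H N z.1 z.2 ∧ (N < d.JJ z.1 z.2 ^ 32 ∨ N < d.QQ z.2 ^ 4)) →
    ∑ z ∈ Z, d.WC z.1 z.2 ≤ (N : ℝ) ^ (99 / 100 : ℝ) * H := by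
  classical
  have hε : (0 : ℝ) < 1 / 25600 := by norm_num
  obtain ⟨C1, hC1, hW⟩ := WC_le hε
  obtain ⟨C2, hC2, hO⟩ := omega_bound
    ((2 * (4 * (2 * n.natAbs * p) ^ (n.natAbs + κ + 2)) : ℕ) : ℝ) hε
  obtain ⟨C3, hC3, hDv⟩ := div_bound hε
  obtain ⟨C, hC⟩ : ∃ C : ℝ, C = 13 * C1 * C2 * C3 + 12 * C1 * C3 + 1 := ⟨_, rfl⟩
  have hC0 : 1 ≤ C := by
    have : 0 ≤ 13 * C1 * C2 * C3 + 12 * C1 * C3 := by positivity
    linarith
  refine ⟨max (max 1 (8 * n.natAbs * p)) ⌈C ^ 3200⌉₊, fun d h hn hp H N hS hN Z hZ => ?_⟩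
  subst hn hp
  have hN1 : 1 ≤ N := ((le_max_left _ _).trans (le_max_left _ _)).trans hN
  have hN2 : 8 * d.n.natAbs * d.p ≤ N := ((le_max_right _ _).trans (le_max_left _ _)).trans hN
  have hN3 : C ^ 3200 ≤ N := Nat.ceil_le.1 ((le_max_right _ _).trans hN)
  have hNR : (1 : ℝ) ≤ N := by exact_mod_cast hN1
  have hHR : (1 : ℝ) ≤ H := by exact_mod_cast hS.one
  obtain ⟨u, hu⟩ : ∃ u : ℝ, u = (N : ℝ) ^ (1 / 3200 : ℝ) := ⟨_, rfl⟩
  have hu0 : 0 < u := by rw [hu]; positivity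
  have hupow : ∀ k : ℕ, u ^ k = (N : ℝ) ^ ((k : ℝ) / 3200) := fun k => by
    rw [hu, ← Real.rpow_natCast, ← Real.rpow_mul (by positivity)]
    congr 1; ring
  have huN : u ^ 3200 = N := by rw [hupow]; norm_num
  have hu99 : (N : ℝ) ^ (99 / 100 : ℝ) = u ^ 3168 := by rw [hupow]; norm_num
  have hCu : C ≤ u :=
    le_of_pow_le_pow_left₀ (n := 3200) (by norm_num) hu0.le (hN3.trans huN.ge)
  have hu1 : 1 ≤ u := hC0.trans hCu
  have heps : ∀ x : ℕ, x ≤ N ^ 8 → (x : ℝ) ^ (1 / 25600 : ℝ) ≤ u := fun x hx => by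
    have h1 : (x : ℝ) ≤ (N : ℝ) ^ 8 := by exact_mod_cast hx
    refine (Real.rpow_le_rpow (Nat.cast_nonneg _) h1 hε.le).trans (le_of_eq ?_)
    rw [hu, ← Real.rpow_natCast, ← Real.rpow_mul (by positivity)]
    norm_num
  have hG : 1 ≤ d.G := Nat.mul_pos h.g₁_pos h.g₂_pos
  have hE0 : 0 < d.E.natAbs := Int.natAbs_pos.2 h.E_neg.ne
  have hE : d.E.natAbs ≤ N ^ 8 := by
    refine le_trans ?_ hS.low
    rw [Int.natAbs_mul, Int.natAbs_pow, Int.natAbs_natCast]
    exact Nat.le_mul_of_pos_left _ (pow_pos hG 2)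
  have ha0 : 0 < d.a.natAbs := Int.natAbs_pos.2 h.a_pos.ne'
  have haH : d.a.natAbs ≤ H ^ 2 := by
    have h1 : (d.m * d.a).natAbs ≤ H ^ 2 := by
      have := hS.ma
      rw [← Int.natCast_natAbs] at this
      exact_mod_cast this
    refine le_trans ?_ h1
    rw [Int.natAbs_mul]
    refine Nat.le_mul_of_pos_left _ (Int.natAbs_pos.2 (mul_ne_zero h.n_ne ?_))
    exact_mod_cast (Nat.pos_iff_ne_zero.1 hG)
  have haN : d.a.natAbs ≤ N ^ 8 := by
    refine haH.trans ((Nat.pow_le_pow_left hS.le 2).trans ?_)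
    rw [← pow_mul]
    exact Nat.pow_le_pow_right hN1 (by norm_num)
  have hBn : ∀ z ∈ Z, (d.B z.1 z.2).natAbs ≤ (H * N) ^ 2 := fun z hz => by
    have := (hZ z hz).1.le
    rw [← Int.natCast_natAbs] at this
    exact_mod_cast this
  have hWC : ∀ z ∈ Z, d.WC z.1 z.2 ≤ C1 * u * d.JJ z.1 z.2 := fun z hz => by
    refine (hW d κ h z.1 z.2 (hZ z hz).1.ne).trans
      (mul_le_mul_of_nonneg_right (mul_le_mul_of_nonneg_left ?_ hC1.le) (Nat.cast_nonneg _))
    have e : |(8 * d.n * d.p * d.B z.1 z.2 : ℝ)| =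
        ((8 * d.n.natAbs * d.p * (d.B z.1 z.2).natAbs : ℕ) : ℝ) := by
      push_cast [Nat.cast_natAbs]
      rw [abs_mul, abs_mul, abs_mul, Nat.abs_cast, abs_of_pos (by norm_num : (0 : ℝ) < 8)]
    rw [e]
    refine heps _ ?_
    calc 8 * d.n.natAbs * d.p * (d.B z.1 z.2).natAbs ≤ N * (N ^ 2 * N) ^ 2 :=
          Nat.mul_le_mul hN2 ((hBn z hz).trans
            (Nat.pow_le_pow_left (Nat.mul_le_mul_right _ hS.le) 2))
      _ = N ^ 7 := by ring
      _ ≤ N ^ 8 := Nat.pow_le_pow_right hN1 (by norm_num)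
  have P1 : ∑ z ∈ Z.filter (fun z => N < d.JJ z.1 z.2 ^ 32), d.WC z.1 z.2 ≤
      13 * C1 * C2 * C3 * (u ^ 3103 * H) := by
    have h1 := tcr_fibre (Z.filter fun z => N < d.JJ z.1 z.2 ^ 32) d.E.natAbs.divisors
      (fun z => d.JJ z.1 z.2) (fun z => d.WC z.1 z.2) (13 * C1 * C2 * (u ^ 3102 * H))
      (fun z _ => Nat.mem_divisors.2 ⟨(tcr_JJ h z.1 z.2).2.1, hE0.ne'⟩) (fun J hJ => by
        obtain ⟨S, hSd⟩ : ∃ S, S = (Z.filter fun z => N < d.JJ z.1 z.2 ^ 32).filter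
          fun z => d.JJ z.1 z.2 = J := ⟨_, rfl⟩
        rw [← hSd]
        have hSm : ∀ z ∈ S, z ∈ Z ∧ N < d.JJ z.1 z.2 ^ 32 ∧ d.JJ z.1 z.2 = J := fun z hz => by
          rw [hSd] at hz
          exact ⟨(mem_filter.1 (mem_filter.1 hz).1).1, (mem_filter.1 (mem_filter.1 hz).1).2,
            (mem_filter.1 hz).2⟩
        rcases S.eq_empty_or_nonempty with h0 | ⟨z0, hz0⟩
        · rw [h0, sum_empty]; positivity
        obtain ⟨m1, m2, m3⟩ := hSm z0 hz0
        have hJ0 : 0 < J := Nat.pos_of_mem_divisors hJ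
        have hJR : (1 : ℝ) ≤ J := by exact_mod_cast hJ0
        have hJ4 : J ^ 2 ≤ 2 * (H * N) := by
          have a1 := (tcr_JJ h z0.1 z0.2).2.2.1
          rw [m3] at a1
          have a2 : J ^ 4 ∣ 4 * (d.B z0.1 z0.2).natAbs := by
            have := Int.natCast_dvd.1 (show ((J ^ 4 : ℕ) : ℤ) ∣ _ by exact_mod_cast a1)
            rwa [Int.natAbs_mul] at this
          have a3 := Nat.le_of_dvd (Nat.mul_pos (by norm_num) (Int.natAbs_pos.2 (hZ z0 m1).1.ne)) a2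
          have a4 := hBn z0 m1
          refine (Nat.pow_le_pow_iff_left (n := 2) (by norm_num)).1 ?_
          calc (J ^ 2) ^ 2 = J ^ 4 := by ring
            _ ≤ 4 * (H * N) ^ 2 := by omega
            _ = (2 * (H * N)) ^ 2 := by ring
        have hJu : u ^ 100 ≤ J := by
          refine le_of_pow_le_pow_left₀ (n := 32) (by norm_num) (by positivity) ?_
          rw [← pow_mul, huN, ← m3]
          exact_mod_cast m2.le
        have a1 := tcr_cntJ h H N J hJ0 S fun z hz => ⟨(hZ z (hSm z hz).1).1, (hSm z hz).2.2⟩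
        have a2 : (∏ _l ∈ J.primeFactors,
            ((2 * (4 * (2 * d.n.natAbs * d.p) ^ (d.n.natAbs + κ + 2)) : ℕ) : ℝ)) ≤ C2 * u := by
          refine le_trans (prod_le_prod (fun _ _ => Nat.cast_nonneg _) fun l _ => ?_)
            ((hO J hJ0.ne').trans (mul_le_mul_of_nonneg_left (heps J ?_) hC2.le))
          · refine le_mul_of_one_le_right (Nat.cast_nonneg _) (one_le_pow₀ ?_)
            have := Nat.cast_nonneg (α := ℝ) (J.factorization l)
            linarith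
          · exact (Nat.le_of_dvd hE0 (Nat.dvd_of_mem_divisors hJ)).trans hE
        have a3 := tcr_num hHR hNR hJR (by exact_mod_cast hJ4)
        have a4 : 13 * ((H : ℝ) * N) / J ≤ 13 * (u ^ 3100 * H) := by
          refine (div_le_div_of_nonneg_left (by positivity) (by positivity) hJu).trans (le_of_eq ?_)
          rw [← huN, div_eq_iff (by positivity), show 3200 = 3100 + 100 by norm_num, pow_add]
          generalize u ^ 3100 = x
          generalize u ^ 100 = y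
          ring
        push_cast at a1 a2
        have a5 : ∑ z ∈ S, d.WC z.1 z.2 ≤ S.card * (C1 * u * J) := by
          rw [← nsmul_eq_mul]
          exact sum_le_card_nsmul _ _ _ fun z hz => (hSm z hz).2.2 ▸ hWC z (hSm z hz).1
        have a6 := a1.trans (mul_le_mul_of_nonneg_right a2 (by positivity))
        calc ∑ z ∈ S, d.WC z.1 z.2 ≤ S.card * (C1 * u * J) := a5
          _ ≤ (C2 * u * (((2 * H + 1) / J ^ 2 + 1) * ((N + 1) / J ^ 2 + 1))) * (C1 * u * J) :=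
              mul_le_mul_of_nonneg_right a6 (by positivity)
          _ = C1 * C2 * u ^ 2 * (J * (((2 * H + 1) / J ^ 2 + 1) * ((N + 1) / J ^ 2 + 1))) := by
              ring
          _ ≤ C1 * C2 * u ^ 2 * (13 * (u ^ 3100 * H)) :=
              mul_le_mul_of_nonneg_left (a3.trans a4) (by positivity)
          _ = 13 * C1 * C2 * (u ^ 3102 * H) := by
              rw [show 3102 = 3100 + 2 by norm_num, pow_add]
              generalize u ^ 3100 = x
              ring)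
    have h2 := (hDv _ hE0).trans (mul_le_mul_of_nonneg_left (heps _ hE) hC3.le)
    refine h1.trans ((mul_le_mul_of_nonneg_right h2 (by positivity)).trans (le_of_eq ?_))
    rw [show 3103 = 3102 + 1 by norm_num, pow_succ]
    generalize u ^ 3102 = x
    ring
  have P2 : ∑ z ∈ Z.filter (fun z => ¬ N < d.JJ z.1 z.2 ^ 32), d.WC z.1 z.2 ≤
      12 * C1 * C3 * (u ^ 3103 * H) := by
    have hQ : ∀ Y : ℤ, (d.QQ Y : ℤ) ∣ d.a ∧ (d.QQ Y : ℤ) ∣ Y := fun Y => by
      have hT : ∀ l ∈ d.E.natAbs.primeFactors.filter (fun l : ℕ => (l : ℤ) ∣ d.a ∧ (l : ℤ) ∣ Y),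
          l.Prime := fun l hl => Nat.prime_of_mem_primeFactors (mem_filter.1 hl).1
      have a1 := tcr_prod_dvd _ hT (fun _ => 1) d.a fun l hl => by
        simpa using (mem_filter.1 hl).2.1
      have a2 := tcr_prod_dvd _ hT (fun _ => 1) Y fun l hl => by
        simpa using (mem_filter.1 hl).2.2
      simp only [pow_one] at a1 a2
      exact ⟨a1, a2⟩
    have h1 := tcr_fibre (Z.filter fun z => ¬ N < d.JJ z.1 z.2 ^ 32) d.a.natAbs.divisors
      (fun z => d.QQ z.2) (fun z => d.WC z.1 z.2) (12 * C1 * (u ^ 2901 * H))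
      (fun z _ => Nat.mem_divisors.2 ⟨Int.natCast_dvd.1 (hQ z.2).1, ha0.ne'⟩) (fun Q hQd => by
        obtain ⟨S, hSd⟩ : ∃ S, S = (Z.filter fun z => ¬ N < d.JJ z.1 z.2 ^ 32).filter
          fun z => d.QQ z.2 = Q := ⟨_, rfl⟩
        rw [← hSd]
        have hSm : ∀ z ∈ S, z ∈ Z ∧ ¬ N < d.JJ z.1 z.2 ^ 32 ∧ d.QQ z.2 = Q := fun z hz => by
          rw [hSd] at hz
          exact ⟨(mem_filter.1 (mem_filter.1 hz).1).1, (mem_filter.1 (mem_filter.1 hz).1).2,
            (mem_filter.1 hz).2⟩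
        rcases S.eq_empty_or_nonempty with h0 | ⟨z0, hz0⟩
        · rw [h0, sum_empty]; positivity
        obtain ⟨m1, m2, m3⟩ := hSm z0 hz0
        have hQ0 : 0 < Q := Nat.pos_of_mem_divisors hQd
        have hNQ : N < Q ^ 4 := m3 ▸ (hZ z0 m1).2.resolve_left m2
        have hQH : Q ≤ H ^ 2 := (Nat.le_of_dvd ha0 (Nat.dvd_of_mem_divisors hQd)).trans haH
        have hQu : u ^ 400 ≤ Q := by
          refine le_of_pow_le_pow_left₀ (n := 8) (by norm_num) (by positivity) ?_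
          rw [← pow_mul, huN]
          exact_mod_cast hNQ.le.trans (Nat.pow_le_pow_right hQ0 (by norm_num))
        have hHu : u ^ 400 ≤ H := by
          refine le_of_pow_le_pow_left₀ (n := 8) (by norm_num) (by positivity) ?_
          rw [← pow_mul, huN]
          have := hNQ.le.trans (Nat.pow_le_pow_left hQH 4)
          rw [← pow_mul] at this
          exact_mod_cast this
        have a1 := tcr_box h.a_pos H N one_pos hQ0 0 0 S fun z hz =>
          ⟨(hZ z (hSm z hz).1).1, by simp, by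
            rw [sub_zero, ← (hSm z hz).2.2]; exact (hQ z.2).2⟩
        have hu4 : 0 < u ^ 400 := by positivity
        have a2 : (2 * (H : ℝ) + 1) / Q + 1 ≤ 4 * H / u ^ 400 := by
          have b1 : (2 * (H : ℝ) + 1) / Q ≤ 3 * H / u ^ 400 :=
            div_le_div₀ (by positivity) (by linarith) hu4 hQu
          have b2 : 1 ≤ (H : ℝ) / u ^ 400 := (one_le_div hu4).2 hHu
          have b3 : 4 * (H : ℝ) / u ^ 400 = 3 * H / u ^ 400 + H / u ^ 400 := by
            generalize u ^ 400 = x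
            ring
          linarith
        have a3 : ((N : ℝ) + 1) / (1 : ℕ) + 1 ≤ 3 * u ^ 3200 := by
          rw [huN, Nat.cast_one, div_one]; linarith
        have a4 := a1.trans (mul_le_mul a2 a3 (by positivity) (by positivity))
        have a5 : ∑ z ∈ S, d.WC z.1 z.2 ≤ S.card * (C1 * u * u ^ 100) := by
          rw [← nsmul_eq_mul]
          refine sum_le_card_nsmul _ _ _ fun z hz => (hWC z (hSm z hz).1).trans
            (mul_le_mul_of_nonneg_left ?_ (by positivity))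
          refine le_of_pow_le_pow_left₀ (n := 32) (by norm_num) (by positivity) ?_
          rw [← pow_mul, huN]
          exact_mod_cast not_lt.1 (hSm z hz).2.1
        refine a5.trans ((mul_le_mul_of_nonneg_right a4 (by positivity)).trans (le_of_eq ?_))
        have e1 : u ^ 3200 = u ^ 2800 * u ^ 400 := by rw [← pow_add]
        have e2 : u ^ 2901 = u ^ 2800 * u ^ 100 * u := by rw [← pow_add, ← pow_succ]
        rw [e1, e2]
        generalize u ^ 2800 = x
        generalize u ^ 100 = y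
        generalize u ^ 400 = t at hu4
        field_simp
        ring)
    have h2 := (hDv _ ha0).trans (mul_le_mul_of_nonneg_left (heps _ haN) hC3.le)
    refine h1.trans ((mul_le_mul_of_nonneg_right h2 (by positivity)).trans ?_)
    have h3 : u ^ 2901 * u ≤ u ^ 3103 := by
      rw [← pow_succ]; exact pow_le_pow_right₀ hu1 (by norm_num)
    have h4 := mul_le_mul_of_nonneg_left h3 (show 0 ≤ 12 * C1 * C3 * H by positivity)
    generalize u ^ 2901 = x at h4 ⊢
    generalize u ^ 3103 = y at h4 ⊢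
    linarith
  rw [← sum_filter_add_sum_filter_not Z (fun z => N < d.JJ z.1 z.2 ^ 32), hu99]
  have h3 : u ^ 3103 * u ≤ u ^ 3168 := by
    rw [← pow_succ]; exact pow_le_pow_right₀ hu1 (by norm_num)
  have h4 : 0 ≤ u ^ 3103 * H := by positivity
  have h5 := mul_le_mul_of_nonneg_right hCu h4
  have h6 := mul_le_mul_of_nonneg_right h3 (show (0 : ℝ) ≤ H by positivity)
  rw [hC] at h5
  generalize u ^ 3103 = x at P1 P2 h4 h5 h6
  generalize u ^ 3168 = y at h6 ⊢
  linarith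

end Dt

end Pool.Agent.EQ
end
end
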