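import Pool.Agent.K.MP_ad7a55_nt.C7

/-! Local counts at good primes. -/

set_option autoImplicit false

noncomputable section

open Finset Matrix

namespace Pool.Agent.EQ

variable {l : ℕ} [Fact l.Prime]

theorem tla_add_le {a b : ℚ_[l]} {c : ℝ} (ha : ‖a‖ ≤ c) (hb : ‖b‖ ≤ c) : ‖a + b‖ ≤ c :=
  (Padic.nonarchimedean a b).trans (max_le ha hb)

theorem tla_sub_le {a b : ℚ_[l]} {c : ℝ} (ha : ‖a‖ ≤ c) (hb : ‖b‖ ≤ c) : ‖a - b‖ ≤ c := by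
  rw [sub_eq_add_neg]
  exact tla_add_le ha (by rwa [norm_neg])

theorem tla_add_lt {a b : ℚ_[l]} {c : ℝ} (ha : ‖a‖ < c) (hb : ‖b‖ < c) : ‖a + b‖ < c :=
  (Padic.nonarchimedean a b).trans_lt (max_lt ha hb)

theorem tla_sub_lt {a b : ℚ_[l]} {c : ℝ} (ha : ‖a‖ < c) (hb : ‖b‖ < c) : ‖a - b‖ < c := by
  rw [sub_eq_add_neg]
  exact tla_add_lt ha (by rwa [norm_neg])

theorem tla_add_eq {a b : ℚ_[l]} (h : ‖b‖ < ‖a‖) : ‖a + b‖ = ‖a‖ := by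
  rw [Padic.add_eq_max_of_ne h.ne', max_eq_left h.le]

theorem tla_sub_eq {a b : ℚ_[l]} (h : ‖b‖ < ‖a‖) : ‖a - b‖ = ‖a‖ := by
  rw [sub_eq_add_neg]
  exact tla_add_eq (by rwa [norm_neg])

theorem tla_mul_le {a b : ℚ_[l]} {c : ℝ} (ha : ‖a‖ ≤ 1) (hb : ‖b‖ ≤ c) : ‖a * b‖ ≤ c := by
  rw [norm_mul]
  exact (mul_le_of_le_one_left (norm_nonneg _) ha).trans hb

theorem tla_mul_lt {a b : ℚ_[l]} (ha : ‖a‖ < 1) (hb : ‖b‖ ≤ 1) : ‖a * b‖ < 1 := by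
  rw [norm_mul]
  exact (mul_le_of_le_one_right (norm_nonneg _) hb).trans_lt ha

theorem tla_unit {z : ℤ} (h : ¬ (l : ℤ) ∣ z) : ‖(z : ℚ_[l])‖ = 1 :=
  le_antisymm (Padic.norm_int_le_one z) (not_lt.1 fun h1 => h (Padic.norm_intCast_lt_one_iff.1 h1))

theorem tla_two (h2 : l ≠ 2) : ‖(2 : ℚ_[l])‖ = 1 := by
  have h : ¬ (l : ℤ) ∣ 2 := fun h =>
    h2 ((Nat.prime_dvd_prime_iff_eq Fact.out Nat.prime_two).1 (by exact_mod_cast h))
  simpa using tla_unit h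

theorem tla_two_le : ‖(2 : ℚ_[l])‖ ≤ 1 := by simpa using Padic.norm_int_le_one (p := l) 2

theorem tla_gt : (1 : ℝ) < l := by exact_mod_cast (Fact.out : l.Prime).one_lt

theorem tla_int {z : ℤ} (hz : z ≠ 0) : ‖(z : ℚ_[l])‖ = (l : ℝ) ^ (-(padicValInt l z : ℤ)) := by
  rw [Padic.norm_eq_zpow_neg_valuation (by exact_mod_cast hz), Padic.valuation_intCast]

theorem tla_ndvd {E : ℤ} (hE : jacobiSym E l ≠ 0) : ¬ (l : ℤ) ∣ E := by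
  have : NeZero l := ⟨(Fact.out : l.Prime).ne_zero⟩
  intro h
  refine hE (jacobiSym.eq_zero_iff_not_coprime.2 fun h1 => ?_)
  have h2 : l ∣ Int.gcd E l := Int.dvd_gcd h dvd_rfl
  rw [h1] at h2
  exact (Fact.out : l.Prime).one_lt.ne' (Nat.dvd_one.1 h2)

theorem tla_nonsq {E : ℤ} (hE : jacobiSym E l = -1) {s : ℚ_[l]} (hs : ‖s‖ ≤ 1) :
    ¬ ‖s ^ 2 - E‖ < 1 := by
  intro h
  obtain ⟨z, rfl⟩ : ∃ z : ℤ_[l], (z : ℚ_[l]) = s := ⟨⟨s, hs⟩, rfl⟩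
  refine ZMod.nonsquare_of_jacobiSym_eq_neg_one hE ⟨PadicInt.toZMod z, ?_⟩
  have h1 : z ^ 2 - E ∈ RingHom.ker (PadicInt.toZMod (p := l)) := by
    rw [PadicInt.ker_toZMod, IsLocalRing.mem_maximalIdeal, PadicInt.mem_nonunits,
      PadicInt.norm_def]
    push_cast
    exact h
  rw [RingHom.mem_ker, map_sub, map_pow, map_intCast, sub_eq_zero] at h1
  rw [← h1, sq]

theorem tla_root {E : ℤ} (hE : jacobiSym E l = 1) : ∃ c : ℤ, (l : ℤ) ∣ c ^ 2 - E := by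
  obtain ⟨r, hr⟩ := ZMod.isSquare_of_jacobiSym_eq_one hE
  refine ⟨r.valMinAbs, (ZMod.intCast_zmod_eq_zero_iff_dvd _ l).1 ?_⟩
  push_cast
  rw [hr, sq, sub_self]

theorem tla_ok {E : ℤ} {P Q : ℚ} (hP : 0 < ‖(P : ℚ_[l])‖) (h : ‖(Q : ℚ_[l])‖ ≤ ‖(P : ℚ_[l])‖)
    (h' : (l : ℤ) ∣ E ∨ ‖(Q : ℚ_[l])‖ < ‖(P : ℚ_[l])‖) : Ok l E P Q := by
  refine ⟨Or.inl fun h0 => by simp [h0] at hP, ?_⟩
  unfold nr
  rw [max_eq_left h]
  push_cast
  rw [tla_sub_eq, norm_pow]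
  rw [norm_mul, norm_pow, norm_pow]
  have h1 := norm_nonneg (Q : ℚ_[l])
  have h2 := norm_nonneg (E : ℚ_[l])
  have h3 := Padic.norm_int_le_one (p := l) E
  rcases h' with h' | h'
  · have h4 := Padic.norm_intCast_lt_one_iff.2 h'
    have h5 : ‖(Q : ℚ_[l])‖ ^ 2 ≤ ‖(P : ℚ_[l])‖ ^ 2 := pow_le_pow_left₀ h1 h 2
    nlinarith [pow_pos hP 2]
  · have h5 : ‖(Q : ℚ_[l])‖ ^ 2 < ‖(P : ℚ_[l])‖ ^ 2 := pow_lt_pow_left₀ h' h1 two_ne_zero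
    nlinarith [sq_nonneg ‖(Q : ℚ_[l])‖]

theorem tla_inert {E : ℤ} (hE : jacobiSym E l = -1) (P Q : ℚ_[l]) :
    ‖P ^ 2 - E * Q ^ 2‖ = max ‖P‖ ‖Q‖ ^ 2 := by
  have hu := tla_unit (tla_ndvd (l := l) (E := E) (by rw [hE]; decide))
  rcases lt_or_ge ‖Q‖ ‖P‖ with h | h
  · rw [max_eq_left h.le, tla_sub_eq, norm_pow]
    rw [norm_mul, hu, one_mul, norm_pow, norm_pow]
    exact pow_lt_pow_left₀ h (norm_nonneg _) two_ne_zero
  · rw [max_eq_right h]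
    rcases eq_or_ne Q 0 with rfl | hQ
    · have : P = 0 := norm_le_zero_iff.1 (by simpa using h)
      simp [this]
    have hQ' := norm_pos_iff.2 hQ
    have h1 : ‖P / Q‖ ≤ 1 := by rwa [norm_div, div_le_one hQ']
    have h2 : ‖(P / Q) ^ 2 - E‖ = 1 :=
      le_antisymm (tla_sub_le (by rw [norm_pow]; exact pow_le_one₀ (norm_nonneg _) h1) hu.le)
        (not_lt.1 (tla_nonsq hE h1))
    have e : P ^ 2 - E * Q ^ 2 = ((P / Q) ^ 2 - E) * Q ^ 2 := by field_simp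
    rw [e, norm_mul, h2, one_mul, norm_pow]

theorem tla_sol {E : ℤ} {a b : ℚ × ℚ} (h : a.1 ^ 2 - E * a.2 ^ 2 = b.1 ^ 2 - E * b.2 ^ 2)
    (h0 : a.1 ^ 2 - E * a.2 ^ 2 ≠ 0) : ∃ P Q : ℚ, (P ≠ 0 ∨ Q ≠ 0) ∧ Sol E a b P Q := by
  by_cases h1 : a.1 + b.1 ≠ 0 ∨ a.2 - b.2 ≠ 0
  · exact ⟨_, _, h1, sol_one h⟩
  push Not at h1
  obtain ⟨h1, h2⟩ := h1
  refine ⟨E * a.2, a.1, ?_, ?_, ?_⟩
  · by_contra h3
    push Not at h3
    exact h0 (by linear_combination a.1 * h3.2 - a.2 * h3.1)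
  · linear_combination (-(E : ℚ) * a.2) * h1 + E * a.1 * h2
  · linear_combination E * a.2 * h2 - a.1 * h1

theorem tla_one {α : Type} {R : α → α → Prop} {S : Set α} (h : ∀ a ∈ S, ∀ b ∈ S, R a b) :
    Few R S 1 := by
  intro T h1 h2
  have : T.card ≤ 1 := card_le_one.2 fun a ha b hb => by
    by_contra h3
    exact h2 a ha b hb h3 (h a (h1 a ha) b (h1 b hb))
  exact_mod_cast this

theorem tla_zero {α : Type} {R : α → α → Prop} {S : Set α} (h : ∀ a, a ∉ S) : Few R S 0 := by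
  intro T h1 _
  rw [eq_empty_of_forall_notMem fun a ha => h a (h1 a ha)]
  simp

theorem tla_cast {E x Δ : ℤ} {a : ℚ × ℚ} (ha : a ∈ LA l E x Δ) :
    (a.1 : ℚ_[l]) ^ 2 - E * (a.2 : ℚ_[l]) ^ 2 = ((x ^ 2 - E * Δ : ℤ) : ℚ_[l]) := by
  exact_mod_cast congrArg (Rat.cast : ℚ → ℚ_[l]) (LA.norm ha)

theorem loc_inert {E x Δ : ℤ} (_h2 : l ≠ 2) (hE : jacobiSym E l = -1) (hZ : x ^ 2 - E * Δ ≠ 0) :
    Few (Rl l E) (LA l E x Δ) (if Even (padicValInt l (x ^ 2 - E * Δ)) then 1 else 0) := by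
  split_ifs with h
  · refine tla_one fun a ha b hb => ?_
    obtain ⟨P, Q, h1, h3⟩ := tla_sol ((LA.norm ha).trans (LA.norm hb).symm)
      (by rw [LA.norm ha]; exact_mod_cast hZ)
    refine ⟨P, Q, ⟨h1, ?_⟩, h3⟩
    unfold nr
    push_cast
    exact tla_inert hE _ _
  · refine tla_zero fun a ha => h ?_
    have h1 := tla_inert hE (a.1 : ℚ_[l]) (a.2 : ℚ_[l])
    rw [tla_cast ha, tla_int hZ] at h1
    obtain ⟨c, hc⟩ : ∃ c : ℚ_[l], max ‖(a.1 : ℚ_[l])‖ ‖(a.2 : ℚ_[l])‖ = ‖c‖ :=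
      (max_choice _ _).elim (fun h => ⟨_, h⟩) fun h => ⟨_, h⟩
    rw [hc] at h1
    have hl := tla_gt (l := l)
    have hc0 : c ≠ 0 := by
      rintro rfl
      rw [norm_zero, zero_pow two_ne_zero] at h1
      exact (zpow_pos (by linarith) _).ne' h1
    rw [Padic.norm_eq_zpow_neg_valuation hc0, ← _root_.zpow_natCast, ← _root_.zpow_mul,
      zpow_right_inj₀ (by linarith) hl.ne'] at h1
    rw [← Int.even_coe_nat]
    exact ⟨c.valuation, by push_cast at h1; linarith⟩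

theorem tla_hensel {E b : ℤ} (h2 : l ≠ 2) (hE : ¬ (l : ℤ) ∣ E) (hb : (l : ℤ) ∣ b ^ 2 - E) :
    ∃ r : ℚ_[l], r ^ 2 = E ∧ ‖r - b‖ = ‖((b ^ 2 - E : ℤ) : ℚ_[l])‖ := by
  have hb1 : ‖(b : ℚ_[l])‖ = 1 := tla_unit fun h => hE (by
    have := dvd_sub (h.pow two_ne_zero) hb
    rwa [sub_sub_cancel] at this)
  have hb2 : ‖2 * (b : ℚ_[l])‖ = 1 := by rw [norm_mul, tla_two h2, hb1, one_mul]
  have hd : ‖(Polynomial.X ^ 2 - Polynomial.C E : Polynomial ℤ).derivative.aeval (b : ℤ_[l])‖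
      = 1 := by
    have e : (Polynomial.X ^ 2 - Polynomial.C E : Polynomial ℤ).derivative.aeval (b : ℤ_[l])
        = 2 * b := by
      simp [map_ofNat]
    rw [e, ← hb2, PadicInt.norm_def]
    push_cast
    rfl
  obtain ⟨z, h3, h4, -⟩ := hensels_lemma
    (F := (Polynomial.X ^ 2 - Polynomial.C E : Polynomial ℤ)) (a := (b : ℤ_[l])) (by
      rw [hd, one_pow]
      have := (PadicInt.norm_int_lt_one_iff_dvd (p := l) _).2 hb
      simpa using this)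
  rw [hd, PadicInt.norm_def] at h4
  have h5 : (z : ℚ_[l]) ^ 2 = E := by
    have h6 : z ^ 2 = (E : ℤ_[l]) := by simpa [sub_eq_zero] using h3
    exact_mod_cast congrArg ((↑) : ℤ_[l] → ℚ_[l]) h6
  push_cast at h4
  refine ⟨z, h5, ?_⟩
  have h7 : ‖2 * (b : ℚ_[l]) + (z - b)‖ = 1 := by rw [tla_add_eq (hb2.symm ▸ h4), hb2]
  have e : ((b ^ 2 - E : ℤ) : ℚ_[l]) = -((z - b) * (2 * b + (z - b))) := by
    push_cast
    linear_combination h5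
  rw [e, norm_neg, norm_mul, h7, mul_one]

theorem loc_split {E x Δ : ℤ} (h2 : l ≠ 2) (hE : jacobiSym E l = 1) (hZ : x ^ 2 - E * Δ ≠ 0)
    {k : ℕ} {b₀ : ℤ} (hb : (l : ℤ) ^ k ∣ b₀ ^ 2 - E) :
    Few (Rl l E) {a | a ∈ LA l E x Δ ∧ nr l (a.1 + a.2 * b₀) ≤ (l : ℝ) ^ (-(k : ℤ))}
      ((padicValInt l (x ^ 2 - E * Δ) + 1 - k : ℕ) : ℝ) := by
  have hE' := tla_ndvd (l := l) (E := E) (by rw [hE]; decide)
  have hl := tla_gt (l := l)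
  have hr1 : ∀ r : ℚ_[l], r ^ 2 = E → ‖r‖ = 1 := fun r hr => by
    have h1 : ‖r‖ ^ 2 = 1 := by rw [← norm_pow, hr, tla_unit hE']
    exact (pow_eq_one_iff_of_nonneg (norm_nonneg _) two_ne_zero).1 h1
  obtain ⟨r, hr, hrb⟩ : ∃ r : ℚ_[l], r ^ 2 = E ∧ ‖r - b₀‖ ≤ (l : ℝ) ^ (-(k : ℤ)) := by
    rcases Nat.eq_zero_or_pos k with rfl | hk
    · obtain ⟨c, hc⟩ := tla_root hE
      obtain ⟨r, hr, -⟩ := tla_hensel h2 hE' hc
      exact ⟨r, hr, by simpa using tla_sub_le (hr1 r hr).le (Padic.norm_int_le_one b₀)⟩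
    · obtain ⟨r, hr, h1⟩ := tla_hensel h2 hE' ((dvd_pow_self _ hk.ne').trans hb)
      exact ⟨r, hr, h1.trans_le ((Padic.norm_int_le_pow_iff_dvd _ k).2 hb)⟩
  have hr2 := hr1 r hr
  have fac : ∀ a ∈ LA l E x Δ, ((a.1 : ℚ_[l]) + a.2 * r) * (a.1 - a.2 * r) =
      ((x ^ 2 - E * Δ : ℤ) : ℚ_[l]) := fun a ha => by
    rw [← tla_cast ha]
    linear_combination (-(a.2 : ℚ_[l]) ^ 2) * hr
  rw [← Nat.card_Icc]
  refine few_of_label (Icc k (padicValInt l (x ^ 2 - E * Δ)))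
    (fun a j => ‖(a.1 : ℚ_[l]) + a.2 * r‖ = (l : ℝ) ^ (-(j : ℤ))) ?_ ?_
  · rintro a ⟨ha, hk⟩
    have f1 := congrArg norm (fac a ha)
    rw [norm_mul, tla_int hZ] at f1
    obtain ⟨t, t1, t2, t3, -⟩ := ha
    unfold nr at t1 t2 hk
    have a1 : ‖(a.1 : ℚ_[l])‖ ≤ 1 := by
      rw [t3]
      push_cast
      exact tla_sub_le (Padic.norm_int_le_one x) (tla_mul_le (Padic.norm_int_le_one E) t1)
    have a2 : ‖(a.1 : ℚ_[l]) - a.2 * r‖ ≤ 1 := tla_sub_le a1 (tla_mul_le t2 hr2.le)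
    have a3 : ‖(a.1 : ℚ_[l]) + a.2 * r‖ ≤ (l : ℝ) ^ (-(k : ℤ)) := by
      push_cast at hk
      rw [show (a.1 : ℚ_[l]) + a.2 * r = (a.1 + a.2 * b₀) + a.2 * (r - b₀) by ring]
      exact tla_add_le hk (tla_mul_le t2 hrb)
    have a4 : (l : ℝ) ^ (-(padicValInt l (x ^ 2 - E * Δ) : ℤ)) ≤ ‖(a.1 : ℚ_[l]) + a.2 * r‖ :=
      f1 ▸ mul_le_of_le_one_right (norm_nonneg _) a2
    have a5 : (a.1 : ℚ_[l]) + a.2 * r ≠ 0 :=
      norm_pos_iff.1 ((zpow_pos (by linarith) _).trans_le a4)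
    have a6 := Padic.norm_eq_zpow_neg_valuation a5
    rw [a6, zpow_le_zpow_iff_right₀ hl] at a3 a4
    refine ⟨((a.1 : ℚ_[l]) + a.2 * r).valuation.toNat, mem_Icc.2 ⟨by omega, by omega⟩, ?_⟩
    rw [a6, Int.toNat_of_nonneg (by omega)]
  · rintro a ⟨ha, -⟩ b ⟨hb', -⟩ j j1 j2
    obtain ⟨P, Q, h1, h3⟩ := tla_sol ((LA.norm ha).trans (LA.norm hb').symm)
      (by rw [LA.norm ha]; exact_mod_cast hZ)
    refine ⟨P, Q, ⟨h1, ?_⟩, h3⟩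
    have s1 : (P : ℚ_[l]) * (a.1 - b.1) = E * Q * (a.2 + b.2) := by
      exact_mod_cast congrArg (Rat.cast : ℚ → ℚ_[l]) h3.1
    have s2 : (P : ℚ_[l]) * (a.2 - b.2) = Q * (a.1 + b.1) := by
      exact_mod_cast congrArg (Rat.cast : ℚ → ℚ_[l]) h3.2
    have s3 : ((P : ℚ_[l]) + Q * r) * (b.1 + b.2 * r) = (P - Q * r) * (a.1 + a.2 * r) := by
      linear_combination -s1 - r * s2 + (Q : ℚ_[l]) * (a.2 + b.2) * hr
    have s4 := congrArg norm s3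
    rw [norm_mul, norm_mul, j1, j2] at s4
    have s5 := mul_right_cancel₀ (zpow_pos (by linarith) _).ne' s4
    have s6 : ‖(P : ℚ_[l])‖ ≤ ‖(P : ℚ_[l]) + Q * r‖ := by
      have := tla_add_le le_rfl s5.ge
      rwa [show (P : ℚ_[l]) + Q * r + (P - Q * r) = 2 * P by ring, norm_mul, tla_two h2,
        one_mul] at this
    have s7 : ‖(Q : ℚ_[l])‖ ≤ ‖(P : ℚ_[l]) + Q * r‖ := by
      have := tla_sub_le le_rfl s5.ge
      rwa [show (P : ℚ_[l]) + Q * r - (P - Q * r) = 2 * (Q * r) by ring, norm_mul, tla_two h2,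
        one_mul, norm_mul, hr2, mul_one] at this
    have s8 : ‖(P : ℚ_[l]) + Q * r‖ ≤ max ‖(P : ℚ_[l])‖ ‖(Q : ℚ_[l])‖ :=
      tla_add_le (le_max_left _ _) (by rw [norm_mul, hr2, mul_one]; exact le_max_right _ _)
    unfold nr
    push_cast
    rw [← le_antisymm s8 (max_le s6 s7),
      show (P : ℚ_[l]) ^ 2 - E * Q ^ 2 = (P + Q * r) * (P - Q * r) by
        linear_combination (Q : ℚ_[l]) ^ 2 * hr, norm_mul, ← s5, sq]

theorem loc_ram {E x Δ : ℤ} (h2 : l ≠ 2) (hE : (l : ℤ) ∣ E) (hx : ¬ (l : ℤ) ∣ x) :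
    Few (Rl l E) (LA l E x Δ) 1 := by
  refine tla_one fun a ha b hb => ⟨_, _, ?_, sol_one ((LA.norm ha).trans (LA.norm hb).symm)⟩
  obtain ⟨t, t1, t2, t3, -⟩ := ha
  obtain ⟨s, s1, s2, s3, -⟩ := hb
  unfold nr at t1 t2 s1 s2
  have h1 : ‖2 * (x : ℚ_[l])‖ = 1 := by rw [norm_mul, tla_two h2, tla_unit hx, one_mul]
  have h3 : ‖((a.1 + b.1 : ℚ) : ℚ_[l])‖ = 1 := by
    rw [t3, s3]
    push_cast
    rw [show (x : ℚ_[l]) - E * t + (x - E * s) = 2 * x - E * (t + s) by ring, tla_sub_eq, h1]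
    rw [h1]
    exact tla_mul_lt (Padic.norm_intCast_lt_one_iff.2 hE) (tla_add_le t1 s1)
  refine tla_ok (by rw [h3]; exact one_pos) ?_ (Or.inl hE)
  rw [h3]
  push_cast
  exact tla_sub_le t2 s2

theorem loc_ram' {E x Δ : ℤ} (h2 : l ≠ 2) (hE0 : E ≠ 0) (hE : (l : ℤ) ∣ E) (hx : (l : ℤ) ∣ x)
    (hΔ : ¬ (l : ℤ) ∣ Δ) : Few (Rl l E) (LA l E x Δ) (1 + jacobiSym Δ l) := by
  have key : ∀ a ∈ LA l E x Δ, ‖(a.2 : ℚ_[l]) ^ 2 - Δ‖ < 1 := by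
    rintro a ⟨t, t1, -, -, t4⟩
    unfold nr at t1
    have e : (a.2 : ℚ_[l]) ^ 2 + (2 * x - E * t) * t = Δ := by
      exact_mod_cast congrArg (Rat.cast : ℚ → ℚ_[l]) t4
    rw [show (a.2 : ℚ_[l]) ^ 2 - Δ = (E * t - x * 2) * t by linear_combination e]
    exact tla_mul_lt (tla_sub_lt (tla_mul_lt (Padic.norm_intCast_lt_one_iff.2 hE) t1)
      (tla_mul_lt (Padic.norm_intCast_lt_one_iff.2 hx) tla_two_le)) t1
  have hg : Int.gcd Δ l = 1 := by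
    rw [Int.gcd_comm]
    exact Int.isCoprime_iff_gcd_eq_one.1
      ((Nat.prime_iff_prime_int.1 Fact.out).irreducible.coprime_iff_not_dvd.2 hΔ)
  rcases jacobiSym.eq_one_or_neg_one hg with hJ | hJ
  · obtain ⟨c, hc⟩ := tla_root hJ
    have hc1 : ‖(c : ℚ_[l])‖ = 1 := tla_unit fun h => hΔ (by
      have := dvd_sub (h.pow two_ne_zero) hc
      rwa [sub_sub_cancel] at this)
    have hc2 := Padic.norm_intCast_lt_one_iff.2 hc
    push_cast at hc2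
    refine (few_of_label ({c, -c} : Finset ℤ) (fun a s => ‖(s : ℚ_[l])‖ = 1 ∧
      ‖(a.2 : ℚ_[l]) - s‖ < 1) ?_ ?_).mono subset_rfl ?_
    · intro a ha
      have h1 := tla_sub_lt (key a ha) hc2
      rw [show (a.2 : ℚ_[l]) ^ 2 - Δ - (c ^ 2 - Δ) = (a.2 - c) * (a.2 + c) by ring, norm_mul] at h1
      by_cases h3 : ‖(a.2 : ℚ_[l]) - c‖ < 1
      · exact ⟨c, by simp, hc1, h3⟩
      · refine ⟨-c, by simp, by simpa using hc1, ?_⟩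
        push_cast
        rw [sub_neg_eq_add]
        nlinarith [norm_nonneg ((a.2 : ℚ_[l]) + c)]
    · intro a ha b hb s ⟨s0, j1⟩ ⟨_, j2⟩
      have hn := (LA.norm ha).trans (LA.norm hb).symm
      obtain ⟨t, t1, -, t3, -⟩ := ha
      obtain ⟨t', s1, -, s3, -⟩ := hb
      unfold nr at t1 s1
      refine ⟨_, _, ?_, sol_two hE0 t3 s3 hn⟩
      have h1 : ‖2 * (s : ℚ_[l])‖ = 1 := by rw [norm_mul, tla_two h2, s0, one_mul]
      have h3 : ‖((a.2 + b.2 : ℚ) : ℚ_[l])‖ = 1 := by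
        push_cast
        rw [show (a.2 : ℚ_[l]) + b.2 = 2 * s + ((a.2 - s) + (b.2 - s)) by ring, tla_add_eq, h1]
        rw [h1]
        exact tla_add_lt j1 j2
      refine tla_ok (by rw [h3]; exact one_pos) ?_ (Or.inl hE)
      rw [h3]
      push_cast
      exact tla_sub_le s1 t1
    · rw [hJ]
      have : ({c, -c} : Finset ℤ).card ≤ 2 := card_le_two
      have h4 : (({c, -c} : Finset ℤ).card : ℝ) ≤ 2 := by exact_mod_cast this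
      push_cast
      linarith
  · rw [hJ]
    refine (tla_zero fun a ha => tla_nonsq hJ ?_ (key a ha)).mono subset_rfl (by simp)
    obtain ⟨t, -, t2, -⟩ := ha
    exact t2

theorem tla_four {N : ℤ} (hN : N ≠ 0) {k c : ℕ} (hv : padicValInt l N = k + c)
    (hk : c + 3 ≤ k ∨ (l ≠ 2 ∧ c < k)) : ¬ (l : ℤ) ^ (2 * k) ∣ 4 * N := by
  intro h
  have hp : l.Prime := Fact.out
  rw [padicValInt_dvd_iff, padicValInt.mul (by norm_num) hN, hv] at h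
  have h1 : (l : ℤ) ^ padicValInt l 4 ∣ 4 := padicValInt_dvd 4
  have h3 : l ^ padicValInt l 4 ≤ 4 := Nat.le_of_dvd (by norm_num) (by exact_mod_cast h1)
  have h4 := h.resolve_left (mul_ne_zero (by norm_num) hN)
  rcases hk with hk | ⟨h2, hk⟩
  · have h5 : 2 ^ 3 ≤ l ^ padicValInt l 4 :=
      (Nat.pow_le_pow_left hp.two_le 3).trans (Nat.pow_le_pow_right hp.pos (by omega))
    omega
  · have h5 : l ∣ 2 ^ 2 := by
      have := (dvd_pow_self (l : ℤ) (show padicValInt l 4 ≠ 0 by omega)).trans h1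
      exact_mod_cast this
    exact h2 ((Nat.prime_dvd_prime_iff_eq hp Nat.prime_two).1 (hp.dvd_of_dvd_pow h5))

theorem loc_dom {E x y N : ℤ} (hE0 : E ≠ 0) (hN : N ≠ 0) {k c : ℕ} (hv : padicValInt l N = k + c)
    (hk : c + 3 ≤ k ∨ (l ≠ 2 ∧ c < k)) :
    Few (Rl l E) {a | ∃ t : ℚ, a.1 = x - E * t ∧
      a.2 ^ 2 + (2 * x - E * t) * t = (y ^ 2 - 4 * N : ℤ) ∧
      nr l (a.2 - y) ≤ (l : ℝ) ^ (-(k : ℤ)) ∧ nr l t ≤ (l : ℝ) ^ (-(k : ℤ))} 1 := by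
  refine tla_one ?_
  rintro a ⟨t, t1, t2, t3, t4⟩ b ⟨s, s1, s2, s3, s4⟩
  unfold nr at t3 t4 s3 s4
  push_cast at t2 t3 s2 s3
  have hn : a.1 ^ 2 - E * a.2 ^ 2 = b.1 ^ 2 - E * b.2 ^ 2 := by
    rw [t1, s1]
    linear_combination (-(E : ℚ)) * t2 + E * s2
  have hl := tla_gt (l := l)
  have hp : 0 < (l : ℝ) ^ (-(k : ℤ)) := zpow_pos (by linarith) _
  have hE1 := Padic.norm_int_le_one (p := l) E
  by_cases c1 : (l : ℝ) ^ (-(k : ℤ)) < ‖2 * (y : ℚ_[l])‖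
  · have h3 : ‖((a.2 + b.2 : ℚ) : ℚ_[l])‖ = ‖2 * (y : ℚ_[l])‖ := by
      push_cast
      rw [show (a.2 : ℚ_[l]) + b.2 = 2 * y + ((a.2 - y) + (b.2 - y)) by ring,
        tla_add_eq ((tla_add_le t3 s3).trans_lt c1)]
    have h4 : ‖((s - t : ℚ) : ℚ_[l])‖ < ‖((a.2 + b.2 : ℚ) : ℚ_[l])‖ := by
      rw [h3]
      push_cast
      exact (tla_sub_le s4 t4).trans_lt c1
    exact ⟨_, _, tla_ok ((norm_nonneg _).trans_lt h4) h4.le (Or.inr h4), sol_two hE0 t1 s1 hn⟩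
  by_cases c2 : (l : ℝ) ^ (-(k : ℤ)) < ‖2 * (x : ℚ_[l])‖
  · have h3 : ‖((a.1 + b.1 : ℚ) : ℚ_[l])‖ = ‖2 * (x : ℚ_[l])‖ := by
      rw [t1, s1]
      push_cast
      rw [show (x : ℚ_[l]) - E * t + (x - E * s) = 2 * x - E * (t + s) by ring,
        tla_sub_eq ((tla_mul_le hE1 (tla_add_le t4 s4)).trans_lt c2)]
    have h4 : ‖((a.2 - b.2 : ℚ) : ℚ_[l])‖ < ‖((a.1 + b.1 : ℚ) : ℚ_[l])‖ := by
      rw [h3]
      push_cast
      rw [show (a.2 : ℚ_[l]) - b.2 = (a.2 - y) - (b.2 - y) by ring]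
      exact (tla_sub_le t3 s3).trans_lt c2
    exact ⟨_, _, tla_ok ((norm_nonneg _).trans_lt h4) h4.le (Or.inr h4), sol_one hn⟩
  refine absurd ((Padic.norm_int_le_pow_iff_dvd _ _).1 ?_) (tla_four hN hv hk)
  have e : (a.2 : ℚ_[l]) ^ 2 + (2 * x - E * t) * t = y ^ 2 - 4 * N := by
    have := congrArg (Rat.cast : ℚ → ℚ_[l]) t2
    push_cast at this
    exact this
  have e2 : ((4 * N : ℤ) : ℚ_[l]) = (E * t - 2 * x) * t - (2 * y + (a.2 - y)) * (a.2 - y) := by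
    push_cast
    linear_combination e
  have e3 : (l : ℝ) ^ (-((2 * k : ℕ) : ℤ)) = (l : ℝ) ^ (-(k : ℤ)) * (l : ℝ) ^ (-(k : ℤ)) := by
    rw [← zpow_add₀ (by linarith)]
    congr 1
    push_cast
    ring
  rw [e2, e3]
  refine tla_sub_le ?_ ?_
  · rw [norm_mul]
    exact mul_le_mul (tla_sub_le (tla_mul_le hE1 t4) (not_lt.1 c2)) t4 (norm_nonneg _) hp.le
  · rw [norm_mul]
    exact mul_le_mul (tla_add_le (not_lt.1 c1) t3) t3 (norm_nonneg _) hp.le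

end Pool.Agent.EQ
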