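import Pool.Agent.K.MP_ad7a55_nt.C6
import Pool.Agent.K.MP_ad7a55_nt.C8

-- part Pool.Agent.P.MP_ad7a55_nt.TSc
section

/-! Majorants with a gain: high divisibility, and a level at a split prime. -/

set_option autoImplicit false

noncomputable section

open Finset Matrix

namespace Pool.Agent.EQ

/-- Types attached to finitely many families of residue classes. -/
theorem tsc_types {l : ℕ} (hl : l.Prime) (A B C : ℤ) (S : Set ℤ) (w : ℤ → ℝ) (mu : ℤ → ℕ)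
    (I : Finset ℕ) (μ c : ℕ → ℕ) (p : ℕ → ℝ) (R : ℕ → ℤ → Prop) {M : ℝ}
    (hp : ∀ i ∈ I, 0 ≤ p i)
    (hper : ∀ i ∈ I, ∀ x y, (l : ℤ) ^ μ i ∣ x - y → R i x → R i y)
    (hc : ∀ i ∈ I, ∀ r, R i r → ¬ Ct l (c i + 1) (A * (l : ℤ) ^ (2 * μ i))
      ((2 * A * r + B) * (l : ℤ) ^ μ i) (A * r ^ 2 + B * r + C))
    (hM : ∑ i ∈ I, (cnt (l ^ μ i) (R i) : ℝ) * (p i / (l : ℝ) ^ μ i) ≤ M)
    (hS : ∀ x ∈ S, A * x ^ 2 + B * x + C ≠ 0 ∧ (w x ≤ 0 ∨ ∃ i ∈ I, μ i ≤ mu x ∧ R i x ∧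
      ∀ j : ℕ, padicValInt l (A * x ^ 2 + B * x + C) ≤ c i + 2 * j + 1 → w x ≤ p i * (j + 1))) :
    LS 1 l S (fun x => A * x ^ 2 + B * x + C) w mu M 2 := by
  classical
  have key : ∀ t : ℕ × ℤ × ℕ, ∃ Ω : ℕ → ℤ → Prop,
      ¬ Ct l (c t.2.2 + 1) (A * (l : ℤ) ^ (2 * t.1)) ((2 * A * t.2.1 + B) * (l : ℤ) ^ t.1)
        (A * t.2.1 ^ 2 + B * t.2.1 + C) →
      Lv l 1 Ω (fun k => k + 1) 2 ∧ ∀ y, A * (l : ℤ) ^ (2 * t.1) * y ^ 2 +
        (2 * A * t.2.1 + B) * (l : ℤ) ^ t.1 * y + (A * t.2.1 ^ 2 + B * t.2.1 + C) ≠ 0 →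
      ∃ k, At Ω y k ∧ (l : ℤ) ^ k ∣ A * (l : ℤ) ^ (2 * t.1) * y ^ 2 +
        (2 * A * t.2.1 + B) * (l : ℤ) ^ t.1 * y + (A * t.2.1 ^ 2 + B * t.2.1 + C) ∧
        padicValInt l (A * (l : ℤ) ^ (2 * t.1) * y ^ 2 +
        (2 * A * t.2.1 + B) * (l : ℤ) ^ t.1 * y + (A * t.2.1 ^ 2 + B * t.2.1 + C)) ≤
          c t.2.2 + 2 * k + 1 := by
    intro t
    by_cases h : Ct l (c t.2.2 + 1) (A * (l : ℤ) ^ (2 * t.1))
        ((2 * A * t.2.1 + B) * (l : ℤ) ^ t.1) (A * t.2.1 ^ 2 + B * t.2.1 + C)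
    · exact ⟨fun _ _ => False, fun h' => absurd h h'⟩
    · obtain ⟨Ω, hΩ⟩ := exists_qlev hl h
      exact ⟨Ω, fun _ => hΩ⟩
  choose Ω hΩ using key
  have hl0 : (0 : ℝ) < l := by exact_mod_cast hl.pos
  set U : Finset (Σ _ : ℕ, ℕ) := I.sigma fun i => (range (l ^ μ i)).filter fun r : ℕ => R i r
    with hU
  set g : (Σ _ : ℕ, ℕ) → ℕ × ℤ × ℕ := fun z => (μ z.1, (z.2 : ℤ), z.1) with hg
  have hmem : ∀ t ∈ U.image g, t.2.2 ∈ I ∧ t.1 = μ t.2.2 ∧ R t.2.2 t.2.1 := by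
    intro t ht
    obtain ⟨z, hz, rfl⟩ := mem_image.1 ht
    obtain ⟨h1, h2⟩ := mem_sigma.1 hz
    exact ⟨h1, rfl, (mem_filter.1 h2).2⟩
  refine ⟨U.image g, fun t => p t.2.2, Ω, fun _ k => k + 1, fun t ht => ?_, ?_, fun x hx => ?_⟩
  · obtain ⟨h1, h2, h3⟩ := hmem t ht
    refine ⟨hp _ h1, (hΩ t ?_).1⟩
    rw [h2]
    exact hc _ h1 _ h3
  · refine le_trans (sum_image_le_of_nonneg fun t ht =>
      div_nonneg (hp _ (hmem t ht).1) (by positivity)) (le_trans (le_of_eq ?_) hM)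
    rw [hU, sum_sigma]
    refine sum_congr rfl fun i _ => ?_
    simp only [hg]
    rw [sum_const, nsmul_eq_mul, tqd_cnt]
  · obtain ⟨h0, h | ⟨i, hi, h1, h2, h3⟩⟩ := hS x hx
    · exact Or.inl h
    have hq : (0 : ℤ) < (l : ℤ) ^ μ i := by
      have := hl.pos
      positivity
    have hr0 := Int.emod_nonneg x hq.ne'
    have hr1 := Int.emod_lt_of_pos x hq
    obtain ⟨r, hr⟩ := Int.eq_ofNat_of_zero_le hr0
    have hx' : x = (r : ℤ) + (l : ℤ) ^ μ i * (x / (l : ℤ) ^ μ i) := by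
      rw [← hr]
      exact (Int.emod_add_mul_ediv x _).symm
    have hR : R i r := hper i hi x r ⟨x / (l : ℤ) ^ μ i, by linarith⟩ h2
    have ht : g ⟨i, r⟩ ∈ U.image g := mem_image_of_mem g (mem_sigma.2 ⟨hi, mem_filter.2
      ⟨mem_range.2 (by rw [hr] at hr1; exact_mod_cast hr1), hR⟩⟩)
    have he : A * (l : ℤ) ^ (2 * μ i) * (x / (l : ℤ) ^ μ i) ^ 2 +
        (2 * A * r + B) * (l : ℤ) ^ μ i * (x / (l : ℤ) ^ μ i) + (A * r ^ 2 + B * r + C) =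
        A * x ^ 2 + B * x + C := by
      generalize x / (l : ℤ) ^ μ i = y at hx'
      rw [hx']
      ring
    obtain ⟨k, k1, k2, k3⟩ := (hΩ (g ⟨i, r⟩) (hc i hi r hR)).2 (x / (l : ℤ) ^ μ i)
      (by simp only [hg]; rw [he]; exact h0)
    simp only [hg] at k2 k3
    rw [he] at k2 k3
    exact Or.inr ⟨g ⟨i, r⟩, ht, x / (l : ℤ) ^ μ i, k, h1, hx', k1, k2, h3 k k3⟩

theorem tsc_val_four {l : ℕ} (hl : l.Prime) {x : ℤ} (hx : x ≠ 0) :
    padicValInt l (4 * x) ≤ 2 + padicValInt l x := by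
  have : Fact l.Prime := ⟨hl⟩
  rw [padicValInt.mul (by norm_num) hx]
  have h : padicValInt l 4 ≤ 2 := by
    by_contra h
    have h1 : (l : ℤ) ^ 3 ∣ 4 := (padicValInt_dvd_iff 3 4).2 (Or.inr (by omega))
    have h2 := Int.le_of_dvd (by norm_num) h1
    have h3 : (2 : ℤ) ≤ l := by exact_mod_cast hl.two_le
    have h4 := pow_le_pow_left₀ (by norm_num) h3 3
    linarith
  omega

theorem tsc_tail (v : ℕ) {ε : ℝ} (hε : 0 < ε) : ∃ n : ℕ, ∀ N : ℕ,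
    ∑ i ∈ Icc n N, ((v : ℝ) + 6 * i + 7) / 2 ^ i ≤ ε := by
  have hs : Summable fun i : ℕ => ((v : ℝ) + 6 * i + 7) / 2 ^ i := by
    have h1 := summable_pow_mul_geometric_of_norm_lt_one (R := ℝ) 1 (r := 1 / 2) (by norm_num)
    have h2 := summable_geometric_two
    refine ((h2.mul_left ((v : ℝ) + 7)).add (h1.mul_left 6)).congr fun i => ?_
    rw [one_div, inv_pow, pow_one]
    ring
  obtain ⟨s, hs'⟩ := summable_iff_vanishing.1 hs (Set.Iio ε) (Iio_mem_nhds hε)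
  refine ⟨s.sup id + 1, fun N => le_of_lt (hs' _ (disjoint_left.2 fun i hi his => ?_))⟩
  have h1 := (mem_Icc.1 hi).1
  have h2 : id i ≤ s.sup id := le_sup his
  simp only [id] at h2
  omega

namespace Dt

theorem tsc_m_ne {d : Dt} {κ : ℕ} (h : d.Good κ) : d.m ≠ 0 := by
  have h1 := h.g₁_pos
  have h2 := h.g₂_pos
  refine mul_ne_zero h.n_ne ?_
  simp only [G]
  positivity

theorem tsc_cnt {d : Dt} {κ : ℕ} (h : d.Good κ) {l : ℕ} (hl : l.Prime) {v : ℕ}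
    (hv : padicValInt l d.m ≤ v) (Y : ℤ) (k : ℕ) :
    cnt (l ^ k) (fun X => (l : ℤ) ∣ d.E ∧ (l : ℤ) ^ k ∣ d.xe l X Y ∧ (l : ℤ) ^ k ∣ d.Δe l X Y) ≤
      4 * l ^ (v + 1) := by
  have : Fact l.Prime := ⟨hl⟩
  have hle : ∀ {A A' : ℤ → Prop}, (∀ x, A x → A' x) → cnt (l ^ k) A ≤ cnt (l ^ k) A' := by
    intro A A' hA
    classical
    rw [tqd_cnt, tqd_cnt]
    exact card_le_card fun r hr => mem_filter.2 ⟨(mem_filter.1 hr).1, hA _ (mem_filter.1 hr).2⟩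
  by_cases hE : (l : ℤ) ∣ d.E
  swap
  · rw [tqd_zero fun ⟨_, hx⟩ => hE hx.1]
    exact Nat.zero_le _
  by_cases ha : (l : ℤ) ∣ d.a
  · have hc := (not_dvd_c h hl ha hE).2
    refine (hle (A' := fun r => (l : ℤ) ^ k ∣ r ^ 2 - 4 * (d.m * d.c)) fun x hx => ?_).trans
      (cnt_sq_le' hl k (v + 1) fun hd => ?_)
    · have := hx.2.2
      rwa [Δe, if_pos ha] at this
    · rw [show 4 * (d.m * d.c) = d.c * (4 * d.m) by ring] at hd
      have h1 := (tqd_prime hl).pow_dvd_of_dvd_mul_left _ hc hd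
      have h2 := tsc_val_four hl (tsc_m_ne h)
      rcases (padicValInt_dvd_iff _ _).1 h1 with h3 | h3
      · exact mul_ne_zero (by norm_num) (tsc_m_ne h) h3
      · omega
  · refine (hle (A' := fun r => (l : ℤ) ^ k ∣ 2 * d.a * r + d.b * Y) fun x hx => ?_).trans
      ((cnt_lin_le hl k ha _).trans ?_)
    · have := hx.2.1
      rwa [xe, if_neg ha, x₁, add_comm] at this
    · have := pow_pos hl.pos (v + 1)
      omega

theorem tsc_W5 {d : Dt} {l : ℕ} (hl : l.Prime) {v : ℕ} (hv : padicValInt l d.m ≤ v) {X Y : ℤ}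
    (hB : d.B X Y ≠ 0) {i j : ℕ} (hi : d.ie l X Y ≤ i)
    (hj : padicValInt l (d.B X Y) ≤ padicValInt l d.m + padicValInt l d.E + 2 * (2 * i) + 2 * j + 1) :
    d.W5 l X Y ≤ 16 * (l : ℝ) ^ i * ((v : ℝ) + 6 * i + 7) * (j + 1) := by
  have hl1 : (1 : ℝ) ≤ l := by exact_mod_cast hl.pos
  have h1 : (l : ℝ) ^ d.ie l X Y ≤ (l : ℝ) ^ i := pow_le_pow_right₀ hl1 hi
  have h0 : (0 : ℝ) ≤ ((v : ℝ) + 6 * i + 5) * j := by positivity
  have h2 : (1 + if padicValInt l d.E ≤ 2 * d.ie l X Y + 3 then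
      (padicValInt l (4 * d.B X Y) : ℝ) else 0) ≤ ((v : ℝ) + 6 * i + 7) * (j + 1) := by
    have h5 : (0 : ℝ) ≤ (v : ℝ) + 6 * i + 2 * j := by positivity
    split_ifs with h3
    · have h4 : padicValInt l (4 * d.B X Y) ≤ v + 6 * i + 6 + 2 * j := by
        have := tsc_val_four hl hB
        omega
      have h6 : (padicValInt l (4 * d.B X Y) : ℝ) ≤ v + 6 * i + 6 + 2 * j := by exact_mod_cast h4
      linarith
    · linarith
  rw [W5, mul_assoc _ _ ((j : ℝ) + 1)]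
  refine mul_le_mul (by linarith) h2 ?_ (by positivity)
  split_ifs <;> positivity

theorem tsc_per (d : Dt) (l : ℕ) (Y : ℤ) {q x y : ℤ} (h : q ∣ x - y) :
    (q ∣ d.xe l x Y → q ∣ d.xe l y Y) ∧ (q ∣ d.Δe l x Y → q ∣ d.Δe l y Y) := by
  unfold xe Δe x₁ x₂ Δ₂
  split_ifs
  · refine ⟨fun h1 => ?_, fun h1 => ?_⟩
    · have := dvd_sub h1 (h.mul_left d.b)
      rwa [show 2 * d.c * Y + d.b * x - d.b * (x - y) = 2 * d.c * Y + d.b * y by ring] at this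
    · have := dvd_sub h1 (h.mul_right (x + y))
      rwa [show x ^ 2 - 4 * (d.m * d.c) - (x - y) * (x + y) = y ^ 2 - 4 * (d.m * d.c) by ring]
        at this
  · refine ⟨fun h1 => ?_, id⟩
    have := dvd_sub h1 (h.mul_left (2 * d.a))
    rwa [show d.b * Y + 2 * d.a * x - 2 * d.a * (x - y) = d.b * Y + 2 * d.a * y by ring] at this

theorem ls_div {l : ℕ} (hl : l.Prime) (v : ℕ) {δ : ℝ} (hδ : 0 < δ) : ∃ r k : ℕ,
    ∀ (d : Dt) (κ : ℕ), d.Good κ → padicValInt l d.m ≤ v → ∀ Y : ℤ,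
    LS 1 l {X | d.B X Y ≠ 0 ∧ (l : ℤ) ^ (padicValInt l d.E + r) ∣ d.B X Y} (fun X => d.B X Y)
      (fun X => d.W5 l X Y) (fun X => 2 * d.ie l X Y + k) δ 2 := by
  classical
  have : Fact l.Prime := ⟨hl⟩
  have hl0 : (0 : ℝ) < l := by exact_mod_cast hl.pos
  have hl2 : (2 : ℝ) ≤ l := by exact_mod_cast hl.two_le
  obtain ⟨n, hn⟩ := tsc_tail v (ε := δ / (64 * (l : ℝ) ^ (v + 1))) (by positivity)
  refine ⟨v + 4 * n, 2 * n, fun d κ h hv Y => ?_⟩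
  have hct : ¬ Ct l (padicValInt l d.m + padicValInt l d.E + 1) d.a (d.b * Y)
      (d.c * Y ^ 2 + d.m * d.E) := content h hl Y rfl
  have hB : (fun X => d.B X Y) = fun X => d.a * X ^ 2 + d.b * Y * X + (d.c * Y ^ 2 + d.m * d.E) :=
    funext fun X => B_eq X Y
  rw [hB]
  refine tsc_types hl _ _ _ _ _ _ (Icc n (n + padicValInt l d.E)) (fun i => 2 * i)
    (fun i => padicValInt l d.m + padicValInt l d.E + 2 * (2 * i))
    (fun i => 16 * (l : ℝ) ^ i * ((v : ℝ) + 6 * i + 7))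
    (fun i X => if i = n then ∃ y', (l : ℤ) ^ (2 * n) ∣ X - y' ∧
      (l : ℤ) ^ (padicValInt l d.m + padicValInt l d.E + 2 * (2 * n)) ∣
        d.a * y' ^ 2 + d.b * Y * y' + (d.c * Y ^ 2 + d.m * d.E)
      else (l : ℤ) ∣ d.E ∧ (l : ℤ) ^ (2 * i) ∣ d.xe l X Y ∧ (l : ℤ) ^ (2 * i) ∣ d.Δe l X Y)
    (fun i _ => by positivity) (fun i _ x y hxy hx => ?_) (fun i _ r _ => ct_shift hl hct r _) ?_
    fun x hx => ?_
  · split_ifs at hx ⊢ with hi
    · subst hi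
      exact tqd_om_per hxy hx
    · exact ⟨hx.1, (tsc_per d l Y hxy).1 hx.2.1, (tsc_per d l Y hxy).2 hx.2.2⟩
  · have h1 := hn (n + padicValInt l d.E)
    rw [le_div_iff₀ (by positivity), sum_mul] at h1
    refine le_trans (sum_le_sum fun i _ => ?_) h1
    have h2 : cnt (l ^ (2 * i)) (fun X => if i = n then ∃ y', (l : ℤ) ^ (2 * n) ∣ X - y' ∧
        (l : ℤ) ^ (padicValInt l d.m + padicValInt l d.E + 2 * (2 * n)) ∣
          d.a * y' ^ 2 + d.b * Y * y' + (d.c * Y ^ 2 + d.m * d.E)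
        else (l : ℤ) ∣ d.E ∧ (l : ℤ) ^ (2 * i) ∣ d.xe l X Y ∧ (l : ℤ) ^ (2 * i) ∣ d.Δe l X Y) ≤
        4 * l ^ (v + 1) := by
      by_cases hi : i = n
      · subst hi
        simp only [if_true]
        have := pow_pos hl.pos (v + 1)
        exact (tqd_om hl hct (2 * i)).trans (by omega)
      · simp only [if_neg hi]
        exact tsc_cnt h hl hv Y _
    have h3 : 16 * (l : ℝ) ^ i * ((v : ℝ) + 6 * i + 7) / (l : ℝ) ^ (2 * i) ≤
        16 * (((v : ℝ) + 6 * i + 7) / 2 ^ i) := by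
      rw [two_mul i, pow_add, mul_assoc, mul_div_assoc, mul_div_mul_left _ _ (by positivity)]
      gcongr
    refine le_trans (mul_le_mul (Nat.cast_le.2 h2) h3 (by positivity) (by positivity))
      (le_of_eq ?_)
    push_cast
    ring
  · obtain ⟨h0, h1⟩ := hx
    rw [← B_eq]
    refine ⟨h0, Or.inr ?_⟩
    obtain ⟨s1, s2, s3, -⟩ := ie_spec h hl x Y
    rcases le_or_gt (d.ie l x Y) n with hi | hi
    · refine ⟨n, mem_Icc.2 ⟨le_rfl, by omega⟩, by omega, ?_, fun j hj => tsc_W5 hl hv h0 hi hj⟩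
      rw [if_pos rfl]
      refine ⟨x, by simp, ?_⟩
      rw [← B_eq]
      exact (pow_dvd_pow _ (by omega)).trans h1
    · have h2 := ((padicValInt_dvd_iff _ _).1 s3).resolve_left h.E_neg.ne
      refine ⟨d.ie l x Y, mem_Icc.2 ⟨hi.le, by omega⟩, by omega, ?_,
        fun j hj => tsc_W5 hl hv h0 le_rfl hj⟩
      rw [if_neg hi.ne']
      exact ⟨(dvd_pow_self _ (by omega)).trans s3, s1, s2⟩

theorem tsc_aux (d : Dt) {l : ℕ} (hl : l.Prime) (Y : ℤ) (k j : ℕ)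
    (h1 : cnt (l ^ k) (fun X => (l : ℤ) ^ k ∣ d.B X Y) ≤ 4 * l ^ j)
    (h2 : ∀ r, (l : ℤ) ^ k ∣ d.B r Y → ¬ Ct l (k + j + 1) (d.a * (l : ℤ) ^ (2 * k))
      (d.x₁ r Y * (l : ℤ) ^ k) (d.B r Y)) :
    LS 1 l {X | d.B X Y ≠ 0} (fun X => d.B X Y)
      (fun X => ((padicValInt l (d.B X Y) + 1 - k : ℕ) : ℝ)) (fun _ => k)
      (4 / (l : ℝ) ^ k * ((l : ℝ) ^ j * (j + 2))) 2 := by
  have : Fact l.Prime := ⟨hl⟩
  have hl0 : (0 : ℝ) < l := by exact_mod_cast hl.pos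
  have key := tsc_types hl d.a (d.b * Y) (d.c * Y ^ 2 + d.m * d.E) {X | d.B X Y ≠ 0}
    (fun X => ((padicValInt l (d.B X Y) + 1 - k : ℕ) : ℝ)) (fun _ => k) {0} (fun _ => k)
    (fun _ => k + j) (fun _ => (j : ℝ) + 2) (fun _ X => (l : ℤ) ^ k ∣ d.B X Y)
    (M := 4 / (l : ℝ) ^ k * ((l : ℝ) ^ j * (j + 2))) (fun _ _ => by positivity)
    (fun _ _ x y hxy hx => by
      rw [B_eq] at hx ⊢
      exact tqd_poly hxy hx)
    (fun _ _ r hr => by
      have := h2 r hr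
      rwa [x₁, add_comm (d.b * Y), B_eq] at this)
    (by
      rw [sum_singleton]
      have h3 : (cnt (l ^ k) (fun X => (l : ℤ) ^ k ∣ d.B X Y) : ℝ) ≤ 4 * (l : ℝ) ^ j := by
        exact_mod_cast h1
      refine le_trans (mul_le_mul_of_nonneg_right h3 (by positivity)) (le_of_eq ?_)
      ring)
    (fun x hx => by
      rw [← B_eq]
      refine ⟨hx, ?_⟩
      rcases le_or_gt k (padicValInt l (d.B x Y)) with h3 | h3
      · refine Or.inr ⟨0, mem_singleton_self 0, le_rfl,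
          (padicValInt_dvd_iff _ _).2 (Or.inr h3), fun t ht => ?_⟩
        have h4 : padicValInt l (d.B x Y) + 1 - k ≤ j + 2 * t + 2 := by omega
        have h5 : ((padicValInt l (d.B x Y) + 1 - k : ℕ) : ℝ) ≤ j + 2 * t + 2 := by
          exact_mod_cast h4
        have h6 : (0 : ℝ) ≤ (j : ℝ) * t := by positivity
        linarith
      · left
        rw [show padicValInt l (d.B x Y) + 1 - k = 0 by omega]
        simp)
  simpa only [← B_eq] using key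

theorem tsc_dvd {d : Dt} {l : ℕ} (hl : l.Prime) (hE : ¬ (l : ℤ) ∣ d.E) (hm : ¬ (l : ℤ) ∣ d.m)
    (ha : (l : ℤ) ∣ d.a) (Y : ℤ) (k : ℕ) :
    LS 1 l {X | d.B X Y ≠ 0} (fun X => d.B X Y)
      (fun X => ((padicValInt l (d.B X Y) + 1 - k : ℕ) : ℝ)) (fun _ => k)
      (4 / (l : ℝ) ^ k * ((l : ℝ) ^ 0 * ((0 : ℕ) + 2))) 2 := by
  have hp := tqd_prime hl
  have hb : ¬ (l : ℤ) ∣ d.b := fun hb => hE (by
    rw [E]
    exact dvd_sub (hb.pow (by norm_num)) ((ha.mul_left 4).mul_right _))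
  by_cases hY : (l : ℤ) ∣ Y
  · have h0 : ∀ r, ¬ (l : ℤ) ∣ d.B r Y := fun r hr => by
      rw [B_eq, ← add_assoc, dvd_add_right (dvd_add (dvd_add (ha.mul_right _)
        ((hY.mul_left _).mul_right _)) ((hY.pow (by norm_num)).mul_left _))] at hr
      exact (hp.dvd_or_dvd hr).elim hm hE
    refine tsc_aux d hl Y k 0 ?_ fun r _ hc => h0 r ((dvd_pow_self _ (by omega)).trans hc.2.2)
    refine (tqd_le_one fun x y hx _ => ?_).trans (by norm_num)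
    cases k with
    | zero => simp
    | succ k => exact absurd ((dvd_pow_self _ (by omega)).trans hx) (h0 x)
  · have hbY : ¬ (l : ℤ) ∣ d.b * Y := fun h => (hp.dvd_or_dvd h).elim hb hY
    refine tsc_aux d hl Y k 0 ?_ fun r _ hc => hbY ?_
    · simp only [B_eq]
      rw [cnt_hensel' hl ha hbY]
      norm_num
    · have h1 := hc.2.1
      rw [add_zero, pow_succ', mul_dvd_mul_iff_right (pow_ne_zero _ hp.ne_zero), x₁] at h1
      exact (dvd_add_left ((ha.mul_left 2).mul_right r)).1 h1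

theorem tsc_ndvd {d : Dt} {l : ℕ} (hl : l.Prime) (h2 : l ≠ 2) (hE : ¬ (l : ℤ) ∣ d.E)
    (ha : ¬ (l : ℤ) ∣ d.a) (Y : ℤ) {k j : ℕ} (hj : j = k ∨ j < k ∧
      ¬ (l : ℤ) ^ (2 * (j + 1)) ∣ d.Δ₁ Y) :
    LS 1 l {X | d.B X Y ≠ 0} (fun X => d.B X Y)
      (fun X => ((padicValInt l (d.B X Y) + 1 - k : ℕ) : ℝ)) (fun _ => k)
      (4 / (l : ℝ) ^ k * ((l : ℝ) ^ j * (j + 2))) 2 := by
  classical
  have hp := tqd_prime hl
  rcases hj with rfl | ⟨hj, hD⟩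
  · refine tsc_aux d hl Y j j ?_ fun r _ hc => ha ?_
    · rw [tqd_cnt]
      refine (card_filter_le _ _).trans ?_
      rw [card_range]
      omega
    · have h1 := hc.1
      rwa [← two_mul, pow_succ', mul_dvd_mul_iff_right (pow_ne_zero _ hp.ne_zero)] at h1
  · have hD' : ¬ (l : ℤ) ^ (2 * j + 2) ∣ d.E * d.Δ₁ Y := fun h =>
      hD (hp.pow_dvd_of_dvd_mul_left _ hE h)
    refine tsc_aux d hl Y k j ?_ fun r _ hc => hD' ?_
    · have h2a : ¬ (l : ℤ) ∣ 2 * d.a := fun h => (hp.dvd_or_dvd h).elim (tqd_not_two hl h2) ha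
      have h1 := cnt_affine (q := l ^ k) (pow_pos hl.pos k)
        (A := fun u => (l : ℤ) ^ k ∣ u ^ 2 - d.E * d.Δ₁ Y) (fun x y hxy hx => by
          push_cast at hxy
          have := dvd_sub hx (hxy.mul_right (x + y))
          rwa [show x ^ 2 - d.E * d.Δ₁ Y - (x - y) * (x + y) = y ^ 2 - d.E * d.Δ₁ Y by ring]
            at this) (d.b * Y) (u := 2 * d.a) (by
          push_cast
          exact ((hp.coprime_iff_not_dvd.2 h2a).symm).pow_right)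
      refine le_trans ?_ (h1.le.trans (cnt_sq_le' hl k j hD'))
      rw [tqd_cnt, tqd_cnt]
      refine card_le_card fun r hr => mem_filter.2 ⟨(mem_filter.1 hr).1, ?_⟩
      have h3 := ((mem_filter.1 hr).2).mul_left (4 * d.a)
      rwa [← key₁, x₁] at h3
    · have h1 := hc.2.1
      rw [show k + j + 1 = j + 1 + k by ring, pow_add,
        mul_dvd_mul_iff_right (pow_ne_zero _ hp.ne_zero)] at h1
      have h3 : (l : ℤ) ^ (2 * j + 2) ∣ d.x₁ r Y ^ 2 := by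
        rw [show 2 * j + 2 = (j + 1) * 2 by ring, pow_mul]
        exact pow_dvd_pow_of_dvd h1 2
      have h4 : (l : ℤ) ^ (2 * j + 2) ∣ 4 * d.a * d.B r Y :=
        ((pow_dvd_pow _ (by omega)).trans hc.2.2).mul_left _
      have h5 := dvd_sub h3 h4
      rwa [← key₁, sub_sub_cancel] at h5

theorem tsc_rpow {x y : ℝ} (hx : 0 ≤ x) (hy : 0 ≤ y) (h : x ^ 4 ≤ y ^ 3) :
    x ^ (4 / 3 : ℝ) ≤ y := by
  refine le_of_pow_le_pow_left₀ (n := 3) (by norm_num) hy (le_trans (le_of_eq ?_) h)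
  rw [← Real.rpow_natCast, ← Real.rpow_mul hx, ← Real.rpow_natCast]
  norm_num

theorem tsc_sum (n : ℕ) : ∑ i ∈ range n, ((i : ℝ) + 2) ^ 2 / 2 ^ i =
    22 - (2 * (n : ℝ) ^ 2 + 12 * n + 22) / 2 ^ n := by
  induction n with
  | zero => norm_num
  | succ n ih =>
    rw [sum_range_succ, ih]
    push_cast
    field_simp
    ring

theorem tsc_mean {l : ℕ} (hl : l.Prime) (h2 : l ≠ 2) {u : ℤ} (hu : ¬ (l : ℤ) ∣ u) (k : ℕ)
    (J : ℕ → ℕ) (hJ : ∀ r, J r ≤ k ∧ (l : ℤ) ^ (2 * J r) ∣ (r : ℤ) ^ 2 - 4 * u) :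
    ∑ r ∈ range (l ^ (2 * k)), ((l : ℝ) ^ J r * (J r + 2)) ^ (4 / 3 : ℝ) ≤
      88 * (l : ℝ) ^ (2 * k) := by
  classical
  have hp := tqd_prime hl
  have hl0 : (0 : ℝ) < l := by exact_mod_cast hl.pos
  have hl3 : (3 : ℝ) ≤ l := by
    have := hl.two_le
    exact_mod_cast (by omega : 3 ≤ l)
  have h4 : ∀ j, cnt (l ^ j) (fun r => (l : ℤ) ^ j ∣ r ^ 2 - 4 * u) ≤ 4 := by
    intro j
    refine (cnt_sq_le' hl j 0 fun h => ?_).trans (by norm_num)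
    have h3 : (l : ℤ) ∣ 2 * (2 * u) := by
      rw [← mul_assoc]
      exact (dvd_pow_self _ (by norm_num)).trans h
    exact hu ((hp.dvd_or_dvd ((hp.dvd_or_dvd h3).resolve_left (tqd_not_two hl h2))).resolve_left
      (tqd_not_two hl h2))
  have h1 : ∀ r ∈ range (l ^ (2 * k)), ((l : ℝ) ^ J r * (J r + 2)) ^ (4 / 3 : ℝ) ≤
      ∑ i ∈ range (k + 1), if (l : ℤ) ^ (2 * i) ∣ (r : ℤ) ^ 2 - 4 * u then
        (l : ℝ) ^ (2 * i) * (((i : ℝ) + 2) ^ 2 / 2 ^ i) else 0 := by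
    intro r _
    have h5 := single_le_sum (s := range (k + 1))
      (f := fun i : ℕ => if (l : ℤ) ^ (2 * i) ∣ (r : ℤ) ^ 2 - 4 * u then
        (l : ℝ) ^ (2 * i) * (((i : ℝ) + 2) ^ 2 / 2 ^ i) else 0)
      (fun j _ => by split_ifs <;> positivity) (mem_range.2 (Nat.lt_succ_of_le (hJ r).1))
    rw [if_pos (hJ r).2] at h5
    refine le_trans (tsc_rpow (by positivity) (by positivity) ?_) h5
    generalize J r = i
    have e1 : ((l : ℝ) ^ (2 * i) * (((i : ℝ) + 2) ^ 2 / 2 ^ i)) ^ 3 =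
        ((l : ℝ) ^ i * (i + 2)) ^ 4 * (((l : ℝ) ^ 2 / 8) ^ i * ((i : ℝ) + 2) ^ 2) := by
      rw [div_pow ((l : ℝ) ^ 2), show (8 : ℝ) = 2 ^ 3 by norm_num, ← pow_mul (2 : ℝ)]
      field_simp
      ring
    rw [e1]
    refine le_mul_of_one_le_right (by positivity) (one_le_mul_of_one_le_of_one_le
      (one_le_pow₀ ?_) (one_le_pow₀ ?_))
    · rw [le_div_iff₀ (by norm_num)]
      nlinarith
    · have : (0 : ℝ) ≤ i := by positivity
      linarith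
  refine (sum_le_sum h1).trans ?_
  rw [sum_comm]
  have h6 : ∀ i ∈ range (k + 1), (∑ r ∈ range (l ^ (2 * k)),
      if (l : ℤ) ^ (2 * i) ∣ (r : ℤ) ^ 2 - 4 * u then
        (l : ℝ) ^ (2 * i) * (((i : ℝ) + 2) ^ 2 / 2 ^ i) else 0) ≤
      4 * (l : ℝ) ^ (2 * k) * (((i : ℝ) + 2) ^ 2 / 2 ^ i) := by
    intro i hi
    have hj' : 2 * i ≤ 2 * k := by
      have := mem_range.1 hi
      omega
    have h7 := tqd_per (pow_pos hl.pos (2 * i)) (l ^ (2 * k - 2 * i))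
      (A := fun r => (l : ℤ) ^ (2 * i) ∣ r ^ 2 - 4 * u) (fun _ h => h) fun x y h1 h3 => by
        push_cast at h1
        have := dvd_sub h3 (h1.mul_right (x + y))
        rwa [show x ^ 2 - 4 * u - (x - y) * (x + y) = y ^ 2 - 4 * u by ring] at this
    rw [← pow_add, Nat.add_sub_cancel' hj'] at h7
    have h3 := h7.trans (Nat.mul_le_mul_left _ (h4 (2 * i)))
    rw [tqd_cnt] at h3
    rw [← sum_filter, sum_const, nsmul_eq_mul]
    have h5 : (((range (l ^ (2 * k))).filter fun r : ℕ =>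
        (l : ℤ) ^ (2 * i) ∣ (r : ℤ) ^ 2 - 4 * u).card : ℝ) ≤ (l : ℝ) ^ (2 * k - 2 * i) * 4 := by
      exact_mod_cast h3
    refine le_trans (mul_le_mul_of_nonneg_right h5 (by positivity)) (le_of_eq ?_)
    conv_rhs => rw [← Nat.sub_add_cancel hj', pow_add]
    ring
  refine (sum_le_sum h6).trans ?_
  rw [← mul_sum, tsc_sum]
  have h8 : (0 : ℝ) ≤ (2 * ((k + 1 : ℕ) : ℝ) ^ 2 + 12 * (k + 1 : ℕ) + 22) / 2 ^ (k + 1) := by
    positivity
  have h9 : (0 : ℝ) ≤ (l : ℝ) ^ (2 * k) := by positivity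
  nlinarith

theorem ls_split : ∃ K : ℝ, 0 < K ∧ ∀ (d : Dt) (κ : ℕ), d.Good κ → ∀ l : ℕ, l.Prime → l ≠ 2 →
    ¬ (l : ℤ) ∣ d.E → ¬ (l : ℤ) ∣ d.m → ∀ k : ℕ, ∃ M : ℤ → ℝ, (∀ Y, 0 ≤ M Y) ∧
    (∀ Y Y', ((l ^ (2 * k) : ℕ) : ℤ) ∣ Y - Y' → M Y = M Y') ∧
    ∑ r ∈ range (l ^ (2 * k)), M r ^ (4 / 3 : ℝ) ≤
      (l ^ (2 * k) : ℕ) * (K / (l : ℝ) ^ k) ^ (4 / 3 : ℝ) ∧
    ∀ Y, LS 1 l {X | d.B X Y ≠ 0} (fun X => d.B X Y)
      (fun X => ((padicValInt l (d.B X Y) + 1 - k : ℕ) : ℝ)) (fun _ => k) (M Y) 2 := by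
  classical
  refine ⟨4 * 88, by norm_num, fun d κ _ l hl h2 hE hm k => ?_⟩
  have hp := tqd_prime hl
  have hl0 : (0 : ℝ) < l := by exact_mod_cast hl.pos
  by_cases ha : (l : ℤ) ∣ d.a
  · refine ⟨fun _ => 4 / (l : ℝ) ^ k * ((l : ℝ) ^ 0 * ((0 : ℕ) + 2)), fun _ => by positivity,
      fun _ _ _ => rfl, ?_, fun Y => tsc_dvd hl hE hm ha Y k⟩
    rw [sum_const, card_range, nsmul_eq_mul]
    refine mul_le_mul_of_nonneg_left (Real.rpow_le_rpow (by positivity) ?_ (by norm_num))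
      (by positivity)
    rw [div_mul_eq_mul_div]
    gcongr
    norm_num
  · set J : ℤ → ℕ := fun Y => Nat.findGreatest (fun j => (l : ℤ) ^ (2 * j) ∣ d.Δ₁ Y) k with hJ
    have hJ1 : ∀ Y, J Y ≤ k := fun Y => Nat.findGreatest_le k
    have hJ2 : ∀ Y, (l : ℤ) ^ (2 * J Y) ∣ d.Δ₁ Y := fun Y =>
      Nat.findGreatest_spec (P := fun j => (l : ℤ) ^ (2 * j) ∣ d.Δ₁ Y) (Nat.zero_le k) (by simp)
    have hJ3 : ∀ Y j, j ≤ k → (l : ℤ) ^ (2 * j) ∣ d.Δ₁ Y → j ≤ J Y := fun Y j h1 h3 =>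
      Nat.le_findGreatest (P := fun j => (l : ℤ) ^ (2 * j) ∣ d.Δ₁ Y) h1 h3
    have hJ4 : ∀ Y Y', (l : ℤ) ^ (2 * k) ∣ Y - Y' → J Y ≤ J Y' := fun Y Y' h => by
      refine hJ3 _ _ (hJ1 Y) ?_
      have h1 : (l : ℤ) ^ (2 * J Y) ∣ Y - Y' :=
        (pow_dvd_pow _ (Nat.mul_le_mul_left 2 (hJ1 Y))).trans h
      have := dvd_sub (hJ2 Y) (h1.mul_right (Y + Y'))
      rwa [show d.Δ₁ Y - (Y - Y') * (Y + Y') = d.Δ₁ Y' by simp only [Δ₁]; ring] at this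
    refine ⟨fun Y => 4 / (l : ℝ) ^ k * ((l : ℝ) ^ J Y * (J Y + 2)), fun _ => by positivity,
      fun Y Y' h => ?_, ?_, fun Y => tsc_ndvd hl h2 hE ha Y ?_⟩
    · push_cast at h
      simp only [le_antisymm (hJ4 Y Y' h) (hJ4 Y' Y (dvd_sub_comm.1 h))]
    · have h1 := tsc_mean hl h2 (u := d.m * d.a) (fun h => (hp.dvd_or_dvd h).elim hm ha) k
        (fun r => J r) fun r => ⟨hJ1 r, hJ2 r⟩
      have h3 : (88 : ℝ) ≤ 88 ^ (4 / 3 : ℝ) := by
        have := Real.rpow_le_rpow_of_exponent_le (x := 88) (by norm_num)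
          (show (1 : ℝ) ≤ 4 / 3 by norm_num)
        rwa [Real.rpow_one] at this
      have h4 : ∀ r : ℕ, (4 / (l : ℝ) ^ k * ((l : ℝ) ^ J r * (J r + 2))) ^ (4 / 3 : ℝ) =
          (4 / (l : ℝ) ^ k) ^ (4 / 3 : ℝ) * ((l : ℝ) ^ J r * (J r + 2)) ^ (4 / 3 : ℝ) := fun r =>
        Real.mul_rpow (by positivity) (by positivity)
      simp only [h4]
      rw [← mul_sum, show 4 * 88 / (l : ℝ) ^ k = 4 / (l : ℝ) ^ k * 88 by ring,
        Real.mul_rpow (by positivity) (by norm_num), mul_left_comm]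
      refine mul_le_mul_of_nonneg_left (h1.trans ?_) (by positivity)
      push_cast
      rw [mul_comm]
      exact mul_le_mul_of_nonneg_left h3 (by positivity)
    · rcases (hJ1 Y).eq_or_lt with h | h
      · exact Or.inl h
      · exact Or.inr ⟨h, fun h1 => absurd (hJ3 Y _ h h1) (by omega)⟩

end Dt

end Pool.Agent.EQ
end
end

-- part Pool.Agent.P.MP_ad7a55_nt.TSd
section

/-! Majorants with a gain: a general level. -/

set_option autoImplicit false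

noncomputable section

open Finset Matrix

namespace Pool.Agent.EQ

/-- The mass of a type. -/
def tsd_pi (l : ℕ) (t : ℕ × ℤ × ℕ) : ℝ :=
  16 * (l : ℝ) ^ t.2.2 * (2 * t.2.2 + 2 * t.1 + 7)

theorem tsd_pi_nonneg (l : ℕ) (t : ℕ × ℤ × ℕ) : 0 ≤ tsd_pi l t := by
  unfold tsd_pi
  positivity

theorem tsd_val4 {l : ℕ} (hl : l.Prime) {z : ℤ} (hz : z ≠ 0) :
    padicValInt l (4 * z) ≤ padicValInt l z + 2 := by
  have : Fact l.Prime := ⟨hl⟩
  rw [padicValInt.mul (by norm_num) hz]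
  have h1 : padicValInt l 4 ≤ 2 := by
    by_contra h
    have h2 : (l : ℤ) ^ 3 ∣ 4 := (padicValInt_dvd_iff 3 4).2 (Or.inr (by omega))
    have h3 := Int.le_of_dvd (by norm_num) h2
    have h4 : (2 : ℤ) ≤ l := by exact_mod_cast hl.two_le
    have h5 : (2 : ℤ) ^ 3 ≤ (l : ℤ) ^ 3 := pow_le_pow_left₀ (by norm_num) h4 3
    omega
  omega

theorem tsd_rep {q : ℕ} (hq : 0 < q) (x : ℤ) : ∃ r : ℕ, r < q ∧ (q : ℤ) ∣ x - r := by
  have hq2 : (0 : ℤ) < q := by exact_mod_cast hq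
  obtain ⟨r, hr⟩ := Int.eq_ofNat_of_zero_le (Int.emod_nonneg x hq2.ne')
  refine ⟨r, ?_, ?_⟩
  · have := Int.emod_lt_of_pos x hq2
    rw [hr] at this
    exact_mod_cast this
  · rw [← hr]
    exact Int.dvd_self_sub_emod

open Classical in
/-- A family of types with a common modulus. -/
theorem tsd_fam {l : ℕ} (hl : l.Prime) (μ : ℕ) (A : ℤ → Prop)
    (hA : ∀ x y, (l : ℤ) ^ μ ∣ x - y → A x → A y) (j : ℤ → ℕ) :
    ∃ T : Finset (ℕ × ℤ × ℕ), ∑ t ∈ T, tsd_pi l t / (l : ℝ) ^ t.1 ≤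
      ∑ r ∈ range (l ^ μ), (if A r then tsd_pi l (μ, r, j r) / (l : ℝ) ^ μ else 0) ∧
      ∀ x, A x → ∃ r : ℤ, (l : ℤ) ^ μ ∣ x - r ∧ (μ, r, j r) ∈ T := by
  refine ⟨((range (l ^ μ)).filter fun r : ℕ => A r).image fun r : ℕ => (μ, (r : ℤ), j r), ?_,
    fun x hx => ?_⟩
  · rw [← sum_filter]
    exact sum_image_le_of_nonneg fun t _ => div_nonneg (tsd_pi_nonneg _ _) (by positivity)
  · obtain ⟨r, h1, h2⟩ := tsd_rep (pow_pos hl.pos μ) x
    push_cast at h2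
    exact ⟨r, h2, mem_image.2 ⟨r, mem_filter.2 ⟨mem_range.2 h1, hA _ _ h2 hx⟩, rfl⟩⟩

open Classical in
theorem tsd_sum_const (q : ℕ) (A : ℤ → Prop) (c : ℝ) :
    ∑ r ∈ range q, (if A r then c else 0) = cnt q A * c := by
  rw [tlv_cnt, sum_mul]
  refine sum_congr rfl fun r _ => ?_
  split_ifs <;> simp

theorem tsd_fam' {l : ℕ} (hl : l.Prime) (μ : ℕ) (A : ℤ → Prop)
    (hA : ∀ x y, (l : ℤ) ^ μ ∣ x - y → A x → A y) (j : ℕ) :
    ∃ T : Finset (ℕ × ℤ × ℕ), ∑ t ∈ T, tsd_pi l t / (l : ℝ) ^ t.1 ≤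
      cnt (l ^ μ) A * (tsd_pi l (μ, 0, j) / (l : ℝ) ^ μ) ∧
      ∀ x, A x → ∃ r : ℤ, (l : ℤ) ^ μ ∣ x - r ∧ (μ, r, j) ∈ T := by
  obtain ⟨T, h1, h2⟩ := tsd_fam hl μ A hA fun _ => j
  exact ⟨T, h1.trans_eq (tsd_sum_const (l ^ μ) A (tsd_pi l (μ, 0, j) / (l : ℝ) ^ μ)), h2⟩

theorem tsd_union {l : ℕ} (T T' : Finset (ℕ × ℤ × ℕ)) :
    ∑ t ∈ T ∪ T', tsd_pi l t / (l : ℝ) ^ t.1 ≤
      ∑ t ∈ T, tsd_pi l t / (l : ℝ) ^ t.1 + ∑ t ∈ T', tsd_pi l t / (l : ℝ) ^ t.1 := by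
  rw [← sum_union_inter]
  exact le_add_of_nonneg_right
    (sum_nonneg fun t _ => div_nonneg (tsd_pi_nonneg _ _) (by positivity))

/-- The types of large level. -/
theorem tsd_tail {l : ℕ} (hl : l.Prime) (A : ℕ → ℤ → Prop)
    (hA : ∀ i x y, (l : ℤ) ^ (2 * i) ∣ x - y → A i x → A i y)
    (hc : ∀ i, cnt (l ^ (2 * i)) (A i) ≤ 8) (n : ℕ) :
    ∃ T : Finset (ℕ × ℤ × ℕ), ∑ t ∈ T, tsd_pi l t / (l : ℝ) ^ t.1 ≤ 3328 ∧
      ∀ i < n, ∀ x, A i x → ∃ r : ℤ, (l : ℤ) ^ (2 * i) ∣ x - r ∧ (2 * i, r, i) ∈ T := by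
  suffices H : ∃ T : Finset (ℕ × ℤ × ℕ), ∑ t ∈ T, tsd_pi l t / (l : ℝ) ^ t.1 ≤
      128 * (26 - (12 * n + 26) / 2 ^ n) ∧
      ∀ i < n, ∀ x, A i x → ∃ r : ℤ, (l : ℤ) ^ (2 * i) ∣ x - r ∧ (2 * i, r, i) ∈ T by
    obtain ⟨T, h1, h2⟩ := H
    refine ⟨T, h1.trans ?_, h2⟩
    have : (0 : ℝ) ≤ (12 * n + 26) / 2 ^ n := by positivity
    linarith
  induction n with
  | zero => exact ⟨∅, by norm_num, fun i hi => absurd hi (Nat.not_lt_zero i)⟩
  | succ n ih =>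
    obtain ⟨T, h1, h2⟩ := ih
    obtain ⟨T', h3, h4⟩ := tsd_fam' hl (2 * n) (A n) (hA n) n
    refine ⟨T ∪ T', (tsd_union T T').trans ?_, fun i hi x hx => ?_⟩
    · have e1 : tsd_pi l (2 * n, 0, n) / (l : ℝ) ^ (2 * n) =
          16 * (6 * n + 7) / (l : ℝ) ^ n := by
        have : (0 : ℝ) < l := by exact_mod_cast hl.pos
        unfold tsd_pi
        push_cast
        field_simp
        ring
      rw [e1] at h3
      have h5 : (cnt (l ^ (2 * n)) (A n) : ℝ) ≤ 8 := by exact_mod_cast hc n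
      have h6 : (2 : ℝ) ^ n ≤ (l : ℝ) ^ n :=
        pow_le_pow_left₀ (by norm_num) (by exact_mod_cast hl.two_le) n
      have h7 : (cnt (l ^ (2 * n)) (A n) : ℝ) * (16 * (6 * n + 7) / (l : ℝ) ^ n) ≤
          8 * (16 * (6 * n + 7) / 2 ^ n) := by gcongr
      have h8 : (128 : ℝ) * (26 - (12 * (n + 1 : ℕ) + 26) / 2 ^ (n + 1)) =
          128 * (26 - (12 * n + 26) / 2 ^ n) + 8 * (16 * (6 * n + 7) / 2 ^ n) := by
        push_cast
        field_simp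
        ring
      rw [h8]
      linarith
    · rcases Nat.lt_succ_iff_lt_or_eq.1 hi with hi | rfl
      · obtain ⟨r, a1, a2⟩ := h2 i hi x hx
        exact ⟨r, a1, mem_union_left _ a2⟩
      · obtain ⟨r, a1, a2⟩ := h4 x hx
        exact ⟨r, a1, mem_union_right _ a2⟩

/-- Counting a union of fibres. -/
theorem tsd_cnt_fib {q : ℕ} (hq : 0 < q) {A : ℤ → Prop} {R : ℤ → ℤ → Prop} {n : ℕ}
    (hA : ∀ x y, (q : ℤ) ∣ x - y → A x → A y)
    (hR : ∀ x y z, (q : ℤ) ∣ x - y → R x z → R y z) (hn : ∀ u, cnt q (R u) ≤ n) :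
    cnt q (fun z => ∃ u, A u ∧ R u z) ≤ cnt q A * n := by
  classical
  rw [tqd_cnt, tqd_cnt]
  refine le_trans (card_le_card (t := ((range q).filter fun u : ℕ => A u).biUnion
    fun u : ℕ => (range q).filter fun z : ℕ => R u z) fun z hz => ?_)
    (card_biUnion_le_card_mul _ _ _ fun u _ => ?_)
  · obtain ⟨h1, u, h2, h3⟩ := mem_filter.1 hz
    obtain ⟨r, h4, h5⟩ := tsd_rep hq u
    exact mem_biUnion.2 ⟨r, mem_filter.2 ⟨mem_range.2 h4, hA _ _ h5 h2⟩,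
      mem_filter.2 ⟨h1, hR _ _ _ h5 h3⟩⟩
  · have := hn u
    rwa [tqd_cnt] at this

theorem tsd_sq_per {q x y D : ℤ} (h : q ∣ x - y) (hx : q ∣ x ^ 2 - D) : q ∣ y ^ 2 - D := by
  have := dvd_sub hx (h.mul_right (x + y))
  rwa [show x ^ 2 - D - (x - y) * (x + y) = y ^ 2 - D by ring] at this

/-- Half the order of a gcd with `l ^ k`. -/
theorem tsd_J {l : ℕ} (hl : l.Prime) (k : ℕ) : ∃ J : ℤ → ℕ, ∀ D : ℤ, 2 * J D ≤ k ∧
    (l : ℝ) ^ J D * (l : ℝ) ^ J D ≤ Int.gcd D (l ^ k) ∧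
    (∀ i, 2 * i ≤ k → (l : ℤ) ^ (2 * i) ∣ D → i ≤ J D) ∧
    ∀ w v b₀ : ℤ, ¬ (l : ℤ) ∣ w → cnt (l ^ k) (fun z => ∃ u, (l : ℤ) ^ k ∣ u ^ 2 - D ∧
      (l : ℤ) ^ k ∣ 2 * w * z + v - b₀ * u) ≤ 8 * l ^ J D := by
  have H : ∀ D : ℤ, ∃ γ ≤ k, Int.gcd D (l ^ k) = l ^ γ := fun D => by
    have h2 : Int.gcd D (l ^ k) ∣ l ^ k := by
      have := Int.gcd_dvd_right D ((l : ℤ) ^ k)
      exact Int.natCast_dvd_natCast.1 (by rw [Nat.cast_pow]; exact this)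
    exact (Nat.dvd_prime_pow hl).1 h2
  choose γ h1 h2 using H
  have h3 : ∀ D e, e ≤ k → (l : ℤ) ^ e ∣ D → e ≤ γ D := fun D e he hd => by
    have h4 : l ^ e ∣ Int.gcd D (l ^ k) :=
      Int.dvd_gcd (by exact_mod_cast hd) (by push_cast; exact pow_dvd_pow _ he)
    rw [h2] at h4
    exact (Nat.pow_dvd_pow_iff_le_right hl.one_lt).1 h4
  refine ⟨fun D => γ D / 2, fun D => ⟨by have := h1 D; beta_reduce; omega, ?_,
    fun i hi hd => ?_, fun w v b₀ hw => ?_⟩⟩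
  · rw [h2, ← pow_add]
    push_cast
    exact pow_le_pow_right₀ (by exact_mod_cast hl.one_le) (by omega)
  · have := h3 D _ hi hd
    beta_reduce
    omega
  · have h5 : cnt (l ^ k) (fun u => (l : ℤ) ^ k ∣ u ^ 2 - D) ≤ 4 * l ^ (γ D / 2) := by
      by_cases h6 : 2 * (γ D / 2) + 2 ≤ k
      · refine cnt_sq_le' hl k _ fun h7 => ?_
        have := h3 D _ h6 h7
        omega
      · by_cases h7 : γ D = k
        · rw [h7]
          exact cnt_sq_le hl k D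
        · refine (cnt_sq_le hl k D).trans
            (Nat.mul_le_mul_left _ (Nat.pow_le_pow_right hl.pos (by omega)))
    have h6 := tsd_cnt_fib (pow_pos hl.pos k) (A := fun u => (l : ℤ) ^ k ∣ u ^ 2 - D)
      (R := fun u z => (l : ℤ) ^ k ∣ 2 * w * z + v - b₀ * u) (n := 2)
      (fun x y h hx => tsd_sq_per (by exact_mod_cast h) hx)
      (fun x y z h hx => by
        push_cast at h
        have := dvd_add hx (h.mul_left b₀)
        rwa [show 2 * w * z + v - b₀ * x + b₀ * (x - y) = 2 * w * z + v - b₀ * y by ring] at this)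
      (fun u => by
        have := cnt_lin_le hl k hw (v - b₀ * u)
        simpa only [add_sub_assoc] using this)
    refine h6.trans ?_
    calc _ ≤ 4 * l ^ (γ D / 2) * 2 := Nat.mul_le_mul_right _ h5
      _ = _ := by ring

theorem tsd_eight {l : ℕ} (hl : l.Prime) {u : ℤ} (hu : ¬ (l : ℤ) ∣ u) (j : ℕ) :
    cnt (l ^ j) (fun r => (l : ℤ) ^ j ∣ r ^ 2 - 4 * u) ≤ 8 := by
  have hp := tqd_prime hl
  by_cases h2 : l = 2
  · subst h2
    refine (cnt_sq_le' hl j 1 fun h => hu ?_).trans (by norm_num)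
    obtain ⟨c, hc⟩ := h
    exact ⟨2 * c, by push_cast at hc ⊢; linarith⟩
  · refine (cnt_sq_le' hl j 0 fun h => ?_).trans (by norm_num)
    have h3 : (l : ℤ) ∣ 2 * (2 * u) := by
      rw [← mul_assoc]
      exact (dvd_pow_self _ (by norm_num)).trans h
    exact hu ((hp.dvd_or_dvd ((hp.dvd_or_dvd h3).resolve_left (tqd_not_two hl h2))).resolve_left
      (tqd_not_two hl h2))

theorem tsd_four {l : ℕ} (hl : l.Prime) (k : ℕ) {A : ℤ → Prop}
    (h : ∀ x y, A x → A y → (l : ℤ) ^ k ∣ 4 * (x - y)) : cnt (l ^ k) A ≤ 4 := by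
  have hp := tqd_prime hl
  by_cases h0 : ∃ x, A x
  · obtain ⟨c, hc⟩ := h0
    by_cases h2 : l = 2
    · subst h2
      refine (tqd_one hl (j := min k 2) (min_le_left _ _) c fun x hx => ?_).trans ?_
      · by_cases hk : k ≤ 2
        · rw [min_eq_left hk, Nat.sub_self, pow_zero]
          exact one_dvd _
        · rw [min_eq_right (by omega)]
          obtain ⟨e, rfl⟩ : ∃ e, k = 2 + e := ⟨k - 2, by omega⟩
          have := h x c hx hc
          rw [pow_add] at this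
          rw [Nat.add_sub_cancel_left]
          exact (mul_dvd_mul_iff_left (a := (4 : ℤ)) (by norm_num)).1 (by simpa using this)
      · exact (Nat.pow_le_pow_right (by norm_num) (min_le_right _ _)).trans (by norm_num)
    · refine (tqd_le_one fun x y hx hy => ?_).trans (by norm_num)
      push_cast
      refine hp.pow_dvd_of_dvd_mul_left k (fun h4 => ?_) (h x y hx hy)
      rw [show (4 : ℤ) = 2 * 2 by norm_num] at h4
      exact tqd_not_two hl h2 ((hp.dvd_or_dvd h4).elim id id)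
  · rw [tqd_zero h0]
    norm_num

theorem tsd_gcd_le {l : ℕ} (hl : l.Prime) (k : ℕ) (D : ℤ) :
    (Int.gcd D (l ^ k) : ℝ) ≤ (l : ℝ) ^ k := by
  have h2 : Int.gcd D (l ^ k) ∣ l ^ k := by
    have := Int.gcd_dvd_right D ((l : ℤ) ^ k)
    exact Int.natCast_dvd_natCast.1 (by rw [Nat.cast_pow]; exact this)
  exact_mod_cast Nat.le_of_dvd (pow_pos hl.pos k) h2

theorem tsd_gcd_per {q D D' : ℤ} (h : q ∣ D - D') : Int.gcd D q = Int.gcd D' q := by
  obtain ⟨c, hc⟩ := h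
  rw [show D = D' + q * c by linarith, Int.gcd_add_mul_left_left]

namespace Dt

/-- A family of types which covers a set majorises the weight. -/
theorem tsd_ls {d : Dt} {κ : ℕ} (h : d.Good κ) {l : ℕ} (hl : l.Prime) (hm : ¬ (l : ℤ) ∣ d.m)
    (Y : ℤ) (S : Set ℤ) (mu : ℤ → ℕ) (T : Finset (ℕ × ℤ × ℕ)) {M : ℝ}
    (hM : ∑ t ∈ T, tsd_pi l t / (l : ℝ) ^ t.1 ≤ M)
    (hS : ∀ X ∈ S, d.B X Y ≠ 0 ∧
      ∃ t ∈ T, t.1 ≤ mu X ∧ (l : ℤ) ^ t.1 ∣ X - t.2.1 ∧ d.ie l X Y ≤ t.2.2) :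
    LS 1 l S (fun X => d.B X Y) (fun X => d.W5 l X Y) mu M 2 := by
  have hv : padicValInt l d.m = 0 := padicValInt.eq_zero_of_not_dvd hm
  have hc : ¬ Ct l (padicValInt l d.E + 1) d.a (d.b * Y) (d.c * Y ^ 2 + d.m * d.E) :=
    content h hl Y (by rw [hv, zero_add])
  have H := fun t : ℕ × ℤ × ℕ => exists_qlev hl (ct_shift hl hc t.2.1 t.1)
  choose Ω h1 h2 using H
  refine ⟨T, tsd_pi l, Ω, fun _ k => k + 1, fun t _ => ⟨tsd_pi_nonneg _ _, h1 t⟩, hM,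
    fun X hX => Or.inr ?_⟩
  obtain ⟨hB, t, ht, a1, ⟨y, hy⟩, a3⟩ := hS X hX
  have e : d.a * (l : ℤ) ^ (2 * t.1) * y ^ 2 + (2 * d.a * t.2.1 + d.b * Y) * (l : ℤ) ^ t.1 * y +
      (d.a * t.2.1 ^ 2 + d.b * Y * t.2.1 + (d.c * Y ^ 2 + d.m * d.E)) = d.B X Y := by
    rw [B_eq, show X = t.2.1 + (l : ℤ) ^ t.1 * y by linarith]
    ring
  obtain ⟨k, b1, b2, b3⟩ := h2 t y (by rw [e]; exact hB)
  rw [e] at b2 b3
  refine ⟨t, ht, y, k, a1, by linarith, b1, b2, ?_⟩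
  have h4 := tsd_val4 hl hB
  have h5 : (l : ℝ) ^ d.ie l X Y ≤ (l : ℝ) ^ t.2.2 :=
    pow_le_pow_right₀ (by exact_mod_cast hl.one_le) a3
  have h6 : (1 + if padicValInt l d.E ≤ 2 * d.ie l X Y + 3 then
      (padicValInt l (4 * d.B X Y) : ℝ) else 0) ≤ (2 * t.2.2 + 2 * t.1 + 7) * (k + 1) := by
    have p1 : (0 : ℝ) ≤ t.2.2 := Nat.cast_nonneg _
    have p2 : (0 : ℝ) ≤ t.1 := Nat.cast_nonneg _
    have p3 : (0 : ℝ) ≤ k := Nat.cast_nonneg _
    split_ifs with h7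
    · have h8 : padicValInt l (4 * d.B X Y) ≤ 2 * t.2.2 + 2 * t.1 + 6 + 2 * k := by omega
      have h9 : (padicValInt l (4 * d.B X Y) : ℝ) ≤ 2 * t.2.2 + 2 * t.1 + 6 + 2 * k := by
        exact_mod_cast h8
      nlinarith [mul_nonneg p1 p3, mul_nonneg p2 p3]
    · nlinarith [mul_nonneg p1 p3, mul_nonneg p2 p3]
  show d.W5 l X Y ≤ tsd_pi l t * (k + 1)
  unfold W5 tsd_pi
  rw [mul_assoc (16 * (l : ℝ) ^ t.2.2)]
  gcongr

theorem tsd_ie_lt {d : Dt} {κ : ℕ} (h : d.Good κ) {l : ℕ} (hl : l.Prime) (X Y : ℤ) :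
    d.ie l X Y < padicValInt l d.E + 1 := by
  have : Fact l.Prime := ⟨hl⟩
  have := ((padicValInt_dvd_iff _ _).1 (ie_spec h hl X Y).2.2.1).resolve_left h.E_neg.ne
  omega

/-- The conclusion of the three cases. -/
def LevM (d : Dt) (K : ℝ) (l k : ℕ) (b₀ : ℤ) : Prop :=
  ∃ M : ℤ → ℝ, (∀ Y, 0 ≤ M Y ∧ M Y ≤ K * (k + 1) ^ 2) ∧
    (∀ Y Y', (l : ℤ) ^ k ∣ Y - Y' → M Y = M Y') ∧ ∑ r ∈ range (l ^ k), M r ≤ K * (k + 1) ^ 3 ∧
    ∀ Y, LS 1 l {X | d.B X Y ≠ 0 ∧ d.LevC (l ^ k) b₀ X Y} (fun X => d.B X Y)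
      (fun X => d.W5 l X Y) (fun X => 2 * d.ie l X Y + k) (M Y) 2

theorem tsd_pi_le {l k j : ℕ} (hj : 2 * j ≤ k) (r : ℤ) :
    tsd_pi l (k, r, j) ≤ 112 * (k + 1) * (l : ℝ) ^ j := by
  have h1 : (2 * j : ℝ) ≤ k := by exact_mod_cast hj
  have h2 : (0 : ℝ) ≤ (l : ℝ) ^ j := by positivity
  have h3 : (0 : ℝ) ≤ k := Nat.cast_nonneg _
  show 16 * (l : ℝ) ^ j * (2 * j + 2 * k + 7) ≤ _
  nlinarith [mul_le_mul_of_nonneg_left h1 h2, mul_nonneg h2 h3]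

theorem lev_one : ∃ K : ℝ, 1 ≤ K ∧ ∀ (d : Dt) (κ : ℕ), d.Good κ → ∀ l : ℕ, l.Prime →
    ¬ (l : ℤ) ∣ d.m → ¬ (l : ℤ) ∣ d.a → ∀ (k : ℕ) (b₀ : ℤ), d.LevM K l k b₀ := by
  classical
  refine ⟨33792, by norm_num, fun d κ h l hl hm ha k b₀ => ?_⟩
  have hp := tqd_prime hl
  have hL : (0 : ℝ) < (l : ℝ) ^ k := pow_pos (by exact_mod_cast hl.pos) k
  have hk : (1 : ℝ) ≤ k + 1 := le_add_of_nonneg_left (Nat.cast_nonneg _)
  obtain ⟨J, hJ⟩ := tsd_J hl k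
  refine ⟨fun Y => 4224 * (k + 1) * (Int.gcd (d.Δ₁ Y) (l ^ k) / (l : ℝ) ^ k),
    fun Y => ⟨by positivity, ?_⟩, fun Y Y' hY => ?_, ?_, fun Y => ?_⟩
  · have h1 := (div_le_one hL).2 (tsd_gcd_le hl k (d.Δ₁ Y))
    calc _ ≤ 4224 * (k + 1 : ℝ) * 1 := mul_le_mul_of_nonneg_left h1 (by positivity)
      _ ≤ _ := by nlinarith
  · beta_reduce
    rw [tsd_gcd_per (D := d.Δ₁ Y) (D' := d.Δ₁ Y')]
    have := hY.mul_right (Y + Y')
    rwa [show (Y - Y') * (Y + Y') = d.Δ₁ Y - d.Δ₁ Y' by simp only [Δ₁]; ring] at this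
  · have h1 := sum_gcd_le hl k (u := d.m * d.a) fun h2 => (hp.dvd_or_dvd h2).elim hm ha
    rw [← mul_sum, ← sum_div]
    have h2 := (div_le_iff₀ hL).2 h1
    calc _ ≤ 4224 * (k + 1 : ℝ) * (8 * (k + 1)) := by
          exact mul_le_mul_of_nonneg_left h2 (by positivity)
      _ ≤ _ := by nlinarith [mul_nonneg (sq_nonneg ((k : ℝ) + 1)) (Nat.cast_nonneg (α := ℝ) k)]
  · obtain ⟨j1, j2, j3, j4⟩ := hJ (d.Δ₁ Y)
    obtain ⟨T, t1, t2⟩ := tsd_fam' hl k (fun z => ∃ u, (l : ℤ) ^ k ∣ u ^ 2 - d.Δ₁ Y ∧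
      (l : ℤ) ^ k ∣ 2 * d.a * z + d.b * Y - b₀ * u) (by
        rintro x y h1 ⟨u, h2, h3⟩
        refine ⟨u, h2, ?_⟩
        have := dvd_sub h3 (h1.mul_left (2 * d.a))
        rwa [show 2 * d.a * x + d.b * Y - b₀ * u - 2 * d.a * (x - y) =
          2 * d.a * y + d.b * Y - b₀ * u by ring] at this) (J (d.Δ₁ Y))
    have t3 : ∑ t ∈ T, tsd_pi l t / (l : ℝ) ^ t.1 ≤
        896 * (k + 1) * (Int.gcd (d.Δ₁ Y) (l ^ k) / (l : ℝ) ^ k) := by
      have h1 : (cnt (l ^ k) (fun z => ∃ u, (l : ℤ) ^ k ∣ u ^ 2 - d.Δ₁ Y ∧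
          (l : ℤ) ^ k ∣ 2 * d.a * z + d.b * Y - b₀ * u) : ℝ) ≤ 8 * (l : ℝ) ^ J (d.Δ₁ Y) := by
        exact_mod_cast j4 d.a (d.b * Y) b₀ ha
      have h2 := tsd_pi_le (l := l) j1 0
      have h3 := tsd_pi_nonneg l (k, 0, J (d.Δ₁ Y))
      refine t1.trans ?_
      calc _ ≤ 8 * (l : ℝ) ^ J (d.Δ₁ Y) *
            (112 * (k + 1) * (l : ℝ) ^ J (d.Δ₁ Y) / (l : ℝ) ^ k) := by gcongr
        _ = 896 * (k + 1) * ((l : ℝ) ^ J (d.Δ₁ Y) * (l : ℝ) ^ J (d.Δ₁ Y) / (l : ℝ) ^ k) := by ring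
        _ ≤ _ := by gcongr
    obtain ⟨T', s1, s2⟩ : ∃ T' : Finset (ℕ × ℤ × ℕ), ∑ t ∈ T', tsd_pi l t / (l : ℝ) ^ t.1 ≤
        3328 * (Int.gcd (d.Δ₁ Y) (l ^ k) / (l : ℝ) ^ k) ∧ ((l : ℤ) ^ k ∣ d.Δ₁ Y →
        ∀ i < padicValInt l d.E + 1, ∀ x, (l : ℤ) ^ (2 * i) ∣ 2 * d.a * x + d.b * Y →
          ∃ r : ℤ, (l : ℤ) ^ (2 * i) ∣ x - r ∧ (2 * i, r, i) ∈ T') := by
      by_cases h1 : (l : ℤ) ^ k ∣ d.Δ₁ Y
      · obtain ⟨T', s1, s2⟩ := tsd_tail hl (fun i x => (l : ℤ) ^ (2 * i) ∣ 2 * d.a * x + d.b * Y)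
          (fun i x y h2 h3 => by
            have := dvd_sub h3 (h2.mul_left (2 * d.a))
            rwa [show 2 * d.a * x + d.b * Y - 2 * d.a * (x - y) = 2 * d.a * y + d.b * Y by ring]
              at this)
          (fun i => (cnt_lin_le hl _ ha _).trans (by norm_num)) (padicValInt l d.E + 1)
        refine ⟨T', s1.trans (le_of_eq ?_), fun _ => s2⟩
        rw [Int.gcd_eq_natAbs_right h1, Int.natAbs_pow, Int.natAbs_natCast]
        push_cast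
        rw [div_self hL.ne', mul_one]
      · exact ⟨∅, by rw [sum_empty]; positivity, fun h2 => absurd h2 h1⟩
    refine tsd_ls h hl hm Y _ _ (T ∪ T') ((tsd_union T T').trans ?_) ?_
    · have h1 : (0 : ℝ) ≤ Int.gcd (d.Δ₁ Y) (l ^ k) / (l : ℝ) ^ k := by positivity
      nlinarith [mul_le_mul_of_nonneg_right hk h1]
    · rintro X ⟨hB, -, ⟨u, u1, u2⟩, -⟩
      refine ⟨hB, ?_⟩
      obtain ⟨i1, i2, -, -⟩ := ie_spec h hl X Y
      rw [xe, if_neg ha] at i1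
      rw [Δe, if_neg ha] at i2
      push_cast at u1 u2
      by_cases hi : 2 * d.ie l X Y ≤ k
      · obtain ⟨r, r1, r2⟩ := t2 X ⟨u, u1, by rwa [x₁, add_comm] at u2⟩
        exact ⟨_, mem_union_left _ r2, Nat.le_add_left _ _, r1, j3 _ hi i2⟩
      · obtain ⟨r, r1, r2⟩ := s2 ((pow_dvd_pow _ (by omega)).trans i2) _ (tsd_ie_lt h hl X Y) X
          (by rwa [x₁, add_comm] at i1)
        exact ⟨_, mem_union_right _ r2, Nat.le_add_right _ _, r1, le_rfl⟩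

theorem lev_two : ∃ K : ℝ, 1 ≤ K ∧ ∀ (d : Dt) (κ : ℕ), d.Good κ → ∀ l : ℕ, l.Prime →
    ¬ (l : ℤ) ∣ d.m → (l : ℤ) ∣ d.a → (l : ℤ) ∣ d.E → ∀ (k : ℕ) (b₀ : ℤ), d.LevM K l k b₀ := by
  classical
  refine ⟨60416, by norm_num, fun d κ h l hl hm ha hE k b₀ => ?_⟩
  have hp := tqd_prime hl
  have hL : (0 : ℝ) < (l : ℝ) ^ k := pow_pos (by exact_mod_cast hl.pos) k
  have hk : (1 : ℝ) ≤ k + 1 := le_add_of_nonneg_left (Nat.cast_nonneg _)
  have hc := (not_dvd_c h hl ha hE).2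
  have hmc : ¬ (l : ℤ) ∣ d.m * d.c := fun h2 => (hp.dvd_or_dvd h2).elim hm hc
  obtain ⟨J, hJ⟩ := tsd_J hl k
  obtain ⟨P, hP⟩ : ∃ P : ℤ → ℤ → Prop, ∀ r Y, P r Y ↔ ∃ u, (l : ℤ) ^ k ∣ u ^ 2 - d.Δ₂ r ∧
      (l : ℤ) ^ k ∣ 2 * d.c * Y + d.b * r - b₀ * u := ⟨_, fun _ _ => Iff.rfl⟩
  obtain ⟨Q, hQ⟩ : ∃ Q : ℤ → Prop, ∀ Y, Q Y ↔ ∃ r, (l : ℤ) ^ k ∣ r ^ 2 - 4 * (d.m * d.c) ∧
      (l : ℤ) ^ k ∣ 2 * d.c * Y + d.b * r := ⟨_, fun _ => Iff.rfl⟩
  have hD : ∀ {x y : ℤ}, (l : ℤ) ^ k ∣ x - y → (l : ℤ) ^ k ∣ d.Δ₂ x - d.Δ₂ y := fun {x y} h1 => by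
    have := h1.mul_right (x + y)
    rwa [show (x - y) * (x + y) = d.Δ₂ x - d.Δ₂ y by simp only [Δ₂]; ring] at this
  have hP1 : ∀ Y x y, (l : ℤ) ^ k ∣ x - y → P x Y → P y Y := fun Y x y h1 h2 => by
    obtain ⟨u, h3, h4⟩ := (hP _ _).1 h2
    refine (hP _ _).2 ⟨u, ?_, ?_⟩
    · have := dvd_add h3 (hD h1)
      rwa [show u ^ 2 - d.Δ₂ x + (d.Δ₂ x - d.Δ₂ y) = u ^ 2 - d.Δ₂ y by ring] at this
    · have := dvd_sub h4 (h1.mul_left d.b)
      rwa [show 2 * d.c * Y + d.b * x - b₀ * u - d.b * (x - y) = 2 * d.c * Y + d.b * y - b₀ * u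
        by ring] at this
  have hP2 : ∀ r x y, (l : ℤ) ^ k ∣ x - y → P r x → P r y := fun r x y h1 h2 => by
    obtain ⟨u, h3, h4⟩ := (hP _ _).1 h2
    refine (hP _ _).2 ⟨u, h3, ?_⟩
    have := dvd_sub h4 (h1.mul_left (2 * d.c))
    rwa [show 2 * d.c * x + d.b * r - b₀ * u - 2 * d.c * (x - y) = 2 * d.c * y + d.b * r - b₀ * u
      by ring] at this
  have hQ1 : ∀ x y, (l : ℤ) ^ k ∣ x - y → Q x → Q y := fun x y h1 h2 => by
    obtain ⟨r, h3, h4⟩ := (hQ _).1 h2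
    refine (hQ _).2 ⟨r, h3, ?_⟩
    have := dvd_sub h4 (h1.mul_left (2 * d.c))
    rwa [show 2 * d.c * x + d.b * r - 2 * d.c * (x - y) = 2 * d.c * y + d.b * r by ring] at this
  have hg : ∑ r ∈ range (l ^ k), (Int.gcd (d.Δ₂ r) (l ^ k) : ℝ) / (l : ℝ) ^ k ≤ 8 * (k + 1) := by
    rw [← sum_div, div_le_iff₀ hL]
    exact sum_gcd_le hl k hmc
  have hπ : ∀ r : ℤ, 0 ≤ tsd_pi l (k, r, J (d.Δ₂ r)) / (l : ℝ) ^ k := fun r =>
    div_nonneg (tsd_pi_nonneg _ _) hL.le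
  have hπ' : ∀ r : ℤ, (l : ℝ) ^ J (d.Δ₂ r) * (tsd_pi l (k, r, J (d.Δ₂ r)) / (l : ℝ) ^ k) ≤
      112 * (k + 1) * ((Int.gcd (d.Δ₂ r) (l ^ k) : ℝ) / (l : ℝ) ^ k) := fun r => by
    obtain ⟨j1, j2, -, -⟩ := hJ (d.Δ₂ r)
    have h2 := tsd_pi_le (l := l) j1 r
    calc _ ≤ (l : ℝ) ^ J (d.Δ₂ r) * (112 * (k + 1) * (l : ℝ) ^ J (d.Δ₂ r) / (l : ℝ) ^ k) := by
          gcongr
      _ = 112 * (k + 1) * ((l : ℝ) ^ J (d.Δ₂ r) * (l : ℝ) ^ J (d.Δ₂ r) / (l : ℝ) ^ k) := by ring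
      _ ≤ _ := by gcongr
  refine ⟨fun Y => (∑ r ∈ range (l ^ k),
      if P r Y then tsd_pi l (k, r, J (d.Δ₂ r)) / (l : ℝ) ^ k else 0) + if Q Y then 3328 else 0,
    fun Y => ⟨?_, ?_⟩, fun Y Y' hY => ?_, ?_, fun Y => ?_⟩
  · refine add_nonneg (sum_nonneg fun r _ => ?_) ?_
    · split_ifs
      · exact hπ r
      · exact le_rfl
    · split_ifs <;> norm_num
  · have h1 : (∑ r ∈ range (l ^ k),
        if P r Y then tsd_pi l (k, r, J (d.Δ₂ r)) / (l : ℝ) ^ k else 0) ≤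
        ∑ r ∈ range (l ^ k), 112 * (k + 1) * ((Int.gcd (d.Δ₂ r) (l ^ k) : ℝ) / (l : ℝ) ^ k) := by
      refine sum_le_sum fun r _ => le_trans ?_ (hπ' r)
      have h2 : (1 : ℝ) ≤ (l : ℝ) ^ J (d.Δ₂ r) := one_le_pow₀ (by exact_mod_cast hl.one_le)
      have h3 := le_mul_of_one_le_left (hπ r) h2
      split_ifs
      · exact h3
      · exact (hπ r).trans h3
    rw [← mul_sum] at h1
    have h2 : (if Q Y then (3328 : ℝ) else 0) ≤ 3328 := by split_ifs <;> norm_num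
    have h3 := mul_le_mul_of_nonneg_left hg (show (0 : ℝ) ≤ 112 * (k + 1) by positivity)
    beta_reduce
    nlinarith
  · beta_reduce
    rw [if_congr (⟨hQ1 Y Y' hY, hQ1 Y' Y (dvd_sub_comm.1 hY)⟩ : Q Y ↔ Q Y') rfl rfl]
    congr 1
    exact sum_congr rfl fun r _ =>
      if_congr ⟨hP2 r Y Y' hY, hP2 r Y' Y (dvd_sub_comm.1 hY)⟩ rfl rfl
  · rw [sum_add_distrib, sum_comm, tsd_sum_const]
    have h1 : (∑ r ∈ range (l ^ k), ∑ Y ∈ range (l ^ k),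
        if P r Y then tsd_pi l (k, r, J (d.Δ₂ r)) / (l : ℝ) ^ k else 0) ≤
        ∑ r ∈ range (l ^ k),
          896 * (k + 1) * ((Int.gcd (d.Δ₂ r) (l ^ k) : ℝ) / (l : ℝ) ^ k) := by
      refine sum_le_sum fun r _ => ?_
      rw [tsd_sum_const _ (P r)]
      have h2 : (cnt (l ^ k) (P r) : ℝ) ≤ 8 * (l : ℝ) ^ J (d.Δ₂ r) := by
        rw [tqd_congr (hP r)]
        exact_mod_cast (hJ (d.Δ₂ r)).2.2.2 d.c (d.b * r) b₀ hc
      have h3 := mul_le_mul_of_nonneg_right h2 (hπ r)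
      have h4 := hπ' r
      linarith
    rw [← mul_sum] at h1
    have h2 : cnt (l ^ k) Q ≤ 8 * 2 := by
      rw [tqd_congr hQ]
      refine (tsd_cnt_fib (pow_pos hl.pos k) (A := fun r => (l : ℤ) ^ k ∣ r ^ 2 - 4 * (d.m * d.c))
        (R := fun r Y => (l : ℤ) ^ k ∣ 2 * d.c * Y + d.b * r) (n := 2)
        (fun x y h1 hx => tsd_sq_per (by exact_mod_cast h1) hx) (fun x y z h1 hx => ?_)
        fun u => cnt_lin_le hl k hc _).trans (Nat.mul_le_mul_right _ (tsd_eight hl hmc k))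
      push_cast at h1
      have := dvd_sub hx (h1.mul_left d.b)
      rwa [show 2 * d.c * z + d.b * x - d.b * (x - y) = 2 * d.c * z + d.b * y by ring] at this
    have h3 : (cnt (l ^ k) Q : ℝ) ≤ 16 := by exact_mod_cast h2
    have h4 := mul_le_mul_of_nonneg_left hg (show (0 : ℝ) ≤ 896 * (k + 1) by positivity)
    have h5 : (1 : ℝ) ≤ (k + 1) ^ 3 := one_le_pow₀ hk
    have h6 : ((k : ℝ) + 1) ^ 2 ≤ (k + 1) ^ 3 := pow_le_pow_right₀ hk (by norm_num)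
    nlinarith
  · obtain ⟨T, t1, t2⟩ := tsd_fam hl k (fun r => P r Y) (hP1 Y) fun r => J (d.Δ₂ r)
    obtain ⟨T', s1, s2⟩ : ∃ T' : Finset (ℕ × ℤ × ℕ), ∑ t ∈ T', tsd_pi l t / (l : ℝ) ^ t.1 ≤
        (if Q Y then 3328 else 0) ∧ (Q Y →
        ∀ i < padicValInt l d.E + 1, ∀ x, (l : ℤ) ^ (2 * i) ∣ x ^ 2 - 4 * (d.m * d.c) →
          ∃ r : ℤ, (l : ℤ) ^ (2 * i) ∣ x - r ∧ (2 * i, r, i) ∈ T') := by
      by_cases h1 : Q Y
      · obtain ⟨T', s1, s2⟩ := tsd_tail hl (fun i x => (l : ℤ) ^ (2 * i) ∣ x ^ 2 - 4 * (d.m * d.c))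
          (fun i x y h2 h3 => tsd_sq_per h2 h3) (fun i => tsd_eight hl hmc _)
          (padicValInt l d.E + 1)
        exact ⟨T', by rwa [if_pos h1], fun _ => s2⟩
      · exact ⟨∅, by rw [sum_empty, if_neg h1], fun h2 => absurd h2 h1⟩
    refine tsd_ls h hl hm Y _ _ (T ∪ T') ((tsd_union T T').trans (add_le_add t1 s1)) ?_
    rintro X ⟨hB, -, -, u, u1, u2⟩
    refine ⟨hB, ?_⟩
    obtain ⟨i1, i2, -, -⟩ := ie_spec h hl X Y
    rw [xe, if_pos ha] at i1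
    rw [Δe, if_pos ha] at i2
    push_cast at u1 u2
    by_cases hi : 2 * d.ie l X Y ≤ k
    · obtain ⟨r, r1, r2⟩ := t2 X ((hP _ _).2 ⟨u, u1, u2⟩)
      refine ⟨_, mem_union_left _ r2, Nat.le_add_left _ _, r1, (hJ (d.Δ₂ r)).2.2.1 _ hi ?_⟩
      have := dvd_sub i2 ((pow_dvd_pow _ hi).trans (hD r1))
      rwa [sub_sub_cancel] at this
    · have h1 : (l : ℤ) ^ k ∣ (l : ℤ) ^ (2 * d.ie l X Y) := pow_dvd_pow _ (by omega)
      obtain ⟨r, r1, r2⟩ := s2 ((hQ _).2 ⟨X, h1.trans i2, h1.trans i1⟩) _ (tsd_ie_lt h hl X Y) X i2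
      exact ⟨_, mem_union_right _ r2, Nat.le_add_right _ _, r1, le_rfl⟩

theorem lev_three : ∃ K : ℝ, 1 ≤ K ∧ ∀ (d : Dt) (κ : ℕ), d.Good κ → ∀ l : ℕ, l.Prime →
    ¬ (l : ℤ) ∣ d.m → (l : ℤ) ∣ d.a → ¬ (l : ℤ) ∣ d.E → ∀ (k : ℕ) (b₀ : ℤ), d.LevM K l k b₀ := by
  classical
  refine ⟨448, by norm_num, fun d κ h l hl hm ha hE k b₀ => ?_⟩
  have hp := tqd_prime hl
  have hL : (1 : ℝ) ≤ (l : ℝ) ^ k := one_le_pow₀ (by exact_mod_cast hl.one_le)
  have hL0 : (0 : ℝ) < (l : ℝ) ^ k := by linarith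
  have hk : (1 : ℝ) ≤ k + 1 := le_add_of_nonneg_left (Nat.cast_nonneg _)
  have hb : ¬ (l : ℤ) ∣ d.b := fun hb => hE
    (dvd_sub (hb.trans (dvd_pow_self _ two_ne_zero)) ((ha.mul_left 4).mul_right _))
  refine ⟨fun _ => 448 * (k + 1) / (l : ℝ) ^ k, fun Y => ⟨by positivity, ?_⟩, fun _ _ _ => rfl,
    ?_, fun Y => ?_⟩
  · refine (div_le_self (by positivity) hL).trans ?_
    nlinarith
  · rw [sum_const, card_range, nsmul_eq_mul, Nat.cast_pow, mul_div_cancel₀ _ hL0.ne']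
    have h6 : ((k : ℝ) + 1) ^ 1 ≤ (k + 1) ^ 3 := pow_le_pow_right₀ hk (by norm_num)
    linarith
  · obtain ⟨T, t1, t2⟩ := tsd_fam' hl k (fun x => (l : ℤ) ^ k ∣ 4 * d.B x Y) (fun x y h1 h2 => by
      have := dvd_sub h2 (h1.mul_right (4 * (d.a * (x + y) + d.b * Y)))
      rwa [show 4 * d.B x Y - (x - y) * (4 * (d.a * (x + y) + d.b * Y)) = 4 * d.B y Y by
        simp only [B_eq]; ring] at this) 0
    have h1 : cnt (l ^ k) (fun x => (l : ℤ) ^ k ∣ 4 * d.B x Y) ≤ 4 := by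
      refine tsd_four hl k fun x y hx hy => ?_
      by_cases hY : (l : ℤ) ∣ Y
      · refine (hp.pow_dvd_of_dvd_mul_right k (fun h2 => ?_) hx).mul_right _
        rw [B_eq, ← add_assoc] at h2
        have h3 := (dvd_add_right (dvd_add (dvd_add (ha.mul_right _)
          ((hY.mul_left _).mul_right _)) ((hY.trans (dvd_pow_self Y two_ne_zero)).mul_left _))).1 h2
        exact (hp.dvd_or_dvd h3).elim hm hE
      · have h2 := dvd_sub hx hy
        rw [show 4 * d.B x Y - 4 * d.B y Y = 4 * (x - y) * (d.a * (x + y) + d.b * Y) by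
          simp only [B_eq]; ring] at h2
        refine hp.pow_dvd_of_dvd_mul_right k (fun h3 => ?_) h2
        exact (hp.dvd_or_dvd ((dvd_add_right (ha.mul_right _)).1 h3)).elim hb hY
    refine tsd_ls h hl hm Y _ _ T (t1.trans ?_) ?_
    · have h2 : (cnt (l ^ k) (fun x => (l : ℤ) ^ k ∣ 4 * d.B x Y) : ℝ) ≤ 4 := by exact_mod_cast h1
      have h3 := tsd_pi_le (l := l) (j := 0) (Nat.zero_le k) 0
      have h4 := tsd_pi_nonneg l (k, 0, 0)
      rw [pow_zero, mul_one] at h3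
      calc _ ≤ 4 * (112 * (k + 1 : ℝ) / (l : ℝ) ^ k) := by gcongr
        _ = _ := by ring
    · rintro X ⟨hB, u1, -⟩
      push_cast at u1
      obtain ⟨r, r1, r2⟩ := t2 X u1
      refine ⟨hB, _, r2, Nat.le_add_left _ _, r1, ?_⟩
      have := tsd_ie_lt h hl X Y
      rw [padicValInt.eq_zero_of_not_dvd hE] at this
      exact Nat.le_of_lt_succ this

theorem tsd_mono {d : Dt} {K K' : ℝ} {l k : ℕ} {b₀ : ℤ} (h : d.LevM K l k b₀) (hK : K ≤ K') :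
    d.LevM K' l k b₀ := by
  obtain ⟨M, h1, h2, h3, h4⟩ := h
  exact ⟨M, fun Y => ⟨(h1 Y).1, (h1 Y).2.trans (by gcongr)⟩, h2, h3.trans (by gcongr), h4⟩

theorem lev_all : ∃ K : ℝ, 1 ≤ K ∧ ∀ (d : Dt) (κ : ℕ), d.Good κ → ∀ l : ℕ, l.Prime →
    ¬ (l : ℤ) ∣ d.m → ∀ (k : ℕ) (b₀ : ℤ), d.LevM K l k b₀ := by
  obtain ⟨K₁, a1, h1⟩ := lev_one
  obtain ⟨K₂, a2, h2⟩ := lev_two
  obtain ⟨K₃, a3, h3⟩ := lev_three
  refine ⟨K₁ + K₂ + K₃, by linarith, fun d κ h l hl hm k b₀ => ?_⟩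
  by_cases ha : (l : ℤ) ∣ d.a
  · by_cases hE : (l : ℤ) ∣ d.E
    · exact tsd_mono (h2 d κ h l hl hm ha hE k b₀) (by linarith)
    · exact tsd_mono (h3 d κ h l hl hm ha hE k b₀) (by linarith)
  · exact tsd_mono (h1 d κ h l hl hm ha k b₀) (by linarith)

end Dt

end Pool.Agent.EQ
end
end

-- part Pool.Agent.P.MP_ad7a55_nt.TShC
section

/-! An upper bound for sums of weights over an interval. -/

set_option autoImplicit false

noncomputable section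

open Finset

namespace Pool.Agent.EQ

lemma tshc_fact {T : Finset ℕ} (hT : ∀ l ∈ T, l.Prime) (k : ℕ → ℕ) :
    (∏ l ∈ T, l ^ k l) ≠ 0 ∧ (∏ l ∈ T, l ^ k l).primeFactors ⊆ T ∧
      ∀ l ∈ T, (∏ l ∈ T, l ^ k l).factorization l = k l := by
  have h0 : ∀ l ∈ T, l ^ k l ≠ 0 := fun l hl => pow_ne_zero _ (hT l hl).ne_zero
  refine ⟨prod_ne_zero_iff.2 h0, fun p hp => ?_, fun p hp => ?_⟩
  · obtain ⟨h1, h2, _⟩ := Nat.mem_primeFactors.1 hp
    obtain ⟨l, hl, h3⟩ := (Prime.dvd_finsetProd_iff h1.prime _).1 h2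
    rwa [(Nat.prime_dvd_prime_iff_eq h1 (hT l hl)).1 (h1.dvd_of_dvd_pow h3)]
  · rw [Nat.factorization_prod h0, Finsupp.finsetSum_apply, sum_eq_single p]
    · rw [(hT p hp).factorization_pow]; simp
    · intro l hl hne
      rw [(hT l hl).factorization_pow, Finsupp.single_eq_of_ne hne.symm]
    · exact fun h => absurd hp h

lemma tshc_drop {T : Finset ℕ} (hT : ∀ l ∈ T, l.Prime) (k : ℕ → ℕ) (f : ℕ → ℕ → ℝ)
    (h0 : ∀ l ∈ T, ∀ j, 0 ≤ f l j) (h1 : ∀ l ∈ T, f l 0 ≤ 1) :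
    ∏ l ∈ T, f l (k l) ≤ ∏ l ∈ (∏ l ∈ T, l ^ k l).primeFactors,
      f l ((∏ l ∈ T, l ^ k l).factorization l) := by
  obtain ⟨a1, a2, a3⟩ := tshc_fact hT k
  rw [← prod_sdiff a2, prod_congr rfl (fun l hl => by rw [a3 l (a2 hl)] :
    ∀ l ∈ (∏ l ∈ T, l ^ k l).primeFactors, f l ((∏ l ∈ T, l ^ k l).factorization l) = f l (k l))]
  refine mul_le_of_le_one_left (prod_nonneg fun l hl => h0 l (a2 hl) _)
    (prod_le_one (fun l hl => h0 l (mem_sdiff.1 hl).1 _) fun l hl => ?_)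
  obtain ⟨b1, b2⟩ := mem_sdiff.1 hl
  rw [← a3 l b1, Finsupp.notMem_support_iff.1 (by rwa [Nat.support_factorization])]
  exact h1 l b1

lemma tshc_tail {K : ℝ} (hK : 1 ≤ K) {T : Finset ℕ} (k : ℕ → ℕ) (f : ℕ → ℕ → ℝ)
    (h0 : ∀ l ∈ T, ∀ j, 0 ≤ f l j) (h1 : ∀ l ∈ T, f l 0 ≤ 1)
    (h2 : ∀ l ∈ T, ∀ j, f l j ≤ K * (j + 1)) {r n : ℕ} (hr : 2 ≤ r) (hT : ∀ l ∈ T, r ≤ l)
    (hn : ∏ l ∈ T, l ^ k l ≤ r ^ n) : ∏ l ∈ T, f l (k l) ≤ (2 * K) ^ n := by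
  have a1 : ∑ l ∈ T, k l ≤ n := by
    refine (Nat.pow_le_pow_iff_right (show 1 < r by omega)).1 (le_trans ?_ hn)
    rw [← prod_pow_eq_pow_sum]
    exact prod_le_prod' fun l hl => Nat.pow_le_pow_left (hT l hl) _
  refine le_trans ?_ (pow_le_pow_right₀ (by linarith) a1)
  rw [← prod_pow_eq_pow_sum]
  refine prod_le_prod (fun l hl => h0 l hl _) fun l hl => ?_
  rcases Nat.eq_zero_or_pos (k l) with h | h
  · rw [h, pow_zero]; exact h1 l hl
  · refine (h2 l hl _).trans ?_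
    rw [mul_pow, mul_comm]
    refine mul_le_mul ?_ (le_self_pow₀ hK h.ne') (by linarith) (by positivity)
    exact_mod_cast Nat.lt_two_pow_self

open Classical in
/-- The weights that enter the Euler products. -/
def tshcG (P : Finset ℕ) (Ω : ℕ → ℕ → ℤ → Prop) (f : ℕ → ℕ → ℝ) (l k : ℕ) : ℝ :=
  if l ∈ P ∧ 0 < k then f l k * cnt (l ^ k) (Ω l k) * Real.exp (cnt l (Ω l 1) / l) else 0

variable {K : ℝ} {P : Finset ℕ} {Ω : ℕ → ℕ → ℤ → Prop} {f : ℕ → ℕ → ℝ} {a : ℕ → ℝ}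

lemma tshc_c {l : ℕ} (h : l.Prime ∧ Lv l K (Ω l) (f l) (a l)) :
    (cnt l (Ω l 1) : ℝ) ≤ 2 ∧ (cnt l (Ω l 1) : ℝ) / l ≤ 1 := by
  have h1 : (cnt l (Ω l 1) : ℝ) ≤ 2 := by
    have := h.2.cnt_le 1 one_pos
    rw [pow_one] at this
    exact_mod_cast this
  have h2 : (2 : ℝ) ≤ l := by exact_mod_cast h.1.two_le
  exact ⟨h1, div_le_one_of_le₀ (by linarith) (by linarith)⟩

lemma tshc_G (hK : 1 ≤ K) (hP : ∀ l ∈ P, l.Prime ∧ Lv l K (Ω l) (f l) (a l)) (l k : ℕ) :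
    0 ≤ tshcG P Ω f l k ∧ tshcG P Ω f l k ≤ 6 * K * (k + 1) := by
  unfold tshcG
  split_ifs with h
  · have h1 := (hP l h.1).2
    have h2 : (cnt (l ^ k) (Ω l k) : ℝ) ≤ 2 := by exact_mod_cast h1.cnt_le k h.2
    have h3 : Real.exp (cnt l (Ω l 1) / l) ≤ 3 :=
      (Real.exp_le_exp.2 (tshc_c (hP l h.1)).2).trans (by linarith [Real.exp_one_lt_d9])
    refine ⟨mul_nonneg (mul_nonneg (h1.nonneg k) (by positivity)) (by positivity), ?_⟩
    calc _ ≤ K * (k + 1) * 2 * 3 := by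
          have := h1.nonneg k
          gcongr
          exact h1.le k
      _ = _ := by ring
  · exact ⟨le_rfl, by positivity⟩

lemma tshc_exp (hK : 1 ≤ K) (hP : ∀ l ∈ P, l.Prime ∧ Lv l K (Ω l) (f l) (a l)) {y N : ℕ}
    (hy : y ≤ N) {P' : Finset ℕ} (hP' : P' ⊆ P.filter (fun l => l ≤ N)) :
    ∑ l ∈ P', tshcG P Ω f l 1 / l - ∑ l ∈ P.filter (fun l => l ≤ y), (cnt l (Ω l 1) : ℝ) / l ≤
      ∑ l ∈ P.filter (fun l => l ≤ N), a l / l + 32 * K +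
        2 * ∑ l ∈ (Nat.primesLE N).filter (fun l => y < l), 1 / (l : ℝ) := by
  classical
  set U := P.filter (fun l => l ≤ N) with hU
  have e1 : ∑ l ∈ P', tshcG P Ω f l 1 / l = ∑ l ∈ U, if l ∈ P' then tshcG P Ω f l 1 / l else 0 := by
    rw [← sum_filter, filter_mem_eq_inter, inter_eq_right.2 hP']
  have e2 : ∑ l ∈ P.filter (fun l => l ≤ y), (cnt l (Ω l 1) : ℝ) / l
      = ∑ l ∈ U, if l ≤ y then (cnt l (Ω l 1) : ℝ) / l else 0 := by
    rw [← sum_filter, hU, filter_filter]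
    exact sum_congr (filter_congr fun l _ => ⟨fun h => ⟨h.trans hy, h⟩, fun h => h.2⟩) fun _ _ => rfl
  have e3 : ∑ l ∈ U, (if y < l then 1 / (l : ℝ) else 0)
      ≤ ∑ l ∈ (Nat.primesLE N).filter (fun l => y < l), 1 / (l : ℝ) := by
    rw [← sum_filter]
    refine sum_le_sum_of_subset_of_nonneg (filter_subset_filter _ fun l hl => ?_)
      fun _ _ _ => by positivity
    obtain ⟨h1, h2⟩ := mem_filter.1 hl
    exact Nat.mem_primesLE.2 ⟨h2, (hP l h1).1⟩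
  have e4 : ∑ l ∈ U, ((l : ℝ) ^ 2)⁻¹ ≤ 2 := by
    refine le_trans (sum_le_sum_of_subset_of_nonneg (t := Ioo 0 (N + 1)) (fun l hl => ?_)
      fun _ _ _ => by positivity) ((sum_Ioo_inv_sq_le 0 (N + 1)).trans (by norm_num))
    obtain ⟨h1, h2⟩ := mem_filter.1 hl
    exact mem_Ioo.2 ⟨(hP l h1).1.pos, by omega⟩
  have e5 : ∑ l ∈ U, ((if l ∈ P' then tshcG P Ω f l 1 / l else 0)
      - if l ≤ y then (cnt l (Ω l 1) : ℝ) / l else 0)
      ≤ ∑ l ∈ U, (a l / l + 16 * K * ((l : ℝ) ^ 2)⁻¹ + 2 * if y < l then 1 / (l : ℝ) else 0) := by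
    refine sum_le_sum fun l hl => ?_
    have h1 := hP l (mem_filter.1 hl).1
    obtain ⟨c1, c2⟩ := tshc_c h1
    have hl0 : (0 : ℝ) < l := by exact_mod_cast h1.1.pos
    set c : ℝ := (cnt l (Ω l 1) : ℝ) with hc
    have c0 : 0 ≤ c := by positivity
    have f0 := h1.2.nonneg 1
    have f1 : f l 1 ≤ K * 2 := by have := h1.2.le 1; norm_num at this; linarith
    have f2 : (f l 1 - 1) * c ≤ a l := h1.2.one
    have g1 : tshcG P Ω f l 1 ≤ f l 1 * c + 16 * K / l := by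
      unfold tshcG
      rw [if_pos ⟨(mem_filter.1 hl).1, one_pos⟩, pow_one, ← hc]
      have t0 : 0 ≤ c / l := by positivity
      have t1 : Real.exp (c / l) ≤ 1 + 2 * (c / l) := by
        have := Real.abs_exp_sub_one_le (x := c / l) (by rwa [abs_of_nonneg t0])
        rw [abs_of_nonneg t0] at this
        linarith [le_abs_self (Real.exp (c / l) - 1)]
      have t2 : f l 1 * c * (2 * (c / l)) ≤ K * 2 * 2 * (2 * (2 / l)) := by gcongr
      have t3 := mul_le_mul_of_nonneg_left t1 (mul_nonneg f0 c0)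
      have t4 : K * 2 * 2 * (2 * (2 / l)) = 16 * K / l := by ring
      linarith
    have g2 : (if l ∈ P' then tshcG P Ω f l 1 / l else 0)
        ≤ (a l + c) / l + 16 * K * ((l : ℝ) ^ 2)⁻¹ := by
      have t5 : 0 ≤ (a l + c) / l := div_nonneg (by nlinarith) hl0.le
      split_ifs
      · calc _ ≤ (a l + c + 16 * K / l) / l := by gcongr; linarith
          _ = _ := by field_simp
      · positivity
    rw [add_div] at g2
    by_cases h : l ≤ y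
    · rw [if_pos h, if_neg (not_lt.2 h)]; linarith
    · rw [if_neg h, if_pos (not_le.1 h)]
      have : c / l ≤ 2 * (1 / l) := by rw [mul_one_div]; gcongr
      linarith
  rw [sum_sub_distrib, sum_add_distrib, sum_add_distrib, ← mul_sum, ← mul_sum] at e5
  rw [e1, e2]
  nlinarith

/-- Grouping by the smooth part and sieving. -/
lemma tshc_group : ∃ C : ℝ, 0 < C ∧ ∀ (K : ℝ) (P : Finset ℕ) (Ω : ℕ → ℕ → ℤ → Prop)
    (f : ℕ → ℕ → ℝ) (a : ℕ → ℝ) (x₀ : ℤ) (N y : ℕ) (S : Finset ℤ) (lev : ℕ → ℤ → ℕ) (r : ℤ → ℕ)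
    (B : ℝ), (∀ l ∈ P, l.Prime ∧ Lv l K (Ω l) (f l) (a l)) → 1 ≤ y → 0 ≤ B →
    (∀ x ∈ S, x₀ ≤ x ∧ x < x₀ + N ∧ (∀ l ∈ P, At (Ω l) x (lev l x)) ∧ y < r x ∧
      (∏ l ∈ P.filter (fun l => l < r x), l ^ lev l x) * y ^ 37 ≤ N ∧
      ∏ l ∈ P.filter (fun l => ¬ l < r x), f l (lev l x) ≤ B) →
    ∑ x ∈ S, ∏ l ∈ P, f l (lev l x) ≤ C * B * N *
      Real.exp (-∑ l ∈ P.filter (fun l => l ≤ y), (cnt l (Ω l 1) : ℝ) / l) *
      ∑ m ∈ S.image (fun x => ∏ l ∈ P.filter (fun l => l < r x), l ^ lev l x),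
        (∏ l ∈ m.primeFactors, tshcG P Ω f l (m.factorization l)) / m := by
  classical
  obtain ⟨C, hC, hs⟩ := sieve_cls
  refine ⟨C, hC, fun K P Ω f a x₀ N y S lev r B hP hy hB hS => ?_⟩
  set m : ℤ → ℕ := fun x => ∏ l ∈ P.filter (fun l => l < r x), l ^ lev l x with hm
  have hpr : ∀ x, ∀ l ∈ P.filter (fun l => l < r x), l.Prime :=
    fun x l hl => (hP l (mem_filter.1 hl).1).1
  rw [← sum_fiberwise_of_maps_to (g := m) (fun x hx => mem_image_of_mem m hx), mul_sum]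
  refine sum_le_sum fun n hn => ?_
  obtain ⟨x₁, hx₁, rfl⟩ := mem_image.1 hn
  set n := m x₁ with hn'
  have n0 : n ≠ 0 := (tshc_fact (hpr x₁) _).1
  have nP : n.primeFactors ⊆ P := (tshc_fact (hpr x₁) _).2.1.trans (filter_subset _ _)
  have nn : ∏ l ∈ n.primeFactors, l ^ n.factorization l = n :=
    Nat.prod_factorization_pow_eq_self n0
  have npos : ∀ l ∈ n.primeFactors, 0 < n.factorization l := fun l hl =>
    Nat.pos_of_ne_zero (Finsupp.mem_support_iff.1 (by rwa [Nat.support_factorization]))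
  set F := ∏ l ∈ n.primeFactors, f l (n.factorization l) with hF
  have F0 : 0 ≤ F := prod_nonneg fun l hl => (hP l (nP hl)).2.nonneg _
  have a1 : ∑ x ∈ S.filter (fun x => m x = n), ∏ l ∈ P, f l (lev l x)
      ≤ (S.filter (fun x => m x = n)).card * (F * B) := by
    rw [← nsmul_eq_mul]
    refine sum_le_card_nsmul _ _ _ fun x hx => ?_
    obtain ⟨h1, h2⟩ := mem_filter.1 hx
    rw [← prod_filter_mul_prod_filter_not P (fun l => l < r x)]
    refine mul_le_mul ?_ (hS x h1).2.2.2.2.2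
      (prod_nonneg fun l hl => (hP l (mem_filter.1 hl).1).2.nonneg _) F0
    rw [hF, ← h2]
    exact tshc_drop (hpr x) _ f (fun l hl => (hP l (mem_filter.1 hl).1).2.nonneg)
      (fun l hl => (hP l (mem_filter.1 hl).1).2.zero)
  have a2 := hs P n.primeFactors Ω n.factorization y N x₀ (S.filter (fun x => m x = n))
    (fun l hl => (hP l hl).1) nP (fun l hl => (hP l hl).2.per)
    (fun l hl => by have := (hP l hl).2.cnt_le 1 one_pos; rwa [pow_one] at this) hy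
    (by rw [nn]; exact (hS x₁ hx₁).2.2.2.2.1) (fun x hx => by
      obtain ⟨h1, h2⟩ := mem_filter.1 hx
      obtain ⟨b1, b2, b3, b4, -⟩ := hS x h1
      obtain ⟨-, c2, c3⟩ := tshc_fact (hpr x) (fun l => lev l x)
      change (m x).primeFactors ⊆ _ at c2
      change ∀ l ∈ _, (m x).factorization l = _ at c3
      rw [h2] at c2 c3
      refine ⟨b1, b2, fun l hl => ?_, fun l hl hl' hly => (b3 l hl).1 ?_⟩
      · have := npos l hl
        rw [c3 l (c2 hl)] at this ⊢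
        exact (b3 l (nP hl)).2 this
      · rw [← c3 l (mem_filter.2 ⟨hl, by omega⟩)]
        exact Finsupp.notMem_support_iff.1 (by rwa [Nat.support_factorization]))
  have a3 : Real.exp (-∑ l ∈ (P \ n.primeFactors).filter (fun l => l ≤ y), (cnt l (Ω l 1) : ℝ) / l)
      ≤ Real.exp (-∑ l ∈ P.filter (fun l => l ≤ y), (cnt l (Ω l 1) : ℝ) / l) *
        ∏ l ∈ n.primeFactors, Real.exp (cnt l (Ω l 1) / l) := by
    rw [← Real.exp_sum, ← Real.exp_add, Real.exp_le_exp]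
    have : ∑ l ∈ P.filter (fun l => l ≤ y), (cnt l (Ω l 1) : ℝ) / l
        ≤ ∑ l ∈ (P \ n.primeFactors).filter (fun l => l ≤ y) ∪ n.primeFactors,
          (cnt l (Ω l 1) : ℝ) / l := by
      refine sum_le_sum_of_subset_of_nonneg (fun l hl => ?_) fun _ _ _ => by positivity
      by_cases h : l ∈ n.primeFactors
      · exact mem_union_right _ h
      · exact mem_union_left _ (mem_filter.2 ⟨mem_sdiff.2 ⟨(mem_filter.1 hl).1, h⟩,
          (mem_filter.1 hl).2⟩)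
    rw [sum_union (disjoint_left.2 fun l hl => (mem_sdiff.1 (mem_filter.1 hl).1).2)] at this
    linarith
  have a4 : (∏ l ∈ n.primeFactors, tshcG P Ω f l (n.factorization l)) / n = F *
      (∏ l ∈ n.primeFactors, (cnt (l ^ n.factorization l) (Ω l (n.factorization l)) : ℝ)
        / (l : ℝ) ^ n.factorization l) * ∏ l ∈ n.primeFactors, Real.exp (cnt l (Ω l 1) / l) := by
    have : (n : ℝ) = ∏ l ∈ n.primeFactors, (l : ℝ) ^ n.factorization l := by exact_mod_cast nn.symm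
    rw [hF, ← prod_mul_distrib, ← prod_mul_distrib]
    conv_lhs => rw [this]
    rw [← prod_div_distrib]
    refine prod_congr rfl fun l hl => ?_
    unfold tshcG
    rw [if_pos ⟨nP hl, npos l hl⟩]; ring
  have a5 : 0 ≤ ∏ l ∈ n.primeFactors, (cnt (l ^ n.factorization l) (Ω l (n.factorization l)) : ℝ)
      / (l : ℝ) ^ n.factorization l := prod_nonneg fun _ _ => by positivity
  rw [a4]
  refine a1.trans ((mul_le_mul_of_nonneg_right (a2.trans (mul_le_mul_of_nonneg_left a3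
    (by positivity))) (mul_nonneg F0 hB)).trans (le_of_eq ?_))
  ring

lemma tshc_low : ∃ C : ℝ, 0 < C ∧ ∀ N : ℕ, 1 ≤ N → (N : ℝ) ^ (31 / 32 : ℝ) ≤
    C * N * Real.exp (-(2 * ∑ l ∈ Nat.primesLE N, 1 / (l : ℝ))) := by
  obtain ⟨C, hC, h⟩ := exp_primes_le 2
  refine ⟨C * 64 ^ 2 + 1, by positivity, fun N hN => ?_⟩
  rcases hN.eq_or_lt with rfl | hN2
  · have : Nat.primesLE 1 = ∅ := by decide
    simp [this]; positivity
  have h1 := h N hN2
  have hN0 : (0 : ℝ) < N := by positivity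
  have h2 : Real.log N ≤ (N : ℝ) ^ (1 / 64 : ℝ) / (1 / 64) := Real.log_le_rpow_div hN0.le (by norm_num)
  have h3 : Real.log N ^ 2 ≤ 64 ^ 2 * (N : ℝ) ^ (1 / 32 : ℝ) := by
    calc _ ≤ ((N : ℝ) ^ (1 / 64 : ℝ) / (1 / 64)) ^ 2 :=
          pow_le_pow_left₀ (Real.log_natCast_nonneg N) h2 2
      _ = 64 ^ 2 * ((N : ℝ) ^ (1 / 64 : ℝ) * (N : ℝ) ^ (1 / 64 : ℝ)) := by ring
      _ = _ := by rw [← Real.rpow_add hN0]; norm_num
  have h4 : (N : ℝ) ^ (31 / 32 : ℝ) * (N : ℝ) ^ (1 / 32 : ℝ) = N := by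
    rw [← Real.rpow_add hN0]; norm_num
  rw [Real.exp_neg, ← div_eq_mul_inv, le_div_iff₀ (Real.exp_pos _)]
  push_cast at h1
  calc _ ≤ (N : ℝ) ^ (31 / 32 : ℝ) * (C * (64 ^ 2 * (N : ℝ) ^ (1 / 32 : ℝ))) := by
        gcongr
        exact h1.trans (mul_le_mul_of_nonneg_left h3 hC.le)
    _ = C * 64 ^ 2 * N := by linear_combination C * 64 ^ 2 * h4
    _ ≤ _ := by nlinarith

/-- Sets of few points contribute little. -/
lemma tshc_crude (hK : 1 ≤ K) (A : ℕ) : ∃ C : ℝ, 0 < C ∧ ∀ (P : Finset ℕ) (Ω : ℕ → ℕ → ℤ → Prop)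
    (f : ℕ → ℕ → ℝ) (a : ℕ → ℝ) (N : ℕ) (S : Finset ℤ) (lev : ℕ → ℤ → ℕ) (D : ℝ), 1 ≤ N →
    (∀ l ∈ P, l.Prime ∧ Lv l K (Ω l) (f l) (a l)) → (∀ x ∈ S, ∏ l ∈ P, l ^ lev l x ≤ N ^ A) →
    (S.card : ℝ) ≤ D * (N : ℝ) ^ (15 / 16 : ℝ) → ∑ x ∈ S, ∏ l ∈ P, f l (lev l x) ≤
      C * D * (N * Real.exp (∑ l ∈ P.filter (fun l => l ≤ N), a l / l)) := by
  obtain ⟨C₁, hC₁, h₁⟩ := omega_bound K (ε := 1 / (32 * (A + 1))) (by positivity)
  obtain ⟨C₂, hC₂, h₂⟩ := tshc_low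
  refine ⟨C₁ * C₂, by positivity, fun P Ω f a N S lev D hN hP hS hD => ?_⟩
  have hN1 : (1 : ℝ) ≤ N := by exact_mod_cast hN
  have hN0 : (0 : ℝ) < N := by linarith
  have hD0 : 0 ≤ D := by
    by_contra h
    have := mul_neg_of_neg_of_pos (not_le.1 h) (Real.rpow_pos_of_pos hN0 (15 / 16 : ℝ))
    linarith [Nat.cast_nonneg (α := ℝ) S.card]
  have a1 : ∑ x ∈ S, ∏ l ∈ P, f l (lev l x) ≤ S.card * (C₁ * (N : ℝ) ^ (1 / 32 : ℝ)) := by
    rw [← nsmul_eq_mul]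
    refine sum_le_card_nsmul _ _ _ fun x hx => ?_
    obtain ⟨b1, b2, -⟩ := tshc_fact (fun l hl => (hP l hl).1) (fun l => lev l x)
    refine (tshc_drop (fun l hl => (hP l hl).1) _ f (fun l hl => (hP l hl).2.nonneg)
      (fun l hl => (hP l hl).2.zero)).trans (le_trans ?_ ((h₁ _ b1).trans ?_))
    · refine prod_le_prod (fun l hl => (hP l (b2 hl)).2.nonneg _) fun l hl =>
        ((hP l (b2 hl)).2.le _).trans (mul_le_mul_of_nonneg_left ?_ (by linarith))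
      exact le_self_pow₀ (le_add_of_nonneg_left (Nat.cast_nonneg _)) (by norm_num)
    · refine mul_le_mul_of_nonneg_left ?_ hC₁.le
      calc _ ≤ ((N : ℝ) ^ A) ^ (1 / (32 * ((A : ℝ) + 1))) :=
            Real.rpow_le_rpow (Nat.cast_nonneg _) (by exact_mod_cast hS x hx) (by positivity)
        _ ≤ _ := by
            rw [← Real.rpow_natCast, ← Real.rpow_mul hN0.le]
            refine Real.rpow_le_rpow_of_exponent_le hN1 ?_
            rw [mul_one_div, div_le_div_iff₀ (by positivity) (by norm_num)]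
            linarith
  have a2 : Real.exp (-(2 * ∑ l ∈ Nat.primesLE N, 1 / (l : ℝ)))
      ≤ Real.exp (∑ l ∈ P.filter (fun l => l ≤ N), a l / l) := by
    rw [Real.exp_le_exp, neg_le, ← sum_neg_distrib, mul_sum]
    refine le_trans (sum_le_sum fun l hl => ?_) (sum_le_sum_of_subset_of_nonneg
      (fun l hl => Nat.mem_primesLE.2 ⟨(mem_filter.1 hl).2, (hP l (mem_filter.1 hl).1).1⟩)
      fun _ _ _ => by positivity)
    rw [← neg_div, mul_one_div]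
    have := (hP l (mem_filter.1 hl).1).2.neg_two_le
    gcongr
    linarith
  have a3 : (N : ℝ) ^ (15 / 16 : ℝ) * (N : ℝ) ^ (1 / 32 : ℝ) = (N : ℝ) ^ (31 / 32 : ℝ) := by
    rw [← Real.rpow_add hN0]; norm_num
  calc _ ≤ D * (N : ℝ) ^ (15 / 16 : ℝ) * (C₁ * (N : ℝ) ^ (1 / 32 : ℝ)) :=
        a1.trans (mul_le_mul_of_nonneg_right hD (by positivity))
    _ = C₁ * D * (N : ℝ) ^ (31 / 32 : ℝ) := by rw [← a3]; ring
    _ ≤ C₁ * D * (C₂ * N * Real.exp (∑ l ∈ P.filter (fun l => l ≤ N), a l / l)) := by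
        gcongr
        exact (h₂ N hN).trans (mul_le_mul_of_nonneg_left a2 (by positivity))
    _ = _ := by ring

/-- The splitting point. -/
lemma tshc_split (P : Finset ℕ) (hP : ∀ l ∈ P, l.Prime) (k : ℕ → ℕ) {N : ℕ} (hN : 1 ≤ N) :
    ∃ r : ℕ, 2 ≤ r ∧ (∏ l ∈ P.filter (fun l => l < r), l ^ k l) ^ 2 ≤ N ∧ (r ≤ N → r ∈ P ∧
      N < (∏ l ∈ P.filter (fun l => l < r), l ^ k l) ^ 2 * (r ^ k r) ^ 2) := by
  classical
  have h : ∃ n, N < (∏ l ∈ P.filter (fun l => l < n + 1), l ^ k l) ^ 2 ∨ N < n :=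
    ⟨N + 1, Or.inr (by omega)⟩
  have e : ∀ n ≤ 2, P.filter (fun l => l < n) = ∅ := fun n hn =>
    filter_eq_empty_iff.2 fun l hl => by have := (hP l hl).two_le; omega
  obtain ⟨r, h1, hmin⟩ : ∃ r, (N < (∏ l ∈ P.filter (fun l => l < r + 1), l ^ k l) ^ 2 ∨ N < r) ∧
      ∀ n < r, ¬ (N < (∏ l ∈ P.filter (fun l => l < n + 1), l ^ k l) ^ 2 ∨ N < n) :=
    ⟨Nat.find h, Nat.find_spec h, fun n hn => Nat.find_min h hn⟩
  have h2 : 2 ≤ r := by
    by_contra h3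
    rw [e _ (by omega)] at h1
    simp at h1; omega
  have h3 := hmin (r - 1) (by omega)
  rw [not_or, show r - 1 + 1 = r by omega] at h3
  refine ⟨r, h2, not_lt.1 h3.1, fun hr => ?_⟩
  have h4 := h1.resolve_right (not_lt.2 hr)
  by_cases h5 : r ∈ P
  · refine ⟨h5, ?_⟩
    have : P.filter (fun l => l < r + 1) = insert r (P.filter (fun l => l < r)) := by
      ext l
      simp only [mem_filter, mem_insert]
      constructor
      · rintro ⟨a, b⟩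
        rcases (Nat.lt_succ_iff.1 b).eq_or_lt with c | c
        exacts [Or.inl c, Or.inr ⟨a, c⟩]
      · rintro (rfl | ⟨a, b⟩)
        exacts [⟨h5, by omega⟩, ⟨a, by omega⟩]
    rwa [this, prod_insert (by simp), mul_pow, mul_comm] at h4
  · rw [filter_congr (q := fun l => l < r) (fun l hl => by
      have : l ≠ r := fun c => h5 (c ▸ hl)
      omega)] at h4
    exact absurd h4 h3.1

lemma tshc_root {N n : ℕ} (hn : n ≠ 0) (h : 2 ^ n ≤ N) :
    ∃ y : ℕ, 2 ≤ y ∧ y ^ n ≤ N ∧ N ≤ y ^ (2 * n) ∧ ∀ r, N < r ^ n → y < r := by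
  have h1 := Nat.pow_nthRoot_le (n := n) (a := N) (Or.inl hn)
  have h2 := Nat.lt_pow_nthRoot_add_one hn N
  have h3 : 2 ≤ Nat.nthRoot n N := (Nat.le_nthRoot_iff hn).2 h
  refine ⟨_, h3, h1, h2.le.trans ?_, fun r hr => lt_of_pow_lt_pow_left₀ n (Nat.zero_le _)
    (h1.trans_lt hr)⟩
  rw [pow_mul]
  exact Nat.pow_le_pow_left (by nlinarith) _

theorem shiu (K : ℝ) (A : ℕ) : ∃ C : ℝ, 0 < C ∧ ∀ (P : Finset ℕ) (Ω : ℕ → ℕ → ℤ → Prop)
    (f : ℕ → ℕ → ℝ) (a : ℕ → ℝ) (x₀ : ℤ) (N : ℕ) (S : Finset ℤ) (lev : ℕ → ℤ → ℕ),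
    (∀ l ∈ P, l.Prime ∧ Lv l K (Ω l) (f l) (a l)) →
    (∀ x ∈ S, x₀ ≤ x ∧ x < x₀ + N ∧ (∀ l ∈ P, At (Ω l) x (lev l x)) ∧
      ∏ l ∈ P, l ^ lev l x ≤ N ^ A) →
    ∑ x ∈ S, ∏ l ∈ P, f l (lev l x) ≤
      C * N * Real.exp (∑ l ∈ P.filter (fun l => l ≤ N), a l / l) := by
  classical
  wlog hK : 1 ≤ K generalizing K
  · obtain ⟨C, hC, h⟩ := this 1 le_rfl
    exact ⟨C, hC, fun P Ω f a x₀ N S lev hP => h P Ω f a x₀ N S lev
      fun l hl => ⟨(hP l hl).1, (hP l hl).2.mono (not_le.1 hK).le le_rfl⟩⟩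
  obtain ⟨Cg, hCg, hg⟩ := tshc_group
  obtain ⟨Cc, hCc, hc⟩ := tshc_crude hK A
  obtain ⟨C1, hC1, h1⟩ := crude_one A
  obtain ⟨Cs, hCs, hs⟩ := rankin_sum (6 * K)
  have hq : (0 : ℝ) < (2 * K) ^ A * 8 := by positivity
  obtain ⟨Ct, y₀, hCt, hy₀, ht⟩ := rankin_tail (6 * K) (4 * Real.log ((2 * K) ^ A * 8))
  obtain ⟨C2, hC2, h2⟩ := crude_two (y₀ + 4)
  obtain ⟨Cr, hr⟩ := range_pow 148
  refine ⟨Cc * (2 ^ 74 + C1 + C2) + Cg * (2 * K) ^ (74 * A) * (Cs * Real.exp (32 * K + 2 * Cr))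
    + Cg * Ct * (2 * K) ^ A * Real.exp (32 * K + 18) * 8, by positivity,
    fun P Ω f a x₀ N S lev hP hS => ?_⟩
  set E := Real.exp (∑ l ∈ P.filter (fun l => l ≤ N), a l / l) with hE
  have hE0 : 0 < E := Real.exp_pos _
  have hPp : ∀ l ∈ P, l.Prime := fun l hl => (hP l hl).1
  rcases Nat.eq_zero_or_pos N with rfl | hN
  · have : S = ∅ := eq_empty_of_forall_notMem fun x hx => by
      have := hS x hx; omega
    simp [this]
  have hN1 : (1 : ℝ) ≤ N := by exact_mod_cast hN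
  have hNE : 0 < N * E := by positivity
  rcases lt_or_ge N (2 ^ 74) with hsm | hbig
  · have k1 : (S.card : ℝ) ≤ 2 ^ 74 * (N : ℝ) ^ (15 / 16 : ℝ) := by
      have k2 : S.card ≤ N := by
        simpa using card_le_card (s := S) (t := Ico x₀ (x₀ + N))
          fun x hx => mem_Ico.2 ⟨(hS x hx).1, (hS x hx).2.1⟩
      have k3 : (S.card : ℝ) ≤ 2 ^ 74 := by exact_mod_cast k2.trans hsm.le
      exact k3.trans (le_mul_of_one_le_right (by positivity) (Real.one_le_rpow hN1 (by norm_num)))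
    refine (hc P Ω f a N S lev _ hN hP (fun x hx => (hS x hx).2.2.2) k1).trans ?_
    rw [mul_assoc _ (N : ℝ)]
    refine mul_le_mul_of_nonneg_right ?_ hNE.le
    have : 0 ≤ Cc * (C1 + C2) + Cg * (2 * K) ^ (74 * A) * (Cs * Real.exp (32 * K + 2 * Cr))
      + Cg * Ct * (2 * K) ^ A * Real.exp (32 * K + 18) * 8 := by positivity
    linarith
  choose r r2 ra rb using fun x : ℤ => tshc_split P hPp (fun l => lev l x) hN
  set m : ℤ → ℕ := fun x => ∏ l ∈ P.filter (fun l => l < r x), l ^ lev l x with hm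
  have hpr : ∀ x, ∀ l ∈ P.filter (fun l => l < r x), l.Prime :=
    fun x l hl => hPp l (mem_filter.1 hl).1
  have hm0 : ∀ x, m x ≠ 0 := fun x => (tshc_fact (hpr x) _).1
  have hmP : ∀ x, (m x).primeFactors ⊆ P.filter (fun l => l < r x) :=
    fun x => (tshc_fact (hpr x) _).2.1
  have hmN : ∀ x, (m x).primeFactors ⊆ P.filter (fun l => l ≤ N) := fun x l hl =>
    mem_filter.2 ⟨(mem_filter.1 (hmP x hl)).1, (Nat.le_of_mem_primeFactors hl).trans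
      ((Nat.le_self_pow two_ne_zero _).trans (ra x))⟩
  have htail : ∀ x ∈ S, ∀ n, N < r x ^ n →
      ∏ l ∈ P.filter (fun l => ¬ l < r x), f l (lev l x) ≤ (2 * K) ^ (n * A) := fun x hx n hn =>
    tshc_tail hK _ f (fun l hl => (hP l (mem_filter.1 hl).1).2.nonneg)
      (fun l hl => (hP l (mem_filter.1 hl).1).2.zero) (fun l hl => (hP l (mem_filter.1 hl).1).2.le)
      (r2 x) (fun l hl => not_lt.1 (mem_filter.1 hl).2)
      ((prod_le_prod_of_subset_of_one_le' (filter_subset _ _) fun l hl _ =>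
        Nat.one_le_pow _ _ (hPp l hl).pos).trans ((hS x hx).2.2.2.trans
          (by rw [pow_mul]; exact Nat.pow_le_pow_left hn.le _)))
  have hmy : ∀ x y, y ^ 74 ≤ N → m x * y ^ 37 ≤ N := fun x y hy => by
    refine (Nat.pow_le_pow_iff_left two_ne_zero).1 ?_
    rw [mul_pow, ← pow_mul, sq N]
    exact Nat.mul_le_mul (ra x) hy
  have hper := fun l hl => (hP l hl).2.per
  have hcnt := fun l hl => (hP l hl).2.cnt_le
  have hle : ∀ x, r x ^ 74 ≤ N → r x ≤ N := fun x h => (Nat.le_self_pow (by norm_num) _).trans h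
  -- large splitting point
  have c1 : ∑ x ∈ S.filter (fun x => N < r x ^ 74), ∏ l ∈ P, f l (lev l x)
      ≤ Cg * (2 * K) ^ (74 * A) * (Cs * Real.exp (32 * K + 2 * Cr)) * (N * E) := by
    obtain ⟨y, y2, y3, y4, y5⟩ := tshc_root (n := 74) (by norm_num) hbig
    refine (hg K P Ω f a x₀ N y _ lev r ((2 * K) ^ (74 * A)) hP (by omega) (by positivity)
      fun x hx => ?_).trans ?_
    · obtain ⟨b1, b2⟩ := mem_filter.1 hx
      exact ⟨(hS x b1).1, (hS x b1).2.1, (hS x b1).2.2.1, y5 _ b2, hmy x y y3, htail x b1 74 b2⟩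
    refine (mul_le_mul_of_nonneg_left (hs (P.filter (fun l => l ≤ N)) _ _
      (fun l hl => hPp l (mem_filter.1 hl).1) (tshc_G hK hP) fun n hn => ?_)
      (by positivity)).trans ?_
    · obtain ⟨x, -, rfl⟩ := mem_image.1 hn
      exact ⟨hm0 x, hmN x⟩
    have k1 := tshc_exp hK hP ((Nat.le_self_pow (by norm_num) _).trans y3) Subset.rfl
    have k2 := hr y N y4
    have k3 : Real.exp (-∑ l ∈ P.filter (fun l => l ≤ y), (cnt l (Ω l 1) : ℝ) / l) *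
        Real.exp (∑ l ∈ P.filter (fun l => l ≤ N), tshcG P Ω f l 1 / l)
        ≤ Real.exp (32 * K + 2 * Cr) * E := by
      rw [hE, ← Real.exp_add, ← Real.exp_add, Real.exp_le_exp]; linarith
    refine le_of_eq_of_le ?_ ((mul_le_mul_of_nonneg_left k3
      (show 0 ≤ Cg * (2 * K) ^ (74 * A) * Cs * N by positivity)).trans (le_of_eq ?_)) <;> ring
  -- a large prime power
  have c2 : ∑ x ∈ (S.filter (fun x => ¬ N < r x ^ 74)).filter (fun x => m x ^ 4 ≤ N),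
      ∏ l ∈ P, f l (lev l x) ≤ Cc * C1 * (N * E) := by
    refine hc P Ω f a N _ lev _ hN hP (fun x hx => (hS x (mem_filter.1 (mem_filter.1 hx).1).1).2.2.2)
      (h1 P Ω N x₀ _ hPp hper hcnt fun x hx => ?_)
    obtain ⟨b0, b3⟩ := mem_filter.1 hx
    obtain ⟨b1, b2⟩ := mem_filter.1 b0
    rw [not_lt] at b2
    obtain ⟨b4, b5⟩ := rb x (hle x b2)
    have b6 : N < (r x ^ lev (r x) x) ^ 4 := by
      have k1 : N * N < (m x ^ 2 * (r x ^ lev (r x) x) ^ 2) * (m x ^ 2 * (r x ^ lev (r x) x) ^ 2) :=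
        Nat.mul_lt_mul'' b5 b5
      have k2 : (m x ^ 2 * (r x ^ lev (r x) x) ^ 2) * (m x ^ 2 * (r x ^ lev (r x) x) ^ 2)
          = m x ^ 4 * (r x ^ lev (r x) x) ^ 4 := by ring
      exact Nat.lt_of_mul_lt_mul_left (a := N)
        (k1.trans_le (k2.le.trans (Nat.mul_le_mul_right _ b3)))
    refine ⟨(hS x b1).1, (hS x b1).2.1, r x, b4, lev (r x) x,
      (Nat.pow_le_pow_right (by have := r2 x; omega) (by norm_num)).trans b2, b6.le,
      (single_le_prod' (f := fun l => l ^ lev l x) (fun l hl => Nat.one_le_pow _ _ (hPp l hl).pos)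
        b4).trans (hS x b1).2.2.2, ((hS x b1).2.2.1 _ b4).2 (Nat.pos_of_ne_zero fun h => ?_)⟩
    rw [h] at b6
    simp at b6; omega
  set S' := (S.filter (fun x => ¬ N < r x ^ 74)).filter (fun x => ¬ m x ^ 4 ≤ N) with hS'
  have hS'' : ∀ x ∈ S', x ∈ S ∧ r x ^ 74 ≤ N ∧ N < m x ^ 4 := fun x hx =>
    ⟨(mem_filter.1 (mem_filter.1 hx).1).1, not_lt.1 (mem_filter.1 (mem_filter.1 hx).1).2,
      not_le.1 (mem_filter.1 hx).2⟩
  -- very smooth part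
  have c3 : ∑ x ∈ S'.filter (fun x => r x ≤ y₀ + 4), ∏ l ∈ P, f l (lev l x)
      ≤ Cc * C2 * (N * E) := by
    refine hc P Ω f a N _ lev _ hN hP (fun x hx => (hS x (hS'' x (mem_filter.1 hx).1).1).2.2.2)
      (h2 P Ω N x₀ _ hPp hper hcnt fun x hx => ?_)
    obtain ⟨b0, b4⟩ := mem_filter.1 hx
    obtain ⟨b1, b2, b3⟩ := hS'' x b0
    refine ⟨(hS x b1).1, (hS x b1).2.1, m x, hm0 x, b3.le, ra x, fun l hl => ?_⟩
    obtain ⟨k1, k2⟩ := mem_filter.1 (hmP x hl)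
    have k3 : (m x).factorization l = lev l x := (tshc_fact (hpr x) _).2.2 l (hmP x hl)
    have k4 : 0 < (m x).factorization l :=
      Nat.pos_of_ne_zero (Finsupp.mem_support_iff.1 (by rwa [Nat.support_factorization]))
    rw [k3] at k4 ⊢
    exact ⟨k1, by omega, ((hS x b1).2.2.1 l k1).2 k4⟩
  -- smooth part of intermediate smoothness
  have c4 : ∀ j : ℕ, ∑ x ∈ (S'.filter (fun x => ¬ r x ≤ y₀ + 4)).filter
      (fun x => Nat.log (r x) N = j), ∏ l ∈ P, f l (lev l x)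
      ≤ Cg * Ct * (2 * K) ^ A * Real.exp (32 * K + 18) * 4 * (N * E) * (1 / 2) ^ j := by
    intro j
    set T := (S'.filter (fun x => ¬ r x ≤ y₀ + 4)).filter (fun x => Nat.log (r x) N = j) with hT
    rcases T.eq_empty_or_nonempty with h | ⟨x₁, hx₁⟩
    · rw [h, sum_empty]; positivity
    have hT' : ∀ x ∈ T, x ∈ S ∧ N < m x ^ 4 ∧ y₀ + 4 < r x ∧ 74 ≤ j ∧ r x ^ j ≤ N ∧
        N < r x ^ (j + 1) := fun x hx => by
      obtain ⟨b0, b5⟩ := mem_filter.1 hx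
      obtain ⟨b0, b4⟩ := mem_filter.1 b0
      obtain ⟨b1, b2, b3⟩ := hS'' x b0
      subst b5
      exact ⟨b1, b3, not_le.1 b4, Nat.le_log_of_pow_le (r2 x) b2, Nat.pow_log_le_self _ hN.ne',
        Nat.lt_pow_succ_log_self (r2 x) _⟩
    obtain ⟨-, -, d1, d2, d3, -⟩ := hT' x₁ hx₁
    have j0 : j ≠ 0 := by omega
    have j1 : (0 : ℝ) < j := by positivity
    obtain ⟨y, y2, y3, y4, y5⟩ := tshc_root (N := N) (n := j + 1) (by omega) (by
      calc 2 ^ (j + 1) ≤ 2 ^ (2 * j) := Nat.pow_le_pow_right (by norm_num) (by omega)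
        _ = 4 ^ j := by rw [pow_mul]; norm_num
        _ ≤ r x₁ ^ j := Nat.pow_le_pow_left (by omega) _
        _ ≤ N := d3)
    have hroot : ∀ (u n : ℕ), n ≠ 0 → u ^ n ≤ N → (u : ℝ) ≤ (N : ℝ) ^ ((n : ℝ)⁻¹) := fun u n hn h => by
      rw [Real.le_rpow_inv_iff_of_pos (by positivity) (by positivity) (by positivity),
        Real.rpow_natCast]
      exact_mod_cast h
    have yN : y ≤ N := (Nat.le_self_pow (by omega) _).trans y3
    refine (hg K P Ω f a x₀ N y T lev r ((2 * K) ^ ((j + 1) * A)) hP (by omega) (by positivity)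
      fun x hx => ?_).trans ?_
    · obtain ⟨b1, -, -, -, -, b2⟩ := hT' x hx
      exact ⟨(hS x b1).1, (hS x b1).2.1, (hS x b1).2.2.1, y5 _ b2,
        hmy x y ((Nat.pow_le_pow_right (by omega) (by omega)).trans y3), htail x b1 _ b2⟩
    refine (mul_le_mul_of_nonneg_left (ht ((P.filter (fun l => l ≤ N)).filter
      (fun l : ℕ => (l : ℝ) ≤ (N : ℝ) ^ ((j : ℝ)⁻¹))) _ _ ((N : ℝ) ^ ((j : ℝ)⁻¹))
      ((N : ℝ) ^ ((4 : ℝ)⁻¹)) (hroot y₀ j j0 ((Nat.pow_le_pow_left (by omega) _).trans d3))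
      (Real.one_le_rpow hN1 (by norm_num))
      (fun l hl => ⟨hPp l (mem_filter.1 (mem_filter.1 hl).1).1, (mem_filter.1 hl).2⟩)
      (tshc_G hK hP) fun n hn => ?_) (by positivity)).trans ?_
    · obtain ⟨x, hx, rfl⟩ := mem_image.1 hn
      obtain ⟨-, b1, -, -, b2, -⟩ := hT' x hx
      refine ⟨hm0 x, fun l hl => mem_filter.2 ⟨hmN x hl, hroot l j j0
        ((Nat.pow_le_pow_left (mem_filter.1 (hmP x hl)).2.le _).trans b2)⟩, ?_⟩
      rw [Real.rpow_inv_le_iff_of_pos (by positivity) (by positivity) (by norm_num),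
        show (4 : ℝ) = (4 : ℕ) by norm_num, Real.rpow_natCast]
      exact_mod_cast b1.le
    have k1 := tshc_exp hK hP yN (filter_subset (fun l : ℕ => (l : ℝ) ≤ (N : ℝ) ^ ((j : ℝ)⁻¹)) _)
    have k2 := range_le y2 yN
    have ly : 0 < Real.log y := Real.log_pos (by exact_mod_cast y2)
    have lN : 0 < Real.log N := Real.log_pos (by exact_mod_cast (by omega : 1 < N))
    have k4 : Real.log (Real.log N / Real.log y) ≤ Real.log (2 * (j + 1)) := by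
      refine Real.log_le_log (by positivity) ?_
      rw [div_le_iff₀ ly]
      calc Real.log N ≤ Real.log ((y : ℝ) ^ (2 * (j + 1))) :=
            Real.log_le_log (by positivity) (by exact_mod_cast y4)
        _ = _ := by rw [Real.log_pow]; push_cast; ring
    have k3 : Real.exp (-∑ l ∈ P.filter (fun l => l ≤ y), (cnt l (Ω l 1) : ℝ) / l) *
        Real.exp (∑ l ∈ (P.filter (fun l => l ≤ N)).filter
          (fun l : ℕ => (l : ℝ) ≤ (N : ℝ) ^ ((j : ℝ)⁻¹)), tshcG P Ω f l 1 / l)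
        ≤ Real.exp (32 * K + 18) * E * (2 * (j + 1)) ^ 2 := by
      rw [← Real.exp_log (show (0 : ℝ) < 2 * (j + 1) by positivity), ← Real.exp_nat_mul, hE,
        ← Real.exp_add, ← Real.exp_add, ← Real.exp_add, Real.exp_le_exp]
      push_cast
      linarith
    have k5 : Real.exp (-(4 * Real.log ((2 * K) ^ A * 8) * Real.log ((N : ℝ) ^ ((4 : ℝ)⁻¹))
        / Real.log ((N : ℝ) ^ ((j : ℝ)⁻¹)))) = (((2 * K) ^ A * 8) ^ j)⁻¹ := by
      rw [Real.log_rpow (by positivity), Real.log_rpow (by positivity), Real.exp_neg]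
      congr 1
      rw [← Real.exp_log (pow_pos hq j), Real.log_pow]
      congr 1
      field_simp
    have k6 : ((j : ℝ) + 1) ^ 2 ≤ 4 ^ j := by
      have : (j : ℝ) + 1 ≤ 2 ^ j := by exact_mod_cast Nat.lt_two_pow_self
      calc _ ≤ ((2 : ℝ) ^ j) ^ 2 := by gcongr
        _ = _ := by rw [← pow_mul, mul_comm, pow_mul]; norm_num
    have k7 : (2 * K) ^ ((j + 1) * A) * (((2 * K) ^ A * 8) ^ j)⁻¹ * 4 ^ j
        = (2 * K) ^ A * (1 / 2) ^ j := by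
      have : (8 : ℝ) ^ j = 4 ^ j * 2 ^ j := by rw [← mul_pow]; norm_num
      rw [mul_pow _ 8, this, add_mul, one_mul, pow_add, mul_comm j A, pow_mul, one_div, inv_pow]
      field_simp
    rw [k5]
    calc _ = Cg * Ct * N * ((2 * K) ^ ((j + 1) * A) * (((2 * K) ^ A * 8) ^ j)⁻¹) *
          (Real.exp (-∑ l ∈ P.filter (fun l => l ≤ y), (cnt l (Ω l 1) : ℝ) / l) *
            Real.exp (∑ l ∈ (P.filter (fun l => l ≤ N)).filter
              (fun l : ℕ => (l : ℝ) ≤ (N : ℝ) ^ ((j : ℝ)⁻¹)), tshcG P Ω f l 1 / l)) := by ring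
      _ ≤ Cg * Ct * N * ((2 * K) ^ ((j + 1) * A) * (((2 * K) ^ A * 8) ^ j)⁻¹) *
          (Real.exp (32 * K + 18) * E * (4 * 4 ^ j)) := by
          refine mul_le_mul_of_nonneg_left (k3.trans ?_) (by positivity)
          refine mul_le_mul_of_nonneg_left ?_ (by positivity)
          linarith
      _ = Cg * Ct * Real.exp (32 * K + 18) * 4 * (N * E) *
          ((2 * K) ^ ((j + 1) * A) * (((2 * K) ^ A * 8) ^ j)⁻¹ * 4 ^ j) := by ring
      _ = _ := by rw [k7]; ring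
  have c5 : ∑ x ∈ S'.filter (fun x => ¬ r x ≤ y₀ + 4), ∏ l ∈ P, f l (lev l x)
      ≤ Cg * Ct * (2 * K) ^ A * Real.exp (32 * K + 18) * 8 * (N * E) := by
    rw [← sum_fiberwise_of_maps_to (t := range (N + 1)) (g := fun x => Nat.log (r x) N)
      (fun x _ => mem_range.2 (Nat.lt_succ_of_le (Nat.log_le_self _ _)))]
    refine (sum_le_sum fun j _ => c4 j).trans ?_
    rw [← mul_sum]
    refine (mul_le_mul_of_nonneg_left (sum_geometric_two_le _) (by positivity)).trans (le_of_eq ?_)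
    ring
  rw [← sum_filter_add_sum_filter_not S (fun x => N < r x ^ 74),
    ← sum_filter_add_sum_filter_not (S.filter (fun x => ¬ N < r x ^ 74)) (fun x => m x ^ 4 ≤ N),
    ← hS', ← sum_filter_add_sum_filter_not S' (fun x => r x ≤ y₀ + 4), mul_assoc _ (N : ℝ)]
  have : 0 ≤ Cc * 2 ^ 74 * (N * E) := by positivity
  linarith

end Pool.Agent.EQ
end
end

-- part Pool.Agent.P.MP_ad7a55_nt.Weak2
section

/-! Weak convergence along a filter. -/

set_option autoImplicit false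

noncomputable section

open MeasureTheory Topology Filter UpperHalfPlane
open scoped MatrixGroups ENNReal BoundedContinuousFunction NNReal

namespace Pool.Agent.EQ

variable {W : Type} [TopologicalSpace W] [PolishSpace W] [MeasurableSpace W] [BorelSpace W]
  {L : Filter ℕ} {μ : ℕ → Measure W} {ν : Measure W}

omit [PolishSpace W] in
/-- Restricting to a set of almost full mass changes integrals only a little. -/
theorem weak2_restrict (ρ : Measure W) [IsFiniteMeasure ρ] {K : Set W} (hK : MeasurableSet K)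
    (f : W →ᵇ ℝ) : ‖∫ x, f x ∂ρ - ∫ x in K, f x ∂ρ‖ ≤ ‖f‖ * ρ.real Kᶜ := by
  rw [← integral_add_compl hK (f.integrable ρ), add_sub_cancel_left]
  exact norm_setIntegral_le_of_norm_le_const (measure_lt_top _ _) fun x _ => f.norm_coe_le_norm x

/-- Asymptotically tight probability measures have a limit along an ultrafilter. -/
theorem exists_WT (𝒰 : Ultrafilter ℕ) (h𝒰 : (𝒰 : Filter ℕ) ≤ atTop) (μ : ℕ → Measure W)
    [∀ i, IsProbabilityMeasure (μ i)]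
    (ht : ∀ ε : ℝ≥0∞, 0 < ε → ∃ K : Set W, IsCompact K ∧ ∀ᶠ i in 𝒰, μ i Kᶜ ≤ ε) :
    ∃ ν : Measure W, IsProbabilityMeasure ν ∧ WT 𝒰 μ ν := by
  classical
  let u : ℕ → ℝ≥0 := fun n => ((n : ℝ≥0) + 1)⁻¹
  have hu : Tendsto u atTop (𝓝 0) := by
    rw [← NNReal.tendsto_coe]
    simpa [u] using tendsto_one_div_add_atTop_nhds_zero_nat (𝕜 := ℝ)
  have hu0 : ∀ n, (0 : ℝ≥0∞) < u n := fun n => by
    have : 0 < u n := by positivity
    exact_mod_cast this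
  choose K hK hK' using fun n => ht (u n) (hu0 n)
  let K' : ℕ → Set W := fun n => ⋃ i ∈ Set.Iic n, K i
  have hKc : ∀ n, IsCompact (K' n) := fun n => (Set.finite_Iic n).isCompact_biUnion fun i _ => hK i
  have hKm : Monotone K' := fun a b hab => Set.biUnion_subset_biUnion_left (Set.Iic_subset_Iic.2 hab)
  have hKK : ∀ n, K n ⊆ K' n := fun n => Set.subset_biUnion_of_mem (u := K) (Set.mem_Iic.2 le_rfl)
  let Pr : ℕ → ℕ → Prop := fun i n => ∀ m ≤ n, μ i (K m)ᶜ ≤ u m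
  let N : ℕ → ℕ := fun i => Nat.findGreatest (Pr i) i
  have hP0 : ∀ i, Pr i 0 := fun i m hm => by
    obtain rfl : m = 0 := Nat.le_zero.1 hm
    simpa [u] using prob_le_one
  have hPN : ∀ i, Pr i (N i) := fun i => Nat.findGreatest_spec (Nat.zero_le i) (hP0 i)
  have hN : Tendsto N 𝒰 atTop := by
    refine tendsto_atTop.2 fun n => ?_
    have h1 : ∀ᶠ i in (𝒰 : Filter ℕ), ∀ m ∈ Set.Iic n, μ i (K m)ᶜ ≤ u m :=
      (eventually_all_finite (Set.finite_Iic n)).2 fun m _ => hK' m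
    filter_upwards [h1, h𝒰 (eventually_ge_atTop n)] with i hi hn
    exact Nat.le_findGreatest hn hi
  let ρ : ℕ → FiniteMeasure W := fun i => ⟨(μ i).restrict (K' (N i)), inferInstance⟩
  have hcomp := isCompact_setOfPred_finiteMeasure_mass_le_compl_isCompact_le (u := u) (K := K') 1
    hu hKc (Or.inr hKm)
  have hmem : ∀ i, ρ i ∈ {μ : FiniteMeasure W | μ.mass ≤ 1 ∧ ∀ n, μ (K' n)ᶜ ≤ u n} := by
    intro i
    constructor
    · rw [← ENNReal.coe_le_coe, FiniteMeasure.ennreal_mass]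
      exact (Measure.restrict_le_self _).trans prob_le_one
    · intro n
      rw [← ENNReal.coe_le_coe, FiniteMeasure.ennreal_coeFn_eq_coeFn_toMeasure]
      change (μ i).restrict (K' (N i)) (K' n)ᶜ ≤ _
      rcases le_total n (N i) with h | h
      · exact (Measure.restrict_le_self _).trans
          ((measure_mono (Set.compl_subset_compl.2 (hKK n))).trans (hPN i n h))
      · rw [Measure.restrict_apply (hKc n).measurableSet.compl]
        have : (K' n)ᶜ ∩ K' (N i) = ∅ :=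
          Set.eq_empty_of_forall_notMem fun x hx => hx.1 (hKm h hx.2)
        rw [this, measure_empty]
        exact zero_le
  obtain ⟨ν, -, hν⟩ := hcomp.ultrafilter_le_nhds (𝒰.map ρ) (by
    rw [Ultrafilter.coe_map, le_principal_iff, mem_map]
    exact Eventually.of_forall hmem)
  have hν' : Tendsto ρ 𝒰 (𝓝 ν) := hν
  have hW : WT 𝒰 μ (ν : Measure W) := by
    intro f
    have h1 := FiniteMeasure.tendsto_iff_forall_integral_tendsto.1 hν' f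
    have h2 : Tendsto (fun i => ∫ x, f x ∂μ i - ∫ x in K' (N i), f x ∂μ i) 𝒰 (𝓝 0) := by
      have h3 : Tendsto (fun i => ‖f‖ * (u (N i) : ℝ)) 𝒰 (𝓝 0) := by
        have := ((NNReal.tendsto_coe.2 hu).comp hN).const_mul ‖f‖
        simpa using this
      refine squeeze_zero_norm (fun i => ?_) h3
      refine (weak2_restrict (μ i) (hKc _).measurableSet f).trans
        (mul_le_mul_of_nonneg_left ?_ (norm_nonneg _))
      have h4 : μ i (K' (N i))ᶜ ≤ u (N i) :=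
        (measure_mono (Set.compl_subset_compl.2 (hKK _))).trans (hPN i _ le_rfl)
      exact ENNReal.toReal_le_coe_of_le_coe h4
    have h5 := h2.add h1
    rw [zero_add] at h5
    refine h5.congr fun i => ?_
    exact sub_add_cancel _ _
  refine ⟨ν, ⟨?_⟩, hW⟩
  have h1 := hW 1
  simp only [BoundedContinuousFunction.coe_one, Pi.one_apply, integral_const, probReal_univ,
    smul_eq_mul, mul_one] at h1
  have h2 : (ν : Measure W).real Set.univ = 1 := tendsto_nhds_unique h1 tendsto_const_nhds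
  exact (ENNReal.toReal_eq_one_iff _).1 h2

/-- A weakly convergent sequence of probability measures is tight. -/
theorem weak2_tight (μ : ℕ → Measure W) [∀ i, IsProbabilityMeasure (μ i)] (m : Measure W)
    [IsProbabilityMeasure m] (h : WT atTop μ m) {ε : ℝ≥0∞} (hε : 0 < ε) :
    ∃ K : Set W, IsCompact K ∧ ∀ i, μ i Kᶜ ≤ ε := by
  let _ := TopologicalSpace.upgradeIsCompletelyMetrizable W
  let P : ℕ → ProbabilityMeasure W := fun i => ⟨μ i, inferInstance⟩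
  let M : ProbabilityMeasure W := ⟨m, inferInstance⟩
  have hP : Tendsto P atTop (𝓝 M) :=
    ProbabilityMeasure.tendsto_iff_forall_integral_tendsto.2 h
  have hc := hP.isCompact_insert_range
  have ht := isTightMeasureSet_of_isCompact_closure (S := insert M (Set.range P))
    (by rwa [hc.isClosed.closure_eq])
  obtain ⟨K, hK, hK'⟩ := isTightMeasureSet_iff_exists_isCompact_measure_compl_le.1 ht ε hε
  exact ⟨K, hK, fun i => hK' _ ⟨P i, Or.inr ⟨i, rfl⟩, rfl⟩⟩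

/-- Finite measures on a finite power are determined by the integrals of products. -/
theorem weak2_ext {ι : Type} [Fintype ι] {ν ν' : Measure (ι → W)} [IsFiniteMeasure ν]
    [IsFiniteMeasure ν']
    (h : ∀ f : ι → (W →ᵇ ℝ), ∫ x, ∏ k, f k (x k) ∂ν = ∫ x, ∏ k, f k (x k) ∂ν') : ν = ν' := by
  have key : ν.prod (Measure.dirac ()) = ν'.prod (Measure.dirac ()) := by
    refine Measure.ext_of_integral_prod_mul_boundedContinuousFunction fun f g => ?_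
    rw [integral_prod_mul (fun x : ι → W => ∏ k, f k (x k)) g,
      integral_prod_mul (fun x : ι → W => ∏ k, f k (x k)) g, h f]
  rw [← Measure.fst_prod (μ := ν) (ν := Measure.dirac ()), key, Measure.fst_prod]

/-- Convergence against products of functions of one coordinate gives weak convergence. -/
theorem WT_of_prod {ι : Type} [Fintype ι] (m : Measure W) [IsProbabilityMeasure m]
    (μ : ℕ → Measure (ι → W)) [∀ i, IsProbabilityMeasure (μ i)]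
    (h : ∀ f : ι → (W →ᵇ ℝ), Tendsto (fun i => ∫ x, ∏ k, f k (x k) ∂μ i) atTop
      (𝓝 (∏ k, ∫ x, f k x ∂m))) : WT atTop μ (Measure.pi fun _ => m) := by
  classical
  have hmarg : ∀ k : ι, WT atTop (fun i => (μ i).map fun x => x k) m := by
    intro k f
    have h1 := h (Function.update (fun _ => 1) k f)
    have e1 : ∀ x : ι → W,
        ∏ j, (Function.update (fun _ => (1 : W →ᵇ ℝ)) k f) j (x j) = f (x k) := by
      intro x
      rw [Finset.prod_eq_single k]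
      · rw [Function.update_self]
      · intro j _ hj
        rw [Function.update_of_ne hj]; rfl
      · intro hk
        exact (hk (Finset.mem_univ _)).elim
    have e2 : ∏ j, ∫ x, (Function.update (fun _ => (1 : W →ᵇ ℝ)) k f) j x ∂m = ∫ x, f x ∂m := by
      rw [Finset.prod_eq_single k]
      · rw [Function.update_self]
      · intro j _ hj
        rw [Function.update_of_ne hj]; simp
      · intro hk
        exact (hk (Finset.mem_univ _)).elim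
    rw [e2] at h1
    refine h1.congr fun i => ?_
    rw [integral_map (measurable_pi_apply k).aemeasurable f.continuous.aestronglyMeasurable]
    simp only [e1]
  have htight : ∀ ε : ℝ≥0∞, 0 < ε → ∃ K : Set (ι → W), IsCompact K ∧ ∀ i, μ i Kᶜ ≤ ε := by
    intro ε hε
    have hprob : ∀ k i, IsProbabilityMeasure ((μ i).map fun x => x k) := fun k i =>
      Measure.isProbabilityMeasure_map (measurable_pi_apply k).aemeasurable
    have hε' : 0 < ε / (Fintype.card ι : ℝ≥0∞) :=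
      ENNReal.div_pos hε.ne' (ENNReal.natCast_ne_top _)
    choose K hK hK' using fun k => weak2_tight _ m (hmarg k) hε'
    refine ⟨Set.pi Set.univ K, isCompact_univ_pi hK, fun i => ?_⟩
    have hsub : (Set.pi Set.univ K)ᶜ ⊆ ⋃ k, (fun x : ι → W => x k) ⁻¹' (K k)ᶜ := by
      intro x hx
      by_contra hcon
      refine hx fun k _ => ?_
      by_contra hk
      exact hcon (Set.mem_iUnion.2 ⟨k, hk⟩)
    refine (measure_mono hsub).trans ((measure_iUnion_fintype_le _ _).trans ?_)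
    have h1 : ∀ k, μ i ((fun x : ι → W => x k) ⁻¹' (K k)ᶜ) ≤ ε / (Fintype.card ι : ℝ≥0∞) := by
      intro k
      rw [← Measure.map_apply (measurable_pi_apply k) (hK k).measurableSet.compl]
      exact hK' k i
    refine (Finset.sum_le_sum fun k _ => h1 k).trans ?_
    rw [Finset.sum_const, Finset.card_univ, nsmul_eq_mul]
    exact ENNReal.mul_div_le
  intro f
  rw [tendsto_iff_ultrafilter]
  intro 𝒰 h𝒰
  obtain ⟨ν, hν, hW⟩ := exists_WT 𝒰 h𝒰 μ fun ε hε => by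
    obtain ⟨K, hK, hK'⟩ := htight ε hε
    exact ⟨K, hK, Eventually.of_forall hK'⟩
  have e : ν = Measure.pi fun _ => m := by
    refine weak2_ext fun g => ?_
    rw [integral_fintype_prod_eq_prod (fun k x => g k x)]
    refine tendsto_nhds_unique ?_ ((h g).mono_left h𝒰)
    have h1 := hW (∏ k, (g k).compContinuous ⟨fun x : ι → W => x k, continuous_apply k⟩)
    simpa using h1
  rw [← e]
  exact hW f

end Pool.Agent.EQ
end
end

-- part Pool.Agent.P.MP_ad7a55_nt.XFc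
section

/-! The Balog-Szemeredi-Gowers lemma in a finite group. -/

set_option autoImplicit false

noncomputable section

open Finset
open scoped Pointwise MatrixGroups Classical

namespace Pool.Agent.EQ

variable {G : Type} [Group G] [Fintype G]

theorem xfc_nonneg (A : Finset G) (x : G) : 0 ≤ rq A x := Nat.cast_nonneg _

theorem xfc_inv (A : Finset G) (x : G) : rq A x⁻¹ = rq A x := by
  unfold rq
  congr 1
  refine card_nbij' Prod.swap Prod.swap (fun p hp => ?_) (fun p hp => ?_) (fun _ _ => rfl)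
    fun _ _ => rfl
  · simp only [coe_filter, mem_product, Set.mem_ofPred_eq, Prod.fst_swap, Prod.snd_swap] at hp ⊢
    refine ⟨⟨hp.1.2, hp.1.1⟩, ?_⟩
    rw [← inv_inv x, ← hp.2]
    group
  · simp only [coe_filter, mem_product, Set.mem_ofPred_eq, Prod.fst_swap, Prod.snd_swap] at hp ⊢
    refine ⟨⟨hp.1.2, hp.1.1⟩, ?_⟩
    rw [← hp.2]
    group

theorem xfc_sum (A : Finset G) : ∑ x, rq A x = (#A : ℝ) ^ 2 := by
  have h := card_eq_sum_card_fiberwise (s := A ×ˢ A) (t := univ) (f := fun p => p.1⁻¹ * p.2)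
    fun _ _ => mem_coe.2 (mem_univ _)
  rw [card_product] at h
  unfold rq
  rw [← Nat.cast_sum, ← h]
  push_cast
  ring

theorem xfc_pair (A : Finset G) (x y : G) :
    (#{s : G | s⁻¹ * x ∈ A ∧ s⁻¹ * y ∈ A} : ℝ) ≤ rq A (x⁻¹ * y) := by
  unfold rq
  refine Nat.cast_le.2 (card_le_card_of_injOn (fun s => (s⁻¹ * x, s⁻¹ * y)) (fun s hs => ?_)
    fun s _ t _ hst => ?_)
  · simp only [coe_filter, mem_product, Set.mem_ofPred_eq, mem_univ, true_and] at hs ⊢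
    refine ⟨hs, ?_⟩
    group
  · exact inv_injective (mul_right_cancel (Prod.mk.inj hst).1)

theorem xfc_bad {A : Finset G} (hA : A.Nonempty) {θ : ℝ} (hθ : 0 < θ) :
    ∑ s : G, (#{p ∈ {a ∈ A | s⁻¹ * a ∈ A} ×ˢ {a ∈ A | s⁻¹ * a ∈ A} |
      rq A (p.1⁻¹ * p.2) < θ} : ℝ) < (#A : ℝ) ^ 2 * θ := by
  have h1 : ∀ s : G, (#{p ∈ {a ∈ A | s⁻¹ * a ∈ A} ×ˢ {a ∈ A | s⁻¹ * a ∈ A} |
      rq A (p.1⁻¹ * p.2) < θ} : ℝ) = ∑ p ∈ A ×ˢ A,
        if rq A (p.1⁻¹ * p.2) < θ ∧ s⁻¹ * p.1 ∈ A ∧ s⁻¹ * p.2 ∈ A then (1 : ℝ) else 0 := by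
    intro s
    rw [sum_boole]
    congr 2
    ext p
    simp only [mem_filter, mem_product]
    tauto
  simp only [h1]
  rw [sum_comm]
  have h2 : (#A : ℝ) ^ 2 * θ = ∑ _p ∈ A ×ˢ A, θ := by
    rw [sum_const, card_product, nsmul_eq_mul]
    push_cast
    ring
  rw [h2]
  refine sum_lt_sum_of_nonempty (hA.product hA) fun p _ => ?_
  by_cases hp : rq A (p.1⁻¹ * p.2) < θ
  · simp only [hp, true_and]
    rw [sum_boole]
    exact (xfc_pair A p.1 p.2).trans_lt hp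
  · simp only [hp, false_and, if_false, sum_const_zero]
    exact hθ

theorem bsg_one {A : Finset G} (hA : A.Nonempty) {K : ℝ} (hK : 1 ≤ K) (h : (#A : ℝ) ^ 3 ≤ K * en A) :
    ∃ X ⊆ A, (#A : ℝ) ≤ 2 * K * #X ∧
      16 * (#{p ∈ X ×ˢ X | rq A (p.1⁻¹ * p.2) < #A / (32 * K ^ 2)} : ℝ) ≤ (#X : ℝ) ^ 2 := by
  by_contra hcon
  have ha : (0 : ℝ) < #A := by exact_mod_cast hA.card_pos
  have hK0 : 0 < K := by linarith
  have hθ : 0 < (#A : ℝ) / (32 * K ^ 2) := by positivity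
  have h1 : ∀ s : G, (#{a ∈ A | s⁻¹ * a ∈ A} : ℝ) ^ 2 ≤
      #A / (2 * K) * (#{a ∈ A | s⁻¹ * a ∈ A} : ℝ) +
        16 * (#{p ∈ {a ∈ A | s⁻¹ * a ∈ A} ×ˢ {a ∈ A | s⁻¹ * a ∈ A} |
          rq A (p.1⁻¹ * p.2) < #A / (32 * K ^ 2)} : ℝ) := by
    intro s
    by_contra h2
    rw [not_le] at h2
    refine hcon ⟨{a ∈ A | s⁻¹ * a ∈ A}, filter_subset _ _, ?_, ?_⟩
    · by_contra h3
      rw [not_le] at h3
      have h4 : (#{a ∈ A | s⁻¹ * a ∈ A} : ℝ) ≤ #A / (2 * K) := by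
        rw [le_div_iff₀ (by positivity)]
        linarith
      have h5 := mul_le_mul_of_nonneg_right h4 (Nat.cast_nonneg (α := ℝ) #{a ∈ A | s⁻¹ * a ∈ A})
      have h6 := Nat.cast_nonneg (α := ℝ) #{p ∈ {a ∈ A | s⁻¹ * a ∈ A} ×ˢ {a ∈ A | s⁻¹ * a ∈ A} |
          rq A (p.1⁻¹ * p.2) < #A / (32 * K ^ 2)}
      nlinarith
    · have h5 : 0 ≤ #A / (2 * K) * (#{a ∈ A | s⁻¹ * a ∈ A} : ℝ) := by positivity
      linarith
  have h2 := sum_le_sum fun s (_ : s ∈ (univ : Finset G)) => h1 s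
  rw [sum_add_distrib, ← mul_sum, ← mul_sum, ← en_eq, sum_inter] at h2
  have h3 := xfc_bad hA hθ
  have h4 : en A < #A / (2 * K) * (#A : ℝ) ^ 2 + 16 * ((#A : ℝ) ^ 2 * (#A / (32 * K ^ 2))) := by
    linarith
  have h5 := mul_lt_mul_of_pos_left h4 hK0
  have h6 : K * (#A / (2 * K) * (#A : ℝ) ^ 2 + 16 * ((#A : ℝ) ^ 2 * (#A / (32 * K ^ 2)))) =
      (#A : ℝ) ^ 3 / 2 + (#A : ℝ) ^ 3 / 2 / K := by
    field_simp
    ring
  have h7 : (#A : ℝ) ^ 3 / 2 / K ≤ (#A : ℝ) ^ 3 / 2 := div_le_self (by positivity) hK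
  linarith

theorem xfc_conv (A : Finset G) :
    ∑ g : G, ∑ u : G, rq A u * rq A (u⁻¹ * g) = (#A : ℝ) ^ 4 := by
  rw [sum_comm]
  have h : ∀ u : G, ∑ g : G, rq A u * rq A (u⁻¹ * g) = rq A u * (#A : ℝ) ^ 2 := by
    intro u
    rw [← mul_sum, ← xfc_sum]
    congr 1
    exact Equiv.sum_comp (Equiv.mulLeft u⁻¹) (rq A)
  simp only [h]
  rw [← sum_mul, xfc_sum]
  ring

theorem xfc_rep {A X : Finset G} {θ : ℝ} (hθ : 0 ≤ θ) {x y : G}
    (hx : 4 * (#{z ∈ X | rq A (x⁻¹ * z) < θ} : ℝ) ≤ #X)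
    (hy : 4 * (#{z ∈ X | rq A (y⁻¹ * z) < θ} : ℝ) ≤ #X) :
    (#X : ℝ) / 2 * θ ^ 2 ≤ ∑ u : G, rq A u * rq A (u⁻¹ * (x⁻¹ * y)) := by
  set Z := {z ∈ X | θ ≤ rq A (x⁻¹ * z) ∧ θ ≤ rq A (y⁻¹ * z)} with hZ
  have h1 : #X ≤ #Z + (#{z ∈ X | rq A (x⁻¹ * z) < θ} + #{z ∈ X | rq A (y⁻¹ * z) < θ}) := by
    refine le_trans (card_le_card (fun z hz => ?_))
      ((card_union_le _ _).trans (Nat.add_le_add_left (card_union_le _ _) _))
    simp only [hZ, mem_union, mem_filter]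
    by_cases h2 : rq A (x⁻¹ * z) < θ
    · exact Or.inr (Or.inl ⟨hz, h2⟩)
    · by_cases h3 : rq A (y⁻¹ * z) < θ
      · exact Or.inr (Or.inr ⟨hz, h3⟩)
      · exact Or.inl ⟨hz, not_lt.1 h2, not_lt.1 h3⟩
  have h2 : (#X : ℝ) / 2 ≤ #Z := by
    have := (Nat.cast_le (α := ℝ)).2 h1
    push_cast at this
    linarith
  rw [← Equiv.sum_comp (Equiv.mulLeft x⁻¹) fun u => rq A u * rq A (u⁻¹ * (x⁻¹ * y))]
  calc (#X : ℝ) / 2 * θ ^ 2 ≤ #Z * θ ^ 2 := mul_le_mul_of_nonneg_right h2 (sq_nonneg _)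
    _ = ∑ _z ∈ Z, θ ^ 2 := by rw [sum_const, nsmul_eq_mul]
    _ ≤ ∑ z ∈ Z, rq A (x⁻¹ * z) * rq A ((x⁻¹ * z)⁻¹ * (x⁻¹ * y)) := by
        refine sum_le_sum fun z hz => ?_
        obtain ⟨-, h3, h4⟩ := mem_filter.1 hz
        have e : (x⁻¹ * z)⁻¹ * (x⁻¹ * y) = (y⁻¹ * z)⁻¹ := by group
        rw [e, xfc_inv, sq]
        exact mul_le_mul h3 h4 hθ (xfc_nonneg _ _)
    _ ≤ _ := sum_le_sum_of_subset_of_nonneg (subset_univ _) fun z _ _ =>
        mul_nonneg (xfc_nonneg _ _) (xfc_nonneg _ _)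

theorem bsg {A : Finset G} (hA : A.Nonempty) {K : ℝ} (hK : 1 ≤ K) (h : (#A : ℝ) ^ 3 ≤ K * en A) :
    ∃ B ⊆ A, (#A : ℝ) ≤ 4 * K * #B ∧ (#(B⁻¹ * B) : ℝ) ≤ 2 ^ 14 * K ^ 6 * #B := by
  obtain ⟨X, hXA, hX, hbad⟩ := bsg_one hA hK h
  have ha : (0 : ℝ) < #A := by exact_mod_cast hA.card_pos
  have hK0 : 0 < K := by linarith
  set θ : ℝ := #A / (32 * K ^ 2) with hθ
  have hθ0 : 0 < θ := by positivity
  have hn : (0 : ℝ) < #X := by
    by_contra h1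
    have h2 : 2 * K * (#X : ℝ) ≤ 0 := mul_nonpos_of_nonneg_of_nonpos (by positivity) (not_lt.1 h1)
    linarith
  set B := {x ∈ X | 4 * (#{z ∈ X | rq A (x⁻¹ * z) < θ} : ℝ) ≤ #X} with hB
  set C := {x ∈ X | ¬ 4 * (#{z ∈ X | rq A (x⁻¹ * z) < θ} : ℝ) ≤ #X} with hC
  have h1 : (#B : ℝ) + #C = #X := by
    exact_mod_cast card_filter_add_card_filter_not (s := X) _
  have h2 : (#{p ∈ X ×ˢ X | rq A (p.1⁻¹ * p.2) < θ} : ℝ) =
      ∑ x ∈ X, (#{z ∈ X | rq A (x⁻¹ * z) < θ} : ℝ) := by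
    rw [← sum_boole, sum_product]
    refine sum_congr rfl fun x _ => ?_
    rw [sum_boole]
  have h3 : (#C : ℝ) * #X ≤ 4 * ∑ x ∈ X, (#{z ∈ X | rq A (x⁻¹ * z) < θ} : ℝ) := by
    rw [mul_sum]
    calc (#C : ℝ) * #X = ∑ _x ∈ C, (#X : ℝ) := by rw [sum_const, nsmul_eq_mul]
      _ ≤ ∑ x ∈ C, 4 * (#{z ∈ X | rq A (x⁻¹ * z) < θ} : ℝ) :=
          sum_le_sum fun x hx => (not_le.1 (mem_filter.1 hx).2).le
      _ ≤ _ := sum_le_sum_of_subset_of_nonneg (filter_subset _ _) fun x _ _ => by positivity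
  have h4 : 4 * (#C : ℝ) ≤ #X := by
    rw [h2] at hbad
    refine le_of_mul_le_mul_right ?_ hn
    nlinarith
  have h5 : 3 * (#X : ℝ) ≤ 4 * #B := by linarith
  refine ⟨B, (filter_subset _ _).trans hXA, ?_, ?_⟩
  · nlinarith
  · have h6 : (#(B⁻¹ * B) : ℝ) * ((#X : ℝ) / 2 * θ ^ 2) ≤ (#A : ℝ) ^ 4 := by
      rw [← xfc_conv]
      calc (#(B⁻¹ * B) : ℝ) * ((#X : ℝ) / 2 * θ ^ 2) = ∑ _g ∈ B⁻¹ * B, (#X : ℝ) / 2 * θ ^ 2 := by
            rw [sum_const, nsmul_eq_mul]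
        _ ≤ ∑ g ∈ B⁻¹ * B, ∑ u : G, rq A u * rq A (u⁻¹ * g) := by
            refine sum_le_sum fun g hg => ?_
            obtain ⟨x', hx', y, hy, rfl⟩ := mem_mul.1 hg
            obtain ⟨x, hx, rfl⟩ := mem_inv.1 hx'
            exact xfc_rep hθ0.le (mem_filter.1 hx).2 (mem_filter.1 hy).2
        _ ≤ _ := sum_le_sum_of_subset_of_nonneg (subset_univ _) fun g _ _ =>
            sum_nonneg fun u _ => mul_nonneg (xfc_nonneg _ _) (xfc_nonneg _ _)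
    have h7 : (#A : ℝ) ^ 4 = 2048 * K ^ 4 * (#A : ℝ) ^ 2 / #X * ((#X : ℝ) / 2 * θ ^ 2) := by
      rw [hθ]
      field_simp
      ring
    rw [h7] at h6
    have h8 := le_of_mul_le_mul_right h6 (by positivity)
    refine h8.trans ?_
    rw [div_le_iff₀ hn]
    have h9 : (#A : ℝ) ^ 2 ≤ (2 * K * #X) ^ 2 := pow_le_pow_left₀ ha.le hX 2
    have h10 : (#X : ℝ) ≤ 2 * #B := by linarith
    calc 2048 * K ^ 4 * (#A : ℝ) ^ 2 ≤ 2048 * K ^ 4 * (2 * K * #X) ^ 2 := by gcongr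
      _ = 8192 * K ^ 6 * #X * #X := by ring
      _ ≤ 8192 * K ^ 6 * (2 * #B) * #X := by gcongr
      _ = 2 ^ 14 * K ^ 6 * #B * #X := by ring

end Pool.Agent.EQ
end
end
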