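import Pool.Agent.K.MP_ad7a55_nt.C9
import Pool.Agent.K.MP_ad7a55_nt.C8
import Pool.Agent.K.MP_ad7a55_nt.C15
import Pool.Agent.K.MP_ad7a55_nt.C10

-- part Pool.Agent.P.MP_ad7a55_nt.XFh
section

/-! Goursat's lemma for powers of SL(2), exact and approximate. -/

set_option autoImplicit false

noncomputable section

open Finset
open scoped Pointwise MatrixGroups Classical

namespace Pool.Agent.EQ

variable {q : ℕ} [Fact q.Prime] {ι : Type} [Fintype ι]

theorem xfh_inv_mem {S : Finset (ι → GQ q)} (hs : S⁻¹ = S) {n : ℕ}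
    {s : ι → GQ q} (h : s ∈ S ^ n) : s⁻¹ ∈ S ^ n := by
  have : (S ^ n)⁻¹ = S ^ n := by rw [← inv_pow, hs]
  rw [← this]
  exact Finset.inv_mem_inv h

theorem xfh_mul_mem {S : Finset (ι → GQ q)} {m n : ℕ}
    {s t : ι → GQ q} (h : s ∈ S ^ m) (h' : t ∈ S ^ n) : s * t ∈ S ^ (m + n) := by
  rw [pow_add]
  exact Finset.mul_mem_mul h h'

theorem xfh_mono {S : Finset (ι → GQ q)} (h1 : 1 ∈ S) {m n : ℕ}
    (hmn : m ≤ n) {s : ι → GQ q} (h : s ∈ S ^ m) : s ∈ S ^ n :=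
  Finset.pow_subset_pow_right h1 hmn h

theorem xfh_neg_inv (a : GQ q) : (-a)⁻¹ = -a⁻¹ := by
  rw [inv_eq_iff_mul_eq_one, neg_mul_neg, mul_inv_cancel]

theorem xfh_cj_pm {X : MQ q} {g h h' : GQ q} (hc : Cj X g h) (hh : h' = h ∨ h' = -h) :
    Cj X g h' := by
  rcases hh with rfl | rfl
  · exact hc
  · unfold Cj at hc ⊢
    rw [Matrix.SpecialLinearGroup.coe_neg, neg_mul]
    rcases hc with hc | hc
    · right
      rw [hc]
    · left
      rw [hc, neg_neg]

theorem xfh_cj_uniq {X : MQ q} (hX : X.det ≠ 0) {g h u : GQ q} (hc : Cj X g h)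
    (hu : (u : MQ q) * X = X * g) : h = u ∨ h = -u := by
  have hU : IsUnit X := (Matrix.isUnit_iff_isUnit_det X).2 (IsUnit.mk0 _ hX)
  rcases hc with hc | hc
  · left
    apply Subtype.ext
    exact hU.mul_right_cancel (hc.trans hu.symm)
  · right
    apply Subtype.ext
    apply hU.mul_right_cancel
    rw [Matrix.SpecialLinearGroup.coe_neg, neg_mul, hu]
    exact hc

theorem xfh_comm {a b u : GQ q} (hb : b = u ∨ b = -u)
    (h : a * b * a⁻¹ * b⁻¹ = 1 ∨ a * b * a⁻¹ * b⁻¹ = -1) : a * u = u * a ∨ a * u = -(u * a) := by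
  have e : a * b = (a * b * a⁻¹ * b⁻¹) * (b * a) := by group
  have h' : a * b = b * a ∨ a * b = -(b * a) := by
    rcases h with h | h
    · left
      rw [e, h, one_mul]
    · right
      rw [e, h, neg_mul, one_mul]
  rcases hb with rfl | rfl
  · exact h'
  · rw [mul_neg, neg_mul, neg_inj, neg_inj] at h'
    exact h'

theorem xfh_pm_mul {a b : GQ q} (hb : a⁻¹ * b = 1 ∨ a⁻¹ * b = -1) : b = a ∨ b = -a := by
  have e : b = a * (a⁻¹ * b) := by group
  rcases hb with h | h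
  · left
    rw [e, h, mul_one]
  · right
    rw [e, h, mul_neg, mul_one]

/-- Pairs of coordinates of elements supported at one place of `J`. -/
def xfhG (H : Subgroup (ι → GQ q)) (J : Finset ι) (k l : ι) : Subgroup (GQ q × GQ q) where
  carrier := {p | ∃ g ∈ H, g k = p.1 ∧ (∀ j ∈ J, j ≠ k → g j = 1) ∧ g l = p.2}
  one_mem' := ⟨1, H.one_mem, rfl, fun _ _ _ => rfl, rfl⟩
  mul_mem' := by
    rintro p p' ⟨g, hg, a, b, c⟩ ⟨g', hg', a', b', c'⟩
    refine ⟨g * g', H.mul_mem hg hg', ?_, ?_, ?_⟩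
    · rw [Pi.mul_apply, a, a', Prod.fst_mul]
    · intro j hj hjk
      rw [Pi.mul_apply, b j hj hjk, b' j hj hjk, mul_one]
    · rw [Pi.mul_apply, c, c', Prod.snd_mul]
  inv_mem' := by
    rintro p ⟨g, hg, a, b, c⟩
    refine ⟨g⁻¹, H.inv_mem hg, ?_, ?_, ?_⟩
    · rw [Pi.inv_apply, a, Prod.fst_inv]
    · intro j hj hjk
      rw [Pi.inv_apply, b j hj hjk, inv_one]
    · rw [Pi.inv_apply, c, Prod.snd_inv]

omit [Fintype ι] in
theorem xfh_single {H : Subgroup (ι → GQ q)} {J : Finset ι}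
    (h1 : ∀ w : ι → GQ q, ∃ g ∈ H, ∀ k ∈ J, g k = w k) {k : ι} (hk : k ∈ J) (w : GQ q) :
    ∃ g ∈ H, g k = w ∧ ∀ j ∈ J, j ≠ k → g j = 1 := by
  obtain ⟨g, hg, hw⟩ := h1 (fun j => if j = k then w else 1)
  refine ⟨g, hg, ?_, ?_⟩
  · rw [hw k hk, if_pos rfl]
  · intro j hj hjk
    rw [hw j hj, if_neg hjk]

omit [Fintype ι] in
theorem xfh_central {H : Subgroup (ι → GQ q)} {J : Finset ι} {l : ι}
    (h1 : ∀ w : ι → GQ q, ∃ g ∈ H, ∀ k ∈ J, g k = w k)
    (h3 : ∀ g ∈ H, (∀ k ∈ J, g k = 1) → g l = 1 ∨ g l = -1) (T : Finset ι) :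
    (∀ k ∈ T, k ∈ J) →
      (∀ k ∈ T, ∀ g ∈ H, (∀ j ∈ J, j ≠ k → g j = 1) → g l = 1 ∨ g l = -1) →
        ∀ g ∈ H, (∀ j ∈ J, j ∉ T → g j = 1) → g l = 1 ∨ g l = -1 := by
  induction T using Finset.induction_on with
  | empty => exact fun _ _ g hg h => h3 g hg fun k hk => h k hk (Finset.notMem_empty k)
  | insert k T _ ih =>
    intro hT hc g hg hgT
    obtain ⟨g1, hg1, e1, e2⟩ := xfh_single h1 (hT k (mem_insert_self k T)) (g k)
    have a := hc k (mem_insert_self k T) g1 hg1 e2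
    have b := ih (fun j hj => hT j (mem_insert_of_mem hj))
      (fun j hj => hc j (mem_insert_of_mem hj)) (g1⁻¹ * g) (H.mul_mem (H.inv_mem hg1) hg) (by
        intro j hj hjT
        rw [Pi.mul_apply, Pi.inv_apply]
        by_cases hjk : j = k
        · rw [hjk, e1, inv_mul_cancel]
        · rw [e2 j hj hjk, hgT j hj (by simp [hjk, hjT]), inv_one, mul_one])
    rw [Pi.mul_apply, Pi.inv_apply] at b
    rcases xfh_pm_mul b with c | c <;> rcases a with a | a <;> rw [c, a] <;> simp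

theorem goursat (hq : 5 < q) (H : Subgroup (ι → GQ q)) (J : Finset ι) (l : ι)
    (h1 : ∀ w : ι → GQ q, ∃ g ∈ H, ∀ k ∈ J, g k = w k) (h2 : ∀ w, ∃ g ∈ H, g l = w)
    (h3 : ∀ g ∈ H, (∀ k ∈ J, g k = 1) → g l = 1 ∨ g l = -1) :
    ∃ k ∈ J, ∃ X : MQ q, X.det ≠ 0 ∧ ∀ g ∈ H, Cj X (g k) (g l) := by
  have hex : ∃ k ∈ J, ∃ X : MQ q, X.det ≠ 0 ∧
      ∀ g ∈ H, (∀ j ∈ J, j ≠ k → g j = 1) → Cj X (g k) (g l) := by
    by_contra hne
    have hall : ∀ k ∈ J, ∀ g ∈ H, (∀ j ∈ J, j ≠ k → g j = 1) → g l = 1 ∨ g l = -1 := by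
      intro k hk
      rcases braid hq (xfhG H J k l) (by
          intro w
          obtain ⟨g, hg, e1, e2⟩ := xfh_single h1 hk w
          exact ⟨g l, g, hg, e1, e2, rfl⟩) (by
          rintro h ⟨g, hg, e1, e2, e3⟩
          have e3' : g l = h := e3
          rw [← e3']
          refine h3 g hg fun j hj => ?_
          by_cases hjk : j = k
          · rw [hjk]
            exact e1
          · exact e2 j hj hjk) with hc | ⟨X, hX, hc⟩
      · exact fun g hg e => hc (g k, g l) ⟨g, hg, rfl, e, rfl⟩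
      · exact absurd ⟨k, hk, X, hX, fun g hg e => hc (g k, g l) ⟨g, hg, rfl, e, rfl⟩⟩ hne
    obtain ⟨g, hg, e⟩ := h2 (uU 1)
    have := xfh_central h1 h3 J (fun _ h => h) hall g hg fun j hj hj' => absurd hj hj'
    rw [e] at this
    exact this.elim (uU_ne hq).1 (uU_ne hq).2
  obtain ⟨k, hk, X, hX, hc⟩ := hex
  have hoth : ∀ k' ∈ J.erase k, ∀ g ∈ H, (∀ j ∈ J, j ≠ k' → g j = 1) → g l = 1 ∨ g l = -1 := by
    intro k' hk' g' hg' e'
    have key : ∀ u : GQ q, g' l * u = u * g' l ∨ g' l * u = -(u * g' l) := by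
      intro u
      obtain ⟨w, hw⟩ := Cj.surj hX u
      obtain ⟨g, hg, e1, e2⟩ := xfh_single h1 hk w
      have c := hc g hg e2
      rw [e1] at c
      refine xfh_comm (xfh_cj_uniq hX c hw) ?_
      refine h3 (g' * g * g'⁻¹ * g⁻¹)
        (H.mul_mem (H.mul_mem (H.mul_mem hg' hg) (H.inv_mem hg')) (H.inv_mem hg)) fun j hj => ?_
      simp only [Pi.mul_apply, Pi.inv_apply]
      by_cases hjk : j = k'
      · rw [e2 j hj (hjk ▸ (mem_erase.1 hk').1)]
        group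
      · rw [e' j hj hjk]
        group
    exact centre_pm hq (key _) (key _)
  refine ⟨k, hk, X, hX, fun g hg => ?_⟩
  obtain ⟨g1, hg1, e1, e2⟩ := xfh_single h1 hk (g k)
  have b := xfh_central h1 h3 (J.erase k) (fun _ h => mem_of_mem_erase h) hoth (g1⁻¹ * g)
    (H.mul_mem (H.inv_mem hg1) hg) (by
      intro j hj hjT
      have hjk : j = k := by
        by_contra hjk
        exact hjT (mem_erase.2 ⟨hjk, hj⟩)
      rw [Pi.mul_apply, Pi.inv_apply, hjk, e1, inv_mul_cancel])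
  rw [Pi.mul_apply, Pi.inv_apply] at b
  have c := hc g1 hg1 e2
  rw [e1] at c
  exact xfh_cj_pm c (xfh_pm_mul b)

theorem xfh_list {S : Finset (ι → GQ q)} (hs : S⁻¹ = S) (h1 : 1 ∈ S)
    (h3 : ∀ k w, ∃ s ∈ S ^ 3, s k = w) {J : Finset ι} {l : ι} {m : ℕ} {h : ι → GQ q}
    (hm : h ∈ S ^ m) (hJ : ∀ k ∈ J, h k = 1) (L : List (GQ q × Bool)) :
    ∃ u ∈ S ^ (L.length * (m + 6)), (∀ k ∈ J, u k = 1) ∧
      u l = (L.map fun p => p.1 * (if p.2 then h l else (h l)⁻¹) * p.1⁻¹).prod := by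
  induction L with
  | nil => exact ⟨1, Finset.one_mem_pow h1, fun _ _ => rfl, by simp⟩
  | cons p L ih =>
    obtain ⟨u, hu, a, b⟩ := ih
    obtain ⟨t, ht, e⟩ := h3 l p.1
    have hh : (if p.2 then h else h⁻¹) ∈ S ^ m := by
      split_ifs
      · exact hm
      · exact xfh_inv_mem hs hm
    refine ⟨t * (if p.2 then h else h⁻¹) * t⁻¹ * u, ?_, ?_, ?_⟩
    · have := xfh_mul_mem (xfh_mul_mem (xfh_mul_mem ht hh) (xfh_inv_mem hs ht)) hu
      refine xfh_mono h1 (le_of_eq ?_) this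
      rw [List.length_cons]
      ring
    · intro k hk
      simp only [Pi.mul_apply, Pi.inv_apply]
      rw [a k hk]
      split_ifs
      · rw [hJ k hk]
        group
      · rw [Pi.inv_apply, hJ k hk]
        group
    · simp only [Pi.mul_apply, Pi.inv_apply, List.map_cons, List.prod_cons]
      rw [b, e]
      split_ifs
      · rfl
      · rfl

theorem agour_step (hq : 5 < q) {S : Finset (ι → GQ q)} (h1 : 1 ∈ S) (hs : S⁻¹ = S)
    (h3 : ∀ k w, ∃ s ∈ S ^ 3, s k = w) {J : Finset ι} {l : ι} (hl : l ∉ J) {r : ℕ} (hr : 3 ≤ r)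
    (h : ∀ w : ι → GQ q, ∃ s ∈ S ^ r, ∀ k ∈ J, s k = w k) :
    (∀ w : ι → GQ q, ∃ s ∈ S ^ (r + 16 * (3 * r + 6)), ∀ k ∈ insert l J, s k = w k) ∨
      ∃ k ∈ J, ∃ X : MQ q, X.det ≠ 0 ∧ ∀ s ∈ S, Cj X (s k) (s l) := by
  by_cases hc : ∀ g ∈ S ^ (3 * r), (∀ k ∈ J, g k = 1) → g l = 1 ∨ g l = -1
  · right
    let H : Subgroup (ι → GQ q) :=
      { carrier := {g | ∃ s ∈ S ^ r, (∀ k ∈ J, g k = s k) ∧ (g l = s l ∨ g l = -s l)}
        one_mem' := ⟨1, Finset.one_mem_pow h1, fun _ _ => rfl, Or.inl rfl⟩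
        mul_mem' := by
          rintro g g' ⟨s, hs1, a, b⟩ ⟨s', hs2, a', b'⟩
          obtain ⟨t, ht, c⟩ := h (s * s')
          have hm : t⁻¹ * (s * s') ∈ S ^ (3 * r) :=
            xfh_mono h1 (by omega) (xfh_mul_mem (xfh_inv_mem hs ht) (xfh_mul_mem hs1 hs2))
          have d := hc _ hm (by
            intro k hk
            rw [Pi.mul_apply, Pi.inv_apply, c k hk, inv_mul_cancel])
          rw [Pi.mul_apply, Pi.inv_apply, Pi.mul_apply] at d
          refine ⟨t, ht, fun k hk => ?_, ?_⟩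
          · rw [c k hk, Pi.mul_apply, Pi.mul_apply, a k hk, a' k hk]
          · rw [Pi.mul_apply]
            rcases xfh_pm_mul d with d | d <;> rcases b with b | b <;> rcases b' with b' | b' <;>
              rw [b, b'] <;> simp [d]
        inv_mem' := by
          rintro g ⟨s, hs1, a, b⟩
          refine ⟨s⁻¹, xfh_inv_mem hs hs1, fun k hk => ?_, ?_⟩
          · rw [Pi.inv_apply, Pi.inv_apply, a k hk]
          · rw [Pi.inv_apply, Pi.inv_apply]
            rcases b with b | b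
            · left
              rw [b]
            · right
              rw [b, xfh_neg_inv] }
    have hH : ∀ s ∈ S ^ r, s ∈ H := fun s hs1 => ⟨s, hs1, fun _ _ => rfl, Or.inl rfl⟩
    obtain ⟨k, hk, X, hX, e⟩ := goursat hq H J l (by
        intro w
        obtain ⟨s, hs1, a⟩ := h w
        exact ⟨s, hH s hs1, a⟩) (by
        intro w
        obtain ⟨s, hs1, a⟩ := h3 l w
        exact ⟨s, hH s (xfh_mono h1 hr hs1), a⟩) (by
        rintro g ⟨s, hs1, a, b⟩ hg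
        have d := hc s (xfh_mono h1 (by omega) hs1) fun k hk => (a k hk).symm.trans (hg k hk)
        rcases b with b | b <;> rcases d with d | d <;> rw [b, d] <;> simp)
    refine ⟨k, hk, X, hX, fun s hs1 => e s (hH s (xfh_mono h1 (m := 1) (by omega) ?_))⟩
    rw [pow_one]
    exact hs1
  · left
    intro w
    simp only [not_forall, not_or] at hc
    obtain ⟨g, hg, hgJ, g1, g2⟩ := hc
    obtain ⟨s, hs1, a⟩ := h w
    obtain ⟨L, hL, e⟩ := conj_sixteen hq g1 g2 ((s l)⁻¹ * w l)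
    obtain ⟨u, hu, b, c⟩ := xfh_list (l := l) hs h1 h3 hg hgJ L
    have hle : L.length * (3 * r + 6) ≤ 16 * (3 * r + 6) := Nat.mul_le_mul_right _ hL
    generalize 16 * (3 * r + 6) = n at hle
    refine ⟨s * u, xfh_mul_mem hs1 (xfh_mono h1 hle hu), fun k hk => ?_⟩
    rw [Pi.mul_apply]
    rcases mem_insert.1 hk with rfl | hk
    · rw [c, ← e, mul_inv_cancel_left]
    · rw [b k hk, mul_one, a k hk]

theorem agour (ι : Type) [Fintype ι] : ∃ r : ℕ, ∀ (q : ℕ) [Fact q.Prime], 5 < q →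
    ∀ S : Finset (ι → GQ q), 1 ∈ S → S⁻¹ = S → (∀ k w, ∃ s ∈ S ^ 3, s k = w) →
      S ^ r = univ ∨ ∃ k l, k ≠ l ∧ ∃ X : MQ q, X.det ≠ 0 ∧ ∀ s ∈ S, Cj X (s k) (s l) := by
  have key : ∀ J : Finset ι, ∃ r : ℕ, 3 ≤ r ∧ ∀ (q : ℕ) [Fact q.Prime], 5 < q →
      ∀ S : Finset (ι → GQ q), 1 ∈ S → S⁻¹ = S → (∀ k w, ∃ s ∈ S ^ 3, s k = w) →
        (∀ w : ι → GQ q, ∃ s ∈ S ^ r, ∀ k ∈ J, s k = w k) ∨
          ∃ k l, k ≠ l ∧ ∃ X : MQ q, X.det ≠ 0 ∧ ∀ s ∈ S, Cj X (s k) (s l) := by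
    intro J
    induction J using Finset.induction_on with
    | empty =>
      exact ⟨3, le_rfl, fun q _ _ S h1 _ _ => Or.inl fun _ =>
        ⟨1, Finset.one_mem_pow h1, fun k hk => absurd hk (Finset.notMem_empty k)⟩⟩
    | insert l J hl ih =>
      obtain ⟨r, hr, ih⟩ := ih
      refine ⟨r + 16 * (3 * r + 6), by omega, fun q _ hq S h1 hs h3 => ?_⟩
      rcases ih q hq S h1 hs h3 with h | h
      · rcases agour_step hq h1 hs h3 hl hr h with h' | ⟨k, hk, h'⟩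
        · exact Or.inl h'
        · exact Or.inr ⟨k, l, fun e => hl (e ▸ hk), h'⟩
      · exact Or.inr h
  obtain ⟨r, -, h⟩ := key univ
  refine ⟨r, fun q _ hq S h1 hs h3 => (h q hq S h1 hs h3).imp_left fun h' => ?_⟩
  refine Finset.eq_univ_iff_forall.2 fun w => ?_
  obtain ⟨s, hs1, e⟩ := h' w
  have : s = w := funext fun k => e k (mem_univ k)
  exact this ▸ hs1

end Pool.Agent.EQ
end
end

-- part Pool.Agent.P.MP_ad7a55_nt.XLb
section

/-! Lines modulo an integer. -/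

set_option autoImplicit false

noncomputable section

open Finset Matrix
open scoped MatrixGroups Classical

namespace Pool.Agent.EQ

/-- The line spanned by `v` modulo `n`. -/
def Ln (n : ℕ) (v : V2) : Set V2 := {w | (n : ℤ) ∣ dt v w}

/-- `L` is a line modulo `n`. -/
def IsLn (n : ℕ) (L : Set V2) : Prop := ∃ v : V2, IsCoprime (v 0) (v 1) ∧ L = Ln n v

/-- unimodular modulo `n` -/
def xlb_Pm (n : ℕ) (v : V2) : Prop := ∃ a b c : ℤ, a * v 0 + b * v 1 + c * n = 1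

theorem xlb_mem {n : ℕ} {v w : V2} : w ∈ Ln n v ↔ (n : ℤ) ∣ v 0 * w 1 - v 1 * w 0 := Iff.rfl

theorem xlb_ker {n : ℕ} {η : M2} {w : V2} : w ∈ Ker n η ↔
    (n : ℤ) ∣ η 0 0 * w 0 + η 0 1 * w 1 ∧ (n : ℤ) ∣ η 1 0 * w 0 + η 1 1 * w 1 := by
  simp [Ker, Fin.forall_fin_two, Matrix.mulVec, dotProduct, Fin.sum_univ_two]

theorem xlb_congr {n : ℕ} {v v' : V2} (h : ∀ i, (n : ℤ) ∣ v i - v' i) : Ln n v = Ln n v' := by
  ext w
  rw [xlb_mem, xlb_mem]
  refine dvd_iff_dvd_of_dvd_sub ?_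
  have e : v 0 * w 1 - v 1 * w 0 - (v' 0 * w 1 - v' 1 * w 0) =
      (v 0 - v' 0) * w 1 - (v 1 - v' 1) * w 0 := by ring
  rw [e]
  exact dvd_sub ((h 0).mul_right _) ((h 1).mul_right _)

theorem xlb_Pm.congr {n : ℕ} {v v' : V2} (hv : xlb_Pm n v) (h : ∀ i, (n : ℤ) ∣ v i - v' i) :
    xlb_Pm n v' := by
  obtain ⟨a, b, c, e⟩ := hv
  obtain ⟨x, hx⟩ := h 0
  obtain ⟨y, hy⟩ := h 1
  exact ⟨a, b, c + a * x + b * y, by linear_combination e - a * hx - b * hy⟩

theorem xlb_Pm.sub {n : ℕ} {v v' : V2} (hv : xlb_Pm n v) (h : v' ∈ Ln n v) : Ln n v ⊆ Ln n v' := by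
  obtain ⟨a, b, c, e⟩ := hv
  obtain ⟨x, hx⟩ := xlb_mem.1 h
  intro u hu
  obtain ⟨y, hy⟩ := xlb_mem.1 hu
  refine xlb_mem.2 ⟨(a * v' 0 + b * v' 1) * y - (a * u 0 + b * u 1) * x +
    c * (v' 0 * u 1 - v' 1 * u 0), ?_⟩
  linear_combination (a * v' 0 + b * v' 1) * hy - (a * u 0 + b * u 1) * hx -
    (v' 0 * u 1 - v' 1 * u 0) * e

theorem xlb_self (n : ℕ) (v : V2) : v ∈ Ln n v := xlb_mem.2 ⟨0, by ring⟩

theorem xlb_symm {n : ℕ} {v w : V2} (h : w ∈ Ln n v) : v ∈ Ln n w := by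
  obtain ⟨x, hx⟩ := xlb_mem.1 h
  exact xlb_mem.2 ⟨-x, by linear_combination -hx⟩

theorem xlb_Pm.eq {n : ℕ} {v v' : V2} (hv : xlb_Pm n v) (hv' : xlb_Pm n v') (h : v' ∈ Ln n v) :
    Ln n v = Ln n v' := (hv.sub h).antisymm (hv'.sub (xlb_symm h))

theorem xlb_of_cop (n : ℕ) {v : V2} (h : IsCoprime (v 0) (v 1)) : xlb_Pm n v := by
  obtain ⟨a, b, e⟩ := h
  exact ⟨a, b, 0, by linear_combination e⟩

theorem xlb_Pm.isLn {n : ℕ} {v : V2} (hv : xlb_Pm n v) (hn : 0 < n) : IsLn n (Ln n v) := by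
  obtain ⟨a, b, c, e⟩ := hv
  obtain ⟨γ, hγ⟩ := exists_lift_SL hn (W := !![v 0, -b; v 1, a])
    ⟨-c, by rw [Matrix.det_fin_two_of]; linear_combination e⟩
  have hd := γ.det_coe
  rw [Matrix.det_fin_two] at hd
  refine ⟨fun i => γ i 0, ⟨γ 1 1, -γ 0 1, by linear_combination hd⟩, (xlb_congr fun i => ?_).symm⟩
  fin_cases i
  · simpa using hγ 0 0
  · simpa using hγ 1 0

theorem xlb_of_primes {n : ℕ} {v : V2} (h : ∀ l : ℕ, l.Prime → l ∣ n → ∃ i, ¬ (l : ℤ) ∣ v i) :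
    xlb_Pm n v := by
  have h1 : (Int.gcd (v 0) (v 1)).Coprime n := by
    refine Nat.Coprime.symm (Nat.coprime_of_dvd fun l hl hln hg => ?_)
    obtain ⟨i, hi⟩ := h l hl hln
    have h2 : (l : ℤ) ∣ (Int.gcd (v 0) (v 1) : ℤ) := Int.natCast_dvd_natCast.2 hg
    refine hi ?_
    fin_cases i
    · exact h2.trans (Int.gcd_dvd_left _ _)
    · exact h2.trans (Int.gcd_dvd_right _ _)
  obtain ⟨s, t, e⟩ := Nat.isCoprime_iff_coprime.2 h1
  rw [Int.gcd_eq_gcd_ab] at e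
  exact ⟨s * Int.gcdA (v 0) (v 1), s * Int.gcdB (v 0) (v 1), t, by linear_combination e⟩

theorem xlb_solve {n : ℕ} (hn : 0 < n) {a : ℤ} (h : IsCoprime a n) (b : ℤ) :
    ∃ t : ℕ, t < n ∧ (n : ℤ) ∣ a * t - b := by
  obtain ⟨s, c, e⟩ := h
  have hn' : (0 : ℤ) < n := by exact_mod_cast hn
  have h0 := Int.emod_nonneg (s * b) hn'.ne'
  have h1 := Int.emod_lt_of_pos (s * b) hn'
  have h2 := Int.emod_add_mul_ediv (s * b) n
  refine ⟨(s * b % n).toNat, by omega, -(a * (s * b / n)) - c * b, ?_⟩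
  rw [Int.toNat_of_nonneg h0]
  linear_combination a * h2 + b * e

theorem finite_IsLn {n : ℕ} (hn : 0 < n) : {L | IsLn n L}.Finite := by
  refine ((Set.Finite.pi' fun _ : Fin 2 => Set.finite_Ico (0 : ℤ) n).image (Ln n)).subset ?_
  rintro L ⟨v, -, rfl⟩
  have hn' : (0 : ℤ) < n := by exact_mod_cast hn
  refine ⟨fun i => v i % n, fun i => ⟨Int.emod_nonneg _ hn'.ne', Int.emod_lt_of_pos _ hn'⟩,
    xlb_congr fun i => ⟨-(v i / n), ?_⟩⟩
  have := Int.emod_add_mul_ediv (v i) n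
  linarith

/-- The finite set of the lines modulo `n`. -/
def Xn (n : ℕ) : Finset (Set V2) := if h : 0 < n then (finite_IsLn h).toFinset else ∅

variable {n : ℕ} {η A : M2} {L : Set V2}

theorem mem_Xn (hn : 0 < n) : L ∈ Xn n ↔ IsLn n L := by
  rw [Xn, dif_pos hn, Set.Finite.mem_toFinset]
  rfl

theorem card_Xn {l : ℕ} (hl : l.Prime) {k : ℕ} (hk : 0 < k) :
    l ^ k ≤ #(Xn (l ^ k)) ∧ #(Xn (l ^ k)) * l ≤ l ^ k * (l + 1) := by
  have hn : 0 < l ^ k := pow_pos hl.pos k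
  have hp : Prime (l : ℤ) := Nat.prime_iff_prime_int.1 hl
  constructor
  · rw [← card_range (l ^ k)]
    conv_rhs => rw [card_range]
    refine card_le_card_of_injOn (fun t : ℕ => Ln (l ^ k) ![1, (t : ℤ)]) (fun t _ => ?_)
      fun t ht t' ht' e => ?_
    · exact mem_coe.2 ((mem_Xn hn).2 ⟨_, by simpa using isCoprime_one_left, rfl⟩)
    · have h1 : (![1, (t' : ℤ)] : V2) ∈ Ln (l ^ k) ![1, (t : ℤ)] := by
        have e' : Ln (l ^ k) ![1, (t : ℤ)] = Ln (l ^ k) ![1, (t' : ℤ)] := e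
        rw [e']
        exact xlb_self _ _
      have h2 : ((l ^ k : ℕ) : ℤ) ∣ (t' : ℤ) - t := by simpa using xlb_mem.1 h1
      have h3 : t < l ^ k := by simpa using ht
      have h4 : t' < l ^ k := by simpa using ht'
      have := Int.eq_zero_of_abs_lt_dvd h2 (abs_lt.2 ⟨by omega, by omega⟩)
      omega
  · obtain ⟨j, rfl⟩ := Nat.exists_eq_succ_of_ne_zero hk.ne'
    have hs : Xn (l ^ (j + 1)) ⊆
        (range (l ^ (j + 1))).image (fun t : ℕ => Ln (l ^ (j + 1)) ![1, (t : ℤ)]) ∪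
        (range (l ^ j)).image fun t : ℕ => Ln (l ^ (j + 1)) ![l * (t : ℤ), 1] := by
      intro L hL
      obtain ⟨v, hv, rfl⟩ := (mem_Xn hn).1 hL
      by_cases h0 : (l : ℤ) ∣ v 0
      · have h1 : ¬ (l : ℤ) ∣ v 1 := fun h1 => hp.not_isUnit (hv.isUnit_of_dvd' h0 h1)
        obtain ⟨m, hm⟩ := h0
        obtain ⟨t, ht, x, hx⟩ := xlb_solve (pow_pos hl.pos j) (a := v 1) (by
          push_cast
          exact ((hp.irreducible.coprime_iff_not_dvd).2 h1).symm.pow_right) m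
        refine mem_union_right _ (mem_image.2 ⟨t, mem_range.2 ht, ((xlb_of_cop _ hv).eq
          (xlb_of_cop _ (by simpa using isCoprime_one_right)) (xlb_mem.2 ⟨-x, ?_⟩)).symm⟩)
        simp only [Matrix.cons_val_zero, Matrix.cons_val_one]
        push_cast at hx ⊢
        linear_combination hm - l * hx
      · obtain ⟨t, ht, x, hx⟩ := xlb_solve hn (a := v 0) (by
          push_cast
          exact ((hp.irreducible.coprime_iff_not_dvd).2 h0).symm.pow_right) (v 1)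
        refine mem_union_left _ (mem_image.2 ⟨t, mem_range.2 ht, ((xlb_of_cop _ hv).eq
          (xlb_of_cop _ (by simpa using isCoprime_one_left)) (xlb_mem.2 ⟨x, ?_⟩)).symm⟩)
        simp only [Matrix.cons_val_zero, Matrix.cons_val_one]
        linear_combination hx
    have h1 := (card_le_card hs).trans ((card_union_le _ _).trans
      (add_le_add card_image_le card_image_le))
    rw [card_range, card_range] at h1
    refine (Nat.mul_le_mul_right l h1).trans (le_of_eq ?_)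
    rw [Nat.succ_eq_add_one]
    ring

theorem card_Xn_prime {l : ℕ} (hl : l.Prime) : #(Xn l) ≤ l + 1 := by
  have h := (card_Xn hl one_pos).2
  rw [pow_one, mul_comm l] at h
  exact Nat.le_of_mul_le_mul_right h hl.pos

theorem isLn_of_cop {v : V2} (h : ∀ l : ℕ, l.Prime → l ∣ n → ∃ i, ¬ (l : ℤ) ∣ v i) (hn : 0 < n) :
    IsLn n (Ln n v) := by
  exact (xlb_of_primes h).isLn hn

theorem IsLn.eq_of_le {L' : Set V2} (h : IsLn n L) (h' : IsLn n L') (hle : L ⊆ L') : L = L' := by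
  obtain ⟨v, -, rfl⟩ := h
  obtain ⟨v', hv', rfl⟩ := h'
  exact hle.antisymm ((xlb_of_cop n hv').sub (hle (xlb_self n v)))

theorem xlb_mat (h : IsLn n L) : ∃ η : M2, η.det = n ∧ Ker n η = L := by
  obtain ⟨v, ⟨a, b, e⟩, rfl⟩ := h
  refine ⟨!![v 1, -v 0; n * a, n * b], by rw [Matrix.det_fin_two_of]; linear_combination n * e, ?_⟩
  ext w
  rw [xlb_ker, xlb_mem]
  simp only [Matrix.of_apply, Matrix.cons_val', Matrix.cons_val_zero, Matrix.cons_val_one,
    Matrix.cons_val_fin_one]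
  constructor
  · rintro ⟨⟨x, hx⟩, -⟩
    exact ⟨-x, by linear_combination -hx⟩
  · rintro ⟨x, hx⟩
    exact ⟨⟨-x, by linear_combination -hx⟩, a * w 0 + b * w 1, by ring⟩

theorem IsLn.eq_Ker (h : IsLn n L) (hn : 0 < n) (hd : η.det = n) (hk : L ⊆ Ker n η) :
    Ker n η = L := by
  obtain ⟨η₀, h1, h2⟩ := xlb_mat h
  obtain ⟨γ, rfl⟩ := exists_SL_of_Ker hn h1 hd (h2 ▸ hk)
  rw [Ker_SL, h2]

theorem IsLn.exists_mat (h : IsLn n L) (hn : 0 < n) : ∃ η : M2, η.det = n ∧ Ker n η = L := by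
  exact xlb_mat h

theorem IsLn.exists_Cg (h : IsLn n L) (hn : 0 < n) {M : ℕ} (hM : 0 < M) {s : ℤ}
    (hs : IsCoprime s M) (hsn : (M : ℤ) ∣ n - s ^ 2) :
    ∃ η : M2, η.det = n ∧ Ker n η = L ∧ Cg M η s := by
  obtain ⟨η, h1, h2⟩ := xlb_mat h
  obtain ⟨γ, hγ⟩ := Pool.Agent.EQ.exists_Cg (η := η) hM hs (by rw [h1]; exact hsn)
  exact ⟨γ * η, by rw [Matrix.det_mul, γ.det_coe, one_mul, h1], by rw [Ker_SL, h2], hγ⟩

theorem xlb_comb (hn : 0 < n) {w w' : V2}
    (h : ∀ l : ℕ, l.Prime → l ∣ n → (∃ i, ¬ (l : ℤ) ∣ w i) ∨ ∃ i, ¬ (l : ℤ) ∣ w' i) :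
    ∃ y : ℤ, xlb_Pm n fun i => w i + y * w' i := by
  refine ⟨∏ l ∈ n.primeFactors.filter fun l : ℕ => ∃ i, ¬ (l : ℤ) ∣ w i, (l : ℤ),
    xlb_of_primes fun l hl hln => ?_⟩
  have hp : Prime (l : ℤ) := Nat.prime_iff_prime_int.1 hl
  by_cases h0 : ∃ i, ¬ (l : ℤ) ∣ w i
  · obtain ⟨i, hi⟩ := id h0
    refine ⟨i, fun hh => hi ((dvd_add_left (Dvd.dvd.mul_right ?_ _)).1 hh)⟩
    exact dvd_prod_of_mem _ (mem_filter.2 ⟨Nat.mem_primeFactors.2 ⟨hl, hln, hn.ne'⟩, h0⟩)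
  · obtain ⟨i, hi⟩ := (h l hl hln).resolve_left h0
    refine ⟨i, fun hh => ?_⟩
    have h1 : (l : ℤ) ∣ w i := by
      by_contra h2
      exact h0 ⟨i, h2⟩
    rcases hp.dvd_or_dvd ((dvd_add_right h1).1 hh) with h2 | h2
    · obtain ⟨l', hl', h3⟩ := (hp.dvd_finsetProd_iff _).1 h2
      obtain ⟨h4, h5⟩ := mem_filter.1 hl'
      obtain rfl := (Nat.prime_dvd_prime_iff_eq hl (Nat.prime_of_mem_primeFactors h4)).1
        (Int.natCast_dvd_natCast.1 h3)
      exact h0 h5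
    · exact hi h2

theorem xlb_isLn_Ker (hn : 0 < n) (hd : (n : ℤ) ∣ A.det)
    (h : ∀ l : ℕ, l.Prime → l ∣ n → ∃ i j, ¬ (l : ℤ) ∣ A i j) : IsLn n (Ker n A) := by
  obtain ⟨y, hy⟩ := xlb_comb hn (w := ![A 0 1, -A 0 0]) (w' := ![A 1 1, -A 1 0]) fun l hl hln => by
    obtain ⟨i, j, hij⟩ := h l hl hln
    fin_cases i <;> fin_cases j
    · exact Or.inl ⟨1, by simpa using hij⟩
    · exact Or.inl ⟨0, by simpa using hij⟩
    · exact Or.inr ⟨1, by simpa using hij⟩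
    · exact Or.inr ⟨0, by simpa using hij⟩
  rw [Matrix.det_fin_two] at hd
  obtain ⟨x, hx⟩ := hd
  have e : Ker n A = Ln n fun i => (![A 0 1, -A 0 0] : V2) i + y * (![A 1 1, -A 1 0] : V2) i := by
    ext u
    rw [xlb_ker]
    constructor
    · rintro ⟨⟨p, hp⟩, q, hq⟩
      refine xlb_mem.2 ⟨p + y * q, ?_⟩
      simp only [Matrix.cons_val_zero, Matrix.cons_val_one]
      linear_combination hp + y * hq
    · intro hu
      obtain ⟨p, hp⟩ := xlb_mem.1 (hy.sub (v' := ![A 0 1, -A 0 0]) (xlb_mem.2 ⟨-(y * x), by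
        simp only [Matrix.cons_val_zero, Matrix.cons_val_one]
        linear_combination -y * hx⟩) hu)
      obtain ⟨q, hq⟩ := xlb_mem.1 (hy.sub (v' := ![A 1 1, -A 1 0]) (xlb_mem.2 ⟨x, by
        simp only [Matrix.cons_val_zero, Matrix.cons_val_one]
        linear_combination hx⟩) hu)
      simp only [Matrix.cons_val_zero, Matrix.cons_val_one] at hp hq
      exact ⟨⟨p, by linear_combination hp⟩, q, by linear_combination hq⟩
  rw [e]
  exact hy.isLn hn

theorem isLn_Ker (hn : 0 < n) (hd : (n : ℤ) ∣ A.det) (ht : IsCoprime A.trace n) :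
    IsLn n (Ker n A) := by
  refine xlb_isLn_Ker hn hd fun l hl hln => ?_
  by_contra hh
  push Not at hh
  refine (Nat.prime_iff_prime_int.1 hl).not_isUnit
    (ht.isUnit_of_dvd' ?_ (Int.natCast_dvd_natCast.2 hln))
  rw [Matrix.trace_fin_two]
  exact dvd_add (hh 0 0) (hh 1 1)

theorem isLn_Ker_prime {l : ℕ} (hl : l.Prime) (hd : (l : ℤ) ∣ A.det)
    (h : ¬ (l : ℤ) ^ 2 ∣ A.det) : IsLn l (Ker l A) := by
  refine xlb_isLn_Ker hl.pos hd fun l' hl' hll => ?_
  obtain rfl := (Nat.prime_dvd_prime_iff_eq hl' hl).1 hll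
  by_contra hh
  push Not at hh
  refine h ?_
  rw [Matrix.det_fin_two, sq]
  exact dvd_sub (mul_dvd_mul (hh 0 0) (hh 1 1)) (mul_dvd_mul (hh 0 1) (hh 1 0))

theorem xlb_mv (η : M2) (u : V2) (i : Fin 2) : (η *ᵥ u) i = η i 0 * u 0 + η i 1 * u 1 := by
  simp [Matrix.mulVec, dotProduct, Fin.sum_univ_two]

theorem IsLn.pull (h : IsLn n L) (hn : 0 < n) (hc : IsCoprime η.det n) :
    IsLn n {v | η *ᵥ v ∈ L} := by
  obtain ⟨v, ⟨a, b, e⟩, rfl⟩ := h
  obtain ⟨s, t, e'⟩ := hc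
  rw [Matrix.det_fin_two] at e'
  have h1 : {u | η *ᵥ u ∈ Ln n v} =
      Ln n ![η 1 1 * v 0 - η 0 1 * v 1, η 0 0 * v 1 - η 1 0 * v 0] := by
    ext u
    show η *ᵥ u ∈ Ln n v ↔ _
    rw [xlb_mem, xlb_mem, xlb_mv, xlb_mv]
    simp only [Matrix.cons_val_zero, Matrix.cons_val_one]
    refine iff_of_eq (congrArg _ ?_)
    ring
  rw [h1]
  refine xlb_Pm.isLn ⟨s * (a * η 0 0 + b * η 1 0), s * (a * η 0 1 + b * η 1 1), t, ?_⟩ hn
  simp only [Matrix.cons_val_zero, Matrix.cons_val_one]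
  linear_combination e' + s * (η 0 0 * η 1 1 - η 0 1 * η 1 0) * e

theorem sum_Xn_pull (hn : 0 < n) (hc : IsCoprime η.det n) (G : Set V2 → ℝ) :
    ∑ L ∈ Xn n, G {v | η *ᵥ v ∈ L} = ∑ L ∈ Xn n, G L := by
  have hi : Set.InjOn (fun L : Set V2 => {v | η *ᵥ v ∈ L}) (Xn n) := by
    intro L hL L' hL' e
    have hL1 := (mem_Xn hn).1 (mem_coe.1 hL)
    have hL2 := (mem_Xn hn).1 (mem_coe.1 hL')
    refine hL1.eq_of_le hL2 fun u hu => ?_
    obtain ⟨v, -, rfl⟩ := hL1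
    obtain ⟨v', -, rfl⟩ := hL2
    have key : ∀ w : V2, η *ᵥ ![η 1 1 * u 0 - η 0 1 * u 1, η 0 0 * u 1 - η 1 0 * u 0] ∈ Ln n w ↔
        u ∈ Ln n w := fun w => by
      have h1 : (n : ℤ) ∣ η.det * (w 0 * u 1 - w 1 * u 0) ↔ (n : ℤ) ∣ w 0 * u 1 - w 1 * u 0 :=
        ⟨hc.symm.dvd_of_dvd_mul_left, fun h => h.mul_left _⟩
      rw [xlb_mem, xlb_mem, xlb_mv, xlb_mv, ← h1, Matrix.det_fin_two]
      simp only [Matrix.cons_val_zero, Matrix.cons_val_one]
      refine iff_of_eq (congrArg _ ?_)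
      ring
    exact (key v').1 ((Set.ext_iff.1 e _).1 ((key v).2 hu))
  have he : (Xn n).image (fun L : Set V2 => {v | η *ᵥ v ∈ L}) = Xn n := by
    refine eq_of_subset_of_card_le (fun L hL => ?_) (card_image_of_injOn hi).ge
    obtain ⟨L', hL', rfl⟩ := mem_image.1 hL
    exact (mem_Xn hn).2 (((mem_Xn hn).1 hL').pull hn hc)
  conv_rhs => rw [← he, sum_image hi]

theorem IsLn.inter {a b : ℕ} (hab : a.Coprime b) (ha : 0 < a) (hb : 0 < b) {L' : Set V2}
    (h : IsLn a L) (h' : IsLn b L') : IsLn (a * b) (L ∩ L') := by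
  obtain ⟨v, hv, rfl⟩ := h
  obtain ⟨v', hv', rfl⟩ := h'
  have hc : IsCoprime (a : ℤ) b := Nat.isCoprime_iff_coprime.2 hab
  obtain ⟨s, t, e⟩ := id hc
  let w : V2 := fun i => t * b * v i + s * a * v' i
  have h1 : ∀ i, (a : ℤ) ∣ v i - w i := fun i =>
    ⟨s * (v i - v' i), by simp only [w]; linear_combination -(v i) * e⟩
  have h2 : ∀ i, (b : ℤ) ∣ v' i - w i := fun i =>
    ⟨t * (v' i - v i), by simp only [w]; linear_combination -(v' i) * e⟩
  have h3 : Ln a w ∩ Ln b w = Ln (a * b) w := by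
    ext u
    rw [Set.mem_inter_iff, xlb_mem, xlb_mem, xlb_mem, Nat.cast_mul]
    exact ⟨fun h => hc.mul_dvd h.1 h.2,
      fun h => ⟨(dvd_mul_right _ _).trans h, (dvd_mul_left _ _).trans h⟩⟩
  rw [xlb_congr h1, xlb_congr h2, h3]
  obtain ⟨p, q, r, e1⟩ := (xlb_of_cop a hv).congr h1
  obtain ⟨p', q', r', e2⟩ := (xlb_of_cop b hv').congr h2
  refine xlb_Pm.isLn ⟨p + r * a * p', q + r * a * q', r * r', ?_⟩ (Nat.mul_pos ha hb)
  push_cast
  linear_combination e1 + r * a * e2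

theorem IsLn.prim (h : IsLn n (Ker n η)) (hn : 0 < n) {l : ℕ} (hl : l.Prime) (hln : l ∣ n) :
    ∃ i j, ¬ (l : ℤ) ∣ η i j := by
  obtain ⟨v, ⟨a, b, e⟩, hv⟩ := h
  obtain ⟨m, rfl⟩ := hln
  by_contra hh
  push Not at hh
  have h1 : (![-(m * b), m * a] : V2) ∈ Ker (l * m) η := by
    rw [xlb_ker]
    simp only [Matrix.cons_val_zero, Matrix.cons_val_one, Nat.cast_mul]
    exact ⟨dvd_add (mul_dvd_mul (hh 0 0) (dvd_mul_right _ _).neg_right)
        (mul_dvd_mul (hh 0 1) (dvd_mul_right _ _)),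
      dvd_add (mul_dvd_mul (hh 1 0) (dvd_mul_right _ _).neg_right)
        (mul_dvd_mul (hh 1 1) (dvd_mul_right _ _))⟩
  rw [hv, xlb_mem] at h1
  simp only [Matrix.cons_val_zero, Matrix.cons_val_one] at h1
  have e1 : v 0 * (m * a) - v 1 * -(m * b) = ((1 * m : ℕ) : ℤ) := by
    push_cast
    linear_combination (m : ℤ) * e
  rw [e1, Int.natCast_dvd_natCast] at h1
  exact hl.one_lt.ne' (Nat.dvd_one.1 (Nat.dvd_of_mul_dvd_mul_right (Nat.pos_of_mul_pos_left hn) h1))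

theorem Ker_step {n' : ℕ} {η' A' : M2} (hn : 0 < n) (h : η * A = A' * η)
    (hk : Ker n A ⊆ Ker n η) (hk' : Ker n' A' ⊆ Ker n' η') :
    Ker (n * n') A ⊆ Ker (n * n') (η' * η) := by
  intro v hv
  have hn' : (n : ℤ) ≠ 0 := by exact_mod_cast hn.ne'
  choose u hu using hk (Ker_anti (dvd_mul_right n n') A hv)
  choose z hz using hv
  have e1 : η *ᵥ v = (n : ℤ) • u := funext hu
  have e2 : A *ᵥ v = ((n * n' : ℕ) : ℤ) • z := funext hz
  have e3 : (n : ℤ) • (A' *ᵥ u) = ((n * n' : ℕ) : ℤ) • (η *ᵥ z) := by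
    rw [← Matrix.mulVec_smul, ← Matrix.mulVec_smul, ← e1, ← e2, Matrix.mulVec_mulVec,
      Matrix.mulVec_mulVec, h]
  have h1 : u ∈ Ker n' A' := fun i => ⟨(η *ᵥ z) i, mul_left_cancel₀ hn' (by
    have := congrFun e3 i
    simp only [Pi.smul_apply, smul_eq_mul, Nat.cast_mul] at this
    rw [this, mul_assoc])⟩
  intro i
  rw [← Matrix.mulVec_mulVec, e1, Matrix.mulVec_smul, Nat.cast_mul]
  exact mul_dvd_mul_left _ (hk' h1 i)

end Pool.Agent.EQ
end
end

-- part Pool.Agent.P.MP_ad7a55_nt.YGd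
section

/-! More finite probability. -/

set_option autoImplicit false

noncomputable section

open Finset
open scoped Classical

namespace Pool.Agent.EQ

variable {α β Λ : Type}

theorem ygd_pb (O : Finset α) (p : α → Prop) [DecidablePred p] :
    prb O p = (#{z ∈ O | p z} : ℝ) / #O := by
  unfold prb
  congr

theorem mn_prod (O : Finset α) (U : Finset β) (G : α × β → ℝ) :
    mn (O ×ˢ U) G = mn O fun x => mn U fun u => G (x, u) := by
  unfold mn
  rw [sum_product, card_product, ← sum_div, div_div, Nat.cast_mul, mul_comm]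

theorem prb_prod (O : Finset α) (U : Finset β) (p : α × β → Prop) :
    prb (O ×ˢ U) p = mn O fun x => prb U fun u => p (x, u) := by
  rw [pb_eq, mn_prod]
  exact congrArg _ (funext fun x => (pb_eq U fun u => p (x, u)).symm)

theorem sq_mn_le (O : Finset α) (G : α → ℝ) : mn O G ^ 2 ≤ mn O fun x => G x ^ 2 := by
  unfold mn
  rcases (Nat.cast_nonneg (α := ℝ) #O).eq_or_lt with h0 | h0
  · rw [← h0]
    simp
  · rw [div_pow, div_le_div_iff₀ (by positivity) h0]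
    have h := sq_sum_le_card_mul_sum_sq (s := O) (f := G)
    nlinarith [mul_le_mul_of_nonneg_right h h0.le]

theorem sq_prb (U : Finset β) (p : β → Prop) :
    prb U p ^ 2 = prb (U ×ˢ U) fun z => p z.1 ∧ p z.2 := by
  have e : ({z ∈ U ×ˢ U | p z.1 ∧ p z.2} : Finset (β × β)) = {x ∈ U | p x} ×ˢ {x ∈ U | p x} := by
    ext z
    simp only [mem_filter, mem_product]
    tauto
  rw [ygd_pb, ygd_pb, e, card_product, card_product, div_pow, sq, sq]
  push_cast
  rfl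

theorem exists_mn_le {O : Finset α} (hO : O.Nonempty) (G : α → ℝ) : ∃ x ∈ O, mn O G ≤ G x := by
  by_contra hc
  push Not at hc
  have h1 : mn O G < mn O fun _ => mn O G := by
    have h0 : (0 : ℝ) < #O := by exact_mod_cast hO.card_pos
    exact div_lt_div_of_pos_right (sum_lt_sum_of_nonempty hO hc) h0
  rw [mn_const hO] at h1
  exact lt_irrefl _ h1

theorem big_fibre {V : Finset α} (hV : V.Nonempty) (lab : α → Λ) (T : Finset Λ)
    (h : ∀ w ∈ V, lab w ∈ T) : ∃ a ∈ T, #V ≤ #T * #{w ∈ V | lab w = a} := by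
  obtain ⟨w, hw⟩ := hV
  obtain ⟨a, ha, hm⟩ := exists_max_image T (fun a => #{w ∈ V | lab w = a}) ⟨_, h w hw⟩
  refine ⟨a, ha, ?_⟩
  rw [card_eq_sum_card_fiberwise (f := lab) (t := T) fun w hw => h w hw]
  exact sum_le_card_nsmul _ _ _ hm

theorem mn_update {κ : Type} [Fintype κ] (X : κ → Finset α) (j : κ) (hX : (X j).Nonempty)
    (G : (κ → α) → ℝ) : mn (Fintype.piFinset X) G =
      mn (Fintype.piFinset X) fun t => mn (X j) fun a => G (Function.update t j a) := by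
  have h1 := mn_prod (Fintype.piFinset X) (X j) fun z => G (Function.update z.1 j z.2)
  have h2 := mn_perm (O := Fintype.piFinset X ×ˢ X j)
    (π := fun z => (Function.update z.1 j z.2, z.1 j)) (fun z hz => by
      obtain ⟨a1, a2⟩ := mem_product.1 hz
      have a3 := Fintype.mem_piFinset.1 a1
      refine mem_product.2 ⟨Fintype.mem_piFinset.2 fun i => ?_, a3 j⟩
      by_cases hi : i = j
      · subst hi
        simpa using a2
      · simpa [Function.update_of_ne hi] using a3 i)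
    (fun z _ z' _ hz => by
      have a1 := congrArg Prod.fst hz
      have a2 := congrArg Prod.snd hz
      simp only at a1 a2
      refine Prod.ext (funext fun i => ?_) ?_
      · by_cases hi : i = j
        · rw [hi]
          exact a2
        · have := congrFun a1 i
          rwa [Function.update_of_ne hi, Function.update_of_ne hi] at this
      · have := congrFun a1 j
        rwa [Function.update_self, Function.update_self] at this)
    fun z => G z.1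
  have h3 := mn_prod (Fintype.piFinset X) (X j) fun z => G z.1
  simp only [mn_const hX] at h3
  exact h3.symm.trans (h2.symm.trans h1)

theorem mn_pow {σ : Type} [Fintype σ] (Y : σ → ℝ) (m : ℕ) :
    mn univ Y ^ m = mn (univ : Finset (Fin m → σ)) fun t => ∏ i, Y (t i) := by
  have h := xec_prod (fun _ : Fin m => (univ : Finset σ)) fun _ => Y
  rw [Fintype.piFinset_univ, prod_const, card_univ, Fintype.card_fin] at h
  exact h.symm

theorem few_single (σ : Type) [Fintype σ] [Nonempty σ] (r : ℕ) :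
    prb (univ : Finset (Fin (2 * r) → σ)) (fun S => ¬ ∃ i₀, ∀ i, i ≠ i₀ → S i ≠ S i₀) ≤
      ((r : ℝ) ^ 2 / Fintype.card σ) ^ r := by
  have hσ : (0 : ℝ) < Fintype.card σ := by exact_mod_cast Fintype.card_pos
  have h1 : ({S ∈ (univ : Finset (Fin (2 * r) → σ)) | ¬ ∃ i₀, ∀ i, i ≠ i₀ → S i ≠ S i₀} :
      Finset (Fin (2 * r) → σ)) ⊆
      (univ : Finset ((Fin r → σ) × (Fin (2 * r) → Fin r))).image fun z => z.1 ∘ z.2 := by
    intro S hS
    have h2 := (mem_filter.1 hS).2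
    push Not at h2
    have h3 : 2 * #(univ.image S) ≤ #(univ : Finset (Fin (2 * r))) := by
      refine mul_card_image_le_card _ _ fun b hb => ?_
      obtain ⟨i₀, -, rfl⟩ := mem_image.1 hb
      obtain ⟨i, hi, hs⟩ := h2 i₀
      exact one_lt_card.2 ⟨i, mem_filter.2 ⟨mem_univ _, hs⟩, i₀,
        mem_filter.2 ⟨mem_univ _, rfl⟩, hi⟩
    rw [card_univ, Fintype.card_fin] at h3
    have h4 : Fintype.card (univ.image S) ≤ Fintype.card (Fin r) := by
      rw [Fintype.card_coe, Fintype.card_fin]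
      omega
    obtain ⟨f⟩ := Function.Embedding.nonempty_of_card_le h4
    refine mem_image.2 ⟨(Function.extend f Subtype.val fun _ => Classical.arbitrary σ,
      fun i => f ⟨S i, mem_image_of_mem S (mem_univ i)⟩), mem_univ _, funext fun i => ?_⟩
    exact f.injective.extend_apply Subtype.val (fun _ => Classical.arbitrary σ)
      ⟨S i, mem_image_of_mem S (mem_univ i)⟩
  have h5 := (card_le_card h1).trans card_image_le
  rw [card_univ, Fintype.card_prod, Fintype.card_fun, Fintype.card_fun, Fintype.card_fin,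
    Fintype.card_fin] at h5
  have h6 : (#{S ∈ (univ : Finset (Fin (2 * r) → σ)) | ¬ ∃ i₀, ∀ i, i ≠ i₀ → S i ≠ S i₀} : ℝ) ≤
      (Fintype.card σ : ℝ) ^ r * (r : ℝ) ^ (2 * r) := by exact_mod_cast h5
  rw [ygd_pb, card_univ, Fintype.card_fun, Fintype.card_fin]
  push_cast
  rw [div_le_iff₀ (by positivity)]
  refine h6.trans (le_of_eq ?_)
  rw [div_pow, ← pow_mul, two_mul, pow_add (Fintype.card σ : ℝ)]
  field_simp

theorem fib_tuples {𝔅 : Type} [Fintype 𝔅] (A : Finset α) (V : α → Finset 𝔅) {B : Finset ℕ}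
    (W : ℕ → α → Finset 𝔅) {e v : ℝ} (he : 0 < e) (hv : 0 ≤ v) (hB : B.Nonempty) {r : ℕ}
    (hr : 0 < r) (h1 : ∀ q ∈ B, ∀ a ∈ A, W q a ⊆ V a)
    (h2 : ∀ q ∈ B, e * ∑ a ∈ A, (#(V a) : ℝ) ≤ ∑ a ∈ A, (#(W q a) : ℝ))
    (h3 : v * #A * Fintype.card 𝔅 ≤ ∑ a ∈ A, (#(V a) : ℝ)) :
    ((e / 8) ^ 2 * v) ^ r * #A * (Fintype.card 𝔅 : ℝ) ^ r ≤
      #{z ∈ A ×ˢ (univ : Finset (Fin r → 𝔅)) | (∀ i, z.2 i ∈ V z.1) ∧
        (e / 8) ^ (r + 1) / 2 * #B ≤ #{q ∈ B | ∀ i, z.2 i ∈ W q z.1}} := by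
  have hB0 : (0 : ℝ) < #B := by exact_mod_cast hB.card_pos
  obtain ⟨k, rfl⟩ : ∃ k, r = k + 1 := ⟨r - 1, by omega⟩
  set N : ℝ := (Fintype.card 𝔅 : ℝ) with hN
  have hN0 : 0 ≤ N := Nat.cast_nonneg _
  set c : ℝ := e / 4 * v * N with hc
  have hc0 : 0 ≤ c := by positivity
  let Gd : α → Prop := fun a => c ≤ #(V a) ∧ e / 4 * #B * #(V a) ≤ ∑ q ∈ B, (#(W q a) : ℝ)
  have g1 : ∀ a ∈ A, ∑ q ∈ B, (#(W q a) : ℝ) ≤
      #B * ((if Gd a then (#(V a) : ℝ) else 0) + c + e / 4 * #(V a)) := fun a ha => by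
    have b1 : ∑ q ∈ B, (#(W q a) : ℝ) ≤ #B * #(V a) := by
      rw [← nsmul_eq_mul]
      exact sum_le_card_nsmul _ _ _ fun q hq => by exact_mod_cast card_le_card (h1 q hq a ha)
    have b2 : (0 : ℝ) ≤ #(V a) := Nat.cast_nonneg _
    have b3 : 0 ≤ (#B : ℝ) * c := by positivity
    have b4 : 0 ≤ (#B : ℝ) * (e / 4 * #(V a)) := by positivity
    by_cases hg : Gd a
    · rw [if_pos hg]
      nlinarith
    · rw [if_neg hg]
      rcases not_and_or.1 hg with b5 | b5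
      · nlinarith [mul_le_mul_of_nonneg_left (not_le.1 b5).le hB0.le]
      · nlinarith [not_le.1 b5]
  have g2 : #B * (e * ∑ a ∈ A, (#(V a) : ℝ)) ≤ ∑ a ∈ A, ∑ q ∈ B, (#(W q a) : ℝ) := by
    rw [sum_comm, ← nsmul_eq_mul]
    exact card_nsmul_le_sum _ _ _ h2
  have g3 := g2.trans (sum_le_sum g1)
  rw [← mul_sum, sum_add_distrib, sum_add_distrib, sum_const, nsmul_eq_mul, ← mul_sum] at g3
  have g4 := le_of_mul_le_mul_left g3 hB0
  have g5 : 2 * (c * #A) ≤ ∑ a ∈ A, if Gd a then (#(V a) : ℝ) else 0 := by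
    have b1 : c * #A ≤ e / 4 * ∑ a ∈ A, (#(V a) : ℝ) := by
      have := mul_le_mul_of_nonneg_left h3 (show 0 ≤ e / 4 by positivity)
      rw [hc]
      linarith
    linarith
  have g6 : ∀ a ∈ A, (e / 8) ^ (k + 1) / 2 * c ^ k * (if Gd a then (#(V a) : ℝ) else 0) ≤
      #{t ∈ (univ : Finset (Fin (k + 1) → 𝔅)) | (∀ i, t i ∈ V a) ∧
        (e / 8) ^ (k + 1 + 1) / 2 * #B ≤ #{q ∈ B | ∀ i, t i ∈ W q a}} := fun a ha => by
    by_cases hg : Gd a
    swap
    · rw [if_neg hg, mul_zero]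
      positivity
    rw [if_pos hg]
    rcases (Nat.cast_nonneg (α := ℝ) #(V a)).eq_or_lt with h0 | h0
    · rw [← h0, mul_zero]
      positivity
    let Ba : Finset ℕ := {q ∈ B | e / 8 * #(V a) ≤ (#(W q a) : ℝ)}
    have b1 : e / 8 * #B ≤ #Ba := by
      have c1 : ∑ q ∈ B, (#(W q a) : ℝ) ≤
          ∑ q ∈ B, ((if e / 8 * #(V a) ≤ (#(W q a) : ℝ) then (1 : ℝ) else 0) * #(V a) +
            e / 8 * #(V a)) := sum_le_sum fun q hq => by
        have d1 : (#(W q a) : ℝ) ≤ #(V a) := by exact_mod_cast card_le_card (h1 q hq a ha)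
        have d2 : 0 ≤ e / 8 * #(V a) := by positivity
        split_ifs with hh
        · linarith
        · linarith [not_le.1 hh]
      rw [sum_add_distrib, ← sum_mul, sum_boole, sum_const, nsmul_eq_mul] at c1
      refine le_of_mul_le_mul_right ?_ h0
      have c2 := hg.2
      change e / 8 * #B * #(V a) ≤ (#{q ∈ B | e / 8 * #(V a) ≤ (#(W q a) : ℝ)} : ℝ) * #(V a)
      linarith
    have b2 : Ba.Nonempty := by
      have : (0 : ℝ) < #Ba := lt_of_lt_of_le (by positivity) b1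
      exact card_pos.1 (by exact_mod_cast this)
    have b3 := tuples (V a) Ba (fun q => W q a) (e := e / 8) (by positivity)
      (fun q hq => ⟨h1 q (mem_filter.1 hq).1 a ha, (mem_filter.1 hq).2⟩) b2 (k + 1)
    have b4 : (e / 8) ^ (k + 1) / 2 * c ^ k * #(V a) ≤
        (e / 8) ^ (k + 1) / 2 * (#(V a) : ℝ) ^ (k + 1) := by
      rw [mul_assoc, pow_succ (#(V a) : ℝ)]
      exact mul_le_mul_of_nonneg_left (mul_le_mul_of_nonneg_right
        (pow_le_pow_left₀ hc0 hg.1 k) h0.le) (by positivity)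
    refine b4.trans (b3.trans (Nat.cast_le.2 (card_le_card fun t ht => ?_)))
    obtain ⟨d1, d2⟩ := mem_filter.1 ht
    refine mem_filter.2 ⟨mem_univ _, Fintype.mem_piFinset.1 d1, le_trans ?_ (d2.trans ?_)⟩
    · have := mul_le_mul_of_nonneg_left b1 (show 0 ≤ (e / 8) ^ (k + 1) / 2 by positivity)
      rw [pow_succ (e / 8) (k + 1)]
      linarith
    · refine Nat.cast_le.2 (card_le_card fun q hq => ?_)
      obtain ⟨d3, d4⟩ := mem_filter.1 hq
      exact mem_filter.2 ⟨(mem_filter.1 d3).1, d4⟩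
  have g7 := sum_le_sum g6
  rw [← mul_sum] at g7
  have g8 : (#{z ∈ A ×ˢ (univ : Finset (Fin (k + 1) → 𝔅)) | (∀ i, z.2 i ∈ V z.1) ∧
        (e / 8) ^ (k + 1 + 1) / 2 * #B ≤ #{q ∈ B | ∀ i, z.2 i ∈ W q z.1}} : ℝ) =
      ∑ a ∈ A, (#{t ∈ (univ : Finset (Fin (k + 1) → 𝔅)) | (∀ i, t i ∈ V a) ∧
        (e / 8) ^ (k + 1 + 1) / 2 * #B ≤ #{q ∈ B | ∀ i, t i ∈ W q a}} : ℝ) := by
    rw [card_filter, sum_product, Nat.cast_sum]
    exact sum_congr rfl fun a _ => by rw [card_filter]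
  rw [g8]
  refine le_trans ?_ ((mul_le_mul_of_nonneg_left g5 (by positivity)).trans g7)
  have g9 : (e / 8 * v * N) ^ (k + 1) ≤ c ^ (k + 1) :=
    pow_le_pow_left₀ (by positivity) (by
      rw [hc]
      have : 0 ≤ e * v * N := by positivity
      linarith) _
  have g10 := mul_le_mul_of_nonneg_left g9
    (show 0 ≤ (e / 8) ^ (k + 1) * (#A : ℝ) by positivity)
  calc ((e / 8) ^ 2 * v) ^ (k + 1) * #A * N ^ (k + 1)
      = (e / 8) ^ (k + 1) * #A * (e / 8 * v * N) ^ (k + 1) := by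
        rw [sq, mul_assoc (e / 8), mul_pow, mul_pow _ N]
        ring
    _ ≤ (e / 8) ^ (k + 1) * #A * c ^ (k + 1) := g10
    _ = _ := by ring

theorem few_corr6 {S : Finset β} (X T : Finset α) (hT : T ⊆ X) (w : β → ℝ) (f : α → β → ℝ)
    {t e s : ℝ} (ht : 0 < t) (hs : 0 ≤ s) (hw : ∀ i, |w i| ≤ 1) (hf : ∀ a ∈ T, ∀ i, |f a i| ≤ 1)
    (h1 : ∀ a ∈ T, t ≤ |mn S fun i => w i * f a i|)
    (h2 : prb X.offDiag (fun z => e < |mn S fun i => f z.1 i * f z.2 i|) ≤ s)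
    (he : 2 * e ≤ t ^ 2) : (#T : ℝ) ≤ 4 / t ^ 2 + 2 * Real.sqrt s * #X / t := by
  have hs' : ∀ x : ℝ, ∃ s : ℝ, |s| ≤ 1 ∧ s * x = |x| := fun x => by
    rcases le_total 0 x with h | h
    · exact ⟨1, by simp, by rw [one_mul, abs_of_nonneg h]⟩
    · exact ⟨-1, by simp, by rw [neg_one_mul, abs_of_nonpos h]⟩
  choose g hs1 hs2 using fun a => hs' (mn S fun i => w i * f a i)
  have a1 : #T * t ≤ mn S fun i => w i * ∑ a ∈ T, g a * f a i := by
    have e1 : (mn S fun i => w i * ∑ a ∈ T, g a * f a i) =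
        ∑ a ∈ T, g a * mn S fun i => w i * f a i := by
      simp only [← mn_mul]
      rw [← mn_sum]
      refine congrArg _ (funext fun i => ?_)
      rw [mul_sum]
      exact sum_congr rfl fun a _ => by ring
    rw [e1, ← nsmul_eq_mul]
    exact card_nsmul_le_sum _ _ _ fun a ha => (h1 a ha).trans (hs2 a).ge
  have a2 : (mn S fun i => (w i * ∑ a ∈ T, g a * f a i) ^ 2) ≤
      mn S fun i => (∑ a ∈ T, g a * f a i) ^ 2 := mn_mono fun i _ => by
    rw [mul_pow]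
    exact mul_le_of_le_one_left (sq_nonneg _) ((sq_le_one_iff_abs_le_one _).2 (hw i))
  have a3 : (mn S fun i => (∑ a ∈ T, g a * f a i) ^ 2) =
      ∑ z ∈ T ×ˢ T, g z.1 * g z.2 * mn S fun i => f z.1 i * f z.2 i := by
    simp only [← mn_mul]
    rw [← mn_sum]
    refine congrArg _ (funext fun i => ?_)
    rw [sq, sum_mul_sum, sum_product]
    exact sum_congr rfl fun a _ => sum_congr rfl fun a' _ => by ring
  let Bd : Finset (α × α) := {z ∈ X.offDiag | e < |mn S fun i => f z.1 i * f z.2 i|}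
  have a4 : ∀ z ∈ T ×ˢ T, g z.1 * g z.2 * (mn S fun i => f z.1 i * f z.2 i) ≤
      (if z.1 = z.2 then (1 : ℝ) else 0) + t ^ 2 / 2 + if z ∈ Bd then 1 else 0 := fun z hz => by
    obtain ⟨ha, ha'⟩ := mem_product.1 hz
    have c1 : g z.1 * g z.2 * (mn S fun i => f z.1 i * f z.2 i) ≤
        |mn S fun i => f z.1 i * f z.2 i| := by
      refine (le_abs_self _).trans ?_
      rw [abs_mul, abs_mul]
      exact mul_le_of_le_one_left (abs_nonneg _) (mul_le_one₀ (hs1 _) (abs_nonneg _) (hs1 _))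
    have c2 : |mn S fun i => f z.1 i * f z.2 i| ≤ 1 := by
      refine (abs_mn_le _ _).trans ?_
      rcases S.eq_empty_or_nonempty with rfl | hS
      · simp [mn]
      · refine le_trans (mn_mono fun i _ => ?_) (mn_const hS 1).le
        rw [abs_mul]
        exact mul_le_one₀ (hf _ ha i) (abs_nonneg _) (hf _ ha' i)
    have c3 : 0 ≤ t ^ 2 / 2 := by positivity
    refine c1.trans ?_
    by_cases h5 : z.1 = z.2
    · rw [if_pos h5]
      split_ifs <;> linarith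
    · rw [if_neg h5]
      by_cases h6 : z ∈ Bd
      · rw [if_pos h6]
        linarith
      · rw [if_neg h6]
        have c4 : |mn S fun i => f z.1 i * f z.2 i| ≤ e := not_lt.1 fun hh =>
          h6 (mem_filter.2 ⟨mem_offDiag.2 ⟨hT ha, hT ha', h5⟩, hh⟩)
        linarith
  have a5 : ∑ z ∈ T ×ˢ T, (if z.1 = z.2 then (1 : ℝ) else 0) = #T := by
    rw [sum_product]
    rw [sum_congr rfl fun a ha => (sum_ite_eq T a fun _ => (1 : ℝ)).trans (if_pos ha)]
    simp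
  have a6 : ∑ z ∈ T ×ˢ T, (if z ∈ Bd then (1 : ℝ) else 0) ≤ s * (#X : ℝ) ^ 2 := by
    rw [sum_boole]
    have c1 : (#{z ∈ T ×ˢ T | z ∈ Bd} : ℝ) ≤ #Bd :=
      Nat.cast_le.2 (card_le_card fun z hz => (mem_filter.1 hz).2)
    have c2 : (#X.offDiag : ℝ) ≤ (#X : ℝ) ^ 2 := by
      rw [sq, ← Nat.cast_mul, Nat.cast_le, offDiag_card]
      exact Nat.sub_le _ _
    have c3 : (#Bd : ℝ) ≤ s * #X.offDiag := by
      rcases (Nat.cast_nonneg (α := ℝ) #X.offDiag).eq_or_lt with h0 | h0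
      · rw [← h0, mul_zero, h0]
        exact Nat.cast_le.2 (card_filter_le _ _)
      · rw [ygd_pb, div_le_iff₀ h0] at h2
        exact h2
    exact c1.trans (c3.trans (mul_le_mul_of_nonneg_left c2 hs))
  have a7 := sum_le_sum a4
  rw [sum_add_distrib, sum_add_distrib, a5, sum_const, card_product, nsmul_eq_mul,
    Nat.cast_mul, ← a3] at a7
  have a8 : (#T * t) ^ 2 ≤ #T + #T * #T * (t ^ 2 / 2) + s * (#X : ℝ) ^ 2 :=
    (pow_le_pow_left₀ (by positivity) a1 2).trans ((sq_mn_le _ _).trans (a2.trans (by linarith)))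
  by_contra hc
  have hc' := not_le.1 hc
  have b1 : 0 ≤ 2 * Real.sqrt s * #X / t := by positivity
  have b2 : 0 < 4 / t ^ 2 := by positivity
  have b3 : 4 < #T * t ^ 2 := (div_lt_iff₀ (by positivity)).1 (by linarith)
  have b4 : 2 * Real.sqrt s * #X < #T * t := (div_lt_iff₀ ht).1 (by linarith)
  have b5 : (2 * Real.sqrt s * #X) ^ 2 ≤ (#T * t) ^ 2 :=
    pow_le_pow_left₀ (by positivity) b4.le 2
  rw [mul_pow, mul_pow, Real.sq_sqrt hs] at b5
  have b6 : (0 : ℝ) < #T := by linarith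
  nlinarith [mul_lt_mul_of_pos_left b3 b6]

theorem ygd_tel (ι : Type) [Fintype ι] : ∃ A B : ι → Finset ι, (∀ c, c ∉ A c) ∧
    ∀ a b : ι → ℝ, ∏ c, a c - ∏ c, b c =
      ∑ c, ((∏ j ∈ A c, a j) * ∏ j ∈ B c, b j) * (a c - b c) := by
  let _ : LinearOrder ι := LinearOrder.lift' (Fintype.equivFin ι) (Fintype.equivFin ι).injective
  refine ⟨fun c => {j | j < c}, fun c => {j | c < j}, fun c => by simp, fun a b => ?_⟩
  have h := Finset.prod_add_ordered (univ : Finset ι) b (fun c => a c - b c)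
  simp only [add_sub_cancel] at h
  rw [h, add_sub_cancel_left]
  exact sum_congr rfl fun c _ => by ring

theorem ygd_prod_le {ι : Type} (A : Finset ι) {a : ι → ℝ} (h : ∀ j, |a j| ≤ 1) :
    |∏ j ∈ A, a j| ≤ 1 := by
  rw [Finset.abs_prod]
  exact Finset.prod_le_one (fun j _ => abs_nonneg _) fun j _ => h j

theorem ygd_fib {ι Y : Type} [Fintype ι] (X : Finset Y) (c : ι) (S : Finset (ι → Y))
    (hS : S ⊆ Fintype.piFinset fun _ : ι => X) {B : ℝ}
    (h : ∀ T ⊆ S, (∀ ξ ∈ T, ∀ ξ' ∈ T, ∀ j, j ≠ c → ξ j = ξ' j) → (#T : ℝ) ≤ B) :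
    (#S : ℝ) ≤ B * (#X : ℝ) ^ (Fintype.card ι - 1) := by
  have h1 := card_eq_sum_card_fiberwise (s := S)
    (t := Fintype.piFinset fun _ : {j : ι // ¬ j = c} => X) (f := fun ξ j => ξ j.1)
    (fun ξ hξ => by
      have := Fintype.mem_piFinset.1 (hS hξ)
      exact Fintype.mem_piFinset.2 fun j => this j.1)
  rw [h1]
  push_cast
  refine (sum_le_card_nsmul _ _ B fun b _ => h _ (filter_subset _ _) fun ξ hξ ξ' hξ' j hj => ?_).trans
    (le_of_eq ?_)
  · exact (congrFun (mem_filter.1 hξ).2 ⟨j, hj⟩).trans (congrFun (mem_filter.1 hξ').2 ⟨j, hj⟩).symm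
  · rw [Fintype.card_piFinset, prod_const, card_univ, Fintype.card_subtype_compl,
      Fintype.card_subtype_eq, nsmul_eq_mul, mul_comm]
    push_cast
    rfl

theorem cor_count6 {ι : Type} [Fintype ι] [Nonempty ι] (S : Finset β) (X : Finset α)
    (G : ι → α → β → ℝ) (I : ι → β → ℝ) (W : β → ℝ) {t e s : ℝ} (ht : 0 < t) (hs : 0 ≤ s)
    (hG : ∀ c, ∀ ξ ∈ X, ∀ i, |G c ξ i| ≤ 1 ∧ |G c ξ i - I c i| ≤ 1) (hI : ∀ c i, |I c i| ≤ 1)
    (hW : ∀ i, |W i| ≤ 1)
    (h : ∀ c, prb X.offDiag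
      (fun z => e < |mn S fun i => (G c z.1 i - I c i) * (G c z.2 i - I c i)|) ≤ s)
    (he : 2 * e ≤ (t / Fintype.card ι) ^ 2) :
    (#{ξ ∈ Fintype.piFinset fun _ : ι => X |
      t ≤ |mn S fun i => W i * (∏ c, G c (ξ c) i - ∏ c, I c i)|} : ℝ) ≤
      Fintype.card ι * (4 / (t / Fintype.card ι) ^ 2 +
        2 * Real.sqrt s * #X / (t / Fintype.card ι)) * (#X : ℝ) ^ (Fintype.card ι - 1) := by
  obtain ⟨A, B, hA, hAB⟩ := ygd_tel ι
  have hr : (0 : ℝ) < Fintype.card ι := by exact_mod_cast Fintype.card_pos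
  have ht' : 0 < t / Fintype.card ι := div_pos ht hr
  let w : ι → (ι → α) → β → ℝ := fun c ξ i =>
    W i * ((∏ j ∈ A c, G j (ξ j) i) * ∏ j ∈ B c, I j i)
  let R : ι → Finset (ι → α) := fun c => {ξ ∈ Fintype.piFinset fun _ : ι => X |
    t / Fintype.card ι ≤ |mn S fun i => w c ξ i * (G c (ξ c) i - I c i)|}
  have h1 : ∀ c, (#(R c) : ℝ) ≤ (4 / (t / Fintype.card ι) ^ 2 +
      2 * Real.sqrt s * #X / (t / Fintype.card ι)) * (#X : ℝ) ^ (Fintype.card ι - 1) := fun c => by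
    refine ygd_fib X c (R c) (filter_subset _ _) fun T hT hc => ?_
    rcases T.eq_empty_or_nonempty with rfl | ⟨ξ₀, h0⟩
    · rw [card_empty, Nat.cast_zero]
      positivity
    have hX : ∀ ξ ∈ T, ∀ j, ξ j ∈ X := fun ξ hξ =>
      Fintype.mem_piFinset.1 (mem_filter.1 (hT hξ)).1
    have hi : Set.InjOn (fun ξ : ι → α => ξ c) T := fun ξ hξ ξ' hξ' e => funext fun j => by
      by_cases hj : j = c
      · rw [hj]
        exact e
      · exact hc ξ hξ ξ' hξ' j hj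
    rw [← card_image_of_injOn hi]
    have hm : ∀ a ∈ T.image fun ξ : ι → α => ξ c, a ∈ X := fun a ha => by
      obtain ⟨ξ, hξ, rfl⟩ := mem_image.1 ha
      exact hX ξ hξ c
    refine few_corr6 (S := S) X _ hm (w c ξ₀) (fun a i => G c a i - I c i) ht' hs (fun i => ?_)
      (fun a ha i => (hG c _ (hm a ha) i).2) (fun a ha => ?_) (h c) he
    · simp only [w, abs_mul]
      exact mul_le_one₀ (hW i) (by positivity) (mul_le_one₀
        (ygd_prod_le _ fun j => (hG j _ (hX ξ₀ h0 j) i).1) (abs_nonneg _)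
        (ygd_prod_le _ fun j => hI j i))
    · obtain ⟨ξ, hξ, rfl⟩ := mem_image.1 ha
      have e1 : w c ξ₀ = w c ξ := funext fun i => by
        simp only [w]
        rw [prod_congr rfl fun j hj => by rw [hc ξ₀ h0 ξ hξ j fun e => hA c (e ▸ hj)]]
      rw [e1]
      exact (mem_filter.1 (hT hξ)).2
  have h2 : ({ξ ∈ Fintype.piFinset fun _ : ι => X |
      t ≤ |mn S fun i => W i * (∏ c, G c (ξ c) i - ∏ c, I c i)|} : Finset (ι → α)) ⊆
        univ.biUnion R := by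
    intro ξ hξ
    obtain ⟨a1, a2⟩ := mem_filter.1 hξ
    by_contra hn
    have a3 : ∀ c, |mn S fun i => w c ξ i * (G c (ξ c) i - I c i)| < t / Fintype.card ι :=
      fun c => not_le.1 fun a => hn (mem_biUnion.2 ⟨c, mem_univ _, mem_filter.2 ⟨a1, a⟩⟩)
    have a4 : (mn S fun i => W i * (∏ c, G c (ξ c) i - ∏ c, I c i)) =
        ∑ c, mn S fun i => w c ξ i * (G c (ξ c) i - I c i) := by
      rw [← mn_sum]
      refine congrArg _ (funext fun i => ?_)
      rw [hAB (fun c => G c (ξ c) i) (fun c => I c i), mul_sum]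
      exact sum_congr rfl fun c _ => by simp only [w]; ring
    have a5 := (abs_sum_le_sum_abs _ _).trans_lt (sum_lt_sum_of_nonempty univ_nonempty
      fun c _ => a3 c)
    rw [← a4, sum_const, card_univ, nsmul_eq_mul, mul_div_cancel₀ _ hr.ne'] at a5
    exact absurd a2 (not_le.2 a5)
  have h3 := (card_le_card h2).trans card_biUnion_le
  have h4 := sum_le_sum fun c (_ : c ∈ (univ : Finset ι)) => h1 c
  rw [sum_const, card_univ, nsmul_eq_mul, ← Nat.cast_sum] at h4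
  exact ((Nat.cast_le.2 h3).trans h4).trans (le_of_eq (mul_assoc _ _ _).symm)

end Pool.Agent.EQ
end
end

-- part Pool.Agent.P.MP_ad7a55_nt.YUb
section

/-! Convolution on a group with large representations. -/

set_option autoImplicit false
set_option linter.unusedSectionVars false

noncomputable section

open Finset
open scoped Classical

namespace Pool.Agent.EQ

section aux
variable {G : Type} [Group G] [Fintype G]

/-- convolution with a real kernel -/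
def yubT (k : G → ℝ) : (G → ℂ) →ₗ[ℂ] (G → ℂ) where
  toFun F := fun g => ∑ h, (k h : ℂ) * F (h * g)
  map_add' F F' := by
    funext g
    simp only [Pi.add_apply, mul_add, sum_add_distrib]
  map_smul' c F := by
    funext g
    simp only [Pi.smul_apply, smul_eq_mul, RingHom.id_apply, mul_sum]
    exact sum_congr rfl fun h _ => by ring

theorem yub_T (k : G → ℝ) (F : G → ℂ) (g : G) : yubT k F g = ∑ h, (k h : ℂ) * F (h * g) := rfl

theorem yub_Tr (k : G → ℝ) (F : G → ℂ) (x : G) :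
    yubT k (fun g => F (g * x)) = fun g => yubT k F (g * x) := by
  funext g
  simp only [yub_T, mul_assoc]

theorem yub_smul (c : ℂ) (F : G → ℂ) : xfeN (c • F) = ‖c‖ ^ 2 * xfeN F := by
  simp [xfeN, mul_sum, mul_pow]

theorem yub_par (F F' : G → ℂ) : xfeN (F + F') + xfeN (F - F') = 2 * xfeN F + 2 * xfeN F' := by
  simp only [xfeN, mul_sum, ← sum_add_distrib]
  refine sum_congr rfl fun x _ => ?_
  have := parallelogram_law_with_norm ℂ (F x) (F' x)
  simp only [Pi.add_apply, Pi.sub_apply]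
  nlinarith

theorem yub_pos {F : G → ℂ} (h : F ≠ 0) : 0 < xfeN F :=
  lt_of_not_ge fun k => h (funext (xfe_Nz k))

theorem yub_max (V : Submodule ℂ (G → ℂ)) (T : (G → ℂ) →ₗ[ℂ] (G → ℂ)) {f : G → ℂ} (hf : f ∈ V)
    (hf0 : f ≠ 0) : ∃ (lam : ℝ) (F0 : G → ℂ), F0 ∈ V ∧ F0 ≠ 0 ∧ xfeN (T F0) = lam * xfeN F0 ∧
      ∀ F ∈ V, xfeN (T F) ≤ lam * xfeN F := by
  have hN : Continuous (xfeN : (G → ℂ) → ℝ) := by unfold xfeN; fun_prop
  have hΦ : Continuous fun g : G → ℂ => xfeN (T g) :=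
    hN.comp T.continuous_of_finiteDimensional
  have hK : IsCompact ((V : Set (G → ℂ)) ∩ {g | xfeN g = 1}) := by
    refine Metric.isCompact_of_isClosed_isBounded
      (V.closed_of_finiteDimensional.inter (isClosed_eq hN continuous_const))
      (isBounded_iff_forall_norm_le.2 ⟨1, fun g hg => ?_⟩)
    refine (pi_norm_le_iff_of_nonneg zero_le_one).2 fun x => ?_
    have := (single_le_sum (fun x _ => sq_nonneg ‖g x‖) (mem_univ x)).trans_eq hg.2
    exact (sq_le_one_iff₀ (norm_nonneg _)).1 this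
  have sc : ∀ g ∈ V, g ≠ 0 → ∃ g' ∈ (V : Set (G → ℂ)) ∩ {g | xfeN g = 1},
      xfeN (T g') * xfeN g = xfeN (T g) := by
    intro g hg h0
    have hp := yub_pos h0
    have e : ‖(((√(xfeN g))⁻¹ : ℝ) : ℂ)‖ ^ 2 * xfeN g = 1 := by
      rw [Complex.norm_real, Real.norm_eq_abs, sq_abs, inv_pow, Real.sq_sqrt hp.le,
        inv_mul_cancel₀ hp.ne']
    refine ⟨(((√(xfeN g))⁻¹ : ℝ) : ℂ) • g, ⟨V.smul_mem _ hg, (yub_smul _ g).trans e⟩, ?_⟩
    rw [map_smul, yub_smul]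
    linear_combination xfeN (T g) * e
  obtain ⟨f', hf', -⟩ := sc f hf hf0
  obtain ⟨f0, h0, hm⟩ := hK.exists_isMaxOn ⟨f', hf'⟩ hΦ.continuousOn
  have h1 : xfeN f0 = 1 := h0.2
  refine ⟨xfeN (T f0), f0, h0.1, fun e => ?_, by rw [h1, mul_one], fun g hg => ?_⟩
  · rw [e] at h1
    simp [xfeN] at h1
  · by_cases k : g = 0
    · simp [k, xfeN]
    · obtain ⟨g', hg', e⟩ := sc g hg k
      rw [← e]
      exact mul_le_mul_of_nonneg_right (hm hg') (xfe_N0 g)

/-- the maximisers form a subspace -/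
def yubE (V : Submodule ℂ (G → ℂ)) (T : (G → ℂ) →ₗ[ℂ] (G → ℂ)) (lam : ℝ)
    (h : ∀ F ∈ V, xfeN (T F) ≤ lam * xfeN F) : Submodule ℂ (G → ℂ) where
  carrier := {F | F ∈ V ∧ xfeN (T F) = lam * xfeN F}
  zero_mem' := ⟨V.zero_mem, by simp [xfeN]⟩
  add_mem' := by
    rintro F F' ⟨h1, h2⟩ ⟨h3, h4⟩
    refine ⟨V.add_mem h1 h3, ?_⟩
    have a1 := h _ (V.add_mem h1 h3)
    have a2 := h _ (V.sub_mem h1 h3)
    have a3 := yub_par F F'
    have a4 := yub_par (T F) (T F')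
    rw [← map_add, ← map_sub, h2, h4] at a4
    have a5 : lam * xfeN (F + F') + lam * xfeN (F - F') =
        2 * (lam * xfeN F) + 2 * (lam * xfeN F') := by linear_combination lam * a3
    linarith
  smul_mem' := by
    rintro c F ⟨h1, h2⟩
    refine ⟨V.smul_mem c h1, ?_⟩
    rw [map_smul, yub_smul, yub_smul, h2]
    ring

omit [Fintype G] in
theorem yub_pow {F : G → ℂ} {x : G} {z : ℂ} (h : ∀ g, F (g * x) = z * F g) (n : ℕ) (g : G) :
    F (g * x ^ n) = z ^ n * F g := by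
  induction n with
  | zero => simp
  | succ n ih => rw [pow_succ, ← mul_assoc, h, ih]; ring

theorem yub_eig (W : Submodule ℂ (G → ℂ)) (x : G) (hW : ∀ F ∈ W, (fun g => F (g * x)) ∈ W)
    {F : G → ℂ} (hF : F ∈ W) (h0 : F ≠ 0) :
    ∃ F' ∈ W, F' ≠ 0 ∧ ∃ z : ℂ, ∀ g, F' (g * x) = z * F' g := by
  have : Nontrivial W := ⟨⟨⟨F, hF⟩, 0, fun e => h0 (congrArg Subtype.val e)⟩⟩
  let S : Module.End ℂ W := (LinearMap.funLeft ℂ ℂ fun g : G => g * x).restrict hW
  obtain ⟨z, hz⟩ := Module.End.exists_eigenvalue S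
  obtain ⟨v, hv⟩ := hz.exists_hasEigenvector
  refine ⟨v.1, v.2, fun e => hv.2 (Subtype.ext e), z, fun g => ?_⟩
  exact congrFun (congrArg Subtype.val hv.apply_eq_smul) g

/-- eigenvector with eigenvalue different from one -/
theorem yub_eig1 (W : Submodule ℂ (G → ℂ)) (x : G) (hW : ∀ F ∈ W, (fun g => F (g * x)) ∈ W)
    {n : ℕ} (hn : n ≠ 0) (hx : x ^ n = 1) {F : G → ℂ} (hF : F ∈ W) {g0 : G}
    (h0 : F (g0 * x) ≠ F g0) :
    ∃ F' ∈ W, F' ≠ 0 ∧ ∃ z : ℂ, z ≠ 1 ∧ ∀ g, F' (g * x) = z * F' g := by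
  let W1 : Submodule ℂ (G → ℂ) :=
    { carrier := {F | F ∈ W ∧ ∀ g, ∑ i ∈ range n, F (g * x ^ i) = 0}
      zero_mem' := ⟨W.zero_mem, by simp⟩
      add_mem' := by
        rintro F F' ⟨h1, h2⟩ ⟨h3, h4⟩
        refine ⟨W.add_mem h1 h3, fun g => ?_⟩
        simp only [Pi.add_apply, sum_add_distrib, h2, h4, add_zero]
      smul_mem' := by
        rintro c F ⟨h1, h2⟩
        refine ⟨W.smul_mem c h1, fun g => ?_⟩
        simp only [Pi.smul_apply, smul_eq_mul, ← mul_sum, h2, mul_zero] }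
  have h1 : ∀ F ∈ W1, (fun g => F (g * x)) ∈ W1 := by
    rintro F ⟨h1, h2⟩
    refine ⟨hW F h1, fun g => ?_⟩
    rw [← h2 (g * x)]
    refine sum_congr rfl fun i _ => ?_
    show F (g * x ^ i * x) = F (g * x * x ^ i)
    rw [mul_assoc, mul_assoc, ← pow_succ, ← pow_succ']
  have h2 : ((fun g => F (g * x)) - F) ∈ W1 := by
    refine ⟨W.sub_mem (hW F hF) hF, fun g => ?_⟩
    have := sum_range_sub (fun i => F (g * x ^ i)) n
    rw [hx, pow_zero, sub_self] at this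
    rw [← this]
    exact sum_congr rfl fun i _ => by simp only [Pi.sub_apply, pow_succ, mul_assoc]
  obtain ⟨F', hF', hne, z, hz⟩ := yub_eig W1 x h1 h2 fun e =>
    h0 (sub_eq_zero.1 (congrFun e g0))
  refine ⟨F', hF'.1, hne, z, fun e => hne (funext fun g => ?_), hz⟩
  have := hF'.2 g
  simp only [yub_pow hz, e, one_pow, one_mul, sum_const, card_range, nsmul_eq_mul] at this
  exact (mul_eq_zero.1 this).resolve_left (Nat.cast_ne_zero.2 hn)

/-- a simultaneous eigenvector with nontrivial eigenvalues -/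
theorem yub_sim (A : Finset ℕ) (a : ℕ) (N : ℕ → Subgroup G) (u w : ℕ → G)
    (hp : ∀ p ∈ A, p ≠ 0)
    (hu : ∀ p ∈ A, u p ^ p ^ a = 1 ∧ u p ∈ N p ∧ w p ∈ N p ∧
      N p ≤ Subgroup.closure {u p, w p * u p * (w p)⁻¹})
    (hc : ∀ p ∈ A, ∀ p' ∈ A, p ≠ p' → ∀ x ∈ N p, ∀ x' ∈ N p', x * x' = x' * x)
    (E : Submodule ℂ (G → ℂ)) (hE : ∀ F ∈ E, ∀ x, (fun g => F (g * x)) ∈ E)
    (hV : ∀ F ∈ E, ∀ p ∈ A, ∀ g, ∑ h with h ∈ N p, F (g * h) = 0)
    {F0 : G → ℂ} (hF0 : F0 ∈ E) (h0 : F0 ≠ 0) (B : Finset ℕ) (hB : B ⊆ A) :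
    ∃ F ∈ E, F ≠ 0 ∧ ∃ z : ℕ → ℂ, ∀ p ∈ B, z p ≠ 1 ∧ ∀ g, F (g * u p) = z p * F g := by
  induction B using Finset.induction_on with
  | empty => exact ⟨F0, hF0, h0, fun _ => 0, by simp⟩
  | insert p B hpB ih =>
    obtain ⟨F, hF, hne, z, hz⟩ := ih ((subset_insert _ _).trans hB)
    have hpA : p ∈ A := hB (mem_insert_self _ _)
    obtain ⟨u1, u2, u3, u4⟩ := hu p hpA
    let W : Submodule ℂ (G → ℂ) :=
      { carrier := {F | F ∈ E ∧ ∀ q ∈ B, ∀ g, F (g * u q) = z q * F g}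
        zero_mem' := ⟨E.zero_mem, by simp⟩
        add_mem' := by
          rintro F F' ⟨h1, h2⟩ ⟨h3, h4⟩
          refine ⟨E.add_mem h1 h3, fun q hq g => ?_⟩
          simp only [Pi.add_apply, h2 q hq, h4 q hq, mul_add]
        smul_mem' := by
          rintro c F ⟨h1, h2⟩
          refine ⟨E.smul_mem c h1, fun q hq g => ?_⟩
          simp only [Pi.smul_apply, smul_eq_mul, h2 q hq]
          ring }
    have hW : ∀ x ∈ N p, ∀ F ∈ W, (fun g => F (g * x)) ∈ W := by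
      rintro x hx F ⟨h1, h2⟩
      refine ⟨hE F h1 x, fun q hq g => ?_⟩
      have hqA : q ∈ A := hB (mem_insert_of_mem hq)
      show F (g * u q * x) = z q * F (g * x)
      rw [← h2 q hq, mul_assoc, mul_assoc,
        hc p hpA q hqA (fun e => hpB (e ▸ hq)) x hx (u q) (hu q hqA).2.1]
    have hFW : F ∈ W := ⟨hF, fun q hq => (hz q hq).2⟩
    have hex : ∃ F' ∈ W, ∃ g0, F' (g0 * u p) ≠ F' g0 := by
      by_contra hcon
      push Not at hcon
      have hfix : ∀ x ∈ Subgroup.closure {u p, w p * u p * (w p)⁻¹}, ∀ g, F (g * x) = F g := by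
        intro x hx
        induction hx using Subgroup.closure_induction with
        | mem x hx =>
          rcases hx with rfl | rfl
          · exact hcon F hFW
          · intro g
            have := hcon _ (hW _ ((N p).inv_mem u3) F hFW) (g * w p)
            simpa only [mul_assoc, mul_inv_cancel, mul_one] using this
        | one => simp
        | mul x y _ _ hx hy => intro g; rw [← mul_assoc, hy, hx]
        | inv x _ hx => intro g; rw [← hx (g * x⁻¹), inv_mul_cancel_right]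
      refine hne (funext fun g => ?_)
      have h1 := hV F hF p hpA g
      rw [sum_congr rfl fun h hh => hfix h (u4 (mem_filter.1 hh).2) g, sum_const,
        nsmul_eq_mul] at h1
      refine (mul_eq_zero.1 h1).resolve_left (Nat.cast_ne_zero.2 (card_ne_zero.2 ⟨1, ?_⟩))
      simp
    obtain ⟨F', hF', g0, hg0⟩ := hex
    obtain ⟨F2, hF2, hne2, z0, hz0, hz1⟩ :=
      yub_eig1 W (u p) (hW _ u2) (pow_ne_zero a (hp p hpA)) u1 hF' hg0
    refine ⟨F2, hF2.1, hne2, Function.update z p z0, fun q hq => ?_⟩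
    rcases mem_insert.1 hq with rfl | hq
    · rw [Function.update_self]
      exact ⟨hz0, hz1⟩
    · rw [Function.update_of_ne fun e : q = p => hpB (e ▸ hq)]
      exact ⟨(hz q hq).1, hF2.2 q hq⟩

theorem yub_orth {F F' : G → ℂ} {x : G} {z z' : ℂ} (h : ∀ g, F (g * x) = z * F g)
    (h' : ∀ g, F' (g * x) = z' * F' g) (hz : ‖z‖ = 1) (hne : z ≠ z') :
    inner ℂ (WithLp.toLp 2 F : EuclideanSpace ℂ G) (WithLp.toLp 2 F') = 0 := by
  rw [PiLp.inner_apply]
  have e := Equiv.sum_comp (Equiv.mulRight x) fun g => inner ℂ (F g) (F' g)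
  have e2 : ∀ g, inner ℂ (F (g * x)) (F' (g * x)) =
      (z' * (starRingEnd ℂ) z) * inner ℂ (F g) (F' g) := fun g => by
    rw [h, h', RCLike.inner_apply, RCLike.inner_apply, map_mul]
    ring
  simp only [Equiv.coe_mulRight, e2, ← mul_sum] at e
  by_contra hn
  have h1 := (mul_eq_right₀ hn).1 e
  have h2 : z * (starRingEnd ℂ) z = 1 := by
    rw [Complex.mul_conj', hz]; simp
  exact hne (by linear_combination z' * h2 - z * h1)

end aux

theorem yub_dist {p a s s' : ℕ} (hp : p.Prime) {z : ℂ} (h1 : z ≠ 1) (ha : z ^ p ^ a = 1)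
    (hs : s ∈ Icc 1 ((p - 1) / 2)) (hs' : s' ∈ Icc 1 ((p - 1) / 2)) (e : z ^ s ^ 2 = z ^ s' ^ 2) :
    s = s' := by
  wlog hle : s ≤ s' generalizing s s'
  · exact (this hs' hs e.symm (by omega)).symm
  have hz0 : z ≠ 0 := fun e0 => by
    rw [e0, zero_pow (pow_ne_zero a hp.ne_zero)] at ha
    exact zero_ne_one ha
  obtain ⟨d, rfl⟩ := Nat.exists_eq_add_of_le hle
  have h2 : z ^ (d * (2 * s + d)) = 1 := by
    rw [show (s + d) ^ 2 = s ^ 2 + d * (2 * s + d) by ring, pow_add] at e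
    exact (mul_eq_left₀ (pow_ne_zero _ hz0)).1 e.symm
  by_contra hne
  rw [mem_Icc] at hs hs'
  have hcop : (p ^ a).Coprime (d * (2 * s + d)) := by
    refine Nat.Coprime.pow_left a ((Nat.Prime.coprime_iff_not_dvd hp).2 fun hd => ?_)
    rcases (Nat.Prime.dvd_mul hp).1 hd with h | h
    · have := Nat.le_of_dvd (by omega) h
      omega
    · have := Nat.le_of_dvd (by omega) h
      omega
  have h3 : z ^ (p ^ a).gcd (d * (2 * s + d)) = 1 := pow_gcd_eq_one.2 ⟨ha, h2⟩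
  rw [hcop, pow_one] at h3
  exact h1 h3

theorem bnp_abs {G : Type} [Group G] [Fintype G] (A : Finset ℕ) (a : ℕ) (N : ℕ → Subgroup G)
    (u w : ℕ → G) (hp : ∀ p ∈ A, p.Prime ∧ p ≠ 2) (hN : ∀ p ∈ A, (N p).Normal)
    (hu : ∀ p ∈ A, u p ^ p ^ a = 1 ∧ u p ∈ N p ∧ w p ∈ N p ∧
      N p ≤ Subgroup.closure {u p, w p * u p * (w p)⁻¹})
    (hc : ∀ p ∈ A, ∀ p' ∈ A, p ≠ p' → ∀ x ∈ N p, ∀ x' ∈ N p', x * x' = x' * x)
    (ht : ∀ s : ℕ → ℕ, (∀ p ∈ A, ¬ p ∣ s p) → ∃ t : G, ∀ p ∈ A, t⁻¹ * u p * t = u p ^ s p ^ 2)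
    (k f : G → ℝ) (hf : ∀ p ∈ A, ∀ g, ∑ h with h ∈ N p, f (g * h) = 0) :
    (∏ p ∈ A, ((p : ℝ) - 1) / 2) * ∑ g, (∑ h, k h * f (h * g)) ^ 2 ≤
      Fintype.card G * (∑ h, k h ^ 2) * ∑ g, f g ^ 2 := by
  let V : Submodule ℂ (G → ℂ) :=
    { carrier := {F | ∀ p ∈ A, ∀ g, ∑ h with h ∈ N p, F (g * h) = 0}
      zero_mem' := by simp
      add_mem' := by
        intro F F' h1 h2 p hp g
        simp only [Pi.add_apply, sum_add_distrib, h1 p hp g, h2 p hp g, add_zero]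
      smul_mem' := by
        intro c F h1 p hp g
        simp only [Pi.smul_apply, smul_eq_mul, ← mul_sum, h1 p hp g, mul_zero] }
  have hVr : ∀ F ∈ V, ∀ x, (fun g => F (g * x)) ∈ V := by
    intro F hF x p hpA g
    rw [← hF p hpA (g * x)]
    refine sum_equiv (MulAut.conj x⁻¹).toEquiv (fun h => ?_) fun h _ => ?_
    · simp only [mem_filter, mem_univ, true_and, MulEquiv.toEquiv_eq_coe, EquivLike.coe_coe,
        MulAut.conj_apply]
      exact ((hN p hpA).mem_comm_iff.trans (by simp)).symm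
    · simp [mul_assoc]
  have hfV : (fun g => (f g : ℂ)) ∈ V := fun p hpA g => by
    show ∑ h with h ∈ N p, (f (g * h) : ℂ) = 0
    exact_mod_cast hf p hpA g
  have e1 : xfeN (fun g => (f g : ℂ)) = ∑ g, f g ^ 2 := by simp [xfeN]
  have e2 : xfeN (yubT k fun g => (f g : ℂ)) = ∑ g, (∑ h, k h * f (h * g)) ^ 2 := by
    simp only [xfeN, yub_T, ← Complex.ofReal_mul, ← Complex.ofReal_sum, Complex.norm_real,
      Real.norm_eq_abs, sq_abs]
  rw [← e1, ← e2]
  by_cases hf0 : (fun g => (f g : ℂ)) = 0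
  · rw [hf0]
    simp [xfeN]
  obtain ⟨lam, F0, hF0, h0, hl, hmax⟩ := yub_max V (yubT k) hfV hf0
  obtain ⟨F, hF, hne, z, hz⟩ := yub_sim A a N u w (fun p h => (hp p h).1.ne_zero) hu hc
    (yubE V (yubT k) lam hmax) (fun F hF x => ⟨hVr F hF.1 x, by
      rw [yub_Tr, xfe_Nr, xfe_Nr]; exact hF.2⟩) (fun F hF => hF.1) (F0 := F0) ⟨hF0, hl⟩ h0 A
    (Subset.refl _)
  have hza : ∀ p ∈ A, z p ^ p ^ a = 1 := by
    intro p hpA
    obtain ⟨g, hg⟩ := Function.ne_iff.1 hne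
    have := yub_pow (hz p hpA).2 (p ^ a) g
    rw [(hu p hpA).1, mul_one] at this
    exact (mul_eq_right₀ hg).1 this.symm
  set S : Finset (A → ℕ) := Fintype.piFinset fun p : A => Icc 1 ((p.1 - 1) / 2) with hS
  have hcard : (S.card : ℝ) = ∏ p ∈ A, ((p : ℝ) - 1) / 2 := by
    rw [hS, Fintype.card_piFinset, Nat.cast_prod, ← prod_coe_sort A]
    refine prod_congr rfl fun p _ => ?_
    obtain ⟨m, hm⟩ := (hp p.1 p.2).1.odd_of_ne_two (hp p.1 p.2).2
    rw [Nat.card_Icc, hm, show (2 * m + 1 - 1) / 2 + 1 - 1 = m by omega]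
    push_cast
    ring
  have hex : ∀ s : A → ℕ, ∃ t : G, s ∈ S → ∀ p : A, t⁻¹ * u p * t = u p ^ s p ^ 2 := by
    intro s
    by_cases hs : s ∈ S
    · obtain ⟨t, h⟩ := ht (fun p => if h : p ∈ A then s ⟨p, h⟩ else 0) fun p hpA hd => by
        rw [dif_pos hpA] at hd
        have h1 := mem_Icc.1 (Fintype.mem_piFinset.1 hs ⟨p, hpA⟩)
        have h2 := Nat.le_of_dvd (by omega) hd
        simp only at h1
        omega
      exact ⟨t, fun _ p => by rw [h p.1 p.2, dif_pos p.2]⟩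
    · exact ⟨1, fun h => absurd h hs⟩
  choose t htt using hex
  have hev : ∀ s ∈ S, ∀ p : A, ∀ g, F (g * u p * t s) = z p ^ s p ^ 2 * F (g * t s) := by
    intro s hs p g
    rw [← yub_pow (hz p.1 p.2).2, ← htt s hs p]
    simp [mul_assoc]
  have hb : ∀ x, ∑ s ∈ S, ‖yubT k F (x * t s)‖ ^ 2 ≤ xfeN F * ∑ h, k h ^ 2 := fun x => by
    have := xfe_bessel S (fun s => (WithLp.toLp 2 fun y => F (y * t s) : EuclideanSpace ℂ G))
      (fun s h s' h' hne' => by
        obtain ⟨p, hp'⟩ := Function.ne_iff.1 hne'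
        refine yub_orth (hev s h p) (hev s' h' p) ?_ fun e => hp' ?_
        · rw [norm_pow, Complex.norm_eq_one_of_pow_eq_one (hza p.1 p.2)
            (pow_ne_zero a (hp p.1 p.2).1.ne_zero), one_pow]
        · exact yub_dist (hp p.1 p.2).1 (hz p.1 p.2).1 (hza p.1 p.2)
            (Fintype.mem_piFinset.1 h p) (Fintype.mem_piFinset.1 h' p) e)
      (xfe_N0 F) (fun c _ => by rw [xfe_N, xfe_Nr])
      (WithLp.toLp 2 fun y => (k (y * x⁻¹) : ℂ))
    have e : xfeN (fun y => (k (y * x⁻¹) : ℂ)) = ∑ h, k h ^ 2 := by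
      rw [xfe_Nr (fun y => (k y : ℂ)) x⁻¹]
      simp [xfeN]
    rw [xfe_N, e] at this
    refine le_trans (le_of_eq (sum_congr rfl fun s _ => ?_)) this
    congr 2
    rw [PiLp.inner_apply, yub_T, ← Equiv.sum_comp (Equiv.mulRight x⁻¹)]
    refine sum_congr rfl fun y _ => ?_
    simp [mul_assoc, mul_comm]
  have h2 := sum_le_sum fun x (_ : x ∈ univ) => hb x
  have e3 : ∀ s, ∑ x, ‖yubT k F (x * t s)‖ ^ 2 = xfeN (yubT k F) := fun s => xfe_Nr _ (t s)
  rw [sum_comm] at h2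
  simp only [e3, sum_const, nsmul_eq_mul, card_univ] at h2
  rw [hF.2] at h2
  have h3 : (S.card : ℝ) * lam ≤ Fintype.card G * ∑ h, k h ^ 2 :=
    le_of_mul_le_mul_right (by linarith) (yub_pos hne)
  rw [← hcard]
  calc _ ≤ (S.card : ℝ) * (lam * xfeN fun g => (f g : ℂ)) :=
        mul_le_mul_of_nonneg_left (hmax _ hfV) (Nat.cast_nonneg _)
    _ = (S.card : ℝ) * lam * xfeN fun g => (f g : ℂ) := (mul_assoc _ _ _).symm
    _ ≤ _ := mul_le_mul_of_nonneg_right h3 (xfe_N0 _)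

end Pool.Agent.EQ
end
end

-- part Pool.Agent.P.MP_ad7a55_nt.AtB
section

/-! Atoms of the transverse measure. -/

set_option autoImplicit false

noncomputable section

open MeasureTheory Topology Filter UpperHalfPlane
open scoped MatrixGroups ENNReal BoundedContinuousFunction

namespace Pool.Agent.EQ

theorem atb_meas (g : SL(2, ℝ)) : Measurable fun y : YY => g • y :=
  (continuous_const_smul g).measurable

/-- An atom of a finite invariant measure is periodic. -/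
theorem atb_per (μ : Measure YY) [IsFiniteMeasure μ] {g : SL(2, ℝ)}
    (hg : μ.map (fun y => g • y) = μ) {y : YY} (hy : μ {y} ≠ 0) :
    ∃ M : ℕ, 0 < M ∧ g ^ M • y = y := by
  have h1 : ∀ n : ℕ, μ {g ^ n • y} = μ {y} := fun n => by
    induction n with
    | zero => simp
    | succ n ih =>
      rw [← ih]
      conv_lhs => rw [← hg]
      rw [Measure.map_apply (atb_meas g) (measurableSet_singleton _)]
      congr 1
      ext z
      simp [pow_succ', mul_smul]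
  by_contra hn
  have h2 : ∀ m n : ℕ, m < n → g ^ m • y ≠ g ^ n • y := fun m n h e => by
    obtain ⟨k, rfl⟩ := Nat.exists_eq_add_of_lt h
    refine hn ⟨k + 1, k.succ_pos, ?_⟩
    rw [add_assoc, pow_add, mul_smul] at e
    exact (smul_left_cancel _ e).symm
  have h3 := Measure.finite_const_le_meas_of_disjoint_iUnion μ (pos_iff_ne_zero.2 hy)
    (As := fun n : ℕ => {g ^ n • y}) (fun n => measurableSet_singleton _)
    (fun m n h => Set.disjoint_singleton.2 fun e => h (Function.Injective.of_lt_imp_ne h2 e))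
    (measure_ne_top _ _)
  exact Set.infinite_univ (h3.subset fun n _ => (h1 n).ge)

/-- Thin annuli around the diagonal have small measure. -/
theorem atb_ann (ν : Measure (YY × YY)) [IsFiniteMeasure ν] {Ω : Set YY} (hΩ : IsCompact Ω)
    {ε : ℝ≥0∞} (hε : 0 < ε) : ∃ R : ℝ, 0 < R ∧ ∀ r R', 0 < r → R' ≤ R → ν (Ann Ω r R') < ε := by
  obtain ⟨r₀, hr₀, hinj⟩ := exists_inj hΩ
  let E : ℕ → Set (YY × YY) := fun m => ⋃ n : ℕ, Ann Ω (1 / ((n : ℝ) + 1)) (1 / ((m : ℝ) + 1))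
  have hanti : Antitone E := fun m m' h => Set.iUnion_mono fun n w ⟨h1, δ, h2, h3, h4⟩ =>
    ⟨h1, δ, h2, h3.trans (Nat.one_div_le_one_div h), h4⟩
  have hE : ⋂ m, E m = ∅ := by
    refine Set.eq_empty_of_forall_notMem fun w hw => ?_
    obtain ⟨m, hm⟩ := exists_nat_one_div_lt hr₀
    obtain ⟨n, h1, δ, h2, h3, h4⟩ := Set.mem_iUnion.1 (Set.mem_iInter.1 hw m)
    obtain ⟨m', hm'⟩ := exists_nat_one_div_lt (Nat.one_div_pos_of_nat.trans_le h2)
    obtain ⟨n', -, δ', -, h5, h6⟩ := Set.mem_iUnion.1 (Set.mem_iInter.1 hw m')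
    have h7 := h5.trans_lt hm'
    have := hinj _ h1 δ δ' (h3.trans hm.le) (h7.le.trans (h3.trans hm.le)) (h4.symm.trans h6)
    rw [this] at h7
    exact lt_irrefl _ h7
  have ht := tendsto_measure_iInter_atTop (μ := ν) (s := E) (fun m => (MeasurableSet.iUnion
    fun n => (isCompact_Ann hΩ _ _).measurableSet).nullMeasurableSet) hanti
    ⟨0, measure_ne_top _ _⟩
  rw [hE, measure_empty] at ht
  obtain ⟨m, hm⟩ := (ht.eventually (gt_mem_nhds hε)).exists
  refine ⟨_, Nat.one_div_pos_of_nat (n := m), fun r R' hr hR => lt_of_le_of_lt (measure_mono ?_) hm⟩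
  obtain ⟨n, hn⟩ := exists_nat_one_div_lt hr
  rintro w ⟨h1, δ, h2, h3, h4⟩
  exact Set.mem_iUnion.2 ⟨n, h1, δ, hn.le.trans h2, h3.trans hR, h4⟩

section level

variable {𝒦 : Type} [Group 𝒦] [TopologicalSpace 𝒦] [IsTopologicalGroup 𝒦]
  [MeasurableSpace 𝒦] [BorelSpace 𝒦] (τ : Measure (𝒦 × YY)) {N : Subgroup 𝒦}

/-- The part of the measure over one coset. -/
def atbT (N : Subgroup 𝒦) (q : 𝒦 ⧸ N) : Measure YY :=
  (τ.restrict ((fun w => (w.1 : 𝒦 ⧸ N)) ⁻¹' {q})).map Prod.snd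

instance atbFin [IsFiniteMeasure τ] (q : 𝒦 ⧸ N) : IsFiniteMeasure (atbT τ N q) := by
  unfold atbT
  infer_instance

theorem atb_coset (hN : IsOpen (N : Set 𝒦)) (q : 𝒦 ⧸ N) :
    MeasurableSet ((fun k : 𝒦 => (k : 𝒦 ⧸ N)) ⁻¹' {q}) := by
  have := QuotientGroup.discreteTopology_iff.2 hN
  exact ((isOpen_discrete {q}).preimage QuotientGroup.continuous_mk).measurableSet

omit [TopologicalSpace 𝒦] [IsTopologicalGroup 𝒦] [BorelSpace 𝒦] in
theorem atb_apply (q : 𝒦 ⧸ N) {A : Set YY} (hA : MeasurableSet A) :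
    atbT τ N q A = τ (Prod.snd ⁻¹' A ∩ (fun w => (w.1 : 𝒦 ⧸ N)) ⁻¹' {q}) := by
  rw [atbT, Measure.map_apply measurable_snd hA, Measure.restrict_apply (measurable_snd hA)]

theorem atb_sum [Fintype (𝒦 ⧸ N)] (hN : IsOpen (N : Set 𝒦)) (S : Set (𝒦 × YY)) :
    ∑ q : 𝒦 ⧸ N, τ.restrict S ((fun w => (w.1 : 𝒦 ⧸ N)) ⁻¹' {q}) = τ S := by
  rw [sum_measure_preimage_singleton (f := fun w : 𝒦 × YY => (w.1 : 𝒦 ⧸ N)) _
    fun q _ => measurable_fst (atb_coset hN q)]
  simp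

theorem atb_sum' [Fintype (𝒦 ⧸ N)] (hN : IsOpen (N : Set 𝒦)) {A : Set YY} (hA : MeasurableSet A) :
    ∑ q : 𝒦 ⧸ N, atbT τ N q A = τ.snd A := by
  rw [Measure.snd_apply hA, ← atb_sum τ hN]
  refine Finset.sum_congr rfl fun q _ => ?_
  rw [atb_apply τ q hA, Measure.restrict_apply' (measurable_snd hA), Set.inter_comm]

theorem atb_mass [Fintype (𝒦 ⧸ N)] [IsProbabilityMeasure τ] (hN : IsOpen (N : Set 𝒦))
    (hl : τ.fst.IsMulLeftInvariant) (q : 𝒦 ⧸ N) :
    (Fintype.card (𝒦 ⧸ N) : ℝ≥0∞) * atbT τ N q Set.univ = 1 := by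
  have h1 : ∀ q : 𝒦 ⧸ N, atbT τ N q Set.univ = atbT τ N ((1 : 𝒦) : 𝒦 ⧸ N) Set.univ := fun q => by
    obtain ⟨g, rfl⟩ := QuotientGroup.mk_surjective q
    have e : ∀ q : 𝒦 ⧸ N, atbT τ N q Set.univ = τ.fst ((fun k : 𝒦 => (k : 𝒦 ⧸ N)) ⁻¹' {q}) :=
      fun q => by
        rw [atb_apply τ q MeasurableSet.univ, Measure.fst_apply (atb_coset hN q)]
        simp only [Set.preimage_univ, Set.univ_inter]
        rfl
    rw [e, e, ← measure_preimage_mul τ.fst g]
    congr 1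
    ext k
    simp [QuotientGroup.eq]
  have h2 := atb_sum' τ hN MeasurableSet.univ
  rw [Finset.sum_congr rfl fun q' _ => (h1 q').trans (h1 q).symm] at h2
  simpa using h2

theorem atb_map [N.Normal] (hN : IsOpen (N : Set 𝒦)) {a : 𝒦} {v : SL(2, ℝ)}
    (ha : τ.map (fun w => (w.1 * a, v • w.2)) = τ) (q : 𝒦 ⧸ N) :
    (atbT τ N q).map (fun y => v • y) = atbT τ N (q * a) := by
  ext A hA
  rw [Measure.map_apply (atb_meas v) hA, atb_apply τ q (atb_meas v hA), atb_apply τ _ hA]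
  conv_rhs => rw [← ha]
  have hm : Measurable fun w : 𝒦 × YY => (w.1 * a, v • w.2) :=
    (measurable_fst.mul_const a).prodMk ((atb_meas v).comp measurable_snd)
  have hs : MeasurableSet (Prod.snd ⁻¹' A ∩ (fun w : 𝒦 × YY => (w.1 : 𝒦 ⧸ N)) ⁻¹' {q * a}) :=
    (measurable_snd hA).inter (measurable_fst (atb_coset hN _))
  rw [Measure.map_apply hm hs]
  congr 1
  ext w
  simp

theorem atb_pow [N.Normal] (hN : IsOpen (N : Set 𝒦)) {a : 𝒦} {v : SL(2, ℝ)}
    (ha : τ.map (fun w => (w.1 * a, v • w.2)) = τ) (q : 𝒦 ⧸ N) (n : ℕ) :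
    (atbT τ N q).map (fun y => v ^ n • y) = atbT τ N (q * (a : 𝒦 ⧸ N) ^ n) := by
  induction n with
  | zero => simp
  | succ n ih =>
    rw [pow_succ (a : 𝒦 ⧸ N), ← mul_assoc, ← atb_map τ hN ha, ← ih,
      Measure.map_map (atb_meas _) (atb_meas _)]
    congr 1
    ext y
    simp [pow_succ', mul_smul]

/-- The self-joining of the measure over a finite quotient. -/
theorem atb_level [PolishSpace 𝒦] [CompactSpace 𝒦] [IsProbabilityMeasure τ]
    (hl : τ.fst.IsMulLeftInvariant)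
    (N : Subgroup 𝒦) [N.Normal] (hN : IsOpen (N : Set 𝒦)) : ∃ σ : Measure (YY × YY),
    (∀ A, MeasurableSet A → σ (A ×ˢ Set.univ) = τ.snd A ∧ σ (Set.univ ×ˢ A) = τ.snd A) ∧
    (∀ (a : 𝒦) (v : SL(2, ℝ)), τ.map (fun w => (w.1 * a, v • w.2)) = τ →
      σ.map (fun w => (v • w.1, v • w.2)) = σ) ∧
    (∀ (S : Set (𝒦 × YY)) (W : Set (YY × YY)), IsCompact S →
      (∀ w ∈ S, ∀ w' ∈ S, w.1⁻¹ * w'.1 ∈ N → (w.2, w'.2) ∈ W) → τ S ^ 2 ≤ σ W) ∧
    (σ (Set.diagonal YY) ≠ 0 → ∃ y, τ.snd {y} ≠ 0 ∧ ∀ (a : 𝒦) (v : SL(2, ℝ)),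
      τ.map (fun w => (w.1 * a, v • w.2)) = τ → ∃ M : ℕ, 0 < M ∧ v ^ M • y = y) := by
  have := N.quotient_finite_of_isOpen hN
  have := Fintype.ofFinite (𝒦 ⧸ N)
  refine ⟨(Fintype.card (𝒦 ⧸ N) : ℝ≥0∞) • ∑ q, (atbT τ N q).prod (atbT τ N q), fun A hA => ?_,
    fun a v ha => ?_, fun S W hS hW => ?_, fun h => ?_⟩
  · simp only [Measure.smul_apply, Measure.finsetSum_apply, Measure.prod_prod, smul_eq_mul,
      Finset.mul_sum, ← atb_sum' τ hN hA]
    refine ⟨Finset.sum_congr rfl fun q _ => ?_, Finset.sum_congr rfl fun q _ => ?_⟩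
    · rw [mul_left_comm, atb_mass τ hN hl, mul_one]
    · rw [← mul_assoc, atb_mass τ hN hl, one_mul]
  · have hm : Measurable (Prod.map (fun y : YY => v • y) fun y : YY => v • y) :=
      (atb_meas v).prodMap (atb_meas v)
    change Measure.map (Prod.map (fun y : YY => v • y) fun y : YY => v • y) _ = _
    rw [Measure.map_smul, Measure.map_finset_sum hm.aemeasurable]
    congr 1
    refine Fintype.sum_equiv (Equiv.mulRight (a : 𝒦 ⧸ N)) _ _ fun q => ?_
    rw [← Measure.map_prod_map _ _ (atb_meas v) (atb_meas v), atb_map τ hN ha]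
    rfl
  · let c : 𝒦 ⧸ N → ℝ≥0∞ := fun q => τ.restrict S ((fun w => (w.1 : 𝒦 ⧸ N)) ⁻¹' {q})
    have hc : ∀ q, c q ≠ ∞ := fun q => measure_ne_top _ _
    have h1 := ENNReal.coe_le_coe.2 (sq_sum_le_card_mul_sum_sq (s := Finset.univ)
      (f := fun q => (c q).toNNReal))
    push_cast at h1
    simp only [ENNReal.coe_toNNReal (hc _)] at h1
    rw [← atb_sum τ hN S, Measure.smul_apply, Measure.finsetSum_apply, smul_eq_mul]
    refine h1.trans (mul_le_mul_right (Finset.sum_le_sum fun q _ => ?_) _)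
    have := QuotientGroup.discreteTopology_iff.2 hN
    let B : Set YY := Prod.snd '' (S ∩ (fun w => (w.1 : 𝒦 ⧸ N)) ⁻¹' {q})
    have hB : MeasurableSet B := ((hS.inter_right ((isClosed_discrete {q}).preimage
      (QuotientGroup.continuous_mk.comp continuous_fst))).image continuous_snd).measurableSet
    have h2 : c q ≤ atbT τ N q B := by
      simp only [c]
      rw [atb_apply τ q hB, Measure.restrict_apply' hS.measurableSet]
      exact measure_mono fun w hw => ⟨⟨w, ⟨hw.2, hw.1⟩, rfl⟩, hw.1⟩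
    rw [sq]
    refine (mul_le_mul' h2 h2).trans ((Measure.prod_prod _ _).ge.trans (measure_mono ?_))
    rintro ⟨_, _⟩ ⟨⟨w, ⟨w1, w2⟩, rfl⟩, ⟨w', ⟨w3, w4⟩, rfl⟩⟩
    exact hW w w1 w' w3 (QuotientGroup.eq.1 (w2.trans w4.symm))
  · rw [Measure.smul_apply, Measure.finsetSum_apply] at h
    obtain ⟨q, -, hq⟩ := Finset.exists_ne_zero_of_sum_ne_zero (right_ne_zero_of_smul h)
    rw [Measure.prod_apply isClosed_diagonal.measurableSet] at hq
    have hy : ∃ y, atbT τ N q {y} ≠ 0 := by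
      by_contra h1
      push Not at h1
      refine hq (lintegral_eq_zero_of_ae_eq_zero (Eventually.of_forall fun y => ?_))
      refine Eq.trans (congrArg _ ?_) (h1 y)
      ext z
      simp [eq_comm]
    obtain ⟨y, hy⟩ := hy
    refine ⟨y, fun h1 => hy ?_, fun a v ha => ?_⟩
    · rw [← atb_sum' τ hN (measurableSet_singleton y), Finset.sum_eq_zero_iff] at h1
      exact h1 q (Finset.mem_univ _)
    · have h2 := atb_pow τ hN ha q (Fintype.card (𝒦 ⧸ N))
      rw [pow_card_eq_one, mul_one] at h2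
      obtain ⟨M, h3, h4⟩ := atb_per _ h2 hy
      exact ⟨_, Nat.mul_pos Fintype.card_pos h3, by rwa [pow_mul]⟩

end level

theorem atb_mul {g : SL(2, ℝ)} {y : YY} (h : g • y = y) (n : ℕ) : g ^ n • y = y := by
  induction n with
  | zero => simp
  | succ n ih => rw [pow_succ, mul_smul, h, ih]

theorem atom {𝒦 : Type} [Group 𝒦] [TopologicalSpace 𝒦] [IsTopologicalGroup 𝒦] [CompactSpace 𝒦]
    [TotallyDisconnectedSpace 𝒦] [PolishSpace 𝒦] [MeasurableSpace 𝒦] [BorelSpace 𝒦]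
    (τ : Measure (𝒦 × YY)) [IsProbabilityMeasure τ] (hl : τ.fst.IsMulLeftInvariant) (a b : 𝒦)
    {v v' : SL(2, ℝ)} (hv : Unip v) (hv' : Unip v')
    (hc : ∀ δ : SL(2, ℝ), δ * v = v * δ → δ * v' = v' * δ → δ = 1 ∨ δ = -1)
    (ha : τ.map (fun w => (w.1 * a, v • w.2)) = τ) (hb : τ.map (fun w => (w.1 * b, v' • w.2)) = τ)
    {C : Set (𝒦 × YY)} (hC : MeasurableSet C) (h0 : τ C ≠ 0)
    (h1 : ∀ k y y', (k, y) ∈ C → (k, y') ∈ C → y = y') :
    ∃ y : YY, τ (Set.univ ×ˢ {y}) ≠ 0 ∧ ∃ N : ℕ, 0 < N ∧ v ^ N • y = y ∧ v' ^ N • y = y := by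
  obtain ⟨S, hSC, hS, hS0⟩ := hC.exists_lt_isCompact (pos_iff_ne_zero.2 h0)
  obtain ⟨ε, hε, hε'⟩ := ENNReal.exists_nnreal_pos_mul_lt (a := 8) (by simp)
    (pow_ne_zero 2 hS0.ne')
  replace hε : (0 : ℝ≥0∞) < ε := by exact_mod_cast hε
  obtain ⟨V, hV⟩ := (𝓝 (1 : 𝒦)).exists_antitone_basis
  choose N hN using fun i => ProfiniteGrp.exist_openNormalSubgroup_sub_open_nhds_of_one
    (isOpen_interior (s := V i)) (mem_interior_iff_mem_nhds.2 (hV.mem i))
  choose σ s1 s2 s3 s4 using fun i => atb_level τ hl (N i).toSubgroup (N i).isOpen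
  have hp : ∀ i, IsProbabilityMeasure (σ i) := fun i => ⟨by
    rw [← Set.univ_prod_univ, (s1 i _ MeasurableSet.univ).1, measure_univ]⟩
  have hex : ∃ i, σ i (Set.diagonal YY) ≠ 0 := by
    by_contra hd
    push Not at hd
    have ht : ∀ η : ℝ≥0∞, η ≠ 0 → ∃ Ω, IsCompact Ω ∧ τ.snd Ωᶜ ≤ η := fun η hη => by
      obtain ⟨Ω, -, o1, o2⟩ := MeasurableSet.univ.exists_isCompact_sdiff_lt
        (measure_ne_top τ.snd _) hη
      exact ⟨Ω, o1, by rw [Set.compl_eq_univ_sdiff]; exact o2.le⟩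
    obtain ⟨ν, hν, hW⟩ := exists_WT (hyperfilter ℕ) Nat.hyperfilter_le_atTop σ fun η hη => by
      obtain ⟨Ω, o1, o2⟩ := ht (η / 2) (ENNReal.half_pos hη.ne').ne'
      refine ⟨Ω ×ˢ Ω, o1.prod o1, Eventually.of_forall fun i => ?_⟩
      rw [Set.compl_prod_eq_union, ← ENNReal.add_halves η]
      refine (measure_union_le _ _).trans ?_
      rw [(s1 i _ o1.measurableSet.compl).1, (s1 i _ o1.measurableSet.compl).2]
      exact add_le_add o2 o2
    obtain ⟨Ω, o1, o2⟩ := ht ε hε.ne'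
    obtain ⟨R, hR, hA⟩ := atb_ann ν o1 hε
    obtain ⟨C₁, c1, n1⟩ := near_diag hv
    obtain ⟨C₂, c2, n2⟩ := near_diag hv'
    obtain ⟨r, r0, r1, r2, r3⟩ : ∃ r : ℝ, 0 < r ∧ r ≤ 1 ∧ C₁ * r ≤ R ∧ C₂ * r ≤ R := by
      have h2 : 0 < C₁ + C₂ := by linarith
      have h3 : (C₁ + C₂) * min 1 (R / (C₁ + C₂)) ≤ R :=
        (le_div_iff₀' h2).1 (min_le_right _ _)
      have h4 : 0 < min 1 (R / (C₁ + C₂)) := by positivity
      exact ⟨_, h4, min_le_left _ _, by nlinarith, by nlinarith⟩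
    let W : Set (YY × YY) := {w | ∃ δ, dev δ < r ∧ w.2 = δ • w.1}
    have hK : IsCompact ((fun x : (𝒦 × YY) × 𝒦 × YY => x.1.1⁻¹ * x.2.1) ''
        (S ×ˢ S ∩ (fun x => (x.1.2, x.2.2)) ⁻¹' Wᶜ)) :=
      ((hS.prod hS).inter_right ((isOpen_near r).isClosed_compl.preimage (by fun_prop))).image
        (by fun_prop)
    have hn := hK.isClosed.isOpen_compl.mem_nhds (x := 1) (by
      rintro ⟨⟨⟨k, y⟩, k', y'⟩, ⟨⟨x1, x2⟩, x3⟩, x4⟩
      obtain rfl : k = k' := inv_mul_eq_one.1 x4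
      obtain rfl := h1 k y y' (hSC x1) (hSC x2)
      exact x3 ⟨1, by rwa [dev_eq_zero.2 rfl], (one_smul _ _).symm⟩)
    obtain ⟨i, i1, i2, i3⟩ := (((hV.eventually_subset hn).filter_mono
      Nat.hyperfilter_le_atTop).and
      ((hW.closed_lt (isCompact_Ann o1 _ _).isClosed (hA r _ r0 r2)).and
        (hW.closed_lt (isCompact_Ann o1 _ _).isClosed (hA r _ r0 r3)))).exists
    have e1 := s3 i S W hS fun w w1 w' w2 w3 => by
      by_contra w4
      exact i1 (interior_subset (hN i w3)) ⟨(w, w'), ⟨⟨w1, w2⟩, w4⟩, rfl⟩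
    have e2 := n1 (σ i) (s2 i a v ha) Ω o1 r r0 r1
    have e3 := n2 (σ i) (s2 i b v' hb) Ω o1 r r0 r1
    rw [(s1 i _ o1.measurableSet.compl).1] at e2 e3
    have e4 : W ⊆ ({w | ∃ δ, dev δ < r ∧ δ * v ≠ v * δ ∧ w.2 = δ • w.1} ∪
        {w | ∃ δ, dev δ < r ∧ δ * v' ≠ v' * δ ∧ w.2 = δ • w.1}) ∪ Set.diagonal YY := by
      rintro w ⟨δ, d1, d2⟩
      by_cases d3 : δ * v = v * δ
      · by_cases d4 : δ * v' = v' * δ
        · refine Or.inr ?_
          rcases hc δ d3 d4 with rfl | rfl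
          · exact (d2.trans (one_smul _ _)).symm
          · exact (d2.trans (neg_one_smul_YY _)).symm
        · exact Or.inl (Or.inr ⟨δ, d1, d4, d2⟩)
      · exact Or.inl (Or.inl ⟨δ, d1, d3, d2⟩)
    have e5 := (measure_mono (μ := σ i) e4).trans ((measure_union_le _ _).trans
      (add_le_add_left (measure_union_le _ _) _))
    rw [hd i, add_zero] at e5
    refine hε'.not_ge (e1.trans (e5.trans ((add_le_add e2 e3).trans ?_)))
    calc _ ≤ 2 * ((ε : ℝ≥0∞) + ε) + 2 * (ε + ε) := by gcongr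
      _ = _ := by ring
  obtain ⟨i, hi⟩ := hex
  obtain ⟨y, y1, y2⟩ := s4 i hi
  obtain ⟨M, m1, m2⟩ := y2 a v ha
  obtain ⟨M', m3, m4⟩ := y2 b v' hb
  refine ⟨y, ?_, M * M', Nat.mul_pos m1 m3, ?_, ?_⟩
  · rwa [Measure.snd_apply (measurableSet_singleton y), ← Set.univ_prod] at y1
  · rw [pow_mul]
    exact atb_mul m2 _
  · rw [mul_comm, pow_mul]
    exact atb_mul m4 _

end Pool.Agent.EQ
end
end

-- part Pool.Agent.P.MP_ad7a55_nt.Avg
section

/-! Ball averages of a flow of ℚ_p. -/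

set_option autoImplicit false

noncomputable section

open MeasureTheory Topology Filter UpperHalfPlane
open scoped MatrixGroups ENNReal BoundedContinuousFunction

namespace Pool.Agent.EQ

variable {p : ℕ} [Fact p.Prime] {W : Type} [TopologicalSpace W] [PolishSpace W] [MeasurableSpace W]
  [BorelSpace W] (φ : Flow ℚ_[p] W)

/-- The uniform measure on the piece of orbit over the ball of radius `p^k`. -/
def orb (k : ℤ) (w : W) : Measure W := (bm p k).map fun s => φ s w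

/-- Invariance under the flow. -/
def Inv (μ : Measure W) : Prop := ∀ s, μ.map (φ s) = μ

theorem measurable_flow (w : W) : Measurable fun s => φ s w :=
  (φ.continuous continuous_id continuous_const).measurable

instance instProborb (k : ℤ) (w : W) : IsProbabilityMeasure (orb φ k w) :=
  Measure.isProbabilityMeasure_map (measurable_flow φ w).aemeasurable

theorem orb_apply (k : ℤ) (w : W) {B : Set W} (hB : MeasurableSet B) :
    orb φ k w B = bm p k {s | φ s w ∈ B} :=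
  Measure.map_apply (measurable_flow φ w) hB

theorem integral_orb (k : ℤ) (w : W) {f : W → ℝ} (hf : Continuous f) :
    ∫ x, f x ∂orb φ k w = ∫ s, f (φ s w) ∂bm p k :=
  integral_map (measurable_flow φ w).aemeasurable hf.aestronglyMeasurable

theorem avgA_cont2 : Continuous fun z : ℚ_[p] × W => φ z.1 z.2 :=
  φ.continuous continuous_fst continuous_snd

theorem avgA_meas2 : Measurable fun z : ℚ_[p] × W => φ z.1 z.2 := (avgA_cont2 φ).measurable

theorem avgA_meas3 : Measurable fun z : W × ℚ_[p] => φ z.2 z.1 :=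
  (φ.continuous continuous_snd continuous_fst).measurable

theorem avgA_meas1 (s : ℚ_[p]) : Measurable (φ s) := (φ.continuous_toFun s).measurable

theorem measurable_orb (k : ℤ) : Measurable (orb φ k) := by
  refine Measure.measurable_of_measurable_coe _ fun B hB => ?_
  have h := measurable_measure_prodMk_right (μ := bm p k) (avgA_meas2 φ hB)
  have he : (fun w => orb φ k w B) =
      fun w => bm p k ((fun s => (s, w)) ⁻¹' ((fun z : ℚ_[p] × W => φ z.1 z.2) ⁻¹' B)) := by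
    funext w
    rw [orb_apply φ k w hB]; rfl
  rw [he]; exact h

theorem continuous_integral_orb (k : ℤ) (f : W →ᵇ ℝ) :
    Continuous fun w => ∫ x, f x ∂orb φ k w := by
  simp only [integral_orb φ k _ f.continuous]
  refine continuous_of_dominated (bound := fun _ => ‖f‖) (fun w => ?_) (fun w => ?_)
    (integrable_const _) (ae_of_all _ fun s => ?_)
  · exact (f.continuous.comp (φ.continuous continuous_id continuous_const)).aestronglyMeasurable
  · exact ae_of_all _ fun s => f.norm_coe_le_norm _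
  · exact f.continuous.comp (φ.continuous_toFun s)

theorem orb_flow {k : ℤ} {s : ℚ_[p]} (hs : ‖s‖ ≤ (p : ℝ) ^ k) (w : W) :
    orb φ k (φ s w) = orb φ k w := by
  have h : (fun t => φ t (φ s w)) = (fun t => φ t w) ∘ fun t => t + s := by
    funext t; simp only [Function.comp, φ.map_add]
  unfold orb
  rw [h, ← Measure.map_map (measurable_flow φ w) (measurable_add_const s), bm_add p hs]

theorem map_orb {k : ℤ} {s : ℚ_[p]} (hs : ‖s‖ ≤ (p : ℝ) ^ k) (w : W) :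
    (orb φ k w).map (φ s) = orb φ k w := by
  have h : (φ s ∘ fun t => φ t w) = fun t => φ t (φ s w) := by
    funext t; simp only [Function.comp, ← φ.map_add, add_comm]
  conv_rhs => rw [← orb_flow φ hs w]
  unfold orb
  rw [Measure.map_map (avgA_meas1 φ s) (measurable_flow φ w), h]

theorem avgA_lorb (k : ℤ) (w : W) {f : W → ℝ≥0∞} (hf : Measurable f) :
    ∫⁻ x, f x ∂orb φ k w = ∫⁻ s, f (φ s w) ∂bm p k :=
  lintegral_map hf (measurable_flow φ w)

theorem Inv.avgA_lint {μ : Measure W} [IsFiniteMeasure μ] (hμ : Inv φ μ) (k : ℤ)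
    {f : W → ℝ≥0∞} (hf : Measurable f) :
    ∫⁻ w, ∫⁻ x, f x ∂orb φ k w ∂μ = ∫⁻ x, f x ∂μ := by
  simp only [avgA_lorb φ k _ hf]
  rw [lintegral_lintegral_swap (f := fun w s => f (φ s w)) (hf.comp (avgA_meas3 φ)).aemeasurable]
  have h : ∀ s, ∫⁻ w, f (φ s w) ∂μ = ∫⁻ x, f x ∂μ := fun s => by
    rw [← lintegral_map hf (avgA_meas1 φ s), hμ s]
  simp only [h, lintegral_const, measure_univ, mul_one]

theorem Inv.bind_orb {μ : Measure W} [IsFiniteMeasure μ] (hμ : Inv φ μ) (k : ℤ) :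
    μ.bind (orb φ k) = μ := by
  ext B hB
  rw [Measure.bind_apply hB (measurable_orb φ k).aemeasurable]
  have h := hμ.avgA_lint φ k (f := B.indicator 1) (measurable_one.indicator hB)
  simpa only [lintegral_indicator_one hB] using h

theorem Inv.integral_orb {μ : Measure W} [IsFiniteMeasure μ] (hμ : Inv φ μ) (k : ℤ)
    (f : W →ᵇ ℝ) : ∫ w, ∫ x, f x ∂orb φ k w ∂μ = ∫ x, f x ∂μ := by
  simp only [EQ.integral_orb φ k _ f.continuous]
  have hi : Integrable (Function.uncurry fun (w : W) (s : ℚ_[p]) => f (φ s w))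
      (μ.prod (bm p k)) := by
    refine Integrable.of_bound (C := ‖f‖) ?_ (ae_of_all _ fun z => f.norm_coe_le_norm _)
    exact (f.continuous.comp (φ.continuous continuous_snd continuous_fst)).aestronglyMeasurable
  rw [integral_integral_swap hi]
  have h : ∀ s, ∫ w, f (φ s w) ∂μ = ∫ x, f x ∂μ := fun s => by
    rw [← integral_map (avgA_meas1 φ s).aemeasurable f.continuous.aestronglyMeasurable, hμ s]
  simp only [h, integral_const, probReal_univ, one_smul]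

/-- Averaging does not change the integral over a set invariant under the ball. -/
theorem Inv.avgA_setL {μ : Measure W} [IsFiniteMeasure μ] (hμ : Inv φ μ) (k : ℤ)
    {f : W → ℝ≥0∞} (hf : Measurable f) {E : Set W} (hE : MeasurableSet E)
    (hinv : ∀ s, ‖s‖ ≤ (p : ℝ) ^ k → ∀ w, φ s w ∈ E ↔ w ∈ E) :
    ∫⁻ w in E, ∫⁻ x, f x ∂orb φ k w ∂μ = ∫⁻ x in E, f x ∂μ := by
  rw [← lintegral_indicator hE, ← lintegral_indicator hE,
    ← hμ.avgA_lint φ k (hf.indicator hE)]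
  refine lintegral_congr fun w => ?_
  rw [avgA_lorb φ k w (hf.indicator hE)]
  by_cases hw : w ∈ E
  · rw [Set.indicator_of_mem hw, avgA_lorb φ k w hf]
    refine lintegral_congr_ae ((bm_ae p k).mono fun s hs => ?_)
    simp only [Set.indicator_of_mem ((hinv s hs w).2 hw)]
  · rw [Set.indicator_of_notMem hw]
    symm
    refine (lintegral_congr_ae ((bm_ae p k).mono fun s hs => ?_)).trans lintegral_zero
    simp only [Set.indicator_of_notMem (fun h => hw ((hinv s hs w).1 h))]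

theorem avgA_mlo (k : ℤ) {f : W → ℝ≥0∞} (hf : Measurable f) :
    Measurable fun w => ∫⁻ x, f x ∂orb φ k w :=
  (Measure.measurable_lintegral hf).comp (measurable_orb φ k)

theorem Inv.avgA_maxfin {μ : Measure W} [IsFiniteMeasure μ] (hμ : Inv φ μ) {f : W → ℝ≥0∞}
    (hf : Measurable f) (c : ℝ≥0∞) (K : ℕ) :
    ∀ E : Set W, MeasurableSet E → (∀ s, ‖s‖ ≤ (p : ℝ) ^ (K : ℤ) → ∀ w, φ s w ∈ E ↔ w ∈ E) →
      c * μ (E ∩ {w | ∃ k : ℕ, k < K ∧ c < ∫⁻ x, f x ∂orb φ k w}) ≤ ∫⁻ x in E, f x ∂μ := by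
  have hp : (1 : ℝ) ≤ p := by exact_mod_cast (Fact.out : p.Prime).one_lt.le
  induction K with
  | zero => intro E _ _; simp
  | succ K ih =>
    intro E hE hinv
    have hinv' : ∀ s, ‖s‖ ≤ (p : ℝ) ^ (K : ℤ) → ∀ w, φ s w ∈ E ↔ w ∈ E := fun s hs =>
      hinv s (hs.trans (zpow_le_zpow_right₀ hp (by push_cast; omega)))
    set T : Set W := {w | c < ∫⁻ x, f x ∂orb φ K w} with hT
    have hTm : MeasurableSet T :=
      measurableSet_lt measurable_const (avgA_mlo φ K hf)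
    have hTi : ∀ s, ‖s‖ ≤ (p : ℝ) ^ (K : ℤ) → ∀ w, φ s w ∈ T ↔ w ∈ T := fun s hs w => by
      simp only [hT, Set.mem_ofPred_eq, orb_flow φ hs w]
    have h1 : c * μ (E ∩ T) ≤ ∫⁻ x in E ∩ T, f x ∂μ := by
      rw [← hμ.avgA_setL φ K hf (hE.inter hTm) (fun s hs w => by
        simp only [Set.mem_inter_iff, hinv' s hs w, hTi s hs w]), ← setLIntegral_const]
      exact setLIntegral_mono' (hE.inter hTm) fun w hw => le_of_lt hw.2
    have h2 := ih (E \ T) (hE.diff hTm) (fun s hs w => by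
      simp only [Set.mem_sdiff, hinv' s hs w, hTi s hs w])
    have hsub : E ∩ {w | ∃ k : ℕ, k < K + 1 ∧ c < ∫⁻ x, f x ∂orb φ k w} ⊆
        (E ∩ T) ∪ ((E \ T) ∩ {w | ∃ k : ℕ, k < K ∧ c < ∫⁻ x, f x ∂orb φ k w}) := by
      rintro w ⟨hw, k, hk, hc⟩
      by_cases hwT : w ∈ T
      · exact Or.inl ⟨hw, hwT⟩
      · refine Or.inr ⟨⟨hw, hwT⟩, k, ?_, hc⟩
        rcases Nat.lt_succ_iff_lt_or_eq.1 hk with h | h
        · exact h
        · subst h; exact absurd hc hwT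
    calc c * μ (E ∩ {w | ∃ k : ℕ, k < K + 1 ∧ c < ∫⁻ x, f x ∂orb φ k w})
        ≤ c * (μ (E ∩ T) + μ ((E \ T) ∩ {w | ∃ k : ℕ, k < K ∧ c < ∫⁻ x, f x ∂orb φ k w})) := by
          gcongr
          exact (measure_mono hsub).trans (measure_union_le _ _)
      _ ≤ ∫⁻ x in E ∩ T, f x ∂μ + ∫⁻ x in E \ T, f x ∂μ := by
          rw [mul_add]; exact add_le_add h1 h2
      _ = ∫⁻ x in E, f x ∂μ := lintegral_inter_add_sdiff _ _ hTm

/-- The maximal inequality. -/
theorem Inv.maximal {μ : Measure W} [IsFiniteMeasure μ] (hμ : Inv φ μ) {f : W → ℝ≥0∞}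
    (hf : Measurable f) (c : ℝ≥0∞) :
    c * μ {w | ∃ k : ℕ, c < ∫⁻ x, f x ∂orb φ k w} ≤ ∫⁻ x, f x ∂μ := by
  have hU : {w | ∃ k : ℕ, c < ∫⁻ x, f x ∂orb φ k w} =
      ⋃ K : ℕ, {w | ∃ k : ℕ, k < K ∧ c < ∫⁻ x, f x ∂orb φ k w} := by
    ext w
    simp only [Set.mem_ofPred_eq, Set.mem_iUnion]
    exact ⟨fun ⟨k, hk⟩ => ⟨k + 1, k, Nat.lt_succ_self k, hk⟩, fun ⟨_, k, _, hk⟩ => ⟨k, hk⟩⟩
  have hm : Monotone fun K : ℕ => {w | ∃ k : ℕ, k < K ∧ c < ∫⁻ x, f x ∂orb φ k w} :=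
    fun K L hKL w ⟨k, hk, hc⟩ => ⟨k, hk.trans_le hKL, hc⟩
  rw [hU, hm.measure_iUnion, ENNReal.mul_iSup]
  refine iSup_le fun K => ?_
  have h := hμ.avgA_maxfin φ hf c K Set.univ MeasurableSet.univ (fun _ _ _ => by simp)
  simpa only [Set.univ_inter, Measure.restrict_univ] using h

end Pool.Agent.EQ
end
end

-- part Pool.Agent.P.MP_ad7a55_nt.Di2
section

/-! Subgroups of SL₂(ℝ) × SL₂(ℝ) with full first projection. -/

set_option autoImplicit false

noncomputable section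

open MeasureTheory Topology Filter UpperHalfPlane
open scoped MatrixGroups ENNReal BoundedContinuousFunction

namespace Pool.Agent.EQ

/-- The subgroup generated by `M` and the pair of `1` and `-1`. -/
def di2_pm (M : Subgroup (SL(2, ℝ) × SL(2, ℝ))) : Subgroup (SL(2, ℝ) × SL(2, ℝ)) where
  carrier := {x | (x.1, x.2) ∈ M ∨ (x.1, -x.2) ∈ M}
  one_mem' := Or.inl M.one_mem
  mul_mem' := by
    rintro ⟨a, b⟩ ⟨c, d⟩ (h | h) (h' | h')
    · exact Or.inl (M.mul_mem h h')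
    · exact Or.inr (by simpa using M.mul_mem h h')
    · exact Or.inr (by simpa using M.mul_mem h h')
    · exact Or.inl (by simpa using M.mul_mem h h')
  inv_mem' := by
    rintro ⟨a, b⟩ (h | h)
    · exact Or.inl (M.inv_mem h)
    · exact Or.inr (by simpa using M.inv_mem h)

theorem di2_mem_pm {M : Subgroup (SL(2, ℝ) × SL(2, ℝ))} {a b : SL(2, ℝ)} :
    (a, b) ∈ di2_pm M ↔ (a, b) ∈ M ∨ (a, -b) ∈ M := Iff.rfl

theorem di2_comm {M : Subgroup (SL(2, ℝ) × SL(2, ℝ))} {a A b B : SL(2, ℝ)}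
    (h : (a, A) ∈ di2_pm M) (h' : (b, B) ∈ di2_pm M) :
    (a * b * a⁻¹ * b⁻¹, A * B * A⁻¹ * B⁻¹) ∈ M := by
  rcases h with h | h <;> rcases h' with h' | h' <;>
    simpa using M.mul_mem (M.mul_mem (M.mul_mem h h') (M.inv_mem h)) (M.inv_mem h')

/-- A homomorphism whose graph lies in `± M` has its graph in `M`. -/
theorem di2_graph {M : Subgroup (SL(2, ℝ) × SL(2, ℝ))} (θ : SL(2, ℝ) →* SL(2, ℝ))
    (h : ∀ a, (a, θ a) ∈ di2_pm M) (a : SL(2, ℝ)) : (a, θ a) ∈ M := by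
  have := SL2_perfect (M.comap ((MonoidHom.id _).prod θ)) (fun a b => by
    simpa [Subgroup.mem_comap] using di2_comm (h a) (h b))
  have ha : a ∈ M.comap ((MonoidHom.id _).prod θ) := this ▸ Subgroup.mem_top a
  simpa [Subgroup.mem_comap] using ha

theorem di2_uniq {M : Subgroup (SL(2, ℝ) × SL(2, ℝ))}
    (hc : ∀ g : SL(2, ℝ), (1, g) ∈ M → g = 1 ∨ g = -1) {h g g' : SL(2, ℝ)} (h1 : (h, g) ∈ M)
    (h2 : (h, g') ∈ M) : g' = g ∨ g' = -g := by
  rcases hc (g⁻¹ * g') (by simpa using M.mul_mem (M.inv_mem h1) h2) with h | h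
  · exact Or.inl (inv_mul_eq_one.1 h).symm
  · right
    have := congrArg (g * ·) h
    simpa using this

theorem di2_det (g : SL(2, ℝ)) : g 0 0 * g 1 1 - g 0 1 * g 1 0 = 1 := by
  have := g.det_coe
  rwa [Matrix.det_fin_two] at this

theorem di2_mul (a b : SL(2, ℝ)) (i j : Fin 2) : (a * b) i j = a i 0 * b 0 j + a i 1 * b 1 j := by
  simp [Matrix.mul_apply, Fin.sum_univ_two]

theorem di2_neg (a : SL(2, ℝ)) (i j : Fin 2) : (-a) i j = -a i j := rfl

theorem di2_ext {a b : SL(2, ℝ)} (h1 : a 0 0 = b 0 0) (h2 : a 0 1 = b 0 1) (h3 : a 1 0 = b 1 0)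
    (h4 : a 1 1 = b 1 1) : a = b := by
  ext i j; fin_cases i <;> fin_cases j <;> assumption

theorem di2_inv (a : SL(2, ℝ)) :
    a⁻¹ 0 0 = a 1 1 ∧ a⁻¹ 0 1 = -a 0 1 ∧ a⁻¹ 1 0 = -a 1 0 ∧ a⁻¹ 1 1 = a 0 0 := by
  rw [Matrix.SpecialLinearGroup.SL2_inv_expl]
  simp

theorem di2_tr_conj (B V : SL(2, ℝ)) :
    (B * V * B⁻¹) 0 0 + (B * V * B⁻¹) 1 1 = V 0 0 + V 1 1 := by
  obtain ⟨i1, i2, i3, i4⟩ := di2_inv B
  simp only [di2_mul, i1, i2, i3, i4]
  linear_combination (V 0 0 + V 1 1) * di2_det B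

/-- The Weyl element. -/
def di2_w : SL(2, ℝ) := uu 1 * ul (-1) * uu 1

theorem di2_w_conj (x : ℝ) : di2_w * uu x * di2_w⁻¹ = ul (-x) := by
  rw [mul_inv_eq_iff_eq_mul]
  apply di2_ext <;> simp [di2_w, Matrix.mul_apply, Fin.sum_univ_two]

theorem di2_w_braid : di2_w = ul (-1) * uu 1 * ul (-1) := by
  apply di2_ext <;> simp [di2_w, Matrix.mul_apply, Fin.sum_univ_two]

theorem di2_w_four : di2_w * di2_w * (di2_w * di2_w) = 1 := by
  apply di2_ext <;> simp [di2_w, Matrix.mul_apply, Fin.sum_univ_two]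

theorem di2_dg_conj (t : ℝ) (ht : t ≠ 0) (x : ℝ) :
    dg t ht * uu x * (dg t ht)⁻¹ = uu (t ^ 2 * x) := by
  rw [mul_inv_eq_iff_eq_mul]
  apply di2_ext <;> simp [Matrix.mul_apply, Fin.sum_univ_two]
  field_simp

/-- If a nontrivial upper unipotent is in the first factor, so is everything. -/
theorem di2_normal {M : Subgroup (SL(2, ℝ) × SL(2, ℝ))} (hfull : ∀ h, ∃ g, (h, g) ∈ M) {x : ℝ}
    (hx : x ≠ 0) (h : (uu x, 1) ∈ M) (a : SL(2, ℝ)) : (a, 1) ∈ M := by
  have hn : ∀ a b : SL(2, ℝ), (a, 1) ∈ M → (b * a * b⁻¹, 1) ∈ M := fun a b ha => by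
    obtain ⟨B, hB⟩ := hfull b
    simpa using M.mul_mem (M.mul_mem hB ha) (M.inv_mem hB)
  have hu : ∀ y : ℝ, (uu y, 1) ∈ M := fun y => by
    have key : ∀ y : ℝ, 0 < y / x → (uu y, 1) ∈ M := fun y hy => by
      have := hn _ (dg √(y / x) (Real.sqrt_pos.2 hy).ne') h
      rwa [di2_dg_conj, Real.sq_sqrt hy.le, div_mul_cancel₀ _ hx] at this
    rcases lt_trichotomy (y / x) 0 with hy | hy | hy
    · have := M.inv_mem (key (-y) (by rw [neg_div]; linarith))
      simpa [uu_inv] using this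
    · rcases div_eq_zero_iff.1 hy with rfl | h0
      · rw [uu_zero]; exact M.one_mem
      · exact absurd h0 hx
    · exact key y hy
  have := SL2_gen (M.comap (MonoidHom.inl SL(2, ℝ) SL(2, ℝ))) (fun y => hu y) (fun y => by
    have := hn _ di2_w (hu (-y))
    rw [di2_w_conj, neg_neg] at this
    exact this)
  have ha : a ∈ M.comap (MonoidHom.inl SL(2, ℝ) SL(2, ℝ)) := this ▸ Subgroup.mem_top a
  exact ha

theorem di2_add_mono (φ : ℝ →+ ℝ) (h1 : φ 1 = 1) (hpos : ∀ x, 0 < x → 0 ≤ φ x) (x : ℝ) :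
    φ x = x := by
  have hq : ∀ q : ℚ, φ q = q := fun q => by
    have := map_ratCast_smul φ ℝ ℝ q 1
    simpa [h1] using this
  rcases lt_trichotomy (φ x) x with h | h | h
  · obtain ⟨q, h2, h3⟩ := exists_rat_btwn h
    have := hpos (x - q) (by linarith)
    rw [map_sub, hq] at this
    linarith
  · exact h
  · obtain ⟨q, h2, h3⟩ := exists_rat_btwn h
    have := hpos (q - x) (by linarith)
    rw [map_sub, hq] at this
    linarith

/-- The normalised case. -/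
theorem di2_norm {M : Subgroup (SL(2, ℝ) × SL(2, ℝ))} (hfull : ∀ h, ∃ g, (h, g) ∈ M)
    (hc : ∀ g : SL(2, ℝ), (1, g) ∈ M → g = 1 ∨ g = -1) (hm : ((1 : SL(2, ℝ)), -1) ∈ M)
    (h1 : (uu 1, uu 1) ∈ M) (h2 : (ul (-1), ul (-1)) ∈ M) (a : SL(2, ℝ)) : (a, a) ∈ M := by
  have hex : ∀ x : ℝ, ∃ y : ℝ, (uu x, uu y) ∈ M := fun x => by
    obtain ⟨X, hX⟩ := hfull (uu x)
    have h3 : (uu 1, X * uu 1 * X⁻¹) ∈ M := by
      have := M.mul_mem (M.mul_mem hX h1) (M.inv_mem hX)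
      simp only [Prod.mk_mul_mk, Prod.inv_mk, uu_inv, ← uu_add] at this
      rwa [show x + 1 + -x = 1 by ring] at this
    have h4 : X * uu 1 * X⁻¹ = uu 1 := by
      rcases di2_uniq hc h1 h3 with h | h
      · exact h
      · have := di2_tr_conj X (uu 1)
        rw [h] at this
        norm_num [di2_neg] at this
    rw [mul_inv_eq_iff_eq_mul] at h4
    have e1 := congrArg (fun g : SL(2, ℝ) => g 0 0) h4
    have e2 := congrArg (fun g : SL(2, ℝ) => g 0 1) h4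
    simp [di2_mul] at e1 e2
    have hd := di2_det X
    have e3 : X 1 1 = X 0 0 := by linarith
    rw [e1, e3] at hd
    have hs : (X 0 0 - 1) * (X 0 0 + 1) = 0 := by linear_combination hd
    rcases mul_eq_zero.1 hs with h | h
    · refine ⟨X 0 1, ?_⟩
      have : X = uu (X 0 1) := by
        apply di2_ext <;> simp <;> linarith
      rwa [← this]
    · refine ⟨-X 0 1, ?_⟩
      have : X * -1 = uu (-X 0 1) := by
        apply di2_ext <;> simp [di2_neg] <;> linarith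
      rw [← this]
      simpa using M.mul_mem hX hm
  choose f hf using hex
  have huniq : ∀ x y : ℝ, (uu x, uu y) ∈ M → f x = y := fun x y h => by
    rcases di2_uniq hc h (hf x) with h' | h'
    · simpa using congrArg (fun g : SL(2, ℝ) => g 0 1) h'
    · have := congrArg (fun g : SL(2, ℝ) => g 0 0) h'
      norm_num [di2_neg] at this
  let φ : ℝ →+ ℝ := AddMonoidHom.mk' f fun x y => huniq _ _ (by
    rw [uu_add, uu_add]; exact M.mul_mem (hf x) (hf y))
  have hφ : ∀ x, f x = x := di2_add_mono φ (huniq _ _ h1) fun x hx => by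
    obtain ⟨B, hB⟩ := hfull (dg √x (Real.sqrt_pos.2 hx).ne')
    have h3 : (uu x, B * uu 1 * B⁻¹) ∈ M := by
      have := M.mul_mem (M.mul_mem hB h1) (M.inv_mem hB)
      simp only [Prod.mk_mul_mk, Prod.inv_mk, di2_dg_conj] at this
      rwa [Real.sq_sqrt hx.le, mul_one] at this
    rcases di2_uniq hc (hf x) h3 with h | h
    · have := congrArg (fun g : SL(2, ℝ) => g 0 1) h
      obtain ⟨i1, i2, i3, i4⟩ := di2_inv B
      simp only [di2_mul, i2, i4] at this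
      simp at this
      change 0 ≤ f x
      nlinarith [sq_nonneg (B 0 0)]
    · have := di2_tr_conj B (uu 1)
      rw [h] at this
      norm_num [di2_neg] at this
  have hu : ∀ x : ℝ, (uu x, uu x) ∈ M := fun x => by simpa [hφ x] using hf x
  have hw : (di2_w, di2_w) ∈ M := M.mul_mem (M.mul_mem h1 h2) h1
  have := SL2_gen (M.comap ((MonoidHom.id _).prod (MonoidHom.id _))) (fun y => hu y) (fun y => by
    have := M.mul_mem (M.mul_mem hw (hu (-y))) (M.inv_mem hw)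
    simp only [Prod.mk_mul_mk, Prod.inv_mk, di2_w_conj, neg_neg] at this
    exact this)
  have ha : a ∈ M.comap ((MonoidHom.id _).prod (MonoidHom.id _)) := this ▸ Subgroup.mem_top a
  exact ha

/-- Conjugation by an invertible matrix. -/
def di2_conj (η : Matrix (Fin 2) (Fin 2) ℝ) (hη : η.det ≠ 0) : SL(2, ℝ) →* SL(2, ℝ) where
  toFun h := ⟨η * h * η⁻¹, by
    rw [Matrix.det_mul, Matrix.det_mul, h.det_coe, mul_one, ← Matrix.det_mul,
      Matrix.mul_nonsing_inv _ (Ne.isUnit hη), Matrix.det_one]⟩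
  map_one' := Subtype.ext (by simp [Matrix.mul_nonsing_inv _ (Ne.isUnit hη)])
  map_mul' a b := Subtype.ext (by
    change η * ((a : Matrix (Fin 2) (Fin 2) ℝ) * b) * η⁻¹ = η * a * η⁻¹ * (η * b * η⁻¹)
    simp only [Matrix.mul_assoc, Matrix.nonsing_inv_mul_cancel_left _ _ (Ne.isUnit hη)])

theorem di2_conj_mul (η : Matrix (Fin 2) (Fin 2) ℝ) (hη : η.det ≠ 0) (h : SL(2, ℝ)) :
    (di2_conj η hη h : Matrix (Fin 2) (Fin 2) ℝ) * η = η * h := by
  change η * h * η⁻¹ * η = _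
  rw [Matrix.nonsing_inv_mul_cancel_right _ _ (Ne.isUnit hη)]

theorem di2_conj_eq {η : Matrix (Fin 2) (Fin 2) ℝ} (hη : η.det ≠ 0) {h V : SL(2, ℝ)}
    (e : (V : Matrix (Fin 2) (Fin 2) ℝ) * η = η * h) : di2_conj η hη h = V := by
  apply Subtype.ext
  change η * h * η⁻¹ = _
  rw [← e, Matrix.mul_nonsing_inv_cancel_right _ _ (Ne.isUnit hη)]

theorem di2_conj_inj {η : Matrix (Fin 2) (Fin 2) ℝ} (hη : η.det ≠ 0) :
    Function.Injective (di2_conj η hη) := fun a b h => by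
  have h1 := di2_conj_mul η hη a
  rw [h, di2_conj_mul] at h1
  apply Subtype.ext
  have := congrArg (η⁻¹ * ·) h1
  simp only [Matrix.nonsing_inv_mul_cancel_left _ _ (Ne.isUnit hη)] at this
  exact this.symm

theorem di2_conj_neg {η : Matrix (Fin 2) (Fin 2) ℝ} (hη : η.det ≠ 0) :
    di2_conj η hη (-1) = -1 := di2_conj_eq hη (by simp)

/-- Two unipotents with `tr (N N') = -1` are simultaneously conjugate to the standard pair. -/
theorem di2_eta {V V' : SL(2, ℝ)} (h1 : V 0 0 + V 1 1 = 2) (h2 : V' 0 0 + V' 1 1 = 2)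
    (hτ : 2 * (V 0 0 - 1) * (V' 0 0 - 1) + V 0 1 * V' 1 0 + V 1 0 * V' 0 1 = -1) :
    ∃ η : Matrix (Fin 2) (Fin 2) ℝ, η.det ≠ 0 ∧
      (V : Matrix (Fin 2) (Fin 2) ℝ) * η = η * (uu (1 : ℝ) : SL(2, ℝ)) ∧
      (V' : Matrix (Fin 2) (Fin 2) ℝ) * η = η * (ul (-1 : ℝ) : SL(2, ℝ)) := by
  obtain ⟨p, hp⟩ : ∃ p, V 0 0 = 1 + p := ⟨V 0 0 - 1, by ring⟩
  obtain ⟨p', hp'⟩ : ∃ p', V' 0 0 = 1 + p' := ⟨V' 0 0 - 1, by ring⟩
  have hd : V 1 1 = 1 - p := by linarith
  have hd' : V' 1 1 = 1 - p' := by linarith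
  have e := di2_det V
  have e' := di2_det V'
  rw [hp, hd] at e
  rw [hp', hd'] at e'
  rw [hp, hp'] at hτ
  set q := V 0 1 with hq
  set r := V 1 0 with hr
  set q' := V' 0 1 with hq'
  set r' := V' 1 0 with hr'
  obtain ⟨A, B, hAB, k1, k2⟩ : ∃ A B : ℝ, ¬ (A = 0 ∧ B = 0) ∧ p * A + q * B = 0 ∧
      r * A - p * B = 0 := by
    by_cases h : q = 0 ∧ -p = 0
    · refine ⟨0, 1, by simp, by simp [h.1], by simpa using h.2⟩
    · exact ⟨q, -p, h, by ring, by linear_combination -e⟩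
  have k3 : p * (-(p' * A + q' * B)) + q * (-(r' * A - p' * B)) = A := by
    linear_combination (-A) * hτ + p' * k1 + q' * k2
  have k4 : r * (-(p' * A + q' * B)) - p * (-(r' * A - p' * B)) = B := by
    linear_combination (-B) * hτ + r' * k1 - p' * k2
  refine ⟨!![A, -(p' * A + q' * B); B, -(r' * A - p' * B)], ?_, ?_, ?_⟩
  · rw [Matrix.det_fin_two_of]
    intro h0
    apply hAB
    constructor
    · have : A * A = 0 := by
        linear_combination (-A) * k3 + q * h0 + (-(p' * A + q' * B)) * k1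
      exact mul_self_eq_zero.1 this
    · have : B * B = 0 := by
        linear_combination (-B) * k4 - r * h0 + (-(r' * A - p' * B)) * k2
      exact mul_self_eq_zero.1 this
  · ext i j
    fin_cases i <;> fin_cases j <;>
      simp [Matrix.mul_apply, Fin.sum_univ_two, hp, hd, ← hq, ← hr]
    · linear_combination k1
    · linear_combination k3
    · linear_combination k2
    · linear_combination k4
  · ext i j
    fin_cases i <;> fin_cases j <;>
      simp [Matrix.mul_apply, Fin.sum_univ_two, hp', hd', ← hq', ← hr']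
    · ring
    · linear_combination A * e'
    · ring
    · linear_combination B * e'

/-- The partner of `u(1)` is unipotent up to sign. -/
theorem di2_unip {M : Subgroup (SL(2, ℝ) × SL(2, ℝ))} (hfull : ∀ h, ∃ g, (h, g) ∈ M)
    (hc : ∀ g : SL(2, ℝ), (1, g) ∈ M → g = 1 ∨ g = -1) (hm : ((1 : SL(2, ℝ)), -1) ∈ M)
    (hno : ∀ x : ℝ, x ≠ 0 → (uu x, 1) ∉ M) : ∃ V, (uu 1, V) ∈ M ∧ V 0 0 + V 1 1 = 2 := by
  obtain ⟨V, hV⟩ := hfull (uu 1)
  obtain ⟨B, hB⟩ := hfull (dg √2 (Real.sqrt_pos.2 two_pos).ne')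
  have h3 : (uu 2, B * V * B⁻¹) ∈ M := by
    have := M.mul_mem (M.mul_mem hB hV) (M.inv_mem hB)
    simp only [Prod.mk_mul_mk, Prod.inv_mk, di2_dg_conj] at this
    rwa [Real.sq_sqrt two_pos.le, mul_one] at this
  have h4 : (uu 2, V * V) ∈ M := by
    have := M.mul_mem hV hV
    simp only [Prod.mk_mul_mk, ← uu_add] at this
    rwa [one_add_one_eq_two] at this
  have h5 : (uu 3, V * V * V) ∈ M := by
    have := M.mul_mem h4 hV
    simp only [Prod.mk_mul_mk, ← uu_add] at this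
    rwa [two_add_one_eq_three] at this
  have hd := di2_det V
  have ht := di2_tr_conj B V
  have hn1 : V 0 0 + V 1 1 ≠ -1 := fun h => by
    have e : V 1 1 = -1 - V 0 0 := by linarith
    have : V * V * V = 1 := by
      rw [e] at hd
      apply di2_ext <;> simp only [di2_mul, e] <;> simp
      · linear_combination (1 - V 0 0) * hd
      · linear_combination (-V 0 1) * hd
      · linear_combination (-V 1 0) * hd
      · linear_combination (2 + V 0 0) * hd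
    exact hno 3 three_ne_zero (this ▸ h5)
  have hn2 : V 0 0 + V 1 1 ≠ 1 := fun h => by
    have e : V 1 1 = 1 - V 0 0 := by linarith
    have : V * V * V * -1 = 1 := by
      rw [e] at hd
      apply di2_ext <;> simp only [mul_neg, mul_one, di2_neg, di2_mul, e] <;> simp
      · linear_combination (1 + V 0 0) * hd
      · linear_combination (V 0 1) * hd
      · linear_combination (V 1 0) * hd
      · linear_combination (2 - V 0 0) * hd
    have h6 := M.mul_mem h5 hm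
    simp only [Prod.mk_mul_mk, mul_one] at h6
    exact hno 3 three_ne_zero (this ▸ h6)
  have htr : (V * V) 0 0 + (V * V) 1 1 = (V 0 0 + V 1 1) ^ 2 - 2 := by
    simp only [di2_mul]
    linear_combination (-2) * hd
  rcases di2_uniq hc h3 h4 with h | h
  · rw [h, ht] at htr
    have : (V 0 0 + V 1 1 - 2) * (V 0 0 + V 1 1 + 1) = 0 := by linear_combination -htr
    rcases mul_eq_zero.1 this with h' | h'
    · exact ⟨V, hV, by linarith⟩
    · exact absurd (by linarith) hn1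
  · rw [h, di2_neg, di2_neg, ← neg_add, ht] at htr
    have : (V 0 0 + V 1 1 + 2) * (V 0 0 + V 1 1 - 1) = 0 := by linear_combination -htr
    rcases mul_eq_zero.1 this with h' | h'
    · refine ⟨-V, by simpa using M.mul_mem hV hm, ?_⟩
      rw [di2_neg, di2_neg]
      linarith
    · exact absurd (by linarith) hn2

/-- The braid relation up to sign for two unipotents. -/
theorem di2_braid {V V' : SL(2, ℝ)} (h1 : V 0 0 + V 1 1 = 2) (h2 : V' 0 0 + V' 1 1 = 2)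
    (hb : V' * V * V' = V * V' * V ∨ V' * V * V' = -(V * V' * V)) :
    2 * (V 0 0 - 1) * (V' 0 0 - 1) + V 0 1 * V' 1 0 + V 1 0 * V' 0 1 = -1 ∨ V' = V := by
  have hd : V 1 1 = 2 - V 0 0 := by linarith
  have hd' : V' 1 1 = 2 - V' 0 0 := by linarith
  have e := di2_det V
  have e' := di2_det V'
  rw [hd] at e
  rw [hd'] at e'
  by_cases hτ : 2 * (V 0 0 - 1) * (V' 0 0 - 1) + V 0 1 * V' 1 0 + V 1 0 * V' 0 1 + 1 = 0
  · left; linarith
  right
  rcases hb with h | h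
  · have e1 := congrArg (fun g : SL(2, ℝ) => g 0 0) h
    have e2 := congrArg (fun g : SL(2, ℝ) => g 0 1) h
    have e3 := congrArg (fun g : SL(2, ℝ) => g 1 0) h
    simp only [di2_mul, hd, hd'] at e1 e2 e3
    have f1 : V' 0 0 = V 0 0 := by
      apply sub_eq_zero.1
      apply (mul_eq_zero.1 _).resolve_left hτ
      linear_combination e1 + (2 - V 0 0) * e' - (2 - V' 0 0) * e
    apply di2_ext f1
    · apply sub_eq_zero.1
      apply (mul_eq_zero.1 _).resolve_left hτ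
      linear_combination e2 - V 0 1 * e' + V' 0 1 * e
    · apply sub_eq_zero.1
      apply (mul_eq_zero.1 _).resolve_left hτ
      linear_combination e3 - V 1 0 * e' + V' 1 0 * e
    · rw [hd, hd', f1]
  · exfalso
    apply hτ
    have e1 := congrArg (fun g : SL(2, ℝ) => g 0 0) h
    have e4 := congrArg (fun g : SL(2, ℝ) => g 1 1) h
    simp only [di2_neg, di2_mul, hd, hd'] at e1 e4
    linear_combination (1 / 4) * e1 + (1 / 4) * e4 + (1 / 2) * e + (1 / 2) * e'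

theorem di2_pow {V : SL(2, ℝ)} (h1 : V 0 0 + V 1 1 = 2) (n : ℕ) :
    (V ^ n) 0 0 = 1 + n * (V 0 0 - 1) ∧ (V ^ n) 0 1 = n * V 0 1 ∧ (V ^ n) 1 0 = n * V 1 0 ∧
      (V ^ n) 1 1 = 1 - n * (V 0 0 - 1) := by
  have hd : V 1 1 = 2 - V 0 0 := by linarith
  have e := di2_det V
  rw [hd] at e
  induction n with
  | zero => simp
  | succ n ih =>
    obtain ⟨i1, i2, i3, i4⟩ := ih
    simp only [pow_succ, di2_mul, i1, i2, i3, i4, hd]
    push_cast
    refine ⟨?_, by ring, by ring, ?_⟩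
    · linear_combination (-(n : ℝ)) * e
    · linear_combination (-(n : ℝ)) * e

/-- If the fibre over `1` is central, `M` contains the first factor or the graph of a
conjugation. -/
theorem di_b (M : Subgroup (SL(2, ℝ) × SL(2, ℝ))) (hfull : ∀ h, ∃ g, (h, g) ∈ M)
    (hc : ∀ g : SL(2, ℝ), (1, g) ∈ M → g = 1 ∨ g = -1) :
    (∀ h, (h, 1) ∈ M) ∨ ∃ θ : SL(2, ℝ) →* SL(2, ℝ), IsConjHom θ ∧ ∀ h, (h, θ h) ∈ M := by
  have hfull' : ∀ h, ∃ g, (h, g) ∈ di2_pm M := fun h => (hfull h).imp fun g hg => Or.inl hg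
  have hc' : ∀ g : SL(2, ℝ), (1, g) ∈ di2_pm M → g = 1 ∨ g = -1 := by
    rintro g (h | h)
    · exact hc g h
    · rcases hc _ h with h' | h'
      · exact Or.inr (neg_eq_iff_eq_neg.1 h')
      · exact Or.inl (neg_injective h')
  have hm : ((1 : SL(2, ℝ)), -1) ∈ di2_pm M := Or.inr (by
    rw [neg_neg]; exact M.one_mem)
  by_cases hno : ∃ x : ℝ, x ≠ 0 ∧ (uu x, 1) ∈ di2_pm M
  · obtain ⟨x, hx, h⟩ := hno
    exact Or.inl (di2_graph 1 (di2_normal hfull' hx h))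
  push Not at hno
  right
  obtain ⟨V, hV, h1⟩ := di2_unip hfull' hc' hm hno
  obtain ⟨W, hW⟩ := hfull' di2_w
  obtain ⟨V', hV', h2⟩ : ∃ V', (ul (-1), V') ∈ di2_pm M ∧ V' 0 0 + V' 1 1 = 2 := by
    refine ⟨W * V * W⁻¹, ?_, by rw [di2_tr_conj, h1]⟩
    have := (di2_pm M).mul_mem ((di2_pm M).mul_mem hW hV) ((di2_pm M).inv_mem hW)
    simpa only [Prod.mk_mul_mk, Prod.inv_mk, di2_w_conj] using this
  have b1 : (di2_w, V * V' * V) ∈ di2_pm M :=
    (di2_pm M).mul_mem ((di2_pm M).mul_mem hV hV') hV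
  have b2 : (di2_w, V' * V * V') ∈ di2_pm M := by
    rw [di2_w_braid]
    exact (di2_pm M).mul_mem ((di2_pm M).mul_mem hV' hV) hV'
  rcases di2_braid h1 h2 (di2_uniq hc' b1 b2) with hτ | rfl
  · obtain ⟨η, hη, e1, e2⟩ := di2_eta h1 h2 hτ
    have hθ : IsConjHom (di2_conj η hη) := ⟨η, hη, di2_conj_mul η hη⟩
    refine ⟨di2_conj η hη, hθ, di2_graph _ fun a => ?_⟩
    refine di2_norm (M := (di2_pm M).comap ((MonoidHom.id _).prodMap (di2_conj η hη)))
      (fun h => ?_) (fun g hg => ?_) ?_ ?_ ?_ a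
    · obtain ⟨g, hg⟩ := hfull' h
      obtain ⟨g', rfl⟩ := hθ.surj g
      exact ⟨g', hg⟩
    · rcases hc' _ hg with h | h
      · exact Or.inl (di2_conj_inj hη (h.trans (map_one _).symm))
      · exact Or.inr (di2_conj_inj hη (h.trans (di2_conj_neg hη).symm))
    · change (1, di2_conj η hη (-1)) ∈ di2_pm M
      rwa [di2_conj_neg]
    · change (uu 1, di2_conj η hη (uu 1)) ∈ di2_pm M
      rwa [di2_conj_eq hη e1]
    · change (ul (-1), di2_conj η hη (ul (-1))) ∈ di2_pm M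
      rwa [di2_conj_eq hη e2]
  · exfalso
    have b3 := (di2_pm M).mul_mem ((di2_pm M).mul_mem b1 b1) ((di2_pm M).mul_mem b1 b1)
    simp only [Prod.mk_mul_mk, di2_w_four] at b3
    have b4 : V' * V' * V' * (V' * V' * V') * (V' * V' * V' * (V' * V' * V')) = V' ^ 12 := by
      simp only [pow_succ, pow_zero, one_mul, mul_assoc]
    rw [b4] at b3
    obtain ⟨i1, i2, i3, i4⟩ := di2_pow h1 12
    rcases hc' _ b3 with h | h
    · rw [h] at i1 i2 i3
      have : V' = 1 := by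
        apply di2_ext <;> simp at i1 i2 i3 ⊢ <;> linarith
      exact hno 1 one_ne_zero (this ▸ hV)
    · rw [h] at i1 i4
      simp [di2_neg] at i1 i4
      linarith

/-- The embedding of two coordinates. -/
def di2_two {κ : Type} [DecidableEq κ] {l m : κ} (h : l ≠ m) :
    SL(2, ℝ) × SL(2, ℝ) →* (κ → SL(2, ℝ)) :=
  MonoidHom.mk' (fun x => Pi.mulSingle (M := fun _ => SL(2, ℝ)) l x.1 *
    Pi.mulSingle (M := fun _ => SL(2, ℝ)) m x.2) fun x y => by
      funext i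
      by_cases h1 : i = l
      · subst h1
        simp [Pi.mulSingle_eq_of_ne h]
      · by_cases h2 : i = m
        · subst h2
          simp [Pi.mulSingle_eq_of_ne h1]
        · simp [Pi.mulSingle_eq_of_ne h1, Pi.mulSingle_eq_of_ne h2]

theorem di2_mem_two {κ : Type} [DecidableEq κ] {l m : κ} (h : l ≠ m)
    {M : Subgroup (κ → SL(2, ℝ))} {a b : SL(2, ℝ)} : (a, b) ∈ M.comap (di2_two h) ↔
      Pi.mulSingle (M := fun _ => SL(2, ℝ)) l a * Pi.mulSingle (M := fun _ => SL(2, ℝ)) m b ∈ M :=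
  Iff.rfl

/-- The trichotomy. -/
theorem tri {κ : Type} [Fintype κ] [DecidableEq κ] (M : Subgroup (κ → SL(2, ℝ))) (m : κ)
    (hfull : ∀ k, k ≠ m → ∀ h : SL(2, ℝ), ∃ g : SL(2, ℝ),
      Pi.mulSingle (M := fun _ => SL(2, ℝ)) k h * Pi.mulSingle (M := fun _ => SL(2, ℝ)) m g ∈ M)
    (k : κ) (hk : k ≠ m) :
    (∃ g : SL(2, ℝ), 2 < |g 0 0 + g 1 1| ∧ Pi.mulSingle (M := fun _ => SL(2, ℝ)) m g ∈ M) ∨
    (∃ l, ∀ h : SL(2, ℝ), Pi.mulSingle (M := fun _ => SL(2, ℝ)) l h ∈ M) ∨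
    ((∀ l, l = k ∨ l = m) ∧
      (∀ g : SL(2, ℝ), Pi.mulSingle (M := fun _ => SL(2, ℝ)) m g ∈ M → g = 1 ∨ g = -1) ∧
      ∃ θ : SL(2, ℝ) →* SL(2, ℝ), IsConjHom θ ∧ ∀ h : SL(2, ℝ),
        Pi.mulSingle (M := fun _ => SL(2, ℝ)) k h *
          Pi.mulSingle (M := fun _ => SL(2, ℝ)) m (θ h) ∈ M) := by
  by_cases H1 : ∃ g : SL(2, ℝ), 2 < |g 0 0 + g 1 1| ∧
    Pi.mulSingle (M := fun _ => SL(2, ℝ)) m g ∈ M
  · exact Or.inl H1
  right
  by_cases H2 : ∃ l, ∀ h : SL(2, ℝ), Pi.mulSingle (M := fun _ => SL(2, ℝ)) l h ∈ M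
  · exact Or.inl H2
  right
  have hc : ∀ g : SL(2, ℝ), Pi.mulSingle (M := fun _ => SL(2, ℝ)) m g ∈ M → g = 1 ∨ g = -1 := by
    intro A hA
    by_contra hne
    push Not at hne
    refine H2 ⟨k, fun h => ?_⟩
    have := di_a (M.comap (di2_two hk)) (hfull k hk) (fun g hg => by
      by_contra hlt
      exact H1 ⟨g, not_le.1 hlt, by simpa using (di2_mem_two hk).1 hg⟩)
      (A := A) ((di2_mem_two hk).2 (by simpa using hA)) hne.1 hne.2 h
    simpa using (di2_mem_two hk).1 this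
  have hθ : ∀ l, l ≠ m → ∃ θ : SL(2, ℝ) →* SL(2, ℝ), IsConjHom θ ∧ ∀ h : SL(2, ℝ),
      Pi.mulSingle (M := fun _ => SL(2, ℝ)) l h *
        Pi.mulSingle (M := fun _ => SL(2, ℝ)) m (θ h) ∈ M := fun l hl => by
    rcases di_b (M.comap (di2_two hl)) (hfull l hl)
      (fun g hg => hc g (by simpa using (di2_mem_two hl).1 hg)) with h | h
    · exact absurd ⟨l, fun a => by simpa using (di2_mem_two hl).1 (h a)⟩ H2
    · exact h
  refine ⟨fun l => ?_, hc, hθ k hk⟩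
  by_contra hne
  push Not at hne
  obtain ⟨θ, t1, t2⟩ := hθ k hk
  obtain ⟨θ', t1', t2'⟩ := hθ l hne.2
  have key : ∀ g a : SL(2, ℝ), g * a * g⁻¹ * a⁻¹ = 1 ∨ g * a * g⁻¹ * a⁻¹ = -1 := fun g a => by
    obtain ⟨x, rfl⟩ := t1.surj g
    obtain ⟨y, rfl⟩ := t1'.surj a
    apply hc
    convert M.mul_mem (M.mul_mem (M.mul_mem (t2 x) (t2' y)) (M.inv_mem (t2 x)))
      (M.inv_mem (t2' y)) using 1
    funext i
    by_cases h1 : i = m
    · subst h1
      simp [Pi.mulSingle_eq_of_ne hk.symm, Pi.mulSingle_eq_of_ne hne.2.symm]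
    · by_cases h2 : i = k
      · subst h2
        simp [Pi.mulSingle_eq_of_ne h1, Pi.mulSingle_eq_of_ne hne.1.symm]
      · by_cases h3 : i = l
        · subst h3
          simp [Pi.mulSingle_eq_of_ne h1, Pi.mulSingle_eq_of_ne h2]
        · simp [Pi.mulSingle_eq_of_ne h1, Pi.mulSingle_eq_of_ne h2, Pi.mulSingle_eq_of_ne h3]
  rcases eq_pm_of_commutator (key (uu 1)) with h | h
  · have := congrArg (fun g : SL(2, ℝ) => g 0 1) h
    simp at this
  · have := congrArg (fun g : SL(2, ℝ) => g 0 1) h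
    simp [di2_neg] at this

end Pool.Agent.EQ
end
end
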