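import Mathlib

/-! Points of a modular hyperbola in a box. -/

set_option autoImplicit false

noncomputable section

open Finset
open scoped Classical ComplexConjugate

namespace Pool.Agent.EQ

variable {c : ℕ} [NeZero c]

/-- The standard additive character. -/
abbrev xklE {c : ℕ} [NeZero c] (a : ZMod c) : ℂ := ZMod.stdAddChar a

theorem xkl_sq {ι ρ : Type} (R : Finset ρ) (T : Finset ι) (β : ρ → ι → ZMod c) :
    ∑ r ∈ R, ‖∑ i ∈ T, xklE (β r i)‖ ^ 2 ≤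
      ∑ i ∈ T, ∑ j ∈ T, ‖∑ r ∈ R, xklE (β r i - β r j)‖ := by
  have e : ((∑ r ∈ R, ‖∑ i ∈ T, xklE (β r i)‖ ^ 2 : ℝ) : ℂ) =
      ∑ i ∈ T, ∑ j ∈ T, ∑ r ∈ R, xklE (β r i - β r j) := by
    push_cast
    have h : ∀ r ∈ R, ((‖∑ i ∈ T, xklE (β r i)‖ : ℝ) : ℂ) ^ 2 =
        ∑ i ∈ T, ∑ j ∈ T, xklE (β r i - β r j) := fun r _ => by
      rw [← Complex.mul_conj', map_sum, sum_mul_sum]
      refine sum_congr rfl fun i _ => sum_congr rfl fun j _ => ?_
      rw [sub_eq_add_neg, xklE, xklE, xklE, AddChar.map_add_eq_mul, AddChar.map_neg_eq_conj]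
    rw [sum_congr rfl h, sum_comm]
    exact sum_congr rfl fun i _ => sum_comm
  have h0 : 0 ≤ ∑ r ∈ R, ‖∑ i ∈ T, xklE (β r i)‖ ^ 2 := sum_nonneg fun _ _ => sq_nonneg _
  calc _ = ‖((∑ r ∈ R, ‖∑ i ∈ T, xklE (β r i)‖ ^ 2 : ℝ) : ℂ)‖ := by
        rw [Complex.norm_real, Real.norm_of_nonneg h0]
    _ ≤ _ := by
        rw [e]
        exact (norm_sum_le _ _).trans (sum_le_sum fun i _ => norm_sum_le _ _)

theorem xkl_cardM {d g : ℕ} (h : c = d * g) : #{r : ZMod c | d ∣ r.val} ≤ g := by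
  have hd : 0 < d := Nat.pos_of_ne_zero fun e => NeZero.ne c (by rw [h, e, zero_mul])
  rw [← card_range g]
  refine card_le_card_of_injOn (fun r => r.val / d) (fun r _ => ?_) fun r hr s hs e => ?_
  · refine mem_coe.2 (mem_range.2 ((Nat.div_lt_iff_lt_mul hd).2 ?_))
    rw [mul_comm, ← h]
    exact ZMod.val_lt r
  · refine ZMod.val_injective c ?_
    rw [← Nat.mul_div_cancel' (mem_filter.1 (mem_coe.1 hr)).2,
      ← Nat.mul_div_cancel' (mem_filter.1 (mem_coe.1 hs)).2]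
    exact congrArg _ e

/-- The elements killed by `a`. -/
def xklD (a : ZMod c) : Finset (ZMod c) := {r | a * r = 0}

theorem xkl_mem {a r : ZMod c} : r ∈ xklD a ↔ a * r = 0 := by simp [xklD]

theorem xkl_cardD {d : ℕ} (hd : d ∣ c) : #(xklD (d : ZMod c)) ≤ d := by
  obtain ⟨g, h⟩ := hd
  have hd : 0 < d := Nat.pos_of_ne_zero fun e => NeZero.ne c (by rw [h, e, zero_mul])
  refine le_trans (card_le_card fun r hr => mem_filter.2 ⟨mem_univ _, ?_⟩)
    (xkl_cardM (d := g) (g := d) (by rw [h, mul_comm]))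
  have h1 : ((d * r.val : ℕ) : ZMod c) = 0 := by
    rw [Nat.cast_mul, ZMod.natCast_zmod_val]
    exact xkl_mem.1 hr
  have h2 := (ZMod.natCast_eq_zero_iff _ _).1 h1
  nth_rewrite 1 [h] at h2
  exact Nat.dvd_of_mul_dvd_mul_left hd h2

theorem xkl_orth {d : ℕ} (hd : d ∣ c) (a : ℤ) :
    ‖∑ r ∈ xklD (d : ZMod c), xklE (r * (a : ZMod c))‖ ≤ if (d : ℤ) ∣ a then (d : ℝ) else 0 := by
  split_ifs with h
  · refine (norm_sum_le _ _).trans ?_
    simp only [AddChar.norm_apply, sum_const, nsmul_eq_mul, mul_one]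
    exact_mod_cast xkl_cardD hd
  · obtain ⟨g, hg⟩ := hd
    have hg0 : (g : ℤ) ≠ 0 := by
      rintro e
      exact NeZero.ne c (by rw [hg, Int.natCast_eq_zero.1 e, mul_zero])
    have h1 : (d : ZMod c) * g = 0 := by rw [← Nat.cast_mul, ← hg, ZMod.natCast_self]
    have h2 : xklE ((g : ZMod c) * (a : ZMod c)) ≠ 1 := fun e => h (by
      have h3 := ((ZMod.isPrimitive_stdAddChar c).zmod_char_eq_one_iff c _).1 e
      have h4 : ((g * a : ℤ) : ZMod c) = 0 := by push_cast; exact h3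
      have h5 := (ZMod.intCast_zmod_eq_zero_iff_dvd _ _).1 h4
      rw [hg, Nat.cast_mul, mul_comm] at h5
      exact (mul_dvd_mul_iff_left hg0).1 h5)
    have h3 : ∑ r ∈ xklD (d : ZMod c), xklE (r * (a : ZMod c)) =
        xklE ((g : ZMod c) * (a : ZMod c)) * ∑ r ∈ xklD (d : ZMod c), xklE (r * (a : ZMod c)) := by
      rw [mul_sum]
      refine (sum_equiv (Equiv.addLeft (g : ZMod c)) (fun r => ?_) fun r _ => ?_).symm
      · rw [xkl_mem, xkl_mem, Equiv.coe_addLeft, mul_add, h1, zero_add]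
      · rw [Equiv.coe_addLeft, add_mul, xklE, xklE, xklE, AddChar.map_add_eq_mul]
    have h4 : (1 - xklE ((g : ZMod c) * (a : ZMod c))) * ∑ r ∈ xklD (d : ZMod c), xklE (r * (a : ZMod c)) = 0 := by
      linear_combination h3
    rw [(mul_eq_zero.1 h4).resolve_left (sub_ne_zero.2 h2.symm), norm_zero]

theorem xkl_aff (a y : ZMod c) : #{x : ZMod c | a * x = y} ≤ #(xklD a) := by
  rcases ({x : ZMod c | a * x = y} : Finset (ZMod c)).eq_empty_or_nonempty with h | ⟨x₀, h⟩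
  · rw [h]; exact Nat.zero_le _
  refine card_le_card_of_injOn (fun x => x - x₀) (fun x hx => mem_coe.2 (xkl_mem.2 ?_))
    fun x _ z _ e => sub_left_injective e
  rw [mul_sub, (mem_filter.1 (mem_coe.1 hx)).2, (mem_filter.1 h).2, sub_self]

theorem xkl_mul (a b : ZMod c) : #(xklD (a * b)) ≤ #(xklD b) * #(xklD a) := by
  refine card_le_mul_card_image_of_maps_to (f := fun x => b * x)
    (fun x hx => xkl_mem.2 (by rw [← mul_assoc]; exact xkl_mem.1 hx)) _ fun y _ => ?_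
  exact (card_le_card fun x hx => mem_filter.2 ⟨mem_univ _, (mem_filter.1 hx).2⟩).trans
    (xkl_aff b y)

theorem xkl_two : #(xklD (2 : ZMod c)) ≤ 2 := by
  refine le_trans (card_le_card_of_injOn (t := {0, c}) (fun r => 2 * r.val) (fun r hr => ?_)
    fun r _ s _ e => ZMod.val_injective c (by simpa using e)) card_le_two
  have h1 : ((2 * r.val : ℕ) : ZMod c) = 0 := by
    rw [Nat.cast_mul, ZMod.natCast_zmod_val]
    exact xkl_mem.1 (mem_coe.1 hr)
  obtain ⟨k, hk⟩ := (ZMod.natCast_eq_zero_iff _ _).1 h1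
  have h2 := ZMod.val_lt r
  have h3 : k < 2 := by
    by_contra h3
    have := Nat.mul_le_mul_left c (not_lt.1 h3)
    omega
  simp only [coe_insert, coe_singleton, Set.mem_insert_iff, Set.mem_singleton_iff]
  interval_cases k <;> omega

theorem xkl_sumD : ∑ a : ZMod c, #(xklD a) ≤ #c.divisors * c := by
  have hc : ∀ x : ZMod c, addOrderOf x ∣ c := fun x =>
    addOrderOf_dvd_of_nsmul_eq_zero (by rw [nsmul_eq_mul, ZMod.natCast_self, zero_mul])
  rw [← sum_fiberwise_of_maps_to (t := c.divisors) (g := addOrderOf)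
    fun x _ => Nat.mem_divisors.2 ⟨hc x, NeZero.ne c⟩, ← smul_eq_mul]
  refine sum_le_card_nsmul _ _ _ fun d hd => ?_
  obtain ⟨g, hg⟩ := Nat.dvd_of_mem_divisors hd
  refine (sum_le_card_nsmul _ _ g fun x hx => ?_).trans ?_
  · refine le_trans (card_le_card fun r hr => mem_filter.2 ⟨mem_univ _, ?_⟩) (xkl_cardM hg)
    rw [← (mem_filter.1 hx).2]
    refine addOrderOf_dvd_of_nsmul_eq_zero ?_
    rw [nsmul_eq_mul, ZMod.natCast_zmod_val, mul_comm]
    exact xkl_mem.1 hr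
  · rw [smul_eq_mul]
    refine le_trans (Nat.mul_le_mul_right g (le_trans (card_le_card fun x hx => xkl_mem.2 ?_)
      (xkl_cardD ⟨g, hg⟩))) hg.ge
    rw [← (mem_filter.1 hx).2, ← nsmul_eq_mul]
    exact addOrderOf_nsmul_eq_zero x

/-- The Kloosterman sum. -/
def xklK (m : (ZMod c)ˣ) (z : ZMod c × ZMod c) : ℂ :=
  ∑ u : (ZMod c)ˣ, xklE (z.1 * (u : ZMod c) + z.2 * ((m * u⁻¹ : (ZMod c)ˣ) : ZMod c))

theorem xkl_full (a : ZMod c) : ∑ r : ZMod c, xklE (r * a) = if a = 0 then (c : ℂ) else 0 := by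
  rw [AddChar.sum_mulShift a (ZMod.isPrimitive_stdAddChar c), ZMod.card]
  split_ifs <;> simp

theorem xkl_quad (m : (ZMod c)ˣ) : #{w : ((ZMod c)ˣ × (ZMod c)ˣ) × (ZMod c)ˣ × (ZMod c)ˣ |
    (w.1.1 : ZMod c) + w.1.2 - (w.2.1 + w.2.2) = 0 ∧
      ((m * w.1.1⁻¹ : (ZMod c)ˣ) : ZMod c) + (m * w.1.2⁻¹ : (ZMod c)ˣ) -
        ((m * w.2.1⁻¹ : (ZMod c)ˣ) + (m * w.2.2⁻¹ : (ZMod c)ˣ)) = 0} ≤
    2 * (#c.divisors * c) ^ 2 := by
  refine le_trans (card_le_card_of_injOn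
    (t := (univ : Finset (ZMod c × ZMod c)).sigma fun z =>
      ({x : ZMod c | 2 * (z.1 * z.2) * x = -((z.1 + z.2) * (z.1 * z.2))} : Finset (ZMod c)))
    (fun w => ⟨((w.2.1 : ZMod c) - w.1.1, (w.1.2 : ZMod c) - w.2.1), (w.1.1 : ZMod c)⟩)
    (fun w hw => ?_) fun w hw w' hw' e => ?_) ?_
  · obtain ⟨⟨x₁, x₂⟩, x₃, x₄⟩ := w
    obtain ⟨h1, h2⟩ := (mem_filter.1 (mem_coe.1 hw)).2
    refine mem_coe.2 (mem_sigma.2 ⟨mem_univ _, mem_filter.2 ⟨mem_univ _, ?_⟩⟩)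
    simp only [Units.val_mul] at h1 h2 ⊢
    have a1 := x₁.mul_inv
    have a2 := x₂.mul_inv
    have a3 := x₃.mul_inv
    have a4 := x₄.mul_inv
    have h3 : ((x₁⁻¹ : (ZMod c)ˣ) : ZMod c) + (x₂⁻¹ : (ZMod c)ˣ) -
        ((x₃⁻¹ : (ZMod c)ˣ) + (x₄⁻¹ : (ZMod c)ˣ)) = 0 :=
      (Units.mul_right_eq_zero m).1 (by linear_combination h2)
    generalize ((x₁⁻¹ : (ZMod c)ˣ) : ZMod c) = y₁ at *
    generalize ((x₂⁻¹ : (ZMod c)ˣ) : ZMod c) = y₂ at *
    generalize ((x₃⁻¹ : (ZMod c)ˣ) : ZMod c) = y₃ at *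
    generalize ((x₄⁻¹ : (ZMod c)ˣ) : ZMod c) = y₄ at *
    generalize (x₁ : ZMod c) = a at *
    generalize (x₂ : ZMod c) = b at *
    generalize (x₃ : ZMod c) = e at *
    generalize (x₄ : ZMod c) = f at *
    linear_combination (a * b * e * f) * h3 - (b * e * f) * a1 - (a * e * f) * a2 +
      (a * b * f) * a3 + (a * b * e) * a4 + ((a + b) * e - a * b) * h1
  · have h1 := (mem_filter.1 (mem_coe.1 hw)).2.1
    have h2 := (mem_filter.1 (mem_coe.1 hw')).2.1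
    obtain ⟨e1, e2⟩ := Sigma.mk.inj e
    have e3 := eq_of_heq e2
    obtain ⟨e4, e5⟩ := Prod.mk.inj e1
    refine Prod.ext (Prod.ext (Units.ext e3) (Units.ext ?_)) (Prod.ext (Units.ext ?_) (Units.ext ?_))
    · linear_combination e3 + e4 + e5
    · linear_combination e3 + e4
    · linear_combination e3 + e5 - h1 + h2
  · rw [card_sigma]
    refine (sum_le_sum (g := fun z => 2 * (#(xklD z.1) * #(xklD z.2))) fun z _ => ?_).trans ?_
    · refine (xkl_aff _ _).trans ((xkl_mul _ _).trans ?_)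
      rw [mul_comm 2, mul_comm #(xklD z.1)]
      exact Nat.mul_le_mul (xkl_mul _ _) xkl_two
    · rw [← mul_sum, ← univ_product_univ,
        sum_product' (f := fun a b : ZMod c => #(xklD a) * #(xklD b)), ← sum_mul_sum, sq]
      exact Nat.mul_le_mul_left 2 (Nat.mul_le_mul xkl_sumD xkl_sumD)

theorem xkl_four (m : (ZMod c)ˣ) :
    ∑ z, ‖xklK m z‖ ^ 4 ≤ (c : ℝ) ^ 2 * (2 * (#c.divisors * c) ^ 2) := by
  have h := xkl_sq (univ : Finset (ZMod c × ZMod c)) (univ : Finset ((ZMod c)ˣ × (ZMod c)ˣ))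
    fun z p => z.1 * ((p.1 : ZMod c) + (p.2 : ZMod c)) +
      z.2 * (((m * p.1⁻¹ : (ZMod c)ˣ) : ZMod c) + ((m * p.2⁻¹ : (ZMod c)ˣ) : ZMod c))
  refine le_trans (le_of_eq (sum_congr rfl fun z _ => ?_)) (h.trans ?_)
  · rw [show 4 = 2 * 2 from rfl, pow_mul, ← norm_pow, sq (xklK m z), xklK, sum_mul_sum,
      ← univ_product_univ, sum_product]
    congr 2
    refine sum_congr rfl fun u _ => sum_congr rfl fun v _ => ?_
    rw [xklE, xklE, xklE, ← AddChar.map_add_eq_mul]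
    congr 1
    ring
  · refine le_trans ?_ (mul_le_mul_of_nonneg_left (Nat.cast_le.2 (xkl_quad m) |>.trans
      (le_of_eq (by push_cast; rfl))) (sq_nonneg (c : ℝ)))
    rw [← sum_product', univ_product_univ, card_filter, Nat.cast_sum, mul_sum]
    refine sum_le_sum fun w _ => le_of_eq ?_
    have e : ∀ a b : ZMod c, ∑ z : ZMod c × ZMod c, xklE (z.1 * a + z.2 * b) =
        (if a = 0 then (c : ℂ) else 0) * if b = 0 then (c : ℂ) else 0 := fun a b => by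
      rw [← xkl_full, ← xkl_full, sum_mul_sum, ← univ_product_univ, sum_product]
      exact sum_congr rfl fun _ _ => sum_congr rfl fun _ _ => AddChar.map_add_eq_mul _ _ _
    rw [sum_congr rfl fun z _ => congrArg xklE (show _ = z.1 * ((w.1.1 : ZMod c) + w.1.2 -
      (w.2.1 + w.2.2)) + z.2 * (((m * w.1.1⁻¹ : (ZMod c)ˣ) : ZMod c) + (m * w.1.2⁻¹ : (ZMod c)ˣ) -
        ((m * w.2.1⁻¹ : (ZMod c)ˣ) + (m * w.2.2⁻¹ : (ZMod c)ˣ))) by ring), e]
    split_ifs with h1 h2 h3 <;> simp_all [sq]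

theorem xkl_orb (m : (ZMod c)ˣ) (z : ZMod c × ZMod c) {g : ℕ} (hg : c = addOrderOf z * g) :
    (c.totient : ℝ) * ‖xklK m z‖ ^ 4 ≤ g * ∑ z, ‖xklK m z‖ ^ 4 := by
  let π : (ZMod c)ˣ → ZMod c × ZMod c := fun u => (z.1 * u, z.2 * (u⁻¹ : (ZMod c)ˣ))
  have h1 : ∀ u, xklK m (π u) = xklK m z := fun u => by
    unfold xklK
    refine Fintype.sum_equiv (Equiv.mulLeft u) _ _ fun v => congrArg xklE ?_
    simp only [π, Equiv.coe_mulLeft, Units.val_mul, mul_inv_rev]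
    ring
  have h2 : (c.totient : ℝ) * ‖xklK m z‖ ^ 4 = ∑ u, ‖xklK m (π u)‖ ^ 4 := by
    simp only [h1, sum_const, card_univ, ZMod.card_units_eq_totient, nsmul_eq_mul]
  rw [h2, ← sum_fiberwise (s := univ) π, mul_sum]
  refine sum_le_sum fun y _ => ?_
  rw [sum_congr rfl fun u hu => by rw [(mem_filter.1 hu).2], sum_const, nsmul_eq_mul]
  refine mul_le_mul_of_nonneg_right (Nat.cast_le.2 ?_) (by positivity)
  rcases ({u | π u = y} : Finset (ZMod c)ˣ).eq_empty_or_nonempty with h | ⟨v, hv⟩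
  · rw [h]; exact Nat.zero_le _
  refine le_trans (card_le_card_of_injOn (fun u => (u : ZMod c) - v) (fun u hu => ?_)
    fun u _ u' _ e => Units.ext (sub_left_injective e)) (xkl_cardM hg)
  refine mem_coe.2 (mem_filter.2 ⟨mem_univ _, addOrderOf_dvd_of_nsmul_eq_zero ?_⟩)
  obtain ⟨e1, e2⟩ := Prod.mk.inj ((mem_filter.1 (mem_coe.1 hu)).2.trans (mem_filter.1 hv).2.symm)
  have a1 := u.mul_inv
  have a2 := v.mul_inv
  refine Prod.ext ?_ ?_
  · rw [Prod.smul_fst, nsmul_eq_mul, ZMod.natCast_zmod_val, Prod.fst_zero]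
    linear_combination e1
  · rw [Prod.smul_snd, nsmul_eq_mul, ZMod.natCast_zmod_val, Prod.snd_zero]
    linear_combination (-(u * v : ZMod c)) * e2 + (z.2 * v) * a1 - (z.2 * u) * a2

theorem xkl_bound (m : (ZMod c)ˣ) {κ : ℝ} (h0 : 0 ≤ κ)
    (hκ : 2 * (#c.divisors : ℝ) ^ 3 * (c : ℝ) ^ 3 ≤ κ ^ 4) (z : ZMod c × ZMod c) {g : ℕ}
    (hg : c = addOrderOf z * g) : ‖xklK m z‖ ≤ κ * g := by
  have hc : (0 : ℝ) < c := by exact_mod_cast NeZero.pos c
  have hg1 : (1 : ℝ) ≤ g := by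
    exact_mod_cast Nat.pos_of_ne_zero fun e => NeZero.ne c (by rw [hg, e, mul_zero])
  have h1 : (c : ℝ) ≤ #c.divisors * c.totient := by
    have : c ≤ #c.divisors * c.totient := by
      nth_rewrite 1 [← Nat.sum_totient c]
      rw [← smul_eq_mul]
      exact sum_le_card_nsmul _ _ _ fun d hd => Nat.le_of_dvd (Nat.totient_pos.2 (NeZero.pos c))
        (Nat.totient_dvd_of_dvd (Nat.dvd_of_mem_divisors hd))
    exact_mod_cast this
  have h2 := (xkl_orb m z hg).trans (mul_le_mul_of_nonneg_left (xkl_four m) (by positivity))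
  refine le_of_pow_le_pow_left₀ (n := 4) (by norm_num) (by positivity) (le_of_mul_le_mul_left ?_ hc)
  calc (c : ℝ) * ‖xklK m z‖ ^ 4 ≤ #c.divisors * (c.totient * ‖xklK m z‖ ^ 4) := by
        rw [← mul_assoc]; gcongr
    _ ≤ #c.divisors * (g * ((c : ℝ) ^ 2 * (2 * (#c.divisors * c) ^ 2))) := by gcongr
    _ = c * ((2 * (#c.divisors : ℝ) ^ 3 * (c : ℝ) ^ 3) * g) := by ring
    _ ≤ c * (κ ^ 4 * g ^ 4) := by
        gcongr
        exact le_self_pow₀ hg1 (by norm_num)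
    _ = _ := by ring

theorem xkl_int (a b : ℤ) (h : ℕ) {d : ℕ} (hd : 0 < d) :
    (#{x ∈ Ico a (a + h) | (d : ℤ) ∣ x - b} : ℝ) * d ≤ h + d := by
  have hd' : (0 : ℤ) < d := by exact_mod_cast hd
  have h1 : #{x ∈ Ico a (a + h) | (d : ℤ) ∣ x - b} ≤ h / d + 1 := by
    rw [← card_range (h / d + 1)]
    refine card_le_card_of_injOn (fun x => (x - a).toNat / d) (fun x hx => ?_)
      fun x hx y hy e => ?_
    · have := mem_Ico.1 (mem_filter.1 (mem_coe.1 hx)).1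
      exact mem_coe.2 (mem_range.2 (Nat.lt_succ_of_le (Nat.div_le_div_right (by omega))))
    · obtain ⟨x1, x2⟩ := mem_filter.1 (mem_coe.1 hx)
      obtain ⟨y1, y2⟩ := mem_filter.1 (mem_coe.1 hy)
      have x3 := mem_Ico.1 x1
      have y3 := mem_Ico.1 y1
      have e1 : (((x - a).toNat / d : ℕ) : ℤ) = (((y - a).toNat / d : ℕ) : ℤ) := congrArg _ e
      rw [Int.natCast_div, Int.natCast_div, Int.toNat_of_nonneg (by omega),
        Int.toNat_of_nonneg (by omega)] at e1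
      have e2 : (x - a) % d = (y - a) % d := by
        refine (Int.emod_emod_of_dvd _ dvd_rfl).symm.trans ?_
        rw [Int.emod_emod_of_dvd _ dvd_rfl]
        refine Int.emod_eq_emod_iff_emod_sub_eq_zero.2 (Int.emod_eq_zero_of_dvd ?_)
        rw [show x - a - (y - a) = x - b - (y - b) by ring]
        exact dvd_sub x2 y2
      have e3 := Int.mul_ediv_add_emod (x - a) d
      have e4 := Int.mul_ediv_add_emod (y - a) d
      rw [e1, e2] at e3
      omega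
  have h2 : (h / d + 1) * d ≤ h + d := by
    rw [add_mul, one_mul]
    exact Nat.add_le_add_right (Nat.div_mul_le_self _ _) _
  exact_mod_cast (Nat.mul_le_mul_right d h1).trans h2

/-- The transform of an interval. -/
def xklF (a : ℤ) (h : ℕ) (r : ZMod c) : ℂ := ∑ x ∈ Ico a (a + h), xklE (r * (x : ZMod c))

theorem xkl_mass {d : ℕ} (hd : d ∣ c) (a : ℤ) (h : ℕ) :
    ∑ r ∈ xklD (d : ZMod c), ‖xklF a h r‖ ^ 2 ≤ h * (h + d) := by
  have hd0 : 0 < d := Nat.pos_of_dvd_of_pos hd (NeZero.pos c)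
  refine (xkl_sq _ _ fun (r : ZMod c) (x : ℤ) => r * (x : ZMod c)).trans ?_
  rw [sum_comm]
  refine (sum_le_card_nsmul _ _ ((h : ℝ) + d) fun y _ => ?_).trans (by simp [mul_add])
  refine le_trans (sum_le_sum (g := fun x => if (d : ℤ) ∣ x - y then (d : ℝ) else 0)
    fun x _ => ?_) ((le_of_eq ?_).trans (xkl_int a y h hd0))
  · exact (le_of_eq (congrArg _ (sum_congr rfl fun r _ => congrArg xklE
      (by push_cast; ring)))).trans (xkl_orth hd (x - y))
  · rw [card_filter, Nat.cast_sum, sum_mul]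
    exact sum_congr rfl fun x _ => by split_ifs <;> simp

/-- The transform of the majorant. -/
def xklP (a : ℤ) (h : ℕ) (r : ZMod c) : ℂ := conj (xklF a (2 * h) r) * xklF 0 h r

theorem xkl_P0 (a : ℤ) (h : ℕ) : ‖xklP a h (0 : ZMod c)‖ = 2 * (h : ℝ) ^ 2 := by
  have e : ∀ (a : ℤ) (h : ℕ), ‖xklF a h (0 : ZMod c)‖ = h := fun a h => by simp [xklF]
  rw [xklP, norm_mul, RCLike.norm_conj, e, e]
  push_cast
  ring

theorem xkl_Psum {d : ℕ} (hd : d ∣ c) (a : ℤ) (h : ℕ) :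
    ∑ r ∈ xklD (d : ZMod c), ‖xklP a h r‖ ≤ h * (2 * h + 3 / 2 * d) := by
  refine le_of_pow_le_pow_left₀ two_ne_zero (by positivity) ?_
  simp only [xklP, norm_mul, RCLike.norm_conj]
  refine (sum_mul_sq_le_sq_mul_sq _ _ _).trans ((mul_le_mul (xkl_mass hd a (2 * h))
    (xkl_mass hd 0 h) (sum_nonneg fun _ _ => sq_nonneg _) (by positivity)).trans ?_)
  push_cast
  have : 0 ≤ (h : ℝ) ^ 2 * (d : ℝ) ^ 2 := by positivity
  nlinarith

/-- The majorant. -/
def xklW (a : ℤ) (h : ℕ) (y : ZMod c) : ℕ :=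
  #{p ∈ Ico a (a + (2 * h : ℕ)) ×ˢ Ico (0 : ℤ) (0 + h) | y - (p.1 : ZMod c) + (p.2 : ZMod c) = 0}

theorem xkl_inv (a : ℤ) (h : ℕ) (y : ZMod c) :
    (c : ℂ) * xklW a h y = ∑ r : ZMod c, xklE (r * y) * xklP a h r := by
  have e : ∀ r : ZMod c, xklE (r * y) * xklP a h r =
      ∑ p ∈ Ico a (a + (2 * h : ℕ)) ×ˢ Ico (0 : ℤ) (0 + h),
        xklE (r * (y - (p.1 : ZMod c) + (p.2 : ZMod c))) := fun r => by
    rw [xklP, xklF, xklF, map_sum, sum_mul_sum, sum_product, mul_sum]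
    refine sum_congr rfl fun x _ => ?_
    rw [mul_sum]
    refine sum_congr rfl fun i _ => ?_
    rw [xklE, xklE, xklE, xklE, ← AddChar.map_neg_eq_conj, ← AddChar.map_add_eq_mul,
      ← AddChar.map_add_eq_mul]
    congr 1
    ring
  rw [sum_congr rfl fun r _ => e r, sum_comm, xklW, card_filter, Nat.cast_sum, mul_sum]
  refine sum_congr rfl fun p _ => ?_
  rw [xkl_full]
  split_ifs <;> simp

omit [NeZero c] in
theorem xkl_W (a : ℤ) (h : ℕ) (y : ZMod c) :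
    #((Ico a (a + h)).filter fun x : ℤ => (x : ZMod c) = y) * h ≤ xklW a h y := by
  have e : h = #(Ico (0 : ℤ) (0 + h)) := by simp
  nth_rewrite 2 [e]
  rw [← card_product]
  refine card_le_card_of_injOn (fun p => (p.1 + p.2, p.2)) (fun p hp => ?_) fun p _ p' _ e => ?_
  · obtain ⟨h1, h2⟩ := mem_product.1 (mem_coe.1 hp)
    obtain ⟨h3, h4⟩ := mem_filter.1 h1
    have h5 := mem_Ico.1 h3
    have h6 := mem_Ico.1 h2
    refine mem_coe.2 (mem_filter.2 ⟨mem_product.2 ⟨mem_Ico.2 ?_, h2⟩, ?_⟩)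
    · push_cast
      omega
    · push_cast
      rw [h4]
      ring
  · obtain ⟨e1, e2⟩ := Prod.mk.inj e
    exact Prod.ext (by omega) e2

theorem xkl_err (m : (ZMod c)ˣ) {κ : ℝ} (h0 : 0 ≤ κ)
    (hκ : 2 * (#c.divisors : ℝ) ^ 3 * (c : ℝ) ^ 3 ≤ κ ^ 4) (a b : ℤ) (h : ℕ) :
    ∑ z ∈ univ.erase (0 : ZMod c × ZMod c), ‖xklK m z‖ * (‖xklP a h z.1‖ * ‖xklP b h z.2‖) ≤
      #c.divisors * (κ * c * ((h : ℝ) ^ 2 * (6 * h + 3 * c))) := by
  have hc : ∀ z : ZMod c × ZMod c, addOrderOf z ∣ c := fun z =>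
    addOrderOf_dvd_of_nsmul_eq_zero (Prod.ext (by simp) (by simp))
  rw [← sum_fiberwise_of_maps_to (t := c.divisors) (g := addOrderOf)
    fun z _ => Nat.mem_divisors.2 ⟨hc z, NeZero.ne c⟩, ← nsmul_eq_mul]
  refine sum_le_card_nsmul _ _ _ fun d hd => ?_
  have hdc := Nat.dvd_of_mem_divisors hd
  obtain ⟨g, hg⟩ := id hdc
  have h1 : ∑ z ∈ (xklD (d : ZMod c) ×ˢ xklD (d : ZMod c)).erase 0,
      ‖xklP a h z.1‖ * ‖xklP b h z.2‖ ≤ d * ((h : ℝ) ^ 2 * (6 * h + 3 * c)) := by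
    have h2 := sum_erase_eq_sub (f := fun z : ZMod c × ZMod c => ‖xklP a h z.1‖ * ‖xklP b h z.2‖)
      (mem_product.2 ⟨xkl_mem.2 (mul_zero (d : ZMod c)), xkl_mem.2 (mul_zero (d : ZMod c))⟩ :
        (0 : ZMod c × ZMod c) ∈ _)
    rw [h2, sum_product' (f := fun r s : ZMod c => ‖xklP a h r‖ * ‖xklP b h s‖), ← sum_mul_sum,
      Prod.fst_zero, Prod.snd_zero, xkl_P0, xkl_P0]
    have h3 := mul_le_mul (xkl_Psum hdc a h) (xkl_Psum hdc b h)
      (sum_nonneg fun _ _ => norm_nonneg _) (by positivity)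
    have h4 : (d : ℝ) ≤ c := by exact_mod_cast Nat.le_of_dvd (NeZero.pos c) hdc
    have h5 : (h : ℝ) ^ 2 * d * d ≤ (h : ℝ) ^ 2 * d * c := by gcongr
    have h6 : 0 ≤ (h : ℝ) ^ 2 * d * c := by positivity
    nlinarith
  calc _ ≤ ∑ z ∈ (univ.erase (0 : ZMod c × ZMod c)).filter fun z => addOrderOf z = d,
        κ * g * (‖xklP a h z.1‖ * ‖xklP b h z.2‖) := sum_le_sum fun z hz =>
          mul_le_mul_of_nonneg_right (xkl_bound m h0 hκ z (by rw [(mem_filter.1 hz).2]; exact hg))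
            (by positivity)
    _ ≤ κ * g * (d * ((h : ℝ) ^ 2 * (6 * h + 3 * c))) := by
        rw [← mul_sum]
        refine mul_le_mul_of_nonneg_left (le_trans (sum_le_sum_of_subset_of_nonneg (fun z hz => ?_)
          fun _ _ _ => by positivity) h1) (by positivity)
        obtain ⟨z1, z2⟩ := mem_filter.1 hz
        have z3 := addOrderOf_nsmul_eq_zero z
        rw [z2] at z3
        refine mem_erase.2 ⟨(mem_erase.1 z1).1, mem_product.2 ⟨xkl_mem.2 ?_, xkl_mem.2 ?_⟩⟩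
        · simpa using congrArg Prod.fst z3
        · simpa using congrArg Prod.snd z3
    _ = _ := by
        have : (c : ℝ) = d * g := by exact_mod_cast hg
        nth_rewrite 2 [this]
        ring

/-- Points of the hyperbola `x y = m` modulo `c` in a square of side `h`. -/
theorem xkl_box (m : (ZMod c)ˣ) {κ : ℝ} (h0 : 0 ≤ κ)
    (hκ : 2 * (#c.divisors : ℝ) ^ 3 * (c : ℝ) ^ 3 ≤ κ ^ 4) (a b : ℤ) (h : ℕ) :
    (#{p ∈ Ico a (a + h) ×ˢ Ico b (b + h) | (p.1 : ZMod c) * (p.2 : ZMod c) = m} : ℝ) ≤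
      4 * (h : ℝ) ^ 2 / c + #c.divisors * κ * (6 * h + 3 * c) / c := by
  have hc : (0 : ℝ) < c := by exact_mod_cast NeZero.pos c
  rcases Nat.eq_zero_or_pos h with rfl | hh
  · simp only [Nat.cast_zero, add_zero, Ico_self, empty_product, filter_empty, card_empty]
    positivity
  have hh' : (0 : ℝ) < h := by exact_mod_cast hh
  have h1 : #{p ∈ Ico a (a + h) ×ˢ Ico b (b + h) | (p.1 : ZMod c) * (p.2 : ZMod c) = m} * h ^ 2 ≤
      ∑ u : (ZMod c)ˣ, xklW a h (u : ZMod c) * xklW b h ((m * u⁻¹ : (ZMod c)ˣ) : ZMod c) := by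
    refine le_trans (Nat.mul_le_mul_right _ ((card_le_card (t := univ.biUnion fun u : (ZMod c)ˣ =>
      ((Ico a (a + h)).filter fun x : ℤ => (x : ZMod c) = u) ×ˢ (Ico b (b + h)).filter
        fun y : ℤ => (y : ZMod c) = (m * u⁻¹ : (ZMod c)ˣ)) fun p hp => ?_).trans
      card_biUnion_le)) ?_
    · obtain ⟨p1, p2⟩ := mem_filter.1 hp
      obtain ⟨u, hu⟩ : IsUnit (p.1 : ZMod c) := isUnit_of_mul_isUnit_left (p2 ▸ m.isUnit)
      refine mem_biUnion.2 ⟨u, mem_univ _, mem_product.2 ⟨mem_filter.2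
        ⟨(mem_product.1 p1).1, hu.symm⟩, mem_filter.2 ⟨(mem_product.1 p1).2, ?_⟩⟩⟩
      rw [Units.val_mul, ← p2, ← hu]
      linear_combination (-(p.2 : ZMod c)) * u.mul_inv
    · rw [sum_mul]
      refine sum_le_sum fun u _ => ?_
      rw [card_product, sq, mul_mul_mul_comm]
      exact Nat.mul_le_mul (xkl_W _ _ _) (xkl_W _ _ _)
  have h2 : (c : ℂ) ^ 2 * (∑ u : (ZMod c)ˣ, xklW a h (u : ZMod c) *
      xklW b h ((m * u⁻¹ : (ZMod c)ˣ) : ZMod c) : ℕ) =
      ∑ z : ZMod c × ZMod c, xklK m z * (xklP a h z.1 * xklP b h z.2) := by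
    simp only [xklK, sum_mul]
    rw [sum_comm, Nat.cast_sum, mul_sum]
    refine sum_congr rfl fun u _ => ?_
    rw [Nat.cast_mul, sq, mul_mul_mul_comm, xkl_inv, xkl_inv, sum_mul_sum, ← univ_product_univ,
      sum_product]
    refine sum_congr rfl fun r _ => sum_congr rfl fun s _ => ?_
    rw [mul_mul_mul_comm, xklE, xklE, xklE, AddChar.map_add_eq_mul]
  have h3 := congrArg norm h2
  rw [norm_mul, norm_pow, Complex.norm_natCast, Complex.norm_natCast] at h3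
  have h4 := norm_sum_le (univ : Finset (ZMod c × ZMod c))
    fun z => xklK m z * (xklP a h z.1 * xklP b h z.2)
  simp only [norm_mul] at h4
  rw [← h3, ← add_sum_erase _ _ (mem_univ (0 : ZMod c × ZMod c)), Prod.fst_zero, Prod.snd_zero,
    xkl_P0, xkl_P0] at h4
  have h5 := xkl_err m h0 hκ a b h
  have h6 : ‖xklK m 0‖ ≤ c := by
    refine (norm_sum_le _ _).trans ?_
    simp only [AddChar.norm_apply, sum_const, card_univ, ZMod.card_units_eq_totient, nsmul_eq_mul,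
      mul_one]
    exact_mod_cast Nat.totient_le c
  have h7 := mul_le_mul_of_nonneg_right h6 (by positivity : 0 ≤ 2 * (h : ℝ) ^ 2 * (2 * (h : ℝ) ^ 2))
  have h8 := mul_le_mul_of_nonneg_left ((Nat.cast_le (α := ℝ)).2 h1) (sq_nonneg (c : ℝ))
  rw [Nat.cast_mul, Nat.cast_pow] at h8
  rw [← add_div, le_div_iff₀ hc]
  refine le_of_mul_le_mul_left ?_ (by positivity : 0 < c * (h : ℝ) ^ 2)
  nlinarith

end Pool.Agent.EQ
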