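import Pool.Agent.K.MP_ad7a55_nt.C0

-- part Pool.Agent.P.MP_ad7a55_nt.Beta
section

/-! Normalised Haar measure on p-adic balls. -/

set_option autoImplicit false

noncomputable section

open MeasureTheory Topology Filter UpperHalfPlane
open scoped MatrixGroups ENNReal BoundedContinuousFunction

namespace Pool.Agent.EQ

variable (p : ℕ) [Fact p.Prime]

/-- The closed ball of radius `p^k`. -/
def pb (c : ℚ_[p]) (k : ℤ) : Set ℚ_[p] := Metric.closedBall c ((p : ℝ) ^ k)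

/-- Normalised Haar measure of the ball of radius `p^k` around `0`. -/
def bm (k : ℤ) : Measure ℚ_[p] := ProbabilityTheory.cond Measure.addHaar (pb p 0 k)

theorem mem_pb {c s : ℚ_[p]} {k : ℤ} : s ∈ pb p c k ↔ ‖s - c‖ ≤ (p : ℝ) ^ k := by
  rw [pb, Metric.mem_closedBall, dist_eq_norm]

theorem measurableSet_pb (c : ℚ_[p]) (k : ℤ) : MeasurableSet (pb p c k) :=
  Metric.isClosed_closedBall.measurableSet

theorem beta_pos (k : ℤ) : (0 : ℝ) < (p : ℝ) ^ k :=
  zpow_pos (Nat.cast_pos.2 (Fact.out : p.Prime).pos) k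

theorem beta_one_lt : (1 : ℝ) < (p : ℝ) := by
  exact_mod_cast (Fact.out : p.Prime).one_lt

theorem beta_mono {k l : ℤ} (h : l ≤ k) : (p : ℝ) ^ l ≤ (p : ℝ) ^ k :=
  zpow_le_zpow_right₀ (beta_one_lt p).le h

theorem beta_open (c : ℚ_[p]) (k : ℤ) : IsOpen (pb p c k) :=
  IsUltrametricDist.isOpen_closedBall c (beta_pos p k).ne'

theorem beta_self (c : ℚ_[p]) (k : ℤ) : c ∈ pb p c k :=
  Metric.mem_closedBall_self (beta_pos p k).le

theorem beta_eq {c s : ℚ_[p]} {k : ℤ} (h : s ∈ pb p c k) : pb p c k = pb p s k :=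
  IsUltrametricDist.closedBall_eq_of_mem h

theorem beta_sub (c : ℚ_[p]) {k l : ℤ} (h : l ≤ k) : pb p c l ⊆ pb p c k :=
  Metric.closedBall_subset_closedBall (beta_mono p h)

theorem beta_mem0 {s : ℚ_[p]} {k : ℤ} : s ∈ pb p 0 k ↔ ‖s‖ ≤ (p : ℝ) ^ k := by
  rw [mem_pb, sub_zero]

theorem beta_sub' {c : ℚ_[p]} {k l : ℤ} (h : l ≤ k) (hc : ‖c‖ ≤ (p : ℝ) ^ k) :
    pb p c l ⊆ pb p 0 k := by
  rw [beta_eq p ((beta_mem0 p).2 hc)]
  exact beta_sub p c h

/-- Haar measure of a ball of radius `p^k`. -/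
def betaH (k : ℤ) : ℝ≥0∞ := (Measure.addHaar : Measure ℚ_[p]) (pb p 0 k)

theorem betaH_ne_zero (k : ℤ) : betaH p k ≠ 0 :=
  ((beta_open p 0 k).measure_pos _ ⟨0, beta_self p 0 k⟩).ne'

theorem betaH_ne_top (k : ℤ) : betaH p k ≠ ∞ :=
  (isCompact_closedBall (0 : ℚ_[p]) _).measure_lt_top.ne

theorem beta_haar (c : ℚ_[p]) (k : ℤ) :
    (Measure.addHaar : Measure ℚ_[p]) (pb p c k) = betaH p k := by
  have : pb p 0 k = (fun s => s + c) ⁻¹' pb p c k := by
    ext s
    simp [mem_pb]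
  rw [betaH, this, measure_preimage_add_right]

theorem beta_digit {x : ℚ_[p]} (hx : ‖x‖ ≤ 1) :
    ∃ n : ℕ, n < p ∧ ‖x - n‖ ≤ (p : ℝ) ^ (-1 : ℤ) := by
  obtain ⟨n, hn, h⟩ := PadicInt.exists_mem_range (x := (⟨x, hx⟩ : ℤ_[p]))
  refine ⟨n, hn, ?_⟩
  rw [IsLocalRing.mem_maximalIdeal, PadicInt.mem_nonunits] at h
  rw [Padic.norm_le_pow_iff_norm_lt_pow_add_one]
  simpa [PadicInt.norm_def] using h

theorem betaH_succ (k : ℤ) : betaH p (k + 1) = p * betaH p k := by
  have hp0 : (p : ℚ_[p]) ≠ 0 := Nat.cast_ne_zero.2 (Fact.out : p.Prime).ne_zero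
  have hp0' : (p : ℝ) ≠ 0 := Nat.cast_ne_zero.2 (Fact.out : p.Prime).ne_zero
  set e : ℚ_[p] := (p : ℚ_[p]) ^ (-(k + 1)) with he
  have hen : ‖e‖ = (p : ℝ) ^ (k + 1) := by rw [he, Padic.norm_p_zpow, neg_neg]
  have he0 : e ≠ 0 := zpow_ne_zero _ hp0
  have h1 : pb p 0 (k + 1) = ⋃ n ∈ Finset.range p, pb p (n * e) k := by
    ext s
    simp only [Set.mem_iUnion, Finset.mem_range, exists_prop]
    constructor
    · intro hs
      rw [beta_mem0] at hs
      have hx : ‖s / e‖ ≤ 1 := by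
        rw [norm_div, hen]
        exact (div_le_one (beta_pos p _)).2 hs
      obtain ⟨n, hn, h⟩ := beta_digit p hx
      refine ⟨n, hn, (mem_pb p).2 ?_⟩
      have : s - n * e = (s / e - n) * e := by field_simp
      rw [this, norm_mul, hen]
      calc _ ≤ (p : ℝ) ^ (-1 : ℤ) * (p : ℝ) ^ (k + 1) :=
            mul_le_mul_of_nonneg_right h (beta_pos p _).le
        _ = (p : ℝ) ^ k := by rw [← zpow_add₀ hp0']; congr 1; ring
    · rintro ⟨n, _, h⟩
      refine beta_sub' p (by omega) ?_ h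
      rw [norm_mul, hen]
      exact mul_le_of_le_one_left (beta_pos p _).le (IsUltrametricDist.norm_natCast_le_one _ n)
  have h2 : Set.PairwiseDisjoint (↑(Finset.range p) : Set ℕ) fun n : ℕ => pb p (n * e) k := by
    intro n hn m hm hnm
    refine (IsUltrametricDist.closedBall_eq_or_disjoint _ _ _).resolve_left fun h => hnm ?_
    have h3 : (n : ℚ_[p]) * e ∈ pb p (m * e) k := by
      have := beta_self p ((n : ℚ_[p]) * e) k
      rwa [pb, h] at this
    rw [mem_pb, ← sub_mul, norm_mul, hen, zpow_add_one₀ hp0', mul_comm ((p : ℝ) ^ k), ← mul_assoc]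
      at h3
    have h4 : ‖(n : ℚ_[p]) - m‖ * p ≤ 1 := by
      have := beta_pos p k
      nlinarith
    have h5 : ‖(((n : ℤ) - m : ℤ) : ℚ_[p])‖ < 1 := by
      push_cast
      have h6 := beta_one_lt p
      have h7 := norm_nonneg ((n : ℚ_[p]) - m)
      nlinarith
    rw [Padic.norm_intCast_lt_one_iff] at h5
    have hn' : n < p := Finset.mem_range.1 hn
    have hm' : m < p := Finset.mem_range.1 hm
    have := Int.eq_zero_of_abs_lt_dvd h5 (by rw [abs_lt]; constructor <;> omega)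
    omega
  rw [betaH, h1, measure_biUnion_finset h2 fun n _ => measurableSet_pb p _ _]
  simp [beta_haar]

theorem betaH_eq (k : ℤ) : betaH p k = ENNReal.ofReal ((p : ℝ) ^ k) * betaH p 0 := by
  have hp0' : (p : ℝ) ≠ 0 := Nat.cast_ne_zero.2 (Fact.out : p.Prime).ne_zero
  have hp1 : (p : ℝ≥0∞) ≠ 0 := Nat.cast_ne_zero.2 (Fact.out : p.Prime).ne_zero
  have hs : ∀ j : ℤ, ENNReal.ofReal ((p : ℝ) ^ (j + 1)) = p * ENNReal.ofReal ((p : ℝ) ^ j) :=
    fun j => by
      rw [zpow_add_one₀ hp0', mul_comm, ENNReal.ofReal_mul (Nat.cast_nonneg _),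
        ENNReal.ofReal_natCast]
  induction k using Int.induction_on with
  | zero => simp
  | succ j ih => rw [betaH_succ, ih, hs, mul_assoc]
  | pred j ih =>
    have e : (-(j : ℤ)) = (-(j : ℤ) - 1) + 1 := by ring
    rw [e, betaH_succ, hs, mul_assoc] at ih
    exact (ENNReal.mul_right_inj hp1 (ENNReal.natCast_ne_top p)).1 ih

theorem betaH_rel (k l : ℤ) : betaH p l = ENNReal.ofReal ((p : ℝ) ^ (l - k)) * betaH p k := by
  have hp0' : (p : ℝ) ≠ 0 := Nat.cast_ne_zero.2 (Fact.out : p.Prime).ne_zero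
  rw [betaH_eq p l, betaH_eq p k, ← mul_assoc, ← ENNReal.ofReal_mul (beta_pos p _).le,
    ← zpow_add₀ hp0', sub_add_cancel]

theorem betaH_div (k l : ℤ) :
    (betaH p k)⁻¹ * betaH p l = ENNReal.ofReal ((p : ℝ) ^ (l - k)) := by
  rw [betaH_rel p k l, mul_left_comm,
    ENNReal.inv_mul_cancel (betaH_ne_zero p k) (betaH_ne_top p k), mul_one]

theorem beta_apply (k : ℤ) (E : Set ℚ_[p]) :
    bm p k E = (betaH p k)⁻¹ * (Measure.addHaar : Measure ℚ_[p]) (pb p 0 k ∩ E) :=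
  ProbabilityTheory.cond_apply (measurableSet_pb p 0 k) _ E

theorem beta_congr (k : ℤ) {E F : Set ℚ_[p]} (h : pb p 0 k ∩ E = pb p 0 k ∩ F) :
    bm p k E = bm p k F := by
  rw [beta_apply, beta_apply, h]

/-- Probability measures that agree on all balls are equal. -/
theorem beta_ext {μ ν : Measure ℚ_[p]} [IsProbabilityMeasure μ] [IsProbabilityMeasure ν]
    (h : ∀ c l, μ (pb p c l) = ν (pb p c l)) : μ = ν := by
  have hb : TopologicalSpace.IsTopologicalBasis {E : Set ℚ_[p] | ∃ c l, E = pb p c l} := by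
    refine TopologicalSpace.isTopologicalBasis_of_isOpen_of_nhds ?_ ?_
    · rintro _ ⟨c, l, rfl⟩
      exact beta_open p c l
    · intro a u ha hu
      obtain ⟨ε, hε, hsub⟩ := Metric.isOpen_iff.1 hu a ha
      obtain ⟨n, hn⟩ := PadicInt.exists_pow_neg_lt p hε
      exact ⟨_, ⟨a, _, rfl⟩, beta_self p a _, (Metric.closedBall_subset_ball hn).trans hsub⟩
  refine ext_of_generate_finite _ hb.borel_eq_generateFrom ?_ ?_ (by simp)
  · rintro _ ⟨c, l, rfl⟩ _ ⟨c', l', rfl⟩ ⟨s, hs, hs'⟩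
    rw [beta_eq p hs, beta_eq p hs']
    rcases le_total l l' with hl | hl
    · exact ⟨s, l, Set.inter_eq_left.2 (beta_sub p s hl)⟩
    · exact ⟨s, l', Set.inter_eq_right.2 (beta_sub p s hl)⟩
  · rintro _ ⟨c, l, rfl⟩
    exact h c l

instance instProbbm (k : ℤ) : IsProbabilityMeasure (bm p k) :=
  ProbabilityTheory.cond_isProbabilityMeasure_of_finite (betaH_ne_zero p k) (betaH_ne_top p k)

theorem bm_ae (k : ℤ) : ∀ᵐ s ∂bm p k, ‖s‖ ≤ (p : ℝ) ^ k :=
  (ProbabilityTheory.ae_cond_mem (measurableSet_pb p 0 k)).mono fun _ hs => (beta_mem0 p).1 hs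

theorem bm_add {k : ℤ} {t : ℚ_[p]} (ht : ‖t‖ ≤ (p : ℝ) ^ k) :
    (bm p k).map (fun s => s + t) = bm p k := by
  ext E hE
  rw [Measure.map_apply (measurable_add_const t) hE, beta_apply, beta_apply,
    ← measure_preimage_add_right Measure.addHaar t (pb p 0 k ∩ E)]
  congr 2
  ext s
  simp only [Set.mem_inter_iff, Set.mem_preimage]
  refine and_congr_left fun _ => ?_
  conv_rhs => rw [beta_eq p ((beta_mem0 p).2 ht)]
  simp [mem_pb]

theorem bm_ball {k l : ℤ} (hl : l ≤ k) {c : ℚ_[p]} (hc : ‖c‖ ≤ (p : ℝ) ^ k) :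
    bm p k (pb p c l) = ENNReal.ofReal ((p : ℝ) ^ (l - k)) := by
  rw [beta_apply, Set.inter_eq_right.2 (beta_sub' p hl hc), beta_haar, betaH_div]

theorem beta_full {k l : ℤ} (hl : k ≤ l) {c : ℚ_[p]} (hc : c ∈ pb p 0 k) :
    bm p k (pb p c l) = 1 := by
  rw [← measure_univ (μ := bm p k)]
  refine beta_congr p k ?_
  rw [Set.inter_univ, Set.inter_eq_left, beta_eq p hc]
  exact beta_sub p c hl

theorem bm_ball_le (k l : ℤ) (c : ℚ_[p]) :
    bm p k (pb p c l) ≤ ENNReal.ofReal ((p : ℝ) ^ (l - k)) := by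
  rw [beta_apply, ← betaH_div, ← beta_haar p c l]
  exact mul_le_mul_right (measure_mono Set.inter_subset_right) _

theorem bm_le {k l : ℤ} (hl : l ≤ k) (E : Set ℚ_[p]) :
    bm p l E ≤ ENNReal.ofReal ((p : ℝ) ^ (k - l)) * bm p k E := by
  rw [beta_apply, beta_apply, ← betaH_div, ← mul_assoc, mul_assoc _ (betaH p k),
    ENNReal.mul_inv_cancel (betaH_ne_zero p k) (betaH_ne_top p k), mul_one]
  exact mul_le_mul_right (measure_mono (Set.inter_subset_inter_left _ (beta_sub p 0 hl))) _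

theorem bm_countable (k : ℤ) {E : Set ℚ_[p]} (hE : E.Countable) : bm p k E = 0 :=
  ProbabilityTheory.cond_absolutelyContinuous (hE.measure_zero _)

theorem bm_mul (k v : ℤ) {d : ℚ_[p]} (hd : ‖d‖ = (p : ℝ) ^ v) :
    (bm p k).map (fun s => d * s) = bm p (k + v) := by
  have hp0' : (p : ℝ) ≠ 0 := Nat.cast_ne_zero.2 (Fact.out : p.Prime).ne_zero
  have hm : Measurable fun s : ℚ_[p] => d * s := measurable_const_mul d
  have hd0 : d ≠ 0 := norm_pos_iff.1 (hd ▸ beta_pos p v)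
  have := Measure.isProbabilityMeasure_map (μ := bm p k) hm.aemeasurable
  have hpre : ∀ (c : ℚ_[p]) (l : ℤ), (fun s => d * s) ⁻¹' pb p (d * c) (l + v) = pb p c l := by
    intro c l
    ext s
    rw [Set.mem_preimage, mem_pb, mem_pb, ← mul_sub, norm_mul, hd, zpow_add₀ hp0', mul_comm]
    exact mul_le_mul_iff_left₀ (beta_pos p v)
  refine beta_ext p fun c l => ?_
  obtain ⟨c, rfl⟩ : ∃ c', c = d * c' := ⟨c / d, by field_simp⟩
  obtain ⟨l, rfl⟩ : ∃ l', l = l' + v := ⟨l - v, by ring⟩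
  rw [Measure.map_apply hm (measurableSet_pb p _ _), hpre]
  have h0 := hpre 0 k
  rw [mul_zero] at h0
  rcases Set.eq_empty_or_nonempty (pb p 0 k ∩ pb p c l) with h | ⟨s, hs, hs'⟩
  · have h' : pb p 0 (k + v) ∩ pb p (d * c) (l + v) = ∅ := by
      rw [Set.eq_empty_iff_forall_notMem] at h ⊢
      intro s hs
      obtain ⟨s, rfl⟩ : ∃ s', s = d * s' := ⟨s / d, by field_simp⟩
      exact h s ⟨h0 ▸ hs.1, hpre c l ▸ hs.2⟩
    rw [beta_apply, beta_apply, h, h', measure_empty, mul_zero, mul_zero]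
  · have ht : d * s ∈ pb p 0 (k + v) := by rw [← h0] at hs; exact hs
    have ht' : d * s ∈ pb p (d * c) (l + v) := by rw [← hpre c l] at hs'; exact hs'
    rw [beta_eq p hs', beta_eq p ht']
    rcases le_total l k with hl | hl
    · rw [bm_ball p hl ((beta_mem0 p).1 hs), bm_ball p (by omega) ((beta_mem0 p).1 ht)]
      congr 2
      ring
    · rw [beta_full p hl hs, beta_full p (by omega) ht]

theorem beta_dense {ψ : ℚ_[p] → ℚ_[p]} (h1 : ∀ s, ‖s‖ ≤ 1 → ‖ψ s‖ ≤ 1)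
    (h2 : ∀ s t, ‖s‖ ≤ 1 → ‖t‖ ≤ 1 → ‖ψ s - ψ t‖ = ‖s - t‖) (n : ℕ) {c : ℚ_[p]}
    (hc : ‖c‖ ≤ 1) : ∃ a, ‖a‖ ≤ 1 ∧ ‖ψ a - c‖ ≤ (p : ℝ) ^ (-n : ℤ) := by
  have : NeZero (p ^ n) := ⟨pow_ne_zero _ (Fact.out : p.Prime).ne_zero⟩
  have hk : ∀ x y : ℤ_[p], PadicInt.toZModPow n x = PadicInt.toZModPow n y ↔
      ‖(x : ℚ_[p]) - y‖ ≤ (p : ℝ) ^ (-n : ℤ) := fun x y => by
    rw [← RingHom.sub_mem_ker_iff, PadicInt.ker_toZModPow,
      ← PadicInt.norm_le_pow_iff_mem_span_pow, PadicInt.norm_def, PadicInt.coe_sub]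
  have hn : ∀ m : ℕ, ‖(m : ℚ_[p])‖ ≤ 1 := fun m => IsUltrametricDist.norm_natCast_le_one _ m
  let f : ZMod (p ^ n) → ZMod (p ^ n) := fun a =>
    PadicInt.toZModPow n ⟨ψ (a.val : ℚ_[p]), h1 _ (hn _)⟩
  have hf : Function.Injective f := by
    intro a b hab
    have h3 := (hk _ _).1 hab
    rw [h2 _ _ (hn _) (hn _)] at h3
    have h4 := (hk (a.val : ℤ_[p]) (b.val : ℤ_[p])).2 (by simpa only [PadicInt.coe_natCast] using h3)
    simpa using h4
  obtain ⟨a, ha⟩ := Finite.surjective_of_injective hf (PadicInt.toZModPow n ⟨c, hc⟩)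
  exact ⟨_, hn _, (hk _ _).1 ha⟩

/-- A distance-preserving self-map of the unit ball preserves its measure. -/
theorem bm_iso {ψ : ℚ_[p] → ℚ_[p]} (hψ : Measurable ψ) (h1 : ∀ s, ‖s‖ ≤ 1 → ‖ψ s‖ ≤ 1)
    (h2 : ∀ s t, ‖s‖ ≤ 1 → ‖t‖ ≤ 1 → ‖ψ s - ψ t‖ = ‖s - t‖) : (bm p 0).map ψ = bm p 0 := by
  have := Measure.isProbabilityMeasure_map (μ := bm p 0) hψ.aemeasurable
  have hu : ∀ {s : ℚ_[p]}, s ∈ pb p 0 0 ↔ ‖s‖ ≤ 1 := by
    intro s
    rw [beta_mem0, zpow_zero]
  refine beta_ext p fun c l => ?_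
  rw [Measure.map_apply hψ (measurableSet_pb p _ _)]
  rcases Set.eq_empty_or_nonempty (pb p 0 0 ∩ pb p c l) with h | ⟨s, hs, hs'⟩
  · have h' : pb p 0 0 ∩ ψ ⁻¹' pb p c l = ∅ := by
      rw [Set.eq_empty_iff_forall_notMem] at h ⊢
      exact fun s hs => h (ψ s) ⟨hu.2 (h1 s (hu.1 hs.1)), hs.2⟩
    rw [beta_apply, beta_apply, h, h']
  · rw [beta_eq p hs']
    rcases le_total l 0 with hl | hl
    · obtain ⟨n, rfl⟩ : ∃ n : ℕ, l = -n := ⟨(-l).toNat, by omega⟩
      obtain ⟨a, ha, hb⟩ := beta_dense p h1 h2 n (hu.1 hs)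
      have h3 : pb p 0 0 ∩ ψ ⁻¹' pb p s (-n) = pb p 0 0 ∩ pb p a (-n) := by
        rw [beta_eq p ((mem_pb p).2 hb)]
        ext t
        simp only [Set.mem_inter_iff, Set.mem_preimage]
        refine and_congr_right fun ht => ?_
        rw [mem_pb, mem_pb, h2 t a (hu.1 ht) ha]
      rw [beta_congr p 0 h3, bm_ball p hl ((beta_mem0 p).1 (hu.2 ha)),
        bm_ball p hl ((beta_mem0 p).1 hs)]
    · rw [beta_full p hl hs, ← measure_univ (μ := bm p 0)]
      refine beta_congr p 0 ?_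
      rw [Set.inter_univ, Set.inter_eq_left]
      intro t ht
      have h4 : ψ t ∈ pb p 0 0 := hu.2 (h1 t (hu.1 ht))
      rw [beta_eq p hs] at h4
      exact beta_sub p s hl h4

end Pool.Agent.EQ
end
end

-- part Pool.Agent.P.MP_ad7a55_nt.Grp
section

/-! Group-theoretic facts about Γ and K. -/

set_option autoImplicit false

noncomputable section

open MeasureTheory Topology Filter UpperHalfPlane
open scoped MatrixGroups ENNReal BoundedContinuousFunction

namespace Pool.Agent.EQ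

theorem SL2_gen {F : Type} [Field F] (S : Subgroup SL(2, F)) (h1 : ∀ x, uu x ∈ S)
    (h2 : ∀ x, ul x ∈ S) : S = ⊤ := by
  refine le_antisymm le_top fun A _ => Matrix.SL2.transvection_induction (· ∈ S) ?_
    (fun _ _ => mul_mem) A
  intro i j h c
  fin_cases i <;> fin_cases j
  · exact absurd rfl h
  · refine (congrArg (· ∈ S) (?_ : uu c = _)).mp (h1 c)
    ext a b
    fin_cases a <;> fin_cases b <;> simp [Matrix.SpecialLinearGroup.transvection_coe]
  · refine (congrArg (· ∈ S) (?_ : ul c = _)).mp (h2 c)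
    ext a b
    fin_cases a <;> fin_cases b <;> simp [Matrix.SpecialLinearGroup.transvection_coe]
  · exact absurd rfl h

/-- A subgroup of `SL₂(F)` that contains all commutators is everything. -/
theorem SL2_perfect {F : Type} [Field F] [CharZero F] (S : Subgroup SL(2, F))
    (h : ∀ a b : SL(2, F), a * b * a⁻¹ * b⁻¹ ∈ S) : S = ⊤ := by
  have h2 : commutator SL(2, F) = ⊤ :=
    Matrix.SL2.commutator_eq_top (a := 2) two_ne_zero (by norm_num)
  refine le_antisymm le_top ?_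
  rw [← h2, commutator_def, Subgroup.commutator_le]
  intro a _ b _
  exact h a b

/-- An element of `SL₂(F)` that commutes with `u(1)` and with the lower `u(1)` is `±1`. -/
theorem eq_pm_of_comm {F : Type} [Field F] {g : SL(2, F)} (h1 : g * uu 1 = uu 1 * g)
    (h2 : g * ul 1 = ul 1 * g) : g = 1 ∨ g = -1 := by
  have e1 := congrArg (fun m : SL(2, F) => m 0 0) h1
  have e2 := congrArg (fun m : SL(2, F) => m 0 1) h1
  have e3 := congrArg (fun m : SL(2, F) => m 0 0) h2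
  simp [Matrix.mul_apply, Fin.sum_univ_two] at e1 e2 e3
  have hd := g.det_coe
  rw [Matrix.det_fin_two] at hd
  have e4 : g 1 1 = g 0 0 := by linear_combination -e2
  rw [e1, e4, mul_zero, sub_zero, mul_self_eq_one_iff] at hd
  rcases hd with h | h
  · left
    ext i j
    fin_cases i <;> fin_cases j <;> simp [e1, e3, e4, h]
  · right
    ext i j
    fin_cases i <;> fin_cases j <;> simp [e1, e3, e4, h]

/-- `SL₂` of a locally compact field is unimodular. -/
theorem unimod {F : Type} [NormedField F] [CharZero F] [LocallyCompactSpace F]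
    [SecondCountableTopology F] (μ : Measure SL(2, F)) [μ.IsHaarMeasure] :
    μ.IsMulRightInvariant := by
  have hk : (Measure.modularCharacter (G := SL(2, F))).ker = ⊤ := by
    refine SL2_perfect _ fun a b => ?_
    rw [MonoidHom.mem_ker, map_mul, map_mul, mul_right_comm, ← map_mul, ← map_mul,
      mul_inv_cancel_right, mul_inv_cancel, map_one]
  refine ⟨fun g => ?_⟩
  have h1 : Measure.modularCharacterFun g = 1 := by
    have : g ∈ (Measure.modularCharacter (G := SL(2, F))).ker := by rw [hk]; trivial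
    exact this
  rw [Measure.map_right_mul_eq_modularCharacterFun_smul μ g, h1, one_smul]

theorem IsConjHom.continuous {θ : SL(2, ℝ) →* SL(2, ℝ)} (h : IsConjHom θ) : Continuous θ := by
  obtain ⟨η, hη, h⟩ := h
  have h1 : ∀ g : SL(2, ℝ), (θ g : Matrix (Fin 2) (Fin 2) ℝ) =
      η * (g : Matrix (Fin 2) (Fin 2) ℝ) * η⁻¹ := fun g => by
    rw [← h g, Matrix.mul_nonsing_inv_cancel_right _ _ (Ne.isUnit hη)]
  have h2 : Continuous fun g : SL(2, ℝ) => η * (g : Matrix (Fin 2) (Fin 2) ℝ) * η⁻¹ :=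
    (continuous_const.mul continuous_subtype_val).mul continuous_const
  refine continuous_SL fun i j => ?_
  simp only [h1]
  exact h2.matrix_elem i j

theorem neg_one_mem_Gam0 : (-1 : SL(2, ℝ)) ∈ Gam0 := by
  refine ⟨-1, ?_⟩
  ext i j
  fin_cases i <;> fin_cases j <;> simp

theorem neg_one_smul_YY (y : YY) : (-1 : SL(2, ℝ)) • y = y := by
  obtain ⟨g, rfl⟩ := QuotientGroup.mk_surjective y
  rw [MulAction.Quotient.smul_mk, smul_eq_mul, QuotientGroup.eq]
  have : (-1 * g)⁻¹ * g = -1 := by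
    rw [inv_mul_eq_iff_eq_mul]
    ext i j
    simp
  rw [this]
  exact neg_one_mem_Gam0

variable (p : ℕ) [Fact p.Prime]

theorem Kp_compact : IsCompact (Kp p : Set SL(2, ℚ_[p])) := by
  have h : IsCompact (Set.pi Set.univ fun _ : Fin 2 => Set.pi Set.univ fun _ : Fin 2 =>
      Metric.closedBall (0 : ℚ_[p]) 1) :=
    isCompact_univ_pi fun _ => isCompact_univ_pi fun _ => isCompact_closedBall _ _
  have h2 := (Matrix.SpecialLinearGroup.isClosedEmbedding_val
    (n := Fin 2) (R := ℚ_[p])).isCompact_preimage h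
  refine (Set.ext fun g => ?_ : _ = (Kp p : Set SL(2, ℚ_[p]))) ▸ h2
  exact ⟨fun hg i j => mem_closedBall_zero_iff.1 (hg i trivial j trivial),
    fun hg i _ j _ => mem_closedBall_zero_iff.2 (hg i j)⟩

theorem Kp_open : IsOpen (Kp p : Set SL(2, ℚ_[p])) := by
  have : (Kp p : Set SL(2, ℚ_[p])) =
      ⋂ i, ⋂ j, (fun g : SL(2, ℚ_[p]) => g i j) ⁻¹' Metric.closedBall (0 : ℚ_[p]) 1 := by
    ext g
    simp only [Set.mem_iInter, Set.mem_preimage, mem_closedBall_zero_iff]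
    exact Iff.rfl
  rw [this]
  exact isOpen_iInter_of_finite fun i => isOpen_iInter_of_finite fun j =>
    (IsUltrametricDist.isOpen_closedBall _ one_ne_zero).preimage
      (continuous_subtype_val.matrix_elem i j)

instance instCompactKp : CompactSpace (Kp p) := isCompact_iff_compactSpace.1 (Kp_compact p)

instance instPolishKp : PolishSpace (Kp p) := (Kp_compact p).isClosed.polishSpace

instance instTDKp : TotallyDisconnectedSpace (Kp p) := by
  have hc : Continuous fun k : Kp p => (fun i j => k.1 i j : Fin 2 → Fin 2 → ℚ_[p]) :=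
    continuous_pi fun i => continuous_pi fun j =>
      (continuous_subtype_val.matrix_elem i j).comp continuous_subtype_val
  refine ⟨fun t _ ht x hx y hy => ?_⟩
  have := (ht.image _ hc.continuousOn).subsingleton ⟨x, hx, rfl⟩ ⟨y, hy, rfl⟩
  exact Subtype.ext (Subtype.ext this)

theorem uu_mem_Kp {s : ℚ_[p]} (hs : ‖s‖ ≤ 1) : uu s ∈ Kp p := by
  intro i j
  fin_cases i <;> fin_cases j <;> simp [hs]

theorem ul_mem_Kp {s : ℚ_[p]} (hs : ‖s‖ ≤ 1) : ul s ∈ Kp p := by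
  intro i j
  fin_cases i <;> fin_cases j <;> simp [hs]

theorem toP_mem_Kp (γ : SL(2, ℤ)) : toP p γ ∈ Kp p := by
  intro i j
  simpa [toP] using Padic.norm_int_le_one (p := p) (γ i j)

theorem int_mem_Gam (γ : SL(2, ℤ)) : ((toR γ, toP p γ) : GG p) ∈ Gam p := by
  refine ⟨Matrix.SpecialLinearGroup.map (Int.castRingHom ℚ) γ, fun i j => ?_, ?_⟩
  · simpa using inZp_int p (γ i j)
  · refine Prod.ext ?_ ?_ <;> ext i j <;> simp [emb, toR, toP]

theorem grp_int {x : ℚ} (hx : InZp p x) (h : ‖(x : ℚ_[p])‖ ≤ 1) : ∃ n : ℤ, x = n := by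
  obtain ⟨a, m, hm⟩ := hx
  have hp' : (p : ℚ) ≠ 0 := by exact_mod_cast (Fact.out : p.Prime).ne_zero
  have h6 : ‖((m : ℤ) : ℚ_[p])‖ ≤ (p : ℝ) ^ (-(a : ℤ)) := by
    have : ((m : ℤ) : ℚ_[p]) = (p : ℚ_[p]) ^ a * (x : ℚ_[p]) := by
      have := congrArg (fun z : ℚ => (z : ℚ_[p])) hm
      simpa using this.symm
    rw [this, norm_mul, norm_pow, Padic.norm_p, zpow_neg, zpow_natCast, inv_pow]
    exact mul_le_of_le_one_right (by positivity) h
  obtain ⟨n, hn⟩ := (Padic.norm_int_le_pow_iff_dvd m a).1 h6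
  refine ⟨n, mul_left_cancel₀ (pow_ne_zero a hp') ?_⟩
  rw [hm, hn]; push_cast; ring

/-- `Γ ∩ (SL₂(ℝ) × K) = SL₂(ℤ)`. -/
theorem exists_int_of_Gam {γ : GG p} (hγ : γ ∈ Gam p) (hK : γ.2 ∈ Kp p) :
    ∃ δ : SL(2, ℤ), γ = (toR δ, toP p δ) := by
  obtain ⟨g, hg, rfl⟩ := hγ
  choose n hn using fun i j => grp_int p (hg i j) (hK i j)
  have hd : (Matrix.of n).det = 1 := by
    have := g.det_coe
    rw [Matrix.det_fin_two, hn, hn, hn, hn] at this
    rw [Matrix.det_fin_two]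
    exact_mod_cast this
  refine ⟨⟨Matrix.of n, hd⟩, Prod.ext ?_ ?_⟩ <;> ext i j <;> simp [emb, toR, toP, hn]

theorem grp_dense {F : Type} [NormedField F] (S : Subgroup SL(2, F)) {A : Set F} (hA : Dense A)
    (h1 : ∀ x ∈ A, uu x ∈ S) (h2 : ∀ x ∈ A, ul x ∈ S) : Dense (S : Set SL(2, F)) := by
  have : S.topologicalClosure = ⊤ :=
    SL2_gen _ (fun x => map_mem_closure continuous_uu (hA x) h1)
      (fun x => map_mem_closure continuous_ul (hA x) h2)
  intro g
  have h : g ∈ S.topologicalClosure := by rw [this]; trivial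
  exact h

theorem grp_mem {x : ℚ} (hx : InZp p x) :
    ((uu (x : ℝ), uu (x : ℚ_[p])) : GG p) ∈ Gam p ∧
      ((ul (x : ℝ), ul (x : ℚ_[p])) : GG p) ∈ Gam p := by
  have h1 : InZp p 1 := by simpa using inZp_int p 1
  have h0 : InZp p 0 := by simpa using inZp_int p 0
  refine ⟨⟨uu x, fun i j => ?_, ?_⟩, ⟨ul x, fun i j => ?_, ?_⟩⟩
  · fin_cases i <;> fin_cases j <;> simp [h0, h1, hx]
  · refine Prod.ext ?_ ?_ <;> ext i j <;> fin_cases i <;> fin_cases j <;> simp [emb]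
  · fin_cases i <;> fin_cases j <;> simp [h0, h1, hx]
  · refine Prod.ext ?_ ?_ <;> ext i j <;> fin_cases i <;> fin_cases j <;> simp [emb]

theorem grp_inZp (n : ℕ) (m : ℤ) : InZp p ((m : ℚ) / (p : ℚ) ^ n) := by
  have hp' : (p : ℚ) ≠ 0 := by exact_mod_cast (Fact.out : p.Prime).ne_zero
  exact ⟨n, m, by field_simp⟩

theorem grp_dense_R : Dense {y : ℝ | ∃ x : ℚ, InZp p x ∧ (x : ℝ) = y} := by
  have hp : (1 : ℝ) < p := by exact_mod_cast (Fact.out : p.Prime).one_lt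
  refine Metric.dense_iff.2 fun y ε hε => ?_
  obtain ⟨n, hn⟩ := pow_unbounded_of_one_lt ε⁻¹ hp
  have hP : (0 : ℝ) < (p : ℝ) ^ n := by positivity
  refine ⟨(⌊(p : ℝ) ^ n * y⌋ : ℝ) / (p : ℝ) ^ n, ?_, _, grp_inZp p n ⌊(p : ℝ) ^ n * y⌋, by simp⟩
  rw [Metric.mem_ball, Real.dist_eq]
  have h1 : (⌊(p : ℝ) ^ n * y⌋ : ℝ) / (p : ℝ) ^ n - y =
      ((⌊(p : ℝ) ^ n * y⌋ : ℝ) - (p : ℝ) ^ n * y) / (p : ℝ) ^ n := by field_simp
  have h2 : |(⌊(p : ℝ) ^ n * y⌋ : ℝ) - (p : ℝ) ^ n * y| < 1 := by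
    rw [abs_lt]
    constructor <;> linarith [Int.floor_le ((p : ℝ) ^ n * y), Int.lt_floor_add_one ((p : ℝ) ^ n * y)]
  rw [h1, abs_div, abs_of_pos hP, div_lt_iff₀ hP]
  rw [inv_lt_iff_one_lt_mul₀ hε] at hn
  linarith

theorem grp_dense_P : Dense {y : ℚ_[p] | ∃ x : ℚ, InZp p x ∧ (x : ℚ_[p]) = y} := by
  have hp : (1 : ℝ) < p := by exact_mod_cast (Fact.out : p.Prime).one_lt
  have hpP : (p : ℚ_[p]) ≠ 0 := by exact_mod_cast (Fact.out : p.Prime).ne_zero
  refine Metric.dense_iff.2 fun y ε hε => ?_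
  obtain ⟨n, hn⟩ := pow_unbounded_of_one_lt ‖y‖ hp
  have hP : (0 : ℝ) < (p : ℝ) ^ n := by positivity
  have h1 : ‖(p : ℚ_[p]) ^ n * y‖ ≤ 1 := by
    rw [norm_mul, norm_pow, Padic.norm_p, inv_pow, inv_mul_le_iff₀ hP, mul_one]
    exact hn.le
  obtain ⟨m, hm⟩ := PadicInt.denseRange_intCast.exists_dist_lt (⟨_, h1⟩ : ℤ_[p])
    (div_pos hε hP)
  have h2 : ‖(p : ℚ_[p]) ^ n * y - m‖ < ε / (p : ℝ) ^ n := by
    rw [dist_eq_norm] at hm
    simpa [PadicInt.norm_def] using hm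
  refine ⟨(m : ℚ_[p]) / (p : ℚ_[p]) ^ n, ?_, _, grp_inZp p n m, by simp⟩
  rw [Metric.mem_ball, dist_comm, dist_eq_norm]
  have h3 : y - (m : ℚ_[p]) / (p : ℚ_[p]) ^ n = ((p : ℚ_[p]) ^ n * y - m) / (p : ℚ_[p]) ^ n := by
    field_simp
  rw [h3, norm_div, norm_pow, Padic.norm_p, inv_pow, div_inv_eq_mul]
  rwa [lt_div_iff₀ hP] at h2

theorem dense_fst : Dense (Prod.fst '' (Gam p : Set (GG p))) := by
  have := grp_dense ((Gam p).map (MonoidHom.fst _ _)) (grp_dense_R p)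
    (fun _ ⟨x, hx, h⟩ => ⟨_, (grp_mem p hx).1, h ▸ rfl⟩)
    (fun _ ⟨x, hx, h⟩ => ⟨_, (grp_mem p hx).2, h ▸ rfl⟩)
  exact this

theorem dense_snd : Dense (Prod.snd '' (Gam p : Set (GG p))) := by
  have := grp_dense ((Gam p).map (MonoidHom.snd _ _)) (grp_dense_P p)
    (fun _ ⟨x, hx, h⟩ => ⟨_, (grp_mem p hx).1, h ▸ rfl⟩)
    (fun _ ⟨x, hx, h⟩ => ⟨_, (grp_mem p hx).2, h ▸ rfl⟩)
  exact this

/-- `SL₂(ℚ_p) = K Γ`. -/
theorem exists_rep (x : XX p) : ∃ g : GG p, g.2 ∈ Kp p ∧ (g : XX p) = x := by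
  obtain ⟨h, rfl⟩ := QuotientGroup.mk_surjective x
  have ho : IsOpen ((fun k => h.2 * k) ⁻¹' (Kp p : Set SL(2, ℚ_[p]))) :=
    (Kp_open p).preimage (continuous_const.mul continuous_id)
  obtain ⟨_, ⟨γ, hγ, rfl⟩, hk⟩ := (dense_snd p).exists_mem_open ho
    ⟨h.2⁻¹, by simp [(Kp p).one_mem]⟩
  exact ⟨h * γ, hk, QuotientGroup.mk_mul_of_mem h hγ⟩

/-- Nearby points differ by a small group element. -/
theorem exists_nhds_smul (x : XX p) {V : Set (GG p)} (hV : V ∈ 𝓝 (1 : GG p)) :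
    (fun g : GG p => g • x) '' V ∈ 𝓝 x := by
  obtain ⟨h, rfl⟩ := QuotientGroup.mk_surjective x
  have ho : IsOpenMap fun g : GG p => g • (h : XX p) :=
    QuotientGroup.isOpenMap_coe.comp (isOpenMap_mul_right h)
  simpa using ho.image_mem_nhds hV

/-- Compactly supported continuous functions on `X` are uniformly continuous for the action. -/
theorem unif_smul {f : XX p → ℝ} (hf : Continuous f) (hc : HasCompactSupport f) {ε : ℝ}
    (hε : 0 < ε) : ∀ᶠ g : GG p in 𝓝 1, ∀ x, |f (g • x) - f x| ≤ ε := by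
  have h1 : ∀ᶠ g : GG p in 𝓝 1, ∀ x ∈ tsupport f,
      |f (g • x) - f x| < ε ∧ |f (g⁻¹ • x) - f x| < ε := by
    refine IsCompact.eventually_forall_of_forall_eventually hc fun y _ => ?_
    have c1 : Continuous fun z : GG p × XX p => |f (z.1 • z.2) - f z.2| :=
      ((hf.comp continuous_smul).sub (hf.comp continuous_snd)).abs
    have c2 : Continuous fun z : GG p × XX p => |f (z.1⁻¹ • z.2) - f z.2| :=
      ((hf.comp (continuous_fst.inv.smul continuous_snd)).sub (hf.comp continuous_snd)).abs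
    refine Eventually.and ?_ ?_
    · exact (isOpen_lt c1 continuous_const).mem_nhds (by simpa using hε)
    · exact (isOpen_lt c2 continuous_const).mem_nhds (by simpa using hε)
  filter_upwards [h1] with g hg x
  by_cases hx : x ∈ tsupport f
  · exact (hg x hx).1.le
  by_cases hx' : g • x ∈ tsupport f
  · have := (hg _ hx').2.le
    rwa [inv_smul_smul, abs_sub_comm] at this
  · rw [image_eq_zero_of_notMem_tsupport hx, image_eq_zero_of_notMem_tsupport hx']
    simpa using hε.le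

end Pool.Agent.EQ
end
end

-- part Pool.Agent.P.MP_ad7a55_nt.JBas
section

/-! Basic properties of j. -/

set_option autoImplicit false

noncomputable section

open MeasureTheory Topology Filter UpperHalfPlane
open scoped MatrixGroups ENNReal BoundedContinuousFunction ModularForm Manifold

namespace Pool.Agent.EQ

theorem jbas_smul {k : ℤ} {F : Type} [FunLike F ℍ ℂ] [SlashInvariantFormClass F 𝒮ℒ k] (f : F)
    (γ : SL(2, ℤ)) (τ : ℍ) : f (γ • τ) = ((γ 1 0 : ℂ) * τ + γ 1 1) ^ k * f τ := by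
  have hγ : (γ : GL (Fin 2) ℝ) ∈ 𝒮ℒ := ⟨γ, rfl⟩
  have := SlashInvariantForm.slash_action_eqn' f hγ τ
  simpa using this

theorem jbas_den (γ : SL(2, ℤ)) (τ : ℍ) : ((γ 1 0 : ℂ) * τ + γ 1 1) ≠ 0 := by
  have := denom_ne_zero (γ : GL (Fin 2) ℝ) τ
  simpa [denom] using this

theorem jbas_disc (γ : SL(2, ℤ)) (τ : ℍ) :
    ModularForm.discriminant (γ • τ) =
      ((γ 1 0 : ℂ) * τ + γ 1 1) ^ 12 * ModularForm.discriminant τ := by
  have := jbas_smul CuspForm.discriminant γ τ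
  rw [CuspForm.coe_discriminant] at this
  rw [this]
  norm_cast

theorem jInv_smul (γ : SL(2, ℤ)) (τ : ℍ) : jInv (γ • τ) = jInv τ := by
  have h1 := jbas_smul ModularForm.E₄ γ τ
  have h2 := jbas_den γ τ
  have h3 := ModularForm.discriminant_ne_zero τ
  rw [jInv, jInv, h1, jbas_disc, zpow_ofNat]
  field_simp

theorem disc_smul (γ : SL(2, ℤ)) (τ : ℍ) :
    ModularForm.discriminant (γ • τ) =
      ((γ 1 0 : ℂ) * τ + γ 1 1) ^ 12 * ModularForm.discriminant τ :=
  jbas_disc γ τ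

theorem continuous_jInv : Continuous jInv :=
  ((ModularFormClass.holo ModularForm.E₄).continuous.pow 3).div
    (ModularFormClass.holo CuspForm.discriminant).continuous ModularForm.discriminant_ne_zero

theorem jbas_E4_tendsto : Tendsto (fun τ => ModularForm.E₄ τ) atImInfty (𝓝 1) := by
  have hanal := ModularFormClass.analyticAt_cuspFunction_zero ModularForm.E₄ one_pos
    one_mem_strictPeriods_SL
  have hper := SlashInvariantFormClass.periodic_comp_ofComplex ModularForm.E₄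
    one_mem_strictPeriods_SL
  have h0 : (qExpansion 1 ModularForm.E₄).coeff 0 = 1 :=
    EisensteinSeries.E_qExpansion_coeff_zero _ ⟨2, rfl⟩
  rw [qExpansion_coeff_zero one_pos hanal hper, ← cuspFunction_apply_zero one_pos hanal hper] at h0
  rw [← h0]
  exact (hanal.continuousAt.tendsto.comp (qParam_tendsto_atImInfty one_pos)).congr
    (fun τ ↦ SlashInvariantFormClass.eq_cuspFunction ModularForm.E₄ τ one_mem_strictPeriods_SL
      one_ne_zero)

theorem jInv_surj (z : ℂ) : ∃ τ : ℍ, jInv τ = z := by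
  by_contra hne
  push Not at hne
  let P : ModularForm 𝒮ℒ 12 := ModularForm.mcast (by decide) (ModularForm.E₄.pow 3) -
    z • (CuspForm.discriminant : ModularForm 𝒮ℒ 12)
  have hP : ∀ τ, P τ = ModularForm.E₄ τ ^ 3 - z * ModularForm.discriminant τ := fun τ => rfl
  have hP0 : ∀ τ, P τ ≠ 0 := by
    intro τ h
    apply hne τ
    rw [hP, sub_eq_zero] at h
    rw [jInv, h, mul_div_cancel_right₀ _ (ModularForm.discriminant_ne_zero τ)]
  have hlim : Tendsto (fun τ => P τ) atImInfty (𝓝 1) := by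
    have := (jbas_E4_tendsto.pow 3).sub
      (Tendsto.const_mul z ModularForm.discriminant_isZeroAtImInfty)
    simpa [hP] using this
  have hs : ∀ γ : SL(2, ℤ), (fun τ => (1 : ℂ) / P τ) ∣[(0 - 12 : ℤ)] γ = fun τ => 1 / P τ := by
    intro γ
    have hγ : (γ : GL (Fin 2) ℝ) ∈ 𝒮ℒ := ⟨γ, rfl⟩
    change (⇑(1 : ModularForm 𝒮ℒ 0) / ⇑P) ∣[(0 - 12 : ℤ)] γ = ⇑(1 : ModularForm 𝒮ℒ 0) / ⇑P
    simp_rw [ModularForm.div_slash_SL2, ModularForm.SL_slash,
      SlashInvariantForm.slash_action_eqn _ _ hγ]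
  let G : ModularForm 𝒮ℒ (0 - 12) :=
    { toFun τ := 1 / P τ
      slash_action_eq' := fun _ ⟨γ, hγ⟩ ↦ hγ ▸ hs γ
      holo' := (1 : ModularForm 𝒮ℒ 0).holo'.div P.holo' hP0
      bdd_at_cusps' {c} hc := by
        rw [Subgroup.IsArithmetic.isCusp_iff_isCusp_SL2Z] at hc
        rw [OnePoint.isBoundedAt_iff_forall_SL2Z hc]
        intro γ _
        rw [hs γ, IsBoundedAtImInfty, BoundedAtFilter]
        exact (tendsto_const_nhds.div hlim one_ne_zero).isBigO_one ℝ }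
  have h0 := congrFun (ModularFormClass.levelOne_neg_weight_eq_zero (by norm_num) G) I
  exact one_div_ne_zero (hP0 I) h0

theorem jbas_volume_fd_lt_top : volume (ModularGroup.fd : Set ℍ) < ⊤ := by
  rw [volume_eq_lintegral]
  have h1 : IntegrableOn (fun q : ℝ × ℝ => (1 : ℝ) * q.2 ^ (-2 : ℝ))
      (Set.Icc (-(1 / 2) : ℝ) (1 / 2) ×ˢ Set.Ioi (1 / 2 : ℝ)) volume := by
    rw [IntegrableOn, Measure.volume_eq_prod, ← Measure.prod_restrict]
    exact Integrable.mul_prod (f := fun _ : ℝ => (1 : ℝ)) (integrable_const _)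
      (integrableOn_Ioi_rpow_of_lt (by norm_num) (by norm_num))
  have h2 := (Complex.volume_preserving_equiv_real_prod.integrableOn_comp_preimage
    Complex.measurableEquivRealProd.measurableEmbedding).2 h1
  have hs : UpperHalfPlane.coe '' ModularGroup.fd ⊆ Complex.measurableEquivRealProd ⁻¹'
      (Set.Icc (-(1 / 2) : ℝ) (1 / 2) ×ˢ Set.Ioi (1 / 2 : ℝ)) := by
    rintro _ ⟨τ, hτ, rfl⟩
    refine ⟨abs_le.1 hτ.2, ?_⟩
    have := ModularGroup.three_le_four_mul_im_sq_of_mem_fd hτ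
    have := τ.im_pos
    change 1 / 2 < τ.im
    nlinarith
  refine lt_of_le_of_lt (le_of_eq ?_) (h2.mono_set hs).2
  refine setLIntegral_congr_fun (measurableEmbedding_coe.measurableSet_image.2
    ModularGroup.isClosed_fd.measurableSet) ?_
  rintro _ ⟨τ, -, rfl⟩
  have := τ.im_pos
  simp only [Function.comp_apply, one_mul, enorm_eq_nnnorm, ENNReal.coe_inj]
  ext
  change _ = ‖τ.im ^ (-2 : ℝ)‖
  rw [Real.norm_of_nonneg (by positivity), Real.rpow_neg this.le]
  simp [abs_of_pos this]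

theorem jbas_vol_pos {U : Set ℍ} (hU : IsOpen U) (hne : U.Nonempty) : 0 < volume U := by
  rw [pos_iff_ne_zero]
  intro h
  have h1 : (volume.comap UpperHalfPlane.coe : Measure ℍ) ≪ volume := by
    refine withDensity_absolutelyContinuous' (Measurable.aemeasurable ?_)
      (Eventually.of_forall fun z => ?_)
    · have hc : Continuous fun z : ℍ => (NNReal.mk z.im z.im_pos.le : NNReal) :=
        continuous_im.subtype_mk _
      exact measurable_coe_nnreal_ennreal.comp ((measurable_const.div hc.measurable).pow_const 2)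
    · have : NNReal.mk z.im z.im_pos.le ≠ 0 := NNReal.ne_iff.mp z.im_ne_zero
      exact ENNReal.coe_ne_zero.2 (pow_ne_zero _ (one_div_ne_zero this))
  have h2 := h1 h
  rw [measurableEmbedding_coe.comap_apply] at h2
  exact ((isOpenEmbedding_coe.isOpenMap U hU).measure_pos volume (hne.image _)).ne' h2

theorem jbas_volume_fd_pos : 0 < volume (ModularGroup.fd : Set ℍ) := by
  refine (jbas_vol_pos (U := {τ : ℍ | 1 < τ.im ∧ |τ.re| < 1 / 2}) ?_ ?_).trans_le
    (measure_mono ?_)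
  · exact (isOpen_lt continuous_const continuous_im).inter
      (isOpen_lt continuous_re.abs continuous_const)
  · exact ⟨⟨2 * Complex.I, by simp⟩, by simp [UpperHalfPlane.im], by simp [UpperHalfPlane.re]⟩
  · rintro τ ⟨h1, h2⟩
    refine ⟨?_, h2.le⟩
    rw [Complex.normSq_apply]
    change 1 ≤ τ.re * τ.re + τ.im * τ.im
    nlinarith [mul_self_nonneg τ.re]

instance instProbmY : IsProbabilityMeasure mY := by
  have := ProbabilityTheory.cond_isProbabilityMeasure_of_finite jbas_volume_fd_pos.ne'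
    jbas_volume_fd_lt_top.ne
  exact Measure.isProbabilityMeasure_map continuous_jInv.measurable.aemeasurable

end Pool.Agent.EQ
end
end
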