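import Pool.Agent.K.MP_ad7a55_nt.C1
import Pool.Agent.K.MP_ad7a55_nt.C2
import Pool.Agent.P.MP_ad7a55_nt.CtA
import Pool.Agent.K.MP_ad7a55_nt.C0
import Pool.Agent.K.MP_ad7a55_nt.C4

-- part Pool.Agent.P.MP_ad7a55_nt.XFe
section

/-! Product-free sets in SL(2) over a prime field are small. -/

set_option autoImplicit false
set_option linter.unusedSectionVars false

noncomputable section

open Finset
open scoped Pointwise MatrixGroups Classical

namespace Pool.Agent.EQ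

section hilb
variable {E ι : Type} [NormedAddCommGroup E] [InnerProductSpace ℂ E]

theorem xfe_pyth (s : Finset ι) (v : ι → E)
    (h : ∀ i ∈ s, ∀ j ∈ s, i ≠ j → inner ℂ (v i) (v j) = 0) :
    ‖∑ i ∈ s, v i‖ ^ 2 = ∑ i ∈ s, ‖v i‖ ^ 2 := by
  rw [← inner_self_eq_norm_sq (𝕜 := ℂ), sum_inner, map_sum]
  refine sum_congr rfl fun i hi => ?_
  rw [inner_sum, sum_eq_single_of_mem i hi fun j hj hne => h i hi j hj hne.symm,
    inner_self_eq_norm_sq]

theorem xfe_bessel (s : Finset ι) (v : ι → E)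
    (h : ∀ i ∈ s, ∀ j ∈ s, i ≠ j → inner ℂ (v i) (v j) = 0) {n : ℝ} (hn0 : 0 ≤ n)
    (hn : ∀ i ∈ s, ‖v i‖ ^ 2 = n) (w : E) :
    ∑ i ∈ s, ‖inner ℂ w (v i)‖ ^ 2 ≤ n * ‖w‖ ^ 2 := by
  set S := ∑ i ∈ s, ‖inner ℂ w (v i)‖ ^ 2 with hS
  set z := ∑ i ∈ s, inner ℂ (v i) w • v i with hz
  have h1 : ‖z‖ ^ 2 = S * n := by
    rw [hz, xfe_pyth s _ fun i hi j hj hne => by
      rw [inner_smul_left, inner_smul_right, h i hi j hj hne, mul_zero, mul_zero], hS, sum_mul]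
    refine sum_congr rfl fun i hi => ?_
    rw [norm_smul, mul_pow, hn i hi, norm_inner_symm]
  have h2 : inner ℂ w z = (S : ℂ) := by
    rw [hz, inner_sum, hS, Complex.ofReal_sum]
    refine sum_congr rfl fun i _ => ?_
    rw [inner_smul_right, ← inner_conj_symm (v i) w, Complex.conj_mul']
    norm_cast
  have h0 : 0 ≤ S := sum_nonneg fun i _ => sq_nonneg _
  have h3 := norm_inner_le_norm (𝕜 := ℂ) w z
  rw [h2, Complex.norm_real, Real.norm_of_nonneg h0] at h3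
  have h4 := pow_le_pow_left₀ h0 h3 2
  rw [mul_pow, h1] at h4
  rcases h0.eq_or_lt with h5 | h5
  · rw [← h5]; positivity
  · exact le_of_mul_le_mul_left (by linarith) h5

end hilb

variable {q : ℕ} [Fact q.Prime]

section grp
variable {G : Type} [Group G] [Fintype G]

/-- squared norm -/
def xfeN (f : G → ℂ) : ℝ := ∑ x, ‖f x‖ ^ 2
/-- convolution with a set -/
def xfeT (A : Finset G) (f : G → ℂ) : G → ℂ := fun x => ∑ a ∈ A, f (a⁻¹ * x)
/-- Fourier component along a one parameter subgroup -/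
def xfeC (u : ZMod q → G) (a : ZMod q) (f : G → ℂ) : G → ℂ :=
  fun x => (q : ℂ)⁻¹ * ∑ t, ZMod.stdAddChar (-(a * t)) * f (x * u t)
/-- eigenfunctions -/
def xfeCh (u : ZMod q → G) (a : ZMod q) (f : G → ℂ) : Prop :=
  ∀ x t, f (x * u t) = ZMod.stdAddChar (a * t) * f x

theorem xfe_N (f : G → ℂ) : ‖(WithLp.toLp 2 f : EuclideanSpace ℂ G)‖ ^ 2 = xfeN f :=
  EuclideanSpace.norm_sq_eq _

theorem xfe_N0 (f : G → ℂ) : 0 ≤ xfeN f := sum_nonneg fun _ _ => sq_nonneg _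

theorem xfe_Nz {f : G → ℂ} (h : xfeN f ≤ 0) (x : G) : f x = 0 := by
  have := (sum_eq_zero_iff_of_nonneg fun x _ => sq_nonneg ‖f x‖).1 (h.antisymm (xfe_N0 f)) x
    (mem_univ x)
  simpa using this

theorem xfe_Nr (f : G → ℂ) (d : G) : xfeN (fun x => f (x * d)) = xfeN f :=
  Equiv.sum_comp (Equiv.mulRight d) fun x => ‖f x‖ ^ 2

variable {u : ZMod q → G}

theorem xfe_ch (hu : ∀ s t, u (s + t) = u s * u t) (a : ZMod q) (f : G → ℂ) :
    xfeCh u a (xfeC u a f) := by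
  intro x s
  unfold xfeC
  rw [mul_left_comm, mul_sum univ _ (ZMod.stdAddChar (a * s)), ← Equiv.sum_comp (Equiv.addLeft s)
    fun t => ZMod.stdAddChar (a * s) * (ZMod.stdAddChar (-(a * t)) * f (x * u t))]
  refine congrArg _ (sum_congr rfl fun t _ => ?_)
  rw [Equiv.coe_addLeft, hu, ← mul_assoc (ZMod.stdAddChar (a * s)), ← AddChar.map_add_eq_mul,
    mul_assoc x]
  congr 2
  ring

theorem xfe_sum (hu : ∀ s t, u (s + t) = u s * u t) (f : G → ℂ) (x : G) :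
    ∑ a, xfeC u a f x = f x := by
  have h0 : u 0 = 1 := by
    have := hu 0 0
    rw [add_zero] at this
    exact left_eq_mul.1 this
  have hq : (q : ℂ) ≠ 0 := Nat.cast_ne_zero.2 (Fact.out : q.Prime).ne_zero
  unfold xfeC
  rw [← mul_sum, sum_comm]
  simp only [← sum_mul, ← mul_neg, AddChar.sum_mulShift _ (ZMod.isPrimitive_stdAddChar q)]
  rw [sum_eq_single 0 (fun t _ ht => by simp [ht]) (by simp)]
  simp [h0, hq]

theorem xfe_orth {a b : ZMod q} {f g : G → ℂ} (hf : xfeCh u a f) (hg : xfeCh u b g) (h : a ≠ b) :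
    inner ℂ (WithLp.toLp 2 f : EuclideanSpace ℂ G) (WithLp.toLp 2 g) = 0 := by
  rw [PiLp.inner_apply]
  have e := Equiv.sum_comp (Equiv.mulRight (u 1)) fun x => inner ℂ (f x) (g x)
  have e2 : ∀ x, inner ℂ (f (x * u 1)) (g (x * u 1)) =
      ZMod.stdAddChar (b - a) * inner ℂ (f x) (g x) := fun x => by
    rw [hf, hg, mul_one, mul_one, RCLike.inner_apply, RCLike.inner_apply, map_mul,
      ← AddChar.map_neg_eq_conj, sub_eq_add_neg, AddChar.map_add_eq_mul]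
    ring
  simp only [Equiv.coe_mulRight, e2, ← mul_sum] at e
  by_contra hn
  have := ZMod.injective_stdAddChar
    (((mul_eq_right₀ hn).1 e).trans (ZMod.stdAddChar (N := q)).map_zero_eq_one.symm)
  exact h (by linear_combination -this)

theorem xfe_pars (hu : ∀ s t, u (s + t) = u s * u t) (f : G → ℂ) :
    xfeN f = ∑ a, xfeN (xfeC u a f) := by
  have := xfe_pyth univ (fun a => (WithLp.toLp 2 (xfeC u a f) : EuclideanSpace ℂ G))
    fun a _ b _ h => xfe_orth (xfe_ch hu a f) (xfe_ch hu b f) h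
  simp only [xfe_N] at this
  rw [← this, ← xfe_N]
  congr 2
  ext x
  simp [xfe_sum hu]

theorem xfe_comm (A : Finset G) (a : ZMod q) (f : G → ℂ) :
    xfeC u a (xfeT A f) = xfeT A (xfeC u a f) := by
  funext x
  simp only [xfeC, xfeT, mul_sum, mul_assoc]
  exact sum_comm

theorem xfe_sq (hq : 5 < q) :
    (q : ℝ) - 1 ≤ 2 * #((univ.erase (0 : ZMod q)).image fun s => s ^ 2) := by
  have := card_le_mul_card_image (f := fun s : ZMod q => s ^ 2) (univ.erase 0) 2 fun b hb => by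
    obtain ⟨s, -, rfl⟩ := mem_image.1 hb
    refine (card_le_card (t := {s, -s}) fun t ht => ?_).trans card_le_two
    simpa using sq_eq_sq_iff_eq_or_eq_neg.1 (mem_filter.1 ht).2
  rw [card_erase_of_mem (mem_univ _), card_univ, ZMod.card] at this
  have h2 : q ≤ 2 * #((univ.erase (0 : ZMod q)).image fun s => s ^ 2) + 1 := by omega
  have h3 : (q : ℝ) ≤ 2 * #((univ.erase (0 : ZMod q)).image fun s => s ^ 2) + 1 := by
    exact_mod_cast h2
  linarith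

theorem xfe_key (hq : 5 < q) (hd : ∀ s : ZMod q, s ≠ 0 → ∃ d, ∀ t, u t * d = d * u (s ^ 2 * t))
    (A : Finset G) {a : ZMod q} (ha : a ≠ 0) {f : G → ℂ} (hf : xfeCh u a f) :
    ((q : ℝ) - 1) / 2 * xfeN (xfeT A f) ≤ Fintype.card G * #A * xfeN f := by
  have h1 := xfe_sq hq
  set Q := (univ.erase (0 : ZMod q)).image fun s => s ^ 2 with hQ
  have : ∀ c : ZMod q, ∃ d : G, c ∈ Q → ∀ t, u t * d = d * u (c * t) := fun c => by
    by_cases hc : c ∈ Q
    · obtain ⟨s, hs, rfl⟩ := mem_image.1 hc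
      obtain ⟨d, h⟩ := hd s (ne_of_mem_erase hs)
      exact ⟨d, fun _ => h⟩
    · exact ⟨1, fun h => absurd h hc⟩
  choose d hd' using this
  have hc : ∀ c ∈ Q, xfeCh u (a * c) fun x => f (x * d c) := fun c hc x t => by
    show f (x * u t * d c) = _
    rw [mul_assoc, hd' c hc, ← mul_assoc, hf, mul_assoc a]
  have hb : ∀ x, ∑ c ∈ Q, ‖xfeT A f (x * d c)‖ ^ 2 ≤ xfeN f * #A := fun x => by
    have := xfe_bessel Q (fun c => (WithLp.toLp 2 fun y => f (y * d c) : EuclideanSpace ℂ G))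
      (fun c h c' h' hne => xfe_orth (hc c h) (hc c' h') fun e => hne (mul_left_cancel₀ ha e))
      (xfe_N0 f) (fun c _ => by rw [xfe_N, xfe_Nr])
      (WithLp.toLp 2 fun y => if x * y⁻¹ ∈ A then 1 else 0)
    have re : ∀ {M : Type} [AddCommMonoid M] (F : G → M),
        ∑ y, (if x * y⁻¹ ∈ A then F y else 0) = ∑ b ∈ A, F (b⁻¹ * x) := fun F => by
      rw [← Equiv.sum_comp ((Equiv.inv G).trans (Equiv.mulRight x))]
      simp
    have e : xfeN (fun y => if x * y⁻¹ ∈ A then (1 : ℂ) else 0) = #A := by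
      simp only [xfeN, apply_ite (fun z : ℂ => ‖z‖ ^ 2), norm_one, one_pow, norm_zero,
        zero_pow two_ne_zero, re, sum_const, nsmul_eq_mul, mul_one]
    rw [xfe_N, e] at this
    simp only [PiLp.inner_apply, RCLike.inner_apply, apply_ite (starRingEnd ℂ), map_one, map_zero,
      mul_ite, mul_one, mul_zero, re] at this
    simpa only [xfeT, mul_assoc] using this
  have h2 := sum_le_sum fun x (_ : x ∈ univ) => hb x
  have e3 : ∀ c, ∑ x, ‖xfeT A f (x * d c)‖ ^ 2 = xfeN (xfeT A f) := fun c => xfe_Nr _ (d c)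
  rw [sum_comm] at h2
  simp only [e3, sum_const, nsmul_eq_mul, card_univ] at h2
  have h3 := mul_le_mul_of_nonneg_right h1 (xfe_N0 (xfeT A f))
  linarith

theorem xfe_step (hq : 5 < q) (hu : ∀ s t, u (s + t) = u s * u t)
    (hd : ∀ s : ZMod q, s ≠ 0 → ∃ d, ∀ t, u t * d = d * u (s ^ 2 * t)) (A : Finset G) {M : ℝ}
    (hM0 : 0 < M) (hM : ∀ g : G → ℂ, ∑ x, g x = 0 →
      ((q : ℝ) - 1) / 2 * xfeN (xfeT A g) - Fintype.card G * #A * xfeN g ≤ M * xfeN g)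
    {f : G → ℂ} (hf : ∑ x, f x = 0) (h : M * xfeN f ≤
      ((q : ℝ) - 1) / 2 * xfeN (xfeT A f) - Fintype.card G * #A * xfeN f) (x : G) (t : ZMod q) :
    f (x * u t) = f x := by
  have h0 : ∑ x, xfeC u 0 f x = 0 := by
    unfold xfeC
    rw [← mul_sum, sum_comm]
    simp only [← mul_sum]
    rw [sum_eq_zero fun t _ => ?_, mul_zero]
    rw [show ∑ x, f (x * u t) = ∑ x, f x from Equiv.sum_comp (Equiv.mulRight (u t)) f, hf, mul_zero]
  have h1 := hM _ h0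
  have h2 := sum_le_sum fun a (ha : a ∈ univ.erase (0 : ZMod q)) =>
    xfe_key hq hd A (ne_of_mem_erase ha) (xfe_ch hu a f)
  rw [← mul_sum, ← mul_sum] at h2
  rw [xfe_pars hu f, xfe_pars hu (xfeT A f), ← add_sum_erase _ _ (mem_univ 0),
    ← add_sum_erase _ _ (mem_univ 0)] at h
  simp only [xfe_comm] at h
  have h3 : ∑ a ∈ univ.erase (0 : ZMod q), xfeN (xfeC u a f) ≤ 0 :=
    le_of_mul_le_mul_left (by linarith) hM0
  have h4 : ∀ y, f y = xfeC u 0 f y := fun y => by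
    rw [← xfe_sum hu f y, ← add_sum_erase _ _ (mem_univ 0), sum_eq_zero fun a ha => ?_, add_zero]
    exact xfe_Nz ((single_le_sum (fun a _ => xfe_N0 (xfeC u a f)) ha).trans h3) y
  rw [h4, xfe_ch hu, ← h4, zero_mul, AddChar.map_zero_eq_one, one_mul]

theorem xfe_smul (c : ℝ) (f : G → ℂ) : xfeN (fun x => c * f x) = c ^ 2 * xfeN f := by
  simp [xfeN, mul_sum, mul_pow]

theorem xfe_max (A : Finset G) (m C : ℝ) {f : G → ℂ} (hf : ∑ x, f x = 0)
    (h : C * xfeN f < m * xfeN (xfeT A f)) : ∃ (M : ℝ) (f0 : G → ℂ), 0 < M ∧ ∑ x, f0 x = 0 ∧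
      xfeN f0 = 1 ∧ M = m * xfeN (xfeT A f0) - C * xfeN f0 ∧
      ∀ g : G → ℂ, ∑ x, g x = 0 → m * xfeN (xfeT A g) - C * xfeN g ≤ M * xfeN g := by
  have hN : Continuous (xfeN : (G → ℂ) → ℝ) := by unfold xfeN; fun_prop
  have hΦ : Continuous fun g : G → ℂ => m * xfeN (xfeT A g) - C * xfeN g := by
    unfold xfeN xfeT; fun_prop
  have hK : IsCompact {g : G → ℂ | ∑ x, g x = 0 ∧ xfeN g = 1} := by
    refine Metric.isCompact_of_isClosed_isBounded
      ((isClosed_eq (by fun_prop) continuous_const).inter (isClosed_eq hN continuous_const))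
      (isBounded_iff_forall_norm_le.2 ⟨1, fun g hg => ?_⟩)
    refine (pi_norm_le_iff_of_nonneg zero_le_one).2 fun x => ?_
    have := (single_le_sum (fun x _ => sq_nonneg ‖g x‖) (mem_univ x)).trans_eq hg.2
    exact (sq_le_one_iff₀ (norm_nonneg _)).1 this
  have z : ∀ g : G → ℂ, xfeN g ≤ 0 → xfeN (xfeT A g) = 0 := fun g hg => by
    simp [xfeN, xfeT, xfe_Nz hg]
  have sc : ∀ g : G → ℂ, ∑ x, g x = 0 → 0 < xfeN g → ∃ g' ∈ {g : G → ℂ | ∑ x, g x = 0 ∧ xfeN g = 1},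
      (m * xfeN (xfeT A g') - C * xfeN g') * xfeN g = m * xfeN (xfeT A g) - C * xfeN g := by
    intro g hg hp
    have e : (√(xfeN g))⁻¹ ^ 2 * xfeN g = 1 := by
      rw [inv_pow, Real.sq_sqrt hp.le, inv_mul_cancel₀ hp.ne']
    refine ⟨fun x => ((√(xfeN g))⁻¹ : ℝ) * g x, ⟨by rw [← mul_sum, hg, mul_zero],
      (xfe_smul _ g).trans e⟩, ?_⟩
    rw [show xfeT A (fun x => ((√(xfeN g))⁻¹ : ℝ) * g x) =
      fun x => ((√(xfeN g))⁻¹ : ℝ) * xfeT A g x from funext fun x => by simp [xfeT, mul_sum],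
      xfe_smul, xfe_smul]
    linear_combination (m * xfeN (xfeT A g) - C * xfeN g) * e
  have hp : 0 < xfeN f := lt_of_not_ge fun k => by
    rw [z f k, k.antisymm (xfe_N0 f)] at h
    simp at h
  obtain ⟨f', hf', e'⟩ := sc f hf hp
  obtain ⟨f0, h0, hm⟩ := hK.exists_isMaxOn ⟨f', hf'⟩ hΦ.continuousOn
  refine ⟨_, f0, ?_, h0.1, h0.2, rfl, fun g hg => ?_⟩
  · refine lt_of_lt_of_le (pos_of_mul_pos_left (b := xfeN f) ?_ hp.le) (hm hf')
    linarith
  · rcases (xfe_N0 g).eq_or_lt with k | k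
    · rw [z g k.ge, ← k]
      simp
    · obtain ⟨g', hg', e⟩ := sc g hg k
      rw [← e]
      exact mul_le_mul_of_nonneg_right (hm hg') k.le

end grp

theorem gowers_mix (hq : 5 < q) (A : Finset (GQ q)) (f : GQ q → ℂ) (hf : ∑ x, f x = 0) :
    ((q : ℝ) - 1) / 2 * ∑ x, ‖∑ a ∈ A, f (a⁻¹ * x)‖ ^ 2 ≤
      Fintype.card (GQ q) * #A * ∑ x, ‖f x‖ ^ 2 := by
  by_contra hn
  obtain ⟨M, f0, hM0, h0, h1, e, hM⟩ := xfe_max A _ _ hf (not_le.1 hn)
  have hU := xfe_step hq uU_add (fun s hs => ⟨⟨!![s⁻¹, 0; 0, s], by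
    simp [Matrix.det_fin_two, hs]⟩, fun t => by
      ext i j
      fin_cases i <;> fin_cases j <;> simp [uU, Matrix.mul_apply, Fin.sum_univ_two]
      field_simp⟩) A hM0 hM h0 (by rw [h1, mul_one, e, h1])
  have hL := xfe_step hq uL_add (fun s hs => ⟨⟨!![s, 0; 0, s⁻¹], by
    simp [Matrix.det_fin_two, hs]⟩, fun t => by
      ext i j
      fin_cases i <;> fin_cases j <;> simp [uL, Matrix.mul_apply, Fin.sum_univ_two]
      field_simp⟩) A hM0 hM h0 (by rw [h1, mul_one, e, h1])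
  have hc : ∀ σ, f0 σ = f0 1 := fun σ => by
    obtain ⟨a, b, c, d, rfl⟩ := gen_four σ
    rw [hL, hU, hL, ← one_mul (uU a), hU]
  rw [sum_congr rfl fun x _ => hc x, sum_const, card_univ, nsmul_eq_mul,
    mul_eq_zero_iff_left (Nat.cast_ne_zero.2 Fintype.card_ne_zero)] at h0
  simp [xfeN, hc, h0] at h1

theorem gowers (hq : 5 < q) (T : Finset (GQ q)) (h : 3 * (q : ℝ) ^ 8 < (#T : ℝ) ^ 3) (g : GQ q) :
    ∃ a ∈ T, ∃ b ∈ T, ∃ c ∈ T, a * b * c = g := by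
  by_contra hn
  have hG : (0 : ℝ) < Fintype.card (GQ q) := Nat.cast_pos.2 Fintype.card_pos
  have hG3 : (Fintype.card (GQ q) : ℝ) ≤ q ^ 3 := by exact_mod_cast card_GQ
  have hq' : (5 : ℝ) < q := by exact_mod_cast hq
  set N : ℝ := (Fintype.card (GQ q) : ℝ) with hN
  set t : ℝ := (#T : ℝ) with ht
  have ht0 : 0 < t := lt_of_le_of_ne (Nat.cast_nonneg _) fun e => by
    rw [← e, zero_pow three_ne_zero] at h
    exact absurd h (not_lt.2 (by positivity))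
  set μ := t / N with hμ
  have hμN : μ * N = t := div_mul_cancel₀ _ hG.ne'
  let r : GQ q → ℝ := fun x => (if x ∈ T then 1 else 0) - μ
  have r1 : ∑ x, r x = 0 := by
    simp only [r, sum_sub_distrib, sum_ite_mem, univ_inter, sum_const, nsmul_eq_mul, card_univ]
    linarith
  have r2 : ∑ x, r x ^ 2 ≤ t := by
    have : ∀ x, r x ^ 2 = (if x ∈ T then 1 - 2 * μ else 0) + μ ^ 2 := fun x => by
      simp only [r]
      split_ifs <;> ring
    simp only [this, sum_add_distrib, sum_ite_mem, univ_inter, sum_const, nsmul_eq_mul, card_univ]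
    have : 0 ≤ μ := by positivity
    nlinarith
  have key := gowers_mix hq T (fun x => r x) (by exact_mod_cast r1)
  simp only [← Complex.ofReal_sum, Complex.norm_real, Real.norm_eq_abs, sq_abs] at key
  have r3 : t * (t * μ) ^ 2 ≤ ∑ x, (∑ a ∈ T, r (a⁻¹ * x)) ^ 2 := by
    rw [← Equiv.sum_comp ((Equiv.inv _).trans (Equiv.mulLeft g))]
    refine le_trans (le_of_eq ?_) (sum_le_sum_of_subset_of_nonneg (subset_univ T)
      fun _ _ _ => sq_nonneg _)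
    rw [sum_congr rfl (g := fun _ => (t * μ) ^ 2) fun c hc => ?_, sum_const, nsmul_eq_mul]
    rw [sum_congr rfl (g := fun _ => -μ) fun a ha => ?_, sum_const, nsmul_eq_mul]
    · ring
    · simp only [r]
      rw [if_neg fun hb => hn ⟨a, ha, _, hb, c, hc, by simp⟩, zero_sub]
  have k1 := (mul_le_mul_of_nonneg_left r3 (show 0 ≤ ((q : ℝ) - 1) / 2 by linarith)).trans
    (key.trans (mul_le_mul_of_nonneg_left r2 (by positivity)))
  have k2 : ((q : ℝ) - 1) / 2 * t ^ 3 ≤ N ^ 3 := by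
    refine le_of_mul_le_mul_left ?_ (pow_pos ht0 2)
    have := mul_le_mul_of_nonneg_left k1 (sq_nonneg N)
    calc _ = N ^ 2 * (((q : ℝ) - 1) / 2 * (t * (t * μ) ^ 2)) := by
          rw [show N ^ 2 * (((q : ℝ) - 1) / 2 * (t * (t * μ) ^ 2)) =
            ((q : ℝ) - 1) / 2 * t ^ 3 * (μ * N) ^ 2 by ring, hμN]
          ring
      _ ≤ _ := this
      _ = _ := by ring
  have k3 := pow_le_pow_left₀ hG.le hG3 3
  have k4 := mul_lt_mul_of_pos_left h (show 0 < ((q : ℝ) - 1) / 2 by linarith)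
  have k5 : 0 < (q : ℝ) ^ 8 := by positivity
  nlinarith

end Pool.Agent.EQ
end
end

-- part Pool.Agent.P.MP_ad7a55_nt.XFg
section

/-! Graphs of automorphisms of PSL(2) over a prime field. -/

set_option autoImplicit false

noncomputable section

open Finset
open scoped Pointwise MatrixGroups Classical

namespace Pool.Agent.EQ

variable {q : ℕ} [Fact q.Prime]

/-- `h = ± X g X⁻¹`. -/
def Cj (X : MQ q) (g h : GQ q) : Prop :=
  (h : MQ q) * X = X * (g : MQ q) ∨ (h : MQ q) * X = -(X * (g : MQ q))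

theorem xfg_tr {n : MQ q} (h : IsNilpotent n) : n 1 1 = -n 0 0 := by
  have h1 := (Matrix.isNilpotent_trace_of_isNilpotent h).eq_zero
  rw [Matrix.trace_fin_two] at h1
  linear_combination h1

theorem xfg_det {n : MQ q} (h : IsNilpotent n) : n 0 0 * n 1 1 - n 0 1 * n 1 0 = 0 := by
  obtain ⟨k, hk⟩ := h
  have h1 : n.det ^ k = 0 := by rw [← Matrix.det_pow, hk, Matrix.det_zero]
  rw [← Matrix.det_fin_two]
  exact pow_eq_zero_iff'.1 h1 |>.1

theorem xfg_nil {x : GQ q} (h : x ^ q = 1) : IsNilpotent ((x : MQ q) - 1) := by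
  refine ⟨q, ?_⟩
  rw [sub_pow_char_of_commute _ (Commute.one_right _), one_pow, ← Matrix.SpecialLinearGroup.coe_pow,
    h, Matrix.SpecialLinearGroup.coe_one, sub_self]

theorem xfg_form {x : GQ q} (h : x ^ q = 1) :
    ∃ p r s : ZMod q, p ^ 2 + r * s = 0 ∧ (x : MQ q) = !![1 + p, r; s, 1 - p] := by
  have h1 := xfg_tr (xfg_nil h)
  have h2 := xfg_det (xfg_nil h)
  simp only [Matrix.sub_apply, Matrix.one_apply_eq, ne_eq, zero_ne_one, one_ne_zero,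
    not_false_eq_true, Matrix.one_apply_ne, sub_zero] at h1 h2
  refine ⟨x 0 0 - 1, x 0 1, x 1 0, by linear_combination -h2 + (x 0 0 - 1) * h1, ?_⟩
  ext i j
  fin_cases i <;> fin_cases j <;> simp
  linear_combination h1

theorem xfg_two (hq : 5 < q) : (2 : ZMod q) ≠ 0 := by
  intro h
  have h1 : ((2 : ℕ) : ZMod q) = 0 := by exact_mod_cast h
  rw [ZMod.natCast_eq_zero_iff] at h1
  have := Nat.le_of_dvd two_pos h1
  omega

theorem unip_of_pow (hq : 5 < q) {x : GQ q} (h : x ^ q = 1) :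
    ((x : MQ q) - 1) * ((x : MQ q) - 1) = 0 := by
  obtain ⟨p, r, s, h1, h2⟩ := xfg_form h
  rw [h2]
  ext i j
  fin_cases i <;> fin_cases j <;> simp [Matrix.mul_apply, Fin.sum_univ_two, Matrix.one_apply]
  · linear_combination h1
  · ring
  · ring
  · linear_combination h1

theorem braid_pair (hq : 5 < q) {x z : GQ q} (hx : x ^ q = 1) (hz : z ^ q = 1) (hx1 : x ≠ 1)
    (hxz : x ≠ z) (h : x * z * x = z * x * z ∨ x * z * x = -(z * x * z)) :
    ∃ X : MQ q, X.det ≠ 0 ∧ (x : MQ q) * X = X * (uU 1 : GQ q) ∧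
      (z : MQ q) * X = X * (uL (-1) : GQ q) := by
  obtain ⟨p, r, s, h1, h2⟩ := xfg_form hx
  obtain ⟨p', r', s', h1', h2'⟩ := xfg_form hz
  have two := xfg_two hq
  have ht : 2 * p * p' + r * s' + s * r' + 1 = 0 := by
    by_contra ht
    rcases h with h | h
    · have e := congrArg (fun g : GQ q => (g : MQ q)) h
      simp only [Matrix.SpecialLinearGroup.coe_mul, h2, h2', Matrix.mul_fin_two] at e
      have e00 := congrFun (congrFun e 0) 0
      have e01 := congrFun (congrFun e 0) 1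
      have e10 := congrFun (congrFun e 1) 0
      simp only [Matrix.of_apply, Matrix.cons_val', Matrix.cons_val_zero, Matrix.cons_val_one,
        Matrix.cons_val_fin_one] at e00 e01 e10
      have a1 : p = p' := mul_left_cancel₀ ht (by
        linear_combination e00 - (1 - p') * h1 + (1 - p) * h1')
      have a2 : r = r' := mul_left_cancel₀ ht (by linear_combination e01 + r' * h1 - r * h1')
      have a3 : s = s' := mul_left_cancel₀ ht (by linear_combination e10 + s' * h1 - s * h1')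
      exact hxz (Subtype.ext (by rw [h2, h2', a1, a2, a3]))
    · have e := congrArg (fun g : GQ q => (g : MQ q)) h
      simp only [Matrix.SpecialLinearGroup.coe_mul, Matrix.SpecialLinearGroup.coe_neg, h2, h2',
        Matrix.mul_fin_two] at e
      have e00 := congrFun (congrFun e 0) 0
      have e11 := congrFun (congrFun e 1) 1
      simp only [Matrix.neg_apply, Matrix.of_apply, Matrix.cons_val', Matrix.cons_val_zero,
        Matrix.cons_val_one, Matrix.cons_val_fin_one] at e00 e11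
      refine ht (mul_left_cancel₀ (mul_ne_zero two two) ?_)
      linear_combination e00 + e11 - 2 * h1 - 2 * h1'
  have key : ∀ w0 w1 : ZMod q, p' * w0 + r' * w1 = 0 → s' * w0 - p' * w1 = 0 →
      2 * p * w0 * w1 + r * w1 ^ 2 - s * w0 ^ 2 ≠ 0 →
      ∃ X : MQ q, X.det ≠ 0 ∧ (x : MQ q) * X = X * (uU 1 : GQ q) ∧
        (z : MQ q) * X = X * (uL (-1) : GQ q) := fun w0 w1 a1 a2 a3 => by
    refine ⟨!![p * w0 + r * w1, w0; s * w0 - p * w1, w1], ?_, ?_, ?_⟩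
    · rw [Matrix.det_fin_two_of]
      intro h0
      exact a3 (by linear_combination h0)
    · rw [h2, uU, Matrix.mul_fin_two, Matrix.mul_fin_two]
      ext i j
      fin_cases i <;> fin_cases j <;> simp
      · linear_combination w0 * h1
      · ring
      · linear_combination w1 * h1
      · ring
    · rw [h2', uL, Matrix.mul_fin_two, Matrix.mul_fin_two]
      ext i j
      fin_cases i <;> fin_cases j <;> simp
      · linear_combination w0 * ht - p * a1 - r * a2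
      · linear_combination a1
      · linear_combination w1 * ht - s * a1 + p * a2
      · linear_combination a2
  by_cases hs : s' = 0
  · refine key r' (-p') (by ring) (by linear_combination h1') fun h0 => ?_
    have hr : r' = 0 := by linear_combination h0 + r' * ht - r * h1'
    have hp : p' = 0 := pow_eq_zero_iff two_ne_zero |>.1 (by linear_combination h1' - r' * hs)
    exact one_ne_zero (α := ZMod q) (by linear_combination ht - 2 * p * hp - r * hs - s * hr)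
  · refine key p' s' (by linear_combination h1') (by ring) fun h0 => hs ?_
    linear_combination -h0 + s' * ht - s * h1'

theorem xfg_U0 : (uU 0 : GQ q) = 1 := Subtype.ext (by simp [uU, Matrix.one_fin_two])

theorem xfg_U (k : ℕ) : (uU 1 : GQ q) ^ k = uU (k : ZMod q) := by
  induction k with
  | zero => rw [pow_zero, Nat.cast_zero, xfg_U0]
  | succ k ih => rw [pow_succ, ih, ← uU_add, Nat.cast_succ]

theorem xfg_L0 : (uL 0 : GQ q) = 1 := Subtype.ext (by simp [uL, Matrix.one_fin_two])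

theorem xfg_L (k : ℕ) : (uL (-1) : GQ q) ^ k = uL (-(k : ZMod q)) := by
  induction k with
  | zero => rw [pow_zero, Nat.cast_zero, neg_zero, xfg_L0]
  | succ k ih => rw [pow_succ, ih, ← uL_add, Nat.cast_succ, neg_add]

theorem xfg_rel : (uU 1 * uL (-1) * uU 1 : GQ q) = uL (-1) * uU 1 * uL (-1) :=
  Subtype.ext (by
    show (!![1, 1; 0, 1] * !![1, 0; -1, 1] * !![1, 1; 0, 1] : MQ q) =
      !![1, 0; -1, 1] * !![1, 1; 0, 1] * !![1, 0; -1, 1]
    simp)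

theorem xfg_ne : (uU 1 * (uL (-1))⁻¹ : GQ q) ≠ 1 ∧ (uU 1 * (uL (-1))⁻¹ : GQ q) ≠ -1 := by
  refine ⟨fun e => ?_, fun e => ?_⟩
  · have e' := congrArg (fun g : GQ q => (g : MQ q) 0 1) (mul_inv_eq_one.1 e)
    simp [uU, uL] at e'
  · have e1 : (uU 1 : GQ q) = -uL (-1) := by rw [mul_inv_eq_iff_eq_mul.1 e, neg_one_mul]
    have e' := congrArg (fun g : GQ q => (g : MQ q) 0 1) e1
    simp only [Matrix.SpecialLinearGroup.coe_neg, Matrix.neg_apply] at e'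
    simp [uU, uL] at e'

theorem xfg_uniq {Γ : Subgroup (GQ q × GQ q)} (h2 : ∀ h, (1, h) ∈ Γ → h = 1 ∨ h = -1)
    {g h h' : GQ q} (a : (g, h) ∈ Γ) (b : (g, h') ∈ Γ) : h = h' ∨ h = -h' := by
  have c := Γ.mul_mem a (Γ.inv_mem b)
  rw [Prod.inv_mk, Prod.mk_mul_mk, mul_inv_cancel] at c
  rcases h2 _ c with e | e
  · exact Or.inl (mul_inv_eq_one.1 e)
  · exact Or.inr (by rw [mul_inv_eq_iff_eq_mul.1 e, neg_one_mul])

theorem xfg_top (hq : 5 < q) {Γ : Subgroup (GQ q × GQ q)} (h1 : ∀ g, ∃ h, (g, h) ∈ Γ)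
    (h2 : ∀ h, (1, h) ∈ Γ → h = 1 ∨ h = -1) {g : GQ q} (hg : (g, 1) ∈ Γ) (a : g ≠ 1) (b : g ≠ -1) :
    ∀ p ∈ Γ, p.2 = 1 ∨ p.2 = -1 := by
  intro p hp
  have hm : ∀ n : GQ q, n ∈ Γ.comap (MonoidHom.inl (GQ q) (GQ q)) ↔ (n, 1) ∈ Γ := fun n => by
    rw [Subgroup.mem_comap, MonoidHom.inl_apply]
  have hN : (Γ.comap (MonoidHom.inl (GQ q) (GQ q))).Normal := ⟨fun n hn k => by
    obtain ⟨h, hh⟩ := h1 k
    have c := Γ.mul_mem (Γ.mul_mem hh ((hm n).1 hn)) (Γ.inv_mem hh)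
    rw [Prod.inv_mk, Prod.mk_mul_mk, Prod.mk_mul_mk, mul_one, mul_inv_cancel] at c
    exact (hm _).2 c⟩
  have e := normal_top hq _ hN ((hm g).2 hg) a b
  have c : p.1 ∈ Γ.comap (MonoidHom.inl (GQ q) (GQ q)) := by
    rw [e]
    exact Subgroup.mem_top _
  exact xfg_uniq h2 (show (p.1, p.2) ∈ Γ from hp) ((hm _).1 c)

theorem xfg_inv {X : MQ q} {g h : GQ q} (b : (h : MQ q) * X = X * (g : MQ q)) :
    ((h⁻¹ : GQ q) : MQ q) * X = X * ((g⁻¹ : GQ q) : MQ q) := by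
  have i1 := congrArg (fun k : GQ q => (k : MQ q)) (inv_mul_cancel h)
  have i2 := congrArg (fun k : GQ q => (k : MQ q)) (mul_inv_cancel g)
  simp only [Matrix.SpecialLinearGroup.coe_mul, Matrix.SpecialLinearGroup.coe_one] at i1 i2
  generalize ((h⁻¹ : GQ q) : MQ q) = A at i1 ⊢
  generalize ((g⁻¹ : GQ q) : MQ q) = B at i2 ⊢
  calc A * X = A * (X * g) * B := by rw [mul_assoc, mul_assoc, i2, mul_one]
    _ = X * B := by rw [← b, ← mul_assoc, i1, one_mul]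

/-- the elements with a partner that is conjugate by `X` -/
def xfgH (Γ : Subgroup (GQ q × GQ q)) (X : MQ q) : Subgroup (GQ q) where
  carrier := {g | ∃ h, (g, h) ∈ Γ ∧ (h : MQ q) * X = X * (g : MQ q)}
  one_mem' := ⟨1, Γ.one_mem, by simp⟩
  mul_mem' := by
    rintro g g' ⟨h, a, b⟩ ⟨h', a', b'⟩
    refine ⟨h * h', Γ.mul_mem a a', ?_⟩
    rw [Matrix.SpecialLinearGroup.coe_mul, Matrix.SpecialLinearGroup.coe_mul, mul_assoc, b',
      ← mul_assoc, b, mul_assoc]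
  inv_mem' := by
    intro g hg
    simp only [Set.mem_ofPred_eq] at hg ⊢
    obtain ⟨h, a, b⟩ := hg
    have c := Γ.inv_mem a
    rw [Prod.inv_mk] at c
    exact ⟨h⁻¹, c, xfg_inv b⟩

theorem xfg_braid (hq : 5 < q) (Γ : Subgroup (GQ q × GQ q)) (h1 : ∀ g, ∃ h, (g, h) ∈ Γ)
    (h2 : ∀ h, (1, h) ∈ Γ → h = 1 ∨ h = -1) (h3 : ∀ g h, (g, h) ∈ Γ → (g, -h) ∈ Γ) :
    (∀ p ∈ Γ, p.2 = 1 ∨ p.2 = -1) ∨ ∃ X : MQ q, X.det ≠ 0 ∧ ∀ p ∈ Γ, Cj X p.1 p.2 := by
  have hodd : Odd q := (Fact.out : q.Prime).odd_of_ne_two (by omega)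
  have lift : ∀ g : GQ q, g ^ q = 1 → ∃ x, (g, x) ∈ Γ ∧ x ^ q = 1 := fun g hg => by
    obtain ⟨h, hh⟩ := h1 g
    have c := Γ.pow_mem hh q
    rw [Prod.pow_mk, hg] at c
    rcases h2 _ c with e | e
    · exact ⟨h, hh, e⟩
    · exact ⟨-h, h3 _ _ hh, by rw [hodd.neg_pow, e, neg_neg]⟩
  obtain ⟨x, hx, hxq⟩ := lift (uU 1) (by rw [xfg_U, ZMod.natCast_self, xfg_U0])
  obtain ⟨z, hz, hzq⟩ := lift (uL (-1)) (by rw [xfg_L, ZMod.natCast_self, neg_zero, xfg_L0])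
  by_cases hx1 : x = 1
  · rw [hx1] at hx
    exact Or.inl (xfg_top hq h1 h2 hx (uU_ne hq).1 (uU_ne hq).2)
  by_cases hxz : x = z
  · have c := Γ.mul_mem hx (Γ.inv_mem hz)
    rw [Prod.inv_mk, Prod.mk_mul_mk, hxz, mul_inv_cancel] at c
    exact Or.inl (xfg_top hq h1 h2 c xfg_ne.1 xfg_ne.2)
  have c1 := Γ.mul_mem (Γ.mul_mem hx hz) hx
  have c2 := Γ.mul_mem (Γ.mul_mem hz hx) hz
  simp only [Prod.mk_mul_mk] at c1 c2
  rw [xfg_rel] at c1
  obtain ⟨X, hX, e1, e2⟩ := braid_pair hq hxq hzq hx1 hxz (xfg_uniq h2 c1 c2)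
  have hH : xfgH Γ X = ⊤ := closure_uUL _ ⟨x, hx, e1⟩ (by
    have : (uL 1 : GQ q) = (uL (-1))⁻¹ :=
      eq_inv_of_mul_eq_one_left (by rw [← uL_add, add_neg_cancel, xfg_L0])
    rw [this]
    exact (xfgH Γ X).inv_mem ⟨z, hz, e2⟩)
  refine Or.inr ⟨X, hX, fun p hp => ?_⟩
  have hp1 : p.1 ∈ xfgH Γ X := by
    rw [hH]
    exact Subgroup.mem_top _
  obtain ⟨h, a, b⟩ := hp1
  rcases xfg_uniq h2 (show (p.1, p.2) ∈ Γ from hp) a with e | e
  · exact Or.inl (by rw [e, b])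
  · exact Or.inr (by rw [e, Matrix.SpecialLinearGroup.coe_neg, neg_mul, b])

theorem braid (hq : 5 < q) (Γ : Subgroup (GQ q × GQ q)) (h1 : ∀ g, ∃ h, (g, h) ∈ Γ)
    (h2 : ∀ h, (1, h) ∈ Γ → h = 1 ∨ h = -1) :
    (∀ p ∈ Γ, p.2 = 1 ∨ p.2 = -1) ∨ ∃ X : MQ q, X.det ≠ 0 ∧ ∀ p ∈ Γ, Cj X p.1 p.2 := by
  let Γ' : Subgroup (GQ q × GQ q) :=
    { carrier := {p | p ∈ Γ ∨ (p.1, -p.2) ∈ Γ}
      one_mem' := Or.inl Γ.one_mem
      mul_mem' := by
        rintro ⟨g, h⟩ ⟨g', h'⟩ (a | a) (b | b)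
        · exact Or.inl (Γ.mul_mem a b)
        · exact Or.inr (by simpa using Γ.mul_mem a b)
        · exact Or.inr (by simpa using Γ.mul_mem a b)
        · exact Or.inl (by simpa using Γ.mul_mem a b)
      inv_mem' := by
        rintro ⟨g, h⟩ (a | a)
        · exact Or.inl (Γ.inv_mem a)
        · have e : (-h)⁻¹ = -h⁻¹ := inv_eq_of_mul_eq_one_right (by simp)
          have b := Γ.inv_mem a
          rw [Prod.inv_mk, e] at b
          exact Or.inr b }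
  have key := xfg_braid hq Γ' (fun g => (h1 g).imp fun h hh => Or.inl hh)
    (fun h hh => by
      rcases hh with a | a
      · exact h2 h a
      · exact (h2 _ a).symm.imp (fun e => neg_injective e) fun e => neg_eq_iff_eq_neg.1 e)
    (fun g h hh => by
      rcases hh with a | a
      · exact Or.inr (by simpa using a)
      · exact Or.inl a)
  exact key.imp (fun k p hp => k p (Or.inl hp)) fun ⟨X, hX, k⟩ => ⟨X, hX, fun p hp => k p (Or.inl hp)⟩

theorem Cj.surj {X : MQ q} (hX : X.det ≠ 0) (h : GQ q) : ∃ g : GQ q, (h : MQ q) * X = X * g := by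
  have hu : IsUnit X.det := isUnit_iff_ne_zero.2 hX
  refine ⟨⟨X⁻¹ * (h : MQ q) * X, ?_⟩, ?_⟩
  · rw [Matrix.det_mul, Matrix.det_mul, h.det_coe, mul_one, ← Matrix.det_mul,
      Matrix.nonsing_inv_mul _ hu, Matrix.det_one]
  · show _ = X * (X⁻¹ * (h : MQ q) * X)
    rw [← mul_assoc, ← mul_assoc, Matrix.mul_nonsing_inv _ hu, one_mul]

end Pool.Agent.EQ
end
end

-- part Pool.Agent.P.MP_ad7a55_nt.XKm
section

/-! Integral matrices of given determinant in a residue class. -/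

set_option autoImplicit false

noncomputable section

open Finset
open scoped Classical

namespace Pool.Agent.EQ

theorem xkm_split (M c : ℕ) (hc : 0 < c) : ∃ c₁ c₂ : ℕ, c = c₁ * c₂ ∧ c₁.Coprime M ∧
    ∀ p : ℕ, p.Prime → p ∣ c₂ → p ∣ M := by
  induction c using Nat.recOnMul with
  | zero => exact absurd hc (lt_irrefl 0)
  | one => exact ⟨1, 1, rfl, Nat.coprime_one_left _, fun p _ h => (h.trans (one_dvd _))⟩
  | prime p hp =>
    by_cases h : p ∣ M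
    · exact ⟨1, p, (one_mul p).symm, Nat.coprime_one_left _,
        fun q hq e => ((Nat.prime_dvd_prime_iff_eq hq hp).1 e) ▸ h⟩
    · exact ⟨p, 1, (mul_one p).symm, (Nat.Prime.coprime_iff_not_dvd hp).2 h,
        fun p _ h => (h.trans (one_dvd _))⟩
  | mul a b ha hb =>
    obtain ⟨a₁, a₂, e, h1, h2⟩ := ha (Nat.pos_of_mul_pos_right hc)
    obtain ⟨b₁, b₂, e', h1', h2'⟩ := hb (Nat.pos_of_mul_pos_left hc)
    refine ⟨a₁ * b₁, a₂ * b₂, by rw [e, e']; ring, Nat.Coprime.mul_left h1 h1', fun p hp h => ?_⟩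
    exact ((Nat.Prime.dvd_mul hp).1 h).elim (h2 p hp) (h2' p hp)

theorem xkm_sq {M c : ℕ} (Z : ℕ) (hM : 0 < M) (h : ∀ p : ℕ, p.Prime → p ∣ c → p ∣ M) :
    c ≤ Z ^ 2 * M ∨ ∃ s, Z < s ∧ s ^ 2 ∣ c := by
  obtain ⟨t, s, e, ht⟩ := Nat.sq_mul_squarefree c
  rcases le_or_gt s Z with h1 | h1
  · left
    rw [← e]
    refine Nat.mul_le_mul (Nat.pow_le_pow_left h1 2) (Nat.le_of_dvd hM ?_)
    rw [← Nat.prod_primeFactors_of_squarefree ht]
    refine Finset.prod_primes_dvd _ (fun p hp => (Nat.prime_of_mem_primeFactors hp).prime)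
      fun p hp => h p (Nat.prime_of_mem_primeFactors hp) ?_
    rw [← e]
    exact (Nat.dvd_of_mem_primeFactors hp).mul_left _
  · exact Or.inr ⟨s, h1, e ▸ Dvd.intro _ rfl⟩

theorem xkm_rare (X : ℕ) {Z : ℕ} (hZ : 0 < Z) :
    (#{c ∈ Icc (-(X : ℤ)) X | c ≠ 0 ∧ ∃ s : ℕ, Z < s ∧ s ^ 2 ∣ c.natAbs} : ℝ) ≤ 2 * X / Z := by
  have h1 : ({c ∈ Icc (-(X : ℤ)) X | c ≠ 0 ∧ ∃ s : ℕ, Z < s ∧ s ^ 2 ∣ c.natAbs} : Finset ℤ) ⊆
      (Ioc Z (max Z X)).biUnion fun s => (Icc 1 (X / s ^ 2) ×ˢ ({1, -1} : Finset ℤ)).image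
        fun p => p.2 * ((s ^ 2 * p.1 : ℕ) : ℤ) := fun c hc => by
    obtain ⟨c1, c2, s, c3, k, c4⟩ := mem_filter.1 hc
    have c5 := mem_Icc.1 c1
    have c6 : c.natAbs ≤ X := by omega
    have c7 : 0 < c.natAbs := Int.natAbs_pos.2 c2
    have hk : 0 < k := Nat.pos_of_mul_pos_left (c4 ▸ c7)
    have hs : 0 < s := by omega
    have c8 : s ≤ X := by
      refine le_trans ?_ c6
      rw [c4]
      exact (Nat.le_self_pow two_ne_zero s).trans (Nat.le_mul_of_pos_right _ hk)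
    have c9 : k ∈ Icc 1 (X / s ^ 2) :=
      mem_Icc.2 ⟨hk, (Nat.le_div_iff_mul_le (pow_pos hs 2)).2 (by rw [mul_comm, ← c4]; exact c6)⟩
    refine mem_biUnion.2 ⟨s, mem_Ioc.2 ⟨c3, c8.trans (le_max_right _ _)⟩, mem_image.2 ?_⟩
    rcases Int.natAbs_eq c with e | e
    · exact ⟨(k, 1), mem_product.2 ⟨c9, by simp⟩, by rw [← c4]; simp only; omega⟩
    · exact ⟨(k, -1), mem_product.2 ⟨c9, by simp⟩, by rw [← c4]; simp only; omega⟩
  have h2 := (Nat.cast_le (α := ℝ)).2 ((card_le_card h1).trans card_biUnion_le)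
  rw [Nat.cast_sum] at h2
  refine h2.trans ((sum_le_sum (g := fun s : ℕ => 2 * (X : ℝ) * ((s : ℝ) ^ 2)⁻¹)
    fun s _ => ?_).trans ?_)
  · have h3 : #((Icc 1 (X / s ^ 2) ×ˢ ({1, -1} : Finset ℤ)).image
        fun p => p.2 * ((s ^ 2 * p.1 : ℕ) : ℤ)) ≤ X / s ^ 2 * 2 := by
      refine card_image_le.trans ?_
      rw [card_product, Nat.card_Icc, Nat.add_sub_cancel]
      exact Nat.mul_le_mul_left _ card_le_two
    refine ((Nat.cast_le (α := ℝ)).2 h3).trans ?_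
    have h4 := @Nat.cast_div_le ℝ _ _ _ X (s ^ 2)
    push_cast at h4 ⊢
    rw [div_eq_mul_inv] at h4
    linarith
  · rw [← mul_sum, div_eq_mul_inv]
    refine mul_le_mul_of_nonneg_left ((sum_Ioc_inv_sq_le_sub hZ.ne' (le_max_left _ _)).trans ?_)
      (by positivity)
    exact sub_le_self _ (by positivity)

theorem xkm_cls (X : ℕ) (b : ℤ) {d : ℕ} (hd : 0 < d) :
    (#{x ∈ Icc (-(X : ℤ)) X | (d : ℤ) ∣ x - b} : ℝ) ≤ (2 * X + 1) / d + 1 := by
  have hd' : (0 : ℝ) < d := by exact_mod_cast hd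
  have h := xkl_int (-(X : ℤ)) b (2 * X + 1) hd
  rw [show Ico (-(X : ℤ)) (-(X : ℤ) + (2 * X + 1 : ℕ)) = Icc (-(X : ℤ)) X by
    ext x; simp only [mem_Ico, mem_Icc]; push_cast; omega] at h
  rw [div_add_one hd'.ne', le_div_iff₀ hd']
  exact_mod_cast h

theorem xkm_ap {c : ℕ} (hc : 0 < c) {W : ℕ} (hW : 0 < W) (hcW : W.Coprime c) {n : ℤ}
    (hn : IsCoprime n c) {κ : ℝ} (h0 : 0 ≤ κ)
    (hκ : 2 * (#c.divisors : ℝ) ^ 3 * (c : ℝ) ^ 3 ≤ κ ^ 4) (X : ℕ) (ρ ρ' : ℤ) :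
    (#{p ∈ Icc (-(X : ℤ)) X ×ˢ Icc (-(X : ℤ)) X | (W : ℤ) ∣ p.1 - ρ ∧ (W : ℤ) ∣ p.2 - ρ' ∧
      (c : ℤ) ∣ p.1 * p.2 - n} : ℝ) ≤ 4 * ((2 * X / W + 1 : ℕ) : ℝ) ^ 2 / c +
        #c.divisors * κ * (6 * ((2 * X / W + 1 : ℕ) : ℝ) + 3 * c) / c := by
  have : NeZero c := ⟨hc.ne'⟩
  have hW' : (0 : ℤ) < W := by exact_mod_cast hW
  obtain ⟨u, hu⟩ : IsUnit (W : ZMod c) := (ZMod.isUnit_iff_coprime W c).2 hcW
  obtain ⟨v, hv⟩ : IsUnit (n : ZMod c) := (ZMod.coe_int_isUnit_iff_isCoprime n c).2 hn.symm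
  let α : ℤ → ℤ := fun r => ((((r + X) % W - X : ℤ) : ZMod c) * (u⁻¹ : (ZMod c)ˣ)).val
  have key : ∀ r a : ℤ, a ∈ Icc (-(X : ℤ)) X → (W : ℤ) ∣ a - r →
      (a + X) / W + α r ∈ Ico (α r) (α r + (2 * X / W + 1 : ℕ)) ∧
      (((a + X) / W + α r : ℤ) : ZMod c) = (a : ZMod c) * (u⁻¹ : (ZMod c)ˣ) ∧
      a = W * ((a + X) / W) + (r + X) % W - X := fun r a ha hr => by
    have h1 := mem_Icc.1 ha
    have h2 : (a + X) % W = (r + X) % W :=
      Int.emod_eq_emod_iff_emod_sub_eq_zero.2 (Int.emod_eq_zero_of_dvd (by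
        rwa [show a + X - (r + X) = a - r by ring]))
    have h3 := Int.mul_ediv_add_emod (a + X) W
    have h4 : 0 ≤ (a + X) / W := Int.ediv_nonneg (by omega) hW'.le
    have h5 : (a + X) / W ≤ (2 * X : ℤ) / W := Int.ediv_le_ediv hW' (by omega)
    have h6 : a = W * ((a + X) / W) + (r + X) % W - X := by omega
    refine ⟨mem_Ico.2 ⟨by omega, by push_cast; omega⟩, ?_, h6⟩
    have h7 := congrArg (Int.cast : ℤ → ZMod c) h6
    simp only [α, Int.cast_add, Int.cast_natCast, ZMod.natCast_zmod_val, Int.cast_sub,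
      Int.cast_mul] at h7 ⊢
    rw [← hu] at h7
    linear_combination (-((u⁻¹ : (ZMod c)ˣ) : ZMod c)) * h7 -
      (((a + X) / W : ℤ) : ZMod c) * u.mul_inv
  refine le_trans (Nat.cast_le.2 (card_le_card_of_injOn
    (fun p => ((p.1 + X) / W + α ρ, (p.2 + X) / W + α ρ')) (fun p hp => ?_)
    fun p hp p' hp' e => ?_)) (xkl_box (v * u⁻¹ * u⁻¹) h0 hκ (α ρ) (α ρ') (2 * X / W + 1))
  · obtain ⟨p1, p2, p3, p4⟩ := mem_filter.1 (mem_coe.1 hp)
    obtain ⟨a1, a2, -⟩ := key ρ _ (mem_product.1 p1).1 p2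
    obtain ⟨b1, b2, -⟩ := key ρ' _ (mem_product.1 p1).2 p3
    refine mem_coe.2 (mem_filter.2 ⟨mem_product.2 ⟨a1, b1⟩, ?_⟩)
    have p5 := (ZMod.intCast_zmod_eq_zero_iff_dvd _ _).2 p4
    push_cast at p5
    simp only [a2, b2, Units.val_mul, hv]
    linear_combination ((u⁻¹ : (ZMod c)ˣ) : ZMod c) ^ 2 * p5
  · obtain ⟨p1, p2, p3, -⟩ := mem_filter.1 (mem_coe.1 hp)
    obtain ⟨q1, q2, q3, -⟩ := mem_filter.1 (mem_coe.1 hp')
    obtain ⟨e1, e2⟩ := Prod.mk.inj e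
    refine Prod.ext ?_ ?_
    · rw [(key ρ _ (mem_product.1 p1).1 p2).2.2, (key ρ _ (mem_product.1 q1).1 q2).2.2,
        add_right_cancel e1]
    · rw [(key ρ' _ (mem_product.1 p1).2 p3).2.2, (key ρ' _ (mem_product.1 q1).2 q3).2.2,
        add_right_cancel e2]

theorem xkm_fib {α β : Type} (S : Finset α) (T : Finset β) (f : α → β) (h : ∀ x ∈ S, f x ∈ T)
    {B : ℝ} (h0 : 0 ≤ B)
    (hB : ∀ x ∈ S, ∀ U : Finset α, (∀ y ∈ U, y ∈ S ∧ f y = f x) → (#U : ℝ) ≤ B) :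
    (#S : ℝ) ≤ #T * B := by
  rw [card_eq_sum_card_fiberwise (f := f) (t := T) fun x hx => h x hx, Nat.cast_sum,
    ← nsmul_eq_mul]
  refine sum_le_card_nsmul _ _ _ fun t _ => ?_
  rcases ({y ∈ S | f y = t} : Finset α).eq_empty_or_nonempty with e | ⟨x, hx⟩
  · rw [e, card_empty, Nat.cast_zero]; exact h0
  · exact hB x (mem_filter.1 hx).1 _ fun y hy =>
      ⟨(mem_filter.1 hy).1, (mem_filter.1 hy).2.trans (mem_filter.1 hx).2.symm⟩

theorem xkm_good {M c₁ c₂ : ℕ} {c n : ℤ} (hM : 0 < M) (h₁ : 0 < c₁) (h₂ : 0 < c₂)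
    (hc : c.natAbs = c₁ * c₂) (hcop : c₁.Coprime M) (hp : ∀ p : ℕ, p.Prime → p ∣ c₂ → p ∣ M)
    (hn : IsCoprime c n) {κ : ℝ} (h0 : 0 ≤ κ)
    (hκ : 2 * (#c₁.divisors : ℝ) ^ 3 * (c₁ : ℝ) ^ 3 ≤ κ ^ 4) (X : ℕ) (a₀ b₀ d₀ : ℤ)
    (S : Finset (ℤ × ℤ)) (hS : ∀ p ∈ S, |p.1| ≤ X ∧ |p.2| ≤ X ∧ (M : ℤ) ∣ p.1 - a₀ ∧
      (M : ℤ) ∣ p.2 - d₀ ∧ ∃ b, (M : ℤ) ∣ b - b₀ ∧ p.1 * p.2 - b * c = n) :
    (#S : ℝ) ≤ 2 * c₂ * (4 * ((2 * X / (M * c₂) + 1 : ℕ) : ℝ) ^ 2 / c₁ +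
        #c₁.divisors * κ * (6 * ((2 * X / (M * c₂) + 1 : ℕ) : ℝ) + 3 * c₁) / c₁) := by
  have hW : 0 < M * c₂ := Nat.mul_pos hM h₂
  have hW' : (0 : ℤ) < (M * c₂ : ℕ) := by exact_mod_cast hW
  have d₁ : (c₁ : ℤ) ∣ c := Int.natCast_dvd.2 (hc ▸ Dvd.intro _ rfl)
  have d₂ : (c₂ : ℤ) ∣ c := Int.natCast_dvd.2 (hc ▸ Dvd.intro_left _ rfl)
  have hcW : (M * c₂).Coprime c₁ := Nat.Coprime.mul_left hcop.symm
    (Nat.coprime_of_dvd fun p hq e e' => hq.one_lt.ne'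
      (Nat.dvd_one.1 (hcop ▸ Nat.dvd_gcd e' (hp p hq e))))
  refine (xkm_fib S ((Ico (0 : ℤ) (0 + (M * c₂ : ℕ))).filter fun r => (M : ℤ) ∣ r - a₀)
    (fun p => p.1 % (M * c₂ : ℕ)) (fun p hp => ?_) (by positivity) fun p hp U hU => ?_).trans
    (mul_le_mul_of_nonneg_right ?_ (by positivity))
  · refine mem_filter.2 ⟨mem_Ico.2 ⟨Int.emod_nonneg _ hW'.ne', ?_⟩, ?_⟩
    · rw [zero_add]; exact Int.emod_lt_of_pos _ hW'
    · have e : (M : ℤ) ∣ p.1 - p.1 % (M * c₂ : ℕ) :=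
        (Int.natCast_dvd_natCast.2 (Dvd.intro _ rfl)).trans Int.dvd_self_sub_emod
      have := dvd_sub (hS p hp).2.2.1 e
      rwa [show p.1 - a₀ - (p.1 - p.1 % (M * c₂ : ℕ)) = p.1 % (M * c₂ : ℕ) - a₀ by ring] at this
  · refine le_trans (Nat.cast_le.2 (card_le_card fun y hy => ?_))
      (xkm_ap h₁ hW hcW (hn.symm.of_isCoprime_of_dvd_right d₁) h0 hκ X p.1 p.2)
    obtain ⟨y0, y1⟩ := hU y hy
    obtain ⟨a1, a2, -, a4, b, a5, a6⟩ := hS y y0
    obtain ⟨-, -, -, b4, b', b5, b6⟩ := hS p hp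
    have e1 : ((M * c₂ : ℕ) : ℤ) ∣ y.1 - p.1 :=
      Int.dvd_of_emod_eq_zero (Int.emod_eq_emod_iff_emod_sub_eq_zero.1 y1)
    refine mem_filter.2 ⟨mem_product.2 ⟨mem_Icc.2 (abs_le.1 a1), mem_Icc.2 (abs_le.1 a2)⟩, e1, ?_,
      ⟨b * (c / c₁), by rw [mul_left_comm, Int.mul_ediv_cancel' d₁]; linear_combination a6⟩⟩
    obtain ⟨e, he⟩ := dvd_sub a4 b4
    obtain ⟨f, hf⟩ := dvd_sub a5 b5
    obtain ⟨g, hg⟩ := e1
    obtain ⟨k, hk⟩ := d₂
    push_cast at hg ⊢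
    have hM' : (M : ℤ) ≠ 0 := by exact_mod_cast hM.ne'
    have e2 : p.1 * e = c₂ * (f * k - g * y.2) := mul_left_cancel₀ hM' (by
      rw [hk] at a6 b6
      linear_combination a6 - b6 + (c₂ * k) * hf - p.1 * he - y.2 * hg)
    have e3 : IsCoprime (c₂ : ℤ) p.1 := by
      obtain ⟨u, v, huv⟩ := hn
      exact ⟨(u - v * b') * k, v * p.2, by
        rw [← huv, ← b6, hk]; ring⟩
    obtain ⟨t, ht⟩ := e3.dvd_of_dvd_mul_left ⟨_, e2⟩
    exact ⟨t, by linear_combination he + M * ht⟩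
  · have h3 := xkl_int 0 a₀ (M * c₂) hM
    have hM' : (0 : ℝ) < M := by exact_mod_cast hM
    have h4 : (1 : ℝ) ≤ c₂ := by exact_mod_cast h₂
    refine le_of_mul_le_mul_right (h3.trans ?_) hM'
    push_cast
    nlinarith

theorem xkm_row {c n a : ℤ} {X g : ℕ} {Λ : ℝ} (hΛ : 1 ≤ Λ) (hc : c ≠ 0) (hX : X ≤ Λ * |(c : ℝ)|)
    (hg : Int.gcd a c = g) (S : Finset ℤ) (hS : ∀ d ∈ S, |d| ≤ X ∧ c ∣ a * d - n) :
    (#S : ℝ) ≤ 4 * Λ * g := by
  have hg0 : 0 < g := hg ▸ Int.gcd_pos_of_ne_zero_right a hc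
  have hg1 : (1 : ℝ) ≤ g := by exact_mod_cast hg0
  rcases S.eq_empty_or_nonempty with e | ⟨d₀, hd₀⟩
  · rw [e, card_empty, Nat.cast_zero]; positivity
  obtain ⟨a', c', hco, ha, hc'⟩ := Int.exists_gcd_one (hg ▸ hg0 : 0 < Int.gcd a c)
  rw [hg] at ha hc'
  have hc0 : c' ≠ 0 := fun e => hc (by rw [hc', e, zero_mul])
  have h1 : (1 : ℝ) ≤ c'.natAbs := by exact_mod_cast Int.natAbs_pos.2 hc0
  have h2 : |(c : ℝ)| = c'.natAbs * g := by
    rw [hc', Int.cast_mul, abs_mul, Nat.cast_natAbs, Int.cast_abs, Int.cast_natCast, Nat.abs_cast]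
  refine le_trans (Nat.cast_le.2 (card_le_card fun d hd => ?_))
    ((xkm_cls X d₀ (Int.natAbs_pos.2 hc0)).trans ?_)
  · refine mem_filter.2 ⟨mem_Icc.2 (abs_le.1 (hS d hd).1), Int.natAbs_dvd.2 ?_⟩
    have e1 := dvd_sub (hS d hd).2 (hS d₀ hd₀).2
    rw [show a * d - n - (a * d₀ - n) = a' * (d - d₀) * g by rw [ha]; ring] at e1
    nth_rewrite 1 [hc'] at e1
    exact (Int.isCoprime_iff_gcd_eq_one.2 hco).symm.dvd_of_dvd_mul_left
      ((mul_dvd_mul_iff_right (by exact_mod_cast hg0.ne')).1 e1)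
  · rw [div_add_one (by linarith), div_le_iff₀ (by linarith)]
    rw [h2] at hX
    have h3 : 1 ≤ Λ * g := one_le_mul_of_one_le_of_one_le hΛ hg1
    nlinarith

theorem xkm_num {M X c₁ c₂ D Λ h τ : ℝ} (hM : 1 ≤ M) (h₁ : 1 ≤ c₁) (h₂ : 1 ≤ c₂) (hΛ : 1 ≤ Λ)
    (hD : 0 < D) (hτ0 : 0 ≤ τ) (hτ : τ ≤ D) (hc : c₂ ≤ M ^ 7) (hX : M ^ 8 ≤ X) (hl : X ≤ Λ * (c₁ * c₂))
    (h0 : 0 ≤ h) (hh : h ≤ 2 * X / (M * c₂) + 1) :
    2 * c₂ * (4 * h ^ 2 / c₁ + τ * (X / (M ^ 9 * D)) * (6 * h + 3 * c₁) / c₁) ≤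
      114 * Λ * X / M ^ 2 := by
  have hX0 : 0 < X := lt_of_lt_of_le (by positivity) hX
  have a1 : h ≤ 3 * X / (M * c₂) := by
    refine hh.trans ?_
    have : 1 ≤ X / (M * c₂) := by
      rw [le_div_iff₀ (by positivity), one_mul]
      calc M * c₂ ≤ M * M ^ 7 := by gcongr
        _ = M ^ 8 := by ring
        _ ≤ X := hX
    rw [mul_div_assoc, mul_div_assoc]
    linarith
  have a2 : X / (c₁ * c₂) ≤ Λ := (div_le_iff₀ (by positivity)).2 hl
  have a3 : 2 * c₂ * (4 * h ^ 2 / c₁) ≤ 72 * Λ * X / M ^ 2 :=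
    calc _ ≤ 2 * c₂ * (4 * (3 * X / (M * c₂)) ^ 2 / c₁) := by gcongr
      _ = 72 * (X / (c₁ * c₂)) * X / M ^ 2 := by field_simp; ring
      _ ≤ _ := by gcongr
  have a4 : (6 * h + 3 * c₁) / c₁ ≤ 21 * Λ :=
    calc _ ≤ (6 * (3 * X / (1 * c₂)) + 3 * c₁) / c₁ := by
          gcongr
          exact a1.trans (by gcongr)
      _ = 18 * (X / (c₁ * c₂)) + 3 := by field_simp; ring
      _ ≤ _ := by linarith
  have a5 : 2 * c₂ * (τ * (X / (M ^ 9 * D)) * (6 * h + 3 * c₁) / c₁) ≤ 42 * Λ * X / M ^ 2 :=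
    calc _ = 2 * c₂ * (τ * (X / (M ^ 9 * D)) * ((6 * h + 3 * c₁) / c₁)) := by ring
      _ ≤ 2 * M ^ 7 * (D * (X / (M ^ 9 * D)) * (21 * Λ)) := by gcongr
      _ = _ := by field_simp; ring
  rw [mul_add]
  calc _ ≤ 72 * Λ * X / M ^ 2 + 42 * Λ * X / M ^ 2 := add_le_add a3 a5
    _ = _ := by ring

theorem xkm_quad {ι : Type} {M X : ℕ} {D Λ : ℝ} (hM : 0 < M) (hΛ : 1 ≤ Λ) (hD : 1 ≤ D)
    (hτ : ∀ c : ℕ, 0 < c → c ≤ X → (#c.divisors : ℝ) ≤ D) (hX : 2 * (M : ℝ) ^ 36 * D ^ 7 ≤ X)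
    (T : Finset ι) (a b c d : ι → ℤ) (n a₀ b₀ c₀ d₀ : ℤ)
    (inj : ∀ i ∈ T, ∀ j ∈ T, a i = a j → b i = b j → c i = c j → d i = d j → i = j)
    (h : ∀ i ∈ T, a i * d i - b i * c i = n ∧ |a i| ≤ X ∧ |c i| ≤ X ∧ |d i| ≤ X ∧
      (M : ℤ) ∣ a i - a₀ ∧ (M : ℤ) ∣ b i - b₀ ∧ (M : ℤ) ∣ c i - c₀ ∧ (M : ℤ) ∣ d i - d₀ ∧
      X ≤ Λ * |(c i : ℝ)| ∧ IsCoprime (c i) n) : (#T : ℝ) ≤ 480 * Λ * (X : ℝ) ^ 2 / (M : ℝ) ^ 3 := by
  have hM1 : (1 : ℝ) ≤ M := by exact_mod_cast hM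
  have hX8 : (M : ℝ) ^ 8 ≤ X := by
    refine le_trans ?_ hX
    have h1 : (M : ℝ) ^ 8 ≤ (M : ℝ) ^ 36 := pow_le_pow_right₀ hM1 (by norm_num)
    have h2 : (1 : ℝ) ≤ D ^ 7 := one_le_pow₀ hD
    have h3 : (0 : ℝ) ≤ (M : ℝ) ^ 36 := by positivity
    nlinarith
  have hX1 : (M : ℝ) ≤ X := (le_self_pow₀ hM1 (by norm_num)).trans hX8
  have hc0 : ∀ i ∈ T, c i ≠ 0 := fun i hi e => by
    have := (h i hi).2.2.2.2.2.2.2.2.1
    rw [e, Int.cast_zero, abs_zero, mul_zero] at this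
    linarith
  have hin : ∀ (i : ι) (S : Finset ι), (∀ j ∈ S, j ∈ T ∧ c j = c i) →
      #(S.image fun j => (a j, d j)) = #S := fun i S hS =>
    card_image_of_injOn fun j hj k hk e => by
      obtain ⟨e1, e2⟩ := Prod.mk.inj e
      obtain ⟨j1, j2⟩ := hS j hj
      obtain ⟨k1, k2⟩ := hS k hk
      have e3 : c j = c k := j2.trans k2.symm
      refine inj j j1 k k1 e1 (mul_right_cancel₀ (hc0 k k1) ?_) e3 e2
      have e4 := (h j j1).1
      rw [e1, e2, e3] at e4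
      linear_combination (h k k1).1 - e4
  rw [← card_filter_add_card_filter_not (s := T)
    (fun i => ∃ s : ℕ, M ^ 3 < s ∧ s ^ 2 ∣ (c i).natAbs), Nat.cast_add]
  have P1 := xkm_fib (T.filter fun i => ∃ s : ℕ, M ^ 3 < s ∧ s ^ 2 ∣ (c i).natAbs)
    {c ∈ Icc (-(X : ℤ)) X | c ≠ 0 ∧ ∃ s : ℕ, M ^ 3 < s ∧ s ^ 2 ∣ c.natAbs} c
    (fun i hi => mem_filter.2 ⟨mem_Icc.2 (abs_le.1 (h i (mem_filter.1 hi).1).2.2.1),
      hc0 i (mem_filter.1 hi).1, (mem_filter.1 hi).2⟩) (B := 3 * X * (4 * Λ)) (by positivity)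
    fun i hi U hU => by
      have hi' := (mem_filter.1 hi).1
      have hU' : ∀ j ∈ U, j ∈ T ∧ c j = c i := fun j hj =>
        ⟨(mem_filter.1 (hU j hj).1).1, (hU j hj).2⟩
      rw [← hin i U hU']
      refine (xkm_fib _ (Icc (-(X : ℤ)) X) Prod.fst (fun p hp => ?_) (B := 4 * Λ) (by positivity)
        fun p hp V hV => ?_).trans (mul_le_mul_of_nonneg_right ?_ (by positivity))
      · obtain ⟨j, hj, rfl⟩ := mem_image.1 hp
        exact mem_Icc.2 (abs_le.1 (h j (hU' j hj).1).2.1)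
      · obtain ⟨j, hj, rfl⟩ := mem_image.1 hp
        have j1 := h j (hU' j hj).1
        have j2 := (hU' j hj).2
        rw [← card_image_of_injOn (f := Prod.snd) fun y hy z hz e =>
          Prod.ext ((hV y hy).2.trans (hV z hz).2.symm) e]
        refine (xkm_row (n := n) (a := a j) (g := 1) hΛ (hc0 i hi') (h i hi').2.2.2.2.2.2.2.2.1
          (Int.isCoprime_iff_gcd_eq_one.1 ?_) _ fun y hy => ?_).trans (by simp)
        · obtain ⟨u, v, huv⟩ := j1.2.2.2.2.2.2.2.2.2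
          exact ⟨v * d j, u - v * b j, by rw [← huv, ← j1.1, ← j2]; ring⟩
        · obtain ⟨z, hz, rfl⟩ := mem_image.1 hy
          obtain ⟨k, hk, rfl⟩ := mem_image.1 (hV z hz).1
          have k1 := h k (hU' k hk).1
          have k3 : a k = a j := (hV _ hz).2
          exact ⟨k1.2.2.2.1, b k, by rw [← k3, ← (hU' k hk).2]; linear_combination k1.1⟩
      · rw [Int.card_Icc, show ((X : ℤ) + 1 - -(X : ℤ)).toNat = 2 * X + 1 by omega]
        push_cast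
        linarith
  have P2 := xkm_fib (T.filter fun i => ¬ ∃ s : ℕ, M ^ 3 < s ∧ s ^ 2 ∣ (c i).natAbs)
    {c ∈ Icc (-(X : ℤ)) X | (M : ℤ) ∣ c - c₀} c
    (fun i hi => mem_filter.2 ⟨mem_Icc.2 (abs_le.1 (h i (mem_filter.1 hi).1).2.2.1),
      (h i (mem_filter.1 hi).1).2.2.2.2.2.2.1⟩) (B := 114 * Λ * X / (M : ℝ) ^ 2) (by positivity)
    fun i hi U hU => by
      obtain ⟨hi', hr⟩ := mem_filter.1 hi
      have hU' : ∀ j ∈ U, j ∈ T ∧ c j = c i := fun j hj =>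
        ⟨(mem_filter.1 (hU j hj).1).1, (hU j hj).2⟩
      rw [← hin i U hU']
      have c1 := Int.natAbs_pos.2 (hc0 i hi')
      obtain ⟨c₁, c₂, e, hcop, hp⟩ := xkm_split M _ c1
      have h₁ : 0 < c₁ := Nat.pos_of_mul_pos_right (e ▸ c1)
      have h₂ : 0 < c₂ := Nat.pos_of_mul_pos_left (e ▸ c1)
      have c2 : c₂ ≤ (M ^ 3) ^ 2 * M := (xkm_sq (M ^ 3) hM hp).resolve_right
        fun ⟨s, s1, s2⟩ => hr ⟨s, s1, e ▸ s2.mul_left _⟩
      have c3 : c₁ ≤ X := by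
        have := abs_le.1 (h i hi').2.2.1
        have : c₁ ≤ (c i).natAbs := e ▸ Nat.le_mul_of_pos_right _ h₂
        omega
      have c4 : (c₁ : ℝ) ≤ X := by exact_mod_cast c3
      have c5 := hτ c₁ h₁ c3
      refine (xkm_good hM h₁ h₂ e hcop hp (h i hi').2.2.2.2.2.2.2.2.2
        (κ := X / ((M : ℝ) ^ 9 * D)) (by positivity) ?_ X a₀ b₀ d₀ _ fun p hp => ?_).trans
        (xkm_num hM1 (by exact_mod_cast h₁) (by exact_mod_cast h₂) hΛ (by linarith)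
          (by positivity) c5 ?_ hX8 ?_ (by positivity) ?_)
      · rw [div_pow, le_div_iff₀ (by positivity)]
        calc _ ≤ 2 * D ^ 3 * (X : ℝ) ^ 3 * ((M : ℝ) ^ 9 * D) ^ 4 := by gcongr
          _ = (2 * (M : ℝ) ^ 36 * D ^ 7) * (X : ℝ) ^ 3 := by ring
          _ ≤ X * (X : ℝ) ^ 3 := by gcongr
          _ = _ := by ring
      · obtain ⟨j, hj, rfl⟩ := mem_image.1 hp
        obtain ⟨j1, j2, -, j4, j5, j6, -, j8, -⟩ := h j (hU' j hj).1
        exact ⟨j2, j4, j5, j8, b j, j6, (hU' j hj).2 ▸ j1⟩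
      · exact_mod_cast c2.trans (le_of_eq (by ring))
      · have := (h i hi').2.2.2.2.2.2.2.2.1
        rwa [← Int.cast_abs, ← Nat.cast_natAbs, e, Nat.cast_mul] at this
      · have := @Nat.cast_div_le ℝ _ _ _ (2 * X) (M * c₂)
        push_cast at this ⊢
        linarith
  have Q1 := xkm_rare X (pow_pos hM 3)
  have Q2 : (2 * X + 1 : ℝ) / M + 1 ≤ 4 * X / M := by
    rw [div_add_one (by linarith)]
    gcongr
    linarith
  push_cast at Q1
  calc _ ≤ 2 * X / (M : ℝ) ^ 3 * (3 * X * (4 * Λ)) + 4 * X / M * (114 * Λ * X / (M : ℝ) ^ 2) :=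
        add_le_add (P1.trans (mul_le_mul_of_nonneg_right Q1 (by positivity)))
          (P2.trans (mul_le_mul_of_nonneg_right ((xkm_cls X c₀ hM).trans Q2) (by positivity)))
    _ = _ := by field_simp; ring

theorem xkm_bad {ι : Type} {l k X : ℕ} {Λ : ℝ} (hl : l.Prime) (hΛ : 1 ≤ Λ)
    (T : Finset ι) (a b c d : ι → ℤ) (n : ℤ) (hn : n.natAbs = l ^ k)
    (inj : ∀ i ∈ T, ∀ j ∈ T, a i = a j → b i = b j → c i = c j → d i = d j → i = j)
    (h : ∀ i ∈ T, a i * d i - b i * c i = n ∧ |a i| ≤ X ∧ |c i| ≤ X ∧ |d i| ≤ X ∧ c i ≠ 0 ∧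
      X ≤ Λ * |(c i : ℝ)| ∧ ¬ IsCoprime (c i) n) :
    (#T : ℝ) ≤ 128 * k * Λ * (X : ℝ) ^ 2 / l := by
  rcases T.eq_empty_or_nonempty with e | ⟨i₀, hi₀⟩
  · rw [e, card_empty, Nat.cast_zero]; positivity
  have hlc : ∀ i ∈ T, (l : ℤ) ∣ c i ∧ 0 < k := fun i hi => by
    have h1 := (h i hi).2.2.2.2.2.2
    rw [Int.isCoprime_iff_gcd_eq_one, Int.gcd, hn] at h1
    refine ⟨Int.natCast_dvd.2 ?_, Nat.pos_of_ne_zero fun e => h1 (by simp [e])⟩
    by_contra h2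
    exact h1 (((Nat.Prime.coprime_iff_not_dvd hl).2 h2).symm.pow_right k)
  have hle : ∀ i ∈ T, ∀ g : ℕ, (g : ℤ) ∣ c i → (g : ℝ) ≤ X := fun i hi g hg => by
    have h1 := Int.le_of_dvd (abs_pos.2 (h i hi).2.2.2.2.1) ((dvd_abs _ _).2 hg)
    exact_mod_cast h1.trans (h i hi).2.2.1
  have hl0 : (1 : ℝ) ≤ l := by exact_mod_cast hl.one_le
  have hk : (1 : ℝ) ≤ k := by exact_mod_cast (hlc i₀ hi₀).2
  have hlX := hle i₀ hi₀ l (hlc i₀ hi₀).1
  have cls : ∀ g : ℕ, 0 < g → (g : ℝ) ≤ X →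
      (#{x ∈ Icc (-(X : ℤ)) X | (g : ℤ) ∣ x - 0} : ℝ) ≤ 4 * X / g := fun g g0 g1 => by
    have g2 : (1 : ℝ) ≤ g := by exact_mod_cast g0
    refine (xkm_cls X 0 g0).trans ?_
    rw [div_add_one (by linarith)]
    gcongr
    linarith
  have P := xkm_fib T {x ∈ Icc (-(X : ℤ)) X | (l : ℤ) ∣ x - 0} c
    (fun i hi => mem_filter.2 ⟨mem_Icc.2 (abs_le.1 (h i hi).2.2.1), by
      rw [sub_zero]; exact (hlc i hi).1⟩) (B := (k + 1) * (16 * Λ * X)) (by positivity)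
    fun i hi U hU => by
      refine (xkm_fib U (l ^ k).divisors (fun j => Int.gcd (a j) (c i)) (fun j hj => ?_)
        (B := 16 * Λ * X) (by positivity) fun j hj V hV => ?_).trans (le_of_eq ?_)
      · refine Nat.mem_divisors.2 ⟨?_, (pow_pos hl.pos k).ne'⟩
        rw [← hn, ← Int.natCast_dvd, ← (h j (hU j hj).1).1, (hU j hj).2]
        exact dvd_sub ((Int.gcd_dvd_left _ _).mul_right _) ((Int.gcd_dvd_right _ _).mul_left _)
      · obtain ⟨g, hg⟩ : ∃ g, Int.gcd (a j) (c i) = g := ⟨_, rfl⟩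
        have g0 : 0 < g := hg ▸ Int.gcd_pos_of_ne_zero_right _ (h i hi).2.2.2.2.1
        have g1 := hle i hi g (hg ▸ Int.gcd_dvd_right _ _)
        have g2 : (0 : ℝ) < g := by exact_mod_cast g0
        refine (xkm_fib V {x ∈ Icc (-(X : ℤ)) X | (g : ℤ) ∣ x - 0} a (fun t ht => ?_)
          (B := 4 * Λ * g) (by positivity) fun t ht V' hV' => ?_).trans
          ((mul_le_mul_of_nonneg_right (cls g g0 g1) (by positivity)).trans (le_of_eq ?_))
        · refine mem_filter.2 ⟨mem_Icc.2 (abs_le.1 (h t (hU t (hV t ht).1).1).2.1), ?_⟩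
          rw [sub_zero, ← hg, ← (hV t ht).2]
          exact Int.gcd_dvd_left _ _
        · have m : ∀ y ∈ V', y ∈ T ∧ c y = c i ∧ a y = a t := fun y hy =>
            ⟨(hU y (hV y (hV' y hy).1).1).1, (hU y (hV y (hV' y hy).1).1).2, (hV' y hy).2⟩
          rw [← card_image_of_injOn (f := d) fun y hy z hz e => ?_]
          · refine xkm_row (n := n) (a := a t) hΛ (h i hi).2.2.2.2.1 (h i hi).2.2.2.2.2.1
              ((hV t ht).2.trans hg) _ fun y hy => ?_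
            obtain ⟨z, hz, rfl⟩ := mem_image.1 hy
            obtain ⟨z1, z2, z3⟩ := m z hz
            exact ⟨(h z z1).2.2.2.1, b z, by rw [← z3, ← z2]; linear_combination (h z z1).1⟩
          · obtain ⟨y1, y2, y3⟩ := m y hy
            obtain ⟨z1, z2, z3⟩ := m z hz
            refine inj y y1 z z1 (y3.trans z3.symm) (mul_right_cancel₀ (h i hi).2.2.2.2.1 ?_)
              (y2.trans z2.symm) e
            have e1 := (h y y1).1
            have e2 := (h z z1).1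
            rw [y3, y2, e] at e1
            rw [z3, z2] at e2
            linear_combination e2 - e1
        · field_simp
          ring
      · rw [Nat.divisors_prime_pow hl, card_map, card_range]
        push_cast
        ring
  calc _ ≤ 4 * X / l * ((k + 1) * (16 * Λ * X)) :=
        P.trans (mul_le_mul_of_nonneg_right (cls l hl.pos hlX) (by positivity))
    _ ≤ 4 * X / l * ((k + k) * (16 * Λ * X)) := by gcongr
    _ = _ := by ring

end Pool.Agent.EQ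
end
end

-- part Pool.Agent.P.MP_ad7a55_nt.XLa
section

/-! Kernels of integral matrices modulo an integer. -/

set_option autoImplicit false

noncomputable section

open Finset Matrix
open scoped MatrixGroups Classical

namespace Pool.Agent.EQ

/-- Integral vectors. -/
abbrev V2 : Type := Fin 2 → ℤ

/-- The kernel modulo `n`. -/
def Ker (n : ℕ) (η : M2) : Set V2 := {v | ∀ i, (n : ℤ) ∣ (η *ᵥ v) i}

/-- `η` is congruent to the scalar `s`. -/
def Cg (M : ℕ) (η : M2) (s : ℤ) : Prop := ∀ i j, (M : ℤ) ∣ (η - s • (1 : M2)) i j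

/-- The matrices in Hermite normal form of determinant `d`. -/
def Hn (d : ℕ) : Finset M2 :=
  ((d.divisorsAntidiagonal ×ˢ range d).filter fun t => t.2 < t.1.2).image
    fun t => !![(t.1.1 : ℤ), (t.2 : ℤ); 0, (t.1.2 : ℤ)]

variable {n M : ℕ} {η η' ζ A A' : M2}

theorem xla_dvd_mulVec {m : ℤ} (X : M2) {v : V2} (h : ∀ i, m ∣ v i) (i : Fin 2) :
    m ∣ (X *ᵥ v) i := by
  simp only [Matrix.mulVec, dotProduct]
  exact Finset.dvd_sum fun j _ => (h j).mul_left _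

theorem xla_ex {m : ℤ} {X : M2} : (∀ i j, m ∣ X i j) ↔ ∃ Y : M2, X = m • Y := by
  constructor
  · intro h
    choose Y hY using h
    exact ⟨Matrix.of Y, by ext i j; simpa using hY i j⟩
  · rintro ⟨Y, rfl⟩ i j
    exact ⟨Y i j, rfl⟩

theorem xla_cg {s : ℤ} : Cg M η s ↔ ∃ Y : M2, η = s • (1 : M2) + (M : ℤ) • Y := by
  unfold Cg
  rw [xla_ex]
  exact exists_congr fun Y => sub_eq_iff_eq_add'

theorem xla_smul {s : ℤ} (hs : IsCoprime s n) (X : M2) (v : V2) :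
    s • v ∈ Ker n X ↔ v ∈ Ker n X := by
  unfold Ker
  simp only [Set.mem_ofPred_eq, Matrix.mulVec_smul, Pi.smul_apply, smul_eq_mul]
  exact forall_congr' fun i => ⟨fun h => hs.symm.dvd_of_dvd_mul_left h, fun h => h.mul_left _⟩

theorem xla_cancel {m : ℤ} (hm : m ≠ 0) {X Y : M2} (h : m • X = m • Y) : X = Y := by
  ext i j
  exact mul_left_cancel₀ hm (congrFun (congrFun h i) j)

theorem xla_det_adj (X : M2) : X.adjugate.det = X.det := by
  rw [Matrix.det_adjugate]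
  simp

theorem Ker_cop (h : IsCoprime ζ.det n) (η : M2) : Ker n (ζ * η) = Ker n η := by
  ext v
  constructor
  · intro hv i
    have h1 := xla_dvd_mulVec ζ.adjugate hv i
    rw [Matrix.mulVec_mulVec, ← mul_assoc, Matrix.adjugate_mul, smul_mul_assoc, one_mul,
      Matrix.smul_mulVec, Pi.smul_apply, smul_eq_mul] at h1
    exact h.symm.dvd_of_dvd_mul_left h1
  · intro hv i
    rw [← Matrix.mulVec_mulVec]
    exact xla_dvd_mulVec ζ hv i

theorem Ker_SL (n : ℕ) (γ : SL(2, ℤ)) (η : M2) : Ker n ((γ : M2) * η) = Ker n η := by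
  refine Ker_cop ?_ η
  rw [γ.det_coe]
  exact isCoprime_one_left

theorem mem_Ker_mul {v : V2} : v ∈ Ker n (η * ζ) ↔ ζ *ᵥ v ∈ Ker n η := by
  unfold Ker
  simp only [Set.mem_ofPred_eq, Matrix.mulVec_mulVec]

theorem Ker_anti {m : ℕ} (h : m ∣ n) (η : M2) : Ker n η ⊆ Ker m η := by
  intro v hv i
  exact (Int.natCast_dvd_natCast.2 h).trans (hv i)

theorem Ker_inter {a b : ℕ} (h : a.Coprime b) (η : M2) : Ker (a * b) η = Ker a η ∩ Ker b η := by
  ext v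
  constructor
  · intro hv
    exact ⟨Ker_anti (Dvd.intro _ rfl) η hv, Ker_anti (Dvd.intro_left _ rfl) η hv⟩
  · rintro ⟨h1, h2⟩ i
    rw [Nat.cast_mul]
    exact (Nat.isCoprime_iff_coprime.2 h).mul_dvd (h1 i) (h2 i)

theorem mem_Ker_prod {B : Finset ℕ} (hB : ∀ l ∈ B, l.Prime) {v : V2} :
    v ∈ Ker (∏ l ∈ B, l) η ↔ ∀ l ∈ B, v ∈ Ker l η := by
  constructor
  · intro hv l hl
    exact Ker_anti (Finset.dvd_prod_of_mem _ hl) η hv
  · intro hv i
    rw [Nat.cast_prod]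
    refine Finset.prod_dvd_of_coprime (fun a ha b hb hab => ?_) fun l hl => hv l hl i
    exact Nat.isCoprime_iff_coprime.2
      ((Nat.coprime_primes (hB a (Finset.mem_coe.1 ha)) (hB b (Finset.mem_coe.1 hb))).2 hab)

theorem mem_Ker_adj (hn : 0 < n) (h : η.det = n) {v : V2} :
    v ∈ Ker n η ↔ ∃ w, v = η.adjugate *ᵥ w := by
  have hn' : (n : ℤ) ≠ 0 := by exact_mod_cast hn.ne'
  constructor
  · intro hv
    choose w hw using hv
    refine ⟨w, ?_⟩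
    have h1 : η *ᵥ v = (n : ℤ) • w := funext fun i => hw i
    have h2 : η.adjugate *ᵥ (η *ᵥ v) = (n : ℤ) • v := by
      rw [Matrix.mulVec_mulVec, Matrix.adjugate_mul, Matrix.smul_mulVec, Matrix.one_mulVec, h]
    rw [h1, Matrix.mulVec_smul] at h2
    funext i
    exact (mul_left_cancel₀ hn' (congrFun h2 i)).symm
  · rintro ⟨w, rfl⟩ i
    rw [Matrix.mulVec_mulVec, Matrix.mul_adjugate, Matrix.smul_mulVec, Matrix.one_mulVec, h]
    exact ⟨w i, rfl⟩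

theorem exists_SL_of_Ker (hn : 0 < n) (h : η.det = n) (h' : η'.det = n)
    (hk : Ker n η ⊆ Ker n η') : ∃ γ : SL(2, ℤ), η' = (γ : M2) * η := by
  have hn' : (n : ℤ) ≠ 0 := by exact_mod_cast hn.ne'
  have h1 : ∀ i j, (n : ℤ) ∣ (η' * η.adjugate) i j := fun i j => by
    have h2 := hk ((mem_Ker_adj hn h).2 ⟨Pi.single j 1, rfl⟩) i
    rwa [Matrix.mulVec_mulVec, Matrix.mulVec_single_one] at h2
  obtain ⟨g, hg⟩ := xla_ex.1 h1
  have h2 : g.det = 1 := by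
    have h3 := congrArg Matrix.det hg
    rw [Matrix.det_mul, xla_det_adj, h, h', Matrix.det_smul, Fintype.card_fin] at h3
    apply mul_left_cancel₀ (pow_ne_zero 2 hn')
    rw [← h3]
    ring
  refine ⟨⟨g, h2⟩, xla_cancel hn' ?_⟩
  change _ = (n : ℤ) • (g * η)
  rw [← smul_mul_assoc, ← hg, mul_assoc, Matrix.adjugate_mul, h, mul_smul_comm, mul_one]

theorem Ker_com (h : η * A = A' * η) (hc : IsCoprime η.det n) (v : V2) :
    (η *ᵥ v ∈ Ker n A' ↔ v ∈ Ker n A) ∧ (v ∈ Ker n A' ↔ η.adjugate *ᵥ v ∈ Ker n A) := by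
  have h1 : ∀ v : V2, η *ᵥ v ∈ Ker n A' ↔ v ∈ Ker n A := fun v => by
    rw [← mem_Ker_mul, ← h, Ker_cop hc]
  refine ⟨h1 v, ?_⟩
  rw [← h1, Matrix.mulVec_mulVec, Matrix.mul_adjugate, Matrix.smul_mulVec, Matrix.one_mulVec,
    xla_smul hc]

theorem Ker_Cg {s : ℤ} (h : Cg n η s) (hs : IsCoprime s n) (ζ : M2) :
    Ker n (ζ * η) = Ker n ζ := by
  obtain ⟨Y, rfl⟩ := xla_cg.1 h
  ext v
  rw [← xla_smul hs ζ v]
  unfold Ker
  simp only [Set.mem_ofPred_eq]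
  refine forall_congr' fun i => ?_
  rw [mul_add, Matrix.add_mulVec, mul_smul_comm, mul_one, mul_smul_comm, Matrix.smul_mulVec,
    Matrix.smul_mulVec, Matrix.mulVec_smul, Pi.add_apply]
  exact dvd_add_left ⟨_, rfl⟩

theorem Cg.mono {M' : ℕ} {s : ℤ} (h : Cg M η s) (hM : M' ∣ M) : Cg M' η s := by
  intro i j
  exact (Int.natCast_dvd_natCast.2 hM).trans (h i j)

theorem Cg.mul {s s' : ℤ} (h : Cg M η s) (h' : Cg M η' s') : Cg M (η * η') (s * s') := by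
  obtain ⟨Y, rfl⟩ := xla_cg.1 h
  obtain ⟨Y', rfl⟩ := xla_cg.1 h'
  refine xla_cg.2 ⟨s • Y' + s' • Y + (M : ℤ) • (Y * Y'), ?_⟩
  simp only [add_mul, mul_add, smul_mul_assoc, mul_smul_comm, one_mul, mul_one]
  module

theorem Cg.conj {s : ℤ} (h : Cg M η s) (γ : SL(2, ℤ)) :
    Cg M ((γ : M2) * η * ((γ⁻¹ : SL(2, ℤ)) : M2)) s := by
  obtain ⟨Y, rfl⟩ := xla_cg.1 h
  refine xla_cg.2 ⟨(γ : M2) * Y * ((γ⁻¹ : SL(2, ℤ)) : M2), ?_⟩
  have h1 : (γ : M2) * ((γ⁻¹ : SL(2, ℤ)) : M2) = 1 := by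
    rw [← Matrix.SpecialLinearGroup.coe_mul, mul_inv_cancel, Matrix.SpecialLinearGroup.coe_one]
  simp only [add_mul, mul_add, smul_mul_assoc, mul_smul_comm, mul_one, h1]

theorem xla_cop (hM : 0 < M) {c d x y z : ℤ} (h : x * c + y * d + z * M = 1) :
    ∃ c' d' : ℤ, (M : ℤ) ∣ c' - c ∧ (M : ℤ) ∣ d' - d ∧ IsCoprime c' d' := by
  have key : ∀ c : ℤ, c ≠ 0 → ∀ z : ℤ, x * c + y * d + z * M = 1 →
      ∃ d' : ℤ, (M : ℤ) ∣ d' - d ∧ IsCoprime c d' := by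
    intro c hc z h
    let t : ℕ := ∏ p ∈ c.natAbs.primeFactors.filter (fun p : ℕ => ¬ (p : ℤ) ∣ d), p
    refine ⟨d + t * M, ⟨t, by ring⟩, isCoprime_of_prime_dvd (fun h0 => hc h0.1) ?_⟩
    intro p hp hpc hpd
    have hq : p.natAbs.Prime := Int.prime_iff_natAbs_prime.1 hp
    by_cases hd : p ∣ d
    · rcases hp.dvd_or_dvd ((dvd_add_right hd).1 hpd) with h1 | h1
      · have h2 : p.natAbs ∣ t := Int.natCast_dvd_natCast.1 (Int.natAbs_dvd.2 h1)
        obtain ⟨q, hq1, hq2⟩ := (Prime.dvd_finsetProd_iff hq.prime _).1 h2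
        rw [Finset.mem_filter] at hq1
        have h3 := (Nat.prime_dvd_prime_iff_eq hq (Nat.prime_of_mem_primeFactors hq1.1)).1 hq2
        exact hq1.2 (h3 ▸ Int.natAbs_dvd.2 hd)
      · refine hp.not_dvd_one ?_
        rw [← h]
        exact ((hpc.mul_left _).add (hd.mul_left _)).add (h1.mul_left _)
    · have h2 : p.natAbs ∣ t := Finset.dvd_prod_of_mem _ (Finset.mem_filter.2
        ⟨Nat.mem_primeFactors.2 ⟨hq, Int.natAbs_dvd_natAbs.2 hpc, Int.natAbs_ne_zero.2 hc⟩,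
          fun h3 => hd (Int.natAbs_dvd.1 h3)⟩)
      have h3 : p ∣ (t : ℤ) := Int.natAbs_dvd.1 (Int.natCast_dvd_natCast.2 h2)
      exact hd ((dvd_add_left (h3.mul_right _)).1 hpd)
  by_cases hc : c = 0
  · obtain ⟨d', h1, h2⟩ := key M (by exact_mod_cast hM.ne') (z - x) (by
      rw [hc] at h
      linear_combination h)
    exact ⟨M, d', by rw [hc, sub_zero], h1, h2⟩
  · obtain ⟨d', h1, h2⟩ := key c hc z h
    exact ⟨c, d', by rw [sub_self]; exact dvd_zero _, h1, h2⟩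

theorem exists_lift_SL (hM : 0 < M) {W : M2} (h : (M : ℤ) ∣ W.det - 1) :
    ∃ γ : SL(2, ℤ), ∀ i j, (M : ℤ) ∣ γ i j - W i j := by
  rw [Matrix.det_fin_two] at h
  obtain ⟨e, he⟩ := h
  obtain ⟨c, d, ⟨k, hk⟩, ⟨l, hl⟩, u, v, huv⟩ :=
    xla_cop hM (c := W 1 0) (d := W 1 1) (x := -W 0 1) (y := W 0 0) (z := -e)
      (by linear_combination he)
  have hE : (M : ℤ) ∣ W 0 0 * d - W 0 1 * c - 1 :=
    ⟨e + W 0 0 * l - W 0 1 * k, by linear_combination he + W 0 0 * hl - W 0 1 * hk⟩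
  refine ⟨⟨!![v + (u * (W 0 0 - v) + v * (W 0 1 + u)) * c,
    -u + (u * (W 0 0 - v) + v * (W 0 1 + u)) * d; c, d], ?_⟩, fun i j => ?_⟩
  · rw [Matrix.det_fin_two_of]
    linear_combination huv
  · fin_cases i <;> fin_cases j
    · change (M : ℤ) ∣ v + (u * (W 0 0 - v) + v * (W 0 1 + u)) * c - W 0 0
      have e1 : v + (u * (W 0 0 - v) + v * (W 0 1 + u)) * c - W 0 0 =
          -v * (W 0 0 * d - W 0 1 * c - 1) := by linear_combination (W 0 0) * huv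
      rw [e1]
      exact hE.mul_left _
    · change (M : ℤ) ∣ -u + (u * (W 0 0 - v) + v * (W 0 1 + u)) * d - W 0 1
      have e1 : -u + (u * (W 0 0 - v) + v * (W 0 1 + u)) * d - W 0 1 =
          u * (W 0 0 * d - W 0 1 * c - 1) := by linear_combination (W 0 1) * huv
      rw [e1]
      exact hE.mul_left _
    · exact ⟨k, hk⟩
    · exact ⟨l, hl⟩

theorem exists_Cg (hM : 0 < M) {s : ℤ} (hs : IsCoprime s M) (h : (M : ℤ) ∣ η.det - s ^ 2) :
    ∃ γ : SL(2, ℤ), Cg M ((γ : M2) * η) s := by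
  obtain ⟨s', z, hz⟩ := hs
  obtain ⟨e, he⟩ := h
  obtain ⟨γ, hγ⟩ := exists_lift_SL hM (W := s' • η.adjugate) (by
    rw [Matrix.det_smul, xla_det_adj, Fintype.card_fin]
    exact ⟨s' ^ 2 * e - z * (s' * s + 1), by
      linear_combination s' ^ 2 * he + (s' * s + 1) * hz⟩)
  obtain ⟨Y, hY⟩ := (xla_ex (X := (γ : M2) - s' • η.adjugate)).1 hγ
  refine ⟨γ, xla_cg.2 ⟨Y * η + (s' * e - s * z) • (1 : M2), ?_⟩⟩
  have e1 : s' * η.det = s + M * (s' * e - s * z) := by linear_combination s' * he + s * hz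
  rw [sub_eq_iff_eq_add'] at hY
  rw [hY, add_mul, smul_mul_assoc, smul_mul_assoc, Matrix.adjugate_mul, smul_smul, e1]
  module

theorem Cg.gamma {s : ℤ} (hs : IsCoprime s M) {γ : SL(2, ℤ)} (h : Cg M η s)
    (h' : Cg M ((γ : M2) * η) s) : γ ∈ CongruenceSubgroup.Gamma M := by
  obtain ⟨Y, rfl⟩ := xla_cg.1 h
  obtain ⟨Y', hY⟩ := xla_cg.1 h'
  have h1 : s • ((γ : M2) - 1) = (M : ℤ) • (Y' - (γ : M2) * Y) := by
    rw [mul_add, mul_smul_comm, mul_smul_comm, mul_one] at hY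
    rw [smul_sub, smul_sub, sub_eq_sub_iff_add_eq_add, hY, add_comm]
  have h2 : ∀ i j, (M : ℤ) ∣ ((γ : M2) - 1) i j := fun i j =>
    hs.symm.dvd_of_dvd_mul_left (xla_ex.2 ⟨_, h1⟩ i j)
  have h3 : ∀ i j, ((γ i j : ℤ) : ZMod M) = (((1 : M2) i j : ℤ) : ZMod M) := fun i j => by
    rw [← sub_eq_zero, ← Int.cast_sub, ZMod.intCast_zmod_eq_zero_iff_dvd]
    exact h2 i j
  rw [CongruenceSubgroup.Gamma_mem]
  exact ⟨by simpa using h3 0 0, by simpa using h3 0 1, by simpa using h3 1 0,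
    by simpa using h3 1 1⟩

theorem xla_mem {d : ℕ} {h : M2} : h ∈ Hn d ↔ ∃ a b e : ℕ, a * e = d ∧ d ≠ 0 ∧ b < e ∧
    h = !![(a : ℤ), (b : ℤ); 0, (e : ℤ)] := by
  unfold Hn
  simp only [Finset.mem_image, Finset.mem_filter, Finset.mem_product,
    Nat.mem_divisorsAntidiagonal, Finset.mem_range]
  constructor
  · rintro ⟨⟨⟨a, e⟩, b⟩, ⟨⟨⟨h1, h2⟩, -⟩, h3⟩, rfl⟩
    exact ⟨a, b, e, h1, h2, h3, rfl⟩
  · rintro ⟨a, b, e, h1, h2, h3, rfl⟩
    exact ⟨((a, e), b), ⟨⟨⟨h1, h2⟩, h3.trans_le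
      (Nat.le_of_dvd (Nat.pos_of_ne_zero h2) (Dvd.intro_left a h1))⟩, h3⟩, rfl⟩

theorem mem_Hn {d : ℕ} {h : M2} (hh : h ∈ Hn d) : 0 < d ∧ h.det = d := by
  obtain ⟨a, b, e, h1, h2, -, rfl⟩ := xla_mem.1 hh
  refine ⟨Nat.pos_of_ne_zero h2, ?_⟩
  rw [Matrix.det_fin_two_of, ← h1]
  push_cast
  ring

theorem card_Hn (d : ℕ) : #(Hn d) ≤ d ^ 2 := by
  unfold Hn
  refine Finset.card_image_le.trans ((Finset.card_filter_le _ _).trans ?_)
  rw [Finset.card_product, Finset.card_range, ← Nat.map_div_right_divisors, Finset.card_map, sq]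
  exact Nat.mul_le_mul_right d (Nat.card_divisors_le_self d)

theorem xla_hnf {ξ : M2} (h : 0 < ξ.det) : ∃ (γ : SL(2, ℤ)) (a d : ℕ) (b : ℤ), 0 < a ∧ 0 < d ∧
    (a * d : ℤ) = ξ.det ∧ ξ = (γ : M2) * !![(a : ℤ), b; 0, (d : ℤ)] := by
  have hdet := Matrix.det_fin_two ξ
  have hg : 0 < Int.gcd (ξ 0 0) (ξ 1 0) := by
    rw [Int.gcd_pos_iff]
    by_contra hc
    rw [not_or, not_not, not_not] at hc
    rw [hdet, hc.1, hc.2] at h
    simp at h
  have hb := Int.gcd_eq_gcd_ab (ξ 0 0) (ξ 1 0)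
  obtain ⟨p, hp⟩ := Int.gcd_dvd_left (ξ 0 0) (ξ 1 0)
  obtain ⟨r, hr⟩ := Int.gcd_dvd_right (ξ 0 0) (ξ 1 0)
  generalize Int.gcdA (ξ 0 0) (ξ 1 0) = x at hb
  generalize Int.gcdB (ξ 0 0) (ξ 1 0) = y at hb
  generalize Int.gcd (ξ 0 0) (ξ 1 0) = a at hg hb hp hr
  have ha : (0 : ℤ) < a := by exact_mod_cast hg
  have h1 : p * x + r * y = 1 := by
    apply mul_left_cancel₀ ha.ne'
    rw [hp, hr] at hb
    linear_combination -hb
  have h2 : (a : ℤ) * (p * ξ 1 1 - r * ξ 0 1) = ξ.det := by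
    rw [hdet, hp, hr]; ring
  have h3 : 0 < p * ξ 1 1 - r * ξ 0 1 := (mul_pos_iff_of_pos_left ha).1 (h2 ▸ h)
  obtain ⟨d, hd⟩ := Int.eq_ofNat_of_zero_le h3.le
  refine ⟨⟨!![p, -y; r, x], by rw [Matrix.det_fin_two_of]; linear_combination h1⟩, a, d,
    x * ξ 0 1 + y * ξ 1 1, hg, by omega, by rw [← hd, h2], ?_⟩
  ext i j
  fin_cases i <;> fin_cases j <;> simp [Matrix.mul_apply, Fin.sum_univ_two, ← hd]
  · rw [hp]; ring
  · linear_combination (-ξ 0 1) * h1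
  · rw [hr]; ring
  · linear_combination (-ξ 1 1) * h1

theorem exists_Hn (hn : 0 < n) (h : η.det = n) :
    ∃ (γ : SL(2, ℤ)), ∃ h ∈ Hn n, η = (γ : M2) * h := by
  obtain ⟨γ, a, d, b, -, hd, had, hξ⟩ := xla_hnf (ξ := η) (by rw [h]; exact_mod_cast hn)
  have hd' : (0 : ℤ) < d := by exact_mod_cast hd
  have h3 := Int.emod_nonneg b hd'.ne'
  have h4 := Int.emod_lt_of_pos b hd'
  obtain ⟨r, hr⟩ := Int.eq_ofNat_of_zero_le h3
  let T : SL(2, ℤ) := ⟨!![1, b / d; 0, 1], by rw [Matrix.det_fin_two_of]; ring⟩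
  have hT : (!![(a : ℤ), b; 0, (d : ℤ)] : M2) = (T : M2) * !![(a : ℤ), b % d; 0, (d : ℤ)] := by
    change _ = (!![1, b / d; 0, 1] : M2) * _
    have := Int.emod_add_ediv_mul b d
    ext i j
    fin_cases i <;> fin_cases j <;> simp [Matrix.mul_apply, Fin.sum_univ_two, this]
  refine ⟨γ * T, !![(a : ℤ), (r : ℤ); 0, (d : ℤ)], xla_mem.2 ⟨a, r, d, ?_, hn.ne', ?_, rfl⟩, ?_⟩
  · rw [h] at had
    exact_mod_cast had
  · rw [hr] at h4
    exact_mod_cast h4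
  · rw [Matrix.SpecialLinearGroup.coe_mul, mul_assoc, ← hr, ← hT, ← hξ]

theorem Hn_unique {h h' : M2} (hh : h ∈ Hn n) (hh' : h' ∈ Hn n) {γ : SL(2, ℤ)}
    (e : h' = (γ : M2) * h) : h' = h := by
  obtain ⟨a, b, d, h1, h2, h3, rfl⟩ := xla_mem.1 hh
  obtain ⟨a', b', d', h1', -, h3', rfl⟩ := xla_mem.1 hh'
  have ha : (0 : ℤ) < a := by
    exact_mod_cast Nat.pos_of_ne_zero fun h0 => h2 (by rw [← h1, h0, zero_mul])
  have ha' : (0 : ℤ) < a' := by
    exact_mod_cast Nat.pos_of_ne_zero fun h0 => h2 (by rw [← h1', h0, zero_mul])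
  have hdet := γ.det_coe
  rw [Matrix.det_fin_two] at hdet
  have e00 := congrFun (congrFun e 0) 0
  have e01 := congrFun (congrFun e 0) 1
  have e10 := congrFun (congrFun e 1) 0
  have e11 := congrFun (congrFun e 1) 1
  simp only [Matrix.mul_apply, Fin.sum_univ_two, Matrix.of_apply, Matrix.cons_val',
    Matrix.cons_val_zero, Matrix.cons_val_one, Matrix.cons_val_fin_one, mul_zero,
    add_zero] at e00 e01 e10 e11
  generalize (γ : M2) 0 0 = p at *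
  generalize (γ : M2) 0 1 = q at *
  generalize (γ : M2) 1 0 = r at *
  generalize (γ : M2) 1 1 = t at *
  have hr : r = 0 := (mul_eq_zero.1 e10.symm).resolve_right ha.ne'
  rw [hr, mul_zero, sub_zero] at hdet
  have hp0 : 0 < p := (mul_pos_iff_of_pos_right ha).1 (e00 ▸ ha')
  have hp : p = 1 := Int.eq_one_of_mul_eq_one_right hp0.le hdet
  have ht : t = 1 := by rwa [hp, one_mul] at hdet
  rw [hp, one_mul] at e00 e01
  rw [hr, ht, zero_mul, zero_add, one_mul] at e11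
  have k3 : (b : ℤ) < d := by exact_mod_cast h3
  have k4 : (b' : ℤ) < d' := by exact_mod_cast h3'
  have k5 : (0 : ℤ) ≤ b := Int.natCast_nonneg b
  have k6 : (0 : ℤ) ≤ b' := Int.natCast_nonneg b'
  have hq : q = 0 := by
    rcases lt_trichotomy q 0 with h0 | h0 | h0
    · nlinarith
    · exact h0
    · nlinarith
  rw [hq, zero_mul, add_zero] at e01
  rw [e00, e01, e11]

theorem exists_fact {n₁ n₂ : ℕ} (h₁ : 0 < n₁) (h₂ : 0 < n₂) (hc : n₁.Coprime n₂)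
    (h : η.det = n₁ * n₂) : ∃ ζ₁ ζ₂ : M2, ζ₁.det = n₁ ∧ ζ₂.det = n₂ ∧ η = ζ₂ * ζ₁ := by
  obtain ⟨γ, a, d, b, ha, -, had, hξ⟩ := xla_hnf (ξ := η) (by rw [h]; positivity)
  have had' : a * d = n₁ * n₂ := by
    rw [h] at had
    exact_mod_cast had
  obtain ⟨a₁, a₂, ⟨d₁, h1⟩, ⟨d₂, h2⟩, h3⟩ :=
    exists_dvd_and_dvd_of_dvd_mul (Dvd.intro d had' : a ∣ n₁ * n₂)
  have h4 : d = d₁ * d₂ := by
    apply Nat.eq_of_mul_eq_mul_left ha
    rw [had', h1, h2, h3]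
    ring
  have h5 : IsCoprime (a₂ : ℤ) (d₁ : ℤ) := Nat.isCoprime_iff_coprime.2
    (Nat.Coprime.coprime_dvd_left (Dvd.intro _ h2.symm)
      (Nat.Coprime.coprime_dvd_right (Dvd.intro_left _ h1.symm) hc.symm))
  obtain ⟨u, v, huv⟩ := h5
  refine ⟨!![(a₁ : ℤ), u * b; 0, (d₁ : ℤ)], (γ : M2) * !![(a₂ : ℤ), v * b; 0, (d₂ : ℤ)], ?_, ?_, ?_⟩
  · rw [Matrix.det_fin_two_of, h1]
    push_cast
    ring
  · rw [Matrix.det_mul, γ.det_coe, Matrix.det_fin_two_of, h2]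
    push_cast
    ring
  · rw [mul_assoc, hξ, Matrix.mul_fin_two, h3, h4]
    have e1 : ((a₁ * a₂ : ℕ) : ℤ) = a₂ * a₁ + v * b * 0 := by push_cast; ring
    have e2 : ((d₁ * d₂ : ℕ) : ℤ) = 0 * (u * b) + d₂ * d₁ := by push_cast; ring
    have e3 : (a₂ : ℤ) * (u * b) + v * b * d₁ = b := by linear_combination b * huv
    have e4 : (0 : ℤ) * a₁ + d₂ * 0 = 0 := by ring
    rw [e1, e2, e3, e4]

theorem card_bdd (hn : 0 < n) (K : Set V2) {H : ℝ} (T : Finset M2)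
    (h : ∀ η ∈ T, η.det = n ∧ Ker n η = K ∧ ∀ i j, |(η i j : ℝ)| ≤ H * Real.sqrt n) :
    (#T : ℝ) ≤ (4 * H ^ 2 + 1) ^ 4 := by
  rcases T.eq_empty_or_nonempty with rfl | ⟨η₀, h0⟩
  · rw [Finset.card_empty, Nat.cast_zero]
    positivity
  obtain ⟨d0, k0, b0⟩ := h η₀ h0
  have hn' : (0 : ℝ) < n := by exact_mod_cast hn
  have hsq : H * Real.sqrt n * (H * Real.sqrt n) = H ^ 2 * n := by
    have := Real.mul_self_sqrt hn'.le
    linear_combination H ^ 2 * this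
  let B : ℕ := ⌊2 * H ^ 2⌋₊
  have hB : (B : ℝ) ≤ 2 * H ^ 2 := Nat.floor_le (by positivity)
  let box : Finset (Fin 2 → Fin 2 → ℤ) :=
    Fintype.piFinset fun _ => Fintype.piFinset fun _ => Finset.Icc (-(B : ℤ)) B
  have hsub : T ⊆ box.image fun g => Matrix.of g * η₀ := by
    intro η hη
    obtain ⟨d1, k1, b1⟩ := h η hη
    obtain ⟨γ, hγ⟩ := exists_SL_of_Ker hn d0 d1 (by rw [k0, k1])
    refine Finset.mem_image.2 ⟨fun i j => γ i j, ?_, hγ.symm⟩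
    have h1 : η * η₀.adjugate = (n : ℤ) • (γ : M2) := by
      rw [hγ, mul_assoc, Matrix.mul_adjugate, d0, mul_smul_comm, mul_one]
    have h2 : ∀ i j, |((η₀.adjugate i j : ℤ) : ℝ)| ≤ H * Real.sqrt n := fun i j => by
      rw [Matrix.adjugate_fin_two]
      fin_cases i <;> fin_cases j
      · exact b0 1 1
      · simpa using b0 0 1
      · simpa using b0 1 0
      · exact b0 0 0
    have h3 : ∀ i k j, |(η i k : ℝ) * (η₀.adjugate k j : ℤ)| ≤ H ^ 2 * n := fun i k j => by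
      rw [abs_mul, ← hsq]
      exact mul_le_mul (b1 i k) (h2 k j) (abs_nonneg _) ((abs_nonneg _).trans (b1 i k))
    refine Fintype.mem_piFinset.2 fun i => Fintype.mem_piFinset.2 fun j => ?_
    have h4 := congrFun (congrFun h1 i) j
    rw [Matrix.mul_apply, Fin.sum_univ_two, Matrix.smul_apply, smul_eq_mul] at h4
    have h5 : (η i 0 : ℝ) * (η₀.adjugate 0 j : ℤ) + (η i 1 : ℝ) * (η₀.adjugate 1 j : ℤ) =
        n * (γ i j : ℤ) := by exact_mod_cast h4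
    have h6 : (n : ℝ) * |((γ i j : ℤ) : ℝ)| ≤ n * (2 * H ^ 2) := by
      rw [← abs_of_pos hn', ← abs_mul, ← h5, abs_of_pos hn']
      refine (abs_add_le _ _).trans ?_
      linarith [h3 i 0 j, h3 i 1 j]
    have h7 : (((γ i j).natAbs : ℕ) : ℝ) ≤ 2 * H ^ 2 := by
      rw [Nat.cast_natAbs, Int.cast_abs]
      exact le_of_mul_le_mul_left h6 hn'
    have h8 : (γ i j).natAbs ≤ B := Nat.le_floor h7
    rw [Finset.mem_Icc]
    omega
  have hc : box.card = (2 * B + 1) ^ 4 := by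
    have e : ((B : ℤ) + 1 - -(B : ℤ)).toNat = 2 * B + 1 := by omega
    simp only [box, Fintype.card_piFinset, Int.card_Icc, e, Finset.prod_const, Finset.card_univ,
      Fintype.card_fin]
    ring
  have h9 : T.card ≤ (2 * B + 1) ^ 4 :=
    hc ▸ (Finset.card_le_card hsub).trans Finset.card_image_le
  have h10 : (T.card : ℝ) ≤ (2 * B + 1) ^ 4 := by exact_mod_cast h9
  refine h10.trans (pow_le_pow_left₀ (by positivity) ?_ 4)
  linarith

theorem swap_Cg {N d : ℕ} {s : ℤ} {ρ η₁ : M2} (hn : 0 < n) (hd : 0 < d) (hζ : ζ.det = d)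
    (hρ : ρ.det = n) (h₁ : η₁.det = n) (hc : n.Coprime d) (hs : IsCoprime s (N * d : ℕ))
    (c : Cg (N * d) ρ s) (c₁ : Cg N η₁ s) (hk : ∀ v ∈ Ker n ρ, ζ *ᵥ v ∈ Ker n η₁) :
    ∃ γ ∈ CongruenceSubgroup.Gamma N, η₁ * ζ = (γ : M2) * (ζ * ρ) := by
  have hd' : (d : ℤ) ≠ 0 := by exact_mod_cast hd.ne'
  have hcz : IsCoprime (n : ℤ) (d : ℤ) := Nat.isCoprime_iff_coprime.2 hc
  rw [Nat.cast_mul] at hs
  obtain ⟨γ, hγ⟩ := exists_SL_of_Ker (n := n * d) (η := ζ * ρ) (η' := η₁ * ζ) (Nat.mul_pos hn hd)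
    (by rw [Matrix.det_mul, hζ, hρ, Nat.cast_mul, mul_comm])
    (by rw [Matrix.det_mul, hζ, h₁, Nat.cast_mul]) (by
      rw [Ker_inter hc, Ker_inter hc, Ker_cop (n := n) (by rw [hζ]; exact hcz.symm),
        Ker_Cg (c.mono (Dvd.intro_left N rfl)) hs.of_mul_right_right,
        Ker_cop (n := d) (by rw [h₁]; exact hcz)]
      exact fun v hv => ⟨mem_Ker_mul.2 (hk v hv.1), hv.2⟩)
  refine ⟨γ, ?_, hγ⟩
  obtain ⟨Y, hY⟩ := xla_cg.1 c
  have h1 : ζ * ρ = (s • (1 : M2) + (N : ℤ) • (ζ * Y * ζ.adjugate)) * ζ := by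
    rw [hY, mul_add, add_mul, smul_mul_assoc, smul_mul_assoc, mul_assoc _ ζ.adjugate,
      Matrix.adjugate_mul, hζ, Nat.cast_mul]
    simp only [mul_smul_comm, mul_one, one_mul, smul_smul]
  have h2 : η₁ = (γ : M2) * (s • (1 : M2) + (N : ℤ) • (ζ * Y * ζ.adjugate)) := by
    have h3 := congrArg (· * ζ.adjugate) hγ
    simp only [h1] at h3
    rw [mul_assoc, mul_assoc, mul_assoc, Matrix.mul_adjugate, hζ, mul_smul_comm, mul_smul_comm,
      mul_smul_comm, mul_one, mul_one] at h3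
    exact xla_cancel hd' h3
  exact Cg.gamma hs.of_mul_right_left (xla_cg.2 ⟨_, rfl⟩) (h2 ▸ c₁)

end Pool.Agent.EQ
end
end

-- part Pool.Agent.P.MP_ad7a55_nt.AtA
section

/-! The near-diagonal inequality on Y₀ × Y₀. -/

set_option autoImplicit false

noncomputable section

open MeasureTheory Topology Filter UpperHalfPlane
open scoped MatrixGroups ENNReal BoundedContinuousFunction

namespace Pool.Agent.EQ

/-- The positive part of the largest initial sum of `2 · 1_B - 1` of length at most `K`. -/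
def ata_M {W : Type} (T : W → W) (B : Set W) [DecidablePred (· ∈ B)] : ℕ → W → ℕ
  | 0, _ => 0
  | K + 1, w => (if w ∈ B then 2 else 0) + ata_M T B K (T w) - 1

theorem ata_M_mono {W : Type} (T : W → W) (B : Set W) [DecidablePred (· ∈ B)] (K : ℕ) :
    ∀ w, ata_M T B K w ≤ ata_M T B (K + 1) w := by
  induction K with
  | zero => intro w; simp [ata_M]
  | succ K ih =>
    intro w
    have := ih (T w)
    simp only [ata_M] at this ⊢
    omega

theorem ata_M_le {W : Type} (T : W → W) (B : Set W) [DecidablePred (· ∈ B)] (K : ℕ) :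
    ∀ w, ata_M T B K w ≤ K := by
  induction K with
  | zero => intro w; simp [ata_M]
  | succ K ih =>
    intro w
    have := ih (T w)
    simp only [ata_M]
    split_ifs <;> omega

theorem ata_M_card {W : Type} (T : W → W) (B : Set W) [DecidablePred (· ∈ B)] (N : ℕ) :
    ∀ w, 2 * ((Finset.range N).filter fun n => T^[n] w ∈ B).card ≤ N + ata_M T B N w := by
  induction N with
  | zero => intro w; simp
  | succ N ih =>
    intro w
    have h1 := ih (T w)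
    rw [Finset.card_filter] at h1 ⊢
    rw [Finset.sum_range_succ']
    change 2 * (∑ i ∈ Finset.range N, (if T^[i] (T w) ∈ B then 1 else 0) +
      (if w ∈ B then 1 else 0)) ≤ N + 1 + ((if w ∈ B then 2 else 0) + ata_M T B N (T w) - 1)
    split_ifs <;> omega

theorem ata_M_meas {W : Type} [MeasurableSpace W] {T : W → W} (hT : Measurable T) {B : Set W}
    [DecidablePred (· ∈ B)] (hB : MeasurableSet B) (K : ℕ) : Measurable (ata_M T B K) := by
  induction K with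
  | zero => exact measurable_const
  | succ K ih =>
    have h1 : Measurable fun w => (if w ∈ B then 2 else 0 : ℕ) :=
      Measurable.ite hB measurable_const measurable_const
    have h2 : Measurable fun w => ((if w ∈ B then 2 else 0 : ℕ), ata_M T B K (T w)) :=
      h1.prodMk (ih.comp hT)
    exact (measurable_of_countable fun z : ℕ × ℕ => z.1 + z.2 - 1).comp h2

/-- The maximal ergodic inequality for one transformation. -/
theorem maxZ {W : Type} [MeasurableSpace W] (σ : Measure W) [IsFiniteMeasure σ] {T : W → W}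
    (hT : MeasurePreserving T σ σ) {B : Set W} [DecidablePred (· ∈ B)] (hB : MeasurableSet B) :
    σ {w | ∃ N : ℕ, N < 2 * ((Finset.range N).filter fun n => T^[n] w ∈ B).card} ≤
      2 * σ B := by
  have hm := ata_M_meas hT.measurable hB
  have hm' : ∀ K, Measurable fun w => (ata_M T B K w : ℝ≥0∞) := fun K =>
    (measurable_of_countable fun z : ℕ => (z : ℝ≥0∞)).comp (hm K)
  have hE : ∀ K, MeasurableSet {w | 0 < ata_M T B K w} := fun K =>
    hm K (MeasurableSet.of_discrete (s := {z : ℕ | 0 < z}))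
  have key : ∀ K, σ {w | 0 < ata_M T B (K + 1) w} ≤ 2 * σ B := by
    intro K
    have h1 : ∀ w, (ata_M T B K w : ℝ≥0∞) +
        {w | 0 < ata_M T B (K + 1) w}.indicator (fun _ => (1 : ℝ≥0∞)) w ≤
        B.indicator (fun _ => (2 : ℝ≥0∞)) w + ata_M T B K (T w) := by
      intro w
      have h2 := ata_M_mono T B K w
      have h3 : ata_M T B K w + (if 0 < ata_M T B (K + 1) w then 1 else 0) ≤
          (if w ∈ B then 2 else 0) + ata_M T B K (T w) := by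
        simp only [ata_M] at h2 ⊢
        split_ifs at h2 ⊢ <;> omega
      have h4 : ((ata_M T B K w + (if 0 < ata_M T B (K + 1) w then 1 else 0) : ℕ) : ℝ≥0∞) ≤
          (((if w ∈ B then 2 else 0) + ata_M T B K (T w) : ℕ) : ℝ≥0∞) := by exact_mod_cast h3
      simp only [Set.indicator_apply, Set.mem_ofPred_eq]
      push_cast at h4
      exact h4
    have h5 := lintegral_mono (μ := σ) h1
    rw [lintegral_add_left (hm' K), lintegral_add_left (measurable_const.indicator hB),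
      lintegral_indicator_const (hE _), lintegral_indicator_const hB,
      hT.lintegral_comp (hm' K), one_mul, add_comm] at h5
    have h6 : ∫⁻ w, (ata_M T B K w : ℝ≥0∞) ∂σ ≠ ∞ := by
      refine ne_top_of_le_ne_top ?_ (lintegral_mono (g := fun _ => (K : ℝ≥0∞)) fun w => ?_)
      · rw [lintegral_const]
        exact ENNReal.mul_ne_top (by simp) (measure_ne_top _ _)
      · exact Nat.cast_le.2 (ata_M_le T B K w)
    exact ENNReal.le_of_add_le_add_right h6 h5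
  have hsub : {w | ∃ N : ℕ, N < 2 * ((Finset.range N).filter fun n => T^[n] w ∈ B).card} ⊆
      ⋃ K, {w | 0 < ata_M T B (K + 1) w} := by
    rintro w ⟨N, hN⟩
    have h1 := ata_M_card T B N w
    have h2 := ata_M_mono T B N w
    exact Set.mem_iUnion.2 ⟨N, show 0 < _ by omega⟩
  refine (measure_mono hsub).trans ?_
  have hmono : Monotone fun K => {w | 0 < ata_M T B (K + 1) w} :=
    monotone_nat_of_le_succ fun K w hw => lt_of_lt_of_le hw (ata_M_mono T B (K + 1) w)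
  rw [hmono.measure_iUnion]
  exact iSup_le key

/-- Distance to the identity. -/
def dev (δ : SL(2, ℝ)) : ℝ := ‖(fun i j => δ i j - (1 : SL(2, ℝ)) i j : Fin 2 → Fin 2 → ℝ)‖

theorem ata_cont_val : Continuous fun g : SL(2, ℝ) => (fun i j => g i j : Fin 2 → Fin 2 → ℝ) :=
  continuous_pi fun i => continuous_pi fun j =>
    (continuous_apply j).comp ((continuous_apply i).comp continuous_subtype_val)

theorem continuous_dev : Continuous dev :=
  (ata_cont_val.sub (continuous_const (y := fun i j => (1 : SL(2, ℝ)) i j))).norm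

theorem dev_eq_zero {δ : SL(2, ℝ)} : dev δ = 0 ↔ δ = 1 := by
  unfold dev
  rw [norm_eq_zero]
  constructor
  · intro h
    ext i j
    exact sub_eq_zero.1 (congrFun (congrFun h i) j)
  · rintro rfl
    ext i j
    simp

theorem isCompact_dev (R : ℝ) : IsCompact {δ | dev δ ≤ R} := by
  have h : IsClosedEmbedding fun g : SL(2, ℝ) => (fun i j => g i j : Fin 2 → Fin 2 → ℝ) :=
    Matrix.SpecialLinearGroup.isClosedEmbedding_val
  have h2 := h.isCompact_preimage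
    (isCompact_closedBall (fun i j => (1 : SL(2, ℝ)) i j : Fin 2 → Fin 2 → ℝ) R)
  convert h2 using 1
  ext δ
  simp only [Set.mem_ofPred_eq, Set.mem_preimage, mem_closedBall_iff_norm]
  rfl

theorem ata_dev_nonneg (δ : SL(2, ℝ)) : 0 ≤ dev δ := norm_nonneg _

/-- `v` is unipotent. -/
def Unip (v : SL(2, ℝ)) : Prop :=
  ((v : Matrix (Fin 2) (Fin 2) ℝ) - 1) * ((v : Matrix (Fin 2) (Fin 2) ℝ) - 1) = 0

/-- An annulus around the diagonal. -/
def Ann (Ω : Set YY) (r R : ℝ) : Set (YY × YY) :=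
  {w | w.1 ∈ Ω ∧ ∃ δ, r ≤ dev δ ∧ dev δ ≤ R ∧ w.2 = δ • w.1}

theorem isCompact_Ann {Ω : Set YY} (hΩ : IsCompact Ω) (r R : ℝ) : IsCompact (Ann Ω r R) := by
  have h1 : IsCompact ({δ | dev δ ≤ R} ∩ {δ | r ≤ dev δ}) :=
    (isCompact_dev R).inter_right (isClosed_le continuous_const continuous_dev)
  have hc : Continuous fun z : YY × SL(2, ℝ) => (z.1, z.2 • z.1) :=
    continuous_fst.prodMk (continuous_snd.smul continuous_fst)
  convert (hΩ.prod h1).image hc using 1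
  ext w
  constructor
  · rintro ⟨hw, δ, h2, h3, h4⟩
    exact ⟨(w.1, δ), ⟨hw, h3, h2⟩, Prod.ext rfl h4.symm⟩
  · rintro ⟨z, ⟨hz, h3, h2⟩, rfl⟩
    exact ⟨hz, z.2, h2, h3, rfl⟩

theorem isOpen_near (r : ℝ) : IsOpen {w : YY × YY | ∃ δ, dev δ < r ∧ w.2 = δ • w.1} := by
  have h1 : IsOpen {z : SL(2, ℝ) × SL(2, ℝ) | dev (z.2 * z.1⁻¹) < r} :=
    isOpen_lt (continuous_dev.comp (continuous_snd.mul continuous_fst.inv)) continuous_const
  have h2 : IsOpenMap (Prod.map (QuotientGroup.mk : SL(2, ℝ) → YY)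
      (QuotientGroup.mk : SL(2, ℝ) → YY)) :=
    QuotientGroup.isOpenMap_coe.prodMap QuotientGroup.isOpenMap_coe
  convert h2 _ h1 using 1
  ext ⟨y, y'⟩
  constructor
  · rintro ⟨δ, h3, h4⟩
    obtain ⟨g, rfl⟩ := QuotientGroup.mk_surjective y
    refine ⟨(g, δ * g), by simpa using h3, Prod.ext rfl ?_⟩
    exact h4.symm
  · rintro ⟨⟨g, h⟩, h3, h4⟩
    obtain ⟨rfl, rfl⟩ := Prod.mk.inj h4
    refine ⟨h * g⁻¹, h3, ?_⟩
    change (h : YY) = ((h * g⁻¹ * g : SL(2, ℝ)) : YY)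
    rw [inv_mul_cancel_right]

theorem ata_lift {Ω : Set YY} (hΩ : IsCompact Ω) :
    ∃ K : Set SL(2, ℝ), IsCompact K ∧ Ω ⊆ (QuotientGroup.mk : SL(2, ℝ) → YY) '' K := by
  refine hΩ.induction_on (p := fun s => ∃ K : Set SL(2, ℝ), IsCompact K ∧
    s ⊆ (QuotientGroup.mk : SL(2, ℝ) → YY) '' K) ⟨∅, isCompact_empty, by simp⟩ ?_ ?_ ?_
  · rintro s t hst ⟨K, hK, h⟩
    exact ⟨K, hK, hst.trans h⟩
  · rintro s t ⟨K, hK, h⟩ ⟨K', hK', h'⟩
    exact ⟨K ∪ K', hK.union hK', by rw [Set.image_union]; exact Set.union_subset_union h h'⟩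
  · intro y _
    obtain ⟨g, rfl⟩ := QuotientGroup.mk_surjective y
    obtain ⟨K, hK, hg⟩ := exists_compact_mem_nhds g
    exact ⟨_, mem_nhdsWithin_of_mem_nhds (QuotientGroup.isOpenMap_coe.image_mem_nhds hg),
      K, hK, subset_rfl⟩

/-- Injectivity radius on a compact set. -/
theorem exists_inj {Ω : Set YY} (hΩ : IsCompact Ω) : ∃ r : ℝ, 0 < r ∧ ∀ y ∈ Ω, ∀ δ δ' : SL(2, ℝ),
    dev δ ≤ r → dev δ' ≤ r → δ • y = δ' • y → δ = δ' := by
  obtain ⟨K, hK, hΩK⟩ := ata_lift hΩ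
  let P : Set (SL(2, ℝ) × SL(2, ℝ) × SL(2, ℝ)) := K ×ˢ {δ | dev δ ≤ 1} ×ˢ {δ | dev δ ≤ 1}
  have hP : IsCompact P := hK.prod ((isCompact_dev 1).prod (isCompact_dev 1))
  let f : SL(2, ℝ) × SL(2, ℝ) × SL(2, ℝ) → SL(2, ℝ) := fun z => (z.2.1 * z.1)⁻¹ * (z.2.2 * z.1)
  have hf : Continuous f :=
    (continuous_snd.fst.mul continuous_fst).inv.mul (continuous_snd.snd.mul continuous_fst)
  have hfin : ((f '' P ∩ Gam0) \ {1}).Finite := (Gam0_finite (hP.image hf)).sdiff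
  have hS : IsCompact (P ∩ f ⁻¹' ((f '' P ∩ Gam0) \ {1})) :=
    hP.inter_right (hfin.isClosed.preimage hf)
  have hg : Continuous fun z : SL(2, ℝ) × SL(2, ℝ) × SL(2, ℝ) => dev z.2.1 + dev z.2.2 :=
    (continuous_dev.comp continuous_snd.fst).add (continuous_dev.comp continuous_snd.snd)
  obtain ⟨m, hm, hm'⟩ := hS.exists_forall_le' hg.continuousOn (a := 0) (by
    rintro z ⟨-, -, hz⟩
    have h1 := ata_dev_nonneg z.2.1
    have h2 := ata_dev_nonneg z.2.2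
    by_contra h
    have h3 : z.2.1 = 1 := dev_eq_zero.1 (by linarith)
    have h4 : z.2.2 = 1 := dev_eq_zero.1 (by linarith)
    exact hz (by simp [f, h3, h4]))
  refine ⟨min 1 (m / 3), lt_min one_pos (by linarith), fun y hy δ δ' h1 h2 h3 => ?_⟩
  obtain ⟨g, hg, rfl⟩ := hΩK hy
  rw [le_min_iff] at h1 h2
  have h4 : f (g, δ, δ') ∈ Gam0 := QuotientGroup.eq.1 h3
  have h5 : (g, δ, δ') ∈ P := ⟨hg, h1.1, h2.1⟩
  by_contra hne
  have h6 := hm' (g, δ, δ') ⟨h5, ⟨⟨_, h5, rfl⟩, h4⟩, fun h => hne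
    (mul_right_cancel (inv_mul_eq_one.1 h))⟩
  simp only at h6
  linarith [h1.2, h2.2]

section quad

variable {E : Type} [NormedAddCommGroup E] [NormedSpace ℝ E]

theorem ata_coef {x y z w T : ℝ} (hT : 0 < T) (h1 : |x| ≤ 5 * T) (h2 : |y| ≤ 5 * T)
    (h3 : T ≤ |z|) (h4 : T ≤ |w|) : |x * y / (z * w)| ≤ 25 := by
  rw [abs_div, abs_mul, abs_mul, div_le_iff₀ (mul_pos (hT.trans_le h3) (hT.trans_le h4))]
  have h5 := mul_le_mul h1 h2 (abs_nonneg _) (by positivity)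
  have h6 := mul_le_mul h3 h4 hT.le (abs_nonneg _)
  nlinarith

theorem ata_lagr (A B D : E) {a b c x T r : ℝ} (hT : 0 < T) (hab : T ≤ |a - b|)
    (hac : T ≤ |a - c|) (hbc : T ≤ |b - c|) (hxa : |x - a| ≤ 5 * T) (hxb : |x - b| ≤ 5 * T)
    (hxc : |x - c| ≤ 5 * T) (ha : ‖A + a • B + a ^ 2 • D‖ ≤ r) (hb : ‖A + b • B + b ^ 2 • D‖ ≤ r)
    (hc : ‖A + c • B + c ^ 2 • D‖ ≤ r) : ‖A + x • B + x ^ 2 • D‖ ≤ 75 * r := by
  have h1 : a - b ≠ 0 := abs_pos.1 (hT.trans_le hab)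
  have h2 : a - c ≠ 0 := abs_pos.1 (hT.trans_le hac)
  have h3 : b - c ≠ 0 := abs_pos.1 (hT.trans_le hbc)
  have h4 : A + x • B + x ^ 2 • D =
      ((x - b) * (x - c) / ((a - b) * (a - c))) • (A + a • B + a ^ 2 • D) -
      ((x - a) * (x - c) / ((a - b) * (b - c))) • (A + b • B + b ^ 2 • D) +
      ((x - a) * (x - b) / ((a - c) * (b - c))) • (A + c • B + c ^ 2 • D) := by
    match_scalars <;> field_simp <;> ring
  have hr : 0 ≤ r := (norm_nonneg _).trans ha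
  have k : ∀ (t : ℝ) (e : E), |t| ≤ 25 → ‖e‖ ≤ r → ‖t • e‖ ≤ 25 * r := fun t e ht he => by
    rw [norm_smul, Real.norm_eq_abs]
    exact mul_le_mul ht he (norm_nonneg _) (by norm_num)
  have k1 := k _ _ (ata_coef hT hxb hxc hab hac) ha
  have k2 := k _ _ (ata_coef hT hxa hxc hab hbc) hb
  have k3 := k _ _ (ata_coef hT hxa hxb hac hbc) hc
  rw [h4]
  refine (norm_add_le _ _).trans ?_
  have := norm_sub_le (((x - b) * (x - c) / ((a - b) * (a - c))) • (A + a • B + a ^ 2 • D))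
    (((x - a) * (x - c) / ((a - b) * (b - c))) • (A + b • B + b ^ 2 • D))
  linarith

theorem ata_unb (A D : E) {B : E} (hB : B ≠ 0) (R : ℝ) :
    ∃ n : ℕ, R ≤ ‖A + (n : ℝ) • B + (n : ℝ) ^ 2 • D‖ := by
  by_contra! h
  have hB' : 0 < ‖B‖ := norm_pos_iff.2 hB
  obtain ⟨n, hn⟩ := exists_nat_gt (4 * R / ‖B‖)
  rw [div_lt_iff₀ hB'] at hn
  have h0 := h 0
  have h1 := h n
  have h2 := h (2 * n)
  have h4 : (2 * n : ℝ) • B = (4 : ℝ) • (A + (n : ℝ) • B + (n : ℝ) ^ 2 • D) -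
      (A + ((2 * n : ℕ) : ℝ) • B + ((2 * n : ℕ) : ℝ) ^ 2 • D) -
      (3 : ℝ) • (A + ((0 : ℕ) : ℝ) • B + ((0 : ℕ) : ℝ) ^ 2 • D) := by
    push_cast
    module
  have h5 := congrArg norm h4
  have h6 := norm_sub_le ((4 : ℝ) • (A + (n : ℝ) • B + (n : ℝ) ^ 2 • D) -
      (A + ((2 * n : ℕ) : ℝ) • B + ((2 * n : ℕ) : ℝ) ^ 2 • D))
      ((3 : ℝ) • (A + ((0 : ℕ) : ℝ) • B + ((0 : ℕ) : ℝ) ^ 2 • D))
  have h7 := norm_sub_le ((4 : ℝ) • (A + (n : ℝ) • B + (n : ℝ) ^ 2 • D))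
      (A + ((2 * n : ℕ) : ℝ) • B + ((2 * n : ℕ) : ℝ) ^ 2 • D)
  rw [norm_smul, Real.norm_of_nonneg (by positivity)] at h5
  rw [norm_smul, Real.norm_of_nonneg (by norm_num : (0 : ℝ) ≤ 3)] at h6
  rw [norm_smul, Real.norm_of_nonneg (by norm_num : (0 : ℝ) ≤ 4)] at h7
  linarith

theorem ata_gap {a b T : ℕ} (h : a % T = b % T) (hne : a ≠ b) : (T : ℝ) ≤ |(a : ℝ) - b| := by
  have h1 : (T : ℤ) ∣ (a : ℤ) - b := (Nat.modEq_iff_dvd.1 h.symm)
  have h2 : (a : ℤ) - b ≠ 0 := by omega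
  have h3 : (T : ℤ) ≤ |(a : ℤ) - b| := Int.le_of_dvd (abs_pos.2 h2) ((dvd_abs _ _).2 h1)
  exact_mod_cast h3

open Classical in
theorem ata_count (A D : E) {B : E} (hB : B ≠ 0) {c r : ℝ} (hc : 1 ≤ c) (q : ℕ → E)
    (hq : ∀ n : ℕ, q n = A + (n : ℝ) • B + (n : ℝ) ^ 2 • D) (h0 : ‖q 0‖ < r)
    (hs : ∀ n, ‖q (n + 1)‖ ≤ c * ‖q n‖) :
    ∃ N : ℕ, N < 2 * ((Finset.range N).filter
      fun n => r ≤ ‖q n‖ ∧ ‖q n‖ ≤ 100 * c ^ 5 * r).card := by
  have hr : 0 < r := (norm_nonneg _).trans_lt h0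
  have hex : ∃ T : ℕ, ∃ n ≤ 5 * T, 100 * r ≤ ‖q n‖ := by
    obtain ⟨n, hn⟩ := ata_unb A D hB (100 * r)
    exact ⟨n, n, by omega, by rwa [hq]⟩
  obtain ⟨x, hx, hx'⟩ := Nat.find_spec hex
  have hmin := fun m => Nat.find_min hex (m := m)
  generalize Nat.find hex = T at hx hx' hmin
  have hT : 0 < T := by
    rcases Nat.eq_zero_or_pos T with rfl | h
    · obtain rfl : x = 0 := by omega
      linarith
    · exact h
  have hpow : ∀ n k, ‖q (n + k)‖ ≤ c ^ k * ‖q n‖ := by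
    intro n k
    induction k with
    | zero => simp
    | succ k ih =>
      refine (hs (n + k)).trans ?_
      rw [pow_succ', mul_assoc]
      exact mul_le_mul_of_nonneg_left ih (by linarith)
  have hup : ∀ n < 5 * T, ‖q n‖ ≤ 100 * c ^ 5 * r := by
    intro n hn
    obtain ⟨m, k, hm, hk, rfl⟩ : ∃ m k, m ≤ 5 * (T - 1) ∧ k ≤ 5 ∧ n = m + k := by
      rcases le_total n (5 * (T - 1)) with h | h
      · exact ⟨n, 0, h, by omega, rfl⟩
      · exact ⟨5 * (T - 1), n - 5 * (T - 1), le_rfl, by omega, by omega⟩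
    have h1 : ‖q m‖ ≤ 100 * r := by
      by_contra! h
      exact hmin (T - 1) (by omega) ⟨m, hm, h.le⟩
    refine (hpow m k).trans ?_
    have h2 : c ^ k ≤ c ^ 5 := pow_le_pow_right₀ hc hk
    calc c ^ k * ‖q m‖ ≤ c ^ 5 * (100 * r) :=
          mul_le_mul h2 h1 (norm_nonneg _) (by positivity)
      _ = _ := by ring
  have hbad : ((Finset.range (5 * T)).filter fun n => ¬ r ≤ ‖q n‖).card ≤ T * 2 := by
    by_contra h
    rw [not_le] at h
    obtain ⟨y, -, hy⟩ := Finset.exists_lt_card_fiber_of_mul_lt_card_of_maps_to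
      (s := (Finset.range (5 * T)).filter fun n => ¬ r ≤ ‖q n‖) (t := Finset.range T)
      (f := fun n => n % T) (n := 2) (fun a _ => Finset.mem_range.2 (Nat.mod_lt _ hT))
      (by rwa [Finset.card_range])
    obtain ⟨a, ha, b, hb, d, hd, hab, had, hbd⟩ := Finset.two_lt_card.1 hy
    simp only [Finset.mem_filter, Finset.mem_range, not_le] at ha hb hd
    have hd5 : ∀ a : ℕ, a < 5 * T → |(x : ℝ) - a| ≤ 5 * T := fun a ha => by
      have e1 : (a : ℝ) ≤ 5 * T := by exact_mod_cast ha.le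
      have e2 : (x : ℝ) ≤ 5 * T := by exact_mod_cast hx
      have e3 : (0 : ℝ) ≤ a := Nat.cast_nonneg _
      have e4 : (0 : ℝ) ≤ x := Nat.cast_nonneg _
      rw [abs_le]
      constructor <;> linarith
    have := ata_lagr A B D (T := T) (x := x) (r := r) (by exact_mod_cast hT)
      (ata_gap (ha.2.trans hb.2.symm) hab) (ata_gap (ha.2.trans hd.2.symm) had)
      (ata_gap (hb.2.trans hd.2.symm) hbd) (hd5 a ha.1.1) (hd5 b hb.1.1) (hd5 d hd.1.1)
      (hq a ▸ ha.1.2.le) (hq b ▸ hb.1.2.le) (hq d ▸ hd.1.2.le)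
    rw [← hq] at this
    linarith
  have htot := Finset.card_filter_add_card_filter_not (s := Finset.range (5 * T))
    (fun n => r ≤ ‖q n‖)
  rw [Finset.card_range] at htot
  have hle : ((Finset.range (5 * T)).filter fun n => r ≤ ‖q n‖).card ≤
      ((Finset.range (5 * T)).filter fun n => r ≤ ‖q n‖ ∧ ‖q n‖ ≤ 100 * c ^ 5 * r).card := by
    refine Finset.card_le_card fun n hn => ?_
    rw [Finset.mem_filter] at hn ⊢
    exact ⟨hn.1, hn.2, hup n (Finset.mem_range.1 hn.1)⟩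
  exact ⟨5 * T, by omega⟩

end quad

/-- Matrices as functions. -/
def ata_φ : Matrix (Fin 2) (Fin 2) ℝ ≃ₗ[ℝ] (Fin 2 → Fin 2 → ℝ) := (Matrix.ofLinearEquiv ℝ).symm

theorem ata_dev (δ : SL(2, ℝ)) : dev δ = ‖ata_φ ((δ : Matrix (Fin 2) (Fin 2) ℝ) - 1)‖ := rfl

theorem ata_pow {v : SL(2, ℝ)} (hv : Unip v) (n : ℕ) :
    ((v ^ n : SL(2, ℝ)) : Matrix (Fin 2) (Fin 2) ℝ) =
      1 + (n : ℝ) • ((v : Matrix (Fin 2) (Fin 2) ℝ) - 1) := by
  unfold Unip at hv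
  induction n with
  | zero => simp
  | succ n ih =>
    rw [pow_succ, Matrix.SpecialLinearGroup.coe_mul, ih]
    generalize hM : (v : Matrix (Fin 2) (Fin 2) ℝ) - 1 = M at hv
    have : (v : Matrix (Fin 2) (Fin 2) ℝ) = 1 + M := by rw [← hM]; abel
    rw [this, add_mul, one_mul, smul_mul_assoc, mul_add, mul_one, hv]
    push_cast
    module

theorem ata_inv {v : SL(2, ℝ)} (hv : Unip v) (n : ℕ) :
    (((v ^ n)⁻¹ : SL(2, ℝ)) : Matrix (Fin 2) (Fin 2) ℝ) =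
      1 - (n : ℝ) • ((v : Matrix (Fin 2) (Fin 2) ℝ) - 1) := by
  have h1 : ((v ^ n : SL(2, ℝ)) : Matrix (Fin 2) (Fin 2) ℝ) *
      (1 - (n : ℝ) • ((v : Matrix (Fin 2) (Fin 2) ℝ) - 1)) = 1 := by
    rw [ata_pow hv]
    unfold Unip at hv
    generalize (v : Matrix (Fin 2) (Fin 2) ℝ) - 1 = M at hv
    rw [add_mul, one_mul, smul_mul_assoc, mul_sub, mul_one, mul_smul_comm, hv]
    module
  calc (((v ^ n)⁻¹ : SL(2, ℝ)) : Matrix (Fin 2) (Fin 2) ℝ)
      = (((v ^ n)⁻¹ : SL(2, ℝ)) : Matrix (Fin 2) (Fin 2) ℝ) *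
        (((v ^ n : SL(2, ℝ)) : Matrix (Fin 2) (Fin 2) ℝ) *
          (1 - (n : ℝ) • ((v : Matrix (Fin 2) (Fin 2) ℝ) - 1))) := by rw [h1, mul_one]
    _ = _ := by
      rw [← mul_assoc, ← Matrix.SpecialLinearGroup.coe_mul, inv_mul_cancel,
        Matrix.SpecialLinearGroup.coe_one, one_mul]

theorem ata_conj_val (g δ : SL(2, ℝ)) :
    ((g * δ * g⁻¹ : SL(2, ℝ)) : Matrix (Fin 2) (Fin 2) ℝ) - 1 =
      (g : Matrix (Fin 2) (Fin 2) ℝ) * ((δ : Matrix (Fin 2) (Fin 2) ℝ) - 1) *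
        ((g⁻¹ : SL(2, ℝ)) : Matrix (Fin 2) (Fin 2) ℝ) := by
  rw [mul_sub, sub_mul, mul_one, ← Matrix.SpecialLinearGroup.coe_mul g g⁻¹, mul_inv_cancel,
    Matrix.SpecialLinearGroup.coe_one, Matrix.SpecialLinearGroup.coe_mul,
    Matrix.SpecialLinearGroup.coe_mul]

theorem ata_step (v : SL(2, ℝ)) :
    ∃ c : ℝ, 1 ≤ c ∧ ∀ δ : SL(2, ℝ), dev (v * δ * v⁻¹) ≤ c * dev δ := by
  let L : (Fin 2 → Fin 2 → ℝ) →ₗ[ℝ] (Fin 2 → Fin 2 → ℝ) := ata_φ.toLinearMap ∘ₗ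
    (LinearMap.mulRight ℝ ((v⁻¹ : SL(2, ℝ)) : Matrix (Fin 2) (Fin 2) ℝ)) ∘ₗ
    (LinearMap.mulLeft ℝ (v : Matrix (Fin 2) (Fin 2) ℝ)) ∘ₗ ata_φ.symm.toLinearMap
  refine ⟨max 1 ‖LinearMap.toContinuousLinearMap L‖, le_max_left _ _, fun δ => ?_⟩
  have h1 := (LinearMap.toContinuousLinearMap L).le_opNorm
    (ata_φ ((δ : Matrix (Fin 2) (Fin 2) ℝ) - 1))
  rw [ata_dev, ata_dev, ata_conj_val]
  refine le_trans (le_of_eq ?_) (h1.trans
    (mul_le_mul_of_nonneg_right (le_max_right _ _) (norm_nonneg _)))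
  rfl

theorem near_diag {v : SL(2, ℝ)} (hv : Unip v) : ∃ C : ℝ, 1 ≤ C ∧
    ∀ (σ : Measure (YY × YY)) [IsFiniteMeasure σ], σ.map (fun w => (v • w.1, v • w.2)) = σ →
      ∀ Ω : Set YY, IsCompact Ω → ∀ r : ℝ, 0 < r → r ≤ 1 →
        σ {w | ∃ δ, dev δ < r ∧ δ * v ≠ v * δ ∧ w.2 = δ • w.1} ≤
          2 * (σ (Ann Ω r (C * r)) + σ (Ωᶜ ×ˢ Set.univ)) := by
  classical
  obtain ⟨c, hc, hstep⟩ := ata_step v
  refine ⟨100 * c ^ 5, by nlinarith [one_le_pow₀ (n := 5) hc], fun σ _ hσ Ω hΩ r _ _ => ?_⟩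
  let T : YY × YY → YY × YY := fun w => (v • w.1, v • w.2)
  have hTc : Continuous T :=
    (continuous_fst.const_smul v).prodMk (continuous_snd.const_smul v)
  have hT : MeasurePreserving T σ σ := ⟨hTc.measurable, hσ⟩
  have hit : ∀ (n : ℕ) (w : YY × YY), T^[n] w = (v ^ n • w.1, v ^ n • w.2) := by
    intro n w
    induction n with
    | zero => simp
    | succ n ih => rw [Function.iterate_succ_apply', ih, pow_succ', mul_smul, mul_smul]
  have hB : MeasurableSet (Ann Ω r (100 * c ^ 5 * r) ∪ Ωᶜ ×ˢ Set.univ) :=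
    (isCompact_Ann hΩ _ _).isClosed.measurableSet.union
      (hΩ.isClosed.measurableSet.compl.prod MeasurableSet.univ)
  refine le_trans (measure_mono ?_) ((maxZ σ hT hB).trans
    (mul_le_mul_right (measure_union_le _ _) 2))
  rintro w ⟨δ, h1, h2, h3⟩
  set M : Matrix (Fin 2) (Fin 2) ℝ := (v : Matrix (Fin 2) (Fin 2) ℝ) - 1 with hM
  set A : Matrix (Fin 2) (Fin 2) ℝ := (δ : Matrix (Fin 2) (Fin 2) ℝ) - 1 with hA
  have hne : ata_φ (M * A - A * M) ≠ 0 := by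
    rw [LinearEquiv.map_ne_zero_iff]
    intro h
    apply h2
    apply Subtype.ext
    have e : M * A - A * M = (v : Matrix (Fin 2) (Fin 2) ℝ) * δ -
        (δ : Matrix (Fin 2) (Fin 2) ℝ) * v := by
      rw [hM, hA]; noncomm_ring
    rw [e, sub_eq_zero] at h
    exact h.symm
  obtain ⟨N, hN⟩ := ata_count (ata_φ A) (ata_φ (-(M * A * M))) hne hc (r := r)
    (fun n => ata_φ (((v ^ n * δ * (v ^ n)⁻¹ : SL(2, ℝ)) : Matrix (Fin 2) (Fin 2) ℝ) - 1))
    (fun n => by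
      rw [← map_smul, ← map_smul, ← map_add, ← map_add, ata_conj_val, ata_pow hv, ata_inv hv,
        ← hM, ← hA]
      congr 1
      simp only [add_mul, mul_sub, one_mul, mul_one, smul_mul_assoc, mul_smul_comm]
      module)
    (by rw [← ata_dev]; simpa using h1)
    (fun n => by
      rw [← ata_dev, ← ata_dev]
      convert hstep (v ^ n * δ * (v ^ n)⁻¹) using 2
      rw [pow_succ']
      group)
  refine ⟨N, hN.trans_le (Nat.mul_le_mul_left 2 (Finset.card_le_card fun n hn => ?_))⟩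
  rw [Finset.mem_filter] at hn ⊢
  refine ⟨hn.1, ?_⟩
  rw [hit]
  by_cases hw : v ^ n • w.1 ∈ Ω
  · refine Or.inl ⟨hw, v ^ n * δ * (v ^ n)⁻¹, hn.2.1, hn.2.2, ?_⟩
    change v ^ n • w.2 = (v ^ n * δ * (v ^ n)⁻¹) • v ^ n • w.1
    rw [h3, mul_smul, mul_smul, inv_smul_smul]
  · exact Or.inr ⟨hw, trivial⟩

end Pool.Agent.EQ
end
end

-- part Pool.Agent.P.MP_ad7a55_nt.Beta2
section

/-! Normalised Haar measure on p-adic balls. -/

set_option autoImplicit false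

noncomputable section

open MeasureTheory Topology Filter UpperHalfPlane
open scoped MatrixGroups ENNReal BoundedContinuousFunction

namespace Pool.Agent.EQ

variable (p : ℕ) [Fact p.Prime]

theorem beta2_one_lt : (1 : ℝ) < p := by exact_mod_cast (Fact.out : p.Prime).one_lt

theorem beta2_pb_eq {c s : ℚ_[p]} {k : ℤ} (h : s ∈ pb p c k) : pb p c k = pb p s k :=
  IsUltrametricDist.closedBall_eq_of_mem h

theorem beta2_pb_mono (c : ℚ_[p]) {k l : ℤ} (h : k ≤ l) : pb p c k ⊆ pb p c l :=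
  Metric.closedBall_subset_closedBall (zpow_le_zpow_right₀ (beta2_one_lt p).le h)

theorem beta2_self (c : ℚ_[p]) (k : ℤ) : c ∈ pb p c k :=
  Metric.mem_closedBall_self (by positivity)

/-- Ultrametric covering lemma. -/
theorem bm_cover {l₀ r : ℤ} (E : Set ℚ_[p]) (c : ℝ≥0∞)
    (h : ∀ s ∈ E, ‖s‖ ≤ (p : ℝ) ^ r → ∃ l, l₀ ≤ l ∧ l ≤ r ∧
      bm p r (E ∩ pb p s l) ≤ c * bm p r (pb p s l)) : bm p r E ≤ c := by
  have hp := beta2_one_lt p
  let S : Set (Set ℚ_[p]) := {B | ∃ s l, B = pb p s l ∧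
    (l ≤ r ∧ bm p r (E ∩ pb p s l) ≤ c * bm p r (pb p s l)) ∧
    ∀ k, (k ≤ r ∧ bm p r (E ∩ pb p s k) ≤ c * bm p r (pb p s k)) → k ≤ l}
  have key : ∀ s l s' l', l ≤ l' →
      (∀ k, (k ≤ r ∧ bm p r (E ∩ pb p s k) ≤ c * bm p r (pb p s k)) → k ≤ l) →
      (l' ≤ r ∧ bm p r (E ∩ pb p s' l') ≤ c * bm p r (pb p s' l')) →
      ∀ z, z ∈ pb p s l → z ∈ pb p s' l' → pb p s l = pb p s' l' := by
    intro s l s' l' hl h1 h2 z hz hz'
    have e : pb p s l' = pb p s' l' :=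
      (beta2_pb_eq p (beta2_pb_mono p s hl hz)).trans (beta2_pb_eq p hz').symm
    obtain rfl : l = l' := le_antisymm hl (h1 l' (e ▸ h2))
    exact e
  have hd : S.Pairwise Disjoint := by
    rintro _ ⟨s, l, rfl, h1, h2⟩ _ ⟨s', l', rfl, h1', h2'⟩ hne
    refine Set.disjoint_left.2 fun z hz hz' => hne ?_
    rcases le_total l l' with hl | hl
    · exact key s l s' l' hl h2 h1' z hz hz'
    · exact (key s' l' s l hl h2' h1 z hz' hz).symm
  have hc : S.Countable := by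
    refine Set.PairwiseDisjoint.countable_of_isOpen (s := id) hd ?_ ?_
    · rintro _ ⟨s, l, rfl, -⟩
      exact IsUltrametricDist.isOpen_closedBall _ (by positivity)
    · rintro _ ⟨s, l, rfl, -⟩
      exact ⟨s, beta2_self p s l⟩
  calc bm p r E ≤ bm p r (⋃ B ∈ S, E ∩ B) := by
        refine measure_mono_ae ((bm_ae p r).mono fun s hs hE => ?_)
        obtain ⟨l, -, hl⟩ := h s hE hs
        obtain ⟨L, hL, hL'⟩ := Int.exists_greatest_of_bdd
          (P := fun k => k ≤ r ∧ bm p r (E ∩ pb p s k) ≤ c * bm p r (pb p s k))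
          ⟨r, fun z hz => hz.1⟩ ⟨l, hl⟩
        exact Set.mem_biUnion (show pb p s L ∈ S from ⟨s, L, rfl, hL, hL'⟩)
          ⟨hE, beta2_self p s L⟩
    _ ≤ ∑' B : S, bm p r (E ∩ B) := measure_biUnion_le _ hc _
    _ ≤ ∑' B : S, c * bm p r B := ENNReal.tsum_le_tsum (by
        rintro ⟨_, s, l, rfl, h1, -⟩
        exact h1.2)
    _ = c * bm p r (⋃₀ S) := by
        rw [ENNReal.tsum_mul_left, measure_sUnion hc hd]
        rintro _ ⟨s, l, rfl, -⟩
        exact measurableSet_pb p s l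
    _ ≤ c := mul_le_of_le_one_right' prob_le_one

theorem beta2_term {q u v d d' : ℚ_[p]} {R A B : ℝ} (hB : 0 < B) (hq : ‖q‖ ≤ R) (hu : ‖u‖ ≤ A)
    (hv : ‖v‖ ≤ A) (hd : B < ‖d‖) (hd' : B < ‖d'‖) :
    ‖q * (u * v) / (d * d')‖ ≤ R * (A * A / (B * B)) := by
  have hA := (norm_nonneg u).trans hu
  have hR := (norm_nonneg q).trans hq
  rw [norm_div, norm_mul, norm_mul, norm_mul, mul_div_assoc]
  gcongr

/-- Quadratic polynomials small at three separated points are bounded on the parent ball. -/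
theorem three_point {ι : Type} (a b c : ι → ℚ_[p]) (s₀ : ℚ_[p]) (l : ℤ) (e : ℕ) {R : ℝ}
    (hR : 0 ≤ R) :
    (∀ s ∈ pb p s₀ (l + 1), ∀ i, ‖a i + b i * s + c i * s ^ 2‖ ≤ R * (p : ℝ) ^ (2 * e + 2)) ∨
      ∃ s₁ s₂, ∀ s ∈ pb p s₀ l, (∀ i, ‖a i + b i * s + c i * s ^ 2‖ ≤ R) →
        s ∈ pb p s₁ (l - e) ∪ pb p s₂ (l - e) := by
  have hp := beta2_one_lt p
  have hp0 : (0 : ℝ) < p := by linarith
  refine or_iff_not_imp_right.2 fun hn s hs i => ?_
  push Not at hn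
  obtain ⟨x, hx, hx', -⟩ := hn 0 0
  obtain ⟨y, hy, hy', hyx⟩ := hn x x
  obtain ⟨z, hz, hz', hzx⟩ := hn x y
  simp only [Set.mem_union, mem_pb, not_or, not_le] at hyx hzx
  have hB : (0 : ℝ) < (p : ℝ) ^ (l - e) := by positivity
  have hA : ∀ w ∈ pb p s₀ l, ‖s - w‖ ≤ (p : ℝ) ^ (l + 1) := fun w hw =>
    (mem_pb p).1 (beta2_pb_eq p (beta2_pb_mono p s₀ (show l ≤ l + 1 by omega) hw) ▸ hs)
  have h1 : y - x ≠ 0 := norm_pos_iff.1 (hB.trans hyx.1)
  have h2 : z - x ≠ 0 := norm_pos_iff.1 (hB.trans hzx.1)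
  have h3 : z - y ≠ 0 := norm_pos_iff.1 (hB.trans hzx.2)
  have e1 : a i + b i * s + c i * s ^ 2 =
      (a i + b i * x + c i * x ^ 2) * ((s - y) * (s - z)) / ((y - x) * (z - x)) +
      (-((a i + b i * y + c i * y ^ 2) * ((s - x) * (s - z)) / ((y - x) * (z - y))) +
      (a i + b i * z + c i * z ^ 2) * ((s - x) * (s - y)) / ((z - x) * (z - y))) := by
    field_simp
    ring
  have e2 : (p : ℝ) ^ (2 * e + 2) =
      (p : ℝ) ^ (l + 1) * (p : ℝ) ^ (l + 1) / ((p : ℝ) ^ (l - e) * (p : ℝ) ^ (l - e)) := by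
    rw [← zpow_add₀ hp0.ne', ← zpow_add₀ hp0.ne', ← zpow_sub₀ hp0.ne', ← zpow_natCast]
    congr 1
    push_cast
    ring
  rw [e1, e2]
  refine (Padic.nonarchimedean _ _).trans (max_le ?_ ((Padic.nonarchimedean _ _).trans
    (max_le ?_ ?_)))
  · exact beta2_term p hB (hx' i) (hA y hy) (hA z hz) hyx.1 hzx.1
  · rw [norm_neg]
    exact beta2_term p hB (hy' i) (hA x hx) (hA z hz) hyx.1 hzx.2
  · exact beta2_term p hB (hz' i) (hA x hx) (hA y hy) hzx.1 hzx.2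

theorem coef_bound {a b c : ℚ_[p]} {l : ℤ} {R : ℝ}
    (h : ∀ s : ℚ_[p], ‖s‖ ≤ (p : ℝ) ^ (l + 1) → ‖a + b * s + c * s ^ 2‖ ≤ R) :
    ‖b‖ * (p : ℝ) ^ l ≤ R ∧ ‖c‖ * (p : ℝ) ^ (2 * l) ≤ R := by
  have hp := beta2_one_lt p
  have hp0 : (0 : ℝ) < p := by linarith
  have sub : ∀ {u v : ℚ_[p]}, ‖u‖ ≤ R → ‖v‖ ≤ R → ‖u - v‖ ≤ R := fun {u v} hu hv => by
    rw [sub_eq_add_neg]
    exact (Padic.nonarchimedean _ _).trans (max_le hu (by rwa [norm_neg]))
  have hpn : ‖(p : ℚ_[p])‖ = (p : ℝ)⁻¹ := Padic.norm_p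
  have hp1 : ‖(p : ℚ_[p])‖ ≤ 1 := Padic.norm_p_lt_one.le
  have hu : ‖(1 : ℚ_[p]) - p‖ = 1 := by
    rw [sub_eq_add_neg, Padic.add_eq_max_of_ne (by
      rw [norm_neg, norm_one]; exact Padic.norm_p_lt_one.ne'), norm_neg, norm_one]
    exact max_eq_left hp1
  have small : ∀ {u : ℚ_[p]}, ‖u‖ ≤ R → ‖p * u‖ ≤ R := fun {u} hu => by
    rw [norm_mul]
    exact (mul_le_of_le_one_left (norm_nonneg _) hp1).trans hu
  obtain ⟨x, hx⟩ : ∃ x : ℚ_[p], ‖x‖ = (p : ℝ) ^ (l + 1) :=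
    ⟨(p : ℚ_[p]) ^ (-(l + 1)), by rw [Padic.norm_p_zpow, neg_neg]⟩
  have h0 := h 0 (by rw [norm_zero]; positivity)
  have h1 := sub (h x hx.le) h0
  have h2 := sub (h (p * x) (by
    rw [norm_mul, ← hx]; exact mul_le_of_le_one_left (norm_nonneg _) hp1)) h0
  have h3 := sub h2 (small (small h1))
  have h4 := sub (small h1) h2
  constructor
  · rw [show _ - _ = b * (x * (p * ((1 : ℚ_[p]) - p))) by ring, norm_mul, norm_mul, norm_mul, hu,
      hx, hpn, zpow_add_one₀ hp0.ne'] at h3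
    convert h3 using 2
    field_simp
  · rw [show _ - _ = c * (x * x * (p * ((1 : ℚ_[p]) - p))) by ring, norm_mul, norm_mul, norm_mul,
      norm_mul, hu, hx, hpn, zpow_add_one₀ hp0.ne'] at h4
    refine le_trans ?_ h4
    gcongr
    rw [two_mul, zpow_add₀ hp0.ne']
    have : (0 : ℝ) < (p : ℝ) ^ l := by positivity
    field_simp
    exact hp.le

theorem exists_norm_eq {d : ℚ_[p]} (hd : d ≠ 0) : ∃ v : ℤ, ‖d‖ = (p : ℝ) ^ v :=
  ⟨_, Padic.norm_eq_zpow_neg_valuation hd⟩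

end Pool.Agent.EQ
end
end
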