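import Pool.Agent.K.MP_ad7a55_nt.C4
import Pool.Agent.K.MP_ad7a55_nt.C9
import Pool.Agent.K.MP_ad7a55_nt.C10
import Pool.Agent.K.MP_ad7a55_nt.C15

-- part Pool.Agent.P.MP_ad7a55_nt.Hom
section

/-! Rational correspondences between two points of X. -/

set_option autoImplicit false

noncomputable section

open MeasureTheory Topology Filter UpperHalfPlane
open scoped MatrixGroups ENNReal BoundedContinuousFunction

namespace Pool.Agent.EQ

variable (p : ℕ) [Fact p.Prime]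

/-- Real and `p`-adic matrices. -/
abbrev MM : Type := Matrix (Fin 2) (Fin 2) ℝ × Matrix (Fin 2) (Fin 2) ℚ_[p]

/-- `P` is the rational matrix `ξ` read in the frames `g, g'`. -/
def IsHom (g g' : GG p) (ξ : Matrix (Fin 2) (Fin 2) ℚ) (P : MM p) : Prop :=
  P.1 * (g.1 : Matrix (Fin 2) (Fin 2) ℝ) = (g'.1 : Matrix (Fin 2) (Fin 2) ℝ) * ξ.map (↑) ∧
    P.2 * (g.2 : Matrix (Fin 2) (Fin 2) ℚ_[p]) =
      (g'.2 : Matrix (Fin 2) (Fin 2) ℚ_[p]) * ξ.map (↑)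

/-- Rational maps from `x` to `y` with denominator `q` away from `p` and determinant `δ`. -/
def HomS (q : ℕ) (δ : ℚ) (x y : XX p) : Set (MM p) :=
  {P | ∃ g g' : GG p, (g : XX p) = x ∧ (g' : XX p) = y ∧ ∃ ξ : Matrix (Fin 2) (Fin 2) ℚ,
    (∀ i j, InZp p (q * ξ i j)) ∧ ξ.det = δ ∧ IsHom p g g' ξ P}

/-- The `p`-adic matrix along the flow. -/
def Pfl (d₁ d₂ s : ℚ_[p]) (P : Matrix (Fin 2) (Fin 2) ℚ_[p]) : Matrix (Fin 2) (Fin 2) ℚ_[p] :=
  !![1, d₂ * s; 0, 1] * P * !![1, -(d₁ * s); 0, 1]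

/-- The singular set: pairs related by a rational map that intertwines the two flows. -/
def NN (d₁ d₂ : ℚ_[p]) : Set (XX p × XX p) :=
  {w | ∃ q : ℕ, 0 < q ∧ ∃ δ : ℚ, δ ≠ 0 ∧ ∃ P ∈ HomS p q δ w.1 w.2,
    P.2 1 0 = 0 ∧ d₁ * P.2 0 0 = d₂ * P.2 1 1}

variable {p}

theorem Pfl_eq (d₁ d₂ s : ℚ_[p]) (P : Matrix (Fin 2) (Fin 2) ℚ_[p]) :
    Pfl p d₁ d₂ s P =
      !![P 0 0 + d₂ * P 1 0 * s + 0 * s ^ 2,
          P 0 1 + (d₂ * P 1 1 - d₁ * P 0 0) * s + (-(d₁ * d₂ * P 1 0)) * s ^ 2;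
        P 1 0 + 0 * s + 0 * s ^ 2, P 1 1 + (-(d₁ * P 1 0)) * s + 0 * s ^ 2] := by
  rw [Pfl]
  conv_lhs => rw [Matrix.eta_fin_two P]
  simp only [Matrix.mul_fin_two]
  ext i j
  fin_cases i <;> fin_cases j <;> simp <;> ring

theorem Pfl_add (d₁ d₂ s t : ℚ_[p]) (P : Matrix (Fin 2) (Fin 2) ℚ_[p]) :
    Pfl p d₁ d₂ (s + t) P = Pfl p d₁ d₂ s (Pfl p d₁ d₂ t P) := by
  simp only [Pfl_eq]
  ext i j
  fin_cases i <;> fin_cases j <;> simp <;> ring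

theorem hom_map_mul {F : Type} [Field F] [CharZero F] (A B : Matrix (Fin 2) (Fin 2) ℚ) :
    (A * B).map ((↑) : ℚ → F) = A.map (↑) * B.map (↑) :=
  Matrix.map_mul (f := Rat.castHom F)

theorem hom_map_det {F : Type} [Field F] [CharZero F] (A : Matrix (Fin 2) (Fin 2) ℚ) :
    (A.map ((↑) : ℚ → F)).det = A.det := by
  simp [Matrix.det_fin_two]

theorem hom_map_adj {F : Type} [Field F] [CharZero F] (A : Matrix (Fin 2) (Fin 2) ℚ) :
    A.adjugate.map ((↑) : ℚ → F) = (A.map (↑)).adjugate := by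
  ext i j
  fin_cases i <;> fin_cases j <;> simp [Matrix.adjugate_fin_two]

theorem hom_map_smul {F : Type} [Field F] [CharZero F] (c : ℚ) (A : Matrix (Fin 2) (Fin 2) ℚ) :
    (c • A).map ((↑) : ℚ → F) = (c : F) • A.map (↑) := by
  ext i j
  simp

theorem hom_move {F : Type} [Field F] {P ξ : Matrix (Fin 2) (Fin 2) F} {g g' : SL(2, F)}
    (h : P * (g : Matrix (Fin 2) (Fin 2) F) = (g' : Matrix (Fin 2) (Fin 2) F) * ξ)
    (γ γ' : SL(2, F)) :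
    P * ((g * γ : SL(2, F)) : Matrix (Fin 2) (Fin 2) F) =
      ((g' * γ' : SL(2, F)) : Matrix (Fin 2) (Fin 2) F) *
        (((γ'⁻¹ : SL(2, F)) : Matrix (Fin 2) (Fin 2) F) * ξ * (γ : Matrix (Fin 2) (Fin 2) F)) := by
  rw [← Matrix.mul_assoc, ← Matrix.mul_assoc, ← Matrix.SpecialLinearGroup.coe_mul,
    mul_inv_cancel_right, ← h, Matrix.SpecialLinearGroup.coe_mul, Matrix.mul_assoc]

theorem hom_left {F : Type} [Field F] {P ξ : Matrix (Fin 2) (Fin 2) F} {g g' : SL(2, F)}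
    (h : P * (g : Matrix (Fin 2) (Fin 2) F) = (g' : Matrix (Fin 2) (Fin 2) F) * ξ)
    (a b : SL(2, F)) :
    (b : Matrix (Fin 2) (Fin 2) F) * P * ((a⁻¹ : SL(2, F)) : Matrix (Fin 2) (Fin 2) F) *
        ((a * g : SL(2, F)) : Matrix (Fin 2) (Fin 2) F) =
      ((b * g' : SL(2, F)) : Matrix (Fin 2) (Fin 2) F) * ξ := by
  rw [Matrix.mul_assoc, ← Matrix.SpecialLinearGroup.coe_mul, inv_mul_cancel_left,
    Matrix.mul_assoc, h, Matrix.SpecialLinearGroup.coe_mul, Matrix.mul_assoc]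

theorem hom_adj {F : Type} [Field F] {P ξ : Matrix (Fin 2) (Fin 2) F} {g g' : SL(2, F)}
    (h : P * (g : Matrix (Fin 2) (Fin 2) F) = (g' : Matrix (Fin 2) (Fin 2) F) * ξ) :
    P.adjugate * (g' : Matrix (Fin 2) (Fin 2) F) = (g : Matrix (Fin 2) (Fin 2) F) * ξ.adjugate := by
  have h1 := congrArg Matrix.adjugate h
  rw [Matrix.adjugate_mul_distrib, Matrix.adjugate_mul_distrib] at h1
  have h2 : (g : Matrix (Fin 2) (Fin 2) F) * (g : Matrix (Fin 2) (Fin 2) F).adjugate = 1 := by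
    rw [Matrix.mul_adjugate, g.det_coe, one_smul]
  have h3 : (g' : Matrix (Fin 2) (Fin 2) F).adjugate * (g' : Matrix (Fin 2) (Fin 2) F) = 1 := by
    rw [Matrix.adjugate_mul, g'.det_coe, one_smul]
  calc P.adjugate * (g' : Matrix (Fin 2) (Fin 2) F)
      = (g : Matrix (Fin 2) (Fin 2) F) * ((g : Matrix (Fin 2) (Fin 2) F).adjugate * P.adjugate) *
        (g' : Matrix (Fin 2) (Fin 2) F) := by rw [← Matrix.mul_assoc, h2, Matrix.one_mul]
    _ = _ := by rw [h1, Matrix.mul_assoc, Matrix.mul_assoc, h3, Matrix.mul_one]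

theorem hom_quot {F : Type} [Field F] {P P' ξ ξ' : Matrix (Fin 2) (Fin 2) F} {g g' : SL(2, F)}
    (h : P * (g : Matrix (Fin 2) (Fin 2) F) = (g' : Matrix (Fin 2) (Fin 2) F) * ξ)
    (h' : P' * (g : Matrix (Fin 2) (Fin 2) F) = (g' : Matrix (Fin 2) (Fin 2) F) * ξ') (c : F) :
    c • (P'.adjugate * P) * (g : Matrix (Fin 2) (Fin 2) F) =
      (g : Matrix (Fin 2) (Fin 2) F) * c • (ξ'.adjugate * ξ) := by
  rw [Matrix.smul_mul, Matrix.mul_smul, Matrix.mul_assoc, h, ← Matrix.mul_assoc, hom_adj h',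
    Matrix.mul_assoc]

theorem hom_det {F : Type} [Field F] {P ξ : Matrix (Fin 2) (Fin 2) F} {g g' : SL(2, F)}
    (h : P * (g : Matrix (Fin 2) (Fin 2) F) = (g' : Matrix (Fin 2) (Fin 2) F) * ξ) :
    P.det = ξ.det := by
  simpa using congrArg Matrix.det h

theorem hom_bd_mul {F : Type} [NormedField F] {R S : ℝ} {P Q : Matrix (Fin 2) (Fin 2) F}
    (hP : Bd R P) (hQ : Bd S Q) : Bd (2 * (R * S)) (P * Q) := fun i j => by
  have hR : 0 ≤ R := (norm_nonneg _).trans (hP 0 0)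
  rw [Matrix.mul_apply, Fin.sum_univ_two, two_mul]
  refine (norm_add_le _ _).trans (add_le_add ?_ ?_) <;> rw [norm_mul] <;>
    exact mul_le_mul (hP _ _) (hQ _ _) (norm_nonneg _) hR

theorem hom_bd_mulP {R S : ℝ} {P Q : Matrix (Fin 2) (Fin 2) ℚ_[p]}
    (hP : Bd R P) (hQ : Bd S Q) : Bd (R * S) (P * Q) := fun i j => by
  have hR : 0 ≤ R := (norm_nonneg _).trans (hP 0 0)
  rw [Matrix.mul_apply, Fin.sum_univ_two]
  refine (Padic.nonarchimedean _ _).trans (max_le ?_ ?_) <;> rw [norm_mul] <;>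
    exact mul_le_mul (hP _ _) (hQ _ _) (norm_nonneg _) hR

theorem hom_bd_inv {F : Type} [NormedField F] {R : ℝ} {g : SL(2, F)}
    (h : Bd R (g : Matrix (Fin 2) (Fin 2) F)) :
    Bd R ((g⁻¹ : SL(2, F)) : Matrix (Fin 2) (Fin 2) F) := fun i j => by
  rw [Matrix.SpecialLinearGroup.SL2_inv_expl]
  fin_cases i <;> fin_cases j
  · simpa using h 1 1
  · simpa using h 0 1
  · simpa using h 1 0
  · simpa using h 0 0

theorem hom_bd_cpt {F : Type} [NormedField F] {C : Set SL(2, F)} (hC : IsCompact C) :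
    ∃ M : ℝ, ∀ g ∈ C, Bd M (g : Matrix (Fin 2) (Fin 2) F) := by
  have hc : Continuous fun g : SL(2, F) => (fun i j => g i j : Fin 2 → Fin 2 → F) :=
    continuous_pi fun i => continuous_pi fun j =>
      (continuous_apply j).comp ((continuous_apply i).comp continuous_subtype_val)
  obtain ⟨M, hM⟩ := (hC.image hc).isBounded.exists_norm_le
  exact ⟨M, fun g hg i j => (norm_entry_le _ i j).trans (hM _ ⟨_, hg, rfl⟩)⟩

theorem hom_bd_of {F : Type} [NormedField F] {P ξ : Matrix (Fin 2) (Fin 2) F} {g g' : SL(2, F)}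
    (h : P * (g : Matrix (Fin 2) (Fin 2) F) = (g' : Matrix (Fin 2) (Fin 2) F) * ξ) {R M : ℝ}
    (hP : Bd R P) (hg : Bd M (g : Matrix (Fin 2) (Fin 2) F))
    (hg' : Bd M (g' : Matrix (Fin 2) (Fin 2) F)) : Bd (2 * (M * (2 * (R * M)))) ξ := by
  have h1 := hom_bd_mul (hom_bd_inv hg') (hom_bd_mul hP hg)
  rwa [h, ← Matrix.mul_assoc, ← Matrix.SpecialLinearGroup.coe_mul, inv_mul_cancel,
    Matrix.SpecialLinearGroup.coe_one, Matrix.one_mul] at h1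

theorem hom_Pfl (d₁ d₂ s : ℚ_[p]) (P : Matrix (Fin 2) (Fin 2) ℚ_[p]) :
    Pfl p d₁ d₂ s P = (uu (d₂ * s) : Matrix (Fin 2) (Fin 2) ℚ_[p]) * P *
      (uu (-(d₁ * s)) : Matrix (Fin 2) (Fin 2) ℚ_[p]) := rfl

theorem HomS.rep {q : ℕ} {δ : ℚ} {x y : XX p} {P : MM p} (h : P ∈ HomS p q δ x y) {g g' : GG p}
    (hg : (g : XX p) = x) (hg' : (g' : XX p) = y) : ∃ ξ : Matrix (Fin 2) (Fin 2) ℚ,
      (∀ i j, InZp p (q * ξ i j)) ∧ ξ.det = δ ∧ IsHom p g g' ξ P := by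
  obtain ⟨g₀, g₀', hg₀, hg₀', ξ, hξ, hδ, h1, h2⟩ := h
  obtain ⟨γ, hγ, hγe⟩ : g₀⁻¹ * g ∈ Gam p := QuotientGroup.eq.1 (hg₀.trans hg.symm)
  obtain ⟨γ', hγ', hγe'⟩ : g₀'⁻¹ * g' ∈ Gam p := QuotientGroup.eq.1 (hg₀'.trans hg'.symm)
  obtain rfl : g = g₀ * emb p γ := by rw [hγe, mul_inv_cancel_left]
  obtain rfl : g' = g₀' * emb p γ' := by rw [hγe', mul_inv_cancel_left]
  have hi := (GamQ p).inv_mem hγ'
  refine ⟨((γ'⁻¹ : SL(2, ℚ)) : Matrix (Fin 2) (Fin 2) ℚ) * ξ * (γ : Matrix (Fin 2) (Fin 2) ℚ),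
    fun i j => ?_, by
      rw [Matrix.det_mul, Matrix.det_mul, γ.det_coe, (γ'⁻¹).det_coe, one_mul, mul_one, hδ], ?_, ?_⟩
  · have := ((((hi i 0).mul (hξ 0 0)).add ((hi i 1).mul (hξ 1 0))).mul (hγ 0 j)).add
      ((((hi i 0).mul (hξ 0 1)).add ((hi i 1).mul (hξ 1 1))).mul (hγ 1 j))
    convert this using 1
    simp only [Matrix.mul_apply, Fin.sum_univ_two]
    ring
  · rw [hom_map_mul, hom_map_mul]
    have := hom_move h1 (emb p γ).1 (emb p γ').1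
    rw [← Prod.fst_inv, ← map_inv] at this
    exact this
  · rw [hom_map_mul, hom_map_mul]
    have := hom_move h2 (emb p γ).2 (emb p γ').2
    rw [← Prod.snd_inv, ← map_inv] at this
    exact this

theorem HomS.det {q : ℕ} {δ : ℚ} {x y : XX p} {P : MM p} (h : P ∈ HomS p q δ x y) :
    P.1.det = δ ∧ P.2.det = δ := by
  obtain ⟨g, g', -, -, ξ, -, rfl, h1, h2⟩ := h
  exact ⟨by rw [hom_det h1, hom_map_det], by rw [hom_det h2, hom_map_det]⟩

theorem HomS.smul {q : ℕ} {δ : ℚ} {x y : XX p} {P : MM p} (h : P ∈ HomS p q δ x y) (a b : GG p) :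
    (((b.1 : Matrix (Fin 2) (Fin 2) ℝ) * P.1 * ((a.1⁻¹ : SL(2, ℝ)) : Matrix (Fin 2) (Fin 2) ℝ),
      (b.2 : Matrix (Fin 2) (Fin 2) ℚ_[p]) * P.2 *
        ((a.2⁻¹ : SL(2, ℚ_[p])) : Matrix (Fin 2) (Fin 2) ℚ_[p])) : MM p) ∈
      HomS p q δ (a • x) (b • y) := by
  obtain ⟨g, g', rfl, rfl, ξ, hξ, hδ, h1, h2⟩ := h
  exact ⟨a * g, b * g', rfl, rfl, ξ, hξ, hδ, hom_left h1 a.1 b.1, hom_left h2 a.2 b.2⟩

theorem HomS.flow {q : ℕ} {δ : ℚ} {x y : XX p} {P : MM p} (h : P ∈ HomS p q δ x y)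
    (d₁ d₂ s : ℚ_[p]) :
    ((P.1, Pfl p d₁ d₂ s P.2) : MM p) ∈ HomS p q δ (uP p (d₁ * s) • x) (uP p (d₂ * s) • y) := by
  have := HomS.smul h (uP p (d₁ * s)) (uP p (d₂ * s))
  simp only [uP, uu_inv, inv_one, Matrix.SpecialLinearGroup.coe_one, Matrix.one_mul,
    Matrix.mul_one] at this
  exact this

/-- The quotient of two maps with the same determinant. -/
theorem HomS.quot {q : ℕ} {δ : ℚ} (hδ : δ ≠ 0) {x y : XX p} {P P' : MM p}
    (h : P ∈ HomS p q δ x y) (h' : P' ∈ HomS p q δ x y) :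
    (((δ : ℝ)⁻¹ • (P'.1.adjugate * P.1), (δ : ℚ_[p])⁻¹ • (P'.2.adjugate * P.2)) : MM p) ∈
      HomS p (q * q * δ.num.natAbs) 1 x x := by
  obtain ⟨g, g', hg, hg', ξ, hξ, hd, h1, h2⟩ := h
  obtain ⟨ξ', hξ', hd', h1', h2'⟩ := HomS.rep h' hg hg'
  refine ⟨g, g, hg, hg, δ⁻¹ • (ξ'.adjugate * ξ), fun i j => ?_, ?_, ?_, ?_⟩
  · have ha : ∀ i j, InZp p (q * ξ'.adjugate i j) := fun i j => by
      rw [Matrix.adjugate_fin_two]
      fin_cases i <;> fin_cases j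
      · simpa using hξ' 1 1
      · simpa using (hξ' 0 1).neg
      · simpa using (hξ' 1 0).neg
      · simpa using hξ' 0 0
    have hn : InZp p ((δ.num.natAbs : ℚ) * δ⁻¹) := by
      have h3 : (δ.num : ℚ) * δ⁻¹ = (δ.den : ℤ) := by
        rw [mul_inv_eq_iff_eq_mul₀ hδ, Int.cast_natCast, Rat.den_mul_eq_num]
      rw [Nat.cast_natAbs]
      rcases abs_choice δ.num with h4 | h4 <;> rw [h4]
      · rw [h3]; exact inZp_int p _
      · rw [Int.cast_neg, neg_mul, h3]; exact (inZp_int p _).neg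
    have := hn.mul (((ha i 0).mul (hξ 0 j)).add ((ha i 1).mul (hξ 1 j)))
    convert this using 1
    simp only [Matrix.smul_apply, Matrix.mul_apply, Fin.sum_univ_two, smul_eq_mul, Nat.cast_mul]
    ring
  · rw [Matrix.det_smul, Matrix.det_mul, Matrix.det_adjugate, hd, hd']
    simp only [Fintype.card_fin, Nat.add_one_sub_one, pow_one]
    field_simp
  · rw [hom_map_smul, hom_map_mul, hom_map_adj, Rat.cast_inv]
    exact hom_quot h1 h1' _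
  · rw [hom_map_smul, hom_map_mul, hom_map_adj, Rat.cast_inv]
    exact hom_quot h2 h2' _

/-- Over compact sets of frames only finitely many rational matrices give bounded maps. -/
theorem finite_hom {q : ℕ} (hq : 0 < q) (R : ℝ) {C : Set (GG p)} (hC : IsCompact C) :
    {ξ : Matrix (Fin 2) (Fin 2) ℚ | (∀ i j, InZp p (q * ξ i j)) ∧ ∃ g ∈ C, ∃ g' ∈ C, ∃ P : MM p,
      IsHom p g g' ξ P ∧ Bd R P.1 ∧ Bd R P.2}.Finite := by
  obtain ⟨M₁, h₁⟩ := hom_bd_cpt (hC.image continuous_fst)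
  obtain ⟨M₂, h₂⟩ := hom_bd_cpt (hC.image continuous_snd)
  have hf := finite_bounded p q hq (max (2 * (M₁ * (2 * (R * M₁)))) (2 * (M₂ * (2 * (R * M₂)))))
  refine (Set.Finite.pi' fun _ : Fin 2 => Set.Finite.pi' fun _ : Fin 2 => hf).subset ?_
  rintro ξ ⟨hξ, g, hg, g', hg', P, hP, hR, hR'⟩ i j
  exact ⟨hξ i j,
    le_max_of_le_left (hom_bd_of hP.1 hR (h₁ _ ⟨g, hg, rfl⟩) (h₁ _ ⟨g', hg', rfl⟩) i j),
    le_max_of_le_right (hom_bd_of hP.2 hR' (h₂ _ ⟨g, hg, rfl⟩) (h₂ _ ⟨g', hg', rfl⟩) i j)⟩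

/-- The norm bound is invariant under `K`. -/
theorem Bd.K {R : ℝ} {P : Matrix (Fin 2) (Fin 2) ℚ_[p]} (h : Bd R P) {a b : SL(2, ℚ_[p])}
    (ha : a ∈ Kp p) (hb : b ∈ Kp p) :
    Bd R ((a : Matrix (Fin 2) (Fin 2) ℚ_[p]) * P * (b : Matrix (Fin 2) (Fin 2) ℚ_[p])) := by
  have := hom_bd_mulP (hom_bd_mulP (show Bd 1 (a : Matrix (Fin 2) (Fin 2) ℚ_[p]) from ha) h)
    (show Bd 1 (b : Matrix (Fin 2) (Fin 2) ℚ_[p]) from hb)
  rwa [one_mul, mul_one] at this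

/-- A small change of the speeds does not change the bound. -/
theorem Bd.speed {R : ℝ} {P : Matrix (Fin 2) (Fin 2) ℚ_[p]} {d₁ d₂ e₁ e₂ s : ℚ_[p]}
    (h : Bd R (Pfl p d₁ d₂ s P)) (h1 : ‖(e₁ - d₁) * s‖ ≤ 1) (h2 : ‖(e₂ - d₂) * s‖ ≤ 1) :
    Bd R (Pfl p e₁ e₂ s P) := by
  have h3 := h.K (uu_mem_Kp p h2) (uu_mem_Kp p (s := -((e₁ - d₁) * s)) (by rwa [norm_neg]))
  have e2 : e₂ * s = (e₂ - d₂) * s + d₂ * s := by ring
  have e1 : -(e₁ * s) = -(d₁ * s) + -((e₁ - d₁) * s) := by ring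
  rw [hom_Pfl, e1, e2, uu_add, uu_add]
  rw [hom_Pfl] at h3
  simpa only [Matrix.SpecialLinearGroup.coe_mul, Matrix.mul_assoc] using h3

theorem hom_conj (d : ℚ_[p]) (r : ℝ) : ∀ᶠ a : SL(2, ℚ_[p]) in 𝓝 1, ∀ s : ℚ_[p], ‖s‖ ≤ r →
    uu (d * s) * a * uu (-(d * s)) ∈ Kp p := by
  have h := (isCompact_closedBall (0 : ℚ_[p]) r).eventually_forall_of_forall_eventually
    (x₀ := (1 : SL(2, ℚ_[p]))) (P := fun a s => uu (d * s) * a * uu (-(d * s)) ∈ Kp p)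
    fun s _ => by
      have hc : Continuous fun z : SL(2, ℚ_[p]) × ℚ_[p] =>
          uu (d * z.2) * z.1 * uu (-(d * z.2)) :=
        ((continuous_uu.comp (continuous_const.mul continuous_snd)).mul continuous_fst).mul
          (continuous_uu.comp (continuous_const.mul continuous_snd).neg)
      refine ((Kp_open p).preimage hc).mem_nhds ?_
      change uu (d * s) * 1 * uu (-(d * s)) ∈ Kp p
      rw [mul_one, ← uu_add, add_neg_cancel, uu_zero]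
      exact (Kp p).one_mem
  exact h.mono fun a ha s hs => ha s (mem_closedBall_zero_iff.2 hs)

/-- The set where a bounded map stays bounded along the ball of radius `p^l` is open. -/
theorem isOpen_hom (q : ℕ) (δ : ℚ) {R : ℝ} (hR : 0 < R) (d₁ d₂ : ℚ_[p]) (l : ℤ) :
    IsOpen {w : XX p × XX p | ∃ P ∈ HomS p q δ w.1 w.2, (∀ i j, |P.1 i j| < R) ∧
      ∀ s : ℚ_[p], ‖s‖ ≤ (p : ℝ) ^ l → Bd R (Pfl p d₁ d₂ s P.2)} := by
  have _h := hR
  rw [isOpen_iff_mem_nhds]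
  rintro ⟨x, y⟩ ⟨P, hP, h1, h2⟩
  have hv : Continuous fun g : SL(2, ℝ) => (g : Matrix (Fin 2) (Fin 2) ℝ) :=
    continuous_subtype_val
  have hc : Continuous fun z : GG p × GG p => (z.2.1 : Matrix (Fin 2) (Fin 2) ℝ) * P.1 *
      ((z.1.1⁻¹ : SL(2, ℝ)) : Matrix (Fin 2) (Fin 2) ℝ) :=
    ((hv.comp continuous_snd.fst).mul continuous_const).mul (hv.comp continuous_fst.fst.inv)
  have e1 : ∀ᶠ z : GG p × GG p in 𝓝 (1, 1), ∀ i j, |((z.2.1 : Matrix (Fin 2) (Fin 2) ℝ) * P.1 *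
      ((z.1.1⁻¹ : SL(2, ℝ)) : Matrix (Fin 2) (Fin 2) ℝ)) i j| < R := by
    refine eventually_all.2 fun i => eventually_all.2 fun j => ?_
    refine (hc.matrix_elem i j).abs.continuousAt.eventually_lt continuousAt_const ?_
    simpa using h1 i j
  have t2 : Tendsto (fun z : GG p × GG p => z.2.2) (𝓝 (1, 1)) (𝓝 1) :=
    continuous_snd.snd.tendsto' _ _ rfl
  have t1 : Tendsto (fun z : GG p × GG p => z.1.2⁻¹) (𝓝 (1, 1)) (𝓝 1) :=
    continuous_fst.snd.inv.tendsto' _ _ inv_one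
  have e := e1.and ((t2.eventually (hom_conj d₂ ((p : ℝ) ^ l))).and
    (t1.eventually (hom_conj d₁ ((p : ℝ) ^ l))))
  obtain ⟨V, hV, W, hW, hVW⟩ := mem_nhds_prod_iff.1 e
  refine mem_of_superset (prod_mem_nhds (exists_nhds_smul p x hV) (exists_nhds_smul p y hW)) ?_
  rintro ⟨_, _⟩ ⟨⟨a, ha, rfl⟩, ⟨b, hb, rfl⟩⟩
  obtain ⟨k1, k2, k3⟩ := hVW (show (a, b) ∈ V ×ˢ W from ⟨ha, hb⟩)
  refine ⟨_, HomS.smul hP a b, k1, fun s hs => ?_⟩
  have h3 := (h2 s hs).K (k2 s hs) (k3 s hs)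
  have h4 : ∀ t : ℚ_[p], uu (-t) * uu t = 1 := fun t => by rw [← uu_add, neg_add_cancel, uu_zero]
  rw [hom_Pfl, ← Matrix.mul_assoc, ← Matrix.mul_assoc, ← Matrix.SpecialLinearGroup.coe_mul,
    mul_assoc _ (uu _) (uu _), h4, mul_one, Matrix.mul_assoc _ _ (_ : SL(2, ℚ_[p])).1,
    ← Matrix.SpecialLinearGroup.coe_mul, ← mul_assoc, ← mul_assoc, h4, one_mul] at h3
  rw [hom_Pfl]
  simpa only [Matrix.SpecialLinearGroup.coe_mul, Matrix.mul_assoc] using h3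

end Pool.Agent.EQ
end
end

-- part Pool.Agent.P.MP_ad7a55_nt.Lat
section

/-! Lattices in ℂ. -/

set_option autoImplicit false

noncomputable section

open MeasureTheory Topology Filter UpperHalfPlane
open scoped MatrixGroups ENNReal BoundedContinuousFunction

namespace Pool.Agent.EQ

/-- Subgroups of `ℂ`. -/
abbrev Lt : Type := Submodule ℤ ℂ

/-- The subgroup generated by one element. -/
def pr (c : ℂ) : Lt := Submodule.span ℤ {c}

/-- The subgroup generated by two elements. -/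
def sp (a b : ℂ) : Lt := Submodule.span ℤ {a, b}

/-- `Λ` is a lattice. -/
def IsLat (Λ : Lt) : Prop := ∃ (c : ℂ) (τ : ℍ), c ≠ 0 ∧ Λ = sp c (c * τ)

open Classical in
/-- The `j`-invariant of a lattice. -/
def jL (Λ : Lt) : ℂ := if h : IsLat Λ then jInv h.choose_spec.choose else 0

open Classical in
/-- The discriminant function of a lattice. -/
def dL (Λ : Lt) : ℂ :=
  if h : IsLat Λ then ModularForm.discriminant h.choose_spec.choose / h.choose ^ 12 else 0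

/-- `Λ'` is a sublattice of index `q`. -/
def Nb (q : ℕ) (Λ Λ' : Lt) : Prop := pr q * Λ < Λ' ∧ Λ' < Λ

/-- Chains of sublattices of prime index, with total index `n`. -/
inductive Ch : ℕ → Lt → Lt → Prop
  | refl (Λ : Lt) : Ch 1 Λ Λ
  | step {q n : ℕ} {Λ Λ₁ Λ' : Lt} : q.Prime → Nb q Λ Λ₁ → Ch n Λ₁ Λ' → Ch (q * n) Λ Λ'

/-- `a` and `b` are `j`-invariants of lattices related by an isogeny of exponent dividing `N`. -/
def Isog (N : ℕ) (a b : ℂ) : Prop :=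
  ∃ Λ₁ Λ₂ : Lt, IsLat Λ₁ ∧ IsLat Λ₂ ∧ jL Λ₁ = a ∧ jL Λ₂ = b ∧ Λ₁ ≤ Λ₂ ∧ pr N * Λ₂ ≤ Λ₁

theorem mem_sp {a b v : ℂ} : v ∈ sp a b ↔ ∃ m n : ℤ, v = m * a + n * b := by
  unfold sp
  rw [Submodule.mem_span_pair]
  constructor
  · rintro ⟨m, n, h⟩
    exact ⟨m, n, by rw [← h]; simp⟩
  · rintro ⟨m, n, h⟩
    exact ⟨m, n, by rw [h]; simp⟩

theorem mem_pr_mul {c v : ℂ} {Λ : Lt} : v ∈ pr c * Λ ↔ ∃ w ∈ Λ, c * w = v :=
  Submodule.mem_span_singleton_mul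

theorem pr_mul_le {c : ℂ} {Λ Λ' : Lt} : pr c * Λ ≤ Λ' ↔ ∀ w ∈ Λ, c * w ∈ Λ' := by
  constructor
  · intro h w hw
    exact h (mem_pr_mul.mpr ⟨w, hw, rfl⟩)
  · intro h v hv
    obtain ⟨w, hw, rfl⟩ := mem_pr_mul.mp hv
    exact h w hw

theorem pr_mul_pr (a b : ℂ) : pr a * pr b = pr (a * b) := by
  unfold pr
  rw [Submodule.span_mul_span, Set.singleton_mul_singleton]

@[simp] theorem pr_one_mul (Λ : Lt) : pr 1 * Λ = Λ := by
  ext v
  rw [mem_pr_mul]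
  simp

theorem pr_mul_sp (c a b : ℂ) : pr c * sp a b = sp (c * a) (c * b) := by
  ext v
  rw [mem_pr_mul, mem_sp]
  constructor
  · rintro ⟨w, hw, rfl⟩
    obtain ⟨m, n, rfl⟩ := mem_sp.mp hw
    exact ⟨m, n, by ring⟩
  · rintro ⟨m, n, rfl⟩
    exact ⟨m * a + n * b, mem_sp.mpr ⟨m, n, rfl⟩, by ring⟩

theorem pr_int_le (n : ℤ) (Λ : Lt) : pr n * Λ ≤ Λ := by
  rw [pr_mul_le]
  intro w hw
  simpa using Λ.smul_mem n hw

theorem pr_mul_le_iff {c : ℂ} (hc : c ≠ 0) {Λ Λ' : Lt} : pr c * Λ ≤ pr c * Λ' ↔ Λ ≤ Λ' := by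
  constructor
  · intro h w hw
    obtain ⟨w', hw', e⟩ := mem_pr_mul.mp (pr_mul_le.mp h w hw)
    rwa [← mul_left_cancel₀ hc e]
  · intro h
    exact pr_mul_le.mpr fun w hw => mem_pr_mul.mpr ⟨w, h hw, rfl⟩

theorem isLat_sp {c : ℂ} (hc : c ≠ 0) (τ : ℍ) : IsLat (sp c (c * τ)) := ⟨c, τ, hc, rfl⟩

theorem isLat_one (τ : ℍ) : IsLat (sp 1 τ) := ⟨1, τ, one_ne_zero, by rw [one_mul]⟩

theorem int_indep_lat (τ : ℍ) {p q : ℤ} (h : (p : ℂ) * τ + q = 0) : p = 0 ∧ q = 0 := by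
  have h1 := congrArg Complex.im h
  simp only [Complex.add_im, Complex.mul_im, Complex.intCast_re, Complex.intCast_im, zero_mul,
    add_zero, Complex.zero_im, coe_im, mul_eq_zero, Int.cast_eq_zero, τ.im_pos.ne', or_false] at h1
  subst h1
  simpa using h

theorem left_mem_sp_lat (a b : ℂ) : a ∈ sp a b := mem_sp.mpr ⟨1, 0, by simp⟩

theorem right_mem_sp_lat (a b : ℂ) : b ∈ sp a b := mem_sp.mpr ⟨0, 1, by simp⟩

theorem sp_le_iff_lat {a b : ℂ} {Λ : Lt} : sp a b ≤ Λ ↔ a ∈ Λ ∧ b ∈ Λ := by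
  constructor
  · exact fun h => ⟨h (left_mem_sp_lat a b), h (right_mem_sp_lat a b)⟩
  · rintro ⟨ha, hb⟩ v hv
    obtain ⟨m, n, rfl⟩ := mem_sp.mp hv
    exact Λ.add_mem (by simpa using Λ.smul_mem m ha) (by simpa using Λ.smul_mem n hb)

theorem sl_den_ne_lat (γ : SL(2, ℤ)) (τ : ℍ) : (γ 1 0 : ℂ) * τ + γ 1 1 ≠ 0 := fun h => by
  obtain ⟨h0, h1⟩ := int_indep_lat τ h
  have := γ.det_coe
  rw [Matrix.det_fin_two, h0, h1] at this
  simp at this

theorem sl_den_mul_lat (γ : SL(2, ℤ)) (τ : ℍ) :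
    ((γ 1 0 : ℂ) * τ + γ 1 1) * (γ • τ : ℍ) = (γ 0 0 : ℂ) * τ + γ 0 1 := by
  have h := sl_den_ne_lat γ τ
  rw [coe_specialLinearGroup_apply]
  simp only [algebraMap_int_eq, eq_intCast, Complex.ofReal_intCast]
  field_simp

/-- Two oriented bases of a lattice differ by `SL₂(ℤ)`. -/
theorem exists_SL_of_sp_eq {c c' : ℂ} {τ τ' : ℍ} (hc : c ≠ 0) (hc' : c' ≠ 0)
    (h : sp c (c * τ) = sp c' (c' * τ')) :
    ∃ γ : SL(2, ℤ), τ' = γ • τ ∧ c' = c * ((γ 1 0 : ℂ) * τ + γ 1 1) := by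
  obtain ⟨q, p, hpq⟩ := mem_sp.mp (h ▸ right_mem_sp_lat c' (c' * τ') : c' * τ' ∈ sp c (c * τ))
  obtain ⟨s, r, hrs⟩ := mem_sp.mp (h ▸ left_mem_sp_lat c' (c' * τ') : c' ∈ sp c (c * τ))
  obtain ⟨q', p', hpq'⟩ := mem_sp.mp (h ▸ right_mem_sp_lat c (c * τ) : c * τ ∈ sp c' (c' * τ'))
  obtain ⟨s', r', hrs'⟩ := mem_sp.mp (h ▸ left_mem_sp_lat c (c * τ) : c ∈ sp c' (c' * τ'))
  obtain ⟨a1, a2⟩ := int_indep_lat τ (p := p' * p + q' * r - 1) (q := p' * q + q' * s) (by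
    apply mul_left_cancel₀ hc
    push_cast; linear_combination -p' * hpq - q' * hrs - hpq')
  obtain ⟨a3, a4⟩ := int_indep_lat τ (p := r' * p + s' * r) (q := r' * q + s' * s - 1) (by
    apply mul_left_cancel₀ hc
    push_cast; linear_combination -r' * hpq - s' * hrs - hrs')
  have hdet : (p * s - q * r) * (p' * s' - q' * r') = 1 := by
    linear_combination (r' * q + s' * s) * a1 + a4 - (r' * p + s' * r) * a2
  have hτ : (τ' : ℂ) * (r * τ + s) = p * τ + q := by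
    apply mul_left_cancel₀ hc
    linear_combination hpq - τ' * hrs
  have hpos : 0 < p * s - q * r := by
    have h1 := congrArg Complex.re hτ
    have h2 := congrArg Complex.im hτ
    simp only [Complex.mul_re, Complex.mul_im, Complex.add_re, Complex.add_im, Complex.intCast_re,
      Complex.intCast_im, zero_mul, sub_zero, add_zero, coe_re, coe_im] at h1 h2
    have h3 : τ'.im * ((r * τ.re + s) ^ 2 + (r * τ.im) ^ 2) = (p * s - q * r) * τ.im := by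
      linear_combination (r * τ.re + s) * h2 - (r * τ.im) * h1
    have h4 : 0 ≤ ((p : ℝ) * s - q * r) * τ.im := by
      rw [← h3]; exact mul_nonneg τ'.im_pos.le (by positivity)
    have h5 : 0 ≤ (p : ℝ) * s - q * r := nonneg_of_mul_nonneg_left h4 τ.im_pos
    have h6 : 0 ≤ p * s - q * r := by exact_mod_cast h5
    refine lt_of_le_of_ne h6 fun h7 => ?_
    rw [← h7] at hdet
    simp at hdet
  have hone : p * s - q * r = 1 := Int.eq_one_of_mul_eq_one_right hpos.le hdet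
  obtain ⟨γ, hγ⟩ : ∃ γ : SL(2, ℤ), (γ : Matrix (Fin 2) (Fin 2) ℤ) = !![p, q; r, s] :=
    ⟨⟨!![p, q; r, s], by rw [Matrix.det_fin_two_of]; exact hone⟩, rfl⟩
  have g00 : γ 0 0 = p := by simp [hγ]
  have g01 : γ 0 1 = q := by simp [hγ]
  have g10 : γ 1 0 = r := by simp [hγ]
  have g11 : γ 1 1 = s := by simp [hγ]
  refine ⟨γ, ?_, ?_⟩
  · apply UpperHalfPlane.ext
    apply mul_left_cancel₀ (sl_den_ne_lat γ τ)
    rw [sl_den_mul_lat, g00, g01, g10, g11, mul_comm, hτ]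
  · rw [g10, g11]
    linear_combination hrs

theorem sp_smul (c : ℂ) (γ : SL(2, ℤ)) (τ : ℍ) :
    sp (c * ((γ 1 0 : ℂ) * τ + γ 1 1)) (c * ((γ 1 0 : ℂ) * τ + γ 1 1) * (γ • τ : ℍ)) =
      sp c (c * τ) := by
  have hd : (γ 0 0 : ℂ) * γ 1 1 - γ 0 1 * γ 1 0 = 1 := by
    have := γ.det_coe
    rw [Matrix.det_fin_two] at this
    exact_mod_cast this
  rw [mul_assoc, sl_den_mul_lat]
  apply le_antisymm
  · exact sp_le_iff_lat.mpr ⟨mem_sp.mpr ⟨γ 1 1, γ 1 0, by ring⟩, mem_sp.mpr ⟨γ 0 1, γ 0 0, by ring⟩⟩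
  · refine sp_le_iff_lat.mpr ⟨mem_sp.mpr ⟨γ 0 0, -γ 1 0, ?_⟩, mem_sp.mpr ⟨-γ 0 1, γ 1 1, ?_⟩⟩
    · push_cast; linear_combination (-c) * hd
    · push_cast; linear_combination (-c * τ) * hd

theorem jL_sp {c : ℂ} (hc : c ≠ 0) (τ : ℍ) : jL (sp c (c * τ)) = jInv τ := by
  have h := isLat_sp hc τ
  unfold jL
  rw [dif_pos h]
  obtain ⟨h1, h2⟩ := h.choose_spec.choose_spec
  obtain ⟨γ, h3, -⟩ := exists_SL_of_sp_eq hc h1 h2
  rw [h3, jInv_smul]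

theorem jL_one (τ : ℍ) : jL (sp 1 τ) = jInv τ := by
  simpa using jL_sp one_ne_zero τ

theorem dL_sp {c : ℂ} (hc : c ≠ 0) (τ : ℍ) :
    dL (sp c (c * τ)) = ModularForm.discriminant τ / c ^ 12 := by
  have h := isLat_sp hc τ
  unfold dL
  rw [dif_pos h]
  obtain ⟨h1, h2⟩ := h.choose_spec.choose_spec
  obtain ⟨γ, h3, h4⟩ := exists_SL_of_sp_eq hc h1 h2
  have h5 := sl_den_ne_lat γ τ
  rw [h3, disc_smul, h4]
  field_simp

theorem IsLat.pr_mul {Λ : Lt} (h : IsLat Λ) {c : ℂ} (hc : c ≠ 0) : IsLat (pr c * Λ) := by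
  obtain ⟨a, τ, ha, rfl⟩ := h
  exact ⟨c * a, τ, mul_ne_zero hc ha, by rw [pr_mul_sp, mul_assoc]⟩

theorem jL_pr_mul {Λ : Lt} (h : IsLat Λ) {c : ℂ} (hc : c ≠ 0) : jL (pr c * Λ) = jL Λ := by
  obtain ⟨a, τ, ha, rfl⟩ := h
  rw [pr_mul_sp, ← mul_assoc, jL_sp (mul_ne_zero hc ha), jL_sp ha]

theorem dL_pr_mul {Λ : Lt} (h : IsLat Λ) {c : ℂ} (hc : c ≠ 0) :
    dL (pr c * Λ) = dL Λ / c ^ 12 := by
  obtain ⟨a, τ, ha, rfl⟩ := h
  rw [pr_mul_sp, ← mul_assoc, dL_sp (mul_ne_zero hc ha), dL_sp ha]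
  field_simp

theorem dL_ne_zero {Λ : Lt} (h : IsLat Λ) : dL Λ ≠ 0 := by
  obtain ⟨a, τ, ha, rfl⟩ := h
  rw [dL_sp ha]
  exact div_ne_zero (ModularForm.discriminant_ne_zero τ) (pow_ne_zero _ ha)

theorem jL_inj {Λ Λ' : Lt} (h : IsLat Λ) (h' : IsLat Λ') (hj : jL Λ = jL Λ') :
    ∃ c : ℂ, c ≠ 0 ∧ Λ' = pr c * Λ := by
  obtain ⟨a, τ, ha, rfl⟩ := h
  obtain ⟨a', τ', ha', rfl⟩ := h'
  rw [jL_sp ha, jL_sp ha'] at hj
  obtain ⟨γ, rfl⟩ := jInv_inj hj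
  have h5 := sl_den_ne_lat γ τ
  refine ⟨a' / (a * ((γ 1 0 : ℂ) * τ + γ 1 1)), div_ne_zero ha' (mul_ne_zero ha h5), ?_⟩
  rw [← sp_smul a γ τ, pr_mul_sp, ← mul_assoc _ (a * _), div_mul_cancel₀ _ (mul_ne_zero ha h5)]

theorem jL_surj (z : ℂ) : ∃ Λ, IsLat Λ ∧ jL Λ = z := by
  obtain ⟨τ, rfl⟩ := jInv_surj z
  exact ⟨sp 1 τ, isLat_one τ, jL_one τ⟩

end Pool.Agent.EQ
end
end

-- part Pool.Agent.P.MP_ad7a55_nt.Proj
section

/-! The projections X → Y₀ → ℂ. -/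

set_option autoImplicit false

noncomputable section

open MeasureTheory Topology Filter UpperHalfPlane
open scoped MatrixGroups ENNReal BoundedContinuousFunction

namespace Pool.Agent.EQ

variable (p : ℕ) [Fact p.Prime]

/-- The projection `X → K\X = SL₂(ℝ)/SL₂(ℤ)`. -/
def toY (x : XX p) : YY := ((exists_rep p x).choose.1 : YY)

/-- The `j`-invariant of a point of `Y₀`. -/
def jY (y : YY) : ℂ := jInv ((Quotient.out y)⁻¹ • UpperHalfPlane.I)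

/-- The `j`-invariant of a point of `X`. -/
def piX (x : XX p) : ℂ := jY (toY p x)

theorem toR_mem_proj (δ : SL(2, ℤ)) : toR δ ∈ Gam0 := ⟨δ, rfl⟩

theorem toR_smul_proj (δ : SL(2, ℤ)) (τ : ℍ) : toR δ • τ = δ • τ := by
  ext1
  rw [coe_specialLinearGroup_apply, coe_specialLinearGroup_apply]
  simp [toR]

theorem toY_mk {g : GG p} (hg : g.2 ∈ Kp p) : toY p (g : XX p) = (g.1 : YY) := by
  obtain ⟨h1, h2⟩ := (exists_rep p (g : XX p)).choose_spec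
  set h := (exists_rep p (g : XX p)).choose with hh
  have h3 : h⁻¹ * g ∈ Gam p := QuotientGroup.eq.1 h2
  obtain ⟨δ, hδ⟩ := exists_int_of_Gam p h3 ((Kp p).mul_mem ((Kp p).inv_mem h1) hg)
  have h4 : h.1⁻¹ * g.1 = toR δ := congrArg Prod.fst hδ
  change (h.1 : YY) = (g.1 : YY)
  exact QuotientGroup.eq.2 (h4 ▸ toR_mem_proj δ)

theorem continuous_toY : Continuous (toY p) := by
  have hU : IsOpen {g : GG p | g.2 ∈ Kp p} := (Kp_open p).preimage continuous_snd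
  have hq : IsOpenQuotientMap
      (fun g : {g : GG p | g.2 ∈ Kp p} => ((g : GG p) : XX p)) := by
    refine ⟨fun x => ?_, QuotientGroup.continuous_mk.comp continuous_subtype_val,
      QuotientGroup.isOpenMap_coe.comp hU.isOpenMap_subtype_val⟩
    obtain ⟨g, h1, h2⟩ := exists_rep p x
    exact ⟨⟨g, h1⟩, h2⟩
  rw [hq.isQuotientMap.continuous_iff]
  have : (toY p ∘ fun g : {g : GG p | g.2 ∈ Kp p} => ((g : GG p) : XX p)) =
      fun g : {g : GG p | g.2 ∈ Kp p} => ((g : GG p).1 : YY) :=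
    funext fun g => toY_mk p g.2
  rw [this]
  exact QuotientGroup.continuous_mk.comp (continuous_fst.comp continuous_subtype_val)

theorem toY_smul {g : GG p} (hg : g.2 ∈ Kp p) (x : XX p) : toY p (g • x) = g.1 • toY p x := by
  obtain ⟨h, h1, rfl⟩ := exists_rep p x
  have e1 : g • (h : XX p) = ((g * h : GG p) : XX p) := rfl
  rw [e1, toY_mk p (g := g * h) ((Kp p).mul_mem hg h1), toY_mk p h1]
  rfl

theorem exists_of_toY {x : XX p} {g : SL(2, ℝ)} (h : toY p x = (g : YY)) :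
    ∃ k ∈ Kp p, x = (((g, k) : GG p) : XX p) := by
  obtain ⟨a, h1, rfl⟩ := exists_rep p x
  rw [toY_mk p h1] at h
  obtain ⟨δ, hδ⟩ := QuotientGroup.eq.1 h
  refine ⟨a.2 * toP p δ, (Kp p).mul_mem h1 (toP_mem_Kp p δ), QuotientGroup.eq.2 ?_⟩
  have : a⁻¹ * ((g, a.2 * toP p δ) : GG p) = (toR δ, toP p δ) := by
    refine Prod.ext ?_ ?_
    · exact hδ.symm
    · simp
  rw [this]
  exact int_mem_Gam p δ

theorem jY_mk (g : SL(2, ℝ)) : jY (g : YY) = jInv (g⁻¹ • UpperHalfPlane.I) := by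
  obtain ⟨δ, hδ⟩ : (Quotient.out (g : YY))⁻¹ * g ∈ Gam0 :=
    QuotientGroup.eq.1 (Quotient.out_eq (g : YY))
  have h1 : (Quotient.out (g : YY))⁻¹ = toR δ * g⁻¹ := by
    have : toR δ = (Quotient.out (g : YY))⁻¹ * g := hδ
    rw [this]; simp
  rw [jY, h1, mul_smul, toR_smul_proj, jInv_smul]

theorem continuous_jY : Continuous jY := by
  rw [(QuotientGroup.isQuotientMap_mk Gam0).continuous_iff]
  have : (jY ∘ (QuotientGroup.mk : SL(2, ℝ) → YY)) =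
      fun g : SL(2, ℝ) => jInv (g⁻¹ • UpperHalfPlane.I) := funext jY_mk
  rw [this]
  exact continuous_jInv.comp (continuous_inv.smul continuous_const)

theorem continuous_piX : Continuous (piX p) := continuous_jY.comp (continuous_toY p)

theorem piX_K {k : SL(2, ℚ_[p])} (hk : k ∈ Kp p) (x : XX p) :
    piX p (((1, k) : GG p) • x) = piX p x := by
  rw [piX, toY_smul p (g := (1, k)) hk, one_smul, piX]

/-- Squared length of the vector `g v`. -/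
def nsq (g : SL(2, ℝ)) (v : Fin 2 → ℚ) : ℝ :=
  (g 0 0 * v 0 + g 0 1 * v 1) ^ 2 + (g 1 0 * v 0 + g 1 1 * v 1) ^ 2

/-- The lattice of the point `x` has a nonzero vector shorter than `ε`. -/
def Short (ε : ℝ) (x : XX p) : Prop :=
  ∃ g : GG p, (g : XX p) = x ∧ ∃ v : Fin 2 → ℚ, v ≠ 0 ∧ (∀ i, InZp p (v i)) ∧
    (∀ i, ‖g.2 i 0 * v 0 + g.2 i 1 * v 1‖ ≤ 1) ∧ nsq g.1 v < ε ^ 2

theorem det_proj (g : SL(2, ℝ)) : g 0 0 * g 1 1 - g 0 1 * g 1 0 = 1 := by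
  have := g.det_coe
  rwa [Matrix.det_fin_two] at this

theorem pos_proj (g : SL(2, ℝ)) : 0 < g 0 0 ^ 2 + g 1 0 ^ 2 := by
  have h := det_proj g
  by_contra hn
  have h1 : g 0 0 = 0 := by nlinarith [sq_nonneg (g 0 0), sq_nonneg (g 1 0)]
  have h2 : g 1 0 = 0 := by nlinarith [sq_nonneg (g 0 0), sq_nonneg (g 1 0)]
  rw [h1, h2] at h
  simp at h

theorem coe_inv_smul_proj (g : SL(2, ℝ)) :
    ((g⁻¹ • UpperHalfPlane.I : ℍ) : ℂ) =
      ⟨-(g 0 0 * g 0 1 + g 1 0 * g 1 1) / (g 0 0 ^ 2 + g 1 0 ^ 2),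
        1 / (g 0 0 ^ 2 + g 1 0 ^ 2)⟩ := by
  have h := det_proj g
  have hp := (pos_proj g).ne'
  have hd : ((-(g 1 0) : ℝ) : ℂ) * Complex.I + (g 0 0 : ℝ) ≠ 0 := by
    intro h0
    have h1 := congrArg Complex.re h0
    have h2 := congrArg Complex.im h0
    simp at h1 h2
    simp [h1, h2] at hp
  rw [coe_specialLinearGroup_apply, Matrix.SpecialLinearGroup.SL2_inv_expl]
  simp only [Algebra.algebraMap_self, RingHom.id_apply, Matrix.cons_val', Matrix.cons_val_zero,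
    Matrix.cons_val_one, Matrix.cons_val_fin_one, coe_I]
  rw [div_eq_iff hd]
  apply Complex.ext
  · simp
    field_simp
    linear_combination (g 1 0) * h
  · simp
    field_simp
    linear_combination (g 0 0) * h

/-- Reduction: a lattice has a basis whose point lies in the fundamental domain. -/
theorem reduce_proj (g : SL(2, ℝ)) :
    ∃ δ : SL(2, ℤ), (g * toR δ)⁻¹ • UpperHalfPlane.I ∈ ModularGroup.fd := by
  obtain ⟨δ, hδ⟩ := ModularGroup.exists_smul_mem_fd (g⁻¹ • UpperHalfPlane.I)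
  refine ⟨δ⁻¹, ?_⟩
  rwa [map_inv, mul_inv_rev, inv_inv, mul_smul, toR_smul_proj]

theorem im_proj (g : SL(2, ℝ)) :
    (g⁻¹ • UpperHalfPlane.I : ℍ).im = 1 / (g 0 0 ^ 2 + g 1 0 ^ 2) := by
  rw [← coe_im, coe_inv_smul_proj]

/-- Mahler's criterion. -/
theorem exists_compact_notShort {ε : ℝ} (hε : 0 < ε) :
    ∃ Ω : Set (XX p), IsCompact Ω ∧ ∀ x, ¬ Short p ε x → x ∈ Ω := by
  have hC : IsCompact ((fun g : SL(2, ℝ) => g • UpperHalfPlane.I) ⁻¹'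
      ModularGroup.truncatedFundamentalDomain (1 / ε ^ 2))⁻¹ :=
    (isProperMap_smul_I.isCompact_preimage
      (ModularGroup.isCompact_truncatedFundamentalDomain _)).inv
  refine ⟨_, (hC.prod (Kp_compact p)).image (QuotientGroup.continuous_mk (N := Gam p)),
    fun x hx => ?_⟩
  obtain ⟨a, h1, rfl⟩ := exists_rep p x
  obtain ⟨δ, hδ⟩ := reduce_proj a.1
  have hK : a.2 * toP p δ ∈ Kp p := (Kp p).mul_mem h1 (toP_mem_Kp p δ)
  have he : (((a.1 * toR δ, a.2 * toP p δ) : GG p) : XX p) = (a : XX p) := by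
    refine (QuotientGroup.eq.2 ?_).symm
    have : a⁻¹ * ((a.1 * toR δ, a.2 * toP p δ) : GG p) = (toR δ, toP p δ) := by
      refine Prod.ext ?_ ?_ <;> simp
    rw [this]
    exact int_mem_Gam p δ
  refine ⟨(a.1 * toR δ, a.2 * toP p δ), ⟨⟨hδ, ?_⟩, hK⟩, he⟩
  have h2 : ε ^ 2 ≤ nsq (a.1 * toR δ) ![1, 0] := by
    by_contra h3
    refine hx ⟨_, he, ![1, 0], ?_, ?_, ?_, not_le.1 h3⟩
    · intro h0
      simpa using congrFun h0 0
    · intro i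
      fin_cases i
      · simpa using inZp_int p 1
      · simpa using inZp_int p 0
    · intro i
      simpa using hK i 0
  change ((a.1 * toR δ)⁻¹ • UpperHalfPlane.I : ℍ).im ≤ 1 / ε ^ 2
  rw [im_proj]
  refine one_div_le_one_div_of_le (by positivity) ?_
  simpa [nsq] using h2

theorem card_Icc_proj (u r : ℝ) (hr : 0 ≤ r) :
    ((Finset.Icc ⌈u - r⌉ ⌊u + r⌋).card : ℝ) ≤ 2 * r + 1 := by
  rw [Int.card_Icc]
  rcases le_total (⌊u + r⌋ + 1 - ⌈u - r⌉) 0 with h | h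
  · rw [Int.toNat_of_nonpos h]
    simp only [Nat.cast_zero]
    positivity
  · have : (((⌊u + r⌋ + 1 - ⌈u - r⌉).toNat : ℕ) : ℝ) = ((⌊u + r⌋ + 1 - ⌈u - r⌉ : ℤ) : ℝ) := by
      rw [← Int.cast_natCast, Int.toNat_of_nonneg h]
    rw [this]
    push_cast
    linarith [Int.floor_le (u + r), Int.le_ceil (u - r)]

/-- The count for the form `(s x + t y)² + (y / s)²`. -/
theorem card_form_proj {s t R : ℝ} (hs : 0 < s) (hs2 : s ^ 2 ≤ 3 / 2) (hR : 0 ≤ R) :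
    ∃ T : Finset (Fin 2 → ℤ), (T.card : ℝ) ≤ 7 * R ^ 2 + 2 ∧
      ∀ v : Fin 2 → ℤ, IsCoprime (v 0) (v 1) →
        (s * v 0 + t * v 1) ^ 2 + (v 1 / s) ^ 2 < R ^ 2 → v ∈ T := by
  classical
  set N : ℕ := ⌊R * s⌋₊ with hN
  have hNle : (N : ℝ) ≤ R * s := Nat.floor_le (by positivity)
  let J : Finset ℤ := (Finset.Icc (-(N : ℤ)) N).erase 0
  have hJ : (J.card : ℝ) = 2 * N := by
    have h0 : (0 : ℤ) ∈ Finset.Icc (-(N : ℤ)) N := by simp
    have : J.card = 2 * N := by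
      rw [Finset.card_erase_of_mem h0, Int.card_Icc]
      omega
    rw [this]; push_cast; ring
  let B : ℤ → Finset (Fin 2 → ℤ) := fun n =>
    (Finset.Icc ⌈-(t * n / s) - R / s⌉ ⌊-(t * n / s) + R / s⌋).image fun m => ![m, n]
  have hB : ∀ n, ((B n).card : ℝ) ≤ 2 * (R / s) + 1 := fun n =>
    le_trans (by exact_mod_cast Finset.card_image_le) (card_Icc_proj _ _ (by positivity))
  refine ⟨J.biUnion B ∪ {![1, 0], ![-1, 0]}, ?_, fun v hv hlt => ?_⟩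
  · have h1 : ((J.biUnion B).card : ℝ) ≤ 2 * N * (2 * (R / s) + 1) := by
      have h2 : ((J.biUnion B).card : ℝ) ≤ ∑ n ∈ J, ((B n).card : ℝ) := by
        exact_mod_cast Finset.card_biUnion_le
      refine h2.trans ((Finset.sum_le_sum fun n _ => hB n).trans ?_)
      rw [Finset.sum_const, nsmul_eq_mul, hJ]
    have h3 : ((({![1, 0], ![-1, 0]} : Finset (Fin 2 → ℤ))).card : ℝ) ≤ 2 := by
      exact_mod_cast Finset.card_le_two
    have h4 : (((J.biUnion B ∪ {![1, 0], ![-1, 0]}).card : ℕ) : ℝ) ≤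
        (J.biUnion B).card + (({![1, 0], ![-1, 0]} : Finset (Fin 2 → ℤ))).card := by
      exact_mod_cast Finset.card_union_le _ _
    have h5 : (N : ℝ) * (R / s) ≤ R ^ 2 := by
      calc (N : ℝ) * (R / s) ≤ R * s * (R / s) := mul_le_mul_of_nonneg_right hNle (by positivity)
        _ = R ^ 2 := by field_simp
    have h6 : (N : ℝ) ≤ 3 / 2 * R ^ 2 := by
      have h7 : (N : ℝ) ≤ (N : ℝ) ^ 2 := by exact_mod_cast Nat.le_self_pow two_ne_zero N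
      have h8 : (N : ℝ) ^ 2 ≤ (R * s) ^ 2 := pow_le_pow_left₀ (by positivity) hNle 2
      have h9 : (R * s) ^ 2 ≤ R ^ 2 * (3 / 2) := by
        rw [mul_pow]; exact mul_le_mul_of_nonneg_left hs2 (by positivity)
      linarith
    linarith
  · have hv' : v = ![v 0, v 1] := by ext i; fin_cases i <;> rfl
    by_cases h1 : v 1 = 0
    · rw [h1, isCoprime_zero_right, Int.isUnit_iff] at hv
      rw [hv', h1]
      rcases hv with h | h <;> simp [h]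
    · refine Finset.mem_union_left _ (Finset.mem_biUnion.2 ⟨v 1, ?_, ?_⟩)
      · refine Finset.mem_erase.2 ⟨h1, Finset.mem_Icc.2 (abs_le.1 ?_)⟩
        have h2 : |(v 1 : ℝ) / s| ≤ R :=
          abs_le_of_sq_le_sq' (by nlinarith [sq_nonneg (s * v 0 + t * v 1)]) hR |> abs_le.2
        rw [abs_div, abs_of_pos hs, div_le_iff₀ hs] at h2
        have h3 : (v 1).natAbs ≤ N := Nat.le_floor (by rwa [Nat.cast_natAbs, Int.cast_abs])
        rw [← Int.natCast_natAbs]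
        exact_mod_cast h3
      · refine Finset.mem_image.2 ⟨v 0, Finset.mem_Icc.2 ⟨?_, ?_⟩, hv'.symm⟩
        · have h2 := (abs_le_of_sq_le_sq' (a := s * v 0 + t * v 1)
            (by nlinarith [sq_nonneg ((v 1 : ℝ) / s)]) hR).1
          rw [Int.ceil_le, ← neg_div, ← sub_div, div_le_iff₀ hs]
          linarith
        · have h2 := (abs_le_of_sq_le_sq' (a := s * v 0 + t * v 1)
            (by nlinarith [sq_nonneg ((v 1 : ℝ) / s)]) hR).2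
          rw [Int.le_floor, ← neg_div, ← add_div, le_div_iff₀ hs]
          linarith

theorem nsq_mul_proj (g : SL(2, ℝ)) (δ : SL(2, ℤ)) (w : Fin 2 → ℤ) :
    nsq (g * toR δ) (fun i => w i) = nsq g (fun i => (δ.1.mulVec w) i) := by
  simp [nsq, toR, Matrix.mul_apply, Fin.sum_univ_two, Matrix.mulVec, dotProduct]
  ring

/-- Primitive vectors of a unimodular lattice in a disc. -/
theorem card_prim (g : SL(2, ℝ)) {R : ℝ} (hR : 0 ≤ R) :
    ∃ T : Finset (Fin 2 → ℤ), (T.card : ℝ) ≤ 7 * R ^ 2 + 2 ∧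
      ∀ v : Fin 2 → ℤ, IsCoprime (v 0) (v 1) → nsq g (fun i => v i) < R ^ 2 → v ∈ T := by
  classical
  obtain ⟨δ, hδ⟩ := reduce_proj g
  set h := g * toR δ with hh
  have hA := pos_proj h
  have h3 := ModularGroup.three_le_four_mul_im_sq_of_mem_fd hδ
  rw [im_proj] at h3
  set A := h 0 0 ^ 2 + h 1 0 ^ 2 with hAd
  have hA2 : A ≤ 3 / 2 := by
    rw [div_pow, one_pow, mul_one_div, le_div_iff₀ (by positivity)] at h3
    nlinarith
  have hs : 0 < √A := Real.sqrt_pos.2 hA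
  have hs2 : √A ^ 2 = A := Real.sq_sqrt hA.le
  obtain ⟨T, hT, hT2⟩ := card_form_proj (t := (h 0 0 * h 0 1 + h 1 0 * h 1 1) / √A) hs
    (hs2.le.trans hA2) hR
  refine ⟨T.image fun w => δ.1.mulVec w,
    le_trans (by exact_mod_cast Finset.card_image_le) hT, fun v hv hlt => ?_⟩
  have e1 : δ.1.mulVec ((δ⁻¹).1.mulVec v) = v := by
    rw [Matrix.mulVec_mulVec, ← Matrix.SpecialLinearGroup.coe_mul, mul_inv_cancel]
    simp
  refine Finset.mem_image.2 ⟨(δ⁻¹).1.mulVec v, hT2 _ (hv.mulVecSL δ⁻¹) ?_, e1⟩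
  have e2 := nsq_mul_proj g δ ((δ⁻¹).1.mulVec v)
  rw [e1] at e2
  rw [← e2] at hlt
  refine lt_of_eq_of_lt ?_ hlt
  generalize (δ⁻¹).1.mulVec v = w
  have hd := det_proj h
  simp only [nsq, Rat.cast_intCast, ← hh]
  have e3 : (√A * w 0 + (h 0 0 * h 0 1 + h 1 0 * h 1 1) / √A * w 1) ^ 2 + (w 1 / √A) ^ 2 =
      ((√A ^ 2 * w 0 + (h 0 0 * h 0 1 + h 1 0 * h 1 1) * w 1) ^ 2 + (w 1 : ℝ) ^ 2) / √A ^ 2 := by
    field_simp
  rw [e3, hs2, div_eq_iff hA.ne', hAd]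
  linear_combination (-((w 1 : ℝ) ^ 2) * (h 0 0 * h 1 1 - h 0 1 * h 1 0 + 1)) * hd

end Pool.Agent.EQ
end
end

-- part Pool.Agent.P.MP_ad7a55_nt.TSh2
section

/-! The bound with types. -/

set_option autoImplicit false

noncomputable section

open Finset

namespace Pool.Agent.EQ

theorem tsh2_dvd (P : Finset ℕ) (hP : ∀ l ∈ P, l.Prime) (e : ℕ → ℕ) (z : ℤ)
    (h : ∀ l ∈ P, (l : ℤ) ^ e l ∣ z) : ((∏ l ∈ P, l ^ e l : ℕ) : ℤ) ∣ z := by
  push_cast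
  refine Finset.prod_dvd_of_coprime ?_ h
  intro l hl l' hl' hne
  have h1 : Nat.Coprime l l' := (Nat.coprime_primes (hP l hl) (hP l' hl')).2 hne
  exact (Nat.isCoprime_iff_coprime.2 h1).pow

theorem tsh2_exp : ∃ C : ℝ, 0 < C ∧ ∀ (P : Finset ℕ) (a : ℕ → ℝ) (N N' : ℕ),
    (∀ l ∈ P, l.Prime ∧ -2 ≤ a l) → N' ≤ N → N ≤ N' ^ 2 →
    Real.exp (∑ l ∈ P.filter (fun l => l ≤ N'), a l / l) ≤
      C * Real.exp (∑ l ∈ P.filter (fun l => l ≤ N), a l / l) := by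
  obtain ⟨C, hC⟩ := range_pow 2
  refine ⟨Real.exp (2 * C), Real.exp_pos _, fun P a N N' hP h1 h2 => ?_⟩
  rw [← Real.exp_add]
  refine Real.exp_le_exp.2 ?_
  have h3 := hC N' N h2
  have h4 : ∑ l ∈ P.filter (fun l => l ≤ N), a l / l =
      ∑ l ∈ P.filter (fun l => l ≤ N'), a l / l +
        ∑ l ∈ (P.filter (fun l => l ≤ N)).filter (fun l => ¬ l ≤ N'), a l / l := by
    rw [← Finset.sum_filter_add_sum_filter_not (P.filter (fun l => l ≤ N)) (fun l => l ≤ N')]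
    congr 2
    ext l
    simp only [Finset.mem_filter]
    exact ⟨fun h => ⟨h.1.1, h.2⟩, fun h => ⟨⟨h.1, h.2.trans h1⟩, h.2⟩⟩
  have h5 : ∑ l ∈ (P.filter (fun l => l ≤ N)).filter (fun l => ¬ l ≤ N'), 1 / (l : ℝ) ≤
      ∑ l ∈ (Nat.primesLE N).filter (fun l => N' < l), 1 / (l : ℝ) := by
    refine Finset.sum_le_sum_of_subset_of_nonneg ?_ (fun i _ _ => by positivity)
    intro l hl
    simp only [Finset.mem_filter] at hl ⊢
    exact ⟨Nat.mem_primesLE.2 ⟨hl.1.2, (hP l hl.1.1).1⟩, not_le.1 hl.2⟩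
  have h6 : ∑ l ∈ (P.filter (fun l => l ≤ N)).filter (fun l => ¬ l ≤ N'), (-2) * (1 / (l : ℝ)) ≤
      ∑ l ∈ (P.filter (fun l => l ≤ N)).filter (fun l => ¬ l ≤ N'), a l / l := by
    refine Finset.sum_le_sum fun l hl => ?_
    simp only [Finset.mem_filter] at hl
    rw [mul_one_div]
    exact div_le_div_of_nonneg_right (hP l hl.1.1).2 (by positivity)
  rw [← Finset.mul_sum] at h6
  linarith

theorem tsh2_len {N Q : ℕ} (hQ : 0 < Q) (h : Q ^ 2 ≤ N) :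
    (N - 1) / Q + 1 ≤ N ∧ N ≤ ((N - 1) / Q + 1) ^ 2 ∧ ((N - 1) / Q + 1) * Q ≤ 2 * N := by
  have h0 : Q ≤ Q ^ 2 := by nlinarith
  have h1 : (N - 1) / Q ≤ N - 1 := Nat.div_le_self _ _
  have h2 : N - 1 < ((N - 1) / Q + 1) * Q := by
    have := Nat.lt_div_mul_add (a := N - 1) hQ
    nlinarith
  have h3 : (N - 1) / Q * Q ≤ N - 1 := Nat.div_mul_le_self _ _
  have h4 : N ≤ ((N - 1) / Q + 1) * Q := by omega
  refine ⟨by omega, ?_, ?_⟩
  · have h5 : Q ≤ (N - 1) / Q + 1 := by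
      by_contra h6
      push Not at h6
      nlinarith
    nlinarith
  · have : ((N - 1) / Q + 1) * Q = (N - 1) / Q * Q + Q := by ring
    omega

theorem tsh2_one (K : ℝ) (A : ℕ) : ∃ C : ℝ, 0 < C ∧ ∀ (P : Finset ℕ) (x₀ : ℤ) (N : ℕ)
    (S : Finset ℤ) (B : ℤ → ℤ) (e : ℕ → ℕ) (r : ℕ → ℤ) (Ω : ℕ → ℕ → ℤ → Prop) (f : ℕ → ℕ → ℝ)
    (a : ℕ → ℝ) (y : ℤ → ℕ → ℤ) (k : ℤ → ℕ → ℕ),
    (∀ l ∈ P, l.Prime ∧ Lv l K (Ω l) (f l) (a l)) →
    (∀ x ∈ S, x₀ ≤ x ∧ x < x₀ + N ∧ B x ≠ 0 ∧ (B x).natAbs ≤ N ^ A ∧ (∏ l ∈ P, l ^ e l) ^ 2 ≤ N ∧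
      ∀ l ∈ P, x = r l + (l : ℤ) ^ e l * y x l ∧ At (Ω l) (y x l) (k x l) ∧
        (l : ℤ) ^ k x l ∣ B x) →
    ∑ x ∈ S, ∏ l ∈ P, f l (k x l) ≤
      C * N * (∏ l ∈ P, 1 / (l : ℝ) ^ e l) *
        Real.exp (∑ l ∈ P.filter (fun l => l ≤ N), a l / l) := by
  obtain ⟨C0, hC0, h0⟩ := shiu K (2 * A)
  obtain ⟨C1, hC1, h1⟩ := tsh2_exp
  refine ⟨2 * C0 * C1, by positivity, fun P x₀ N S B e r Ω f a y k hP hS => ?_⟩
  rcases S.eq_empty_or_nonempty with rfl | hne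
  · rw [Finset.sum_empty]
    have : 0 ≤ ∏ l ∈ P, 1 / (l : ℝ) ^ e l := Finset.prod_nonneg fun l _ => by positivity
    positivity
  set x₁ := S.min' hne with hx₁
  have hx₁S : x₁ ∈ S := S.min'_mem hne
  set Q : ℕ := ∏ l ∈ P, l ^ e l with hQ
  have hQ0 : 0 < Q := Finset.prod_pos fun l hl => pow_pos (hP l hl).1.pos _
  have hQz : (0 : ℤ) < Q := by exact_mod_cast hQ0
  obtain ⟨n1, n2, n3⟩ := tsh2_len hQ0 (hS x₁ hx₁S).2.2.2.2.1
  set N' : ℕ := (N - 1) / Q + 1 with hN'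
  have hdvd : ∀ x ∈ S, (Q : ℤ) ∣ x - x₁ := by
    intro x hx
    refine tsh2_dvd P (fun l hl => (hP l hl).1) e _ fun l hl => ⟨y x l - y x₁ l, ?_⟩
    have e1 := ((hS x hx).2.2.2.2.2 l hl).1
    have e2 := ((hS x₁ hx₁S).2.2.2.2.2 l hl).1
    linear_combination e1 - e2
  have hback : ∀ x ∈ S, x₁ + Q * ((x - x₁) / Q) = x := by
    intro x hx
    rw [Int.mul_ediv_cancel' (hdvd x hx)]
    ring
  set u : ℕ → ℤ := fun l => ∏ l' ∈ P.erase l, (l' : ℤ) ^ e l' with hu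
  have hQu : ∀ l ∈ P, (Q : ℤ) = (l : ℤ) ^ e l * u l := by
    intro l hl
    rw [hQ]
    push_cast
    exact (Finset.mul_prod_erase P (fun l' => (l' : ℤ) ^ e l') hl).symm
  have hlu : ∀ l ∈ P, ¬ (l : ℤ) ∣ u l := by
    intro l hl hd
    have hp : Prime (l : ℤ) := Nat.prime_iff_prime_int.1 (hP l hl).1
    obtain ⟨l', hl', h2⟩ := (Prime.dvd_finsetProd_iff hp _).1 hd
    have h3 : l ∣ l' := by exact_mod_cast hp.dvd_of_dvd_pow h2
    have h4 := Finset.mem_erase.1 hl'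
    exact h4.1 ((Nat.prime_dvd_prime_iff_eq (hP l hl).1 (hP l' h4.2).1).1 h3).symm
  have hy : ∀ x ∈ S, ∀ l ∈ P, y x₁ l + u l * ((x - x₁) / Q) = y x l := by
    intro x hx l hl
    have e1 := ((hS x hx).2.2.2.2.2 l hl).1
    have e2 := ((hS x₁ hx₁S).2.2.2.2.2 l hl).1
    have e3 := hback x hx
    have e4 : ((l : ℤ) ^ e l) ≠ 0 := pow_ne_zero _ (by exact_mod_cast (hP l hl).1.ne_zero)
    refine mul_left_cancel₀ e4 ?_
    have e5 := hQu l hl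
    generalize (x - x₁) / Q = z at e3 ⊢
    linear_combination e3 + e1 - e2 - z * e5
  have key := h0 P (fun l j z => Ω l j (y x₁ l + u l * z)) f a 0 N'
    (S.image fun x => (x - x₁) / Q) (fun l z => k (x₁ + Q * z) l)
    (fun l hl => ⟨(hP l hl).1, (hP l hl).2.affine (hP l hl).1 _ (hlu l hl)⟩) ?_
  · rw [Finset.sum_image (fun x hx x' hx' h => by
      have e1 := hback x hx
      have e2 := hback x' hx'
      rw [h] at e1
      exact e1.symm.trans e2)] at key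
    have e6 : ∑ x ∈ S, ∏ l ∈ P, f l (k x l) =
        ∑ x ∈ S, ∏ l ∈ P, f l (k (x₁ + Q * ((x - x₁) / Q)) l) :=
      Finset.sum_congr rfl fun x hx => by rw [hback x hx]
    rw [e6]
    refine key.trans ?_
    have e7 := h1 P a N N' (fun l hl => ⟨(hP l hl).1, (hP l hl).2.neg_two_le⟩) n1 n2
    have e8 : ∏ l ∈ P, 1 / (l : ℝ) ^ e l = 1 / (Q : ℝ) := by
      rw [hQ, Finset.prod_div_distrib, Finset.prod_const_one]
      push_cast
      rfl
    have hQr : (0 : ℝ) < Q := by exact_mod_cast hQ0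
    have e9 : (N' : ℝ) ≤ 2 * N * (1 / (Q : ℝ)) := by
      rw [mul_one_div, le_div_iff₀ hQr]
      exact_mod_cast n3
    rw [e8]
    calc C0 * N' * Real.exp (∑ l ∈ P.filter (fun l => l ≤ N'), a l / l)
        ≤ C0 * (2 * N * (1 / (Q : ℝ))) *
          (C1 * Real.exp (∑ l ∈ P.filter (fun l => l ≤ N), a l / l)) := by gcongr
      _ = _ := by ring
  · intro z hz
    obtain ⟨x, hx, rfl⟩ := Finset.mem_image.1 hz
    obtain ⟨a1, a2, a3, a4, -, a6⟩ := hS x hx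
    have b1 : x₁ ≤ x := S.min'_le x hx
    have b2 := (hS x₁ hx₁S).1
    refine ⟨Int.ediv_nonneg (by linarith) hQz.le, ?_, fun l hl => ?_, ?_⟩
    · rw [zero_add, Int.ediv_lt_iff_lt_mul hQz]
      have b3 : N - 1 < N' * Q := by
        have := Nat.lt_div_mul_add (a := N - 1) hQ0
        rw [hN']
        nlinarith
      have b4 : (N : ℤ) ≤ (N' : ℤ) * Q := by
        have : N ≤ N' * Q := by omega
        exact_mod_cast this
      linarith
    · have := (a6 l hl).2.1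
      rw [hback x hx]
      unfold At at this ⊢
      simp only [hy x hx l hl]
      exact this
    · rw [hback x hx]
      have b5 := tsh2_dvd P (fun l hl => (hP l hl).1) (k x) (B x) fun l hl => (a6 l hl).2.2
      have b6 : ∏ l ∈ P, l ^ k x l ≤ (B x).natAbs :=
        Nat.le_of_dvd (Int.natAbs_pos.2 a3) (Int.natCast_dvd.1 b5)
      refine b6.trans (a4.trans ?_)
      rw [pow_mul]
      exact Nat.pow_le_pow_left n2 _

theorem shiu_types (K : ℝ) (A : ℕ) : ∃ C : ℝ, 0 < C ∧ ∀ (P : Finset ℕ) (x₀ : ℤ) (N : ℕ)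
    (S : Finset ℤ) (B : ℤ → ℤ) (w : ℕ → ℤ → ℝ) (mu : ℕ → ℤ → ℕ) (M a : ℕ → ℝ),
    (∀ l ∈ P, l.Prime ∧ LS K l S B (w l) (mu l) (M l) (a l)) →
    (∀ x ∈ S, x₀ ≤ x ∧ x < x₀ + N ∧ (∀ l ∈ P, 0 ≤ w l x) ∧ B x ≠ 0 ∧ (B x).natAbs ≤ N ^ A ∧
      (∏ l ∈ P, l ^ mu l x) ^ 2 ≤ N) →
    ∑ x ∈ S, ∏ l ∈ P, w l x ≤
      C * N * (∏ l ∈ P, M l) * Real.exp (∑ l ∈ P.filter (fun l => l ≤ N), a l / l) := by
  classical
  obtain ⟨C, hC, h0⟩ := tsh2_one K A
  refine ⟨C, hC, fun P x₀ N S B w mu M a hP hS => ?_⟩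
  have hP' : ∀ l ∈ P, LS K l S B (w l) (mu l) (M l) (a l) := fun l hl => (hP l hl).2
  unfold LS at hP'
  choose! T π Ω f h1 h2 h3 using hP'
  set S₁ := S.filter (fun x => ∏ l ∈ P, w l x ≠ 0) with hS₁
  have hch : ∀ x ∈ S₁, ∀ l ∈ P, ∃ t ∈ T l, ∃ (y : ℤ) (k : ℕ), t.1 ≤ mu l x ∧
      x = t.2.1 + (l : ℤ) ^ t.1 * y ∧ At (Ω l t) y k ∧ (l : ℤ) ^ k ∣ B x ∧
      w l x ≤ π l t * f l t k := by
    intro x hx l hl
    obtain ⟨hxS, hx0⟩ := Finset.mem_filter.1 hx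
    rcases h3 l hl x hxS with h | h
    · exact absurd (Finset.prod_eq_zero hl (le_antisymm h ((hS x hxS).2.2.1 l hl))) hx0
    · exact h
  choose! t ht y k c1 c2 c3 c4 c5 using hch
  set E := Real.exp (∑ l ∈ P.filter (fun l => l ≤ N), a l / l) with hE
  have hE0 : 0 < E := Real.exp_pos _
  have s1 : ∑ x ∈ S, ∏ l ∈ P, w l x = ∑ x ∈ S₁, ∏ l ∈ P, w l x :=
    (Finset.sum_filter_ne_zero S).symm
  have hmap : ∀ x ∈ S₁, (fun l (_ : l ∈ P) => t x l) ∈ P.pi T := fun x hx =>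
    Finset.mem_pi.2 fun l hl => ht x hx l hl
  rw [s1, ← Finset.sum_fiberwise_of_maps_to hmap]
  have s2 : ∀ p ∈ P.pi T, ∑ x ∈ S₁ with (fun l (_ : l ∈ P) => t x l) = p, ∏ l ∈ P, w l x ≤
      C * N * E * ∏ l ∈ P.attach, π l.1 (p l.1 l.2) / (l.1 : ℝ) ^ (p l.1 l.2).1 := by
    intro p hp
    set τ : ℕ → ℕ × ℤ × ℕ := fun l => if h : l ∈ P then p l h else (0, 0, 0) with hτ
    have hτ1 : ∀ l (hl : l ∈ P), τ l = p l hl := fun l hl => by simp only [hτ, dif_pos hl]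
    have hτT : ∀ l ∈ P, τ l ∈ T l := fun l hl => by
      rw [hτ1 l hl]
      exact Finset.mem_pi.1 hp l hl
    have hτ2 : ∀ x ∈ S₁.filter (fun x => (fun l (_ : l ∈ P) => t x l) = p), ∀ l ∈ P,
        t x l = τ l := by
      intro x hx l hl
      rw [hτ1 l hl, ← (Finset.mem_filter.1 hx).2]
    have key := h0 P x₀ N (S₁.filter (fun x => (fun l (_ : l ∈ P) => t x l) = p)) B
      (fun l => (τ l).1) (fun l => (τ l).2.1) (fun l => Ω l (τ l)) (fun l => f l (τ l)) a y k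
      (fun l hl => ⟨(hP l hl).1, (h1 l hl _ (hτT l hl)).2⟩) ?_
    · have s3 : ∏ l ∈ P.attach, π l.1 (p l.1 l.2) / (l.1 : ℝ) ^ (p l.1 l.2).1 =
          (∏ l ∈ P, π l (τ l)) * ∏ l ∈ P, 1 / (l : ℝ) ^ (τ l).1 := by
        rw [← Finset.prod_mul_distrib,
          ← Finset.prod_attach P (fun l => π l (τ l) * (1 / (l : ℝ) ^ (τ l).1))]
        refine Finset.prod_congr rfl fun l _ => ?_
        rw [hτ1 l.1 l.2, mul_one_div]
      have s4 : 0 ≤ ∏ l ∈ P, π l (τ l) :=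
        Finset.prod_nonneg fun l hl => (h1 l hl _ (hτT l hl)).1
      calc ∑ x ∈ S₁ with (fun l (_ : l ∈ P) => t x l) = p, ∏ l ∈ P, w l x
          ≤ ∑ x ∈ S₁ with (fun l (_ : l ∈ P) => t x l) = p,
            (∏ l ∈ P, π l (τ l)) * ∏ l ∈ P, f l (τ l) (k x l) := by
            refine Finset.sum_le_sum fun x hx => ?_
            have hx1 := (Finset.mem_filter.1 hx).1
            rw [← Finset.prod_mul_distrib]
            refine Finset.prod_le_prod (fun l hl => (hS x (Finset.mem_filter.1 hx1).1).2.2.1 l hl)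
              fun l hl => ?_
            rw [← hτ2 x hx l hl]
            exact c5 x hx1 l hl
        _ ≤ (∏ l ∈ P, π l (τ l)) * (C * N * (∏ l ∈ P, 1 / (l : ℝ) ^ (τ l).1) * E) := by
            rw [← Finset.mul_sum]
            exact mul_le_mul_of_nonneg_left key s4
        _ = _ := by rw [s3]; ring
    · intro x hx
      have hx1 := (Finset.mem_filter.1 hx).1
      obtain ⟨a1, a2, -, a4, a5, a6⟩ := hS x (Finset.mem_filter.1 hx1).1
      refine ⟨a1, a2, a4, a5, le_trans (Nat.pow_le_pow_left ?_ 2) a6, fun l hl => ?_⟩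
      · refine Finset.prod_le_prod' fun l hl => Nat.pow_le_pow_right (hP l hl).1.pos ?_
        rw [← hτ2 x hx l hl]
        exact c1 x hx1 l hl
      · simp only [← hτ2 x hx l hl]
        exact ⟨c2 x hx1 l hl, c3 x hx1 l hl, c4 x hx1 l hl⟩
  refine (Finset.sum_le_sum s2).trans ?_
  rw [← Finset.mul_sum, ← Finset.prod_sum P T (fun l s => π l s / (l : ℝ) ^ s.1)]
  have s5 : ∏ l ∈ P, ∑ s ∈ T l, π l s / (l : ℝ) ^ s.1 ≤ ∏ l ∈ P, M l :=
    Finset.prod_le_prod (fun l hl => Finset.sum_nonneg fun s hs =>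
      div_nonneg (h1 l hl s hs).1 (by positivity)) h2
  calc C * N * E * ∏ l ∈ P, ∑ s ∈ T l, π l s / (l : ℝ) ^ s.1
      ≤ C * N * E * ∏ l ∈ P, M l := mul_le_mul_of_nonneg_left s5 (by positivity)
    _ = _ := by ring

end Pool.Agent.EQ
end
end
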