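import Pool.Agent.K.MP_ad7a55_nt.C6
import Pool.Agent.K.MP_ad7a55_nt.C13
import Pool.Agent.K.MP_ad7a55_nt.C14

/-! The number of configurations is bounded by the weight. -/

set_option autoImplicit false

noncomputable section

open Finset Matrix

namespace Pool.Agent.EQ

namespace Dt

variable {d : Dt} {κ : ℕ}

theorem Cf.pr {X Y : ℤ} {Θ η₁ η₂ : M2} (h : d.Cf X Y Θ η₁ η₂) (x y : ℤ) :
    Pr d.E (x * Y - y * X) (d.m * d.F x y) (x * d.x₁ X Y + y * d.x₂ X Y)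
      (Θ, x • η₁ + y • η₂) ∧
    (x * d.x₁ X Y + y * d.x₂ X Y) ^ 2 -
      d.E * ((x * Y - y * X) ^ 2 - 4 * (d.m * d.F x y)) = 4 * d.F x y * d.B X Y := by
  refine ⟨⟨h.th, ?_, h.det x y, ?_⟩, ?_⟩
  · simp only [trace_add, trace_smul, h.t₁, h.t₂, smul_eq_mul]; ring
  · show (Θ * (x • η₁ + y • η₂)).trace = _
    rw [trace_mul_comm, add_mul, smul_mul_assoc, smul_mul_assoc, h.r₁, h.r₂]
    simp only [trace_add, trace_sub, trace_smul, h.t₁, h.t₂, smul_eq_mul, x₁, x₂]; ring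
  · simp only [x₁, x₂, E, B, F]; ring

theorem twt_rec {X Y : ℤ} {Θ η₁ η₂ : M2} (h : d.Cf X Y Θ η₁ η₂) (x y : ℤ) :
    (2 * d.F x y) • η₁ =
      (2 * d.a * x + d.b * y) • (x • η₁ + y • η₂) + y • ((x • η₁ + y • η₂) * Θ) := by
  rw [add_mul, smul_mul_assoc, smul_mul_assoc, h.r₁, h.r₂]
  simp only [F]
  module

theorem Cf.le (h : d.Good κ) {X Y : ℤ} {Θ η₁ η₂ Θ' η₁' η₂' : M2} (h₁ : d.Cf X Y Θ η₁ η₂)
    (h₂ : d.Cf X Y Θ' η₁' η₂') {x y : ℤ} (hF : d.F x y ≠ 0) {l : ℕ}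
    (hl : Leq l (Θ, x • η₁ + y • η₂) (Θ', x • η₁' + y • η₂')) : Leq l (Θ, η₁) (Θ', η₁') := by
  have _ := h
  obtain ⟨g, hg, h1, h2⟩ := hl
  refine ⟨g, hg, h1, ?_⟩
  simp only at h1 h2 ⊢
  have h2F : (2 * d.F x y) ≠ 0 := mul_ne_zero two_ne_zero hF
  apply smul_right_injective M2 h2F
  simp only
  have e1 := twt_rec h₁ x y
  have e2 := twt_rec h₂ x y
  generalize x • η₁ + y • η₂ = s at *
  generalize x • η₁' + y • η₂' = s' at *
  rw [← mul_smul_comm, ← smul_mul_assoc _ η₁', e1, e2, mul_add, add_mul, mul_smul_comm,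
    mul_smul_comm, smul_mul_assoc, smul_mul_assoc, ← mul_assoc, h2, mul_assoc s', h1,
    mul_assoc s']

theorem twt_transfer (h : d.Good κ) {l : ℕ} (hl : l.Prime) {X Y x y : ℤ} (hF : d.F x y ≠ 0)
    {R : M2 → M2 → M2 → Prop} {S : Set (M2 × M2)} {W : ℝ}
    (hS : ∀ Θ η₁ η₂, d.Cf X Y Θ η₁ η₂ → d.TG Θ η₁ η₂ → R Θ η₁ η₂ → (Θ, x • η₁ + y • η₂) ∈ S)
    (hW : Few (Leq l) S W) : Few (Leq l) (d.CS X Y R) W := by
  refine hW.of_rel (fun a b => ∃ η₂, d.Cf X Y a.1 a.2 η₂ ∧ b = (a.1, x • a.2 + y • η₂)) ?_ ?_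
  · rintro a ⟨η₂, h1, h2, h3⟩
    exact ⟨_, hS _ _ _ h1 h2 h3, η₂, h1, rfl⟩
  · rintro a - a' - b b' ⟨η, h1, rfl⟩ ⟨η', h1', rfl⟩ hb
    refine Cf.le h h1 h1' hF ?_
    rcases hb with hb | hb
    · rw [hb]; exact Leq.refl hl _
    · exact hb

theorem twt_prim (h : d.Good κ) {q z : ℤ} (ha : q ∣ d.a * z) (hb : q ∣ d.b * z)
    (hc : q ∣ d.c * z) : q ∣ z := by
  have h1 := Int.gcd_eq_gcd_ab d.a d.b
  have h2 := Int.gcd_eq_gcd_ab (Int.gcd d.a d.b : ℤ) d.c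
  rw [h.prim, h1] at h2
  have e : z = (d.a * z * d.a.gcdA d.b + d.b * z * d.a.gcdB d.b) *
      Int.gcdA (d.a * d.a.gcdA d.b + d.b * d.a.gcdB d.b) d.c +
      d.c * z * Int.gcdB (d.a * d.a.gcdA d.b + d.b * d.a.gcdB d.b) d.c := by
    push_cast at h2
    linear_combination z * h2
  rw [e]
  exact dvd_add ((dvd_add (ha.mul_right _) (hb.mul_right _)).mul_right _) (hc.mul_right _)

theorem twt_choose (h : d.Good κ) {l : ℕ} (hl : l.Prime) (X Y : ℤ) :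
    ∃ x y : ℤ, ¬ (l : ℤ) ∣ d.F x y ∧ ((l : ℤ) ∣ d.E →
      x * d.x₁ X Y + y * d.x₂ X Y = d.xe l X Y ∧
        (x * Y - y * X) ^ 2 - 4 * (d.m * d.F x y) = d.Δe l X Y) := by
  by_cases ha : (l : ℤ) ∣ d.a
  · by_cases hc : (l : ℤ) ∣ d.c
    · have hE : ¬ (l : ℤ) ∣ d.E := fun hE => (not_dvd_c h hl ha hE).2 hc
      refine ⟨1, 1, fun hF => hE ?_, fun h' => absurd h' hE⟩
      have hb : (l : ℤ) ∣ d.b := by
        have e : d.b = d.F 1 1 - d.a - d.c := by simp only [F]; ring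
        rw [e]; exact (hF.sub ha).sub hc
      have e : d.E = d.b * d.b - d.a * (4 * d.c) := by simp only [E]; ring
      rw [e]; exact (hb.mul_right _).sub (ha.mul_right _)
    · refine ⟨0, 1, by simpa [F] using hc, fun _ => ?_⟩
      simp [xe, Δe, ha, F, Δ₂]
  · refine ⟨1, 0, by simpa [F] using ha, fun _ => ?_⟩
    simp [xe, Δe, ha, F, Δ₁]

theorem twt_nr_int {l : ℕ} [Fact l.Prime] (z : ℤ) : nr l z ≤ 1 := by
  unfold nr
  rw [Rat.cast_intCast]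
  exact Padic.norm_int_le_one z

theorem twt_nr_le {l : ℕ} [Fact l.Prime] {t u : ℚ} (x E b : ℤ) (ht : nr l t ≤ 1)
    (hu : nr l u ≤ 1) : nr l (x - E * t + u * b) ≤ 1 := by
  have hx := twt_nr_int (l := l) x
  have hE := twt_nr_int (l := l) E
  have hb := twt_nr_int (l := l) b
  unfold nr at *
  push_cast at *
  refine (Padic.nonarchimedean _ _).trans (max_le ?_ ?_)
  · rw [sub_eq_add_neg]
    refine (Padic.nonarchimedean _ _).trans (max_le hx ?_)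
    rw [norm_neg, norm_mul]
    exact mul_le_one₀ hE (norm_nonneg _) ht
  · rw [norm_mul]
    exact mul_le_one₀ hu (norm_nonneg _) hb

theorem twt_val {l : ℕ} [Fact l.Prime] {f z : ℤ} (hf : ¬ (l : ℤ) ∣ f) (hz : z ≠ 0) :
    padicValInt l (f * z) = padicValInt l z := by
  have hf0 : f ≠ 0 := by rintro rfl; exact hf (dvd_zero _)
  rw [padicValInt.mul hf0 hz, padicValInt.eq_zero_of_not_dvd hf, zero_add]

theorem twt_four {l : ℕ} (hl : l.Prime) (h2 : l ≠ 2) : ¬ (l : ℤ) ∣ 4 := by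
  intro h4
  have h4' : l ∣ 2 ^ 2 := by exact_mod_cast h4
  exact h2 ((Nat.prime_dvd_prime_iff_eq hl Nat.prime_two).1 (hl.dvd_of_dvd_pow h4'))

theorem twt_dom (h : d.Good κ) {l : ℕ} (hl : l.Prime) (hD : d.Dom l) (X Y : ℤ) :
    Few (Leq l) (d.CS X Y fun _ _ _ => True) 1 := by
  have := Fact.mk hl
  obtain ⟨x, y, hF, -⟩ := twt_choose h hl X Y
  have hF0 : d.F x y ≠ 0 := fun h0 => hF (h0 ▸ dvd_zero _)
  have hG0 : d.G ≠ 0 := (Nat.mul_pos h.g₁_pos h.g₂_pos).ne'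
  have hlG : l ∣ d.G := by
    rcases hD.2 with h1 | h1
    · exact dvd_of_one_le_padicValNat (by omega)
    · exact h1.2
  have hk : padicValInt l d.n + 3 ≤ padicValNat l d.G ∨
      (l ≠ 2 ∧ padicValInt l d.n < padicValNat l d.G) := by
    rcases hD.2 with h1 | h1
    · exact Or.inl h1
    · refine Or.inr ⟨?_, ?_⟩
      · rintro rfl
        exact h1.1 (dvd_mul_right _ _)
      · rw [padicValInt.eq_zero_of_not_dvd fun h' => h1.1 (h'.mul_left _)]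
        exact one_le_padicValNat_of_dvd hG0 hlG
  have hGz : (d.G : ℤ) ≠ 0 := by exact_mod_cast hG0
  have hm : d.m ≠ 0 := mul_ne_zero h.n_ne hGz
  have hv : padicValInt l (d.m * d.F x y) = padicValNat l d.G + padicValInt l d.n := by
    rw [mul_comm, twt_val hF hm, m, padicValInt.mul h.n_ne hGz, padicValInt.of_nat, add_comm]
  have hE0 : d.E ≠ 0 := h.E_neg.ne
  have hN : d.m * d.F x y ≠ 0 := mul_ne_zero hm hF0
  have hval : padicValNat l d.G = padicValNat l d.g₁ + padicValNat l d.g₂ :=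
    padicValNat.mul h.g₁_pos.ne' h.g₂_pos.ne'
  rcases (Nat.Prime.dvd_mul hl).1 hlG with h1 | h1
  · have h2 : ¬ l ∣ d.g₂ := fun h2 => hl.one_lt.ne' (Nat.eq_one_of_dvd_coprimes h.cop h1 h2)
    rw [padicValNat.eq_zero_of_not_dvd h2, add_zero] at hval
    refine twt_transfer h hl hF0 (S := {P | Pr d.E (x * Y - y * X) (d.m * d.F x y)
      (x * d.x₁ X Y + y * d.x₂ X Y) P ∧ ∃ v, Gn l P.1 v ∧
        ∀ i, (l : ℤ) ^ padicValNat l d.G ∣ (P.2.adjugate *ᵥ v) i}) ?_ ?_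
    · intro Θ η₁ η₂ c1 c2 _
      refine ⟨(c1.pr x y).1, ?_⟩
      rw [hval]
      exact (c2 l hl x y hF).1 h1
    · refine few_of_rp hE0 (fun P hP => hP.1) ?_
        (loc_dom (x := x * d.x₁ X Y + y * d.x₂ X Y) (y := x * Y - y * X) hE0 hN hv hk)
      rintro P ⟨hP, v, hv1, hv2⟩
      obtain ⟨u, t, r1, -, -, r2⟩ := exists_rp hP hv1
      obtain ⟨s1, s2⟩ := (rp_small hP hv1 r1).2 hv2
      exact ⟨v, u, t, hv1, r1, t, rfl, r2, s1, s2⟩
  · have h2 : ¬ l ∣ d.g₁ := fun h2 => hl.one_lt.ne' (Nat.eq_one_of_dvd_coprimes h.cop h2 h1)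
    rw [padicValNat.eq_zero_of_not_dvd h2, zero_add] at hval
    refine twt_transfer h hl hF0 (S := {P | Pr d.E (x * Y - y * X) (d.m * d.F x y)
      (x * d.x₁ X Y + y * d.x₂ X Y) P ∧ ∃ v, Gn l P.1 v ∧
        ∀ i, (l : ℤ) ^ padicValNat l d.G ∣ (P.2 *ᵥ v) i}) ?_ ?_
    · intro Θ η₁ η₂ c1 c2 _
      refine ⟨(c1.pr x y).1, ?_⟩
      rw [hval]
      exact (c2 l hl x y hF).2 h1
    · refine few_of_rp hE0 (fun P hP => hP.1) ?_
        (loc_dom (x := x * d.x₁ X Y + y * d.x₂ X Y) (y := -(x * Y - y * X)) hE0 hN hv hk)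
      rintro P ⟨hP, v, hv1, hv2⟩
      obtain ⟨u, t, r1, -, -, r2⟩ := exists_rp hP hv1
      obtain ⟨s1, s2⟩ := (rp_small hP hv1 r1).1 hv2
      refine ⟨v, u, t, hv1, r1, t, rfl, ?_, ?_, s2⟩
      · rw [neg_sq]; exact r2
      · rw [Int.cast_neg, sub_neg_eq_add]; exact s1

theorem twt_LA (h : d.Good κ) {l : ℕ} [hl : Fact l.Prime] {X Y x y : ℤ} (hF : d.F x y ≠ 0)
    {W : ℝ} (hW : Few (Rl l d.E) (LA l d.E (x * d.x₁ X Y + y * d.x₂ X Y)
      ((x * Y - y * X) ^ 2 - 4 * (d.m * d.F x y))) W) :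
    Few (Leq l) (d.CS X Y fun _ _ _ => True) W :=
  twt_transfer h hl.out hF (fun _ _ _ c1 _ _ => (c1.pr x y).1) (few_of_LA h.E_neg.ne hW)

theorem twt_key (X Y x y : ℤ) : (x * d.x₁ X Y + y * d.x₂ X Y) ^ 2 -
    d.E * ((x * Y - y * X) ^ 2 - 4 * (d.m * d.F x y)) = d.F x y * (4 * d.B X Y) := by
  simp only [x₁, x₂, E, B, F]; ring

theorem twt_W5 (h : d.Good κ) {l : ℕ} (hl : l.Prime) {X Y : ℤ} (hB : d.B X Y ≠ 0) :
    Few (Leq l) (d.CS X Y fun _ _ _ => True) (d.W5 l X Y) := by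
  have := Fact.mk hl
  obtain ⟨x, y, hF, he⟩ := twt_choose h hl X Y
  have hF0 : d.F x y ≠ 0 := fun h0 => hF (h0 ▸ dvd_zero _)
  have hB4 : 4 * d.B X Y ≠ 0 := mul_ne_zero four_ne_zero hB
  have hi : d.ie l X Y = padicValNat l (Int.gcd (Int.gcd (x * d.x₁ X Y + y * d.x₂ X Y)
      ((x * Y - y * X) ^ 2 - 4 * (d.m * d.F x y))) d.E) / 2 := by
    by_cases hE : (l : ℤ) ∣ d.E
    · rw [(he hE).1, (he hE).2]; rfl
    · have h0 : ∀ z : ℤ, padicValNat l (Int.gcd z d.E) = 0 := fun z =>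
        padicValNat.eq_zero_of_not_dvd fun hd =>
          hE ((Int.natCast_dvd_natCast.2 hd).trans (Int.gcd_dvd_right _ _))
      rw [ie, h0, h0]
  have := loc_all (l := l) h.E_neg (by rw [twt_key]; exact mul_ne_zero hF0 hB4) hi
  rw [twt_key, twt_val hF hB4] at this
  exact twt_LA h hF0 this

theorem few_Wt (h : d.Good κ) {l : ℕ} (hl : l.Prime) {X Y : ℤ} (hB : d.B X Y ≠ 0) :
    Few (Leq l) (d.CS X Y fun _ _ _ => True) (d.Wt l X Y) := by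
  have := Fact.mk hl
  obtain ⟨x, y, hF, he⟩ := twt_choose h hl X Y
  have hF0 : d.F x y ≠ 0 := fun h0 => hF (h0 ▸ dvd_zero _)
  have hB4 : 4 * d.B X Y ≠ 0 := mul_ne_zero four_ne_zero hB
  have hZ := mul_ne_zero hF0 hB4
  rw [← twt_key] at hZ
  unfold Wt
  by_cases hD : d.Dom l
  · rw [if_pos hD]; exact twt_dom h hl hD X Y
  rw [if_neg hD]
  by_cases h1 : (l : ℤ) ∣ 2 * d.n * d.p
  · rw [if_pos h1]; exact twt_W5 h hl hB
  rw [if_neg h1]
  have h2 : l ≠ 2 := by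
    rintro rfl
    exact h1 ((dvd_mul_right _ _).mul_right _)
  have hv : padicValInt l ((x * d.x₁ X Y + y * d.x₂ X Y) ^ 2 -
      d.E * ((x * Y - y * X) ^ 2 - 4 * (d.m * d.F x y))) = padicValInt l (d.B X Y) := by
    rw [twt_key, twt_val hF hB4, twt_val (twt_four hl h2) hB]
  by_cases hE : (l : ℤ) ∣ d.E
  · rw [if_neg (not_not.2 hE), ← (he hE).1, ← (he hE).2]
    split_ifs with h3 h4
    · exact twt_W5 h hl hB
    · exact twt_LA h hF0 (loc_ram' h2 h.E_neg.ne hE h3 h4)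
    · exact twt_LA h hF0 (loc_ram h2 hE h3)
  rw [if_pos hE]
  by_cases hj : jacobiSym d.E l = 1
  · rw [if_pos hj]
    have := loc_split (l := l) h2 hj hZ (k := 0) (b₀ := 0) (by simp)
    rw [hv] at this
    refine twt_LA h hF0 (this.mono ?_ (by push_cast; exact le_rfl))
    rintro a ⟨t, h3, h4, h5, h6⟩
    refine ⟨⟨t, h3, h4, h5, h6⟩, ?_⟩
    rw [h5, Nat.cast_zero, neg_zero, zpow_zero]
    exact twt_nr_le _ _ 0 h3 h4
  · rw [if_neg hj]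
    have hj' : jacobiSym d.E l = -1 := by
      refine (jacobiSym.eq_one_or_neg_one ?_).resolve_left hj
      rw [Int.gcd_comm]
      exact Int.isCoprime_iff_gcd_eq_one.1
        (((Nat.prime_iff_prime_int.1 hl).irreducible.coprime_iff_not_dvd).2 hE)
    have := loc_inert (l := l) h2 hj' hZ
    rw [hv] at this
    exact twt_LA h hF0 this

theorem twt_global (h : d.Good κ) {X Y : ℤ} (hB : d.B X Y ≠ 0) {R : M2 → M2 → M2 → Prop}
    (W : ℕ → ℝ) (hW : ∀ l ∈ d.PP X Y, Few (Leq l) (d.CS X Y R) (W l)) :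
    Few Geq (d.CS X Y R) (∏ l ∈ d.PP X Y, W l) := by
  refine local_global (E := d.E) (Y := 1 * Y - 0 * X) (N := d.m * d.F 1 0)
    (x := 1 * d.x₁ X Y + 0 * d.x₂ X Y) h.E_neg ?_ ?_ _
    (fun l hl => Nat.prime_of_mem_primeFactors hl) W hW ?_
  · rw [← sub_ne_zero, twt_key]
    refine mul_ne_zero ?_ (mul_ne_zero four_ne_zero hB)
    simpa [F] using h.a_pos.ne'
  · rintro P ⟨η₂, c1, -⟩
    simpa using (c1.pr 1 0).1
  · intro l hl hP
    refine (few_Wt h hl hB).mono ?_ (Wt_eq_one h hl hB hP).le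
    rintro P ⟨η₂, c1, c2, -⟩
    exact ⟨η₂, c1, c2, trivial⟩

theorem few_WW (h : d.Good κ) {X Y : ℤ} (hB : d.B X Y ≠ 0) :
    Few Geq (d.CS X Y fun _ _ _ => True) (d.WW X Y) :=
  twt_global h hB _ fun _ hl => few_Wt h (Nat.prime_of_mem_primeFactors hl) hB

theorem twt_lev (h : d.Good κ) (h2 : d.p ≠ 2) (hE : jacobiSym d.E d.p = 1) (k : ℕ) (b₀ : ℤ)
    {X Y : ℤ} (hB : d.B X Y ≠ 0) :
    Few (Leq d.p) (d.CS X Y (Lvl (d.p ^ k) b₀))
      ((padicValInt d.p (d.B X Y) + 1 - k : ℕ) : ℝ) := by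
  have hl := h.prime
  have := Fact.mk hl
  obtain ⟨x, y, hF, -⟩ := twt_choose h hl X Y
  have hF0 : d.F x y ≠ 0 := fun h0 => hF (h0 ▸ dvd_zero _)
  have hB4 : 4 * d.B X Y ≠ 0 := mul_ne_zero four_ne_zero hB
  have hZ := mul_ne_zero hF0 hB4
  rw [← twt_key] at hZ
  have hv : padicValInt d.p ((x * d.x₁ X Y + y * d.x₂ X Y) ^ 2 -
      d.E * ((x * Y - y * X) ^ 2 - 4 * (d.m * d.F x y))) = padicValInt d.p (d.B X Y) := by
    rw [twt_key, twt_val hF hB4, twt_val (twt_four hl h2) hB]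
  have hpE : ¬ (d.p : ℤ) ∣ 2 * d.E := by
    intro hd
    rcases (Nat.prime_iff_prime_int.1 hl).dvd_or_dvd hd with h3 | h3
    · exact twt_four hl h2 (h3.trans (by norm_num))
    · rw [jacobiSym.mod_left, Int.emod_eq_zero_of_dvd h3, jacobiSym.zero_left hl.one_lt] at hE
      exact zero_ne_one hE
  refine twt_transfer h hl hF0 (S := {P | Pr d.E (x * Y - y * X) (d.m * d.F x y)
      (x * d.x₁ X Y + y * d.x₂ X Y) P ∧ ∃ (w : Fin 2 → ℤ) (lam : ℤ), (∃ i, ¬ (d.p : ℤ) ∣ w i) ∧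
        (∀ i, (d.p : ℤ) ^ k ∣ (P.1 *ᵥ w) i - b₀ * w i) ∧
        ∀ i, (d.p : ℤ) ^ k ∣ (P.2 *ᵥ w) i - lam * w i}) ?_ ?_
  · rintro Θ η₁ η₂ c1 - ⟨v, r, s, l₁, l₂, a1, a2, a3, a4⟩
    refine ⟨(c1.pr x y).1, ?_⟩
    push_cast at a1 a2 a3 a4
    rcases Nat.eq_zero_or_pos k with rfl | hk
    · refine ⟨fun _ => 1, 0, ⟨0, ?_⟩, by simp, by simp⟩
      exact (Nat.prime_iff_prime_int.1 hl).not_dvd_one
    · refine ⟨v, x * l₁ + y * l₂, ?_, fun i => (dvd_mul_left _ _).trans (a2 i), fun i => ?_⟩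
      · by_contra hn
        push Not at hn
        have h3 := (dvd_pow_self (d.p : ℤ) hk.ne').trans a1
        have h4 := (((hn 0).mul_left r).add ((hn 1).mul_left s)).sub h3
        rw [sub_sub_cancel] at h4
        exact (Nat.prime_iff_prime_int.1 hl).not_dvd_one h4
      · have e : ((x • η₁ + y • η₂) *ᵥ v) i - (x * l₁ + y * l₂) * v i =
            x * ((η₁ *ᵥ v) i - l₁ * v i) + y * ((η₂ *ᵥ v) i - l₂ * v i) := by
          simp only [add_mulVec, smul_mulVec, Pi.add_apply, Pi.smul_apply, smul_eq_mul]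
          ring
        simp only [e]
        exact ((a3 i).mul_left _).add ((a4 i).mul_left _)
  by_cases hb : (d.p : ℤ) ^ k ∣ b₀ ^ 2 - d.E
  · have := loc_split (l := d.p) h2 hE hZ hb
    rw [hv] at this
    refine few_of_rp h.E_neg.ne (fun P hP => hP.1) ?_ this
    rintro P ⟨hP, w, lam, a1, a2, a3⟩
    obtain ⟨v, hv1⟩ := hP.1.exists_gn hl
    obtain ⟨u, t, r1, r2, r3, r4⟩ := exists_rp hP hv1
    exact ⟨v, u, t, hv1, r1, ⟨t, r2, r3, rfl, r4⟩, (rp_level hP hpE hv1 r1 a1 a2 a3).1⟩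
  · intro T hT _
    have : T = ∅ := by
      refine eq_empty_of_forall_notMem fun P hP => hb ?_
      obtain ⟨hP, w, lam, a1, a2, a3⟩ := hT P hP
      obtain ⟨v, hv1⟩ := hP.1.exists_gn hl
      obtain ⟨u, t, r1, -⟩ := exists_rp hP hv1
      exact (rp_level hP hpE hv1 r1 a1 a2 a3).2
    rw [this]
    simp

theorem few_lev (h : d.Good κ) (h2 : d.p ≠ 2) (hE : jacobiSym d.E d.p = 1) (k : ℕ) (b₀ : ℤ)
    {X Y : ℤ} (hB : d.B X Y ≠ 0) :
    Few Geq (d.CS X Y (Lvl (d.p ^ k) b₀))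
      (d.WS {d.p} (fun l X Y => ((padicValInt l (d.B X Y) + 1 - k : ℕ) : ℝ)) X Y) := by
  have hp : d.p ∈ d.PP X Y := by
    refine Nat.mem_primeFactors.2 ⟨h.prime, ?_, ?_⟩
    · exact Int.natCast_dvd.1 ((dvd_mul_left _ _).mul_right _)
    · refine Int.natAbs_ne_zero.2 (mul_ne_zero (mul_ne_zero (mul_ne_zero two_ne_zero h.n_ne) ?_) hB)
      exact_mod_cast h.prime.ne_zero
  have := twt_global h hB (R := Lvl (d.p ^ k) b₀) (fun l => if l = d.p then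
    ((padicValInt l (d.B X Y) + 1 - k : ℕ) : ℝ) else d.Wt l X Y) (by
      intro l hl
      split_ifs with h3
      · rw [h3]; exact twt_lev h h2 hE k b₀ hB
      · refine (few_Wt h (Nat.prime_of_mem_primeFactors hl) hB).mono ?_ le_rfl
        rintro P ⟨η₂, c1, c2, -⟩
        exact ⟨η₂, c1, c2, trivial⟩)
  refine this.mono subset_rfl (le_of_eq ?_)
  rw [WS, prod_singleton, ← mul_prod_erase _ _ hp, if_pos rfl, sdiff_singleton_eq_erase]
  congr 1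
  exact prod_congr rfl fun l hl => if_neg (ne_of_mem_erase hl)

theorem twt_det {q r s v w a b c e : ℤ} (h0 : q ∣ r * v + s * w - 1) (h1 : q ∣ a * v + b * w)
    (h2 : q ∣ c * v + e * w) : q ∣ a * e - b * c := by
  have e1 : a * e - b * c = (r * e - s * c) * (a * v + b * w) + (s * a - r * b) * (c * v + e * w) -
      (a * e - b * c) * (r * v + s * w - 1) := by ring
  rw [e1]
  exact ((h1.mul_left _).add (h2.mul_left _)).sub (h0.mul_left _)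

theorem twt_eig {E Y N x q b r s lam : ℤ} {P : M2 × M2} (hP : Pr E Y N x P) {v : Fin 2 → ℤ}
    (h0 : q ∣ r * v 0 + s * v 1 - 1) (h1 : ∀ i, q ∣ (P.1 *ᵥ v) i - b * v i)
    (h2 : ∀ i, q ∣ (P.2 *ᵥ v) i - lam * v i) :
    q ∣ (2 * lam - Y) ^ 2 - (Y ^ 2 - 4 * N) ∧ q ∣ x - b * (2 * lam - Y) ∧
      q ∣ x ^ 2 - E * (Y ^ 2 - 4 * N) := by
  obtain ⟨Θ, η⟩ := P
  obtain ⟨⟨A, B, C, -, -, hE, hΘ⟩, t1, t2, t3⟩ := hP
  simp only at hΘ t1 t2 t3 h1 h2
  subst hΘ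
  have a0 := h1 0
  have a1 := h1 1
  have b0 := h2 0
  have b1 := h2 1
  simp only [Th, mulVec, dotProduct, Fin.sum_univ_two, of_apply, cons_val', cons_val_zero,
    cons_val_one, cons_val_fin_one, trace_fin_two, det_fin_two, mul_apply] at a0 a1 b0 b1 t1 t2 t3
  have a0' : q ∣ (B - b) * v 0 + (2 * C) * v 1 := by
    refine (dvd_iff_dvd_of_dvd_sub ?_).1 a0; ring_nf; exact dvd_zero _
  have a1' : q ∣ (-2 * A) * v 0 + (-B - b) * v 1 := by
    refine (dvd_iff_dvd_of_dvd_sub ?_).1 a1; ring_nf; exact dvd_zero _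
  have b0' : q ∣ (η 0 0 - lam) * v 0 + η 0 1 * v 1 := by
    refine (dvd_iff_dvd_of_dvd_sub ?_).1 b0; ring_nf; exact dvd_zero _
  have b1' : q ∣ η 1 0 * v 0 + (η 1 1 - lam) * v 1 := by
    refine (dvd_iff_dvd_of_dvd_sub ?_).1 b1; ring_nf; exact dvd_zero _
  have c0 : q ∣ (B - b + (η 0 0 - lam)) * v 0 + (2 * C + η 0 1) * v 1 := by
    refine (dvd_iff_dvd_of_dvd_sub ?_).1 (a0'.add b0'); ring_nf; exact dvd_zero _
  have c1 : q ∣ (-2 * A + η 1 0) * v 0 + (-B - b + (η 1 1 - lam)) * v 1 := by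
    refine (dvd_iff_dvd_of_dvd_sub ?_).1 (a1'.add b1'); ring_nf; exact dvd_zero _
  have d1 := twt_det h0 a0' a1'
  have d2 := twt_det h0 b0' b1'
  have d3 := twt_det h0 c0 c1
  have g1 : q ∣ (2 * lam - Y) ^ 2 - (Y ^ 2 - 4 * N) := by
    refine (dvd_iff_dvd_of_dvd_sub ?_).1 (d2.mul_left 4)
    rw [← t1, ← t2]; ring_nf; exact dvd_zero _
  have g2 : q ∣ x - b * (2 * lam - Y) := by
    refine (dvd_iff_dvd_of_dvd_sub ?_).1 ((d1.add d2).sub d3)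
    rw [← t1, ← t3]; ring_nf; exact dvd_zero _
  have g3 : q ∣ b ^ 2 - E := by
    refine (dvd_iff_dvd_of_dvd_sub ?_).1 d1
    rw [← hE]; ring_nf; exact dvd_zero _
  refine ⟨g1, g2, ?_⟩
  have e : x ^ 2 - E * (Y ^ 2 - 4 * N) = (x + b * (2 * lam - Y)) * (x - b * (2 * lam - Y)) +
      (2 * lam - Y) ^ 2 * (b ^ 2 - E) + E * ((2 * lam - Y) ^ 2 - (Y ^ 2 - 4 * N)) := by ring
  rw [e]
  exact ((g2.mul_left _).add (g3.mul_left _)).add (g1.mul_left _)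

theorem levC_of_lvl (h : d.Good κ) {q : ℕ} (hq : 0 < q) {b₀ X Y : ℤ} {P : M2 × M2}
    (hP : P ∈ d.CS X Y (Lvl q b₀)) : d.LevC q b₀ X Y := by
  have _ := hq
  obtain ⟨η₂, c1, -, v, r, s, l₁, l₂, a1, a2, a3, a4⟩ := hP
  have key : ∀ x y : ℤ, _ := fun x y => twt_eig (lam := x * l₁ + y * l₂) (c1.pr x y).1 a1
    (fun i => (dvd_mul_left _ _).trans (a2 i)) (fun i => by
      have e : ((x • P.2 + y • η₂) *ᵥ v) i - (x * l₁ + y * l₂) * v i =
          x * ((P.2 *ᵥ v) i - l₁ * v i) + y * ((η₂ *ᵥ v) i - l₂ * v i) := by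
        simp only [add_mulVec, smul_mulVec, Pi.add_apply, Pi.smul_apply, smul_eq_mul]
        ring
      simp only [e]
      exact ((a3 i).mul_left _).add ((a4 i).mul_left _))
  have k1 := key 1 0
  have k2 := key 0 1
  have k3 := key 1 1
  rw [twt_key] at k1 k2 k3
  have f1 : d.F 1 0 = d.a := by simp [F]
  have f2 : d.F 0 1 = d.c := by simp [F]
  have f3 : d.F 1 1 = d.a + d.b + d.c := by simp [F]
  rw [f1] at k1
  rw [f2] at k2
  rw [f3] at k3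
  refine ⟨twt_prim h k1.2.2 ?_ k2.2.2, ⟨_, ?_, by simpa using k1.2.1⟩,
    ⟨_, ?_, by simpa using k2.2.1⟩⟩
  · refine (dvd_iff_dvd_of_dvd_sub ?_).1 ((k3.2.2.sub k1.2.2).sub k2.2.2)
    ring_nf; exact dvd_zero _
  · simpa [Δ₁] using k1.1
  · simpa [Δ₂] using k2.1

end Dt

end Pool.Agent.EQ
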