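import Pool.Agent.K.MP_ad7a55_nt.C9
import Pool.Agent.K.MP_ad7a55_nt.C15

-- part Pool.Agent.P.MP_ad7a55_nt.ULf
section

/-! Leafwise measures of a flow of a vector group: definitions and the basic identity. -/

set_option autoImplicit false

noncomputable section

open MeasureTheory Topology Filter UpperHalfPlane
open scoped MatrixGroups ENNReal BoundedContinuousFunction

namespace Pool.Agent.EQ

/-- The normalised Haar measure of the ball of radius `p ^ k`. -/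
def bmV (p : ℕ) [Fact p.Prime] (ι : Type) [Fintype ι] (k : ℤ) : Measure (ι → ℚ_[p]) :=
  Measure.pi fun _ => bm p k

instance instProbbmV (p : ℕ) [Fact p.Prime] (ι : Type) [Fintype ι] (k : ℤ) :
    IsProbabilityMeasure (bmV p ι k) := by
  unfold bmV; infer_instance

variable {p : ℕ} [Fact p.Prime] {ι : Type} [Fintype ι]

theorem ulf_norm_iff {k : ℤ} {v : ι → ℚ_[p]} :
    ‖v‖ ≤ (p : ℝ) ^ k ↔ ∀ i, ‖v i‖ ≤ (p : ℝ) ^ k :=
  pi_norm_le_iff_of_nonneg (beta_pos p k).le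

theorem ulf_ball (c : ι → ℚ_[p]) (l : ℤ) :
    {v : ι → ℚ_[p] | ‖v - c‖ ≤ (p : ℝ) ^ l} = Set.pi Set.univ fun i => pb p (c i) l := by
  ext v
  simp only [Set.mem_ofPred_eq, ulf_norm_iff, Set.mem_pi, Set.mem_univ, true_imp_iff, mem_pb,
    Pi.sub_apply]

theorem ulf_ball0 (l : ℤ) :
    {v : ι → ℚ_[p] | ‖v‖ ≤ (p : ℝ) ^ l} = Set.pi Set.univ fun _ => pb p 0 l := by
  ext v
  simp only [Set.mem_ofPred_eq, ulf_norm_iff, Set.mem_pi, Set.mem_univ, true_imp_iff, mem_pb,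
    sub_zero]

theorem ulf_pow (m : ℤ) : ∏ _i : ι, ENNReal.ofReal ((p : ℝ) ^ m) =
    ENNReal.ofReal ((p : ℝ) ^ (m * Fintype.card ι)) := by
  rw [Finset.prod_const, Finset.card_univ, ← ENNReal.ofReal_pow (beta_pos p m).le, zpow_mul,
    zpow_natCast]

theorem ulf_one {k l : ℤ} (hl : l ≤ k) (E : Set ℚ_[p]) :
    bm p l E = ENNReal.ofReal ((p : ℝ) ^ (k - l)) * bm p k (E ∩ pb p 0 l) := by
  rw [beta_apply, beta_apply, ← betaH_div, ← mul_assoc, mul_assoc _ (betaH p k),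
    ENNReal.mul_inv_cancel (betaH_ne_zero p k) (betaH_ne_top p k), mul_one]
  congr 2
  ext s
  exact ⟨fun h => ⟨beta_sub p 0 hl h.1, h.2, h.1⟩, fun h => ⟨h.2.2, h.2.1⟩⟩

theorem bmV_ae (k : ℤ) : ∀ᵐ v ∂bmV p ι k, ‖v‖ ≤ (p : ℝ) ^ k := by
  have h : ∀ᵐ v ∂bmV p ι k, ∀ i, ‖v i‖ ≤ (p : ℝ) ^ k :=
    ae_all_iff.2 fun i =>
      (Measure.quasiMeasurePreserving_eval (fun _ : ι => bm p k) i).ae (bm_ae p k)
  exact h.mono fun v hv => ulf_norm_iff.2 hv

theorem bmV_add {k : ℤ} {c : ι → ℚ_[p]} (hc : ‖c‖ ≤ (p : ℝ) ^ k) :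
    (bmV p ι k).map (fun v => v + c) = bmV p ι k := by
  have h : ∀ i, MeasurePreserving (fun s => s + c i) (bm p k) (bm p k) := fun i =>
    ⟨measurable_add_const _, bm_add p (ulf_norm_iff.1 hc i)⟩
  exact (measurePreserving_pi (fun _ : ι => bm p k) (fun _ : ι => bm p k) h).map_eq

theorem bmV_ball {k l : ℤ} (hl : l ≤ k) {c : ι → ℚ_[p]} (hc : ‖c‖ ≤ (p : ℝ) ^ k) :
    bmV p ι k {v | ‖v - c‖ ≤ (p : ℝ) ^ l} =
      ENNReal.ofReal ((p : ℝ) ^ ((l - k) * Fintype.card ι)) := by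
  rw [ulf_ball, bmV, Measure.pi_pi, ← ulf_pow]
  exact Finset.prod_congr rfl fun i _ => bm_ball p hl (ulf_norm_iff.1 hc i)

theorem bmV_restrict {k l : ℤ} (hl : l ≤ k) :
    bmV p ι l = ENNReal.ofReal ((p : ℝ) ^ ((k - l) * Fintype.card ι)) •
      (bmV p ι k).restrict {v | ‖v‖ ≤ (p : ℝ) ^ l} := by
  unfold bmV
  refine Measure.pi_eq fun s hs => ?_
  rw [Measure.smul_apply, Measure.restrict_apply (MeasurableSet.univ_pi hs), ulf_ball0,
    ← Set.pi_inter_distrib, Measure.pi_pi, ← ulf_pow, smul_eq_mul, ← Finset.prod_mul_distrib]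
  exact Finset.prod_congr rfl fun i _ => (ulf_one hl _).symm

theorem bmV_smul (k e : ℤ) {a : ℚ_[p]} (ha : ‖a‖ = (p : ℝ) ^ e) :
    (bmV p ι k).map (fun v => a • v) = bmV p ι (k + e) := by
  have h : ∀ _i : ι, MeasurePreserving (fun s => a * s) (bm p k) (bm p (k + e)) := fun _ =>
    ⟨measurable_const_mul _, bm_mul p k e ha⟩
  exact (measurePreserving_pi (fun _ : ι => bm p k) (fun _ : ι => bm p (k + e)) h).map_eq

theorem norm_add_V {k : ℤ} {v w : ι → ℚ_[p]} (hv : ‖v‖ ≤ (p : ℝ) ^ k) (hw : ‖w‖ ≤ (p : ℝ) ^ k) :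
    ‖v + w‖ ≤ (p : ℝ) ^ k := by
  rw [ulf_norm_iff] at hv hw ⊢
  exact fun i => (IsUltrametricDist.norm_add_le_max _ _).trans (max_le (hv i) (hw i))

theorem exists_rat_V (c : ι → ℚ_[p]) (l : ℤ) :
    ∃ r : ι → ℚ, ‖c - fun i => (r i : ℚ_[p])‖ ≤ (p : ℝ) ^ l := by
  choose r hr using fun i => Padic.rat_dense p (c i) (beta_pos p l)
  exact ⟨r, ulf_norm_iff.2 fun i => (hr i).le⟩

/-- A property that holds almost everywhere and depends on a residue class holds everywhere. -/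
theorem forall_of_ae_V {k l : ℤ} {P : (ι → ℚ_[p]) → Prop} (h : ∀ᵐ v ∂bmV p ι k, P v)
    (hP : ∀ c v, ‖v‖ ≤ (p : ℝ) ^ l → P c → P (c + v)) {c : ι → ℚ_[p]} (hc : ‖c‖ ≤ (p : ℝ) ^ k) :
    P c := by
  by_contra hn
  have h1 : bmV p ι k {v | ‖v - c‖ ≤ (p : ℝ) ^ (min l k)} = 0 := by
    have h0 : bmV p ι k {v | ¬ P v} = 0 := ae_iff.1 h
    refine measure_mono_null (fun v hv => ?_) h0
    refine fun hPv : P v => hn ?_
    have h2 : ‖c - v‖ ≤ (p : ℝ) ^ l := by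
      rw [norm_sub_rev]
      exact le_trans hv (beta_mono p (min_le_left _ _))
    have h3 := hP v (c - v) h2 hPv
    rwa [add_sub_cancel] at h3
  rw [bmV_ball (min_le_right _ _) hc, ENNReal.ofReal_eq_zero] at h1
  exact absurd (beta_pos p _) (not_lt.2 h1)

variable {W : Type} [TopologicalSpace W] [PolishSpace W] [MeasurableSpace W] [BorelSpace W]
  (φ : Flow (ι → ℚ_[p]) W) (ν : Measure W)

/-- The average of `ν` over the ball of radius `p ^ k`. -/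
def avV (k : ℤ) : Measure W := (ν.prod (bmV p ι k)).map fun z => φ z.2 z.1

/-- The density of `avV l` with respect to `avV k`, made invariant. -/
def dl (k l : ℤ) (w : W) : ℝ≥0∞ :=
  ∫⁻ v, (avV φ ν l).rnDeriv (avV φ ν k) (φ v w) ∂bmV p ι l

theorem measurable_flowV : Measurable fun z : W × (ι → ℚ_[p]) => φ z.2 z.1 := by
  exact (φ.continuous continuous_snd continuous_fst).measurable

instance instProbavV [IsProbabilityMeasure ν] (k : ℤ) : IsProbabilityMeasure (avV φ ν k) :=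
  Measure.isProbabilityMeasure_map (measurable_flowV φ).aemeasurable

theorem ulf_meas (c : ι → ℚ_[p]) : Measurable (φ c) :=
  (φ.continuous continuous_const continuous_id).measurable

theorem ulf_meas' (w : W) : Measurable fun v : ι → ℚ_[p] => φ v w :=
  (φ.continuous continuous_id continuous_const).measurable

theorem ulf_shift {k : ℤ} {c : ι → ℚ_[p]} (hc : ‖c‖ ≤ (p : ℝ) ^ k) {F : W → ℝ≥0∞}
    (hF : Measurable F) (w : W) :
    ∫⁻ v, F (φ (v + c) w) ∂bmV p ι k = ∫⁻ v, F (φ v w) ∂bmV p ι k := by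
  have h := lintegral_map (μ := bmV p ι k) (hF.comp (ulf_meas' φ w)) (measurable_add_const c)
  rw [bmV_add hc] at h
  exact h.symm

theorem measurable_dl (k l : ℤ) : Measurable (dl φ ν k l) := by
  exact Measurable.lintegral_prod_right'
    (((avV φ ν l).measurable_rnDeriv (avV φ ν k)).comp (measurable_flowV φ))

theorem dl_flow (k : ℤ) {l : ℤ} {c : ι → ℚ_[p]} (hc : ‖c‖ ≤ (p : ℝ) ^ l) (w : W) :
    dl φ ν k l (φ c w) = dl φ ν k l w := by
  unfold dl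
  rw [← ulf_shift φ hc ((avV φ ν l).measurable_rnDeriv (avV φ ν k)) w]
  exact lintegral_congr fun v => by rw [φ.map_add]

variable [IsProbabilityMeasure ν]

theorem lint_avV (k : ℤ) {F : W → ℝ≥0∞} (hF : Measurable F) :
    ∫⁻ w, F w ∂avV φ ν k = ∫⁻ w, ∫⁻ v, F (φ v w) ∂bmV p ι k ∂ν := by
  rw [avV, lintegral_map hF (measurable_flowV φ)]
  exact lintegral_prod _ (hF.comp (measurable_flowV φ)).aemeasurable

theorem avV_flow {k : ℤ} {c : ι → ℚ_[p]} (hc : ‖c‖ ≤ (p : ℝ) ^ k) :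
    (avV φ ν k).map (φ c) = avV φ ν k := by
  refine Measure.ext_of_lintegral _ fun F hF => ?_
  rw [lintegral_map hF (ulf_meas φ c), lint_avV φ ν k hF,
    lint_avV φ ν k (F := fun w => F (φ c w)) (hF.comp (ulf_meas φ c))]
  refine lintegral_congr fun w => ?_
  rw [← ulf_shift φ hc hF w]
  exact lintegral_congr fun v => by rw [add_comm v c, φ.map_add]

theorem ulf_flow_lint {k : ℤ} {c : ι → ℚ_[p]} (hc : ‖c‖ ≤ (p : ℝ) ^ k) {F : W → ℝ≥0∞}
    (hF : Measurable F) : ∫⁻ w, F (φ c w) ∂avV φ ν k = ∫⁻ w, F w ∂avV φ ν k := by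
  rw [← lintegral_map hF (ulf_meas φ c), avV_flow φ ν hc]

theorem avV_le {k l : ℤ} (hl : l ≤ k) :
    avV φ ν l ≤ ENNReal.ofReal ((p : ℝ) ^ ((k - l) * Fintype.card ι)) • avV φ ν k := by
  refine Measure.le_iff.2 fun s hs => ?_
  have hF : Measurable (s.indicator (1 : W → ℝ≥0∞)) := measurable_one.indicator hs
  rw [Measure.smul_apply, smul_eq_mul, ← lintegral_indicator_one hs, ← lintegral_indicator_one hs,
    lint_avV φ ν l hF, lint_avV φ ν k hF, ← lintegral_const_mul' _ _ ENNReal.ofReal_ne_top]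
  refine lintegral_mono fun w => ?_
  rw [bmV_restrict hl, lintegral_smul_measure, smul_eq_mul]
  exact mul_le_mul_right (lintegral_mono' Measure.restrict_le_self le_rfl) _

theorem withDensity_dl {k l : ℤ} (hl : l ≤ k) :
    (avV φ ν k).withDensity (dl φ ν k l) = avV φ ν l := by
  have hac : avV φ ν l ≪ avV φ ν k := Measure.absolutelyContinuous_of_le_smul (avV_le φ ν hl)
  have hD : Measurable ((avV φ ν l).rnDeriv (avV φ ν k)) := Measure.measurable_rnDeriv _ _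
  refine Measure.ext_of_lintegral _ fun F hF => ?_
  rw [lintegral_withDensity_eq_lintegral_mul _ (measurable_dl φ ν k l) hF]
  have h1 : ∀ w, (dl φ ν k l * F) w =
      ∫⁻ v, (avV φ ν l).rnDeriv (avV φ ν k) (φ v w) * F w ∂bmV p ι l := fun w => by
    rw [Pi.mul_apply, dl]
    exact (lintegral_mul_const _ (hD.comp (ulf_meas' φ w))).symm
  have h2 : Measurable fun z : W × (ι → ℚ_[p]) =>
      (avV φ ν l).rnDeriv (avV φ ν k) (φ z.2 z.1) * F z.1 :=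
    (hD.comp (measurable_flowV φ)).mul (hF.comp measurable_fst)
  rw [lintegral_congr h1, lintegral_lintegral_swap h2.aemeasurable]
  have h3 : ∀ᵐ v ∂bmV p ι l, ∫⁻ w, (avV φ ν l).rnDeriv (avV φ ν k) (φ v w) * F w ∂avV φ ν k =
      ∫⁻ w, F w ∂avV φ ν l := by
    refine (bmV_ae l).mono fun v hv => ?_
    have hG : Measurable fun w => F (φ (-v) w) := hF.comp (ulf_meas φ (-v))
    have h4 := ulf_flow_lint φ ν (hv.trans (beta_mono p hl))
      (F := fun w => (avV φ ν l).rnDeriv (avV φ ν k) w * F (φ (-v) w)) (hD.mul hG)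
    have h5 : ∀ w, φ (-v) (φ v w) = w := fun w => by
      rw [← φ.map_add, neg_add_cancel, φ.map_zero_apply]
    simp only [h5] at h4
    rw [h4, lintegral_rnDeriv_mul hac hG.aemeasurable]
    exact ulf_flow_lint φ ν (by rw [norm_neg]; exact hv) hF
  rw [lintegral_congr_ae h3, lintegral_const, measure_univ, mul_one]

theorem lint_inv {l : ℤ} {F : W → ℝ≥0∞} (hF : Measurable F)
    (hi : ∀ v : ι → ℚ_[p], ‖v‖ ≤ (p : ℝ) ^ l → ∀ w, F (φ v w) = F w) :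
    ∫⁻ w, F w ∂avV φ ν l = ∫⁻ w, F w ∂ν := by
  rw [lint_avV φ ν l hF]
  refine lintegral_congr fun w => ?_
  rw [lintegral_congr_ae ((bmV_ae l).mono fun v hv => hi v hv w), lintegral_const, measure_univ,
    mul_one]

/-- From almost every point of the average to all points of almost every plaque. -/
theorem ae_forall_flow {k l : ℤ} {P : W → Prop} (h : ∀ᵐ w ∂avV φ ν k, P w)
    (hP : ∀ v : ι → ℚ_[p], ‖v‖ ≤ (p : ℝ) ^ l → ∀ w, P w → P (φ v w)) :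
    ∀ᵐ w ∂ν, ∀ c : ι → ℚ_[p], ‖c‖ ≤ (p : ℝ) ^ k → P (φ c w) := by
  have h1 := Measure.ae_ae_of_ae_prod (ae_of_ae_map (measurable_flowV φ).aemeasurable h)
  refine h1.mono fun w hw c hc => ?_
  refine forall_of_ae_V (l := l) (P := fun v => P (φ v w)) hw (fun c v hv hPc => ?_) hc
  rw [add_comm, φ.map_add]
  exact hP v hv _ hPc

end Pool.Agent.EQ
end
end

-- part Pool.Agent.P.MP_ad7a55_nt.XFd
section

/-! Symmetric sets of small growth. -/

set_option autoImplicit false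

noncomputable section

open Finset
open scoped Pointwise MatrixGroups Classical

namespace Pool.Agent.EQ

variable {G : Type} [Group G] [Fintype G]

theorem xfd_symm (B : Finset G) (s : G) :
    #{a ∈ B | s⁻¹⁻¹ * a ∈ B} = #{a ∈ B | s⁻¹ * a ∈ B} := by
  refine card_bij' (fun a _ => s * a) (fun a _ => s⁻¹ * a) ?_ ?_ ?_ ?_
  · intro a ha
    rw [mem_filter, inv_inv] at ha
    rw [mem_filter, inv_mul_cancel_left]
    exact ⟨ha.2, ha.1⟩
  · intro a ha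
    rw [mem_filter] at ha
    rw [mem_filter, inv_inv, mul_inv_cancel_left]
    exact ⟨ha.2, ha.1⟩
  · intro a _
    exact inv_mul_cancel_left s a
  · intro a _
    exact mul_inv_cancel_left s a

theorem xfd_swap (B S : Finset G) :
    ∑ s ∈ S, #{a ∈ B | s⁻¹ * a ∈ B} = ∑ b ∈ B, #{x ∈ B | x * b⁻¹ ∈ S} := by
  rw [← card_sigma, ← card_sigma]
  refine card_bij' (fun p _ => ⟨p.1⁻¹ * p.2, p.2⟩) (fun p _ => ⟨p.2 * p.1⁻¹, p.2⟩) ?_ ?_ ?_ ?_
  · rintro ⟨s, a⟩ h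
    simp only [mem_sigma, mem_filter] at h ⊢
    refine ⟨h.2.2, h.2.1, ?_⟩
    rw [mul_inv_rev, inv_inv, mul_inv_cancel_left]
    exact h.1
  · rintro ⟨b, x⟩ h
    simp only [mem_sigma, mem_filter] at h ⊢
    refine ⟨h.2.2, h.2.1, ?_⟩
    rw [mul_inv_rev, inv_inv, inv_mul_cancel_right]
    exact h.1
  · rintro ⟨s, a⟩ _
    simp
  · rintro ⟨b, x⟩ _
    simp

theorem xfd_rep {B S : Finset G} {θ M : ℝ} (hθ : 0 ≤ θ) (hM : (#(B⁻¹ * B) : ℝ) ≤ M)
    (hS : ∀ s ∈ S, θ ≤ #{a ∈ B | s⁻¹ * a ∈ B}) (r : ℕ) :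
    ∃ R : G → ℝ, (∀ x, 0 ≤ R x) ∧ ∑ x, R x ≤ #B * M ^ r ∧
      ∀ y ∈ S ^ r, ∀ a ∈ B, θ ^ r ≤ R (y * a) := by
  induction r with
  | zero =>
    refine ⟨fun x => if x ∈ B then 1 else 0, fun x => by positivity, ?_, fun y hy a ha => ?_⟩
    · simp
    · rw [pow_zero, mem_one] at hy
      simp [hy, ha]
  | succ r ih =>
    obtain ⟨R, h0, h1, h2⟩ := ih
    refine ⟨fun x => ∑ t ∈ B⁻¹ * B, R (x * t⁻¹), fun x => sum_nonneg fun t _ => h0 _, ?_,
      fun y hy a ha => ?_⟩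
    · rw [sum_comm]
      have e : ∀ t : G, ∑ x, R (x * t⁻¹) = ∑ x, R x := fun t =>
        Equiv.sum_comp (Equiv.mulRight t⁻¹) R
      simp only [e]
      rw [sum_const, nsmul_eq_mul]
      calc (#(B⁻¹ * B) : ℝ) * ∑ x, R x ≤ M * (#B * M ^ r) :=
            mul_le_mul hM h1 (sum_nonneg fun x _ => h0 x) ((Nat.cast_nonneg _).trans hM)
        _ = _ := by ring
    · rw [pow_succ, mem_mul] at hy
      obtain ⟨y, hy, s, hs, rfl⟩ := hy
      have hi : Set.InjOn (fun b => b⁻¹ * s * a) ({b ∈ B | s⁻¹ * b ∈ B} : Finset G) := by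
        intro b _ b' _ hb
        simpa using hb
      have hsub : ({b ∈ B | s⁻¹ * b ∈ B} : Finset G).image (fun b => b⁻¹ * s * a) ⊆ B⁻¹ * B := by
        intro t ht
        obtain ⟨b, hb, rfl⟩ := mem_image.mp ht
        refine mem_mul.mpr ⟨(s⁻¹ * b)⁻¹, inv_mem_inv (mem_filter.mp hb).2, a, ha, ?_⟩
        rw [mul_inv_rev, inv_inv]
      refine le_trans ?_ (sum_le_sum_of_subset_of_nonneg hsub fun t _ _ => h0 _)
      rw [sum_image hi]
      have h3 : ∀ b ∈ ({b ∈ B | s⁻¹ * b ∈ B} : Finset G),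
          θ ^ r ≤ R (y * s * a * (b⁻¹ * s * a)⁻¹) := fun b hb => by
        have e : y * s * a * (b⁻¹ * s * a)⁻¹ = y * b := by group
        rw [e]
        exact h2 y hy b (mem_filter.mp hb).1
      refine le_trans ?_ (card_nsmul_le_sum _ _ _ h3)
      rw [nsmul_eq_mul, pow_succ']
      exact mul_le_mul_of_nonneg_right (hS s hs) (pow_nonneg hθ r)

theorem tao_S {B : Finset G} (hB : B.Nonempty) {K : ℝ} (hK : 1 ≤ K)
    (h : (#(B⁻¹ * B) : ℝ) ≤ K * #B) : ∃ (S : Finset G) (b : G), 1 ∈ S ∧ S⁻¹ = S ∧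
      (#B : ℝ) ≤ 2 * K * #{x ∈ B | x * b⁻¹ ∈ S} ∧
      ∀ r : ℕ, (#(S ^ r) : ℝ) ≤ 2 ^ r * K ^ (2 * r + 1) * #B := by
  have hn : (0 : ℝ) < #B := by exact_mod_cast hB.card_pos
  have hK0 : 0 < K := by linarith
  obtain ⟨S, hS⟩ : ∃ S : Finset G, ∀ s, s ∈ S ↔ (#B : ℝ) / (2 * K) ≤ #{a ∈ B | s⁻¹ * a ∈ B} :=
    ⟨univ.filter fun s => (#B : ℝ) / (2 * K) ≤ #{a ∈ B | s⁻¹ * a ∈ B}, fun s => by simp⟩
  have hθ : (0 : ℝ) < #B / (2 * K) := by positivity
  have h1 : (#B : ℝ) ^ 3 ≤ K * en B := by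
    have h2 := le_en B
    have h3 : 0 ≤ en B := sum_nonneg fun x _ => sq_nonneg _
    have h4 := mul_le_mul_of_nonneg_right h h3
    refine le_of_mul_le_mul_left ?_ hn
    nlinarith
  have h2 : en B ≤ #B * ∑ s ∈ S, (#{a ∈ B | s⁻¹ * a ∈ B} : ℝ) + #B / (2 * K) * (#B : ℝ) ^ 2 := by
    rw [en_eq, ← sum_inter B, mul_sum, mul_sum]
    have e : ∑ s ∈ S, (#B : ℝ) * (#{a ∈ B | s⁻¹ * a ∈ B} : ℝ) =
        ∑ s, if s ∈ S then (#B : ℝ) * (#{a ∈ B | s⁻¹ * a ∈ B} : ℝ) else 0 := by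
      rw [sum_ite_mem, univ_inter]
    rw [e, ← sum_add_distrib]
    refine sum_le_sum fun s _ => ?_
    have h3 : (#{a ∈ B | s⁻¹ * a ∈ B} : ℝ) ≤ #B := by exact_mod_cast card_filter_le _ _
    have h4 : (0 : ℝ) ≤ #{a ∈ B | s⁻¹ * a ∈ B} := Nat.cast_nonneg _
    by_cases hs : s ∈ S
    · rw [if_pos hs, sq]
      exact (mul_le_mul_of_nonneg_right h3 h4).trans (le_add_of_nonneg_right (by positivity))
    · rw [if_neg hs, zero_add, sq]
      exact mul_le_mul_of_nonneg_right (not_le.mp fun h5 => hs ((hS s).mpr h5)).le h4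
  have h3 : ∑ _b ∈ B, (#B : ℝ) ≤ ∑ b ∈ B, 2 * K * (#{x ∈ B | x * b⁻¹ ∈ S} : ℝ) := by
    have e : ∑ s ∈ S, (#{a ∈ B | s⁻¹ * a ∈ B} : ℝ) = ∑ b ∈ B, (#{x ∈ B | x * b⁻¹ ∈ S} : ℝ) := by
      exact_mod_cast xfd_swap B S
    rw [sum_const, nsmul_eq_mul, ← mul_sum, ← e]
    have h4 := h1.trans (mul_le_mul_of_nonneg_left h2 hK0.le)
    have e2 : K * ((#B : ℝ) / (2 * K) * (#B : ℝ) ^ 2) = (#B : ℝ) ^ 3 / 2 := by
      field_simp
    rw [mul_add, e2] at h4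
    refine le_of_mul_le_mul_left ?_ hn
    nlinarith
  obtain ⟨b, -, hb⟩ := exists_le_of_sum_le hB h3
  refine ⟨S, b, ?_, ?_, hb, fun r => ?_⟩
  · rw [hS]
    have e : ({a ∈ B | (1 : G)⁻¹ * a ∈ B} : Finset G) = B :=
      filter_true_of_mem fun a ha => by rwa [inv_one, one_mul]
    rw [e]
    exact div_le_self hn.le (by linarith)
  · ext s
    rw [mem_inv', hS, hS, xfd_symm]
  · obtain ⟨R, r0, r1, r2⟩ := xfd_rep hθ.le h (fun s hs => (hS s).mp hs) r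
    obtain ⟨a, ha⟩ := hB
    have h4 : (#(S ^ r) : ℝ) * ((#B : ℝ) / (2 * K)) ^ r ≤ #B * (K * #B) ^ r := by
      refine le_trans ?_ r1
      rw [← Equiv.sum_comp (Equiv.mulRight a) R, ← nsmul_eq_mul]
      exact (card_nsmul_le_sum _ _ _ fun y hy => r2 y hy a ha).trans
        (sum_le_sum_of_subset_of_nonneg (subset_univ _) fun x _ _ => r0 _)
    have e : (K * #B : ℝ) ^ r = (2 ^ r * K ^ (2 * r)) * ((#B : ℝ) / (2 * K)) ^ r := by
      rw [pow_mul, ← mul_pow, ← mul_pow]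
      congr 1
      field_simp
    rw [e, ← mul_assoc] at h4
    refine (le_of_mul_le_mul_right h4 (pow_pos hθ r)).trans ?_
    have h5 : K ^ (2 * r) ≤ K ^ (2 * r + 1) := pow_le_pow_right₀ hK (Nat.le_succ _)
    calc (#B : ℝ) * (2 ^ r * K ^ (2 * r)) ≤ #B * (2 ^ r * K ^ (2 * r + 1)) := by gcongr
      _ = _ := by ring

theorem struct {ν : G → ℝ} (h0 : ∀ g, 0 ≤ ν g) (h1 : ∑ g, ν g ≤ 1) (hs : ∀ g, ν g⁻¹ = ν g) {K : ℝ}
    (hK : 1 ≤ K) (hn : 0 < n2 ν) (h : n2 ν ≤ K * n2 (cv ν ν)) :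
    ∃ (S : Finset G) (b : G), 1 ∈ S ∧ S⁻¹ = S ∧ 1 ≤ (64 * K) ^ 63 * ∑ x with x * b⁻¹ ∈ S, ν x ∧
      ∀ r : ℕ, #(S ^ r) * n2 ν ≤ (64 * K) ^ (103 * r + 52) := by
  obtain ⟨A, a1, a2, a3, a4⟩ := trunc h0 h1 hs hK hn h
  have hl : (64 : ℝ) ≤ 64 * K := by linarith
  generalize 64 * K = l at a1 a2 a3 a4 hl ⊢
  generalize n2 ν = N at a1 a2 a3 hn ⊢
  have l1 : 1 ≤ l := by linarith
  have l0 : 0 < l := by linarith
  have hA : A.Nonempty := by
    rw [nonempty_iff_ne_empty]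
    rintro rfl
    simp only [card_empty, Nat.cast_zero, zero_mul, mul_zero] at a3
    linarith
  obtain ⟨B, b1, b2, b3⟩ := bsg hA (one_le_pow₀ l1) a4
  have hB : B.Nonempty := by
    rw [nonempty_iff_ne_empty]
    rintro rfl
    simp only [card_empty, Nat.cast_zero, mul_zero] at b2
    have : (0 : ℝ) < #A := by exact_mod_cast hA.card_pos
    linarith
  have b4 : (#(B⁻¹ * B) : ℝ) ≤ l ^ 51 * #B := by
    refine b3.trans (mul_le_mul_of_nonneg_right ?_ (Nat.cast_nonneg _))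
    have h2 : (2 : ℝ) ^ 14 ≤ l ^ 3 := le_trans (by norm_num) (pow_le_pow_left₀ (by norm_num) hl 3)
    calc (2 : ℝ) ^ 14 * (l ^ 8) ^ 6 ≤ l ^ 3 * (l ^ 8) ^ 6 := by gcongr
      _ = _ := by ring
  obtain ⟨S, b, s1, s2, s3, s4⟩ := tao_S hB (one_le_pow₀ l1) b4
  refine ⟨S, b, s1, s2, ?_, fun r => ?_⟩
  · have h2 : (#{x ∈ B | x * b⁻¹ ∈ S} : ℝ) * N ≤ l * ∑ x with x * b⁻¹ ∈ S, ν x := by
      rw [← nsmul_eq_mul, mul_sum]
      exact (card_nsmul_le_sum _ _ _ fun x hx => a1 x (b1 (mem_filter.mp hx).1)).trans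
        (sum_le_sum_of_subset_of_nonneg (filter_subset_filter _ (subset_univ B))
          fun x _ _ => mul_nonneg l0.le (h0 x))
    have h3 : 0 ≤ ∑ x with x * b⁻¹ ∈ S, ν x := sum_nonneg fun x _ => h0 x
    generalize ∑ x with x * b⁻¹ ∈ S, ν x = T at h2 h3 ⊢
    have h4 : (8 : ℝ) ≤ l := by linarith
    calc (1 : ℝ) ≤ l ^ 2 * (#A * N) := a3
      _ ≤ l ^ 2 * (4 * l ^ 8 * #B * N) := by gcongr
      _ ≤ l ^ 2 * (4 * l ^ 8 * (2 * l ^ 51 * #{x ∈ B | x * b⁻¹ ∈ S}) * N) := by gcongr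
      _ = 8 * l ^ 61 * (#{x ∈ B | x * b⁻¹ ∈ S} * N) := by ring
      _ ≤ l * l ^ 61 * (l * T) := by gcongr
      _ = _ := by ring
  · have h2 : (#B : ℝ) ≤ #A := by exact_mod_cast card_le_card b1
    have h3 : (2 : ℝ) ≤ l := by linarith
    calc (#(S ^ r) : ℝ) * N ≤ 2 ^ r * (l ^ 51) ^ (2 * r + 1) * #B * N :=
          mul_le_mul_of_nonneg_right (s4 r) hn.le
      _ ≤ l ^ r * (l ^ 51) ^ (2 * r + 1) * #A * N := by gcongr
      _ = l ^ r * (l ^ 51) ^ (2 * r + 1) * (#A * N) := by ring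
      _ ≤ l ^ r * (l ^ 51) ^ (2 * r + 1) * l := by gcongr
      _ = _ := by ring

end Pool.Agent.EQ
end
end
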