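import Pool.Agent.K.MP_ad7a55_nt.C8
import Pool.Agent.K.MP_ad7a55_nt.C16

/-! The abstract setting of the rigidity theorem. -/

set_option autoImplicit false

noncomputable section

open Finset Matrix
open scoped MatrixGroups Classical

namespace Pool.Agent.EQ

/-- The class of a matrix modulo `q` up to scalars. -/
def Pj (q : ℕ) (η : M2) : Set M2 := {ξ | ∃ t : ℤ, ∀ i j, (q : ℤ) ∣ (ξ - t • η) i j}

/-- A bounded matrix with prescribed kernels. -/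
def Adm (H : ℝ) (K : ℕ → Set V2) (β : Finset ℕ) (η : M2) : Prop :=
  η.det = (∏ l ∈ β, l : ℕ) ∧ (∀ l ∈ β, Ker l η = K l) ∧
    ∀ i j, |(η i j : ℝ)| ≤ H * Real.sqrt (∏ l ∈ β, l : ℕ)

/-- Two admissible matrices are proportional modulo the primes of `B`. -/
def Coll (H : ℝ) (K : ℕ → Set V2) (β β' B : Finset ℕ) : Prop :=
  ∃ η η', Adm H K β η ∧ Adm H K β' η' ∧ ∀ q ∈ B, Pj q η = Pj q η'

/-- A small matrix maps the lines `K` into the lines `K'`. -/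
def Xc (Z : ℝ) (K K' : ℕ → Set V2) (β : Finset ℕ) : Prop :=
  ∃ X : M2, X.det ≠ 0 ∧ (∀ i j, |(X i j : ℝ)| ≤ Z) ∧ ∀ l ∈ β, ∀ v ∈ K l, X *ᵥ v ∈ K' l

/-- Points, primes, directions and moves. -/
structure RD (α ι γ δ : Type) where
  O : Finset α
  P : Finset ℕ
  A : α → ι → M2
  π : Finset ℕ → α → α
  η : Finset ℕ → α → ι → M2
  In : α → Prop
  C0 : α → γ
  cl : α → δ

/-- The functions with values in `X l` on `M` and the value `e` elsewhere. -/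
def xgaS {Y : Type} (M : Finset ℕ) (X : ℕ → Finset Y) (e : Y) : Finset (ℕ → Y) :=
  (M.pi X).image fun g l => if h : l ∈ M then g l h else e

theorem xga_mem {Y : Type} {M : Finset ℕ} {X : ℕ → Finset Y} {e : Y} {f : ℕ → Y}
    (h1 : ∀ l ∈ M, f l ∈ X l) (h2 : ∀ l ∉ M, f l = e) : f ∈ xgaS M X e := by
  refine mem_image.2 ⟨fun l _ => f l, mem_pi.2 h1, funext fun l => ?_⟩
  split_ifs with h
  · rfl
  · exact (h2 l h).symm

theorem xga_card {Y : Type} (M : Finset ℕ) (X : ℕ → Finset Y) (e : Y) :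
    #(xgaS M X e) ≤ ∏ l ∈ M, #(X l) := by
  rw [← card_pi]
  exact card_image_le

theorem xga_lab {Y : Type} {M : Finset ℕ} {f g : ℕ → Y} {e : Y} :
    ((fun l => if l ∈ M then f l else e) = fun l => if l ∈ M then g l else e) ↔
      ∀ l ∈ M, f l = g l := by
  refine ⟨fun h l hl => ?_, fun h => funext fun l => ?_⟩
  · have := congrFun h l
    simpa only [if_pos hl] using this
  · split_ifs with hl
    · exact h l hl
    · rfl

theorem xga_num {a e p δ l g t t' : ℝ} (ha : 0 ≤ a) (h : a ≤ (e + p * l + g + 2) / t)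
    (hp : p ≤ δ) (hl : 0 ≤ l) (ht : 0 < t') (htt : t' ≤ t) : a ≤ (e + δ * l + g + 2) / t' := by
  have h4 := mul_le_mul_of_nonneg_right hp hl
  have h5 := (div_nonneg_iff.1 (ha.trans h)).resolve_right fun k => by linarith [k.2]
  exact h.trans (div_le_div₀ (by linarith [h5.1]) (by linarith) ht htt)

theorem xga_comb {α : Type} {O : Finset α} {E p₁ p₂ p₃ T : α → Prop} {θ a₁ a₂ a₃ : ℝ}
    (hE : θ ≤ prb O E) (h1 : prb O p₁ ≤ a₁) (h2 : prb O p₂ ≤ a₂) (h3 : prb O p₃ ≤ a₃)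
    (h : ∀ x ∈ O, E x → ¬ p₁ x → ¬ p₂ x → ¬ p₃ x → T x) : θ - a₁ - a₂ - a₃ ≤ prb O T := by
  have k1 := pb_sub O E p₁
  have k2 := pb_sub O (fun x => E x ∧ ¬ p₁ x) p₂
  have k3 := pb_sub O (fun x => (E x ∧ ¬ p₁ x) ∧ ¬ p₂ x) p₃
  have k4 : prb O (fun x => ((E x ∧ ¬ p₁ x) ∧ ¬ p₂ x) ∧ ¬ p₃ x) ≤ prb O T :=
    pb_mono fun x hx k => h x hx k.1.1.1 k.1.1.2 k.1.2 k.2
  linarith

namespace RD

variable {α ι γ δ : Type} (d : RD α ι γ δ)

/-- The direction of the coordinate `c` at the prime `l`. -/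
def K (x : α) (c : ι) (l : ℕ) : Set V2 := Ker l (d.A x c)

/-- The directions at `q`. -/
def dir (q : ℕ) (x : α) : ι → Set V2 := fun c => d.K x c q

/-- The data known at the scale `M`. -/
def FF (M : Finset ℕ) (x : α) : γ × (ℕ → ι → Set V2) :=
  (d.C0 x, fun l c => if l ∈ M then d.K x c l else ∅)

/-- The point and its image lie in the compact part. -/
def Gd (β : Finset ℕ) (x : α) : Prop := d.In x ∧ d.In (d.π β x)

variable [Fintype ι]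

structure Ok (y : ℕ) (H A₁ S Λ θ C δ₀ : ℝ) (C₁ : ℕ) : Prop where
  ne : d.O.Nonempty
  prime : ∀ l ∈ d.P, l.Prime ∧ y < l ∧ l ≤ 2 * y
  line : ∀ x ∈ d.O, ∀ c, ∀ l ∈ d.P, IsLn l (d.K x c l)
  maps : ∀ β ⊆ d.P, ∀ x ∈ d.O, d.π β x ∈ d.O
  inj : ∀ β ⊆ d.P, Set.InjOn (d.π β) d.O
  det : ∀ β ⊆ d.P, ∀ x ∈ d.O, ∀ c, (d.η β x c).det = (∏ l ∈ β, l : ℕ)
  com : ∀ β ⊆ d.P, ∀ x ∈ d.O, ∀ c, d.η β x c * d.A x c = d.A (d.π β x) c * d.η β x c
  adm : ∀ β ⊆ d.P, ∀ x ∈ d.O, d.Gd β x → ∀ c, Adm H (d.K x c) β (d.η β x c)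
  inC : ∀ x ∈ d.O, ∀ x' ∈ d.O, d.C0 x = d.C0 x' → d.In x → d.In x'
  cardC : (#(d.O.image d.C0) : ℝ) ≤ Real.exp S
  cardl : (#(({x ∈ d.O | d.In x}).image d.cl) : ℝ) ≤ A₁
  aux : ∀ β ⊆ d.P, ∀ x ∈ d.O, ∀ x' ∈ d.O, d.Gd β x → d.Gd β x' → d.C0 x = d.C0 x' →
    d.η β x = d.η β x' → d.cl (d.π β x) = d.cl (d.π β x') → d.C0 (d.π β x) = d.C0 (d.π β x')
  tight : prb d.O (fun x => ¬ d.In x) ≤ δ₀
  stepA : ∀ q ∈ d.P, ∃ R : γ → Finset (ι → Set V2),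
    (∀ a, (#(R a) : ℝ) ≤ C * (q : ℝ) ^ Fintype.card ι / q) ∧
      θ ≤ prb d.O fun x => d.dir q x ∈ R (d.C0 x)
  lin : ∀ c, ∀ β ⊆ d.P, (#{z ∈ d.O ×ˢ d.O | d.In z.1 ∧ d.In z.2 ∧
    ∀ l ∈ β, d.K z.1 c l = d.K z.2 c l} : ℝ) ≤ Λ / (∏ l ∈ β, l : ℕ) * (#d.O : ℝ) ^ 2
  xc : ∀ k l, k ≠ l → ∀ β ⊆ d.P, ∀ Z : ℝ, 1 ≤ Z → Z ≤ (y : ℝ) ^ #d.P →
    prb d.O (fun x => d.In x ∧ Xc Z (d.K x k) (d.K x l) β) ≤ Λ * Z ^ C₁ / (∏ l ∈ β, l : ℕ)

/-- The good event at the test prime `q`. -/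
def TT (M M' β : Finset ℕ) (q : ℕ) (c s₀ : ℝ) (x : α) : Prop :=
  d.Gd β x ∧ s₀ ≤ cp d.O (d.FF M') (d.dir q) (d.FF M' x) (d.dir q x) ∧
    (q : ℝ) ^ (-c) * cp d.O (d.FF M') (d.dir q) (d.FF M' x) (d.dir q x) ≤
      cp d.O (d.FF M) (d.dir q) (d.FF M (d.π β x)) (d.dir q (d.π β x))

/-- The directions of the coordinate `c` at the primes of `M` are typical. -/
def Ty (M : Finset ℕ) (t : ℝ) (c : ι) (x : α) : Prop :=
  (prb d.O fun x' => d.In x' ∧ ∀ l ∈ M, d.K x' c l = d.K x c l) ≤ t / (∏ l ∈ M, l : ℕ)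

variable {d} {y C₁ : ℕ} {H A₁ S Λ θ C δ₀ : ℝ}

theorem Ok.card_le (h : d.Ok y H A₁ S Λ θ C δ₀ C₁) : #d.P ≤ y := by
  have h1 : d.P ⊆ Ioc y (2 * y) := fun l hl => mem_Ioc.2 (h.prime l hl).2
  have h2 := card_le_card h1
  rw [Nat.card_Ioc] at h2
  omega

theorem Ok.dir_mem (h : d.Ok y H A₁ S Λ θ C δ₀ C₁) {q : ℕ} (hq : q ∈ d.P) {x : α} (hx : x ∈ d.O) :
    d.dir q x ∈ Fintype.piFinset fun _ : ι => Xn q := by
  exact Fintype.mem_piFinset.2 fun c => (mem_Xn (h.prime q hq).1.pos).2 (h.line x hx c q hq)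

theorem Ok.xga_pi (h : d.Ok y H A₁ S Λ θ C δ₀ C₁) {q : ℕ} (hq : q ∈ d.P) :
    (#(Fintype.piFinset fun _ : ι => Xn q) : ℝ) ≤ (2 * y + 1) ^ Fintype.card ι := by
  rw [Fintype.card_piFinset, prod_const, card_univ, Nat.cast_pow]
  refine pow_le_pow_left₀ (by positivity) ?_ _
  have h1 := card_Xn_prime (h.prime q hq).1
  have h2 := (h.prime q hq).2.2
  exact_mod_cast (by omega : #(Xn q) ≤ 2 * y + 1)

theorem Ok.xga_cop (h : d.Ok y H A₁ S Λ θ C δ₀ C₁) {β : Finset ℕ} (hβ : β ⊆ d.P) {x : α}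
    (hx : x ∈ d.O) {q : ℕ} (hq : q ∈ d.P) (hqβ : q ∉ β) (c : ι) :
    IsCoprime (d.η β x c).det (q : ℤ) := by
  rw [h.det β hβ x hx c]
  refine Nat.isCoprime_iff_coprime.2 (Nat.Coprime.prod_left fun l hl => ?_)
  exact (Nat.coprime_primes (h.prime l (hβ hl)).1 (h.prime q hq).1).2 fun e => hqβ (e ▸ hl)

theorem Ok.xga_back (h : d.Ok y H A₁ S Λ θ C δ₀ C₁) {β : Finset ℕ} (hβ : β ⊆ d.P) {x : α}
    (hx : x ∈ d.O) {q : ℕ} (hq : q ∈ d.P) (hqβ : q ∉ β) (c : ι) :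
    d.K x c q = {v | d.η β x c *ᵥ v ∈ d.K (d.π β x) c q} :=
  Set.ext fun v => (Ker_com (h.com β hβ x hx c) (h.xga_cop hβ hx hq hqβ c) v).1.symm

theorem Ok.xga_pos (h : d.Ok y H A₁ S Λ θ C δ₀ C₁) {β : Finset ℕ} (hβ : β ⊆ d.P) :
    0 < ∏ l ∈ β, l :=
  prod_pos fun l hl => (h.prime l (hβ hl)).1.pos

omit [Fintype ι] in
theorem xga_FF {M : Finset ℕ} {x : α} {a : γ × (ℕ → ι → Set V2)} (e : d.FF M x = a) {l : ℕ}
    (hl : l ∈ M) (c : ι) : d.K x c l = a.2 l c := by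
  rw [← e, FF]
  simp only [if_pos hl]

theorem Ok.xga_three (h : d.Ok y H A₁ S Λ θ C δ₀ C₁) {N : Finset ℕ} (hN : N ⊆ d.P) :
    ∏ l ∈ N, ((l : ℝ) + 1) ≤ 3 * ∏ l ∈ N, (l : ℝ) := by
  have hy : (0 : ℝ) < y + 1 := by positivity
  have h1 : ∏ l ∈ N, ((l : ℝ) + 1) ≤ ∏ l ∈ N, (Real.exp (1 / ((y : ℝ) + 1)) * l) := by
    refine prod_le_prod (fun l _ => by positivity) fun l hl => ?_
    have h2 : (y : ℝ) + 1 ≤ l := by exact_mod_cast (h.prime l (hN hl)).2.1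
    have h3 := Real.add_one_le_exp (1 / ((y : ℝ) + 1))
    have h4 : (1 : ℝ) ≤ 1 / ((y : ℝ) + 1) * l := by
      rw [one_div, ← div_eq_inv_mul, le_div_iff₀ hy, one_mul]
      exact h2
    have h5 := mul_le_mul_of_nonneg_right h3 (Nat.cast_nonneg (α := ℝ) l)
    linarith
  rw [prod_mul_distrib, prod_const, ← Real.exp_nat_mul] at h1
  refine h1.trans (mul_le_mul_of_nonneg_right ?_ (by positivity))
  have h6 : (#N : ℝ) ≤ y := by exact_mod_cast (card_le_card hN).trans h.card_le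
  have h7 : (#N : ℝ) * (1 / ((y : ℝ) + 1)) ≤ 1 := by
    rw [mul_one_div, div_le_one hy]
    linarith
  have := Real.exp_one_lt_d9
  have := Real.exp_le_exp.2 h7
  linarith

theorem Ok.card_dir (h : d.Ok y H A₁ S Λ θ C δ₀ C₁) {q : ℕ} (hq : q ∈ d.P) :
    (#(d.O.image (d.dir q)) : ℝ) ≤ (2 * y + 1) ^ Fintype.card ι := by
  refine le_trans ?_ (h.xga_pi hq)
  exact_mod_cast card_le_card (image_subset_iff.2 fun x hx => h.dir_mem hq hx)

theorem Ok.card_FF (h : d.Ok y H A₁ S Λ θ C δ₀ C₁) {M : Finset ℕ} (hM : M ⊆ d.P) :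
    (#(d.O.image (d.FF M)) : ℝ) ≤
      Real.exp (S + #M * (Fintype.card ι * Real.log (2 * y + 1))) := by
  have h1 : d.O.image (d.FF M) ⊆ d.O.image d.C0 ×ˢ
      xgaS M (fun l => Fintype.piFinset fun _ : ι => Xn l) fun _ => ∅ := by
    refine image_subset_iff.2 fun x hx => mem_product.2 ⟨mem_image_of_mem _ hx, ?_⟩
    refine xga_mem (fun l hl => ?_) fun l hl => ?_
    · simp only [FF, if_pos hl]
      exact h.dir_mem (hM hl) hx
    · simp only [FF, if_neg hl]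
  have h2 := card_le_card h1
  rw [card_product] at h2
  have h3 : (#(xgaS M (fun l => Fintype.piFinset fun _ : ι => Xn l) fun _ => ∅) : ℝ) ≤
      (((2 * y + 1 : ℝ)) ^ Fintype.card ι) ^ #M := by
    refine le_trans (Nat.cast_le.2 (xga_card _ _ _)) ?_
    rw [Nat.cast_prod, ← prod_const]
    exact prod_le_prod (fun l _ => by positivity) fun l hl => h.xga_pi (hM hl)
  rw [Real.exp_add, Real.exp_nat_mul, Real.exp_nat_mul, Real.exp_log (by positivity)]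
  refine le_trans (Nat.cast_le.2 h2) ?_
  rw [Nat.cast_mul]
  exact mul_le_mul h.cardC h3 (by positivity) (by positivity)

theorem Ok.K_move (h : d.Ok y H A₁ S Λ θ C δ₀ C₁) {β : Finset ℕ} (hβ : β ⊆ d.P) {x : α}
    (hx : x ∈ d.O) {q : ℕ} (hq : q ∈ d.P) (hqβ : q ∉ β) (c : ι) :
    d.K (d.π β x) c q = {v | (d.η β x c).adjugate *ᵥ v ∈ d.K x c q} := by
  exact Set.ext fun v => (Ker_com (h.com β hβ x hx c) (h.xga_cop hβ hx hq hqβ c) v).2

theorem Ok.card_ix (h : d.Ok y H A₁ S Λ θ C δ₀ C₁) {M' β : Finset ℕ} (hM' : M' ⊆ d.P)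
    (hβ : β ⊆ M') (a : γ × (ℕ → ι → Set V2)) :
    (#(({x ∈ d.O | d.Gd β x ∧ d.FF M' x = a}).image fun x => (d.η β x, d.cl (d.π β x))) : ℝ) ≤
      ((4 * H ^ 2 + 1) ^ 4) ^ Fintype.card ι * A₁ := by
  have hβ' := hβ.trans hM'
  have h1 : (({x ∈ d.O | d.Gd β x ∧ d.FF M' x = a}).image fun x => (d.η β x, d.cl (d.π β x))) ⊆
      (Fintype.piFinset fun c => ({x ∈ d.O | d.Gd β x ∧ d.FF M' x = a}).image
        fun x => d.η β x c) ×ˢ ({x ∈ d.O | d.In x}).image d.cl := by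
    refine image_subset_iff.2 fun x hx => mem_product.2
      ⟨Fintype.mem_piFinset.2 fun c => mem_image_of_mem (fun x => d.η β x c) hx, ?_⟩
    have hx' := mem_filter.1 hx
    exact mem_image_of_mem _ (mem_filter.2 ⟨h.maps β hβ' x hx'.1, hx'.2.1.2⟩)
  have h2 := card_le_card h1
  rw [card_product, Fintype.card_piFinset] at h2
  refine le_trans (Nat.cast_le.2 h2) ?_
  rw [Nat.cast_mul, Nat.cast_prod]
  refine mul_le_mul ?_ h.cardl (by positivity) (by positivity)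
  rw [← card_univ, ← prod_const]
  refine prod_le_prod (fun c _ => by positivity) fun c _ => ?_
  refine card_bdd (h.xga_pos hβ') {v | ∀ l ∈ β, v ∈ a.2 l c} _ fun η hη => ?_
  obtain ⟨x, hx, rfl⟩ := mem_image.1 hη
  have hx' := mem_filter.1 hx
  obtain ⟨a1, a2, a3⟩ := h.adm β hβ' x hx'.1 hx'.2.1 c
  refine ⟨a1, Set.ext fun v => ?_, a3⟩
  rw [mem_Ker_prod fun l hl => (h.prime l (hβ' hl)).1]
  refine forall₂_congr fun l hl => ?_
  rw [a2 l hl, xga_FF hx'.2.2 (hβ hl)]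

theorem Ok.FF_move (h : d.Ok y H A₁ S Λ θ C δ₀ C₁) {M M' β : Finset ℕ} (hM : M ⊆ M')
    (hM' : M' ⊆ d.P) (hβ : β ⊆ M') (hd : Disjoint β M) {x x' : α} (hx : x ∈ d.O) (hx' : x' ∈ d.O)
    (g : d.Gd β x) (g' : d.Gd β x') (e : d.FF M' x = d.FF M' x') (e₁ : d.η β x = d.η β x')
    (e₂ : d.cl (d.π β x) = d.cl (d.π β x')) : d.FF M (d.π β x) = d.FF M (d.π β x') := by
  have hβ' := hβ.trans hM'
  refine Prod.ext (h.aux β hβ' x hx x' hx' g g' (congrArg Prod.fst e) e₁ e₂) ?_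
  funext l c
  by_cases hl : l ∈ M
  · simp only [FF, if_pos hl]
    have hlβ : l ∉ β := disjoint_right.1 hd hl
    rw [h.K_move hβ' hx (hM' (hM hl)) hlβ, h.K_move hβ' hx' (hM' (hM hl)) hlβ, e₁,
      xga_FF e (hM hl), xga_FF (rfl : d.FF M' x' = _) (hM hl)]
  · simp only [FF, if_neg hl]

theorem Ok.xga_gd (h : d.Ok y H A₁ S Λ θ C δ₀ C₁) {β : Finset ℕ} (hβ : β ⊆ d.P) :
    prb d.O (fun x => ¬ d.Gd β x) ≤ 2 * δ₀ := by
  have a1 := pb_or d.O (fun x => ¬ d.In x) fun x => ¬ d.In (d.π β x)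
  rw [pb_perm (h.maps β hβ) (h.inj β hβ) fun x => ¬ d.In x] at a1
  have a2 : prb d.O (fun x => ¬ d.Gd β x) ≤ prb d.O fun x => ¬ d.In x ∨ ¬ d.In (d.π β x) :=
    pb_mono fun x _ hx => not_and_or.1 hx
  linarith [h.tight]

theorem Ok.xga_cmp (h : d.Ok y H A₁ S Λ θ C δ₀ C₁) (hA : 1 ≤ A₁)
    {M M' β : Finset ℕ} (hM : M ⊆ M') (hM' : M' ⊆ d.P) (hβ : β ⊆ M')
    (hd : Disjoint β M) {q : ℕ} (hq : q ∈ d.P) (hq' : q ∉ M') {t : ℝ} (ht : 0 < t) :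
    prb d.O (fun x => cp d.O (d.FF M) (d.dir q) (d.FF M (d.π β x)) (d.dir q (d.π β x)) <
      Real.exp (-t) * cp d.O (d.FF M') (d.dir q) (d.FF M' x) (d.dir q x)) ≤
      (ent d.O (d.FF M) (d.dir q) - ent d.O (d.FF M') (d.dir q) + prb d.O (fun x => ¬ d.Gd β x) *
        Real.log ((2 * y + 1) ^ Fintype.card ι) +
        Real.log (((4 * H ^ 2 + 1) ^ 4) ^ Fintype.card ι * A₁) + 2) / t := by
  have hβ' := hβ.trans hM'
  have hqβ : q ∉ β := fun hh => hq' (hβ hh)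
  have hs1 : (1 : ℝ) ≤ (2 * y + 1) ^ Fintype.card ι :=
    one_le_pow₀ (le_add_of_nonneg_left (by positivity))
  have hA1 : (1 : ℝ) ≤ ((4 * H ^ 2 + 1) ^ 4) ^ Fintype.card ι * A₁ :=
    one_le_mul_of_one_le_of_one_le
      (one_le_pow₀ (one_le_pow₀ (le_add_of_nonneg_left (by positivity)))) hA
  refine compare_cp h.ne (d.FF M') (d.FF M) (d.dir q) (h.maps β hβ') (h.inj β hβ') (d.Gd β)
    (fun x => (d.η β x, d.cl (d.π β x))) hA1 hs1 ht ?_ (fun b => ?_) fun x hx x' hx' g g' e e' => ?_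
  · refine le_trans (Nat.cast_le.2 (card_le_card fun z hz => ?_)) (h.card_dir hq)
    simpa only [mem_image] using hz
  · refine le_trans (Nat.cast_le.2 (card_le_card fun z hz => ?_)) (h.card_ix hM' hβ b)
    simpa only [mem_image, mem_filter] using hz
  · have e₁ : d.η β x = d.η β x' := congrArg Prod.fst e'
    refine ⟨h.FF_move hM hM' hβ hd hx hx' g g' e e₁ (congrArg Prod.snd e'),
      fun k => funext fun c => ?_, fun k => funext fun c => ?_⟩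
    · have k' : d.K (d.π β x) c q = d.K (d.π β x') c q := congrFun k c
      change d.K x c q = d.K x' c q
      rw [h.xga_back hβ' hx hq hqβ, h.xga_back hβ' hx' hq hqβ, e₁, k']
    · have k' : d.K x c q = d.K x' c q := congrFun k c
      change d.K (d.π β x) c q = d.K (d.π β x') c q
      rw [h.K_move hβ' hx hq hqβ, h.K_move hβ' hx' hq hqβ, e₁, k']

theorem Ok.pb_TT (h : d.Ok y H A₁ S Λ θ C δ₀ C₁) (hy : 2 ≤ y) (hA : 1 ≤ A₁) (hC : 0 < C)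
    (hθ : 0 < θ) {M M' β : Finset ℕ} (hM : M ⊆ M') (hM' : M' ⊆ d.P) (hβ : β ⊆ M')
    (hd : Disjoint β M) {q : ℕ} (hq : q ∈ d.P) (hq' : q ∉ M') {c : ℝ} (hc : 0 < c) :
    θ - θ / 8 - 2 * δ₀ - (ent d.O (d.FF M) (d.dir q) - ent d.O (d.FF M') (d.dir q) +
      2 * δ₀ * (Fintype.card ι * Real.log (2 * y + 1)) +
      Real.log (((4 * H ^ 2 + 1) ^ 4) ^ Fintype.card ι * A₁) + 2) / (c * Real.log y) ≤
    prb d.O (d.TT M M' β q c (θ * q / (8 * C * (q : ℝ) ^ Fintype.card ι))) := by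
  have hβ' := hβ.trans hM'
  obtain ⟨R, hR, hE⟩ := h.stepA q hq
  have hy1 : (1 : ℝ) < y := by exact_mod_cast hy
  have hyq : (y : ℝ) ≤ q := by exact_mod_cast (h.prime q hq).2.1.le
  have hq0 : (0 : ℝ) < q := by linarith
  have hly : 0 < Real.log y := Real.log_pos hy1
  have hlq : Real.log y ≤ Real.log q := Real.log_le_log (by linarith) hyq
  have ht : 0 < c * Real.log q := mul_pos hc (by linarith)
  have h1 := pb_small (O := d.O) (F := d.FF M') (ξ := d.dir q) (R := fun b => R b.1)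
    (s := C * (q : ℝ) ^ Fintype.card ι / q) (t := θ * q / (8 * C * (q : ℝ) ^ Fintype.card ι))
    (by positivity) (by positivity) fun b => hR b.1
  have e1 : C * (q : ℝ) ^ Fintype.card ι / q * (θ * q / (8 * C * (q : ℝ) ^ Fintype.card ι)) =
      θ / 8 := by field_simp
  rw [e1] at h1
  have h2 := h.xga_gd hβ'
  have h3 := h.xga_cmp hA hM hM' hβ hd hq hq' ht
  have e2 : Real.exp (-(c * Real.log q)) = (q : ℝ) ^ (-c) := by
    rw [Real.rpow_def_of_pos hq0]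
    congr 1
    ring
  rw [e2, Real.log_pow] at h3
  have h6 := xga_num (pb_nonneg _ _) h3 h2 (mul_nonneg (Nat.cast_nonneg _)
    (Real.log_nonneg (by linarith))) (mul_pos hc hly) (mul_le_mul_of_nonneg_left hlq hc.le)
  refine xga_comb hE h1 h2 h6 fun x _ k1 k2 k3 k4 => ?_
  exact ⟨not_not.1 k3, not_lt.1 fun k => k2 ⟨k1, k⟩, not_lt.1 k4⟩

theorem Ok.not_Ty (h : d.Ok y H A₁ S Λ θ C δ₀ C₁) {M : Finset ℕ} (hM : M ⊆ d.P) {t : ℝ}
    (ht : 0 < t) (c : ι) : prb d.O (fun x => d.In x ∧ ¬ d.Ty M t c x) ≤ Λ / t := by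
  have hP : (0 : ℝ) < (∏ l ∈ M, l : ℕ) := by exact_mod_cast h.xga_pos hM
  have hO : (0 : ℝ) < (#d.O : ℝ) ^ 2 := by
    have := h.ne.card_pos
    positivity
  have h0 := h.lin c M hM
  have hs : 0 ≤ Λ / (∏ l ∈ M, l : ℕ) :=
    nonneg_of_mul_nonneg_left (le_trans (Nat.cast_nonneg _) h0) hO
  have h1 := atypical d.O d.In (fun x => fun l => if l ∈ M then d.K x c l else ∅)
    (s := Λ / (∏ l ∈ M, l : ℕ)) (t := t / (∏ l ∈ M, l : ℕ))
    (le_trans (Nat.cast_le.2 (card_le_card fun z hz => by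
      rw [mem_filter] at hz ⊢
      exact ⟨hz.1, hz.2.1, hz.2.2.1, xga_lab.1 hz.2.2.2⟩)) h0) hs (by positivity)
  rw [div_div_div_cancel_right₀ hP.ne'] at h1
  refine le_trans (pb_mono fun x _ hx => ⟨hx.1, ?_⟩) h1
  simp only [xga_lab]
  exact not_le.1 hx.2

theorem Ok.ty_pattern (h : d.Ok y H A₁ S Λ θ C δ₀ C₁) {M β : Finset ℕ} (hM : M ⊆ d.P)
    (hβ : β ⊆ M) {t : ℝ} (ht : 0 ≤ t) (c : ι) (T : Finset (ℕ → Set V2)) :
    prb d.O (fun x => d.In x ∧ d.Ty M t c x ∧ ∃ w ∈ T, ∀ l ∈ β, d.K x c l = w l) ≤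
      3 * t * #T / (∏ l ∈ β, l : ℕ) := by
  have hP : (0 : ℝ) < (∏ l ∈ β, l : ℕ) := by exact_mod_cast h.xga_pos (hβ.trans hM)
  have hN : M \ β ⊆ d.P := sdiff_subset.trans hM
  have hQ : (0 : ℝ) < ∏ l ∈ M \ β, (l : ℝ) :=
    prod_pos fun l hl => Nat.cast_pos.2 (h.prime l (hN hl)).1.pos
  have h1 := typical d.O d.In (fun x => fun l => if l ∈ M then d.K x c l else ∅)
    (T.biUnion fun w => xgaS M (fun l => if l ∈ β then {w l} else Xn l) ∅)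
    (t := t / (∏ l ∈ M, l : ℕ)) (by positivity)
  refine le_trans ?_ (h1.trans ?_)
  rotate_left
  swap
  refine pb_mono fun x hx' hx => ⟨hx.1, ?_, ?_⟩
  · simp only [xga_lab]
    exact hx.2.1
  · obtain ⟨w, hw, hw'⟩ := hx.2.2
    refine mem_biUnion.2 ⟨w, hw, xga_mem (fun l hl => ?_) fun l hl => if_neg hl⟩
    rw [if_pos hl]
    split_ifs with hb
    · exact mem_singleton.2 (hw' l hb)
    · exact (mem_Xn (h.prime l (hM hl)).1.pos).2 (h.line x hx' c l (hM hl))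
  · have h2 : ∀ w ∈ T, (#(xgaS M (fun l => if l ∈ β then {w l} else Xn l) ∅) : ℝ) ≤
        3 * ∏ l ∈ M \ β, (l : ℝ) := by
      intro w _
      refine le_trans (Nat.cast_le.2 (xga_card _ _ _)) (le_trans ?_ (h.xga_three hN))
      rw [← prod_sdiff hβ, prod_eq_one (s := β) fun l hl => by rw [if_pos hl, card_singleton],
        mul_one, Nat.cast_prod]
      refine prod_le_prod (fun l _ => by positivity) fun l hl => ?_
      rw [if_neg (mem_sdiff.1 hl).2]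
      exact_mod_cast card_Xn_prime (h.prime l (hN hl)).1
    have h3 : (#(T.biUnion fun w => xgaS M (fun l => if l ∈ β then {w l} else Xn l) ∅) : ℝ) ≤
        #T * (3 * ∏ l ∈ M \ β, (l : ℝ)) := by
      refine le_trans (Nat.cast_le.2 card_biUnion_le) ?_
      rw [Nat.cast_sum, ← nsmul_eq_mul]
      exact sum_le_card_nsmul _ _ _ h2
    refine (mul_le_mul_of_nonneg_right h3 (by positivity)).trans (le_of_eq ?_)
    rw [← prod_sdiff hβ, Nat.cast_mul, Nat.cast_prod (s := M \ β)]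
    field_simp

end RD

end Pool.Agent.EQ
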