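import Pool.Agent.K.MP_ad7a55_nt.C18
import Pool.Agent.K.MP_ad7a55_nt.C20
import Pool.Agent.K.MP_ad7a55_nt.C9
import Pool.Agent.K.MP_ad7a55_nt.C16
import Pool.Agent.K.MP_ad7a55_nt.C21
import Pool.Agent.K.MP_ad7a55_nt.C22
import Pool.Agent.P.MP_ad7a55_nt.CtA
import Pool.Agent.K.MP_ad7a55_nt.C0
import Pool.Agent.K.MP_ad7a55_nt.C15

-- part Pool.Agent.P.MP_ad7a55_nt.Lat2
section

/-! Lattices in ℂ. -/

set_option autoImplicit false

noncomputable section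

open MeasureTheory Topology Filter UpperHalfPlane
open scoped MatrixGroups ENNReal BoundedContinuousFunction

namespace Pool.Agent.EQ

theorem lat2_indep {c : ℂ} (hc : c ≠ 0) (τ : ℍ) {m n m' n' : ℤ}
    (h : (m : ℂ) * c + n * (c * τ) = m' * c + n' * (c * τ)) : m = m' ∧ n = n' := by
  have h1 : (m : ℂ) + n * τ = m' + n' * τ := mul_left_cancel₀ hc (by linear_combination h)
  have h2 := congrArg Complex.im h1
  simp only [Complex.add_im, Complex.intCast_im, Complex.mul_im, Complex.intCast_re, zero_mul,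
    add_zero, zero_add, coe_im] at h2
  have h3 : n = n' := by exact_mod_cast mul_right_cancel₀ τ.im_ne_zero h2
  subst h3
  exact ⟨by exact_mod_cast add_right_cancel h1, rfl⟩

theorem lat2_ideal (I : Ideal ℤ) {N : ℕ} (hN : 0 < N) (h : (N : ℤ) ∈ I) :
    ∃ a : ℕ, 0 < a ∧ a ∣ N ∧ ∀ m : ℤ, m ∈ I ↔ (a : ℤ) ∣ m := by
  have hm : ∀ m : ℤ, m ∈ I ↔ ((Submodule.IsPrincipal.generator I).natAbs : ℤ) ∣ m := fun m => by
    rw [Int.natAbs_dvd]; exact Submodule.IsPrincipal.mem_iff_generator_dvd I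
  have hd : (Submodule.IsPrincipal.generator I).natAbs ∣ N := by exact_mod_cast (hm N).1 h
  exact ⟨_, Nat.pos_of_dvd_of_pos hd hN, hd, hm⟩

/-- The lattice with Hermite form `(a, d, b)`. -/
def lat2H (c : ℂ) (τ : ℍ) (a d b : ℤ) : Lt := sp (a * c) (c * (d * τ + b))

theorem lat2_sp_le {a b : ℂ} {Λ : Lt} : sp a b ≤ Λ ↔ a ∈ Λ ∧ b ∈ Λ := by
  rw [sp, Submodule.span_le, Set.insert_subset_iff, Set.singleton_subset_iff]; rfl

theorem lat2_mem {c : ℂ} (hc : c ≠ 0) (τ : ℍ) {a d b x y : ℤ} :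
    (x : ℂ) * c + y * (c * τ) ∈ lat2H c τ a d b ↔ ∃ m n : ℤ, x = m * a + n * b ∧ y = n * d := by
  rw [lat2H, mem_sp]
  constructor
  · rintro ⟨m, n, h⟩
    refine ⟨m, n, lat2_indep hc τ ?_⟩
    rw [h]; push_cast; ring
  · rintro ⟨m, n, rfl, rfl⟩
    exact ⟨m, n, by push_cast; ring⟩

theorem lat2_le {c : ℂ} (hc : c ≠ 0) (τ : ℍ) {a d b a' d' b' : ℤ} (hd : d' ≠ 0) :
    lat2H c τ a d b ≤ lat2H c τ a' d' b' ↔ a' ∣ a ∧ ∃ n : ℤ, d = n * d' ∧ a' ∣ b - n * b' := by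
  have e1 : (a : ℂ) * c = (a : ℂ) * c + ((0 : ℤ) : ℂ) * (c * τ) := by simp
  have e2 : c * (d * τ + b) = (b : ℂ) * c + d * (c * τ) := by ring
  conv_lhs => rw [lat2H, lat2_sp_le, e1, e2, lat2_mem hc, lat2_mem hc]
  constructor
  · rintro ⟨⟨m, n, h1, h2⟩, m', n', h3, h4⟩
    have hn : n = 0 := (mul_eq_zero.1 h2.symm).resolve_right hd
    subst hn
    exact ⟨⟨m, by rw [h1]; ring⟩, n', h4, m', by rw [h3]; ring⟩
  · rintro ⟨⟨m, h1⟩, n, h2, m', h3⟩
    exact ⟨⟨m, 0, by rw [h1]; ring, by ring⟩, m', n, by linear_combination h3, h2⟩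

theorem lat2_top (c : ℂ) (τ : ℍ) : sp c (c * τ) = lat2H c τ 1 1 0 := by simp [lat2H]

theorem lat2_bot (c : ℂ) (τ : ℍ) (q : ℕ) : pr q * sp c (c * τ) = lat2H c τ q q 0 := by
  rw [pr_mul_sp, lat2H]; congr 1; push_cast; ring

theorem lat2_isLat {c : ℂ} (hc : c ≠ 0) (τ : ℍ) {a d : ℕ} (ha : 0 < a) (hd : 0 < d) (b : ℤ) :
    IsLat (sp (a * c) (c * (d * τ + b))) := by
  have ha' : (a : ℂ) ≠ 0 := by exact_mod_cast ha.ne'
  have him : 0 < ((d * τ + b : ℂ) / a).im := by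
    rw [Complex.div_natCast_im]
    simp only [Complex.add_im, Complex.mul_im, Complex.natCast_re, coe_im, Complex.natCast_im,
      zero_mul, add_zero, Complex.intCast_im]
    exact div_pos (mul_pos (Nat.cast_pos.2 hd) τ.im_pos) (Nat.cast_pos.2 ha)
  refine ⟨a * c, ⟨_, him⟩, mul_ne_zero ha' hc, ?_⟩
  congr 1
  change _ = _ * ((d * τ + b : ℂ) / a)
  field_simp

/-- Hermite normal form. -/
theorem hnf {c : ℂ} (hc : c ≠ 0) (τ : ℍ) {N : ℕ} (hN : 0 < N) {Λ' : Lt}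
    (h1 : pr N * sp c (c * τ) ≤ Λ') (h2 : Λ' ≤ sp c (c * τ)) :
    ∃ (a d : ℕ) (b : ℤ), 0 < a ∧ 0 < d ∧ a ∣ N ∧ d ∣ N ∧ 0 ≤ b ∧ b < a ∧
      Λ' = sp (a * c) (c * (d * τ + b)) := by
  let A : Ideal ℤ :=
    { carrier := {m | (m : ℂ) * c ∈ Λ'}
      add_mem' := fun {x y} hx hy => by
        have := Λ'.add_mem hx hy
        simpa [add_mul] using this
      zero_mem' := by simp
      smul_mem' := fun r x hx => by
        have := Λ'.smul_mem r hx
        simpa [mul_assoc] using this }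
  let D : Ideal ℤ :=
    { carrier := {n | ∃ m : ℤ, (m : ℂ) * c + n * (c * τ) ∈ Λ'}
      add_mem' := fun {x y} ⟨m, hx⟩ ⟨m', hy⟩ => ⟨m + m', by
        have := Λ'.add_mem hx hy
        convert this using 1; push_cast; ring⟩
      zero_mem' := ⟨0, by simp⟩
      smul_mem' := fun r x ⟨m, hx⟩ => ⟨r * m, by
        have := Λ'.smul_mem r hx
        convert this using 1; simp only [smul_eq_mul, zsmul_eq_mul]; push_cast; ring⟩ }
  rw [pr_mul_sp, lat2_sp_le] at h1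
  obtain ⟨a, ha, haN, hA⟩ := lat2_ideal A hN (by simpa [A] using h1.1)
  obtain ⟨d, hd, hdN, hD⟩ := lat2_ideal D hN ⟨0, by simpa using h1.2⟩
  have ha' : (a : ℤ) ≠ 0 := by exact_mod_cast ha.ne'
  have hac : (a : ℂ) * c ∈ Λ' := by
    have : ((a : ℤ) : ℂ) * c ∈ Λ' := (hA a).2 dvd_rfl
    simpa using this
  obtain ⟨m, hm⟩ := (hD d).2 dvd_rfl
  have hb : c * (d * τ + (m % a : ℤ)) ∈ Λ' := by
    have := Λ'.sub_mem hm (Λ'.smul_mem (m / a) hac)
    convert this using 1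
    rw [Int.emod_def]; simp only [zsmul_eq_mul]; push_cast; ring
  refine ⟨a, d, m % a, ha, hd, haN, hdN, Int.emod_nonneg _ ha',
    Int.emod_lt_of_pos _ (by exact_mod_cast ha), le_antisymm (fun v hv => ?_)
    (lat2_sp_le.2 ⟨hac, hb⟩)⟩
  obtain ⟨x, y, rfl⟩ := mem_sp.1 (h2 hv)
  obtain ⟨n, rfl⟩ := (hD y).1 ⟨x, hv⟩
  have h3 : x - n * (m % a) ∈ A := by
    have := Λ'.sub_mem hv (Λ'.smul_mem n hb)
    change ((x - n * (m % a) : ℤ) : ℂ) * c ∈ Λ'
    convert this using 1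
    simp only [zsmul_eq_mul]; push_cast; ring
  obtain ⟨k, hk⟩ := (hA _).1 h3
  refine mem_sp.2 ⟨k, n, ?_⟩
  have hx : x = a * k + n * (m % a) := by linear_combination hk
  generalize m % (a : ℤ) = b at hx
  rw [hx]; push_cast; ring

theorem IsLat.of_between {Λ Λ' : Lt} (h : IsLat Λ) {N : ℕ} (hN : 0 < N) (h1 : pr N * Λ ≤ Λ')
    (h2 : pr N * Λ' ≤ Λ) : IsLat Λ' := by
  obtain ⟨c, τ, hc, rfl⟩ := h
  have hN' : (N : ℂ) ≠ 0 := by exact_mod_cast hN.ne'
  have h3 : pr ((N * N : ℕ) : ℂ) * sp c (c * τ) ≤ pr N * Λ' := by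
    rw [Nat.cast_mul, ← pr_mul_pr, mul_assoc]
    exact (pr_mul_le_iff hN').2 h1
  obtain ⟨a, d, b, ha, hd, -, -, -, -, h4⟩ := hnf hc τ (Nat.mul_pos hN hN) h3 h2
  have h5 : IsLat (pr N * Λ') := h4 ▸ lat2_isLat hc τ ha hd b
  have h6 := h5.pr_mul (inv_ne_zero hN')
  rwa [← mul_assoc, pr_mul_pr, inv_mul_cancel₀ hN', pr_one_mul] at h6

/-- The point `q τ`. -/
def mulH (q : ℕ) (hq : 0 < q) (τ : ℍ) : ℍ :=
  ⟨q * τ, by simpa using mul_pos (Nat.cast_pos.2 hq : (0 : ℝ) < q) τ.im_pos⟩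

/-- The point `(τ + i) / q`. -/
def divH (q : ℕ) (hq : 0 < q) (i : ℕ) (τ : ℍ) : ℍ :=
  ⟨(τ + i) / q, by
    simpa [Complex.div_natCast_im] using div_pos τ.im_pos (Nat.cast_pos.2 hq : (0 : ℝ) < q)⟩

@[simp] theorem coe_mulH (q : ℕ) (hq : 0 < q) (τ : ℍ) : (mulH q hq τ : ℂ) = q * τ := rfl

@[simp] theorem coe_divH (q : ℕ) (hq : 0 < q) (i : ℕ) (τ : ℍ) :
    (divH q hq i τ : ℂ) = (τ + i) / q := rfl

/-- The `q + 1` sublattices of index `q`. -/
def nbs (q : ℕ) (hq : 0 < q) (c : ℂ) (τ : ℍ) : Option (Fin q) → Lt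
  | none => sp c (c * mulH q hq τ)
  | some i => sp (c * q) (c * q * divH q hq i τ)

theorem lat2_none (q : ℕ) (hq : 0 < q) (c : ℂ) (τ : ℍ) :
    nbs q hq c τ none = lat2H c τ 1 q 0 := by simp [nbs, lat2H]

theorem lat2_some (q : ℕ) (hq : 0 < q) (c : ℂ) (τ : ℍ) (i : Fin q) :
    nbs q hq c τ (some i) = lat2H c τ q 1 (i : ℕ) := by
  have hq' : (q : ℂ) ≠ 0 := by exact_mod_cast hq.ne'
  simp only [nbs, lat2H, coe_divH]
  congr 1
  · push_cast; ring
  · push_cast; field_simp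

theorem lat2_nbs_le {q : ℕ} (hq : q.Prime) {c : ℂ} (hc : c ≠ 0) (τ : ℍ) {o o' : Option (Fin q)}
    (h : nbs q hq.pos c τ o ≤ nbs q hq.pos c τ o') : o = o' := by
  have hq0 : (q : ℤ) ≠ 0 := by exact_mod_cast hq.ne_zero
  have hq1 : ¬ (q : ℤ) ∣ 1 := fun h => hq.one_lt.ne' (Nat.dvd_one.1 (by exact_mod_cast h))
  rcases o with _ | i <;> rcases o' with _ | i'
  · rfl
  · rw [lat2_none, lat2_some, lat2_le hc τ one_ne_zero] at h
    exact absurd h.1 hq1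
  · rw [lat2_none, lat2_some, lat2_le hc τ hq0] at h
    obtain ⟨-, n, h, -⟩ := h
    exact absurd ⟨n, by rw [h]; ring⟩ hq1
  · rw [lat2_some, lat2_some, lat2_le hc τ one_ne_zero] at h
    obtain ⟨-, n, h, h'⟩ := h
    have hn : n = 1 := by linear_combination -h
    subst hn
    have h1 := i.2
    have h2 := i'.2
    have h3 := Int.eq_zero_of_abs_lt_dvd h' (abs_lt.2 ⟨by omega, by omega⟩)
    exact congrArg some (Fin.ext (by omega))

theorem nb_iff {q : ℕ} (hq : q.Prime) {c : ℂ} (hc : c ≠ 0) (τ : ℍ) (Λ' : Lt) :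
    Nb q (sp c (c * τ)) Λ' ↔ ∃ o, Λ' = nbs q hq.pos c τ o := by
  have hq0 : (q : ℤ) ≠ 0 := by exact_mod_cast hq.ne_zero
  have hq1 : ¬ (q : ℤ) ∣ 1 := fun h => hq.one_lt.ne' (Nat.dvd_one.1 (by exact_mod_cast h))
  constructor
  · rintro ⟨h1, h2⟩
    obtain ⟨a, d, b, ha, hd, haq, hdq, hb0, hba, h⟩ := hnf hc τ hq.pos h1.le h2.le
    have h' : Λ' = lat2H c τ a d b := by rw [h, lat2H]; push_cast; rfl
    rcases (Nat.dvd_prime hq).1 haq with rfl | rfl <;>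
      rcases (Nat.dvd_prime hq).1 hdq with hd' | hd'
    · have hb : b = 0 := by omega
      rw [h', lat2_top, hd', hb] at h2
      exact absurd h2 (lt_irrefl _)
    · have hb : b = 0 := by omega
      exact ⟨none, by rw [h', lat2_none, hd', hb]; rfl⟩
    · refine ⟨some ⟨b.toNat, by omega⟩, ?_⟩
      rw [h', lat2_some, hd']
      congr 1
      simp only [Int.toNat_of_nonneg hb0]
    · rw [h', lat2_bot, hd'] at h1
      obtain ⟨-, n, h3, h4⟩ := (lat2_le hc τ hq0).1 h1.le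
      have hn : n = 1 := mul_right_cancel₀ hq0 (by rw [← h3, one_mul])
      subst hn
      have hb := Int.eq_zero_of_abs_lt_dvd h4 (abs_lt.2 ⟨by omega, by omega⟩)
      have hb' : b = 0 := by omega
      rw [hb'] at h1
      exact absurd h1 (lt_irrefl _)
  · rintro ⟨o, rfl⟩
    rw [Nb, lat2_bot, lat2_top, lt_iff_le_not_ge, lt_iff_le_not_ge]
    rcases o with _ | i
    · rw [lat2_none, lat2_le hc τ hq0, lat2_le hc τ hq0, lat2_le hc τ hq0,
        lat2_le hc τ one_ne_zero]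
      refine ⟨⟨⟨one_dvd _, 1, by ring, one_dvd _⟩, fun h => hq1 h.1⟩,
        ⟨one_dvd _, q, by ring, one_dvd _⟩, ?_⟩
      rintro ⟨-, n, h, -⟩
      exact hq1 ⟨n, by rw [h]; ring⟩
    · rw [lat2_some, lat2_le hc τ hq0, lat2_le hc τ one_ne_zero, lat2_le hc τ one_ne_zero,
        lat2_le hc τ one_ne_zero]
      refine ⟨⟨⟨dvd_rfl, q, by ring, ⟨-(i : ℕ), by ring⟩⟩, ?_⟩,
        ⟨one_dvd _, 1, by ring, one_dvd _⟩, fun h => hq1 h.1⟩
      rintro ⟨-, n, h, -⟩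
      exact hq1 ⟨n, by rw [h]; ring⟩

theorem nbs_inj {q : ℕ} (hq : q.Prime) {c : ℂ} (hc : c ≠ 0) (τ : ℍ) :
    Function.Injective (nbs q hq.pos c τ) := by
  exact fun o o' h => lat2_nbs_le hq hc τ h.le

theorem Nb.isLat {q : ℕ} (hq : q.Prime) {Λ Λ' : Lt} (h : IsLat Λ) (h' : Nb q Λ Λ') :
    IsLat Λ' := by
  refine h.of_between hq.pos h'.1.le (le_trans ?_ h'.2.le)
  simpa using pr_int_le (q : ℤ) Λ'

theorem Nb.eq_of_le {q : ℕ} (hq : q.Prime) {Λ Λ₁ Λ₂ : Lt} (h : IsLat Λ) (h₁ : Nb q Λ Λ₁)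
    (h₂ : Nb q Λ Λ₂) (hle : Λ₁ ≤ Λ₂) : Λ₁ = Λ₂ := by
  obtain ⟨c, τ, hc, rfl⟩ := h
  obtain ⟨o, rfl⟩ := (nb_iff hq hc τ _).1 h₁
  obtain ⟨o', rfl⟩ := (nb_iff hq hc τ _).1 h₂
  rw [lat2_nbs_le hq hc τ hle]

theorem Nb.pr_mul {q : ℕ} {Λ Λ' : Lt} (h : Nb q Λ Λ') {c : ℂ} (hc : c ≠ 0) :
    Nb q (pr c * Λ) (pr c * Λ') := by
  obtain ⟨h1, h2⟩ := h
  rw [lt_iff_le_not_ge] at h1 h2
  rw [Nb, mul_left_comm, lt_iff_le_not_ge, lt_iff_le_not_ge]
  simpa only [pr_mul_le_iff hc] using And.intro h1 h2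

theorem Ch.spec {n : ℕ} {Λ Λ' : Lt} (h : Ch n Λ Λ') (hΛ : IsLat Λ) :
    0 < n ∧ IsLat Λ' ∧ Λ' ≤ Λ ∧ pr n * Λ ≤ Λ' := by
  induction h with
  | refl Λ => exact ⟨one_pos, hΛ, le_rfl, by simp⟩
  | @step q n Λ Λ₁ Λ' hq hnb _ ih =>
    obtain ⟨h1, h2, h3, h4⟩ := ih (hnb.isLat hq hΛ)
    refine ⟨Nat.mul_pos hq.pos h1, h2, h3.trans hnb.2.le, le_trans ?_ h4⟩
    have hn : (n : ℂ) ≠ 0 := by exact_mod_cast h1.ne'
    rw [Nat.cast_mul, mul_comm (q : ℂ), ← pr_mul_pr, mul_assoc]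
    exact (pr_mul_le_iff hn).2 hnb.1.le

theorem Ch.trans {m n : ℕ} {Λ Λ₁ Λ' : Lt} (h : Ch m Λ Λ₁) (h' : Ch n Λ₁ Λ') :
    Ch (m * n) Λ Λ' := by
  induction h with
  | refl Λ => rwa [one_mul]
  | step hq hnb _ ih => rw [mul_assoc]; exact Ch.step hq hnb (ih h')

theorem lat2_ch_a (a : ℕ) : 0 < a → ∀ (c : ℂ), c ≠ 0 → ∀ (τ : ℍ) (b : ℤ),
    Ch a (sp c (c * τ)) (lat2H c τ a 1 b) := by
  induction a using induction_on_primes with
  | zero => exact fun h => absurd h (lt_irrefl _)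
  | one =>
    intro _ c hc τ b
    have : lat2H c τ (1 : ℕ) 1 b = sp c (c * τ) := by
      rw [lat2_top]
      exact le_antisymm ((lat2_le hc τ one_ne_zero).2 ⟨one_dvd _, 1, by ring, one_dvd _⟩)
        ((lat2_le hc τ one_ne_zero).2 ⟨by simp, 1, by ring, by simp⟩)
    rw [this]; exact Ch.refl _
  | prime_mul q a hq ih =>
    intro h c hc τ b
    have ha : 0 < a := Nat.pos_of_mul_pos_left h
    have hq0 : (q : ℤ) ≠ 0 := by exact_mod_cast hq.ne_zero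
    have hq' : (q : ℂ) ≠ 0 := by exact_mod_cast hq.ne_zero
    have h1 := Int.emod_nonneg b hq0
    have h2 := Int.emod_lt_of_pos b (show (0 : ℤ) < q by exact_mod_cast hq.pos)
    let i : Fin q := ⟨(b % q).toNat, by omega⟩
    have hi : (((i : ℕ) : ℤ) : ℂ) = b - q * ((b / q : ℤ) : ℂ) := by
      have : ((i : ℕ) : ℤ) = b - q * (b / q) := by
        rw [← Int.emod_def]; exact Int.toNat_of_nonneg h1
      rw [this]; push_cast; ring
    refine Ch.step hq ((nb_iff hq hc τ _).2 ⟨some i, rfl⟩) ?_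
    have h3 := ih ha (c * q) (mul_ne_zero hc hq') (divH q hq.pos i τ) (b / q)
    convert h3 using 1
    · rfl
    · simp only [lat2H, coe_divH]
      congr 1
      · push_cast; ring
      · rw [Int.cast_natCast] at hi
        rw [hi]; push_cast; field_simp; ring

theorem lat2_ch {a : ℕ} (ha : 0 < a) (d : ℕ) : 0 < d → ∀ (c : ℂ), c ≠ 0 → ∀ (τ : ℍ) (b : ℤ),
    Ch (d * a) (sp c (c * τ)) (lat2H c τ a d b) := by
  induction d using induction_on_primes with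
  | zero => exact fun h => absurd h (lt_irrefl _)
  | one =>
    intro _ c hc τ b
    rw [one_mul]
    exact lat2_ch_a a ha c hc τ b
  | prime_mul q d hq ih =>
    intro h c hc τ b
    have hd : 0 < d := Nat.pos_of_mul_pos_left h
    rw [mul_assoc]
    refine Ch.step hq ((nb_iff hq hc τ _).2 ⟨none, rfl⟩) ?_
    have h3 := ih hd c hc (mulH q hq.pos τ) b
    convert h3 using 1
    · rfl
    · simp only [lat2H, coe_mulH]
      congr 1
      push_cast; ring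

theorem exists_ch {Λ Λ' : Lt} (h : IsLat Λ) {N : ℕ} (hN : 0 < N) (h1 : pr N * Λ ≤ Λ')
    (h2 : Λ' ≤ Λ) : ∃ n, n ∣ N ^ 2 ∧ Ch n Λ Λ' := by
  obtain ⟨c, τ, hc, rfl⟩ := h
  obtain ⟨a, d, b, ha, hd, haN, hdN, -, -, h⟩ := hnf hc τ hN h1 h2
  have h' : Λ' = lat2H c τ a d b := by rw [h, lat2H]; push_cast; rfl
  exact ⟨d * a, by rw [sq]; exact mul_dvd_mul hdN haN, h' ▸ lat2_ch ha d hd c hc τ b⟩

end Pool.Agent.EQ
end
end

-- part Pool.Agent.P.MP_ad7a55_nt.ULf2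
section

/-! Leafwise measures: the data of a point and good points. -/

set_option autoImplicit false

noncomputable section

open MeasureTheory Topology Filter UpperHalfPlane
open scoped MatrixGroups ENNReal BoundedContinuousFunction

namespace Pool.Agent.EQ

/-- Leafwise data. -/
abbrev Dat (p : ℕ) [Fact p.Prime] (ι : Type) : Type := ℤ → ℤ → (ι → ℚ_[p]) → ℝ≥0∞

variable {p : ℕ} [Fact p.Prime] {ι : Type} [Fintype ι]

/-- The leafwise measure on the ball of radius `p ^ k`, smoothed at the scale `p ^ l`. -/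
def lw (δ : Dat p ι) (k l : ℤ) : Measure (ι → ℚ_[p]) := (bmV p ι k).withDensity (δ k l)

/-- Rescaled data. -/
def shD (a : ℚ_[p]) (e : ℤ) (δ : Dat p ι) : Dat p ι := fun k l c => δ (k + e) (l + e) (a • c)

def IvD (δ : Dat p ι) : Prop :=
  ∀ (k l : ℤ) (c v : ι → ℚ_[p]), ‖v‖ ≤ (p : ℝ) ^ l → δ k l (c + v) = δ k l c

theorem ulf2_open {l : ℤ} {S : Set (ι → ℚ_[p])}
    (hS : ∀ c ∈ S, ∀ v : ι → ℚ_[p], ‖v‖ ≤ (p : ℝ) ^ l → c + v ∈ S) : IsOpen S := by
  refine Metric.isOpen_iff.2 fun c hc => ⟨_, beta_pos p l, fun x hx => ?_⟩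
  have := hS c hc (x - c) (by rw [← dist_eq_norm]; exact (Metric.mem_ball.1 hx).le)
  rwa [add_sub_cancel] at this

theorem ulf2_map_wd {α β : Type} [MeasurableSpace α] [MeasurableSpace β] (e : α ≃ᵐ β)
    (μ : Measure α) (f : β → ℝ≥0∞) :
    (μ.withDensity fun x => f (e x)).map e = (μ.map e).withDensity f := by
  ext s hs
  rw [e.map_apply, withDensity_apply _ (e.measurable hs), withDensity_apply _ hs,
    e.measurableEmbedding.restrict_map, lintegral_map_equiv]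

theorem ulf2_iff {k : ℤ} {c v : ι → ℚ_[p]} (hv : ‖v‖ ≤ (p : ℝ) ^ k) :
    ‖c + v‖ ≤ (p : ℝ) ^ k ↔ ‖c‖ ≤ (p : ℝ) ^ k := by
  refine ⟨fun h => ?_, fun h => norm_add_V h hv⟩
  have := norm_add_V h (norm_neg v ▸ hv : ‖-v‖ ≤ (p : ℝ) ^ k)
  rwa [add_neg_cancel_right] at this

theorem ulf2_zero (k : ℤ) : ‖(0 : ι → ℚ_[p])‖ ≤ (p : ℝ) ^ k := by
  rw [norm_zero]; exact (beta_pos p k).le

theorem ulf2_rat {P : (ι → ℚ_[p]) → Prop} (m : ℤ)
    (hP : ∀ c v, ‖v‖ ≤ (p : ℝ) ^ m → P c → P (c + v))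
    (h : ∀ r : ι → ℚ, P fun i => (r i : ℚ_[p])) (c : ι → ℚ_[p]) : P c := by
  obtain ⟨r, hr⟩ := exists_rat_V c m
  have := hP _ _ hr (h r)
  rwa [add_sub_cancel] at this

theorem ulf2_lint_add {k : ℤ} {c : ι → ℚ_[p]} (hc : ‖c‖ ≤ (p : ℝ) ^ k) (f : (ι → ℚ_[p]) → ℝ≥0∞) :
    ∫⁻ v, f (v + c) ∂bmV p ι k = ∫⁻ v, f v ∂bmV p ι k := by
  conv_rhs => rw [← bmV_add hc]
  exact (lintegral_map_equiv f (MeasurableEquiv.addRight c)).symm

theorem ulf2_lint_neg (k : ℤ) (f : (ι → ℚ_[p]) → ℝ≥0∞) :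
    ∫⁻ v, f (-v) ∂bmV p ι k = ∫⁻ v, f v ∂bmV p ι k := by
  have h := bmV_smul (p := p) (ι := ι) k 0 (a := -1) (by simp)
  rw [add_zero, show (fun v : ι → ℚ_[p] => (-1 : ℚ_[p]) • v) = fun v => -v from
    funext fun v => neg_one_smul _ v] at h
  conv_rhs => rw [← h]
  exact (lintegral_map_equiv f (MeasurableEquiv.neg _)).symm

theorem IvD.measurable {δ : Dat p ι} (h : IvD δ) (k l : ℤ) : Measurable (δ k l) := by
  exact fun s _ => (ulf2_open (l := l) fun c hc v hv => by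
    rw [Set.mem_preimage, h k l c v hv]; exact hc).measurableSet

theorem lw_shD {a : ℚ_[p]} {e : ℤ} (ha : ‖a‖ = (p : ℝ) ^ e) (δ : Dat p ι) (k l : ℤ) :
    (lw (shD a e δ) k l).map (fun v => a • v) = lw δ (k + e) (l + e) := by
  have h0 : a ≠ 0 := by
    rintro rfl
    exact (beta_pos p e).ne (by simpa using ha)
  rw [lw, lw, ← bmV_smul k e ha]
  exact ulf2_map_wd (MeasurableEquiv.smul₀ a h0) _ _

variable {W : Type} [TopologicalSpace W] [PolishSpace W] [MeasurableSpace W] [BorelSpace W]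
  (φ : Flow (ι → ℚ_[p]) W) (ν : Measure W)

open Classical in
/-- The leafwise data of a point. -/
def dat (w : W) : Dat p ι := fun k l c =>
  if l ≤ k ∧ ‖c‖ ≤ (p : ℝ) ^ k then dl φ ν k l (φ c w) else 0

/-- A countable code of the data. -/
def dq (w : W) : ℤ × ℤ × (ι → ℚ) → ℝ≥0∞ := fun t =>
  dat φ ν w t.1 t.2.1 fun i => (t.2.2 i : ℚ_[p])

/-- Good points. -/
structure Gd (w : W) : Prop where
  pos : ∀ k l : ℤ, l ≤ k → dat φ ν w k l 0 ≠ 0
  bd : ∀ (k l : ℤ) (c : ι → ℚ_[p]),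
    dat φ ν w k l c ≤ ENNReal.ofReal ((p : ℝ) ^ ((k - l) * Fintype.card ι))
  chain : ∀ (k l m : ℤ) (c : ι → ℚ_[p]), m ≤ l → l ≤ k →
    dat φ ν w k m c = dat φ ν w k l c * dl φ ν l m (φ c w)
  sum : ∀ (k l m : ℤ) (c : ι → ℚ_[p]), m ≤ l → l ≤ k →
    ∫⁻ v, dat φ ν w k m (v + c) ∂bmV p ι l = dat φ ν w k l c
  top : ∀ k : ℤ, dat φ ν w k k 0 = 1

theorem ulf2_dat_pos {k l : ℤ} (hl : l ≤ k) {c : ι → ℚ_[p]} (hc : ‖c‖ ≤ (p : ℝ) ^ k) (w : W) :
    dat φ ν w k l c = dl φ ν k l (φ c w) := if_pos ⟨hl, hc⟩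

theorem ulf2_dat_neg {k l : ℤ} {c : ι → ℚ_[p]} (hc : ¬(l ≤ k ∧ ‖c‖ ≤ (p : ℝ) ^ k)) (w : W) :
    dat φ ν w k l c = 0 := if_neg hc

theorem ivD_dat (w : W) : IvD (dat φ ν w) := by
  intro k l c v hv
  by_cases hl : l ≤ k
  · simp only [dat, ulf2_iff (hv.trans (beta_mono p hl))]
    rw [add_comm, φ.map_add, dl_flow φ ν k hv]
  · simp only [dat, hl, false_and, if_false]

theorem dat_flow {k : ℤ} (l : ℤ) {c : ι → ℚ_[p]} (hc : ‖c‖ ≤ (p : ℝ) ^ k) (w : W)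
    (v : ι → ℚ_[p]) : dat φ ν (φ c w) k l v = dat φ ν w k l (v + c) := by
  simp only [dat, ulf2_iff hc, φ.map_add]

theorem measurable_dat (k l : ℤ) :
    Measurable fun z : W × (ι → ℚ_[p]) => dat φ ν z.1 k l z.2 := by
  classical
  refine Measurable.ite (MeasurableSet.const _ |>.inter ?_)
    ((measurable_dl φ ν k l).comp (measurable_flowV φ)) measurable_const
  exact measurableSet_le measurable_snd.norm measurable_const

theorem ulf2_meas (k l : ℤ) (c : ι → ℚ_[p]) : Measurable fun w => dat φ ν w k l c := by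
  have h := (measurable_dat φ ν k l).comp (measurable_prodMk_right (α := W) (y := c))
  exact h

theorem measurable_dq : Measurable (dq φ ν) := by
  exact measurable_pi_lambda _ fun t => ulf2_meas φ ν _ _ _

theorem dat_eq_of_dq {w w' : W} (h : dq φ ν w = dq φ ν w') : dat φ ν w = dat φ ν w' := by
  funext k l c
  refine ulf2_rat (P := fun c => dat φ ν w k l c = dat φ ν w' k l c) l (fun c v hv hc => ?_)
    (fun r => congrFun h (k, l, r)) c
  rw [ivD_dat φ ν w k l c v hv, ivD_dat φ ν w' k l c v hv, hc]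

theorem lw_flow {k : ℤ} (l : ℤ) {c : ι → ℚ_[p]} (hc : ‖c‖ ≤ (p : ℝ) ^ k) (w : W) :
    (lw (dat φ ν (φ c w)) k l).map (fun v => v + c) = lw (dat φ ν w) k l := by
  rw [lw, lw]
  conv_rhs => rw [← bmV_add hc]
  rw [show dat φ ν (φ c w) k l = fun v => dat φ ν w k l (v + c) from
    funext (dat_flow φ ν l hc w)]
  exact ulf2_map_wd (MeasurableEquiv.addRight c) _ _

theorem measurable_lw (k l : ℤ) {F : W × (ι → ℚ_[p]) → ℝ≥0∞} (hF : Measurable F) :
    Measurable fun w => ∫⁻ v, F (w, v) ∂lw (dat φ ν w) k l := by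
  have : ∀ w, ∫⁻ v, F (w, v) ∂lw (dat φ ν w) k l =
      ∫⁻ v, dat φ ν w k l v * F (w, v) ∂bmV p ι k := fun w =>
    lintegral_withDensity_eq_lintegral_mul _ ((ivD_dat φ ν w).measurable k l)
      (hF.comp measurable_prodMk_left)
  simp only [this]
  exact ((measurable_dat φ ν k l).mul hF).lintegral_prod_right'

omit [PolishSpace W] in
theorem ulf2_mφ (c : ι → ℚ_[p]) : Measurable (φ c) :=
  (φ.continuous continuous_const continuous_id).measurable

theorem measurableSet_Gd : MeasurableSet {w | Gd φ ν w} := by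
  have e : ∀ w, Gd φ ν w ↔ (∀ k l : ℤ, l ≤ k → ¬dat φ ν w k l 0 = 0) ∧
      (∀ (k l : ℤ) (r : ι → ℚ), dat φ ν w k l (fun i => (r i : ℚ_[p])) ≤
        ENNReal.ofReal ((p : ℝ) ^ ((k - l) * Fintype.card ι))) ∧
      (∀ (k l m : ℤ) (r : ι → ℚ), m ≤ l → l ≤ k → dat φ ν w k m (fun i => (r i : ℚ_[p])) =
        dat φ ν w k l (fun i => (r i : ℚ_[p])) * dl φ ν l m (φ (fun i => (r i : ℚ_[p])) w)) ∧
      (∀ (k l m : ℤ) (r : ι → ℚ), m ≤ l → l ≤ k →
        ∫⁻ v, dat φ ν w k m (v + fun i => (r i : ℚ_[p])) ∂bmV p ι l =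
          dat φ ν w k l fun i => (r i : ℚ_[p])) ∧ ∀ k : ℤ, dat φ ν w k k 0 = 1 := by
    intro w
    have hI := ivD_dat φ ν w
    refine ⟨fun h => ⟨h.pos, fun k l r => h.bd k l _, fun k l m r => h.chain k l m _,
      fun k l m r => h.sum k l m _, h.top⟩, fun ⟨h1, h2, h3, h4, h5⟩ => ⟨h1, fun k l c => ?_,
      fun k l m c hm hl => ?_, fun k l m c hm hl => ?_, h5⟩⟩
    · refine ulf2_rat (P := fun c => dat φ ν w k l c ≤ _) l (fun c v hv hc => ?_) (h2 k l) c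
      rwa [hI k l c v hv]
    · refine ulf2_rat (P := fun c => dat φ ν w k m c = dat φ ν w k l c * dl φ ν l m (φ c w)) m
        (fun c v hv hc => ?_) (fun r => h3 k l m r hm hl) c
      rw [hI k m c v hv, hI k l c v (hv.trans (beta_mono p hm)), add_comm, φ.map_add,
        dl_flow φ ν l hv, hc]
    · refine ulf2_rat (P := fun c => ∫⁻ v, dat φ ν w k m (v + c) ∂bmV p ι l = dat φ ν w k l c) m
        (fun c v hv hc => ?_) (fun r => h4 k l m r hm hl) c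
      simp only [← add_assoc, hI k m _ v hv]
      rw [hI k l c v (hv.trans (beta_mono p hm)), hc]
  simp only [e]
  refine measurableSet_setOfPred.2 (.and ?_ (.and ?_ (.and ?_ (.and ?_ ?_))))
  · exact .forall fun k => .forall fun l => .imp measurable_const
      (.not ((ulf2_meas φ ν _ _ _).eq measurable_const))
  · exact .forall fun k => .forall fun l => .forall fun r => measurableSet_setOfPred.1
      (measurableSet_le (ulf2_meas φ ν _ _ _) measurable_const)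
  · exact .forall fun k => .forall fun l => .forall fun m => .forall fun r =>
      .imp measurable_const (.imp measurable_const ((ulf2_meas φ ν _ _ _).eq
        ((ulf2_meas φ ν _ _ _).mul ((measurable_dl φ ν l m).comp (ulf2_mφ φ _)))))
  · refine .forall fun k => .forall fun l => .forall fun m => .forall fun r =>
      .imp measurable_const (.imp measurable_const (.eq ?_ (ulf2_meas φ ν _ _ _)))
    exact ((measurable_dat φ ν k m).comp
      (measurable_fst.prodMk (measurable_snd.add_const _))).lintegral_prod_right'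
  · exact .forall fun k => (ulf2_meas φ ν _ _ _).eq measurable_const

omit [PolishSpace W] [MeasurableSpace W] [BorelSpace W] in
theorem ulf2_av_inv {l : ℤ} {c : ι → ℚ_[p]} (hc : ‖c‖ ≤ (p : ℝ) ^ l) (F : W → ℝ≥0∞) (w : W) :
    ∫⁻ v, F (φ v (φ c w)) ∂bmV p ι l = ∫⁻ v, F (φ v w) ∂bmV p ι l := by
  simp only [← φ.map_add]
  exact ulf2_lint_add hc fun v => F (φ v w)

theorem ulf2_sum [IsProbabilityMeasure ν] {k l m : ℤ} (hm : m ≤ l) (hl : l ≤ k) :
    ∀ᵐ w ∂avV φ ν k, ∫⁻ v, dl φ ν k m (φ v w) ∂bmV p ι l = dl φ ν k l w := by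
  have hd := measurable_dl φ ν k m
  have hφ := measurable_flowV φ
  have hG : Measurable fun w => ∫⁻ v, dl φ ν k m (φ v w) ∂bmV p ι l :=
    (hd.comp hφ).lintegral_prod_right'
  refine (withDensity_eq_iff_of_sigmaFinite hG.aemeasurable
    (measurable_dl φ ν k l).aemeasurable).1 ?_
  rw [withDensity_dl φ ν hl]
  refine Measure.ext_of_lintegral _ fun F hF => ?_
  have hn : Measurable fun z : W × (ι → ℚ_[p]) => F (φ (-z.2) z.1) :=
    hF.comp (hφ.comp (measurable_fst.prodMk measurable_snd.neg))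
  rw [lintegral_withDensity_eq_lintegral_mul _ hG hF]
  calc ∫⁻ w, (∫⁻ v, dl φ ν k m (φ v w) ∂bmV p ι l) * F w ∂avV φ ν k
      = ∫⁻ w, ∫⁻ v, dl φ ν k m (φ v w) * F w ∂bmV p ι l ∂avV φ ν k :=
        lintegral_congr fun w =>
          (lintegral_mul_const _ ((hd.comp hφ).comp measurable_prodMk_left)).symm
    _ = ∫⁻ v, ∫⁻ w, dl φ ν k m (φ v w) * F w ∂avV φ ν k ∂bmV p ι l :=
        lintegral_lintegral_swap ((hd.comp hφ).mul (hF.comp measurable_fst)).aemeasurable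
    _ = ∫⁻ v, ∫⁻ w, F (φ (-v) w) ∂avV φ ν m ∂bmV p ι l := by
        refine lintegral_congr_ae ((bmV_ae l).mono fun v hv => ?_)
        have h1 : Measurable fun w => F (φ (-v) w) := hF.comp (ulf2_mφ φ _)
        simp only
        rw [← withDensity_dl φ ν (hm.trans hl), lintegral_withDensity_eq_lintegral_mul _ hd h1]
        conv_rhs => rw [← avV_flow φ ν (hv.trans (beta_mono p hl))]
        rw [lintegral_map (hd.mul h1) (ulf2_mφ φ v)]
        refine lintegral_congr fun w => ?_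
        simp only [Pi.mul_apply, ← φ.map_add, neg_add_cancel, φ.map_zero_apply]
    _ = ∫⁻ w, ∫⁻ v, F (φ (-v) w) ∂bmV p ι l ∂avV φ ν m :=
        (lintegral_lintegral_swap hn.aemeasurable).symm
    _ = ∫⁻ w, ∫⁻ v, F (φ v w) ∂bmV p ι l ∂avV φ ν m :=
        lintegral_congr fun w => ulf2_lint_neg l fun v => F (φ v w)
    _ = ∫⁻ w, F w ∂avV φ ν l := by
        rw [lint_avV φ ν l hF]
        exact lint_inv φ ν (hF.comp hφ).lintegral_prod_right' fun v hv w =>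
          ulf2_av_inv φ (hv.trans (beta_mono p hm)) F w

theorem ae_Gd [IsProbabilityMeasure ν] : ∀ᵐ w ∂ν, Gd φ ν w := by
  have h1 : ∀ k l : ℤ, ∀ᵐ w ∂ν, l ≤ k → dat φ ν w k l 0 ≠ 0 := by
    intro k l
    by_cases hl : l ≤ k
    swap
    · exact .of_forall fun _ h => absurd h hl
    have h : ∀ᵐ w ∂avV φ ν l, dl φ ν k l w ≠ 0 := by
      rw [← withDensity_dl φ ν hl, ae_withDensity_iff (measurable_dl φ ν k l)]
      exact .of_forall fun _ h => h
    filter_upwards [ae_forall_flow φ ν h fun v hv w hw => by rwa [dl_flow φ ν k hv]] with w hw _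
    rw [ulf2_dat_pos φ ν hl (ulf2_zero k)]
    exact hw 0 (ulf2_zero l)
  have h2 : ∀ k l : ℤ, ∀ᵐ w ∂ν, ∀ c,
      dat φ ν w k l c ≤ ENNReal.ofReal ((p : ℝ) ^ ((k - l) * Fintype.card ι)) := by
    intro k l
    by_cases hl : l ≤ k
    swap
    · exact .of_forall fun w c => by
        rw [ulf2_dat_neg φ ν fun h => hl h.1]; exact zero_le
    have h : ∀ᵐ w ∂avV φ ν k,
        dl φ ν k l w ≤ ENNReal.ofReal ((p : ℝ) ^ ((k - l) * Fintype.card ι)) := by
      refine ae_le_of_forall_setLIntegral_le_of_sigmaFinite (measurable_dl φ ν k l) fun s hs _ => ?_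
      rw [← withDensity_apply _ hs, withDensity_dl φ ν hl, setLIntegral_const]
      exact avV_le φ ν hl s
    filter_upwards [ae_forall_flow φ ν h fun v hv w hw => by rwa [dl_flow φ ν k hv]] with w hw c
    by_cases hc : ‖c‖ ≤ (p : ℝ) ^ k
    · rw [ulf2_dat_pos φ ν hl hc]; exact hw c hc
    · rw [ulf2_dat_neg φ ν fun h => hc h.2]; exact zero_le
  have h3 : ∀ k l m : ℤ, ∀ᵐ w ∂ν, ∀ c, m ≤ l → l ≤ k →
      dat φ ν w k m c = dat φ ν w k l c * dl φ ν l m (φ c w) := by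
    intro k l m
    by_cases hl : m ≤ l ∧ l ≤ k
    swap
    · exact .of_forall fun _ _ h h' => absurd ⟨h, h'⟩ hl
    obtain ⟨hm, hl⟩ := hl
    have h : ∀ᵐ w ∂avV φ ν k, dl φ ν k m w = dl φ ν k l w * dl φ ν l m w := by
      refine (withDensity_eq_iff_of_sigmaFinite (g := dl φ ν k l * dl φ ν l m)
        (measurable_dl φ ν k m).aemeasurable
        ((measurable_dl φ ν k l).mul (measurable_dl φ ν l m)).aemeasurable).1 ?_
      rw [withDensity_mul _ (measurable_dl φ ν k l) (measurable_dl φ ν l m), withDensity_dl φ ν hl,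
        withDensity_dl φ ν hm, withDensity_dl φ ν (hm.trans hl)]
    filter_upwards [ae_forall_flow φ ν h fun v hv w hw => by
      rwa [dl_flow φ ν k hv, dl_flow φ ν l hv, dl_flow φ ν k (hv.trans (beta_mono p hm))]]
      with w hw c _ _
    by_cases hc : ‖c‖ ≤ (p : ℝ) ^ k
    · rw [ulf2_dat_pos φ ν hl hc, ulf2_dat_pos φ ν (hm.trans hl) hc]; exact hw c hc
    · rw [ulf2_dat_neg φ ν fun h => hc h.2, ulf2_dat_neg φ ν fun h => hc h.2, zero_mul]
  have h4 : ∀ k l m : ℤ, ∀ᵐ w ∂ν, ∀ c, m ≤ l → l ≤ k →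
      ∫⁻ v, dat φ ν w k m (v + c) ∂bmV p ι l = dat φ ν w k l c := by
    intro k l m
    by_cases hl : m ≤ l ∧ l ≤ k
    swap
    · exact .of_forall fun _ _ h h' => absurd ⟨h, h'⟩ hl
    obtain ⟨hm, hl⟩ := hl
    filter_upwards [ae_forall_flow φ ν (ulf2_sum φ ν hm hl) fun v hv w hw => by
      rwa [dl_flow φ ν k hv, ulf2_av_inv φ hv]] with w hw c _ _
    by_cases hc : ‖c‖ ≤ (p : ℝ) ^ k
    · rw [ulf2_dat_pos φ ν hl hc, ← hw c hc]
      refine lintegral_congr_ae ((bmV_ae l).mono fun v hv => ?_)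
      simp only
      rw [ulf2_dat_pos φ ν (hm.trans hl) (norm_add_V (hv.trans (beta_mono p hl)) hc), φ.map_add]
    · rw [ulf2_dat_neg φ ν fun h => hc h.2]
      refine (lintegral_congr_ae ((bmV_ae l).mono fun v hv => ?_)).trans lintegral_zero
      exact ulf2_dat_neg φ ν (fun h => hc ((ulf2_iff (hv.trans (beta_mono p hl))).1
        (add_comm v c ▸ h.2))) w
  have h5 : ∀ k : ℤ, ∀ᵐ w ∂ν, dat φ ν w k k 0 = 1 := by
    intro k
    have h : ∀ᵐ w ∂avV φ ν k, dl φ ν k k w = 1 := by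
      refine (withDensity_eq_iff_of_sigmaFinite (g := 1) (measurable_dl φ ν k k).aemeasurable
        aemeasurable_const).1 ?_
      rw [withDensity_dl φ ν le_rfl, withDensity_one]
    filter_upwards [ae_forall_flow φ ν h fun v hv w hw => by rwa [dl_flow φ ν k hv]] with w hw
    rw [ulf2_dat_pos φ ν le_rfl (ulf2_zero k)]
    exact hw 0 (ulf2_zero k)
  filter_upwards [ae_all_iff.2 fun k => ae_all_iff.2 (h1 k),
    ae_all_iff.2 fun k => ae_all_iff.2 (h2 k),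
    ae_all_iff.2 fun k => ae_all_iff.2 fun l => ae_all_iff.2 (h3 k l),
    ae_all_iff.2 fun k => ae_all_iff.2 fun l => ae_all_iff.2 (h4 k l), ae_all_iff.2 h5]
    with w a1 a2 a3 a4 a5 using ⟨a1, a2, a3, a4, a5⟩

/-- The basic identity. -/
theorem lint_lw [IsProbabilityMeasure ν] {k l : ℤ} (hl : l ≤ k) {F : W → ℝ≥0∞} (hF : Measurable F)
    (hi : ∀ v : ι → ℚ_[p], ‖v‖ ≤ (p : ℝ) ^ l → ∀ w, F (φ v w) = F w) :
    ∫⁻ w, ∫⁻ v, F (φ v w) ∂lw (dat φ ν w) k l ∂ν = ∫⁻ w, F w ∂ν := by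
  have hd := measurable_dl φ ν k l
  rw [← lint_inv φ ν hF hi, ← withDensity_dl φ ν hl, lintegral_withDensity_eq_lintegral_mul _ hd hF,
    lint_avV φ ν k (hd.mul hF)]
  refine lintegral_congr fun w => ?_
  rw [lw, lintegral_withDensity_eq_lintegral_mul _ ((ivD_dat φ ν w).measurable k l)
    (g := fun v => F (φ v w)) ((hF.comp (measurable_flowV φ)).comp measurable_prodMk_left)]
  refine lintegral_congr_ae ((bmV_ae k).mono fun v hv => ?_)
  simp only [Pi.mul_apply, ulf2_dat_pos φ ν hl hv]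

variable {φ ν}

theorem Gd.prob {w : W} (h : Gd φ ν w) {k l : ℤ} (hl : l ≤ k) :
    IsProbabilityMeasure (lw (dat φ ν w) k l) := by
  refine ⟨?_⟩
  have := h.sum k k l 0 hl le_rfl
  simp only [add_zero, h.top] at this
  rw [lw, withDensity_apply _ MeasurableSet.univ, Measure.restrict_univ, this]

theorem Gd.level {w : W} (h : Gd φ ν w) {k l m : ℤ} (hm : m ≤ l) (hl : l ≤ k)
    {S : Set (ι → ℚ_[p])} (hS : ∀ c ∈ S, ∀ v : ι → ℚ_[p], ‖v‖ ≤ (p : ℝ) ^ l → c + v ∈ S) :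
    lw (dat φ ν w) k m S = lw (dat φ ν w) k l S := by
  have hS' := (ulf2_open hS).measurableSet
  have hd := (ivD_dat φ ν w).measurable k m
  rw [lw, lw, withDensity_apply _ hS', withDensity_apply _ hS']
  calc ∫⁻ c in S, dat φ ν w k m c ∂bmV p ι k
      = ∫⁻ _, ∫⁻ c in S, dat φ ν w k m c ∂bmV p ι k ∂bmV p ι l := by simp
    _ = ∫⁻ v, ∫⁻ c in S, dat φ ν w k m (v + c) ∂bmV p ι k ∂bmV p ι l := by
        refine lintegral_congr_ae ((bmV_ae l).mono fun v hv => ?_)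
        simp only
        rw [← lintegral_indicator hS', ← lintegral_indicator hS',
          ← ulf2_lint_add (hv.trans (beta_mono p hl))]
        refine lintegral_congr fun c => ?_
        by_cases hc : c ∈ S
        · rw [Set.indicator_of_mem hc, Set.indicator_of_mem (hS c hc v hv), add_comm]
        · rw [Set.indicator_of_notMem hc, Set.indicator_of_notMem fun h' => hc ?_]
          have := hS _ h' (-v) (by rwa [norm_neg])
          rwa [add_neg_cancel_right] at this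
    _ = ∫⁻ c in S, ∫⁻ v, dat φ ν w k m (v + c) ∂bmV p ι l ∂bmV p ι k :=
        lintegral_lintegral_swap (hd.comp (measurable_fst.add measurable_snd)).aemeasurable
    _ = _ := lintegral_congr fun c => h.sum k l m c hm hl

theorem ulf2_ball (l : ℤ) (c : ι → ℚ_[p]) : MeasurableSet {v : ι → ℚ_[p] | ‖v - c‖ ≤ (p : ℝ) ^ l} :=
  measurableSet_le (measurable_id.sub_const c).norm measurable_const

theorem lw_ball (w : W) {k l : ℤ} (hl : l ≤ k) (c : ι → ℚ_[p]) :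
    lw (dat φ ν w) k l {v | ‖v - c‖ ≤ (p : ℝ) ^ l} =
      dat φ ν w k l c * ENNReal.ofReal ((p : ℝ) ^ ((l - k) * Fintype.card ι)) := by
  have hS := ulf2_ball l c
  rw [lw, withDensity_apply _ hS, setLIntegral_congr_fun hS (g := fun _ => dat φ ν w k l c)
    fun v hv => by rw [← ivD_dat φ ν w k l c _ hv, add_sub_cancel], setLIntegral_const]
  by_cases hc : ‖c‖ ≤ (p : ℝ) ^ k
  · rw [bmV_ball hl hc]
  · rw [ulf2_dat_neg φ ν fun h => hc h.2, zero_mul, zero_mul]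

theorem Gd.local {w : W} (h : Gd φ ν w) {k l m : ℤ} (hm : m ≤ l) (hl : l ≤ k) {c : ι → ℚ_[p]}
    (hc : ‖c‖ ≤ (p : ℝ) ^ k) {S : Set (ι → ℚ_[p])} (hS : MeasurableSet S) :
    lw (dat φ ν w) k m {v | ‖v - c‖ ≤ (p : ℝ) ^ l ∧ v - c ∈ S} =
      lw (dat φ ν w) k l {v | ‖v - c‖ ≤ (p : ℝ) ^ l} * lw (dat φ ν (φ c w)) l m S := by
  have hB : MeasurableSet {v : ι → ℚ_[p] | ‖v‖ ≤ (p : ℝ) ^ l} :=
    measurableSet_le measurable_id.norm measurable_const
  have hT : MeasurableSet {v : ι → ℚ_[p] | ‖v - c‖ ≤ (p : ℝ) ^ l ∧ v - c ∈ S} :=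
    (ulf2_ball l c).inter ((measurable_id.sub_const c) hS)
  have e1 : (fun v => v + c) ⁻¹' {v : ι → ℚ_[p] | ‖v - c‖ ≤ (p : ℝ) ^ l ∧ v - c ∈ S} =
      S ∩ {v | ‖v‖ ≤ (p : ℝ) ^ l} := by
    ext v
    simp [and_comm]
  have e2 : ENNReal.ofReal ((p : ℝ) ^ ((l - k) * Fintype.card ι)) *
      ENNReal.ofReal ((p : ℝ) ^ ((k - l) * Fintype.card ι)) = 1 := by
    rw [← ENNReal.ofReal_mul (beta_pos p _).le,
      ← zpow_add₀ (zero_lt_one.trans (beta_one_lt p)).ne', ← add_mul]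
    simp
  rw [lw_ball w hl, ← lw_flow φ ν m hc w, Measure.map_apply (measurable_add_const c) hT, e1, lw, lw,
    withDensity_apply _ (hS.inter hB), withDensity_apply _ hS, bmV_restrict hl,
    Measure.restrict_smul, lintegral_smul_measure, Measure.restrict_restrict hS, smul_eq_mul,
    mul_assoc, ← mul_assoc (ENNReal.ofReal _), e2, one_mul,
    ← lintegral_const_mul _ ((ivD_dat φ ν _).measurable l m)]
  refine setLIntegral_congr_fun (hS.inter hB) fun u hu => ?_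
  rw [dat_flow φ ν m hc, h.chain k l m _ hm hl, ulf2_dat_pos φ ν hm hu.2, φ.map_add, add_comm u c,
    ivD_dat φ ν w k l c u hu.2]

/-- Points with the same data have the same data at close points of their leaves. -/
theorem Gd.transfer {w w' : W} (h : Gd φ ν w) (h' : Gd φ ν w') (e : dat φ ν w = dat φ ν w')
    {c c' : ι → ℚ_[p]} (hc : Gd φ ν (φ c w)) {n : ℤ} (hn : ‖c - c'‖ ≤ (p : ℝ) ^ n) (k : ℤ) {l : ℤ}
    (hl : n ≤ l) : dat φ ν (φ c w) k l = dat φ ν (φ c' w') k l := by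
  funext v
  by_cases hv : l ≤ k ∧ ‖v‖ ≤ (p : ℝ) ^ k
  swap
  · rw [ulf2_dat_neg φ ν hv, ulf2_dat_neg φ ν hv]
  obtain ⟨hk, hv⟩ := hv
  obtain ⟨N, hN⟩ := pow_unbounded_of_one_lt ‖c‖ (beta_one_lt p)
  have hK : k ≤ max k N := le_max_left _ _
  have hcK : ‖c‖ ≤ (p : ℝ) ^ max k (N : ℤ) :=
    hN.le.trans ((zpow_natCast (p : ℝ) N).symm.le.trans (beta_mono p (le_max_right _ _)))
  have h1 := h.chain _ k l (v + c) hk hK
  have h2 := h'.chain _ k l (v + c') hk hK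
  have e1 : v + c = v + c' + (c - c') := by abel
  have hI := ivD_dat φ ν w'
  rw [← hI _ l _ _ (hn.trans (beta_mono p hl)), ← hI _ k _ _ (hn.trans (beta_mono p (hl.trans hk))),
    ← e1, ← e, h1] at h2
  have h0 : dat φ ν w (max k N) k (v + c) ≠ 0 := by
    have := hc.pos _ k hK
    rwa [dat_flow φ ν k hcK, zero_add, ← ivD_dat φ ν w _ k c v hv, add_comm] at this
  have ht : dat φ ν w (max k N) k (v + c) ≠ ⊤ := ne_top_of_le_ne_top ENNReal.ofReal_ne_top (h.bd _ _ _)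
  rw [ulf2_dat_pos φ ν hk hv, ulf2_dat_pos φ ν hk hv, ← φ.map_add, ← φ.map_add]
  exact (ENNReal.mul_right_inj h0 ht).1 h2

end Pool.Agent.EQ
end
end

-- part Pool.Agent.P.MP_ad7a55_nt.XFj
section

/-! Measures on powers of SL(2) without spectral gap live on graphs. -/

set_option autoImplicit false

noncomputable section

open Finset
open scoped Pointwise MatrixGroups Classical

namespace Pool.Agent.EQ

theorem xfj_struct {G : Type} [Group G] [Fintype G] [inst : DecidableEq G] {ν : G → ℝ}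
    (h0 : ∀ g, 0 ≤ ν g) (h1 : ∑ g, ν g ≤ 1) (hs : ∀ g, ν g⁻¹ = ν g) {K : ℝ}
    (hK : 1 ≤ K) (hn : 0 < n2 ν) (h : n2 ν ≤ K * n2 (cv ν ν)) :
    ∃ (S : Finset G) (b : G), 1 ∈ S ∧ S⁻¹ = S ∧ 1 ≤ (64 * K) ^ 63 * ∑ x with x * b⁻¹ ∈ S, ν x ∧
      ∀ r : ℕ, #(S ^ r) * n2 ν ≤ (64 * K) ^ (103 * r + 52) := by
  obtain rfl : inst = fun a b => Classical.propDecidable (a = b) := Subsingleton.elim _ _
  exact struct h0 h1 hs hK hn h

theorem xfj_alg {q : ℕ} [Fact q.Prime] {a g b a' g' b' : GQ q} {X Z : MQ q}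
    (h : ((a * g * b⁻¹ : GQ q) : MQ q) * X = Z * ((a' * g' * b'⁻¹ : GQ q) : MQ q)) :
    (g : MQ q) * (((b⁻¹ : GQ q) : MQ q) * X * (b' : MQ q)) =
      ((a⁻¹ : GQ q) : MQ q) * Z * (a' : MQ q) * (g' : MQ q) := by
  have e1 : ((a⁻¹ : GQ q) : MQ q) * ((a * g * b⁻¹ : GQ q) : MQ q) =
      (g : MQ q) * ((b⁻¹ : GQ q) : MQ q) := by
    rw [← Matrix.SpecialLinearGroup.coe_mul, ← Matrix.SpecialLinearGroup.coe_mul,
      show a⁻¹ * (a * g * b⁻¹) = g * b⁻¹ by group]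
  have e2 : ((a' * g' * b'⁻¹ : GQ q) : MQ q) * (b' : MQ q) = (a' : MQ q) * (g' : MQ q) := by
    rw [← Matrix.SpecialLinearGroup.coe_mul, ← Matrix.SpecialLinearGroup.coe_mul,
      show a' * g' * b'⁻¹ * b' = a' * g' by group]
  calc _ = (g : MQ q) * ((b⁻¹ : GQ q) : MQ q) * X * (b' : MQ q) := by simp only [Matrix.mul_assoc]
    _ = ((a⁻¹ : GQ q) : MQ q) * (((a * g * b⁻¹ : GQ q) : MQ q) * X) * (b' : MQ q) := by
        rw [← e1, Matrix.mul_assoc _ _ X]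
    _ = ((a⁻¹ : GQ q) : MQ q) * Z * (((a' * g' * b'⁻¹ : GQ q) : MQ q) * (b' : MQ q)) := by
        rw [h]
        simp only [Matrix.mul_assoc]
    _ = _ := by rw [e2, ← Matrix.mul_assoc]

theorem xfj_two {α : Type} [Fintype α] {ρ : α → ℝ} (h0 : ∀ g, 0 ≤ ρ g) {A B C : α → Prop}
    {_ : DecidablePred A} {_ : DecidablePred B} {_ : DecidablePred C}
    (h : ∀ g, A g → B g ∨ C g) :
    ∑ g with A g, ρ g ≤ ∑ g with B g, ρ g + ∑ g with C g, ρ g := by
  rw [sum_filter, sum_filter, sum_filter, ← sum_add_distrib]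
  refine sum_le_sum fun g _ => ?_
  have := h0 g
  by_cases hA : A g
  · rcases h g hA with hB | hC
    · rw [if_pos hA, if_pos hB]
      split_ifs <;> linarith
    · rw [if_pos hA, if_pos hC]
      split_ifs <;> linarith
  · rw [if_neg hA]
    split_ifs <;> linarith

theorem xfj_mono {α : Type} [Fintype α] {ρ : α → ℝ} (h0 : ∀ g, 0 ≤ ρ g) {A B : α → Prop}
    {_ : DecidablePred A} {_ : DecidablePred B} (h : ∀ g, A g → B g) :
    ∑ g with A g, ρ g ≤ ∑ g with B g, ρ g :=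
  sum_le_sum_of_subset_of_nonneg (fun g hg => mem_filter.2 ⟨mem_univ _, h g (mem_filter.1 hg).2⟩)
    fun g _ _ => h0 g

theorem xfj_fib {α β : Type} [Fintype α] {ρ : α → ℝ} (h0 : ∀ g, 0 ≤ ρ g) {A : α → Prop}
    [DecidablePred A] (π : α → β) (T : Finset β) (h : ∀ g, A g → π g ∈ T) {s : ℝ}
    (hs : ∀ t, ∑ g with π g = t, ρ g ≤ s) : ∑ g with A g, ρ g ≤ #T * s := by
  rw [← sum_fiberwise_of_maps_to (t := T) (g := π) fun g hg => h g (mem_filter.1 hg).2,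
    ← nsmul_eq_mul]
  refine sum_le_card_nsmul _ _ _ fun t _ => le_trans ?_ (hs t)
  exact sum_le_sum_of_subset_of_nonneg
    (fun g hg => mem_filter.2 ⟨mem_univ _, (mem_filter.1 hg).2⟩) fun g _ _ => h0 g

theorem xfj_par (m r : ℕ) {e : ℝ} (he : 0 < e) : ∃ (κ c : ℝ) (I q₀ : ℕ), 0 < c ∧
    κ * (103 * r + 52 : ℕ) ≤ 1 / 8 ∧ κ * (63 : ℕ) ≤ 1 / 8 ∧ κ * (63 : ℕ) ≤ e / 2 ∧
    (3 * m : ℕ) + 1 ≤ κ / 2 * I ∧ c * (2 ^ (I + 1) : ℕ) = 1 / 16 ∧ ∀ q : ℕ, q₀ ≤ q → 5 < q ∧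
      64 ≤ (q : ℝ) ^ (κ / 2) ∧ 3 ≤ (q : ℝ) ^ (e / 2) ∧ 4 ≤ (q : ℝ) ^ (1 / 2 : ℝ) := by
  have hr : (0 : ℝ) ≤ r := Nat.cast_nonneg r
  obtain ⟨κ, k0, k1, k2⟩ : ∃ κ : ℝ, 0 < κ ∧ κ * (103 * r + 63) ≤ 1 / 8 ∧ κ * 63 ≤ e / 2 := by
    refine ⟨min (1 / 8 / (103 * r + 63)) (e / 126), by positivity, ?_, ?_⟩
    · exact (le_div_iff₀ (by positivity)).1 (min_le_left _ _)
    · linarith [min_le_right (1 / 8 / (103 * r + 63) : ℝ) (e / 126)]
  have t : ∀ y : ℝ, 0 < y → ∀ b : ℝ, ∀ᶠ q : ℕ in Filter.atTop, b ≤ (q : ℝ) ^ y := fun y hy b =>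
    ((tendsto_rpow_atTop hy).comp tendsto_natCast_atTop_atTop).eventually_ge_atTop b
  obtain ⟨q₀, hq⟩ := Filter.eventually_atTop.1 ((Filter.eventually_gt_atTop 5).and
    ((t _ (half_pos k0) 64).and ((t _ (half_pos he) 3).and (t (1 / 2) (by norm_num) 4))))
  obtain ⟨I, hI⟩ := exists_nat_ge ((((3 * m : ℕ) : ℝ) + 1) / (κ / 2))
  refine ⟨κ, 1 / 16 / (2 ^ (I + 1) : ℕ), I, q₀, by positivity, ?_, ?_, ?_, ?_,
    div_mul_cancel₀ _ (by positivity), hq⟩
  · push_cast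
    nlinarith
  · push_cast
    nlinarith
  · exact_mod_cast k2
  · rw [div_le_iff₀ (half_pos k0)] at hI
    linarith

theorem group_lemma (ι : Type) [Fintype ι] {e : ℝ} (he : 0 < e) : ∃ (c : ℝ) (q₀ : ℕ), 0 < c ∧
    ∀ (q : ℕ) [Fact q.Prime], q₀ ≤ q → ∀ (Y : Type) [Fintype Y] [Nonempty Y]
      [MulAction (ι → GQ q) Y] [MulAction.IsPretransitive (ι → GQ q) Y] (ρ : (ι → GQ q) → ℝ)
      (f f' : Y → ℝ), (∀ g, 0 ≤ ρ g) → ∑ g, ρ g ≤ 1 →
      (∀ k w, ∑ g with g k = w, ρ g ≤ (q : ℝ) ^ (c - 3)) → (∀ y, 0 ≤ f y) → n2 f ≤ 1 → n2 f' ≤ 1 →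
      (∑ y, f y) ^ 2 ≤ (q : ℝ) ^ (-(1 / 2 : ℝ)) * Fintype.card Y → (q : ℝ) ^ (-c) ≤ cor ρ f f' →
      ∃ k l, k ≠ l ∧ ∃ X X' : MQ q, X.det ≠ 0 ∧
        (q : ℝ) ^ (-e) ≤ ∑ g with (g l : MQ q) * X = X' * (g k : MQ q), ρ g := by
  obtain ⟨r, hr⟩ := agour ι
  obtain ⟨κ, c, I, q₀, c0, k1, k2, k3, k4, hc, hq⟩ := xfj_par (Fintype.card ι) r he
  refine ⟨c, q₀, c0, ?_⟩
  intro q _ hq0 Y _ _ _ _ ρ f f' h0 h1 hk hf0 hf hf' hs hcor
  obtain ⟨q5, q1, q2, q3⟩ := hq q hq0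
  have Q1 : (1 : ℝ) < q := by exact_mod_cast (by omega : 1 < q)
  have Q0 : (0 : ℝ) < q := by linarith
  have pw : ∀ y : ℝ, 0 < (q : ℝ) ^ y := fun y => Real.rpow_pos_of_pos Q0 y
  have mono : ∀ {y z : ℝ}, y ≤ z → (q : ℝ) ^ y ≤ (q : ℝ) ^ z := fun h =>
    Real.rpow_le_rpow_of_exponent_le Q1.le h
  have c16 : ∀ j, j ≤ I + 1 → c * (2 ^ j : ℕ) ≤ 1 / 16 := fun j hj => by
    rw [← hc]
    exact mul_le_mul_of_nonneg_left
      (by exact_mod_cast Nat.pow_le_pow_right (by norm_num) hj) c0.le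
  have hlow : ∀ i, i ≤ I → (q : ℝ) ^ (-(1 / 16) : ℝ) ≤ cor (cit ρ i) f f := fun i hi => by
    refine le_trans ?_ ((pow_le_pow_left₀ (pw _).le hcor _).trans (cor_cit hf hf' ρ i))
    rw [← Real.rpow_mul_natCast Q0.le]
    exact mono (by linarith [c16 (i + 1) (by omega)])
  set K : ℝ := (q : ℝ) ^ κ / 64 with hK
  have K1 : (q : ℝ) ^ (κ / 2) ≤ K := by
    have e1 : (q : ℝ) ^ κ = (q : ℝ) ^ (κ / 2) * (q : ℝ) ^ (κ / 2) := by
      rw [← Real.rpow_add Q0, add_halves]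
    rw [hK, e1, le_div_iff₀ (by norm_num)]
    exact mul_le_mul_of_nonneg_left q1 (pw _).le
  have K2 : ∀ n : ℕ, (64 * K) ^ n = (q : ℝ) ^ (κ * n) := fun n => by
    rw [Real.rpow_mul_natCast Q0.le, hK, mul_div_cancel₀ _ (by norm_num)]
  have hG : (Fintype.card (ι → GQ q) : ℝ) ≤ (q : ℝ) ^ ((3 * Fintype.card ι : ℕ) : ℝ) := by
    rw [Real.rpow_natCast, Fintype.card_fun, pow_mul]
    exact_mod_cast Nat.pow_le_pow_left card_GQ _
  obtain ⟨i, hi, n0, hn⟩ := flat h0 h1 (K := K) (by linarith) (pw (-(1 / 16))) I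
    ((hlow I le_rfl).trans (cor_le_sum (cit_nonneg h0 I) hf)) (by
      refine hG.trans_lt (lt_of_lt_of_le ?_ (mul_le_mul_of_nonneg_right
        (pow_le_pow_left₀ (pw _).le K1 I) (sq_nonneg _)))
      rw [← Real.rpow_mul_natCast Q0.le, ← Real.rpow_mul_natCast Q0.le, ← Real.rpow_add Q0]
      refine Real.rpow_lt_rpow_of_exponent_lt Q1 ?_
      push_cast at k4 ⊢
      linarith)
  obtain ⟨S, b, s1, s2, s3, s4⟩ := xfj_struct (cit_nonneg h0 i) (cit_sum h0 h1 i) (cit_symm ρ i)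
    (K := K) (by linarith) n0 hn
  rw [K2] at s3
  have hT : ∀ k w, ∃ s ∈ S ^ 3, s k = w := by
    intro k w
    have a1 := xfj_fib (cit_nonneg h0 i) (A := fun x => x * b⁻¹ ∈ S) (fun x => (x * b⁻¹) k)
      (S.image fun x => x k) (fun g hg => mem_image_of_mem _ hg) (s := (q : ℝ) ^ (c - 3)) fun t =>
        (xfj_mono (cit_nonneg h0 i) fun _ h => h).trans
          (cit_set h0 h1 (fun x => (x * b⁻¹) k = t) (fun w =>
            (xfj_mono h0 (B := fun g => g k = (w k)⁻¹ * t * b k) fun g hg => by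
              rw [← hg, Pi.mul_apply, Pi.mul_apply, Pi.inv_apply]
              group).trans (hk k _)) i)
    have a2 : (q : ℝ) ^ (17 / 6 : ℝ) ≤ #(S.image fun x => x k) := by
      have a3 := s3.trans (mul_le_mul_of_nonneg_left a1 (pw _).le)
      have a4 : (q : ℝ) ^ (κ * (63 : ℕ)) * (q : ℝ) ^ (c - 3) * (q : ℝ) ^ (17 / 6 : ℝ) ≤ 1 := by
        rw [← Real.rpow_add Q0, ← Real.rpow_add Q0, ← Real.rpow_zero q]
        have := c16 1 (by omega)
        push_cast at this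
        exact mono (by linarith)
      have a5 := mul_le_mul_of_nonneg_right a3 (pw (17 / 6)).le
      have a6 := mul_le_mul_of_nonneg_left a4
        (Nat.cast_nonneg (α := ℝ) #(S.image fun x => x k))
      linarith
    obtain ⟨_, ha, _, hb, _, hc', rfl⟩ := gowers q5 (S.image fun x => x k) (by
      refine lt_of_lt_of_le ?_ (pow_le_pow_left₀ (pw _).le a2 3)
      rw [← Real.rpow_mul_natCast Q0.le,
        show (17 / 6 : ℝ) * (3 : ℕ) = 1 / 2 + (8 : ℕ) by norm_num, Real.rpow_add Q0,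
        Real.rpow_natCast]
      exact mul_lt_mul_of_pos_right (by linarith) (pow_pos Q0 _)) w
    obtain ⟨x, hx, rfl⟩ := mem_image.1 ha
    obtain ⟨y, hy, rfl⟩ := mem_image.1 hb
    obtain ⟨z, hz, rfl⟩ := mem_image.1 hc'
    exact ⟨x * y * z, by rw [pow_three']; exact mul_mem_mul (mul_mem_mul hx hy) hz, rfl⟩
  rcases hr q q5 S s1 s2 hT with hu | ⟨k, l, hkl, X, hX, hS⟩
  · exfalso
    have a1 := s4 r
    rw [hu, card_univ, K2] at a1
    have a2 := cor_le_sup (Y := Y) hf0 (cit_le ρ i) (cit_nonneg h0 (i + 1))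
    have a3 : (∑ y, f y) ^ 2 / Fintype.card Y ≤ (q : ℝ) ^ (-(1 / 2 : ℝ)) :=
      (div_le_iff₀ (by exact_mod_cast Fintype.card_pos)).2 hs
    have a4 := (hlow (i + 1) hi).trans (a2.trans (mul_le_mul ((mul_comm _ _).trans_le
      (a1.trans (mono k1))) a3 (by positivity) (pw _).le))
    rw [← Real.rpow_add Q0] at a4
    exact absurd a4 (Real.rpow_lt_rpow_of_exponent_lt Q1 (by norm_num)).not_ge
  · by_contra hcon
    push Not at hcon
    have hd : ((((b l)⁻¹ : GQ q) : MQ q) * X * (b k : MQ q)).det ≠ 0 := by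
      rw [Matrix.det_mul, Matrix.det_mul, Matrix.SpecialLinearGroup.det_coe,
        Matrix.SpecialLinearGroup.det_coe, one_mul, mul_one]
      exact hX
    have a1 := cit_set h0 h1 (fun g => Cj X ((g * b⁻¹) k) ((g * b⁻¹) l))
      (s := (q : ℝ) ^ (-e) + (q : ℝ) ^ (-e)) (fun w =>
        (xfj_two h0 fun g hg => hg.imp (fun h => xfj_alg h)
          fun h => xfj_alg (h.trans (neg_mul _ _).symm)).trans
          (add_le_add (hcon k l hkl _ _ hd).le (hcon k l hkl _ _ hd).le)) i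
    have a2 := s3.trans (mul_le_mul (mono k3)
      ((xfj_mono (cit_nonneg h0 i) fun g hg => hS _ hg).trans a1)
      (sum_nonneg fun g _ => cit_nonneg h0 i g) (pw _).le)
    have a3 : (q : ℝ) ^ (e / 2) * ((q : ℝ) ^ (e / 2) * (q : ℝ) ^ (-e)) = 1 := by
      rw [← Real.rpow_add Q0, ← Real.rpow_add Q0, show e / 2 + (e / 2 + -e) = 0 by ring,
        Real.rpow_zero]
    have a4 := mul_le_mul_of_nonneg_right q2 (mul_pos (pw (e / 2)) (pw (-e))).le
    linarith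

end Pool.Agent.EQ
end
end

-- part Pool.Agent.P.MP_ad7a55_nt.XGd
section

/-! Pairs of matrices that are proportional modulo many primes. -/

set_option autoImplicit false

noncomputable section

open Finset Matrix
open scoped MatrixGroups Classical

namespace Pool.Agent.EQ

theorem xgd_fib {α β : Type} [DecidableEq β] (s : Finset α) (f : α → β) {x : ℝ}
    (h : ∀ a₀ ∈ s, (#{a ∈ s | f a = f a₀} : ℝ) ≤ x) : (#s : ℝ) ≤ #(s.image f) * x := by
  rw [card_eq_sum_card_image f s, Nat.cast_sum, ← nsmul_eq_mul]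
  refine sum_le_card_nsmul _ _ _ fun b hb => ?_
  obtain ⟨a, ha, rfl⟩ := mem_image.1 hb
  exact h a ha

theorem xgd_fin {α : Type} (S : Set α) {x : ℝ} (h : ∀ T : Finset α, (∀ a ∈ T, a ∈ S) → (#T : ℝ) ≤ x) :
    ∃ T : Finset α, (#T : ℝ) ≤ x ∧ ∀ a ∈ S, a ∈ T := by
  have hS : S.Finite := by
    by_contra hi
    obtain ⟨T, h1, h2⟩ := Set.Infinite.exists_subset_card_eq hi (⌈x⌉₊ + 1)
    have h3 := h T fun a ha => h1 (mem_coe.2 ha)
    rw [h2] at h3
    push_cast at h3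
    linarith [Nat.le_ceil x]
  exact ⟨hS.toFinset, h _ fun a ha => hS.mem_toFinset.1 ha, fun a ha => hS.mem_toFinset.2 ha⟩

theorem xgd_div {ε : ℝ} (hε : 0 < ε) : ∃ C : ℝ, 0 < C ∧ ∀ (H : ℝ) (k : ℤ) (S : Finset ℤ),
    0 ≤ H → k ≠ 0 → |(k : ℝ)| ≤ H ^ 2 → (∀ a ∈ S, a ∣ k) → (#S : ℝ) ≤ C * H ^ ε := by
  obtain ⟨C, hC, h⟩ := div_bound (half_pos hε)
  refine ⟨2 * C, by positivity, fun H k S hH hk hb hS => ?_⟩
  have h1 : S ⊆ k.natAbs.divisors.image (fun d : ℕ => (d : ℤ)) ∪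
      k.natAbs.divisors.image fun d : ℕ => -(d : ℤ) := by
    intro a ha
    have h2 : a.natAbs ∈ k.natAbs.divisors :=
      Nat.mem_divisors.2 ⟨Int.natAbs_dvd_natAbs.2 (hS a ha), Int.natAbs_ne_zero.2 hk⟩
    rcases Int.natAbs_eq a with e | e
    · exact mem_union_left _ (mem_image.2 ⟨_, h2, e.symm⟩)
    · exact mem_union_right _ (mem_image.2 ⟨_, h2, e.symm⟩)
  have h2 : #S ≤ #k.natAbs.divisors + #k.natAbs.divisors :=
    (card_le_card h1).trans ((card_union_le _ _).trans (add_le_add card_image_le card_image_le))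
  have h3 : (#S : ℝ) ≤ #k.natAbs.divisors + #k.natAbs.divisors := by exact_mod_cast h2
  have h4 := h k.natAbs (Int.natAbs_pos.2 hk)
  have h5 : (k.natAbs : ℝ) ^ (ε / 2) ≤ H ^ ε := by
    have e : H ^ ε = (H ^ 2) ^ (ε / 2) := by
      rw [← Real.rpow_natCast, ← Real.rpow_mul hH]
      congr 1
      push_cast
      ring
    rw [e]
    refine Real.rpow_le_rpow (Nat.cast_nonneg _) ?_ (half_pos hε).le
    rw [Nat.cast_natAbs, Int.cast_abs]
    exact hb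
  have h6 := mul_le_mul_of_nonneg_left h5 hC.le
  linarith

theorem xgd_cnt {q : ℕ} {A : ℤ → Prop} (t : Finset ℕ) (h : ∀ r < q, A r → r ∈ t) :
    cnt q A ≤ #t := by
  unfold cnt
  refine card_le_card fun r hr => ?_
  simp only [mem_filter, mem_range] at hr
  exact h r hr.1 hr.2

theorem xgd_root {q n : ℕ} (hq : q.Prime) (h2 : q ≠ 2) (hn : ¬ q ∣ n) :
    cnt (q ^ 2) (fun x => (q : ℤ) ^ 2 ∣ x ^ 2 - 4 * n) ≤ 2 := by
  have hp : Prime (q : ℤ) := Nat.prime_iff_prime_int.1 hq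
  have h3 : ¬ (q : ℤ) ∣ 2 := fun h =>
    h2 ((Nat.prime_dvd_prime_iff_eq hq Nat.prime_two).1 (by exact_mod_cast h))
  by_cases hex : ∃ r₀ < q ^ 2, (q : ℤ) ^ 2 ∣ (r₀ : ℤ) ^ 2 - 4 * n
  swap
  · exact (xgd_cnt ∅ fun r a b => absurd ⟨r, a, b⟩ hex).trans (by simp)
  obtain ⟨r₀, a0, b0⟩ := hex
  have h4 : ¬ (q : ℤ) ∣ r₀ := fun h => by
    have h5 : (q : ℤ) ∣ 2 * (2 * n) := by
      have := (h.mul_left r₀).sub ((dvd_pow_self _ two_ne_zero).trans b0)
      exact this.trans (dvd_of_eq (by ring))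
    have h6 := (hp.dvd_or_dvd ((hp.dvd_or_dvd h5).resolve_left h3)).resolve_left h3
    exact hn (by exact_mod_cast h6)
  refine le_trans (xgd_cnt {r₀, q ^ 2 - r₀} fun r a1 b1 => ?_) card_le_two
  have h5 : (q : ℤ) ^ 2 ∣ ((r : ℤ) - r₀) * (r + r₀) := (b1.sub b0).trans (dvd_of_eq (by ring))
  have a0' : (r₀ : ℤ) < (q : ℤ) ^ 2 := by exact_mod_cast a0
  have a1' : (r : ℤ) < (q : ℤ) ^ 2 := by exact_mod_cast a1
  rw [mem_insert, mem_singleton]
  by_cases h6 : (q : ℤ) ∣ (r : ℤ) - r₀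
  · have h7 : ¬ (q : ℤ) ∣ (r : ℤ) + r₀ := fun h =>
      h4 ((hp.dvd_or_dvd ((h.sub h6).trans (dvd_of_eq (by ring : _ = 2 * (r₀ : ℤ))))).resolve_left h3)
    have h8 := Int.eq_zero_of_abs_lt_dvd (hp.pow_dvd_of_dvd_mul_right 2 h7 h5)
      (abs_lt.2 ⟨by omega, by omega⟩)
    omega
  · have h7 := (hp.pow_dvd_of_dvd_mul_left 2 h6 h5).sub (dvd_refl _)
    have h9 : r₀ ≠ 0 := fun h => h4 (by rw [h]; simp)
    have h8 := Int.eq_zero_of_abs_lt_dvd h7 (abs_lt.2 ⟨by omega, by omega⟩)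
    have h10 : ((r + r₀ : ℕ) : ℤ) = (q ^ 2 : ℕ) := by
      push_cast
      linarith
    have h11 : r + r₀ = q ^ 2 := by exact_mod_cast h10
    omega

theorem xgd_int {q : ℕ} (hq : 0 < q) {A : ℤ → Prop} (hA : ∀ x y, (q : ℤ) ∣ x - y → A x → A y)
    {H : ℝ} (hH : (q : ℝ) ≤ H) (S : Finset ℤ) (hS : ∀ x ∈ S, |(x : ℝ)| ≤ 2 * H ∧ A x) :
    (#S : ℝ) ≤ cnt q A * (6 * H / q) := by
  have hq' : (1 : ℝ) ≤ q := by exact_mod_cast hq
  have h1 := card_le_cnt hq hA (-(⌊2 * H⌋₊ : ℤ)) (2 * ⌊2 * H⌋₊ + 1) S fun x hx => by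
    have h2 : x.natAbs ≤ ⌊2 * H⌋₊ := Nat.le_floor (by
      rw [Nat.cast_natAbs, Int.cast_abs]
      exact (hS x hx).1)
    refine ⟨by omega, ?_, (hS x hx).2⟩
    push_cast
    omega
  refine h1.trans (mul_le_mul_of_nonneg_left ?_ (Nat.cast_nonneg _))
  have h2 := Nat.floor_le (by linarith : 0 ≤ 2 * H)
  rw [div_add_one (by linarith)]
  refine div_le_div_of_nonneg_right ?_ (by linarith)
  push_cast
  linarith

theorem xgd_mult {q : ℕ} (hq : 0 < q) {H : ℝ} (hH : (q : ℝ) ≤ H) (S : Finset ℤ)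
    (hS : ∀ x ∈ S, |(x : ℝ)| ≤ 2 * H ∧ (q : ℤ) ∣ x) : (#S : ℝ) ≤ 6 * H / q := by
  have h1 := xgd_int hq (A := fun x => (q : ℤ) ∣ x)
    (fun x y h h' => (h'.sub h).trans (dvd_of_eq (by ring))) hH S hS
  have h2 : cnt q (fun x => (q : ℤ) ∣ x) ≤ 1 := by
    exact le_trans (xgd_cnt {0} fun r h3 h4 => mem_singleton.2
      (Nat.eq_zero_of_dvd_of_lt (by exact_mod_cast h4) h3)) (card_singleton _).le
  have h3 : (cnt q (fun x => (q : ℤ) ∣ x) : ℝ) ≤ 1 := by exact_mod_cast h2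
  have h4 : (0 : ℝ) ≤ 6 * H / q := div_nonneg (by linarith [Nat.cast_nonneg (α := ℝ) q])
    (Nat.cast_nonneg _)
  nlinarith

theorem xgd_dvd {B : Finset ℕ} (hB : ∀ q ∈ B, q.Prime) {x : ℤ} (h : ∀ q ∈ B, (q : ℤ) ∣ x) :
    ((∏ q ∈ B, q : ℕ) : ℤ) ∣ x := by
  rw [Nat.cast_prod]
  exact Finset.prod_dvd_of_coprime (fun a ha b hb hab => Nat.isCoprime_iff_coprime.2
    ((Nat.coprime_primes (hB a ha) (hB b hb)).2 hab)) h

theorem xgd_abs {a b : ℤ} {H : ℝ} (ha : |(a : ℝ)| ≤ H) (hb : |(b : ℝ)| ≤ H) :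
    |((a * b : ℤ) : ℝ)| ≤ H ^ 2 ∧ |((a + b : ℤ) : ℝ)| ≤ 2 * H ∧ |((a - b : ℤ) : ℝ)| ≤ 2 * H := by
  push_cast
  refine ⟨?_, (abs_add_le _ _).trans (by linarith), (abs_sub _ _).trans (by linarith)⟩
  rw [abs_mul, sq]
  exact mul_le_mul ha hb (abs_nonneg _) ((abs_nonneg _).trans ha)

theorem xgd_ext {η ζ : M2} (h0 : η 0 0 = ζ 0 0) (h1 : η 0 1 = ζ 0 1) (h2 : η 1 0 = ζ 1 0)
    (h3 : η 1 1 = ζ 1 1) : η = ζ := by
  rw [Matrix.eta_fin_two η, Matrix.eta_fin_two ζ, h0, h1, h2, h3]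

theorem scal_count {ε : ℝ} (hε : 0 < ε) : ∃ C : ℝ, 0 < C ∧ ∀ (B : Finset ℕ) (n : ℕ) (H : ℝ)
    (T : Finset M2), (∀ q ∈ B, q.Prime ∧ q ≠ 2 ∧ ¬ q ∣ n) → 0 < n →
    ((∏ q ∈ B, q : ℕ) : ℝ) ^ 2 ≤ H →
    (∀ η ∈ T, η.det = n ∧ (∀ i j, |(η i j : ℝ)| ≤ H) ∧
      ∀ q ∈ B, (q : ℤ) ∣ η 0 1 ∧ (q : ℤ) ∣ η 1 0 ∧ (q : ℤ) ∣ η 0 0 - η 1 1) →
    (#T : ℝ) ≤ C * 2 ^ #B * H ^ (2 + ε) / ((∏ q ∈ B, q : ℕ) : ℝ) ^ 3 := by
  obtain ⟨C, hC, hdiv⟩ := xgd_div hε
  refine ⟨48 * C, by positivity, fun B n H T hB hn hH hT => ?_⟩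
  have hP : ∀ q ∈ B, q.Prime := fun q hq => (hB q hq).1
  have hQ0 : 0 < ∏ q ∈ B, q := prod_pos fun q hq => (hP q hq).pos
  have hc : (cnt ((∏ q ∈ B, q) ^ 2) (fun x => ∀ q ∈ B, (q : ℤ) ^ 2 ∣ x ^ 2 - 4 * n) : ℝ) ≤
      2 ^ #B := by
    rw [← prod_pow, cnt_prod B hP (fun _ => 2) (fun q x => (q : ℤ) ^ 2 ∣ x ^ 2 - 4 * n)
      fun l _ x y h h' => (h'.sub (h.mul_right (x + y))).trans (dvd_of_eq (by ring))]
    exact_mod_cast prod_le_pow_card _ _ 2 fun q hq => xgd_root (hP q hq) (hB q hq).2.1 (hB q hq).2.2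
  have hA : ∀ x y : ℤ, (((∏ q ∈ B, q) ^ 2 : ℕ) : ℤ) ∣ x - y →
      (∀ q ∈ B, (q : ℤ) ^ 2 ∣ x ^ 2 - 4 * n) → ∀ q ∈ B, (q : ℤ) ^ 2 ∣ y ^ 2 - 4 * n := by
    intro x y h h' q hq
    have h1 : (q : ℤ) ^ 2 ∣ x - y := dvd_trans (by
      exact_mod_cast pow_dvd_pow_of_dvd (dvd_prod_of_mem (fun q : ℕ => q) hq) 2) h
    exact ((h' q hq).sub (h1.mul_right (x + y))).trans (dvd_of_eq (by ring))
  have hd : ∀ η ∈ T, ((∏ q ∈ B, q : ℕ) : ℤ) ∣ η 0 1 ∧ ((∏ q ∈ B, q : ℕ) : ℤ) ∣ η 1 0 ∧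
      ((∏ q ∈ B, q : ℕ) : ℤ) ∣ η 0 0 - η 1 1 := fun η hη =>
    ⟨xgd_dvd hP fun q hq => ((hT η hη).2.2 q hq).1, xgd_dvd hP fun q hq => ((hT η hη).2.2 q hq).2.1,
      xgd_dvd hP fun q hq => ((hT η hη).2.2 q hq).2.2⟩
  have hdet : ∀ η ∈ T, η 0 0 * η 1 1 - η 0 1 * η 1 0 = n := fun η hη => by
    rw [← Matrix.det_fin_two, (hT η hη).1]
  generalize (∏ q ∈ B, q) = Q at hQ0 hc hA hd hH ⊢
  have hQ1 : (1 : ℝ) ≤ Q := by exact_mod_cast hQ0
  have hQH : (Q : ℝ) ≤ H := by nlinarith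
  have hH0 : 0 < H := by linarith
  have hx : 0 ≤ C * H ^ ε := by positivity
  have hn' : (n : ℤ) ≠ 0 := by exact_mod_cast hn.ne'
  have h1 : (#{η ∈ T | η 0 1 * η 1 0 ≠ 0} : ℝ) ≤
      2 ^ #B * (6 * H / Q ^ 2) * (6 * H / Q) * (C * H ^ ε) := by
    generalize hU : T.filter (fun η => η 0 1 * η 1 0 ≠ 0) = U
    have hm : ∀ η ∈ U, η ∈ T ∧ η 0 1 * η 1 0 ≠ 0 := fun η hη => by
      rw [← hU] at hη
      exact mem_filter.1 hη
    refine (xgd_fib U (fun η => (η 0 0 + η 1 1, η 0 0 - η 1 1)) (x := C * H ^ ε)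
      fun ζ hζ => ?_).trans (mul_le_mul_of_nonneg_right ?_ hx)
    · obtain ⟨z1, z2⟩ := hm ζ hζ
      have key : ∀ η ∈ U.filter fun η => (η 0 0 + η 1 1, η 0 0 - η 1 1) =
          (ζ 0 0 + ζ 1 1, ζ 0 0 - ζ 1 1),
          η 0 0 = ζ 0 0 ∧ η 1 1 = ζ 1 1 ∧ η 0 1 * η 1 0 = ζ 0 1 * ζ 1 0 := fun η hη => by
        obtain ⟨h2, h3⟩ := mem_filter.1 hη
        obtain ⟨h4, h5⟩ := Prod.mk.inj h3
        have e0 : η 0 0 = ζ 0 0 := by omega
        have e1 : η 1 1 = ζ 1 1 := by omega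
        have h6 := hdet η (hm η h2).1
        rw [e0, e1] at h6
        exact ⟨e0, e1, by linear_combination hdet ζ z1 - h6⟩
      rw [← card_image_of_injOn (f := fun η : M2 => η 0 1) fun η hη η' hη' e => ?_]
      · refine hdiv H _ _ hH0.le z2 (xgd_abs ((hT ζ z1).2.1 0 1) ((hT ζ z1).2.1 1 0)).1
          fun a ha => ?_
        obtain ⟨η, hη, rfl⟩ := mem_image.1 ha
        exact Dvd.intro _ (key η hη).2.2
      · obtain ⟨a0, a1, a2⟩ := key η (mem_coe.1 hη)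
        obtain ⟨b0, b1, b2⟩ := key η' (mem_coe.1 hη')
        have e' : η 0 1 = η' 0 1 := e
        refine xgd_ext (a0.trans b0.symm) e' ?_ (a1.trans b1.symm)
        refine mul_left_cancel₀ (left_ne_zero_of_mul (a2 ▸ z2)) ?_
        rw [a2, e', b2]
    · have h2 : U.image (fun η => (η 0 0 + η 1 1, η 0 0 - η 1 1)) ⊆
          U.image (fun η => η 0 0 + η 1 1) ×ˢ U.image fun η => η 0 0 - η 1 1 := by
        intro z hz
        obtain ⟨η, hη, rfl⟩ := mem_image.1 hz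
        exact mem_product.2 ⟨mem_image_of_mem _ hη, mem_image_of_mem _ hη⟩
      have h3 := xgd_int (pow_pos hQ0 2) hA (H := H) (by exact_mod_cast hH)
        (U.image fun η => η 0 0 + η 1 1) fun x hx => by
          obtain ⟨η, hη, rfl⟩ := mem_image.1 hx
          have h4 := (hm η hη).1
          refine ⟨(xgd_abs ((hT η h4).2.1 0 0) ((hT η h4).2.1 1 1)).2.1, fun q hq => ?_⟩
          obtain ⟨⟨u, hu⟩, ⟨v, hv⟩, w, hw⟩ := (hT η h4).2.2 q hq
          refine ⟨w ^ 2 + 4 * u * v, ?_⟩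
          have h5 := hdet η h4
          rw [hu, hv] at h5
          linear_combination (η 0 0 - η 1 1 + q * w) * hw + 4 * h5
      have h4 := xgd_mult hQ0 hQH (U.image fun η => η 0 0 - η 1 1) fun x hx => by
        obtain ⟨η, hη, rfl⟩ := mem_image.1 hx
        have h4 := (hm η hη).1
        exact ⟨(xgd_abs ((hT η h4).2.1 0 0) ((hT η h4).2.1 1 1)).2.2, (hd η h4).2.2⟩
      have h5 := card_le_card h2
      rw [card_product] at h5
      refine le_trans (by exact_mod_cast h5) (mul_le_mul (h3.trans ?_) h4 (Nat.cast_nonneg _)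
        (by positivity))
      push_cast
      exact mul_le_mul_of_nonneg_right hc (by positivity)
  have h2 : (#{η ∈ T | ¬ η 0 1 * η 1 0 ≠ 0} : ℝ) ≤ C * H ^ ε * (12 * H / Q) := by
    generalize hU : T.filter (fun η => ¬ η 0 1 * η 1 0 ≠ 0) = U
    have hm : ∀ η ∈ U, η ∈ T ∧ η 0 1 * η 1 0 = 0 ∧ η 0 0 * η 1 1 = n := fun η hη => by
      rw [← hU] at hη
      obtain ⟨h2, h3⟩ := mem_filter.1 hη
      exact ⟨h2, not_not.1 h3, by linear_combination hdet η h2 + not_not.1 h3⟩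
    refine (xgd_fib U (fun η => η 0 0) (x := 12 * H / Q) fun ζ hζ => ?_).trans ?_
    · obtain ⟨z1, -, z3⟩ := hm ζ hζ
      generalize hW : U.filter (fun η => η 0 0 = ζ 0 0) = W
      have key : ∀ η ∈ W, η ∈ U ∧ η 0 0 = ζ 0 0 ∧ η 1 1 = ζ 1 1 := fun η hη => by
        rw [← hW] at hη
        obtain ⟨h2, h3⟩ := mem_filter.1 hη
        refine ⟨h2, h3, mul_left_cancel₀ (left_ne_zero_of_mul (z3 ▸ hn')) ?_⟩
        rw [z3, ← h3, (hm η h2).2.2]
      have hb : ∀ η ∈ W, ∀ i j, |(η i j : ℝ)| ≤ 2 * H := fun η hη i j =>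
        ((hT η (hm η (key η hη).1).1).2.1 i j).trans (by linarith)
      have a1 : (#{η ∈ W | η 0 1 = 0} : ℝ) ≤ 6 * H / Q := by
        rw [← card_image_of_injOn (f := fun η : M2 => η 1 0) fun η hη η' hη' e => ?_]
        · refine xgd_mult hQ0 hQH _ fun x hx => ?_
          obtain ⟨η, hη, rfl⟩ := mem_image.1 hx
          have h2 := (mem_filter.1 hη).1
          exact ⟨hb η h2 1 0, (hd η (hm η (key η h2).1).1).2.1⟩
        · obtain ⟨h2, h3⟩ := mem_filter.1 (mem_coe.1 hη)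
          obtain ⟨h4, h5⟩ := mem_filter.1 (mem_coe.1 hη')
          exact xgd_ext ((key η h2).2.1.trans (key η' h4).2.1.symm) (h3.trans h5.symm) e
            ((key η h2).2.2.trans (key η' h4).2.2.symm)
      have a2 : (#{η ∈ W | ¬ η 0 1 = 0} : ℝ) ≤ 6 * H / Q := by
        rw [← card_image_of_injOn (f := fun η : M2 => η 0 1) fun η hη η' hη' e => ?_]
        · refine xgd_mult hQ0 hQH _ fun x hx => ?_
          obtain ⟨η, hη, rfl⟩ := mem_image.1 hx
          have h2 := (mem_filter.1 hη).1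
          exact ⟨hb η h2 0 1, (hd η (hm η (key η h2).1).1).1⟩
        · obtain ⟨h2, h3⟩ := mem_filter.1 (mem_coe.1 hη)
          obtain ⟨h4, h5⟩ := mem_filter.1 (mem_coe.1 hη')
          exact xgd_ext ((key η h2).2.1.trans (key η' h4).2.1.symm) e
            (((mul_eq_zero.1 (hm η (key η h2).1).2.1).resolve_left h3).trans
              ((mul_eq_zero.1 (hm η' (key η' h4).1).2.1).resolve_left h5).symm)
            ((key η h2).2.2.trans (key η' h4).2.2.symm)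
      have a3 := card_filter_add_card_filter_not (s := W) fun η => η 0 1 = 0
      rw [← a3, Nat.cast_add]
      exact (add_le_add a1 a2).trans (le_of_eq (by ring))
    · refine mul_le_mul_of_nonneg_right ?_ (by positivity)
      rcases U.eq_empty_or_nonempty with rfl | ⟨ζ, hζ⟩
      · simpa using hx
      obtain ⟨z1, -, z3⟩ := hm ζ hζ
      refine hdiv H n _ hH0.le hn' (z3 ▸ (xgd_abs ((hT ζ z1).2.1 0 0) ((hT ζ z1).2.1 1 1)).1)
        fun a ha => ?_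
      obtain ⟨η, hη, rfl⟩ := mem_image.1 ha
      exact Dvd.intro _ (hm η hη).2.2
  have h3 := card_filter_add_card_filter_not (s := T) fun η => η 0 1 * η 1 0 ≠ 0
  rw [← h3, Nat.cast_add, Real.rpow_add hH0, Real.rpow_two]
  have h4 : (1 : ℝ) ≤ 2 ^ #B := one_le_pow₀ one_le_two
  have h5 : 12 * H / Q ≤ 2 ^ #B * (12 * H ^ 2 / Q ^ 3) := by
    refine le_trans ?_ (le_mul_of_one_le_left (by positivity) h4)
    rw [div_le_div_iff₀ (by positivity) (by positivity)]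
    have := mul_le_mul_of_nonneg_left hH (by positivity : 0 ≤ 12 * H * Q)
    linarith
  refine (add_le_add h1 (h2.trans (mul_le_mul_of_nonneg_left h5 hx))).trans (le_of_eq ?_)
  field_simp
  ring

/-- The bound for the number of colliding patterns. -/
def CTP (H ε C : ℝ) : Prop :=
  ∀ β β' B : Finset ℕ, (∀ l ∈ β ∪ β', l.Prime) → (∀ q ∈ B, q.Prime ∧ q ≠ 2 ∧ q ∉ β ∪ β') →
    (∏ q ∈ B, q) ^ 4 ≤ (∏ l ∈ β \ β', l) * ∏ l ∈ β' \ β, l →
    ∃ T : Finset (ℕ → Set V2), (#T : ℝ) ≤ C * 2 ^ #B * 2 ^ #β *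
      ((∏ l ∈ β ∪ β', l : ℕ) : ℝ) ^ (1 + ε) / ((∏ q ∈ B, q : ℕ) : ℝ) ^ 3 ∧
      ∀ K : ℕ → Set V2, Coll H K β β' B → ∃ w ∈ T, ∀ l ∈ β ∪ β', K l = w l

theorem xgd_sq {s : Finset ℕ} (h : ∀ l ∈ s, l.Prime) : Squarefree (∏ l ∈ s, l) :=
  Finset.squarefree_prod_of_pairwise_isCoprime (fun a ha b hb hab => Nat.coprime_iff_isRelPrime.1
    ((Nat.coprime_primes (h a ha) (h b hb)).2 hab)) fun l hl => (h l hl).squarefree

theorem xgd_cop {a : ℕ} {s : Finset ℕ} (ha : a ∉ s) (h : ∀ l ∈ insert a s, l.Prime) :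
    a.Coprime (∏ l ∈ s, l) :=
  Nat.Coprime.prod_right fun l hl => (Nat.coprime_primes (h a (mem_insert_self _ _))
    (h l (mem_insert_of_mem hl))).2 fun e => ha (e ▸ hl)

theorem xgd_tau {s : Finset ℕ} (h : ∀ l ∈ s, l.Prime) : #(∏ l ∈ s, l).divisors ≤ 2 ^ #s := by
  induction s using Finset.induction_on with
  | empty => simp
  | insert a s ha ih =>
    rw [prod_insert ha, card_insert_of_notMem ha, (xgd_cop ha h).card_divisors_mul,
      (h a (mem_insert_self _ _)).divisors, pow_succ']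
    exact Nat.mul_le_mul card_le_two (ih fun l hl => h l (mem_insert_of_mem hl))

theorem xgd_line (δ : M2) (s : Finset ℕ) (h : ∀ l ∈ s, l.Prime)
    (h' : ∀ l ∈ s, IsLn l (Ker l δ)) : IsLn (∏ l ∈ s, l) (Ker (∏ l ∈ s, l) δ) := by
  induction s using Finset.induction_on with
  | empty =>
    refine ⟨![1, 0], isCoprime_one_left, ?_⟩
    ext v
    simp [Ker, Ln]
  | insert a s ha ih =>
    rw [prod_insert ha, Ker_inter (xgd_cop ha h)]
    exact IsLn.inter (xgd_cop ha h) (h a (mem_insert_self _ _)).pos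
      (prod_pos fun l hl => (h l (mem_insert_of_mem hl)).pos) (h' a (mem_insert_self _ _))
      (ih (fun l hl => h l (mem_insert_of_mem hl)) fun l hl => h' l (mem_insert_of_mem hl))

theorem xgd_pair {n₁ n₂ m : ℕ} (hm : 0 < m) {B : Finset ℕ} (hB : ∀ q ∈ B, q.Prime ∧ ¬ q ∣ m)
    {H : ℝ} {η η' : M2} (d : η.det = (n₁ * m : ℕ)) (d' : η'.det = (n₂ * m : ℕ))
    (b : ∀ i j, |(η i j : ℝ)| ≤ H * Real.sqrt (n₁ * m : ℕ))
    (b' : ∀ i j, |(η' i j : ℝ)| ≤ H * Real.sqrt (n₂ * m : ℕ))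
    (hk : ∀ v, η.adjugate *ᵥ v ∈ Ker m η') (hp : ∀ q ∈ B, Pj q η = Pj q η') :
    ∃ δ : M2, δ.det = (n₁ * n₂ : ℕ) ∧
      (∀ i j, |(δ i j : ℝ)| ≤ 2 * H ^ 2 * Real.sqrt (n₁ * n₂ : ℕ)) ∧
      (∀ q ∈ B, (q : ℤ) ∣ δ 0 1 ∧ (q : ℤ) ∣ δ 1 0 ∧ (q : ℤ) ∣ δ 0 0 - δ 1 1) ∧
      δ * η = (n₁ : ℤ) • η' := by
  have hm' : (m : ℤ) ≠ 0 := by exact_mod_cast hm.ne'
  have h1 : ∀ i j, (m : ℤ) ∣ (η' * η.adjugate) i j := fun i j => by
    have h2 := hk (Pi.single j 1) i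
    rwa [Matrix.mulVec_mulVec, Matrix.mulVec_single_one] at h2
  obtain ⟨δ, hδ⟩ := xla_ex.1 h1
  have he : ∀ i, (m : ℤ) * δ i 0 = η' i 0 * η 1 1 - η' i 1 * η 1 0 ∧
      (m : ℤ) * δ i 1 = η' i 1 * η 0 0 - η' i 0 * η 0 1 := fun i => by
    have a0 := congrFun (congrFun hδ i) 0
    have a1 := congrFun (congrFun hδ i) 1
    simp only [Matrix.adjugate_fin_two, Matrix.mul_apply, Fin.sum_univ_two, Matrix.smul_apply,
      smul_eq_mul, Matrix.of_apply, Matrix.cons_val', Matrix.cons_val_zero, Matrix.cons_val_one,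
      Matrix.cons_val_fin_one] at a0 a1
    exact ⟨by linarith, by linarith⟩
  refine ⟨δ, ?_, ?_, fun q hq => ?_, xla_cancel hm' ?_⟩
  · have h2 := congrArg Matrix.det hδ
    rw [Matrix.det_mul, xla_det_adj, d, d', Matrix.det_smul, Fintype.card_fin] at h2
    refine mul_left_cancel₀ (pow_ne_zero 2 hm') ?_
    rw [← h2]
    push_cast
    ring
  · have hm0 : (0 : ℝ) < m := by exact_mod_cast hm
    have e : Real.sqrt (n₂ * m : ℕ) * Real.sqrt (n₁ * m : ℕ) = m * Real.sqrt (n₁ * n₂ : ℕ) := by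
      rw [← Real.sqrt_mul (Nat.cast_nonneg _), ← Real.sqrt_sq hm0.le,
        ← Real.sqrt_mul (sq_nonneg _)]
      congr 1
      push_cast
      ring
    have key : ∀ (x : ℤ) (i j k l i' j' k' l' : Fin 2),
        (m : ℤ) * x = η' i j * η k l - η' i' j' * η k' l' →
        |(x : ℝ)| ≤ 2 * H ^ 2 * Real.sqrt (n₁ * n₂ : ℕ) := by
      intro x i j k l i' j' k' l' h
      have h2 : (m : ℝ) * x = η' i j * η k l - η' i' j' * η k' l' := by exact_mod_cast h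
      have h3 := mul_le_mul (b' i j) (b k l) (abs_nonneg _) ((abs_nonneg _).trans (b' i j))
      have h4 := mul_le_mul (b' i' j') (b k' l') (abs_nonneg _) ((abs_nonneg _).trans (b' i j))
      have h5 := abs_sub ((η' i j : ℝ) * η k l) (η' i' j' * η k' l')
      rw [← h2, abs_mul, abs_mul, abs_mul, abs_of_pos hm0] at h5
      rw [mul_mul_mul_comm, e] at h3 h4
      refine le_of_mul_le_mul_left ?_ hm0
      linarith
    intro i j
    fin_cases j
    · exact key _ _ _ _ _ _ _ _ _ (he i).1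
    · exact key _ _ _ _ _ _ _ _ _ (he i).2
  · have h2 : η' ∈ Pj q η := by
      rw [hp q hq]
      exact ⟨1, fun i j => by simp⟩
    obtain ⟨t, ht⟩ := h2
    simp only [Matrix.sub_apply, Matrix.smul_apply, smul_eq_mul] at ht
    have hP : Prime (q : ℤ) := Nat.prime_iff_prime_int.1 (hB q hq).1
    have h3 : ¬ (q : ℤ) ∣ m := fun h => (hB q hq).2 (by exact_mod_cast h)
    refine ⟨(hP.dvd_or_dvd ?_).resolve_left h3, (hP.dvd_or_dvd ?_).resolve_left h3,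
      (hP.dvd_or_dvd ?_).resolve_left h3⟩
    · rw [(he 0).2]
      exact (((ht 0 1).mul_right (η 0 0)).sub ((ht 0 0).mul_right (η 0 1))).trans
        (dvd_of_eq (by ring))
    · rw [(he 1).1]
      exact (((ht 1 0).mul_right (η 1 1)).sub ((ht 1 1).mul_right (η 1 0))).trans
        (dvd_of_eq (by ring))
    · rw [mul_sub, (he 0).1, (he 1).2]
      exact ((((ht 0 0).mul_right (η 1 1)).sub ((ht 0 1).mul_right (η 1 0))).sub
        (((ht 1 1).mul_right (η 0 0)).sub ((ht 1 0).mul_right (η 0 1)))).trans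
        (dvd_of_eq (by ring))
  · rw [← smul_mul_assoc, ← hδ, mul_assoc, Matrix.adjugate_mul, d, mul_smul_comm, mul_one,
      smul_smul, Nat.cast_mul, mul_comm]

theorem ct_count {H ε : ℝ} (hH : 1 ≤ H) (hε : 0 < ε) : ∃ C : ℝ, 0 < C ∧ CTP H ε C := by
  obtain ⟨C, hC, hs⟩ := scal_count (ε := 2 * ε) (by linarith)
  refine ⟨C * (2 * H ^ 2) ^ (2 + 2 * ε) * (100 * H ^ 2), by positivity, fun β β' B hβ hB hQ => ?_⟩
  have hp1 : ∀ l ∈ β \ β', l.Prime := fun l hl => hβ l (mem_union_left _ (mem_sdiff.1 hl).1)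
  have hp2 : ∀ l ∈ β' \ β, l.Prime := fun l hl => hβ l (mem_union_right _ (mem_sdiff.1 hl).1)
  have hp3 : ∀ l ∈ β ∩ β', l.Prime := fun l hl => hβ l (mem_union_left _ (mem_inter.1 hl).1)
  have e1 : ∏ l ∈ β, l = (∏ l ∈ β \ β', l) * ∏ l ∈ β ∩ β', l := by
    rw [mul_comm, prod_inter_mul_prod_sdiff]
  have e2 : ∏ l ∈ β', l = (∏ l ∈ β' \ β, l) * ∏ l ∈ β ∩ β', l := by
    rw [mul_comm, inter_comm, prod_inter_mul_prod_sdiff]
  have e3 : ∏ l ∈ β ∪ β', l = (∏ l ∈ β \ β', l) * (∏ l ∈ β' \ β, l) * ∏ l ∈ β ∩ β', l := by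
    rw [mul_right_comm, ← e1, ← prod_union disjoint_sdiff, union_sdiff_self_eq_union]
  have hsq : Squarefree (∏ l ∈ β ∪ β', l) := xgd_sq hβ
  have hq : ∀ q ∈ B, ¬ q ∣ ∏ l ∈ β ∪ β', l := fun q hq h => by
    obtain ⟨l, hl, h1⟩ := ((hB q hq).1.prime.dvd_finsetProd_iff _).1 h
    exact (hB q hq).2.2 (((Nat.prime_dvd_prime_iff_eq (hB q hq).1 (hβ l hl)).1 h1) ▸ hl)
  have hτ : (#(∏ l ∈ β ∩ β', l).divisors : ℝ) ≤ 2 ^ #β := by
    have := (xgd_tau hp3).trans (Nat.pow_le_pow_right two_pos (card_le_card inter_subset_left))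
    exact_mod_cast this
  have hl : ∀ δ : M2, δ.det = ((∏ l ∈ β \ β', l) * ∏ l ∈ β' \ β, l : ℕ) →
      IsLn (∏ l ∈ β \ β', l) (Ker (∏ l ∈ β \ β', l) δ) := fun δ hδ =>
    xgd_line δ _ hp1 fun l hl => isLn_Ker_prime (hp1 l hl)
      (by
        rw [hδ]
        exact_mod_cast (dvd_prod_of_mem (fun l : ℕ => l) hl).mul_right _)
      fun h => by
        rw [hδ] at h
        have h1 : l * l ∣ (∏ l ∈ β \ β', l) * ∏ l ∈ β' \ β, l := by
          rw [← sq]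
          exact_mod_cast h
        exact (hp1 l hl).one_lt.ne' (Nat.isUnit_iff.1 (hsq l (e3 ▸ h1.mul_right _)))
  have hk : ∀ K η η', Adm H K β η → Adm H K β' η' → ∀ v, η.adjugate *ᵥ v ∈
      Ker (∏ l ∈ β ∩ β', l) η' := fun K η η' a a' v => (mem_Ker_prod hp3).2 fun l hl => by
    obtain ⟨h1, h2⟩ := mem_inter.1 hl
    rw [a'.2.1 l h2, ← a.2.1 l h1]
    intro i
    rw [Matrix.mulVec_mulVec, Matrix.mul_adjugate, a.1, Matrix.smul_mulVec, Pi.smul_apply,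
      smul_eq_mul]
    exact Dvd.dvd.mul_right (by exact_mod_cast dvd_prod_of_mem (fun l : ℕ => l) h1) _
  have p1 : 0 < ∏ l ∈ β \ β', l := prod_pos fun l hl => (hp1 l hl).pos
  have p2 : 0 < ∏ l ∈ β' \ β, l := prod_pos fun l hl => (hp2 l hl).pos
  have p3 : 0 < ∏ l ∈ β ∩ β', l := prod_pos fun l hl => (hp3 l hl).pos
  obtain ⟨T, hT, hT'⟩ := xgd_fin {z : M2 × M2 | ∃ K, Adm H K β z.1 ∧ Adm H K β' z.2 ∧
      ∀ q ∈ B, Pj q z.1 = Pj q z.2} (x := C * (2 * H ^ 2) ^ (2 + 2 * ε) * (100 * H ^ 2) * 2 ^ #B *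
      2 ^ #β * ((∏ l ∈ β ∪ β', l : ℕ) : ℝ) ^ (1 + ε) / ((∏ q ∈ B, q : ℕ) : ℝ) ^ 3) fun U hU => by
    have hz : ∀ z ∈ U, z.1.det = (∏ l ∈ β, l : ℕ) ∧ z.2.det = (∏ l ∈ β', l : ℕ) ∧
        (∀ i j, |(z.1 i j : ℝ)| ≤ H * Real.sqrt (∏ l ∈ β, l : ℕ)) ∧
        (∀ i j, |(z.2 i j : ℝ)| ≤ H * Real.sqrt (∏ l ∈ β', l : ℕ)) ∧
        (∀ v, z.1.adjugate *ᵥ v ∈ Ker (∏ l ∈ β ∩ β', l) z.2) ∧ ∀ q ∈ B, Pj q z.1 = Pj q z.2 :=
      fun z hz => by
        obtain ⟨K, a, a', h⟩ := hU z hz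
        exact ⟨a.1, a'.1, a.2.2, a'.2.2, hk K _ _ a a', h⟩
    rw [e1, e2] at hz
    rw [e3] at hq ⊢
    generalize (∏ l ∈ β \ β', l) = n₁ at *
    generalize (∏ l ∈ β' \ β, l) = n₂ at *
    generalize (∏ l ∈ β ∩ β', l) = m at *
    choose! δ hδ using fun z (hz' : z ∈ U) => xgd_pair p3 (B := B)
      (fun q h => ⟨(hB q h).1, fun h' => hq q h (h'.mul_left _)⟩) (hz z hz').1 (hz z hz').2.1
      (hz z hz').2.2.1 (hz z hz').2.2.2.1 (hz z hz').2.2.2.2.1 (hz z hz').2.2.2.2.2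
    have hm1 : (1 : ℝ) ≤ m := by exact_mod_cast p3
    have hN : (0 : ℝ) < (n₁ * n₂ : ℕ) := by exact_mod_cast Nat.mul_pos p1 p2
    have h1 := xgd_fib U δ (x := 100 * H ^ 2 * m * 2 ^ #β) fun ζ hζ => by
      rw [← card_image_of_injOn (f := Prod.fst) fun z hz1 z' hz2 e => ?_]
      · refine (lat_count p1 p3 (hl _ (hδ ζ hζ).1) (by linarith) _ fun η hη => ?_).trans
          (mul_le_mul_of_nonneg_left hτ (by positivity))
        obtain ⟨z, hz1, rfl⟩ := mem_image.1 hη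
        obtain ⟨h2, h3⟩ := mem_filter.1 hz1
        refine ⟨(hz z h2).1, fun j i => ?_, (hz z h2).2.2.1⟩
        have h4 := congrFun (congrFun (hδ z h2).2.2.2 i) j
        rw [h3] at h4
        exact ⟨z.2 i j, h4⟩
      · obtain ⟨h2, h3⟩ := mem_filter.1 (mem_coe.1 hz1)
        obtain ⟨h4, h5⟩ := mem_filter.1 (mem_coe.1 hz2)
        refine Prod.ext e (xla_cancel (m := n₁) (by exact_mod_cast p1.ne') ?_)
        rw [← (hδ z h2).2.2.2, ← (hδ z' h4).2.2.2, h3, h5, e]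
    have h2 := hs B (n₁ * n₂) (2 * H ^ 2 * Real.sqrt (n₁ * n₂ : ℕ)) (U.image δ)
      (fun q h => ⟨(hB q h).1, (hB q h).2.1, fun h' => hq q h (h'.mul_right _)⟩)
      (Nat.mul_pos p1 p2)
      (by
        have h3 : ((∏ q ∈ B, q : ℕ) : ℝ) ^ 2 ≤ Real.sqrt (n₁ * n₂ : ℕ) := by
          refine Real.le_sqrt_of_sq_le ?_
          rw [← pow_mul]
          exact_mod_cast hQ
        refine h3.trans (le_mul_of_one_le_left (Real.sqrt_nonneg _) ?_)
        nlinarith)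
      fun η hη => by
        obtain ⟨z, hz1, rfl⟩ := mem_image.1 hη
        exact ⟨(hδ z hz1).1, (hδ z hz1).2.1, (hδ z hz1).2.2.1⟩
    have e4 : (2 * H ^ 2 * Real.sqrt (n₁ * n₂ : ℕ)) ^ (2 + 2 * ε) =
        (2 * H ^ 2) ^ (2 + 2 * ε) * ((n₁ * n₂ : ℕ) : ℝ) ^ (1 + ε) := by
      rw [Real.mul_rpow (by positivity) (Real.sqrt_nonneg _), Real.sqrt_eq_rpow,
        ← Real.rpow_mul hN.le]
      congr 2
      ring
    have h3 : (m : ℝ) ≤ (m : ℝ) ^ (1 + ε) := by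
      simpa using Real.rpow_le_rpow_of_exponent_le hm1 (by linarith : (1 : ℝ) ≤ 1 + ε)
    rw [e4] at h2
    rw [Nat.cast_mul (n₁ * n₂), Real.mul_rpow hN.le (by linarith)]
    refine (h1.trans (mul_le_mul h2 (mul_le_mul_of_nonneg_right (mul_le_mul_of_nonneg_left h3
      (by positivity)) (by positivity)) (by positivity) (by positivity))).trans (le_of_eq ?_)
    ring
  refine ⟨T.image fun z l => if l ∈ β then Ker l z.1 else Ker l z.2,
    le_trans (by exact_mod_cast card_image_le) hT, ?_⟩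
  rintro K ⟨η, η', a, a', h⟩
  refine ⟨_, mem_image_of_mem _ (hT' (η, η') ⟨K, a, a', h⟩), fun l hl => ?_⟩
  by_cases h1 : l ∈ β
  · simp only [if_pos h1]
    exact (a.2.1 l h1).symm
  · simp only [if_neg h1]
    exact (a'.2.1 l ((mem_union.1 hl).resolve_left h1)).symm

end Pool.Agent.EQ
end
end

-- part Pool.Agent.P.MP_ad7a55_nt.Dec
section

/-! Generic points and the ergodic decomposition. -/

set_option autoImplicit false

noncomputable section

open MeasureTheory Topology Filter UpperHalfPlane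
open scoped MatrixGroups ENNReal BoundedContinuousFunction

namespace Pool.Agent.EQ

variable {p : ℕ} [Fact p.Prime] {W : Type} [TopologicalSpace W] [PolishSpace W] [MeasurableSpace W]
  [BorelSpace W] (φ : Flow ℚ_[p] W)

/-- `w` is generic for `ρ`. -/
def Gen (ρ : Measure W) (w : W) : Prop := WT atTop (fun k : ℕ => orb φ k w) ρ

/-- Almost every point is generic. -/
def Erg (ρ : Measure W) : Prop := ∀ᵐ w ∂ρ, Gen φ ρ w

variable {φ}

theorem dec_ev (s : ℚ_[p]) : ∀ᶠ k : ℕ in atTop, ‖s‖ ≤ (p : ℝ) ^ (k : ℤ) := by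
  have hp : (1 : ℝ) < p := by exact_mod_cast (Fact.out : p.Prime).one_lt
  have := (tendsto_pow_atTop_atTop_of_one_lt hp).eventually_ge_atTop ‖s‖
  simpa using this

/-- A countable basis of open sets that is stable under intersections. -/
def DecB (B : ℕ → Set W) : Prop :=
  IsPiSystem (Set.range B) ∧ (∀ n, IsOpen (B n)) ∧
    ∀ u, IsOpen u → ∀ x ∈ u, ∃ n, x ∈ B n ∧ B n ⊆ u

omit [MeasurableSpace W] [BorelSpace W] in
theorem dec_basis : ∃ B : ℕ → Set W, DecB B := by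
  obtain ⟨b, hbc, -, hb⟩ := TopologicalSpace.exists_countable_basis W
  have hc : (Set.sInter '' {T : Set (Set W) | T.Finite ∧ T ⊆ b}).Countable :=
    (Set.countable_ofPred_finite_subset hbc).image _
  obtain ⟨B, hB⟩ := hc.exists_eq_range ⟨_, ∅, ⟨Set.finite_empty, Set.empty_subset _⟩, rfl⟩
  refine ⟨B, ?_, fun n => ?_, fun u hu x hx => ?_⟩
  · rw [← hB]
    rintro _ ⟨T, hT, rfl⟩ _ ⟨T', hT', rfl⟩ -
    exact ⟨T ∪ T', ⟨hT.1.union hT'.1, Set.union_subset hT.2 hT'.2⟩, Set.sInter_union _ _⟩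
  · obtain ⟨T, hT, h⟩ : B n ∈ Set.sInter '' {T : Set (Set W) | T.Finite ∧ T ⊆ b} :=
      hB ▸ Set.mem_range_self n
    rw [← h]
    exact hT.1.isOpen_sInter fun t ht => hb.isOpen (hT.2 ht)
  · obtain ⟨v, hv, hxv, hvu⟩ := hb.exists_subset_of_mem_open hx hu
    obtain ⟨n, hn⟩ : v ∈ Set.range B :=
      hB ▸ ⟨{v}, ⟨Set.finite_singleton v, Set.singleton_subset_iff.2 hv⟩, Set.sInter_singleton v⟩
    exact ⟨n, hn ▸ hxv, hn ▸ hvu⟩

theorem dec_WT {B : ℕ → Set W} (hB : DecB B) {μ : ℕ → Measure W}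
    [∀ i, IsProbabilityMeasure (μ i)] {ν : Measure W} [IsProbabilityMeasure ν]
    (h : ∀ n, Tendsto (fun k => μ k (B n)) atTop (𝓝 (ν (B n)))) : WT atTop μ ν := by
  let μ' : ℕ → ProbabilityMeasure W := fun k => ⟨μ k, inferInstance⟩
  let ν' : ProbabilityMeasure W := ⟨ν, inferInstance⟩
  have h1 : Tendsto μ' atTop (𝓝 ν') := by
    refine hB.1.tendsto_probabilityMeasure_of_tendsto_of_mem ?_ ?_ ?_
    · rintro _ ⟨n, rfl⟩
      exact (hB.2.1 n).measurableSet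
    · intro u hu x hx
      obtain ⟨n, h1, h2⟩ := hB.2.2 u hu x hx
      exact ⟨B n, ⟨n, rfl⟩, (hB.2.1 n).mem_nhds h1, h2⟩
    · rintro _ ⟨n, rfl⟩
      exact (ENNReal.tendsto_toNNReal (measure_ne_top ν (B n))).comp (h n)
  exact ProbabilityMeasure.tendsto_iff_forall_integral_tendsto.1 h1

theorem dec_ext {B : ℕ → Set W} (hB : DecB B) {μ ν : Measure W} [IsProbabilityMeasure μ]
    [IsProbabilityMeasure ν] (h : ∀ n, μ (B n) = ν (B n)) : μ = ν := by
  have h1 : WT atTop (fun _ : ℕ => μ) ν := dec_WT hB fun n => by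
    rw [h n]; exact tendsto_const_nhds
  have h2 : WT atTop (fun _ : ℕ => μ) μ := fun _ => tendsto_const_nhds
  exact WT.unique h2 h1

omit [PolishSpace W] in
theorem dec_meas_flow (φ : Flow ℚ_[p] W) (s : ℚ_[p]) : Measurable (φ s) :=
  (φ.continuous continuous_const continuous_id).measurable

theorem dec_meas_orb (φ : Flow ℚ_[p] W) (k : ℤ) {U : Set W} (hU : MeasurableSet U) :
    Measurable fun w => orb φ k w U :=
  (Measure.measurable_coe hU).comp (measurable_orb φ k)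

/-- The upper frequencies of visits to the sets of the basis. -/
def decPhi (φ : Flow ℚ_[p] W) (B : ℕ → Set W) (w : W) (n : ℕ) : ℝ≥0∞ :=
  limsup (fun k : ℕ => orb φ k w (B n)) atTop

theorem decPhi_meas {B : ℕ → Set W} (hB : DecB B) : Measurable (decPhi φ B) :=
  measurable_pi_lambda _ fun n =>
    Measurable.limsup fun k => dec_meas_orb φ k (hB.2.1 n).measurableSet

theorem decPhi_flow (B : ℕ → Set W) (s : ℚ_[p]) (w : W) :
    decPhi φ B (φ s w) = decPhi φ B w := by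
  funext n
  refine limsup_congr ?_
  filter_upwards [dec_ev s] with k hk
  rw [orb_flow φ hk]

/-- The points where all the frequencies exist. -/
def decG (φ : Flow ℚ_[p] W) (B : ℕ → Set W) : Set W :=
  {w | ∀ n, liminf (fun k : ℕ => orb φ k w (B n)) atTop = decPhi φ B w n}

theorem decG_meas {B : ℕ → Set W} (hB : DecB B) : MeasurableSet (decG φ B) := by
  have : decG φ B = ⋂ n, {w | liminf (fun k : ℕ => orb φ k w (B n)) atTop = decPhi φ B w n} := by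
    ext w; simp [decG]
  rw [this]
  refine MeasurableSet.iInter fun n => measurableSet_eq_fun ?_ ?_
  · exact Measurable.liminf fun k => dec_meas_orb φ k (hB.2.1 n).measurableSet
  · exact (measurable_pi_apply n).comp (decPhi_meas hB)

omit [PolishSpace W] [BorelSpace W] in
theorem decG_tendsto {B : ℕ → Set W} {w : W} (hw : w ∈ decG φ B) (n : ℕ) :
    Tendsto (fun k : ℕ => orb φ k w (B n)) atTop (𝓝 (decPhi φ B w n)) :=
  tendsto_of_liminf_eq_limsup (hw n) rfl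

theorem decG_ae {B : ℕ → Set W} (hB : DecB B) {ν : Measure W} [IsFiniteMeasure ν]
    (hν : Inv φ ν) : ∀ᵐ w ∂ν, w ∈ decG φ B := by
  refine ae_all_iff.2 fun n => ?_
  filter_upwards [Inv.ae_conv φ hν (hB.2.1 n).measurableSet] with w ⟨c, hc⟩
  have h1 : Tendsto (fun k : ℕ => orb φ k w (B n)) atTop (𝓝 (ENNReal.ofReal c)) := by
    refine (ENNReal.tendsto_ofReal hc).congr fun k => ?_
    exact ofReal_measureReal (measure_ne_top _ _)
  rw [h1.liminf_eq]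
  exact h1.limsup_eq.symm

omit [PolishSpace W] in
theorem dec_restrict {ν : Measure W} (hν : Inv φ ν) {E : Set W} (hE : MeasurableSet E)
    (h : ∀ s, φ s ⁻¹' E = E) : Inv φ (ν.restrict E) := by
  intro s
  have := Measure.restrict_map (μ := ν) (dec_meas_flow φ s) hE
  rw [hν s, h s] at this
  exact this.symm

theorem dec_freq {B : ℕ → Set W} (hB : DecB B) {ν : Measure W} [IsFiniteMeasure ν]
    (hν : Inv φ ν) (n : ℕ) : ∫⁻ w, decPhi φ B w n ∂ν = ν (B n) := by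
  have hm := (hB.2.1 n).measurableSet
  have h1 : ∀ k : ℕ, ∫⁻ w, orb φ k w (B n) ∂ν = ν (B n) := fun k => by
    rw [← Measure.bind_apply hm (measurable_orb φ k).aemeasurable, Inv.bind_orb φ hν]
  have h2 := tendsto_lintegral_of_dominated_convergence (μ := ν)
    (F := fun (k : ℕ) w => orb φ k w (B n)) (f := fun w => decPhi φ B w n) (fun _ => 1)
    (fun k => dec_meas_orb φ k hm) (fun k => Eventually.of_forall fun w => prob_le_one)
    (by simp) ((decG_ae hB hν).mono fun w hw => decG_tendsto hw n)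
  simp only [h1] at h2
  exact tendsto_nhds_unique h2 tendsto_const_nhds


theorem Gen.inv {ρ : Measure W} [IsProbabilityMeasure ρ] {w : W} (h : Gen φ ρ w) : Inv φ ρ := by
  intro s
  have h1 := WT.map h (φ.continuous (continuous_const (y := s)) continuous_id)
  have : IsProbabilityMeasure (ρ.map (φ s)) :=
    Measure.isProbabilityMeasure_map (dec_meas_flow φ s).aemeasurable
  have h2 : WT atTop (fun k : ℕ => orb φ k w) (ρ.map (φ s)) := fun f => by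
    refine (h1 f).congr' ?_
    filter_upwards [dec_ev s] with k hk
    exact congrArg (fun μ : Measure W => ∫ x, f x ∂μ) (map_orb φ hk w)
  exact WT.unique h2 h

theorem Erg.inv {ρ : Measure W} [IsProbabilityMeasure ρ] (h : Erg φ ρ) : Inv φ ρ := by
  obtain ⟨w, hw⟩ := Filter.Eventually.exists h
  exact hw.inv

theorem Gen.map {W' : Type} [TopologicalSpace W'] [PolishSpace W'] [MeasurableSpace W']
    [BorelSpace W'] (ψ : Flow ℚ_[p] W') {F : W → W'} (hF : Continuous F)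
    (hc : ∀ s w, F (φ s w) = ψ s (F w)) {ρ : Measure W} {w : W} (h : Gen φ ρ w) :
    Gen ψ (ρ.map F) (F w) := by
  have h1 := WT.map h hF
  have h2 : ∀ k : ℤ, (orb φ k w).map F = orb ψ k (F w) := fun k => by
    unfold orb
    rw [Measure.map_map hF.measurable (measurable_flow φ w)]
    congr 1
    funext s
    exact hc s w
  simp only [h2] at h1
  exact h1

theorem Gen.unique {ρ ρ' : Measure W} [IsProbabilityMeasure ρ] [IsProbabilityMeasure ρ'] {w : W}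
    (h : Gen φ ρ w) (h' : Gen φ ρ' w) : ρ = ρ' := WT.unique h h'

/-- The ergodic decomposition. -/
theorem decomp (ν : Measure W) [IsProbabilityMeasure ν] (hν : Inv φ ν) :
    ∃ ρ : ProbabilityTheory.Kernel W W, ProbabilityTheory.IsMarkovKernel ρ ∧ ν.bind ρ = ν ∧
      ∀ᵐ w ∂ν, Gen φ (ρ w) w ∧ Erg φ (ρ w) := by
  have : Nonempty W := nonempty_of_isProbabilityMeasure ν
  obtain ⟨B, hB⟩ := dec_basis (W := W)
  have hΦ : Measurable (decPhi φ B) := decPhi_meas hB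
  set κ := ProbabilityTheory.condDistrib id (decPhi φ B) ν with hκ
  have h1 : ∀ᵐ y ∂ν.map (decPhi φ B), ∀ n, κ y (B n) = y n := by
    refine ae_all_iff.2 fun n => ?_
    have hm := (hB.2.1 n).measurableSet
    refine ae_eq_of_forall_setLIntegral_eq_of_sigmaFinite (κ.measurable_coe hm)
      (measurable_pi_apply n) fun C hC _ => ?_
    rw [Measure.restrict_map hΦ hC, lintegral_map (κ.measurable_coe hm) hΦ,
      lintegral_map (measurable_pi_apply n) hΦ, hκ,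
      ProbabilityTheory.setLIntegral_preimage_condDistrib hΦ aemeasurable_id hm hC,
      dec_freq hB (dec_restrict hν (hΦ hC) fun s => ?_) n, Measure.restrict_apply hm,
      Set.inter_comm, Set.preimage_id]
    ext w
    simp only [Set.mem_preimage, decPhi_flow]
  have h2 : ∀ᵐ y ∂ν.map (decPhi φ B), ∀ᵐ x ∂κ y, (∀ n, decPhi φ B x n = y n) ∧ x ∈ decG φ B := by
    refine Measure.ae_ae_of_ae_compProd
      (p := fun q : (ℕ → ℝ≥0∞) × W => (∀ n, decPhi φ B q.2 n = q.1 n) ∧ q.2 ∈ decG φ B) ?_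
    rw [hκ, ProbabilityTheory.compProd_map_condDistrib aemeasurable_id]
    refine (ae_map_iff (hΦ.prodMk measurable_id).aemeasurable ?_).2 ?_
    · refine MeasurableSet.inter ?_ (measurable_snd (decG_meas hB))
      have : {q : (ℕ → ℝ≥0∞) × W | ∀ n, decPhi φ B q.2 n = q.1 n} =
          ⋂ n, {q : (ℕ → ℝ≥0∞) × W | decPhi φ B q.2 n = q.1 n} := by
        ext q; simp
      change MeasurableSet {q : (ℕ → ℝ≥0∞) × W | ∀ n, decPhi φ B q.2 n = q.1 n}
      rw [this]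
      exact MeasurableSet.iInter fun n => measurableSet_eq_fun
        ((measurable_pi_apply n).comp (hΦ.comp measurable_snd))
        ((measurable_pi_apply n).comp measurable_fst)
    · filter_upwards [decG_ae hB hν] with w hw
      exact ⟨fun _ => rfl, hw⟩
  have h3 : ∀ y x, (∀ n, κ y (B n) = y n) → (∀ n, decPhi φ B x n = y n) → x ∈ decG φ B →
      Gen φ (κ y) x := fun y x hy hx hG =>
    dec_WT hB fun n => by
      rw [hy n, ← hx n]
      exact decG_tendsto hG n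
  refine ⟨κ.comap _ hΦ, inferInstance, ?_, ?_⟩
  · ext U hU
    rw [Measure.bind_apply hU (κ.comap _ hΦ).measurable.aemeasurable]
    have := ProbabilityTheory.setLIntegral_preimage_condDistrib (μ := ν) hΦ aemeasurable_id hU
      MeasurableSet.univ
    simpa using this
  · filter_upwards [ae_of_ae_map hΦ.aemeasurable h1, ae_of_ae_map hΦ.aemeasurable h2,
      decG_ae hB hν] with w hw1 hw2 hw3
    rw [ProbabilityTheory.Kernel.comap_apply]
    exact ⟨h3 _ _ hw1 (fun _ => rfl) hw3, hw2.mono fun x hx => h3 _ _ hw1 hx.1 hx.2⟩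

theorem erg_of_ext (m : Measure W) [IsProbabilityMeasure m] (hm : Inv φ m)
    (h : ∀ μ : Measure W, μ ≤ m → Inv φ μ → μ = μ Set.univ • m) : Erg φ m := by
  obtain ⟨ρ, hρ, hb, hae⟩ := decomp m hm
  obtain ⟨B, hB⟩ := dec_basis (W := W)
  have h1 : ∀ C, MeasurableSet C → (m.restrict C).bind ρ = m C • m := fun C hC => by
    have h2 : (m.restrict C).bind ρ ≤ m := by
      refine Measure.le_iff.2 fun U hU => ?_
      conv_rhs => rw [← hb]
      rw [Measure.bind_apply hU ρ.measurable.aemeasurable,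
        Measure.bind_apply hU ρ.measurable.aemeasurable]
      exact lintegral_mono' Measure.restrict_le_self le_rfl
    have h3 : Inv φ ((m.restrict C).bind ρ) := fun s => by
      ext U hU
      have hU' := dec_meas_flow φ s hU
      rw [Measure.map_apply (dec_meas_flow φ s) hU,
        Measure.bind_apply hU ρ.measurable.aemeasurable,
        Measure.bind_apply hU' ρ.measurable.aemeasurable]
      refine lintegral_congr_ae (ae_restrict_of_ae ?_)
      filter_upwards [hae] with w hw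
      rw [← Measure.map_apply (dec_meas_flow φ s) hU, hw.1.inv s]
    have h4 := h _ h2 h3
    rw [Measure.bind_apply MeasurableSet.univ ρ.measurable.aemeasurable] at h4
    simpa using h4
  have h5 : ∀ᵐ w ∂m, ∀ n, ρ w (B n) = m (B n) := by
    refine ae_all_iff.2 fun n => ?_
    have hn := (hB.2.1 n).measurableSet
    refine ae_eq_of_forall_setLIntegral_eq_of_sigmaFinite (ρ.measurable_coe hn)
      measurable_const fun C hC _ => ?_
    rw [← Measure.bind_apply hn ρ.measurable.aemeasurable, h1 C hC]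
    simp [mul_comm]
  filter_upwards [hae, h5] with w hw hw5
  rw [← dec_ext hB hw5]
  exact hw.1

theorem Erg.l1 {m : Measure W} [IsProbabilityMeasure m] (hm : Erg φ m) (f : W →ᵇ ℝ) :
    Tendsto (fun k : ℕ => ∫ w, |∫ x, f x ∂orb φ k w - ∫ x, f x ∂m| ∂m) atTop (𝓝 0) := by
  have hb : ∀ (μ : Measure W) [IsProbabilityMeasure μ], |∫ x, f x ∂μ| ≤ ‖f‖ := fun μ _ => by
    simpa using f.norm_integral_le_norm μ
  have := tendsto_integral_of_dominated_convergence (μ := m)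
    (F := fun (k : ℕ) w => |∫ x, f x ∂orb φ k w - ∫ x, f x ∂m|) (f := fun _ => (0 : ℝ))
    (fun _ => ‖f‖ + ‖f‖)
    (fun k => ((continuous_integral_orb φ k f).sub continuous_const).abs.aestronglyMeasurable)
    (integrable_const _) (fun k => Eventually.of_forall fun w => by
      rw [Real.norm_eq_abs, abs_abs]
      exact (abs_sub _ _).trans (add_le_add (hb _) (hb _))) ?_
  · simpa using this
  · filter_upwards [hm] with w hw
    have := ((hw f).sub_const (∫ x, f x ∂m)).abs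
    simpa using this

end Pool.Agent.EQ
end
end
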