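import Pool.Agent.K.MP_ad7a55_nt.C18
import Pool.Agent.K.MP_ad7a55_nt.C23

/-! The invariant probability measure on X. -/

set_option autoImplicit false

noncomputable section

open MeasureTheory Topology Filter UpperHalfPlane
open scoped MatrixGroups ENNReal BoundedContinuousFunction

namespace Pool.Agent.EQ

theorem vol_pos_hb {U : Set ℍ} (hU : IsOpen U) (hne : U.Nonempty) : volume U ≠ 0 := by
  intro h
  have h1 : (volume.comap UpperHalfPlane.coe : Measure ℍ) ≪ volume := by
    refine withDensity_absolutelyContinuous' (Measurable.aemeasurable ?_)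
      (Eventually.of_forall fun z => ?_)
    · have hc : Continuous fun z : ℍ => (NNReal.mk z.im z.im_pos.le : NNReal) :=
        continuous_im.subtype_mk _
      exact measurable_coe_nnreal_ennreal.comp ((measurable_const.div hc.measurable).pow_const 2)
    · have : NNReal.mk z.im z.im_pos.le ≠ 0 := NNReal.ne_iff.mp z.im_ne_zero
      exact ENNReal.coe_ne_zero.2 (pow_ne_zero _ (one_div_ne_zero this))
  have h2 := h1 h
  rw [measurableEmbedding_coe.comap_apply] at h2
  exact ((isOpenEmbedding_coe.isOpenMap U hU).measure_pos volume (hne.image _)).ne' h2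

theorem vol_preimage_hb (g : SL(2, ℝ)) (S : Set ℍ) :
    volume ((fun w : ℍ => g • w) ⁻¹' S) = volume S :=
  measure_preimage_smul (volume : Measure ℍ) (g : GL (Fin 2) ℝ) S

/-- Fubini: the two invariant measures are proportional. -/
theorem fubini_hb (μ : Measure SL(2, ℝ)) [μ.IsHaarMeasure] {A B : Set ℍ} (hA : MeasurableSet A)
    (hB : MeasurableSet B) :
    μ {g | g⁻¹ • UpperHalfPlane.I ∈ A} * volume B =
      μ {g | g • UpperHalfPlane.I ∈ B} * volume A := by
  have hR : μ.IsMulRightInvariant := unimod μ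
  have c1 : Continuous fun q : SL(2, ℝ) × ℍ => q.1⁻¹ • q.2 :=
    continuous_fst.inv.smul continuous_snd
  have c2 : Continuous fun q : SL(2, ℝ) × ℍ => q.1 • q.2 := continuous_fst.smul continuous_snd
  have hS : MeasurableSet {q : SL(2, ℝ) × ℍ | q.2 ∈ B ∧ q.1⁻¹ • q.2 ∈ A} :=
    (measurable_snd hB).inter (c1.measurable hA)
  have hS' : MeasurableSet {q : SL(2, ℝ) × ℍ | q.2 ∈ A ∧ q.1 • q.2 ∈ B} :=
    (measurable_snd hA).inter (c2.measurable hB)
  have e1 : (μ.prod (volume : Measure ℍ)) {q : SL(2, ℝ) × ℍ | q.2 ∈ B ∧ q.1⁻¹ • q.2 ∈ A} =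
      μ {g | g⁻¹ • UpperHalfPlane.I ∈ A} * volume B := by
    rw [Measure.prod_apply_symm hS, ← lintegral_indicator_const hB]
    refine lintegral_congr fun z => ?_
    by_cases hz : z ∈ B
    · rw [Set.indicator_of_mem hz,
        ← measure_preimage_mul μ (toSL2R z)⁻¹ {g | g⁻¹ • UpperHalfPlane.I ∈ A}]
      congr 1
      ext g
      simp [hz, mul_smul]
    · rw [Set.indicator_of_notMem hz]
      have : (fun g : SL(2, ℝ) => (g, z)) ⁻¹'
          {q : SL(2, ℝ) × ℍ | q.2 ∈ B ∧ q.1⁻¹ • q.2 ∈ A} = ∅ := by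
        ext g; simp [hz]
      rw [this, measure_empty]
  have e2 : (μ.prod (volume : Measure ℍ)) {q : SL(2, ℝ) × ℍ | q.2 ∈ A ∧ q.1 • q.2 ∈ B} =
      μ {g | g • UpperHalfPlane.I ∈ B} * volume A := by
    rw [Measure.prod_apply_symm hS', ← lintegral_indicator_const hA]
    refine lintegral_congr fun z => ?_
    by_cases hz : z ∈ A
    · rw [Set.indicator_of_mem hz,
        ← measure_preimage_mul_right μ (toSL2R z) {g | g • UpperHalfPlane.I ∈ B}]
      congr 1
      ext g
      simp [hz, mul_smul]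
    · rw [Set.indicator_of_notMem hz]
      have : (fun g : SL(2, ℝ) => (g, z)) ⁻¹'
          {q : SL(2, ℝ) × ℍ | q.2 ∈ A ∧ q.1 • q.2 ∈ B} = ∅ := by
        ext g; simp [hz]
      rw [this, measure_empty]
  rw [← e1, ← e2, Measure.prod_apply hS, Measure.prod_apply hS']
  refine lintegral_congr fun g => ?_
  rw [← vol_preimage_hb g]
  congr 1
  ext w
  simp [and_comm]

/-- The image of Haar measure in `ℍ` is a multiple of the hyperbolic area. -/
theorem map_haar (μ : Measure SL(2, ℝ)) [μ.IsHaarMeasure] :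
    ∃ c : ℝ≥0∞, c ≠ 0 ∧ c ≠ ∞ ∧
      μ.map (fun g => g⁻¹ • UpperHalfPlane.I) = c • (volume : Measure ℍ) := by
  obtain ⟨K, hK, hKI⟩ := exists_compact_mem_nhds UpperHalfPlane.I
  have hI : UpperHalfPlane.I ∈ interior K := mem_interior_iff_mem_nhds.2 hKI
  have v0 : volume (interior K) ≠ 0 := vol_pos_hb isOpen_interior ⟨_, hI⟩
  have v1 : volume (interior K) ≠ ∞ :=
    ((measure_mono interior_subset).trans_lt hK.measure_lt_top).ne
  have hc : Continuous fun g : SL(2, ℝ) => g • UpperHalfPlane.I :=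
    continuous_id.smul continuous_const
  have m0 : μ {g | g • UpperHalfPlane.I ∈ interior K} ≠ 0 :=
    (isOpen_interior.preimage hc).measure_ne_zero μ ⟨1, by simpa using hI⟩
  have m1 : μ {g | g • UpperHalfPlane.I ∈ interior K} ≠ ∞ := by
    refine ((measure_mono ?_).trans_lt (isProperMap_smul_I.isCompact_preimage hK).measure_lt_top).ne
    exact fun g hg => interior_subset (s := K) hg
  refine ⟨μ {g | g • UpperHalfPlane.I ∈ interior K} / volume (interior K),
    ENNReal.div_ne_zero.2 ⟨m0, v1⟩, ENNReal.div_ne_top m1 v0, ?_⟩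
  ext A hA
  have hm : Measurable fun g : SL(2, ℝ) => g⁻¹ • UpperHalfPlane.I :=
    (continuous_inv.smul continuous_const).measurable
  rw [Measure.map_apply hm hA, Measure.smul_apply, smul_eq_mul, div_eq_mul_inv, mul_right_comm,
    ← fubini_hb μ hA isOpen_interior.measurableSet, mul_assoc, ENNReal.mul_inv_cancel v0 v1,
    mul_one]
  rfl

variable (p : ℕ) [Fact p.Prime]

end Pool.Agent.EQ
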