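import Pool.Agent.K.MP_ad7a55_nt.C18
import Pool.Agent.K.MP_ad7a55_nt.C16
import Pool.Agent.K.MP_ad7a55_nt.C23
import Pool.Agent.K.MP_ad7a55_nt.C22

/-! Locally rigid joinings of two copies of X charge the singular set. -/

set_option autoImplicit false

noncomputable section

open MeasureTheory Topology Filter UpperHalfPlane
open scoped MatrixGroups ENNReal BoundedContinuousFunction

namespace Pool.Agent.EQ

/-- A real matrix that conjugates `u(N)` and its transpose into integral matrices is a multiple of a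
rational matrix. -/
theorem rational_of_conj {ξ : Matrix (Fin 2) (Fin 2) ℝ} (hξ : ξ.det ≠ 0) {N : ℕ} (hN : 0 < N)
    (γ γ' : SL(2, ℤ))
    (h : ξ * (uu (N : ℝ) : SL(2, ℝ)) = (toR γ : Matrix (Fin 2) (Fin 2) ℝ) * ξ)
    (h' : ξ * (ul (N : ℝ) : SL(2, ℝ)) = (toR γ' : Matrix (Fin 2) (Fin 2) ℝ) * ξ) :
    ∃ (c : ℝ) (ζ : Matrix (Fin 2) (Fin 2) ℚ), c ≠ 0 ∧ ξ = c • ζ.map (↑) := by
  have hN' : (N : ℝ) ≠ 0 := by positivity
  have e00 := congrFun (congrFun h 0) 0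
  have e01 := congrFun (congrFun h 0) 1
  have f00 := congrFun (congrFun h' 0) 0
  have f01 := congrFun (congrFun h' 0) 1
  have f10 := congrFun (congrFun h' 1) 0
  have f11 := congrFun (congrFun h' 1) 1
  simp [toR, Matrix.mul_apply, Fin.sum_univ_two] at e00 e01 f00 f01 f10 f11
  rw [Matrix.det_fin_two] at hξ
  set a := ξ 0 0 with ha
  set b := ξ 0 1 with hb
  set c := ξ 1 0 with hc
  set d := ξ 1 1 with hd
  set D := a * d - b * c with hD
  have q1 : (γ 0 1 : ℝ) * D = N * a ^ 2 := by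
    rw [hD]; linear_combination (-a) * e01 + b * e00
  have q2 : ((γ 0 0 : ℝ) - 1) * D = -(N * a * c) := by
    rw [hD]; linear_combination (-d) * e00 + c * e01
  have q3 : (γ' 0 1 : ℝ) * D = -(N * b ^ 2) := by
    rw [hD]; linear_combination (-a) * f01 + b * f00
  have q4 : ((γ' 0 0 : ℝ) - 1) * D = N * b * d := by
    rw [hD]; linear_combination (-d) * f00 + c * f01
  have q5 : (γ' 1 0 : ℝ) * D = N * d ^ 2 := by
    rw [hD]; linear_combination (-d) * f10 + c * f11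
  have q6 : ((γ' 1 1 : ℝ) - 1) * D = -(N * b * d) := by
    rw [hD]; linear_combination (-a) * f11 + b * f10
  have r1 : (γ 0 1 : ℝ) = N * a ^ 2 / D := by rw [← q1]; field_simp
  have r2 : (γ 0 0 : ℝ) = 1 - N * a * c / D := by
    field_simp; linear_combination q2
  have r3 : (γ' 0 1 : ℝ) = -(N * b ^ 2) / D := by rw [← q3]; field_simp
  have r4 : (γ' 0 0 : ℝ) = 1 + N * b * d / D := by
    field_simp; linear_combination q4
  have r5 : (γ' 1 0 : ℝ) = N * d ^ 2 / D := by rw [← q5]; field_simp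
  have r6 : (γ' 1 1 : ℝ) = 1 - N * b * d / D := by
    field_simp; linear_combination q6
  by_cases h0 : a = 0
  · have hb0 : b ≠ 0 := fun hb0 => hξ (by rw [hD, h0, hb0]; ring)
    have hD' : D = -(b * c) := by rw [hD, h0]; ring
    have hc0 : c ≠ 0 := fun hc0 => hξ (by rw [hD', hc0]; ring)
    refine ⟨D / (N ^ 2 * b), !![0, -(N * γ' 0 1); -(N ^ 2), N * (γ' 0 0 - 1)],
      div_ne_zero hξ (mul_ne_zero (pow_ne_zero _ hN') hb0), ?_⟩
    ext i j
    fin_cases i <;> fin_cases j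
    · simpa using h0
    · simp only [Fin.zero_eta, Fin.mk_one, Matrix.smul_apply, Matrix.map_apply, Matrix.of_apply,
        Matrix.cons_val', Matrix.cons_val_one, Matrix.cons_val_zero, Matrix.cons_val_fin_one,
        smul_eq_mul, ← hb]
      push_cast
      rw [r3]; field_simp
    · simp only [Fin.zero_eta, Fin.mk_one, Matrix.smul_apply, Matrix.map_apply, Matrix.of_apply,
        Matrix.cons_val', Matrix.cons_val_one, Matrix.cons_val_zero, Matrix.cons_val_fin_one,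
        smul_eq_mul, ← hc]
      push_cast
      rw [hD']; field_simp
    · simp only [Fin.zero_eta, Fin.mk_one, Matrix.smul_apply, Matrix.map_apply, Matrix.of_apply,
        Matrix.cons_val', Matrix.cons_val_one, Matrix.cons_val_zero, Matrix.cons_val_fin_one,
        smul_eq_mul, ← hd]
      push_cast
      rw [r4]; field_simp; ring
  · refine ⟨D / (N ^ 2 * a), !![N * γ 0 1, -((γ 0 0 - 1) * γ' 0 1 + γ 0 1 * (γ' 1 1 - 1));
      -(N * (γ 0 0 - 1)), (γ 0 0 - 1) * (γ' 0 0 - 1) + γ 0 1 * γ' 1 0],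
      div_ne_zero hξ (mul_ne_zero (pow_ne_zero _ hN') h0), ?_⟩
    ext i j
    fin_cases i <;> fin_cases j
    · simp only [Fin.zero_eta, Fin.mk_one, Matrix.smul_apply, Matrix.map_apply, Matrix.of_apply,
        Matrix.cons_val', Matrix.cons_val_one, Matrix.cons_val_zero, Matrix.cons_val_fin_one,
        smul_eq_mul, ← ha]
      push_cast
      rw [r1]; field_simp
    · simp only [Fin.zero_eta, Fin.mk_one, Matrix.smul_apply, Matrix.map_apply, Matrix.of_apply,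
        Matrix.cons_val', Matrix.cons_val_one, Matrix.cons_val_zero, Matrix.cons_val_fin_one,
        smul_eq_mul, ← hb]
      push_cast
      rw [r1, r2, r3, r6]; field_simp; rw [hD]; ring
    · simp only [Fin.zero_eta, Fin.mk_one, Matrix.smul_apply, Matrix.map_apply, Matrix.of_apply,
        Matrix.cons_val', Matrix.cons_val_one, Matrix.cons_val_zero, Matrix.cons_val_fin_one,
        smul_eq_mul, ← hc]
      push_cast
      rw [r2]; field_simp; ring
    · simp only [Fin.zero_eta, Fin.mk_one, Matrix.smul_apply, Matrix.map_apply, Matrix.of_apply,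
        Matrix.cons_val', Matrix.cons_val_one, Matrix.cons_val_zero, Matrix.cons_val_fin_one,
        smul_eq_mul, ← hd]
      push_cast
      rw [r1, r2, r4, r5]; field_simp; rw [hD]; ring

variable (p : ℕ) [Fact p.Prime]

/-- The set of pairs with integral frames related by `η` and `ζ`. -/
def pairE (ζ : Matrix (Fin 2) (Fin 2) ℚ) (η : Matrix (Fin 2) (Fin 2) ℝ) : Set (XX p × XX p) :=
  {w | ∃ g g' : GG p, (g : XX p) = w.1 ∧ (g' : XX p) = w.2 ∧ g.2 ∈ Kp p ∧ g'.2 ∈ Kp p ∧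
      η * (g.1 : Matrix (Fin 2) (Fin 2) ℝ) =
        (g'.1 : Matrix (Fin 2) (Fin 2) ℝ) * ζ.map (↑)}

theorem pair_measurable (ζ : Matrix (Fin 2) (Fin 2) ℚ) (η : Matrix (Fin 2) (Fin 2) ℝ) :
    MeasurableSet (pairE p ζ η) := by
  have hcl : IsClosed {x : GG p × GG p | x.1.2 ∈ Kp p ∧ x.2.2 ∈ Kp p ∧
      η * (x.1.1 : Matrix (Fin 2) (Fin 2) ℝ) =
        (x.2.1 : Matrix (Fin 2) (Fin 2) ℝ) * ζ.map (↑)} := by
    refine ((Kp_compact p).isClosed.preimage continuous_fst.snd).inter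
      (((Kp_compact p).isClosed.preimage continuous_snd.snd).inter ?_)
    exact isClosed_eq (continuous_const.mul (continuous_subtype_val.comp continuous_fst.fst))
      ((continuous_subtype_val.comp continuous_snd.fst).mul continuous_const)
  have hc : Continuous fun x : GG p × GG p => (((x.1 : XX p), (x.2 : XX p)) : XX p × XX p) :=
    (QuotientGroup.continuous_mk.comp continuous_fst).prodMk
      (QuotientGroup.continuous_mk.comp continuous_snd)
  have hs := (isSigmaCompact_univ.of_isClosed_subset hcl (Set.subset_univ _)).image hc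
  have he : pairE p ζ η = (fun x : GG p × GG p => (((x.1 : XX p), (x.2 : XX p)) : XX p × XX p)) ''
      {x : GG p × GG p | x.1.2 ∈ Kp p ∧ x.2.2 ∈ Kp p ∧
      η * (x.1.1 : Matrix (Fin 2) (Fin 2) ℝ) =
        (x.2.1 : Matrix (Fin 2) (Fin 2) ℝ) * ζ.map (↑)} := by
    ext w
    constructor
    · rintro ⟨g, g', h1, h2, h3, h4, h5⟩
      exact ⟨(g, g'), ⟨h3, h4, h5⟩, Prod.ext h1 h2⟩
    · rintro ⟨x, ⟨h3, h4, h5⟩, rfl⟩
      exact ⟨x.1, x.2, rfl, rfl, h3, h4, h5⟩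
  rw [he]
  obtain ⟨K, hK, hU⟩ := hs
  rw [← hU]
  exact MeasurableSet.iUnion fun n => (hK n).isClosed.measurableSet

theorem pair_den (ζ : Matrix (Fin 2) (Fin 2) ℚ) :
    ∃ q : ℕ, 0 < q ∧ ∀ i j, InZp p (q * ζ i j) := by
  refine ⟨∏ x : Fin 2 × Fin 2, (ζ x.1 x.2).den,
    Finset.prod_pos fun x _ => (ζ x.1 x.2).den_pos, fun i j => ?_⟩
  obtain ⟨m, hm⟩ := Finset.dvd_prod_of_mem (fun x : Fin 2 × Fin 2 => (ζ x.1 x.2).den)
    (Finset.mem_univ (i, j))
  rw [hm]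
  have : (((ζ i j).den * m : ℕ) : ℚ) * ζ i j = ((m * (ζ i j).num : ℤ) : ℚ) := by
    push_cast
    rw [← Rat.den_mul_eq_num]; ring
  rw [this]
  exact inZp_int p _

theorem pair_SL_cancel {F : Type} [Field F] (g : SL(2, F)) {A B : Matrix (Fin 2) (Fin 2) F}
    (h : (g : Matrix (Fin 2) (Fin 2) F) * A = (g : Matrix (Fin 2) (Fin 2) F) * B) : A = B := by
  have := congrArg (fun M => ((g⁻¹ : SL(2, F)) : Matrix (Fin 2) (Fin 2) F) * M) h
  simpa only [← Matrix.mul_assoc, ← Matrix.SpecialLinearGroup.coe_mul, inv_mul_cancel,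
    Matrix.SpecialLinearGroup.coe_one, Matrix.one_mul] using this

theorem pair_SL_right {F : Type} [Field F] (g : SL(2, F)) {A B : Matrix (Fin 2) (Fin 2) F}
    (h : A * (g : Matrix (Fin 2) (Fin 2) F) = B) :
    A = B * ((g⁻¹ : SL(2, F)) : Matrix (Fin 2) (Fin 2) F) := by
  rw [← h, Matrix.mul_assoc, ← Matrix.SpecialLinearGroup.coe_mul, mul_inv_cancel,
    Matrix.SpecialLinearGroup.coe_one, Matrix.mul_one]

/-- Along returns to `pairE` the flowed matrix is bounded by the bound of `ζ`. -/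
theorem pair_bd {d₁ d₂ : ℚ_[p]} {ζ : Matrix (Fin 2) (Fin 2) ℚ} {η : Matrix (Fin 2) (Fin 2) ℝ}
    {R : ℝ} (hR : Bd R (ζ.map (↑) : Matrix (Fin 2) (Fin 2) ℚ_[p])) {q : ℕ} {δ : ℚ}
    {w : XX p × XX p} {P : Matrix (Fin 2) (Fin 2) ℚ_[p]}
    (hP : ((η, P) : MM p) ∈ HomS p q δ w.1 w.2) {s : ℚ_[p]}
    (hs : ufl2 p d₁ d₂ s w ∈ pairE p ζ η) : Bd R (Pfl p d₁ d₂ s P) := by
  obtain ⟨h, h', e1, e2, k1, k2, e3⟩ := hs
  obtain ⟨ξ, -, -, i1, i2⟩ := HomS.rep (HomS.flow hP d₁ d₂ s) e1 e2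
  have hξ : ξ = ζ := by
    have := pair_SL_cancel h'.1 (i1.symm.trans e3)
    ext i j
    have h2 := congrFun (congrFun this i) j
    simpa using h2
  subst hξ
  have := pair_SL_right h.2 i2
  change Pfl p d₁ d₂ s P = _ at this
  rw [this]
  exact hR.K k2 ((Kp p).inv_mem k1)

theorem pair_zero {x : ℚ_[p]} {R : ℝ} (h : ∃ᶠ k : ℕ in atTop, ‖x‖ * (p : ℝ) ^ (k : ℤ) ≤ R) :
    x = 0 := by
  by_contra hx
  have hx' : 0 < ‖x‖ := norm_pos_iff.2 hx
  have hp : (1 : ℝ) < p := by exact_mod_cast (Fact.out : p.Prime).one_lt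
  have ht : Tendsto (fun k : ℕ => ‖x‖ * (p : ℝ) ^ k) atTop atTop :=
    (tendsto_pow_atTop_atTop_of_one_lt hp).const_mul_atTop hx'
  obtain ⟨k, h1, h2⟩ := (h.and_eventually (ht.eventually_gt_atTop R)).exists
  rw [zpow_natCast] at h1
  exact absurd h1 (not_le.2 h2)

theorem npos {d₁ d₂ : ℚ_[p]} (h₁ : d₁ ≠ 0) (h₂ : d₂ ≠ 0) (ρ : Measure (XX p × XX p))
    [IsProbabilityMeasure ρ] (hU : Inv (ufl2 p d₁ d₂) ρ) (ζ : Matrix (Fin 2) (Fin 2) ℚ)
    (hζ : ζ.det ≠ 0) (η : Matrix (Fin 2) (Fin 2) ℝ)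
    (h0 : ρ {w | ∃ g g' : GG p, (g : XX p) = w.1 ∧ (g' : XX p) = w.2 ∧ g.2 ∈ Kp p ∧ g'.2 ∈ Kp p ∧
      η * (g.1 : Matrix (Fin 2) (Fin 2) ℝ) =
        (g'.1 : Matrix (Fin 2) (Fin 2) ℝ) * ζ.map (↑)} ≠ 0) : ρ (NN p d₁ d₂) ≠ 0 := by
  have hp : (1 : ℝ) < p := by exact_mod_cast (Fact.out : p.Prime).one_lt
  obtain ⟨c, hc, hrec⟩ := hU.recur (ufl2 p d₁ d₂) (pair_measurable p ζ η) h0
  refine fun hz => hrec (measure_mono_null ?_ hz)
  rintro w ⟨⟨g, g', e1, e2, -, -, e3⟩, hfr⟩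
  obtain ⟨q, hq, hden⟩ := pair_den p ζ
  set P : Matrix (Fin 2) (Fin 2) ℚ_[p] := (g'.2 : Matrix (Fin 2) (Fin 2) ℚ_[p]) * ζ.map (↑) *
    ((g.2⁻¹ : SL(2, ℚ_[p])) : Matrix (Fin 2) (Fin 2) ℚ_[p]) with hPdef
  have hP : ((η, P) : MM p) ∈ HomS p q ζ.det w.1 w.2 := by
    refine ⟨g, g', e1, e2, ζ, hden, rfl, e3, ?_⟩
    change P * _ = _
    rw [hPdef, Matrix.mul_assoc, ← Matrix.SpecialLinearGroup.coe_mul, inv_mul_cancel,
      Matrix.SpecialLinearGroup.coe_one, Matrix.mul_one]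
  set R : ℝ := ‖(fun i j => (ζ i j : ℚ_[p]) : Fin 2 → Fin 2 → ℚ_[p])‖ with hRdef
  have hR0 : 0 ≤ R := norm_nonneg _
  have hR : Bd R (ζ.map (↑) : Matrix (Fin 2) (Fin 2) ℚ_[p]) := fun i j =>
    norm_entry_le (fun i j => (ζ i j : ℚ_[p])) i j
  obtain ⟨e, he⟩ : ∃ e : ℕ, ENNReal.ofReal ((p : ℝ) ^ (-(e : ℤ))) +
      ENNReal.ofReal ((p : ℝ) ^ (-(e : ℤ))) < c := by
    have t1 : Tendsto (fun e : ℕ => (p : ℝ) ^ (-(e : ℤ))) atTop (𝓝 0) := by
      simp only [zpow_neg, zpow_natCast]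
      exact (tendsto_pow_atTop_atTop_of_one_lt hp).inv_tendsto_atTop
    have t2 : Tendsto (fun e : ℕ => ENNReal.ofReal ((p : ℝ) ^ (-(e : ℤ)))) atTop (𝓝 0) := by
      simpa using ENNReal.tendsto_ofReal t1
    have t3 := t2.add t2
    rw [add_zero] at t3
    exact (t3.eventually (gt_mem_nhds hc)).exists
  let A : Fin 2 × Fin 2 → ℚ_[p] := fun x => P x.1 x.2
  let B : Fin 2 × Fin 2 → ℚ_[p] := fun x =>
    !![d₂ * P 1 0, d₂ * P 1 1 - d₁ * P 0 0; 0, -(d₁ * P 1 0)] x.1 x.2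
  let C : Fin 2 × Fin 2 → ℚ_[p] := fun x =>
    !![0, -(d₁ * d₂ * P 1 0); 0, 0] x.1 x.2
  have hABC : ∀ s x, Pfl p d₁ d₂ s P x.1 x.2 = A x + B x * s + C x * s ^ 2 := by
    rintro s ⟨i, j⟩
    rw [Pfl_eq]
    fin_cases i <;> fin_cases j <;> simp [A, B, C]
  have key : ∃ᶠ k : ℕ in atTop, ‖B (0, 1)‖ * (p : ℝ) ^ (k : ℤ) ≤ R * (p : ℝ) ^ (2 * e + 2) ∧
      ‖C (0, 1)‖ * (p : ℝ) ^ (k : ℤ) ≤ R * (p : ℝ) ^ (2 * e + 2) := by
    refine hfr.mono fun k hk => ?_
    rcases three_point p A B C 0 (k : ℤ) e hR0 with h3 | ⟨s₁, s₂, h3⟩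
    · have := coef_bound p (a := A (0, 1)) (b := B (0, 1)) (c := C (0, 1)) (l := k)
        fun s hs => h3 s ((mem_pb p).2 (by simpa using hs)) (0, 1)
      refine ⟨this.1, le_trans (mul_le_mul_of_nonneg_left ?_ (norm_nonneg _)) this.2⟩
      exact zpow_le_zpow_right₀ hp.le (by omega)
    · exfalso
      rw [orb_apply _ _ _ (pair_measurable p ζ η)] at hk
      have hle : bm p k {s | ufl2 p d₁ d₂ s w ∈ pairE p ζ η} ≤
          bm p k (pb p s₁ (k - e) ∪ pb p s₂ (k - e)) := by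
        refine measure_mono_ae ((bm_ae p k).mono fun s hs hs' => ?_)
        refine h3 s ((mem_pb p).2 (by simpa using hs)) fun x => ?_
        rw [← hABC]
        exact pair_bd p hR hP hs' x.1 x.2
      have h4 := (measure_union_le _ _).trans
        (add_le_add (bm_ball_le p k (k - e) s₁) (bm_ball_le p k (k - e) s₂))
      have h5 : (k : ℤ) - e - k = -(e : ℤ) := by ring
      rw [h5] at h4
      exact absurd (hk.trans (hle.trans h4)) (not_le.2 he)
  have hB := pair_zero p (key.mono fun k hk => hk.1)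
  have hC := pair_zero p (key.mono fun k hk => hk.2)
  refine ⟨q, hq, ζ.det, hζ, (η, P), hP, ?_, ?_⟩
  · simpa [C, h₁, h₂] using hC
  · have : d₂ * P 1 1 - d₁ * P 0 0 = 0 := by simpa [B] using hB
    exact (sub_eq_zero.1 this).symm

end Pool.Agent.EQ
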