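import Pool.Agent.K.MP_ad7a55_nt.C24
import Pool.Agent.K.MP_ad7a55_nt.C21
import Pool.Agent.K.MP_ad7a55_nt.C25

-- part Pool.Agent.P.MP_ad7a55_nt.ULf3
section

/-! Leafwise measures: equivariance, restriction and the maximal inequality. -/

set_option autoImplicit false

noncomputable section

open MeasureTheory Topology Filter UpperHalfPlane
open scoped MatrixGroups ENNReal BoundedContinuousFunction

namespace Pool.Agent.EQ

variable {p : ℕ} [Fact p.Prime] {ι : Type} [Fintype ι]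
  {W : Type} [TopologicalSpace W] [PolishSpace W] [MeasurableSpace W] [BorelSpace W]
  (φ : Flow (ι → ℚ_[p]) W) (ν : Measure W)

/-- A transformation that preserves the measure and rescales the flow. -/
structure Sys (T : W ≃ᵐ W) (a : ℚ_[p]) (e : ℤ) : Prop where
  inv : ν.map T = ν
  nrm : ‖a‖ = (p : ℝ) ^ e
  comm : ∀ v w, T (φ v w) = φ (a • v) (T w)

/-- The saturation of a set. -/
def Sat (l : ℤ) (C : Set W) : Set W := {w | ∃ v : ι → ℚ_[p], ‖v‖ ≤ (p : ℝ) ^ l ∧ φ v w ∈ C}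

theorem ulf3_neg (v : ι → ℚ_[p]) (w : W) : φ (-v) (φ v w) = w := by
  rw [← φ.map_add, neg_add_cancel, φ.map_zero_apply]

theorem ulf3_mono {k l : ℤ} (h : l ≤ k) : (p : ℝ) ^ l ≤ (p : ℝ) ^ k :=
  zpow_le_zpow_right₀ (by exact_mod_cast (Fact.out : p.Prime).one_le) h

theorem isCompact_Sat (l : ℤ) {C : Set W} (hC : IsCompact C) : IsCompact (Sat φ l C) := by
  have h : Sat φ l C = (fun z : (ι → ℚ_[p]) × W => φ (-z.1) z.2) ''
      (Metric.closedBall 0 ((p : ℝ) ^ l) ×ˢ C) := by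
    ext w
    constructor
    · rintro ⟨v, hv, hw⟩
      exact ⟨(v, φ v w), ⟨mem_closedBall_zero_iff.2 hv, hw⟩, ulf3_neg φ v w⟩
    · rintro ⟨⟨v, c⟩, ⟨hv, hc⟩, rfl⟩
      refine ⟨v, mem_closedBall_zero_iff.1 hv, ?_⟩
      have := ulf3_neg φ (-v) c
      rw [neg_neg] at this
      simpa only [this] using hc
  rw [h]
  exact ((isCompact_closedBall _ _).prod hC).image
    (φ.continuous continuous_fst.neg continuous_snd)

theorem ulf3_sat_mono {l m : ℤ} (h : m ≤ l) (C : Set W) : Sat φ m C ⊆ Sat φ l C := by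
  rintro w ⟨v, hv, hw⟩
  exact ⟨v, hv.trans (ulf3_mono h), hw⟩

theorem ulf3_sat_flow {l : ℤ} (C : Set W) {v : ι → ℚ_[p]} (hv : ‖v‖ ≤ (p : ℝ) ^ l) (w : W) :
    φ v w ∈ Sat φ l C ↔ w ∈ Sat φ l C := by
  constructor
  · rintro ⟨c, hc, hw⟩
    exact ⟨c + v, norm_add_V hc hv, by rwa [φ.map_add]⟩
  · rintro ⟨c, hc, hw⟩
    refine ⟨c + -v, norm_add_V hc (by rwa [norm_neg]), ?_⟩
    rwa [φ.map_add, ulf3_neg]

/-- The leafwise mass of the complement of a set. -/
def ulf3M (S : Set W) (k l : ℤ) (w : W) : ℝ≥0∞ := lw (dat φ ν w) k l {v | φ v w ∉ S}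

theorem ulf3_mset {S : Set W} (hS : MeasurableSet S) (w : W) :
    MeasurableSet {v : ι → ℚ_[p] | φ v w ∉ S} :=
  (φ.continuous continuous_id continuous_const).measurable hS.compl

theorem ulf3M_flow {S : Set W} (hS : MeasurableSet S) {k : ℤ} (l : ℤ) {c : ι → ℚ_[p]}
    (hc : ‖c‖ ≤ (p : ℝ) ^ k) (w : W) : ulf3M φ ν S k l (φ c w) = ulf3M φ ν S k l w := by
  unfold ulf3M
  rw [← lw_flow φ ν l hc w, Measure.map_apply (measurable_add_const c) (ulf3_mset φ hS w)]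
  congr 1
  ext v
  simp only [Set.mem_ofPred_eq, Set.mem_preimage, φ.map_add]

theorem ulf3M_meas {S : Set W} (hS : MeasurableSet S) (k l : ℤ) :
    Measurable (ulf3M φ ν S k l) := by
  have h := measurable_lw φ ν k l (F := fun z : W × (ι → ℚ_[p]) =>
    Sᶜ.indicator (1 : W → ℝ≥0∞) (φ z.2 z.1))
    ((measurable_one.indicator hS.compl).comp (measurable_flowV φ))
  have e : ulf3M φ ν S k l = fun w => ∫⁻ v, Sᶜ.indicator (1 : W → ℝ≥0∞) (φ v w)
      ∂lw (dat φ ν w) k l := by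
    funext w
    unfold ulf3M
    rw [← lintegral_indicator_one (ulf3_mset φ hS w)]
    rfl
  rw [e]
  exact h

variable [IsProbabilityMeasure ν]

theorem ulf3_av_cond {A : Set W} (hA : MeasurableSet A) (hi : ∀ v w, w ∈ A → φ v w ∈ A) (k : ℤ) :
    avV φ (ProbabilityTheory.cond ν A) k = (ν A)⁻¹ • (avV φ ν k).restrict A := by
  unfold avV ProbabilityTheory.cond
  rw [Measure.restrict_map (measurable_flowV φ) hA, Measure.prod_smul_left, Measure.map_smul,
    Measure.restrict_prod_eq_prod_univ]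
  congr 3
  ext z
  simp only [Set.mem_prod, Set.mem_univ, and_true, Set.mem_preimage]
  refine ⟨hi _ _, fun h => ?_⟩
  have := hi (-z.2) _ h
  rwa [ulf3_neg] at this

theorem dat_cond {A : Set W} (hA : MeasurableSet A) (h0 : ν A ≠ 0)
    (hi : ∀ v w, w ∈ A → φ v w ∈ A) :
    ∀ᵐ w ∂ProbabilityTheory.cond ν A, dat φ (ProbabilityTheory.cond ν A) w = dat φ ν w := by
  have : IsProbabilityMeasure (ProbabilityTheory.cond ν A) :=
    ProbabilityTheory.cond_isProbabilityMeasure h0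
  set ν' := ProbabilityTheory.cond ν A with hν'
  have key : ∀ k l : ℤ, ∀ᵐ w ∂ν', l ≤ k → ∀ c : ι → ℚ_[p], ‖c‖ ≤ (p : ℝ) ^ k →
      dl φ ν' k l (φ c w) = dl φ ν k l (φ c w) := by
    intro k l
    by_cases hl : l ≤ k
    swap
    · exact Eventually.of_forall fun w h => absurd h hl
    have e1 : (avV φ ν' k).withDensity (dl φ ν' k l) = (avV φ ν' k).withDensity (dl φ ν k l) := by
      rw [withDensity_dl φ ν' hl, hν', ulf3_av_cond φ ν hA hi, ulf3_av_cond φ ν hA hi,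
        withDensity_smul_measure, ← restrict_withDensity hA, withDensity_dl φ ν hl]
    have e2 := (withDensity_eq_iff_of_sigmaFinite (measurable_dl φ ν' k l).aemeasurable
      (measurable_dl φ ν k l).aemeasurable).1 e1
    have e3 := ae_forall_flow φ ν' (k := k) (l := l)
      (P := fun w => dl φ ν' k l w = dl φ ν k l w) e2
      (fun v hv w hw => by rw [dl_flow φ ν' k hv, dl_flow φ ν k hv, hw])
    filter_upwards [e3] with w hw _ using hw
  filter_upwards [ae_all_iff.2 fun k => ae_all_iff.2 fun l => key k l] with w hw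
  funext k l c
  unfold dat
  split_ifs with h
  · exact hw k l h.1 c h.2
  · rfl

theorem ulf3_one {S : Set W} (hS : MeasurableSet S) {k l : ℤ} (hl : l ≤ k)
    (hi : ∀ v : ι → ℚ_[p], ‖v‖ ≤ (p : ℝ) ^ l → ∀ w, φ v w ∈ S ↔ w ∈ S) (η : ℝ≥0∞) {B : Set W}
    (hB : MeasurableSet B) (hBi : ∀ v : ι → ℚ_[p], ‖v‖ ≤ (p : ℝ) ^ k → ∀ w, φ v w ∈ B ↔ w ∈ B)
    (hη : ∀ w ∈ B, η ≤ ulf3M φ ν S k l w) : η * ν B ≤ ν (B \ S) := by
  have h := lint_lw φ ν hl (F := (B \ S).indicator 1) (measurable_one.indicator (hB.diff hS))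
    (fun v hv w => by
      have : φ v w ∈ B \ S ↔ w ∈ B \ S := by
        rw [Set.mem_sdiff, Set.mem_sdiff, hi v hv, hBi v (hv.trans (ulf3_mono hl))]
      by_cases hw : w ∈ B \ S
      · rw [Set.indicator_of_mem hw, Set.indicator_of_mem (this.2 hw)]; rfl
      · rw [Set.indicator_of_notMem hw, Set.indicator_of_notMem (mt this.1 hw)])
  rw [lintegral_indicator_one (hB.diff hS)] at h
  rw [← h, ← lintegral_indicator_const hB]
  refine lintegral_mono fun w => ?_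
  by_cases hw : w ∈ B
  swap
  · rw [Set.indicator_of_notMem hw]; exact zero_le
  rw [Set.indicator_of_mem hw]
  refine (hη w hw).trans ?_
  unfold ulf3M
  rw [← lintegral_indicator_one (ulf3_mset φ hS w)]
  refine lintegral_mono_ae ?_
  have hae : ∀ᵐ v ∂lw (dat φ ν w) k l, ‖v‖ ≤ (p : ℝ) ^ k :=
    (withDensity_absolutelyContinuous _ _).ae_le (bmV_ae k)
  filter_upwards [hae] with v hv
  by_cases hv' : v ∈ {v : ι → ℚ_[p] | φ v w ∉ S}
  · rw [Set.indicator_of_mem hv', Set.indicator_of_mem (show φ v w ∈ B \ S from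
      ⟨(hBi v hv w).2 hw, hv'⟩)]
    exact le_rfl
  · rw [Set.indicator_of_notMem hv']; exact zero_le

theorem ulf3_max {S : Set W} (hS : MeasurableSet S) {l : ℤ}
    (hi : ∀ v : ι → ℚ_[p], ‖v‖ ≤ (p : ℝ) ^ l → ∀ w, φ v w ∈ S ↔ w ∈ S) (η : ℝ≥0∞) (n : ℕ) :
    ∀ B : Set W, MeasurableSet B →
      (∀ v : ι → ℚ_[p], ‖v‖ ≤ (p : ℝ) ^ (l + n - 1) → ∀ w, φ v w ∈ B ↔ w ∈ B) →
      η * ν (B ∩ {w | ∃ k : ℤ, l ≤ k ∧ k < l + n ∧ η < ulf3M φ ν S k l w}) ≤ ν (B \ S) := by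
  induction n with
  | zero =>
    intro B _ _
    have : B ∩ {w | ∃ k : ℤ, l ≤ k ∧ k < l + (0 : ℕ) ∧ η < ulf3M φ ν S k l w} = ∅ := by
      ext w
      simp only [Set.mem_inter_iff, Set.mem_ofPred_eq, Set.mem_empty_iff_false, iff_false]
      rintro ⟨-, k, h1, h2, -⟩
      omega
    rw [this]; simp
  | succ n ih =>
    intro B hB hBi
    have e : l + ((n + 1 : ℕ) : ℤ) - 1 = l + n := by push_cast; ring
    rw [e] at hBi
    set G : Set W := {w | η < ulf3M φ ν S (l + n) l w} with hG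
    have hGm : MeasurableSet G := measurableSet_lt measurable_const (ulf3M_meas φ ν hS _ _)
    have hGi : ∀ v : ι → ℚ_[p], ‖v‖ ≤ (p : ℝ) ^ (l + n) → ∀ w, φ v w ∈ G ↔ w ∈ G := by
      intro v hv w
      simp only [hG, Set.mem_ofPred_eq, ulf3M_flow φ ν hS l hv]
    have h1 : η * ν (B ∩ G) ≤ ν ((B ∩ G) \ S) :=
      ulf3_one φ ν hS (k := l + n) (by omega) hi η (hB.inter hGm)
        (fun v hv w => by rw [Set.mem_inter_iff, Set.mem_inter_iff, hBi v hv, hGi v hv])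
        (fun w hw => le_of_lt hw.2)
    have h2 := ih (B \ G) (hB.diff hGm) (fun v hv w => by
      have hv' := hv.trans (ulf3_mono (p := p) (show l + n - 1 ≤ l + n by omega))
      rw [Set.mem_sdiff, Set.mem_sdiff, hBi v hv', hGi v hv'])
    have h3 : B ∩ {w | ∃ k : ℤ, l ≤ k ∧ k < l + (n + 1 : ℕ) ∧ η < ulf3M φ ν S k l w} ⊆
        (B ∩ G) ∪ ((B \ G) ∩ {w | ∃ k : ℤ, l ≤ k ∧ k < l + n ∧ η < ulf3M φ ν S k l w}) := by
      rintro w ⟨hw, k, a1, a2, a3⟩
      by_cases hg : w ∈ G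
      · exact Or.inl ⟨hw, hg⟩
      · refine Or.inr ⟨⟨hw, hg⟩, k, a1, ?_, a3⟩
        by_contra hk
        have : k = l + n := by push_cast at a2; omega
        exact hg (by rw [hG]; exact this ▸ a3)
    have h4 : ν ((B ∩ G) \ S) + ν ((B \ G) \ S) = ν (B \ S) := by
      rw [← measure_inter_add_sdiff (B \ S) hGm]
      congr 2
      · ext w; simp only [Set.mem_sdiff, Set.mem_inter_iff]; tauto
      · ext w; simp only [Set.mem_sdiff]; tauto
    calc _ ≤ η * (ν (B ∩ G) +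
          ν ((B \ G) ∩ {w | ∃ k : ℤ, l ≤ k ∧ k < l + n ∧ η < ulf3M φ ν S k l w})) :=
          mul_le_mul_right ((measure_mono h3).trans (measure_union_le _ _)) _
      _ ≤ _ := by rw [mul_add, ← h4]; exact add_le_add h1 h2

omit [IsProbabilityMeasure ν] in
theorem ulf3M_mono {w : W} (h : Gd φ ν w) (C : Set W) {k l m : ℤ} (hm : m ≤ l) (hl : l ≤ k) :
    ulf3M φ ν (Sat φ l C) k l w ≤ ulf3M φ ν (Sat φ m C) k m w := by
  unfold ulf3M
  rw [← h.level hm hl (S := {v | φ v w ∉ Sat φ l C}) (fun c hc v hv => by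
    have : φ (c + v) w = φ v (φ c w) := by rw [add_comm, φ.map_add]
    simp only [Set.mem_ofPred_eq] at hc ⊢
    rwa [this, ulf3_sat_flow φ C hv])]
  exact measure_mono fun v hv hv' => hv (ulf3_sat_mono φ hm C hv')

theorem doob {C : Set W} (hC : IsCompact C) (η : ℝ≥0∞) :
    η * ν {w | Gd φ ν w ∧ ∃ k l : ℤ, l ≤ k ∧
      η < lw (dat φ ν w) k l {v | φ v w ∉ Sat φ l C}} ≤ ν Cᶜ := by
  set D : ℕ → Set W := fun N => {w | Gd φ ν w ∧ ∃ k : ℤ, -(N : ℤ) ≤ k ∧ k ≤ N ∧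
    η < ulf3M φ ν (Sat φ (-(N : ℤ)) C) k (-(N : ℤ)) w} with hD
  have hmono : Monotone D := by
    rintro N N' hN w ⟨hw, k, a1, a2, a3⟩
    exact ⟨hw, k, by omega, by omega, a3.trans_le (ulf3M_mono φ ν hw C (by omega) a1)⟩
  have hsub : {w | Gd φ ν w ∧ ∃ k l : ℤ, l ≤ k ∧
      η < lw (dat φ ν w) k l {v | φ v w ∉ Sat φ l C}} ⊆ ⋃ N, D N := by
    rintro w ⟨hw, k, l, a1, a2⟩
    refine Set.mem_iUnion.2 ⟨k.natAbs + l.natAbs, hw, k, by omega, by omega, ?_⟩
    exact a2.trans_le (ulf3M_mono φ ν hw C (by omega) a1)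
  have hb : ∀ N, η * ν (D N) ≤ ν Cᶜ := by
    intro N
    have h := ulf3_max φ ν (isCompact_Sat φ (-(N : ℤ)) hC).isClosed.measurableSet
      (fun v hv w => ulf3_sat_flow φ C hv w) η (2 * N + 1) Set.univ MeasurableSet.univ
      (fun _ _ _ => Iff.rfl)
    refine le_trans (mul_le_mul_right (measure_mono ?_) _) (h.trans (measure_mono ?_))
    · rintro w ⟨-, k, a1, a2, a3⟩
      exact ⟨trivial, k, a1, by push_cast; omega, a3⟩
    · rintro w ⟨-, hw⟩ hc
      exact hw ⟨0, by rw [norm_zero]; positivity, by rwa [φ.map_zero_apply]⟩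
  refine (mul_le_mul_right (measure_mono hsub) _).trans ?_
  rw [hmono.measure_iUnion, ENNReal.mul_iSup]
  exact iSup_le hb

variable {φ ν}

theorem Sys.ulf3_av {T : W ≃ᵐ W} {a : ℚ_[p]} {e : ℤ} (h : Sys φ ν T a e) (k : ℤ) :
    (avV φ ν k).map T = avV φ ν (k + e) := by
  have ha : Measurable fun v : ι → ℚ_[p] => a • v := (continuous_const_smul a).measurable
  have e1 : ν.prod (bmV p ι (k + e)) = (ν.prod (bmV p ι k)).map (Prod.map T fun v => a • v) := by
    rw [← Measure.map_prod_map _ _ T.measurable ha, h.inv, bmV_smul k e h.nrm]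
  unfold avV
  rw [e1, Measure.map_map T.measurable (measurable_flowV φ),
    Measure.map_map (measurable_flowV φ) (T.measurable.prodMap ha)]
  congr 1
  funext z
  exact h.comm z.2 z.1

theorem Sys.dat_eq {T : W ≃ᵐ W} {a : ℚ_[p]} {e : ℤ} (h : Sys φ ν T a e) :
    ∀ᵐ w ∂ν, shD a e (dat φ ν (T w)) = dat φ ν w := by
  have hp : (0 : ℝ) < p := by exact_mod_cast (Fact.out : p.Prime).pos
  have hn : ∀ (k : ℤ) (c : ι → ℚ_[p]), ‖a • c‖ ≤ (p : ℝ) ^ (k + e) ↔ ‖c‖ ≤ (p : ℝ) ^ k := by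
    intro k c
    rw [norm_smul, h.nrm, zpow_add₀ hp.ne', mul_comm]
    exact mul_le_mul_iff_left₀ (zpow_pos hp e)
  have key : ∀ k l : ℤ, ∀ᵐ w ∂ν, l ≤ k → ∀ c : ι → ℚ_[p], ‖c‖ ≤ (p : ℝ) ^ k →
      dl φ ν (k + e) (l + e) (T (φ c w)) = dl φ ν k l (φ c w) := by
    intro k l
    by_cases hl : l ≤ k
    swap
    · exact Eventually.of_forall fun w h => absurd h hl
    have e1 : (avV φ ν k).withDensity (fun w => dl φ ν (k + e) (l + e) (T w)) =
        (avV φ ν k).withDensity (dl φ ν k l) := by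
      rw [withDensity_dl φ ν hl]
      ext s hs
      have hs' : MeasurableSet (T.symm ⁻¹' s) := T.symm.measurable hs
      have b1 : T ⁻¹' (T.symm ⁻¹' s) = s := by ext w; simp
      have b2 := setLIntegral_map (μ := avV φ ν k) hs' (measurable_dl φ ν (k + e) (l + e))
        T.measurable
      rw [b1, h.ulf3_av, ← withDensity_apply _ hs', withDensity_dl φ ν (by omega), ← h.ulf3_av,
        Measure.map_apply T.measurable hs', b1] at b2
      rw [withDensity_apply _ hs, b2]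
    have e2 := (withDensity_eq_iff_of_sigmaFinite
      ((measurable_dl φ ν (k + e) (l + e)).comp T.measurable).aemeasurable
      (measurable_dl φ ν k l).aemeasurable).1 e1
    have e3 := ae_forall_flow φ ν (k := k) (l := l)
      (P := fun w => dl φ ν (k + e) (l + e) (T w) = dl φ ν k l w) e2
      (fun v hv w hw => by
        rw [h.comm, dl_flow φ ν (k + e) ((hn l v).2 hv), dl_flow φ ν k hv, hw])
    filter_upwards [e3] with w hw _ using hw
  filter_upwards [ae_all_iff.2 fun k => ae_all_iff.2 fun l => key k l] with w hw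
  funext k l c
  unfold shD dat
  by_cases hc : l ≤ k ∧ ‖c‖ ≤ (p : ℝ) ^ k
  · rw [if_pos hc, if_pos ⟨by omega, (hn k c).2 hc.2⟩, ← h.comm]
    exact hw k l hc.1 c hc.2
  · rw [if_neg hc, if_neg fun h' => hc ⟨by omega, (hn k c).1 h'.2⟩]

end Pool.Agent.EQ
end
end

-- part Pool.Agent.P.MP_ad7a55_nt.XGb
section

/-! The group lemma for integral matrices and lines. -/

set_option autoImplicit false

noncomputable section

open Finset Matrix
open scoped MatrixGroups Classical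

namespace Pool.Agent.EQ

/-- The group lemma with exponents `c`, `e` holds for the primes from `q₀` on. -/
def GLP (ι : Type) [Fintype ι] (c e : ℝ) (q₀ : ℕ) : Prop :=
  ∀ q : ℕ, q.Prime → q₀ ≤ q → ∀ (W : Type) (V : Finset W) (η : W → ι → M2) (n : W → ℤ)
    (μ μ' : (ι → Set V2) → ℝ) (Y : W → Finset (ι → Set V2)) (s₀ : ℝ), V.Nonempty →
    (∀ w ∈ V, ¬ (q : ℤ) ∣ n w ∧ ∀ k, (η w k).det = n w) → (∀ y, 0 ≤ μ y ∧ 0 ≤ μ' y) →
    ∑ y ∈ Fintype.piFinset fun _ : ι => Xn q, μ y ≤ 1 →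
    ∑ y ∈ Fintype.piFinset fun _ : ι => Xn q, μ' y ≤ 1 → 0 < s₀ →
    Real.sqrt q ≤ s₀ * (q : ℝ) ^ Fintype.card ι →
    (∀ w ∈ V, ∀ y ∈ Y w, (y ∈ Fintype.piFinset fun _ : ι => Xn q) ∧ s₀ ≤ μ y ∧
      (q : ℝ) ^ (-c) * μ y ≤ μ' fun k => {v | (η w k).adjugate *ᵥ v ∈ y k}) →
    (q : ℝ) ^ (-(c / 4)) ≤ mn V (fun w =>
      if ∀ k, (prb V fun w' => Pj q (η w' k) = Pj q (η w k)) ≤ (q : ℝ) ^ (c - 3)
        then ∑ y ∈ Y w, μ y else 0) →
    ∃ k l, k ≠ l ∧ ∃ X X' : M2, ¬ (q : ℤ) ∣ X.det ∧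
      (q : ℝ) ^ (-e) * #V ≤ #{w ∈ V | ∀ i j, (q : ℤ) ∣ (η w l * X - X' * η w k) i j}

section
variable {q : ℕ}

/-- reduction of a vector -/
def xgbV (q : ℕ) (v : V2) : Fin 2 → ZMod q := fun i => (v i : ZMod q)

/-- reduction of a matrix -/
def xgbM (q : ℕ) (A : M2) : MQ q := (Int.castRingHom (ZMod q)).mapMatrix A

/-- pull-back of a set of vectors along a matrix modulo `q` -/
def xgbP (M : MQ q) (L : Set V2) : Set V2 := {v | ∃ w ∈ L, xgbV q w = M *ᵥ xgbV q v}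

theorem xgb_Vsurj (z : Fin 2 → ZMod q) : ∃ w, xgbV q w = z := by
  choose w hw using fun i => ZMod.intCast_surjective (z i)
  exact ⟨w, funext hw⟩

theorem xgb_Msurj (Z : MQ q) : ∃ A, xgbM q A = Z := by
  choose w hw using fun i j => ZMod.intCast_surjective (Z i j)
  exact ⟨Matrix.of w, Matrix.ext hw⟩

theorem xgb_Mapp (A : M2) (i j : Fin 2) : xgbM q A i j = (A i j : ZMod q) := rfl

theorem xgb_det (A : M2) : (xgbM q A).det = (A.det : ZMod q) :=
  ((Int.castRingHom (ZMod q)).map_det A).symm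

theorem xgb_MV (A : M2) (v : V2) : xgbV q (A *ᵥ v) = xgbM q A *ᵥ xgbV q v := by
  funext i
  simp [xgbV, xgb_Mapp, Matrix.mulVec, dotProduct, Fin.sum_univ_two]

theorem xgb_Ln {u w : V2} : w ∈ Ln q u ↔
    xgbV q u 0 * xgbV q w 1 - xgbV q u 1 * xgbV q w 0 = 0 := by
  rw [xlb_mem, ← ZMod.intCast_zmod_eq_zero_iff_dvd]
  simp [xgbV]

theorem xgb_memP {M : MQ q} {u v : V2} : v ∈ xgbP M (Ln q u) ↔
    xgbV q u 0 * (M *ᵥ xgbV q v) 1 - xgbV q u 1 * (M *ᵥ xgbV q v) 0 = 0 := by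
  constructor
  · rintro ⟨w, hw, e⟩
    rw [← e]
    exact xgb_Ln.1 hw
  · intro h
    obtain ⟨w, e⟩ := xgb_Vsurj (M *ᵥ xgbV q v)
    exact ⟨w, xgb_Ln.2 (by rw [e]; exact h), e⟩

theorem xgb_PP (M N : MQ q) (L : Set V2) : xgbP M (xgbP N L) = xgbP (N * M) L := by
  ext v
  constructor
  · rintro ⟨w, ⟨z, hz, e⟩, e'⟩
    exact ⟨z, hz, by rw [e, e', Matrix.mulVec_mulVec]⟩
  · rintro ⟨z, hz, e⟩
    obtain ⟨w, e'⟩ := xgb_Vsurj (M *ᵥ xgbV q v)
    exact ⟨w, ⟨z, hz, by rw [e, e', Matrix.mulVec_mulVec]⟩, e'⟩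

theorem xgb_Pint (A : M2) {L : Set V2} (h : IsLn q L) : xgbP (xgbM q A) L = {v | A *ᵥ v ∈ L} := by
  obtain ⟨u, -, rfl⟩ := h
  ext v
  rw [xgb_memP, ← xgb_MV]
  exact xgb_Ln.symm

theorem xgb_Pone {L : Set V2} (h : IsLn q L) : xgbP (1 : MQ q) L = L := by
  have := xgb_Pint (q := q) 1 h
  rw [xgbM, map_one] at this
  simpa using this

theorem xgb_Pj {η ξ : M2} : ξ ∈ Pj q η ↔ ∃ t : ZMod q, xgbM q ξ = t • xgbM q η := by
  have key : ∀ t : ℤ, (∀ i j, (q : ℤ) ∣ (ξ - t • η) i j) ↔ xgbM q ξ = (t : ZMod q) • xgbM q η := by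
    intro t
    rw [← Matrix.ext_iff]
    refine forall₂_congr fun i j => ?_
    rw [← ZMod.intCast_zmod_eq_zero_iff_dvd, ← sub_eq_zero (a := xgbM q ξ i j),
      Matrix.sub_apply, Matrix.smul_apply, Matrix.smul_apply, smul_eq_mul, smul_eq_mul, xgb_Mapp,
      xgb_Mapp, Int.cast_sub, Int.cast_mul]
  constructor
  · rintro ⟨t, ht⟩
    exact ⟨t, (key t).1 ht⟩
  · rintro ⟨t, ht⟩
    obtain ⟨t, rfl⟩ := ZMod.intCast_surjective t
    exact ⟨t, (key t).2 ht⟩

variable [hq : Fact q.Prime]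

theorem xgb_Psmul {t : ZMod q} (ht : t ≠ 0) (M : MQ q) {L : Set V2} (h : IsLn q L) :
    xgbP (t • M) L = xgbP M L := by
  obtain ⟨u, -, rfl⟩ := h
  ext v
  rw [xgb_memP, xgb_memP, Matrix.smul_mulVec, Pi.smul_apply, Pi.smul_apply, smul_eq_mul,
    smul_eq_mul]
  refine Iff.trans (iff_of_eq (congrArg (· = 0) ?_)) (mul_eq_zero_iff_left ht)
  ring

theorem xgb_isLn {M : MQ q} (hM : M.det ≠ 0) {L : Set V2} (h : L ∈ Xn q) : xgbP M L ∈ Xn q := by
  rw [mem_Xn hq.out.pos] at h ⊢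
  obtain ⟨A, rfl⟩ := xgb_Msurj M
  rw [xgb_Pint A h]
  refine h.pull hq.out.pos ?_
  rw [xgb_det, Ne, ZMod.intCast_zmod_eq_zero_iff_dvd] at hM
  exact (((Nat.prime_iff_prime_int.1 hq.out).irreducible.coprime_iff_not_dvd).2 hM).symm

theorem xgb_Pjeq {t : ZMod q} (ht : t ≠ 0) {M : MQ q} {η : M2} (h : xgbM q η = t • M) :
    Pj q η = {ξ | ∃ r : ZMod q, xgbM q ξ = r • M} := by
  ext ξ
  rw [xgb_Pj, h]
  constructor
  · rintro ⟨r, hr⟩
    exact ⟨r * t, by rw [hr, smul_smul]⟩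
  · rintro ⟨r, hr⟩
    exact ⟨r * t⁻¹, by rw [hr, smul_smul, inv_mul_cancel_right₀ ht]⟩

/-- the action on the lines -/
@[reducible] def xgbAct (q : ℕ) [Fact q.Prime] : MulAction (GQ q) (Xn q) where
  smul g L := ⟨xgbP ((g⁻¹ : GQ q) : MQ q) L.1,
    xgb_isLn (by rw [(g⁻¹).det_coe]; exact one_ne_zero) L.2⟩
  one_smul L := Subtype.ext (by
    change xgbP (((1 : GQ q)⁻¹ : GQ q) : MQ q) L.1 = L.1
    rw [inv_one, Matrix.SpecialLinearGroup.coe_one]
    exact xgb_Pone ((mem_Xn (Fact.out : q.Prime).pos).1 L.2))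
  mul_smul g h L := Subtype.ext (by
    change xgbP (((g * h)⁻¹ : GQ q) : MQ q) L.1 =
      xgbP ((g⁻¹ : GQ q) : MQ q) (xgbP ((h⁻¹ : GQ q) : MQ q) L.1)
    rw [xgb_PP, _root_.mul_inv_rev, Matrix.SpecialLinearGroup.coe_mul])

theorem xgb_trans (L : Xn q) :
    ∃ g : GQ q, xgbP (g : MQ q) L.1 = Ln q ![1, 0] := by
  obtain ⟨u, ⟨a, b, e⟩, hL⟩ := (mem_Xn hq.out.pos).1 L.2
  have e' : (a : ZMod q) * u 0 + b * u 1 = 1 := by exact_mod_cast congrArg (Int.cast : ℤ → ZMod q) e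
  refine ⟨⟨!![(u 0 : ZMod q), -b; u 1, a], by rw [Matrix.det_fin_two_of]; linear_combination e'⟩, ?_⟩
  rw [hL]
  ext v
  rw [xgb_memP, xgb_Ln]
  refine iff_of_eq (congrArg (· = 0) ?_)
  simp [xgbV, Matrix.mulVec, dotProduct, Fin.sum_univ_two]
  linear_combination (v 1 : ZMod q) * e'

theorem xgb_types (h2 : q ≠ 2) : ∃ E E' : Bool → MQ q, (∀ b, E b * E' b = 1 ∧ E' b * E b = 1) ∧
    ∀ n : ZMod q, n ≠ 0 → ∃ (b : Bool) (s : ZMod q), s ≠ 0 ∧ n = s ^ 2 * (E b).det := by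
  obtain ⟨u, hu⟩ := FiniteField.exists_nonsquare (F := ZMod q) (by rwa [ZMod.ringChar_zmod_n])
  have u0 : u ≠ 0 := by
    rintro rfl
    exact hu IsSquare.zero
  refine ⟨fun b => if b then !![u, 0; 0, 1] else 1, fun b => if b then !![u⁻¹, 0; 0, 1] else 1,
    fun b => ?_, fun n hn => ?_⟩
  · cases b
    · simp
    · simp [u0, Matrix.one_fin_two]
  · by_cases h : IsSquare n
    · obtain ⟨s, rfl⟩ := h
      exact ⟨false, s, left_ne_zero_of_mul hn, by simp [sq]⟩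
    · have h1 : IsSquare (n * u) := by
        rw [← quadraticChar_one_iff_isSquare (mul_ne_zero hn u0), map_mul,
          quadraticChar_neg_one_iff_not_isSquare.2 h, quadraticChar_neg_one_iff_not_isSquare.2 hu]
        norm_num
      obtain ⟨s, hs⟩ := h1
      have s0 : s ≠ 0 := left_ne_zero_of_mul (hs ▸ mul_ne_zero hn u0)
      refine ⟨true, s / u, div_ne_zero s0 u0, ?_⟩
      simp only [if_true, Matrix.det_fin_two_of]
      apply mul_right_cancel₀ u0
      rw [hs]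
      field_simp
      ring

end

theorem xgb_sumY {ι β : Type} [Fintype ι] (X : Finset β) (G : (ι → β) → ℝ) :
    ∑ y : ι → X, G (fun k => (y k).1) = ∑ y ∈ Fintype.piFinset fun _ : ι => X, G y := by
  refine sum_bij (fun y _ k => (y k).1) (fun y _ => Fintype.mem_piFinset.2 fun k => (y k).2)
    (fun y _ z _ h => funext fun k => Subtype.ext (congrFun h k)) (fun y hy => ?_) fun _ _ => rfl
  exact ⟨fun k => ⟨y k, Fintype.mem_piFinset.1 hy k⟩, mem_univ _, rfl⟩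

theorem xgb_fib {W G : Type} [Fintype G] (V : Finset W) (g : W → G) {N : ℝ} (hN : 0 ≤ N) :
    ∃ ρ : G → ℝ, (∀ x, 0 ≤ ρ x) ∧ (∀ H : G → ℝ, ∑ x, ρ x * H x = (∑ w ∈ V, H (g w)) / N) ∧
      ∀ T : Finset G, ∑ x ∈ T, ρ x = (#{w ∈ V | g w ∈ T} : ℝ) / N := by
  have key : ∀ H : G → ℝ,
      ∑ x, (#{w ∈ V | g w = x} : ℝ) / N * H x = (∑ w ∈ V, H (g w)) / N := fun H => by
    rw [← sum_fiberwise V g, sum_div]
    refine sum_congr rfl fun x _ => ?_
    rw [sum_congr rfl (g := fun _ => H x) fun w hw => by rw [(mem_filter.1 hw).2], sum_const,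
      nsmul_eq_mul]
    ring
  refine ⟨fun x => (#{w ∈ V | g w = x} : ℝ) / N, fun x => by positivity, key, fun T => ?_⟩
  have := key fun x => if x ∈ T then 1 else 0
  rw [sum_boole] at this
  rw [← this]
  simp

theorem gl_apply (ι : Type) [Fintype ι] {e : ℝ} (he : 0 < e) :
    ∃ (c : ℝ) (q₀ : ℕ), 0 < c ∧ c ≤ 1 ∧ GLP ι c e q₀ := by
  obtain ⟨c0, q0, hc0, H⟩ := group_lemma ι he
  have hc : 0 < min c0 1 := lt_min hc0 one_pos
  obtain ⟨q1, hq1⟩ := exists_nat_ge ((2 : ℝ) ^ (4 / min c0 1))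
  refine ⟨min c0 1, max (max q0 q1) 3, hc, min_le_right _ _, ?_⟩
  have hcc : min c0 1 ≤ c0 := min_le_left _ _
  generalize min c0 1 = c at hc hq1 hcc
  intro q hq hqq W V η n μ μ' Y s₀ hV hn hμ sμ sμ' hs0 hs hY hsum
  have := Fact.mk hq
  have Q0 : q0 ≤ q := (le_max_left _ _).trans ((le_max_left _ _).trans hqq)
  have Q1 : q1 ≤ q := (le_max_right _ _).trans ((le_max_left _ _).trans hqq)
  have Q3 : 3 ≤ q := (le_max_right _ _).trans hqq
  have R1 : (1 : ℝ) ≤ q := by exact_mod_cast hq.one_le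
  have R0 : (0 : ℝ) < q := by linarith
  have N0 : (0 : ℝ) < #V := by exact_mod_cast hV.card_pos
  have isl : ∀ L : Xn q, IsLn q L.1 := fun L => (mem_Xn hq.pos).1 L.2
  have cX : q ≤ #(Xn q) := by simpa using (card_Xn hq one_pos).1
  let _ := xgbAct q
  have : Nonempty (Xn q) := (card_pos.1 (hq.pos.trans_le cX)).to_subtype
  have : MulAction.IsPretransitive (ι → GQ q) (ι → Xn q) := ⟨fun x y => by
    choose g hg using fun k => xgb_trans (x k)
    choose g' hg' using fun k => xgb_trans (y k)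
    refine ⟨fun k => g' k * (g k)⁻¹, funext fun k => ?_⟩
    change (g' k * (g k)⁻¹) • x k = y k
    rw [mul_smul, smul_eq_iff_eq_inv_smul]
    refine Subtype.ext ?_
    change xgbP (((g k)⁻¹⁻¹ : GQ q) : MQ q) _ = xgbP (((g' k)⁻¹⁻¹ : GQ q) : MQ q) _
    rw [inv_inv, inv_inv, hg, hg']⟩
  obtain ⟨E, E', hE, hT⟩ := xgb_types (q := q) (by omega)
  have dE : ∀ b, (E b).det * (E' b).det = 1 := fun b => by
    rw [← Matrix.det_mul, (hE b).1, Matrix.det_one]
  have n0 : ∀ w ∈ V, (n w : ZMod q) ≠ 0 := fun w hw => by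
    rw [Ne, ZMod.intCast_zmod_eq_zero_iff_dvd]
    exact (hn w hw).1
  have ex : ∀ w, ∃ (b : Bool) (s : ZMod q) (g : ι → GQ q), w ∈ V → s ≠ 0 ∧
      ∀ k, xgbM q (η w k) = s • ((g k : MQ q) * E b) := fun w => by
    by_cases hw : w ∈ V
    · obtain ⟨b, s, s0, hs⟩ := hT _ (n0 w hw)
      refine ⟨b, s, fun k => ⟨s⁻¹ • (xgbM q (η w k) * E' b), ?_⟩, fun _ => ⟨s0, fun k => ?_⟩⟩
      · rw [Matrix.det_smul, Matrix.det_mul, xgb_det, (hn w hw).2 k, hs, Fintype.card_fin,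
          mul_assoc, dE]
        field_simp
      · change _ = s • (s⁻¹ • (xgbM q (η w k) * E' b) * E b)
        rw [smul_mul_assoc, smul_smul, mul_inv_cancel₀ s0, one_smul, mul_assoc, (hE b).2, mul_one]
    · exact ⟨true, 1, 1, fun h => absurd h hw⟩
  choose b s g hg using ex
  obtain ⟨Lt, hLt⟩ : ∃ Lt : W → Prop, ∀ w, Lt w ↔
      ∀ k, (prb V fun w' => Pj q (η w' k) = Pj q (η w k)) ≤ (q : ℝ) ^ (c - 3) :=
    ⟨_, fun _ => Iff.rfl⟩
  obtain ⟨b0, hb0⟩ : ∃ b0, (q : ℝ) ^ (-(c / 4)) / 2 ≤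
      (∑ w ∈ V with b w = b0 ∧ Lt w, ∑ y ∈ Y w, μ y) / #V := by
    by_contra hh
    push Not at hh
    have e1 := hh true
    have e2 := hh false
    refine absurd hsum (not_le.2 (lt_of_eq_of_lt ?_ ((add_lt_add e1 e2).trans_eq (add_halves _))))
    rw [← add_div, sum_filter, sum_filter, ← sum_add_distrib, mn]
    refine congrArg (· / _) (sum_congr rfl fun w _ => ?_)
    simp only [← hLt]
    by_cases h1 : Lt w <;> cases b w <;> simp [h1]
  obtain ⟨V', hV'⟩ : ∃ V', V' = {w ∈ V | b w = b0 ∧ Lt w} := ⟨_, rfl⟩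
  rw [← hV'] at hb0
  have mV : ∀ w ∈ V', w ∈ V ∧ b w = b0 ∧ Lt w := fun w hw => by
    rw [hV'] at hw
    exact mem_filter.1 hw
  have dE1 : (E b0).det ≠ 0 := left_ne_zero_of_mul_eq_one (dE b0)
  have dE2 : (E' b0).det ≠ 0 := right_ne_zero_of_mul_eq_one (dE b0)
  let σ : (ι → Xn q) ≃ (ι → Xn q) :=
    { toFun := fun r k => ⟨xgbP (E b0) (r k).1, xgb_isLn dE1 (r k).2⟩
      invFun := fun r k => ⟨xgbP (E' b0) (r k).1, xgb_isLn dE2 (r k).2⟩
      left_inv := fun r => funext fun k => Subtype.ext (by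
        simp only [xgb_PP, (hE b0).1, xgb_Pone (isl _)])
      right_inv := fun r => funext fun k => Subtype.ext (by
        simp only [xgb_PP, (hE b0).2, xgb_Pone (isl _)]) }
  let F : (ι → Set V2) → ℝ := fun y => if s₀ ≤ μ y then Real.sqrt (μ y) else 0
  have F0 : ∀ y, 0 ≤ F y := fun y => by
    simp only [F]
    split_ifs <;> positivity
  have sF : ∀ G : (ι → Set V2) → ℝ, ∑ r, G (fun k => (σ r k).1) =
      ∑ y ∈ Fintype.piFinset fun _ : ι => Xn q, G y := fun G =>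
    (Equiv.sum_comp σ fun r => G fun k => (r k).1).trans (xgb_sumY _ G)
  obtain ⟨ρ, ρ0, ρ1, ρ2⟩ := xgb_fib V' g N0.le
  have main := H q Q0 (ι → Xn q) ρ (fun r => F fun k => (σ r k).1)
    (fun r => Real.sqrt (μ' fun k => (r k).1)) ρ0 ?_ ?_ (fun r => F0 _) ?_ ?_ ?_ ?_
  · obtain ⟨k, l, hkl, X, X', hX, hfin⟩ := main
    obtain ⟨Z, hZ⟩ := xgb_Msurj (E' b0 * X * E b0)
    obtain ⟨Z', rfl⟩ := xgb_Msurj X'
    refine ⟨k, l, hkl, Z, Z', ?_, ?_⟩
    · rw [← ZMod.intCast_zmod_eq_zero_iff_dvd, ← xgb_det, hZ, Matrix.det_mul, Matrix.det_mul]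
      exact mul_ne_zero (mul_ne_zero dE2 hX) dE1
    · rw [ρ2, le_div_iff₀ N0] at hfin
      refine hfin.trans (Nat.cast_le.2 (card_le_card fun w hw => ?_))
      simp only [mem_filter, mem_univ, true_and] at hw
      obtain ⟨m1, m2⟩ := hw
      obtain ⟨m3, m4, -⟩ := mV w m1
      simp only [mem_filter]
      refine ⟨m3, fun i j => ?_⟩
      have e1 : xgbM q (η w l * Z - Z' * η w k) = 0 := by
        have e2 : xgbM q (η w l * Z - Z' * η w k) =
            xgbM q (η w l) * xgbM q Z - xgbM q Z' * xgbM q (η w k) := by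
          simp only [xgbM, map_sub, map_mul]
        rw [e2, hZ, (hg w m3).2 l, (hg w m3).2 k, m4, smul_mul_assoc, mul_smul_comm, ← mul_assoc,
          ← mul_assoc, mul_assoc _ (E b0), (hE b0).1, mul_one, m2, mul_assoc, sub_self]
      rw [← ZMod.intCast_zmod_eq_zero_iff_dvd, ← xgb_Mapp, e1]
      rfl
  · rw [ρ2, div_le_one N0]
    refine Nat.cast_le.2 (card_le_card fun w hw => ?_)
    simp only [mem_filter] at hw
    exact (mV w hw.1).1
  · intro k h
    rw [ρ2]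
    by_cases h0 : ∀ w ∈ V', g w k ≠ h
    · refine le_trans (le_of_eq ?_) (Real.rpow_nonneg R0.le _)
      rw [div_eq_zero_iff, Nat.cast_eq_zero, card_eq_zero, eq_empty_iff_forall_notMem]
      refine Or.inl fun w hw => ?_
      simp only [mem_filter, mem_univ, true_and] at hw
      exact h0 w hw.1 hw.2
    push Not at h0
    obtain ⟨w, m1, m2⟩ := h0
    obtain ⟨m3, m4, m5⟩ := mV w m1
    refine le_trans ?_ (((hLt w).1 m5 k).trans
      (Real.rpow_le_rpow_of_exponent_le R1 (by linarith)))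
    refine div_le_div_of_nonneg_right (Nat.cast_le.2 (card_le_card fun w' hw' => ?_)) N0.le
    simp only [mem_filter, mem_univ, true_and] at hw'
    obtain ⟨p1, p2⟩ := hw'
    obtain ⟨p3, p4, -⟩ := mV w' p1
    simp only [mem_filter]
    refine ⟨p3, ?_⟩
    rw [xgb_Pjeq (hg w m3).1 ((hg w m3).2 k), xgb_Pjeq (hg w' p3).1 ((hg w' p3).2 k), m2, p2,
      m4, p4]
  · refine le_trans ((sF fun y => F y ^ 2).trans_le (sum_le_sum fun y _ => ?_)) sμ
    simp only [F]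
    split_ifs
    · exact (Real.sq_sqrt (hμ y).1).le
    · simpa using (hμ y).1
  · refine le_trans ((xgb_sumY _ fun y => Real.sqrt (μ' y) ^ 2).trans_le
      (sum_le_sum fun y _ => (Real.sq_sqrt (hμ y).2).le)) sμ'
  · have t0 : 0 < Real.sqrt s₀ := Real.sqrt_pos.2 hs0
    have e1 : ∑ r, F (fun k => (σ r k).1) ≤ (Real.sqrt s₀)⁻¹ := by
      rw [sF F]
      refine le_trans (sum_le_sum (g := fun y => (Real.sqrt s₀)⁻¹ * μ y) fun y _ => ?_) ?_
      · simp only [F]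
        split_ifs with hh
        · rw [le_inv_mul_iff₀ t0]
          exact (mul_le_mul_of_nonneg_right (Real.sqrt_le_sqrt hh) (Real.sqrt_nonneg _)).trans_eq
            (Real.mul_self_sqrt (hμ y).1)
        · exact mul_nonneg (by positivity) (hμ y).1
      · rw [← mul_sum]
        exact mul_le_of_le_one_right (by positivity) sμ
    refine (pow_le_pow_left₀ (sum_nonneg fun r _ => F0 _) e1 2).trans ?_
    have e2 : (q : ℝ) ^ Fintype.card ι ≤ Fintype.card (ι → Xn q) := by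
      rw [Fintype.card_fun, Fintype.card_coe]
      exact_mod_cast Nat.pow_le_pow_left cX _
    have e3 : 0 < Real.sqrt q := Real.sqrt_pos.2 R0
    rw [inv_pow, Real.sq_sqrt hs0.le, Real.rpow_neg R0.le, ← Real.sqrt_eq_rpow,
      le_inv_mul_iff₀ e3, ← div_eq_mul_inv, div_le_iff₀' hs0]
    exact hs.trans (mul_le_mul_of_nonneg_left e2 hs0.le)
  · rw [cor, ρ1 fun x => ∑ r : ι → Xn q, F (fun k => (σ r k).1) *
      Real.sqrt (μ' fun k => ((x • r) k).1)]
    have e1 : (2 : ℝ) ≤ (q : ℝ) ^ (c / 4) := by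
      have e2 : (2 : ℝ) ^ (4 / c) ≤ q := hq1.trans (by exact_mod_cast Q1)
      have e3 := Real.rpow_le_rpow (by positivity) e2 (show 0 ≤ c / 4 by positivity)
      rwa [← Real.rpow_mul (by norm_num), show 4 / c * (c / 4) = 1 by field_simp,
        Real.rpow_one] at e3
    have e2 : (q : ℝ) ^ (-c0) ≤ (q : ℝ) ^ (-(c / 2)) * ((q : ℝ) ^ (-(c / 4)) / 2) := by
      rw [← mul_div_assoc, ← Real.rpow_add R0, le_div_iff₀ two_pos]
      refine (mul_le_mul_of_nonneg_left e1 (by positivity)).trans ?_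
      rw [← Real.rpow_add R0]
      exact Real.rpow_le_rpow_of_exponent_le R1 (by linarith)
    refine e2.trans ((mul_le_mul_of_nonneg_left hb0 (by positivity)).trans ?_)
    rw [← mul_div_assoc, mul_sum]
    refine div_le_div_of_nonneg_right (sum_le_sum fun w hw => ?_) N0.le
    obtain ⟨m3, m4, -⟩ := mV w hw
    have e3 : ∀ r : ι → Xn q, (fun k => ((g w • r) k).1) =
        fun k => {v | (η w k).adjugate *ᵥ v ∈ (σ r k).1} := fun r => funext fun k => by
      have e4 : xgbM q (η w k).adjugate * xgbM q (η w k) = (n w : ZMod q) • 1 := by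
        rw [xgbM, xgbM, RingHom.map_adjugate, Matrix.adjugate_mul, ← (hn w m3).2 k, ← xgb_det]
        rfl
      have e5 : xgbM q (η w k) * ((s w)⁻¹ • (E' b0 * (((g w k)⁻¹ : GQ q) : MQ q))) = 1 := by
        rw [(hg w m3).2 k, m4, smul_mul_smul_comm, mul_inv_cancel₀ (hg w m3).1, one_smul,
          ← mul_assoc, mul_assoc _ (E b0), (hE b0).1, mul_one,
          ← Matrix.SpecialLinearGroup.coe_mul, mul_inv_cancel, Matrix.SpecialLinearGroup.coe_one]
      have e6 : xgbM q (η w k).adjugate =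
          ((n w : ZMod q) * (s w)⁻¹) • (E' b0 * (((g w k)⁻¹ : GQ q) : MQ q)) := by
        rw [← mul_one (xgbM q (η w k).adjugate), ← e5, ← mul_assoc, e4, smul_mul_assoc, one_mul,
          smul_smul]
      rw [← xgb_Pint _ (isl _), e6, xgb_Psmul (mul_ne_zero (n0 w m3) (inv_ne_zero (hg w m3).1)) _
        (isl _)]
      change xgbP (((g w k)⁻¹ : GQ q) : MQ q) (r k).1 = xgbP _ (xgbP (E b0) (r k).1)
      rw [xgb_PP, ← mul_assoc, (hE b0).1, one_mul]
    simp only [e3]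
    rw [sF fun y => F y * Real.sqrt (μ' fun k => {v | (η w k).adjugate *ᵥ v ∈ y k}), mul_sum]
    refine le_trans (sum_le_sum fun y hy => ?_) (sum_le_sum_of_subset_of_nonneg
      (fun y hy => (hY w m3 y hy).1) fun y _ _ => mul_nonneg (F0 y) (Real.sqrt_nonneg _))
    obtain ⟨-, a1, a2⟩ := hY w m3 y hy
    simp only [F, if_pos a1]
    refine le_trans (le_of_eq ?_)
      (mul_le_mul_of_nonneg_left (Real.sqrt_le_sqrt a2) (Real.sqrt_nonneg _))
    rw [Real.sqrt_mul (by positivity), Real.sqrt_eq_rpow ((q : ℝ) ^ (-c)), ← Real.rpow_mul R0.le,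
      mul_left_comm, Real.mul_self_sqrt (hμ y).1]
    congr 2
    ring

theorem card_Pj {q : ℕ} (hq : q.Prime) (T : Finset M2) (h : ∀ η ∈ T, ¬ (q : ℤ) ∣ η.det) :
    #(T.image (Pj q)) ≤ q ^ 3 := by
  have := Fact.mk hq
  let Φ : ZMod q × ZMod q × ZMod q → Set M2 := fun z => {ξ | ∃ r : ZMod q, xgbM q ξ =
    r • (if z.2.2 = 0 then !![0, 1; z.1, z.2.1] else !![1, z.1; z.2.1, z.1 * z.2.1 + z.2.2])}
  have h1 : T.image (Pj q) ⊆ univ.image Φ := by
    intro S hS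
    obtain ⟨η, hη, rfl⟩ := mem_image.1 hS
    have hd := h η hη
    rw [← ZMod.intCast_zmod_eq_zero_iff_dvd, ← xgb_det, Matrix.det_fin_two] at hd
    obtain ⟨M, hM⟩ : ∃ M, M = xgbM q η := ⟨_, rfl⟩
    rw [← hM] at hd
    by_cases h0 : M 0 0 = 0
    · have h1 : M 0 1 ≠ 0 := fun e => hd (by rw [h0, e]; ring)
      refine mem_image.2 ⟨(M 1 0 / M 0 1, M 1 1 / M 0 1, 0), mem_univ _, (xgb_Pjeq h1 ?_).symm⟩
      rw [← hM, if_pos rfl]
      ext i j
      fin_cases i <;> fin_cases j <;> simp [h0] <;> field_simp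
    · have h1 : (M 0 0 * M 1 1 - M 0 1 * M 1 0) / M 0 0 ^ 2 ≠ 0 := div_ne_zero hd (pow_ne_zero _ h0)
      refine mem_image.2 ⟨(M 0 1 / M 0 0, M 1 0 / M 0 0,
        (M 0 0 * M 1 1 - M 0 1 * M 1 0) / M 0 0 ^ 2), mem_univ _, (xgb_Pjeq h0 ?_).symm⟩
      rw [← hM, if_neg h1]
      ext i j
      fin_cases i <;> fin_cases j <;> simp <;> field_simp
      ring
  refine (card_le_card h1).trans (card_image_le.trans (le_of_eq ?_))
  simp only [card_univ, Fintype.card_prod, ZMod.card]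
  ring

end Pool.Agent.EQ
end
end

-- part Pool.Agent.P.MP_ad7a55_nt.YFj
section

/-! The group lemma with a small power saving. -/

set_option autoImplicit false

noncomputable section

open Finset
open scoped Pointwise MatrixGroups Classical

namespace Pool.Agent.EQ

theorem yfj_par (m r : ℕ) {e d : ℝ} (he : 0 < e) (hd : 0 < d) :
    ∃ (κ c : ℝ) (I q₀ : ℕ), 0 < c ∧
    κ * (103 * r + 52 : ℕ) ≤ d / 4 ∧ κ * (63 : ℕ) ≤ d / 4 ∧ κ * (63 : ℕ) ≤ e / 2 ∧
    (3 * m : ℕ) + 1 ≤ κ / 2 * I ∧ c * (2 ^ (I + 1) : ℕ) = d / 8 ∧ ∀ q : ℕ, q₀ ≤ q → 5 < q ∧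
      64 ≤ (q : ℝ) ^ (κ / 2) ∧ 3 ≤ (q : ℝ) ^ (e / 2) ∧ 4 ≤ (q : ℝ) ^ (1 / 2 : ℝ) := by
  have hr : (0 : ℝ) ≤ r := Nat.cast_nonneg r
  obtain ⟨κ, k0, k1, k2⟩ : ∃ κ : ℝ, 0 < κ ∧ κ * (103 * r + 63) ≤ d / 4 ∧ κ * 63 ≤ e / 2 := by
    refine ⟨min (d / 4 / (103 * r + 63)) (e / 126), by positivity, ?_, ?_⟩
    · exact (le_div_iff₀ (by positivity)).1 (min_le_left _ _)
    · linarith [min_le_right (d / 4 / (103 * r + 63) : ℝ) (e / 126)]
  have t : ∀ y : ℝ, 0 < y → ∀ b : ℝ, ∀ᶠ q : ℕ in Filter.atTop, b ≤ (q : ℝ) ^ y := fun y hy b =>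
    ((tendsto_rpow_atTop hy).comp tendsto_natCast_atTop_atTop).eventually_ge_atTop b
  obtain ⟨q₀, hq⟩ := Filter.eventually_atTop.1 ((Filter.eventually_gt_atTop 5).and
    ((t _ (half_pos k0) 64).and ((t _ (half_pos he) 3).and (t (1 / 2) (by norm_num) 4))))
  obtain ⟨I, hI⟩ := exists_nat_ge ((((3 * m : ℕ) : ℝ) + 1) / (κ / 2))
  refine ⟨κ, d / 8 / (2 ^ (I + 1) : ℕ), I, q₀, by positivity, ?_, ?_, ?_, ?_,
    div_mul_cancel₀ _ (by positivity), hq⟩
  · push_cast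
    nlinarith
  · push_cast
    nlinarith
  · exact_mod_cast k2
  · rw [div_le_iff₀ (half_pos k0)] at hI
    linarith

theorem group_lemma6 (ι : Type) [Fintype ι] {e c₀ : ℝ} (he : 0 < e) (hc₀ : 0 < c₀) :
    ∃ (c : ℝ) (q₀ : ℕ), 0 < c ∧
    ∀ (q : ℕ) [Fact q.Prime], q₀ ≤ q → ∀ (Y : Type) [Fintype Y] [Nonempty Y]
      [MulAction (ι → GQ q) Y] [MulAction.IsPretransitive (ι → GQ q) Y] (ρ : (ι → GQ q) → ℝ)
      (f f' : Y → ℝ), (∀ g, 0 ≤ ρ g) → ∑ g, ρ g ≤ 1 →
      (∀ k w, ∑ g with g k = w, ρ g ≤ (q : ℝ) ^ (c - 3)) → (∀ y, 0 ≤ f y) → n2 f ≤ 1 → n2 f' ≤ 1 →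
      (∑ y, f y) ^ 2 ≤ (q : ℝ) ^ (-c₀) * Fintype.card Y → (q : ℝ) ^ (-c) ≤ cor ρ f f' →
      ∃ k l, k ≠ l ∧ ∃ X X' : MQ q, X.det ≠ 0 ∧
        (q : ℝ) ^ (-e) ≤ ∑ g with (g l : MQ q) * X = X' * (g k : MQ q), ρ g := by
  obtain ⟨r, hr⟩ := agour ι
  obtain ⟨d, d0, d1, d2⟩ : ∃ d : ℝ, 0 < d ∧ d ≤ c₀ ∧ d ≤ 1 / 2 :=
    ⟨min c₀ (1 / 2), lt_min hc₀ (by norm_num), min_le_left _ _, min_le_right _ _⟩
  obtain ⟨κ, c, I, q₀, c0, k1, k2, k3, k4, hc, hq⟩ := yfj_par (Fintype.card ι) r he d0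
  refine ⟨c, q₀, c0, ?_⟩
  intro q _ hq0 Y _ _ _ _ ρ f f' h0 h1 hk hf0 hf hf' hs hcor
  obtain ⟨q5, q1, q2, q3⟩ := hq q hq0
  have Q1 : (1 : ℝ) < q := by exact_mod_cast (by omega : 1 < q)
  have Q0 : (0 : ℝ) < q := by linarith
  have pw : ∀ y : ℝ, 0 < (q : ℝ) ^ y := fun y => Real.rpow_pos_of_pos Q0 y
  have mono : ∀ {y z : ℝ}, y ≤ z → (q : ℝ) ^ y ≤ (q : ℝ) ^ z := fun h =>
    Real.rpow_le_rpow_of_exponent_le Q1.le h
  have c16 : ∀ j, j ≤ I + 1 → c * (2 ^ j : ℕ) ≤ d / 8 := fun j hj => by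
    rw [← hc]
    exact mul_le_mul_of_nonneg_left
      (by exact_mod_cast Nat.pow_le_pow_right (by norm_num) hj) c0.le
  have hlow : ∀ i, i ≤ I → (q : ℝ) ^ (-(d / 8) : ℝ) ≤ cor (cit ρ i) f f := fun i hi => by
    refine le_trans ?_ ((pow_le_pow_left₀ (pw _).le hcor _).trans (cor_cit hf hf' ρ i))
    rw [← Real.rpow_mul_natCast Q0.le]
    exact mono (by linarith [c16 (i + 1) (by omega)])
  set K : ℝ := (q : ℝ) ^ κ / 64 with hK
  have K1 : (q : ℝ) ^ (κ / 2) ≤ K := by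
    have e1 : (q : ℝ) ^ κ = (q : ℝ) ^ (κ / 2) * (q : ℝ) ^ (κ / 2) := by
      rw [← Real.rpow_add Q0, add_halves]
    rw [hK, e1, le_div_iff₀ (by norm_num)]
    exact mul_le_mul_of_nonneg_left q1 (pw _).le
  have K2 : ∀ n : ℕ, (64 * K) ^ n = (q : ℝ) ^ (κ * n) := fun n => by
    rw [Real.rpow_mul_natCast Q0.le, hK, mul_div_cancel₀ _ (by norm_num)]
  have hG : (Fintype.card (ι → GQ q) : ℝ) ≤ (q : ℝ) ^ ((3 * Fintype.card ι : ℕ) : ℝ) := by
    rw [Real.rpow_natCast, Fintype.card_fun, pow_mul]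
    exact_mod_cast Nat.pow_le_pow_left card_GQ _
  obtain ⟨i, hi, n0, hn⟩ := flat h0 h1 (K := K) (by linarith) (pw (-(d / 8))) I
    ((hlow I le_rfl).trans (cor_le_sum (cit_nonneg h0 I) hf)) (by
      refine hG.trans_lt (lt_of_lt_of_le ?_ (mul_le_mul_of_nonneg_right
        (pow_le_pow_left₀ (pw _).le K1 I) (sq_nonneg _)))
      rw [← Real.rpow_mul_natCast Q0.le, ← Real.rpow_mul_natCast Q0.le, ← Real.rpow_add Q0]
      refine Real.rpow_lt_rpow_of_exponent_lt Q1 ?_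
      push_cast at k4 ⊢
      linarith)
  obtain ⟨S, b, s1, s2, s3, s4⟩ := xfj_struct (cit_nonneg h0 i) (cit_sum h0 h1 i) (cit_symm ρ i)
    (K := K) (by linarith) n0 hn
  rw [K2] at s3
  have hT : ∀ k w, ∃ s ∈ S ^ 3, s k = w := by
    intro k w
    have a1 := xfj_fib (cit_nonneg h0 i) (A := fun x => x * b⁻¹ ∈ S) (fun x => (x * b⁻¹) k)
      (S.image fun x => x k) (fun g hg => mem_image_of_mem _ hg) (s := (q : ℝ) ^ (c - 3)) fun t =>
        (xfj_mono (cit_nonneg h0 i) fun _ h => h).trans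
          (cit_set h0 h1 (fun x => (x * b⁻¹) k = t) (fun w =>
            (xfj_mono h0 (B := fun g => g k = (w k)⁻¹ * t * b k) fun g hg => by
              rw [← hg, Pi.mul_apply, Pi.mul_apply, Pi.inv_apply]
              group).trans (hk k _)) i)
    have a2 : (q : ℝ) ^ (17 / 6 : ℝ) ≤ #(S.image fun x => x k) := by
      have a3 := s3.trans (mul_le_mul_of_nonneg_left a1 (pw _).le)
      have a4 : (q : ℝ) ^ (κ * (63 : ℕ)) * (q : ℝ) ^ (c - 3) * (q : ℝ) ^ (17 / 6 : ℝ) ≤ 1 := by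
        rw [← Real.rpow_add Q0, ← Real.rpow_add Q0, ← Real.rpow_zero q]
        have := c16 1 (by omega)
        push_cast at this
        exact mono (by linarith)
      have a5 := mul_le_mul_of_nonneg_right a3 (pw (17 / 6)).le
      have a6 := mul_le_mul_of_nonneg_left a4
        (Nat.cast_nonneg (α := ℝ) #(S.image fun x => x k))
      linarith
    obtain ⟨_, ha, _, hb, _, hc', rfl⟩ := gowers q5 (S.image fun x => x k) (by
      refine lt_of_lt_of_le ?_ (pow_le_pow_left₀ (pw _).le a2 3)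
      rw [← Real.rpow_mul_natCast Q0.le,
        show (17 / 6 : ℝ) * (3 : ℕ) = 1 / 2 + (8 : ℕ) by norm_num, Real.rpow_add Q0,
        Real.rpow_natCast]
      exact mul_lt_mul_of_pos_right (by linarith) (pow_pos Q0 _)) w
    obtain ⟨x, hx, rfl⟩ := mem_image.1 ha
    obtain ⟨y, hy, rfl⟩ := mem_image.1 hb
    obtain ⟨z, hz, rfl⟩ := mem_image.1 hc'
    exact ⟨x * y * z, by rw [pow_three']; exact mul_mem_mul (mul_mem_mul hx hy) hz, rfl⟩
  rcases hr q q5 S s1 s2 hT with hu | ⟨k, l, hkl, X, hX, hS⟩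
  · exfalso
    have a1 := s4 r
    rw [hu, card_univ, K2] at a1
    have a2 := cor_le_sup (Y := Y) hf0 (cit_le ρ i) (cit_nonneg h0 (i + 1))
    have a3 : (∑ y, f y) ^ 2 / Fintype.card Y ≤ (q : ℝ) ^ (-d) :=
      ((div_le_iff₀ (by exact_mod_cast Fintype.card_pos)).2 hs).trans (mono (by linarith))
    have a4 := (hlow (i + 1) hi).trans (a2.trans (mul_le_mul ((mul_comm _ _).trans_le
      (a1.trans (mono k1))) a3 (by positivity) (pw _).le))
    rw [← Real.rpow_add Q0] at a4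
    exact absurd a4 (Real.rpow_lt_rpow_of_exponent_lt Q1 (by linarith)).not_ge
  · by_contra hcon
    push Not at hcon
    have hd : ((((b l)⁻¹ : GQ q) : MQ q) * X * (b k : MQ q)).det ≠ 0 := by
      rw [Matrix.det_mul, Matrix.det_mul, Matrix.SpecialLinearGroup.det_coe,
        Matrix.SpecialLinearGroup.det_coe, one_mul, mul_one]
      exact hX
    have a1 := cit_set h0 h1 (fun g => Cj X ((g * b⁻¹) k) ((g * b⁻¹) l))
      (s := (q : ℝ) ^ (-e) + (q : ℝ) ^ (-e)) (fun w =>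
        (xfj_two h0 fun g hg => hg.imp (fun h => xfj_alg h)
          fun h => xfj_alg (h.trans (neg_mul _ _).symm)).trans
          (add_le_add (hcon k l hkl _ _ hd).le (hcon k l hkl _ _ hd).le)) i
    have a2 := s3.trans (mul_le_mul (mono k3)
      ((xfj_mono (cit_nonneg h0 i) fun g hg => hS _ hg).trans a1)
      (sum_nonneg fun g _ => cit_nonneg h0 i g) (pw _).le)
    have a3 : (q : ℝ) ^ (e / 2) * ((q : ℝ) ^ (e / 2) * (q : ℝ) ^ (-e)) = 1 := by
      rw [← Real.rpow_add Q0, ← Real.rpow_add Q0, show e / 2 + (e / 2 + -e) = 0 by ring,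
        Real.rpow_zero]
    have a4 := mul_le_mul_of_nonneg_right q2 (mul_pos (pw (e / 2)) (pw (-e))).le
    linarith

end Pool.Agent.EQ
end
end

-- part Pool.Agent.P.MP_ad7a55_nt.HaarB2
section

/-! The invariant probability measure on X. -/

set_option autoImplicit false

noncomputable section

open MeasureTheory Topology Filter UpperHalfPlane
open scoped MatrixGroups ENNReal BoundedContinuousFunction

namespace Pool.Agent.EQ

open ModularGroup in
theorem haarB2_fd_lt_top : volume (fd : Set ℍ) < ⊤ := by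
  rw [volume_eq_lintegral]
  have h1 : IntegrableOn (fun q : ℝ × ℝ => (1 : ℝ) * q.2 ^ (-2 : ℝ))
      (Set.Icc (-(1 / 2) : ℝ) (1 / 2) ×ˢ Set.Ioi (1 / 2 : ℝ)) volume := by
    rw [IntegrableOn, Measure.volume_eq_prod, ← Measure.prod_restrict]
    exact Integrable.mul_prod (f := fun _ : ℝ => (1 : ℝ)) (integrable_const _)
      (integrableOn_Ioi_rpow_of_lt (by norm_num) (by norm_num))
  have h2 := (Complex.volume_preserving_equiv_real_prod.integrableOn_comp_preimage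
    Complex.measurableEquivRealProd.measurableEmbedding).2 h1
  have hs : UpperHalfPlane.coe '' fd ⊆ Complex.measurableEquivRealProd ⁻¹'
      (Set.Icc (-(1 / 2) : ℝ) (1 / 2) ×ˢ Set.Ioi (1 / 2 : ℝ)) := by
    rintro _ ⟨τ, hτ, rfl⟩
    refine ⟨abs_le.1 hτ.2, ?_⟩
    have := three_le_four_mul_im_sq_of_mem_fd hτ
    have := τ.im_pos
    change 1 / 2 < τ.im
    nlinarith
  refine lt_of_le_of_lt (le_of_eq ?_) (h2.mono_set hs).2
  refine setLIntegral_congr_fun (measurableEmbedding_coe.measurableSet_image.2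
    isClosed_fd.measurableSet) ?_
  rintro _ ⟨τ, -, rfl⟩
  have := τ.im_pos
  simp only [Function.comp_apply, one_mul, enorm_eq_nnnorm, ENNReal.coe_inj]
  ext
  change _ = ‖τ.im ^ (-2 : ℝ)‖
  rw [Real.norm_of_nonneg (by positivity), Real.rpow_neg this.le]
  simp [abs_of_pos this]

theorem haarB2_re (c : ℝ) : volume {z : ℂ | z.re = c} = 0 := by
  have := Complex.volume_preserving_equiv_real_prod.measure_preimage_equiv
    (({c} : Set ℝ) ×ˢ (Set.univ : Set ℝ))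
  rw [Measure.volume_eq_prod, Measure.prod_prod, Real.volume_singleton, zero_mul] at this
  rw [← this]
  congr 1
  ext z
  simp

open ModularGroup in
theorem haarB2_fd_diff : volume (fd \ fdo : Set ℍ) = 0 := by
  rw [volume_eq_lintegral]
  refine setLIntegral_measure_zero _ _ (measure_mono_null
    (t := Metric.sphere (0 : ℂ) 1 ∪ ({z : ℂ | z.re = 1 / 2} ∪ {z : ℂ | z.re = -(1 / 2)})) ?_
    (measure_union_null (Measure.addHaar_sphere _ _ _)
      (measure_union_null (haarB2_re _) (haarB2_re _))))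
  rintro _ ⟨τ, ⟨h1, h2⟩, rfl⟩
  rcases h1.1.eq_or_lt with h | h
  · left
    rw [mem_sphere_zero_iff_norm, ← sq_eq_sq₀ (norm_nonneg _) zero_le_one, Complex.sq_norm, ← h,
      one_pow]
  · right
    exact (abs_eq (by norm_num)).1 (h1.2.antisymm (not_lt.1 fun h' => h2 ⟨h, h'⟩))

theorem haarB2_vol_pos {U : Set ℍ} (hU : IsOpen U) (hne : U.Nonempty) : volume U ≠ 0 := by
  intro h
  have h1 : (volume.comap UpperHalfPlane.coe : Measure ℍ) ≪ volume := by
    refine withDensity_absolutelyContinuous' (Measurable.aemeasurable ?_)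
      (Eventually.of_forall fun z => ?_)
    · have hc : Continuous fun z : ℍ => (NNReal.mk z.im z.im_pos.le : NNReal) :=
        continuous_im.subtype_mk _
      exact measurable_coe_nnreal_ennreal.comp ((measurable_const.div hc.measurable).pow_const 2)
    · have : NNReal.mk z.im z.im_pos.le ≠ 0 := NNReal.ne_iff.mp z.im_ne_zero
      exact ENNReal.coe_ne_zero.2 (pow_ne_zero _ (one_div_ne_zero this))
  have h2 := h1 h
  rw [measurableEmbedding_coe.comap_apply] at h2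
  exact ((isOpenEmbedding_coe.isOpenMap U hU).measure_pos volume (hne.image _)).ne' h2

open ModularGroup in
theorem haarB2_fdo_ne : (fdo : Set ℍ).Nonempty :=
  ⟨⟨2 * Complex.I, by simp⟩, by
    constructor
    · change 1 < Complex.normSq (2 * Complex.I)
      simp; norm_num
    · change |(2 * Complex.I).re| < 1 / 2
      simp⟩

open ModularGroup in
theorem haarB2_inter (B : Set ℍ) : volume (fd ∩ B) = volume (fdo ∩ B) := by
  refine le_antisymm ?_ (measure_mono (Set.inter_subset_inter_left _ fdo_subset_fd))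
  calc volume (fd ∩ B) ≤ volume ((fdo ∩ B) ∪ (fd \ fdo : Set ℍ)) := by
        refine measure_mono fun τ hτ => ?_
        by_cases h : τ ∈ fdo
        · exact Or.inl ⟨h, hτ.2⟩
        · exact Or.inr ⟨hτ.1, h⟩
    _ ≤ volume (fdo ∩ B) + volume (fd \ fdo : Set ℍ) := measure_union_le _ _
    _ = volume (fdo ∩ B) := by rw [haarB2_fd_diff, add_zero]

theorem haarB2_toR_smul (δ : SL(2, ℤ)) (τ : ℍ) : toR δ • τ = δ • τ := rfl

theorem haarB2_cont : Continuous fun g : SL(2, ℝ) => g⁻¹ • UpperHalfPlane.I :=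
  continuous_inv.smul continuous_const

variable (p : ℕ) [Fact p.Prime]

/-- The part of `G` above a subset of `ℍ` and above `K`. -/
def haarB2_S (B : Set ℍ) : Set (GG p) :=
  ((fun g : SL(2, ℝ) => g⁻¹ • UpperHalfPlane.I) ⁻¹' B) ×ˢ (Kp p : Set SL(2, ℚ_[p]))

theorem haarB2_S_meas {B : Set ℍ} (hB : MeasurableSet B) : MeasurableSet (haarB2_S p B) :=
  (haarB2_cont.measurable hB).prod (Kp_open p).measurableSet

theorem haarB2_S_open {B : Set ℍ} (hB : IsOpen B) : IsOpen (haarB2_S p B) :=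
  (hB.preimage haarB2_cont).prod (Kp_open p)

theorem haarB2_piX {g : GG p} (hg : g.2 ∈ Kp p) :
    piX p (g : XX p) = jInv (g.1⁻¹ • UpperHalfPlane.I) := by
  rw [piX, toY_mk p hg, jY_mk]

open ModularGroup in
theorem haarB2_onto (x : XX p) : ∃ g ∈ haarB2_S p fd, (g : XX p) = x := by
  obtain ⟨g, hg, rfl⟩ := exists_rep p x
  obtain ⟨δ, hδ⟩ := exists_smul_mem_fd (g.1⁻¹ • UpperHalfPlane.I)
  refine ⟨g * (toR δ⁻¹, toP p δ⁻¹), ⟨?_, (Kp p).mul_mem hg (toP_mem_Kp p _)⟩,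
    QuotientGroup.mk_mul_of_mem _ (int_mem_Gam p _)⟩
  change (g.1 * toR δ⁻¹)⁻¹ • UpperHalfPlane.I ∈ fd
  rwa [mul_inv_rev, ← map_inv, inv_inv, mul_smul, haarB2_toR_smul]

/-- The element `-1` of `Γ`. -/
def haarB2_neg : Gam p := ⟨(toR (-1), toP p (-1)), int_mem_Gam p _⟩

theorem haarB2_neg_ne : (1 : Gam p) ≠ haarB2_neg p := by
  intro h
  have h1 := congrArg (fun γ : Gam p => (γ : GG p).1 0 0) h
  simp [haarB2_neg, toR] at h1
  norm_num at h1

open ModularGroup in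
theorem haarB2_fib {g : GG p} (hg : g ∈ haarB2_S p fdo) (γ : Gam p) :
    g * γ ∈ haarB2_S p fdo ↔ γ = 1 ∨ γ = haarB2_neg p := by
  constructor
  · intro h
    have hK : (γ : GG p).2 ∈ Kp p := by
      have := (Kp p).mul_mem ((Kp p).inv_mem hg.2) h.2
      simpa using this
    obtain ⟨δ, hδ⟩ := exists_int_of_Gam p γ.2 hK
    have h1 : (g.1 * (γ : GG p).1)⁻¹ • UpperHalfPlane.I ∈ fdo := h.1
    rw [hδ, mul_inv_rev, ← map_inv, mul_smul, haarB2_toR_smul] at h1
    rcases eq_one_or_neg_one_of_mem_fdo_mem_fdo hg.1 h1 with h2 | h2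
    · left
      rw [inv_eq_one] at h2
      apply Subtype.ext
      rw [hδ, h2, map_one, map_one]; rfl
    · right
      have h3 : δ = -1 := by
        rw [inv_eq_iff_mul_eq_one] at h2
        have : -δ = 1 := by simpa using h2
        rw [← this, neg_neg]
      apply Subtype.ext
      rw [hδ, h3]; rfl
  · rintro (rfl | rfl)
    · simpa using hg
    · refine ⟨?_, (Kp p).mul_mem hg.2 (toP_mem_Kp p _)⟩
      change (g.1 * toR (-1))⁻¹ • UpperHalfPlane.I ∈ fdo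
      have h1 : (-1 : SL(2, ℤ))⁻¹ = -1 := inv_eq_of_mul_eq_one_right (by simp)
      rw [mul_inv_rev, ← map_inv, h1, mul_smul, haarB2_toR_smul, SL_neg_smul, one_smul]
      exact hg.1

open ModularGroup in
theorem haarB2_count {g : GG p} (hg : g ∈ haarB2_S p fdo) {g' : GG p}
    (hg' : (g' : XX p) = (g : XX p)) (A : Set ℂ) :
    ∑' γ : Gam p, (haarB2_S p (fdo ∩ jInv ⁻¹' A)).indicator (1 : GG p → ℝ≥0∞) (g' * γ) =
      2 * (piX p ⁻¹' A).indicator 1 (g : XX p) := by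
  classical
  have h0 : g⁻¹ * g' ∈ Gam p := QuotientGroup.eq.1 hg'.symm
  rw [← (Equiv.mulLeft (⟨g⁻¹ * g', h0⟩ : Gam p)⁻¹).tsum_eq]
  have h1 : ∀ γ : Gam p, g' * ((Equiv.mulLeft (⟨g⁻¹ * g', h0⟩ : Gam p)⁻¹ γ : Gam p) : GG p) =
      g * γ := fun γ => by simp [mul_assoc]
  simp only [h1]
  have h2 : ∀ γ : Gam p, g * γ ∈ haarB2_S p (fdo ∩ jInv ⁻¹' A) ↔
      g * γ ∈ haarB2_S p fdo ∧ piX p (g : XX p) ∈ A := fun γ => by
    rw [← QuotientGroup.mk_mul_of_mem g γ.2]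
    constructor
    · intro h
      exact ⟨⟨h.1.1, h.2⟩, by rw [haarB2_piX p h.2]; exact h.1.2⟩
    · intro h
      refine ⟨⟨h.1.1, ?_⟩, h.1.2⟩
      have := h.2
      rwa [haarB2_piX p h.1.2] at this
  rw [tsum_eq_sum (s := {1, haarB2_neg p})]
  · rw [Finset.sum_pair (haarB2_neg_ne p), two_mul]
    by_cases hA : piX p (g : XX p) ∈ A
    · rw [Set.indicator_of_mem ((h2 _).2 ⟨(haarB2_fib p hg _).2 (Or.inl rfl), hA⟩),
        Set.indicator_of_mem ((h2 _).2 ⟨(haarB2_fib p hg _).2 (Or.inr rfl), hA⟩),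
        Set.indicator_of_mem (show (g : XX p) ∈ piX p ⁻¹' A from hA)]
      rfl
    · rw [Set.indicator_of_notMem fun h => hA ((h2 _).1 h).2,
        Set.indicator_of_notMem fun h => hA ((h2 _).1 h).2,
        Set.indicator_of_notMem (show (g : XX p) ∉ piX p ⁻¹' A from hA)]
  · intro γ hγ
    refine Set.indicator_of_notMem (fun h => hγ ?_) _
    simpa using (haarB2_fib p hg γ).1 ((h2 γ).1 h).1

open ModularGroup in
theorem haarB2_main : ∃ (m : Measure (XX p)) (c : ℝ≥0∞), c ≠ 0 ∧ c ≠ ∞ ∧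
    (∀ g, g ∈ Stab (GG p) m) ∧
    ∀ A : Set ℂ, MeasurableSet A → 2 * m (piX p ⁻¹' A) = c * volume (fdo ∩ jInv ⁻¹' A) := by
  have hD : Disc (Gam p) := fun _ => Gam_finite p
  obtain ⟨s, hs⟩ := exists_sec hD
  set μR : Measure SL(2, ℝ) := Measure.haar
  set μP : Measure SL(2, ℚ_[p]) := Measure.haar
  have hR := unimod μR
  have hP := unimod μP
  obtain ⟨c, hc0, hc1, hc⟩ := map_haar μR
  set μ : Measure (GG p) := μR.prod μP with hμ
  have hι : Measurable fun g : GG p => (g, ()) := measurable_id.prodMk measurable_const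
  set ν : Measure (GG p × Unit) := μ.map fun g => (g, ()) with hν
  obtain ⟨ρ, hρ⟩ := exists_lift_eq hD hs ν fun γ _ => by
    rw [hν, Measure.map_map ((measurable_fst.mul_const γ).prodMk measurable_snd) hι]
    conv_rhs => rw [← map_mul_right_eq_self μ γ]
    rw [Measure.map_map hι (measurable_mul_const γ)]
    rfl
  have hS : ∀ B : Set ℍ, MeasurableSet B →
      ν (Prod.fst ⁻¹' haarB2_S p B) = c * μP (Kp p) * volume B := fun B hB => by
    rw [hν, Measure.map_apply hι (measurable_fst (haarB2_S_meas p hB))]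
    change μ (haarB2_S p B) = _
    rw [hμ, haarB2_S, Measure.prod_prod, ← Measure.map_apply haarB2_cont.measurable hB, hc,
      Measure.smul_apply, smul_eq_mul]
    ring
  have hG : IsOpen ((fun g : GG p => (g : XX p)) '' haarB2_S p fdo) :=
    QuotientGroup.isOpenMap_coe _ (haarB2_S_open p isOpen_fdo)
  have hN : ρ (Prod.fst ⁻¹' ((fun g : GG p => (g : XX p)) '' haarB2_S p fdo)ᶜ) = 0 := by
    refine le_antisymm ?_ zero_le
    refine (le_lift hD hs ρ (haarB2_S_meas p isClosed_fd.measurableSet) (haarB2_onto p)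
      (measurable_fst hG.measurableSet.compl)).trans ?_
    rw [hρ]
    refine (measure_mono (t := Prod.fst ⁻¹' haarB2_S p (fd \ fdo)) ?_).trans ?_
    · rintro w ⟨h1, h2⟩
      exact ⟨⟨h1.1, fun h => h2 ⟨w.1, ⟨h, h1.2⟩, rfl⟩⟩, h1.2⟩
    · rw [hS _ (isClosed_fd.measurableSet.diff isOpen_fdo.measurableSet), haarB2_fd_diff, mul_zero]
  refine ⟨ρ.map Prod.fst, c * μP (Kp p), mul_ne_zero hc0
    ((Kp_open p).measure_pos μP ⟨1, (Kp p).one_mem⟩).ne',
    ENNReal.mul_ne_top hc1 (Kp_compact p).measure_lt_top.ne, fun g => ?_, fun A hA => ?_⟩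
  · have h1 := lift_left hD hs ρ g (T := id) measurable_id
    have h2 : ν.map (fun w => (g * w.1, id w.2)) = ν := by
      rw [hν, Measure.map_map ((measurable_fst.const_mul g).prodMk measurable_snd) hι]
      conv_rhs => rw [← map_mul_left_eq_self μ g]
      rw [Measure.map_map hι (measurable_const_mul g)]
      rfl
    rw [hρ, h2, ← hρ] at h1
    have h3 := lift_inj hD hs h1
    rw [mem_Stab]
    conv_rhs => rw [h3]
    have h4 : Measurable fun w : XX p × Unit => (g • w.1, id w.2) :=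
      ((measurable_const_smul g).comp measurable_fst).prodMk measurable_snd
    rw [Measure.map_map (measurable_const_smul g) measurable_fst,
      Measure.map_map measurable_fst h4]
    rfl
  · have hB : MeasurableSet (fdo ∩ jInv ⁻¹' A) :=
      isOpen_fdo.measurableSet.inter (continuous_jInv.measurable hA)
    have hA' : MeasurableSet (piX p ⁻¹' A) := (continuous_piX p).measurable hA
    rw [← hS _ hB, ← hρ, lift_apply hD hs ρ (measurable_fst (haarB2_S_meas p hB)),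
      Measure.map_apply measurable_fst hA', ← lintegral_indicator_one (measurable_fst hA'),
      ← lintegral_const_mul _ (measurable_one.indicator (measurable_fst hA'))]
    refine lintegral_congr_ae ?_
    filter_upwards [measure_eq_zero_iff_ae_notMem.1 hN] with w hw
    obtain ⟨g, hg, hgw⟩ : w.1 ∈ (fun g : GG p => (g : XX p)) '' haarB2_S p fdo := not_not.1 hw
    have h1 := haarB2_count p hg ((hs.2 w.1).trans hgw.symm) A
    have h2 : (g : XX p) = w.1 := hgw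
    rw [h2] at h1
    exact h1.symm

open ModularGroup in
theorem exists_mX : ∃ m : Measure (XX p), IsProbabilityMeasure m ∧ (∀ g, g ∈ Stab (GG p) m) ∧
    m.map (piX p) = mY := by
  obtain ⟨m, c, hc0, hc1, hinv, hm⟩ := haarB2_main p
  have hv0 : volume (fdo : Set ℍ) ≠ 0 := haarB2_vol_pos isOpen_fdo haarB2_fdo_ne
  have hv1 : volume (fdo : Set ℍ) ≠ ∞ := ((measure_mono fdo_subset_fd).trans_lt haarB2_fd_lt_top).ne
  have hv : volume (fd : Set ℍ) = volume (fdo : Set ℍ) := by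
    simpa using haarB2_inter Set.univ
  have key : ∀ A : Set ℂ, MeasurableSet A → ((c * volume (fdo : Set ℍ))⁻¹ * 2) * m (piX p ⁻¹' A) =
      (volume (fdo : Set ℍ))⁻¹ * volume (fdo ∩ jInv ⁻¹' A) := fun A hA => by
    rw [mul_assoc, hm A hA, ENNReal.mul_inv (Or.inl hc0) (Or.inl hc1), mul_comm c⁻¹, mul_assoc,
      ← mul_assoc c⁻¹, ENNReal.inv_mul_cancel hc0 hc1, one_mul]
  refine ⟨((c * volume (fdo : Set ℍ))⁻¹ * 2) • m, ⟨?_⟩, fun g => ?_, ?_⟩
  · have := key Set.univ MeasurableSet.univ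
    rw [Set.preimage_univ, Set.preimage_univ, Set.inter_univ,
      ENNReal.inv_mul_cancel hv0 hv1] at this
    rw [Measure.smul_apply, smul_eq_mul, this]
  · rw [mem_Stab, Measure.map_smul, mem_Stab.1 (hinv g)]
  · ext A hA
    rw [Measure.map_apply (continuous_piX p).measurable hA, Measure.smul_apply, smul_eq_mul,
      key A hA, mY, Measure.map_apply continuous_jInv.measurable hA,
      ProbabilityTheory.cond_apply isClosed_fd.measurableSet, haarB2_inter, hv]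

/-- The invariant probability measure on `X`. -/
def mX : Measure (XX p) := (exists_mX p).choose

instance instProbmX : IsProbabilityMeasure (mX p) := (exists_mX p).choose_spec.1

theorem mX_inv (g : GG p) : (mX p).map (fun x => g • x) = mX p :=
  (exists_mX p).choose_spec.2.1 g

theorem map_piX : (mX p).map (piX p) = mY := (exists_mX p).choose_spec.2.2

instance instSMulInvmX : SMulInvariantMeasure (GG p) (XX p) (mX p) :=
  ⟨fun g s hs => by
    rw [← Measure.map_apply (measurable_const_smul g) hs, mX_inv]⟩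

theorem mX_pos {U : Set (XX p)} (hU : IsOpen U) (hne : U.Nonempty) : mX p U ≠ 0 :=
  (measure_isOpen_pos_of_smulInvariant_of_ne_zero (GG p) (IsProbabilityMeasure.ne_zero _) hU
    hne).ne'

theorem eq_mX_of_R (μ : Measure (XX p)) [IsFiniteMeasure μ]
    (h : ∀ g : SL(2, ℝ), ((g, 1) : GG p) ∈ Stab (GG p) μ) : μ = μ Set.univ • mX p :=
  uniq_inv p μ _ (inv_of_R p μ h) (mX_inv p)

theorem eq_mX_of_P (μ : Measure (XX p)) [IsFiniteMeasure μ]
    (h : ∀ g : SL(2, ℚ_[p]), ((1, g) : GG p) ∈ Stab (GG p) μ) : μ = μ Set.univ • mX p :=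
  uniq_inv p μ _ (inv_of_P p μ h) (mX_inv p)

/-- The product measure on `X^κ`. -/
def mP (κ : Type) [Fintype κ] : Measure (κ → XX p) := Measure.pi fun _ => mX p

instance instProbmP (κ : Type) [Fintype κ] : IsProbabilityMeasure (mP p κ) := by
  unfold mP; infer_instance

end Pool.Agent.EQ
end
end
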