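import Mathlib

/-! The numerical conditions of the adaptive rigidity theorem. -/

set_option autoImplicit false

noncomputable section

open Finset

namespace Pool.Agent.EQ

structure Num6 (m y L u r b n p q₀ C₁ : ℕ) (H Λ θ c e ε C I : ℝ) : Prop where
  y₁ : q₀ ≤ y
  y₂ : 2 ≤ y
  u₁ : 16 ≤ u
  u₂ : (r + 1) ^ 2 ≤ u
  r₀ : 0 < r
  p₁ : r * L ≤ p
  n₁ : (y : ℝ) ^ (-c) ≤ θ ^ 4 / 64
  n₂ : (32 * m * Λ / θ ^ 4) ^ 2 * C * 2 ^ b * 4 ^ (2 * L) * (2 * y : ℝ) ^ (4 * L * ε) + 1 <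
    Real.exp (θ ^ 4 / (64 * m) * b * (c * Real.log y) - b) *
      (θ ^ 4 / 32 * Real.exp (-(2 * I))) ^ 2
  n₃ : (2 * y) ^ (4 * b) ≤ y ^ (2 * L)
  n₄ : 2 ^ L * (16 / (u : ℝ)) ^ ((L : ℝ) / 2) * (2 * y) ^ (3 * b) ≤ 1
  n₅ : (m * b : ℝ) ≤ θ ^ 4 / 64 * n
  n₆ : 8 * (2 * H ^ 2 * (2 * y) ^ L) + 9 ≤ (y : ℝ) ^ (2 * L)
  n₇ : (16 * L + 1 : ℝ) ≤
    ((2 * y : ℝ) ^ (-e) / 8) ^ (r + 1) / 2 * (θ ^ 4 / (64 * (m : ℝ) ^ 2) * n)
  n₈ : 2 * y * ((y : ℝ) ^ (2 * L)) ^ 7 ≤ (y : ℝ) ^ p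
  n₉ : 2 ^ L * (((r : ℝ) + 1) ^ 2 / u) ^ ((L : ℝ) / 2) +
      Λ * (2 * y * ((y : ℝ) ^ (2 * L)) ^ 7) ^ C₁ / (y : ℝ) ^ ((r : ℝ) * L / 2) <
    (((2 * y : ℝ) ^ (-e) / 8) ^ 2 * (θ ^ 4 / 32 * Real.exp (-(2 * I)))) ^ r

theorem ygi_two (L : ℕ) : (2 : ℝ) ^ L ≤ Real.exp L := by
  have h : (2 : ℝ) ≤ Real.exp 1 := by
    have := Real.add_one_le_exp 1
    linarith
  calc (2 : ℝ) ^ L ≤ Real.exp 1 ^ L := pow_le_pow_left₀ (by norm_num) h L
    _ = Real.exp L := by rw [← Real.exp_nat_mul, mul_one]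

theorem ygi_log2 {y : ℝ} (hy : 2 ≤ y) : Real.log (2 * y) ≤ 2 * Real.log y := by
  rw [Real.log_mul (by norm_num) (by linarith)]
  have := Real.log_le_log (by norm_num) hy
  linarith

theorem ygi_pow {y : ℝ} (hy : 0 < y) (k : ℕ) : y ^ k = Real.exp (k * Real.log y) := by
  rw [Real.exp_nat_mul, Real.exp_log hy]

theorem ygi_l2 : Real.log 2 ≤ 1 := by
  have := Real.log_le_sub_one_of_pos (x := 2) (by norm_num)
  linarith

theorem ygi_n1 {y θ c : ℝ} (hy : 0 < y) (hθ : 0 < θ)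
    (h : Real.log (64 / θ ^ 4) ≤ c * Real.log y) : y ^ (-c) ≤ θ ^ 4 / 64 := by
  have h0 : 0 < 64 / θ ^ 4 := by positivity
  rw [Real.rpow_def_of_pos hy]
  calc Real.exp (Real.log y * -c) ≤ Real.exp (-Real.log (64 / θ ^ 4)) :=
        Real.exp_le_exp.2 (by linarith)
    _ = θ ^ 4 / 64 := by rw [Real.exp_neg, Real.exp_log h0, inv_div]

theorem ygi_n2 {L b : ℕ} {m y Λ θ C ε c I φ : ℝ} (hy : 2 ≤ y) (hm : 0 ≤ m) (hθ : 0 < θ)
    (hΛ0 : 0 < Λ) (hΛ : Λ ≤ Real.exp I) (hC : 0 ≤ C) (hε : 0 ≤ ε)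
    (h1 : 32 * L * ε ≤ φ * c * b) (h2 : 24 * I ≤ φ * c * b * Real.log y)
    (h3 : 8 * b + 16 * L ≤ φ * c * b * Real.log y) (hI : Real.log y ≤ I)
    (hD : (32 * m / θ ^ 4) ^ 2 * C + 1 < y * (θ ^ 4 / 32) ^ 2) :
    (32 * m * Λ / θ ^ 4) ^ 2 * C * 2 ^ b * 4 ^ (2 * L) * (2 * y) ^ (4 * L * ε) + 1 <
    Real.exp (φ * b * (c * Real.log y) - b) * (θ ^ 4 / 32 * Real.exp (-(2 * I))) ^ 2 := by
  have hl0 : 0 ≤ Real.log y := Real.log_nonneg (by linarith)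
  have hL0 : (0 : ℝ) ≤ L := Nat.cast_nonneg _
  have hb0 : (0 : ℝ) ≤ b := Nat.cast_nonneg _
  have hI0 : 0 ≤ I := hl0.trans hI
  obtain ⟨S, hS⟩ : ∃ S, S = φ * c * b * Real.log y := ⟨_, rfl⟩
  have hS0 : 0 ≤ S := by rw [hS]; linarith
  obtain ⟨A, hA⟩ : ∃ A, A = 32 * m / θ ^ 4 := ⟨_, rfl⟩
  have hA0 : 0 ≤ A := by rw [hA]; positivity
  have e1 : 32 * m * Λ / θ ^ 4 = A * Λ := by rw [hA]; ring
  have a1 : (2 : ℝ) ^ b ≤ Real.exp b := ygi_two b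
  have a2 : (4 : ℝ) ^ (2 * L) ≤ Real.exp (4 * L) := by
    have := ygi_two (4 * L)
    push_cast at this
    calc (4 : ℝ) ^ (2 * L) = 2 ^ (4 * L) := by
          rw [show (4 : ℝ) = 2 ^ 2 by norm_num, ← pow_mul]; congr 1; ring
      _ ≤ _ := this
  have a3 : (2 * y) ^ (4 * L * ε) ≤ Real.exp (S / 4) := by
    rw [Real.rpow_def_of_pos (by linarith)]
    refine Real.exp_le_exp.2 ?_
    have b1 := mul_le_mul_of_nonneg_right (ygi_log2 hy) (by positivity : 0 ≤ 4 * L * ε)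
    have b2 := mul_le_mul_of_nonneg_right h1 hl0
    rw [← hS] at b2
    linarith
  obtain ⟨E, hE⟩ : ∃ E, E = Real.exp (2 * I + b + 4 * L + S / 4) := ⟨_, rfl⟩
  have hE1 : 1 ≤ E := by rw [hE]; exact Real.one_le_exp (by positivity)
  have a4 : (A * Λ) ^ 2 * C * 2 ^ b * 4 ^ (2 * L) * (2 * y) ^ (4 * L * ε) ≤ A ^ 2 * C * E := by
    calc (A * Λ) ^ 2 * C * 2 ^ b * 4 ^ (2 * L) * (2 * y) ^ (4 * L * ε)
        ≤ (A * Real.exp I) ^ 2 * C * Real.exp b * Real.exp (4 * L) * Real.exp (S / 4) := by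
          gcongr
      _ = A ^ 2 * C * E := by
          rw [hE, show 2 * I = I + I by ring]
          simp only [Real.exp_add]
          ring
  rw [← hA] at hD
  rw [← hS] at h2 h3
  have a5 : y * E ≤ Real.exp (φ * b * (c * Real.log y) - b) *
      (Real.exp (-(2 * I)) * Real.exp (-(2 * I))) := by
    have e2 : y * E = Real.exp (Real.log y) * E := by rw [Real.exp_log (by linarith)]
    rw [e2, hE]
    simp only [← Real.exp_add]
    refine Real.exp_le_exp.2 ?_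
    have e3 : φ * b * (c * Real.log y) = S := by rw [hS]; ring
    rw [e3]
    linarith
  have a6 := mul_le_mul_of_nonneg_right a5 (by positivity : 0 ≤ (θ ^ 4 / 32) ^ 2)
  have a7 := mul_lt_mul_of_pos_right hD (by linarith : 0 < E)
  rw [e1]
  calc _ ≤ A ^ 2 * C * E + E := by linarith
    _ = (A ^ 2 * C + 1) * E := by ring
    _ < y * (θ ^ 4 / 32) ^ 2 * E := a7
    _ = y * E * (θ ^ 4 / 32) ^ 2 := by ring
    _ ≤ _ := a6
    _ = _ := by ring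

theorem ygi_n3 {y L b : ℕ} (hy : 2 ≤ y) (hb : 4 * b ≤ L) : (2 * y) ^ (4 * b) ≤ y ^ (2 * L) := by
  calc (2 * y) ^ (4 * b) ≤ (y * y) ^ (4 * b) := by gcongr
    _ = y ^ (8 * b) := by rw [← pow_two, ← pow_mul]; congr 1; ring
    _ ≤ y ^ (2 * L) := Nat.pow_le_pow_right (by omega) (by omega)

theorem ygi_n4 {L b : ℕ} {y u t : ℝ} (hy : 2 ≤ y) (hu : 0 < u) (hl : 4 * t - 1 ≤ Real.log u)
    (ht : 4 ≤ t) (hb : 6 * (b * Real.log y) ≤ L * t) :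
    2 ^ L * (16 / u) ^ ((L : ℝ) / 2) * (2 * y) ^ (3 * b) ≤ 1 := by
  have hL0 : (0 : ℝ) ≤ L := Nat.cast_nonneg _
  have hb0 : (0 : ℝ) ≤ b := Nat.cast_nonneg _
  have e2 : (16 / u) ^ ((L : ℝ) / 2) = Real.exp ((4 * Real.log 2 - Real.log u) * (L / 2)) := by
    rw [Real.rpow_def_of_pos (by positivity), Real.log_div (by norm_num) (by linarith),
      show (16 : ℝ) = 2 ^ 4 by norm_num, Real.log_pow, Nat.cast_ofNat]
  rw [ygi_pow (y := 2) (by norm_num), e2, ygi_pow (y := 2 * y) (by linarith), ← Real.exp_add,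
    ← Real.exp_add, Real.exp_le_one_iff]
  push_cast
  have b1 := mul_le_mul_of_nonneg_left (ygi_log2 hy) hb0
  have b2 := mul_le_mul_of_nonneg_left hl hL0
  have b3 := mul_le_mul_of_nonneg_left ygi_l2 hL0
  have b4 := mul_le_mul_of_nonneg_left ht hL0
  linarith

theorem ygi_n6 {L : ℕ} {y H : ℝ} (hL : 1 ≤ L) (hy : 2 * (16 * H ^ 2 + 9) ≤ y) :
    8 * (2 * H ^ 2 * (2 * y) ^ L) + 9 ≤ y ^ (2 * L) := by
  obtain ⟨K, hK⟩ : ∃ K, K = 16 * H ^ 2 + 9 := ⟨_, rfl⟩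
  rw [← hK] at hy
  have hK1 : 9 ≤ K := by have := sq_nonneg H; linarith
  have h1 : (1 : ℝ) ≤ (2 * y) ^ L := one_le_pow₀ (by linarith)
  have h2 : K ≤ K ^ L := le_self_pow₀ (by linarith) (by omega)
  have hy0 : 0 ≤ y := by linarith
  calc 8 * (2 * H ^ 2 * (2 * y) ^ L) + 9 ≤ 16 * H ^ 2 * (2 * y) ^ L + 9 * (2 * y) ^ L := by
        linarith
    _ = K * (2 * y) ^ L := by rw [hK]; ring
    _ ≤ K ^ L * (2 * y) ^ L := by gcongr
    _ = (2 * K * y) ^ L := by rw [← mul_pow]; congr 1; ring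
    _ ≤ (y * y) ^ L := by gcongr
    _ = y ^ (2 * L) := by rw [← pow_two, ← pow_mul]

theorem ygi_G {k : ℕ} {y e s : ℝ} (hy : 2 ≤ y) (he : 0 ≤ e) (h : 2 * (e * k) * Real.log y ≤ s) :
    Real.exp (-s) ≤ ((2 * y) ^ (-e)) ^ k := by
  rw [Real.rpow_def_of_pos (by linarith), ← Real.exp_nat_mul]
  refine Real.exp_le_exp.2 ?_
  have := mul_le_mul_of_nonneg_left (ygi_log2 hy) (by positivity : 0 ≤ e * k)
  linarith

theorem ygi_n7 {k : ℕ} {L G w γ n B : ℝ} (hw : 1 ≤ w) (hL1 : 1 ≤ L) (hL : L ≤ B * w ^ 2)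
    (hG0 : 0 ≤ G) (hG : (w ^ 2)⁻¹ ≤ G ^ k) (hγ : 0 < γ) (hn : w ^ 8 / 4 ≤ n)
    (hB : 136 * B * 8 ^ k ≤ γ * w) : 16 * L + 1 ≤ (G / 8) ^ k / 2 * (γ * n) := by
  have h8 : (0 : ℝ) < 8 ^ k := by positivity
  have h1 : (w ^ 2)⁻¹ / 8 ^ k / 2 * (γ * (w ^ 8 / 4)) ≤ (G / 8) ^ k / 2 * (γ * n) := by
    rw [div_pow]
    gcongr
  have h2 : (w ^ 2)⁻¹ / 8 ^ k / 2 * (γ * (w ^ 8 / 4)) = γ * w * w ^ 5 / (8 * 8 ^ k) := by
    field_simp
    ring
  have h3 : w ^ 2 ≤ w ^ 5 := pow_le_pow_right₀ hw (by norm_num)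
  have hB0 : 0 ≤ B := by
    by_contra h
    have := mul_nonpos_of_nonpos_of_nonneg (not_le.1 h).le (by positivity : 0 ≤ w ^ 2)
    linarith
  have h4 : 17 * (B * w ^ 2) ≤ γ * w * w ^ 5 / (8 * 8 ^ k) := by
    rw [le_div_iff₀ (by positivity)]
    calc 17 * (B * w ^ 2) * (8 * 8 ^ k) = 136 * B * 8 ^ k * w ^ 2 := by ring
      _ ≤ γ * w * w ^ 5 := by gcongr
  linarith

theorem ygi_Z {L k : ℕ} {y : ℝ} (hy : 2 ≤ y) (h : 14 * L + 2 ≤ k) :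
    2 * y * (y ^ (2 * L)) ^ 7 ≤ y ^ k := by
  calc 2 * y * (y ^ (2 * L)) ^ 7 ≤ y * y * (y ^ (2 * L)) ^ 7 := by gcongr
    _ = y ^ (14 * L + 2) := by ring
    _ ≤ y ^ k := pow_le_pow_right₀ (by linarith) h

theorem ygi_n9 {L r C₁ : ℕ} {y u t I Λ G θ : ℝ} (hr : r = 32 * C₁ + 4) (hθ : 0 < θ)
    (hy : 2 ≤ y) (hL : 1 ≤ L) (hu : 0 < u) (hl : 4 * t - 1 ≤ Real.log u) (ht : r + 2 ≤ t)
    (h1 : 6 * (r * I) ≤ L * t) (h2 : 6 * (r * I) ≤ L * Real.log y) (hI : Real.log y ≤ I)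
    (hΛ : Λ ≤ Real.exp I) (hG : Real.exp (-I) ≤ G ^ (2 * r))
    (hD : 2 < y * (θ ^ 4 / 2048) ^ r) :
    2 ^ L * (((r : ℝ) + 1) ^ 2 / u) ^ ((L : ℝ) / 2) +
      Λ * (2 * y * (y ^ (2 * L)) ^ 7) ^ C₁ / y ^ ((r : ℝ) * L / 2) <
    ((G / 8) ^ 2 * (θ ^ 4 / 32 * Real.exp (-(2 * I)))) ^ r := by
  have hr0 : (4 : ℝ) ≤ r := by
    have : 4 ≤ r := by omega
    exact_mod_cast this
  have hL0 : (0 : ℝ) ≤ L := Nat.cast_nonneg _
  have hy0 : 0 < y := by linarith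
  have hl0 : 0 ≤ Real.log y := Real.log_nonneg (by linarith)
  have hI0 : 0 ≤ I := hl0.trans hI
  have hrI : 4 * I ≤ r * I := mul_le_mul_of_nonneg_right hr0 hI0
  have a1 : 2 ^ L * (((r : ℝ) + 1) ^ 2 / u) ^ ((L : ℝ) / 2) ≤ Real.exp (-(5 * (r * I))) := by
    have e2 : (((r : ℝ) + 1) ^ 2 / u) ^ ((L : ℝ) / 2) =
        Real.exp ((2 * Real.log (r + 1) - Real.log u) * (L / 2)) := by
      rw [Real.rpow_def_of_pos (by positivity), Real.log_div (by positivity) (by linarith),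
        Real.log_pow, Nat.cast_ofNat]
    rw [ygi_pow (y := 2) (by norm_num), e2, ← Real.exp_add]
    refine Real.exp_le_exp.2 ?_
    have b0 : Real.log (r + 1) ≤ r := by
      have := Real.log_le_sub_one_of_pos (x := (r : ℝ) + 1) (by linarith)
      linarith
    have b1 := mul_le_mul_of_nonneg_left b0 hL0
    have b2 := mul_le_mul_of_nonneg_left hl hL0
    have b3 := mul_le_mul_of_nonneg_left ygi_l2 hL0
    have b4 := mul_le_mul_of_nonneg_left ht hL0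
    linarith
  have e1 : y ^ ((r : ℝ) * L / 2) = (y ^ (16 * L)) ^ C₁ * y ^ (2 * L) := by
    rw [← pow_mul, ← pow_add, ← Real.rpow_natCast]
    congr 1
    rw [hr]
    push_cast
    ring
  have a2 : Λ * (2 * y * (y ^ (2 * L)) ^ 7) ^ C₁ / y ^ ((r : ℝ) * L / 2) ≤
      Real.exp (-(5 * (r * I))) := by
    have b1 : (2 * y * (y ^ (2 * L)) ^ 7) ^ C₁ ≤ (y ^ (16 * L)) ^ C₁ :=
      pow_le_pow_left₀ (by positivity) (ygi_Z hy (by omega)) _
    have b2 : Real.exp I ≤ Real.exp (-(5 * (r * I))) * y ^ (2 * L) := by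
      rw [ygi_pow hy0, ← Real.exp_add]
      refine Real.exp_le_exp.2 ?_
      push_cast
      linarith
    rw [e1, div_le_iff₀ (by positivity)]
    calc Λ * (2 * y * (y ^ (2 * L)) ^ 7) ^ C₁ ≤ Real.exp I * (y ^ (16 * L)) ^ C₁ := by gcongr
      _ ≤ Real.exp (-(5 * (r * I))) * y ^ (2 * L) * (y ^ (16 * L)) ^ C₁ := by gcongr
      _ = _ := by ring
  have e3 : ((G / 8) ^ 2 * (θ ^ 4 / 32 * Real.exp (-(2 * I)))) ^ r =
      G ^ (2 * r) * Real.exp (r * -(2 * I)) * (θ ^ 4 / 2048) ^ r := by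
    rw [Real.exp_nat_mul, pow_mul, ← mul_pow, ← mul_pow]
    congr 1
    ring
  have hp : 0 < (θ ^ 4 / 2048) ^ r := by positivity
  have a3 : y * Real.exp (-(5 * (r * I))) ≤ Real.exp (-I) * Real.exp (r * -(2 * I)) := by
    have e2 : y * Real.exp (-(5 * (r * I))) = Real.exp (Real.log y) * Real.exp (-(5 * (r * I))) := by
      rw [Real.exp_log hy0]
    rw [e2, ← Real.exp_add, ← Real.exp_add]
    exact Real.exp_le_exp.2 (by linarith)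
  rw [e3]
  calc _ ≤ 2 * Real.exp (-(5 * (r * I))) := by linarith
    _ < y * (θ ^ 4 / 2048) ^ r * Real.exp (-(5 * (r * I))) := by gcongr
    _ = y * Real.exp (-(5 * (r * I))) * (θ ^ 4 / 2048) ^ r := by ring
    _ ≤ Real.exp (-I) * Real.exp (r * -(2 * I)) * (θ ^ 4 / 2048) ^ r := by gcongr
    _ ≤ _ := by gcongr

theorem ygi_B {L m : ℕ} {y H : ℝ} (hH : 0 ≤ H) (hL : 1 ≤ L) (hy2 : 2 ≤ y) (hy : 2 * H + 1 ≤ y) :
    ((2 * H * Real.sqrt ((2 * y) ^ L) + 1) ^ 4) ^ (2 * m) ≤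
      Real.exp (16 * m * (L * Real.log y)) := by
  have hy0 : 0 < y := by linarith
  have h1 : y ≤ y ^ L := le_self_pow₀ (by linarith) (by omega)
  have h2 : Real.sqrt ((2 * y) ^ L) ≤ y ^ L := by
    refine Real.sqrt_le_iff.2 ⟨by positivity, ?_⟩
    calc (2 * y) ^ L ≤ (y * y) ^ L := by gcongr
      _ = (y ^ L) ^ 2 := by rw [mul_pow, pow_two]
  have h3 : 2 * H * Real.sqrt ((2 * y) ^ L) + 1 ≤ y ^ (2 * L) := by
    calc 2 * H * Real.sqrt ((2 * y) ^ L) + 1 ≤ 2 * H * y ^ L + y ^ L := by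
          gcongr
          linarith
      _ = (2 * H + 1) * y ^ L := by ring
      _ ≤ y ^ L * y ^ L := by
          gcongr
          linarith
      _ = y ^ (2 * L) := by rw [two_mul, pow_add]
  calc _ ≤ ((y ^ (2 * L)) ^ 4) ^ (2 * m) := by gcongr
    _ = _ := by
        rw [← pow_mul, ← pow_mul, ygi_pow hy0]
        congr 1
        push_cast
        ring

theorem num6 {m : ℕ} (C₁ q₀ : ℕ) (hm : 0 < m) {θ₀ θ c : ℝ} (hθ₀ : 0 < θ₀) (hθ₀' : θ₀ ≤ 1)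
    (hθ : 0 < θ) (hθ' : θ ≤ 1) (hc : 0 < c) (hc' : c ≤ 1) : ∃ ε K : ℝ, 0 < ε ∧ 1 ≤ K ∧
    ∀ H C : ℝ, 0 ≤ H → 0 ≤ C → ∃ y₀ : ℕ, ∀ (y p n : ℕ) (Λ I : ℝ), y₀ ≤ y → Real.log y ≤ I →
      0 < Λ → Λ ≤ Real.exp I → I ≤ (y : ℝ) ^ (θ₀ / 4) → K * I ≤ p * Real.log y →
      (y : ℝ) ^ θ₀ / 4 ≤ n → ∃ L u b : ℕ, (L * u : ℝ) ≤ (y : ℝ) ^ θ₀ / 4 ∧
        Real.exp (2 * I) * ((2 * H * Real.sqrt ((2 * y) ^ L) + 1) ^ 4) ^ (2 * m) ≤
          Real.exp (K * I) ∧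
        Num6 m y L u (32 * C₁ + 4) b n p q₀ C₁ H Λ θ c (θ₀ / (8 * (32 * C₁ + 5))) ε C I := by
  have hm1 : (1 : ℝ) ≤ m := by exact_mod_cast hm
  obtain ⟨r, hr⟩ : ∃ r, r = 32 * C₁ + 4 := ⟨_, rfl⟩
  have hr' : (32 * C₁ + 5 : ℝ) = r + 1 := by rw [hr]; push_cast; ring
  have hr0 : (0 : ℝ) ≤ r := Nat.cast_nonneg _
  rw [hr', ← hr]
  obtain ⟨φ, hφ⟩ : ∃ φ, φ = θ ^ 4 / (64 * m) := ⟨_, rfl⟩
  have hφ0 : 0 < φ := by rw [hφ]; positivity
  have hφc : 0 < φ * c := mul_pos hφ0 hc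
  obtain ⟨b₀, hb₀⟩ : ∃ b₀ : ℕ, 48 / θ₀ ≤ b₀ := exists_nat_ge _
  rw [div_le_iff₀ hθ₀] at hb₀
  have hb₁ : (48 : ℝ) ≤ b₀ := by
    have := mul_le_mul_of_nonneg_left hθ₀' (Nat.cast_nonneg (α := ℝ) b₀)
    linarith
  have hb₂ : 48 ≤ b₀ := by exact_mod_cast hb₁
  obtain ⟨κ, hκ⟩ : ∃ κ : ℝ, κ = 24 / (φ * c) + r + 1 := ⟨_, rfl⟩
  have hκ0 : 0 < 24 / (φ * c) := by positivity
  have hκ1 : r + 1 ≤ κ := by linarith
  have hκ2 : 24 ≤ φ * c * κ := by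
    have h1 : 24 / (φ * c) ≤ κ := by linarith
    rw [div_le_iff₀ hφc] at h1
    linarith
  obtain ⟨B, hB⟩ : ∃ B : ℝ, B = b₀ * (κ + 1) := ⟨_, rfl⟩
  have hB0 : 0 < B := by rw [hB]; exact mul_pos (by linarith) (by linarith)
  obtain ⟨γ, hγ⟩ : ∃ γ, γ = θ ^ 4 / (64 * (m : ℝ) ^ 2) := ⟨_, rfl⟩
  have hγ0 : 0 < γ := by rw [hγ]; positivity
  refine ⟨φ * c / (32 * b₀), 2 + (16 * m + 16 + r) * B, by positivity, ?_, fun H C hH hC => ?_⟩
  · have : 0 ≤ (16 * m + 16 + r) * B := by positivity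
    linarith
  have ev : ∀ K : ℝ, ∀ᶠ y : ℕ in Filter.atTop, K ≤ (y : ℝ) := fun K =>
    tendsto_natCast_atTop_atTop.eventually_ge_atTop K
  have evl : ∀ K : ℝ, ∀ᶠ y : ℕ in Filter.atTop, K ≤ Real.log y := fun K =>
    (Real.tendsto_log_atTop.comp tendsto_natCast_atTop_atTop).eventually_ge_atTop K
  have evt : ∀ K : ℝ, ∀ᶠ y : ℕ in Filter.atTop, K ≤ θ₀ * Real.log y / 8 := fun K =>
    (evl (8 * K / θ₀)).mono fun y h => by
      rw [div_le_iff₀ hθ₀] at h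
      linarith
  obtain ⟨N, hN⟩ := Filter.eventually_atTop.1 ((Filter.eventually_ge_atTop q₀).and
    ((ev 2).and ((evl 1).and ((evt (r + 4)).and ((evt (4 * B)).and
    ((ev (2 * H + 1)).and ((evl (Real.log (64 / θ ^ 4) / c)).and
    ((evl ((8 + 16 * b₀) / (φ * c))).and
    ((ev (((32 * m / θ ^ 4) ^ 2 * C + 1) / (θ ^ 4 / 32) ^ 2 + 1)).and
    ((evt (256 * m * B / θ ^ 4)).and ((ev (2 * (16 * H ^ 2 + 9))).and
    ((evt (136 * B * 8 ^ (r + 1) / γ)).and (ev (2 / (θ ^ 4 / 2048) ^ r + 1))))))))))))))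
  refine ⟨N, fun y p n Λ I hyN hI hΛ0 hΛ hIy hK hn => ?_⟩
  obtain ⟨c1, c2, c3, c4, c5, hw⟩ := hN y hyN
  replace hw := PLift.up hw
  clear hN ev evl evt hyN
  have hy0 : (0 : ℝ) < y := by linarith
  have hl0 : 0 < Real.log y := by linarith
  have hI0 : 0 < I := by linarith
  obtain ⟨t, ht⟩ : ∃ t, t = θ₀ * Real.log y / 8 := ⟨_, rfl⟩
  obtain ⟨w, hwd⟩ : ∃ w, w = Real.exp t := ⟨_, rfl⟩
  have hwk : ∀ k : ℕ, w ^ k = Real.exp (k * t) := fun k => by rw [hwd, Real.exp_nat_mul]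
  have e2 : (y : ℝ) ^ (θ₀ / 4) = w ^ 2 := by
    rw [hwk, Real.rpow_def_of_pos hy0, ht]; congr 1; push_cast; ring
  have e8 : (y : ℝ) ^ θ₀ = w ^ 8 := by
    rw [hwk, Real.rpow_def_of_pos hy0, ht]; congr 1; push_cast; ring
  rw [e2] at hIy
  rw [e8] at hn ⊢
  rw [← ht] at c4 c5 hw
  have htw : t ≤ w := by
    have := Real.add_one_le_exp t
    linarith
  have hw4 : (r : ℝ) + 4 ≤ w := c4.trans htw
  have hw1 : (1 : ℝ) ≤ w := by linarith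
  obtain ⟨u, hu⟩ : ∃ u, u = ⌊w ^ 4⌋₊ := ⟨_, rfl⟩
  have hu1 : (u : ℝ) ≤ w ^ 4 := by rw [hu]; exact Nat.floor_le (by positivity)
  have hu2 : w ^ 4 < u + 1 := by rw [hu]; exact Nat.lt_floor_add_one _
  have hw24 : w ^ 2 ≤ w ^ 4 := pow_le_pow_right₀ hw1 (by norm_num)
  have hu3 : (r + 4) ^ 2 ≤ u := by
    rw [hu]
    refine Nat.le_floor ?_
    push_cast
    exact (pow_le_pow_left₀ (by linarith) hw4 2).trans hw24
  have hu4 : 16 ≤ u := le_trans (by nlinarith) hu3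
  have hu5 : (16 : ℝ) ≤ u := by exact_mod_cast hu4
  have hlu : 4 * t - 1 ≤ Real.log u := by
    have h1 : w ^ 4 ≤ 2 * u := by linarith
    have h2 := Real.log_le_log (by positivity) h1
    rw [hwk, Real.log_exp, Real.log_mul (by norm_num) (by linarith)] at h2
    have := ygi_l2
    push_cast at h2
    linarith
  obtain ⟨b, hb⟩ : ∃ b, b = ⌈κ * I / Real.log y⌉₊ := ⟨_, rfl⟩
  have hκI : 0 < κ * I := mul_pos (by linarith) hI0
  have hbl : κ * I ≤ b * Real.log y := by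
    rw [← div_le_iff₀ hl0, hb]; exact Nat.le_ceil _
  have hbu : b * Real.log y ≤ (κ + 1) * I := by
    have h1 : (b : ℝ) < κ * I / Real.log y + 1 := by
      rw [hb]; exact Nat.ceil_lt_add_one (by positivity)
    have h2 := mul_le_mul_of_nonneg_right h1.le hl0.le
    rw [add_mul, div_mul_cancel₀ _ hl0.ne'] at h2
    linarith
  have hb1 : 1 ≤ b := by
    rw [hb]; exact Nat.ceil_pos.2 (by positivity)
  have hb0 : (0 : ℝ) ≤ b := Nat.cast_nonneg _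
  obtain ⟨L, hL⟩ : ∃ L, L = b₀ * b := ⟨_, rfl⟩
  have hL' : (L : ℝ) = b₀ * b := by rw [hL]; push_cast; ring
  have hbL : 48 * b ≤ L := by rw [hL]; exact Nat.mul_le_mul_right _ hb₂
  have hbL' : (48 : ℝ) * b ≤ L := by exact_mod_cast hbL
  have hL1 : 1 ≤ L := by omega
  have hL0 : (0 : ℝ) ≤ L := Nat.cast_nonneg _
  have hLu : L * Real.log y ≤ B * I := by
    rw [hL', hB, mul_assoc, mul_assoc]
    exact mul_le_mul_of_nonneg_left hbu (by linarith)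
  have hLw : (L : ℝ) ≤ B * w ^ 2 := by
    have h1 := mul_le_mul_of_nonneg_left c3 hL0
    have h2 := mul_le_mul_of_nonneg_left hIy hB0.le
    linarith
  have hLt : 6 * (b * Real.log y) ≤ L * t := by
    have := mul_le_mul_of_nonneg_right hb₀ (mul_nonneg hb0 hl0.le)
    rw [hL', ht]
    linarith
  have hrI : r * I ≤ b * Real.log y := by
    have := mul_le_mul_of_nonneg_right hκ1 hI0.le
    linarith
  have hp : (16 + r) * L ≤ p := by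
    have h1 : (16 + r) * (L * Real.log y) ≤ (16 + r) * (B * I) :=
      mul_le_mul_of_nonneg_left hLu (by linarith)
    have h2 : 0 ≤ m * (B * I) := by positivity
    have h3 : ((16 + r) * L : ℝ) * Real.log y ≤ p * Real.log y := by linarith
    have h4 := le_of_mul_le_mul_right h3 hl0
    exact_mod_cast h4
  have hp' : 16 * L + r * L ≤ p := by rw [← add_mul]; exact hp
  obtain ⟨e, he⟩ : ∃ e, e = θ₀ / (8 * ((r : ℝ) + 1)) := ⟨_, rfl⟩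
  have he0 : 0 ≤ e := by rw [he]; positivity
  have he1 : e * (r + 1) = θ₀ / 8 := by rw [he]; field_simp
  rw [← he]
  refine ⟨L, u, b, ?_, ?_, c1, by exact_mod_cast c2, hu4, ?_, by omega, by omega, ?_, ?_,
    ygi_n3 (by exact_mod_cast c2) (by omega), ygi_n4 c2 (by linarith) hlu (by linarith) hLt, ?_,
    ygi_n6 hL1 hw.down.2.2.2.2.2.1, ?_, ygi_Z c2 (by omega), ?_⟩
  · have h1 : 4 * B ≤ w := c5.trans htw
    have h2 : w ^ 7 ≤ w ^ 8 := pow_le_pow_right₀ hw1 (by norm_num)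
    calc (L : ℝ) * u ≤ B * w ^ 2 * w ^ 4 := by gcongr
      _ = 4 * B * w ^ 6 / 4 := by ring
      _ ≤ w * w ^ 6 / 4 := by gcongr
      _ = w ^ 7 / 4 := by ring
      _ ≤ w ^ 8 / 4 := by linarith
  · have h1 := ygi_B (m := m) hH hL1 c2 hw.down.1
    refine (mul_le_mul_of_nonneg_left h1 (Real.exp_pos _).le).trans ?_
    rw [← Real.exp_add]
    refine Real.exp_le_exp.2 ?_
    have h2 : 16 * m * (L * Real.log y) ≤ 16 * m * (B * I) :=
      mul_le_mul_of_nonneg_left hLu (by positivity)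
    have h3 : 0 ≤ (16 + r) * (B * I) := by positivity
    linarith
  · exact le_trans (Nat.pow_le_pow_left (by omega) 2) hu3
  · refine ygi_n1 hy0 hθ ?_
    have := hw.down.2.1
    rw [div_le_iff₀ hc] at this
    linarith only [this]
  · rw [← hφ]
    refine ygi_n2 c2 (by linarith) hθ hΛ0 hΛ hC (by positivity) ?_ ?_ ?_ hI ?_
    · rw [hL']
      refine le_of_eq ?_
      field_simp
    · have h1 := mul_le_mul_of_nonneg_left hbl hφc.le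
      have h2 := mul_le_mul_of_nonneg_right hκ2 hI0.le
      linarith only [h1, h2]
    · have h1 := hw.down.2.2.1
      rw [div_le_iff₀ hφc] at h1
      have h2 := mul_le_mul_of_nonneg_left h1 hb0
      rw [hL']
      linarith only [h2]
    · rw [← div_lt_iff₀ (by positivity)]
      have := hw.down.2.2.2.1
      linarith only [this]
  · have h1 := hw.down.2.2.2.2.1.trans htw
    rw [div_le_iff₀ (by positivity)] at h1
    have h2 : w ^ 3 ≤ w ^ 8 := pow_le_pow_right₀ hw1 (by norm_num)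
    have h3 : (b : ℝ) ≤ B * w ^ 2 := by linarith
    calc (m : ℝ) * b ≤ m * (B * w ^ 2) := by gcongr
      _ = 256 * m * B * w ^ 2 / 256 := by ring
      _ ≤ w * θ ^ 4 * w ^ 2 / 256 := by gcongr
      _ = θ ^ 4 / 64 * (w ^ 3 / 4) := by ring
      _ ≤ θ ^ 4 / 64 * n := by
          gcongr
          linarith
  · rw [← hγ]
    refine ygi_n7 hw1 (by exact_mod_cast hL1) hLw (by positivity) ?_ hγ0 hn ?_
    · rw [hwk, ← Real.exp_neg]
      refine ygi_G c2 he0 ?_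
      push_cast
      rw [he1, ht]
      linarith
    · have h1 := hw.down.2.2.2.2.2.2.1.trans htw
      rw [div_le_iff₀ hγ0] at h1
      linarith only [h1]
  · refine ygi_n9 hr hθ c2 hL1 (by linarith) hlu (by linarith) (by linarith) ?_ hI hΛ ?_ ?_
    · have h1 := mul_le_mul_of_nonneg_right hbL' hl0.le
      have h2 : 0 ≤ b * Real.log y := by positivity
      linarith
    · refine ygi_G c2 he0 ?_
      push_cast
      have h1 : 2 * (e * (2 * r)) ≤ 1 := by linarith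
      have h2 := mul_le_mul_of_nonneg_right h1 hl0.le
      linarith
    · rw [← div_lt_iff₀ (by positivity)]
      have := hw.down.2.2.2.2.2.2.2
      linarith only [this]

end Pool.Agent.EQ
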