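import Pool.Agent.K.MP_ad7a55_nt.C26
import Pool.Agent.K.MP_ad7a55_nt.C27
import Pool.Agent.K.MP_ad7a55_nt.C28

-- part Pool.Agent.P.MP_ad7a55_nt.Ord2
section

/-! Imaginary quadratic orders and their invertible modules. -/

set_option autoImplicit false

noncomputable section

open MeasureTheory Topology Filter UpperHalfPlane
open scoped MatrixGroups ENNReal BoundedContinuousFunction

namespace Pool.Agent.EQ

theorem ord2_prim_pos {τ : ℍ} {n m k : ℤ} (hn : 0 < n)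
    (h : (n : ℂ) * (τ : ℂ) ^ 2 + m * τ + k = 0) : ∃ D, HasDisc τ D := by
  obtain ⟨g, hg⟩ : ∃ g : ℕ, g = Int.gcd (Int.gcd n m) k := ⟨_, rfl⟩
  have h1 : (g : ℤ) ∣ (Int.gcd n m : ℤ) := hg ▸ Int.gcd_dvd_left _ _
  obtain ⟨a, ha⟩ : (g : ℤ) ∣ n := h1.trans (Int.gcd_dvd_left _ _)
  obtain ⟨b, hb⟩ : (g : ℤ) ∣ m := h1.trans (Int.gcd_dvd_right _ _)
  obtain ⟨c, hc⟩ : (g : ℤ) ∣ k := hg ▸ Int.gcd_dvd_right _ _
  have hg0 : g ≠ 0 := by
    rintro rfl
    simp at ha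
    omega
  have hgp : (0 : ℤ) < g := by exact_mod_cast Nat.pos_of_ne_zero hg0
  refine ⟨_, a, b, c, (mul_pos_iff_of_pos_left hgp).1 (ha ▸ hn), ?_, ?_, rfl⟩
  · rw [ha, hb, hc, Int.gcd_mul_left, Nat.cast_mul, Int.natAbs_natCast, Int.gcd_mul_left,
      Int.natAbs_natCast] at hg
    exact (Nat.mul_eq_left hg0).1 hg.symm
  · have hg' : (g : ℂ) ≠ 0 := Nat.cast_ne_zero.2 hg0
    apply mul_left_cancel₀ hg'
    rw [ha, hb, hc] at h
    push_cast at h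
    linear_combination h

theorem ord2_prim {τ : ℍ} {n m k : ℤ} (hn : n ≠ 0)
    (h : (n : ℂ) * (τ : ℂ) ^ 2 + m * τ + k = 0) : ∃ D, HasDisc τ D := by
  rcases lt_or_gt_of_ne hn with h1 | h1
  · refine ord2_prim_pos (n := -n) (m := -m) (k := -k) (by omega) ?_
    push_cast
    linear_combination -h
  · exact ord2_prim_pos h1 h

theorem ord2_left_mem (a b : ℂ) : a ∈ sp a b := mem_sp.2 ⟨1, 0, by simp⟩

theorem ord2_right_mem (a b : ℂ) : b ∈ sp a b := mem_sp.2 ⟨0, 1, by simp⟩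

theorem ord2_sp_le {a b : ℂ} {Λ : Lt} (ha : a ∈ Λ) (hb : b ∈ Λ) : sp a b ≤ Λ := by
  intro v hv
  obtain ⟨m, n, rfl⟩ := mem_sp.1 hv
  simpa [zsmul_eq_mul] using Λ.add_mem (Λ.smul_mem m ha) (Λ.smul_mem n hb)

theorem ord2_hasDisc {c x : ℂ} {τ : ℍ} (hc : c ≠ 0) (hx : x.im ≠ 0)
    (h : pr x * sp c (c * τ) ≤ sp c (c * τ)) : ∃ D, HasDisc τ D := by
  rw [pr_mul_le] at h
  obtain ⟨m, n, h1⟩ := mem_sp.1 (h _ (ord2_left_mem _ _))
  obtain ⟨m', n', h2⟩ := mem_sp.1 (h _ (ord2_right_mem _ _))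
  have e1 : x = m + n * τ := by
    apply mul_left_cancel₀ hc
    linear_combination h1
  have e2 : x * τ = m' + n' * τ := by
    apply mul_left_cancel₀ hc
    linear_combination h2
  have hn : n ≠ 0 := by
    rintro rfl
    apply hx
    rw [e1]
    simp
  refine ord2_prim (m := m - n') (k := -m') hn ?_
  push_cast
  linear_combination e2 - τ * e1

theorem ord2_th_im (D : ℤ) : (th D).im = Real.sqrt (-(D : ℝ)) := by simp [th]

theorem ord2_th_re (D : ℤ) : (th D).re = 0 := by simp [th]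

theorem ord2_th_im_ne {D : ℤ} (hD : D < 0) : (th D).im ≠ 0 := by
  rw [ord2_th_im]
  have : (D : ℝ) < 0 := by exact_mod_cast hD
  exact (Real.sqrt_pos.2 (by linarith)).ne'

/-- Nonreal elements of an order are not small. -/
theorem abs_le_of_mem_OD {D : ℤ} (hD : D < 0) {x : ℂ} (hx : x ∈ OD D) (hx' : x.im ≠ 0) :
    -(D : ℝ) ≤ 4 * x.im ^ 2 := by
  obtain ⟨m, n, rfl⟩ := mem_sp.1 hx
  have hD' : (D : ℝ) < 0 := by exact_mod_cast hD
  have e : ((m : ℂ) * 1 + n * ((D + th D) / 2)).im = n * (Real.sqrt (-(D : ℝ)) / 2) := by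
    simp [ord2_th_im]
  rw [e] at hx' ⊢
  have hn : n ≠ 0 := by
    rintro rfl
    simp at hx'
  have hn' : (1 : ℝ) ≤ (n : ℝ) ^ 2 := by
    have : (1 : ℤ) ≤ n ^ 2 := by
      have := Int.one_le_abs hn
      nlinarith [sq_abs n]
    exact_mod_cast this
  have hs := Real.sq_sqrt (show 0 ≤ -(D : ℝ) by linarith)
  rw [mul_pow, div_pow, hs]
  nlinarith

theorem ord2_le_of_OD_le {D D' : ℤ} (hD : D < 0) (hD' : D' < 0) (h : OD D ≤ OD D') : D ≤ D' := by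
  have hm : ((D + th D) / 2 : ℂ) ∈ OD D' := h (ord2_right_mem _ _)
  have hr : (D : ℝ) < 0 := by exact_mod_cast hD
  have e : ((D + th D) / 2 : ℂ).im = Real.sqrt (-(D : ℝ)) / 2 := by simp [ord2_th_im]
  have := abs_le_of_mem_OD hD' hm (by
    rw [e]
    exact (div_pos (Real.sqrt_pos.2 (by linarith)) two_pos).ne')
  rw [e, div_pow, Real.sq_sqrt (by linarith)] at this
  have : (D : ℝ) ≤ D' := by linarith
  exact_mod_cast this

theorem OD_inj {D D' : ℤ} (hD : D < 0) (hD' : D' < 0) (h : OD D = OD D') : D = D' :=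
  le_antisymm (ord2_le_of_OD_le hD hD' h.le) (ord2_le_of_OD_le hD' hD h.ge)

theorem ord2_disc_eq {Λ : Lt} {D D' : ℤ} (h : DiscL Λ D) (hD' : D' < 0)
    (he : ∀ x, pr x * Λ ≤ Λ ↔ x ∈ OD D') : D = D' :=
  OD_inj h.isD.1 hD' (Submodule.ext fun x => (h.end_iff x).symm.trans (he x))

theorem HasDisc.smul {τ : ℍ} {D : ℤ} (h : HasDisc τ D) (γ : SL(2, ℤ)) : HasDisc (γ • τ) D := by
  have hc : (1 : ℂ) * ((γ 1 0 : ℂ) * τ + γ 1 1) ≠ 0 := by
    rw [one_mul]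
    intro h0
    have h1 := congrArg Complex.im h0
    simp [τ.im_ne_zero] at h1
    rw [h1] at h0
    simp at h0
    have := γ.det_coe
    rw [Matrix.det_fin_two, h1, h0] at this
    simp at this
  have e := sp_smul 1 γ τ
  have hL : DiscL (sp 1 (1 * τ)) D := ⟨1, τ, one_ne_zero, rfl, h⟩
  rw [← e] at hL
  obtain ⟨D', hD'⟩ := ord2_hasDisc hc (ord2_th_im_ne h.isD.1) ((hL.end_iff _).2 (th_mem_OD D))
  have : D' = D := ord2_disc_eq ⟨_, _, hc, rfl, hD'⟩ h.isD.1 hL.end_iff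
  exact this ▸ hD'

theorem ord2_sp_add (x : ℂ) (n : ℤ) : sp 1 (x + n) = sp 1 x := by
  apply le_antisymm
  · exact ord2_sp_le (ord2_left_mem _ _) (mem_sp.2 ⟨n, 1, by push_cast; ring⟩)
  · exact ord2_sp_le (ord2_left_mem _ _) (mem_sp.2 ⟨-n, 1, by push_cast; ring⟩)

theorem OD_sq_mul {D : ℤ} (hD : IsD D) (f : ℕ) :
    OD (f ^ 2 * D) = sp 1 (f * ((D + th D) / 2)) := by
  have _ := hD
  obtain ⟨k, hk⟩ := Int.even_mul_pred_self (f : ℤ)
  have hk' : (f : ℂ) * (f - 1) = k + k := by exact_mod_cast hk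
  rw [← ord2_sp_add (f * ((D + th D) / 2)) (k * D), OD, th_mul_sq]
  congr 1
  push_cast
  linear_combination (D / 2 : ℂ) * hk'

theorem OD_sq_le {D : ℤ} (hD : IsD D) (f : ℕ) : OD (f ^ 2 * D) ≤ OD D := by
  rw [OD_sq_mul hD]
  exact ord2_sp_le (one_mem_OD D) (mem_sp.2 ⟨0, f, by simp⟩)

theorem exists_discL {Λ : Lt} (h : IsLat Λ) {x : ℂ} (hx : x.im ≠ 0) (hx' : pr x * Λ ≤ Λ) :
    ∃ D, DiscL Λ D := by
  obtain ⟨c, τ, hc, rfl⟩ := h
  obtain ⟨D, hD⟩ := ord2_hasDisc hc hx hx'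
  exact ⟨D, c, τ, hc, rfl, hD⟩

theorem ord2_pr_le {c : ℂ} {Λ : Lt} (h : c ∈ Λ) : pr c ≤ Λ :=
  (Submodule.span_singleton_le_iff_mem _ _).2 h

theorem ord2_OD_mul {Λ : Lt} {D D' : ℤ} (h' : DiscL Λ D') (hle : OD D ≤ OD D') :
    OD D * Λ = Λ := by
  apply le_antisymm
  · exact (mul_le_mul_left hle Λ).trans h'.OD_mul.le
  · exact (pr_one_mul Λ).ge.trans (mul_le_mul_left (ord2_pr_le (one_mem_OD D)) Λ)

theorem ord2_isLat_mul {𝔞 Λ : Lt} {D D' : ℤ} (h : DiscL 𝔞 D) (h' : DiscL Λ D')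
    (hle : OD D ≤ OD D') : IsLat (𝔞 * Λ) := by
  obtain ⟨c, τ, hc, rfl, hτ⟩ := h
  have hτ' := hτ
  obtain ⟨a, b, k, ha, -, he, -⟩ := hτ'
  obtain ⟨N, rfl⟩ := Int.eq_ofNat_of_zero_le ha.le
  have hN : 0 < N := by exact_mod_cast ha
  push_cast at he
  have hm : (N : ℂ) * τ ∈ OD D := by
    rw [← (discL_one hτ).end_iff, pr_mul_sp]
    refine ord2_sp_le (mem_sp.2 ⟨0, N, by simp⟩) (mem_sp.2 ⟨-k, -b, ?_⟩)
    push_cast
    linear_combination he
  refine (h'.isLat.pr_mul hc).of_between hN ?_ ?_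
  · refine le_trans ?_ (mul_le_mul_left (ord2_pr_le (ord2_left_mem c (c * τ))) Λ)
    exact_mod_cast pr_int_le N (pr c * Λ)
  · have e : pr c * Λ = pr c * OD D * Λ := by rw [mul_assoc, ord2_OD_mul h' hle]
    rw [← mul_assoc, pr_mul_sp, e]
    apply mul_le_mul_left
    apply ord2_sp_le
    · refine mem_pr_mul.2 ⟨N, ?_, mul_comm _ _⟩
      simpa using (OD D).smul_mem (N : ℤ) (one_mem_OD D)
    · exact mem_pr_mul.2 ⟨N * τ, hm, by ring⟩

theorem DiscL.mul {𝔞 Λ : Lt} {D D' : ℤ} (h : DiscL 𝔞 D) (h' : DiscL Λ D') (hle : OD D ≤ OD D') :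
    DiscL (𝔞 * Λ) D' := by
  have he : ∀ x, pr x * (𝔞 * Λ) ≤ 𝔞 * Λ ↔ x ∈ OD D' := fun x => by
    rw [← h'.end_iff]
    constructor
    · intro hx
      obtain ⟨c, hc, e⟩ := h.mul_cj
      have e' : Pool.Agent.EQ.cj 𝔞 * (𝔞 * Λ) = pr c * Λ := by
        rw [← mul_assoc, mul_comm _ 𝔞, e, mul_assoc, ord2_OD_mul h' hle]
      have := mul_le_mul_right hx (Pool.Agent.EQ.cj 𝔞)
      rw [mul_left_comm, e', mul_left_comm] at this
      exact (pr_mul_le_iff hc).1 this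
    · intro hx
      rw [mul_left_comm]
      exact mul_le_mul_right hx 𝔞
  obtain ⟨D'', hD⟩ := exists_discL (ord2_isLat_mul h h' hle) (ord2_th_im_ne h'.isD.1)
    ((he _).2 (th_mem_OD D'))
  exact ord2_disc_eq hD h'.isD.1 he ▸ hD

theorem discL_of_inv {𝔞 𝔟 : Lt} {D : ℤ} (hD : IsD D) (h : IsLat 𝔞) (h1 : OD D * 𝔞 ≤ 𝔞)
    (h2 : 𝔞 * 𝔟 = OD D) : DiscL 𝔞 D := by
  have he : ∀ x, pr x * 𝔞 ≤ 𝔞 ↔ x ∈ OD D := fun x => by
    constructor
    · intro hx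
      have := mul_le_mul_left hx 𝔟
      rw [mul_assoc, h2, pr_mul_le] at this
      simpa using this 1 (one_mem_OD D)
    · intro hx
      exact (mul_le_mul_left (ord2_pr_le hx) 𝔞).trans h1
  obtain ⟨D', hD'⟩ := exists_discL h (ord2_th_im_ne hD.1) ((he _).2 (th_mem_OD D))
  exact ord2_disc_eq hD' hD.1 he ▸ hD'

theorem finite_disc (D : ℤ) : {z | ∃ Λ, DiscL Λ D ∧ jL Λ = z}.Finite := by
  refine (((Set.finite_Icc (-|D|) |D|).prod (Set.finite_Icc (-|D|) |D|)).image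
    (fun x : ℤ × ℤ => jInv (ofComplex ((th D - x.2) / (2 * x.1))))).subset ?_
  rintro z ⟨Λ, ⟨c, τ, hc, rfl, hτ⟩, rfl⟩
  obtain ⟨γ, hγ⟩ := ModularGroup.exists_smul_mem_fd τ
  rw [jL_sp hc, ← jInv_smul γ τ]
  have hD := hτ.isD.1
  obtain ⟨a, b, k, ha, -, he, hd⟩ := hτ.smul γ
  generalize γ • τ = σ at hγ he
  have hr := HasDisc.root ha he
  rw [← hd] at hr
  have ha' : (1 : ℝ) ≤ a := by exact_mod_cast ha
  have hD' : (D : ℝ) < 0 := by exact_mod_cast hD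
  have i1 : 2 * (a : ℝ) * σ.im = Real.sqrt (-(D : ℝ)) := by
    simpa [ord2_th_im] using congrArg Complex.im hr
  have i2 : 2 * (a : ℝ) * σ.re + b = 0 := by
    simpa [ord2_th_re] using congrArg Complex.re hr
  have i3 := ModularGroup.three_le_four_mul_im_sq_of_mem_fd hγ
  have i4 := abs_le.1 hγ.2
  have i5 : (2 * (a : ℝ) * σ.im) ^ 2 = -(D : ℝ) := by rw [i1, Real.sq_sqrt (by linarith)]
  have i6 : (a : ℝ) ≤ -D := by
    have := mul_le_mul_of_nonneg_left i3 (sq_nonneg (a : ℝ))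
    nlinarith
  have i7 : (b : ℝ) ≤ a := by nlinarith
  have i8 : -(a : ℝ) ≤ b := by nlinarith
  have j6 : a ≤ -D := by exact_mod_cast i6
  have j7 : b ≤ a := by exact_mod_cast i7
  have j8 : -a ≤ b := by exact_mod_cast i8
  refine ⟨(a, b), ?_, ?_⟩
  · rw [abs_of_neg hD]
    simp only [Set.mem_prod, Set.mem_Icc]
    omega
  · have ha0 : (a : ℂ) ≠ 0 := by exact_mod_cast ha.ne'
    have : (th D - b) / (2 * a) = (σ : ℂ) := by
      rw [← hr]
      field_simp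
      ring
    simp only [this, ofComplex_apply]

end Pool.Agent.EQ
end
end

-- part Pool.Agent.P.MP_ad7a55_nt.Pair2
section

/-! Locally rigid joinings of two copies of X charge the singular set. -/

set_option autoImplicit false

noncomputable section

open MeasureTheory Topology Filter UpperHalfPlane
open scoped MatrixGroups ENNReal BoundedContinuousFunction

namespace Pool.Agent.EQ

theorem pair2_cancel_right {η A B : Matrix (Fin 2) (Fin 2) ℝ} (hη : η.det ≠ 0)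
    (h : A * η = B * η) : A = B := by
  have hu : IsUnit η := (Matrix.isUnit_iff_isUnit_det η).2 (isUnit_iff_ne_zero.2 hη)
  exact hu.mul_right_cancel h

theorem pair2_cancel_left {η A B : Matrix (Fin 2) (Fin 2) ℝ} (hη : η.det ≠ 0)
    (h : η * A = η * B) : A = B := by
  have hu : IsUnit η := (Matrix.isUnit_iff_isUnit_det η).2 (isUnit_iff_ne_zero.2 hη)
  exact hu.mul_left_cancel h

theorem pair2_inj {θ : SL(2, ℝ) →* SL(2, ℝ)} (hθ : IsConjHom θ) : Function.Injective θ := by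
  obtain ⟨η, hη, h⟩ := hθ
  intro a b hab
  apply Subtype.ext
  refine pair2_cancel_left hη ?_
  have h1 := h a
  have h2 := h b
  rw [hab] at h1
  exact h1.symm.trans h2

theorem pair2_neg {θ : SL(2, ℝ) →* SL(2, ℝ)} (hθ : IsConjHom θ) : θ (-1) = -1 := by
  obtain ⟨η, hη, h⟩ := hθ
  apply Subtype.ext
  refine pair2_cancel_right hη ?_
  have h1 := h (-1)
  refine h1.trans ?_
  simp

theorem pair2_unip {θ : SL(2, ℝ) →* SL(2, ℝ)} (hθ : IsConjHom θ) {u : SL(2, ℝ)} (hu : Unip u) :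
    Unip (θ u) := by
  obtain ⟨η, hη, h⟩ := hθ
  have h1 : ((θ u : Matrix (Fin 2) (Fin 2) ℝ) - 1) * η =
      η * ((u : Matrix (Fin 2) (Fin 2) ℝ) - 1) := by
    rw [sub_mul, mul_sub, h u, one_mul, mul_one]
  refine pair2_cancel_right hη ?_
  rw [mul_assoc, h1, ← mul_assoc, h1, mul_assoc, hu, mul_zero, zero_mul]

theorem pair2_unip_uu (x : ℝ) : Unip (uu x) := by
  unfold Unip
  ext i j
  fin_cases i <;> fin_cases j <;> simp [Matrix.mul_apply, Fin.sum_univ_two]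

theorem pair2_unip_ul (x : ℝ) : Unip (ul x) := by
  unfold Unip
  ext i j
  fin_cases i <;> fin_cases j <;> simp [Matrix.mul_apply, Fin.sum_univ_two]

theorem pair2_toR_uu : toR (uu 1) = uu 1 := by
  ext i j
  fin_cases i <;> fin_cases j <;> simp [toR]

theorem pair2_toR_ul : toR (ul 1) = ul 1 := by
  ext i j
  fin_cases i <;> fin_cases j <;> simp [toR]

theorem pair2_uu_pow (N : ℕ) : (uu (1 : ℝ)) ^ N = uu (N : ℝ) := by
  induction N with
  | zero => simp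
  | succ n ih => rw [pow_succ, ih, ← uu_add]; push_cast; rfl

theorem pair2_ul_pow (N : ℕ) : (ul (1 : ℝ)) ^ N = ul (N : ℝ) := by
  induction N with
  | zero => simp
  | succ n ih => rw [pow_succ, ih, ← ul_add]; push_cast; rfl

theorem pair2_comm {θ : SL(2, ℝ) →* SL(2, ℝ)} (hθ : IsConjHom θ) (δ : SL(2, ℝ))
    (h1 : δ * (θ (uu 1))⁻¹ = (θ (uu 1))⁻¹ * δ) (h2 : δ * (θ (ul 1))⁻¹ = (θ (ul 1))⁻¹ * δ) :
    δ = 1 ∨ δ = -1 := by
  obtain ⟨h, rfl⟩ := hθ.surj δ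
  have key : ∀ u : SL(2, ℝ), θ h * (θ u)⁻¹ = (θ u)⁻¹ * θ h → h * u = u * h := by
    intro u hu
    apply pair2_inj hθ
    rw [map_mul, map_mul]
    have : θ u * (θ h * (θ u)⁻¹) * θ u = θ u * ((θ u)⁻¹ * θ h) * θ u := by rw [hu]
    simpa [mul_assoc] using this.symm
  rcases eq_pm_of_comm (key _ h1) (key _ h2) with rfl | rfl
  · exact Or.inl (map_one θ)
  · exact Or.inr (pair2_neg hθ)

/-- A periodic point gives a conjugation into the integral matrices. -/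
theorem pair2_period {θ : SL(2, ℝ) →* SL(2, ℝ)} {η : Matrix (Fin 2) (Fin 2) ℝ}
    (h : ∀ a : SL(2, ℝ), (θ a : Matrix (Fin 2) (Fin 2) ℝ) * η = η * (a : Matrix (Fin 2) (Fin 2) ℝ))
    (g₀ u : SL(2, ℝ)) (N : ℕ) (hy : ((θ u)⁻¹) ^ N • (g₀ : YY) = (g₀ : YY)) :
    ∃ γ : SL(2, ℤ), (((g₀⁻¹ : SL(2, ℝ)) : Matrix (Fin 2) (Fin 2) ℝ) * η) *
        ((u ^ N : SL(2, ℝ)) : Matrix (Fin 2) (Fin 2) ℝ) =
      (toR γ : Matrix (Fin 2) (Fin 2) ℝ) *
        (((g₀⁻¹ : SL(2, ℝ)) : Matrix (Fin 2) (Fin 2) ℝ) * η) := by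
  have h1 : ((((θ u)⁻¹) ^ N * g₀ : SL(2, ℝ)) : YY) = (g₀ : YY) := hy
  obtain ⟨γ, hγ⟩ := QuotientGroup.eq.1 h1
  refine ⟨γ, ?_⟩
  have h2 : toR γ = g₀⁻¹ * θ (u ^ N) * g₀ := by
    refine hγ.trans ?_
    rw [map_pow, inv_pow, mul_inv_rev, inv_inv]
  have h3 : toR γ * g₀⁻¹ = g₀⁻¹ * θ (u ^ N) := by rw [h2]; group
  rw [mul_assoc, ← h (u ^ N), ← mul_assoc, ← mul_assoc, ← Matrix.SpecialLinearGroup.coe_mul,
    ← Matrix.SpecialLinearGroup.coe_mul, h3]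

variable (p : ℕ) [Fact p.Prime]

theorem pair {d₁ d₂ : ℚ_[p]} (h₁ : d₁ ≠ 0) (h₂ : d₂ ≠ 0) {θ : SL(2, ℝ) →* SL(2, ℝ)}
    (hθ : IsConjHom θ) (ρ : Measure (XX p × XX p)) [IsProbabilityMeasure ρ]
    (hU : Inv (ufl2 p d₁ d₂) ρ)
    (hρ : ∀ h : SL(2, ℝ),
      ρ.map (fun w => (((h, 1) : GG p) • w.1, ((θ h, 1) : GG p) • w.2)) = ρ)
    {D : Set (XX p × XX p)} (hD : IsCompact D) (h0 : ρ D ≠ 0)
    (h1 : ∀ x z z', (x, z) ∈ D → (x, z') ∈ D → toY p z = toY p z') : ρ (NN p d₁ d₂) ≠ 0 := by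
  obtain ⟨τ, hτ, hl, hinv, h4, h5⟩ := tau p θ hθ.continuous ρ hρ
  obtain ⟨g, hg⟩ := h4 D hD.isClosed.measurableSet h0
  set E : Set (Kp p × XX p) :=
    {w | ((((g, w.1) : GG p) : XX p), ((θ g, 1) : GG p) • w.2) ∈ D} with hE
  have hsm : ∀ (a : SL(2, ℝ)) (x : XX p), toY p (((a, 1) : GG p) • x) = a • toY p x :=
    fun a x => toY_smul p (g := (a, 1)) (Kp p).one_mem x
  have hEc : IsCompact E := by
    have hc : Continuous fun w : Kp p × XX p =>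
        ((((g, w.1) : GG p) : XX p), ((θ g, 1) : GG p) • w.2) :=
      (QuotientGroup.continuous_mk.comp
        (continuous_const.prodMk (continuous_subtype_val.comp continuous_fst))).prodMk
        ((continuous_const_smul ((θ g, 1) : GG p)).comp continuous_snd)
    have hK : IsCompact ((Set.univ : Set (Kp p)) ×ˢ
        ((fun z : XX p × XX p => (((θ g, 1) : GG p))⁻¹ • z.2) '' D)) :=
      isCompact_univ.prod (hD.image
        ((continuous_const_smul (((θ g, 1) : GG p))⁻¹).comp continuous_snd))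
    refine hK.of_isClosed_subset (hD.isClosed.preimage hc) ?_
    intro w hw
    exact ⟨trivial, _, hw, inv_smul_smul _ _⟩
  set F : Kp p × XX p → Kp p × YY := fun w => (w.1, toY p w.2) with hF
  have hFc : Continuous F := continuous_fst.prodMk ((continuous_toY p).comp continuous_snd)
  have hFm : Measurable F := hFc.measurable
  have : IsProbabilityMeasure (τ.map F) := Measure.isProbabilityMeasure_map hFm.aemeasurable
  have hfst : (τ.map F).fst = τ.fst := by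
    rw [Measure.fst, Measure.map_map measurable_fst hFm]
    rfl
  have hmap : ∀ γ : SL(2, ℤ), (τ.map F).map
      (fun w => (w.1 * ⟨toP p γ, toP_mem_Kp p γ⟩, (θ (toR γ))⁻¹ • w.2)) = τ.map F := by
    intro γ
    have m1 : Measurable fun w : Kp p × YY =>
        (w.1 * (⟨toP p γ, toP_mem_Kp p γ⟩ : Kp p), (θ (toR γ))⁻¹ • w.2) :=
      ((continuous_fst.mul continuous_const).prodMk
        ((continuous_const_smul (θ (toR γ))⁻¹).comp continuous_snd)).measurable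
    have m2 : Measurable fun w : Kp p × XX p =>
        (w.1 * (⟨toP p γ, toP_mem_Kp p γ⟩ : Kp p), (((θ (toR γ))⁻¹, 1) : GG p) • w.2) :=
      ((continuous_fst.mul continuous_const).prodMk
        ((continuous_const_smul (((θ (toR γ))⁻¹, 1) : GG p)).comp continuous_snd)).measurable
    conv_rhs => rw [← hinv γ]
    rw [Measure.map_map m1 hFm, Measure.map_map hFm m2]
    congr 1
    funext w
    simp only [hF, Function.comp_apply, hsm]
  have hCc : IsCompact (F '' E) := hEc.image hFc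
  have hC0 : (τ.map F) (F '' E) ≠ 0 := by
    rw [Measure.map_apply hFm hCc.isClosed.measurableSet]
    intro h
    exact hg (measure_mono_null (Set.subset_preimage_image F E) h)
  have hC1 : ∀ k y y', (k, y) ∈ F '' E → (k, y') ∈ F '' E → y = y' := by
    rintro k y y' ⟨w, hw, e⟩ ⟨w', hw', e'⟩
    obtain ⟨e1, e2⟩ := Prod.ext_iff.1 e
    obtain ⟨e1', e2'⟩ := Prod.ext_iff.1 e'
    have e3 : w'.1 = w.1 := e1'.trans e1.symm
    have hw2 : ((((g, w.1) : GG p) : XX p), ((θ g, 1) : GG p) • w'.2) ∈ D := by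
      rw [← e3]; exact hw'
    have := h1 _ _ _ hw hw2
    rw [hsm, hsm] at this
    have e4 : toY p w.2 = toY p w'.2 := smul_left_cancel _ this
    exact e2.symm.trans (e4.trans e2')
  have ha := hmap (uu 1)
  have hb := hmap (ul 1)
  rw [pair2_toR_uu] at ha
  rw [pair2_toR_ul] at hb
  have hv : Unip (θ (uu 1))⁻¹ := by
    rw [← map_inv, uu_inv]; exact pair2_unip hθ (pair2_unip_uu _)
  have hv' : Unip (θ (ul 1))⁻¹ := by
    rw [← map_inv, ul_inv]; exact pair2_unip hθ (pair2_unip_ul _)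
  obtain ⟨y, hy, N, hN, hp1, hp2⟩ := atom (τ.map F) (hfst ▸ hl) _ _ hv hv' (pair2_comm hθ) ha hb
    hCc.isClosed.measurableSet hC0 hC1
  obtain ⟨g₀, rfl⟩ := QuotientGroup.mk_surjective y
  obtain ⟨η, hη, hθη⟩ := hθ
  obtain ⟨γ, hγ⟩ := pair2_period hθη g₀ _ N hp1
  obtain ⟨γ', hγ'⟩ := pair2_period hθη g₀ _ N hp2
  rw [pair2_uu_pow] at hγ
  rw [pair2_ul_pow] at hγ'
  have hdet : (((g₀⁻¹ : SL(2, ℝ)) : Matrix (Fin 2) (Fin 2) ℝ) * η).det ≠ 0 := by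
    rw [Matrix.det_mul, Matrix.SpecialLinearGroup.det_coe, one_mul]; exact hη
  obtain ⟨c, ζ, hc, hξ⟩ := rational_of_conj hdet hN γ γ' hγ hγ'
  have hζ : ζ.det ≠ 0 := by
    intro h
    apply hdet
    have : (ζ.map ((↑) : ℚ → ℝ)).det = ((ζ.det : ℚ) : ℝ) := by
      simp [Matrix.det_fin_two]
    rw [hξ, Matrix.det_smul, this, h]
    simp
  have hη' : η = c • ((g₀ : Matrix (Fin 2) (Fin 2) ℝ) * ζ.map (↑)) := by
    rw [← Matrix.mul_smul, ← hξ, ← mul_assoc, ← Matrix.SpecialLinearGroup.coe_mul, mul_inv_cancel]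
    simp
  have hms : MeasurableSet ((Set.univ : Set (Kp p)) ×ˢ ({(g₀ : YY)} : Set YY)) :=
    MeasurableSet.univ.prod (measurableSet_singleton _)
  rw [Measure.map_apply hFm hms] at hy
  refine npos p h₁ h₂ ρ hU ζ hζ (c⁻¹ • η) fun h => h5 _ (hFm hms) hy (measure_mono_null ?_ h)
  rintro z ⟨a, w, hw, rfl⟩
  obtain ⟨k, hk, hx⟩ := exists_of_toY p (x := w.2) (g := g₀) hw.2
  refine ⟨(a, w.1), (θ a * g₀, k), rfl, ?_, w.1.2, hk, ?_⟩
  · change _ = ((θ a, 1) : GG p) • w.2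
    rw [hx]
    change _ = ((((θ a, 1) : GG p) * (g₀, k) : GG p) : XX p)
    simp
  · change (c⁻¹ • η) * (a : Matrix (Fin 2) (Fin 2) ℝ) =
      ((θ a * g₀ : SL(2, ℝ)) : Matrix (Fin 2) (Fin 2) ℝ) * ζ.map (↑)
    rw [Matrix.smul_mul, ← hθη a, Matrix.SpecialLinearGroup.coe_mul, mul_assoc]
    conv_lhs => rw [hη']
    rw [Matrix.mul_smul, smul_smul, inv_mul_cancel₀ hc, one_smul]

end Pool.Agent.EQ
end
end

-- part Pool.Agent.P.MP_ad7a55_nt.UAt
section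

/-! Slabs: concentrated and thin directions. -/

set_option autoImplicit false

noncomputable section

open MeasureTheory Topology Filter UpperHalfPlane
open scoped MatrixGroups ENNReal BoundedContinuousFunction

namespace Pool.Agent.EQ

variable {p : ℕ} [Fact p.Prime] {ι : Type} [Fintype ι]

/-- The mass of a slab in the direction `j`. -/
def sl (δ : Dat p ι) (j : ι) (k l : ℤ) (s : ℚ_[p]) : ℝ≥0∞ :=
  lw δ k l {v | ‖v j - s‖ ≤ (p : ℝ) ^ l}

/-- The leafwise measure lives on one hyperplane. -/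
def Conc (δ : Dat p ι) (j : ι) : Prop := ∀ᶠ k : ℤ in atTop, ∀ l ≤ k, ∃ s, sl δ j k l s = 1

/-- All slabs have small mass. -/
def ThinAt (δ : Dat p ι) (j : ι) (k l : ℤ) (ε : ℝ≥0∞) : Prop := ∀ s, sl δ j k l s ≤ ε

def Thin (δ : Dat p ι) (j : ι) : Prop := ∀ ε : ℝ≥0∞, 0 < ε → ∃ e : ℕ, ThinAt δ j 0 (-e) ε

theorem uat_add {r : ℝ} {x y : ℚ_[p]} (hx : ‖x‖ ≤ r) (hy : ‖y‖ ≤ r) : ‖x + y‖ ≤ r :=
  (Padic.nonarchimedean x y).trans (max_le hx hy)

theorem uat_tri {r : ℝ} {x y z : ℚ_[p]} (hx : ‖x - y‖ ≤ r) (hy : ‖y - z‖ ≤ r) : ‖x - z‖ ≤ r :=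
  sub_add_sub_cancel x y z ▸ uat_add hx hy

theorem uat_meas (j : ι) (r : ℝ) (s : ℚ_[p]) : MeasurableSet {v : ι → ℚ_[p] | ‖v j - s‖ ≤ r} :=
  (isClosed_le (by fun_prop) continuous_const).measurableSet

theorem uat_one : (1 : ℝ) < p := by exact_mod_cast (Fact.out : p.Prime).one_lt

theorem uat_pos (l : ℤ) : (0 : ℝ) < (p : ℝ) ^ l := zpow_pos (one_pos.trans uat_one) l

theorem uat_rat (s : ℚ_[p]) (l : ℤ) : ∃ r : ℚ, ‖s - r‖ ≤ (p : ℝ) ^ l :=
  (Padic.rat_dense p s (uat_pos l)).imp fun _ h => h.le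

theorem uat_ne {a : ℚ_[p]} {e : ℤ} (ha : ‖a‖ = (p : ℝ) ^ e) : a ≠ 0 :=
  norm_pos_iff.1 (ha ▸ uat_pos e)

theorem sl_congr (δ : Dat p ι) (j : ι) (k : ℤ) {l : ℤ} {s s' : ℚ_[p]}
    (h : ‖s - s'‖ ≤ (p : ℝ) ^ l) : sl δ j k l s = sl δ j k l s' := by
  unfold sl
  exact congrArg _ (Set.ext fun v => ⟨fun hv => uat_tri hv h,
    fun hv => uat_tri hv (norm_sub_rev s s' ▸ h)⟩)

theorem sl_shD {a : ℚ_[p]} {e : ℤ} (ha : ‖a‖ = (p : ℝ) ^ e) (δ : Dat p ι) (j : ι) (k l : ℤ)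
    (s : ℚ_[p]) : sl (shD a e δ) j k l s = sl δ j (k + e) (l + e) (a * s) := by
  unfold sl
  rw [← lw_shD ha, Measure.map_apply (continuous_const_smul a).measurable (uat_meas _ _ _)]
  refine congrArg _ (Set.ext fun v => ?_)
  show ‖v j - s‖ ≤ _ ↔ ‖a * v j - a * s‖ ≤ _
  rw [← mul_sub, norm_mul, ha, zpow_add₀ (one_pos.trans uat_one).ne', mul_comm,
    mul_le_mul_iff_left₀ (uat_pos e)]

theorem conc_shD {a : ℚ_[p]} {e : ℤ} (ha : ‖a‖ = (p : ℝ) ^ e) (δ : Dat p ι) (j : ι) :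
    Conc (shD a e δ) j ↔ Conc δ j := by
  simp only [Conc, eventually_atTop, sl_shD ha]
  constructor
  · rintro ⟨N, h⟩
    refine ⟨N + e, fun k hk l hl => ?_⟩
    obtain ⟨s, hs⟩ := h (k - e) (by omega) (l - e) (by omega)
    rw [sub_add_cancel, sub_add_cancel] at hs
    exact ⟨_, hs⟩
  · rintro ⟨N, h⟩
    refine ⟨N - e, fun k hk l hl => ?_⟩
    obtain ⟨s, hs⟩ := h (k + e) (by omega) (l + e) (by omega)
    exact ⟨a⁻¹ * s, by rwa [mul_inv_cancel_left₀ (uat_ne ha)]⟩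

theorem thinAt_shD {a : ℚ_[p]} {e : ℤ} (ha : ‖a‖ = (p : ℝ) ^ e) (δ : Dat p ι) (j : ι) (k l : ℤ)
    (ε : ℝ≥0∞) : ThinAt (shD a e δ) j k l ε ↔ ThinAt δ j (k + e) (l + e) ε := by
  simp only [ThinAt, sl_shD ha]
  refine ⟨fun h s => ?_, fun h s => h _⟩
  have h1 := h (a⁻¹ * s)
  rwa [mul_inv_cancel_left₀ (uat_ne ha)] at h1

variable {W : Type} [TopologicalSpace W] [PolishSpace W] [MeasurableSpace W] [BorelSpace W]
  (φ : Flow (ι → ℚ_[p]) W) (ν : Measure W)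

theorem sl_flow (j : ι) {k : ℤ} (l : ℤ) {c : ι → ℚ_[p]} (hc : ‖c‖ ≤ (p : ℝ) ^ k) (w : W)
    (s : ℚ_[p]) : sl (dat φ ν (φ c w)) j k l s = sl (dat φ ν w) j k l (s + c j) := by
  unfold sl
  rw [← lw_flow φ ν l hc w, Measure.map_apply (continuous_add_const c).measurable (uat_meas _ _ _)]
  refine congrArg _ (Set.ext fun v => ?_)
  show ‖v j - s‖ ≤ _ ↔ ‖v j + c j - (s + c j)‖ ≤ _
  rw [add_sub_add_right_eq_sub]

theorem measurable_sl (j : ι) (k l : ℤ) (s : ℚ_[p]) :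
    Measurable fun w => sl (dat φ ν w) j k l s := by
  have h := measurable_lw φ ν k l (F := fun z => Set.indicator
    {v : ι → ℚ_[p] | ‖v j - s‖ ≤ (p : ℝ) ^ l} 1 z.2)
    ((measurable_one.indicator (uat_meas _ _ _)).comp measurable_snd)
  simp only [lintegral_indicator_one (uat_meas _ _ _)] at h
  exact h

theorem conc_flow (j : ι) (c : ι → ℚ_[p]) (w : W) :
    Conc (dat φ ν (φ c w)) j ↔ Conc (dat φ ν w) j := by
  have h : ∀ᶠ k : ℤ in atTop, ‖c‖ ≤ (p : ℝ) ^ k := by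
    obtain ⟨n, hn⟩ := pow_unbounded_of_one_lt ‖c‖ (uat_one (p := p))
    refine (eventually_ge_atTop (n : ℤ)).mono fun k hk => hn.le.trans ?_
    rw [← zpow_natCast]
    exact zpow_le_zpow_right₀ uat_one.le hk
  refine eventually_congr (h.mono fun k hk => forall₂_congr fun l _ => ?_)
  simp only [sl_flow φ ν j l hk]
  exact ⟨fun ⟨s, hs⟩ => ⟨_, hs⟩, fun ⟨s, hs⟩ => ⟨s - c j, by rwa [sub_add_cancel]⟩⟩

theorem measurableSet_conc (j : ι) : MeasurableSet {w | Conc (dat φ ν w) j} := by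
  have h : ∀ w k l, (∃ s, sl (dat φ ν w) j k l s = 1) ↔ ∃ r : ℚ, sl (dat φ ν w) j k l r = 1 :=
    fun w k l => ⟨fun ⟨s, hs⟩ => (uat_rat s l).imp fun r hr => (sl_congr _ _ _ hr).symm.trans hs,
      fun ⟨r, hr⟩ => ⟨_, hr⟩⟩
  simp only [Conc, eventually_atTop, h]
  exact measurableSet_setOfPred.2 (Measurable.exists fun _ => Measurable.forall fun k =>
    measurable_const.imp (Measurable.forall fun l => measurable_const.imp
      (Measurable.exists fun r => (measurable_sl φ ν j k l r).eq_const 1)))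

theorem measurableSet_thinAt (j : ι) (k l : ℤ) (ε : ℝ≥0∞) :
    MeasurableSet {w | ThinAt (dat φ ν w) j k l ε} := by
  have h : {w | ThinAt (dat φ ν w) j k l ε} = ⋂ r : ℚ, {w | sl (dat φ ν w) j k l r ≤ ε} := by
    ext w
    simp only [Set.mem_iInter, Set.mem_ofPred_eq]
    refine ⟨fun h r => h _, fun h s => ?_⟩
    obtain ⟨r, hr⟩ := uat_rat s l
    rw [sl_congr _ _ _ hr]
    exact h r
  rw [h]
  exact MeasurableSet.iInter fun r => measurableSet_le (measurable_sl φ ν j k l r) measurable_const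

variable {φ ν}

theorem Gd.slab {w : W} (h : Gd φ ν w) (j : ι) {k l m : ℤ} (hm : m ≤ l) (hl : l ≤ k) (s : ℚ_[p]) :
    lw (dat φ ν w) k m {v | ‖v j - s‖ ≤ (p : ℝ) ^ l} = sl (dat φ ν w) j k l s := by
  refine h.level hm hl fun c hc v hv => ?_
  show ‖c j + v j - s‖ ≤ _
  rw [add_sub_right_comm]
  exact uat_add hc ((norm_le_pi_norm v j).trans hv)

theorem Gd.thinAt_mono {w : W} (h : Gd φ ν w) {j : ι} {k l m : ℤ} (hm : m ≤ l) (hl : l ≤ k)
    {ε : ℝ≥0∞} (h' : ThinAt (dat φ ν w) j k l ε) : ThinAt (dat φ ν w) j k m ε := by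
  refine fun s => le_trans ?_ ((h.slab j hm hl s).trans_le (h' s))
  exact measure_mono fun v hv => le_trans hv (zpow_le_zpow_right₀ uat_one.le hm)

theorem uat_ball {w : W} {k l : ℤ} (hl : l ≤ k) {c : ι → ℚ_[p]} (h : dat φ ν w k l c ≠ 0) :
    lw (dat φ ν w) k l {v | ‖v - c‖ ≤ (p : ℝ) ^ l} ≠ 0 := by
  rw [lw_ball w hl]
  exact mul_ne_zero h (ENNReal.ofReal_pos.2 (uat_pos _)).ne'

theorem Gd.sl_pos {w : W} (h : Gd φ ν w) (j : ι) {k l : ℤ} (hl : l ≤ k) :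
    sl (dat φ ν w) j k l 0 ≠ 0 := by
  exact fun e => uat_ball hl (h.pos k l hl)
    (measure_mono_null (fun v hv => (norm_le_pi_norm (v - 0) j).trans hv) e)

theorem Gd.conc {w : W} (h : Gd φ ν w) {j : ι} (hc : Conc (dat φ ν w) j) {k l : ℤ} (hl : l ≤ k) :
    sl (dat φ ν w) j k l 0 = 1 := by
  obtain ⟨K, h1, hK⟩ := (hc.and (eventually_ge_atTop k)).exists
  obtain ⟨s, hs⟩ := h1 l (hl.trans hK)
  have := h.prob (hl.trans hK)
  have := h.prob hl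
  have h2 : ‖s - 0‖ ≤ (p : ℝ) ^ l := by
    by_contra h2
    refine h.sl_pos j (hl.trans hK) (measure_mono_null ?_
      ((prob_compl_eq_zero_iff (uat_meas _ _ _)).2 hs))
    intro v hv hv'
    exact h2 (uat_tri ((norm_sub_rev _ _).trans_le hv') hv)
  rw [sl_congr _ _ _ h2] at hs
  have h3 := h.local hl hK (c := 0) (by simp [(uat_pos K).le])
    (uat_meas j ((p : ℝ) ^ l) 0).compl
  rw [φ.map_zero_apply, measure_mono_null (fun v hv => by simpa only [sub_zero v] using hv.2)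
    ((prob_compl_eq_zero_iff (uat_meas _ _ _)).2 hs)] at h3
  exact (prob_compl_eq_zero_iff (uat_meas _ _ _)).1
    ((mul_eq_zero.1 h3.symm).resolve_left (uat_ball hK (h.pos K k hK)))

/-- A leaf with a point mass has at most one good point. -/
theorem Gd.once {w : W} (h : Gd φ ν w) (hc : ∀ j, Conc (dat φ ν w) j) {v : ι → ℚ_[p]}
    (h' : Gd φ ν (φ v w)) : v = 0 := by
  by_contra h0
  obtain ⟨l, h1, h2⟩ := exists_mem_Ioc_zpow (norm_pos_iff.2 h0) (uat_one (p := p))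
  have hl : l ≤ l + 1 := by omega
  have := h.prob hl
  have h3 : ∀ᵐ u ∂lw (dat φ ν w) (l + 1) l, ∀ j, ‖u j - 0‖ ≤ (p : ℝ) ^ l :=
    ae_all_iff.2 fun j => (prob_compl_eq_zero_iff (uat_meas _ _ _)).2 (h.conc (hc j) hl)
  have h4 := h'.pos _ _ hl
  rw [dat_flow φ ν l h2, zero_add] at h4
  refine uat_ball hl h4 (measure_mono_null ?_ h3)
  intro u hu hu'
  refine h1.not_ge ((pi_norm_le_iff_of_nonneg (uat_pos l).le).2 fun j => ?_)
  have h5 := uat_tri ((norm_sub_rev (v j) (u j)).trans_le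
    ((norm_le_pi_norm (u - v) j).trans hu)) (hu' j)
  rwa [sub_zero] at h5

theorem thin_unif [IsProbabilityMeasure ν] (J : Finset ι)
    (h : ∀ᵐ w ∂ν, ∀ j ∈ J, Thin (dat φ ν w) j) {ε η : ℝ≥0∞} (hε : 0 < ε) (hη : 0 < η) :
    ∃ e : ℕ, ν {w | ¬ ∀ j ∈ J, ThinAt (dat φ ν w) j 0 (-e) ε} ≤ η := by
  let A : ℕ → Set W := fun e => {w | Gd φ ν w} ∩ (⋂ j ∈ J, {w | ThinAt (dat φ ν w) j 0 (-e) ε})ᶜ
  have hA : ∀ e, MeasurableSet (A e) := fun e => (measurableSet_Gd φ ν).inter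
    (J.measurableSet_biInter fun j _ => measurableSet_thinAt φ ν j _ _ _).compl
  have hm : ∀ w, Gd φ ν w → ∀ j, ∀ e e' : ℕ, e ≤ e' → ThinAt (dat φ ν w) j 0 (-e) ε →
      ThinAt (dat φ ν w) j 0 (-e') ε := fun w hw j e e' he h1 =>
    hw.thinAt_mono (by omega) (by omega) h1
  have h1 : Antitone A := fun e e' he w hw => ⟨hw.1, fun h2 => hw.2 (Set.mem_iInter₂.2 fun j hj =>
    hm w hw.1 j e e' he (Set.mem_iInter₂.1 h2 j hj))⟩
  have h2 : ν (⋂ e, A e) = 0 := by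
    refine measure_mono_null ?_ h
    intro w hw h3
    rw [Set.mem_iInter] at hw
    have h4 : ∀ᶠ e : ℕ in atTop, ∀ j ∈ J, ThinAt (dat φ ν w) j 0 (-e) ε :=
      (eventually_all_finset J).2 fun j hj => by
        obtain ⟨e, he⟩ := h3 j hj ε hε
        exact (eventually_ge_atTop e).mono fun e' h5 => hm w (hw 0).1 j e e' h5 he
    obtain ⟨e, he⟩ := h4.exists
    exact (hw e).2 (Set.mem_iInter₂.2 he)
  have h3 := tendsto_measure_iInter_atTop (μ := ν) (fun e => (hA e).nullMeasurableSet) h1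
    ⟨0, measure_ne_top _ _⟩
  rw [h2] at h3
  obtain ⟨e, he⟩ := (h3.eventually_lt_const hη).exists
  refine ⟨e, le_trans (measure_mono_ae ?_) he.le⟩
  filter_upwards [ae_Gd φ ν] with w hw h4
  exact ⟨hw, fun h5 => h4 (Set.mem_iInter₂.1 h5)⟩

end Pool.Agent.EQ
end
end
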