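import Pool.Agent.K.MP_ad7a55_nt.C28
import Pool.Agent.K.MP_ad7a55_nt.C22
import Pool.Agent.K.MP_ad7a55_nt.C30
import Pool.Agent.K.MP_ad7a55_nt.C12
import Pool.Agent.K.MP_ad7a55_nt.C24
import Pool.Agent.K.MP_ad7a55_nt.C29
import Pool.Agent.K.MP_ad7a55_nt.C18

-- part Pool.Agent.P.MP_ad7a55_nt.USa
section

/-! The invariance group of the leafwise measure and its lines. -/

set_option autoImplicit false

noncomputable section

open MeasureTheory Topology Filter UpperHalfPlane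
open scoped MatrixGroups ENNReal BoundedContinuousFunction

namespace Pool.Agent.EQ

variable {p : ℕ} [Fact p.Prime] {ι : Type} [Fintype ι]

/-- Translations that preserve the leafwise measure. -/
def Sig (δ : Dat p ι) : Set (ι → ℚ_[p]) :=
  {ω | ∀ l : ℤ, ∀ᶠ k : ℤ in atTop, ∀ c, δ k l (c + ω) = δ k l c}

/-- Lines of such translations. -/
def Lam (δ : Dat p ι) : Set (ι → ℚ_[p]) := {d | ∀ s : ℚ_[p], s • d ∈ Sig δ}

/-- Translations that preserve the data at one scale. -/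
def usa_SigL (δ : Dat p ι) (l : ℤ) : Set (ι → ℚ_[p]) :=
  {ω | ∀ᶠ k : ℤ in atTop, ∀ c, δ k l (c + ω) = δ k l c}

omit [Fintype ι] in
theorem usa_mem_Sig {δ : Dat p ι} {ω : ι → ℚ_[p]} : ω ∈ Sig δ ↔ ∀ l, ω ∈ usa_SigL δ l := Iff.rfl

theorem usa_one_lt : (1 : ℝ) < p := by exact_mod_cast (Fact.out : p.Prime).one_lt

theorem usa_pos (l : ℤ) : (0 : ℝ) < (p : ℝ) ^ l := zpow_pos (zero_lt_one.trans usa_one_lt) l

theorem usa_ev (R : ℝ) : ∀ᶠ k : ℤ in atTop, R ≤ (p : ℝ) ^ k := by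
  obtain ⟨n, hn⟩ := pow_unbounded_of_one_lt R (usa_one_lt (p := p))
  filter_upwards [eventually_ge_atTop (n : ℤ)] with k hk
  refine hn.le.trans ?_
  rw [← zpow_natCast]
  exact zpow_le_zpow_right₀ usa_one_lt.le hk

theorem usa_clopen {S : Set (ι → ℚ_[p])} {l : ℤ}
    (h : ∀ c ∈ S, ∀ v : ι → ℚ_[p], ‖v‖ ≤ (p : ℝ) ^ l → c + v ∈ S) : IsClopen S := by
  constructor
  · refine isOpen_compl_iff.1 (Metric.isOpen_iff.2 fun c hc => ⟨_, usa_pos (p := p) l, ?_⟩)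
    intro x hx hxS
    refine hc ?_
    have := h x hxS (c - x) (by
      rw [← dist_eq_norm, dist_comm]; exact (Metric.mem_ball.1 hx).le)
    rwa [add_sub_cancel] at this
  · refine Metric.isOpen_iff.2 fun c hc => ⟨_, usa_pos (p := p) l, ?_⟩
    intro x hx
    have := h c hc (x - c) (by rw [← dist_eq_norm]; exact (Metric.mem_ball.1 hx).le)
    rwa [add_sub_cancel] at this

theorem usa_clopen_SigL {δ : Dat p ι} (h : IvD δ) (l : ℤ) : IsClopen (usa_SigL δ l) := by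
  refine usa_clopen (l := l) fun ω hω v hv => ?_
  filter_upwards [hω] with k hk c
  rw [← add_assoc, h k l _ v hv, hk]

/-- The norm of a nonzero vector is the norm of a coordinate. -/
theorem usa_coord {ω : ι → ℚ_[p]} (h : ω ≠ 0) : ∃ t : ℚ_[p], t ≠ 0 ∧ ‖t‖ = ‖ω‖ := by
  have : Nonempty ι := by
    by_contra hn
    rw [not_nonempty_iff] at hn
    exact h (Subsingleton.elim _ _)
  obtain ⟨i, -, hi⟩ := Finset.exists_max_image Finset.univ (fun i => ‖ω i‖) Finset.univ_nonempty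
  have e : ‖ω i‖ = ‖ω‖ := le_antisymm (norm_le_pi_norm ω i)
    ((pi_norm_le_iff_of_nonneg (norm_nonneg _)).2 fun j => hi j (Finset.mem_univ j))
  refine ⟨ω i, fun h0 => h ?_, e⟩
  rw [h0, norm_zero] at e
  exact norm_eq_zero.1 e.symm

theorem usa_norm_zpow {ω : ι → ℚ_[p]} (h : ω ≠ 0) : ∃ n : ℤ, ‖ω‖ = (p : ℝ) ^ n := by
  obtain ⟨t, h0, ht⟩ := usa_coord h
  exact ⟨-t.valuation, by rw [← ht, Padic.norm_eq_zpow_neg_valuation h0]⟩

omit [Fintype ι] in
theorem usa_dense : DenseRange fun (r : ι → ℚ) (i : ι) => (r i : ℚ_[p]) :=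
  DenseRange.piMap fun _ => Padic.denseRange_ratCast p

omit [Fintype ι] in
theorem zero_mem_Sig (δ : Dat p ι) : 0 ∈ Sig δ :=
  fun _ => Eventually.of_forall fun _ c => by rw [add_zero]

omit [Fintype ι] in
theorem add_mem_Sig {δ : Dat p ι} {a b : ι → ℚ_[p]} (ha : a ∈ Sig δ) (hb : b ∈ Sig δ) :
    a + b ∈ Sig δ := by
  intro l
  filter_upwards [ha l, hb l] with k h1 h2 c
  rw [← add_assoc, h2, h1]

theorem IvD.isClosed_Sig {δ : Dat p ι} (h : IvD δ) : IsClosed (Sig δ) := by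
  have e : Sig δ = ⋂ l, usa_SigL δ l := Set.ext fun ω => by rw [Set.mem_iInter, usa_mem_Sig]
  rw [e]
  exact isClosed_iInter fun l => (usa_clopen_SigL h l).1

theorem IvD.smul_mem_Sig {δ : Dat p ι} (h : IvD δ) {ω : ι → ℚ_[p]} (hω : ω ∈ Sig δ) {s : ℚ_[p]}
    (hs : ‖s‖ ≤ 1) : s • ω ∈ Sig δ := by
  have hn : ∀ n : ℕ, (n : ℚ_[p]) • ω ∈ Sig δ := by
    intro n
    induction n with
    | zero => rw [Nat.cast_zero, zero_smul]; exact zero_mem_Sig δ
    | succ n ih => rw [Nat.cast_succ, add_smul, one_smul]; exact add_mem_Sig ih hω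
  have key : ∀ x : ℤ_[p], (x : ℚ_[p]) • ω ∈ Sig δ := fun x =>
    PadicInt.denseRange_natCast.induction_on x
      (h.isClosed_Sig.preimage (continuous_subtype_val.smul continuous_const))
      fun n => by rw [PadicInt.coe_natCast]; exact hn n
  exact key ⟨s, hs⟩

omit [Fintype ι] in
theorem smul_mem_Lam {δ : Dat p ι} {d : ι → ℚ_[p]} (hd : d ∈ Lam δ) (s : ℚ_[p]) :
    s • d ∈ Lam δ := by
  intro t
  rw [smul_smul]
  exact hd _

theorem IvD.isClosed_Lam {δ : Dat p ι} (h : IvD δ) : IsClosed (Lam δ) := by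
  have e : Lam δ = ⋂ s : ℚ_[p], (fun d => s • d) ⁻¹' Sig δ :=
    Set.ext fun d => by rw [Set.mem_iInter]; rfl
  rw [e]
  exact isClosed_iInter fun s => h.isClosed_Sig.preimage (continuous_const_smul s)

theorem IvD.lam_of_unbdd {δ : Dat p ι} (h : IvD δ) (hu : ∀ R : ℝ, ∃ ω ∈ Sig δ, R ≤ ‖ω‖) :
    ∃ d ∈ Lam δ, ‖d‖ = 1 := by
  let C : ℕ → Set (ι → ℚ_[p]) := fun n =>
    Metric.sphere 0 1 ∩ ⋂ s : ℚ_[p], ⋂ _ : ‖s‖ ≤ n, (fun d => s • d) ⁻¹' Sig δ
  have hcl : ∀ n, IsClosed (⋂ s : ℚ_[p], ⋂ _ : ‖s‖ ≤ (n : ℕ), (fun d => s • d) ⁻¹' Sig δ) :=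
    fun n => isClosed_iInter fun s => isClosed_iInter fun _ =>
      h.isClosed_Sig.preimage (continuous_const_smul s)
  have hne : ∀ n, (C n).Nonempty := by
    intro n
    obtain ⟨ω, hω, hR⟩ := hu (n + 1)
    have hn : (0 : ℝ) ≤ n := Nat.cast_nonneg n
    have hp : 0 < ‖ω‖ := by linarith
    obtain ⟨t, h0, ht⟩ := usa_coord (norm_pos_iff.1 hp)
    refine ⟨t⁻¹ • ω, ?_, Set.mem_iInter₂.2 fun s hs => ?_⟩
    · rw [mem_sphere_zero_iff_norm, norm_smul, norm_inv, ht, inv_mul_cancel₀ hp.ne']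
    · show s • t⁻¹ • ω ∈ Sig δ
      rw [smul_smul]
      refine h.smul_mem_Sig hω ?_
      rw [norm_mul, norm_inv, ht, ← div_eq_mul_inv, div_le_one hp]
      linarith
  obtain ⟨d, hd⟩ := IsCompact.nonempty_iInter_of_sequence_nonempty_isCompact_isClosed C
    (fun n d hd => ⟨hd.1, Set.mem_iInter₂.2 fun s hs => Set.mem_iInter₂.1 hd.2 s
      (hs.trans (by exact_mod_cast Nat.le_succ n))⟩) hne
    ((isCompact_sphere 0 1).inter_right (hcl 0)) fun n => Metric.isClosed_sphere.inter (hcl n)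
  rw [Set.mem_iInter] at hd
  refine ⟨d, fun s => ?_, mem_sphere_zero_iff_norm.1 (hd 0).1⟩
  obtain ⟨n, hn⟩ := exists_nat_ge ‖s‖
  exact Set.mem_iInter₂.1 (hd n).2 s hn

omit [Fintype ι] in
theorem sig_shD {a : ℚ_[p]} (ha : a ≠ 0) (e : ℤ) (δ : Dat p ι) (ω : ι → ℚ_[p]) :
    ω ∈ Sig (shD a e δ) ↔ a • ω ∈ Sig δ := by
  constructor
  · intro h l
    filter_upwards [(tendsto_atTop_add_const_right atTop (-e) tendsto_id).eventually (h (l - e))]
      with k hk c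
    have := hk (a⁻¹ • c)
    simp only [shD, id, smul_add, smul_inv_smul₀ ha, neg_add_cancel_right, sub_add_cancel] at this
    exact this
  · intro h l
    filter_upwards [(tendsto_atTop_add_const_right atTop e tendsto_id).eventually (h (l + e))]
      with k hk c
    simp only [shD, smul_add]
    exact hk (a • c)

omit [Fintype ι] in
theorem lam_shD {a : ℚ_[p]} (ha : a ≠ 0) (e : ℤ) (δ : Dat p ι) : Lam (shD a e δ) = Lam δ := by
  ext d
  constructor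
  · intro h s
    have := (sig_shD ha e δ _).1 (h (a⁻¹ * s))
    rwa [smul_smul, mul_inv_cancel_left₀ ha] at this
  · intro h s
    rw [sig_shD ha, smul_smul]
    exact h _

/-- A countable family of clopen conditions has a common solution on a measurable set. -/
theorem usa_meas {W κ : Type} [MeasurableSpace W] [Countable κ] [Nonempty κ]
    (S : W → κ → Set (ι → ℚ_[p])) (hc : ∀ w j, IsClopen (S w j))
    (hm : ∀ j ω, MeasurableSet {w | ω ∈ S w j}) {K : Set (ι → ℚ_[p])} (hK : IsCompact K)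
    (hK' : IsOpen K) : MeasurableSet {w | ∃ ω ∈ K, ∀ j, ω ∈ S w j} := by
  obtain ⟨f, hf⟩ := exists_surjective_nat κ
  have hcl : ∀ w m, IsClopen (⋂ i ∈ Finset.range m, S w (f i)) := fun w m =>
    isClopen_biInter_finset fun i _ => hc w (f i)
  have e : {w | ∃ ω ∈ K, ∀ j, ω ∈ S w j} = ⋂ m : ℕ, ⋃ r : ι → ℚ,
      ⋃ _ : (fun i => (r i : ℚ_[p])) ∈ K, ⋂ i ∈ Finset.range m,
        {w | (fun i => (r i : ℚ_[p])) ∈ S w (f i)} := by
    ext w
    simp only [Set.mem_iInter, Set.mem_iUnion]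
    constructor
    · rintro ⟨ω, h1, h2⟩ m
      obtain ⟨r, hr⟩ := usa_dense.exists_mem_open (hK'.inter (hcl w m).2)
        ⟨ω, h1, Set.mem_iInter₂.2 fun i _ => h2 (f i)⟩
      exact ⟨r, hr.1, fun i hi => Set.mem_iInter₂.1 hr.2 i hi⟩
    · intro h
      obtain ⟨ω, hω⟩ := IsCompact.nonempty_iInter_of_sequence_nonempty_isCompact_isClosed
        (fun m => K ∩ ⋂ i ∈ Finset.range m, S w (f i))
        (fun m x hx => ⟨hx.1, Set.mem_iInter₂.2 fun i hi => Set.mem_iInter₂.1 hx.2 i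
          (Finset.mem_range.2 ((Finset.mem_range.1 hi).trans (Nat.lt_succ_self m)))⟩)
        (fun m => by
          obtain ⟨r, h1, h2⟩ := h m
          exact ⟨_, h1, Set.mem_iInter₂.2 h2⟩)
        (hK.inter_right (hcl w 0).1) fun m => hK.isClosed.inter (hcl w m).1
      rw [Set.mem_iInter] at hω
      refine ⟨ω, (hω 0).1, fun j => ?_⟩
      obtain ⟨i, rfl⟩ := hf j
      exact Set.mem_iInter₂.1 (hω (i + 1)).2 i (Finset.self_mem_range_succ i)
  rw [e]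
  exact MeasurableSet.iInter fun m => MeasurableSet.iUnion fun r => MeasurableSet.iUnion fun _ =>
    MeasurableSet.iInter fun i => MeasurableSet.iInter fun _ => hm _ _

variable {W : Type} [TopologicalSpace W] [PolishSpace W] [MeasurableSpace W] [BorelSpace W]
  (φ : Flow (ι → ℚ_[p]) W) (ν : Measure W)

theorem sig_flow (c : ι → ℚ_[p]) (w : W) : Sig (dat φ ν (φ c w)) = Sig (dat φ ν w) := by
  ext ω
  constructor
  · intro h l
    filter_upwards [h l, usa_ev (p := p) ‖c‖] with k hk hc v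
    have := hk (v - c)
    rwa [dat_flow φ ν l hc, dat_flow φ ν l hc, sub_add_cancel, add_right_comm, sub_add_cancel]
      at this
  · intro h l
    filter_upwards [h l, usa_ev (p := p) ‖c‖] with k hk hc v
    rw [dat_flow φ ν l hc, dat_flow φ ν l hc, add_right_comm, hk]

theorem lam_flow (c : ι → ℚ_[p]) (w : W) : Lam (dat φ ν (φ c w)) = Lam (dat φ ν w) := by
  unfold Lam
  rw [sig_flow]

theorem usa_meas_SigL (l : ℤ) (ω : ι → ℚ_[p]) :
    MeasurableSet {w | ω ∈ usa_SigL (dat φ ν w) l} := by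
  have e : {w | ω ∈ usa_SigL (dat φ ν w) l} = ⋃ k0 : ℤ, ⋂ k : ℤ, ⋂ _ : k0 ≤ k, ⋂ r : ι → ℚ,
      {w | dat φ ν w k l ((fun i => (r i : ℚ_[p])) + ω) = dat φ ν w k l fun i => (r i : ℚ_[p])} := by
    ext w
    simp only [Set.mem_iInter, Set.mem_iUnion]
    refine eventually_atTop.trans (exists_congr fun k0 => forall₂_congr fun k _ =>
      ⟨fun h r => h _, fun h c => ?_⟩)
    obtain ⟨r, hr⟩ := exists_rat_V c l
    have h1 := ivD_dat φ ν w k l (fun i => (r i : ℚ_[p])) _ hr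
    have h2 := ivD_dat φ ν w k l ((fun i => (r i : ℚ_[p])) + ω) _ hr
    rw [add_sub_cancel] at h1
    rw [add_right_comm, add_sub_cancel] at h2
    rw [h1, h2]
    exact h r
  have hm : ∀ (k : ℤ) (c : ι → ℚ_[p]), Measurable fun w => dat φ ν w k l c := fun k c =>
    Measurable.comp (g := fun z : W × (ι → ℚ_[p]) => dat φ ν z.1 k l z.2) (f := fun w => (w, c))
      (measurable_dat φ ν k l) measurable_prodMk_right
  rw [e]
  exact MeasurableSet.iUnion fun k0 => MeasurableSet.iInter fun k => MeasurableSet.iInter fun _ =>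
    MeasurableSet.iInter fun r => measurableSet_eq_fun (hm k _) (hm k _)

theorem measurableSet_sig {K : Set (ι → ℚ_[p])} (hK : IsCompact K) (hK' : IsOpen K) :
    MeasurableSet {w | ∃ ω ∈ K, ω ∈ Sig (dat φ ν w)} :=
  usa_meas (fun w l => usa_SigL (dat φ ν w) l) (fun w l => usa_clopen_SigL (ivD_dat φ ν w) l)
    (usa_meas_SigL φ ν) hK hK'

theorem measurableSet_lam {K : Set (ι → ℚ_[p])} (hK : IsCompact K) (hK' : IsOpen K) :
    MeasurableSet {w | ∃ d ∈ K, d ∈ Lam (dat φ ν w)} := by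
  have h := usa_meas (κ := ℚ × ℤ)
    (fun w j => (fun d => (j.1 : ℚ_[p]) • d) ⁻¹' usa_SigL (dat φ ν w) j.2)
    (fun w j => (usa_clopen_SigL (ivD_dat φ ν w) j.2).preimage (continuous_const_smul _))
    (fun j d => usa_meas_SigL φ ν j.2 _) hK hK'
  have e : {w | ∃ d ∈ K, d ∈ Lam (dat φ ν w)} = {w | ∃ d ∈ K, ∀ j : ℚ × ℤ,
      d ∈ (fun d => (j.1 : ℚ_[p]) • d) ⁻¹' usa_SigL (dat φ ν w) j.2} := by
    ext w
    refine exists_congr fun d => and_congr_right fun _ => ⟨fun h j => h j.1 j.2, fun h s => ?_⟩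
    exact (Padic.denseRange_ratCast p).induction_on s
      ((ivD_dat φ ν w).isClosed_Sig.preimage (continuous_id.smul continuous_const))
      fun q l => h (q, l)
  rw [e]
  exact h

theorem measurableSet_lam_ne : MeasurableSet {w | ∃ d ∈ Lam (dat φ ν w), d ≠ 0} := by
  have e : {w | ∃ d ∈ Lam (dat φ ν w), d ≠ 0} =
      {w | ∃ d ∈ Metric.sphere (0 : ι → ℚ_[p]) 1, d ∈ Lam (dat φ ν w)} := by
    ext w
    constructor
    · rintro ⟨d, hd, h0⟩
      obtain ⟨t, -, ht⟩ := usa_coord h0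
      refine ⟨t⁻¹ • d, ?_, smul_mem_Lam hd _⟩
      rw [mem_sphere_zero_iff_norm, norm_smul, norm_inv, ht, inv_mul_cancel₀ (norm_ne_zero_iff.2 h0)]
    · rintro ⟨d, h1, hd⟩
      refine ⟨d, hd, ?_⟩
      rintro rfl
      simp at h1
  rw [e]
  exact measurableSet_lam φ ν (isCompact_sphere 0 1)
    (IsUltrametricDist.isOpen_sphere _ one_ne_zero)

theorem mem_Sig_of_dat {w : W} {ω : ι → ℚ_[p]} (h : dat φ ν (φ ω w) = dat φ ν w) :
    ω ∈ Sig (dat φ ν w) := by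
  intro l
  filter_upwards [usa_ev (p := p) ‖ω‖] with k hk c
  rw [← dat_flow φ ν l hk, h]

variable {φ ν}

theorem Gd.sig {w : W} (h : Gd φ ν w) {ω : ι → ℚ_[p]} (hω : ω ∈ Sig (dat φ ν w)) {k : ℤ}
    (hk : ‖ω‖ ≤ (p : ℝ) ^ k) (l : ℤ) (c : ι → ℚ_[p]) :
    dat φ ν w k l (c + ω) = dat φ ν w k l c := by
  by_cases hc : l ≤ k ∧ ‖c‖ ≤ (p : ℝ) ^ k
  · obtain ⟨K, hK, hkK⟩ := ((hω l).and (eventually_ge_atTop k)).exists
    have hc' : ‖c + ω‖ ≤ (p : ℝ) ^ k := norm_add_V hc.2 hk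
    have e1 : dat φ ν w K k c = dat φ ν w K k 0 := by
      rw [← ivD_dat φ ν w K k 0 c hc.2, zero_add]
    have e2 : dat φ ν w K k (c + ω) = dat φ ν w K k 0 := by
      rw [← ivD_dat φ ν w K k 0 _ hc', zero_add]
    have e3 := hK c
    rw [h.chain K k l _ hc.1 hkK, h.chain K k l _ hc.1 hkK, e1, e2] at e3
    have e4 := (ENNReal.mul_right_inj (h.pos K k hkK)
      ((h.bd K k 0).trans_lt ENNReal.ofReal_lt_top).ne).1 e3
    simp only [dat, if_pos hc, if_pos (And.intro hc.1 hc'), e4]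
  · have hc' : ¬ (l ≤ k ∧ ‖c + ω‖ ≤ (p : ℝ) ^ k) := fun h1 => hc ⟨h1.1, by
      have := norm_add_V h1.2 (show ‖-ω‖ ≤ (p : ℝ) ^ k by rwa [norm_neg])
      rwa [add_neg_cancel_right] at this⟩
    simp only [dat, if_neg hc, if_neg hc']

theorem Sys.lam [IsProbabilityMeasure ν] {T : W ≃ᵐ W} {a : ℚ_[p]} {e : ℤ} (h : Sys φ ν T a e)
    (he : e < 0) :
    ∀ᵐ w ∂ν, (∃ ω ∈ Sig (dat φ ν w), ω ≠ 0) → ∃ d ∈ Lam (dat φ ν w), d ≠ 0 := by
  have ha : a ≠ 0 := norm_pos_iff.1 (h.nrm ▸ usa_pos e)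
  have hp0 : (p : ℝ) ≠ 0 := (zero_lt_one.trans usa_one_lt).ne'
  let R : ℤ → Set W := fun n =>
    {w | ∃ ω ∈ Metric.sphere (0 : ι → ℚ_[p]) ((p : ℝ) ^ n), ω ∈ Sig (dat φ ν w)}
  have hR : ∀ n, MeasurableSet (R n) := fun n => measurableSet_sig φ ν (isCompact_sphere _ _)
    (IsUltrametricDist.isOpen_sphere _ (usa_pos n).ne')
  let B : ℤ → Set W := fun n => R n ∩ ⋂ n' : ℤ, ⋂ _ : n < n', (R n')ᶜ
  have hB : ∀ n, MeasurableSet (B n) := fun n => (hR n).inter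
    (MeasurableSet.iInter fun n' => MeasurableSet.iInter fun _ => (hR n').compl)
  have hRT : ∀ᵐ w ∂ν, ∀ n, w ∈ R n ↔ T w ∈ R (n + e) := by
    filter_upwards [h.dat_eq] with w hw n
    constructor
    · rintro ⟨ω, h1, h2⟩
      rw [← hw, sig_shD ha] at h2
      refine ⟨a • ω, ?_, h2⟩
      rw [mem_sphere_zero_iff_norm] at h1 ⊢
      rw [norm_smul, h.nrm, h1, zpow_add₀ hp0, mul_comm]
    · rintro ⟨ω, h1, h2⟩
      refine ⟨a⁻¹ • ω, ?_, ?_⟩
      · rw [mem_sphere_zero_iff_norm] at h1 ⊢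
        rw [norm_smul, norm_inv, h.nrm, h1, zpow_add₀ hp0, mul_comm,
          mul_inv_cancel_right₀ (usa_pos e).ne']
      · rw [← hw, sig_shD ha, smul_inv_smul₀ ha]
        exact h2
  have hBT : ∀ n, ν (B (n + e)) = ν (B n) := by
    intro n
    have h1 : ν (B (n + e)) = ν (T ⁻¹' B (n + e)) := by
      rw [← Measure.map_apply T.measurable (hB _), h.inv]
    rw [h1]
    refine measure_congr ?_
    filter_upwards [hRT] with w hw
    refine propext ⟨fun h2 => ⟨(hw n).2 h2.1, Set.mem_iInter₂.2 fun n' hn' h3 => ?_⟩,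
      fun h2 => ⟨(hw n).1 h2.1, Set.mem_iInter₂.2 fun n' hn' h3 => ?_⟩⟩
    · exact Set.mem_iInter₂.1 h2.2 (n' + e) (by omega) ((hw n').1 h3)
    · refine Set.mem_iInter₂.1 h2.2 (n' - e) (by omega) ((hw (n' - e)).2 ?_)
      rwa [sub_add_cancel]
  have hB0 : ∀ n, ν (B n) = 0 := by
    intro n
    have h1 : ∀ j : ℕ, ν (B (n + j * e)) = ν (B n) := by
      intro j
      induction j with
      | zero => simp
      | succ j ih => rw [← ih, ← hBT (n + j * e)]; congr 2; push_cast; ring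
    have h2 : Pairwise (Function.onFun Disjoint fun j : ℕ => B (n + j * e)) := by
      refine pairwise_disjoint_on _ |>.2 fun i j hij => Set.disjoint_left.2 fun w h3 h4 => ?_
      have : (i : ℤ) < j := by exact_mod_cast hij
      exact Set.mem_iInter₂.1 h4.2 (n + i * e) (by nlinarith) h3.1
    by_contra h0
    have h3 := measure_iUnion (μ := ν) h2 fun j => hB _
    simp only [h1] at h3
    rw [ENNReal.tsum_const_eq_top_of_ne_zero h0] at h3
    exact measure_ne_top _ _ h3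
  have hae : ∀ᵐ w ∂ν, ∀ n, w ∉ B n := ae_all_iff.2 fun n => measure_eq_zero_iff_ae_notMem.1 (hB0 n)
  filter_upwards [hae] with w hw
  rintro ⟨ω, hω, h0⟩
  obtain ⟨d, hd, h1⟩ := (ivD_dat φ ν w).lam_of_unbdd (by
    intro R0
    by_contra hno
    obtain ⟨k, hk⟩ := (usa_ev (p := p) R0).exists
    obtain ⟨n0, hn0⟩ := usa_norm_zpow h0
    obtain ⟨n, hn, hmax⟩ := Int.exists_greatest_of_bdd (P := fun n => w ∈ R n)
      ⟨k, by
        rintro n ⟨x, h1, h2⟩
        by_contra hlt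
        refine hno ⟨x, h2, hk.trans ?_⟩
        rw [mem_sphere_zero_iff_norm.1 h1]
        exact zpow_le_zpow_right₀ usa_one_lt.le (not_le.1 hlt).le⟩
      ⟨n0, ω, mem_sphere_zero_iff_norm.2 hn0, hω⟩
    exact hw n ⟨hn, Set.mem_iInter₂.2 fun n' hn' h3 => absurd (hmax n' h3) (not_le.2 hn')⟩)
  refine ⟨d, hd, ?_⟩
  rintro rfl
  simp at h1

end Pool.Agent.EQ
end
end

-- part Pool.Agent.P.MP_ad7a55_nt.XGf
section

/-! Inside one atom: marginals and tuples. -/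

set_option autoImplicit false

noncomputable section

open Finset Matrix
open scoped MatrixGroups Classical

namespace Pool.Agent.EQ

variable {W 𝔅 : Type} [Fintype 𝔅] {V : Finset W} {b : W → 𝔅} {bs : 𝔅 → Finset ℕ} {A₀ H : ℝ}
  {y : ℕ}

theorem xgf_fib {γ δ : Type} [DecidableEq δ] (S : Finset γ) (T : Finset δ) (f : γ → δ) {A : ℝ}
    (h : ∀ z ∈ S, f z ∈ T) (hA : ∀ d ∈ T, (#{z ∈ S | f z = d} : ℝ) ≤ A) : (#S : ℝ) ≤ A * #T := by
  rw [card_eq_sum_card_fiberwise (f := f) (s := S) (t := T) h, Nat.cast_sum]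
  refine (sum_le_card_nsmul T _ A hA).trans_eq ?_
  rw [nsmul_eq_mul, mul_comm]

theorem xgf_ker {l : ℕ} {η η' Z Z' : M2} (h : η' * Z = Z' * η) {v : V2} (hv : v ∈ Ker l η) :
    Z *ᵥ v ∈ Ker l η' := by
  rw [← mem_Ker_mul, h]
  intro i
  rw [← mulVec_mulVec]
  exact dvd_sum (s := univ) (f := fun j => Z' i j * (η *ᵥ v) j) fun j _ => (hv j).mul_left _

theorem xgf_light {F : W → ℝ} {p p' : W → Prop} {d : ∀ w, Decidable (p w)} {a t : ℝ}
    (hF : ∀ w ∈ V, F w ≤ 1) (h : ∀ w, ¬ p w → p' w) (h1 : prb V p' ≤ t) (h2 : a + t ≤ mn V F) :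
    a ≤ mn V fun w => @ite _ (p w) (d w) (F w) 0 := by
  rw [pb_eq] at h1
  have h3 := mn_add V (fun w => @ite _ (p w) (d w) (F w) 0) fun w => if p' w then 1 else 0
  have h4 : mn V F ≤ mn V fun w => @ite _ (p w) (d w) (F w) 0 + if p' w then 1 else 0 := by
    refine mn_mono fun w hw => ?_
    have e2 := hF w hw
    by_cases a1 : p w
    · rw [if_pos a1]
      split_ifs <;> linarith
    · rw [if_neg a1, if_pos (h w a1)]
      linarith
  linarith

theorem xgf_abs {K : ℕ → Set V2} {β : Finset ℕ} {η : M2} (ha : Adm H K β η) (hH : 0 ≤ H) {N : ℕ}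
    (hN : ∏ l ∈ β, l ≤ N) (i j : Fin 2) : |η i j| ≤ (⌈H * Real.sqrt N⌉₊ : ℤ) := by
  have h1 := ha.2.2 i j
  have h2 : Real.sqrt ((∏ l ∈ β, l : ℕ) : ℝ) ≤ Real.sqrt N :=
    Real.sqrt_le_sqrt (by exact_mod_cast hN)
  have h3 : |(η i j : ℝ)| ≤ (⌈H * Real.sqrt N⌉₊ : ℝ) :=
    (h1.trans (mul_le_mul_of_nonneg_left h2 hH)).trans (Nat.le_ceil _)
  have h4 : ((|η i j| : ℤ) : ℝ) ≤ ((⌈H * Real.sqrt N⌉₊ : ℤ) : ℝ) := by
    rw [Int.cast_abs, Int.cast_natCast]; exact h3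
  exact Int.cast_le.1 h4

theorem margX (hV : V.Nonempty) (hm : ∀ β, (#{w ∈ V | b w = β} : ℝ) ≤ A₀) {η : W → M2}
    {K : ℕ → Set V2} (ha : ∀ w ∈ V, Adm H K (bs (b w)) (η w)) (hy : 1 ≤ y) {B D : Finset ℕ}
    (hB : ∀ q ∈ B, q.Prime ∧ y < q ∧ ∀ w ∈ V, ¬ (q : ℤ) ∣ (η w).det) (hD : D ⊆ B) {φ c : ℝ}
    (hφ : 0 ≤ φ) (hc : 0 ≤ c) (h : ∀ q ∈ D, φ ≤ prb V fun w =>
      (q : ℝ) ^ (c - 3) < prb V fun w' => Pj q (η w') = Pj q (η w)) :
    Real.exp (φ * #D * (c * Real.log y) - #B) * (#V : ℝ) ^ 2 ≤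
      A₀ ^ 2 * ((∏ q ∈ B, q : ℕ) : ℝ) ^ 3 * #{z : 𝔅 × 𝔅 | Coll H K (bs z.1) (bs z.2) B} := by
  have hq1 : ∀ q ∈ B, (1 : ℝ) ≤ q := fun q hq => by exact_mod_cast (hB q hq).1.one_le
  have hqc : ∀ q ∈ B, (q : ℝ) ^ 3 * (q : ℝ) ^ (c - 3) = (q : ℝ) ^ c := fun q hq => by
    have h0 : (0 : ℝ) < q := lt_of_lt_of_le one_pos (hq1 q hq)
    rw [← Real.rpow_natCast, ← Real.rpow_add h0]
    congr 1
    push_cast
    ring
  have key := collide (Λ := fun _ => Set M2) hV B (fun q w => Pj q (η w)) (fun q => (q : ℝ) ^ 3)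
    (fun q => (q : ℝ) ^ (c - 3)) (fun q => if q ∈ D then φ else 0)
    (fun q hq => by
      have h1 := card_Pj (hB q hq).1 (V.image η) fun ξ hξ => by
        obtain ⟨w, hw, rfl⟩ := mem_image.1 hξ
        exact (hB q hq).2.2 w hw
      rw [image_image] at h1
      exact_mod_cast h1)
    (fun q hq => ⟨Real.rpow_pos_of_pos (lt_of_lt_of_le one_pos (hq1 q hq)) _, by
      rw [hqc q hq]; exact Real.one_le_rpow (hq1 q hq) hc⟩)
    (fun q hq => by
      by_cases hd : q ∈ D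
      · simp only [if_pos hd]; exact h q hd
      · simp only [if_neg hd]; exact pb_nonneg _ _)
  have hQ : (0 : ℝ) < ((∏ q ∈ B, q : ℕ) : ℝ) ^ 3 := by
    have : 0 < ∏ q ∈ B, q := prod_pos fun q hq => (hB q hq).1.pos
    positivity
  have hlog : Real.log (((∏ q ∈ B, q : ℕ) : ℝ) ^ 3) = ∑ q ∈ B, Real.log ((q : ℝ) ^ 3) := by
    rw [Nat.cast_prod, ← prod_pow, Real.log_prod]
    intro q hq
    exact (pow_pos (lt_of_lt_of_le one_pos (hq1 q hq)) 3).ne'
  have hs1 : φ * #D * (c * Real.log y) ≤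
      ∑ q ∈ B, (if q ∈ D then φ else 0) * Real.log ((q : ℝ) ^ 3 * (q : ℝ) ^ (c - 3)) := by
    have e1 : φ * #D * (c * Real.log y) =
        ∑ q ∈ B, (if q ∈ D then φ else 0) * (c * Real.log y) := by
      rw [← sum_mul, sum_ite_mem, inter_eq_right.2 hD, sum_const, nsmul_eq_mul]
      ring
    rw [e1]
    refine sum_le_sum fun q hq => mul_le_mul_of_nonneg_left ?_ (by split_ifs; exacts [hφ, le_rfl])
    rw [hqc q hq, Real.log_rpow (lt_of_lt_of_le one_pos (hq1 q hq))]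
    refine mul_le_mul_of_nonneg_left (Real.log_le_log (by exact_mod_cast hy) ?_) hc
    exact_mod_cast (hB q hq).2.1.le
  have hexp : Real.exp (φ * #D * (c * Real.log y) - #B) ≤
      ((∏ q ∈ B, q : ℕ) : ℝ) ^ 3 * Real.exp (∑ q ∈ B, ((if q ∈ D then φ else 0) *
        Real.log ((q : ℝ) ^ 3 * (q : ℝ) ^ (c - 3)) - Real.log ((q : ℝ) ^ 3) - 1)) := by
    rw [← Real.exp_log hQ, ← Real.exp_add, hlog, sum_sub_distrib, sum_sub_distrib, sum_const,
      nsmul_eq_mul, mul_one]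
    exact Real.exp_le_exp.2 (by linarith)
  have hfib := xgf_fib {z ∈ V ×ˢ V | ∀ q ∈ B, Pj q (η z.1) = Pj q (η z.2)}
    {z : 𝔅 × 𝔅 | Coll H K (bs z.1) (bs z.2) B} (fun z => (b z.1, b z.2)) (A := A₀ ^ 2)
    (fun z hz => by
      obtain ⟨h1, h2⟩ := mem_filter.1 hz
      obtain ⟨h3, h4⟩ := mem_product.1 h1
      exact mem_filter.2 ⟨mem_univ _, η z.1, η z.2, ha _ h3, ha _ h4, h2⟩)
    (fun d _ => by
      have h1 : #{z ∈ {z ∈ V ×ˢ V | ∀ q ∈ B, Pj q (η z.1) = Pj q (η z.2)} |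
          (b z.1, b z.2) = d} ≤ #({w ∈ V | b w = d.1} ×ˢ {w ∈ V | b w = d.2}) := by
        refine card_le_card fun z hz => ?_
        obtain ⟨h1, h2⟩ := mem_filter.1 hz
        obtain ⟨h3, h4⟩ := mem_product.1 (mem_filter.1 h1).1
        exact mem_product.2 ⟨mem_filter.2 ⟨h3, congrArg Prod.fst h2⟩,
          mem_filter.2 ⟨h4, congrArg Prod.snd h2⟩⟩
      rw [card_product] at h1
      have h2 : (#{w ∈ V | b w = d.1} : ℝ) * #{w ∈ V | b w = d.2} ≤ A₀ * A₀ :=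
        mul_le_mul (hm _) (hm _) (Nat.cast_nonneg _) ((Nat.cast_nonneg _).trans (hm d.1))
      rw [sq]
      exact le_trans (by exact_mod_cast h1) h2)
  calc _ ≤ _ := mul_le_mul_of_nonneg_right hexp (sq_nonneg _)
    _ = _ := mul_assoc _ _ _
    _ ≤ _ := mul_le_mul_of_nonneg_left (key.trans hfib) hQ.le
    _ = _ := by ring

theorem local_xc (hm : ∀ β, (#{w ∈ V | b w = β} : ℝ) ≤ A₀) {η η' : W → M2} {K K' : ℕ → Set V2}
    (ha : ∀ w ∈ V, Adm H K (bs (b w)) (η w) ∧ Adm H K' (bs (b w)) (η' w)) {L : ℕ} (hy : 1 ≤ y)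
    (hL : ∀ β, ∏ l ∈ bs β, l ≤ (2 * y) ^ L) (hH : 0 ≤ H)
    (h1 : 8 * (H * Real.sqrt ((2 * y) ^ L)) + 9 ≤ (y : ℝ) ^ L) {B : Finset ℕ} {e : ℝ} (he : 0 ≤ e)
    (hB : ∀ q ∈ B, q.Prime ∧ y < q ∧ q ≤ 2 * y ∧ ∃ X X' : M2, ¬ (q : ℤ) ∣ X.det ∧
      e * #V ≤ #{w ∈ V | ∀ i j, (q : ℤ) ∣ (η' w * X - X' * η w) i j}) (r : ℕ)
    (h2 : (8 * L + 1 : ℝ) ≤ e ^ r / 2 * #B) :
    e ^ r / 2 * (#V : ℝ) ^ r ≤ A₀ ^ r * #{t : Fin r → 𝔅 |
      Xc (2 * y * ((y : ℝ) ^ L) ^ 7) K K' (univ.biUnion fun i => bs (t i))} := by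
  have hB' : ∀ q, ∃ X X' : M2, q ∈ B → ¬ (q : ℤ) ∣ X.det ∧
      e * #V ≤ #{w ∈ V | ∀ i j, (q : ℤ) ∣ (η' w * X - X' * η w) i j} := fun q => by
    by_cases hq : q ∈ B
    · obtain ⟨X, X', h⟩ := (hB q hq).2.2.2
      exact ⟨X, X', fun _ => h⟩
    · exact ⟨0, 0, fun h => absurd h hq⟩
  choose X X' hX using hB'
  have hBne : B.Nonempty := by
    rw [nonempty_iff_ne_empty]
    rintro rfl
    rw [card_empty, Nat.cast_zero, mul_zero] at h2
    have : (0 : ℝ) ≤ L := Nat.cast_nonneg _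
    linarith
  have key := tuples V B (fun q => {w ∈ V | ∀ i j, (q : ℤ) ∣ (η' w * X q - X' q * η w) i j}) he
    (fun q hq => ⟨filter_subset _ _, (hX q hq).2⟩) hBne r
  refine key.trans (xgf_fib _ _ (fun t i => b (t i)) ?_ ?_)
  · intro t ht
    obtain ⟨ht1, ht2⟩ := mem_filter.1 ht
    have htV : ∀ i, t i ∈ V := Fintype.mem_piFinset.1 ht1
    obtain ⟨T, hT, mT⟩ : ∃ T : Finset ℕ, 8 * L + 1 ≤ #T ∧ ∀ q ∈ T, q ∈ B ∧
        ∀ s i j, (q : ℤ) ∣ (η' (t s) * X q - X' q * η (t s)) i j := by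
      refine ⟨_, by exact_mod_cast h2.trans ht2, fun q hq => ?_⟩
      obtain ⟨h3, h4⟩ := mem_filter.1 hq
      exact ⟨h3, fun s => (mem_filter.1 (h4 s)).2⟩
    have hN : 8 * ⌈H * Real.sqrt (((2 * y) ^ L : ℕ) : ℝ)⌉₊ + 1 ≤ y ^ L := by
      have h3 := Nat.ceil_lt_add_one (mul_nonneg hH (Real.sqrt_nonneg (((2 * y) ^ L : ℕ) : ℝ)))
      have h4 : (((2 * y) ^ L : ℕ) : ℝ) = (2 * y) ^ L := by push_cast; rfl
      have h5 : ((8 * ⌈H * Real.sqrt (((2 * y) ^ L : ℕ) : ℝ)⌉₊ + 1 : ℕ) : ℝ) ≤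
          ((y ^ L : ℕ) : ℝ) := by
        rw [Nat.cast_add, Nat.cast_mul, Nat.cast_pow y, Nat.cast_one, Nat.cast_ofNat]
        rw [← h4] at h1
        linarith
      exact_mod_cast h5
    have hbig : (8 * ⌈H * Real.sqrt (((2 * y) ^ L : ℕ) : ℝ)⌉₊ + 1) ^ 8 < ∏ q ∈ T, q := by
      have h3 : (y + 1) ^ #T ≤ ∏ q ∈ T, q :=
        pow_card_le_prod T _ _ fun q hq => (hB q (mT q hq).1).2.1
      have h4 : (y + 1) ^ (8 * L + 1) ≤ (y + 1) ^ #T := Nat.pow_le_pow_right (by omega) hT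
      have h5 : (y ^ L) ^ 8 ≤ (y + 1) ^ (8 * L) := by
        rw [← pow_mul, mul_comm]; exact Nat.pow_le_pow_left (by omega) _
      have h6 : (y + 1) ^ (8 * L) < (y + 1) ^ (8 * L + 1) :=
        Nat.pow_lt_pow_right (by omega) (by omega)
      exact (((Nat.pow_le_pow_left hN 8).trans h5).trans_lt h6).trans_le (h4.trans h3)
    obtain ⟨Z, Z', z1, z2, z3⟩ := tv (fun s => η (t s)) (fun s => η' (t s)) (Y := 2 * y) T X X'
      (fun q hq => ⟨(hB q (mT q hq).1).1, (hB q (mT q hq).1).2.2.1, (hX q (mT q hq).1).1,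
        (mT q hq).2⟩)
      (fun s i j => ⟨xgf_abs (ha _ (htV s)).1 hH (hL _) i j,
        xgf_abs (ha _ (htV s)).2 hH (hL _) i j⟩) hbig
    refine mem_filter.2 ⟨mem_univ _, Z, z1, fun i j => ?_, fun l hl v hv => ?_⟩
    · have h3 : ((8 * ⌈H * Real.sqrt (((2 * y) ^ L : ℕ) : ℝ)⌉₊ + 1 : ℕ) : ℤ) ≤ ((y ^ L : ℕ) : ℤ) :=
        Int.ofNat_le.2 hN
      have h4 : |Z i j| ≤ 2 * (y : ℤ) * ((y : ℤ) ^ L) ^ 7 := by
        refine (z2 i j).trans ?_
        push_cast at h3 ⊢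
        exact mul_le_mul_of_nonneg_left (pow_le_pow_left₀ (by positivity) h3 7) (by positivity)
      exact_mod_cast h4
    · obtain ⟨s, _, hs⟩ := mem_biUnion.1 hl
      rw [← (ha _ (htV s)).1.2.1 l hs] at hv
      rw [← (ha _ (htV s)).2.2.1 l hs]
      exact xgf_ker (z3 s) hv
  · intro d _
    refine le_trans (Nat.cast_le.2 (card_le_card
      (t := Fintype.piFinset fun i => {w ∈ V | b w = d i}) fun t ht => ?_)) ?_
    · obtain ⟨h3, h4⟩ := mem_filter.1 ht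
      exact Fintype.mem_piFinset.2 fun i =>
        mem_filter.2 ⟨Fintype.mem_piFinset.1 (mem_filter.1 h3).1 i, congrFun h4 i⟩
    · rw [Fintype.card_piFinset, Nat.cast_prod]
      refine (prod_le_prod (fun i _ => Nat.cast_nonneg _) fun i _ => hm (d i)).trans_eq ?_
      rw [prod_const, card_univ, Fintype.card_fin]

theorem local_gl {ι : Type} [Fintype ι] [Nonempty ι] {c e : ℝ} {q₀ : ℕ} (hG : GLP ι c e q₀)
    (hc : 0 ≤ c) (he : 0 ≤ e) (hq₀ : q₀ ≤ y) (hy : 1 ≤ y) (hV : V.Nonempty) {η : W → ι → M2}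
    {n : W → ℤ} {B : Finset ℕ} (μ μ' : ℕ → (ι → Set V2) → ℝ) (Y : ℕ → W → Finset (ι → Set V2))
    (s₀ : ℕ → ℝ) {θ : ℝ} (hθ : 0 < θ) (hd : ∀ w ∈ V, ∀ k, (η w k).det = n w)
    (hB : ∀ q ∈ B, q.Prime ∧ y < q ∧ q ≤ 2 * y ∧ (∀ w ∈ V, ¬ (q : ℤ) ∣ n w) ∧
      (∀ z, 0 ≤ μ q z ∧ 0 ≤ μ' q z) ∧ ∑ z ∈ Fintype.piFinset fun _ : ι => Xn q, μ q z ≤ 1 ∧
      ∑ z ∈ Fintype.piFinset fun _ : ι => Xn q, μ' q z ≤ 1 ∧ 0 < s₀ q ∧
      Real.sqrt q ≤ s₀ q * (q : ℝ) ^ Fintype.card ι ∧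
      ∀ w ∈ V, ∀ z ∈ Y q w, (z ∈ Fintype.piFinset fun _ : ι => Xn q) ∧ s₀ q ≤ μ q z ∧
        (q : ℝ) ^ (-c) * μ q z ≤ μ' q fun k => {v | (η w k).adjugate *ᵥ v ∈ z k})
    (h1 : θ ≤ mn V fun w => mn B fun q => ∑ z ∈ Y q w, μ q z) (h2 : (y : ℝ) ^ (-(c / 4)) ≤ θ / 4)
    (h3 : ∀ k, (#(B.filter fun q : ℕ => θ / (4 * Fintype.card ι) ≤ prb V fun w => (q : ℝ) ^ (c - 3) <
      prb V fun w' => Pj q (η w' k) = Pj q (η w k)) : ℝ) ≤ θ / (4 * Fintype.card ι) * #B) :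
    ∃ k l, k ≠ l ∧ ∃ B' ⊆ B, θ / (4 * (Fintype.card ι : ℝ) ^ 2) * #B ≤ #B' ∧ ∀ q ∈ B',
      ∃ X X' : M2, ¬ (q : ℤ) ∣ X.det ∧ (2 * y : ℝ) ^ (-e) * #V ≤
        #{w ∈ V | ∀ i j, (q : ℤ) ∣ (η w l * X - X' * η w k) i j} := by
  have hm0 : (0 : ℝ) < Fintype.card ι := by exact_mod_cast Fintype.card_pos
  have hy0 : (0 : ℝ) < y := by exact_mod_cast hy
  have hS : ∀ q ∈ B, ∀ w ∈ V, ∑ z ∈ Y q w, μ q z ≤ 1 := fun q hq w hw => by
    obtain ⟨-, -, -, -, g1, g2, -, -, -, g3⟩ := hB q hq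
    exact (sum_le_sum_of_subset_of_nonneg (fun z hz => (g3 w hw z hz).1)
      fun z _ _ => (g1 z).1).trans g2
  rw [mn_swap V B fun w q => ∑ z ∈ Y q w, μ q z] at h1
  have hBne : B.Nonempty := by
    rw [nonempty_iff_ne_empty]
    rintro rfl
    rw [mn, sum_empty, zero_div] at h1
    linarith
  have hB0 : (0 : ℝ) < #B := by exact_mod_cast hBne.card_pos
  have hrev := pb_rev (O := B) (G := fun q => mn V fun w => ∑ z ∈ Y q w, μ q z) (B := 1)
    (t := θ / 2) one_pos (fun q hq => (mn_mono (hS q hq)).trans_eq (mn_const hV 1)) (by linarith)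
  obtain ⟨G, hG1, hG2⟩ : ∃ G : Finset ℕ, θ / 2 * #B ≤ #G ∧
      ∀ q ∈ G, q ∈ B ∧ θ / 2 ≤ mn V fun w => ∑ z ∈ Y q w, μ q z := by
    unfold prb at hrev
    rw [div_one, le_div_iff₀ hB0] at hrev
    exact ⟨_, le_trans (mul_le_mul_of_nonneg_right (by linarith) hB0.le) hrev,
      fun q hq => mem_filter.1 hq⟩
  obtain ⟨Bad, hb1, hb2⟩ : ∃ Bad : ι → Finset ℕ,
      (∀ k, (#(Bad k) : ℝ) ≤ θ / (4 * Fintype.card ι) * #B) ∧ ∀ k, ∀ q ∈ B, q ∉ Bad k →
        (prb V fun w => (q : ℝ) ^ (c - 3) < prb V fun w' => Pj q (η w' k) = Pj q (η w k)) <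
          θ / (4 * Fintype.card ι) :=
    ⟨_, h3, fun k q hq hn => not_le.1 fun hh => hn (mem_filter.2 ⟨hq, hh⟩)⟩
  have hsum : ∀ t : ℝ, ∑ _k : ι, θ / (4 * Fintype.card ι) * t = θ / 4 * t := fun t => by
    rw [sum_const, card_univ, nsmul_eq_mul]
    field_simp
  have hGood : θ / 4 * #B ≤ #(G \ univ.biUnion Bad) := by
    have e1 : (#G : ℝ) ≤ #(G \ univ.biUnion Bad) + #(univ.biUnion Bad) := by
      exact_mod_cast card_le_card_sdiff_add_card
    have e2 : (#(univ.biUnion Bad) : ℝ) ≤ ∑ k, (#(Bad k) : ℝ) := by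
      exact_mod_cast card_biUnion_le
    have e3 : ∑ k, (#(Bad k) : ℝ) ≤ θ / 4 * #B :=
      (sum_le_sum fun k _ => hb1 k).trans_eq (hsum _)
    linarith
  have hall : ∀ q, ∃ p : ι × ι, q ∈ G \ univ.biUnion Bad → p.1 ≠ p.2 ∧ ∃ X X' : M2,
      ¬ (q : ℤ) ∣ X.det ∧ (2 * y : ℝ) ^ (-e) * #V ≤
        #{w ∈ V | ∀ i j, (q : ℤ) ∣ (η w p.2 * X - X' * η w p.1) i j} := fun q => by
    by_cases hq : q ∈ G \ univ.biUnion Bad
    swap
    · exact ⟨Classical.arbitrary _, fun h => absurd h hq⟩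
    obtain ⟨hq1, hq2⟩ := mem_sdiff.1 hq
    obtain ⟨hqB, hq3⟩ := hG2 q hq1
    obtain ⟨g1, g2, g3, g4, g5, g6, g7, g8, g9, g10⟩ := hB q hqB
    have hq0 : (0 : ℝ) < q := by exact_mod_cast g1.pos
    have hyq : (y : ℝ) ≤ q := by exact_mod_cast g2.le
    have hheavy : (prb V fun w => ∃ k ∈ (univ : Finset ι),
        (q : ℝ) ^ (c - 3) < prb V fun w' => Pj q (η w' k) = Pj q (η w k)) ≤ θ / 4 := by
      refine (pb_exists V univ fun k w =>
        (q : ℝ) ^ (c - 3) < prb V fun w' => Pj q (η w' k) = Pj q (η w k)).trans ?_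
      have e := hsum 1
      simp only [mul_one] at e
      rw [← e]
      exact sum_le_sum fun k _ =>
        (hb2 k q hqB fun hk => hq2 (mem_biUnion.2 ⟨k, mem_univ k, hk⟩)).le
    obtain ⟨k, l, hkl, X, X', x1, x2⟩ := hG q g1 (hq₀.trans g2.le) W V η n (μ q) (μ' q) (Y q)
      (s₀ q) hV (fun w hw => ⟨g4 w hw, hd w hw⟩) g5 g6 g7 g8 g9 g10 (by
        have e1 : (q : ℝ) ^ (-(c / 4)) ≤ (y : ℝ) ^ (-(c / 4)) :=
          Real.rpow_le_rpow_of_nonpos hy0 hyq (by linarith)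
        refine xgf_light (hS q hqB) (fun w hn => ?_) hheavy (le_trans (by linarith) hq3)
        obtain ⟨k, hk⟩ := not_forall.1 hn
        exact ⟨k, mem_univ k, not_le.1 hk⟩)
    refine ⟨(k, l), fun _ => ⟨hkl, X, X', x1, le_trans ?_ (x2.trans (Nat.cast_le.2
      (card_le_card fun w hw => by simp only [mem_filter] at hw ⊢; exact hw)))⟩⟩
    refine mul_le_mul_of_nonneg_right ?_ (Nat.cast_nonneg _)
    exact Real.rpow_le_rpow_of_nonpos hq0 (by exact_mod_cast g3) (by linarith)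
  choose f hf using hall
  obtain ⟨p, -, hp⟩ := exists_le_card_fiber_of_nsmul_le_card_of_maps_to
    (s := G \ univ.biUnion Bad) (t := (univ : Finset (ι × ι))) (f := f)
    (b := θ / (4 * (Fintype.card ι : ℝ) ^ 2) * #B) (fun _ _ => mem_univ _) univ_nonempty (by
      refine le_trans (le_of_eq ?_) hGood
      rw [card_univ, Fintype.card_prod, nsmul_eq_mul, Nat.cast_mul]
      field_simp)
  have hpos : 0 < #{q ∈ G \ univ.biUnion Bad | f q = p} := by
    have : (0 : ℝ) < θ / (4 * (Fintype.card ι : ℝ) ^ 2) * #B := by positivity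
    exact_mod_cast this.trans_le hp
  obtain ⟨q₁, hq₁⟩ := card_pos.1 hpos
  refine ⟨p.1, p.2, ?_, _, fun q hq => (hG2 q (mem_sdiff.1 (mem_filter.1 hq).1).1).1, hp, ?_⟩
  · rw [← (mem_filter.1 hq₁).2]
    exact (hf q₁ (mem_filter.1 hq₁).1).1
  · intro q hq
    rw [← (mem_filter.1 hq).2]
    exact (hf q (mem_filter.1 hq).1).2

end Pool.Agent.EQ
end
end

-- part Pool.Agent.P.MP_ad7a55_nt.Aut
section

/-! Automorphisms of ℂ. -/

set_option autoImplicit false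

noncomputable section

open MeasureTheory Topology Filter UpperHalfPlane
open scoped MatrixGroups ENNReal BoundedContinuousFunction

namespace Pool.Agent.EQ

theorem aut_aux {R K L : Type} [CommRing R] [Nontrivial R] [Field K] [Field L] [Algebra R K]
    [Algebra R L] [IsAlgClosed K] [IsAlgClosed L] (iK : Function.Injective (algebraMap R K))
    (iL : Function.Injective (algebraMap R L)) (hR : Cardinal.mk R ≤ Cardinal.aleph0)
    (hK : Cardinal.aleph0 < Cardinal.mk K) (hKL : Cardinal.mk K = Cardinal.mk L) :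
    ∃ σ : K ≃+* L, ∀ a, σ (algebraMap R K a) = algebraMap R L a := by
  haveI : FaithfulSMul R K := (faithfulSMul_iff_algebraMap_injective R K).2 iK
  haveI : FaithfulSMul R L := (faithfulSMul_iff_algebraMap_injective R L).2 iL
  obtain ⟨s, hs⟩ := exists_isTranscendenceBasis R K
  obtain ⟨t, ht⟩ := exists_isTranscendenceBasis R L
  have h1 := IsAlgClosed.cardinal_eq_cardinal_transcendence_basis_of_aleph0_lt' _ hs hR hK
  have h2 := IsAlgClosed.cardinal_eq_cardinal_transcendence_basis_of_aleph0_lt' _ ht hR (hKL ▸ hK)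
  obtain ⟨e⟩ : Nonempty (s ≃ t) := Cardinal.eq.1 (h1.symm.trans (hKL.trans h2))
  letI := IsAlgClosed.isAlgClosure_of_transcendence_basis _ hs
  letI := IsAlgClosed.isAlgClosure_of_transcendence_basis _ ht
  let e' : Algebra.adjoin R (Set.range ((↑) : s → K)) ≃ₐ[R]
      Algebra.adjoin R (Set.range ((↑) : t → L)) :=
    hs.1.aevalEquiv.symm.trans ((MvPolynomial.renameEquiv R e).trans ht.1.aevalEquiv)
  refine ⟨IsAlgClosure.equivOfEquiv K L e'.toRingEquiv, fun a => ?_⟩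
  rw [IsScalarTower.algebraMap_apply R (Algebra.adjoin R (Set.range ((↑) : s → K))) K a,
    IsAlgClosure.equivOfEquiv_algebraMap]
  have : e'.toRingEquiv (algebraMap R _ a) = algebraMap R _ a := e'.commutes a
  rw [this, ← IsScalarTower.algebraMap_apply]

theorem aut_ring {A : Type} [CommRing A] [Nontrivial A] (hA : Cardinal.mk A ≤ Cardinal.aleph0)
    (φ ψ : A →+* ℂ) (hφ : Function.Injective φ) (hψ : Function.Injective ψ) :
    ∃ σ : ℂ ≃+* ℂ, ∀ a, σ (φ a) = ψ a := by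
  have hC : Cardinal.aleph0 < Cardinal.mk ℂ := by
    rw [Cardinal.mk_complex]; exact Cardinal.aleph0_lt_continuum
  exact @aut_aux A ℂ ℂ _ _ _ _ φ.toAlgebra ψ.toAlgebra _ _ hφ hψ hA hC rfl

/-- Two embeddings of a countable field differ by an automorphism of `ℂ`. -/
theorem exists_aut {A : Type} [Field A] [Countable A] (φ ψ : A →+* ℂ) :
    ∃ σ : ℂ ≃+* ℂ, ∀ a, σ (φ a) = ψ a :=
  aut_ring Cardinal.mk_le_aleph0 φ ψ φ.injective ψ.injective

theorem exists_aut_transc {x y : ℂ} (hx : Transcendental ℚ x) (hy : Transcendental ℚ y) :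
    ∃ σ : ℂ ≃+* ℂ, σ x = y := by
  have hA : Cardinal.mk (Polynomial ℚ) ≤ Cardinal.aleph0 := by
    refine Polynomial.cardinalMk_le_max.trans ?_
    simp
  obtain ⟨σ, hσ⟩ := aut_ring hA (Polynomial.aeval x : Polynomial ℚ →ₐ[ℚ] ℂ).toRingHom
    (Polynomial.aeval y : Polynomial ℚ →ₐ[ℚ] ℂ).toRingHom
    (transcendental_iff_injective.1 hx) (transcendental_iff_injective.1 hy)
  refine ⟨σ, ?_⟩
  simpa using hσ Polynomial.X

theorem algebraic_of_finite_orbit {x : ℂ} (h : {y | ∃ σ : ℂ ≃+* ℂ, σ x = y}.Finite) :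
    IsAlgebraic ℚ x := by
  by_contra hx
  have hx' : Transcendental ℚ x := hx
  refine h.not_infinite (Set.infinite_of_injective_forall_mem (f := fun n : ℕ => x + n) ?_ ?_)
  · intro a b hab
    simpa using hab
  · intro n
    refine exists_aut_transc hx' fun hn => hx ?_
    have h2 : IsAlgebraic ℚ ((n : ℕ) : ℂ) := isAlgebraic_natCast n
    simpa using hn.sub h2

/-- `σ` fixes all algebraic numbers of degree at most `d`. -/
def FixD (d : ℕ) (σ : ℂ ≃+* ℂ) : Prop :=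
  ∀ (x : ℂ) (P : Polynomial ℚ), P ≠ 0 → P.natDegree ≤ d → Polynomial.aeval x P = 0 → σ x = x

theorem aut_root (σ : ℂ ≃+* ℂ) {x : ℂ} {P : Polynomial ℚ} (h : Polynomial.aeval x P = 0) :
    Polynomial.aeval (σ x) P = 0 := by
  have := Polynomial.aeval_algHom_apply (σ.toRingHom.toRatAlgHom) x P
  rw [h, map_zero] at this
  exact this

theorem aut_pow_fix (σ : ℂ ≃+* ℂ) {x : ℂ} {k : ℕ} (h : (σ ^ k) x = x) (m : ℕ) :
    (σ ^ (k * m)) x = x := by
  induction m with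
  | zero => simp only [mul_zero, pow_zero]; rfl
  | succ m ih =>
    rw [mul_add, mul_one, pow_add]
    change (σ ^ (k * m)) ((σ ^ k) x) = x
    rw [h, ih]

theorem fixD_pow (d : ℕ) (σ : ℂ ≃+* ℂ) : FixD d (σ ^ d.factorial) := by
  classical
  intro x P hP hd hx
  have hmaps : ∀ k ∈ Finset.range (d + 1), (σ ^ k) x ∈ (P.aroots ℂ).toFinset := by
    intro k _
    rw [Multiset.mem_toFinset, Polynomial.mem_aroots]
    exact ⟨hP, aut_root _ hx⟩
  have hcard : (P.aroots ℂ).toFinset.card < (Finset.range (d + 1)).card := by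
    rw [Finset.card_range]
    have h1 := Multiset.toFinset_card_le (P.aroots ℂ)
    have h2 := Polynomial.card_roots' (P.map (algebraMap ℚ ℂ))
    have h3 := Polynomial.natDegree_map_le (f := algebraMap ℚ ℂ) (p := P)
    have h4 : Multiset.card (P.aroots ℂ) = Multiset.card (P.map (algebraMap ℚ ℂ)).roots := rfl
    omega
  obtain ⟨i, hi, j, hj, hij, he⟩ := Finset.exists_ne_map_eq_of_card_lt_of_maps_to hcard hmaps
  have key : ∀ i j : ℕ, i < j → j < d + 1 → (σ ^ i) x = (σ ^ j) x → (σ ^ d.factorial) x = x := by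
    intro i j hlt hj he
    obtain ⟨k, rfl⟩ := Nat.exists_eq_add_of_lt hlt
    have h1 : (σ ^ (k + 1)) x = x := by
      apply (σ ^ i).injective
      rw [he, add_assoc, pow_add σ i]
      rfl
    obtain ⟨m, hm⟩ : k + 1 ∣ d.factorial := Nat.dvd_factorial (Nat.succ_pos k) (by omega)
    rw [hm]
    exact aut_pow_fix σ h1 m
  rw [Finset.mem_range] at hi hj
  rcases lt_or_gt_of_ne hij with h | h
  · exact key i j h hj he
  · exact key j i h hi he.symm

theorem FixD.mul {d : ℕ} {σ τ : ℂ ≃+* ℂ} (h : FixD d σ) (h' : FixD d τ) : FixD d (σ * τ) := by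
  intro x P hP hd hx
  change σ (τ x) = x
  rw [h' x P hP hd hx, h x P hP hd hx]

theorem FixD.conj {d : ℕ} {σ : ℂ ≃+* ℂ} (h : FixD d σ) (τ : ℂ ≃+* ℂ) : FixD d (τ * σ * τ⁻¹) := by
  intro x P hP hd hx
  change τ (σ (τ.symm x)) = x
  rw [h (τ.symm x) P hP hd (aut_root _ hx), RingEquiv.apply_symm_apply]

theorem FixD.th {d : ℕ} (hd : 2 ≤ d) {σ : ℂ ≃+* ℂ} (h : FixD d σ) {D : ℤ} (hD : D ≤ 0) :
    σ (th D) = th D := by
  refine h _ (Polynomial.X ^ 2 - Polynomial.C (D : ℚ)) (Polynomial.X_pow_sub_C_ne_zero (by norm_num) _)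
    ?_ ?_
  · rw [Polynomial.natDegree_X_pow_sub_C]; exact hd
  · simp [th_sq hD]

theorem FixD.field {d : ℕ} {σ : ℂ ≃+* ℂ} (h : FixD d σ) (F : IntermediateField ℚ ℂ)
    [FiniteDimensional ℚ F] (hd : Module.finrank ℚ F ≤ d) : ∀ a ∈ F, σ a = a := by
  intro a ha
  have hi : IsIntegral ℚ (⟨a, ha⟩ : F) := IsIntegral.of_finite ℚ _
  refine h a (minpoly ℚ (⟨a, ha⟩ : F)) (minpoly.ne_zero hi)
    ((minpoly.natDegree_le _).trans hd) ?_
  have := Polynomial.aeval_algebraMap_apply ℂ (⟨a, ha⟩ : F) (minpoly ℚ (⟨a, ha⟩ : F))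
  rw [minpoly.aeval, map_zero] at this
  exact this

theorem aut_th (σ : ℂ ≃+* ℂ) {D : ℤ} (hD : D ≤ 0) : σ (th D) = th D ∨ σ (th D) = -th D := by
  apply sq_eq_sq_iff_eq_or_eq_neg.1
  rw [← map_pow, th_sq hD, map_intCast]

theorem aut_th_ne {D : ℤ} (hD : D < 0) : th D ≠ 0 := by
  intro h
  have := th_sq hD.le
  rw [h] at this
  have h2 : (D : ℂ) = 0 := by rw [← this]; norm_num
  exact hD.ne (by exact_mod_cast h2)

theorem exists_tau {D D' : ℤ} (hD : D < 0) (hD' : D' < 0) (h : ¬ IsSquare (D' * D)) :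
    ∃ τ : ℂ ≃+* ℂ, τ (th D) = th D ∧ τ (th D') = -th D' := by
  have hs : (th D' * th D) * (th D' * th D) = ((D' * D : ℤ) : ℂ) := by
    have h1 := th_sq hD.le
    have h2 := th_sq hD'.le
    push_cast
    rw [← h1, ← h2]; ring
  have hs' : (-(th D' * th D)) * (-(th D' * th D)) = ((D' * D : ℤ) : ℂ) := by
    rw [neg_mul_neg, hs]
  have hn : ∀ n : ℤ, D' * D ≠ n * n := fun n hn => h ⟨n, hn⟩
  haveI : Countable (Zsqrtd (D' * D)) :=
    Function.Injective.countable (f := fun a : Zsqrtd (D' * D) => (a.re, a.im))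
      fun a b hab => Zsqrtd.ext (congrArg Prod.fst hab) (congrArg Prod.snd hab)
  obtain ⟨σ, hσ⟩ := aut_ring (A := Zsqrtd (D' * D)) Cardinal.mk_le_aleph0
    (Zsqrtd.lift ⟨_, hs⟩) (Zsqrtd.lift ⟨_, hs'⟩) (Zsqrtd.lift_injective _ hn)
    (Zsqrtd.lift_injective _ hn)
  have h0 : σ (th D') * σ (th D) = -(th D' * th D) := by
    have := hσ Zsqrtd.sqrtd
    simpa using this
  have n1 := aut_th_ne hD
  have n2 := aut_th_ne hD'
  have n3 : th D' * th D ≠ 0 := mul_ne_zero n2 n1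
  rcases aut_th σ hD.le with a | a <;> rcases aut_th σ hD'.le with b | b
  · rw [a, b] at h0
    exact absurd (by linear_combination h0 / 2) n3
  · exact ⟨σ, a, b⟩
  · refine ⟨σ.trans (starRingAut : RingAut ℂ), ?_, ?_⟩
    · change starRingEnd ℂ (σ (th D)) = th D
      rw [a, map_neg, conj_th, neg_neg]
    · change starRingEnd ℂ (σ (th D')) = -th D'
      rw [b, conj_th]
  · rw [a, b] at h0
    exact absurd (by linear_combination h0 / 2) n3

end Pool.Agent.EQ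
end
end

-- part Pool.Agent.P.MP_ad7a55_nt.Fac
section

/-! Prime ideals and factorisation. -/

set_option autoImplicit false

noncomputable section

open MeasureTheory Topology Filter UpperHalfPlane
open scoped MatrixGroups ENNReal BoundedContinuousFunction

namespace Pool.Agent.EQ

/-- A prime ideal of degree one, prime to `2D`. -/
def PrI (D : ℤ) (q : ℕ) (𝔮 : Lt) : Prop :=
  q.Prime ∧ ¬ (q : ℤ) ∣ 2 * D ∧ ∃ b : ℤ, 4 * (q : ℤ) ∣ b ^ 2 - D ∧ 𝔮 = sp q ((-b + th D) / 2)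

theorem th_im_pos_fac {D : ℤ} (hD : D < 0) : 0 < (th D).im := by
  have : (0 : ℝ) < -(D : ℝ) := by
    have : (D : ℝ) < 0 := by exact_mod_cast hD
    linarith
  simpa [th] using Real.sqrt_pos.2 this

theorem left_mem_sp_fac (a b : ℂ) : a ∈ sp a b := mem_sp.2 ⟨1, 0, by simp⟩

theorem right_mem_sp_fac (a b : ℂ) : b ∈ sp a b := mem_sp.2 ⟨0, 1, by simp⟩

theorem sp_le_fac {a b : ℂ} {Λ : Lt} (ha : a ∈ Λ) (hb : b ∈ Λ) : sp a b ≤ Λ := by
  rw [sp, Submodule.span_le]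
  rintro x (rfl | rfl)
  exacts [ha, hb]

theorem int_mul_mem_fac {Λ : Lt} (n : ℤ) {v : ℂ} (h : v ∈ Λ) : (n : ℂ) * v ∈ Λ := by
  simpa using Λ.smul_mem n h

theorem int_mem_OD_fac (D n : ℤ) : (n : ℂ) ∈ OD D := by
  simpa using int_mul_mem_fac n (one_mem_OD D)

theorem sp_mul_le_fac {a b c d : ℂ} {Λ : Lt} (h1 : a * c ∈ Λ) (h2 : a * d ∈ Λ) (h3 : b * c ∈ Λ)
    (h4 : b * d ∈ Λ) : sp a b * sp c d ≤ Λ := by
  rw [Submodule.mul_le]
  intro x hx y hy
  obtain ⟨m, n, rfl⟩ := mem_sp.1 hx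
  obtain ⟨k, l, rfl⟩ := mem_sp.1 hy
  have : (m * a + n * b) * (k * c + l * d) = ((m * k : ℤ) : ℂ) * (a * c) + ((m * l : ℤ) : ℂ) * (a * d)
      + ((n * k : ℤ) : ℂ) * (b * c) + ((n * l : ℤ) : ℂ) * (b * d) := by
    push_cast; ring
  rw [this]
  exact Λ.add_mem (Λ.add_mem (Λ.add_mem (int_mul_mem_fac _ h1) (int_mul_mem_fac _ h2))
    (int_mul_mem_fac _ h3)) (int_mul_mem_fac _ h4)

theorem mem_of_coprime_fac {Λ : Lt} {m n : ℤ} (h : IsCoprime m n) {v : ℂ} (h1 : (m : ℂ) * v ∈ Λ)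
    (h2 : (n : ℂ) * v ∈ Λ) : v ∈ Λ := by
  obtain ⟨x, y, hxy⟩ := h
  have e : (x : ℂ) * m + y * n = 1 := by exact_mod_cast hxy
  have : v = x * (m * v) + y * (n * v) := by linear_combination (-v) * e
  rw [this]
  exact Λ.add_mem (int_mul_mem_fac _ h1) (int_mul_mem_fac _ h2)

/-- The quadratic equation of the second generator. -/
theorem beta_sq_fac {D m b c : ℤ} (hD : D < 0) (h : b ^ 2 - D = 4 * m * c) :
    ((-b + th D) / 2 : ℂ) * ((-b + th D) / 2) = -b * ((-b + th D) / 2) - m * c := by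
  have e : (b : ℂ) ^ 2 - D = 4 * m * c := by exact_mod_cast h
  linear_combination (1 / 4 : ℂ) * th_sq hD.le - (1 / 4 : ℂ) * e

theorem parity_fac {D b k : ℤ} (h : b ^ 2 - D = 4 * k) : ∃ e : ℤ, b + D = 2 * e := by
  have h1 : Even (b * (b + 1)) := Int.even_mul_succ_self b
  obtain ⟨r, hr⟩ := h1
  exact ⟨r - 2 * k, by linear_combination hr - h⟩

theorem beta_mem_fac {D b k : ℤ} (h : b ^ 2 - D = 4 * k) : ((-b + th D) / 2 : ℂ) ∈ OD D := by
  obtain ⟨e, he⟩ := parity_fac h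
  have e1 : (b : ℂ) + D = 2 * e := by exact_mod_cast he
  exact mem_sp.2 ⟨-e, 1, by push_cast; linear_combination (-1 / 2 : ℂ) * e1⟩

theorem coprime_fac {D m b c : ℤ} (h : b ^ 2 - D = 4 * m * c) (hm : IsCoprime m D) :
    IsCoprime m b := by
  obtain ⟨x, y, hxy⟩ := hm
  exact ⟨x - 4 * c * y, y * b, by linear_combination hxy + y * h⟩

theorem discL_fac {D m b c : ℤ} (hD : D < 0) (hm : 0 < m) (h : b ^ 2 - D = 4 * m * c)
    (hc : IsCoprime m D) : DiscL (sp m ((-b + th D) / 2)) D := by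
  have hm0 : (m : ℂ) ≠ 0 := by exact_mod_cast hm.ne'
  have him : 0 < (((-b + th D) / 2 : ℂ) / m).im := by
    have h1 := th_im_pos_fac hD
    have h2 : (0 : ℝ) < m := by exact_mod_cast hm
    rw [Complex.div_intCast_im]
    refine div_pos ?_ h2
    simpa using h1
  refine ⟨m, ⟨_, him⟩, hm0, ?_, m, b, c, hm, ?_, ?_, by linear_combination -h⟩
  · congr 1
    change _ = (m : ℂ) * (((-b + th D) / 2 : ℂ) / m)
    field_simp
  · rw [Int.isCoprime_iff_gcd_eq_one.1 (coprime_fac h hc)]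
    simp
  · change (m : ℂ) * (((-b + th D) / 2 : ℂ) / m) ^ 2 + b * (((-b + th D) / 2 : ℂ) / m) + c = 0
    have := beta_sq_fac hD h
    generalize ((-b + th D) / 2 : ℂ) = β at this ⊢
    field_simp
    linear_combination this

theorem PrI.spec_fac {D : ℤ} {q : ℕ} {𝔮 : Lt} (h : PrI D q 𝔮) : IsCoprime (q : ℤ) D ∧
    ∃ b c : ℤ, b ^ 2 - D = 4 * q * c ∧ 𝔮 = sp (q : ℤ) ((-b + th D) / 2) := by
  obtain ⟨hq, hD, b, ⟨c, hc⟩, rfl⟩ := h
  refine ⟨?_, b, c, hc, by simp⟩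
  exact ((Nat.prime_iff_prime_int.1 hq).irreducible.coprime_iff_not_dvd).2
    fun h => hD (h.mul_left 2)

theorem PrI.discL {D : ℤ} (hD : D < 0) {q : ℕ} {𝔮 : Lt} (h : PrI D q 𝔮) : DiscL 𝔮 D := by
  obtain ⟨h1, b, c, h2, rfl⟩ := h.spec_fac
  exact discL_fac hD (by exact_mod_cast h.1.pos) h2 h1

theorem PrI.cj {D : ℤ} {q : ℕ} {𝔮 : Lt} (h : PrI D q 𝔮) : PrI D q (cj 𝔮) := by
  obtain ⟨hq, hD, b, hb, rfl⟩ := h
  refine ⟨hq, hD, -b, by simpa using hb, ?_⟩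
  have e : starRingEnd ℂ ((-b + th D) / 2 : ℂ) = -((-((-b : ℤ) : ℂ) + th D) / 2) := by
    rw [map_div₀, map_add, conj_th]
    simp only [map_neg, map_intCast, map_ofNat]
    push_cast; ring
  rw [cj_sp, e, map_natCast]
  refine le_antisymm (sp_le_fac (left_mem_sp_fac _ _) (Submodule.neg_mem _ (right_mem_sp_fac _ _)))
    (sp_le_fac (left_mem_sp_fac _ _) ?_)
  simpa using Submodule.neg_mem _ (right_mem_sp_fac (q : ℂ) (-((-((-b : ℤ) : ℂ) + th D) / 2)))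

theorem PrI.le {D : ℤ} {q : ℕ} {𝔮 : Lt} (h : PrI D q 𝔮) : 𝔮 ≤ OD D := by
  obtain ⟨-, b, c, h2, rfl⟩ := h.spec_fac
  exact sp_le_fac (int_mem_OD_fac _ _) (beta_mem_fac (k := q * c) (by linear_combination h2))

theorem PrI.mul_cj {D : ℤ} (hD : D < 0) {q : ℕ} {𝔮 : Lt} (h : PrI D q 𝔮) :
    𝔮 * Pool.Agent.EQ.cj 𝔮 = pr q * OD D := by
  obtain ⟨h1, b, c, h2, rfl⟩ := h.spec_fac
  have hb := beta_mem_fac (D := D) (b := b) (k := q * c) (by linear_combination h2)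
  have hs := beta_sq_fac hD h2
  have e : starRingEnd ℂ ((-b + th D) / 2 : ℂ) = -b - ((-b + th D) / 2) := by
    rw [map_div₀, map_add, conj_th]
    simp only [map_neg, map_intCast, map_ofNat]
    ring
  obtain ⟨k, hk⟩ := parity_fac (k := q * c) (by linear_combination h2 : b ^ 2 - D = 4 * (q * c))
  have hk' : (b : ℂ) + D = 2 * k := by exact_mod_cast hk
  have hω : ((D + th D) / 2 : ℂ) = k + (-b + th D) / 2 := by linear_combination (1 / 2 : ℂ) * hk'
  rw [cj_sp, e, map_intCast]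
  have hco := coprime_fac h2 h1
  generalize ((-b + th D) / 2 : ℂ) = β at hb hs hω ⊢
  push_cast at hs ⊢
  apply le_antisymm
  · refine sp_mul_le_fac (mem_pr_mul.2 ⟨_, int_mem_OD_fac D q, by simp⟩)
      (mem_pr_mul.2 ⟨_, (OD D).sub_mem (int_mem_OD_fac D (-b)) hb, by simp⟩)
      (mem_pr_mul.2 ⟨_, hb, by ring⟩)
      (mem_pr_mul.2 ⟨_, int_mem_OD_fac D c, by linear_combination hs⟩)
  · have m1 := Submodule.mul_mem_mul (left_mem_sp_fac (q : ℂ) β) (left_mem_sp_fac (q : ℂ) (-b - β))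
    have m2 := Submodule.mul_mem_mul (left_mem_sp_fac (q : ℂ) β) (right_mem_sp_fac (q : ℂ) (-b - β))
    have m3 := Submodule.mul_mem_mul (right_mem_sp_fac (q : ℂ) β) (left_mem_sp_fac (q : ℂ) (-b - β))
    have m4 : (q : ℂ) ∈ sp (q : ℂ) β * sp (q : ℂ) (-b - β) := by
      refine mem_of_coprime_fac hco (by simpa using m1) ?_
      convert Submodule.neg_mem _ (Submodule.add_mem _ m2 m3) using 1
      ring
    rw [OD, pr_mul_sp, hω]
    refine sp_le_fac (by simpa using m4) ?_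
    convert Submodule.add_mem _ (int_mul_mem_fac k m4) m3 using 1
    ring

theorem OD_mul_mem_fac {D : ℤ} (hD : IsD D) {x y : ℂ} (hx : x ∈ OD D) (hy : y ∈ OD D) :
    x * y ∈ OD D := by
  have := Submodule.mul_mem_mul hx hy
  rwa [(discL_OD hD).OD_mul] at this

theorem PrI.mul_le_fac {D : ℤ} {q : ℕ} {𝔮 Λ : Lt} (h : PrI D q 𝔮) (hΛ : DiscL Λ D) :
    𝔮 * Λ ≤ Λ := (mul_le_mul_left h.le Λ).trans hΛ.OD_mul.le

theorem PrI.le_mul_fac {D : ℤ} {q : ℕ} {𝔮 Λ : Lt} (h : PrI D q 𝔮) (hΛ : DiscL Λ D) :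
    pr q * Λ ≤ 𝔮 * Λ := by
  calc pr q * Λ = pr q * OD D * Λ := by rw [mul_assoc, hΛ.OD_mul]
    _ = 𝔮 * (Pool.Agent.EQ.cj 𝔮 * Λ) := by rw [← h.mul_cj hΛ.isD.1, mul_assoc]
    _ ≤ 𝔮 * Λ := mul_le_mul_right (h.cj.mul_le_fac hΛ) 𝔮

/-- `𝔮^(h+1) + q O = 𝔮`. -/
theorem PrI.pow_sup {D : ℤ} (hD : D < 0) {q : ℕ} {𝔮 : Lt} (h : PrI D q 𝔮) (n : ℕ) :
    𝔮 ^ (n + 1) ⊔ pr q * OD D = 𝔮 := by
  have hd := h.discL hD
  have hI := hd.isD
  apply le_antisymm
  · refine sup_le ?_ ?_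
    · induction n with
      | zero => simp
      | succ n ih =>
        rw [pow_succ']
        exact (mul_le_mul_right ih 𝔮).trans (h.mul_le_fac hd)
    · have := h.le_mul_fac (discL_OD hI)
      rwa [mul_comm 𝔮, hd.OD_mul] at this
  · obtain ⟨h1, b, c, h2, rfl⟩ := h.spec_fac
    have hb := beta_mem_fac (D := D) (b := b) (k := q * c) (by linear_combination h2)
    have hs := beta_sq_fac hD h2
    have hco := coprime_fac h2 h1
    generalize ((-b + th D) / 2 : ℂ) = β at hb hs ⊢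
    push_cast at hs ⊢
    have key : ∀ n : ℕ, ∃ w ∈ OD D, β ^ (n + 1) = (-b) ^ n * β + q * w := by
      intro n
      induction n with
      | zero => exact ⟨0, (OD D).zero_mem, by simp⟩
      | succ n ih =>
        obtain ⟨w, hw, e⟩ := ih
        refine ⟨w * β - (((-b) ^ n * c : ℤ) : ℂ),
          (OD D).sub_mem (OD_mul_mem_fac hI hw hb) (int_mem_OD_fac _ _), ?_⟩
        rw [pow_succ, e]
        push_cast
        linear_combination (-(b : ℂ)) ^ n * hs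
    obtain ⟨w, hw, e⟩ := key n
    refine sp_le_fac (Submodule.mem_sup_right (mem_pr_mul.2 ⟨1, one_mem_OD D, by simp⟩)) ?_
    refine mem_of_coprime_fac (m := q) (n := (-b) ^ n) hco.neg_right.pow_right
      (Submodule.mem_sup_right (mem_pr_mul.2 ⟨β, hb, by simp⟩)) ?_
    have m1 : β ^ (n + 1) ∈ sp (q : ℂ) β ^ (n + 1) :=
      Submodule.pow_mem_pow _ (right_mem_sp_fac _ _) _
    convert Submodule.sub_mem _ (Submodule.mem_sup_left m1)
      (Submodule.mem_sup_right (mem_pr_mul.2 ⟨w, hw, rfl⟩)) using 1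
    rw [e]; push_cast; ring

/-- Cancellation of an invertible module. -/
theorem cancel_fac {D : ℤ} {Λ A B : Lt} (hΛ : DiscL Λ D) (hA : OD D * A = A) (hB : OD D * B = B)
    (h : A * Λ = B * Λ) : A = B := by
  obtain ⟨c, hc, e⟩ := hΛ.mul_cj
  have h1 : pr c * A = pr c * B := by
    calc pr c * A = A * Λ * cj Λ := by rw [mul_assoc, e, mul_comm A, mul_assoc, hA]
      _ = pr c * B := by rw [h, mul_assoc, e, mul_comm B, mul_assoc, hB]
  exact le_antisymm ((pr_mul_le_iff hc).1 h1.le) ((pr_mul_le_iff hc).1 h1.ge)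

theorem PrI.mul_ne_fac {D : ℤ} {q : ℕ} {𝔮 Λ : Lt} (h : PrI D q 𝔮) (hΛ : DiscL Λ D) :
    𝔮 * Λ ≠ Λ := by
  intro e
  have hD := hΛ.isD
  have h1 : 𝔮 = OD D := cancel_fac hΛ (h.discL hD.1).OD_mul (discL_OD hD).OD_mul
    (by rw [e, hΛ.OD_mul])
  have h2 := one_mem_OD D
  rw [← h1] at h2
  obtain ⟨hq, -, b, -, rfl⟩ := h
  obtain ⟨m, n, e⟩ := mem_sp.1 h2
  have h3 := congrArg Complex.im e
  have h4 := th_im_pos_fac hD.1
  have hn : n = 0 := by
    simp at h3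
    rcases h3 with h3 | h3
    · exact h3
    · exact absurd h3 h4.ne'
  subst hn
  have h5 : (1 : ℤ) = m * q := by
    have : ((1 : ℤ) : ℂ) = ((m * q : ℤ) : ℂ) := by push_cast; simpa using e
    exact_mod_cast this
  exact (Nat.prime_iff_prime_int.1 hq).not_dvd_one ⟨m, by rw [h5, mul_comm]⟩

theorem PrI.nb {D : ℤ} {q : ℕ} {𝔮 Λ : Lt} (h : PrI D q 𝔮) (hΛ : DiscL Λ D) : Nb q Λ (𝔮 * Λ) := by
  refine ⟨lt_of_le_of_ne (h.le_mul_fac hΛ) fun e => ?_,
    lt_of_le_of_ne (h.mul_le_fac hΛ) (h.mul_ne_fac hΛ)⟩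
  have hq : (q : ℂ) ≠ 0 := by exact_mod_cast h.1.pos.ne'
  have h1 : pr q * (Pool.Agent.EQ.cj 𝔮 * Λ) = pr q * Λ := by
    calc pr q * (Pool.Agent.EQ.cj 𝔮 * Λ) = Pool.Agent.EQ.cj 𝔮 * (pr q * Λ) := mul_left_comm _ _ _
      _ = 𝔮 * Pool.Agent.EQ.cj 𝔮 * Λ := by rw [e, ← mul_assoc, mul_comm _ 𝔮]
      _ = pr q * Λ := by rw [h.mul_cj hΛ.isD.1, mul_assoc, hΛ.OD_mul]
  exact h.cj.mul_ne_fac hΛ
    (le_antisymm ((pr_mul_le_iff hq).1 h1.le) ((pr_mul_le_iff hq).1 h1.ge))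

theorem PrI.ch {D : ℤ} {q : ℕ} {𝔮 Λ : Lt} (h : PrI D q 𝔮) (hΛ : DiscL Λ D) (n : ℕ) :
    Ch (q ^ n) Λ (𝔮 ^ n * Λ) ∧ DiscL (𝔮 ^ n * Λ) D := by
  induction n generalizing Λ with
  | zero => simpa using ⟨Ch.refl Λ, hΛ⟩
  | succ n ih =>
    have h1 : DiscL (𝔮 * Λ) D := (h.discL hΛ.isD.1).mul hΛ le_rfl
    obtain ⟨k1, k2⟩ := ih h1
    rw [pow_succ 𝔮, mul_assoc, pow_succ' q]
    exact ⟨Ch.step h.1 (h.nb hΛ) k1, k2⟩

/-- Some power of an invertible module is principal. -/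
theorem DiscL.pow_principal {D : ℤ} {𝔞 : Lt} (h : DiscL 𝔞 D) :
    ∃ (n : ℕ) (α : ℂ), α ≠ 0 ∧ 𝔞 ^ (n + 1) = pr α * OD D := by
  have hp : ∀ n : ℕ, DiscL (𝔞 ^ (n + 1)) D := by
    intro n
    induction n with
    | zero => simpa using h
    | succ n ih => rw [pow_succ']; exact h.mul ih le_rfl
  obtain ⟨m, n, hmn, e⟩ := Set.Finite.exists_lt_map_eq_of_forall_mem
    (f := fun n : ℕ => jL (𝔞 ^ (n + 1))) (t := {z | ∃ Λ, DiscL Λ D ∧ jL Λ = z})
    (fun n => ⟨_, hp n, rfl⟩) (finite_disc D)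
  obtain ⟨c, hc, e'⟩ := jL_inj (hp m).isLat (hp n).isLat e
  obtain ⟨k, rfl⟩ := Nat.exists_eq_add_of_lt hmn
  refine ⟨k, c, hc, cancel_fac (hp m) (hp k).OD_mul
    ((discL_OD h.isD).pr_mul hc).OD_mul ?_⟩
  rw [mul_assoc, (hp m).OD_mul, ← e', ← pow_add]
  congr 1
  ring

theorem mul_split_fac {D q m b c : ℤ} (hD : D < 0) (h : b ^ 2 - D = 4 * (q * m) * c)
    (hco : IsCoprime q b) :
    sp q ((-b + th D) / 2) * sp m ((-b + th D) / 2) = sp ((q * m : ℤ) : ℂ) ((-b + th D) / 2) := by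
  have hs := beta_sq_fac hD h
  generalize ((-b + th D) / 2 : ℂ) = β at hs ⊢
  apply le_antisymm
  · refine sp_mul_le_fac (mem_sp.2 ⟨1, 0, by simp⟩) (mem_sp.2 ⟨0, q, by simp⟩)
      (mem_sp.2 ⟨0, m, by simp [mul_comm]⟩) (mem_sp.2 ⟨-c, -b, ?_⟩)
    rw [hs]; push_cast; ring
  · have m1 := Submodule.mul_mem_mul (left_mem_sp_fac (q : ℂ) β) (left_mem_sp_fac (m : ℂ) β)
    have m2 := Submodule.mul_mem_mul (left_mem_sp_fac (q : ℂ) β) (right_mem_sp_fac (m : ℂ) β)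
    have m3 := Submodule.mul_mem_mul (right_mem_sp_fac (q : ℂ) β) (right_mem_sp_fac (m : ℂ) β)
    refine sp_le_fac (by simpa using m1) (mem_of_coprime_fac hco m2 ?_)
    convert Submodule.neg_mem _ (Submodule.add_mem _ m3 (int_mul_mem_fac c m1)) using 1
    rw [hs]; push_cast; ring

/-- A primitive form represents a number prime to a given one, at a primitive vector. -/
theorem exists_rep_fac {a b c : ℤ} (h : Int.gcd (Int.gcd a b) c = 1) {M : ℤ} (hM : M ≠ 0) :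
    ∃ x y : ℤ, IsCoprime x y ∧ IsCoprime (a * x ^ 2 - b * x * y + c * y ^ 2) M := by
  classical
  let S := M.natAbs.primeFactors
  let x : ℕ := ∏ p ∈ S.filter (fun p : ℕ => (p : ℤ) ∣ a ∧ ¬ (p : ℤ) ∣ c), p
  let y : ℕ := ∏ p ∈ S.filter (fun p : ℕ => ¬ (p : ℤ) ∣ a), p
  have dv : ∀ (R : ℕ → Prop) [DecidablePred R] (p : ℕ), p.Prime →
      (p ∣ ∏ r ∈ S.filter R, r ↔ p ∈ S ∧ R p) := by
    intro R _ p hp
    rw [hp.prime.dvd_finsetProd_iff]
    constructor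
    · rintro ⟨r, hr, hpr⟩
      rw [Finset.mem_filter] at hr
      rw [(Nat.prime_dvd_prime_iff_eq hp (Nat.prime_of_mem_primeFactors hr.1)).1 hpr]
      exact hr
    · intro hh
      exact ⟨p, Finset.mem_filter.2 hh, dvd_rfl⟩
  refine ⟨x, y, ?_, ?_⟩
  · rw [Nat.isCoprime_iff_coprime]
    refine Nat.coprime_of_dvd fun p hp h1 h2 => ?_
    exact ((dv _ p hp).1 h2).2 ((dv _ p hp).1 h1).2.1
  · rw [Int.isCoprime_iff_gcd_eq_one, Int.gcd_eq_natAbs]
    refine Nat.coprime_of_dvd fun p hp h1 h2 => ?_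
    have hS : p ∈ S := Nat.mem_primeFactors.2 ⟨hp, h2, by simpa using hM⟩
    have hP := Nat.prime_iff_prime_int.1 hp
    have h3 : (p : ℤ) ∣ a * x ^ 2 - b * x * y + c * y ^ 2 := Int.natCast_dvd.2 h1
    have hx : (p : ℤ) ∣ x ↔ (p : ℤ) ∣ a ∧ ¬ (p : ℤ) ∣ c := by
      rw [Int.natCast_dvd_natCast, dv _ p hp]; simp [hS]
    have hy : (p : ℤ) ∣ y ↔ ¬ (p : ℤ) ∣ a := by
      rw [Int.natCast_dvd_natCast, dv _ p hp]; simp [hS]
    by_cases ha : (p : ℤ) ∣ a
    · have hy' : ¬ (p : ℤ) ∣ y := fun k => hy.1 k ha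
      by_cases hc : (p : ℤ) ∣ c
      · have hx' : ¬ (p : ℤ) ∣ x := fun k => (hx.1 k).2 hc
        have h4 : (p : ℤ) ∣ b * x * y := by
          have := dvd_sub (dvd_add (ha.mul_right ((x : ℤ) ^ 2)) (hc.mul_right ((y : ℤ) ^ 2))) h3
          rwa [show a * (x : ℤ) ^ 2 + c * (y : ℤ) ^ 2 - (a * x ^ 2 - b * x * y + c * y ^ 2)
            = b * x * y by ring] at this
        have hb : (p : ℤ) ∣ b :=
          (hP.dvd_or_dvd ((hP.dvd_or_dvd h4).resolve_right hy')).resolve_right hx'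
        have : (p : ℤ) ∣ (Int.gcd (Int.gcd a b) c : ℤ) :=
          Int.dvd_coe_gcd (Int.dvd_coe_gcd ha hb) hc
        rw [h] at this
        exact hP.not_dvd_one (by simpa using this)
      · have hx' : (p : ℤ) ∣ x := hx.2 ⟨ha, hc⟩
        have h4 : (p : ℤ) ∣ c * y ^ 2 := by
          have := dvd_sub h3 (hx'.mul_right (a * x - b * y))
          rwa [show a * (x : ℤ) ^ 2 - b * x * y + c * y ^ 2 - x * (a * x - b * y)
            = c * y ^ 2 by ring] at this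
        exact hy' (hP.dvd_of_dvd_pow ((hP.dvd_or_dvd h4).resolve_left hc))
    · have hy' : (p : ℤ) ∣ y := hy.2 ha
      have h4 : (p : ℤ) ∣ a * x ^ 2 := by
        have := dvd_sub h3 (hy'.mul_right (c * y - b * x))
        rwa [show a * (x : ℤ) ^ 2 - b * x * y + c * y ^ 2 - y * (c * y - b * x)
          = a * x ^ 2 by ring] at this
      exact ha (hx.1 (hP.dvd_of_dvd_pow ((hP.dvd_or_dvd h4).resolve_left ha))).1

/-- Every invertible module is a multiple of a product of good primes. -/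
theorem fac {D : ℤ} {N : ℕ} (hN : 0 < N) (P : Lt → Prop) (h0 : P (OD D))
    (h1 : ∀ 𝔞 c, c ≠ 0 → DiscL 𝔞 D → P 𝔞 → P (pr c * 𝔞))
    (h2 : ∀ 𝔞 q 𝔮, PrI D q 𝔮 → ¬ q ∣ N → DiscL 𝔞 D → P 𝔞 → P (𝔮 * 𝔞)) {𝔞 : Lt} (h : DiscL 𝔞 D) :
    P 𝔞 := by
  have hD := h.isD.1
  have main : ∀ m : ℕ, 0 < m → IsCoprime (m : ℤ) (2 * D * N) → ∀ b c : ℤ,
      b ^ 2 - D = 4 * m * c → P (sp (m : ℤ) ((-b + th D) / 2)) := by
    intro m
    induction m using Nat.strong_induction_on with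
    | _ m ih =>
      intro hm hco b c hbc
      by_cases hm1 : m = 1
      · subst hm1
        obtain ⟨k, hk⟩ := parity_fac (k := c) (by simpa using hbc : b ^ 2 - D = 4 * c)
        have hk' : (b : ℂ) + D = 2 * k := by exact_mod_cast hk
        convert h0 using 1
        apply le_antisymm
        · exact sp_le_fac (int_mem_OD_fac _ _) (beta_mem_fac (k := c) (by simpa using hbc))
        · refine sp_le_fac (by simpa using left_mem_sp_fac _ _) (mem_sp.2 ⟨k, 1, ?_⟩)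
          push_cast; linear_combination (1 / 2 : ℂ) * hk'
      · obtain ⟨q, hq, m', rfl⟩ := Nat.exists_prime_and_dvd hm1
        have hm' : 0 < m' := Nat.pos_of_mul_pos_left hm
        push_cast at hco hbc
        have cq := hco.of_mul_left_left
        have cm := hco.of_mul_left_right
        have hP := Nat.prime_iff_prime_int.1 hq
        have e := mul_split_fac hD hbc
          (coprime_fac (c := m' * c) (by linear_combination hbc) cq.of_mul_right_left.of_mul_right_right)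
        rw [Nat.cast_mul, ← e]
        refine h2 _ q _ ⟨hq, ?_, b, ⟨m' * c, by linear_combination hbc⟩, by simp⟩ ?_
          (discL_fac (c := q * c) hD (by exact_mod_cast hm') (by linear_combination hbc)
            cm.of_mul_right_left.of_mul_right_right)
          (ih m' (lt_mul_of_one_lt_left hm' hq.one_lt) hm' cm b (q * c) (by linear_combination hbc))
        · exact hP.irreducible.coprime_iff_not_dvd.1 cq.of_mul_right_left
        · exact fun k => hP.irreducible.coprime_iff_not_dvd.1 cq.of_mul_right_right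
            (Int.natCast_dvd_natCast.2 k)
  obtain ⟨κ, τ, hκ, rfl, a, b, c, ha, hg, hτ, hDe⟩ := h
  have hr := HasDisc.root ha hτ
  rw [← hDe] at hr
  obtain ⟨x, y, ⟨w, z', hxy⟩, hco⟩ := exists_rep_fac hg (M := 2 * D * N)
    (mul_ne_zero (mul_ne_zero two_ne_zero hD.ne) (by exact_mod_cast hN.ne'))
  obtain ⟨m, hm⟩ : ∃ m, m = a * x ^ 2 - b * x * y + c * y ^ 2 := ⟨_, rfl⟩
  rw [← hm] at hco
  have hm0 : m ≠ 0 := by
    rintro rfl
    have := isCoprime_zero_left.1 hco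
    rw [mul_assoc] at this
    have h2 := isUnit_of_mul_isUnit_left this
    rcases Int.isUnit_iff.1 h2 with h3 | h3 <;> omega
  have hmp : 0 < m := by
    have e : 4 * a * m = (2 * a * x - b * y) ^ 2 - D * y ^ 2 := by rw [hm, hDe]; ring
    have : 0 ≤ 4 * a * m := by rw [e]; nlinarith [sq_nonneg (2 * a * x - b * y), sq_nonneg y]
    have h5 : 0 ≤ m := by
      by_contra hh
      push Not at hh
      nlinarith
    omega
  obtain ⟨n, rfl⟩ := Int.eq_ofNat_of_zero_le hmp.le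
  obtain ⟨b', hb'⟩ : ∃ b', b' = b * (w * x - z' * y) + 2 * a * x * z' - 2 * w * y * c := ⟨_, rfl⟩
  have hbc : b' ^ 2 - D = 4 * n * (a * z' ^ 2 + b * z' * w + c * w ^ 2) := by
    rw [hb', hm, hDe]
    linear_combination (b ^ 2 - 4 * a * c) * (w * x + z' * y + 1) * hxy
  have hP := main n (by exact_mod_cast hmp) hco b' _ hbc
  have hd := discL_fac hD hmp hbc hco.of_mul_right_left.of_mul_right_right
  have hn0 : ((n : ℤ) : ℂ) ≠ 0 := by exact_mod_cast hm0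
  have ha0 : (a : ℂ) ≠ 0 := by exact_mod_cast ha.ne'
  have hxy' : (w : ℂ) * x + z' * y = 1 := by exact_mod_cast hxy
  have hm' : ((n : ℤ) : ℂ) = a * x ^ 2 - b * x * y + c * y ^ 2 := by exact_mod_cast hm
  have hb'' : (b' : ℂ) = b * (w * x - z' * y) + 2 * a * x * z' - 2 * w * y * c := by
    exact_mod_cast hb'
  have key : (x + y * (τ : ℂ)) * ((-b' + th D) / 2) = ((n : ℤ) : ℂ) * (-z' + w * τ) := by
    rw [hm', hb'', ← hr]
    linear_combination (exp := 1) (y : ℂ) * hτ +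
      (-(a * x * τ) - b * x / 2 + b * y * τ / 2 + c * y) * hxy'
  have hv : (x + y * (τ : ℂ)) ≠ 0 := by
    intro e
    have e1 : (x : ℂ) = -(y * τ) := by linear_combination e
    apply hn0
    rw [hm', e1]
    linear_combination (y : ℂ) ^ 2 * hτ
  have := h1 _ (κ * (x + y * τ) / ((n : ℤ) : ℂ)) (div_ne_zero (mul_ne_zero hκ hv) hn0) hd hP
  convert this using 1
  have e1 : κ * (x + y * τ) / ((n : ℤ) : ℂ) * ((n : ℤ) : ℂ) = κ * (x + y * τ) := by field_simp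
  have e2 : κ * (x + y * τ) / ((n : ℤ) : ℂ) * ((-b' + th D) / 2) = κ * (-z' + w * τ) := by
    rw [div_mul_eq_mul_div, mul_assoc, key]; field_simp
  rw [pr_mul_sp, e1, e2]
  apply le_antisymm
  · refine sp_le_fac (mem_sp.2 ⟨w, -y, ?_⟩) (mem_sp.2 ⟨z', x, ?_⟩)
    · push_cast; linear_combination (-κ) * hxy'
    · linear_combination (-κ * τ) * hxy'
  · refine sp_le_fac (mem_sp.2 ⟨x, y, by ring⟩) (mem_sp.2 ⟨-z', w, by push_cast; ring⟩)

theorem int_of_integral_fac {x : ℂ} (hx : IsIntegral ℤ x) {n a : ℤ} (hn : n ≠ 0)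
    (h : n * x = a) : ∃ k : ℤ, x = k := by
  have hn' : (n : ℂ) ≠ 0 := by exact_mod_cast hn
  have e : x = algebraMap ℚ ℂ ((a : ℚ) / n) := by
    simp only [eq_ratCast, Rat.cast_div, Rat.cast_intCast]
    field_simp
    linear_combination h
  rw [e] at hx
  obtain ⟨k, hk⟩ := IsIntegrallyClosed.isIntegral_iff.1
    ((isIntegral_algebraMap_iff (algebraMap ℚ ℂ).injective).1 hx)
  exact ⟨k, by rw [e, ← hk]; simp⟩

/-- Roots of unity of the field have bounded denominator in the order. -/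
theorem root_mem {D : ℤ} (hD : D < 0) {ζ : ℂ} (hζ : ζ ^ 12 = 1) {n : ℤ} (hn : n ≠ 0)
    (h : n * ζ ∈ OD D) : 2 * D * ζ ∈ OD D := by
  have i1 : IsIntegral ℤ ζ := IsIntegral.of_pow (n := 12) (by norm_num) (hζ ▸ isIntegral_one)
  have i2 : IsIntegral ℤ (starRingEnd ℂ ζ) :=
    IsIntegral.of_pow (n := 12) (by norm_num) (by rw [← map_pow, hζ, map_one]; exact isIntegral_one)
  have ht := th_sq hD.le
  have i3 : IsIntegral ℤ (th D) :=
    IsIntegral.of_pow (n := 2) (by norm_num) (by rw [ht]; exact isIntegral_algebraMap (x := D))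
  obtain ⟨u, v, e⟩ := mem_sp.1 h
  have e' : (n : ℂ) * starRingEnd ℂ ζ = u * 1 + v * ((D - th D) / 2) := by
    have := congrArg (starRingEnd ℂ) e
    simp only [map_mul, map_add, map_intCast, map_one, map_div₀, conj_th, map_ofNat] at this
    rw [this]; ring
  obtain ⟨k, hk⟩ := int_of_integral_fac (i1.add i2) hn (a := 2 * u + v * D)
    (by push_cast; linear_combination e + e')
  obtain ⟨l, hl⟩ := int_of_integral_fac ((i1.sub i2).mul i3) hn (a := v * D)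
    (by push_cast; linear_combination th D * e - th D * e' + v * ht)
  convert (OD D).add_mem (int_mem_OD_fac D (D * k)) (int_mul_mem_fac l (th_mem_OD D)) using 1
  push_cast
  linear_combination (D : ℂ) * hk + th D * hl - (ζ - starRingEnd ℂ ζ) * ht

end Pool.Agent.EQ
end
end

-- part Pool.Agent.P.MP_ad7a55_nt.Free
section

/-! Free coordinates and ergodicity of the product measure. -/

set_option autoImplicit false

noncomputable section

open MeasureTheory Topology Filter UpperHalfPlane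
open scoped MatrixGroups ENNReal BoundedContinuousFunction

namespace Pool.Agent.EQ

variable (p : ℕ) [Fact p.Prime] {κ : Type} [Fintype κ] [DecidableEq κ]

/-- Forget the coordinate `k`. -/
def res (k : κ) (w : κ → XX p) : {j // j ≠ k} → XX p := fun j => w j.1

omit [Fintype κ] [DecidableEq κ] in
theorem continuous_res (k : κ) : Continuous (res p k) :=
  continuous_pi fun j => continuous_apply j.1

/-- The coordinate `k` has law `mX` and is independent of the others. -/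
def Free (ρ : Measure (κ → XX p)) (k : κ) : Prop :=
  ∀ (B : Set (XX p)) (C : Set ({j // j ≠ k} → XX p)), MeasurableSet B → MeasurableSet C →
    ρ ((fun w => w k) ⁻¹' B ∩ res p k ⁻¹' C) = mX p B * ρ (res p k ⁻¹' C)

variable {p}

/-- The law of the coordinate `k` on the event that the other coordinates lie in `C`. -/
def freeSlice (ρ : Measure (κ → XX p)) (k : κ) (C : Set ({j // j ≠ k} → XX p)) : Measure (XX p) :=
  (ρ.restrict (res p k ⁻¹' C)).map (fun w => w k)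

instance freeSlice_fin (ρ : Measure (κ → XX p)) [IsFiniteMeasure ρ] (k : κ)
    (C : Set ({j // j ≠ k} → XX p)) : IsFiniteMeasure (freeSlice ρ k C) := by
  unfold freeSlice; infer_instance

omit [Fintype κ] [DecidableEq κ] in
theorem free_measurable_res (k : κ) : Measurable (res p k) :=
  measurable_pi_lambda _ fun j => measurable_pi_apply j.1

omit [Fintype κ] [DecidableEq κ] in
theorem freeSlice_apply (ρ : Measure (κ → XX p)) (k : κ) (C : Set ({j // j ≠ k} → XX p))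
    {B : Set (XX p)} (hB : MeasurableSet B) :
    freeSlice ρ k C B = ρ ((fun w => w k) ⁻¹' B ∩ res p k ⁻¹' C) := by
  rw [freeSlice, Measure.map_apply (measurable_pi_apply k) hB,
    Measure.restrict_apply (measurable_pi_apply k hB)]

theorem freeSlice_stab {ρ : Measure (κ → XX p)} {k : κ} {C : Set ({j // j ≠ k} → XX p)}
    (hC : MeasurableSet C) {g : GG p}
    (h : Pi.mulSingle (M := fun _ => GG p) k g ∈ Stab (κ → GG p) ρ) :
    g ∈ Stab (GG p) (freeSlice ρ k C) := by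
  rw [mem_Stab] at h ⊢
  ext B hB
  have hm : MeasurableSet ((fun w : κ → XX p => w k) ⁻¹' B ∩ res p k ⁻¹' C) :=
    (measurable_pi_apply k hB).inter (free_measurable_res k hC)
  rw [Measure.map_apply (measurable_const_smul g) hB,
    freeSlice_apply _ _ _ (measurable_const_smul g hB), freeSlice_apply _ _ _ hB]
  conv_rhs => rw [← h]
  rw [Measure.map_apply (measurable_const_smul _) hm]
  congr 1
  ext w
  have e1 : (Pi.mulSingle (M := fun _ => GG p) k g • w) k = g • w k := by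
    simp [Pi.smul_apply']
  have e2 : res p k (Pi.mulSingle (M := fun _ => GG p) k g • w) = res p k w := by
    funext j
    simp [res, Pi.smul_apply', Pi.mulSingle_eq_of_ne j.2]
  simp only [Set.mem_inter_iff, Set.mem_preimage, e1, e2]

omit [Fintype κ] [DecidableEq κ] in
theorem freeSlice_le {ρ : Measure (κ → XX p)} {k : κ} (hm : ρ.map (fun w => w k) = mX p)
    (C : Set ({j // j ≠ k} → XX p)) : freeSlice ρ k C ≤ mX p := by
  rw [← hm]
  exact Measure.map_mono Measure.restrict_le_self (measurable_pi_apply k)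

omit [Fintype κ] [DecidableEq κ] in
theorem free_of_slice {ρ : Measure (κ → XX p)} {k : κ}
    (h : ∀ C, MeasurableSet C → freeSlice ρ k C = freeSlice ρ k C Set.univ • mX p) :
    Free p ρ k := by
  intro B C hB hC
  rw [← freeSlice_apply ρ k C hB, h C hC, Measure.smul_apply, smul_eq_mul,
    freeSlice_apply ρ k C MeasurableSet.univ, Set.preimage_univ, Set.univ_inter, mul_comm]

theorem free_of_R {ρ : Measure (κ → XX p)} [IsFiniteMeasure ρ] {k : κ}
    (h : ∀ g : SL(2, ℝ), Pi.mulSingle (M := fun _ => GG p) k (g, 1) ∈ Stab (κ → GG p) ρ) :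
    Free p ρ k := by
  exact free_of_slice fun C hC => eq_mX_of_R p _ fun g => freeSlice_stab hC (h g)

theorem free_of_P {ρ : Measure (κ → XX p)} [IsFiniteMeasure ρ] {k : κ}
    (h : ∀ g : SL(2, ℚ_[p]), Pi.mulSingle (M := fun _ => GG p) k (1, g) ∈ Stab (κ → GG p) ρ) :
    Free p ρ k := by
  exact free_of_slice fun C hC => eq_mX_of_P p _ fun g => freeSlice_stab hC (h g)

theorem free_of_hyp {ρ : Measure (κ → XX p)} [IsFiniteMeasure ρ] {k : κ}
    (hm : ρ.map (fun w => w k) = mX p) {g : SL(2, ℝ)} (hg : 2 < |g 0 0 + g 1 1|)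
    (h : Pi.mulSingle (M := fun _ => GG p) k (g, 1) ∈ Stab (κ → GG p) ρ) : Free p ρ k := by
  exact free_of_slice fun C hC => eq_mX_of_R p _ fun g' =>
    mautner_hyp p _ (mprop_Stab (mX p) _ (mX_inv p) (freeSlice_le hm C)) hg
      (freeSlice_stab hC h) g'

theorem free_of_U {ρ : Measure (κ → XX p)} [IsFiniteMeasure ρ] {k : κ}
    (hm : ρ.map (fun w => w k) = mX p)
    (h : ∀ s, Pi.mulSingle (M := fun _ => GG p) k (uP p s) ∈ Stab (κ → GG p) ρ) :
    Free p ρ k := by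
  exact free_of_slice fun C hC => eq_mX_of_P p _ fun g =>
    mautner_U1 p _ (mprop_Stab (mX p) _ (mX_inv p) (freeSlice_le hm C))
      (fun s => freeSlice_stab hC (h s)) g

theorem pi_of_free {ρ : Measure (κ → XX p)} [IsProbabilityMeasure ρ] {k : κ} (h : Free p ρ k)
    (hr : ρ.map (res p k) = mP p {j // j ≠ k}) : ρ = mP p κ := by
  refine (Measure.pi_eq fun s hs => ?_).symm
  have hC : MeasurableSet (Set.pi Set.univ fun j : {j // j ≠ k} => s j.1) :=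
    MeasurableSet.univ_pi fun j => hs j.1
  have e : Set.pi Set.univ s = (fun w => w k) ⁻¹' s k ∩
      res p k ⁻¹' (Set.pi Set.univ fun j : {j // j ≠ k} => s j.1) := by
    ext w
    simp only [Set.mem_pi, Set.mem_univ, true_imp_iff, Set.mem_inter_iff, Set.mem_preimage, res]
    refine ⟨fun hw => ⟨hw k, fun j => hw j.1⟩, fun hw j => ?_⟩
    by_cases hj : j = k
    · rw [hj]; exact hw.1
    · exact hw.2 ⟨j, hj⟩
  rw [e, h _ _ (hs k) hC, ← Measure.map_apply (free_measurable_res k) hC, hr, mP,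
    Measure.pi_pi, Fintype.prod_eq_mul_prod_subtype_ne (fun j => mX p (s j)) k]

theorem eq_of_all_free {ρ : Measure (κ → XX p)} [IsFiniteMeasure ρ] (h : ∀ k, Free p ρ k) :
    ρ = ρ Set.univ • mP p κ := by
  have key : ∀ s : κ → Set (XX p), (∀ j, MeasurableSet (s j)) → ∀ T : Finset κ,
      ρ (Set.pi (T : Set κ) s) = (∏ j ∈ T, mX p (s j)) * ρ Set.univ := by
    intro s hs T
    induction T using Finset.induction_on with
    | empty => simp
    | insert k T hk ih =>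
      have hC : MeasurableSet
          (Set.pi {j : {j // j ≠ k} | j.1 ∈ T} fun j : {j // j ≠ k} => s j.1) :=
        MeasurableSet.pi (Set.to_countable _) fun j _ => hs j.1
      have e1 : res p k ⁻¹' (Set.pi {j : {j // j ≠ k} | j.1 ∈ T} fun j : {j // j ≠ k} => s j.1) =
          Set.pi (T : Set κ) s := by
        ext w
        simp only [Set.mem_pi, Set.mem_preimage, res, Set.mem_ofPred_eq, Finset.mem_coe]
        exact ⟨fun hw j hj => hw ⟨j, fun e => hk (e ▸ hj)⟩ hj, fun hw j hj => hw j.1 hj⟩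
      have e2 : Set.pi ((insert k T : Finset κ) : Set κ) s =
          (fun w => w k) ⁻¹' s k ∩ Set.pi (T : Set κ) s := by
        rw [Finset.coe_insert, Set.insert_pi]
      have := h k _ _ (hs k) hC
      rw [e1] at this
      rw [e2, this, ih, Finset.prod_insert hk, mul_assoc]
  refine ext_of_generate_finite _ generateFrom_pi.symm isPiSystem_pi ?_ (by simp)
  rintro _ ⟨s, hs, rfl⟩
  have hs' : ∀ j, MeasurableSet (s j) := fun j => hs j (Set.mem_univ j)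
  have := key s hs' Finset.univ
  rw [Finset.coe_univ] at this
  rw [this, Measure.smul_apply, smul_eq_mul, mP, Measure.pi_pi, mul_comm]

variable (p)

omit [DecidableEq κ] in
theorem mP_inv (g : κ → GG p) : (mP p κ).map (fun w => g • w) = mP p κ := by
  exact (measurePreserving_pi (fun _ : κ => mX p) (fun _ : κ => mX p)
    (f := fun k x => g k • x) fun k => ⟨measurable_const_smul _, mX_inv p (g k)⟩).map_eq

theorem erg_mP (d : κ → ℚ_[p]) (hd : ∀ k, d k ≠ 0) : Erg (ufl p d) (mP p κ) := by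
  refine erg_of_ext _ (fun s => mP_inv p fun k => uP p (d k * s)) fun μ hμ hi => ?_
  have : IsFiniteMeasure μ := isFiniteMeasure_of_le _ hμ
  exact eq_of_all_free fun k => free_of_P fun g =>
    mautner_U p _ (mprop_Stab (mP p κ) μ (mP_inv p) hμ) d hd (fun s => hi s) k g

theorem erg_mX : Erg (ufl1 p) (mX p) := by
  refine erg_of_ext _ (fun s => mX_inv p (uP p s)) fun μ hμ hi => ?_
  have : IsFiniteMeasure μ := isFiniteMeasure_of_le _ hμ
  exact eq_mX_of_P p μ fun g =>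
    mautner_U1 p _ (mprop_Stab (mX p) μ (mX_inv p) hμ) (fun s => hi s) g

end Pool.Agent.EQ
end
end

-- part Pool.Agent.P.MP_ad7a55_nt.Hecke
section

/-! Galois action on isogenies, and the Kronecker congruence. -/

set_option autoImplicit false

noncomputable section

open MeasureTheory Topology Filter UpperHalfPlane
open scoped MatrixGroups ENNReal BoundedContinuousFunction

namespace Pool.Agent.EQ

theorem den_ne_zero_hecke (γ : SL(2, ℤ)) (τ : ℍ) : (γ 1 0 : ℂ) * τ + γ 1 1 ≠ 0 := by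
  intro h
  have := disc_smul γ τ
  rw [h, zero_pow (by norm_num), zero_mul] at this
  exact ModularForm.discriminant_ne_zero _ this

theorem sum_nbs_congr_hecke {q : ℕ} (hq : q.Prime) (Φ : Lt → ℂ) {c c' : ℂ} {τ τ' : ℍ}
    (hc : c ≠ 0) (hc' : c' ≠ 0) (h : sp c (c * τ) = sp c' (c' * τ')) :
    ∑ o, Φ (nbs q hq.pos c τ o) = ∑ o, Φ (nbs q hq.pos c' τ' o) := by
  have key : ∀ o, ∃ o', nbs q hq.pos c τ o = nbs q hq.pos c' τ' o' := fun o =>
    (nb_iff hq hc' τ' _).1 (h ▸ (nb_iff hq hc τ _).2 ⟨o, rfl⟩)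
  choose e he using key
  have hinj : Function.Injective e := fun o₁ o₂ h12 =>
    nbs_inj hq hc τ (by rw [he, he, h12])
  rw [← (Finite.injective_iff_bijective.1 hinj).sum_comp fun o => Φ (nbs q hq.pos c' τ' o)]
  exact Finset.sum_congr rfl fun o _ => by rw [he]

/-- A sum over the sublattices of index `q` does not depend on the basis. -/
theorem sum_nbs_smul {q : ℕ} (hq : q.Prime) (Φ : Lt → ℂ) (γ : SL(2, ℤ)) (τ : ℍ) :
    ∑ o, Φ (nbs q hq.pos ((γ 1 0 : ℂ) * τ + γ 1 1) (γ • τ) o) = ∑ o, Φ (nbs q hq.pos 1 τ o) := by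
  refine sum_nbs_congr_hecke hq Φ (den_ne_zero_hecke γ τ) one_ne_zero ?_
  rw [← sp_smul 1 γ τ, one_mul]

theorem nbs_eq_hecke {q : ℕ} (hq : 0 < q) (c : ℂ) (τ : ℍ) (o : Option (Fin q)) :
    nbs q hq c τ o = pr c * nbs q hq 1 τ o := by
  cases o <;> simp only [nbs, pr_mul_sp, one_mul, mul_one, mul_assoc]

theorem isLat_nbs_hecke {q : ℕ} (hq : q.Prime) {c : ℂ} (hc : c ≠ 0) (τ : ℍ) (o : Option (Fin q)) :
    IsLat (nbs q hq.pos c τ o) :=
  Nb.isLat hq (isLat_sp hc τ) ((nb_iff hq hc τ _).2 ⟨o, rfl⟩)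

theorem sum_nbs_scale_hecke {q : ℕ} (hq : q.Prime) (a m : ℕ) {c : ℂ} (hc : c ≠ 0) (τ : ℍ) :
    ∑ o, jL (nbs q hq.pos 1 τ o) ^ a * dL (nbs q hq.pos 1 τ o) ^ m =
      c ^ (12 * m) * ∑ o, jL (nbs q hq.pos c τ o) ^ a * dL (nbs q hq.pos c τ o) ^ m := by
  rw [Finset.mul_sum]
  refine Finset.sum_congr rfl fun o _ => ?_
  have hl := isLat_nbs_hecke hq one_ne_zero τ o
  rw [nbs_eq_hecke hq.pos c, jL_pr_mul hl hc, dL_pr_mul hl hc, div_pow, ← pow_mul]
  field_simp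

theorem intQ_sum_hecke {q : ℕ} (hq : q.Prime) (a b : ℕ) : IntQ fun τ => (q : ℂ) ^ (12 * (a + b)) *
    ∑ o, jL (nbs q hq.pos 1 τ o) ^ a * dL (nbs q hq.pos 1 τ o) ^ (a + b) := by
  have hg : IntQ fun τ => jInv τ ^ a * ModularForm.discriminant τ ^ (a + b) := by
    have := (intQ_j.pow a).mul ((intQ_disc_div.pow (a + b)).mul (intQ_qq.pow b))
    convert this using 2 with τ
    have h0 : qq τ ≠ 0 := Complex.exp_ne_zero _
    rw [div_pow]
    field_simp
    ring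
  have := ((intQ_int ((q : ℤ) ^ (12 * (a + b)))).mul (hg.mulH q hq.pos)).add (hg.trace q hq.pos)
  convert this using 2 with τ
  have h0 : (q : ℂ) ≠ 0 := Nat.cast_ne_zero.2 hq.ne_zero
  have h1 : (1 : ℂ) * q ≠ 0 := by rwa [one_mul]
  rw [Fintype.sum_option, mul_add, Finset.mul_sum]
  simp only [nbs, jL_sp one_ne_zero, dL_sp one_ne_zero, jL_sp h1, dL_sp h1]
  congr 1
  · push_cast
    rw [one_pow, div_one]
  · refine Finset.sum_congr rfl fun i _ => ?_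
    rw [one_mul, div_pow, ← pow_mul]
    field_simp

/-- Power sums over the sublattices of index `q`. -/
theorem power_sum {q : ℕ} (hq : q.Prime) (a b : ℕ) : ∃ P : Polynomial ℚ, ∀ (c : ℂ) (τ : ℍ), c ≠ 0 →
    ∑ o, (jL (nbs q hq.pos c τ o) * (dL (nbs q hq.pos c τ o) / dL (sp c (c * τ)))) ^ a *
      (dL (nbs q hq.pos c τ o) / dL (sp c (c * τ))) ^ b = Polynomial.aeval (jInv τ) P := by
  obtain ⟨P, -, hP⟩ := (intQ_sum_hecke hq a b).poly (a + b) fun γ τ => by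
    rw [sum_nbs_scale_hecke hq a (a + b) (den_ne_zero_hecke γ τ),
      sum_nbs_smul hq (fun Λ => jL Λ ^ a * dL Λ ^ (a + b)) γ τ, mul_left_comm]
  refine ⟨Polynomial.C (1 / (q : ℚ) ^ (12 * (a + b))) * P.map (algebraMap ℤ ℚ), fun c τ hc => ?_⟩
  have h0 : (q : ℂ) ≠ 0 := Nat.cast_ne_zero.2 hq.ne_zero
  have h1 := ModularForm.discriminant_ne_zero τ
  have h2 := hP τ
  rw [sum_nbs_scale_hecke hq a (a + b) hc] at h2
  rw [map_mul, Polynomial.aeval_map_algebraMap, Polynomial.aeval_C, dL_sp hc]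
  have h3 : ∀ o, (jL (nbs q hq.pos c τ o) * (dL (nbs q hq.pos c τ o) /
      (ModularForm.discriminant τ / c ^ 12))) ^ a *
      (dL (nbs q hq.pos c τ o) / (ModularForm.discriminant τ / c ^ 12)) ^ b =
      c ^ (12 * (a + b)) / ModularForm.discriminant τ ^ (a + b) *
        (jL (nbs q hq.pos c τ o) ^ a * dL (nbs q hq.pos c τ o) ^ (a + b)) := fun o => by
    rw [mul_pow, mul_assoc, ← pow_add, div_pow, div_pow, ← pow_mul]
    field_simp
  simp only [h3, ← Finset.mul_sum]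
  rw [eq_ratCast]
  push_cast
  field_simp
  linear_combination h2

/-- Power sums determine the points. -/
theorem mem_of_power_sums {ι ι' : Type} [Fintype ι] [Fintype ι'] (x y : ι → ℂ) (x' y' : ι' → ℂ)
    (h : ∀ a b : ℕ, ∑ i, x i ^ a * y i ^ b = ∑ i, x' i ^ a * y' i ^ b) (i : ι) :
    ∃ i', x' i' = x i ∧ y' i' = y i := by
  classical
  have key : ∀ S : Finset (ℂ × ℂ), (x i, y i) ∉ S → ∃ G : ℂ × ℂ → ℂ,
      (∀ a b : ℕ, ∑ j, G (x j, y j) * (x j ^ a * y j ^ b) =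
        ∑ j, G (x' j, y' j) * (x' j ^ a * y' j ^ b)) ∧ G (x i, y i) = 1 ∧ ∀ s ∈ S, G s = 0 := by
    intro S
    induction S using Finset.induction_on with
    | empty => exact fun _ => ⟨fun _ => 1, by simpa using h, rfl, by simp⟩
    | insert s S _ ih =>
      intro hs
      rw [Finset.mem_insert, not_or] at hs
      obtain ⟨G, h1, h2, h3⟩ := ih hs.2
      obtain ⟨α, β, h4⟩ : ∃ α β : ℂ, α * (x i - s.1) + β * (y i - s.2) = 1 := by
        by_cases e : x i = s.1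
        · have e' : y i - s.2 ≠ 0 := fun e' => hs.1 (Prod.ext e (sub_eq_zero.1 e'))
          exact ⟨0, (y i - s.2)⁻¹, by rw [zero_mul, zero_add, inv_mul_cancel₀ e']⟩
        · exact ⟨(x i - s.1)⁻¹, 0, by rw [zero_mul, add_zero, inv_mul_cancel₀ (sub_ne_zero.2 e)]⟩
      refine ⟨fun z => G z * (α * (z.1 - s.1) + β * (z.2 - s.2)), fun a b => ?_, ?_, ?_⟩
      · have e : ∀ u v : ℂ, G (u, v) * (α * (u - s.1) + β * (v - s.2)) * (u ^ a * v ^ b) =
            α * (G (u, v) * (u ^ (a + 1) * v ^ b)) + β * (G (u, v) * (u ^ a * v ^ (b + 1))) -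
              (α * s.1 + β * s.2) * (G (u, v) * (u ^ a * v ^ b)) := fun u v => by ring
        simp only [e, Finset.sum_sub_distrib, Finset.sum_add_distrib, ← Finset.mul_sum, h1]
      · simp only [h2, h4, one_mul]
      · intro t ht
        rcases Finset.mem_insert.1 ht with rfl | ht
        · simp
        · simp [h3 t ht]
  by_contra hne
  obtain ⟨G, h1, h2, h3⟩ := key ((Finset.univ.image (fun j => (x j, y j)) ∪
    Finset.univ.image (fun j => (x' j, y' j))).erase (x i, y i)) (Finset.notMem_erase _ _)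
  have e := h1 0 0
  simp only [pow_zero, mul_one] at e
  have e1 : ∀ j, G (x j, y j) = if (x j, y j) = (x i, y i) then 1 else 0 := fun j => by
    split_ifs with hj
    · rw [hj, h2]
    · exact h3 _ (Finset.mem_erase.2 ⟨hj, Finset.mem_union_left _
        (Finset.mem_image_of_mem (fun j => (x j, y j)) (Finset.mem_univ j))⟩)
  have e2 : ∀ j, G (x' j, y' j) = 0 := fun j =>
    h3 _ (Finset.mem_erase.2 ⟨fun hj => hne ⟨j, Prod.ext_iff.1 hj⟩, Finset.mem_union_right _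
      (Finset.mem_image_of_mem (fun j => (x' j, y' j)) (Finset.mem_univ j))⟩)
  simp only [e1, e2, Finset.sum_boole, Finset.sum_const_zero, Nat.cast_eq_zero,
    Finset.card_eq_zero] at e
  exact Finset.filter_eq_empty_iff.1 e (Finset.mem_univ i) rfl

theorem hecke_gal (σ : ℂ ≃+* ℂ) {q : ℕ} (hq : q.Prime) {Λ Λ' M : Lt} (hΛ : IsLat Λ) (hM : IsLat M)
    (hj : jL M = σ (jL Λ)) (h : Nb q Λ Λ') :
    ∃ M', Nb q M M' ∧ jL M' = σ (jL Λ') ∧ dL M' / dL M = σ (dL Λ' / dL Λ) := by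
  have hM0 := dL_ne_zero hM
  obtain ⟨c, τ, hc, rfl⟩ := hΛ
  obtain ⟨c', τ', hc', rfl⟩ := hM
  obtain ⟨o, rfl⟩ := (nb_iff hq hc τ _).1 h
  rw [jL_sp hc, jL_sp hc'] at hj
  obtain ⟨o', h1, h2⟩ := mem_of_power_sums
    (fun o => σ (jL (nbs q hq.pos c τ o) * (dL (nbs q hq.pos c τ o) / dL (sp c (c * τ)))))
    (fun o => σ (dL (nbs q hq.pos c τ o) / dL (sp c (c * τ))))
    (fun o => jL (nbs q hq.pos c' τ' o) * (dL (nbs q hq.pos c' τ' o) / dL (sp c' (c' * τ'))))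
    (fun o => dL (nbs q hq.pos c' τ' o) / dL (sp c' (c' * τ'))) (fun a b => by
      obtain ⟨P, hP⟩ := power_sum hq a b
      rw [hP c' τ' hc', hj]
      simp only [← map_pow, ← map_mul, ← map_sum, hP c τ hc]
      exact (Polynomial.aeval_algHom_apply (σ : ℂ →+* ℂ).toRatAlgHom (jInv τ) P).symm) o
  refine ⟨_, (nb_iff hq hc' τ' _).2 ⟨o', rfl⟩, ?_, h2⟩
  rw [map_mul, ← h2] at h1
  exact mul_right_cancel₀ (div_ne_zero (dL_ne_zero (isLat_nbs_hecke hq hc' τ' o')) hM0) h1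

theorem ch_gal (σ : ℂ ≃+* ℂ) {n : ℕ} {Λ Λ' : Lt} (h : Ch n Λ Λ') (hΛ : IsLat Λ) {M : Lt}
    (hM : IsLat M) (hj : jL M = σ (jL Λ)) :
    ∃ M', Ch n M M' ∧ jL M' = σ (jL Λ') ∧ dL M' / dL M = σ (dL Λ' / dL Λ) := by
  induction h generalizing M with
  | refl Λ => exact ⟨M, Ch.refl M, hj, by rw [div_self (dL_ne_zero hM), div_self (dL_ne_zero hΛ),
      map_one]⟩
  | step hq h1 _ ih =>
    obtain ⟨M₁, a1, a2, a3⟩ := hecke_gal σ hq hΛ hM hj h1
    obtain ⟨M', b1, b2, b3⟩ := ih (h1.isLat hq hΛ) (a1.isLat hq hM) a2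
    refine ⟨M', Ch.step hq a1 b1, b2, ?_⟩
    rw [← div_mul_div_cancel₀ (dL_ne_zero (a1.isLat hq hM)), a3, b3, ← map_mul,
      div_mul_div_cancel₀ (dL_ne_zero (h1.isLat hq hΛ))]

/-- Endomorphisms are transported up to twelfth roots of unity. -/
theorem end_gal (σ : ℂ ≃+* ℂ) {Λ M : Lt} (hΛ : IsLat Λ) (hM : IsLat M) (hj : jL M = σ (jL Λ))
    {α : ℂ} {n : ℕ} (h : Ch n Λ (pr α * Λ)) (hα : α ≠ 0) :
    ∃ β : ℂ, β ^ 12 = σ α ^ 12 ∧ pr β * M ≤ M := by
  obtain ⟨M', h1, h2, h3⟩ := ch_gal σ h hΛ hM hj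
  obtain ⟨-, h4, h5, -⟩ := h1.spec hM
  rw [jL_pr_mul hΛ hα, ← hj] at h2
  obtain ⟨β, hβ, rfl⟩ := jL_inj hM h4 h2.symm
  refine ⟨β, ?_, h5⟩
  rw [dL_pr_mul hM hβ, dL_pr_mul hΛ hα, div_right_comm, div_self (dL_ne_zero hM),
    div_right_comm, div_self (dL_ne_zero hΛ), one_div, one_div, map_inv₀, inv_inj, map_pow] at h3
  exact h3

theorem isog_gal (σ : ℂ ≃+* ℂ) {N : ℕ} (hN : 0 < N) {τ₁ τ₂ : ℍ}
    (h : Isog N (σ (jInv τ₁)) (σ (jInv τ₂))) :
    ∃ (a d : ℕ) (b : ℤ), 0 < a ∧ a ≤ N ^ 2 ∧ 0 < d ∧ d ≤ N ^ 2 ∧ 0 ≤ b ∧ b < a ∧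
      ∃ w : ℍ, (w : ℂ) = (d * τ₂ + b) / a ∧ jInv τ₁ = jInv w := by
  obtain ⟨Λ₁, Λ₂, -, h2, h3, h4, h5, h6⟩ := h
  obtain ⟨n, hn, hch⟩ := exists_ch h2 hN h6 h5
  have hM := isLat_sp one_ne_zero τ₂
  obtain ⟨M', a1, a2, -⟩ := ch_gal σ.symm hch h2 hM
    (by rw [jL_sp one_ne_zero, h4, RingEquiv.symm_apply_apply])
  obtain ⟨b1, -, b3, b4⟩ := a1.spec hM
  obtain ⟨a, d, b, c1, c2, c3, c4, c5, c6, rfl⟩ := hnf one_ne_zero τ₂ b1 b4 b3
  have ha : (a : ℂ) ≠ 0 := Nat.cast_ne_zero.2 c1.ne'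
  have hw : 0 < (((d : ℂ) * τ₂ + b) / a).im := by
    simpa [Complex.div_natCast_im] using div_pos (mul_pos (Nat.cast_pos.2 c2 : (0 : ℝ) < d)
      τ₂.im_pos) (Nat.cast_pos.2 c1 : (0 : ℝ) < a)
  refine ⟨a, d, b, c1, Nat.le_of_dvd (by positivity) (c3.trans hn), c2,
    Nat.le_of_dvd (by positivity) (c4.trans hn), c5, c6, ⟨_, hw⟩, rfl, ?_⟩
  rw [h3, RingEquiv.symm_apply_apply] at a2
  rw [← a2, ← jL_sp ha, mul_one, one_mul]
  congr 2
  exact (mul_div_cancel₀ _ ha).symm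

end Pool.Agent.EQ
end
end

-- part Pool.Agent.P.MP_ad7a55_nt.Sing
section

/-! Points almost fixed by a rational unipotent element. -/

set_option autoImplicit false

noncomputable section

open MeasureTheory Topology Filter UpperHalfPlane
open scoped MatrixGroups ENNReal BoundedContinuousFunction

namespace Pool.Agent.EQ

variable (p : ℕ) [Fact p.Prime]

/-- Points with a bounded nontrivial rational self-map that stays bounded along a ball. -/
def Sg (q : ℕ) (R : ℝ) (e : ℚ_[p]) (l : ℤ) : Set (XX p) :=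
  {x | ∃ P ∈ HomS p q 1 x x, P ≠ (1, 1) ∧ P ≠ (-1, -1) ∧ Bd R P.1 ∧
    ∀ s : ℚ_[p], ‖s‖ ≤ (p : ℝ) ^ l → Bd R (Pfl p e e s P.2)}

/-- A rational matrix read in the frame `g`. -/
def sing_cj {F : Type} [Field F] (g : SL(2, F)) (ξ : Matrix (Fin 2) (Fin 2) ℚ) :
    Matrix (Fin 2) (Fin 2) F :=
  (g : Matrix (Fin 2) (Fin 2) F) * ξ.map (↑) * ((g⁻¹ : SL(2, F)) : Matrix (Fin 2) (Fin 2) F)

theorem sing_inv_mul {F : Type} [Field F] (g : SL(2, F)) :
    ((g⁻¹ : SL(2, F)) : Matrix (Fin 2) (Fin 2) F) * (g : Matrix (Fin 2) (Fin 2) F) = 1 := by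
  rw [← Matrix.SpecialLinearGroup.coe_mul, inv_mul_cancel, Matrix.SpecialLinearGroup.coe_one]

theorem sing_mul_inv {F : Type} [Field F] (g : SL(2, F)) :
    (g : Matrix (Fin 2) (Fin 2) F) * ((g⁻¹ : SL(2, F)) : Matrix (Fin 2) (Fin 2) F) = 1 := by
  rw [← Matrix.SpecialLinearGroup.coe_mul, mul_inv_cancel, Matrix.SpecialLinearGroup.coe_one]

theorem sing_cj_iff {F : Type} [Field F] (g : SL(2, F)) (ξ : Matrix (Fin 2) (Fin 2) ℚ)
    (P : Matrix (Fin 2) (Fin 2) F) :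
    P * (g : Matrix (Fin 2) (Fin 2) F) = (g : Matrix (Fin 2) (Fin 2) F) * ξ.map (↑) ↔
      P = sing_cj g ξ := by
  constructor
  · intro h
    rw [sing_cj, ← h, Matrix.mul_assoc, sing_mul_inv, Matrix.mul_one]
  · rintro rfl
    rw [sing_cj, Matrix.mul_assoc, sing_inv_mul, Matrix.mul_one]

theorem sing_cj_scalar {F : Type} [Field F] [CharZero F] (g : SL(2, F))
    (ξ : Matrix (Fin 2) (Fin 2) ℚ) (c : ℚ) :
    sing_cj g ξ = (c : F) • (1 : Matrix (Fin 2) (Fin 2) F) ↔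
      ξ = c • (1 : Matrix (Fin 2) (Fin 2) ℚ) := by
  have hm : (c • (1 : Matrix (Fin 2) (Fin 2) ℚ)).map ((↑) : ℚ → F) =
      (c : F) • (1 : Matrix (Fin 2) (Fin 2) F) := by
    ext i j
    fin_cases i <;> fin_cases j <;> simp
  rw [eq_comm, ← sing_cj_iff]
  constructor
  · intro h
    rw [Matrix.smul_mul, Matrix.one_mul] at h
    have h2 : ξ.map ((↑) : ℚ → F) = (c : F) • (1 : Matrix (Fin 2) (Fin 2) F) := by
      have := congrArg (fun M => ((g⁻¹ : SL(2, F)) : Matrix (Fin 2) (Fin 2) F) * M) h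
      simp only [Matrix.mul_smul, ← Matrix.mul_assoc, sing_inv_mul, Matrix.one_mul] at this
      exact this.symm
    rw [← hm] at h2
    exact Matrix.map_injective Rat.cast_injective h2
  · rintro rfl
    rw [hm, Matrix.smul_mul, Matrix.mul_smul, Matrix.one_mul, Matrix.mul_one]

theorem sing_cj_one {F : Type} [Field F] [CharZero F] (g : SL(2, F))
    (ξ : Matrix (Fin 2) (Fin 2) ℚ) : sing_cj g ξ = 1 ↔ ξ = 1 := by
  simpa using sing_cj_scalar g ξ 1

theorem sing_cj_neg {F : Type} [Field F] [CharZero F] (g : SL(2, F))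
    (ξ : Matrix (Fin 2) (Fin 2) ℚ) : sing_cj g ξ = -1 ↔ ξ = -1 := by
  simpa using sing_cj_scalar g ξ (-1)

theorem sing_cj_mul {F : Type} [Field F] (h g : SL(2, F)) (ξ : Matrix (Fin 2) (Fin 2) ℚ) :
    sing_cj (h * g) ξ = (h : Matrix (Fin 2) (Fin 2) F) * sing_cj g ξ *
      ((h⁻¹ : SL(2, F)) : Matrix (Fin 2) (Fin 2) F) := by
  simp only [sing_cj, mul_inv_rev, Matrix.SpecialLinearGroup.coe_mul, Matrix.mul_assoc]

theorem sing_cj_det {F : Type} [Field F] [CharZero F] (g : SL(2, F))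
    {ξ : Matrix (Fin 2) (Fin 2) ℚ} (h : ξ.det = 1) : (sing_cj g ξ).det = 1 := by
  have h1 : (ξ.map ((↑) : ℚ → F)).det = 1 := by
    have := (Rat.castHom F).map_det ξ
    rw [h, map_one] at this
    exact this.symm
  rw [sing_cj, Matrix.det_mul, Matrix.det_mul, h1, Matrix.SpecialLinearGroup.det_coe,
    Matrix.SpecialLinearGroup.det_coe]
  simp

theorem sing_cj_cont {F : Type} [NormedField F] (ξ : Matrix (Fin 2) (Fin 2) ℚ) :
    Continuous fun g : SL(2, F) => sing_cj g ξ := by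
  have h : Continuous fun g : SL(2, F) => (g : Matrix (Fin 2) (Fin 2) F) := continuous_subtype_val
  exact (h.matrix_mul continuous_const).matrix_mul (h.comp continuous_inv)

theorem sing_Bd_closed {α F : Type} [NormedField F] [TopologicalSpace α] (R : ℝ)
    {f : α → Matrix (Fin 2) (Fin 2) F} (hf : Continuous f) : IsClosed {a | Bd R (f a)} := by
  simp only [Bd, Set.ofPred_forall]
  exact isClosed_iInter fun i => isClosed_iInter fun j =>
    isClosed_le (hf.matrix_elem i j).norm continuous_const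

/-- The admissible rational matrices. -/
def sing_A (q : ℕ) : Set (Matrix (Fin 2) (Fin 2) ℚ) :=
  {ξ | (∀ i j, InZp p (q * ξ i j)) ∧ ξ.det = 1 ∧ ξ ≠ 1 ∧ ξ ≠ -1}

/-- The frames in which `ξ` is bounded along the ball. -/
def sing_T (R : ℝ) (e : ℚ_[p]) (l : ℤ) (ξ : Matrix (Fin 2) (Fin 2) ℚ) : Set (GG p) :=
  {g | Bd R (sing_cj g.1 ξ) ∧ ∀ s : ℚ_[p], ‖s‖ ≤ (p : ℝ) ^ l → Bd R (Pfl p e e s (sing_cj g.2 ξ))}

theorem sing_mem_iff {q : ℕ} {R : ℝ} {e : ℚ_[p]} {l : ℤ} (g : GG p) :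
    (g : XX p) ∈ Sg p q R e l ↔ ∃ ξ ∈ sing_A p q, g ∈ sing_T p R e l ξ := by
  constructor
  · rintro ⟨P, hP, h1, h2, h3, h4⟩
    obtain ⟨ξ, hz, hd, hh1, hh2⟩ := HomS.rep hP rfl rfl
    rw [sing_cj_iff] at hh1 hh2
    refine ⟨ξ, ⟨hz, hd, ?_, ?_⟩, hh1 ▸ h3, hh2 ▸ h4⟩
    · rintro rfl
      exact h1 (Prod.ext (hh1.trans ((sing_cj_one _ _).2 rfl))
        (hh2.trans ((sing_cj_one _ _).2 rfl)))
    · rintro rfl
      exact h2 (Prod.ext (hh1.trans ((sing_cj_neg _ _).2 rfl))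
        (hh2.trans ((sing_cj_neg _ _).2 rfl)))
  · rintro ⟨ξ, ⟨hz, hd, h1, h2⟩, h3, h4⟩
    refine ⟨(sing_cj g.1 ξ, sing_cj g.2 ξ), ⟨g, g, rfl, rfl, ξ, hz, hd,
      (sing_cj_iff _ _ _).2 rfl, (sing_cj_iff _ _ _).2 rfl⟩, ?_, ?_, h3, h4⟩
    · intro h
      exact h1 ((sing_cj_one _ _).1 (congrArg Prod.fst h))
    · intro h
      exact h2 ((sing_cj_neg _ _).1 (congrArg Prod.fst h))

theorem sing_T_closed (R : ℝ) (e : ℚ_[p]) (l : ℤ) (ξ : Matrix (Fin 2) (Fin 2) ℚ) :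
    IsClosed (sing_T p R e l ξ) := by
  rw [sing_T, Set.ofPred_and]
  refine (sing_Bd_closed R ((sing_cj_cont ξ).comp continuous_fst)).inter ?_
  simp only [Set.ofPred_forall]
  refine isClosed_iInter fun s => isClosed_iInter fun _ => sing_Bd_closed R ?_
  exact (continuous_const.matrix_mul ((sing_cj_cont ξ).comp continuous_snd)).matrix_mul
    continuous_const

theorem sing_Pfl_zero (e : ℚ_[p]) (P : Matrix (Fin 2) (Fin 2) ℚ_[p]) : Pfl p e e 0 P = P := by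
  rw [Pfl_eq]
  ext i j
  fin_cases i <;> fin_cases j <;> simp

theorem sing_finite {q : ℕ} (hq : 0 < q) (R : ℝ) (e : ℚ_[p]) (l : ℤ) {C : Set (GG p)}
    (hC : IsCompact C) : {ξ | ξ ∈ sing_A p q ∧ (sing_T p R e l ξ ∩ C).Nonempty}.Finite := by
  refine (finite_hom hq R hC).subset ?_
  rintro ξ ⟨hξ, g, ⟨h1, h2⟩, hg⟩
  refine ⟨hξ.1, g, hg, g, hg, (sing_cj g.1 ξ, sing_cj g.2 ξ),
    ⟨(sing_cj_iff _ _ _).2 rfl, (sing_cj_iff _ _ _).2 rfl⟩, h1, ?_⟩
  have := h2 0 (by rw [norm_zero]; positivity)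
  rwa [sing_Pfl_zero] at this

theorem isClosed_Sg {q : ℕ} (hq : 0 < q) (R : ℝ) (e : ℚ_[p]) (l : ℤ) : IsClosed (Sg p q R e l) := by
  rw [← (QuotientGroup.isQuotientMap_mk (Gam p)).isClosed_preimage]
  have h : QuotientGroup.mk ⁻¹' Sg p q R e l = ⋃ ξ : sing_A p q, sing_T p R e l ξ := by
    ext g
    rw [Set.mem_preimage, sing_mem_iff, Set.mem_iUnion]
    exact ⟨fun ⟨ξ, h1, h2⟩ => ⟨⟨ξ, h1⟩, h2⟩, fun ⟨ξ, h2⟩ => ⟨ξ.1, ξ.2, h2⟩⟩
  rw [h]
  refine LocallyFinite.isClosed_iUnion (fun g => ?_) fun ξ => sing_T_closed p R e l ξ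
  obtain ⟨C, hC, hgC⟩ := exists_compact_mem_nhds g
  refine ⟨C, hgC, ?_⟩
  exact ((sing_finite p hq R e l hC).preimage Subtype.val_injective.injOn).subset
    fun ξ hξ => ⟨ξ.2, hξ⟩

theorem sing_T_anti (R : ℝ) (e : ℚ_[p]) {l l' : ℤ} (h : l ≤ l') (ξ : Matrix (Fin 2) (Fin 2) ℚ) :
    sing_T p R e l' ξ ⊆ sing_T p R e l ξ := by
  have hp : (1 : ℝ) ≤ p := by exact_mod_cast (Fact.out : p.Prime).one_lt.le
  exact fun g hg => ⟨hg.1, fun s hs => hg.2 s (hs.trans (zpow_le_zpow_right₀ hp h))⟩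

theorem sing_anti (q : ℕ) (R : ℝ) (e : ℚ_[p]) : Antitone fun l : ℕ => Sg p q R e l := by
  intro l l' h x hx
  obtain ⟨g, rfl⟩ := QuotientGroup.mk_surjective x
  obtain ⟨ξ, h1, h2⟩ := (sing_mem_iff p g).1 hx
  exact (sing_mem_iff p g).2 ⟨ξ, h1, sing_T_anti p R e (by exact_mod_cast h) ξ h2⟩

/-- A bounded affine function on `ℚ_p` is constant. -/
theorem sing_affine {a b : ℚ_[p]} {R : ℝ} (h : ∀ s : ℚ_[p], ‖a + b * s‖ ≤ R) : b = 0 := by
  by_contra hb
  obtain ⟨y, hy⟩ := NormedField.exists_lt_norm ℚ_[p] R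
  have := h ((y - a) / b)
  rw [mul_div_cancel₀ _ hb, add_sub_cancel] at this
  exact absurd hy this.not_gt

theorem sing_inter {q : ℕ} (hq : 0 < q) {R : ℝ} {e : ℚ_[p]} (he : e ≠ 0) {g : GG p}
    (hg : ∀ l : ℕ, (g : XX p) ∈ Sg p q R e l) : ∃ ξ ∈ sing_A p q,
      sing_cj g.2 ξ 1 0 = 0 ∧ sing_cj g.2 ξ 0 0 = sing_cj g.2 ξ 1 1 := by
  have hp : (1 : ℝ) < p := by exact_mod_cast (Fact.out : p.Prime).one_lt
  have key : ∃ ξ ∈ sing_A p q, ∀ l : ℕ, g ∈ sing_T p R e l ξ := by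
    by_contra hcon
    push Not at hcon
    have hf := sing_finite p hq R e 0 (isCompact_singleton (x := g))
    have h1 : ∀ᶠ l : ℕ in atTop, ∀ ξ ∈ {ξ | ξ ∈ sing_A p q ∧ (sing_T p R e 0 ξ ∩ {g}).Nonempty},
        g ∉ sing_T p R e l ξ := by
      rw [Filter.eventually_all_finite hf]
      intro ξ hξ
      obtain ⟨l, hl⟩ := hcon ξ hξ.1
      filter_upwards [eventually_ge_atTop l] with l' hl' hh
      exact hl (sing_T_anti p R e (by exact_mod_cast hl') ξ hh)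
    obtain ⟨l, hl⟩ := h1.exists
    obtain ⟨ξ, h2, h3⟩ := (sing_mem_iff p g).1 (hg l)
    exact hl ξ ⟨h2, g, sing_T_anti p R e (by positivity) ξ h3, rfl⟩ h3
  obtain ⟨ξ, h1, h2⟩ := key
  have h3 : ∀ s : ℚ_[p], Bd R (Pfl p e e s (sing_cj g.2 ξ)) := fun s => by
    obtain ⟨l, hl⟩ := pow_unbounded_of_one_lt ‖s‖ hp
    exact (h2 l).2 s (by rw [zpow_natCast]; exact hl.le)
  have h4 : sing_cj g.2 ξ 1 0 = 0 := by
    have : e * sing_cj g.2 ξ 1 0 = 0 := by
      refine sing_affine p (a := sing_cj g.2 ξ 0 0) (R := R) fun s => ?_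
      have := h3 s 0 0
      rw [Pfl_eq] at this
      simpa using this
    exact (mul_eq_zero.1 this).resolve_left he
  refine ⟨ξ, h1, h4, ?_⟩
  have : e * sing_cj g.2 ξ 1 1 - e * sing_cj g.2 ξ 0 0 = 0 := by
    refine sing_affine p (a := sing_cj g.2 ξ 0 1) (R := R) fun s => ?_
    have := h3 s 0 1
    rw [Pfl_eq] at this
    simpa [h4] using this
  rw [← mul_sub] at this
  exact (sub_eq_zero.1 ((mul_eq_zero.1 this).resolve_left he)).symm

/-- At most one lower unipotent conjugate of a noncentral matrix is upper unipotent up to sign. -/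
theorem sing_sub {F : Type} [Field F] [CharZero F] {W : Matrix (Fin 2) (Fin 2) F} (hd : W.det = 1)
    (h1 : W ≠ 1) (h2 : W ≠ -1) :
    {s : F | ((ul s : Matrix (Fin 2) (Fin 2) F) * W * ((ul s)⁻¹ : SL(2, F))) 1 0 = 0 ∧
      ((ul s : Matrix (Fin 2) (Fin 2) F) * W * ((ul s)⁻¹ : SL(2, F))) 0 0 =
        ((ul s : Matrix (Fin 2) (Fin 2) F) * W * ((ul s)⁻¹ : SL(2, F))) 1 1}.Subsingleton := by
  have hs : ∀ s : F, (ul s : Matrix (Fin 2) (Fin 2) F) * W * ((ul s)⁻¹ : SL(2, F)) =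
      !![W 0 0 - W 0 1 * s, W 0 1;
        W 1 0 + s * (W 0 0 - W 1 1) - s ^ 2 * W 0 1, s * W 0 1 + W 1 1] := fun s => by
    rw [ul_inv, ul_val, ul_val]
    conv_lhs => rw [Matrix.eta_fin_two W]
    simp only [Matrix.mul_fin_two]
    ext i j
    fin_cases i <;> fin_cases j <;> simp <;> ring
  intro s hs1 t ht1
  simp only [Set.mem_ofPred_eq, hs] at hs1 ht1
  simp only [Matrix.of_apply, Matrix.cons_val', Matrix.cons_val_zero, Matrix.cons_val_one,
    Matrix.cons_val_fin_one] at hs1 ht1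
  obtain ⟨a1, a2⟩ := hs1
  obtain ⟨-, b2⟩ := ht1
  by_cases hb : W 0 1 = 0
  · exfalso
    have had : W 0 0 = W 1 1 := by simpa [hb] using a2
    have hc : W 1 0 = 0 := by simpa [hb, had] using a1
    rw [Matrix.det_fin_two, hb, ← had, zero_mul, sub_zero] at hd
    rcases mul_self_eq_one_iff.1 hd with h | h
    · refine h1 ?_
      ext i j
      fin_cases i <;> fin_cases j <;> simp [hb, hc, ← had, h]
    · refine h2 ?_
      ext i j
      fin_cases i <;> fin_cases j <;> simp [hb, hc, ← had, h]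
  · have : (2 * W 0 1) * s = (2 * W 0 1) * t := by linear_combination b2 - a2
    exact mul_left_cancel₀ (mul_ne_zero two_ne_zero hb) this

theorem sing_countable {q : ℕ} (hq : 0 < q) (R : ℝ) {e : ℚ_[p]} (he : e ≠ 0) (x : XX p) :
    {s : ℚ_[p] | ((1, ul s) : GG p) • x ∈ ⋂ l : ℕ, Sg p q R e l}.Countable := by
  obtain ⟨g, rfl⟩ := QuotientGroup.mk_surjective x
  have : Countable (Matrix (Fin 2) (Fin 2) ℚ) := inferInstanceAs (Countable (Fin 2 → Fin 2 → ℚ))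
  refine (Set.countable_iUnion fun ξ : sing_A p q => (sing_sub (sing_cj_det g.2 ξ.2.2.1)
    (fun h => ξ.2.2.2.1 ((sing_cj_one _ _).1 h))
    (fun h => ξ.2.2.2.2 ((sing_cj_neg _ _).1 h))).countable).mono ?_
  intro s hs
  obtain ⟨ξ, h1, h2⟩ := sing_inter p hq he (g := (1, ul s) * g) (Set.mem_iInter.1 hs)
  rw [Prod.snd_mul, sing_cj_mul] at h2
  exact Set.mem_iUnion.2 ⟨⟨ξ, h1⟩, h2⟩

theorem Sg_small {q : ℕ} (hq : 0 < q) (R : ℝ) {e : ℚ_[p]} (he : e ≠ 0) {ε : ℝ≥0∞} (hε : 0 < ε) :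
    ∃ l : ℕ, mX p (Sg p q R e l) < ε := by
  have hN : MeasurableSet (⋂ l : ℕ, Sg p q R e l) :=
    MeasurableSet.iInter fun l => (isClosed_Sg p hq R e l).measurableSet
  have hc : Continuous fun w : XX p × ℚ_[p] => ((1, ul w.2) : GG p) • w.1 := by
    have h : Continuous fun w : XX p × ℚ_[p] => ((1, ul w.2) : GG p) :=
      continuous_const.prodMk (continuous_ul.comp continuous_snd)
    exact h.smul continuous_fst
  have hA := hc.measurable hN
  have h0 : mX p (⋂ l : ℕ, Sg p q R e l) = 0 := by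
    have h1 := Measure.prod_apply (μ := mX p) (ν := bm p 0) hA
    have h2 := Measure.prod_apply_symm (μ := mX p) (ν := bm p 0) hA
    have h3 : ∀ x : XX p, bm p 0 (Prod.mk x ⁻¹' ((fun w : XX p × ℚ_[p] =>
        ((1, ul w.2) : GG p) • w.1) ⁻¹' ⋂ l : ℕ, Sg p q R e l)) = 0 := fun x =>
      bm_countable p 0 (sing_countable p hq R he x)
    have h4 : ∀ s : ℚ_[p], mX p ((fun x => (x, s)) ⁻¹' ((fun w : XX p × ℚ_[p] =>
        ((1, ul w.2) : GG p) • w.1) ⁻¹' ⋂ l : ℕ, Sg p q R e l)) =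
        mX p (⋂ l : ℕ, Sg p q R e l) := fun s =>
      measure_preimage_smul (mX p) ((1, ul s) : GG p) _
    simp only [h3, lintegral_zero] at h1
    simp only [h4, lintegral_const, measure_univ, mul_one] at h2
    rw [← h2, h1]
  have ht := tendsto_measure_iInter_atTop (μ := mX p)
    (fun l : ℕ => (isClosed_Sg p hq R e l).measurableSet.nullMeasurableSet) (sing_anti p q R e)
    ⟨0, measure_ne_top _ _⟩
  rw [h0] at ht
  exact (ht.eventually (gt_mem_nhds hε)).exists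

end Pool.Agent.EQ
end
end

-- part Pool.Agent.P.MP_ad7a55_nt.Star
section

/-! The action of the p-adic points of the torus on lattices. -/

set_option autoImplicit false

noncomputable section

open MeasureTheory Topology Filter UpperHalfPlane
open scoped MatrixGroups ENNReal BoundedContinuousFunction

namespace Pool.Agent.EQ

variable (p : ℕ) [Fact p.Prime]

/-- The lattice equal to `Λ` away from `p` and to `t Λ` at `p`. -/
def star (t : ℂ) (Λ : Lt) : Lt where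
  carrier := {v | (∃ a : ℕ, (p : ℂ) ^ a * v ∈ Λ) ∧
    ∃ m : ℤ, ¬ (p : ℤ) ∣ m ∧ ∃ w ∈ Λ, (m : ℂ) * v = t * w}
  zero_mem' := ⟨⟨0, by simp⟩, 1, (Nat.prime_iff_prime_int.1 Fact.out).not_dvd_one, 0, Λ.zero_mem,
    by simp⟩
  add_mem' := by
    rintro v v' ⟨⟨a, ha⟩, m, hm, w, hw, e⟩ ⟨⟨a', ha'⟩, m', hm', w', hw', e'⟩
    refine ⟨⟨a + a', ?_⟩, m * m', ?_, m' • w + m • w', Λ.add_mem (Λ.smul_mem _ hw)
      (Λ.smul_mem _ hw'), ?_⟩
    · have := Λ.add_mem (Λ.smul_mem ((p : ℤ) ^ a') ha) (Λ.smul_mem ((p : ℤ) ^ a) ha')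
      convert this using 1
      simp only [zsmul_eq_mul]; push_cast; ring
    · exact (Nat.prime_iff_prime_int.1 Fact.out).not_dvd_mul hm hm'
    · simp only [zsmul_eq_mul]; push_cast
      linear_combination (m' : ℂ) * e + (m : ℂ) * e'
  smul_mem' := by
    rintro n v ⟨⟨a, ha⟩, m, hm, w, hw, e⟩
    refine ⟨⟨a, ?_⟩, m, hm, n • w, Λ.smul_mem _ hw, ?_⟩
    · convert Λ.smul_mem n ha using 1
      simp only [zsmul_eq_mul]; ring
    · simp only [zsmul_eq_mul]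
      linear_combination (n : ℂ) * e

theorem mem_star {t v : ℂ} {Λ : Lt} : v ∈ star p t Λ ↔ (∃ a : ℕ, (p : ℂ) ^ a * v ∈ Λ) ∧
    ∃ m : ℤ, ¬ (p : ℤ) ∣ m ∧ ∃ w ∈ Λ, (m : ℂ) * v = t * w := Iff.rfl

/-- `t` is a nonzero element of the field `ℚ(√D)`. -/
def InK (D : ℤ) (t : ℂ) : Prop := t ≠ 0 ∧ ∃ a b : ℚ, t = a + b * th D

theorem InK.mul {D : ℤ} (hD : D < 0) {t t' : ℂ} (h : InK D t) (h' : InK D t') :
    InK D (t * t') := by
  obtain ⟨h0, a, b, rfl⟩ := h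
  obtain ⟨h0', a', b', rfl⟩ := h'
  refine ⟨mul_ne_zero h0 h0', a * a' + b * b' * D, a * b' + b * a', ?_⟩
  have := th_sq hD.le
  push_cast
  linear_combination (b : ℂ) * b' * this

theorem norm_ne_zero_star {D : ℤ} (hD : D < 0) {a b : ℚ} (h : a ≠ 0 ∨ b ≠ 0) :
    a ^ 2 - b ^ 2 * D ≠ 0 := by
  have hD' : (0 : ℚ) < -(D : ℚ) := by exact_mod_cast neg_pos.2 hD
  have : 0 < a ^ 2 + b ^ 2 * (-(D : ℚ)) := by
    rcases h with h | h
    · have := pow_pos (abs_pos.2 h) 2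
      rw [sq_abs] at this
      positivity
    · have := pow_pos (abs_pos.2 h) 2
      rw [sq_abs] at this
      positivity
  intro e
  linarith

theorem InK.inv {D : ℤ} (hD : D < 0) {t : ℂ} (h : InK D t) : InK D t⁻¹ := by
  obtain ⟨h0, a, b, rfl⟩ := h
  have hab : a ≠ 0 ∨ b ≠ 0 := by
    by_contra hc
    push Not at hc
    apply h0
    simp [hc.1, hc.2]
  have hN := norm_ne_zero_star hD hab
  have hN' : (a : ℂ) ^ 2 - (b : ℂ) ^ 2 * D ≠ 0 := by exact_mod_cast hN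
  refine ⟨inv_ne_zero h0, a / (a ^ 2 - b ^ 2 * D), -b / (a ^ 2 - b ^ 2 * D), ?_⟩
  have := th_sq hD.le
  apply inv_eq_of_mul_eq_one_right
  push_cast
  field_simp
  linear_combination -(b : ℂ) ^ 2 * this

theorem inK_one_add {D : ℤ} (hD : D < 0) (y : ℚ) : InK D (1 + y * th D) := by
  refine ⟨?_, 1, y, by simp⟩
  intro h
  have := congrArg Complex.re h
  simp [th] at this

theorem inK_rat_star (D : ℤ) {a : ℚ} (ha : a ≠ 0) : InK D (a : ℂ) :=
  ⟨by exact_mod_cast ha, a, 0, by simp⟩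

theorem InK.pow_star {D : ℤ} (hD : D < 0) {t : ℂ} (h : InK D t) (n : ℕ) : InK D (t ^ n) := by
  induction n with
  | zero => simpa using inK_rat_star D (a := 1) one_ne_zero
  | succ n ih => rw [pow_succ]; exact ih.mul hD h

theorem int_mul_mem_star {Λ : Lt} {v : ℂ} (n : ℤ) (h : v ∈ Λ) : (n : ℂ) * v ∈ Λ := by
  simpa [zsmul_eq_mul] using Λ.smul_mem n h

theorem pow_mul_mem_star {Λ : Lt} {v : ℂ} (a : ℕ) (h : v ∈ Λ) : (p : ℂ) ^ a * v ∈ Λ := by
  simpa using int_mul_mem_star ((p : ℤ) ^ a) h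

theorem prime_star : Prime (p : ℤ) := Nat.prime_iff_prime_int.1 Fact.out

/-- Bezout. -/
theorem bez_star {Λ : Lt} {v : ℂ} {a : ℕ} {m : ℤ} (hm : ¬ (p : ℤ) ∣ m)
    (h1 : (p : ℂ) ^ a * v ∈ Λ) (h2 : (m : ℂ) * v ∈ Λ) : v ∈ Λ := by
  have hc : IsCoprime ((p : ℤ) ^ a) m :=
    ((prime_star p).irreducible.coprime_iff_not_dvd.2 hm).pow_left
  obtain ⟨x, y, hxy⟩ := hc
  have hxy' : (x : ℂ) * (p : ℂ) ^ a + y * m = 1 := by exact_mod_cast hxy
  have := Λ.add_mem (int_mul_mem_star x h1) (int_mul_mem_star y h2)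
  convert this using 1
  linear_combination -v * hxy'

theorem split_star {N : ℤ} (hN : N ≠ 0) : ∃ (e : ℕ) (n : ℤ), ¬ (p : ℤ) ∣ n ∧ N = p ^ e * n := by
  obtain ⟨e, n, h1, h2⟩ := WfDvdMonoid.max_power_factor hN (prime_star p).irreducible
  exact ⟨e, n, h1, h2⟩

theorem lin_mem_OD_star (D a b : ℤ) : (a : ℂ) + b * th D ∈ OD D := by
  have := (OD D).add_mem (int_mul_mem_star a (one_mem_OD D)) (int_mul_mem_star b (th_mem_OD D))
  simpa using this

/-- Clearing denominators. -/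
theorem InK.clear {D : ℤ} {t : ℂ} (h : InK D t) :
    ∃ (e : ℕ) (n : ℤ), ¬ (p : ℤ) ∣ n ∧ (p : ℂ) ^ e * n * t ∈ OD D := by
  obtain ⟨-, a, b, rfl⟩ := h
  have hN : (a.den : ℤ) * b.den ≠ 0 := by
    have := a.den_nz
    have := b.den_nz
    positivity
  obtain ⟨e, n, hn, hE⟩ := split_star p hN
  refine ⟨e, n, hn, ?_⟩
  have hE' : (a.den : ℂ) * b.den = p ^ e * n := by exact_mod_cast hE
  have ha : (a : ℂ) * a.den = a.num := by exact_mod_cast a.mul_den_eq_num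
  have hb : (b : ℂ) * b.den = b.num := by exact_mod_cast b.mul_den_eq_num
  convert lin_mem_OD_star D (a.num * b.den) (b.num * a.den) using 1
  push_cast
  linear_combination -((a : ℂ) + b * th D) * hE' + (b.den : ℂ) * ha + (a.den : ℂ) * th D * hb

/-- `Λ` is a module over the order of discriminant `D`. -/
def ModS (D : ℤ) (Λ : Lt) : Prop := ∀ x ∈ OD D, ∀ w ∈ Λ, x * w ∈ Λ

theorem DiscL.modS {D : ℤ} {Λ : Lt} (h : DiscL Λ D) : ModS D Λ :=
  fun x hx => pr_mul_le.1 ((h.end_iff x).2 hx)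

theorem ModS.star {D : ℤ} {Λ : Lt} (h : ModS D Λ) (t : ℂ) : ModS D (star p t Λ) := by
  rintro x hx v ⟨⟨a, ha⟩, m, hm, w, hw, e⟩
  refine ⟨⟨a, ?_⟩, m, hm, x * w, h x hx w hw, ?_⟩
  · convert h x hx _ ha using 1
    ring
  · linear_combination x * e

theorem star_pr_mul (t : ℂ) {c : ℂ} (hc : c ≠ 0) (Λ : Lt) :
    star p t (pr c * Λ) = pr c * star p t Λ := by
  ext v
  constructor
  · rintro ⟨⟨a, ha⟩, m, hm, w, hw, e⟩
    obtain ⟨u, hu, eu⟩ := mem_pr_mul.1 ha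
    obtain ⟨w', hw', rfl⟩ := mem_pr_mul.1 hw
    refine mem_pr_mul.2 ⟨v / c, ⟨⟨a, ?_⟩, m, hm, w', hw', ?_⟩, by field_simp⟩
    · convert hu using 1
      field_simp
      linear_combination -eu
    · field_simp
      linear_combination e
  · intro hv
    obtain ⟨u, ⟨⟨a, ha⟩, m, hm, w, hw, e⟩, rfl⟩ := mem_pr_mul.1 hv
    refine ⟨⟨a, mem_pr_mul.2 ⟨_, ha, by ring⟩⟩, m, hm, c * w, mem_pr_mul.2 ⟨w, hw, rfl⟩, ?_⟩
    linear_combination c * e

theorem star_mul' {D : ℤ} (hD : D < 0) {Λ : Lt} (h : ModS D Λ) {t t' : ℂ} (ht : InK D t)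
    (ht' : InK D t') : star p t (star p t' Λ) = star p (t * t') Λ := by
  ext v
  constructor
  · rintro ⟨⟨a, ⟨b, hb⟩, -⟩, m, hm, w, ⟨-, m', hm', u, hu, e'⟩, e⟩
    refine ⟨⟨a + b, ?_⟩, m * m', (prime_star p).not_dvd_mul hm hm', u, hu, ?_⟩
    · convert hb using 1
      ring
    · push_cast
      linear_combination (m' : ℂ) * e + t * e'
  · rintro ⟨⟨a, ha⟩, m, hm, u, hu, e⟩
    obtain ⟨e1, n1, hn1, h1⟩ := (ht.inv hD).clear p
    obtain ⟨e2, n2, hn2, h2⟩ := (ht'.inv hD).clear p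
    have t0 := ht.1
    have t0' := ht'.1
    refine ⟨⟨a + e2, ⟨0, ?_⟩, n2, hn2, _, h _ h2 _ ha, ?_⟩, m * n1,
      (prime_star p).not_dvd_mul hm hn1, n1 * t' * u, ⟨⟨a + e1, ?_⟩, 1,
      (prime_star p).not_dvd_one, n1 * u, int_mul_mem_star _ hu, ?_⟩, ?_⟩
    · convert pow_mul_mem_star p e2 ha using 1
      ring
    · field_simp
      ring
    · convert int_mul_mem_star m (h _ h1 _ ha) using 1
      field_simp
      linear_combination -(p : ℂ) ^ (a + e1) * n1 * e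
    · push_cast
      ring
    · push_cast
      linear_combination (n1 : ℂ) * e

theorem star_mul {D : ℤ} {Λ : Lt} (h : DiscL Λ D) {t t' : ℂ} (ht : InK D t) (ht' : InK D t') :
    star p t (star p t' Λ) = star p (t * t') Λ :=
  star_mul' p h.isD.1 h.modS ht ht'

theorem pow_mem_star {D : ℤ} (hD : D < 0) {t : ℂ} (ht : InK D t) :
    ∃ e : ℕ, (p : ℂ) ^ e ∈ star p t (OD D) := by
  obtain ⟨e, n, hn, h⟩ := (ht.inv hD).clear p
  have t0 := ht.1
  refine ⟨e, ⟨0, ?_⟩, n, hn, _, h, ?_⟩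
  · simpa using pow_mul_mem_star p e (one_mem_OD D)
  · field_simp

theorem star_OD_mul' {D : ℤ} (hD : D < 0) {Λ : Lt} (h : ModS D Λ) {t : ℂ}
    (ht : InK D t) : star p t (OD D) * Λ = star p t Λ := by
  apply le_antisymm
  · rw [Submodule.mul_le]
    rintro x ⟨⟨a, ha⟩, m, hm, y, hy, e⟩ w hw
    refine ⟨⟨a, ?_⟩, m, hm, y * w, h y hy w hw, ?_⟩
    · convert h _ ha w hw using 1
      ring
    · linear_combination w * e
  · rintro v ⟨⟨a, ha⟩, m, hm, w, hw, e⟩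
    obtain ⟨e1, n1, hn1, h1⟩ := ht.clear p
    obtain ⟨e2, h2⟩ := pow_mem_star p hD ht
    have h3 : (n1 : ℂ) * t ∈ star p t (OD D) := by
      refine ⟨⟨e1, by rw [← mul_assoc]; exact h1⟩, 1, (prime_star p).not_dvd_one, n1, ?_, ?_⟩
      · simpa using int_mul_mem_star n1 (one_mem_OD D)
      · push_cast
        ring
    refine bez_star p (a := e2 + a) ((prime_star p).not_dvd_mul hn1 hm) ?_ ?_
    · convert Submodule.mul_mem_mul h2 ha using 1
      ring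
    · convert Submodule.mul_mem_mul h3 hw using 1
      push_cast
      linear_combination (n1 : ℂ) * e

theorem star_OD_mul {D D' : ℤ} (hD : IsD D) {Λ : Lt} (h : DiscL Λ D') (hle : OD D ≤ OD D') {t : ℂ}
    (ht : InK D t) : star p t (OD D) * Λ = star p t Λ :=
  star_OD_mul' p hD.1 (fun x hx => h.modS x (hle hx)) ht

theorem star_one_star (Λ : Lt) : star p 1 Λ = Λ := by
  ext v
  constructor
  · rintro ⟨⟨a, ha⟩, m, hm, w, hw, e⟩
    exact bez_star p hm ha (by rw [e, one_mul]; exact hw)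
  · intro hv
    exact ⟨⟨0, by simpa using hv⟩, 1, (prime_star p).not_dvd_one, v, hv, by simp⟩

theorem discL_star_OD {D : ℤ} (hD : IsD D) {t : ℂ} (ht : InK D t) :
    DiscL (star p t (OD D)) D := by
  have hO := (discL_OD hD).modS
  have hp : 0 < p := (Fact.out : p.Prime).pos
  refine discL_of_inv (𝔟 := star p t⁻¹ (OD D)) hD ?_ ?_ ?_
  · obtain ⟨e1, n1, hn1, h1⟩ := ht.clear p
    obtain ⟨e2, h2⟩ := pow_mem_star p hD.1 ht
    refine (discL_OD hD).isLat.of_between (N := p ^ (e1 + e2)) (pow_pos hp _) ?_ ?_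
    · rw [pr_mul_le]
      intro w hw
      convert pow_mul_mem_star p e1 (hO.star p t w hw _ h2) using 1
      push_cast
      ring
    · rw [pr_mul_le]
      rintro v ⟨⟨a, ha⟩, m, hm, w, hw, e⟩
      refine bez_star p (a := a) ((prime_star p).not_dvd_mul hn1 hm) ?_ ?_
      · convert pow_mul_mem_star p (e1 + e2) ha using 1
        push_cast
        ring
      · convert pow_mul_mem_star p e2 (hO _ h1 _ hw) using 1
        push_cast
        linear_combination (p : ℂ) ^ (e1 + e2) * n1 * e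
  · rw [Submodule.mul_le]
    exact hO.star p t
  · rw [star_OD_mul' p hD.1 (hO.star p _) ht, star_mul' p hD.1 hO ht (ht.inv hD.1),
      mul_inv_cancel₀ ht.1, star_one_star]

theorem discL_star {D : ℤ} {Λ : Lt} (h : DiscL Λ D) {t : ℂ} (ht : InK D t) :
    DiscL (star p t Λ) D := by
  rw [← star_OD_mul p h.isD h le_rfl ht]
  exact (discL_star_OD p h.isD ht).mul h le_rfl

theorem star_pow {D : ℤ} (hD : IsD D) {t : ℂ} (ht : InK D t) (n : ℕ) :
    star p t (OD D) ^ (n + 1) = star p (t ^ (n + 1)) (OD D) := by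
  have hO := (discL_OD hD).modS
  induction n with
  | zero => simp
  | succ n ih =>
    rw [pow_succ', ih, star_OD_mul' p hD.1 (hO.star p _) ht,
      star_mul' p hD.1 hO ht (ht.pow_star hD.1 _), ← pow_succ']

theorem star_rat {a : ℚ} (ha : a ≠ 0) (Λ : Lt) : ∃ c : ℂ, c ≠ 0 ∧ star p a Λ = pr c * Λ := by
  obtain ⟨i, n, hn, e1⟩ := split_star p (Rat.num_ne_zero.2 ha)
  obtain ⟨j, n', hn', e2⟩ := split_star p (N := a.den) (by exact_mod_cast a.den_nz)
  have hp : (p : ℂ) ≠ 0 := by exact_mod_cast (Fact.out : p.Prime).ne_zero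
  have ha' : (a : ℂ) * a.den = a.num := by exact_mod_cast a.mul_den_eq_num
  have e1' : (a.num : ℂ) = p ^ i * n := by exact_mod_cast e1
  have e2' : (a.den : ℂ) = p ^ j * n' := by exact_mod_cast e2
  rw [e1', e2'] at ha'
  refine ⟨p ^ i / p ^ j, by positivity, ?_⟩
  ext v
  constructor
  · rintro ⟨⟨b, hb⟩, m, hm, w, hw, e⟩
    refine mem_pr_mul.2 ⟨p ^ j * v / p ^ i, ?_, by field_simp⟩
    refine bez_star p (a := b + i) ((prime_star p).not_dvd_mul hm hn') ?_ ?_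
    · convert pow_mul_mem_star p j hb using 1
      field_simp
      ring
    · convert int_mul_mem_star n hw using 1
      push_cast
      field_simp
      linear_combination (n' : ℂ) * p ^ j * e + w * ha'
  · intro hv
    obtain ⟨x, hx, rfl⟩ := mem_pr_mul.1 hv
    refine ⟨⟨j, ?_⟩, n, hn, n' * x, int_mul_mem_star _ hx, ?_⟩
    · convert pow_mul_mem_star p i hx using 1
      field_simp
    · field_simp
      linear_combination -x * ha'

theorem star_triv {D : ℤ} {Λ : Lt} (h : DiscL Λ D) {y : ℚ} (hy : ‖(y : ℚ_[p])‖ ≤ 1)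
    (hy' : ‖(y : ℚ_[p]) ^ 2 * D‖ < 1) : star p (1 + y * th D) Λ = Λ := by
  have hyq : (y : ℚ_[p]) * (y.den : ℤ) = y.num := by exact_mod_cast y.mul_den_eq_num
  have hden : ¬ (p : ℤ) ∣ (y.den : ℤ) := by
    intro hd
    have h1 : ‖((y.den : ℤ) : ℚ_[p])‖ < 1 := Padic.norm_intCast_lt_one_iff.2 hd
    have h2 : ‖((y.num : ℤ) : ℚ_[p])‖ < 1 := by
      rw [← hyq, norm_mul]
      exact mul_lt_one_of_nonneg_of_lt_one_right hy (norm_nonneg _) h1
    have h3 := Padic.norm_intCast_lt_one_iff.1 h2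
    have hc : IsCoprime y.num (y.den : ℤ) := Int.isCoprime_iff_gcd_eq_one.2 y.reduced
    exact (prime_star p).not_isUnit (hc.isUnit_of_dvd' h3 hd)
  have hud : (p : ℤ) ∣ y.num ^ 2 * D := by
    apply Padic.norm_intCast_lt_one_iff.1
    have : (((y.num ^ 2 * D : ℤ)) : ℚ_[p]) =
        (y : ℚ_[p]) ^ 2 * D * (((y.den : ℤ) ^ 2 : ℤ) : ℚ_[p]) := by
      push_cast
      rw [← hyq]
      push_cast
      ring
    rw [this, norm_mul]
    exact mul_lt_one_of_nonneg_of_lt_one_left (norm_nonneg _) hy' (Padic.norm_int_le_one _)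
  have hN : ¬ (p : ℤ) ∣ (y.den : ℤ) ^ 2 - y.num ^ 2 * D := by
    intro hd
    have := dvd_add hd hud
    rw [sub_add_cancel] at this
    exact hden ((prime_star p).dvd_of_dvd_pow this)
  have hyc : (y : ℂ) * y.den = y.num := by exact_mod_cast y.mul_den_eq_num
  have hth := th_sq h.isD.1.le
  ext v
  constructor
  · rintro ⟨⟨a, ha⟩, m, hm, w, hw, e⟩
    refine bez_star p ((prime_star p).not_dvd_mul hm hden) ha ?_
    convert h.modS _ (lin_mem_OD_star D y.den y.num) w hw using 1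
    push_cast
    linear_combination (y.den : ℂ) * e + th D * w * hyc
  · intro hv
    refine ⟨⟨0, by simpa using hv⟩, _, hN, _, int_mul_mem_star y.den
      (h.modS _ (lin_mem_OD_star D y.den (-y.num)) v hv), ?_⟩
    push_cast
    rw [← hyc]
    linear_combination ((y : ℂ) * y.den) ^ 2 * v * hth

theorem pow_est_star {D : ℤ} (hD : D < 0) {z : ℚ} (hz : ‖(z : ℚ_[p]) ^ 2 * D‖ ≤ 1) (k : ℕ) :
    ∃ A B : ℚ, (1 + z * th D) ^ k = A + B * th D ∧
      ‖(A : ℚ_[p]) - 1‖ ≤ ‖(z : ℚ_[p]) ^ 2 * D‖ ∧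
      ‖(B : ℚ_[p]) - k * z‖ ≤ ‖(z : ℚ_[p])‖ * ‖(z : ℚ_[p]) ^ 2 * D‖ ∧
      ‖(B : ℚ_[p])‖ ≤ ‖(z : ℚ_[p])‖ := by
  have hth := th_sq hD.le
  induction k with
  | zero =>
    refine ⟨1, 0, by simp, ?_, ?_, ?_⟩
    · rw [Rat.cast_one, sub_self, norm_zero]
      positivity
    · rw [Rat.cast_zero, Nat.cast_zero, zero_mul, sub_self, norm_zero]
      positivity
    · rw [Rat.cast_zero, norm_zero]
      positivity
  | succ k ih =>
    obtain ⟨A, B, e, hA, hB, hB'⟩ := ih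
    have hA1 : ‖(A : ℚ_[p])‖ ≤ 1 := by
      have := Padic.nonarchimedean ((A : ℚ_[p]) - 1) 1
      rw [sub_add_cancel, norm_one] at this
      exact this.trans (max_le (hA.trans hz) le_rfl)
    refine ⟨A + B * z * D, B + A * z, ?_, ?_, ?_, ?_⟩
    · rw [pow_succ, e]
      push_cast
      linear_combination (B : ℂ) * z * hth
    · have := Padic.nonarchimedean ((A : ℚ_[p]) - 1) (B * z * D)
      have e2 : ((A + B * z * D : ℚ) : ℚ_[p]) - 1 = (A : ℚ_[p]) - 1 + B * z * D := by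
        push_cast
        ring
      rw [e2]
      refine this.trans (max_le hA ?_)
      simp only [norm_mul, sq]
      gcongr
    · have := Padic.nonarchimedean ((B : ℚ_[p]) - (k : ℚ_[p]) * (z : ℚ_[p]))
        ((z : ℚ_[p]) * ((A : ℚ_[p]) - 1))
      have e2 : ((B + A * z : ℚ) : ℚ_[p]) - ((k + 1 : ℕ) : ℚ_[p]) * z =
          (B : ℚ_[p]) - k * z + z * (A - 1) := by
        push_cast
        ring
      rw [e2]
      refine this.trans (max_le hB ?_)
      rw [norm_mul]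
      gcongr
    · have := Padic.nonarchimedean (B : ℚ_[p]) ((A : ℚ_[p]) * z)
      push_cast
      refine this.trans (max_le hB' ?_)
      rw [norm_mul]
      exact mul_le_of_le_one_left (norm_nonneg _) hA1

theorem norm_eq_one_star {x : ℚ_[p]} (h : ‖x - 1‖ < 1) : ‖x‖ = 1 := by
  have := Padic.add_eq_max_of_ne (q := x - 1) (r := 1) (by rw [norm_one]; exact h.ne)
  rw [sub_add_cancel, norm_one] at this
  rw [this]
  exact max_eq_right h.le

/-- One step of the approximation by `M`-th powers. -/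
theorem ball_step {M : ℕ} (hM : 0 < M) {D : ℤ} (hD : D < 0) {y : ℚ}
    (hy : ‖(y : ℚ_[p]) ^ 2 * D‖ ≤ ‖(M : ℚ_[p])‖ ^ 3 / p) :
    ∃ (t : ℂ) (l y' : ℚ), InK D t ∧ l ≠ 0 ∧ ‖(y' : ℚ_[p])‖ ≤ ‖(y : ℚ_[p])‖ / p ∧
      1 + y * th D = t ^ M * (l * (1 + y' * th D)) := by
  have hp : (1 : ℝ) < p := by exact_mod_cast (Fact.out : p.Prime).one_lt
  have hM0 : (M : ℚ_[p]) ≠ 0 := by exact_mod_cast hM.ne'
  have hμ : 0 < ‖(M : ℚ_[p])‖ := norm_pos_iff.2 hM0
  have hμ1 : ‖(M : ℚ_[p])‖ ≤ 1 := by simpa using Padic.norm_int_le_one (p := p) M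
  have hz : ((y / M : ℚ) : ℚ_[p]) = y / M := by push_cast; rfl
  have hzn : ‖((y / M : ℚ) : ℚ_[p])‖ = ‖(y : ℚ_[p])‖ / ‖(M : ℚ_[p])‖ := by rw [hz, norm_div]
  have hε : ‖((y / M : ℚ) : ℚ_[p]) ^ 2 * D‖ ≤ ‖(M : ℚ_[p])‖ / p := by
    have : ‖((y / M : ℚ) : ℚ_[p]) ^ 2 * D‖ = ‖(y : ℚ_[p]) ^ 2 * D‖ / ‖(M : ℚ_[p])‖ ^ 2 := by
      rw [hz, ← norm_pow, ← norm_div]
      congr 1
      field_simp
    rw [this, div_le_iff₀ (by positivity)]
    refine hy.trans (le_of_eq ?_)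
    ring
  have hε1 : ‖((y / M : ℚ) : ℚ_[p]) ^ 2 * D‖ < 1 := by
    refine hε.trans_lt ?_
    rw [div_lt_one (by linarith)]
    linarith
  obtain ⟨A, B, e, hA, hB, hB'⟩ := pow_est_star p hD hε1.le M
  have hMz : (M : ℚ_[p]) * ((y / M : ℚ) : ℚ_[p]) = y := by rw [hz]; field_simp
  rw [hMz] at hB
  have hyz : ‖(y : ℚ_[p])‖ ≤ ‖((y / M : ℚ) : ℚ_[p])‖ := by
    rw [hzn, le_div_iff₀ hμ]
    exact mul_le_of_le_one_right (norm_nonneg _) hμ1
  have hA0 : A ≠ 0 := by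
    rintro rfl
    have := hA.trans_lt hε1
    simp at this
  have hN := norm_ne_zero_star hD (b := B) (Or.inl hA0)
  have hE : ‖((A - y * B * D : ℚ) : ℚ_[p])‖ = 1 := by
    apply norm_eq_one_star
    have := Padic.nonarchimedean ((A : ℚ_[p]) - 1) (-(y * B * D))
    have e2 : ((A - y * B * D : ℚ) : ℚ_[p]) - 1 = (A : ℚ_[p]) - 1 + -(y * B * D) := by
      push_cast
      ring
    rw [e2]
    refine (this.trans (max_le hA ?_)).trans_lt hε1
    simp only [norm_neg, norm_mul, sq]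
    gcongr
  have hE0 : A - y * B * D ≠ 0 := by
    intro h0
    rw [h0] at hE
    simp at hE
  refine ⟨1 + ((y / M : ℚ) : ℂ) * th D, (A - y * B * D) / (A ^ 2 - B ^ 2 * D),
    (y * A - B) / (A - y * B * D), inK_one_add hD _, div_ne_zero hE0 hN, ?_, ?_⟩
  · rw [Rat.cast_div, norm_div, hE, div_one]
    have := Padic.nonarchimedean ((y : ℚ_[p]) * ((A : ℚ_[p]) - 1))
      (-((B : ℚ_[p]) - (y : ℚ_[p])))
    have e2 : ((y * A - B : ℚ) : ℚ_[p]) = (y : ℚ_[p]) * (A - 1) + -(B - y) := by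
      push_cast
      ring
    rw [e2]
    have h3 : ‖((y / M : ℚ) : ℚ_[p])‖ * ‖((y / M : ℚ) : ℚ_[p]) ^ 2 * D‖ ≤ ‖(y : ℚ_[p])‖ / p := by
      calc _ ≤ ‖(y : ℚ_[p])‖ / ‖(M : ℚ_[p])‖ * (‖(M : ℚ_[p])‖ / p) := by
            rw [hzn]
            gcongr
        _ = _ := by field_simp
    refine (this.trans (max_le ?_ ?_)).trans h3
    · rw [norm_mul]
      gcongr
    · rwa [norm_neg]
  · rw [e]
    have hth := th_sq hD.le
    have hN' : (A : ℂ) ^ 2 - (B : ℂ) ^ 2 * D ≠ 0 := by exact_mod_cast hN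
    have hE' : (A : ℂ) - y * B * D ≠ 0 := by exact_mod_cast hE0
    push_cast
    field_simp
    linear_combination -(B : ℂ) * (y * A - B) * hth

/-- A multiplicatively closed set that contains the rationals, a small ball and all `M`-th powers
contains a large ball. -/
theorem ball_gen {M : ℕ} (hM : 0 < M) : ∃ c : ℕ, ∀ (D : ℤ), D < 0 → ∀ (H : ℂ → Prop) (f : ℕ), 0 < f →
    (∀ t t', InK D t → InK D t' → H t → H t' → H (t * t')) → (∀ a : ℚ, a ≠ 0 → H a) →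
    (∀ y : ℚ, ‖(y : ℚ_[p])‖ ≤ ‖(f : ℚ_[p])‖ → ‖(y : ℚ_[p]) ^ 2 * D‖ < 1 → H (1 + y * th D)) →
    (∀ t, InK D t → H (t ^ M)) →
    ∀ y : ℚ, ‖(y : ℚ_[p]) ^ 2 * D‖ ≤ (p : ℝ) ^ (-(c : ℤ)) → H (1 + y * th D) := by
  have hp : (1 : ℝ) < p := by exact_mod_cast (Fact.out : p.Prime).one_lt
  have hM0 : (M : ℚ_[p]) ≠ 0 := by exact_mod_cast hM.ne'
  have hμ : 0 < ‖(M : ℚ_[p])‖ := norm_pos_iff.2 hM0
  have hμ1 : ‖(M : ℚ_[p])‖ ≤ 1 := by simpa using Padic.norm_int_le_one (p := p) M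
  obtain ⟨c, hc⟩ := exists_pow_lt_of_lt_one (x := ‖(M : ℚ_[p])‖ ^ 3 / p) (y := (p : ℝ)⁻¹)
    (by positivity) (inv_lt_one_of_one_lt₀ hp)
  rw [inv_pow, ← zpow_natCast, ← zpow_neg] at hc
  have h1 : ‖(M : ℚ_[p])‖ ^ 3 / p < 1 := by
    rw [div_lt_one (by linarith)]
    exact (pow_le_one₀ hμ.le hμ1).trans_lt hp
  refine ⟨c, fun D hD H f hf hmul hrat hball hpow => ?_⟩
  have key : ∀ (l : ℕ) (y : ℚ), ‖(y : ℚ_[p])‖ ≤ ‖(f : ℚ_[p])‖ * p ^ l →
      ‖(y : ℚ_[p]) ^ 2 * D‖ ≤ (p : ℝ) ^ (-(c : ℤ)) → H (1 + y * th D) := by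
    intro l
    induction l with
    | zero => exact fun y h h' => hball y (by simpa using h) (h'.trans_lt (hc.trans h1))
    | succ l ih =>
      intro y h h'
      obtain ⟨t, a, y', ht, ha, hy', e⟩ := ball_step p hM hD (h'.trans hc.le)
      have h2 : ‖(y' : ℚ_[p])‖ ≤ ‖(y : ℚ_[p])‖ :=
        hy'.trans (div_le_self (norm_nonneg _) hp.le)
      have h3 : H (1 + y' * th D) := by
        refine ih y' (hy'.trans ?_) (le_trans ?_ h')
        · rw [div_le_iff₀ (by linarith), mul_assoc, ← pow_succ]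
          exact h
        · simp only [norm_mul, norm_pow]
          gcongr
      rw [e]
      exact hmul _ _ (ht.pow_star hD M) ((inK_rat_star D ha).mul hD (inK_one_add hD _))
        (hpow t ht) (hmul _ _ (inK_rat_star D ha) (inK_one_add hD _) (hrat a ha) h3)
  intro y hy
  have hf0 : 0 < ‖(f : ℚ_[p])‖ := norm_pos_iff.2 (by exact_mod_cast hf.ne')
  obtain ⟨l, hl⟩ := pow_unbounded_of_one_lt (‖(y : ℚ_[p])‖ / ‖(f : ℚ_[p])‖) hp
  refine key l y ?_ hy
  rw [div_lt_iff₀ hf0, mul_comm] at hl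
  exact hl.le

end Pool.Agent.EQ
end
end
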