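import Pool.Agent.K.MP_ad7a55_nt.C30
import Pool.Agent.K.MP_ad7a55_nt.C31
import Pool.Agent.K.MP_ad7a55_nt.C32
import Pool.Agent.K.MP_ad7a55_nt.C24
import Pool.Agent.K.MP_ad7a55_nt.C0
import Pool.Agent.P.MP_ad7a55_nt.VDef
import Pool.Agent.K.MP_ad7a55_nt.C29

-- part Pool.Agent.P.MP_ad7a55_nt.UAt2
section

/-! Every direction is concentrated or thin. -/

set_option autoImplicit false

noncomputable section

open MeasureTheory Topology Filter UpperHalfPlane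
open scoped MatrixGroups ENNReal BoundedContinuousFunction

namespace Pool.Agent.EQ

theorem uat2_quot {Ω Q : Type} [Countable Q] (R : Ω → Ω → Prop) (hR : Equivalence R) (r : Q → Ω)
    (h : ∀ v, ∃ q, R v (r q)) : ∃ (A : Type) (_ : Countable A) (a : Ω → A),
      Function.Surjective a ∧ ∀ v v', a v = a v' ↔ R v v' := by
  refine ⟨Quotient ⟨R, hR⟩, ?_, Quotient.mk _, Quotient.mk_surjective, fun v v' => Quotient.eq⟩
  refine Function.Surjective.countable (f := fun q => Quotient.mk ⟨R, hR⟩ (r q)) fun x => ?_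
  obtain ⟨v, rfl⟩ := Quotient.mk_surjective x
  obtain ⟨q, hq⟩ := h v
  exact ⟨q, Quotient.sound (hR.symm hq)⟩

variable {p : ℕ} [Fact p.Prime] {ι : Type} [Fintype ι]

theorem uat2_mono {k l : ℤ} (h : l ≤ k) : (p : ℝ) ^ l ≤ (p : ℝ) ^ k :=
  zpow_le_zpow_right₀ (by exact_mod_cast (Fact.out : p.Prime).one_le) h

omit [Fact p.Prime] in
theorem uat2_nonneg (l : ℤ) : 0 ≤ (p : ℝ) ^ l := by positivity

theorem uat2_add {x y : ℚ_[p]} {r : ℝ} (hx : ‖x‖ ≤ r) (hy : ‖y‖ ≤ r) : ‖x + y‖ ≤ r :=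
  (Padic.nonarchimedean x y).trans (max_le hx hy)

theorem uat2_meas (j : ι) (s : ℚ_[p]) (r : ℝ) : MeasurableSet {v : ι → ℚ_[p] | ‖v j - s‖ ≤ r} :=
  (isClosed_le (by fun_prop) continuous_const).measurableSet

theorem uat2_cls (j : ι) (l : ℤ) : ∃ (A : Type) (_ : Countable A) (a : (ι → ℚ_[p]) → A),
    (∀ x, MeasurableSet (a ⁻¹' {x})) ∧ ∀ v v', a v = a v' ↔ ‖v j - v' j‖ ≤ (p : ℝ) ^ l := by
  obtain ⟨A, hA, a, h1, h2⟩ := uat2_quot (fun v v' : ι → ℚ_[p] => ‖v j - v' j‖ ≤ (p : ℝ) ^ l)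
    ⟨fun v => by rw [sub_self, norm_zero]; exact uat2_nonneg l,
      fun h => by rwa [norm_sub_rev], fun h h' => by simpa using uat2_add h h'⟩
    (fun (q : ι → ℚ) i => (q i : ℚ_[p])) fun v => by
      obtain ⟨q, hq⟩ := exists_rat_V v l
      exact ⟨q, (norm_le_pi_norm (v - fun i => (q i : ℚ_[p])) j).trans hq⟩
  refine ⟨A, hA, a, fun x => ?_, h2⟩
  obtain ⟨v, rfl⟩ := h1 x
  rw [show a ⁻¹' {a v} = {u | ‖u j - v j‖ ≤ (p : ℝ) ^ l} from Set.ext fun u => h2 u v]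
  exact uat2_meas j _ _

theorem uat2_clsV (l : ℤ) : ∃ (A : Type) (_ : Countable A) (a : (ι → ℚ_[p]) → A),
    (∀ x, MeasurableSet (a ⁻¹' {x})) ∧ ∀ v v', a v = a v' ↔ ‖v - v'‖ ≤ (p : ℝ) ^ l := by
  obtain ⟨A, hA, a, h1, h2⟩ := uat2_quot (fun v v' : ι → ℚ_[p] => ‖v - v'‖ ≤ (p : ℝ) ^ l)
    ⟨fun v => by rw [sub_self, norm_zero]; exact uat2_nonneg l,
      fun h => by rwa [norm_sub_rev], fun h h' => by simpa using norm_add_V h h'⟩
    (fun (q : ι → ℚ) i => (q i : ℚ_[p])) fun v => exists_rat_V v l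
  refine ⟨A, hA, a, fun x => ?_, h2⟩
  obtain ⟨v, rfl⟩ := h1 x
  rw [show a ⁻¹' {a v} = {u | ‖u - v‖ ≤ (p : ℝ) ^ l} from Set.ext fun u => h2 u v]
  exact (isClosed_le (by fun_prop) continuous_const).measurableSet

theorem uat2_ae (δ : Dat p ι) (k l : ℤ) : ∀ᵐ v ∂lw δ k l, ‖v‖ ≤ (p : ℝ) ^ k :=
  (withDensity_absolutelyContinuous _ _).ae_le (bmV_ae k)

variable {W : Type} [TopologicalSpace W] [PolishSpace W] [MeasurableSpace W] [BorelSpace W]
  (φ : Flow (ι → ℚ_[p]) W) (ν : Measure W)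

theorem uat2_inv (j : ι) {k l : ℤ} (hl : l ≤ k) {v : ι → ℚ_[p]} (hv : ‖v‖ ≤ (p : ℝ) ^ l) (w : W) :
    sl (dat φ ν (φ v w)) j k l 0 = sl (dat φ ν w) j k l 0 := by
  rw [sl_flow φ ν j l (hv.trans (uat2_mono hl))]
  refine sl_congr _ j k ?_
  rw [zero_add, sub_zero]
  exact (norm_le_pi_norm v j).trans hv

variable {φ ν}

theorem uat2_le_one {w : W} (h : Gd φ ν w) (j : ι) {k l : ℤ} (hl : l ≤ k) (s : ℚ_[p]) :
    sl (dat φ ν w) j k l s ≤ 1 := by
  have := h.prob hl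
  exact prob_le_one

theorem uat2_anti {w : W} (h : Gd φ ν w) (j : ι) {k l m : ℤ} (hm : m ≤ l) (hl : l ≤ k)
    (s : ℚ_[p]) : sl (dat φ ν w) j k m s ≤ sl (dat φ ν w) j k l s := by
  rw [← h.slab j hm hl s]
  exact measure_mono fun v hv => le_trans hv (uat2_mono hm)

theorem uat2_cs {w : W} (h : Gd φ ν w) (j : ι) {k k' l : ℤ} (hl : l ≤ k') (hk : k' ≤ k) :
    ∫⁻ v, sl (dat φ ν (φ v w)) j k l 0 / sl (dat φ ν (φ v w)) j k k' 0 ∂lw (dat φ ν w) k l ≤
      ∫⁻ v, sl (dat φ ν (φ v w)) j k' l 0 ∂lw (dat φ ν w) k l := by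
  have := h.prob (hl.trans hk)
  obtain ⟨A, _, a, a1, a2⟩ := uat2_cls (p := p) j l
  obtain ⟨B, _, b, b1, b2⟩ := uat2_cls (p := p) j k'
  obtain ⟨C, _, c, c1, c2⟩ := uat2_clsV (p := p) (ι := ι) k'
  have key := cs_part (lw (dat φ ν w) k l) a b c a1 b1 c1
    (fun v v' e => (b2 v v').2 ((norm_le_pi_norm (v - v') j).trans ((c2 v v').1 e)))
    fun v v' e => (b2 v v').2 (((a2 v v').1 e).trans (uat2_mono hl))
  refine le_trans (le_of_eq (lintegral_congr_ae ?_)) (key.trans (lintegral_mono_ae ?_))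
  · filter_upwards [uat2_ae (dat φ ν w) k l] with v hv
    rw [sl_flow φ ν j l hv, sl_flow φ ν j k' hv, zero_add, ← h.slab j hl hk,
      show a ⁻¹' {a v} = {u | ‖u j - v j‖ ≤ (p : ℝ) ^ l} from Set.ext fun u => a2 u v,
      show b ⁻¹' {b v} = {u | ‖u j - v j‖ ≤ (p : ℝ) ^ k'} from Set.ext fun u => b2 u v]
    rfl
  · filter_upwards [uat2_ae (dat φ ν w) k l] with v hv
    have h1 := h.local hl hk hv (uat2_meas j 0 ((p : ℝ) ^ l))
    have h2 := h.level hl hk (S := {u | ‖u - v‖ ≤ (p : ℝ) ^ k'}) fun u hu x hx => by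
      have := norm_add_V (show ‖u - v‖ ≤ (p : ℝ) ^ k' from hu) hx
      rwa [sub_add_eq_add_sub] at this
    have e1 : c ⁻¹' {c v} = {u | ‖u - v‖ ≤ (p : ℝ) ^ k'} := Set.ext fun u => c2 u v
    have e2 : a ⁻¹' {a v} ∩ c ⁻¹' {c v} = {u | ‖u - v‖ ≤ (p : ℝ) ^ k' ∧
        u - v ∈ {x : ι → ℚ_[p] | ‖x j - 0‖ ≤ (p : ℝ) ^ l}} := by
      ext u
      simp only [Set.mem_inter_iff, Set.mem_preimage, Set.mem_singleton_iff, a2, c2,
        Set.mem_ofPred_eq, Pi.sub_apply, sub_zero]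
      exact and_comm
    rw [e2, e1, h1, h2]
    exact ENNReal.div_le_of_le_mul' le_rfl

variable (φ ν) [IsProbabilityMeasure ν]

theorem at_cs (j : ι) {k k' l : ℤ} (hl : l ≤ k') (hk : k' ≤ k) :
    ∫⁻ w, sl (dat φ ν w) j k l 0 / sl (dat φ ν w) j k k' 0 ∂ν ≤
      ∫⁻ w, sl (dat φ ν w) j k' l 0 ∂ν := by
  rw [← lint_lw φ ν (hl.trans hk)
      ((measurable_sl φ ν j k l 0).fun_div (measurable_sl φ ν j k k' 0)) fun v hv w => by
        rw [uat2_inv φ ν j (hl.trans hk) hv, uat2_inv φ ν j hk (hv.trans (uat2_mono hl))],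
    ← lint_lw φ ν (hl.trans hk) (measurable_sl φ ν j k' l 0) fun v hv w => uat2_inv φ ν j hl hv w]
  refine lintegral_mono_ae ?_
  filter_upwards [ae_Gd φ ν] with w hw
  exact uat2_cs hw j hl hk

theorem at_sq (j : ι) {k l : ℤ} (hl : l ≤ k) {A : Set W} (hA : MeasurableSet A)
    (hi : ∀ v w, w ∈ A → φ v w ∈ A) (ε : ℝ≥0∞) :
    ε ^ 2 * ν {w | w ∈ A ∧ ¬ ThinAt (dat φ ν w) j k l ε} ≤
      ∫⁻ w in A, sl (dat φ ν w) j k l 0 ∂ν := by
  have hi' : ∀ v w, φ v w ∈ A → w ∈ A := fun v w h => by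
    have h1 := hi (-v) _ h
    rwa [← φ.map_add, neg_add_cancel, φ.map_zero_apply] at h1
  have hB : MeasurableSet {w | w ∈ A ∧ ¬ ThinAt (dat φ ν w) j k l ε} :=
    hA.inter (measurableSet_thinAt φ ν j k l ε).compl
  rw [← lintegral_indicator hA, ← lint_lw φ ν hl ((measurable_sl φ ν j k l 0).indicator hA)
    fun v hv w => by
      by_cases hw : w ∈ A
      · rw [Set.indicator_of_mem hw, Set.indicator_of_mem (hi v w hw), uat2_inv φ ν j hl hv]
      · rw [Set.indicator_of_notMem hw, Set.indicator_of_notMem fun h => hw (hi' v w h)],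
    ← lintegral_indicator_const hB]
  refine lintegral_mono fun w => ?_
  by_cases hw : w ∈ {w | w ∈ A ∧ ¬ ThinAt (dat φ ν w) j k l ε}
  · rw [Set.indicator_of_mem hw]
    obtain ⟨s, hs⟩ := not_forall.1 hw.2
    have h1 := (not_le.1 hs).le
    calc ε ^ 2 ≤ sl (dat φ ν w) j k l s * sl (dat φ ν w) j k l s := by
          rw [sq]
          exact mul_le_mul' h1 h1
      _ = ∫⁻ v, {v : ι → ℚ_[p] | ‖v j - s‖ ≤ (p : ℝ) ^ l}.indicator
            (fun _ => sl (dat φ ν w) j k l s) v ∂lw (dat φ ν w) k l :=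
          (lintegral_indicator_const (uat2_meas j s _) _).symm
      _ ≤ _ := by
          refine lintegral_mono_ae ?_
          filter_upwards [uat2_ae (dat φ ν w) k l] with v hv
          by_cases h2 : v ∈ {v : ι → ℚ_[p] | ‖v j - s‖ ≤ (p : ℝ) ^ l}
          · rw [Set.indicator_of_mem h2, Set.indicator_of_mem (hi v w hw.1), sl_flow φ ν j l hv,
              zero_add]
            exact (sl_congr _ j k h2).ge
          · rw [Set.indicator_of_notMem h2]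
            exact zero_le
  · rw [Set.indicator_of_notMem hw]
    exact zero_le

variable {φ ν}

theorem uat2_shift {T : W ≃ᵐ W} {a : ℚ_[p]} {e : ℤ} (h : Sys φ ν T a e) (j : ι) (k l : ℤ)
    (i : ℕ) : ∫⁻ w, sl (dat φ ν w) j (k + i * e) (l + i * e) 0 ∂ν =
      ∫⁻ w, sl (dat φ ν w) j k l 0 ∂ν := by
  have step : ∀ k l : ℤ, ∫⁻ w, sl (dat φ ν w) j (k + e) (l + e) 0 ∂ν =
      ∫⁻ w, sl (dat φ ν w) j k l 0 ∂ν := fun k l => by
    have h1 := lintegral_map (μ := ν) (measurable_sl φ ν j (k + e) (l + e) 0) T.measurable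
    rw [h.inv] at h1
    rw [h1]
    refine lintegral_congr_ae ?_
    filter_upwards [h.dat_eq] with w hw
    rw [← hw, sl_shD h.nrm, mul_zero]
  induction i with
  | zero => simp only [Nat.cast_zero, zero_mul, add_zero]
  | succ i ih =>
    rw [← ih, ← step (k + i * e)]
    push_cast
    rw [add_mul, one_mul, ← add_assoc, ← add_assoc]

theorem uat2_iInf (j : ι) (k : ℤ) (μ : Measure W) (hμ : μ ≤ ν) :
    ∫⁻ w, ⨅ n : ℕ, sl (dat φ ν w) j k (k - n) 0 ∂μ = ⨅ n : ℕ, ∫⁻ w, sl (dat φ ν w) j k (k - n) 0 ∂μ ∧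
      ∫⁻ w, ⨅ n : ℕ, sl (dat φ ν w) j k (k - n) 0 ∂μ ≠ ∞ := by
  have hG : ∀ᵐ w ∂μ, Gd φ ν w := (Measure.absolutelyContinuous_of_le hμ).ae_le (ae_Gd φ ν)
  have h1 : ∫⁻ w, sl (dat φ ν w) j k (k - (0 : ℕ)) 0 ∂μ ≠ ∞ := by
    refine ne_top_of_le_ne_top (b := ∫⁻ _, 1 ∂ν) (by simp) ?_
    refine le_trans (lintegral_mono_ae ?_) (lintegral_mono' hμ le_rfl)
    filter_upwards [hG] with w hw
    exact uat2_le_one hw j (by omega) 0
  refine ⟨lintegral_iInf_ae (fun n => measurable_sl φ ν j k _ 0) (fun n => ?_) h1,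
    ne_top_of_le_ne_top h1 (lintegral_mono fun w => iInf_le _ 0)⟩
  filter_upwards [hG] with w hw
  exact uat2_anti hw j (by push_cast; omega) (by omega) 0

theorem uat2_or {T : W ≃ᵐ W} {a : ℚ_[p]} {e : ℤ} (h : Sys φ ν T a e) (he : e < 0) (j : ι) (k : ℤ)
    (i : ℕ) : ∀ᵐ w ∂ν, ⨅ n : ℕ, sl (dat φ ν w) j k (k - n) 0 = 0 ∨
      sl (dat φ ν w) j k (k + i * e) 0 = 1 := by
  obtain ⟨h1, h2⟩ := uat2_iInf (φ := φ) (ν := ν) j k ν le_rfl
  have hie : (i : ℤ) * e ≤ 0 := mul_nonpos_of_nonneg_of_nonpos (Nat.cast_nonneg i) he.le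
  have hm : Measurable fun w => ⨅ n : ℕ, sl (dat φ ν w) j k (k - n) 0 :=
    Measurable.iInf fun n => measurable_sl φ ν j k _ 0
  have h3 : ∫⁻ w, (⨅ n : ℕ, sl (dat φ ν w) j k (k - n) 0) / sl (dat φ ν w) j k (k + i * e) 0 ∂ν ≤
      ∫⁻ w, ⨅ n : ℕ, sl (dat φ ν w) j k (k - n) 0 ∂ν := by
    rw [h1]
    refine le_iInf fun n => ?_
    rw [← uat2_shift h j k (k - n) i]
    refine le_trans (lintegral_mono fun w => ?_)
      (at_cs φ ν j (k := k) (k' := k + i * e) (l := k - n + i * e) (by omega) (by omega))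
    refine ENNReal.div_le_div_right ?_ _
    refine (iInf_le _ (n + (-(i * e)).toNat)).trans (le_of_eq ?_)
    congr 1
    push_cast
    rw [Int.toNat_of_nonneg (by omega)]
    ring
  have h4 : (fun w => ⨅ n : ℕ, sl (dat φ ν w) j k (k - n) 0) ≤ᵐ[ν] fun w =>
      (⨅ n : ℕ, sl (dat φ ν w) j k (k - n) 0) / sl (dat φ ν w) j k (k + i * e) 0 := by
    filter_upwards [ae_Gd φ ν] with w hw
    rw [div_eq_mul_inv]
    exact le_mul_of_one_le_right' (ENNReal.one_le_inv.2 (uat2_le_one hw j (by omega) 0))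
  have h5 := ae_eq_of_ae_le_of_lintegral_le h4 h2
    (hm.div (measurable_sl φ ν j k _ 0)).aemeasurable h3
  filter_upwards [h5, ae_Gd φ ν] with w hw hG
  by_contra hc
  push Not at hc
  have h6 : ⨅ n : ℕ, sl (dat φ ν w) j k (k - n) 0 ≠ ∞ :=
    ne_top_of_le_ne_top ENNReal.one_ne_top ((iInf_le _ 0).trans (uat2_le_one hG j (by omega) 0))
  rw [div_eq_mul_inv] at hw
  have h7 : (1 : ℝ≥0∞) = (sl (dat φ ν w) j k (k + i * e) 0)⁻¹ :=
    (ENNReal.mul_right_inj hc.1 h6).1 (by rw [mul_one]; exact hw)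
  exact hc.2 (ENNReal.inv_eq_one.1 h7.symm)

theorem Sys.atom {T : W ≃ᵐ W} {a : ℚ_[p]} {e : ℤ} (h : Sys φ ν T a e) (he : e < 0) (j : ι) :
    ∀ᵐ w ∂ν, Conc (dat φ ν w) j ∨ ⨅ n : ℕ, sl (dat φ ν w) j 0 (-n) 0 = 0 := by
  filter_upwards [ae_Gd φ ν, ae_all_iff.2 fun k : ℤ => ae_all_iff.2 fun i : ℕ =>
    uat2_or h he j k i] with w hG hw
  refine or_iff_not_imp_right.2 fun h0 => ?_
  filter_upwards [eventually_ge_atTop (0 : ℤ)] with k hk l hl
  have hβ : lw (dat φ ν w) k 0 {v | ‖v - 0‖ ≤ (p : ℝ) ^ (0 : ℤ)} ≠ 0 := by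
    rw [lw_ball w hk]
    refine mul_ne_zero (hG.pos k 0 hk) (ENNReal.ofReal_pos.2 (zpow_pos ?_ _)).ne'
    exact_mod_cast (Fact.out : p.Prime).pos
  have h1 : lw (dat φ ν w) k 0 {v | ‖v - 0‖ ≤ (p : ℝ) ^ (0 : ℤ)} *
      ⨅ n : ℕ, sl (dat φ ν w) j 0 (-n) 0 ≤ ⨅ n : ℕ, sl (dat φ ν w) j k (k - n) 0 := by
    refine le_iInf fun n => ?_
    have h2 := hG.local (m := -n) (by omega) hk (c := 0)
      (by rw [norm_zero]; exact uat2_nonneg k) (uat2_meas j 0 ((p : ℝ) ^ (-n : ℤ)))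
    rw [φ.map_zero_apply] at h2
    refine le_trans ?_ (uat2_anti hG j (m := -n) (by omega) (by omega) 0)
    refine (mul_le_mul_right (iInf_le _ n) _).trans (h2.symm.le.trans (measure_mono ?_))
    intro v hv
    simpa using hv.2
  have h2 := (hw k (k - l).toNat).resolve_left fun h3 =>
    mul_ne_zero hβ h0 (le_zero_iff.1 (h3 ▸ h1))
  refine ⟨0, le_antisymm (uat2_le_one hG j hl 0) (h2.symm.le.trans (uat2_anti hG j ?_ hl 0))⟩
  rw [Int.toNat_of_nonneg (by omega)]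
  nlinarith

theorem Sys.dich {T : W ≃ᵐ W} {a : ℚ_[p]} {e : ℤ} (h : Sys φ ν T a e) (he : e < 0) (j : ι) :
    ∀ᵐ w ∂ν, Conc (dat φ ν w) j ∨ Thin (dat φ ν w) j := by
  have hA : MeasurableSet {w | ¬ Conc (dat φ ν w) j} := (measurableSet_conc φ ν j).compl
  have h1 := (uat2_iInf (φ := φ) (ν := ν) j 0 (ν.restrict {w | ¬ Conc (dat φ ν w) j})
    Measure.restrict_le_self).1
  simp only [zero_sub] at h1
  have h2 : ∫⁻ w in {w | ¬ Conc (dat φ ν w) j}, ⨅ n : ℕ, sl (dat φ ν w) j 0 (-n) 0 ∂ν = 0 := by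
    refine lintegral_congr_ae (g := fun _ => 0) ?_ |>.trans lintegral_zero
    refine (ae_restrict_iff' hA).2 ?_
    filter_upwards [h.atom he j] with w hw hc
    exact hw.resolve_left hc
  have h3 : ∀ m : ℕ, ∀ᵐ w ∂ν, ¬ Conc (dat φ ν w) j →
      ∃ n : ℕ, ThinAt (dat φ ν w) j 0 (-n) (m : ℝ≥0∞)⁻¹ := fun m => by
    rw [ae_iff]
    have h4 : ((m : ℝ≥0∞)⁻¹) ^ 2 * ν {w | ¬ (¬ Conc (dat φ ν w) j →
        ∃ n : ℕ, ThinAt (dat φ ν w) j 0 (-n) (m : ℝ≥0∞)⁻¹)} ≤ 0 := by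
      rw [← h2, h1]
      refine le_iInf fun n => le_trans (mul_le_mul_right (measure_mono fun w hw => ?_) _)
        (at_sq φ ν j (by omega) hA (fun v w hw h5 => hw ((conc_flow φ ν j v w).1 h5)) _)
      obtain ⟨h5, h6⟩ := Classical.not_imp.1 hw
      exact ⟨h5, fun h7 => h6 ⟨n, h7⟩⟩
    exact (mul_eq_zero.1 (le_zero_iff.1 h4)).resolve_left
      (pow_ne_zero 2 (ENNReal.inv_ne_zero.2 (ENNReal.natCast_ne_top m)))
  filter_upwards [ae_all_iff.2 h3] with w hw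
  refine or_iff_not_imp_left.2 fun hc ε hε => ?_
  obtain ⟨m, hm⟩ := ENNReal.exists_inv_nat_lt hε.ne'
  obtain ⟨n, hn⟩ := hw m hc
  exact ⟨n, fun s => (hn s).trans hm.le⟩

end Pool.Agent.EQ
end
end

-- part Pool.Agent.P.MP_ad7a55_nt.USb
section

/-! Decomposition of a measure into measures invariant under lines. -/

set_option autoImplicit false

noncomputable section

open MeasureTheory Topology Filter UpperHalfPlane
open scoped MatrixGroups ENNReal BoundedContinuousFunction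

namespace Pool.Agent.EQ

open ProbabilityTheory

variable {p : ℕ} [Fact p.Prime] {ι : Type} [Fintype ι]
  {W : Type} [TopologicalSpace W] [PolishSpace W] [MeasurableSpace W] [BorelSpace W]
  (φ : Flow (ι → ℚ_[p]) W) (ν : Measure W) [IsProbabilityMeasure ν]

omit [Fintype ι] [PolishSpace W] [MeasurableSpace W] [BorelSpace W] in
theorem usb_comm (u v : ι → ℚ_[p]) (w : W) : φ u (φ v w) = φ v (φ u w) := by
  rw [← φ.map_add, ← φ.map_add, add_comm]

omit [Fintype ι] [PolishSpace W] in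
theorem usb_meas (c : ι → ℚ_[p]) : Measurable (φ c) :=
  (φ.continuous continuous_const continuous_id).measurable

omit [PolishSpace W] in
theorem usb_meas' (w : W) : Measurable fun v : ι → ℚ_[p] => φ v w :=
  (φ.continuous continuous_id continuous_const).measurable

theorem usb_one_lt : (1 : ℝ) < p := by exact_mod_cast (Fact.out : p.Prime).one_lt

theorem usb_exists (c : ι → ℚ_[p]) (l : ℤ) : ∃ k : ℤ, l ≤ k ∧ ‖c‖ ≤ (p : ℝ) ^ k := by
  obtain ⟨n, hn⟩ := pow_unbounded_of_one_lt ‖c‖ (usb_one_lt (p := p))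
  refine ⟨max l n, le_max_left _ _, hn.le.trans ?_⟩
  rw [← zpow_natCast]
  exact zpow_le_zpow_right₀ (usb_one_lt (p := p)).le (le_max_right _ _)

theorem usb_shift {k : ℤ} {c : ι → ℚ_[p]} (hc : ‖c‖ ≤ (p : ℝ) ^ k) {g : (ι → ℚ_[p]) → ℝ≥0∞}
    (hg : Measurable g) : ∫⁻ v, g (v + c) ∂bmV p ι k = ∫⁻ v, g v ∂bmV p ι k := by
  rw [← lintegral_map hg (measurable_add_const c), bmV_add hc]

theorem line_int {A : Set W} (hA : MeasurableSet A) (hi : ∀ v w, w ∈ A → φ v w ∈ A)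
    (c : ι → ℚ_[p]) (l : ℤ) (h : ∀ w ∈ A, ∃ d ∈ Sig (dat φ ν w), ‖d - c‖ ≤ (p : ℝ) ^ l)
    {F : W → ℝ≥0∞} (hF : Measurable F)
    (hF' : ∀ v : ι → ℚ_[p], ‖v‖ ≤ (p : ℝ) ^ l → ∀ w, F (φ v w) = F w) :
    ∫⁻ w in A, F (φ c w) ∂ν = ∫⁻ w in A, F w ∂ν := by
  obtain ⟨k, hlk, hc⟩ := usb_exists c l
  have hi' : ∀ v w, φ v w ∈ A ↔ w ∈ A := fun v w => ⟨fun hw => by
    have := hi (-v) _ hw
    rwa [← φ.map_add, neg_add_cancel, φ.map_zero_apply] at this, hi v w⟩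
  have hind : ∀ (G : W → ℝ≥0∞) v w,
      A.indicator G (φ v w) = A.indicator (fun x => G (φ v x)) w := fun G v w => by
    by_cases hw : w ∈ A
    · rw [Set.indicator_of_mem hw, Set.indicator_of_mem ((hi' v w).2 hw)]
    · rw [Set.indicator_of_notMem hw, Set.indicator_of_notMem (mt (hi' v w).1 hw)]
  have hFc : Measurable fun w => F (φ c w) := hF.comp (usb_meas φ c)
  rw [← lintegral_indicator hA, ← lintegral_indicator hA,
    ← lint_lw φ ν hlk (hFc.indicator hA) (fun v hv w => by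
      rw [hind]
      simp only [usb_comm φ c v, hF' v hv]),
    ← lint_lw φ ν hlk (hF.indicator hA) (fun v hv w => by
      rw [hind]
      simp only [hF' v hv])]
  refine lintegral_congr_ae ((ae_Gd φ ν).mono fun w hw => ?_)
  simp only [hind]
  by_cases hwA : w ∈ A
  · simp only [Set.indicator_of_mem hwA]
    obtain ⟨d, hd, hdc⟩ := h w hwA
    have hlk' : (p : ℝ) ^ l ≤ (p : ℝ) ^ k := zpow_le_zpow_right₀ (usb_one_lt (p := p)).le hlk
    have hdk : ‖d‖ ≤ (p : ℝ) ^ k := by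
      simpa using norm_add_V (hdc.trans hlk') hc
    have hδ : ∀ v, dat φ ν w k l (v + c) = dat φ ν w k l v := fun v => by
      rw [← ivD_dat φ ν w k l (v + c) (d - c) hdc, ← hw.sig hd hdk l v]
      congr 1
      abel
    have hm := (ivD_dat φ ν w).measurable k l
    have hFw : Measurable fun v : ι → ℚ_[p] => F (φ v w) := hF.comp (usb_meas' φ w)
    have hFw' : Measurable fun v : ι → ℚ_[p] => F (φ c (φ v w)) := hFc.comp (usb_meas' φ w)
    rw [lw, lintegral_withDensity_eq_lintegral_mul _ hm hFw',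
      lintegral_withDensity_eq_lintegral_mul _ hm hFw, ← usb_shift hc (hm.mul hFw)]
    refine lintegral_congr fun v => ?_
    rw [Pi.mul_apply, Pi.mul_apply, hδ, ← φ.map_add, add_comm c v]
  · simp only [Set.indicator_of_notMem hwA]

/-- the average of a function over a plaque -/
def usbAv (F : W → ℝ≥0∞) (l : ℤ) (w : W) : ℝ≥0∞ := ∫⁻ v, F (φ v w) ∂bmV p ι l

theorem usb_av_meas {F : W → ℝ≥0∞} (hF : Measurable F) (l : ℤ) : Measurable (usbAv φ F l) :=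
  (hF.comp (measurable_flowV φ)).lintegral_prod_right'

omit [PolishSpace W] in
theorem usb_av_flow {F : W → ℝ≥0∞} (hF : Measurable F) {l : ℤ} (u : ι → ℚ_[p])
    (hu : ‖u‖ ≤ (p : ℝ) ^ l) (w : W) : usbAv φ F l (φ u w) = usbAv φ F l w := by
  simp only [usbAv, ← φ.map_add]
  exact usb_shift hu (hF.comp (usb_meas' φ w))

omit [PolishSpace W] [MeasurableSpace W] [BorelSpace W] in
theorem usb_av_le {F : W → ℝ≥0∞} (hF : ∀ w, F w ≤ 1) (l : ℤ) (w : W) : usbAv φ F l w ≤ 1 := by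
  refine (lintegral_mono fun v => hF _).trans ?_
  simp

omit [PolishSpace W] [MeasurableSpace W] [BorelSpace W] in
theorem usb_av_lim {F : W → ℝ≥0∞} (hF : Continuous F) (w : W) :
    Tendsto (fun j : ℕ => usbAv φ F (-j) w) atTop (𝓝 (F w)) := by
  have hc : Tendsto (fun v : ι → ℚ_[p] => F (φ v w)) (𝓝 0) (𝓝 (F w)) := by
    have := (hF.comp (φ.continuous (continuous_id (X := ι → ℚ_[p])) (continuous_const (y := w)))).tendsto 0
    simpa [Function.comp_def] using this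
  have key : ∀ P : (ι → ℚ_[p]) → Prop, (∀ᶠ v in 𝓝 0, P v) →
      ∀ᶠ j : ℕ in atTop, ∀ᵐ v ∂bmV p ι (-j), P v := fun P hP => by
    obtain ⟨ε, hε, hb⟩ := Metric.eventually_nhds_iff.1 hP
    have h0 : Tendsto (fun j : ℕ => ((p : ℝ)⁻¹) ^ j) atTop (𝓝 0) :=
      tendsto_pow_atTop_nhds_zero_of_lt_one (by positivity)
        (inv_lt_one_of_one_lt₀ (usb_one_lt (p := p)))
    filter_upwards [h0.eventually (gt_mem_nhds hε)] with j hj
    filter_upwards [bmV_ae (p := p) (ι := ι) (-j)] with v hv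
    refine hb ?_
    rw [dist_zero_right]
    rw [zpow_neg, zpow_natCast, ← inv_pow] at hv
    exact hv.trans_lt hj
  refine tendsto_order.2 ⟨fun a ha => ?_, fun a ha => ?_⟩
  · obtain ⟨b, hab, hb⟩ := exists_between ha
    filter_upwards [key _ (hc.eventually (lt_mem_nhds hb))] with j hj
    refine hab.trans_le (le_trans ?_ (lintegral_mono_ae (f := fun _ => b) (hj.mono fun v hv => hv.le)))
    simp
  · obtain ⟨b, hb, hab⟩ := exists_between ha
    filter_upwards [key _ (hc.eventually (gt_mem_nhds hb))] with j hj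
    refine lt_of_le_of_lt ((lintegral_mono_ae (g := fun _ => b) (hj.mono fun v hv => hv.le)).trans ?_) hab
    simp

theorem usb_int_lim (μ : Measure W) [IsProbabilityMeasure μ] {F : W → ℝ≥0∞} (hF : Continuous F)
    (h1 : ∀ w, F w ≤ 1) (d : ι → ℚ_[p]) :
    Tendsto (fun j : ℕ => ∫⁻ x, usbAv φ F (-j) (φ d x) ∂μ) atTop (𝓝 (∫⁻ x, F (φ d x) ∂μ)) :=
  tendsto_lintegral_of_dominated_convergence (fun _ => 1)
    (fun _ => (usb_av_meas φ hF.measurable _).comp (usb_meas φ d))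
    (fun _ => Eventually.of_forall fun _ => usb_av_le φ h1 _ _) (by simp)
    (Eventually.of_forall fun _ => usb_av_lim φ hF _)

theorem line_kernel : ∃ ρ : Kernel W W, IsMarkovKernel ρ ∧ ν.bind ρ = ν ∧
    (∀ᵐ w ∂ν, ∀ d ∈ Lam (dat φ ν w), (ρ w).map (φ d) = ρ w) ∧
    ∀ T : W → W, Measurable T → ν.map T = ν →
      (∀ᵐ w ∂ν, Lam (dat φ ν (T w)) = Lam (dat φ ν w)) → ∀ᵐ w ∂ν, (ρ w).map T = ρ w := by
  set f : W → (ι → ℚ) × ℤ → Prop := fun w t =>
    ∃ d ∈ Metric.closedBall (fun i => (t.1 i : ℚ_[p])) ((p : ℝ) ^ t.2), d ∈ Lam (dat φ ν w) with hf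
  have hp : (0 : ℝ) < p := zero_lt_one.trans (usb_one_lt (p := p))
  have hfm : Measurable f := measurable_pi_lambda _ fun t => measurableSet_setOfPred.1
    (measurableSet_lam φ ν (isCompact_closedBall _ _)
      (IsUltrametricDist.isOpen_closedBall _ (zpow_pos hp _).ne'))
  obtain ⟨ρ, hρ, hb, -, h4, h5⟩ := disint ν hfm
  refine ⟨ρ, hρ, hb, ?_, fun T hT hTν hL => h5 T hT hTν (hL.mono fun w hw => by
    simp only [hf, hw])⟩
  obtain ⟨F, hF, hext⟩ := exists_test W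
  have key : ∀ᵐ w ∂ν, ∀ (n : ℕ) (t : (ι → ℚ) × ℤ), f w t →
      ∫⁻ x, usbAv φ (F n) t.2 (φ (fun i => (t.1 i : ℚ_[p])) x) ∂ρ w =
        ∫⁻ x, usbAv φ (F n) t.2 x ∂ρ w := by
    refine ae_all_iff.2 fun n => ae_all_iff.2 fun t => ?_
    have hm := usb_av_meas φ (hF n).1.measurable t.2
    refine h4 _ _ (hm.comp (usb_meas φ _)) hm {b | b t}
      (measurableSet_setOfPred.2 (measurable_pi_apply t)) fun B hB hBm => ?_
    refine line_int φ ν (hfm hBm) (fun v w hw => ?_) _ t.2 (fun w hw => ?_) hm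
      fun v hv w => usb_av_flow φ (hF n).1.measurable v hv w
    · have : f (φ v w) = f w := by simp only [hf, lam_flow]
      rwa [Set.mem_preimage, this]
    · obtain ⟨d, hd, hd'⟩ := hB hw
      exact ⟨d, by simpa using hd' 1, by rwa [mem_closedBall_iff_norm] at hd⟩
  filter_upwards [key] with w hw d hd
  refine hext _ _ (Measure.isProbabilityMeasure_map (usb_meas φ d).aemeasurable) inferInstance
    fun n => ?_
  rw [lintegral_map (hF n).1.measurable (usb_meas φ d)]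
  have h0 := usb_int_lim φ (ρ w) (hF n).1 (hF n).2 0
  simp only [φ.map_zero_apply] at h0
  refine tendsto_nhds_unique (usb_int_lim φ (ρ w) (hF n).1 (hF n).2 d) (h0.congr fun j => ?_)
  obtain ⟨r, hr⟩ := exists_rat_V d (-j)
  rw [← hw n (r, -j) ⟨d, mem_closedBall_iff_norm.2 hr, hd⟩]
  refine lintegral_congr fun x => ?_
  rw [← usb_av_flow φ (hF n).1.measurable _ hr, ← φ.map_add, sub_add_cancel]

end Pool.Agent.EQ
end
end

-- part Pool.Agent.P.MP_ad7a55_nt.VAct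
section

/-! Integer matrices of positive determinant acting on the upper half plane. -/

set_option autoImplicit false

noncomputable section

open MeasureTheory Topology Filter UpperHalfPlane
open scoped MatrixGroups ENNReal BoundedContinuousFunction

namespace Pool.Agent.EQ

abbrev MZ : Type := Matrix (Fin 2) (Fin 2) ℤ

theorem vact_den {ξ : MZ} (h : 0 < ξ.det) (τ : ℍ) : (ξ 1 0 : ℂ) * τ + ξ 1 1 ≠ 0 := fun e => by
  obtain ⟨h0, h1⟩ := int_indep_lat τ e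
  rw [Matrix.det_fin_two, h0, h1] at h
  simp at h

theorem act_im {ξ : MZ} (h : 0 < ξ.det) (τ : ℍ) :
    0 < (((ξ 0 0 : ℂ) * τ + ξ 0 1) / ((ξ 1 0 : ℂ) * τ + ξ 1 1)).im := by
  have hn := Complex.normSq_pos.2 (vact_den h τ)
  have hd : (0 : ℝ) < ξ 0 0 * ξ 1 1 - ξ 0 1 * ξ 1 0 := by
    rw [Matrix.det_fin_two] at h
    exact_mod_cast h
  rw [Complex.div_im, ← sub_div]
  refine div_pos ?_ hn
  simp only [Complex.add_im, Complex.mul_im, Complex.intCast_re, Complex.intCast_im, zero_mul,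
    add_zero, coe_im, Complex.add_re, Complex.mul_re, sub_zero, coe_re]
  have := mul_pos hd τ.im_pos
  linarith

/-- The Moebius action of an integer matrix of positive determinant. -/
def act (ξ : MZ) (τ : ℍ) : ℍ :=
  if h : 0 < ξ.det then ⟨((ξ 0 0 : ℂ) * τ + ξ 0 1) / ((ξ 1 0 : ℂ) * τ + ξ 1 1), act_im h τ⟩ else τ

theorem coe_act {ξ : MZ} (h : 0 < ξ.det) (τ : ℍ) :
    (act ξ τ : ℂ) = ((ξ 0 0 : ℂ) * τ + ξ 0 1) / ((ξ 1 0 : ℂ) * τ + ξ 1 1) := by
  simp only [act, dif_pos h]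

theorem act_den {ξ : MZ} (h : 0 < ξ.det) (τ : ℍ) : (ξ 1 0 : ℂ) * τ + ξ 1 1 ≠ 0 :=
  vact_den h τ

theorem vact_den_mul {ξ : MZ} (h : 0 < ξ.det) (τ : ℍ) :
    ((ξ 1 0 : ℂ) * τ + ξ 1 1) * (act ξ τ : ℂ) = (ξ 0 0 : ℂ) * τ + ξ 0 1 := by
  rw [coe_act h, mul_div_cancel₀ _ (act_den h τ)]

theorem vact_ext {ξ : MZ} (h : 0 < ξ.det) {τ τ' : ℍ}
    (e : ((ξ 1 0 : ℂ) * τ + ξ 1 1) * (τ' : ℂ) = (ξ 0 0 : ℂ) * τ + ξ 0 1) : act ξ τ = τ' := by
  apply UpperHalfPlane.ext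
  apply mul_left_cancel₀ (act_den h τ)
  rw [vact_den_mul h, e]

theorem act_mul {ξ η : MZ} (h : 0 < ξ.det) (h' : 0 < η.det) (τ : ℍ) :
    act (ξ * η) τ = act ξ (act η τ) := by
  have h2 : 0 < (ξ * η).det := by rw [Matrix.det_mul]; exact mul_pos h h'
  refine vact_ext h2 ?_
  have e1 := vact_den_mul h' τ
  have e2 := vact_den_mul h (act η τ)
  simp only [Matrix.mul_apply, Fin.sum_univ_two]
  push_cast
  linear_combination ((η 1 0 : ℂ) * τ + η 1 1) * e2 +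
    ((ξ 0 0 : ℂ) - ξ 1 0 * (act ξ (act η τ) : ℂ)) * e1

theorem vact_SL_det (γ : SL(2, ℤ)) : 0 < (γ : MZ).det := by
  rw [γ.det_coe]; exact one_pos

theorem act_SL (γ : SL(2, ℤ)) (τ : ℍ) : act (γ : MZ) τ = γ • τ :=
  vact_ext (vact_SL_det γ) (sl_den_mul_lat γ τ)

theorem act_one (τ : ℍ) : act 1 τ = τ :=
  vact_ext (by simp) (by simp)

theorem act_smul {ξ : MZ} (h : 0 < ξ.det) {m : ℤ} (hm : m ≠ 0) (τ : ℍ) :
    act (m • ξ) τ = act ξ τ := by
  have h2 : 0 < (m • ξ).det := by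
    rw [Matrix.det_smul, Fintype.card_fin]
    exact mul_pos (by positivity) h
  refine vact_ext h2 ?_
  have e1 := vact_den_mul h τ
  simp only [Matrix.smul_apply, smul_eq_mul]
  push_cast
  linear_combination (m : ℂ) * e1

theorem continuous_act (ξ : MZ) : Continuous (act ξ) := by
  by_cases h : 0 < ξ.det
  · rw [isEmbedding_coe.continuous_iff]
    have : ((↑) : ℍ → ℂ) ∘ act ξ =
        fun τ : ℍ => ((ξ 0 0 : ℂ) * τ + ξ 0 1) / ((ξ 1 0 : ℂ) * τ + ξ 1 1) :=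
      funext fun τ => coe_act h τ
    rw [this]
    exact ((continuous_const.mul continuous_coe).add continuous_const).div
      ((continuous_const.mul continuous_coe).add continuous_const) (act_den h)
  · have : act ξ = id := funext fun τ => by simp only [act, dif_neg h, id]
    rw [this]
    exact continuous_id

theorem act_real {ξ : MZ} {g : SL(2, ℝ)} {c : ℝ} (hc : c ≠ 0)
    (h : ∀ i j, (ξ i j : ℝ) = c * g i j) (τ : ℍ) : 0 < ξ.det ∧ act ξ τ = g • τ := by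
  have hg := g.det_coe
  rw [Matrix.det_fin_two] at hg
  have hd : 0 < ξ.det := by
    have : ((ξ.det : ℤ) : ℝ) = c ^ 2 := by
      rw [Matrix.det_fin_two]
      push_cast
      rw [h, h, h, h]
      linear_combination c ^ 2 * hg
    have h2 : (0 : ℝ) < ((ξ.det : ℤ) : ℝ) := by rw [this]; positivity
    exact_mod_cast h2
  refine ⟨hd, ?_⟩
  have hC : ∀ i j, (ξ i j : ℂ) = (c : ℂ) * (g i j : ℝ) := fun i j => by
    rw [← Complex.ofReal_intCast, h, Complex.ofReal_mul]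
  apply UpperHalfPlane.ext
  have hc' : (c : ℂ) ≠ 0 := by exact_mod_cast hc
  rw [coe_act hd, coe_specialLinearGroup_apply, hC, hC, hC, hC, mul_assoc, mul_assoc, ← mul_add,
    ← mul_add, mul_div_mul_left _ _ hc']
  simp

theorem exists_real {ξ : MZ} (h : 0 < ξ.det) :
    ∃ (g : SL(2, ℝ)) (c : ℝ), c ≠ 0 ∧ ∀ i j, (ξ i j : ℝ) = c * g i j := by
  have hd : (0 : ℝ) < (ξ.det : ℝ) := by exact_mod_cast h
  have hc : Real.sqrt (ξ.det : ℝ) ≠ 0 := (Real.sqrt_pos.2 hd).ne'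
  have hs := Real.mul_self_sqrt hd.le
  generalize Real.sqrt (ξ.det : ℝ) = c at hc hs
  rw [Matrix.det_fin_two] at hs
  push_cast at hs
  refine ⟨⟨Matrix.of fun i j => (ξ i j : ℝ) / c, ?_⟩, c, hc, fun i j => ?_⟩
  · rw [Matrix.det_fin_two]
    simp only [Matrix.of_apply]
    field_simp
    linear_combination -hs
  · change _ = c * ((ξ i j : ℝ) / c)
    field_simp

theorem act_hnf {ξ : MZ} (h : 0 < ξ.det) : ∃ (γ : SL(2, ℤ)) (a d : ℕ) (b : ℤ), 0 < a ∧ 0 < d ∧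
    (a * d : ℤ) = ξ.det ∧ ξ = (γ : MZ) * !![(a : ℤ), b; 0, (d : ℤ)] := by
  have hdet := Matrix.det_fin_two ξ
  have hg : 0 < Int.gcd (ξ 0 0) (ξ 1 0) := by
    rw [Int.gcd_pos_iff]
    by_contra hc
    rw [not_or, not_not, not_not] at hc
    rw [hdet, hc.1, hc.2] at h
    simp at h
  have hb := Int.gcd_eq_gcd_ab (ξ 0 0) (ξ 1 0)
  obtain ⟨p, hp⟩ := Int.gcd_dvd_left (ξ 0 0) (ξ 1 0)
  obtain ⟨r, hr⟩ := Int.gcd_dvd_right (ξ 0 0) (ξ 1 0)
  generalize Int.gcdA (ξ 0 0) (ξ 1 0) = x at hb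
  generalize Int.gcdB (ξ 0 0) (ξ 1 0) = y at hb
  generalize Int.gcd (ξ 0 0) (ξ 1 0) = a at hg hb hp hr
  have ha : (0 : ℤ) < a := by exact_mod_cast hg
  have h1 : p * x + r * y = 1 := by
    apply mul_left_cancel₀ ha.ne'
    rw [hp, hr] at hb
    linear_combination -hb
  have h2 : (a : ℤ) * (p * ξ 1 1 - r * ξ 0 1) = ξ.det := by
    rw [hdet, hp, hr]; ring
  have h3 : 0 < p * ξ 1 1 - r * ξ 0 1 := (mul_pos_iff_of_pos_left ha).1 (h2 ▸ h)
  obtain ⟨d, hd⟩ := Int.eq_ofNat_of_zero_le h3.le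
  refine ⟨⟨!![p, -y; r, x], by rw [Matrix.det_fin_two_of]; linear_combination h1⟩, a, d,
    x * ξ 0 1 + y * ξ 1 1, hg, by omega, by rw [← hd, h2], ?_⟩
  ext i j
  fin_cases i <;> fin_cases j <;> simp [Matrix.mul_apply, Fin.sum_univ_two, ← hd]
  · rw [hp]; ring
  · linear_combination (-ξ 0 1) * h1
  · rw [hr]; ring
  · linear_combination (-ξ 1 1) * h1

theorem act_conj {ξ : MZ} (h : 0 < ξ.det) (N : ℕ) {γ : SL(2, ℤ)}
    (hγ : γ ∈ CongruenceSubgroup.Gamma (N * ξ.det.natAbs)) :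
    ∃ γ' ∈ CongruenceSubgroup.Gamma N, ξ * (γ : MZ) = (γ' : MZ) * ξ := by
  have hn : ((N * ξ.det.natAbs : ℕ) : ℤ) = N * ξ.det := by
    rw [Nat.cast_mul, Int.natAbs_of_nonneg h.le]
  rw [CongruenceSubgroup.Gamma_mem] at hγ
  obtain ⟨g0, g1, g2, g3⟩ := hγ
  have k0 : ((γ 0 0 - 1 : ℤ) : ZMod (N * ξ.det.natAbs)) = 0 := by push_cast; rw [g0, sub_self]
  have k3 : ((γ 1 1 - 1 : ℤ) : ZMod (N * ξ.det.natAbs)) = 0 := by push_cast; rw [g3, sub_self]
  rw [ZMod.intCast_zmod_eq_zero_iff_dvd, hn] at k0 g1 g2 k3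
  obtain ⟨a, ha⟩ := k0
  obtain ⟨b, hb⟩ := g1
  obtain ⟨c, hc⟩ := g2
  obtain ⟨d, hd⟩ := k3
  have hγ : (γ : MZ) = 1 + (N * ξ.det : ℤ) • !![a, b; c, d] := by
    ext i j
    fin_cases i <;> fin_cases j <;> simp
    · linear_combination ha
    · linear_combination hb
    · linear_combination hc
    · linear_combination hd
  have he : ξ * (γ : MZ) = (1 + (N : ℤ) • (ξ * !![a, b; c, d] * ξ.adjugate)) * ξ := by
    rw [hγ, mul_add, add_mul, mul_one, one_mul, smul_mul_assoc, mul_assoc _ _ ξ,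
      Matrix.adjugate_mul, mul_smul_comm, mul_smul_comm, mul_one, smul_smul]
  have hdet : (1 + (N : ℤ) • (ξ * !![a, b; c, d] * ξ.adjugate)).det = 1 := by
    have := congrArg Matrix.det he
    rw [Matrix.det_mul, Matrix.det_mul, γ.det_coe, mul_comm] at this
    exact (mul_right_cancel₀ h.ne' this).symm
  refine ⟨⟨_, hdet⟩, ?_, he⟩
  rw [CongruenceSubgroup.Gamma_mem]
  generalize ξ * !![a, b; c, d] * ξ.adjugate = B at hdet
  simp only [Matrix.add_apply, Matrix.smul_apply, smul_eq_mul]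
  simp

theorem isog_act {ξ : MZ} (h : 0 < ξ.det) (τ : ℍ) :
    Isog ξ.det.natAbs (jInv (act ξ τ)) (jInv τ) := by
  have hn : ((ξ.det.natAbs : ℕ) : ℂ) = (ξ 0 0 : ℂ) * ξ 1 1 - ξ 0 1 * ξ 1 0 := by
    rw [← Int.cast_natCast, Int.natAbs_of_nonneg h.le, Matrix.det_fin_two]
    push_cast
    rfl
  refine ⟨_, _, isLat_sp (act_den h τ) (act ξ τ), isLat_one τ, jL_sp (act_den h τ) _, jL_one τ,
    ?_, ?_⟩
  · rw [vact_den_mul h]
    exact sp_le_iff_lat.2 ⟨mem_sp.2 ⟨ξ 1 1, ξ 1 0, by ring⟩, mem_sp.2 ⟨ξ 0 1, ξ 0 0, by ring⟩⟩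
  · rw [vact_den_mul h, pr_mul_sp, hn]
    exact sp_le_iff_lat.2 ⟨mem_sp.2 ⟨ξ 0 0, -ξ 1 0, by push_cast; ring⟩,
      mem_sp.2 ⟨-ξ 0 1, ξ 1 1, by push_cast; ring⟩⟩

theorem Isog.exists_act {M : ℕ} (hM : 0 < M) {τ τ' : ℍ} (h : Isog M (jInv τ') (jInv τ)) :
    ∃ ξ : MZ, 0 < ξ.det ∧ ξ.det ∣ (M : ℤ) ^ 2 ∧ τ' = act ξ τ := by
  obtain ⟨Λ₁, Λ₂, h1, h2, j1, j2, l1, l2⟩ := h
  obtain ⟨c, hc, rfl⟩ := jL_inj (isLat_one τ) h2 (by rw [j2, jL_one])
  rw [pr_mul_sp, mul_one] at l1 l2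
  obtain ⟨a, d, b, ha, hd, haM, hdM, -, -, rfl⟩ := hnf hc τ hM l2 l1
  have hdet : (!![(d : ℤ), b; 0, (a : ℤ)] : MZ).det = d * a := by
    rw [Matrix.det_fin_two_of]; ring
  have hpos : 0 < (!![(d : ℤ), b; 0, (a : ℤ)] : MZ).det := by
    rw [hdet]; positivity
  have ha' : (a : ℂ) ≠ 0 := by exact_mod_cast ha.ne'
  have e := vact_den_mul hpos τ
  have e2 : c * (d * τ + b) = a * c * (act !![(d : ℤ), b; 0, (a : ℤ)] τ : ℂ) := by
    simp only [Matrix.of_apply, Matrix.cons_val', Matrix.cons_val_zero, Matrix.cons_val_one,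
      Matrix.cons_val_fin_one, Int.cast_zero, zero_mul, zero_add, Int.cast_natCast] at e
    linear_combination (-c) * e
  rw [e2, jL_sp (mul_ne_zero ha' hc)] at j1
  obtain ⟨γ, rfl⟩ := jInv_inj j1
  refine ⟨(γ : MZ) * !![(d : ℤ), b; 0, (a : ℤ)], ?_, ?_, ?_⟩
  · rw [Matrix.det_mul, γ.det_coe, one_mul]; exact hpos
  · rw [Matrix.det_mul, γ.det_coe, one_mul, hdet, sq]
    exact mul_dvd_mul (by exact_mod_cast hdM) (by exact_mod_cast haM)
  · rw [act_mul (vact_SL_det γ) hpos, act_SL]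

theorem vact_mono (c : ℂ) {Λ Λ' : Lt} (h : Λ ≤ Λ') : pr c * Λ ≤ pr c * Λ' :=
  pr_mul_le.mpr fun w hw => mem_pr_mul.mpr ⟨w, h hw, rfl⟩

theorem Isog.symm {M : ℕ} (hM : 0 < M) {a b : ℂ} (h : Isog M a b) : Isog M b a := by
  obtain ⟨Λ₁, Λ₂, h1, h2, j1, j2, l1, l2⟩ := h
  have hM' : (M : ℂ) ≠ 0 := by exact_mod_cast hM.ne'
  exact ⟨pr M * Λ₂, Λ₁, h2.pr_mul hM', h1, by rw [jL_pr_mul h2 hM', j2], j1, l2, vact_mono _ l1⟩

theorem Isog.trans {M M' : ℕ} {a b c : ℂ} (h : Isog M a b) (h' : Isog M' b c) :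
    Isog (M * M') a c := by
  obtain ⟨Λ₁, Λ₂, h1, h2, j1, j2, l1, l2⟩ := h
  obtain ⟨Λ₃, Λ₄, h3, h4, j3, j4, l3, l4⟩ := h'
  obtain ⟨t, ht, rfl⟩ := jL_inj h3 h2 (by rw [j2, j3])
  refine ⟨Λ₁, pr t * Λ₄, h1, h4.pr_mul ht, j1, by rw [jL_pr_mul h4 ht, j4],
    l1.trans (vact_mono _ l3), le_trans ?_ l2⟩
  rw [Nat.cast_mul, ← pr_mul_pr, mul_assoc, mul_left_comm (pr (M' : ℂ))]
  exact vact_mono _ (vact_mono _ l4)

theorem Isog.mono {M M' : ℕ} (hM : M ∣ M') {a b : ℂ} (h : Isog M a b) : Isog M' a b := by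
  obtain ⟨Λ₁, Λ₂, h1, h2, j1, j2, l1, l2⟩ := h
  obtain ⟨k, rfl⟩ := hM
  refine ⟨Λ₁, Λ₂, h1, h2, j1, j2, l1, le_trans ?_ l2⟩
  rw [Nat.cast_mul, ← pr_mul_pr, mul_assoc]
  refine vact_mono _ ?_
  simpa using pr_int_le (k : ℤ) Λ₂

theorem isog_refl (a : ℂ) : Isog 1 a a := by
  obtain ⟨Λ, h, j⟩ := jL_surj a
  exact ⟨Λ, Λ, h, h, j, j, le_rfl, by simp⟩

/-- Only finitely many matrices of a given determinant modulo a congruence subgroup. -/
theorem finite_act (N : ℕ) (hN : 0 < N) {δ : ℤ} (hδ : δ ≠ 0) : ∃ R : Finset MZ,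
    (∀ η ∈ R, 0 < η.det ∧ η.det ∣ δ) ∧ ∀ ξ : MZ, 0 < ξ.det → ξ.det ∣ δ →
      ∃ η ∈ R, ∃ γ ∈ CongruenceSubgroup.Gamma N, ξ = (γ : MZ) * η := by
  classical
  have : NeZero N := ⟨hN.ne'⟩
  have := CongruenceSubgroup.Gamma_normal N
  have : Fintype (SL(2, ℤ) ⧸ CongruenceSubgroup.Gamma N) := Fintype.ofFinite _
  let I : Finset ℤ := Finset.Icc 0 |δ|
  let f : (SL(2, ℤ) ⧸ CongruenceSubgroup.Gamma N) × ℤ × ℤ × ℤ → MZ :=
    fun z => ((z.1.out : SL(2, ℤ)) : MZ) * !![z.2.1, z.2.2.1; 0, z.2.2.2]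
  refine ⟨((Finset.univ ×ˢ I ×ˢ I ×ˢ I).image f).filter fun η => 0 < η.det ∧ η.det ∣ δ,
    fun η hη => (Finset.mem_filter.1 hη).2, fun ξ h hd => ?_⟩
  obtain ⟨γ, a, d, b, ha, hd0, had, hξ⟩ := act_hnf h
  have ha' : (0 : ℤ) < a := by exact_mod_cast ha
  have hd' : (0 : ℤ) < d := by exact_mod_cast hd0
  have hle : (a : ℤ) * d ≤ |δ| := by
    rw [had]
    exact Int.le_of_dvd (abs_pos.2 hδ) ((dvd_abs _ _).2 hd)
  have h1 : (a : ℤ) ≤ |δ| := by nlinarith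
  have h2 : (d : ℤ) ≤ |δ| := by nlinarith
  have h3 := Int.emod_nonneg b hd'.ne'
  have h4 := Int.emod_lt_of_pos b hd'
  let T : SL(2, ℤ) := ⟨!![1, b / d; 0, 1], by rw [Matrix.det_fin_two_of]; ring⟩
  have hT : (!![(a : ℤ), b; 0, (d : ℤ)] : MZ) = (T : MZ) * !![(a : ℤ), b % d; 0, (d : ℤ)] := by
    change _ = (!![1, b / d; 0, 1] : MZ) * _
    have := Int.emod_add_ediv_mul b d
    ext i j
    fin_cases i <;> fin_cases j <;> simp [Matrix.mul_apply, Fin.sum_univ_two, this]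
  let q : SL(2, ℤ) ⧸ CongruenceSubgroup.Gamma N := ((γ * T : SL(2, ℤ)) : _ ⧸ _)
  have hq : γ * T / q.out ∈ CongruenceSubgroup.Gamma N :=
    QuotientGroup.eq_iff_div_mem.1 (QuotientGroup.out_eq' q).symm
  have he : ξ = ((γ * T / q.out : SL(2, ℤ)) : MZ) * f (q, a, b % d, d) := by
    change _ = _ * (((q.out : SL(2, ℤ)) : MZ) * !![(a : ℤ), b % d; 0, (d : ℤ)])
    rw [← mul_assoc, ← Matrix.SpecialLinearGroup.coe_mul, div_mul_cancel,
      Matrix.SpecialLinearGroup.coe_mul, mul_assoc, ← hT, ← hξ]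
  have hdet : (f (q, a, b % d, d)).det = ξ.det := by
    conv_rhs => rw [he, Matrix.det_mul, Matrix.SpecialLinearGroup.det_coe, one_mul]
  refine ⟨f (q, a, b % d, d), Finset.mem_filter.2 ⟨Finset.mem_image_of_mem f ?_, ?_⟩, _, hq, he⟩
  · simp only [Finset.mem_product, Finset.mem_univ, true_and, I, Finset.mem_Icc]
    exact ⟨⟨ha'.le, h1⟩, ⟨h3, h4.le.trans h2⟩, hd'.le, h2⟩
  · rw [hdet]; exact ⟨h, hd⟩

/-- A point of large discriminant is fixed only by plus or minus one. -/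
theorem HasDisc.stab {τ : ℍ} {D : ℤ} (h : HasDisc τ D) (hD : D < -4) {γ : SL(2, ℤ)}
    (hγ : γ • τ = τ) : γ = 1 ∨ γ = -1 := by
  obtain ⟨A, B, C, -, hg, hq, rfl⟩ := h
  obtain ⟨u, v, w, hb⟩ := ord_bezout hg
  have e := sl_den_mul_lat γ τ
  rw [hγ] at e
  have hdet := γ.det_coe
  rw [Matrix.det_fin_two] at hdet
  obtain ⟨h1, h2⟩ := int_indep_lat τ (p := A * (γ 1 1 - γ 0 0) - γ 1 0 * B)
    (q := -A * γ 0 1 - γ 1 0 * C) (by push_cast; linear_combination A * e - γ 1 0 * hq)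
  obtain ⟨h3, h4⟩ := int_indep_lat τ (p := (γ 1 1 - γ 0 0) * C + γ 0 1 * B) (q := 0) (by
    have hτ : (τ : ℂ) ≠ 0 := τ.ne_zero
    have h1' : (A : ℂ) * (γ 1 1 - γ 0 0) - γ 1 0 * B = 0 := by exact_mod_cast h1
    have h2' : -(A : ℂ) * γ 0 1 - γ 1 0 * C = 0 := by exact_mod_cast h2
    push_cast
    linear_combination C * e + γ 0 1 * hq + (τ : ℂ) ^ 2 * h2')
  obtain ⟨t, ht⟩ : ∃ t, t = u * γ 1 0 + v * (γ 1 1 - γ 0 0) - w * γ 0 1 := ⟨_, rfl⟩
  have k1 : γ 1 0 = t * A := by rw [ht]; linear_combination (-γ 1 0) * hb - v * h1 - w * h2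
  have k2 : γ 1 1 - γ 0 0 = t * B := by
    rw [ht]; linear_combination (-(γ 1 1 - γ 0 0)) * hb + u * h1 + w * h3
  have k3 : -γ 0 1 = t * C := by rw [ht]; linear_combination γ 0 1 * hb + u * h2 - v * h3
  have k4 : (γ 0 0 + γ 1 1) ^ 2 - 4 = t ^ 2 * (B ^ 2 - 4 * A * C) := by
    have k3' : γ 0 1 = -(t * C) := by linear_combination -k3
    have k2' : γ 1 1 = γ 0 0 + t * B := by linear_combination k2
    rw [k1, k3', k2'] at hdet
    rw [k2']
    linear_combination 4 * hdet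
  have ht0 : t = 0 := by
    by_contra hne
    have h5 : 0 < t ^ 2 := by positivity
    nlinarith [sq_nonneg (γ 0 0 + γ 1 1)]
  rw [ht0, zero_mul] at k1 k2 k3
  have k5 : γ 0 1 = 0 := by linear_combination -k3
  have k6 : γ 1 1 = γ 0 0 := by linear_combination k2
  rw [k1, k5, k6, mul_zero, sub_zero] at hdet
  rcases Int.eq_one_or_neg_one_of_mul_eq_one hdet with k7 | k7
  · left
    ext i j
    fin_cases i <;> fin_cases j <;> simp [k1, k5, k6, k7]
  · right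
    ext i j
    fin_cases i <;> fin_cases j <;> simp [k1, k5, k6, k7]

end Pool.Agent.EQ
end
end

-- part Pool.Agent.P.MP_ad7a55_nt.VQs
section

/-! Expansions at the cusp with coefficients in a field. -/

set_option autoImplicit false

noncomputable section

open MeasureTheory Topology Filter UpperHalfPlane
open scoped MatrixGroups ENNReal BoundedContinuousFunction

namespace Pool.Agent.EQ

def qN (N : ℕ) (τ : ℍ) : ℂ := Complex.exp (2 * Real.pi * Complex.I * τ / N)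

def zt (N : ℕ) : ℂ := Complex.exp (2 * Real.pi * Complex.I / N)

/-- `h` is a power series in `qN N` with coefficients in `L`. -/
def QS (N : ℕ) (L : IntermediateField ℚ ℂ) (h : ℍ → ℂ) : Prop :=
  ∃ c : ℕ → ℂ, (∀ n, c n ∈ L) ∧ ∀ τ : ℍ, HasSum (fun n => c n * qN N τ ^ n) (h τ)

variable {N : ℕ} {L : IntermediateField ℚ ℂ} {f g : ℍ → ℂ}

theorem vqs_mulH (hN : 0 < N) (τ : ℍ) : qN N (mulH N hN τ) = qq τ := by
  have h : (N : ℂ) ≠ 0 := Nat.cast_ne_zero.2 hN.ne'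
  rw [qN, qq, coe_mulH]
  congr 1
  field_simp

theorem vqs_lt (hN : 0 < N) (τ : ℍ) : ‖qN N τ‖ < 1 := by
  have h : qN N τ = qq (divH N hN 0 τ) := by
    rw [qN, qq, coe_divH]
    congr 1
    push_cast
    ring
  rw [h]
  exact iq2_qq_lt _

theorem vqs_tr (hN : 0 < N) {c : ℕ → ℂ} (h : ∀ τ : ℍ, HasSum (fun n => c n * qN N τ ^ n) (f τ))
    (τ : ℍ) : HasSum (fun n => c n * qq τ ^ n) (f (mulH N hN τ)) := by
  rw [← vqs_mulH hN τ]
  exact h _

theorem vqs_unique (hN : 0 < N) {a b : ℕ → ℂ}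
    (ha : ∀ τ : ℍ, HasSum (fun n => a n * qN N τ ^ n) (f τ))
    (hb : ∀ τ : ℍ, HasSum (fun n => b n * qN N τ ^ n) (f τ)) : a = b :=
  iq2_unique (vqs_tr hN ha) (vqs_tr hN hb)

theorem vqs_pow {k : ℕ} (hk : 0 < k) (N : ℕ) (τ : ℍ) : qN (N * k) τ ^ k = qN N τ := by
  have h : (k : ℂ) ≠ 0 := Nat.cast_ne_zero.2 hk.ne'
  rw [qN, qN, ← Complex.exp_nat_mul]
  congr 1
  push_cast
  rw [mul_comm (N : ℂ), ← div_div, mul_div_assoc', mul_div_cancel₀ _ h]

theorem vqs_cauchy {a b : ℕ → ℂ} {x y z : ℂ} (ha : HasSum (fun n => a n * x ^ n) y)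
    (hb : HasSum (fun n => b n * x ^ n) z) :
    HasSum (fun n => (∑ p ∈ Finset.HasAntidiagonal.antidiagonal n, a p.1 * b p.2) * x ^ n)
      (y * z) := by
  have h1 := ha.summable.norm
  have h2 := hb.summable.norm
  have h3 := tsum_mul_tsum_eq_tsum_sum_antidiagonal_of_summable_norm h1 h2
  have h4 := (summable_norm_sum_mul_antidiagonal_of_summable_norm h1 h2).of_norm
  rw [ha.tsum_eq, hb.tsum_eq] at h3
  rw [h3]
  refine iq2_congr h4.hasSum fun n => ?_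
  rw [Finset.sum_mul]
  refine Finset.sum_congr rfl fun p hp => ?_
  rw [← Finset.HasAntidiagonal.mem_antidiagonal.1 hp, pow_add]
  ring

theorem vqs_expand {c : ℕ → ℂ} {x y : ℂ} {k : ℕ} (hk : 0 < k)
    (h : HasSum (fun n => c n * (x ^ k) ^ n) y) :
    HasSum (fun n => (if k ∣ n then c (n / k) else 0) * x ^ n) y := by
  have hi : Function.Injective fun m : ℕ => k * m := mul_right_injective₀ hk.ne'
  refine (hi.hasSum_iff fun n hn => ?_).1 (iq2_congr h fun n => ?_)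
  · rw [if_neg fun ⟨m, hm⟩ => hn ⟨m, hm.symm⟩, zero_mul]
  · simp [Nat.mul_div_cancel_left n hk, pow_mul]

theorem vqs_exp {k : ℕ} (hk : 0 < k) {c : ℕ → ℂ} (hc : ∀ n, c n ∈ L)
    (h : ∀ τ : ℍ, HasSum (fun n => c n * (qN N τ ^ k) ^ n) (f τ)) : QS N L f :=
  ⟨fun n => if k ∣ n then c (n / k) else 0, fun n => by
    beta_reduce
    split_ifs
    exacts [hc _, zero_mem _], fun τ => vqs_expand hk (h τ)⟩

theorem vqs_single (m : ℕ) (c x : ℂ) :
    HasSum (fun n => (if n = m then c else 0) * x ^ n) (c * x ^ m) := by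
  have h := hasSum_single (f := fun n => (if n = m then c else 0) * x ^ n) m fun n hn => by
    simp [hn]
  rwa [if_pos rfl] at h

theorem zt_dvd {M : ℕ} (hM : 0 < M) (h : N ∣ M) (hz : zt M ∈ L) : zt N ∈ L := by
  obtain ⟨k, rfl⟩ := h
  have hk : (k : ℂ) ≠ 0 := Nat.cast_ne_zero.2 (Nat.pos_of_mul_pos_left hM).ne'
  have e : zt N = zt (N * k) ^ k := by
    rw [zt, zt, ← Complex.exp_nat_mul]
    congr 1
    push_cast
    rw [mul_comm (N : ℂ), ← div_div, mul_div_assoc', mul_div_cancel₀ _ hk]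
  rw [e]
  exact pow_mem hz k

theorem exists_field (F : IntermediateField ℚ ℂ) [FiniteDimensional ℚ F]
    (L : IntermediateField ℚ ℂ) [FiniteDimensional ℚ L] {N : ℕ} (hN : 0 < N) :
    ∃ F' : IntermediateField ℚ ℂ, FiniteDimensional ℚ F' ∧ F ≤ F' ∧ L ≤ F' ∧ zt N ∈ F' := by
  have h1 : IsIntegral ℚ (zt N) := IsIntegral.of_pow hN (by
    rw [show zt N ^ N = 1 from (Complex.isPrimitiveRoot_exp N hN.ne').pow_eq_one]
    exact isIntegral_one)
  have h2 := IntermediateField.adjoin.finiteDimensional h1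
  exact ⟨F ⊔ L ⊔ IntermediateField.adjoin ℚ {zt N}, inferInstance, le_sup_left.trans le_sup_left,
    le_sup_right.trans le_sup_left,
    SetLike.le_def.1 le_sup_right (IntermediateField.mem_adjoin_simple_self ℚ _)⟩

theorem QS.add (hf : QS N L f) (hg : QS N L g) : QS N L fun τ => f τ + g τ := by
  obtain ⟨a, ha, ha'⟩ := hf
  obtain ⟨b, hb, hb'⟩ := hg
  exact ⟨fun n => a n + b n, fun n => add_mem (ha n) (hb n),
    fun τ => iq2_congr ((ha' τ).add (hb' τ)) fun n => add_mul _ _ _⟩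

theorem QS.mul (hN : 0 < N) (hf : QS N L f) (hg : QS N L g) : QS N L fun τ => f τ * g τ := by
  obtain ⟨a, ha, ha'⟩ := hf
  obtain ⟨b, hb, hb'⟩ := hg
  exact ⟨_, fun n => sum_mem fun p _ => mul_mem (ha p.1) (hb p.2),
    fun τ => vqs_cauchy (ha' τ) (hb' τ)⟩

theorem qs_const {c : ℂ} (hc : c ∈ L) : QS N L fun _ => c := by
  refine ⟨fun n => if n = 0 then c else 0, fun n => ?_, fun τ => ?_⟩
  · beta_reduce
    split_ifs
    exacts [hc, zero_mem _]
  · simpa only [pow_zero, mul_one] using vqs_single 0 c (qN N τ)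

theorem QS.pow (hN : 0 < N) (hf : QS N L f) (m : ℕ) : QS N L fun τ => f τ ^ m := by
  induction m with
  | zero => simpa only [pow_zero] using qs_const (one_mem L)
  | succ m ih => simpa only [pow_succ] using ih.mul hN hf

theorem qs_qN (N : ℕ) (L : IntermediateField ℚ ℂ) : QS N L (qN N) := by
  refine ⟨fun n => if n = 1 then 1 else 0, fun n => ?_, fun τ => ?_⟩
  · beta_reduce
    split_ifs
    exacts [one_mem _, zero_mem _]
  · simpa only [pow_one, one_mul] using vqs_single 1 1 (qN N τ)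

theorem QS.mono {L' : IntermediateField ℚ ℂ} (h : L ≤ L') (hf : QS N L f) : QS N L' f := by
  obtain ⟨a, ha, ha'⟩ := hf
  exact ⟨a, fun n => h (ha n), ha'⟩

theorem QS.level {N' : ℕ} (hN' : 0 < N') (h : N ∣ N') (hf : QS N L f) : QS N' L f := by
  obtain ⟨a, ha, ha'⟩ := hf
  obtain ⟨k, rfl⟩ := h
  have hk := Nat.pos_of_mul_pos_left hN'
  exact vqs_exp hk ha fun τ => by
    rw [vqs_pow hk]
    exact ha' τ

theorem IntQ.qs (hN : 0 < N) (hf : IntQ f) : QS N L f := by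
  obtain ⟨a, ha⟩ := hf
  refine QS.level hN (one_dvd N) ⟨fun n => a n, fun n => intCast_mem L _, fun τ => ?_⟩
  have e : qN 1 τ = qq τ := by simp [qN, qq]
  rw [e]
  exact ha τ

theorem QS.aff (hN : 0 < N) (hf : QS N L f) {a d : ℕ} (ha : 0 < a) (hd : 0 < d) (b : ℤ)
    {L' : IntermediateField ℚ ℂ} (h : L ≤ L') (hz : zt (N * d) ∈ L') {w : ℍ → ℍ}
    (hw : ∀ τ : ℍ, (w τ : ℂ) = (a * τ + b) / d) : QS (N * d) L' fun τ => f (w τ) := by
  obtain ⟨c, hc, hc'⟩ := hf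
  refine vqs_exp ha (c := fun n => c n * (zt (N * d) ^ b) ^ n)
    (fun n => mul_mem (h (hc n)) (pow_mem (zpow_mem hz b) n)) fun τ => ?_
  have h1 : (N : ℂ) ≠ 0 := Nat.cast_ne_zero.2 hN.ne'
  have h2 : (d : ℂ) ≠ 0 := Nat.cast_ne_zero.2 hd.ne'
  have e : qN N (w τ) = zt (N * d) ^ b * qN (N * d) τ ^ a := by
    rw [qN, qN, zt, hw, ← Complex.exp_nat_mul, ← Complex.exp_int_mul, ← Complex.exp_add]
    congr 1
    push_cast
    field_simp
    ring
  refine iq2_congr (hc' (w τ)) fun n => ?_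
  rw [e, mul_pow, mul_assoc]

theorem QS.one (hN : 0 < N) (hf : QS N L f) (hp : ∀ τ : ℍ, f (ModularGroup.T • τ) = f τ) :
    QS 1 L f := by
  obtain ⟨c, hc, hc'⟩ := hf
  have e : ∀ τ : ℍ, qN N (ModularGroup.T • τ) = zt N * qN N τ := fun τ => by
    rw [qN, qN, zt, modular_T_smul, coe_vadd, ← Complex.exp_add]
    congr 1
    push_cast
    ring
  have h1 := vqs_unique hN (a := fun n => c n * zt N ^ n) (fun τ => by
    have h := hc' (ModularGroup.T • τ)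
    rw [hp, e] at h
    exact iq2_congr h fun n => by rw [mul_pow, mul_assoc]) hc'
  have h2 : ∀ n, ¬ N ∣ n → c n = 0 := fun n hn => by
    by_contra h0
    exact hn (((Complex.isPrimitiveRoot_exp N hN.ne').pow_eq_one_iff_dvd n).1
      (mul_right_eq_self₀.1 (congrFun h1 n) |>.resolve_right h0))
  have hi : Function.Injective fun m : ℕ => N * m := mul_right_injective₀ hN.ne'
  refine ⟨fun m => c (N * m), fun m => hc _, fun τ => ?_⟩
  have h3 := (hi.hasSum_iff fun n hn => by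
    rw [h2 n fun ⟨m, hm⟩ => hn ⟨m, hm.symm⟩, zero_mul]).2 (hc' τ)
  refine iq2_congr h3 fun m => ?_
  have h4 := vqs_pow hN 1 τ
  rw [one_mul] at h4
  rw [Function.comp_apply, pow_mul, h4]

theorem QS.continuous (hN : 0 < N) (hf : QS N L f) : Continuous f := by
  obtain ⟨c, -, hc'⟩ := hf
  have h1 : Continuous (qN N) := by
    unfold qN
    fun_prop
  have h2 := (iq2_diff fun q hq => iq2_summable (vqs_tr hN hc') hq).continuousOn.comp_continuous h1
    fun τ => mem_ball_zero_iff.2 (vqs_lt hN τ)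
  exact h2.congr fun τ => (hc' τ).tsum_eq

theorem QS.eq_zero (hN : 0 < N) (hf : QS N L f) (hg : QS N L g) (h : ∀ τ, f τ * g τ = 0) :
    (∀ τ, f τ = 0) ∨ ∀ τ, g τ = 0 := by
  obtain ⟨a, -, ha⟩ := hf
  obtain ⟨b, -, hb⟩ := hg
  have h1 := vqs_unique hN (f := fun τ => f τ * g τ) (b := fun _ => 0)
    (fun τ => vqs_cauchy (ha τ) (hb τ)) fun τ => by simpa [h τ] using hasSum_zero
  have h2 : PowerSeries.mk a * PowerSeries.mk b = 0 := by
    ext n
    simpa [PowerSeries.coeff_mul] using congrFun h1 n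
  have h3 : ∀ {c : ℕ → ℂ} {u : ℍ → ℂ}, (∀ τ : ℍ, HasSum (fun n => c n * qN N τ ^ n) (u τ)) →
      PowerSeries.mk c = 0 → ∀ τ, u τ = 0 := fun {c u} hc h0 τ => by
    have h4 : ∀ n, c n = 0 := fun n => by simpa using congrArg (PowerSeries.coeff n) h0
    exact (hc τ).unique (by simpa [h4] using hasSum_zero)
  exact (mul_eq_zero.1 h2).imp (h3 ha) (h3 hb)

end Pool.Agent.EQ
end
end

-- part Pool.Agent.P.MP_ad7a55_nt.Vol
section

/-! Covolume, norm, class sets and integral ideals. -/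

set_option autoImplicit false

noncomputable section

open MeasureTheory Topology Filter UpperHalfPlane
open scoped MatrixGroups ENNReal BoundedContinuousFunction

namespace Pool.Agent.EQ

open Classical in
/-- The covolume of a lattice. -/
def vol (Λ : Lt) : ℝ :=
  if h : IsLat Λ then Complex.normSq h.choose * h.choose_spec.choose.im else 0

/-- The norm of a lattice of discriminant `D`. -/
def nm (D : ℤ) (Λ : Lt) : ℝ := 2 * vol Λ / Real.sqrt (-(D : ℝ))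

/-- The `j`-invariants of discriminant `D`. -/
def Cl (D : ℤ) : Set ℂ := {z | ∃ Λ, DiscL Λ D ∧ jL Λ = z}

/-- The invertible integral ideals of norm `n`. -/
def Idl (D : ℤ) (n : ℕ) : Set Lt := {𝔞 | DiscL 𝔞 D ∧ 𝔞 ≤ OD D ∧ nm D 𝔞 = n}

theorem Cl_finite (D : ℤ) : (Cl D).Finite := finite_disc D

theorem vol_sp {c : ℂ} (hc : c ≠ 0) (τ : ℍ) : vol (sp c (c * τ)) = Complex.normSq c * τ.im := by
  have key : ∀ (c' : ℂ) (τ' : ℍ), c' ≠ 0 → sp c (c * τ) = sp c' (c' * τ') →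
      Complex.normSq c' * τ'.im = Complex.normSq c * τ.im := by
    intro c' τ' hc' h
    obtain ⟨γ, h3, h4⟩ := exists_SL_of_sp_eq hc hc' h
    have h5 := sl_den_mul_lat γ τ
    rw [← h3] at h5
    have hd : (γ 0 0 : ℝ) * γ 1 1 - γ 0 1 * γ 1 0 = 1 := by
      have := γ.det_coe
      rw [Matrix.det_fin_two] at this
      exact_mod_cast this
    have h6 := congrArg Complex.re h5
    have h7 := congrArg Complex.im h5
    simp at h6 h7
    rw [h4, map_mul, mul_assoc]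
    congr 1
    simp [Complex.normSq_apply]
    linear_combination ((γ 1 0 : ℝ) * τ.re + γ 1 1) * h7 - (γ 1 0 : ℝ) * τ.im * h6 + τ.im * hd
  have h := isLat_sp hc τ
  unfold vol
  rw [dif_pos h]
  exact key _ _ h.choose_spec.choose_spec.1 h.choose_spec.choose_spec.2

/-- The covolume in terms of an arbitrary basis. -/
theorem vol_sp' {a b : ℂ} (h : (starRingEnd ℂ a * b).im ≠ 0) :
    IsLat (sp a b) ∧ vol (sp a b) = |(starRingEnd ℂ a * b).im| := by
  have ha : a ≠ 0 := by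
    rintro rfl
    simp at h
  have hn := Complex.normSq_pos.2 ha
  have key : ∀ b : ℂ, 0 < (starRingEnd ℂ a * b).im →
      IsLat (sp a b) ∧ vol (sp a b) = (starRingEnd ℂ a * b).im := by
    intro b hb
    have e : (starRingEnd ℂ a * b).im = Complex.normSq a * (b / a).im := by
      have : starRingEnd ℂ a * b = (Complex.normSq a : ℂ) * (b / a) := by
        rw [Complex.normSq_eq_conj_mul_self]
        field_simp
      rw [this, Complex.im_ofReal_mul]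
    have hp : 0 < (b / a).im := by
      rw [e] at hb
      exact (mul_pos_iff_of_pos_left hn).1 hb
    have e2 : sp a b = sp a (a * ((⟨b / a, hp⟩ : ℍ) : ℂ)) := by
      congr 1
      change b = a * (b / a)
      field_simp
    rw [e2, vol_sp ha, e]
    exact ⟨isLat_sp ha _, rfl⟩
  rcases lt_or_gt_of_ne h with h1 | h1
  · have := key (-b) (by rw [mul_neg, Complex.neg_im]; linarith)
    rw [ord_sp_neg, mul_neg, Complex.neg_im] at this
    rwa [abs_of_neg h1]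
  · rw [abs_of_pos h1]
    exact key b h1

theorem vol_pos {Λ : Lt} (h : IsLat Λ) : 0 < vol Λ := by
  obtain ⟨c, τ, hc, rfl⟩ := h
  rw [vol_sp hc]
  exact mul_pos (Complex.normSq_pos.2 hc) τ.im_pos

theorem vol_pr_mul {Λ : Lt} (h : IsLat Λ) {c : ℂ} (hc : c ≠ 0) :
    vol (pr c * Λ) = Complex.normSq c * vol Λ := by
  obtain ⟨a, τ, ha, rfl⟩ := h
  rw [pr_mul_sp, ← mul_assoc, vol_sp (mul_ne_zero hc ha), vol_sp ha, map_mul, mul_assoc]

theorem IsLat.cj {Λ : Lt} (h : IsLat Λ) : IsLat (cj Λ) ∧ vol (cj Λ) = vol Λ := by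
  obtain ⟨c, τ, hc, rfl⟩ := h
  have hp := mul_pos (Complex.normSq_pos.2 hc) τ.im_pos
  have e : (starRingEnd ℂ (starRingEnd ℂ c) * starRingEnd ℂ (c * τ)).im =
      -(Complex.normSq c * τ.im) := by
    simp [Complex.normSq_apply]
    ring
  have := vol_sp' (a := starRingEnd ℂ c) (b := starRingEnd ℂ (c * τ)) (by rw [e]; linarith)
  rw [e, abs_neg, abs_of_pos hp] at this
  rw [cj_sp, vol_sp hc]
  exact this

theorem vol_OD {D : ℤ} (hD : IsD D) : vol (OD D) = Real.sqrt (-(D : ℝ)) / 2 := by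
  have hr : (D : ℝ) < 0 := by exact_mod_cast hD.1
  have hp : 0 < Real.sqrt (-(D : ℝ)) / 2 := div_pos (Real.sqrt_pos.2 (by linarith)) two_pos
  have e : (starRingEnd ℂ 1 * ((D + th D) / 2)).im = Real.sqrt (-(D : ℝ)) / 2 := by
    simp [ord2_th_im]
  have := (vol_sp' (a := 1) (b := (D + th D) / 2) (by rw [e]; exact hp.ne')).2
  rwa [e, abs_of_pos hp] at this

theorem nm_OD {D : ℤ} (hD : IsD D) : nm D (OD D) = 1 := by
  have hr : (D : ℝ) < 0 := by exact_mod_cast hD.1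
  have hp : 0 < Real.sqrt (-(D : ℝ)) := Real.sqrt_pos.2 (by linarith)
  rw [nm, vol_OD hD]
  field_simp

theorem DiscL.nm_pos {Λ : Lt} {D : ℤ} (h : DiscL Λ D) : 0 < nm D Λ := by
  have hr : (D : ℝ) < 0 := by exact_mod_cast h.isD.1
  exact div_pos (mul_pos two_pos (vol_pos h.isLat)) (Real.sqrt_pos.2 (by linarith))

theorem nm_pr_mul {Λ : Lt} (h : IsLat Λ) (D : ℤ) {c : ℂ} (hc : c ≠ 0) :
    nm D (pr c * Λ) = Complex.normSq c * nm D Λ := by
  rw [nm, nm, vol_pr_mul h hc]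
  ring

theorem nm_cj {Λ : Lt} (h : IsLat Λ) (D : ℤ) : nm D (cj Λ) = nm D Λ := by
  rw [nm, nm, h.cj.2]

theorem DiscL.mul_cj_nm {Λ : Lt} {D : ℤ} (h : DiscL Λ D) :
    Λ * Pool.Agent.EQ.cj Λ = pr (nm D Λ) * OD D := by
  obtain ⟨c', τ, hc', rfl, a, b, c, ha, hg, h, rfl⟩ := h
  have hj := ord_conj ha h
  obtain ⟨t, htt⟩ : ∃ t : ℂ, t = (nm (b ^ 2 - 4 * a * c) (sp c' (c' * τ)) : ℝ) := ⟨_, rfl⟩
  have ht : c' * starRingEnd ℂ c' = t * a := by
    have i1 : 2 * (a : ℝ) * τ.im = Real.sqrt (-((b ^ 2 - 4 * a * c : ℤ) : ℝ)) := by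
      have := congrArg Complex.im (HasDisc.root ha h)
      rw [ord2_th_im] at this
      rw [← this]
      simp
    have ha' : (0 : ℝ) < a := by exact_mod_cast ha
    have hτ := τ.im_pos
    have i2 : nm (b ^ 2 - 4 * a * c) (sp c' (c' * τ)) * a = Complex.normSq c' := by
      rw [nm, vol_sp hc', ← i1]
      field_simp
    rw [htt, Complex.mul_conj, ← i2]
    push_cast
    ring
  rw [← htt, ord_OD_eq ha h, pr_mul_sp, cj_sp, map_mul]
  apply le_antisymm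
  · rw [Submodule.mul_le]
    intro u hu v hv
    obtain ⟨m, n, rfl⟩ := mem_sp.1 hu
    obtain ⟨m', n', rfl⟩ := mem_sp.1 hv
    refine mem_sp.2 ⟨a * m * m' - b * m * n' + c * n * n', n * m' - m * n', ?_⟩
    push_cast
    linear_combination ((m : ℂ) + n * τ) * (m' + n' * starRingEnd ℂ τ) * ht +
      t * n' * ((m : ℂ) + n * τ) * hj - t * n * n' * h
  · have p1 := Submodule.mul_mem_mul (ord_left c' (c' * τ))
      (ord_left (starRingEnd ℂ c') (starRingEnd ℂ c' * starRingEnd ℂ τ))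
    have p2 := Submodule.mul_mem_mul (ord_right c' (c' * τ))
      (ord_left (starRingEnd ℂ c') (starRingEnd ℂ c' * starRingEnd ℂ τ))
    have p3 := Submodule.mul_mem_mul (ord_left c' (c' * τ))
      (ord_right (starRingEnd ℂ c') (starRingEnd ℂ c' * starRingEnd ℂ τ))
    have p4 := Submodule.mul_mem_mul (ord_right c' (c' * τ))
      (ord_right (starRingEnd ℂ c') (starRingEnd ℂ c' * starRingEnd ℂ τ))
    obtain ⟨u, v, w, huv⟩ := ord_bezout hg
    have huv' : (u : ℂ) * a + v * b + w * c = 1 := by exact_mod_cast huv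
    refine ord_sp_le.2 ⟨?_, ?_⟩
    · have := add_mem (sub_mem (Submodule.smul_mem _ u p1) (Submodule.smul_mem _ v (add_mem p2 p3)))
        (Submodule.smul_mem _ w p4)
      refine Eq.subst (motive := fun x => x ∈ _) ?_ this
      simp only [zsmul_eq_mul]
      linear_combination t * huv' +
        ((u : ℂ) - v * (τ + starRingEnd ℂ τ) + w * τ * starRingEnd ℂ τ) * ht -
        t * ((v : ℂ) - w * τ) * hj - t * w * h
    · refine Eq.subst (motive := fun x => x ∈ _) ?_ p2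
      linear_combination (τ : ℂ) * ht

/-- A positive real generator of a principal module is determined by the module. -/
theorem pr_OD_inj {D : ℤ} (hD : IsD D) {a b : ℝ} (ha : 0 < a) (hb : 0 < b)
    (h : pr a * OD D = pr b * OD D) : a = b := by
  have hL := (discL_OD hD).isLat
  have h1 := congrArg vol h
  rw [vol_pr_mul hL (Complex.ofReal_ne_zero.2 ha.ne'),
    vol_pr_mul hL (Complex.ofReal_ne_zero.2 hb.ne'), Complex.normSq_ofReal,
    Complex.normSq_ofReal] at h1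
  exact (mul_self_inj_of_nonneg ha.le hb.le).1 (mul_right_cancel₀ (vol_pos hL).ne' h1)

theorem nm_mul {𝔞 Λ : Lt} {D D' : ℤ} (h : DiscL 𝔞 D) (h' : DiscL Λ D') (hle : OD D ≤ OD D') :
    nm D' (𝔞 * Λ) = nm D 𝔞 * nm D' Λ := by
  refine pr_OD_inj h'.isD (h.mul h' hle).nm_pos (mul_pos h.nm_pos h'.nm_pos) ?_
  rw [← (h.mul h' hle).mul_cj_nm, cj_mul, mul_mul_mul_comm, h.mul_cj_nm, h'.mul_cj_nm,
    mul_mul_mul_comm, pr_mul_pr, ord2_OD_mul (discL_OD h'.isD) hle, Complex.ofReal_mul]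

theorem DiscL.normSq_nat {Λ : Lt} {D : ℤ} (h : DiscL Λ D) {w : ℂ} (hw : w ∈ Λ) :
    ∃ n : ℕ, Complex.normSq w = n * nm D Λ := by
  have h1 : w * starRingEnd ℂ w ∈ Λ * Pool.Agent.EQ.cj Λ :=
    Submodule.mul_mem_mul hw (mem_cj.2 (by simpa using hw))
  rw [h.mul_cj_nm, mem_pr_mul] at h1
  obtain ⟨x, hx, e⟩ := h1
  obtain ⟨m, n, rfl⟩ := mem_sp.1 hx
  rw [Complex.mul_conj] at e
  have hp := h.nm_pos
  have e1 := congrArg Complex.im e
  have hn : n = 0 := by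
    have := ord2_th_im_ne h.isD.1
    simpa [hp.ne', this] using e1
  subst hn
  have e2 : nm D Λ * m = Complex.normSq w := by
    simpa using congrArg Complex.re e
  have hm : (0 : ℝ) ≤ m := by
    have := Complex.normSq_nonneg w
    rw [← e2] at this
    exact nonneg_of_mul_nonneg_right this hp
  obtain ⟨k, rfl⟩ := Int.eq_ofNat_of_zero_le (show 0 ≤ m by exact_mod_cast hm)
  exact ⟨k, by rw [← e2, Int.cast_natCast, mul_comm]⟩

end Pool.Agent.EQ
end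
end
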