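import Pool.Agent.K.MP_ad7a55_nt.C32
import Pool.Agent.K.MP_ad7a55_nt.C18
import Pool.Agent.K.MP_ad7a55_nt.C16
import Pool.Agent.K.MP_ad7a55_nt.C22
import Pool.Agent.K.MP_ad7a55_nt.C15

-- part Pool.Agent.P.MP_ad7a55_nt.Aut2
section

/-! Automorphisms of ℂ. -/

set_option autoImplicit false

noncomputable section

open MeasureTheory Topology Filter UpperHalfPlane
open scoped MatrixGroups ENNReal BoundedContinuousFunction

namespace Pool.Agent.EQ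

open NumberField in
/-- Frobenius element of a Galois number field at a prime over `q`. -/
theorem frob_nf (L : Type) [Field L] [NumberField L] [IsGalois ℚ L] {q : ℕ} (hq : q.Prime)
    (Q : Ideal (𝓞 L)) [Q.IsPrime] (hQ : Q.under ℤ = Ideal.span {(q : ℤ)}) :
    ∃ g : L ≃ₐ[ℚ] L, ∀ x y : 𝓞 L, (y : L) = g (x : L) → y - x ^ q ∈ Q := by
  have hG : IsGaloisGroup (L ≃ₐ[ℚ] L) ℤ (𝓞 L) :=
    IsGaloisGroup.of_isFractionRing (L ≃ₐ[ℚ] L) ℤ (𝓞 L) ℚ L
  have hne : Q ≠ ⊥ := by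
    intro h
    have h1 : (q : ℤ) ∈ Q.under ℤ := by rw [hQ]; exact Ideal.mem_span_singleton_self _
    rw [h, Ideal.under, Ideal.mem_comap, Ideal.mem_bot] at h1
    have h2 : ((q : ℤ) : 𝓞 L) = 0 := by simpa using h1
    have h3 : (q : ℤ) = 0 := by exact_mod_cast h2
    exact hq.ne_zero (by exact_mod_cast h3)
  have : Finite (𝓞 L ⧸ Q) := Ideal.finiteQuotientOfFreeOfNeBot Q hne
  obtain ⟨g, hg⟩ := IsArithFrobAt.exists_of_isInvariant ℤ (L ≃ₐ[ℚ] L) Q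
  refine ⟨g, fun x y hy => ?_⟩
  have h := hg x
  have hc : Nat.card (ℤ ⧸ Q.under ℤ) = q := by
    rw [hQ, Nat.card_congr (Int.quotientSpanNatEquivZMod q).toEquiv, Nat.card_zmod]
  rw [hc] at h
  have : y = g • x := by
    apply RingOfIntegers.ext
    rw [hy]; rfl
  rw [this]
  exact h

/-- A finite Galois subfield of `ℂ` containing finitely many algebraic integers. -/
theorem exists_galois (T : Finset (integralClosure ℤ ℂ)) :
    ∃ L : IntermediateField ℚ ℂ, FiniteDimensional ℚ L ∧ IsGalois ℚ L ∧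
      ∀ a ∈ T, (a : ℂ) ∈ L := by
  classical
  have hint : ∀ a : integralClosure ℤ ℂ, IsIntegral ℚ (a : ℂ) := fun a =>
    IsIntegral.tower_top (R := ℤ) a.2
  set P : Polynomial ℚ := ∏ a ∈ T, minpoly ℚ (a : ℂ) with hP
  have hP0 : P ≠ 0 := Finset.prod_ne_zero_iff.mpr fun a _ => minpoly.ne_zero (hint a)
  have hs : (P.map (algebraMap ℚ ℂ)).Splits := IsAlgClosed.splits _
  have hsf : Polynomial.IsSplittingField ℚ (IntermediateField.adjoin ℚ (P.rootSet ℂ)) P := by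
    have h := IntermediateField.adjoin_rootSet_isSplittingField hs
    convert h
    exact Subsingleton.elim _ _
  refine ⟨IntermediateField.adjoin ℚ (P.rootSet ℂ), ?_, ?_, ?_⟩
  · exact Polynomial.IsSplittingField.finiteDimensional _ P
  · have := Polynomial.IsSplittingField.finiteDimensional
      (IntermediateField.adjoin ℚ (P.rootSet ℂ)) P
    have : Normal ℚ (IntermediateField.adjoin ℚ (P.rootSet ℂ)) := Normal.of_isSplittingField P
    exact IsGalois.mk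
  · intro a ha
    apply IntermediateField.subset_adjoin
    rw [Polynomial.mem_rootSet]
    refine ⟨hP0, ?_⟩
    rw [hP, map_prod]
    exact Finset.prod_eq_zero ha (minpoly.aeval ℚ _)

open NumberField in
/-- A Frobenius element for finitely many algebraic integers. -/
theorem exists_frob {q : ℕ} (hq : q.Prime) (T : Finset (integralClosure ℤ ℂ)) :
    ∃ (𝔔 : Ideal (integralClosure ℤ ℂ)) (σ : ℂ ≃+* ℂ), 𝔔.IsPrime ∧
      (∀ n : ℤ, (n : integralClosure ℤ ℂ) ∈ 𝔔 ↔ (q : ℤ) ∣ n) ∧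
      ∀ a ∈ T, ∀ b : integralClosure ℤ ℂ, (b : ℂ) = σ a → b - a ^ q ∈ 𝔔 := by
  obtain ⟨L, hfd, hgal, hT⟩ := exists_galois T
  have hnf : NumberField L := NumberField.mk
  have hqp : (Ideal.span {(q : ℤ)}).IsPrime :=
    (Ideal.span_singleton_prime (by exact_mod_cast hq.ne_zero)).mpr (Nat.prime_iff_prime_int.mp hq)
  obtain ⟨𝔔, -, h𝔔, hc⟩ := Ideal.exists_ideal_over_prime_of_isIntegral
    (S := integralClosure ℤ ℂ) (Ideal.span {(q : ℤ)}) ⊥ (by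
      intro n hn
      rw [Ideal.mem_comap, Ideal.mem_bot] at hn
      have h2 : ((n : ℤ) : integralClosure ℤ ℂ) = 0 := by simpa using hn
      have h3 : n = 0 := by exact_mod_cast h2
      rw [h3]; exact Ideal.zero_mem _)
  have hmem : ∀ n : ℤ, (n : integralClosure ℤ ℂ) ∈ 𝔔 ↔ (q : ℤ) ∣ n := by
    intro n
    rw [← Ideal.mem_span_singleton, ← hc, Ideal.mem_comap]
    simp
  -- the inclusion of the ring of integers of `L`
  let f : 𝓞 L →+* integralClosure ℤ ℂ :=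
    ((L.val.toRingHom).comp (algebraMap (𝓞 L) L)).codRestrict (integralClosure ℤ ℂ) (fun x => by
      have hx : IsIntegral ℤ (algebraMap (𝓞 L) L x) := x.2
      exact hx.map (L.val.toRingHom.toIntAlgHom))
  have hf : ∀ x : 𝓞 L, (f x : ℂ) = ((x : L) : ℂ) := fun x => rfl
  have hQp : (𝔔.comap f).IsPrime := Ideal.comap_isPrime f 𝔔
  have hQ : (𝔔.comap f).under ℤ = Ideal.span {(q : ℤ)} := by
    ext n
    rw [Ideal.under, Ideal.mem_comap, Ideal.mem_comap, Ideal.mem_span_singleton, ← hmem]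
    simp
  obtain ⟨g, hg⟩ := frob_nf L hq (𝔔.comap f) hQ
  have : Countable L := Countable.of_equiv _ (Module.finBasis ℚ L).equivFun.toEquiv.symm
  obtain ⟨σ, hσ⟩ := exists_aut (A := L) L.val.toRingHom
    (L.val.toRingHom.comp g.toRingEquiv.toRingHom)
  refine ⟨𝔔, σ, h𝔔, hmem, fun a ha b hb => ?_⟩
  have hai : IsIntegral ℤ (⟨(a : ℂ), hT a ha⟩ : L) := by
    rw [← isIntegral_algHom_iff (L.val.toRingHom.toIntAlgHom) L.val.toRingHom.injective]
    exact a.2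
  let x : 𝓞 L := ⟨⟨(a : ℂ), hT a ha⟩, hai⟩
  let y : 𝓞 L := ⟨g (x : L), hai.map (g.toRingEquiv.toRingHom.toIntAlgHom)⟩
  have h1 := hg x y rfl
  rw [Ideal.mem_comap, map_sub, map_pow] at h1
  have hx : f x = a := Subtype.ext rfl
  have hy : f y = b := by
    apply Subtype.ext
    rw [hb, hf]
    exact (hσ (x : L)).symm
  rwa [hx, hy] at h1

end Pool.Agent.EQ
end
end

-- part Pool.Agent.P.MP_ad7a55_nt.Frame
section

/-! Frames adapted to a CM point. -/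

set_option autoImplicit false

noncomputable section

open MeasureTheory Topology Filter UpperHalfPlane
open scoped MatrixGroups ENNReal BoundedContinuousFunction

namespace Pool.Agent.EQ

variable (p : ℕ) [Fact p.Prime]

/-- The lattice of a point of `G`. -/
def latG (g : GG p) : Lt where
  carrier := {z | ∃ v : Fin 2 → ℚ, (∀ i, InZp p (v i)) ∧
    (∀ i, ‖g.2 i 0 * v 0 + g.2 i 1 * v 1‖ ≤ 1) ∧
    z = ((g.1 0 0 * v 0 + g.1 0 1 * v 1 : ℝ) : ℂ) -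
      ((g.1 1 0 * v 0 + g.1 1 1 * v 1 : ℝ) : ℂ) * Complex.I}
  zero_mem' := ⟨0, fun _ => by simpa using inZp_int p 0, fun _ => by simp, by simp⟩
  add_mem' := by
    rintro _ _ ⟨v, h1, h2, rfl⟩ ⟨v', h1', h2', rfl⟩
    refine ⟨v + v', fun i => (h1 i).add (h1' i), fun i => ?_, ?_⟩
    · refine le_trans (le_of_eq ?_) ((Padic.nonarchimedean _ _).trans (max_le (h2 i) (h2' i)))
      congr 1; simp only [Pi.add_apply]; push_cast; ring
    · simp only [Pi.add_apply]; push_cast; ring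
  smul_mem' := by
    rintro n _ ⟨v, h1, h2, rfl⟩
    refine ⟨fun i => n * v i, fun i => (inZp_int p n).mul (h1 i), fun i => ?_, ?_⟩
    · have : ‖(n : ℚ_[p]) * (g.2 i 0 * v 0 + g.2 i 1 * v 1)‖ ≤ 1 := by
        rw [norm_mul]; exact mul_le_one₀ (Padic.norm_int_le_one n) (norm_nonneg _) (h2 i)
      refine le_trans (le_of_eq ?_) this
      congr 1; push_cast; ring
    · simp only [zsmul_eq_mul]; push_cast; ring

/-- The complex number attached to the vector `g v`. -/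
def frame_ph (g : SL(2, ℝ)) (a b : ℚ) : ℂ :=
  ((g 0 0 * a + g 0 1 * b : ℝ) : ℂ) - ((g 1 0 * a + g 1 1 * b : ℝ) : ℂ) * Complex.I

theorem frame_mem_latG {g : GG p} {z : ℂ} : z ∈ latG p g ↔ ∃ a b : ℚ, InZp p a ∧ InZp p b ∧
    ‖g.2 0 0 * a + g.2 0 1 * b‖ ≤ 1 ∧ ‖g.2 1 0 * a + g.2 1 1 * b‖ ≤ 1 ∧ z = frame_ph g.1 a b := by
  constructor
  · rintro ⟨v, h1, h2, rfl⟩
    exact ⟨v 0, v 1, h1 0, h1 1, h2 0, h2 1, rfl⟩
  · rintro ⟨a, b, h1, h2, h3, h4, rfl⟩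
    refine ⟨![a, b], fun i => ?_, fun i => ?_, rfl⟩
    · fin_cases i
      · exact h1
      · exact h2
    · fin_cases i
      · exact h3
      · exact h4

theorem frame_det {F : Type} [CommRing F] (g : SL(2, F)) : g 0 0 * g 1 1 - g 0 1 * g 1 0 = 1 := by
  have := g.det_coe
  rwa [Matrix.det_fin_two] at this

theorem frame_ph_inj (g : SL(2, ℝ)) {a b a' b' : ℚ} (h : frame_ph g a b = frame_ph g a' b') :
    a = a' ∧ b = b' := by
  have h1 := congrArg Complex.re h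
  have h2 := congrArg Complex.im h
  simp only [frame_ph, Complex.sub_re, Complex.ofReal_re, Complex.mul_re, Complex.I_re, mul_zero,
    Complex.ofReal_im, Complex.I_im, mul_one, sub_self, sub_zero, Complex.sub_im, Complex.mul_im,
    add_zero, zero_sub, neg_inj] at h1 h2
  have hd := frame_det g
  constructor
  · have : (a : ℝ) = a' := by
      linear_combination (g 1 1) * h1 - (g 0 1) * h2 - ((a : ℝ) - a') * hd
    exact_mod_cast this
  · have : (b : ℝ) = b' := by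
      linear_combination (g 0 0) * h2 - (g 1 0) * h1 - ((b : ℝ) - b') * hd
    exact_mod_cast this

theorem frame_ph_mul (g : SL(2, ℝ)) (c a b : ℚ) :
    (c : ℂ) * frame_ph g a b = frame_ph g (c * a) (c * b) := by
  simp only [frame_ph]; push_cast; ring

theorem frame_add_le {x y : ℚ_[p]} (hx : ‖x‖ ≤ 1) (hy : ‖y‖ ≤ 1) : ‖x + y‖ ≤ 1 :=
  (Padic.nonarchimedean _ _).trans (max_le hx hy)

theorem frame_mul_le {x y : ℚ_[p]} (hx : ‖x‖ ≤ 1) (hy : ‖y‖ ≤ 1) : ‖x * y‖ ≤ 1 := by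
  rw [norm_mul]; exact mul_le_one₀ hx (norm_nonneg _) hy

theorem frame_neg_le {x : ℚ_[p]} (hx : ‖x‖ ≤ 1) : ‖-x‖ ≤ 1 := by rwa [norm_neg]

theorem frame_K_le {k : SL(2, ℚ_[p])} (hk : k ∈ Kp p) {a b : ℚ_[p]} (ha : ‖a‖ ≤ 1)
    (hb : ‖b‖ ≤ 1) (i : Fin 2) : ‖k i 0 * a + k i 1 * b‖ ≤ 1 :=
  frame_add_le p (frame_mul_le p (hk i 0) ha) (frame_mul_le p (hk i 1) hb)

theorem frame_K_inv {k : SL(2, ℚ_[p])} (hk : k ∈ Kp p) {a b : ℚ_[p]}
    (ha : ‖k 0 0 * a + k 0 1 * b‖ ≤ 1) (hb : ‖k 1 0 * a + k 1 1 * b‖ ≤ 1) :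
    ‖a‖ ≤ 1 ∧ ‖b‖ ≤ 1 := by
  have hd := frame_det k
  constructor
  · have : a = k 1 1 * (k 0 0 * a + k 0 1 * b) + -(k 0 1 * (k 1 0 * a + k 1 1 * b)) := by
      linear_combination (-a) * hd
    rw [this]
    exact frame_add_le p (frame_mul_le p (hk 1 1) ha) (frame_neg_le p (frame_mul_le p (hk 0 1) hb))
  · have : b = k 0 0 * (k 1 0 * a + k 1 1 * b) + -(k 1 0 * (k 0 0 * a + k 0 1 * b)) := by
      linear_combination (-b) * hd
    rw [this]
    exact frame_add_le p (frame_mul_le p (hk 0 0) hb) (frame_neg_le p (frame_mul_le p (hk 1 0) ha))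

theorem frame_den {x : ℚ} (h : ‖(x : ℚ_[p])‖ ≤ 1) : ¬ (p : ℤ) ∣ (x.den : ℤ) := by
  intro hd
  have h1 : ‖((x.den : ℤ) : ℚ_[p])‖ < 1 := Padic.norm_intCast_lt_one_iff.2 hd
  have h2 : ((x.num : ℤ) : ℚ_[p]) = (x : ℚ_[p]) * ((x.den : ℤ) : ℚ_[p]) := by
    have := congrArg (fun z : ℚ => (z : ℚ_[p])) (Rat.mul_den_eq_num x)
    simp only [Rat.cast_mul, Rat.cast_natCast, Rat.cast_intCast] at this
    rw [← this, Int.cast_natCast]
  have h3 : ‖((x.num : ℤ) : ℚ_[p])‖ < 1 := by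
    rw [h2, norm_mul]
    exact lt_of_le_of_lt (mul_le_of_le_one_left (norm_nonneg _) h) h1
  have h4 : (p : ℤ) ∣ x.num := Padic.norm_intCast_lt_one_iff.1 h3
  have h5 : IsCoprime x.num (x.den : ℤ) := by
    rw [Int.isCoprime_iff_gcd_eq_one]; exact x.reduced
  exact (Nat.prime_iff_prime_int.1 (Fact.out : p.Prime)).not_unit (h5.isUnit_of_dvd' h4 hd)

theorem frame_int {x : ℚ} (h1 : InZp p x) (h2 : ‖(x : ℚ_[p])‖ ≤ 1) : ∃ n : ℤ, x = n := by
  obtain ⟨a, m, hm⟩ := h1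
  have hp' : (p : ℚ) ≠ 0 := by exact_mod_cast (Fact.out : p.Prime).ne_zero
  have h6 : ‖((m : ℤ) : ℚ_[p])‖ ≤ (p : ℝ) ^ (-(a : ℤ)) := by
    have : ((m : ℤ) : ℚ_[p]) = (p : ℚ_[p]) ^ a * (x : ℚ_[p]) := by
      have := congrArg (fun z : ℚ => (z : ℚ_[p])) hm
      simpa using this.symm
    rw [this, norm_mul, norm_pow, Padic.norm_p, zpow_neg, zpow_natCast, inv_pow]
    exact mul_le_of_le_one_right (by positivity) h2
  obtain ⟨n, hn'⟩ := (Padic.norm_int_le_pow_iff_dvd m a).1 h6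
  refine ⟨n, mul_left_cancel₀ (pow_ne_zero a hp') ?_⟩
  rw [hm, hn']; push_cast; ring

theorem frame_latG_le (g : GG p) {γ : GG p} (hγ : γ ∈ Gam p) : latG p (g * γ) ≤ latG p g := by
  obtain ⟨δ, hδ, rfl⟩ := hγ
  intro z hz
  obtain ⟨a, b, ha, hb, h0, h1, rfl⟩ := (frame_mem_latG p).1 hz
  have e2 : ∀ i j, (g * emb p δ).2 i j = g.2 i 0 * (δ 0 j : ℚ_[p]) + g.2 i 1 * (δ 1 j : ℚ_[p]) := by
    intro i j
    simp [emb, Matrix.mul_apply, Fin.sum_univ_two]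
  have e1 : ∀ i j, (g * emb p δ).1 i j = g.1 i 0 * (δ 0 j : ℝ) + g.1 i 1 * (δ 1 j : ℝ) := by
    intro i j
    simp [emb, Matrix.mul_apply, Fin.sum_univ_two]
  refine (frame_mem_latG p).2 ⟨δ 0 0 * a + δ 0 1 * b, δ 1 0 * a + δ 1 1 * b,
    ((hδ 0 0).mul ha).add ((hδ 0 1).mul hb), ((hδ 1 0).mul ha).add ((hδ 1 1).mul hb), ?_, ?_, ?_⟩
  · refine le_trans (le_of_eq ?_) h0
    congr 1; rw [e2, e2]; push_cast; ring
  · refine le_trans (le_of_eq ?_) h1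
    congr 1; rw [e2, e2]; push_cast; ring
  · simp only [frame_ph, e1]; push_cast; ring

theorem latG_mul_Gam (g : GG p) {γ : GG p} (hγ : γ ∈ Gam p) : latG p (g * γ) = latG p g := by
  refine le_antisymm (frame_latG_le p g hγ) ?_
  have := frame_latG_le p (g * γ) ((Gam p).inv_mem hγ)
  rwa [mul_inv_cancel_right] at this

theorem latG_K {g : GG p} (hg : g.2 ∈ Kp p) :
    latG p g = sp ((g.1 0 0 : ℂ) - g.1 1 0 * Complex.I) ((g.1 0 1 : ℂ) - g.1 1 1 * Complex.I) := by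
  ext z
  rw [frame_mem_latG, mem_sp]
  constructor
  · rintro ⟨a, b, ha, hb, h0, h1, rfl⟩
    obtain ⟨ha', hb'⟩ := frame_K_inv p hg h0 h1
    obtain ⟨m, rfl⟩ := frame_int p ha ha'
    obtain ⟨n, rfl⟩ := frame_int p hb hb'
    refine ⟨m, n, ?_⟩
    simp only [frame_ph]; push_cast; ring
  · rintro ⟨m, n, rfl⟩
    have hm : ‖(((m : ℚ)) : ℚ_[p])‖ ≤ 1 := by simpa using Padic.norm_int_le_one (p := p) m
    have hn : ‖(((n : ℚ)) : ℚ_[p])‖ ≤ 1 := by simpa using Padic.norm_int_le_one (p := p) n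
    refine ⟨m, n, inZp_int p m, inZp_int p n, frame_K_le p hg hm hn 0, frame_K_le p hg hm hn 1, ?_⟩
    simp only [frame_ph]; push_cast; ring

theorem frame_sp_neg (a b : ℂ) : sp a (-b) = sp a b := by
  ext z
  rw [mem_sp, mem_sp]
  constructor
  · rintro ⟨m, n, rfl⟩
    exact ⟨m, -n, by push_cast; ring⟩
  · rintro ⟨m, n, rfl⟩
    exact ⟨m, -n, by push_cast; ring⟩

theorem latG_spec (g : GG p) : IsLat (latG p g) ∧ jL (latG p g) = piX p (g : XX p) := by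
  obtain ⟨h, hh, e⟩ := exists_rep p (g : XX p)
  have hγ : h⁻¹ * g ∈ Gam p := QuotientGroup.eq.1 e
  have e1 : latG p g = latG p h := by
    rw [← latG_mul_Gam p h hγ, mul_inv_cancel_left]
  have hd := frame_det h.1
  have hc : ((h.1 0 0 : ℂ) - h.1 1 0 * Complex.I) ≠ 0 := by
    intro h0
    have h1 := congrArg Complex.re h0
    have h2 := congrArg Complex.im h0
    simp at h1 h2
    rw [h1, h2] at hd
    simp at hd
  have e2 : ((h.1 0 0 : ℂ) - h.1 1 0 * Complex.I) * ((h.1⁻¹ • UpperHalfPlane.I : ℍ) : ℂ) =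
      -((h.1 0 1 : ℂ) - h.1 1 1 * Complex.I) := by
    rw [coe_specialLinearGroup_apply, Matrix.SpecialLinearGroup.SL2_inv_expl]
    have hc' : -(h.1 1 0 : ℂ) * Complex.I + h.1 0 0 ≠ 0 := by
      intro h0; apply hc; linear_combination h0
    simp only [Fin.isValue, Matrix.of_apply, Matrix.cons_val', Matrix.cons_val_zero,
      Matrix.cons_val_one, Matrix.cons_val_fin_one, Algebra.algebraMap_self, RingHom.id_apply,
      coe_I, Complex.ofReal_neg]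
    rw [← mul_div_assoc, div_eq_iff hc']
    ring
  have e3 : latG p g = sp ((h.1 0 0 : ℂ) - h.1 1 0 * Complex.I)
      (((h.1 0 0 : ℂ) - h.1 1 0 * Complex.I) * ((h.1⁻¹ • UpperHalfPlane.I : ℍ) : ℂ)) := by
    rw [e1, latG_K p hh, e2, frame_sp_neg]
  refine ⟨e3 ▸ isLat_sp hc _, ?_⟩
  rw [e3, jL_sp hc, ← e, piX, toY_mk p hh, jY_mk]

/-- A frame adapted to a CM point of discriminant `D`: `Θ` is the matrix of `√D`. -/
def Frame (D : ℤ) (x : XX p) (e : ℚ_[p]) : Prop :=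
  ∃ (g : GG p) (Θ : Matrix (Fin 2) (Fin 2) ℤ), (g : XX p) = x ∧ g.2 ∈ Kp p ∧
    (g.1 : Matrix (Fin 2) (Fin 2) ℝ) * Θ.map (↑) =
      !![0, Real.sqrt (-(D : ℝ)); -Real.sqrt (-(D : ℝ)), 0] * (g.1 : Matrix (Fin 2) (Fin 2) ℝ) ∧
    (g.2 : Matrix (Fin 2) (Fin 2) ℚ_[p]) * Θ.map (↑) =
      !![0, e; D / e, 0] * (g.2 : Matrix (Fin 2) (Fin 2) ℚ_[p]) ∧ ‖e‖ = ‖(2 : ℚ_[p])‖

theorem frame_real {τ : ℍ} {a b c : ℤ} (ha : 0 < a)
    (h : (a : ℂ) * (τ : ℂ) ^ 2 + b * τ + c = 0) :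
    ∃ g : SL(2, ℝ), g⁻¹ • UpperHalfPlane.I = τ ∧
      (g : Matrix (Fin 2) (Fin 2) ℝ) * (!![b, 2 * c; -(2 * a), -b] : Matrix (Fin 2) (Fin 2) ℤ).map (↑) =
        !![0, Real.sqrt (-((b ^ 2 - 4 * a * c : ℤ) : ℝ));
          -Real.sqrt (-((b ^ 2 - 4 * a * c : ℤ) : ℝ)), 0] * (g : Matrix (Fin 2) (Fin 2) ℝ) := by
  have hr := HasDisc.root ha h
  set δ : ℝ := Real.sqrt (-((b ^ 2 - 4 * a * c : ℤ) : ℝ)) with hδ
  have h1 : 2 * (a : ℝ) * τ.re + b = 0 := by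
    have := congrArg Complex.re hr
    simpa [th] using this
  have h2 : 2 * (a : ℝ) * τ.im = δ := by
    have := congrArg Complex.im hr
    simpa [th, hδ] using this
  have h3 : (a : ℝ) * (τ.re ^ 2 - τ.im ^ 2) + b * τ.re + c = 0 := by
    have := congrArg Complex.re h
    simpa [pow_two] using this
  have hy := τ.im_pos
  obtain ⟨s, hs, hs2⟩ : ∃ s : ℝ, 0 < s ∧ s * s = τ.im :=
    ⟨Real.sqrt τ.im, Real.sqrt_pos.2 hy, Real.mul_self_sqrt hy.le⟩
  refine ⟨⟨!![s⁻¹, -τ.re * s⁻¹; 0, s], by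
    rw [Matrix.det_fin_two_of]; field_simp; ring⟩, ?_, ?_⟩
  · apply UpperHalfPlane.ext
    rw [coe_specialLinearGroup_apply, Matrix.SpecialLinearGroup.SL2_inv_expl]
    simp only [Fin.isValue, Matrix.of_apply, Matrix.cons_val', Matrix.cons_val_zero,
      Matrix.cons_val_one, Matrix.cons_val_fin_one, Algebra.algebraMap_self, RingHom.id_apply,
      coe_I, Complex.ofReal_neg]
    have hs' : (s : ℂ) ≠ 0 := by exact_mod_cast hs.ne'
    have hs3 : (s : ℂ) * s = τ.im := by exact_mod_cast hs2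
    have hτ : (τ : ℂ) = τ.re + τ.im * Complex.I := (Complex.re_add_im (τ : ℂ)).symm
    rw [hτ, ← hs3]
    push_cast
    field_simp
    ring
  · ext i j
    fin_cases i <;> fin_cases j <;>
      simp only [Matrix.mul_apply, Fin.sum_univ_two, Matrix.map_apply, Matrix.of_apply,
        Matrix.cons_val', Matrix.cons_val_zero, Matrix.cons_val_one, Matrix.cons_val_fin_one,
        Fin.zero_eta, Fin.mk_one, Fin.isValue] <;> push_cast
    · field_simp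
      linear_combination h1
    · field_simp
      linear_combination 2 * h3 - τ.re * h1 + (τ.im) * h2 - δ * hs2
    · field_simp
      linear_combination - h2 - 2 * a * hs2
    · field_simp
      linear_combination τ.re * h2 - (b : ℝ) * hs2 - τ.im * h1

theorem frame_unit {a b c : ℤ} (h : Int.gcd (Int.gcd a b) c = 1) :
    ∃ u v : ℤ, ¬ (p : ℤ) ∣ a * u ^ 2 + b * u * v + c * v ^ 2 := by
  by_contra hcon
  push Not at hcon
  have h1 := hcon 1 0
  have h2 := hcon 0 1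
  have h3 := hcon 1 1
  simp only [one_pow, mul_one, mul_zero, add_zero, ne_eq, OfNat.ofNat_ne_zero, not_false_eq_true,
    zero_pow, zero_add] at h1 h2 h3
  have h4 : (p : ℤ) ∣ b := by
    have := (h3.sub h1).sub h2
    rwa [show a + b + c - a - c = b by ring] at this
  have h5 : (p : ℤ) ∣ (Int.gcd a b : ℤ) := Int.dvd_coe_gcd h1 h4
  have h6 : (p : ℤ) ∣ (Int.gcd (Int.gcd a b) c : ℤ) := Int.dvd_coe_gcd h5 h2
  rw [h] at h6
  exact (Nat.prime_iff_prime_int.1 (Fact.out : p.Prime)).not_dvd_one h6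

theorem frame_two_ne : (2 : ℚ_[p]) ≠ 0 := two_ne_zero

theorem frame_four : ‖(4 : ℚ_[p])‖ = ‖(2 : ℚ_[p])‖ ^ 2 := by
  rw [← norm_pow]; norm_num

theorem frame_padic {a b c : ℤ} (h : Int.gcd (Int.gcd a b) c = 1)
    (hD : ‖((b ^ 2 - 4 * a * c : ℤ) : ℚ_[p])‖ ≤ ‖(4 : ℚ_[p])‖) :
    ∃ (k : SL(2, ℚ_[p])) (e : ℚ_[p]), k ∈ Kp p ∧
      (k : Matrix (Fin 2) (Fin 2) ℚ_[p]) *
          (!![b, 2 * c; -(2 * a), -b] : Matrix (Fin 2) (Fin 2) ℤ).map (↑) =
        !![0, e; ((b ^ 2 - 4 * a * c : ℤ) : ℚ_[p]) / e, 0] * (k : Matrix (Fin 2) (Fin 2) ℚ_[p]) ∧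
      ‖e‖ = ‖(2 : ℚ_[p])‖ := by
  obtain ⟨u, v, huv⟩ := frame_unit p h
  set Q : ℚ_[p] := a * u ^ 2 + b * u * v + c * v ^ 2 with hQ
  have hQ1 : ‖Q‖ = 1 := by
    have h1 : ¬ ‖((a * u ^ 2 + b * u * v + c * v ^ 2 : ℤ) : ℚ_[p])‖ < 1 := fun h' =>
      huv (Padic.norm_intCast_lt_one_iff.1 h')
    have h2 := Padic.norm_int_le_one (p := p) (a * u ^ 2 + b * u * v + c * v ^ 2)
    have h3 := le_antisymm h2 (not_lt.1 h1)
    rw [← h3, hQ]; push_cast; rfl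
  have hQ0 : Q ≠ 0 := by
    intro h0; rw [h0, norm_zero] at hQ1; exact zero_ne_one hQ1
  have h2 := frame_two_ne p
  have h2n : 0 < ‖(2 : ℚ_[p])‖ := norm_pos_iff.2 h2
  have hi : ∀ n : ℤ, ‖(n : ℚ_[p])‖ ≤ 1 := Padic.norm_int_le_one
  have hb : ‖(b : ℚ_[p]) / 2‖ ≤ 1 := by
    have h4 : ‖(b : ℚ_[p]) ^ 2‖ ≤ ‖(4 : ℚ_[p])‖ := by
      have e : (b : ℚ_[p]) ^ 2 = ((b ^ 2 - 4 * a * c : ℤ) : ℚ_[p]) + 4 * ((a * c : ℤ) : ℚ_[p]) := by
        push_cast; ring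
      rw [e]
      refine (Padic.nonarchimedean _ _).trans (max_le hD ?_)
      rw [norm_mul]
      exact mul_le_of_le_one_right (norm_nonneg _) (hi _)
    rw [norm_pow, frame_four] at h4
    rw [norm_div, div_le_one h2n]
    exact (pow_le_pow_iff_left₀ (norm_nonneg _) (norm_nonneg _) two_ne_zero).1 h4
  have hQi : ‖Q⁻¹‖ ≤ 1 := by rw [norm_inv, hQ1, inv_one]
  refine ⟨⟨!![(v : ℚ_[p]), -(u : ℚ_[p]); (a * u + b / 2 * v) * Q⁻¹, (b / 2 * u + c * v) * Q⁻¹], by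
    rw [Matrix.det_fin_two_of]; field_simp; rw [hQ]; ring⟩, 2 * Q, ?_, ?_, ?_⟩
  · intro i j
    fin_cases i <;> fin_cases j
    · exact hi v
    · exact frame_neg_le p (hi u)
    · exact frame_mul_le p (frame_add_le p (frame_mul_le p (hi a) (hi u))
        (frame_mul_le p hb (hi v))) hQi
    · exact frame_mul_le p (frame_add_le p (frame_mul_le p hb (hi u))
        (frame_mul_le p (hi c) (hi v))) hQi
  · ext i j
    fin_cases i <;> fin_cases j <;>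
      simp only [Matrix.mul_apply, Fin.sum_univ_two, Matrix.map_apply, Matrix.of_apply,
        Matrix.cons_val', Matrix.cons_val_zero, Matrix.cons_val_one, Matrix.cons_val_fin_one,
        Fin.zero_eta, Fin.mk_one, Fin.isValue] <;> push_cast <;> field_simp <;> ring
  · rw [norm_mul, hQ1, mul_one]

theorem exists_frame_aux {τ : ℍ} {D : ℤ} (h : HasDisc τ D)
    (hD : ‖(D : ℚ_[p])‖ ≤ ‖(4 : ℚ_[p])‖) :
    ∃ (x : XX p) (e : ℚ_[p]), Frame p D x e ∧ piX p x = jInv τ := by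
  obtain ⟨a, b, c, ha, hg, hr, rfl⟩ := h
  obtain ⟨g, hg1, hg2⟩ := frame_real ha hr
  obtain ⟨k, e, hk1, hk2, hk3⟩ := frame_padic p hg hD
  refine ⟨(((g, k) : GG p) : XX p), e, ⟨(g, k), _, rfl, hk1, hg2, hk2, hk3⟩, ?_⟩
  rw [piX, toY_mk p (g := (g, k)) hk1, jY_mk, hg1]

theorem frame_entries {F : Type} [CommRing F] {g : Matrix (Fin 2) (Fin 2) F}
    {Θ : Matrix (Fin 2) (Fin 2) ℤ} {r s : F} (h : g * Θ.map (↑) = !![0, r; s, 0] * g) :
    g 0 0 * Θ 0 0 + g 0 1 * Θ 1 0 = r * g 1 0 ∧ g 0 0 * Θ 0 1 + g 0 1 * Θ 1 1 = r * g 1 1 ∧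
      g 1 0 * Θ 0 0 + g 1 1 * Θ 1 0 = s * g 0 0 ∧ g 1 0 * Θ 0 1 + g 1 1 * Θ 1 1 = s * g 0 1 := by
  have h00 := congrFun (congrFun h 0) 0
  have h01 := congrFun (congrFun h 0) 1
  have h10 := congrFun (congrFun h 1) 0
  have h11 := congrFun (congrFun h 1) 1
  simp only [Matrix.mul_apply, Fin.sum_univ_two, Matrix.map_apply, Matrix.of_apply,
    Matrix.cons_val', Matrix.cons_val_zero, Matrix.cons_val_one, Matrix.cons_val_fin_one,
    Fin.isValue, zero_mul, zero_add, add_zero] at h00 h01 h10 h11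
  exact ⟨h00, h01, h10, h11⟩

theorem frame_th_ph {D : ℤ} {g : SL(2, ℝ)} {Θ : Matrix (Fin 2) (Fin 2) ℤ}
    (h : (g : Matrix (Fin 2) (Fin 2) ℝ) * Θ.map (↑) =
      !![0, Real.sqrt (-(D : ℝ)); -Real.sqrt (-(D : ℝ)), 0] * (g : Matrix (Fin 2) (Fin 2) ℝ))
    (y a b : ℚ) : (1 + y * th D) * frame_ph g a b =
      frame_ph g (a + y * (Θ 0 0 * a + Θ 0 1 * b)) (b + y * (Θ 1 0 * a + Θ 1 1 * b)) := by
  obtain ⟨h1, h2, h3, h4⟩ := frame_entries h
  have c1 := congrArg (fun x : ℝ => (x : ℂ)) h1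
  have c2 := congrArg (fun x : ℝ => (x : ℂ)) h2
  have c3 := congrArg (fun x : ℝ => (x : ℂ)) h3
  have c4 := congrArg (fun x : ℝ => (x : ℂ)) h4
  simp only [frame_ph, th]
  generalize Real.sqrt (-(D : ℝ)) = δ at c1 c2 c3 c4 ⊢
  push_cast at c1 c2 c3 c4 ⊢
  linear_combination (-(y : ℂ) * a) * c1 - (y : ℂ) * b * c2 + (y : ℂ) * a * Complex.I * c3 +
    (y : ℂ) * b * Complex.I * c4 - (y : ℂ) * δ * ((g 1 0 : ℂ) * a + g 1 1 * b) * Complex.I_mul_I

theorem frame_inZp_div {x : ℚ} (h : InZp p x) (n : ℕ) : InZp p (((p : ℚ) ^ n)⁻¹ * x) := by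
  obtain ⟨a, m, hm⟩ := h
  have hp' : (p : ℚ) ≠ 0 := by exact_mod_cast (Fact.out : p.Prime).ne_zero
  refine ⟨a + n, m, ?_⟩
  rw [← hm]; field_simp; ring

theorem frame_star {D : ℤ} (hD0 : D < 0) (hD : ‖(D : ℚ_[p])‖ ≤ ‖(4 : ℚ_[p])‖) {g : GG p}
    {Θ : Matrix (Fin 2) (Fin 2) ℤ} {e : ℚ_[p]} (hK : g.2 ∈ Kp p)
    (hR : (g.1 : Matrix (Fin 2) (Fin 2) ℝ) * Θ.map (↑) =
      !![0, Real.sqrt (-(D : ℝ)); -Real.sqrt (-(D : ℝ)), 0] * (g.1 : Matrix (Fin 2) (Fin 2) ℝ))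
    (hP : (g.2 : Matrix (Fin 2) (Fin 2) ℚ_[p]) * Θ.map (↑) =
      !![0, e; D / e, 0] * (g.2 : Matrix (Fin 2) (Fin 2) ℚ_[p])) (he : ‖e‖ = ‖(2 : ℚ_[p])‖)
    {y : ℚ} (hy : ‖(y : ℚ_[p]) ^ 2 * D‖ < 1) :
    star p (1 + y * th D) (latG p g) = latG p (uP p (-e * y) * g) := by
  have hpr : Prime (p : ℤ) := Nat.prime_iff_prime_int.1 (Fact.out : p.Prime)
  have hp' : (p : ℚ) ≠ 0 := by exact_mod_cast (Fact.out : p.Prime).ne_zero
  have h2n : 0 < ‖(2 : ℚ_[p])‖ := norm_pos_iff.2 (frame_two_ne p)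
  have he0 : e ≠ 0 := by
    intro h0; rw [h0, norm_zero] at he; exact h2n.ne he
  have hi : ∀ n : ℤ, ‖(((n : ℤ) : ℚ) : ℚ_[p])‖ ≤ 1 := fun n => by
    simpa using Padic.norm_int_le_one (p := p) n
  have hye : ‖(y : ℚ_[p]) * (D / e)‖ ≤ 1 := by
    have h1 : ‖(y : ℚ_[p]) * (D / e)‖ ^ 2 = ‖(y : ℚ_[p]) ^ 2 * D‖ * (‖(D : ℚ_[p])‖ / ‖e‖ ^ 2) := by
      simp only [norm_mul, norm_div, norm_pow]; ring
    have h2 : ‖(D : ℚ_[p])‖ / ‖e‖ ^ 2 ≤ 1 := by
      rw [he, ← frame_four, div_le_one (by rw [frame_four]; positivity)]; exact hD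
    have h3 : ‖(y : ℚ_[p]) * (D / e)‖ ^ 2 ≤ 1 := by
      rw [h1]; exact mul_le_one₀ hy.le (by positivity) h2
    exact (pow_le_one_iff_of_nonneg (norm_nonneg _) two_ne_zero).1 h3
  have hN : ‖1 - (y : ℚ_[p]) ^ 2 * D‖ = 1 := by
    rw [sub_eq_add_neg, Padic.add_eq_max_of_ne (by rw [norm_neg, norm_one]; exact hy.ne'),
      norm_neg, norm_one, max_eq_left hy.le]
  have hN0 : (1 - y ^ 2 * D : ℚ) ≠ 0 := by
    intro h0
    have := congrArg (fun z : ℚ => (z : ℚ_[p])) h0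
    simp only [Rat.cast_sub, Rat.cast_one, Rat.cast_mul, Rat.cast_pow, Rat.cast_intCast,
      Rat.cast_zero] at this
    rw [this, norm_zero] at hN
    exact zero_ne_one hN
  have hN0' : 1 - (y : ℚ_[p]) ^ 2 * D ≠ 0 := by
    intro h0; rw [h0, norm_zero] at hN; exact zero_ne_one hN
  obtain ⟨q1, q2, q3, q4⟩ := frame_entries hP
  have u1 : (uP p (-e * y) * g).1 = g.1 := by simp [uP]
  have u20 : ∀ j, (uP p (-e * y) * g).2 0 j = g.2 0 j + -e * y * g.2 1 j := by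
    intro j; simp [uP, Matrix.mul_apply, Fin.sum_univ_two]
  have u21 : ∀ j, (uP p (-e * y) * g).2 1 j = g.2 1 j := by
    intro j; simp [uP, Matrix.mul_apply, Fin.sum_univ_two]
  ext z
  rw [mem_star, frame_mem_latG p (g := uP p (-e * y) * g), u1, u20, u20, u21, u21]
  constructor
  · rintro ⟨⟨n, hn⟩, m, hm, w, hw, hz⟩
    obtain ⟨a, b, ha, hb, -, -, hab⟩ := (frame_mem_latG p).1 hn
    obtain ⟨c, d, -, -, hc, hd, rfl⟩ := (frame_mem_latG p).1 hw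
    have hz1 : z = frame_ph g.1 (((p : ℚ) ^ n)⁻¹ * a) (((p : ℚ) ^ n)⁻¹ * b) := by
      have hpc : (p : ℂ) ≠ 0 := by exact_mod_cast (Fact.out : p.Prime).ne_zero
      rw [← frame_ph_mul, ← hab]; push_cast; field_simp
    have ha' := frame_inZp_div p ha n
    have hb' := frame_inZp_div p hb n
    generalize ((p : ℚ) ^ n)⁻¹ * a = a' at hz1 ha'
    generalize ((p : ℚ) ^ n)⁻¹ * b = b' at hz1 hb'
    rw [hz1, frame_th_ph hR, show ((m : ℤ) : ℂ) = ((m : ℚ) : ℂ) by simp, frame_ph_mul] at hz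
    obtain ⟨e1, e2⟩ := frame_ph_inj _ hz
    have e1' := congrArg (fun z : ℚ => (z : ℚ_[p])) e1
    have e2' := congrArg (fun z : ℚ => (z : ℚ_[p])) e2
    simp only [Rat.cast_add, Rat.cast_mul, Rat.cast_intCast] at e1' e2'
    have hm1 : ‖(m : ℚ_[p])‖ = 1 :=
      le_antisymm (Padic.norm_int_le_one m) (not_lt.1 fun h' =>
        hm (Padic.norm_intCast_lt_one_iff.1 h'))
    have hDe : (D : ℚ_[p]) = e * (D / e) := by field_simp
    refine ⟨a', b', ha', hb', ?_, ?_, hz1⟩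
    · have : (m : ℚ_[p]) * ((g.2 0 0 + -e * y * g.2 1 0) * a' + (g.2 0 1 + -e * y * g.2 1 1) * b') =
          (1 - (y : ℚ_[p]) ^ 2 * D) * (g.2 0 0 * c + g.2 0 1 * d) := by
        linear_combination (g.2 0 0 + -e * y * g.2 1 0) * e1' + (g.2 0 1 + -e * y * g.2 1 1) * e2' +
          (y : ℚ_[p]) * c * q1 + (y : ℚ_[p]) * d * q2 - e * (y : ℚ_[p]) ^ 2 * c * q3 -
          e * (y : ℚ_[p]) ^ 2 * d * q4 + (y : ℚ_[p]) ^ 2 * (g.2 0 0 * c + g.2 0 1 * d) * hDe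
      have h5 := congrArg norm this
      rw [norm_mul, norm_mul, hm1, hN, one_mul, one_mul] at h5
      rwa [h5]
    · have : (m : ℚ_[p]) * (g.2 1 0 * a' + g.2 1 1 * b') = (g.2 1 0 * c + g.2 1 1 * d) +
          (y : ℚ_[p]) * (D / e) * (g.2 0 0 * c + g.2 0 1 * d) := by
        linear_combination (g.2 1 0) * e1' + (g.2 1 1) * e2' +
          (y : ℚ_[p]) * c * q3 + (y : ℚ_[p]) * d * q4
      have h5 := congrArg norm this
      rw [norm_mul, hm1, one_mul] at h5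
      rw [h5]
      exact frame_add_le p hd (frame_mul_le p hye hc)
  · rintro ⟨a, b, ha, hb, h0, h1, rfl⟩
    constructor
    · obtain ⟨n, m, hm⟩ := ha
      obtain ⟨n', m', hm'⟩ := hb
      refine ⟨n + n', (frame_mem_latG p).2 ⟨((p ^ n' * m : ℤ) : ℚ), ((p ^ n * m' : ℤ) : ℚ),
        inZp_int p _, inZp_int p _, frame_K_le p hK (hi _) (hi _) 0,
        frame_K_le p hK (hi _) (hi _) 1, ?_⟩⟩
      rw [show (p : ℂ) ^ (n + n') = (((p : ℚ) ^ (n + n') : ℚ) : ℂ) by push_cast; rfl, frame_ph_mul]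
      congr 1
      · push_cast; rw [← hm]; ring
      · push_cast; rw [← hm']; ring
    · set c : ℚ := (1 - y ^ 2 * D)⁻¹ * (a + (-y) * (Θ 0 0 * a + Θ 0 1 * b)) with hc
      set d : ℚ := (1 - y ^ 2 * D)⁻¹ * (b + (-y) * (Θ 1 0 * a + Θ 1 1 * b)) with hd
      have hDe : (D : ℚ_[p]) = e * (D / e) := by field_simp
      have k0 : ‖g.2 0 0 * c + g.2 0 1 * d‖ ≤ 1 := by
        have : (1 - (y : ℚ_[p]) ^ 2 * D) * (g.2 0 0 * c + g.2 0 1 * d) =
            (g.2 0 0 + -e * y * g.2 1 0) * a + (g.2 0 1 + -e * y * g.2 1 1) * b := by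
          rw [hc, hd]; push_cast; field_simp
          linear_combination (-(y : ℚ_[p]) * a) * q1 - (y : ℚ_[p]) * b * q2
        have h5 := congrArg norm this
        rw [norm_mul, hN, one_mul] at h5
        rwa [h5]
      have k1 : ‖g.2 1 0 * c + g.2 1 1 * d‖ ≤ 1 := by
        have : (1 - (y : ℚ_[p]) ^ 2 * D) * (g.2 1 0 * c + g.2 1 1 * d) =
            (1 - (y : ℚ_[p]) ^ 2 * D) * (g.2 1 0 * a + g.2 1 1 * b) + -((y : ℚ_[p]) * (D / e) *
            ((g.2 0 0 + -e * y * g.2 1 0) * a + (g.2 0 1 + -e * y * g.2 1 1) * b)) := by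
          rw [hc, hd]; push_cast
          generalize (D : ℚ_[p]) / e = f at hDe q3 q4 ⊢
          field_simp
          linear_combination (-(y : ℚ_[p]) * a) * q3 - (y : ℚ_[p]) * b * q4 +
            (y : ℚ_[p]) ^ 2 * (g.2 1 0 * a + g.2 1 1 * b) * hDe
        have h5 := congrArg norm this
        rw [norm_mul, hN, one_mul] at h5
        rw [h5]
        exact frame_add_le p (frame_mul_le p hN.le h1) (frame_neg_le p (frame_mul_le p hye h0))
      obtain ⟨hc1, hd1⟩ := frame_K_inv p hK k0 k1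
      refine ⟨(c.den : ℤ) * (d.den : ℤ), hpr.not_dvd_mul (frame_den p hc1) (frame_den p hd1),
        frame_ph g.1 ((c.num * d.den : ℤ) : ℚ) ((c.den * d.num : ℤ) : ℚ),
        (frame_mem_latG p).2 ⟨_, _, inZp_int p _, inZp_int p _, frame_K_le p hK (hi _) (hi _) 0,
          frame_K_le p hK (hi _) (hi _) 1, rfl⟩, ?_⟩
      have e1 : ((c.num * d.den : ℤ) : ℚ) = ((c.den : ℚ) * d.den) * c := by
        push_cast; rw [← Rat.mul_den_eq_num c]; ring
      have e2 : ((c.den * d.num : ℤ) : ℚ) = ((c.den : ℚ) * d.den) * d := by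
        push_cast; rw [← Rat.mul_den_eq_num d]; ring
      have e3 : (1 + y * th D) * frame_ph g.1 c d = frame_ph g.1 a b := by
        rw [hc, hd, ← frame_ph_mul, ← frame_th_ph hR]
        have hth := th_sq hD0.le
        have hNc : (1 - (y : ℂ) ^ 2 * D) ≠ 0 := by exact_mod_cast hN0
        push_cast
        field_simp
        linear_combination (-(y : ℂ) ^ 2 * frame_ph g.1 a b) * hth
      rw [e1, e2, ← frame_ph_mul, ← e3]
      push_cast; ring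

theorem Frame.move {D : ℤ} (hD0 : D < 0) (hD : ‖(D : ℚ_[p])‖ ≤ ‖(4 : ℚ_[p])‖) {x : XX p}
    {e : ℚ_[p]} (h : Frame p D x e) {Λ : Lt} (hΛ : IsLat Λ) (hj : jL Λ = piX p x) {y : ℚ}
    (hy : ‖(y : ℚ_[p]) ^ 2 * D‖ < 1) :
    piX p (uP p (-e * y) • x) = jL (star p (1 + y * th D) Λ) := by
  obtain ⟨g, Θ, rfl, hK, hR, hP, he⟩ := h
  obtain ⟨h1, h2⟩ := latG_spec p g
  obtain ⟨c, hc, rfl⟩ := jL_inj h1 hΛ (h2.trans hj.symm)
  obtain ⟨h3, h4⟩ := latG_spec p (uP p (-e * y) * g)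
  rw [star_pr_mul p _ hc, frame_star p hD0 hD hK hR hP he hy, jL_pr_mul h3 hc, h4]
  rfl

theorem frame_two_ge : (p : ℝ) ^ (-2 : ℤ) ≤ ‖(4 : ℚ_[p])‖ := by
  have hp : (1 : ℝ) ≤ p := by exact_mod_cast (Fact.out : p.Prime).one_lt.le
  have h1 : (p : ℝ)⁻¹ ≤ ‖(2 : ℚ_[p])‖ := by
    by_cases h : p = 2
    · have := Padic.norm_p (p := p)
      have h2 : ((p : ℕ) : ℚ_[p]) = ((2 : ℕ) : ℚ_[p]) := congrArg Nat.cast h
      rw [← this, h2]; simp
    · have h2 : ¬ ‖((2 : ℕ) : ℚ_[p])‖ < 1 := fun h' => h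
        ((Nat.prime_dvd_prime_iff_eq Fact.out Nat.prime_two).1 (Padic.norm_natCast_lt_one_iff.1 h'))
      have h3 : (1 : ℝ) ≤ ‖(2 : ℚ_[p])‖ := by simpa using h2
      exact (inv_le_one_of_one_le₀ hp).trans h3
  rw [frame_four, zpow_neg, zpow_ofNat, ← inv_pow]
  exact pow_le_pow_left₀ (by positivity) h1 2

theorem exists_frame {τ : ℍ} {D : ℤ} (h : HasDisc τ D) : ∃ (x : XX p) (e : ℚ_[p]),
    piX p x = jInv τ ∧ (‖(D : ℚ_[p])‖ ≤ ‖(4 : ℚ_[p])‖ → Frame p D x e) ∧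
      (¬ ‖(D : ℚ_[p])‖ ≤ ‖(4 : ℚ_[p])‖ → e = 0) ∧
      ∀ y : ℚ, ‖(y : ℚ_[p]) ^ 2 * D‖ ≤ (p : ℝ) ^ (-2 : ℤ) →
        piX p (uP p (-e * y) • x) = jL (star p (1 + y * th D) (sp 1 τ)) := by
  have hp : (1 : ℝ) < p := by exact_mod_cast (Fact.out : p.Prime).one_lt
  have hlt : (p : ℝ) ^ (-2 : ℤ) < 1 := zpow_lt_one_of_neg₀ hp (by norm_num)
  by_cases hD : ‖(D : ℚ_[p])‖ ≤ ‖(4 : ℚ_[p])‖
  · obtain ⟨x, e, h1, h2⟩ := exists_frame_aux p h hD
    refine ⟨x, e, h2, fun _ => h1, fun h' => absurd hD h', fun y hy => ?_⟩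
    exact h1.move p h.isD.1 hD (isLat_one τ) ((jL_one τ).trans h2.symm) (hy.trans_lt hlt)
  · obtain ⟨a, b, c, ha, -, hr, -⟩ := id h
    obtain ⟨g, hg1, -⟩ := frame_real ha hr
    have hx : piX p (((g, 1) : GG p) : XX p) = jInv τ := by
      rw [piX, toY_mk p (g := (g, 1)) (Kp p).one_mem, jY_mk, hg1]
    refine ⟨_, 0, hx, fun h' => absurd h' hD, fun _ => rfl, fun y hy => ?_⟩
    have hy1 : ‖(y : ℚ_[p])‖ ≤ 1 := by
      by_contra hcon
      push Not at hcon hD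
      have h3 := frame_two_ge p
      rw [norm_mul, norm_pow] at hy
      have h4 : 1 ≤ ‖(y : ℚ_[p])‖ ^ 2 := one_le_pow₀ hcon.le
      have h5 := mul_le_mul_of_nonneg_right h4 (norm_nonneg (D : ℚ_[p]))
      linarith
    rw [star_triv p (discL_one h) hy1 (hy.trans_lt hlt), jL_one, neg_zero, zero_mul, uP_zero,
      one_smul, hx]

end Pool.Agent.EQ
end
end

-- part Pool.Agent.P.MP_ad7a55_nt.HP
section

/-! The H-principle and local rigidity. -/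

set_option autoImplicit false

noncomputable section

open MeasureTheory Topology Filter UpperHalfPlane
open scoped MatrixGroups ENNReal BoundedContinuousFunction

namespace Pool.Agent.EQ

variable (p : ℕ) [Fact p.Prime] {κ : Type} [Fintype κ] [DecidableEq κ]

/-- Local rigidity on `C`. -/
def Rigid (ρ : Measure (κ → XX p)) (m : κ) (C : Set (κ → XX p)) (V : Set (κ → GG p)) : Prop :=
  ∀ w ∈ C, ∀ g ∈ V, g • w ∈ C → (∀ k, k ≠ m → (g k).2 = 1) →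
    g ∈ Stab (κ → GG p) ρ ∧ (g m).2 1 0 = 0 ∧ (g m).2 0 0 = (g m).2 1 1

/-- The time scale at which a small nonconstant quadratic polynomial reaches the size `R`. -/
theorem hp_poly {b β γ : ℚ_[p]} {R : ℝ} (hR : 1 ≤ R) (hb : ‖b‖ ≤ 1) (hβ : ‖β‖ ≤ 1)
    (hγ : ‖γ‖ ≤ 1) (hne : β ≠ 0 ∨ γ ≠ 0) :
    ∃ k : ℕ, (∀ s : ℚ_[p], ‖s‖ ≤ (p : ℝ) ^ (k : ℤ) →
        ‖b + β * s + γ * s ^ 2‖ ≤ R * (p : ℝ) ^ 10 ∧ ‖γ * s ^ 2‖ ≤ R * (p : ℝ) ^ 10) ∧
      bm p k {s | ‖b + β * s + γ * s ^ 2‖ ≤ R} ≤ 4⁻¹ := by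
  classical
  have hp2 : (2 : ℝ) ≤ p := by exact_mod_cast (Fact.out : p.Prime).two_le
  have hp1 : (1 : ℝ) < p := by linarith
  have hp0 : (0 : ℝ) < p := by linarith
  have h8 : (1 : ℝ) ≤ R * (p : ℝ) ^ 8 := one_le_mul_of_one_le_of_one_le hR (one_le_pow₀ hp1.le)
  have hex : ∃ k : ℕ, ¬ (‖β‖ * (p : ℝ) ^ k ≤ R * (p : ℝ) ^ 8 ∧
      ‖γ‖ * (p : ℝ) ^ (2 * k) ≤ R * (p : ℝ) ^ 8) := by
    rcases hne with h | h
    · have h0 : 0 < ‖β‖ := norm_pos_iff.2 h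
      obtain ⟨k, hk⟩ := pow_unbounded_of_one_lt (R * (p : ℝ) ^ 8 / ‖β‖) hp1
      refine ⟨k, fun hh => ?_⟩
      rw [div_lt_iff₀ h0] at hk
      nlinarith [hh.1]
    · have h0 : 0 < ‖γ‖ := norm_pos_iff.2 h
      obtain ⟨k, hk⟩ := pow_unbounded_of_one_lt (R * (p : ℝ) ^ 8 / ‖γ‖) hp1
      refine ⟨k, fun hh => ?_⟩
      rw [div_lt_iff₀ h0] at hk
      have h1 : (p : ℝ) ^ k ≤ (p : ℝ) ^ (2 * k) := pow_le_pow_right₀ hp1.le (by omega)
      have h2 := mul_le_mul_of_nonneg_left h1 h0.le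
      nlinarith [hh.2]
  have hk := Nat.find_spec hex
  have hk0 : Nat.find hex ≠ 0 := by
    intro h0
    rw [h0] at hk
    exact hk ⟨by simpa using hβ.trans h8, by simpa using hγ.trans h8⟩
  obtain ⟨j, hj⟩ := Nat.exists_eq_succ_of_ne_zero hk0
  have hj' := Nat.find_min hex (m := j) (by omega)
  rw [not_not] at hj'
  rw [hj] at hk
  refine ⟨j + 1, fun s hs => ?_, ?_⟩
  · rw [zpow_natCast] at hs
    have e1 : ‖β * s‖ ≤ R * (p : ℝ) ^ 10 := by
      rw [norm_mul]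
      calc ‖β‖ * ‖s‖ ≤ ‖β‖ * (p : ℝ) ^ (j + 1) := mul_le_mul_of_nonneg_left hs (norm_nonneg _)
        _ = ‖β‖ * (p : ℝ) ^ j * p := by ring
        _ ≤ R * (p : ℝ) ^ 8 * p := mul_le_mul_of_nonneg_right hj'.1 hp0.le
        _ ≤ R * (p : ℝ) ^ 8 * (p : ℝ) ^ 2 :=
          mul_le_mul_of_nonneg_left (by nlinarith) (by linarith)
        _ = R * (p : ℝ) ^ 10 := by ring
    have e2 : ‖γ * s ^ 2‖ ≤ R * (p : ℝ) ^ 10 := by
      rw [norm_mul, norm_pow]
      calc ‖γ‖ * ‖s‖ ^ 2 ≤ ‖γ‖ * ((p : ℝ) ^ (j + 1)) ^ 2 :=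
            mul_le_mul_of_nonneg_left (pow_le_pow_left₀ (norm_nonneg _) hs 2) (norm_nonneg _)
        _ = ‖γ‖ * (p : ℝ) ^ (2 * j) * (p : ℝ) ^ 2 := by ring
        _ ≤ R * (p : ℝ) ^ 8 * (p : ℝ) ^ 2 := mul_le_mul_of_nonneg_right hj'.2 (by positivity)
        _ = R * (p : ℝ) ^ 10 := by ring
    have e3 : ‖b‖ ≤ R * (p : ℝ) ^ 10 :=
      hb.trans (one_le_mul_of_one_le_of_one_le hR (one_le_pow₀ hp1.le))
    exact ⟨(Padic.nonarchimedean _ _).trans (max_le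
      ((Padic.nonarchimedean _ _).trans (max_le e3 e1)) e2), e2⟩
  · rcases three_point p (ι := Unit) (fun _ => b) (fun _ => β) (fun _ => γ) 0 ((j + 1 : ℕ) : ℤ) 3
      (R := R) (by linarith) with h | ⟨s₁, s₂, h⟩
    · exfalso
      have := coef_bound p (a := b) (b := β) (c := γ) (l := ((j + 1 : ℕ) : ℤ))
        (R := R * (p : ℝ) ^ (2 * 3 + 2)) fun s hs => h s (by rw [mem_pb, sub_zero]; exact hs) ()
      apply hk
      constructor
      · have h1 := this.1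
        rwa [zpow_natCast] at h1
      · have h1 := this.2
        rwa [show (2 * ((j + 1 : ℕ) : ℤ)) = ((2 * (j + 1) : ℕ) : ℤ) by push_cast; ring,
          zpow_natCast] at h1
    · have hb3 : ∀ c : ℚ_[p], bm p ((j + 1 : ℕ) : ℤ) (pb p c (((j + 1 : ℕ) : ℤ) - (3 : ℕ))) ≤ 8⁻¹ := by
        intro c
        refine (bm_ball_le p _ _ c).trans ?_
        have e1 : ((j + 1 : ℕ) : ℤ) - (3 : ℕ) - ((j + 1 : ℕ) : ℤ) = -((3 : ℕ) : ℤ) := by ring
        rw [e1, zpow_neg, zpow_natCast]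
        have e2 : ((p : ℝ) ^ 3)⁻¹ ≤ 8⁻¹ := by
          refine inv_anti₀ (by norm_num) ?_
          calc (8 : ℝ) = 2 ^ 3 := by norm_num
            _ ≤ (p : ℝ) ^ 3 := pow_le_pow_left₀ (by norm_num) hp2 3
        refine (ENNReal.ofReal_le_ofReal e2).trans (le_of_eq ?_)
        rw [ENNReal.ofReal_inv_of_pos (by norm_num)]
        simp
      calc bm p ((j + 1 : ℕ) : ℤ) {s | ‖b + β * s + γ * s ^ 2‖ ≤ R}
          ≤ bm p ((j + 1 : ℕ) : ℤ) (pb p s₁ (((j + 1 : ℕ) : ℤ) - (3 : ℕ)) ∪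
              pb p s₂ (((j + 1 : ℕ) : ℤ) - (3 : ℕ))) := by
            refine measure_mono_ae ?_
            filter_upwards [bm_ae p ((j + 1 : ℕ) : ℤ)] with s hs hs'
            exact h s (by rw [mem_pb, sub_zero]; exact hs) fun _ => hs'
        _ ≤ 8⁻¹ + 8⁻¹ := (measure_union_le _ _).trans (add_le_add (hb3 _) (hb3 _))
        _ = 4⁻¹ := by
            rw [← two_mul, show (8 : ℝ≥0∞) = 2 * 4 by norm_num,
              ENNReal.mul_inv (by simp) (by simp), ← mul_assoc,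
              ENNReal.mul_inv_cancel (by simp) (by simp), one_mul]

/-- The group element of the flow. -/
def hpU (d : κ → ℚ_[p]) (s : ℚ_[p]) : κ → GG p := fun k => uP p (d k * s)

omit [Fintype κ] [DecidableEq κ] in
theorem hp_ufl (d : κ → ℚ_[p]) (s : ℚ_[p]) (w : κ → XX p) : ufl p d s w = hpU p d s • w := rfl

omit [DecidableEq κ] in
/-- A centralising element that maps a generic point to a generic point preserves the measure. -/
theorem hp_stab (d : κ → ℚ_[p]) (ρ : Measure (κ → XX p)) [IsProbabilityMeasure ρ]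
    {g : κ → GG p} (hg : ∀ s, g * hpU p d s = hpU p d s * g) {w : κ → XX p}
    (h1 : Gen (ufl p d) ρ w) (h2 : Gen (ufl p d) ρ (g • w)) : g ∈ Stab (κ → GG p) ρ := by
  have hc : Continuous fun w : κ → XX p => g • w := continuous_const_smul g
  have h3 := Gen.map (ufl p d) hc
    (fun s w => by rw [hp_ufl, hp_ufl, ← mul_smul, ← mul_smul, hg]) h1
  have : IsProbabilityMeasure (ρ.map fun w : κ → XX p => g • w) :=
    Measure.isProbabilityMeasure_map hc.measurable.aemeasurable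
  exact mem_Stab.2 (Gen.unique h3 h2)

theorem hp_conj {F : Type} [Field F] (x : F) (h : SL(2, F)) :
    (uu x * h * (uu x)⁻¹) 0 0 = h 0 0 + h 1 0 * x ∧
    (uu x * h * (uu x)⁻¹) 0 1 = h 0 1 + (h 1 1 - h 0 0) * x - h 1 0 * x ^ 2 ∧
    (uu x * h * (uu x)⁻¹) 1 0 = h 1 0 ∧
    (uu x * h * (uu x)⁻¹) 1 1 = h 1 1 - h 1 0 * x := by
  rw [uu_inv]
  refine ⟨?_, ?_, ?_, ?_⟩ <;>
    simp [Matrix.mul_apply, Fin.sum_univ_two, Matrix.vecMul, dotProduct] <;> ring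

theorem hp_comm {F : Type} [Field F] (x : F) {h : SL(2, F)} (h1 : h 1 0 = 0)
    (h2 : h 0 0 = h 1 1) : h * uu x = uu x * h := by
  have : uu x * h * (uu x)⁻¹ = h := by
    obtain ⟨e1, e2, e3, e4⟩ := hp_conj x h
    ext i j
    fin_cases i <;> fin_cases j
    · simpa [h1] using e1
    · simpa [h1, h2] using e2
    · simpa using e3
    · simpa [h1] using e4
  conv_lhs => rw [← this]
  group

theorem hp_tendsto_SL {F : Type} [NormedField F] {α : Type} {l : Filter α} {f : α → SL(2, F)}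
    {g : SL(2, F)} : Tendsto f l (𝓝 g) ↔ ∀ i j, Tendsto (fun a => f a i j) l (𝓝 (g i j)) := by
  refine Matrix.SpecialLinearGroup.isClosedEmbedding_val.isEmbedding.tendsto_nhds_iff.trans ?_
  exact (tendsto_pi_nhds (f := fun a i => (f a).1 i) (g := g.1)).trans
    (forall_congr' fun i => tendsto_pi_nhds)

omit [Fintype κ] in
theorem hp_single_comm (d : κ → ℚ_[p]) (m : κ) (q s : ℚ_[p]) :
    Pi.mulSingle (M := fun _ => GG p) m (uP p q) * hpU p d s =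
      hpU p d s * Pi.mulSingle (M := fun _ => GG p) m (uP p q) := by
  funext k
  by_cases hk : k = m
  · subst hk
    simp only [Pi.mul_apply, Pi.mulSingle_eq_same, hpU, ← uP_add, add_comm]
  · simp [Pi.mulSingle_eq_of_ne hk]

/-- A closed subgroup containing `u(q)` contains `u(q ℤ_p)`. -/
theorem hp_fill (m : κ) (ρ : Measure (κ → XX p)) [IsProbabilityMeasure ρ] {q s : ℚ_[p]}
    (hq : Pi.mulSingle (M := fun _ => GG p) m (uP p q) ∈ Stab (κ → GG p) ρ) (hq0 : q ≠ 0)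
    (hs : ‖s‖ ≤ ‖q‖) : Pi.mulSingle (M := fun _ => GG p) m (uP p s) ∈ Stab (κ → GG p) ρ := by
  have hz : ‖s / q‖ ≤ 1 := by
    rw [norm_div]; exact div_le_one_of_le₀ hs (norm_nonneg _)
  have key : ∀ z : ℤ_[p], Pi.mulSingle (M := fun _ => GG p) m (uP p ((z : ℚ_[p]) * q)) ∈
      Stab (κ → GG p) ρ := by
    intro z
    refine PadicInt.denseRange_natCast.induction_on z ?_ ?_
    · have hc : Continuous fun z : ℤ_[p] =>
          Pi.mulSingle (M := fun _ => GG p) m (uP p ((z : ℚ_[p]) * q)) :=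
        (continuous_mulSingle (A := fun _ => GG p) m).comp
          ((continuous_uP p).comp (continuous_subtype_val.mul continuous_const))
      exact (isClosed_Stab (H := κ → GG p) ρ).preimage hc
    · intro n
      induction n with
      | zero => simp
      | succ n ih =>
        have : (((n + 1 : ℕ) : ℤ_[p]) : ℚ_[p]) * q = ((n : ℤ_[p]) : ℚ_[p]) * q + q := by
          push_cast; ring
        rw [this, uP_add, Pi.mulSingle_mul]
        exact mul_mem ih hq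
  have := key ⟨s / q, hz⟩
  rwa [show ((⟨s / q, hz⟩ : ℤ_[p]) : ℚ_[p]) * q = s from div_mul_cancel₀ s hq0] at this

omit [DecidableEq κ] in
/-- The two compact sets of the argument. -/
theorem hp_sets (d : κ → ℚ_[p]) (ρ : Measure (κ → XX p)) [IsProbabilityMeasure ρ]
    (hρ : Erg (ufl p d) ρ) : ∃ C₀ C : Set (κ → XX p), IsCompact C₀ ∧ IsCompact C ∧ ρ C ≠ 0 ∧
      C ⊆ C₀ ∧ (∀ w ∈ C₀, Gen (ufl p d) ρ w) ∧
      ∀ w ∈ C, ∀ k : ℕ, bm p k {s | ufl p d s w ∉ C₀} ≤ 4⁻¹ := by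
  obtain ⟨N, hN1, hN2, hN3⟩ := exists_measurable_superset_of_null (ae_iff.1 hρ)
  obtain ⟨C₀, hC1, hC2, hC3⟩ := hN2.compl.exists_isCompact_sdiff_lt (μ := ρ) (measure_ne_top _ _)
    (ε := 8⁻¹) (by simp)
  have hm : MeasurableSet C₀ᶜ := hC2.isClosed.measurableSet.compl
  have h1 : ρ C₀ᶜ ≤ 8⁻¹ := by
    calc ρ C₀ᶜ ≤ ρ (N ∪ Nᶜ \ C₀) := measure_mono fun x hx => by
          by_cases h : x ∈ N
          · exact Or.inl h
          · exact Or.inr ⟨h, hx⟩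
      _ ≤ ρ N + ρ (Nᶜ \ C₀) := measure_union_le _ _
      _ ≤ 8⁻¹ := by rw [hN3, zero_add]; exact hC3.le
  have h2 := hρ.inv.maximal (ufl p d) (f := C₀ᶜ.indicator 1) (measurable_one.indicator hm) 4⁻¹
  simp only [lintegral_indicator_one hm] at h2
  set B : Set (κ → XX p) := {w | ∃ k : ℕ, 4⁻¹ < orb (ufl p d) k w C₀ᶜ} with hB
  have hBm : MeasurableSet B := by
    have : B = ⋃ k : ℕ, {w | 4⁻¹ < orb (ufl p d) k w C₀ᶜ} := by ext w; simp [hB]
    rw [this]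
    exact MeasurableSet.iUnion fun k => measurableSet_lt measurable_const
      ((Measure.measurable_coe hm).comp (measurable_orb (ufl p d) k))
  have h3 : ρ B ≤ 2⁻¹ := by
    have e1 : ρ B = 4 * (4⁻¹ * ρ B) := by
      rw [← mul_assoc, ENNReal.mul_inv_cancel (by simp) (by simp), one_mul]
    have e2 : (4 : ℝ≥0∞) * 8⁻¹ = 2⁻¹ := by
      rw [show (8 : ℝ≥0∞) = 4 * 2 by norm_num, ENNReal.mul_inv (by simp) (by simp), ← mul_assoc,
        ENNReal.mul_inv_cancel (by simp) (by simp), one_mul]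
    rw [e1, ← e2]
    exact mul_le_mul_right (h2.trans h1) _
  have h4 : ρ (C₀ᶜ ∪ B)ᶜ ≠ 0 := by
    intro h0
    have e1 : ρ (C₀ᶜ ∪ B) = 1 := by
      rwa [prob_compl_eq_zero_iff (hm.union hBm)] at h0
    have e2 : (1 : ℝ≥0∞) ≤ 8⁻¹ + 2⁻¹ := e1 ▸ (measure_union_le _ _).trans (add_le_add h1 h3)
    have e3 : (8⁻¹ : ℝ≥0∞) + 2⁻¹ < 2⁻¹ + 2⁻¹ :=
      ENNReal.add_lt_add_right (by simp) (ENNReal.inv_lt_inv.2 (by norm_num))
    rw [ENNReal.inv_two_add_inv_two] at e3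
    exact absurd e2 e3.not_ge
  obtain ⟨C, hD1, hD2, hD3⟩ := (hm.union hBm).compl.exists_lt_isCompact_of_ne_top
    (measure_ne_top ρ _) (r := 0) (pos_iff_ne_zero.2 h4)
  refine ⟨C₀, C, hC2, hD2, hD3.ne', fun w hw => ?_, fun w hw => ?_, fun w hw k => ?_⟩
  · by_contra h
    exact hD1 hw (Or.inl h)
  · by_contra h
    exact hC1 hw (hN1 h)
  · by_contra h
    refine hD1 hw (Or.inr ⟨k, ?_⟩)
    rw [orb_apply _ _ _ hm]
    exact not_le.1 h

/-- Three sets of measure at most a quarter do not cover the ball. -/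
theorem hp_pick (k : ℤ) {A B C : Set ℚ_[p]} (hA : bm p k A ≤ 4⁻¹) (hB : bm p k B ≤ 4⁻¹)
    (hC : bm p k C ≤ 4⁻¹) : ∃ s, ‖s‖ ≤ (p : ℝ) ^ k ∧ s ∉ A ∧ s ∉ B ∧ s ∉ C := by
  by_contra h
  push Not at h
  have e1 : bm p k Set.univ ≤ bm p k (A ∪ B ∪ C) := by
    refine measure_mono_ae ?_
    filter_upwards [bm_ae p k] with s hs _
    by_cases h1 : s ∈ A
    · exact Or.inl (Or.inl h1)
    · by_cases h2 : s ∈ B
      · exact Or.inl (Or.inr h2)
      · exact Or.inr (h s hs h1 h2)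
  have e2 : bm p k (A ∪ B ∪ C) ≤ 4⁻¹ + 4⁻¹ + 4⁻¹ :=
    (measure_union_le _ _).trans (add_le_add ((measure_union_le _ _).trans (add_le_add hA hB)) hC)
  rw [measure_univ] at e1
  have e3 : (4⁻¹ : ℝ≥0∞) + 4⁻¹ + 4⁻¹ < 4⁻¹ + 4⁻¹ + 4⁻¹ + 4⁻¹ :=
    ENNReal.lt_add_right (by simp) (by simp)
  have e4 : (4⁻¹ : ℝ≥0∞) + 4⁻¹ + 4⁻¹ + 4⁻¹ = 1 := by
    rw [← ENNReal.mul_inv_cancel (a := 4) (by simp) (by simp)]; ring
  exact absurd (e1.trans e2) (e4 ▸ e3).not_ge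

theorem hprin (d : κ → ℚ_[p]) (m : κ) (hd : d m ≠ 0) (ρ : Measure (κ → XX p))
    [IsProbabilityMeasure ρ] (hρ : Erg (ufl p d) ρ) :
    (∀ s, Pi.mulSingle (M := fun _ => GG p) m (uP p s) ∈ Stab (κ → GG p) ρ) ∨
      ∃ C, IsCompact C ∧ ρ C ≠ 0 ∧ ∃ V ∈ 𝓝 (1 : κ → GG p), Rigid p ρ m C V := by
  obtain ⟨C₀, C, hC₀, hC, hC0, hsub, hgen, hfreq⟩ := hp_sets p d ρ hρ
  by_cases hV : ∃ V ∈ 𝓝 (1 : κ → GG p), Rigid p ρ m C V
  · exact Or.inr ⟨C, hC, hC0, hV⟩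
  left
  have hbad : ∀ V ∈ 𝓝 (1 : κ → GG p), ∃ w ∈ C, ∃ g ∈ V, g • w ∈ C ∧
      (∀ k, k ≠ m → (g k).2 = 1) ∧ ((g m).2 1 1 - (g m).2 0 0 ≠ 0 ∨ (g m).2 1 0 ≠ 0) := by
    intro V hV'
    by_contra h
    push Not at h
    refine hV ⟨V, hV', fun w hw g hg hgw hk => ?_⟩
    obtain ⟨h1, h2⟩ := h w hw g hg hgw hk
    have h3 : (g m).2 0 0 = (g m).2 1 1 := (sub_eq_zero.1 h1).symm
    refine ⟨hp_stab p d ρ (fun s => ?_) (hgen w (hsub hw)) (hgen _ (hsub hgw)), h2, h3⟩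
    funext k
    refine Prod.ext (by simp [hpU, uP]) ?_
    by_cases hk' : k = m
    · subst hk'
      exact hp_comm _ h2 h3
    · simp [hpU, uP, hk k hk']
  obtain ⟨V, hVb⟩ := (𝓝 (1 : κ → GG p)).exists_antitone_basis
  choose w hw g hg hgw hk hne using fun n => hbad (V n) (hVb.mem n)
  have hg1 : Tendsto g atTop (𝓝 1) := hVb.tendsto hg
  have hgk : ∀ k, Tendsto (fun n => g n k) atTop (𝓝 1) := fun k => tendsto_pi_nhds.1 hg1 k
  have hgm : ∀ i j, Tendsto (fun n => (g n m).2 i j) atTop (𝓝 ((1 : SL(2, ℚ_[p])) i j)) :=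
    hp_tendsto_SL.1 ((continuous_snd.tendsto _).comp (hgk m))
  have ha : Tendsto (fun n => (g n m).2 0 0) atTop (𝓝 1) := by simpa using hgm 0 0
  have hb : Tendsto (fun n => (g n m).2 0 1) atTop (𝓝 0) := by simpa using hgm 0 1
  have hc : Tendsto (fun n => (g n m).2 1 0) atTop (𝓝 0) := by simpa using hgm 1 0
  have he : Tendsto (fun n => (g n m).2 1 1) atTop (𝓝 1) := by simpa using hgm 1 1
  have hβ : Tendsto (fun n => ((g n m).2 1 1 - (g n m).2 0 0) * d m) atTop (𝓝 0) := by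
    simpa using (he.sub ha).mul_const (d m)
  have hγ : Tendsto (fun n => -(g n m).2 1 0 * d m ^ 2) atTop (𝓝 0) := by
    simpa using hc.neg.mul_const (d m ^ 2)
  have hsm : ∀ {f : ℕ → ℚ_[p]}, Tendsto f atTop (𝓝 0) → ∀ᶠ n in atTop, ‖f n‖ ≤ 1 := fun hf =>
    (tendsto_zero_iff_norm_tendsto_zero.1 hf).eventually (eventually_le_nhds one_pos)
  intro t
  set R : ℝ := max 1 ‖t‖ with hR
  have hR1 : 1 ≤ R := le_max_left _ _
  have hev : ∀ᶠ n in atTop, ∃ s : ℚ_[p], ufl p d s (w n) ∈ C₀ ∧ ufl p d s (g n • w n) ∈ C₀ ∧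
      R ≤ ‖(g n m).2 0 1 + ((g n m).2 1 1 - (g n m).2 0 0) * (d m * s) -
        (g n m).2 1 0 * (d m * s) ^ 2‖ ∧
      ‖(g n m).2 0 1 + ((g n m).2 1 1 - (g n m).2 0 0) * (d m * s) -
        (g n m).2 1 0 * (d m * s) ^ 2‖ ≤ R * (p : ℝ) ^ 10 ∧
      ‖(g n m).2 1 0 * (d m * s) ^ 2‖ ≤ R * (p : ℝ) ^ 10 := by
    filter_upwards [hsm hb, hsm hβ, hsm hγ] with n h1 h2 h3
    obtain ⟨k, hk1, hk2⟩ := hp_poly p hR1 h1 h2 h3 ((hne n).imp (fun h => mul_ne_zero h hd)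
      fun h => mul_ne_zero (neg_ne_zero.2 h) (pow_ne_zero 2 hd))
    obtain ⟨s, hs, hs1, hs2, hs3⟩ := hp_pick p k (hfreq _ (hw n) k) (hfreq _ (hgw n) k) hk2
    have e1 : (g n m).2 0 1 + ((g n m).2 1 1 - (g n m).2 0 0) * (d m * s) -
        (g n m).2 1 0 * (d m * s) ^ 2 = (g n m).2 0 1 + ((g n m).2 1 1 - (g n m).2 0 0) * d m * s +
          -(g n m).2 1 0 * d m ^ 2 * s ^ 2 := by ring
    have e2 : (g n m).2 1 0 * (d m * s) ^ 2 = -(-(g n m).2 1 0 * d m ^ 2 * s ^ 2) := by ring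
    refine ⟨s, not_not.1 hs1, not_not.1 hs2, ?_, ?_, ?_⟩
    · rw [e1]; exact (not_le.1 hs3).le
    · rw [e1]; exact (hk1 s hs).1
    · rw [e2, norm_neg]; exact (hk1 s hs).2
  obtain ⟨s, hs⟩ := hev.choice
  set Q : ℕ → ℚ_[p] := fun n => (g n m).2 0 1 + ((g n m).2 1 1 - (g n m).2 0 0) * (d m * s n) -
        (g n m).2 1 0 * (d m * s n) ^ 2 with hQ
  have hK : IsCompact (C₀ ×ˢ ({q : ℚ_[p] | R ≤ ‖q‖} ∩ Metric.closedBall 0 (R * (p : ℝ) ^ 10))) :=
    hC₀.prod ((isCompact_closedBall _ _).inter_left (isClosed_le continuous_const continuous_norm))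
  obtain ⟨⟨w₀, q⟩, ⟨hw₀, hq, -⟩, ψ, hψ, hlim⟩ := hK.tendsto_subseq'
    (x := fun n => (ufl p d (s n) (w n), Q n)) (hs.mono fun n hn =>
      ⟨hn.1, hn.2.2.1, mem_closedBall_zero_iff.2 hn.2.2.2.1⟩).frequently
  have hψ' : Tendsto ψ atTop atTop := hψ.tendsto_atTop
  have hl1 : Tendsto (fun n => ufl p d (s (ψ n)) (w (ψ n))) atTop (𝓝 w₀) :=
    (continuous_fst.tendsto _).comp hlim
  have hl2 : Tendsto (fun n => Q (ψ n)) atTop (𝓝 q) := (continuous_snd.tendsto _).comp hlim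
  have hcx : Tendsto (fun n => (g n m).2 1 0 * (d m * s n)) atTop (𝓝 0) := by
    have e1 : Tendsto (fun n => ‖(g n m).2 1 0 * (d m * s n)‖ ^ 2) atTop (𝓝 0) := by
      have e2 : Tendsto (fun n => ‖(g n m).2 1 0‖ * (R * (p : ℝ) ^ 10)) atTop (𝓝 0) := by
        simpa using (tendsto_zero_iff_norm_tendsto_zero.1 hc).mul_const (R * (p : ℝ) ^ 10)
      refine squeeze_zero' (Eventually.of_forall fun n => by positivity) ?_ e2
      filter_upwards [hs] with n hn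
      calc ‖(g n m).2 1 0 * (d m * s n)‖ ^ 2
          = ‖(g n m).2 1 0‖ * ‖(g n m).2 1 0 * (d m * s n) ^ 2‖ := by
            rw [← norm_pow, ← norm_mul]; congr 1; ring
        _ ≤ _ := mul_le_mul_of_nonneg_left hn.2.2.2.2 (norm_nonneg _)
    rw [tendsto_zero_iff_norm_tendsto_zero]
    have e3 := e1.sqrt
    simpa only [Real.sqrt_sq (norm_nonneg _), Real.sqrt_zero] using e3
  have hl3 : Tendsto (fun n => hpU p d (s (ψ n)) * g (ψ n) * (hpU p d (s (ψ n)))⁻¹) atTop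
      (𝓝 (Pi.mulSingle (M := fun _ => GG p) m (uP p q))) := by
    refine tendsto_pi_nhds.2 fun k => ?_
    by_cases hk' : k = m
    · subst hk'
      rw [Pi.mulSingle_eq_same]
      refine Tendsto.prodMk_nhds (mx := fun n => (hpU p d (s (ψ n)) * g (ψ n) *
        (hpU p d (s (ψ n)))⁻¹) k |>.1) (my := fun n => (hpU p d (s (ψ n)) * g (ψ n) *
        (hpU p d (s (ψ n)))⁻¹) k |>.2) ?_ ?_
      · have := ((continuous_fst.tendsto _).comp (hgk k)).comp hψ'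
        simpa [hpU, uP, Function.comp_def] using this
      · change Tendsto (fun n => uu (d k * s (ψ n)) * (g (ψ n) k).2 * (uu (d k * s (ψ n)))⁻¹) atTop
          (𝓝 (uu q))
        refine hp_tendsto_SL.2 fun i j => ?_
        fin_cases i <;> fin_cases j
        · have := (ha.add hcx).comp hψ'
          rw [add_zero] at this
          exact this.congr fun n => (hp_conj _ _).1.symm
        · exact hl2.congr fun n => (hp_conj _ _).2.1.symm
        · exact (hc.comp hψ').congr fun n => (hp_conj _ _).2.2.1.symm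
        · have := (he.sub hcx).comp hψ'
          rw [sub_zero] at this
          exact this.congr fun n => (hp_conj _ _).2.2.2.symm
    · rw [Pi.mulSingle_eq_of_ne hk']
      refine ((hgk k).comp hψ').congr fun n => ?_
      refine Prod.ext (by simp [hpU, uP]) ?_
      simp [hpU, uP, hk _ k hk']
  have hl4 : Pi.mulSingle (M := fun _ => GG p) m (uP p q) • w₀ ∈ C₀ := by
    refine hC₀.isClosed.mem_of_tendsto (hl3.smul hl1) ?_
    filter_upwards [hψ'.eventually hs] with n hn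
    have := hn.2.1
    rw [hp_ufl] at this ⊢
    rwa [← mul_smul, inv_mul_cancel_right, mul_smul]
  have hq' : R ≤ ‖q‖ := hq
  refine hp_fill p m ρ (hp_stab p d ρ (hp_single_comm p d m q) (hgen _ hw₀) (hgen _ hl4)) ?_
    ((le_max_right _ _).trans hq')
  rw [← norm_pos_iff]
  linarith

end Pool.Agent.EQ
end
end

-- part Pool.Agent.P.MP_ad7a55_nt.Kron
section

/-! The Kronecker congruence. -/

set_option autoImplicit false

noncomputable section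

open MeasureTheory Topology Filter UpperHalfPlane
open scoped MatrixGroups ENNReal BoundedContinuousFunction

namespace Pool.Agent.EQ

theorem kron_fg {ι : Type} [Fintype ι] (x : ι → ℂ) (hx : ∀ i, IsAlgebraic ℚ (x i)) :
    ∃ T : Submodule ℤ ℂ, T.FG ∧ ∀ m : ℕ, IsIntegral ℤ (∑ i, x i ^ m) → ∑ i, x i ^ m ∈ T := by
  let K := IntermediateField.adjoin ℚ (Set.range x)
  have : FiniteDimensional ℚ K := IntermediateField.finiteDimensional_adjoin (by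
    rintro _ ⟨i, rfl⟩
    exact (hx i).isIntegral)
  have : NumberField K := ⟨⟩
  let φ : NumberField.RingOfIntegers K →+* ℂ :=
    (algebraMap K ℂ).comp (algebraMap (NumberField.RingOfIntegers K) K)
  refine ⟨LinearMap.range φ.toIntAlgHom.toLinearMap, ?_, fun m hm => ?_⟩
  · rw [LinearMap.range_eq_map]
    exact (Module.Finite.fg_top (R := ℤ) (M := NumberField.RingOfIntegers K)).map _
  · have hK : ∑ i, x i ^ m ∈ K :=
      sum_mem fun i _ => pow_mem (IntermediateField.subset_adjoin ℚ _ (Set.mem_range_self i)) m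
    have hi : IsIntegral ℤ (⟨_, hK⟩ : K) :=
      (isIntegral_algebraMap_iff (algebraMap K ℂ).injective).1 hm
    exact ⟨⟨⟨_, hK⟩, hi⟩, rfl⟩

/-- Algebraic numbers all of whose power sums are integral are integral. -/
theorem integral_of_power_sums {ι : Type} [Fintype ι] (x : ι → ℂ) (hx : ∀ i, IsAlgebraic ℚ (x i))
    (h : ∀ m : ℕ, IsIntegral ℤ (∑ i, x i ^ m)) (i : ι) : IsIntegral ℤ (x i) := by
  classical
  obtain ⟨T, hT, hTm⟩ := kron_fg x hx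
  set l : Polynomial ℂ :=
    ∏ k ∈ Finset.univ.filter (fun k => x k ≠ x i), (Polynomial.X - Polynomial.C (x k)) with hl
  have h0 : ∀ k, x k ≠ x i → l.eval (x k) = 0 := fun k hk => by
    rw [hl, Polynomial.eval_prod]
    exact Finset.prod_eq_zero (i := k) (by simpa using hk) (by simp)
  have h1 : l.eval (x i) ≠ 0 := by
    rw [hl, Polynomial.eval_prod]
    refine Finset.prod_ne_zero_iff.2 fun k hk => ?_
    simpa [sub_eq_zero, eq_comm] using hk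
  set n0 : ℕ := (Finset.univ.filter (fun k => x k = x i)).card with hn0
  have hn : (n0 : ℂ) ≠ 0 := Nat.cast_ne_zero.2 (Finset.card_pos.2 ⟨i, by simp⟩).ne'
  set c : ℂ := (n0 * l.eval (x i))⁻¹ with hc
  have key : ∀ m : ℕ, x i ^ m =
      ∑ k ∈ Finset.range (l.natDegree + 1), (c * l.coeff k) * ∑ j, x j ^ (k + m) := by
    intro m
    have e1 : ∑ j, l.eval (x j) * x j ^ m = n0 * l.eval (x i) * x i ^ m := by
      rw [← Finset.sum_filter_add_sum_filter_not Finset.univ (fun k => x k = x i),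
        Finset.sum_eq_zero (s := Finset.univ.filter fun k => ¬x k = x i) fun k hk => by
          rw [h0 k (by simpa using hk), zero_mul],
        Finset.sum_congr rfl (g := fun _ => l.eval (x i) * x i ^ m) fun k hk => by
          rw [(Finset.mem_filter.1 hk).2]]
      simp [hn0, mul_assoc]
    have e2 : ∑ j, l.eval (x j) * x j ^ m =
        ∑ k ∈ Finset.range (l.natDegree + 1), l.coeff k * ∑ j, x j ^ (k + m) := by
      simp only [Polynomial.eval_eq_sum_range, Finset.sum_mul, Finset.mul_sum, pow_add, mul_assoc]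
      exact Finset.sum_comm
    simp only [mul_assoc c]
    rw [← Finset.mul_sum, ← e2, e1, hc]
    field_simp
  let U : Submodule ℤ ℂ :=
    Submodule.span ℤ ((fun k => c * l.coeff k) '' (Finset.range (l.natDegree + 1) : Set ℕ))
  have hU : U.FG := Submodule.fg_span ((Finset.finite_toSet _).image _)
  let N : Submodule ℤ ℂ := Submodule.span ℤ (Set.range fun m : ℕ => x i ^ m)
  have hN : N ≤ U * T := by
    refine Submodule.span_le.2 ?_
    rintro _ ⟨m, rfl⟩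
    show x i ^ m ∈ U * T
    rw [key m]
    exact Submodule.sum_mem _ fun k hk =>
      Submodule.mul_mem_mul (Submodule.subset_span ⟨k, hk, rfl⟩) (hTm _ (h _))
  have hfg : N.FG := (hU.mul hT).of_le hN
  refine isIntegral_of_smul_mem_submodule N ?_ hfg (x i) fun n hn => ?_
  · refine (Submodule.ne_bot_iff _).2 ⟨1, Submodule.subset_span ⟨0, by simp⟩, one_ne_zero⟩
  · induction hn using Submodule.span_induction with
    | mem y hy =>
      obtain ⟨m, rfl⟩ := hy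
      exact Submodule.subset_span ⟨m + 1, by simp [pow_succ']⟩
    | zero => simp
    | add y z _ _ hy hz => rw [smul_add]; exact add_mem hy hz
    | smul a y _ hy => rw [smul_comm]; exact N.smul_mem a hy

theorem kron_qq_ne (τ : ℍ) : qq τ ≠ 0 := Complex.exp_ne_zero _

theorem kron_congr {f g : ℍ → ℂ} (hf : IntQ f) (h : ∀ τ, f τ = g τ) : IntQ g := by
  rwa [← funext h]

theorem kron_jInv_per {τ τ' : ℍ} {n : ℤ} (h : (τ' : ℂ) = τ + n) : jInv τ' = jInv τ := by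
  have a := intQ_j.periodic h
  have b := intQ_qq.periodic h
  simp only [b] at a
  exact mul_left_cancel₀ (kron_qq_ne τ) a

theorem kron_jL_nbs {q : ℕ} (hq : 0 < q) {c : ℂ} (hc : c ≠ 0) (τ : ℍ) (o : Option (Fin q)) :
    jL (nbs q hq c τ o) = jL (nbs q hq 1 τ o) := by
  have hq' : (q : ℂ) ≠ 0 := Nat.cast_ne_zero.2 hq.ne'
  cases o with
  | none => simp only [nbs]; rw [jL_sp hc, jL_sp one_ne_zero]
  | some i => simp only [nbs]; rw [jL_sp (mul_ne_zero hc hq'), jL_sp (mul_ne_zero one_ne_zero hq')]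

theorem kron_none {q : ℕ} (hq : q.Prime) : IntQ fun τ => qq τ ^ (q ^ 2 + q) *
    ((jInv (mulH q hq.pos τ) - jInv τ ^ q) * (jInv (mulH q hq.pos τ) ^ q - jInv τ) / q) := by
  obtain ⟨r, hr⟩ : ∃ r, q ^ 2 = r + 1 := ⟨q ^ 2 - 1, by have := pow_pos hq.pos 2; omega⟩
  have A := ((intQ_int (-1)).mul (intQ_j.frob hq)).mul
    (((intQ_j.mulH q hq.pos).pow q).sub ((intQ_qq.pow r).mul intQ_j))
  refine kron_congr A fun τ => ?_
  have e : (qq τ ^ q) ^ q = qq τ ^ r * qq τ := by rw [← pow_mul, ← sq, hr, pow_succ]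
  simp only [qq_mulH, mul_pow, e]
  rw [pow_add, hr, pow_succ]
  push_cast
  ring

theorem kron_some {q : ℕ} (hq : q.Prime) : IntQ fun w => qq (mulH q hq.pos w) ^ (q ^ 2 + q) *
    ((jInv w - jInv (mulH q hq.pos w) ^ q) * (jInv w ^ q - jInv (mulH q hq.pos w)) / q) := by
  obtain ⟨r, hr⟩ : ∃ r, q ^ 2 = r + 1 := ⟨q ^ 2 - 1, by have := pow_pos hq.pos 2; omega⟩
  have A := (intQ_qq.pow (q * r)).mul ((intQ_j.frob hq).mul
    (((intQ_qq.pow r).mul intQ_j).sub ((intQ_j.mulH q hq.pos).pow q)))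
  refine kron_congr A fun τ => ?_
  have e : (qq τ ^ q) ^ q = qq τ ^ r * qq τ := by rw [← pow_mul, ← sq, hr, pow_succ]
  have e2 : (qq τ ^ q) ^ (q ^ 2) = qq τ ^ (q * r) * qq τ ^ q := by
    rw [hr, pow_succ, ← pow_mul]
  simp only [qq_mulH, mul_pow]
  rw [pow_add, e2, e]
  ring

theorem kron_poly {q : ℕ} (hq : q.Prime) (m : ℕ) : ∃ P : Polynomial ℤ,
    P.natDegree ≤ (q ^ 2 + q) * m ∧ ∀ τ : ℍ,
      ∑ o, ((jL (nbs q hq.pos 1 τ o) - jInv τ ^ q) * (jL (nbs q hq.pos 1 τ o) ^ q - jInv τ) / q) ^ m =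
        Polynomial.aeval (jInv τ) P := by
  have hq' : (q : ℂ) ≠ 0 := Nat.cast_ne_zero.2 hq.pos.ne'
  set N := (q ^ 2 + q) * m with hN
  set S : ℍ → ℂ := fun τ => ∑ o, ((jL (nbs q hq.pos 1 τ o) - jInv τ ^ q) *
    (jL (nbs q hq.pos 1 τ o) ^ q - jInv τ) / q) ^ m with hS
  have hI : IntQ fun τ => ModularForm.discriminant τ ^ N * S τ := by
    have A := (intQ_disc_div.pow N).mul
      (((kron_none hq).pow m).add (((kron_some hq).pow m).trace q hq.pos))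
    refine kron_congr A fun τ => ?_
    have hper : ∀ i : Fin q, (mulH q hq.pos (divH q hq.pos i τ) : ℂ) = τ + ((i : ℕ) : ℤ) := by
      intro i
      simp only [coe_mulH, coe_divH, Int.cast_natCast]
      field_simp
    have h0 := kron_qq_ne τ
    simp only [hS, Fintype.sum_option, nbs]
    rw [jL_sp one_ne_zero]
    simp only [jL_sp (mul_ne_zero one_ne_zero hq'), fun i => kron_jInv_per (hper i),
      fun i => intQ_qq.periodic (hper i), mul_pow, ← pow_mul, ← hN, ← Finset.mul_sum, div_pow]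
    field_simp
  have hw : ∀ (γ : SL(2, ℤ)) (τ : ℍ), ModularForm.discriminant (γ • τ) ^ N * S (γ • τ) =
      ((γ 1 0 : ℂ) * τ + γ 1 1) ^ (12 * N) * (ModularForm.discriminant τ ^ N * S τ) := by
    intro γ τ
    have hc : ((γ 1 0 : ℂ) * τ + γ 1 1) ≠ 0 := by
      intro h0
      have := disc_smul γ τ
      rw [h0] at this
      exact ModularForm.discriminant_ne_zero _ (by simpa using this)
    have e : S (γ • τ) = S τ := by
      have := sum_nbs_smul hq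
        (fun L => ((jL L - jInv τ ^ q) * (jL L ^ q - jInv τ) / q) ^ m) γ τ
      simp only [kron_jL_nbs hq.pos hc] at this
      simp only [hS, jInv_smul]
      exact this
    rw [e, disc_smul, mul_pow, ← pow_mul, mul_assoc]
  obtain ⟨P, hP, hP'⟩ := IntQ.poly N hI hw
  exact ⟨P, hP, fun τ =>
    mul_left_cancel₀ (pow_ne_zero N (ModularForm.discriminant_ne_zero τ)) (hP' τ)⟩

theorem kron {q : ℕ} (hq : q.Prime) {Λ Λ' : Lt} (hΛ : IsLat Λ) (h : Nb q Λ Λ')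
    (halg : ∀ Λ'', Nb q Λ Λ'' → IsAlgebraic ℚ (jL Λ'')) {M : ℕ} (hM0 : 0 < M)
    (hM : IsIntegral ℤ (M * jL Λ)) :
    IsIntegral ℤ ((M : ℂ) ^ (q ^ 2 + q) * ((jL Λ' - jL Λ ^ q) * (jL Λ' ^ q - jL Λ) / q)) := by
  obtain ⟨c, τ, hc, rfl⟩ := hΛ
  obtain ⟨o, rfl⟩ := (nb_iff hq hc τ Λ').1 h
  rw [jL_sp hc] at hM ⊢
  have hM' : (M : ℂ) ≠ 0 := Nat.cast_ne_zero.2 hM0.ne'
  have hnat : ∀ n : ℕ, IsIntegral ℚ ((n : ℂ)⁻¹) := fun n => by
    have := isIntegral_algebraMap (R := ℚ) (A := ℂ) (x := (n : ℚ)⁻¹)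
    simpa using this
  have hj : IsIntegral ℚ (jInv τ) := by
    have := (hnat M).mul (hM.tower_top (A := ℚ))
    rwa [← mul_assoc, inv_mul_cancel₀ hM', one_mul] at this
  have hMi : IsIntegral ℤ (M : ℂ) := by
    simpa using isIntegral_algebraMap (R := ℤ) (A := ℂ) (x := (M : ℤ))
  rw [kron_jL_nbs hq.pos hc]
  refine integral_of_power_sums (fun o => (M : ℂ) ^ (q ^ 2 + q) *
    ((jL (nbs q hq.pos 1 τ o) - jInv τ ^ q) * (jL (nbs q hq.pos 1 τ o) ^ q - jInv τ) / q))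
    (fun o => ?_) (fun m => ?_) o
  · have ho : IsIntegral ℚ (jL (nbs q hq.pos 1 τ o)) := by
      rw [← kron_jL_nbs hq.pos hc]
      exact (halg _ ((nb_iff hq hc τ _).2 ⟨o, rfl⟩)).isIntegral
    refine IsIntegral.isAlgebraic ?_
    rw [div_eq_mul_inv]
    exact ((hMi.tower_top (A := ℚ)).pow _).mul
      (((ho.sub (hj.pow q)).mul ((ho.pow q).sub hj)).mul (hnat q))
  · obtain ⟨P, hP, hP'⟩ := kron_poly hq m
    simp only [mul_pow (M ^ (q ^ 2 + q) : ℂ), ← Finset.mul_sum, hP', ← pow_mul]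
    rw [Polynomial.aeval_eq_sum_range' (Nat.lt_succ_of_le hP), Finset.mul_sum]
    refine IsIntegral.sum _ fun k hk => ?_
    obtain ⟨r, hr⟩ := Nat.exists_eq_add_of_le (Nat.lt_succ_iff.1 (Finset.mem_range.1 hk))
    have e : (M : ℂ) ^ ((q ^ 2 + q) * m) * P.coeff k • jInv τ ^ k =
        P.coeff k • ((M : ℂ) ^ r * (M * jInv τ) ^ k) := by
      rw [hr]
      simp only [zsmul_eq_mul]
      ring
    rw [e]
    exact ((hMi.pow r).mul (hM.pow k)).zsmul _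

end Pool.Agent.EQ
end
end

-- part Pool.Agent.P.MP_ad7a55_nt.Lin
section

/-! Linearisation: limits of ball orbits do not charge the singular set. -/

set_option autoImplicit false

noncomputable section

open MeasureTheory Topology Filter UpperHalfPlane
open scoped MatrixGroups ENNReal BoundedContinuousFunction

namespace Pool.Agent.EQ

variable (p : ℕ) [Fact p.Prime]

/-- No bounded rational map stays bounded along the whole ball. -/
def NoExc (L : Filter ℕ) (x y : ℕ → XX p) (d₁ d₂ : ℕ → ℚ_[p]) (r : ℕ → ℤ) : Prop :=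
  ∀ q : ℕ, 0 < q → ∀ δ : ℚ, δ ≠ 0 → ∀ R : ℝ, ∀ᶠ i in L, ∀ P ∈ HomS p q δ (x i) (y i), Bd R P.1 →
    ∃ s : ℚ_[p], ‖s‖ ≤ (p : ℝ) ^ r i ∧ ¬ Bd R (Pfl p (d₁ i) (d₂ i) s P.2)

theorem lin_bd_mono {F : Type} [NormedField F] {R R' : ℝ} {A : Matrix (Fin 2) (Fin 2) F}
    (h : Bd R A) (hR : R ≤ R') : Bd R' A := fun i j => (h i j).trans hR

theorem lin_bd_quot {F : Type} [NormedField F] {R : ℝ} {A B : Matrix (Fin 2) (Fin 2) F}
    (hA : Bd R A) (hB : Bd R B) (c : F) : Bd (‖c‖ * (2 * R ^ 2)) (c • (A.adjugate * B)) := by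
  have hR : 0 ≤ R := (norm_nonneg _).trans (hA 0 0)
  have h1 : Bd R A.adjugate := fun i j => by
    rw [Matrix.adjugate_fin_two]
    fin_cases i <;> fin_cases j <;> simpa using hA _ _
  intro i j
  rw [Matrix.smul_apply, smul_eq_mul, norm_mul, Matrix.mul_apply, Fin.sum_univ_two]
  refine mul_le_mul_of_nonneg_left ((norm_add_le _ _).trans ?_) (norm_nonneg _)
  rw [norm_mul, norm_mul]
  linarith [mul_le_mul (h1 i 0) (hB 0 j) (norm_nonneg _) hR,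
    mul_le_mul (h1 i 1) (hB 1 j) (norm_nonneg _) hR]

variable {p} in
theorem lin_Pfl_quot (d₁ d₂ s c : ℚ_[p]) (A B : Matrix (Fin 2) (Fin 2) ℚ_[p]) :
    Pfl p d₁ d₁ s (c • (A.adjugate * B)) =
      c • ((Pfl p d₁ d₂ s A).adjugate * Pfl p d₁ d₂ s B) := by
  simp only [Pfl_eq, Matrix.adjugate_fin_two]
  ext i j
  fin_cases i <;> fin_cases j <;>
    simp [Matrix.vecMul, dotProduct, Fin.sum_univ_two,
      -mul_eq_mul_left_iff] <;> ring

variable {p} in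
theorem lin_Pfl_poly (d₁ d₂ : ℚ_[p]) (A : Matrix (Fin 2) (Fin 2) ℚ_[p]) :
    ∃ a b c : Fin 2 × Fin 2 → ℚ_[p], ∀ s R, Bd R (Pfl p d₁ d₂ s A) ↔
      ∀ i, ‖a i + b i * s + c i * s ^ 2‖ ≤ R := by
  refine ⟨fun i => A i.1 i.2, fun i => !![d₂ * A 1 0, d₂ * A 1 1 - d₁ * A 0 0; 0, -(d₁ * A 1 0)]
    i.1 i.2, fun i => !![0, -(d₁ * d₂ * A 1 0); 0, 0] i.1 i.2, fun s R => ?_⟩
  rw [Pfl_eq, Bd, Prod.forall]
  refine forall_congr' fun i => forall_congr' fun j => ?_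
  fin_cases i <;> fin_cases j <;> rfl

variable {p} in
theorem lin_pb_sub {t t' s : ℚ_[p]} {l n : ℤ} (hl : l ≤ n) (ht : t' ∈ pb p t n)
    (hs : ‖s‖ ≤ (p : ℝ) ^ l) : s + t' ∈ pb p t n := by
  have hp : (1 : ℝ) ≤ p := by exact_mod_cast (Fact.out : p.Prime).one_le
  rw [mem_pb] at ht ⊢
  rw [add_sub_assoc]
  exact (Padic.nonarchimedean _ _).trans (max_le (hs.trans (zpow_le_zpow_right₀ hp hl)) ht)

theorem lin_step {Q : ℤ → Prop} {l r : ℤ} (h : l ≤ r) (hl : Q l) (hr : ¬Q r) :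
    ∃ n, l ≤ n ∧ n ≤ r ∧ Q n ∧ ¬Q (n + 1) := by
  induction r, h using Int.leInduction with
  | base => exact absurd hl hr
  | succ r h ih =>
    by_cases h1 : Q r
    · exact ⟨r, h, by omega, h1, hr⟩
    · obtain ⟨n, h2, h3, h4⟩ := ih h1
      exact ⟨n, h2, by omega, h4⟩

/-- The inequality for one ball orbit. -/
theorem lin_one {q : ℕ} (hq : 0 < q) {δ : ℚ} (hδ : δ ≠ 0) {R : ℝ} (hR : 0 < R) (e : ℕ) :
    ∃ R' R'' : ℝ, ∀ (x y : XX p) (d₁ d₂ : ℚ_[p]) (l r : ℤ), l ≤ r →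
      (∀ P ∈ HomS p q δ x y, Bd R' P.1 →
        ∃ s : ℚ_[p], ‖s‖ ≤ (p : ℝ) ^ r ∧ ¬ Bd R' (Pfl p d₁ d₂ s P.2)) →
      bm p r {t | ∃ P ∈ HomS p q δ (uP p (d₁ * t) • x) (uP p (d₂ * t) • y), Bd R P.1 ∧
          ∀ s : ℚ_[p], ‖s‖ ≤ (p : ℝ) ^ l → Bd R (Pfl p d₁ d₂ s P.2)} ≤
        2 * ENNReal.ofReal ((p : ℝ) ^ (-(e : ℤ))) +
          bm p r {t | uP p (d₁ * t) • x ∈ Sg p (q * q * δ.num.natAbs) R'' d₁ l} := by
  have hp : (1 : ℝ) ≤ p := by exact_mod_cast (Fact.out : p.Prime).one_le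
  obtain ⟨R', hR'⟩ : ∃ R', R' = R * (p : ℝ) ^ (2 * e + 2) := ⟨_, rfl⟩
  have hRR : R ≤ R' := hR' ▸ le_mul_of_one_le_right hR.le (one_le_pow₀ hp)
  refine ⟨R', (‖(δ : ℝ)⁻¹‖ + ‖(δ : ℚ_[p])⁻¹‖) * (2 * R' ^ 2), fun x y d₁ d₂ l r hlr H => ?_⟩
  set S := {t | uP p (d₁ * t) • x ∈ Sg p (q * q * δ.num.natAbs)
    ((‖(δ : ℝ)⁻¹‖ + ‖(δ : ℚ_[p])⁻¹‖) * (2 * R' ^ 2)) d₁ l} with hS
  let A := {t | ∃ P ∈ HomS p q δ x y, Bd R P.1 ∧
    ∀ s : ℚ_[p], ‖s‖ ≤ (p : ℝ) ^ l → Bd R (Pfl p d₁ d₂ (s + t) P.2)}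
  refine le_trans (measure_mono (t := A \ S ∪ S) ?_)
    ((measure_union_le _ _).trans (add_le_add_left ?_ _))
  · rintro t ⟨P, h1, h2, h3⟩
    rw [Set.sdiff_union_self]
    refine Or.inl ⟨(P.1, Pfl p d₁ d₂ (-t) P.2), ?_, h2, fun s hs => ?_⟩
    · simpa [← mul_smul, ← uP_add] using HomS.flow h1 d₁ d₂ (-t)
    · simpa [← Pfl_add] using h3 s hs
  refine bm_cover p (l₀ := l) _ _ fun t ht htr => ?_
  obtain ⟨n, h1, h2, ⟨P, hP, hP1, hP2⟩, h4⟩ := lin_step (Q := fun n => ∃ P ∈ HomS p q δ x y,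
    Bd R P.1 ∧ ∀ s ∈ pb p t n, Bd R' (Pfl p d₁ d₂ s P.2)) hlr (by
      obtain ⟨P, h1, h2, h3⟩ := ht.1
      exact ⟨P, h1, h2, fun s hs => by
        simpa using lin_bd_mono (h3 _ ((mem_pb p).1 hs)) hRR⟩) (by
      rintro ⟨P, h1, h2, h3⟩
      obtain ⟨s, h4, h5⟩ := H P h1 (lin_bd_mono h2 hRR)
      refine h5 (h3 s ((mem_pb p).2 ?_))
      rw [sub_eq_add_neg]
      exact (Padic.nonarchimedean _ _).trans (max_le h4 (by rwa [norm_neg])))
  refine ⟨n, h1, h2, ?_⟩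
  obtain ⟨a, b, c, habc⟩ := lin_Pfl_poly d₁ d₂ P.2
  obtain h5 | ⟨s₁, s₂, h5⟩ := three_point p a b c t n e hR.le
  · exact absurd ⟨P, hP, hP1, fun s hs => (habc _ _).2 (hR' ▸ h5 s hs)⟩ h4
  refine le_trans (measure_mono (t := pb p s₁ (n - e) ∪ pb p s₂ (n - e)) ?_)
    ((measure_union_le _ _).trans ?_)
  · rintro t' ⟨⟨⟨P', g1, g2, g3⟩, g4⟩, g5⟩
    refine h5 t' g5 ((habc _ _).1 ?_)
    have g6 : Bd R (Pfl p d₁ d₂ t' P'.2) := by simpa using g3 0 (by simp; positivity)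
    have g7 := (HomS.det (HomS.flow g1 d₁ d₂ t')).2
    have hδ' : (δ : ℚ_[p]) ≠ 0 := Rat.cast_ne_zero.2 hδ
    have key : ∀ Z, (δ : ℚ_[p])⁻¹ • ((Pfl p d₁ d₂ t' P'.2).adjugate * Pfl p d₁ d₂ t' P.2) = Z →
        Pfl p d₁ d₂ t' P.2 = Pfl p d₁ d₂ t' P'.2 * Z := by
      rintro Z rfl
      rw [Matrix.mul_smul, ← mul_assoc, Matrix.mul_adjugate, g7, Matrix.smul_mul, smul_smul,
        inv_mul_cancel₀ hδ', one_smul, one_mul]
    by_contra g8
    refine g4 ⟨_, HomS.quot hδ (HomS.flow hP d₁ d₂ t') (HomS.flow g1 d₁ d₂ t'),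
      fun h => g8 ?_, fun h => g8 ?_,
      lin_bd_mono (lin_bd_quot (lin_bd_mono g2 hRR) (lin_bd_mono hP1 hRR) _)
        (by gcongr; exact le_add_of_nonneg_right (norm_nonneg _)),
      fun s hs => ?_⟩
    · rwa [key _ (Prod.ext_iff.1 h).2, mul_one]
    · rw [key _ (Prod.ext_iff.1 h).2, mul_neg, mul_one]
      exact fun i j => by simpa using g6 i j
    · rw [lin_Pfl_quot d₁ d₂, ← Pfl_add, ← Pfl_add]
      exact lin_bd_mono (lin_bd_quot (lin_bd_mono (g3 s hs) hRR) (hP2 _ (lin_pb_sub h1 g5 hs)) _)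
        (by gcongr; exact le_add_of_nonneg_left (norm_nonneg _))
  · refine (add_le_add (bm_ball_le p _ _ _) (bm_ball_le p _ _ _)).trans (le_of_eq ?_)
    rw [bm_ball p h2 htr, mul_assoc, ← ENNReal.ofReal_mul (by positivity),
      ← zpow_add₀ (by positivity), two_mul, show -(e : ℤ) + (n - r) = n - e - r by ring]

theorem lin (L : Filter ℕ) [L.NeBot] (x y : ℕ → XX p) (d₁ d₂ : ℕ → ℚ_[p]) (r : ℕ → ℤ)
    {e₁ e₂ : ℚ_[p]} (he : e₁ ≠ 0) (h₁ : Tendsto d₁ L (𝓝 e₁)) (h₂ : Tendsto d₂ L (𝓝 e₂))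
    (hr : Tendsto r L atTop) (hE : NoExc p L x y d₁ d₂ r) (ν : Measure (XX p × XX p))
    [IsProbabilityMeasure ν]
    (hν : WT L (fun i => orb (ufl2 p (d₁ i) (d₂ i)) (r i) (x i, y i)) ν)
    (hm : ν.map Prod.fst = mX p) : ν (NN p e₁ e₂) = 0 := by
  have hp : (1 : ℝ) < p := by exact_mod_cast (Fact.out : p.Prime).one_lt
  refine measure_mono_null (t := ⋃ k : ℕ × ℚ × ℕ, {w | 0 < k.1 ∧ k.2.1 ≠ 0 ∧ 0 < (k.2.2 : ℝ) ∧
    ∃ P ∈ HomS p k.1 k.2.1 w.1 w.2, (∀ i j, |P.1 i j| < k.2.2) ∧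
      ∀ s : ℚ_[p], Bd k.2.2 (Pfl p e₁ e₂ s P.2)}) ?_ (measure_iUnion_null ?_)
  · rintro w ⟨q, hq, δ, hδ, P, hP, a1, a2⟩
    obtain ⟨R, hR⟩ := exists_nat_gt (‖(fun i j => P.1 i j : Fin 2 → Fin 2 → ℝ)‖ +
      ‖(fun i j => P.2 i j : Fin 2 → Fin 2 → ℚ_[p])‖)
    refine Set.mem_iUnion.2 ⟨(q, δ, R), hq, hδ, lt_of_le_of_lt (by positivity) hR, P, hP,
      fun i j => lt_of_le_of_lt ((norm_entry_le (fun i j => P.1 i j) i j).trans (by simp)) hR,
      fun s => ?_⟩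
    have : Pfl p e₁ e₂ s P.2 = P.2 := by
      rw [Pfl_eq]
      ext i j
      fin_cases i <;> fin_cases j <;> simp [a1, a2]
    rw [this]
    exact fun i j => ((norm_entry_le (fun i j => P.2 i j) i j).trans (by simp)).trans hR.le
  rintro ⟨q, δ, R⟩
  by_cases hk : 0 < q ∧ δ ≠ 0 ∧ 0 < (R : ℝ)
  swap
  · exact measure_mono_null (fun w hw => (hk ⟨hw.1, hw.2.1, hw.2.2.1⟩).elim) measure_empty
  obtain ⟨hq, hδ, hR⟩ := hk
  refine le_antisymm (ENNReal.le_of_forall_pos_le_add fun ε hε _ => ?_) zero_le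
  obtain ⟨e, hε'⟩ := exists_pow_lt_of_lt_one (show (0 : ℝ) < ε / 4 by positivity)
    (inv_lt_one_of_one_lt₀ hp)
  obtain ⟨R', R'', hl⟩ := lin_one p hq hδ hR e
  have hq' : 0 < q * q * δ.num.natAbs :=
    mul_pos (mul_pos hq hq) (Int.natAbs_pos.2 (Rat.num_ne_zero.2 hδ))
  obtain ⟨l, hS⟩ := Sg_small p hq' R'' he (ε := ENNReal.ofReal (ε / 2))
    (ENNReal.ofReal_pos.2 (by positivity))
  have hc := isClosed_Sg p hq' R'' e₁ l
  rw [← hm, Measure.map_apply measurable_fst hc.measurableSet] at hS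
  have hU := isOpen_hom q δ hR e₁ e₂ l
  have : ∀ i, IsProbabilityMeasure (orb (ufl2 p (d₁ i) (d₂ i)) (r i) (x i, y i)) :=
    fun i => instProborb _ _ _
  refine le_trans (measure_mono fun w hw => ?_) (hν.open_le hU ?_)
  · obtain ⟨-, -, -, P, a1, a2, a3⟩ := hw
    exact ⟨P, a1, a2, fun s _ => a3 s⟩
  have hd : ∀ {d : ℕ → ℚ_[p]} {e' : ℚ_[p]}, Tendsto d L (𝓝 e') → ∀ᶠ i in L, ∀ s : ℚ_[p],
      ‖s‖ ≤ (p : ℝ) ^ (l : ℤ) → ‖(d i - e') * s‖ ≤ 1 := fun h => by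
    filter_upwards [Metric.tendsto_nhds.1 h ((p : ℝ) ^ (l : ℤ))⁻¹ (by positivity)] with i hi s hs
    rw [dist_eq_norm] at hi
    rw [norm_mul]
    exact (mul_le_mul hi.le hs (norm_nonneg _) (by positivity)).trans
      (inv_mul_cancel₀ (by positivity)).le
  filter_upwards [hd h₁, hd h₂, hr.eventually_ge_atTop l, hE q hq δ hδ R',
    hν.closed_lt (hc.preimage continuous_fst) hS] with i b1 b2 b3 b4 b5
  rw [orb_apply _ _ _ (hc.preimage continuous_fst).measurableSet] at b5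
  rw [orb_apply _ _ _ hU.measurableSet]
  refine le_trans (measure_mono ?_) ((hl _ _ _ _ l _ b3 b4).trans ?_)
  · rintro t ⟨P, a1, a2, a3⟩
    exact ⟨P, a1, fun i j => (a2 i j).le, fun s hs => (a3 s hs).speed (b1 s hs) (b2 s hs)⟩
  have b6 : ∀ s : ℚ_[p], ‖s‖ ≤ (p : ℝ) ^ (l : ℤ) → ‖(e₁ - d₁ i) * s‖ ≤ 1 := fun s hs => by
    rw [← neg_sub, neg_mul, norm_neg]; exact b1 s hs
  refine (add_le_add le_rfl (le_trans (measure_mono ?_) b5.le)).trans ?_
  · rintro t ⟨P, a1, a2, a3, a4, a5⟩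
    exact ⟨P, a1, a2, a3, a4, fun s hs => (a5 s hs).speed (b6 s hs) (b6 s hs)⟩
  · rw [zero_add, ← ENNReal.ofReal_ofNat, ← ENNReal.ofReal_mul (by positivity),
      ← ENNReal.ofReal_add (by positivity) (by positivity), ← ENNReal.ofReal_coe_nnreal]
    refine ENNReal.ofReal_le_ofReal ?_
    rw [zpow_neg, zpow_natCast, ← inv_pow]
    linarith

end Pool.Agent.EQ
end
end
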