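import Pool.Agent.K.MP_ad7a55_nt.C32
import Pool.Agent.K.MP_ad7a55_nt.C33
import Pool.Agent.P.MP_ad7a55_nt.VDef
import Pool.Agent.K.MP_ad7a55_nt.C28
import Pool.Agent.K.MP_ad7a55_nt.C34
import Pool.Agent.P.MP_ad7a55_nt.CtA

-- part Pool.Agent.P.MP_ad7a55_nt.Marg
section

/-! Unipotent invariant measures on X that do not escape. -/

set_option autoImplicit false

noncomputable section

open MeasureTheory Topology Filter UpperHalfPlane
open scoped MatrixGroups ENNReal BoundedContinuousFunction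

namespace Pool.Agent.EQ

variable (p : ℕ) [Fact p.Prime]

theorem marg_cont_entry (i j : Fin 2) : Continuous fun g : SL(2, ℚ_[p]) => g i j :=
  (continuous_apply j).comp ((continuous_apply i).comp continuous_subtype_val)

theorem marg_nhds {V : Set SL(2, ℚ_[p])} (hV : V ∈ 𝓝 (1 : SL(2, ℚ_[p]))) :
    ∃ δ : ℝ, 0 < δ ∧ ∀ g : SL(2, ℚ_[p]), ‖g 0 0 - 1‖ < δ → ‖g 0 1‖ < δ → ‖g 1 0‖ < δ →
      ‖g 1 1 - 1‖ < δ → g ∈ V := by
  have hi : IsInducing fun g : SL(2, ℚ_[p]) => (fun i j => g i j : Fin 2 → Fin 2 → ℚ_[p]) :=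
    Matrix.SpecialLinearGroup.isClosedEmbedding_val.isEmbedding.isInducing
  rw [hi.nhds_eq_comap, mem_comap] at hV
  obtain ⟨T, hT, hTV⟩ := hV
  obtain ⟨δ, hδ, hb⟩ := Metric.mem_nhds_iff.1 hT
  refine ⟨δ, hδ, fun g h00 h01 h10 h11 => hTV (hb ?_)⟩
  rw [Metric.mem_ball, dist_pi_lt_iff hδ]
  intro i
  rw [dist_pi_lt_iff hδ]
  intro j
  rw [dist_eq_norm]
  fin_cases i <;> fin_cases j
  · simpa using h00
  · simpa using h01
  · simpa using h10
  · simpa using h11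

theorem marg_one {x : ℚ_[p]} (hx : ‖x - 1‖ < 1) : ‖x‖ = 1 := by
  have h : ‖(x - 1) + 1‖ = max ‖x - 1‖ ‖(1 : ℚ_[p])‖ :=
    Padic.add_eq_max_of_ne (by rw [norm_one]; exact hx.ne)
  rw [sub_add_cancel, norm_one, max_eq_right hx.le] at h
  exact h

/-- The lower triangular factor. -/
def margL (e y : ℚ_[p]) (he : e ≠ 0) : SL(2, ℚ_[p]) :=
  ⟨!![e, 0; y, e⁻¹], by simp [Matrix.det_fin_two, he]⟩

theorem marg_det (g : SL(2, ℚ_[p])) : g 0 0 * g 1 1 - g 0 1 * g 1 0 = 1 := by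
  have := g.det_coe
  rwa [Matrix.det_fin_two] at this

theorem marg_dec (g : SL(2, ℚ_[p])) (s t : ℚ_[p]) (ht : t ≠ 0) (he : g 0 0 + s * g 1 0 ≠ 0) :
    uu s * g = dg t ht * (margL p (g 0 0 + s * g 1 0) (t ^ 2 * g 1 0) he * ((dg t ht)⁻¹ *
      uu ((g 0 1 + s * g 1 1) / (g 0 0 + s * g 1 0)))) := by
  have hd := marg_det p g
  have hi : (dg t ht)⁻¹ = dg t⁻¹ (inv_ne_zero ht) := by
    refine inv_eq_of_mul_eq_one_right ?_
    ext i j
    fin_cases i <;> fin_cases j <;> simp [Matrix.mul_apply, Fin.sum_univ_two, ht]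
  rw [hi]
  obtain ⟨e, hedef⟩ : ∃ e, e = g 0 0 + s * g 1 0 := ⟨_, rfl⟩
  have he' : e ≠ 0 := hedef ▸ he
  ext i j
  fin_cases i <;> fin_cases j <;> simp [Matrix.mul_apply, Fin.sum_univ_two, margL, ← hedef]
  · field_simp
  · field_simp
  · field_simp
  · field_simp
    rw [hedef]
    linear_combination hd

theorem marg_int {f : XX p → ℝ} (hf : Continuous f) (hc : HasCompactSupport f)
    {F : ℚ_[p] → XX p} (hF : Measurable F) : Integrable (fun s => f (F s)) (bm p 0) := by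
  obtain ⟨C, hC⟩ := hf.bounded_above_of_compact_support hc
  exact Integrable.of_bound (hf.measurable.comp hF).aestronglyMeasurable C
    (Eventually.of_forall fun s => hC _)

theorem marg_cont (g : GG p) (x : XX p) : Continuous fun s : ℚ_[p] => g • uP p s • x :=
  ((continuous_uP p).smul continuous_const).const_smul g

/-- Equicontinuity of the translated ball averages. -/
theorem marg_equi {f : XX p → ℝ} (hf : Continuous f) (hc : HasCompactSupport f) {ε : ℝ}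
    (hε : 0 < ε) : ∀ᶠ g : GG p in 𝓝 1, ∀ (j : ℕ) (x : XX p),
      |∫ s, f ((aP p j)⁻¹ • uP p s • g • x) ∂bm p 0 -
        ∫ s, f ((aP p j)⁻¹ • uP p s • x) ∂bm p 0| ≤ ε := by
  have hV := unif_smul p hf hc hε
  obtain ⟨V₁, hV₁, V₂, hV₂, hsub⟩ := mem_nhds_prod_iff.1 hV
  obtain ⟨δ, hδ, hδV⟩ := marg_nhds p hV₂
  have hη : 0 < min δ 1 := lt_min hδ one_pos
  have key : ∀ (i j : Fin 2) (c : ℚ_[p]), (1 : SL(2, ℚ_[p])) i j = c →
      ∀ᶠ g : GG p in 𝓝 1, ‖g.2 i j - c‖ < min δ 1 := by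
    intro i j c hc'
    have h1 : Continuous fun g : GG p => ‖g.2 i j - c‖ :=
      (((marg_cont_entry p i j).comp continuous_snd).sub continuous_const).norm
    refine h1.continuousAt.eventually_lt continuousAt_const ?_
    simpa [hc'] using hη
  have e1 : ∀ᶠ g : GG p in 𝓝 1, g.1 ∈ V₁ := continuous_fst.continuousAt.eventually_mem hV₁
  filter_upwards [e1, key 0 0 1 (by simp), key 0 1 0 (by simp), key 1 0 0 (by simp),
    key 1 1 1 (by simp)] with g hg ha hb hcc hd j x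
  rw [sub_zero] at hb hcc
  have hnd : ‖g.2 1 1‖ = 1 := marg_one p (hd.trans_le (min_le_right _ _))
  have he1 : ∀ s : ℚ_[p], ‖s‖ ≤ 1 → ‖g.2 0 0 + s * g.2 1 0 - 1‖ < min δ 1 := by
    intro s hs
    have : g.2 0 0 + s * g.2 1 0 - 1 = (g.2 0 0 - 1) + s * g.2 1 0 := by ring
    rw [this]
    refine (Padic.nonarchimedean _ _).trans_lt (max_lt ha ?_)
    rw [norm_mul]
    exact (mul_le_of_le_one_left (norm_nonneg _) hs).trans_lt hcc
  have hen : ∀ s : ℚ_[p], ‖s‖ ≤ 1 → ‖g.2 0 0 + s * g.2 1 0‖ = 1 := fun s hs =>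
    marg_one p ((he1 s hs).trans_le (min_le_right _ _))
  have he0 : ∀ s : ℚ_[p], ‖s‖ ≤ 1 → g.2 0 0 + s * g.2 1 0 ≠ 0 := fun s hs h => by
    have := hen s hs
    rw [h, norm_zero] at this
    exact zero_ne_one this
  set ψ : ℚ_[p] → ℚ_[p] := fun s => (g.2 0 1 + s * g.2 1 1) / (g.2 0 0 + s * g.2 1 0) with hψ
  have hψm : Measurable ψ :=
    (measurable_const.add (measurable_id.mul_const _)).div
      (measurable_const.add (measurable_id.mul_const _))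
  have hiso : (bm p 0).map ψ = bm p 0 := by
    refine bm_iso p hψm (fun s hs => ?_) (fun s t hs ht => ?_)
    · simp only [hψ]
      rw [norm_div, hen s hs, div_one]
      refine (Padic.nonarchimedean _ _).trans (max_le (hb.le.trans (min_le_right _ _)) ?_)
      rw [norm_mul, hnd, mul_one]
      exact hs
    · have h1 : ψ s - ψ t = (s - t) / ((g.2 0 0 + s * g.2 1 0) * (g.2 0 0 + t * g.2 1 0)) := by
        have hd' := marg_det p g.2
        have h2 := he0 s hs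
        have h3 := he0 t ht
        simp only [hψ]
        rw [div_sub_div _ _ h2 h3]
        congr 1
        linear_combination (s - t) * hd'
      rw [h1, norm_div, norm_mul, hen s hs, hen t ht, mul_one, div_one]
  have hF := marg_cont p (aP p j)⁻¹ x
  have h2 : ∫ s, f ((aP p j)⁻¹ • uP p s • x) ∂bm p 0 =
      ∫ s, f ((aP p j)⁻¹ • uP p (ψ s) • x) ∂bm p 0 := by
    conv_lhs => rw [← hiso]
    exact integral_map hψm.aemeasurable (hf.comp hF).aestronglyMeasurable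
  have hi2 : Integrable (fun s => f ((aP p j)⁻¹ • uP p (ψ s) • x)) (bm p 0) :=
    marg_int p hf hc (hF.measurable.comp hψm)
  rw [h2, ← integral_sub (marg_int p hf hc (marg_cont p (aP p j)⁻¹ (g • x)).measurable) hi2,
    ← Real.norm_eq_abs]
  refine (norm_integral_le_of_norm_le_const (C := ε) ?_).trans (by simp)
  filter_upwards [bm_ae p 0] with s hs
  rw [zpow_zero] at hs
  have ht : ((p : ℚ_[p]) ^ j) ≠ 0 :=
    pow_ne_zero _ (Nat.cast_ne_zero.2 (Fact.out : p.Prime).ne_zero)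
  have htn : ‖((p : ℚ_[p]) ^ j) ^ 2‖ ≤ 1 := by
    rw [norm_pow, norm_pow]
    exact pow_le_one₀ (by positivity) (pow_le_one₀ (norm_nonneg _) Padic.norm_p_lt_one.le)
  set b : GG p := (g.1, margL p _ (((p : ℚ_[p]) ^ j) ^ 2 * g.2 1 0) (he0 s hs)) with hbdef
  have hb' : b ∈ V₁ ×ˢ V₂ := by
    refine ⟨hg, hδV _ ?_ ?_ ?_ ?_⟩
    · simpa [hbdef, margL] using (he1 s hs).trans_le (min_le_left _ _)
    · simpa [hbdef, margL] using hδ
    · have : ‖((p : ℚ_[p]) ^ j) ^ 2 * g.2 1 0‖ < δ := by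
        rw [norm_mul]
        exact ((mul_le_of_le_one_left (norm_nonneg _) htn).trans_lt hcc).trans_le
          (min_le_left _ _)
      exact this
    · have h3 : (g.2 0 0 + s * g.2 1 0)⁻¹ - 1 =
          -(g.2 0 0 + s * g.2 1 0 - 1) / (g.2 0 0 + s * g.2 1 0) := by
        have := he0 s hs
        field_simp
        ring
      have : ‖(g.2 0 0 + s * g.2 1 0)⁻¹ - 1‖ < δ := by
        rw [h3, norm_div, norm_neg, hen s hs, div_one]
        exact (he1 s hs).trans_le (min_le_left _ _)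
      exact this
  have heq : (aP p j)⁻¹ • uP p s • g • x = b • (aP p j)⁻¹ • uP p (ψ s) • x := by
    simp only [← mul_smul]
    congr 1
    rw [inv_mul_eq_iff_eq_mul]
    refine Prod.ext (by simp [aP, uP, hbdef]) ?_
    exact marg_dec p g.2 s _ ht (he0 s hs)
  rw [heq, Real.norm_eq_abs]
  exact hsub hb' _

theorem marg_conj (j : ℕ) (s : ℚ_[p]) (x : XX p) :
    (aP p j)⁻¹ • uP p s • aP p j • x = uP p ((((p : ℚ_[p]) ^ j) ^ 2)⁻¹ * s) • x := by
  have ht : ((p : ℚ_[p]) ^ j) ≠ 0 :=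
    pow_ne_zero _ (Nat.cast_ne_zero.2 (Fact.out : p.Prime).ne_zero)
  simp only [← mul_smul]
  congr 1
  rw [inv_mul_eq_iff_eq_mul]
  refine Prod.ext (by simp [aP, uP]) ?_
  ext i k
  fin_cases i <;> fin_cases k <;> simp [aP, uP, Matrix.mul_apply, Fin.sum_univ_two]
  field_simp

theorem marg_scale {f : XX p → ℝ} (hf : Continuous f) (j : ℕ) (x : XX p) :
    ∫ z, f z ∂orb (ufl1 p) (2 * j : ℕ) x =
      ∫ s, f ((aP p j)⁻¹ • uP p s • aP p j • x) ∂bm p 0 := by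
  have hd : ‖(((p : ℚ_[p]) ^ j) ^ 2)⁻¹‖ = (p : ℝ) ^ ((2 * j : ℕ) : ℤ) := by
    rw [norm_inv, norm_pow, norm_pow, Padic.norm_p, zpow_natCast, inv_pow, inv_pow, inv_inv,
      ← pow_mul, mul_comm]
  have h := bm_mul p 0 _ hd
  rw [zero_add] at h
  have hm : Measurable fun s : ℚ_[p] => (((p : ℚ_[p]) ^ j) ^ 2)⁻¹ * s := measurable_id.const_mul _
  have hF : Continuous fun s : ℚ_[p] => f (ufl1 p s x) :=
    hf.comp ((continuous_uP p).smul continuous_const)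
  rw [integral_orb _ _ _ hf, ← h, integral_map hm.aemeasurable hF.aestronglyMeasurable]
  simp only [marg_conj, ufl1_apply]

/-- The translated ball averages. -/
def margF (f : XX p →ᵇ ℝ) (j : ℕ) (x : XX p) : ℝ :=
  ∫ s, f ((aP p j)⁻¹ • uP p s • x) ∂bm p 0

theorem margF_eq (f : XX p →ᵇ ℝ) (j : ℕ) (x : XX p) :
    margF p f j x = ∫ z, f z ∂orb (ufl1 p) (2 * j : ℕ) ((aP p j)⁻¹ • x) := by
  rw [marg_scale p f.continuous, smul_inv_smul, margF]

theorem margF_cont (f : XX p →ᵇ ℝ) (j : ℕ) : Continuous (margF p f j) := by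
  have : margF p f j = fun x => ∫ z, f z ∂orb (ufl1 p) (2 * j : ℕ) ((aP p j)⁻¹ • x) :=
    funext (margF_eq p f j)
  rw [this]
  exact (continuous_integral_orb (ufl1 p) _ f).comp (continuous_const_smul _)

theorem marg_bd (f : XX p →ᵇ ℝ) (ν ν' : Measure (XX p)) [IsProbabilityMeasure ν]
    [IsProbabilityMeasure ν'] : |∫ z, f z ∂ν - ∫ z, f z ∂ν'| ≤ 2 * ‖f‖ := by
  have h1 := f.norm_integral_le_norm ν
  have h2 := f.norm_integral_le_norm ν'
  rw [Real.norm_eq_abs] at h1 h2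
  have := abs_sub (∫ z, f z ∂ν) (∫ z, f z ∂ν')
  linarith

theorem margF_l1 (f : XX p →ᵇ ℝ) :
    Tendsto (fun j : ℕ => ∫ x, |margF p f j x - ∫ z, f z ∂mX p| ∂mX p) atTop (𝓝 0) := by
  have h2 : Tendsto (fun j : ℕ => 2 * j) atTop atTop :=
    tendsto_atTop_mono (fun j => by simp only [id]; omega) tendsto_id
  refine (((erg_mX p).l1 f).comp h2).congr fun j => ?_
  simp only [Function.comp, margF_eq]
  exact (integral_smul_eq_self (μ := mX p) (g := (aP p j)⁻¹)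
    fun w => |∫ z, f z ∂orb (ufl1 p) (2 * j : ℕ) w - ∫ z, f z ∂mX p|).symm

theorem margF_unif (f : XX p →ᵇ ℝ) (hc : HasCompactSupport f) {ε : ℝ} (hε : 0 < ε)
    {Ω : Set (XX p)} (hΩ : IsCompact Ω) :
    ∀ᶠ j : ℕ in atTop, ∀ x ∈ Ω, |margF p f j x - ∫ z, f z ∂mX p| ≤ 3 * ε := by
  set c := ∫ z, f z ∂mX p with hcdef
  refine hΩ.induction_on (p := fun S => ∀ᶠ j : ℕ in atTop, ∀ x ∈ S, |margF p f j x - c| ≤ 3 * ε)
    (by simp) (fun S T hST hT => hT.mono fun j hj x hx => hj x (hST hx))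
    (fun S T hS hT => (hS.and hT).mono fun j hj x hx => hx.elim (hj.1 x) (hj.2 x))
    fun x₀ _ => ?_
  have hN := exists_nhds_smul p x₀ (marg_equi p f.continuous hc hε)
  obtain ⟨U, hUN, hU, hx₀⟩ := mem_nhds_iff.1 hN
  have hnear : ∀ j, ∀ y ∈ U, |margF p f j y - margF p f j x₀| ≤ ε := by
    intro j y hy
    obtain ⟨g, hg, rfl⟩ := hUN hy
    exact hg j x₀
  have hpos : 0 < (mX p).real U :=
    ENNReal.toReal_pos (mX_pos p hU ⟨x₀, hx₀⟩) (measure_ne_top _ _)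
  refine ⟨U, mem_nhdsWithin_of_mem_nhds (hU.mem_nhds hx₀), ?_⟩
  filter_upwards [(margF_l1 p f).eventually_lt_const (mul_pos hε hpos)] with j hj y hy
  have hint : Integrable (fun x => |margF p f j x - c|) (mX p) := by
    refine Integrable.of_bound
      ((margF_cont p f j).sub continuous_const).abs.aestronglyMeasurable (2 * ‖f‖)
      (Eventually.of_forall fun x => ?_)
    rw [Real.norm_eq_abs, abs_abs, margF_eq]
    exact marg_bd p f _ _
  have h0 : |margF p f j x₀ - c| ≤ 2 * ε := by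
    by_contra hlt
    have hlt' := not_le.1 hlt
    have h1 : ε * (mX p).real U ≤ ∫ x in U, |margF p f j x - c| ∂mX p := by
      refine setIntegral_ge_of_const_le_real hU.measurableSet (measure_ne_top _ _)
        (fun z hz => ?_) hint.integrableOn
      have h3 := hnear j z hz
      have h4 := abs_sub_le (margF p f j x₀) (margF p f j z) c
      rw [abs_sub_comm] at h3
      linarith
    have h2 : ∫ x in U, |margF p f j x - c| ∂mX p ≤ ∫ x, |margF p f j x - c| ∂mX p :=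
      setIntegral_le_integral hint (Eventually.of_forall fun x => abs_nonneg _)
    linarith
  have h3 := hnear j y hy
  have h4 := abs_sub_le (margF p f j y) (margF p f j x₀) c
  linarith

theorem marg (μ : Measure (XX p)) [IsProbabilityMeasure μ] (hμ : Inv (ufl1 p) μ)
    (h : ∀ ε : ℝ≥0∞, 0 < ε → ∃ Ω : Set (XX p), IsCompact Ω ∧
      ∀ j : ℕ, μ {x | aP p j • x ∉ Ω} ≤ ε) : μ = mX p := by
  refine ext_cc fun f hc => ?_
  set c := ∫ z, f z ∂mX p with hcdef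
  have main : ∀ ε : ℝ, 0 < ε → |∫ z, f z ∂μ - c| ≤ (3 + 2 * ‖f‖) * ε := by
    intro ε hε
    obtain ⟨Ω, hΩ, hμΩ⟩ := h (ENNReal.ofReal ε) (ENNReal.ofReal_pos.2 hε)
    obtain ⟨j, hj⟩ := (margF_unif p f hc hε hΩ).exists
    set E : Set (XX p) := {x | aP p j • x ∉ Ω} with hE
    have hEm : MeasurableSet E :=
      (hΩ.isClosed.isOpen_compl.preimage (continuous_const_smul (aP p j))).measurableSet
    have hEr : μ.real E ≤ ε := ENNReal.toReal_le_of_le_ofReal hε.le (hμΩ j)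
    set A : XX p → ℝ := fun w => ∫ z, f z ∂orb (ufl1 p) (2 * j : ℕ) w with hA
    have hAc : Continuous A := continuous_integral_orb (ufl1 p) _ f
    have hAb : ∀ w, |A w - c| ≤ 2 * ‖f‖ := fun w => marg_bd p f _ _
    have hAi : Integrable A μ :=
      Integrable.of_bound hAc.aestronglyMeasurable ‖f‖
        (Eventually.of_forall fun w => f.norm_integral_le_norm _)
    have h1 : ∫ z, f z ∂μ - c = ∫ w, (A w - c) ∂μ := by
      rw [integral_sub hAi (integrable_const _), hμ.integral_orb _ _ f]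
      simp
    have hGi : Integrable (fun w => 3 * ε + E.indicator (fun _ => 2 * ‖f‖) w) μ :=
      (integrable_const _).add ((integrable_const _).indicator hEm)
    have h2 : ‖∫ w, (A w - c) ∂μ‖ ≤ ∫ w, (3 * ε + E.indicator (fun _ => 2 * ‖f‖) w) ∂μ := by
      refine norm_integral_le_of_norm_le hGi (Eventually.of_forall fun w => ?_)
      rw [Real.norm_eq_abs]
      by_cases hw : w ∈ E
      · rw [Set.indicator_of_mem hw]
        have := hAb w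
        linarith
      · rw [Set.indicator_of_notMem hw, add_zero]
        have h3 := hj (aP p j • w) (not_not.1 hw)
        rwa [margF_eq, inv_smul_smul] at h3
    rw [integral_add (integrable_const _) ((integrable_const _).indicator hEm),
      integral_indicator_const _ hEm] at h2
    rw [h1, ← Real.norm_eq_abs]
    refine h2.trans ?_
    have h4 : μ.real E * (2 * ‖f‖) ≤ ε * (2 * ‖f‖) :=
      mul_le_mul_of_nonneg_right hEr (by positivity)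
    simp only [integral_const, probReal_univ, smul_eq_mul, one_mul]
    linarith
  have hK : 0 < 3 + 2 * ‖f‖ := by positivity
  have h0 : |∫ z, f z ∂μ - c| ≤ 0 := by
    refine le_of_forall_pos_le_add fun η hη => ?_
    have := main (η / (3 + 2 * ‖f‖)) (by positivity)
    rw [mul_div_cancel₀ _ hK.ne'] at this
    linarith
  exact sub_eq_zero.1 (abs_nonpos_iff.1 h0)

end Pool.Agent.EQ
end
end

-- part Pool.Agent.P.MP_ad7a55_nt.VMf
section

/-! The ring of modular functions of level N. -/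

set_option autoImplicit false

noncomputable section

open MeasureTheory Topology Filter UpperHalfPlane
open scoped MatrixGroups ENNReal BoundedContinuousFunction

namespace Pool.Agent.EQ

def MF (N : ℕ) (L : IntermediateField ℚ ℂ) : Set (ℍ → ℂ) :=
  {f | IsMF (CongruenceSubgroup.Gamma N) N L f}

variable {N : ℕ} {L : IntermediateField ℚ ℂ} {f g : ℍ → ℂ}

theorem isMF_iff {Γ : Subgroup SL(2, ℤ)} : IsMF Γ N L f ↔ (∀ γ ∈ Γ, ∀ τ : ℍ, f (γ • τ) = f τ) ∧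
    ∃ m : ℕ, ∀ γ : SL(2, ℤ), QS N L fun τ => ModularForm.discriminant τ ^ m * f (γ • τ) :=
  Iff.rfl

theorem vmf_congr {f g : ℍ → ℂ} (h : QS N L f) (e : ∀ τ, g τ = f τ) : QS N L g :=
  (funext e : g = f) ▸ h

theorem vmf_disc (hN : 0 < N) (k : ℕ) : QS N L fun τ => ModularForm.discriminant τ ^ k :=
  (iq2_intQ_disc.pow k).qs hN

theorem vmf_gamma {N' : ℕ} (h : N ∣ N') :
    CongruenceSubgroup.Gamma N' ≤ CongruenceSubgroup.Gamma N := by
  intro γ hγ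
  rw [CongruenceSubgroup.Gamma_mem] at hγ ⊢
  obtain ⟨h1, h2, h3, h4⟩ := hγ
  have e : ∀ x : ℤ, ZMod.castHom h (ZMod N) (x : ZMod N') = (x : ZMod N) := fun x =>
    map_intCast _ x
  refine ⟨?_, ?_, ?_, ?_⟩
  · rw [← e, h1, map_one]
  · rw [← e, h2, map_zero]
  · rw [← e, h3, map_zero]
  · rw [← e, h4, map_one]

theorem vmf_mk {f : ℍ → ℂ} (h1 : ∀ γ ∈ CongruenceSubgroup.Gamma N, ∀ τ : ℍ, f (γ • τ) = f τ) (m : ℕ)
    (h2 : ∀ γ : SL(2, ℤ), QS N L fun τ => ModularForm.discriminant τ ^ m * f (γ • τ)) :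
    f ∈ MF N L := ⟨h1, m, h2⟩

theorem IsMF.mf {Γ : Subgroup SL(2, ℤ)} (hΓ : CongruenceSubgroup.Gamma N ≤ Γ)
    {L' : IntermediateField ℚ ℂ} (hL : L ≤ L') (h : IsMF Γ N L f) : f ∈ MF N L' := by
  obtain ⟨h1, m, h2⟩ := isMF_iff.1 h
  exact isMF_iff.2 ⟨fun γ hγ => h1 γ (hΓ hγ), m, fun γ => (h2 γ).mono hL⟩

theorem MF.inv (hf : f ∈ MF N L) {γ : SL(2, ℤ)} (hγ : γ ∈ CongruenceSubgroup.Gamma N) (τ : ℍ) :
    f (γ • τ) = f τ := hf.1 γ hγ τ

theorem MF.add (hN : 0 < N) (hf : f ∈ MF N L) (hg : g ∈ MF N L) :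
    (fun τ => f τ + g τ) ∈ MF N L := by
  obtain ⟨h1, m, h2⟩ := isMF_iff.1 hf
  obtain ⟨h3, k, h4⟩ := isMF_iff.1 hg
  refine vmf_mk (fun γ hγ τ => by rw [h1 γ hγ, h3 γ hγ]) (m + k) fun γ => ?_
  refine vmf_congr (((vmf_disc hN k).mul hN (h2 γ)).add ((vmf_disc hN m).mul hN (h4 γ))) fun τ => ?_
  ring

theorem MF.mul (hN : 0 < N) (hf : f ∈ MF N L) (hg : g ∈ MF N L) :
    (fun τ => f τ * g τ) ∈ MF N L := by
  obtain ⟨h1, m, h2⟩ := isMF_iff.1 hf
  obtain ⟨h3, k, h4⟩ := isMF_iff.1 hg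
  refine vmf_mk (fun γ hγ τ => by rw [h1 γ hγ, h3 γ hγ]) (m + k) fun γ => ?_
  refine vmf_congr ((h2 γ).mul hN (h4 γ)) fun τ => ?_
  ring

theorem MF.const {c : ℂ} (hc : c ∈ L) : (fun _ : ℍ => c) ∈ MF N L := by
  refine vmf_mk (fun _ _ _ => rfl) 0 fun γ => vmf_congr (qs_const hc) fun τ => ?_
  simp

theorem MF.sub (hN : 0 < N) (hf : f ∈ MF N L) (hg : g ∈ MF N L) :
    (fun τ => f τ - g τ) ∈ MF N L := by
  have h := MF.add hN hf (MF.mul hN (MF.const (c := -1) (neg_mem (one_mem L))) hg)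
  have e : (fun τ => f τ - g τ) = fun τ => f τ + -1 * g τ := by
    funext τ
    ring
  rw [e]
  exact h

theorem MF.pow (hN : 0 < N) (hf : f ∈ MF N L) (m : ℕ) : (fun τ => f τ ^ m) ∈ MF N L := by
  induction m with
  | zero => simpa using MF.const (N := N) (one_mem L)
  | succ m ih => simpa only [pow_succ] using MF.mul hN ih hf

theorem MF.sum (hN : 0 < N) {ι : Type} (s : Finset ι) {f : ι → ℍ → ℂ}
    (hf : ∀ i ∈ s, f i ∈ MF N L) : (fun τ => ∑ i ∈ s, f i τ) ∈ MF N L := by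
  classical
  induction s using Finset.induction_on with
  | empty => simpa using MF.const (N := N) (zero_mem L)
  | insert i s hi ih =>
    simp only [Finset.sum_insert hi]
    exact MF.add hN (hf i (Finset.mem_insert_self i s))
      (ih fun k hk => hf k (Finset.mem_insert_of_mem hk))

theorem MF.prod (hN : 0 < N) {ι : Type} (s : Finset ι) {f : ι → ℍ → ℂ}
    (hf : ∀ i ∈ s, f i ∈ MF N L) : (fun τ => ∏ i ∈ s, f i τ) ∈ MF N L := by
  classical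
  induction s using Finset.induction_on with
  | empty => simpa using MF.const (N := N) (one_mem L)
  | insert i s hi ih =>
    simp only [Finset.prod_insert hi]
    exact MF.mul hN (hf i (Finset.mem_insert_self i s))
      (ih fun k hk => hf k (Finset.mem_insert_of_mem hk))

theorem MF.smul (hf : f ∈ MF N L) (γ : SL(2, ℤ)) : (fun τ => f (γ • τ)) ∈ MF N L := by
  obtain ⟨h1, m, h2⟩ := isMF_iff.1 hf
  refine vmf_mk (fun δ hδ τ => ?_) m fun δ => vmf_congr (h2 (γ * δ)) fun τ => ?_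
  · have h3 := h1 _ ((CongruenceSubgroup.Gamma_normal N).conj_mem δ hδ γ) (γ • τ)
    rwa [← mul_smul, inv_mul_cancel_right, mul_smul] at h3
  · rw [mul_smul]

theorem vmf_E4 (τ : ℍ) : ModularForm.E₄ τ ^ 3 = ModularForm.discriminant τ * jInv τ := by
  have h2 := ModularForm.discriminant_ne_zero τ
  unfold jInv
  field_simp

theorem MF.j (hN : 0 < N) : jInv ∈ MF N L := by
  refine isMF_iff.2 ⟨fun γ _ τ => jInv_smul γ τ, 1, fun γ =>
    vmf_congr ((intQ_E4.pow 3).qs hN) fun τ => ?_⟩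
  rw [jInv_smul, pow_one, vmf_E4]

theorem MF.mono {N' : ℕ} {L' : IntermediateField ℚ ℂ} (hN' : 0 < N') (h : N ∣ N') (hL : L ≤ L')
    (hf : f ∈ MF N L) : f ∈ MF N' L' := by
  obtain ⟨h1, m, h2⟩ := isMF_iff.1 hf
  exact isMF_iff.2 ⟨fun γ hγ => h1 γ (vmf_gamma h hγ), m, fun γ => ((h2 γ).mono hL).level hN' h⟩

theorem vmf_ratio {a d : ℕ} (ha : 0 < a) (hd : 0 < d) (b : ℤ) (hz : zt d ∈ L) {w : ℍ → ℍ}
    (hw : ∀ τ : ℍ, (w τ : ℂ) = (a * τ + b) / d) :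
    QS d L fun τ => ModularForm.discriminant τ ^ (a * d) / ModularForm.discriminant (w τ) := by
  have h1 : IntQ fun τ => ((1 : ℤ) : ℂ) / (ModularForm.discriminant τ / qq τ) :=
    (intQ_int 1).iq2_div intQ_disc_div iq2_disc_div_tendsto iq2_disc_div_ne
  have h2 := QS.aff one_pos (h1.qs (L := L) one_pos) ha hd b le_rfl (by rwa [one_mul]) hw
  rw [one_mul] at h2
  obtain ⟨k, hk⟩ : ∃ k, a * d * d = a + k :=
    Nat.exists_eq_add_of_le (by rw [mul_assoc]; exact Nat.le_mul_of_pos_right a (Nat.mul_pos hd hd))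
  have h3 : QS d L fun τ => zt d ^ (-b) * qN d τ ^ k :=
    (qs_const (zpow_mem hz _)).mul hd ((qs_qN d L).pow hd k)
  refine vmf_congr ((h3.mul hd ((intQ_disc_div.pow (a * d)).qs hd)).mul hd h2) fun τ => ?_
  have hd0 : (d : ℂ) ≠ 0 := Nat.cast_ne_zero.2 hd.ne'
  have h4 : qq τ ^ (a * d) = zt d ^ (-b) * qN d τ ^ k * qq (w τ) := by
    have h5 : (a * d * d : ℂ) = a + k := by exact_mod_cast hk
    rw [qq, qq, zt, qN, hw, ← Complex.exp_nat_mul, ← Complex.exp_nat_mul, ← Complex.exp_int_mul,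
      ← Complex.exp_add, ← Complex.exp_add]
    refine congrArg Complex.exp ?_
    push_cast
    field_simp
    linear_combination (τ : ℂ) * h5
  have h6 := iq2_qq_ne τ
  have h7 := ModularForm.discriminant_ne_zero (w τ)
  have h8 : ModularForm.discriminant τ ^ (a * d) =
      (ModularForm.discriminant τ / qq τ) ^ (a * d) * qq τ ^ (a * d) := by
    rw [← mul_pow, div_mul_cancel₀ _ h6]
  rw [h8, h4, Int.cast_one, one_div_div]
  ring

theorem MF.act (hN : 0 < N) (hf : f ∈ MF N L) {ξ : MZ} (hξ : 0 < ξ.det) {N' : ℕ} (hN' : 0 < N')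
    (h : N * ξ.det.natAbs ∣ N') {L' : IntermediateField ℚ ℂ} (hL : L ≤ L') (hz : zt N' ∈ L') :
    (fun τ => f (act ξ τ)) ∈ MF N' L' := by
  obtain ⟨h1, m, h2⟩ := isMF_iff.1 hf
  have hdet : ∀ γ : SL(2, ℤ), (γ : MZ).det = 1 := fun γ => γ.det_coe
  have hpos : ∀ γ : SL(2, ℤ), 0 < (γ : MZ).det := fun γ => by rw [hdet]; exact one_pos
  refine vmf_mk (fun γ hγ τ => ?_) (ξ.det.natAbs * m) fun γ => ?_
  · obtain ⟨γ', hγ', e⟩ := act_conj hξ N (vmf_gamma h hγ)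
    rw [← act_SL γ τ, ← act_mul hξ (hpos γ), e, act_mul (hpos γ') hξ, act_SL, h1 γ' hγ']
  · have h3 : (ξ * (γ : MZ)).det = ξ.det := by rw [Matrix.det_mul, hdet, mul_one]
    obtain ⟨γ', a, d, b, ha, hd, had, e⟩ := act_hnf (ξ := ξ * (γ : MZ)) (h3 ▸ hξ)
    rw [h3] at had
    have h4 : ξ.det.natAbs = a * d := by
      rw [← had, Int.natAbs_mul, Int.natAbs_natCast, Int.natAbs_natCast]
    have h5 : 0 < (!![(a : ℤ), b; 0, (d : ℤ)] : MZ).det := by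
      rw [Matrix.det_fin_two_of, mul_zero, sub_zero, had]
      exact hξ
    have hw : ∀ τ : ℍ, (Pool.Agent.EQ.act !![(a : ℤ), b; 0, (d : ℤ)] τ : ℂ) = (a * τ + b) / d :=
      fun τ => by simp [coe_act h5]
    have h6 : N * d ∣ N' := (Nat.mul_dvd_mul_left N (h4 ▸ Dvd.intro_left a rfl)).trans h
    have h7 : d ∣ N' := (Dvd.intro_left N rfl).trans h6
    have h8 := (QS.aff hN (h2 γ') ha hd b hL (zt_dvd hN' h6 hz) hw).level hN' h6
    have h9 := ((vmf_ratio ha hd b (zt_dvd hN' h7 hz) hw).level hN' h7).pow hN' m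
    refine vmf_congr (h9.mul hN' h8) fun τ => ?_
    have h10 := ModularForm.discriminant_ne_zero (Pool.Agent.EQ.act !![(a : ℤ), b; 0, (d : ℤ)] τ)
    rw [← act_SL γ τ, ← act_mul hξ (hpos γ), e, act_mul (hpos γ') h5, act_SL, h4, ← mul_assoc,
      ← mul_pow, div_mul_cancel₀ _ h10, pow_mul]

theorem MF.eq_zero (hN : 0 < N) (hf : f ∈ MF N L) (hg : g ∈ MF N L) (h : ∀ τ, f τ * g τ = 0) :
    (∀ τ, f τ = 0) ∨ ∀ τ, g τ = 0 := by
  obtain ⟨_, m, h2⟩ := isMF_iff.1 hf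
  obtain ⟨_, k, h4⟩ := isMF_iff.1 hg
  have h5 := QS.eq_zero hN (h2 1) (h4 1) fun τ => by
    rw [one_smul, mul_mul_mul_comm, h, mul_zero]
  simp only [one_smul] at h5
  refine h5.imp (fun h6 τ => ?_) fun h6 τ => ?_
  · exact (mul_eq_zero.1 (h6 τ)).resolve_left (pow_ne_zero _ (ModularForm.discriminant_ne_zero τ))
  · exact (mul_eq_zero.1 (h6 τ)).resolve_left (pow_ne_zero _ (ModularForm.discriminant_ne_zero τ))

theorem vmf_one : QS 1 L f ↔
    ∃ c : ℕ → ℂ, (∀ n, c n ∈ L) ∧ ∀ τ : ℍ, HasSum (fun n => c n * qq τ ^ n) (f τ) := by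
  have e : ∀ τ, qN 1 τ = qq τ := fun τ => by rw [qN, qq, Nat.cast_one, div_one]
  simp only [QS, e]

theorem vmf_poly (m : ℕ) {f : ℍ → ℂ} (hf : QS 1 L f)
    (hw : ∀ (γ : SL(2, ℤ)) (τ : ℍ), f (γ • τ) = ((γ 1 0 : ℂ) * τ + γ 1 1) ^ (12 * m) * f τ) :
    ∃ P : Polynomial ℂ, (∀ n, P.coeff n ∈ L) ∧
      ∀ τ, f τ = ModularForm.discriminant τ ^ m * P.eval (jInv τ) := by
  induction m generalizing f with
  | zero =>
    obtain ⟨a, haL, ha⟩ := vmf_one.1 hf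
    refine ⟨Polynomial.C (a 0), fun n => ?_, fun τ => ?_⟩
    · rw [Polynomial.coeff_C]
      split_ifs
      · exact haL 0
      · exact zero_mem L
    · rw [iq2_const ha (fun γ τ => by simpa using hw γ τ) τ]
      simp
  | succ m ih =>
    obtain ⟨a, haL, ha⟩ := vmf_one.1 hf
    have hg : QS 1 L fun τ => f τ + -a 0 * (ModularForm.E₄ τ ^ 3) ^ (m + 1) :=
      hf.add ((qs_const (neg_mem (haL 0))).mul one_pos (((intQ_E4.pow 3).pow (m + 1)).qs one_pos))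
    have hg0 : Tendsto (fun τ => f τ + -a 0 * (ModularForm.E₄ τ ^ 3) ^ (m + 1))
        atImInfty (𝓝 0) := by
      have h1 := (iq2_tendsto ha).add (((iq2_E4_tendsto.pow 3).pow (m + 1)).const_mul (-a 0))
      simpa using h1
    obtain ⟨c, hcL, hc⟩ := vmf_one.1 hg
    have hc0 : c 0 = 0 := tendsto_nhds_unique (iq2_tendsto hc) hg0
    have hs : QS 1 L fun τ => (f τ + -a 0 * (ModularForm.E₄ τ ^ 3) ^ (m + 1)) / qq τ :=
      vmf_one.2 ⟨fun n => c (n + 1), fun n => hcL _, iq2_shift hc hc0⟩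
    have h1 : IntQ fun τ => ((1 : ℤ) : ℂ) / (ModularForm.discriminant τ / qq τ) :=
      (intQ_int 1).iq2_div intQ_disc_div iq2_disc_div_tendsto iq2_disc_div_ne
    have hh : QS 1 L fun τ => (f τ - a 0 *
        (ModularForm.discriminant τ * jInv τ) ^ (m + 1)) / ModularForm.discriminant τ := by
      refine vmf_congr (hs.mul one_pos (h1.qs one_pos)) fun τ => ?_
      have h1 := iq2_qq_ne τ
      have h2 := ModularForm.discriminant_ne_zero τ
      rw [vmf_E4, Int.cast_one]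
      field_simp
      ring
    obtain ⟨P, hP, hPf⟩ := ih hh (by
      intro γ τ
      have h1 := iq2_den_ne γ τ
      have h2 := ModularForm.discriminant_ne_zero τ
      rw [hw, disc_smul, jInv_smul]
      generalize ((γ 1 0 : ℂ) * τ + γ 1 1) = u at h1 ⊢
      field_simp
      ring)
    refine ⟨Polynomial.C (a 0) * Polynomial.X ^ (m + 1) + P, fun n => ?_, fun τ => ?_⟩
    · rw [Polynomial.coeff_add, Polynomial.coeff_C_mul_X_pow]
      refine add_mem ?_ (hP n)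
      split_ifs
      · exact haL 0
      · exact zero_mem L
    · have h1 := hPf τ
      have h2 := ModularForm.discriminant_ne_zero τ
      rw [div_eq_iff h2] at h1
      simp only [Polynomial.eval_add, Polynomial.eval_mul, Polynomial.eval_pow, Polynomial.eval_X,
        Polynomial.eval_C]
      linear_combination h1

/-- A function of level one is a polynomial in `j` with coefficients in the same field. -/
theorem MF.poly (hN : 0 < N) (hf : f ∈ MF N L) (h : ∀ (γ : SL(2, ℤ)) (τ : ℍ), f (γ • τ) = f τ) :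
    ∃ P : Polynomial ℂ, (∀ n, P.coeff n ∈ L) ∧ ∀ τ, f τ = P.eval (jInv τ) := by
  obtain ⟨_, m, h2⟩ := isMF_iff.1 hf
  have h3 : QS N L fun τ => ModularForm.discriminant τ ^ m * f τ :=
    vmf_congr (h2 1) fun τ => by rw [one_smul]
  have h4 : ∀ (γ : SL(2, ℤ)) (τ : ℍ), ModularForm.discriminant (γ • τ) ^ m * f (γ • τ) =
      ((γ 1 0 : ℂ) * τ + γ 1 1) ^ (12 * m) * (ModularForm.discriminant τ ^ m * f τ) := by
    intro γ τ
    rw [h, disc_smul, mul_pow, pow_mul, mul_assoc]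
  have h5 := h3.one hN fun τ => by
    rw [h4]
    simp [ModularGroup.T]
  obtain ⟨P, hP, hPf⟩ := vmf_poly m h5 h4
  exact ⟨P, hP, fun τ =>
    mul_left_cancel₀ (pow_ne_zero m (ModularForm.discriminant_ne_zero τ)) (hPf τ)⟩

end Pool.Agent.EQ
end
end

-- part Pool.Agent.P.MP_ad7a55_nt.VMh
section

/-! The hyperbolic measure of a subgroup of finite index. -/

set_option autoImplicit false

noncomputable section

open MeasureTheory Topology Filter UpperHalfPlane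
open scoped MatrixGroups ENNReal BoundedContinuousFunction

namespace Pool.Agent.EQ

theorem vmh_cont (γ : SL(2, ℤ)) : Continuous fun τ : ℍ => γ • τ :=
  continuous_const_smul (Matrix.SpecialLinearGroup.mapGL ℝ γ)

theorem vmh_meas (γ : SL(2, ℤ)) : Measurable fun τ : ℍ => γ • τ := (vmh_cont γ).measurable

theorem vmh_prob :
    IsProbabilityMeasure (ProbabilityTheory.cond (volume : Measure ℍ) ModularGroup.fd) :=
  ProbabilityTheory.cond_isProbabilityMeasure_of_finite jbas_volume_fd_pos.ne'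
    jbas_volume_fd_lt_top.ne

theorem vmh_card (Γ : Subgroup SL(2, ℤ)) [Fintype (SL(2, ℤ) ⧸ Γ)] :
    Fintype.card (SL(2, ℤ) ⧸ Γ) = Γ.index := by
  rw [Subgroup.index, Nat.card_eq_fintype_card]

theorem vmh_apply (Γ : Subgroup SL(2, ℤ)) [Fintype (SL(2, ℤ) ⧸ Γ)] {E : Set ℍ}
    (hE : MeasurableSet E) : mH Γ E = (Γ.index : ℝ≥0∞)⁻¹ * ∑ c : SL(2, ℤ) ⧸ Γ,
      ProbabilityTheory.cond (volume : Measure ℍ) ModularGroup.fd {τ | c.out⁻¹ • τ ∈ E} := by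
  rw [mH, Measure.smul_apply, smul_eq_mul, Measure.sum_apply _ hE, tsum_fintype]
  congr 1
  refine Finset.sum_congr rfl fun c _ => ?_
  rw [Measure.map_apply (vmh_meas _) hE]
  rfl

theorem vmh_ne (Γ : Subgroup SL(2, ℤ)) [Γ.FiniteIndex] : (Γ.index : ℝ≥0∞) ≠ 0 := by
  exact_mod_cast Subgroup.FiniteIndex.index_ne_zero

theorem vmh_const (Γ : Subgroup SL(2, ℤ)) [Γ.FiniteIndex] [Fintype (SL(2, ℤ) ⧸ Γ)] (x : ℝ≥0∞) :
    (Γ.index : ℝ≥0∞)⁻¹ * ∑ _c : SL(2, ℤ) ⧸ Γ, x = x := by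
  rw [Finset.sum_const, Finset.card_univ, vmh_card, nsmul_eq_mul, ← mul_assoc,
    ENNReal.inv_mul_cancel (vmh_ne Γ) (ENNReal.natCast_ne_top _), one_mul]

theorem vmh_sum_level {Γ Γ' : Subgroup SL(2, ℤ)} [Fintype (SL(2, ℤ) ⧸ Γ)]
    [Fintype (SL(2, ℤ) ⧸ Γ')] (h : Γ' ≤ Γ) (F : SL(2, ℤ) → ℝ≥0∞)
    (hF : ∀ g, ∀ γ ∈ Γ, F (g * γ) = F g) :
    ∑ c : SL(2, ℤ) ⧸ Γ', F c.out = (Γ'.relIndex Γ : ℝ≥0∞) * ∑ c : SL(2, ℤ) ⧸ Γ, F c.out := by
  let e := Subgroup.quotientEquivProdOfLE h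
  have hfin : Finite ((SL(2, ℤ) ⧸ Γ) × (Γ ⧸ Γ'.subgroupOf Γ)) := Finite.of_equiv _ e
  have hfin2 : Finite (Γ ⧸ Γ'.subgroupOf Γ) :=
    Finite.prod_right (SL(2, ℤ) ⧸ Γ)
  have := Fintype.ofFinite (Γ ⧸ Γ'.subgroupOf Γ)
  have h1 : ∀ c : SL(2, ℤ) ⧸ Γ', F c.out = F (e c).1.out := by
    intro c
    have h2 : (e c).1 = (QuotientGroup.mk c.out : SL(2, ℤ) ⧸ Γ) := by
      conv_lhs => rw [← QuotientGroup.out_eq' c]
      rfl
    obtain ⟨γ, hγ⟩ := QuotientGroup.mk_out_eq_mul Γ c.out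
    rw [h2, hγ, hF _ _ γ.2]
  rw [Finset.sum_congr rfl fun c _ => h1 c,
    Equiv.sum_comp e (fun x => F x.1.out), Fintype.sum_prod_type, Finset.mul_sum]
  refine Finset.sum_congr rfl fun c _ => ?_
  dsimp only
  rw [Finset.sum_const, Finset.card_univ, nsmul_eq_mul, Subgroup.relIndex, Subgroup.index,
    Nat.card_eq_fintype_card]

variable {Γ : Subgroup SL(2, ℤ)}

theorem mH_prob [Γ.FiniteIndex] : IsProbabilityMeasure (mH Γ) := by
  have := Γ.fintypeQuotientOfFiniteIndex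
  have := vmh_prob
  constructor
  rw [vmh_apply Γ MeasurableSet.univ]
  simp only [Set.mem_univ, Set.ofPred_true, measure_univ]
  exact vmh_const Γ 1

theorem integral_mH [Γ.FiniteIndex] (φ : ℍ →ᵇ ℝ) : ∫ τ, φ τ ∂mH Γ = (Γ.index : ℝ)⁻¹ *
    ∑ᶠ c : SL(2, ℤ) ⧸ Γ, ∫ τ, φ (c.out⁻¹ • τ) ∂ProbabilityTheory.cond volume ModularGroup.fd := by
  have := Γ.fintypeQuotientOfFiniteIndex
  have := vmh_prob
  have hi : ∀ c : SL(2, ℤ) ⧸ Γ, Integrable φ
      ((ProbabilityTheory.cond (volume : Measure ℍ) ModularGroup.fd).map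
        fun τ => c.out⁻¹ • τ) := fun c => φ.integrable _
  rw [mH, integral_smul_measure, Measure.sum_fintype,
    integral_finsetSum_measure fun c _ => hi c, finsum_eq_sum_of_fintype, smul_eq_mul,
    ENNReal.toReal_inv, ENNReal.toReal_natCast]
  congr 1
  refine Finset.sum_congr rfl fun c _ => ?_
  exact integral_map (vmh_meas _).aemeasurable φ.continuous.aestronglyMeasurable

theorem mH_null [Γ.FiniteIndex] {E : Set ℍ} (hE : volume E = 0) : mH Γ E = 0 := by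
  have := Γ.fintypeQuotientOfFiniteIndex
  obtain ⟨E', h1, h2, h3⟩ := exists_measurable_superset_of_null hE
  refine measure_mono_null h1 ?_
  rw [vmh_apply Γ h2, Finset.sum_eq_zero, mul_zero]
  intro c _
  apply ProbabilityTheory.cond_absolutelyContinuous
  have h4 := measure_preimage_smul (μ := (volume : Measure ℍ))
    (Matrix.SpecialLinearGroup.mapGL ℝ c.out⁻¹) E'
  rw [h3] at h4
  exact h4

/-- The measure of an invariant set does not depend on the level. -/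
theorem mH_level [Γ.FiniteIndex] {Γ' : Subgroup SL(2, ℤ)} [Γ'.FiniteIndex] (h : Γ' ≤ Γ)
    {E : Set ℍ} (hE : MeasurableSet E) (hi : ∀ γ ∈ Γ, ∀ τ ∈ E, γ • τ ∈ E) :
    mH Γ' E = mH Γ E := by
  have := Γ.fintypeQuotientOfFiniteIndex
  have := Γ'.fintypeQuotientOfFiniteIndex
  have hr : (Γ'.relIndex Γ : ℝ≥0∞) * Γ.index = Γ'.index := by
    exact_mod_cast Subgroup.relIndex_mul_index h
  have hr0 : (Γ'.relIndex Γ : ℝ≥0∞) ≠ 0 := by
    intro h0
    rw [h0, zero_mul] at hr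
    exact vmh_ne Γ' hr.symm
  rw [vmh_apply Γ hE, vmh_apply Γ' hE, vmh_sum_level h (fun g =>
    ProbabilityTheory.cond (volume : Measure ℍ) ModularGroup.fd {τ | g⁻¹ • τ ∈ E}), ← hr,
    ENNReal.mul_inv (Or.inl hr0) (Or.inl (ENNReal.natCast_ne_top _)), mul_comm _ (Γ.index : ℝ≥0∞)⁻¹,
    mul_assoc, ← mul_assoc (Γ'.relIndex Γ : ℝ≥0∞)⁻¹,
    ENNReal.inv_mul_cancel hr0 (ENNReal.natCast_ne_top _), one_mul]
  intro g γ hγ
  congr 1
  ext τ
  simp only [Set.mem_ofPred_eq, mul_inv_rev, mul_smul]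
  constructor
  · intro h1
    have h2 := hi γ hγ _ h1
    rwa [smul_inv_smul] at h2
  · exact hi γ⁻¹ (Γ.inv_mem hγ) _

theorem map_mH_level [Γ.FiniteIndex] {Γ' : Subgroup SL(2, ℤ)} [Γ'.FiniteIndex] (h : Γ' ≤ Γ)
    {β : Type} [MeasurableSpace β] {π : ℍ → β} (hπ : Measurable π)
    (hi : ∀ γ ∈ Γ, ∀ τ, π (γ • τ) = π τ) : (mH Γ').map π = (mH Γ).map π := by
  ext A hA
  rw [Measure.map_apply hπ hA, Measure.map_apply hπ hA]
  refine mH_level h (hπ hA) fun γ hγ τ hτ => ?_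
  rw [Set.mem_preimage, hi γ hγ]
  exact hτ

theorem integral_level [Γ.FiniteIndex] {Γ' : Subgroup SL(2, ℤ)} [Γ'.FiniteIndex] (h : Γ' ≤ Γ)
    {φ : ℍ → ℝ} (hφ : Measurable φ) (hi : ∀ γ ∈ Γ, ∀ τ, φ (γ • τ) = φ τ) :
    ∫ τ, φ τ ∂mH Γ' = ∫ τ, φ τ ∂mH Γ := by
  have h1 : ∀ μ : Measure ℍ, ∫ τ, φ τ ∂μ = ∫ x, x ∂μ.map φ := fun μ =>
    (integral_map hφ.aemeasurable aestronglyMeasurable_id).symm
  rw [h1, h1, map_mH_level h hφ hi]

/-- Invariance under the normaliser. -/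
theorem map_mH_smul [Γ.FiniteIndex] [Γ.Normal] (δ : SL(2, ℤ)) {β : Type} [MeasurableSpace β]
    {π : ℍ → β} (hπ : Measurable π) (hi : ∀ γ ∈ Γ, ∀ τ, π (γ • τ) = π τ) :
    (mH Γ).map (fun τ => π (δ • τ)) = (mH Γ).map π := by
  have := Γ.fintypeQuotientOfFiniteIndex
  have hm : Measurable fun τ : ℍ => π (δ • τ) := hπ.comp (vmh_meas δ)
  ext A hA
  rw [Measure.map_apply hπ hA, Measure.map_apply hm hA, vmh_apply Γ (hπ hA), vmh_apply Γ (hm hA)]
  congr 1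
  rw [← Equiv.sum_comp (Equiv.mulRight (QuotientGroup.mk δ⁻¹ : SL(2, ℤ) ⧸ Γ)) (fun c =>
    ProbabilityTheory.cond (volume : Measure ℍ) ModularGroup.fd {τ | c.out⁻¹ • τ ∈ π ⁻¹' A})]
  refine Finset.sum_congr rfl fun c _ => ?_
  have h2 : Equiv.mulRight (QuotientGroup.mk δ⁻¹ : SL(2, ℤ) ⧸ Γ) c
      = QuotientGroup.mk (c.out * δ⁻¹) := by
    rw [QuotientGroup.mk_mul, QuotientGroup.out_eq']
    rfl
  obtain ⟨γ, hγ⟩ := QuotientGroup.mk_out_eq_mul Γ (c.out * δ⁻¹)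
  rw [h2, hγ]
  congr 1
  ext τ
  simp only [Set.mem_ofPred_eq, Set.mem_preimage, mul_inv_rev, mul_smul, inv_inv]
  rw [hi _ (Γ.inv_mem γ.2)]

theorem map_mH_j [Γ.FiniteIndex] : (mH Γ).map jInv = mY := by
  have := Γ.fintypeQuotientOfFiniteIndex
  ext A hA
  rw [Measure.map_apply continuous_jInv.measurable hA, mY,
    Measure.map_apply continuous_jInv.measurable hA, vmh_apply Γ (continuous_jInv.measurable hA)]
  simp only [Set.mem_preimage, jInv_smul]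
  exact vmh_const Γ _

end Pool.Agent.EQ
end
end

-- part Pool.Agent.P.MP_ad7a55_nt.Vol2
section

/-! Norms and products of lattices. -/

set_option autoImplicit false

noncomputable section

open MeasureTheory Topology Filter UpperHalfPlane
open scoped MatrixGroups ENNReal BoundedContinuousFunction

namespace Pool.Agent.EQ

/-- The integral ideal attached to a vector. -/
theorem DiscL.mem_Idl {Λ : Lt} {D : ℤ} (h : DiscL Λ D) {w : ℂ} (hw : w ∈ Λ) (hw0 : w ≠ 0) {n : ℕ}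
    (hn : Complex.normSq w = n * nm D Λ) :
    pr (starRingEnd ℂ w / nm D Λ) * Λ ∈ Idl D n := by
  have hν := h.nm_pos
  have hν' : ((nm D Λ : ℝ) : ℂ) ≠ 0 := by exact_mod_cast hν.ne'
  have hc : starRingEnd ℂ w / nm D Λ ≠ 0 := div_ne_zero (by simpa using hw0) hν'
  refine ⟨h.pr_mul hc, pr_mul_le.2 fun v hv => ?_, ?_⟩
  · have h1 : v * starRingEnd ℂ w ∈ Λ * Pool.Agent.EQ.cj Λ :=
      Submodule.mul_mem_mul hv (mem_cj.2 (by simpa using hw))
    rw [h.mul_cj_nm] at h1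
    obtain ⟨x, hx, e⟩ := mem_pr_mul.1 h1
    have e' : starRingEnd ℂ w / nm D Λ * v = x := by
      field_simp
      linear_combination -e
    rwa [e']
  · rw [nm_pr_mul h.isLat D hc, map_div₀, Complex.normSq_conj, Complex.normSq_ofReal, hn]
    field_simp

/-- A sublattice of index `n` contains `n` times the big lattice. -/
theorem exists_index {Λ Λ' : Lt} (h : IsLat Λ) (h' : IsLat Λ') (hle : Λ' ≤ Λ) :
    ∃ n : ℕ, 0 < n ∧ vol Λ' = n * vol Λ ∧ pr n * Λ ≤ Λ' := by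
  obtain ⟨c, τ, hc, rfl⟩ := h
  obtain ⟨c', τ', hc', rfl⟩ := h'
  obtain ⟨s, r, hrs⟩ := mem_sp.1 (hle (ord_left _ _))
  obtain ⟨q, p, hpq⟩ := mem_sp.1 (hle (ord_right _ _))
  have e1 : Complex.normSq c' * τ'.im = (starRingEnd ℂ c' * (c' * τ')).im := by
    rw [← mul_assoc, mul_comm (starRingEnd ℂ c'), Complex.mul_conj]
    simp
  have e2 : (starRingEnd ℂ c' * (c' * τ')).im =
      ((s * p - r * q : ℤ) : ℝ) * (Complex.normSq c * τ.im) := by
    rw [hpq]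
    conv_lhs => rw [hrs]
    simp only [map_add, map_mul, map_intCast, Complex.add_im, Complex.mul_im, Complex.add_re,
      Complex.mul_re, Complex.intCast_re, Complex.intCast_im, Complex.conj_re, Complex.conj_im,
      Complex.normSq_apply, coe_re, coe_im]
    push_cast
    ring
  have p1 : 0 < Complex.normSq c * τ.im := mul_pos (Complex.normSq_pos.2 hc) τ.im_pos
  have p2 : 0 < Complex.normSq c' * τ'.im := mul_pos (Complex.normSq_pos.2 hc') τ'.im_pos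
  have p3 : (0 : ℝ) < ((s * p - r * q : ℤ) : ℝ) := by
    rw [e1, e2] at p2
    exact (mul_pos_iff_of_pos_right p1).1 p2
  have p4 : 0 < s * p - r * q := by exact_mod_cast p3
  obtain ⟨n, hn⟩ := Int.eq_ofNat_of_zero_le p4.le
  have hn' : (n : ℂ) = s * p - r * q := by exact_mod_cast hn.symm
  refine ⟨n, by omega, ?_, ?_⟩
  · rw [vol_sp hc, vol_sp hc', e1, e2, hn]
    simp
  · rw [pr_mul_sp, ord_sp_le]
    refine ⟨mem_sp.2 ⟨p, -r, ?_⟩, mem_sp.2 ⟨-q, s, ?_⟩⟩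
    · push_cast
      linear_combination c * hn' - (p : ℂ) * hrs + (r : ℂ) * hpq
    · push_cast
      linear_combination (c * τ) * hn' + (q : ℂ) * hrs - (s : ℂ) * hpq

/-- Cancellation of invertible modules in class identities. -/
theorem jL_mul_congr {D D' : ℤ} {𝔞 𝔟 Λ M : Lt} (ha : DiscL 𝔞 D) (hb : DiscL 𝔟 D)
    (hΛ : DiscL Λ D') (hM : DiscL M D') (hle : OD D ≤ OD D') (h1 : jL 𝔞 = jL 𝔟)
    (h2 : jL Λ = jL M) : jL (𝔞 * Λ) = jL (𝔟 * M) := by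
  obtain ⟨c, hc, rfl⟩ := jL_inj ha.isLat hb.isLat h1
  obtain ⟨c', hc', rfl⟩ := jL_inj hΛ.isLat hM.isLat h2
  rw [mul_mul_mul_comm, pr_mul_pr, jL_pr_mul (ha.mul hΛ hle).isLat (mul_ne_zero hc hc')]

theorem jL_cj_congr {Λ M : Lt} (hΛ : IsLat Λ) (hM : IsLat M) (h : jL Λ = jL M) :
    jL (cj Λ) = jL (cj M) := by
  obtain ⟨c, hc, rfl⟩ := jL_inj hΛ hM h
  rw [cj_mul, cj_pr, jL_pr_mul hΛ.cj.1 (by simpa using hc)]

/-- Orders with coprime relative conductors. -/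
theorem OD_mul_OD {E : ℤ} (hE : IsD E) {g₁ g₂ : ℕ} (hg : Nat.Coprime g₁ g₂) :
    OD (g₁ ^ 2 * E) * OD (g₂ ^ 2 * E) = OD E := by
  apply le_antisymm
  · exact (mul_le_mul' (OD_sq_le hE g₁) (OD_sq_le hE g₂)).trans (discL_OD hE).OD_mul.le
  · obtain ⟨u, v, huv⟩ := Nat.isCoprime_iff_coprime.2 hg
    have huv' : (u : ℂ) * g₁ + v * g₂ = 1 := by exact_mod_cast huv
    have m1 : (g₁ : ℂ) * ((E + th E) / 2) ∈ OD (g₁ ^ 2 * E) := by
      rw [OD_sq_mul hE]; exact ord_right _ _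
    have m2 : (g₂ : ℂ) * ((E + th E) / 2) ∈ OD (g₂ ^ 2 * E) := by
      rw [OD_sq_mul hE]; exact ord_right _ _
    have o1 := one_mem_OD (g₁ ^ 2 * E)
    have o2 := one_mem_OD (g₂ ^ 2 * E)
    refine ord_sp_le.2 ⟨by simpa using Submodule.mul_mem_mul o1 o2, ?_⟩
    have h1 := add_mem (Submodule.smul_mem _ u (Submodule.mul_mem_mul m1 o2))
      (Submodule.smul_mem _ v (Submodule.mul_mem_mul o1 m2))
    have e : u • ((g₁ : ℂ) * ((E + th E) / 2) * 1) + v • (1 * ((g₂ : ℂ) * ((E + th E) / 2))) =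
        (E + th E) / 2 := by
      simp only [zsmul_eq_mul]
      linear_combination ((E + th E) / 2) * huv'
    rwa [e] at h1

theorem discL_mul_cop {E : ℤ} (hE : IsD E) {g₁ g₂ : ℕ} (hg : Nat.Coprime g₁ g₂) {M₁ M₂ : Lt}
    (h₁ : DiscL M₁ (g₁ ^ 2 * E)) (h₂ : DiscL M₂ (g₂ ^ 2 * E)) :
    DiscL (M₁ * M₂) E ∧ nm E (M₁ * M₂) = nm (g₁ ^ 2 * E) M₁ * nm (g₂ ^ 2 * E) M₂ ∧
      M₁ * M₂ = (M₁ * OD E) * (M₂ * OD E) := by
  have hO := discL_OD hE
  have e : M₁ * M₂ = M₁ * (M₂ * OD E) := by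
    conv_lhs => rw [← h₁.OD_mul, ← h₂.OD_mul]
    rw [mul_mul_mul_comm, OD_mul_OD hE hg, mul_comm (OD E), mul_assoc]
  have d2 : DiscL (M₂ * OD E) E := h₂.mul hO (OD_sq_le hE g₂)
  refine ⟨e ▸ h₁.mul d2 (OD_sq_le hE g₁), ?_, ?_⟩
  · rw [e, nm_mul h₁ d2 (OD_sq_le hE g₁), nm_mul h₂ hO (OD_sq_le hE g₂), nm_OD hE, mul_one]
  · rw [mul_mul_mul_comm, hO.OD_mul, mul_assoc, ← e]

/-- Passing to the bigger order. -/
theorem discL_up {E : ℤ} (hE : IsD E) {g : ℕ} {M : Lt} (h : DiscL M (g ^ 2 * E)) :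
    DiscL (M * OD E) E ∧ vol M = g * vol (M * OD E) ∧ M ≤ M * OD E ∧ pr g * (M * OD E) ≤ M := by
  have hO := discL_OD hE
  have hg : (g : ℝ) ≠ 0 := by
    have := h.isD.1
    rintro h0
    have h1 : g = 0 := by exact_mod_cast h0
    subst h1
    simp at this
  have hE' : (0 : ℝ) < Real.sqrt (-(E : ℝ)) := by
    have : (E : ℝ) < 0 := by exact_mod_cast hE.1
    exact Real.sqrt_pos.2 (by linarith)
  refine ⟨h.mul hO (OD_sq_le hE g), ?_, ?_, ?_⟩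
  · have h1 := nm_mul h hO (OD_sq_le hE g)
    have h2 : -(((g : ℤ) ^ 2 * E : ℤ) : ℝ) = (g : ℝ) ^ 2 * -(E : ℝ) := by
      push_cast
      ring
    rw [nm_OD hE, mul_one, nm, nm, h2, Real.sqrt_mul (sq_nonneg _),
      Real.sqrt_sq (Nat.cast_nonneg g)] at h1
    field_simp at h1
    linarith
  · intro v hv
    simpa using Submodule.mul_mem_mul hv (one_mem_OD E)
  · have h1 : pr g * OD E ≤ OD (g ^ 2 * E) := by
      rw [OD_sq_mul hE, OD, pr_mul_sp, ord_sp_le]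
      exact ⟨mem_sp.2 ⟨g, 0, by simp⟩, ord_right _ _⟩
    rw [mul_left_comm, mul_comm]
    exact (mul_le_mul_left h1 M).trans h.OD_mul.le

end Pool.Agent.EQ
end
end

-- part Pool.Agent.P.MP_ad7a55_nt.XGh
section

/-! The rigidity theorem with explicit numerical conditions. -/

set_option autoImplicit false

noncomputable section

open Finset Matrix
open scoped MatrixGroups Classical

namespace Pool.Agent.EQ

/-- The numerical conditions; `A₀` is the number of indices, `n` the number of test primes. -/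
structure Num (m y L u r b n p q₀ C₁ : ℕ) (H A₀ Λ θ C δ₀ c e ε Cc s Δ : ℝ) : Prop where
  y₁ : q₀ ≤ y
  y₂ : 2 ≤ y
  u₁ : 4 ≤ u
  u₂ : r ^ 2 ≤ u
  n₁ : 2 * δ₀ + (Δ + 2 * δ₀ * (m * Real.log (2 * y + 1)) + Real.log A₀ + 2) / (c * Real.log y) ≤
    5 * θ / 8
  n₂ : 8 * C ≤ θ * Real.sqrt y
  n₃ : (y : ℝ) ^ (-(c / 4)) ≤ θ / (128 * A₀)
  n₄ : A₀ ^ 2 * (32 * m * n / θ *
      (3 * (32 * m * Λ / θ) * Cc * 2 ^ b * 2 ^ L * (2 * y : ℝ) ^ (2 * L * ε) + 1)) <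
    Real.exp ((θ / (128 * A₀ * m)) ^ 2 * b * (c * Real.log y) - b) * (θ / 32 * Real.exp (-s)) ^ 2
  n₅ : (2 * y) ^ (4 * b) ≤ y ^ L
  n₆ : 2 ^ L * (4 / (u : ℝ)) ^ ((L : ℝ) / 2) * (2 * y) ^ (3 * b) ≤ 1
  n₇ : 8 * (H * Real.sqrt ((2 * y) ^ L)) + 9 ≤ (y : ℝ) ^ L
  n₈ : (8 * L + 1 : ℝ) ≤ ((2 * y : ℝ) ^ (-e)) ^ r / 2 * (θ / (128 * A₀ * (m : ℝ) ^ 2) * n)
  n₉ : 2 * y * ((y : ℝ) ^ L) ^ 7 ≤ (y : ℝ) ^ p
  n₁₀ : A₀ ^ r * (2 ^ L * ((r : ℝ) ^ 2 / u) ^ ((L : ℝ) / 2) + 32 * (m : ℝ) ^ 2 / θ *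
      (Λ * (2 * y * ((y : ℝ) ^ L) ^ 7) ^ C₁ / (y : ℝ) ^ ((r : ℝ) * L / 2))) <
    ((2 * y : ℝ) ^ (-e)) ^ r / 2 * (θ / 32 * Real.exp (-s)) ^ r

theorem xgh_atom {α β : Type} [DecidableEq β] (O : Finset α) (F : α → β) (p : α → Prop) :
    mn O (fun x => prb {x' ∈ O | F x' = F x} p) = prb O p := by
  unfold mn prb
  congr 1
  have e1 : ∀ x ∈ O, (#{z ∈ {x' ∈ O | F x' = F x} | p z} : ℝ) / #{x' ∈ O | F x' = F x} =
      ∑ z ∈ O, if F x = F z then (if p z then (1 : ℝ) else 0) / #{x' ∈ O | F x' = F z}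
        else 0 := by
    intro x _
    rw [Finset.filter_filter, ← Finset.sum_boole, Finset.sum_div]
    refine Finset.sum_congr rfl fun z _ => ?_
    by_cases e : F x = F z
    · simp [e]
    · simp [e, Ne.symm e]
  rw [Finset.sum_congr rfl e1, Finset.sum_comm, ← Finset.sum_boole]
  refine Finset.sum_congr rfl fun z hz => ?_
  have : (0 : ℝ) < #{x' ∈ O | F x' = F z} := by
    exact_mod_cast Finset.card_pos.2 ⟨z, by simp [hz]⟩
  rw [← Finset.sum_filter, Finset.sum_const, nsmul_eq_mul]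
  field_simp

theorem xgh_pick {α : Type} (O : Finset α) (p p₁ p₂ p₃ : α → Prop) {t : ℝ} (ht : 0 < t)
    (h : 4 * t ≤ prb O p) (h₁ : prb O p₁ ≤ t) (h₂ : prb O p₂ ≤ t) (h₃ : prb O p₃ ≤ t) :
    ∃ x ∈ O, p x ∧ ¬ p₁ x ∧ ¬ p₂ x ∧ ¬ p₃ x := by
  by_contra hn
  have a : prb O p ≤ prb O fun x => p₁ x ∨ (p₂ x ∨ p₃ x) := by
    refine pb_mono fun x hx hp => ?_
    by_contra h'
    exact hn ⟨x, hx, hp, fun e => h' (Or.inl e), fun e => h' (Or.inr (Or.inl e)),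
      fun e => h' (Or.inr (Or.inr e))⟩
  have a1 := pb_or O p₁ fun x => p₂ x ∨ p₃ x
  have a2 := pb_or O p₂ p₃
  linarith

theorem xgh_union {α κ : Type} (O : Finset α) (I : Finset κ) (p : κ → α → Prop) {a N θ : ℝ}
    (hθ : 0 < θ) (hN : 0 < N) (hI : (#I : ℝ) ≤ N) (ha : 0 < a)
    (h : ∀ i ∈ I, prb O (p i) ≤ a / (32 * N * a / θ)) :
    prb O (fun x => ∃ i ∈ I, p i x) ≤ θ / 32 := by
  refine (pb_exists O I p).trans ((Finset.sum_le_sum h).trans ?_)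
  rw [Finset.sum_const, nsmul_eq_mul]
  have e : a / (32 * N * a / θ) = θ / 32 / N := by field_simp
  rw [e, ← mul_div_assoc, div_le_iff₀ hN]
  nlinarith

theorem xgh_sub {L u : ℕ} {pr : Fin L → Fin u → ℕ} {M M' : Finset ℕ}
    (hp : ∀ g i, pr g i ∈ M' ∧ pr g i ∉ M) (β : Fin L → Fin u) :
    bs pr β ⊆ M' ∧ Disjoint (bs pr β) M := by
  constructor
  · intro l hl
    obtain ⟨g, -, rfl⟩ := Finset.mem_image.1 hl
    exact (hp _ _).1
  · refine Finset.disjoint_left.2 fun l hl => ?_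
    obtain ⟨g, -, rfl⟩ := Finset.mem_image.1 hl
    exact (hp _ _).2

theorem xgh_prod {L u y : ℕ} {pr : Fin L → Fin u → ℕ} (hy : 1 ≤ y) (hp : ∀ g i, pr g i ≤ 2 * y)
    (β : Fin L → Fin u) : ∏ l ∈ bs pr β, l ≤ (2 * y) ^ L := by
  refine (Finset.prod_le_pow_card _ _ (2 * y) fun l hl => ?_).trans
    (Nat.pow_le_pow_right (by omega) ?_)
  · obtain ⟨g, -, rfl⟩ := Finset.mem_image.1 hl
    exact hp _ _
  · exact Finset.card_image_le.trans (by simp)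

theorem xgh_ndvd {q : ℕ} (hq : q.Prime) {β : Finset ℕ} (h : ∀ l ∈ β, l.Prime) (hb : q ∉ β) :
    ¬ (q : ℤ) ∣ ((∏ l ∈ β, l : ℕ) : ℤ) := by
  rw [Int.natCast_dvd_natCast, hq.prime.dvd_finsetProd_iff]
  rintro ⟨l, hl, e⟩
  exact hb (((Nat.prime_dvd_prime_iff_eq hq (h l hl)).1 e) ▸ hl)

theorem xgh_num {U v N a X : ℝ} {r : ℕ} (hU : 0 < U) (hv : 0 < v) (h : v * U ≤ N)
    (h1 : X < a * v ^ r) (h2 : a * N ^ r ≤ X * U ^ r) (ha : 0 ≤ a) : False := by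
  have e1 : (v * U) ^ r ≤ N ^ r := pow_le_pow_left₀ (by positivity) h r
  have e2 := mul_lt_mul_of_pos_right h1 (pow_pos hU r)
  have e3 := mul_le_mul_of_nonneg_left e1 ha
  rw [mul_pow] at e3
  linarith

theorem xgh_sqrt {θ C : ℝ} {y q : ℕ} (hθ : 0 < θ) (hC : 0 < C) (hq : y < q)
    (h : 8 * C ≤ θ * Real.sqrt y) (m : ℕ) :
    Real.sqrt q ≤ θ * q / (8 * C * (q : ℝ) ^ m) * (q : ℝ) ^ m := by
  have q0 : (0 : ℝ) < q := by exact_mod_cast (by omega : 0 < q)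
  have e1 : θ * q / (8 * C * (q : ℝ) ^ m) * (q : ℝ) ^ m = θ * q / (8 * C) := by field_simp
  rw [e1, le_div_iff₀ (by positivity)]
  have e2 : Real.sqrt y ≤ Real.sqrt q := Real.sqrt_le_sqrt (by exact_mod_cast hq.le)
  have e3 : 8 * C ≤ θ * Real.sqrt q := h.trans (mul_le_mul_of_nonneg_left e2 hθ.le)
  calc Real.sqrt q * (8 * C) ≤ Real.sqrt q * (θ * Real.sqrt q) :=
        mul_le_mul_of_nonneg_left e3 (Real.sqrt_nonneg _)
    _ = θ * (Real.sqrt q * Real.sqrt q) := by ring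
    _ = θ * q := by rw [Real.mul_self_sqrt q0.le]

theorem xgh_block {φ : ℝ} {n b D I : ℕ} (hn : 0 < n) (hb : 0 < b) (h : φ * n < D)
    (h' : D * b ≤ I * n) : φ * b ≤ I := by
  have e1 : (0 : ℝ) < n := by exact_mod_cast hn
  have e2 : (0 : ℝ) < b := by exact_mod_cast hb
  have e3 : (D : ℝ) * b ≤ I * n := by exact_mod_cast h'
  have e4 := mul_lt_mul_of_pos_right h e2
  exact le_of_mul_le_mul_right (by linarith) e1

theorem xgh_loc {ι W 𝔅 : Type} [Fintype ι] [Nonempty ι] [Fintype 𝔅] {c e : ℝ} {q₀ y : ℕ}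
    (hG : GLP ι c e q₀) (hc : 0 < c) (he : 0 ≤ e) (hq₀ : q₀ ≤ y) (hy : 1 ≤ y) {H U v A₀ : ℝ}
    (hH : 0 ≤ H) (hU : 0 < U) (hv : 0 < v) {V : Finset W} {bb : W → 𝔅} {bs : 𝔅 → Finset ℕ}
    (v1 : v * U ≤ #V) (hA : 0 < A₀) (v2 : ∀ β, (#{w ∈ V | bb w = β} : ℝ) ≤ A₀)
    {η : W → ι → M2} {K : ι → ℕ → Set V2} (v3 : ∀ w ∈ V, ∀ k, Adm H (K k) (bs (bb w)) (η w k))
    {B : Finset ℕ} (μ μ' : ℕ → (ι → Set V2) → ℝ) (Y : ℕ → W → Finset (ι → Set V2))
    (s₀ : ℕ → ℝ) {θ : ℝ} (hθ : 0 < θ)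
    (hB : ∀ q ∈ B, q.Prime ∧ y < q ∧ q ≤ 2 * y ∧
      (∀ w ∈ V, ¬ (q : ℤ) ∣ ((∏ l ∈ bs (bb w), l : ℕ) : ℤ)) ∧
      (∀ z, 0 ≤ μ q z ∧ 0 ≤ μ' q z) ∧ ∑ z ∈ Fintype.piFinset fun _ : ι => Xn q, μ q z ≤ 1 ∧
      ∑ z ∈ Fintype.piFinset fun _ : ι => Xn q, μ' q z ≤ 1 ∧ 0 < s₀ q ∧
      Real.sqrt q ≤ s₀ q * (q : ℝ) ^ Fintype.card ι ∧
      ∀ w ∈ V, ∀ z ∈ Y q w, (z ∈ Fintype.piFinset fun _ : ι => Xn q) ∧ s₀ q ≤ μ q z ∧
        (q : ℝ) ^ (-c) * μ q z ≤ μ' q fun k => {v | (η w k).adjugate *ᵥ v ∈ z k})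
    (h1 : θ ≤ mn V fun w => mn B fun q => ∑ z ∈ Y q w, μ q z) (h2 : (y : ℝ) ^ (-(c / 4)) ≤ θ / 4)
    {L b r : ℕ} (hL : ∀ β, ∏ l ∈ bs β, l ≤ (2 * y) ^ L)
    (n7 : 8 * (H * Real.sqrt ((2 * y) ^ L)) + 9 ≤ (y : ℝ) ^ L) (hb : 0 < b) (hB0 : B.Nonempty)
    {F : Finset (Finset ℕ)} (hF1 : ∀ E ∈ F, E ⊆ B ∧ #E = b)
    (hF2 : ∀ D ⊆ B, ∃ E ∈ F, #D * b ≤ #(E ∩ D) * #B) {X₁ X₂ : ℝ}
    (t2 : ∀ k, ∀ E ∈ F, ((∏ q ∈ E, q : ℕ) : ℝ) ^ 3 *
      #{z : 𝔅 × 𝔅 | Coll H (K k) (bs z.1) (bs z.2) E} ≤ X₁ * U ^ 2)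
    (n4 : A₀ ^ 2 * X₁ <
      Real.exp ((θ / (4 * Fintype.card ι)) ^ 2 * b * (c * Real.log y) - b) * v ^ 2)
    (n8 : (8 * L + 1 : ℝ) ≤
      ((2 * y : ℝ) ^ (-e)) ^ r / 2 * (θ / (4 * (Fintype.card ι : ℝ) ^ 2) * #B))
    (t3 : ∀ k l, k ≠ l → (#{t : Fin r → 𝔅 | Xc (2 * y * ((y : ℝ) ^ L) ^ 7) (K k) (K l)
      (univ.biUnion fun i => bs (t i))} : ℝ) ≤ X₂ * U ^ r)
    (n10 : A₀ ^ r * X₂ < ((2 * y : ℝ) ^ (-e)) ^ r / 2 * v ^ r) : False := by
  have hm : (0 : ℝ) < Fintype.card ι := by exact_mod_cast Fintype.card_pos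
  have hyR : (1 : ℝ) ≤ y := by exact_mod_cast hy
  have hV : V.Nonempty := by
    rw [← Finset.card_pos]
    exact_mod_cast (mul_pos hv hU).trans_le v1
  have hlog : 0 ≤ c * Real.log y := mul_nonneg hc.le (Real.log_nonneg hyR)
  have hφ : 0 < θ / (4 * (Fintype.card ι : ℝ)) := by positivity
  obtain ⟨k, l, hkl, B', hB', c1, c2⟩ := local_gl hG hc.le he hq₀ hy hV μ μ' Y s₀ hθ
    (fun w hw k => (v3 w hw k).1) hB h1 h2 fun k => by
      by_contra hlt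
      rw [not_le] at hlt
      obtain ⟨D, hD⟩ : ∃ D, (B.filter fun q : ℕ => θ / (4 * Fintype.card ι) ≤ prb V fun w =>
        (q : ℝ) ^ (c - 3) < prb V fun w' => Pj q (η w' k) = Pj q (η w k)) = D := ⟨_, rfl⟩
      rw [hD] at hlt
      have hD1 : D ⊆ B := hD ▸ Finset.filter_subset _ _
      obtain ⟨E, hE, hE'⟩ := hF2 D hD1
      obtain ⟨hEB, hEb⟩ := hF1 E hE
      have mg := margX hV v2 (fun w hw => v3 w hw k) hy (B := E) (D := E ∩ D)
        (fun q hq => ⟨(hB q (hEB hq)).1, (hB q (hEB hq)).2.1, fun w hw => by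
          rw [(v3 w hw k).1]; exact (hB q (hEB hq)).2.2.2.1 w hw⟩) Finset.inter_subset_left
        hφ.le hc.le fun q hq => by
          have := (Finset.mem_inter.1 hq).2
          rw [← hD] at this
          exact (Finset.mem_filter.1 this).2
      rw [hEb] at mg
      have a1 := xgh_block hB0.card_pos hb hlt hE'
      refine xgh_num hU hv v1 n4 (le_trans (mul_le_mul_of_nonneg_right
        (Real.exp_le_exp.2 ?_) (by positivity)) (mg.trans ?_)) (Real.exp_pos _).le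
      · have := mul_le_mul_of_nonneg_right (mul_le_mul_of_nonneg_left a1 hφ.le) hlog
        linarith
      · rw [mul_assoc (A₀ ^ 2), mul_assoc (A₀ ^ 2)]
        exact mul_le_mul_of_nonneg_left (t2 k E hE) (by positivity)
  have he0 : (0 : ℝ) < (2 * y : ℝ) ^ (-e) := by positivity
  have xc := local_xc v2 (fun w hw => ⟨v3 w hw k, v3 w hw l⟩) hy hL hH n7 (B := B') he0.le
    (fun q hq => ⟨(hB q (hB' hq)).1, (hB q (hB' hq)).2.1, (hB q (hB' hq)).2.2.1, c2 q hq⟩) r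
    (n8.trans (mul_le_mul_of_nonneg_left c1 (by positivity)))
  refine xgh_num hU hv v1 n10 (xc.trans ?_) (by positivity)
  rw [mul_assoc (A₀ ^ r)]
  exact mul_le_mul_of_nonneg_left (t3 k l hkl) (by positivity)

theorem xgh_good {α ι γ δ : Type} [Fintype ι] {d : RD α ι γ δ} {y C₁ : ℕ}
    {H A₁ S Λ θ C δ₀ : ℝ} (h : d.Ok y H A₁ S Λ θ C δ₀ C₁) (hA : 1 ≤ A₁) (hθ : 0 < θ)
    (hC : 0 < C) {c Δ : ℝ} (hc : 0 < c) (hy : 2 ≤ y) {L u : ℕ} (hu : 0 < u)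
    {pr : Fin L → Fin u → ℕ} {M M' B : Finset ℕ} (hM : M ⊆ M') (hM' : M' ⊆ d.P)
    (hp : ∀ g i, pr g i ∈ M' ∧ pr g i ∉ M) (hB : B ⊆ d.P) (hd : Disjoint B M') (hB0 : B.Nonempty)
    (hΔ : mn B (fun q => ent d.O (d.FF M) (d.dir q) - ent d.O (d.FF M') (d.dir q)) ≤ Δ)
    (hn : 2 * δ₀ + (Δ + 2 * δ₀ * (Fintype.card ι * Real.log (2 * y + 1)) +
      Real.log (((4 * H ^ 2 + 1) ^ 4) ^ Fintype.card ι * A₁) + 2) / (c * Real.log y) ≤ 5 * θ / 8) :
    4 * (θ / 32) ≤ prb d.O fun x => θ / 4 / 2 ≤ mn univ fun β : Fin L → Fin u => mn B fun q =>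
      prb {x' ∈ d.O | d.FF M' x' = d.FF M' x} (d.TT M M' (bs pr β) q c
        (θ * q / (8 * C * (q : ℝ) ^ Fintype.card ι))) := by
  have hne : (univ : Finset (Fin L → Fin u)).Nonempty := ⟨fun _ => ⟨0, hu⟩, Finset.mem_univ _⟩
  have hl : 0 < c * Real.log y :=
    mul_pos hc (Real.log_pos (by exact_mod_cast (by omega : 1 < y)))
  refine le_trans ?_ (pb_rev (B := 1) one_pos (fun x _ => ?_) (by positivity))
  · rw [mn_swap]
    have : θ / 4 ≤ mn univ fun β : Fin L → Fin u => mn d.O fun x => mn B fun q =>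
        prb {x' ∈ d.O | d.FF M' x' = d.FF M' x} (d.TT M M' (bs pr β) q c
          (θ * q / (8 * C * (q : ℝ) ^ Fintype.card ι))) := by
      rw [← mn_const hne (θ / 4)]
      refine mn_mono fun β _ => ?_
      rw [mn_swap]
      set K := 2 * δ₀ * (Fintype.card ι * Real.log (2 * y + 1)) +
        Real.log (((4 * H ^ 2 + 1) ^ 4) ^ Fintype.card ι * A₁) + 2 with hK
      refine le_trans ?_ (mn_mono (G := fun q => (θ - θ / 8 - 2 * δ₀ - K / (c * Real.log y)) +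
        (-(c * Real.log y)⁻¹) * (ent d.O (d.FF M) (d.dir q) - ent d.O (d.FF M') (d.dir q)))
        fun q hq => ?_)
      · rw [mn_add, mn_const hB0, mn_mul]
        have e : (Δ + 2 * δ₀ * (Fintype.card ι * Real.log (2 * y + 1)) +
            Real.log (((4 * H ^ 2 + 1) ^ 4) ^ Fintype.card ι * A₁) + 2) / (c * Real.log y) =
            K / (c * Real.log y) + (c * Real.log y)⁻¹ * Δ := by
          rw [hK]; ring
        have := mul_le_mul_of_nonneg_left hΔ (inv_pos.2 hl).le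
        linarith
      · rw [xgh_atom]
        refine le_trans (le_of_eq ?_) (h.pb_TT hy hA hC hθ hM hM' (xgh_sub hp β).1
          (xgh_sub hp β).2 (hB hq) (Finset.disjoint_left.1 hd hq) hc)
        rw [hK]; ring
    linarith
  · rw [← mn_const hne 1]
    refine mn_mono fun β _ => ?_
    rw [← mn_const hB0 1]
    exact mn_mono fun q _ => pb_le_one _ _

theorem rig_core {α ι γ δ : Type} [Fintype ι] [Nonempty ι] {d : RD α ι γ δ} {y C₁ : ℕ}
    {H A₁ S Λ θ C δ₀ : ℝ} (h : d.Ok y H A₁ S Λ θ C δ₀ C₁) (hA : 1 ≤ A₁) (hH : 0 ≤ H) (hθ : 0 < θ)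
    (hC : 0 < C) (hΛ : 0 < Λ) {c e ε Cc s Δ : ℝ} {q₀ : ℕ} (hc : 0 < c) (he : 0 ≤ e) (hε : 0 ≤ ε)
    (hCc : 0 ≤ Cc) (hG : GLP ι c e q₀) (hCT : CTP H ε Cc) {L u r b : ℕ}
    {pr : Fin L → Fin u → ℕ} {M M' B : Finset ℕ} (hM : M ⊆ M') (hM' : M' ⊆ d.P)
    (hi : Function.Injective fun z : Fin L × Fin u => pr z.1 z.2)
    (hp : ∀ g i, pr g i ∈ M' ∧ pr g i ∉ M) (hB : B ⊆ d.P) (hd : Disjoint B M') (hb : 0 < b)
    (hbB : b ∣ #B) (hB0 : B.Nonempty) (hs : (#(d.O.image (d.FF M)) : ℝ) ≤ Real.exp s)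
    (hΔ : mn B (fun q => ent d.O (d.FF M) (d.dir q) - ent d.O (d.FF M') (d.dir q)) ≤ Δ)
    (hN : Num (Fintype.card ι) y L u r b (#B) (#d.P) q₀ C₁ H
      (((4 * H ^ 2 + 1) ^ 4) ^ Fintype.card ι * A₁) Λ θ C δ₀ c e ε Cc s Δ) : False := by
  have hy := hN.y₂
  have hy1 : 1 ≤ y := by omega
  have hu := hN.u₁
  have hu0 : 0 < u := by omega
  have hm : (0 : ℝ) < Fintype.card ι := by exact_mod_cast Fintype.card_pos
  have hn : (0 : ℝ) < #B := by exact_mod_cast hB0.card_pos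
  have hyR : (1 : ℝ) ≤ y := by exact_mod_cast hy1
  have hU : (0 : ℝ) < (u : ℝ) ^ L := by positivity
  have hA0 : (0 : ℝ) < ((4 * H ^ 2 + 1) ^ 4) ^ Fintype.card ι * A₁ := by positivity
  have hp1 : ∀ g i, pr g i ∈ M' := fun g i => (hp g i).1
  obtain ⟨F, hF, hF1, hF2⟩ := exists_blocks B hB0 hb hbB
  have hZ : (1 : ℝ) ≤ 2 * y * ((y : ℝ) ^ L) ^ 7 :=
    one_le_mul_of_one_le_of_one_le (by linarith) (one_le_pow₀ (one_le_pow₀ hyR))
  have b1 := xgh_union d.O univ _ hθ hm (by simp) hΛ fun k _ =>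
    h.not_Ty hM' (t := 32 * (Fintype.card ι : ℝ) * Λ / θ) (by positivity) k
  have b2 := xgh_union d.O ((univ : Finset ι) ×ˢ F) _ hθ (mul_pos hm hn)
    (by
      rw [Finset.card_product, Finset.card_univ, Nat.cast_mul]
      exact mul_le_mul_of_nonneg_left (by exact_mod_cast hF) hm.le) one_pos fun z hz =>
    h.ct_bad hM' hi hp1 hε hCc hCT (t := 32 * (Fintype.card ι : ℝ) * Λ / θ) (by positivity) hy
      ((hF1 _ (Finset.mem_product.1 hz).2).1.trans hB)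
      (Finset.disjoint_of_subset_left (hF1 _ (Finset.mem_product.1 hz).2).1 hd) hu
      (by rw [(hF1 _ (Finset.mem_product.1 hz).2).2]; exact hN.n₅)
      (by rw [(hF1 _ (Finset.mem_product.1 hz).2).2]; exact hN.n₆) z.1 (by positivity)
  have b3 := xgh_union d.O (univ : Finset ι).offDiag _ hθ (pow_pos hm 2)
    (by
      rw [Finset.offDiag_card, Finset.card_univ, sq]
      exact_mod_cast Nat.sub_le _ _) one_pos fun z hz =>
    h.xc_bad hM' hi hp1 hy1 hΛ hu0 hN.u₂ hZ hN.n₉ (Finset.mem_offDiag.1 hz).2.2 (by positivity)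
  obtain ⟨x, hx, g, g1, g2, g3⟩ := xgh_pick _ _ _ _ _ (by positivity)
    (xgh_good h hA hθ hC hc hy hu0 hM hM' hp hB hd hB0 hΔ hN.n₁) b1 b2 b3
  obtain ⟨hIn, V, a', Y, v1, v2, v3, v4, v5⟩ := h.atom hM hM' hp hB hd hu0
    (fun q => θ * q / (8 * C * (q : ℝ) ^ Fintype.card ι)) (by positivity) hA hs hx g
  refine xgh_loc hG hc he hN.y₁ hy1 hH hU (v := θ / 32 * Real.exp (-s)) (by positivity)
    (bb := fun w => w.1) (bs := bs pr) (le_trans (le_of_eq (by ring)) v1) hA0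
    (fun β => by rw [Finset.filter_congr_decidable]; exact v2 β) v3 _
    (fun q => cp d.O (d.FF M) (d.dir q) a') Y
    (fun q => θ * q / (8 * C * (q : ℝ) ^ Fintype.card ι)) (by positivity) (fun q hq => ?_) v5
    (hN.n₃.trans (le_of_eq (by ring))) (xgh_prod hy1 fun g i => (h.prime _ (hM' (hp1 g i))).2.2)
    hN.n₇ hb hB0 (fun E hE => hF1 E hE) hF2 (fun k E hE => ?_)
    (hN.n₄.trans_le (le_of_eq (by ring_nf))) (hN.n₈.trans (le_of_eq (by ring)))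
    (fun k l hkl => ?_) hN.n₁₀
  · obtain ⟨p1, p2, p3⟩ := h.prime q (hB hq)
    have q0 : (0 : ℝ) < q := by exact_mod_cast p1.pos
    exact ⟨p1, p2, p3, fun w _ => xgh_ndvd p1
      (fun l hl => (h.prime l (hM' ((xgh_sub hp w.1).1 hl))).1)
      fun e => Finset.disjoint_left.1 hd hq ((xgh_sub hp w.1).1 e),
      fun z => ⟨cp_nonneg .., cp_nonneg ..⟩, sum_cp_le .., sum_cp_le .., by positivity,
      xgh_sqrt hθ hC p2 hN.n₂ _, v4 q hq⟩
  · have t1 : d.Ty M' (32 * (Fintype.card ι : ℝ) * Λ / θ) k x := by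
      by_contra h'
      exact g1 ⟨k, Finset.mem_univ _, hIn, h'⟩
    have t2 := not_lt.1 fun h' => g2 ⟨(k, E), Finset.mem_product.2 ⟨Finset.mem_univ _, hE⟩,
      hIn, t1, h'⟩
    simp only [(hF1 E hE).2] at t2
    exact t2.trans (le_of_eq (by ring))
  · have t3 := not_lt.1 fun h' => g3 ⟨(k, l), Finset.mem_offDiag.2
      ⟨Finset.mem_univ _, Finset.mem_univ _, hkl⟩, hIn, h'⟩
    exact t3.trans (le_of_eq (by ring))

end Pool.Agent.EQ
end
end

-- part Pool.Agent.P.MP_ad7a55_nt.CtB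
section

/-! Counting integral ideals. -/

set_option autoImplicit false

noncomputable section

open MeasureTheory Topology Filter UpperHalfPlane
open scoped MatrixGroups ENNReal BoundedContinuousFunction

namespace Pool.Agent.EQ

theorem ctB_sqrt_pos {D : ℤ} (hD : D < 0) : 0 < Real.sqrt (-(D : ℝ)) := by
  have : (D : ℝ) < 0 := by exact_mod_cast hD
  exact Real.sqrt_pos.2 (by linarith)

theorem ctB_nm {D : ℤ} (hD : D < 0) {m a : ℕ} (hm : 0 < m) (ha : 0 < a) (b : ℕ) :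
    nm D (pr m * sp a ((b + th D) / 2)) = (m : ℝ) ^ 2 * a := by
  have hs := ctB_sqrt_pos hD
  have ha' : (0 : ℝ) < a := by exact_mod_cast ha
  have hm' : (m : ℂ) ≠ 0 := by exact_mod_cast hm.ne'
  have e : (starRingEnd ℂ (a : ℂ) * ((b + th D) / 2)).im = a * (Real.sqrt (-(D : ℝ)) / 2) := by
    simp [ord2_th_im]
  obtain ⟨h1, h2⟩ := vol_sp' (a := a) (b := (b + th D) / 2) (by rw [e]; positivity)
  rw [nm_pr_mul h1 D hm', nm, h2, e, abs_of_pos (by positivity), Complex.normSq_natCast]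
  field_simp

theorem ctB_pre {D : ℤ} {𝔞 : Lt} (h : DiscL 𝔞 D) (hle : 𝔞 ≤ OD D) : ∃ (m a : ℕ) (B : ℤ), 0 < m ∧
    0 < a ∧ (4 * a : ℤ) ∣ B ^ 2 - D ∧ 𝔞 = pr m * sp a ((B + th D) / 2) := by
  have hD := h.isD
  have hs := ctB_sqrt_pos hD.1
  let τ : ℍ := ⟨(D + th D) / 2, by simpa [ord2_th_im] using hs⟩
  have hτ : (τ : ℂ) = (D + th D) / 2 := rfl
  have hO : OD D = sp 1 (1 * τ) := by rw [one_mul]; rfl
  obtain ⟨N, hN, -, hN'⟩ := exists_index (discL_OD hD).isLat h.isLat hle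
  obtain ⟨A, d, b, hA, hd, -, -, -, -, e⟩ := hnf one_ne_zero τ hN (hO ▸ hN') (hO ▸ hle)
  rw [mul_one, one_mul] at e
  obtain ⟨k, hk⟩ : ∃ k : ℤ, D ^ 2 - D = 4 * k := by
    rcases hD.2 with h4 | h4
    · obtain ⟨l, rfl⟩ : ∃ l, D = 4 * l := ⟨D / 4, by omega⟩
      exact ⟨4 * l ^ 2 - l, by ring⟩
    · obtain ⟨l, rfl⟩ : ∃ l, D = 4 * l + 1 := ⟨D / 4, by omega⟩
      exact ⟨4 * l ^ 2 + l, by ring⟩
  have hk' : (D : ℂ) ^ 2 - D = 4 * k := by exact_mod_cast hk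
  have hsq : (τ : ℂ) ^ 2 = D * τ - k := by
    rw [hτ]
    linear_combination (1 / 4 : ℂ) * th_sq hD.1.le - (1 / 4 : ℂ) * hk'
  have hend := pr_mul_le.1 ((h.end_iff τ).2 (ord_right _ _))
  rw [e] at hend
  obtain ⟨m₁, n₁, h1⟩ := mem_sp.1 (hend _ (ord_left _ _))
  obtain ⟨m₂, n₂, h2⟩ := mem_sp.1 (hend _ (ord_right _ _))
  obtain ⟨-, h3⟩ := ord_indep τ (m := m₁ * A + n₁ * b) (n := n₁ * d - A) (by
    push_cast
    linear_combination -h1)
  obtain ⟨h4, h5⟩ := ord_indep τ (m := m₂ * A + n₂ * b + d * k) (n := n₂ * d - d * D - b) (by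
    push_cast
    linear_combination -h2 + d * hsq)
  have hd' : (0 : ℤ) < d := by exact_mod_cast hd
  have hA' : (0 : ℤ) < A := by exact_mod_cast hA
  have hn : 0 < n₁ := by
    by_contra hn
    have := mul_nonpos_of_nonpos_of_nonneg (not_lt.1 hn) hd'.le
    linarith
  obtain ⟨a, rfl⟩ := Int.eq_ofNat_of_zero_le hn.le
  have h6 : m₂ * a + n₂ * (n₂ - D) + k = 0 := by
    apply mul_left_cancel₀ hd'.ne'
    linear_combination h4 + m₂ * h3 + n₂ * h5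
  refine ⟨d, a, 2 * n₂ - D, hd, by exact_mod_cast hn, ⟨-m₂, by linear_combination 4 * h6 + hk⟩, ?_⟩
  have h3' : (a : ℂ) * d - A = 0 := by exact_mod_cast h3
  have h5' : (n₂ : ℂ) * d - d * D - b = 0 := by exact_mod_cast h5
  have e1 : (A : ℂ) = d * a := by linear_combination -h3'
  have e2 : (d : ℂ) * τ + b = d * (((2 * n₂ - D : ℤ) + th D) / 2) := by
    rw [hτ]
    push_cast
    linear_combination -h5'
  rw [e, pr_mul_sp, e1, e2]

/-- The shape of an integral ideal. -/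
theorem Idl.shape {D : ℤ} {n : ℕ} {𝔞 : Lt} (h : 𝔞 ∈ Idl D n) : ∃ (m a b : ℕ), 0 < m ∧ 0 < a ∧
    n = m ^ 2 * a ∧ b < 4 * a ∧ ((4 * a : ℕ) : ℤ) ∣ (b : ℤ) ^ 2 - D ∧
      𝔞 = pr m * sp a ((b + th D) / 2) := by
  obtain ⟨h1, h2, h3⟩ := h
  obtain ⟨m, a, B, hm, ha, ⟨c, hc⟩, e⟩ := ctB_pre h1 h2
  have ha' : (0 : ℤ) < 2 * a := by positivity
  obtain ⟨b, hb⟩ := Int.eq_ofNat_of_zero_le (Int.emod_nonneg B ha'.ne')
  have hlt := Int.emod_lt_of_pos B ha'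
  have hB := Int.emod_add_mul_ediv B (2 * a)
  rw [hb] at hlt hB
  generalize B / (2 * a) = q at hB
  subst hB
  have e' : 𝔞 = pr m * sp a ((b + th D) / 2) := by
    have e1 : (((b + 2 * a * q : ℤ) : ℂ) + th D) / 2 = (b + th D) / 2 + q * (a : ℂ) := by
      push_cast
      ring
    rw [e, e1, ord_sp_add]
  refine ⟨m, a, b, hm, ha, ?_, by omega, ⟨c - q * (b + a * q), ?_⟩, e'⟩
  · rw [e', ctB_nm h1.isD.1 hm ha] at h3
    exact_mod_cast h3.symm
  · push_cast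
    linear_combination hc

/-- The parameters of integral ideals. -/
def ctBS (D : ℤ) (n : ℕ) : Finset (Σ _ : ℕ, ℕ) :=
  n.divisors.sigma fun a =>
    (Finset.range (4 * a)).filter fun b : ℕ => ((4 * a : ℕ) : ℤ) ∣ (b : ℤ) ^ 2 - D

theorem ctB_sub (D : ℤ) (n : ℕ) : Idl D n ⊆ (fun x : Σ _ : ℕ, ℕ =>
    pr (Nat.sqrt (n / x.1) : ℕ) * sp x.1 ((x.2 + th D) / 2)) '' (ctBS D n) := by
  intro 𝔞 h
  obtain ⟨m, a, b, hm, ha, rfl, hb, hd, rfl⟩ := Idl.shape h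
  refine ⟨⟨a, b⟩, ?_, ?_⟩
  · rw [Finset.mem_coe, ctBS, Finset.mem_sigma, Nat.mem_divisors, Finset.mem_filter,
      Finset.mem_range]
    exact ⟨⟨Dvd.intro_left _ rfl, by positivity⟩, hb, hd⟩
  · simp only [Nat.mul_div_cancel _ ha, Nat.sqrt_eq']

theorem Idl_finite (D : ℤ) (n : ℕ) : (Idl D n).Finite :=
  ((ctBS D n).finite_toSet.image _).subset (ctB_sub D n)

theorem card_Idl_le {D : ℤ} {n : ℕ} (hn : 0 < n) {H : ℕ}
    (hH : ∀ h : ℕ, h ^ 2 ∣ 4 * n → (h : ℤ) ^ 2 ∣ 4 * D → h ≤ H) :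
    (Idl D n).ncard ≤ (4 * n).divisors.card ^ 2 * H := by
  have h4 : 4 * n ≠ 0 := by omega
  have h1 : (Idl D n).ncard ≤ (ctBS D n).card := by
    refine (Set.ncard_le_ncard (ctB_sub D n) ((ctBS D n).finite_toSet.image _)).trans ?_
    refine (Set.ncard_image_le (ctBS D n).finite_toSet).trans ?_
    rw [Set.ncard_coe_finset]
  refine h1.trans ?_
  rw [ctBS, Finset.card_sigma]
  have h2 := Finset.sum_le_card_nsmul n.divisors (fun a => ((Finset.range (4 * a)).filter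
    fun b : ℕ => ((4 * a : ℕ) : ℤ) ∣ (b : ℤ) ^ 2 - D).card) ((4 * n).divisors.card * H)
    fun a ha => by
      have hd : 4 * a ∣ 4 * n := Nat.mul_dvd_mul_left 4 (Nat.dvd_of_mem_divisors ha)
      have ha0 : 0 < 4 * a := Nat.pos_of_dvd_of_pos hd (by omega)
      refine (roots_le ha0 D fun h hh => hH h (hh.trans hd)).trans ?_
      exact Nat.mul_le_mul_right _ (Finset.card_le_card (Nat.divisors_subset_of_dvd h4 hd))
  refine h2.trans ?_
  rw [smul_eq_mul, sq, mul_assoc]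
  exact Nat.mul_le_mul_right _
    (Finset.card_le_card (Nat.divisors_subset_of_dvd h4 (Dvd.intro_left 4 rfl)))

theorem card_Idl_sum (p : ℕ) [Fact p.Prime] {D : ℤ} (hD : D < 0) {n : ℕ} (hn : 0 < n) :
    ((Idl D n).ncard : ℝ) * Real.sqrt ‖(D : ℚ_[p])‖ ≤ 2 * ((4 * n).divisors.card : ℝ) ^ 2 *
      ∑ h ∈ (Hs p D).filter (fun h => h ^ 2 ∣ 4 * n), (h : ℝ) := by
  have h4 : 4 * n ≠ 0 := by omega
  obtain ⟨H, hH, hmax⟩ := Finset.exists_max_image
    ((4 * n).divisors.filter fun h : ℕ => h ^ 2 ∣ 4 * n ∧ (h : ℤ) ^ 2 ∣ 4 * D) id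
    ⟨1, by simp [hn.ne']⟩
  obtain ⟨-, hH1, hH2⟩ := Finset.mem_filter.1 hH
  have h1 : (Idl D n).ncard ≤ (4 * n).divisors.card ^ 2 * H := card_Idl_le hn fun h h1 h2 =>
    hmax h (Finset.mem_filter.2 ⟨Nat.mem_divisors.2 ⟨(dvd_pow_self h two_ne_zero).trans h1, h4⟩,
      h1, h2⟩)
  have h2 : ((Idl D n).ncard : ℝ) ≤ ((4 * n).divisors.card : ℝ) ^ 2 * H := by exact_mod_cast h1
  obtain ⟨h', hh, hh1, hh2⟩ := exists_Hs p hD.ne hH1 hH2
  have h3 : (h' : ℝ) ≤ ∑ h ∈ (Hs p D).filter (fun h => h ^ 2 ∣ 4 * n), (h : ℝ) :=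
    Finset.single_le_sum (f := fun h : ℕ => (h : ℝ)) (fun i _ => Nat.cast_nonneg i)
      (Finset.mem_filter.2 ⟨hh, hh1⟩)
  calc _ ≤ ((4 * n).divisors.card : ℝ) ^ 2 * H * Real.sqrt ‖(D : ℚ_[p])‖ :=
        mul_le_mul_of_nonneg_right h2 (Real.sqrt_nonneg _)
    _ = ((4 * n).divisors.card : ℝ) ^ 2 * (H * Real.sqrt ‖(D : ℚ_[p])‖) := by ring
    _ ≤ ((4 * n).divisors.card : ℝ) ^ 2 *
        (2 * ∑ h ∈ (Hs p D).filter (fun h => h ^ 2 ∣ 4 * n), (h : ℝ)) :=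
        mul_le_mul_of_nonneg_left (by linarith) (sq_nonneg _)
    _ = _ := by ring

/-- Short vectors with a `p`-adic divisibility. -/
def Bad1 (p : ℕ) [Fact p.Prime] (C : ℝ) (D : ℤ) (z : ℂ) : Prop :=
  ∃ n : ℕ, 0 < n ∧ (n : ℝ) ≤ C * Real.sqrt (-(D : ℝ)) ∧ ‖(n : ℚ_[p])‖ ≤ C * ‖(D : ℚ_[p])‖ ∧
    ∃ 𝔞 ∈ Idl D n, jL 𝔞 = z

theorem ctB_ncard_biUnion {α : Type*} (T : Finset ℕ) (f : ℕ → Set α) :
    (⋃ n ∈ T, f n).ncard ≤ ∑ n ∈ T, (f n).ncard := by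
  classical
  induction T using Finset.induction_on with
  | empty => simp
  | insert a T ha ih =>
    rw [Finset.set_biUnion_insert, Finset.sum_insert ha]
    exact (Set.ncard_union_le _ _).trans (Nat.add_le_add_left ih _)

theorem ctB_sum (p : ℕ) [Fact p.Prime] {D : ℤ} (hD : D < 0) {X t K : ℝ} (hX : 0 ≤ X) (ht : 0 ≤ t)
    (T : Finset ℕ) (hT : ∀ n ∈ T, 0 < n ∧ (n : ℝ) ≤ X ∧ ‖(n : ℚ_[p])‖ ≤ t)
    (hK : ∀ n ∈ T, ((4 * n).divisors.card : ℝ) ≤ K) :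
    (∑ n ∈ T, ((Idl D n).ncard : ℝ)) * Real.sqrt ‖(D : ℚ_[p])‖ ≤
      2 * K ^ 2 * ((4 * D.natAbs).divisors.card * (4 * X * t)) := by
  have h1 : ∀ h ∈ Hs p D, ∑ n ∈ T, (if h ^ 2 ∣ 4 * n then (h : ℝ) else 0) ≤ 4 * X * t := by
    intro h hh
    obtain ⟨hh1, hh2, -⟩ := Finset.mem_filter.1 hh
    have h0 : 0 < h := Nat.pos_of_mem_divisors hh1
    obtain ⟨hf, hc⟩ := card_mult p h0 hh2 hX ht
    have h2 : (T.filter fun n => h ^ 2 ∣ 4 * n).card ≤
        {n : ℕ | 0 < n ∧ (n : ℝ) ≤ X ∧ h ^ 2 ∣ 4 * n ∧ ‖(n : ℚ_[p])‖ ≤ t}.ncard := by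
      rw [← Set.ncard_coe_finset]
      refine Set.ncard_le_ncard (fun n hn => ?_) hf
      obtain ⟨hn1, hn2⟩ := Finset.mem_filter.1 (Finset.mem_coe.1 hn)
      exact ⟨(hT n hn1).1, (hT n hn1).2.1, hn2, (hT n hn1).2.2⟩
    have h3 : ((T.filter fun n => h ^ 2 ∣ 4 * n).card : ℝ) ≤
        {n : ℕ | 0 < n ∧ (n : ℝ) ≤ X ∧ h ^ 2 ∣ 4 * n ∧ ‖(n : ℚ_[p])‖ ≤ t}.ncard := by
      exact_mod_cast h2
    have h4 : (1 : ℝ) ≤ h := by exact_mod_cast h0
    rw [← Finset.sum_filter, Finset.sum_const, nsmul_eq_mul, mul_comm]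
    refine le_trans ?_ hc
    exact mul_le_mul (by nlinarith) h3 (Nat.cast_nonneg _) (sq_nonneg _)
  have h2 : ((Hs p D).card : ℝ) ≤ (4 * D.natAbs).divisors.card := by
    exact_mod_cast Finset.card_filter_le _ _
  calc _ = ∑ n ∈ T, ((Idl D n).ncard : ℝ) * Real.sqrt ‖(D : ℚ_[p])‖ := Finset.sum_mul _ _ _
    _ ≤ ∑ n ∈ T, 2 * K ^ 2 * ∑ h ∈ Hs p D, (if h ^ 2 ∣ 4 * n then (h : ℝ) else 0) := by
      refine Finset.sum_le_sum fun n hn => (card_Idl_sum p hD (hT n hn).1).trans ?_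
      rw [← Finset.sum_filter]
      refine mul_le_mul_of_nonneg_right ?_ (Finset.sum_nonneg fun i _ => Nat.cast_nonneg i)
      exact mul_le_mul_of_nonneg_left (pow_le_pow_left₀ (Nat.cast_nonneg _) (hK n hn) 2) two_pos.le
    _ = 2 * K ^ 2 * ∑ h ∈ Hs p D, ∑ n ∈ T, (if h ^ 2 ∣ 4 * n then (h : ℝ) else 0) := by
      rw [← Finset.mul_sum, Finset.sum_comm]
    _ ≤ 2 * K ^ 2 * ((Hs p D).card * (4 * X * t)) := by
      refine mul_le_mul_of_nonneg_left ?_ (by positivity)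
      rw [← nsmul_eq_mul]
      exact Finset.sum_le_card_nsmul _ _ _ h1
    _ ≤ _ := by gcongr

theorem ctB_bad (p : ℕ) [Fact p.Prime] {C : ℝ} (hC : 0 < C) {ε : ℝ} (hε : 0 < ε) :
    ∃ C' : ℝ, 0 < C' ∧
    ∀ D : ℤ, D < 0 → {z | Bad1 p C D z}.Finite ∧ ({z | Bad1 p C D z}.ncard : ℝ) ≤
      C' * (-(D : ℝ)) ^ (1 / 2 + ε) * Real.sqrt ‖(D : ℚ_[p])‖ := by
  classical
  obtain ⟨C₁, hC₁, hdiv⟩ := div_bound (ε := ε / 3) (by positivity)
  refine ⟨2 * (C₁ * (4 * C) ^ (ε / 3)) ^ 2 * (C₁ * 4 ^ (ε / 3) * (4 * C * C)), by positivity,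
    fun D hD => ?_⟩
  have hY : (1 : ℝ) ≤ -(D : ℝ) := by
    have : (1 : ℤ) ≤ -D := by omega
    exact_mod_cast this
  have hYa : (D.natAbs : ℝ) = -(D : ℝ) := by
    rw [Nat.cast_natAbs, abs_of_neg hD, Int.cast_neg]
  have hs : 0 < Real.sqrt ‖(D : ℚ_[p])‖ :=
    Real.sqrt_pos.2 (norm_pos_iff.2 (by exact_mod_cast hD.ne))
  have hs2 := Real.sq_sqrt (norm_nonneg (D : ℚ_[p]))
  have hq : Real.sqrt (-(D : ℝ)) ≤ -(D : ℝ) := Real.sqrt_le_iff.2 ⟨by linarith, by nlinarith⟩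
  have hq0 := Real.sqrt_nonneg (-(D : ℝ))
  let T : Finset ℕ := (Finset.range (⌊C * Real.sqrt (-(D : ℝ))⌋₊ + 1)).filter fun n =>
    0 < n ∧ (n : ℝ) ≤ C * Real.sqrt (-(D : ℝ)) ∧ ‖(n : ℚ_[p])‖ ≤ C * ‖(D : ℚ_[p])‖
  have hT : ∀ n ∈ T, 0 < n ∧ (n : ℝ) ≤ C * Real.sqrt (-(D : ℝ)) ∧
      ‖(n : ℚ_[p])‖ ≤ C * ‖(D : ℚ_[p])‖ := fun n hn => (Finset.mem_filter.1 hn).2
  have hsub : {z | Bad1 p C D z} ⊆ ⋃ n ∈ T, jL '' Idl D n := by
    rintro z ⟨n, h1, h2, h3, 𝔞, h4, h5⟩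
    refine Set.mem_biUnion (x := n) (Finset.mem_coe.2 ?_) ⟨𝔞, h4, h5⟩
    exact Finset.mem_filter.2 ⟨Finset.mem_range.2 (Nat.lt_succ_of_le (Nat.le_floor h2)), h1, h2, h3⟩
  have hfin : (⋃ n ∈ T, jL '' Idl D n).Finite :=
    T.finite_toSet.biUnion fun n _ => (Idl_finite D n).image _
  refine ⟨hfin.subset hsub, ?_⟩
  have h1 : {z | Bad1 p C D z}.ncard ≤ ∑ n ∈ T, (Idl D n).ncard :=
    (Set.ncard_le_ncard hsub hfin).trans ((ctB_ncard_biUnion T _).trans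
      (Finset.sum_le_sum fun n _ => Set.ncard_image_le (Idl_finite D n)))
  have h2 : ({z | Bad1 p C D z}.ncard : ℝ) ≤ ∑ n ∈ T, ((Idl D n).ncard : ℝ) := by
    exact_mod_cast h1
  have hK : ∀ n ∈ T, ((4 * n).divisors.card : ℝ) ≤
      C₁ * (4 * C) ^ (ε / 3) * (-(D : ℝ)) ^ (ε / 3) := fun n hn => by
    obtain ⟨h3, h4, -⟩ := hT n hn
    refine (hdiv (4 * n) (by omega)).trans ?_
    rw [mul_assoc, ← Real.mul_rpow (by positivity) (by linarith)]
    refine mul_le_mul_of_nonneg_left (Real.rpow_le_rpow (Nat.cast_nonneg _) ?_ (by positivity))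
      hC₁.le
    push_cast
    nlinarith
  have h3 := ctB_sum p hD (mul_nonneg hC.le hq0) (mul_nonneg hC.le (norm_nonneg _)) T hT hK
  have h4 : ((4 * D.natAbs).divisors.card : ℝ) ≤ C₁ * 4 ^ (ε / 3) * (-(D : ℝ)) ^ (ε / 3) := by
    refine (hdiv (4 * D.natAbs) (by omega)).trans ?_
    rw [mul_assoc, ← Real.mul_rpow (by positivity) (by linarith), Nat.cast_mul, hYa]
    norm_num
  have h5 : (-(D : ℝ)) ^ (1 / 2 + ε) = Real.sqrt (-(D : ℝ)) * ((-(D : ℝ)) ^ (ε / 3)) ^ 3 := by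
    rw [Real.rpow_add (by linarith), Real.sqrt_eq_rpow, ← Real.rpow_natCast,
      ← Real.rpow_mul (by linarith)]
    norm_num
  have h6 : 0 ≤ (-(D : ℝ)) ^ (ε / 3) := Real.rpow_nonneg (by linarith) _
  refine h2.trans (le_of_mul_le_mul_right (h3.trans ?_) hs)
  rw [h5, mul_assoc _ (Real.sqrt ‖(D : ℚ_[p])‖), ← sq (Real.sqrt ‖(D : ℚ_[p])‖), hs2]
  calc _ ≤ 2 * (C₁ * (4 * C) ^ (ε / 3) * (-(D : ℝ)) ^ (ε / 3)) ^ 2 *
        (C₁ * 4 ^ (ε / 3) * (-(D : ℝ)) ^ (ε / 3) *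
          (4 * (C * Real.sqrt (-(D : ℝ))) * (C * ‖(D : ℚ_[p])‖))) := by gcongr
    _ = _ := by ring

theorem card_bad1 (p : ℕ) [Fact p.Prime] (C : ℝ) {ε : ℝ} (hε : 0 < ε) : ∃ C' : ℝ, 0 < C' ∧
    ∀ D : ℤ, D < 0 → {z | Bad1 p C D z}.Finite ∧ ({z | Bad1 p C D z}.ncard : ℝ) ≤
      C' * (-(D : ℝ)) ^ (1 / 2 + ε) * Real.sqrt ‖(D : ℚ_[p])‖ := by
  obtain ⟨C', h0, h⟩ := ctB_bad p (C := max C 1) (lt_max_of_lt_right one_pos) hε
  refine ⟨C', h0, fun D hD => ?_⟩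
  obtain ⟨h1, h2⟩ := h D hD
  have hsub : {z | Bad1 p C D z} ⊆ {z | Bad1 p (max C 1) D z} := by
    rintro z ⟨n, h3, h4, h5, h6⟩
    exact ⟨n, h3, h4.trans (mul_le_mul_of_nonneg_right (le_max_left _ _) (Real.sqrt_nonneg _)),
      h5.trans (mul_le_mul_of_nonneg_right (le_max_left _ _) (norm_nonneg _)), h6⟩
  refine ⟨h1.subset hsub, le_trans ?_ h2⟩
  exact_mod_cast Set.ncard_le_ncard hsub h1

end Pool.Agent.EQ
end
end

-- part Pool.Agent.P.MP_ad7a55_nt.CtC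
section

/-! Lattice points, units, intermediate lattices, ambiguous classes. -/

set_option autoImplicit false

noncomputable section

open MeasureTheory Topology Filter UpperHalfPlane
open scoped MatrixGroups ENNReal BoundedContinuousFunction

namespace Pool.Agent.EQ

theorem ctc_Icc (a : ℝ) {w : ℝ} (hw : 0 ≤ w) :
    ((Finset.Icc ⌈a - w⌉ ⌊a + w⌋).card : ℝ) ≤ 2 * w + 1 := by
  rw [Int.card_Icc]
  have h1 := Int.le_ceil (a - w)
  have h2 := Int.floor_le (a + w)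
  rcases le_or_gt 0 (⌊a + w⌋ + 1 - ⌈a - w⌉) with h | h
  · have h3 : (((⌊a + w⌋ + 1 - ⌈a - w⌉).toNat : ℤ) : ℝ) = ((⌊a + w⌋ + 1 - ⌈a - w⌉ : ℤ) : ℝ) := by
      rw [Int.toNat_of_nonneg h]
    rw [Int.cast_natCast] at h3
    rw [h3]
    push_cast
    linarith
  · rw [Int.toNat_of_nonpos h.le]
    push_cast
    linarith

theorem ctc_mem_Icc {a w : ℝ} {m : ℤ} (h : |(m : ℝ) - a| ≤ w) :
    m ∈ Finset.Icc ⌈a - w⌉ ⌊a + w⌋ := by
  rw [Finset.mem_Icc, Int.ceil_le, Int.le_floor]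
  constructor <;> linarith [(abs_le.1 h).1, (abs_le.1 h).2]

theorem ctc_fd {Λ : Lt} (h : IsLat Λ) :
    ∃ (c : ℂ) (τ : ℍ), c ≠ 0 ∧ Λ = sp c (c * τ) ∧ τ ∈ ModularGroup.fd := by
  obtain ⟨c, τ, hc, rfl⟩ := h
  obtain ⟨γ, hγ⟩ := ModularGroup.exists_smul_mem_fd τ
  exact ⟨_, γ • τ, mul_ne_zero hc (sl_den_ne_lat γ τ), (sp_smul c γ τ).symm, hγ⟩

theorem card_pts {Λ : Lt} (h : IsLat Λ) {l : ℝ} (hl : 0 < l)
    (hΛ : ∀ z ∈ Λ, z ≠ 0 → l ≤ Complex.normSq z) {Y : ℝ} (hY : 0 ≤ Y) :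
    {z | z ∈ Λ ∧ Complex.normSq z ≤ Y}.Finite ∧
      ({z | z ∈ Λ ∧ Complex.normSq z ≤ Y}.ncard : ℝ) ≤
        9 * (1 + Real.sqrt (Y / l) + Y / vol Λ) := by
  classical
  obtain ⟨c, τ, hc, rfl, hτ⟩ := ctc_fd h
  have hN : 0 < Complex.normSq c := Complex.normSq_pos.2 hc
  have hlc : l ≤ Complex.normSq c := hΛ c (left_mem_sp_lat _ _) hc
  have hy := τ.im_pos
  have hy3 := ModularGroup.three_le_four_mul_im_sq_of_mem_fd hτ
  set w : ℝ := Real.sqrt (Y / Complex.normSq c) with hw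
  have hw0 : 0 ≤ w := Real.sqrt_nonneg _
  have hw2 : w ^ 2 = Y / Complex.normSq c := Real.sq_sqrt (div_nonneg hY hN.le)
  have hwl : w ≤ Real.sqrt (Y / l) :=
    Real.sqrt_le_sqrt (div_le_div_of_nonneg_left hY hl hlc)
  set u : ℝ := w / τ.im with hu
  have hu0 : 0 ≤ u := div_nonneg hw0 hy.le
  have hy5 : 5 / 6 ≤ τ.im := by nlinarith
  have hu1 : u ≤ 6 / 5 * w := by
    rw [hu, div_le_iff₀ hy]
    nlinarith
  have huw : u * w = Y / vol (sp c (c * τ)) := by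
    rw [vol_sp hc, ← div_div, ← hw2, hu]
    ring
  let S : Finset ℂ := (Finset.Icc ⌈(0 : ℝ) - u⌉ ⌊(0 : ℝ) + u⌋).biUnion fun n : ℤ =>
    (Finset.Icc ⌈-(n * τ.re) - w⌉ ⌊-(n * τ.re) + w⌋).image fun m : ℤ => m * c + n * (c * τ)
  have hsub : {z | z ∈ sp c (c * τ) ∧ Complex.normSq z ≤ Y} ⊆ S := by
    rintro z ⟨hz, hzY⟩
    obtain ⟨m, n, rfl⟩ := mem_sp.1 hz
    have e : (m : ℂ) * c + n * (c * τ) = c * (m + n * τ) := by ring
    have e2 : Complex.normSq ((m : ℂ) + n * τ) = (m + n * τ.re) ^ 2 + (n * τ.im) ^ 2 := by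
      rw [Complex.normSq_apply]
      simp only [Complex.add_re, Complex.intCast_re, Complex.mul_re, Complex.intCast_im, zero_mul,
        sub_zero, Complex.add_im, Complex.mul_im, add_zero, zero_add, coe_re, coe_im]
      ring
    rw [e, map_mul, e2] at hzY
    have h1 : (m + n * τ.re) ^ 2 + (n * τ.im) ^ 2 ≤ w ^ 2 := by
      rw [hw2, le_div_iff₀ hN]
      linarith
    have h2 : |(m : ℝ) - -(n * τ.re)| ≤ w := by
      rw [sub_neg_eq_add]
      exact abs_le_of_sq_le_sq' (by nlinarith [sq_nonneg (n * τ.im)]) hw0 |> abs_le.2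
    have h3 : |(n : ℝ) - 0| ≤ u := by
      rw [sub_zero, hu, le_div_iff₀ hy, ← abs_of_pos hy, ← abs_mul]
      exact abs_le_of_sq_le_sq' (by nlinarith [sq_nonneg (m + n * τ.re)]) hw0 |> abs_le.2
    simp only [S, Finset.coe_biUnion, Set.mem_iUnion, Finset.mem_coe, Finset.mem_image]
    exact ⟨n, ctc_mem_Icc h3, m, ctc_mem_Icc h2, rfl⟩
  refine ⟨S.finite_toSet.subset hsub, ?_⟩
  have c1 : ({z | z ∈ sp c (c * τ) ∧ Complex.normSq z ≤ Y}.ncard : ℝ) ≤ S.card := by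
    have := Set.ncard_le_ncard hsub S.finite_toSet
    rw [Set.ncard_coe_finset] at this
    exact_mod_cast this
  have c2 : (S.card : ℝ) ≤ (2 * u + 1) * (2 * w + 1) := by
    have d1 : (S.card : ℝ) ≤ ∑ n ∈ Finset.Icc ⌈(0 : ℝ) - u⌉ ⌊(0 : ℝ) + u⌋,
        (((Finset.Icc ⌈-(n * τ.re) - w⌉ ⌊-(n * τ.re) + w⌋).image
          fun m : ℤ => (m : ℂ) * c + n * (c * τ)).card : ℝ) := by
      exact_mod_cast Finset.card_biUnion_le
    refine d1.trans ((Finset.sum_le_card_nsmul _ _ (2 * w + 1) fun n _ => ?_).trans ?_)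
    · refine le_trans ?_ (ctc_Icc (-(n * τ.re)) hw0)
      exact_mod_cast Finset.card_image_le
    · rw [nsmul_eq_mul]
      exact mul_le_mul_of_nonneg_right (ctc_Icc 0 hu0) (by positivity)
  rw [← huw]
  have := mul_nonneg hu0 hw0
  nlinarith

theorem ctc_unit {D : ℤ} (hD : IsD D) {u : ℂ} (hu : u ∈ OD D) (h1 : Complex.normSq u ≤ 1) :
    ∃ x ∈ (Finset.Icc (-1 : ℤ) 1) ×ˢ (Finset.Icc (-2 : ℤ) 2), u = (x.2 + x.1 * th D) / 2 := by
  obtain ⟨m, n, rfl⟩ := mem_sp.1 hu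
  have hD3 : D ≤ -3 := by
    obtain ⟨h0, h4⟩ := hD
    omega
  have hD' : (3 : ℝ) ≤ -(D : ℝ) := by
    have : (D : ℝ) ≤ -3 := by exact_mod_cast hD3
    linarith
  have e : (m : ℂ) * 1 + n * ((D + th D) / 2) = (((2 * m + n * D : ℤ) : ℂ) + n * th D) / 2 := by
    push_cast
    ring
  have e2 : Complex.normSq ((((2 * m + n * D : ℤ) : ℂ) + n * th D) / 2) =
      (((2 * m + n * D : ℤ) : ℝ) ^ 2 + (n : ℝ) ^ 2 * (-(D : ℝ))) / 4 := by
    rw [map_div₀, Complex.normSq_apply]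
    simp only [Complex.add_re, Complex.intCast_re, Complex.mul_re, Complex.intCast_im, zero_mul,
      sub_zero, Complex.add_im, Complex.mul_im, add_zero, zero_add, ord2_th_re, ord2_th_im,
      mul_zero, Complex.normSq_ofNat]
    have := Real.mul_self_sqrt (by linarith : (0 : ℝ) ≤ -(D : ℝ))
    linear_combination ((n : ℝ) ^ 2 / 4) * this
  rw [e, e2] at h1
  rw [e]
  generalize 2 * m + n * D = X at h1 ⊢
  have h2 : (X : ℝ) ^ 2 + 3 * (n : ℝ) ^ 2 ≤ 4 := by nlinarith [sq_nonneg (n : ℝ)]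
  have h3 : X ^ 2 + 3 * n ^ 2 ≤ 4 := by exact_mod_cast h2
  refine ⟨(n, X), ?_, rfl⟩
  simp only [Finset.mem_product, Finset.mem_Icc]
  refine ⟨⟨?_, ?_⟩, ?_, ?_⟩ <;> nlinarith [sq_nonneg X, sq_nonneg n]

/-- The generators of a principal module. -/
theorem card_gen {D : ℤ} {Λ : Lt} (h : DiscL Λ D) (M : Lt) :
    {c : ℂ | c ≠ 0 ∧ pr c * Λ = M}.Finite ∧ {c : ℂ | c ≠ 0 ∧ pr c * Λ = M}.ncard ≤ 15 := by
  classical
  rcases Set.eq_empty_or_nonempty {c : ℂ | c ≠ 0 ∧ pr c * Λ = M} with h0 | ⟨c₀, hc₀, e₀⟩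
  · rw [h0]
    simp
  have key : ∀ a b : ℂ, a ≠ 0 → pr a * Λ = M → pr b * Λ = M → b / a ∈ OD D := by
    intro a b ha e1 e2
    rw [← h.end_iff, ← pr_mul_le_iff ha, ← mul_assoc, pr_mul_pr, mul_div_cancel₀ _ ha, e1, e2]
  let S : Finset ℂ := ((Finset.Icc (-1 : ℤ) 1) ×ˢ (Finset.Icc (-2 : ℤ) 2)).image
    fun x => c₀ * ((x.2 + x.1 * th D) / 2)
  have hsub : {c : ℂ | c ≠ 0 ∧ pr c * Λ = M} ⊆ S := by
    rintro c ⟨hc, e⟩
    obtain ⟨k, hk⟩ := (discL_OD h.isD).normSq_nat (key c c₀ hc e e₀)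
    rw [nm_OD h.isD, mul_one] at hk
    have h1 : 0 < Complex.normSq (c₀ / c) := Complex.normSq_pos.2 (div_ne_zero hc₀ hc)
    have h2 : 1 ≤ Complex.normSq (c₀ / c) := by
      rw [hk] at h1 ⊢
      exact_mod_cast h1
    have h3 : Complex.normSq (c / c₀) ≤ 1 := by
      rw [← inv_div, map_inv₀]
      exact inv_le_one_of_one_le₀ h2
    obtain ⟨x, hx, ex⟩ := ctc_unit h.isD (key c₀ c hc₀ e₀ e) h3
    refine Finset.mem_coe.2 (Finset.mem_image.2 ⟨x, hx, ?_⟩)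
    rw [← ex, mul_div_cancel₀ _ hc₀]
  refine ⟨S.finite_toSet.subset hsub, (Set.ncard_le_ncard hsub S.finite_toSet).trans ?_⟩
  rw [Set.ncard_coe_finset]
  refine Finset.card_image_le.trans ?_
  simp

theorem card_between {N : ℕ} (hN : 0 < N) {Λ : Lt} (h : IsLat Λ) :
    {Λ' | pr N * Λ ≤ Λ' ∧ Λ' ≤ Λ}.Finite ∧ {Λ' | pr N * Λ ≤ Λ' ∧ Λ' ≤ Λ}.ncard ≤ N ^ 3 := by
  classical
  obtain ⟨c, τ, hc, rfl⟩ := h
  let S : Finset Lt := ((Finset.Icc 1 N) ×ˢ (Finset.Icc 1 N) ×ˢ (Finset.range N)).image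
    fun x : ℕ × ℕ × ℕ => sp (x.1 * c) (c * (x.2.1 * τ + x.2.2))
  have hsub : {Λ' | pr N * sp c (c * τ) ≤ Λ' ∧ Λ' ≤ sp c (c * τ)} ⊆ S := by
    rintro Λ' ⟨h1, h2⟩
    obtain ⟨a, d, b, ha, hd, haN, hdN, hb0, hb, e⟩ := hnf hc τ hN h1 h2
    obtain ⟨b', rfl⟩ := Int.eq_ofNat_of_zero_le hb0
    have a1 := Nat.le_of_dvd hN haN
    have d1 := Nat.le_of_dvd hN hdN
    refine Finset.mem_coe.2 (Finset.mem_image.2 ⟨(a, d, b'), ?_, ?_⟩)
    · simp only [Finset.mem_product, Finset.mem_Icc, Finset.mem_range]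
      omega
    · rw [e, Int.cast_natCast]
  refine ⟨S.finite_toSet.subset hsub, (Set.ncard_le_ncard hsub S.finite_toSet).trans ?_⟩
  rw [Set.ncard_coe_finset]
  refine Finset.card_image_le.trans (le_of_eq ?_)
  simp only [Finset.card_product, Nat.card_Icc, Finset.card_range, Nat.add_sub_cancel]
  ring

/-- The invariant of a root of a quadratic form. -/
def ctc_F (D : ℤ) (a b : ℂ) : ℂ := jInv (ofComplex ((th D - b) / (2 * a)))

theorem ctc_cases {τ : ℍ} (hτ : τ ∈ ModularGroup.fd) {c : ℂ} (hc : c ≠ 0)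
    (h : jL (cj (sp c (c * τ))) = jInv τ) :
    τ.re = 0 ∨ τ.re = 1 / 2 ∨ τ.re = -(1 / 2) ∨ Complex.normSq (τ : ℂ) = 1 := by
  let σ : ℍ := ⟨-starRingEnd ℂ τ, by simpa using τ.im_pos⟩
  have e : cj (sp c (c * τ)) = sp (starRingEnd ℂ c) (starRingEnd ℂ c * σ) := by
    rw [cj_sp, map_mul, ← ord_sp_neg]
    congr 1
    change _ = starRingEnd ℂ c * -starRingEnd ℂ τ
    ring
  rw [e, jL_sp (by simpa using hc)] at h
  obtain ⟨γ, hγ⟩ := jInv_inj h.symm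
  have hre : σ.re = -τ.re := by
    change (-starRingEnd ℂ (τ : ℂ)).re = _
    simp
  by_cases ho : τ ∈ ModularGroup.fdo
  · left
    have hσ : γ • τ ∈ ModularGroup.fdo := by
      rw [← hγ]
      refine ⟨?_, ?_⟩
      · change 1 < Complex.normSq (-starRingEnd ℂ (τ : ℂ))
        rw [Complex.normSq_neg, Complex.normSq_conj]
        exact ho.1
      · rw [hre, abs_neg]
        exact ho.2
    have h1 := ModularGroup.eq_smul_self_of_mem_fdo_mem_fdo ho hσ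
    rw [← hγ] at h1
    have h2 : τ.re = σ.re := congrArg UpperHalfPlane.re h1
    linarith
  · right
    by_cases h1 : Complex.normSq (τ : ℂ) = 1
    · exact Or.inr (Or.inr h1)
    have h2 : 1 < Complex.normSq (τ : ℂ) := lt_of_le_of_ne hτ.1 (Ne.symm h1)
    have h3 : |τ.re| = 1 / 2 := le_antisymm hτ.2 (not_lt.1 fun h4 => ho ⟨h2, h4⟩)
    rcases (abs_eq (by norm_num)).1 h3 with h4 | h4
    · exact Or.inl h4
    · exact Or.inr (Or.inl h4)

/-- Ambiguous classes. -/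
theorem card_amb {D : ℤ} (hD : D < 0) :
    {z | ∃ T, DiscL T D ∧ jL T = z ∧ jL (cj T) = z}.ncard ≤ 8 * D.natAbs.divisors.card := by
  classical
  let I := D.natAbs.divisors
  let S : Finset ℂ := ((I.image fun e : ℕ => ctc_F D e 0) ∪ (I.image fun e : ℕ => ctc_F D e e)) ∪
    ((I.image fun e : ℕ => ctc_F D e (-e)) ∪
      (I.image fun e : ℕ => ctc_F D ((e + -D / e) / 4) ((-D / e - e) / 2)))
  have hI : ∀ e : ℤ, 0 < e → e ∣ D → ∃ e' ∈ I, (e' : ℤ) = e := by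
    intro e he hd
    refine ⟨e.natAbs, Nat.mem_divisors.2 ⟨Int.natAbs_dvd_natAbs.2 hd, by omega⟩, by omega⟩
  have hsub : {z | ∃ T, DiscL T D ∧ jL T = z ∧ jL (cj T) = z} ⊆ S := by
    rintro z ⟨T, ⟨c', τ', hc', rfl, hτ'⟩, rfl, hj⟩
    obtain ⟨γ, hγ⟩ := ModularGroup.exists_smul_mem_fd τ'
    have hτ := hτ'.smul γ
    have hc := mul_ne_zero hc' (sl_den_ne_lat γ τ')
    rw [← sp_smul c' γ τ'] at hj ⊢
    generalize c' * ((γ 1 0 : ℂ) * τ' + γ 1 1) = c at hc hj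
    generalize γ • τ' = τ at hγ hτ hj
    rw [jL_sp hc] at hj ⊢
    have hcase := ctc_cases hγ hc hj
    obtain ⟨a, b, k, ha, -, he, hd⟩ := hτ
    have hr := HasDisc.root ha he
    obtain ⟨i2, i1⟩ := ord_parts he
    rw [← hd] at hr
    have ha' : (0 : ℝ) < a := by exact_mod_cast ha
    have ha0 : (a : ℂ) ≠ 0 := by exact_mod_cast ha.ne'
    have hF : jInv τ = ctc_F D a b := by
      have : (th D - b) / (2 * a) = (τ : ℂ) := by
        rw [← hr]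
        field_simp
        ring
      simp only [ctc_F, this, ofComplex_apply]
    rw [hF]
    simp only [S, Finset.coe_union, Set.mem_union, Finset.mem_coe, Finset.mem_image]
    rcases hcase with h1 | h1 | h1 | h1
    · have hb : b = 0 := by
        rw [h1] at i2
        exact_mod_cast (by linarith : (b : ℝ) = 0)
      obtain ⟨e, he1, he2⟩ := hI a ha ⟨-4 * k, by rw [hd, hb]; ring⟩
      refine Or.inl (Or.inl ⟨e, he1, ?_⟩)
      rw [hb, ← he2]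
      simp
    · have hb : b = -a := by
        rw [h1] at i2
        exact_mod_cast (by linarith : (b : ℝ) = -a)
      obtain ⟨e, he1, he2⟩ := hI a ha ⟨a - 4 * k, by rw [hd, hb]; ring⟩
      refine Or.inr (Or.inl ⟨e, he1, ?_⟩)
      rw [hb, ← he2]
      simp
    · have hb : b = a := by
        rw [h1] at i2
        exact_mod_cast (by linarith : (b : ℝ) = a)
      obtain ⟨e, he1, he2⟩ := hI a ha ⟨a - 4 * k, by rw [hd, hb]; ring⟩
      refine Or.inl (Or.inr ⟨e, he1, ?_⟩)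
      rw [hb, ← he2]
      simp
    · have h2 : τ.re * τ.re + τ.im * τ.im = 1 := by simpa [Complex.normSq_apply] using h1
      have hk : k = a := by
        have hb : (b : ℝ) = -(2 * a * τ.re) := by linarith
        push_cast at i1
        rw [hb] at i1
        have h3 : (a : ℝ) * (k - a) = 0 := by linear_combination (1 / 4 : ℝ) * i1 + (a : ℝ) ^ 2 * h2
        have h4 : (k : ℝ) = a := by
          rcases mul_eq_zero.1 h3 with h5 | h5
          · exact absurd h5 ha'.ne'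
          · linarith
        exact_mod_cast h4
      have hprod : -D = (2 * a - b) * (2 * a + b) := by
        rw [hd, hk]
        ring
      have hpos : 0 < 2 * a - b := by nlinarith
      obtain ⟨e, he1, he2⟩ := hI (2 * a - b) hpos ⟨-(2 * a + b), by linear_combination -hprod⟩
      refine Or.inr (Or.inr ⟨e, he1, ?_⟩)
      have e1 : (e : ℂ) = 2 * a - b := by exact_mod_cast he2
      have e0 : (2 * a - b : ℂ) ≠ 0 := by exact_mod_cast hpos.ne'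
      have e2 : (-D : ℂ) / e = 2 * a + b := by
        rw [e1, div_eq_iff e0]
        have : (-D : ℂ) = (2 * a - b) * (2 * a + b) := by exact_mod_cast hprod
        rw [this]
        ring
      rw [e2, e1]
      congr 1 <;> ring
  refine (Set.ncard_le_ncard hsub S.finite_toSet).trans ?_
  rw [Set.ncard_coe_finset]
  refine (Finset.card_union_le _ _).trans ?_
  refine (add_le_add (Finset.card_union_le _ _) (Finset.card_union_le _ _)).trans ?_
  refine (add_le_add (add_le_add Finset.card_image_le Finset.card_image_le)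
    (add_le_add Finset.card_image_le Finset.card_image_le)).trans ?_
  show I.card + I.card + (I.card + I.card) ≤ 8 * I.card
  omega

theorem ctc_cancel {D : ℤ} {T Λ : Lt} (hT : DiscL T D) (hΛ : DiscL Λ D) :
    jL (T * cj T * Λ) = jL Λ := by
  have h : (nm D T : ℂ) ≠ 0 := by exact_mod_cast hT.nm_pos.ne'
  rw [hT.mul_cj_nm, mul_assoc, hΛ.OD_mul, jL_pr_mul hΛ.isLat h]

/-- Classes with a given square. -/
theorem card_sqrt {D : ℤ} (hD : D < 0) (w : ℂ) :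
    {z | ∃ T, DiscL T D ∧ jL T = z ∧ jL (T * T) = w}.ncard ≤ 8 * D.natAbs.divisors.card := by
  classical
  rcases Set.eq_empty_or_nonempty {z | ∃ T, DiscL T D ∧ jL T = z ∧ jL (T * T) = w} with
    h0 | ⟨z₀, T₀, h₀, -, w₀⟩
  · rw [h0]
    simp
  refine le_trans ?_ (card_amb hD)
  let r : ℂ → Lt := fun z =>
    if h : ∃ T, DiscL T D ∧ jL T = z ∧ jL (T * T) = w then h.choose else ⊥
  have hr : ∀ z, (∃ T, DiscL T D ∧ jL T = z ∧ jL (T * T) = w) →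
      DiscL (r z) D ∧ jL (r z) = z ∧ jL (r z * r z) = w := by
    intro z hz
    simp only [r, dif_pos hz]
    exact hz.choose_spec
  refine Set.ncard_le_ncard_of_injOn (fun z => jL (r z * cj T₀)) ?_ ?_
    ((Cl_finite D).subset fun z ⟨T, hT, hj, _⟩ => ⟨T, hT, hj⟩)
  · intro z hz
    obtain ⟨h1, -, h3⟩ := hr z hz
    have hU := h1.mul h₀.cj le_rfl
    refine ⟨_, hU, rfl, ?_⟩
    have hV := h1.cj.mul h₀.cj le_rfl
    have k := jL_mul_congr (h1.mul h1 le_rfl) (h₀.mul h₀ le_rfl) hV hV le_rfl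
      (h3.trans w₀.symm) rfl
    have e1 : r z * r z * (cj (r z) * cj T₀) = r z * cj (r z) * (r z * cj T₀) := by ring
    have e2 : T₀ * T₀ * (cj (r z) * cj T₀) = T₀ * cj T₀ * (cj (r z) * T₀) := by ring
    rw [e1, e2, ctc_cancel h1 hU, ctc_cancel h₀ (h1.cj.mul h₀ le_rfl)] at k
    rw [cj_mul, cj_cj]
    exact k.symm
  · intro z hz z' hz' e
    obtain ⟨h1, h2, -⟩ := hr z hz
    obtain ⟨h1', h2', -⟩ := hr z' hz'
    have k := jL_mul_congr (h1.mul h₀.cj le_rfl) (h1'.mul h₀.cj le_rfl) h₀ h₀ le_rfl e rfl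
    have e1 : ∀ T : Lt, T * cj T₀ * T₀ = T₀ * cj T₀ * T := fun T => by ring
    rw [e1, e1, ctc_cancel h₀ h1, ctc_cancel h₀ h1', h2, h2'] at k
    exact k

end Pool.Agent.EQ
end
end
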