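import Pool.Agent.K.MP_ad7a55_nt.C32
import Pool.Agent.K.MP_ad7a55_nt.C35
import Pool.Agent.P.MP_ad7a55_nt.CtA
import Pool.Agent.K.MP_ad7a55_nt.C36
import Pool.Agent.K.MP_ad7a55_nt.C9

-- part Pool.Agent.P.MP_ad7a55_nt.GalA
section

/-! Galois conjugates of CM lattices. -/

set_option autoImplicit false

noncomputable section

open MeasureTheory Topology Filter UpperHalfPlane
open scoped MatrixGroups ENNReal BoundedContinuousFunction

namespace Pool.Agent.EQ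

theorem galA_th_im {D : ℤ} (hD : D < 0) : (th D).im ≠ 0 := by
  have h1 : (0 : ℝ) < -(D : ℝ) := by
    have : (D : ℝ) < 0 := by exact_mod_cast hD
    linarith
  have h2 := Real.sqrt_pos.2 h1
  simp only [th, Complex.mul_im, Complex.I_re, Complex.I_im, Complex.ofReal_re, Complex.ofReal_im]
  linarith

theorem galA_th_re (D : ℤ) : (th D).re = 0 := by
  simp [th]

theorem galA_th_im_sq {D : ℤ} (hD : D < 0) : (th D).im ^ 2 = -(D : ℝ) := by
  have h1 : (0 : ℝ) ≤ -(D : ℝ) := by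
    have : (D : ℝ) < 0 := by exact_mod_cast hD
    linarith
  have h2 := Real.sq_sqrt h1
  simp only [th, Complex.mul_im, Complex.I_re, Complex.I_im, Complex.ofReal_re, Complex.ofReal_im]
  linarith

theorem galA_om_mem (D : ℤ) : ((D : ℂ) + th D) / 2 ∈ OD D :=
  mem_sp.2 ⟨0, 1, by simp⟩

theorem galA_int_mem (D n : ℤ) : (n : ℂ) ∈ OD D :=
  mem_sp.2 ⟨n, 0, by simp⟩

theorem galA_conj_mem {D : ℤ} {x : ℂ} (hx : x ∈ OD D) : starRingEnd ℂ x ∈ OD D := by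
  rw [← cj_OD D] at hx
  exact mem_cj.1 hx

theorem DiscL.galA_unique {Λ : Lt} {D D' : ℤ} (h : DiscL Λ D) (h' : DiscL Λ D') : D = D' := by
  refine OD_inj h.isD.1 h'.isD.1 ?_
  ext x
  rw [← h.end_iff, ← h'.end_iff]

/-- An element of the order is transported up to a twelfth root of unity. -/
theorem galA_transport (σ : ℂ ≃+* ℂ) {Λ M : Lt} {D : ℤ} (h : DiscL Λ D) (hM : IsLat M)
    (hj : jL M = σ (jL Λ)) {α : ℂ} (hα : α ∈ OD D) (h0 : α ≠ 0) :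
    ∃ β : ℂ, β ^ 12 = σ α ^ 12 ∧ pr β * M ≤ M := by
  have hD := h.isD.1
  obtain ⟨m, n, hmn⟩ := mem_sp.1 hα
  have hth := th_sq hD.le
  have hN : ((((2 * m + n * D) ^ 2 - n ^ 2 * D : ℤ)) : ℂ) = α * (4 * starRingEnd ℂ α) := by
    have hc : starRingEnd ℂ α = m * 1 + n * ((D - th D) / 2) := by
      rw [hmn]
      simp only [map_add, map_mul, map_div₀, map_intCast, map_one, map_ofNat, conj_th]
      ring
    rw [hc, hmn]
    push_cast
    linear_combination (n : ℂ) ^ 2 * hth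
  have hN0 : 0 ≤ (2 * m + n * D) ^ 2 - n ^ 2 * D := by
    nlinarith [sq_nonneg (2 * m + n * D), sq_nonneg n]
  obtain ⟨N, hN1⟩ := Int.eq_ofNat_of_zero_le hN0
  rw [hN1] at hN
  have hNc : (N : ℂ) = α * (4 * starRingEnd ℂ α) := by exact_mod_cast hN
  have hNpos : 0 < N := by
    rcases Nat.eq_zero_or_pos N with h1 | h1
    · exfalso
      rw [h1] at hNc
      have h2 : starRingEnd ℂ α ≠ 0 := by simpa using h0
      exact mul_ne_zero h0 (mul_ne_zero (by norm_num : (4 : ℂ) ≠ 0) h2)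
        (by rw [← hNc, Nat.cast_zero])
    · exact h1
  have h4 : (4 * starRingEnd ℂ α) ∈ OD D := by
    have := (OD D).smul_mem (4 : ℤ) (galA_conj_mem hα)
    simpa using this
  have h1 : pr N * Λ ≤ pr α * Λ := by
    rw [hNc, ← pr_mul_pr, mul_assoc, pr_mul_le_iff h0]
    exact (h.end_iff _).2 h4
  obtain ⟨k, -, hk⟩ := exists_ch h.isLat hNpos h1 ((h.end_iff α).2 hα)
  exact end_gal σ h.isLat hM hj hk h0

theorem galA_card_roots : (Polynomial.nthRootsFinset 12 (1 : ℂ)).card ≤ 12 :=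
  (Multiset.toFinset_card_le _).trans (Polynomial.card_nthRoots 12 (1 : ℂ))

theorem galA_sub {a b : ℂ} {M : Lt} (ha : pr a * M ≤ M) (hb : pr b * M ≤ M) :
    pr (a - b) * M ≤ M := by
  rw [pr_mul_le] at ha hb ⊢
  intro w hw
  rw [sub_mul]
  exact M.sub_mem (ha w hw) (hb w hw)

/-- The main step. -/
theorem galA_key (σ : ℂ ≃+* ℂ) {Λ M : Lt} {D : ℤ} (h : DiscL Λ D) (hM : IsLat M)
    (hj : jL M = σ (jL Λ)) :
    ∃ D', DiscL M D' ∧ -(D' : ℝ) ≤ 4 * (12 + ‖((D : ℂ) + th D) / 2‖) ^ 2 ∧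
      (D' < -576 → OD D ≤ OD D') := by
  have hD := h.isD.1
  set ω : ℂ := ((D : ℂ) + th D) / 2 with hω
  have hωim : ω.im ≠ 0 := by
    have := galA_th_im hD
    simp only [hω, Complex.div_ofNat_im, Complex.add_im, Complex.intCast_im, zero_add]
    exact div_ne_zero this two_ne_zero
  have hσω : σ ω = ω ∨ σ ω = starRingEnd ℂ ω := by
    rcases aut_th σ hD.le with h1 | h1
    · left
      simp only [hω, map_div₀, map_add, map_intCast, map_ofNat, h1]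
    · right
      simp only [hω, map_div₀, map_add, map_intCast, map_ofNat, h1, conj_th]
  have hsim : (σ ω).im ≠ 0 := by
    rcases hσω with h1 | h1 <;> rw [h1]
    · exact hωim
    · simpa using hωim
  have hsn : ‖σ ω‖ = ‖ω‖ := by
    rcases hσω with h1 | h1 <;> rw [h1]
    exact Complex.norm_conj ω
  have hne : ∀ (n : ℕ) (x : ℂ), x.im ≠ 0 → (n : ℂ) + x ≠ 0 := by
    intro n x hx h1
    apply hx
    have := congrArg Complex.im h1
    simpa using this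
  have hex : ∀ n : ℕ, ∃ ζ : ℂ, ζ ^ 12 = 1 ∧ pr (ζ * (n + σ ω)) * M ≤ M := by
    intro n
    have hmem : (n : ℂ) + ω ∈ OD D :=
      (OD D).add_mem (by simpa using galA_int_mem D n) (galA_om_mem D)
    obtain ⟨β, hβ, hβ'⟩ := galA_transport σ h hM hj hmem (hne n ω hωim)
    have h2 : σ (n + ω) = n + σ ω := by simp
    rw [h2] at hβ
    have h3 := hne n _ hsim
    refine ⟨β / (n + σ ω), ?_, ?_⟩
    · rw [div_pow, hβ, div_self (pow_ne_zero _ h3)]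
    · rw [div_mul_cancel₀ _ h3]; exact hβ'
  choose z hz1 hz2 using hex
  obtain ⟨n, hn, n', hn', hnn, hzz⟩ :=
    Finset.exists_ne_map_eq_of_card_lt_of_maps_to (s := Finset.range 13)
      (t := Polynomial.nthRootsFinset 12 (1 : ℂ)) (f := z)
      (by rw [Finset.card_range]; exact lt_of_le_of_lt galA_card_roots (by norm_num))
      (fun n _ => by
        simpa using (Polynomial.mem_nthRootsFinset (by norm_num : 0 < 12) (1 : ℂ)).2 (hz1 n))
  have hn12 : n ≤ 12 := by have := Finset.mem_range.1 hn; omega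
  have hn12' : n' ≤ 12 := by have := Finset.mem_range.1 hn'; omega
  set ζ := z n with hζ
  have hζ1 : ζ ^ 12 = 1 := hz1 n
  have hζn : ‖ζ‖ = 1 := by
    have := congrArg norm hζ1
    rw [norm_pow, norm_one] at this
    exact (pow_eq_one_iff_of_nonneg (norm_nonneg _) (by norm_num)).1 this
  have ha : pr (ζ * (n + σ ω)) * M ≤ M := hz2 n
  have hb : pr (ζ * (n' + σ ω)) * M ≤ M := by rw [hzz]; exact hz2 n'
  have hnr : ((n : ℝ) - n') ≠ 0 := by
    rw [sub_ne_zero]; exact_mod_cast hnn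
  -- one of the two is not real
  have hnon : ∃ k : ℕ, k ≤ 12 ∧ pr (ζ * (k + σ ω)) * M ≤ M ∧ (ζ * (k + σ ω)).im ≠ 0 := by
    by_contra hcon
    push Not at hcon
    have e1 := hcon n hn12 ha
    have e2 := hcon n' hn12' hb
    simp only [Complex.mul_im, Complex.add_im, Complex.add_re, Complex.natCast_im,
      Complex.natCast_re, zero_add] at e1 e2
    have e3 : ζ.im = 0 := by
      have : ζ.im * ((n : ℝ) - n') = 0 := by linear_combination e1 - e2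
      exact (mul_eq_zero.1 this).resolve_right hnr
    rw [e3, zero_mul, add_zero] at e1
    have e4 : ζ.re = 0 := (mul_eq_zero.1 e1).resolve_right hsim
    have e5 : ζ = 0 := Complex.ext e4 e3
    rw [e5] at hζn
    simp at hζn
  obtain ⟨k, hk, hk1, hk2⟩ := hnon
  obtain ⟨D', hD'⟩ := exists_discL hM hk2 hk1
  have hD'0 := hD'.isD.1
  refine ⟨D', hD', ?_, ?_⟩
  · have h1 := abs_le_of_mem_OD hD'0 ((hD'.end_iff _).1 hk1) hk2
    have h2 : |(ζ * (k + σ ω)).im| ≤ 12 + ‖ω‖ := by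
      refine (Complex.abs_im_le_norm _).trans ?_
      rw [norm_mul, hζn, one_mul, ← hsn]
      refine (norm_add_le _ _).trans ?_
      have : ‖(k : ℂ)‖ ≤ 12 := by
        rw [Complex.norm_natCast]; exact_mod_cast hk
      linarith
    have h3 : (ζ * (k + σ ω)).im ^ 2 ≤ (12 + ‖ω‖) ^ 2 := by
      rw [← sq_abs]
      exact pow_le_pow_left₀ (abs_nonneg _) h2 2
    linarith
  · intro hlt
    have hc := (hD'.end_iff _).1 (galA_sub ha hb)
    have hc2 : ζ * (n + σ ω) - ζ * (n' + σ ω) = (((n : ℝ) - n' : ℝ) : ℂ) * ζ := by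
      push_cast; ring
    rw [hc2] at hc
    have him : ζ.im = 0 := by
      by_contra hcon
      have h1 : ((((n : ℝ) - n' : ℝ) : ℂ) * ζ).im = ((n : ℝ) - n') * ζ.im := by
        rw [Complex.mul_im, Complex.ofReal_re, Complex.ofReal_im, zero_mul, add_zero]
      have h2 := abs_le_of_mem_OD hD'0 hc (by rw [h1]; exact mul_ne_zero hnr hcon)
      rw [h1] at h2
      have h3 : ζ.im ^ 2 ≤ 1 := by
        rw [← sq_abs]
        exact pow_le_one₀ (abs_nonneg _) ((Complex.abs_im_le_norm _).trans hζn.le)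
      have h4 : ((n : ℝ) - n') ^ 2 ≤ 144 := by
        have a1 : (n : ℝ) ≤ 12 := by exact_mod_cast hn12
        have a2 : (n' : ℝ) ≤ 12 := by exact_mod_cast hn12'
        have a3 : (0 : ℝ) ≤ n := Nat.cast_nonneg n
        have a4 : (0 : ℝ) ≤ n' := Nat.cast_nonneg n'
        nlinarith
      have h5 : (D' : ℝ) < -576 := by exact_mod_cast hlt
      have h6 : (((n : ℝ) - n') * ζ.im) ^ 2 ≤ 144 := by
        rw [mul_pow]
        calc ((n : ℝ) - n') ^ 2 * ζ.im ^ 2 ≤ 144 * 1 :=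
              mul_le_mul h4 h3 (sq_nonneg _) (by norm_num)
          _ = 144 := by norm_num
      linarith
    have hζr : ζ = 1 ∨ ζ = -1 := by
      have h1 : ζ = (ζ.re : ℂ) := Complex.ext rfl (by simpa using him)
      have h2 : |ζ.re| = 1 := by
        rw [← hζn]
        conv_rhs => rw [h1]
        simp
      rcases (abs_eq zero_le_one).1 h2 with h3 | h3
      · left; rw [h1, h3]; simp
      · right; rw [h1, h3]; simp
    have hmem : (n : ℂ) + σ ω ∈ OD D' := by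
      have h1 := (hD'.end_iff _).1 ha
      rcases hζr with h2 | h2 <;> rw [h2] at h1
      · simpa using h1
      · have := (OD D').neg_mem h1
        simpa using this
    have hs : σ ω ∈ OD D' := by
      have := (OD D').sub_mem hmem (show (n : ℂ) ∈ OD D' by simpa using galA_int_mem D' n)
      simpa using this
    have hw : ω ∈ OD D' := by
      rcases hσω with h1 | h1 <;> rw [h1] at hs
      · exact hs
      · simpa using galA_conj_mem hs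
    intro x hx
    obtain ⟨a, b, rfl⟩ := mem_sp.1 hx
    refine (OD D').add_mem (by simpa using galA_int_mem D' a) ?_
    simpa using (OD D').smul_mem b hw

theorem disc_gal_bound (D : ℤ) : ∃ B : ℤ, ∀ (σ : ℂ ≃+* ℂ) (Λ M : Lt), DiscL Λ D → IsLat M →
    jL M = σ (jL Λ) → ∃ D', DiscL M D' ∧ -B ≤ D' := by
  refine ⟨⌈4 * (12 + ‖((D : ℂ) + th D) / 2‖) ^ 2⌉, fun σ Λ M h hM hj => ?_⟩
  obtain ⟨D', h1, h2, -⟩ := galA_key σ h hM hj
  refine ⟨D', h1, ?_⟩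
  have h3 : ((-D' : ℤ) : ℝ) ≤ (⌈4 * (12 + ‖((D : ℂ) + th D) / 2‖) ^ 2⌉ : ℤ) := by
    push_cast
    exact h2.trans (Int.le_ceil _)
  have h4 : -D' ≤ ⌈4 * (12 + ‖((D : ℂ) + th D) / 2‖) ^ 2⌉ := by exact_mod_cast h3
  omega

theorem finite_orbit {Λ : Lt} {D : ℤ} (h : DiscL Λ D) :
    {y | ∃ σ : ℂ ≃+* ℂ, σ (jL Λ) = y}.Finite := by
  obtain ⟨B, hB⟩ := disc_gal_bound D
  refine ((Set.finite_Icc (-B) 0).biUnion fun D' _ => finite_disc D').subset ?_
  rintro y ⟨σ, rfl⟩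
  obtain ⟨M, hM, hj⟩ := jL_surj (σ (jL Λ))
  obtain ⟨D', h1, h2⟩ := hB σ Λ M h hM hj
  exact Set.mem_biUnion (x := D') ⟨h2, h1.isD.1.le⟩ ⟨M, h1, hj⟩

theorem DiscL.algebraic {Λ : Lt} {D : ℤ} (h : DiscL Λ D) : IsAlgebraic ℚ (jL Λ) :=
  algebraic_of_finite_orbit (finite_orbit h)

/-- The discriminant is Galois invariant. -/
theorem disc_gal (σ : ℂ ≃+* ℂ) {Λ M : Lt} {D : ℤ} (hD : D < -576) (h : DiscL Λ D) (hM : IsLat M)
    (hj : jL M = σ (jL Λ)) : DiscL M D := by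
  obtain ⟨D', h1, -, h2⟩ := galA_key σ h hM hj
  have hj' : jL Λ = σ.symm (jL M) := by rw [hj]; simp
  obtain ⟨D'', h3, -, h4⟩ := galA_key σ.symm h1 h.isLat hj'
  obtain rfl := h.galA_unique h3
  have h5 := h4 hD
  have hD0 := h.isD.1
  have hD' := h1.isD.1
  have him : (((D' : ℂ) + th D') / 2).im = (th D').im / 2 := by
    simp only [Complex.div_ofNat_im, Complex.add_im, Complex.intCast_im, zero_add]
  have h6 := abs_le_of_mem_OD hD0 (h5 (galA_om_mem D'))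
    (by rw [him]; exact div_ne_zero (galA_th_im hD') two_ne_zero)
  rw [him, div_pow, galA_th_im_sq hD'] at h6
  have h7 : (D' : ℝ) ≤ D := by linarith
  have h8 : D' ≤ D := by exact_mod_cast h7
  have h9 := OD_inj hD0 hD' (le_antisymm (h2 (lt_of_le_of_lt h8 hD)) h5)
  rw [h9]
  exact h1

end Pool.Agent.EQ
end
end

-- part Pool.Agent.P.MP_ad7a55_nt.HP2
section

/-! The H-principle and local rigidity. -/

set_option autoImplicit false

noncomputable section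

open MeasureTheory Topology Filter UpperHalfPlane
open scoped MatrixGroups ENNReal BoundedContinuousFunction

namespace Pool.Agent.EQ

variable (p : ℕ) [Fact p.Prime] {κ : Type} [Fintype κ] [DecidableEq κ]

/-- The real part of the stabiliser. -/
def StabR (ρ : Measure (κ → XX p)) : Subgroup (κ → SL(2, ℝ)) :=
  (Stab (κ → GG p) ρ).comap (MonoidHom.compLeft (MonoidHom.inl SL(2, ℝ) SL(2, ℚ_[p])) κ)

omit [DecidableEq κ] in
theorem mem_StabR {ρ : Measure (κ → XX p)} {h : κ → SL(2, ℝ)} :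
    h ∈ StabR p ρ ↔ (fun k => ((h k, 1) : GG p)) ∈ Stab (κ → GG p) ρ := Iff.rfl

omit [Fintype κ] [DecidableEq κ] in
/-- A compact piece of positive measure on which the coordinate `m` moves by small elements. -/
theorem hp2_piece (ρ : Measure (κ → XX p)) (m : κ) {C : Set (κ → XX p)} (hC : IsCompact C)
    (h0 : ρ C ≠ 0) {N : Set (GG p)} (hN : N ∈ 𝓝 (1 : GG p)) :
    ∃ D, D ⊆ C ∧ IsCompact D ∧ ρ D ≠ 0 ∧ ∀ w ∈ D, ∀ w' ∈ D, ∃ g ∈ N, w' m = g • w m := by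
  have hc : Continuous fun x : GG p × GG p => x.1 * x.2⁻¹ := by fun_prop
  have h1 : (fun x : GG p × GG p => x.1 * x.2⁻¹) ⁻¹' N ∈ 𝓝 ((1, 1) : GG p × GG p) :=
    hc.continuousAt.preimage_mem_nhds (by simpa using hN)
  rw [nhds_prod_eq, Filter.mem_prod_self_iff] at h1
  obtain ⟨T, hT, hTN⟩ := h1
  obtain ⟨V1, hV1, hV1T, hV1c⟩ := local_compact_nhds hT
  let U : (κ → XX p) → Set (κ → XX p) := fun w => {w' | w' m ∈ (fun g : GG p => g • w m) '' V1}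
  have hU : ∀ w ∈ C, U w ∈ 𝓝 w := fun w _ =>
    (continuous_apply m).continuousAt.preimage_mem_nhds (exists_nhds_smul p (w m) hV1)
  have hUc : ∀ w, IsClosed (U w) := fun w =>
    ((hV1c.image (continuous_id.smul continuous_const)).isClosed).preimage (continuous_apply m)
  obtain ⟨t, -, ht⟩ := hC.elim_nhds_subcover U hU
  have hex : ∃ w ∈ t, ρ (C ∩ U w) ≠ 0 := by
    by_contra hcon
    push Not at hcon
    apply h0
    have h2 : C ⊆ ⋃ w ∈ t, C ∩ U w := by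
      intro x hx
      obtain ⟨w, hw, hxw⟩ := Set.mem_iUnion₂.1 (ht hx)
      exact Set.mem_iUnion₂.2 ⟨w, hw, hx, hxw⟩
    exact measure_mono_null h2 ((measure_biUnion_null_iff t.countable_toSet).2 hcon)
  obtain ⟨w0, -, hw0⟩ := hex
  refine ⟨C ∩ U w0, Set.inter_subset_left, hC.inter_right (hUc w0), hw0, ?_⟩
  rintro w ⟨-, v, hv, hw⟩ w' ⟨-, v', hv', hw'⟩
  refine ⟨v' * v⁻¹, hTN (Set.mk_mem_prod (hV1T hv') (hV1T hv)), ?_⟩
  rw [← hw, ← hw']
  simp [mul_smul]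

/-- A compact set of positive invariant measure meets its small translates. -/
theorem hp2_meet {H W : Type} [Group H] [TopologicalSpace H] [TopologicalSpace W] [PolishSpace W]
    [MeasurableSpace W] [BorelSpace W] [MulAction H W] [ContinuousSMul H W] (μ : Measure W)
    [IsFiniteMeasure μ] (hμ : ∀ g : H, μ.map (fun w => g • w) = μ) {E : Set W} (hE : IsCompact E)
    (h0 : μ E ≠ 0) : ∀ᶠ g : H in 𝓝 1, ∃ x ∈ E, g • x ∈ E := by
  have hlt : μ E < μ E + μ E := ENNReal.lt_add_right (measure_ne_top _ _) h0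
  obtain ⟨O, hEO, hO, hμO⟩ := E.exists_isOpen_lt_of_lt _ hlt
  have h1 : ∀ᶠ g : H in 𝓝 1, ∀ x ∈ E, g⁻¹⁻¹ • x ∈ O := by
    refine hE.eventually_forall_of_forall_eventually fun x hx => ?_
    have hc : Continuous fun z : H × W => z.1 • z.2 := continuous_fst.smul continuous_snd
    have : (fun z : H × W => z.1 • z.2) ⁻¹' O ∈ 𝓝 ((1, x) : H × W) :=
      hc.continuousAt.preimage_mem_nhds (hO.mem_nhds (by simpa using hEO hx))
    filter_upwards [this] with z hz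
    simpa using hz
  filter_upwards [h1] with g hg
  by_contra hcon
  push Not at hcon
  have hm : Measurable fun w : W => g⁻¹ • w := (continuous_const_smul g⁻¹).measurable
  have hEm : MeasurableSet E := hE.isClosed.measurableSet
  have h2 : μ ((fun w : W => g⁻¹ • w) ⁻¹' E) = μ E := by
    rw [← Measure.map_apply hm hEm, hμ]
  have h3 : Disjoint E ((fun w : W => g⁻¹ • w) ⁻¹' E) := by
    rw [Set.disjoint_left]
    intro x hx hx'
    exact hcon _ hx' (by simpa using hx)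
  have h4 : E ∪ (fun w : W => g⁻¹ • w) ⁻¹' E ⊆ O := by
    refine Set.union_subset hEO fun x hx => ?_
    simpa using hg _ hx
  have h5 := measure_mono (μ := μ) h4
  rw [measure_union h3 (hm hEm), h2] at h5
  exact absurd hμO (not_lt.2 h5)

/-- A subgroup of `SL₂(ℝ)` that is a neighbourhood of `1` is everything. -/
theorem hp2_top (S : Subgroup SL(2, ℝ)) (hS : (S : Set SL(2, ℝ)) ∈ 𝓝 (1 : SL(2, ℝ))) : S = ⊤ := by
  have ho : IsOpen (S : Set SL(2, ℝ)) := S.isOpen_of_mem_nhds hS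
  have hcl : IsClopen (S : Set SL(2, ℝ)) := ⟨S.isClosed_of_isOpen ho, ho⟩
  refine SL2_gen S (fun x => ?_) (fun x => ?_)
  · have := (hcl.preimage (continuous_uu (R := ℝ))).eq_univ ⟨0, by simp⟩
    exact (this.symm ▸ Set.mem_univ x : x ∈ uu ⁻¹' (S : Set SL(2, ℝ)))
  · have := (hcl.preimage (continuous_ul (R := ℝ))).eq_univ ⟨0, by simp⟩
    exact (this.symm ▸ Set.mem_univ x : x ∈ ul ⁻¹' (S : Set SL(2, ℝ)))

/-- Upper triangular elements with equal diagonal entries. -/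
def hp2B (F : Type) [Field F] : Subgroup SL(2, F) where
  carrier := {b | b 1 0 = 0 ∧ b 0 0 = b 1 1}
  one_mem' := by simp
  mul_mem' := fun {a b} ha hb => by
    obtain ⟨ha1, ha2⟩ := ha
    obtain ⟨hb1, hb2⟩ := hb
    constructor <;>
      simp [Matrix.SpecialLinearGroup.coe_mul, Matrix.mul_apply, Fin.sum_univ_two, ha1, hb1, ha2,
        hb2]
  inv_mem' := fun {a} ha => by
    obtain ⟨ha1, ha2⟩ := ha
    rw [Set.mem_ofPred_eq, Matrix.SpecialLinearGroup.SL2_inv_expl]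
    constructor <;> simp [ha1, ha2]

theorem hp2B_comm {F : Type} [Field F] {a b : SL(2, F)} (ha : a ∈ hp2B F) (hb : b ∈ hp2B F) :
    a * b = b * a := by
  obtain ⟨ha1, ha2⟩ := ha
  obtain ⟨hb1, hb2⟩ := hb
  ext i j
  fin_cases i <;> fin_cases j <;>
    simp [Matrix.SpecialLinearGroup.coe_mul, Matrix.mul_apply, Fin.sum_univ_two, ha1, hb1, ha2,
      hb2] <;> ring

/-- The pair of coordinates `k`, `m` as a homomorphism. -/
def hp2Phi {A : Type} [Group A] {k m : κ} (hk : k ≠ m) : A × A →* (κ → A) :=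
  (MonoidHom.mulSingle (fun _ => A) k).noncommCoprod (MonoidHom.mulSingle (fun _ => A) m)
    fun x y => Pi.mulSingle_commute (f := fun _ => A) hk x y

omit [Fintype κ] in
theorem hp2Phi_apply {A : Type} [Group A] {k m : κ} (hk : k ≠ m) (x y : A) :
    hp2Phi hk (x, y) = Pi.mulSingle (M := fun _ => A) k x * Pi.mulSingle (M := fun _ => A) m y :=
  rfl

omit [Fintype κ] in
theorem hp2Phi_cont {A : Type} [Group A] [TopologicalSpace A] [IsTopologicalGroup A] {k m : κ}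
    (hk : k ≠ m) : Continuous (hp2Phi (A := A) hk) :=
  ((continuous_mulSingle (A := fun _ => A) k).comp continuous_fst).mul
    ((continuous_mulSingle (A := fun _ => A) m).comp continuous_snd)

omit [Fintype κ] in
theorem hp2_single (k : κ) (a : SL(2, ℝ)) (j : κ) :
    Pi.mulSingle (M := fun _ => GG p) k (a, 1) j =
      (Pi.mulSingle (M := fun _ => SL(2, ℝ)) k a j, 1) := by
  by_cases h : j = k
  · subst h; simp
  · simp [Pi.mulSingle_eq_of_ne h, Prod.one_eq_mk]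

/-- Small real elements in the coordinate `k` have a partner in the coordinate `m`. -/
theorem hp2_near (ρ : Measure (κ → XX p)) [IsProbabilityMeasure ρ] (m : κ)
    (hr : ρ.map (res p m) = mP p {j // j ≠ m}) {C : Set (κ → XX p)} (hC : IsCompact C)
    (h0 : ρ C ≠ 0) {V : Set (κ → GG p)} (hV : V ∈ 𝓝 (1 : κ → GG p)) (h : Rigid p ρ m C V)
    (k : κ) (hk : k ≠ m) : ∀ᶠ a : SL(2, ℝ) in 𝓝 1, ∃ g : GG p, g.2 ∈ hp2B ℚ_[p] ∧
      hp2Phi hk (((a, 1) : GG p), g) ∈ Stab (κ → GG p) ρ := by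
  have h1 : hp2Phi (A := GG p) hk ⁻¹' V ∈ 𝓝 ((1, 1) : GG p × GG p) :=
    (hp2Phi_cont hk).continuousAt.preimage_mem_nhds (by
      rw [show ((1, 1) : GG p × GG p) = 1 from rfl, map_one]; exact hV)
  rw [nhds_prod_eq, Filter.mem_prod_self_iff] at h1
  obtain ⟨T, hT, hTV⟩ := h1
  obtain ⟨D, hDC, hD, hD0, hDT⟩ := hp2_piece p ρ m hC h0 hT
  have hE : IsCompact (res p m '' D) := hD.image (continuous_res p m)
  have hE0 : mP p {j // j ≠ m} (res p m '' D) ≠ 0 := by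
    rw [← hr, Measure.map_apply (continuous_res p m).measurable hE.isClosed.measurableSet]
    exact fun h' => hD0 (measure_mono_null (Set.subset_preimage_image _ _) h')
  have h2 := hp2_meet (H := {j // j ≠ m} → GG p) _ (mP_inv p) hE hE0
  have hc1 : Continuous fun a : SL(2, ℝ) => ((a, 1) : GG p) := continuous_id.prodMk continuous_const
  have hc2 : Continuous fun a : SL(2, ℝ) => fun j : {j // j ≠ m} =>
      Pi.mulSingle (M := fun _ => GG p) k ((a, 1) : GG p) j.1 :=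
    continuous_pi fun j => (continuous_apply j.1).comp
      ((continuous_mulSingle (A := fun _ => GG p) k).comp hc1)
  have h3 : ∀ᶠ a : SL(2, ℝ) in 𝓝 1, ((a, 1) : GG p) ∈ T := hc1.continuousAt.preimage_mem_nhds hT
  have h4 : Tendsto (fun a : SL(2, ℝ) => fun j : {j // j ≠ m} =>
      Pi.mulSingle (M := fun _ => GG p) k ((a, 1) : GG p) j.1) (𝓝 1) (𝓝 1) := by
    have := hc2.tendsto 1
    rw [show (((1 : SL(2, ℝ)), 1) : GG p) = 1 from rfl, Pi.mulSingle_one] at this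
    exact this
  filter_upwards [h3, h4.eventually h2] with a ha hx
  obtain ⟨_, ⟨w, hw, rfl⟩, w', hw', hww⟩ := hx
  obtain ⟨g, hg, hgw⟩ := hDT w hw w' hw'
  have hm : hp2Phi hk (((a, 1) : GG p), g) m = g := by
    rw [hp2Phi_apply, Pi.mul_apply, Pi.mulSingle_eq_of_ne hk.symm, Pi.mulSingle_eq_same, one_mul]
  have hj : ∀ j, j ≠ m → hp2Phi hk (((a, 1) : GG p), g) j =
      Pi.mulSingle (M := fun _ => GG p) k ((a, 1) : GG p) j := fun j hj => by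
    rw [hp2Phi_apply, Pi.mul_apply, Pi.mulSingle_eq_of_ne hj, mul_one]
  have he : hp2Phi hk (((a, 1) : GG p), g) • w = w' := by
    funext j
    rw [Pi.smul_apply']
    by_cases hjm : j = m
    · subst hjm; rw [hm, hgw]
    · rw [hj j hjm]; exact (congrFun hww ⟨j, hjm⟩).symm
  obtain ⟨h5, h6, h7⟩ := h w (hDC hw) _ (hTV (Set.mk_mem_prod ha hg)) (he ▸ hDC hw')
    fun j hjm => by rw [hj j hjm, hp2_single]
  rw [hm] at h6 h7
  exact ⟨g, ⟨h6, h7⟩, h5⟩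

theorem rigid_full (ρ : Measure (κ → XX p)) [IsProbabilityMeasure ρ] (m : κ)
    (hr : ρ.map (res p m) = mP p {j // j ≠ m}) {C : Set (κ → XX p)} (hC : IsCompact C)
    (h0 : ρ C ≠ 0) {V : Set (κ → GG p)} (hV : V ∈ 𝓝 (1 : κ → GG p)) (h : Rigid p ρ m C V)
    (k : κ) (hk : k ≠ m) (a : SL(2, ℝ)) : ∃ g : SL(2, ℝ),
      Pi.mulSingle (M := fun _ => SL(2, ℝ)) k a * Pi.mulSingle (M := fun _ => SL(2, ℝ)) m g ∈
        StabR p ρ := by
  let M : Subgroup (SL(2, ℝ) × GG p) :=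
    (Stab (κ → GG p) ρ).comap ((hp2Phi hk).comp
      ((MonoidHom.inl SL(2, ℝ) SL(2, ℚ_[p])).prodMap (MonoidHom.id (GG p)))) ⊓
    (hp2B ℚ_[p]).comap ((MonoidHom.snd _ _).comp (MonoidHom.snd _ _))
  have hM : ∀ (a : SL(2, ℝ)) (g : GG p), (a, g) ∈ M ↔
      hp2Phi hk (((a, 1) : GG p), g) ∈ Stab (κ → GG p) ρ ∧ g.2 ∈ hp2B ℚ_[p] :=
    fun a g => Iff.rfl
  have h1 : M.map (MonoidHom.fst _ _) = ⊤ := by
    refine hp2_top _ ?_
    filter_upwards [hp2_near p ρ m hr hC h0 hV h k hk] with b hb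
    obtain ⟨g, hg, hg'⟩ := hb
    exact ⟨(b, g), (hM b g).2 ⟨hg', hg⟩, rfl⟩
  have h2 : ∀ b : SL(2, ℝ), ∃ g : GG p, (b, g) ∈ M := fun b => by
    have : b ∈ M.map (MonoidHom.fst _ _) := h1 ▸ Subgroup.mem_top b
    obtain ⟨⟨b', g⟩, hg, rfl⟩ := this
    exact ⟨g, hg⟩
  have h3 : ((StabR p ρ).comap (hp2Phi hk)).map (MonoidHom.fst _ _) = ⊤ := by
    refine SL2_perfect _ fun b c => ?_
    obtain ⟨g, hg⟩ := h2 b
    obtain ⟨g', hg'⟩ := h2 c
    have h4 : (b * c * b⁻¹ * c⁻¹, g * g' * g⁻¹ * g'⁻¹) ∈ M := by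
      have := M.mul_mem (M.mul_mem (M.mul_mem hg hg') (M.inv_mem hg)) (M.inv_mem hg')
      simpa only [Prod.inv_mk, Prod.mk_mul_mk] using this
    have h5 : (g * g' * g⁻¹ * g'⁻¹).2 = 1 := by
      change g.2 * g'.2 * g.2⁻¹ * g'.2⁻¹ = 1
      rw [hp2B_comm ((hM b g).1 hg).2 ((hM c g').1 hg').2]
      group
    refine ⟨(b * c * b⁻¹ * c⁻¹, (g * g' * g⁻¹ * g'⁻¹).1), ?_, rfl⟩
    have h6 := ((hM _ _).1 h4).1
    rw [show g * g' * g⁻¹ * g'⁻¹ = ((g * g' * g⁻¹ * g'⁻¹).1, 1) from Prod.ext rfl h5] at h6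
    change hp2Phi hk _ ∈ StabR p ρ
    rw [mem_StabR]
    refine (congrArg (· ∈ Stab (κ → GG p) ρ) ?_).mpr h6
    funext j
    rw [hp2Phi_apply, hp2Phi_apply, Pi.mul_apply, Pi.mul_apply, hp2_single, hp2_single]
    exact Prod.ext rfl (one_mul _).symm
  have : a ∈ ((StabR p ρ).comap (hp2Phi hk)).map (MonoidHom.fst _ _) := h3 ▸ Subgroup.mem_top a
  obtain ⟨⟨a', g⟩, hg, rfl⟩ := this
  exact ⟨g, hg⟩

theorem rigid_atom (ρ : Measure (κ → XX p)) [IsProbabilityMeasure ρ] (m : κ)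
    {C : Set (κ → XX p)} (hC : IsCompact C)
    (h0 : ρ C ≠ 0) {V : Set (κ → GG p)} (hV : V ∈ 𝓝 (1 : κ → GG p)) (h : Rigid p ρ m C V)
    (hc : ∀ g : SL(2, ℝ), Pi.mulSingle (M := fun _ => SL(2, ℝ)) m g ∈ StabR p ρ → g = 1 ∨ g = -1)
    (hs : ∀ g : SL(2, ℝ), ∃ h ∈ StabR p ρ, h m = g) :
    ∃ D, IsCompact D ∧ ρ D ≠ 0 ∧ ∀ w ∈ D, ∀ w' ∈ D, (∀ k, k ≠ m → w k = w' k) →
      toY p (w m) = toY p (w' m) := by
  have hN1 : (fun g : GG p => Pi.mulSingle (M := fun _ => GG p) m g) ⁻¹' V ∈ 𝓝 (1 : GG p) :=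
    (continuous_mulSingle (A := fun _ => GG p) m).continuousAt.preimage_mem_nhds (by
      rw [Pi.mulSingle_one]; exact hV)
  have hN2 : Prod.snd ⁻¹' (Kp p : Set SL(2, ℚ_[p])) ∈ 𝓝 (1 : GG p) :=
    ((Kp_open p).preimage continuous_snd).mem_nhds (Kp p).one_mem
  obtain ⟨D, hDC, hD, hD0, hDT⟩ := hp2_piece p ρ m hC h0 (inter_mem hN1 hN2)
  refine ⟨D, hD, hD0, fun w hw w' hw' hww => ?_⟩
  obtain ⟨g, ⟨hgV, hgK⟩, hgw⟩ := hDT w hw w' hw'
  have he : Pi.mulSingle (M := fun _ => GG p) m g • w = w' := by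
    funext j
    rw [Pi.smul_apply']
    by_cases hjm : j = m
    · subst hjm; rw [Pi.mulSingle_eq_same, hgw]
    · rw [Pi.mulSingle_eq_of_ne hjm, one_smul, hww j hjm]
  obtain ⟨h5, -, -⟩ := h w (hDC hw) (Pi.mulSingle (M := fun _ => GG p) m g) hgV (he ▸ hDC hw')
    fun j hjm => by rw [Pi.mulSingle_eq_of_ne hjm]; rfl
  have h6 : g.1 = 1 ∨ g.1 = -1 := by
    refine eq_pm_of_commutator fun a => hc _ ?_
    obtain ⟨b, hb, rfl⟩ := hs a
    rw [mem_StabR] at hb ⊢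
    have h7 := Subgroup.mul_mem _ (Subgroup.mul_mem _ (Subgroup.mul_mem _ h5 hb)
      (Subgroup.inv_mem _ h5)) (Subgroup.inv_mem _ hb)
    refine (congrArg (· ∈ Stab (κ → GG p) ρ) ?_).mpr h7
    funext j
    simp only [Pi.mul_apply, Pi.inv_apply]
    by_cases hjm : j = m
    · subst hjm
      rw [Pi.mulSingle_eq_same, Pi.mulSingle_eq_same]
      exact Prod.ext rfl (by simp)
    · rw [Pi.mulSingle_eq_of_ne hjm, Pi.mulSingle_eq_of_ne hjm]
      exact Prod.ext (by simp) (by simp)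
  rw [hgw, toY_smul p hgK]
  rcases h6 with h6 | h6
  · rw [h6, one_smul]
  · rw [h6, neg_one_smul_YY]

end Pool.Agent.EQ
end
end

-- part Pool.Agent.P.MP_ad7a55_nt.TMx
section

/-! Elementary counts. -/

set_option autoImplicit false

noncomputable section

open Finset

namespace Pool.Agent.EQ

theorem tmx_img {α β : Type} {S : Set β} (T : Finset α) (f : α → β)
    (h : ∀ s ∈ S, ∃ t ∈ T, f t = s) : S.Finite ∧ S.ncard ≤ T.card := by
  have hs : S ⊆ f '' (T : Set α) := fun s hs => by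
    obtain ⟨t, ht, e⟩ := h s hs
    exact ⟨t, Finset.mem_coe.2 ht, e⟩
  have hf : (f '' (T : Set α)).Finite := T.finite_toSet.image f
  refine ⟨hf.subset hs, (Set.ncard_le_ncard hs hf).trans ?_⟩
  rw [← Set.ncard_coe_finset T]
  exact Set.ncard_image_le T.finite_toSet

theorem tmx_img' {α β : Type} {S : Set β} {T : Set α} (hT : T.Finite) (f : α → β)
    (h : ∀ s ∈ S, ∃ t ∈ T, f t = s) : S.Finite ∧ S.ncard ≤ T.ncard := by
  have := tmx_img (S := S) hT.toFinset f fun s hs => by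
    obtain ⟨t, ht, e⟩ := h s hs
    exact ⟨t, hT.mem_toFinset.2 ht, e⟩
  rwa [← Set.ncard_eq_toFinset_card T hT] at this

theorem tmx_fib {α β : Type} {S : Set α} {T : Set β} (hT : T.Finite) (R : α → β → Prop)
    (h : ∀ a ∈ S, ∃ b ∈ T, R a b) {m : ℕ}
    (hm : ∀ b ∈ T, {a | a ∈ S ∧ R a b}.Finite ∧ {a | a ∈ S ∧ R a b}.ncard ≤ m) :
    S.Finite ∧ S.ncard ≤ m * T.ncard := by
  classical
  have hS : S ⊆ ⋃ b ∈ T, {a | a ∈ S ∧ R a b} := fun a ha => by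
    obtain ⟨b, hb, e⟩ := h a ha
    exact Set.mem_biUnion hb ⟨ha, e⟩
  have hf : S.Finite := (hT.biUnion fun b hb => (hm b hb).1).subset hS
  refine ⟨hf, ?_⟩
  rw [Set.ncard_eq_toFinset_card S hf, Set.ncard_eq_toFinset_card T hT]
  have h1 : hf.toFinset ⊆ hT.toFinset.biUnion fun b => hf.toFinset.filter fun a => R a b := by
    intro a ha
    obtain ⟨b, hb, e⟩ := h a (hf.mem_toFinset.1 ha)
    exact Finset.mem_biUnion.2 ⟨b, hT.mem_toFinset.2 hb, Finset.mem_filter.2 ⟨ha, e⟩⟩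
  refine (Finset.card_le_card h1).trans (Finset.card_biUnion_le.trans ?_)
  rw [mul_comm, ← smul_eq_mul]
  refine Finset.sum_le_card_nsmul _ _ _ fun b hb => ?_
  have h2 := (hm b (hT.mem_toFinset.1 hb)).2
  have e : {a | a ∈ S ∧ R a b} = ((hf.toFinset.filter fun a => R a b : Finset α) : Set α) := by
    ext a
    simp
  rwa [e, Set.ncard_coe_finset] at h2

theorem tmx_pairs {m : ℤ} (hm : m ≠ 0) : {p : ℤ × ℤ | p.1 * p.2 = m}.Finite ∧
    {p : ℤ × ℤ | p.1 * p.2 = m}.ncard ≤ 2 * m.natAbs.divisors.card := by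
  have := tmx_img (S := {p : ℤ × ℤ | p.1 * p.2 = m}) (({1, -1} : Finset ℤ) ×ˢ m.natAbs.divisors)
    (fun t => (t.1 * t.2, m / (t.1 * t.2))) fun p hp => by
      have e : p.1 * p.2 = m := hp
      have h1 : p.1 ≠ 0 := by
        intro h
        rw [h, zero_mul] at e
        exact hm e.symm
      have h2 : p.1.natAbs ∈ m.natAbs.divisors :=
        Nat.mem_divisors.2 ⟨Int.natAbs_dvd_natAbs.2 ⟨p.2, e.symm⟩, Int.natAbs_ne_zero.2 hm⟩
      have h3 : m / p.1 = p.2 := by rw [← e, Int.mul_ediv_cancel_left _ h1]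
      rcases Int.natAbs_eq p.1 with h | h
      · refine ⟨(1, p.1.natAbs), Finset.mem_product.2 ⟨by simp, h2⟩, ?_⟩
        have : (1 : ℤ) * p.1.natAbs = p.1 := by omega
        simp only [this, h3]
      · refine ⟨(-1, p.1.natAbs), Finset.mem_product.2 ⟨by simp, h2⟩, ?_⟩
        have : (-1 : ℤ) * p.1.natAbs = p.1 := by omega
        simp only [this, h3]
  rw [Finset.card_product] at this
  exact this

theorem card_deg {N : ℤ} (hN : N ≠ 0) : {Y : ℤ | IsSquare (Y ^ 2 - 4 * N)}.Finite ∧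
    {Y : ℤ | IsSquare (Y ^ 2 - 4 * N)}.ncard ≤ 2 * (4 * N.natAbs).divisors.card := by
  obtain ⟨h1, h2⟩ := tmx_pairs (m := 4 * N) (by omega)
  have h3 := tmx_img' (S := {Y : ℤ | IsSquare (Y ^ 2 - 4 * N)}) h1 (fun p => (p.1 + p.2) / 2)
    fun Y hY => by
      obtain ⟨s, hs⟩ := hY
      refine ⟨(Y - s, Y + s), ?_, ?_⟩
      · show (Y - s) * (Y + s) = 4 * N
        linear_combination hs
      · show (Y - s + (Y + s)) / 2 = Y
        omega
  have e : (4 * N).natAbs = 4 * N.natAbs := by rw [Int.natAbs_mul]; rfl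
  rw [e] at h2
  exact ⟨h3.1, h3.2.trans h2⟩

theorem tmx_mat {N : ℤ} (hN : N ≠ 0) (h K : ℕ) (hK : ∀ n : ℕ, 0 < n → n ≤ 8 * h ^ 2 → n.divisors.card ≤ K) :
    {η : Matrix (Fin 2) (Fin 2) ℤ | η.det = N ∧ (∀ i j, |η i j| ≤ h) ∧
      IsSquare (η.trace ^ 2 - 4 * N)}.Finite ∧
    {η : Matrix (Fin 2) (Fin 2) ℤ | η.det = N ∧ (∀ i j, |η i j| ≤ h) ∧
      IsSquare (η.trace ^ 2 - 4 * N)}.ncard ≤ 24 * K ^ 2 * h := by
  obtain ⟨S, hS⟩ : ∃ S : Set (Matrix (Fin 2) (Fin 2) ℤ), S = {η : Matrix (Fin 2) (Fin 2) ℤ | η.det = N ∧ (∀ i j, |η i j| ≤ h) ∧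
      IsSquare (η.trace ^ 2 - 4 * N)} := ⟨_, rfl⟩
  rw [← hS]
  rcases S.eq_empty_or_nonempty with h0 | ⟨η₀, hη₀⟩
  · rw [h0]
    simp
  have hmul : ∀ x y : ℤ, |x| ≤ h → |y| ≤ h → |x * y| ≤ (h : ℤ) ^ 2 := fun x y hx hy => by
    rw [abs_mul, sq]
    exact mul_le_mul hx hy (abs_nonneg _) (by positivity)
  have hN2 : |N| ≤ 2 * (h : ℤ) ^ 2 := by
    rw [hS] at hη₀
    obtain ⟨e, hb, -⟩ := hη₀
    rw [← e, Matrix.det_fin_two]
    have a1 := hmul _ _ (hb 0 0) (hb 1 1)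
    have a2 := hmul _ _ (hb 0 1) (hb 1 0)
    have a3 := abs_sub (η₀ 0 0 * η₀ 1 1) (η₀ 0 1 * η₀ 1 0)
    linarith
  have hN3 : N.natAbs ≤ 2 * h ^ 2 := by
    have : (N.natAbs : ℤ) ≤ 2 * (h : ℤ) ^ 2 := by rwa [Int.natCast_natAbs]
    exact_mod_cast this
  have hNp : 0 < N.natAbs := Int.natAbs_pos.2 hN
  have hh : 1 ≤ h := by
    rcases Nat.eq_zero_or_pos h with h0 | h0
    · rw [h0] at hN3
      omega
    · exact h0
  have hI : (Finset.Icc (-(h : ℤ)) h).card = 2 * h + 1 := by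
    rw [Int.card_Icc]
    omega
  -- matrices with nonzero off-diagonal product
  obtain ⟨d1, d2⟩ := card_deg hN
  have hT : ({Y : ℤ | IsSquare (Y ^ 2 - 4 * N)} ×ˢ ((Finset.Icc (-(h : ℤ)) h : Finset ℤ) : Set ℤ)).Finite :=
    d1.prod (Finset.finite_toSet _)
  have A := tmx_fib (S := {η | η ∈ S ∧ η 0 1 * η 1 0 ≠ 0}) hT
    (fun η t => η.trace = t.1 ∧ η 0 0 = t.2) (m := 2 * K) (fun η hη => by
      have h1 := hη.1
      rw [hS] at h1
      exact ⟨(η.trace, η 0 0), ⟨h1.2.2, Finset.mem_coe.2 (Finset.mem_Icc.2 (abs_le.1 (h1.2.1 0 0)))⟩,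
        rfl, rfl⟩) (fun t _ => by
      rcases Set.eq_empty_or_nonempty {η : Matrix (Fin 2) (Fin 2) ℤ |
          η ∈ {η : Matrix (Fin 2) (Fin 2) ℤ | η ∈ S ∧ η 0 1 * η 1 0 ≠ 0} ∧
            (η.trace = t.1 ∧ η 0 0 = t.2)} with h0 | ⟨η₁, hη₁⟩
      · rw [h0]
        simp
      have key : ∀ η : Matrix (Fin 2) (Fin 2) ℤ, η ∈ S → η.trace = t.1 → η 0 0 = t.2 →
          η 1 1 = t.1 - t.2 ∧ η 0 1 * η 1 0 = t.2 * (t.1 - t.2) - N := fun η a1 a2 a3 => by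
        rw [hS] at a1
        have e := a1.1
        rw [Matrix.det_fin_two] at e
        rw [Matrix.trace_fin_two] at a2
        have e2 : η 1 1 = t.1 - t.2 := by linarith
        refine ⟨e2, ?_⟩
        rw [← e2, ← a3]
        linarith
      obtain ⟨⟨b1, b2⟩, b3, b4⟩ := hη₁
      have b5 := (key η₁ b1 b3 b4).2
      have hm : t.2 * (t.1 - t.2) - N ≠ 0 := b5 ▸ b2
      obtain ⟨p1, p2⟩ := tmx_pairs hm
      have b6 : (t.2 * (t.1 - t.2) - N).natAbs ≤ 8 * h ^ 2 := by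
        rw [hS] at b1
        have a2 := hmul _ _ (b1.2.1 0 1) (b1.2.1 1 0)
        rw [b5, ← Int.natCast_natAbs] at a2
        have : (t.2 * (t.1 - t.2) - N).natAbs ≤ h ^ 2 := by exact_mod_cast a2
        omega
      have b7 := hK _ (Int.natAbs_pos.2 hm) b6
      have q := tmx_img' (S := {η : Matrix (Fin 2) (Fin 2) ℤ |
          η ∈ {η : Matrix (Fin 2) (Fin 2) ℤ | η ∈ S ∧ η 0 1 * η 1 0 ≠ 0} ∧
            (η.trace = t.1 ∧ η 0 0 = t.2)}) p1 (fun p => !![t.2, p.1; p.2, t.1 - t.2])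
        fun η hη => by
          obtain ⟨⟨c1, -⟩, c3, c4⟩ := hη
          obtain ⟨c5, c6⟩ := key η c1 c3 c4
          refine ⟨(η 0 1, η 1 0), c6, ?_⟩
          rw [← c5, ← c4]
          exact (Matrix.eta_fin_two η).symm
      exact ⟨q.1, q.2.trans (p2.trans (by omega))⟩)
  -- matrices with zero off-diagonal product
  obtain ⟨p1, p2⟩ := tmx_pairs hN
  have B := tmx_fib (S := {η | η ∈ S ∧ η 0 1 * η 1 0 = 0}) p1
    (fun η t => η 0 0 = t.1 ∧ η 1 1 = t.2) (m := 2 * (2 * h + 1)) (fun η hη => by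
      have h1 := hη.1
      rw [hS] at h1
      have e := h1.1
      have e2 : η 0 1 * η 1 0 = 0 := hη.2
      rw [Matrix.det_fin_two, e2, sub_zero] at e
      exact ⟨(η 0 0, η 1 1), e, rfl, rfl⟩) (fun t _ => by
      have q := tmx_img (S := {η : Matrix (Fin 2) (Fin 2) ℤ |
          η ∈ {η : Matrix (Fin 2) (Fin 2) ℤ | η ∈ S ∧ η 0 1 * η 1 0 = 0} ∧
            (η 0 0 = t.1 ∧ η 1 1 = t.2)}) (({0, 1} : Finset ℤ) ×ˢ Finset.Icc (-(h : ℤ)) h)
        (fun p => !![t.1, p.1 * p.2; (1 - p.1) * p.2, t.2]) fun η hη => by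
          obtain ⟨⟨c1, c2⟩, c3, c4⟩ := hη
          rw [hS] at c1
          rcases mul_eq_zero.1 c2 with c | c
          · refine ⟨(0, η 1 0), Finset.mem_product.2 ⟨by simp,
              Finset.mem_Icc.2 (abs_le.1 (c1.2.1 1 0))⟩, ?_⟩
            rw [Matrix.eta_fin_two η, ← c3, ← c4]
            simp [c]
          · refine ⟨(1, η 0 1), Finset.mem_product.2 ⟨by simp,
              Finset.mem_Icc.2 (abs_le.1 (c1.2.1 0 1))⟩, ?_⟩
            rw [Matrix.eta_fin_two η, ← c3, ← c4]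
            simp [c]
      rw [Finset.card_product, hI] at q
      exact q)
  have hU : S = {η | η ∈ S ∧ η 0 1 * η 1 0 ≠ 0} ∪ {η | η ∈ S ∧ η 0 1 * η 1 0 = 0} := by
    ext η
    simp only [Set.mem_union, Set.mem_ofPred_eq]
    tauto
  have k1 := hK (4 * N.natAbs) (by omega) (by omega)
  have k2 := hK N.natAbs hNp (by omega)
  have A2 := A.2
  rw [Set.ncard_prod, Set.ncard_coe_finset, hI] at A2
  have B2 := B.2
  refine ⟨hU ▸ A.1.union B.1, ?_⟩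
  have k3 : K ≤ K ^ 2 := by
    rw [sq]
    exact Nat.le_mul_self K
  calc S.ncard ≤ {η | η ∈ S ∧ η 0 1 * η 1 0 ≠ 0}.ncard + {η | η ∈ S ∧ η 0 1 * η 1 0 = 0}.ncard := by
        conv_lhs => rw [hU]
        exact Set.ncard_union_le _ _
    _ ≤ 2 * K * (2 * K * (3 * h)) + 2 * (3 * h) * (2 * K ^ 2) := by
        refine add_le_add (A2.trans ?_) (B2.trans ?_)
        · exact Nat.mul_le_mul_left _ (Nat.mul_le_mul (by omega) (by omega))
        · exact Nat.mul_le_mul (by omega) (by omega)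
    _ = 24 * K ^ 2 * h := by ring

theorem card_mat {ε : ℝ} (hε : 0 < ε) : ∃ C : ℝ, 0 < C ∧ ∀ (N : ℤ) (H : ℝ), N ≠ 0 → 0 ≤ H →
    {η : Matrix (Fin 2) (Fin 2) ℤ | η.det = N ∧ (∀ i j, |(η i j : ℝ)| ≤ H) ∧
      IsSquare (η.trace ^ 2 - 4 * N)}.Finite ∧
    ({η : Matrix (Fin 2) (Fin 2) ℤ | η.det = N ∧ (∀ i j, |(η i j : ℝ)| ≤ H) ∧
      IsSquare (η.trace ^ 2 - 4 * N)}.ncard : ℝ) ≤ C * H ^ (1 + ε) := by
  obtain ⟨C, hC, hd⟩ := div_bound (ε := ε / 4) (by positivity)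
  refine ⟨24 * (C * 8 ^ (ε / 4)) ^ 2, by positivity, fun N H hN hH => ?_⟩
  have hfl : (⌊H⌋₊ : ℝ) ≤ H := Nat.floor_le hH
  have hK : ∀ n : ℕ, 0 < n → n ≤ 8 * ⌊H⌋₊ ^ 2 →
      n.divisors.card ≤ ⌊C * (8 * H ^ 2) ^ (ε / 4)⌋₊ := fun n h0 hn => by
    refine Nat.le_floor ((hd n h0).trans (mul_le_mul_of_nonneg_left ?_ hC.le))
    refine Real.rpow_le_rpow (by positivity) ?_ (by positivity)
    have : (n : ℝ) ≤ 8 * (⌊H⌋₊ : ℝ) ^ 2 := by exact_mod_cast hn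
    refine this.trans ?_
    gcongr
  obtain ⟨m1, m2⟩ := tmx_mat hN ⌊H⌋₊ _ hK
  have e : {η : Matrix (Fin 2) (Fin 2) ℤ | η.det = N ∧ (∀ i j, |(η i j : ℝ)| ≤ H) ∧
      IsSquare (η.trace ^ 2 - 4 * N)} = {η : Matrix (Fin 2) (Fin 2) ℤ | η.det = N ∧
        (∀ i j, |η i j| ≤ (⌊H⌋₊ : ℕ)) ∧ IsSquare (η.trace ^ 2 - 4 * N)} := by
    ext η
    have : ∀ x : ℤ, |(x : ℝ)| ≤ H ↔ |x| ≤ (⌊H⌋₊ : ℕ) := fun x => by
      rw [← Int.natCast_natAbs, Nat.cast_le, Nat.le_floor_iff hH, Nat.cast_natAbs, Int.cast_abs]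
    simp only [Set.mem_ofPred_eq, this]
  rw [e]
  refine ⟨m1, ?_⟩
  have h1 : (⌊C * (8 * H ^ 2) ^ (ε / 4)⌋₊ : ℝ) ≤ C * (8 * H ^ 2) ^ (ε / 4) :=
    Nat.floor_le (by positivity)
  have h2 : (8 * H ^ 2) ^ (ε / 4) = 8 ^ (ε / 4) * H ^ (ε / 2) := by
    rw [Real.mul_rpow (by norm_num) (by positivity), ← Real.rpow_natCast, ← Real.rpow_mul hH]
    congr 2
    push_cast
    ring
  have h3 : (H ^ (ε / 2)) ^ 2 * H = H ^ (1 + ε) := by
    rw [← Real.rpow_natCast, ← Real.rpow_mul hH, Real.rpow_add' hH (by positivity), Real.rpow_one,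
      mul_comm]
    congr 2
    push_cast
    ring
  calc _ ≤ ((24 * ⌊C * (8 * H ^ 2) ^ (ε / 4)⌋₊ ^ 2 * ⌊H⌋₊ : ℕ) : ℝ) := by exact_mod_cast m2
    _ = 24 * (⌊C * (8 * H ^ 2) ^ (ε / 4)⌋₊ : ℝ) ^ 2 * (⌊H⌋₊ : ℝ) := by push_cast; ring
    _ ≤ 24 * (C * (8 * H ^ 2) ^ (ε / 4)) ^ 2 * H := by gcongr
    _ = _ := by rw [h2, ← h3]; ring

theorem card_index {Λ : Lt} (h : IsLat Λ) {g : ℕ} (hg : 0 < g) :
    {M | IsLat M ∧ M ≤ Λ ∧ vol M = g * vol Λ}.Finite ∧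
      {M | IsLat M ∧ M ≤ Λ ∧ vol M = g * vol Λ}.ncard ≤ g * g.divisors.card := by
  have hv := vol_pos h
  have h' := h
  obtain ⟨c, τ, hc, rfl⟩ := h'
  have q := tmx_img (S := {M | IsLat M ∧ M ≤ sp c (c * τ) ∧ vol M = g * vol (sp c (c * τ))})
    (Finset.range g ×ˢ g.divisors)
    (fun t => sp (t.2 * c) (c * ((g / t.2 : ℕ) * τ + (t.1 : ℕ)))) fun M hM => by
      obtain ⟨m1, m2, m3⟩ := hM
      obtain ⟨n, hn, -, hle⟩ := exists_index h m1 m2
      obtain ⟨a, d, b, ha, hd, -, -, hb0, hba, e⟩ := hnf hc τ hn hle m2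
      have p1 : 0 < Complex.normSq c * τ.im := mul_pos (Complex.normSq_pos.2 hc) τ.im_pos
      have e2 : (starRingEnd ℂ (a * c) * (c * (d * τ + b))).im =
          (a * d : ℝ) * (Complex.normSq c * τ.im) := by
        simp only [map_mul, map_natCast, Complex.add_im, Complex.mul_im, Complex.add_re,
          Complex.mul_re, Complex.intCast_re, Complex.intCast_im, Complex.conj_re, Complex.conj_im,
          Complex.natCast_re, Complex.natCast_im, Complex.normSq_apply, UpperHalfPlane.coe_re,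
          UpperHalfPlane.coe_im]
        ring
      have p2 : 0 < (a * d : ℝ) * (Complex.normSq c * τ.im) := by positivity
      have e3 := (vol_sp' (a := a * c) (b := c * (d * τ + b)) (by rw [e2]; exact p2.ne')).2
      rw [← e, m3, e2, abs_of_pos p2, vol_sp hc] at e3
      have e4 : (g : ℝ) = a * d := mul_right_cancel₀ p1.ne' e3
      have e5 : g = a * d := by exact_mod_cast e4
      have hag : a ≤ g := by
        rw [e5]
        exact Nat.le_mul_of_pos_right _ hd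
      obtain ⟨b', rfl⟩ := Int.eq_ofNat_of_zero_le hb0
      refine ⟨(b', a), Finset.mem_product.2 ⟨Finset.mem_range.2 (by omega),
        Nat.mem_divisors.2 ⟨⟨d, e5⟩, hg.ne'⟩⟩, ?_⟩
      have e6 : g / a = d := by rw [e5, Nat.mul_div_cancel_left _ ha]
      simp only [e6]
      rw [e]
      simp
  rwa [Finset.card_product, Finset.card_range] at q

/-- Cauchy-Schwarz for a labelling. -/
theorem card_sq_le {α β : Type} (Z : Finset α) (L : Finset β) (φ : α → β) (h : ∀ z ∈ Z, φ z ∈ L) :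
    Z.card ^ 2 ≤ L.card * {w : α × α | w.1 ∈ Z ∧ w.2 ∈ Z ∧ φ w.1 = φ w.2}.ncard := by
  classical
  have e : {w : α × α | w.1 ∈ Z ∧ w.2 ∈ Z ∧ φ w.1 = φ w.2} =
      (((Z ×ˢ Z).filter fun w => φ w.1 = φ w.2 : Finset (α × α)) : Set (α × α)) := by
    ext w
    simp [and_assoc]
  rw [e, Set.ncard_coe_finset]
  have h1 : Z.card = ∑ l ∈ L, (Z.filter fun z => φ z = l).card :=
    Finset.card_eq_sum_card_fiberwise fun z hz => h z hz
  have h2 : ((Z ×ˢ Z).filter fun w => φ w.1 = φ w.2).card =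
      ∑ l ∈ L, (Z.filter fun z => φ z = l).card ^ 2 := by
    rw [Finset.card_eq_sum_card_fiberwise (f := fun w : α × α => φ w.1) (t := L)
      fun w hw => h _ (Finset.mem_product.1 (Finset.mem_filter.1 hw).1).1]
    refine Finset.sum_congr rfl fun l _ => ?_
    rw [sq, ← Finset.card_product]
    congr 1
    ext w
    simp only [Finset.mem_filter, Finset.mem_product]
    constructor
    · rintro ⟨⟨⟨a1, a2⟩, a3⟩, a4⟩
      exact ⟨⟨a1, a4⟩, a2, a3 ▸ a4⟩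
    · rintro ⟨⟨a1, a4⟩, a2, a3⟩
      exact ⟨⟨⟨a1, a2⟩, a4.trans a3.symm⟩, a4⟩
  rw [h1, h2]
  exact sq_sum_le_card_mul_sum_sq

theorem ncard_le_fib {α β : Type} {S : Set α} {T : Set β} (hT : T.Finite) (R : α → β → Prop)
    (h : ∀ a ∈ S, ∃ b ∈ T, R a b) {m : ℕ}
    (hm : ∀ b ∈ T, {a | a ∈ S ∧ R a b}.Finite ∧ {a | a ∈ S ∧ R a b}.ncard ≤ m) :
    S.Finite ∧ S.ncard ≤ m * T.ncard :=
  tmx_fib hT R h hm

end Pool.Agent.EQ
end
end

-- part Pool.Agent.P.MP_ad7a55_nt.Tight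
section

/-! Ball orbits of CM points do not escape. -/

set_option autoImplicit false

noncomputable section

open MeasureTheory Topology Filter UpperHalfPlane
open scoped MatrixGroups ENNReal BoundedContinuousFunction

namespace Pool.Agent.EQ

variable (p : ℕ) [Fact p.Prime]

theorem tight_two_le : (2 : ℝ) ≤ p := by exact_mod_cast (Fact.out : p.Prime).two_le

theorem tight_val {n : ℤ} (hn : n ≠ 0) :
    ∃ c : ℕ, ‖(n : ℚ_[p])‖ = ((p : ℝ) ^ c)⁻¹ ∧ (p : ℝ) ^ c ≤ |(n : ℝ)| := by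
  have hp : (1 : ℝ) < p := by linarith [tight_two_le p]
  obtain ⟨v, hv⟩ := exists_norm_eq p (d := (n : ℚ_[p])) (by exact_mod_cast hn)
  have h1 : (p : ℝ) ^ v ≤ 1 := hv ▸ Padic.norm_int_le_one n
  have h2 : v ≤ 0 := (zpow_le_one_iff_right₀ hp).1 h1
  obtain ⟨c, rfl⟩ : ∃ c : ℕ, v = -(c : ℤ) := ⟨(-v).toNat, by omega⟩
  refine ⟨c, by rw [hv, zpow_neg, zpow_natCast], ?_⟩
  have h3 : (p : ℤ) ^ c ∣ n := (Padic.norm_int_le_pow_iff_dvd n c).1 hv.le
  have h4 : (p : ℤ) ^ c ≤ |n| := Int.le_of_dvd (abs_pos.2 hn) ((dvd_abs _ _).2 h3)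
  exact_mod_cast h4

theorem tight_prod {x : ℚ} (hx : InZp p x) (h0 : x ≠ 0) : 1 ≤ |(x : ℝ)| * ‖(x : ℚ_[p])‖ := by
  have hp : (0 : ℝ) < p := by linarith [tight_two_le p]
  obtain ⟨a, m, hm⟩ := hx
  have hp' : (p : ℚ) ≠ 0 := by exact_mod_cast (Fact.out : p.Prime).ne_zero
  have hm0 : m ≠ 0 := by
    rintro rfl
    exact h0 (by simpa [hp'] using hm)
  obtain ⟨c, h1, h2⟩ := tight_val p hm0
  have h3 : |(m : ℝ)| = (p : ℝ) ^ a * |(x : ℝ)| := by
    have := congrArg (fun z : ℚ => (z : ℝ)) hm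
    simp only [Rat.cast_mul, Rat.cast_pow, Rat.cast_natCast, Rat.cast_intCast] at this
    rw [← this, abs_mul, abs_of_pos (by positivity)]
  have h4 : ‖(m : ℚ_[p])‖ = ((p : ℝ) ^ a)⁻¹ * ‖(x : ℚ_[p])‖ := by
    have := congrArg (fun z : ℚ => (z : ℚ_[p])) hm
    simp only [Rat.cast_mul, Rat.cast_pow, Rat.cast_natCast, Rat.cast_intCast] at this
    rw [← this, norm_mul, norm_pow, Padic.norm_p, inv_pow]
  have h5 : |(x : ℝ)| * ‖(x : ℚ_[p])‖ = |(m : ℝ)| * ‖(m : ℚ_[p])‖ := by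
    rw [h3, h4]; field_simp
  rw [h5, h1, ← div_eq_mul_inv, le_div_iff₀ (by positivity), one_mul]
  exact h2

theorem tight_int {x : ℚ} (hx : InZp p x) (h1 : ‖(x : ℚ_[p])‖ ≤ 1) : ∃ n : ℤ, x = n := by
  obtain ⟨a, m, hm⟩ := hx
  have hp' : (p : ℚ) ≠ 0 := by exact_mod_cast (Fact.out : p.Prime).ne_zero
  have h6 : ‖((m : ℤ) : ℚ_[p])‖ ≤ (p : ℝ) ^ (-(a : ℤ)) := by
    have := congrArg (fun z : ℚ => (z : ℚ_[p])) hm
    simp only [Rat.cast_mul, Rat.cast_pow, Rat.cast_natCast, Rat.cast_intCast] at this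
    rw [← this, norm_mul, norm_pow, Padic.norm_p, zpow_neg, zpow_natCast, inv_pow]
    exact mul_le_of_le_one_right (by positivity) h1
  obtain ⟨n, hn⟩ := (Padic.norm_int_le_pow_iff_dvd m a).1 h6
  refine ⟨n, mul_left_cancel₀ (pow_ne_zero a hp') ?_⟩
  rw [hm, hn]; push_cast; ring

theorem tight_det {F : Type} [CommRing F] (g : SL(2, F)) : g 0 0 * g 1 1 - g 0 1 * g 1 0 = 1 := by
  have := g.det_coe
  rwa [Matrix.det_fin_two] at this

theorem tight_transfer {g g' : GG p} (h : (g : XX p) = g') {v : Fin 2 → ℚ} (hv0 : v ≠ 0)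
    (hv : ∀ i, InZp p (v i)) :
    ∃ w : Fin 2 → ℚ, w ≠ 0 ∧ (∀ i, InZp p (w i)) ∧
      (∀ i, g.1 i 0 * w 0 + g.1 i 1 * w 1 = g'.1 i 0 * v 0 + g'.1 i 1 * v 1) ∧
      (∀ i, g.2 i 0 * w 0 + g.2 i 1 * w 1 = g'.2 i 0 * v 0 + g'.2 i 1 * v 1) := by
  obtain ⟨γ, hγ, hγ'⟩ := QuotientGroup.eq.1 h
  have hg : g' = g * emb p γ := by rw [hγ']; simp
  subst hg
  refine ⟨fun i => γ i 0 * v 0 + γ i 1 * v 1, ?_,
    fun i => ((hγ i 0).mul (hv 0)).add ((hγ i 1).mul (hv 1)), fun i => ?_, fun i => ?_⟩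
  · intro h0
    have h1 : γ 0 0 * v 0 + γ 0 1 * v 1 = 0 := congrFun h0 0
    have h2 : γ 1 0 * v 0 + γ 1 1 * v 1 = 0 := congrFun h0 1
    have hd := tight_det γ
    apply hv0
    ext i
    fin_cases i
    · change v 0 = 0
      linear_combination γ 1 1 * h1 - γ 0 1 * h2 - v 0 * hd
    · change v 1 = 0
      linear_combination γ 0 0 * h2 - γ 1 0 * h1 - v 1 * hd
  · simp [emb, Matrix.mul_apply, Fin.sum_univ_two]
    ring
  · simp [emb, Matrix.mul_apply, Fin.sum_univ_two]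
    ring

theorem tight_form {F : Type} [CommRing F] (g : SL(2, F)) (Θ : Matrix (Fin 2) (Fin 2) ℤ) (a b : F)
    (h : (g : Matrix (Fin 2) (Fin 2) F) * Θ.map (↑) =
      !![0, a; b, 0] * (g : Matrix (Fin 2) (Fin 2) F)) (x y : F) :
    x * (Θ 1 0 * x + Θ 1 1 * y) - y * (Θ 0 0 * x + Θ 0 1 * y) =
      b * (g 0 0 * x + g 0 1 * y) ^ 2 - a * (g 1 0 * x + g 1 1 * y) ^ 2 := by
  have hd := tight_det g
  have h00 := congrFun (congrFun h 0) 0
  have h01 := congrFun (congrFun h 0) 1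
  have h10 := congrFun (congrFun h 1) 0
  have h11 := congrFun (congrFun h 1) 1
  simp [Matrix.mul_apply, Fin.sum_univ_two] at h00 h01 h10 h11
  linear_combination (g 0 0 * x + g 0 1 * y) * (x * h10 + y * h11) -
    (g 1 0 * x + g 1 1 * y) * (x * h00 + y * h01) -
    (x * (Θ 1 0 * x + Θ 1 1 * y) - y * (Θ 0 0 * x + Θ 0 1 * y)) * hd

theorem tight_nsq_pos (g : SL(2, ℝ)) {v : Fin 2 → ℚ} (hv : v ≠ 0) : 0 < nsq g v := by
  have hd := tight_det g
  by_contra h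
  have h0 : (g 0 0 * v 0 + g 0 1 * v 1) ^ 2 + (g 1 0 * v 0 + g 1 1 * v 1) ^ 2 ≤ 0 := not_lt.1 h
  have h1 : g 0 0 * v 0 + g 0 1 * v 1 = 0 :=
    pow_eq_zero_iff (two_ne_zero) |>.1 (le_antisymm (by nlinarith [sq_nonneg (g 1 0 * v 0 + g 1 1 * v 1)]) (sq_nonneg _))
  have h2 : g 1 0 * v 0 + g 1 1 * v 1 = 0 :=
    pow_eq_zero_iff (two_ne_zero) |>.1 (le_antisymm (by nlinarith [sq_nonneg (g 0 0 * v 0 + g 0 1 * v 1)]) (sq_nonneg _))
  apply hv
  ext i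
  fin_cases i
  · have : (v 0 : ℝ) = 0 := by linear_combination g 1 1 * h1 - g 0 1 * h2 - (v 0 : ℝ) * hd
    exact_mod_cast this
  · have : (v 1 : ℝ) = 0 := by linear_combination g 0 0 * h2 - g 1 0 * h1 - (v 1 : ℝ) * hd
    exact_mod_cast this

theorem tight_low {D : ℤ} (hD : D < 0) {e : ℚ_[p]} {g : GG p} {Θ : Matrix (Fin 2) (Fin 2) ℤ}
    (h1 : (g.1 : Matrix (Fin 2) (Fin 2) ℝ) * Θ.map (↑) =
      !![0, Real.sqrt (-(D : ℝ)); -Real.sqrt (-(D : ℝ)), 0] * (g.1 : Matrix (Fin 2) (Fin 2) ℝ))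
    (h2 : (g.2 : Matrix (Fin 2) (Fin 2) ℚ_[p]) * Θ.map (↑) =
      !![0, e; D / e, 0] * (g.2 : Matrix (Fin 2) (Fin 2) ℚ_[p])) (he : ‖e‖ = ‖(2 : ℚ_[p])‖)
    {v : Fin 2 → ℚ} (hv0 : v ≠ 0) (hv : ∀ i, InZp p (v i)) {M : ℝ}
    (hM0 : 2 * ‖(D : ℚ_[p])‖ * ‖g.2 0 0 * v 0 + g.2 0 1 * v 1‖ ^ 2 ≤ M)
    (hM1 : ‖g.2 1 0 * v 0 + g.2 1 1 * v 1‖ ^ 2 ≤ M) :
    1 ≤ Real.sqrt (-(D : ℝ)) * nsq g.1 v * M := by
  have hσ : 0 < Real.sqrt (-(D : ℝ)) := Real.sqrt_pos.2 (by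
    have : (D : ℝ) < 0 := by exact_mod_cast hD
    linarith)
  have hn := tight_nsq_pos g.1 hv0
  set q : ℚ := v 0 * (Θ 1 0 * v 0 + Θ 1 1 * v 1) - v 1 * (Θ 0 0 * v 0 + Θ 0 1 * v 1) with hq
  have hqZ : InZp p q := by
    rw [hq, sub_eq_add_neg]
    exact ((hv 0).mul (((inZp_int p _).mul (hv 0)).add ((inZp_int p _).mul (hv 1)))).add
      ((hv 1).mul (((inZp_int p _).mul (hv 0)).add ((inZp_int p _).mul (hv 1)))).neg
  have hqR : (q : ℝ) = -(Real.sqrt (-(D : ℝ)) * nsq g.1 v) := by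
    have := tight_form g.1 Θ _ _ h1 (v 0) (v 1)
    rw [hq, nsq]; push_cast; linear_combination this
  have hqP : (q : ℚ_[p]) = D / e * (g.2 0 0 * v 0 + g.2 0 1 * v 1) ^ 2 -
      e * (g.2 1 0 * v 0 + g.2 1 1 * v 1) ^ 2 := by
    have := tight_form g.2 Θ _ _ h2 (v 0) (v 1)
    rw [hq]; push_cast; linear_combination this
  have hq0 : q ≠ 0 := by
    intro h0
    rw [h0] at hqR
    have := mul_pos hσ hn
    simp only [Rat.cast_zero] at hqR
    linarith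
  have he1 : ‖e‖ ≤ 1 := by
    rw [he]; simpa using Padic.norm_int_le_one (p := p) 2
  have he2 : 1 ≤ 2 * ‖e‖ := by
    have := tight_prod p (x := 2) (by simpa using inZp_int p 2) two_ne_zero
    rw [he]; simpa using this
  have he0 : 0 < ‖e‖ := by linarith
  have hqM : ‖(q : ℚ_[p])‖ ≤ M := by
    rw [hqP, sub_eq_add_neg]
    refine (Padic.nonarchimedean _ _).trans (max_le ?_ ?_)
    · rw [norm_mul, norm_div, norm_pow]
      refine le_trans (mul_le_mul_of_nonneg_right ?_ (by positivity)) hM0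
      rw [div_le_iff₀ he0]
      nlinarith [norm_nonneg (D : ℚ_[p])]
    · rw [norm_neg, norm_mul, norm_pow]
      exact (mul_le_of_le_one_left (by positivity) he1).trans hM1
  have := tight_prod p hqZ hq0
  rw [hqR, abs_neg, abs_of_pos (mul_pos hσ hn)] at this
  exact this.trans (mul_le_mul_of_nonneg_left hqM (mul_pos hσ hn).le)

theorem tight_lin {a b x y : ℚ_[p]} {R : ℝ} (ha : ‖a‖ ≤ 1) (hb : ‖b‖ ≤ 1) (hx : ‖x‖ ≤ R)
    (hy : ‖y‖ ≤ R) : ‖a * x + b * y‖ ≤ R := by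
  refine (Padic.nonarchimedean _ _).trans (max_le ?_ ?_) <;> rw [norm_mul]
  · exact (mul_le_of_le_one_left (norm_nonneg _) ha).trans hx
  · exact (mul_le_of_le_one_left (norm_nonneg _) hb).trans hy

theorem tight_inv {k : SL(2, ℚ_[p])} (hk : k ∈ Kp p) {x y : ℚ_[p]} {R : ℝ}
    (h0 : ‖k 0 0 * x + k 0 1 * y‖ ≤ R) (h1 : ‖k 1 0 * x + k 1 1 * y‖ ≤ R) :
    ‖x‖ ≤ R ∧ ‖y‖ ≤ R := by
  have hd := tight_det k
  constructor
  · have : x = k 1 1 * (k 0 0 * x + k 0 1 * y) + (-k 0 1) * (k 1 0 * x + k 1 1 * y) := by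
      linear_combination (-x) * hd
    rw [this]
    exact tight_lin p (hk 1 1) (by rw [norm_neg]; exact hk 0 1) h0 h1
  · have : y = (-k 1 0) * (k 0 0 * x + k 0 1 * y) + k 0 0 * (k 1 0 * x + k 1 1 * y) := by
      linear_combination (-y) * hd
    rw [this]
    exact tight_lin p (by rw [norm_neg]; exact hk 1 0) (hk 0 0) h0 h1

theorem tight_meas {k : SL(2, ℚ_[p])} (hk : k ∈ Kp p) {z : Fin 2 → ℤ}
    (hz : IsCoprime (z 0) (z 1)) (n : ℕ) (l : ℤ) :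
    bm p n {t | ‖t‖ ≤ (p : ℝ) ^ n ∧ ‖(k 0 0 * z 0 + k 0 1 * z 1) +
      t * (p : ℚ_[p]) ^ n * (k 1 0 * z 0 + k 1 1 * z 1)‖ ≤ (p : ℝ) ^ l} ≤
        ENNReal.ofReal ((p : ℝ) ^ l) := by
  have hp : (1 : ℝ) < p := by linarith [tight_two_le p]
  have hpP : (p : ℚ_[p]) ≠ 0 := by exact_mod_cast (Fact.out : p.Prime).ne_zero
  rcases le_or_gt 0 l with hl | hl
  · refine prob_le_one.trans ?_
    rw [ENNReal.one_le_ofReal]
    exact one_le_zpow₀ hp.le hl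
  set y0 : ℚ_[p] := k 0 0 * z 0 + k 0 1 * z 1 with hy0
  set y1 : ℚ_[p] := k 1 0 * z 0 + k 1 1 * z 1 with hy1
  have hb1 : ‖y1‖ ≤ 1 :=
    tight_lin p (hk 1 0) (hk 1 1) (Padic.norm_int_le_one _) (Padic.norm_int_le_one _)
  rcases hb1.eq_or_lt with h1 | h1
  · have hy : y1 ≠ 0 := by
      intro h0; rw [h0] at h1; simp at h1
    have := bm_ball_le p n (l + n) (-y0 / ((p : ℚ_[p]) ^ n * y1))
    rw [add_sub_cancel_right] at this
    refine le_trans (measure_mono ?_) this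
    rintro t ⟨-, ht⟩
    rw [mem_pb]
    have h2 : t - -y0 / ((p : ℚ_[p]) ^ n * y1) =
        (y0 + t * (p : ℚ_[p]) ^ n * y1) / ((p : ℚ_[p]) ^ n * y1) := by
      field_simp; ring
    rw [h2, norm_div, norm_mul, h1, mul_one, norm_pow, Padic.norm_p, inv_pow, div_inv_eq_mul,
      zpow_add₀ (by positivity), zpow_natCast]
    exact mul_le_mul_of_nonneg_right ht (by positivity)
  · refine le_trans (le_of_eq ?_) (zero_le)
    convert measure_empty (μ := bm p n)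
    rw [Set.eq_empty_iff_forall_notMem]
    rintro t ⟨ht, ht'⟩
    have h2 : ‖t * (p : ℚ_[p]) ^ n‖ ≤ 1 := by
      rw [norm_mul, norm_pow, Padic.norm_p, inv_pow, mul_inv_le_iff₀ (by positivity), one_mul]
      exact ht
    have h3 : (p : ℝ) ^ l < 1 := zpow_lt_one_of_neg₀ hp hl
    have h4 : ‖y0‖ ≤ max ((p : ℝ) ^ l) ‖y1‖ := by
      have : y0 = 1 * (y0 + t * (p : ℚ_[p]) ^ n * y1) + (-(t * (p : ℚ_[p]) ^ n)) * y1 := by ring
      rw [this]
      exact tight_lin p (by simp) (by rwa [norm_neg]) (ht'.trans (le_max_left _ _))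
        (le_max_right _ _)
    obtain ⟨h5, h6⟩ := tight_inv p hk h4 (le_max_right _ _)
    obtain ⟨a, b, hab⟩ := hz
    have h7 := tight_lin p (Padic.norm_int_le_one a) (Padic.norm_int_le_one b) h5 h6
    have h8 : (a : ℚ_[p]) * z 0 + b * z 1 = 1 := by exact_mod_cast congrArg (fun m : ℤ => (m : ℚ_[p])) hab
    rw [h8, norm_one] at h7
    exact absurd (max_lt h3 h1) (not_lt.2 h7)

theorem tight_ent1 (j : ℕ) (t : ℚ_[p]) (g : GG p) : (aP p j * uP p t * g).1 = g.1 := by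
  simp [aP, uP]

theorem tight_ent20 (j : ℕ) (t : ℚ_[p]) (g : GG p) (x y : ℚ_[p]) :
    (aP p j * uP p t * g).2 0 0 * x + (aP p j * uP p t * g).2 0 1 * y =
      (p : ℚ_[p]) ^ j * ((g.2 0 0 * x + g.2 0 1 * y) + t * (g.2 1 0 * x + g.2 1 1 * y)) := by
  simp [aP, uP, Matrix.mul_apply, Fin.sum_univ_two]
  ring

theorem tight_ent21 (j : ℕ) (t : ℚ_[p]) (g : GG p) (x y : ℚ_[p]) :
    (aP p j * uP p t * g).2 1 0 * x + (aP p j * uP p t * g).2 1 1 * y =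
      ((p : ℚ_[p]) ^ j)⁻¹ * (g.2 1 0 * x + g.2 1 1 * y) := by
  simp [aP, uP, Matrix.mul_apply, Fin.sum_univ_two]
  ring

/-- Lower bound for the vectors of the lattice of `a^r x`. -/
theorem tight_low2 {D : ℤ} (hD : D < 0) {x : XX p} {e : ℚ_[p]} (hF : Frame p D x e) {r : ℕ}
    (hDr : ‖(D : ℚ_[p])‖ * ((p : ℝ) ^ (2 * r)) ^ 2 ≤ (p : ℝ) ^ 2) {h : GG p} (hK : h.2 ∈ Kp p)
    (hh : (h : XX p) = aP p r • x) {z : Fin 2 → ℤ} (hz : IsCoprime (z 0) (z 1)) :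
    (p : ℝ) ^ (2 * r) ≤ 2 * p ^ 2 * Real.sqrt (-(D : ℝ)) * nsq h.1 (fun i => z i) := by
  have hp : (2 : ℝ) ≤ p := tight_two_le p
  have hpP : (p : ℚ_[p]) ≠ 0 := by exact_mod_cast (Fact.out : p.Prime).ne_zero
  obtain ⟨g, Θ, rfl, -, h1, h2, he⟩ := hF
  have hh' : ((aP p r * uP p 0 * g : GG p) : XX p) = h := by
    rw [hh, uP_zero, mul_one]; rfl
  have hz0 : (fun i => (z i : ℚ)) ≠ 0 := by
    intro h0
    have a0 : z 0 = 0 := by simpa using congrFun h0 0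
    have a1 : z 1 = 0 := by simpa using congrFun h0 1
    rw [a0, a1] at hz
    exact not_isCoprime_zero_zero hz
  obtain ⟨v, hv0, hv, hR, hP⟩ := tight_transfer p hh' hz0 fun i => inZp_int p (z i)
  rw [tight_ent1] at hR
  have hP0 := hP 0
  have hP1 := hP 1
  rw [tight_ent20, zero_mul, add_zero] at hP0
  rw [tight_ent21] at hP1
  have hb : ∀ i, ‖h.2 i 0 * ((z 0 : ℚ) : ℚ_[p]) + h.2 i 1 * ((z 1 : ℚ) : ℚ_[p])‖ ≤ 1 := fun i =>
    tight_lin p (hK i 0) (hK i 1) (by simpa using Padic.norm_int_le_one (p := p) (z 0))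
      (by simpa using Padic.norm_int_le_one (p := p) (z 1))
  have hb0 : ‖g.2 0 0 * v 0 + g.2 0 1 * v 1‖ ≤ (p : ℝ) ^ r := by
    have := hb 0
    rw [← hP0, norm_mul, norm_pow, Padic.norm_p, inv_pow, inv_mul_le_iff₀ (by positivity),
      mul_one] at this
    exact this
  have hb1 : ‖g.2 1 0 * v 0 + g.2 1 1 * v 1‖ * (p : ℝ) ^ r ≤ 1 := by
    have := hb 1
    rw [← hP1, norm_mul, norm_inv, norm_pow, Padic.norm_p, inv_pow, inv_inv, mul_comm] at this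
    exact this
  have hn : nsq g.1 v = nsq h.1 (fun i => z i) := by
    rw [nsq, nsq, hR 0, hR 1]
  have hr : (0 : ℝ) < (p : ℝ) ^ (2 * r) := by positivity
  have hr2 : (p : ℝ) ^ (2 * r) = ((p : ℝ) ^ r) ^ 2 := by ring
  have key := tight_low p hD h1 h2 he hv0 hv (M := 2 * p ^ 2 / (p : ℝ) ^ (2 * r)) ?_ ?_
  · rw [hn, ← mul_div_assoc, le_div_iff₀ hr] at key
    linarith
  · rw [le_div_iff₀ hr]
    have h3 : ‖g.2 0 0 * v 0 + g.2 0 1 * v 1‖ ^ 2 ≤ (p : ℝ) ^ (2 * r) := by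
      rw [hr2]; exact pow_le_pow_left₀ (norm_nonneg _) hb0 2
    have h4 : ‖(D : ℚ_[p])‖ * ‖g.2 0 0 * v 0 + g.2 0 1 * v 1‖ ^ 2 * (p : ℝ) ^ (2 * r) ≤
        ‖(D : ℚ_[p])‖ * (p : ℝ) ^ (2 * r) * (p : ℝ) ^ (2 * r) := by gcongr
    nlinarith
  · rw [le_div_iff₀ hr, hr2, ← mul_pow]
    have h3 : (‖g.2 1 0 * v 0 + g.2 1 1 * v 1‖ * (p : ℝ) ^ r) ^ 2 ≤ 1 :=
      pow_le_one₀ (by positivity) hb1
    nlinarith

/-- A short vector at time `t` comes from a primitive vector of the lattice of `a^{j+m} x`. -/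
theorem tight_cover {x : XX p} (j m : ℕ) {h : GG p} (hK : h.2 ∈ Kp p)
    (hh : (h : XX p) = aP p (j + m) • x) {δ : ℝ} {t : ℚ_[p]}
    (ht : ‖t‖ ≤ (p : ℝ) ^ (2 * (j + m))) (hs : Short p δ (aP p j • uP p t • x)) :
    ∃ (z : Fin 2 → ℤ) (c : ℕ), IsCoprime (z 0) (z 1) ∧
      (p : ℝ) ^ (2 * c) * nsq h.1 (fun i => z i) < δ ^ 2 * p ^ (2 * m) ∧
      ‖(h.2 0 0 * z 0 + h.2 0 1 * z 1) +
        t * (p : ℚ_[p]) ^ (2 * (j + m)) * (h.2 1 0 * z 0 + h.2 1 1 * z 1)‖ ≤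
          (p : ℝ) ^ ((c : ℤ) - 2 * m) := by
  have hp : (2 : ℝ) ≤ p := tight_two_le p
  have hp0 : (0 : ℝ) < p := by linarith
  have hpP : (p : ℚ_[p]) ≠ 0 := by exact_mod_cast (Fact.out : p.Prime).ne_zero
  have hpQ : (p : ℚ) ≠ 0 := by exact_mod_cast (Fact.out : p.Prime).ne_zero
  obtain ⟨g, rfl⟩ := QuotientGroup.mk_surjective x
  obtain ⟨g', hg', v, hv0, hv, hvP, hvR⟩ := hs
  have e1 : ((aP p j * uP p t * g : GG p) : XX p) = g' := by
    rw [hg', mul_assoc]; rfl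
  obtain ⟨w, hw0, hw, hwR, hwP⟩ := tight_transfer p e1 hv0 hv
  have e2 : (h : XX p) = ((aP p (j + m) * uP p 0 * g : GG p) : XX p) := by
    rw [hh, uP_zero, mul_one]; rfl
  obtain ⟨u, hu0, hu, huR, huP⟩ := tight_transfer p e2 hw0 hw
  rw [tight_ent1] at hwR huR
  have a0 := hvP 0
  have a1 := hvP 1
  rw [← hwP 0, tight_ent20] at a0
  rw [← hwP 1, tight_ent21] at a1
  have b0 := huP 0
  have b1 := huP 1
  rw [tight_ent20, zero_mul, add_zero] at b0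
  rw [tight_ent21] at b1
  set y0 : ℚ_[p] := g.2 0 0 * w 0 + g.2 0 1 * w 1
  set y1 : ℚ_[p] := g.2 1 0 * w 0 + g.2 1 1 * w 1
  have c1 : h.2 1 0 * ((p : ℚ_[p]) ^ m * u 0) + h.2 1 1 * ((p : ℚ_[p]) ^ m * u 1) =
      ((p : ℚ_[p]) ^ j)⁻¹ * y1 := by
    have : ((p : ℚ_[p]) ^ j)⁻¹ * y1 = (p : ℚ_[p]) ^ m * (((p : ℚ_[p]) ^ (j + m))⁻¹ * y1) := by
      field_simp; ring
    rw [this, ← b1]; ring
  have c0 : (h.2 0 0 * ((p : ℚ_[p]) ^ m * u 0) + h.2 0 1 * ((p : ℚ_[p]) ^ m * u 1)) +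
      t * (p : ℚ_[p]) ^ (2 * (j + m)) *
        (h.2 1 0 * ((p : ℚ_[p]) ^ m * u 0) + h.2 1 1 * ((p : ℚ_[p]) ^ m * u 1)) =
      (p : ℚ_[p]) ^ (2 * m) * ((p : ℚ_[p]) ^ j * (y0 + t * y1)) := by
    rw [c1]
    have : h.2 0 0 * ((p : ℚ_[p]) ^ m * u 0) + h.2 0 1 * ((p : ℚ_[p]) ^ m * u 1) =
        (p : ℚ_[p]) ^ m * ((p : ℚ_[p]) ^ (j + m) * y0) := by rw [← b0]; ring
    rw [this]; field_simp; ring
  have d0 : ‖(p : ℚ_[p]) ^ (2 * m) * ((p : ℚ_[p]) ^ j * (y0 + t * y1))‖ ≤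
      ((p : ℝ) ^ (2 * m))⁻¹ := by
    rw [norm_mul, norm_pow, Padic.norm_p, inv_pow]
    exact mul_le_of_le_one_right (by positivity) a0
  have d1 : ((p : ℝ) ^ (2 * m))⁻¹ ≤ 1 := inv_le_one_of_one_le₀ (one_le_pow₀ (by linarith))
  have d2 : ‖t * (p : ℚ_[p]) ^ (2 * (j + m))‖ ≤ 1 := by
    rw [norm_mul, norm_pow, Padic.norm_p, inv_pow, mul_inv_le_iff₀ (by positivity), one_mul]
    exact ht
  rw [← c1] at a1
  rw [← c0] at d0
  have d3 : ‖h.2 0 0 * ((p : ℚ_[p]) ^ m * u 0) + h.2 0 1 * ((p : ℚ_[p]) ^ m * u 1)‖ ≤ 1 := by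
    have := tight_lin p (a := 1) (b := -(t * (p : ℚ_[p]) ^ (2 * (j + m)))) (by simp)
      (by rwa [norm_neg]) (d0.trans d1) a1
    refine le_trans (le_of_eq ?_) this
    congr 1; ring
  obtain ⟨f0, f1⟩ := tight_inv p hK d3 a1
  have hpm : InZp p ((p : ℚ) ^ m) := by simpa using inZp_int p ((p : ℤ) ^ m)
  obtain ⟨n0, hn0⟩ := tight_int p (hpm.mul (hu 0)) (by push_cast; exact f0)
  obtain ⟨n1, hn1⟩ := tight_int p (hpm.mul (hu 1)) (by push_cast; exact f1)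
  have hg0 : 0 < Int.gcd n0 n1 := by
    rw [Int.gcd_pos_iff]
    by_contra hc
    push Not at hc
    apply hu0
    ext i
    fin_cases i
    · change u 0 = 0
      simpa [hc.1, hpQ] using hn0
    · change u 1 = 0
      simpa [hc.2, hpQ] using hn1
  obtain ⟨z0, z1, hz, hz0, hz1⟩ := Int.exists_gcd_one hg0
  set n : ℤ := (Int.gcd n0 n1 : ℤ) with hn
  have hnpos : 0 < n := by rw [hn]; exact_mod_cast hg0
  obtain ⟨c, hc1, hc2⟩ := tight_val p hnpos.ne'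
  have q0 : (p : ℚ) ^ m * u 0 = z0 * n := by rw [hn0, hz0]; push_cast; ring
  have q1 : (p : ℚ) ^ m * u 1 = z1 * n := by rw [hn1, hz1]; push_cast; ring
  refine ⟨![z0, z1], c, Int.isCoprime_iff_gcd_eq_one.2 hz, ?_, ?_⟩
  · have r0 : (p : ℝ) ^ m * u 0 = z0 * n := by exact_mod_cast congrArg (fun s : ℚ => (s : ℝ)) q0
    have r1 : (p : ℝ) ^ m * u 1 = z1 * n := by exact_mod_cast congrArg (fun s : ℚ => (s : ℝ)) q1
    have r2 : (n : ℝ) ^ 2 * nsq h.1 (fun i => (![z0, z1] i : ℤ)) = p ^ (2 * m) * nsq g'.1 v := by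
      rw [nsq, nsq, ← hwR 0, ← hwR 1, ← huR 0, ← huR 1]
      simp only [Matrix.cons_val_zero, Matrix.cons_val_one, Rat.cast_intCast]
      have s0 : ∀ a b : ℝ, (p : ℝ) ^ m * (a * u 0 + b * u 1) = n * (a * z0 + b * z1) := by
        intro a b; linear_combination a * r0 + b * r1
      have s1 : ∀ A B : ℝ, (p : ℝ) ^ (2 * m) * (A ^ 2 + B ^ 2) =
          ((p : ℝ) ^ m * A) ^ 2 + ((p : ℝ) ^ m * B) ^ 2 := by intro A B; ring
      rw [s1, s0, s0]; ring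
    have r3 : (p : ℝ) ^ (2 * c) ≤ (n : ℝ) ^ 2 := by
      rw [← sq_abs (n : ℝ), mul_comm 2 c, pow_mul]
      exact pow_le_pow_left₀ (by positivity) hc2 2
    have r4 : 0 ≤ nsq h.1 (fun i => (![z0, z1] i : ℤ)) := by rw [nsq]; positivity
    calc _ ≤ (n : ℝ) ^ 2 * nsq h.1 (fun i => (![z0, z1] i : ℤ)) :=
          mul_le_mul_of_nonneg_right r3 r4
      _ = p ^ (2 * m) * nsq g'.1 v := r2
      _ < p ^ (2 * m) * δ ^ 2 := mul_lt_mul_of_pos_left hvR (by positivity)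
      _ = _ := mul_comm _ _
  · have r0 : (p : ℚ_[p]) ^ m * u 0 = z0 * n := by
      exact_mod_cast congrArg (fun s : ℚ => (s : ℚ_[p])) q0
    have r1 : (p : ℚ_[p]) ^ m * u 1 = z1 * n := by
      exact_mod_cast congrArg (fun s : ℚ => (s : ℚ_[p])) q1
    rw [r0, r1] at d0
    simp only [Matrix.cons_val_zero, Matrix.cons_val_one]
    have r2 : h.2 0 0 * ((z0 : ℚ_[p]) * n) + h.2 0 1 * ((z1 : ℚ_[p]) * n) +
        t * (p : ℚ_[p]) ^ (2 * (j + m)) *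
          (h.2 1 0 * ((z0 : ℚ_[p]) * n) + h.2 1 1 * ((z1 : ℚ_[p]) * n)) =
        n * ((h.2 0 0 * z0 + h.2 0 1 * z1) +
          t * (p : ℚ_[p]) ^ (2 * (j + m)) * (h.2 1 0 * z0 + h.2 1 1 * z1)) := by ring
    rw [r2, norm_mul, hc1, inv_mul_le_iff₀ (by positivity)] at d0
    refine d0.trans (le_of_eq ?_)
    rw [zpow_sub₀ hp0.ne', zpow_natCast, div_eq_mul_inv]
    congr 2

theorem tight_geo1 {q : ℝ} (hq : 2 ≤ q) (N : ℕ) :
    ∑ c ∈ Finset.range N, (q ^ c)⁻¹ ≤ 2 - 2 * (q ^ N)⁻¹ := by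
  induction N with
  | zero => simp
  | succ n ih =>
    rw [Finset.sum_range_succ]
    have h1 : (0 : ℝ) < q ^ n := by positivity
    have h2 : 2 * (q ^ (n + 1))⁻¹ ≤ (q ^ n)⁻¹ := by
      rw [pow_succ, mul_inv, mul_comm, mul_assoc]
      refine mul_le_of_le_one_right (by positivity) ?_
      rw [inv_mul_le_iff₀ (by linarith)]; linarith
    linarith

theorem tight_geo2 {q : ℝ} (hq : 2 ≤ q) (N : ℕ) : ∑ c ∈ Finset.range N, q ^ c ≤ q ^ N := by
  induction N with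
  | zero => simp
  | succ n ih =>
    rw [Finset.sum_range_succ, pow_succ]
    have h1 : (0 : ℝ) < q ^ n := by positivity
    nlinarith

theorem tight_range {q B : ℝ} (hq : 2 ≤ q) (hB : 0 ≤ B) :
    ∃ N : ℕ, (∀ c, q ^ c ≤ B → c < N) ∧ ∑ c ∈ Finset.range N, q ^ c ≤ q * B := by
  classical
  have hex : ∃ n : ℕ, B < q ^ n := pow_unbounded_of_one_lt B (by linarith)
  refine ⟨Nat.find hex, fun c hc => ?_, ?_⟩
  · by_contra h
    have h1 : q ^ Nat.find hex ≤ q ^ c := pow_le_pow_right₀ (by linarith) (not_lt.1 h)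
    linarith [Nat.find_spec hex]
  · rcases Nat.eq_zero_or_pos (Nat.find hex) with h | h
    · rw [h]; simp; positivity
    · obtain ⟨n, hn⟩ : ∃ n, Nat.find hex = n + 1 := ⟨Nat.find hex - 1, by omega⟩
      have h1 : q ^ n ≤ B := not_lt.1 (Nat.find_min hex (by omega))
      refine (tight_geo2 hq _).trans ?_
      rw [hn, pow_succ, mul_comm]
      exact mul_le_mul_of_nonneg_left h1 (by linarith)

theorem tight_even {D : ℤ} (hD : D < 0) {x : XX p} {e : ℚ_[p]} (hF : Frame p D x e) (j m : ℕ)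
    {δ : ℝ} (hδ : 0 < δ) (hδ1 : δ ≤ 1)
    (hDr : ‖(D : ℚ_[p])‖ * ((p : ℝ) ^ (2 * (j + m))) ^ 2 ≤ (p : ℝ) ^ 2)
    (hC : 2 * p ^ 2 * Real.sqrt (-(D : ℝ)) ≤ (δ ^ 2 * (p : ℝ) ^ (2 * m)) ^ 2) :
    bm p ((2 * (j + m) : ℕ) : ℤ) {t | Short p δ (aP p j • uP p t • x)} ≤
      ENNReal.ofReal (9 * p * δ ^ 2) := by
  have hp : (2 : ℝ) ≤ p := tight_two_le p
  have hp0 : (0 : ℝ) < p := by linarith
  obtain ⟨h, hK, hh⟩ := exists_rep p (aP p (j + m) • x)
  obtain ⟨N, hN1, hN2⟩ := tight_range hp (B := δ ^ 2 * (p : ℝ) ^ (2 * m)) (by positivity)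
  choose T hT1 hT2 using fun c : ℕ =>
    card_prim h.1 (R := δ * (p : ℝ) ^ m / (p : ℝ) ^ c) (by positivity)
  set E : ℕ → (Fin 2 → ℤ) → Set ℚ_[p] := fun c z =>
    {t | ‖t‖ ≤ (p : ℝ) ^ (2 * (j + m)) ∧ ‖(h.2 0 0 * z 0 + h.2 0 1 * z 1) +
      t * (p : ℚ_[p]) ^ (2 * (j + m)) * (h.2 1 0 * z 0 + h.2 1 1 * z 1)‖ ≤
        (p : ℝ) ^ ((c : ℤ) - 2 * m)} with hE
  classical
  have hsub : {t | Short p δ (aP p j • uP p t • x)} ≤ᵐ[bm p ((2 * (j + m) : ℕ) : ℤ)]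
      (⋃ c ∈ Finset.range N, ⋃ z ∈ (T c).filter (fun z => IsCoprime (z 0) (z 1)), E c z :
        Set ℚ_[p]) := by
    filter_upwards [bm_ae p ((2 * (j + m) : ℕ) : ℤ)] with t ht hs
    rw [zpow_natCast] at ht
    obtain ⟨z, c, hz, h1, h2⟩ := tight_cover p j m hK hh ht hs
    have h3 := tight_low2 p hD hF hDr hK hh hz
    have hσ : 0 ≤ 2 * (p : ℝ) ^ 2 * Real.sqrt (-(D : ℝ)) := by positivity
    have hc : c < N := by
      refine hN1 c (pow_le_pow_iff_left₀ (n := 2) (by positivity) (by positivity) two_ne_zero |>.1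
        (le_trans ?_ hC))
      have h4 : δ ^ 2 * (p : ℝ) ^ (2 * m) ≤ (p : ℝ) ^ (2 * (j + m)) :=
        (mul_le_of_le_one_left (by positivity) (pow_le_one₀ hδ.le hδ1)).trans
          (pow_le_pow_right₀ (by linarith) (by omega))
      have h5 : (p : ℝ) ^ (2 * c) * (p : ℝ) ^ (2 * (j + m)) ≤
          (2 * (p : ℝ) ^ 2 * Real.sqrt (-(D : ℝ))) * (p : ℝ) ^ (2 * (j + m)) :=
        calc _ ≤ (p : ℝ) ^ (2 * c) *
              (2 * p ^ 2 * Real.sqrt (-(D : ℝ)) * nsq h.1 (fun i => z i)) :=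
              mul_le_mul_of_nonneg_left h3 (by positivity)
          _ = (2 * (p : ℝ) ^ 2 * Real.sqrt (-(D : ℝ))) *
              ((p : ℝ) ^ (2 * c) * nsq h.1 (fun i => z i)) := by ring
          _ ≤ _ := mul_le_mul_of_nonneg_left (h1.le.trans h4) hσ
      rw [← pow_mul, mul_comm c 2]
      exact le_of_mul_le_mul_right h5 (by positivity)
    have hzT : z ∈ T c := by
      refine hT2 c z hz ?_
      rw [div_pow, lt_div_iff₀ (by positivity), mul_pow, ← pow_mul, ← pow_mul, mul_comm c 2,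
        mul_comm m 2, mul_comm]
      exact h1
    exact Set.mem_biUnion (Finset.mem_range.2 hc)
      (Set.mem_biUnion (Finset.mem_filter.2 ⟨hzT, hz⟩) ⟨ht, h2⟩)
  have hone : ∀ c : ℕ, bm p ((2 * (j + m) : ℕ) : ℤ)
      (⋃ z ∈ (T c).filter (fun z => IsCoprime (z 0) (z 1)), E c z) ≤
      ENNReal.ofReal (7 * δ ^ 2 * ((p : ℝ) ^ c)⁻¹ + 2 * ((p : ℝ) ^ (2 * m))⁻¹ * (p : ℝ) ^ c) := by
    intro c
    refine (measure_biUnion_finset_le _ _).trans ?_
    refine (Finset.sum_le_card_nsmul _ _ (ENNReal.ofReal ((p : ℝ) ^ ((c : ℤ) - 2 * m)))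
      fun z hz => tight_meas p hK (Finset.mem_filter.1 hz).2 _ _).trans ?_
    rw [nsmul_eq_mul, ← ENNReal.ofReal_natCast, ← ENNReal.ofReal_mul (by positivity)]
    refine ENNReal.ofReal_le_ofReal ?_
    have h1 : (((T c).filter (fun z => IsCoprime (z 0) (z 1))).card : ℝ) ≤
        7 * (δ * (p : ℝ) ^ m / (p : ℝ) ^ c) ^ 2 + 2 :=
      le_trans (by exact_mod_cast Finset.card_filter_le _ _) (hT1 c)
    refine (mul_le_mul_of_nonneg_right h1 (by positivity)).trans (le_of_eq ?_)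
    have h2 : (p : ℝ) ^ ((c : ℤ) - 2 * m) = (p : ℝ) ^ c / (p : ℝ) ^ (2 * m) := by
      rw [zpow_sub₀ hp0.ne', zpow_natCast]; congr 1
    rw [h2]; field_simp; ring
  refine (measure_mono_ae hsub).trans ((measure_biUnion_finset_le _ _).trans ?_)
  refine (Finset.sum_le_sum fun c _ => hone c).trans ?_
  rw [← ENNReal.ofReal_sum_of_nonneg fun c _ => by positivity]
  refine ENNReal.ofReal_le_ofReal ?_
  rw [Finset.sum_add_distrib, ← Finset.mul_sum, ← Finset.mul_sum]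
  have h1 : ∑ c ∈ Finset.range N, ((p : ℝ) ^ c)⁻¹ ≤ 2 :=
    (tight_geo1 hp N).trans (sub_le_self _ (by positivity))
  have h2 : 2 * ((p : ℝ) ^ (2 * m))⁻¹ * ∑ c ∈ Finset.range N, (p : ℝ) ^ c ≤ 2 * p * δ ^ 2 := by
    refine (mul_le_mul_of_nonneg_left hN2 (by positivity)).trans (le_of_eq ?_)
    field_simp
  have h3 : 7 * δ ^ 2 * ∑ c ∈ Finset.range N, ((p : ℝ) ^ c)⁻¹ ≤ 7 * δ ^ 2 * 2 :=
    mul_le_mul_of_nonneg_left h1 (by positivity)
  nlinarith [sq_nonneg δ]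

theorem tight_frame {ε : ℝ≥0∞} (hε : 0 < ε) : ∃ Ω : Set (XX p), IsCompact Ω ∧ ∀ j : ℕ, ∃ C : ℝ,
    ∀ (D : ℤ) (x : XX p) (e d : ℚ_[p]) (r : ℤ), D < 0 → Frame p D x e →
      ‖(D : ℚ_[p])‖ * (‖d‖ * (p : ℝ) ^ r) ^ 2 ≤ 1 →
      C * Real.sqrt (-(D : ℝ)) ≤ (‖d‖ * (p : ℝ) ^ r) ^ 2 →
      bm p r {s | aP p j • uP p (d * s) • x ∉ Ω} ≤ ε := by
  have hp : (2 : ℝ) ≤ p := tight_two_le p
  have hp0 : (0 : ℝ) < p := by linarith
  have hp1 : (1 : ℝ) < p := by linarith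
  obtain ⟨δ, hδ, hδ1, hδε⟩ : ∃ δ : ℝ, 0 < δ ∧ δ ≤ 1 ∧ ENNReal.ofReal (p * (9 * p * δ ^ 2)) ≤ ε := by
    obtain ⟨η, -, hη0, hη⟩ := ENNReal.lt_iff_exists_real_btwn.1 hε
    have hη1 : 0 < η := ENNReal.ofReal_pos.1 hη0
    refine ⟨min 1 (η / (9 * p ^ 2)), by positivity, min_le_left _ _,
      (ENNReal.ofReal_le_ofReal ?_).trans hη.le⟩
    have h1 : min 1 (η / (9 * (p : ℝ) ^ 2)) ^ 2 ≤ 1 * (η / (9 * p ^ 2)) := by
      rw [sq]
      exact mul_le_mul (min_le_left _ _) (min_le_right _ _) (by positivity) one_pos.le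
    rw [one_mul, le_div_iff₀ (by positivity)] at h1
    linarith
  obtain ⟨Ω, hΩ, hΩ'⟩ := exists_compact_notShort p hδ
  refine ⟨Ω, hΩ, fun j => ⟨2 * p ^ 2 * p ^ (4 * j) / δ ^ 4, fun D x e d r hD hF h1 h2 => ?_⟩⟩
  have hσ : 1 ≤ Real.sqrt (-(D : ℝ)) := by
    refine Real.one_le_sqrt.2 ?_
    have : D ≤ -1 := by omega
    have : (D : ℝ) ≤ -1 := by exact_mod_cast this
    linarith
  have hd : d ≠ 0 := by
    rintro rfl
    have : 0 < 2 * (p : ℝ) ^ 2 * p ^ (4 * j) / δ ^ 4 * Real.sqrt (-(D : ℝ)) := by positivity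
    simp only [norm_zero, zero_mul] at h2
    linarith
  obtain ⟨v, hv⟩ := exists_norm_eq p hd
  have hT : ‖d‖ * (p : ℝ) ^ r = (p : ℝ) ^ (r + v) := by rw [hv, zpow_add₀ hp0.ne', mul_comm]
  rw [hT] at h1 h2
  rw [div_mul_eq_mul_div, div_le_iff₀ (by positivity)] at h2
  have hδ4 : δ ^ 4 ≤ 1 := pow_le_one₀ hδ.le hδ1
  have hj : 2 * (j : ℤ) ≤ r + v := by
    have h3 : ((p : ℝ) ^ (2 * j)) ^ 2 ≤ ((p : ℝ) ^ (r + v)) ^ 2 := by
      have a1 : ((p : ℝ) ^ (r + v)) ^ 2 * δ ^ 4 ≤ ((p : ℝ) ^ (r + v)) ^ 2 :=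
        mul_le_of_le_one_right (by positivity) hδ4
      have a2 : ((p : ℝ) ^ (2 * j)) ^ 2 = (p : ℝ) ^ (4 * j) := by ring
      have a3 : (p : ℝ) ^ (4 * j) ≤ 2 * (p : ℝ) ^ 2 * p ^ (4 * j) :=
        le_mul_of_one_le_left (by positivity) (by nlinarith)
      have a4 : 2 * (p : ℝ) ^ 2 * p ^ (4 * j) ≤
          2 * (p : ℝ) ^ 2 * p ^ (4 * j) * Real.sqrt (-(D : ℝ)) :=
        le_mul_of_one_le_right (by positivity) hσ
      linarith
    have h4 := (pow_le_pow_iff_left₀ (by positivity) (by positivity) two_ne_zero).1 h3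
    rw [← zpow_natCast, zpow_le_zpow_iff_right₀ hp1] at h4
    exact_mod_cast h4
  obtain ⟨m, hm1, hm2⟩ : ∃ m : ℕ, r + v ≤ ((2 * (j + m) : ℕ) : ℤ) ∧
      ((2 * (j + m) : ℕ) : ℤ) ≤ r + v + 1 := ⟨((r + v + 1) / 2 - j).toNat, by omega, by omega⟩
  have hlo : (p : ℝ) ^ (r + v) ≤ (p : ℝ) ^ (2 * (j + m)) := by
    rw [← zpow_natCast]; exact zpow_le_zpow_right₀ hp1.le hm1
  have hhi : (p : ℝ) ^ (2 * (j + m)) ≤ (p : ℝ) ^ (r + v) * p := by
    rw [← zpow_natCast, ← zpow_add_one₀ hp0.ne']; exact zpow_le_zpow_right₀ hp1.le hm2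
  have key := tight_even p hD hF j m hδ hδ1 ?_ ?_
  · have h5 : bm p r {s | aP p j • uP p (d * s) • x ∉ Ω} ≤
        bm p (r + v) {t | Short p δ (aP p j • uP p t • x)} := by
      rw [← bm_mul p r v hv]
      refine le_trans (measure_mono ?_) (Measure.le_map_apply
        (continuous_const.mul continuous_id).measurable.aemeasurable _)
      intro s hs
      by_contra hc
      exact hs (hΩ' _ hc)
    refine h5.trans ((bm_le p hm1 _).trans (le_trans ?_ hδε))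
    rw [ENNReal.ofReal_mul hp0.le]
    refine mul_le_mul' (ENNReal.ofReal_le_ofReal ?_) key
    calc _ ≤ (p : ℝ) ^ (1 : ℤ) := zpow_le_zpow_right₀ hp1.le (by omega)
      _ = p := zpow_one _
  · calc _ ≤ ‖(D : ℚ_[p])‖ * ((p : ℝ) ^ (r + v) * p) ^ 2 := by gcongr
      _ = ‖(D : ℚ_[p])‖ * ((p : ℝ) ^ (r + v)) ^ 2 * p ^ 2 := by ring
      _ ≤ _ := mul_le_of_le_one_left (by positivity) h1
  · have h5 : ((p : ℝ) ^ (r + v)) ^ 2 * δ ^ 4 ≤ ((p : ℝ) ^ (2 * (j + m))) ^ 2 * δ ^ 4 := by gcongr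
    have h6 : (2 * p ^ 2 * Real.sqrt (-(D : ℝ))) * (p : ℝ) ^ (4 * j) ≤
        (δ ^ 2 * (p : ℝ) ^ (2 * m)) ^ 2 * (p : ℝ) ^ (4 * j) :=
      calc _ = 2 * (p : ℝ) ^ 2 * p ^ (4 * j) * Real.sqrt (-(D : ℝ)) := by ring
        _ ≤ _ := h2.trans h5
        _ = _ := by ring
    exact le_of_mul_le_mul_right h6 (by positivity)

end Pool.Agent.EQ
end
end
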