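import Pool.Agent.K.MP_ad7a55_nt.C36

/-! The numerical conditions hold for large parameters. -/

set_option autoImplicit false

noncomputable section

open Finset Matrix
open scoped MatrixGroups Classical

namespace Pool.Agent.EQ

theorem xgi_root {k : ℕ} (hk : k ≠ 0) (N : ℕ) {T : ℝ} (h : (N : ℝ) ^ k ≤ T) :
    ∃ u : ℕ, N ≤ u ∧ (u : ℝ) ^ k ≤ T ∧ T ≤ ((u : ℝ) + 1) ^ k := by
  have hT : 0 ≤ T := le_trans (by positivity) h
  obtain ⟨R, hr, e⟩ : ∃ R : ℝ, 0 ≤ R ∧ R ^ k = T :=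
    ⟨T ^ ((k : ℝ)⁻¹), Real.rpow_nonneg hT _, Real.rpow_inv_natCast_pow hT hk⟩
  subst e
  refine ⟨⌊R⌋₊, Nat.le_floor ?_, ?_, ?_⟩
  · exact (pow_le_pow_iff_left₀ (Nat.cast_nonneg _) hr hk).1 h
  · exact pow_le_pow_left₀ (Nat.cast_nonneg _) (Nat.floor_le hr) k
  · exact pow_le_pow_left₀ hr (Nat.lt_floor_add_one R).le k

theorem xgi_two (L : ℕ) : (2 : ℝ) ^ L ≤ Real.exp L := by
  have h : (2 : ℝ) ≤ Real.exp 1 := by
    have := Real.add_one_le_exp 1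
    linarith
  calc (2 : ℝ) ^ L ≤ Real.exp 1 ^ L := pow_le_pow_left₀ (by norm_num) h L
    _ = Real.exp L := by rw [← Real.exp_nat_mul, mul_one]

theorem xgi_log2 {y : ℝ} (hy : 2 ≤ y) : Real.log (2 * y) ≤ 2 * Real.log y := by
  rw [Real.log_mul (by norm_num) (by linarith)]
  have := Real.log_le_log (by norm_num) hy
  linarith

theorem xgi_log3 {y : ℝ} (hy : 3 ≤ y) : Real.log (2 * y + 1) ≤ 2 * Real.log y := by
  have h : Real.log (2 * y + 1) ≤ Real.log (y * y) :=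
    Real.log_le_log (by linarith) (by nlinarith)
  rw [Real.log_mul (by linarith) (by linarith)] at h
  linarith

theorem xgi_n1 {m J y θ c A₀ : ℝ} (hm : 1 ≤ m) (hJ : 0 < J) (hθ : 0 < θ) (hc : 0 < c)
    (hc1 : c ≤ 1) (hJ' : 16 * m ≤ c * θ * J) (hy : 3 ≤ y)
    (hl : 8 * (Real.log A₀ + 2) ≤ c * θ * Real.log y) :
    2 * (c * θ / (32 * m)) + (m * Real.log (2 * y + 1) / J +
      2 * (c * θ / (32 * m)) * (m * Real.log (2 * y + 1)) + Real.log A₀ + 2) / (c * Real.log y) ≤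
      5 * θ / 8 := by
  have h3 := xgi_log3 hy
  have hl0 : 0 < Real.log y := Real.log_pos (by linarith)
  have hw0 : 0 ≤ Real.log (2 * y + 1) := Real.log_nonneg (by linarith)
  have hct : 0 < c * θ := mul_pos hc hθ
  have a1 : c * θ / (32 * m) ≤ θ / 32 := by
    rw [div_le_div_iff₀ (by linarith) (by norm_num)]
    nlinarith
  have a2 : m * Real.log (2 * y + 1) / J ≤ c * θ * Real.log y / 8 := by
    rw [div_le_iff₀ hJ]
    have b1 : m * Real.log (2 * y + 1) ≤ m * (2 * Real.log y) :=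
      mul_le_mul_of_nonneg_left h3 (by linarith)
    have b2 := mul_le_mul_of_nonneg_right hJ' hl0.le
    nlinarith
  have a3 : 2 * (c * θ / (32 * m)) * (m * Real.log (2 * y + 1)) =
      c * θ * Real.log (2 * y + 1) / 16 := by
    field_simp
    ring
  have a4 := mul_le_mul_of_nonneg_left h3 hct.le
  have a5 : (m * Real.log (2 * y + 1) / J +
      2 * (c * θ / (32 * m)) * (m * Real.log (2 * y + 1)) + Real.log A₀ + 2) / (c * Real.log y) ≤
      3 * θ / 8 := by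
    rw [div_le_iff₀ (mul_pos hc hl0), a3]
    nlinarith
  linarith

theorem xgi_n2 {θ C y : ℝ} (hθ : 0 < θ) (hy : (8 * C / θ) ^ 2 ≤ y) : 8 * C ≤ θ * Real.sqrt y := by
  have h := Real.le_sqrt_of_sq_le hy
  rw [div_le_iff₀ hθ] at h
  linarith

theorem xgi_n3 {θ c A₀ y : ℝ} (hθ : 0 < θ) (hA : 1 ≤ A₀) (hy : 0 < y)
    (hl : 4 * Real.log (128 * A₀ / θ) ≤ c * Real.log y) : y ^ (-(c / 4)) ≤ θ / (128 * A₀) := by
  have h0 : 0 < 128 * A₀ / θ := by positivity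
  rw [Real.rpow_def_of_pos hy]
  calc Real.exp (Real.log y * -(c / 4)) ≤ Real.exp (-Real.log (128 * A₀ / θ)) :=
        Real.exp_le_exp.2 (by linarith)
    _ = θ / (128 * A₀) := by rw [Real.exp_neg, Real.exp_log h0, inv_div]

theorem xgi_n4 {L b : ℕ} {m y n A₀ T θ Cc s k φ c : ℝ} (hm : 0 ≤ m) (hθ : 0 < θ) (hCc : 0 ≤ Cc)
    (hk : 0 < k) (hy : 2 ≤ y) (hb : k * L ≤ φ * b * c) (hbL : b ≤ L) (hs : s ≤ L) (hT : T ≤ L)
    (hn : n ≤ Real.exp L) (hl : 16 ≤ k * Real.log y)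
    (hL : A₀ ^ 2 * (32 * m / θ * (3 * (32 * m / θ) * Cc + 1)) ≤ L * (θ / 32) ^ 2) :
    A₀ ^ 2 * (32 * m * n / θ *
      (3 * (32 * m * Real.exp T / θ) * Cc * 2 ^ b * 2 ^ L * (2 * y) ^ (2 * L * (k / 8)) + 1)) <
    Real.exp (φ * b * (c * Real.log y) - b) * (θ / 32 * Real.exp (-s)) ^ 2 := by
  have hl0 : 0 ≤ Real.log y := Real.log_nonneg (by linarith)
  have hL0 : (0 : ℝ) ≤ L := Nat.cast_nonneg _
  have hbL' : (b : ℝ) ≤ L := by exact_mod_cast hbL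
  obtain ⟨E, hE⟩ : ∃ E, E = Real.exp L := ⟨_, rfl⟩
  obtain ⟨W, hW⟩ : ∃ W, W = Real.exp (k * L * Real.log y / 2) := ⟨_, rfl⟩
  obtain ⟨Q, hQ⟩ : ∃ Q, Q = 32 * m / θ := ⟨_, rfl⟩
  have hQ0 : 0 ≤ Q := by rw [hQ]; positivity
  have hE1 : (L : ℝ) + 1 ≤ E := by rw [hE]; exact Real.add_one_le_exp _
  have hW1 : 1 ≤ W := by rw [hW]; exact Real.one_le_exp (by positivity)
  have hE0 : 0 < E := by linarith
  have h1 : Real.exp T ≤ E := by rw [hE]; exact Real.exp_le_exp.2 hT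
  have h2 : (2 : ℝ) ^ L ≤ E := by rw [hE]; exact xgi_two L
  have h2' : (2 : ℝ) ^ b ≤ E := (pow_le_pow_right₀ (by norm_num) hbL).trans h2
  have h3 : (2 * y) ^ (2 * L * (k / 8)) ≤ W := by
    rw [hW, Real.rpow_def_of_pos (by linarith)]
    refine Real.exp_le_exp.2 ?_
    have := mul_le_mul_of_nonneg_right (xgi_log2 hy) (by positivity : 0 ≤ 2 * L * (k / 8))
    linarith
  have h4 : (1 : ℝ) ≤ E * E * E * W :=
    one_le_mul_of_one_le_of_one_le (one_le_mul_of_one_le_of_one_le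
      (one_le_mul_of_one_le_of_one_le (by linarith) (by linarith)) (by linarith)) hW1
  have e1 : 32 * m * Real.exp T / θ = Q * Real.exp T := by rw [hQ]; ring
  have e2 : 32 * m * n / θ = Q * n := by rw [hQ]; ring
  rw [← hE] at hn
  rw [← hQ] at hL
  rw [e1, e2]
  have h5 : 3 * (Q * Real.exp T) * Cc * 2 ^ b * 2 ^ L * (2 * y) ^ (2 * L * (k / 8)) ≤
      3 * (Q * E) * Cc * E * E * W := by
    gcongr
  have h6 : 3 * (Q * Real.exp T) * Cc * 2 ^ b * 2 ^ L * (2 * y) ^ (2 * L * (k / 8)) + 1 ≤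
      (3 * Q * Cc + 1) * (E * E * E * W) := by
    linarith
  have h7 : A₀ ^ 2 * (Q * n *
      (3 * (Q * Real.exp T) * Cc * 2 ^ b * 2 ^ L * (2 * y) ^ (2 * L * (k / 8)) + 1)) ≤
      A₀ ^ 2 * (Q * E * ((3 * Q * Cc + 1) * (E * E * E * W))) := by
    gcongr
  have hP : 0 < E * (E * E * E * W) := by positivity
  have h8 : A₀ ^ 2 * (Q * E * ((3 * Q * Cc + 1) * (E * E * E * W))) <
      E * (E * (E * E * E * W)) * (θ / 32) ^ 2 := by
    have b1 := mul_le_mul_of_nonneg_right hL hP.le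
    have b2 : (L : ℝ) * (θ / 32) ^ 2 * (E * (E * E * E * W)) <
        E * (θ / 32) ^ 2 * (E * (E * E * E * W)) := by
      gcongr
      linarith
    linarith
  have h9 : E * (E * (E * E * E * W)) ≤
      Real.exp (φ * b * (c * Real.log y) - b) * (Real.exp (-s) * Real.exp (-s)) := by
    rw [hE, hW]
    simp only [← Real.exp_add]
    refine Real.exp_le_exp.2 ?_
    have b1 := mul_le_mul_of_nonneg_right hb hl0
    have b2 := mul_le_mul_of_nonneg_right hl hL0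
    linarith
  have h10 := mul_le_mul_of_nonneg_right h9 (by positivity : 0 ≤ (θ / 32) ^ 2)
  calc _ ≤ _ := h7
    _ < _ := h8
    _ ≤ _ := h10
    _ = _ := by ring

theorem xgi_n5 {y L b : ℕ} (hy : 2 ≤ y) (hb : 8 * b ≤ L) : (2 * y) ^ (4 * b) ≤ y ^ L := by
  calc (2 * y) ^ (4 * b) ≤ (y * y) ^ (4 * b) := by gcongr
    _ = y ^ (8 * b) := by rw [← pow_two, ← pow_mul]; congr 1; ring
    _ ≤ y ^ L := Nat.pow_le_pow_right (by omega) hb

theorem xgi_n6 {L b : ℕ} {y u a : ℝ} (hy : 2 ≤ y) (hu : 128 ≤ u)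
    (hl : Real.log y ≤ a * Real.log u) (hb : 30 * a * b ≤ L) :
    2 ^ L * (4 / u) ^ ((L : ℝ) / 2) * (2 * y) ^ (3 * b) ≤ 1 := by
  have hL0 : (0 : ℝ) ≤ L := Nat.cast_nonneg _
  have hb0 : (0 : ℝ) ≤ b := Nat.cast_nonneg _
  have h7 : 7 * Real.log 2 ≤ Real.log u := by
    have := Real.log_le_log (by norm_num) hu
    rwa [show (128 : ℝ) = 2 ^ 7 by norm_num, Real.log_pow, Nat.cast_ofNat] at this
  have h2 : 0 < Real.log 2 := Real.log_pos (by norm_num)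
  have e1 : (2 : ℝ) ^ L = Real.exp (L * Real.log 2) := by
    rw [Real.exp_nat_mul, Real.exp_log (by norm_num)]
  have e2 : (4 / u) ^ ((L : ℝ) / 2) = Real.exp ((2 * Real.log 2 - Real.log u) * (L / 2)) := by
    rw [Real.rpow_def_of_pos (by positivity), Real.log_div (by norm_num) (by linarith),
      show (4 : ℝ) = 2 ^ 2 by norm_num, Real.log_pow, Nat.cast_ofNat]
  have e3 : (2 * y) ^ (3 * b) = Real.exp ((3 * b : ℕ) * Real.log (2 * y)) := by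
    rw [Real.exp_nat_mul, Real.exp_log (by linarith)]
  rw [e1, e2, e3, ← Real.exp_add, ← Real.exp_add, Real.exp_le_one_iff]
  push_cast
  have b1 := mul_le_mul_of_nonneg_left ((xgi_log2 hy).trans
    (mul_le_mul_of_nonneg_left hl (by norm_num))) hb0
  have b2 := mul_le_mul_of_nonneg_right hb (by linarith : 0 ≤ Real.log u)
  have b3 := mul_le_mul_of_nonneg_left h7 hL0
  have b4 : 0 ≤ L * Real.log 2 := by positivity
  linarith

theorem xgi_n7 {L : ℕ} {y H : ℝ} (hH : 0 ≤ H) (hL : 1 ≤ L) (hy : 2 * (8 * H + 9) ^ 2 ≤ y) :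
    8 * (H * Real.sqrt ((2 * y) ^ L)) + 9 ≤ y ^ L := by
  obtain ⟨K, hK⟩ : ∃ K, K = 8 * H + 9 := ⟨_, rfl⟩
  rw [← hK] at hy
  have hK1 : 9 ≤ K := by linarith
  have hKy : K ≤ y := by nlinarith
  have hy1 : 1 ≤ y := by linarith
  have h1 : y ≤ y ^ L := le_self_pow₀ hy1 (by omega)
  have h2 : K ^ 2 ≤ (K ^ 2) ^ L := le_self_pow₀ (by nlinarith) (by omega)
  have h3 : (2 * y) ^ L * K ^ 2 ≤ (y ^ L) ^ 2 := by
    calc (2 * y) ^ L * K ^ 2 ≤ (2 * y) ^ L * (K ^ 2) ^ L := by gcongr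
      _ = (2 * K ^ 2 * y) ^ L := by rw [← mul_pow]; congr 1; ring
      _ ≤ (y * y) ^ L := by gcongr
      _ = (y ^ L) ^ 2 := by rw [mul_pow, pow_two]
  have hK0 : 0 < K := by linarith
  have h4 : Real.sqrt ((2 * y) ^ L) ≤ y ^ L / K := by
    refine Real.sqrt_le_iff.2 ⟨by positivity, ?_⟩
    rw [div_pow, le_div_iff₀ (by positivity)]
    exact h3
  have h5 : 1 ≤ y ^ L / K := by
    rw [le_div_iff₀ hK0]
    linarith
  have h6 := mul_le_mul_of_nonneg_left h4 hH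
  have h7 : K * (y ^ L / K) = y ^ L := by field_simp
  rw [hK] at h7
  rw [hK] at h5 h6
  linarith

theorem xgi_G {r J : ℕ} {y u a e : ℝ} (hy : 2 ≤ y) (hu : 0 < u) (ha : 0 < a)
    (he : e * r = 1 / (10 * a)) (hl : Real.log y ≤ 20 * J * a * Real.log u) :
    (u ^ (4 * J))⁻¹ ≤ ((2 * y) ^ (-e)) ^ r := by
  have e1 : u ^ (4 * J) = Real.exp ((4 * J : ℕ) * Real.log u) := by
    rw [Real.exp_nat_mul, Real.exp_log hu]
  rw [e1, ← Real.exp_neg, Real.rpow_def_of_pos (by linarith), ← Real.exp_nat_mul]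
  refine Real.exp_le_exp.2 ?_
  have e2 : (r : ℝ) * (Real.log (2 * y) * -e) = -(Real.log (2 * y) / (10 * a)) := by
    calc (r : ℝ) * (Real.log (2 * y) * -e) = -(Real.log (2 * y) * (e * r)) := by ring
      _ = _ := by rw [he]; ring
  rw [e2, neg_le_neg_iff, div_le_iff₀ (by positivity)]
  have := xgi_log2 hy
  push_cast
  linarith

theorem xgi_n8 {L X V G κ b u : ℝ} (hL : 1 ≤ L) (hu : 0 < u) (hX : L * u ≤ X) (hV : 0 < V)
    (hG : V⁻¹ ≤ G) (hκ : 18 ≤ κ * u) (hb : 1 ≤ b) : 8 * L + 1 ≤ G / 2 * (κ * (X * b * V)) := by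
  have hκ0 : 0 < κ := by
    by_contra h
    have := mul_nonpos_of_nonpos_of_nonneg (not_lt.1 h) hu.le
    linarith
  have hX0 : 0 < X := lt_of_lt_of_le (by positivity) hX
  have h1 : V⁻¹ / 2 * (κ * (X * 1 * V)) ≤ G / 2 * (κ * (X * b * V)) := by
    have : 0 ≤ G := le_trans (by positivity) hG
    gcongr
  have h2 : V⁻¹ / 2 * (κ * (X * 1 * V)) = κ * X / 2 := by field_simp
  have h3 := mul_le_mul_of_nonneg_left hX hκ0.le
  have h4 := mul_le_mul_of_nonneg_left hκ (by linarith : 0 ≤ L)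
  linarith

theorem xgi_Z {L k : ℕ} {y : ℝ} (hy : 2 ≤ y) (h : 7 * L + 2 ≤ k) : 2 * y * (y ^ L) ^ 7 ≤ y ^ k := by
  calc 2 * y * (y ^ L) ^ 7 ≤ y * y * (y ^ L) ^ 7 := by gcongr
    _ = y ^ (7 * L + 2) := by ring
    _ ≤ y ^ k := pow_le_pow_right₀ (by linarith) h

theorem xgi_n10 {L r C₁ : ℕ} {y u s T G A₀ θ m : ℝ} (hr : r = 16 * C₁ + 2) (hθ : 0 < θ)
    (hA : 1 ≤ A₀) (hy : 3 ≤ y) (hL : 2 ≤ L) (hLs : (L : ℝ) = s * u) (hs : 1 ≤ s) (hT : T ≤ s)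
    (hu : 36 * (r : ℝ) ^ 2 ≤ u) (hG : Real.exp (-s) ≤ G)
    (hK : 2 * (A₀ ^ r * (1 + 32 * m ^ 2 / θ)) / (θ / 32) ^ r + r + 2 ≤ u) :
    A₀ ^ r * (2 ^ L * ((r : ℝ) ^ 2 / u) ^ ((L : ℝ) / 2) + 32 * m ^ 2 / θ *
      (Real.exp T * (2 * y * (y ^ L) ^ 7) ^ C₁ / y ^ ((r : ℝ) * L / 2))) <
    G / 2 * (θ / 32 * Real.exp (-s)) ^ r := by
  have hr0 : (0 : ℝ) < r := by rw [hr]; positivity
  have hu0 : 0 < u := lt_of_lt_of_le (by positivity) hu
  have hL0 : (0 : ℝ) ≤ L := Nat.cast_nonneg _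
  have he3 : Real.exp 1 ≤ 3 := by
    have := Real.exp_one_lt_d9
    linarith
  have hyL : Real.exp L ≤ y ^ L := by
    calc Real.exp L = Real.exp 1 ^ L := by rw [← Real.exp_nat_mul, mul_one]
      _ ≤ y ^ L := pow_le_pow_left₀ (Real.exp_pos _).le (by linarith) L
  have h3L : Real.exp L ≤ 3 ^ L := by
    calc Real.exp L = Real.exp 1 ^ L := by rw [← Real.exp_nat_mul, mul_one]
      _ ≤ 3 ^ L := pow_le_pow_left₀ (Real.exp_pos _).le he3 L
  have a1 : ((r : ℝ) ^ 2 / u) ^ ((L : ℝ) / 2) ≤ (1 / 6) ^ L := by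
    calc ((r : ℝ) ^ 2 / u) ^ ((L : ℝ) / 2) ≤ (((1 : ℝ) / 6) ^ (2 : ℝ)) ^ ((L : ℝ) / 2) := by
          refine Real.rpow_le_rpow (by positivity) ?_ (by positivity)
          rw [div_le_iff₀ hu0, Real.rpow_two]
          linarith
      _ = (1 / 6) ^ L := by
          rw [← Real.rpow_mul (by norm_num), ← Real.rpow_natCast]
          congr 1
          ring
  have a2 : (2 : ℝ) ^ L * ((r : ℝ) ^ 2 / u) ^ ((L : ℝ) / 2) ≤ Real.exp (s - L) := by
    calc (2 : ℝ) ^ L * ((r : ℝ) ^ 2 / u) ^ ((L : ℝ) / 2) ≤ 2 ^ L * (1 / 6) ^ L := by gcongr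
      _ = (3 ^ L)⁻¹ := by rw [← mul_pow, ← inv_pow]; norm_num
      _ ≤ (Real.exp L)⁻¹ := inv_anti₀ (Real.exp_pos _) h3L
      _ ≤ Real.exp (s - L) := by rw [← Real.exp_neg]; exact Real.exp_le_exp.2 (by linarith)
  have e1 : y ^ ((r : ℝ) * L / 2) = (y ^ (8 * L)) ^ C₁ * y ^ L := by
    rw [← pow_mul, ← pow_add, ← Real.rpow_natCast]
    congr 1
    rw [hr]
    push_cast
    ring
  have hy0 : 0 < y := by linarith
  have a3 : Real.exp T * (2 * y * (y ^ L) ^ 7) ^ C₁ / y ^ ((r : ℝ) * L / 2) ≤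
      Real.exp (s - L) := by
    have b1 : (2 * y * (y ^ L) ^ 7) ^ C₁ ≤ (y ^ (8 * L)) ^ C₁ :=
      pow_le_pow_left₀ (by positivity) (xgi_Z (by linarith) (by omega)) _
    have b2 : Real.exp T ≤ Real.exp s := Real.exp_le_exp.2 hT
    rw [e1, div_le_iff₀ (by positivity)]
    calc Real.exp T * (2 * y * (y ^ L) ^ 7) ^ C₁ ≤ Real.exp s * (y ^ (8 * L)) ^ C₁ := by gcongr
      _ = Real.exp (s - L) * ((y ^ (8 * L)) ^ C₁ * Real.exp L) := by
          rw [Real.exp_sub]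
          field_simp
      _ ≤ _ := by gcongr
  obtain ⟨Q, hQ⟩ : ∃ Q, Q = 32 * m ^ 2 / θ := ⟨_, rfl⟩
  have hQ0 : 0 ≤ Q := by rw [hQ]; positivity
  rw [← hQ] at hK ⊢
  obtain ⟨K, hKd⟩ : ∃ K, K = 2 * (A₀ ^ r * (1 + Q)) / (θ / 32) ^ r := ⟨_, rfl⟩
  have hK0 : 0 ≤ K := by rw [hKd]; positivity
  have hK1 : A₀ ^ r * (1 + Q) = K * (θ / 32) ^ r / 2 := by
    rw [hKd]
    field_simp
  rw [← hKd] at hK
  have a4 : K < Real.exp (s * (u - r - 2)) := by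
    have b1 := Real.add_one_le_exp (s * (u - r - 2))
    have b2 := mul_le_mul_of_nonneg_right hs (by linarith : 0 ≤ u - r - 2)
    linarith
  have hp : 0 < (θ / 32) ^ r := by positivity
  calc A₀ ^ r * (2 ^ L * ((r : ℝ) ^ 2 / u) ^ ((L : ℝ) / 2) +
        Q * (Real.exp T * (2 * y * (y ^ L) ^ 7) ^ C₁ / y ^ ((r : ℝ) * L / 2)))
      ≤ A₀ ^ r * (Real.exp (s - L) + Q * Real.exp (s - L)) := by gcongr
    _ = A₀ ^ r * (1 + Q) * Real.exp (s - L) := by ring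
    _ = K * Real.exp (s - L) / 2 * (θ / 32) ^ r := by rw [hK1]; ring
    _ < Real.exp (s * (u - r - 2)) * Real.exp (s - L) / 2 * (θ / 32) ^ r := by gcongr
    _ = Real.exp (-s) / 2 * (θ / 32 * Real.exp (-s)) ^ r := by
        rw [mul_pow, ← Real.exp_nat_mul, ← Real.exp_add,
          show s * (u - r - 2) + (s - L) = -s + r * -s by rw [hLs]; ring, Real.exp_add]
        ring
    _ ≤ G / 2 * (θ / 32 * Real.exp (-s)) ^ r := by gcongr

theorem num_ok {m C₁ a J q₀ : ℕ} (hm : 0 < m) (ha : 0 < a) (hJ : 0 < J) {θ C c H A₀ : ℝ}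
    (hθ : 0 < θ) (hθ1 : θ ≤ 1) (hc : 0 < c) (hc1 : c ≤ 1) (hH : 0 ≤ H) (hA : 1 ≤ A₀)
    (hJ' : 16 * m ≤ c * θ * J) : ∃ ε : ℝ, 0 < ε ∧ ∀ Cc : ℝ, 0 ≤ Cc → ∃ T₀ : ℝ, ∀ T : ℝ, T₀ ≤ T →
      ∀ y p : ℕ, (y : ℝ) ≤ T ^ a → T ^ 2 ≤ p → p ≤ y → ∃ u b₀ : ℕ, 0 < b₀ ∧
        ⌈T⌉₊ * u ^ (4 * J) * b₀ * u ^ (4 * J) + ⌈T⌉₊ * u ^ (4 * J) ≤ p ∧ J ≤ u ∧
        1 + (u : ℝ) ^ 2 * (m * Real.log (2 * y + 1)) ≤ (u : ℝ) ^ 4 ∧ ∀ j < J,
          Num m y (⌈T⌉₊ * u ^ (4 * j) * u) u (16 * C₁ + 2) (⌈T⌉₊ * u ^ (4 * j) * b₀)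
            (⌈T⌉₊ * u ^ (4 * J) * b₀ * u ^ (4 * J)) p q₀ C₁ H A₀ (Real.exp T) θ C
            (c * θ / (32 * m)) c (1 / (10 * a * (16 * C₁ + 2))) ε Cc (⌈T⌉₊ * u ^ (4 * j) : ℕ)
            (m * Real.log (2 * y + 1) / J) := by
  have hm1 : (1 : ℝ) ≤ m := by exact_mod_cast hm
  have ha1 : (1 : ℝ) ≤ a := by exact_mod_cast ha
  have hJ1 : (1 : ℝ) ≤ J := by exact_mod_cast hJ
  obtain ⟨φ, hφ⟩ : ∃ φ, φ = (θ / (128 * A₀ * m)) ^ 2 := ⟨_, rfl⟩
  have hφ0 : 0 < φ := by rw [hφ]; positivity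
  obtain ⟨k, hk⟩ : ∃ k, k = φ * c / (1200 * J * a) := ⟨_, rfl⟩
  have hk0 : 0 < k := by rw [hk]; positivity
  obtain ⟨κ, hκ⟩ : ∃ κ, κ = θ / (128 * A₀ * (m : ℝ) ^ 2) := ⟨_, rfl⟩
  have hκ0 : 0 < κ := by rw [hκ]; positivity
  obtain ⟨r, hr⟩ : ∃ r, r = 16 * C₁ + 2 := ⟨_, rfl⟩
  have hr' : (16 * C₁ + 2 : ℝ) = r := by rw [hr]; push_cast; ring
  have hr0 : (0 : ℝ) < r := by rw [← hr']; positivity
  rw [hr', ← hr]
  refine ⟨k / 8, by positivity, fun Cc hCc => ?_⟩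
  have ev : ∀ K : ℝ, ∀ᶠ u : ℕ in Filter.atTop, K ≤ (u : ℝ) := fun K =>
    tendsto_natCast_atTop_atTop.eventually_ge_atTop K
  have evn : ∀ K : ℕ, ∀ᶠ u : ℕ in Filter.atTop, K ≤ u := fun K => Filter.eventually_ge_atTop K
  obtain ⟨N, hN⟩ := Filter.eventually_atTop.1 ((evn q₀).and ((evn 128).and ((evn (36 * r ^ 2)).and
    ((evn (4 * J)).and ((evn (600 * J * a)).and ((ev (40 * m * J * a + 1)).and
    ((ev (Real.exp (8 * (Real.log A₀ + 2) / (c * θ)))).and ((ev ((8 * C / θ) ^ 2)).and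
    ((ev (Real.exp (4 * Real.log (128 * A₀ / θ) / c))).and ((ev (Real.exp (16 / k))).and
    ((ev (A₀ ^ 2 * (32 * m / θ * (3 * (32 * m / θ) * Cc + 1)) / (θ / 32) ^ 2)).and
    ((ev (2 * (8 * H + 9) ^ 2)).and ((ev (18 / κ)).and
    (ev (2 * (A₀ ^ r * (1 + 32 * (m : ℝ) ^ 2 / θ)) / (θ / 32) ^ r + r + 2)))))))))))))))
  refine ⟨(N : ℝ) ^ (10 * J), fun T hT y p hya hTp hpy => ?_⟩
  obtain ⟨u, hNu, hT1, hT2⟩ := xgi_root (k := 10 * J) (by omega) N hT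
  obtain ⟨c1, c2, c3, c4, c5, hw⟩ := hN u hNu
  replace hw := PLift.up hw
  clear hN hT ev evn hNu
  have hU : (128 : ℝ) ≤ u := by exact_mod_cast c2
  have hU1 : (1 : ℝ) ≤ u := by linarith
  have hU0 : (0 : ℝ) < u := by linarith
  have hT3 : T ≤ (u : ℝ) ^ (20 * J) := by
    calc T ≤ ((u : ℝ) + 1) ^ (10 * J) := hT2
      _ ≤ ((u : ℝ) * u) ^ (10 * J) := pow_le_pow_left₀ (by linarith) (by
          have := mul_le_mul_of_nonneg_right hU hU0.le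
          linarith) _
      _ = (u : ℝ) ^ (20 * J) := by rw [← pow_two, ← pow_mul]; congr 1; ring
  have hUU : (u : ℝ) ^ 2 ≤ T := (pow_le_pow_right₀ hU1 (by omega)).trans hT1
  have hUT : (u : ℝ) ≤ T := (le_self_pow₀ hU1 two_ne_zero).trans hUU
  have hpy' : (p : ℝ) ≤ y := by exact_mod_cast hpy
  have hUy : (u : ℝ) ≤ y :=
    hUT.trans ((le_self_pow₀ (hU1.trans hUT) two_ne_zero).trans (hTp.trans hpy'))
  have huy : u ≤ y := by exact_mod_cast hUy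
  have hy0 : (0 : ℝ) < y := by linarith
  have hly : Real.log y ≤ 20 * J * a * Real.log u := by
    have h1 : (y : ℝ) ≤ (u : ℝ) ^ (20 * J * a) := by
      rw [pow_mul]
      exact hya.trans (pow_le_pow_left₀ (by linarith) hT3 a)
    have h2 := Real.log_le_log hy0 h1
    rw [Real.log_pow] at h2
    push_cast at h2
    exact h2
  have hlu : Real.log u ≤ u := (Real.log_le_sub_one_of_pos hU0).trans (by linarith)
  have hlog : ∀ K : ℝ, Real.exp K ≤ u → K ≤ Real.log y := fun K h =>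
    (Real.le_log_iff_exp_le hy0).2 (h.trans hUy)
  obtain ⟨t, ht⟩ : ∃ t, t = ⌈T⌉₊ := ⟨_, rfl⟩
  have ht1 : T ≤ t := by rw [ht]; exact Nat.le_ceil T
  have ht2 : (t : ℝ) ≤ T + 1 := by rw [ht]; exact (Nat.ceil_lt_add_one (by linarith)).le
  rw [← ht]
  have hD : 600 ≤ 600 * J * a :=
    (Nat.le_mul_of_pos_right _ hJ).trans (Nat.le_mul_of_pos_right _ ha)
  obtain ⟨b₀, hb⟩ : ∃ b₀, b₀ = u / (600 * J * a) := ⟨_, rfl⟩
  have hb0 : 0 < b₀ := by rw [hb]; exact Nat.div_pos c5 (by omega)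
  have hb1 : 600 * J * a * b₀ ≤ u := by rw [hb]; exact Nat.mul_div_le _ _
  have hb2 : u < 600 * J * a * (b₀ + 1) := by rw [hb]; exact Nat.lt_mul_div_succ _ (by omega)
  have hb3 : 600 * b₀ ≤ u := (Nat.mul_le_mul_right _ hD).trans hb1
  have hb4 : u ≤ 1200 * J * a * b₀ := by
    calc u ≤ 600 * J * a * (b₀ + 1) := hb2.le
      _ ≤ 600 * J * a * (2 * b₀) := Nat.mul_le_mul_left _ (by omega)
      _ = 1200 * J * a * b₀ := by ring
  have hV1 : (1 : ℝ) ≤ (u : ℝ) ^ (4 * J) := one_le_pow₀ hU1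
  have hpool : ((t * u ^ (4 * J) * b₀ * u ^ (4 * J) + t * u ^ (4 * J) : ℕ) : ℝ) ≤ T ^ 2 := by
    have h1 : (b₀ : ℝ) + 1 ≤ u := by exact_mod_cast (by omega : b₀ + 1 ≤ u)
    have h3 : (0 : ℝ) ≤ T := by linarith
    have h2 : (t : ℝ) ≤ T * u := by
      have := mul_le_mul_of_nonneg_left hU h3
      linarith
    push_cast
    calc (t : ℝ) * u ^ (4 * J) * b₀ * u ^ (4 * J) + t * u ^ (4 * J)
        ≤ t * u ^ (4 * J) * b₀ * u ^ (4 * J) + t * u ^ (4 * J) * u ^ (4 * J) := by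
          have := mul_le_mul_of_nonneg_left hV1 (by positivity : (0 : ℝ) ≤ t * u ^ (4 * J))
          linarith
      _ = t * (b₀ + 1) * (u ^ (4 * J) * u ^ (4 * J)) := by ring
      _ ≤ T * u * u * (u ^ (4 * J) * u ^ (4 * J)) := by gcongr
      _ = T * u ^ (8 * J + 2) := by ring
      _ ≤ T * u ^ (10 * J) := by
          have := pow_le_pow_right₀ hU1 (by omega : 8 * J + 2 ≤ 10 * J)
          gcongr
      _ ≤ T * T := by gcongr
      _ = T ^ 2 := by ring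
  have hpool' : t * u ^ (4 * J) * b₀ * u ^ (4 * J) + t * u ^ (4 * J) ≤ p := by
    exact_mod_cast hpool.trans hTp
  refine ⟨u, b₀, hb0, hpool', by omega, ?_, fun j hj => ?_⟩
  · have h1 := xgi_log3 (y := y) (by linarith)
    have h2 : Real.log (2 * y + 1) ≤ 40 * J * a * u := by
      have := mul_le_mul_of_nonneg_left hlu (by positivity : (0 : ℝ) ≤ 20 * J * a)
      linarith
    have h3 : (u : ℝ) ^ 2 * (m * Real.log (2 * y + 1)) ≤ u ^ 2 * (m * (40 * J * a * u)) := by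
      gcongr
    have h4 := mul_le_mul_of_nonneg_left hw.down.1 (by positivity : (0 : ℝ) ≤ (u : ℝ) ^ 3)
    have h5 : (1 : ℝ) ≤ (u : ℝ) ^ 3 := one_le_pow₀ hU1
    linarith only [h3, h4, h5]
  obtain ⟨s, hs⟩ : ∃ s, s = t * u ^ (4 * j) := ⟨_, rfl⟩
  have hts : t ≤ s := by
    rw [hs]
    exact Nat.le_mul_of_pos_right _ (by positivity)
  have hTs : T ≤ s := ht1.trans (by exact_mod_cast hts)
  have hs1 : (1 : ℝ) ≤ s := by linarith
  have hs0 : 0 < s := by exact_mod_cast (by linarith : (0 : ℝ) < s)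
  have hLX : s * u * u ≤ t * u ^ (4 * J) := by
    calc s * u * u = t * u ^ (4 * j + 2) := by rw [hs]; ring
      _ ≤ t * u ^ (4 * J) := Nat.mul_le_mul_left _ (Nat.pow_le_pow_right (by omega) (by omega))
  rw [← hs]
  have hL : ((s * u : ℕ) : ℝ) = s * u := by push_cast; ring
  have huL : u ≤ s * u := Nat.le_mul_of_pos_left _ hs0
  have hUL : (u : ℝ) ≤ ((s * u : ℕ) : ℝ) := by exact_mod_cast huL
  have hsL : 2 * (s : ℝ) ≤ ((s * u : ℕ) : ℝ) := by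
    have := mul_le_mul_of_nonneg_left hU (by linarith : (0 : ℝ) ≤ s)
    rw [hL]
    linarith only [this, hs1]
  have he : 1 / (10 * (a : ℝ) * r) * r = 1 / (10 * a) := by field_simp
  have hG := xgi_G (r := r) (J := J) (y := y) (by linarith) hU0 (by linarith) he hly
  have hct : 0 < c * θ := mul_pos hc hθ
  refine ⟨by omega, by omega, by omega, by omega, ?_, xgi_n2 hθ (hw.down.2.2.1.trans hUy), ?_, ?_, ?_, ?_,
    xgi_n7 hH (by omega) (hw.down.2.2.2.2.2.2.1.trans hUy), ?_, ?_, ?_⟩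
  · refine xgi_n1 hm1 (by linarith) hθ hc hc1 hJ' (by linarith) ?_
    have := hlog _ hw.down.2.1
    rw [div_le_iff₀ hct] at this
    linarith only [this]
  · refine xgi_n3 hθ hA hy0 ?_
    have := hlog _ hw.down.2.2.2.1
    rw [div_le_iff₀ hc] at this
    linarith only [this]
  · rw [← hφ]
    refine xgi_n4 (by linarith) hθ hCc hk0 (by linarith) ?_ (Nat.mul_le_mul_left _ (by omega))
      (by linarith) (by linarith) ?_ ?_ ?_
    · have h1 : ((s * u : ℕ) : ℝ) ≤ 1200 * J * a * ((s * b₀ : ℕ) : ℝ) := by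
        have : s * u ≤ 1200 * J * a * (s * b₀) := by
          calc s * u ≤ s * (1200 * J * a * b₀) := Nat.mul_le_mul_left _ hb4
            _ = _ := by ring
        exact_mod_cast this
      calc k * ((s * u : ℕ) : ℝ) ≤ k * (1200 * J * a * ((s * b₀ : ℕ) : ℝ)) := by gcongr
        _ = _ := by rw [hk]; field_simp
    · have h1 : ((t * u ^ (4 * J) * b₀ * u ^ (4 * J) : ℕ) : ℝ) ≤ T ^ 2 :=
        le_trans (by exact_mod_cast Nat.le_add_right _ _) hpool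
      have h2 : T ≤ Real.exp T := by
        have := Real.add_one_le_exp T
        linarith
      calc _ ≤ T ^ 2 := h1
        _ ≤ Real.exp T ^ 2 := pow_le_pow_left₀ (by linarith) h2 2
        _ = Real.exp (2 * T) := by rw [← Real.exp_nat_mul]; norm_num
        _ ≤ _ := Real.exp_le_exp.2 (by linarith)
    · have := hlog _ hw.down.2.2.2.2.1
      rw [div_le_iff₀ hk0] at this
      linarith only [this]
    · exact (div_le_iff₀ (by positivity)).1 (hw.down.2.2.2.2.2.1.trans hUL)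
  · refine xgi_n5 (by omega) ?_
    calc 8 * (s * b₀) = s * (8 * b₀) := by ring
      _ ≤ s * u := Nat.mul_le_mul_left _ (by omega)
  · refine xgi_n6 (a := 20 * J * a) (by linarith) hU hly ?_
    have : 600 * J * a * (s * b₀) ≤ s * u := by
      calc 600 * J * a * (s * b₀) = s * (600 * J * a * b₀) := by ring
        _ ≤ s * u := Nat.mul_le_mul_left _ hb1
    have h1 : (600 : ℝ) * J * a * ((s * b₀ : ℕ) : ℝ) ≤ ((s * u : ℕ) : ℝ) := by exact_mod_cast this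
    linarith
  · rw [← hκ]
    have h1 := xgi_n8 (L := ((s * u : ℕ) : ℝ)) (X := t * (u : ℝ) ^ (4 * J)) (κ := κ) (b := b₀)
      (by linarith) hU0 (by exact_mod_cast hLX) (by positivity) hG
      (by
        have := (div_le_iff₀ hκ0).1 hw.down.2.2.2.2.2.2.2.1
        linarith only [this]) (by exact_mod_cast hb0)
    have e1 : ((t * u ^ (4 * J) * b₀ * u ^ (4 * J) : ℕ) : ℝ) =
        t * (u : ℝ) ^ (4 * J) * b₀ * (u : ℝ) ^ (4 * J) := by push_cast; ring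
    rw [e1]
    exact h1
  · refine xgi_Z (by linarith) ?_
    have h1 : s * u * 128 ≤ s * u * u := Nat.mul_le_mul_left _ c2
    omega
  · refine xgi_n10 hr hθ hA (by linarith) (by omega) hL hs1 hTs (by exact_mod_cast c3)
      (le_trans ?_ hG) hw.down.2.2.2.2.2.2.2.2
    have e1 : (u : ℝ) ^ (4 * J) = Real.exp ((4 * J : ℕ) * Real.log u) := by
      rw [Real.exp_nat_mul, Real.exp_log hU0]
    rw [e1, ← Real.exp_neg]
    refine Real.exp_le_exp.2 (neg_le_neg ?_)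
    have h1 : ((4 * J : ℕ) : ℝ) ≤ u := by exact_mod_cast c4
    have h2 : 0 ≤ Real.log u := Real.log_nonneg hU1
    calc ((4 * J : ℕ) : ℝ) * Real.log u ≤ u * u := by gcongr
      _ ≤ s := by rw [← pow_two]; exact hUU.trans hTs

end Pool.Agent.EQ
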