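import Pool.Agent.K.MP_ad7a55_nt.C36
import Pool.Agent.P.MP_ad7a55_nt.CtA
import Pool.Agent.K.MP_ad7a55_nt.C38
import Pool.Agent.K.MP_ad7a55_nt.C16
import Pool.Agent.K.MP_ad7a55_nt.C30
import Pool.Agent.K.MP_ad7a55_nt.C32
import Pool.Agent.K.MP_ad7a55_nt.C8
import Pool.Agent.K.MP_ad7a55_nt.C6

-- part Pool.Agent.P.MP_ad7a55_nt.CtD
section

/-! Counting the linear parts of exceptional maps. -/

set_option autoImplicit false

noncomputable section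

open MeasureTheory Topology Filter UpperHalfPlane
open scoped MatrixGroups ENNReal BoundedContinuousFunction

namespace Pool.Agent.EQ

variable (p : ℕ) [Fact p.Prime]

/-- The conditions on the linear part `a` and on the norm `B` of the antilinear part. -/
def Lin1 (c : ℕ) (E : ℤ) (𝔩 : Lt) (s : ℤ) (X : ℝ) (a : ℂ) (B : ℕ) : Prop :=
  a ∈ 𝔩 ∧ 0 < B ∧ (B : ℝ) ≤ X ∧ Complex.normSq a = (B + s) * nm E 𝔩 ∧ (B : ℝ) + s ≤ X ∧
    ‖(B : ℚ_[p])‖ ≤ (p : ℝ) ^ c * ‖(E : ℚ_[p])‖ ^ 2 ∧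
    ∃ m : ℤ, ¬ (p : ℤ) ∣ m ∧ (m : ℂ) * (p : ℂ) ^ c * a ∈ pr (th E) * 𝔩

theorem ctD_one_lt : (1 : ℝ) < p := by exact_mod_cast (Fact.out : p.Prime).one_lt

theorem ctD_int_mul {Λ : Lt} {x : ℂ} (hx : x ∈ Λ) (n : ℤ) : (n : ℂ) * x ∈ Λ := by
  simpa using Λ.smul_mem n hx

/-- Removing a factor of bounded valuation. -/
theorem mem_of_mul_mem {Λ : Lt} {x : ℂ} (hx : x ∈ Λ) {m : ℤ} {u w : ℕ}
    (hm : (p : ℝ) ^ (-(u : ℤ)) ≤ ‖(m : ℚ_[p])‖) (h : (m : ℂ) * x ∈ pr ((p : ℂ) ^ (w + u)) * Λ) :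
    x ∈ pr ((p : ℂ) ^ w) * Λ := by
  have hp : p.Prime := Fact.out
  obtain ⟨j, -, hj⟩ := (Nat.dvd_prime_pow hp).1
    (show Int.gcd m ((p : ℤ) ^ (w + u)) ∣ p ^ (w + u) by
      exact_mod_cast Int.gcd_dvd_right m ((p : ℤ) ^ (w + u)))
  have h1 : (p : ℤ) ^ j ∣ m := by
    have := Int.gcd_dvd_left m ((p : ℤ) ^ (w + u))
    rw [hj] at this; exact_mod_cast this
  have h2 : j ≤ u := by
    have := hm.trans ((Padic.norm_int_le_pow_iff_dvd m j).2 h1)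
    rw [zpow_le_zpow_iff_right₀ (ctD_one_lt p)] at this
    omega
  obtain ⟨i, rfl⟩ : ∃ i, u = j + i := ⟨u - j, by omega⟩
  have h3 := Int.gcd_eq_gcd_ab m ((p : ℤ) ^ (w + (j + i)))
  rw [hj] at h3
  generalize Int.gcdA m _ = A at h3
  generalize Int.gcdB m _ = B at h3
  have h4 : (p : ℂ) ^ j = m * A + (p : ℂ) ^ (w + (j + i)) * B := by exact_mod_cast h3
  obtain ⟨v, hv, e⟩ := mem_pr_mul.1 h
  refine mem_pr_mul.2 ⟨((p ^ i : ℤ) : ℂ) * ((A : ℂ) * v + B * x),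
    ctD_int_mul (Λ.add_mem (ctD_int_mul hv A) (ctD_int_mul hx B)) _, ?_⟩
  have hp0 : (p : ℂ) ^ j ≠ 0 := pow_ne_zero _ (by exact_mod_cast hp.ne_zero)
  apply mul_left_cancel₀ hp0
  push_cast
  linear_combination A * e - x * h4

theorem ctD_n {E s B m n π : ℚ_[p]} {Q : ℝ} (hQ : 0 < Q) (hπ : ‖π‖ = Q) (hm : ‖m‖ = 1)
    (hE0 : 0 < ‖E‖) (hB : ‖B‖ * Q ≤ ‖E‖ ^ 2) (hs : ‖E‖ * Q ≤ ‖s‖) (hE : ‖E‖ < Q ^ 2)
    (h : m ^ 2 * π ^ 2 * (B + s) = -E * n) : Q ^ 3 ≤ ‖n‖ := by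
  have h1 : ‖B‖ < ‖s‖ := by
    refine lt_of_lt_of_le (lt_of_mul_lt_mul_right ?_ hQ.le) hs
    nlinarith
  have h2 := congrArg norm h
  rw [norm_mul, norm_mul, norm_mul, norm_pow, norm_pow, hm, hπ, norm_neg,
    Padic.add_eq_max_of_ne h1.ne, max_eq_right h1.le] at h2
  refine le_of_mul_le_mul_left ?_ hE0
  nlinarith [mul_le_mul_of_nonneg_left hs (sq_nonneg Q)]

theorem ctD_sub (x y : ℚ_[p]) : ‖x - y‖ ≤ max ‖x‖ ‖y‖ := by
  simpa [sub_eq_add_neg] using Padic.nonarchimedean x (-y)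

theorem ctD_fac {E X Y α α' : ℚ_[p]} {l T : ℝ} (hl : 0 < l) (hY : ‖Y‖ ≤ 1) (hα : ‖4 * α'‖ ≤ 1)
    (h1 : ‖α - α'‖ ≤ ‖E‖) (h2 : l ≤ ‖4 * α'‖) (h3 : X ^ 2 - Y ^ 2 * E = 4 * α * α')
    (hE : ‖E‖ ≤ T * l) : ‖X - 2 * α'‖ ≤ T ∨ ‖X + 2 * α'‖ ≤ T := by
  have e1 : (X - 2 * α') * (X + 2 * α') = Y ^ 2 * E + 4 * α' * (α - α') := by
    linear_combination h3
  have e2 : ‖X - 2 * α'‖ * ‖X + 2 * α'‖ ≤ T * l := by
    rw [← norm_mul, e1]
    refine (Padic.nonarchimedean _ _).trans ((max_le ?_ ?_).trans hE)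
    · rw [norm_mul, norm_pow]
      exact mul_le_of_le_one_left (norm_nonneg _) (pow_le_one₀ (norm_nonneg _) hY)
    · rw [norm_mul]
      exact (mul_le_of_le_one_left (norm_nonneg _) hα).trans h1
  have e3 := ctD_sub p (X + 2 * α') (X - 2 * α')
  rw [show X + 2 * α' - (X - 2 * α') = 4 * α' by ring] at e3
  rcases le_max_iff.1 (h2.trans e3) with h | h
  · exact Or.inl (le_of_mul_le_mul_right
      ((mul_le_mul_of_nonneg_left h (norm_nonneg _)).trans e2) hl)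
  · refine Or.inr (le_of_mul_le_mul_right (le_trans ?_ e2) hl)
    rw [mul_comm]
    exact mul_le_mul_of_nonneg_right h (norm_nonneg _)

theorem ctD_two : (p : ℝ)⁻¹ ≤ ‖(2 : ℚ_[p])‖ := by
  have hp : p.Prime := Fact.out
  by_cases h : p = 2
  · subst h
    exact (Padic.norm_p (p := 2)).ge
  · have := Padic.norm_natCast_eq_one_iff.2 ((Nat.coprime_primes hp Nat.prime_two).2 h)
    exact (inv_le_one_of_one_le₀ (ctD_one_lt p).le).trans this.ge

/-- Extraction of the integer data. -/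
theorem ctD_data {c : ℕ} {E : ℤ} {𝔩 : Lt} (hl : DiscL 𝔩 E) {s : ℤ} {X : ℝ} {a : ℂ} {B : ℕ}
    (h : Lin1 p c E 𝔩 s X a B) : ∃ (m : ℤ) (g : ℂ) (n : ℕ), ‖(m : ℚ_[p])‖ = 1 ∧ g ∈ 𝔩 ∧
      th E * g = m * (p : ℂ) ^ c * a ∧ Complex.normSq g = n * nm E 𝔩 ∧
      m ^ 2 * ((p : ℤ) ^ c) ^ 2 * (B + s) = -E * n := by
  obtain ⟨-, -, -, h1, -, -, m, h2, h3⟩ := h
  obtain ⟨g, hg, e⟩ := mem_pr_mul.1 h3
  obtain ⟨n, hn⟩ := hl.normSq_nat hg
  refine ⟨m, g, n, le_antisymm (Padic.norm_int_le_one m)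
    (not_lt.1 fun h => h2 (Padic.norm_intCast_lt_one_iff.1 h)), hg, e, hn, ?_⟩
  have h4 : Complex.normSq (th E) = -E := by
    have h5 := Complex.normSq_eq_conj_mul_self (z := th E)
    rw [conj_th, neg_mul, ← sq, th_sq hl.isD.1.le] at h5
    exact_mod_cast h5
  have h5 := congrArg Complex.normSq e
  simp only [map_mul, map_pow, Complex.normSq_intCast, Complex.normSq_natCast, h4, hn, h1] at h5
  have h6 : ((m ^ 2 * ((p : ℤ) ^ c) ^ 2 * (B + s) : ℤ) : ℝ) = ((-E * n : ℤ) : ℝ) := by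
    apply mul_right_cancel₀ hl.nm_pos.ne'
    push_cast
    rw [mul_pow] at h5
    linear_combination -h5
  exact_mod_cast h6

/-- The final lattice computation. -/
theorem ctD_lat {E : ℤ} {𝔩 : Lt} (hl : DiscL 𝔩 E) {g₁ g₂ : ℂ} (hg : g₂ ∈ 𝔩) {n₂ : ℕ}
    (hn : Complex.normSq g₂ = n₂ * nm E 𝔩) {x y m₁ m₂ ε T : ℤ}
    (h : 2 * (g₁ * starRingEnd ℂ g₂) = nm E 𝔩 * (x + y * th E))
    (h1 : T ∣ m₁ * m₂ * x - 2 * ε * (m₁ ^ 2 * n₂)) (h2 : T ∣ E) :
    2 * (m₁ ^ 2 * n₂) * (th E * (m₂ * g₁ - ε * m₁ * g₂)) ∈ pr T * 𝔩 := by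
  obtain ⟨k, hk⟩ := h1
  obtain ⟨E', hE⟩ := h2
  have ht : th E * g₂ ∈ 𝔩 := pr_mul_le.1 ((hl.end_iff _).2 (th_mem_OD E)) _ hg
  refine mem_pr_mul.2 ⟨(m₁ * k : ℤ) * (th E * g₂) + (m₁ * (m₁ * m₂ * y * E') : ℤ) * g₂,
    𝔩.add_mem (ctD_int_mul ht _) (ctD_int_mul hg _), ?_⟩
  have h3 : g₂ * starRingEnd ℂ g₂ = n₂ * nm E 𝔩 := by
    rw [Complex.mul_conj, hn]; push_cast; rfl
  have h4 : (m₁ : ℂ) * m₂ * x - 2 * ε * (m₁ ^ 2 * n₂) = T * k := by exact_mod_cast hk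
  have h5 : th E ^ 2 = T * E' := by rw [th_sq hl.isD.1.le]; exact_mod_cast hE
  have h6 : ((nm E 𝔩 : ℝ) : ℂ) ≠ 0 := by exact_mod_cast hl.nm_pos.ne'
  apply mul_left_cancel₀ h6
  push_cast
  linear_combination (-(nm E 𝔩 : ℂ) * m₁ * th E * g₂) * h4
    - (nm E 𝔩 : ℂ) * m₁ ^ 2 * m₂ * y * g₂ * h5 - m₁ ^ 2 * m₂ * th E * g₂ * h
    + 2 * m₁ ^ 2 * m₂ * th E * g₁ * h3

/-- Two solutions agree up to sign modulo a large power of `p`. -/
theorem lin1_diff (c : ℕ) : ∃ c' : ℕ, ∀ (E : ℤ) (𝔩 : Lt), DiscL 𝔩 E → ∀ s : ℤ,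
    ‖(E : ℚ_[p])‖ ≤ (p : ℝ) ^ c * ‖(s : ℚ_[p])‖ → ∀ (X : ℝ) (a₁ a₂ : ℂ) (B₁ B₂ : ℕ),
      Lin1 p c E 𝔩 s X a₁ B₁ → Lin1 p c E 𝔩 s X a₂ B₂ → ∀ w : ℕ,
        ‖(E : ℚ_[p])‖ ≤ (p : ℝ) ^ (-((w + c' : ℕ) : ℤ)) →
        a₁ - a₂ ∈ pr ((p : ℂ) ^ w) * 𝔩 ∨ a₁ + a₂ ∈ pr ((p : ℂ) ^ w) * 𝔩 := by
  refine ⟨7 * c + 3, fun E 𝔩 hl s hs X a₁ a₂ B₁ B₂ H₁ H₂ w hw => ?_⟩
  obtain ⟨m₁, g₁, n₁, u₁, k₁, e₁, f₁, z₁⟩ := ctD_data p hl H₁
  obtain ⟨m₂, g₂, n₂, u₂, k₂, e₂, f₂, z₂⟩ := ctD_data p hl H₂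
  have hp1 := ctD_one_lt p
  have hz : ∀ n : ℕ, (p : ℝ) ^ (-(n : ℤ)) = (p : ℝ)⁻¹ ^ n := fun n => by
    rw [zpow_neg, zpow_natCast, inv_pow]
  have hc : (p : ℝ) ^ c * (p : ℝ)⁻¹ ^ c = 1 := by
    rw [← mul_pow, mul_inv_cancel₀ (by linarith), one_pow]
  have h2 := ctD_two p
  have hπ : ‖(p : ℚ_[p]) ^ c‖ = (p : ℝ)⁻¹ ^ c := by rw [Padic.norm_p_pow, hz]
  have q0 : 0 < (p : ℝ)⁻¹ := by positivity
  have q1 : (p : ℝ)⁻¹ < 1 := inv_lt_one_of_one_lt₀ hp1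
  rw [hz] at hw
  have hE0 : 0 < ‖(E : ℚ_[p])‖ := norm_pos_iff.2 (by exact_mod_cast hl.isD.1.ne)
  have hB : ∀ B : ℕ, ‖(B : ℚ_[p])‖ ≤ (p : ℝ) ^ c * ‖(E : ℚ_[p])‖ ^ 2 →
      ‖(B : ℚ_[p])‖ * (p : ℝ)⁻¹ ^ c ≤ ‖(E : ℚ_[p])‖ ^ 2 := fun B h =>
    (mul_le_mul_of_nonneg_right h (by positivity)).trans
      (le_of_eq (by rw [mul_right_comm, hc, one_mul]))
  have b₁ := hB B₁ H₁.2.2.2.2.2.1
  have b₂ := hB B₂ H₂.2.2.2.2.2.1
  have hs' : ‖(E : ℚ_[p])‖ * (p : ℝ)⁻¹ ^ c ≤ ‖(s : ℚ_[p])‖ :=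
    (mul_le_mul_of_nonneg_right hs (by positivity)).trans
      (le_of_eq (by rw [mul_right_comm, hc, one_mul]))
  have y₁ : (m₁ : ℚ_[p]) ^ 2 * ((p : ℚ_[p]) ^ c) ^ 2 * (B₁ + s) = -E * n₁ := by exact_mod_cast z₁
  have y₂ : (m₂ : ℚ_[p]) ^ 2 * ((p : ℚ_[p]) ^ c) ^ 2 * (B₂ + s) = -E * n₂ := by exact_mod_cast z₂
  have hn₂ := ctD_n p (by positivity) hπ u₂ hE0 b₂ hs' (hw.trans_lt (by
    rw [← pow_mul]; exact pow_lt_pow_right_of_lt_one₀ q0 q1 (by omega))) y₂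
  have hd : ‖(m₂ : ℚ_[p]) ^ 2 * n₁ - m₁ ^ 2 * n₂‖ ≤ ‖(E : ℚ_[p])‖ := by
    have e : -(E : ℚ_[p]) * ((m₂ : ℚ_[p]) ^ 2 * n₁ - m₁ ^ 2 * n₂) =
        m₁ ^ 2 * m₂ ^ 2 * (p : ℚ_[p]) ^ c * ((p : ℚ_[p]) ^ c * (B₁ - B₂)) := by
      linear_combination (m₁ : ℚ_[p]) ^ 2 * y₂ - (m₂ : ℚ_[p]) ^ 2 * y₁
    have e' := congrArg norm e
    simp only [norm_mul, norm_neg, norm_pow (m₁ : ℚ_[p]), norm_pow (m₂ : ℚ_[p]), u₁, u₂, hπ,
      one_pow, one_mul] at e'
    have e2 : (p : ℝ)⁻¹ ^ c * ‖(B₁ : ℚ_[p]) - B₂‖ ≤ ‖(E : ℚ_[p])‖ ^ 2 := by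
      rw [mul_comm]
      rcases le_max_iff.1 (ctD_sub p B₁ B₂) with h | h
      · exact (mul_le_mul_of_nonneg_right h (by positivity)).trans b₁
      · exact (mul_le_mul_of_nonneg_right h (by positivity)).trans b₂
    refine le_of_mul_le_mul_left ?_ hE0
    rw [e', ← sq]
    exact (mul_le_of_le_one_left (by positivity) (pow_le_one₀ q0.le q1.le)).trans e2
  obtain ⟨o, ho, eo⟩ := mem_pr_mul.1 (hl.mul_cj_nm ▸ Submodule.mul_mem_mul k₁
    (mem_cj.2 (by simpa using k₂) : starRingEnd ℂ g₂ ∈ cj 𝔩))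
  obtain ⟨u, y, rfl⟩ := mem_sp.1 ho
  have hx : 2 * (g₁ * starRingEnd ℂ g₂) = nm E 𝔩 * ((2 * u + y * E : ℤ) + y * th E) := by
    rw [← eo]; push_cast; ring
  generalize 2 * u + y * E = x at hx
  have hq : x ^ 2 - y ^ 2 * E = 4 * n₁ * n₂ := by
    have h3 := congrArg (starRingEnd ℂ) hx
    simp only [map_mul, map_add, map_intCast, conj_th, Complex.conj_conj, Complex.conj_ofReal,
      map_ofNat] at h3
    have h4 : g₁ * starRingEnd ℂ g₁ = n₁ * nm E 𝔩 := by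
      rw [Complex.mul_conj, f₁]; push_cast; rfl
    have h5 : g₂ * starRingEnd ℂ g₂ = n₂ * nm E 𝔩 := by
      rw [Complex.mul_conj, f₂]; push_cast; rfl
    have h6 : ((nm E 𝔩 : ℝ) : ℂ) ≠ 0 := by exact_mod_cast hl.nm_pos.ne'
    have h7 : ((x ^ 2 - y ^ 2 * E : ℤ) : ℂ) = ((4 * n₁ * n₂ : ℤ) : ℂ) := by
      apply mul_left_cancel₀ (pow_ne_zero 2 h6)
      push_cast
      linear_combination (nm E 𝔩 : ℂ) ^ 2 * y ^ 2 * th_sq hl.isD.1.le
        - (nm E 𝔩 : ℂ) * (x + y * -th E) * hx - 2 * (g₁ * starRingEnd ℂ g₂) * h3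
        + 4 * (g₂ * starRingEnd ℂ g₂) * h4 + 4 * n₁ * (nm E 𝔩 : ℂ) * h5
    exact_mod_cast h7
  have hq' : (x : ℚ_[p]) ^ 2 - y ^ 2 * E = 4 * n₁ * n₂ := by exact_mod_cast hq
  have hα : ‖(m₁ : ℚ_[p]) ^ 2 * n₂‖ = ‖(n₂ : ℚ_[p])‖ := by rw [norm_mul, norm_pow, u₁]; simp
  have i₁ := Padic.norm_int_le_one (p := p) (m₁ * m₂ * y)
  have i₂ := Padic.norm_int_le_one (p := p) (4 * (m₁ ^ 2 * n₂))
  push_cast at i₁ i₂
  have hfac := ctD_fac p (E := E) (X := m₁ * m₂ * x) (Y := m₁ * m₂ * y) (α := m₂ ^ 2 * n₁)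
    (α' := m₁ ^ 2 * n₂) (l := (p : ℝ)⁻¹ ^ (3 * c + 2)) (T := (p : ℝ)⁻¹ ^ (w + (4 * c + 1)))
    (by positivity) i₁ i₂ hd
    (by
      rw [norm_mul, hα, show (4 : ℚ_[p]) = 2 ^ 2 by norm_num, norm_pow, pow_add, mul_comm 3 c,
        pow_mul, mul_comm]
      exact mul_le_mul (pow_le_pow_left₀ q0.le h2 2) hn₂ (by positivity) (by positivity))
    (by linear_combination (m₁ : ℚ_[p]) ^ 2 * m₂ ^ 2 * hq')
    (hw.trans (le_of_eq (by rw [← pow_add]; congr 1; omega)))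
  have hE : (p : ℤ) ^ (w + (4 * c + 1)) ∣ E := (Padic.norm_int_le_pow_iff_dvd E _).1 (by
    rw [hz]; exact hw.trans (pow_le_pow_of_le_one q0.le q1.le (by omega)))
  have fin : ∀ ε : ℤ, ‖(m₁ : ℚ_[p]) * m₂ * x - 2 * ε * (m₁ ^ 2 * n₂)‖ ≤
      (p : ℝ)⁻¹ ^ (w + (4 * c + 1)) → a₁ - ε * a₂ ∈ pr ((p : ℂ) ^ w) * 𝔩 := fun ε h => by
    have h1 := ctD_lat hl k₂ f₂ hx ((Padic.norm_int_le_pow_iff_dvd
      (m₁ * m₂ * x - 2 * ε * (m₁ ^ 2 * n₂)) _).1 (by rw [hz]; push_cast; exact h)) hE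
    refine mem_of_mul_mem p (𝔩.sub_mem H₁.1 (ctD_int_mul H₂.1 ε))
      (m := 2 * (m₁ ^ 2 * n₂) * (m₁ * m₂ * p ^ c)) (u := 4 * c + 1) ?_ ?_
    · rw [hz]
      push_cast
      rw [norm_mul, norm_mul, hα, norm_mul, norm_mul, u₁, u₂, hπ, one_mul, one_mul,
        show 4 * c + 1 = 1 + c * 3 + c by ring, pow_add, pow_add, pow_mul, pow_one]
      exact mul_le_mul_of_nonneg_right (mul_le_mul h2 hn₂ (by positivity) (by positivity))
        (by positivity)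
    · push_cast at h1 ⊢
      have : (2 : ℂ) * (m₁ ^ 2 * n₂) * (m₁ * m₂ * (p : ℂ) ^ c) * (a₁ - ε * a₂) =
          2 * (m₁ ^ 2 * n₂) * (th E * (m₂ * g₁ - ε * m₁ * g₂)) := by
        linear_combination 2 * (m₁ ^ 2 * n₂) * (ε * m₁ * e₂ - m₂ * e₁)
      rwa [this]
  rcases hfac with h | h
  · exact Or.inl (by simpa using fin 1 (by simpa using h))
  · exact Or.inr (by simpa using fin (-1) (by simpa using h))

end Pool.Agent.EQ
end
end

-- part Pool.Agent.P.MP_ad7a55_nt.CtE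
section

/-! Exceptional pairs of lattices. -/

set_option autoImplicit false

noncomputable section

open MeasureTheory Topology Filter UpperHalfPlane
open scoped MatrixGroups ENNReal BoundedContinuousFunction

namespace Pool.Agent.EQ

/-- The real linear map `z ↦ α z + β z̄`. -/
def rl (α β z : ℂ) : ℂ := α * z + β * starRingEnd ℂ z

/-- An exceptional map of degree `n` from `M₁` to `M₂`. -/
def Bad2 (p : ℕ) [Fact p.Prime] (n : ℤ) (c : ℕ) (D₁ D₂ : ℤ) (M₁ M₂ : Lt) : Prop :=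
  ∃ (α β : ℂ) (B : ℕ), 0 < B ∧ (∀ z ∈ M₁, rl α β z ∈ M₂) ∧
    Real.sqrt (D₁ * D₂) * Complex.normSq β * vol M₁ = B * vol M₂ ∧
    (Complex.normSq α - Complex.normSq β) * vol M₁ = n * vol M₂ ∧
    Complex.normSq α * vol M₁ ≤ (p : ℝ) ^ c * vol M₂ ∧
    Complex.normSq β * vol M₁ ≤ (p : ℝ) ^ c * vol M₂ ∧
    ‖(B : ℚ_[p])‖ ≤ (p : ℝ) ^ c * ‖(D₁ : ℚ_[p])‖ * ‖(D₂ : ℚ_[p])‖ ∧
    ∃ m : ℤ, ¬ (p : ℤ) ∣ m ∧ ∀ z ∈ M₁, (m : ℂ) * (p : ℂ) ^ c * α * z ∈ M₂

theorem Bad2.scale {p : ℕ} [Fact p.Prime] {n : ℤ} {c : ℕ} {D₁ D₂ : ℤ} {M₁ M₂ : Lt}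
    (h : Bad2 p n c D₁ D₂ M₁ M₂) (h₁ : IsLat M₁) (h₂ : IsLat M₂) {a b : ℂ} (ha : a ≠ 0)
    (hb : b ≠ 0) : Bad2 p n c D₁ D₂ (pr a * M₁) (pr b * M₂) := by
  obtain ⟨α, β, B, hB, h1, h2, h3, h4, h5, h6, m, hm, h7⟩ := h
  have ha' : starRingEnd ℂ a ≠ 0 := (map_ne_zero _).2 ha
  have na : Complex.normSq a ≠ 0 := fun e => ha (Complex.normSq_eq_zero.1 e)
  have nb : 0 < Complex.normSq b := Complex.normSq_pos.2 hb
  have eα : Complex.normSq (b * α / a) * (Complex.normSq a * vol M₁) =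
      Complex.normSq b * (Complex.normSq α * vol M₁) := by
    rw [map_div₀, map_mul]
    field_simp
  have eβ : Complex.normSq (b * β / starRingEnd ℂ a) * (Complex.normSq a * vol M₁) =
      Complex.normSq b * (Complex.normSq β * vol M₁) := by
    rw [map_div₀, map_mul, Complex.normSq_conj]
    field_simp
  refine ⟨b * α / a, b * β / starRingEnd ℂ a, B, hB, fun z hz => ?_, ?_, ?_, ?_, ?_, h6, m, hm,
    fun z hz => ?_⟩
  · obtain ⟨w, hw, rfl⟩ := mem_pr_mul.1 hz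
    refine mem_pr_mul.2 ⟨_, h1 w hw, ?_⟩
    simp only [rl, map_mul]
    field_simp
  · rw [vol_pr_mul h₁ ha, vol_pr_mul h₂ hb, mul_assoc, eβ]
    linear_combination Complex.normSq b * h2
  · rw [vol_pr_mul h₁ ha, vol_pr_mul h₂ hb, sub_mul, eα, eβ]
    linear_combination Complex.normSq b * h3
  · rw [vol_pr_mul h₁ ha, vol_pr_mul h₂ hb, eα]
    nlinarith [mul_le_mul_of_nonneg_left h4 nb.le]
  · rw [vol_pr_mul h₁ ha, vol_pr_mul h₂ hb, eβ]
    nlinarith [mul_le_mul_of_nonneg_left h5 nb.le]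
  · obtain ⟨w, hw, rfl⟩ := mem_pr_mul.1 hz
    refine mem_pr_mul.2 ⟨_, h7 w hw, ?_⟩
    field_simp

theorem rl_inj {α β : ℂ} (h : Complex.normSq α ≠ Complex.normSq β) :
    Function.Injective (rl α β) := by
  intro z z' e
  have e1 : α * (z - z') = -(β * starRingEnd ℂ (z - z')) := by
    simp only [rl] at e
    rw [map_sub]
    linear_combination e
  have e2 := congrArg Complex.normSq e1
  rw [Complex.normSq_neg, map_mul, map_mul, Complex.normSq_conj] at e2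
  by_contra hne
  have h0 : Complex.normSq (z - z') ≠ 0 := fun e0 =>
    hne (sub_eq_zero.1 (Complex.normSq_eq_zero.1 e0))
  exact h (mul_right_cancel₀ h0 e2)

theorem cte_lin (α β w₁ w₂ : ℂ) (u v : ℤ) :
    rl α β (u * w₁ + v * w₂) = u * rl α β w₁ + v * rl α β w₂ := by
  simp only [rl, map_add, map_mul, map_intCast]
  ring

theorem cte_im (α β w₁ w₂ : ℂ) : (starRingEnd ℂ (rl α β w₁) * rl α β w₂).im =
    (Complex.normSq α - Complex.normSq β) * (starRingEnd ℂ w₁ * w₂).im := by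
  simp only [rl, Complex.normSq_apply, Complex.mul_im, Complex.mul_re, Complex.add_im,
    Complex.add_re, Complex.conj_re, Complex.conj_im]
  ring

theorem cte_im_int (w₁ w₂ : ℂ) (a b c d : ℤ) :
    (starRingEnd ℂ (a * w₁ + b * w₂) * (c * w₁ + d * w₂)).im =
      ((a * d - b * c : ℤ) : ℝ) * (starRingEnd ℂ w₁ * w₂).im := by
  simp only [Complex.mul_im, Complex.mul_re, Complex.add_im, Complex.add_re, Complex.conj_re,
    Complex.conj_im, Complex.intCast_re, Complex.intCast_im]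
  push_cast
  ring

theorem cte_im_vol {c : ℂ} (hc : c ≠ 0) (τ : ℍ) :
    (starRingEnd ℂ c * (c * τ)).im = vol (sp c (c * τ)) := by
  rw [vol_sp hc]
  simp only [Complex.normSq_apply, Complex.mul_im, Complex.mul_re, Complex.conj_re,
    Complex.conj_im, coe_im, coe_re]
  ring

/-- The map `rl` as an additive map. -/
def cteL (α β : ℂ) : ℂ →ₗ[ℤ] ℂ where
  toFun := rl α β
  map_add' z w := by
    simp only [rl, map_add]
    ring
  map_smul' m z := by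
    simp only [rl, zsmul_eq_mul, map_mul, map_intCast, eq_intCast, Int.cast_id]
    ring

theorem cte_card {X Y : Type*} {s : Set X} {t : Set Y} {f : X → Y} (ht : t.Finite) {k : ℕ}
    (h1 : ∀ x ∈ s, f x ∈ t)
    (h2 : ∀ x ∈ s, {x' ∈ s | f x' = f x}.Finite ∧ {x' ∈ s | f x' = f x}.ncard ≤ k) :
    s.Finite ∧ s.ncard ≤ k * t.ncard := by
  classical
  have hs : s.Finite := by
    refine Set.Finite.of_finite_fibers f (ht.subset ?_) ?_
    · rintro _ ⟨x, hx, rfl⟩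
      exact h1 x hx
    · rintro _ ⟨x, hx, rfl⟩
      exact (h2 x hx).1
  refine ⟨hs, ?_⟩
  rw [Set.ncard_eq_toFinset_card s hs, Set.ncard_eq_toFinset_card t ht]
  refine Finset.card_le_mul_card_image_of_maps_to (f := f)
    (fun x hx => ht.mem_toFinset.2 (h1 x (hs.mem_toFinset.1 hx))) k fun y _ => ?_
  rcases (hs.toFinset.filter fun x => f x = y).eq_empty_or_nonempty with e | ⟨x, hx⟩
  · rw [e]
    simp
  · rw [Finset.mem_filter, hs.mem_toFinset] at hx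
    obtain ⟨hx, rfl⟩ := hx
    refine le_trans (le_of_eq ?_) (h2 x hx).2
    rw [← Set.ncard_coe_finset]
    refine congrArg Set.ncard (Set.ext fun x' => ?_)
    simp

/-- The image has index `|n|`. -/
theorem rl_index {M₁ M₂ : Lt} (h₁ : IsLat M₁) (h₂ : IsLat M₂) {α β : ℂ} {n : ℤ}
    (h : ∀ z ∈ M₁, rl α β z ∈ M₂)
    (hn : (Complex.normSq α - Complex.normSq β) * vol M₁ = n * vol M₂) :
    ∀ w ∈ M₂, ∃ z ∈ M₁, rl α β z = n * w := by
  obtain ⟨c, τ, hc, rfl⟩ := h₁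
  obtain ⟨c', τ', hc', rfl⟩ := h₂
  obtain ⟨m11, m12, e1⟩ := mem_sp.1 (h _ (ord_left _ _))
  obtain ⟨m21, m22, e2⟩ := mem_sp.1 (h _ (ord_right _ _))
  have hv := vol_pos (isLat_sp hc' τ')
  have hd : m11 * m22 - m12 * m21 = n := by
    have e3 := cte_im α β c (c * τ)
    rw [e1, e2, cte_im_int, cte_im_vol hc, cte_im_vol hc', hn] at e3
    exact_mod_cast mul_right_cancel₀ hv.ne' e3
  have hd' : (m11 : ℂ) * m22 - m12 * m21 = n := by exact_mod_cast hd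
  intro w hw
  obtain ⟨x, y, rfl⟩ := mem_sp.1 hw
  refine ⟨_, mem_sp.2 ⟨x * m22 - y * m21, y * m11 - x * m12, rfl⟩, ?_⟩
  rw [cte_lin, e1, e2, ← hd']
  push_cast
  ring

theorem rl_mem {M₁ M₂ : Lt} (h₁ : IsLat M₁) {α β : ℂ} (h : ∀ z ∈ M₁, rl α β z ∈ M₂) :
    2 * Complex.I * vol M₁ * α ∈ M₂ * cj M₁ ∧ 2 * Complex.I * vol M₁ * β ∈ M₁ * M₂ := by
  obtain ⟨c, τ, hc, rfl⟩ := h₁
  have a1 : c ∈ sp c (c * τ) := ord_left _ _
  have a2 : c * τ ∈ sp c (c * τ) := ord_right _ _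
  have b1 : starRingEnd ℂ c ∈ cj (sp c (c * τ)) := mem_cj.2 (by rwa [Complex.conj_conj])
  have b2 : starRingEnd ℂ (c * τ) ∈ cj (sp c (c * τ)) := mem_cj.2 (by rwa [Complex.conj_conj])
  have e : 2 * Complex.I * (vol (sp c (c * τ)) : ℂ) =
      starRingEnd ℂ c * (c * τ) - c * starRingEnd ℂ (c * τ) := by
    have := Complex.sub_conj (starRingEnd ℂ c * (c * τ))
    rw [cte_im_vol hc, map_mul, Complex.conj_conj] at this
    rw [this]
    push_cast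
    ring
  rw [e]
  constructor
  · have := sub_mem (Submodule.mul_mem_mul (h _ a2) b1) (Submodule.mul_mem_mul (h _ a1) b2)
    refine (congrArg (· ∈ M₂ * cj (sp c (c * τ))) ?_).mp this
    simp only [rl]
    ring
  · have := sub_mem (Submodule.mul_mem_mul a2 (h _ a1)) (Submodule.mul_mem_mul a1 (h _ a2))
    refine (congrArg (· ∈ sp c (c * τ) * M₂) ?_).mp this
    simp only [rl]
    ring

/-- The pair is determined, up to boundedly many choices, by the map and the two overlattices. -/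
theorem card_rec {n : ℤ} (hn : n ≠ 0) {g₁ g₂ : ℕ} (hg : Nat.Coprime g₁ g₂) (T₁ T₂ : Lt)
    (α β : ℂ) :
    {M : Lt × Lt | IsLat M.1 ∧ IsLat M.2 ∧ M.1 ≤ T₁ ∧ pr g₁ * T₁ ≤ M.1 ∧ M.2 ≤ T₂ ∧
        pr g₂ * T₂ ≤ M.2 ∧ (∀ z ∈ M.1, rl α β z ∈ M.2) ∧
        (Complex.normSq α - Complex.normSq β) * vol M.1 = n * vol M.2}.Finite ∧
      {M : Lt × Lt | IsLat M.1 ∧ IsLat M.2 ∧ M.1 ≤ T₁ ∧ pr g₁ * T₁ ≤ M.1 ∧ M.2 ≤ T₂ ∧
        pr g₂ * T₂ ≤ M.2 ∧ (∀ z ∈ M.1, rl α β z ∈ M.2) ∧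
        (Complex.normSq α - Complex.normSq β) * vol M.1 = n * vol M.2}.ncard ≤
        n.natAbs ^ 9 := by
  set S : Set (Lt × Lt) := {M : Lt × Lt | IsLat M.1 ∧ IsLat M.2 ∧ M.1 ≤ T₁ ∧ pr g₁ * T₁ ≤ M.1 ∧
    M.2 ≤ T₂ ∧ pr g₂ * T₂ ≤ M.2 ∧ (∀ z ∈ M.1, rl α β z ∈ M.2) ∧
      (Complex.normSq α - Complex.normSq β) * vol M.1 = n * vol M.2} with hS
  rcases S.eq_empty_or_nonempty with h0 | ⟨M₀, hM₀⟩
  · rw [h0]
    simp
  have hN : 0 < n.natAbs := Int.natAbs_pos.2 hn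
  have hN' : ((n.natAbs : ℕ) : ℂ) ≠ 0 := by exact_mod_cast hN.ne'
  have habs : ∀ (Λ : Lt) (w : ℂ), (n : ℂ) * w ∈ Λ → ((n.natAbs : ℕ) : ℂ) * w ∈ Λ := by
    intro Λ w hw
    rcases Int.natAbs_eq n with e | e
    · rw [e] at hw
      simpa using hw
    · rw [e] at hw
      have := neg_mem hw
      simpa using this
  have hne : Complex.normSq α ≠ Complex.normSq β := by
    intro e
    have h1 := hM₀.2.2.2.2.2.2.2
    rw [e, sub_self, zero_mul] at h1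
    have h2 : (n : ℝ) ≠ 0 := by exact_mod_cast hn
    exact mul_ne_zero h2 (vol_pos hM₀.2.1).ne' h1.symm
  have hinj : Function.Injective (cteL α β) := rl_inj hne
  obtain ⟨u, v, huv⟩ := Nat.isCoprime_iff_coprime.2 hg
  have huv' : (u : ℂ) * g₁ + v * g₂ = 1 := by exact_mod_cast huv
  have step : ∀ M ∈ S, ∀ M' ∈ S, pr (n.natAbs : ℕ) * M.2 ≤ M'.2 := by
    rintro M ⟨l1, l2, t1, -, t2, -, r1, r2⟩ M' ⟨-, -, -, s1, -, s2, r1', -⟩
    refine pr_mul_le.2 fun w hw => habs _ _ ?_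
    obtain ⟨z, hz, e⟩ := rl_index l1 l2 r1 r2 w hw
    have a1 : rl α β ((g₁ : ℂ) * z) ∈ M'.2 := r1' _ (pr_mul_le.1 s1 z (t1 hz))
    have a2 : (g₂ : ℂ) * w ∈ M'.2 := pr_mul_le.1 s2 w (t2 hw)
    have a3 : rl α β ((g₁ : ℂ) * z) = g₁ * (n * w) := by
      rw [← e]
      simp only [rl, map_mul, map_natCast]
      ring
    rw [a3] at a1
    have a4 := add_mem (M'.2.smul_mem u a1) (M'.2.smul_mem (v * n) a2)
    refine (congrArg (· ∈ M'.2) ?_).mp a4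
    simp only [zsmul_eq_mul]
    push_cast
    linear_combination (n * w) * huv'
  obtain ⟨f1, f2⟩ := card_between (N := n.natAbs ^ 2) (by positivity) hM₀.2.1
  have key := cte_card (s := S) (f := fun M => pr (n.natAbs : ℕ) * M.2) f1 (k := n.natAbs ^ 3)
    (fun M hM => ⟨?_, step M hM M₀ hM₀⟩) (fun M hM => ?_)
  · refine ⟨key.1, key.2.trans ?_⟩
    calc n.natAbs ^ 3 * _ ≤ n.natAbs ^ 3 * (n.natAbs ^ 2) ^ 3 := Nat.mul_le_mul_left _ f2
      _ = n.natAbs ^ 9 := by ring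
  · have := (pr_mul_le_iff hN').2 (step M₀ hM₀ M hM)
    rw [← mul_assoc, pr_mul_pr] at this
    simpa [sq] using this
  · obtain ⟨k1, k2⟩ := card_between hN hM.2.1
    have hmap : ∀ M' ∈ {M' ∈ S | pr (n.natAbs : ℕ) * M'.2 = pr (n.natAbs : ℕ) * M.2},
        M'.2 = M.2 := fun M' hM' =>
      le_antisymm ((pr_mul_le_iff hN').1 hM'.2.le) ((pr_mul_le_iff hN').1 hM'.2.ge)
    have hto : ∀ M' ∈ {M' ∈ S | pr (n.natAbs : ℕ) * M'.2 = pr (n.natAbs : ℕ) * M.2},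
        M'.1.map (cteL α β) ∈ {Λ' | pr (n.natAbs : ℕ) * M.2 ≤ Λ' ∧ Λ' ≤ M.2} := by
      intro M' hM'
      rw [← hmap M' hM']
      obtain ⟨l1, l2, -, -, -, -, r1, r2⟩ := hM'.1
      refine ⟨pr_mul_le.2 fun w hw => habs _ _ ?_, ?_⟩
      · obtain ⟨z, hz, e⟩ := rl_index l1 l2 r1 r2 w hw
        exact ⟨z, hz, e⟩
      · rintro _ ⟨z, hz, rfl⟩
        exact r1 z hz
    have hio : Set.InjOn (fun M' : Lt × Lt => M'.1.map (cteL α β))
        {M' ∈ S | pr (n.natAbs : ℕ) * M'.2 = pr (n.natAbs : ℕ) * M.2} := by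
      intro M₁ h₁ M₂ h₂ e
      exact Prod.ext (Submodule.map_injective_of_injective hinj e)
        ((hmap M₁ h₁).trans (hmap M₂ h₂).symm)
    exact ⟨Set.Finite.of_injOn hto hio k1, (Set.ncard_le_ncard_of_injOn _ hto hio k1).trans k2⟩

end Pool.Agent.EQ
end
end

-- part Pool.Agent.P.MP_ad7a55_nt.GalA2
section

/-! Galois conjugates of CM lattices. -/

set_option autoImplicit false

noncomputable section

open MeasureTheory Topology Filter UpperHalfPlane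
open scoped MatrixGroups ENNReal BoundedContinuousFunction

namespace Pool.Agent.EQ

open Classical in
/-- The module `𝔞` or its conjugate, according to the action of `σ` on `√D`. -/
def tw (σ : ℂ ≃+* ℂ) (D : ℤ) (𝔞 : Lt) : Lt := if σ (th D) = th D then 𝔞 else cj 𝔞

theorem galA2_mul_mem {D : ℤ} (hD : IsD D) {x y : ℂ} (hx : x ∈ OD D) (hy : y ∈ OD D) :
    x * y ∈ OD D :=
  pr_mul_le.1 (((discL_OD hD).end_iff x).2 hx) y hy

theorem galA2_disc_uniq {Λ : Lt} {D D' : ℤ} (h : DiscL Λ D) (h' : DiscL Λ D') : D = D' :=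
  OD_inj h.isD.1 h'.isD.1 (Submodule.ext fun x => (h.end_iff x).symm.trans (h'.end_iff x))

theorem galA2_tw_mul (σ : ℂ ≃+* ℂ) (D : ℤ) (𝔞 𝔟 : Lt) :
    tw σ D (𝔞 * 𝔟) = tw σ D 𝔞 * tw σ D 𝔟 := by
  unfold tw
  split_ifs
  · rfl
  · exact cj_mul _ _

theorem galA2_tw_pow (σ : ℂ ≃+* ℂ) (D : ℤ) (𝔞 : Lt) (n : ℕ) :
    tw σ D (𝔞 ^ (n + 1)) = tw σ D 𝔞 ^ (n + 1) := by
  induction n with
  | zero => rw [zero_add, pow_one, pow_one]
  | succ n ih => rw [pow_succ, galA2_tw_mul, ih, ← pow_succ]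

theorem galA2_tw_OD (σ : ℂ ≃+* ℂ) (D : ℤ) : tw σ D (OD D) = OD D := by
  unfold tw
  split_ifs
  · rfl
  · exact cj_OD D

theorem galA2_tw_pr (σ : ℂ ≃+* ℂ) (D : ℤ) {c : ℂ} (hc : c ≠ 0) :
    ∃ c' : ℂ, c' ≠ 0 ∧ tw σ D (pr c) = pr c' := by
  unfold tw
  split_ifs
  · exact ⟨c, hc, rfl⟩
  · exact ⟨_, (map_ne_zero _).2 hc, cj_pr c⟩

theorem galA2_tw_discL (σ : ℂ ≃+* ℂ) {D : ℤ} {𝔞 : Lt} (h : DiscL 𝔞 D) : DiscL (tw σ D 𝔞) D := by
  unfold tw
  split_ifs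
  · exact h
  · exact h.cj

theorem galA2_tw_prI (σ : ℂ ≃+* ℂ) {D : ℤ} {q : ℕ} {𝔮 : Lt} (h : PrI D q 𝔮) :
    PrI D q (tw σ D 𝔮) := by
  unfold tw
  split_ifs
  · exact h
  · exact h.cj

theorem galA2_tw_mem (σ : ℂ ≃+* ℂ) {D : ℤ} (hD : D ≤ 0) {α : ℂ} (h : α ∈ OD D) :
    tw σ D (pr α) = pr (σ α) ∧ σ α ∈ OD D := by
  have h' := h
  obtain ⟨m, n, rfl⟩ := mem_sp.1 h'
  unfold tw
  split_ifs with h1
  · have e : σ ((m : ℂ) * 1 + n * ((D + th D) / 2)) = (m : ℂ) * 1 + n * ((D + th D) / 2) := by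
      simp only [map_add, map_mul, map_intCast, map_one, map_div₀, map_ofNat, h1]
    rw [e]
    exact ⟨rfl, h⟩
  · have h2 := (aut_th σ hD).resolve_left h1
    have e : σ ((m : ℂ) * 1 + n * ((D + th D) / 2)) =
        starRingEnd ℂ ((m : ℂ) * 1 + n * ((D + th D) / 2)) := by
      simp only [map_add, map_mul, map_intCast, map_one, map_div₀, map_ofNat, h2, conj_th]
    rw [e]
    refine ⟨cj_pr _, ?_⟩
    rw [← mem_cj, cj_OD]
    exact h

theorem comm_prime (σ : ℂ ≃+* ℂ) {D : ℤ} (hD : D < -576) {q : ℕ} {𝔮 Λ M : Lt} (h𝔮 : PrI D q 𝔮)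
    (h : DiscL Λ D) (hM : IsLat M) (hj : jL M = σ (jL Λ)) :
    jL (tw σ D 𝔮 * M) = σ (jL (𝔮 * Λ)) := by
  have hD0 : D < 0 := by omega
  have hq := h𝔮.1
  have hO := discL_OD h.isD
  have hMD := disc_gal σ hD h hM hj
  have h𝔮D := h𝔮.discL hD0
  obtain ⟨n, α, hα, hpow⟩ := h𝔮D.pow_principal
  have hqΛ : DiscL (𝔮 * Λ) D := h𝔮D.mul h le_rfl
  have hch := (h𝔮.ch hqΛ n).1
  have e1 : 𝔮 ^ n * (𝔮 * Λ) = pr α * Λ := by
    rw [← mul_assoc, ← pow_succ, hpow, mul_assoc, h.OD_mul]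
  rw [e1] at hch
  obtain ⟨M1, hM1, hj1, hd1⟩ := hecke_gal σ hq h.isLat hM hj (h𝔮.nb h)
  have hM1L := hM1.isLat hq hM
  obtain ⟨M', hM', hj', hd'⟩ := ch_gal σ hch hqΛ.isLat hM1L hj1
  obtain ⟨-, hM'L, hle', -⟩ := hM'.spec hM1L
  obtain ⟨-, -, -, hle2⟩ := (Ch.step hq hM1 hM').spec hM
  rw [jL_pr_mul h.isLat hα, ← hj] at hj'
  obtain ⟨β, hβ, rfl⟩ := jL_inj hM hM'L hj'.symm
  have hαO : α ∈ OD D := by
    have h1 : 𝔮 ^ (n + 1) ≤ OD D := by
      have h2 := h𝔮.pow_sup hD0 n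
      exact (le_sup_left.trans h2.le).trans h𝔮.le
    rw [hpow] at h1
    exact (hO.end_iff α).1 h1
  obtain ⟨htw, hσα⟩ := galA2_tw_mem σ hD0.le hαO
  have h12 : (σ α / β) ^ 12 = 1 := by
    have a1 := dL_ne_zero hM
    have a2 := dL_ne_zero hM1L
    have a3 := dL_ne_zero h.isLat
    have a4 := dL_ne_zero hqΛ.isLat
    have e2 : dL (pr β * M) / dL M1 * (dL M1 / dL M) =
        σ (dL (pr α * Λ) / dL (𝔮 * Λ) * (dL (𝔮 * Λ) / dL Λ)) := by
      rw [map_mul, hd', hd1]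
    rw [dL_pr_mul hM hβ, dL_pr_mul h.isLat hα] at e2
    have e3 : dL M / β ^ 12 / dL M1 * (dL M1 / dL M) = (β ^ 12)⁻¹ := by field_simp
    have e4 : dL Λ / α ^ 12 / dL (𝔮 * Λ) * (dL (𝔮 * Λ) / dL Λ) = (α ^ 12)⁻¹ := by field_simp
    rw [e3, e4, map_inv₀, map_pow, inv_inj] at e2
    rw [div_pow, ← e2, div_self (pow_ne_zero _ hβ)]
  have hq0 : ((q * q ^ n : ℕ) : ℤ) ≠ 0 := by
    exact_mod_cast (mul_pos hq.pos (pow_pos hq.pos n)).ne'
  have hmem1 : (((q * q ^ n : ℕ) : ℤ) : ℂ) * (σ α / β) ∈ OD D := by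
    have h1 : pr (((q * q ^ n : ℕ) : ℂ) / β) * M ≤ M := by
      rw [← pr_mul_le_iff hβ, ← mul_assoc, pr_mul_pr, mul_div_cancel₀ _ hβ]
      exact hle2
    have h2 := galA2_mul_mem h.isD ((hMD.end_iff _).1 h1) hσα
    convert h2 using 1
    rw [Int.cast_natCast]
    ring
  have hmem2 := root_mem hD0 h12 hq0 hmem1
  have hmem : σ α / β ∈ OD D := by
    have hc : IsCoprime ((q * q ^ n : ℕ) : ℤ) (2 * D) := by
      rw [← pow_succ', Nat.cast_pow]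
      exact ((Nat.prime_iff_prime_int.1 hq).coprime_iff_not_dvd.2 h𝔮.2.1).pow_left
    obtain ⟨u, v, huv⟩ := hc
    have h1 := (OD D).add_mem ((OD D).smul_mem u hmem1) ((OD D).smul_mem v hmem2)
    convert h1 using 1
    have h2 := congrArg (Int.cast : ℤ → ℂ) huv
    simp only [Int.cast_add, Int.cast_mul, Int.cast_one, Int.cast_ofNat] at h2
    simp only [zsmul_eq_mul]
    linear_combination (-(σ α / β)) * h2
  have hle3 : pr (σ α) * M ≤ M1 := by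
    have h1 : pr (σ α) * M = pr β * (pr (σ α / β) * M) := by
      rw [← mul_assoc, pr_mul_pr, mul_div_cancel₀ _ hβ]
    rw [h1]
    exact ((pr_mul_le_iff hβ).2 ((hMD.end_iff _).2 hmem)).trans hle'
  have h𝔮' := galA2_tw_prI σ h𝔮
  have hle4 : tw σ D 𝔮 * M ≤ M1 := by
    rw [← h𝔮'.pow_sup hD0 n, Submodule.sup_mul, ← galA2_tw_pow, hpow, galA2_tw_mul, htw,
      galA2_tw_OD, mul_assoc, mul_assoc, hMD.OD_mul]
    exact sup_le hle3 hM1.1.le
  rw [Nb.eq_of_le hq hM (h𝔮'.nb hMD) hM1 hle4, hj1]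

theorem comm_gal (σ : ℂ ≃+* ℂ) {D : ℤ} (hD : D < -576) {𝔞 Λ M : Lt} (h𝔞 : DiscL 𝔞 D)
    (h : DiscL Λ D) (hM : IsLat M) (hj : jL M = σ (jL Λ)) :
    jL (tw σ D 𝔞 * M) = σ (jL (𝔞 * Λ)) := by
  have hMD := disc_gal σ hD h hM hj
  refine fac (N := 1) one_pos (fun 𝔞 => jL (tw σ D 𝔞 * M) = σ (jL (𝔞 * Λ))) ?_ ?_ ?_ h𝔞
  · rw [galA2_tw_OD, hMD.OD_mul, h.OD_mul, hj]
  · intro 𝔞 c hc h1 h2
    obtain ⟨c', hc', e⟩ := galA2_tw_pr σ D hc
    rw [galA2_tw_mul, e, mul_assoc, mul_assoc,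
      jL_pr_mul ((galA2_tw_discL σ h1).mul hMD le_rfl).isLat hc',
      jL_pr_mul (h1.mul h le_rfl).isLat hc, h2]
  · intro 𝔞 q 𝔮 h𝔮 _ h1 h2
    rw [galA2_tw_mul, mul_assoc, mul_assoc]
    exact comm_prime σ hD h𝔮 (h1.mul h le_rfl) ((galA2_tw_discL σ h1).mul hMD le_rfl).isLat h2

/-- `σ` acts on the lattices of discriminant `D` as multiplication by `𝔨`. -/
def Acts (σ : ℂ ≃+* ℂ) (D : ℤ) (𝔨 : Lt) : Prop := ∀ Λ, DiscL Λ D → σ (jL Λ) = jL (𝔨 * Λ)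

theorem acts_of_OD {σ : ℂ ≃+* ℂ} {D : ℤ} (hD : D < -576) (hσ : σ (th D) = th D) {𝔨 : Lt}
    (h𝔨 : DiscL 𝔨 D) (h : σ (jL (OD D)) = jL 𝔨) : Acts σ D 𝔨 := by
  intro Λ hΛ
  have h1 := comm_gal σ hD hΛ (discL_OD h𝔨.isD) h𝔨.isLat h.symm
  rw [tw, if_pos hσ, mul_comm Λ (OD D), hΛ.OD_mul, mul_comm] at h1
  exact h1.symm

theorem exists_acts {σ : ℂ ≃+* ℂ} {D : ℤ} (hD : D < -576) (hD' : IsD D) (hσ : σ (th D) = th D) :
    ∃ 𝔨, DiscL 𝔨 D ∧ Acts σ D 𝔨 := by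
  obtain ⟨𝔨, h1, h2⟩ := jL_surj (σ (jL (OD D)))
  have h3 := disc_gal σ hD (discL_OD hD') h1 h2
  exact ⟨𝔨, h3, acts_of_OD hD hσ h3 h2.symm⟩

theorem exists_anti {σ : ℂ ≃+* ℂ} {D : ℤ} (hD : D < -576) (hD' : IsD D) (hσ : σ (th D) = -th D) :
    ∃ 𝔪, DiscL 𝔪 D ∧ ∀ Λ, DiscL Λ D → σ (jL Λ) = jL (𝔪 * cj Λ) := by
  obtain ⟨𝔪, h1, h2⟩ := jL_surj (σ (jL (OD D)))
  have h3 := disc_gal σ hD (discL_OD hD') h1 h2
  refine ⟨𝔪, h3, fun Λ hΛ => ?_⟩
  have hne : ¬ σ (th D) = th D := by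
    rw [hσ]
    intro h4
    have h5 : th D = 0 := by linear_combination (-1 / 2 : ℂ) * h4
    have h6 := th_sq hD'.1.le
    rw [h5, zero_pow two_ne_zero] at h6
    exact hD'.1.ne (by exact_mod_cast h6.symm)
  have h4 := comm_gal σ hD hΛ (discL_OD hD') h1 h2
  rw [tw, if_neg hne, mul_comm Λ (OD D), hΛ.OD_mul, mul_comm] at h4
  exact h4.symm

theorem galA2_isD {D : ℤ} (hD : IsD D) {g : ℕ} (hg : 0 < g) : IsD (g ^ 2 * D) := by
  refine ⟨mul_neg_of_pos_of_neg (by positivity) hD.1, ?_⟩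
  have h1 : (g : ℤ) ^ 2 % 4 = 0 ∨ (g : ℤ) ^ 2 % 4 = 1 := by
    have h2 : (g : ℤ) % 4 = 0 ∨ (g : ℤ) % 4 = 1 ∨ (g : ℤ) % 4 = 2 ∨ (g : ℤ) % 4 = 3 := by omega
    rcases h2 with h | h | h | h <;> simp [pow_two, Int.mul_emod, h]
  rcases h1 with h | h <;> rcases hD.2 with h' | h' <;> simp [Int.mul_emod, h, h']

theorem galA2_step {σ : ℂ ≃+* ℂ} {D : ℤ} (hD : D < -576) (hD' : IsD D) (hσ : σ (th D) = th D)
    {l : ℕ} (hl : l.Prime) {𝔨 : Lt} (h𝔨 : DiscL 𝔨 (l ^ 2 * D)) (h : Acts σ (l ^ 2 * D) 𝔨) :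
    DiscL (𝔨 * OD D) D ∧ Acts σ D (𝔨 * OD D) := by
  have hO := discL_OD hD'
  have hO2 := discL_OD h𝔨.isD
  have hl0 : (l : ℂ) ≠ 0 := Nat.cast_ne_zero.2 hl.ne_zero
  have hne : (l : ℤ) ^ 2 * D ≠ D := by
    have h2 : (2 : ℤ) ≤ l := by exact_mod_cast hl.two_le
    have h3 : (4 : ℤ) ≤ (l : ℤ) ^ 2 := by nlinarith
    nlinarith [hD'.1]
  have hle := OD_sq_le hD' l
  have hk : DiscL (𝔨 * OD D) D := h𝔨.mul hO hle
  refine ⟨hk, acts_of_OD hD hσ hk ?_⟩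
  have hnb : Nb l (OD (l ^ 2 * D)) (pr l * OD D) := by
    refine ⟨lt_of_le_of_ne ((pr_mul_le_iff hl0).2 hle) fun e => hne ?_,
      lt_of_le_of_ne ?_ fun e => hne ?_⟩
    · exact galA2_disc_uniq (hO2.pr_mul hl0) (e ▸ hO.pr_mul hl0)
    · rw [OD_sq_mul hD', pr_mul_le]
      intro w hw
      obtain ⟨m, n, rfl⟩ := mem_sp.1 hw
      exact mem_sp.2 ⟨l * m, n, by push_cast; ring⟩
    · exact galA2_disc_uniq hO2 (e ▸ hO.pr_mul hl0)
  have hj : jL 𝔨 = σ (jL (OD (l ^ 2 * D))) := by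
    rw [h _ hO2, mul_comm, h𝔨.OD_mul]
  obtain ⟨M', hM', hj', -⟩ := hecke_gal σ hl hO2.isLat h𝔨.isLat hj hnb
  rw [jL_pr_mul hO.isLat hl0] at hj'
  have hM'D := disc_gal σ hD hO (hM'.isLat hl h𝔨.isLat) hj'
  have hle2 : pr l * (𝔨 * OD D) ≤ M' := by
    rw [← mul_assoc, mul_comm, ← hM'D.OD_mul]
    exact mul_le_mul' le_rfl hM'.1.le
  have hnb2 : Nb l 𝔨 (pr l * (𝔨 * OD D)) := by
    refine ⟨lt_of_le_of_ne ((pr_mul_le_iff hl0).2 fun x hx => ?_) fun e => hne ?_,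
      hle2.trans_lt hM'.2⟩
    · simpa using Submodule.mul_mem_mul hx (one_mem_OD D)
    · exact galA2_disc_uniq (h𝔨.pr_mul hl0) (e ▸ hk.pr_mul hl0)
  rw [← hj', ← Nb.eq_of_le hl h𝔨.isLat hnb2 hM' hle2, jL_pr_mul hk.isLat hl0]

/-- Going up. -/
theorem Acts.up {σ : ℂ ≃+* ℂ} {D : ℤ} (hD : D < -576) (hD' : IsD D) (hσ : σ (th D) = th D) {f : ℕ}
    (hf : 0 < f) {𝔨 : Lt} (h𝔨 : DiscL 𝔨 (f ^ 2 * D)) (h : Acts σ (f ^ 2 * D) 𝔨) : Acts σ D 𝔨 := by
  induction f using induction_on_primes generalizing 𝔨 with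
  | zero => exact absurd hf (lt_irrefl 0)
  | one => simpa using h
  | prime_mul l g hl ih =>
    have hg : 0 < g := Nat.pos_of_mul_pos_left hf
    have e : ((l * g : ℕ) : ℤ) ^ 2 * D = (l : ℤ) ^ 2 * ((g : ℤ) ^ 2 * D) := by push_cast; ring
    rw [e] at h𝔨 h
    have hlt : (g : ℤ) ^ 2 * D < -576 := by
      have h1 : (1 : ℤ) ≤ g := by exact_mod_cast hg
      have h2 : (1 : ℤ) ≤ (g : ℤ) ^ 2 := by nlinarith
      nlinarith [hD'.1]
    have hσ' : σ (th (g ^ 2 * D)) = th (g ^ 2 * D) := by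
      rw [th_mul_sq, map_mul, map_natCast, hσ]
    obtain ⟨h1, h2⟩ := galA2_step hlt (galA2_isD hD' hg) hσ' hl h𝔨 h
    intro Λ hΛ
    have h3 : OD (g ^ 2 * D) * Λ = Λ := by
      apply le_antisymm
      · exact (mul_le_mul' (OD_sq_le hD' g) le_rfl).trans hΛ.OD_mul.le
      · intro x hx
        simpa using Submodule.mul_mem_mul (one_mem_OD (g ^ 2 * D)) hx
    rw [ih hg h1 h2 Λ hΛ, mul_assoc, h3]

end Pool.Agent.EQ
end
end

-- part Pool.Agent.P.MP_ad7a55_nt.Join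
section

/-! The joining theorem. -/

set_option autoImplicit false

noncomputable section

open MeasureTheory Topology Filter UpperHalfPlane
open scoped MatrixGroups ENNReal BoundedContinuousFunction

namespace Pool.Agent.EQ

variable (p : ℕ) [Fact p.Prime]

theorem join_meas_sigma {Z : Type} [TopologicalSpace Z] [T2Space Z] [MeasurableSpace Z]
    [OpensMeasurableSpace Z] {s : Set Z} (h : IsSigmaCompact s) : MeasurableSet s := by
  obtain ⟨K, hK, rfl⟩ := h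
  exact MeasurableSet.iUnion fun n => (hK n).measurableSet

/-- The singular set is a countable union of compact sets. -/
theorem join_measurableSet_NN (d₁ d₂ : ℚ_[p]) : MeasurableSet (NN p d₁ d₂) := by
  have : LocallyCompactSpace (Matrix (Fin 2) (Fin 2) ℝ) :=
    inferInstanceAs (LocallyCompactSpace (Fin 2 → Fin 2 → ℝ))
  have : LocallyCompactSpace (Matrix (Fin 2) (Fin 2) ℚ_[p]) :=
    inferInstanceAs (LocallyCompactSpace (Fin 2 → Fin 2 → ℚ_[p]))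
  have : SecondCountableTopology (Matrix (Fin 2) (Fin 2) ℝ) :=
    inferInstanceAs (SecondCountableTopology (Fin 2 → Fin 2 → ℝ))
  have : SecondCountableTopology (Matrix (Fin 2) (Fin 2) ℚ_[p]) :=
    inferInstanceAs (SecondCountableTopology (Fin 2 → Fin 2 → ℚ_[p]))
  have : Countable (Matrix (Fin 2) (Fin 2) ℚ) :=
    inferInstanceAs (Countable (Fin 2 → Fin 2 → ℚ))
  let S : Matrix (Fin 2) (Fin 2) ℚ → Set ((GG p × GG p) × MM p) := fun ξ =>
    {z | IsHom p z.1.1 z.1.2 ξ z.2 ∧ z.2.2 1 0 = 0 ∧ d₁ * z.2.2 0 0 = d₂ * z.2.2 1 1}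
  let F : (GG p × GG p) × MM p → XX p × XX p := fun z => ((z.1.1 : XX p), (z.1.2 : XX p))
  have hF : Continuous F :=
    (QuotientGroup.continuous_mk.comp continuous_fst.fst).prodMk
      (QuotientGroup.continuous_mk.comp continuous_fst.snd)
  have hS : ∀ ξ, IsClosed (S ξ) := by
    intro ξ
    have c1 : Continuous fun z : (GG p × GG p) × MM p =>
        (z.1.1.1 : Matrix (Fin 2) (Fin 2) ℝ) := continuous_subtype_val.comp continuous_fst.fst.fst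
    have c2 : Continuous fun z : (GG p × GG p) × MM p =>
        (z.1.2.1 : Matrix (Fin 2) (Fin 2) ℝ) := continuous_subtype_val.comp continuous_fst.snd.fst
    have c3 : Continuous fun z : (GG p × GG p) × MM p =>
        (z.1.1.2 : Matrix (Fin 2) (Fin 2) ℚ_[p]) :=
      continuous_subtype_val.comp continuous_fst.fst.snd
    have c4 : Continuous fun z : (GG p × GG p) × MM p =>
        (z.1.2.2 : Matrix (Fin 2) (Fin 2) ℚ_[p]) :=
      continuous_subtype_val.comp continuous_fst.snd.snd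
    have c5 : ∀ i j, Continuous fun z : (GG p × GG p) × MM p => z.2.2 i j := fun i j =>
      continuous_snd.snd.matrix_elem i j
    refine IsClosed.inter (IsClosed.inter ?_ ?_) (IsClosed.inter ?_ ?_)
    · exact isClosed_eq (continuous_snd.fst.matrix_mul c1) (c2.matrix_mul continuous_const)
    · exact isClosed_eq (continuous_snd.snd.matrix_mul c3) (c4.matrix_mul continuous_const)
    · exact isClosed_eq (c5 1 0) continuous_const
    · exact isClosed_eq (continuous_const.mul (c5 0 0)) (continuous_const.mul (c5 1 1))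
  have hE : NN p d₁ d₂ = ⋃ ξ : Matrix (Fin 2) (Fin 2) ℚ,
      ⋃ _ : (∃ q : ℕ, 0 < q ∧ ∀ i j, InZp p (q * ξ i j)) ∧ ξ.det ≠ 0, F '' S ξ := by
    ext w
    simp only [Set.mem_iUnion]
    constructor
    · rintro ⟨q, hq, δ, hδ, P, ⟨g, g', hg, hg', ξ, h1, h2, h3⟩, h4, h5⟩
      exact ⟨ξ, ⟨⟨q, hq, h1⟩, h2 ▸ hδ⟩, ((g, g'), P), ⟨h3, h4, h5⟩, Prod.ext hg hg'⟩
    · rintro ⟨ξ, ⟨⟨q, hq, h1⟩, h2⟩, ⟨⟨g, g'⟩, P⟩, ⟨h3, h4, h5⟩, rfl⟩
      exact ⟨q, hq, ξ.det, h2, P, ⟨g, g', rfl, rfl, ξ, h1, rfl, h3⟩, h4, h5⟩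
  rw [hE]
  refine MeasurableSet.iUnion fun ξ => MeasurableSet.iUnion fun _ => join_meas_sigma ?_
  exact (isSigmaCompact_univ.of_isClosed_subset (hS ξ) (Set.subset_univ _)).image hF

theorem join_single {κ : Type} [DecidableEq κ] (l : κ) (g : SL(2, ℝ)) :
    (fun k => ((Pi.mulSingle (M := fun _ => SL(2, ℝ)) l g k, 1) : GG p)) =
      Pi.mulSingle (M := fun _ => GG p) l (g, 1) := by
  funext k
  by_cases h : k = l
  · subst h; simp
  · simp [Pi.mulSingle_eq_of_ne h, Prod.one_eq_mk]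

/-- One step: an ergodic measure all of whose proper marginals are product measures. -/
theorem join_step {κ : Type} [Fintype κ] [DecidableEq κ] (d : κ → ℚ_[p]) (hd : ∀ k, d k ≠ 0)
    (ρ : Measure (κ → XX p)) [IsProbabilityMeasure ρ] (hρ : Erg (ufl p d) ρ)
    (hm : ∀ k, ρ.map (fun w => w k) = mX p)
    (hr : ∀ k, ρ.map (res p k) = mP p {j // j ≠ k}) {k m : κ} (hk : k ≠ m)
    (hN : ρ {w | (w k, w m) ∈ NN p (d k) (d m)} = 0) : ρ = mP p κ := by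
  rcases hprin p d m (hd m) ρ hρ with hU | ⟨C, hC, h0, V, hV, hR⟩
  · exact pi_of_free (free_of_U (hm m) hU) (hr m)
  rcases tri (StabR p ρ) m (rigid_full p ρ m (hr m) hC h0 hV hR) k hk with
    ⟨g, hg, h⟩ | ⟨l, h⟩ | ⟨hall, hc, θ, hθ, hg⟩
  · rw [mem_StabR, join_single] at h
    exact pi_of_free (free_of_hyp (hm m) hg h) (hr m)
  · refine pi_of_free (k := l) (free_of_R fun g => ?_) (hr l)
    have := h g
    rwa [mem_StabR, join_single] at this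
  exfalso
  have hs : ∀ g : SL(2, ℝ), ∃ h ∈ StabR p ρ, h m = g := by
    intro g
    obtain ⟨a, rfl⟩ := hθ.surj g
    exact ⟨_, hg a, by simp [Pi.mulSingle_eq_of_ne hk.symm]⟩
  obtain ⟨D, hD, hD0, hD1⟩ := rigid_atom p ρ m hC h0 hV hR hc hs
  let F : (κ → XX p) → XX p × XX p := fun w => (w k, w m)
  have hF : Continuous F := (continuous_apply k).prodMk (continuous_apply m)
  have : IsProbabilityMeasure (ρ.map F) :=
    Measure.isProbabilityMeasure_map hF.measurable.aemeasurable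
  have hI : Inv (ufl2 p (d k) (d m)) (ρ.map F) := by
    intro s
    have h1 : Measurable (ufl2 p (d k) (d m) s) :=
      ((ufl2 p (d k) (d m)).continuous continuous_const continuous_id).measurable
    have h2 : Measurable (ufl p d s) :=
      ((ufl p d).continuous continuous_const continuous_id).measurable
    have h3 : ufl2 p (d k) (d m) s ∘ F = F ∘ ufl p d s := rfl
    rw [Measure.map_map h1 hF.measurable, h3, ← Measure.map_map hF.measurable h2, hρ.inv s]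
  have hG : ∀ h : SL(2, ℝ), (ρ.map F).map
      (fun w => (((h, 1) : GG p) • w.1, ((θ h, 1) : GG p) • w.2)) = ρ.map F := by
    intro h
    have h0 := hg h
    rw [mem_StabR, mem_Stab] at h0
    have h1 : Measurable fun w : XX p × XX p =>
        (((h, 1) : GG p) • w.1, ((θ h, 1) : GG p) • w.2) :=
      Continuous.measurable (by fun_prop)
    rw [Measure.map_map h1 hF.measurable]
    conv_rhs => rw [← h0]
    rw [Measure.map_map hF.measurable (measurable_const_smul _)]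
    congr 1
    funext w
    simp [F, Pi.mulSingle_eq_of_ne hk, Pi.mulSingle_eq_of_ne hk.symm]
  have hpos : ρ.map F (F '' D) ≠ 0 := by
    rw [Measure.map_apply hF.measurable (hD.image hF).measurableSet]
    exact fun h => hD0 (measure_mono_null (Set.subset_preimage_image F D) h)
  have hY : ∀ x z z', (x, z) ∈ F '' D → (x, z') ∈ F '' D → toY p z = toY p z' := by
    rintro x z z' ⟨w, hw, h1⟩ ⟨w', hw', h2⟩
    simp only [F, Prod.mk.injEq] at h1 h2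
    rw [← h1.2, ← h2.2]
    refine hD1 w hw w' hw' fun l hl => ?_
    rcases hall l with rfl | rfl
    · rw [h1.1, h2.1]
    · exact absurd rfl hl
  have := pair p (hd k) (hd m) hθ (ρ.map F) hI hG (hD.image hF) hpos hY
  rw [Measure.map_apply hF.measurable (join_measurableSet_NN p _ _)] at this
  exact this hN

theorem join_small {κ : Type} [Fintype κ] [Subsingleton κ]
    (ν : Measure (κ → XX p)) [IsProbabilityMeasure ν]
    (hm : ∀ k, ν.map (fun w => w k) = mX p) : ν = mP p κ := by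
  refine (Measure.pi_eq fun s hs => ?_).symm
  rcases isEmpty_or_nonempty κ with h | ⟨⟨k⟩⟩
  · simp [Set.pi]
  · have h1 : Set.pi Set.univ s = (fun w : κ → XX p => w k) ⁻¹' s k := by
      ext w
      simp only [Set.mem_pi, Set.mem_univ, true_imp_iff, Set.mem_preimage]
      exact ⟨fun h => h k, fun h j => by rwa [Subsingleton.elim j k]⟩
    rw [h1, ← Measure.map_apply (measurable_pi_apply k) (hs k), hm, Fintype.prod_subsingleton _ k]

theorem join_aux (n : ℕ) : ∀ (κ : Type) [Fintype κ] [DecidableEq κ], Fintype.card κ ≤ n →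
    ∀ (d : κ → ℚ_[p]), (∀ k, d k ≠ 0) → ∀ (ν : Measure (κ → XX p)) [IsProbabilityMeasure ν],
    Inv (ufl p d) ν → (∀ k, ν.map (fun w => w k) = mX p) →
    (∀ k l, k ≠ l → ν {w | (w k, w l) ∈ NN p (d k) (d l)} = 0) → ν = mP p κ := by
  induction n with
  | zero =>
    intro κ _ _ hc d _ ν _ _ hm _
    have : Subsingleton κ := Fintype.card_le_one_iff_subsingleton.1 (by omega)
    exact join_small p ν hm
  | succ n ih =>
    intro κ _ _ hc d hd ν _ hν hm hN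
    rcases subsingleton_or_nontrivial κ with hs | hs
    · exact join_small p ν hm
    have hmeas : ∀ {ι : Type} (e : ι → ℚ_[p]) (a b : ι),
        MeasurableSet {w : ι → XX p | (w a, w b) ∈ NN p (e a) (e b)} := fun e a b =>
      ((measurable_pi_apply a).prodMk (measurable_pi_apply b)) (join_measurableSet_NN p _ _)
    have hr : ∀ j, ν.map (res p j) = mP p {i // i ≠ j} := by
      intro j
      have hj := (continuous_res p j).measurable
      have : IsProbabilityMeasure (ν.map (res p j)) :=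
        Measure.isProbabilityMeasure_map hj.aemeasurable
      refine ih {i // i ≠ j} ?_ (fun i => d i.1) (fun i => hd i.1) _ ?_ ?_ ?_
      · have : Fintype.card {i // i ≠ j} < Fintype.card κ :=
          Fintype.card_subtype_lt (x := j) (by simp)
        omega
      · intro s
        have h1 : Measurable (ufl p (fun i : {i // i ≠ j} => d i.1) s) :=
          ((ufl p _).continuous continuous_const continuous_id).measurable
        have h2 : Measurable (ufl p d s) :=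
          ((ufl p d).continuous continuous_const continuous_id).measurable
        have h3 : ufl p (fun i : {i // i ≠ j} => d i.1) s ∘ res p j = res p j ∘ ufl p d s := rfl
        rw [Measure.map_map h1 hj, h3, ← Measure.map_map hj h2, hν s]
      · intro i
        rw [Measure.map_map (measurable_pi_apply i) hj]
        exact hm i.1
      · intro a b hab
        rw [Measure.map_apply hj (hmeas (fun i : {i // i ≠ j} => d i.1) a b)]
        exact hN a.1 b.1 fun h => hab (Subtype.ext h)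
    obtain ⟨k, m, hk⟩ := exists_pair_ne κ
    obtain ⟨ρ, hρ, hb, hg⟩ := decomp ν hν
    have h1 : ∀ᵐ w ∂ν, ∀ j, Gen (ufl p fun i : {i // i ≠ j} => d i.1) (mP p {i // i ≠ j})
        (res p j w) := by
      refine ae_all_iff.2 fun j => ?_
      refine ae_of_ae_map (continuous_res p j).measurable.aemeasurable ?_
      rw [hr j]
      exact erg_mP p _ fun i => hd i.1
    have h2 : ∀ᵐ w ∂ν, ρ w {w | (w k, w m) ∈ NN p (d k) (d m)} = 0 := by
      have h := hN k m hk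
      rw [← hb, Measure.bind_apply (hmeas d k m) ρ.measurable.aemeasurable,
        lintegral_eq_zero_iff (ρ.measurable_coe (hmeas d k m))] at h
      exact h
    have h3 : ∀ᵐ w ∂ν, ρ w = mP p κ := by
      filter_upwards [hg, h1, h2] with w hw hw1 hw2
      have hres : ∀ j, (ρ w).map (res p j) = mP p {i // i ≠ j} := by
        intro j
        have : IsProbabilityMeasure ((ρ w).map (res p j)) :=
          Measure.isProbabilityMeasure_map (continuous_res p j).measurable.aemeasurable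
        exact (Gen.map (ufl p fun i : {i // i ≠ j} => d i.1) (continuous_res p j)
          (fun _ _ => rfl) hw.1).unique (hw1 j)
      refine join_step p d hd (ρ w) hw.2 (fun i => ?_) hres hk hw2
      obtain ⟨j, hj⟩ := exists_ne i
      have h4 : (fun w : κ → XX p => w i) =
          (fun w : {i // i ≠ j} → XX p => w ⟨i, hj.symm⟩) ∘ res p j := rfl
      rw [h4, ← Measure.map_map (measurable_pi_apply _) (continuous_res p j).measurable, hres j]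
      exact (measurePreserving_eval (fun _ : {i // i ≠ j} => mX p) ⟨i, hj.symm⟩).map_eq
    rw [← hb, Measure.bind_congr_right h3]
    simp

theorem join (κ : Type) [Fintype κ] [DecidableEq κ] (d : κ → ℚ_[p]) (hd : ∀ k, d k ≠ 0)
    (ν : Measure (κ → XX p)) [IsProbabilityMeasure ν] (hν : Inv (ufl p d) ν)
    (hm : ∀ k, ν.map (fun w => w k) = mX p)
    (hN : ∀ k l, k ≠ l → ν {w | (w k, w l) ∈ NN p (d k) (d l)} = 0) : ν = mP p κ :=
  join_aux p _ κ le_rfl d hd ν hν hm hN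

end Pool.Agent.EQ
end
end

-- part Pool.Agent.P.MP_ad7a55_nt.SgE
section

/-! The quadratic character of a discriminant and a lower bound for ideals. -/

set_option autoImplicit false

noncomputable section

open MeasureTheory Topology Filter UpperHalfPlane
open scoped MatrixGroups ENNReal BoundedContinuousFunction

namespace Pool.Agent.EQ

/-- The Jacobi symbol as a function of the lower argument. -/
def sgeF (D : ℤ) (x : ZMod (4 * D.natAbs)) : ℂ :=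
  if Odd x.val then (jacobiSym D x.val : ℂ) else 0

theorem sgeF_nat (D : ℤ) (n : ℕ) :
    sgeF D (n : ZMod (4 * D.natAbs)) = if Odd n then (jacobiSym D n : ℂ) else 0 := by
  have h1 : Odd (n % (4 * D.natAbs)) ↔ Odd n := by
    rw [Nat.odd_iff, Nat.odd_iff, Nat.mod_mod_of_dvd _ ⟨2 * D.natAbs, by ring⟩]
  rw [sgeF, ZMod.val_natCast]
  by_cases h : Odd n
  · rw [if_pos (h1.2 h), if_pos h, ← jacobiSym.mod_right D h]
  · rw [if_neg (mt h1.1 h), if_neg h]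

/-- The quadratic character. -/
def sgeChi (D : ℤ) [NeZero (4 * D.natAbs)] : DirichletCharacter ℂ (4 * D.natAbs) where
  toFun := sgeF D
  map_one' := by
    have := sgeF_nat D 1
    simpa using this
  map_mul' x y := by
    obtain ⟨a, rfl⟩ := ZMod.natCast_zmod_surjective x
    obtain ⟨b, rfl⟩ := ZMod.natCast_zmod_surjective y
    rw [← Nat.cast_mul, sgeF_nat, sgeF_nat, sgeF_nat]
    by_cases ha : Odd a
    · by_cases hb : Odd b
      · rw [if_pos ha, if_pos hb, if_pos (ha.mul hb), jacobiSym.mul_right' D ha.pos.ne' hb.pos.ne',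
          Int.cast_mul]
      · rw [if_neg hb, if_neg fun h => hb (Nat.odd_mul.1 h).2, mul_zero]
    · rw [if_neg ha, if_neg fun h => ha (Nat.odd_mul.1 h).1, zero_mul]
  map_nonunit' x hx := by
    obtain ⟨a, rfl⟩ := ZMod.natCast_zmod_surjective x
    change sgeF D _ = 0
    rw [sgeF_nat]
    split_ifs with ha
    · rw [Int.cast_eq_zero, jacobiSym.eq_zero_iff]
      refine ⟨ha.pos.ne', fun h => hx ((ZMod.isUnit_iff_coprime _ _).2 ?_)⟩
      refine Nat.Coprime.mul_right ?_ (Nat.Coprime.symm h)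
      exact (Nat.Coprime.pow_right 2 (Nat.coprime_two_right.2 ha) :)
    · rfl

theorem sgeChi_nat (D : ℤ) [NeZero (4 * D.natAbs)] (n : ℕ) :
    sgeChi D (n : ZMod (4 * D.natAbs)) = if Odd n then (jacobiSym D n : ℂ) else 0 :=
  sgeF_nat D n

theorem sge_jac {m n : ℕ} (h : n + 1 = 4 * m) : jacobiSym (-(m : ℤ)) n = -1 := by
  have h3 : n % 4 = 3 := by omega
  have ho : Odd n := Nat.odd_iff.2 (by omega)
  have h1 : jacobiSym (2 ^ 2 * (m : ℤ)) n = jacobiSym 1 n := by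
    refine jacobiSym.mod_left' ?_
    have : (2 : ℤ) ^ 2 * m = 1 + n := by omega
    rw [this, Int.add_emod_right]
  have h2 : Int.gcd 2 n = 1 := Nat.coprime_two_left.2 ho
  rw [jacobiSym.mul_left, jacobiSym.sq_one' h2, one_mul, jacobiSym.one_left] at h1
  rw [jacobiSym.neg _ ho, h1, ZMod.χ₄_nat_three_mod_four h3, mul_one]

theorem exists_chi {D : ℤ} (hD : D < 0) : ∃ χ : DirichletCharacter ℂ (4 * D.natAbs),
    χ ≠ 1 ∧ χ ^ 2 = 1 ∧ ∀ l : ℕ, l.Prime → χ l = 1 → ¬ (l : ℤ) ∣ 2 * D ∧ IsSquare (D : ZMod l) := by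
  have h0 : 0 < D.natAbs := Int.natAbs_pos.2 hD.ne
  have : NeZero (4 * D.natAbs) := ⟨by omega⟩
  refine ⟨sgeChi D, fun h => ?_, MulChar.isQuadratic_iff_sq_eq_one.1 fun x => ?_,
    fun l hl h => ?_⟩
  · obtain ⟨n, hn⟩ : ∃ n, n + 1 = 4 * D.natAbs := ⟨4 * D.natAbs - 1, by omega⟩
    have h1 := sgeChi_nat D n
    have h2 := sge_jac hn
    rw [show -(D.natAbs : ℤ) = D by omega] at h2
    rw [if_pos (Nat.odd_iff.2 (by omega)), h2, h] at h1
    by_cases hu : IsUnit (n : ZMod (4 * D.natAbs))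
    · rw [MulChar.one_apply hu] at h1
      norm_num at h1
    · rw [MulChar.map_nonunit _ hu] at h1
      norm_num at h1
  · obtain ⟨a, rfl⟩ := ZMod.natCast_zmod_surjective x
    rw [sgeChi_nat]
    split_ifs
    · rcases jacobiSym.trichotomy D a with h | h | h <;> simp [h]
    · exact Or.inl rfl
  · rw [sgeChi_nat] at h
    split_ifs at h with ho
    · have h1 : jacobiSym D l = 1 := by exact_mod_cast h
      have : Fact l.Prime := ⟨hl⟩
      refine ⟨fun hd => ?_, ZMod.isSquare_of_jacobiSym_eq_one h1⟩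
      rcases (Nat.prime_iff_prime_int.1 hl).dvd_or_dvd hd with h2 | h2
      · have h3 : l ∣ 2 := by exact_mod_cast h2
        rw [(Nat.prime_dvd_prime_iff_eq hl Nat.prime_two).1 h3] at ho
        exact absurd ho (by decide)
      · have h3 : jacobiSym D l = 0 := by
          refine jacobiSym.eq_zero_iff.2 ⟨hl.ne_zero, fun h4 => ?_⟩
          have h5 := Int.dvd_gcd h2 (dvd_refl (l : ℤ))
          rw [h4] at h5
          exact hl.one_lt.ne' (Nat.dvd_one.1 h5)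
        omega
    · exact absurd h zero_ne_one

theorem sge_OD {D : ℤ} (hD : IsD D) : OD D ∈ Idl D 1 :=
  ⟨discL_OD hD, le_rfl, by rw [nm_OD hD, Nat.cast_one]⟩

theorem sge_mul {D : ℤ} {m n : ℕ} {𝔞 𝔟 : Lt} (ha : 𝔞 ∈ Idl D m) (hb : 𝔟 ∈ Idl D n) :
    𝔞 * 𝔟 ∈ Idl D (m * n) :=
  ⟨ha.1.mul hb.1 le_rfl, ((mul_le_mul_left ha.2.1 𝔟).trans hb.1.OD_mul.le).trans hb.2.1, by
    rw [nm_mul ha.1 hb.1 le_rfl, ha.2.2, hb.2.2, Nat.cast_mul]⟩

theorem sge_pow {D : ℤ} {m n : ℕ} {𝔞 𝔟 : Lt} (ha : 𝔞 ∈ Idl D m) (hb : 𝔟 ∈ Idl D n) (i : ℕ) :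
    𝔞 ^ i * 𝔟 ∈ Idl D (m ^ i * n) := by
  induction i with
  | zero => simpa using hb
  | succ i ih =>
    rw [pow_succ', pow_succ', mul_assoc, mul_assoc]
    exact sge_mul ha ih

theorem sge_le {D : ℤ} {m : ℕ} {𝔞 : Lt} (ha : 𝔞 ∈ Idl D m) : pr m * OD D ≤ 𝔞 := by
  have h1 := ha.1.mul_cj_nm
  rw [ha.2.2, Complex.ofReal_natCast] at h1
  have h2 : cj 𝔞 ≤ OD D := by
    rw [← cj_OD]
    exact Submodule.map_mono ha.2.1
  rw [← h1, mul_comm]
  exact (mul_le_mul_left h2 𝔞).trans ha.1.OD_mul.le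

theorem sge_rec {D : ℤ} {m n : ℕ} (h : Nat.Coprime m n) {𝔞 𝔟 : Lt} (ha : 𝔞 ∈ Idl D m)
    (hb : 𝔟 ∈ Idl D n) : 𝔞 = 𝔞 * 𝔟 ⊔ pr m * OD D := by
  refine le_antisymm (fun x hx => ?_) (sup_le ?_ (sge_le ha))
  · refine mem_of_coprime_fac (Nat.isCoprime_iff_coprime.2 h)
      (Submodule.mem_sup_right (mem_pr_mul.2 ⟨x, ha.2.1 hx, by simp⟩)) (Submodule.mem_sup_left ?_)
    have h1 : (n : ℂ) ∈ 𝔟 := sge_le hb (mem_pr_mul.2 ⟨1, one_mem_OD D, mul_one _⟩)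
    rw [mul_comm _ x, Int.cast_natCast]
    exact Submodule.mul_mem_mul hx h1
  · rw [mul_comm]
    exact (mul_le_mul_left hb.2.1 𝔞).trans ha.1.OD_mul.le

theorem sge_pri {D : ℤ} (hD : IsD D) {l : ℕ} {𝔮 : Lt} (h : PrI D l 𝔮) : 𝔮 ∈ Idl D l := by
  have h1 := h.discL hD.1
  refine ⟨h1, h.le, pr_OD_inj hD h1.nm_pos (Nat.cast_pos.2 h.1.pos) ?_⟩
  rw [← h1.mul_cj_nm, h.mul_cj hD.1, Complex.ofReal_natCast]

theorem sge_ne {D : ℤ} (hD : IsD D) {l : ℕ} {𝔮 : Lt} (h : PrI D l 𝔮) : cj 𝔮 ≠ 𝔮 := by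
  intro e
  have h1 := h.pow_sup hD.1 1
  have h2 := h.mul_cj hD.1
  rw [e] at h2
  rw [pow_succ, pow_one, h2, sup_idem] at h1
  have h3 := (sge_pri hD h).2.2
  have h4 : (1 : ℝ) < l := by exact_mod_cast h.1.one_lt
  rw [← h1, nm_pr_mul (discL_OD hD).isLat D (Nat.cast_ne_zero.2 h.1.ne_zero), nm_OD hD,
    Complex.normSq_natCast] at h3
  nlinarith

theorem sge_root {D : ℤ} (hD : IsD D) {l : ℕ} (hl : l.Prime) (h : ¬ (l : ℤ) ∣ 2 * D)
    (hs : IsSquare (D : ZMod l)) : ∃ b : ℤ, 4 * (l : ℤ) ∣ b ^ 2 - D := by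
  obtain ⟨r, hr⟩ := hs
  obtain ⟨r, rfl⟩ := ZMod.intCast_surjective r
  have h1 : (l : ℤ) ∣ r ^ 2 - D := by
    rw [← ZMod.intCast_zmod_eq_zero_iff_dvd]
    push_cast
    rw [hr]
    ring
  have ho : Odd l := hl.odd_of_ne_two fun e => h (by rw [e]; exact dvd_mul_right _ _)
  have hc : IsCoprime (4 : ℤ) l :=
    (Nat.isCoprime_iff_coprime.2 (Nat.Coprime.pow_left 2 (Nat.coprime_two_left.2 ho)) :)
  have key : ∀ b : ℤ, (l : ℤ) ∣ b ^ 2 - D → (b - D) % 2 = 0 → 4 * (l : ℤ) ∣ b ^ 2 - D := by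
    intro b h2 h3
    refine hc.mul_dvd ?_ h2
    rcases hD.2 with h4 | h4
    · obtain ⟨c, rfl⟩ : ∃ c, b = 2 * c := ⟨b / 2, by omega⟩
      exact ⟨c ^ 2 - D / 4, by have := Int.emod_add_mul_ediv D 4; linear_combination this - h4⟩
    · obtain ⟨c, rfl⟩ : ∃ c, b = 2 * c + 1 := ⟨b / 2, by omega⟩
      exact ⟨c ^ 2 + c - D / 4, by have := Int.emod_add_mul_ediv D 4; linear_combination this - h4⟩
  by_cases h2 : (r - D) % 2 = 0
  · exact ⟨r, key r h1 h2⟩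
  · refine ⟨r + l, key _ ?_ ?_⟩
    · have : (r + l) ^ 2 - D = r ^ 2 - D + l * (2 * r + l) := by ring
      rw [this]
      exact h1.add (dvd_mul_right _ _)
    · have := Nat.odd_iff.1 ho
      omega

theorem card_Idl_one {D : ℤ} (hD : IsD D) : 1 ≤ (Idl D 1).ncard :=
  (Set.ncard_pos (Idl_finite D 1)).2 ⟨_, sge_OD hD⟩

theorem card_Idl_mul {D : ℤ} {m n : ℕ} (h : Nat.Coprime m n) :
    (Idl D m).ncard * (Idl D n).ncard ≤ (Idl D (m * n)).ncard := by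
  rw [← Set.ncard_prod]
  refine Set.ncard_le_ncard_of_injOn (fun x => x.1 * x.2) (fun x hx => sge_mul hx.1 hx.2) ?_
    (Idl_finite D _)
  rintro ⟨a, b⟩ ⟨ha, hb⟩ ⟨a', b'⟩ ⟨ha', hb'⟩ e
  have e' : a * b = a' * b' := e
  refine Prod.ext ?_ ?_
  · exact (sge_rec h ha hb).trans (by rw [e']; exact (sge_rec h ha' hb').symm)
  · exact (sge_rec h.symm hb ha).trans
      (by rw [mul_comm, e', mul_comm]; exact (sge_rec h.symm hb' ha').symm)

theorem card_Idl_split {D : ℤ} (hD : IsD D) {l : ℕ} (hl : l.Prime) (h : ¬ (l : ℤ) ∣ 2 * D)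
    (hs : IsSquare (D : ZMod l)) (k : ℕ) : k + 1 ≤ (Idl D (l ^ k)).ncard := by
  obtain ⟨b, hb⟩ := sge_root hD hl h hs
  obtain ⟨𝔮, hq⟩ : ∃ 𝔮, PrI D l 𝔮 := ⟨_, hl, h, b, hb, rfl⟩
  have h1 := sge_pri hD hq
  have h2 := sge_pri hD hq.cj
  have hm : ∀ i j : ℕ, 𝔮 ^ i * (cj 𝔮 ^ j * OD D) ∈ Idl D (l ^ (i + j)) := fun i j => by
    have := sge_pow h1 (sge_pow h2 (sge_OD hD) j) i
    rwa [mul_one, ← pow_add] at this
  have hO : ∀ {𝔞 : Lt}, DiscL 𝔞 D → ∀ e : ℕ, OD D * 𝔞 ^ (e + 1) = 𝔞 ^ (e + 1) := fun ha e => by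
    rw [pow_succ', ← mul_assoc, ha.OD_mul]
  have key : ∀ i i', i < i' → i' ≤ k →
      𝔮 ^ i * (cj 𝔮 ^ (k - i) * OD D) ≠ 𝔮 ^ i' * (cj 𝔮 ^ (k - i') * OD D) := by
    intro i i' hi hk e
    obtain ⟨d, rfl⟩ : ∃ d, i' = i + (d + 1) := ⟨i' - i - 1, by omega⟩
    obtain ⟨j, rfl⟩ : ∃ j, k = i + (d + 1) + j := ⟨k - (i + (d + 1)), by omega⟩
    rw [Nat.add_sub_cancel_left, add_assoc, Nat.add_sub_cancel_left, pow_add _ (d + 1), pow_add _ i,
      mul_assoc, mul_assoc, mul_left_comm, mul_left_comm (𝔮 ^ i) (𝔮 ^ (d + 1))] at e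
    have h3 := cancel_fac (hm i j).1 (hO h2.1 d) (hO h1.1 d) e
    refine sge_ne hD hq ?_
    rw [← hq.cj.pow_sup hD.1 d, h3, hq.pow_sup hD.1 d]
  rw [← Finset.card_range (k + 1), ← Set.ncard_coe_finset]
  refine Set.ncard_le_ncard_of_injOn (fun i => 𝔮 ^ i * (cj 𝔮 ^ (k - i) * OD D)) (fun i hi => ?_)
    (fun i hi i' hi' e => ?_) (Idl_finite D _)
  · have h3 : i < k + 1 := Finset.mem_range.1 hi
    have := hm i (k - i)
    rwa [Nat.add_sub_cancel' (by omega)] at this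
  · have h3 : i < k + 1 := Finset.mem_range.1 hi
    have h4 : i' < k + 1 := Finset.mem_range.1 hi'
    rcases lt_trichotomy i i' with h5 | h5 | h5
    · exact absurd e (key i i' h5 (by omega))
    · exact h5
    · exact absurd e.symm (key i' i h5 (by omega))

theorem card_Idl_even {D : ℤ} (hD : IsD D) {l : ℕ} (hl : 0 < l) (k : ℕ) :
    1 ≤ (Idl D (l ^ (2 * k))).ncard := by
  have h0 : ((l ^ k : ℕ) : ℂ) ≠ 0 := Nat.cast_ne_zero.2 (pow_pos hl k).ne'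
  refine (Set.ncard_pos (Idl_finite D _)).2 ⟨pr (l ^ k : ℕ) * OD D, (discL_OD hD).pr_mul h0,
    by simpa using pr_int_le ((l ^ k : ℕ) : ℤ) (OD D), ?_⟩
  rw [nm_pr_mul (discL_OD hD).isLat D h0, nm_OD hD, Complex.normSq_natCast]
  push_cast
  ring

theorem sge_pp {N : ℕ} (χ : DirichletCharacter ℂ N) {l : ℕ} (hl : l.Prime) (k : ℕ) :
    ∑ x ∈ (l ^ k).divisorsAntidiagonal, (1 : DirichletCharacter ℂ N) x.1 * χ x.2 =
      (1 : DirichletCharacter ℂ N) l ^ k * ∑ i ∈ Finset.range (k + 1), χ l ^ i := by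
  rw [Nat.sum_divisorsAntidiagonal' (f := fun a b : ℕ => (1 : DirichletCharacter ℂ N) a * χ b),
    Nat.sum_divisors_prime_pow hl, Finset.mul_sum]
  refine Finset.sum_congr rfl fun i hi => ?_
  have hi' : i ≤ k := Nat.lt_succ_iff.1 (Finset.mem_range.1 hi)
  obtain ⟨j, rfl⟩ := Nat.exists_eq_add_of_le hi'
  have h1 : χ l = (1 : DirichletCharacter ℂ N) l * χ l := by rw [← MulChar.mul_apply, one_mul]
  rw [pow_add, Nat.mul_div_cancel_left _ (pow_pos hl.pos i), Nat.cast_pow, Nat.cast_pow, map_pow,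
    map_pow]
  conv_lhs => rw [h1]
  ring

theorem sge_conv {N : ℕ} (χ : DirichletCharacter ℂ N) (n : ℕ) :
    ∑ x ∈ n.divisorsAntidiagonal, (1 : DirichletCharacter ℂ N) x.1 * χ x.2 =
      (toArithmeticFunction (fun a : ℕ => (1 : DirichletCharacter ℂ N) a) *
        toArithmeticFunction (fun a : ℕ => χ a)) n := by
  rw [ArithmeticFunction.mul_apply]
  refine Finset.sum_congr rfl fun x hx => ?_
  obtain ⟨h1, h2⟩ := Nat.ne_zero_of_mem_divisorsAntidiagonal hx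
  simp [toArithmeticFunction, h1, h2]

/-- The coefficients of `L(s, χ₀) L(s, χ)` are at most the numbers of ideals. -/
theorem coeff_le_Idl {D : ℤ} (hD : IsD D) (χ : DirichletCharacter ℂ (4 * D.natAbs))
    (h2 : χ ^ 2 = 1)
    (h : ∀ l : ℕ, l.Prime → χ l = 1 → ¬ (l : ℤ) ∣ 2 * D ∧ IsSquare (D : ZMod l)) {n : ℕ}
    (hn : 0 < n) :
    ‖∑ x ∈ n.divisorsAntidiagonal,
      (1 : DirichletCharacter ℂ (4 * D.natAbs)) x.1 * χ x.2‖ ≤ (Idl D n).ncard := by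
  induction n using Nat.recOnPosPrimePosCoprime with
  | prime_pow l k hl hk =>
    rw [sge_pp χ hl, norm_mul, norm_pow]
    have h1 : ‖(1 : DirichletCharacter ℂ (4 * D.natAbs)) l‖ ^ k ≤ 1 :=
      pow_le_one₀ (norm_nonneg _) (DirichletCharacter.norm_le_one _ _)
    rcases MulChar.isQuadratic_iff_sq_eq_one.2 h2 (l : ZMod (4 * D.natAbs)) with h3 | h3 | h3
    · have hu : ¬ IsUnit (l : ZMod (4 * D.natAbs)) := fun hu => (hu.map χ).ne_zero h3
      rw [MulChar.map_nonunit _ hu, norm_zero, zero_pow hk.ne', zero_mul]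
      exact Nat.cast_nonneg _
    · refine (mul_le_of_le_one_left (norm_nonneg _) h1).trans ?_
      have h4 := card_Idl_split hD hl (h l hl h3).1 (h l hl h3).2 k
      rw [h3]
      simp only [one_pow, Finset.sum_const, Finset.card_range, nsmul_eq_mul, mul_one,
        Complex.norm_natCast]
      exact_mod_cast h4
    · refine (mul_le_of_le_one_left (norm_nonneg _) h1).trans ?_
      rw [h3, neg_one_geom_sum]
      split_ifs with h4
      · simp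
      · obtain ⟨j, rfl⟩ : ∃ j, k = 2 * j := ⟨k / 2, by rw [Nat.even_iff] at h4; omega⟩
        rw [norm_one]
        exact_mod_cast card_Idl_even hD hl.pos j
  | zero => exact absurd hn (lt_irrefl 0)
  | one =>
    have := card_Idl_one hD
    simpa using this
  | coprime a b ha hb hab iha ihb =>
    have hm := (DirichletCharacter.isMultiplicative_toArithmeticFunction
      (1 : DirichletCharacter ℂ (4 * D.natAbs))).mul
      (DirichletCharacter.isMultiplicative_toArithmeticFunction χ)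
    have h3 := iha (by omega)
    have h4 := ihb (by omega)
    rw [sge_conv] at h3 h4 ⊢
    rw [hm.map_mul_of_coprime hab, norm_mul]
    refine (mul_le_mul h3 h4 (norm_nonneg _) (Nat.cast_nonneg _)).trans ?_
    exact_mod_cast card_Idl_mul hab

end Pool.Agent.EQ
end
end

-- part Pool.Agent.P.MP_ad7a55_nt.TId
section

/-! A multiplicative majorant for the number of ideals. -/

set_option autoImplicit false

noncomputable section

open Finset

namespace Pool.Agent.EQ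

theorem tid_prim {D : ℤ} {m a b : ℕ} {c : ℤ} (hm : 0 < m) (ha : 0 < a)
    (hc : (b : ℤ) ^ 2 - 4 * a * c = D) (h : DiscL (pr m * sp a ((b + th D) / 2)) D) :
    Int.gcd (Int.gcd a b) c = 1 := by
  have hD := h.isD
  have hs := ctB_sqrt_pos hD.1
  have ha' : (0 : ℝ) < a := by exact_mod_cast ha
  have ha0 : (a : ℂ) ≠ 0 := by exact_mod_cast ha.ne'
  have hm0 : (m : ℂ) ≠ 0 := by exact_mod_cast hm.ne'
  have him : 0 < (((b : ℂ) + th D) / (2 * a)).im := by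
    have e : ((b : ℂ) + th D) / (2 * a) = ((2 * (a : ℝ))⁻¹ : ℝ) * ((b : ℂ) + th D) := by
      push_cast
      field_simp
    rw [e, Complex.im_ofReal_mul]
    simp only [Complex.add_im, Complex.natCast_im, zero_add, ord2_th_im]
    positivity
  let τ : UpperHalfPlane := ⟨((b : ℂ) + th D) / (2 * a), him⟩
  have hτ : (τ : ℂ) = ((b : ℂ) + th D) / (2 * a) := rfl
  have hc' : (b : ℂ) ^ 2 - 4 * a * c = D := by exact_mod_cast hc
  have hroot : (a : ℂ) * (τ : ℂ) ^ 2 - b * τ + c = 0 := by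
    rw [hτ]
    field_simp
    linear_combination th_sq hD.1.le - hc'
  obtain ⟨g, hg⟩ : ∃ g : ℕ, g = Int.gcd (Int.gcd a b) c := ⟨_, rfl⟩
  have h1 : (g : ℤ) ∣ (Int.gcd a b : ℤ) := hg ▸ Int.gcd_dvd_left _ _
  obtain ⟨a', ha1⟩ : (g : ℤ) ∣ a := h1.trans (Int.gcd_dvd_left _ _)
  obtain ⟨b', hb1⟩ : (g : ℤ) ∣ b := h1.trans (Int.gcd_dvd_right _ _)
  obtain ⟨c', hc1⟩ : (g : ℤ) ∣ c := hg ▸ Int.gcd_dvd_right _ _
  have hg0 : g ≠ 0 := by
    rintro rfl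
    simp at ha1
    omega
  have hgp : (0 : ℤ) < g := by exact_mod_cast Nat.pos_of_ne_zero hg0
  have haz : (0 : ℤ) < a := by exact_mod_cast ha
  have hd : HasDisc τ ((-b') ^ 2 - 4 * a' * c') := by
    refine ⟨a', -b', c', (mul_pos_iff_of_pos_left hgp).1 (ha1 ▸ haz), ?_, ?_, rfl⟩
    · rw [ha1, hb1, hc1, Int.gcd_mul_left, Nat.cast_mul, Int.natAbs_natCast, Int.gcd_mul_left,
        Int.natAbs_natCast] at hg
      rw [Int.gcd_neg]
      exact (Nat.mul_eq_left hg0).1 hg.symm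
    · have hg' : (g : ℂ) ≠ 0 := Nat.cast_ne_zero.2 hg0
      have e1 : (a : ℂ) = g * a' := by exact_mod_cast ha1
      have e2 : (b : ℂ) = g * b' := by exact_mod_cast hb1
      have e3 : (c : ℂ) = g * c' := by exact_mod_cast hc1
      apply mul_left_cancel₀ hg'
      rw [e1, e2, e3] at hroot
      push_cast
      linear_combination hroot
  have h2 : DiscL (pr m * sp a ((b + th D) / 2)) ((-b') ^ 2 - 4 * a' * c') := by
    refine DiscL.pr_mul ⟨a, τ, ha0, ?_, hd⟩ hm0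
    rw [hτ]
    congr 1
    field_simp
  have h3 := h.galA_unique h2
  have h4 : ((g : ℤ) ^ 2 - 1) * D = 0 := by
    rw [ha1, hb1, hc1] at hc
    linear_combination (g : ℤ) ^ 2 * h3 + hc
  have h5 : (g : ℤ) ^ 2 = 1 := by
    rcases mul_eq_zero.1 h4 with h6 | h6
    · linarith
    · exact absurd h6 hD.1.ne
  have h6 : g ^ 2 = 1 := by exact_mod_cast h5
  rw [← hg]
  exact (Nat.pow_eq_one.1 h6).resolve_right two_ne_zero

theorem Idl.shape' {D : ℤ} {n : ℕ} {𝔞 : Lt} (h : 𝔞 ∈ Idl D n) : ∃ (m a b : ℕ) (c : ℤ), 0 < m ∧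
    0 < a ∧ n = m ^ 2 * a ∧ b < 2 * a ∧ (b : ℤ) ^ 2 - 4 * a * c = D ∧
      Int.gcd (Int.gcd a b) c = 1 ∧ 𝔞 = pr m * sp a ((b + th D) / 2) := by
  obtain ⟨h1, h2, h3⟩ := h
  obtain ⟨m, a, B, hm, ha, ⟨c, hc⟩, e⟩ := ctB_pre h1 h2
  have ha' : (0 : ℤ) < 2 * a := by positivity
  obtain ⟨b, hb⟩ := Int.eq_ofNat_of_zero_le (Int.emod_nonneg B ha'.ne')
  have hlt := Int.emod_lt_of_pos B ha'
  have hB := Int.emod_add_mul_ediv B (2 * a)
  rw [hb] at hlt hB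
  generalize B / (2 * a) = q at hB
  subst hB
  have e' : 𝔞 = pr m * sp a ((b + th D) / 2) := by
    have e1 : (((b + 2 * a * q : ℤ) : ℂ) + th D) / 2 = (b + th D) / 2 + q * (a : ℂ) := by
      push_cast
      ring
    rw [e, e1, ord_sp_add]
  have hc' : (b : ℤ) ^ 2 - 4 * a * (c - q * (b + a * q)) = D := by linear_combination hc
  refine ⟨m, a, b, c - q * (b + a * q), hm, ha, ?_, by omega, hc', tid_prim hm ha hc' (e' ▸ h1), e'⟩
  rw [e', ctB_nm h1.isD.1 hm ha] at h3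
  exact_mod_cast h3.symm

/-- the multiplicative function with prescribed values at prime powers -/
def tid_pf (r : ℕ → ℕ → ℝ) : ArithmeticFunction ℝ :=
  ⟨fun n => if n = 0 then 0 else n.factorization.prod r, by simp⟩

theorem tid_pf_apply (r : ℕ → ℕ → ℝ) {n : ℕ} (hn : n ≠ 0) :
    tid_pf r n = n.factorization.prod r := if_neg hn

theorem tid_pf_mul (r : ℕ → ℕ → ℝ) : (tid_pf r).IsMultiplicative := by
  refine ArithmeticFunction.IsMultiplicative.iff_ne_zero.2 ⟨?_, fun {m n} hm hn h => ?_⟩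
  · rw [tid_pf_apply r one_ne_zero]
    simp
  · rw [tid_pf_apply r hm, tid_pf_apply r hn, tid_pf_apply r (mul_ne_zero hm hn),
      Nat.factorization_mul_of_coprime h, Finsupp.prod_add_index_of_disjoint]
    simpa using h.disjoint_primeFactors

theorem tid_pf_pow {r : ℕ → ℕ → ℝ} {l : ℕ} (hl : l.Prime) (h0 : r l 0 = 1) (k : ℕ) :
    tid_pf r (l ^ k) = r l k := by
  rw [tid_pf_apply r (pow_ne_zero _ hl.ne_zero), hl.factorization_pow, Finsupp.prod_single_index h0]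

theorem tid_pf_nonneg {r : ℕ → ℕ → ℝ} (h : ∀ l k, 0 ≤ r l k) (n : ℕ) : 0 ≤ tid_pf r n := by
  by_cases hn : n = 0
  · simp [hn]
  · rw [tid_pf_apply r hn]
    exact Finset.prod_nonneg fun l _ => h _ _

theorem tid_conv_pow {r s : ℕ → ℕ → ℝ} {l : ℕ} (hl : l.Prime) (hr : r l 0 = 1) (hs : s l 0 = 1)
    (k : ℕ) : (tid_pf s * tid_pf r) (l ^ k) = ∑ i ∈ range (k + 1), s l i * r l (k - i) := by
  rw [ArithmeticFunction.mul_apply,
    Nat.sum_divisorsAntidiagonal fun x y => tid_pf s x * tid_pf r y, Nat.sum_divisors_prime_pow hl]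
  refine Finset.sum_congr rfl fun i hi => ?_
  rw [Nat.pow_div (Nat.lt_succ_iff.1 (mem_range.1 hi)) hl.pos, tid_pf_pow hl hr, tid_pf_pow hl hs]

/-- local condition on the middle coefficient -/
def tid_A (D : ℤ) (l k : ℕ) (b : ℤ) : Prop :=
  (l : ℤ) ^ k ∣ b ^ 2 - D ∧ (l ≠ 2 → ¬ ((l : ℤ) ∣ b ∧ (l : ℤ) ^ (k + 1) ∣ b ^ 2 - D))

/-- local majorant for the primitive ideals -/
def tid_r (D : ℤ) (l k : ℕ) : ℝ :=
  if k = 0 then 1 else if l = 2 then (2 : ℝ) ^ (k / 2) else cnt (l ^ k) (tid_A D l k)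

/-- local indicator of squares -/
def tid_s (_ k : ℕ) : ℝ := if Even k then 1 else 0

theorem tid_cnt_mono (q : ℕ) {A A' : ℤ → Prop} (h : ∀ x, A x → A' x) : cnt q A ≤ cnt q A' := by
  classical
  unfold cnt
  refine Finset.card_le_card fun x hx => ?_
  simp only [Finset.mem_filter] at hx ⊢
  exact ⟨hx.1, h _ hx.2⟩

theorem tid_cnt_dvd (l u : ℕ) {A : ℤ → Prop} (h : ∀ x, A x → (l : ℤ) ∣ x) :
    cnt (l * u) A ≤ u := by
  classical
  unfold cnt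
  refine le_trans (Finset.card_le_card (t := (range u).image fun x => l * x) fun x hx => ?_)
    (Finset.card_image_le.trans (Finset.card_range u).le)
  simp only [Finset.mem_filter, mem_range] at hx
  obtain ⟨y, rfl⟩ := Int.natCast_dvd_natCast.1 (h _ hx.2)
  exact Finset.mem_image.2 ⟨y, mem_range.2 (Nat.lt_of_mul_lt_mul_left hx.1), rfl⟩

theorem tid_cnt_zero (q : ℕ) {A : ℤ → Prop} (h : ∀ x, ¬ A x) : cnt q A = 0 := by
  classical
  unfold cnt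
  simp [h]

theorem tid_A_per (D : ℤ) (l : ℕ) {k : ℕ} (hk : k ≠ 0) (x y : ℤ) (hxy : (l : ℤ) ^ k ∣ x - y)
    (h : tid_A D l k x) : tid_A D l k y := by
  obtain ⟨j, rfl⟩ := Nat.exists_eq_succ_of_ne_zero hk
  obtain ⟨t, ht⟩ := hxy
  obtain rfl : x = y + (l : ℤ) ^ (j + 1) * t := by rw [← ht]; ring
  obtain ⟨⟨u, hu⟩, h2⟩ := h
  refine ⟨⟨u - t * (2 * y + (l : ℤ) ^ (j + 1) * t), by
    simp only [Nat.succ_eq_add_one] at hu ⊢
    linear_combination hu⟩, fun h3 h4 => h2 h3 ?_⟩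
  obtain ⟨⟨v, rfl⟩, ⟨w, hw⟩⟩ := h4
  refine ⟨⟨v + (l : ℤ) ^ j * t, by ring⟩, ⟨w + t * (2 * v + (l : ℤ) ^ j * t), ?_⟩⟩
  simp only [Nat.succ_eq_add_one] at hw ⊢
  linear_combination hw

theorem tid_r_zero (D : ℤ) (l : ℕ) : tid_r D l 0 = 1 := if_pos rfl

theorem tid_r_nonneg (D : ℤ) (l k : ℕ) : 0 ≤ tid_r D l k := by
  unfold tid_r
  split_ifs <;> positivity

theorem tid_s_nonneg (l k : ℕ) : 0 ≤ tid_s l k := by
  unfold tid_s
  split_ifs <;> norm_num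

theorem tid_s_le (l k : ℕ) : tid_s l k ≤ 1 := by
  unfold tid_s
  split_ifs <;> norm_num

theorem tid_cnt_A_le (D : ℤ) {l : ℕ} (hl : l.Prime) (k : ℕ) :
    (cnt (l ^ k) (tid_A D l k) : ℝ) ≤ 4 * (l : ℝ) ^ (k / 2) := by
  have := (tid_cnt_mono (l ^ k) (A := tid_A D l k) fun x hx => hx.1).trans (cnt_sq_le hl k D)
  exact_mod_cast this

theorem tid_r_le (D : ℤ) {l : ℕ} (hl : l.Prime) (k : ℕ) : tid_r D l k ≤ 4 * (l : ℝ) ^ (k / 2) := by
  unfold tid_r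
  split_ifs with h1 h2
  · subst h1
    norm_num
  · subst h2
    have : (0 : ℝ) < 2 ^ (k / 2) := by positivity
    push_cast
    linarith
  · exact tid_cnt_A_le D hl k

theorem tid_count (D : ℤ) {a : ℕ} (ha : 0 < a) :
    (cnt (2 * a) (fun b => ∀ l ∈ (2 * a).primeFactors, tid_A D l ((2 * a).factorization l) b) : ℝ) ≤
      8 * tid_pf (tid_r D) a := by
  have h2 : 2 * a ≠ 0 := by omega
  have hk : ∀ l ∈ (2 * a).primeFactors, (2 * a).factorization l ≠ 0 := fun l hl =>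
    Finsupp.mem_support_iff.1 hl
  have h1 := cnt_prod (2 * a).primeFactors (fun l hl => Nat.prime_of_mem_primeFactors hl)
    (fun l => (2 * a).factorization l) (fun l => tid_A D l ((2 * a).factorization l))
    fun l hl => tid_A_per D l (hk l hl)
  rw [← Nat.prod_primeFactors_pow_factorization h2] at h1
  have h3 : tid_pf (tid_r D) a = ∏ l ∈ (2 * a).primeFactors, tid_r D l (a.factorization l) := by
    rw [tid_pf_apply _ ha.ne']
    exact Finsupp.prod_of_support_subset _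
      (Nat.primeFactors_mono (Dvd.intro_left 2 rfl) h2) _ fun l _ => tid_r_zero D l
  have h4 : (8 : ℝ) = ∏ l ∈ (2 * a).primeFactors, if l = 2 then (8 : ℝ) else 1 := by
    rw [Finset.prod_ite_eq', if_pos]
    exact Nat.mem_primeFactors.2 ⟨Nat.prime_two, Dvd.intro _ rfl, h2⟩
  rw [h1, h3, h4, ← Finset.prod_mul_distrib, Nat.cast_prod]
  refine Finset.prod_le_prod (fun l _ => Nat.cast_nonneg _) fun l hl => ?_
  have hf : (2 * a).factorization l = (if l = 2 then 1 else 0) + a.factorization l := by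
    rw [Nat.factorization_mul two_ne_zero ha.ne', Finsupp.add_apply, Nat.prime_two.factorization,
      Finsupp.single_apply]
    simp only [eq_comm]
  by_cases h : l = 2
  · subst h
    rw [if_pos rfl] at hf ⊢
    refine (tid_cnt_A_le D Nat.prime_two _).trans ?_
    have h5 : tid_r D 2 (a.factorization 2) = 2 ^ (a.factorization 2 / 2) := by
      unfold tid_r
      split_ifs with h6 h7
      · simp [h6]
      · rfl
      · exact absurd rfl h7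
    have h6 : (2 : ℝ) ^ ((1 + a.factorization 2) / 2) ≤ 2 ^ (a.factorization 2 / 2 + 1) :=
      pow_le_pow_right₀ one_le_two (by omega)
    rw [h5, hf]
    rw [pow_succ] at h6
    push_cast
    linarith
  · have h5 := hk l hl
    rw [if_neg h, zero_add] at hf
    rw [hf] at h5
    rw [if_neg h, one_mul, hf, tid_r, if_neg h5, if_neg h]

theorem tid_mem {D : ℤ} {a b : ℕ} {c : ℤ} (ha : 0 < a) (hc : (b : ℤ) ^ 2 - 4 * a * c = D)
    (hg : Int.gcd (Int.gcd a b) c = 1) :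
    ∀ l ∈ (2 * a).primeFactors, tid_A D l ((2 * a).factorization l) b := by
  intro l hl
  have h2 : 2 * a ≠ 0 := by omega
  have hp := Nat.prime_of_mem_primeFactors hl
  have hp' : Prime (l : ℤ) := Nat.prime_iff_prime_int.1 hp
  have e : (b : ℤ) ^ 2 - D = ((2 * a : ℕ) : ℤ) * (2 * c) := by
    push_cast
    linear_combination hc
  refine ⟨?_, fun h3 h4 => ?_⟩
  · rw [e]
    refine Dvd.dvd.mul_right ?_ _
    exact_mod_cast Nat.ordProj_dvd (2 * a) l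
  · have h5 : ¬ (l : ℤ) ∣ 2 := fun h => h3
      ((Nat.prime_dvd_prime_iff_eq hp Nat.prime_two).1 (by exact_mod_cast h))
    have h6 : (l : ℤ) ∣ a := by
      have : (l : ℤ) ∣ 2 * a := by exact_mod_cast Nat.dvd_of_mem_primeFactors hl
      exact (hp'.dvd_or_dvd this).resolve_left h5
    have h7 : ¬ (l : ℤ) ∣ c := fun h => by
      have h8 : (l : ℤ) ∣ (Int.gcd (Int.gcd a b) c : ℤ) :=
        Int.dvd_coe_gcd (Int.dvd_coe_gcd h6 h4.1) h
      rw [hg] at h8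
      exact hp'.not_dvd_one (by exact_mod_cast h8)
    have h8 : IsCoprime ((l : ℤ) ^ ((2 * a).factorization l + 1)) (2 * c) :=
      (hp'.coprime_iff_not_dvd.2 fun h => (hp'.dvd_or_dvd h).elim h5 h7).pow_left
    have h9 := h4.2
    rw [e] at h9
    exact Nat.pow_succ_factorization_not_dvd h2 hp (by exact_mod_cast h8.dvd_of_dvd_mul_right h9)

theorem tid_s_sq {m : ℕ} (hm : m ≠ 0) : tid_pf tid_s (m ^ 2) = 1 := by
  rw [tid_pf_apply _ (pow_ne_zero _ hm)]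
  refine Finset.prod_eq_one fun l _ => if_pos ?_
  rw [Nat.factorization_pow]
  simp

theorem tid_ncard (D : ℤ) {n : ℕ} (hn : 0 < n) :
    ((Idl D n).ncard : ℝ) ≤ 8 * (tid_pf tid_s * tid_pf (tid_r D)) n := by
  classical
  let T := n.divisorsAntidiagonal.filter fun p => ∃ m : ℕ, p.1 = m ^ 2
  let S : Finset (Σ _ : ℕ × ℕ, ℕ) := T.sigma fun p => (range (2 * p.2)).filter fun b : ℕ =>
    ∀ l ∈ (2 * p.2).primeFactors, tid_A D l ((2 * p.2).factorization l) b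
  have hsub : Idl D n ⊆ (fun x : Σ _ : ℕ × ℕ, ℕ =>
      pr (Nat.sqrt x.1.1 : ℕ) * sp x.1.2 ((x.2 + th D) / 2)) '' S := by
    intro 𝔞 h
    obtain ⟨m, a, b, c, hm, ha, h1, hb, hc, hg, rfl⟩ := Idl.shape' h
    refine ⟨⟨(m ^ 2, a), b⟩, ?_, by simp only [Nat.sqrt_eq']⟩
    refine Finset.mem_coe.2 (Finset.mem_sigma.2 ⟨Finset.mem_filter.2 ⟨?_, m, rfl⟩,
      Finset.mem_filter.2 ⟨mem_range.2 hb, tid_mem ha hc hg⟩⟩)
    exact Nat.mem_divisorsAntidiagonal.2 ⟨h1.symm, hn.ne'⟩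
  have h1 : (Idl D n).ncard ≤ S.card := by
    refine (Set.ncard_le_ncard hsub (S.finite_toSet.image _)).trans ?_
    refine (Set.ncard_image_le S.finite_toSet).trans ?_
    rw [Set.ncard_coe_finset]
  have h2 : ((Idl D n).ncard : ℝ) ≤ S.card := by exact_mod_cast h1
  refine h2.trans ?_
  rw [Finset.card_sigma, Nat.cast_sum, ArithmeticFunction.mul_apply, Finset.mul_sum]
  refine le_trans (Finset.sum_le_sum (g := fun p : ℕ × ℕ =>
    8 * (tid_pf tid_s p.1 * tid_pf (tid_r D) p.2)) fun p hp => ?_)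
    (Finset.sum_le_sum_of_subset_of_nonneg (Finset.filter_subset _ _) fun p _ _ =>
      mul_nonneg (by norm_num) (mul_nonneg (tid_pf_nonneg tid_s_nonneg _)
        (tid_pf_nonneg (tid_r_nonneg D) _)))
  obtain ⟨h3, m, h4⟩ := Finset.mem_filter.1 hp
  obtain ⟨h5, h6⟩ := Nat.mem_divisorsAntidiagonal.1 h3
  have h7 : p.1 * p.2 ≠ 0 := h5 ▸ h6
  have hm : m ≠ 0 := by
    rintro rfl
    exact left_ne_zero_of_mul h7 (by simpa using h4)
  rw [h4, tid_s_sq hm, one_mul]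
  refine le_trans (le_of_eq ?_) (tid_count D (Nat.pos_of_ne_zero (right_ne_zero_of_mul h7)))
  unfold cnt
  congr

theorem tid_odd (D : ℤ) {l : ℕ} (hl : l.Prime) (h2 : l ≠ 2) :
    tid_r D l 1 ≤ 2 ∧ tid_r D l 1 + tid_r D l 2 / l ≤ 1 + jacobiSym D l + 2 / l := by
  have hp' : Prime (l : ℤ) := Nat.prime_iff_prime_int.1 hl
  have hl0 : (0 : ℝ) < l := by exact_mod_cast hl.pos
  have e1 : tid_r D l 1 = cnt (l ^ 1) (tid_A D l 1) := by rw [tid_r, if_neg one_ne_zero, if_neg h2]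
  have e2 : tid_r D l 2 = cnt (l ^ 2) (tid_A D l 2) := by rw [tid_r, if_neg two_ne_zero, if_neg h2]
  have h5 : ¬ (l : ℤ) ∣ 2 := fun h => h2
    ((Nat.prime_dvd_prime_iff_eq hl Nat.prime_two).1 (by exact_mod_cast h))
  have h20 : (0 : ℝ) ≤ 2 / l := by positivity
  by_cases hD : (l : ℤ) ∣ D
  · have hJ : jacobiSym D l = 0 := by
      have : NeZero l := ⟨hl.ne_zero⟩
      refine jacobiSym.eq_zero_iff_not_coprime.2 fun h => hp'.not_dvd_one ?_
      have h1 : (l : ℤ) ∣ (Int.gcd D l : ℤ) := Int.dvd_coe_gcd hD dvd_rfl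
      rw [h] at h1
      exact_mod_cast h1
    have hb : ∀ k, k ≠ 0 → ∀ x, tid_A D l k x → (l : ℤ) ∣ x := fun k hk x hx => by
      have h1 := ((dvd_pow_self _ hk).trans hx.1).add hD
      rw [sub_add_cancel] at h1
      exact hp'.dvd_of_dvd_pow h1
    have h1 : tid_r D l 1 ≤ 1 := by
      have := tid_cnt_dvd l 1 (hb 1 one_ne_zero)
      rw [e1, pow_one]
      rw [mul_one] at this
      exact_mod_cast this
    refine ⟨by linarith, ?_⟩
    rw [hJ]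
    by_cases hD2 : (l : ℤ) ^ 2 ∣ D
    · have h3 : tid_r D l 1 = 0 := by
        rw [e1, tid_cnt_zero, Nat.cast_zero]
        intro x hx
        have h4 := hb 1 one_ne_zero x hx
        exact hx.2 h2 ⟨h4, (pow_dvd_pow_of_dvd h4 2).sub hD2⟩
      have h4 : tid_r D l 2 ≤ l := by
        have := tid_cnt_dvd l l (hb 2 two_ne_zero)
        rw [e2, sq]
        exact_mod_cast this
      have h6 : tid_r D l 2 / l ≤ 1 := (div_le_one hl0).2 h4
      push_cast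
      linarith
    · have h3 : tid_r D l 2 = 0 := by
        rw [e2, tid_cnt_zero, Nat.cast_zero]
        intro x hx
        have h4 := (pow_dvd_pow_of_dvd (hb 2 two_ne_zero x hx) 2).sub hx.1
        rw [sub_sub_cancel] at h4
        exact hD2 h4
      rw [h3, zero_div]
      push_cast
      linarith
  · have hd : ¬ (l : ℤ) ∣ (0 : ℤ) ^ 2 - 4 * 1 * (-D) := fun h => by
      have e : (0 : ℤ) ^ 2 - 4 * 1 * (-D) = 2 * (2 * D) := by ring
      rw [e] at h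
      exact (hp'.dvd_or_dvd h).elim h5 fun h => (hp'.dvd_or_dvd h).elim h5 hD
    have hJ : jacobiSym ((0 : ℤ) ^ 2 - 4 * 1 * (-D)) l = jacobiSym D l := by
      have e : (0 : ℤ) ^ 2 - 4 * 1 * (-D) = 2 ^ 2 * D := by ring
      rw [e, jacobiSym.mul_left, jacobiSym.sq_one', one_mul]
      exact Int.isCoprime_iff_gcd_eq_one.1 (hp'.coprime_iff_not_dvd.2 h5).symm
    have key : ∀ k, 0 < k → (cnt (l ^ k) (tid_A D l k) : ℝ) ≤ 1 + jacobiSym D l := fun k hk => by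
      have h1 := cnt_hensel hl h2 hp'.not_dvd_one hd hk
      rw [hJ] at h1
      have h3 := tid_cnt_mono (l ^ k) (A := tid_A D l k)
        (A' := fun y => (l : ℤ) ^ k ∣ 1 * y ^ 2 + 0 * y + -D) fun x hx => by
          have e : 1 * x ^ 2 + 0 * x + -D = x ^ 2 - D := by ring
          rw [e]
          exact hx.1
      have h4 : (cnt (l ^ k) (tid_A D l k) : ℤ) ≤ 1 + jacobiSym D l := by
        rw [← h1]
        exact_mod_cast h3
      exact_mod_cast h4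
    have hJ1 : (jacobiSym D l : ℝ) ≤ 1 := by
      rcases jacobiSym.trichotomy D l with h | h | h <;> rw [h] <;> norm_num
    have h1 := key 1 one_pos
    have h3 := key 2 two_pos
    rw [← e1] at h1
    rw [← e2] at h3
    have h4 : tid_r D l 2 / l ≤ 2 / l := div_le_div_of_nonneg_right (by linarith) hl0.le
    exact ⟨by linarith, by linarith⟩

theorem exists_fI : ∃ K : ℝ, 1 ≤ K ∧ ∀ D : ℤ, IsD D → ∃ f : ℕ → ℝ,
    HT K (fun l => jacobiSym D l) f ∧ ∀ n, 0 < n → ((Idl D n).ncard : ℝ) ≤ K * f n := by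
  refine ⟨8, by norm_num, fun D _ => ⟨fun n => (tid_pf tid_s * tid_pf (tid_r D)) n, ?_,
    fun n hn => tid_ncard D hn⟩⟩
  have hM := (tid_pf_mul tid_s).mul (tid_pf_mul (tid_r D))
  have hs0 : ∀ l, tid_s l 0 = 1 := fun l => if_pos Even.zero
  have hs1 : ∀ l, tid_s l 1 = 0 := fun l => if_neg Nat.not_even_one
  have hs2 : ∀ l, tid_s l 2 = 1 := fun l => if_pos even_two
  have f1 : ∀ l : ℕ, l.Prime → (tid_pf tid_s * tid_pf (tid_r D)) l = tid_r D l 1 := fun l hl => by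
    have := tid_conv_pow hl (tid_r_zero D l) (hs0 l) 1
    rw [pow_one] at this
    rw [this]
    simp [Finset.sum_range_succ, hs0, hs1]
  have f2 : ∀ l : ℕ, l.Prime → (tid_pf tid_s * tid_pf (tid_r D)) (l ^ 2) = tid_r D l 2 + 1 :=
    fun l hl => by
      rw [tid_conv_pow hl (tid_r_zero D l) (hs0 l) 2]
      simp [Finset.sum_range_succ, hs0, hs1, hs2, tid_r_zero]
  have r1 : tid_r D 2 1 = 1 := by simp [tid_r]
  have r2 : tid_r D 2 2 = 2 := by simp [tid_r]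
  refine ⟨fun n => ?_, hM.map_one.le, fun m n h => (hM.map_mul_of_coprime h).le, fun l hl => ?_,
    fun l hl => ?_, fun l k hl => ?_⟩
  · rw [ArithmeticFunction.mul_apply]
    exact Finset.sum_nonneg fun p _ => mul_nonneg (tid_pf_nonneg tid_s_nonneg _)
      (tid_pf_nonneg (tid_r_nonneg D) _)
  · rw [f1 l hl]
    by_cases h : l = 2
    · rw [h, r1]
      norm_num
    · exact (tid_odd D hl h).1
  · rw [f1 l hl, f2 l hl]
    by_cases h : l = 2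
    · subst h
      have hJ : (-1 : ℝ) ≤ jacobiSym D 2 := by
        rcases jacobiSym.trichotomy D 2 with h | h | h <;> rw [h] <;> norm_num
      rw [r1, r2]
      push_cast
      linarith
    · have h1 := (tid_odd D hl h).2
      have hl0 : (0 : ℝ) < l := by exact_mod_cast hl.pos
      have h2 : (2 : ℝ) / l + 1 / l ≤ 8 / l := by
        rw [← add_div]
        exact div_le_div_of_nonneg_right (by norm_num) hl0.le
      rw [add_div]
      linarith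
  · rw [tid_conv_pow hl (tid_r_zero D l) (hs0 l) k]
    have hl1 : (1 : ℝ) ≤ l := by exact_mod_cast hl.one_le
    have h1 : (l : ℝ) ^ (k / 2) ≤ Real.sqrt (l ^ k) := by
      refine Real.le_sqrt_of_sq_le ?_
      rw [← pow_mul]
      exact pow_le_pow_right₀ hl1 (by omega)
    have h2 := Finset.sum_le_card_nsmul (range (k + 1)) (fun i => tid_s l i * tid_r D l (k - i))
      (8 * Real.sqrt (l ^ k)) fun i _ => by
        have h3 := tid_r_le D hl (k - i)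
        have h4 : (l : ℝ) ^ ((k - i) / 2) ≤ l ^ (k / 2) := pow_le_pow_right₀ hl1 (by omega)
        have h5 := mul_le_of_le_one_left (tid_r_nonneg D l (k - i)) (tid_s_le l i)
        have h6 := Real.sqrt_nonneg ((l : ℝ) ^ k)
        linarith
    rw [Finset.card_range, nsmul_eq_mul] at h2
    push_cast at h2
    linarith

end Pool.Agent.EQ
end
end

-- part Pool.Agent.P.MP_ad7a55_nt.Tight2
section

/-! Ball orbits of good CM points do not escape. -/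

set_option autoImplicit false

noncomputable section

open MeasureTheory Topology Filter UpperHalfPlane
open scoped MatrixGroups ENNReal BoundedContinuousFunction

namespace Pool.Agent.EQ

variable (p : ℕ) [Fact p.Prime]

theorem tight2_vol {g : GG p} (hg : g.2 ∈ Kp p) : vol (latG p g) = 1 := by
  have hd := tight_det g.1
  have h1 : (starRingEnd ℂ ((g.1 0 0 : ℂ) - g.1 1 0 * Complex.I) *
      ((g.1 0 1 : ℂ) - g.1 1 1 * Complex.I)).im = -1 := by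
    simp
    linarith
  rw [latG_K p hg, (vol_sp' (by rw [h1]; norm_num)).2, h1]
  norm_num

theorem tight2_disc {D : ℤ} {g : GG p} (h : piX p (g : XX p) ∈ Cl D) : DiscL (latG p g) D := by
  obtain ⟨Λ, h1, h2⟩ := h
  obtain ⟨h3, h4⟩ := latG_spec p g
  obtain ⟨c, hc, h5⟩ := jL_inj h1.isLat h3 (h2.trans h4.symm)
  rw [h5]
  exact h1.pr_mul hc

theorem tight2_two : 1 ≤ 2 * ‖(2 : ℚ_[p])‖ := by
  have := tight_prod p (x := 2) (by simpa using inZp_int p 2) two_ne_zero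
  simpa using this

/-- A short vector with a divisibility condition makes the point bad. -/
theorem tight2_bad {D : ℤ} {e : ℚ_[p]} {g : GG p} (hg : g.2 ∈ Kp p)
    (hCl : piX p (g : XX p) ∈ Cl D) {Θ : Matrix (Fin 2) (Fin 2) ℤ}
    (h1 : (g.1 : Matrix (Fin 2) (Fin 2) ℝ) * Θ.map (↑) =
      !![0, Real.sqrt (-(D : ℝ)); -Real.sqrt (-(D : ℝ)), 0] * (g.1 : Matrix (Fin 2) (Fin 2) ℝ))
    (h2 : (g.2 : Matrix (Fin 2) (Fin 2) ℚ_[p]) * Θ.map (↑) =
      !![0, e; D / e, 0] * (g.2 : Matrix (Fin 2) (Fin 2) ℚ_[p])) (he : ‖e‖ = ‖(2 : ℚ_[p])‖)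
    {w : Fin 2 → ℚ} (hw0 : w ≠ 0) (hw : ∀ i, InZp p (w i)) {C : ℝ} (hC : 4 ≤ C)
    (h0 : ‖g.2 0 0 * w 0 + g.2 0 1 * w 1‖ ≤ 1) (h1' : ‖g.2 1 0 * w 0 + g.2 1 1 * w 1‖ ≤ 1)
    (h1'' : ‖g.2 1 0 * w 0 + g.2 1 1 * w 1‖ ^ 2 ≤ C * ‖(D : ℚ_[p])‖) (hn : nsq g.1 w ≤ C) :
    Bad1 p C D (piX p (g : XX p)) := by
  have hΛ := tight2_disc p hCl
  have hD : D < 0 := hΛ.isD.1
  have hσ : 0 < Real.sqrt (-(D : ℝ)) := Real.sqrt_pos.2 (by
    have : (D : ℝ) < 0 := by exact_mod_cast hD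
    linarith)
  have hpos := tight_nsq_pos g.1 hw0
  have hmem : frame_ph g.1 (w 0) (w 1) ∈ latG p g :=
    (frame_mem_latG p).2 ⟨w 0, w 1, hw 0, hw 1, h0, h1', rfl⟩
  have hsq : Complex.normSq (frame_ph g.1 (w 0) (w 1)) = nsq g.1 w := by
    rw [frame_ph, nsq, Complex.normSq_apply]
    simp only [Complex.sub_re, Complex.sub_im, Complex.ofReal_re, Complex.ofReal_im,
      Complex.mul_re, Complex.mul_im, Complex.I_re, Complex.I_im]
    ring
  have hne : frame_ph g.1 (w 0) (w 1) ≠ 0 := by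
    intro h
    rw [h, map_zero] at hsq
    linarith
  obtain ⟨n, hn1⟩ := hΛ.normSq_nat hmem
  have hId := hΛ.mem_Idl hmem hne hn1
  have hnm : nm D (latG p g) = 2 / Real.sqrt (-(D : ℝ)) := by rw [nm, tight2_vol p hg, mul_one]
  have h2n : 2 * (n : ℝ) = Real.sqrt (-(D : ℝ)) * nsq g.1 w := by
    rw [← hsq, hn1, hnm]; field_simp
  have hn0 : 0 < n := by
    have : (0 : ℝ) < n := by linarith [mul_pos hσ hpos]
    exact_mod_cast this
  set q : ℚ := w 0 * (Θ 1 0 * w 0 + Θ 1 1 * w 1) - w 1 * (Θ 0 0 * w 0 + Θ 0 1 * w 1) with hq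
  have hqR : (q : ℝ) = -(Real.sqrt (-(D : ℝ)) * nsq g.1 w) := by
    have := tight_form g.1 Θ _ _ h1 (w 0) (w 1)
    rw [hq, nsq]; push_cast; linear_combination this
  have hqP : (q : ℚ_[p]) = D / e * (g.2 0 0 * w 0 + g.2 0 1 * w 1) ^ 2 -
      e * (g.2 1 0 * w 0 + g.2 1 1 * w 1) ^ 2 := by
    have := tight_form g.2 Θ _ _ h2 (w 0) (w 1)
    rw [hq]; push_cast; linear_combination this
  have hqn : q = -(2 * n) := by
    have : (q : ℝ) = ((-(2 * n) : ℚ) : ℝ) := by rw [hqR, ← h2n]; push_cast; ring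
    exact_mod_cast this
  have ht := tight2_two p
  have ht0 : 0 < ‖(2 : ℚ_[p])‖ := by linarith
  have hq2 : ‖(q : ℚ_[p])‖ = ‖(2 : ℚ_[p])‖ * ‖(n : ℚ_[p])‖ := by
    rw [hqn]; push_cast; rw [norm_neg, norm_mul]
  have hqM : ‖(q : ℚ_[p])‖ ≤ ‖(2 : ℚ_[p])‖ * (C * ‖(D : ℚ_[p])‖) := by
    rw [hqP, sub_eq_add_neg]
    refine (Padic.nonarchimedean _ _).trans (max_le ?_ ?_)
    · rw [norm_mul, norm_div, norm_pow, he]
      refine (mul_le_of_le_one_right (by positivity) (pow_le_one₀ (norm_nonneg _) h0)).trans ?_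
      rw [div_le_iff₀ ht0]
      have a1 : 1 ≤ 4 * (‖(2 : ℚ_[p])‖ * ‖(2 : ℚ_[p])‖) := by nlinarith
      have a2 : 1 ≤ C * (‖(2 : ℚ_[p])‖ * ‖(2 : ℚ_[p])‖) :=
        a1.trans (mul_le_mul_of_nonneg_right hC (by positivity))
      calc ‖(D : ℚ_[p])‖ ≤ ‖(D : ℚ_[p])‖ * (C * (‖(2 : ℚ_[p])‖ * ‖(2 : ℚ_[p])‖)) :=
            le_mul_of_one_le_right (norm_nonneg _) a2
        _ = _ := by ring
    · rw [norm_neg, norm_mul, norm_pow, he]
      exact mul_le_mul_of_nonneg_left h1'' ht0.le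
  refine ⟨n, hn0, ?_, ?_, _, hId, ?_⟩
  · have a1 : Real.sqrt (-(D : ℝ)) * nsq g.1 w ≤ Real.sqrt (-(D : ℝ)) * C :=
      mul_le_mul_of_nonneg_left hn hσ.le
    have a2 : (0 : ℝ) ≤ n := Nat.cast_nonneg n
    linarith
  · rw [hq2] at hqM
    exact le_of_mul_le_mul_left hqM ht0
  · rw [jL_pr_mul hΛ.isLat, (latG_spec p g).2]
    refine div_ne_zero ((map_ne_zero _).2 hne) ?_
    exact_mod_cast hΛ.nm_pos.ne'

/-- Lower bound for the vectors of the lattice of `a^r x` at a good point. -/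
theorem tight2_low {D : ℤ} {x : XX p} {e : ℚ_[p]} (hF : Frame p D x e) (hCl : piX p x ∈ Cl D)
    {r : ℕ} {C : ℝ} (hC : 4 ≤ C) (hDr : 1 ≤ C * (‖(D : ℚ_[p])‖ * ((p : ℝ) ^ (2 * r)) ^ 2))
    (hB : ¬ Bad1 p C D (piX p x)) {h : GG p} (hK : h.2 ∈ Kp p)
    (hh : (h : XX p) = aP p r • x) {z : Fin 2 → ℤ} (hz : IsCoprime (z 0) (z 1)) :
    C < (p : ℝ) ^ (2 * r) * nsq h.1 (fun i => z i) := by
  have hp : (2 : ℝ) ≤ p := tight_two_le p
  have hpP : (p : ℚ_[p]) ≠ 0 := by exact_mod_cast (Fact.out : p.Prime).ne_zero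
  have hpQ : (p : ℚ) ≠ 0 := by exact_mod_cast (Fact.out : p.Prime).ne_zero
  obtain ⟨g, Θ, rfl, hg, h1, h2, he⟩ := hF
  have hh' : ((aP p r * uP p 0 * g : GG p) : XX p) = h := by
    rw [hh, uP_zero, mul_one]; rfl
  have hz0 : (fun i => (z i : ℚ)) ≠ 0 := by
    intro h0
    have a0 : z 0 = 0 := by simpa using congrFun h0 0
    have a1 : z 1 = 0 := by simpa using congrFun h0 1
    rw [a0, a1] at hz
    exact not_isCoprime_zero_zero hz
  obtain ⟨v, hv0, hv, hR, hP⟩ := tight_transfer p hh' hz0 fun i => inZp_int p (z i)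
  rw [tight_ent1] at hR
  have hP0 := hP 0
  have hP1 := hP 1
  rw [tight_ent20, zero_mul, add_zero] at hP0
  rw [tight_ent21] at hP1
  have hb : ∀ i, ‖h.2 i 0 * ((z 0 : ℚ) : ℚ_[p]) + h.2 i 1 * ((z 1 : ℚ) : ℚ_[p])‖ ≤ 1 := fun i =>
    tight_lin p (hK i 0) (hK i 1) (by simpa using Padic.norm_int_le_one (p := p) (z 0))
      (by simpa using Padic.norm_int_le_one (p := p) (z 1))
  have hb0 : ‖(p : ℚ_[p]) ^ r * (g.2 0 0 * v 0 + g.2 0 1 * v 1)‖ ≤ 1 := by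
    rw [hP0]; exact hb 0
  have hb1 : ‖g.2 1 0 * v 0 + g.2 1 1 * v 1‖ * (p : ℝ) ^ r ≤ 1 := by
    have := hb 1
    rw [← hP1, norm_mul, norm_inv, norm_pow, Padic.norm_p, inv_pow, inv_inv, mul_comm] at this
    exact this
  have hn : nsq g.1 v = nsq h.1 (fun i => z i) := by
    rw [nsq, nsq, hR 0, hR 1]
  have hr : (0 : ℝ) < (p : ℝ) ^ r := by positivity
  have hr1 : (1 : ℝ) ≤ (p : ℝ) ^ (2 * r) := one_le_pow₀ (by linarith)
  have hpr : InZp p ((p : ℚ) ^ r) := by simpa using inZp_int p ((p : ℤ) ^ r)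
  by_contra hc
  have hc' : (p : ℝ) ^ (2 * r) * nsq h.1 (fun i => z i) ≤ C := not_lt.1 hc
  have e0 : ∀ i, g.2 i 0 * (((p : ℚ) ^ r * v 0 : ℚ) : ℚ_[p]) +
      g.2 i 1 * (((p : ℚ) ^ r * v 1 : ℚ) : ℚ_[p]) =
      (p : ℚ_[p]) ^ r * (g.2 i 0 * v 0 + g.2 i 1 * v 1) := by
    intro i; push_cast; ring
  have e1 : ‖(p : ℚ_[p]) ^ r * (g.2 1 0 * v 0 + g.2 1 1 * v 1)‖ * (p : ℝ) ^ (2 * r) ≤ 1 := by
    rw [norm_mul, norm_pow, Padic.norm_p, inv_pow]
    refine le_trans (le_of_eq ?_) hb1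
    field_simp; ring
  refine hB (tight2_bad p hg hCl h1 h2 he (w := fun i => (p : ℚ) ^ r * v i) ?_
    (fun i => hpr.mul (hv i)) hC ?_ ?_ ?_ ?_)
  · intro h0
    apply hv0
    ext i
    simpa [hpQ] using congrFun h0 i
  · rw [e0]; exact hb0
  · rw [e0]
    exact (le_mul_of_one_le_right (norm_nonneg _) hr1).trans e1
  · rw [e0]
    have a1 : (‖(p : ℚ_[p]) ^ r * (g.2 1 0 * v 0 + g.2 1 1 * v 1)‖ * (p : ℝ) ^ (2 * r)) ^ 2 ≤ 1 :=
      pow_le_one₀ (by positivity) e1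
    have a2 := a1.trans hDr
    rw [mul_pow, ← mul_assoc] at a2
    exact le_of_mul_le_mul_right a2 (by positivity)
  · refine le_trans (le_of_eq ?_) hc'
    rw [← hn, nsq, nsq]; push_cast; ring

theorem tight2_even {x : XX p} (j m : ℕ) {δ : ℝ} (hδ : 0 < δ)
    (hlow : ∀ (h : GG p) (z : Fin 2 → ℤ), h.2 ∈ Kp p → (h : XX p) = aP p (j + m) • x →
      IsCoprime (z 0) (z 1) → 1 ≤ δ ^ 2 * (p : ℝ) ^ (2 * m) * nsq h.1 (fun i => z i)) :
    bm p ((2 * (j + m) : ℕ) : ℤ) {t | Short p δ (aP p j • uP p t • x)} ≤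
      ENNReal.ofReal (9 * p * δ ^ 2) := by
  have hp : (2 : ℝ) ≤ p := tight_two_le p
  have hp0 : (0 : ℝ) < p := by linarith
  obtain ⟨h, hK, hh⟩ := exists_rep p (aP p (j + m) • x)
  obtain ⟨N, hN1, hN2⟩ := tight_range hp (B := δ ^ 2 * (p : ℝ) ^ (2 * m)) (by positivity)
  choose T hT1 hT2 using fun c : ℕ =>
    card_prim h.1 (R := δ * (p : ℝ) ^ m / (p : ℝ) ^ c) (by positivity)
  set E : ℕ → (Fin 2 → ℤ) → Set ℚ_[p] := fun c z =>
    {t | ‖t‖ ≤ (p : ℝ) ^ (2 * (j + m)) ∧ ‖(h.2 0 0 * z 0 + h.2 0 1 * z 1) +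
      t * (p : ℚ_[p]) ^ (2 * (j + m)) * (h.2 1 0 * z 0 + h.2 1 1 * z 1)‖ ≤
        (p : ℝ) ^ ((c : ℤ) - 2 * m)} with hE
  classical
  have hsub : {t | Short p δ (aP p j • uP p t • x)} ≤ᵐ[bm p ((2 * (j + m) : ℕ) : ℤ)]
      (⋃ c ∈ Finset.range N, ⋃ z ∈ (T c).filter (fun z => IsCoprime (z 0) (z 1)), E c z :
        Set ℚ_[p]) := by
    filter_upwards [bm_ae p ((2 * (j + m) : ℕ) : ℤ)] with t ht hs
    rw [zpow_natCast] at ht
    obtain ⟨z, c, hz, h1, h2⟩ := tight_cover p j m hK hh ht hs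
    have h3 := hlow h z hK hh hz
    have hc : c < N := by
      refine hN1 c (pow_le_pow_iff_left₀ (n := 2) (by positivity) (by positivity) two_ne_zero |>.1
        ?_)
      rw [← pow_mul, mul_comm c 2]
      calc (p : ℝ) ^ (2 * c)
          ≤ (p : ℝ) ^ (2 * c) * (δ ^ 2 * (p : ℝ) ^ (2 * m) * nsq h.1 (fun i => z i)) :=
            le_mul_of_one_le_right (by positivity) h3
        _ = (δ ^ 2 * (p : ℝ) ^ (2 * m)) * ((p : ℝ) ^ (2 * c) * nsq h.1 (fun i => z i)) := by ring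
        _ ≤ (δ ^ 2 * (p : ℝ) ^ (2 * m)) * (δ ^ 2 * (p : ℝ) ^ (2 * m)) :=
            mul_le_mul_of_nonneg_left h1.le (by positivity)
        _ = _ := by ring
    have hzT : z ∈ T c := by
      refine hT2 c z hz ?_
      rw [div_pow, lt_div_iff₀ (by positivity), mul_pow, ← pow_mul, ← pow_mul, mul_comm c 2,
        mul_comm m 2, mul_comm]
      exact h1
    exact Set.mem_biUnion (Finset.mem_range.2 hc)
      (Set.mem_biUnion (Finset.mem_filter.2 ⟨hzT, hz⟩) ⟨ht, h2⟩)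
  have hone : ∀ c : ℕ, bm p ((2 * (j + m) : ℕ) : ℤ)
      (⋃ z ∈ (T c).filter (fun z => IsCoprime (z 0) (z 1)), E c z) ≤
      ENNReal.ofReal (7 * δ ^ 2 * ((p : ℝ) ^ c)⁻¹ + 2 * ((p : ℝ) ^ (2 * m))⁻¹ * (p : ℝ) ^ c) := by
    intro c
    refine (measure_biUnion_finset_le _ _).trans ?_
    refine (Finset.sum_le_card_nsmul _ _ (ENNReal.ofReal ((p : ℝ) ^ ((c : ℤ) - 2 * m)))
      fun z hz => tight_meas p hK (Finset.mem_filter.1 hz).2 _ _).trans ?_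
    rw [nsmul_eq_mul, ← ENNReal.ofReal_natCast, ← ENNReal.ofReal_mul (by positivity)]
    refine ENNReal.ofReal_le_ofReal ?_
    have h1 : (((T c).filter (fun z => IsCoprime (z 0) (z 1))).card : ℝ) ≤
        7 * (δ * (p : ℝ) ^ m / (p : ℝ) ^ c) ^ 2 + 2 :=
      le_trans (by exact_mod_cast Finset.card_filter_le _ _) (hT1 c)
    refine (mul_le_mul_of_nonneg_right h1 (by positivity)).trans (le_of_eq ?_)
    have h2 : (p : ℝ) ^ ((c : ℤ) - 2 * m) = (p : ℝ) ^ c / (p : ℝ) ^ (2 * m) := by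
      rw [zpow_sub₀ hp0.ne', zpow_natCast]; congr 1
    rw [h2]; field_simp; ring
  refine (measure_mono_ae hsub).trans ((measure_biUnion_finset_le _ _).trans ?_)
  refine (Finset.sum_le_sum fun c _ => hone c).trans ?_
  rw [← ENNReal.ofReal_sum_of_nonneg fun c _ => by positivity]
  refine ENNReal.ofReal_le_ofReal ?_
  rw [Finset.sum_add_distrib, ← Finset.mul_sum, ← Finset.mul_sum]
  have h1 : ∑ c ∈ Finset.range N, ((p : ℝ) ^ c)⁻¹ ≤ 2 :=
    (tight_geo1 hp N).trans (sub_le_self _ (by positivity))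
  have h2 : 2 * ((p : ℝ) ^ (2 * m))⁻¹ * ∑ c ∈ Finset.range N, (p : ℝ) ^ c ≤ 2 * p * δ ^ 2 := by
    refine (mul_le_mul_of_nonneg_left hN2 (by positivity)).trans (le_of_eq ?_)
    field_simp
  have h3 : 7 * δ ^ 2 * ∑ c ∈ Finset.range N, ((p : ℝ) ^ c)⁻¹ ≤ 7 * δ ^ 2 * 2 :=
    mul_le_mul_of_nonneg_left h1 (by positivity)
  nlinarith [sq_nonneg δ]

theorem tight_frame2 {ε : ℝ≥0∞} (hε : 0 < ε) : ∃ Ω : Set (XX p), IsCompact Ω ∧ ∀ j c : ℕ,
    ∃ C : ℕ, ∀ (D : ℤ) (x : XX p) (e d : ℚ_[p]) (r : ℤ), Frame p D x e → piX p x ∈ Cl D →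
      ‖(D : ℚ_[p])‖ * (‖d‖ * (p : ℝ) ^ r) ^ 2 ≤ 1 →
      1 ≤ (p : ℝ) ^ c * (‖(D : ℚ_[p])‖ * (‖d‖ * (p : ℝ) ^ r) ^ 2) →
      (C : ℝ) ≤ ‖d‖ * (p : ℝ) ^ r → ¬ Bad1 p C D (piX p x) →
      bm p r {s | aP p j • uP p (d * s) • x ∉ Ω} ≤ ε := by
  have hp : (2 : ℝ) ≤ p := tight_two_le p
  have hp0 : (0 : ℝ) < p := by linarith
  have hp1 : (1 : ℝ) < p := by linarith
  obtain ⟨δ, hδ, hδ1, hδε⟩ : ∃ δ : ℝ, 0 < δ ∧ δ ≤ 1 ∧ ENNReal.ofReal (p * (9 * p * δ ^ 2)) ≤ ε := by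
    obtain ⟨η, -, hη0, hη⟩ := ENNReal.lt_iff_exists_real_btwn.1 hε
    have hη1 : 0 < η := ENNReal.ofReal_pos.1 hη0
    refine ⟨min 1 (η / (9 * p ^ 2)), by positivity, min_le_left _ _,
      (ENNReal.ofReal_le_ofReal ?_).trans hη.le⟩
    have h1 : min 1 (η / (9 * (p : ℝ) ^ 2)) ^ 2 ≤ 1 * (η / (9 * p ^ 2)) := by
      rw [sq]
      exact mul_le_mul (min_le_left _ _) (min_le_right _ _) (by positivity) one_pos.le
    rw [one_mul, le_div_iff₀ (by positivity)] at h1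
    linarith
  obtain ⟨Ω, hΩ, hΩ'⟩ := exists_compact_notShort p hδ
  refine ⟨Ω, hΩ, fun j c => ⟨⌈4 + (p : ℝ) ^ c + (p : ℝ) ^ (2 * j) / δ ^ 2⌉₊,
    fun D x e d r hF hCl _ h1 h2 hB => ?_⟩⟩
  have hC0 := Nat.le_ceil (4 + (p : ℝ) ^ c + (p : ℝ) ^ (2 * j) / δ ^ 2)
  generalize ((⌈4 + (p : ℝ) ^ c + (p : ℝ) ^ (2 * j) / δ ^ 2⌉₊ : ℕ) : ℝ) = C at hC0 h2 hB
  have hq1 : (0 : ℝ) < (p : ℝ) ^ c := by positivity
  have hq2 : (0 : ℝ) < (p : ℝ) ^ (2 * j) / δ ^ 2 := by positivity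
  have hq3 : (p : ℝ) ^ (2 * j) ≤ (p : ℝ) ^ (2 * j) / δ ^ 2 :=
    le_div_self (by positivity) (by positivity) (pow_le_one₀ hδ.le hδ1)
  have hd : d ≠ 0 := by
    rintro rfl
    simp only [norm_zero, zero_mul] at h2
    linarith
  obtain ⟨v, hv⟩ := exists_norm_eq p hd
  have hT : ‖d‖ * (p : ℝ) ^ r = (p : ℝ) ^ (r + v) := by rw [hv, zpow_add₀ hp0.ne', mul_comm]
  rw [hT] at h1 h2
  have hj : 2 * (j : ℤ) ≤ r + v := by
    have h4 : (p : ℝ) ^ (2 * j) ≤ (p : ℝ) ^ (r + v) := by linarith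
    rw [← zpow_natCast, zpow_le_zpow_iff_right₀ hp1] at h4
    exact_mod_cast h4
  obtain ⟨m, hm1, hm2⟩ : ∃ m : ℕ, r + v ≤ ((2 * (j + m) : ℕ) : ℤ) ∧
      ((2 * (j + m) : ℕ) : ℤ) ≤ r + v + 1 := ⟨((r + v + 1) / 2 - j).toNat, by omega, by omega⟩
  have hlo : (p : ℝ) ^ (r + v) ≤ (p : ℝ) ^ (2 * (j + m)) := by
    rw [← zpow_natCast]; exact zpow_le_zpow_right₀ hp1.le hm1
  have key := tight2_even p (x := x) j m hδ ?_
  · have h5 : bm p r {s | aP p j • uP p (d * s) • x ∉ Ω} ≤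
        bm p (r + v) {t | Short p δ (aP p j • uP p t • x)} := by
      rw [← bm_mul p r v hv]
      refine le_trans (measure_mono ?_) (Measure.le_map_apply
        (continuous_const.mul continuous_id).measurable.aemeasurable _)
      intro s hs
      by_contra hc
      exact hs (hΩ' _ hc)
    refine h5.trans ((bm_le p hm1 _).trans (le_trans ?_ hδε))
    rw [ENNReal.ofReal_mul hp0.le]
    refine mul_le_mul' (ENNReal.ofReal_le_ofReal ?_) key
    calc _ ≤ (p : ℝ) ^ (1 : ℤ) := zpow_le_zpow_right₀ hp1.le (by omega)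
      _ = p := zpow_one _
  · intro h z hK hh hz
    have hDr : 1 ≤ C * (‖(D : ℚ_[p])‖ * ((p : ℝ) ^ (2 * (j + m))) ^ 2) := by
      refine h1.trans ?_
      have a1 : (p : ℝ) ^ c ≤ C := by linarith
      have a2 : (0 : ℝ) ≤ C := by linarith
      gcongr
    have h3 := tight2_low p hF hCl (by linarith) hDr hB hK hh hz
    have h4 : (p : ℝ) ^ (2 * j) / δ ^ 2 ≤ (p : ℝ) ^ (2 * (j + m)) * nsq h.1 (fun i => z i) := by
      linarith
    rw [div_le_iff₀ (by positivity)] at h4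
    have h5 : (p : ℝ) ^ (2 * j) * 1 ≤
        (p : ℝ) ^ (2 * j) * (δ ^ 2 * (p : ℝ) ^ (2 * m) * nsq h.1 (fun i => z i)) := by
      rw [mul_one]
      refine h4.trans (le_of_eq ?_)
      ring
    exact le_of_mul_le_mul_left h5 (by positivity)

end Pool.Agent.EQ
end
end
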