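import Pool.Agent.K.MP_ad7a55_nt.C39
import Pool.Agent.K.MP_ad7a55_nt.C36
import Pool.Agent.K.MP_ad7a55_nt.C18
import Pool.Agent.K.MP_ad7a55_nt.C9
import Pool.Agent.K.MP_ad7a55_nt.C32
import Pool.Agent.K.MP_ad7a55_nt.C38
import Pool.Agent.K.MP_ad7a55_nt.C40

-- part Pool.Agent.P.MP_ad7a55_nt.UFr
section

/-! Frames at two split primes. -/

set_option autoImplicit false

noncomputable section

open MeasureTheory Topology Filter UpperHalfPlane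
open scoped MatrixGroups ENNReal BoundedContinuousFunction

namespace Pool.Agent.EQ

/-- The discriminant has a split fundamental part at the prime `p`. -/
def Spl (p κ : ℕ) (D : ℤ) : Prop := ∃ E : ℤ, D = (p : ℤ) ^ (2 * κ) * E ∧ jacobiSym E p = 1

variable (p q : ℕ) [Fact p.Prime] [Fact q.Prime]

/-- The matrix `Θ` acts as `√D`, and it is diagonal at both primes. -/
def FrG (D : ℤ) (rp : ℚ_[p]) (rq : ℚ_[q]) (hq : SL(2, ℚ_[q])) (g : G3 p q)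
    (Θ : Matrix (Fin 2) (Fin 2) ℚ) : Prop :=
  (g.1.1 : Matrix (Fin 2) (Fin 2) ℝ) * Θ.map (↑) =
      !![0, Real.sqrt (-(D : ℝ)); -Real.sqrt (-(D : ℝ)), 0] * (g.1.1 : Matrix (Fin 2) (Fin 2) ℝ) ∧
    (g.1.2 : Matrix (Fin 2) (Fin 2) ℚ_[p]) * Θ.map (↑) =
      !![rp, 0; 0, -rp] * (g.1.2 : Matrix (Fin 2) (Fin 2) ℚ_[p]) ∧
    ((hq⁻¹ * g.2 : SL(2, ℚ_[q])) : Matrix (Fin 2) (Fin 2) ℚ_[q]) * Θ.map (↑) =
      !![rq, 0; 0, -rq] * ((hq⁻¹ * g.2 : SL(2, ℚ_[q])) : Matrix (Fin 2) (Fin 2) ℚ_[q])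

def Fr3 (D : ℤ) (rp : ℚ_[p]) (rq : ℚ_[q]) (hq : SL(2, ℚ_[q])) (x : X3 p q) : Prop :=
  ∃ (g : G3 p q) (Θ : Matrix (Fin 2) (Fin 2) ℚ), (g : X3 p q) = x ∧ FrG p q D rp rq hq g Θ

/-- A framed point over a class of discriminant `D`. -/
def CF (D : ℤ) (rp : ℚ_[p]) (rq : ℚ_[q]) (hp : SL(2, ℚ_[p])) (hq : SL(2, ℚ_[q])) (x : X3 p q) :
    Prop :=
  Fr3 p q D rp rq hq x ∧ DiscL (lat3 p q (iP p q hp • x)) D

theorem ufr_jac_ndvd {E : ℤ} (h : jacobiSym E p = 1) : ¬ (p : ℤ) ∣ E := by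
  intro hd
  rw [← jacobiSym.legendreSym.to_jacobiSym, (legendreSym.eq_zero_iff p E).2
    ((ZMod.intCast_zmod_eq_zero_iff_dvd E p).2 hd)] at h
  exact zero_ne_one h

theorem ufr_norm_one {n : ℤ} (h : ¬ (p : ℤ) ∣ n) : ‖(n : ℚ_[p])‖ = 1 :=
  le_antisymm (Padic.norm_int_le_one n) (not_lt.1 fun h' => h (Padic.norm_intCast_lt_one_iff.1 h'))

theorem ufr_two (h2 : p ≠ 2) : ‖(2 : ℚ_[p])‖ = 1 := by
  have h : ¬ (p : ℤ) ∣ 2 := fun h' =>
    h2 ((Nat.prime_dvd_prime_iff_eq Fact.out Nat.prime_two).1 (by exact_mod_cast h'))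
  simpa using ufr_norm_one p h

theorem ufr_val {n : ℤ} (h : ¬ (p : ℤ) ∣ n) (e : ℕ) : padicValInt p ((p : ℤ) ^ e * n) = e := by
  have hp : (p : ℤ) ≠ 0 := by exact_mod_cast (Fact.out : p.Prime).ne_zero
  have hn : n ≠ 0 := by rintro rfl; exact h (dvd_zero _)
  rw [padicValInt.mul (pow_ne_zero _ hp) hn, padicValInt.eq_zero_of_not_dvd h, add_zero]
  simp [padicValInt, Int.natAbs_pow]

theorem ufr_jac_sq {n : ℤ} (h : ¬ (p : ℤ) ∣ n) : jacobiSym (n ^ 2) p = 1 :=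
  jacobiSym.sq_one' (Int.isCoprime_iff_gcd_eq_one.1
    ((prime_star p).coprime_iff_not_dvd.2 h).symm)

theorem Spl.sqrt (h2 : p ≠ 2) {κ : ℕ} {D : ℤ} (h : Spl p κ D) :
    ∃ r : ℚ_[p], r ^ 2 = D ∧ ‖r‖ = (p : ℝ) ^ (-(κ : ℤ)) := by
  obtain ⟨E, rfl, hE⟩ := h
  have hnd := ufr_jac_ndvd p hE
  have h0 : (E : ZMod p) ≠ 0 := fun h' => hnd ((ZMod.intCast_zmod_eq_zero_iff_dvd E p).1 h')
  rw [← jacobiSym.legendreSym.to_jacobiSym, legendreSym.eq_one_iff p h0] at hE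
  obtain ⟨y, hy⟩ := hE
  obtain ⟨a, rfl⟩ := ZMod.intCast_surjective y
  have h1 : (p : ℤ) ∣ a ^ 2 - E := by
    rw [← ZMod.intCast_zmod_eq_zero_iff_dvd]
    push_cast
    rw [hy]; ring
  have h3 : ¬ (p : ℤ) ∣ a := fun h' => hnd (by
    have := (h'.pow two_ne_zero).sub h1
    rwa [sub_sub_cancel] at this)
  have h4 : ‖(Polynomial.X ^ 2 - Polynomial.C (E : ℤ_[p])).aeval (a : ℤ_[p])‖ <
      ‖(Polynomial.X ^ 2 - Polynomial.C (E : ℤ_[p])).derivative.aeval (a : ℤ_[p])‖ ^ 2 := by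
    have e1 : (Polynomial.X ^ 2 - Polynomial.C (E : ℤ_[p])).aeval (a : ℤ_[p]) =
        ((a ^ 2 - E : ℤ) : ℤ_[p]) := by simp
    have e2 : (Polynomial.X ^ 2 - Polynomial.C (E : ℤ_[p])).derivative.aeval (a : ℤ_[p]) =
        2 * (a : ℤ_[p]) := by
      simp only [map_sub, Polynomial.derivative_X_pow, Polynomial.derivative_C, sub_zero, map_mul,
        Polynomial.aeval_C, map_pow, Polynomial.aeval_X]
      simp
    have e3 : ‖(2 * (a : ℤ_[p]) : ℤ_[p])‖ = 1 := by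
      rw [PadicInt.norm_def]
      push_cast
      rw [norm_mul, ufr_norm_one p h3, mul_one]
      exact ufr_two p h2
    rw [e1, e2, e3, one_pow]
    exact (PadicInt.norm_int_lt_one_iff_dvd _).2 h1
  obtain ⟨z, hz, -⟩ := hensels_lemma h4
  have h5 : z ^ 2 = (E : ℤ_[p]) := by
    simpa [sub_eq_zero] using hz
  have h6 : (z : ℚ_[p]) ^ 2 = (E : ℚ_[p]) := by exact_mod_cast congrArg (fun t : ℤ_[p] => (t : ℚ_[p])) h5
  have h7 : ‖(z : ℚ_[p])‖ = 1 := by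
    have := congrArg norm h6
    rw [norm_pow, ufr_norm_one p hnd] at this
    exact (pow_eq_one_iff_of_nonneg (norm_nonneg _) two_ne_zero).1 this
  refine ⟨(p : ℚ_[p]) ^ κ * z, ?_, ?_⟩
  · rw [mul_pow, h6]; push_cast; ring
  · rw [norm_mul, h7, mul_one, norm_pow, Padic.norm_p, zpow_neg, zpow_natCast, inv_pow]

theorem Spl.val {κ : ℕ} {D : ℤ} (h : Spl p κ D) : padicValInt p D = 2 * κ := by
  obtain ⟨E, rfl, hE⟩ := h
  exact ufr_val p (ufr_jac_ndvd p hE) _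

theorem Spl.of_sq {κ : ℕ} {D D' : ℤ} (h : Spl p κ D) (hD' : D' ≠ 0) (hs : IsSquare (D' * D)) :
    ∃ κ', Spl p κ' D' := by
  obtain ⟨E, rfl, hE⟩ := h
  have hnd := ufr_jac_ndvd p hE
  have hp : (p : ℤ) ≠ 0 := by exact_mod_cast (Fact.out : p.Prime).ne_zero
  have hE0 : E ≠ 0 := by rintro rfl; exact hnd (dvd_zero _)
  obtain ⟨s, hs⟩ := hs
  have hs0 : s ≠ 0 := by
    rintro rfl
    exact mul_ne_zero hD' (mul_ne_zero (pow_ne_zero _ hp) hE0) (by rw [hs, mul_zero])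
  obtain ⟨e, n, hn, rfl⟩ := split_star p hD'
  obtain ⟨f, m, hm, rfl⟩ := split_star p hs0
  have e1 : (p : ℤ) ^ (e + 2 * κ) * (n * E) = (p : ℤ) ^ (2 * f) * m ^ 2 := by
    linear_combination hs
  have hm2 : ¬ (p : ℤ) ∣ m ^ 2 := fun h' => hm ((prime_star p).dvd_of_dvd_pow h')
  have e2 : e + 2 * κ = 2 * f := by
    have := congrArg (padicValInt p) e1
    rwa [ufr_val p ((prime_star p).not_dvd_mul hn hnd), ufr_val p hm2] at this
  rw [e2] at e1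
  have e3 := mul_left_cancel₀ (pow_ne_zero _ hp) e1
  refine ⟨f - κ, n, by rw [show 2 * (f - κ) = e by omega], ?_⟩
  have e4 := ufr_jac_sq p hm
  rwa [← e3, jacobiSym.mul_left, hE, mul_one] at e4

theorem spl_of_jac {d f : ℤ} (hd : jacobiSym d p = 1) (hf : f ≠ 0) : ∃ κ, Spl p κ (f ^ 2 * d) := by
  obtain ⟨e, n, hn, rfl⟩ := split_star p hf
  exact ⟨e, n ^ 2 * d, by ring, by rw [jacobiSym.mul_left, ufr_jac_sq p hn, hd, mul_one]⟩

theorem ufr_eig (h2 : p ≠ 2) {a b c : ℤ} (h : Int.gcd (Int.gcd a b) c = 1) {r : ℚ_[p]}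
    (hr : r ^ 2 = ((b ^ 2 - 4 * a * c : ℤ) : ℚ_[p])) :
    ∃ x y : ℚ_[p], ‖x‖ ≤ 1 ∧ ‖y‖ ≤ 1 ∧ (‖x‖ = 1 ∨ ‖y‖ = 1) ∧
      x * b - 2 * a * y = r * x ∧ 2 * c * x - b * y = r * y := by
  have hi : ∀ n : ℤ, ‖(n : ℚ_[p])‖ ≤ 1 := Padic.norm_int_le_one
  have ht := ufr_two p h2
  have hr1 : ‖r‖ ≤ 1 := by
    have := hi (b ^ 2 - 4 * a * c)
    rw [← hr, norm_pow] at this
    exact (pow_le_one_iff_of_nonneg (norm_nonneg _) two_ne_zero).1 this
  have hm : ‖(b : ℚ_[p]) + -r‖ ≤ 1 := frame_add_le p (hi b) (frame_neg_le p hr1)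
  have hq : ‖r + (b : ℚ_[p])‖ ≤ 1 := frame_add_le p hr1 (hi b)
  have ha : ‖2 * (a : ℚ_[p])‖ ≤ 1 := frame_mul_le p ht.le (hi a)
  have hc : ‖2 * (c : ℚ_[p])‖ ≤ 1 := frame_mul_le p ht.le (hi c)
  push_cast at hr
  by_cases h1 : ‖2 * (a : ℚ_[p])‖ = 1 ∨ ‖(b : ℚ_[p]) + -r‖ = 1
  · exact ⟨_, _, ha, hm, h1, by ring, by linear_combination hr⟩
  by_cases h3 : ‖r + (b : ℚ_[p])‖ = 1 ∨ ‖2 * (c : ℚ_[p])‖ = 1
  · exact ⟨_, _, hq, hc, h3, by linear_combination -hr, by ring⟩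
  exfalso
  push Not at h1 h3
  have d : ∀ n : ℤ, ‖2 * (n : ℚ_[p])‖ < 1 → (p : ℤ) ∣ n := fun n hn => by
    rw [norm_mul, ht, one_mul] at hn
    exact Padic.norm_intCast_lt_one_iff.1 hn
  have da := d a (lt_of_le_of_ne ha h1.1)
  have dc := d c (lt_of_le_of_ne hc h3.2)
  have db := d b (by
    rw [show 2 * (b : ℚ_[p]) = (b + -r) + (r + b) by ring]
    exact (Padic.nonarchimedean _ _).trans_lt
      (max_lt (lt_of_le_of_ne hm h1.2) (lt_of_le_of_ne hq h3.1)))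
  have h5 : (p : ℤ) ∣ (Int.gcd a b : ℤ) := Int.dvd_coe_gcd da db
  have h6 : (p : ℤ) ∣ (Int.gcd (Int.gcd a b) c : ℤ) := Int.dvd_coe_gcd h5 dc
  rw [h] at h6
  exact (prime_star p).not_dvd_one h6

theorem ufr_compl {x y : ℚ_[p]} (hx : ‖x‖ ≤ 1) (hy : ‖y‖ ≤ 1) (h : ‖x‖ = 1 ∨ ‖y‖ = 1) :
    ∃ z t : ℚ_[p], ‖z‖ ≤ 1 ∧ ‖t‖ ≤ 1 ∧ x * t - y * z = 1 := by
  rcases h with h | h
  · have h0 : x ≠ 0 := by rintro rfl; simp at h
    exact ⟨0, x⁻¹, by simp, by rw [norm_inv, h, inv_one], by field_simp; ring⟩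
  · have h0 : y ≠ 0 := by rintro rfl; simp at h
    exact ⟨-y⁻¹, 0, by rw [norm_neg, norm_inv, h, inv_one], by simp, by field_simp; ring⟩

theorem ufr_appr (c : ℕ) {s : ℚ_[p]} (hs : ‖s‖ ≤ (p : ℝ) ^ c) :
    ∃ a < p ^ c, ‖s - (a : ℚ_[p]) / (p : ℚ_[p]) ^ c‖ ≤ 1 := by
  have hp : (0 : ℝ) < p := by exact_mod_cast (Fact.out : p.Prime).pos
  have hp' : (p : ℚ_[p]) ≠ 0 := by exact_mod_cast (Fact.out : p.Prime).ne_zero
  have hn : ‖(p : ℚ_[p]) ^ c‖ = ((p : ℝ) ^ c)⁻¹ := by rw [norm_pow, Padic.norm_p, inv_pow]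
  have h1 : ‖(p : ℚ_[p]) ^ c * s‖ ≤ 1 := by
    rw [norm_mul, hn, inv_mul_le_iff₀ (by positivity), mul_one]; exact hs
  obtain ⟨z, hz⟩ : ∃ z : ℤ_[p], (z : ℚ_[p]) = (p : ℚ_[p]) ^ c * s := ⟨⟨_, h1⟩, rfl⟩
  refine ⟨z.appr c, z.appr_lt c, ?_⟩
  have h2 := (PadicInt.norm_le_pow_iff_mem_span_pow _ c).2 (z.appr_spec c)
  rw [PadicInt.norm_def] at h2
  push_cast at h2
  rw [hz, zpow_neg, zpow_natCast] at h2
  have e : s - (z.appr c : ℚ_[p]) / (p : ℚ_[p]) ^ c =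
      ((p : ℚ_[p]) ^ c * s - z.appr c) / (p : ℚ_[p]) ^ c := by field_simp
  rw [e, norm_div, hn, div_le_one (by positivity)]
  exact h2

theorem ufr_loc (h2 : p ≠ 2) (c₀ : ℕ) : ∃ T : Finset SL(2, ℚ_[p]),
    (∀ h ∈ T, Bd ((p : ℝ) ^ c₀) (h : Matrix (Fin 2) (Fin 2) ℚ_[p])) ∧
    ∀ (a b c : ℤ) (r : ℚ_[p]), Int.gcd (Int.gcd a b) c = 1 →
      r ^ 2 = ((b ^ 2 - 4 * a * c : ℤ) : ℚ_[p]) → (p : ℝ) ^ (-(c₀ : ℤ)) ≤ ‖r‖ →
      ∃ h ∈ T, ∃ k ∈ Kp p, ((h⁻¹ * k : SL(2, ℚ_[p])) : Matrix (Fin 2) (Fin 2) ℚ_[p]) *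
          (!![(b : ℚ), 2 * c; -(2 * a), -b] : Matrix (Fin 2) (Fin 2) ℚ).map (↑) =
        !![r, 0; 0, -r] * ((h⁻¹ * k : SL(2, ℚ_[p])) : Matrix (Fin 2) (Fin 2) ℚ_[p]) := by
  classical
  have hp : (1 : ℝ) ≤ p := by exact_mod_cast (Fact.out : p.Prime).one_lt.le
  have hpc : (1 : ℝ) ≤ (p : ℝ) ^ c₀ := one_le_pow₀ hp
  have hi : ∀ n : ℤ, ‖(n : ℚ_[p])‖ ≤ 1 := Padic.norm_int_le_one
  have ht := ufr_two p h2
  refine ⟨(Finset.range (p ^ c₀)).image fun a : ℕ => ul ((a : ℚ_[p]) / (p : ℚ_[p]) ^ c₀), ?_, ?_⟩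
  · intro h hh
    obtain ⟨a, -, rfl⟩ := Finset.mem_image.1 hh
    intro i j
    fin_cases i <;> fin_cases j
    · simpa using hpc
    · simp
    · have : ‖(a : ℚ_[p]) / (p : ℚ_[p]) ^ c₀‖ ≤ (p : ℝ) ^ c₀ := by
        rw [norm_div, norm_pow, Padic.norm_p, inv_pow, div_inv_eq_mul]
        exact mul_le_of_le_one_left (by positivity) (by simpa using hi a)
      exact this
    · simpa using hpc
  intro a b c r hg hr hr'
  obtain ⟨x, y, hx, hy, hxy, e1, e2⟩ := ufr_eig p h2 hg hr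
  obtain ⟨z, t, hz, ht', hd⟩ := ufr_compl p hx hy hxy
  have hr0 : 0 < ‖r‖ := lt_of_lt_of_le (by positivity) hr'
  have hr1 : r ≠ 0 := norm_pos_iff.1 hr0
  obtain ⟨w, hw⟩ : ∃ w : ℚ_[p], w = 2 * (b * (z * t) + -(a * (t * t)) + -(c * (z * z))) := ⟨_, rfl⟩
  have hw1 : ‖w‖ ≤ 1 := by
    rw [hw]
    exact frame_mul_le p ht.le (frame_add_le p (frame_add_le p
      (frame_mul_le p (hi b) (frame_mul_le p hz ht'))
      (frame_neg_le p (frame_mul_le p (hi a) (frame_mul_le p ht' ht'))))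
      (frame_neg_le p (frame_mul_le p (hi c) (frame_mul_le p hz hz))))
  obtain ⟨s, hs⟩ : ∃ s : ℚ_[p], s = w / (2 * r) := ⟨_, rfl⟩
  have hs1 : 2 * r * s = w := by rw [hs]; field_simp
  have hs2 : ‖s‖ ≤ (p : ℝ) ^ c₀ := by
    rw [hs, norm_div, norm_mul, ht, one_mul, div_le_iff₀ hr0]
    rw [zpow_neg, zpow_natCast, inv_le_iff_one_le_mul₀' (by positivity)] at hr'
    exact hw1.trans hr'
  obtain ⟨n, hn, hn'⟩ := ufr_appr p c₀ hs2
  obtain ⟨k, hk⟩ : ∃ k : SL(2, ℚ_[p]), (k : Matrix (Fin 2) (Fin 2) ℚ_[p]) = !![x, y; z, t] :=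
    ⟨⟨!![x, y; z, t], by rw [Matrix.det_fin_two_of]; exact hd⟩, rfl⟩
  have hkK : k ∈ Kp p := by
    intro i j
    rw [hk]
    fin_cases i <;> fin_cases j
    exacts [hx, hy, hz, ht']
  refine ⟨_, Finset.mem_image.2 ⟨n, Finset.mem_range.2 hn, rfl⟩,
    ul (-(s - (n : ℚ_[p]) / (p : ℚ_[p]) ^ c₀)) * k,
    (Kp p).mul_mem (ul_mem_Kp p (frame_neg_le p hn')) hkK, ?_⟩
  rw [ul_inv, ← mul_assoc, ← ul_add,
    show -((n : ℚ_[p]) / (p : ℚ_[p]) ^ c₀) + -(s - (n : ℚ_[p]) / (p : ℚ_[p]) ^ c₀) = -s by ring,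
    Matrix.SpecialLinearGroup.coe_mul, ul_val, hk]
  ext i j
  fin_cases i <;> fin_cases j <;>
    simp only [Matrix.mul_apply, Fin.sum_univ_two, Matrix.map_apply, Matrix.of_apply,
      Matrix.cons_val', Matrix.cons_val_zero, Matrix.cons_val_one, Matrix.cons_val_fin_one,
      Fin.zero_eta, Fin.mk_one, Fin.isValue] <;> push_cast
  · linear_combination e1
  · linear_combination e2
  · linear_combination (-s - z * t) * e1 - x * hs1 - x * hw + z * z * e2 +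
      (-(b - r) * z - 2 * b * z + 2 * a * t + (b - r) * z + (b - r) * z) * hd
  · linear_combination (-s + z * t) * e2 - y * hs1 - y * hw - t * t * e1 -
      (2 * c * z - b * t + r * t) * hd

theorem exists_cf (hpq : p ≠ q) (h2 : p ≠ 2) (h2' : q ≠ 2) (c : ℕ) :
    ∃ (T : Finset SL(2, ℚ_[p])) (T' : Finset SL(2, ℚ_[q])),
      (∀ h ∈ T, Bd ((p : ℝ) ^ c) (h : Matrix (Fin 2) (Fin 2) ℚ_[p])) ∧
      (∀ h ∈ T', Bd ((q : ℝ) ^ c) (h : Matrix (Fin 2) (Fin 2) ℚ_[q])) ∧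
      ∀ (τ : ℍ) (D : ℤ) (rp : ℚ_[p]) (rq : ℚ_[q]), HasDisc τ D → rp ^ 2 = D → rq ^ 2 = D →
        (p : ℝ) ^ (-(c : ℤ)) ≤ ‖rp‖ → (q : ℝ) ^ (-(c : ℤ)) ≤ ‖rq‖ →
        ∃ hp ∈ T, ∃ hq ∈ T', ∃ x, CF p q D rp rq hp hq x ∧ j3 p q (iP p q hp • x) = jInv τ := by
  obtain ⟨T, hT, HT⟩ := ufr_loc p h2 c
  obtain ⟨T', hT', HT'⟩ := ufr_loc q h2' c
  refine ⟨T, T', hT, hT', fun τ D rp rq hτ h1 h1' h3 h3' => ?_⟩
  obtain ⟨a, b, c', ha, hg, hr, rfl⟩ := id hτ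
  obtain ⟨g, hg1, hg2⟩ := frame_real ha hr
  obtain ⟨hp, hhp, k, hk, ek⟩ := HT a b c' rp hg h1 h3
  obtain ⟨hq, hhq, k', hk', ek'⟩ := HT' a b c' rq hg h1' h3'
  have e0 : iP p q hp • ((((g, hp⁻¹ * k), k') : G3 p q) : X3 p q) =
      ((((g, k), k') : G3 p q) : X3 p q) := by
    change ((iP p q hp * ((g, hp⁻¹ * k), k') : G3 p q) : X3 p q) = _
    simp [iP]
  have e1 : j3 p q ((((g, k), k') : G3 p q) : X3 p q) = jInv τ := by
    rw [j3, pi3_mk p q (g := ((g, k), k')) hk', piX, toY_mk p (g := (g, k)) hk, jY_mk, hg1]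
  refine ⟨hp, hhp, hq, hhq, ((((g, hp⁻¹ * k), k') : G3 p q) : X3 p q),
    ⟨⟨_, !![(b : ℚ), 2 * c'; -(2 * a), -b], rfl, ?_, ek, ek'⟩, ?_⟩, by rw [e0, e1]⟩
  · refine Eq.trans ?_ hg2
    congr 1
    ext i j
    fin_cases i <;> fin_cases j <;> simp
  · rw [e0]
    obtain ⟨l1, l2⟩ := lat3_spec p q ((((g, k), k') : G3 p q) : X3 p q)
    obtain ⟨u, hu, e2⟩ := jL_inj (isLat_one τ) l1 (by rw [l2, e1, jL_one])
    rw [e2]
    exact (discL_one hτ).pr_mul hu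

theorem ufr_conj {F : Type} [Field F] [CharZero F] {A : SL(2, F)} {Θ : Matrix (Fin 2) (Fin 2) ℚ}
    {N : Matrix (Fin 2) (Fin 2) F}
    (h : (A : Matrix (Fin 2) (Fin 2) F) * Θ.map (↑) = N * (A : Matrix (Fin 2) (Fin 2) F))
    (δ : SL(2, ℚ)) :
    ((A * Matrix.SpecialLinearGroup.map (Rat.castHom F) δ : SL(2, F)) : Matrix (Fin 2) (Fin 2) F) *
        (((δ⁻¹ : SL(2, ℚ)) : Matrix (Fin 2) (Fin 2) ℚ) * Θ * (δ : Matrix (Fin 2) (Fin 2) ℚ)).map (↑) =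
      N * ((A * Matrix.SpecialLinearGroup.map (Rat.castHom F) δ : SL(2, F)) :
        Matrix (Fin 2) (Fin 2) F) := by
  have e1 : (((δ⁻¹ : SL(2, ℚ)) : Matrix (Fin 2) (Fin 2) ℚ) * Θ *
        (δ : Matrix (Fin 2) (Fin 2) ℚ)).map ((↑) : ℚ → F) =
      ((Matrix.SpecialLinearGroup.map (Rat.castHom F) δ⁻¹ : SL(2, F)) : Matrix (Fin 2) (Fin 2) F) *
        (Θ.map (↑) * ((Matrix.SpecialLinearGroup.map (Rat.castHom F) δ : SL(2, F)) :
          Matrix (Fin 2) (Fin 2) F)) := by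
    rw [← Matrix.mul_assoc]
    exact (Matrix.map_mul (f := Rat.castHom F)).trans
      (congrArg (· * _) (Matrix.map_mul (f := Rat.castHom F)))
  rw [e1, ← Matrix.mul_assoc, ← Matrix.SpecialLinearGroup.coe_mul, map_inv, mul_inv_cancel_right,
    ← Matrix.mul_assoc, h, Matrix.SpecialLinearGroup.coe_mul, Matrix.mul_assoc]

theorem ufr_dg {F : Type} [Field F] [CharZero F] {A : SL(2, F)} {Θ : Matrix (Fin 2) (Fin 2) ℚ}
    {r : F} (h : (A : Matrix (Fin 2) (Fin 2) F) * Θ.map (↑) =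
      !![r, 0; 0, -r] * (A : Matrix (Fin 2) (Fin 2) F)) (a : F) (ha : a ≠ 0) :
    ((dg a ha * A : SL(2, F)) : Matrix (Fin 2) (Fin 2) F) * Θ.map (↑) =
      !![r, 0; 0, -r] * ((dg a ha * A : SL(2, F)) : Matrix (Fin 2) (Fin 2) F) := by
  have e : (!![a, 0; 0, a⁻¹] : Matrix (Fin 2) (Fin 2) F) * !![r, 0; 0, -r] =
      !![r, 0; 0, -r] * !![a, 0; 0, a⁻¹] := by
    ext i j
    fin_cases i <;> fin_cases j <;> simp [Matrix.mul_apply, Fin.sum_univ_two, mul_comm]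
  rw [Matrix.SpecialLinearGroup.coe_mul, dg_val, Matrix.mul_assoc, h, ← Matrix.mul_assoc, e,
    Matrix.mul_assoc]

theorem ufr_det {F : Type} [Field F] [CharZero F] {A : SL(2, F)} {Θ : Matrix (Fin 2) (Fin 2) ℚ}
    {N : Matrix (Fin 2) (Fin 2) F}
    (h : (A : Matrix (Fin 2) (Fin 2) F) * Θ.map (↑) = N * (A : Matrix (Fin 2) (Fin 2) F)) :
    ((Θ.det : ℚ) : F) = N.det := by
  have := congrArg Matrix.det h
  rw [Matrix.det_mul, Matrix.det_mul, A.det_coe, one_mul, mul_one] at this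
  rw [← this, Matrix.det_fin_two, Matrix.det_fin_two]
  simp

theorem ufr_ent {F : Type} [Field F] [CharZero F] {g N : Matrix (Fin 2) (Fin 2) F}
    {Θ : Matrix (Fin 2) (Fin 2) ℚ} (h : g * Θ.map (↑) = N * g) (i j : Fin 2) :
    g i 0 * Θ 0 j + g i 1 * Θ 1 j = N i 0 * g 0 j + N i 1 * g 1 j := by
  have := congrFun (congrFun h i) j
  simpa only [Matrix.mul_apply, Fin.sum_univ_two, Matrix.map_apply] using this

theorem ufr_th {D : ℤ} {g : SL(2, ℝ)} {Θ : Matrix (Fin 2) (Fin 2) ℚ}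
    (h : (g : Matrix (Fin 2) (Fin 2) ℝ) * Θ.map (↑) =
      !![0, Real.sqrt (-(D : ℝ)); -Real.sqrt (-(D : ℝ)), 0] * (g : Matrix (Fin 2) (Fin 2) ℝ))
    (a b : ℚ) : th D * frame_ph g a b =
      frame_ph g (Θ 0 0 * a + Θ 0 1 * b) (Θ 1 0 * a + Θ 1 1 * b) := by
  have h1 := ufr_ent h 0 0
  have h2 := ufr_ent h 0 1
  have h3 := ufr_ent h 1 0
  have h4 := ufr_ent h 1 1
  simp only [Matrix.of_apply, Matrix.cons_val', Matrix.cons_val_zero, Matrix.cons_val_one,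
    Matrix.cons_val_fin_one, zero_mul, zero_add, add_zero] at h1 h2 h3 h4
  have c1 := congrArg (fun x : ℝ => (x : ℂ)) h1
  have c2 := congrArg (fun x : ℝ => (x : ℂ)) h2
  have c3 := congrArg (fun x : ℝ => (x : ℂ)) h3
  have c4 := congrArg (fun x : ℝ => (x : ℂ)) h4
  simp only [frame_ph, th]
  generalize Real.sqrt (-(D : ℝ)) = δ at c1 c2 c3 c4 ⊢
  push_cast at c1 c2 c3 c4 ⊢
  linear_combination (-(a : ℂ)) * c1 - (b : ℂ) * c2 + (a : ℂ) * Complex.I * c3 +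
    (b : ℂ) * Complex.I * c4 - (δ : ℂ) * ((g 1 0 : ℂ) * a + g 1 1 * b) * Complex.I_mul_I

theorem ufr_ph_add (g : SL(2, ℝ)) (a b a' b' : ℚ) :
    frame_ph g a b + frame_ph g a' b' = frame_ph g (a + a') (b + b') := by
  simp only [frame_ph]; push_cast; ring

theorem ufr_memK {g : GG p} (hg : g.2 ∈ Kp p) {z : ℂ} :
    z ∈ latG p g ↔ ∃ m n : ℤ, z = frame_ph g.1 m n := by
  rw [latG_K p hg, mem_sp]
  refine exists_congr fun m => exists_congr fun n => ?_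
  rw [show frame_ph g.1 m n = m * ((g.1 0 0 : ℂ) - g.1 1 0 * Complex.I) +
    n * ((g.1 0 1 : ℂ) - g.1 1 1 * Complex.I) by simp only [frame_ph]; push_cast; ring]

theorem ufr_int {g : GG p} (hg : g.2 ∈ Kp p) {y : ℂ} (hy : pr y * latG p g ≤ latG p g)
    {m n : ℤ} {a b : ℚ} (h : y * frame_ph g.1 m n = frame_ph g.1 a b) :
    ∃ m' n' : ℤ, a = m' ∧ b = n' := by
  obtain ⟨m', n', e⟩ := (ufr_memK p hg).1 (pr_mul_le.1 hy _ ((ufr_memK p hg).2 ⟨m, n, rfl⟩))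
  exact ⟨m', n', frame_ph_inj _ (h.symm.trans e)⟩

theorem ufr_scale (h : SL(2, ℚ_[p])) : ∃ c : ℕ, ∀ (g : GG p) (z : ℂ), z ∈ latG p g →
    (p : ℂ) ^ c * z ∈ latG p (((1, h) : GG p) * g) := by
  have h1 : ∀ x : ℚ_[p], ∀ᶠ c : ℕ in atTop, ‖(p : ℚ_[p]) ^ c * x‖ ≤ 1 := fun x => by
    have := ((tendsto_pow_atTop_nhds_zero_of_norm_lt_one (Padic.norm_p_lt_one (p := p))).mul_const
      x).norm
    rw [zero_mul, norm_zero] at this
    exact this.eventually (ge_mem_nhds one_pos)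
  obtain ⟨c, hc⟩ := (eventually_all.2 fun i => eventually_all.2 fun j => h1 (h i j)).exists
  refine ⟨c, fun g z hz => ?_⟩
  obtain ⟨a, b, ha, hb, h0, h2, rfl⟩ := (frame_mem_latG p).1 hz
  have hpc : InZp p ((p : ℚ) ^ c) := by simpa using inZp_int p ((p : ℤ) ^ c)
  have e2 : ∀ i j, (((1, h) : GG p) * g).2 i j = h i 0 * g.2 0 j + h i 1 * g.2 1 j := by
    intro i j
    simp [Matrix.mul_apply, Fin.sum_univ_two]
  have key : ∀ i, ‖(((1, h) : GG p) * g).2 i 0 * (((p : ℚ) ^ c * a : ℚ) : ℚ_[p]) +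
      (((1, h) : GG p) * g).2 i 1 * (((p : ℚ) ^ c * b : ℚ) : ℚ_[p])‖ ≤ 1 := fun i => by
    refine le_trans (le_of_eq ?_)
      (frame_add_le p (frame_mul_le p (hc i 0) h0) (frame_mul_le p (hc i 1) h2))
    congr 1
    rw [e2, e2]; push_cast; ring
  refine (frame_mem_latG p).2 ⟨(p : ℚ) ^ c * a, (p : ℚ) ^ c * b, hpc.mul ha, hpc.mul hb, key 0,
    key 1, ?_⟩
  rw [← frame_ph_mul]
  simp

theorem ufr_disc_eq {E D' : ℤ} (hE : E < 0) (hD' : D' < 0) (hp' : ¬ (p : ℤ) ∣ E)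
    (h1 : (E + th E) / 2 ∈ OD D') {N : ℕ} (h2 : (p : ℂ) ^ N * ((D' + th D') / 2) ∈ OD E) :
    D' = E := by
  obtain ⟨m, n, e1⟩ := mem_sp.1 h1
  obtain ⟨m', n', e2⟩ := mem_sp.1 h2
  have hp : ((p : ℂ) ^ N) = (((p : ℝ) ^ N : ℝ) : ℂ) := by push_cast; rfl
  have i1 := congrArg Complex.im e1
  have i2 := congrArg Complex.im e2
  rw [hp] at i2
  simp only [Complex.div_ofNat_im, Complex.add_im, Complex.intCast_im, zero_add, ord2_th_im,
    mul_one, Complex.mul_im, Complex.intCast_re, zero_mul, add_zero, Complex.ofReal_re,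
    Complex.ofReal_im] at i1 i2
  have s1 : Real.sqrt (-(E : ℝ)) ^ 2 = -(E : ℝ) :=
    Real.sq_sqrt (by have : (E : ℝ) < 0 := by exact_mod_cast hE
                     linarith)
  have hD0 : (0 : ℝ) < -(D' : ℝ) := by
    have : (D' : ℝ) < 0 := by exact_mod_cast hD'
    linarith
  have s2 : Real.sqrt (-(D' : ℝ)) ^ 2 = -(D' : ℝ) := Real.sq_sqrt hD0.le
  have s3 : 0 < Real.sqrt (-(D' : ℝ)) := Real.sqrt_pos.2 hD0
  generalize Real.sqrt (-(E : ℝ)) = u at i1 i2 s1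
  generalize Real.sqrt (-(D' : ℝ)) = v at i1 i2 s2 s3
  have f1 : E = n ^ 2 * D' := by
    have : (E : ℝ) = n ^ 2 * D' := by
      linear_combination s1 - (n : ℝ) ^ 2 * s2 - 2 * (u + n * v) * i1
    exact_mod_cast this
  have f2 : (p : ℤ) ^ N = n * n' := by
    have : (p : ℝ) ^ N = n * n' :=
      mul_right_cancel₀ s3.ne' (by linear_combination 2 * i2 + 2 * (n' : ℝ) * i1)
    exact_mod_cast this
  have f3 : ¬ (p : ℤ) ∣ n := fun h' => hp' (by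
    rw [f1]; exact (h'.pow two_ne_zero).mul_right _)
  have f4 : IsUnit n :=
    (((prime_star p).coprime_iff_not_dvd.2 f3).symm.pow_right (n := N)).isUnit_of_dvd ⟨n', f2⟩
  rcases Int.isUnit_iff.1 f4 with h | h <;> rw [f1, h] <;> ring

variable {p q} {D : ℤ} {rp : ℚ_[p]} {rq : ℚ_[q]} {hp : SL(2, ℚ_[p])} {hq : SL(2, ℚ_[q])}
  {x : X3 p q}

theorem Fr3.rep (h : Fr3 p q D rp rq hq x) {g : G3 p q} (hg : (g : X3 p q) = x) :
    ∃ Θ, FrG p q D rp rq hq g Θ := by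
  obtain ⟨g₀, Θ, e, h1, h2, h3⟩ := h
  obtain ⟨δ, -, hδ⟩ : g₀⁻¹ * g ∈ Gam3 p q := QuotientGroup.eq.1 (e.trans hg.symm)
  obtain rfl : g = g₀ * emb3 p q δ := by rw [hδ, mul_inv_cancel_left]
  refine ⟨_, ufr_conj h1 δ, ufr_conj h2 δ, ?_⟩
  have := ufr_conj h3 δ
  rw [mul_assoc] at this
  exact this

theorem Fr3.smul_a (h : Fr3 p q D rp rq hq x) (t : ℕ) : Fr3 p q D rp rq hq (a3 p q t • x) := by
  obtain ⟨g, Θ, rfl, h1, h2, h3⟩ := h
  refine ⟨a3 p q t * g, Θ, rfl, ?_,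
    ufr_dg h2 _ (pow_ne_zero _ (Nat.cast_ne_zero.2 (Fact.out : p.Prime).ne_zero)), ?_⟩
  · rw [show (a3 p q t * g).1.1 = g.1.1 from one_mul _]; exact h1
  · rw [show (a3 p q t * g).2 = g.2 from one_mul _]; exact h3

theorem Fr3.smul_b (h : Fr3 p q D rp rq hq x) (t : ℕ) : Fr3 p q D rp rq hq (b3 p q hq t • x) := by
  obtain ⟨g, Θ, rfl, h1, h2, h3⟩ := h
  refine ⟨b3 p q hq t * g, Θ, rfl, ?_, ?_, ?_⟩
  · rw [show (b3 p q hq t * g).1 = g.1 from one_mul _]; exact h1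
  · rw [show (b3 p q hq t * g).1 = g.1 from one_mul _]; exact h2
  · have e : hq⁻¹ * (b3 p q hq t * g).2 = (aP q t).2 * (hq⁻¹ * g.2) := by
      change hq⁻¹ * (hq * (aP q t).2 * hq⁻¹ * g.2) = _
      group
    rw [e]
    exact ufr_dg h3 _ (pow_ne_zero _ (Nat.cast_ne_zero.2 (Fact.out : q.Prime).ne_zero))

theorem Fr3.sq (h : Fr3 p q D rp rq hq x) (hD : D ≤ 0) : rp ^ 2 = D ∧ rq ^ 2 = D := by
  obtain ⟨g, Θ, -, h1, h2, h3⟩ := h
  have d1 := ufr_det h1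
  have d2 := ufr_det h2
  have d3 := ufr_det h3
  rw [Matrix.det_fin_two_of] at d1 d2 d3
  have hD' : (0 : ℝ) ≤ -(D : ℝ) := by
    have : (D : ℝ) ≤ 0 := by exact_mod_cast hD
    linarith
  have e : Θ.det = -(D : ℚ) := by
    have : ((Θ.det : ℚ) : ℝ) = -(D : ℝ) := by
      linear_combination d1 + Real.mul_self_sqrt hD'
    exact_mod_cast this
  rw [e] at d2 d3
  push_cast at d2 d3
  exact ⟨by linear_combination d2, by linear_combination d3⟩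

theorem FrG.th {g : G3 p q} {Θ : Matrix (Fin 2) (Fin 2) ℚ} (h : FrG p q D rp rq hq g Θ)
    (a b : ℚ) : th D * frame_ph g.1.1 a b =
      frame_ph g.1.1 (Θ 0 0 * a + Θ 0 1 * b) (Θ 1 0 * a + Θ 1 1 * b) := by
  exact ufr_th h.1 a b

/-- An integral frame of a framed point. -/
theorem CF.frame (hpq : p ≠ q) (h : CF p q D rp rq hp hq x) :
    ∃ (g : GG p) (Θ : Matrix (Fin 2) (Fin 2) ℤ), g.2 ∈ Kp p ∧
      (g : XX p) = ((1, hp) : GG p) • pi3 p q x ∧ DiscL (latG p g) D ∧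
      (g.1 : Matrix (Fin 2) (Fin 2) ℝ) * Θ.map (↑) =
        !![0, Real.sqrt (-(D : ℝ)); -Real.sqrt (-(D : ℝ)), 0] * (g.1 : Matrix (Fin 2) (Fin 2) ℝ) ∧
      ((hp⁻¹ * g.2 : SL(2, ℚ_[p])) : Matrix (Fin 2) (Fin 2) ℚ_[p]) * Θ.map (↑) =
        !![rp, 0; 0, -rp] * ((hp⁻¹ * g.2 : SL(2, ℚ_[p])) : Matrix (Fin 2) (Fin 2) ℚ_[p]) := by
  obtain ⟨hF, hL⟩ := h
  obtain ⟨g, k1, k2, e⟩ := exists_rep3 p q hpq (iP p q hp • x)
  have e1 : (g.1 : XX p) = pi3 p q (iP p q hp • x) := by rw [← e, pi3_mk p q k2]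
  rw [lat3_eq p q e1] at hL
  have e2 : (((iP p q hp)⁻¹ * g : G3 p q) : X3 p q) = x := by
    change (iP p q hp)⁻¹ • (g : X3 p q) = x
    rw [e, inv_smul_smul]
  obtain ⟨Θ, h1, h2, -⟩ := hF.rep e2
  rw [show ((iP p q hp)⁻¹ * g).1.1 = g.1.1 by simp [iP]] at h1
  rw [show ((iP p q hp)⁻¹ * g).1.2 = hp⁻¹ * g.1.2 by simp [iP]] at h2
  have hy := (hL.end_iff _).2 (th_mem_OD D)
  obtain ⟨m0, n0, a0, b0⟩ := ufr_int p k1 hy (ufr_th h1 ((1 : ℤ) : ℚ) ((0 : ℤ) : ℚ))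
  obtain ⟨m1, n1, a1, b1⟩ := ufr_int p k1 hy (ufr_th h1 ((0 : ℤ) : ℚ) ((1 : ℤ) : ℚ))
  simp only [Int.cast_one, Int.cast_zero, mul_one, mul_zero, add_zero, zero_add] at a0 b0 a1 b1
  have e3 : ∀ (F : Type) [Field F] [CharZero F],
      (!![m0, m1; n0, n1] : Matrix (Fin 2) (Fin 2) ℤ).map ((↑) : ℤ → F) = Θ.map ((↑) : ℚ → F) := by
    intro F _ _
    ext i j
    fin_cases i <;> fin_cases j <;> simp [a0, b0, a1, b1]
  refine ⟨g.1, !![m0, m1; n0, n1], k1, ?_, hL, ?_, ?_⟩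
  · rw [e1, pi3_smul p q (g := iP p q hp) (Kp q).one_mem]
    rfl
  · rw [e3]; exact h1
  · rw [e3]; exact h2

theorem CF.disc0 (hpq : p ≠ q) (h2 : p ≠ 2) (h : CF p q D rp rq hp hq x) {κ : ℕ} {E : ℤ}
    (hE : D = (p : ℤ) ^ (2 * κ) * E) (hp' : ¬ (p : ℤ) ∣ E) : DiscL (lat3 p q x) E := by
  obtain ⟨g, Θ₀, hK, e, hL, h1, h3⟩ := h.frame hpq
  have hD := hL.isD
  have hp0 : (p : ℤ) ≠ 0 := by exact_mod_cast (Fact.out : p.Prime).ne_zero
  have hpQ : (p : ℚ) ≠ 0 := by exact_mod_cast hp0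
  have hpP : (p : ℚ_[p]) ≠ 0 := by exact_mod_cast hp0
  have hpC : (p : ℂ) ≠ 0 := by exact_mod_cast hp0
  have hE0 : E < 0 := by
    have h4 := hD.1
    rw [hE] at h4
    exact neg_of_mul_neg_right h4 (by positivity)
  have hr := (h.1.sq hD.1.le).1
  obtain ⟨Θ, hΘ⟩ : ∃ Θ : Matrix (Fin 2) (Fin 2) ℚ, ∀ (F : Type) [Field F] [CharZero F],
      Θ₀.map ((↑) : ℤ → F) = Θ.map ((↑) : ℚ → F) :=
    ⟨Θ₀.map (↑), fun F _ _ => by ext i j; simp⟩
  rw [hΘ] at h1 h3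
  obtain ⟨g₀, hg₀⟩ : ∃ g₀ : GG p, g₀ = ((1, hp⁻¹) : GG p) * g := ⟨_, rfl⟩
  have g1 : g₀.1 = g.1 := by rw [hg₀]; exact one_mul _
  have g2 : hp⁻¹ * g.2 = g₀.2 := by rw [hg₀]; rfl
  have g3 : g = ((1, hp) : GG p) * g₀ := by rw [hg₀]; ext1 <;> simp
  have g4 : (g₀ : XX p) = pi3 p q x := by
    rw [hg₀]
    change ((1, hp⁻¹) : GG p) • (g : XX p) = _
    rw [e, ← mul_smul, show ((1, hp⁻¹) : GG p) * (1, hp) = 1 by ext1 <;> simp, one_smul]
  rw [g2] at h3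
  rw [lat3_eq p q g4]
  have hth : th D = (p : ℂ) ^ κ * th E := by
    have := th_mul_sq (p ^ κ) E
    push_cast at this
    rw [← this, hE, ← pow_mul, mul_comm κ 2]
  have hom : ∀ a b : ℚ, (D + th D) / 2 * frame_ph g.1 a b = frame_ph g.1
      (2⁻¹ * (D * a + (Θ 0 0 * a + Θ 0 1 * b))) (2⁻¹ * (D * b + (Θ 1 0 * a + Θ 1 1 * b))) := by
    intro a b
    rw [← frame_ph_mul, ← ufr_ph_add, ← frame_ph_mul, ← ufr_th h1]
    push_cast; ring
  have hy := (hL.end_iff _).2 (ord_right 1 ((D + th D) / 2))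
  obtain ⟨m0, n0, a0, b0⟩ := ufr_int p hK hy (hom ((1 : ℤ) : ℚ) ((0 : ℤ) : ℚ))
  obtain ⟨m1, n1, a1, b1⟩ := ufr_int p hK hy (hom ((0 : ℤ) : ℚ) ((1 : ℤ) : ℚ))
  simp only [Int.cast_one, Int.cast_zero, mul_one, mul_zero, add_zero, zero_add] at a0 b0 a1 b1
  obtain ⟨u, hu⟩ := Int.even_mul_pred_self ((p : ℤ) ^ κ)
  have hu' : (p : ℚ) ^ κ * ((p : ℚ) ^ κ - 1) = u + u := by exact_mod_cast hu
  have hDQ : (D : ℚ) = (p : ℚ) ^ κ * (p : ℚ) ^ κ * E := by rw [hE]; push_cast; ring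
  have hrn : ‖rp / (p : ℚ_[p]) ^ κ‖ ≤ 1 := by
    have : (rp / (p : ℚ_[p]) ^ κ) ^ 2 = E := by
      rw [div_pow, hr, hE]; push_cast; field_simp; ring
    have h5 := Padic.norm_int_le_one (p := p) E
    rw [← this, norm_pow] at h5
    exact (pow_le_one_iff_of_nonneg (norm_nonneg _) two_ne_zero).1 h5
  have h2i : ‖(2 : ℚ_[p])⁻¹‖ ≤ 1 := by rw [norm_inv, ufr_two p h2, inv_one]
  have hω : pr ((E + th E) / 2) * latG p g₀ ≤ latG p g₀ := by
    refine pr_mul_le.2 fun z hz => ?_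
    obtain ⟨a, b, ha, hb, k0, k1, rfl⟩ := (frame_mem_latG p).1 hz
    have t0 : Θ 0 0 = 2 * m0 - D := by linear_combination 2 * a0
    have t1 : Θ 1 0 = 2 * n0 := by linear_combination 2 * b0
    have t2 : Θ 0 1 = 2 * m1 := by linear_combination 2 * a1
    have t3 : Θ 1 1 = 2 * n1 - D := by linear_combination 2 * b1
    have q0 := ufr_ent h3 0 0
    have q1 := ufr_ent h3 0 1
    have q2 := ufr_ent h3 1 0
    have q3 := ufr_ent h3 1 1
    simp only [Matrix.of_apply, Matrix.cons_val', Matrix.cons_val_zero, Matrix.cons_val_one,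
      Matrix.cons_val_fin_one, zero_mul, zero_add, add_zero] at q0 q1 q2 q3
    refine (frame_mem_latG p).2
      ⟨2⁻¹ * (E * a + ((p : ℚ) ^ κ)⁻¹ * (Θ 0 0 * a + Θ 0 1 * b)),
        2⁻¹ * (E * b + ((p : ℚ) ^ κ)⁻¹ * (Θ 1 0 * a + Θ 1 1 * b)), ?_, ?_, ?_, ?_, ?_⟩
    · have : 2⁻¹ * (E * a + ((p : ℚ) ^ κ)⁻¹ * (Θ 0 0 * a + Θ 0 1 * b)) =
          ((p : ℚ) ^ κ)⁻¹ * (((m0 - u * E : ℤ) : ℚ) * a + (m1 : ℚ) * b) := by
        rw [t0, t2, hDQ]; push_cast; field_simp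
        linear_combination (-(E : ℚ) * a) * hu'
      rw [this]
      exact frame_inZp_div p (((inZp_int p _).mul ha).add ((inZp_int p _).mul hb)) κ
    · have : 2⁻¹ * (E * b + ((p : ℚ) ^ κ)⁻¹ * (Θ 1 0 * a + Θ 1 1 * b)) =
          ((p : ℚ) ^ κ)⁻¹ * ((n0 : ℚ) * a + ((n1 - u * E : ℤ) : ℚ) * b) := by
        rw [t1, t3, hDQ]; push_cast; field_simp
        linear_combination (-(E : ℚ) * b) * hu'
      rw [this]
      exact frame_inZp_div p (((inZp_int p _).mul ha).add ((inZp_int p _).mul hb)) κ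
    · refine le_trans (le_of_eq ?_) (frame_mul_le p (frame_mul_le p h2i
        (frame_add_le p (Padic.norm_int_le_one E) hrn)) k0)
      congr 1
      push_cast
      linear_combination (2⁻¹ * ((p : ℚ_[p]) ^ κ)⁻¹ * a) * q0 + (2⁻¹ * ((p : ℚ_[p]) ^ κ)⁻¹ * b) * q1
    · refine le_trans (le_of_eq ?_) (frame_mul_le p (frame_mul_le p h2i
        (frame_add_le p (Padic.norm_int_le_one E) (frame_neg_le p hrn))) k1)
      congr 1
      push_cast
      linear_combination (2⁻¹ * ((p : ℚ_[p]) ^ κ)⁻¹ * a) * q2 + (2⁻¹ * ((p : ℚ_[p]) ^ κ)⁻¹ * b) * q3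
    · rw [g1, ← frame_ph_mul, ← ufr_ph_add, ← frame_ph_mul, ← frame_ph_mul, ← ufr_th h1, hth]
      push_cast; field_simp
  have him : ((E + th E) / 2 : ℂ).im ≠ 0 := by
    have := ord2_th_im_ne hE0
    simpa using this
  obtain ⟨D', hD'⟩ := exists_discL (latG_spec p g₀).1 him hω
  have hEm : ((E + th E) / 2 : ℂ) ∈ OD D' := (hD'.end_iff _).1 hω
  obtain ⟨c1, hc1⟩ := ufr_scale p hp
  obtain ⟨c2, hc2⟩ := ufr_scale p hp⁻¹
  have hy' := pr_mul_le.1 ((hD'.end_iff _).2 (ord_right 1 ((D' + th D') / 2)))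
  have hN : (p : ℂ) ^ (c1 + c2) * ((D' + th D') / 2) ∈ OD D := by
    refine (hL.end_iff _).1 (pr_mul_le.2 fun z hz => ?_)
    have s1 := hc2 g z hz
    rw [← hg₀] at s1
    have s2 := hc1 g₀ _ (hy' _ s1)
    rw [← g3] at s2
    rwa [show (p : ℂ) ^ (c1 + c2) * ((D' + th D') / 2) * z =
      (p : ℂ) ^ c1 * ((D' + th D') / 2 * ((p : ℂ) ^ c2 * z)) by ring]
  have hEI : IsD E := by
    refine ⟨hE0, ?_⟩
    have ho : Odd ((p : ℤ) ^ κ) := by
      have : Odd p := (Fact.out : p.Prime).odd_of_ne_two h2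
      exact_mod_cast this.pow
    obtain ⟨v, hv⟩ := ho
    have h6 : D = E + 4 * ((v ^ 2 + v) * E) := by
      rw [hE, mul_comm 2 κ, pow_mul, hv]; ring
    have h7 := hD.2
    rw [h6, Int.add_mul_emod_self_left] at h7
    exact h7
  have hle : OD D ≤ OD E := by
    have := OD_sq_le hEI (p ^ κ)
    push_cast at this
    rwa [← pow_mul, mul_comm κ 2, ← hE] at this
  rw [← ufr_disc_eq p hE0 hD'.isD.1 hp' hEm (hle hN)]
  exact hD'

end Pool.Agent.EQ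
end
end

-- part Pool.Agent.P.MP_ad7a55_nt.UHa
section

/-! Algebra and combinatorics of the shearing argument. -/

set_option autoImplicit false

noncomputable section

open MeasureTheory Topology Filter UpperHalfPlane
open scoped MatrixGroups ENNReal BoundedContinuousFunction

namespace Pool.Agent.EQ

open Classical in
theorem uha_cnt {f : ℕ → ℕ} (hf : StrictMono f) (B : ℕ → Prop) {n N : ℕ}
    (h : ∀ i < n, f i < N) :
    ((Finset.range n).filter fun i => B (f i)).card ≤ ((Finset.range N).filter B).card := by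
  refine Finset.card_le_card_of_injOn f (fun i hi => ?_) hf.injective.injOn
  simp only [Finset.coe_filter, Finset.mem_range, Set.mem_ofPred_eq] at hi ⊢
  exact ⟨h i hi.1, hi.2⟩

open Classical in
/-- The choice of a time at which three points are good. -/
theorem time_sel {L n : ℕ} (hn : 0 < n) (k : ℕ → ℕ) (hk : ∀ i, k i ≤ k (i + 1) + 1)
    (hb : ∀ i < n, k i ≤ L * n) (B₁ B₂ B₃ : ℕ → Prop) {θ : ℝ} (hθ : θ * (L + 6) < 1)
    (h₁ : ∀ N : ℕ, (((Finset.range N).filter B₁).card : ℝ) ≤ θ * N)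
    (h₂ : ∀ N : ℕ, (((Finset.range N).filter B₂).card : ℝ) ≤ θ * N)
    (h₃ : ∀ N : ℕ, (((Finset.range N).filter B₃).card : ℝ) ≤ θ * N) :
    ∃ i < n, ¬ B₁ (2 * i) ∧ ¬ B₂ (2 * i) ∧ ¬ B₃ (2 * i + k i) := by
  by_contra hc
  have m1 : StrictMono fun i : ℕ => 2 * i := fun a b hab => by simp only; omega
  have m2 : StrictMono fun i : ℕ => 2 * i + k i := strictMono_nat_of_lt_succ fun i => by
    have := hk i; omega
  have c1 := uha_cnt m1 B₁ (n := n) (N := 2 * n) fun i hi => by omega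
  have c2 := uha_cnt m1 B₂ (n := n) (N := 2 * n) fun i hi => by omega
  have c3 := uha_cnt m2 B₃ (n := n) (N := 2 * n + L * n) fun i hi => by
    have := hb i hi; omega
  have hs : Finset.range n ⊆ ((Finset.range n).filter fun i => B₁ (2 * i)) ∪
      ((Finset.range n).filter fun i => B₂ (2 * i)) ∪
      ((Finset.range n).filter fun i => B₃ (2 * i + k i)) := by
    intro i hi
    simp only [Finset.mem_union, Finset.mem_filter, hi, true_and]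
    by_contra h
    simp only [not_or] at h
    exact hc ⟨i, Finset.mem_range.1 hi, h.1.1, h.1.2, h.2⟩
  have h4 := (Finset.card_le_card hs).trans ((Finset.card_union_le _ _).trans
    (add_le_add ((Finset.card_union_le _ _).trans (add_le_add c1 c2)) c3))
  rw [Finset.card_range] at h4
  have h5 : (n : ℝ) ≤ ((((Finset.range (2 * n)).filter B₁).card : ℝ) +
      ((Finset.range (2 * n)).filter B₂).card) +
      ((Finset.range (2 * n + L * n)).filter B₃).card := by exact_mod_cast h4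
  have h6 := h₁ (2 * n)
  have h7 := h₂ (2 * n)
  have h8 := h₃ (2 * n + L * n)
  have hn' : (0 : ℝ) < n := by exact_mod_cast hn
  push_cast at h6 h7 h8
  nlinarith [mul_lt_mul_of_pos_right hθ hn']

variable {p q : ℕ} [Fact p.Prime] [Fact q.Prime]

/-- No shearing up to the scale `p ^ r`. -/
def Sm (g : SL(2, ℚ_[p])) (r : ℤ) : Prop :=
  ‖g 1 1 - g 0 0‖ * (p : ℝ) ^ r ≤ 1 ∧ ‖g 1 0‖ * (p : ℝ) ^ (2 * r) ≤ 1

/-- The shearing polynomial. -/
def shq (g : SL(2, ℚ_[p])) (s : ℚ_[p]) : ℚ_[p] := g 0 1 + (g 1 1 - g 0 0) * s + (-g 1 0) * s ^ 2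

theorem Sm.mono {g : SL(2, ℚ_[p])} {r r' : ℤ} (h : Sm g r) (hr : r' ≤ r) : Sm g r' := by
  have hp : (1 : ℝ) ≤ p := by exact_mod_cast (Fact.out : p.Prime).one_le
  exact ⟨(mul_le_mul_of_nonneg_left (zpow_le_zpow_right₀ hp hr) (norm_nonneg _)).trans h.1,
    (mul_le_mul_of_nonneg_left (zpow_le_zpow_right₀ hp (by omega)) (norm_nonneg _)).trans h.2⟩

theorem uha_dg {F : Type} [Field F] {a : F} (ha : a ≠ 0) (g : SL(2, F)) :
    (dg a ha * g * (dg a ha)⁻¹) 0 0 = g 0 0 ∧ (dg a ha * g * (dg a ha)⁻¹) 1 1 = g 1 1 ∧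
    (dg a ha * g * (dg a ha)⁻¹) 0 1 = a ^ 2 * g 0 1 ∧
    (dg a ha * g * (dg a ha)⁻¹) 1 0 = (a ^ 2)⁻¹ * g 1 0 := by
  have e : (dg a ha)⁻¹ = dg a⁻¹ (inv_ne_zero ha) := inv_eq_of_mul_eq_one_right (by
    ext i j; fin_cases i <;> fin_cases j <;> simp [Matrix.mul_apply, Fin.sum_univ_two, ha])
  rw [e]
  refine ⟨?_, ?_, ?_, ?_⟩ <;>
    simp [Matrix.mul_apply, Fin.sum_univ_two, Matrix.vecMul, dotProduct] <;> field_simp

theorem a3_conj (t : ℕ) (g : G3 p q) :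
    (a3 p q t * g * (a3 p q t)⁻¹).1.1 = g.1.1 ∧ (a3 p q t * g * (a3 p q t)⁻¹).2 = g.2 ∧
    (a3 p q t * g * (a3 p q t)⁻¹).1.2 0 0 = g.1.2 0 0 ∧
    (a3 p q t * g * (a3 p q t)⁻¹).1.2 1 1 = g.1.2 1 1 ∧
    ‖(a3 p q t * g * (a3 p q t)⁻¹).1.2 0 1‖ = (p : ℝ) ^ (-(2 * t : ℤ)) * ‖g.1.2 0 1‖ ∧
    ‖(a3 p q t * g * (a3 p q t)⁻¹).1.2 1 0‖ = (p : ℝ) ^ (2 * t : ℤ) * ‖g.1.2 1 0‖ := by
  have ha : ((p : ℚ_[p]) ^ t) ≠ 0 := pow_ne_zero _ (Nat.cast_ne_zero.2 (Fact.out : p.Prime).ne_zero)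
  have e : (a3 p q t * g * (a3 p q t)⁻¹).1.2 = dg _ ha * g.1.2 * (dg _ ha)⁻¹ := rfl
  have hn : ‖((p : ℚ_[p]) ^ t) ^ 2‖ = (p : ℝ) ^ (-(2 * t : ℤ)) := by
    rw [← pow_mul, Padic.norm_p_pow]; congr 1; push_cast; ring
  obtain ⟨h1, h2, h3, h4⟩ := uha_dg ha g.1.2
  refine ⟨by simp [a3, aP], by simp [a3], e ▸ h1, e ▸ h2, ?_, ?_⟩
  · rw [e, h3, norm_mul, hn]
  · rw [e, h4, norm_mul, norm_inv, hn, zpow_neg, inv_inv]

theorem not_sm_slab {g : SL(2, ℚ_[p])} {r : ℤ} (h : ¬ Sm g r) (e : ℕ) : ∃ s₁ s₂ : ℚ_[p], ∀ s,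
    ‖s‖ ≤ (p : ℝ) ^ r → (p : ℝ) ^ (r - e) < ‖s - s₁‖ → (p : ℝ) ^ (r - e) < ‖s - s₂‖ →
      (p : ℝ) ^ (-(2 * e + 2 : ℤ)) < ‖shq g s‖ := by
  have hp : (0 : ℝ) < p := by exact_mod_cast (Fact.out : p.Prime).pos
  rcases three_point p (ι := Unit) (fun _ => g 0 1) (fun _ => g 1 1 - g 0 0) (fun _ => -g 1 0) 0 r e
    (R := (p : ℝ) ^ (-(2 * e + 2 : ℤ))) (by positivity) with h1 | ⟨s₁, s₂, h1⟩
  · have e1 : (p : ℝ) ^ (-(2 * e + 2 : ℤ)) * (p : ℝ) ^ (2 * e + 2) = 1 := by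
      rw [← zpow_natCast, ← zpow_add₀ hp.ne']; push_cast; simp
    have := coef_bound p (a := g 0 1) (b := g 1 1 - g 0 0) (c := -g 1 0) (l := r) (R := 1)
      fun s hs => e1 ▸ h1 s (by rw [mem_pb, sub_zero]; exact hs) ()
    rw [norm_neg] at this
    exact absurd this h
  · refine ⟨s₁, s₂, fun s hs h2 h3 => lt_of_not_ge fun h4 => ?_⟩
    rcases h1 s (by rw [mem_pb, sub_zero]; exact hs) (fun _ => h4) with h5 | h5
    · exact absurd ((mem_pb p).1 h5) (not_le.2 h2)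
    · exact absurd ((mem_pb p).1 h5) (not_le.2 h3)

theorem uha_add {x y : ℚ_[p]} {R : ℝ} (hx : ‖x‖ ≤ R) (hy : ‖y‖ ≤ R) : ‖x + y‖ ≤ R :=
  (Padic.nonarchimedean _ _).trans (max_le hx hy)

theorem uha_shear {g : SL(2, ℚ_[p])} {s : ℚ_[p]} {P η : ℝ} (hP : 1 ≤ P) (h0 : 0 < η) (hη : η ≤ 1)
    (hg : ∀ i j, ‖g i j - (1 : SL(2, ℚ_[p])) i j‖ ≤ η ^ 2 / P ^ 2)
    (h1 : ‖g 1 1 - g 0 0‖ * ‖s‖ ≤ P) (h2 : ‖g 1 0‖ * ‖s‖ ^ 2 ≤ P ^ 2) :
    ‖shq g s‖ ≤ P ^ 2 ∧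
      ∀ i j, ‖(uu (s - shq g s) * g * uu (-s)) i j - (1 : SL(2, ℚ_[p])) i j‖ ≤ P ^ 2 * η := by
  have hP2 : 1 ≤ P ^ 2 := one_le_pow₀ hP
  have hδ : η ^ 2 / P ^ 2 ≤ η := by
    rw [div_le_iff₀ (by positivity)]; nlinarith
  have hηP : η ≤ P ^ 2 * η := le_mul_of_one_le_left h0.le hP2
  have ha : ‖g 0 0 - 1‖ ≤ η := (by simpa using hg 0 0 : ‖g 0 0 - 1‖ ≤ η ^ 2 / P ^ 2).trans hδ
  have hb : ‖g 0 1‖ ≤ η := (by simpa using hg 0 1 : ‖g 0 1‖ ≤ η ^ 2 / P ^ 2).trans hδ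
  have hc : ‖g 1 0‖ ≤ η ^ 2 / P ^ 2 := by simpa using hg 1 0
  have hd : ‖g 1 1 - 1‖ ≤ η := (by simpa using hg 1 1 : ‖g 1 1 - 1‖ ≤ η ^ 2 / P ^ 2).trans hδ
  have hcs : ‖g 1 0 * s‖ ≤ η := by
    refine (pow_le_pow_iff_left₀ (norm_nonneg _) h0.le two_ne_zero).1 ?_
    rw [norm_mul, mul_pow, sq ‖g 1 0‖, mul_assoc]
    refine (mul_le_mul hc h2 (by positivity) (by positivity)).trans (le_of_eq ?_)
    field_simp
  have hw : ‖shq g s‖ ≤ P ^ 2 := by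
    refine uha_add (uha_add (hb.trans (hη.trans hP2)) ?_) ?_
    · rw [norm_mul]; nlinarith
    · rwa [norm_mul, norm_neg, norm_pow]
  refine ⟨hw, fun i j => ?_⟩
  have hm : ∀ {x : ℚ_[p]}, ‖x‖ ≤ η → ‖shq g s * x‖ ≤ P ^ 2 * η := fun hx => by
    rw [norm_mul]; exact mul_le_mul hw hx (norm_nonneg _) (by positivity)
  fin_cases i <;> fin_cases j
  · have e : (uu (s - shq g s) * g * uu (-s)) 0 0 - (1 : SL(2, ℚ_[p])) 0 0 =
        g 0 0 - 1 + g 1 0 * s + shq g s * (-g 1 0) := by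
      simp [Matrix.mul_apply, Fin.sum_univ_two, Matrix.vecMul, dotProduct]; ring
    exact e ▸ uha_add (uha_add (ha.trans hηP) (hcs.trans hηP))
      (hm (by rw [norm_neg]; exact hc.trans hδ))
  · have e : (uu (s - shq g s) * g * uu (-s)) 0 1 - (1 : SL(2, ℚ_[p])) 0 1 =
        shq g s * (-(g 1 1 - 1) + g 1 0 * s) := by
      simp [Matrix.mul_apply, Fin.sum_univ_two, Matrix.vecMul, dotProduct, shq]; ring
    exact e ▸ hm (uha_add (by rwa [norm_neg]) hcs)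
  · have e : (uu (s - shq g s) * g * uu (-s)) 1 0 - (1 : SL(2, ℚ_[p])) 1 0 = g 1 0 := by
      simp [Matrix.mul_apply, Fin.sum_univ_two, Matrix.vecMul, dotProduct]
    exact e ▸ hc.trans (hδ.trans hηP)
  · have e : (uu (s - shq g s) * g * uu (-s)) 1 1 - (1 : SL(2, ℚ_[p])) 1 1 =
        g 1 1 - 1 + -(g 1 0 * s) := by
      simp [Matrix.mul_apply, Fin.sum_univ_two, Matrix.vecMul, dotProduct]; ring
    exact e ▸ (uha_add hd (by rwa [norm_neg])).trans hηP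

variable {κ : Type} [Fintype κ]

theorem uha_small {δ : ℝ} (hδ : 0 < δ) : ∀ᶠ g in 𝓝 (1 : κ → G3 p q), ∀ k i j,
    ‖(g k).1.2 i j - (1 : SL(2, ℚ_[p])) i j‖ ≤ δ := by
  simp only [eventually_all]
  intro k i j
  have h1 : Continuous fun g : κ → G3 p q => ((g k).1.2 : Matrix (Fin 2) (Fin 2) ℚ_[p]) :=
    continuous_subtype_val.comp (continuous_apply k).fst.snd
  have h2 : Continuous fun g : κ → G3 p q => ‖(g k).1.2 i j - (1 : SL(2, ℚ_[p])) i j‖ :=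
    ((h1.matrix_elem i j).sub continuous_const).norm
  filter_upwards [(isOpen_lt h2 continuous_const).mem_nhds (show ‖_‖ < δ by simpa using hδ)]
    with g hg using hg.le

theorem uha_basis {𝒩 : Set (κ → G3 p q)} (h𝒩 : 𝒩 ∈ 𝓝 (1 : κ → G3 p q)) :
    ∃ V ∈ 𝓝 (1 : κ → G3 p q), ∃ ε : ℝ, 0 < ε ∧ ∀ g ∈ V, ∀ g' : κ → G3 p q,
      (∀ k, (g' k).1.1 = (g k).1.1 ∧ (g' k).2 = (g k).2 ∧
        ∀ i j, ‖(g' k).1.2 i j - (1 : SL(2, ℚ_[p])) i j‖ ≤ ε) → g' ∈ 𝒩 := by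
  have hc : Continuous fun z : (κ → G3 p q) × (κ → SL(2, ℚ_[p])) =>
      (fun k => (((z.1 k).1.1, z.2 k), (z.1 k).2) : κ → G3 p q) :=
    continuous_pi fun k => (((continuous_apply k).comp continuous_fst).fst.fst.prodMk
      ((continuous_apply k).comp continuous_snd)).prodMk
      ((continuous_apply k).comp continuous_fst).snd
  obtain ⟨V, hV, W, hW, hVW⟩ := mem_nhds_prod_iff.1
    ((hc.continuousAt (x := (1, 1))).preimage_mem_nhds h𝒩)
  have he : IsInducing (Pi.map fun (_ : κ) (h : SL(2, ℚ_[p])) => h.1) :=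
    IsInducing.piMap fun _ => Matrix.SpecialLinearGroup.isClosedEmbedding_val.isEmbedding.isInducing
  rw [he.nhds_eq_comap, mem_comap] at hW
  obtain ⟨U, hU, hUW⟩ := hW
  obtain ⟨ε, hε, hεU⟩ := (Metric.mem_nhds_iff (α := κ → Fin 2 → Fin 2 → ℚ_[p])).1 hU
  refine ⟨V, hV, ε / 2, by positivity, fun g hg g' h => ?_⟩
  have h1 : (fun k => (g' k).1.2) ∈ W := by
    have h0 : dist (fun (k : κ) (i j : Fin 2) => (g' k).1.2 i j)
        (fun _ i j => (1 : SL(2, ℚ_[p])) i j) < ε := by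
      simp only [dist_pi_lt_iff hε]
      exact fun k i j => (dist_eq_norm _ _).trans_lt (((h k).2.2 i j).trans_lt (half_lt_self hε))
    exact hUW (hεU h0)
  have h2 := hVW (Set.mk_mem_prod hg h1)
  have h3 : g' = fun k => (((g k).1.1, (g' k).1.2), (g k).2) := by
    funext k; rw [← (h k).1, ← (h k).2.1]
  rw [h3]; exact h2

theorem uha_mul {𝒩 : Set (κ → G3 p q)} (h𝒩 : 𝒩 ∈ 𝓝 (1 : κ → G3 p q)) :
    ∃ V ∈ 𝓝 (1 : κ → G3 p q), ∃ n₀ : ℕ, ∀ g ∈ V, ∀ x y : κ → ℚ_[p],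
      (∀ k, ‖x k‖ ≤ (p : ℝ) ^ (-(n₀ : ℤ))) → (∀ k, ‖y k‖ ≤ (p : ℝ) ^ (-(n₀ : ℤ))) →
      (fun k => u3 p q (x k) * g k * u3 p q (y k)) ∈ 𝒩 := by
  obtain ⟨U, hU⟩ : ∃ U : (κ → ℚ_[p]) → κ → G3 p q, U = fun x k => u3 p q (x k) := ⟨_, rfl⟩
  have hUc : Continuous U := by
    rw [hU]; exact continuous_pi fun k => (continuous_u3 p q).comp (continuous_apply k)
  have h0 : U 0 = 1 := by rw [hU]; funext k; simp [u3]
  obtain ⟨A, hA, hA'⟩ := exists_nhds_one_split h𝒩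
  obtain ⟨V, hV, hV'⟩ := exists_nhds_one_split hA
  have h1 : U ⁻¹' (A ∩ V) ∈ 𝓝 (0 : κ → ℚ_[p]) :=
    hUc.continuousAt.preimage_mem_nhds (by rw [h0]; exact inter_mem hA hV)
  obtain ⟨ε, hε, hεW⟩ := Metric.mem_nhds_iff.1 h1
  obtain ⟨n, hn⟩ := PadicInt.exists_pow_neg_lt p hε
  refine ⟨V, hV, n, fun g hg x y hx hy => ?_⟩
  have hx' := hεW (mem_ball_zero_iff.2 ((pi_norm_lt_iff hε).2 fun k => (hx k).trans_lt hn))
  have hy' := hεW (mem_ball_zero_iff.2 ((pi_norm_lt_iff hε).2 fun k => (hy k).trans_lt hn))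
  have h2 := hA' _ (hV' _ hx'.2 _ hg) _ hy'.1
  rw [hU] at h2
  exact h2

theorem conj_near {𝒩 : Set (κ → G3 p q)} (h𝒩 : 𝒩 ∈ 𝓝 (1 : κ → G3 p q)) :
    ∃ 𝒩' ∈ 𝓝 (1 : κ → G3 p q), ∃ n₀ : ℕ, ∀ g ∈ 𝒩', ∀ t : ℕ,
      (∀ k, (p : ℝ) ^ (2 * t : ℤ) * ‖(g k).1.2 1 0‖ ≤ (p : ℝ) ^ (-(n₀ : ℤ))) →
      al p q κ t * g * (al p q κ t)⁻¹ ∈ 𝒩 := by
  obtain ⟨V, hV, ε, hε, h⟩ := uha_basis h𝒩
  obtain ⟨n, hn⟩ := PadicInt.exists_pow_neg_lt p hε
  have hp : (1 : ℝ) ≤ p := by exact_mod_cast (Fact.out : p.Prime).one_le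
  refine ⟨_, inter_mem hV (uha_small hε), n, fun g hg t ht => h g hg.1 _ fun k => ?_⟩
  obtain ⟨h1, h2, h3, h4, h5, h6⟩ := a3_conj t (g k)
  have e : (al p q κ t * g * (al p q κ t)⁻¹) k = a3 p q t * g k * (a3 p q t)⁻¹ := rfl
  rw [e]
  refine ⟨h1, h2, fun i j => ?_⟩
  have h7 := hg.2 k
  fin_cases i <;> fin_cases j
  · exact h3 ▸ h7 0 0
  · have h8 : ‖(g k).1.2 0 1‖ ≤ ε := by simpa using h7 0 1
    have h9 : (p : ℝ) ^ (-(2 * t : ℤ)) ≤ 1 := zpow_le_one_of_nonpos₀ hp (by omega)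
    have := h5.trans_le ((mul_le_of_le_one_left (norm_nonneg _) h9).trans h8)
    simpa using this
  · simpa using h6.trans_le ((ht k).trans hn.le)
  · exact h4 ▸ h7 1 1

open Classical in
/-- The displacement along the flow is a translation up to a small error. -/
theorem shear_near {𝒩 : Set (κ → G3 p q)} (h𝒩 : 𝒩 ∈ 𝓝 (1 : κ → G3 p q)) (μ : ℕ) :
    ∃ 𝒩' ∈ 𝓝 (1 : κ → G3 p q), ∃ n₀ : ℕ, ∀ g ∈ 𝒩', ∀ (J : Finset κ) (r : ℤ)
      (v v₁ v₂ : κ → ℚ_[p]), ‖v‖ ≤ (p : ℝ) ^ r → (∀ j ∈ J, Sm (g j).1.2 (r - μ)) →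
      (∀ j ∉ J, ‖v j‖ ≤ (p : ℝ) ^ (-(n₀ : ℤ))) → ‖v₁‖ ≤ (p : ℝ) ^ (-(n₀ : ℤ)) →
      ‖v₂‖ ≤ (p : ℝ) ^ (-(n₀ : ℤ)) →
      ‖fun j => if j ∈ J then shq (g j).1.2 (v j) else 0‖ ≤ (p : ℝ) ^ (2 * μ) ∧ ∃ g₁ ∈ 𝒩,
        ∀ y : κ → X3 p q, fl3 p q κ (v + v₂) (g • y) =
          fl3 p q κ (fun j => if j ∈ J then shq (g j).1.2 (v j) else 0)
            (g₁ • fl3 p q κ (v + v₁) y) := by
  obtain ⟨V₁, hV₁, n, h₁⟩ := uha_mul h𝒩
  obtain ⟨V, hV, ε, hε, h⟩ := uha_basis hV₁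
  have hp : (1 : ℝ) ≤ p := by exact_mod_cast (Fact.out : p.Prime).one_le
  have hP : (1 : ℝ) ≤ (p : ℝ) ^ μ := one_le_pow₀ hp
  obtain ⟨η, h0, hη, hηε⟩ : ∃ η : ℝ, 0 < η ∧ η ≤ 1 ∧ ((p : ℝ) ^ μ) ^ 2 * η ≤ ε :=
    ⟨min 1 (ε / ((p : ℝ) ^ μ) ^ 2), by positivity, min_le_left _ _,
      (le_div_iff₀' (by positivity)).1 (min_le_right _ _)⟩
  have hδ : η ^ 2 / ((p : ℝ) ^ μ) ^ 2 ≤ ε := by
    have := one_le_pow₀ (n := 2) hP
    refine le_trans ?_ hηε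
    rw [div_le_iff₀ (by positivity)]
    nlinarith [mul_le_mul this this zero_le_one (by positivity)]
  refine ⟨_, inter_mem hV (uha_small (δ := η ^ 2 / ((p : ℝ) ^ μ) ^ 2) (by positivity)), n,
    fun g hg J r v v₁ v₂ hv hJ hvJ hv₁ hv₂ => ?_⟩
  have key : ∀ j ∈ J, ‖shq (g j).1.2 (v j)‖ ≤ ((p : ℝ) ^ μ) ^ 2 ∧ ∀ i l,
      ‖(uu (v j - shq (g j).1.2 (v j)) * (g j).1.2 * uu (-v j)) i l - (1 : SL(2, ℚ_[p])) i l‖ ≤
        ((p : ℝ) ^ μ) ^ 2 * η := by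
    intro j hj
    have e : (p : ℝ) ^ r = (p : ℝ) ^ (r - μ) * (p : ℝ) ^ μ := by
      rw [← zpow_natCast, ← zpow_add₀ (by positivity), sub_add_cancel]
    have hs : ‖v j‖ ≤ (p : ℝ) ^ (r - μ) * (p : ℝ) ^ μ := e ▸ (norm_le_pi_norm v j).trans hv
    obtain ⟨s1, s2⟩ := hJ j hj
    refine uha_shear hP h0 hη (hg.2 j) ?_ ?_
    · refine (mul_le_mul_of_nonneg_left hs (norm_nonneg _)).trans ?_
      rw [← mul_assoc]
      exact mul_le_of_le_one_left (by positivity) s1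
    · refine (mul_le_mul_of_nonneg_left (pow_le_pow_left₀ (norm_nonneg _) hs 2)
        (norm_nonneg _)).trans ?_
      rw [mul_pow, ← mul_assoc]
      refine mul_le_of_le_one_left (by positivity) ?_
      rwa [mul_comm 2, zpow_mul, zpow_ofNat] at s2
  set w : κ → ℚ_[p] := fun j => if j ∈ J then shq (g j).1.2 (v j) else 0 with hw
  set s : κ → ℚ_[p] := fun j => if j ∈ J then v j else 0 with hs
  have hx : ∀ {z : κ → ℚ_[p]}, ‖z‖ ≤ (p : ℝ) ^ (-(n : ℤ)) → ∀ k,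
      ‖v k - s k + z k‖ ≤ (p : ℝ) ^ (-(n : ℤ)) := fun {z} hz k => by
    refine uha_add ?_ ((norm_le_pi_norm z k).trans hz)
    by_cases hk : k ∈ J
    · simp only [hs, if_pos hk, sub_self, norm_zero]; positivity
    · simp only [hs, if_neg hk, sub_zero]; exact hvJ k hk
  refine ⟨(pi_norm_le_iff_of_nonneg (by positivity)).2 fun j => ?_, _,
    h₁ (fun k => u3 p q (s k - w k) * g k * u3 p q (-s k)) (h g hg.1 _ fun k => ?_)
      (fun k => v k - s k + v₂ k) (fun k => -(v k - s k + v₁ k)) (hx hv₂)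
      (fun k => by rw [norm_neg]; exact hx hv₁ k), fun y => ?_⟩
  · by_cases hj : j ∈ J
    · simp only [hw, if_pos hj]
      rw [pow_mul']; exact (key j hj).1
    · simp only [hw, if_neg hj, norm_zero]; positivity
  · refine ⟨by simp [u3, uP], by simp [u3], fun i l => ?_⟩
    have e : (u3 p q (s k - w k) * g k * u3 p q (-s k)).1.2 =
        uu (s k - w k) * (g k).1.2 * uu (-s k) := rfl
    rw [e]
    by_cases hk : k ∈ J
    · simp only [hw, hs, if_pos hk]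
      exact ((key k hk).2 i l).trans hηε
    · simp only [hw, hs, if_neg hk, sub_zero, neg_zero, uu_zero, one_mul, mul_one]
      exact (hg.2 k i l).trans hδ
  · funext k
    simp only [fl3_apply, Pi.smul_apply', Pi.add_apply, ← mul_smul]
    congr 1
    have h0 : u3 p q 0 = 1 := by simp [u3]
    have e1 : u3 p q (v k + v₂ k) =
        u3 p q (w k) * u3 p q (v k - s k + v₂ k) * u3 p q (s k - w k) := by
      rw [← u3_add, ← u3_add]; congr 1; ring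
    have e2 : u3 p q (-s k) * u3 p q (-(v k - s k + v₁ k)) * u3 p q (v k + v₁ k) = 1 := by
      rw [← u3_add, ← u3_add, ← h0]; congr 1; ring
    rw [e1, ← mul_one (_ * g k), ← e2]
    simp only [mul_assoc]

end Pool.Agent.EQ
end
end

-- part Pool.Agent.P.MP_ad7a55_nt.UM
section

/-! The invariant measure on the space with two primes. -/

set_option autoImplicit false

noncomputable section

open MeasureTheory Topology Filter UpperHalfPlane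
open scoped MatrixGroups ENNReal BoundedContinuousFunction

namespace Pool.Agent.EQ

section gen

variable {H : Type} [Group H] [TopologicalSpace H] [IsTopologicalGroup H] [PolishSpace H]
  [LocallyCompactSpace H] [MeasurableSpace H] [BorelSpace H] {Γ : Subgroup H}
  [IsClosed (Γ : Set H)] [MeasurableConstSMul H (H ⧸ Γ)] {s : H ⧸ Γ → H}

/-- The lift of a measure on the quotient to the group. -/
def um_L (s : H ⧸ Γ → H) (μ : Measure (H ⧸ Γ)) : Measure H :=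
  (lift s (μ.map fun x => (x, ()))).map Prod.fst

theorem um_meas {X : Type} [MeasurableSpace X] : Measurable fun x : X => (x, ()) :=
  measurable_id.prodMk measurable_const

theorem um_fst {X : Type} [MeasurableSpace X] (ν : Measure (X × Unit)) :
    (ν.map Prod.fst).map (fun x => (x, ())) = ν := by
  rw [Measure.map_map um_meas measurable_fst]
  exact Measure.map_id

theorem um_fst' {X : Type} [MeasurableSpace X] (ν : Measure X) :
    (ν.map fun x => (x, ())).map Prod.fst = ν := by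
  rw [Measure.map_map measurable_fst um_meas]
  exact Measure.map_id

theorem um_left (hΓ : Disc Γ) (hs : IsSec s) (μ : Measure (H ⧸ Γ)) (g : H) :
    (um_L s μ).map (g * ·) = um_L s (μ.map (g • ·)) := by
  have h := lift_left hΓ hs (μ.map fun x => (x, ())) g measurable_id
  have m1 : Measurable fun w : (H ⧸ Γ) × Unit => (g • w.1, id w.2) :=
    ((measurable_const_smul g).comp measurable_fst).prodMk measurable_snd
  have m2 : Measurable fun w : H × Unit => (g * w.1, id w.2) :=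
    ((measurable_const_mul g).comp measurable_fst).prodMk measurable_snd
  rw [Measure.map_map m1 um_meas] at h
  unfold um_L
  rw [Measure.map_map (measurable_const_mul g) measurable_fst,
    Measure.map_map um_meas (measurable_const_smul g)]
  have h' := congrArg (Measure.map Prod.fst) h
  rw [Measure.map_map measurable_fst m2] at h'
  exact h'

omit [MeasurableConstSMul H (H ⧸ Γ)] in
theorem um_right (hΓ : Disc Γ) (hs : IsSec s) (μ : Measure (H ⧸ Γ)) {γ : H} (hγ : γ ∈ Γ) :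
    (um_L s μ).map (· * γ) = um_L s μ := by
  have h := lift_right hΓ hs (μ.map fun x => (x, ())) hγ
  have m2 : Measurable fun w : H × Unit => (w.1 * γ, w.2) :=
    ((measurable_mul_const γ).comp measurable_fst).prodMk measurable_snd
  unfold um_L
  rw [Measure.map_map (measurable_mul_const γ) measurable_fst]
  have h' := congrArg (Measure.map Prod.fst) h
  rw [Measure.map_map measurable_fst m2] at h'
  exact h'

omit [MeasurableConstSMul H (H ⧸ Γ)] in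
theorem um_fin (hΓ : Disc Γ) (hs : IsSec s) (μ : Measure (H ⧸ Γ)) [IsFiniteMeasure μ] :
    IsFiniteMeasureOnCompacts (um_L s μ) := ⟨fun C hC => by
  have h := lift_fin hΓ hs (μ.map fun x => (x, ())) hC
  unfold um_L
  rw [Measure.map_apply measurable_fst hC.measurableSet]
  rwa [Set.prod_univ] at h⟩

omit [MeasurableConstSMul H (H ⧸ Γ)] in
theorem um_inj (hΓ : Disc Γ) (hs : IsSec s) {μ μ' : Measure (H ⧸ Γ)}
    (h : um_L s μ = um_L s μ') : μ = μ' := by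
  have h' := congrArg (Measure.map fun x : H => (x, ())) h
  unfold um_L at h'
  rw [um_fst, um_fst] at h'
  have h2 := congrArg (Measure.map Prod.fst) (lift_inj hΓ hs h')
  rwa [um_fst', um_fst'] at h2

omit [MeasurableConstSMul H (H ⧸ Γ)] in
theorem um_smul (s : H ⧸ Γ → H) (μ : Measure (H ⧸ Γ)) (c : ℝ≥0∞) :
    um_L s (c • μ) = c • um_L s μ := by
  unfold um_L
  rw [Measure.map_smul, lift_smul, Measure.map_smul]

theorem um_stab (hΓ : Disc Γ) (hs : IsSec s) (μ : Measure (H ⧸ Γ)) (g : H) :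
    g ∈ Stab H μ ↔ (um_L s μ).map (g * ·) = um_L s μ := by
  rw [um_left hΓ hs, mem_Stab]
  exact ⟨fun h => by rw [h], um_inj hΓ hs⟩

omit [MeasurableConstSMul H (H ⧸ Γ)] in
theorem um_le (hΓ : Disc Γ) (hs : IsSec s) (μ : Measure (H ⧸ Γ)) {F : Set H}
    (hF : MeasurableSet F) {E : Set (H ⧸ Γ)} (hE : MeasurableSet E)
    (hF' : ∀ x ∈ E, ∃ g ∈ F, (g : H ⧸ Γ) = x) : μ E ≤ um_L s μ F := by
  have hE' : MeasurableSet ((fun g : H => (g : H ⧸ Γ)) ⁻¹' E) := QuotientGroup.measurable_coe hE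
  have h := le_lift hΓ hs (μ.map fun x => (x, ())) (hF.union hE'.compl) (fun x => by
    by_cases hx : x ∈ E
    · obtain ⟨g, hg, e⟩ := hF' x hx
      exact ⟨g, Or.inl hg, e⟩
    · exact ⟨s x, Or.inr fun h => hx (hs.2 x ▸ h), hs.2 x⟩) (measurable_fst hE)
  rw [Measure.map_apply um_meas (measurable_fst hE)] at h
  unfold um_L
  rw [Measure.map_apply measurable_fst hF]
  refine h.trans (measure_mono fun w hw => ?_)
  exact hw.1.resolve_right fun h' => h' hw.2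

omit [MeasurableConstSMul H (H ⧸ Γ)] in
theorem um_null (hΓ : Disc Γ) (hs : IsSec s) (μ : Measure (H ⧸ Γ)) {E : Set (H ⧸ Γ)}
    (hE : μ E = 0) : um_L s μ {g | (g : H ⧸ Γ) ∈ E} = 0 := by
  have hm := measurableSet_toMeasurable μ E
  refine measure_mono_null (t := (fun g : H => (g : H ⧸ Γ)) ⁻¹' toMeasurable μ E)
    (fun g hg => subset_toMeasurable μ E hg) ?_
  unfold um_L
  rw [Measure.map_apply measurable_fst (QuotientGroup.measurable_coe hm)]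
  refine lift_null hΓ hs (μ.map fun x => (x, ())) (E := Prod.fst ⁻¹' toMeasurable μ E) ?_
  rw [Measure.map_apply um_meas (measurable_fst hm)]
  exact (measure_toMeasurable E).trans hE

omit [MeasurableConstSMul H (H ⧸ Γ)] in
theorem um_exists (hΓ : Disc Γ) (hs : IsSec s) (ν : Measure H) [ν.IsMulRightInvariant] :
    ∃ ρ : Measure (H ⧸ Γ), um_L s ρ = ν := by
  obtain ⟨ρ, hρ⟩ := exists_lift_eq hΓ hs (ν.map fun g => (g, ())) fun γ _ => by
    rw [Measure.map_map ((measurable_fst.mul_const γ).prodMk measurable_snd) um_meas]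
    conv_rhs => rw [← map_mul_right_eq_self ν γ]
    rw [Measure.map_map um_meas (measurable_mul_const γ)]
    rfl
  refine ⟨ρ.map Prod.fst, ?_⟩
  unfold um_L
  rw [um_fst, hρ, um_fst']

theorem um_haar (hΓ : Disc Γ) (hs : IsSec s) (μ : Measure (H ⧸ Γ)) [IsFiniteMeasure μ]
    (h : ∀ g, g ∈ Stab H μ) (ν : Measure H) [ν.IsHaarMeasure] :
    ∃ c : NNReal, um_L s μ = (c : ℝ≥0∞) • ν := by
  have := um_fin hΓ hs μ
  have : (um_L s μ).IsMulLeftInvariant := ⟨fun g => (um_stab hΓ hs μ g).1 (h g)⟩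
  exact ⟨_, Measure.isMulLeftInvariant_eq_smul _ _⟩

theorem um_haar' (hΓ : Disc Γ) (hs : IsSec s) (μ : Measure (H ⧸ Γ)) [IsProbabilityMeasure μ]
    (h : ∀ g, g ∈ Stab H μ) (ν : Measure H) [ν.IsHaarMeasure] :
    ∃ c : NNReal, (c : ℝ≥0∞) ≠ 0 ∧ um_L s μ = (c : ℝ≥0∞) • ν := by
  obtain ⟨c, hc⟩ := um_haar hΓ hs μ h ν
  refine ⟨c, fun h0 => ?_, hc⟩
  have h1 : um_L s μ = um_L s ((0 : ℝ≥0∞) • μ) := by
    rw [um_smul, hc, h0, zero_smul, zero_smul]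
  have h2 := congrArg (fun m : Measure (H ⧸ Γ) => m Set.univ) (um_inj hΓ hs h1)
  simp at h2

theorem um_uniq (hΓ : Disc Γ) (μ μ' : Measure (H ⧸ Γ)) [IsFiniteMeasure μ]
    [IsProbabilityMeasure μ'] (h : ∀ g, g ∈ Stab H μ) (h' : ∀ g, g ∈ Stab H μ') :
    μ = μ Set.univ • μ' := by
  obtain ⟨s, hs⟩ := exists_sec hΓ
  obtain ⟨c, hc⟩ := um_haar hΓ hs μ h Measure.haar
  obtain ⟨c', h0, hc'⟩ := um_haar' hΓ hs μ' h' Measure.haar
  have h1 : um_L s μ = um_L s (((c : ℝ≥0∞) / c') • μ') := by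
    rw [um_smul, hc, hc', smul_smul, ENNReal.div_mul_cancel h0 ENNReal.coe_ne_top]
  have h2 := um_inj hΓ hs h1
  have h3 : μ Set.univ = (c : ℝ≥0∞) / c' := by
    rw [h2]; simp
  rw [h3]; exact h2

variable {A B : Type} [Group A] [TopologicalSpace A] [IsTopologicalGroup A] [PolishSpace A]
  [LocallyCompactSpace A] [MeasurableSpace A] [BorelSpace A]
  [Group B] [TopologicalSpace B] [IsTopologicalGroup B] [PolishSpace B]
  [LocallyCompactSpace B] [MeasurableSpace B] [BorelSpace B]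

theorem um_prod (hΓ : Disc Γ) (μA : Measure A) [μA.IsHaarMeasure] [μA.IsMulRightInvariant]
    (μB : Measure B) [μB.IsHaarMeasure] [μB.IsMulRightInvariant] (e : H ≃ₜ A × B)
    (he : ∀ x y, e (x * y) = e x * e y) (hD : Dense ((fun g => (e g).2) '' (Γ : Set H)))
    (μ : Measure (H ⧸ Γ)) [IsFiniteMeasure μ] (h : ∀ a : A, e.symm (a, 1) ∈ Stab H μ) (g : H) :
    g ∈ Stab H μ := by
  obtain ⟨s, hs⟩ := exists_sec hΓ
  have := um_fin hΓ hs μ
  have : IsFiniteMeasureOnCompacts ((um_L s μ).map e) :=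
    Measure.IsFiniteMeasureOnCompacts.map _ e
  have me : Measurable e := e.continuous.measurable
  have sw : ∀ (T : H → H) (T' : A × B → A × B), Measurable T → Measurable T' →
      (∀ x, T' (e x) = e (T x)) →
      (((um_L s μ).map e).map T' = (um_L s μ).map e ↔ (um_L s μ).map T = um_L s μ) :=
    fun T T' hT hT' h' => by
      rw [Measure.map_map hT' me, show T' ∘ e = e ∘ T from funext h', ← Measure.map_map me hT]
      exact (e.measurableEmbedding.map_injective).eq_iff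
  have h2 : e.symm (1, (e g).2) ∈ Stab H μ := by
    rw [um_stab hΓ hs]
    have := haara_prod μA μB ((um_L s μ).map e) (fun a =>
      (sw _ _ (measurable_const_mul _) (by fun_prop) (fun x => by simp [he, Prod.ext_iff])).2
        ((um_stab hΓ hs μ _).1 (h a))) hD (by
      rintro _ ⟨γ, hγ, rfl⟩
      exact ⟨(e γ).1, (sw _ _ (measurable_mul_const _) (by fun_prop)
        (fun x => by simp [he, Prod.ext_iff])).2 (um_right hΓ hs μ hγ)⟩) (e g).2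
    exact (sw _ _ (measurable_const_mul _) (by fun_prop)
      (fun x => by simp [he, Prod.ext_iff])).1 this
  have h3 : g = e.symm ((e g).1, 1) * e.symm (1, (e g).2) := e.injective (by simp [he])
  rw [h3]
  exact mul_mem (h _) h2

theorem um_unimod (μA : Measure A) [μA.IsHaarMeasure] [μA.IsMulRightInvariant]
    (μB : Measure B) [μB.IsHaarMeasure] [μB.IsMulRightInvariant] (μ : Measure (A × B))
    [μ.IsHaarMeasure] : μ.IsMulRightInvariant := by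
  rw [Measure.isMulLeftInvariant_eq_smul μ (μA.prod μB)]
  infer_instance

end gen

variable (p q : ℕ) [Fact p.Prime] [Fact q.Prime]

theorem um_disc : Disc (Gam3 p q) := fun _ => Gam3_finite p q

theorem um_unimod2 (μ : Measure (GG p)) [μ.IsHaarMeasure] : μ.IsMulRightInvariant := by
  have := unimod (Measure.haar : Measure SL(2, ℝ))
  have := unimod (Measure.haar : Measure SL(2, ℚ_[p]))
  exact um_unimod Measure.haar Measure.haar μ

theorem um_unimod3 (μ : Measure (G3 p q)) [μ.IsHaarMeasure] : μ.IsMulRightInvariant := by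
  have := um_unimod2 p Measure.haar
  have := unimod (Measure.haar : Measure SL(2, ℚ_[q]))
  exact um_unimod Measure.haar Measure.haar μ

theorem um_int (γ : SL(2, ℤ)) : (((toR γ, toP p γ), toP q γ) : G3 p q) ∈ Gam3 p q := by
  refine ⟨Matrix.SpecialLinearGroup.map (Int.castRingHom ℚ) γ, fun i j => ?_, ?_⟩
  · simpa using inZp_int (p * q) (γ i j)
  · refine Prod.ext (Prod.ext ?_ ?_) ?_ <;> ext i j <;> simp [emb3, emb, toR, toP]

open ModularGroup in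
theorem um_onto (hpq : p ≠ q) (x : X3 p q) :
    ∃ g ∈ haarB2_S p fd ×ˢ (Kp q : Set SL(2, ℚ_[q])), ((g : G3 p q) : X3 p q) = x := by
  obtain ⟨g, hg, hg', rfl⟩ := exists_rep3 p q hpq x
  obtain ⟨δ, hδ⟩ := exists_smul_mem_fd (g.1.1⁻¹ • UpperHalfPlane.I)
  refine ⟨g * ((toR δ⁻¹, toP p δ⁻¹), toP q δ⁻¹), ⟨⟨?_, (Kp p).mul_mem hg (toP_mem_Kp p _)⟩,
    (Kp q).mul_mem hg' (toP_mem_Kp q _)⟩, QuotientGroup.mk_mul_of_mem _ (um_int p q _)⟩
  change (g.1.1 * toR δ⁻¹)⁻¹ • UpperHalfPlane.I ∈ fd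
  rwa [mul_inv_rev, ← map_inv, inv_inv, mul_smul, haarB2_toR_smul]

open ModularGroup in
theorem exists_m3 : ∃ m : Measure (X3 p q), IsProbabilityMeasure m ∧
    (p ≠ q → ∀ g, g ∈ Stab (G3 p q) m) := by
  by_cases hpq : p = q
  · exact ⟨Measure.dirac ((1 : G3 p q) : X3 p q), inferInstance, fun h => absurd hpq h⟩
  obtain ⟨s, hs⟩ := exists_sec (um_disc p q)
  set μR : Measure SL(2, ℝ) := Measure.haar
  set μP : Measure SL(2, ℚ_[p]) := Measure.haar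
  set μQ : Measure SL(2, ℚ_[q]) := Measure.haar
  obtain ⟨c, hc0, hc1, hc⟩ := map_haar μR
  set μ : Measure (G3 p q) := (μR.prod μP).prod μQ with hμ
  have := um_unimod3 p q μ
  obtain ⟨ρ, hρ⟩ := um_exists (um_disc p q) hs μ
  have h1 : ρ Set.univ ≠ ∞ := by
    refine ne_top_of_le_ne_top ?_ (um_le (um_disc p q) hs ρ
      ((haarB2_S_meas p isClosed_fd.measurableSet).prod (Kp_open q).measurableSet)
      MeasurableSet.univ fun x _ => um_onto p q hpq x)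
    rw [hρ, hμ, Measure.prod_prod, haarB2_S, Measure.prod_prod,
      ← Measure.map_apply haarB2_cont.measurable isClosed_fd.measurableSet, hc,
      Measure.smul_apply, smul_eq_mul]
    exact ENNReal.mul_ne_top (ENNReal.mul_ne_top (ENNReal.mul_ne_top hc1 haarB2_fd_lt_top.ne)
      (Kp_compact p).measure_lt_top.ne) (Kp_compact q).measure_lt_top.ne
  have h0 : ρ Set.univ ≠ 0 := fun h0 => by
    have h2 := um_null (um_disc p q) hs ρ h0
    rw [hρ] at h2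
    exact (isOpen_univ.measure_pos μ ⟨1, trivial⟩).ne' (by simpa using h2)
  refine ⟨(ρ Set.univ)⁻¹ • ρ, ⟨?_⟩, fun _ g => ?_⟩
  · rw [Measure.smul_apply, smul_eq_mul, ENNReal.inv_mul_cancel h0 h1]
  · have h3 : g ∈ Stab (G3 p q) ρ := by
      rw [um_stab (um_disc p q) hs, hρ]
      exact map_mul_left_eq_self μ g
    rw [mem_Stab, Measure.map_smul, mem_Stab.1 h3]

/-- The invariant probability measure. -/
def m3 : Measure (X3 p q) := (exists_m3 p q).choose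

instance instProbm3 : IsProbabilityMeasure (m3 p q) := (exists_m3 p q).choose_spec.1

variable {p q}

theorem m3_inv (hpq : p ≠ q) (g : G3 p q) : (m3 p q).map (fun x => g • x) = m3 p q :=
  (exists_m3 p q).choose_spec.2 hpq g

theorem map_pi3 (hpq : p ≠ q) : (m3 p q).map (pi3 p q) = mX p := by
  have hm := (continuous_pi3 p q).measurable
  have := Measure.isProbabilityMeasure_map (μ := m3 p q) hm.aemeasurable
  have h := eq_mX_of_P p ((m3 p q).map (pi3 p q)) fun g => by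
    rw [mem_Stab, Measure.map_map (measurable_const_smul _) hm]
    conv_rhs => rw [← m3_inv hpq (iP p q g)]
    rw [Measure.map_map hm (measurable_const_smul _)]
    congr 1
    funext x
    exact (pi3_smul p q (g := iP p q g) (Kp q).one_mem x).symm
  rwa [measure_univ, one_smul] at h

theorem eq_m3 (hpq : p ≠ q) (μ : Measure (X3 p q)) [IsFiniteMeasure μ]
    (h : ∀ g, g ∈ Stab (G3 p q) μ) : μ = μ Set.univ • m3 p q := by
  exact um_uniq (um_disc p q) μ _ h (m3_inv hpq)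

theorem eq_m3_of_P (hpq : p ≠ q) (μ : Measure (X3 p q)) [IsFiniteMeasure μ]
    (h : ∀ g, iP p q g ∈ Stab (G3 p q) μ) : μ = μ Set.univ • m3 p q := by
  have := unimod (Measure.haar : Measure SL(2, ℝ))
  have := unimod (Measure.haar : Measure SL(2, ℚ_[p]))
  have := unimod (Measure.haar : Measure SL(2, ℚ_[q]))
  let e : G3 p q ≃ₜ SL(2, ℚ_[p]) × SL(2, ℝ) × SL(2, ℚ_[q]) :=
    ((Homeomorph.prodComm _ _).prodCongr (Homeomorph.refl _)).trans (Homeomorph.prodAssoc _ _ _)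
  exact eq_m3 hpq μ (um_prod (um_disc p q) Measure.haar
    ((Measure.haar : Measure SL(2, ℝ)).prod (Measure.haar : Measure SL(2, ℚ_[q]))) e
    (fun _ _ => rfl) (dense3_Rq p q hpq) μ h)

theorem eq_m3_of_Q (hpq : p ≠ q) (μ : Measure (X3 p q)) [IsFiniteMeasure μ]
    (h : ∀ g, iQ p q g ∈ Stab (G3 p q) μ) : μ = μ Set.univ • m3 p q := by
  have := um_unimod2 p Measure.haar
  have := unimod (Measure.haar : Measure SL(2, ℚ_[q]))
  exact eq_m3 hpq μ (um_prod (um_disc p q) Measure.haar Measure.haar (Homeomorph.prodComm _ _)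
    (fun _ _ => rfl) (dense3_fst p q hpq) μ h)

theorem unimod3 (μ : Measure (G3 p q)) [μ.IsHaarMeasure] : μ.IsMulRightInvariant := by
  exact um_unimod3 p q μ

theorem m3_le (hpq : p ≠ q) (μ : Measure (G3 p q)) [μ.IsHaarMeasure] : ∃ c : ℝ≥0∞, c ≠ ∞ ∧
    ∀ E : Set (G3 p q), IsCompact E → ∀ y : X3 p q, m3 p q ((fun g => g • y) '' E) ≤ c * μ E := by
  obtain ⟨s, hs⟩ := exists_sec (um_disc p q)
  obtain ⟨c, hc⟩ := um_haar (um_disc p q) hs (m3 p q) (m3_inv hpq) μ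
  have := unimod3 μ
  refine ⟨c, ENNReal.coe_ne_top, fun E hE y => ?_⟩
  have h1 : IsCompact ((fun g : G3 p q => g • y) '' E) := hE.image (by fun_prop)
  have h2 : IsCompact ((fun g : G3 p q => g * (s y)⁻¹) ⁻¹' E) :=
    (Homeomorph.mulRight (s y)⁻¹).isCompact_preimage.2 hE
  refine (um_le (um_disc p q) hs (m3 p q) h2.measurableSet h1.measurableSet ?_).trans (le_of_eq ?_)
  · rintro _ ⟨g, hg, rfl⟩
    refine ⟨g * s y, by simpa using hg, ?_⟩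
    conv_rhs => rw [← hs.2 y]
    rfl
  · rw [hc, Measure.smul_apply, smul_eq_mul, measure_preimage_mul_right]

theorem m3_null (hpq : p ≠ q) (μ : Measure (G3 p q)) [μ.IsHaarMeasure] {E : Set (X3 p q)}
    (hE : m3 p q E = 0) : μ {g | (g : X3 p q) ∈ E} = 0 := by
  obtain ⟨s, hs⟩ := exists_sec (um_disc p q)
  obtain ⟨c, h0, hc⟩ := um_haar' (um_disc p q) hs (m3 p q) (m3_inv hpq) μ
  have h := um_null (um_disc p q) hs (m3 p q) hE
  rw [hc, Measure.smul_apply, smul_eq_mul] at h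
  exact (mul_eq_zero.1 h).resolve_left h0

end Pool.Agent.EQ
end
end

-- part Pool.Agent.P.MP_ad7a55_nt.VCj
section

/-! Galois conjugates of points of level N. -/

set_option autoImplicit false

noncomputable section

open MeasureTheory Topology Filter UpperHalfPlane
open scoped MatrixGroups ENNReal BoundedContinuousFunction

namespace Pool.Agent.EQ

/-- The matrices that fix all modular functions of level `N`. -/
def G0 (N : ℕ) (L : IntermediateField ℚ ℂ) : Subgroup SL(2, ℤ) where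
  carrier := {γ | ∀ f ∈ MF N L, ∀ τ : ℍ, f (γ • τ) = f τ}
  one_mem' := fun f _ τ => by rw [one_smul]
  mul_mem' := fun {a b} ha hb f hf τ => by rw [mul_smul, ha f hf, hb f hf]
  inv_mem' := fun {a} ha f hf τ => by rw [← ha f hf (a⁻¹ • τ), smul_inv_smul]

variable {N : ℕ} {L : IntermediateField ℚ ℂ}

theorem Gamma_le_G0 : CongruenceSubgroup.Gamma N ≤ G0 N L := fun _ hγ _ hf τ => MF.inv hf hγ τ

theorem neg_mem_G0 : (-1 : SL(2, ℤ)) ∈ G0 N L := by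
  intro f _ τ
  rw [ModularGroup.SL_neg_smul, one_smul]

theorem G0_normal : (G0 N L).Normal := by
  refine ⟨fun n hn g f hf τ => ?_⟩
  have h := hn _ (MF.smul hf g) (g⁻¹ • τ)
  simp only [smul_inv_smul] at h
  rw [mul_smul, mul_smul, h]

/-- The cosets of the principal congruence subgroup. -/
abbrev vcjQ (N : ℕ) : Type := SL(2, ℤ) ⧸ CongruenceSubgroup.Gamma N

theorem vcj_fin (hN : 0 < N) : Finite (vcjQ N) := by
  have : NeZero N := ⟨hN.ne'⟩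
  exact Subgroup.finite_quotient_of_finiteIndex

theorem vcj_mk {f : ℍ → ℂ} (hf : f ∈ MF N L) (g : SL(2, ℤ)) (τ : ℍ) :
    f ((QuotientGroup.mk g : vcjQ N).out⁻¹ • τ) = f (g⁻¹ • τ) := by
  obtain ⟨h, e⟩ := QuotientGroup.mk_out_eq_mul (CongruenceSubgroup.Gamma N) g
  rw [e, mul_inv_rev, mul_smul, MF.inv hf (inv_mem h.2)]

theorem vcj_one {f : ℍ → ℂ} (hf : f ∈ MF N L) (τ : ℍ) :
    f ((QuotientGroup.mk 1 : vcjQ N).out⁻¹ • τ) = f τ := by
  rw [vcj_mk hf, inv_one, one_smul]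

theorem vcj_shift {f : ℍ → ℂ} (hf : f ∈ MF N L) (γ : SL(2, ℤ)) (c : vcjQ N) (τ : ℍ) :
    f (c.out⁻¹ • γ • τ) = f ((MulAction.toPerm γ⁻¹ c).out⁻¹ • τ) := by
  have e : MulAction.toPerm γ⁻¹ c = (QuotientGroup.mk (γ⁻¹ * c.out) : vcjQ N) :=
    (MulAction.Quotient.mk_smul_out (CongruenceSubgroup.Gamma N) γ⁻¹ c).symm
  rw [e, vcj_mk hf, mul_inv_rev, inv_inv, mul_smul]

theorem vcj_eval {σ : ℂ ≃+* ℂ} (hσ : ∀ a ∈ L, σ a = a) {P : Polynomial ℂ} (hP : ∀ n, P.coeff n ∈ L)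
    (z : ℂ) : P.eval (σ z) = σ (P.eval z) := by
  rw [Polynomial.eval_eq_sum_range, Polynomial.eval_eq_sum_range, map_sum]
  refine Finset.sum_congr rfl fun n _ => ?_
  rw [map_mul, map_pow, hσ _ (hP n)]

theorem vcj_single (hN : 0 < N) {σ : ℂ ≃+* ℂ} (hσ : ∀ a ∈ L, σ a = a) {τ τ₀ : ℍ}
    (hj : jInv τ₀ = σ (jInv τ)) {f : ℍ → ℂ} (hf : f ∈ MF N L) :
    ∃ c : vcjQ N, f (c.out⁻¹ • τ₀) = σ (f τ) := by
  have := vcj_fin hN
  have := Fintype.ofFinite (vcjQ N)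
  obtain ⟨c, hc, -⟩ := mem_of_power_sums (fun c : vcjQ N => σ (f (c.out⁻¹ • τ))) (fun _ => 1)
    (fun c : vcjQ N => f (c.out⁻¹ • τ₀)) (fun _ => 1) (fun a b => by
      obtain ⟨P, hP, e⟩ := MF.poly hN (MF.sum hN Finset.univ
        (f := fun (c : vcjQ N) τ => f (c.out⁻¹ • τ) ^ a)
        fun c _ => MF.pow hN (MF.smul hf _) a) fun γ t => by
          simp only [vcj_shift hf γ]
          exact Equiv.sum_comp (MulAction.toPerm γ⁻¹) fun c : vcjQ N => f (c.out⁻¹ • t) ^ a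
      simp only [one_pow, mul_one]
      rw [e τ₀, hj, vcj_eval hσ hP, ← e τ, map_sum]
      simp only [map_pow]) (QuotientGroup.mk 1)
  exact ⟨c, by rw [hc, vcj_one hf]⟩

/-- The modular functions as a rational vector space. -/
def vcjS (hN : 0 < N) (L : IntermediateField ℚ ℂ) : Submodule ℚ (ℍ → ℂ) where
  carrier := MF N L
  add_mem' hf hg := MF.add hN hf hg
  zero_mem' := MF.const (zero_mem L)
  smul_mem' q f hf := by
    have e : q • f = fun τ => (q : ℂ) * f τ := funext fun τ => Rat.smul_def q (f τ)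
    rw [e]
    exact MF.mul hN (MF.const (SubfieldClass.ratCast_mem L q)) hf

theorem vcj_conj (hN : 0 < N) {σ : ℂ ≃+* ℂ} (hσ : ∀ a ∈ L, σ a = a) {τ τ₀ : ℍ}
    (hj : jInv τ₀ = σ (jInv τ)) : ∃ c : vcjQ N, ∀ f ∈ MF N L, f (c.out⁻¹ • τ₀) = σ (f τ) := by
  have := vcj_fin hN
  let V : vcjQ N → Subspace ℚ (vcjS hN L) := fun c =>
    { carrier := {f | f.1 (c.out⁻¹ • τ₀) = σ (f.1 τ)}
      add_mem' := fun {f g} hf hg => by
        show f.1 _ + g.1 _ = σ (f.1 τ + g.1 τ)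
        rw [map_add, ← hf, ← hg]
      zero_mem' := (map_zero σ).symm
      smul_mem' := fun q f hf => by
        show q • f.1 _ = σ (q • f.1 τ)
        rw [Rat.smul_def, Rat.smul_def, map_mul, map_ratCast, ← hf] }
  obtain ⟨c, hc⟩ := Subspace.exists_eq_top_of_iUnion_eq_univ (p := V)
    (Set.eq_univ_of_forall fun f => Set.mem_iUnion.2 (vcj_single hN hσ hj f.2))
  refine ⟨c, fun f hf => ?_⟩
  have : (⟨f, hf⟩ : vcjS hN L) ∈ V c := hc ▸ Submodule.mem_top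
  exact this

/-- Every automorphism fixing the coefficients moves a point to a point. -/
theorem exists_conj (hN : 0 < N) {σ : ℂ ≃+* ℂ} (hσ : ∀ a ∈ L, σ a = a) (τ : ℍ) :
    ∃ τ' : ℍ, ∀ f ∈ MF N L, f τ' = σ (f τ) := by
  obtain ⟨τ₀, h⟩ := jInv_surj (σ (jInv τ))
  obtain ⟨c, hc⟩ := vcj_conj hN hσ h
  exact ⟨_, hc⟩

theorem vcj_pow {σ : ℂ ≃+* ℂ} {x : ℂ} {a b m : ℕ} (hab : a < b) (h : (σ ^ a) x = (σ ^ b) x)
    (hb : b ≤ m) : (σ ^ m.factorial) x = x := by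
  obtain ⟨k, rfl⟩ := Nat.exists_eq_add_of_lt hab
  have h1 : (σ ^ (k + 1)) x = x := by
    apply (σ ^ a).injective
    rw [h, add_assoc, pow_add σ a (k + 1)]
    rfl
  obtain ⟨t, ht⟩ := Nat.dvd_factorial (Nat.succ_pos k) (by omega : k + 1 ≤ m)
  rw [ht]
  clear ht
  induction t with
  | zero => rfl
  | succ t ih =>
    rw [Nat.mul_succ, pow_add]
    show (σ ^ _) ((σ ^ (k + 1)) x) = x
    rw [h1, ih]

theorem fix_pow (hN : 0 < N) : ∃ m : ℕ, 0 < m ∧ ∀ (L : IntermediateField ℚ ℂ) (σ : ℂ ≃+* ℂ),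
    (∀ a ∈ L, σ a = a) → ∀ τ : ℍ, σ (jInv τ) = jInv τ → ∀ f ∈ MF N L, (σ ^ m) (f τ) = f τ := by
  have := vcj_fin hN
  have := Fintype.ofFinite (vcjQ N)
  refine ⟨(Fintype.card (vcjQ N)).factorial, Nat.factorial_pos _, fun L σ hσ τ hj f hf => ?_⟩
  choose π hπ using fun c : vcjQ N => vcj_conj hN hσ (τ := c.out⁻¹ • τ) (τ₀ := τ)
    (by rw [jInv_smul, hj])
  have key : ∀ a : ℕ, (σ ^ a) (f τ) = f ((π^[a] (QuotientGroup.mk 1)).out⁻¹ • τ) := by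
    intro a
    induction a with
    | zero => exact (vcj_one hf τ).symm
    | succ a ih =>
      rw [Function.iterate_succ_apply', hπ _ f hf, ← ih, pow_succ']
      rfl
  obtain ⟨a, b, hab, h⟩ := Fintype.exists_ne_map_eq_of_card_lt
    (fun a : Fin (Fintype.card (vcjQ N) + 1) => π^[a] (QuotientGroup.mk 1)) (by simp)
  have h' : (σ ^ (a : ℕ)) (f τ) = (σ ^ (b : ℕ)) (f τ) := by
    rw [key, key]
    exact congrArg (fun c : vcjQ N => f (c.out⁻¹ • τ)) h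
  rcases lt_or_gt_of_ne hab with h1 | h1
  · exact vcj_pow h1 h' (Nat.le_of_lt_succ b.2)
  · exact vcj_pow h1 h'.symm (Nat.le_of_lt_succ a.2)

theorem vcj_prod_ne (hN : 0 < N) {ι : Type} (s : Finset ι) {F : ι → ℍ → ℂ}
    (hF : ∀ i, F i ∈ MF N L) (h : ∀ i, ∃ τ, F i τ ≠ 0) : ∃ τ, ∏ i ∈ s, F i τ ≠ 0 := by
  induction s using Finset.cons_induction with
  | empty => exact ⟨UpperHalfPlane.I, by simp⟩
  | cons a s ha ih =>
    by_contra hne
    push Not at hne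
    simp only [Finset.prod_cons] at hne
    rcases MF.eq_zero hN (hF a) (MF.prod hN s fun i _ => hF i) hne with h1 | h1
    · obtain ⟨τ, hτ⟩ := h a
      exact hτ (h1 τ)
    · obtain ⟨τ, hτ⟩ := ih
      exact hτ (h1 τ)

theorem finite_zero (hN : 0 < N) {f : ℍ → ℂ} (hf : f ∈ MF N L) (h : ∃ τ, f τ ≠ 0) :
    {z | ∃ τ, f τ = 0 ∧ jInv τ = z}.Finite := by
  have := vcj_fin hN
  have := Fintype.ofFinite (vcjQ N)
  obtain ⟨P, -, e⟩ := MF.poly hN (MF.prod hN Finset.univ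
    (f := fun (c : vcjQ N) τ => f (c.out⁻¹ • τ)) fun c _ => MF.smul hf _) fun γ t => by
      simp only [vcj_shift hf γ]
      exact Equiv.prod_comp (MulAction.toPerm γ⁻¹) fun c : vcjQ N => f (c.out⁻¹ • t)
  obtain ⟨τ₁, h1⟩ := h
  obtain ⟨τ₂, h2⟩ := vcj_prod_ne hN Finset.univ (F := fun (c : vcjQ N) τ => f (c.out⁻¹ • τ))
    (fun c => MF.smul hf _) fun c => ⟨c.out • τ₁, by simpa using h1⟩
  have hP : P ≠ 0 := fun h0 => h2 (by rw [e τ₂, h0, Polynomial.eval_zero])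
  refine (Polynomial.finite_setOfPred_isRoot hP).subset ?_
  rintro _ ⟨τ, h0, rfl⟩
  show P.eval (jInv τ) = 0
  rw [← e τ]
  exact Finset.prod_eq_zero (Finset.mem_univ (QuotientGroup.mk 1)) (by rw [vcj_one hf, h0])

theorem disc_bound {E : Set ℂ} (hE : E.Finite) : ∃ B : ℝ, ∀ (τ : ℍ) (D : ℤ), HasDisc τ D →
    B ≤ -(D : ℝ) → jInv τ ∉ E := by
  have key : ∀ z : ℂ, ∃ b : ℝ, ∀ (τ : ℍ) (D : ℤ), HasDisc τ D → jInv τ = z → -(D : ℝ) ≤ b := by
    intro z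
    by_cases h : ∃ (τ : ℍ) (D : ℤ), HasDisc τ D ∧ jInv τ = z
    · obtain ⟨τ, D, h1, h2⟩ := h
      refine ⟨-(D : ℝ), fun τ' D' h3 h4 => ?_⟩
      obtain ⟨γ, rfl⟩ := jInv_inj (h2.trans h4.symm)
      rw [(discL_one h3).galA_unique (discL_one (h1.smul γ))]
    · exact ⟨0, fun τ D h1 h2 => (h ⟨τ, D, h1, h2⟩).elim⟩
  choose b hb using key
  obtain ⟨B, hB⟩ := (hE.image b).bddAbove
  refine ⟨B + 1, fun τ D h1 h2 h3 => ?_⟩
  have h4 := hb _ τ D h1 rfl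
  have h5 := hB (Set.mem_image_of_mem b h3)
  linarith

theorem sep0 (hN : 0 < N) (L : IntermediateField ℚ ℂ) : ∃ E : Set ℂ, E.Finite ∧
    ∀ (γ : SL(2, ℤ)) (τ : ℍ), jInv τ ∉ E → (∀ f ∈ MF N L, f (γ • τ) = f τ) → γ ∈ G0 N L := by
  have := vcj_fin hN
  have key : ∀ g : SL(2, ℤ), ∃ E : Set ℂ, E.Finite ∧ ∀ τ : ℍ, jInv τ ∉ E →
      (∀ f ∈ MF N L, f (g • τ) = f τ) → g ∈ G0 N L := by
    intro g
    by_cases hg : g ∈ G0 N L
    · exact ⟨∅, Set.finite_empty, fun _ _ _ => hg⟩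
    · have : ∃ f ∈ MF N L, ∃ τ : ℍ, f (g • τ) - f τ ≠ 0 := by
        by_contra hne
        push Not at hne
        exact hg fun f hf τ => sub_eq_zero.1 (hne f hf τ)
      obtain ⟨f, hf, h⟩ := this
      exact ⟨_, finite_zero hN (MF.sub hN (MF.smul hf g) hf) h, fun τ h1 h2 =>
        (h1 ⟨τ, sub_eq_zero.2 (h2 f hf), rfl⟩).elim⟩
  choose E hE h using key
  refine ⟨⋃ c : vcjQ N, E c.out⁻¹, Set.finite_iUnion fun c => hE _, fun γ τ h1 h2 => ?_⟩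
  have h3 := h (QuotientGroup.mk γ⁻¹ : vcjQ N).out⁻¹ τ
    (fun h4 => h1 (Set.mem_iUnion.2 ⟨_, h4⟩)) fun f hf => by rw [vcj_mk hf, inv_inv, h2 f hf]
  intro f hf t
  rw [← h3 f hf t, vcj_mk hf, inv_inv]

/-- The functions separate points of large discriminant up to `G0`. -/
theorem sep (hN : 0 < N) (L : IntermediateField ℚ ℂ) : ∃ B : ℝ, ∀ (τ : ℍ) (D : ℤ), HasDisc τ D →
    B ≤ -(D : ℝ) → ∀ τ' : ℍ, (∀ f ∈ MF N L, f τ' = f τ) → ∃ γ ∈ G0 N L, τ' = γ • τ := by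
  obtain ⟨E, hE, h⟩ := sep0 hN L
  obtain ⟨B, hB⟩ := disc_bound hE
  refine ⟨B, fun τ D h1 h2 τ' h3 => ?_⟩
  obtain ⟨γ, rfl⟩ := jInv_inj (h3 jInv (MF.j hN)).symm
  exact ⟨γ, h γ τ (hB τ D h1 h2) h3, rfl⟩

/-- Test functions of level `N`. -/
def Tst (N : ℕ) (L : IntermediateField ℚ ℂ) (φ : ℍ →ᵇ ℝ) : Prop :=
  ∀ γ ∈ G0 N L, ∀ τ : ℍ, φ (γ • τ) = φ τ

/-- Pull back of a test function by an integer matrix. -/
def cact (φ : ℍ →ᵇ ℝ) (ξ : MZ) : ℍ →ᵇ ℝ := φ.compContinuous ⟨act ξ, continuous_act ξ⟩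

theorem cact_apply (φ : ℍ →ᵇ ℝ) (ξ : MZ) (τ : ℍ) : cact φ ξ τ = φ (act ξ τ) := rfl

theorem vcj_countable {E : Set ℂ} (hE : E.Finite) : (jInv ⁻¹' E).Countable := by
  have : Countable (Matrix (Fin 2) (Fin 2) ℤ) := inferInstanceAs (Countable (Fin 2 → Fin 2 → ℤ))
  have : Countable SL(2, ℤ) := Subtype.countable
  choose t ht using jInv_surj
  refine (hE.countable.biUnion fun z _ => Set.countable_range fun γ : SL(2, ℤ) => γ • t z).mono ?_
  intro τ hτ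
  obtain ⟨γ, h⟩ := jInv_inj (ht (jInv τ))
  exact Set.mem_biUnion hτ ⟨γ, h.symm⟩

theorem vcj_dense {S : Set ℍ} (hS : S.Countable) : Dense Sᶜ := by
  have h := (Set.Countable.dense_compl ℂ (hS.image ((↑) : ℍ → ℂ))).preimage
    isOpenEmbedding_coe.isOpenMap
  rwa [Set.preimage_compl, Set.preimage_image_eq _ isOpenEmbedding_coe.injective] at h

theorem Tst.cact (hN : 0 < N) {φ : ℍ →ᵇ ℝ} (hφ : Tst N L φ) {ξ : MZ} (hξ : 0 < ξ.det) {N' : ℕ}
    (hN' : 0 < N') (h : N * ξ.det.natAbs ∣ N') {L' : IntermediateField ℚ ℂ} (hL : L ≤ L')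
    (hz : zt N' ∈ L') : Tst N' L' (cact φ ξ) := by
  obtain ⟨E, hE, hs⟩ := sep0 hN L
  have hinj : Function.Injective (act ξ) := by
    obtain ⟨g, c, hc, e⟩ := exists_real hξ
    intro a b hab
    rw [(act_real hc e a).2, (act_real hc e b).2] at hab
    exact MulAction.injective g hab
  have hd := vcj_dense ((vcj_countable hE).preimage_of_injOn hinj.injOn)
  intro γ hγ
  have hc : Continuous fun τ : ℍ => γ • τ := by
    have := continuous_act (γ : MZ)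
    rwa [show act (γ : MZ) = fun τ : ℍ => γ • τ from funext (act_SL γ)] at this
  refine congrFun (Continuous.ext_on hd ((EQ.cact φ ξ).continuous.comp hc)
    (EQ.cact φ ξ).continuous fun τ hτ => ?_)
  have h1 : ∀ f ∈ MF N L, f (act ξ (γ • τ)) = f (act ξ τ) := fun f hf =>
    hγ _ (MF.act hN hf hξ hN' h hL hz) τ
  obtain ⟨γ', e⟩ := jInv_inj (h1 jInv (MF.j hN)).symm
  show φ (act ξ (γ • τ)) = φ (act ξ τ)
  rw [e] at h1 ⊢
  exact hφ γ' (hs γ' _ hτ h1) _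

theorem Tst.prod {ι : Type} (s : Finset ι) {φ : ι → (ℍ →ᵇ ℝ)} (h : ∀ i ∈ s, Tst N L (φ i)) :
    Tst N L (∏ i ∈ s, φ i) := by
  intro γ hγ τ
  rw [BoundedContinuousFunction.prod_apply, BoundedContinuousFunction.prod_apply]
  exact Finset.prod_congr rfl fun i hi => h i hi γ hγ τ

end Pool.Agent.EQ
end
end

-- part Pool.Agent.P.MP_ad7a55_nt.XGj
section

/-! The rigidity theorem. -/

set_option autoImplicit false

noncomputable section

open Finset Matrix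
open scoped MatrixGroups Classical

namespace Pool.Agent.EQ

theorem xgj_mono {α ι γ δ : Type} [Fintype ι] {d : RD α ι γ δ} {y C₁ : ℕ}
    {H A₁ S Λ θ C δ₀ H' A' C' : ℝ} (h : d.Ok y H A₁ S Λ θ C δ₀ C₁) (hH : H ≤ H') (hA : A₁ ≤ A')
    (hC : C ≤ C') : d.Ok y H' A' S Λ θ C' δ₀ C₁ where
  ne := h.ne
  prime := h.prime
  line := h.line
  maps := h.maps
  inj := h.inj
  det := h.det
  com := h.com
  adm := fun β hβ x hx g c => by
    obtain ⟨h1, h2, h3⟩ := h.adm β hβ x hx g c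
    exact ⟨h1, h2, fun i j => (h3 i j).trans
      (mul_le_mul_of_nonneg_right hH (Real.sqrt_nonneg _))⟩
  inC := h.inC
  cardC := h.cardC
  cardl := h.cardl.trans hA
  aux := h.aux
  tight := h.tight
  stepA := fun q hq => by
    obtain ⟨R, h1, h2⟩ := h.stepA q hq
    refine ⟨R, fun a => (h1 a).trans ?_, h2⟩
    exact div_le_div_of_nonneg_right (mul_le_mul_of_nonneg_right hC (by positivity))
      (by positivity)
  lin := h.lin
  xc := h.xc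

theorem xgj_enum (P : Finset ℕ) :
    ∃ f : ℕ → ℕ, (∀ i < #P, f i ∈ P) ∧ ∀ i < #P, ∀ j < #P, f i = f j → i = j := by
  refine ⟨fun i => if h : i < #P then (P.equivFin.symm ⟨i, h⟩ : ℕ) else 0, fun i hi => ?_,
    fun i hi j hj e => ?_⟩
  · simp only [dif_pos hi]
    exact (P.equivFin.symm ⟨i, hi⟩).2
  · simp only [dif_pos hi, dif_pos hj] at e
    have := P.equivFin.symm.injective (Subtype.ext e)
    exact congrArg Fin.val this

/-- The number of primes used below the level `j`. -/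
def xgjN (t u : ℕ) : ℕ → ℕ
  | 0 => 0
  | j + 1 => xgjN t u j + t * u ^ (4 * j) * u * u

theorem xgjN_mono (t u : ℕ) : Monotone (xgjN t u) :=
  monotone_nat_of_le_succ fun j => by
    rw [xgjN]
    exact Nat.le_add_right _ _

theorem xgjN_le (t : ℕ) {u : ℕ} (hu : 4 ≤ u) (j : ℕ) : xgjN t u j ≤ t * u ^ (4 * j) := by
  induction j with
  | zero => exact Nat.zero_le _
  | succ j ih =>
    rw [xgjN]
    have h1 : 1 + u * u ≤ u ^ 4 := by
      have h2 : 16 ≤ u * u := by nlinarith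
      have h3 : u ^ 4 = (u * u) * (u * u) := by ring
      rw [h3]
      nlinarith
    calc xgjN t u j + t * u ^ (4 * j) * u * u ≤ t * u ^ (4 * j) + t * u ^ (4 * j) * u * u :=
          Nat.add_le_add_right ih _
      _ = t * u ^ (4 * j) * (1 + u * u) := by ring
      _ ≤ t * u ^ (4 * j) * u ^ 4 := Nat.mul_le_mul_left _ h1
      _ = t * u ^ (4 * (j + 1)) := by ring

theorem xgjN_real {T l : ℝ} {t u : ℕ} (hT : T ≤ t) (h : 1 + (u : ℝ) ^ 2 * l ≤ (u : ℝ) ^ 4)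
    (j : ℕ) : T + xgjN t u j * l ≤ ((t * u ^ (4 * j) : ℕ) : ℝ) := by
  induction j with
  | zero => simpa [xgjN] using hT
  | succ j ih =>
    rw [xgjN]
    push_cast at ih ⊢
    have h0 : (0 : ℝ) ≤ (t : ℝ) * (u : ℝ) ^ (4 * j) := by positivity
    have h1 := mul_le_mul_of_nonneg_left h h0
    have h2 : (t : ℝ) * (u : ℝ) ^ (4 * (j + 1)) = (t : ℝ) * (u : ℝ) ^ (4 * j) * (u : ℝ) ^ 4 := by
      ring
    rw [h2]
    nlinarith

theorem xgj_mn_sub {α : Type} (O : Finset α) (G G' : α → ℝ) :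
    mn O (fun x => G x - G' x) = mn O G - mn O G' := by
  unfold mn
  rw [Finset.sum_sub_distrib, sub_div]

theorem xgj_ent_le {α β Y : Type} (i : DecidableEq Y) {O : Finset α} (F : α → β) {ξ : α → Y}
    {s : ℝ} (hs : 1 ≤ s) (h : (#(@Finset.image α Y i ξ O) : ℝ) ≤ s) : ent O F ξ ≤ Real.log s := by
  refine ent_le hs ?_
  have e : i = fun a b => Classical.propDecidable (a = b) := Subsingleton.elim _ _
  subst e
  exact h

theorem rig (ι : Type) [Fintype ι] [Nonempty ι] {θ : ℝ} (hθ : 0 < θ) (C₁ a : ℕ) :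
    ∃ δ₀ : ℝ, 0 < δ₀ ∧ ∀ C H A₁ : ℝ, ∃ T₀ : ℝ, ∀ T : ℝ, T₀ ≤ T → ∀ (α γ δ : Type)
      (d : RD α ι γ δ) (y : ℕ), d.Ok y H A₁ T (Real.exp T) θ C δ₀ C₁ → (y : ℝ) ≤ T ^ a →
      T ^ 2 ≤ #d.P → False := by
  by_cases hθ1 : θ ≤ 1
  swap
  · refine ⟨1, one_pos, fun C H A₁ => ⟨1, fun T hT α γ δ d y h _ hP => ?_⟩⟩
    have h1 : (0 : ℝ) < #d.P := lt_of_lt_of_le (by positivity) hP
    obtain ⟨q, hq⟩ := Finset.card_pos.1 (Nat.cast_pos.1 h1)
    obtain ⟨R, _, h2⟩ := h.stepA q hq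
    exact hθ1 (h2.trans (pb_le_one _ _))
  have hm : 0 < Fintype.card ι := Fintype.card_pos
  have hm' : (0 : ℝ) < Fintype.card ι := by exact_mod_cast hm
  have he : (0 : ℝ) < 1 / (10 * ((a + 1 : ℕ) : ℝ) * (16 * (C₁ : ℝ) + 2)) := by positivity
  obtain ⟨c, q₀, hc, hc1, hG⟩ := gl_apply ι he
  refine ⟨c * θ / (32 * Fintype.card ι), by positivity, fun C H A₁ => ?_⟩
  have hH1 : (1 : ℝ) ≤ max H 1 := le_max_right _ _
  have hA1 : (1 : ℝ) ≤ max A₁ 1 := le_max_right _ _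
  have hC1 : (1 : ℝ) ≤ max C 1 := le_max_right _ _
  have hA0 : (1 : ℝ) ≤ ((4 * (max H 1) ^ 2 + 1) ^ 4) ^ Fintype.card ι * max A₁ 1 := by
    have h1 : (1 : ℝ) ≤ 4 * (max H 1) ^ 2 + 1 := by
      have := sq_nonneg (max H 1)
      linarith
    exact one_le_mul_of_one_le_of_one_le (one_le_pow₀ (one_le_pow₀ h1)) hA1
  set J : ℕ := ⌈16 * (Fintype.card ι : ℝ) / (c * θ)⌉₊ with hJdef
  have hJ : 0 < J := Nat.ceil_pos.2 (by positivity)
  have hJ' : 16 * (Fintype.card ι : ℝ) ≤ c * θ * J := by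
    have h1 : 16 * (Fintype.card ι : ℝ) / (c * θ) ≤ J := Nat.le_ceil _
    rw [div_le_iff₀ (by positivity)] at h1
    linarith
  obtain ⟨ε, hε, hnum⟩ := num_ok (m := Fintype.card ι) (C₁ := C₁) (a := a + 1) (J := J) (q₀ := q₀)
    hm (Nat.succ_pos a) hJ (C := max C 1) (H := max H 1) hθ hθ1 hc hc1 (by linarith) hA0 hJ'
  obtain ⟨Cc, hCc, hCT⟩ := ct_count hH1 hε
  obtain ⟨T₀, hT₀⟩ := hnum Cc hCc.le
  refine ⟨max T₀ 1, fun T hT α γ δ d y h₀ hy hP => ?_⟩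
  have hT1 : 1 ≤ T := (le_max_right _ _).trans hT
  have h := xgj_mono h₀ (le_max_left H 1) (le_max_left A₁ 1) (le_max_left C 1)
  have hy' : (y : ℝ) ≤ T ^ (a + 1) := hy.trans (pow_le_pow_right₀ hT1 (Nat.le_succ a))
  obtain ⟨u, b₀, hb₀, hp, -, hu2, hN⟩ :=
    hT₀ T ((le_max_left _ _).trans hT) y (#d.P) hy' hP h.card_le
  have hu : 4 ≤ u := (hN 0 hJ).u₁
  have ht : 0 < ⌈T⌉₊ := Nat.ceil_pos.2 (by linarith)
  have hTt : T ≤ (⌈T⌉₊ : ℕ) := Nat.le_ceil T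
  generalize ⌈T⌉₊ = t at hp hN ht hTt
  obtain ⟨f, hf, hfi⟩ := xgj_enum d.P
  set n : ℕ := t * u ^ (4 * J) * b₀ * u ^ (4 * J) with hn
  have hu0 : 0 < u := by omega
  have hn0 : 0 < n := by positivity
  have hNJ : ∀ j ≤ J, n + xgjN t u j ≤ #d.P := fun j hj =>
    le_trans (Nat.add_le_add_left ((xgjN_mono t u hj).trans (xgjN_le t hu J)) n) hp
  have hnP : n ≤ #d.P := le_trans (Nat.le_add_right _ _) hp
  set B : Finset ℕ := (range n).image f with hB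
  set M : ℕ → Finset ℕ := fun j => (Ico n (n + xgjN t u j)).image f with hM
  have hBP : B ⊆ d.P := by
    intro x hx
    obtain ⟨i, hi, rfl⟩ := Finset.mem_image.1 hx
    exact hf i (lt_of_lt_of_le (Finset.mem_range.1 hi) hnP)
  have hBc : #B = n := by
    rw [hB, Finset.card_image_of_injOn, Finset.card_range]
    intro i hi j hj e
    exact hfi i (lt_of_lt_of_le (Finset.mem_range.1 hi) hnP) j
      (lt_of_lt_of_le (Finset.mem_range.1 hj) hnP) e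
  have hB0 : B.Nonempty := Finset.card_pos.1 (hBc ▸ hn0)
  have hMP : ∀ j ≤ J, M j ⊆ d.P := by
    intro j hj x hx
    obtain ⟨i, hi, rfl⟩ := Finset.mem_image.1 hx
    exact hf i (lt_of_lt_of_le (Finset.mem_Ico.1 hi).2 (hNJ j hj))
  have hl1 : (1 : ℝ) ≤ 2 * y + 1 := by
    have : (0 : ℝ) ≤ y := Nat.cast_nonneg y
    linarith
  have hl : 0 ≤ (Fintype.card ι : ℝ) * Real.log (2 * y + 1) :=
    mul_nonneg hm'.le (Real.log_nonneg hl1)
  obtain ⟨j, hj, hdrop⟩ := exists_drop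
    (fun j => mn B fun q => ent d.O (d.FF (M j)) (d.dir q))
    (B := (Fintype.card ι : ℝ) * Real.log (2 * y + 1))
    (fun j => by
      have h1 := mn_mono (O := B) (G := fun _ => (0 : ℝ))
        (G' := fun q => ent d.O (d.FF (M j)) (d.dir q)) fun q _ => ent_nonneg _ _ _
      rwa [mn_const hB0] at h1)
    (by
      have h1 := mn_mono (O := B) (G := fun q => ent d.O (d.FF (M 0)) (d.dir q))
        (G' := fun _ => (Fintype.card ι : ℝ) * Real.log (2 * y + 1)) fun q hq => by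
          have h2 := xgj_ent_le _ (d.FF (M 0)) (one_le_pow₀ hl1) (h.card_dir (hBP hq))
          rwa [Real.log_pow] at h2
      rwa [mn_const hB0] at h1) hJ
  have hlt : ∀ z : Fin (t * u ^ (4 * j) * u) × Fin u,
      n + xgjN t u j + (finProdFinEquiv z : ℕ) < n + xgjN t u (j + 1) := by
    intro z
    have := (finProdFinEquiv z).2
    rw [xgjN]
    omega
  have hlt' : ∀ z : Fin (t * u ^ (4 * j) * u) × Fin u,
      n + xgjN t u j + (finProdFinEquiv z : ℕ) < #d.P := fun z =>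
    lt_of_lt_of_le (hlt z) (hNJ (j + 1) hj)
  refine rig_core h hA1 (by linarith) hθ (by linarith) (Real.exp_pos T) hc he.le hε.le hCc.le hG hCT
    (L := t * u ^ (4 * j) * u) (u := u) (r := 16 * C₁ + 2) (b := t * u ^ (4 * j) * b₀)
    (pr := fun g i => f (n + xgjN t u j + (finProdFinEquiv (g, i) : ℕ)))
    (M := M j) (M' := M (j + 1)) (B := B) (s := ((t * u ^ (4 * j) : ℕ) : ℝ))
    (Δ := (Fintype.card ι : ℝ) * Real.log (2 * y + 1) / J)
    ?_ (hMP (j + 1) hj) ?_ ?_ hBP ?_ (by positivity) ?_ hB0 ?_ ?_ ?_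
  · refine Finset.image_subset_image (Finset.Ico_subset_Ico_right ?_)
    exact Nat.add_le_add_left (xgjN_mono t u (Nat.le_succ j)) n
  · intro z z' e
    have h1 := hfi _ (hlt' z) _ (hlt' z') e
    exact finProdFinEquiv.injective (Fin.ext (by omega))
  · intro g i
    refine ⟨Finset.mem_image.2 ⟨_, Finset.mem_Ico.2 ⟨by omega, hlt (g, i)⟩, rfl⟩, fun hx => ?_⟩
    obtain ⟨k, hk, e⟩ := Finset.mem_image.1 hx
    have h1 := Finset.mem_Ico.1 hk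
    have h2 := hfi k (lt_of_lt_of_le h1.2 (hNJ j hj.le)) _ (hlt' (g, i)) e
    omega
  · rw [Finset.disjoint_left]
    intro x hx hx'
    obtain ⟨i, hi, rfl⟩ := Finset.mem_image.1 hx
    obtain ⟨k, hk, e⟩ := Finset.mem_image.1 hx'
    have h1 := Finset.mem_Ico.1 hk
    have h2 := Finset.mem_range.1 hi
    have h3 := hfi k (lt_of_lt_of_le h1.2 (hNJ (j + 1) hj)) i (lt_of_lt_of_le h2 hnP) e
    omega
  · rw [hBc, hn]
    refine Dvd.dvd.mul_right (Nat.mul_dvd_mul_right (Nat.mul_dvd_mul_left t ?_) b₀) _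
    exact pow_dvd_pow u (Nat.mul_le_mul_left 4 hj.le)
  · refine (h.card_FF (hMP j hj.le)).trans (Real.exp_le_exp.2 ?_)
    refine le_trans ?_ (xgjN_real hTt hu2 j)
    have h1 : #(M j) ≤ xgjN t u j := by
      refine Finset.card_image_le.trans ?_
      rw [Nat.card_Ico]
      omega
    have h2 : (#(M j) : ℝ) ≤ xgjN t u j := by exact_mod_cast h1
    have h3 := mul_le_mul_of_nonneg_right h2 hl
    linarith
  · rw [xgj_mn_sub]
    exact hdrop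
  · rw [hBc]
    exact hN j hj

end Pool.Agent.EQ
end
end
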