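import Pool.Agent.K.MP_ad7a55_nt.C36

/-! Many ideals of bounded norm in every class. -/

set_option autoImplicit false

noncomputable section

open Finset
open scoped Classical

namespace Pool.Agent.EQ

theorem zca_floor {t : ℝ} (ht : 2 ≤ t) : t / 2 ≤ (⌊t⌋₊ : ℝ) := by
  have := Nat.lt_floor_add_one t
  linarith

theorem zca_norm (τ : UpperHalfPlane) {R : ℝ} {J V : ℕ} (hJ : (J : ℝ) ≤ R)
    (hV : (V : ℝ) * τ.im ≤ R) {j v : ℤ} (hj1 : -(J : ℤ) ≤ j) (hj2 : j < J) (hv1 : 1 ≤ v)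
    (hv2 : v ≤ V) :
    Complex.normSq (((j - ⌊(v : ℝ) * τ.re⌋ : ℤ) : ℂ) + (v : ℂ) * τ) ≤ 2 * R ^ 2 := by
  have h1 := Int.floor_le ((v : ℝ) * τ.re)
  have h2 := Int.lt_floor_add_one ((v : ℝ) * τ.re)
  have a1 : -(J : ℝ) ≤ j := by exact_mod_cast hj1
  have a2 : (j : ℝ) + 1 ≤ J := by exact_mod_cast hj2
  have a3 : (1 : ℝ) ≤ v := by exact_mod_cast hv1
  have a4 : (v : ℝ) ≤ V := by exact_mod_cast hv2
  have hp := τ.im_pos
  have e1 : (((j - ⌊(v : ℝ) * τ.re⌋ : ℤ) : ℂ) + (v : ℂ) * τ).re =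
      j - ⌊(v : ℝ) * τ.re⌋ + v * τ.re := by simp
  have e2 : (((j - ⌊(v : ℝ) * τ.re⌋ : ℤ) : ℂ) + (v : ℂ) * τ).im = v * τ.im := by simp
  rw [Complex.normSq_apply, e1, e2]
  have b1 : (v : ℝ) * τ.im ≤ R := (mul_le_mul_of_nonneg_right a4 hp.le).trans hV
  have b2 : 0 ≤ (v : ℝ) * τ.im := by positivity
  have b3 : ((j : ℝ) - ⌊(v : ℝ) * τ.re⌋ + v * τ.re) ^ 2 ≤ R ^ 2 :=
    sq_le_sq' (by linarith) (by linarith)
  nlinarith

theorem pts_lower {Λ : Lt} (h : IsLat Λ) : ∃ Y₀ : ℝ, ∀ Y : ℝ, Y₀ ≤ Y → ∃ T : Finset ℂ,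
    (∀ z ∈ T, z ∈ Λ ∧ z ≠ 0 ∧ Complex.normSq z ≤ Y) ∧ Y / vol Λ ≤ 4 * #T := by
  obtain ⟨c, τ, hc, rfl⟩ := h
  have hp := τ.im_pos
  have hc2 := Complex.normSq_pos.2 hc
  refine ⟨2 * Complex.normSq c * (2 + 2 * τ.im) ^ 2, fun Y hY => ?_⟩
  obtain ⟨R, hR0, hR⟩ : ∃ R : ℝ, 2 + 2 * τ.im ≤ R ∧ Y = Complex.normSq c * (2 * R ^ 2) := by
    refine ⟨Real.sqrt (Y / (2 * Complex.normSq c)), ?_, ?_⟩
    · refine Real.le_sqrt_of_sq_le ?_
      rw [le_div_iff₀ (by positivity)]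
      linarith
    · have : 0 ≤ Y := le_trans (by positivity) hY
      rw [Real.sq_sqrt (by positivity)]
      field_simp
  have hR2 : 2 ≤ R := by linarith
  have hR3 : 2 ≤ R / τ.im := by
    rw [le_div_iff₀ hp]
    linarith
  have hJ : (⌊R⌋₊ : ℝ) ≤ R := Nat.floor_le (by linarith)
  have hV : (⌊R / τ.im⌋₊ : ℝ) * τ.im ≤ R := by
    rw [← le_div_iff₀ hp]
    exact Nat.floor_le (by linarith)
  have hJ' := zca_floor hR2
  have hV' := zca_floor hR3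
  generalize ⌊R⌋₊ = J at hJ hJ'
  generalize ⌊R / τ.im⌋₊ = V at hV hV'
  refine ⟨(Ico (-(J : ℤ)) J ×ˢ Icc (1 : ℤ) V).image fun p =>
    c * (((p.1 - ⌊(p.2 : ℝ) * τ.re⌋ : ℤ) : ℂ) + (p.2 : ℂ) * τ), ?_, ?_⟩
  · intro z hz
    obtain ⟨p, hp', rfl⟩ := mem_image.1 hz
    obtain ⟨h1, h2⟩ := mem_product.1 hp'
    rw [mem_Ico] at h1
    rw [mem_Icc] at h2
    refine ⟨mem_sp.2 ⟨p.1 - ⌊(p.2 : ℝ) * τ.re⌋, p.2, by ring⟩, mul_ne_zero hc fun h0 => ?_, ?_⟩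
    · have := (int_indep_lat τ (p := p.2) (q := p.1 - ⌊(p.2 : ℝ) * τ.re⌋)
        (by rw [add_comm]; exact h0)).1
      omega
    · rw [map_mul, hR]
      exact mul_le_mul_of_nonneg_left (zca_norm τ hJ hV h1.1 h1.2 h2.1 h2.2) hc2.le
  · rw [card_image_of_injOn, card_product, Int.card_Ico, Int.card_Icc, vol_sp hc]
    · have e1 : ((J : ℤ) - -(J : ℤ)).toNat = 2 * J := by omega
      have e2 : ((V : ℤ) + 1 - 1).toNat = V := by omega
      rw [e1, e2, hR]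
      have e3 : Complex.normSq c * (2 * R ^ 2) / (Complex.normSq c * τ.im) =
          8 * (R / 2 * (R / τ.im / 2)) := by
        field_simp
        ring
      have e4 : R / 2 * (R / τ.im / 2) ≤ J * V :=
        mul_le_mul hJ' hV' (by linarith) (Nat.cast_nonneg _)
      rw [e3]
      push_cast
      linarith
    · intro p _ q _ hpq
      have h1 := mul_left_cancel₀ hc hpq
      have h2 := int_indep_lat τ (p := p.2 - q.2)
        (q := (p.1 - ⌊(p.2 : ℝ) * τ.re⌋) - (q.1 - ⌊(q.2 : ℝ) * τ.re⌋)) (by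
          rw [Int.cast_sub, Int.cast_sub (p.1 - _)]
          linear_combination h1)
      have h3 : p.2 = q.2 := by omega
      have h4 := h2.2
      rw [h3] at h4
      exact Prod.ext (by omega) h3

theorem class_pts {D : ℤ} {Λ : Lt} (h : DiscL Λ D) : ∃ N₀ : ℕ, ∀ N : ℕ, N₀ ≤ N →
    ∃ T : Finset Lt, (∀ 𝔞 ∈ T, jL 𝔞 = jL Λ ∧ ∃ n ∈ Icc 1 N, 𝔞 ∈ Idl D n) ∧
      N / Real.sqrt (-(D : ℝ)) ≤ 30 * #T := by
  have hν := h.nm_pos
  have hν' : ((nm D Λ : ℝ) : ℂ) ≠ 0 := by exact_mod_cast hν.ne'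
  obtain ⟨Y₀, hY⟩ := pts_lower h.isLat
  refine ⟨⌈Y₀ / nm D Λ⌉₊, fun N hN => ?_⟩
  obtain ⟨S, hS, hcard⟩ := hY (N * nm D Λ) (by
    rw [← div_le_iff₀ hν]
    exact Nat.ceil_le.1 hN)
  refine ⟨S.image fun w => pr (starRingEnd ℂ w / nm D Λ) * Λ, ?_, ?_⟩
  · intro 𝔞 ha
    obtain ⟨w, hw, rfl⟩ := mem_image.1 ha
    obtain ⟨h1, h2, h3⟩ := hS w hw
    refine ⟨jL_pr_mul h.isLat (div_ne_zero (by simpa using h2) hν'), ?_⟩
    obtain ⟨n, hn⟩ := h.normSq_nat h1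
    refine ⟨n, mem_Icc.2 ⟨?_, ?_⟩, h.mem_Idl h1 h2 hn⟩
    · rcases Nat.eq_zero_or_pos n with rfl | h1
      · exact absurd (Complex.normSq_eq_zero.1 (by simpa using hn)) h2
      · exact h1
    · rw [hn] at h3
      exact_mod_cast le_of_mul_le_mul_right h3 hν
  · have h1 : #S ≤ 15 * #(S.image fun w => pr (starRingEnd ℂ w / nm D Λ) * Λ) := by
      refine card_le_mul_card_image S 15 fun M _ => ?_
      obtain ⟨hf, hle⟩ := card_gen h M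
      refine le_trans ?_ hle
      rw [Set.ncard_eq_toFinset_card _ hf]
      refine card_le_card_of_injOn (fun w => starRingEnd ℂ w / nm D Λ) ?_ ?_
      · intro w hw
        obtain ⟨h1, h2⟩ := mem_filter.1 (mem_coe.1 hw)
        exact mem_coe.2 ((Set.Finite.mem_toFinset _).2
          ⟨div_ne_zero (by simpa using (hS w h1).2.1) hν', h2⟩)
      · intro a _ b _ hab
        exact (starRingEnd ℂ).injective ((div_left_inj' hν').1 hab)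
    have hv := vol_pos h.isLat
    have h2 : N * nm D Λ / vol Λ = 2 * (N / Real.sqrt (-(D : ℝ))) := by
      rw [nm]
      field_simp
    have h3 : (#S : ℝ) ≤ 15 * #(S.image fun w => pr (starRingEnd ℂ w / nm D Λ) * Λ) := by
      exact_mod_cast h1
    rw [h2] at hcard
    linarith

theorem idl_lower (D : ℤ) : ∃ N₀ : ℕ, ∀ N : ℕ, N₀ ≤ N →
    (Cl D).ncard / Real.sqrt (-(D : ℝ)) * N ≤ 30 * ∑ n ∈ Icc 1 N, ((Idl D n).ncard : ℝ) := by
  have key : ∀ z : ℂ, ∃ N₀ : ℕ, z ∈ Cl D → ∀ N : ℕ, N₀ ≤ N →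
      ∃ T : Finset Lt, (∀ 𝔞 ∈ T, jL 𝔞 = z ∧ ∃ n ∈ Icc 1 N, 𝔞 ∈ Idl D n) ∧
        N / Real.sqrt (-(D : ℝ)) ≤ 30 * #T := by
    intro z
    by_cases hz : z ∈ Cl D
    · obtain ⟨Λ, hΛ, rfl⟩ := hz
      obtain ⟨N₀, hN⟩ := class_pts hΛ
      exact ⟨N₀, fun _ => hN⟩
    · exact ⟨0, fun h => absurd h hz⟩
  choose f hf using key
  refine ⟨(Cl_finite D).toFinset.sup f, fun N hN => ?_⟩
  have h1 : ((Icc 1 N).biUnion fun n => (Idl_finite D n).toFinset).card =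
      ∑ n ∈ Icc 1 N, (Idl D n).ncard := by
    rw [card_biUnion]
    · exact sum_congr rfl fun n _ => (Set.ncard_eq_toFinset_card _ _).symm
    · intro m _ n _ hmn
      rw [Function.onFun, disjoint_left]
      intro 𝔞 hm hn
      rw [Set.Finite.mem_toFinset] at hm hn
      exact hmn (by exact_mod_cast hm.2.2.symm.trans hn.2.2)
  have hm : ∀ 𝔞, 𝔞 ∈ ((Icc 1 N).biUnion fun n => (Idl_finite D n).toFinset) ↔
      ∃ n ∈ Icc 1 N, 𝔞 ∈ Idl D n := fun 𝔞 => by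
    simp only [mem_biUnion, Set.Finite.mem_toFinset]
  generalize ((Icc 1 N).biUnion fun n => (Idl_finite D n).toFinset) = U at h1 hm
  have h2 := card_eq_sum_card_fiberwise (f := jL) (s := U) (t := (Cl_finite D).toFinset)
    fun 𝔞 ha => by
      obtain ⟨n, -, hn⟩ := (hm 𝔞).1 ha
      exact (Set.Finite.mem_toFinset _).2 ⟨𝔞, hn.1, rfl⟩
  rw [← Nat.cast_sum, ← h1, h2, Nat.cast_sum, mul_sum]
  calc ((Cl D).ncard : ℝ) / Real.sqrt (-(D : ℝ)) * N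
      = ∑ _z ∈ (Cl_finite D).toFinset, (N : ℝ) / Real.sqrt (-(D : ℝ)) := by
        rw [sum_const, nsmul_eq_mul, ← Set.ncard_eq_toFinset_card _ (Cl_finite D)]
        ring
    _ ≤ _ := by
        refine sum_le_sum fun z hz => ?_
        obtain ⟨T, hT, hc⟩ := hf z ((Set.Finite.mem_toFinset _).1 hz) N
          ((le_sup (f := f) hz).trans hN)
        refine hc.trans (mul_le_mul_of_nonneg_left ?_ (by norm_num))
        exact_mod_cast card_le_card fun 𝔞 ha =>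
          mem_filter.2 ⟨(hm 𝔞).2 (hT 𝔞 ha).2, (hT 𝔞 ha).1⟩

theorem Cl_eq (D : ℤ) : {z : ℂ | ∃ t : UpperHalfPlane, HasDisc t D ∧ jInv t = z} = Cl D := by
  ext z
  constructor
  · rintro ⟨t, ht, rfl⟩
    exact ⟨sp 1 t, discL_one ht, jL_one t⟩
  · rintro ⟨Λ, ⟨c, τ, hc, rfl, hτ⟩, rfl⟩
    exact ⟨τ, hτ, (jL_sp hc τ).symm⟩

end Pool.Agent.EQ
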