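import Pool.Agent.K.MP_ad7a55_nt.C41
import Pool.Agent.K.MP_ad7a55_nt.C35
import Pool.Agent.K.MP_ad7a55_nt.C36

-- part Pool.Agent.P.MP_ad7a55_nt.Block
section

/-! Equidistribution of ball orbits. -/

set_option autoImplicit false

noncomputable section

open MeasureTheory Topology Filter UpperHalfPlane
open scoped MatrixGroups ENNReal BoundedContinuousFunction

namespace Pool.Agent.EQ

variable (p : ℕ) [Fact p.Prime]

/-- The ball orbits and their diagonal translates do not escape. -/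
def Tt (L : Filter ℕ) (x : ℕ → XX p) (d : ℕ → ℚ_[p]) (r : ℕ → ℤ) : Prop :=
  ∀ ε : ℝ≥0∞, 0 < ε → ∃ Ω : Set (XX p), IsCompact Ω ∧ ∀ j : ℕ, ∀ᶠ i in L,
    bm p (r i) {s | aP p j • uP p (d i * s) • x i ∉ Ω} ≤ ε

instance block_prob {κ : Type} [Fintype κ] (d : κ → ℚ_[p]) (r : ℤ) (x : κ → XX p) :
    IsProbabilityMeasure (orb (ufl p d) r x) := instProborb _ _ _

theorem block_aP_zero : aP p 0 = 1 := by
  refine Prod.ext rfl ?_
  ext i j
  fin_cases i <;> fin_cases j <;> simp [aP]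

theorem block_cont {κ : Type} (s : ℚ_[p]) :
    Continuous fun z : (κ → ℚ_[p]) × (κ → XX p) => ufl p z.1 s z.2 :=
  continuous_pi fun k =>
    ((continuous_uP p).comp (((continuous_apply k).comp continuous_fst).mul continuous_const)).smul
      ((continuous_apply k).comp continuous_snd)

theorem block_large {L : Filter ℕ} {r : ℕ → ℤ} (hr : Tendsto r L atTop) (s : ℚ_[p]) :
    ∀ᶠ i in L, ‖s‖ ≤ (p : ℝ) ^ r i := by
  have hp : (1 : ℝ) < p := by exact_mod_cast (Fact.out : p.Prime).one_lt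
  obtain ⟨c, hc⟩ := pow_unbounded_of_one_lt ‖s‖ hp
  filter_upwards [hr.eventually_ge_atTop (c : ℤ)] with i hi
  calc ‖s‖ ≤ (p : ℝ) ^ (c : ℤ) := by rw [zpow_natCast]; exact hc.le
    _ ≤ _ := zpow_le_zpow_right₀ hp.le hi

theorem block_inv {κ : Type} [Fintype κ] {L : Filter ℕ} [L.NeBot] (x : ℕ → κ → XX p)
    (d : ℕ → κ → ℚ_[p]) (e : κ → ℚ_[p]) (hd : Tendsto d L (𝓝 e)) (r : ℕ → ℤ)
    (hr : Tendsto r L atTop) (ν : Measure (κ → XX p)) [IsProbabilityMeasure ν]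
    (hν : WT L (fun i => orb (ufl p (d i)) (r i) (x i)) ν) : Inv (ufl p e) ν := by
  intro s
  have hc : Continuous (ufl p e s) := (ufl p e).continuous continuous_const continuous_id
  refine WT.unique (μ := fun i => orb (ufl p (d i)) (r i) (x i)) (L := L) ?_ hν
  intro g
  rw [integral_map hc.measurable.aemeasurable g.continuous.aestronglyMeasurable]
  have h1 := hν.param hd (g.compContinuous ⟨_, block_cont p s⟩)
  refine h1.congr' ?_
  filter_upwards [block_large p hr s] with i hi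
  have hci : Continuous (ufl p (d i) s) :=
    (ufl p (d i)).continuous continuous_const continuous_id
  conv_rhs => rw [← map_orb (ufl p (d i)) hi (x i)]
  rw [integral_map hci.measurable.aemeasurable g.continuous.aestronglyMeasurable]
  rfl

theorem block_marg {κ : Type} [Fintype κ] {L : Filter ℕ} [L.NeBot] (x : ℕ → κ → XX p)
    (d : ℕ → κ → ℚ_[p]) (e : κ → ℚ_[p]) (r : ℕ → ℤ) (ν : Measure (κ → XX p))
    [IsProbabilityMeasure ν] (hν : WT L (fun i => orb (ufl p (d i)) (r i) (x i)) ν)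
    (hI : Inv (ufl p e) ν) (k : κ) (he : e k ≠ 0)
    (hT : Tt p L (fun i => x i k) (fun i => d i k) r) : ν.map (fun w => w k) = mX p := by
  have hk : Measurable fun w : κ → XX p => w k := measurable_pi_apply k
  have : IsProbabilityMeasure (ν.map fun w => w k) :=
    Measure.isProbabilityMeasure_map hk.aemeasurable
  refine marg p _ ?_ ?_
  · intro s
    have hc : Continuous (ufl p e (s / e k)) := (ufl p e).continuous continuous_const continuous_id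
    have hc1 : Continuous (ufl1 p s) := (ufl1 p).continuous continuous_const continuous_id
    conv_rhs => rw [← hI (s / e k)]
    rw [Measure.map_map hc1.measurable hk, Measure.map_map hk hc.measurable]
    congr 1
    funext w
    simp only [Function.comp, ufl1_apply, ufl_apply]
    rw [mul_div_cancel₀ _ he]
  · intro ε hε
    obtain ⟨Ω, hΩ, h⟩ := hT ε hε
    refine ⟨Ω, hΩ, fun j => ?_⟩
    have hU : IsOpen {y : XX p | aP p j • y ∉ Ω} :=
      hΩ.isClosed.isOpen_compl.preimage (continuous_const_smul (aP p j))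
    rw [Measure.map_apply hk hU.measurableSet]
    have hU' : IsOpen ((fun w : κ → XX p => w k) ⁻¹' {y : XX p | aP p j • y ∉ Ω}) :=
      hU.preimage (continuous_apply k)
    refine hν.open_le hU' ?_
    filter_upwards [h j] with i hi
    rw [orb_apply _ _ _ hU'.measurableSet]
    exact hi

theorem block_tight {κ : Type} [Fintype κ] {L : Filter ℕ} (x : ℕ → κ → XX p)
    (d : ℕ → κ → ℚ_[p]) (r : ℕ → ℤ)
    (hT : ∀ k, Tt p L (fun i => x i k) (fun i => d i k) r) (ε : ℝ≥0∞) (hε : 0 < ε) :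
    ∃ K : Set (κ → XX p), IsCompact K ∧ ∀ᶠ i in L, orb (ufl p (d i)) (r i) (x i) Kᶜ ≤ ε := by
  have hn : ((Fintype.card κ : ℝ≥0∞) + 1) ≠ ∞ := by simp
  have hn0 : ((Fintype.card κ : ℝ≥0∞) + 1) ≠ 0 := by simp
  have hε' : 0 < ε / (Fintype.card κ + 1) := ENNReal.div_pos hε.ne' hn
  choose Ω hΩ h using fun k => hT k _ hε'
  have hK : IsCompact (Set.pi Set.univ Ω) := isCompact_univ_pi hΩ
  refine ⟨_, hK, ?_⟩
  filter_upwards [eventually_all.2 fun k => h k 0] with i hi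
  rw [orb_apply _ _ _ hK.isClosed.isOpen_compl.measurableSet]
  have hsub : {s | ufl p (d i) s (x i) ∈ (Set.pi Set.univ Ω)ᶜ} ⊆
      ⋃ k, {s | aP p 0 • uP p (d i k * s) • x i k ∉ Ω k} := by
    intro s hs
    simp only [Set.mem_ofPred_eq, Set.mem_compl_iff, Set.mem_pi, Set.mem_univ, true_imp_iff,
      not_forall] at hs
    obtain ⟨k, hk⟩ := hs
    refine Set.mem_iUnion.2 ⟨k, ?_⟩
    rw [Set.mem_ofPred_eq, block_aP_zero, one_smul]
    exact hk
  calc _ ≤ bm p (r i) (⋃ k, {s | aP p 0 • uP p (d i k * s) • x i k ∉ Ω k}) := measure_mono hsub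
    _ ≤ ∑ k, bm p (r i) {s | aP p 0 • uP p (d i k * s) • x i k ∉ Ω k} :=
      measure_iUnion_fintype_le _ _
    _ ≤ ∑ _k : κ, ε / (Fintype.card κ + 1) := Finset.sum_le_sum fun k _ => hi k
    _ = Fintype.card κ * (ε / (Fintype.card κ + 1)) := by simp
    _ ≤ (Fintype.card κ + 1) * (ε / (Fintype.card κ + 1)) := by gcongr; exact le_self_add
    _ = ε := ENNReal.mul_div_cancel hn0 hn

theorem block {κ : Type} [Fintype κ] [DecidableEq κ] (𝒰 : Ultrafilter ℕ)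
    (h𝒰 : (𝒰 : Filter ℕ) ≤ atTop) (x : ℕ → κ → XX p) (d : ℕ → κ → ℚ_[p]) (e : κ → ℚ_[p])
    (he : ∀ k, e k ≠ 0) (hd : ∀ k, Tendsto (fun i => d i k) 𝒰 (𝓝 (e k))) (r : ℕ → ℤ)
    (hr : Tendsto r 𝒰 atTop) (hT : ∀ k, Tt p 𝒰 (fun i => x i k) (fun i => d i k) r)
    (hE : ∀ k l, k ≠ l →
      NoExc p 𝒰 (fun i => x i k) (fun i => x i l) (fun i => d i k) (fun i => d i l) r) :
    WT 𝒰 (fun i => orb (ufl p (d i)) (r i) (x i)) (mP p κ) := by
  obtain ⟨ν, hν1, hν⟩ := exists_WT 𝒰 h𝒰 (fun i => orb (ufl p (d i)) (r i) (x i))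
    (block_tight p x d r hT)
  have hI := block_inv p x d e (tendsto_pi_nhds.2 hd) r hr ν hν
  have hm := fun k => block_marg p x d e r ν hν hI k (he k) (hT k)
  rw [← join p κ e he ν hI hm ?_]
  · exact hν
  intro k l hkl
  have hF : Continuous fun w : κ → XX p => (w k, w l) :=
    (continuous_apply k).prodMk (continuous_apply l)
  have : IsProbabilityMeasure (ν.map fun w => (w k, w l)) :=
    Measure.isProbabilityMeasure_map hF.measurable.aemeasurable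
  have h0 := lin p 𝒰 (fun i => x i k) (fun i => x i l) (fun i => d i k) (fun i => d i l) r (he k)
    (hd k) (hd l) hr (hE k l hkl) (ν.map fun w => (w k, w l)) ?_ ?_
  · exact le_antisymm ((Measure.le_map_apply hF.measurable.aemeasurable _).trans h0.le) zero_le
  · have h1 := hν.map hF
    have h2 : (fun i => (orb (ufl p (d i)) (r i) (x i)).map fun w => (w k, w l)) =
        fun i => orb (ufl2 p (d i k) (d i l)) (r i) (x i k, x i l) := by
      funext i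
      rw [orb, Measure.map_map hF.measurable (measurable_flow _ _)]
      rfl
    rwa [h2] at h1
  · rw [Measure.map_map measurable_fst hF.measurable]
    exact hm k

theorem block_avg {a r : ℤ} (har : a ≤ r) {H G : ℚ_[p] → ℝ} (hH : Continuous H)
    (hG : Continuous G) {A C : ℝ} (hA : ∀ s, |H s| ≤ A) (hC : ∀ s, |G s| ≤ C)
    (hinv : ∀ t s, ‖t‖ ≤ (p : ℝ) ^ a → G (t + s) = G s) :
    ∫ s, H s * G s ∂bm p r = ∫ s, (∫ t, H (t + s) ∂bm p a) * G s ∂bm p r := by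
  have hp : (1 : ℝ) ≤ p := by exact_mod_cast (Fact.out : p.Prime).one_lt.le
  have h1 : ∀ᵐ t ∂bm p a, ∫ s, H s * G s ∂bm p r = ∫ s, H (t + s) * G s ∂bm p r := by
    filter_upwards [bm_ae p a] with t ht
    conv_lhs => rw [← bm_add p (ht.trans (zpow_le_zpow_right₀ hp har))]
    rw [integral_map (f := fun s => H s * G s) (measurable_add_const t).aemeasurable
      (hH.mul hG).aestronglyMeasurable]
    congr 1
    funext s
    rw [add_comm s t, hinv t s ht]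
  have hc : Continuous (Function.uncurry fun t s : ℚ_[p] => H (t + s) * G s) :=
    (hH.comp continuous_add).mul (hG.comp continuous_snd)
  have hint : Integrable (Function.uncurry fun t s : ℚ_[p] => H (t + s) * G s)
      ((bm p a).prod (bm p r)) := by
    refine Integrable.of_bound hc.aestronglyMeasurable (A * C) (ae_of_all _ fun z => ?_)
    change ‖H (z.1 + z.2) * G z.2‖ ≤ _
    rw [Real.norm_eq_abs, abs_mul]
    exact mul_le_mul (hA _) (hC _) (abs_nonneg _) ((abs_nonneg _).trans (hA 0))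
  calc ∫ s, H s * G s ∂bm p r = ∫ _t, ∫ s, H s * G s ∂bm p r ∂bm p a := by simp
    _ = ∫ t, ∫ s, H (t + s) * G s ∂bm p r ∂bm p a := integral_congr_ae h1
    _ = ∫ s, ∫ t, H (t + s) * G s ∂bm p a ∂bm p r := integral_integral_swap hint
    _ = _ := by simp only [integral_mul_const]

theorem block_cont_avg {κ : Type} [Fintype κ] (F : (κ → XX p) →ᵇ ℝ) (a : ℤ) :
    Continuous fun z : (κ → ℚ_[p]) × (κ → XX p) => ∫ w, F w ∂orb (ufl p z.1) a z.2 := by
  simp only [integral_orb _ _ _ F.continuous]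
  refine continuous_of_dominated (bound := fun _ => ‖F‖) (fun z => ?_)
    (fun z => ae_of_all _ fun s => F.norm_coe_le_norm _) (integrable_const _)
    (ae_of_all _ fun s => F.continuous.comp (block_cont p s))
  exact (F.continuous.comp
    ((ufl p z.1).continuous continuous_id continuous_const)).aestronglyMeasurable

theorem block_abs_le {W : Type} [TopologicalSpace W] [MeasurableSpace W] (F : W →ᵇ ℝ)
    (μ : Measure W) [IsProbabilityMeasure μ] : |∫ w, F w ∂μ| ≤ ‖F‖ := by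
  have := norm_integral_le_of_norm_le_const (μ := μ) (f := fun w => F w) (C := ‖F‖)
    (ae_of_all _ fun w => F.norm_coe_le_norm w)
  simpa using this

/-- The deviation of the ball average from a constant. -/
def blockDev {κ : Type} [Fintype κ] (F : (κ → XX p) →ᵇ ℝ) (a : ℤ) (c : ℝ) :
    ((κ → ℚ_[p]) × (κ → XX p)) →ᵇ ℝ :=
  BoundedContinuousFunction.ofNormedAddCommGroup
    (fun z => |∫ w, F w ∂orb (ufl p z.1) a z.2 - c|)
    ((block_cont_avg p F a).sub continuous_const).abs (‖F‖ + |c|) fun z => by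
      rw [Real.norm_eq_abs, abs_abs]
      exact (abs_sub _ _).trans (add_le_add (block_abs_le F _) le_rfl)

theorem blockDev_apply {κ : Type} [Fintype κ] (F : (κ → XX p) →ᵇ ℝ) (a : ℤ) (c : ℝ)
    (t : κ → ℚ_[p]) (w : κ → XX p) :
    blockDev p F a c (t, w) = |∫ w, F w ∂orb (ufl p t) a w - c| := rfl

theorem block_bound {κ : Type} [Fintype κ] (F : (κ → XX p) →ᵇ ℝ) {a r : ℤ} (har : a ≤ r) (c : ℝ)
    (t : κ → ℚ_[p]) (x : κ → XX p) {G : ℚ_[p] → ℝ} (hG : Continuous G) {C : ℝ}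
    (hC : ∀ s, |G s| ≤ C) (hinv : ∀ t s, ‖t‖ ≤ (p : ℝ) ^ a → G (t + s) = G s) :
    |∫ s, F (ufl p t s x) * G s ∂bm p r - c * ∫ s, G s ∂bm p r| ≤
      C * ∫ w, blockDev p F a c (t, w) ∂orb (ufl p t) r x := by
  have hfl : Continuous fun s => ufl p t s x := (ufl p t).continuous continuous_id continuous_const
  have hH : Continuous fun s => F (ufl p t s x) := F.continuous.comp hfl
  have hD : Continuous fun w => blockDev p F a c (t, w) :=
    (blockDev p F a c).continuous.comp (continuous_const.prodMk continuous_id)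
  have hAc : Continuous fun w => ∫ w, F w ∂orb (ufl p t) a w := continuous_integral_orb _ a F
  have hGi : Integrable G (bm p r) :=
    Integrable.of_bound hG.aestronglyMeasurable C (ae_of_all _ hC)
  have hC0 : 0 ≤ C := (abs_nonneg _).trans (hC 0)
  rw [block_avg p har hH hG (fun s => F.norm_coe_le_norm _) hC hinv, integral_orb _ _ _ hD]
  have h1 : ∀ s, ∫ t', F (ufl p t (t' + s) x) ∂bm p a =
      ∫ w, F w ∂orb (ufl p t) a (ufl p t s x) := by
    intro s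
    rw [integral_orb _ _ _ F.continuous]
    simp only [Flow.map_add]
  simp only [h1]
  have hi1 : Integrable (fun s => (∫ w, F w ∂orb (ufl p t) a (ufl p t s x)) * G s) (bm p r) := by
    refine Integrable.of_bound ((hAc.comp hfl).mul hG).aestronglyMeasurable (‖F‖ * C)
      (ae_of_all _ fun s => ?_)
    rw [Real.norm_eq_abs, abs_mul]
    exact mul_le_mul (block_abs_le F _) (hC _) (abs_nonneg _) (norm_nonneg _)
  rw [← integral_const_mul, ← integral_sub hi1 (hGi.const_mul c), ← integral_const_mul,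
    ← Real.norm_eq_abs]
  refine norm_integral_le_of_norm_le ?_ (ae_of_all _ fun s => ?_)
  · refine Integrable.const_mul ?_ C
    exact Integrable.of_bound (hD.comp hfl).aestronglyMeasurable ‖blockDev p F a c‖
      (ae_of_all _ fun s => (blockDev p F a c).norm_coe_le_norm _)
  · rw [← sub_mul, Real.norm_eq_abs, abs_mul, blockDev_apply, mul_comm]
    exact mul_le_mul_of_nonneg_right (hC _) (abs_nonneg _)

theorem block_step {κ : Type} [Fintype κ] [DecidableEq κ] {L : Filter ℕ} (x : ℕ → κ → XX p)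
    (d : ℕ → κ → ℚ_[p]) (e : κ → ℚ_[p]) (he : ∀ k, e k ≠ 0) (hd : Tendsto d L (𝓝 e)) (r : ℕ → ℤ)
    (hr : Tendsto r L atTop) (hν : WT L (fun i => orb (ufl p (d i)) (r i) (x i)) (mP p κ))
    (F : (κ → XX p) →ᵇ ℝ) (G : ℕ → ℚ_[p] → ℝ) (hG : ∀ i, Continuous (G i)) {C : ℝ}
    (hC : ∀ i s, |G i s| ≤ C)
    (hinv : ∀ a : ℕ, ∀ᶠ i in L, ∀ t s, ‖t‖ ≤ (p : ℝ) ^ (a : ℤ) → G i (t + s) = G i s) :
    Tendsto (fun i => ∫ s, F (ufl p (d i) s (x i)) * G i s ∂bm p (r i) -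
      (∫ w, F w ∂mP p κ) * ∫ s, G i s ∂bm p (r i)) L (𝓝 0) := by
  have hC0 : 0 ≤ C := (abs_nonneg _).trans (hC 0 0)
  rw [Metric.tendsto_nhds]
  intro ε hε
  have hl := ((erg_mP p e he).l1 F).const_mul C
  rw [mul_zero] at hl
  obtain ⟨a, ha⟩ := (hl.eventually (gt_mem_nhds hε)).exists
  have h1 := (hν.param hd (blockDev p F a (∫ w, F w ∂mP p κ))).const_mul C
  filter_upwards [h1.eventually (gt_mem_nhds ha), hinv a, hr.eventually_ge_atTop (a : ℤ)]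
    with i h2 h3 h4
  rw [Real.dist_eq, sub_zero]
  exact (block_bound p F h4 _ (d i) (x i) (hG i) (hC i) h3).trans_lt h2

theorem step {ι : Type} [Fintype ι] [DecidableEq ι] (𝒰 : Ultrafilter ℕ)
    (h𝒰 : (𝒰 : Filter ℕ) ≤ atTop) (x : ℕ → ι → XX p) (d : ℕ → ι → ℚ_[p]) (e : ι → ℚ_[p])
    (I J : Finset ι) (hJ : J ⊆ I) (he : ∀ k ∈ J, e k ≠ 0) (he' : ∀ k ∈ I, k ∉ J → e k = 0)
    (hd : ∀ k ∈ I, Tendsto (fun i => d i k) 𝒰 (𝓝 (e k))) (r : ℕ → ℤ) (hr : Tendsto r 𝒰 atTop)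
    (hT : ∀ k ∈ J, Tt p 𝒰 (fun i => x i k) (fun i => d i k) r)
    (hE : ∀ k ∈ J, ∀ l ∈ J, k ≠ l →
      NoExc p 𝒰 (fun i => x i k) (fun i => x i l) (fun i => d i k) (fun i => d i l) r)
    (f : ι → (ℂ →ᵇ ℝ)) :
    Tendsto (fun i => ∫ s, ∏ k ∈ I, f k (piX p (uP p (d i k * s) • x i k)) ∂bm p (r i) -
      (∏ k ∈ J, ∫ z, f k z ∂mY) *
        ∫ s, ∏ k ∈ I \ J, f k (piX p (uP p (d i k * s) • x i k)) ∂bm p (r i)) 𝒰 (𝓝 0) := by
  have hp : (0 : ℝ) < p := by exact_mod_cast (Fact.out : p.Prime).pos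
  have hν := block p (κ := J) 𝒰 h𝒰 (fun i k => x i k) (fun i k => d i k) (fun k => e k)
    (fun k => he k k.2) (fun k => hd k (hJ k.2)) r hr (fun k => hT k k.2)
    (fun k l hkl => hE k k.2 l l.2 fun h => hkl (Subtype.ext h))
  let F : (J → XX p) →ᵇ ℝ := ∏ k : J, (f k).compContinuous
    ⟨fun w => piX p (w k), (continuous_piX p).comp (continuous_apply k)⟩
  have hF : ∀ w, F w = ∏ k : J, f k (piX p (w k)) := by
    intro w
    simp [F]
  have hm : ∫ w, F w ∂mP p J = ∏ k ∈ J, ∫ z, f k z ∂mY := by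
    simp only [hF]
    rw [mP, integral_fintype_prod_eq_prod (fun (k : J) (y : XX p) => f k (piX p y)),
      ← Finset.prod_coe_sort J]
    refine Finset.prod_congr rfl fun k _ => ?_
    rw [← map_piX p, integral_map (continuous_piX p).measurable.aemeasurable
      (f k).continuous.aestronglyMeasurable]
  have h := block_step p (κ := J) (fun i k => x i k) (fun i k => d i k) (fun k => e k)
    (fun k => he k k.2) (tendsto_pi_nhds.2 fun k => hd k (hJ k.2)) r hr hν F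
    (fun i s => ∏ k ∈ I \ J, f k (piX p (uP p (d i k * s) • x i k))) ?_
    (C := ∏ k ∈ I \ J, ‖f k‖) ?_ ?_
  · rw [hm] at h
    refine h.congr fun i => ?_
    congr 2
    funext s
    rw [hF, ← Finset.prod_sdiff hJ, mul_comm, ← Finset.prod_coe_sort J]
    rfl
  · intro i
    refine continuous_finsetProd _ fun k _ => (f k).continuous.comp ((continuous_piX p).comp ?_)
    exact ((continuous_uP p).comp (continuous_const.mul continuous_id)).smul continuous_const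
  · intro i s
    rw [Finset.abs_prod]
    exact Finset.prod_le_prod (fun k _ => abs_nonneg _) fun k _ => (f k).norm_coe_le_norm _
  · intro a
    have h1 : ∀ k ∈ I \ J, ∀ᶠ i in (𝒰 : Filter ℕ), ‖d i k‖ < ((p : ℝ) ^ (a : ℤ))⁻¹ := by
      intro k hk
      obtain ⟨hkI, hkJ⟩ := Finset.mem_sdiff.1 hk
      have h2 := (hd k hkI).norm
      rw [he' k hkI hkJ, norm_zero] at h2
      exact h2.eventually (gt_mem_nhds (by positivity))
    filter_upwards [(Filter.eventually_all_finset _).2 h1] with i hi t s ht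
    refine Finset.prod_congr rfl fun k hk => ?_
    have h3 : ‖d i k * t‖ ≤ 1 := by
      rw [norm_mul]
      calc ‖d i k‖ * ‖t‖ ≤ ((p : ℝ) ^ (a : ℤ))⁻¹ * (p : ℝ) ^ (a : ℤ) :=
            mul_le_mul (hi k hk).le ht (norm_nonneg _) (by positivity)
        _ = 1 := inv_mul_cancel₀ (by positivity)
    rw [mul_add, uP_add, mul_smul]
    exact congrArg (f k) (piX_K p (uu_mem_Kp p h3) _)

end Pool.Agent.EQ
end
end

-- part Pool.Agent.P.MP_ad7a55_nt.CtD2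
section

/-! Counting the linear parts of exceptional maps, second part. -/

set_option autoImplicit false

noncomputable section

open MeasureTheory Topology Filter UpperHalfPlane
open scoped MatrixGroups ENNReal BoundedContinuousFunction

namespace Pool.Agent.EQ

/-- The vectors `a` with `2 √E a ∈ h 𝔩`. -/
def Lh (E : ℤ) (h : ℕ) (𝔩 : Lt) : Lt :=
  𝔩 ⊓ (pr h * 𝔩).comap (LinearMap.mulLeft ℤ (2 * th E))

theorem mem_Lh {E : ℤ} {h : ℕ} {𝔩 : Lt} {a : ℂ} :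
    a ∈ Lh E h 𝔩 ↔ a ∈ 𝔩 ∧ 2 * th E * a ∈ pr h * 𝔩 := Iff.rfl

theorem ctd2_indep {E : ℤ} (hE : E < 0) {r s : ℝ} (h : (r : ℂ) + s * th E = 0) :
    r = 0 ∧ s = 0 := by
  have h1 := congrArg Complex.re h
  have h2 := congrArg Complex.im h
  simp only [Complex.add_re, Complex.ofReal_re, Complex.mul_re, ord2_th_re, mul_zero,
    Complex.ofReal_im, zero_mul, sub_zero, add_zero, Complex.zero_re, Complex.add_im,
    Complex.mul_im, zero_add, Complex.zero_im] at h1 h2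
  exact ⟨h1, (mul_eq_zero.1 h2).resolve_right (ord2_th_im_ne hE)⟩

theorem ctd2_indep' {E : ℤ} (hE : E < 0) {r s : ℤ} (h : (r : ℂ) + s * th E = 0) :
    r = 0 ∧ s = 0 := by
  have := ctd2_indep hE (r := r) (s := s) (by simpa using h)
  exact_mod_cast this

theorem ctd2_OD_mul {E : ℤ} {𝔩 : Lt} (h𝔩 : DiscL 𝔩 E) {o w : ℂ} (ho : o ∈ OD E) (hw : w ∈ 𝔩) :
    o * w ∈ 𝔩 := pr_mul_le.1 ((h𝔩.end_iff o).2 ho) w hw

theorem ctd2_two_th {E : ℤ} {𝔩 : Lt} (h𝔩 : DiscL 𝔩 E) {w : ℂ} (hw : w ∈ 𝔩) :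
    2 * th E * w ∈ 𝔩 := by
  have := ctd2_OD_mul h𝔩 (th_mem_OD E) hw
  rw [mul_assoc, two_mul]
  exact add_mem this this

theorem ctd2_prod {E : ℤ} {𝔩 : Lt} (h𝔩 : DiscL 𝔩 E) {a l : ℂ} (ha : a ∈ 𝔩) (hl : l ∈ cj 𝔩) :
    ∃ u v : ℤ, 2 * (a * l) = nm E 𝔩 * (2 * u + v * E + v * th E) := by
  have := Submodule.mul_mem_mul ha hl
  rw [h𝔩.mul_cj_nm] at this
  obtain ⟨o, ho, e⟩ := mem_pr_mul.1 this
  obtain ⟨u, v, rfl⟩ := mem_sp.1 ho
  exact ⟨u, v, by linear_combination (-2 : ℂ) * e⟩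

theorem ctd2_nm_mem {E : ℤ} {𝔩 : Lt} (h𝔩 : DiscL 𝔩 E) : ((nm E 𝔩 : ℝ) : ℂ) ∈ 𝔩 * cj 𝔩 := by
  rw [h𝔩.mul_cj_nm]
  exact mem_pr_mul.2 ⟨1, one_mem_OD E, mul_one _⟩

theorem ctd2_prod' {E : ℤ} {𝔩 : Lt} (h𝔩 : DiscL 𝔩 E) {h : ℕ} {a l : ℂ} (ha : a ∈ Lh E h 𝔩)
    (hl : l ∈ cj 𝔩) : ∃ k y : ℤ, 4 * (a * l) = nm E 𝔩 * (h * k + 2 * y * th E) := by
  obtain ⟨u, v, e⟩ := ctd2_prod h𝔩 ha.1 hl
  obtain ⟨a', ha', e'⟩ := mem_pr_mul.1 (mem_Lh.1 ha).2
  obtain ⟨u', v', e''⟩ := ctd2_prod h𝔩 ha' hl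
  have hν : ((nm E 𝔩 : ℝ) : ℂ) ≠ 0 := by exact_mod_cast h𝔩.nm_pos.ne'
  have ht := th_sq h𝔩.isD.1.le
  have h1 : ((2 * v * E - h * (2 * u' + v' * E) : ℤ) : ℂ) +
      ((2 * (2 * u + v * E) - h * v' : ℤ) : ℂ) * th E = 0 := by
    apply mul_left_cancel₀ hν
    push_cast
    linear_combination (-2 * th E) * e + (h : ℂ) * e'' - 2 * l * e' - 2 * v * (nm E 𝔩 : ℂ) * ht
  have h2 : ((2 * (2 * u + v * E) - h * v' : ℤ) : ℂ) = 0 := by
    exact_mod_cast (ctd2_indep' h𝔩.isD.1 h1).2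
  push_cast at h2
  exact ⟨v', v, by linear_combination 2 * e + (nm E 𝔩 : ℂ) * h2⟩

theorem Lh_spec {E : ℤ} {𝔩 : Lt} (h𝔩 : DiscL 𝔩 E) {h : ℕ} (h0 : 0 < h) (hE : (h : ℤ) ^ 2 ∣ 4 * E) :
    IsLat (Lh E h 𝔩) ∧ (h : ℝ) * vol 𝔩 ≤ 4 * vol (Lh E h 𝔩) ∧
      ∀ a ∈ Lh E h 𝔩, a ≠ 0 → (h : ℝ) ^ 2 / 16 * nm E 𝔩 ≤ Complex.normSq a := by
  have hD := h𝔩.isD.1
  have hh : (h : ℂ) ≠ 0 := by exact_mod_cast h0.ne'
  have hint : ∀ Λ : Lt, pr h * Λ ≤ Λ := fun Λ => by simpa using pr_int_le (h : ℤ) Λ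
  have hL : IsLat (Lh E h 𝔩) := by
    refine h𝔩.isLat.of_between h0 (pr_mul_le.2 fun w hw => mem_Lh.2 ⟨pr_mul_le.1 (hint 𝔩) w hw,
      mem_pr_mul.2 ⟨_, ctd2_two_th h𝔩 hw, by ring⟩⟩) ((hint _).trans inf_le_left)
  refine ⟨hL, ?_, fun a ha ha0 => ?_⟩
  · obtain ⟨n, hn, e, hle⟩ := exists_index h𝔩.isLat hL inf_le_left
    have h1 : 2 * n * th E / h ∈ OD E := by
      refine (h𝔩.end_iff _).1 (pr_mul_le.2 fun w hw => ?_)
      obtain ⟨w', hw', e'⟩ := mem_pr_mul.1 (mem_Lh.1 (pr_mul_le.1 hle w hw)).2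
      have : 2 * n * th E / h * w = w' := by
        field_simp
        linear_combination -e'
      rwa [this]
    obtain ⟨u, v, e'⟩ := mem_sp.1 h1
    rw [div_eq_iff hh] at e'
    have h2 : ((h * (2 * u + v * E) : ℤ) : ℂ) + ((h * v - 4 * n : ℤ) : ℂ) * th E = 0 := by
      push_cast
      linear_combination (-2 : ℂ) * e'
    have h3 : (h : ℤ) ≤ 4 * n :=
      Int.le_of_dvd (by omega) ⟨v, by linear_combination -(ctd2_indep' hD h2).2⟩
    have h4 : (h : ℝ) ≤ 4 * n := by exact_mod_cast h3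
    rw [e, ← mul_assoc]
    exact mul_le_mul_of_nonneg_right h4 (vol_pos h𝔩.isLat).le
  · obtain ⟨e, he⟩ := hE
    have he' : 4 * (E : ℂ) = h ^ 2 * e := by exact_mod_cast he
    have ht := th_sq hD.le
    have key : ∀ w ∈ 𝔩 * cj 𝔩, ∃ r s : ℤ, 16 * (Complex.normSq a : ℂ) * w =
        (nm E 𝔩 : ℂ) ^ 2 * (h ^ 2 * r + s * th E) := by
      intro w hw
      refine Submodule.mul_induction_on hw (fun m hm l hl => ?_) ?_
      · obtain ⟨k, y, e1⟩ := ctd2_prod' h𝔩 ha hl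
        obtain ⟨k', y', e2⟩ := ctd2_prod' h𝔩 ha (l := starRingEnd ℂ m)
          (mem_cj.2 (by simpa using hm))
        have e3 := congrArg (starRingEnd ℂ) e2
        simp only [map_mul, map_add, map_ofNat, Complex.conj_conj, Complex.conj_ofReal,
          map_natCast, map_intCast, conj_th] at e3
        refine ⟨k * k' - y * y' * e, 2 * h * (y * k' - k * y'), ?_⟩
        rw [← Complex.mul_conj]
        push_cast
        linear_combination (4 * (starRingEnd ℂ a * m)) * e1 +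
          (nm E 𝔩 : ℂ) * (h * k + 2 * y * th E) * e3 - 4 * y * y' * (nm E 𝔩 : ℂ) ^ 2 * ht -
          y * y' * (nm E 𝔩 : ℂ) ^ 2 * he'
      · rintro x y ⟨r, s, e1⟩ ⟨r', s', e2⟩
        exact ⟨r + r', s + s', by push_cast; linear_combination e1 + e2⟩
    obtain ⟨r, s, e1⟩ := key _ (ctd2_nm_mem h𝔩)
    have hν := h𝔩.nm_pos
    have hν' : ((nm E 𝔩 : ℝ) : ℂ) ≠ 0 := by exact_mod_cast hν.ne'
    have e2 : ((nm E 𝔩 * h ^ 2 * r - 16 * Complex.normSq a : ℝ) : ℂ) +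
        ((nm E 𝔩 * s : ℝ) : ℂ) * th E = 0 := by
      apply mul_left_cancel₀ hν'
      push_cast
      linear_combination -e1
    have e3 := (ctd2_indep hD e2).1
    have e4 := Complex.normSq_pos.2 ha0
    have e5 : (0 : ℝ) < nm E 𝔩 * h ^ 2 := by positivity
    have e6 : (0 : ℝ) < r := pos_of_mul_pos_left (b := nm E 𝔩 * h ^ 2) (by linarith) e5.le
    have e7 : (1 : ℝ) ≤ r := by
      have : 0 < r := by exact_mod_cast e6
      exact_mod_cast this
    nlinarith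

theorem mem_Lh_of_dvd {E : ℤ} {𝔩 : Lt} (h𝔩 : DiscL 𝔩 E) {h : ℕ} (hE : (h : ℤ) ^ 2 ∣ 4 * E)
    {a : ℂ} (ha : a ∈ 𝔩) {A : ℤ} (hA : Complex.normSq a = A * nm E 𝔩)
    (hh : (h : ℤ) ^ 2 ∣ 4 * A) : a ∈ Lh E h 𝔩 := by
  have hD := h𝔩.isD
  have hν := h𝔩.nm_pos
  have hν' : ((nm E 𝔩 : ℝ) : ℂ) ≠ 0 := by exact_mod_cast hν.ne'
  have ht := th_sq hD.1.le
  have key : ∀ w ∈ 𝔩 * cj 𝔩, ∃ z ∈ 𝔩, 2 * th E * a * w = nm E 𝔩 * (h * z) := by
    intro w hw
    refine Submodule.mul_induction_on hw (fun m hm l hl => ?_) ?_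
    · obtain ⟨u, v, e1⟩ := ctd2_prod h𝔩 ha hl
      obtain ⟨n, hn⟩ := h𝔩.normSq_nat (mem_cj.1 hl)
      have e2 := congrArg (starRingEnd ℂ) e1
      simp only [map_mul, map_add, map_ofNat, Complex.conj_ofReal, map_intCast, conj_th] at e2
      have e3 : a * starRingEnd ℂ a = A * nm E 𝔩 := by
        rw [Complex.mul_conj, hA]; push_cast; ring
      have e4 : l * starRingEnd ℂ l = n * nm E 𝔩 := by
        rw [Complex.mul_conj, ← Complex.normSq_conj, hn]; push_cast; ring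
      have e5 : (((2 * u + v * E) ^ 2 : ℤ) : ℂ) = ((4 * A * n + v ^ 2 * E : ℤ) : ℂ) := by
        apply mul_left_cancel₀ (pow_ne_zero 2 hν')
        push_cast
        linear_combination (-2 * (starRingEnd ℂ a * starRingEnd ℂ l)) * e1 -
          (nm E 𝔩 : ℂ) * (2 * u + v * E + v * th E) * e2 + 4 * (l * starRingEnd ℂ l) * e3 +
          4 * A * (nm E 𝔩 : ℂ) * e4 + v ^ 2 * (nm E 𝔩 : ℂ) ^ 2 * ht
      have e6 : (2 * u + v * E) ^ 2 = 4 * A * n + v ^ 2 * E := by exact_mod_cast e5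
      obtain ⟨v', hv'⟩ : (h : ℤ) ∣ 2 * (2 * u + v * E) := by
        refine (Int.pow_dvd_pow_iff two_ne_zero).1 ?_
        have : (2 * (2 * u + v * E)) ^ 2 = 4 * A * (4 * n) + 4 * E * v ^ 2 := by
          linear_combination 4 * e6
        rw [this]
        exact dvd_add (hh.mul_right _) (hE.mul_right _)
      obtain ⟨u', hu'⟩ : (h : ℤ) ∣ E * (v - (2 * u + v * E)) := by
        refine (Int.pow_dvd_pow_iff two_ne_zero).1 ?_
        rcases hD.2 with h4 | h4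
        · obtain ⟨k, hk⟩ : ∃ k, E = 4 * k := ⟨E / 4, by omega⟩
          have : (E * (v - (2 * u + v * E))) ^ 2 = 4 * E * (k * (v - (2 * u + v * E)) ^ 2) := by
            linear_combination E * (v - (2 * u + v * E)) ^ 2 * hk
          rw [this]
          exact hE.mul_right _
        · obtain ⟨k, hk⟩ : ∃ k, E = 4 * k + 1 := ⟨E / 4, by omega⟩
          have e7 : v - (2 * u + v * E) = -2 * (u + 2 * k * v) := by
            linear_combination (-v) * hk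
          have : (E * (v - (2 * u + v * E))) ^ 2 = 4 * E * (E * (u + 2 * k * v) ^ 2) := by
            rw [e7]; ring
          rw [this]
          exact hE.mul_right _
      have hv'' : 2 * (2 * (u : ℂ) + v * E) = h * v' := by exact_mod_cast hv'
      have hu'' : (E : ℂ) * (v - (2 * u + v * E)) = h * u' := by exact_mod_cast hu'
      refine ⟨_, ctd2_OD_mul h𝔩 (mem_sp.2 ⟨u', v', rfl⟩) hm, ?_⟩
      linear_combination th E * m * e1 + (nm E 𝔩 : ℂ) * m * hu'' +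
        (nm E 𝔩 : ℂ) * m * ((E + th E) / 2) * hv'' + v * (nm E 𝔩 : ℂ) * m * ht
    · rintro x y ⟨z, hz, e1⟩ ⟨z', hz', e2⟩
      exact ⟨z + z', add_mem hz hz', by linear_combination e1 + e2⟩
  obtain ⟨z, hz, e⟩ := key _ (ctd2_nm_mem h𝔩)
  exact mem_Lh.2 ⟨ha, mem_pr_mul.2 ⟨z, hz, mul_left_cancel₀ hν' (by linear_combination -e)⟩⟩

/-- Division by a number prime to `h`. -/
theorem ctd2_div {E : ℤ} {𝔩 : Lt} (h𝔩 : DiscL 𝔩 E) {h q : ℕ} (hq : Nat.Coprime q h) {g : ℂ}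
    (hg : g ∈ 𝔩) (h1 : (q : ℂ) * g ∈ Lh E h 𝔩) : g ∈ Lh E h 𝔩 := by
  obtain ⟨α, β, e⟩ := Nat.isCoprime_iff_coprime.2 hq
  have e' : (α : ℂ) * q + β * h = 1 := by exact_mod_cast e
  obtain ⟨z, hz, ez⟩ := mem_pr_mul.1 (mem_Lh.1 h1).2
  refine mem_Lh.2 ⟨hg, mem_pr_mul.2 ⟨α • z + β • (2 * th E * g),
    add_mem (𝔩.smul_mem α hz) (𝔩.smul_mem β (ctd2_two_th h𝔩 hg)), ?_⟩⟩
  simp only [zsmul_eq_mul]
  linear_combination (α : ℂ) * ez + 2 * th E * g * e'

variable (p : ℕ) [Fact p.Prime]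

theorem ctd2_val {E : ℤ} (hE : E ≠ 0) (c' : ℕ) : ∃ w : ℕ,
    ((p : ℝ) ^ w)⁻¹ ≤ (p : ℝ) ^ c' * ‖(E : ℚ_[p])‖ ∧
      (w = 0 ∨ ‖(E : ℚ_[p])‖ ≤ (p : ℝ) ^ (-((w + c' : ℕ) : ℤ))) := by
  have hp : (1 : ℝ) ≤ p := by exact_mod_cast (Fact.out : p.Prime).one_le
  have hp0 : (p : ℝ) ≠ 0 := by positivity
  have h1 : ‖(E : ℚ_[p])‖ = (p : ℝ) ^ (-(E : ℚ_[p]).valuation) :=
    Padic.norm_eq_zpow_neg_valuation (by exact_mod_cast hE)
  generalize (E : ℚ_[p]).valuation = v at h1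
  rw [h1, ← zpow_natCast (p : ℝ) c', ← zpow_add₀ hp0]
  rcases le_total v c' with h | h
  · exact ⟨0, by simpa using one_le_zpow₀ hp (by omega), Or.inl rfl⟩
  · refine ⟨(v - c').toNat, ?_, Or.inr (zpow_le_zpow_right₀ hp (by push_cast; omega))⟩
    rw [← zpow_natCast, ← zpow_neg]
    exact zpow_le_zpow_right₀ hp (by omega)

theorem card_lin1 (c : ℕ) : ∃ C : ℝ, 0 < C ∧ ∀ (E : ℤ) (𝔩 : Lt), DiscL 𝔩 E → ∀ s : ℤ, E ∣ s →
    ‖(E : ℚ_[p])‖ ≤ (p : ℝ) ^ c * ‖(s : ℚ_[p])‖ → ∀ X : ℝ, 0 ≤ X → ∀ h ∈ Hs p E,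
      {a | ∃ B, Lin1 p c E 𝔩 s X a B ∧ h ^ 2 ∣ 4 * B}.Finite ∧
        (h : ℝ) * {a | ∃ B, Lin1 p c E 𝔩 s X a B ∧ h ^ 2 ∣ 4 * B}.ncard ≤
          C * (Real.sqrt X * ‖(E : ℚ_[p])‖ + X / Real.sqrt (-(E : ℝ)) * ‖(E : ℚ_[p])‖ ^ 2) := by
  have hpp : p.Prime := Fact.out
  have hp : (1 : ℝ) ≤ p := by exact_mod_cast hpp.one_le
  obtain ⟨c', hc'⟩ := lin1_diff p c
  refine ⟨18 * (2 * (p : ℝ) ^ c + 8 * (p : ℝ) ^ c' + 32 * ((p : ℝ) ^ c') ^ 2), by positivity,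
    fun E 𝔩 h𝔩 s hs hEs X hX h hh => ?_⟩
  have hD := h𝔩.isD.1
  obtain ⟨hh1, hh2, hh3⟩ := Finset.mem_filter.1 hh
  have h0 : 0 < h := Nat.pos_of_mem_divisors hh1
  have h0' : (0 : ℝ) < h := by exact_mod_cast h0
  set S := {a | ∃ B, Lin1 p c E 𝔩 s X a B ∧ h ^ 2 ∣ 4 * B} with hS
  set e := ‖(E : ℚ_[p])‖ with he
  have e0 : 0 ≤ e := norm_nonneg _
  rcases S.eq_empty_or_nonempty with h1 | ⟨a₀, B₀, l0, d0⟩
  · rw [h1, Set.ncard_empty, Nat.cast_zero, mul_zero]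
    exact ⟨Set.finite_empty, by positivity⟩
  have hν := h𝔩.nm_pos
  have hV := vol_pos h𝔩.isLat
  obtain ⟨L1, L2, L3⟩ := Lh_spec h𝔩 h0 hh3
  have hV' := vol_pos L1
  have b1 : (h : ℝ) ≤ 2 * (p : ℝ) ^ c * (Real.sqrt X * e) := by
    obtain ⟨f1, f2⟩ := card_mult p h0 hh2 hX (t := (p : ℝ) ^ c * e ^ 2) (by positivity)
    have f3 : (1 : ℝ) ≤ {n : ℕ | 0 < n ∧ (n : ℝ) ≤ X ∧ h ^ 2 ∣ 4 * n ∧
        ‖(n : ℚ_[p])‖ ≤ (p : ℝ) ^ c * e ^ 2}.ncard := by
      exact_mod_cast (Set.ncard_pos f1).2 ⟨B₀, l0.2.1, l0.2.2.1, d0, l0.2.2.2.2.2.1⟩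
    have f4 := (le_mul_of_one_le_right (by positivity) f3).trans f2
    have f5 : (p : ℝ) ^ c ≤ ((p : ℝ) ^ c) ^ 2 := le_self_pow₀ (one_le_pow₀ hp) two_ne_zero
    refine (pow_le_pow_iff_left₀ h0'.le (by positivity) two_ne_zero).1 (f4.trans ?_)
    rw [mul_pow, mul_pow, mul_pow, Real.sq_sqrt hX]
    have := mul_le_mul_of_nonneg_right f5 (show 0 ≤ X * e ^ 2 by positivity)
    linarith
  have mem : ∀ a B, Lin1 p c E 𝔩 s X a B → h ^ 2 ∣ 4 * B →
      a ∈ Lh E h 𝔩 ∧ Complex.normSq a ≤ X * nm E 𝔩 := by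
    intro a B l d
    refine ⟨mem_Lh_of_dvd h𝔩 hh3 l.1 (A := B + s) (by rw [l.2.2.2.1]; push_cast; ring) ?_, ?_⟩
    · rw [mul_add]
      exact dvd_add (by exact_mod_cast d) (hh3.trans (mul_dvd_mul_left 4 hs))
    · rw [l.2.2.2.1]
      exact mul_le_mul_of_nonneg_right l.2.2.2.2.1 hν.le
  obtain ⟨w, w1, w2⟩ := ctd2_val p hD.ne c'
  rw [← he] at w1 w2
  have pw : (0 : ℝ) < (p : ℝ) ^ w := by positivity
  set q := ((p : ℝ) ^ w)⁻¹ with hq
  have q0 : 0 < q := inv_pos.2 pw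
  obtain ⟨T1, T2⟩ := card_pts L1 (l := (h : ℝ) ^ 2 / 16 * nm E 𝔩) (by positivity) L3
    (Y := 4 * X * nm E 𝔩 * q ^ 2) (by positivity)
  set T := {z | z ∈ Lh E h 𝔩 ∧ Complex.normSq z ≤ 4 * X * nm E 𝔩 * q ^ 2} with hT
  have dv : ∀ x : ℂ, x ∈ Lh E h 𝔩 → Complex.normSq x ≤ 4 * X * nm E 𝔩 →
      x ∈ pr ((p : ℂ) ^ w) * 𝔩 → ∃ g ∈ T, (p : ℂ) ^ w * g = x := by
    intro x x1 x2 x3
    obtain ⟨g, hg, rfl⟩ := mem_pr_mul.1 x3
    refine ⟨g, ⟨ctd2_div h𝔩 (q := p ^ w)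
      (Nat.Coprime.pow_left w ((Nat.Prime.coprime_iff_not_dvd hpp).2 hh2)) hg
      (by push_cast; exact x1), ?_⟩, rfl⟩
    rw [map_mul, map_pow, Complex.normSq_natCast, mul_pow] at x2
    rw [hq, inv_pow, ← div_eq_mul_inv, le_div_iff₀ (by positivity)]
    linarith
  have sub : S ⊆ (fun g => a₀ + (p : ℂ) ^ w * g) '' T ∪ (fun g => -a₀ + (p : ℂ) ^ w * g) '' T := by
    rintro a ⟨B, l, d⟩
    obtain ⟨m1, m2⟩ := mem a B l d
    obtain ⟨m3, m4⟩ := mem a₀ B₀ l0 d0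
    have n1 := Complex.normSq_sub a a₀
    have n2 := Complex.normSq_add a a₀
    have n3 := Complex.normSq_nonneg (a - a₀)
    have n4 := Complex.normSq_nonneg (a + a₀)
    have alt : a - a₀ ∈ pr ((p : ℂ) ^ w) * 𝔩 ∨ a + a₀ ∈ pr ((p : ℂ) ^ w) * 𝔩 := by
      rcases w2 with rfl | w2
      · exact Or.inl (mem_pr_mul.2 ⟨_, sub_mem l.1 l0.1, by simp⟩)
      · exact hc' E 𝔩 h𝔩 s hEs X a a₀ B B₀ l l0 w w2
    rcases alt with h2 | h2
    · obtain ⟨g, hg, eg⟩ := dv _ (sub_mem m1 m3) (by linarith) h2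
      exact Or.inl ⟨g, hg, by simp only [eg]; ring⟩
    · obtain ⟨g, hg, eg⟩ := dv _ (add_mem m1 m3) (by linarith) h2
      exact Or.inr ⟨g, hg, by simp only [eg]; ring⟩
  have fin := (T1.image fun g => a₀ + (p : ℂ) ^ w * g).union
    (T1.image fun g => -a₀ + (p : ℂ) ^ w * g)
  refine ⟨fin.subset sub, ?_⟩
  have c1 : (S.ncard : ℝ) ≤ 2 * T.ncard := by
    have := (Set.ncard_le_ncard sub fin).trans ((Set.ncard_union_le _ _).trans
      (add_le_add (Set.ncard_image_le T1) (Set.ncard_image_le T1)))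
    rw [two_mul]
    exact_mod_cast this
  have b2 : (h : ℝ) * Real.sqrt (4 * X * nm E 𝔩 * q ^ 2 / ((h : ℝ) ^ 2 / 16 * nm E 𝔩)) ≤
      8 * (p : ℝ) ^ c' * (Real.sqrt X * e) := by
    have : 4 * X * nm E 𝔩 * q ^ 2 / ((h : ℝ) ^ 2 / 16 * nm E 𝔩) = (8 * q / h) ^ 2 * X := by
      field_simp
      ring
    rw [this, Real.sqrt_mul (sq_nonneg _), Real.sqrt_sq (by positivity)]
    have e1 : (h : ℝ) * (8 * q / h * Real.sqrt X) = 8 * Real.sqrt X * q := by field_simp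
    have e2 := mul_le_mul_of_nonneg_left w1 (show 0 ≤ 8 * Real.sqrt X by positivity)
    linarith
  have hE' : 0 < Real.sqrt (-(E : ℝ)) := Real.sqrt_pos.2 (by
    have : (E : ℝ) < 0 := by exact_mod_cast hD
    linarith)
  have b3 : (h : ℝ) * (4 * X * nm E 𝔩 * q ^ 2 / vol (Lh E h 𝔩)) ≤
      32 * ((p : ℝ) ^ c') ^ 2 * (X / Real.sqrt (-(E : ℝ)) * e ^ 2) := by
    have e1 : (h : ℝ) / vol (Lh E h 𝔩) ≤ 4 / vol 𝔩 := by
      rw [div_le_div_iff₀ hV' hV]; exact L2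
    have e2 : q ^ 2 ≤ ((p : ℝ) ^ c' * e) ^ 2 := pow_le_pow_left₀ q0.le w1 2
    calc (h : ℝ) * (4 * X * nm E 𝔩 * q ^ 2 / vol (Lh E h 𝔩))
        = (h : ℝ) / vol (Lh E h 𝔩) * (4 * X * nm E 𝔩 * q ^ 2) := by ring
      _ ≤ 4 / vol 𝔩 * (4 * X * nm E 𝔩 * ((p : ℝ) ^ c' * e) ^ 2) := by gcongr
      _ = _ := by
        rw [nm]
        field_simp
        ring
  have p1 : 0 ≤ Real.sqrt X * e := by positivity
  have p2 : 0 ≤ X / Real.sqrt (-(E : ℝ)) * e ^ 2 := by positivity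
  have p3 : 0 ≤ (p : ℝ) ^ c := by positivity
  have p4 : 0 ≤ (p : ℝ) ^ c' := by positivity
  have c2 := mul_le_mul_of_nonneg_left (c1.trans (mul_le_mul_of_nonneg_left T2 zero_le_two)) h0'.le
  have m1 := mul_nonneg p3 p2
  have m2 := mul_nonneg p4 p2
  have m3 := mul_nonneg (sq_nonneg ((p : ℝ) ^ c')) p1
  linarith

end Pool.Agent.EQ
end
end
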