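import Pool.Agent.K.MP_ad7a55_nt.C37
import Pool.Agent.K.MP_ad7a55_nt.C41
import Pool.Agent.K.MP_ad7a55_nt.C35
import Pool.Agent.P.MP_ad7a55_nt.SgD
import Pool.Agent.K.MP_ad7a55_nt.C36

-- part Pool.Agent.P.MP_ad7a55_nt.Exc2
section

/-! Exceptional ball orbits come from isogenies or from exceptional pairs. -/

set_option autoImplicit false

noncomputable section

open MeasureTheory Topology Filter UpperHalfPlane
open scoped MatrixGroups ENNReal BoundedContinuousFunction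

namespace Pool.Agent.EQ

/-- The linear part of a map, read in the frames. -/
theorem exc2_hom {F : Type} [CommRing F] {A B Θ₁ Θ₂ ξ P S₁ S₂ : Matrix (Fin 2) (Fin 2) F}
    (h₁ : A * Θ₁ = S₁ * A) (h₂ : B * Θ₂ = S₂ * B) (h : P * A = B * ξ) (t : F) :
    (P + t • (S₂ * P * S₁)) * A = B * (ξ + t • (Θ₂ * ξ * Θ₁)) := by
  have e : S₂ * P * S₁ * A = B * (Θ₂ * ξ * Θ₁) := by
    calc S₂ * P * S₁ * A = S₂ * P * (A * Θ₁) := by rw [h₁]; simp only [Matrix.mul_assoc]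
      _ = S₂ * (P * A) * Θ₁ := by simp only [Matrix.mul_assoc]
      _ = (B * Θ₂) * ξ * Θ₁ := by rw [h, h₂]; simp only [Matrix.mul_assoc]
      _ = B * (Θ₂ * ξ * Θ₁) := by simp only [Matrix.mul_assoc]
  rw [Matrix.add_mul, Matrix.mul_add, Matrix.smul_mul, Matrix.mul_smul, h, e]

theorem exc2_cast {F : Type} [Field F] [CharZero F] (Θ₁ Θ₂ : Matrix (Fin 2) (Fin 2) ℤ)
    (ξ : Matrix (Fin 2) (Fin 2) ℚ) (t : ℚ) :
    (ξ + t • (Θ₂.map (↑) * ξ * Θ₁.map (↑)) : Matrix (Fin 2) (Fin 2) ℚ).map ((↑) : ℚ → F) =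
      ξ.map (↑) + (t : F) • (Θ₂.map (↑) * ξ.map (↑) * Θ₁.map (↑)) := by
  ext i j
  simp only [Matrix.map_apply, Matrix.add_apply, Matrix.smul_apply, Matrix.mul_apply,
    Fin.sum_univ_two, smul_eq_mul]
  push_cast
  ring

/-- The column identity. -/
theorem exc2_col {A B Q : Matrix (Fin 2) (Fin 2) ℝ} {η : Matrix (Fin 2) (Fin 2) ℚ}
    (h : Q * A = B * η.map (↑)) (j : Fin 2) :
    rl (((Q 0 0 + Q 1 1 : ℝ) : ℂ) + ((Q 0 1 - Q 1 0 : ℝ) : ℂ) * Complex.I)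
        (((Q 0 0 - Q 1 1 : ℝ) : ℂ) + ((-(Q 0 1 + Q 1 0) : ℝ) : ℂ) * Complex.I)
        ((A 0 j : ℂ) - A 1 j * Complex.I) =
      2 * ((η 0 j : ℂ) * ((B 0 0 : ℂ) - B 1 0 * Complex.I) +
        (η 1 j : ℂ) * ((B 0 1 : ℂ) - B 1 1 * Complex.I)) := by
  have e0 := congrFun (congrFun h 0) j
  have e1 := congrFun (congrFun h 1) j
  simp only [Matrix.mul_apply, Fin.sum_univ_two, Matrix.map_apply] at e0 e1
  have e0' := congrArg (fun z : ℝ => (z : ℂ)) e0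
  have e1' := congrArg (fun z : ℝ => (z : ℂ)) e1
  simp only [Complex.ofReal_add, Complex.ofReal_mul, Complex.ofReal_ratCast] at e0' e1'
  simp only [rl, map_sub, map_mul, Complex.conj_ofReal, Complex.conj_I]
  push_cast
  linear_combination 2 * e0' - 2 * Complex.I * e1' -
    (2 * (Q 0 1 : ℂ) * A 1 j) * Complex.I_mul_I

theorem exc2_rl_add (α β u w : ℂ) (x y : ℤ) :
    rl α β (x * u + y * w) = x * rl α β u + y * rl α β w := by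
  simp only [rl, map_add, map_mul, map_intCast]
  ring

theorem exc2_vol (g : SL(2, ℝ)) :
    vol (sp ((g 0 0 : ℂ) - g 1 0 * Complex.I) ((g 0 1 : ℂ) - g 1 1 * Complex.I)) = 1 := by
  have hd := frame_det g
  have e : (starRingEnd ℂ ((g 0 0 : ℂ) - g 1 0 * Complex.I) *
      ((g 0 1 : ℂ) - g 1 1 * Complex.I)).im = -1 := by
    simp
    linarith
  rw [(vol_sp' (by rw [e]; norm_num)).2, e]
  norm_num

variable (p : ℕ) [Fact p.Prime]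

theorem exc2_disc {g : GG p} {D : ℤ} (h : piX p (g : XX p) ∈ Cl D) : DiscL (latG p g) D := by
  obtain ⟨Λ, h1, h2⟩ := h
  obtain ⟨s1, s2⟩ := latG_spec p g
  obtain ⟨c, hc, e⟩ := jL_inj h1.isLat s1 (h2.trans s2.symm)
  rw [e]
  exact h1.pr_mul hc

/-- The `p`-adic bound for the linear part. -/
theorem exc2_bd {D₁ D₂ Pi e₁ e₂ ρ₁ ρ₂ : ℚ_[p]} {P : Matrix (Fin 2) (Fin 2) ℚ_[p]}
    {R T₁ T₂ K : ℝ} (hR : 0 ≤ R) (hK : 1 ≤ K) (hT₁ : 0 ≤ T₁) (hT₂ : 0 ≤ T₂)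
    (he₁ : ‖e₁‖ = ‖(2 : ℚ_[p])‖) (he₂ : ‖e₂‖ = ‖(2 : ℚ_[p])‖) (r₁ : ρ₁ ≠ 0) (r₂ : ρ₂ ≠ 0)
    (hP₁ : Pi * ρ₂ = ρ₁ * D₁) (hP₂ : Pi * ρ₁ = ρ₂ * D₂) (hPi : Pi ^ 2 = D₁ * D₂)
    (hPi0 : Pi ≠ 0) (hPi1 : ‖Pi‖ ≤ 1)
    (h₁ : 1 ≤ K * (‖D₁‖ * T₁ ^ 2)) (h₂ : 1 ≤ K * (‖D₂‖ * T₂ ^ 2))
    (hρ₁ : ‖ρ₁‖ ≤ K * ‖ρ₂‖) (hρ₂ : ‖ρ₂‖ ≤ K * ‖ρ₁‖) (hB : Bd R P)
    (hc : ‖P 1 0‖ * (T₁ * T₂) ≤ R * p ^ 2) :
    Bd (K * p ^ 2 * R) (P + Pi⁻¹ • (!![0, e₂; D₂ / e₂, 0] * P * !![0, e₁; D₁ / e₁, 0])) := by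
  have hp1 : (1 : ℝ) ≤ p := by exact_mod_cast (Fact.out : p.Prime).one_le
  have hp2 : (1 : ℝ) ≤ (p : ℝ) ^ 2 := one_le_pow₀ hp1
  have h2 := exc_two p
  have h2' : ‖(2 : ℚ_[p])‖ ≤ 1 := by simpa using Padic.norm_int_le_one (p := p) 2
  have h20 : 0 < ‖(2 : ℚ_[p])‖ := norm_pos_iff.2 two_ne_zero
  have e10 : e₁ ≠ 0 := norm_pos_iff.1 (he₁ ▸ h20)
  have e20 : e₂ ≠ 0 := norm_pos_iff.1 (he₂ ▸ h20)
  have n1 : 0 < ‖ρ₁‖ := norm_pos_iff.2 r₁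
  have n2 : 0 < ‖ρ₂‖ := norm_pos_iff.2 r₂
  have nP : 0 < ‖Pi‖ := norm_pos_iff.2 hPi0
  have hD₁ : D₁ = Pi * ρ₂ / ρ₁ := by rw [hP₁]; field_simp
  have hD₂ : D₂ = Pi * ρ₁ / ρ₂ := by rw [hP₂]; field_simp
  have hKR : K * R ≤ K * p ^ 2 * R := by
    rw [mul_assoc]
    exact mul_le_mul_of_nonneg_left (le_mul_of_one_le_left hR hp2) (by linarith)
  have hRK : R ≤ K * p ^ 2 * R := (le_mul_of_one_le_left hR hK).trans hKR
  have hT : 1 ≤ K * (‖Pi‖ * (T₁ * T₂)) := by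
    have : 1 ≤ (K * (‖Pi‖ * (T₁ * T₂))) ^ 2 := by
      calc (1 : ℝ) = 1 * 1 := by ring
        _ ≤ (K * (‖D₁‖ * T₁ ^ 2)) * (K * (‖D₂‖ * T₂ ^ 2)) :=
            mul_le_mul h₁ h₂ zero_le_one (by positivity)
        _ = K ^ 2 * ((‖D₁‖ * ‖D₂‖) * (T₁ * T₂) ^ 2) := by ring
        _ = (K * (‖Pi‖ * (T₁ * T₂))) ^ 2 := by rw [← norm_mul, ← hPi, norm_pow]; ring
    exact (one_le_sq_iff₀ (by positivity)).1 this
  have na : ∀ y z : ℚ_[p], ‖y‖ ≤ R → ‖z‖ ≤ K * p ^ 2 * R → ‖y + z‖ ≤ K * p ^ 2 * R :=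
    fun y z hy hz => (Padic.nonarchimedean y z).trans (max_le (hy.trans hRK) hz)
  have key : (Pi⁻¹ • (!![0, e₂; D₂ / e₂, 0] * P * !![0, e₁; D₁ / e₁, 0]) :
      Matrix (Fin 2) (Fin 2) ℚ_[p]) =
      !![ρ₂ / ρ₁ * (e₂ / e₁) * P 1 1, e₁ * e₂ * (P 1 0 / Pi);
        Pi * e₁⁻¹ * e₂⁻¹ * P 0 1, ρ₁ / ρ₂ * (e₁ / e₂) * P 0 0] := by
    conv_lhs => rw [Matrix.eta_fin_two P]
    rw [Matrix.mul_fin_two, Matrix.mul_fin_two, hD₁, hD₂]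
    ext i j
    fin_cases i <;> fin_cases j <;> simp <;> field_simp
  have h3 : ‖(2 : ℚ_[p])‖⁻¹ ≤ p := by
    rw [inv_le_iff_one_le_mul₀ h20]; exact h2
  rw [key]
  intro i j
  rw [Matrix.add_apply]
  refine na _ _ (hB i j) ?_
  fin_cases i <;> fin_cases j
  · change ‖ρ₂ / ρ₁ * (e₂ / e₁) * P 1 1‖ ≤ _
    rw [norm_mul, norm_mul, norm_div, norm_div, he₁, he₂, div_self h20.ne', mul_one]
    exact (mul_le_mul ((div_le_iff₀ n1).2 hρ₂) (hB 1 1) (norm_nonneg _) (by linarith)).trans hKR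
  · change ‖e₁ * e₂ * (P 1 0 / Pi)‖ ≤ _
    rw [norm_mul, norm_mul, norm_div, he₁, he₂]
    refine (mul_le_of_le_one_left (by positivity) (mul_le_one₀ h2' h20.le h2')).trans ?_
    rw [div_le_iff₀ nP]
    calc ‖P 1 0‖ = ‖P 1 0‖ * 1 := (mul_one _).symm
      _ ≤ ‖P 1 0‖ * (K * (‖Pi‖ * (T₁ * T₂))) := mul_le_mul_of_nonneg_left hT (norm_nonneg _)
      _ = K * ‖Pi‖ * (‖P 1 0‖ * (T₁ * T₂)) := by ring
      _ ≤ K * ‖Pi‖ * (R * p ^ 2) := mul_le_mul_of_nonneg_left hc (by positivity)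
      _ = K * p ^ 2 * R * ‖Pi‖ := by ring
  · change ‖Pi * e₁⁻¹ * e₂⁻¹ * P 0 1‖ ≤ _
    rw [norm_mul, norm_mul, norm_mul, norm_inv, norm_inv, he₁, he₂]
    calc ‖Pi‖ * ‖(2 : ℚ_[p])‖⁻¹ * ‖(2 : ℚ_[p])‖⁻¹ * ‖P 0 1‖ ≤ K * p * p * R := by
          refine mul_le_mul (mul_le_mul (mul_le_mul (hPi1.trans hK) h3 (by positivity)
            (by linarith)) h3 (by positivity) (by positivity)) (hB 0 1) (norm_nonneg _)
            (by positivity)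
      _ = K * p ^ 2 * R := by ring
  · change ‖ρ₁ / ρ₂ * (e₁ / e₂) * P 0 0‖ ≤ _
    rw [norm_mul, norm_mul, norm_div, norm_div, he₁, he₂, div_self h20.ne', mul_one]
    exact (mul_le_mul ((div_le_iff₀ n2).2 hρ₁) (hB 0 0) (norm_nonneg _) (by linarith)).trans hKR

/-- Clearing denominators prime to `p`. -/
theorem exc2_den (η : Matrix (Fin 2) (Fin 2) ℚ) (h : ∀ i j, ‖(η i j : ℚ_[p])‖ ≤ 1) :
    ∃ m : ℤ, ¬ (p : ℤ) ∣ m ∧ ∀ i j, ∃ k : ℤ, (m : ℚ) * η i j = k := by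
  have hp : Prime (p : ℤ) := Nat.prime_iff_prime_int.1 Fact.out
  refine ⟨∏ ij : Fin 2 × Fin 2, ((η ij.1 ij.2).den : ℤ), fun hd => ?_, fun i j => ?_⟩
  · obtain ⟨ij, -, h1⟩ := (Prime.dvd_finsetProd_iff hp _).1 hd
    exact frame_den p (h _ _) h1
  · obtain ⟨k, hk⟩ : ((η i j).den : ℤ) ∣ ∏ ij : Fin 2 × Fin 2, ((η ij.1 ij.2).den : ℤ) :=
      Finset.dvd_prod_of_mem (fun ij : Fin 2 × Fin 2 => ((η ij.1 ij.2).den : ℤ))
        (Finset.mem_univ (i, j))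
    refine ⟨k * (η i j).num, ?_⟩
    rw [hk]
    push_cast
    rw [← Rat.mul_den_eq_num (η i j)]
    ring

theorem exc2_bd_frame {R : ℝ} {k₁ k₂ : SL(2, ℚ_[p])} (h₁ : k₁ ∈ Kp p) (h₂ : k₂ ∈ Kp p)
    {P η : Matrix (Fin 2) (Fin 2) ℚ_[p]} (hB : Bd R P)
    (h : P * (k₁ : Matrix (Fin 2) (Fin 2) ℚ_[p]) = (k₂ : Matrix (Fin 2) (Fin 2) ℚ_[p]) * η) :
    Bd R η := by
  have := hB.K ((Kp p).inv_mem h₂) h₁
  rwa [Matrix.mul_assoc, h, ← Matrix.mul_assoc, ← Matrix.SpecialLinearGroup.coe_mul,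
    inv_mul_cancel, Matrix.SpecialLinearGroup.coe_one, Matrix.one_mul] at this

theorem exc2_pow {c : ℕ} {x : ℚ_[p]} (h : ‖x‖ ≤ (p : ℝ) ^ c) : ‖(p : ℚ_[p]) ^ c * x‖ ≤ 1 := by
  have hp0 : (0 : ℝ) < p := by exact_mod_cast (Fact.out : p.Prime).pos
  rw [norm_mul, norm_pow, Padic.norm_p, inv_pow, inv_mul_le_iff₀ (by positivity)]
  simpa using h

theorem exc_frame2 {q : ℕ} (hq : 0 < q) {δ : ℚ} (hδ : δ ≠ 0) (R : ℝ) (c₀ : ℕ) :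
    ∃ (N : ℕ) (n : ℤ) (c : ℕ), 0 < N ∧ n ≠ 0 ∧
    ∀ (D₁ D₂ : ℤ) (x₁ x₂ : XX p) (e₁ e₂ : ℚ_[p]) (ρ₁ ρ₂ : ℚ) (r : ℤ),
      Frame p D₁ x₁ e₁ → Frame p D₂ x₂ e₂ → piX p x₁ ∈ Cl D₁ → piX p x₂ ∈ Cl D₂ →
      0 < ρ₁ → 0 < ρ₂ → ρ₁ ^ 2 * D₁ = ρ₂ ^ 2 * D₂ →
      ‖(D₁ : ℚ_[p])‖ * (‖-e₁ * ρ₁‖ * (p : ℝ) ^ r) ^ 2 ≤ 1 →
      ‖(D₂ : ℚ_[p])‖ * (‖-e₂ * ρ₂‖ * (p : ℝ) ^ r) ^ 2 ≤ 1 →
      1 ≤ (p : ℝ) ^ c₀ * (‖(D₁ : ℚ_[p])‖ * (‖-e₁ * ρ₁‖ * (p : ℝ) ^ r) ^ 2) →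
      1 ≤ (p : ℝ) ^ c₀ * (‖(D₂ : ℚ_[p])‖ * (‖-e₂ * ρ₂‖ * (p : ℝ) ^ r) ^ 2) →
      ‖(ρ₁ : ℚ_[p])‖ ≤ (p : ℝ) ^ c₀ * ‖(ρ₂ : ℚ_[p])‖ → ‖(ρ₂ : ℚ_[p])‖ ≤ (p : ℝ) ^ c₀ * ‖(ρ₁ : ℚ_[p])‖ →
      ∀ P ∈ HomS p q δ x₁ x₂, Bd R P.1 →
        (∀ s : ℚ_[p], ‖s‖ ≤ (p : ℝ) ^ r → Bd R (Pfl p (-e₁ * ρ₁) (-e₂ * ρ₂) s P.2)) →
        Isog N (piX p x₁) (piX p x₂) ∨ ∃ M₁ M₂, DiscL M₁ D₁ ∧ DiscL M₂ D₂ ∧ jL M₁ = piX p x₁ ∧
          jL M₂ = piX p x₂ ∧ Bad2 p n c D₁ D₂ M₁ M₂ := by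
  have hp1 : (1 : ℝ) < p := by exact_mod_cast (Fact.out : p.Prime).one_lt
  have hp0 : (0 : ℝ) < p := one_pos.trans hp1
  have hpN : 0 < p := (Fact.out : p.Prime).pos
  obtain ⟨c₁, hc₁⟩ := pow_unbounded_of_one_lt R hp1
  obtain ⟨n₁, hn₁def⟩ : ∃ n₁ : ℕ, n₁ = p ^ c₁ * q * δ.den := ⟨_, rfl⟩
  have n10 : 0 < n₁ := by
    have := δ.den_pos
    rw [hn₁def]; positivity
  obtain ⟨c, hc⟩ := pow_unbounded_of_one_lt ((n₁ : ℝ) ^ 2 * (8 * R ^ 2) +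
    (p : ℝ) ^ c₀ * (p : ℝ) ^ c₀ * (p ^ 4 * R ^ 2) + (p : ℝ) ^ c₀ * p ^ 2 * R) hp1
  have hnum : δ.num ≠ 0 := Rat.num_ne_zero.2 hδ
  refine ⟨(p ^ c₁ * q) ^ 2 * δ.num.natAbs, 4 * ((p ^ c₁ * q) ^ 2 * δ.den * δ.num), c, ?_, ?_, ?_⟩
  · have h2 : 0 < δ.num.natAbs := Int.natAbs_pos.2 hnum
    positivity
  · have := δ.den_pos
    positivity
  rintro D₁ D₂ _ _ e₁ e₂ ρ₁ ρ₂ r ⟨g₁, Θ₁, rfl, k₁, fr₁, fp₁, he₁⟩
    ⟨g₂, Θ₂, rfl, k₂, fr₂, fp₂, he₂⟩ cl₁ cl₂ hρ₁ hρ₂ hρ hs₁ hs₂ hC₁ hC₂ hr₁ hr₂ P hP hB₁ hB₂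
  have dl₁ := exc2_disc p cl₁
  have dl₂ := exc2_disc p cl₂
  have hD₁ : D₁ < 0 := dl₁.isD.1
  have hD₂ : D₂ < 0 := dl₂.isD.1
  obtain ⟨ξ, hξ, hdet, hH⟩ := HomS.rep hP rfl rfl
  obtain ⟨hd1, hd2⟩ := HomS.det hP
  obtain ⟨n, hn₁, hn₂, hn, hnR⟩ := exc_Pi hD₁ hρ₁ hρ₂ hρ
  have hR : 0 ≤ R := (norm_nonneg _).trans (hB₁ 0 0)
  have hu : (0 : ℝ) < (p : ℝ) ^ r := zpow_pos hp0 r
  have hB0 : Bd R P.2 := by
    have := hB₂ 0 (by simpa using hu.le)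
    rwa [Pfl, mul_zero, mul_zero, neg_zero, ← Matrix.one_fin_two, Matrix.one_mul,
      Matrix.mul_one] at this
  set s₁ := Real.sqrt (-(D₁ : ℝ)) with hs₁'
  set s₂ := Real.sqrt (-(D₂ : ℝ)) with hs₂'
  have s10 : 0 < s₁ := Real.sqrt_pos.2 (by exact_mod_cast (by omega : (0 : ℤ) < -D₁))
  have s20 : 0 < s₂ := Real.sqrt_pos.2 (by exact_mod_cast (by omega : (0 : ℤ) < -D₂))
  have n0 : n ≠ 0 := by
    rintro rfl
    have : 0 < s₁ * s₂ := mul_pos s10 s20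
    simp only [Int.cast_zero] at hnR
    linarith
  set Z : ℚ := excW (Θ₂.map (↑)) ξ (Θ₁.map (↑)) - 2 * n * ξ.det with hZ
  have hZR : (Z : ℝ) = -(s₁ * s₂ * ((P.1 0 0 - P.1 1 1) ^ 2 + (P.1 0 1 + P.1 1 0) ^ 2)) := by
    rw [← exc_real, hZ, Rat.cast_sub, excW_cast, excW_conj g₁.1 g₂.1 fr₁ fr₂ hH.1, hdet, hd1,
      ← hnR]
    push_cast
    ring
  have h20 : (2 : ℚ_[p]) ≠ 0 := two_ne_zero
  have e10 : e₁ ≠ 0 := norm_pos_iff.1 (he₁ ▸ norm_pos_iff.2 h20)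
  have e20 : e₂ ≠ 0 := norm_pos_iff.1 (he₂ ▸ norm_pos_iff.2 h20)
  have hco := coef_bound p (a := P.2 0 1) (b := -e₂ * ρ₂ * P.2 1 1 - -e₁ * ρ₁ * P.2 0 0)
    (c := -(-e₁ * ρ₁ * (-e₂ * ρ₂) * P.2 1 0)) (l := r - 1) (R := R) (fun s hs => by
      have := hB₂ s (by simpa using hs) 0 1
      rw [Pfl_eq] at this
      simpa only [Matrix.of_apply, Matrix.cons_val', Matrix.cons_val_zero, Matrix.cons_val_one,
        Matrix.cons_val_fin_one] using this)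
  have hn₁' : (n : ℚ_[p]) * ρ₂ = ρ₁ * D₁ := by
    exact_mod_cast congrArg (fun z : ℚ => (z : ℚ_[p])) hn₁
  have hn₂' : (n : ℚ_[p]) * ρ₁ = ρ₂ * D₂ := by
    exact_mod_cast congrArg (fun z : ℚ => (z : ℚ_[p])) hn₂
  have hn' : (n : ℚ_[p]) ^ 2 = D₁ * D₂ := by
    exact_mod_cast congrArg (fun z : ℤ => (z : ℚ_[p])) hn
  have r10 : (ρ₁ : ℚ_[p]) ≠ 0 := by exact_mod_cast hρ₁.ne'
  have r20 : (ρ₂ : ℚ_[p]) ≠ 0 := by exact_mod_cast hρ₂.ne'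
  have hcc : ‖-e₁ * ρ₁ * (-e₂ * ρ₂) * P.2 1 0‖ * ((p : ℝ) ^ r) ^ 2 ≤ R * p ^ 2 := by
    have h := mul_le_mul_of_nonneg_right hco.2 (sq_nonneg (p : ℝ))
    rw [norm_neg, mul_assoc] at h
    refine le_trans (le_of_eq ?_) h
    congr 1
    rw [← zpow_natCast, ← zpow_natCast, ← zpow_mul, ← zpow_add₀ hp0.ne']
    congr 1
    push_cast
    ring
  have hZP : ‖(Z : ℚ_[p])‖ * ((‖-e₁ * ρ₁‖ * (p : ℝ) ^ r) ^ 2 * (‖-e₂ * ρ₂‖ * (p : ℝ) ^ r) ^ 2) ≤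
      p ^ 4 * R ^ 2 := by
    have hmain := exc_padic p (D₁ := D₁) (D₂ := D₂) (Pi := n) (e₁ := e₁) (e₂ := e₂)
      (d₁ := -e₁ * ρ₁) (d₂ := -e₂ * ρ₂) (a := P.2 0 0) (b := P.2 0 1) (c := P.2 1 0) (d := P.2 1 1)
      hu hR he₁ he₂ (mul_ne_zero (neg_ne_zero.2 e10) r10) (mul_ne_zero (neg_ne_zero.2 e20) r20)
      (by linear_combination (-(e₁ * e₂)) * hn₁') (by linear_combination (-(e₁ * e₂)) * hn₂')
      hn' hs₁ hs₂ (hB0 0 1)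
      (by
        have h := mul_le_mul_of_nonneg_right hco.1 hp0.le
        rwa [mul_assoc, ← zpow_add_one₀ hp0.ne', sub_add_cancel] at h)
      hcc
    rw [← Matrix.eta_fin_two P.2, ← Matrix.det_fin_two, hd2] at hmain
    rw [hZ, Rat.cast_sub, excW_cast, excW_conj g₁.2 g₂.2 fp₁ fp₂ hH.2, hdet]
    push_cast
    exact hmain
  by_cases hZ0 : Z = 0
  · left
    have hsum : (P.1 0 0 - P.1 1 1) ^ 2 + (P.1 0 1 + P.1 1 0) ^ 2 = 0 := by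
      rw [hZ0, Rat.cast_zero, eq_comm, neg_eq_zero, mul_eq_zero] at hZR
      exact hZR.resolve_left (by positivity)
    obtain ⟨ha', hb'⟩ := (add_eq_zero_iff_of_nonneg (sq_nonneg _) (sq_nonneg _)).1 hsum
    have ha : P.1 1 1 = P.1 0 0 := (sub_eq_zero.1 (pow_eq_zero_iff two_ne_zero |>.1 ha')).symm
    have hb : P.1 1 0 = -P.1 0 1 :=
      eq_neg_of_add_eq_zero_right (pow_eq_zero_iff two_ne_zero |>.1 hb')
    exact exc_isog p hq hδ hc₁.le k₁ k₂ hξ hdet hH hd1 hB0 ha hb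
  right
  refine ⟨_, _, dl₁, dl₂, (latG_spec p g₁).2, (latG_spec p g₂).2, ?_⟩
  -- the integral matrix
  have hBξ : Bd R (ξ.map ((↑) : ℚ → ℚ_[p])) := exc2_bd_frame p k₁ k₂ hB0 hH.2
  have hint : ∀ i j, ∃ k : ℤ, (n₁ : ℚ) * ξ i j = k := by
    intro i j
    obtain ⟨k, hk⟩ : ∃ k : ℤ, (p : ℚ) ^ c₁ * (q * ξ i j) = k := by
      refine exc_int p (InZp.mul (by exact_mod_cast inZp_int p (p ^ c₁)) (hξ i j)) ?_
      push_cast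
      refine exc2_pow p ?_
      have h3 : ‖(q : ℚ_[p])‖ ≤ 1 := by simpa using Padic.norm_int_le_one (p := p) (q : ℤ)
      rw [norm_mul]
      exact (mul_le_of_le_one_left (norm_nonneg _) h3).trans ((hBξ i j).trans hc₁.le)
    refine ⟨δ.den * k, ?_⟩
    rw [hn₁def]
    push_cast
    rw [← hk]
    ring
  choose m hm using hint
  have hmC : ∀ i j, (m i j : ℂ) = (n₁ : ℂ) * (ξ i j : ℂ) := fun i j => by
    have := congrArg (fun z : ℚ => (z : ℂ)) (hm i j)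
    simpa using this.symm
  obtain ⟨B, hBZ⟩ : ∃ B : ℕ, (B : ℚ) = -((n₁ : ℚ) ^ 2 * Z) := by
    have h1 : (((excW Θ₂ (Matrix.of m) Θ₁ - 2 * n * (m 0 0 * m 1 1 - m 0 1 * m 1 0) : ℤ)) : ℚ) =
        (n₁ : ℚ) ^ 2 * Z := by
      rw [hZ, excW_eq, excW_eq, Matrix.det_fin_two]
      simp only [Matrix.map_apply, Matrix.of_apply]
      push_cast
      simp only [← hm]
      ring
    have h2 : (Z : ℝ) ≤ 0 := by rw [hZR, neg_nonpos]; positivity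
    have h3 : Z ≤ 0 := by exact_mod_cast h2
    have h4 : (n₁ : ℚ) ^ 2 * Z ≤ 0 := mul_nonpos_of_nonneg_of_nonpos (by positivity) h3
    rw [← h1] at h4
    have h5 : excW Θ₂ (Matrix.of m) Θ₁ - 2 * n * (m 0 0 * m 1 1 - m 0 1 * m 1 0) ≤ 0 := by
      exact_mod_cast h4
    obtain ⟨B, hB⟩ := Int.eq_ofNat_of_zero_le (neg_nonneg.2 h5)
    refine ⟨B, ?_⟩
    rw [← h1, ← Int.cast_neg, hB, Int.cast_natCast]
  have hBR : (B : ℝ) = -((n₁ : ℝ) ^ 2 * Z) := by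
    exact_mod_cast congrArg (fun z : ℚ => (z : ℝ)) hBZ
  have hBP : (B : ℚ_[p]) = -((n₁ : ℚ_[p]) ^ 2 * Z) := by
    exact_mod_cast congrArg (fun z : ℚ => (z : ℚ_[p])) hBZ
  have a1 := abs_le.1 (hB₁ 0 0)
  have a2 := abs_le.1 (hB₁ 0 1)
  have a3 := abs_le.1 (hB₁ 1 0)
  have a4 := abs_le.1 (hB₁ 1 1)
  have t1 : 0 ≤ (n₁ : ℝ) ^ 2 * (8 * R ^ 2) := by positivity
  have t2 : 0 ≤ (p : ℝ) ^ c₀ * (p : ℝ) ^ c₀ * (p ^ 4 * R ^ 2) := by positivity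
  have t3 : 0 ≤ (p : ℝ) ^ c₀ * p ^ 2 * R := by positivity
  set α₀ : ℂ := ((P.1 0 0 + P.1 1 1 : ℝ) : ℂ) + ((P.1 0 1 - P.1 1 0 : ℝ) : ℂ) * Complex.I with hα₀
  set β₀ : ℂ := ((P.1 0 0 - P.1 1 1 : ℝ) : ℂ) + ((-(P.1 0 1 + P.1 1 0) : ℝ) : ℂ) * Complex.I
    with hβ₀
  have nα : Complex.normSq (n₁ * α₀) =
      (n₁ : ℝ) ^ 2 * ((P.1 0 0 + P.1 1 1) ^ 2 + (P.1 0 1 - P.1 1 0) ^ 2) := by
    rw [map_mul, Complex.normSq_natCast, hα₀, Complex.normSq_add_mul_I]; ring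
  have nβ : Complex.normSq (n₁ * β₀) =
      (n₁ : ℝ) ^ 2 * ((P.1 0 0 - P.1 1 1) ^ 2 + (P.1 0 1 + P.1 1 0) ^ 2) := by
    rw [map_mul, Complex.normSq_natCast, hβ₀, Complex.normSq_add_mul_I]; ring
  rw [latG_K p k₁, latG_K p k₂]
  refine ⟨n₁ * α₀, n₁ * β₀, B, ?_, ?_, ?_, ?_, ?_, ?_, ?_, ?_⟩
  · rw [Nat.pos_iff_ne_zero]
    rintro rfl
    have hn1' : (n₁ : ℚ) ≠ 0 := by positivity
    rw [Nat.cast_zero, eq_comm, neg_eq_zero] at hBZ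
    exact mul_ne_zero (pow_ne_zero 2 hn1') hZ0 hBZ
  · intro z hz
    obtain ⟨x, y, rfl⟩ := mem_sp.1 hz
    have hs : ∀ w, rl (n₁ * α₀) (n₁ * β₀) w = n₁ * rl α₀ β₀ w := fun w => by
      simp only [rl]; ring
    rw [exc2_rl_add, hs, hs, exc2_col hH.1 0, exc2_col hH.1 1]
    refine mem_sp.2 ⟨2 * (x * m 0 0 + y * m 0 1), 2 * (x * m 1 0 + y * m 1 1), ?_⟩
    push_cast
    simp only [hmC]
    ring
  · rw [exc2_vol, exc2_vol, nβ, hBR, hZR]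
    have h1 : (0 : ℝ) ≤ -(D₁ : ℝ) := by exact_mod_cast (by omega : (0 : ℤ) ≤ -D₁)
    rw [← neg_mul_neg (D₁ : ℝ) D₂, Real.sqrt_mul h1]
    ring
  · rw [exc2_vol, exc2_vol, nα, nβ]
    rw [Matrix.det_fin_two] at hd1
    have h1 : (δ.num : ℝ) = δ * δ.den := by
      exact_mod_cast congrArg (fun z : ℚ => (z : ℝ)) (Rat.mul_den_eq_num δ).symm
    rw [hn₁def]
    push_cast
    rw [h1, ← hd1]
    ring
  · rw [exc2_vol, exc2_vol, nα, mul_one, mul_one]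
    have b1 : (P.1 0 0 + P.1 1 1) ^ 2 ≤ (2 * R) ^ 2 :=
      sq_le_sq' (by linarith [a1.1, a4.1]) (by linarith [a1.2, a4.2])
    have b2 : (P.1 0 1 - P.1 1 0) ^ 2 ≤ (2 * R) ^ 2 :=
      sq_le_sq' (by linarith [a2.1, a3.2]) (by linarith [a2.2, a3.1])
    refine le_trans (mul_le_mul_of_nonneg_left (?_ : _ ≤ 8 * R ^ 2) (by positivity)) (by linarith)
    linarith
  · rw [exc2_vol, exc2_vol, nβ, mul_one, mul_one]
    have b1 : (P.1 0 0 - P.1 1 1) ^ 2 ≤ (2 * R) ^ 2 :=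
      sq_le_sq' (by linarith [a1.1, a4.2]) (by linarith [a1.2, a4.1])
    have b2 : (P.1 0 1 + P.1 1 0) ^ 2 ≤ (2 * R) ^ 2 :=
      sq_le_sq' (by linarith [a2.1, a3.1]) (by linarith [a2.2, a3.2])
    refine le_trans (mul_le_mul_of_nonneg_left (?_ : _ ≤ 8 * R ^ 2) (by positivity)) (by linarith)
    linarith
  · have h3 : ‖(n₁ : ℚ_[p])‖ ≤ 1 := by simpa using Padic.norm_int_le_one (p := p) (n₁ : ℤ)
    rw [hBP, norm_neg, norm_mul, norm_pow]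
    calc ‖(n₁ : ℚ_[p])‖ ^ 2 * ‖(Z : ℚ_[p])‖ ≤ ‖(Z : ℚ_[p])‖ * (1 * 1) := by
          rw [mul_one, mul_one]
          exact mul_le_of_le_one_left (norm_nonneg _) (pow_le_one₀ (norm_nonneg _) h3)
      _ ≤ ‖(Z : ℚ_[p])‖ * (((p : ℝ) ^ c₀ * (‖(D₁ : ℚ_[p])‖ * (‖-e₁ * ρ₁‖ * (p : ℝ) ^ r) ^ 2)) *
          ((p : ℝ) ^ c₀ * (‖(D₂ : ℚ_[p])‖ * (‖-e₂ * ρ₂‖ * (p : ℝ) ^ r) ^ 2))) :=
          mul_le_mul_of_nonneg_left (mul_le_mul hC₁ hC₂ zero_le_one (by positivity))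
            (norm_nonneg _)
      _ = (p : ℝ) ^ c₀ * (p : ℝ) ^ c₀ * (‖(Z : ℚ_[p])‖ * ((‖-e₁ * ρ₁‖ * (p : ℝ) ^ r) ^ 2 *
          (‖-e₂ * ρ₂‖ * (p : ℝ) ^ r) ^ 2)) * (‖(D₁ : ℚ_[p])‖ * ‖(D₂ : ℚ_[p])‖) := by ring
      _ ≤ (p : ℝ) ^ c * (‖(D₁ : ℚ_[p])‖ * ‖(D₂ : ℚ_[p])‖) := by
          refine mul_le_mul_of_nonneg_right ?_ (by positivity)
          exact (mul_le_mul_of_nonneg_left hZP (by positivity)).trans (by linarith)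
      _ = _ := by ring
  · set η : Matrix (Fin 2) (Fin 2) ℚ := ξ + (n : ℚ)⁻¹ • (Θ₂.map (↑) * ξ * Θ₁.map (↑)) with hη
    have hP2 := exc2_hom fp₁ fp₂ hH.2 (((n : ℚ)⁻¹ : ℚ) : ℚ_[p])
    have hP1 := exc2_hom fr₁ fr₂ hH.1 (((n : ℚ)⁻¹ : ℚ) : ℝ)
    rw [← exc2_cast, ← hη] at hP1 hP2
    have hbd := exc2_bd p (D₁ := D₁) (D₂ := D₂) (Pi := n) (e₁ := e₁) (e₂ := e₂) (ρ₁ := ρ₁)
      (ρ₂ := ρ₂) (P := P.2) (T₁ := ‖-e₁ * ρ₁‖ * (p : ℝ) ^ r) (T₂ := ‖-e₂ * ρ₂‖ * (p : ℝ) ^ r)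
      (K := (p : ℝ) ^ c₀) hR (one_le_pow₀ hp1.le) (by positivity) (by positivity) he₁ he₂ r10 r20
      hn₁' hn₂' hn' (by exact_mod_cast n0) (Padic.norm_int_le_one n) hC₁ hC₂ hr₁ hr₂ hB0
      (by
        refine le_trans (le_of_eq ?_) hcc
        rw [norm_mul (-e₁ * ρ₁ * (-e₂ * ρ₂)), norm_mul (-e₁ * ρ₁)]
        ring)
    rw [Rat.cast_inv, Rat.cast_intCast] at hP1 hP2
    have hbη := exc2_bd_frame p k₁ k₂ hbd hP2
    obtain ⟨m', hm', hk⟩ := exc2_den p (Matrix.of fun i j => (p : ℚ) ^ c * η i j) fun i j => by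
      rw [Matrix.of_apply]
      push_cast
      exact exc2_pow p ((hbη i j).trans (by linarith))
    choose k hk using hk
    have hkC : ∀ i j, (k i j : ℂ) = (m' : ℂ) * ((p : ℂ) ^ c * (η i j : ℂ)) := fun i j => by
      have := congrArg (fun z : ℚ => (z : ℂ)) (hk i j)
      simpa using this.symm
    have hQ : P.1 + (n : ℝ)⁻¹ • (!![0, s₂; -s₂, 0] * P.1 * !![0, s₁; -s₁, 0]) =
        !![P.1 0 0 + P.1 1 1, P.1 0 1 - P.1 1 0; P.1 1 0 - P.1 0 1, P.1 0 0 + P.1 1 1] := by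
      conv_lhs => rw [Matrix.eta_fin_two P.1]
      rw [Matrix.mul_fin_two, Matrix.mul_fin_two, hnR]
      ext i j
      fin_cases i <;> fin_cases j <;> simp <;> field_simp <;> ring
    rw [hQ] at hP1
    have hcol : ∀ j, α₀ * ((g₁.1 0 j : ℂ) - g₁.1 1 j * Complex.I) =
        (η 0 j : ℂ) * ((g₂.1 0 0 : ℂ) - g₂.1 1 0 * Complex.I) +
          (η 1 j : ℂ) * ((g₂.1 0 1 : ℂ) - g₂.1 1 1 * Complex.I) := by
      intro j
      have h := exc2_col hP1 j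
      simp only [rl, Matrix.of_apply, Matrix.cons_val', Matrix.cons_val_zero, Matrix.cons_val_one,
        Matrix.cons_val_fin_one] at h
      rw [hα₀]
      push_cast at h ⊢
      linear_combination (1 / 2 : ℂ) * h
    refine ⟨m', hm', fun z hz => ?_⟩
    obtain ⟨x, y, rfl⟩ := mem_sp.1 hz
    refine mem_sp.2 ⟨n₁ * (x * k 0 0 + y * k 0 1), n₁ * (x * k 1 0 + y * k 1 1), ?_⟩
    push_cast
    simp only [hkC]
    linear_combination ((m' : ℂ) * (p : ℂ) ^ c * n₁ * x) * hcol 0 +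
      ((m' : ℂ) * (p : ℂ) ^ c * n₁ * y) * hcol 1

end Pool.Agent.EQ
end
end

-- part Pool.Agent.P.MP_ad7a55_nt.GalB
section

/-! Frobenius elements and the separation of the fields. -/

set_option autoImplicit false

noncomputable section

open MeasureTheory Topology Filter UpperHalfPlane
open scoped MatrixGroups ENNReal BoundedContinuousFunction

namespace Pool.Agent.EQ

theorem Acts.mul {σ σ' : ℂ ≃+* ℂ} {D : ℤ} {𝔨 𝔨' : Lt} (h : Acts σ D 𝔨) (h' : Acts σ' D 𝔨')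
    (h𝔨' : DiscL 𝔨' D) : Acts (σ * σ') D (𝔨 * 𝔨') := by
  intro Λ hΛ
  rw [RingAut.mul_apply, h' Λ hΛ, h _ (h𝔨'.mul hΛ le_rfl), mul_assoc]

theorem galb_cancel {D : ℤ} {𝔨 Λ : Lt} (h𝔨 : DiscL 𝔨 D) (hΛ : DiscL Λ D) :
    jL (𝔨 * (cj 𝔨 * Λ)) = jL Λ := by
  obtain ⟨c, hc, e⟩ := h𝔨.mul_cj
  rw [← mul_assoc, e, mul_assoc, hΛ.OD_mul, jL_pr_mul hΛ.isLat hc]

theorem galb_inv_apply (σ : ℂ ≃+* ℂ) (x : ℂ) : σ⁻¹ (σ x) = x := σ.symm_apply_apply x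

theorem galb_apply_inv (σ : ℂ ≃+* ℂ) (x : ℂ) : σ (σ⁻¹ x) = x := σ.apply_symm_apply x

theorem Acts.inv {σ : ℂ ≃+* ℂ} {D : ℤ} {𝔨 : Lt} (h : Acts σ D 𝔨) (h𝔨 : DiscL 𝔨 D) :
    Acts σ⁻¹ D (cj 𝔨) := by
  intro Λ hΛ
  have h1 := h _ (h𝔨.cj.mul hΛ le_rfl)
  rw [galb_cancel h𝔨 hΛ] at h1
  rw [← h1, galb_inv_apply]

theorem galb_common {α : Type} {S : Set α} (hS : S.Finite) (P : α → ℕ → Prop)
    (hmul : ∀ x n m, P x n → P x (n * m)) (h : ∀ x ∈ S, ∃ n, 0 < n ∧ P x n) :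
    ∃ n, 0 < n ∧ ∀ x ∈ S, P x n := by
  induction S, hS using Set.Finite.induction_on with
  | empty => exact ⟨1, one_pos, fun x hx => hx.elim⟩
  | @insert a S _ _ ih =>
    obtain ⟨n, hn, h1⟩ := ih fun x hx => h x (Set.mem_insert_of_mem _ hx)
    obtain ⟨m, hm, h2⟩ := h a (Set.mem_insert _ _)
    refine ⟨n * m, Nat.mul_pos hn hm, ?_⟩
    rintro x (rfl | hx)
    · rw [mul_comm]; exact hmul _ _ _ h2
    · exact hmul _ _ _ (h1 x hx)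

theorem galb_abs {n : ℤ} {x : ℂ} (h : IsIntegral ℤ ((n : ℂ) * x)) :
    IsIntegral ℤ ((n.natAbs : ℂ) * x) := by
  rcases Int.natAbs_eq n with e | e
  · have : (n.natAbs : ℂ) = n := by rw [e]; simp
    rwa [this]
  · have : (n.natAbs : ℂ) = -n := by rw [e]; simp
    rw [this, neg_mul]
    exact h.neg

theorem galb_mult {x : ℂ} (hx : IsAlgebraic ℚ x) : ∃ n : ℕ, 0 < n ∧ IsIntegral ℤ ((n : ℂ) * x) := by
  obtain ⟨y, hy, h⟩ := ((IsFractionRing.isAlgebraic_iff ℤ ℚ ℂ).2 hx).exists_integral_multiple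
  refine ⟨y.natAbs, Int.natAbs_pos.2 hy, galb_abs ?_⟩
  rwa [zsmul_eq_mul] at h

theorem galb_mults {S : Set ℂ} (hS : S.Finite) (h : ∀ x ∈ S, IsAlgebraic ℚ x) :
    ∃ n : ℕ, 0 < n ∧ ∀ x ∈ S, IsIntegral ℤ ((n : ℂ) * x) :=
  galb_common hS (fun x n => IsIntegral ℤ ((n : ℂ) * x)) (fun x n m h1 => by
    have : ((n * m : ℕ) : ℂ) * x = (m : ℂ) * ((n : ℂ) * x) := by push_cast; ring
    rw [this]
    exact (isIntegral_natCast m).mul h1) fun x hx => galb_mult (h x hx)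

theorem galb_th_int {D : ℤ} (hD : D ≤ 0) : IsIntegral ℤ (th D) := by
  refine IsIntegral.of_pow two_pos ?_
  rw [th_sq hD]
  exact isIntegral_intCast D

theorem galb_th_im {D : ℤ} (hD : D < 0) : (th D).im ≠ 0 := by
  have h : (0 : ℝ) < -(D : ℝ) := by exact_mod_cast neg_pos.2 hD
  simpa [th] using (Real.sqrt_pos.2 h).ne'

theorem galb_nb_alg {D : ℤ} {q : ℕ} (hq : q.Prime) {Λ Λ' : Lt} (hΛ : DiscL Λ D) (h : Nb q Λ Λ') :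
    IsAlgebraic ℚ (jL Λ') := by
  have hx : ((q : ℂ) * th D).im ≠ 0 := by
    simpa [hq.ne_zero] using galb_th_im hΛ.isD.1
  obtain ⟨D', h'⟩ := exists_discL (h.isLat hq hΛ.isLat) hx (pr_mul_le.2 fun w hw => by
    have h1 := pr_mul_le.1 ((hΛ.end_iff _).2 (th_mem_OD D)) w (h.2.le hw)
    rw [mul_assoc]
    exact pr_mul_le.1 h.1.le _ h1)
  exact h'.algebraic

/-- The Frobenius element fixes the square root of the discriminant. -/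
theorem galb_frob_th {D : ℤ} (hD : D < 0) {q : ℕ} {𝔮 : Lt} (h : PrI D q 𝔮)
    {𝔔 : Ideal (integralClosure ℤ ℂ)} (h𝔔 : 𝔔.IsPrime)
    (hn : ∀ n : ℤ, (n : integralClosure ℤ ℂ) ∈ 𝔔 ↔ (q : ℤ) ∣ n) {σ : ℂ ≃+* ℂ}
    (hσ : ∀ b : integralClosure ℤ ℂ, (b : ℂ) = σ (th D) →
      b - (⟨th D, galb_th_int hD.le⟩ : integralClosure ℤ ℂ) ^ q ∈ 𝔔) : σ (th D) = th D := by
  obtain ⟨hq, hq2, b, hb, -⟩ := h
  refine (aut_th σ hD.le).resolve_right fun hneg => hq2 ?_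
  set t : integralClosure ℤ ℂ := ⟨th D, galb_th_int hD.le⟩ with ht
  have h1 : -t - t ^ q ∈ 𝔔 := hσ (-t) (by rw [hneg]; rfl)
  have hsq : t ^ 2 = (D : integralClosure ℤ ℂ) := Subtype.ext (by simpa [ht] using th_sq hD.le)
  have key : ∀ c : ℤ, t - c ∈ 𝔔 → t ^ q - t ∈ 𝔔 := fun c hc => by
    have h2 : t ^ q - (c : integralClosure ℤ ℂ) ^ q ∈ 𝔔 :=
      Ideal.mem_of_dvd _ (sub_dvd_pow_sub_pow _ _ _) hc
    have h3 := (hn _).2 (Int.prime_dvd_pow_self_sub hq c)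
    push_cast at h3
    have e : t ^ q - t = (t ^ q - (c : integralClosure ℤ ℂ) ^ q) +
      ((c : integralClosure ℤ ℂ) ^ q - c) - (t - c) := by ring
    rw [e]
    exact 𝔔.sub_mem (𝔔.add_mem h2 h3) hc
  have h4 : (t - b) * (t - (-b : ℤ)) ∈ 𝔔 := by
    have h5 := (hn _).2 ((Dvd.intro_left _ rfl).trans hb)
    have e : (t - b) * (t - (-b : ℤ)) = -((b ^ 2 - D : ℤ) : integralClosure ℤ ℂ) := by
      push_cast
      rw [← hsq]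
      ring
    rw [e]
    exact 𝔔.neg_mem h5
  have h6 : t ^ q - t ∈ 𝔔 := (h𝔔.mem_or_mem h4).elim (key _) (key _)
  rw [← hn]
  have e : ((2 * D : ℤ) : integralClosure ℤ ℂ) = -t * ((-t - t ^ q) + (t ^ q - t)) := by
    push_cast
    rw [← hsq]
    ring
  rw [e]
  exact 𝔔.mul_mem_left _ (𝔔.add_mem h1 h6)

theorem frob_acts {D : ℤ} (hD : D < -576) : ∃ N : ℕ, 0 < N ∧ ∀ q 𝔮, PrI D q 𝔮 → ¬ q ∣ N →
    ∃ σ : ℂ ≃+* ℂ, σ (th D) = th D ∧ Acts σ D 𝔮 := by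
  classical
  have hD0 : D < 0 := by omega
  set J : Set ℂ := {z | ∃ Λ, DiscL Λ D ∧ jL Λ = z} with hJ
  have hJf : J.Finite := finite_disc D
  have hJa : ∀ x ∈ J, IsAlgebraic ℚ x := by
    rintro x ⟨Λ, hΛ, rfl⟩
    exact hΛ.algebraic
  obtain ⟨M, hM, hMi⟩ := galb_mults hJf hJa
  obtain ⟨N, hN, hNi⟩ := galb_mults ((hJf.prod hJf).image fun z => (z.1 - z.2)⁻¹) (by
    rintro x ⟨z, hz, rfl⟩
    exact ((hJa _ hz.1).sub (hJa _ hz.2)).inv)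
  refine ⟨M * N, Nat.mul_pos hM hN, fun q 𝔮 h hq => ?_⟩
  have hqp : q.Prime := h.1
  have h𝔮 : DiscL 𝔮 D := h.discL hD0
  have hO : DiscL (OD D) D := discL_OD h𝔮.isD
  have hJm : ∀ Λ, DiscL Λ D → jL Λ ∈ J := fun Λ hΛ => ⟨Λ, hΛ, rfl⟩
  let el : ∀ Λ, DiscL Λ D → integralClosure ℤ ℂ := fun Λ hΛ => ⟨M * jL Λ, hMi _ (hJm Λ hΛ)⟩
  obtain ⟨𝔔, σ, h𝔔, hn, hσ⟩ := exists_frob hqp {⟨th D, galb_th_int hD0.le⟩, el _ hO, el _ h𝔮}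
  have hth : σ (th D) = th D := galb_frob_th hD0 h h𝔔 hn fun b hb => hσ _ (by simp) b hb
  obtain ⟨𝔨, h𝔨, hact⟩ := exists_acts hD h𝔮.isD hth
  have hsep : ∀ Λ (hΛ : DiscL Λ D) Λ' (hΛ' : DiscL Λ' D), el Λ hΛ - el Λ' hΛ' ∈ 𝔔 →
      jL Λ = jL Λ' := by
    intro Λ hΛ Λ' hΛ' hm
    by_contra hne
    have h1 := hNi _ ⟨(jL Λ, jL Λ'), ⟨hJm Λ hΛ, hJm Λ' hΛ'⟩, rfl⟩
    have h2 := 𝔔.mul_mem_left ⟨_, h1⟩ hm
    have e : (⟨_, h1⟩ : integralClosure ℤ ℂ) * (el Λ hΛ - el Λ' hΛ') =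
        (((M * N : ℕ) : ℤ) : integralClosure ℤ ℂ) := by
      apply Subtype.ext
      have h3 : jL Λ - jL Λ' ≠ 0 := sub_ne_zero.2 hne
      show (N : ℂ) * (jL Λ - jL Λ')⁻¹ * (M * jL Λ - M * jL Λ') = _
      push_cast
      field_simp
    rw [e, hn] at h2
    exact hq (Int.natCast_dvd_natCast.1 h2)
  have hfr : ∀ Λ (hΛ : DiscL Λ D), el Λ hΛ ∈ ({⟨th D, galb_th_int hD0.le⟩, el _ hO, el _ h𝔮} :
      Finset (integralClosure ℤ ℂ)) → el _ (h𝔨.mul hΛ le_rfl) - el Λ hΛ ^ q ∈ 𝔔 := by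
    intro Λ hΛ hm
    refine hσ _ hm _ ?_
    show (M : ℂ) * jL (𝔨 * Λ) = σ (M * jL Λ)
    rw [map_mul, map_natCast, hact Λ hΛ]
  have hnb : Nb q (OD D) 𝔮 := by
    have := h.nb hO
    rwa [mul_comm, h𝔮.OD_mul] at this
  have hk := kron hqp hO.isLat hnb (fun Λ'' h'' => galb_nb_alg hqp hO h'') hM (hMi _ (hJm _ hO))
  obtain ⟨r, rfl⟩ : ∃ r, q = r + 1 := ⟨q - 1, by have := hqp.pos; omega⟩
  set a := el _ hO with ha
  set a' := el _ h𝔮 with ha'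
  have hMq : ¬ ((r + 1 : ℕ) : ℤ) ∣ (M : ℤ) := fun h1 =>
    hq ((Int.natCast_dvd_natCast.1 h1).mul_right _)
  have hMQ : ((M : ℤ) : integralClosure ℤ ℂ) ∉ 𝔔 := fun h1 => hMq ((hn _).1 h1)
  have hM1 : ((M : ℤ) : integralClosure ℤ ℂ) ^ r - 1 ∈ 𝔔 := by
    have h1 := (hn _).2 (Int.prime_dvd_pow_self_sub hqp M)
    have e : (((M : ℤ) ^ (r + 1) - M : ℤ) : integralClosure ℤ ℂ) =
        ((M : ℤ) : integralClosure ℤ ℂ) * (((M : ℤ) : integralClosure ℤ ℂ) ^ r - 1) := by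
      push_cast
      ring
    rw [e] at h1
    exact (h𝔔.mem_or_mem h1).resolve_left hMQ
  have hprod : ((M : ℤ) : integralClosure ℤ ℂ) ^ ((r + 1) * r) *
      ((((M : ℤ) : integralClosure ℤ ℂ) ^ r * a' - a ^ (r + 1)) *
        (a' ^ (r + 1) - ((M : ℤ) : integralClosure ℤ ℂ) ^ r * a)) ∈ 𝔔 := by
    have h1 := 𝔔.mul_mem_left ⟨_, hk⟩ ((hn _).2 dvd_rfl)
    convert h1 using 1
    apply Subtype.ext
    have h3 : ((r + 1 : ℕ) : ℂ) ≠ 0 := Nat.cast_ne_zero.2 hqp.ne_zero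
    show (((M : ℤ) : ℂ)) ^ ((r + 1) * r) * ((((M : ℤ) : ℂ) ^ r * (M * jL 𝔮) - (M * jL (OD D)) ^ (r + 1)) *
      ((M * jL 𝔮) ^ (r + 1) - ((M : ℤ) : ℂ) ^ r * (M * jL (OD D)))) =
      (M : ℂ) ^ ((r + 1) ^ 2 + (r + 1)) * ((jL 𝔮 - jL (OD D) ^ (r + 1)) *
        (jL 𝔮 ^ (r + 1) - jL (OD D)) / ((r + 1 : ℕ) : ℂ)) * (((r + 1 : ℕ) : ℤ) : ℂ)
    rw [Int.cast_natCast, Int.cast_natCast, mul_assoc _ (_ / _), div_mul_cancel₀ _ h3]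
    ring
  have h5 := (h𝔔.mem_or_mem hprod).resolve_left fun h1 => hMQ (h𝔔.mem_of_pow_mem _ h1)
  rcases h𝔔.mem_or_mem h5 with h6 | h6
  · have h7 := hfr _ hO (by simp [ha])
    have h8 := hsep _ (h𝔨.mul hO le_rfl) _ h𝔮 (by
      have e : el _ (h𝔨.mul hO le_rfl) - a' = (el _ (h𝔨.mul hO le_rfl) - a ^ (r + 1)) -
        (((M : ℤ) : integralClosure ℤ ℂ) ^ r * a' - a ^ (r + 1)) +
        (((M : ℤ) : integralClosure ℤ ℂ) ^ r - 1) * a' := by ring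
      rw [← ha', e]
      exact 𝔔.add_mem (𝔔.sub_mem h7 h6) (𝔔.mul_mem_right _ hM1))
    exact ⟨σ, hth, acts_of_OD hD hth h𝔮 ((hact _ hO).trans h8)⟩
  · have h7 := hfr _ h𝔮 (by simp [ha'])
    have h8 := hsep _ (h𝔨.mul h𝔮 le_rfl) _ hO (by
      have e : el _ (h𝔨.mul h𝔮 le_rfl) - a = (el _ (h𝔨.mul h𝔮 le_rfl) - a' ^ (r + 1)) +
        (a' ^ (r + 1) - ((M : ℤ) : integralClosure ℤ ℂ) ^ r * a) +
        (((M : ℤ) : integralClosure ℤ ℂ) ^ r - 1) * a := by ring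
      rw [← ha, e]
      exact 𝔔.add_mem (𝔔.add_mem h7 h6) (𝔔.mul_mem_right _ hM1))
    have hth' : σ⁻¹ (th D) = th D := by
      conv_lhs => rw [← hth]
      exact galb_inv_apply _ _
    refine ⟨σ⁻¹, hth', acts_of_OD hD hth' h𝔮 ?_⟩
    rw [← h8, ← hact _ h𝔮, galb_inv_apply]

/-- Every invertible module is realised by an automorphism. -/
theorem acts_surj {D : ℤ} (hD : D < -576) {𝔞 : Lt} (h : DiscL 𝔞 D) :
    ∃ σ : ℂ ≃+* ℂ, σ (th D) = th D ∧ Acts σ D 𝔞 := by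
  obtain ⟨N, hN, hf⟩ := frob_acts hD
  refine fac hN (fun 𝔟 => ∃ σ : ℂ ≃+* ℂ, σ (th D) = th D ∧ Acts σ D 𝔟) ?_ ?_ ?_ h
  · exact ⟨1, rfl, fun Λ hΛ => by rw [hΛ.OD_mul]; rfl⟩
  · rintro 𝔟 c hc h𝔟 ⟨σ, h1, h2⟩
    refine ⟨σ, h1, fun Λ hΛ => ?_⟩
    rw [h2 Λ hΛ, mul_assoc, jL_pr_mul (h𝔟.mul hΛ le_rfl).isLat hc]
  · rintro 𝔟 q 𝔮 h𝔮 hq h𝔟 ⟨σ, h1, h2⟩
    obtain ⟨σ', h3, h4⟩ := hf q 𝔮 h𝔮 hq
    exact ⟨σ' * σ, by rw [RingAut.mul_apply, h1, h3], h4.mul h2 h𝔟⟩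

theorem galb_disc_pow {D : ℤ} {𝔟 : Lt} (h : DiscL 𝔟 D) {n : ℕ} (hn : 0 < n) : DiscL (𝔟 ^ n) D := by
  obtain ⟨n, rfl⟩ : ∃ m, n = m + 1 := ⟨n - 1, by omega⟩
  clear hn
  induction n with
  | zero => rwa [zero_add, pow_one]
  | succ n ih => rw [pow_succ]; exact ih.mul h le_rfl

theorem galb_acts_pow {σ : ℂ ≃+* ℂ} {D : ℤ} {𝔟 : Lt} (h : Acts σ D 𝔟) (h𝔟 : DiscL 𝔟 D) (n : ℕ) :
    Acts (σ ^ n) D (𝔟 ^ n) := by
  induction n with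
  | zero => exact fun Λ _ => by rw [pow_zero, pow_zero, one_mul]; rfl
  | succ n ih => rw [pow_succ, pow_succ]; exact ih.mul h h𝔟

theorem galb_move (σ : ℂ ≃+* ℂ) {D : ℤ} (hD : D < -576) {Λ : Lt} (h : DiscL Λ D) :
    ∃ Λ₁, DiscL Λ₁ D ∧ jL Λ₁ = σ (jL Λ) := by
  obtain ⟨M, hM, hj⟩ := jL_surj (σ (jL Λ))
  exact ⟨M, disc_gal σ hD h hM hj, hj⟩

/-- Killing the action on the other fields. -/
theorem separate {d : ℕ} (hd : 2 ≤ d) {D : ℤ} (hD : D < -576) (T : Finset ℤ)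
    (hT : ∀ D' ∈ T, D' < -576 ∧ IsD D' ∧ ¬ IsSquare (D' * D)) {σ : ℂ ≃+* ℂ} (hσ : FixD d σ)
    {𝔟 : Lt} (h𝔟 : DiscL 𝔟 D) (h : Acts σ D 𝔟) :
    ∃ σ' : ℂ ≃+* ℂ, FixD d σ' ∧ Acts σ' D (𝔟 ^ 2 ^ T.card) ∧
      ∀ D' ∈ T, ∀ Λ, DiscL Λ D' → σ' (jL Λ) = jL Λ := by
  induction T using Finset.induction_on with
  | empty => exact ⟨σ, hσ, by simpa using h, by simp⟩
  | insert D' T hD' ih =>
    obtain ⟨ρ, hρ, h1, h2⟩ := ih fun D'' h'' => hT D'' (Finset.mem_insert_of_mem h'')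
    obtain ⟨h3, h4, h5⟩ := hT D' (Finset.mem_insert_self _ _)
    obtain ⟨τ, hτ, hτ'⟩ := exists_tau (by omega : D < 0) h4.1 h5
    have h𝔠 : DiscL (𝔟 ^ 2 ^ T.card) D := galb_disc_pow h𝔟 (by positivity)
    refine ⟨ρ * (τ * ρ * τ⁻¹), hρ.mul (hρ.conj τ), ?_, ?_⟩
    · obtain ⟨𝔱, h𝔱, ht⟩ := exists_acts hD h𝔟.isD hτ
      rw [Finset.card_insert_of_notMem hD', pow_succ, pow_mul, sq]
      refine h1.mul (fun Λ hΛ => ?_) h𝔠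
      rw [((ht.mul h1 h𝔠).mul (ht.inv h𝔱) h𝔱.cj) Λ hΛ,
        ← galb_cancel h𝔱 (h𝔠.mul hΛ le_rfl)]
      congr 1
      ring
    · intro D'' h'' Λ hΛ
      simp only [RingAut.mul_apply]
      rcases Finset.mem_insert.1 h'' with rfl | h''
      · obtain ⟨Λ₁, h6, h7⟩ := galb_move τ⁻¹ h3 hΛ
        obtain ⟨𝔨, h𝔨, hk⟩ := exists_acts h3 h4 (hρ.th hd h4.1.le)
        obtain ⟨𝔪, h𝔪, hm⟩ := exists_anti h3 h4 hτ'
        have h8 : jL Λ = jL (𝔪 * cj Λ₁) := by rw [← hm _ h6, h7, galb_apply_inv]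
        have h9 := h𝔨.mul h6 le_rfl
        rw [← h7, hk _ h6, hm _ h9, hk _ (h𝔪.mul h9.cj le_rfl), h8, cj_mul,
          ← galb_cancel h𝔨 (h𝔪.mul h6.cj le_rfl)]
        congr 1
        ring
      · obtain ⟨Λ₁, h6, h7⟩ := galb_move τ⁻¹ (hT D'' (Finset.mem_insert_of_mem h'')).1 hΛ
        rw [← h7, h2 D'' h'' _ h6, h7, galb_apply_inv, h2 D'' h'' _ hΛ]

theorem realize {d : ℕ} (hd : 2 ≤ d) {D : ℤ} (hD : D < -576) (T : Finset ℤ)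
    (hT : ∀ D' ∈ T, D' < -576 ∧ IsD D' ∧ ¬ IsSquare (D' * D)) {𝔞 : Lt} (h𝔞 : DiscL 𝔞 D) :
    ∃ σ : ℂ ≃+* ℂ, FixD d σ ∧ Acts σ D (𝔞 ^ (d.factorial * 2 ^ T.card)) ∧
      ∀ D' ∈ T, ∀ Λ, DiscL Λ D' → σ (jL Λ) = jL Λ := by
  obtain ⟨σ, -, h⟩ := acts_surj hD h𝔞
  rw [pow_mul]
  exact separate hd hD T hT (fixD_pow d σ) (galb_disc_pow h𝔞 d.factorial_pos)
    (galb_acts_pow h h𝔞 _)

end Pool.Agent.EQ
end
end

-- part Pool.Agent.P.MP_ad7a55_nt.SgF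
section

/-! The lower bound for class numbers. -/

set_option autoImplicit false

noncomputable section

open MeasureTheory Topology Filter UpperHalfPlane
open scoped MatrixGroups ENNReal BoundedContinuousFunction

namespace Pool.Agent.EQ

/-- The integral ideals of bounded norm in one class. -/
theorem sf_class {D : ℤ} {Λ : Lt} (h : DiscL Λ D) {N : ℕ} (hN : 1 ≤ N) (T : Finset Lt)
    (hT : ∀ 𝔞 ∈ T, jL 𝔞 = jL Λ ∧ ∃ n ≤ N, 𝔞 ∈ Idl D n) :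
    (T.card : ℝ) ≤ 18 / Real.sqrt (-(D : ℝ)) * N + 18 * Real.sqrt N := by
  have hν := h.nm_pos
  have hc : nm D (cj Λ) = nm D Λ := nm_cj h.isLat D
  obtain ⟨hfin, hcard⟩ := card_pts h.cj.isLat hν (fun z hz hz0 => by
    obtain ⟨n, hn⟩ := h.cj.normSq_nat hz
    rw [hc] at hn
    have h1 : (1 : ℝ) ≤ n := by
      rcases Nat.eq_zero_or_pos n with rfl | h1
      · exact absurd (Complex.normSq_eq_zero.1 (by simpa using hn)) hz0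
      · exact_mod_cast h1
    nlinarith) (Y := N * nm D Λ) (by positivity)
  have hsub : (T : Set Lt) ⊆ (fun w : ℂ => pr (w / nm D Λ) * Λ) ''
      {z | z ∈ cj Λ ∧ Complex.normSq z ≤ N * nm D Λ} := by
    intro 𝔞 ha
    obtain ⟨hj, n, hn, hd, hle, hnm⟩ := hT 𝔞 ha
    obtain ⟨c, hc0, rfl⟩ := jL_inj h.isLat hd.isLat hj.symm
    have hν' : (nm D Λ : ℂ) ≠ 0 := by exact_mod_cast hν.ne'
    refine ⟨c * nm D Λ, ⟨?_, ?_⟩, by simp only [mul_div_cancel_right₀ _ hν']⟩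
    · have h1 : pr c * (pr (nm D Λ) * OD D) ≤ cj Λ := by
        rw [← h.mul_cj_nm, ← mul_assoc]
        exact (mul_le_mul_left hle _).trans h.cj.OD_mul.le
      exact h1 (mem_pr_mul.2 ⟨nm D Λ, mem_pr_mul.2 ⟨1, one_mem_OD D, mul_one _⟩, rfl⟩)
    · rw [nm_pr_mul h.isLat D hc0] at hnm
      have h1 : (n : ℝ) ≤ N := by exact_mod_cast hn
      rw [map_mul, Complex.normSq_ofReal, ← mul_assoc, hnm]
      exact mul_le_mul_of_nonneg_right h1 hν.le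
  have h1 : T.card ≤ {z | z ∈ cj Λ ∧ Complex.normSq z ≤ N * nm D Λ}.ncard := by
    rw [← Set.ncard_coe_finset]
    exact (Set.ncard_le_ncard hsub (hfin.image _)).trans (Set.ncard_image_le hfin)
  have hv := vol_pos h.isLat
  have h2 : N * nm D Λ / vol (cj Λ) = 2 / Real.sqrt (-(D : ℝ)) * N := by
    rw [h.isLat.cj.2, nm]
    field_simp
  have h3 : (1 : ℝ) ≤ Real.sqrt N := Real.one_le_sqrt.2 (by exact_mod_cast hN)
  rw [mul_div_cancel_right₀ _ hν.ne', h2] at hcard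
  have h4 : (T.card : ℝ) ≤ _ := le_trans (by exact_mod_cast h1) hcard
  have h5 : 18 / Real.sqrt (-(D : ℝ)) * N = 9 * (2 / Real.sqrt (-(D : ℝ)) * N) := by ring
  linarith

theorem sum_Idl_le {D : ℤ} (hD : IsD D) (N : ℕ) :
    ∑ n ∈ Finset.Icc 1 N, ((Idl D n).ncard : ℝ) ≤
      18 * (Cl D).ncard / Real.sqrt (-(D : ℝ)) * N + 18 * (Cl D).ncard * Real.sqrt N := by
  classical
  have _ := hD
  rcases Nat.eq_zero_or_pos N with rfl | hN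
  · simp
  have h1 : ((Finset.Icc 1 N).biUnion fun n => (Idl_finite D n).toFinset).card =
      ∑ n ∈ Finset.Icc 1 N, (Idl D n).ncard := by
    rw [Finset.card_biUnion]
    · exact Finset.sum_congr rfl fun n _ => (Set.ncard_eq_toFinset_card _ _).symm
    · intro m _ n _ hmn
      rw [Function.onFun, Finset.disjoint_left]
      intro 𝔞 hm hn
      rw [Set.Finite.mem_toFinset] at hm hn
      exact hmn (by exact_mod_cast hm.2.2.symm.trans hn.2.2)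
  have hm : ∀ 𝔞 ∈ (Finset.Icc 1 N).biUnion fun n => (Idl_finite D n).toFinset,
      ∃ n ≤ N, 𝔞 ∈ Idl D n := fun 𝔞 ha => by
    obtain ⟨n, hn, ha⟩ := Finset.mem_biUnion.1 ha
    exact ⟨n, (Finset.mem_Icc.1 hn).2, (Set.Finite.mem_toFinset _).1 ha⟩
  generalize ((Finset.Icc 1 N).biUnion fun n => (Idl_finite D n).toFinset) = T at h1 hm
  have h2 := Finset.card_eq_sum_card_fiberwise (f := jL) (s := T) (t := (Cl_finite D).toFinset)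
    fun 𝔞 ha => by
      obtain ⟨n, -, hn⟩ := hm 𝔞 ha
      exact (Set.Finite.mem_toFinset _).2 ⟨𝔞, hn.1, rfl⟩
  rw [← Nat.cast_sum, ← h1, h2, Nat.cast_sum]
  calc ∑ z ∈ (Cl_finite D).toFinset, (({𝔞 ∈ T | jL 𝔞 = z} : Finset Lt).card : ℝ)
      ≤ ∑ _z ∈ (Cl_finite D).toFinset, (18 / Real.sqrt (-(D : ℝ)) * N + 18 * Real.sqrt N) := by
        refine Finset.sum_le_sum fun z hz => ?_
        obtain ⟨Λ, hΛ, rfl⟩ := (Set.Finite.mem_toFinset _).1 hz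
        exact sf_class hΛ hN _ fun 𝔞 ha =>
          ⟨(Finset.mem_filter.1 ha).2, hm 𝔞 (Finset.mem_filter.1 ha).1⟩
    _ = _ := by
        rw [Finset.sum_const, nsmul_eq_mul, ← Set.ncard_eq_toFinset_card _ (Cl_finite D)]
        ring

/-- A product of two L-functions is bounded by a series with bigger coefficients. -/
theorem sf_prod {q : ℕ} [NeZero q] (χ ψ : DirichletCharacter ℂ q) (a : ℕ → ℝ)
    (ha : ∀ n : ℕ, 0 < n → ‖∑ x ∈ n.divisorsAntidiagonal, χ x.1 * ψ x.2‖ ≤ a n) {s B : ℝ}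
    (hs : 1 < s) (hB : ∀ N : ℕ, ∑ n ∈ Finset.Icc 1 N, a n * (n : ℝ) ^ (-s) ≤ B) :
    ‖χ.LFunction s * ψ.LFunction s‖ ≤ B := by
  have hs' : 1 < (s : ℂ).re := by simpa using hs
  have h1 := (ZMod.LSeriesSummable_of_one_lt_re χ hs').LSeriesHasSum.convolution
    (ZMod.LSeriesSummable_of_one_lt_re ψ hs').LSeriesHasSum
  rw [χ.LFunction_eq_LSeries hs', ψ.LFunction_eq_LSeries hs']
  refine le_of_tendsto' (h1.tendsto_sum_nat.comp (tendsto_add_atTop_nat 1)).norm fun N => ?_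
  refine (norm_sum_le _ _).trans (le_trans ?_ (hB N))
  rw [Finset.sum_range_succ', LSeries.term_zero, norm_zero, add_zero, Finset.range_eq_Ico,
    Finset.sum_Ico_add' (fun n => ‖LSeries.term _ (s : ℂ) n‖), zero_add]
  refine Finset.sum_le_sum fun n hn => ?_
  have hn' : 0 < n := (Finset.mem_Ico.1 hn).1
  rw [LSeries.norm_term_eq, if_neg hn'.ne', Complex.ofReal_re, LSeries.convolution_def,
    Real.rpow_neg (Nat.cast_nonneg _), div_eq_mul_inv]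
  exact mul_le_mul_of_nonneg_right (ha n hn') (by positivity)

/-- The residue at one. -/
theorem sf_res {q : ℕ} [NeZero q] {ψ : DirichletCharacter ℂ q} (hψ : ψ ≠ 1) {α β : ℝ}
    (h : ∀ s : ℝ, 1 < s → s ≤ 2 → ‖(1 : DirichletCharacter ℂ q).LFunction s * ψ.LFunction s‖ ≤
      α / (s - 1) + β) : ‖ψ.LFunction 1‖ ≤ q.divisors.card * α := by
  have ht0 : Tendsto (fun y : ℝ => (y : ℂ)) (𝓝[>] 1) (𝓝 1) := by
    have := (Complex.continuous_ofReal.tendsto 1).mono_left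
      (nhdsWithin_le_nhds (s := Set.Ioi 1))
    simpa using this
  have ht : Tendsto (fun y : ℝ => (y : ℂ)) (𝓝[>] 1) (𝓝[≠] 1) := by
    refine tendsto_nhdsWithin_iff.2 ⟨ht0, ?_⟩
    filter_upwards [self_mem_nhdsWithin] with y hy
    simp only [Set.mem_compl_iff, Set.mem_singleton_iff]
    exact_mod_cast (ne_of_gt hy)
  have h1 := (((DirichletCharacter.LFunctionTrivChar_residue_one (N := q)).comp ht).mul
    (((DirichletCharacter.differentiable_LFunction hψ).continuous.tendsto 1).comp ht0)).norm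
  have h2 : Tendsto (fun s : ℝ => α + β * (s - 1)) (𝓝[>] 1) (𝓝 α) := by
    have : Continuous fun s : ℝ => α + β * (s - 1) := by fun_prop
    simpa using (this.tendsto 1).mono_left (nhdsWithin_le_nhds (s := Set.Ioi 1))
  have h3 := le_of_tendsto_of_tendsto h1 h2 (by
    filter_upwards [Ioc_mem_nhdsGT (show (1 : ℝ) < 2 by norm_num)] with s hs
    have h4 : 0 < s - 1 := by linarith [hs.1]
    have h5 : ‖(s : ℂ) - 1‖ = s - 1 := by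
      rw [← Complex.ofReal_one, ← Complex.ofReal_sub, Complex.norm_real, Real.norm_of_nonneg h4.le]
    simp only [Function.comp]
    rw [mul_assoc, norm_mul, h5]
    refine (mul_le_mul_of_nonneg_left (h s hs.1 hs.2) h4.le).trans_eq ?_
    field_simp)
  have h4 := euler_lower (NeZero.pos q) (fun _ => 1) fun _ => norm_one.le
  simp only [one_mul, Complex.cpow_neg_one] at h4
  rw [norm_mul] at h3
  calc ‖ψ.LFunction 1‖ ≤ q.divisors.card * ‖∏ l ∈ q.primeFactors, (1 - (l : ℂ)⁻¹)‖ *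
        ‖ψ.LFunction 1‖ := le_mul_of_one_le_left (norm_nonneg _) h4
    _ ≤ _ := by
        rw [mul_assoc]
        exact mul_le_mul_of_nonneg_left h3 (Nat.cast_nonneg _)

theorem class_lower {ε : ℝ} (hε : 0 < ε) : ∃ c : ℝ, 0 < c ∧ ∀ D : ℤ, IsD D →
    c * (-(D : ℝ)) ^ (1 / 2 - ε) ≤ (Cl D).ncard := by
  obtain ⟨c, hc, hS⟩ := siegel (half_pos hε)
  obtain ⟨C, hC, hd⟩ := div_bound (half_pos hε)
  refine ⟨c / (108 * C * 4 ^ ε), by positivity, fun D hD => ?_⟩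
  obtain ⟨χ, hχ, hχ2, hl⟩ := exists_chi hD.1
  have hq : 0 < 4 * D.natAbs := Nat.mul_pos (by norm_num) (Int.natAbs_pos.2 hD.1.ne)
  have : NeZero (4 * D.natAbs) := ⟨hq.ne'⟩
  have hD0 : (0 : ℝ) < -(D : ℝ) := by
    have : (D : ℝ) < 0 := by exact_mod_cast hD.1
    linarith
  have hqD : ((4 * D.natAbs : ℕ) : ℝ) = 4 * -(D : ℝ) := by
    rw [Nat.cast_mul, Nat.cast_natAbs, abs_of_neg hD.1]
    push_cast
    ring
  have hs := Real.sqrt_pos.2 hD0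
  have h1 := sf_res hχ (α := 6 * (18 * (Cl D).ncard / Real.sqrt (-(D : ℝ))))
    (β := 8 * (18 * (Cl D).ncard)) (fun s h1 h2 => sf_prod 1 χ (fun n => (Idl D n).ncard)
      (fun n hn => coeff_le_Idl hD χ hχ2 hl hn) h1
      (tsum_le_of_partial _ (fun _ => Nat.cast_nonneg _) (by positivity) (by positivity)
        (sum_Idl_le hD) h1 h2))
  have h2 := (hS _ χ hχ hχ2).trans
    (h1.trans (mul_le_mul_of_nonneg_right (hd _ hq) (by positivity)))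
  rw [hqD] at h2
  generalize -(D : ℝ) = x at *
  have h3 : (4 * x) ^ (ε / 2) * (4 * x) ^ (ε / 2) = 4 ^ ε * x ^ ε := by
    rw [← Real.rpow_add (by positivity), add_halves, Real.mul_rpow (by norm_num) hD0.le]
  have h4 : 0 < (4 * x) ^ (ε / 2) := by positivity
  rw [Real.rpow_neg (by positivity), ← div_eq_mul_inv, div_le_iff₀ h4] at h2
  rw [Real.rpow_sub hD0, ← Real.sqrt_eq_rpow, div_mul_div_comm, div_le_iff₀ (by positivity),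
    ← le_div_iff₀ hs]
  refine h2.trans_eq ?_
  linear_combination (C * 108 * (Cl D).ncard / Real.sqrt x) * h3

end Pool.Agent.EQ
end
end
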