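import Pool.Agent.K.MP_ad7a55_nt.C6
import Pool.Agent.K.MP_ad7a55_nt.C41
import Pool.Agent.P.MP_ad7a55_nt.SgB
import Pool.Agent.K.MP_ad7a55_nt.C36
import Pool.Agent.K.MP_ad7a55_nt.C42
import Pool.Agent.K.MP_ad7a55_nt.C33
import Pool.Agent.K.MP_ad7a55_nt.C24
import Pool.Agent.K.MP_ad7a55_nt.C16
import Pool.Agent.K.MP_ad7a55_nt.C1

-- part Pool.Agent.P.MP_ad7a55_nt.TGa
section

/-! From pairs of lattices to configurations. -/

set_option autoImplicit false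

noncomputable section

open Finset Matrix UpperHalfPlane

namespace Pool.Agent.EQ

/-- Coordinates in the basis `1, -τ`. -/
def ev (τ : ℍ) (v : Fin 2 → ℤ) : ℂ := v 0 - v 1 * τ

/-- `Θ` is the matrix of `√E` in the basis `1, -τ`. -/
def TauTh (E : ℤ) (τ : ℍ) (Θ : M2) : Prop :=
  ∃ A B C : ℤ, 0 < A ∧ Int.gcd (Int.gcd A B) C = 1 ∧ B ^ 2 - 4 * A * C = E ∧
    (A : ℂ) * (τ : ℂ) ^ 2 + B * τ + C = 0 ∧ Θ = Th A B C

/-- A bounded real linear map of degree `n` between two lattices. -/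
structure Hm (n : ℤ) (C : ℝ) (D₁ D₂ : ℤ) (M₁ M₂ : Lt) (α β : ℂ) (B : ℤ) : Prop where
  map : ∀ z ∈ M₁, rl α β z ∈ M₂
  inv : Real.sqrt (D₁ * D₂) * Complex.normSq β * vol M₁ = B * vol M₂
  deg : (Complex.normSq α - Complex.normSq β) * vol M₁ = n * vol M₂
  le₁ : Complex.normSq α * vol M₁ ≤ C * vol M₂
  le₂ : Complex.normSq β * vol M₁ ≤ C * vol M₂

/-- Exceptional pairs: the invariant `B` is highly divisible by `p`. -/
def Bad3 (p : ℕ) [Fact p.Prime] (n : ℤ) (C : ℝ) (r : ℕ) (D₁ D₂ : ℤ) (M₁ M₂ : Lt) : Prop :=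
  ∃ (α β : ℂ) (B : ℤ), 0 < B ∧ Hm n C D₁ D₂ M₁ M₂ α β B ∧
    ‖(B : ℚ_[p])‖ ≤ (p : ℝ) ^ (-(r : ℤ)) * ‖(D₁ : ℚ_[p])‖

/-- The map respects an eigenvector modulo `q`. -/
def LvP (q : ℕ) (b₀ E : ℤ) (M₁ M₂ : Lt) (α β : ℂ) : Prop :=
  2 ∣ b₀ - E ∧ ∃ v ∈ M₁, (∀ l : ℕ, l.Prime → l ∣ q → v ∉ pr l * M₁) ∧
    (th E - b₀) / 2 * v ∈ pr q * M₁ ∧ (th E - b₀) / 2 * rl α β v ∈ pr q * M₂

/-- Pairs of classes that are close and share a level structure. -/
def LevP (q : ℕ) (b₀ : ℤ) (C : ℝ) (E : ℤ) : Set (ℂ × ℂ) :=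
  {z | ∃ (M₁ M₂ : Lt) (α β : ℂ) (B : ℤ), DiscL M₁ E ∧ DiscL M₂ E ∧ jL M₁ = z.1 ∧ jL M₂ = z.2 ∧
    Hm 1 C E E M₁ M₂ α β B ∧ LvP q b₀ E M₁ M₂ α β}

theorem tga_ev_inj {τ : ℍ} {v w : Fin 2 → ℤ} (h : ev τ v = ev τ w) : v = w := by
  obtain ⟨h0, h1⟩ := ord_indep τ (m := v 0 - w 0) (n := w 1 - v 1) (by
    simp only [ev] at h
    push_cast
    linear_combination h)
  funext i
  fin_cases i
  · exact sub_eq_zero.1 h0
  · exact (sub_eq_zero.1 h1).symm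

theorem tga_mat_ext {τ : ℍ} {η η' : M2} (h : ∀ v, ev τ (η *ᵥ v) = ev τ (η' *ᵥ v)) : η = η' := by
  ext i j
  have h1 := congrFun (tga_ev_inj (h (Pi.single j 1))) i
  simpa only [Matrix.mulVec_single_one, Matrix.col_apply] using h1

theorem tga_ev_mul (τ : ℍ) (η : M2) (v : Fin 2 → ℤ) : ev τ (η *ᵥ v) =
    v 0 * ((η 0 0 : ℂ) - η 1 0 * τ) + v 1 * ((η 0 1 : ℂ) - η 1 1 * τ) := by
  simp only [ev, Matrix.mulVec, dotProduct, Fin.sum_univ_two]
  push_cast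
  ring

theorem tga_ev_comb (τ : ℍ) (η η' : M2) (x y : ℤ) (v : Fin 2 → ℤ) :
    ev τ ((x • η + y • η') *ᵥ v) = x * ev τ (η *ᵥ v) + y * ev τ (η' *ᵥ v) := by
  simp only [tga_ev_mul, Matrix.add_apply, Matrix.smul_apply, smul_eq_mul]
  push_cast
  ring

theorem tga_ev_sub (τ : ℍ) (η η' : M2) (x y : ℤ) (v : Fin 2 → ℤ) :
    ev τ ((x • η - y • η') *ᵥ v) = x * ev τ (η *ᵥ v) - y * ev τ (η' *ᵥ v) := by
  simp only [tga_ev_mul, Matrix.sub_apply, Matrix.smul_apply, smul_eq_mul]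
  push_cast
  ring

theorem tga_cols {c lam mu : ℂ} {τ : ℍ} {η : M2}
    (h : ∀ v, c * ev τ (η *ᵥ v) = rl lam mu (c * ev τ v)) :
    rl lam mu c = (η 0 0 : ℤ) * c + (-η 1 0 : ℤ) * (c * τ) ∧
      rl lam mu (c * τ) = (-η 0 1 : ℤ) * c + (η 1 1 : ℤ) * (c * τ) := by
  have h0 := h ![1, 0]
  have h1 := h ![0, -1]
  rw [tga_ev_mul] at h0 h1
  simp only [ev, Matrix.cons_val_zero, Matrix.cons_val_one, Int.cast_one, Int.cast_zero,
    Int.cast_neg, zero_mul, sub_zero, mul_one, one_mul, add_zero, zero_add, neg_mul, zero_sub,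
    neg_neg] at h0 h1
  rw [← h0, ← h1]
  push_cast
  constructor <;> ring

/-- Trace and determinant of a real linear map. -/
theorem tga_tr_det {c lam mu : ℂ} (hc : c ≠ 0) {τ : ℍ} {η : M2}
    (h : ∀ v, c * ev τ (η *ᵥ v) = rl lam mu (c * ev τ v)) :
    (η.trace : ℝ) = 2 * lam.re ∧ (η.det : ℝ) = Complex.normSq lam - Complex.normSq mu := by
  obtain ⟨h0, h1⟩ := tga_cols h
  have hv := vol_pos (isLat_sp hc τ)
  constructor
  · have e : ((η 0 0 : ℂ) - η 1 0 * τ) * starRingEnd ℂ τ + ((η 0 1 : ℂ) - η 1 1 * τ)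
        = lam * (starRingEnd ℂ τ - τ) := by
      apply mul_left_cancel₀ hc
      simp only [rl, map_mul] at h0 h1
      push_cast at h0 h1
      linear_combination h1 - starRingEnd ℂ τ * h0
    have e1 := congrArg Complex.im e
    simp only [Complex.add_im, Complex.sub_im, Complex.mul_im, Complex.sub_re, Complex.mul_re,
      Complex.intCast_re, Complex.intCast_im, Complex.conj_re, Complex.conj_im, coe_re,
      coe_im] at e1
    rw [Matrix.trace_fin_two]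
    push_cast
    apply mul_right_cancel₀ τ.im_pos.ne'
    linear_combination -e1
  · have e3 := cte_im lam mu c (c * τ)
    rw [h0, h1, cte_im_int, cte_im_vol hc] at e3
    rw [← mul_right_cancel₀ hv.ne' e3, Matrix.det_fin_two]
    push_cast
    ring

theorem tga_coord {τ : ℍ} (hτ : τ ∈ ModularGroup.fd) {u w : ℤ} {S : ℝ}
    (h : ‖(u : ℂ) - w * τ‖ ≤ S) : |(u : ℝ)| ≤ 8 / 5 * S ∧ |(w : ℝ)| ≤ 8 / 5 * S := by
  have hy := τ.im_pos
  have hy3 := ModularGroup.three_le_four_mul_im_sq_of_mem_fd hτ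
  have hy5 : 5 / 6 ≤ τ.im := by nlinarith
  have h1 := (Complex.abs_re_le_norm _).trans h
  have h2 := (Complex.abs_im_le_norm _).trans h
  simp only [Complex.sub_re, Complex.sub_im, Complex.mul_re, Complex.mul_im, Complex.intCast_re,
    Complex.intCast_im, zero_mul, sub_zero, add_zero, zero_sub, abs_neg, coe_re, coe_im] at h1 h2
  rw [abs_mul, abs_of_pos hy] at h2
  have h3 : |(w : ℝ)| ≤ 6 / 5 * S := by nlinarith [abs_nonneg (w : ℝ)]
  have h4 : |(w : ℝ) * τ.re| ≤ |(w : ℝ)| * (1 / 2) := by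
    rw [abs_mul]
    exact mul_le_mul_of_nonneg_left hτ.2 (abs_nonneg _)
  have h5 : |(u : ℝ)| ≤ |(u : ℝ) - w * τ.re| + |(w : ℝ) * τ.re| := by
    simpa using abs_add_le ((u : ℝ) - w * τ.re) (w * τ.re)
  have h6 : 0 ≤ S := (abs_nonneg _).trans h1
  constructor <;> linarith

/-- The entries of a bounded real linear map. -/
theorem tga_bd {c lam mu : ℂ} (hc : c ≠ 0) {τ : ℍ} {η : M2}
    (h : ∀ v, c * ev τ (η *ᵥ v) = rl lam mu (c * ev τ v)) (hτ : τ ∈ ModularGroup.fd) {R : ℝ}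
    (h1 : ‖lam‖ ≤ R) (h2 : ‖mu‖ ≤ R) (i j : Fin 2) : |(η i j : ℝ)| ≤ 8 * τ.im * R := by
  have hy := τ.im_pos
  have hy3 := ModularGroup.three_le_four_mul_im_sq_of_mem_fd hτ
  have hy5 : 5 / 6 ≤ τ.im := by nlinarith
  have hR : 0 ≤ R := (norm_nonneg _).trans h1
  have hn : 0 < ‖c‖ := norm_pos_iff.2 hc
  have key : ∀ v, ‖ev τ (η *ᵥ v)‖ ≤ 2 * R * ‖ev τ v‖ := fun v => by
    have e : ‖c‖ * ‖ev τ (η *ᵥ v)‖ ≤ ‖c‖ * (2 * R * ‖ev τ v‖) := by
      rw [← norm_mul, h, rl]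
      refine (norm_add_le _ _).trans ?_
      rw [norm_mul, norm_mul mu, Complex.norm_conj, norm_mul]
      have h3 : 0 ≤ ‖c‖ * ‖ev τ v‖ := by positivity
      nlinarith [mul_le_mul_of_nonneg_right h1 h3, mul_le_mul_of_nonneg_right h2 h3]
    exact le_of_mul_le_mul_left e hn
  have hτn : ‖(τ : ℂ)‖ ≤ 8 / 5 * τ.im := by
    have h3 := Complex.norm_le_abs_re_add_abs_im (τ : ℂ)
    rw [coe_re, coe_im, abs_of_pos hy] at h3
    linarith [hτ.2]
  have k0 := key ![1, 0]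
  have k1 := key ![0, 1]
  rw [tga_ev_mul] at k0 k1
  simp only [ev, Matrix.cons_val_zero, Matrix.cons_val_one, Int.cast_one, Int.cast_zero,
    zero_mul, sub_zero, mul_one, one_mul, add_zero, zero_add, zero_sub, norm_one,
    norm_neg] at k0 k1
  obtain ⟨a0, a1⟩ := tga_coord hτ k0
  obtain ⟨b0, b1⟩ := tga_coord hτ k1
  have c0 : 8 / 5 * (2 * R) ≤ 8 * τ.im * R := by nlinarith
  have c1 : 8 / 5 * (2 * R * ‖(τ : ℂ)‖) ≤ 8 * τ.im * R := by
    nlinarith [mul_le_mul_of_nonneg_left hτn hR, mul_nonneg hy.le hR]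
  fin_cases i <;> fin_cases j
  · exact a0.trans c0
  · exact b0.trans c1
  · exact a1.trans c0
  · exact b1.trans c1

theorem tga_hm_scale {n D₁ D₂ B : ℤ} {C : ℝ} {M₁ M₂ : Lt} {α β s : ℂ} (h₂ : IsLat M₂) (hs : s ≠ 0)
    (h : Hm n C D₁ D₂ M₁ M₂ α β B) : Hm n C D₁ D₂ M₁ (pr s * M₂) (s * α) (s * β) B := by
  have hn := Complex.normSq_nonneg s
  refine ⟨fun z hz => mem_pr_mul.2 ⟨_, h.map z hz, ?_⟩, ?_, ?_, ?_, ?_⟩
  · simp only [rl]
    ring
  · rw [vol_pr_mul h₂ hs, map_mul]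
    linear_combination Complex.normSq s * h.inv
  · rw [vol_pr_mul h₂ hs, map_mul, map_mul]
    linear_combination Complex.normSq s * h.deg
  · rw [vol_pr_mul h₂ hs, map_mul]
    nlinarith [mul_le_mul_of_nonneg_left h.le₁ hn]
  · rw [vol_pr_mul h₂ hs, map_mul]
    nlinarith [mul_le_mul_of_nonneg_left h.le₂ hn]

theorem TauTh.mul {E : ℤ} {τ : ℍ} {Θ : M2} (h : TauTh E τ Θ) (v : Fin 2 → ℤ) :
    ev τ (Θ *ᵥ v) = th E * ev τ v := by
  obtain ⟨A, B, C, hA, -, rfl, he, rfl⟩ := h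
  rw [← HasDisc.root hA he, tga_ev_mul]
  simp only [Th, ev, Matrix.of_apply, Matrix.cons_val', Matrix.cons_val_zero, Matrix.cons_val_one,
    Matrix.cons_val_fin_one]
  push_cast
  linear_combination (2 * (v 1 : ℂ)) * he

theorem TauTh.unique {E : ℤ} {τ : ℍ} {Θ Θ' : M2} (h : TauTh E τ Θ) (h' : TauTh E τ Θ') :
    Θ = Θ' := by
  exact tga_mat_ext fun v => by rw [h.mul, h'.mul]

namespace Dt

variable (d : Dt)

/-- The ideal of the form. -/
def LL : Lt := sp d.a ((d.b - th d.E) / 2)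

/-- `η` is the matrix of the adjoint of the map composed with multiplication by `e`. -/
def Lk (M₁ : Lt) (α β c : ℂ) (τ : ℍ) (e : ℂ) (η : M2) : Prop :=
  ∀ v : Fin 2 → ℤ, d.g₁ * rl α β (c * ev τ (η *ᵥ v)) =
    d.m * (e / nm d.E (M₁ * OD d.E)) * (c * ev τ v)

/-- The geometric data behind a configuration. -/
structure Geo (C : ℝ) (M₁ M₂ : Lt) (α β c : ℂ) (τ : ℍ) (Θ η₁ η₂ : M2) (B : ℤ) : Prop where
  d₁ : DiscL M₁ (d.g₁ ^ 2 * d.E)
  d₂ : DiscL M₂ (d.g₂ ^ 2 * d.E)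
  ll : M₂ * cj M₁ = d.LL
  hm : Hm d.n C (d.g₁ ^ 2 * d.E) (d.g₂ ^ 2 * d.E) M₁ M₂ α β B
  ne : c ≠ 0
  bas : M₁ * OD d.E = sp c (c * τ)
  th : TauTh d.E τ Θ
  k₁ : d.Lk M₁ α β c τ d.a η₁
  k₂ : d.Lk M₁ α β c τ ((d.b - Pool.Agent.EQ.th d.E) / 2) η₂

/-- The pair `z` of invariants comes from geometric data. -/
def GZ (C : ℝ) (z : ℂ × ℂ) (τ : ℍ) (Θ η₁ η₂ : M2) (B : ℤ) : Prop :=
  ∃ (M₁ M₂ : Lt) (α β c : ℂ), jL M₁ = z.1 ∧ jL M₂ = z.2 ∧ d.Geo C M₁ M₂ α β c τ Θ η₁ η₂ B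

variable {d} {κ : ℕ} {C : ℝ} {M₁ M₂ : Lt} {α β c : ℂ} {τ : ℍ} {Θ η₁ η₂ : M2} {B : ℤ}

theorem tga_LL (h : d.Good κ) : DiscL d.LL d.E ∧ nm d.E d.LL = d.a := by
  have hE : (d.E : ℝ) < 0 := by exact_mod_cast h.E_neg
  have hs : 0 < Real.sqrt (-(d.E : ℝ)) := Real.sqrt_pos.2 (by linarith)
  have ha : (0 : ℝ) < d.a := by exact_mod_cast h.a_pos
  have ha' : (d.a : ℂ) ≠ 0 := by exact_mod_cast h.a_pos.ne'
  have him : ((th d.E - d.b) / (2 * d.a)).im = Real.sqrt (-(d.E : ℝ)) / (2 * d.a) := by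
    have e : (2 * d.a : ℂ) = ((2 * d.a : ℝ) : ℂ) := by push_cast; rfl
    rw [e, Complex.div_ofReal_im, Complex.sub_im, ord2_th_im, Complex.intCast_im, sub_zero]
  have hpos : 0 < ((th d.E - d.b) / (2 * d.a)).im := by
    rw [him]
    positivity
  have e : d.LL = sp d.a (d.a * ((⟨_, hpos⟩ : ℍ) : ℂ)) := by
    rw [LL, ← ord_sp_neg]
    congr 1
    change _ = d.a * ((th d.E - d.b) / (2 * d.a))
    field_simp
    ring
  have ht := th_sq h.E_neg.le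
  have hEc : (d.E : ℂ) = d.b ^ 2 - 4 * d.a * d.c := by
    rw [E]
    push_cast
    rfl
  refine ⟨⟨_, _, ha', e, d.a, d.b, d.c, h.a_pos, h.prim, ?_, rfl⟩, ?_⟩
  · change (d.a : ℂ) * ((th d.E - d.b) / (2 * d.a)) ^ 2 + d.b * ((th d.E - d.b) / (2 * d.a))
      + d.c = 0
    field_simp
    linear_combination ht + hEc
  · rw [e, nm, vol_sp ha']
    change 2 * (_ * ((th d.E - d.b) / (2 * d.a)).im) / _ = _
    rw [him, Complex.normSq_intCast]
    field_simp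

theorem Good.isD (h : d.Good κ) : IsD d.E := by
  exact (tga_LL h).1.isD

theorem Good.discL (h : d.Good κ) : DiscL d.LL d.E ∧ nm d.E d.LL = d.a := by
  exact tga_LL h

theorem tga_snd (h : d.Good κ) (h₁ : DiscL M₁ (d.g₁ ^ 2 * d.E)) (h₂ : DiscL M₂ (d.g₂ ^ 2 * d.E))
    (hl : M₂ * cj M₁ = d.LL) :
    M₂ * OD d.E = pr ((nm d.E (M₁ * OD d.E) : ℂ))⁻¹ * (d.LL * (M₁ * OD d.E)) ∧
      nm d.E (M₂ * OD d.E) * nm d.E (M₁ * OD d.E) = d.a := by
  have t₁ := (discL_up h.isD h₁).1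
  have t₂ := (discL_up h.isD h₂).1
  have e : d.LL = M₂ * OD d.E * cj (M₁ * OD d.E) := by
    rw [← hl, (discL_mul_cop h.isD h.cop.symm h₂ h₁.cj).2.2, cj_mul, cj_OD]
  have hN : ((nm d.E (M₁ * OD d.E) : ℝ) : ℂ) ≠ 0 := by exact_mod_cast t₁.nm_pos.ne'
  constructor
  · rw [e, mul_assoc (M₂ * OD d.E), mul_comm (cj _), t₁.mul_cj_nm, mul_left_comm (M₂ * OD d.E),
      mul_comm (M₂ * OD d.E), t₂.OD_mul, ← mul_assoc, pr_mul_pr, inv_mul_cancel₀ hN, pr_one_mul]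
  · rw [← h.discL.2, e, nm_mul t₂ t₁.cj le_rfl, nm_cj t₁.isLat]

theorem tga_lk (h : d.Good κ) (h₁ : DiscL M₁ (d.g₁ ^ 2 * d.E)) (h₂ : DiscL M₂ (d.g₂ ^ 2 * d.E))
    (hl : M₂ * cj M₁ = d.LL) (hm : Hm d.n C (d.g₁ ^ 2 * d.E) (d.g₂ ^ 2 * d.E) M₁ M₂ α β B)
    (hb : M₁ * OD d.E = sp c (c * τ)) {e : ℂ} (he : e ∈ d.LL) : ∃ η, d.Lk M₁ α β c τ e η := by
  obtain ⟨t₁, v₁, -, s₁⟩ := discL_up h.isD h₁
  obtain ⟨t₂, v₂, s₂, -⟩ := discL_up h.isD h₂
  have hr : ∀ z, rl (d.g₁ * α) (d.g₁ * β) z = d.g₁ * rl α β z := fun z => by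
    simp only [rl]
    ring
  have hi := rl_index (α := d.g₁ * α) (β := d.g₁ * β) (n := d.m) t₁.isLat t₂.isLat
    (fun z hz => by
      have h3 := s₂ (hm.map _ (pr_mul_le.1 s₁ z hz))
      refine (congrArg (· ∈ M₂ * OD d.E) ?_).mp h3
      simp only [rl, map_mul, map_natCast]
      ring)
    (by
      have h3 := hm.deg
      rw [v₁, v₂] at h3
      rw [map_mul, map_mul, Complex.normSq_natCast, m, G]
      push_cast
      linear_combination (d.g₁ : ℝ) * h3)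
  have hw : ∀ z ∈ M₁ * OD d.E, ∃ p q : ℤ, d.g₁ * rl α β (p * c + q * (c * τ)) =
      d.m * (e / nm d.E (M₁ * OD d.E) * z) := fun z hz => by
    obtain ⟨z', hz', e'⟩ := hi (e / nm d.E (M₁ * OD d.E) * z) (by
      rw [(tga_snd h h₁ h₂ hl).1]
      exact mem_pr_mul.2 ⟨_, Submodule.mul_mem_mul he hz, by ring⟩)
    rw [hb] at hz'
    obtain ⟨p, q, rfl⟩ := mem_sp.1 hz'
    exact ⟨p, q, by rw [← hr, e']⟩
  obtain ⟨p₀, q₀, e₀⟩ := hw c (hb ▸ ord_left _ _)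
  obtain ⟨p₁, q₁, e₁⟩ := hw (c * τ) (hb ▸ ord_right _ _)
  refine ⟨!![p₀, -p₁; -q₀, q₁], fun v => ?_⟩
  have e2 : c * ev τ (!![p₀, -p₁; -q₀, q₁] *ᵥ v) =
      (v 0 : ℤ) * (p₀ * c + q₀ * (c * τ)) + (-v 1 : ℤ) * (p₁ * c + q₁ * (c * τ)) := by
    rw [tga_ev_mul]
    simp only [Matrix.of_apply, Matrix.cons_val', Matrix.cons_val_zero, Matrix.cons_val_one,
      Matrix.cons_val_fin_one]
    push_cast
    ring
  rw [e2, cte_lin, ev]
  push_cast
  linear_combination (v 0 : ℂ) * e₀ - (v 1 : ℂ) * e₁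

theorem geo_ex (h : d.Good κ) (h₁ : DiscL M₁ (d.g₁ ^ 2 * d.E)) (h₂ : DiscL M₂ (d.g₂ ^ 2 * d.E))
    (hj : jL (M₂ * cj M₁) = jL d.LL)
    (hm : Hm d.n C (d.g₁ ^ 2 * d.E) (d.g₂ ^ 2 * d.E) M₁ M₂ α β B)
    (hτ : jInv τ = jL (M₁ * OD d.E)) : ∃ (s c : ℂ) (Θ η₁ η₂ : M2), s ≠ 0 ∧
      d.Geo C M₁ (pr s * M₂) (s * α) (s * β) c τ Θ η₁ η₂ B := by
  obtain ⟨s, hs, hl⟩ := jL_inj (discL_mul_cop h.isD h.cop.symm h₂ h₁.cj).1.isLat h.discL.1.isLat hj
  rw [← mul_assoc] at hl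
  have t₁ := (discL_up h.isD h₁).1
  obtain ⟨c, hc, hb⟩ := jL_inj (isLat_one τ) t₁.isLat ((jL_one τ).trans hτ)
  rw [pr_mul_sp, mul_one] at hb
  have hd : HasDisc τ d.E := by
    obtain ⟨c', τ', hc', e, hd⟩ := t₁
    obtain ⟨γ, rfl, -⟩ := exists_SL_of_sp_eq hc' hc (e.symm.trans hb)
    exact hd.smul γ
  obtain ⟨A, B', C', hA, hg, he, hE⟩ := hd
  have hm' := tga_hm_scale h₂.isLat hs hm
  obtain ⟨η₁, k₁⟩ := tga_lk h h₁ (h₂.pr_mul hs) hl.symm hm' hb (ord_left _ _)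
  obtain ⟨η₂, k₂⟩ := tga_lk h h₁ (h₂.pr_mul hs) hl.symm hm' hb (ord_right _ _)
  exact ⟨s, c, Th A B' C', η₁, η₂, hs, h₁, h₂.pr_mul hs, hl.symm, hm', hc, hb,
    ⟨A, B', C', hA, hg, hE.symm, he, rfl⟩, k₁, k₂⟩

/-- The second lattice over the common order. -/
theorem Geo.snd (h : d.Good κ) (g : d.Geo C M₁ M₂ α β c τ Θ η₁ η₂ B) :
    M₂ * OD d.E = pr ((nm d.E (M₁ * OD d.E) : ℂ))⁻¹ * (d.LL * (M₁ * OD d.E)) := by
  exact (tga_snd h g.d₁ g.d₂ g.ll).1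

/-- The matrices as explicit real linear maps. -/
theorem tga_key (h : d.Good κ) (g : d.Geo C M₁ M₂ α β c τ Θ η₁ η₂ B) : ∃ K : ℝ,
    K ^ 2 * d.a * vol M₂ = d.G * vol M₁ ∧
    K ^ 2 * d.a * (Complex.normSq α - Complex.normSq β) = d.m ∧
    ∀ e η, d.Lk M₁ α β c τ e η → ∀ v, c * ev τ (η *ᵥ v) =
      rl (K * starRingEnd ℂ α * e) (-(K * β * starRingEnd ℂ e)) (c * ev τ v) := by
  obtain ⟨t₁, v₁, -, -⟩ := discL_up h.isD g.d₁
  obtain ⟨t₂, v₂, -, -⟩ := discL_up h.isD g.d₂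
  have hn := (tga_snd h g.d₁ g.d₂ g.ll).2
  have n₁ := t₁.nm_pos
  have n₂ := t₂.nm_pos
  have ha : (0 : ℝ) < d.a := by exact_mod_cast h.a_pos
  have hg₁ : (0 : ℝ) < d.g₁ := by exact_mod_cast h.g₁_pos
  have hv := vol_pos g.d₂.isLat
  have hx : nm d.E (M₁ * OD d.E) * vol (M₂ * OD d.E)
      = nm d.E (M₂ * OD d.E) * vol (M₁ * OD d.E) := by
    simp only [nm]
    ring
  obtain ⟨K, hK⟩ : ∃ K : ℝ, K * d.a = d.g₁ * nm d.E (M₁ * OD d.E) :=
    ⟨d.g₁ * nm d.E (M₁ * OD d.E) / d.a, by field_simp⟩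
  have e1 : K ^ 2 * d.a * vol M₂ = d.G * vol M₁ := by
    apply mul_left_cancel₀ ha.ne'
    rw [v₁, v₂, G]
    push_cast
    linear_combination (K * d.a + d.g₁ * nm d.E (M₁ * OD d.E)) * d.g₂ * vol (M₂ * OD d.E) * hK
      + (d.g₁ : ℝ) ^ 2 * d.g₂ * nm d.E (M₁ * OD d.E) * hx
      + (d.g₁ : ℝ) ^ 2 * d.g₂ * vol (M₁ * OD d.E) * hn
  have e2 : K ^ 2 * d.a * (Complex.normSq α - Complex.normSq β) = d.m := by
    apply mul_right_cancel₀ hv.ne'
    rw [m]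
    push_cast
    linear_combination (Complex.normSq α - Complex.normSq β) * e1 + (d.G : ℝ) * g.hm.deg
  refine ⟨K, e1, e2, fun e η hk v => ?_⟩
  have hm0 : (d.m : ℝ) ≠ 0 := by
    have := h.n_ne
    have := h.g₁_pos.ne'
    have := h.g₂_pos.ne'
    rw [m, G]
    push_cast
    positivity
  have hδ : Complex.normSq α ≠ Complex.normSq β := fun e0 => hm0 (by
    rw [← e2, e0, sub_self, mul_zero])
  have e3 : K * (Complex.normSq α - Complex.normSq β) * d.g₁ * nm d.E (M₁ * OD d.E) = d.m := by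
    linear_combination e2 - K * (Complex.normSq α - Complex.normSq β) * hK
  have e4 : (K : ℂ) * (α * starRingEnd ℂ α - β * starRingEnd ℂ β) * d.g₁
      * nm d.E (M₁ * OD d.E) = d.m := by
    rw [Complex.mul_conj, Complex.mul_conj]
    exact_mod_cast e3
  have hN : ((nm d.E (M₁ * OD d.E) : ℝ) : ℂ) ≠ 0 := by exact_mod_cast n₁.ne'
  have hg : (d.g₁ : ℂ) ≠ 0 := by exact_mod_cast h.g₁_pos.ne'
  apply rl_inj hδ
  apply mul_left_cancel₀ hg
  rw [hk v, ← e4]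
  generalize c * ev τ v = z
  simp only [rl, map_add, map_mul, map_neg, Complex.conj_conj, Complex.conj_ofReal]
  field_simp
  ring

theorem Geo.cf (h : d.Good κ) (g : d.Geo C M₁ M₂ α β c τ Θ η₁ η₂ B) :
    d.Cf (-η₂.trace) η₁.trace Θ η₁ η₂ ∧ B = d.B (-η₂.trace) η₁.trace ∧ 0 ≤ B ∧
      (d.F (-η₂.trace) η₁.trace : ℝ) ≤ C * d.G * (-d.E) ∧ (B : ℝ) ≤ C * d.G * (-d.E) := by
  obtain ⟨K, e1, e2, hk⟩ := tga_key h g
  have k₁ := hk _ _ g.k₁
  have k₂ := hk _ _ g.k₂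
  have hE : (d.E : ℝ) < 0 := by exact_mod_cast h.E_neg
  have hs := Real.sq_sqrt (show 0 ≤ -(d.E : ℝ) by linarith)
  have hEr : (d.E : ℝ) = d.b ^ 2 - 4 * d.a * d.c := by
    rw [E]
    push_cast
    rfl
  have hEc : (d.E : ℂ) = d.b ^ 2 - 4 * d.a * d.c := by exact_mod_cast hEr
  have ht := th_sq h.E_neg.le
  have hv := vol_pos g.d₂.isLat
  have hv₁ := vol_pos g.d₁.isLat
  have hG : (0 : ℝ) ≤ d.G := Nat.cast_nonneg _
  have y := (tga_tr_det g.ne k₁).1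
  have x := (tga_tr_det g.ne k₂).1
  simp only [Complex.mul_re, Complex.mul_im, Complex.ofReal_re, Complex.ofReal_im, Complex.conj_re,
    Complex.conj_im, Complex.intCast_re, Complex.intCast_im, Complex.div_ofNat_re,
    Complex.div_ofNat_im, Complex.sub_re, Complex.sub_im, ord2_th_re, ord2_th_im] at x y
  have hF : (d.F (-η₂.trace) η₁.trace : ℝ) = K ^ 2 * d.a * Complex.normSq α * (-d.E) := by
    rw [F]
    push_cast
    rw [x, y, Complex.normSq_apply]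
    linear_combination K ^ 2 * d.a * α.im ^ 2 * hs + K ^ 2 * d.a * α.re ^ 2 * hEr
  have hq : Real.sqrt (((d.g₁ : ℤ) ^ 2 * d.E : ℤ) * ((d.g₂ : ℤ) ^ 2 * d.E : ℤ) : ℝ)
      = d.G * (-d.E) := by
    rw [Real.sqrt_eq_iff_mul_self_eq (by
      push_cast
      nlinarith [sq_nonneg ((d.g₁ : ℝ) * d.g₂ * d.E)]) (mul_nonneg hG (by linarith)), G]
    push_cast
    ring
  have hB : (B : ℝ) = K ^ 2 * d.a * Complex.normSq β * (-d.E) := by
    have h3 := g.hm.inv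
    rw [hq] at h3
    apply mul_right_cancel₀ hv.ne'
    linear_combination -h3 - Complex.normSq β * (-d.E) * e1
  have hle : ∀ w : ℝ, w * vol M₁ ≤ C * vol M₂ → K ^ 2 * d.a * w * (-d.E) ≤ C * d.G * (-d.E) :=
    fun w hw => by
      refine mul_le_mul_of_nonneg_right (le_of_mul_le_mul_right ?_ hv) (by linarith)
      calc K ^ 2 * d.a * w * vol M₂ = d.G * (w * vol M₁) := by linear_combination w * e1
        _ ≤ d.G * (C * vol M₂) := mul_le_mul_of_nonneg_left hw hG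
        _ = _ := by ring
  refine ⟨⟨?_, ?_, ?_, fun x y => ?_, rfl, (neg_neg _).symm⟩, ?_, ?_, ?_, ?_⟩
  · obtain ⟨A, B', C', h1, h2, h3, -, h4⟩ := g.th
    exact ⟨A, B', C', h1, h2, h3, h4⟩
  · refine tga_mat_ext (τ := τ) fun v => mul_left_cancel₀ g.ne ?_
    rw [← Matrix.mulVec_mulVec, k₁, g.th.mul, tga_ev_sub, mul_sub, mul_left_comm c (d.b : ℂ),
      mul_left_comm c (_ : ℤ), k₁, k₂, mul_left_comm c]
    generalize c * ev τ v = z
    simp only [rl, map_mul, map_div₀, map_sub, map_intCast, map_ofNat, conj_th]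
    push_cast
    ring
  · refine tga_mat_ext (τ := τ) fun v => mul_left_cancel₀ g.ne ?_
    rw [← Matrix.mulVec_mulVec, k₂, g.th.mul, tga_ev_sub, mul_sub, mul_left_comm c (d.b : ℂ),
      mul_left_comm c (_ : ℤ), k₁, k₂, mul_left_comm c]
    generalize c * ev τ v = z
    simp only [rl, map_mul, map_div₀, map_sub, map_intCast, map_ofNat, conj_th]
    push_cast
    linear_combination (-(K * starRingEnd ℂ α * z) + K * β * starRingEnd ℂ z) / 2 * (ht + hEc)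
  · have k : ∀ v, c * ev τ ((x • η₁ + y • η₂) *ᵥ v) =
        rl (K * starRingEnd ℂ α * (x * d.a + y * ((d.b - EQ.th d.E) / 2)))
          (-(K * β * starRingEnd ℂ (x * d.a + y * ((d.b - EQ.th d.E) / 2)))) (c * ev τ v) :=
      fun v => by
        rw [tga_ev_comb, mul_add, mul_left_comm c (x : ℂ), mul_left_comm c (y : ℂ), k₁, k₂]
        simp only [rl, map_add, map_mul, map_intCast]
        ring
    have h3 := (tga_tr_det g.ne k).2
    have h4 : Complex.normSq (x * d.a + y * ((d.b - EQ.th d.E) / 2)) = d.a * d.F x y := by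
      rw [Complex.normSq_apply, F]
      simp only [Complex.add_re, Complex.add_im, Complex.mul_re, Complex.mul_im,
        Complex.intCast_re, Complex.intCast_im, Complex.div_ofNat_re,
        Complex.div_ofNat_im, Complex.sub_re, Complex.sub_im, ord2_th_re, ord2_th_im]
      push_cast
      linear_combination (y : ℝ) ^ 2 / 4 * hs - (y : ℝ) ^ 2 / 4 * hEr
    simp only [Complex.normSq_neg, map_mul, Complex.normSq_conj, Complex.normSq_ofReal, h4] at h3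
    have h5 : ((x • η₁ + y • η₂).det : ℝ) = d.m * d.F x y := by
      linear_combination h3 + (d.F x y : ℝ) * e2
    exact_mod_cast h5
  · have h5 : (B : ℝ) = d.F (-η₂.trace) η₁.trace + d.m * d.E := by
      linear_combination hB - hF + (d.E : ℝ) * e2
    rw [Dt.B]
    exact_mod_cast h5
  · have ha : (0 : ℝ) < d.a := by exact_mod_cast h.a_pos
    have h5 : (0 : ℝ) ≤ B := by
      rw [hB]
      exact mul_nonneg (mul_nonneg (by positivity) (Complex.normSq_nonneg _)) (by linarith)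
    exact_mod_cast h5
  · rw [hF]
    exact hle _ g.hm.le₁
  · rw [hB]
    exact hle _ g.hm.le₂

theorem Geo.bd (h : d.Good κ) (g : d.Geo C M₁ M₂ α β c τ Θ η₁ η₂ B) (hτ : τ ∈ ModularGroup.fd)
    {U : ℝ} (hU : τ.im ≤ U) (i j : Fin 2) :
    |(η₁ i j : ℝ)| ≤ 8 * U * Real.sqrt (C * d.G * d.a) := by
  obtain ⟨K, e1, -, hk⟩ := tga_key h g
  have hv := vol_pos g.d₂.isLat
  have hG : (0 : ℝ) ≤ d.G := Nat.cast_nonneg _
  have ha : (0 : ℝ) < d.a := by exact_mod_cast h.a_pos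
  have hle : ∀ w z : ℂ, Complex.normSq z = K * K * Complex.normSq w * (d.a * d.a) →
      Complex.normSq w * vol M₁ ≤ C * vol M₂ → ‖z‖ ≤ Real.sqrt (C * d.G * d.a) :=
    fun w z hz hw => by
      refine Real.le_sqrt_of_sq_le ?_
      rw [← Complex.normSq_eq_norm_sq, hz]
      refine le_of_mul_le_mul_right ?_ hv
      calc K * K * Complex.normSq w * (d.a * d.a) * vol M₂
          = d.G * d.a * (Complex.normSq w * vol M₁) := by
            linear_combination Complex.normSq w * d.a * e1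
        _ ≤ d.G * d.a * (C * vol M₂) := mul_le_mul_of_nonneg_left hw (by positivity)
        _ = _ := by ring
  refine (tga_bd g.ne (hk _ _ g.k₁) hτ (hle α _ ?_ g.hm.le₁) (hle β _ ?_ g.hm.le₂) i j).trans ?_
  · simp only [map_mul, Complex.normSq_conj, Complex.normSq_ofReal, Complex.normSq_intCast]
  · simp only [Complex.normSq_neg, map_mul, Complex.normSq_conj, Complex.normSq_ofReal,
      Complex.normSq_intCast]
  · exact mul_le_mul_of_nonneg_right (by linarith) (Real.sqrt_nonneg _)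

end Dt

end Pool.Agent.EQ
end
end

-- part Pool.Agent.P.MP_ad7a55_nt.TJac
section

/-! Real characters given by the Jacobi symbol. -/

set_option autoImplicit false

noncomputable section

open Finset

namespace Pool.Agent.EQ

/-- A real character whose sums are bounded by `q`. -/
structure RC (q : ℕ) (ψ : ℕ → ℝ) : Prop where
  val : ∀ n, ψ n = 0 ∨ ψ n = 1 ∨ ψ n = -1
  one : ψ 1 = 1
  mul : ∀ m n, ψ (m * n) = ψ m * ψ n
  bd : ∀ N, |∑ n ∈ Icc 1 N, ψ n| ≤ q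

/-- The Jacobi symbol on odd numbers. -/
def jc (Δ : ℤ) (n : ℕ) : ℝ := if Odd n then (jacobiSym Δ n : ℝ) else 0

theorem tjac_odd_exp {N : ℕ} (h : ¬ IsSquare N) :
    ∃ p e M : ℕ, p.Prime ∧ ¬ p ∣ M ∧ N = p ^ (2 * e + 1) * M := by
  obtain ⟨a, b, hab, ha⟩ := Nat.sq_mul_squarefree N
  have hb : b ≠ 0 := by
    rintro rfl
    exact h ⟨0, by simp [← hab]⟩
  have h1 : a ≠ 1 := by
    rintro rfl
    exact h ⟨b, by rw [← hab]; ring⟩
  obtain ⟨p, hp, a', rfl⟩ := Nat.exists_prime_and_dvd h1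
  obtain ⟨e, b', h2, rfl⟩ := Nat.exists_eq_pow_mul_and_not_dvd hb p hp.ne_one
  refine ⟨p, e, b' ^ 2 * a', hp, fun h3 => ?_, by rw [← hab]; ring⟩
  rcases (Nat.Prime.dvd_mul hp).1 h3 with h4 | h4
  · exact h2 (hp.dvd_of_dvd_pow h4)
  · exact hp.one_lt.ne' (Nat.isUnit_iff.1 (ha p (mul_dvd_mul_left p h4)))

theorem tjac_one {a : ℤ} (ha : a ≠ 0) {n : ℕ} (h : n ≡ 1 [MOD 4 * a.natAbs]) :
    n % 4 = 1 ∧ jacobiSym a n = 1 := by
  have h0 := Int.natAbs_pos.2 ha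
  have h4 : n % 4 = 1 := h.of_mul_right _
  refine ⟨h4, ?_⟩
  rw [jacobiSym.mod_right a (Nat.odd_iff.2 (by omega)), h, Nat.mod_eq_of_lt (by omega),
    jacobiSym.one_right]

theorem tjac_prime {p M : ℕ} (hp : p.Prime) (hM : ¬ p ∣ M) :
    ∃ n : ℕ, Odd n ∧ jacobiSym p n = -1 ∧ jacobiSym M n = 1 := by
  have hc : p.Coprime M := (Nat.Prime.coprime_iff_not_dvd hp).2 hM
  rcases hp.eq_two_or_odd' with rfl | ho
  · have hMo : Odd M := Nat.coprime_two_left.1 hc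
    obtain ⟨n, h1, h2⟩ := Nat.chineseRemainder (hc.pow_left 3) 5 1
    have h3 : n % 8 = 5 := h1
    have hn : Odd n := Nat.odd_iff.2 (by omega)
    refine ⟨n, hn, ?_, ?_⟩
    · rw [Nat.cast_ofNat, jacobiSym.at_two hn, ZMod.χ₈_nat_mod_eight, h3]
      decide
    · rw [← jacobiSym.quadratic_reciprocity_one_mod_four (by omega) hMo,
        jacobiSym.mod_left' (a₂ := 1) (by exact_mod_cast h2), jacobiSym.one_left]
  · have : Fact p.Prime := ⟨hp⟩
    have h2 : p ≠ 2 := by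
      rintro rfl
      exact absurd ho (by decide)
    obtain ⟨x, hx⟩ := FiniteField.exists_nonsquare (F := ZMod p) (by rwa [ZMod.ringChar_zmod_n])
    have hc4 : p.Coprime (4 * M) :=
      Nat.Coprime.mul_right ((Nat.coprime_two_right.2 ho).pow_right 2) hc
    obtain ⟨n, h3, h4⟩ := Nat.chineseRemainder hc4 x.val 1
    have hM0 : (M : ℤ) ≠ 0 := by
      rintro h
      exact hM (by rw [Int.natCast_eq_zero.1 h]; exact dvd_zero p)
    obtain ⟨h5, h6⟩ := tjac_one hM0 (n := n) (by simpa using h4)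
    refine ⟨n, Nat.odd_iff.2 (by omega), ?_, h6⟩
    rw [← jacobiSym.quadratic_reciprocity_one_mod_four h5 ho,
      ZMod.nonsquare_iff_jacobiSym_eq_neg_one, Int.cast_natCast,
      (ZMod.natCast_eq_natCast_iff _ _ _).2 h3, ZMod.natCast_zmod_val]
    exact hx

theorem exists_jac_neg {Δ : ℤ} (h : ¬ IsSquare Δ) : ∃ n : ℕ, Odd n ∧ jacobiSym Δ n = -1 := by
  rcases lt_or_ge Δ 0 with h0 | h0
  · obtain ⟨n, hn⟩ : ∃ n, n + 1 = 4 * Δ.natAbs := ⟨4 * Δ.natAbs - 1, by omega⟩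
    have h2 := sge_jac hn
    rw [show -(Δ.natAbs : ℤ) = Δ by omega] at h2
    exact ⟨n, Nat.odd_iff.2 (by omega), h2⟩
  · lift Δ to ℕ using h0
    obtain ⟨p, e, M, hp, hM, rfl⟩ := tjac_odd_exp (mt Int.isSquare_natCast_iff.2 h)
    obtain ⟨n, h1, h2, h3⟩ := tjac_prime hp hM
    refine ⟨n, h1, ?_⟩
    rw [Nat.cast_mul, Nat.cast_pow, jacobiSym.mul_left, jacobiSym.pow_left, h2, h3, mul_one]
    exact Odd.neg_one_pow ⟨e, rfl⟩

theorem rc_jc {Δ : ℤ} (h : ¬ IsSquare Δ) : RC (4 * Δ.natAbs) (jc Δ) := by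
  have h0 : Δ ≠ 0 := by
    rintro rfl
    exact h IsSquare.zero
  have : NeZero (4 * Δ.natAbs) := ⟨by have := Int.natAbs_pos.2 h0; omega⟩
  have e : ∀ n : ℕ, sgeChi Δ (n : ZMod (4 * Δ.natAbs)) = (jc Δ n : ℝ) := fun n => by
    rw [sgeChi_nat, jc]
    split_ifs <;> simp
  refine ⟨fun n => ?_, by simp [jc], fun m n => ?_, fun N => ?_⟩
  · unfold jc
    split_ifs
    · rcases jacobiSym.trichotomy Δ n with h | h | h <;> simp [h]
    · exact Or.inl rfl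
  · have := map_mul (sgeChi Δ) (m : ZMod (4 * Δ.natAbs)) n
    rw [← Nat.cast_mul, e, e, e] at this
    exact_mod_cast this
  · have hχ : sgeChi Δ ≠ 1 := fun h1 => by
      obtain ⟨n, hn, h2⟩ := exists_jac_neg h
      have h3 := sgeChi_nat Δ n
      rw [if_pos hn, h2, h1] at h3
      by_cases hu : IsUnit (n : ZMod (4 * Δ.natAbs))
      · rw [MulChar.one_apply hu] at h3
        norm_num at h3
      · rw [MulChar.map_nonunit _ hu] at h3
        norm_num at h3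
    have := sgb_le_q hχ N
    simp only [sgbA, e] at this
    rwa [← Complex.ofReal_sum, Complex.norm_real, Real.norm_eq_abs] at this

theorem tjac_sum {l : ℕ} [NeZero l] (f : ZMod l → ℤ) :
    ∑ r ∈ range l, f (r : ZMod l) = ∑ x, f x :=
  sum_nbij' (fun r => (r : ZMod l)) ZMod.val (fun _ _ => mem_univ _)
    (fun x _ => mem_range.2 (ZMod.val_lt x))
    (fun _ hr => ZMod.val_cast_of_lt (mem_range.1 hr)) (fun x _ => ZMod.natCast_zmod_val x)
    fun _ _ => rfl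

theorem tjac_field {F : Type} [Field F] [Fintype F] [DecidableEq F] (hF : ringChar F ≠ 2) {a : F}
    (ha : a ≠ 0) : ∑ x : F, quadraticChar F (x ^ 2 - a) = -1 := by
  have h2 : (2 : F) ≠ 0 := Ring.two_ne_zero hF
  have h1 : (univ.filter fun p : F × F => p.2 ^ 2 = p.1 ^ 2 - a).card =
      (univ.erase (0 : F)).card := by
    have h3 : ∀ p : F × F, p.2 ^ 2 = p.1 ^ 2 - a → p.1 - p.2 ≠ 0 := fun p hp h =>
      ha (by linear_combination hp + (p.1 + p.2) * h)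
    refine card_nbij' (fun p => p.1 - p.2) (fun u => ((u + a / u) / 2, (a / u - u) / 2))
      (fun p hp => ?_) (fun u hu => ?_) (fun p hp => ?_) (fun u _ => ?_)
    · simpa using h3 p (by simpa using hp)
    · have : u ≠ 0 := by simpa using hu
      simp only [coe_filter, mem_univ, true_and, Set.mem_ofPred_eq]
      field_simp
      ring
    · have h4 : p.2 ^ 2 = p.1 ^ 2 - a := by simpa using hp
      have h5 : a / (p.1 - p.2) = p.1 + p.2 := by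
        rw [div_eq_iff (h3 p h4)]
        linear_combination h4
      refine Prod.ext ?_ ?_ <;> simp only [h5] <;> field_simp <;> ring
    · simp only
      rw [← sub_div, div_eq_iff h2]
      ring
  have h4 : ∑ x : F, (quadraticChar F (x ^ 2 - a) + 1) =
      (univ.filter fun p : F × F => p.2 ^ 2 = p.1 ^ 2 - a).card := by
    rw [card_filter, Fintype.sum_prod_type, Nat.cast_sum]
    refine sum_congr rfl fun x _ => ?_
    rw [← quadraticChar_card_sqrts hF, Set.toFinset_ofPred, card_filter]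
  rw [h1, card_erase_of_mem (mem_univ _), sum_add_distrib, Nat.cast_sub (card_pos.2 univ_nonempty)]
    at h4
  simp only [sum_const, nsmul_eq_mul, mul_one, Nat.cast_one] at h4
  linarith

theorem sum_jac_sq {l : ℕ} (hl : l.Prime) (h2 : l ≠ 2) {a : ℤ} (ha : ¬ (l : ℤ) ∣ a) :
    ∑ r ∈ range l, jacobiSym ((r : ℤ) ^ 2 - a) l = -1 := by
  have : Fact l.Prime := ⟨hl⟩
  rw [← tjac_field (F := ZMod l) (by rwa [ZMod.ringChar_zmod_n]) (a := a)
    (by rwa [Ne, ZMod.intCast_zmod_eq_zero_iff_dvd]), ← tjac_sum]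
  refine sum_congr rfl fun r _ => ?_
  rw [← jacobiSym.legendreSym.to_jacobiSym, legendreSym]
  push_cast
  rfl

theorem card_sq_roots {l : ℕ} (hl : l.Prime) (h2 : l ≠ 2) (a : ℤ) :
    (((range l).filter fun r : ℕ => (l : ℤ) ∣ (r : ℤ) ^ 2 - a).card : ℤ) = 1 + jacobiSym a l := by
  have : Fact l.Prime := ⟨hl⟩
  rw [← jacobiSym.legendreSym.to_jacobiSym, add_comm, ← legendreSym.card_sqrts l h2,
    Set.toFinset_ofPred, card_filter, card_filter]
  push_cast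
  rw [← tjac_sum]
  refine sum_congr rfl fun r _ => if_congr ?_ rfl rfl
  rw [← ZMod.intCast_zmod_eq_zero_iff_dvd, ← sub_eq_zero (a := (r : ZMod l) ^ 2)]
  push_cast
  rfl

/-- Two odd primes at which finitely many nonzero integers are squares. -/
theorem exists_split (T : Finset ℤ) (hT : ∀ d ∈ T, d ≠ 0) : ∃ p q : ℕ, p.Prime ∧ q.Prime ∧
    p ≠ 2 ∧ q ≠ 2 ∧ p ≠ q ∧ ∀ d ∈ T, jacobiSym d p = 1 ∧ jacobiSym d q = 1 := by
  have h0 : 4 * ∏ d ∈ T, d.natAbs ≠ 0 :=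
    mul_ne_zero (by norm_num) (prod_ne_zero_iff.2 fun d hd => Int.natAbs_ne_zero.2 (hT d hd))
  obtain ⟨p, hp, h1, h2⟩ := Nat.exists_prime_gt_modEq_one 2 h0
  obtain ⟨q, hq, h3, h4⟩ := Nat.exists_prime_gt_modEq_one p h0
  refine ⟨p, q, hp, hq, by omega, by omega, by omega, fun d hd => ?_⟩
  have h5 : 4 * d.natAbs ∣ 4 * ∏ d ∈ T, d.natAbs := mul_dvd_mul_left _ (dvd_prod_of_mem _ hd)
  exact ⟨(tjac_one (hT d hd) (h2.of_dvd h5)).2, (tjac_one (hT d hd) (h4.of_dvd h5)).2⟩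

end Pool.Agent.EQ
end
end

-- part Pool.Agent.P.MP_ad7a55_nt.TTi
section

/-! Few classes contain an ideal of small norm. -/

set_option autoImplicit false

noncomputable section

open Finset

namespace Pool.Agent.EQ

/-- Classes that contain an ideal of norm at most `t √|D|` divisible by `P`. -/
def Sh (D : ℤ) (t : ℝ) (P : ℕ) : Set ℂ :=
  {z | ∃ n : ℕ, (n : ℝ) ≤ t * Real.sqrt (-(D : ℝ)) ∧ P ∣ n ∧ ∃ 𝔞 ∈ Idl D n, jL 𝔞 = z}

theorem Sh_subset (D : ℤ) (t : ℝ) (P : ℕ) : Sh D t P ⊆ Cl D := by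
  rintro z ⟨n, -, -, 𝔞, h, rfl⟩
  exact ⟨𝔞, h.1, rfl⟩

theorem tti_finite (D : ℤ) (t : ℝ) (P : ℕ) : (Sh D t P).Finite :=
  (Cl_finite D).subset (Sh_subset D t P)

theorem tti_pos {D : ℤ} {n : ℕ} {𝔞 : Lt} (h : 𝔞 ∈ Idl D n) : 0 < n := by
  obtain ⟨m, a, b, hm, ha, rfl, -⟩ := Idl.shape h
  positivity

theorem tti_sum (D : ℤ) (t : ℝ) (P : ℕ) : ((Sh D t P).ncard : ℝ) ≤
    ∑ n ∈ (Icc 1 ⌊t * Real.sqrt (-(D : ℝ))⌋₊).filter (fun n => P ∣ n), ((Idl D n).ncard : ℝ) := by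
  set T := (Icc 1 ⌊t * Real.sqrt (-(D : ℝ))⌋₊).filter (fun n => P ∣ n) with hT
  have hsub : Sh D t P ⊆ ⋃ n ∈ T, jL '' Idl D n := by
    rintro z ⟨n, h1, h2, 𝔞, h4, h5⟩
    refine Set.mem_biUnion (x := n) (Finset.mem_coe.2 ?_) ⟨𝔞, h4, h5⟩
    exact Finset.mem_filter.2 ⟨Finset.mem_Icc.2 ⟨tti_pos h4, Nat.le_floor h1⟩, h2⟩
  have hfin : (⋃ n ∈ T, jL '' Idl D n).Finite :=
    T.finite_toSet.biUnion fun n _ => (Idl_finite D n).image _
  have h1 : (Sh D t P).ncard ≤ ∑ n ∈ T, (Idl D n).ncard :=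
    (Set.ncard_le_ncard hsub hfin).trans ((ctB_ncard_biUnion T _).trans
      (Finset.sum_le_sum fun n _ => Set.ncard_image_le (Idl_finite D n)))
  exact_mod_cast h1

theorem tti_three {D : ℤ} (hD : IsD D) : (3 : ℝ) ≤ -(D : ℝ) := by
  have hD3 : D ≤ -3 := by
    obtain ⟨h0, h4⟩ := hD
    omega
  have : (D : ℝ) ≤ -3 := by exact_mod_cast hD3
  linarith

theorem tti_abs {D : ℤ} (hD : D < 0) : (D.natAbs : ℝ) = -(D : ℝ) := by
  rw [Nat.cast_natAbs, abs_of_neg hD, Int.cast_neg]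

theorem tti_EE0 : ∃ C : ℝ, 0 < C ∧ ∀ (D : ℤ) (N X : ℕ), 2 ≤ X → N ≤ X ^ 8 → X < (N + 1) ^ 4 →
    EE D N ≤ C * EE D X := by
  obtain ⟨C₁, h1, H1⟩ := EE_comp 8
  obtain ⟨C₂, h2, H2⟩ := EE_log
  refine ⟨C₁ + C₂ * 16, by positivity, fun D N X hX hN hN' => ?_⟩
  have hE := EE_pos D X
  rcases le_or_gt 2 N with h | h
  · have h3 : X ≤ N ^ 8 := by
      have h4 : N + 1 ≤ N ^ 2 := by nlinarith
      calc X ≤ (N + 1) ^ 4 := hN'.le
        _ ≤ (N ^ 2) ^ 4 := Nat.pow_le_pow_left h4 4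
        _ = N ^ 8 := by ring
    have := H1 D N X hN h3
    nlinarith [mul_pos h2 hE]
  · have h3 : X < 16 := by
      have : (N + 1) ^ 4 ≤ 2 ^ 4 := Nat.pow_le_pow_left (by omega) 4
      omega
    have h4 : EE D N = 1 := by
      have : Nat.primesLE N = ∅ := by
        refine Finset.eq_empty_of_forall_notMem fun l hl => ?_
        have h5 := Nat.mem_primesLE.1 hl
        have := h5.2.two_le
        omega
      rw [EE, this, Finset.sum_empty, Real.exp_zero]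
    have h5 := (H2 D X hX).2
    have h6 : Real.log X ≤ 16 := by
      have h7 : (X : ℝ) ≤ 16 := by exact_mod_cast h3.le
      have h8 : (0 : ℝ) < X := by exact_mod_cast (by omega : 0 < X)
      linarith [Real.log_le_sub_one_of_pos h8]
    rw [h4]
    have h7 : C₂ * Real.log X * EE D X ≤ C₂ * 16 * EE D X := by gcongr
    nlinarith [mul_pos h1 hE]

theorem tti_EE : ∃ C : ℝ, 0 < C ∧ ∀ (D : ℤ) (t : ℝ), IsD D →
    1 ≤ t ^ 4 * (-(D : ℝ)) → 0 ≤ t → t ≤ -(D : ℝ) →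
    (⌊t * Real.sqrt (-(D : ℝ))⌋₊ : ℝ) * EE D ⌊t * Real.sqrt (-(D : ℝ))⌋₊ ≤ C * t * HH D := by
  obtain ⟨C, hC, H⟩ := tti_EE0
  refine ⟨C, hC, fun D t hD h1 h2 h3 => ?_⟩
  have hx := tti_three hD
  have ha := tti_abs hD.1
  set x : ℝ := -(D : ℝ) with hxd
  have hs := Real.sqrt_nonneg x
  have hs2 : Real.sqrt x ^ 2 = x := Real.sq_sqrt (by linarith)
  have hq : Real.sqrt x ≤ x := Real.sqrt_le_iff.2 ⟨by linarith, by nlinarith⟩
  have hfl : (⌊t * Real.sqrt x⌋₊ : ℝ) ≤ t * Real.sqrt x := Nat.floor_le (by positivity)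
  have hlt : t * Real.sqrt x < (⌊t * Real.sqrt x⌋₊ : ℝ) + 1 := Nat.lt_floor_add_one _
  set N : ℕ := ⌊t * Real.sqrt x⌋₊ with hN
  have b1 : 2 ≤ D.natAbs := by
    have : ((2 : ℕ) : ℝ) ≤ D.natAbs := by rw [ha]; push_cast; linarith
    exact_mod_cast this
  have b2 : N ≤ D.natAbs ^ 8 := by
    have h4 : (N : ℝ) ≤ (D.natAbs : ℝ) ^ 8 := by
      rw [ha]
      calc (N : ℝ) ≤ x * x := hfl.trans (mul_le_mul h3 hq hs (by linarith))
        _ = x ^ 2 := by ring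
        _ ≤ x ^ 8 := pow_le_pow_right₀ (by linarith) (by norm_num)
    exact_mod_cast h4
  have b3 : D.natAbs < (N + 1) ^ 4 := by
    have h4 : (D.natAbs : ℝ) < ((N : ℝ) + 1) ^ 4 := by
      rw [ha]
      calc x = 1 * x := (one_mul _).symm
        _ ≤ t ^ 4 * x * x := mul_le_mul_of_nonneg_right h1 (by linarith)
        _ = t ^ 4 * (Real.sqrt x ^ 2) ^ 2 := by rw [hs2]; ring
        _ = (t * Real.sqrt x) ^ 4 := by ring
        _ < ((N : ℝ) + 1) ^ 4 := pow_lt_pow_left₀ hlt (by positivity) (by norm_num)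
    exact_mod_cast h4
  have h5 := H D N D.natAbs b1 b2 b3
  calc (N : ℝ) * EE D N ≤ (t * Real.sqrt x) * (C * EE D D.natAbs) :=
        mul_le_mul hfl h5 (EE_pos D N).le (by positivity)
    _ = C * t * HH D := by rw [HH]; ring

theorem tti_HH_nonneg (D : ℤ) : 0 ≤ HH D := mul_nonneg (Real.sqrt_nonneg _) (EE_pos _ _).le

theorem tti_mono (D : ℤ) {t t' : ℝ} (h : t ≤ t') {P P' : ℕ} (hP : P' ∣ P) :
    Sh D t P ⊆ Sh D t' P' := by
  rintro z ⟨n, h1, h2, h3⟩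
  exact ⟨n, h1.trans (mul_le_mul_of_nonneg_right h (Real.sqrt_nonneg _)), hP.trans h2, h3⟩

theorem tti_jac (D : ℤ) (l : ℕ) : |(jacobiSym D l : ℝ)| ≤ 1 := by
  rcases jacobiSym.trichotomy D l with h | h | h <;> rw [h] <;> simp

theorem Sh_le : ∃ K : ℝ, 0 < K ∧ ∀ (D : ℤ) (t : ℝ), IsD D →
    1 ≤ t ^ 4 * (-(D : ℝ)) → 0 ≤ t → t ≤ -(D : ℝ) → ((Sh D t 1).ncard : ℝ) ≤ K * t * HH D := by
  obtain ⟨K, hK, HK⟩ := exists_fI
  obtain ⟨C, hC, HC⟩ := ht_le K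
  obtain ⟨C', hC', HE⟩ := tti_EE
  refine ⟨K * C * C', by positivity, fun D t hD h1 h2 h3 => ?_⟩
  obtain ⟨f, hf, hI⟩ := HK D hD
  have h4 := HE D t hD h1 h2 h3
  have h5 := tti_sum D t 1
  set N : ℕ := ⌊t * Real.sqrt (-(D : ℝ))⌋₊ with hN
  have h6 := HC _ f hf N
  rw [Finset.filter_true_of_mem fun n _ => one_dvd n] at h5
  calc _ ≤ _ := h5
    _ ≤ ∑ n ∈ Icc 1 N, K * f n :=
        Finset.sum_le_sum fun n hn => hI n (Finset.mem_Icc.1 hn).1
    _ = K * ∑ n ∈ Icc 1 N, f n := (Finset.mul_sum _ _ _).symm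
    _ ≤ K * (C * N * EE D N) := mul_le_mul_of_nonneg_left h6 (by linarith)
    _ = K * C * (N * EE D N) := by ring
    _ ≤ K * C * (C' * t * HH D) := mul_le_mul_of_nonneg_left h4 (by positivity)
    _ = _ := by ring

theorem Sh_dvd {p : ℕ} (hp : p.Prime) (t : ℝ) {δ : ℝ} (hδ : 0 < δ) : ∃ m : ℕ, ∀ D : ℤ, IsD D →
    ((Sh D t (p ^ m)).ncard : ℝ) ≤ δ * HH D := by
  obtain ⟨K, hK, HK⟩ := exists_fI
  obtain ⟨C', hC', HE⟩ := tti_EE
  obtain ⟨u, hu1, hu⟩ : ∃ u : ℝ, 1 ≤ u ∧ t ≤ u := ⟨max t 1, le_max_right _ _, le_max_left _ _⟩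
  have hK0 : 0 < K := by linarith
  have hu0 : 0 < u := by linarith
  obtain ⟨m₁, H1⟩ := ht_dvd K hp (δ := δ / (K * C' * u)) (by positivity)
  obtain ⟨m₂, H2⟩ := pow_unbounded_of_one_lt (u * u) (show (1 : ℝ) < p by exact_mod_cast hp.one_lt)
  refine ⟨max m₁ m₂, fun D hD => ?_⟩
  have hx := tti_three hD
  rcases le_or_gt u (-(D : ℝ)) with h | h
  · have h0 : ((Sh D t (p ^ max m₁ m₂)).ncard : ℝ) ≤ (Sh D u (p ^ m₁)).ncard := by
      exact_mod_cast Set.ncard_le_ncard (tti_mono D hu (pow_dvd_pow p (le_max_left _ _)))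
        (tti_finite _ _ _)
    obtain ⟨f, hf, hI⟩ := HK D hD
    have h1 : 1 ≤ u ^ 4 * (-(D : ℝ)) :=
      one_le_mul_of_one_le_of_one_le (one_le_pow₀ hu1) (by linarith)
    have h4 := HE D u hD h1 hu0.le h
    have h5 := tti_sum D u (p ^ m₁)
    set N : ℕ := ⌊u * Real.sqrt (-(D : ℝ))⌋₊ with hN
    have h6 := H1 _ f hf (tti_jac D) N
    calc _ ≤ _ := h0
      _ ≤ _ := h5
      _ ≤ ∑ n ∈ (Icc 1 N).filter (fun n => p ^ m₁ ∣ n), K * f n :=
          Finset.sum_le_sum fun n hn => hI n (Finset.mem_Icc.1 (Finset.mem_filter.1 hn).1).1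
      _ = K * ∑ n ∈ (Icc 1 N).filter (fun n => p ^ m₁ ∣ n), f n := (Finset.mul_sum _ _ _).symm
      _ ≤ K * (δ / (K * C' * u) * N * EE D N) := mul_le_mul_of_nonneg_left h6 hK0.le
      _ = K * (δ / (K * C' * u)) * (N * EE D N) := by ring
      _ ≤ K * (δ / (K * C' * u)) * (C' * u * HH D) :=
          mul_le_mul_of_nonneg_left h4 (by positivity)
      _ = _ := by field_simp
  · have h0 : Sh D t (p ^ max m₁ m₂) = ∅ := by
      refine Set.eq_empty_of_forall_notMem fun z hz => ?_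
      obtain ⟨n, h1, h2, 𝔞, h3, -⟩ := tti_mono D hu (pow_dvd_pow p (le_max_right m₁ m₂)) hz
      have h4 : ((p ^ m₂ : ℕ) : ℝ) ≤ n := by exact_mod_cast Nat.le_of_dvd (tti_pos h3) h2
      have hq : Real.sqrt (-(D : ℝ)) ≤ u :=
        (Real.sqrt_le_iff.2 ⟨by linarith, by nlinarith⟩ : _ ≤ -(D : ℝ)).trans h.le
      have h5 := mul_le_mul_of_nonneg_left hq hu0.le
      push_cast at h4
      linarith
    rw [h0, Set.ncard_empty, Nat.cast_zero]
    exact mul_nonneg hδ.le (tti_HH_nonneg D)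

/-- Every class has a reduced form. -/
theorem exists_red {E : ℤ} {w : ℂ} (hw : w ∈ Cl E) : ∃ a b c : ℤ, 0 < a ∧ |b| ≤ a ∧ a ≤ c ∧
    Int.gcd (Int.gcd a b) c = 1 ∧ b ^ 2 - 4 * a * c = E ∧
      jL (sp a ((b - th E) / 2)) = w := by
  obtain ⟨Λ, ⟨c, τ, hc, rfl, hτ⟩, rfl⟩ := hw
  obtain ⟨γ, hγ⟩ := ModularGroup.exists_smul_mem_fd τ
  rw [jL_sp hc, ← jInv_smul γ τ]
  obtain ⟨a, b, k, ha, hg, he, hd⟩ := hτ.smul γ
  generalize γ • τ = σ at hγ he
  have hr := HasDisc.root ha he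
  rw [← hd] at hr
  obtain ⟨i1, i2⟩ := ord_parts he
  have ha' : (0 : ℝ) < a := by exact_mod_cast ha
  have i4 := abs_le.1 hγ.2
  have i5 : 1 ≤ σ.re ^ 2 + σ.im ^ 2 := by
    have := hγ.1
    rw [Complex.normSq_apply] at this
    simpa [sq] using this
  have i7 : (b : ℝ) ≤ a := by nlinarith
  have i8 : -(a : ℝ) ≤ b := by nlinarith
  have i9 : (a : ℝ) ≤ k := by
    have e : (a : ℝ) * k = a * (a * (σ.re ^ 2 + σ.im ^ 2)) := by
      push_cast at i2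
      linear_combination (1 / 4 : ℝ) * i2 + (1 / 4 : ℝ) * (b - 2 * a * σ.re) * i1
    have e2 := mul_left_cancel₀ ha'.ne' e
    nlinarith
  have ha0 : (a : ℂ) ≠ 0 := by exact_mod_cast ha.ne'
  refine ⟨a, b, k, ha, abs_le.2 ⟨by exact_mod_cast i8, by exact_mod_cast i7⟩,
    by exact_mod_cast i9, hg, hd.symm, ?_⟩
  have e : ((b : ℂ) - th E) / 2 = -(a * σ) := by
    rw [← hr]
    ring
  rw [e, ord_sp_neg, jL_sp ha0]

theorem mem_Sh_of_fd {τ : UpperHalfPlane} {D : ℤ} (h : HasDisc τ D) {t : ℝ}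
    (ht : 1 ≤ t * τ.im) : jInv τ ∈ Sh D t 1 := by
  have hD := h.isD
  obtain ⟨a, b, c, ha, hg, he, hd⟩ := id h
  have ha' : (0 : ℝ) < a := by exact_mod_cast ha
  have ha0 : (a : ℂ) ≠ 0 := by exact_mod_cast ha.ne'
  have hy := τ.im_pos
  have hs := ctB_sqrt_pos hD.1
  have i1 : Real.sqrt (-(D : ℝ)) = 2 * a * τ.im := by
    rw [hd, (ord_parts he).2, Real.sqrt_sq (by positivity)]
  have hn : ((a.toNat : ℕ) : ℝ) = a := by
    have : ((a.toNat : ℕ) : ℤ) = a := Int.toNat_of_nonneg ha.le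
    exact_mod_cast this
  refine ⟨a.toNat, ?_, one_dvd _, sp a (a * τ), ⟨⟨a, τ, ha0, rfl, h⟩, ?_, ?_⟩, jL_sp ha0 τ⟩
  · rw [hn, i1]
    nlinarith
  · rw [hd, ord_OD_eq ha he]
    exact ord_sp_le.2 ⟨mem_sp.2 ⟨a, 0, by simp⟩, ord_right _ _⟩
  · rw [nm, vol_sp ha0, hn, i1, Complex.normSq_intCast]
    field_simp

theorem Cl_le : ∃ K : ℝ, 0 < K ∧ ∀ D : ℤ, IsD D → ((Cl D).ncard : ℝ) ≤ K * HH D := by
  obtain ⟨K, hK, H⟩ := Sh_le
  refine ⟨K * 2, by positivity, fun D hD => ?_⟩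
  have hx := tti_three hD
  refine le_trans ?_ (H D 2 hD (by linarith) (by norm_num) (by linarith))
  have hsub : Cl D ⊆ Sh D 2 1 := by
    rintro z ⟨Λ, ⟨c, τ, hc, rfl, hτ⟩, rfl⟩
    obtain ⟨γ, hγ⟩ := ModularGroup.exists_smul_mem_fd τ
    rw [jL_sp hc, ← jInv_smul γ τ]
    refine mem_Sh_of_fd (hτ.smul γ) ?_
    have h3 := ModularGroup.three_le_four_mul_im_sq_of_mem_fd hγ
    have h4 := (γ • τ).im_pos
    nlinarith
  exact_mod_cast Set.ncard_le_ncard hsub (tti_finite _ _ _)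

/-- Few classes have a very small leading coefficient. -/
theorem card_small_red (E : ℤ) (Y : ℕ) :
    {w | ∃ a b c : ℤ, 0 < a ∧ |b| ≤ a ∧ a ≤ Y ∧ b ^ 2 - 4 * a * c = E ∧
      jL (sp a ((b - th E) / 2)) = w}.ncard ≤ 3 * Y ^ 2 := by
  have hsub : {w | ∃ a b c : ℤ, 0 < a ∧ |b| ≤ a ∧ a ≤ Y ∧ b ^ 2 - 4 * a * c = E ∧
      jL (sp a ((b - th E) / 2)) = w} ⊆ (fun x : ℤ × ℤ => jL (sp x.1 ((x.2 - th E) / 2))) ''
        ((Icc (1 : ℤ) Y ×ˢ Icc (-(Y : ℤ)) Y : Finset (ℤ × ℤ)) : Set (ℤ × ℤ)) := by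
    rintro w ⟨a, b, c, h1, h2, h3, -, h5⟩
    refine ⟨(a, b), ?_, h5⟩
    have h6 := abs_le.1 h2
    simp only [Finset.mem_coe, Finset.mem_product, Finset.mem_Icc]
    omega
  refine (Set.ncard_le_ncard hsub ((Finset.finite_toSet _).image _)).trans ?_
  refine (Set.ncard_image_le (Finset.finite_toSet _)).trans ?_
  rw [Set.ncard_coe_finset, Finset.card_product, Int.card_Icc, Int.card_Icc]
  have e1 : ((Y : ℤ) + 1 - 1).toNat = Y := by omega
  have e2 : ((Y : ℤ) + 1 - -(Y : ℤ)).toNat = 2 * Y + 1 := by omega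
  rw [e1, e2]
  nlinarith [Nat.le_self_pow two_ne_zero Y]

end Pool.Agent.EQ
end
end

-- part Pool.Agent.P.MP_ad7a55_nt.UMe
section

/-! Ergodicity of the diagonal elements and the measure of thin neighbourhoods. -/

set_option autoImplicit false

noncomputable section

open MeasureTheory Topology Filter UpperHalfPlane
open scoped MatrixGroups ENNReal BoundedContinuousFunction

namespace Pool.Agent.EQ

/-- A transformation is ergodic when its invariant measure is extreme. -/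
theorem ergodic_of_ext {X : Type} [MeasurableSpace X] (m : Measure X) [IsProbabilityMeasure m]
    {T : X → X} (hT : MeasurePreserving T m m)
    (h : ∀ μ : Measure X, μ ≤ m → μ.map T = μ → μ = μ Set.univ • m) : Ergodic T m := by
  refine ⟨hT, ⟨fun s hs hi => ?_⟩⟩
  have h1 := (hT.restrict_preimage hs).map_eq
  rw [hi] at h1
  have h2 := congrArg (fun μ : Measure X => μ sᶜ) (h _ Measure.restrict_le_self h1)
  simp only [Measure.restrict_apply hs.compl, Set.compl_inter_self, measure_empty,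
    Measure.restrict_apply MeasurableSet.univ, Set.univ_inter, Measure.smul_apply,
    smul_eq_mul] at h2
  rw [eventuallyConst_set]
  rcases mul_eq_zero.1 h2.symm with h3 | h3
  · exact Or.inr (measure_eq_zero_iff_ae_notMem.1 h3)
  · exact Or.inl h3

variable {p q : ℕ} [Fact p.Prime] [Fact q.Prime]

theorem ume_pow_lt {t : ℕ} (ht : 0 < t) : ‖(p : ℚ_[p]) ^ t‖ < 1 := by
  rw [norm_pow]
  exact pow_lt_one₀ (norm_nonneg _) Padic.norm_p_lt_one ht.ne'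

theorem erg_a3 (hpq : p ≠ q) {t : ℕ} (ht : 0 < t) :
    Ergodic (fun x : X3 p q => a3 p q t • x) (m3 p q) := by
  refine ergodic_of_ext _ ⟨measurable_const_smul _, m3_inv hpq _⟩ fun μ hμ hi => ?_
  have : IsFiniteMeasure μ := isFiniteMeasure_of_le _ hμ
  refine eq_m3_of_P hpq μ fun g => ?_
  exact maut_contract (mprop_Stab (m3 p q) μ (m3_inv hpq) hμ)
    ((MonoidHom.inl (GG p) SL(2, ℚ_[q])).comp (MonoidHom.inr SL(2, ℝ) SL(2, ℚ_[p])))
    ((continuous_const.prodMk continuous_id).prodMk continuous_const) ((p : ℚ_[p]) ^ t)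
    (pow_ne_zero _ (Nat.cast_ne_zero.2 (Fact.out : p.Prime).ne_zero)) (ume_pow_lt ht)
    (A := a3 p q t) hi (fun b => by simp [a3, aP]) g

theorem erg_b3 (hpq : p ≠ q) (h : SL(2, ℚ_[q])) {t : ℕ} (ht : 0 < t) :
    Ergodic (fun x : X3 p q => b3 p q h t • x) (m3 p q) := by
  refine ergodic_of_ext _ ⟨measurable_const_smul _, m3_inv hpq _⟩ fun μ hμ hi => ?_
  have : IsFiniteMeasure μ := isFiniteMeasure_of_le _ hμ
  refine eq_m3_of_Q hpq μ fun g => ?_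
  have := maut_contract (mprop_Stab (m3 p q) μ (m3_inv hpq) hμ)
    ((MonoidHom.inr (GG p) SL(2, ℚ_[q])).comp (MulAut.conj h).toMonoidHom)
    (continuous_const.prodMk ((continuous_const.mul continuous_id).mul continuous_const))
    ((q : ℚ_[q]) ^ t)
    (pow_ne_zero _ (Nat.cast_ne_zero.2 (Fact.out : q.Prime).ne_zero)) (ume_pow_lt ht)
    (A := b3 p q h t) hi (fun b => by simp [b3, aP, mul_assoc]) (h⁻¹ * g * h)
  simpa [mul_assoc, iQ] using this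

theorem ume_count {H : Type} [Group H] [MeasurableSpace H] [MeasurableMul H] (μ : Measure H)
    [μ.IsMulLeftInvariant] {E D : Set H} (hE : MeasurableSet E) (N : ℕ) (u : ℕ → H)
    (hD : ∀ s, ∀ g ∈ E, u s * g ∈ D)
    (hd : ∀ s < N, ∀ s' < N, ∀ g ∈ E, ∀ g' ∈ E, u s * g = u s' * g' → s = s') :
    N * μ E ≤ μ D := by
  have h1 : μ (⋃ s ∈ Finset.range N, (fun x => (u s)⁻¹ * x) ⁻¹' E) =
      ∑ s ∈ Finset.range N, μ ((fun x => (u s)⁻¹ * x) ⁻¹' E) := by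
    refine measure_biUnion_finset (fun s hs s' hs' h => ?_) fun s _ =>
      measurable_const_mul _ hE
    refine Set.disjoint_left.2 fun x h2 h3 => h ?_
    exact hd s (Finset.mem_range.1 hs) s' (Finset.mem_range.1 hs') _ h2 _ h3 (by simp)
  simp only [measure_preimage_mul, Finset.sum_const, Finset.card_range, nsmul_eq_mul] at h1
  rw [← h1]
  refine measure_mono (Set.iUnion₂_subset fun s _ x hx => ?_)
  simpa using hD s _ hx

theorem ume_unit {g : SL(2, ℚ_[p])} (hg : g ∈ Kp p) (h : ‖g 0 1‖ < 1 ∨ ‖g 1 0‖ < 1) :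
    ‖g 0 0‖ = 1 ∧ ‖g 1 1‖ = 1 := by
  have hd : g 0 0 * g 1 1 - g 0 1 * g 1 0 = 1 := by
    have := g.det_coe
    rwa [Matrix.det_fin_two] at this
  have h1 : ‖g 0 1 * g 1 0‖ < 1 := by
    rw [norm_mul]
    rcases h with h | h
    · exact (mul_le_of_le_one_right (norm_nonneg _) (hg 1 0)).trans_lt h
    · exact (mul_le_of_le_one_left (norm_nonneg _) (hg 0 1)).trans_lt h
  have h2 : 1 ≤ ‖g 0 0‖ * ‖g 1 1‖ := by
    have h3 := Padic.nonarchimedean (g 0 0 * g 1 1) (-(g 0 1 * g 1 0))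
    rw [← sub_eq_add_neg, hd, norm_one, norm_neg, norm_mul] at h3
    exact (le_max_iff.1 h3).resolve_right (not_le.2 h1)
  exact ⟨le_antisymm (hg 0 0) (h2.trans (mul_le_of_le_one_right (norm_nonneg _) (hg 1 1))),
    le_antisymm (hg 1 1) (h2.trans (mul_le_of_le_one_left (norm_nonneg _) (hg 0 0)))⟩

theorem ume_appr (n : ℕ) {x y : ℚ_[p]} (hx : ‖x‖ ≤ 1) (hy : ‖y‖ = 1) :
    ∃ s : ℕ, s < p ^ n ∧ ‖x - s * y‖ ≤ (p : ℝ) ^ (-(n : ℤ)) := by
  have hy0 : y ≠ 0 := by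
    rintro rfl
    simp at hy
  let z : ℤ_[p] := ⟨x / y, by rw [norm_div, hy, div_one]; exact hx⟩
  refine ⟨z.appr n, z.appr_lt n, ?_⟩
  have h1 := (PadicInt.norm_le_pow_iff_mem_span_pow _ n).2 (PadicInt.appr_spec n z)
  have h2 : x - (z.appr n : ℚ_[p]) * y = ((z - z.appr n : ℤ_[p]) : ℚ_[p]) * y := by
    push_cast
    simp only [z]
    field_simp
  rw [h2, norm_mul, hy, mul_one]
  exact h1

theorem ume_thin (hpq : p ≠ q) {𝒪 : Set (G3 p q)} (h𝒪 : IsCompact 𝒪)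
    (hK : ∀ g ∈ 𝒪, g.1.2 ∈ Kp p) (i j : Fin 2) (v : ℚ_[p] → SL(2, ℚ_[p]))
    (hv : ∀ s, ‖s‖ ≤ 1 → v s ∈ Kp p)
    (h1 : ∀ s (g : SL(2, ℚ_[p])), (v s * g) i j = g i j + s * g j j)
    (h2 : ∀ s (g : SL(2, ℚ_[p])), (v s * g) j j = g j j)
    (h3 : ∀ g ∈ Kp p, ‖g i j‖ < 1 → ‖g j j‖ = 1) :
    ∃ C : ℝ, ∀ (n : ℕ) (y : X3 p q),
      m3 p q {x | ∃ g ∈ 𝒪, ‖g.1.2 i j‖ ≤ (p : ℝ) ^ (-(n : ℤ)) ∧ x = g • y} ≤
        ENNReal.ofReal (C * (p : ℝ) ^ (-(n : ℤ))) := by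
  have hp0 : (0 : ℝ) < p := Nat.cast_pos.2 (Fact.out : p.Prime).pos
  have hp1 : (1 : ℝ) < p := Nat.one_lt_cast.2 (Fact.out : p.Prime).one_lt
  set μ : Measure (G3 p q) := Measure.haar with hμ
  obtain ⟨c, hc, hle⟩ := m3_le hpq μ
  have hiP : Continuous (iP p q) :=
    (continuous_const.prodMk continuous_id).prodMk continuous_const
  set D : Set (G3 p q) :=
    (fun z : SL(2, ℚ_[p]) × G3 p q => iP p q z.1 * z.2) '' ((Kp p : Set _) ×ˢ 𝒪) with hD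
  have hDc : IsCompact D :=
    ((Kp_compact p).prod h𝒪).image ((hiP.comp continuous_fst).mul continuous_snd)
  have hfin : c * μ D ≠ ∞ := ENNReal.mul_ne_top hc hDc.measure_lt_top.ne
  refine ⟨(c * μ D).toReal, fun n y => ?_⟩
  set E : Set (G3 p q) := 𝒪 ∩ {g | ‖g.1.2 i j‖ ≤ (p : ℝ) ^ (-(n : ℤ))} with hE
  have hEc : IsCompact E := h𝒪.inter_right (isClosed_le
    ((continuous_subtype_val.matrix_elem i j).comp continuous_fst.snd).norm continuous_const)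
  have e : {x | ∃ g ∈ 𝒪, ‖g.1.2 i j‖ ≤ (p : ℝ) ^ (-(n : ℤ)) ∧ x = g • y} =
      (fun g => g • y) '' E := by
    ext x
    constructor
    · rintro ⟨g, a1, a2, a3⟩
      exact ⟨g, ⟨a1, a2⟩, a3.symm⟩
    · rintro ⟨g, ⟨a1, a2⟩, a3⟩
      exact ⟨g, a1, a2, a3.symm⟩
  have h4 : ((p ^ n : ℕ) : ℝ≥0∞) * μ E ≤ μ D := by
    refine ume_count μ hEc.measurableSet (p ^ n) (fun s => iP p q (v s)) (fun s g hg => ?_)
      fun s hs s' hs' g hg g' hg' h => ?_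
    · exact ⟨(v s, g), ⟨hv _ (IsUltrametricDist.norm_natCast_le_one _ _), hg.1⟩, rfl⟩
    · rcases Nat.eq_zero_or_pos n with rfl | hn
      · rw [pow_zero] at hs hs'
        omega
      have h5 : v s * g.1.2 = v s' * g'.1.2 := congrArg (fun z : G3 p q => z.1.2) h
      have h6 : g.1.2 j j = g'.1.2 j j := by rw [← h2 s, h5, h2]
      have h7 : g.1.2 i j + s * g.1.2 j j = g'.1.2 i j + s' * g.1.2 j j := by
        rw [← h1 s, h5, h1, h6]
      have h8 : ‖g.1.2 j j‖ = 1 := h3 _ (hK g hg.1)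
        (lt_of_le_of_lt hg.2 (zpow_lt_one_of_neg₀ hp1 (by omega)))
      have h9 : (((s : ℤ) - s' : ℤ) : ℚ_[p]) * g.1.2 j j = g'.1.2 i j + -g.1.2 i j := by
        push_cast
        linear_combination h7
      have h10 : ‖(((s : ℤ) - s' : ℤ) : ℚ_[p])‖ ≤ (p : ℝ) ^ (-(n : ℤ)) := by
        rw [← mul_one ‖_‖, ← h8, ← norm_mul, h9]
        refine (Padic.nonarchimedean _ _).trans (max_le hg'.2 ?_)
        rw [norm_neg]
        exact hg.2
      have h11 := (Padic.norm_int_le_pow_iff_dvd _ n).1 h10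
      have h12 : s' ≡ s [MOD p ^ n] := (Nat.modEq_iff_dvd).2 (by exact_mod_cast h11)
      exact (h12.eq_of_lt_of_lt hs' hs).symm
  have h13 : ENNReal.ofReal ((p : ℝ) ^ (-(n : ℤ))) * ((p ^ n : ℕ) : ℝ≥0∞) = 1 := by
    rw [← ENNReal.ofReal_natCast, ← ENNReal.ofReal_mul (by positivity), ENNReal.ofReal_eq_one,
      zpow_neg, zpow_natCast]
    push_cast
    exact inv_mul_cancel₀ (by positivity)
  rw [e, ENNReal.ofReal_mul ENNReal.toReal_nonneg, ENNReal.ofReal_toReal hfin, mul_assoc]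
  refine (hle E hEc y).trans (mul_le_mul_right ?_ _)
  rw [← one_mul (μ E), ← h13, mul_assoc, mul_comm (μ D)]
  exact mul_le_mul_right h4 _

theorem m3_up (hpq : p ≠ q) {𝒪 : Set (G3 p q)} (h𝒪 : IsCompact 𝒪) (hK : ∀ g ∈ 𝒪, g.1.2 ∈ Kp p) :
    ∃ C : ℝ, ∀ (n : ℕ) (y : X3 p q),
      m3 p q {x | ∃ g ∈ 𝒪, ‖g.1.2 0 1‖ ≤ (p : ℝ) ^ (-(n : ℤ)) ∧ x = g • y} ≤
        ENNReal.ofReal (C * (p : ℝ) ^ (-(n : ℤ))) := by
  refine ume_thin hpq h𝒪 hK 0 1 uu (fun s hs => uu_mem_Kp p hs) (fun s g => ?_) (fun s g => ?_)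
    fun g hg h => (ume_unit hg (Or.inl h)).2
  · simp [Matrix.mul_apply, Fin.sum_univ_two]
  · simp [Matrix.mul_apply, Fin.sum_univ_two]

theorem m3_low (hpq : p ≠ q) {𝒪 : Set (G3 p q)} (h𝒪 : IsCompact 𝒪) (hK : ∀ g ∈ 𝒪, g.1.2 ∈ Kp p) :
    ∃ C : ℝ, ∀ (n : ℕ) (y : X3 p q),
      m3 p q {x | ∃ g ∈ 𝒪, ‖g.1.2 1 0‖ ≤ (p : ℝ) ^ (-(n : ℤ)) ∧ x = g • y} ≤
        ENNReal.ofReal (C * (p : ℝ) ^ (-(n : ℤ))) := by
  refine ume_thin hpq h𝒪 hK 1 0 ul (fun s hs => ul_mem_Kp p hs) (fun s g => ?_) (fun s g => ?_)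
    fun g hg h => (ume_unit hg (Or.inr h)).1
  · simp [Matrix.mul_apply, Fin.sum_univ_two, add_comm]
  · simp [Matrix.mul_apply, Fin.sum_univ_two]

/-- The congruence subgroup of matrices that are diagonal modulo `p ^ n`. -/
def KD (p : ℕ) [Fact p.Prime] (n : ℕ) : Set SL(2, ℚ_[p]) :=
  {g | g ∈ Kp p ∧ ‖g 0 1‖ ≤ (p : ℝ) ^ (-(n : ℤ)) ∧ ‖g 1 0‖ ≤ (p : ℝ) ^ (-(n : ℤ))}

theorem KD_inv_mul {n : ℕ} {a b : SL(2, ℚ_[p])} (ha : a ∈ KD p n) (hb : b ∈ KD p n) :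
    a⁻¹ * b ∈ KD p n := by
  have key : ∀ x y z w : ℚ_[p], ‖x‖ ≤ 1 → ‖y‖ ≤ (p : ℝ) ^ (-(n : ℤ)) →
      ‖z‖ ≤ (p : ℝ) ^ (-(n : ℤ)) → ‖w‖ ≤ 1 → ‖x * y + -z * w‖ ≤ (p : ℝ) ^ (-(n : ℤ)) := by
    intro x y z w hx hy hz hw
    refine (Padic.nonarchimedean _ _).trans (max_le ?_ ?_)
    · rw [norm_mul]
      exact (mul_le_of_le_one_left (norm_nonneg _) hx).trans hy
    · rw [norm_mul, norm_neg]
      exact (mul_le_of_le_one_right (norm_nonneg _) hw).trans hz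
  refine ⟨(Kp p).mul_mem ((Kp p).inv_mem ha.1) hb.1, ?_, ?_⟩
  · have := key _ _ _ _ (ha.1 1 1) hb.2.1 ha.2.1 (hb.1 1 1)
    rw [Matrix.SpecialLinearGroup.SL2_inv_expl]
    simpa [Matrix.mul_apply, Fin.sum_univ_two] using this
  · have := key _ _ _ _ (ha.1 0 0) hb.2.2 ha.2.2 (hb.1 0 0)
    rw [add_comm] at this
    rw [Matrix.SpecialLinearGroup.SL2_inv_expl]
    simpa [Matrix.mul_apply, Fin.sum_univ_two] using this

theorem KD_compact (n : ℕ) : IsCompact (KD p n) ∧ IsOpen (KD p n) := by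
  have hc : ∀ i j, Continuous fun g : SL(2, ℚ_[p]) => g i j := fun i j =>
    continuous_subtype_val.matrix_elem i j
  have hp : (0 : ℝ) < (p : ℝ) ^ (-(n : ℤ)) :=
    zpow_pos (Nat.cast_pos.2 (Fact.out : p.Prime).pos) _
  have ho : ∀ i j, IsOpen {g : SL(2, ℚ_[p]) | ‖g i j‖ ≤ (p : ℝ) ^ (-(n : ℤ))} := fun i j => by
    have := (IsUltrametricDist.isOpen_closedBall (0 : ℚ_[p]) hp.ne').preimage (hc i j)
    refine (Set.ext fun g => ?_ : _ = {g : SL(2, ℚ_[p]) | ‖g i j‖ ≤ (p : ℝ) ^ (-(n : ℤ))}) ▸ this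
    exact mem_closedBall_zero_iff
  exact ⟨(Kp_compact p).inter_right ((isClosed_le (hc 0 1).norm continuous_const).inter
    (isClosed_le (hc 1 0).norm continuous_const)), (Kp_open p).inter ((ho 0 1).inter (ho 1 0))⟩

theorem haar_KD (μ : Measure SL(2, ℚ_[p])) [μ.IsHaarMeasure] : ∃ c : ℝ, 0 < c ∧ ∀ n : ℕ,
    ENNReal.ofReal (c * (p : ℝ) ^ (-(2 * n : ℤ))) ≤ μ (KD p n) := by
  have := unimod μ
  have hp0 : (0 : ℝ) < p := Nat.cast_pos.2 (Fact.out : p.Prime).pos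
  have hp1 : (1 : ℝ) < p := Nat.one_lt_cast.2 (Fact.out : p.Prime).one_lt
  have h1 : (1 : SL(2, ℚ_[p])) ∈ KD p 1 := ⟨(Kp p).one_mem, by simp, by simp⟩
  have hpos : μ (KD p 1) ≠ 0 := (KD_compact 1).2.measure_ne_zero μ ⟨1, h1⟩
  have hfin : μ (KD p 1) ≠ ∞ := (KD_compact 1).1.measure_lt_top.ne
  refine ⟨(μ (KD p 1)).toReal, ENNReal.toReal_pos hpos hfin, fun n => ?_⟩
  have hsub : KD p 1 ⊆ ⋃ z ∈ Finset.range (p ^ n) ×ˢ Finset.range (p ^ n),
      (fun g => g * uu (-(z.2 : ℚ_[p]))) ⁻¹' ((fun g => ul (-(z.1 : ℚ_[p])) * g) ⁻¹' KD p n) := by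
    intro g hg
    have hlt : ‖g 0 1‖ < 1 := hg.2.1.trans_lt (zpow_lt_one_of_neg₀ hp1 (by norm_num))
    have h00 := (ume_unit hg.1 (Or.inl hlt)).1
    obtain ⟨s, hs, hs'⟩ := ume_appr n (hg.1 0 1) h00
    obtain ⟨t, ht, ht'⟩ := ume_appr n (hg.1 1 0) h00
    refine Set.mem_biUnion (x := (t, s))
      (Finset.mem_coe.2 (Finset.mem_product.2 ⟨Finset.mem_range.2 ht, Finset.mem_range.2 hs⟩)) ?_
    refine ⟨(Kp p).mul_mem (ul_mem_Kp p ?_) ((Kp p).mul_mem hg.1 (uu_mem_Kp p ?_)), ?_, ?_⟩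
    · rw [norm_neg]
      exact IsUltrametricDist.norm_natCast_le_one _ _
    · rw [norm_neg]
      exact IsUltrametricDist.norm_natCast_le_one _ _
    · have e : (ul (-(t : ℚ_[p])) * (g * uu (-(s : ℚ_[p])))) 0 1 = g 0 1 - s * g 0 0 := by
        simp [Matrix.mul_apply, Fin.sum_univ_two]
        ring
      exact e ▸ hs'
    · have e : (ul (-(t : ℚ_[p])) * (g * uu (-(s : ℚ_[p])))) 1 0 = g 1 0 - t * g 0 0 := by
        simp [Matrix.mul_apply, Fin.sum_univ_two]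
        ring
      exact e ▸ ht'
  have h2 := (measure_mono (μ := μ) hsub).trans (measure_biUnion_finset_le _ _)
  simp only [measure_preimage_mul_right, measure_preimage_mul, Finset.sum_const,
    Finset.card_product, Finset.card_range, nsmul_eq_mul] at h2
  have h3 : ENNReal.ofReal ((p : ℝ) ^ (-(2 * n : ℤ))) * ((p ^ n * p ^ n : ℕ) : ℝ≥0∞) = 1 := by
    rw [← ENNReal.ofReal_natCast, ← ENNReal.ofReal_mul (by positivity), ENNReal.ofReal_eq_one,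
      zpow_neg]
    refine inv_mul_eq_one₀ (by positivity) |>.2 ?_
    rw [two_mul, zpow_add₀ hp0.ne', zpow_natCast]
    push_cast
    rfl
  rw [ENNReal.ofReal_mul ENNReal.toReal_nonneg, ENNReal.ofReal_toReal hfin, mul_comm]
  refine (mul_le_mul_right h2 _).trans ?_
  rw [← mul_assoc, h3, one_mul]

end Pool.Agent.EQ
end
end

-- part Pool.Agent.P.MP_ad7a55_nt.VGn
section

/-! The covering space of level N. -/

set_option autoImplicit false

noncomputable section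

open MeasureTheory Topology Filter UpperHalfPlane
open scoped MatrixGroups ENNReal BoundedContinuousFunction

namespace Pool.Agent.EQ

def GamN (p N : ℕ) : Subgroup SL(2, ℚ) where
  carrier := {γ | γ ∈ GamQ p ∧ ∀ i j, InZp p ((γ i j - (1 : Matrix (Fin 2) (Fin 2) ℚ) i j) / N)}
  one_mem' := ⟨(GamQ p).one_mem, fun i j => by simpa using inZp_int p 0⟩
  mul_mem' := fun {a b} ha hb => ⟨(GamQ p).mul_mem ha.1 hb.1, fun i j => by
    have := (((ha.1 i 0).mul (hb.2 0 j)).add ((ha.1 i 1).mul (hb.2 1 j))).add (ha.2 i j)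
    refine (congrArg (InZp p) ?_).mp this
    have e : a i 0 * (1 : Matrix (Fin 2) (Fin 2) ℚ) 0 j + a i 1 * (1 : Matrix (Fin 2) (Fin 2) ℚ) 1 j =
        a i j := by fin_cases j <;> simp [Matrix.one_apply]
    simp only [Matrix.SpecialLinearGroup.coe_mul, Matrix.mul_apply, Fin.sum_univ_two]
    linear_combination (-(N : ℚ)⁻¹) * e⟩
  inv_mem' := fun {a} ha => ⟨(GamQ p).inv_mem ha.1, fun i j => by
    rw [Matrix.SpecialLinearGroup.SL2_inv_expl]
    fin_cases i <;> fin_cases j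
    · simpa using ha.2 1 1
    · simpa [neg_div] using (ha.2 0 1).neg
    · simpa [neg_div] using (ha.2 1 0).neg
    · simpa using ha.2 0 0⟩

variable (p : ℕ) [Fact p.Prime] (N : ℕ)

def GN : Subgroup (GG p) := (GamN p N).map (emb p)

theorem GN_le : GN p N ≤ Gam p := Subgroup.map_mono fun _ h => h.1

theorem GN_disc : Disc (GN p N) := fun _ hC =>
  (Gam_finite p hC).subset fun _ h => ⟨h.1, GN_le p N h.2⟩

instance GN_closed : IsClosed (GN p N : Set (GG p)) := isClosed_of_finite (GN_disc p N)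

abbrev XN : Type := GG p ⧸ GN p N

instance instPolishXN : PolishSpace (XN p N) := polish_of_lc _

instance instBSXN : BorelSpace (XN p N) := inferInstance

instance instCSXN : ContinuousSMul (GG p) (XN p N) := inferInstance

instance instMSXN : MeasurableConstSMul (GG p) (XN p N) := inferInstance

instance instBSPiN {κ : Type} [Fintype κ] : BorelSpace (κ → XN p N) := inferInstance

instance instPolishPiN {κ : Type} [Fintype κ] : PolishSpace (κ → XN p N) := inferInstance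

instance instCSPiN {κ : Type} : ContinuousSMul (κ → GG p) (κ → XN p N) := inferInstance

instance instMSPiN {κ : Type} [Fintype κ] : MeasurableConstSMul (κ → GG p) (κ → XN p N) :=
  inferInstance

theorem KN_mul {a b : SL(2, ℚ_[p])} (ha : a ∈ Kp p)
    (ha' : ∀ i j, ‖a i j - (1 : Matrix (Fin 2) (Fin 2) ℚ_[p]) i j‖ ≤ ‖(N : ℚ_[p])‖)
    (hb' : ∀ i j, ‖b i j - (1 : Matrix (Fin 2) (Fin 2) ℚ_[p]) i j‖ ≤ ‖(N : ℚ_[p])‖) (i j : Fin 2) :
    ‖(a * b) i j - (1 : Matrix (Fin 2) (Fin 2) ℚ_[p]) i j‖ ≤ ‖(N : ℚ_[p])‖ := by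
  have e : (a * b) i j - (1 : Matrix (Fin 2) (Fin 2) ℚ_[p]) i j =
      (a i 0 * (b 0 j - (1 : Matrix (Fin 2) (Fin 2) ℚ_[p]) 0 j) +
        a i 1 * (b 1 j - (1 : Matrix (Fin 2) (Fin 2) ℚ_[p]) 1 j)) +
        (a i j - (1 : Matrix (Fin 2) (Fin 2) ℚ_[p]) i j) := by
    have e : a i 0 * (1 : Matrix (Fin 2) (Fin 2) ℚ_[p]) 0 j +
        a i 1 * (1 : Matrix (Fin 2) (Fin 2) ℚ_[p]) 1 j = a i j := by
      fin_cases j <;> simp [Matrix.one_apply]
    simp only [Matrix.SpecialLinearGroup.coe_mul, Matrix.mul_apply, Fin.sum_univ_two]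
    linear_combination e
  rw [e]
  refine (Padic.nonarchimedean _ _).trans (max_le ((Padic.nonarchimedean _ _).trans
    (max_le ?_ ?_)) (ha' i j)) <;> rw [norm_mul] <;>
    exact (mul_le_of_le_one_left (norm_nonneg _) (ha _ _)).trans (hb' _ _)

theorem KN_inv {a : SL(2, ℚ_[p])}
    (ha' : ∀ i j, ‖a i j - (1 : Matrix (Fin 2) (Fin 2) ℚ_[p]) i j‖ ≤ ‖(N : ℚ_[p])‖) (i j : Fin 2) :
    ‖a⁻¹ i j - (1 : Matrix (Fin 2) (Fin 2) ℚ_[p]) i j‖ ≤ ‖(N : ℚ_[p])‖ := by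
  rw [Matrix.SpecialLinearGroup.SL2_inv_expl]
  fin_cases i <;> fin_cases j
  · simpa using ha' 1 1
  · simpa using ha' 0 1
  · simpa using ha' 1 0
  · simpa using ha' 0 0

/-- The principal congruence subgroup of level `N` of the integral matrices. -/
def KN : Subgroup SL(2, ℚ_[p]) where
  carrier := {k | k ∈ Kp p ∧
    ∀ i j, ‖k i j - (1 : Matrix (Fin 2) (Fin 2) ℚ_[p]) i j‖ ≤ ‖(N : ℚ_[p])‖}
  one_mem' := ⟨(Kp p).one_mem, fun i j => by simp⟩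
  mul_mem' := fun {_ _} ha hb => ⟨(Kp p).mul_mem ha.1 hb.1, KN_mul p N ha.1 ha.2 hb.2⟩
  inv_mem' := fun {_} ha => ⟨(Kp p).inv_mem ha.1, KN_inv p N ha.2⟩

theorem KN_le : KN p N ≤ Kp p := fun _ h => h.1

/-- The covering map. -/
def cov (x : XN p N) : XX p := Subgroup.quotientMapOfLE (GN_le p N) x

theorem cov_mk (g : GG p) : cov p N (g : XN p N) = (g : XX p) := rfl

def covP {κ : Type} (w : κ → XN p N) : κ → XX p := fun k => cov p N (w k)

def uflN {κ : Type} (d : κ → ℚ_[p]) : Flow ℚ_[p] (κ → XN p N) where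
  toFun s w := fun k => uP p (d k * s) • w k
  cont' := continuous_pi fun k =>
    ((continuous_uP p).comp (continuous_const.mul continuous_fst)).smul
      ((continuous_apply k).comp continuous_snd)
  map_add' s t x := by simp only [mul_add, uP_add, mul_smul]
  map_zero' x := by simp

theorem uflN_apply {κ : Type} (d : κ → ℚ_[p]) (s : ℚ_[p]) (w : κ → XN p N) :
    uflN p N d s w = fun k => uP p (d k * s) • w k := rfl

theorem cov_smul (g : GG p) (x : XN p N) : cov p N (g • x) = g • cov p N x := by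
  obtain ⟨h, rfl⟩ := QuotientGroup.mk_surjective x
  rfl

theorem continuous_cov : Continuous (cov p N) := by
  rw [(QuotientGroup.isQuotientMap_mk (GN p N)).continuous_iff]
  exact QuotientGroup.continuous_mk (N := Gam p)

theorem continuous_covP {κ : Type} : Continuous (covP p N : (κ → XN p N) → κ → XX p) :=
  continuous_pi fun k => (continuous_cov p N).comp (continuous_apply k)

theorem cov_surj (x : XX p) : ∃ y, cov p N y = x := by
  obtain ⟨h, rfl⟩ := QuotientGroup.mk_surjective x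
  exact ⟨(h : XN p N), rfl⟩

variable {p N}

theorem vgn_nat (c : ℕ) : ‖(c : ℚ_[p])‖ ≤ 1 := by
  simpa using Padic.norm_int_le_one (p := p) c

theorem vgn_mem {k : SL(2, ℚ_[p])}
    (h : ∀ i j, ‖k i j - (1 : Matrix (Fin 2) (Fin 2) ℚ_[p]) i j‖ ≤ ‖(N : ℚ_[p])‖) :
    k ∈ KN p N := by
  refine ⟨fun i j => ?_, h⟩
  rw [← sub_add_cancel (k i j) ((1 : Matrix (Fin 2) (Fin 2) ℚ_[p]) i j)]
  exact (Padic.nonarchimedean _ _).trans
    (max_le ((h i j).trans (vgn_nat N)) ((Kp p).one_mem i j))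

theorem vgn_eq : (KN p N : Set SL(2, ℚ_[p])) = ⋂ i, ⋂ j, (fun g : SL(2, ℚ_[p]) => g i j) ⁻¹'
    Metric.closedBall ((1 : Matrix (Fin 2) (Fin 2) ℚ_[p]) i j) ‖(N : ℚ_[p])‖ := by
  ext g
  simp only [Set.mem_iInter, Set.mem_preimage, mem_closedBall_iff_norm]
  exact ⟨fun h => h.2, vgn_mem⟩

theorem vgn_conj {R : Type} [CommRing R] (a k : SL(2, R)) (i j : Fin 2) :
    (a * k * a⁻¹) i j - (1 : Matrix (Fin 2) (Fin 2) R) i j =
      ∑ m, ∑ l, a i l * (k l m - (1 : Matrix (Fin 2) (Fin 2) R) l m) * a⁻¹ m j := by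
  have h : ((a * k * a⁻¹ : SL(2, R)) : Matrix (Fin 2) (Fin 2) R) - 1 =
      (a : Matrix (Fin 2) (Fin 2) R) * ((k : Matrix (Fin 2) (Fin 2) R) - 1) *
        ((a⁻¹ : SL(2, R)) : Matrix (Fin 2) (Fin 2) R) := by
    rw [mul_sub, sub_mul, mul_one, ← Matrix.SpecialLinearGroup.coe_mul,
      ← Matrix.SpecialLinearGroup.coe_mul, ← Matrix.SpecialLinearGroup.coe_mul, mul_inv_cancel,
      Matrix.SpecialLinearGroup.coe_one]
  have h2 := congrFun (congrFun h i) j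
  simp only [Matrix.mul_apply, Matrix.sub_apply, Finset.sum_mul] at h2
  exact h2

theorem vgn_bd {R : ℝ} {k a : SL(2, ℚ_[p])}
    (hk : ∀ i j, R * R * ‖k i j - (1 : Matrix (Fin 2) (Fin 2) ℚ_[p]) i j‖ ≤ ‖(N : ℚ_[p])‖)
    (ha : Bd R (a : Matrix (Fin 2) (Fin 2) ℚ_[p])) : a * k * a⁻¹ ∈ KN p N := by
  have hR : 0 ≤ R := (norm_nonneg _).trans (ha 0 0)
  have ha' : ∀ i j, ‖a⁻¹ i j‖ ≤ R := fun i j => by
    rw [Matrix.SpecialLinearGroup.SL2_inv_expl]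
    fin_cases i <;> fin_cases j
    · simpa using ha 1 1
    · simpa using ha 0 1
    · simpa using ha 1 0
    · simpa using ha 0 0
  refine vgn_mem fun i j => ?_
  have h : ∀ l m, ‖a i l * (k l m - (1 : Matrix (Fin 2) (Fin 2) ℚ_[p]) l m) * a⁻¹ m j‖ ≤
      ‖(N : ℚ_[p])‖ := fun l m => by
    refine le_trans ?_ (hk l m)
    rw [norm_mul, norm_mul, mul_right_comm R]
    exact mul_le_mul (mul_le_mul_of_nonneg_right (ha i l) (norm_nonneg _)) (ha' m j)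
      (norm_nonneg _) (by positivity)
  rw [vgn_conj]
  simp only [Fin.sum_univ_two]
  refine (Padic.nonarchimedean _ _).trans (max_le ?_ ?_) <;>
    exact (Padic.nonarchimedean _ _).trans (max_le (h _ _) (h _ _))

theorem vgn_gamma {δ : SL(2, ℤ)} : δ ∈ CongruenceSubgroup.Gamma N ↔
    ∀ i j, (N : ℤ) ∣ δ i j - (1 : Matrix (Fin 2) (Fin 2) ℤ) i j := by
  simp only [CongruenceSubgroup.Gamma_mem, ← ZMod.intCast_zmod_eq_zero_iff_dvd, Fin.forall_fin_two]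
  simp [sub_eq_zero, and_assoc]

theorem vgn_uu {x : ℚ} (hx : InZp p x) :
    ((uu ((N * x : ℚ) : ℝ), uu ((N * x : ℚ) : ℚ_[p])) : GG p) ∈ GN p N ∧
      ((ul ((N * x : ℚ) : ℝ), ul ((N * x : ℚ) : ℚ_[p])) : GG p) ∈ GN p N := by
  have h1 : InZp p 1 := by simpa using inZp_int p 1
  have h0 : InZp p 0 := by simpa using inZp_int p 0
  have h2 : InZp p (N * x) := by simpa using (inZp_int p N).mul hx
  have h3 : InZp p (N * x / N) := by
    rcases eq_or_ne (N : ℚ) 0 with h | h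
    · simpa [h] using h0
    · rwa [mul_div_cancel_left₀ _ h]
  refine ⟨⟨uu (N * x), ⟨fun i j => ?_, fun i j => ?_⟩, ?_⟩,
    ⟨ul (N * x), ⟨fun i j => ?_, fun i j => ?_⟩, ?_⟩⟩
  · fin_cases i <;> fin_cases j <;> simp [h0, h1, h2]
  · fin_cases i <;> fin_cases j <;> simp [h0, h3]
  · refine Prod.ext ?_ ?_ <;> ext i j <;> fin_cases i <;> fin_cases j <;> simp [emb]
  · fin_cases i <;> fin_cases j <;> simp [h0, h1, h2]
  · fin_cases i <;> fin_cases j <;> simp [h0, h3]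
  · refine Prod.ext ?_ ?_ <;> ext i j <;> fin_cases i <;> fin_cases j <;> simp [emb]

theorem GN_mono {N' : ℕ} (h : N ∣ N') (hN' : 0 < N') : GN p N' ≤ GN p N := by
  obtain ⟨c, rfl⟩ := h
  refine Subgroup.map_mono fun γ hγ => ⟨hγ.1, fun i j => ?_⟩
  have hc : (c : ℚ) ≠ 0 := by
    rintro h0
    have : c = 0 := by exact_mod_cast h0
    simp [this] at hN'
  refine (congrArg (InZp p) ?_).mp ((inZp_int p c).mul (hγ.2 i j))
  push_cast
  rw [mul_comm (N : ℚ), ← div_div, div_right_comm, mul_div_cancel₀ _ hc]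

theorem KN_mono {N' : ℕ} (h : N ∣ N') : KN p N' ≤ KN p N := by
  obtain ⟨c, rfl⟩ := h
  refine fun k hk => ⟨hk.1, fun i j => (hk.2 i j).trans ?_⟩
  rw [Nat.cast_mul, norm_mul]
  exact mul_le_of_le_one_right (norm_nonneg _) (vgn_nat c)

theorem KN_conj {k κ : SL(2, ℚ_[p])} (hk : k ∈ KN p N) (hκ : κ ∈ Kp p) :
    κ * k * κ⁻¹ ∈ KN p N := by
  refine vgn_bd (R := 1) (fun i j => ?_) hκ
  simpa using hk.2 i j

theorem KN_conj_bd {s : ℕ} {k a : SL(2, ℚ_[p])} (hk : k ∈ KN p (N * p ^ (2 * s)))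
    (ha : Bd ((p : ℝ) ^ s) (a : Matrix (Fin 2) (Fin 2) ℚ_[p])) : a * k * a⁻¹ ∈ KN p N := by
  refine vgn_bd (fun i j => ?_) ha
  have h1 := hk.2 i j
  have hp : (0 : ℝ) < p := by exact_mod_cast (Fact.out : p.Prime).pos
  rw [Nat.cast_mul, norm_mul, Nat.cast_pow, norm_pow, Padic.norm_p, inv_pow, ← div_eq_mul_inv,
    le_div_iff₀ (by positivity)] at h1
  refine le_of_eq_of_le ?_ h1
  ring

theorem uu_mem_KN {s : ℚ_[p]} (hs : ‖s‖ ≤ ‖(N : ℚ_[p])‖) : uu s ∈ KN p N := by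
  refine vgn_mem fun i j => ?_
  fin_cases i <;> fin_cases j <;> simp [hs]

theorem KN_open (hN : 0 < N) : IsOpen (KN p N : Set SL(2, ℚ_[p])) := by
  have h0 : ‖(N : ℚ_[p])‖ ≠ 0 := norm_ne_zero_iff.2 (by exact_mod_cast hN.ne')
  rw [vgn_eq]
  exact isOpen_iInter_of_finite fun i => isOpen_iInter_of_finite fun j =>
    (IsUltrametricDist.isOpen_closedBall _ h0).preimage (continuous_subtype_val.matrix_elem i j)

theorem KN_compact : IsCompact (KN p N : Set SL(2, ℚ_[p])) := by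
  refine (Kp_compact p).of_isClosed_subset ?_ (KN_le p N)
  rw [vgn_eq]
  exact isClosed_iInter fun i => isClosed_iInter fun j =>
    Metric.isClosed_closedBall.preimage (continuous_subtype_val.matrix_elem i j)

theorem KN_reps (hN : 0 < N) : ∃ R : Finset SL(2, ℚ_[p]), (∀ r ∈ R, r ∈ Kp p) ∧
    ∀ k ∈ Kp p, ∃ r ∈ R, k * r⁻¹ ∈ KN p N := by
  obtain ⟨t, ht⟩ := (Kp_compact p).elim_nhds_subcover'
    (fun r _ => (fun k => k * r⁻¹) ⁻¹' (KN p N : Set SL(2, ℚ_[p])))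
    fun r _ => ((KN_open hN).preimage (continuous_id.mul continuous_const)).mem_nhds
      (by simpa using (KN p N).one_mem)
  classical
  refine ⟨t.image Subtype.val, fun r hr => ?_, fun k hk => ?_⟩
  · obtain ⟨r, -, rfl⟩ := Finset.mem_image.1 hr
    exact r.2
  · obtain ⟨r, hr, h⟩ := Set.mem_iUnion₂.1 (ht hk)
    exact ⟨r, Finset.mem_image_of_mem _ hr, h⟩

theorem int_mem_GN {δ : SL(2, ℤ)} (hδ : δ ∈ CongruenceSubgroup.Gamma N) :
    ((toR δ, toP p δ) : GG p) ∈ GN p N ∧ toP p δ ∈ KN p N := by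
  choose c hc using vgn_gamma.1 hδ
  refine ⟨⟨Matrix.SpecialLinearGroup.map (Int.castRingHom ℚ) δ, ⟨fun i j => ?_, fun i j => ?_⟩, ?_⟩,
    vgn_mem fun i j => ?_⟩
  · simpa using inZp_int p (δ i j)
  · have e : (Matrix.SpecialLinearGroup.map (Int.castRingHom ℚ) δ) i j -
        (1 : Matrix (Fin 2) (Fin 2) ℚ) i j = N * c i j := by
      have := congrArg (fun z : ℤ => (z : ℚ)) (hc i j)
      simpa [Matrix.one_apply, apply_ite] using this
    rw [e]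
    rcases eq_or_ne (N : ℚ) 0 with h0 | h0
    · simpa [h0] using inZp_int p 0
    · rw [mul_div_cancel_left₀ _ h0]
      exact inZp_int p _
  · refine Prod.ext ?_ ?_ <;> ext i j <;> simp [emb, toR, toP]
  · have e : toP p δ i j - (1 : Matrix (Fin 2) (Fin 2) ℚ_[p]) i j = N * c i j := by
      have := congrArg (fun z : ℤ => (z : ℚ_[p])) (hc i j)
      simpa [toP, Matrix.one_apply, apply_ite] using this
    rw [e, norm_mul]
    exact mul_le_of_le_one_right (norm_nonneg _) (Padic.norm_int_le_one _)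

theorem int_of_GN (hN : 0 < N) {γ : GG p} (hγ : γ ∈ GN p N) (hK : γ.2 ∈ KN p N) :
    ∃ δ ∈ CongruenceSubgroup.Gamma N, γ = (toR δ, toP p δ) := by
  obtain ⟨δ, hδ⟩ := exists_int_of_Gam p (GN_le p N hγ) hK.1
  refine ⟨δ, vgn_gamma.2 fun i j => ?_, hδ⟩
  obtain ⟨g, hg, rfl⟩ := hγ
  have hN' : (N : ℚ) ≠ 0 := by exact_mod_cast hN.ne'
  have h0 : 0 < ‖(N : ℚ_[p])‖ := norm_pos_iff.2 (by exact_mod_cast hN.ne')
  have e1 : g i j = δ i j := by
    have := congrArg (fun z : GG p => z.1 i j) hδ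
    simp only [emb, toR, MonoidHom.prod_apply, Matrix.SpecialLinearGroup.map_apply_coe,
      RingHom.mapMatrix_apply, Matrix.map_apply, eq_ratCast, eq_intCast] at this
    exact_mod_cast this
  obtain ⟨n, hn⟩ := grp_int p (hg.2 i j) (by
    have := hK.2 i j
    rw [Rat.cast_div, norm_div, Rat.cast_natCast, div_le_one h0]
    simpa [emb, Matrix.one_apply, apply_ite] using this)
  refine ⟨n, ?_⟩
  rw [div_eq_iff hN', e1] at hn
  have : ((δ i j - (1 : Matrix (Fin 2) (Fin 2) ℤ) i j : ℤ) : ℚ) = ((N * n : ℤ) : ℚ) := by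
    simpa [Matrix.one_apply, apply_ite, mul_comm] using hn
  exact_mod_cast this

theorem GN_conj {γ γ' : GG p} (hγ : γ ∈ GN p N) (h : γ' ∈ Gam p) : γ' * γ * γ'⁻¹ ∈ GN p N := by
  obtain ⟨g, hg, rfl⟩ := hγ
  obtain ⟨a, ha, rfl⟩ := h
  have ha' := (GamQ p).inv_mem ha
  refine ⟨a * g * a⁻¹, ⟨(GamQ p).mul_mem ((GamQ p).mul_mem ha hg.1) ha', fun i j => ?_⟩, by simp⟩
  have k := fun l m => ((ha i l).mul (hg.2 l m)).mul (ha' m j)
  refine (congrArg (InZp p) ?_).mp (((k 0 0).add (k 0 1)).add ((k 1 0).add (k 1 1)))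
  rw [vgn_conj]
  simp only [Fin.sum_univ_two]
  ring

theorem dense_fstN (hN : 0 < N) : Dense (Prod.fst '' (GN p N : Set (GG p))) := by
  have h0 : (N : ℝ) ≠ 0 := by exact_mod_cast hN.ne'
  have := grp_dense ((GN p N).map (MonoidHom.fst _ _))
    ((Homeomorph.mulLeft₀ _ h0).surjective.denseRange.dense_image
      (Homeomorph.mulLeft₀ _ h0).continuous (grp_dense_R p))
    (fun _ ⟨_, ⟨x, hx, h⟩, h'⟩ => ⟨_, (vgn_uu hx).1, by subst h h'; simp⟩)
    (fun _ ⟨_, ⟨x, hx, h⟩, h'⟩ => ⟨_, (vgn_uu hx).2, by subst h h'; simp⟩)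
  exact this

theorem dense_sndN (hN : 0 < N) : Dense (Prod.snd '' (GN p N : Set (GG p))) := by
  have h0 : (N : ℚ_[p]) ≠ 0 := by exact_mod_cast hN.ne'
  have := grp_dense ((GN p N).map (MonoidHom.snd _ _))
    ((Homeomorph.mulLeft₀ _ h0).surjective.denseRange.dense_image
      (Homeomorph.mulLeft₀ _ h0).continuous (grp_dense_P p))
    (fun _ ⟨_, ⟨x, hx, h⟩, h'⟩ => ⟨_, (vgn_uu hx).1, by subst h h'; simp⟩)
    (fun _ ⟨_, ⟨x, hx, h⟩, h'⟩ => ⟨_, (vgn_uu hx).2, by subst h h'; simp⟩)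
  exact this

theorem exists_GN (hN : 0 < N) (g : GG p) : ∃ γ ∈ GN p N, (g * γ).2 ∈ KN p N := by
  have ho : IsOpen ((fun k => g.2 * k) ⁻¹' (KN p N : Set SL(2, ℚ_[p]))) :=
    (KN_open hN).preimage (continuous_const.mul continuous_id)
  obtain ⟨_, ⟨γ, hγ, rfl⟩, hk⟩ := (dense_sndN (p := p) hN).exists_mem_open ho
    ⟨g.2⁻¹, by simp [(KN p N).one_mem]⟩
  exact ⟨γ, hγ, hk⟩

theorem exists_repN (hN : 0 < N) (x : XN p N) :
    ∃ g : GG p, g.2 ∈ KN p N ∧ (g : XN p N) = x := by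
  obtain ⟨h, rfl⟩ := QuotientGroup.mk_surjective x
  obtain ⟨γ, hγ, hk⟩ := exists_GN hN h
  exact ⟨h * γ, hk, QuotientGroup.mk_mul_of_mem h hγ⟩

theorem cov_fib (hN : 0 < N) : ∃ R : Finset (GG p), (∀ r ∈ R, r ∈ Gam p) ∧
    ∀ (g : GG p) (y : XN p N), cov p N y = (g : XX p) → ∃ r ∈ R, y = ((g * r : GG p) : XN p N) := by
  classical
  have : NeZero N := ⟨hN.ne'⟩
  have := Subgroup.fintypeQuotientOfFiniteIndex (H := CongruenceSubgroup.Gamma N)
  refine ⟨Finset.univ.image fun c : SL(2, ℤ) ⧸ CongruenceSubgroup.Gamma N =>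
    ((toR c.out, toP p c.out) : GG p), fun r hr => ?_, fun g y hy => ?_⟩
  · obtain ⟨c, -, rfl⟩ := Finset.mem_image.1 hr
    exact int_mem_Gam p _
  · obtain ⟨h, rfl⟩ := QuotientGroup.mk_surjective y
    have h1 : g⁻¹ * h ∈ Gam p := QuotientGroup.eq.1 (show (g : XX p) = (h : XX p) from hy.symm)
    obtain ⟨γ, hγ, hk⟩ := exists_GN hN (g⁻¹ * h)
    obtain ⟨δ, hδ⟩ := exists_int_of_Gam p ((Gam p).mul_mem h1 (GN_le p N hγ)) hk.1
    refine ⟨_, Finset.mem_image_of_mem _ (Finset.mem_univ (δ : SL(2, ℤ) ⧸ _)), ?_⟩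
    have h2 : (Quotient.out (δ : SL(2, ℤ) ⧸ CongruenceSubgroup.Gamma N))⁻¹ * δ ∈
        CongruenceSubgroup.Gamma N := QuotientGroup.eq.1 (Quotient.out_eq _)
    generalize Quotient.out (δ : SL(2, ℤ) ⧸ CongruenceSubgroup.Gamma N) = ε at h2
    refine (QuotientGroup.eq.2 ?_).symm
    have h3 : (g * ((toR ε, toP p ε) : GG p))⁻¹ * h =
        ((toR (ε⁻¹ * δ), toP p (ε⁻¹ * δ)) : GG p) * γ⁻¹ := by
      have h4 : ((toR (ε⁻¹ * δ), toP p (ε⁻¹ * δ)) : GG p) =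
          ((toR ε, toP p ε) : GG p)⁻¹ * (toR δ, toP p δ) := by
        simp only [map_mul, map_inv, Prod.inv_mk, Prod.mk_mul_mk]
      rw [h4, ← hδ]
      group
    rw [h3]
    exact (GN p N).mul_mem (int_mem_GN h2).1 ((GN p N).inv_mem hγ)

theorem isCompact_cov (hN : 0 < N) {Ω : Set (XX p)} (hΩ : IsCompact Ω) :
    IsCompact (cov p N ⁻¹' Ω) := by
  obtain ⟨C, hC, hCΩ⟩ : ∃ C : Set (GG p), IsCompact C ∧ Ω ⊆ QuotientGroup.mk '' C := by
    refine hΩ.induction_on ⟨∅, isCompact_empty, by simp⟩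
      (fun s t hst ⟨C, h1, h2⟩ => ⟨C, h1, hst.trans h2⟩)
      (fun s t ⟨C, h1, h2⟩ ⟨D, h3, h4⟩ => ⟨C ∪ D, h1.union h3, ?_⟩) fun x _ => ?_
    · rw [Set.image_union]; exact Set.union_subset_union h2 h4
    · obtain ⟨g, rfl⟩ := QuotientGroup.mk_surjective x
      obtain ⟨C, h1, h2⟩ := exists_compact_mem_nhds g
      exact ⟨_, mem_nhdsWithin_of_mem_nhds (QuotientGroup.isOpenMap_coe.image_mem_nhds h2),
        C, h1, subset_rfl⟩
  obtain ⟨R, -, hR⟩ := cov_fib (p := p) hN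
  refine (R.isCompact_biUnion fun r _ => hC.image (f := fun g => ((g * r : GG p) : XN p N))
    (QuotientGroup.continuous_mk.comp (continuous_id.mul continuous_const))).of_isClosed_subset
    (hΩ.isClosed.preimage (continuous_cov p N)) fun x hx => ?_
  obtain ⟨c, hc, e⟩ := hCΩ hx
  obtain ⟨r, hr, e2⟩ := hR c x e.symm
  exact Set.mem_iUnion₂.2 ⟨r, hr, c, hc, e2.symm⟩

theorem isCompact_covP (hN : 0 < N) {κ : Type} {Ω : Set (κ → XX p)} (hΩ : IsCompact Ω) :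
    IsCompact (covP p N ⁻¹' Ω) := by
  refine (isCompact_univ_pi fun k => isCompact_cov hN
    (hΩ.image (continuous_apply k))).of_isClosed_subset
    (hΩ.isClosed.preimage (continuous_covP p N)) fun w hw k _ => ⟨_, hw, rfl⟩

end Pool.Agent.EQ
end
end

-- part Pool.Agent.P.MP_ad7a55_nt.VWr
section

/-! Weak reciprocity law for points of level N. -/

set_option autoImplicit false

noncomputable section

open MeasureTheory Topology Filter UpperHalfPlane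
open scoped MatrixGroups ENNReal BoundedContinuousFunction

namespace Pool.Agent.EQ

/-- The matrix is scalar modulo `N`. -/
def Scal (N : ℕ) (δ : SL(2, ℤ)) : Prop :=
  (N : ℤ) ∣ δ 0 1 ∧ (N : ℤ) ∣ δ 1 0 ∧ (N : ℤ) ∣ δ 0 0 - δ 1 1

theorem Scal.mono {N N' : ℕ} (h : N ∣ N') {δ : SL(2, ℤ)} (hδ : Scal N' δ) : Scal N δ := by
  have h' : (N : ℤ) ∣ (N' : ℤ) := by exact_mod_cast h
  exact ⟨h'.trans hδ.1, h'.trans hδ.2.1, h'.trans hδ.2.2⟩

theorem Scal.sq {N : ℕ} {δ : SL(2, ℤ)} (hδ : Scal N δ) :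
    δ ^ 2 ∈ CongruenceSubgroup.Gamma N := by
  obtain ⟨⟨b, hb⟩, ⟨c, hc⟩, ⟨d, hd⟩⟩ := hδ
  have hdet := δ.det_coe
  rw [Matrix.det_fin_two] at hdet
  have e : ∀ i j, (δ ^ 2) i j = δ i 0 * δ 0 j + δ i 1 * δ 1 j := fun i j => by
    rw [pow_two]
    change ((δ * δ : SL(2, ℤ)) : MZ) i j = _
    rw [Matrix.SpecialLinearGroup.coe_mul, Matrix.mul_apply, Fin.sum_univ_two]
  have k : ∀ x y z : ℤ, x = y + N * z → ((x : ℤ) : ZMod N) = (y : ZMod N) := fun x y z h => by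
    rw [h]
    push_cast
    simp
  rw [CongruenceSubgroup.Gamma_mem, e, e, e, e]
  refine ⟨?_, ?_, ?_, ?_⟩
  · rw [k _ 1 (δ 0 0 * d + 2 * b * δ 1 0) (by
      linear_combination hdet + δ 0 0 * hd + 2 * δ 1 0 * hb), Int.cast_one]
  · rw [k _ 0 (b * (δ 0 0 + δ 1 1)) (by linear_combination (δ 0 0 + δ 1 1) * hb), Int.cast_zero]
  · rw [k _ 0 (c * (δ 0 0 + δ 1 1)) (by linear_combination (δ 0 0 + δ 1 1) * hc), Int.cast_zero]
  · rw [k _ 1 (2 * b * δ 1 0 - δ 1 1 * d) (by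
      linear_combination hdet - δ 1 1 * hd + 2 * δ 1 0 * hb), Int.cast_one]

theorem Scal.comm {N : ℕ} {ξ : MZ} (hξ : 0 < ξ.det) {δ : SL(2, ℤ)}
    (hδ : Scal (N * ξ.det.natAbs) δ) :
    ∃ γ ∈ CongruenceSubgroup.Gamma N, ξ * (δ : MZ) = ((γ * δ : SL(2, ℤ)) : MZ) * ξ := by
  have hn : ((N * ξ.det.natAbs : ℕ) : ℤ) = N * ξ.det := by
    rw [Nat.cast_mul, Int.natAbs_of_nonneg hξ.le]
  obtain ⟨h1, h2, h3⟩ := hδ
  rw [hn] at h1 h2 h3
  obtain ⟨b, hb⟩ := h1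
  obtain ⟨c, hc⟩ := h2
  obtain ⟨d, hd⟩ := h3
  obtain ⟨l, hl⟩ : ∃ l, l = δ 0 0 := ⟨_, rfl⟩
  obtain ⟨A, hA⟩ : ∃ A : MZ, A = !![0, b; c, -d] := ⟨_, rfl⟩
  have hγ : (δ : MZ) = l • (1 : MZ) + (N * ξ.det : ℤ) • A := by
    rw [hA]
    ext i j
    rw [Matrix.add_apply, Matrix.smul_apply, Matrix.smul_apply, smul_eq_mul, smul_eq_mul]
    fin_cases i <;> fin_cases j <;> simp
    · exact hl.symm
    · linear_combination hb
    · linear_combination hc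
    · linear_combination -hd - hl
  obtain ⟨B, hB⟩ : ∃ B : MZ, B = ξ * A * ξ.adjugate := ⟨_, rfl⟩
  have he : ξ * (δ : MZ) = (l • (1 : MZ) + (N : ℤ) • B) * ξ := by
    rw [hγ, hB, mul_add, add_mul, mul_smul_comm, mul_one, smul_mul_assoc, one_mul, smul_mul_assoc,
      mul_assoc _ _ ξ, Matrix.adjugate_mul, mul_smul_comm, mul_smul_comm, mul_one, smul_smul]
  have hdet : (l • (1 : MZ) + (N : ℤ) • B).det = 1 := by
    have := congrArg Matrix.det he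
    rw [Matrix.det_mul, Matrix.det_mul, δ.det_coe, mul_comm] at this
    exact (mul_right_cancel₀ hξ.ne' this).symm
  let δ' : SL(2, ℤ) := ⟨_, hdet⟩
  refine ⟨δ' * δ⁻¹, ?_, by rw [inv_mul_cancel_right]; exact he⟩
  have h1 : (δ : MZ) * ((δ⁻¹ : SL(2, ℤ)) : MZ) = 1 := by
    rw [← Matrix.SpecialLinearGroup.coe_mul, mul_inv_cancel, Matrix.SpecialLinearGroup.coe_one]
  have h2 : ((δ' * δ⁻¹ : SL(2, ℤ)) : MZ) =
      1 + (N : ℤ) • ((B - ξ.det • A) * ((δ⁻¹ : SL(2, ℤ)) : MZ)) := by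
    rw [Matrix.SpecialLinearGroup.coe_mul, ← h1, ← smul_mul_assoc, ← add_mul]
    change (l • (1 : MZ) + (N : ℤ) • B) * _ = _
    rw [hγ, smul_sub, smul_smul, add_assoc, add_sub_cancel]
  rw [CongruenceSubgroup.Gamma_mem]
  have h3 : ∀ i j, (δ' * δ⁻¹) i j =
      (1 + (N : ℤ) • ((B - ξ.det • A) * ((δ⁻¹ : SL(2, ℤ)) : MZ))) i j := fun i j => by
    rw [← h2]
  rw [h3, h3, h3, h3]
  generalize (B - ξ.det • A) * ((δ⁻¹ : SL(2, ℤ)) : MZ) = C
  simp only [Matrix.add_apply, Matrix.smul_apply, smul_eq_mul]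
  simp

theorem HasDisc.scalar {τ : ℍ} {D : ℤ} (h : HasDisc τ D) {η : MZ} (hη : 0 < η.det)
    (hD : 4 * η.det < -D) (e : act η τ = τ) : η 0 1 = 0 ∧ η 1 0 = 0 ∧ η 0 0 = η 1 1 := by
  obtain ⟨A, B, C, -, hg, hq, rfl⟩ := h
  obtain ⟨u, v, w, hb⟩ := ord_bezout hg
  have e1 := vact_den_mul hη τ
  rw [e] at e1
  rw [Matrix.det_fin_two] at hD
  obtain ⟨h1, h2⟩ := int_indep_lat τ (p := A * (η 1 1 - η 0 0) - η 1 0 * B)
    (q := -A * η 0 1 - η 1 0 * C) (by push_cast; linear_combination A * e1 - η 1 0 * hq)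
  obtain ⟨h3, h4⟩ := int_indep_lat τ (p := (η 1 1 - η 0 0) * C + η 0 1 * B) (q := 0) (by
    have h2' : -(A : ℂ) * η 0 1 - η 1 0 * C = 0 := by exact_mod_cast h2
    push_cast
    linear_combination C * e1 + η 0 1 * hq + (τ : ℂ) ^ 2 * h2')
  obtain ⟨t, ht⟩ : ∃ t, t = u * η 1 0 + v * (η 1 1 - η 0 0) - w * η 0 1 := ⟨_, rfl⟩
  have k1 : η 1 0 = t * A := by rw [ht]; linear_combination (-η 1 0) * hb - v * h1 - w * h2
  have k2 : η 1 1 - η 0 0 = t * B := by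
    rw [ht]; linear_combination (-(η 1 1 - η 0 0)) * hb + u * h1 + w * h3
  have k3 : -η 0 1 = t * C := by rw [ht]; linear_combination η 0 1 * hb + u * h2 - v * h3
  have hdet : 0 < η 0 0 * η 1 1 - η 0 1 * η 1 0 := by rwa [Matrix.det_fin_two] at hη
  have k4 : (η 0 0 + η 1 1) ^ 2 - 4 * (η 0 0 * η 1 1 - η 0 1 * η 1 0) =
      t ^ 2 * (B ^ 2 - 4 * A * C) := by
    have k3' : η 0 1 = -(t * C) := by linear_combination -k3
    have k2' : η 1 1 = η 0 0 + t * B := by linear_combination k2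
    rw [k1, k3', k2']
    ring
  have ht0 : t = 0 := by
    by_contra hne
    have h5 : 0 < t ^ 2 := by positivity
    generalize η 0 0 * η 1 1 - η 0 1 * η 1 0 = x at hD hdet k4
    generalize B ^ 2 - 4 * A * C = y at hD k4
    nlinarith [sq_nonneg (η 0 0 + η 1 1)]
  rw [ht0, zero_mul] at k1 k2 k3
  exact ⟨by linear_combination -k3, k1, by linear_combination -k2⟩

theorem vwr_key {N : ℕ} (hN : 0 < N) {τ : ℍ} {D : ℤ} (hD : HasDisc τ D)
    (hb : 4 * (N : ℤ) ^ 2 < -D) {ξ : MZ} (hξ : ξ.det = N) {δ : SL(2, ℤ)}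
    (h : jInv (act ξ τ) = jInv (act ξ (δ • τ))) (i j : Fin 2) :
    (N : ℤ) ∣ (ξ * (δ : MZ) * ξ.adjugate) i j := by
  have hN' : (0 : ℤ) < N := by exact_mod_cast hN
  have hp : 0 < ξ.det := by rw [hξ]; exact hN'
  obtain ⟨γ, hγ⟩ := jInv_inj h
  have dA : (ξ * (δ : MZ)).det = N := by rw [Matrix.det_mul, δ.det_coe, mul_one, hξ]
  have dB : ((γ : MZ) * ξ).det = N := by rw [Matrix.det_mul, γ.det_coe, one_mul, hξ]
  have hAB : act (ξ * (δ : MZ)) τ = act ((γ : MZ) * ξ) τ := by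
    rw [act_mul hp (vact_SL_det δ), act_mul (vact_SL_det γ) hp, act_SL, act_SL, hγ]
  have hB2 : (γ : MZ) * ξ * ξ.adjugate = (N : ℤ) • (γ : MZ) := by
    rw [mul_assoc, Matrix.mul_adjugate, hξ, mul_smul_comm, mul_one]
  generalize ξ * (δ : MZ) = A at dA hAB
  generalize (γ : MZ) * ξ = B at dB hAB hB2
  have dB' : B.adjugate.det = N := by
    rw [Matrix.det_adjugate, dB, Fintype.card_fin]
    simp
  have pA : 0 < A.det := by rw [dA]; exact hN'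
  have pB : 0 < B.det := by rw [dB]; exact hN'
  have pB' : 0 < B.adjugate.det := by rw [dB']; exact hN'
  have dη : (B.adjugate * A).det = (N : ℤ) ^ 2 := by rw [Matrix.det_mul, dB', dA, sq]
  have fx : act (B.adjugate * A) τ = τ := by
    rw [act_mul pB' pA, hAB, ← act_mul pB' pB, Matrix.adjugate_mul, act_smul (by simp) pB.ne',
      act_one]
  obtain ⟨s1, s2, s3⟩ := hD.scalar (by rw [dη]; positivity) (by rw [dη]; exact hb) fx
  have hBη : B * (B.adjugate * A) = (N : ℤ) • A := by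
    rw [← mul_assoc, Matrix.mul_adjugate, dB, smul_mul_assoc, one_mul]
  generalize B.adjugate * A = η at dη s1 s2 s3 hBη
  have hη : η = η 1 1 • (1 : MZ) := by
    ext i j
    fin_cases i <;> fin_cases j <;> simp [s1, s2, s3]
  rw [Matrix.det_fin_two, s1, s3, zero_mul, sub_zero, ← sq] at dη
  generalize η 1 1 = c at hη dη
  have hc : (N : ℤ) ∣ c := (Int.pow_dvd_pow_iff two_ne_zero).1 ⟨1, by rw [dη, mul_one]⟩
  rw [hη, mul_smul_comm, mul_one] at hBη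
  have h2 : (N : ℤ) • (A * ξ.adjugate) = (N : ℤ) • (c • (γ : MZ)) := by
    rw [← smul_mul_assoc, ← hBη, smul_mul_assoc, hB2, smul_comm]
  have h3 := congrFun (congrFun h2 i) j
  simp only [Matrix.smul_apply, smul_eq_mul] at h3
  rw [mul_left_cancel₀ hN'.ne' h3]
  exact hc.mul_right _

theorem weak_rec {N : ℕ} (hN : 0 < N) {L : IntermediateField ℚ ℂ} (hz : zt N ∈ L) {σ : ℂ ≃+* ℂ}
    (hσ : ∀ a ∈ L, σ a = a) {τ τ' : ℍ} {D : ℤ} (hD : HasDisc τ' D) (hb : 4 * (N : ℤ) ^ 2 < -D)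
    (h0 : σ (jInv τ) = jInv τ') (h1 : σ (jInv (mulH N hN τ)) = jInv (mulH N hN τ'))
    (h2 : σ (jInv (divH N hN 0 τ)) = jInv (divH N hN 0 τ'))
    (h3 : σ (jInv (divH N hN 1 τ)) = jInv (divH N hN 1 τ')) :
    ∃ δ, Scal N δ ∧ ∀ f ∈ MF N L, σ (f τ) = f (δ • τ') := by
  obtain ⟨τ'', hc⟩ := exists_conj hN hσ τ
  obtain ⟨δ, rfl⟩ := jInv_inj (τ := τ') (τ' := τ'') (by rw [hc _ (MF.j hN), h0])
  have hN' : (0 : ℤ) < N := by exact_mod_cast hN
  have hNc : (N : ℂ) ≠ 0 := by exact_mod_cast hN.ne'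
  have key : ∀ (ξ : MZ) (w : ℍ → ℍ), ξ.det = N →
      (∀ x : ℍ, ((ξ 1 0 : ℂ) * x + ξ 1 1) * (w x : ℂ) = (ξ 0 0 : ℂ) * x + ξ 0 1) →
      σ (jInv (w τ)) = jInv (w τ') → ∀ i j, (N : ℤ) ∣ (ξ * (δ : MZ) * ξ.adjugate) i j := by
    intro ξ w hξ hw h
    have hp : 0 < ξ.det := by rw [hξ]; exact hN'
    have hm := MF.act (L := L) one_pos (MF.j one_pos) hp hN (by rw [hξ]; simp) le_rfl hz
    refine vwr_key hN hD hb hξ ?_
    rw [hc _ hm, vact_ext hp (hw τ), vact_ext hp (hw τ'), h]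
  have k1 := key !![(N : ℤ), 0; 0, 1] (mulH N hN) (by simp [Matrix.det_fin_two])
    (fun x => by simp) h1 1 0
  have k2 := key !![1, 0; 0, (N : ℤ)] (divH N hN 0) (by simp [Matrix.det_fin_two])
    (fun x => by simp [mul_div_cancel₀ _ hNc]) h2 0 1
  have k3 := key !![1, 1; 0, (N : ℤ)] (divH N hN 1) (by simp [Matrix.det_fin_two])
    (fun x => by simp [mul_div_cancel₀ _ hNc]) h3 0 1
  simp [Matrix.adjugate_fin_two, Matrix.mul_apply, Fin.sum_univ_two, Matrix.vecMul,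
    dotProduct] at k1 k2 k3
  refine ⟨δ, ⟨k2, k1, ?_⟩, fun f hf => (hc f hf).symm⟩
  have := dvd_sub (dvd_sub k2 k1) k3
  refine (dvd_iff_dvd_of_dvd_sub ⟨0, ?_⟩).1 this
  ring

end Pool.Agent.EQ
end
end

-- part Pool.Agent.P.MP_ad7a55_nt.YLa
section

/-! Lines under congruence subgroups. -/

set_option autoImplicit false

noncomputable section

open Finset Matrix
open scoped MatrixGroups Classical

namespace Pool.Agent.EQ

instance ylaNormal (N : ℕ) : (CongruenceSubgroup.Gamma N).Normal :=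
  CongruenceSubgroup.Gamma_normal N

/-- The image of a line. -/
def img (η : M2) (L : Set V2) : Set V2 := {v | η.adjugate *ᵥ v ∈ L}

/-- The preimage of a line. -/
def pl (η : M2) (L : Set V2) : Set V2 := {v | η *ᵥ v ∈ L}

/-- Tuples of lines. -/
def YQ (ι : Type) [Fintype ι] (q : ℕ) : Finset (ι → Set V2) := Fintype.piFinset fun _ : ι => Xn q

/-- All entries are divisible by `m`. -/
def Dv (m : ℕ) (η : M2) : Prop := ∀ i j, (m : ℤ) ∣ η i j

/-- The classes of `Γ(R)` modulo `Γ(M)`. -/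
def cs (R M : ℕ) : Finset (vcjQ M) :=
  if h : 0 < M then
    (@Set.toFinite _ {c : vcjQ M | c.out ∈ CongruenceSubgroup.Gamma R}
      (@Subtype.finite _ (vcj_fin h) _)).toFinset
  else ∅

variable {n M N R : ℕ} {η η' ζ : M2} {L L' : Set V2}

theorem yla_gam {γ : SL(2, ℤ)} : γ ∈ CongruenceSubgroup.Gamma N ↔ Dv N ((γ : M2) - 1) := by
  have h3 : ∀ i j, (N : ℤ) ∣ ((γ : M2) - 1) i j ↔
      ((γ i j : ℤ) : ZMod N) = (((1 : M2) i j : ℤ) : ZMod N) := fun i j => by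
    rw [← sub_eq_zero, ← Int.cast_sub, ZMod.intCast_zmod_eq_zero_iff_dvd]
    rfl
  rw [CongruenceSubgroup.Gamma_mem]
  unfold Dv
  simp only [h3, Fin.forall_fin_two]
  simp [and_assoc]

theorem yla_mono (h : R ∣ M) (hd : Dv M η) : Dv R η :=
  fun i j => (Int.natCast_dvd_natCast.2 h).trans (hd i j)

theorem yla_le (h : R ∣ M) {γ : SL(2, ℤ)} (hγ : γ ∈ CongruenceSubgroup.Gamma M) :
    γ ∈ CongruenceSubgroup.Gamma R := yla_gam.2 (yla_mono h (yla_gam.1 hγ))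

theorem yla_mul_left (ζ : M2) (hd : Dv M η) : Dv M (ζ * η) := by
  obtain ⟨Y, rfl⟩ := xla_ex.1 hd
  exact xla_ex.2 ⟨ζ * Y, by rw [mul_smul_comm]⟩

theorem yla_mul_right (ζ : M2) (hd : Dv M η) : Dv M (η * ζ) := by
  obtain ⟨Y, rfl⟩ := xla_ex.1 hd
  exact xla_ex.2 ⟨Y * ζ, by rw [smul_mul_assoc]⟩

theorem yla_trans (h : Dv M (η - η')) (h' : Dv M (η' - ζ)) : Dv M (η - ζ) := fun i j => by
  have := dvd_add (h i j) (h' i j)
  simpa using this

theorem yla_out (M : ℕ) (x : SL(2, ℤ)) :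
    ∃ δ ∈ CongruenceSubgroup.Gamma M, (x : vcjQ M).out = x * δ := by
  obtain ⟨δ, e⟩ := QuotientGroup.mk_out_eq_mul (CongruenceSubgroup.Gamma M) x
  exact ⟨δ, δ.2, e⟩

theorem yla_mk_eq {g x : SL(2, ℤ)} (h : Dv N ((x : M2) - g)) : (g : vcjQ N) = x := by
  rw [QuotientGroup.eq, yla_gam]
  have h1 : ((g⁻¹ : SL(2, ℤ)) : M2) * (g : M2) = 1 := by
    rw [← Matrix.SpecialLinearGroup.coe_mul, inv_mul_cancel, Matrix.SpecialLinearGroup.coe_one]
  have e : ((g⁻¹ * x : SL(2, ℤ)) : M2) - 1 = ((g⁻¹ : SL(2, ℤ)) : M2) * ((x : M2) - g) := by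
    rw [mul_sub, h1, Matrix.SpecialLinearGroup.coe_mul]
  rw [e]
  exact yla_mul_left _ h

theorem yla_mem (hM : 0 < M) {c : vcjQ M} : c ∈ cs R M ↔ c.out ∈ CongruenceSubgroup.Gamma R := by
  rw [cs, dif_pos hM, Set.Finite.mem_toFinset]
  rfl

theorem mem_cs (hM : 0 < M) (h : R ∣ M) (g : SL(2, ℤ)) :
    (g : vcjQ M) ∈ cs R M ↔ g ∈ CongruenceSubgroup.Gamma R := by
  obtain ⟨δ, hδ, e⟩ := yla_out M g
  rw [yla_mem hM, e]
  exact Subgroup.mul_mem_cancel_right _ (yla_le h hδ)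

theorem out_mem_cs {c : vcjQ M} (h : c ∈ cs R M) : c.out ∈ CongruenceSubgroup.Gamma R := by
  by_cases hM : 0 < M
  · exact (yla_mem hM).1 h
  · rw [cs, dif_neg hM] at h
    simp at h

theorem cs_ne (hM : 0 < M) (h : R ∣ M) : (cs R M).Nonempty := by
  exact ⟨((1 : SL(2, ℤ)) : vcjQ M), (mem_cs hM h 1).2 (one_mem _)⟩

theorem img_mul (ζ η : M2) (L : Set V2) : img (ζ * η) L = img ζ (img η L) := by
  ext v
  simp only [img, Set.mem_ofPred_eq, Matrix.adjugate_mul_distrib, Matrix.mulVec_mulVec]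

theorem pl_mul (ζ η : M2) (L : Set V2) : pl (ζ * η) L = pl η (pl ζ L) := by
  ext v
  simp only [pl, Set.mem_ofPred_eq, Matrix.mulVec_mulVec]

theorem Ker_mul_pl (n : ℕ) (η ζ : M2) : Ker n (η * ζ) = pl ζ (Ker n η) := by
  ext v
  exact mem_Ker_mul

theorem IsLn.img (h : IsLn n L) (hn : 0 < n) (hc : IsCoprime η.det n) : IsLn n (img η L) := by
  exact h.pull hn (η := η.adjugate) (by rw [xla_det_adj]; exact hc)

theorem IsLn.pl (h : IsLn n L) (hn : 0 < n) (hc : IsCoprime η.det n) : IsLn n (pl η L) := by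
  exact h.pull hn hc

theorem yla_smul (h : IsLn n L) {s : ℤ} (hs : IsCoprime s n) (v : V2) : s • v ∈ L ↔ v ∈ L := by
  obtain ⟨w, -, rfl⟩ := h
  rw [xlb_mem, xlb_mem]
  have e : w 0 * (s • v) 1 - w 1 * (s • v) 0 = s * (w 0 * v 1 - w 1 * v 0) := by
    simp only [Pi.smul_apply, smul_eq_mul]
    ring
  rw [e]
  exact ⟨hs.symm.dvd_of_dvd_mul_left, fun h => h.mul_left _⟩

theorem pl_img (h : IsLn n L) (hc : IsCoprime η.det n) :
    pl η (img η L) = L ∧ img η (pl η L) = L := by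
  constructor
  · ext v
    show η.adjugate *ᵥ (η *ᵥ v) ∈ L ↔ v ∈ L
    rw [Matrix.mulVec_mulVec, Matrix.adjugate_mul, Matrix.smul_mulVec, Matrix.one_mulVec]
    exact yla_smul h hc v
  · ext v
    show η *ᵥ (η.adjugate *ᵥ v) ∈ L ↔ v ∈ L
    rw [Matrix.mulVec_mulVec, Matrix.mul_adjugate, Matrix.smul_mulVec, Matrix.one_mulVec]
    exact yla_smul h hc v

theorem pl_congr (h : IsLn n L) (hd : Dv n (η - η')) : pl η L = pl η' L := by
  obtain ⟨w, -, rfl⟩ := h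
  ext v
  show η *ᵥ v ∈ Ln n w ↔ η' *ᵥ v ∈ Ln n w
  rw [xlb_mem, xlb_mem, xlb_mv, xlb_mv, xlb_mv, xlb_mv]
  refine dvd_iff_dvd_of_dvd_sub ?_
  have e : w 0 * (η 1 0 * v 0 + η 1 1 * v 1) - w 1 * (η 0 0 * v 0 + η 0 1 * v 1) -
      (w 0 * (η' 1 0 * v 0 + η' 1 1 * v 1) - w 1 * (η' 0 0 * v 0 + η' 0 1 * v 1)) =
      w 0 * ((η - η') 1 0 * v 0 + (η - η') 1 1 * v 1) -
        w 1 * ((η - η') 0 0 * v 0 + (η - η') 0 1 * v 1) := by
    simp only [Matrix.sub_apply]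
    ring
  rw [e]
  exact dvd_sub ((dvd_add ((hd 1 0).mul_right _) ((hd 1 1).mul_right _)).mul_left _)
    ((dvd_add ((hd 0 0).mul_right _) ((hd 0 1).mul_right _)).mul_left _)

theorem pl_Cg {s : ℤ} (h : IsLn n L) (hc : Cg n η s) (hs : IsCoprime s n) : pl η L = L := by
  rw [pl_congr h (η' := s • (1 : M2)) hc]
  ext v
  show (s • (1 : M2)) *ᵥ v ∈ L ↔ v ∈ L
  rw [Matrix.smul_mulVec, Matrix.one_mulVec]
  exact yla_smul h hs v

theorem mn_Xn_img (hn : 0 < n) (hc : IsCoprime η.det n) (G : Set V2 → ℝ) :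
    mn (Xn n) (fun L => G (img η L)) = mn (Xn n) G := by
  unfold mn
  congr 1
  exact sum_Xn_pull hn (η := η.adjugate) (by rw [xla_det_adj]; exact hc) G

theorem isLn_Ker_prim (hn : 0 < n) (hd : η.det = n)
    (h : ∀ l : ℕ, l.Prime → l ∣ n → ¬ Dv l η) : IsLn n (Ker n η) := by
  refine xlb_isLn_Ker hn (by rw [hd]) fun l hl hln => ?_
  by_contra hh
  push Not at hh
  exact h l hl hln hh

theorem isLn_Ker_adj (hn : 0 < n) (hd : η.det = n) (h : IsLn n (Ker n η)) :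
    IsLn n (Ker n η.adjugate) := by
  refine xlb_isLn_Ker hn (by rw [xla_det_adj, hd]) fun l hl hln => ?_
  obtain ⟨i, j, hij⟩ := h.prim hn hl hln
  rw [Matrix.adjugate_fin_two]
  fin_cases i <;> fin_cases j
  · exact ⟨1, 1, by simpa using hij⟩
  · exact ⟨0, 1, by simpa using hij⟩
  · exact ⟨1, 0, by simpa using hij⟩
  · exact ⟨0, 0, by simpa using hij⟩

theorem gamma_of_Ker (hn : 0 < n) (h : η.det = n) (h' : η'.det = n) (hc : n.Coprime N)
    (hk : Ker n η ⊆ Ker n η') (hd : Dv N (η' - η)) :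
    ∃ γ ∈ CongruenceSubgroup.Gamma N, η' = (γ : M2) * η := by
  obtain ⟨γ, hγ⟩ := exists_SL_of_Ker hn h h' hk
  refine ⟨γ, yla_gam.2 fun i j => ?_, hγ⟩
  have h1 := yla_mul_right η.adjugate hd
  have e : (η' - η) * η.adjugate = (n : ℤ) • ((γ : M2) - 1) := by
    rw [hγ, sub_mul, mul_assoc, Matrix.mul_adjugate, h, mul_smul_comm, mul_one, smul_sub]
  rw [e] at h1
  exact (Nat.isCoprime_iff_coprime.2 hc).symm.dvd_of_dvd_mul_left (h1 i j)

theorem yla_det (h : Dv M (η - η')) : (M : ℤ) ∣ η.det - η'.det := by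
  have e : η.det - η'.det = (η - η') 0 0 * η 1 1 + η' 0 0 * (η - η') 1 1 -
      (η - η') 0 1 * η 1 0 - η' 0 1 * (η - η') 1 0 := by
    simp only [Matrix.det_fin_two, Matrix.sub_apply]
    ring
  rw [e]
  exact dvd_sub (dvd_sub (dvd_add ((h 0 0).mul_right _) ((h 1 1).mul_left _))
    ((h 0 1).mul_right _)) ((h 1 0).mul_left _)

theorem yla_crt2 {a b : ℕ} (ha : 0 < a) (hb : 0 < b) (hab : a.Coprime b) (g h : SL(2, ℤ)) :
    ∃ γ : SL(2, ℤ), Dv a ((γ : M2) - g) ∧ Dv b ((γ : M2) - h) := by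
  have hc : IsCoprime (a : ℤ) b := Nat.isCoprime_iff_coprime.2 hab
  obtain ⟨s, t, e⟩ := id hc
  let W : M2 := (t * b) • (g : M2) + (s * a) • (h : M2)
  have h1 : Dv a (W - g) := fun i j => ⟨s * ((h : M2) i j - (g : M2) i j), by
    simp only [W, Matrix.sub_apply, Matrix.add_apply, Matrix.smul_apply, smul_eq_mul]
    linear_combination ((g : M2) i j) * e⟩
  have h2 : Dv b (W - h) := fun i j => ⟨t * ((g : M2) i j - (h : M2) i j), by
    simp only [W, Matrix.sub_apply, Matrix.add_apply, Matrix.smul_apply, smul_eq_mul]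
    linear_combination ((h : M2) i j) * e⟩
  have h3 := yla_det h1
  have h4 := yla_det h2
  rw [g.det_coe] at h3
  rw [h.det_coe] at h4
  obtain ⟨γ, hγ⟩ := exists_lift_SL (Nat.mul_pos ha hb) (W := W) (by
    rw [Nat.cast_mul]
    exact hc.mul_dvd h3 h4)
  have h5 : Dv (a * b) ((γ : M2) - W) := hγ
  exact ⟨γ, yla_trans (yla_mono (dvd_mul_right a b) h5) h1,
    yla_trans (yla_mono (dvd_mul_left b a) h5) h2⟩

theorem crt_SL {κ : Type} (J : Finset κ) (m : κ → ℕ) {M₀ : ℕ} (hM : 0 < M₀)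
    (h0 : ∀ j ∈ J, 0 < m j ∧ (m j).Coprime M₀)
    (h : ∀ j ∈ J, ∀ j' ∈ J, j ≠ j' → (m j).Coprime (m j')) (g : κ → SL(2, ℤ)) :
    ∃ γ ∈ CongruenceSubgroup.Gamma M₀, ∀ j ∈ J, Dv (m j) ((γ : M2) - g j) := by
  induction J using Finset.induction_on with
  | empty => exact ⟨1, one_mem _, fun j hj => absurd hj (notMem_empty j)⟩
  | insert j₀ J hj₀ ih =>
    obtain ⟨γ', hγ1, hγ2⟩ := ih (fun j hj => h0 j (mem_insert_of_mem hj))
      fun j hj j' hj' => h j (mem_insert_of_mem hj) j' (mem_insert_of_mem hj')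
    have hP : 0 < M₀ * ∏ j ∈ J, m j :=
      Nat.mul_pos hM (prod_pos fun j hj => (h0 j (mem_insert_of_mem hj)).1)
    have hc : (M₀ * ∏ j ∈ J, m j).Coprime (m j₀) :=
      Nat.Coprime.mul_left (h0 j₀ (mem_insert_self _ _)).2.symm
        (Nat.Coprime.prod_left fun j hj => h j (mem_insert_of_mem hj) j₀ (mem_insert_self _ _)
          fun e => hj₀ (e ▸ hj))
    obtain ⟨γ, h1, h2⟩ := yla_crt2 hP (h0 j₀ (mem_insert_self _ _)).1 hc γ' (g j₀)
    refine ⟨γ, yla_gam.2 (yla_trans (yla_mono (dvd_mul_right _ _) h1) (yla_gam.1 hγ1)),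
      fun j hj => ?_⟩
    rcases mem_insert.1 hj with rfl | hj
    · exact h2
    · exact yla_trans (yla_mono ((dvd_prod_of_mem m hj).mul_left _) h1) (hγ2 j hj)

theorem yla_back {g g' : SL(2, ℤ)} (h : pl g L = pl g' L') : pl (g * g'⁻¹ : SL(2, ℤ)) L = L' := by
  rw [Matrix.SpecialLinearGroup.coe_mul, pl_mul, h, ← pl_mul, ← Matrix.SpecialLinearGroup.coe_mul,
    mul_inv_cancel, Matrix.SpecialLinearGroup.coe_one]
  ext v
  simp [pl]

theorem yla_std (h : IsLn n L) : ∃ γ : SL(2, ℤ), pl γ L = {u : V2 | (n : ℤ) ∣ u 1} := by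
  obtain ⟨v, ⟨a, b, e⟩, rfl⟩ := h
  refine ⟨⟨!![v 0, -b; v 1, a], by rw [Matrix.det_fin_two_of]; linear_combination e⟩, ?_⟩
  ext u
  show (!![v 0, -b; v 1, a] : M2) *ᵥ u ∈ Ln n v ↔ (n : ℤ) ∣ u 1
  rw [xlb_mem, xlb_mv, xlb_mv]
  simp only [Matrix.of_apply, Matrix.cons_val', Matrix.cons_val_zero, Matrix.cons_val_one,
    Matrix.cons_val_fin_one]
  refine iff_of_eq (congrArg _ ?_)
  linear_combination (u 1) * e

theorem line_trans (h : IsLn n L) (h' : IsLn n L') : ∃ γ : SL(2, ℤ), pl γ L = L' := by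
  obtain ⟨g, hg⟩ := yla_std h
  obtain ⟨g', hg'⟩ := yla_std h'
  exact ⟨g * g'⁻¹, yla_back (hg.trans hg'.symm)⟩

theorem line_trans_Gamma (hn : 0 < n) (hM : 0 < M) (hc : n.Coprime M) (h : IsLn n L)
    (h' : IsLn n L') : ∃ γ ∈ CongruenceSubgroup.Gamma M, pl (γ : M2) L = L' := by
  obtain ⟨g, hg⟩ := line_trans h h'
  obtain ⟨γ, h1, h2⟩ := yla_crt2 hn hM hc g 1
  exact ⟨γ, yla_gam.2 h2, (pl_congr h h1).trans hg⟩

theorem yla_pair {q : ℕ} (hq : q.Prime) {ω : Set V2 × Set V2} (h : ω ∈ (Xn q).offDiag) :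
    ∃ γ : SL(2, ℤ), pl γ ω.1 = {u : V2 | (q : ℤ) ∣ u 1} ∧ pl γ ω.2 = {u : V2 | (q : ℤ) ∣ u 0} := by
  obtain ⟨h1, h2, h3⟩ := mem_offDiag.1 h
  have l1 := (mem_Xn hq.pos).1 h1
  have l2 := (mem_Xn hq.pos).1 h2
  obtain ⟨v, hv, e1⟩ := id l1
  obtain ⟨w, hw, e2⟩ := id l2
  have hp : Prime (q : ℤ) := Nat.prime_iff_prime_int.1 hq
  have hn : ¬ (q : ℤ) ∣ v 0 * w 1 - v 1 * w 0 := fun hd =>
    h3 (by rw [e1, e2]; exact (xlb_of_cop q hv).eq (xlb_of_cop q hw) (xlb_mem.2 hd))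
  have hc : IsCoprime (q : ℤ) (v 0 * w 1 - v 1 * w 0) :=
    (hp.irreducible.coprime_iff_not_dvd).2 hn
  obtain ⟨s, t, e⟩ := id hc
  obtain ⟨γ, hγ⟩ := exists_lift_SL hq.pos (W := !![v 0, t * w 0; v 1, t * w 1])
    ⟨-s, by rw [Matrix.det_fin_two_of]; linear_combination e⟩
  have h5 : Dv q ((γ : M2) - !![v 0, t * w 0; v 1, t * w 1]) := hγ
  refine ⟨γ, ?_, ?_⟩
  · rw [pl_congr l1 h5, e1]
    ext u
    show (!![v 0, t * w 0; v 1, t * w 1] : M2) *ᵥ u ∈ Ln q v ↔ (q : ℤ) ∣ u 1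
    rw [xlb_mem, xlb_mv, xlb_mv]
    simp only [Matrix.of_apply, Matrix.cons_val', Matrix.cons_val_zero, Matrix.cons_val_one,
      Matrix.cons_val_fin_one]
    refine dvd_iff_dvd_of_dvd_sub ⟨-s * u 1, ?_⟩
    linear_combination (u 1) * e
  · rw [pl_congr l2 h5, e2]
    ext u
    show (!![v 0, t * w 0; v 1, t * w 1] : M2) *ᵥ u ∈ Ln q w ↔ (q : ℤ) ∣ u 0
    rw [xlb_mem, xlb_mv, xlb_mv]
    simp only [Matrix.of_apply, Matrix.cons_val', Matrix.cons_val_zero, Matrix.cons_val_one,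
      Matrix.cons_val_fin_one]
    have e3 : w 0 * (v 1 * u 0 + t * w 1 * u 1) - w 1 * (v 0 * u 0 + t * w 0 * u 1) =
        -((v 0 * w 1 - v 1 * w 0) * u 0) := by ring
    rw [e3, dvd_neg]
    exact ⟨hc.dvd_of_dvd_mul_left, fun h => h.mul_left _⟩

theorem pair_trans {q : ℕ} (hq : q.Prime) {ω ω' : Set V2 × Set V2} (h : ω ∈ (Xn q).offDiag)
    (h' : ω' ∈ (Xn q).offDiag) : ∃ γ : SL(2, ℤ), pl γ ω.1 = ω'.1 ∧ pl γ ω.2 = ω'.2 := by
  obtain ⟨g, h1, h2⟩ := yla_pair hq h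
  obtain ⟨g', h1', h2'⟩ := yla_pair hq h'
  exact ⟨g * g'⁻¹, yla_back (h1.trans h1'.symm), yla_back (h2.trans h2'.symm)⟩

theorem yla_right {F : SL(2, ℤ) → ℝ}
    (hF : ∀ g, ∀ δ ∈ CongruenceSubgroup.Gamma M, F (δ * g) = F g) (x : SL(2, ℤ)) :
    F (x : vcjQ M).out = F x := by
  obtain ⟨δ, hδ, e⟩ := yla_out M x
  have e2 : x * δ = (x * δ * x⁻¹) * x := by group
  rw [e, e2]
  exact hF _ _ ((ylaNormal M).conj_mem δ hδ x)

theorem yla_mulr (c : vcjQ M) (g : SL(2, ℤ)) :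
    c * (g : vcjQ M) = ((c.out * g : SL(2, ℤ)) : vcjQ M) := by
  rw [QuotientGroup.mk_mul, QuotientGroup.out_eq']

theorem yla_mull (c : vcjQ M) (g : SL(2, ℤ)) :
    (g : vcjQ M) * c = ((g * c.out : SL(2, ℤ)) : vcjQ M) := by
  rw [QuotientGroup.mk_mul, QuotientGroup.out_eq']

theorem yla_inv (c : vcjQ M) : c⁻¹ = ((c.out⁻¹ : SL(2, ℤ)) : vcjQ M) := by
  rw [QuotientGroup.mk_inv, QuotientGroup.out_eq']

theorem yla_mn_congr {α : Type} {O : Finset α} {G G' : α → ℝ} (h : ∀ x ∈ O, G x = G' x) :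
    mn O G = mn O G' := by
  unfold mn
  rw [sum_congr rfl h]

theorem avg_trans {β : Type} (hM : 0 < M) (h : R ∣ M) (B : Finset β) (a : SL(2, ℤ) → β → β)
    (h1 : ∀ g ∈ CongruenceSubgroup.Gamma R, ∀ b ∈ B, a g b ∈ B)
    (h2 : ∀ g ∈ CongruenceSubgroup.Gamma R, ∀ g' ∈ CongruenceSubgroup.Gamma R, ∀ b ∈ B,
      a (g * g') b = a g' (a g b))
    (h3 : ∀ g ∈ CongruenceSubgroup.Gamma M, ∀ b ∈ B, a g b = b)
    (h4 : ∀ b ∈ B, ∀ b' ∈ B, ∃ g ∈ CongruenceSubgroup.Gamma R, a g b = b') (F : β → ℝ) {b : β}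
    (hb : b ∈ B) : mn (cs R M) (fun c => F (a c.out b)) = mn B F := by
  have hT : ∀ b' ∈ B, mn (cs R M) (fun c => F (a c.out b')) =
      mn (cs R M) (fun c => F (a c.out b)) := by
    intro b' hb'
    obtain ⟨g, hg, rfl⟩ := h4 b hb b' hb'
    rw [← mn_perm (O := cs R M) (π := fun c => (g : vcjQ M) * c) (fun c hc => by
      rw [yla_mull]
      exact (mem_cs hM h _).2 (mul_mem hg (out_mem_cs hc)))
      (fun c _ c' _ e => mul_left_cancel e) (fun c => F (a c.out b))]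
    refine yla_mn_congr fun c hc => ?_
    obtain ⟨δ, hδ, e⟩ := yla_out M (g * c.out)
    have hgc := mul_mem hg (out_mem_cs hc)
    rw [yla_mull, e, h2 _ hgc _ (yla_le h hδ) b hb, h3 δ hδ _ (h1 _ hgc b hb),
      h2 g hg _ (out_mem_cs hc) b hb]
  have hB : B.Nonempty := ⟨b, hb⟩
  rw [← mn_const hB (mn (cs R M) (fun c => F (a c.out b))), ← yla_mn_congr hT,
    mn_swap B (cs R M) (fun b' c => F (a c.out b')), ← mn_const (cs_ne hM h) (mn B F)]
  refine yla_mn_congr fun c hc => ?_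
  have hc' := out_mem_cs hc
  refine mn_perm (π := a c.out) (fun x hx => h1 _ hc' x hx) (fun x hx y hy e => ?_) F
  have k : ∀ z ∈ B, a c.out⁻¹ (a c.out z) = z := fun z hz => by
    rw [← h2 _ hc' _ (inv_mem hc') z hz, mul_inv_cancel, h3 1 (one_mem _) z hz]
  rw [← k x hx, e, k y hy]

theorem cs_level {M' R' u : ℕ} (hM : 0 < M) (h1 : M' ∣ M) (h2 : R' * u ∣ M) (h3 : R' ∣ M')
    (hu : u.Coprime M') {F : SL(2, ℤ) → ℝ}
    (hF : ∀ g, ∀ δ ∈ CongruenceSubgroup.Gamma M', F (δ * g) = F g) :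
    mn (cs (R' * u) M) (fun c => F c.out) = mn (cs R' M') fun c => F c.out := by
  have hM' : 0 < M' := Nat.pos_of_dvd_of_pos h1 hM
  have hu0 : 0 < u := Nat.pos_of_mul_pos_left (Nat.pos_of_dvd_of_pos h2 hM)
  have key := avg_trans hM h2 (cs R' M') (fun g c => c * (g : vcjQ M'))
    (fun g hg c hc => by
      rw [yla_mulr]
      exact (mem_cs hM' h3 _).2 (mul_mem (out_mem_cs hc) (yla_le (dvd_mul_right _ _) hg)))
    (fun g _ g' _ c _ => by rw [QuotientGroup.mk_mul, mul_assoc])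
    (fun g hg c _ => by rw [(QuotientGroup.eq_one_iff g).2 (yla_le h1 hg), mul_one])
    (fun c hc c' hc' => by
      obtain ⟨γ, k1, k2⟩ := yla_crt2 hM' hu0 hu.symm (c.out⁻¹ * c'.out) 1
      have hx := yla_gam.1 (mul_mem (inv_mem (out_mem_cs hc)) (out_mem_cs hc'))
      have k3 := yla_trans (yla_mono h3 k1) hx
      refine ⟨γ, yla_gam.2 fun i j => ?_, ?_⟩
      · rw [Nat.cast_mul]
        exact (Nat.isCoprime_iff_coprime.2 (Nat.Coprime.coprime_dvd_right h3 hu).symm).mul_dvd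
          (k3 i j) (k2 i j)
      · rw [← yla_mk_eq k1, QuotientGroup.mk_mul, QuotientGroup.mk_inv, QuotientGroup.out_eq',
          QuotientGroup.out_eq', mul_inv_cancel_left])
    (fun c => F c.out) ((mem_cs hM' h3 1).2 (one_mem _))
  rw [← key]
  refine yla_mn_congr fun c _ => ?_
  rw [QuotientGroup.mk_one, one_mul, yla_right hF]

theorem cs_shift (hM : 0 < M) (h : R ∣ M) {F : SL(2, ℤ) → ℝ}
    (hF : ∀ g, ∀ δ ∈ CongruenceSubgroup.Gamma M, F (δ * g) = F g) {γ : SL(2, ℤ)}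
    (hγ : γ ∈ CongruenceSubgroup.Gamma R) :
    mn (cs R M) (fun c => F (c.out * γ)) = mn (cs R M) (fun c => F c.out) ∧
      mn (cs R M) (fun c => F (γ * c.out)) = mn (cs R M) (fun c => F c.out) ∧
      mn (cs R M) (fun c => F c.out⁻¹) = mn (cs R M) (fun c => F c.out) := by
  refine ⟨?_, ?_, ?_⟩
  · rw [← mn_perm (O := cs R M) (π := fun c => c * (γ : vcjQ M)) (fun c hc => by
      rw [yla_mulr]
      exact (mem_cs hM h _).2 (mul_mem (out_mem_cs hc) hγ))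
      (fun c _ c' _ e => mul_right_cancel e) (fun c => F c.out)]
    refine yla_mn_congr fun c _ => ?_
    rw [yla_mulr, yla_right hF]
  · rw [← mn_perm (O := cs R M) (π := fun c => (γ : vcjQ M) * c) (fun c hc => by
      rw [yla_mull]
      exact (mem_cs hM h _).2 (mul_mem hγ (out_mem_cs hc)))
      (fun c _ c' _ e => mul_left_cancel e) (fun c => F c.out)]
    refine yla_mn_congr fun c _ => ?_
    rw [yla_mull, yla_right hF]
  · rw [← mn_perm (O := cs R M) (π := fun c => c⁻¹) (fun c hc => by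
      rw [yla_inv]
      exact (mem_cs hM h _).2 (inv_mem (out_mem_cs hc)))
      (fun c _ c' _ e => inv_injective e) (fun c => F c.out)]
    refine yla_mn_congr fun c _ => ?_
    rw [yla_inv, yla_right hF]

end Pool.Agent.EQ
end
end
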