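import Pool.Agent.K.MP_ad7a55_nt.C45
import Pool.Agent.K.MP_ad7a55_nt.C32
import Pool.Agent.K.MP_ad7a55_nt.C41
import Pool.Agent.K.MP_ad7a55_nt.C44
import Pool.Agent.K.MP_ad7a55_nt.C36
import Pool.Agent.K.MP_ad7a55_nt.C46
import Pool.Agent.K.MP_ad7a55_nt.C38

-- part Pool.Agent.P.MP_ad7a55_nt.CM
section

/-! The Galois group moves CM points along p-adic balls. -/

set_option autoImplicit false

noncomputable section

open MeasureTheory Topology Filter UpperHalfPlane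
open scoped MatrixGroups ENNReal BoundedContinuousFunction

namespace Pool.Agent.EQ

variable (p : ℕ) [Fact p.Prime]

/-- Two discriminants of the same field. -/
theorem exists_ratio {D D₀ : ℤ} (hD : D < 0) (hD₀ : D₀ < 0) (h : IsSquare (D * D₀)) :
    ∃ ρ : ℚ, 0 < ρ ∧ ρ ^ 2 * D = D₀ ∧ th D₀ = ρ * th D := by
  obtain ⟨s, hs⟩ := h
  have hs0 : s ≠ 0 := by
    rintro rfl
    have := mul_pos_of_neg_of_neg hD hD₀
    omega
  have hDq : (D : ℚ) < 0 := by exact_mod_cast hD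
  have hsq : (D : ℚ) * D₀ = (s : ℚ) * s := by exact_mod_cast hs
  have hsq0 : (s : ℚ) ≠ 0 := by exact_mod_cast hs0
  have hpos : 0 < |(s : ℚ)| / (-D) := div_pos (abs_pos.2 hsq0) (by linarith)
  have hrho : (|(s : ℚ)| / (-D)) ^ 2 * D = D₀ := by
    rw [div_pow, sq_abs]
    have : (D : ℚ) ≠ 0 := hDq.ne
    field_simp
    linear_combination -hsq
  refine ⟨|(s : ℚ)| / (-D), hpos, hrho, ?_⟩
  generalize |(s : ℚ)| / (-D) = ρ at hpos hrho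
  have h1 : (-(D₀ : ℝ)) = (ρ : ℝ) ^ 2 * (-(D : ℝ)) := by
    have : ((ρ ^ 2 * D : ℚ) : ℝ) = ((D₀ : ℚ) : ℝ) := by rw [hrho]
    push_cast at this
    linarith
  have h2 : (0 : ℝ) ≤ ρ := by exact_mod_cast hpos.le
  unfold th
  rw [h1, Real.sqrt_mul (sq_nonneg _), Real.sqrt_sq h2]
  push_cast
  ring

/-- The ratio times a multiple of `D` is a natural number. -/
theorem cm_ratio_nat {D D₀ : ℤ} {ρ : ℚ} (hρ : 0 < ρ) (h : ρ ^ 2 * D = D₀) {f : ℕ}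
    (hf : 0 < f) (hDf : D ∣ f) : ∃ g : ℕ, 0 < g ∧ (g : ℚ) = f * ρ := by
  obtain ⟨k, hk⟩ := hDf
  have h1 : (ρ * D) ^ 2 = ((D * D₀ : ℤ) : ℚ) := by push_cast; rw [← h]; ring
  have h2 : (ρ * D).den = 1 := by
    have := congrArg Rat.den h1
    rw [Rat.den_pow, Rat.den_intCast] at this
    exact (pow_eq_one_iff.1 this).resolve_right (by norm_num)
  obtain ⟨s, hs⟩ : ∃ s : ℤ, (s : ℚ) = ρ * D := ⟨(ρ * D).num, by
    conv_rhs => rw [← Rat.num_div_den (ρ * D), h2]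
    simp⟩
  have hkq : (f : ℚ) = D * k := by exact_mod_cast hk
  have h3 : ((s * k : ℤ) : ℚ) = f * ρ := by push_cast; rw [hs, hkq]; ring
  have h4 : 0 < s * k := by
    have : (0 : ℚ) < ((s * k : ℤ) : ℚ) := by
      rw [h3]; exact mul_pos (by exact_mod_cast hf) hρ
    exact_mod_cast this
  refine ⟨(s * k).toNat, by omega, ?_⟩
  rw [← h3]
  have : (((s * k).toNat : ℕ) : ℤ) = s * k := Int.toNat_of_nonneg h4.le
  exact_mod_cast this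

theorem cm_inK_ratio {D D₀ : ℤ} {ρ : ℚ} (h : th D₀ = ρ * th D) {t : ℂ} (ht : InK D₀ t) :
    InK D t := by
  obtain ⟨h0, a, b, e⟩ := ht
  refine ⟨h0, a, b * ρ, ?_⟩
  rw [e, h]; push_cast; ring

theorem cm_inK_sq {D : ℤ} {f : ℕ} (hf : 0 < f) {t : ℂ} (ht : InK D t) : InK (f ^ 2 * D) t := by
  refine cm_inK_ratio (ρ := 1 / f) ?_ ht
  have : (f : ℂ) ≠ 0 := by exact_mod_cast hf.ne'
  rw [th_mul_sq]; push_cast; field_simp

theorem cm_inK_pow {D : ℤ} (hD : D < 0) {t : ℂ} (ht : InK D t) (n : ℕ) : InK D (t ^ n) := by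
  induction n with
  | zero => exact ⟨by simp, 1, 0, by simp⟩
  | succ n ih => rw [pow_succ]; exact ih.mul hD ht

theorem cm_isD_sq {D : ℤ} (hD : IsD D) {f : ℕ} (hf : 0 < f) : IsD (f ^ 2 * D) := by
  refine ⟨mul_neg_of_pos_of_neg (by positivity) hD.1, ?_⟩
  have h1 : (f : ℤ) ^ 2 % 4 = 0 ∨ (f : ℤ) ^ 2 % 4 = 1 := by
    rcases Int.emod_two_eq_zero_or_one f with h | h
    · obtain ⟨k, hk⟩ := Int.dvd_of_emod_eq_zero h
      left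
      rw [hk, show (2 * k) ^ 2 = 4 * k ^ 2 by ring]
      exact Int.mul_emod_right _ _
    · exact Or.inr (Int.sq_mod_four_eq_one_of_odd (Int.odd_iff.2 h))
  rcases h1 with h1 | h1 <;> rcases hD.2 with h2 | h2 <;> simp [Int.mul_emod, h1, h2]

theorem cm_not_sq {D D₀ : ℤ} {f : ℕ} (hf : 0 < f) (h : ¬ IsSquare (D * D₀)) :
    ¬ IsSquare (D * (f ^ 2 * D₀)) := by
  rintro ⟨s, hs⟩
  have h1 : (f : ℤ) ^ 2 ∣ s ^ 2 := ⟨D * D₀, by rw [sq s, ← hs]; ring⟩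
  obtain ⟨k, rfl⟩ := (Int.pow_dvd_pow_iff (by norm_num)).1 h1
  refine h ⟨k, mul_left_cancel₀ (show (f : ℤ) ^ 2 ≠ 0 by positivity) ?_⟩
  linear_combination hs

theorem cm_main (F : IntermediateField ℚ ℂ) [FiniteDimensional ℚ F] (n : ℕ) : ∃ c : ℕ,
    ∀ 𝒟 : Finset ℤ, 𝒟.card ≤ n → (∀ D ∈ 𝒟, D < -576 ∧ IsD D) → ∀ D₀ ∈ 𝒟, ∀ y : ℚ,
      ‖(y : ℚ_[p]) ^ 2 * D₀‖ ≤ (p : ℝ) ^ (-(c : ℤ)) → ∃ σ : ℂ ≃+* ℂ, (∀ a ∈ F, σ a = a) ∧
        ∀ D ∈ 𝒟, ∀ Λ, DiscL Λ D → (IsSquare (D * D₀) → σ (jL Λ) = jL (star p (1 + y * th D₀) Λ)) ∧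
          (¬ IsSquare (D * D₀) → σ (jL Λ) = jL Λ) := by
  classical
  set d : ℕ := max 2 (Module.finrank ℚ F) with hd
  have hd2 : 2 ≤ d := le_max_left _ _
  have hdF : Module.finrank ℚ F ≤ d := le_max_right _ _
  have hM : 0 < d.factorial * 2 ^ n := Nat.mul_pos d.factorial_pos (by positivity)
  obtain ⟨c, hc⟩ := ball_gen p hM
  refine ⟨c, fun 𝒟 hcard h𝒟 D₀ hD₀ y hy => ?_⟩
  have hneg : ∀ D ∈ 𝒟, D < 0 := fun D hD => (h𝒟 D hD).2.1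
  have h0 : D₀ < 0 := hneg D₀ hD₀
  set f : ℕ := (∏ D ∈ 𝒟, D).natAbs with hf
  have hf0 : 0 < f := Int.natAbs_pos.2 (Finset.prod_ne_zero_iff.2 fun D hD => (hneg D hD).ne)
  have hdvd : ∀ D ∈ 𝒟, D ∣ (f : ℤ) := fun D hD =>
    Int.dvd_natAbs.2 (Finset.dvd_prod_of_mem (fun D : ℤ => D) hD)
  refine hc D₀ h0 (fun t => ∃ σ : ℂ ≃+* ℂ, (∀ a ∈ F, σ a = a) ∧
    ∀ D ∈ 𝒟, ∀ Λ, DiscL Λ D → (IsSquare (D * D₀) → σ (jL Λ) = jL (star p t Λ)) ∧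
      (¬ IsSquare (D * D₀) → σ (jL Λ) = jL Λ)) f hf0 ?_ ?_ ?_ ?_ y hy
  · rintro t t' ht ht' ⟨σ, hσF, hσ⟩ ⟨σ', hσF', hσ'⟩
    refine ⟨σ'.trans σ, fun a ha => by simp [hσF a ha, hσF' a ha], fun D hD Λ hΛ => ⟨fun hsq => ?_,
      fun hsq => ?_⟩⟩
    · obtain ⟨ρ, -, -, hρ⟩ := exists_ratio (hneg D hD) h0 hsq
      have h1 := cm_inK_ratio hρ ht
      have h2 := cm_inK_ratio hρ ht'
      rw [RingEquiv.trans_apply, (hσ' D hD Λ hΛ).1 hsq,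
        (hσ D hD _ (discL_star p hΛ h2)).1 hsq, star_mul p hΛ h1 h2]
    · rw [RingEquiv.trans_apply, (hσ' D hD Λ hΛ).2 hsq, (hσ D hD Λ hΛ).2 hsq]
  · intro a ha
    refine ⟨RingEquiv.refl ℂ, fun _ _ => rfl, fun D _ Λ hΛ => ⟨fun _ => ?_, fun _ => rfl⟩⟩
    obtain ⟨b, hb, e⟩ := star_rat p ha Λ
    rw [e, jL_pr_mul hΛ.isLat hb]; rfl
  · intro z hz hz'
    refine ⟨RingEquiv.refl ℂ, fun _ _ => rfl, fun D hD Λ hΛ => ⟨fun hsq => ?_, fun _ => rfl⟩⟩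
    obtain ⟨ρ, hρ0, hρ1, hρ⟩ := exists_ratio (hneg D hD) h0 hsq
    obtain ⟨g, -, hg⟩ := cm_ratio_nat hρ0 hρ1 hf0 (hdvd D hD)
    have e : 1 + (z : ℂ) * th D₀ = 1 + ((z * ρ : ℚ) : ℂ) * th D := by
      rw [hρ]; push_cast; ring
    rw [e, star_triv p hΛ]
    · rfl
    · have h1 : (g : ℚ_[p]) = f * ρ := by exact_mod_cast congrArg (fun x : ℚ => (x : ℚ_[p])) hg
      have h2 : ‖(g : ℚ_[p])‖ ≤ 1 := by simpa using Padic.norm_int_le_one (p := p) (g : ℤ)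
      push_cast
      rw [h1, norm_mul] at h2
      rw [norm_mul]
      exact (mul_le_mul_of_nonneg_right hz (norm_nonneg _)).trans h2
    · have h1 : (ρ : ℚ_[p]) ^ 2 * D = D₀ := by
        exact_mod_cast congrArg (fun x : ℚ => (x : ℚ_[p])) hρ1
      push_cast
      rwa [mul_pow, mul_assoc, h1]
  · intro t ht
    set T : Finset ℤ := 𝒟.filter fun D => ¬ IsSquare (D * D₀) with hT
    have hTn : T.card ≤ n := (Finset.card_filter_le _ _).trans hcard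
    have hDs : IsD (f ^ 2 * D₀) := cm_isD_sq (h𝒟 D₀ hD₀).2 hf0
    have hDs' : (f : ℤ) ^ 2 * D₀ < -576 := by
      have h1 : (1 : ℤ) ≤ (f : ℤ) ^ 2 := one_le_pow₀ (by exact_mod_cast hf0)
      have h2 := (h𝒟 D₀ hD₀).1
      nlinarith
    have ht' : InK (f ^ 2 * D₀) (t ^ 2 ^ (n - T.card)) := cm_inK_sq hf0 (cm_inK_pow h0 ht _)
    have htM : InK (f ^ 2 * D₀) (t ^ (d.factorial * 2 ^ n)) := cm_inK_sq hf0 (cm_inK_pow h0 ht _)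
    obtain ⟨σ, hσ, hact, hfix⟩ := realize hd2 hDs' T (fun D' hD' => by
      obtain ⟨h1, h2⟩ := Finset.mem_filter.1 hD'
      exact ⟨(h𝒟 D' h1).1, (h𝒟 D' h1).2, cm_not_sq hf0 h2⟩) (discL_star p (discL_OD hDs) ht')
    obtain ⟨k, hk⟩ : ∃ k, d.factorial * 2 ^ T.card = k + 1 :=
      Nat.exists_eq_succ_of_ne_zero (Nat.mul_pos d.factorial_pos (by positivity)).ne'
    have hexp : 2 ^ (n - T.card) * (k + 1) = d.factorial * 2 ^ n := by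
      rw [← hk, mul_left_comm, ← pow_add, Nat.sub_add_cancel hTn]
    rw [hk, star_pow p hDs ht', ← pow_mul, hexp] at hact
    refine ⟨σ, hσ.field F hdF, fun D hD Λ hΛ => ⟨fun hsq => ?_,
      fun hsq => hfix D (Finset.mem_filter.2 ⟨hD, hsq⟩) Λ hΛ⟩⟩
    obtain ⟨ρ, hρ0, hρ1, hρ⟩ := exists_ratio (hneg D hD) h0 hsq
    obtain ⟨g, hg0, hg⟩ := cm_ratio_nat hρ0 hρ1 hf0 (hdvd D hD)
    have e : (f : ℤ) ^ 2 * D₀ = (g : ℤ) ^ 2 * D := by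
      have : ((f : ℚ)) ^ 2 * D₀ = (g : ℚ) ^ 2 * D := by rw [hg, ← hρ1]; ring
      exact_mod_cast this
    have h𝔨 := discL_star p (discL_OD hDs) htM
    have hle : OD (f ^ 2 * D₀) ≤ OD D := by rw [e]; exact OD_sq_le (h𝒟 D hD).2 g
    have hup : Acts σ D (star p (t ^ (d.factorial * 2 ^ n)) (OD (f ^ 2 * D₀))) :=
      Acts.up (h𝒟 D hD).1 (h𝒟 D hD).2 (hσ.th hd2 (hneg D hD).le) hg0 (e ▸ h𝔨) (e ▸ hact)
    rw [hup Λ hΛ, star_OD_mul p hDs hΛ hle htM]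

end Pool.Agent.EQ
end
end

-- part Pool.Agent.P.MP_ad7a55_nt.CtE2
section

/-! Counting exceptional pairs. -/

set_option autoImplicit false

noncomputable section

open MeasureTheory Topology Filter UpperHalfPlane
open scoped MatrixGroups ENNReal BoundedContinuousFunction

namespace Pool.Agent.EQ

variable (p : ℕ) [Fact p.Prime]

/-- The exceptional pairs with a fixed class of the quotient. -/
def Ex2 (n : ℤ) (c : ℕ) (D₁ D₂ : ℤ) (w : ℂ) : Set (ℂ × ℂ) :=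
  {z | ∃ M₁ M₂, DiscL M₁ D₁ ∧ DiscL M₂ D₂ ∧ jL M₁ = z.1 ∧ jL M₂ = z.2 ∧ jL (M₂ * cj M₁) = w ∧
    Bad2 p n c D₁ D₂ M₁ M₂}

/-- The pairs with given linear part `a` and given norm `B` of the antilinear part. -/
def Ex3 (n : ℤ) (E : ℤ) (g₁ g₂ : ℕ) (𝔩 : Lt) (a : ℂ) (B : ℕ) : Set (ℂ × ℂ) :=
  {z | ∃ M₁ M₂, DiscL M₁ (g₁ ^ 2 * E) ∧ DiscL M₂ (g₂ ^ 2 * E) ∧ jL M₁ = z.1 ∧ jL M₂ = z.2 ∧
    M₂ * cj M₁ = 𝔩 ∧ ∃ α β : ℂ, (∀ z ∈ M₁, rl α β z ∈ M₂) ∧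
      (Complex.normSq α - Complex.normSq β) * vol M₁ = n * vol M₂ ∧
      a = 2 * Complex.I * vol M₁ * α ∧
      Complex.normSq (2 * Complex.I * vol M₁ * β) = B * nm E 𝔩}

theorem cte2_biUnion {α β : Type*} {A : Set α} (hA : A.Finite) (F : α → Set β) {k : ℕ}
    (hF : ∀ x ∈ A, (F x).Finite ∧ (F x).ncard ≤ k) :
    (⋃ x ∈ A, F x).Finite ∧ (⋃ x ∈ A, F x).ncard ≤ A.ncard * k := by
  refine ⟨hA.biUnion fun x hx => (hF x hx).1, ?_⟩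
  induction A, hA using Set.Finite.induction_on with
  | empty => simp
  | @insert a s ha hs ih =>
    rw [Set.biUnion_insert, Set.ncard_insert_of_notMem ha hs, add_mul, one_mul]
    have h1 := ih fun x hx => hF x (Set.mem_insert_of_mem _ hx)
    have h2 := (hF a (Set.mem_insert _ _)).2
    have h3 := Set.ncard_union_le (F a) (⋃ x ∈ s, F x)
    omega

/-- A chosen lattice with given invariant. -/
def cte2_rep (t : ℂ) : Lt := (jL_surj t).choose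

theorem cte2_rep_spec (t : ℂ) : IsLat (cte2_rep t) ∧ jL (cte2_rep t) = t :=
  (jL_surj t).choose_spec

theorem cte2_pos {E : ℤ} {g : ℕ} {M : Lt} (h : DiscL M (g ^ 2 * E)) : 0 < g := by
  rcases Nat.eq_zero_or_pos g with h0 | h0
  · have := h.isD.1
    rw [h0] at this
    simp at this
  · exact h0

theorem cte2_nm {E : ℤ} {g : ℕ} (M : Lt) :
    nm (g ^ 2 * E) M = 2 * vol M / (g * Real.sqrt (-(E : ℝ))) := by
  unfold nm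
  have h : -(((g : ℤ) ^ 2 * E : ℤ) : ℝ) = (g : ℝ) ^ 2 * (-(E : ℝ)) := by
    push_cast
    ring
  rw [h, Real.sqrt_mul (sq_nonneg _), Real.sqrt_sq (Nat.cast_nonneg g)]

theorem cte2_quot {E : ℤ} (hE : IsD E) {g₁ g₂ : ℕ} (hg : Nat.Coprime g₁ g₂) {M₁ M₂ : Lt}
    (h₁ : DiscL M₁ (g₁ ^ 2 * E)) (h₂ : DiscL M₂ (g₂ ^ 2 * E)) :
    DiscL (M₂ * cj M₁) E ∧ nm E (M₂ * cj M₁) = nm E (M₁ * M₂) ∧
      nm E (M₂ * cj M₁) = 4 * vol M₁ * vol M₂ / (g₁ * g₂ * (-(E : ℝ))) ∧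
      M₂ * cj M₁ = (M₂ * OD E) * cj (M₁ * OD E) := by
  obtain ⟨a1, a2, a3⟩ := discL_mul_cop hE hg h₁.cj h₂
  obtain ⟨-, b2, -⟩ := discL_mul_cop hE hg h₁ h₂
  rw [nm_cj h₁.isLat] at a2
  rw [mul_comm M₂]
  refine ⟨a1, a2.trans b2.symm, ?_, ?_⟩
  · have hE' : (0 : ℝ) ≤ -(E : ℝ) := by
      have : (E : ℝ) < 0 := by exact_mod_cast hE.1
      linarith
    rw [a2, cte2_nm, cte2_nm, div_mul_div_comm]
    congr 1
    · ring
    · have := Real.mul_self_sqrt hE'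
      linear_combination (g₁ * g₂ : ℝ) * this
  · rw [a3, cj_mul, cj_OD, mul_comm]

/-- The conditions in `Ex3`. -/
def cte2_W (n : ℤ) (E : ℤ) (g₁ g₂ : ℕ) (𝔩 : Lt) (a : ℂ) (B : ℕ) (M₁ M₂ : Lt) : Prop :=
  DiscL M₁ (g₁ ^ 2 * E) ∧ DiscL M₂ (g₂ ^ 2 * E) ∧
    M₂ * cj M₁ = 𝔩 ∧ ∃ α β : ℂ, (∀ z ∈ M₁, rl α β z ∈ M₂) ∧
      (Complex.normSq α - Complex.normSq β) * vol M₁ = n * vol M₂ ∧
      a = 2 * Complex.I * vol M₁ * α ∧
      Complex.normSq (2 * Complex.I * vol M₁ * β) = B * nm E 𝔩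

theorem cte2_scale {n E : ℤ} {g₁ g₂ : ℕ} {𝔩 : Lt} {a : ℂ} {B : ℕ} {M₁ M₂ : Lt}
    (h : cte2_W n E g₁ g₂ 𝔩 a B M₁ M₂) {c : ℂ} (hc : c ≠ 0) :
    cte2_W n E g₁ g₂ 𝔩 a B (pr c * M₁) (pr (starRingEnd ℂ c)⁻¹ * M₂) := by
  obtain ⟨h₁, h₂, hl, α, β, hm, hn, ha, hb⟩ := h
  have hc' : starRingEnd ℂ c ≠ 0 := by simpa using hc
  have hN : Complex.normSq c ≠ 0 := by simpa using hc
  have hv1 := vol_pr_mul h₁.isLat hc
  have hv2 := vol_pr_mul h₂.isLat (inv_ne_zero hc')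
  rw [map_inv₀, Complex.normSq_conj] at hv2
  refine ⟨h₁.pr_mul hc, h₂.pr_mul (inv_ne_zero hc'), ?_, (starRingEnd ℂ c)⁻¹ * α / c,
    (starRingEnd ℂ c)⁻¹ * β / starRingEnd ℂ c, ?_, ?_, ?_, ?_⟩
  · rw [cj_mul, cj_pr, mul_mul_mul_comm, pr_mul_pr, inv_mul_cancel₀ hc', pr_one_mul, hl]
  · intro z hz
    obtain ⟨w, hw, rfl⟩ := mem_pr_mul.1 hz
    refine mem_pr_mul.2 ⟨_, hm w hw, ?_⟩
    unfold rl
    rw [map_mul]
    field_simp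
  · rw [hv1, hv2]
    simp only [map_div₀, map_mul, map_inv₀, Complex.normSq_conj]
    field_simp
    linear_combination hn
  · rw [hv1, ha, Complex.ofReal_mul, Complex.normSq_eq_conj_mul_self]
    field_simp
  · rw [← hb, hv1]
    simp only [map_div₀, map_mul, map_inv₀, Complex.normSq_conj, Complex.normSq_ofReal]
    field_simp

/-- The second overlattice. -/
def cte2_T (E : ℤ) (𝔩 : Lt) (t : ℂ) : Lt :=
  pr ((nm E (cte2_rep t) : ℂ))⁻¹ * (𝔩 * cte2_rep t)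

/-- The pairs attached to the data. -/
def cte2_R (n : ℤ) (g₁ g₂ : ℕ) (T₁ T₂ : Lt) (α β : ℂ) : Set (Lt × Lt) :=
  {M : Lt × Lt | IsLat M.1 ∧ IsLat M.2 ∧ M.1 ≤ T₁ ∧ pr g₁ * T₁ ≤ M.1 ∧ M.2 ≤ T₂ ∧
    pr g₂ * T₂ ≤ M.2 ∧ (∀ z ∈ M.1, rl α β z ∈ M.2) ∧
    (Complex.normSq α - Complex.normSq β) * vol M.1 = n * vol M.2}

theorem cte2_data {n E : ℤ} (hE : IsD E) {g₁ g₂ : ℕ} (hg : Nat.Coprime g₁ g₂) {𝔩 : Lt} {a : ℂ}
    {B : ℕ} (hB : 0 < B) {M₁ M₂ : Lt} (h : cte2_W n E g₁ g₂ 𝔩 a B M₁ M₂) {t : ℂ}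
    (ht : M₁ * OD E = cte2_rep t) :
    ∃ 𝔟 ∈ Idl E B, (∃ T, DiscL T E ∧ jL T = t ∧ jL (T * T) = jL (𝔟 * cj 𝔩)) ∧
      ∃ c : ℂ, (c ≠ 0 ∧ pr c * (cte2_rep t * cte2_T E 𝔩 t) = 𝔟) ∧
        (M₁, M₂) ∈ cte2_R n g₁ g₂ (cte2_rep t) (cte2_T E 𝔩 t)
          (a / (2 * Complex.I * (g₁ * vol (cte2_rep t) : ℝ)))
          (starRingEnd ℂ (c * nm E 𝔩) / (2 * Complex.I * (g₁ * vol (cte2_rep t) : ℝ))) := by
  obtain ⟨h₁, h₂, hl, α, β, hm, hn, ha, hb⟩ := h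
  obtain ⟨q1, q2, -, q4⟩ := cte2_quot hE hg h₁ h₂
  obtain ⟨p1, -, p3⟩ := discL_mul_cop hE hg h₁ h₂
  obtain ⟨u1, u2, u3, u4⟩ := discL_up hE h₁
  obtain ⟨v1, -, v3, v4⟩ := discL_up hE h₂
  rw [hl] at q1 q2 q4
  rw [ht] at q4 p3 u1 u2 u3 u4
  have hν1 : (nm E (cte2_rep t) : ℂ) ≠ 0 := by exact_mod_cast u1.nm_pos.ne'
  have hν2 : (nm E (M₂ * OD E) : ℂ) ≠ 0 := by exact_mod_cast v1.nm_pos.ne'
  have hν : (nm E 𝔩 : ℂ) ≠ 0 := by exact_mod_cast q1.nm_pos.ne'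
  have hT : cte2_T E 𝔩 t = M₂ * OD E := by
    unfold cte2_T
    have e : 𝔩 * cte2_rep t = pr (nm E (cte2_rep t)) * (M₂ * OD E) := by
      rw [q4, mul_assoc, mul_comm (cj _), u1.mul_cj_nm, mul_left_comm,
        mul_comm (M₂ * OD E) (OD E), v1.OD_mul]
    rw [e, ← mul_assoc, pr_mul_pr, inv_mul_cancel₀ hν1, pr_one_mul]
  have hbm := (rl_mem h₁.isLat hm).2
  have hb0 : 2 * Complex.I * vol M₁ * β ≠ 0 := by
    intro h0
    rw [h0, map_zero] at hb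
    have : (0 : ℝ) < B * nm E 𝔩 := mul_pos (by exact_mod_cast hB) q1.nm_pos
    linarith
  have hI := p1.mem_Idl hbm hb0 (n := B) (by rw [hb, q2])
  rw [← q2] at hI
  have hc0 : starRingEnd ℂ (2 * Complex.I * vol M₁ * β) / nm E 𝔩 ≠ 0 :=
    div_ne_zero ((map_ne_zero _).2 hb0) hν
  have hV : (2 * Complex.I * (vol M₁ : ℝ) : ℂ) ≠ 0 :=
    mul_ne_zero (mul_ne_zero two_ne_zero Complex.I_ne_zero)
      (by exact_mod_cast (vol_pos h₁.isLat).ne')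
  refine ⟨_, hI, ⟨cte2_rep t, u1, (cte2_rep_spec t).2, ?_⟩, _, ⟨hc0, ?_⟩, ?_⟩
  · have e : pr (starRingEnd ℂ (2 * Complex.I * vol M₁ * β) / nm E 𝔩) * (M₁ * M₂) * cj 𝔩 =
        pr (starRingEnd ℂ (2 * Complex.I * vol M₁ * β) / nm E 𝔩 * nm E (M₂ * OD E)) *
          (cte2_rep t * cte2_rep t) := by
      have e1 : cj 𝔩 = cj (M₂ * OD E) * cte2_rep t := by
        conv_lhs => rw [q4, cj_mul, cj_cj]
      have e2 : M₁ * M₂ * cj 𝔩 = pr (nm E (M₂ * OD E)) * (cte2_rep t * cte2_rep t) := by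
        have e3 : cte2_rep t * (M₂ * OD E) * (cj (M₂ * OD E) * cte2_rep t) =
            (M₂ * OD E) * cj (M₂ * OD E) * cte2_rep t * cte2_rep t := by ring
        rw [p3, e1, e3, v1.mul_cj_nm, mul_assoc (pr _), u1.OD_mul, mul_assoc]
      rw [mul_assoc, e2, ← mul_assoc, pr_mul_pr]
    rw [e, jL_pr_mul (u1.mul u1 le_rfl).isLat (mul_ne_zero hc0 hν2)]
  · rw [hT, ← p3]
  · rw [hT, ← u2, div_mul_cancel₀ _ hν, Complex.conj_conj, ha, mul_div_cancel_left₀ _ hV,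
      mul_div_cancel_left₀ _ hV]
    exact ⟨h₁.isLat, h₂.isLat, u3, u4, v3, v4, hm, hn⟩

theorem Ex2_finite (n : ℤ) (c : ℕ) (D₁ D₂ : ℤ) (w : ℂ) : (Ex2 p n c D₁ D₂ w).Finite := by
  refine ((Cl_finite D₁).prod (Cl_finite D₂)).subset ?_
  rintro z ⟨M₁, M₂, h₁, h₂, e₁, e₂, -⟩
  exact ⟨⟨M₁, h₁, e₁⟩, ⟨M₂, h₂, e₂⟩⟩

theorem card_Ex3 {n : ℤ} (hn : n ≠ 0) {E : ℤ} (hE : IsD E) {g₁ g₂ : ℕ} (hg : Nat.Coprime g₁ g₂)
    (𝔩 : Lt) (a : ℂ) {B : ℕ} (hB : 0 < B) :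
    (Ex3 n E g₁ g₂ 𝔩 a B).ncard ≤
      (Idl E B).ncard * (8 * E.natAbs.divisors.card) * 15 * n.natAbs ^ 9 := by
  by_cases h𝔩 : DiscL 𝔩 E
  swap
  · have e : Ex3 n E g₁ g₂ 𝔩 a B = ∅ := by
      refine Set.eq_empty_of_forall_notMem ?_
      rintro z ⟨M₁, M₂, h₁, h₂, -, -, hl, -⟩
      exact h𝔩 (hl ▸ (cte2_quot hE hg h₁ h₂).1)
    rw [e, Set.ncard_empty]
    exact Nat.zero_le _
  let F3 : ℂ → ℂ → Set (ℂ × ℂ) := fun t c => (fun M : Lt × Lt => (jL M.1, jL M.2)) ''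
    cte2_R n g₁ g₂ (cte2_rep t) (cte2_T E 𝔩 t)
      (a / (2 * Complex.I * (g₁ * vol (cte2_rep t) : ℝ)))
      (starRingEnd ℂ (c * nm E 𝔩) / (2 * Complex.I * (g₁ * vol (cte2_rep t) : ℝ)))
  have h3 : ∀ t c, (F3 t c).Finite ∧ (F3 t c).ncard ≤ n.natAbs ^ 9 := by
    intro t c
    have h := card_rec hn hg (cte2_rep t) (cte2_T E 𝔩 t)
      (a / (2 * Complex.I * (g₁ * vol (cte2_rep t) : ℝ)))
      (starRingEnd ℂ (c * nm E 𝔩) / (2 * Complex.I * (g₁ * vol (cte2_rep t) : ℝ)))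
    exact ⟨h.1.image _, (Set.ncard_image_le h.1).trans h.2⟩
  let G : Lt → ℂ → Set ℂ := fun 𝔟 t => {c : ℂ | c ≠ 0 ∧ pr c * (cte2_rep t * cte2_T E 𝔩 t) = 𝔟}
  let S : Lt → Set ℂ := fun 𝔟 => {z | ∃ T, DiscL T E ∧ jL T = z ∧ jL (T * T) = jL (𝔟 * cj 𝔩)}
  have h2 : ∀ 𝔟, ∀ t ∈ S 𝔟, (⋃ c ∈ G 𝔟 t, F3 t c).Finite ∧
      (⋃ c ∈ G 𝔟 t, F3 t c).ncard ≤ 15 * n.natAbs ^ 9 := by
    rintro 𝔟 t ⟨T, hT, hj, -⟩
    obtain ⟨c, hc, e⟩ := jL_inj hT.isLat (cte2_rep_spec t).1 (hj.trans (cte2_rep_spec t).2.symm)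
    have u1 : DiscL (cte2_rep t) E := e ▸ hT.pr_mul hc
    have hν1 : (nm E (cte2_rep t) : ℂ) ≠ 0 := by exact_mod_cast u1.nm_pos.ne'
    have u2 : DiscL (cte2_T E 𝔩 t) E := (h𝔩.mul u1 le_rfl).pr_mul (inv_ne_zero hν1)
    have hG := card_gen (u1.mul u2 le_rfl) 𝔟
    have h := cte2_biUnion hG.1 (F3 t) (fun c _ => h3 t c)
    exact ⟨h.1, h.2.trans (Nat.mul_le_mul_right _ hG.2)⟩
  have h1 : ∀ 𝔟, (⋃ t ∈ S 𝔟, ⋃ c ∈ G 𝔟 t, F3 t c).Finite ∧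
      (⋃ t ∈ S 𝔟, ⋃ c ∈ G 𝔟 t, F3 t c).ncard ≤
        (8 * E.natAbs.divisors.card) * (15 * n.natAbs ^ 9) := by
    intro 𝔟
    have hS : (S 𝔟).Finite := (Cl_finite E).subset fun z ⟨T, hT, hj, _⟩ => ⟨T, hT, hj⟩
    have h := cte2_biUnion hS (fun t => ⋃ c ∈ G 𝔟 t, F3 t c) (h2 𝔟)
    exact ⟨h.1, h.2.trans (Nat.mul_le_mul_right _ (card_sqrt hE.1 _))⟩
  have h0 := cte2_biUnion (Idl_finite E B) (fun 𝔟 => ⋃ t ∈ S 𝔟, ⋃ c ∈ G 𝔟 t, F3 t c)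
    (fun 𝔟 _ => h1 𝔟)
  have hsub : Ex3 n E g₁ g₂ 𝔩 a B ⊆ ⋃ 𝔟 ∈ Idl E B, ⋃ t ∈ S 𝔟, ⋃ c ∈ G 𝔟 t, F3 t c := by
    rintro z ⟨M₁, M₂, h₁, h₂, e₁, e₂, hl, hr⟩
    have hW : cte2_W n E g₁ g₂ 𝔩 a B M₁ M₂ := ⟨h₁, h₂, hl, hr⟩
    have u1 := (discL_up hE h₁).1
    obtain ⟨c, hc, e⟩ := jL_inj u1.isLat (cte2_rep_spec (jL (M₁ * OD E))).1
      (cte2_rep_spec _).2.symm
    have hc' : starRingEnd ℂ c ≠ 0 := by simpa using hc
    obtain ⟨𝔟, hb, hS, c', hG, hR⟩ := cte2_data hE hg hB (cte2_scale hW hc)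
      (t := jL (M₁ * OD E)) (by rw [e, mul_assoc])
    simp only [Set.mem_iUnion]
    refine ⟨𝔟, hb, _, hS, c', hG, _, hR, ?_⟩
    show (jL (pr c * M₁), jL (pr (starRingEnd ℂ c)⁻¹ * M₂)) = z
    rw [jL_pr_mul h₁.isLat hc, jL_pr_mul h₂.isLat (inv_ne_zero hc'), e₁, e₂]
  refine (Set.ncard_le_ncard hsub h0.1).trans (h0.2.trans (le_of_eq ?_))
  ring

theorem Ex2_subset (n : ℤ) (c : ℕ) {E : ℤ} (hE : IsD E) {g₁ g₂ : ℕ} (hg : Nat.Coprime g₁ g₂)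
    {𝔩 : Lt} (h𝔩 : DiscL 𝔩 E) {z : ℂ × ℂ}
    (hz : z ∈ Ex2 p n c (g₁ ^ 2 * E) (g₂ ^ 2 * E) (jL 𝔩)) :
    ∃ a B, Lin1 p c E 𝔩 (-(n * g₁ * g₂ * E)) ((p : ℝ) ^ c * g₁ * g₂ * (-(E : ℝ))) a B ∧
      z ∈ Ex3 n E g₁ g₂ 𝔩 a B := by
  obtain ⟨M₁, M₀, h₁, h₀, e₁, e₀, hj, hbad⟩ := hz
  obtain ⟨k, hk, hl⟩ := jL_inj (cte2_quot hE hg h₁ h₀).1.isLat h𝔩.isLat hj
  have hbad' := hbad.scale h₁.isLat h₀.isLat one_ne_zero hk
  rw [pr_one_mul] at hbad'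
  have h₂ := h₀.pr_mul hk
  have e₂ : jL (pr k * M₀) = z.2 := (jL_pr_mul h₀.isLat hk).trans e₀
  rw [← mul_assoc] at hl
  generalize pr k * M₀ = M₂ at hbad' h₂ e₂ hl
  obtain ⟨α, β, B, hB, hm, hBe, hn, hα, hβ, hp, m, hm1, hm2⟩ := hbad'
  obtain ⟨-, -, q3, -⟩ := cte2_quot hE hg h₁ h₂
  rw [← hl] at q3
  have hE' : (0 : ℝ) < -(E : ℝ) := by
    have : (E : ℝ) < 0 := by exact_mod_cast hE.1
    linarith
  have hg1 : (0 : ℝ) < g₁ := by exact_mod_cast cte2_pos h₁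
  have hg2 : (0 : ℝ) < g₂ := by exact_mod_cast cte2_pos h₂
  have hV1 := vol_pos h₁.isLat
  have hV2 := vol_pos h₂.isLat
  have hG : (0 : ℝ) < g₁ * g₂ * (-(E : ℝ)) := by positivity
  have hsq : Real.sqrt ((((g₁ : ℤ) ^ 2 * E : ℤ) : ℝ) * (((g₂ : ℤ) ^ 2 * E : ℤ) : ℝ)) =
      g₁ * g₂ * (-(E : ℝ)) := by
    rw [← Real.sqrt_sq hG.le]
    congr 1
    push_cast
    ring
  rw [hsq] at hBe
  have hns : ∀ x : ℂ, Complex.normSq (2 * Complex.I * vol M₁ * x) =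
      4 * vol M₁ ^ 2 * Complex.normSq x := by
    intro x
    simp only [map_mul, Complex.normSq_I, Complex.normSq_ofReal, Complex.normSq_ofNat]
    ring
  have hs : ((B : ℝ) + ((-(n * g₁ * g₂ * E) : ℤ) : ℝ)) * vol M₂ =
      g₁ * g₂ * (-(E : ℝ)) * (Complex.normSq α * vol M₁) := by
    push_cast
    linear_combination -hBe - (g₁ * g₂ * (-(E : ℝ))) * hn
  refine ⟨2 * Complex.I * vol M₁ * α, B, ⟨hl ▸ (rl_mem h₁.isLat hm).1, hB, ?_, ?_, ?_, ?_, m, hm1,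
    ?_⟩, M₁, M₂, h₁, h₂, e₁, e₂, hl.symm, α, β, hm, hn, rfl, ?_⟩
  · refine le_of_mul_le_mul_right ?_ hV2
    have := mul_le_mul_of_nonneg_left hβ hG.le
    nlinarith
  · rw [hns, q3, ← mul_div_assoc, eq_div_iff hG.ne']
    linear_combination (-4 * vol M₁) * hs
  · refine le_of_mul_le_mul_right ?_ hV2
    have := mul_le_mul_of_nonneg_left hα hG.le
    rw [hs]
    nlinarith
  · have hn1 : ∀ g : ℕ, ‖(((g : ℤ) ^ 2 * E : ℤ) : ℚ_[p])‖ ≤ ‖(E : ℚ_[p])‖ := by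
      intro g
      rw [Int.cast_mul, norm_mul]
      exact mul_le_of_le_one_left (norm_nonneg _) (Padic.norm_int_le_one _)
    refine hp.trans ?_
    rw [mul_assoc, sq ‖(E : ℚ_[p])‖]
    exact mul_le_mul_of_nonneg_left
      (mul_le_mul (hn1 g₁) (hn1 g₂) (norm_nonneg _) (norm_nonneg _)) (by positivity)
  · have k1 : pr ((m : ℂ) * (p : ℂ) ^ c * α) * M₁ ≤ M₂ := pr_mul_le.2 hm2
    have k2 : pr ((m : ℂ) * (p : ℂ) ^ c * α) * (M₁ * cj M₁) ≤ 𝔩 := by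
      rw [hl, ← mul_assoc]
      exact mul_le_mul_left k1 _
    have k3 : (nm (g₁ ^ 2 * E) M₁ : ℂ) ∈ M₁ * cj M₁ := by
      rw [h₁.mul_cj_nm]
      exact mem_pr_mul.2 ⟨1, one_mem_OD _, mul_one _⟩
    have k4 := 𝔩.smul_mem (g₁ : ℤ) (pr_mul_le.1 k2 _ k3)
    refine mem_pr_mul.2 ⟨_, k4, ?_⟩
    have k5 : (Real.sqrt (-(E : ℝ)) : ℂ) ≠ 0 := by
      exact_mod_cast (Real.sqrt_pos.2 hE').ne'
    have k6 : (g₁ : ℂ) ≠ 0 := by exact_mod_cast (cte2_pos h₁).ne'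
    rw [cte2_nm, th, zsmul_eq_mul]
    push_cast
    field_simp
  · rw [hns, q3, ← mul_div_assoc, eq_div_iff hG.ne']
    linear_combination (4 * vol M₁) * hBe

end Pool.Agent.EQ
end
end

-- part Pool.Agent.P.MP_ad7a55_nt.CtF
section

/-! Pairs of conjugate CM points. -/

set_option autoImplicit false

noncomputable section

open MeasureTheory Topology Filter UpperHalfPlane
open scoped MatrixGroups ENNReal BoundedContinuousFunction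

namespace Pool.Agent.EQ

theorem ctf_odd {g : ℕ} (hg : ¬ 2 ∣ g) {E : ℤ} (h : IsD (g ^ 2 * E)) : IsD E := by
  obtain ⟨k, rfl⟩ : ∃ k, g = 2 * k + 1 := ⟨g / 2, by omega⟩
  obtain ⟨h1, h2⟩ := h
  have e : (((2 * k + 1 : ℕ) : ℤ)) ^ 2 * E = 4 * (((k : ℤ) ^ 2 + k) * E) + E := by
    push_cast
    ring
  refine ⟨?_, ?_⟩
  · by_contra hE
    exact absurd h1 (not_lt.2 (mul_nonneg (sq_nonneg _) (not_lt.1 hE)))
  · rw [e] at h2
    omega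

/-- Two discriminants of the same field. -/
theorem split_disc {D₁ D₂ : ℤ} (h₁ : IsD D₁) (h₂ : IsD D₂) {ρ₁ ρ₂ : ℚ} (hρ₁ : 0 < ρ₁)
    (hρ₂ : 0 < ρ₂) (h : ρ₁ ^ 2 * D₁ = ρ₂ ^ 2 * D₂) : ∃ (E : ℤ) (g₁ g₂ : ℕ), IsD E ∧ 0 < g₁ ∧
      0 < g₂ ∧ Nat.Coprime g₁ g₂ ∧ D₁ = g₁ ^ 2 * E ∧ D₂ = g₂ ^ 2 * E ∧ ρ₁ * g₁ = ρ₂ * g₂ := by
  have hr : 0 < ρ₂ / ρ₁ := div_pos hρ₂ hρ₁
  obtain ⟨g₁, g₂, hg₁, hg₂, hg, he⟩ : ∃ g₁ g₂ : ℕ, 0 < g₁ ∧ 0 < g₂ ∧ Nat.Coprime g₁ g₂ ∧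
      ρ₁ * g₁ = ρ₂ * g₂ := by
    have hn : 0 < (ρ₂ / ρ₁).num := Rat.num_pos.2 hr
    refine ⟨(ρ₂ / ρ₁).num.natAbs, (ρ₂ / ρ₁).den, Int.natAbs_pos.2 hn.ne', (ρ₂ / ρ₁).den_pos,
      (ρ₂ / ρ₁).reduced, ?_⟩
    have e1 : (((ρ₂ / ρ₁).num.natAbs : ℕ) : ℚ) = ((ρ₂ / ρ₁).num : ℚ) := by
      rw [← Int.cast_natCast, Int.natAbs_of_nonneg hn.le]
    rw [e1, ← Rat.mul_den_eq_num]
    field_simp
  have hq : ((g₂ : ℚ)) ^ 2 * D₁ = (g₁ : ℚ) ^ 2 * D₂ := by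
    apply mul_left_cancel₀ (pow_ne_zero 2 (mul_pos hρ₁ hρ₂).ne')
    have e2 : (ρ₁ * g₁) ^ 2 = (ρ₂ * g₂) ^ 2 := by rw [he]
    linear_combination (ρ₂ * g₂) ^ 2 * h - ρ₂ ^ 2 * D₂ * e2
  have hz : ((g₂ : ℤ)) ^ 2 * D₁ = (g₁ : ℤ) ^ 2 * D₂ := by exact_mod_cast hq
  have hc : IsCoprime ((g₁ : ℤ) ^ 2) ((g₂ : ℤ) ^ 2) := (Nat.isCoprime_iff_coprime.2 hg).pow
  obtain ⟨E, hE⟩ : (g₁ : ℤ) ^ 2 ∣ D₁ := hc.dvd_of_dvd_mul_left ⟨D₂, hz⟩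
  have hE2 : D₂ = g₂ ^ 2 * E := by
    apply mul_left_cancel₀ (pow_ne_zero 2 (Int.natCast_ne_zero.2 hg₁.ne'))
    rw [← hz, hE]
    ring
  refine ⟨E, g₁, g₂, ?_, hg₁, hg₂, hg, hE, hE2, he⟩
  by_cases h2 : 2 ∣ g₁
  · refine ctf_odd (g := g₂) (fun h3 => ?_) (hE2 ▸ h₂)
    have := Nat.dvd_gcd h2 h3
    rw [hg] at this
    omega
  · exact ctf_odd h2 (hE ▸ h₁)

/-- The orbit of a pair. -/
def orb2 (F : IntermediateField ℚ ℂ) (x y : ℂ) : Set (ℂ × ℂ) :=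
  {z | ∃ σ : ℂ ≃+* ℂ, (∀ a ∈ F, σ a = a) ∧ z = (σ x, σ y)}

theorem ctf_pos {E : ℤ} {g : ℕ} (h : g ^ 2 * E < -576) : 0 < g := by
  rcases Nat.eq_zero_or_pos g with rfl | h0
  · simp at h
  · exact h0

theorem ctf_e1 (E : ℤ) (g₁ g₂ : ℕ) :
    ((g₁ * g₂ : ℕ) : ℤ) ^ 2 * E = g₂ ^ 2 * (g₁ ^ 2 * E) := by
  push_cast
  ring

theorem ctf_e2 (E : ℤ) (g₁ g₂ : ℕ) :
    ((g₁ * g₂ : ℕ) : ℤ) ^ 2 * E = g₁ ^ 2 * (g₂ ^ 2 * E) := by
  push_cast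
  ring

theorem ctf_big {D : ℤ} {g : ℕ} (hg : 0 < g) (h : D < -576) : g ^ 2 * D < -576 := by
  have h1 : (1 : ℤ) ≤ (g : ℤ) ^ 2 := one_le_pow₀ (by exact_mod_cast hg)
  nlinarith

theorem ctf_fix {σ : ℂ ≃+* ℂ} {E : ℤ} (hσ : σ (th E) = th E) (g : ℕ) :
    σ (th (g ^ 2 * E)) = th (g ^ 2 * E) := by
  rw [th_mul_sq, map_mul, map_natCast, hσ]

/-- The common module acts on both orders. -/
theorem ctf_up {σ : ℂ ≃+* ℂ} {E : ℤ} (hE : IsD E) {g₁ g₂ : ℕ} (hb₁ : g₁ ^ 2 * E < -576)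
    (hb₂ : g₂ ^ 2 * E < -576) (hσ : σ (th E) = th E) {𝔨 : Lt}
    (h𝔨 : DiscL 𝔨 ((g₁ * g₂ : ℕ) ^ 2 * E)) (h : Acts σ ((g₁ * g₂ : ℕ) ^ 2 * E) 𝔨) :
    Acts σ (g₁ ^ 2 * E) 𝔨 ∧ Acts σ (g₂ ^ 2 * E) 𝔨 := by
  have p₁ := ctf_pos hb₁
  have p₂ := ctf_pos hb₂
  constructor
  · rw [ctf_e1] at h𝔨 h
    exact Acts.up hb₁ (galA2_isD hE p₁) (ctf_fix hσ g₁) p₂ h𝔨 h
  · rw [ctf_e2] at h𝔨 h
    exact Acts.up hb₂ (galA2_isD hE p₂) (ctf_fix hσ g₂) p₁ h𝔨 h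

theorem ctf_le {E : ℤ} (hE : IsD E) {g₁ g₂ : ℕ} (p₁ : 0 < g₁) (p₂ : 0 < g₂) :
    OD ((g₁ * g₂ : ℕ) ^ 2 * E) ≤ OD (g₁ ^ 2 * E) ∧
      OD ((g₁ * g₂ : ℕ) ^ 2 * E) ≤ OD (g₂ ^ 2 * E) := by
  constructor
  · rw [ctf_e1]
    exact OD_sq_le (galA2_isD hE p₁) g₂
  · rw [ctf_e2]
    exact OD_sq_le (galA2_isD hE p₂) g₁

/-- Automorphisms fixing the quadratic field preserve the class of the quotient. -/
theorem ctf_class {E : ℤ} (hE : IsD E) {g₁ g₂ : ℕ} (hg : Nat.Coprime g₁ g₂) {Λ₁ Λ₂ : Lt}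
    (h₁ : DiscL Λ₁ (g₁ ^ 2 * E)) (h₂ : DiscL Λ₂ (g₂ ^ 2 * E)) (hb₁ : g₁ ^ 2 * E < -576)
    (hb₂ : g₂ ^ 2 * E < -576) {σ : ℂ ≃+* ℂ} (hσ : σ (th E) = th E) {M₁ M₂ : Lt} (hM₁ : IsLat M₁)
    (hM₂ : IsLat M₂) (e₁ : jL M₁ = σ (jL Λ₁)) (e₂ : jL M₂ = σ (jL Λ₂)) :
    jL (M₂ * cj M₁) = jL (Λ₂ * cj Λ₁) := by
  have p₁ := ctf_pos hb₁
  have p₂ := ctf_pos hb₂
  have hb : ((g₁ * g₂ : ℕ) : ℤ) ^ 2 * E < -576 := by
    rw [ctf_e1]
    exact ctf_big p₂ hb₁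
  obtain ⟨𝔨, h𝔨, ha⟩ := exists_acts hb (galA2_isD hE (Nat.mul_pos p₁ p₂)) (ctf_fix hσ (g₁ * g₂))
  obtain ⟨a₁, a₂⟩ := ctf_up hE hb₁ hb₂ hσ h𝔨 ha
  obtain ⟨l₁, l₂⟩ := ctf_le hE p₁ p₂
  rw [a₁ Λ₁ h₁] at e₁
  rw [a₂ Λ₂ h₂] at e₂
  obtain ⟨c₁, hc₁, rfl⟩ := jL_inj (h𝔨.mul h₁ l₁).isLat hM₁ e₁.symm
  obtain ⟨c₂, hc₂, rfl⟩ := jL_inj (h𝔨.mul h₂ l₂).isLat hM₂ e₂.symm
  obtain ⟨ν, hν, hk⟩ := h𝔨.mul_cj
  have e : pr c₂ * (𝔨 * Λ₂) * cj (pr c₁ * (𝔨 * Λ₁)) =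
      pr (c₂ * starRingEnd ℂ c₁ * ν) * (Λ₂ * cj Λ₁) := by
    rw [cj_mul, cj_mul, cj_pr, ← pr_mul_pr, ← pr_mul_pr]
    calc pr c₂ * (𝔨 * Λ₂) * (pr (starRingEnd ℂ c₁) * (cj 𝔨 * cj Λ₁))
        = pr c₂ * pr (starRingEnd ℂ c₁) * ((𝔨 * cj 𝔨) * Λ₂ * cj Λ₁) := by ring
      _ = pr c₂ * pr (starRingEnd ℂ c₁) * pr ν *
          (OD ((g₁ * g₂ : ℕ) ^ 2 * E) * Λ₂ * cj Λ₁) := by rw [hk]; ring
      _ = _ := by rw [ord2_OD_mul h₂ l₂]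
  rw [e]
  exact jL_pr_mul (discL_mul_cop hE hg.symm h₂ h₁.cj).1.isLat
    (mul_ne_zero (mul_ne_zero hc₂ ((map_ne_zero _).2 hc₁)) hν)

/-- The class of the quotient takes at most two values on the orbit. -/
theorem orbit_classes {E : ℤ} (hE : IsD E) {g₁ g₂ : ℕ} (hg : Nat.Coprime g₁ g₂) {Λ₁ Λ₂ : Lt}
    (h₁ : DiscL Λ₁ (g₁ ^ 2 * E)) (h₂ : DiscL Λ₂ (g₂ ^ 2 * E)) (hb₁ : g₁ ^ 2 * E < -576)
    (hb₂ : g₂ ^ 2 * E < -576) : ∃ w w' : ℂ, ∀ (σ : ℂ ≃+* ℂ) (M₁ M₂ : Lt), IsLat M₁ → IsLat M₂ →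
      jL M₁ = σ (jL Λ₁) → jL M₂ = σ (jL Λ₂) → jL (M₂ * cj M₁) = w ∨ jL (M₂ * cj M₁) = w' := by
  obtain ⟨σ₀, hσ₀⟩ : ∃ σ₀ : ℂ ≃+* ℂ, σ₀ (th E) = -th E := ⟨starRingAut, conj_th E⟩
  obtain ⟨N₁, hN₁, n₁⟩ := galb_move σ₀ hb₁ h₁
  obtain ⟨N₂, hN₂, n₂⟩ := galb_move σ₀ hb₂ h₂
  refine ⟨jL (Λ₂ * cj Λ₁), jL (N₂ * cj N₁), fun σ M₁ M₂ hM₁ hM₂ e₁ e₂ => ?_⟩
  rcases aut_th σ hE.1.le with hσ | hσ
  · exact Or.inl (ctf_class hE hg h₁ h₂ hb₁ hb₂ hσ hM₁ hM₂ e₁ e₂)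
  · refine Or.inr (ctf_class hE hg hN₁ hN₂ hb₁ hb₂ (σ := σ₀.symm.trans σ) ?_ hM₁ hM₂ ?_ ?_)
    · have : σ₀.symm (th E) = -th E := by
        rw [RingEquiv.symm_apply_eq, map_neg, hσ₀, neg_neg]
      rw [RingEquiv.trans_apply, this, map_neg, hσ, neg_neg]
    · rw [RingEquiv.trans_apply, n₁, RingEquiv.symm_apply_apply, e₁]
    · rw [RingEquiv.trans_apply, n₂, RingEquiv.symm_apply_apply, e₂]

/-- Counting through a finite cover. -/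
theorem ctf_cover {α β : Type} {S : Set α} {T : Set β} (hT : T.Finite) (P : β → Set α) {n : ℕ}
    (hP : ∀ b ∈ T, (P b).Finite ∧ (P b).ncard ≤ n) (hS : ∀ a ∈ S, ∃ b ∈ T, a ∈ P b) :
    S.Finite ∧ S.ncard ≤ n * T.ncard := by
  have hsub : S ⊆ ⋃ b ∈ hT.toFinset, P b := fun a ha => by
    obtain ⟨b, hb, hab⟩ := hS a ha
    exact Set.mem_biUnion (hT.mem_toFinset.2 hb) hab
  have hfin : (⋃ b ∈ hT.toFinset, P b).Finite :=
    Set.Finite.biUnion hT.toFinset.finite_toSet fun b hb => (hP b (hT.mem_toFinset.1 hb)).1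
  refine ⟨hfin.subset hsub, (Set.ncard_le_ncard hsub hfin).trans ?_⟩
  refine (hT.toFinset.set_ncard_biUnion_le P).trans ?_
  refine (Finset.sum_le_card_nsmul _ _ n fun b hb => (hP b (hT.mem_toFinset.1 hb)).2).trans ?_
  rw [smul_eq_mul, mul_comm, Set.ncard_eq_toFinset_card T hT]

/-- The orbit under all automorphisms is at most `[F : ℚ]` times larger. -/
theorem card_orb2_bot (F : IntermediateField ℚ ℂ) [FiniteDimensional ℚ F] {x y : ℂ}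
    (h : (orb2 F x y).Finite) :
    (orb2 ⊥ x y).Finite ∧ (orb2 ⊥ x y).ncard ≤ Module.finrank ℚ F * (orb2 F x y).ncard := by
  have key := ctf_cover (S := orb2 ⊥ x y) (T := (Set.univ : Set (F →ₐ[ℚ] ℂ))) Set.finite_univ
    (fun φ => {z | ∃ σ : ℂ ≃+* ℂ, (∀ a : F, σ a = φ a) ∧ z = (σ x, σ y)})
    (n := (orb2 F x y).ncard) ?_ ?_
  · refine ⟨key.1, key.2.trans ?_⟩
    rw [mul_comm, Set.ncard_univ]
    exact Nat.mul_le_mul_right _ (card_algHom_le_finrank ℚ F ℂ)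
  · intro φ _
    by_cases he : ∃ σ₀ : ℂ ≃+* ℂ, ∀ a : F, σ₀ a = φ a
    · obtain ⟨σ₀, hσ₀⟩ := he
      have hsub : {z | ∃ σ : ℂ ≃+* ℂ, (∀ a : F, σ a = φ a) ∧ z = (σ x, σ y)} ⊆
          (fun z : ℂ × ℂ => (σ₀ z.1, σ₀ z.2)) '' orb2 F x y := by
        rintro _ ⟨σ, hσ, rfl⟩
        refine ⟨(σ₀.symm (σ x), σ₀.symm (σ y)), ⟨σ.trans σ₀.symm, fun a ha => ?_, rfl⟩, by simp⟩
        rw [RingEquiv.trans_apply, RingEquiv.symm_apply_eq]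
        exact (hσ ⟨a, ha⟩).trans (hσ₀ ⟨a, ha⟩).symm
      exact ⟨(h.image _).subset hsub,
        (Set.ncard_le_ncard hsub (h.image _)).trans (Set.ncard_image_le h)⟩
    · have hemp : {z | ∃ σ : ℂ ≃+* ℂ, (∀ a : F, σ a = φ a) ∧ z = (σ x, σ y)} = ∅ := by
        ext z
        exact ⟨fun ⟨σ, hσ, _⟩ => he ⟨σ, hσ⟩, False.elim⟩
      rw [hemp]
      simp
  · rintro _ ⟨σ, -, rfl⟩
    exact ⟨(σ.toRingHom.comp (algebraMap F ℂ)).toRatAlgHom, Set.mem_univ _, σ, fun a => rfl, rfl⟩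

/-- Cancelling an invertible module. -/
theorem ctf_cancel {D : ℤ} {Λ : Lt} (h : DiscL Λ D) {A B : Lt} (e : A * Λ = B * Λ) :
    A * OD D = B * OD D := by
  obtain ⟨ν, hν, hk⟩ := h.mul_cj
  have e1 : pr ν * (A * OD D) = pr ν * (B * OD D) := by
    calc pr ν * (A * OD D) = A * (pr ν * OD D) := by ring
      _ = A * Λ * cj Λ := by rw [← hk]; ring
      _ = B * (Λ * cj Λ) := by rw [e]; ring
      _ = pr ν * (B * OD D) := by rw [hk]; ring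
  exact le_antisymm ((pr_mul_le_iff hν).1 e1.le) ((pr_mul_le_iff hν).1 e1.ge)

/-- A module is recovered from its extensions to two orders with coprime conductors. -/
theorem ctf_inf {E : ℤ} (hE : IsD E) {g₁ g₂ : ℕ} (hg : Nat.Coprime g₁ g₂) (p₁ : 0 < g₁)
    (p₂ : 0 < g₂) {T : Lt} (hT : DiscL T ((g₁ * g₂ : ℕ) ^ 2 * E)) :
    T = T * OD (g₁ ^ 2 * E) ⊓ T * OD (g₂ ^ 2 * E) := by
  obtain ⟨-, -, a₁, b₁⟩ := discL_up (galA2_isD hE p₁) (g := g₂) (M := T) (ctf_e1 E g₁ g₂ ▸ hT)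
  obtain ⟨-, -, a₂, b₂⟩ := discL_up (galA2_isD hE p₂) (g := g₁) (M := T) (ctf_e2 E g₁ g₂ ▸ hT)
  refine le_antisymm (le_inf a₁ a₂) fun v hv => ?_
  have m₁ := pr_mul_le.1 b₁ v hv.1
  have m₂ := pr_mul_le.1 b₂ v hv.2
  obtain ⟨a, b, hab⟩ := Nat.isCoprime_iff_coprime.2 hg
  have hc : (a : ℂ) * g₁ + b * g₂ = 1 := by exact_mod_cast hab
  have e : v = a • ((g₁ : ℂ) * v) + b • ((g₂ : ℂ) * v) := by
    rw [zsmul_eq_mul, zsmul_eq_mul]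
    linear_combination -v * hc
  rw [e]
  exact T.add_mem (T.smul_mem a m₂) (T.smul_mem b m₁)

theorem ctf_pr_inf {c : ℂ} (hc : c ≠ 0) (A B : Lt) : pr c * (A ⊓ B) = pr c * A ⊓ pr c * B := by
  ext v
  constructor
  · intro hv
    obtain ⟨w, hw, rfl⟩ := mem_pr_mul.1 hv
    exact ⟨mem_pr_mul.2 ⟨w, hw.1, rfl⟩, mem_pr_mul.2 ⟨w, hw.2, rfl⟩⟩
  · rintro ⟨h1, h2⟩
    obtain ⟨w, hw, rfl⟩ := mem_pr_mul.1 h1
    obtain ⟨w', hw', e⟩ := mem_pr_mul.1 h2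
    rw [mul_left_cancel₀ hc e] at hw'
    exact mem_pr_mul.2 ⟨w, ⟨hw, hw'⟩, rfl⟩

/-- The fibres have at most `15` elements. -/
theorem ctf_fibre {E : ℤ} (hE : IsD E) {g₁ g₂ : ℕ} (hg : Nat.Coprime g₁ g₂) {Λ₁ Λ₂ : Lt}
    (h₁ : DiscL Λ₁ (g₁ ^ 2 * E)) (h₂ : DiscL Λ₂ (g₂ ^ 2 * E)) (p₁ : 0 < g₁) (p₂ : 0 < g₂)
    (b : ℂ × ℂ) :
    {z | ∃ T, DiscL T ((g₁ * g₂ : ℕ) ^ 2 * E) ∧ jL T = z ∧
      b = (jL (T * Λ₁), jL (T * Λ₂))}.ncard ≤ 15 := by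
  by_cases he : ∃ T₀, DiscL T₀ ((g₁ * g₂ : ℕ) ^ 2 * E) ∧ b = (jL (T₀ * Λ₁), jL (T₀ * Λ₂))
  · obtain ⟨T₀, hT₀, rfl⟩ := he
    obtain ⟨l₁, l₂⟩ := ctf_le hE p₁ p₂
    obtain ⟨hfin, hcard⟩ := card_gen (discL_up hE hT₀).1 (T₀ * OD E)
    refine le_trans (Set.ncard_le_ncard ?_ (hfin.image
      fun c => jL (T₀ * OD (g₁ ^ 2 * E) ⊓ pr c * (T₀ * OD (g₂ ^ 2 * E)))))
      ((Set.ncard_image_le hfin).trans hcard)
    rintro _ ⟨T, hT, rfl, hb⟩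
    obtain ⟨e₁, e₂⟩ := Prod.mk.inj hb
    obtain ⟨c₁, hc₁, f₁⟩ := jL_inj (hT₀.mul h₁ l₁).isLat (hT.mul h₁ l₁).isLat e₁
    obtain ⟨c₂, hc₂, f₂⟩ := jL_inj (hT₀.mul h₂ l₂).isLat (hT.mul h₂ l₂).isLat e₂
    rw [← mul_assoc] at f₁ f₂
    have k₁ := ctf_cancel h₁ f₁
    have k₂ := ctf_cancel h₂ f₂
    have o₁ : OD (g₁ ^ 2 * E) * OD E = OD E := ord2_OD_mul (discL_OD hE) (OD_sq_le hE g₁)
    have o₂ : OD (g₂ ^ 2 * E) * OD E = OD E := ord2_OD_mul (discL_OD hE) (OD_sq_le hE g₂)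
    have u₁ : T * OD E = pr c₁ * (T₀ * OD E) := by
      have := congrArg (· * OD E) k₁
      simpa only [mul_assoc, o₁] using this
    have u₂ : T * OD E = pr c₂ * (T₀ * OD E) := by
      have := congrArg (· * OD E) k₂
      simpa only [mul_assoc, o₂] using this
    have hi : c₁⁻¹ ≠ 0 := inv_ne_zero hc₁
    refine ⟨c₁⁻¹ * c₂, ⟨mul_ne_zero hi hc₂, ?_⟩, ?_⟩
    · rw [← pr_mul_pr, mul_assoc, ← u₂, u₁, ← mul_assoc, pr_mul_pr, inv_mul_cancel₀ hc₁,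
        pr_one_mul]
    · have e : T₀ * OD (g₁ ^ 2 * E) ⊓ pr (c₁⁻¹ * c₂) * (T₀ * OD (g₂ ^ 2 * E)) = pr c₁⁻¹ * T := by
        conv_rhs => rw [ctf_inf hE hg p₁ p₂ hT]
        rw [ctf_pr_inf hi, k₁, k₂, mul_assoc (pr c₁), mul_assoc (pr c₂), ← mul_assoc (pr c₁⁻¹),
          ← mul_assoc (pr c₁⁻¹), pr_mul_pr, pr_mul_pr, inv_mul_cancel₀ hc₁, pr_one_mul]
      exact (congrArg jL e).trans (jL_pr_mul hT.isLat hi)
  · have hemp : {z | ∃ T, DiscL T ((g₁ * g₂ : ℕ) ^ 2 * E) ∧ jL T = z ∧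
        b = (jL (T * Λ₁), jL (T * Λ₂))} = ∅ := by
      ext z
      exact ⟨fun ⟨T, hT, _, hb⟩ => he ⟨T, hT, hb⟩, False.elim⟩
    rw [hemp]
    simp

theorem orbit_lower {E : ℤ} (hE : IsD E) {g₁ g₂ : ℕ} (hg : Nat.Coprime g₁ g₂) {Λ₁ Λ₂ : Lt}
    (h₁ : DiscL Λ₁ (g₁ ^ 2 * E)) (h₂ : DiscL Λ₂ (g₂ ^ 2 * E)) (hb₁ : g₁ ^ 2 * E < -576)
    (hb₂ : g₂ ^ 2 * E < -576) :
    (Cl ((g₁ * g₂ : ℕ) ^ 2 * E)).ncard ≤ 15 * (orb2 ⊥ (jL Λ₁) (jL Λ₂)).ncard := by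
  have p₁ := ctf_pos hb₁
  have p₂ := ctf_pos hb₂
  have hb : ((g₁ * g₂ : ℕ) : ℤ) ^ 2 * E < -576 := by
    rw [ctf_e1]
    exact ctf_big p₂ hb₁
  have hfin : (orb2 ⊥ (jL Λ₁) (jL Λ₂)).Finite := by
    refine ((finite_orbit h₁).prod (finite_orbit h₂)).subset ?_
    rintro _ ⟨σ, -, rfl⟩
    exact ⟨⟨σ, rfl⟩, ⟨σ, rfl⟩⟩
  refine (ctf_cover hfin (fun b => {z | ∃ T, DiscL T ((g₁ * g₂ : ℕ) ^ 2 * E) ∧ jL T = z ∧
    b = (jL (T * Λ₁), jL (T * Λ₂))}) (fun b _ => ⟨?_, ctf_fibre hE hg h₁ h₂ p₁ p₂ b⟩) ?_).2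
  · refine (Cl_finite ((g₁ * g₂ : ℕ) ^ 2 * E)).subset ?_
    rintro _ ⟨T, hT, rfl, -⟩
    exact ⟨T, hT, rfl⟩
  · rintro _ ⟨T, hT, rfl⟩
    obtain ⟨σ, hσ, ha⟩ := acts_surj hb hT
    have hσE : σ (th E) = th E := by
      rw [th_mul_sq, map_mul, map_natCast] at hσ
      exact mul_left_cancel₀ (Nat.cast_ne_zero.2 (Nat.mul_pos p₁ p₂).ne') hσ
    obtain ⟨a₁, a₂⟩ := ctf_up hE hb₁ hb₂ hσE hT ha
    refine ⟨(jL (T * Λ₁), jL (T * Λ₂)), ⟨σ, fun a ha => ?_, ?_⟩, T, hT, rfl, rfl⟩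
    · obtain ⟨q, rfl⟩ := IntermediateField.mem_bot.1 ha
      simp
    · rw [a₁ Λ₁ h₁, a₂ Λ₂ h₂]

end Pool.Agent.EQ
end
end

-- part Pool.Agent.P.MP_ad7a55_nt.TCl
section

/-! One half of the class number formula, up to a constant. -/

set_option autoImplicit false

noncomputable section

open Finset

namespace Pool.Agent.EQ

/-- A binary form whose discriminant vanishes modulo an odd prime has at least `l` zeros. -/
theorem tcl_good {l : ℕ} [Fact l.Prime] (hl2 : l ≠ 2) {a b c : ℤ}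
    (hd : (l : ℤ) ∣ b ^ 2 - 4 * a * c) :
    (((univ : Finset (ZMod l × ZMod l)).filter fun p =>
      (a : ZMod l) * p.1 ^ 2 - b * p.1 * p.2 + c * p.2 ^ 2 ≠ 0).card : ℝ) ≤
        (l : ℝ) ^ 2 * (1 - 1 / (l : ℝ)) := by
  classical
  have hl : l.Prime := Fact.out
  have h0 : (b : ZMod l) ^ 2 - 4 * a * c = 0 := by
    have := (ZMod.intCast_zmod_eq_zero_iff_dvd _ l).2 hd
    push_cast at this
    exact this
  have h2 : (2 : ZMod l) ≠ 0 := by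
    intro h
    have h3 : ((2 : ℕ) : ZMod l) = 0 := by exact_mod_cast h
    rw [ZMod.natCast_eq_zero_iff] at h3
    exact hl2 ((Nat.prime_dvd_prime_iff_eq hl Nat.prime_two).1 h3)
  obtain ⟨x, y, hxy, hq⟩ : ∃ x y : ZMod l, (x ≠ 0 ∨ y ≠ 0) ∧
      (a : ZMod l) * x ^ 2 - b * x * y + c * y ^ 2 = 0 := by
    by_cases ha : (a : ZMod l) = 0
    · exact ⟨1, 0, Or.inl one_ne_zero, by rw [ha]; ring⟩
    · exact ⟨b, 2 * a, Or.inr (mul_ne_zero h2 ha), by linear_combination (-(a : ZMod l)) * h0⟩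
  have hinj : Function.Injective fun t : ZMod l => (t * x, t * y) := by
    intro s t hst
    simp only [Prod.mk.injEq] at hst
    rcases hxy with h | h
    · exact mul_right_cancel₀ h hst.1
    · exact mul_right_cancel₀ h hst.2
  have hb : l ≤ ((univ : Finset (ZMod l × ZMod l)).filter fun p =>
      ¬ ((a : ZMod l) * p.1 ^ 2 - b * p.1 * p.2 + c * p.2 ^ 2 ≠ 0)).card := by
    have h1 : ((univ : Finset (ZMod l)).image fun t : ZMod l => (t * x, t * y)).card = l := by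
      rw [card_image_of_injective _ hinj, card_univ, ZMod.card]
    refine h1.symm.trans_le (card_le_card fun p hp => ?_)
    obtain ⟨t, -, rfl⟩ := mem_image.1 hp
    refine mem_filter.2 ⟨mem_univ _, not_not.2 ?_⟩
    linear_combination t ^ 2 * hq
  have hs := card_filter_add_card_filter_not (s := (univ : Finset (ZMod l × ZMod l)))
    fun p => (a : ZMod l) * p.1 ^ 2 - b * p.1 * p.2 + c * p.2 ^ 2 ≠ 0
  rw [card_univ, Fintype.card_prod, ZMod.card] at hs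
  have hl0 : (l : ℝ) ≠ 0 := by exact_mod_cast hl.ne_zero
  have e : (l : ℝ) ^ 2 * (1 - 1 / (l : ℝ)) = l * l - l := by field_simp
  have hs' := congrArg (Nat.cast : ℕ → ℝ) hs
  have hb' := (Nat.cast_le (α := ℝ)).2 hb
  push_cast at hs'
  rw [e]
  linarith

/-- The norm form of a lattice with complex multiplication. -/
theorem tcl_form {D : ℤ} {L : Lt} (h : DiscL L D) : ∃ (u v : ℂ) (a b c : ℤ), L = sp u v ∧
    D = b ^ 2 - 4 * a * c ∧ ∀ x y : ℤ, Complex.normSq (x * u + y * v) =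
      ((a * x ^ 2 - b * x * y + c * y ^ 2 : ℤ) : ℝ) * nm D L := by
  obtain ⟨c', τ, hc', rfl, a, b, c, ha, -, h, rfl⟩ := h
  refine ⟨c', c' * τ, a, b, c, rfl, rfl, fun x y => ?_⟩
  have i1 : 2 * (a : ℝ) * τ.im = Real.sqrt (-((b ^ 2 - 4 * a * c : ℤ) : ℝ)) := by
    have := congrArg Complex.im (HasDisc.root ha h)
    rw [ord2_th_im] at this
    rw [← this]
    simp
  have ha' : (0 : ℝ) < a := by exact_mod_cast ha
  have hτ := τ.im_pos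
  have i2 : nm (b ^ 2 - 4 * a * c) (sp c' (c' * τ)) * a = Complex.normSq c' := by
    rw [nm, vol_sp hc', ← i1]
    field_simp
  obtain ⟨p1, p2⟩ := ord_parts h
  have e : (x : ℂ) * c' + y * (c' * τ) = c' * (x + y * τ) := by ring
  have e2 : Complex.normSq ((x : ℂ) + y * τ) = (x + y * τ.re) ^ 2 + (y * τ.im) ^ 2 := by
    rw [Complex.normSq_apply]
    simp only [Complex.add_re, Complex.intCast_re, Complex.mul_re, Complex.intCast_im, zero_mul,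
      sub_zero, Complex.add_im, Complex.mul_im, add_zero, zero_add, UpperHalfPlane.coe_re,
      UpperHalfPlane.coe_im]
    ring
  rw [e, map_mul, e2, ← i2]
  generalize nm (b ^ 2 - 4 * a * c) (sp c' (c' * τ)) = ν
  push_cast at p2 ⊢
  have e3 : (a : ℝ) * (a * ((x + y * τ.re) ^ 2 + (y * τ.im) ^ 2)) =
      a * (a * x ^ 2 - b * x * y + c * y ^ 2) := by
    linear_combination ((a : ℝ) * x * y + y ^ 2 * (2 * a * τ.re - b) / 4) * p1 - (y : ℝ) ^ 2 / 4 * p2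
  have e4 := mul_left_cancel₀ ha'.ne' e3
  rw [mul_assoc, e4, mul_comm]

/-- Points of a lattice whose norm is prime to a set of odd primes dividing `D`. -/
theorem tcl_pts {D : ℤ} {L : Lt} (h : DiscL L D) (P : Finset ℕ)
    (hP : ∀ l ∈ P, l.Prime ∧ l ≠ 2 ∧ (l : ℤ) ∣ D) {N : ℕ} (hN : 1 ≤ N) (W : Finset ℂ)
    (hW : ∀ z ∈ W, z ∈ L ∧ ∃ n ≤ N, (∀ l ∈ P, ¬ l ∣ n) ∧ Complex.normSq z = (n : ℕ) * nm D L) :
    (W.card : ℝ) ≤ 72 * (∏ l ∈ P, (1 - 1 / (l : ℝ))) / Real.sqrt (-(D : ℝ)) * N +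
      27 * (∏ l ∈ P, (l : ℝ)) ^ 2 * Real.sqrt N := by
  classical
  have hν := h.nm_pos
  have hv := vol_pos h.isLat
  have hm : 0 < ∏ l ∈ P, l := prod_pos fun l hl => (hP l hl).1.pos
  have hmc : (((∏ l ∈ P, l : ℕ) : ℤ) : ℂ) ≠ 0 := by exact_mod_cast hm.ne'
  obtain ⟨hfin, hcard⟩ := card_pts (h.isLat.pr_mul hmc) hν (fun z hz hz0 => by
    obtain ⟨n, hn⟩ := h.normSq_nat (pr_int_le _ _ hz)
    have h1 : (1 : ℝ) ≤ n := by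
      rcases Nat.eq_zero_or_pos n with rfl | h1
      · exact absurd (Complex.normSq_eq_zero.1 (by simpa using hn)) hz0
      · exact_mod_cast h1
    nlinarith) (Y := 4 * N * nm D L) (by positivity)
  obtain ⟨u, v, a, b, c, hL, hD, hq⟩ := tcl_form h
  have hxy : ∀ z ∈ L, ∃ p : ℤ × ℤ, z = p.1 * u + p.2 * v := fun z hz => by
    rw [hL] at hz
    obtain ⟨x, y, e⟩ := mem_sp.1 hz
    exact ⟨(x, y), e⟩
  choose! xy hxy using hxy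
  have : ∀ l : P, Fact (l : ℕ).Prime := fun l => ⟨(hP l l.2).1⟩
  let G : ∀ l : P, Finset (ZMod l × ZMod l) := fun l => univ.filter fun p =>
    (a : ZMod l) * p.1 ^ 2 - b * p.1 * p.2 + c * p.2 ^ 2 ≠ 0
  let f : ℂ → ∀ l : P, ZMod l × ZMod l := fun z l => (((xy z).1 : ZMod l), ((xy z).2 : ZMod l))
  have h1 := card_le_mul_card_image_of_maps_to (s := W) (t := Fintype.piFinset G) (f := f)
    (fun z hz => by
      obtain ⟨hzL, n, -, hn, e⟩ := hW z hz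
      refine Fintype.mem_piFinset.2 fun l => mem_filter.2 ⟨mem_univ _, fun h0 => hn l l.2 ?_⟩
      have e1 := hq (xy z).1 (xy z).2
      rw [← hxy z hzL, e] at e1
      have e2 : (n : ℤ) = a * (xy z).1 ^ 2 - b * (xy z).1 * (xy z).2 + c * (xy z).2 ^ 2 := by
        exact_mod_cast mul_right_cancel₀ hν.ne' e1
      rw [← Int.natCast_dvd_natCast, e2, ← ZMod.intCast_zmod_eq_zero_iff_dvd]
      push_cast
      exact h0)
    {z | z ∈ pr (((∏ l ∈ P, l : ℕ) : ℤ) : ℂ) * L ∧ Complex.normSq z ≤ 4 * N * nm D L}.ncard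
    (fun t _ => by
      rcases (W.filter fun z => f z = t).eq_empty_or_nonempty with h0 | ⟨z₀, hz₀⟩
      · rw [h0, card_empty]
        exact Nat.zero_le _
      rw [← Set.ncard_coe_finset]
      refine Set.ncard_le_ncard_of_injOn (fun z => z - z₀) (fun z hz => ?_)
        (fun _ _ _ _ e => sub_left_injective e) hfin
      obtain ⟨hz, ez⟩ := mem_filter.1 (mem_coe.1 hz)
      obtain ⟨hz₀, ez₀⟩ := mem_filter.1 hz₀
      obtain ⟨hzL, n, hn, -, e⟩ := hW z hz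
      obtain ⟨hzL₀, n₀, hn₀, -, e₀⟩ := hW z₀ hz₀
      have hf : f z₀ = f z := ez₀.trans ez.symm
      have key : ∀ r s : ℤ, (∀ l : P, (r : ZMod l) = s) → ((∏ l ∈ P, l : ℕ) : ℤ) ∣ s - r := by
        intro r s hrs
        rw [Nat.cast_prod]
        refine Finset.prod_dvd_of_coprime (fun l hl l' hl' hne => ?_) fun l hl => ?_
        · exact Nat.isCoprime_iff_coprime.2
            ((Nat.coprime_primes (hP l hl).1 (hP l' hl').1).2 hne)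
        · exact (ZMod.intCast_eq_intCast_iff_dvd_sub _ _ _).1 (hrs ⟨l, hl⟩)
      obtain ⟨r, hr⟩ := key _ _ fun l => congrArg Prod.fst (congrFun hf l)
      obtain ⟨s, hs⟩ := key _ _ fun l => congrArg Prod.snd (congrFun hf l)
      refine ⟨mem_pr_mul.2 ⟨r * u + s * v, hL ▸ mem_sp.2 ⟨r, s, rfl⟩, ?_⟩, ?_⟩
      · have hr' := congrArg (Int.cast : ℤ → ℂ) hr
        have hs' := congrArg (Int.cast : ℤ → ℂ) hs
        rw [Int.cast_sub, Int.cast_mul] at hr' hs'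
        linear_combination hxy z₀ hzL₀ - hxy z hzL - u * hr' - v * hs'
      · have g1 : (n : ℝ) ≤ N := by exact_mod_cast hn
        have g2 : (n₀ : ℝ) ≤ N := by exact_mod_cast hn₀
        have g3 : Complex.normSq (z - z₀) ≤ 2 * Complex.normSq z + 2 * Complex.normSq z₀ := by
          simp only [Complex.normSq_apply, Complex.sub_re, Complex.sub_im]
          nlinarith [sq_nonneg (z.re + z₀.re), sq_nonneg (z.im + z₀.im)]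
        rw [e, e₀] at g3
        nlinarith)
  have h2 : ((Fintype.piFinset G).card : ℝ) ≤
      (∏ l ∈ P, (l : ℝ)) ^ 2 * ∏ l ∈ P, (1 - 1 / (l : ℝ)) := by
    rw [Fintype.card_piFinset, Nat.cast_prod, ← prod_pow, ← prod_mul_distrib,
      ← prod_coe_sort P fun l => (l : ℝ) ^ 2 * (1 - 1 / (l : ℝ))]
    exact prod_le_prod (fun _ _ => Nat.cast_nonneg _) fun l _ =>
      tcl_good (hP l l.2).2.1 (hD ▸ (hP l l.2).2.2)
  have hr0 : ∀ l ∈ P, 0 ≤ 1 - 1 / (l : ℝ) := fun l hl => by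
    have : (1 : ℝ) ≤ l := by exact_mod_cast (hP l hl).1.pos
    exact sub_nonneg.2 ((div_le_one (by linarith)).2 this)
  have h3 : ∏ l ∈ P, (1 - 1 / (l : ℝ)) ≤ 1 :=
    prod_le_one hr0 fun l _ => sub_le_self _ (by positivity)
  have h4 : 0 ≤ ∏ l ∈ P, (1 - 1 / (l : ℝ)) := prod_nonneg hr0
  have hM : (0 : ℝ) < ∏ l ∈ P, (l : ℝ) := prod_pos fun l hl => Nat.cast_pos.2 (hP l hl).1.pos
  have hs : 0 < Real.sqrt (-(D : ℝ)) := ctB_sqrt_pos h.isD.1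
  have h5 : 4 * N * nm D L / vol (pr (((∏ l ∈ P, l : ℕ) : ℤ) : ℂ) * L) =
      8 / Real.sqrt (-(D : ℝ)) * N / (∏ l ∈ P, (l : ℝ)) ^ 2 := by
    rw [vol_pr_mul h.isLat hmc, Complex.normSq_intCast, Int.cast_natCast, Nat.cast_prod, nm]
    field_simp
    ring
  have h6 : Real.sqrt (4 * N * nm D L / nm D L) = 2 * Real.sqrt N := by
    rw [mul_div_cancel_right₀ _ hν.ne', Real.sqrt_mul (by norm_num),
      show (4 : ℝ) = 2 ^ 2 by norm_num, Real.sqrt_sq (by norm_num)]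
  have h7 : (1 : ℝ) ≤ Real.sqrt N := Real.one_le_sqrt.2 (by exact_mod_cast hN)
  rw [h5, h6] at hcard
  have h8 := ((Nat.cast_le (α := ℝ)).2 h1).trans_eq (Nat.cast_mul _ _)
  refine h8.trans ((mul_le_mul hcard h2 (Nat.cast_nonneg _) (by positivity)).trans ?_)
  generalize ∏ l ∈ P, (1 - 1 / (l : ℝ)) = ρ at h3 h4 ⊢
  generalize ∏ l ∈ P, (l : ℝ) = M at hM ⊢
  have e : 9 * (1 + 2 * Real.sqrt N + 8 / Real.sqrt (-(D : ℝ)) * N / M ^ 2) * (M ^ 2 * ρ) =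
      72 * ρ / Real.sqrt (-(D : ℝ)) * N + 9 * (1 + 2 * Real.sqrt N) * M ^ 2 * ρ := by
    field_simp
    ring
  have h9 : 9 * (1 + 2 * Real.sqrt N) * M ^ 2 * ρ ≤ 9 * (1 + 2 * Real.sqrt N) * M ^ 2 :=
    mul_le_of_le_one_right (by positivity) h3
  have h10 : 0 ≤ M ^ 2 * (Real.sqrt N - 1) := mul_nonneg (by positivity) (by linarith)
  rw [e]
  nlinarith

/-- The integral ideals of bounded norm prime to `2 D` in one class. -/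
theorem tcl_class {D : ℤ} {Λ : Lt} (h : DiscL Λ D) {N : ℕ} (hN : 1 ≤ N) (T : Finset Lt)
    (hT : ∀ 𝔞 ∈ T, jL 𝔞 = jL Λ ∧ ∃ n ≤ N, n.Coprime (4 * D.natAbs) ∧ 𝔞 ∈ Idl D n) :
    (T.card : ℝ) ≤ 200 * (∏ l ∈ (4 * D.natAbs).primeFactors, (1 - 1 / (l : ℝ))) /
      Real.sqrt (-(D : ℝ)) * N +
        27 * (∏ l ∈ (4 * D.natAbs).primeFactors.erase 2, (l : ℝ)) ^ 2 * Real.sqrt N := by
  classical
  have hν := h.nm_pos
  have hc : nm D (cj Λ) = nm D Λ := nm_cj h.isLat D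
  have hex : ∀ 𝔞 ∈ T, ∃ w : ℂ, pr (w / nm D Λ) * Λ = 𝔞 ∧ w ∈ cj Λ ∧
      ∃ n ≤ N, n.Coprime (4 * D.natAbs) ∧ Complex.normSq w = (n : ℕ) * nm D (cj Λ) := by
    intro 𝔞 ha
    obtain ⟨hj, n, hn, hco, hd, hle, hnm⟩ := hT 𝔞 ha
    obtain ⟨c, hc0, rfl⟩ := jL_inj h.isLat hd.isLat hj.symm
    have hν' : (nm D Λ : ℂ) ≠ 0 := by exact_mod_cast hν.ne'
    refine ⟨c * nm D Λ, by simp only [mul_div_cancel_right₀ _ hν'], ?_, n, hn, hco, ?_⟩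
    · have h1 : pr c * (pr (nm D Λ) * OD D) ≤ cj Λ := by
        rw [← h.mul_cj_nm, ← mul_assoc]
        exact (mul_le_mul_left hle _).trans h.cj.OD_mul.le
      exact h1 (mem_pr_mul.2 ⟨nm D Λ, mem_pr_mul.2 ⟨1, one_mem_OD D, mul_one _⟩, rfl⟩)
    · rw [nm_pr_mul h.isLat D hc0] at hnm
      rw [map_mul, Complex.normSq_ofReal, ← mul_assoc, hnm, hc]
  choose! w hw using hex
  have h1 : (T.image w).card = T.card := card_image_of_injOn fun 𝔞 ha 𝔟 hb e => by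
    rw [← (hw 𝔞 ha).1, e, (hw 𝔟 hb).1]
  have hq : 4 * D.natAbs ≠ 0 := (Nat.mul_pos (by norm_num) (Int.natAbs_pos.2 h.isD.1.ne)).ne'
  have h2 := tcl_pts h.cj ((4 * D.natAbs).primeFactors.erase 2) (fun l hl => by
    obtain ⟨h3, h4⟩ := mem_erase.1 hl
    have h5 := Nat.prime_of_mem_primeFactors h4
    refine ⟨h5, h3, Int.natCast_dvd.2 ?_⟩
    refine ((Nat.Prime.dvd_mul h5).1 (Nat.dvd_of_mem_primeFactors h4)).resolve_left fun h6 => ?_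
    exact h3 ((Nat.prime_dvd_prime_iff_eq h5 Nat.prime_two).1
      (h5.dvd_of_dvd_pow (show l ∣ 2 ^ 2 from h6)))) hN (T.image w) (fun z hz => by
    obtain ⟨𝔞, ha, rfl⟩ := mem_image.1 hz
    obtain ⟨-, h3, n, hn, hco, e⟩ := hw 𝔞 ha
    refine ⟨h3, n, hn, fun l hl hd => ?_, e⟩
    have h4 := (mem_erase.1 hl).2
    exact (Nat.prime_of_mem_primeFactors h4).one_lt.ne'
      (Nat.eq_one_of_dvd_coprimes hco hd (Nat.dvd_of_mem_primeFactors h4)))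
  have h3 := mul_prod_erase (4 * D.natAbs).primeFactors (fun l => 1 - 1 / (l : ℝ))
    (a := 2) (Nat.mem_primeFactors.2 ⟨Nat.prime_two, ⟨2 * D.natAbs, by ring⟩, hq⟩)
  have h4 : 0 ≤ ∏ l ∈ (4 * D.natAbs).primeFactors.erase 2, (1 - 1 / (l : ℝ)) :=
    prod_nonneg fun l hl => by
      have : (1 : ℝ) ≤ l := by
        exact_mod_cast (Nat.prime_of_mem_primeFactors (mem_erase.1 hl).2).pos
      exact sub_nonneg.2 ((div_le_one (by linarith)).2 this)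
  rw [h1] at h2
  refine h2.trans (add_le_add_left ?_ _)
  refine mul_le_mul_of_nonneg_right (div_le_div_of_nonneg_right ?_ (Real.sqrt_nonneg _))
    (Nat.cast_nonneg _)
  rw [← h3]
  push_cast
  linarith

theorem sum_Idl_cop {D : ℤ} (hD : IsD D) : ∃ β : ℝ, 0 ≤ β ∧ ∀ N : ℕ,
    ∑ n ∈ (Icc 1 N).filter (fun n => n.Coprime (4 * D.natAbs)), ((Idl D n).ncard : ℝ) ≤
      200 * (∏ l ∈ (4 * D.natAbs).primeFactors, (1 - 1 / (l : ℝ))) * (Cl D).ncard /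
        Real.sqrt (-(D : ℝ)) * N + β * Real.sqrt N := by
  classical
  have _ := hD
  refine ⟨27 * (∏ l ∈ (4 * D.natAbs).primeFactors.erase 2, (l : ℝ)) ^ 2 * (Cl D).ncard,
    by positivity, fun N => ?_⟩
  rcases Nat.eq_zero_or_pos N with rfl | hN
  · simp
  have h1 : (((Icc 1 N).filter (fun n => n.Coprime (4 * D.natAbs))).biUnion
      fun n => (Idl_finite D n).toFinset).card =
      ∑ n ∈ (Icc 1 N).filter (fun n => n.Coprime (4 * D.natAbs)), (Idl D n).ncard := by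
    rw [Finset.card_biUnion]
    · exact Finset.sum_congr rfl fun n _ => (Set.ncard_eq_toFinset_card _ _).symm
    · intro m _ n _ hmn
      rw [Function.onFun, Finset.disjoint_left]
      intro 𝔞 hm hn
      rw [Set.Finite.mem_toFinset] at hm hn
      exact hmn (by exact_mod_cast hm.2.2.symm.trans hn.2.2)
  have hm : ∀ 𝔞 ∈ ((Icc 1 N).filter (fun n => n.Coprime (4 * D.natAbs))).biUnion
      fun n => (Idl_finite D n).toFinset,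
      ∃ n ≤ N, n.Coprime (4 * D.natAbs) ∧ 𝔞 ∈ Idl D n := fun 𝔞 ha => by
    obtain ⟨n, hn, ha⟩ := Finset.mem_biUnion.1 ha
    obtain ⟨hn, hco⟩ := mem_filter.1 hn
    exact ⟨n, (Finset.mem_Icc.1 hn).2, hco, (Set.Finite.mem_toFinset _).1 ha⟩
  generalize (((Icc 1 N).filter (fun n => n.Coprime (4 * D.natAbs))).biUnion
      fun n => (Idl_finite D n).toFinset) = T at h1 hm
  have h2 := Finset.card_eq_sum_card_fiberwise (f := jL) (s := T) (t := (Cl_finite D).toFinset)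
    fun 𝔞 ha => by
      obtain ⟨n, -, -, hn⟩ := hm 𝔞 ha
      exact (Set.Finite.mem_toFinset _).2 ⟨𝔞, hn.1, rfl⟩
  rw [← Nat.cast_sum, ← h1, h2, Nat.cast_sum]
  refine (Finset.sum_le_card_nsmul _ _
    (200 * (∏ l ∈ (4 * D.natAbs).primeFactors, (1 - 1 / (l : ℝ))) / Real.sqrt (-(D : ℝ)) * N +
      27 * (∏ l ∈ (4 * D.natAbs).primeFactors.erase 2, (l : ℝ)) ^ 2 * Real.sqrt N)
    fun z hz => ?_).trans_eq ?_
  · obtain ⟨Λ, hΛ, rfl⟩ := (Set.Finite.mem_toFinset _).1 hz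
    exact tcl_class hΛ hN _ fun 𝔞 ha =>
      ⟨(Finset.mem_filter.1 ha).2, hm 𝔞 (Finset.mem_filter.1 ha).1⟩
  · rw [nsmul_eq_mul, ← Set.ncard_eq_toFinset_card _ (Cl_finite D)]
    ring

open Filter Topology in
/-- The residue at one, with the Euler factors kept. -/
theorem tcl_res {q : ℕ} [NeZero q] {ψ : DirichletCharacter ℂ q} (hψ : ψ ≠ 1) {α β : ℝ}
    (h : ∀ s : ℝ, 1 < s → s ≤ 2 → ‖(1 : DirichletCharacter ℂ q).LFunction s * ψ.LFunction s‖ ≤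
      α / (s - 1) + β) : (∏ l ∈ q.primeFactors, (1 - 1 / (l : ℝ))) * ‖ψ.LFunction 1‖ ≤ α := by
  have ht0 : Tendsto (fun y : ℝ => (y : ℂ)) (𝓝[>] 1) (𝓝 1) := by
    have := (Complex.continuous_ofReal.tendsto 1).mono_left
      (nhdsWithin_le_nhds (s := Set.Ioi 1))
    simpa using this
  have ht : Tendsto (fun y : ℝ => (y : ℂ)) (𝓝[>] 1) (𝓝[≠] 1) := by
    refine tendsto_nhdsWithin_iff.2 ⟨ht0, ?_⟩
    filter_upwards [self_mem_nhdsWithin] with y hy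
    simp only [Set.mem_compl_iff, Set.mem_singleton_iff]
    exact_mod_cast (ne_of_gt hy)
  have h1 := (((DirichletCharacter.LFunctionTrivChar_residue_one (N := q)).comp ht).mul
    (((DirichletCharacter.differentiable_LFunction hψ).continuous.tendsto 1).comp ht0)).norm
  have h2 : Tendsto (fun s : ℝ => α + β * (s - 1)) (𝓝[>] 1) (𝓝 α) := by
    have : Continuous fun s : ℝ => α + β * (s - 1) := by fun_prop
    simpa using (this.tendsto 1).mono_left (nhdsWithin_le_nhds (s := Set.Ioi 1))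
  have h3 := le_of_tendsto_of_tendsto h1 h2 (by
    filter_upwards [Ioc_mem_nhdsGT (show (1 : ℝ) < 2 by norm_num)] with s hs
    have h4 : 0 < s - 1 := by linarith [hs.1]
    have h5 : ‖(s : ℂ) - 1‖ = s - 1 := by
      rw [← Complex.ofReal_one, ← Complex.ofReal_sub, Complex.norm_real, Real.norm_of_nonneg h4.le]
    simp only [Function.comp]
    rw [mul_assoc, norm_mul, h5]
    refine (mul_le_mul_of_nonneg_left (h s hs.1 hs.2) h4.le).trans_eq ?_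
    field_simp)
  have h4 : ∏ l ∈ q.primeFactors, (1 - (l : ℂ)⁻¹) =
      ((∏ l ∈ q.primeFactors, (1 - 1 / (l : ℝ)) : ℝ) : ℂ) := by
    push_cast
    simp only [one_div]
  rw [norm_mul, h4, Complex.norm_real, Real.norm_eq_abs] at h3
  exact (mul_le_mul_of_nonneg_right (le_abs_self _) (norm_nonneg _)).trans h3

theorem tcl_chi {D : ℤ} (hD : D < 0) [NeZero (4 * D.natAbs)] : sgeChi D ≠ 1 ∧ sgeChi D ^ 2 = 1 ∧
    ∀ l : ℕ, l.Prime → sgeChi D l = 1 → ¬ (l : ℤ) ∣ 2 * D ∧ IsSquare (D : ZMod l) := by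
  have h0 : 0 < D.natAbs := Int.natAbs_pos.2 hD.ne
  refine ⟨fun h => ?_, MulChar.isQuadratic_iff_sq_eq_one.1 fun x => ?_, fun l hl h => ?_⟩
  · obtain ⟨n, hn⟩ : ∃ n, n + 1 = 4 * D.natAbs := ⟨4 * D.natAbs - 1, by omega⟩
    have h1 := sgeChi_nat D n
    have h2 := sge_jac hn
    rw [show -(D.natAbs : ℤ) = D by omega] at h2
    rw [if_pos (Nat.odd_iff.2 (by omega)), h2, h] at h1
    by_cases hu : IsUnit (n : ZMod (4 * D.natAbs))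
    · rw [MulChar.one_apply hu] at h1
      norm_num at h1
    · rw [MulChar.map_nonunit _ hu] at h1
      norm_num at h1
  · obtain ⟨a, rfl⟩ := ZMod.natCast_zmod_surjective x
    rw [sgeChi_nat]
    split_ifs
    · rcases jacobiSym.trichotomy D a with h | h | h <;> simp [h]
    · exact Or.inl rfl
  · rw [sgeChi_nat] at h
    split_ifs at h with ho
    · have h1 : jacobiSym D l = 1 := by exact_mod_cast h
      have : Fact l.Prime := ⟨hl⟩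
      refine ⟨fun hd => ?_, ZMod.isSquare_of_jacobiSym_eq_one h1⟩
      rcases (Nat.prime_iff_prime_int.1 hl).dvd_or_dvd hd with h2 | h2
      · have h3 : l ∣ 2 := by exact_mod_cast h2
        rw [(Nat.prime_dvd_prime_iff_eq hl Nat.prime_two).1 h3] at ho
        exact absurd ho (by decide)
      · have h3 : jacobiSym D l = 0 := by
          refine jacobiSym.eq_zero_iff.2 ⟨hl.ne_zero, fun h4 => ?_⟩
          have h5 := Int.dvd_gcd h2 (dvd_refl (l : ℤ))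
          rw [h4] at h5
          exact hl.one_lt.ne' (Nat.dvd_one.1 h5)
        omega
    · exact absurd h zero_ne_one

theorem class_ge {D : ℤ} (hD : IsD D) [NeZero (4 * D.natAbs)] :
    Real.sqrt (-(D : ℝ)) * ‖(sgeChi D).LFunction 1‖ ≤ 1200 * (Cl D).ncard := by
  classical
  obtain ⟨hχ, hχ2, hl⟩ := tcl_chi hD.1
  obtain ⟨β, hβ, hS⟩ := sum_Idl_cop hD
  have hs : 0 < Real.sqrt (-(D : ℝ)) := ctB_sqrt_pos hD.1
  have hρ : 0 < ∏ l ∈ (4 * D.natAbs).primeFactors, (1 - 1 / (l : ℝ)) :=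
    prod_pos fun l hl => by
      have : (1 : ℝ) < l := by exact_mod_cast (Nat.prime_of_mem_primeFactors hl).one_lt
      exact sub_pos.2 ((div_lt_one (by linarith)).2 this)
  have h1 := tcl_res hχ
    (α := 6 * (200 * (∏ l ∈ (4 * D.natAbs).primeFactors, (1 - 1 / (l : ℝ))) * (Cl D).ncard /
      Real.sqrt (-(D : ℝ)))) (β := 8 * β) (fun s h1 h2 => sf_prod 1 (sgeChi D)
      (fun n => if n.Coprime (4 * D.natAbs) then ((Idl D n).ncard : ℝ) else 0)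
      (fun n hn => by
        split_ifs with hc
        · exact coeff_le_Idl hD _ hχ2 hl hn
        · rw [sum_eq_zero, norm_zero]
          intro x hx
          by_cases hu : IsUnit (x.1 : ZMod (4 * D.natAbs))
          · rw [MulChar.map_nonunit (sgeChi D), mul_zero]
            intro hu'
            rw [ZMod.isUnit_iff_coprime] at hu hu'
            exact hc ((Nat.mem_divisorsAntidiagonal.1 hx).1 ▸ Nat.Coprime.mul_left hu hu')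
          · rw [MulChar.map_nonunit _ hu, zero_mul]) h1
      (tsum_le_of_partial _ (fun _ => by split_ifs <;> positivity) (by positivity) hβ
        (fun N => by rw [← sum_filter]; exact hS N) h1 h2))
  generalize ∏ l ∈ (4 * D.natAbs).primeFactors, (1 - 1 / (l : ℝ)) = ρ at hρ h1
  have e : 6 * (200 * ρ * (Cl D).ncard / Real.sqrt (-(D : ℝ))) =
      ρ * (1200 * (Cl D).ncard / Real.sqrt (-(D : ℝ))) := by ring
  rw [e] at h1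
  have h2 := le_of_mul_le_mul_left h1 hρ
  rwa [le_div_iff₀' hs] at h2

end Pool.Agent.EQ
end
end

-- part Pool.Agent.P.MP_ad7a55_nt.TGb
section

/-! Transversality, levels and fibres. -/

set_option autoImplicit false

noncomputable section

open Finset Matrix UpperHalfPlane

namespace Pool.Agent.EQ

theorem tgb_mem {c w : ℂ} {τ : ℍ} : w ∈ sp c (c * τ) ↔ ∃ v, w = c * ev τ v := by
  rw [mem_sp]
  constructor
  · rintro ⟨m, n, rfl⟩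
    refine ⟨![m, -n], ?_⟩
    simp only [ev, cons_val_zero, cons_val_one]
    push_cast
    ring
  · rintro ⟨v, rfl⟩
    refine ⟨v 0, -v 1, ?_⟩
    simp only [ev]
    push_cast
    ring

theorem tgb_lin (τ : ℍ) (c : ℂ) (x y : ℤ) (u v : Fin 2 → ℤ) :
    c * ev τ (x • u + y • v) = x * (c * ev τ u) + y * (c * ev τ v) := by
  simp only [ev, Pi.add_apply, Pi.smul_apply, smul_eq_mul]
  push_cast
  ring

theorem tgb_smul (τ : ℍ) (c : ℂ) (x : ℤ) (u : Fin 2 → ℤ) :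
    c * ev τ (x • u) = x * (c * ev τ u) := by
  simp only [ev, Pi.smul_apply, smul_eq_mul]
  push_cast
  ring

theorem tgb_inj {c : ℂ} (hc : c ≠ 0) {τ : ℍ} {k : ℤ} {u v : Fin 2 → ℤ}
    (h : c * ev τ v = k * (c * ev τ u)) (i : Fin 2) : k ∣ v i := by
  have h1 := ord_indep τ (m := v 0 - k * u 0) (n := k * u 1 - v 1) (mul_left_cancel₀ hc (by
    simp only [ev] at h
    push_cast
    linear_combination h))
  revert i
  exact Fin.forall_fin_two.2 ⟨⟨u 0, by linarith [h1.1]⟩, ⟨u 1, by linarith [h1.2]⟩⟩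

theorem tgb_rl (α β z : ℂ) (k : ℤ) : rl α β (k * z) = k * rl α β z := by
  simp only [rl, map_mul, map_intCast]
  ring

theorem tgb_dt {E : ℤ} {τ : ℍ} {Θ : M2} (h : TauTh E τ Θ) {c : ℂ} (hc : c ≠ 0) (v : Fin 2 → ℤ) :
    ∃ k : ℤ, dt v (Θ *ᵥ v) = -(2 * k) ∧
      Complex.normSq (c * ev τ v) = k * nm E (sp c (c * τ)) := by
  obtain ⟨A, B, C, hA, -, rfl, hr, rfl⟩ := h
  refine ⟨A * v 0 ^ 2 + B * v 0 * v 1 + C * v 1 ^ 2, ?_, ?_⟩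
  · simp [dt, Th, mulVec, dotProduct, Fin.sum_univ_two]
    ring
  · obtain ⟨h1, h2⟩ := ord_parts hr
    have hA' : (0 : ℝ) < A := by exact_mod_cast hA
    have hi := τ.im_pos
    rw [nm, vol_sp hc, h2, Real.sqrt_sq (by positivity), map_mul]
    have e : Complex.normSq (ev τ v) = (v 0 - v 1 * τ.re) ^ 2 + (v 1 * τ.im) ^ 2 := by
      simp [ev, Complex.normSq_apply]
      ring
    push_cast at h2 ⊢
    have e2 : A * Complex.normSq (ev τ v) = A * v 0 ^ 2 + B * v 0 * v 1 + C * v 1 ^ 2 := by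
      refine mul_left_cancel₀ (by positivity : (4 * A : ℝ) ≠ 0) ?_
      rw [e]
      linear_combination (-(v 1 : ℝ) ^ 2) * h2 +
        ((v 1 : ℝ) ^ 2 * (2 * A * τ.re - B) - 4 * A * v 0 * v 1) * h1
    rw [← e2]
    field_simp

theorem tgb_gn {E : ℤ} {τ : ℍ} {Θ : M2} (h : TauTh E τ Θ) {c : ℂ} (hc : c ≠ 0) {v : Fin 2 → ℤ}
    (h0 : 0 < nm E (sp c (c * τ))) {k : ℤ} {l : ℕ} (hl : ¬ (l : ℤ) ∣ k)
    (hk : Complex.normSq (c * ev τ v) = k * nm E (sp c (c * τ))) : Gn l Θ v := by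
  obtain ⟨k', h1, h2⟩ := tgb_dt h hc v
  have h3 : k' = k := by exact_mod_cast mul_right_cancel₀ h0.ne' (h2.symm.trans hk)
  rw [Gn, h1, h3, dvd_neg, mul_dvd_mul_iff_left two_ne_zero]
  exact hl

theorem tgb_rep {M : Lt} {D : ℤ} (h : DiscL M D) {l : ℕ} (hl : l.Prime) :
    ∃ w ∈ M, ∃ k : ℤ, ¬ (l : ℤ) ∣ k ∧ Complex.normSq w = k * nm D M := by
  obtain ⟨c, τ, hc, rfl, A, B, C, hA, hg, hr, rfl⟩ := h
  obtain ⟨v, hv⟩ := IsTh.exists_gn ⟨A, B, C, hA, hg, rfl, rfl⟩ hl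
  obtain ⟨k, h1, h2⟩ := tgb_dt ⟨A, B, C, hA, hg, rfl, hr, rfl⟩ hc v
  rw [Gn, h1, dvd_neg, mul_dvd_mul_iff_left two_ne_zero] at hv
  exact ⟨_, tgb_mem.2 ⟨v, rfl⟩, k, hv, h2⟩

theorem tgb_nm {E : ℤ} (hE : IsD E) {g : ℕ} (hg : 0 < g) {M : Lt} (h : DiscL M (g ^ 2 * E)) :
    nm (g ^ 2 * E) M = nm E (M * OD E) := by
  have hg' : (0 : ℝ) < g := by exact_mod_cast hg
  rw [nm, nm, (discL_up hE h).2.1, show -(((g : ℤ) ^ 2 * E : ℤ) : ℝ) = (g : ℝ) ^ 2 * -(E : ℝ) by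
    push_cast; ring, Real.sqrt_mul (sq_nonneg _), Real.sqrt_sq hg'.le]
  field_simp

namespace Dt

variable {d : Dt} {κ : ℕ} {C : ℝ} {M₁ M₂ : Lt} {α β c : ℂ} {τ : ℍ} {Θ η₁ η₂ : M2} {B : ℤ}

theorem tgb_pos (h : d.Good κ) (g : d.Geo C M₁ M₂ α β c τ Θ η₁ η₂ B) :
    0 < nm d.E (M₁ * OD d.E) := (discL_up h.isD g.d₁).1.nm_pos

theorem tgb_up (h : d.Good κ) (g : d.Geo C M₁ M₂ α β c τ Θ η₁ η₂ B) {e w : ℂ} (he : e ∈ d.LL)
    (hw : w ∈ M₁ * OD d.E) : e / nm d.E (M₁ * OD d.E) * w ∈ M₂ * OD d.E := by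
  rw [g.snd h]
  exact mem_pr_mul.2 ⟨_, Submodule.mul_mem_mul he hw, by ring⟩

theorem tgb_down (h : d.Good κ) (g : d.Geo C M₁ M₂ α β c τ Θ η₁ η₂ B) {e w : ℂ} (he : e ∈ d.LL)
    (hw : w ∈ M₂ * OD d.E) :
    starRingEnd ℂ e * nm d.E (M₁ * OD d.E) / d.a * w ∈ M₁ * OD d.E := by
  rw [g.snd h] at hw
  obtain ⟨u, hu, rfl⟩ := mem_pr_mul.1 hw
  have h1 : starRingEnd ℂ e ∈ cj d.LL := mem_cj.2 (by rwa [Complex.conj_conj])
  have h2 := Submodule.mul_mem_mul h1 hu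
  rw [← mul_assoc, mul_comm (cj _), h.discL.1.mul_cj_nm, mul_assoc,
    (discL_up h.isD g.d₁).1.OD_mul, h.discL.2, Complex.ofReal_intCast] at h2
  obtain ⟨t, ht, e1⟩ := mem_pr_mul.1 h2
  have h3 : ((nm d.E (M₁ * OD d.E) : ℝ) : ℂ) ≠ 0 := Complex.ofReal_ne_zero.2 (tgb_pos h g).ne'
  have h4 : (d.a : ℂ) ≠ 0 := Int.cast_ne_zero.2 h.a_pos.ne'
  refine (congrArg (· ∈ M₁ * OD d.E) ?_).mp ht
  field_simp
  exact (mul_comm _ _).trans e1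

theorem tgb_nm₂ (h : d.Good κ) (g : d.Geo C M₁ M₂ α β c τ Θ η₁ η₂ B) :
    nm (d.g₂ ^ 2 * d.E) M₂ = d.a / nm d.E (M₁ * OD d.E) := by
  have h1 := (discL_up h.isD g.d₁).1
  have h0 := (tgb_pos h g).ne'
  rw [tgb_nm h.isD h.g₂_pos g.d₂, g.snd h, nm_pr_mul (h.discL.1.mul h1 le_rfl).isLat _
    (inv_ne_zero (Complex.ofReal_ne_zero.2 h0)), nm_mul h.discL.1 h1 le_rfl, h.discL.2,
    map_inv₀, Complex.normSq_ofReal]
  field_simp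

theorem tgb_ne (h : d.Good κ) (g : d.Geo C M₁ M₂ α β c τ Θ η₁ η₂ B) :
    Function.Injective (rl α β) := by
  refine rl_inj fun e => ?_
  have h1 := g.hm.deg
  rw [e, sub_self, zero_mul] at h1
  exact mul_ne_zero (Int.cast_ne_zero.2 h.n_ne) (vol_pos g.d₂.isLat).ne' h1.symm

theorem tgb_e (h : d.Good κ) (x y : ℤ) {e : ℂ} (he : e = x * d.a + y * ((d.b - th d.E) / 2)) :
    e * starRingEnd ℂ e = d.a * d.F x y := by
  have h1 := th_sq h.E_neg.le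
  simp only [he, map_add, map_mul, map_intCast, map_div₀, map_sub, conj_th, map_ofNat, F]
  rw [show ((d.E : ℤ) : ℂ) = d.b ^ 2 - 4 * d.a * d.c by simp [E]] at h1
  push_cast
  linear_combination (-(y : ℂ) ^ 2 / 4) * h1

theorem Geo.tg (h : d.Good κ) (g : d.Geo C M₁ M₂ α β c τ Θ η₁ η₂ B) : d.TG Θ η₁ η₂ := by
  intro l hl x y hF
  obtain ⟨e, he⟩ : ∃ e : ℂ, e = x * d.a + y * ((d.b - Pool.Agent.EQ.th d.E) / 2) := ⟨_, rfl⟩
  have e0 := tgb_e h x y he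
  have e1 : e ∈ d.LL := mem_sp.2 ⟨x, y, he⟩
  have hdet := (g.cf h).1.det x y
  have hk : d.Lk M₁ α β c τ e (x • η₁ + y • η₂) := fun v => by
    rw [add_mulVec, smul_mulVec, smul_mulVec, tgb_lin, cte_lin, he]
    linear_combination x * g.k₁ v + y * g.k₂ v
  generalize x • η₁ + y • η₂ = η at hdet hk ⊢
  have n0 := tgb_pos h g
  have n1 : ((nm d.E (M₁ * OD d.E) : ℝ) : ℂ) ≠ 0 := Complex.ofReal_ne_zero.2 n0.ne'
  have a0 : (d.a : ℂ) ≠ 0 := Int.cast_ne_zero.2 h.a_pos.ne'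
  have a1 : (d.a : ℝ) ≠ 0 := Int.cast_ne_zero.2 h.a_pos.ne'
  have g1 : (d.g₁ : ℂ) ≠ 0 := Nat.cast_ne_zero.2 h.g₁_pos.ne'
  have F0 : (d.F x y : ℂ) ≠ 0 := Int.cast_ne_zero.2 fun q => hF (q ▸ dvd_zero _)
  have m0 : (d.m : ℂ) ≠ 0 := Int.cast_ne_zero.2 (mul_ne_zero h.n_ne
    (Nat.cast_ne_zero.2 (Nat.mul_pos h.g₁_pos h.g₂_pos).ne'))
  have hv : ∀ n : ℕ, (l : ℤ) ^ padicValNat l n ∣ n := fun n => by
    exact_mod_cast (pow_padicValNat_dvd : l ^ padicValNat l n ∣ n)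
  refine ⟨fun _ => ?_, fun _ => ?_⟩
  · obtain ⟨w, hw, k, k1, k2⟩ := tgb_rep g.d₁ hl
    obtain ⟨v, rfl⟩ := tgb_mem.1 (g.bas.le ((discL_up h.isD g.d₁).2.2.1 hw))
    rw [tgb_nm h.isD h.g₁_pos g.d₁, g.bas] at k2
    refine ⟨v, tgb_gn g.th g.ne (g.bas ▸ n0) k1 k2, fun i => (hv _).trans ?_⟩
    obtain ⟨u, hu⟩ := tgb_mem.1
      (g.bas.le (tgb_down h g e1 ((discL_up h.isD g.d₂).2.2.1 (g.hm.map _ hw))))
    have h1 := hk (η.adjugate *ᵥ v)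
    rw [mulVec_mulVec, mul_adjugate, smul_mulVec, one_mulVec, tgb_smul, tgb_rl, hdet] at h1
    refine tgb_inj g.ne (τ := τ) (u := u) ?_ i
    rw [← hu]
    push_cast at h1 ⊢
    field_simp at h1 ⊢
    refine mul_left_cancel₀ F0 ?_
    linear_combination (-starRingEnd ℂ e) * h1 - (c * ev τ (η.adjugate *ᵥ v)) * e0
  · obtain ⟨w, hw, k, k1, k2⟩ := tgb_rep g.d₂ hl
    obtain ⟨v, hv'⟩ := tgb_mem.1 (g.bas.le (tgb_down h g e1 ((discL_up h.isD g.d₂).2.2.1 hw)))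
    obtain ⟨z, hz, e2⟩ := rl_index g.d₁.isLat g.d₂.isLat g.hm.map g.hm.deg w hw
    obtain ⟨u, rfl⟩ := tgb_mem.1 (g.bas.le ((discL_up h.isD g.d₁).2.2.1 hz))
    refine ⟨v, tgb_gn g.th g.ne (g.bas ▸ n0) (k := d.F x y * k)
      (fun q => ((Nat.prime_iff_prime_int.1 hl).dvd_or_dvd q).elim hF k1) ?_,
      fun i => (hv _).trans ((dvd_mul_right _ (d.F x y)).trans ?_)⟩
    · have e3 : Complex.normSq e = d.a * d.F x y := by
        rw [Complex.mul_conj] at e0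
        exact_mod_cast e0
      rw [← g.bas, ← hv', map_mul, k2, tgb_nm₂ h g, map_div₀, map_mul, Complex.normSq_conj, e3,
        Complex.normSq_ofReal, Complex.normSq_intCast]
      push_cast
      field_simp
    · refine tgb_inj g.ne (τ := τ) (u := u) (tgb_ne h g (mul_left_cancel₀ g1 ?_)) i
      rw [hk v, tgb_rl, e2, ← hv']
      simp only [m, G]
      push_cast
      field_simp
      linear_combination (d.n * d.g₂ * w : ℂ) * e0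

theorem Geo.lvl (h : d.Good κ) (g : d.Geo C M₁ M₂ α β c τ Θ η₁ η₂ B) (hn : d.n = 1)
    (h₁ : d.g₁ = 1) (h₂ : d.g₂ = 1) {q : ℕ} (hq : 0 < q) {b₀ : ℤ} (hl : LvP q b₀ d.E M₁ M₂ α β) :
    Lvl q b₀ Θ η₁ η₂ := by
  have d1 : DiscL M₁ d.E := by simpa [h₁] using g.d₁
  have d2 : DiscL M₂ d.E := by simpa [h₂] using g.d₂
  have t1 : M₁ * OD d.E = M₁ := by rw [mul_comm, d1.OD_mul]
  have t2 : M₂ * OD d.E = M₂ := by rw [mul_comm, d2.OD_mul]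
  have hb : M₁ = sp c (c * τ) := t1 ▸ g.bas
  have q0 : (q : ℂ) ≠ 0 := Nat.cast_ne_zero.2 hq.ne'
  obtain ⟨-, w, hw, hp, h3, h4⟩ := hl
  obtain ⟨v, rfl⟩ := tgb_mem.1 (hb ▸ hw)
  obtain ⟨w1, hw1, e1⟩ := mem_pr_mul.1 h3
  obtain ⟨w2, hw2, e2⟩ := mem_pr_mul.1 h4
  have hc : IsCoprime (Int.gcd (v 0) (v 1) : ℤ) q := by
    rw [Nat.isCoprime_iff_coprime]
    refine Nat.coprime_of_dvd fun l hl l1 l2 => hp l hl l2 ?_
    obtain ⟨a, ha⟩ := (Int.natCast_dvd_natCast.2 l1).trans (Int.gcd_dvd_left (v 0) (v 1))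
    obtain ⟨b, hb'⟩ := (Int.natCast_dvd_natCast.2 l1).trans (Int.gcd_dvd_right (v 0) (v 1))
    refine mem_pr_mul.2 ⟨c * ev τ ![a, b], hb ▸ tgb_mem.2 ⟨_, rfl⟩, ?_⟩
    simp only [ev, ha, hb', cons_val_zero, cons_val_one]
    push_cast
    ring
  obtain ⟨r, t, hr⟩ := hc
  rw [Int.gcd_eq_gcd_ab] at hr
  have key : ∀ (e : ℂ) (η : M2), e ∈ d.LL → d.Lk M₁ α β c τ e η →
      ∃ lam : ℤ, ∀ i, (q : ℤ) ∣ (η *ᵥ v) i - lam * v i := by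
    intro e η he hk
    have k1 := hk v
    have k2 := tgb_up h g he (t1.symm ▸ hw1)
    rw [t2] at k2
    simp only [m, G, hn, h₁, h₂, Nat.cast_one, mul_one, one_mul, Int.cast_one] at k1
    generalize η *ᵥ v = u at k1 ⊢
    have k3 : ((dt v u : ℤ) * ((Pool.Agent.EQ.th d.E - b₀) / 2) / q : ℂ) ∈ OD d.E := by
      refine (d2.end_iff _).1 (pr_mul_le.2 fun w hw => ?_)
      obtain ⟨z, hz, e3⟩ := rl_index g.d₁.isLat g.d₂.isLat g.hm.map g.hm.deg w hw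
      obtain ⟨s, rfl⟩ := tgb_mem.1 (hb ▸ hz)
      have e4 : dt v u • s = dt s u • v + dt v s • u := by
        funext i
        revert i
        refine Fin.forall_fin_two.2 ⟨?_, ?_⟩ <;>
          simp only [dt, Pi.add_apply, Pi.smul_apply, smul_eq_mul] <;> ring
      have e5 := congrArg (fun y => rl α β (c * ev τ y)) e4
      simp only [tgb_lin, tgb_smul, cte_lin, tgb_rl, e3, hn, Int.cast_one, one_mul, k1] at e5
      refine (congrArg (· ∈ M₂) ?_).mp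
        (add_mem (M₂.smul_mem (dt s u) hw2) (M₂.smul_mem (dt v s) k2))
      simp only [zsmul_eq_mul]
      rw [div_mul_eq_mul_div _ (q : ℂ), eq_div_iff q0]
      linear_combination (dt s u : ℂ) * e2 + (dt v s * (e / nm d.E (M₁ * OD d.E)) : ℂ) * e1 -
        (Pool.Agent.EQ.th d.E - b₀) / 2 * e5
    obtain ⟨x, y, e6⟩ := mem_sp.1 k3
    rw [div_eq_iff q0] at e6
    have e7 := congrArg Complex.im e6
    simp at e7
    have e8 : dt v u = q * y := by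
      have : (dt v u : ℝ) = q * y :=
        mul_right_cancel₀ (ord2_th_im_ne h.E_neg) (by linarith)
      exact_mod_cast this
    rw [dt] at e8
    refine ⟨r * (v 0).gcdA (v 1) * u 0 + r * (v 0).gcdB (v 1) * u 1, Fin.forall_fin_two.2
      ⟨⟨t * u 0 - r * (v 0).gcdB (v 1) * y, ?_⟩, ⟨t * u 1 + r * (v 0).gcdA (v 1) * y, ?_⟩⟩⟩
    · linear_combination (-u 0) * hr - r * (v 0).gcdB (v 1) * e8
    · linear_combination (-u 1) * hr + r * (v 0).gcdA (v 1) * e8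
  obtain ⟨l₁, k₁⟩ := key _ _ (ord_left _ _) g.k₁
  obtain ⟨l₂, k₂⟩ := key _ _ (ord_right _ _) g.k₂
  obtain ⟨u, rfl⟩ := tgb_mem.1 (hb ▸ hw1)
  refine ⟨v, r * (v 0).gcdA (v 1), r * (v 0).gcdB (v 1), l₁, l₂, ⟨-t, by linear_combination hr⟩,
    fun i => ?_, k₁, k₂⟩
  have e9 := tgb_inj g.ne (τ := τ) (k := 2 * q) (u := u) (v := (1 : ℤ) • (Θ *ᵥ v) + (-b₀) • v) (by
    rw [tgb_lin, g.th.mul]
    push_cast
    linear_combination (-2) * e1) i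
  simpa [sub_eq_add_neg] using e9

theorem Geo.isog (h : d.Good κ) (g : d.Geo C M₁ M₂ α β c τ Θ η₁ η₂ B) {N : ℕ}
    (hN : d.G * d.a ∣ (N : ℤ)) : Isog N (jL M₁) (jL M₂) := by
  obtain ⟨k, hk⟩ := hN
  have n1 : ((nm d.E (M₁ * OD d.E) : ℝ) : ℂ) ≠ 0 := Complex.ofReal_ne_zero.2 (tgb_pos h g).ne'
  have a0 : (d.a : ℂ) ≠ 0 := Int.cast_ne_zero.2 h.a_pos.ne'
  have s0 : (d.g₂ * (d.a / nm d.E (M₁ * OD d.E)) : ℂ) ≠ 0 :=
    mul_ne_zero (Nat.cast_ne_zero.2 h.g₂_pos.ne') (div_ne_zero a0 n1)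
  refine ⟨_, M₂, g.d₁.isLat.pr_mul s0, g.d₂.isLat, jL_pr_mul g.d₁.isLat s0, rfl,
    pr_mul_le.2 fun w hw => ?_, pr_mul_le.2 fun w hw => mem_pr_mul.2 ⟨_, M₁.smul_mem k
      (pr_mul_le.1 (discL_up h.isD g.d₁).2.2.2 _ (tgb_down h g (ord_left _ _)
        ((discL_up h.isD g.d₂).2.2.1 hw))), ?_⟩⟩
  · rw [mul_assoc]
    exact pr_mul_le.1 (discL_up h.isD g.d₂).2.2.2 _
      (tgb_up h g (ord_left _ _) ((discL_up h.isD g.d₁).2.2.1 hw))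
  · have e : (N : ℂ) = d.g₁ * d.g₂ * d.a * k := by exact_mod_cast hk
    rw [e, zsmul_eq_mul, map_intCast]
    field_simp

end Dt

end Pool.Agent.EQ
end
end
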