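import Pool.Agent.K.MP_ad7a55_nt.C6
import Pool.Agent.K.MP_ad7a55_nt.C8
import Pool.Agent.K.MP_ad7a55_nt.C46
import Pool.Agent.K.MP_ad7a55_nt.C0

-- part Pool.Agent.P.MP_ad7a55_nt.TSa
section

/-! Majorants of the weight at the primes prime to the degree. -/

set_option autoImplicit false

noncomputable section

open Finset Matrix

namespace Pool.Agent.EQ

namespace Dt

/-- The bias at `l`. -/
def aa (d : Dt) (K : ℝ) (l : ℕ) (Y : ℤ) : ℝ :=
  if (l : ℤ) ∣ 2 * d.n * d.p then K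
  else jacobiSym (d.G ^ 2 * d.E) l + (if (l : ℤ) ∣ d.m * d.a then 0 else jacobiSym (d.Δ₁ Y) l) +
    if (l : ℤ) ∣ d.Δ₁ Y then K else 0

/-- The mass at `l`. -/
def ms (d : Dt) (K : ℝ) (l : ℕ) (Y : ℤ) : ℝ :=
  if (l : ℤ) ∣ 2 * d.n * d.p then K else if (l : ℤ) ∣ d.Δ₁ Y then 1 + K / l else 1

theorem tsa_single {K M a : ℝ} (hM : 1 ≤ M) {l : ℕ} {S : Set ℤ} {B : ℤ → ℤ} {w : ℤ → ℝ}
    (mu : ℤ → ℕ) {Ω : ℕ → ℤ → Prop} {f : ℕ → ℝ} (hL : Lv l K Ω f a)
    (hw : ∀ x ∈ S, ∃ k, At Ω x k ∧ (l : ℤ) ^ k ∣ B x ∧ w x ≤ f k) : LS K l S B w mu M a := by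
  refine ⟨{(0, 0, 0)}, fun _ => 1, fun _ => Ω, fun _ => f, fun t _ => ⟨zero_le_one, hL⟩,
    by simpa using hM, fun x hx => ?_⟩
  obtain ⟨k, a1, a2, a3⟩ := hw x hx
  exact Or.inr ⟨_, mem_singleton_self _, x, k, Nat.zero_le _, by simp, a1, a2, by rwa [one_mul]⟩

theorem tsa_fam {K M a : ℝ} {l : ℕ} {S : Set ℤ} {B : ℤ → ℤ} {w : ℤ → ℝ} {mu : ℤ → ℕ} (n : ℕ)
    (r : ℕ → ℤ) (π : ℕ → ℝ) (Ω : ℕ → ℕ → ℤ → Prop) (f : ℕ → ℕ → ℝ)
    (hL : ∀ i, 0 ≤ π i ∧ Lv l K (Ω i) (f i) a)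
    (hM : ∑ i ∈ range n, π i / (l : ℝ) ^ (2 * i) ≤ M)
    (hw : ∀ x ∈ S, ∃ i < n, ∃ (y : ℤ) (k : ℕ), 2 * i ≤ mu x ∧ x = r i + (l : ℤ) ^ (2 * i) * y ∧
      At (Ω i) y k ∧ (l : ℤ) ^ k ∣ B x ∧ w x ≤ π i * f i k) : LS K l S B w mu M a := by
  refine ⟨(range n).image fun i => (2 * i, r i, i), fun t => π t.2.2, fun t => Ω t.2.2,
    fun t => f t.2.2, fun t _ => hL _, ?_, fun x hx => ?_⟩
  · rw [sum_image fun i _ j _ e => (Prod.mk.inj (Prod.mk.inj e).2).2]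
    exact hM
  · obtain ⟨i, hi, y, k, a1, a2, a3, a4, a5⟩ := hw x hx
    exact Or.inr ⟨_, mem_image_of_mem _ (mem_range.2 hi), y, k, a1, a2, a3, a4, a5⟩

theorem tsa_geo (n : ℕ) : ∑ i ∈ range n, (4 * (i : ℝ) + 6) / 2 ^ i = 20 - (8 * n + 20) / 2 ^ n := by
  induction n with
  | zero => norm_num
  | succ n ih =>
    rw [sum_range_succ, ih]
    push_cast
    field_simp
    ring

theorem tsa_sum {l : ℕ} (hl : l.Prime) (n : ℕ) :
    ∑ i ∈ range (n + 1), (if i = 0 then 1 else 16 * (l : ℝ) ^ i * (4 * i + 2)) / (l : ℝ) ^ (2 * i)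
      ≤ 1 + 320 / l := by
  have h2 : (2 : ℝ) ≤ l := by exact_mod_cast hl.two_le
  have h0 : (0 : ℝ) < l := by linarith
  rw [sum_range_succ', add_comm]
  refine add_le_add (by simp) ?_
  calc _ ≤ ∑ i ∈ range n, 16 / (l : ℝ) * ((4 * (i : ℝ) + 6) / 2 ^ i) := by
        refine sum_le_sum fun i _ => ?_
        rw [if_neg (Nat.succ_ne_zero i)]
        calc _ = 16 / (l : ℝ) * ((4 * (i : ℝ) + 6) / (l : ℝ) ^ i) := by
              push_cast
              field_simp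
              ring
          _ ≤ _ := by gcongr
    _ = 16 / (l : ℝ) * (20 - (8 * n + 20) / 2 ^ n) := by rw [← mul_sum, tsa_geo]
    _ ≤ 16 / (l : ℝ) * 20 := by
        gcongr
        exact sub_le_self _ (by positivity)
    _ = 320 / l := by ring

theorem tsa_two {d : Dt} {l : ℕ} (h1 : ¬ (l : ℤ) ∣ 2 * d.n * d.p) : l ≠ 2 := by
  rintro rfl
  exact h1 ⟨d.n * d.p, by push_cast; ring⟩

theorem tsa_jac_zero {l : ℕ} (hl : l.Prime) {z : ℤ} (h : (l : ℤ) ∣ z) : jacobiSym z l = 0 := by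
  have : Fact l.Prime := ⟨hl⟩
  rw [← jacobiSym.legendreSym.to_jacobiSym, legendreSym.eq_zero_iff,
    ZMod.intCast_zmod_eq_zero_iff_dvd]
  exact h

theorem tsa_jac {l : ℕ} (hl : l.Prime) {z : ℤ} (h : ¬ (l : ℤ) ∣ z) :
    jacobiSym z l = 1 ∨ jacobiSym z l = -1 := by
  have : Fact l.Prime := ⟨hl⟩
  rw [← jacobiSym.legendreSym.to_jacobiSym]
  exact legendreSym.eq_one_or_neg_one l (by rwa [Ne, ZMod.intCast_zmod_eq_zero_iff_dvd])

theorem tsa_jac_le (z : ℤ) (l : ℕ) : -1 ≤ jacobiSym z l ∧ jacobiSym z l ≤ 1 := by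
  rcases jacobiSym.trichotomy z l with h | h | h <;> simp [h]

theorem tsa_W5 {d : Dt} {l : ℕ} (hl : l.Prime) (h2 : l ≠ 2) {X Y : ℤ} (hB : d.B X Y ≠ 0) :
    d.W5 l X Y ≤ 16 * (l : ℝ) ^ d.ie l X Y * (1 + padicValInt l (d.B X Y)) := by
  have : Fact l.Prime := ⟨hl⟩
  have h4 : ¬ (l : ℤ) ∣ 4 := fun h =>
    tqd_not_two hl h2 ((tqd_prime hl).dvd_of_dvd_pow (n := 2) (by simpa using h))
  have e : padicValInt l (4 * d.B X Y) = padicValInt l (d.B X Y) := by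
    rw [padicValInt.mul (by norm_num) hB, padicValInt.eq_zero_of_not_dvd h4, zero_add]
  rw [W5, e]
  gcongr
  split_ifs
  · exact le_rfl
  · positivity

theorem tsa_dvd_B {d : Dt} {l : ℕ} (hl : l.Prime) (h2 : l ≠ 2) (hE : (l : ℤ) ∣ d.E)
    (ha : ¬ (l : ℤ) ∣ d.a) {X Y : ℤ} (hx : (l : ℤ) ∣ d.x₁ X Y) : (l : ℤ) ∣ d.B X Y := by
  have hp := tqd_prime hl
  have h3 : (l : ℤ) ∣ 2 * (2 * (d.a * d.B X Y)) := by
    rw [show 2 * (2 * (d.a * d.B X Y)) = 4 * d.a * d.B X Y by ring, ← key₁]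
    exact dvd_sub (dvd_pow hx two_ne_zero) (hE.mul_right _)
  exact (hp.dvd_or_dvd ((hp.dvd_or_dvd ((hp.dvd_or_dvd h3).resolve_left
    (tqd_not_two hl h2))).resolve_left (tqd_not_two hl h2))).resolve_left ha

theorem tsa_shift (d : Dt) (r u y Y : ℤ) (μ : ℕ) :
    d.a * u ^ (2 * μ) * y ^ 2 + (2 * d.a * r + d.b * Y) * u ^ μ * y +
      (d.a * r ^ 2 + d.b * Y * r + (d.c * Y ^ 2 + d.m * d.E)) = d.B (r + u ^ μ * y) Y := by
  rw [B_eq]
  ring

theorem ls_one {K M a : ℝ} (hK : 1 ≤ K) (hM : 1 ≤ M) (ha : 0 ≤ a) (l : ℕ) (S : Set ℤ) (B : ℤ → ℤ)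
    {w : ℤ → ℝ} (hw : ∀ x ∈ S, w x ≤ 1) (mu : ℤ → ℕ) : LS K l S B w mu M a := by
  refine tsa_single hM mu (Ω := fun _ _ => False) (f := fun _ => 1)
    ⟨fun _ _ _ _ h => h, fun k _ => ?_, fun _ => zero_le_one, fun k => ?_, le_rfl, by simpa⟩
    fun x hx => ⟨0, ⟨fun _ => id, fun e => absurd e (lt_irrefl 0)⟩, by simp, hw x hx⟩
  · rw [tqd_zero (by simp)]
    exact Nat.zero_le _
  · have : (0 : ℝ) ≤ k := by positivity
    nlinarith

theorem ls_unr {d : Dt} {κ : ℕ} (h : d.Good κ) {l : ℕ} (hl : l.Prime) (hD : ¬ d.Dom l)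
    (h1 : ¬ (l : ℤ) ∣ 2 * d.n * d.p) (hE : ¬ (l : ℤ) ∣ d.E) (Y : ℤ) :
    LS 9 l {X | d.B X Y ≠ 0} (fun X => d.B X Y) (fun X => d.Wt l X Y) (fun _ => 0) 1
      (d.aa 9 l Y) := by
  have : Fact l.Prime := ⟨hl⟩
  have hp := tqd_prime hl
  have h2 := tsa_two h1
  have hm : ¬ (l : ℤ) ∣ d.m := (val_m h hl hD).2 h1
  have hG : ¬ (l : ℤ) ∣ d.G := fun e => hm (e.mul_left _)
  have hJ : jacobiSym (d.G ^ 2 * d.E) l = jacobiSym d.E l := by
    rw [jacobiSym.mul_left, jacobiSym.pow_left]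
    rcases tsa_jac hl hG with e | e <;> simp [e]
  have hW : ∀ X, d.Wt l X Y = if jacobiSym d.E l = 1 then (padicValInt l (d.B X Y) : ℝ) + 1
      else if Even (padicValInt l (d.B X Y)) then 1 else 0 := fun X => by
    rw [Wt, if_neg hD, if_neg h1, if_pos hE]
  have hχ := tsa_jac hl hE
  by_cases hΔ : (l : ℤ) ∣ d.Δ₁ Y
  · have hc := content h hl Y (s := 0) (by
      rw [padicValInt.eq_zero_of_not_dvd hm, padicValInt.eq_zero_of_not_dvd hE])
    obtain ⟨Ω, hL, hy⟩ := exists_qlev' hl (A := d.a) (B := d.b * Y)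
      (C := d.c * Y ^ 2 + d.m * d.E) hc (K := 2) one_le_two
    refine tsa_single le_rfl _ (hL.mono (by norm_num) ?_) fun X hX => ?_
    · rw [aa, if_neg h1, if_pos hΔ, hJ, tsa_jac_zero hl hΔ]
      rcases hχ with e | e <;> simp [e] <;> norm_num
    · simp only [← B_eq] at hy
      obtain ⟨k, a1, a2, a3, a4⟩ := hy X hX
      refine ⟨k, a1, a2, ?_⟩
      have h3 : d.Wt l X Y ≤ (padicValInt l (d.B X Y) : ℝ) + 1 := by
        have : (0 : ℝ) ≤ padicValInt l (d.B X Y) := by positivity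
        rw [hW]
        split_ifs <;> linarith
      refine h3.trans ?_
      split_ifs with hk
      · rw [padicValInt.eq_zero_of_not_dvd (a4 hk)]
        simp
      · have : (padicValInt l (d.B X Y) : ℝ) ≤ 2 * k + 1 := by exact_mod_cast a3
        linarith
  · have hd : ¬ (l : ℤ) ∣ (d.b * Y) ^ 2 - 4 * d.a * (d.c * Y ^ 2 + d.m * d.E) := by
      rw [disc_B]
      exact fun e => (hp.dvd_or_dvd e).elim hE hΔ
    have hc : ∀ k, 0 < k → (cnt (l ^ k) (fun X => (l : ℤ) ^ k ∣ d.B X Y) : ℤ) =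
        1 + if (l : ℤ) ∣ d.m * d.a then 0 else jacobiSym d.E l * jacobiSym (d.Δ₁ Y) l := by
      intro k hk
      simp only [B_eq]
      by_cases ha : (l : ℤ) ∣ d.a
      · rw [if_pos (ha.mul_left _), cnt_hensel' hl ha fun e => hd
          (dvd_sub (dvd_pow e two_ne_zero) ((ha.mul_left _).mul_right _))]
        simp
      · rw [if_neg fun e => (hp.dvd_or_dvd e).elim hm ha, cnt_hensel hl h2 ha hd hk, disc_B,
          jacobiSym.mul_left]
    refine tsa_single le_rfl _ (Ω := fun k X => (l : ℤ) ^ k ∣ d.B X Y)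
      (f := fun k => if jacobiSym d.E l = 1 then (k : ℝ) + 1 else if Even k then 1 else 0)
      ⟨fun k x y e1 e2 => ?_, fun k hk => ?_, fun k => ?_, fun k => ?_, by simp, ?_⟩
      fun X hX => ?_
    · rw [B_eq] at e2 ⊢
      exact tqd_poly e1 e2
    · have h3 := hc k hk
      have h4 := (tsa_jac_le (d.E * d.Δ₁ Y) l).2
      rw [jacobiSym.mul_left] at h4
      split_ifs at h3 <;> omega
    · split_ifs <;> positivity
    · have : (0 : ℝ) ≤ k := by positivity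
      split_ifs <;> linarith
    · have h3 := hc 1 one_pos
      rw [pow_one l] at h3
      have h4 : (cnt l (fun X => (l : ℤ) ^ 1 ∣ d.B X Y) : ℝ) = ((1 + if (l : ℤ) ∣ d.m * d.a then 0
          else jacobiSym d.E l * jacobiSym (d.Δ₁ Y) l : ℤ) : ℝ) := by exact_mod_cast h3
      rw [h4, aa, if_neg h1, if_neg hΔ, hJ]
      rcases hχ with e | e <;> rw [e] <;> split_ifs <;> simp_all
    · refine ⟨padicValInt l (d.B X Y), ⟨fun e e' => ?_, fun _ => padicValInt_dvd _⟩,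
        padicValInt_dvd _, (hW X).le⟩
      rcases (padicValInt_dvd_iff 1 _).1 e' with e2 | e2
      · exact hX e2
      · omega

theorem ls_ram : ∃ K : ℝ, 1 ≤ K ∧ ∀ (d : Dt) (κ : ℕ), d.Good κ → ∀ l : ℕ, l.Prime → ¬ d.Dom l →
    ¬ (l : ℤ) ∣ 2 * d.n * d.p → (l : ℤ) ∣ d.E → ¬ (l : ℤ) ∣ d.a → ∀ Y : ℤ,
    LS K l {X | d.B X Y ≠ 0} (fun X => d.B X Y) (fun X => d.Wt l X Y) (fun X => d.mu l X Y)
      (d.ms K l Y) (d.aa K l Y) := by
  refine ⟨320, by norm_num, fun d κ h l hl hD h1 hE ha Y => ?_⟩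
  have : Fact l.Prime := ⟨hl⟩
  have hp := tqd_prime hl
  have h2 := tsa_two h1
  have hm : ¬ (l : ℤ) ∣ d.m := (val_m h hl hD).2 h1
  have hma : ¬ (l : ℤ) ∣ d.m * d.a := fun e => (hp.dvd_or_dvd e).elim hm ha
  have h2a : ¬ (l : ℤ) ∣ 2 * d.a := fun e => (hp.dvd_or_dvd e).elim (tqd_not_two hl h2) ha
  have hJ : jacobiSym (d.G ^ 2 * d.E) l = 0 := tsa_jac_zero hl (hE.mul_left _)
  have hx : ∀ X, d.xe l X Y = d.x₁ X Y := fun X => if_neg ha
  have hW : ∀ X, d.Wt l X Y = if ¬ (l : ℤ) ∣ d.x₁ X Y then 1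
      else if ¬ (l : ℤ) ∣ d.Δ₁ Y then 1 + (jacobiSym (d.Δ₁ Y) l : ℝ) else d.W5 l X Y := fun X => by
    rw [Wt, if_neg hD, if_neg h1, if_neg (not_not.2 hE), hx, Δe, if_neg ha]
  by_cases hΔ : (l : ℤ) ∣ d.Δ₁ Y
  · have hr : ∀ i : ℕ, ∃ r : ℤ, ∀ X, (l : ℤ) ^ (2 * i) ∣ d.x₁ X Y → (l : ℤ) ^ (2 * i) ∣ X - r := by
      intro i
      by_cases he : ∃ r, (l : ℤ) ^ (2 * i) ∣ d.x₁ r Y
      · obtain ⟨r, hr⟩ := he
        refine ⟨r, fun X hX => hp.pow_dvd_of_dvd_mul_left _ h2a ?_⟩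
        have := dvd_sub hX hr
        rwa [show d.x₁ X Y - d.x₁ r Y = 2 * d.a * (X - r) by simp only [x₁]; ring] at this
      · exact ⟨0, fun X hX => absurd ⟨X, hX⟩ he⟩
    choose r hr using hr
    have hc : ¬ Ct l (0 + 1) d.a (d.b * Y) (d.c * Y ^ 2 + d.m * d.E) := fun e =>
      ha (by simpa using e.1)
    have hty : ∀ i : ℕ, ∃ (Ω : ℕ → ℤ → Prop) (f : ℕ → ℝ), Lv l 320 Ω f 320 ∧
        ∀ X y, X = r i + (l : ℤ) ^ (2 * i) * y → d.B X Y ≠ 0 → d.ie l X Y = i →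
          ∃ k, At Ω y k ∧ (l : ℤ) ^ k ∣ d.B X Y ∧
            d.Wt l X Y ≤ (if i = 0 then 1 else 16 * (l : ℝ) ^ i * (4 * i + 2)) * f k := by
      intro i
      have hs := ct_shift hl hc (r i) (2 * i)
      by_cases hi : i = 0
      · subst hi
        obtain ⟨Ω, hL, hy⟩ := exists_qlev' hl hs (K := 32) (by norm_num)
        simp only [tsa_shift] at hy
        refine ⟨Ω, _, hL.mono (by norm_num) (by norm_num), ?_⟩
        rintro X y rfl hB hie
        obtain ⟨k, a1, a2, a3, a4⟩ := hy y hB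
        refine ⟨k, a1, a2, ?_⟩
        have h0 : (0 : ℝ) ≤ k := by positivity
        rw [if_pos rfl, one_mul, hW, if_neg (not_not.2 hΔ)]
        split_ifs with b1 b2 b2
        · exact absurd (tsa_dvd_B hl h2 hE ha b1) (a4 b2)
        · refine (tsa_W5 hl h2 hB).trans ?_
          rw [hie, pow_zero]
          have := (Nat.cast_le (α := ℝ)).2 a3
          push_cast at this
          linarith
        · exact le_rfl
        · linarith
      · obtain ⟨Ω, hL, hy⟩ := exists_qlev hl hs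
        simp only [tsa_shift] at hy
        refine ⟨Ω, _, hL.mono (by norm_num) (by norm_num), ?_⟩
        rintro X y rfl hB hie
        obtain ⟨k, a1, a2, a3⟩ := hy y hB
        refine ⟨k, a1, a2, (Wt_le h hl hB).trans ((tsa_W5 hl h2 hB).trans ?_)⟩
        rw [if_neg hi, hie, mul_assoc _ (4 * (i : ℝ) + 2)]
        have h3 := (Nat.cast_le (α := ℝ)).2 a3
        push_cast at h3
        have h4 : (0 : ℝ) ≤ i * k := by positivity
        gcongr
        nlinarith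
    choose Ω f hL hy using hty
    have e1 : d.aa 320 l Y = 320 := by
      rw [aa, if_neg h1, if_neg hma, if_pos hΔ, hJ, tsa_jac_zero hl hΔ]
      simp
    rw [e1, ms, if_neg h1, if_pos hΔ]
    refine tsa_fam (d.E.natAbs + 1) r _ Ω f (fun i => ⟨?_, hL i⟩) (tsa_sum hl _) fun X hX => ?_
    · split_ifs <;> positivity
    · obtain ⟨s1, -, s3, -⟩ := ie_spec h hl X Y
      rw [hx] at s1
      obtain ⟨y, e⟩ := hr _ X s1
      have e' : X = r (d.ie l X Y) + (l : ℤ) ^ (2 * d.ie l X Y) * y := by linarith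
      obtain ⟨k, a1, a2, a3⟩ := hy _ X y e' hX rfl
      refine ⟨d.ie l X Y, ?_, y, k, Nat.le_add_right _ _, e', a1, a2, a3⟩
      have b1 : l ^ (2 * d.ie l X Y) ∣ d.E.natAbs := Int.natCast_dvd.1 (by exact_mod_cast s3)
      have b2 := Nat.le_of_dvd (Int.natAbs_pos.2 h.E_neg.ne) b1
      have b3 := Nat.lt_pow_self (n := 2 * d.ie l X Y) hl.one_lt
      omega
  · have e1 : d.aa 320 l Y = jacobiSym (d.Δ₁ Y) l := by
      rw [aa, if_neg h1, if_neg hma, if_neg hΔ, hJ]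
      simp
    have j1 : (-1 : ℝ) ≤ jacobiSym (d.Δ₁ Y) l := by exact_mod_cast (tsa_jac_le _ l).1
    have j2 : (jacobiSym (d.Δ₁ Y) l : ℝ) ≤ 1 := by exact_mod_cast (tsa_jac_le _ l).2
    have hc : cnt l (fun X => 1 = 1 ∧ (l : ℤ) ∣ d.x₁ X Y) = 1 := by
      have := cnt_hensel' hl (dvd_zero _) h2a (d.b * Y) 1
      rw [pow_one l] at this
      refine (tqd_congr fun X => ?_).trans this
      rw [pow_one, show 0 * X ^ 2 + 2 * d.a * X + d.b * Y = d.x₁ X Y by simp only [x₁]; ring]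
      simp
    rw [e1, ms, if_neg h1, if_neg hΔ]
    refine tsa_single le_rfl _ (Ω := fun k X => k = 1 ∧ (l : ℤ) ∣ d.x₁ X Y)
      (f := fun k => if k = 1 then 1 + (jacobiSym (d.Δ₁ Y) l : ℝ) else 1)
      ⟨fun k x y e1 e2 => ⟨e2.1, ?_⟩, fun k hk => ?_, fun k => ?_, fun k => ?_, by simp, ?_⟩
      fun X hX => ?_
    · rw [e2.1, pow_one] at e1
      have := dvd_sub e2.2 (e1.mul_left (2 * d.a))
      rwa [show d.x₁ x Y - 2 * d.a * (x - y) = d.x₁ y Y by simp only [x₁]; ring] at this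
    · by_cases e : k = 1
      · subst e
        rw [pow_one, hc]
        exact one_le_two
      · rw [tqd_zero fun ⟨_, e2⟩ => e e2.1]
        exact Nat.zero_le _
    · split_ifs <;> linarith
    · have : (0 : ℝ) ≤ k := by positivity
      split_ifs <;> linarith
    · rw [hc]
      simp
    · by_cases b : (l : ℤ) ∣ d.x₁ X Y
      · refine ⟨1, ⟨fun e => absurd e one_ne_zero, fun _ => ⟨rfl, b⟩⟩, ?_, ?_⟩
        · rw [pow_one]
          exact tsa_dvd_B hl h2 hE ha b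
        · rw [hW, if_neg (not_not.2 b), if_pos hΔ, if_pos rfl]
      · refine ⟨0, ⟨fun _ e => b e.2, fun e => absurd e (lt_irrefl 0)⟩, by simp, ?_⟩
        rw [hW, if_pos b, if_neg zero_ne_one]

end Dt

end Pool.Agent.EQ
end
end

-- part Pool.Agent.P.MP_ad7a55_nt.TTl
section

/-! Large primes do not bias a real character upwards. -/

set_option autoImplicit false

noncomputable section

open Finset

namespace Pool.Agent.EQ

/-- The convolution `1 * ψ`. -/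
def rr (ψ : ℕ → ℝ) (n : ℕ) : ℝ := ∑ d ∈ n.divisors, ψ d

theorem ttl_mul {q : ℕ} {ψ : ℕ → ℝ} (h : RC q ψ) {m n : ℕ} (hmn : m.Coprime n) :
    rr ψ (m * n) = rr ψ m * rr ψ n := by
  let f : ArithmeticFunction ℝ := ⟨fun k => if k = 0 then 0 else ψ k, by simp⟩
  have hf : f.IsMultiplicative := by
    rw [ArithmeticFunction.IsMultiplicative.iff_ne_zero]
    refine ⟨?_, ?_⟩
    · show (if (1 : ℕ) = 0 then (0 : ℝ) else ψ 1) = 1
      simp [h.one]
    · intro a b ha hb _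
      show (if a * b = 0 then (0 : ℝ) else ψ (a * b)) =
        (if a = 0 then (0 : ℝ) else ψ a) * (if b = 0 then (0 : ℝ) else ψ b)
      rw [if_neg (mul_ne_zero ha hb), if_neg ha, if_neg hb, h.mul]
  have hz : ((ArithmeticFunction.zeta : ArithmeticFunction ℝ) * f).IsMultiplicative :=
    ArithmeticFunction.isMultiplicative_zeta.natCast.mul hf
  have he : ∀ k, ((ArithmeticFunction.zeta : ArithmeticFunction ℝ) * f) k = rr ψ k := by
    intro k
    rw [ArithmeticFunction.coe_zeta_mul_apply, rr]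
    refine sum_congr rfl fun d hd => ?_
    show (if d = 0 then (0 : ℝ) else ψ d) = ψ d
    rw [if_neg (Nat.pos_of_mem_divisors hd).ne']
  rw [← he, ← he, ← he]
  exact hz.map_mul_of_coprime hmn

theorem ttl_pow {q : ℕ} {ψ : ℕ → ℝ} (h : RC q ψ) (p k : ℕ) : ψ (p ^ k) = ψ p ^ k := by
  induction k with
  | zero => simp [h.one]
  | succ k ih => rw [pow_succ, h.mul, ih, pow_succ]

theorem ttl_one {q : ℕ} {ψ : ℕ → ℝ} (h : RC q ψ) : rr ψ 1 = 1 := by
  simp [rr, h.one]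

theorem ttl_abs {q : ℕ} {ψ : ℕ → ℝ} (h : RC q ψ) (n : ℕ) : |ψ n| ≤ 1 := by
  rcases h.val n with e | e | e <;> simp [e]

theorem ttl_q {q : ℕ} {ψ : ℕ → ℝ} (h : RC q ψ) : 1 ≤ q := by
  have := h.bd 1
  simp [h.one] at this
  exact this

theorem RC.rr_nonneg {q : ℕ} {ψ : ℕ → ℝ} (h : RC q ψ) (n : ℕ) : 0 ≤ rr ψ n := by
  induction n using Nat.recOnPosPrimePosCoprime with
  | prime_pow p k hp _ =>
    rw [rr, Nat.sum_divisors_prime_pow hp]
    simp only [ttl_pow h]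
    rcases h.val p with e | e | e
    · rw [e]; exact sum_nonneg fun i _ => pow_nonneg le_rfl i
    · rw [e]; exact sum_nonneg fun i _ => pow_nonneg zero_le_one i
    · rw [e, neg_one_geom_sum]; split_ifs <;> norm_num
  | zero => simp [rr]
  | one => rw [ttl_one h]; exact zero_le_one
  | coprime a b _ _ hab ha hb => rw [ttl_mul h hab]; exact mul_nonneg ha hb

theorem RC.rr_mul {q : ℕ} {ψ : ℕ → ℝ} (h : RC q ψ) {m n : ℕ} (hmn : m.Coprime n) :
    rr ψ (m * n) = rr ψ m * rr ψ n := ttl_mul h hmn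

theorem ttl_step (a : ℕ → ℝ) {N : ℕ} (hN : 0 < N) :
    (∑ n ∈ Icc 1 (N + 1), a n / n - (∑ n ∈ Icc 1 (N + 1), a n) / ((N + 1 : ℕ) : ℝ)) -
      (∑ n ∈ Icc 1 N, a n / n - (∑ n ∈ Icc 1 N, a n) / N) =
      (∑ n ∈ Icc 1 N, a n) * (1 / N - 1 / ((N + 1 : ℕ) : ℝ)) := by
  rw [sum_Icc_succ_top (by omega), sum_Icc_succ_top (by omega)]
  have h1 : (0 : ℝ) < N := by exact_mod_cast hN
  push_cast
  field_simp
  ring

theorem ttl_inv_sub {N : ℕ} (hN : 0 < N) : (0 : ℝ) ≤ 1 / N - 1 / ((N + 1 : ℕ) : ℝ) := by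
  have h1 : (0 : ℝ) < N := by exact_mod_cast hN
  have : 1 / ((N + 1 : ℕ) : ℝ) ≤ 1 / N := by
    apply one_div_le_one_div_of_le h1
    push_cast; linarith
  linarith

theorem RC.exists_L {q : ℕ} {ψ : ℕ → ℝ} (h : RC q ψ) :
    ∃ L : ℝ, ∀ N : ℕ, 0 < N → |∑ n ∈ Icc 1 N, ψ n / n - L| ≤ 2 * q / N := by
  set T : ℕ → ℝ := fun N => ∑ n ∈ Icc 1 N, ψ n / n - (∑ n ∈ Icc 1 N, ψ n) / N with hT
  have key : ∀ M N : ℕ, 0 < M → M ≤ N → |T N - T M| ≤ q * (1 / M - 1 / N) := by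
    intro M N hM hMN
    induction N, hMN using Nat.le_induction with
    | base => simp
    | succ N hMN ih =>
      have hN : 0 < N := lt_of_lt_of_le hM hMN
      have e := ttl_step ψ hN
      have h2 : |T (N + 1) - T N| ≤ q * (1 / N - 1 / ((N + 1 : ℕ) : ℝ)) := by
        show |(∑ n ∈ Icc 1 (N + 1), ψ n / n - (∑ n ∈ Icc 1 (N + 1), ψ n) / ((N + 1 : ℕ) : ℝ)) -
          (∑ n ∈ Icc 1 N, ψ n / n - (∑ n ∈ Icc 1 N, ψ n) / N)| ≤ _
        rw [e, abs_mul, abs_of_nonneg (ttl_inv_sub hN)]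
        exact mul_le_mul_of_nonneg_right (h.bd N) (ttl_inv_sub hN)
      have h3 : T (N + 1) - T M = (T (N + 1) - T N) + (T N - T M) := by ring
      rw [h3]
      refine (abs_add_le _ _).trans ?_
      linarith
  have hq : (0 : ℝ) ≤ q := Nat.cast_nonneg q
  obtain ⟨L, hL1, hL2⟩ := exists_between_of_forall_le
    (s := {x : ℝ | ∃ N : ℕ, 0 < N ∧ x = T N - q * (1 / N)})
    (t := {x : ℝ | ∃ N : ℕ, 0 < N ∧ x = T N + q * (1 / N)})
    ⟨_, 1, one_pos, rfl⟩ ⟨_, 1, one_pos, rfl⟩ (by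
      rintro x ⟨M, hM, rfl⟩ y ⟨N, hN, rfl⟩
      have hM' : (0 : ℝ) ≤ q * (1 / M) := by positivity
      have hN' : (0 : ℝ) ≤ q * (1 / N) := by positivity
      rcases le_total M N with hMN | hMN
      · have := abs_le.1 (key M N hM hMN)
        linarith [this.1]
      · have := abs_le.1 (key N M hN hMN)
        linarith [this.2])
  refine ⟨L, fun N hN => ?_⟩
  have a1 : T N - q * (1 / N) ≤ L := hL1 ⟨N, hN, rfl⟩
  have a2 : L ≤ T N + q * (1 / N) := hL2 ⟨N, hN, rfl⟩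
  have h1 : (0 : ℝ) < N := by exact_mod_cast hN
  have a3 : |(∑ n ∈ Icc 1 N, ψ n) / N| ≤ q * (1 / N) := by
    rw [abs_div, abs_of_pos h1, mul_one_div]
    exact div_le_div_of_nonneg_right (h.bd N) h1.le
  have a4 := abs_le.1 a3
  have e : (2 * q / N : ℝ) = q * (1 / N) + q * (1 / N) := by ring
  have e2 : ∑ n ∈ Icc 1 N, ψ n / n = T N + (∑ n ∈ Icc 1 N, ψ n) / N := by
    simp only [hT]; ring
  rw [e, e2, abs_le]
  constructor <;> linarith [a4.1, a4.2]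

theorem ttl_abel (a w : ℕ → ℝ) (B : ℝ) (y : ℕ) (hw : ∀ n, w (n + 1) ≤ w n) (hw0 : ∀ n, 0 ≤ w n)
    (hB : ∀ n, y ≤ n → |∑ d ∈ Ioc y n, a d| ≤ B) {K : ℕ} (hK : y ≤ K) :
    |∑ d ∈ Ioc y K, a d * w d| ≤ B * w (y + 1) := by
  have key : ∀ K, y ≤ K → |∑ d ∈ Ioc y K, a d * w d - (∑ d ∈ Ioc y K, a d) * w (K + 1)| ≤
      B * (w (y + 1) - w (K + 1)) := by
    intro K hK
    induction K, hK using Nat.le_induction with
    | base => simp
    | succ K hK ih =>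
      have e : ∑ d ∈ Ioc y (K + 1), a d * w d - (∑ d ∈ Ioc y (K + 1), a d) * w (K + 1 + 1) =
          (∑ d ∈ Ioc y K, a d * w d - (∑ d ∈ Ioc y K, a d) * w (K + 1)) +
            (∑ d ∈ Ioc y (K + 1), a d) * (w (K + 1) - w (K + 1 + 1)) := by
        rw [sum_Ioc_succ_top hK, sum_Ioc_succ_top hK]; ring
      rw [e]
      refine (abs_add_le _ _).trans ?_
      have h0 : 0 ≤ w (K + 1) - w (K + 1 + 1) := by linarith [hw (K + 1)]
      have h2 : |(∑ d ∈ Ioc y (K + 1), a d) * (w (K + 1) - w (K + 1 + 1))| ≤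
          B * (w (K + 1) - w (K + 1 + 1)) := by
        rw [abs_mul, abs_of_nonneg h0]
        exact mul_le_mul_of_nonneg_right (hB _ (by omega)) h0
      linarith
  have h1 := key K hK
  have h2 : |(∑ d ∈ Ioc y K, a d) * w (K + 1)| ≤ B * w (K + 1) := by
    rw [abs_mul, abs_of_nonneg (hw0 _)]
    exact mul_le_mul_of_nonneg_right (hB _ hK) (hw0 _)
  have e : ∑ d ∈ Ioc y K, a d * w d =
      (∑ d ∈ Ioc y K, a d * w d - (∑ d ∈ Ioc y K, a d) * w (K + 1)) +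
        (∑ d ∈ Ioc y K, a d) * w (K + 1) := by ring
  rw [e]
  refine (abs_add_le _ _).trans ?_
  linarith

theorem ttl_Icc (N : ℕ) : Icc 1 N = Ioc 0 N := by
  ext x; simp only [mem_Icc, mem_Ioc]; omega

theorem ttl_sum_rr (ψ : ℕ → ℝ) {N K : ℕ} (hK : N ≤ K) :
    ∑ n ∈ Icc 1 N, rr ψ n = ∑ d ∈ Ioc 0 K, ψ d * ((N / d : ℕ) : ℝ) := by
  have e1 : ∀ n ∈ Ioc 0 N, rr ψ n = ∑ d ∈ Ioc 0 K, if d ∣ n then ψ d else 0 := by
    intro n hn
    rw [← sum_filter, rr]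
    refine sum_congr ?_ fun _ _ => rfl
    ext d
    rw [mem_Ioc] at hn
    simp only [Nat.mem_divisors, mem_filter, mem_Ioc]
    constructor
    · rintro ⟨h1, h2⟩
      exact ⟨⟨Nat.pos_of_dvd_of_pos h1 hn.1, (Nat.le_of_dvd hn.1 h1).trans (hn.2.trans hK)⟩, h1⟩
    · rintro ⟨_, h1⟩
      exact ⟨h1, hn.1.ne'⟩
  rw [ttl_Icc, sum_congr rfl e1, sum_comm]
  refine sum_congr rfl fun d _ => ?_
  rw [← sum_filter, sum_const, Nat.Ioc_filter_dvd_card_eq_div, nsmul_eq_mul, mul_comm]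

theorem RC.hyper {q : ℕ} {ψ : ℕ → ℝ} (h : RC q ψ) {L : ℝ}
    (hL : ∀ N : ℕ, 0 < N → |∑ n ∈ Icc 1 N, ψ n / n - L| ≤ 2 * q / N) (N : ℕ) :
    |∑ n ∈ Icc 1 N, rr ψ n - L * N| ≤ 20 * Real.sqrt (q * N) := by
  rcases Nat.eq_zero_or_pos N with rfl | hN
  · simp
  have hq : (1 : ℝ) ≤ q := by exact_mod_cast ttl_q h
  have hN1 : (1 : ℝ) ≤ N := by exact_mod_cast hN
  set s := Real.sqrt (q * N) with hs
  have hs2 : s * s = q * N := Real.mul_self_sqrt (by positivity)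
  have hs1 : 1 ≤ s := by
    rw [hs]; apply Real.le_sqrt_of_sq_le; nlinarith
  set y := ⌈s⌉₊ with hy
  have hy1 : s ≤ y := Nat.le_ceil s
  have hy2 : (y : ℝ) ≤ 2 * s := by
    have := Nat.ceil_lt_add_one (show 0 ≤ s by linarith)
    linarith
  have hy0 : (0 : ℝ) < y := by linarith
  have hy0' : 0 < y := by exact_mod_cast hy0
  have hqy : (q : ℝ) * N / y ≤ s := by
    rw [div_le_iff₀ hy0, ← hs2]; nlinarith
  rw [ttl_sum_rr ψ (le_max_left N y), ← sum_Ioc_consecutive _ (Nat.zero_le y) (le_max_right N y)]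
  have a1 : |∑ d ∈ Ioc y (max N y), ψ d * ((N / d : ℕ) : ℝ)| ≤ 2 * s := by
    have hb : ∀ n, y ≤ n → |∑ d ∈ Ioc y n, ψ d| ≤ 2 * q := by
      intro n hn
      have e : ∑ d ∈ Ioc y n, ψ d = ∑ d ∈ Icc 1 n, ψ d - ∑ d ∈ Icc 1 y, ψ d := by
        rw [ttl_Icc, ttl_Icc, ← sum_Ioc_consecutive _ (Nat.zero_le y) hn]; ring
      rw [e]
      refine (abs_sub _ _).trans ?_
      linarith [h.bd n, h.bd y]
    have hw : ∀ n : ℕ, ((N / (max (n + 1) 1) : ℕ) : ℝ) ≤ ((N / (max n 1) : ℕ) : ℝ) := by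
      intro n
      exact_mod_cast Nat.div_le_div_left (by omega) (by omega)
    have := ttl_abel ψ (fun d => ((N / (max d 1) : ℕ) : ℝ)) (2 * q) y hw
      (fun n => Nat.cast_nonneg _) hb (le_max_right N y)
    have e : ∑ d ∈ Ioc y (max N y), ψ d * ((N / d : ℕ) : ℝ) =
        ∑ d ∈ Ioc y (max N y), ψ d * ((N / (max d 1) : ℕ) : ℝ) := by
      refine sum_congr rfl fun d hd => ?_
      rw [mem_Ioc] at hd
      rw [max_eq_left (by omega : 1 ≤ d)]
    rw [e]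
    refine this.trans ?_
    have h4 : ((N / (max (y + 1) 1) : ℕ) : ℝ) ≤ N / y := by
      refine le_trans ?_ (Nat.cast_div_le (m := N) (n := y))
      exact_mod_cast Nat.div_le_div_left (by omega) hy0'
    have h5 : 2 * (q : ℝ) * ((N / (max (y + 1) 1) : ℕ) : ℝ) ≤ 2 * q * (N / y) :=
      mul_le_mul_of_nonneg_left h4 (by positivity)
    have h6 : 2 * (q : ℝ) * (N / y) = 2 * (q * N / y) := by ring
    linarith
  have a2 : |∑ d ∈ Ioc 0 y, ψ d * ((N / d : ℕ) : ℝ) - N * ∑ d ∈ Ioc 0 y, ψ d / d| ≤ 2 * s := by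
    rw [mul_sum, ← sum_sub_distrib]
    refine (abs_sum_le_sum_abs _ _).trans ?_
    have : ∀ d ∈ Ioc 0 y, |ψ d * ((N / d : ℕ) : ℝ) - N * (ψ d / d)| ≤ 1 := by
      intro d hd
      rw [mem_Ioc] at hd
      have e : ψ d * ((N / d : ℕ) : ℝ) - N * (ψ d / d) = ψ d * (((N / d : ℕ) : ℝ) - N / d) := by
        ring
      have hd0 : (0 : ℝ) < d := by exact_mod_cast hd.1
      have b1 : ((N / d : ℕ) : ℝ) ≤ N / d := Nat.cast_div_le
      have b2 : (N : ℝ) / d ≤ ((N / d : ℕ) : ℝ) + 1 := by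
        rw [div_le_iff₀ hd0]
        have := Nat.lt_div_mul_add (a := N) hd.1
        have h7 : (N : ℝ) < ((N / d : ℕ) : ℝ) * d + d := by exact_mod_cast this
        linarith
      have b3 : |((N / d : ℕ) : ℝ) - N / d| ≤ 1 := abs_le.2 ⟨by linarith, by linarith⟩
      rw [e, abs_mul]
      exact mul_le_one₀ (ttl_abs h d) (abs_nonneg _) b3
    refine (sum_le_sum this).trans ?_
    simpa using hy2
  have a3 : |N * ∑ d ∈ Ioc 0 y, ψ d / d - L * N| ≤ 2 * s := by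
    have := hL y hy0'
    rw [ttl_Icc] at this
    have e : N * ∑ d ∈ Ioc 0 y, ψ d / d - L * N = N * (∑ d ∈ Ioc 0 y, ψ d / d - L) := by ring
    rw [e, abs_mul, abs_of_nonneg (by linarith : (0 : ℝ) ≤ N)]
    have h5 := mul_le_mul_of_nonneg_left this (by linarith : (0 : ℝ) ≤ N)
    have h6 : (N : ℝ) * (2 * q / y) = 2 * (q * N / y) := by ring
    linarith
  have a1' := abs_le.1 a1
  have a2' := abs_le.1 a2
  have a3' := abs_le.1 a3
  rw [abs_le]
  constructor <;> linarith [a1'.1, a1'.2, a2'.1, a2'.2, a3'.1, a3'.2]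

theorem ttl_prod {q : ℕ} {ψ : ℕ → ℝ} (h : RC q ψ) (S : Finset ℕ) (hS : ∀ l ∈ S, l.Prime) :
    ∏ l ∈ S, (1 + ψ l) / l = rr ψ (∏ l ∈ S, l) / ((∏ l ∈ S, l : ℕ) : ℝ) := by
  induction S using Finset.induction_on with
  | empty => simp [ttl_one h]
  | insert a S ha ih =>
    have hp : a.Prime := hS a (mem_insert_self a S)
    have hc : a.Coprime (∏ l ∈ S, l) := by
      refine Nat.Coprime.prod_right fun l hl => ?_
      refine (Nat.coprime_primes hp (hS l (mem_insert_of_mem hl))).2 ?_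
      rintro rfl
      exact ha hl
    rw [prod_insert ha, prod_insert ha, ih fun l hl => hS l (mem_insert_of_mem hl), ttl_mul h hc]
    have e : rr ψ a = 1 + ψ a := by
      rw [rr, hp.divisors, sum_pair hp.one_lt.ne, h.one]
    rw [e, Nat.cast_mul, div_mul_div_comm]

theorem ttl_sub {z n n' : ℕ} {S S' : Finset ℕ} (hn' : 1 ≤ n') (hz' : n' ≤ z)
    (hS : ∀ l ∈ S, l.Prime ∧ z < l) (hS' : ∀ l ∈ S', l.Prime ∧ z < l)
    (e : n * ∏ l ∈ S, l = n' * ∏ l ∈ S', l) : S ⊆ S' := by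
  intro l hl
  obtain ⟨hp, hlz⟩ := hS l hl
  have h1 : l ∣ n' * ∏ l ∈ S', l := by
    rw [← e]; exact Dvd.dvd.mul_left (dvd_prod_of_mem _ hl) n
  rcases (Nat.Prime.dvd_mul hp).1 h1 with h2 | h2
  · have := Nat.le_of_dvd hn' h2
    omega
  · obtain ⟨k, hk, h3⟩ := (hp.prime.dvd_finsetProd_iff _).1 h2
    rw [(Nat.prime_dvd_prime_iff_eq hp (hS' k hk).1).1 h3]
    exact hk

theorem RC.euler_le : ∃ C : ℝ, 0 < C ∧ ∀ (q : ℕ) (ψ : ℕ → ℝ), RC q ψ → ∀ z X : ℕ, 1 ≤ z → z ≤ X →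
    (∑ n ∈ Icc 1 z, rr ψ n / n) *
      Real.exp (∑ l ∈ (Nat.primesLE X).filter (fun l => z < l), (1 + ψ l) / l) ≤
      C * ∑ n ∈ Icc 1 (z * X ^ 9), rr ψ n / n := by
  obtain ⟨C, hC, hR⟩ := rev_rankin
  refine ⟨C, hC, fun q ψ h z X hz hzX => ?_⟩
  set P := (Nat.primesLE X).filter (fun l => z < l) with hP
  have hPm : ∀ l ∈ P, l.Prime ∧ z < l ∧ l ≤ X := by
    intro l hl
    rw [hP, mem_filter, Nat.mem_primesLE] at hl
    exact ⟨hl.1.2, hl.2, hl.1.1⟩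
  have h1 := hR X P (fun l => 1 + ψ l) (hz.trans hzX) (fun l hl => ⟨(hPm l hl).1, (hPm l hl).2.2⟩)
    (fun l _ => by
      have := abs_le.1 (ttl_abs h l)
      constructor <;> linarith [this.1, this.2])
  set Q := P.powerset.filter (fun S => ∏ l ∈ S, l ≤ X ^ 9) with hQ
  have hQm : ∀ S ∈ Q, (∀ l ∈ S, l.Prime ∧ z < l) ∧ ∏ l ∈ S, l ≤ X ^ 9 := by
    intro S hS
    rw [hQ, mem_filter, mem_powerset] at hS
    exact ⟨fun l hl => ⟨(hPm l (hS.1 hl)).1, (hPm l (hS.1 hl)).2.1⟩, hS.2⟩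
  have h0 : 0 ≤ ∑ n ∈ Icc 1 z, rr ψ n / n :=
    sum_nonneg fun n _ => div_nonneg (h.rr_nonneg n) (Nat.cast_nonneg n)
  refine (mul_le_mul_of_nonneg_left h1 h0).trans ?_
  rw [mul_left_comm]
  refine mul_le_mul_of_nonneg_left ?_ hC.le
  rw [sum_mul_sum, ← sum_product']
  have e : ∀ x ∈ Icc 1 z ×ˢ Q, rr ψ x.1 / x.1 * ∏ l ∈ x.2, (1 + ψ l) / l =
      (fun m : ℕ => rr ψ m / m) (x.1 * ∏ l ∈ x.2, l) := by
    rintro ⟨n, S⟩ hx
    rw [mem_product, mem_Icc] at hx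
    have hS := (hQm S hx.2).1
    have hc : n.Coprime (∏ l ∈ S, l) := by
      refine Nat.Coprime.prod_right fun l hl => ?_
      refine ((Nat.Prime.coprime_iff_not_dvd (hS l hl).1).2 fun hd => ?_).symm
      have h3 : l ≤ n := Nat.le_of_dvd hx.1.1 hd
      have h4 : n ≤ z := hx.1.2
      have := (hS l hl).2
      omega
    show rr ψ n / n * ∏ l ∈ S, (1 + ψ l) / l = rr ψ (n * ∏ l ∈ S, l) / ((n * ∏ l ∈ S, l : ℕ) : ℝ)
    rw [ttl_prod h S fun l hl => (hS l hl).1, ttl_mul h hc, Nat.cast_mul, div_mul_div_comm]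
  rw [sum_congr rfl e]
  have inj : Set.InjOn (fun x : ℕ × Finset ℕ => x.1 * ∏ l ∈ x.2, l) ↑(Icc 1 z ×ˢ Q) := by
    rintro ⟨n, S⟩ hx ⟨n', S'⟩ hx' he
    rw [mem_coe, mem_product, mem_Icc] at hx hx'
    have he' : n * ∏ l ∈ S, l = n' * ∏ l ∈ S', l := he
    have s1 : S ⊆ S' := ttl_sub hx'.1.1 hx'.1.2 (hQm S hx.2).1 (hQm S' hx'.2).1 he'
    have s2 : S' ⊆ S := ttl_sub hx.1.1 hx.1.2 (hQm S' hx'.2).1 (hQm S hx.2).1 he'.symm
    have s3 : S = S' := Subset.antisymm s1 s2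
    subst s3
    have hpos : 0 < ∏ l ∈ S, l := prod_pos fun l hl => ((hQm S hx.2).1 l hl).1.pos
    rw [Nat.eq_of_mul_eq_mul_right hpos he']
  rw [← sum_image (f := fun m : ℕ => rr ψ m / m) inj]
  refine sum_le_sum_of_subset_of_nonneg ?_
    fun n _ _ => div_nonneg (h.rr_nonneg n) (Nat.cast_nonneg n)
  intro m hm
  obtain ⟨⟨n, S⟩, hx, rfl⟩ := mem_image.1 hm
  rw [mem_product, mem_Icc] at hx
  have hpos : 0 < ∏ l ∈ S, l := prod_pos fun l hl => ((hQm S hx.2).1 l hl).1.pos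
  rw [mem_Icc]
  exact ⟨Nat.mul_pos hx.1.1 hpos, Nat.mul_le_mul hx.1.2 (hQm S hx.2).2⟩

theorem ttl_sqrt {N : ℝ} (hN : 0 < N) :
    Real.sqrt N * (1 / N - 1 / (N + 1)) ≤ 2 * (1 / Real.sqrt N - 1 / Real.sqrt (N + 1)) := by
  set a := Real.sqrt N with ha
  set b := Real.sqrt (N + 1) with hb
  have a0 : 0 < a := Real.sqrt_pos.2 hN
  have b0 : 0 < b := Real.sqrt_pos.2 (by linarith)
  have a2 : N = a * a := (Real.mul_self_sqrt hN.le).symm
  have b2 : N + 1 = b * b := (Real.mul_self_sqrt (by linarith)).symm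
  have ab : a ≤ b := Real.sqrt_le_sqrt (by linarith)
  have e1 : a * (1 / N - 1 / (N + 1)) = (b * b - a * a) / (a * (b * b)) := by
    rw [b2]; nth_rewrite 1 [a2]; field_simp
  have e2 : 2 * (1 / a - 1 / b) = 2 * (b - a) * b / (a * (b * b)) := by
    field_simp
  rw [e1, e2]
  apply div_le_div_of_nonneg_right _ (by positivity)
  nlinarith [sq_nonneg (b - a)]

theorem ttl_err (a : ℕ → ℝ) (c : ℝ) (hc : 0 ≤ c)
    (hE : ∀ N : ℕ, |∑ n ∈ Icc 1 N, a n| ≤ c * Real.sqrt N) {w y : ℕ} (hw : 0 < w) (hy : w ≤ y) :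
    |∑ n ∈ Icc 1 y, a n / n - ∑ n ∈ Icc 1 w, a n / n| ≤ 4 * (c * (1 / Real.sqrt w)) := by
  set T : ℕ → ℝ := fun N => ∑ n ∈ Icc 1 N, a n / n - (∑ n ∈ Icc 1 N, a n) / N with hT
  have key : ∀ N : ℕ, w ≤ N → |T N - T w| ≤ 2 * c * (1 / Real.sqrt w - 1 / Real.sqrt N) := by
    intro N hMN
    induction N, hMN using Nat.le_induction with
    | base => simp
    | succ N hMN ih =>
      have hN : 0 < N := lt_of_lt_of_le hw hMN
      have hN' : (0 : ℝ) < N := by exact_mod_cast hN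
      have e := ttl_step a hN
      have h2 : |T (N + 1) - T N| ≤
          2 * c * (1 / Real.sqrt N - 1 / Real.sqrt ((N + 1 : ℕ) : ℝ)) := by
        show |(∑ n ∈ Icc 1 (N + 1), a n / n - (∑ n ∈ Icc 1 (N + 1), a n) / ((N + 1 : ℕ) : ℝ)) -
          (∑ n ∈ Icc 1 N, a n / n - (∑ n ∈ Icc 1 N, a n) / N)| ≤ _
        rw [e, abs_mul, abs_of_nonneg (ttl_inv_sub hN)]
        refine (mul_le_mul_of_nonneg_right (hE N) (ttl_inv_sub hN)).trans ?_
        have h5 := mul_le_mul_of_nonneg_left (ttl_sqrt hN') hc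
        push_cast
        linarith
      have h3 : T (N + 1) - T w = (T (N + 1) - T N) + (T N - T w) := by ring
      rw [h3]
      refine (abs_add_le _ _).trans ?_
      linarith
  have hb : ∀ N : ℕ, w ≤ N → |(∑ n ∈ Icc 1 N, a n) / N| ≤ c * (1 / Real.sqrt w) := by
    intro N hN
    have hw' : (0 : ℝ) < w := by exact_mod_cast hw
    have hwN : (w : ℝ) ≤ N := by exact_mod_cast hN
    have hN' : (0 : ℝ) < N := by linarith
    have s0 : 0 < Real.sqrt w := Real.sqrt_pos.2 hw'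
    have s1 : 0 < Real.sqrt N := Real.sqrt_pos.2 hN'
    rw [abs_div, abs_of_pos hN']
    refine (div_le_div_of_nonneg_right (hE N) hN'.le).trans ?_
    have e : c * Real.sqrt N / N = c * (1 / Real.sqrt N) := by
      rw [mul_div_assoc, Real.sqrt_div_self']
    rw [e]
    exact mul_le_mul_of_nonneg_left (one_div_le_one_div_of_le s0 (Real.sqrt_le_sqrt hwN)) hc
  have k1 := abs_le.1 (key y hy)
  have k2 := abs_le.1 (hb y hy)
  have k3 := abs_le.1 (hb w le_rfl)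
  have k4 : 0 ≤ c * (1 / Real.sqrt y) := by positivity
  have e : ∑ n ∈ Icc 1 y, a n / n - ∑ n ∈ Icc 1 w, a n / n =
      (T y - T w) + (∑ n ∈ Icc 1 y, a n) / y - (∑ n ∈ Icc 1 w, a n) / w := by
    simp only [hT]; ring
  rw [e, abs_le]
  constructor <;> linarith [k1.1, k1.2, k2.1, k2.2, k3.1, k3.2]

theorem ttl_harm {w y : ℕ} (hw : 0 < w) (hy : w ≤ y) :
    Real.log ((y : ℝ) + 1) - Real.log ((w : ℝ) + 1) ≤
        ∑ n ∈ Icc 1 y, 1 / (n : ℝ) - ∑ n ∈ Icc 1 w, 1 / (n : ℝ) ∧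
      ∑ n ∈ Icc 1 y, 1 / (n : ℝ) - ∑ n ∈ Icc 1 w, 1 / (n : ℝ) ≤ Real.log y - Real.log w := by
  induction y, hy using Nat.le_induction with
  | base => simp
  | succ N hN ih =>
    have hN0 : (0 : ℝ) < N := by exact_mod_cast lt_of_lt_of_le hw hN
    rw [sum_Icc_succ_top (by omega)]
    push_cast
    have h1 : Real.log ((N : ℝ) + 1 + 1) - Real.log ((N : ℝ) + 1) ≤ 1 / ((N : ℝ) + 1) := by
      rw [← Real.log_div (by positivity) (by positivity)]
      refine (Real.log_le_sub_one_of_pos (by positivity)).trans (le_of_eq ?_)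
      field_simp
      ring
    have h2 : 1 / ((N : ℝ) + 1) ≤ Real.log ((N : ℝ) + 1) - Real.log N := by
      rw [← Real.log_div (by positivity) (by positivity)]
      refine le_trans (le_of_eq ?_) (Real.one_sub_inv_le_log_of_pos (by positivity))
      field_simp
      ring
    constructor <;> linarith [ih.1, ih.2]

theorem ttl_S {q : ℕ} {ψ : ℕ → ℝ} (h : RC q ψ) {L : ℝ}
    (hL : ∀ N : ℕ, 0 < N → |∑ n ∈ Icc 1 N, ψ n / n - L| ≤ 2 * q / N) {w y : ℕ} (hw : q ≤ w)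
    (hy : w ≤ y) :
    |∑ n ∈ Icc 1 y, rr ψ n / n - ∑ n ∈ Icc 1 w, rr ψ n / n -
      L * (∑ n ∈ Icc 1 y, 1 / (n : ℝ) - ∑ n ∈ Icc 1 w, 1 / (n : ℝ))| ≤ 80 := by
  have hw0 : 0 < w := lt_of_lt_of_le (ttl_q h) hw
  have hE : ∀ N : ℕ, |∑ n ∈ Icc 1 N, (rr ψ n - L)| ≤ (20 * Real.sqrt q) * Real.sqrt N := by
    intro N
    have := h.hyper hL N
    rw [Real.sqrt_mul (Nat.cast_nonneg q), ← mul_assoc] at this
    rw [sum_sub_distrib, sum_const, Nat.card_Icc, nsmul_eq_mul, Nat.add_sub_cancel, mul_comm _ L]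
    exact this
  have h1 := ttl_err (fun n => rr ψ n - L) (20 * Real.sqrt q) (by positivity) hE hw0 hy
  have e : ∀ N : ℕ, ∑ n ∈ Icc 1 N, (rr ψ n - L) / n =
      ∑ n ∈ Icc 1 N, rr ψ n / n - L * ∑ n ∈ Icc 1 N, 1 / (n : ℝ) := by
    intro N
    rw [mul_sum, ← sum_sub_distrib]
    exact sum_congr rfl fun n _ => by ring
  rw [e, e] at h1
  have hw' : (0 : ℝ) < w := by exact_mod_cast hw0
  have s0 : 0 < Real.sqrt w := Real.sqrt_pos.2 hw'
  have h2 : Real.sqrt q * (1 / Real.sqrt w) ≤ 1 := by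
    rw [mul_one_div, div_le_one s0]
    exact Real.sqrt_le_sqrt (by exact_mod_cast hw)
  have h3 := abs_le.1 h1
  rw [abs_le]
  constructor <;> linarith [h3.1, h3.2]

theorem ttl_log {w z : ℕ} (hz : 1 ≤ z) (hw : w ^ 2 ≤ z) :
    Real.log z ≤ 4 * (Real.log ((z : ℝ) + 1) - Real.log ((w : ℝ) + 1)) := by
  have hz' : (1 : ℝ) ≤ z := by exact_mod_cast hz
  set s := Real.sqrt z with hs
  have s2 : (z : ℝ) = s * s := (Real.mul_self_sqrt (by linarith)).symm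
  have s1 : 1 ≤ s := by rw [hs]; apply Real.le_sqrt_of_sq_le; linarith
  have ws : (w : ℝ) ≤ s := by
    rw [hs]; apply Real.le_sqrt_of_sq_le; exact_mod_cast hw
  have w0 : (0 : ℝ) ≤ w := Nat.cast_nonneg w
  have h1 : s * ((w : ℝ) + 1) ^ 2 ≤ ((z : ℝ) + 1) ^ 2 := by
    have h2 : ((w : ℝ) + 1) ^ 2 ≤ (s + 1) ^ 2 := by nlinarith
    have h3 : s * ((w : ℝ) + 1) ^ 2 ≤ s * (s + 1) ^ 2 := mul_le_mul_of_nonneg_left h2 (by linarith)
    have h4 : 0 ≤ (s - 1) ^ 2 * (s * s + s + 1) := by positivity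
    rw [s2]
    nlinarith
  have h5 := Real.log_le_log (by positivity) h1
  rw [Real.log_mul (by positivity) (by positivity), Real.log_pow, Real.log_pow] at h5
  have h6 : Real.log z = 2 * Real.log s := by
    rw [s2, Real.log_mul (by positivity) (by positivity)]; ring
  push_cast at h5
  linarith

theorem tail_le : ∃ C : ℝ, ∀ (q : ℕ) (ψ : ℕ → ℝ), RC q ψ → ∀ z X : ℕ, 2 ≤ z → q ^ 2 ≤ z →
    ∑ l ∈ (Nat.primesLE X).filter (fun l => z < l), ψ l / l ≤ C := by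
  obtain ⟨C, hC, hE⟩ := RC.euler_le
  refine ⟨max (Real.log (C * 3000) + 9) 0, fun q ψ h z X hz hq => ?_⟩
  rcases lt_or_ge X z with hX | hX
  · have : (Nat.primesLE X).filter (fun l => z < l) = ∅ := by
      refine filter_eq_empty_iff.2 fun l hl => ?_
      rw [Nat.mem_primesLE] at hl
      omega
    rw [this, sum_empty]
    exact le_max_right _ _
  refine le_trans ?_ (le_max_left _ _)
  obtain ⟨L, hL⟩ := h.exists_L
  have hq1 := ttl_q h
  set w := Nat.sqrt z with hw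
  have hqw : q ≤ w := Nat.le_sqrt'.2 hq
  have hwz : w ≤ z := Nat.sqrt_le_self z
  have hw2 : w ^ 2 ≤ z := Nat.sqrt_le' z
  have hX9 : 1 ≤ X ^ 9 := Nat.one_le_pow _ _ (by omega)
  have hzy : z ≤ z * X ^ 9 := Nat.le_mul_of_pos_right z hX9
  set S := ∑ n ∈ Icc 1 z, rr ψ n / n with hS
  have hS1 : 1 ≤ S := by
    have := single_le_sum (f := fun n : ℕ => rr ψ n / n) (s := Icc 1 z)
      (fun n _ => div_nonneg (h.rr_nonneg n) (Nat.cast_nonneg n)) (a := 1) (by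
        rw [mem_Icc]; omega)
    simpa [ttl_one h] using this
  have hSw : 0 ≤ ∑ n ∈ Icc 1 w, rr ψ n / n :=
    sum_nonneg fun n _ => div_nonneg (h.rr_nonneg n) (Nat.cast_nonneg n)
  have hz1 : (1 : ℝ) < z := by exact_mod_cast (by omega : 1 < z)
  have hlz : 0 < Real.log z := Real.log_pos hz1
  have hzX : (z : ℝ) ≤ X := by exact_mod_cast hX
  have hlX : Real.log z ≤ Real.log X := Real.log_le_log (by linarith) hzX
  set R := Real.log X / Real.log z with hR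
  have hR1 : 1 ≤ R := by rw [hR, le_div_iff₀ hlz]; linarith
  have hRz : R * Real.log z = Real.log X := div_mul_cancel₀ _ hlz.ne'
  have b1 := abs_le.1 (ttl_S h hL hqw hwz)
  have b2 := abs_le.1 (ttl_S h hL (hqw.trans hwz) hzy)
  have c1 := (ttl_harm (lt_of_lt_of_le hq1 hqw) hwz).1
  have c2 := ttl_harm (show 0 < z by omega) hzy
  have c3 := ttl_log (show 1 ≤ z by omega) hw2
  have c4 : Real.log ((z * X ^ 9 : ℕ) : ℝ) - Real.log z = 9 * Real.log X := by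
    have hX0 : (0 : ℝ) < X := by linarith
    push_cast
    rw [Real.log_mul (by positivity) (by positivity), Real.log_pow]
    push_cast; ring
  have c5 : Real.log ((z : ℝ) + 1) ≤ Real.log (((z * X ^ 9 : ℕ) : ℝ) + 1) := by
    apply Real.log_le_log (by positivity)
    have : (z : ℝ) ≤ ((z * X ^ 9 : ℕ) : ℝ) := by exact_mod_cast hzy
    linarith
  set H1 := ∑ n ∈ Icc 1 z, 1 / (n : ℝ) - ∑ n ∈ Icc 1 w, 1 / (n : ℝ) with hH1
  set H2 := ∑ n ∈ Icc 1 (z * X ^ 9), 1 / (n : ℝ) - ∑ n ∈ Icc 1 z, 1 / (n : ℝ) with hH2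
  have d1 : 0 ≤ H2 := by linarith [c2.1]
  have d2 : H2 ≤ 9 * (R * Real.log z) := by linarith [c2.2]
  have d3 : Real.log z ≤ 4 * H1 := by linarith
  have d4 : L * H1 ≤ 81 * S := by linarith [b1.1]
  have d5 : L * H2 ≤ 2916 * (R * S) := by
    rcases le_total L 0 with hL0 | hL0
    · have : L * H2 ≤ 0 := mul_nonpos_of_nonpos_of_nonneg hL0 d1
      have : 0 ≤ R * S := by positivity
      linarith
    · have e1 : L * H2 ≤ L * (9 * (R * Real.log z)) := mul_le_mul_of_nonneg_left d2 hL0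
      have e2 : L * Real.log z ≤ L * (4 * H1) := mul_le_mul_of_nonneg_left d3 hL0
      have e3 : L * Real.log z ≤ 324 * S := by linarith
      have e4 : R * (L * Real.log z) ≤ R * (324 * S) := mul_le_mul_of_nonneg_left e3 (by linarith)
      linarith
  have d6 : S ≤ R * S := le_mul_of_one_le_left (by linarith) hR1
  have d7 : ∑ n ∈ Icc 1 (z * X ^ 9), rr ψ n / n ≤ 3000 * (R * S) := by linarith [b2.2]
  have f1 := hE q ψ h z X (by omega) hX
  have f2 : S * Real.exp (∑ l ∈ (Nat.primesLE X).filter (fun l => z < l), (1 + ψ l) / l) ≤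
      S * (C * 3000 * R) := by
    refine f1.trans ?_
    have := mul_le_mul_of_nonneg_left d7 hC.le
    linarith
  have f3 := le_of_mul_le_mul_left f2 (by linarith)
  have f4 := (Real.le_log_iff_exp_le (by positivity)).2 f3
  rw [Real.log_mul (by positivity) (by positivity)] at f4
  have f5 := le_range hz hX
  have f6 : ∑ l ∈ (Nat.primesLE X).filter (fun l => z < l), (1 + ψ l) / l =
      ∑ l ∈ (Nat.primesLE X).filter (fun l => z < l), 1 / (l : ℝ) +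
        ∑ l ∈ (Nat.primesLE X).filter (fun l => z < l), ψ l / l := by
    rw [← sum_add_distrib]
    exact sum_congr rfl fun l _ => by ring
  rw [f6] at f4
  linarith

end Pool.Agent.EQ
end
end
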