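import Pool.Agent.K.MP_ad7a55_nt.C42
import Pool.Agent.K.MP_ad7a55_nt.C45
import Pool.Agent.K.MP_ad7a55_nt.C46
import Pool.Agent.K.MP_ad7a55_nt.C31
import Pool.Agent.K.MP_ad7a55_nt.C28

-- part Pool.Agent.P.MP_ad7a55_nt.UHm
section

/-! The invariants of a map between two framed lattices. -/

set_option autoImplicit false

noncomputable section

open MeasureTheory Topology Filter UpperHalfPlane
open scoped MatrixGroups ENNReal BoundedContinuousFunction

namespace Pool.Agent.EQ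

/-- The lattice spanned by the columns. -/
def colL (g : SL(2, ℝ)) : Lt :=
  sp ((g 0 0 : ℂ) - g 1 0 * Complex.I) ((g 0 1 : ℂ) - g 1 1 * Complex.I)

theorem uhm_mem {g : SL(2, ℝ)} {z : ℂ} :
    z ∈ colL g ↔ ∃ m n : ℤ, z = frame_ph g (m : ℚ) (n : ℚ) := by
  rw [colL, mem_sp]
  refine exists₂_congr fun m n => ?_
  have e : frame_ph g (m : ℚ) (n : ℚ) = m * ((g 0 0 : ℂ) - g 1 0 * Complex.I) +
      n * ((g 0 1 : ℂ) - g 1 1 * Complex.I) := by
    simp only [frame_ph]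
    push_cast
    ring
  rw [e]

theorem uhm_rl {g₁ g₂ : SL(2, ℝ)} {P : Matrix (Fin 2) (Fin 2) ℝ} {η : Matrix (Fin 2) (Fin 2) ℤ}
    (h : P * (g₁ : Matrix (Fin 2) (Fin 2) ℝ) = (g₂ : Matrix (Fin 2) (Fin 2) ℝ) * η.map (↑))
    (a b : ℚ) :
    rl ⟨(P 0 0 + P 1 1) / 2, (P 0 1 - P 1 0) / 2⟩ ⟨(P 0 0 - P 1 1) / 2, -(P 0 1 + P 1 0) / 2⟩
      (frame_ph g₁ a b) = frame_ph g₂ (η 0 0 * a + η 0 1 * b) (η 1 0 * a + η 1 1 * b) := by
  have e00 := congrFun (congrFun h 0) 0
  have e01 := congrFun (congrFun h 0) 1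
  have e10 := congrFun (congrFun h 1) 0
  have e11 := congrFun (congrFun h 1) 1
  simp only [Matrix.mul_apply, Fin.sum_univ_two, Matrix.map_apply] at e00 e01 e10 e11
  apply Complex.ext
  · simp only [rl, frame_ph, Complex.add_re, Complex.mul_re, Complex.sub_re, Complex.sub_im,
      Complex.mul_im, Complex.ofReal_re, Complex.ofReal_im, Complex.I_re, Complex.I_im,
      Complex.conj_re, Complex.conj_im]
    push_cast
    linear_combination (a : ℝ) * e00 + (b : ℝ) * e01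
  · simp only [rl, frame_ph, Complex.add_im, Complex.mul_re, Complex.sub_re, Complex.sub_im,
      Complex.mul_im, Complex.ofReal_re, Complex.ofReal_im, Complex.I_re, Complex.I_im,
      Complex.conj_re, Complex.conj_im]
    push_cast
    linear_combination -(a : ℝ) * e10 - (b : ℝ) * e11

theorem uhm_int {g : SL(2, ℝ)} {Θ : Matrix (Fin 2) (Fin 2) ℤ} {D : ℤ}
    (h : (g : Matrix (Fin 2) (Fin 2) ℝ) * Θ.map (↑) =
      !![0, Real.sqrt (-(D : ℝ)); -Real.sqrt (-(D : ℝ)), 0] * (g : Matrix (Fin 2) (Fin 2) ℝ))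
    (d : DiscL (colL g) D) :
    ∃ x y z : ℤ, Θ 0 0 = 2 * x - D ∧ Θ 0 1 = 2 * y ∧ Θ 1 0 = 2 * z ∧ Θ 1 1 = D - 2 * x := by
  have hth : ∀ a b : ℚ, th D * frame_ph g a b =
      frame_ph g (Θ 0 0 * a + Θ 0 1 * b) (Θ 1 0 * a + Θ 1 1 * b) := fun a b => by
    rw [← uhm_rl h.symm a b, rl]
    apply Complex.ext <;> simp [th]
  have hm : ∀ a b : ℤ, ∃ m n : ℤ, D * a + (Θ 0 0 * a + Θ 0 1 * b) = 2 * m ∧
      D * b + (Θ 1 0 * a + Θ 1 1 * b) = 2 * n := fun a b => by
    have h1 := pr_mul_le.1 ((d.end_iff ((D + th D) / 2)).2 (mem_sp.2 ⟨0, 1, by simp⟩)) _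
      (uhm_mem.2 ⟨a, b, rfl⟩)
    obtain ⟨m, n, e⟩ := uhm_mem.1 h1
    have e2 : frame_ph g (D * a + (Θ 0 0 * a + Θ 0 1 * b)) (D * b + (Θ 1 0 * a + Θ 1 1 * b)) =
        frame_ph g (2 * m) (2 * n) := by
      have e3 := hth a b
      simp only [frame_ph] at e e3 ⊢
      push_cast at e e3 ⊢
      linear_combination 2 * e - e3
    obtain ⟨k1, k2⟩ := frame_ph_inj g e2
    exact ⟨m, n, by exact_mod_cast k1, by exact_mod_cast k2⟩
  obtain ⟨x, z, a1, a2⟩ := hm 1 0
  obtain ⟨y, w, b1, -⟩ := hm 0 1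
  have e00 := congrFun (congrFun h 0) 0
  have e01 := congrFun (congrFun h 0) 1
  have e10 := congrFun (congrFun h 1) 0
  have e11 := congrFun (congrFun h 1) 1
  simp only [Matrix.mul_apply, Fin.sum_univ_two, Matrix.map_apply, Matrix.of_apply,
    Matrix.cons_val', Matrix.cons_val_zero, Matrix.cons_val_one, Matrix.cons_val_fin_one]
    at e00 e01 e10 e11
  have hd := frame_det g
  have tr : ((Θ 0 0 + Θ 1 1 : ℤ) : ℝ) = 0 := by
    push_cast
    linear_combination g 1 1 * e00 - g 0 1 * e10 + g 0 0 * e11 - g 1 0 * e01 -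
      ((Θ 0 0 : ℝ) + Θ 1 1) * hd
  have tr' : Θ 0 0 + Θ 1 1 = 0 := by exact_mod_cast tr
  exact ⟨x, y, z, by linarith, by linarith, by linarith, by linarith⟩

theorem hm_of_frame {g₁ g₂ : SL(2, ℝ)} {P : Matrix (Fin 2) (Fin 2) ℝ}
    {η Θ₁ Θ₂ : Matrix (Fin 2) (Fin 2) ℤ} {D₁ D₂ s : ℤ} {R : ℝ}
    (h : P * (g₁ : Matrix (Fin 2) (Fin 2) ℝ) = (g₂ : Matrix (Fin 2) (Fin 2) ℝ) * η.map (↑))
    (h₁ : (g₁ : Matrix (Fin 2) (Fin 2) ℝ) * Θ₁.map (↑) =
      !![0, Real.sqrt (-(D₁ : ℝ)); -Real.sqrt (-(D₁ : ℝ)), 0] * (g₁ : Matrix (Fin 2) (Fin 2) ℝ))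
    (h₂ : (g₂ : Matrix (Fin 2) (Fin 2) ℝ) * Θ₂.map (↑) =
      !![0, Real.sqrt (-(D₂ : ℝ)); -Real.sqrt (-(D₂ : ℝ)), 0] * (g₂ : Matrix (Fin 2) (Fin 2) ℝ))
    (d₁ : DiscL (colL g₁) D₁) (d₂ : DiscL (colL g₂) D₂) (hs : 0 ≤ s) (hs' : s ^ 2 = D₁ * D₂)
    (hR : Bd R P) : ∃ (α β : ℂ) (B : ℤ), 0 ≤ B ∧
      Hm η.det (2 * R ^ 2) D₁ D₂ (colL g₁) (colL g₂) α β B ∧
      (∀ a b : ℚ, rl α β (frame_ph g₁ a b) =
        frame_ph g₂ (η 0 0 * a + η 0 1 * b) (η 1 0 * a + η 1 1 * b)) ∧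
      4 * B = -excW Θ₂ η Θ₁ - 2 * s * η.det ∧ (B = 0 → P 1 1 = P 0 0 ∧ P 1 0 = -P 0 1) := by
  obtain ⟨x₁, y₁, z₁, a1, a2, a3, a4⟩ := uhm_int h₁ d₁
  obtain ⟨x₂, y₂, z₂, b1, b2, b3, b4⟩ := uhm_int h₂ d₂
  have n₁ : (D₁ : ℝ) < 0 := by exact_mod_cast d₁.isD.1
  have n₂ : (D₂ : ℝ) < 0 := by exact_mod_cast d₂.isD.1
  have hsR : (s : ℝ) ^ 2 = D₁ * D₂ := by exact_mod_cast hs'
  have hs0 : (0 : ℝ) ≤ s := by exact_mod_cast hs
  have hsq : Real.sqrt (D₁ * D₂) = s := by rw [← hsR, Real.sqrt_sq hs0]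
  have hss : Real.sqrt (-(D₁ : ℝ)) * Real.sqrt (-(D₂ : ℝ)) = s := by
    rw [← Real.sqrt_mul (by linarith), neg_mul_neg, hsq]
  have hsp : (0 : ℝ) < s := by rw [← hsq]; exact Real.sqrt_pos.2 (mul_pos_of_neg_of_neg n₁ n₂)
  obtain ⟨k, hk⟩ := Int.even_mul_pred_self s
  obtain ⟨B, hB⟩ : ∃ B : ℤ, 4 * B = -excW Θ₂ η Θ₁ - 2 * s * η.det := by
    refine ⟨k * η.det - excW !![x₂, y₂; z₂, D₂ - x₂] η !![x₁, y₁; z₁, D₁ - x₁], ?_⟩
    rw [excW_eq, excW_eq, Matrix.det_fin_two, a1, a2, a3, a4, b1, b2, b3, b4]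
    simp only [Matrix.of_apply, Matrix.cons_val', Matrix.cons_val_zero, Matrix.cons_val_one,
      Matrix.cons_val_fin_one]
    linear_combination (-2 * (η 0 0 * η 1 1 - η 0 1 * η 1 0)) * hk +
      (2 * (η 0 0 * η 1 1 - η 0 1 * η 1 0)) * hs'
  have hdet : P.det = (η.det : ℝ) := by
    have e := congrArg Matrix.det h
    rw [Matrix.det_mul, Matrix.det_mul, g₁.det_coe, g₂.det_coe, mul_one, one_mul] at e
    rw [e, Matrix.det_fin_two, Matrix.det_fin_two]
    simp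
  have hW : ((excW Θ₂ η Θ₁ : ℤ) : ℝ) = excW (Θ₂.map (↑)) (η.map (↑)) (Θ₁.map (↑)) := by
    rw [excW_eq, excW_eq]
    simp only [Matrix.map_apply]
    push_cast
    ring
  have hr := exc_real (Real.sqrt (-(D₁ : ℝ))) (Real.sqrt (-(D₂ : ℝ))) P
  rw [← excW_conj g₁ g₂ h₁ h₂ h, ← hW, hss, hdet] at hr
  have hBR : (4 : ℝ) * B = s * ((P 0 0 - P 1 1) ^ 2 + (P 0 1 + P 1 0) ^ 2) := by
    have e := congrArg (fun z : ℤ => (z : ℝ)) hB
    simp only [Int.cast_mul, Int.cast_sub, Int.cast_neg, Int.cast_ofNat] at e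
    linear_combination e - hr
  have v₁ : vol (colL g₁) = 1 := exc2_vol g₁
  have v₂ : vol (colL g₂) = 1 := exc2_vol g₂
  have hb : ∀ i j, P i j ^ 2 ≤ R ^ 2 := fun i j => by
    have := hR i j
    rw [Real.norm_eq_abs] at this
    exact sq_le_sq' (abs_le.1 this).1 (abs_le.1 this).2
  refine ⟨_, _, B, ?_, ⟨fun z hz => ?_, ?_, ?_, ?_, ?_⟩, uhm_rl h, hB, fun h0 => ?_⟩
  · have : (0 : ℝ) ≤ 4 * B := by rw [hBR]; positivity
    have : (0 : ℝ) ≤ B := by linarith
    exact_mod_cast this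
  · obtain ⟨m, n, rfl⟩ := uhm_mem.1 hz
    rw [uhm_rl h]
    exact uhm_mem.2 ⟨η 0 0 * m + η 0 1 * n, η 1 0 * m + η 1 1 * n, by push_cast; rfl⟩
  · rw [v₁, v₂, hsq, Complex.normSq_mk]
    linear_combination (-1 / 4) * hBR
  · rw [v₁, v₂, Complex.normSq_mk, Complex.normSq_mk, ← hdet, Matrix.det_fin_two]
    ring
  · rw [v₁, v₂, Complex.normSq_mk]
    nlinarith [hb 0 0, hb 0 1, hb 1 0, hb 1 1, sq_nonneg (P 0 0 - P 1 1), sq_nonneg (P 0 1 + P 1 0)]
  · rw [v₁, v₂, Complex.normSq_mk]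
    nlinarith [hb 0 0, hb 0 1, hb 1 0, hb 1 1, sq_nonneg (P 0 0 + P 1 1), sq_nonneg (P 0 1 - P 1 0)]
  · rw [h0, Int.cast_zero, mul_zero, eq_comm, mul_eq_zero] at hBR
    have e := hBR.resolve_left hsp.ne'
    have e1 : P 0 0 - P 1 1 = 0 := by
      nlinarith [sq_nonneg (P 0 0 - P 1 1), sq_nonneg (P 0 1 + P 1 0)]
    have e2 : P 0 1 + P 1 0 = 0 := by
      nlinarith [sq_nonneg (P 0 0 - P 1 1), sq_nonneg (P 0 1 + P 1 0)]
    exact ⟨by linarith, by linarith⟩

end Pool.Agent.EQ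
end
end

-- part Pool.Agent.P.MP_ad7a55_nt.UJn
section

/-! Joinings of the rank two action. -/

set_option autoImplicit false

noncomputable section

open MeasureTheory Topology Filter UpperHalfPlane
open scoped MatrixGroups ENNReal BoundedContinuousFunction

namespace Pool.Agent.EQ

open ProbabilityTheory

variable (p q : ℕ) [Fact p.Prime] [Fact q.Prime] {κ : Type} [Fintype κ]

/-- Measures invariant under the two diagonal elements with invariant marginals. -/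
structure Jn (M : ℕ) (h : κ → SL(2, ℚ_[q])) (ν : Measure (κ → X3 p q)) : Prop where
  ne : p ≠ q
  pos : 0 < M
  prob : IsProbabilityMeasure ν
  a : al p q κ M ∈ Stab (κ → G3 p q) ν
  b : be p q h M ∈ Stab (κ → G3 p q) ν
  marg : ∀ k, ν.map (fun w => w k) = m3 p q

variable {p q} {M : ℕ} {h : κ → SL(2, ℚ_[q])} {ν : Measure (κ → X3 p q)}

theorem al_mul (s t : ℕ) : al p q κ (s * t) = al p q κ s ^ t := by
  funext k
  simp only [al, Pi.pow_apply, a3_mul]

theorem al_add (s t : ℕ) : al p q κ (s + t) = al p q κ s * al p q κ t := by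
  funext k
  simp only [al, Pi.mul_apply, a3_add]

theorem al_iter (s t : ℕ) (w : κ → X3 p q) :
    (fun w : κ → X3 p q => al p q κ s • w)^[t] w = al p q κ (s * t) • w := by
  rw [al_mul, smul_iterate_apply]

theorem al_be (h : κ → SL(2, ℚ_[q])) (s t : ℕ) :
    al p q κ s * be p q h t = be p q h t * al p q κ s := by
  funext k
  simp only [al, be, Pi.mul_apply, a3_b3]

theorem Jn.al_mem (H : Jn p q M h ν) (t : ℕ) : al p q κ (M * t) ∈ Stab (κ → G3 p q) ν := by
  rw [al_mul]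
  exact Subgroup.pow_mem _ H.a t

theorem Jn.sys (H : Jn p q M h ν) (t : ℕ) :
    Sys (fl3 p q κ) ν (MeasurableEquiv.smul (al p q κ (M * t))) ((p : ℚ_[p]) ^ (2 * (M * t)))
      (-(2 * (M * t) : ℕ)) := by
  refine ⟨mem_Stab.1 (H.al_mem t), ?_, fun v w => ?_⟩
  · rw [norm_pow, Padic.norm_p, zpow_neg, zpow_natCast, inv_pow]
  · change al p q κ (M * t) • fl3 p q κ v w =
      fl3 p q κ (((p : ℚ_[p]) ^ (2 * (M * t))) • v) (al p q κ (M * t) • w)
    rw [fl3_apply, fl3_apply]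
    funext k
    change a3 p q (M * t) • u3 p q (v k) • w k =
      u3 p q ((p : ℚ_[p]) ^ (2 * (M * t)) * v k) • a3 p q (M * t) • w k
    rw [← mul_smul, ← mul_smul, a3_u3]

theorem Jn.dat_a (H : Jn p q M h ν) : ∀ᵐ w ∂ν, ∀ t : ℕ,
    shD ((p : ℚ_[p]) ^ (2 * (M * t))) (-(2 * (M * t) : ℕ))
      (dat (fl3 p q κ) ν (al p q κ (M * t) • w)) = dat (fl3 p q κ) ν w := by
  have := H.prob
  exact ae_all_iff.2 fun t => (H.sys t).dat_eq

theorem ujn_shD_one {ι : Type} [Fintype ι] (δ : Dat p ι) : shD 1 0 δ = δ := by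
  funext k l c
  simp only [shD, add_zero, one_smul]

theorem Jn.dat_b (H : Jn p q M h ν) :
    ∀ᵐ w ∂ν, dat (fl3 p q κ) ν (be p q h M • w) = dat (fl3 p q κ) ν w := by
  have := H.prob
  have hs : Sys (fl3 p q κ) ν (MeasurableEquiv.smul (be p q h M)) (1 : ℚ_[p]) 0 := by
    refine ⟨mem_Stab.1 H.b, by simp, fun v w => ?_⟩
    change be p q h M • fl3 p q κ v w = fl3 p q κ ((1 : ℚ_[p]) • v) (be p q h M • w)
    rw [one_smul, fl3_apply, fl3_apply]
    funext k
    change b3 p q (h k) M • u3 p q (v k) • w k = u3 p q (v k) • b3 p q (h k) M • w k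
    rw [← mul_smul, ← mul_smul, b3_u3]
  filter_upwards [hs.dat_eq] with w hw
  rw [ujn_shD_one] at hw
  exact hw

theorem Jn.ae_al (H : Jn p q M h ν) {P : (κ → X3 p q) → Prop} (hP : ∀ᵐ w ∂ν, P w) :
    ∀ᵐ w ∂ν, ∀ t : ℕ, P (al p q κ (M * t) • w) := by
  refine ae_all_iff.2 fun t => ?_
  have h1 : ν.map (fun w => al p q κ (M * t) • w) = ν := mem_Stab.1 (H.al_mem t)
  rw [← h1] at hP
  exact ae_of_ae_map (measurable_const_smul _).aemeasurable hP

/-- The marginal of an invariant measure is invariant. -/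
theorem ujn_marg_inv {μ : Measure (κ → X3 p q)} {g : κ → G3 p q}
    (hg : g ∈ Stab (κ → G3 p q) μ) (k : κ) :
    (μ.map fun x => x k).map (fun x => g k • x) = μ.map fun x => x k := by
  have h1 : μ.map (fun w => g • w) = μ := mem_Stab.1 hg
  have hm : Measurable fun x : κ → X3 p q => x k := measurable_pi_apply k
  have hk : Measurable fun x : X3 p q => g k • x := measurable_const_smul _
  have hg' : Measurable fun w : κ → X3 p q => g • w := measurable_const_smul _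
  conv_rhs => rw [← h1]
  rw [Measure.map_map hk hm, Measure.map_map hm hg']
  rfl

theorem ujn_marg (H : Jn p q M h ν) (ρ : Kernel (κ → X3 p q) (κ → X3 p q)) [IsMarkovKernel ρ]
    (hb : ν.bind ρ = ν) {g : κ → G3 p q}
    (hg : ∀ k, Ergodic (fun x : X3 p q => g k • x) (m3 p q))
    (hi : ∀ᵐ w ∂ν, g ∈ Stab (κ → G3 p q) (ρ w)) :
    ∀ᵐ w ∂ν, ∀ k, (ρ w).map (fun x => x k) = m3 p q := by
  have := H.prob
  refine ae_all_iff.2 fun k => ?_
  have hm : Measurable fun x : κ → X3 p q => x k := measurable_pi_apply k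
  have : IsMarkovKernel (ρ.map fun x => x k) := Kernel.IsMarkovKernel.map ρ hm
  have h1 : ν.bind (ρ.map fun x => x k) = m3 p q := by
    rw [← Measure.map_comp ν ρ hm, hb, H.marg k]
  have h2 : ∀ᵐ w ∂ν, ((ρ.map fun x => x k) w).map (fun x => g k • x) =
      (ρ.map fun x => x k) w := by
    filter_upwards [hi] with w hw
    rw [Kernel.map_apply _ hm]
    exact ujn_marg_inv hw k
  filter_upwards [ae_eq_of_ergodic ν (hg k) (ρ.map fun x => x k) h1 h2] with w hw
  rwa [Kernel.map_apply _ hm] at hw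

theorem Jn.marg_a (H : Jn p q M h ν) (ρ : Kernel (κ → X3 p q) (κ → X3 p q)) [IsMarkovKernel ρ]
    (hb : ν.bind ρ = ν) (hi : ∀ᵐ w ∂ν, al p q κ M ∈ Stab (κ → G3 p q) (ρ w)) :
    ∀ᵐ w ∂ν, ∀ k, (ρ w).map (fun x => x k) = m3 p q :=
  ujn_marg H ρ hb (fun _ => erg_a3 H.ne H.pos) hi

theorem Jn.marg_b (H : Jn p q M h ν) (ρ : Kernel (κ → X3 p q) (κ → X3 p q)) [IsMarkovKernel ρ]
    (hb : ν.bind ρ = ν) (hi : ∀ᵐ w ∂ν, be p q h M ∈ Stab (κ → G3 p q) (ρ w)) :
    ∀ᵐ w ∂ν, ∀ k, (ρ w).map (fun x => x k) = m3 p q :=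
  ujn_marg H ρ hb (fun k => erg_b3 H.ne (h k) H.pos) hi

theorem ujn_cond_map {W : Type} [MeasurableSpace W] {μ : Measure W} {T : W → W}
    (hT : Measurable T) (hμ : μ.map T = μ) {A : Set W} (hA : MeasurableSet A)
    (ha : ∀ᵐ w ∂μ, T w ∈ A ↔ w ∈ A) :
    (ProbabilityTheory.cond μ A).map T = ProbabilityTheory.cond μ A := by
  have h1 : μ.restrict (T ⁻¹' A) = μ.restrict A := by
    refine Measure.restrict_congr_set ?_
    filter_upwards [ha] with w hw
    exact propext hw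
  have h2 : (μ.restrict A).map T = μ.restrict A := by
    conv_rhs => rw [← hμ]
    rw [Measure.restrict_map hT hA, h1]
  unfold ProbabilityTheory.cond
  rw [Measure.map_smul, h2]

theorem Jn.cond (H : Jn p q M h ν) {A : Set (κ → X3 p q)} (hA : MeasurableSet A) (h0 : ν A ≠ 0)
    (ha : ∀ᵐ w ∂ν, al p q κ M • w ∈ A ↔ w ∈ A) (hb : ∀ᵐ w ∂ν, be p q h M • w ∈ A ↔ w ∈ A) :
    Jn p q M h (ProbabilityTheory.cond ν A) := by
  have := H.prob
  have hP : IsProbabilityMeasure (ProbabilityTheory.cond ν A) := cond_isProbabilityMeasure h0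
  have h1 : al p q κ M ∈ Stab (κ → G3 p q) (ProbabilityTheory.cond ν A) :=
    mem_Stab.2 (ujn_cond_map (measurable_const_smul _) (mem_Stab.1 H.a) hA ha)
  have h2 : be p q h M ∈ Stab (κ → G3 p q) (ProbabilityTheory.cond ν A) :=
    mem_Stab.2 (ujn_cond_map (measurable_const_smul _) (mem_Stab.1 H.b) hA hb)
  refine ⟨H.ne, H.pos, hP, h1, h2, fun k => ?_⟩
  have hm : Measurable fun x : κ → X3 p q => x k := measurable_pi_apply k
  have : IsProbabilityMeasure ((ProbabilityTheory.cond ν A).map fun x => x k) :=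
    Measure.isProbabilityMeasure_map hm.aemeasurable
  refine eq_of_le_ergodic (erg_a3 H.ne H.pos) (ujn_marg_inv h1 k) ?_
  rw [← H.marg k]
  exact cond_absolutelyContinuous.map hm

theorem ujn_sub_inv (P : κ → Prop) [DecidablePred P] {g : κ → G3 p q}
    (hg : g ∈ Stab (κ → G3 p q) ν) :
    (fun k : {k // P k} => g k) ∈ Stab ({k // P k} → G3 p q)
      (ν.map fun w (k : {k // P k}) => w k) := by
  have hm : Measurable fun (w : κ → X3 p q) (k : {k // P k}) => w k :=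
    measurable_pi_lambda _ fun k => measurable_pi_apply _
  have h1 : ν.map (fun w => g • w) = ν := mem_Stab.1 hg
  rw [mem_Stab]
  conv_rhs => rw [← h1]
  rw [Measure.map_map (measurable_const_smul _) hm, Measure.map_map hm (measurable_const_smul _)]
  rfl

theorem Jn.sub (H : Jn p q M h ν) (P : κ → Prop) [DecidablePred P] :
    Jn p q M (fun k : {k // P k} => h k) (ν.map fun w (k : {k // P k}) => w k) := by
  have := H.prob
  have hm : Measurable fun (w : κ → X3 p q) (k : {k // P k}) => w k :=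
    measurable_pi_lambda _ fun k => measurable_pi_apply _
  refine ⟨H.ne, H.pos, Measure.isProbabilityMeasure_map hm.aemeasurable, ujn_sub_inv P H.a,
    ujn_sub_inv P H.b, fun k => ?_⟩
  rw [Measure.map_map (measurable_pi_apply k) hm]
  exact H.marg k

end Pool.Agent.EQ
end
end

-- part Pool.Agent.P.MP_ad7a55_nt.UMg
section

/-! A measure with few close pairs is the invariant measure. -/

set_option autoImplicit false

noncomputable section

open MeasureTheory Topology Filter UpperHalfPlane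
open scoped MatrixGroups ENNReal BoundedContinuousFunction Pointwise

namespace Pool.Agent.EQ

section general
variable {H : Type} [Group H] [TopologicalSpace H] [IsTopologicalGroup H] [PolishSpace H]
  [LocallyCompactSpace H] [MeasurableSpace H] [BorelSpace H] {Γ : Subgroup H}
  [IsClosed (Γ : Set H)]

theorem umg_ab (a θ : ℝ≥0∞) (h0 : θ ≠ 0) (ht : θ ≠ ∞) : a ≤ θ + θ⁻¹ * (a * a) := by
  rcases le_total a θ with h | h
  · exact h.trans le_self_add
  · refine le_trans ?_ le_add_self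
    calc a = θ⁻¹ * (θ * a) := by rw [← mul_assoc, ENNReal.inv_mul_cancel h0 ht, one_mul]
      _ ≤ θ⁻¹ * (a * a) := by gcongr

/-- the second moment estimate -/
theorem umg_est [BorelSpace (H ⧸ Γ)] [SecondCountableTopology (H ⧸ Γ)] (η : Measure H)
    [SigmaFinite η] [η.IsMulRightInvariant] (ν : Measure (H ⧸ Γ)) [IsFiniteMeasure ν]
    {s : H ⧸ Γ → H} (hs : IsSec s) {N M : Set H} (hN : MeasurableSet N) (hM : MeasurableSet M)
    (hν : ∀ᵐ x ∂ν, ∀ g ∈ N, g * s x ∈ M) {A : Set ((H ⧸ Γ) × (H ⧸ Γ))} (hA : MeasurableSet A)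
    (hNA : ∀ x, ∀ a ∈ N, ∀ b ∈ N, (x, (b⁻¹ * a) • x) ∈ A) {E : Set (H ⧸ Γ)} (hE : MeasurableSet E)
    {θ : ℝ≥0∞} (h0 : θ ≠ 0) (ht : θ ≠ ∞) :
    (η.restrict N).prod ν {w | w.1 • w.2 ∈ E} ≤
      θ * η (M ∩ {g | (g : H ⧸ Γ) ∈ E}) + θ⁻¹ * (η N * ν.prod ν A) := by
  have hmk : Measurable fun g : H => (g : H ⧸ Γ) := QuotientGroup.continuous_mk.measurable
  have hE' : MeasurableSet (M ∩ {g | (g : H ⧸ Γ) ∈ E}) := hM.inter (hmk hE)
  have hsm : Measurable fun w : H × (H ⧸ Γ) => w.1 • w.2 := continuous_smul.measurable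
  let f : H → H ⧸ Γ → ℝ≥0∞ := fun h x => N.indicator 1 (h * (s x)⁻¹)
  have hf : Measurable fun w : H × (H ⧸ Γ) => f w.1 w.2 :=
    (measurable_one.indicator hN).comp (measurable_fst.mul (hs.1.comp measurable_snd).inv)
  have hF : Measurable fun h => ∫⁻ x, f h x ∂ν := hf.lintegral_prod_right'
  have hsx : ∀ (g : H) (x : H ⧸ Γ), g • x = ((g * s x : H) : H ⧸ Γ) := fun g x => by
    conv_lhs => rw [← hs.2 x]
    rfl
  have h1 : (η.restrict N).prod ν {w | w.1 • w.2 ∈ E} ≤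
      ∫⁻ h, (M ∩ {g | (g : H ⧸ Γ) ∈ E}).indicator 1 h * ∫⁻ x, f h x ∂ν ∂η := by
    have hT : MeasurableSet {w : H × (H ⧸ Γ) | w.1 • w.2 ∈ E} := hsm hE
    rw [Measure.prod_apply_symm hT]
    calc _ ≤ ∫⁻ x, ∫⁻ h, (M ∩ {g | (g : H ⧸ Γ) ∈ E}).indicator 1 h * f h x ∂η ∂ν := by
          refine lintegral_mono_ae (hν.mono fun x hx => ?_)
          have hm : MeasurableSet ((fun g : H => (g, x)) ⁻¹' {w | w.1 • w.2 ∈ E}) :=
            measurable_prodMk_right hT
          rw [Measure.restrict_apply hm, ← measure_preimage_mul_right η (s x)⁻¹,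
            ← lintegral_indicator_one ((measurable_mul_const _) (hm.inter hN))]
          refine lintegral_mono fun h => ?_
          by_cases hh : h ∈ (fun h => h * (s x)⁻¹) ⁻¹'
              ((fun g : H => (g, x)) ⁻¹' {w | w.1 • w.2 ∈ E} ∩ N)
          · have e1 : h ∈ M ∩ {g | (g : H ⧸ Γ) ∈ E} := by
              refine ⟨by simpa using hx _ hh.2, ?_⟩
              have : (h * (s x)⁻¹) • x ∈ E := hh.1
              rwa [hsx, inv_mul_cancel_right] at this
            have e2 : h * (s x)⁻¹ ∈ N := hh.2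
            simp only [f, Set.indicator_of_mem hh, Set.indicator_of_mem e1,
              Set.indicator_of_mem e2, Pi.one_apply, mul_one, le_refl]
          · simp only [Set.indicator_of_notMem hh, zero_le]
      _ = ∫⁻ h, ∫⁻ x, (M ∩ {g | (g : H ⧸ Γ) ∈ E}).indicator 1 h * f h x ∂ν ∂η :=
          (lintegral_lintegral_swap
            (((measurable_one.indicator hE').comp measurable_fst).mul hf).aemeasurable).symm
      _ = _ := lintegral_congr fun h =>
          lintegral_const_mul _ (hf.comp measurable_prodMk_left)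
  have h2 : ∫⁻ h, (∫⁻ x, f h x ∂ν) * ∫⁻ x, f h x ∂ν ∂η ≤ η N * ν.prod ν A := by
    have hf2 : Measurable fun w : H × ((H ⧸ Γ) × (H ⧸ Γ)) => f w.1 w.2.1 * f w.1 w.2.2 :=
      (hf.comp (measurable_fst.prodMk measurable_snd.fst)).mul
        (hf.comp (measurable_fst.prodMk measurable_snd.snd))
    calc _ = ∫⁻ h, ∫⁻ w, f h w.1 * f h w.2 ∂ν.prod ν ∂η := lintegral_congr fun h =>
          (lintegral_prod_mul (hf.comp measurable_prodMk_left).aemeasurable
            (hf.comp measurable_prodMk_left).aemeasurable).symm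
      _ = ∫⁻ w, ∫⁻ h, f h w.1 * f h w.2 ∂η ∂ν.prod ν := lintegral_lintegral_swap hf2.aemeasurable
      _ ≤ ∫⁻ w, η N * A.indicator 1 w ∂ν.prod ν := by
          refine lintegral_mono fun w => ?_
          by_cases hw : w ∈ A
          · rw [Set.indicator_of_mem hw, Pi.one_apply, mul_one,
              ← measure_preimage_mul_right η (s w.1)⁻¹,
              ← lintegral_indicator_one ((measurable_mul_const _) hN)]
            refine lintegral_mono fun h => ?_
            calc f h w.1 * f h w.2 ≤ f h w.1 * 1 := by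
                  gcongr
                  exact Set.indicator_le_self' (fun _ _ => zero_le) _
              _ = _ := mul_one _
          · refine le_trans (le_of_eq ?_) zero_le
            refine (lintegral_congr fun h => ?_).trans lintegral_zero
            by_contra hne
            have e1 : h * (s w.1)⁻¹ ∈ N :=
              Set.mem_of_indicator_ne_zero (left_ne_zero_of_mul hne)
            have e2 : h * (s w.2)⁻¹ ∈ N :=
              Set.mem_of_indicator_ne_zero (right_ne_zero_of_mul hne)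
            have e3 := hNA w.1 _ e1 _ e2
            rw [hsx, mul_assoc, inv_mul_cancel_right, mul_inv_rev, inv_inv,
              inv_mul_cancel_right, hs.2] at e3
            exact hw e3
      _ = _ := by rw [lintegral_const_mul _ (measurable_one.indicator hA),
          lintegral_indicator_one hA]
  refine h1.trans (le_trans (lintegral_mono (g := fun h =>
    θ * (M ∩ {g | (g : H ⧸ Γ) ∈ E}).indicator 1 h +
      θ⁻¹ * ((∫⁻ x, f h x ∂ν) * ∫⁻ x, f h x ∂ν)) fun h => ?_) ?_)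
  · by_cases hh : h ∈ M ∩ {g | (g : H ⧸ Γ) ∈ E}
    · simp only [Set.indicator_of_mem hh, Pi.one_apply, one_mul, mul_one]
      exact umg_ab _ _ h0 ht
    · simp only [Set.indicator_of_notMem hh, zero_mul, zero_le]
  · rw [lintegral_add_left ((measurable_one.indicator hE').const_mul _),
      lintegral_const_mul _ (measurable_one.indicator hE'), lintegral_indicator_one hE',
      lintegral_const_mul _ (hF.fun_mul hF)]
    gcongr

theorem umg_open {W X : Type} [TopologicalSpace W] [PolishSpace W] [MeasurableSpace W]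
    [BorelSpace W] [TopologicalSpace X] [PolishSpace X] [MeasurableSpace X] [BorelSpace X]
    {L : Filter ℕ} [L.NeBot] {μ : ℕ → Measure W} {ν : Measure W}
    [∀ i, IsProbabilityMeasure (μ i)] [IsProbabilityMeasure ν] (h : WT L μ ν) (ρ : Measure X)
    [hρ : IsProbabilityMeasure ρ] {U : Set (W × X)} (hU : IsOpen U) {c : ℝ≥0∞}
    (hc : ∀ i, (μ i).prod ρ U ≤ c) : ν.prod ρ U ≤ c := by
  let ρ' : ProbabilityMeasure X := ⟨ρ, hρ⟩
  have h2 := (ProbabilityMeasure.continuous_prod.tendsto _).comp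
    ((weak_aux1 h).prodMk_nhds (tendsto_const_nhds (x := ρ')))
  have h1 : ν.prod ρ U ≤ L.liminf fun i => (μ i).prod ρ U :=
    ProbabilityMeasure.le_liminf_measure_open_of_tendsto h2 hU
  exact h1.trans (liminf_le_of_frequently_le' (Frequently.of_forall hc))

/-- the smoothing step in a general group -/
theorem umg_gen [BorelSpace (H ⧸ Γ)] [PolishSpace (H ⧸ Γ)] (hΓ : Disc Γ) (η : Measure H)
    [η.IsHaarMeasure] [η.IsMulRightInvariant] (μ : Measure (H ⧸ Γ)) [IsProbabilityMeasure μ]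
    {N : ℕ → Set H} (hN : ∀ j, IsCompact (N j)) (hanti : Antitone N) (hpos : ∀ j, η (N j) ≠ 0)
    {A : ℕ → Set ((H ⧸ Γ) × (H ⧸ Γ))} (hA : ∀ j, MeasurableSet (A j))
    (hNA : ∀ j x, ∀ a ∈ N j, ∀ b ∈ N j, (x, (b⁻¹ * a) • x) ∈ A j) {D : ℝ≥0∞} (hD : D ≠ ∞)
    (hAD : ∀ j, μ.prod μ (A j) ≤ D * η (N j)) :
    ∃ lam : Measure H, IsProbabilityMeasure lam ∧ (∀ᵐ z ∂lam, ∀ j, z ∈ N j) ∧
      ∀ E : Set (H ⧸ Γ), MeasurableSet E → η {g | (g : H ⧸ Γ) ∈ E} = 0 →
        lam.prod μ {w | w.1 • w.2 ∈ E} = 0 := by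
  have hNm : ∀ j, MeasurableSet (N j) := fun j => (hN j).measurableSet
  have hfin : ∀ j, η (N j) ≠ ∞ := fun j => (hN j).measure_lt_top.ne
  have hP : ∀ j, IsProbabilityMeasure (ProbabilityTheory.cond η (N j)) := fun j =>
    ProbabilityTheory.cond_isProbabilityMeasure_of_finite (hpos j) (hfin j)
  have hz : ∀ i j, i ≤ j → ProbabilityTheory.cond η (N j) (N i)ᶜ = 0 := fun i j hij => by
    rw [ProbabilityTheory.cond_apply (hNm j),
      Set.disjoint_iff_inter_eq_empty.1 (disjoint_compl_right.mono_left (hanti hij)),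
      measure_empty, mul_zero]
  obtain ⟨lam, hlam, hW⟩ := exists_WT (hyperfilter ℕ) Nat.hyperfilter_le_atTop
    (fun j => ProbabilityTheory.cond η (N j)) fun ε _ =>
      ⟨N 0, hN 0, Eventually.of_forall fun j => by rw [hz 0 j (Nat.zero_le j)]; exact zero_le⟩
  refine ⟨lam, hlam, ae_all_iff.2 fun i => ?_, fun E hE hE0 => ?_⟩
  · refine le_antisymm (hW.open_le (hN i).isClosed.isOpen_compl ?_) zero_le
    filter_upwards [Nat.hyperfilter_le_atTop (eventually_ge_atTop i)] with j hj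
    exact (hz i j hj).le
  obtain ⟨s, hs⟩ := exists_sec hΓ
  obtain ⟨K⟩ : Nonempty (CompactExhaustion H) := inferInstance
  have hmk : Measurable fun g : H => (g : H ⧸ Γ) := QuotientGroup.continuous_mk.measurable
  have hsm : Continuous fun w : H × (H ⧸ Γ) => w.1 • w.2 := continuous_smul
  have hSm : ∀ n, MeasurableSet (s ⁻¹' K n) := fun n => hs.1 (K.isCompact n).measurableSet
  have key : ∀ n, lam.prod (μ.restrict (s ⁻¹' K n)) {w | w.1 • w.2 ∈ E} = 0 := by
    intro n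
    by_cases h0 : μ (s ⁻¹' K n) = 0
    · rw [Measure.restrict_eq_zero.2 h0, Measure.prod_zero]
      rfl
    have := ProbabilityTheory.cond_isProbabilityMeasure (μ := μ) h0
    have hc : μ.restrict (s ⁻¹' K n) = μ (s ⁻¹' K n) • ProbabilityTheory.cond μ (s ⁻¹' K n) := by
      rw [ProbabilityTheory.cond, smul_smul, ENNReal.mul_inv_cancel h0 (measure_ne_top _ _),
        one_smul]
    rw [hc, Measure.prod_smul_right, Measure.smul_apply, smul_eq_mul]
    refine mul_eq_zero_of_right _ ?_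
    set ρ := ProbabilityTheory.cond μ (s ⁻¹' K n) with hρ
    obtain ⟨D', hD', hAD'⟩ : ∃ D' : ℝ≥0∞, D' ≠ ∞ ∧ ∀ j, ρ.prod ρ (A j) ≤ D' * η (N j) := by
      refine ⟨(μ (s ⁻¹' K n))⁻¹ * ((μ (s ⁻¹' K n))⁻¹ * D), ENNReal.mul_ne_top
        (ENNReal.inv_ne_top.2 h0) (ENNReal.mul_ne_top (ENNReal.inv_ne_top.2 h0) hD), fun j => ?_⟩
      rw [hρ, ProbabilityTheory.cond, Measure.prod_smul_left, Measure.prod_smul_right,
        Measure.prod_restrict, Measure.smul_apply, Measure.smul_apply, smul_eq_mul, smul_eq_mul,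
        mul_assoc, mul_assoc]
      gcongr
      exact (Measure.restrict_le_self _).trans (hAD j)
    have hM : IsCompact (N 0 * K n) := (hN 0).mul (K.isCompact n)
    have : IsFiniteMeasure (η.restrict (N 0 * K n)) := ⟨by simpa using hM.measure_lt_top⟩
    have hm' : ∀ O : Set (H ⧸ Γ), MeasurableSet O →
        (η.restrict (N 0 * K n)).map (fun g : H => (g : H ⧸ Γ)) O =
          η (N 0 * K n ∩ {g | (g : H ⧸ Γ) ∈ O}) := fun O hO => by
      rw [Measure.map_apply hmk hO, Measure.restrict_apply (hmk hO), Set.inter_comm]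
      rfl
    refine le_antisymm (ENNReal.le_of_forall_pos_le_add fun ε hε _ => ?_) zero_le
    rw [zero_add]
    have hε2 : (ε : ℝ≥0∞) / 2 ≠ 0 := (ENNReal.half_pos (by exact_mod_cast hε.ne')).ne'
    obtain ⟨σ, hσ, hσ'⟩ := ENNReal.exists_nnreal_pos_mul_lt hD' hε2
    have hσ0 : (σ : ℝ≥0∞) ≠ 0 := by exact_mod_cast hσ.ne'
    obtain ⟨O, hEO, hO, hO'⟩ := E.exists_isOpen_lt_of_lt
      (μ := (η.restrict (N 0 * K n)).map fun g : H => (g : H ⧸ Γ)) (σ * (ε / 2)) (by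
        rw [hm' E hE, measure_mono_null Set.inter_subset_right hE0]
        exact ENNReal.mul_pos hσ0 hε2)
    rw [hm' O hO.measurableSet] at hO'
    refine le_trans (measure_mono fun w hw => hEO hw)
      (umg_open hW ρ (hO.preimage hsm) fun j => ?_)
    have hθ0 : (σ : ℝ≥0∞)⁻¹ * η (N j) ≠ 0 :=
      mul_ne_zero (ENNReal.inv_ne_zero.2 ENNReal.coe_ne_top) (hpos j)
    have hθt : (σ : ℝ≥0∞)⁻¹ * η (N j) ≠ ∞ :=
      ENNReal.mul_ne_top (ENNReal.inv_ne_top.2 hσ0) (hfin j)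
    have hest := umg_est η ρ hs (hNm j) hM.measurableSet
      ((ProbabilityTheory.ae_cond_mem (hSm n)).mono fun x hx g hg =>
        Set.mul_mem_mul (hanti (Nat.zero_le j) hg) hx) (hA j) (hNA j) hO.measurableSet hθ0 hθt
    rw [ProbabilityTheory.cond, Measure.prod_smul_left, Measure.smul_apply, smul_eq_mul]
    refine le_trans (mul_le_mul_right hest _) ?_
    have hi : (η (N j))⁻¹ * η (N j) = 1 := ENNReal.inv_mul_cancel (hpos j) (hfin j)
    have hi' : (σ : ℝ≥0∞)⁻¹ * σ = 1 := ENNReal.inv_mul_cancel hσ0 ENNReal.coe_ne_top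
    rw [ENNReal.mul_inv (Or.inr (hfin j)) (Or.inr (hpos j)), inv_inv]
    calc _ ≤ (η (N j))⁻¹ * ((σ : ℝ≥0∞)⁻¹ * η (N j) * (σ * (ε / 2)) +
          σ * (η (N j))⁻¹ * (η (N j) * (D' * η (N j)))) := by
          gcongr
          exact hAD' j
      _ = ((η (N j))⁻¹ * η (N j)) * ((σ : ℝ≥0∞)⁻¹ * σ) * (ε / 2) +
          ((η (N j))⁻¹ * η (N j)) * ((η (N j))⁻¹ * η (N j)) * (σ * D') := by ring
      _ ≤ ε / 2 + ε / 2 := by
          rw [hi, hi', one_mul, one_mul, one_mul]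
          gcongr
      _ = ε := ENNReal.add_halves _
  have hcov : {w : H × (H ⧸ Γ) | w.1 • w.2 ∈ E} ⊆
      ⋃ n, {w : H × (H ⧸ Γ) | w.1 • w.2 ∈ E} ∩ Set.univ ×ˢ (s ⁻¹' K n) := fun w hw => by
    obtain ⟨n, hn⟩ := K.exists_mem (s w.2)
    exact Set.mem_iUnion.2 ⟨n, hw, trivial, hn⟩
  refine measure_mono_null hcov (measure_iUnion_null fun n => ?_)
  have hT : MeasurableSet {w : H × (H ⧸ Γ) | w.1 • w.2 ∈ E} := hsm.measurable hE
  rw [← Measure.restrict_apply hT, ← Measure.prod_restrict,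
    Measure.restrict_univ, key]

end general

variable {p q : ℕ} [Fact p.Prime] [Fact q.Prime]

theorem umg_conj {n : ℕ} {k : SL(2, ℚ_[p])} (hk : k ∈ KD p (2 * n)) :
    (aP p n).2 * k * (aP p n).2⁻¹ ∈ Kp p ∧
      ‖((aP p n).2 * k * (aP p n).2⁻¹) 0 1‖ ≤ (p : ℝ) ^ (-((4 * n : ℕ) : ℤ)) := by
  have hp : (p : ℚ_[p]) ≠ 0 := Nat.cast_ne_zero.2 (Fact.out : p.Prime).ne_zero
  have hp' : (0 : ℝ) < p := Nat.cast_pos.2 (Fact.out : p.Prime).pos
  have hP : ‖(p : ℚ_[p]) ^ n‖ = (p : ℝ) ^ (-(n : ℤ)) := Padic.norm_p_pow n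
  have hp1 : (1 : ℝ) ≤ p := by exact_mod_cast (Fact.out : p.Prime).one_le
  have e : ∀ i j, ((aP p n).2 * k * (aP p n).2⁻¹) i j =
      !![k 0 0, (p : ℚ_[p]) ^ n * (p : ℚ_[p]) ^ n * k 0 1;
        ((p : ℚ_[p]) ^ n)⁻¹ * ((p : ℚ_[p]) ^ n)⁻¹ * k 1 0, k 1 1] i j := by
    intro i j
    fin_cases i <;> fin_cases j <;>
      simp [aP, Matrix.mul_apply, Fin.sum_univ_two, Matrix.adjugate_fin_two, Matrix.vecMul,
        dotProduct] <;> field_simp
  have h01 : ‖(p : ℚ_[p]) ^ n * (p : ℚ_[p]) ^ n * k 0 1‖ ≤ (p : ℝ) ^ (-((4 * n : ℕ) : ℤ)) := by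
    rw [norm_mul, norm_mul, hP]
    refine (mul_le_mul_of_nonneg_left hk.2.1 (by positivity)).trans (le_of_eq ?_)
    rw [← zpow_add₀ hp'.ne', ← zpow_add₀ hp'.ne']
    congr 1
    push_cast
    ring
  have h10 : ‖((p : ℚ_[p]) ^ n)⁻¹ * ((p : ℚ_[p]) ^ n)⁻¹ * k 1 0‖ ≤ 1 := by
    rw [norm_mul, norm_mul, norm_inv, hP]
    refine (mul_le_mul_of_nonneg_left hk.2.2 (by positivity)).trans (le_of_eq ?_)
    rw [← zpow_neg, ← zpow_add₀ hp'.ne', ← zpow_add₀ hp'.ne', ← zpow_zero (p : ℝ)]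
    congr 1
    push_cast
    ring
  refine ⟨fun i j => ?_, by rw [e]; exact h01⟩
  rw [e]
  fin_cases i <;> fin_cases j
  · exact hk.1 0 0
  · exact h01.trans (zpow_le_one_of_nonpos₀ hp1 (by omega))
  · exact h10
  · exact hk.1 1 1

theorem umg_zero {t : ℕ} (ht : 0 < t) {x : ℚ_[p]}
    (h : ∀ j : ℕ, ‖x‖ ≤ (p : ℝ) ^ (-((2 * (t * j) : ℕ) : ℤ))) : x = 0 := by
  have hp1 : (1 : ℝ) < p := by exact_mod_cast (Fact.out : p.Prime).one_lt
  have h1 : Tendsto (fun j : ℕ => ((p : ℝ)⁻¹) ^ j) atTop (𝓝 0) :=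
    tendsto_pow_atTop_nhds_zero_of_lt_one (by positivity) (inv_lt_one_of_one_lt₀ hp1)
  refine norm_le_zero_iff.1 (ge_of_tendsto' h1 fun j => (h j).trans ?_)
  rw [inv_pow, ← zpow_natCast, ← zpow_neg]
  refine zpow_le_zpow_right₀ hp1.le ?_
  have : j ≤ 2 * (t * j) := by nlinarith
  omega

theorem umg_ent (i j : Fin 2) : ∀ᶠ g in 𝓝 (1 : SL(2, ℝ)), |g i j| < 2 := by
  have hc : Continuous fun g : SL(2, ℝ) => g.1 i j :=
    (continuous_apply j).comp ((continuous_apply i).comp continuous_subtype_val)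
  have h1 : |(1 : SL(2, ℝ)).1 i j| < 2 := by
    fin_cases i <;> fin_cases j <;> simp
  exact (continuous_abs.comp hc).continuousAt.eventually_lt continuousAt_const h1

theorem umg_cpt {A : Type} [Group A] [TopologicalSpace A] [IsTopologicalGroup A]
    [LocallyCompactSpace A] {P : A → Prop} (hP : ∀ᶠ g in 𝓝 (1 : A), P g) :
    ∃ B ∈ 𝓝 (1 : A), IsCompact B ∧ ∀ a ∈ B, ∀ b ∈ B, P (b⁻¹ * a) := by
  have h0 : Continuous fun w : A × A => w.2⁻¹ * w.1 := continuous_snd.inv.mul continuous_fst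
  have h1 : (fun w : A × A => w.2⁻¹ * w.1) ⁻¹' {g | P g} ∈ 𝓝 ((1, 1) : A × A) :=
    h0.continuousAt.preimage_mem_nhds (by rwa [inv_one, one_mul])
  rw [nhds_prod_eq] at h1
  obtain ⟨V, hV, hV'⟩ := mem_prod_self_iff.1 h1
  obtain ⟨B, hB1, hBV, hB⟩ := local_compact_nhds hV
  exact ⟨B, hB1, hB, fun a ha b hb => hV' (Set.mk_mem_prod (hBV ha) (hBV hb))⟩

theorem umg_nhd : ∃ B ∈ 𝓝 (1 : SL(2, ℝ)), IsCompact B ∧
    ∀ a ∈ B, ∀ b ∈ B, ∀ i j, |(b⁻¹ * a) i j| < 2 :=
  umg_cpt (P := fun g : SL(2, ℝ) => ∀ i j, |g i j| < 2)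
    (eventually_all.2 fun i => eventually_all.2 fun j => umg_ent i j)

/-- The smoothing step. -/
theorem mg_ac (hpq : p ≠ q) {t : ℕ} (ht : 0 < t) (μ : Measure (X3 p q)) [IsProbabilityMeasure μ]
    (ha : a3 p q t ∈ Stab (G3 p q) μ) {C : ℝ}
    (h : ∀ m : ℕ, μ.prod μ (Op p q m) ≤ ENNReal.ofReal (C * (p : ℝ) ^ (-(m : ℤ)))) :
    ∃ lam : Measure (G3 p q), IsProbabilityMeasure lam ∧
      (∀ᵐ z ∂lam, z * a3 p q t = a3 p q t * z) ∧
      (lam.prod μ).map (fun w => w.1 • w.2) ≪ m3 p q := by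
  have hp' : (0 : ℝ) < p := Nat.cast_pos.2 (Fact.out : p.Prime).pos
  have hp1 : (1 : ℝ) ≤ p := by exact_mod_cast (Fact.out : p.Prime).one_le
  obtain ⟨B, hB1, hB, hBB⟩ := umg_nhd
  let η₁ : Measure SL(2, ℝ) := Measure.haar
  let η₂ : Measure SL(2, ℚ_[p]) := Measure.haar
  let η₃ : Measure SL(2, ℚ_[q]) := Measure.haar
  let η : Measure (G3 p q) := (η₁.prod η₂).prod η₃
  have hη : η.IsHaarMeasure := Measure.prod.instIsHaarMeasure _ _
  have := unimod3 η
  obtain ⟨c, hc, hcK⟩ := haar_KD η₂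
  let N : ℕ → Set (G3 p q) := fun j => (B ×ˢ KD p (2 * (t * j))) ×ˢ (Kp q : Set SL(2, ℚ_[q]))
  have hηN : ∀ j, η (N j) = η₂ (KD p (2 * (t * j))) * (η₁ B * η₃ (Kp q)) := fun j => by
    simp only [η, N, Measure.prod_prod]
    ring
  have hc0 : η₁ B * η₃ (Kp q) ≠ 0 := mul_ne_zero (Measure.measure_pos_of_mem_nhds η₁ hB1).ne'
    ((Kp_open q).measure_ne_zero η₃ ⟨1, (Kp q).one_mem⟩)
  have hct : η₁ B * η₃ (Kp q) ≠ ∞ :=
    ENNReal.mul_ne_top hB.measure_lt_top.ne (Kp_compact q).measure_lt_top.ne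
  have hT : ∀ j, Continuous fun w : X3 p q × X3 p q =>
      (a3 p q (t * j) • w.1, a3 p q (t * j) • w.2) := fun j =>
    ((continuous_const_smul _).comp continuous_fst).prodMk
      ((continuous_const_smul _).comp continuous_snd)
  obtain ⟨lam, hlam, h1, h2⟩ := umg_gen (Γ := Gam3 p q) (fun _ => Gam3_finite p q) η μ (N := N)
    (fun j => (hB.prod (KD_compact _).1).prod (Kp_compact q))
    (fun i j hij z hz => by
      have hle : (p : ℝ) ^ (-((2 * (t * j) : ℕ) : ℤ)) ≤ (p : ℝ) ^ (-((2 * (t * i) : ℕ) : ℤ)) := by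
        refine zpow_le_zpow_right₀ hp1 ?_
        have : t * i ≤ t * j := Nat.mul_le_mul_left t hij
        omega
      exact ⟨⟨hz.1.1, hz.1.2.1, hz.1.2.2.1.trans hle, hz.1.2.2.2.trans hle⟩, hz.2⟩)
    (fun j => by
      rw [hηN]
      refine mul_ne_zero (ne_of_gt (lt_of_lt_of_le ?_ (hcK _))) hc0
      exact ENNReal.ofReal_pos.2 (by positivity))
    (A := fun j => (fun w : X3 p q × X3 p q => (a3 p q (t * j) • w.1, a3 p q (t * j) • w.2)) ⁻¹'
      Op p q (4 * (t * j)))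
    (fun j => ((isOpen_Op p q _).preimage (hT j)).measurableSet)
    (fun j x a ha b hb => by
      have hk := umg_conj (KD_inv_mul hb.1.2 ha.1.2)
      refine ⟨a3 p q (t * j) * (b⁻¹ * a) * (a3 p q (t * j))⁻¹, fun i k => ?_, hk.1, hk.2, ?_, ?_⟩
      · simpa [a3, aP] using hBB _ ha.1.1 _ hb.1.1 i k
      · simpa [a3] using (Kp q).mul_mem ((Kp q).inv_mem hb.2) ha.2
      · simp only [mul_smul, inv_smul_smul])
    (D := ENNReal.ofReal (|C| / c) * (η₁ B * η₃ (Kp q))⁻¹)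
    (ENNReal.mul_ne_top ENNReal.ofReal_ne_top (ENNReal.inv_ne_top.2 hc0))
    (fun j => by
      have hs : μ.map (fun x => a3 p q (t * j) • x) = μ := by
        rw [a3_mul]
        exact (Stab (G3 p q) μ).pow_mem ha j
      have hm : Measurable fun x : X3 p q => a3 p q (t * j) • x := measurable_const_smul _
      have e : (μ.prod μ).map (fun w : X3 p q × X3 p q =>
          (a3 p q (t * j) • w.1, a3 p q (t * j) • w.2)) = μ.prod μ := by
        have := Measure.map_prod_map μ μ hm hm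
        rw [hs] at this
        exact this.symm
      rw [← Measure.map_apply (hT j).measurable (isOpen_Op p q _).measurableSet, e, hηN]
      refine (h _).trans ?_
      calc _ ≤ ENNReal.ofReal (|C| / c) *
            ENNReal.ofReal (c * (p : ℝ) ^ (-(2 * ((2 * (t * j) : ℕ) : ℤ)))) := by
            rw [← ENNReal.ofReal_mul (by positivity), ← mul_assoc (|C| / c),
              div_mul_cancel₀ _ hc.ne']
            have e2 : (-(2 * ((2 * (t * j) : ℕ) : ℤ))) = -((4 * (t * j) : ℕ) : ℤ) := by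
              push_cast
              ring
            rw [e2]
            exact ENNReal.ofReal_le_ofReal
              (mul_le_mul_of_nonneg_right (le_abs_self C) (by positivity))
        _ ≤ ENNReal.ofReal (|C| / c) * η₂ (KD p (2 * (t * j))) := by
            gcongr
            exact hcK _
        _ = ENNReal.ofReal (|C| / c) * η₂ (KD p (2 * (t * j))) *
            ((η₁ B * η₃ (Kp q))⁻¹ * (η₁ B * η₃ (Kp q))) := by
            rw [ENNReal.inv_mul_cancel hc0 hct, mul_one]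
        _ = _ := by ring)
  refine ⟨lam, hlam, h1.mono fun z hz => ?_, Measure.AbsolutelyContinuous.mk fun E hE hE0 => ?_⟩
  · have e1 : z.1.2 0 1 = 0 := umg_zero ht fun j => (hz j).1.2.2.1
    have e2 : z.1.2 1 0 = 0 := umg_zero ht fun j => (hz j).1.2.2.2
    refine Prod.ext (Prod.ext (by simp [a3, aP]) ?_) (by simp [a3])
    change z.1.2 * (aP p t).2 = (aP p t).2 * z.1.2
    ext i j
    fin_cases i <;> fin_cases j <;>
      simp [aP, Matrix.mul_apply, Fin.sum_univ_two, e1, e2, mul_comm]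
  · rw [Measure.map_apply continuous_smul.measurable hE]
    exact h2 E hE (m3_null hpq η hE0)

theorem mg3 (hpq : p ≠ q) {t : ℕ} (ht : 0 < t) (μ : Measure (X3 p q)) [IsProbabilityMeasure μ]
    (ha : a3 p q t ∈ Stab (G3 p q) μ) {C : ℝ}
    (h : ∀ m : ℕ, μ.prod μ (Op p q m) ≤ ENNReal.ofReal (C * (p : ℝ) ^ (-(m : ℤ)))) :
    μ = m3 p q := by
  obtain ⟨lam, hlam, hz, hac⟩ := mg_ac hpq ht μ ha h
  have hsm : Measurable fun w : G3 p q × X3 p q => w.1 • w.2 := continuous_smul.measurable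
  have hm : ∀ g : G3 p q, Measurable fun x : X3 p q => g • x := fun g => measurable_const_smul g
  let κ : ProbabilityTheory.Kernel (G3 p q) (X3 p q) :=
    ⟨fun z => μ.map fun x => z • x, Measure.measurable_of_measurable_coe _ fun E hE => by
      simp only [Measure.map_apply (hm _) hE]
      exact measurable_measure_prodMk_left (hsm hE)⟩
  have hκ : ∀ z, κ z = μ.map fun x => z • x := fun _ => rfl
  have : ProbabilityTheory.IsMarkovKernel κ :=
    ⟨fun z => Measure.isProbabilityMeasure_map (hm z).aemeasurable⟩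
  have hb : lam.bind κ = (lam.prod μ).map fun w => w.1 • w.2 := by
    ext E hE
    rw [Measure.bind_apply hE κ.aemeasurable, Measure.map_apply hsm hE,
      Measure.prod_apply (hsm hE)]
    exact lintegral_congr fun z => by rw [hκ, Measure.map_apply (hm z) hE]; rfl
  have hi : ∀ᵐ z ∂lam, (κ z).map (fun x => a3 p q t • x) = κ z := hz.mono fun z hz => by
    have ha' : μ.map (fun x => a3 p q t • x) = μ := ha
    rw [hκ, Measure.map_map (hm _) (hm _)]
    conv_rhs => rw [← ha', Measure.map_map (hm _) (hm _)]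
    congr 1
    funext x
    simp only [Function.comp_apply, smul_smul, hz]
  have hinv : (lam.bind κ).map (fun x => a3 p q t • x) = lam.bind κ := by
    ext E hE
    rw [Measure.map_apply (hm _) hE, Measure.bind_apply hE κ.aemeasurable,
      Measure.bind_apply (hm _ hE) κ.aemeasurable]
    refine lintegral_congr_ae (hi.mono fun z hz => ?_)
    beta_reduce
    rw [← Measure.map_apply (hm _) hE, hz]
  have : IsProbabilityMeasure (lam.bind κ) := by
    rw [hb]
    exact Measure.isProbabilityMeasure_map hsm.aemeasurable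
  have he := eq_of_le_ergodic (erg_a3 hpq ht) hinv (hb ▸ hac)
  obtain ⟨z, hz'⟩ := (ae_eq_of_ergodic lam (erg_a3 hpq ht) κ he hi).exists
  rw [← m3_inv hpq z⁻¹, ← hz', hκ, Measure.map_map (hm _) (hm _)]
  have : ((fun x : X3 p q => z⁻¹ • x) ∘ fun x => z • x) = id := funext fun x => inv_smul_smul z x
  rw [this, Measure.map_id]

end Pool.Agent.EQ
end
end
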