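import Pool.Agent.K.MP_ad7a55_nt.C0

/-! Lifting measures from a quotient by a discrete subgroup. -/

set_option autoImplicit false

noncomputable section

open MeasureTheory Topology Filter UpperHalfPlane
open scoped MatrixGroups ENNReal BoundedContinuousFunction

namespace Pool.Agent.EQ

/-- The subgroup meets every compact set in a finite set. -/
def Disc {H : Type} [Group H] [TopologicalSpace H] (Γ : Subgroup H) : Prop :=
  ∀ C : Set H, IsCompact C → (C ∩ Γ).Finite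

variable {H : Type} [Group H] [TopologicalSpace H] [IsTopologicalGroup H] [PolishSpace H]
  [LocallyCompactSpace H] [MeasurableSpace H] [BorelSpace H] {Γ : Subgroup H}
  [IsClosed (Γ : Set H)] {Z : Type} [MeasurableSpace Z]

omit [IsTopologicalGroup H] [MeasurableSpace H] [BorelSpace H] [IsClosed (Γ : Set H)] in
theorem countable_lift (hΓ : Disc Γ) : Countable Γ := by
  obtain ⟨K⟩ : Nonempty (CompactExhaustion H) := inferInstance
  have h : (Γ : Set H).Countable := by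
    refine (Set.countable_iUnion fun n => (hΓ _ (K.isCompact n)).countable).mono ?_
    intro g hg
    obtain ⟨n, hn⟩ := K.exists_mem g
    exact Set.mem_iUnion.2 ⟨n, hn, hg⟩
  exact h.to_subtype

theorem Disc.countable (hΓ : Disc Γ) : Countable Γ := countable_lift hΓ

omit [MeasurableSpace H] [BorelSpace H] [IsClosed (Γ : Set H)] in
theorem exists_nhd_lift (hΓ : Disc Γ) : ∃ V : Set H, IsOpen V ∧ (1 : H) ∈ V ∧
    ∀ a ∈ V, ∀ b ∈ V, a⁻¹ * b ∈ Γ → a = b := by
  obtain ⟨C, hC, h1⟩ := exists_compact_mem_nhds (1 : H)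
  have hf : ((C ∩ Γ) \ {1}).Finite := (hΓ C hC).subset Set.sdiff_subset
  have hW : C ∩ ((C ∩ Γ) \ {1})ᶜ ∈ 𝓝 (1 : H) :=
    inter_mem h1 (hf.isClosed.isOpen_compl.mem_nhds (by simp))
  have hc : Continuous fun q : H × H => q.1⁻¹ * q.2 := by fun_prop
  have h2 : (fun q : H × H => q.1⁻¹ * q.2) ⁻¹' (C ∩ ((C ∩ Γ) \ {1})ᶜ) ∈ 𝓝 ((1, 1) : H × H) :=
    hc.continuousAt.preimage_mem_nhds (by simpa using hW)
  obtain ⟨A, hA, B, hB, hAB⟩ := mem_nhds_prod_iff.1 h2
  obtain ⟨V, hV, hVo, hV1⟩ := mem_nhds_iff.1 (inter_mem hA hB)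
  refine ⟨V, hVo, hV1, fun a ha b hb hab => ?_⟩
  have h3 := hAB (Set.mk_mem_prod (hV ha).1 (hV hb).2)
  have h4 : a⁻¹ * b = 1 := by
    by_contra h
    exact h3.2 ⟨⟨h3.1, hab⟩, h⟩
  exact inv_mul_eq_one.1 h4

omit [IsClosed (Γ : Set H)] in
theorem exists_fund_lift (hΓ : Disc Γ) : ∃ F : Set H, MeasurableSet F ∧
    (∀ g : H, ∃ γ : Γ, g * γ ∈ F) ∧ ∀ a ∈ F, ∀ b ∈ F, a⁻¹ * b ∈ Γ → a = b := by
  classical
  obtain ⟨V, hVo, hV1, hV⟩ := exists_nhd_lift hΓ
  obtain ⟨x, hx⟩ := TopologicalSpace.exists_dense_seq H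
  let U : ℕ → Set H := fun n => {g | (x n)⁻¹ * g ∈ V}
  have hUo : ∀ n, IsOpen (U n) := fun n => hVo.preimage (by fun_prop)
  let W : ℕ → Set H := fun n => ⋃ γ : Γ, {g | g * γ ∈ U n}
  have hWo : ∀ n, IsOpen (W n) := fun n =>
    isOpen_iUnion fun γ => (hUo n).preimage (by fun_prop)
  have hcov : ∀ g : H, ∃ n, g ∈ W n := by
    intro g
    have ho : IsOpen {y : H | y⁻¹ * g ∈ V} := hVo.preimage (by fun_prop)
    obtain ⟨n, hn⟩ := hx.exists_mem_open ho ⟨g, by simpa using hV1⟩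
    exact ⟨n, Set.mem_iUnion.2 ⟨1, by simpa [U] using hn⟩⟩
  have hWi : ∀ n, ∀ g : H, ∀ γ ∈ Γ, g ∈ W n → g * γ ∈ W n := by
    intro n g γ hγ hg
    obtain ⟨δ, hδ⟩ := Set.mem_iUnion.1 hg
    refine Set.mem_iUnion.2 ⟨⟨γ⁻¹ * δ, Γ.mul_mem (Γ.inv_mem hγ) δ.2⟩, ?_⟩
    simpa [mul_assoc] using hδ
  have hUW : ∀ n, U n ⊆ W n := fun n g hg => Set.mem_iUnion.2 ⟨1, by simpa using hg⟩
  refine ⟨⋃ n, U n \ ⋃ m ∈ {m | m < n}, W m, ?_, ?_, ?_⟩
  · exact MeasurableSet.iUnion fun n => (hUo n).measurableSet.diff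
      (isOpen_biUnion fun m _ => hWo m).measurableSet
  · intro g
    obtain ⟨γ, hγ⟩ := Set.mem_iUnion.1 (Nat.find_spec (hcov g))
    refine ⟨γ, Set.mem_iUnion.2 ⟨Nat.find (hcov g), hγ, fun h => ?_⟩⟩
    obtain ⟨m, hm, h'⟩ := Set.mem_iUnion₂.1 h
    have := hWi m _ _ (Γ.inv_mem γ.2) h'
    exact Nat.find_min (hcov g) hm (by simpa using this)
  · intro a ha b hb hab
    obtain ⟨n, hn, hn'⟩ := Set.mem_iUnion.1 ha
    obtain ⟨m, hm, hm'⟩ := Set.mem_iUnion.1 hb
    have hnm : n = m := by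
      rcases lt_trichotomy n m with h | h | h
      · exact absurd (Set.mem_iUnion₂.2 ⟨n, h, by simpa using hWi n a _ hab (hUW n hn)⟩) hm'
      · exact h
      · refine absurd (Set.mem_iUnion₂.2 ⟨m, h, ?_⟩) hn'
        simpa using hWi m b _ (Γ.inv_mem hab) (hUW m hm)
    subst hnm
    have := hV _ hn _ hm (by simpa [mul_assoc] using hab)
    exact mul_left_cancel this

/-- A measurable section of the quotient map. -/
def IsSec (s : H ⧸ Γ → H) : Prop := Measurable s ∧ ∀ x, (s x : H ⧸ Γ) = x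

theorem exists_sec (hΓ : Disc Γ) : ∃ s : H ⧸ Γ → H, IsSec s := by
  obtain ⟨F, hF, hex, huniq⟩ := exists_fund_lift hΓ
  have := hΓ.countable
  choose c hc using hex
  have hcm : Measurable c := by
    refine measurable_to_countable' fun γ => ?_
    have : c ⁻¹' {γ} = (fun g : H => g * γ) ⁻¹' F := by
      ext g
      simp only [Set.mem_preimage, Set.mem_singleton_iff]
      constructor
      · rintro rfl; exact hc g
      · intro h
        have := huniq _ (hc g) _ h (by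
          simpa [mul_assoc] using Γ.mul_mem (Γ.inv_mem (c g).2) γ.2)
        exact Subtype.ext (mul_left_cancel this)
    rw [this]
    exact (measurable_mul_const _) hF
  have ht : ∀ a b : H, a⁻¹ * b ∈ Γ → a * c a = b * c b := fun a b hab =>
    huniq _ (hc a) _ (hc b) (by
      simpa [mul_assoc] using Γ.mul_mem (Γ.inv_mem (c a).2) (Γ.mul_mem hab (c b).2))
  refine ⟨Quotient.lift (fun g : H => g * c g)
    fun a b hab => ht a b (QuotientGroup.leftRel_apply.1 hab), ?_, ?_⟩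
  · refine measurable_from_quotient.2 ?_
    exact measurable_id.mul (measurable_subtype_coe.comp hcm)
  · intro x
    induction x using QuotientGroup.induction_on with
    | H g => exact QuotientGroup.mk_mul_of_mem g (c g).2

/-- The lift of a measure: counting measure on the fibres. -/
def lift (s : H ⧸ Γ → H) (ρ : Measure ((H ⧸ Γ) × Z)) : Measure (H × Z) :=
  Measure.sum fun γ : Γ => ρ.map fun w => (s w.1 * γ, w.2)

omit [LocallyCompactSpace H] [IsClosed (Γ : Set H)] in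
theorem meas_lift {s : H ⧸ Γ → H} (hs : IsSec s) (γ : H) :
    Measurable fun w : (H ⧸ Γ) × Z => (s w.1 * γ, w.2) :=
  ((hs.1.comp measurable_fst).mul_const γ).prodMk measurable_snd

omit [TopologicalSpace H] [IsTopologicalGroup H] [PolishSpace H] [LocallyCompactSpace H]
  [MeasurableSpace H] [BorelSpace H] [IsClosed (Γ : Set H)] in
theorem tsum_fib_lift (f : H → ℝ≥0∞) {a b : H} (hab : (a : H ⧸ Γ) = b) :
    ∑' γ : Γ, f (a * γ) = ∑' γ : Γ, f (b * γ) := by
  have h : a⁻¹ * b ∈ Γ := QuotientGroup.eq.1 hab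
  rw [← (Equiv.mulLeft (⟨_, h⟩ : Γ)).tsum_eq]
  simp [mul_assoc]

omit [LocallyCompactSpace H] [IsClosed (Γ : Set H)] in
theorem meas_ind_lift {s : H ⧸ Γ → H} (hs : IsSec s) {E : Set (H × Z)} (hE : MeasurableSet E)
    (γ : Γ) : Measurable fun w : (H ⧸ Γ) × Z =>
      E.indicator (1 : H × Z → ℝ≥0∞) (s w.1 * γ, w.2) :=
  (measurable_one.indicator hE).comp (meas_lift hs (γ : H))

theorem lift_apply {s : H ⧸ Γ → H} (hΓ : Disc Γ) (hs : IsSec s) (ρ : Measure ((H ⧸ Γ) × Z))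
    {E : Set (H × Z)} (hE : MeasurableSet E) :
    lift s ρ E = ∫⁻ w, ∑' γ : Γ, E.indicator 1 (s w.1 * γ, w.2) ∂ρ := by
  have := hΓ.countable
  rw [lift, Measure.sum_apply _ hE, 
    lintegral_tsum fun γ => (meas_ind_lift hs hE γ).aemeasurable]
  refine tsum_congr fun γ => ?_
  rw [Measure.map_apply (meas_lift hs _) hE, ← lintegral_indicator_one (meas_lift hs _ hE)]
  rfl

theorem lift_left {s : H ⧸ Γ → H} (hΓ : Disc Γ) (hs : IsSec s) (ρ : Measure ((H ⧸ Γ) × Z))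
    (h : H) {T : Z → Z} (hT : Measurable T) :
    (lift s ρ).map (fun w => (h * w.1, T w.2)) = lift s (ρ.map fun w => (h • w.1, T w.2)) := by
  have := hΓ.countable
  have h1 : Measurable fun w : H × Z => (h * w.1, T w.2) :=
    (measurable_fst.const_mul h).prodMk (hT.comp measurable_snd)
  have h0 : Measurable fun x : H ⧸ Γ => h • x :=
    measurable_from_quotient.2 (measurable_quotient_mk''.comp (measurable_const_mul h))
  have h2 : Measurable fun w : (H ⧸ Γ) × Z => (h • w.1, T w.2) :=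
    (h0.comp measurable_fst).prodMk (hT.comp measurable_snd)
  ext E hE
  rw [Measure.map_apply h1 hE, lift_apply hΓ hs _ (h1 hE), lift_apply hΓ hs _ hE,
    lintegral_map (Measurable.tsum fun γ : Γ => meas_ind_lift hs hE γ) h2]
  refine lintegral_congr fun w => ?_
  have h3 : ((h * s w.1 : H) : H ⧸ Γ) = s (h • w.1) := by
    rw [hs.2, ← smul_eq_mul, ← MulAction.Quotient.smul_coe, hs.2]
  have h4 := tsum_fib_lift (fun g => E.indicator (1 : H × Z → ℝ≥0∞) (g, T w.2)) h3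
  refine Eq.trans (tsum_congr fun γ => ?_) h4
  rw [mul_assoc]
  rfl

theorem lift_right {s : H ⧸ Γ → H} (hΓ : Disc Γ) (hs : IsSec s) (ρ : Measure ((H ⧸ Γ) × Z))
    {γ : H} (hγ : γ ∈ Γ) : (lift s ρ).map (fun w => (w.1 * γ, w.2)) = lift s ρ := by
  have h1 : Measurable fun w : H × Z => (w.1 * γ, w.2) :=
    (measurable_fst.mul_const γ).prodMk measurable_snd
  ext E hE
  rw [Measure.map_apply h1 hE, lift_apply hΓ hs _ (h1 hE), lift_apply hΓ hs _ hE]
  refine lintegral_congr fun w => ?_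
  rw [← (Equiv.mulRight (⟨γ, hγ⟩ : Γ)).tsum_eq
    fun δ : Γ => E.indicator (1 : H × Z → ℝ≥0∞) (s w.1 * δ, w.2)]
  refine tsum_congr fun δ => ?_
  simp only [Equiv.coe_mulRight, Subgroup.coe_mul, ← mul_assoc]
  rfl

theorem lift_fin {s : H ⧸ Γ → H} (hΓ : Disc Γ) (hs : IsSec s) (ρ : Measure ((H ⧸ Γ) × Z))
    [IsFiniteMeasure ρ] {C : Set H} (hC : IsCompact C) : lift s ρ (C ×ˢ Set.univ) < ∞ := by
  classical
  have hE : MeasurableSet (C ×ˢ (Set.univ : Set Z)) :=
    hC.isClosed.measurableSet.prod MeasurableSet.univ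
  have hK : IsCompact ((fun q : H × H => q.1⁻¹ * q.2) '' (C ×ˢ C)) :=
    (hC.prod hC).image (by fun_prop)
  have hf : ((↑) ⁻¹' ((fun q : H × H => q.1⁻¹ * q.2) '' (C ×ˢ C)) : Set Γ).Finite := by
    refine Set.Finite.of_finite_image (f := ((↑) : Γ → H)) ((hΓ _ hK).subset ?_)
      Subtype.val_injective.injOn
    rintro _ ⟨γ, hγ, rfl⟩
    exact ⟨hγ, γ.2⟩
  have hb : ∀ w : (H ⧸ Γ) × Z, ∑' γ : Γ,
      (C ×ˢ (Set.univ : Set Z)).indicator (1 : H × Z → ℝ≥0∞) (s w.1 * γ, w.2) ≤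
        hf.toFinset.card := by
    intro w
    by_cases h : ∃ δ : Γ, s w.1 * δ ∈ C
    · obtain ⟨δ, hδ⟩ := h
      rw [tsum_fib_lift (fun g => (C ×ˢ (Set.univ : Set Z)).indicator (1 : H × Z → ℝ≥0∞) (g, w.2))
        (QuotientGroup.mk_mul_of_mem (s w.1) δ.2).symm,
        tsum_eq_sum (s := hf.toFinset)]
      · refine (Finset.sum_le_card_nsmul _ _ 1 fun γ _ => ?_).trans (by simp)
        exact Set.indicator_le_self _ _ _
      · intro γ hγ
        refine Set.indicator_of_notMem (fun h' => hγ ?_) _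
        rw [Set.Finite.mem_toFinset]
        exact ⟨(s w.1 * δ, s w.1 * δ * γ), ⟨hδ, h'.1⟩, inv_mul_cancel_left _ _⟩
    · rw [ENNReal.tsum_eq_zero.2 fun γ => Set.indicator_of_notMem (fun h' => h ⟨γ, h'.1⟩) _]
      exact zero_le
  rw [lift_apply hΓ hs _ hE]
  refine (lintegral_mono hb).trans_lt ?_
  rw [lintegral_const]
  exact ENNReal.mul_lt_top (ENNReal.natCast_lt_top _) (measure_lt_top _ _)

theorem lift_smul (s : H ⧸ Γ → H) (ρ : Measure ((H ⧸ Γ) × Z)) (c : ℝ≥0∞) :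
    lift s (c • ρ) = c • lift s ρ := by
  ext E hE
  simp only [lift, Measure.map_smul, Measure.smul_apply, Measure.sum_apply _ hE, smul_eq_mul,
    ENNReal.tsum_mul_left]

end Pool.Agent.EQ
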