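import Pool.Agent.K.MP_ad7a55_nt.C46
import Pool.Agent.K.MP_ad7a55_nt.C18
import Pool.Agent.K.MP_ad7a55_nt.C16
import Pool.Agent.K.MP_ad7a55_nt.C42
import Pool.Agent.K.MP_ad7a55_nt.C34
import Pool.Agent.K.MP_ad7a55_nt.C28
import Pool.Agent.K.MP_ad7a55_nt.C24

-- part Pool.Agent.P.MP_ad7a55_nt.VPt
section

/-! Points of the upper half plane attached to points of the covering space. -/

set_option autoImplicit false

noncomputable section

open MeasureTheory Topology Filter UpperHalfPlane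
open scoped MatrixGroups ENNReal BoundedContinuousFunction

namespace Pool.Agent.EQ

/-- Invariance under the principal congruence subgroup. -/
def GInv {β : Type} (N : ℕ) (f : ℍ → β) : Prop :=
  ∀ γ ∈ CongruenceSubgroup.Gamma N, ∀ τ : ℍ, f (γ • τ) = f τ

variable (p : ℕ) [Fact p.Prime] (N : ℕ)

open Classical in
def ptX (x : XN p N) : ℍ :=
  if h : ∃ g : GG p, g.2 ∈ KN p N ∧ (g : XN p N) = x then h.choose.1⁻¹ • UpperHalfPlane.I
  else UpperHalfPlane.I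

def pt (g : GG p) : ℍ := ptX p N (g : XN p N)

variable {p N} {β : Type} {f : ℍ → β}

theorem GInv.mono {N' : ℕ} (h : N ∣ N') (hf : GInv N f) : GInv N' f := by
  refine fun γ hγ τ => hf γ ?_ τ
  rw [CongruenceSubgroup.Gamma_mem] at hγ ⊢
  have e : ∀ x : ℤ, ZMod.castHom h (ZMod N) (x : ZMod N') = x := fun x => map_intCast _ x
  obtain ⟨h0, h1, h2, h3⟩ := hγ
  exact ⟨by rw [← e, h0, map_one], by rw [← e, h1, map_zero], by rw [← e, h2, map_zero],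
    by rw [← e, h3, map_one]⟩

theorem GInv.smul (hf : GInv N f) (γ : SL(2, ℤ)) : GInv N fun τ => f (γ • τ) := by
  intro δ hδ τ
  have h := hf _ ((CongruenceSubgroup.Gamma_normal N).conj_mem δ hδ γ) (γ • τ)
  rwa [mul_smul, mul_smul, inv_smul_smul] at h

theorem vpt_conj {ξ : MZ} (hξ : 0 < ξ.det) {γ : SL(2, ℤ)}
    (hγ : γ ∈ CongruenceSubgroup.Gamma (N * ξ.det.natAbs)) :
    ∃ γ' ∈ CongruenceSubgroup.Gamma N, ∀ τ : ℍ, act ξ (γ • τ) = γ' • act ξ τ := by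
  obtain ⟨γ', h1, h2⟩ := act_conj hξ N hγ
  refine ⟨γ', h1, fun τ => ?_⟩
  rw [← act_SL, ← act_SL, ← act_mul hξ (vact_SL_det γ), h2, act_mul (vact_SL_det γ') hξ]

theorem GInv.act (hf : GInv N f) {ξ : MZ} (hξ : 0 < ξ.det) :
    GInv (N * ξ.det.natAbs) fun τ => f (act ξ τ) := by
  intro γ hγ τ
  obtain ⟨γ', h1, h2⟩ := vpt_conj hξ hγ
  exact (congrArg f (h2 τ)).trans (hf γ' h1 _)

theorem pt_K (hN : 0 < N) {g : GG p} (hg : g.2 ∈ KN p N) :
    ∃ δ ∈ CongruenceSubgroup.Gamma N, pt p N g = δ • g.1⁻¹ • UpperHalfPlane.I := by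
  have h : ∃ g' : GG p, g'.2 ∈ KN p N ∧ (g' : XN p N) = (g : XN p N) := ⟨g, hg, rfl⟩
  obtain ⟨h1, h2⟩ := h.choose_spec
  obtain ⟨δ, hδ, e⟩ := int_of_GN hN (QuotientGroup.eq.1 h2)
    ((KN p N).mul_mem ((KN p N).inv_mem h1) hg)
  have h4 : h.choose.1⁻¹ * g.1 = toR δ := congrArg Prod.fst e
  refine ⟨δ, hδ, ?_⟩
  rw [pt, ptX, dif_pos h, ← toR_smul_proj, ← h4, ← mul_smul, mul_inv_cancel_right]

theorem GInv.pt_K (hN : 0 < N) (hf : GInv N f) {g : GG p} (hg : g.2 ∈ KN p N) :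
    f (pt p N g) = f (g.1⁻¹ • UpperHalfPlane.I) := by
  obtain ⟨δ, hδ, e⟩ := EQ.pt_K hN hg
  rw [e, hf δ hδ]

theorem pt_GN (g : GG p) {γ : GG p} (hγ : γ ∈ GN p N) : pt p N (g * γ) = pt p N g := by
  rw [pt, pt, QuotientGroup.mk_mul_of_mem g hγ]

theorem ptX_smul (a g : GG p) : ptX p N (a • (g : XN p N)) = pt p N (a * g) := rfl

theorem GInv.ptX_K (hN : 0 < N) (hf : GInv N f) {k : SL(2, ℚ_[p])} (hk : k ∈ KN p N)
    (x : XN p N) : f (ptX p N (((1, k) : GG p) • x)) = f (ptX p N x) := by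
  obtain ⟨g, hg, rfl⟩ := exists_repN hN x
  have h1 := hf.pt_K hN (g := (1, k) * g) ((KN p N).mul_mem hk hg)
  rw [Prod.fst_mul, one_mul] at h1
  exact h1.trans (hf.pt_K hN hg).symm

theorem GInv.continuous [TopologicalSpace β] (hN : 0 < N) (hf : GInv N f) (hc : Continuous f) :
    Continuous fun x => f (ptX p N x) := by
  have hU : IsOpen {g : GG p | g.2 ∈ KN p N} := (KN_open hN).preimage continuous_snd
  have hq : IsOpenQuotientMap
      (fun g : {g : GG p | g.2 ∈ KN p N} => ((g : GG p) : XN p N)) := by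
    refine ⟨fun x => ?_, QuotientGroup.continuous_mk.comp continuous_subtype_val,
      QuotientGroup.isOpenMap_coe.comp hU.isOpenMap_subtype_val⟩
    obtain ⟨g, h1, h2⟩ := exists_repN hN x
    exact ⟨⟨g, h1⟩, h2⟩
  rw [hq.isQuotientMap.continuous_iff]
  have : ((fun x => f (ptX p N x)) ∘
      fun g : {g : GG p | g.2 ∈ KN p N} => ((g : GG p) : XN p N)) =
      fun g : {g : GG p | g.2 ∈ KN p N} => f ((g : GG p).1⁻¹ • UpperHalfPlane.I) :=
    funext fun g => hf.pt_K hN g.2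
  rw [this]
  exact hc.comp ((continuous_fst.comp continuous_subtype_val).inv.smul continuous_const)

theorem vpt_piX {g : GG p} (hg : g.2 ∈ KN p N) :
    piX p (g : XX p) = jInv (g.1⁻¹ • UpperHalfPlane.I) := by
  rw [piX, toY_mk p hg.1, jY_mk]

theorem j_ptX (hN : 0 < N) (x : XN p N) : jInv (ptX p N x) = piX p (cov p N x) := by
  obtain ⟨g, hg, rfl⟩ := exists_repN hN x
  have hj : GInv N jInv := fun γ _ τ => jInv_smul γ τ
  exact (hj.pt_K hN hg).trans (vpt_piX hg).symm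

theorem GInv.pt_level (hN : 0 < N) (hf : GInv N f) {N' : ℕ} (hN' : 0 < N') (h : N ∣ N')
    (g : GG p) : f (pt p N' g) = f (pt p N g) := by
  obtain ⟨γ, hγ, hk⟩ := exists_GN hN' g
  rw [← pt_GN g hγ, ← pt_GN g (GN_mono h hN' hγ), (hf.mono h).pt_K hN' hk,
    hf.pt_K hN (KN_mono h hk)]

/-- Every point with the right invariant occurs in the fibre. -/
theorem exists_lift (hN : 0 < N) (g : GG p) {τ : ℍ} (h : jInv τ = piX p (g : XX p)) :
    ∃ γ ∈ Gam p, ∃ κ ∈ Kp p, ∃ δ ∈ CongruenceSubgroup.Gamma N,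
      pt p N ((1, κ) * (g * γ)) = δ • τ := by
  obtain ⟨γ, hγ, hk⟩ := exists_GN hN g
  rw [← QuotientGroup.mk_mul_of_mem g (GN_le p N hγ), vpt_piX hk] at h
  obtain ⟨ε, hε⟩ := jInv_inj h.symm
  have h2 : (((1, toP p ε * (g * γ).2⁻¹) : GG p) * (g * (γ * (toR ε⁻¹, toP p ε⁻¹)))).2 = 1 := by
    simp only [Prod.snd_mul, map_inv]
    group
  have h1 : (((1, toP p ε * (g * γ).2⁻¹) : GG p) * (g * (γ * (toR ε⁻¹, toP p ε⁻¹)))).1⁻¹ =
      toR ε * (g * γ).1⁻¹ := by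
    simp only [Prod.fst_mul, map_inv]
    group
  obtain ⟨δ, hδ, e⟩ := pt_K hN (h2.symm ▸ (KN p N).one_mem :
    (((1, toP p ε * (g * γ).2⁻¹) : GG p) * (g * (γ * (toR ε⁻¹, toP p ε⁻¹)))).2 ∈ KN p N)
  refine ⟨_, (Gam p).mul_mem (GN_le p N hγ) (int_mem_Gam p ε⁻¹), _,
    (Kp p).mul_mem (toP_mem_Kp p ε) ((Kp p).inv_mem hk.1), δ, hδ, ?_⟩
  rw [e, h1, mul_smul, toR_smul_proj, ← hε]

/-- One step of a chain of isogenies. -/
theorem pt_step (hN : 0 < N) {a : SL(2, ℚ_[p])}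
    (ha : Bd (p : ℝ) (a : Matrix (Fin 2) (Fin 2) ℚ_[p])) : ∃ ξ : MZ, ξ.det = (p : ℤ) ^ 2 ∧
      ∀ g : GG p, ∃ δ ∈ CongruenceSubgroup.Gamma N,
        pt p N ((1, a) * g) = δ • act ξ (pt p (N * p ^ 2) g) := by
  have hp : p.Prime := Fact.out
  have hN' : 0 < N * p ^ 2 := Nat.mul_pos hN (pow_pos hp.pos 2)
  have hpR : (p : ℝ) ≠ 0 := by exact_mod_cast hp.ne_zero
  obtain ⟨γ, hγ, hk⟩ := exists_GN hN ((1, a) : GG p)
  have hk' : a * γ.2 ∈ KN p N := hk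
  obtain ⟨q, hq, eq⟩ := (GN p N).inv_mem hγ
  have e2 : ∀ i j, (γ.2⁻¹ : SL(2, ℚ_[p])) i j = (q i j : ℚ_[p]) := fun i j => by
    rw [← Prod.snd_inv, ← eq]; rfl
  have e1 : ∀ i j, (γ.1⁻¹ : SL(2, ℝ)) i j = (q i j : ℝ) := fun i j => by
    rw [← Prod.fst_inv, ← eq]; rfl
  have hb := ha.K ((Kp p).inv_mem hk'.1) (Kp p).one_mem
  rw [← Matrix.SpecialLinearGroup.coe_mul, ← Matrix.SpecialLinearGroup.coe_mul, mul_one,
    mul_inv_rev, inv_mul_cancel_right] at hb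
  choose n hn using fun i j => grp_int p (x := ((p : ℤ) : ℚ) * q i j)
    ((inZp_int p p).mul (hq.1 i j)) (by
      push_cast
      rw [norm_mul, Padic.norm_p, ← e2, inv_mul_le_iff₀ (by exact_mod_cast hp.pos), mul_one]
      exact hb i j)
  have hd : (Matrix.of n).det = (p : ℤ) ^ 2 := by
    have h1 := q.det_coe
    rw [Matrix.det_fin_two] at h1 ⊢
    have h2 : ((n 0 0 * n 1 1 - n 0 1 * n 1 0 : ℤ) : ℚ) = (((p : ℤ) ^ 2 : ℤ) : ℚ) := by
      push_cast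
      rw [← hn, ← hn, ← hn, ← hn]
      push_cast
      linear_combination (p : ℚ) ^ 2 * h1
    exact_mod_cast h2
  have hr := act_real (ξ := Matrix.of n) (g := γ.1⁻¹) hpR fun i j => by
    rw [e1, Matrix.of_apply]
    exact_mod_cast (congrArg (fun x : ℚ => (x : ℝ)) (hn i j)).symm
  refine ⟨Matrix.of n, hd, fun g => ?_⟩
  obtain ⟨γ₁, hγ₁, hk₁⟩ := exists_GN hN' g
  have h3 := KN_conj_bd (s := 1) (N := N) (k := (g * γ₁).2) (a := a) (by rwa [mul_one])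
    (by rwa [pow_one])
  have h4 : ((1, a) * g * (γ₁ * γ) : GG p).2 = a * (g * γ₁).2 * a⁻¹ * (a * γ.2) := by
    simp only [Prod.snd_mul]
    group
  have h5 : ((1, a) * g * (γ₁ * γ) : GG p).1⁻¹ = γ.1⁻¹ * (g * γ₁).1⁻¹ := by
    simp only [Prod.fst_mul]
    group
  obtain ⟨δ₁, hδ₁, f1⟩ := pt_K hN (g := (1, a) * g * (γ₁ * γ))
    (by rw [h4]; exact (KN p N).mul_mem h3 hk')
  obtain ⟨δ₂, hδ₂, f2⟩ := pt_K hN' hk₁
  obtain ⟨δ₃, hδ₃, f3⟩ := vpt_conj (N := N) (hr UpperHalfPlane.I).1 (γ := δ₂) (by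
    rwa [hd, Int.natAbs_pow, Int.natAbs_natCast])
  refine ⟨δ₁ * δ₃⁻¹, mul_mem hδ₁ (inv_mem hδ₃), ?_⟩
  rw [← pt_GN _ ((GN p N).mul_mem (GN_mono (Dvd.intro _ rfl) hN' hγ₁) hγ), f1, h5,
    ← pt_GN g hγ₁, f2, f3, (hr _).2, mul_smul, mul_smul, inv_smul_smul]

end Pool.Agent.EQ
end
end

-- part Pool.Agent.P.MP_ad7a55_nt.XAb
section

/-! Hecke operators on modular functions of level N and reciprocity along isogenies. -/

set_option autoImplicit false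

noncomputable section

open MeasureTheory Topology Filter UpperHalfPlane
open scoped MatrixGroups BoundedContinuousFunction Matrix Classical

namespace Pool.Agent.EQ

variable {N : ℕ} {L : IntermediateField ℚ ℂ}

theorem QS.heck (hN : 0 < N) {h : ℍ → ℂ} (hf : QS N L h) {a d : ℕ} (ha : 0 < a) (hd : 0 < d)
    (w : ℕ → ℍ → ℍ) (hw : ∀ (b : ℕ) (τ : ℍ), (w b τ : ℂ) = (a * τ + N * b) / d) :
    QS N L fun τ => ∑ b ∈ Finset.range d, h (w b τ) := by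
  obtain ⟨c, hc, hc'⟩ := hf
  refine vqs_exp ha (c := fun r => d * c (d * r))
    (fun r => mul_mem (natCast_mem L d) (hc _)) fun τ => ?_
  have hd0 : (d : ℂ) ≠ 0 := Nat.cast_ne_zero.2 hd.ne'
  have hN0 : (N : ℂ) ≠ 0 := Nat.cast_ne_zero.2 hN.ne'
  have hζ := Complex.isPrimitiveRoot_exp d hd.ne'
  obtain ⟨ζ, eζ⟩ : ∃ ζ, ζ = Complex.exp (2 * Real.pi * Complex.I / d) := ⟨_, rfl⟩
  obtain ⟨x, hx⟩ : ∃ x, x = Complex.exp (2 * Real.pi * Complex.I * (a * τ) / (d * N)) := ⟨_, rfl⟩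
  have h1 : ∀ b : ℕ, qN N (w b τ) = x * ζ ^ b := fun b => by
    rw [qN, hw, hx, eζ, ← Complex.exp_nat_mul, ← Complex.exp_add]
    congr 1
    field_simp
  have h2 : x ^ d = qN N τ ^ a := by
    rw [qN, hx, ← Complex.exp_nat_mul, ← Complex.exp_nat_mul]
    congr 1
    field_simp
  rw [← eζ] at hζ
  have h3 := hasSum_sum (s := Finset.range d) fun (b : ℕ) _ => hc' (w b τ)
  have h4 : ∀ r, ∑ b ∈ Finset.range d, c r * qN N (w b τ) ^ r =
      c r * x ^ r * ∑ i : Fin d, (ζ ^ (i : ℕ)) ^ r := fun r => by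
    rw [Finset.mul_sum, Finset.sum_range]
    exact Finset.sum_congr rfl fun i _ => by rw [h1, mul_pow, mul_assoc]
  simp only [h4] at h3
  have hi : Function.Injective fun r : ℕ => d * r := mul_right_injective₀ hd.ne'
  have h5 := (hi.hasSum_iff fun r hr => by
    rw [intq_root_sum hζ fun ⟨k, hk⟩ => hr ⟨k, hk.symm⟩, mul_zero]).2 h3
  refine iq2_congr h5 fun r => ?_
  have h6 : ∀ i : Fin d, (ζ ^ (i : ℕ)) ^ (d * r) = 1 := fun i => by
    rw [← pow_mul, mul_left_comm, pow_mul, hζ.pow_eq_one, one_pow]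
  simp only [Function.comp_apply, h6, pow_mul x, h2, Finset.sum_const, Finset.card_univ,
    Fintype.card_fin, nsmul_eq_mul, mul_one]
  ring

theorem QS.heck' (hN : 0 < N) {g : ℍ → ℂ} {m : ℕ}
    (hf : QS N L fun τ => ModularForm.discriminant τ ^ m * g τ) {a d : ℕ} (ha : 0 < a)
    (hd : 0 < d) (w : ℕ → ℍ → ℍ) (hw : ∀ (b : ℕ) (τ : ℍ), (w b τ : ℂ) = (a * τ + N * b) / d) :
    QS N L fun τ => ModularForm.discriminant τ ^ (m * (a * d)) *
      ∑ b ∈ Finset.range d, g (w b τ) := by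
  have h1 : IntQ fun τ => ((1 : ℤ) : ℂ) / (ModularForm.discriminant τ / qq τ) :=
    (intQ_int 1).iq2_div intQ_disc_div iq2_disc_div_tendsto iq2_disc_div_ne
  obtain ⟨e, rfl⟩ : ∃ e, d = e + 1 := ⟨d - 1, by omega⟩
  have h2 : QS N L fun τ => qq τ ^ (m * (e + 1)) * g τ := by
    refine vmf_congr ((hf.mul hN ((h1.pow m).qs hN)).mul hN ((intQ_qq.pow (m * e)).qs hN))
      fun τ => ?_
    have h3 := ModularForm.discriminant_ne_zero τ
    have h4 : ModularForm.discriminant τ ^ m *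
        (((1 : ℤ) : ℂ) / (ModularForm.discriminant τ / qq τ)) ^ m = qq τ ^ m := by
      rw [← mul_pow, Int.cast_one, one_div_div, mul_div_cancel₀ _ h3]
    rw [mul_add, mul_one, pow_add, ← h4]
    ring
  have h5 := QS.heck hN h2 ha hd w hw
  have h6 : ∀ (b : ℕ) (τ : ℍ), qq (w b τ) ^ (m * (e + 1)) = qq τ ^ (m * a) := fun b τ => by
    have hd0 : ((e + 1 : ℕ) : ℂ) ≠ 0 := Nat.cast_ne_zero.2 hd.ne'
    rw [qq, qq, hw, ← Complex.exp_nat_mul, ← Complex.exp_nat_mul, Complex.exp_eq_exp_iff_exists_int]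
    refine ⟨(m * N * b : ℕ), ?_⟩
    rw [Nat.cast_mul m (e + 1)]
    field_simp
    push_cast
    ring
  refine vmf_congr ((((intQ_disc_div.pow (m * (a * (e + 1)))).qs hN).mul hN
    ((intQ_qq.pow (m * a * e)).qs hN)).mul hN h5) fun τ => ?_
  have h7 := iq2_qq_ne τ
  have h8 : ModularForm.discriminant τ ^ (m * (a * (e + 1))) =
      (ModularForm.discriminant τ / qq τ) ^ (m * (a * (e + 1))) * qq τ ^ (m * (a * (e + 1))) := by
    rw [← mul_pow, div_mul_cancel₀ _ h7]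
  simp only [h6]
  rw [← Finset.mul_sum, h8]
  ring

/-- A representative of the class of `h` congruent to `W`. -/
def lf (N : ℕ) (W h : M2) : M2 :=
  if e : ∃ γ : SL(2, ℤ), ∀ i j, (N : ℤ) ∣ ((γ : M2) * h - W) i j then (e.choose : M2) * h else h

/-- The Hecke operator. -/
def TW (N n : ℕ) (W : M2) (f : ℍ → ℂ) (τ : ℍ) : ℂ := ∑ h ∈ Hn n, f (act (lf N W h) τ)

variable {n : ℕ} {W η : M2} {f : ℍ → ℂ}

theorem lf_spec (hN : 0 < N) (hc : n.Coprime N) (hW : (N : ℤ) ∣ W.det - n) {h : M2}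
    (hh : h.det = n) :
    ∃ γ : SL(2, ℤ), lf N W h = (γ : M2) * h ∧ ∀ i j, (N : ℤ) ∣ (lf N W h - W) i j := by
  have e : ∃ γ : SL(2, ℤ), ∀ i j, (N : ℤ) ∣ ((γ : M2) * h - W) i j := by
    obtain ⟨u, z, hz⟩ : IsCoprime (n : ℤ) (N : ℤ) := Nat.isCoprime_iff_coprime.2 hc
    obtain ⟨k, hk⟩ := hW
    obtain ⟨γ, hγ⟩ := exists_lift_SL hN (W := u • (W * h.adjugate)) (by
      rw [Matrix.det_smul, Matrix.det_mul, xla_det_adj, Fintype.card_fin, hh]
      exact ⟨u ^ 2 * n * k - z * (u * n + 1), by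
        linear_combination u ^ 2 * n * hk + (u * n + 1) * hz⟩)
    obtain ⟨Y, hY⟩ := (xla_ex (X := (γ : M2) - u • (W * h.adjugate))).1 hγ
    refine ⟨γ, xla_ex.2 ⟨Y * h - z • W, ?_⟩⟩
    have e1 : u * h.det = 1 - N * z := by rw [hh]; linear_combination hz
    rw [sub_eq_iff_eq_add'] at hY
    rw [hY, add_mul, smul_mul_assoc, smul_mul_assoc, mul_assoc, Matrix.adjugate_mul,
      mul_smul_comm, mul_one, smul_smul, e1]
    module
  have e2 : lf N W h = (e.choose : M2) * h := by rw [lf, dif_pos e]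
  exact ⟨e.choose, e2, by rw [e2]; exact e.choose_spec⟩

theorem act_congr (hc : n.Coprime N) (hn : 0 < n) (hf : f ∈ MF N L) (hη : η.det = n)
    {γ : SL(2, ℤ)} (h : ∀ i j, (N : ℤ) ∣ ((γ : M2) * η - η) i j) (τ : ℍ) :
    f (act ((γ : M2) * η) τ) = f (act η τ) := by
  have hs : IsCoprime (n : ℤ) (N : ℤ) := Nat.isCoprime_iff_coprime.2 hc
  obtain ⟨Y, hY⟩ := xla_ex.1 h
  have h1 : (n : ℤ) • ((γ : M2) - 1) = (N : ℤ) • (Y * η.adjugate) := by
    rw [← smul_mul_assoc, ← hY, sub_mul, mul_assoc, Matrix.mul_adjugate, hη, mul_smul_comm,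
      mul_one, smul_sub]
  have h2 : Cg N ((γ : M2) * 1) 1 := fun i j => by
    rw [mul_one, one_smul]
    exact hs.symm.dvd_of_dvd_mul_left (xla_ex.2 ⟨_, h1⟩ i j)
  have h3 : Cg N (1 : M2) 1 := fun i j => by simp
  have h4 := Cg.gamma isCoprime_one_left h3 h2
  have h5 : 0 < η.det := by rw [hη]; exact_mod_cast hn
  rw [act_mul (vact_SL_det γ) h5, act_SL, MF.inv hf h4]

theorem xab_eq (hc : n.Coprime N) (hn : 0 < n) (hf : f ∈ MF N L) (hη : η.det = n)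
    {γ δ : SL(2, ℤ)} {X Y : M2} (hX : X = (γ : M2) * η) (hY : Y = (δ : M2) * η)
    (h1 : ∀ i j, (N : ℤ) ∣ (X - W) i j) (h2 : ∀ i j, (N : ℤ) ∣ (Y - W) i j) (τ : ℍ) :
    f (act X τ) = f (act Y τ) := by
  have e : X = ((γ * δ⁻¹ : SL(2, ℤ)) : M2) * Y := by
    rw [hX, hY, ← mul_assoc, ← Matrix.SpecialLinearGroup.coe_mul, inv_mul_cancel_right]
  have hd : Y.det = n := by rw [hY, Matrix.det_mul, δ.det_coe, one_mul, hη]
  have h3 : ∀ i j, (N : ℤ) ∣ (((γ * δ⁻¹ : SL(2, ℤ)) : M2) * Y - Y) i j := fun i j => by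
    have h4 := (h1 i j).sub (h2 i j)
    rw [← e]
    simpa only [Matrix.sub_apply, sub_sub_sub_cancel_right] using h4
  rw [e]
  exact act_congr hc hn hf hd h3 τ

theorem xab_det {X Y : M2} (h : ∀ i j, (N : ℤ) ∣ (X - Y) i j) : (N : ℤ) ∣ X.det - Y.det := by
  obtain ⟨Z, hZ⟩ := xla_ex.1 h
  rw [sub_eq_iff_eq_add'] at hZ
  rw [hZ, Matrix.det_fin_two, Matrix.det_fin_two]
  simp only [Matrix.add_apply, Matrix.smul_apply, smul_eq_mul]
  exact ⟨Y 0 0 * Z 1 1 + Z 0 0 * Y 1 1 + N * Z 0 0 * Z 1 1 - Y 0 1 * Z 1 0 - Z 0 1 * Y 1 0 -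
    N * Z 0 1 * Z 1 0, by ring⟩

theorem TW_smul (hN : 0 < N) (hn : 0 < n) (hc : n.Coprime N) (hW : (N : ℤ) ∣ W.det - n)
    (hf : f ∈ MF N L) (γ : SL(2, ℤ)) {W' : M2} (h : ∀ i j, (N : ℤ) ∣ (W * (γ : M2) - W') i j)
    (τ : ℍ) : TW N n W f (γ • τ) = TW N n W' f τ := by
  have hW' : (N : ℤ) ∣ W'.det - n := by
    have h1 := xab_det h
    rw [Matrix.det_mul, γ.det_coe, mul_one] at h1
    have h2 := hW.sub h1
    rwa [sub_sub_sub_cancel_left] at h2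
  have key : ∀ x : M2, x ∈ Hn n → ∃ (δ : SL(2, ℤ)) (y : M2), y ∈ Hn n ∧
      x * (γ : M2) = (δ : M2) * y := fun x hx => by
    obtain ⟨δ, y, hy, e⟩ := exists_Hn (η := x * (γ : M2)) hn (by
      rw [Matrix.det_mul, γ.det_coe, mul_one, (mem_Hn hx).2])
    exact ⟨δ, y, hy, e⟩
  choose! δ φ hφ e using key
  have hinj : Set.InjOn φ (Hn n : Set M2) := fun x hx y hy hxy => by
    refine Hn_unique (γ := δ x * (δ y)⁻¹) (Finset.mem_coe.1 hy) (Finset.mem_coe.1 hx) ?_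
    have e1 := e x (Finset.mem_coe.1 hx)
    have e2 := e y (Finset.mem_coe.1 hy)
    have e3 : ∀ z : M2, z = z * (γ : M2) * ((γ⁻¹ : SL(2, ℤ)) : M2) := fun z => by
      rw [mul_assoc, ← Matrix.SpecialLinearGroup.coe_mul, mul_inv_cancel,
        Matrix.SpecialLinearGroup.coe_one, mul_one]
    have e4 : ((δ x * (δ y)⁻¹ : SL(2, ℤ)) : M2) * (y * (γ : M2)) = x * (γ : M2) := by
      rw [e1, e2, ← mul_assoc, ← Matrix.SpecialLinearGroup.coe_mul, inv_mul_cancel_right, hxy]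
    refine (e3 x).trans ?_
    rw [← e4, mul_assoc, ← e3 y]
  have hmap : Set.MapsTo φ (Hn n : Set M2) (Hn n : Set M2) := fun x hx =>
    Finset.mem_coe.2 (hφ x (Finset.mem_coe.1 hx))
  have hsurj : Set.SurjOn φ (Hn n : Set M2) (Hn n : Set M2) :=
    Finset.surjOn_of_injOn_of_card_le φ hmap hinj le_rfl
  unfold TW
  refine Finset.sum_nbij φ hφ hinj hsurj fun x hx => ?_
  obtain ⟨α, a1, a2⟩ := lf_spec hN hc hW (mem_Hn hx).2
  obtain ⟨β, b1, b2⟩ := lf_spec hN hc hW' (mem_Hn (hφ x hx)).2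
  have hpos : 0 < (lf N W x).det := by
    rw [a1, Matrix.det_mul, α.det_coe, one_mul, (mem_Hn hx).2]
    exact_mod_cast hn
  rw [← act_SL γ τ, ← act_mul hpos (vact_SL_det γ)]
  refine xab_eq (W := W') (γ := α * δ x) hc hn hf (mem_Hn (hφ x hx)).2 ?_ b1 ?_ b2 τ
  · rw [a1, mul_assoc, e x hx, Matrix.SpecialLinearGroup.coe_mul, mul_assoc]
  · obtain ⟨Y, hY⟩ := xla_ex.1 a2
    obtain ⟨Z, hZ⟩ := xla_ex.1 h
    refine xla_ex.2 ⟨Y * (γ : M2) + Z, ?_⟩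
    rw [smul_add, ← smul_mul_assoc, ← hY, ← hZ, sub_mul, sub_add_sub_cancel]

theorem xab_sum {ι : Type} (s : Finset ι) {g : ι → ℍ → ℂ}
    (hg : ∀ i ∈ s, QS N L (g i)) : QS N L fun τ => ∑ i ∈ s, g i τ := by
  induction s using Finset.induction_on with
  | empty => simpa using qs_const (N := N) (zero_mem L)
  | insert i s hi ih =>
    simp only [Finset.sum_insert hi]
    exact (hg i (Finset.mem_insert_self i s)).add
      (ih fun k hk => hg k (Finset.mem_insert_of_mem hk))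

theorem xab_Hn (F : M2 → ℂ) : ∑ h ∈ Hn n, F h = ∑ p ∈ n.divisorsAntidiagonal,
    ∑ b ∈ Finset.range p.2, F !![(p.1 : ℤ), (b : ℤ); 0, (p.2 : ℤ)] := by
  rw [Finset.sum_sigma']
  symm
  refine Finset.sum_nbij (fun x => !![(x.1.1 : ℤ), (x.2 : ℤ); 0, (x.1.2 : ℤ)]) ?_ ?_ ?_
    fun _ _ => rfl
  · rintro ⟨⟨a, d⟩, b⟩ hx
    rw [Finset.mem_sigma, Nat.mem_divisorsAntidiagonal, Finset.mem_range] at hx
    exact xla_mem.2 ⟨a, b, d, hx.1.1, hx.1.2, hx.2, rfl⟩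
  · rintro ⟨⟨a, d⟩, b⟩ - ⟨⟨a', d'⟩, b'⟩ - hx
    have e00 : (a : ℤ) = a' := congrFun (congrFun hx 0) 0
    have e01 : (b : ℤ) = b' := congrFun (congrFun hx 0) 1
    have e11 : (d : ℤ) = d' := congrFun (congrFun hx 1) 1
    rw [Nat.cast_inj] at e00 e01 e11
    rw [e00, e01, e11]
  · intro h hh
    obtain ⟨a, b, d, h1, h2, h3, rfl⟩ := xla_mem.1 (Finset.mem_coe.1 hh)
    refine ⟨⟨(a, d), b⟩, Finset.mem_coe.2 ?_, rfl⟩
    rw [Finset.mem_sigma, Nat.mem_divisorsAntidiagonal, Finset.mem_range]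
    exact ⟨⟨h1, h2⟩, h3⟩

theorem xab_perm {d : ℕ} (hd : 0 < d) (hc : d.Coprime N) (F : ℕ → ℂ) :
    ∑ b ∈ Finset.range d, F (N * b % d) = ∑ b ∈ Finset.range d, F b := by
  have hmap : ∀ b ∈ Finset.range d, N * b % d ∈ Finset.range d := fun b _ =>
    Finset.mem_range.2 (Nat.mod_lt _ hd)
  have hinj : Set.InjOn (fun b => N * b % d) (Finset.range d : Set ℕ) := fun x hx y hy hxy => by
    have h1 : x ≡ y [MOD d] := Nat.ModEq.cancel_left_of_coprime hc hxy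
    exact Nat.ModEq.eq_of_lt_of_lt h1 (Finset.mem_range.1 (Finset.mem_coe.1 hx))
      (Finset.mem_range.1 (Finset.mem_coe.1 hy))
  exact Finset.sum_nbij _ hmap hinj (Finset.surjOn_of_injOn_of_card_le _
    (fun b hb => Finset.mem_coe.2 (hmap b (Finset.mem_coe.1 hb))) hinj le_rfl) fun _ _ => rfl

theorem xab_qs (hN : 0 < N) (hn : 0 < n) (hc : n.Coprime N) (hW : (N : ℤ) ∣ W.det - n)
    (hf : f ∈ MF N L) {m : ℕ}
    (hm : ∀ γ : SL(2, ℤ), QS N L fun τ => ModularForm.discriminant τ ^ m * f (γ • τ)) :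
    QS N L fun τ => ModularForm.discriminant τ ^ (m * n) * TW N n W f τ := by
  have key : ∀ p ∈ n.divisorsAntidiagonal, QS N L fun τ => ModularForm.discriminant τ ^ (m * n) *
      ∑ b ∈ Finset.range p.2, f (act (lf N W !![(p.1 : ℤ), (b : ℤ); 0, (p.2 : ℤ)]) τ) := by
    rintro ⟨a, d⟩ hp
    have had : a * d = n := (Nat.mem_divisorsAntidiagonal.1 hp).1
    have ha : 0 < a := Nat.pos_of_ne_zero fun h0 => hn.ne' (by rw [← had, h0, zero_mul])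
    have hd : 0 < d := Nat.pos_of_ne_zero fun h0 => hn.ne' (by rw [← had, h0, mul_zero])
    have hdet : ∀ b : ℤ, (!![(a : ℤ), b; 0, (d : ℤ)] : M2).det = n := fun b => by
      rw [Matrix.det_fin_two_of, ← had]
      push_cast
      ring
    have hpos : ∀ b : ℤ, 0 < (!![(a : ℤ), b; 0, (d : ℤ)] : M2).det := fun b => by
      rw [hdet]
      exact_mod_cast hn
    obtain ⟨γ, g1, g2⟩ := lf_spec hN hc hW (hdet 0)
    rw [g1] at g2
    have h1 := QS.heck' hN (hm γ) ha hd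
      (fun b τ => act !![(a : ℤ), ((N * b : ℕ) : ℤ); 0, (d : ℤ)] τ) fun b τ => by
        simp [coe_act (hpos _)]
    refine vmf_congr h1 fun τ => ?_
    rw [had, ← xab_perm hd (Nat.Coprime.coprime_dvd_left (Dvd.intro_left a had) hc)]
    refine congrArg _ (Finset.sum_congr rfl fun b _ => ?_)
    obtain ⟨β, b1, b2⟩ := lf_spec hN hc hW (hdet ((N * b % d : ℕ) : ℤ))
    let T : SL(2, ℤ) := ⟨!![1, ((N * b / d : ℕ) : ℤ); 0, 1], by rw [Matrix.det_fin_two_of]; ring⟩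
    have hT : (!![(a : ℤ), ((N * b : ℕ) : ℤ); 0, (d : ℤ)] : M2) =
        (T : M2) * !![(a : ℤ), ((N * b % d : ℕ) : ℤ); 0, (d : ℤ)] := by
      change _ = (!![1, ((N * b / d : ℕ) : ℤ); 0, 1] : M2) * _
      have h2 : ((N * b : ℕ) : ℤ) = ((N * b % d : ℕ) : ℤ) + ((N * b / d : ℕ) : ℤ) * d := by
        exact_mod_cast (Nat.mod_add_div' (N * b) d).symm
      generalize ((N * b : ℕ) : ℤ) = x at h2 ⊢
      generalize ((N * b % d : ℕ) : ℤ) = y at h2 ⊢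
      generalize ((N * b / d : ℕ) : ℤ) = z at h2 ⊢
      ext i j
      fin_cases i <;> fin_cases j <;> simp [Matrix.mul_apply, Fin.sum_univ_two, h2]
    rw [← act_SL γ, ← act_mul (vact_SL_det γ) (hpos _)]
    refine xab_eq (W := W) (δ := γ * T) hc hn hf (hdet _) b1 ?_ b2 ?_ τ
    · rw [hT, Matrix.SpecialLinearGroup.coe_mul, mul_assoc]
    · obtain ⟨Y, hY⟩ := xla_ex.1 g2
      have h3 : (!![(a : ℤ), ((N * b : ℕ) : ℤ); 0, (d : ℤ)] : M2) =
          !![(a : ℤ), 0; 0, (d : ℤ)] + (N : ℤ) • !![0, (b : ℤ); 0, 0] := by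
        ext i j
        fin_cases i <;> fin_cases j <;> simp
      refine xla_ex.2 ⟨Y + (γ : M2) * !![0, (b : ℤ); 0, 0], ?_⟩
      rw [h3, mul_add, mul_smul_comm, smul_add, ← hY, add_sub_right_comm]
  refine vmf_congr (xab_sum _ key) fun τ => ?_
  rw [TW, xab_Hn, Finset.mul_sum]

theorem TW_mem (hN : 0 < N) (hn : 0 < n) (hc : n.Coprime N) (hW : (N : ℤ) ∣ W.det - n)
    (hf : f ∈ MF N L) : TW N n W f ∈ MF N L := by
  obtain ⟨-, m, hm⟩ := isMF_iff.1 hf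
  refine vmf_mk (fun γ hγ τ => TW_smul hN hn hc hW hf γ ?_ τ) (m * n) fun γ => ?_
  · rw [CongruenceSubgroup.Gamma_mem] at hγ
    have h1 : ∀ i j, (N : ℤ) ∣ ((γ : M2) - 1) i j := fun i j => by
      rw [← ZMod.intCast_zmod_eq_zero_iff_dvd, Matrix.sub_apply, Int.cast_sub, sub_eq_zero]
      fin_cases i <;> fin_cases j
      · simpa using hγ.1
      · simpa using hγ.2.1
      · simpa using hγ.2.2.1
      · simpa using hγ.2.2.2
    obtain ⟨Y, hY⟩ := xla_ex.1 h1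
    refine xla_ex.2 ⟨W * Y, ?_⟩
    rw [← mul_smul_comm, ← hY, mul_sub, mul_one]
  · have h1 : (N : ℤ) ∣ (W * (γ : M2)).det - n := by
      rwa [Matrix.det_mul, γ.det_coe, mul_one]
    refine vmf_congr (xab_qs hN hn hc h1 hf hm) fun τ => ?_
    rw [TW_smul hN hn hc hW hf γ (W' := W * (γ : M2)) (fun i j => by simp) τ]

end Pool.Agent.EQ
end
end

-- part Pool.Agent.P.MP_ad7a55_nt.YGa
section

/-! The setting of the adaptive rigidity theorem. -/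

set_option autoImplicit false

noncomputable section

open Finset Matrix
open scoped MatrixGroups Classical

namespace Pool.Agent.EQ

theorem yga_sd (β β' : Finset ℕ) :
    (∏ l ∈ β, l) * ∏ l ∈ β', l = (∏ l ∈ β ∩ β', l) ^ 2 * ∏ l ∈ symmDiff β β', l := by
  have h1 : symmDiff β β' ∪ β ∩ β' = β ∪ β' := symmDiff_sup_inf β β'
  have h2 : Disjoint (symmDiff β β') (β ∩ β') := disjoint_symmDiff_inf β β'
  rw [← prod_union_inter, ← h1, prod_union h2]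
  ring

theorem yga_sd2 (β β' : Finset ℕ) :
    ∏ l ∈ symmDiff β β', l = (∏ l ∈ β \ β', l) * ∏ l ∈ β' \ β, l := by
  have h1 : symmDiff β β' = β \ β' ∪ β' \ β := rfl
  rw [h1, prod_union disjoint_sdiff_sdiff]

theorem yga_col {l : ℕ} {η : M2} (h : (l : ℤ) ∣ η.det) (w : V2) :
    η.adjugate *ᵥ w ∈ Ker l η ∧ η *ᵥ w ∈ Ker l η.adjugate := by
  constructor
  · intro i
    rw [Matrix.mulVec_mulVec, Matrix.mul_adjugate, Matrix.smul_mulVec, Matrix.one_mulVec]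
    exact h.mul_right _
  · intro i
    rw [Matrix.mulVec_mulVec, Matrix.adjugate_mul, Matrix.smul_mulVec, Matrix.one_mulVec]
    exact h.mul_right _

theorem yga_det {l : ℕ} {A : M2} (h : IsLn l (Ker l A)) : (l : ℤ) ∣ A.det := by
  obtain ⟨v, ⟨a, b, e⟩, hv⟩ := h
  have h1 : v ∈ Ker l A := by
    rw [hv]
    exact xlb_self l v
  have h2 : ∀ i, (l : ℤ) ∣ A.det * v i := fun i => by
    have h3 := xla_dvd_mulVec A.adjugate h1 i
    rwa [Matrix.mulVec_mulVec, Matrix.adjugate_mul, Matrix.smul_mulVec, Matrix.one_mulVec] at h3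
  have h4 : A.det = a * (A.det * v 0) + b * (A.det * v 1) := by linear_combination (-A.det) * e
  rw [h4]
  exact ((h2 0).mul_left _).add ((h2 1).mul_left _)

theorem yga_line {l : ℕ} (hl : l.Prime) {L L' : Set V2} (h : IsLn l L) (h' : IsLn l L') {u : V2}
    (hu : u ∈ L) (hu' : u ∈ L') {i : Fin 2} (hi : ¬ (l : ℤ) ∣ u i) : L = L' := by
  obtain ⟨v, hv, rfl⟩ := h
  obtain ⟨v', hv', rfl⟩ := h'
  have hp : xlb_Pm l u := xlb_of_primes fun l' hl' hll => by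
    obtain rfl := (Nat.prime_dvd_prime_iff_eq hl' hl).1 hll
    exact ⟨i, hi⟩
  rw [(xlb_of_cop l hv).eq hp hu, (xlb_of_cop l hv').eq hp hu']

theorem yga_sq {β : Finset ℕ} (hβ : ∀ l ∈ β, l.Prime) {l : ℕ} (hl : l ∈ β) :
    ¬ (l : ℤ) ^ 2 ∣ ((∏ l ∈ β, l : ℕ) : ℤ) := by
  intro h
  have h1 : l ^ 2 ∣ ∏ l ∈ β, l := by exact_mod_cast h
  rw [← mul_prod_erase β _ hl, sq] at h1
  have h2 := Nat.dvd_of_mul_dvd_mul_left (hβ l hl).pos h1
  obtain ⟨q, hq1, hq2⟩ := (Prime.dvd_finsetProd_iff (hβ l hl).prime _).1 h2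
  have h3 := (Nat.prime_dvd_prime_iff_eq (hβ l hl) (hβ q (mem_of_mem_erase hq1))).1 hq2
  exact (mem_erase.1 hq1).1 h3.symm

theorem yga_adj {η A A' : M2} (h : η * A = A' * η) (hd : η.det ≠ 0) :
    A'.adjugate * η = η * A.adjugate := by
  have h1 : A.adjugate * η.adjugate = η.adjugate * A'.adjugate := by
    rw [← Matrix.adjugate_mul_distrib, ← Matrix.adjugate_mul_distrib, h]
  refine xla_cancel hd ?_
  calc η.det • (A'.adjugate * η) = η * η.adjugate * A'.adjugate * η := by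
        rw [Matrix.mul_adjugate, smul_mul_assoc, one_mul, smul_mul_assoc]
    _ = η * A.adjugate * (η.adjugate * η) := by
        rw [mul_assoc η, ← h1]
        simp only [mul_assoc]
    _ = η.det • (η * A.adjugate) := by rw [Matrix.adjugate_mul, mul_smul_comm, mul_one]

theorem yga_kc {l : ℕ} (hl : l.Prime) {η A A' : M2} (h : η * A = A' * η) (h1 : (l : ℤ) ∣ η.det)
    (h2 : ¬ (l : ℤ) ^ 2 ∣ η.det) (hA : IsLn l (Ker l A)) (hA' : IsLn l (Ker l A'.adjugate))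
    (hk : Ker l η = Ker l A) : Ker l η.adjugate = Ker l A'.adjugate := by
  have hd : η.det ≠ 0 := fun e => h2 (e ▸ dvd_zero _)
  obtain ⟨i, j, hij⟩ := (isLn_Ker_prime hl h1 h2).prim hl.pos hl dvd_rfl
  refine yga_line hl (isLn_Ker_prime hl (by rwa [xla_det_adj]) (by rwa [xla_det_adj])) hA'
    (u := η *ᵥ Pi.single j 1) (yga_col h1 _).2 (fun k => ?_) (i := i) ?_
  · rw [Matrix.mulVec_mulVec, yga_adj h hd, ← Matrix.mulVec_mulVec]
    have h3 := (yga_col (yga_det hA) (Pi.single j 1)).1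
    rw [← hk] at h3
    exact h3 k
  · rwa [Matrix.mulVec_single_one]

theorem yga_bd {η η' : M2} {a b : ℝ} (h : ∀ i j, |(η i j : ℝ)| ≤ a)
    (h' : ∀ i j, |(η' i j : ℝ)| ≤ b) (i j : Fin 2) :
    |((η' * η.adjugate) i j : ℝ)| ≤ 2 * (a * b) := by
  have h2 : ∀ i j, |((η.adjugate i j : ℤ) : ℝ)| ≤ a := fun i j => by
    rw [Matrix.adjugate_fin_two]
    fin_cases i <;> fin_cases j
    · exact h 1 1
    · simpa using h 0 1
    · simpa using h 1 0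
    · exact h 0 0
  have h3 : ∀ k, |(η' i k : ℝ) * (η.adjugate k j : ℤ)| ≤ a * b := fun k => by
    rw [abs_mul, mul_comm a]
    exact mul_le_mul (h' i k) (h2 k j) (abs_nonneg _) ((abs_nonneg _).trans (h' i k))
  rw [Matrix.mul_apply, Fin.sum_univ_two, Int.cast_add, Int.cast_mul, Int.cast_mul]
  refine (abs_add_le _ _).trans ?_
  linarith [h3 0, h3 1]

theorem yga_box {Z : ℝ} (hZ : 0 ≤ Z) : ∃ T : Finset M2, (#T : ℝ) ≤ (2 * Z + 1) ^ 4 ∧
    ∀ η : M2, (∀ i j, |(η i j : ℝ)| ≤ Z) → η ∈ T := by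
  let B : ℕ := ⌊Z⌋₊
  have hB : (B : ℝ) ≤ Z := Nat.floor_le hZ
  let box : Finset (Fin 2 → Fin 2 → ℤ) :=
    Fintype.piFinset fun _ => Fintype.piFinset fun _ => Finset.Icc (-(B : ℤ)) B
  have hc : box.card = (2 * B + 1) ^ 4 := by
    have e : ((B : ℤ) + 1 - -(B : ℤ)).toNat = 2 * B + 1 := by omega
    simp only [box, Fintype.card_piFinset, Int.card_Icc, e, Finset.prod_const, Finset.card_univ,
      Fintype.card_fin]
    ring
  refine ⟨box.image fun g => Matrix.of g, ?_, fun η hη => ?_⟩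
  · have h9 : #(box.image fun g => (Matrix.of g : M2)) ≤ (2 * B + 1) ^ 4 :=
      hc ▸ Finset.card_image_le
    have h10 : (#(box.image fun g => (Matrix.of g : M2)) : ℝ) ≤ (2 * B + 1) ^ 4 := by
      exact_mod_cast h9
    refine h10.trans (pow_le_pow_left₀ (by positivity) ?_ 4)
    linarith
  · refine Finset.mem_image.2 ⟨fun i j => η i j, ?_, rfl⟩
    refine Fintype.mem_piFinset.2 fun i => Fintype.mem_piFinset.2 fun j => ?_
    have h7 : (((η i j).natAbs : ℕ) : ℝ) ≤ Z := by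
      rw [Nat.cast_natAbs, Int.cast_abs]
      exact hη i j
    have h8 : (η i j).natAbs ≤ B := Nat.le_floor h7
    rw [Finset.mem_Icc]
    omega

theorem yga_pos {κ : Type} {B : Finset κ} {p : κ → Prop} (h : 0 < prb B p) : ∃ q ∈ B, p q := by
  by_contra hc
  push Not at hc
  rw [prb, filter_eq_empty_iff.2 hc, card_empty, Nat.cast_zero, zero_div] at h
  exact lt_irrefl _ h

namespace RD

variable {α ι γ δ : Type} (d : RD α ι γ δ)

/-- The conjugate direction. -/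
def Kc (x : α) (c : ι) (l : ℕ) : Set V2 := Ker l (d.A x c).adjugate

/-- The matrix from `π β x` to `π β' x`. -/
def gm (β β' : Finset ℕ) (x : α) (c : ι) : M2 := d.η β' x c * (d.η β x c).adjugate

/-- Three points in the compact part. -/
def G2 (β β' : Finset ℕ) (x : α) : Prop := d.In x ∧ d.In (d.π β x) ∧ d.In (d.π β' x)

variable [Fintype ι]

structure Ok6 (y p : ℕ) (H Λ δ₀ : ℝ) (C₁ : ℕ) : Prop where
  ne : d.O.Nonempty
  prime : ∀ l ∈ d.P, l.Prime ∧ y < l ∧ l ≤ 2 * y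
  line : ∀ x ∈ d.O, ∀ c, ∀ l ∈ d.P, IsLn l (d.K x c l) ∧ IsLn l (d.Kc x c l)
  maps : ∀ β ⊆ d.P, #β ≤ p → ∀ x ∈ d.O, d.π β x ∈ d.O
  inj : ∀ β ⊆ d.P, #β ≤ p → Set.InjOn (d.π β) d.O
  det : ∀ β ⊆ d.P, #β ≤ p → ∀ x ∈ d.O, ∀ c, (d.η β x c).det = (∏ l ∈ β, l : ℕ)
  com : ∀ β ⊆ d.P, #β ≤ p → ∀ x ∈ d.O, ∀ c, d.η β x c * d.A x c = d.A (d.π β x) c * d.η β x c
  adm : ∀ β ⊆ d.P, #β ≤ p → ∀ x ∈ d.O, d.Gd β x → ∀ c, Adm H (d.K x c) β (d.η β x c)
  tight : prb d.O (fun x => ¬ d.In x) ≤ δ₀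
  lin : ∀ c, ∀ β ⊆ d.P, ∀ β' ⊆ d.P, Disjoint β β' → #β ≤ p → #β' ≤ p →
    (#{z ∈ d.O ×ˢ d.O | d.In z.1 ∧ d.In z.2 ∧ (∀ l ∈ β, d.Kc z.1 c l = d.Kc z.2 c l) ∧
      ∀ l ∈ β', d.K z.1 c l = d.K z.2 c l} : ℝ) ≤
      Λ / ((∏ l ∈ β, l : ℕ) * (∏ l ∈ β', l : ℕ)) * (#d.O : ℝ) ^ 2
  xc : ∀ k l, k ≠ l → ∀ β ⊆ d.P, #β ≤ p → ∀ Z : ℝ, 1 ≤ Z → Z ≤ (y : ℝ) ^ p →
    prb d.O (fun x => d.In x ∧ Xc Z (d.K x k) (d.K x l) β) ≤ Λ * Z ^ C₁ / (∏ l ∈ β, l : ℕ)

/-- A labelling that predicts the directions at the primes of `B`. -/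
def Lab (B : Finset ℕ) (σ I θ : ℝ) : Prop :=
  ∃ (Λ : Type) (Ω : Finset α) (lb : α → Λ) (R : Λ → ℕ → Finset (ι → Set V2)),
    (∀ x ∈ Ω, x ∈ d.O ∧ d.In x ∧ θ ≤ prb B fun q => d.dir q x ∈ R (lb x) q) ∧
      θ * #d.O ≤ #Ω ∧ (#(Ω.image lb) : ℝ) ≤ Real.exp I ∧
      ∀ a, ∀ q ∈ B, R a q ⊆ YQ ι q ∧ (#(R a q) : ℝ) ≤ (q : ℝ) ^ σ

/-- A set of triples with large intersections. -/
structure Big {L u : ℕ} (pr : Fin L → Fin u → ℕ) (B : Finset ℕ) (σ c s v t : ℝ)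
    (V : Finset (α × (Fin L → Fin u) × (Fin L → Fin u)))
    (R R' : ℕ → Finset (ι → Set V2)) : Prop where
  mem : ∀ w ∈ V, w.1 ∈ d.O ∧ d.G2 (bs pr w.2.1) (bs pr w.2.2) w.1
  card : v * #d.O * (u : ℝ) ^ L * (u : ℝ) ^ L ≤ #V
  typ : ∀ w ∈ V, ∀ k, prb d.O (fun x => d.G2 (bs pr w.2.1) (bs pr w.2.2) x ∧
    d.gm (bs pr w.2.1) (bs pr w.2.2) x k = d.gm (bs pr w.2.1) (bs pr w.2.2) w.1 k) ≤
    t / (∏ l ∈ symmDiff (bs pr w.2.1) (bs pr w.2.2), l : ℕ)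
  sz : ∀ q ∈ B, R q ⊆ YQ ι q ∧ R' q ⊆ YQ ι q ∧ (#(R q) : ℝ) ≤ (q : ℝ) ^ σ ∧
    (#(R' q) : ℝ) ≤ (q : ℝ) ^ σ
  lrg : ∀ w ∈ V, s ≤ prb B fun q => (q : ℝ) ^ (σ - c) ≤
    #{ξ ∈ R q | (fun k => img (d.gm (bs pr w.2.1) (bs pr w.2.2) w.1 k) (ξ k)) ∈ R' q}

/-- Groups of primes outside `B`. -/
structure Grp (p : ℕ) {L u : ℕ} (pr : Fin L → Fin u → ℕ) (B : Finset ℕ) : Prop where
  sub : B ⊆ d.P
  inj : Function.Injective fun z : Fin L × Fin u => pr z.1 z.2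
  mem : ∀ g i, pr g i ∈ d.P ∧ pr g i ∉ B
  le : L ≤ p
  pos : 0 < u

variable {d} {y p C₁ : ℕ} {H Λ δ₀ : ℝ} {β β' : Finset ℕ} {x : α}

theorem Grp.bs {L u : ℕ} {pr : Fin L → Fin u → ℕ} {B : Finset ℕ} (h : d.Grp p pr B)
    (b : Fin L → Fin u) : bs pr b ⊆ d.P ∧ #(bs pr b) = L ∧ #(bs pr b) ≤ p ∧ Disjoint (bs pr b) B := by
  have h1 : #(Pool.Agent.EQ.bs pr b) = L := by
    rw [Pool.Agent.EQ.bs, card_image_of_injective, card_univ, Fintype.card_fin]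
    intro g g' e
    exact congrArg Prod.fst (h.inj (a₁ := (g, b g)) (a₂ := (g', b g')) e)
  refine ⟨xgg_sub (fun g i => (h.mem g i).1) b, h1, h1.trans_le h.le, disjoint_left.2 fun l hl => ?_⟩
  obtain ⟨g, -, rfl⟩ := mem_image.1 hl
  exact (h.mem g _).2

theorem Ok6.card_le (h : d.Ok6 y p H Λ δ₀ C₁) : #d.P ≤ y := by
  have h1 : d.P ⊆ Ioc y (2 * y) := fun l hl => mem_Ioc.2 (h.prime l hl).2
  have h2 := card_le_card h1
  rw [Nat.card_Ioc] at h2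
  omega

theorem Ok6.dir_mem (h : d.Ok6 y p H Λ δ₀ C₁) {q : ℕ} (hq : q ∈ d.P) (hx : x ∈ d.O) :
    d.dir q x ∈ YQ ι q := by
  exact Fintype.mem_piFinset.2 fun c => (mem_Xn (h.prime q hq).1.pos).2 (h.line x hx c q hq).1

theorem Ok6.yga_cop (h : d.Ok6 y p H Λ δ₀ C₁) (hβ : β ⊆ d.P) (hp : #β ≤ p) (hx : x ∈ d.O)
    {q : ℕ} (hq : q ∈ d.P) (hq' : q ∉ β) (c : ι) : IsCoprime (d.η β x c).det (q : ℤ) := by
  rw [h.det β hβ hp x hx c]
  refine Nat.isCoprime_iff_coprime.2 (Nat.Coprime.prod_left fun l hl => ?_)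
  exact (Nat.coprime_primes (h.prime l (hβ hl)).1 (h.prime q hq).1).2 fun e => hq' (e ▸ hl)

theorem Ok6.yga_pos (h : d.Ok6 y p H Λ δ₀ C₁) (hβ : β ⊆ d.P) : 0 < ∏ l ∈ β, l :=
  prod_pos fun l hl => (h.prime l (hβ hl)).1.pos

theorem Ok6.dir_move (h : d.Ok6 y p H Λ δ₀ C₁) (hβ : β ⊆ d.P) (hp : #β ≤ p) (hx : x ∈ d.O)
    {q : ℕ} (hq : q ∈ d.P) (hq' : q ∉ β) :
    d.dir q (d.π β x) = fun c => img (d.η β x c) (d.dir q x c) := by
  funext c
  exact Set.ext fun v => (Ker_com (h.com β hβ hp x hx c) (h.yga_cop hβ hp hx hq hq' c) v).2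

theorem Ok6.gm_det (h : d.Ok6 y p H Λ δ₀ C₁) (hβ : β ⊆ d.P) (hp : #β ≤ p) (hβ' : β' ⊆ d.P)
    (hp' : #β' ≤ p) (hx : x ∈ d.O) (c : ι) :
    (d.gm β β' x c).det = ((∏ l ∈ β, l) * ∏ l ∈ β', l : ℕ) := by
  rw [gm, Matrix.det_mul, xla_det_adj, h.det β hβ hp x hx c, h.det β' hβ' hp' x hx c, Nat.cast_mul,
    mul_comm]

theorem Ok6.gm_div (h : d.Ok6 y p H Λ δ₀ C₁) (hβ : β ⊆ d.P) (hp : #β ≤ p) (hβ' : β' ⊆ d.P)
    (hp' : #β' ≤ p) (hx : x ∈ d.O) (hg : d.G2 β β' x) (c : ι) :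
    (∀ i j, |(d.gm β β' x c i j : ℝ)| ≤
      2 * H ^ 2 * Real.sqrt ((∏ l ∈ β, l) * ∏ l ∈ β', l : ℕ)) ∧
    ∃ g : M2, d.gm β β' x c = ((∏ l ∈ β ∩ β', l : ℕ) : ℤ) • g ∧
      g.det = (∏ l ∈ symmDiff β β', l : ℕ) ∧
      ∀ i j, |(g i j : ℝ)| ≤ 2 * H ^ 2 * Real.sqrt (∏ l ∈ symmDiff β β', l : ℕ) := by
  obtain ⟨a1, a2, a3⟩ := h.adm β hβ hp x hx ⟨hg.1, hg.2.1⟩ c
  obtain ⟨b1, b2, b3⟩ := h.adm β' hβ' hp' x hx ⟨hg.1, hg.2.2⟩ c
  have h1 : ∀ i j, |(d.gm β β' x c i j : ℝ)| ≤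
      2 * H ^ 2 * Real.sqrt ((∏ l ∈ β, l) * ∏ l ∈ β', l : ℕ) := fun i j => by
    refine (yga_bd a3 b3 i j).trans (le_of_eq ?_)
    rw [Nat.cast_mul, Real.sqrt_mul (Nat.cast_nonneg _)]
    ring
  refine ⟨h1, ?_⟩
  have hI : β ∩ β' ⊆ d.P := inter_subset_left.trans hβ
  have h2 : ∀ i j, ((∏ l ∈ β ∩ β', l : ℕ) : ℤ) ∣ d.gm β β' x c i j := fun i j => by
    have h3 : (d.η β x c).adjugate *ᵥ Pi.single j 1 ∈ Ker (∏ l ∈ β ∩ β', l) (d.η β' x c) := by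
      refine (mem_Ker_prod fun l hl => (h.prime l (hI hl)).1).2 fun l hl => ?_
      rw [b2 l (mem_inter.1 hl).2, ← a2 l (mem_inter.1 hl).1]
      refine (yga_col ?_ _).1
      rw [a1]
      exact Int.natCast_dvd_natCast.2 (dvd_prod_of_mem _ (mem_inter.1 hl).1)
    have h4 := h3 i
    rwa [Matrix.mulVec_mulVec, Matrix.mulVec_single_one] at h4
  obtain ⟨g, hg⟩ := xla_ex.1 h2
  have hm := h.yga_pos hI
  have hm' : ((∏ l ∈ β ∩ β', l : ℕ) : ℤ) ≠ 0 := by exact_mod_cast hm.ne'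
  refine ⟨g, hg, ?_, fun i j => ?_⟩
  · have h5 := h.gm_det hβ hp hβ' hp' hx c
    rw [hg, Matrix.det_smul, Fintype.card_fin, yga_sd, Nat.cast_mul, Nat.cast_pow] at h5
    exact mul_left_cancel₀ (pow_ne_zero 2 hm') h5
  · have h5 := h1 i j
    have hr : (0 : ℝ) < ((∏ l ∈ β ∩ β', l : ℕ) : ℝ) := by exact_mod_cast hm
    rw [hg, yga_sd, Nat.cast_mul, Nat.cast_pow, Real.sqrt_mul (by positivity),
      Real.sqrt_sq hr.le, Matrix.smul_apply, smul_eq_mul, Int.cast_mul, Int.cast_natCast, abs_mul,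
      abs_of_pos hr] at h5
    refine le_of_mul_le_mul_left (h5.trans (le_of_eq ?_)) hr
    ring

theorem Ok6.gm_ker (h : d.Ok6 y p H Λ δ₀ C₁) (hβ : β ⊆ d.P) (hp : #β ≤ p) (hβ' : β' ⊆ d.P)
    (hp' : #β' ≤ p) (hx : x ∈ d.O) (hg : d.G2 β β' x) (c : ι) :
    (∀ l ∈ β' \ β, Ker l (d.gm β β' x c) = d.K (d.π β x) c l) ∧
      ∀ l ∈ β \ β', Ker l (d.gm β β' x c) = d.Kc (d.π β x) c l := by
  obtain ⟨a1, a2, -⟩ := h.adm β hβ hp x hx ⟨hg.1, hg.2.1⟩ c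
  obtain ⟨-, b2, -⟩ := h.adm β' hβ' hp' x hx ⟨hg.1, hg.2.2⟩ c
  refine ⟨fun l hl => Set.ext fun v => ?_, fun l hl => ?_⟩
  · obtain ⟨h1, h2⟩ := mem_sdiff.1 hl
    rw [gm, mem_Ker_mul, b2 l h1]
    exact (Ker_com (h.com β hβ hp x hx c) (h.yga_cop hβ hp hx (hβ' h1) h2 c) v).2.symm
  · obtain ⟨h1, h2⟩ := mem_sdiff.1 hl
    rw [gm, Ker_cop (h.yga_cop hβ' hp' hx (hβ h1) h2 c)]
    refine yga_kc (h.prime l (hβ h1)).1 (h.com β hβ hp x hx c) ?_ ?_ (h.line x hx c l (hβ h1)).1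
      (h.line _ (h.maps β hβ hp x hx) c l (hβ h1)).2 (a2 l h1)
    · rw [a1]
      exact Int.natCast_dvd_natCast.2 (dvd_prod_of_mem _ h1)
    · rw [a1]
      exact yga_sq (fun l hl => (h.prime l (hβ hl)).1) h1

theorem Ok6.not_typ (h : d.Ok6 y p H Λ δ₀ C₁) (hβ : β ⊆ d.P) (hp : #β ≤ p) (hβ' : β' ⊆ d.P)
    (hp' : #β' ≤ p) (c : ι) {t : ℝ} (ht : 0 < t) :
    prb d.O (fun x => d.G2 β β' x ∧ t / (∏ l ∈ symmDiff β β', l : ℕ) <
      prb d.O fun x' => d.G2 β β' x' ∧ d.gm β β' x' c = d.gm β β' x c) ≤ Λ / t := by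
  have s1 : β \ β' ⊆ d.P := sdiff_subset.trans hβ
  have s2 : β' \ β ⊆ d.P := sdiff_subset.trans hβ'
  have hP : (0 : ℝ) < (∏ l ∈ symmDiff β β', l : ℕ) := by
    rw [yga_sd2]
    exact_mod_cast Nat.mul_pos (h.yga_pos s1) (h.yga_pos s2)
  have hO : (0 : ℝ) < (#d.O : ℝ) ^ 2 := by
    have := h.ne.card_pos
    positivity
  have h0 := h.lin c _ s1 _ s2 disjoint_sdiff_sdiff ((card_le_card sdiff_subset).trans hp)
    ((card_le_card sdiff_subset).trans hp')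
  rw [← Nat.cast_mul, ← yga_sd2] at h0
  have hs : 0 ≤ Λ / (∏ l ∈ symmDiff β β', l : ℕ) :=
    nonneg_of_mul_nonneg_left (le_trans (Nat.cast_nonneg _) h0) hO
  have h1 := atypical d.O (d.G2 β β') (fun x => d.gm β β' x c)
    (s := Λ / (∏ l ∈ symmDiff β β', l : ℕ)) (t := t / (∏ l ∈ symmDiff β β', l : ℕ))
    (le_trans (Nat.cast_le.2 (card_le_card_of_injOn
      (fun z : α × α => (d.π β z.1, d.π β z.2)) (fun z hz => ?_) fun z hz w hw e => ?_)) h0)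
    hs (by positivity)
  · rwa [div_div_div_cancel_right₀ hP.ne'] at h1
  · obtain ⟨z1, z2, z3, z4⟩ := (@mem_filter _ _ (_) _ _).1 (mem_coe.1 hz)
    obtain ⟨m1, m2⟩ := mem_product.1 z1
    have k1 := h.gm_ker hβ hp hβ' hp' m1 z2 c
    have k2 := h.gm_ker hβ hp hβ' hp' m2 z3 c
    refine mem_coe.2 (mem_filter.2 ⟨mem_product.2 ⟨h.maps β hβ hp _ m1, h.maps β hβ hp _ m2⟩,
      z2.2.1, z3.2.1, fun l hl => ?_, fun l hl => ?_⟩)
    · rw [← k1.2 l hl, ← k2.2 l hl, z4]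
    · rw [← k1.1 l hl, ← k2.1 l hl, z4]
  · obtain ⟨m1, m2⟩ := mem_product.1 ((@mem_filter _ _ (_) _ _).1 (mem_coe.1 hz)).1
    obtain ⟨n1, n2⟩ := mem_product.1 ((@mem_filter _ _ (_) _ _).1 (mem_coe.1 hw)).1
    exact Prod.ext (h.inj β hβ hp m1 n1 (congrArg Prod.fst e))
      (h.inj β hβ hp m2 n2 (congrArg Prod.snd e))

theorem Ok6.card_eta (h : d.Ok6 y p H Λ δ₀ C₁) (hH : 0 ≤ H) (hβ : β ⊆ d.P) (hp : #β ≤ p) :
    (#(({x ∈ d.O | d.Gd β x}).image (d.η β)) : ℝ) ≤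
      ((2 * H * Real.sqrt ((2 * y) ^ #β) + 1) ^ 4) ^ Fintype.card ι := by
  obtain ⟨T, hT, hT'⟩ := yga_box (Z := H * Real.sqrt ((2 * y) ^ #β)) (by positivity)
  have h1 : (({x ∈ d.O | d.Gd β x}).image (d.η β)) ⊆ Fintype.piFinset fun _ : ι => T := by
    refine image_subset_iff.2 fun x hx => Fintype.mem_piFinset.2 fun c => hT' _ fun i j => ?_
    obtain ⟨x1, x2⟩ := mem_filter.1 hx
    refine ((h.adm β hβ hp x x1 x2 c).2.2 i j).trans
      (mul_le_mul_of_nonneg_left (Real.sqrt_le_sqrt ?_) hH)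
    exact_mod_cast prod_le_pow_card β (fun l => l) (2 * y) fun l hl => (h.prime l (hβ hl)).2.2
  have h2 := card_le_card h1
  rw [Fintype.card_piFinset, prod_const, card_univ] at h2
  refine le_trans (Nat.cast_le.2 h2) ?_
  rw [Nat.cast_pow, mul_assoc]
  exact pow_le_pow_left₀ (by positivity) hT _

theorem Lab.mono {B : Finset ℕ} {σ σ' I I' θ θ' : ℝ} (h : d.Lab B σ I θ) (hB : ∀ q ∈ B, 0 < q)
    (h1 : σ ≤ σ') (h2 : I ≤ I') (h3 : θ' ≤ θ) : d.Lab B σ' I' θ' := by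
  obtain ⟨Λ, Ω, lb, R, a1, a2, a3, a4⟩ := h
  refine ⟨Λ, Ω, lb, R, fun x hx => ⟨(a1 x hx).1, (a1 x hx).2.1, h3.trans (a1 x hx).2.2⟩,
    (mul_le_mul_of_nonneg_right h3 (Nat.cast_nonneg _)).trans a2,
    a3.trans (Real.exp_le_exp.2 h2), fun a q hq => ⟨(a4 a q hq).1, (a4 a q hq).2.trans ?_⟩⟩
  exact Real.rpow_le_rpow_of_exponent_le (by exact_mod_cast hB q hq) h1

theorem Lab.false {B : Finset ℕ} {σ I θ : ℝ} (h : d.Lab B σ I θ) (hO : d.O.Nonempty)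
    (hB : ∀ q ∈ B, 1 < q) (hσ : σ < 0) (hθ : 0 < θ) : False := by
  obtain ⟨Λ, Ω, lb, R, a1, a2, -, a4⟩ := h
  have h1 : (0 : ℝ) < #Ω := lt_of_lt_of_le (mul_pos hθ (by exact_mod_cast hO.card_pos)) a2
  obtain ⟨x, hx⟩ := card_pos.1 (Nat.cast_pos.1 h1)
  obtain ⟨q, hq, h2⟩ := Pool.Agent.EQ.yga_pos (hθ.trans_le (a1 x hx).2.2)
  have h3 : (1 : ℝ) ≤ #(R (lb x) q) := by exact_mod_cast card_pos.2 ⟨_, h2⟩
  have h4 : (q : ℝ) ^ σ < 1 := Real.rpow_lt_one_of_one_lt_of_neg (by exact_mod_cast hB q hq) hσ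
  linarith [(a4 (lb x) q hq).2]

theorem Ok6.lab (h : d.Ok6 y p H Λ δ₀ C₁) {B : Finset ℕ} (hB : B ⊆ d.P) (hne : B.Nonempty)
    {σ I θ : ℝ} (hθ : 0 ≤ θ) (hI : (#(d.O.image d.C0) : ℝ) ≤ Real.exp I)
    (hA : ∀ q ∈ B, ∃ R : γ → Finset (ι → Set V2), (∀ a, (#(R a) : ℝ) ≤ (q : ℝ) ^ σ) ∧
      θ ≤ prb d.O fun x => d.In x ∧ d.dir q x ∈ R (d.C0 x)) : d.Lab B σ I (θ / 2) := by
  choose! R hR hE using hA
  refine ⟨γ, {x ∈ d.O | d.In x ∧ θ / 2 ≤ prb B fun q => d.dir q x ∈ R q (d.C0 x) ∩ YQ ι q}, d.C0,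
    fun a q => R q a ∩ YQ ι q, fun x hx => mem_filter.1 hx, ?_, le_trans ?_ hI, fun a q hq =>
      ⟨inter_subset_right, le_trans (Nat.cast_le.2 (card_le_card inter_subset_left)) (hR q hq a)⟩⟩
  · rcases hθ.eq_or_lt with h0 | h0
    · rw [← h0, zero_div, zero_mul]
      exact Nat.cast_nonneg _
    have h1 := pb_rev (O := d.O) (G := fun x => prb B fun q => d.In x ∧ d.dir q x ∈ R q (d.C0 x))
      one_pos (fun x _ => pb_le_one _ _) (half_pos h0).le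
    have h2 : θ ≤ mn d.O fun x => prb B fun q => d.In x ∧ d.dir q x ∈ R q (d.C0 x) := by
      simp only [pb_eq]
      rw [mn_swap]
      refine le_trans (mn_const hne θ).ge (mn_mono fun q hq => ?_)
      rw [← pb_eq]
      exact hE q hq
    have h3 : prb d.O (fun x => θ / 2 ≤ prb B fun q => d.In x ∧ d.dir q x ∈ R q (d.C0 x)) ≤
        prb d.O fun x => d.In x ∧ θ / 2 ≤ prb B fun q => d.dir q x ∈ R q (d.C0 x) ∩ YQ ι q := by
      refine pb_mono fun x hx k => ?_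
      obtain ⟨q, -, k1, -⟩ := Pool.Agent.EQ.yga_pos ((half_pos h0).trans_le k)
      exact ⟨k1, k.trans (pb_mono fun q hq k2 => mem_inter.2 ⟨k2.2, h.dir_mem (hB hq) hx⟩)⟩
    have h4 : θ / 2 ≤ prb d.O
        fun x => d.In x ∧ θ / 2 ≤ prb B fun q => d.dir q x ∈ R q (d.C0 x) ∩ YQ ι q := by
      rw [div_one] at h1
      linarith
    rw [prb, le_div_iff₀ (by exact_mod_cast h.ne.card_pos)] at h4
    refine h4.trans (le_of_eq ?_)
    exact congrArg _ (congrArg _ (Finset.ext fun x => by simp only [mem_filter]))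
  · exact_mod_cast card_le_card (image_subset_image (filter_subset _ _))

end RD

end Pool.Agent.EQ
end
end

-- part Pool.Agent.P.MP_ad7a55_nt.YGb
section

/-! The group lemma for sets of lines. -/

set_option autoImplicit false

noncomputable section

open Finset Matrix
open scoped MatrixGroups Classical

namespace Pool.Agent.EQ

/-- The group lemma for sets of density `q ^ (-c₀)`. -/
def GLQ (ι : Type) [Fintype ι] (c₀ c e : ℝ) (q₀ : ℕ) : Prop :=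
  ∀ q : ℕ, q.Prime → q₀ ≤ q → ∀ (W : Type) (V : Finset W) (η : W → ι → M2) (n : W → ℤ)
    (R R' : Finset (ι → Set V2)) (σ : ℝ), V.Nonempty →
    (∀ w ∈ V, ¬ (q : ℤ) ∣ n w ∧ ∀ k, (η w k).det = n w) → R ⊆ YQ ι q → R' ⊆ YQ ι q →
    (#R : ℝ) ≤ (q : ℝ) ^ σ → (#R' : ℝ) ≤ (q : ℝ) ^ σ → σ ≤ Fintype.card ι - c₀ →
    (q : ℝ) ^ (-c) ≤ prb V (fun w =>
      (∀ k, (prb V fun w' => Pj q (η w' k) = Pj q (η w k)) ≤ (q : ℝ) ^ (c - 3)) ∧
        (q : ℝ) ^ (σ - c) ≤ #{ξ ∈ R | (fun k => img (η w k) (ξ k)) ∈ R'}) →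
    ∃ k l, k ≠ l ∧ ∃ X X' : M2, ¬ (q : ℤ) ∣ X.det ∧
      (q : ℝ) ^ (-e) * #V ≤ #{w ∈ V | ∀ i j, (q : ℤ) ∣ (η w l * X - X' * η w k) i j}

theorem gl_apply6 (ι : Type) [Fintype ι] {e c₀ : ℝ} (he : 0 < e) (hc₀ : 0 < c₀) :
    ∃ (c : ℝ) (q₀ : ℕ), 0 < c ∧ c ≤ 1 ∧ GLQ ι c₀ c e q₀ := by
  obtain ⟨c0, q0, hc0, H⟩ := group_lemma6 ι he hc₀
  have hc : 0 < min c0 1 := lt_min hc0 one_pos
  obtain ⟨q1, hq1⟩ := exists_nat_ge ((2 : ℝ) ^ (4 / min c0 1))
  refine ⟨min c0 1 / 4, max (max q0 q1) 3, by positivity,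
    by have := min_le_right c0 1; linarith, ?_⟩
  have hcc : min c0 1 ≤ c0 := min_le_left _ _
  generalize min c0 1 = c at hc hq1 hcc
  intro q hq hqq W V η n R R' sg hV hn hR hR' cR cR' hsg hsum
  have := Fact.mk hq
  have Q0 : q0 ≤ q := (le_max_left _ _).trans ((le_max_left _ _).trans hqq)
  have Q1 : q1 ≤ q := (le_max_right _ _).trans ((le_max_left _ _).trans hqq)
  have Q3 : 3 ≤ q := (le_max_right _ _).trans hqq
  have R1 : (1 : ℝ) ≤ q := by exact_mod_cast hq.one_le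
  have R0 : (0 : ℝ) < q := by linarith
  have N0 : (0 : ℝ) < #V := by exact_mod_cast hV.card_pos
  have isl : ∀ L : Xn q, IsLn q L.1 := fun L => (mem_Xn hq.pos).1 L.2
  have cX : q ≤ #(Xn q) := by simpa using (card_Xn hq one_pos).1
  let _ := xgbAct q
  have : Nonempty (Xn q) := (card_pos.1 (hq.pos.trans_le cX)).to_subtype
  have : MulAction.IsPretransitive (ι → GQ q) (ι → Xn q) := ⟨fun x y => by
    choose g hg using fun k => xgb_trans (x k)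
    choose g' hg' using fun k => xgb_trans (y k)
    refine ⟨fun k => g' k * (g k)⁻¹, funext fun k => ?_⟩
    change (g' k * (g k)⁻¹) • x k = y k
    rw [mul_smul, smul_eq_iff_eq_inv_smul]
    refine Subtype.ext ?_
    change xgbP (((g k)⁻¹⁻¹ : GQ q) : MQ q) _ = xgbP (((g' k)⁻¹⁻¹ : GQ q) : MQ q) _
    rw [inv_inv, inv_inv, hg, hg']⟩
  obtain ⟨E, E', hE, hT⟩ := xgb_types (q := q) (by omega)
  have dE : ∀ b, (E b).det * (E' b).det = 1 := fun b => by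
    rw [← Matrix.det_mul, (hE b).1, Matrix.det_one]
  have n0 : ∀ w ∈ V, (n w : ZMod q) ≠ 0 := fun w hw => by
    rw [Ne, ZMod.intCast_zmod_eq_zero_iff_dvd]
    exact (hn w hw).1
  have ex : ∀ w, ∃ (b : Bool) (s : ZMod q) (g : ι → GQ q), w ∈ V → s ≠ 0 ∧
      ∀ k, xgbM q (η w k) = s • ((g k : MQ q) * E b) := fun w => by
    by_cases hw : w ∈ V
    · obtain ⟨b, s, s0, hs⟩ := hT _ (n0 w hw)
      refine ⟨b, s, fun k => ⟨s⁻¹ • (xgbM q (η w k) * E' b), ?_⟩, fun _ => ⟨s0, fun k => ?_⟩⟩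
      · rw [Matrix.det_smul, Matrix.det_mul, xgb_det, (hn w hw).2 k, hs, Fintype.card_fin,
          mul_assoc, dE]
        field_simp
      · change _ = s • (s⁻¹ • (xgbM q (η w k) * E' b) * E b)
        rw [smul_mul_assoc, smul_smul, mul_inv_cancel₀ s0, one_smul, mul_assoc, (hE b).2, mul_one]
    · exact ⟨true, 1, 1, fun h => absurd h hw⟩
  choose b s g hg using ex
  obtain ⟨Lt, hLt⟩ : ∃ Lt : W → Prop, ∀ w, Lt w ↔
      ((∀ k, (prb V fun w' => Pj q (η w' k) = Pj q (η w k)) ≤ (q : ℝ) ^ (c / 4 - 3)) ∧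
        (q : ℝ) ^ (sg - c / 4) ≤ #{ξ ∈ R | (fun k => img (η w k) (ξ k)) ∈ R'}) :=
    ⟨_, fun _ => Iff.rfl⟩
  obtain ⟨b0, hb0⟩ : ∃ b0, (q : ℝ) ^ (-(c / 4)) / 2 ≤
      (∑ w ∈ V with b w = b0 ∧ Lt w, (1 : ℝ)) / #V := by
    by_contra hh
    push Not at hh
    have e1 := hh true
    have e2 := hh false
    refine absurd hsum (not_le.2 (lt_of_eq_of_lt ?_ ((add_lt_add e1 e2).trans_eq (add_halves _))))
    rw [← add_div, sum_filter, sum_filter, ← sum_add_distrib, prb, card_filter, Nat.cast_sum]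
    refine congrArg (· / _) (sum_congr rfl fun w _ => ?_)
    simp only [← hLt]
    by_cases h1 : Lt w <;> cases b w <;> simp [h1]
  obtain ⟨V', hV'⟩ : ∃ V', V' = {w ∈ V | b w = b0 ∧ Lt w} := ⟨_, rfl⟩
  rw [← hV'] at hb0
  have mV : ∀ w ∈ V', w ∈ V ∧ b w = b0 ∧ Lt w := fun w hw => by
    rw [hV'] at hw
    exact mem_filter.1 hw
  have dE1 : (E b0).det ≠ 0 := left_ne_zero_of_mul_eq_one (dE b0)
  have dE2 : (E' b0).det ≠ 0 := right_ne_zero_of_mul_eq_one (dE b0)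
  let σ : (ι → Xn q) ≃ (ι → Xn q) :=
    { toFun := fun r k => ⟨xgbP (E b0) (r k).1, xgb_isLn dE1 (r k).2⟩
      invFun := fun r k => ⟨xgbP (E' b0) (r k).1, xgb_isLn dE2 (r k).2⟩
      left_inv := fun r => funext fun k => Subtype.ext (by
        simp only [xgb_PP, (hE b0).1, xgb_Pone (isl _)])
      right_inv := fun r => funext fun k => Subtype.ext (by
        simp only [xgb_PP, (hE b0).2, xgb_Pone (isl _)]) }
  obtain ⟨t, ht⟩ : ∃ t : ℝ, t = (q : ℝ) ^ (-(sg / 2)) := ⟨_, rfl⟩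
  have t0 : 0 < t := by rw [ht]; positivity
  have tt : t * t = (q : ℝ) ^ (-sg) := by
    rw [ht, ← Real.rpow_add R0]
    congr 1
    ring
  have t1 : (q : ℝ) ^ sg * (t * t) = 1 := by
    rw [tt, ← Real.rpow_add R0, add_neg_cancel, Real.rpow_zero]
  let F : Finset (ι → Set V2) → (ι → Set V2) → ℝ := fun S y => if y ∈ S then t else 0
  have F0 : ∀ S y, 0 ≤ F S y := fun S y => by
    simp only [F]
    split_ifs <;> positivity
  have sI : ∀ (S : Finset (ι → Set V2)) (a : ℝ), 0 ≤ a →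
      ∑ y ∈ Fintype.piFinset fun _ : ι => Xn q, (if y ∈ S then a else 0) ≤ #S * a :=
    fun S a ha => by
      rw [← sum_filter, sum_const, nsmul_eq_mul]
      refine mul_le_mul_of_nonneg_right (Nat.cast_le.2 (card_le_card fun y hy => ?_)) ha
      exact (mem_filter.1 hy).2
  have F2 : ∀ S : Finset (ι → Set V2), (#S : ℝ) ≤ (q : ℝ) ^ sg →
      ∑ y ∈ Fintype.piFinset fun _ : ι => Xn q, F S y ^ 2 ≤ 1 := fun S hS => by
    refine le_trans (le_of_eq (sum_congr rfl fun y _ => ?_))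
      ((sI S (t * t) (by positivity)).trans
        ((mul_le_mul_of_nonneg_right hS (by positivity)).trans t1.le))
    simp only [F]
    split_ifs <;> ring
  have sF : ∀ G : (ι → Set V2) → ℝ, ∑ r, G (fun k => (σ r k).1) =
      ∑ y ∈ Fintype.piFinset fun _ : ι => Xn q, G y := fun G =>
    (Equiv.sum_comp σ fun r => G fun k => (r k).1).trans (xgb_sumY _ G)
  obtain ⟨ρ, ρ0, ρ1, ρ2⟩ := xgb_fib V' g N0.le
  have main := H q Q0 (ι → Xn q) ρ (fun r => F R fun k => (σ r k).1)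
    (fun r => F R' fun k => (r k).1) ρ0 ?_ ?_ (fun r => F0 _ _) ?_ ?_ ?_ ?_
  · obtain ⟨k, l, hkl, X, X', hX, hfin⟩ := main
    obtain ⟨Z, hZ⟩ := xgb_Msurj (E' b0 * X * E b0)
    obtain ⟨Z', rfl⟩ := xgb_Msurj X'
    refine ⟨k, l, hkl, Z, Z', ?_, ?_⟩
    · rw [← ZMod.intCast_zmod_eq_zero_iff_dvd, ← xgb_det, hZ, Matrix.det_mul, Matrix.det_mul]
      exact mul_ne_zero (mul_ne_zero dE2 hX) dE1
    · rw [ρ2, le_div_iff₀ N0] at hfin
      refine hfin.trans (Nat.cast_le.2 (card_le_card fun w hw => ?_))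
      simp only [mem_filter, mem_univ, true_and] at hw
      obtain ⟨m1, m2⟩ := hw
      obtain ⟨m3, m4, -⟩ := mV w m1
      simp only [mem_filter]
      refine ⟨m3, fun i j => ?_⟩
      have e1 : xgbM q (η w l * Z - Z' * η w k) = 0 := by
        have e2 : xgbM q (η w l * Z - Z' * η w k) =
            xgbM q (η w l) * xgbM q Z - xgbM q Z' * xgbM q (η w k) := by
          simp only [xgbM, map_sub, map_mul]
        rw [e2, hZ, (hg w m3).2 l, (hg w m3).2 k, m4, smul_mul_assoc, mul_smul_comm, ← mul_assoc,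
          ← mul_assoc, mul_assoc _ (E b0), (hE b0).1, mul_one, m2, mul_assoc, sub_self]
      rw [← ZMod.intCast_zmod_eq_zero_iff_dvd, ← xgb_Mapp, e1]
      rfl
  · rw [ρ2, div_le_one N0]
    refine Nat.cast_le.2 (card_le_card fun w hw => ?_)
    simp only [mem_filter] at hw
    exact (mV w hw.1).1
  · intro k h
    rw [ρ2]
    by_cases h0 : ∀ w ∈ V', g w k ≠ h
    · refine le_trans (le_of_eq ?_) (Real.rpow_nonneg R0.le _)
      rw [div_eq_zero_iff, Nat.cast_eq_zero, card_eq_zero, eq_empty_iff_forall_notMem]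
      refine Or.inl fun w hw => ?_
      simp only [mem_filter, mem_univ, true_and] at hw
      exact h0 w hw.1 hw.2
    push Not at h0
    obtain ⟨w, m1, m2⟩ := h0
    obtain ⟨m3, m4, m5⟩ := mV w m1
    refine le_trans ?_ ((((hLt w).1 m5).1 k).trans
      (Real.rpow_le_rpow_of_exponent_le R1 (by linarith)))
    refine div_le_div_of_nonneg_right (Nat.cast_le.2 (card_le_card fun w' hw' => ?_)) N0.le
    simp only [mem_filter, mem_univ, true_and] at hw'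
    obtain ⟨p1, p2⟩ := hw'
    obtain ⟨p3, p4, -⟩ := mV w' p1
    simp only [mem_filter]
    refine ⟨p3, ?_⟩
    rw [xgb_Pjeq (hg w m3).1 ((hg w m3).2 k), xgb_Pjeq (hg w' p3).1 ((hg w' p3).2 k), m2, p2,
      m4, p4]
  · exact (sF fun y => F R y ^ 2).trans_le (F2 R cR)
  · exact (xgb_sumY _ fun y => F R' y ^ 2).trans_le (F2 R' cR')
  · have e1 : ∑ r, F R (fun k => (σ r k).1) ≤ (q : ℝ) ^ sg * t := by
      rw [sF (F R)]
      exact (sI R t t0.le).trans (mul_le_mul_of_nonneg_right cR t0.le)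
    refine (pow_le_pow_left₀ (sum_nonneg fun r _ => F0 _ _) e1 2).trans ?_
    have e2 : (q : ℝ) ^ Fintype.card ι ≤ Fintype.card (ι → Xn q) := by
      rw [Fintype.card_fun, Fintype.card_coe]
      exact_mod_cast Nat.pow_le_pow_left cX _
    have e3 : ((q : ℝ) ^ sg * t) ^ 2 = (q : ℝ) ^ sg := by
      linear_combination (q : ℝ) ^ sg * t1
    rw [e3]
    refine le_trans ?_ (mul_le_mul_of_nonneg_left e2 (by positivity))
    rw [← Real.rpow_natCast, ← Real.rpow_add R0]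
    exact Real.rpow_le_rpow_of_exponent_le R1 (by linarith)
  · rw [cor, ρ1 fun x => ∑ r : ι → Xn q, F R (fun k => (σ r k).1) *
      F R' fun k => ((x • r) k).1]
    have e1 : (2 : ℝ) ≤ (q : ℝ) ^ (c / 4) := by
      have e2 : (2 : ℝ) ^ (4 / c) ≤ q := hq1.trans (by exact_mod_cast Q1)
      have e3 := Real.rpow_le_rpow (by positivity) e2 (show 0 ≤ c / 4 by positivity)
      rwa [← Real.rpow_mul (by norm_num), show 4 / c * (c / 4) = 1 by field_simp,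
        Real.rpow_one] at e3
    have e2 : (q : ℝ) ^ (-c0) ≤ (q : ℝ) ^ (-(c / 4)) * ((q : ℝ) ^ (-(c / 4)) / 2) := by
      rw [← mul_div_assoc, ← Real.rpow_add R0, le_div_iff₀ two_pos]
      refine (mul_le_mul_of_nonneg_left e1 (by positivity)).trans ?_
      rw [← Real.rpow_add R0]
      exact Real.rpow_le_rpow_of_exponent_le R1 (by linarith)
    refine e2.trans ((mul_le_mul_of_nonneg_left hb0 (by positivity)).trans ?_)
    rw [← mul_div_assoc, mul_sum]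
    refine div_le_div_of_nonneg_right (sum_le_sum fun w hw => ?_) N0.le
    obtain ⟨m3, m4, m5⟩ := mV w hw
    have e3 : ∀ r : ι → Xn q, (fun k => ((g w • r) k).1) =
        fun k => {v | (η w k).adjugate *ᵥ v ∈ (σ r k).1} := fun r => funext fun k => by
      have e4 : xgbM q (η w k).adjugate * xgbM q (η w k) = (n w : ZMod q) • 1 := by
        rw [xgbM, xgbM, RingHom.map_adjugate, Matrix.adjugate_mul, ← (hn w m3).2 k, ← xgb_det]
        rfl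
      have e5 : xgbM q (η w k) * ((s w)⁻¹ • (E' b0 * (((g w k)⁻¹ : GQ q) : MQ q))) = 1 := by
        rw [(hg w m3).2 k, m4, smul_mul_smul_comm, mul_inv_cancel₀ (hg w m3).1, one_smul,
          ← mul_assoc, mul_assoc _ (E b0), (hE b0).1, mul_one,
          ← Matrix.SpecialLinearGroup.coe_mul, mul_inv_cancel, Matrix.SpecialLinearGroup.coe_one]
      have e6 : xgbM q (η w k).adjugate =
          ((n w : ZMod q) * (s w)⁻¹) • (E' b0 * (((g w k)⁻¹ : GQ q) : MQ q)) := by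
        rw [← mul_one (xgbM q (η w k).adjugate), ← e5, ← mul_assoc, e4, smul_mul_assoc, one_mul,
          smul_smul]
      rw [← xgb_Pint _ (isl _), e6, xgb_Psmul (mul_ne_zero (n0 w m3) (inv_ne_zero (hg w m3).1)) _
        (isl _)]
      change xgbP (((g w k)⁻¹ : GQ q) : MQ q) (r k).1 = xgbP _ (xgbP (E b0) (r k).1)
      rw [xgb_PP, ← mul_assoc, (hE b0).1, one_mul]
    simp only [e3]
    rw [sF fun y => F R y * F R' fun k => {v | (η w k).adjugate *ᵥ v ∈ y k}, mul_one]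
    have e7 := mul_le_mul_of_nonneg_right ((hLt w).1 m5).2 (show 0 ≤ t * t by positivity)
    rw [tt, ← Real.rpow_add R0, show sg - c / 4 + -sg = -(c / 4) by ring, ← tt, ← nsmul_eq_mul,
      ← sum_const] at e7
    refine e7.trans (le_trans (le_of_eq (sum_congr rfl fun y hy => ?_))
      (sum_le_sum_of_subset_of_nonneg ((filter_subset _ _).trans hR)
        fun y _ _ => mul_nonneg (F0 _ y) (F0 _ _)))
    obtain ⟨a1, a2⟩ := mem_filter.1 hy
    simp only [F]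
    rw [if_pos a1, if_pos (show (fun k => {v | (η w k).adjugate *ᵥ v ∈ y k}) ∈ R' from a2)]

end Pool.Agent.EQ
end
end

-- part Pool.Agent.P.MP_ad7a55_nt.YGc
section

/-! Matrices that are scalar modulo a number. -/

set_option autoImplicit false

noncomputable section

open Finset Matrix
open scoped MatrixGroups Classical

namespace Pool.Agent.EQ

theorem ygc_root {q n k : ℕ} (hq : q.Prime) (h2 : q ≠ 2) (hn : ¬ q ∣ n) (hk : k ≠ 0) :
    cnt (q ^ k) (fun x => (q : ℤ) ^ k ∣ x ^ 2 - 4 * n) ≤ 2 := by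
  have hp : Prime (q : ℤ) := Nat.prime_iff_prime_int.1 hq
  have h3 : ¬ (q : ℤ) ∣ 2 := fun h =>
    h2 ((Nat.prime_dvd_prime_iff_eq hq Nat.prime_two).1 (by exact_mod_cast h))
  by_cases hex : ∃ r₀ < q ^ k, (q : ℤ) ^ k ∣ (r₀ : ℤ) ^ 2 - 4 * n
  swap
  · exact (xgd_cnt ∅ fun r a b => absurd ⟨r, a, b⟩ hex).trans (by simp)
  obtain ⟨r₀, a0, b0⟩ := hex
  have h4 : ¬ (q : ℤ) ∣ r₀ := fun h => by
    have h5 : (q : ℤ) ∣ 2 * (2 * n) := by
      have := (h.mul_left r₀).sub ((dvd_pow_self _ hk).trans b0)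
      exact this.trans (dvd_of_eq (by ring))
    have h6 := (hp.dvd_or_dvd ((hp.dvd_or_dvd h5).resolve_left h3)).resolve_left h3
    exact hn (by exact_mod_cast h6)
  refine le_trans (xgd_cnt {r₀, q ^ k - r₀} fun r a1 b1 => ?_) card_le_two
  have h5 : (q : ℤ) ^ k ∣ ((r : ℤ) - r₀) * (r + r₀) := (b1.sub b0).trans (dvd_of_eq (by ring))
  have h0 : ((q ^ k : ℕ) : ℤ) = (q : ℤ) ^ k := Nat.cast_pow _ _
  rw [mem_insert, mem_singleton]
  by_cases h6 : (q : ℤ) ∣ (r : ℤ) - r₀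
  · have h7 : ¬ (q : ℤ) ∣ (r : ℤ) + r₀ := fun h =>
      h4 ((hp.dvd_or_dvd ((h.sub h6).trans (dvd_of_eq (by ring : _ = 2 * (r₀ : ℤ))))).resolve_left h3)
    have h8 := hp.pow_dvd_of_dvd_mul_right k h7 h5
    rw [← h0] at h8
    have h9 := Int.eq_zero_of_abs_lt_dvd h8 (abs_lt.2 ⟨by omega, by omega⟩)
    omega
  · have h7 := (hp.pow_dvd_of_dvd_mul_left k h6 h5).sub (dvd_refl _)
    have h9 : r₀ ≠ 0 := fun h => h4 (by rw [h]; simp)
    rw [← h0] at h7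
    have h8 := Int.eq_zero_of_abs_lt_dvd h7 (abs_lt.2 ⟨by omega, by omega⟩)
    omega

theorem ygc_int {q : ℕ} (hq : 0 < q) {A : ℤ → Prop} (hA : ∀ x y, (q : ℤ) ∣ x - y → A x → A y)
    {H : ℝ} (hH : 0 ≤ H) (S : Finset ℤ) (hS : ∀ x ∈ S, |(x : ℝ)| ≤ 2 * H ∧ A x) :
    (#S : ℝ) ≤ cnt q A * (4 * (H / q + 1)) := by
  have hq' : (1 : ℝ) ≤ q := by exact_mod_cast hq
  have h1 := card_le_cnt hq hA (-(⌊2 * H⌋₊ : ℤ)) (2 * ⌊2 * H⌋₊ + 1) S fun x hx => by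
    have h2 : x.natAbs ≤ ⌊2 * H⌋₊ := Nat.le_floor (by
      rw [Nat.cast_natAbs, Int.cast_abs]
      exact (hS x hx).1)
    refine ⟨by omega, ?_, (hS x hx).2⟩
    push_cast
    omega
  refine h1.trans (mul_le_mul_of_nonneg_left ?_ (Nat.cast_nonneg _))
  have h2 := Nat.floor_le (by linarith : 0 ≤ 2 * H)
  have h3 : ((2 * ⌊2 * H⌋₊ + 1 : ℕ) : ℝ) / q ≤ (4 * H + q) / q := by
    refine div_le_div_of_nonneg_right ?_ (by linarith)
    push_cast
    linarith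
  rw [add_div, div_self (by linarith), mul_div_assoc] at h3
  linarith

theorem ygc_mult {q : ℕ} (hq : 0 < q) {H : ℝ} (hH : 0 ≤ H) (S : Finset ℤ)
    (hS : ∀ x ∈ S, |(x : ℝ)| ≤ 2 * H ∧ (q : ℤ) ∣ x) : (#S : ℝ) ≤ 4 * (H / q + 1) := by
  have h1 := ygc_int hq (A := fun x => (q : ℤ) ∣ x)
    (fun x y h h' => (h'.sub h).trans (dvd_of_eq (by ring))) hH S hS
  have h2 : cnt q (fun x => (q : ℤ) ∣ x) ≤ 1 := by
    exact le_trans (xgd_cnt {0} fun r h3 h4 => mem_singleton.2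
      (Nat.eq_zero_of_dvd_of_lt (by exact_mod_cast h4) h3)) (card_singleton _).le
  have h3 : (cnt q (fun x => (q : ℤ) ∣ x) : ℝ) ≤ 1 := by exact_mod_cast h2
  exact h1.trans (mul_le_of_le_one_left (by positivity) h3)

theorem scal_gen {ε : ℝ} (hε : 0 < ε) : ∃ C : ℝ, 0 < C ∧ ∀ (Q n : ℕ) (H : ℝ) (T : Finset M2),
    Odd Q → Q.Coprime n → 0 < n → 1 ≤ H →
    (∀ η ∈ T, η.det = n ∧ (∀ i j, |(η i j : ℝ)| ≤ H) ∧
      (Q : ℤ) ∣ η 0 1 ∧ (Q : ℤ) ∣ η 1 0 ∧ (Q : ℤ) ∣ η 0 0 - η 1 1) →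
    (#T : ℝ) ≤ C * 2 ^ #Q.primeFactors * H ^ ε * (H / (Q : ℝ) ^ 2 + 1) * (H / Q + 1) := by
  obtain ⟨C, hC, hdiv⟩ := xgd_div hε
  refine ⟨24 * C, by positivity, fun Q n H T hodd hcop hn hH hT => ?_⟩
  have hQ0 : 0 < Q := hodd.pos
  have hP : ∀ q ∈ Q.primeFactors, q.Prime := fun q hq => Nat.prime_of_mem_primeFactors hq
  have hQe : Q ^ 2 = ∏ l ∈ Q.primeFactors, l ^ (Q.factorization l * 2) := by
    conv_lhs => rw [← Nat.prod_factorization_pow_eq_self hQ0.ne']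
    rw [Finsupp.prod, ← prod_pow, Nat.support_factorization]
    exact prod_congr rfl fun l _ => (pow_mul _ _ _).symm
  have hdv : ∀ q ∈ Q.primeFactors, (q : ℤ) ^ (Q.factorization q * 2) ∣ (Q : ℤ) ^ 2 := by
    intro q hq
    have h1 : q ^ (Q.factorization q * 2) ∣ Q ^ 2 := by
      rw [hQe]
      exact dvd_prod_of_mem (fun l : ℕ => l ^ (Q.factorization l * 2)) hq
    exact_mod_cast h1
  have hc : (cnt (Q ^ 2) (fun x => ∀ q ∈ Q.primeFactors,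
      (q : ℤ) ^ (Q.factorization q * 2) ∣ x ^ 2 - 4 * n) : ℝ) ≤ 2 ^ #Q.primeFactors := by
    rw [hQe, cnt_prod _ hP (fun q => Q.factorization q * 2)
      (fun q x => (q : ℤ) ^ (Q.factorization q * 2) ∣ x ^ 2 - 4 * n)
      fun l _ x y h h' => (h'.sub (h.mul_right (x + y))).trans (dvd_of_eq (by ring))]
    exact_mod_cast prod_le_pow_card _ _ 2 fun q hq => ygc_root (hP q hq)
      (fun h => (Nat.not_even_iff_odd.2 hodd) (even_iff_two_dvd.2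
        (h ▸ Nat.dvd_of_mem_primeFactors hq)))
      (fun h => (hP q hq).one_lt.ne' (Nat.eq_one_of_dvd_coprimes hcop
        (Nat.dvd_of_mem_primeFactors hq) h))
      (mul_ne_zero ((hP q hq).factorization_pos_of_dvd hQ0.ne'
        (Nat.dvd_of_mem_primeFactors hq)).ne' two_ne_zero)
  have hA : ∀ x y : ℤ, ((Q ^ 2 : ℕ) : ℤ) ∣ x - y →
      (∀ q ∈ Q.primeFactors, (q : ℤ) ^ (Q.factorization q * 2) ∣ x ^ 2 - 4 * n) →
      ∀ q ∈ Q.primeFactors, (q : ℤ) ^ (Q.factorization q * 2) ∣ y ^ 2 - 4 * n := by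
    intro x y h h' q hq
    have h1 : (q : ℤ) ^ (Q.factorization q * 2) ∣ x - y :=
      (hdv q hq).trans (by exact_mod_cast h)
    exact ((h' q hq).sub (h1.mul_right (x + y))).trans (dvd_of_eq (by ring))
  have hd : ∀ η ∈ T, (Q : ℤ) ∣ η 0 1 ∧ (Q : ℤ) ∣ η 1 0 ∧ (Q : ℤ) ∣ η 0 0 - η 1 1 :=
    fun η hη => (hT η hη).2.2
  have hdet : ∀ η ∈ T, η 0 0 * η 1 1 - η 0 1 * η 1 0 = n := fun η hη => by
    rw [← Matrix.det_fin_two, (hT η hη).1]
  have hQ1 : (1 : ℝ) ≤ Q := by exact_mod_cast hQ0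
  have hH0 : 0 < H := by linarith
  have hx : 0 ≤ C * H ^ ε := by positivity
  have hn' : (n : ℤ) ≠ 0 := by exact_mod_cast hn.ne'
  have h1 : (#{η ∈ T | η 0 1 * η 1 0 ≠ 0} : ℝ) ≤
      2 ^ #Q.primeFactors * (4 * (H / Q ^ 2 + 1)) * (4 * (H / Q + 1)) * (C * H ^ ε) := by
    generalize hU : T.filter (fun η => η 0 1 * η 1 0 ≠ 0) = U
    have hm : ∀ η ∈ U, η ∈ T ∧ η 0 1 * η 1 0 ≠ 0 := fun η hη => by
      rw [← hU] at hη
      exact mem_filter.1 hη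
    refine (xgd_fib U (fun η => (η 0 0 + η 1 1, η 0 0 - η 1 1)) (x := C * H ^ ε)
      fun ζ hζ => ?_).trans (mul_le_mul_of_nonneg_right ?_ hx)
    · obtain ⟨z1, z2⟩ := hm ζ hζ
      have key : ∀ η ∈ U.filter fun η => (η 0 0 + η 1 1, η 0 0 - η 1 1) =
          (ζ 0 0 + ζ 1 1, ζ 0 0 - ζ 1 1),
          η 0 0 = ζ 0 0 ∧ η 1 1 = ζ 1 1 ∧ η 0 1 * η 1 0 = ζ 0 1 * ζ 1 0 := fun η hη => by
        obtain ⟨h2, h3⟩ := mem_filter.1 hη
        obtain ⟨h4, h5⟩ := Prod.mk.inj h3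
        have e0 : η 0 0 = ζ 0 0 := by omega
        have e1 : η 1 1 = ζ 1 1 := by omega
        have h6 := hdet η (hm η h2).1
        rw [e0, e1] at h6
        exact ⟨e0, e1, by linear_combination hdet ζ z1 - h6⟩
      rw [← card_image_of_injOn (f := fun η : M2 => η 0 1) fun η hη η' hη' e => ?_]
      · refine hdiv H _ _ hH0.le z2 (xgd_abs ((hT ζ z1).2.1 0 1) ((hT ζ z1).2.1 1 0)).1
          fun a ha => ?_
        obtain ⟨η, hη, rfl⟩ := mem_image.1 ha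
        exact Dvd.intro _ (key η hη).2.2
      · obtain ⟨a0, a1, a2⟩ := key η (mem_coe.1 hη)
        obtain ⟨b0, b1, b2⟩ := key η' (mem_coe.1 hη')
        have e' : η 0 1 = η' 0 1 := e
        refine xgd_ext (a0.trans b0.symm) e' ?_ (a1.trans b1.symm)
        refine mul_left_cancel₀ (left_ne_zero_of_mul (a2 ▸ z2)) ?_
        rw [a2, e', b2]
    · have h2 : U.image (fun η => (η 0 0 + η 1 1, η 0 0 - η 1 1)) ⊆
          U.image (fun η => η 0 0 + η 1 1) ×ˢ U.image fun η => η 0 0 - η 1 1 := by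
        intro z hz
        obtain ⟨η, hη, rfl⟩ := mem_image.1 hz
        exact mem_product.2 ⟨mem_image_of_mem _ hη, mem_image_of_mem _ hη⟩
      have h3 := ygc_int (pow_pos hQ0 2) hA hH0.le
        (U.image fun η => η 0 0 + η 1 1) fun x hx => by
          obtain ⟨η, hη, rfl⟩ := mem_image.1 hx
          have h4 := (hm η hη).1
          refine ⟨(xgd_abs ((hT η h4).2.1 0 0) ((hT η h4).2.1 1 1)).2.1, fun q hq =>
            (hdv q hq).trans ?_⟩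
          obtain ⟨⟨u, hu⟩, ⟨v, hv⟩, w, hw⟩ := hd η h4
          refine ⟨w ^ 2 + 4 * u * v, ?_⟩
          have h5 := hdet η h4
          rw [hu, hv] at h5
          linear_combination (η 0 0 - η 1 1 + Q * w) * hw + 4 * h5
      have h4 := ygc_mult hQ0 hH0.le (U.image fun η => η 0 0 - η 1 1) fun x hx => by
        obtain ⟨η, hη, rfl⟩ := mem_image.1 hx
        have h4 := (hm η hη).1
        exact ⟨(xgd_abs ((hT η h4).2.1 0 0) ((hT η h4).2.1 1 1)).2.2, (hd η h4).2.2⟩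
      have h5 := card_le_card h2
      rw [card_product] at h5
      refine le_trans (by exact_mod_cast h5) (mul_le_mul (h3.trans ?_) h4 (Nat.cast_nonneg _)
        (by positivity))
      push_cast
      exact mul_le_mul_of_nonneg_right hc (by positivity)
  have h2 : (#{η ∈ T | ¬ η 0 1 * η 1 0 ≠ 0} : ℝ) ≤ C * H ^ ε * (8 * (H / Q + 1)) := by
    generalize hU : T.filter (fun η => ¬ η 0 1 * η 1 0 ≠ 0) = U
    have hm : ∀ η ∈ U, η ∈ T ∧ η 0 1 * η 1 0 = 0 ∧ η 0 0 * η 1 1 = n := fun η hη => by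
      rw [← hU] at hη
      obtain ⟨h2, h3⟩ := mem_filter.1 hη
      exact ⟨h2, not_not.1 h3, by linear_combination hdet η h2 + not_not.1 h3⟩
    refine (xgd_fib U (fun η => η 0 0) (x := 8 * (H / Q + 1)) fun ζ hζ => ?_).trans ?_
    · obtain ⟨z1, -, z3⟩ := hm ζ hζ
      generalize hW : U.filter (fun η => η 0 0 = ζ 0 0) = W
      have key : ∀ η ∈ W, η ∈ U ∧ η 0 0 = ζ 0 0 ∧ η 1 1 = ζ 1 1 := fun η hη => by
        rw [← hW] at hη
        obtain ⟨h2, h3⟩ := mem_filter.1 hη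
        refine ⟨h2, h3, mul_left_cancel₀ (left_ne_zero_of_mul (z3 ▸ hn')) ?_⟩
        rw [z3, ← h3, (hm η h2).2.2]
      have hb : ∀ η ∈ W, ∀ i j, |(η i j : ℝ)| ≤ 2 * H := fun η hη i j =>
        ((hT η (hm η (key η hη).1).1).2.1 i j).trans (by linarith)
      have a1 : (#{η ∈ W | η 0 1 = 0} : ℝ) ≤ 4 * (H / Q + 1) := by
        rw [← card_image_of_injOn (f := fun η : M2 => η 1 0) fun η hη η' hη' e => ?_]
        · refine ygc_mult hQ0 hH0.le _ fun x hx => ?_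
          obtain ⟨η, hη, rfl⟩ := mem_image.1 hx
          have h2 := (mem_filter.1 hη).1
          exact ⟨hb η h2 1 0, (hd η (hm η (key η h2).1).1).2.1⟩
        · obtain ⟨h2, h3⟩ := mem_filter.1 (mem_coe.1 hη)
          obtain ⟨h4, h5⟩ := mem_filter.1 (mem_coe.1 hη')
          exact xgd_ext ((key η h2).2.1.trans (key η' h4).2.1.symm) (h3.trans h5.symm) e
            ((key η h2).2.2.trans (key η' h4).2.2.symm)
      have a2 : (#{η ∈ W | ¬ η 0 1 = 0} : ℝ) ≤ 4 * (H / Q + 1) := by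
        rw [← card_image_of_injOn (f := fun η : M2 => η 0 1) fun η hη η' hη' e => ?_]
        · refine ygc_mult hQ0 hH0.le _ fun x hx => ?_
          obtain ⟨η, hη, rfl⟩ := mem_image.1 hx
          have h2 := (mem_filter.1 hη).1
          exact ⟨hb η h2 0 1, (hd η (hm η (key η h2).1).1).1⟩
        · obtain ⟨h2, h3⟩ := mem_filter.1 (mem_coe.1 hη)
          obtain ⟨h4, h5⟩ := mem_filter.1 (mem_coe.1 hη')
          exact xgd_ext ((key η h2).2.1.trans (key η' h4).2.1.symm) e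
            (((mul_eq_zero.1 (hm η (key η h2).1).2.1).resolve_left h3).trans
              ((mul_eq_zero.1 (hm η' (key η' h4).1).2.1).resolve_left h5).symm)
            ((key η h2).2.2.trans (key η' h4).2.2.symm)
      have a3 := card_filter_add_card_filter_not (s := W) fun η => η 0 1 = 0
      rw [← a3, Nat.cast_add]
      exact (add_le_add a1 a2).trans (le_of_eq (by ring))
    · refine mul_le_mul_of_nonneg_right ?_ (by positivity)
      rcases U.eq_empty_or_nonempty with rfl | ⟨ζ, hζ⟩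
      · simpa using hx
      obtain ⟨z1, -, z3⟩ := hm ζ hζ
      refine hdiv H n _ hH0.le hn' (z3 ▸ (xgd_abs ((hT ζ z1).2.1 0 0) ((hT ζ z1).2.1 1 1)).1)
        fun a ha => ?_
      obtain ⟨η, hη, rfl⟩ := mem_image.1 ha
      exact Dvd.intro _ (hm η hη).2.2
  have h3 := card_filter_add_card_filter_not (s := T) fun η => η 0 1 * η 1 0 ≠ 0
  rw [← h3, Nat.cast_add]
  have h4 : (1 : ℝ) ≤ 2 ^ #Q.primeFactors := one_le_pow₀ one_le_two
  have h6 : (1 : ℝ) ≤ H / Q ^ 2 + 1 := le_add_of_nonneg_left (by positivity)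
  have h5 : 8 * (H / Q + 1) ≤ 2 ^ #Q.primeFactors * (H / Q ^ 2 + 1) * (8 * (H / Q + 1)) :=
    le_mul_of_one_le_left (by positivity) (one_le_mul_of_one_le_of_one_le h4 h6)
  refine (add_le_add h1 (h2.trans (mul_le_mul_of_nonneg_left h5 hx))).trans (le_of_eq ?_)
  ring

/-- The count of pairs of matrices with the same classes modulo the primes of `E`. -/
def CT6 (H ε C : ℝ) : Prop :=
  ∀ (Δ Δ' E : Finset ℕ) (T : Finset (M2 × M2)), (∀ l ∈ Δ ∪ Δ', l.Prime) →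
    (∀ q ∈ E, q.Prime ∧ q ≠ 2 ∧ q ∉ Δ ∪ Δ') →
    (∏ q ∈ E, q) ^ 4 ≤ (∏ l ∈ Δ \ Δ', l) * ∏ l ∈ Δ' \ Δ, l →
    (∀ z ∈ T, z.1.det = (∏ l ∈ Δ, l : ℕ) ∧ z.2.det = (∏ l ∈ Δ', l : ℕ) ∧
      (∀ i j, |(z.1 i j : ℝ)| ≤ H * Real.sqrt (∏ l ∈ Δ, l : ℕ)) ∧
      (∀ i j, |(z.2 i j : ℝ)| ≤ H * Real.sqrt (∏ l ∈ Δ', l : ℕ)) ∧
      ∀ q ∈ E, Pj q z.1 = Pj q z.2) →
    (#T : ℝ) ≤ C * 2 ^ #E * 4 ^ #Δ *
      (((∏ l ∈ Δ, l : ℕ) : ℝ) * (∏ l ∈ Δ', l : ℕ)) ^ (1 + ε) / ((∏ q ∈ E, q : ℕ) : ℝ) ^ 3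

theorem ygc_fix {H ε C : ℝ} (hH : 1 ≤ H) (hε : 0 < ε) (hC : 0 < C)
    (hs : ∀ (B : Finset ℕ) (n : ℕ) (H : ℝ) (T : Finset M2),
      (∀ q ∈ B, q.Prime ∧ q ≠ 2 ∧ ¬ q ∣ n) → 0 < n → ((∏ q ∈ B, q : ℕ) : ℝ) ^ 2 ≤ H →
      (∀ η ∈ T, η.det = n ∧ (∀ i j, |(η i j : ℝ)| ≤ H) ∧
        ∀ q ∈ B, (q : ℤ) ∣ η 0 1 ∧ (q : ℤ) ∣ η 1 0 ∧ (q : ℤ) ∣ η 0 0 - η 1 1) →
      (#T : ℝ) ≤ C * 2 ^ #B * H ^ (2 + 2 * ε) / ((∏ q ∈ B, q : ℕ) : ℝ) ^ 3)
    {n₁ n₂ m : ℕ} (p1 : 0 < n₁) (p2 : 0 < n₂) (p3 : 0 < m) {B : Finset ℕ}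
    (hB : ∀ q ∈ B, q.Prime ∧ q ≠ 2 ∧ ¬ q ∣ n₁ * n₂ * m) (hQ : (∏ q ∈ B, q) ^ 4 ≤ n₁ * n₂)
    {t : ℝ} (hτ : (#m.divisors : ℝ) ≤ t) (U : Finset (M2 × M2))
    (hz : ∀ z ∈ U, z.1.det = (n₁ * m : ℕ) ∧ z.2.det = (n₂ * m : ℕ) ∧
      (∀ i j, |(z.1 i j : ℝ)| ≤ H * Real.sqrt (n₁ * m : ℕ)) ∧
      (∀ i j, |(z.2 i j : ℝ)| ≤ H * Real.sqrt (n₂ * m : ℕ)) ∧
      Dv m (z.2 * z.1.adjugate) ∧ ∀ q ∈ B, Pj q z.1 = Pj q z.2)
    (hl : ∀ z ∈ U, ∀ l : ℕ, l.Prime → l ∣ n₁ → l * l ∣ n₁ * n₂ → ¬ Dv l (z.2 * z.1.adjugate)) :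
    (#U : ℝ) ≤ C * (2 * H ^ 2) ^ (2 + 2 * ε) * (100 * H ^ 2) * 2 ^ #B * t *
      (((n₁ * m : ℕ) : ℝ) * (n₂ * m : ℕ)) ^ (1 + ε) / ((∏ q ∈ B, q : ℕ) : ℝ) ^ 3 := by
  have ht : 0 ≤ t := (Nat.cast_nonneg _).trans hτ
  have hn1 : (n₁ : ℤ) ≠ 0 := by exact_mod_cast p1.ne'
  choose! δ hδ using fun z (hz' : z ∈ U) => xgd_pair p3 (B := B)
    (fun q h => ⟨(hB q h).1, fun h' => (hB q h).2.2 (h'.mul_left _)⟩) (hz z hz').1 (hz z hz').2.1
    (hz z hz').2.2.1 (hz z hz').2.2.2.1 (fun v i => by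
      rw [Matrix.mulVec_mulVec, xlb_mv]
      exact dvd_add (((hz z hz').2.2.2.2.1 i 0).mul_right _)
        (((hz z hz').2.2.2.2.1 i 1).mul_right _)) (hz z hz').2.2.2.2.2
  have hL : ∀ z ∈ U, IsLn n₁ (Ker n₁ (δ z)) := fun z hz' => by
    refine xlb_isLn_Ker p1 (by rw [(hδ z hz').1]; exact_mod_cast Dvd.intro _ rfl)
      fun l hlp hln => ?_
    by_contra hh
    push Not at hh
    refine hl z hz' l hlp hln ?_ fun i j => ?_
    · have h1 : (l : ℤ) * l ∣ (δ z).det := by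
        rw [Matrix.det_fin_two]
        exact dvd_sub (mul_dvd_mul (hh 0 0) (hh 1 1)) (mul_dvd_mul (hh 0 1) (hh 1 0))
      rw [(hδ z hz').1] at h1
      exact_mod_cast h1
    · have h1 : z.2 * z.1.adjugate = (m : ℤ) • δ z := by
        refine xla_cancel hn1 ?_
        rw [← smul_mul_assoc, ← (hδ z hz').2.2.2, mul_assoc, Matrix.mul_adjugate, (hz z hz').1,
          mul_smul_comm, mul_one, smul_smul, Nat.cast_mul]
      rw [h1, Matrix.smul_apply, smul_eq_mul]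
      exact (hh i j).mul_left _
  have hm1 : (1 : ℝ) ≤ m := by exact_mod_cast p3
  have hN : (0 : ℝ) < (n₁ * n₂ : ℕ) := by exact_mod_cast Nat.mul_pos p1 p2
  have h1 := xgd_fib U δ (x := 100 * H ^ 2 * m * t) fun ζ hζ => by
    rw [← card_image_of_injOn (f := Prod.fst) fun z hz1 z' hz2 e => ?_]
    · refine (lat_count p1 p3 (hL ζ hζ) (by linarith) _ fun η hη => ?_).trans
        (mul_le_mul_of_nonneg_left hτ (by positivity))
      obtain ⟨z, hz1, rfl⟩ := mem_image.1 hη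
      obtain ⟨h2, h3⟩ := mem_filter.1 hz1
      refine ⟨(hz z h2).1, fun j i => ?_, (hz z h2).2.2.1⟩
      have h4 := congrFun (congrFun (hδ z h2).2.2.2 i) j
      rw [h3] at h4
      exact ⟨z.2 i j, h4⟩
    · obtain ⟨h2, h3⟩ := mem_filter.1 (mem_coe.1 hz1)
      obtain ⟨h4, h5⟩ := mem_filter.1 (mem_coe.1 hz2)
      refine Prod.ext e (xla_cancel hn1 ?_)
      rw [← (hδ z h2).2.2.2, ← (hδ z' h4).2.2.2, h3, h5, e]
  have h2 := hs B (n₁ * n₂) (2 * H ^ 2 * Real.sqrt (n₁ * n₂ : ℕ)) (U.image δ)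
    (fun q h => ⟨(hB q h).1, (hB q h).2.1, fun h' => (hB q h).2.2 (h'.mul_right _)⟩)
    (Nat.mul_pos p1 p2)
    (by
      have h3 : ((∏ q ∈ B, q : ℕ) : ℝ) ^ 2 ≤ Real.sqrt (n₁ * n₂ : ℕ) := by
        refine Real.le_sqrt_of_sq_le ?_
        rw [← pow_mul]
        exact_mod_cast hQ
      refine h3.trans (le_mul_of_one_le_left (Real.sqrt_nonneg _) ?_)
      nlinarith)
    fun η hη => by
      obtain ⟨z, hz1, rfl⟩ := mem_image.1 hη
      exact ⟨(hδ z hz1).1, (hδ z hz1).2.1, (hδ z hz1).2.2.1⟩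
  have e4 : (2 * H ^ 2 * Real.sqrt (n₁ * n₂ : ℕ)) ^ (2 + 2 * ε) =
      (2 * H ^ 2) ^ (2 + 2 * ε) * ((n₁ * n₂ : ℕ) : ℝ) ^ (1 + ε) := by
    rw [Real.mul_rpow (by positivity) (Real.sqrt_nonneg _), Real.sqrt_eq_rpow,
      ← Real.rpow_mul hN.le]
    congr 2
    ring
  have h3 : (m : ℝ) ≤ ((m : ℝ) * m) ^ (1 + ε) := by
    have h4 : (1 : ℝ) ≤ m * m := one_le_mul_of_one_le_of_one_le hm1 hm1
    have h5 := Real.rpow_le_rpow_of_exponent_le h4 (by linarith : (1 : ℝ) ≤ 1 + ε)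
    rw [Real.rpow_one] at h5
    nlinarith
  have e5 : ((n₁ * m : ℕ) : ℝ) * (n₂ * m : ℕ) = ((n₁ * n₂ : ℕ) : ℝ) * ((m : ℝ) * m) := by
    push_cast
    ring
  rw [e4] at h2
  rw [e5, Real.mul_rpow hN.le (by positivity)]
  refine (h1.trans (mul_le_mul h2 (mul_le_mul_of_nonneg_right (mul_le_mul_of_nonneg_left h3
    (by positivity)) ht) (by positivity) (by positivity))).trans (le_of_eq ?_)
  ring

theorem ct_pair {H ε : ℝ} (hH : 1 ≤ H) (hε : 0 < ε) : ∃ C : ℝ, 0 < C ∧ CT6 H ε C := by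
  obtain ⟨C, hC, hs⟩ := scal_count (ε := 2 * ε) (by linarith)
  refine ⟨C * (2 * H ^ 2) ^ (2 + 2 * ε) * (100 * H ^ 2), by positivity,
    fun Δ Δ' E T hΔ hE hQ hT => ?_⟩
  have hp1 : ∀ l ∈ Δ, l.Prime := fun l hl => hΔ l (mem_union_left _ hl)
  have hp2 : ∀ l ∈ Δ', l.Prime := fun l hl => hΔ l (mem_union_right _ hl)
  have hdv : ∀ (s : Finset ℕ) (q : ℕ), (∀ l ∈ s, l.Prime) → q.Prime → q ∣ ∏ l ∈ s, l → q ∈ s :=
    fun s q hs hq h => by
      obtain ⟨l, hl, h1⟩ := (hq.prime.dvd_finsetProd_iff _).1 h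
      exact ((Nat.prime_dvd_prime_iff_eq hq (hs l hl)).1 h1) ▸ hl
  have h1 := xgd_fib T (fun z => {l ∈ Δ ∩ Δ' | Dv l (z.2 * z.1.adjugate)})
    (x := C * (2 * H ^ 2) ^ (2 + 2 * ε) * (100 * H ^ 2) * 2 ^ #E * 2 ^ #Δ *
      (((∏ l ∈ Δ, l : ℕ) : ℝ) * (∏ l ∈ Δ', l : ℕ)) ^ (1 + ε) / ((∏ q ∈ E, q : ℕ) : ℝ) ^ 3)
    fun ζ _ => by
      have hF : {l ∈ Δ ∩ Δ' | Dv l (ζ.2 * ζ.1.adjugate)} ⊆ Δ ∩ Δ' := filter_subset _ _
      generalize {l ∈ Δ ∩ Δ' | Dv l (ζ.2 * ζ.1.adjugate)} = F at hF ⊢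
      have f1 : F ⊆ Δ := hF.trans inter_subset_left
      have f2 : F ⊆ Δ' := hF.trans inter_subset_right
      have e1 : ∏ l ∈ Δ, l = (∏ l ∈ Δ \ F, l) * ∏ l ∈ F, l := (prod_sdiff f1).symm
      have e2 : ∏ l ∈ Δ', l = (∏ l ∈ Δ' \ F, l) * ∏ l ∈ F, l := (prod_sdiff f2).symm
      have q1 : ∀ l ∈ Δ \ F, l.Prime := fun l hl => hp1 l (mem_sdiff.1 hl).1
      have q2 : ∀ l ∈ Δ' \ F, l.Prime := fun l hl => hp2 l (mem_sdiff.1 hl).1
      have q3 : ∀ l ∈ F, l.Prime := fun l hl => hp1 l (f1 hl)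
      have hτ : (#(∏ l ∈ F, l).divisors : ℝ) ≤ 2 ^ #Δ := by
        have := (xgd_tau q3).trans (Nat.pow_le_pow_right two_pos (card_le_card f1))
        exact_mod_cast this
      rw [e1, e2]
      refine ygc_fix hH hε hC hs (prod_pos fun l hl => (q1 l hl).pos)
        (prod_pos fun l hl => (q2 l hl).pos) (prod_pos fun l hl => (q3 l hl).pos)
        (fun q hq => ⟨(hE q hq).1, (hE q hq).2.1, fun h => (hE q hq).2.2 ?_⟩) (hQ.trans ?_) hτ _
        (fun z hz => ?_) fun z hz l hl h2 h3 h4 => ?_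
      · rcases ((hE q hq).1.dvd_mul).1 h with h | h
        · rcases ((hE q hq).1.dvd_mul).1 h with h | h
          · exact mem_union_left _ (mem_sdiff.1 (hdv _ q q1 (hE q hq).1 h)).1
          · exact mem_union_right _ (mem_sdiff.1 (hdv _ q q2 (hE q hq).1 h)).1
        · exact mem_union_left _ (f1 (hdv _ q q3 (hE q hq).1 h))
      · exact Nat.mul_le_mul
          (prod_le_prod_of_subset_of_one_le' (sdiff_subset_sdiff le_rfl f2)
            fun l hl _ => (q1 l hl).pos)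
          (prod_le_prod_of_subset_of_one_le' (sdiff_subset_sdiff le_rfl f1)
            fun l hl _ => (q2 l hl).pos)
      · obtain ⟨h2, h3⟩ := mem_filter.1 hz
        obtain ⟨a1, a2, a3, a4, a5⟩ := hT z h2
        rw [e1] at a1 a3
        rw [e2] at a2 a4
        refine ⟨a1, a2, a3, a4, fun i j => xgd_dvd q3 fun l hl => ?_, a5⟩
        rw [← h3] at hl
        exact (mem_filter.1 hl).2 i j
      · have h5 := mem_sdiff.1 (hdv _ l q1 hl h2)
        refine h5.2 ?_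
        rw [← (mem_filter.1 hz).2]
        refine mem_filter.2 ⟨mem_inter.2 ⟨h5.1, ?_⟩, h4⟩
        by_contra h6
        have h7 : l.Coprime (∏ l ∈ Δ' \ F, l) := (Nat.Prime.coprime_iff_not_dvd hl).2
          fun h => h6 (mem_sdiff.1 (hdv _ l q2 hl h)).1
        exact hl.one_lt.ne' (Nat.isUnit_iff.1 (xgd_sq q1 l
          ((Nat.Coprime.mul_left h7 h7).dvd_of_dvd_mul_right h3)))
  have h2 : #(T.image fun z => {l ∈ Δ ∩ Δ' | Dv l (z.2 * z.1.adjugate)}) ≤ 2 ^ #Δ := by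
    rw [← card_powerset]
    refine card_le_card fun F hF => ?_
    obtain ⟨z, -, rfl⟩ := mem_image.1 hF
    exact mem_powerset.2 ((filter_subset _ _).trans inter_subset_left)
  have h3 : (#(T.image fun z => {l ∈ Δ ∩ Δ' | Dv l (z.2 * z.1.adjugate)}) : ℝ) ≤ 2 ^ #Δ := by
    exact_mod_cast h2
  refine (h1.trans (mul_le_mul_of_nonneg_right h3 (by positivity))).trans (le_of_eq ?_)
  rw [show (4 : ℝ) = 2 * 2 by norm_num, mul_pow]
  ring

end Pool.Agent.EQ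
end
end

-- part Pool.Agent.P.MP_ad7a55_nt.YUc
section

/-! Convolution on the modular group modulo a level. -/

set_option autoImplicit false

noncomputable section

open Finset Matrix
open scoped MatrixGroups Classical

namespace Pool.Agent.EQ

/-- Reduction modulo `n`. -/
def yucP (n : ℕ) : SL(2, ℤ) →* SL(2, ZMod n) :=
  Matrix.SpecialLinearGroup.map (Int.castRingHom (ZMod n))

theorem yuc_P_apply (n : ℕ) (g : SL(2, ℤ)) (i j : Fin 2) :
    (yucP n g) i j = ((g i j : ℤ) : ZMod n) := rfl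

theorem yuc_mem (n : ℕ) (g : SL(2, ℤ)) : g ∈ CongruenceSubgroup.Gamma n ↔ yucP n g = 1 :=
  CongruenceSubgroup.Gamma_mem'

theorem yuc_P_of_Dv {n : ℕ} {g : SL(2, ℤ)} {W : M2} (h : Dv n ((g : M2) - W)) (i j : Fin 2) :
    (yucP n g) i j = ((W i j : ℤ) : ZMod n) := by
  rw [yuc_P_apply]
  have := (ZMod.intCast_zmod_eq_zero_iff_dvd _ n).2 (h i j)
  rw [Matrix.sub_apply] at this
  push_cast at this
  exact sub_eq_zero.1 this

theorem yuc_mem_iff (n : ℕ) (g : SL(2, ℤ)) :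
    g ∈ CongruenceSubgroup.Gamma n ↔ Dv n ((g : M2) - 1) := by
  constructor
  · intro h i j
    rw [yuc_mem] at h
    have e : (yucP n g) i j = (1 : SL(2, ZMod n)) i j := by rw [h]
    rw [yuc_P_apply] at e
    rw [← ZMod.intCast_zmod_eq_zero_iff_dvd, Matrix.sub_apply]
    push_cast
    rw [sub_eq_zero]
    refine e.trans ?_
    fin_cases i <;> fin_cases j <;> simp
  · intro h
    rw [yuc_mem]
    ext i j
    rw [yuc_P_of_Dv h]
    fin_cases i <;> fin_cases j <;> simp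

theorem yuc_le {m n : ℕ} (h : m ∣ n) :
    CongruenceSubgroup.Gamma n ≤ CongruenceSubgroup.Gamma m := fun g hg =>
  (yuc_mem_iff m g).2 fun i j =>
    (Int.natCast_dvd_natCast.2 h).trans ((yuc_mem_iff n g).1 hg i j)

theorem yuc_inf {m n : ℕ} (h : m.Coprime n) {g : SL(2, ℤ)}
    (h1 : g ∈ CongruenceSubgroup.Gamma m) (h2 : g ∈ CongruenceSubgroup.Gamma n) :
    g ∈ CongruenceSubgroup.Gamma (m * n) := by
  refine (yuc_mem_iff _ g).2 fun i j => ?_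
  push_cast
  exact (Nat.isCoprime_iff_coprime.2 h).mul_dvd ((yuc_mem_iff m g).1 h1 i j)
    ((yuc_mem_iff n g).1 h2 i j)

/-- Upper unipotent matrices. -/
def yucU {R : Type} [CommRing R] (x : R) : SL(2, R) :=
  ⟨!![1, x; 0, 1], by simp [Matrix.det_fin_two]⟩

/-- Lower unipotent matrices. -/
def yucL {R : Type} [CommRing R] (x : R) : SL(2, R) :=
  ⟨!![1, 0; x, 1], by simp [Matrix.det_fin_two]⟩

theorem yuc_gen {R : Type} [CommRing R] (H : Subgroup SL(2, R)) (hU : ∀ x, yucU x ∈ H)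
    (hL : ∀ x, yucL x ∈ H) (g : SL(2, R)) (h : IsUnit (g 1 0)) : g ∈ H := by
  obtain ⟨e, he⟩ := h.exists_right_inv
  have hd : g 0 0 * g 1 1 - g 0 1 * g 1 0 = 1 := by
    have := g.det_coe
    rwa [Matrix.det_fin_two] at this
  have : g = yucU ((g 0 0 - 1) * e) * yucL (g 1 0) * yucU ((g 1 1 - 1) * e) := by
    ext i j
    fin_cases i <;> fin_cases j <;>
      simp [yucU, yucL, Matrix.mul_apply, Fin.sum_univ_two]
    · linear_combination (1 - g 0 0) * he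
    · linear_combination (-e) * hd + (-(g 0 1) - (g 0 0 - 1) * (g 1 1 - 1) * e) * he
    · linear_combination (1 - g 1 1) * he
  rw [this]
  exact H.mul_mem (H.mul_mem (hU _) (hL _)) (hU _)

theorem yuc_P_T (n k : ℕ) : yucP n (ModularGroup.T ^ k) = yucU (k : ZMod n) := by
  ext i j
  rw [yuc_P_apply, ← zpow_natCast]
  have e : (ModularGroup.T ^ (k : ℤ)) i j = (!![1, (k : ℤ); 0, 1] : M2) i j := by
    rw [← ModularGroup.coe_T_zpow]
  rw [e]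
  fin_cases i <;> fin_cases j <;> simp [yucU]

theorem yuc_T_mem (n : ℕ) : ModularGroup.T ^ n ∈ CongruenceSubgroup.Gamma n := by
  rw [yuc_mem, yuc_P_T]
  ext i j
  fin_cases i <;> fin_cases j <;> simp [yucU]

theorem yuc_conj_S {R : Type} [CommRing R] {w : SL(2, R)} (h00 : w 0 0 = 0) (h01 : w 0 1 = -1)
    (h10 : w 1 0 = 1) (h11 : w 1 1 = 0) (x : R) : w * yucU x * w⁻¹ = yucL (-x) := by
  rw [mul_inv_eq_iff_eq_mul]
  ext i j
  fin_cases i <;> fin_cases j <;>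
    simp [yucU, yucL, Matrix.mul_apply, Fin.sum_univ_two, h00, h01, h10, h11]

theorem yuc_conj_D {R : Type} [CommRing R] {t : SL(2, R)} {s s' : R} (hs : s * s' = 1)
    (h00 : t 0 0 = s') (h01 : t 0 1 = 0) (h10 : t 1 0 = 0) (h11 : t 1 1 = s) (x : R) :
    t⁻¹ * yucU x * t = yucU (x * s ^ 2) := by
  rw [mul_assoc, inv_mul_eq_iff_eq_mul]
  ext i j
  fin_cases i <;> fin_cases j <;>
    simp [yucU, Matrix.mul_apply, Fin.sum_univ_two, h00, h01, h10, h11]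
  linear_combination (-(x * s)) * hs

theorem yuc_unit {p : ℕ} (hp : p.Prime) (a : ℕ) {c : ℤ} (h : ¬ (p : ℤ) ∣ c) :
    IsUnit ((c : ℤ) : ZMod (p ^ a)) := by
  rw [ZMod.coe_int_isUnit_iff_isCoprime]
  push_cast
  exact IsCoprime.pow_left
    ((Prime.coprime_iff_not_dvd (Nat.prime_iff_prime_int.1 hp)).2 h)

theorem gamma_gen {M₁ p a : ℕ} (hp : p.Prime) (hM : 0 < M₁) (hc : ¬ p ∣ M₁) {w : SL(2, ℤ)}
    (hw : w ∈ CongruenceSubgroup.Gamma M₁) (hw' : Dv (p ^ a) ((w : M2) - !![0, -1; 1, 0])) :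
    CongruenceSubgroup.Gamma M₁ ≤
      Subgroup.closure {ModularGroup.T ^ M₁, w * ModularGroup.T ^ M₁ * w⁻¹} ⊔
        CongruenceSubgroup.Gamma (M₁ * p ^ a) := by
  have hq : 0 < p ^ a := pow_pos hp.pos a
  have : NeZero (p ^ a) := ⟨hq.ne'⟩
  set H : Subgroup SL(2, ℤ) :=
    Subgroup.closure {ModularGroup.T ^ M₁, w * ModularGroup.T ^ M₁ * w⁻¹} with hH
  have hu : ModularGroup.T ^ M₁ ∈ H := Subgroup.subset_closure (by simp)
  have hl : w * ModularGroup.T ^ M₁ * w⁻¹ ∈ H := Subgroup.subset_closure (by simp)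
  have hHle : H ≤ CongruenceSubgroup.Gamma M₁ := by
    rw [hH, Subgroup.closure_le]
    intro x hx
    rcases hx with rfl | rfl
    · exact yuc_T_mem _
    · exact (ylaNormal M₁).conj_mem _ (yuc_T_mem _) w
  have hunit : IsUnit ((M₁ : ℕ) : ZMod (p ^ a)) := by
    have := yuc_unit hp a (c := (M₁ : ℤ)) (fun h => hc (Int.natCast_dvd_natCast.1 h))
    simpa using this
  obtain ⟨e, he⟩ := hunit.exists_right_inv
  have hk : ∀ x : ZMod (p ^ a), ∃ k : ℕ, ((M₁ * k : ℕ) : ZMod (p ^ a)) = x := fun x =>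
    ⟨(e * x).val, by push_cast; rw [ZMod.natCast_zmod_val, ← mul_assoc, he, one_mul]⟩
  have hU : ∀ x, yucU x ∈ H.map (yucP (p ^ a)) := fun x => by
    obtain ⟨k, rfl⟩ := hk x
    exact ⟨_, H.pow_mem hu k, by rw [← pow_mul, yuc_P_T]⟩
  have hL : ∀ x, yucL x ∈ H.map (yucP (p ^ a)) := fun x => by
    obtain ⟨k, hk'⟩ := hk (-x)
    refine ⟨_, H.pow_mem hl k, ?_⟩
    rw [conj_pow, ← pow_mul, map_mul, map_mul, map_inv, yuc_P_T, hk', yuc_conj_S, neg_neg]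
    all_goals rw [yuc_P_of_Dv hw']; simp
  have hall : ∀ g : SL(2, ℤ), yucP (p ^ a) g ∈ H.map (yucP (p ^ a)) := fun g => by
    by_cases h10 : (p : ℤ) ∣ g 1 0
    · have hd : g 0 0 * g 1 1 - g 0 1 * g 1 0 = 1 := by
        have := g.det_coe
        rwa [Matrix.det_fin_two] at this
      have h00 : ¬ (p : ℤ) ∣ g 0 0 + g 1 0 := fun h => by
        have h1 : (p : ℤ) ∣ g 0 0 := (dvd_add_left h10).1 h
        have h2 : (p : ℤ) ∣ 1 := by
          rw [← hd]; exact dvd_sub (h1.mul_right _) (h10.mul_left _)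
        exact (Nat.prime_iff_prime_int.1 hp).not_dvd_one h2
      have h3 : yucL 1 * yucP (p ^ a) g ∈ H.map (yucP (p ^ a)) := by
        refine yuc_gen _ hU hL _ ?_
        have e1 : (yucL 1 * yucP (p ^ a) g : SL(2, ZMod (p ^ a))) 1 0 =
            ((g 0 0 + g 1 0 : ℤ) : ZMod (p ^ a)) := by
          simp [yucL, Matrix.mul_apply, Fin.sum_univ_two, yuc_P_apply]
        rw [e1]; exact yuc_unit hp a h00
      exact (Subgroup.mul_mem_cancel_left _ (hL 1)).1 h3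
    · exact yuc_gen _ hU hL _ (by rw [yuc_P_apply]; exact yuc_unit hp a h10)
  intro g hg
  obtain ⟨h, hh, e1⟩ := hall g
  have h2 : h⁻¹ * g ∈ CongruenceSubgroup.Gamma (M₁ * p ^ a) := by
    refine yuc_inf (Nat.Coprime.pow_right a ((Nat.Prime.coprime_iff_not_dvd hp).2 hc).symm)
      (Subgroup.mul_mem _ (Subgroup.inv_mem _ (hHle hh)) hg) ?_
    rw [yuc_mem, map_mul, map_inv, e1, inv_mul_cancel]
  have e2 : g = h * (h⁻¹ * g) := by rw [mul_inv_cancel_left]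
  rw [e2]
  exact Subgroup.mul_mem _ (Subgroup.mem_sup_left hh) (Subgroup.mem_sup_right h2)

theorem bnp {a M₀ M : ℕ} (hM₀ : 0 < M₀) (A : Finset ℕ)
    (hp : ∀ p ∈ A, p.Prime ∧ p ≠ 2 ∧ ¬ p ∣ M₀) (hM : M = M₀ * ∏ p ∈ A, p ^ a)
    [Fintype (vcjQ M)] (k f : vcjQ M → ℝ)
    (hf : ∀ p ∈ A, ∀ g, ∑ h ∈ cs (M / p ^ a) M, f (g * h) = 0) :
    (∏ p ∈ A, ((p : ℝ) - 1) / 2) * ∑ g, (∑ h, k h * f (h * g)) ^ 2 ≤
      Fintype.card (vcjQ M) * (∑ h, k h ^ 2) * ∑ g, f g ^ 2 := by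
  have hMpos : 0 < M := by
    rw [hM]; exact Nat.mul_pos hM₀ (prod_pos fun p h => pow_pos (hp p h).1.pos a)
  have hdiv : ∀ p ∈ A, M / p ^ a = M₀ * ∏ p' ∈ A.erase p, p' ^ a := fun p h => by
    rw [hM, ← mul_prod_erase A _ h, mul_left_comm,
      Nat.mul_div_cancel_left _ (pow_pos (hp p h).1.pos a)]
  have hmul : ∀ p ∈ A, M / p ^ a * p ^ a = M := fun p h => by
    rw [hdiv p h, hM, ← mul_prod_erase A _ h]; ring
  have hpos : ∀ p ∈ A, 0 < M / p ^ a := fun p h =>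
    Nat.pos_of_ne_zero fun h0 => by
      have := hmul p h
      rw [h0, zero_mul] at this
      exact hMpos.ne this
  have hcc : ∀ p ∈ A, ∀ p' ∈ A, p ≠ p' → (p ^ a).Coprime (p' ^ a) := fun p h p' h' hne =>
    Nat.Coprime.pow a a ((Nat.coprime_primes (hp p h).1 (hp p' h').1).2 hne)
  have hnd : ∀ p ∈ A, ¬ p ∣ M / p ^ a := fun p h hd => by
    rw [hdiv p h] at hd
    rcases ((hp p h).1.dvd_mul).1 hd with h1 | h1
    · exact (hp p h).2.2 h1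
    · obtain ⟨p', h', h2⟩ := (Prime.dvd_finsetProd_iff (hp p h).1.prime _).1 h1
      have h3 := (Nat.prime_dvd_prime_iff_eq (hp p h).1 (hp p' (mem_of_mem_erase h')).1).1
        ((hp p h).1.dvd_of_dvd_pow h2)
      exact (ne_of_mem_erase h') h3.symm
  have hcop : ∀ p ∈ A, (M / p ^ a).Coprime (p ^ a) := fun p h =>
    Nat.Coprime.pow_right a (((hp p h).1.coprime_iff_not_dvd).2 (hnd p h)).symm
  have hdd : ∀ p ∈ A, ∀ p' ∈ A, p ≠ p' → p ^ a ∣ M / p' ^ a := fun p h p' h' hne => by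
    rw [hdiv p' h']
    exact Dvd.dvd.mul_left (dvd_prod_of_mem (fun x => x ^ a) (mem_erase.2 ⟨hne, h⟩)) _
  have hone : ∀ p ∈ A, ∀ g : SL(2, ℤ), g ∈ CongruenceSubgroup.Gamma (M / p ^ a) →
      g ∈ CongruenceSubgroup.Gamma (p ^ a) → g ∈ CongruenceSubgroup.Gamma M :=
    fun p h g h1 h2 => by
      have := yuc_inf (hcop p h) h1 h2
      rwa [hmul p h] at this
  have hw : ∀ p, ∃ w : SL(2, ℤ), p ∈ A → w ∈ CongruenceSubgroup.Gamma (M / p ^ a) ∧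
      Dv (p ^ a) ((w : M2) - !![0, -1; 1, 0]) := fun p => by
    by_cases h : p ∈ A
    · obtain ⟨γ, h1, h2⟩ := crt_SL ({()} : Finset Unit) (fun _ => p ^ a) (hpos p h)
        (fun _ _ => ⟨pow_pos (hp p h).1.pos a, (hcop p h).symm⟩)
        (fun _ _ _ _ hne => (hne rfl).elim) (fun _ => ModularGroup.S)
      exact ⟨γ, fun _ => ⟨h1, h2 () (mem_singleton_self _)⟩⟩
    · exact ⟨1, fun h' => (h h').elim⟩
  choose w hw using hw
  let π : SL(2, ℤ) →* vcjQ M := QuotientGroup.mk' (CongruenceSubgroup.Gamma M)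
  have hπ : Function.Surjective π := QuotientGroup.mk'_surjective _
  have hπ1 : ∀ g, π g = 1 ↔ g ∈ CongruenceSubgroup.Gamma M := fun g => QuotientGroup.eq_one_iff g
  have hπe : ∀ g g', g⁻¹ * g' ∈ CongruenceSubgroup.Gamma M → π g = π g' := fun g g' h => by
    have := (hπ1 _).2 h
    rwa [map_mul, map_inv, inv_mul_eq_one] at this
  refine bnp_abs A a (fun p => (CongruenceSubgroup.Gamma (M / p ^ a)).map π)
    (fun p => π (ModularGroup.T ^ (M / p ^ a))) (fun p => π (w p))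
    (fun p h => ⟨(hp p h).1, (hp p h).2.1⟩) (fun p _ => (ylaNormal _).map π hπ)
    (fun p h => ⟨?_, Subgroup.mem_map_of_mem π (yuc_T_mem _),
      Subgroup.mem_map_of_mem π (hw p h).1, ?_⟩) ?_ ?_ k f ?_
  · rw [← map_pow, ← pow_mul, hmul p h, hπ1]; exact yuc_T_mem _
  · rintro x ⟨g, hg, rfl⟩
    have h1 := gamma_gen (hp p h).1 (hpos p h) (hnd p h) (hw p h).1 (hw p h).2 hg
    rw [hmul p h] at h1
    have h2 := Subgroup.mem_map_of_mem π h1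
    rw [Subgroup.map_sup, MonoidHom.map_closure, Set.image_pair, map_mul, map_mul, map_inv] at h2
    have h3 : (CongruenceSubgroup.Gamma M).map π = ⊥ := QuotientGroup.map_mk'_self _
    rwa [h3, sup_bot_eq] at h2
  · rintro p h p' h' hne x ⟨g, hg, rfl⟩ x' ⟨g', hg', rfl⟩
    rw [← map_mul, ← map_mul]
    refine hπe _ _ (hone p h _ ?_ ?_)
    · have e : (g * g')⁻¹ * (g' * g) = (g'⁻¹ * g⁻¹ * g'⁻¹⁻¹) * g := by group
      rw [e]
      exact Subgroup.mul_mem _ ((ylaNormal _).conj_mem _ (Subgroup.inv_mem _ hg) _) hg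
    · have hg'' : g' ∈ CongruenceSubgroup.Gamma (p ^ a) := yuc_le (hdd p h p' h' hne) hg'
      have e : (g * g')⁻¹ * (g' * g) = g'⁻¹ * (g⁻¹ * g' * g⁻¹⁻¹) := by group
      rw [e]
      exact Subgroup.mul_mem _ (Subgroup.inv_mem _ hg'') ((ylaNormal _).conj_mem _ hg'' _)
  · intro s hs
    have hD : ∀ p, ∃ D : SL(2, ℤ), ∃ s' : ℤ, p ∈ A →
        ((s p : ℕ) : ZMod (p ^ a)) * (s' : ZMod (p ^ a)) = 1 ∧
        Dv (p ^ a) ((D : M2) - !![s', 0; 0, (s p : ℤ)]) := fun p => by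
      by_cases h : p ∈ A
      · have hc : IsCoprime ((p ^ a : ℕ) : ℤ) (s p : ℤ) :=
          Nat.isCoprime_iff_coprime.2
            (Nat.Coprime.pow_left a (((hp p h).1.coprime_iff_not_dvd).2 (hs p h)))
        obtain ⟨x, y, hxy⟩ := hc
        obtain ⟨D, hD⟩ := exists_lift_SL (pow_pos (hp p h).1.pos a)
          (W := !![y, 0; 0, (s p : ℤ)])
          ⟨-x, by rw [Matrix.det_fin_two_of]; linear_combination hxy⟩
        refine ⟨D, y, fun _ => ⟨?_, fun i j => hD i j⟩⟩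
        have := congrArg (fun z : ℤ => (z : ZMod (p ^ a))) hxy
        simp only [Int.cast_add, Int.cast_mul, Int.cast_natCast, ZMod.natCast_self, mul_zero,
          zero_add, Int.cast_one] at this
        rw [mul_comm]; exact this
      · exact ⟨1, 0, fun h' => (h h').elim⟩
    choose D s' hD using hD
    obtain ⟨t, -, ht⟩ := crt_SL A (fun p => p ^ a) Nat.one_pos
      (fun p h => ⟨pow_pos (hp p h).1.pos a, Nat.coprime_one_right _⟩) hcc D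
    refine ⟨π t, fun p h => ?_⟩
    rw [← map_inv, ← map_mul, ← map_mul, ← map_pow]
    have hT := yuc_T_mem (M / p ^ a)
    refine hπe _ _ (hone p h _ ?_ ?_)
    · refine Subgroup.mul_mem _ (Subgroup.inv_mem _ ?_) (Subgroup.pow_mem _ hT _)
      have := (ylaNormal (M / p ^ a)).conj_mem _ hT t⁻¹
      rwa [inv_inv] at this
    · have hent : ∀ i j, (yucP (p ^ a) t) i j =
          (((!![s' p, 0; 0, (s p : ℤ)] : M2) i j : ℤ) : ZMod (p ^ a)) := fun i j => by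
        rw [yuc_P_of_Dv (ht p h), ← yuc_P_of_Dv (hD p h).2, yuc_P_apply]
      rw [yuc_mem, map_mul, map_inv, inv_mul_eq_one, map_mul, map_mul, map_inv, ← pow_mul,
        yuc_P_T, yuc_P_T, yuc_conj_D (hD p h).1]
      · push_cast; rfl
      all_goals rw [hent]; simp
  · intro p h g
    rw [← hf p h g]
    refine sum_congr ?_ fun _ _ => rfl
    ext c
    obtain ⟨γ, rfl⟩ := hπ c
    have hdv : M / p ^ a ∣ M := Dvd.intro _ (hmul p h)
    rw [mem_filter]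
    refine Iff.trans ?_ (mem_cs hMpos hdv γ).symm
    constructor
    · rintro ⟨-, g', hg', e⟩
      have h1 : g'⁻¹ * γ ∈ CongruenceSubgroup.Gamma M := by
        rw [← hπ1, map_mul, map_inv, e, inv_mul_cancel]
      have h2 := Subgroup.mul_mem _ hg' (yuc_le hdv h1)
      rwa [mul_inv_cancel_left] at h2
    · exact fun hγ => ⟨mem_univ _, Subgroup.mem_map_of_mem π hγ⟩

end Pool.Agent.EQ
end
end
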