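import Pool.Agent.K.MP_ad7a55_nt.C46
import Pool.Agent.K.MP_ad7a55_nt.C47
import Pool.Agent.K.MP_ad7a55_nt.C35
import Pool.Agent.K.MP_ad7a55_nt.C9
import Pool.Agent.K.MP_ad7a55_nt.C48
import Pool.Agent.K.MP_ad7a55_nt.C0
import Pool.Agent.K.MP_ad7a55_nt.C8

-- part Pool.Agent.P.MP_ad7a55_nt.ZWa
section

/-! A large class number forces split primes. -/

set_option autoImplicit false

noncomputable section

open Finset
open scoped Classical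

namespace Pool.Agent.EQ

/-- The sum of the reciprocals of the split primes. -/
def spl (D : ℤ) : ℝ := ∑ p ∈ Nat.primesLE D.natAbs with jacobiSym D p = 1, 1 / (p : ℝ)

theorem zwa_floor {z : ℝ} (hz : 1 ≤ z) :
    2 ≤ ⌊Real.exp z⌋₊ ∧ Real.log (⌊Real.exp z⌋₊ : ℕ) ≤ z := by
  have h1 : (2 : ℝ) ≤ Real.exp z := by linarith [Real.add_one_le_exp z]
  have h2 : 2 ≤ ⌊Real.exp z⌋₊ := Nat.le_floor (by exact_mod_cast h1)
  refine ⟨h2, ?_⟩
  have h3 : (0 : ℝ) < (⌊Real.exp z⌋₊ : ℕ) := by exact_mod_cast (by omega : 0 < ⌊Real.exp z⌋₊)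
  exact (Real.log_le_iff_le_exp h3).2 (Nat.floor_le (by linarith))

theorem zwa_mem {z : ℝ} {p : ℕ} (hp : p.Prime) (h : Real.log p ≤ z) :
    p ∈ Nat.primesLE ⌊Real.exp z⌋₊ := by
  have h3 : (0 : ℝ) < p := by exact_mod_cast hp.pos
  exact Nat.mem_primesLE.2 ⟨Nat.le_floor ((Real.log_le_iff_le_exp h3).1 h), hp⟩

theorem zwa_ll {x : ℝ} (hx : 16 ≤ x) : 1 ≤ Real.log (Real.log x) ∧ 0 < Real.log x := by
  have h1 : Real.log 16 ≤ Real.log x := Real.log_le_log (by norm_num) hx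
  have h2 : Real.log 16 = 4 * Real.log 2 := by
    rw [show (16 : ℝ) = 2 ^ 4 by norm_num, Real.log_pow]; norm_num
  have h3 := Real.log_two_gt_d9
  have h4 := Real.exp_one_lt_d9
  have h5 : 0 < Real.log x := by linarith
  exact ⟨(Real.le_log_iff_exp_le h5).2 (by linarith), h5⟩

theorem zwa_jac (D : ℤ) {l : ℕ} (hl : l.Prime) : (jacobiSym D l : ℝ) / l ≤
    2 * (if jacobiSym D l = 1 then 1 / (l : ℝ) else 0) - 1 / (l : ℝ) +
      (if l ∣ D.natAbs then 1 / (l : ℝ) else 0) := by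
  have h0 : (0 : ℝ) ≤ 1 / (l : ℝ) := by positivity
  have h1 : (0 : ℝ) ≤ if l ∣ D.natAbs then 1 / (l : ℝ) else 0 := by split_ifs <;> simp
  rcases jacobiSym.trichotomy D l with h | h | h
  · have h2 : l ∣ D.natAbs := by
      have h3 := (jacobiSym.eq_zero_iff.1 h).2
      rw [Int.gcd_eq_natAbs, Int.natAbs_natCast, Nat.gcd_comm] at h3
      by_contra h4
      exact h3 ((Nat.Prime.coprime_iff_not_dvd hl).2 h4)
    rw [if_pos h2, h]
    simp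
  · rw [if_pos h, h]
    push_cast
    linarith
  · rw [h, if_neg (by norm_num)]
    push_cast
    rw [neg_div]
    linarith

theorem sum_primes_le : ∃ C : ℝ, ∀ (z : ℝ) (S : Finset ℕ), 1 ≤ z →
    (∀ p ∈ S, p.Prime ∧ Real.log p ≤ z) → ∑ p ∈ S, 1 / (p : ℝ) ≤ Real.log z + C := by
  refine ⟨7, fun z S hz hS => ?_⟩
  obtain ⟨h2, h3⟩ := zwa_floor hz
  have h4 := Lib.Sieve.sum_inv_primes_le h2
  have h5 := Lib.Sieve.one_half_le_log h2
  have h6 := Real.log_le_log (by linarith) h3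
  have h7 : ∑ p ∈ S, 1 / (p : ℝ) ≤ ∑ p ∈ Nat.primesLE ⌊Real.exp z⌋₊, 1 / (p : ℝ) :=
    sum_le_sum_of_subset_of_nonneg (fun p hp => zwa_mem (hS p hp).1 (hS p hp).2)
      fun p _ _ => by positivity
  linarith

theorem sum_range_le : ∃ C : ℝ, ∀ (z z' : ℝ) (S : Finset ℕ), 1 ≤ z → z ≤ z' →
    (∀ p ∈ S, p.Prime ∧ z ≤ Real.log p ∧ Real.log p ≤ z') →
    ∑ p ∈ S, 1 / (p : ℝ) ≤ Real.log (z' / z) + C := by
  refine ⟨9 + Real.log 2, fun z z' S hz hzz hS => ?_⟩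
  obtain ⟨h2, h3⟩ := zwa_floor (hz.trans hzz)
  have e1 : (2 : ℝ) < Real.exp z := by
    have := Real.exp_le_exp.2 hz
    linarith [Real.exp_one_gt_d9]
  have e2 : 2 < ⌈Real.exp z⌉₊ := Nat.lt_ceil.2 (by exact_mod_cast e1)
  obtain ⟨m, hm⟩ : ∃ m, ⌈Real.exp z⌉₊ = m + 1 := ⟨⌈Real.exp z⌉₊ - 1, by omega⟩
  have m2 : 2 ≤ m := by omega
  have m2' : (2 : ℝ) ≤ m := by exact_mod_cast m2
  have m3 : (m : ℝ) < Real.exp z := Nat.lt_ceil.1 (by omega)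
  have m4 : Real.exp z ≤ (m : ℝ) + 1 := by
    have := Nat.le_ceil (Real.exp z)
    rw [hm] at this
    exact_mod_cast this
  have m5 : m ≤ ⌊Real.exp z'⌋₊ := Nat.le_floor (m3.le.trans (Real.exp_le_exp.2 hzz))
  have m6 : z ≤ 2 * Real.log m := by
    have h : z ≤ Real.log ((m : ℝ) ^ 2) :=
      (Real.le_log_iff_exp_le (by positivity)).2 (by nlinarith)
    rw [Real.log_pow] at h
    exact_mod_cast h
  have h4 := range_le m2 m5
  have h5 := Lib.Sieve.one_half_le_log h2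
  have h6 := Lib.Sieve.one_half_le_log m2
  have h7 : ∑ p ∈ S, 1 / (p : ℝ) ≤
      ∑ p ∈ (Nat.primesLE ⌊Real.exp z'⌋₊).filter (fun l => m < l), 1 / (p : ℝ) := by
    refine sum_le_sum_of_subset_of_nonneg (fun p hp => ?_) fun p _ _ => by positivity
    obtain ⟨p1, p2, p3⟩ := hS p hp
    refine mem_filter.2 ⟨zwa_mem p1 p3, ?_⟩
    have p4 : (0 : ℝ) < p := by exact_mod_cast p1.pos
    have p5 := (Real.le_log_iff_exp_le p4).1 p2
    exact_mod_cast m3.trans_le p5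
  have h8 : Real.log (Real.log (⌊Real.exp z'⌋₊ : ℕ)) ≤ Real.log z' :=
    Real.log_le_log (by linarith) h3
  have h9 : Real.log z ≤ Real.log 2 + Real.log (Real.log m) := by
    rw [← Real.log_mul (by norm_num) (by linarith)]
    exact Real.log_le_log (by linarith) m6
  rw [tpr_logdiv m2 m5] at h4
  rw [Real.log_div (by linarith) (by linarith)]
  linarith

theorem sum_factors_le : ∃ C : ℝ, ∀ n : ℕ, 16 ≤ n →
    ∑ p ∈ n.primeFactors, 1 / (p : ℝ) ≤ Real.log (Real.log (Real.log n)) + C := by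
  obtain ⟨C, H⟩ := sum_primes_le
  refine ⟨C + 2, fun n hn => ?_⟩
  obtain ⟨h1, h2⟩ := zwa_ll (x := (n : ℝ)) (by exact_mod_cast hn)
  have h3 := sum_big_primeFactors (n := n) h2 (by omega)
  have h4 := H _ (n.primeFactors.filter (fun l : ℕ => ¬ Real.log n < l)) h1 fun p hp => by
    obtain ⟨p1, p2⟩ := mem_filter.1 hp
    have p3 := Nat.prime_of_mem_primeFactors p1
    exact ⟨p3, Real.log_le_log (by exact_mod_cast p3.pos) (not_lt.1 p2)⟩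
  rw [mul_div_assoc, div_self h2.ne'] at h3
  rw [← sum_filter_add_sum_filter_not n.primeFactors (fun l : ℕ => Real.log n < l)]
  linarith

theorem mass_ge : ∃ C : ℝ, ∀ (D : ℤ) (w : ℝ), IsD D → 16 ≤ -D → 0 < w →
    Real.sqrt (-(D : ℝ)) * (w / Real.log (-(D : ℝ))) ≤ (Cl D).ncard →
    Real.log w ≤ 2 * spl D + Real.log (Real.log (Real.log (-(D : ℝ)))) + C := by
  obtain ⟨C, H⟩ := sum_factors_le
  obtain ⟨K, hK, HK⟩ := Cl_le
  refine ⟨C + 2 + Real.log K, fun D w hD h16 hw h => ?_⟩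
  have ha := tti_abs hD.1
  have hn : 16 ≤ D.natAbs := by omega
  have hx : (16 : ℝ) ≤ -(D : ℝ) := by rw [← ha]; exact_mod_cast hn
  obtain ⟨h1, h2⟩ := zwa_ll hx
  have h3 := H _ hn
  have h4 := Lib.Sieve.le_sum_inv_primes (y := D.natAbs) (by omega)
  rw [ha] at h3 h4
  have hs : 0 < Real.sqrt (-(D : ℝ)) := Real.sqrt_pos.2 (by linarith)
  have h5 : w / Real.log (-(D : ℝ)) ≤ K * EE D D.natAbs := by
    have := h.trans (HK D hD)
    rw [HH, mul_left_comm] at this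
    exact le_of_mul_le_mul_left this hs
  have h6 := Real.log_le_log (div_pos hw h2) h5
  rw [Real.log_div hw.ne' h2.ne', Real.log_mul hK.ne' (EE_pos _ _).ne', EE, Real.log_exp] at h6
  have h7 := sum_le_sum fun l (hl : l ∈ Nat.primesLE D.natAbs) =>
    zwa_jac D (Nat.prime_of_mem_primesLE hl)
  rw [sum_add_distrib, sum_sub_distrib, ← mul_sum, ← sum_filter, ← sum_filter] at h7
  have h8 : ∑ l ∈ (Nat.primesLE D.natAbs).filter (fun l => l ∣ D.natAbs), 1 / (l : ℝ) ≤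
      ∑ p ∈ D.natAbs.primeFactors, 1 / (p : ℝ) := by
    refine sum_le_sum_of_subset_of_nonneg (fun p hp => ?_) fun p _ _ => by positivity
    obtain ⟨p1, p2⟩ := mem_filter.1 hp
    exact Nat.mem_primeFactors.2 ⟨Nat.prime_of_mem_primesLE p1, p2, by omega⟩
  rw [spl]
  linarith

end Pool.Agent.EQ
end
end

-- part Pool.Agent.P.MP_ad7a55_nt.CtE3
section

/-! The bound for exceptional pairs. -/

set_option autoImplicit false

noncomputable section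

open MeasureTheory Topology Filter UpperHalfPlane
open scoped MatrixGroups ENNReal BoundedContinuousFunction

namespace Pool.Agent.EQ

variable (p : ℕ) [Fact p.Prime]

theorem Bad2.mono {n : ℤ} {c c' : ℕ} (hc : c ≤ c') {D₁ D₂ : ℤ} {M₁ M₂ : Lt}
    (h : Bad2 p n c D₁ D₂ M₁ M₂) : Bad2 p n c' D₁ D₂ M₁ M₂ := by
  obtain ⟨α, β, B, h1, h2, h3, h4, h5, h6, h7, m, h8, h9⟩ := h
  have hp : (1 : ℝ) ≤ p := by exact_mod_cast (Fact.out : p.Prime).one_le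
  have hpc : (p : ℝ) ^ c ≤ (p : ℝ) ^ c' := pow_le_pow_right₀ hp hc
  have hv : ∀ M, 0 ≤ vol M := fun M => by
    by_cases hM : IsLat M
    · exact (vol_pos hM).le
    · simp [vol, hM]
  have hv2 := mul_le_mul_of_nonneg_right hpc (hv M₂)
  refine ⟨α, β, B, h1, h2, h3, h4, h5.trans hv2, h6.trans hv2, h7.trans (by gcongr), m, h8,
    fun z hz => ?_⟩
  obtain ⟨k, rfl⟩ := Nat.exists_eq_add_of_le hc
  have e : (m : ℂ) * (p : ℂ) ^ (c + k) * α * z = (p ^ k : ℕ) • ((m : ℂ) * (p : ℂ) ^ c * α * z) := by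
    rw [nsmul_eq_mul]; push_cast; ring
  rw [e]
  exact nsmul_mem (h9 z hz) _

theorem ctE3_finite (n E : ℤ) (g₁ g₂ : ℕ) (𝔩 : Lt) (a : ℂ) (B : ℕ) :
    (Ex3 n E g₁ g₂ 𝔩 a B).Finite := by
  refine ((Cl_finite (g₁ ^ 2 * E)).prod (Cl_finite (g₂ ^ 2 * E))).subset ?_
  rintro z ⟨M₁, M₂, h1, h2, h3, h4, -⟩
  exact ⟨⟨M₁, h1, h3⟩, ⟨M₂, h2, h4⟩⟩

theorem ctE3_cover {α β : Type*} {S : Set α} (A : Finset β) (T : β → Set α)
    (hT : ∀ a, (T a).Finite) (h : ∀ z ∈ S, ∃ a ∈ A, z ∈ T a) :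
    S.ncard ≤ ∑ a ∈ A, (T a).ncard := by
  classical
  have h1 : S ⊆ ↑(A.biUnion fun a => (hT a).toFinset) := fun z hz => by
    obtain ⟨a, ha, hz'⟩ := h z hz
    exact Finset.mem_coe.2 (Finset.mem_biUnion.2 ⟨a, ha, (hT a).mem_toFinset.2 hz'⟩)
  refine (Set.ncard_le_ncard h1 (Finset.finite_toSet _)).trans ?_
  rw [Set.ncard_coe_finset]
  exact Finset.card_biUnion_le.trans
    (le_of_eq (Finset.sum_congr rfl fun a _ => (Set.ncard_eq_toFinset_card _ (hT a)).symm))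

theorem ctE3_swap {β : Type*} (A : Finset β) (H : Finset ℕ) (f : β → ℕ) {W : ℝ}
    (h : ∀ k ∈ H, (k : ℝ) * (A.filter fun a => k ^ 2 ∣ 4 * f a).card ≤ W) :
    ∑ a ∈ A, ∑ k ∈ H.filter (fun k => k ^ 2 ∣ 4 * f a), (k : ℝ) ≤ H.card * W := by
  simp only [Finset.sum_filter]
  rw [Finset.sum_comm, ← nsmul_eq_mul]
  refine Finset.sum_le_card_nsmul _ _ _ fun k hk => le_trans (le_of_eq ?_) (h k hk)
  rw [← Finset.sum_filter, Finset.sum_const, nsmul_eq_mul, mul_comm]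

theorem ctE3_unique {c : ℕ} {E : ℤ} {𝔩 : Lt} (h𝔩 : DiscL 𝔩 E) {s : ℤ} {X : ℝ} {a : ℂ}
    {B B' : ℕ} (h : Lin1 p c E 𝔩 s X a B) (h' : Lin1 p c E 𝔩 s X a B') : B = B' := by
  have h1 := h.2.2.2.1.symm.trans h'.2.2.2.1
  have h2 := add_right_cancel (mul_right_cancel₀ h𝔩.nm_pos.ne' h1)
  exact_mod_cast h2

theorem ctE3_real {P G e q : ℝ} (hP : 1 ≤ P) (hG : 1 ≤ G) (he : 1 ≤ e) (h0 : 0 ≤ q)
    (h1 : q ≤ 1) : Real.sqrt (P * G * e) * q + P * G * e / Real.sqrt e * q ^ 2 ≤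
      2 * P * Real.sqrt (G ^ 2 * e) * q := by
  have a0 : Real.sqrt (G ^ 2 * e) = G * Real.sqrt e := by
    rw [Real.sqrt_mul (by positivity), Real.sqrt_sq (by linarith)]
  have a1 : Real.sqrt (P * G * e) ≤ P * G * Real.sqrt e := by
    rw [Real.sqrt_mul (by positivity)]
    gcongr
    exact Real.sqrt_le_iff.2 ⟨by positivity, le_self_pow₀ (by nlinarith) two_ne_zero⟩
  have a2 : P * G * e / Real.sqrt e = P * G * Real.sqrt e := by
    rw [mul_div_assoc, Real.div_sqrt]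
  have a3 : q ^ 2 ≤ q := by nlinarith
  have a4 : 0 ≤ P * G * Real.sqrt e := by positivity
  rw [a0, a2]
  nlinarith [mul_le_mul_of_nonneg_right a1 h0, mul_le_mul_of_nonneg_left a3 a4]

theorem card_Ex2 {n : ℤ} (hn : n ≠ 0) (c : ℕ) {ε : ℝ} (hε : 0 < ε) : ∃ C : ℝ, 0 < C ∧
    ∀ (E : ℤ) (g₁ g₂ : ℕ), IsD E → Nat.Coprime g₁ g₂ →
      (p : ℝ) ^ (-(c : ℤ)) ≤ ‖(g₁ : ℚ_[p])‖ → (p : ℝ) ^ (-(c : ℤ)) ≤ ‖(g₂ : ℚ_[p])‖ → ∀ w : ℂ,
      ((Ex2 p n c (g₁ ^ 2 * E) (g₂ ^ 2 * E) w).ncard : ℝ) ≤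
        C * (((g₁ : ℝ) * g₂) ^ 2 * (-(E : ℝ))) ^ (1 / 2 + ε) * Real.sqrt ‖(E : ℚ_[p])‖ := by
  classical
  have hpp : p.Prime := Fact.out
  have hp : (1 : ℝ) < p := by exact_mod_cast hpp.one_lt
  have hn0 : 0 < ‖(n : ℚ_[p])‖ := norm_pos_iff.2 (by exact_mod_cast hn)
  obtain ⟨c0, hc0⟩ := pow_unbounded_of_one_lt ‖(n : ℚ_[p])‖⁻¹ hp
  rw [inv_lt_iff_one_lt_mul₀ hn0] at hc0
  obtain ⟨k, hk⟩ : ∃ k, k = c0 + c + c := ⟨_, rfl⟩
  obtain ⟨C1, hC1, hlin⟩ := card_lin1 p k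
  obtain ⟨C0, hC0, hdiv⟩ := div_bound (ε := ε / 4) (by positivity)
  obtain ⟨P, hP⟩ : ∃ P : ℝ, P = (p : ℝ) ^ k := ⟨_, rfl⟩
  have hP1 : 1 ≤ P := hP ▸ one_le_pow₀ hp.le
  have hN : (0 : ℝ) < n.natAbs := by exact_mod_cast Int.natAbs_pos.2 hn
  refine ⟨480 * (n.natAbs : ℝ) ^ 9 * C1 * P * C0 ^ 4 * (4 * P) ^ ε, by positivity,
    fun E g₁ g₂ hE hg h1 h2 w => ?_⟩
  have hpc : (0 : ℝ) < (p : ℝ) ^ (-(c : ℤ)) := by positivity
  have hg1 : g₁ ≠ 0 := by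
    rintro rfl
    rw [Nat.cast_zero, norm_zero] at h1
    exact absurd h1 (not_le.2 hpc)
  have hg2 : g₂ ≠ 0 := by
    rintro rfl
    rw [Nat.cast_zero, norm_zero] at h2
    exact absurd h2 (not_le.2 hpc)
  obtain ⟨G, hG⟩ : ∃ G : ℝ, G = (g₁ : ℝ) * g₂ := ⟨_, rfl⟩
  have hG1 : 1 ≤ G := by
    rw [hG]
    exact_mod_cast Nat.one_le_iff_ne_zero.2 (mul_ne_zero hg1 hg2)
  obtain ⟨e, he⟩ : ∃ e : ℝ, e = -(E : ℝ) := ⟨_, rfl⟩
  have hE0 : E < 0 := hE.1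
  have he1 : 1 ≤ e := by
    rw [he]
    exact_mod_cast (by omega : 1 ≤ -E)
  have heE : (E.natAbs : ℝ) = e := by
    rw [he, Nat.cast_natAbs, abs_of_neg hE0, Int.cast_neg]
  obtain ⟨q, hq⟩ : ∃ q : ℝ, q = ‖(E : ℚ_[p])‖ := ⟨_, rfl⟩
  have hq0 : 0 < q := hq ▸ norm_pos_iff.2 (by exact_mod_cast hE0.ne)
  have hq1 : q ≤ 1 := hq ▸ Padic.norm_int_le_one E
  rw [← hG, ← he, ← hq]
  rcases (Ex2 p n c (g₁ ^ 2 * E) (g₂ ^ 2 * E) w).eq_empty_or_nonempty with h0 | ⟨z0, hz0⟩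
  · rw [h0, Set.ncard_empty, Nat.cast_zero]
    positivity
  obtain ⟨M₁, M₂, m1, m2, -, -, rfl, -⟩ := hz0
  have h𝔩 : DiscL (M₂ * cj M₁) E := (discL_mul_cop hE hg.symm m2 m1.cj).1
  obtain ⟨𝔩, e𝔩⟩ : ∃ 𝔩, 𝔩 = M₂ * cj M₁ := ⟨_, rfl⟩
  rw [← e𝔩] at h𝔩 ⊢
  obtain ⟨s, hs⟩ : ∃ s : ℤ, s = -(n * g₁ * g₂ * E) := ⟨_, rfl⟩
  have hs1 : ‖(E : ℚ_[p])‖ ≤ (p : ℝ) ^ k * ‖(s : ℚ_[p])‖ := by
    have a1 : 1 ≤ (p : ℝ) ^ c * ‖(g₁ : ℚ_[p])‖ := by
      rwa [zpow_neg, zpow_natCast, inv_le_iff_one_le_mul₀' (by positivity)] at h1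
    have a2 : 1 ≤ (p : ℝ) ^ c * ‖(g₂ : ℚ_[p])‖ := by
      rwa [zpow_neg, zpow_natCast, inv_le_iff_one_le_mul₀' (by positivity)] at h2
    rw [hs]
    push_cast
    rw [norm_neg, norm_mul, norm_mul, norm_mul, ← hq, hk]
    calc q = 1 * 1 * 1 * q := by ring
      _ ≤ ((p : ℝ) ^ c0 * ‖(n : ℚ_[p])‖) * ((p : ℝ) ^ c * ‖(g₁ : ℚ_[p])‖) *
          ((p : ℝ) ^ c * ‖(g₂ : ℚ_[p])‖) * q := by gcongr
      _ = _ := by ring
  have hX : (p : ℝ) ^ k * g₁ * g₂ * (-(E : ℝ)) = P * G * e := by rw [hP, hG, he]; ring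
  have hl := hlin E 𝔩 h𝔩 s ⟨-(n * g₁ * g₂), by rw [hs]; ring⟩ hs1 (P * G * e) (by positivity)
  rw [← he, ← hq] at hl
  have h1H : 1 ∈ Hs p E := Finset.mem_filter.2 ⟨Nat.one_mem_divisors.2 (by omega),
    fun h => hpp.one_lt.ne' (Nat.dvd_one.1 h), by simp⟩
  obtain ⟨A, hA⟩ : ∃ A : Finset ℂ, ∀ a, a ∈ A ↔ ∃ B, Lin1 p k E 𝔩 s (P * G * e) a B :=
    ⟨(hl 1 h1H).1.toFinset, fun a => by simp⟩
  have hf : ∀ a, ∃ B : ℕ, a ∈ A → Lin1 p k E 𝔩 s (P * G * e) a B := fun a => by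
    by_cases ha : a ∈ A
    · exact ((hA a).1 ha).imp fun B hB _ => hB
    · exact ⟨0, fun h => (ha h).elim⟩
  choose f hf using hf
  have c1 := ctE3_cover (S := Ex2 p n c (g₁ ^ 2 * E) (g₂ ^ 2 * E) (jL 𝔩)) A
    (fun a => Ex3 n E g₁ g₂ 𝔩 a (f a)) (fun a => ctE3_finite _ _ _ _ _ _ _) (by
      rintro z ⟨N₁, N₂, a1, a2, a3, a4, a5, a6⟩
      obtain ⟨a, B, b1, b2⟩ := Ex2_subset p n k hE hg h𝔩 (z := z)
        ⟨N₁, N₂, a1, a2, a3, a4, a5, a6.mono p (by omega)⟩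
      rw [← hs, hX] at b1
      have ha := (hA a).2 ⟨B, b1⟩
      exact ⟨a, ha, ctE3_unique p h𝔩 b1 (hf a ha) ▸ b2⟩)
  obtain ⟨T, hT⟩ : ∃ T : ℝ, T = C0 * (4 * P * (G ^ 2 * e)) ^ (ε / 4) := ⟨_, rfl⟩
  have hT0 : 0 ≤ T := by rw [hT]; positivity
  have hGG : G ≤ G ^ 2 := le_self_pow₀ hG1 two_ne_zero
  have hd : ∀ m : ℕ, 0 < m → (m : ℝ) ≤ 4 * (P * G * e) → (m.divisors.card : ℝ) ≤ T := by
    intro m a1 a2
    refine (hdiv m a1).trans ?_
    rw [hT]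
    gcongr
    calc (m : ℝ) ≤ 4 * (P * G * e) := a2
      _ ≤ 4 * (P * G ^ 2 * e) := by gcongr
      _ = _ := by ring
  have hPG : e ≤ P * G * e := le_mul_of_one_le_left (by linarith) (by nlinarith)
  have d1 : (E.natAbs.divisors.card : ℝ) ≤ T := hd _ (by omega) (by rw [heE]; linarith)
  have d2 : ((Hs p E).card : ℝ) ≤ T := by
    refine le_trans ?_ (hd (4 * E.natAbs) (by omega) (by push_cast; rw [heE]; linarith))
    exact_mod_cast Finset.card_filter_le _ _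
  have c2 : ∀ a ∈ A, ((Ex3 n E g₁ g₂ 𝔩 a (f a)).ncard : ℝ) * Real.sqrt q ≤
      240 * (n.natAbs : ℝ) ^ 9 * T ^ 3 *
        ∑ h ∈ (Hs p E).filter (fun h => h ^ 2 ∣ 4 * f a), (h : ℝ) := by
    intro a ha
    obtain ⟨-, a1, a2, -⟩ := hf a ha
    have b1 : ((Ex3 n E g₁ g₂ 𝔩 a (f a)).ncard : ℝ) ≤ (Idl E (f a)).ncard *
        (8 * (E.natAbs.divisors.card : ℝ)) * 15 * (n.natAbs : ℝ) ^ 9 := by
      exact_mod_cast card_Ex3 hn hE hg 𝔩 a a1
    have b2 := card_Idl_sum p hE0 a1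
    rw [← hq] at b2
    have b3 := hd (4 * f a) (by omega) (by push_cast; linarith)
    obtain ⟨S, hS⟩ : ∃ S : ℝ, S = ∑ h ∈ (Hs p E).filter (fun h => h ^ 2 ∣ 4 * f a), (h : ℝ) :=
      ⟨_, rfl⟩
    have hS0 : 0 ≤ S := hS ▸ Finset.sum_nonneg fun _ _ => Nat.cast_nonneg _
    rw [← hS] at b2 ⊢
    calc _ ≤ (Idl E (f a)).ncard * (8 * T) * 15 * (n.natAbs : ℝ) ^ 9 * Real.sqrt q := by
          gcongr
          exact b1.trans (by gcongr)
      _ = 120 * (n.natAbs : ℝ) ^ 9 * T * ((Idl E (f a)).ncard * Real.sqrt q) := by ring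
      _ ≤ 120 * (n.natAbs : ℝ) ^ 9 * T * (2 * T ^ 2 * S) :=
          mul_le_mul_of_nonneg_left (b2.trans (by gcongr)) (by positivity)
      _ = _ := by ring
  have c3 := ctE3_swap A (Hs p E) f (W := C1 * (2 * P * Real.sqrt (G ^ 2 * e) * q)) (by
    intro h hh
    refine le_trans ?_ ((hl h hh).2.trans
      (mul_le_mul_of_nonneg_left (ctE3_real hP1 hG1 he1 hq0.le hq1) hC1.le))
    rw [← Set.ncard_coe_finset]
    refine mul_le_mul_of_nonneg_left (Nat.cast_le.2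
      (Set.ncard_le_ncard (fun a ha => ?_) (hl h hh).1)) (Nat.cast_nonneg _)
    obtain ⟨a1, a2⟩ := Finset.mem_filter.1 (Finset.mem_coe.1 ha)
    exact ⟨f a, hf a a1, a2⟩)
  have hsq : 0 < Real.sqrt q := Real.sqrt_pos.2 hq0
  have hT4 : T ^ 4 = C0 ^ 4 * ((4 * P) ^ ε * (G ^ 2 * e) ^ ε) := by
    rw [hT, mul_pow, ← Real.rpow_natCast _ 4, ← Real.rpow_natCast (_ ^ (ε / 4)) 4,
      ← Real.rpow_mul (by positivity), ← Real.mul_rpow (by positivity) (by positivity)]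
    norm_num
  refine le_of_mul_le_mul_right ?_ hsq
  calc ((Ex2 p n c (g₁ ^ 2 * E) (g₂ ^ 2 * E) (jL 𝔩)).ncard : ℝ) * Real.sqrt q
      ≤ (∑ a ∈ A, ((Ex3 n E g₁ g₂ 𝔩 a (f a)).ncard : ℝ)) * Real.sqrt q := by
        gcongr
        exact_mod_cast c1
    _ ≤ 240 * (n.natAbs : ℝ) ^ 9 * T ^ 3 * ∑ a ∈ A,
          ∑ h ∈ (Hs p E).filter (fun h => h ^ 2 ∣ 4 * f a), (h : ℝ) := by
        rw [Finset.sum_mul, Finset.mul_sum]
        exact Finset.sum_le_sum c2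
    _ ≤ 240 * (n.natAbs : ℝ) ^ 9 * T ^ 3 *
          (T * (C1 * (2 * P * Real.sqrt (G ^ 2 * e) * q))) := by
        gcongr
        exact c3.trans (by gcongr)
    _ = 480 * (n.natAbs : ℝ) ^ 9 * C1 * P * T ^ 4 * Real.sqrt (G ^ 2 * e) * q := by ring
    _ = _ := by
        rw [hT4, Real.rpow_add (by positivity), ← Real.sqrt_eq_rpow, mul_assoc _ (Real.sqrt q),
          Real.mul_self_sqrt hq0.le]
        ring

end Pool.Agent.EQ
end
end

-- part Pool.Agent.P.MP_ad7a55_nt.MainA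
section

/-! Galois orbits are unions of ball orbits. -/

set_option autoImplicit false

noncomputable section

open MeasureTheory Topology Filter UpperHalfPlane
open scoped MatrixGroups ENNReal BoundedContinuousFunction

namespace Pool.Agent.EQ

theorem orbit_finite {n : ℕ} (F : IntermediateField ℚ ℂ) {τ : Fin n → ℍ} {D : Fin n → ℤ}
    (h : ∀ k, HasDisc (τ k) (D k)) : (galOrbit F fun k => jInv (τ k)).Finite := by
  refine (Set.Finite.pi' fun k => finite_orbit (discL_one (h k))).subset ?_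
  rintro _ ⟨σ, -, rfl⟩ k
  exact ⟨σ, by rw [jL_one]⟩

theorem orbit_self {n : ℕ} (F : IntermediateField ℚ ℂ) (x : Fin n → ℂ) : x ∈ galOrbit F x :=
  ⟨RingEquiv.refl _, fun _ _ => rfl, rfl⟩

theorem orbit_map {n : ℕ} {F : IntermediateField ℚ ℂ} {x z : Fin n → ℂ} (hz : z ∈ galOrbit F x)
    {σ : ℂ ≃+* ℂ} (hσ : ∀ a ∈ F, σ a = a) : (fun k => σ (z k)) ∈ galOrbit F x := by
  obtain ⟨σ', h', rfl⟩ := hz
  exact ⟨σ'.trans σ, fun a ha => by simp [h' a ha, hσ a ha], rfl⟩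

theorem sum_orbit {n : ℕ} {F : IntermediateField ℚ ℂ} {x : Fin n → ℂ}
    (hx : (galOrbit F x).Finite) {σ : ℂ ≃+* ℂ} (hσ : ∀ a ∈ F, σ a = a) (G : (Fin n → ℂ) → ℝ) :
    ∑ z ∈ hx.toFinset, G (fun k => σ (z k)) = ∑ z ∈ hx.toFinset, G z := by
  have hσ' : ∀ a ∈ F, σ.symm a = a := fun a ha => by
    rw [RingEquiv.symm_apply_eq, hσ a ha]
  refine Finset.sum_nbij' (fun z k => σ (z k)) (fun z k => σ.symm (z k)) ?_ ?_ ?_ ?_ ?_
  · intro z hz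
    exact hx.mem_toFinset.2 (orbit_map (hx.mem_toFinset.1 hz) hσ)
  · intro z hz
    exact hx.mem_toFinset.2 (orbit_map (hx.mem_toFinset.1 hz) hσ')
  · intro z _; simp
  · intro z _; simp
  · intro z _; rfl

/-- Points of the orbit come from CM points with the same discriminants. -/
theorem orbit_lift {n : ℕ} {F : IntermediateField ℚ ℂ} {τ : Fin n → ℍ} {D : Fin n → ℤ}
    (h : ∀ k, HasDisc (τ k) (D k)) (hD : ∀ k, D k < -576) {z : Fin n → ℂ}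
    (hz : z ∈ galOrbit F fun k => jInv (τ k)) (k : Fin n) :
    ∃ t : ℍ, HasDisc t (D k) ∧ jInv t = z k := by
  obtain ⟨σ, -, rfl⟩ := hz
  obtain ⟨M, hM, hj⟩ := jL_surj (σ (jInv (τ k)))
  obtain ⟨c, t, hc, rfl, ht⟩ := disc_gal σ (hD k) (discL_one (h k)) hM (by rw [hj, jL_one])
  exact ⟨t, ht, (jL_sp hc t).symm.trans hj⟩

variable (p : ℕ) [Fact p.Prime]

/-- A continuous function that is constant on the rational points of a ball. -/
theorem integral_of_rat {Φ : ℚ_[p] → ℝ} (hΦ : Continuous Φ) (r : ℤ) {c : ℝ}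
    (h : ∀ y : ℚ, ‖(y : ℚ_[p])‖ ≤ (p : ℝ) ^ r → Φ y = c) : ∫ s, Φ s ∂bm p r = c := by
  have hp : (0 : ℝ) < p := by exact_mod_cast (Fact.out : p.Prime).pos
  have h1 : ∀ s : ℚ_[p], ‖s‖ ≤ (p : ℝ) ^ r → Φ s = c := by
    intro s hs
    have hcl : IsClosed {s : ℚ_[p] | Φ s = c} := isClosed_eq hΦ continuous_const
    refine hcl.closure_subset (Metric.mem_closure_iff.2 fun ε hε => ?_)
    obtain ⟨y, hy⟩ := Padic.rat_dense p s (lt_min hε (zpow_pos hp r))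
    refine ⟨y, h y ?_, by rw [dist_eq_norm]; exact hy.trans_le (min_le_left _ _)⟩
    have : (y : ℚ_[p]) = s + -(s - y) := by ring
    rw [this]
    refine (Padic.nonarchimedean _ _).trans (max_le hs ?_)
    rw [norm_neg]
    exact (hy.trans_le (min_le_right _ _)).le
  rw [integral_congr_ae ((bm_ae p r).mono h1)]
  simp

/-- The data attached to an orbit. -/
structure Fr {n : ℕ} (O : Finset (Fin n → ℂ)) (D : Fin n → ℤ) (j : Fin n) (c : ℕ)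
    (ρ : Fin n → ℚ) (N : Fin n → ℝ) (x : (Fin n → ℂ) → Fin n → XX p)
    (e : (Fin n → ℂ) → Fin n → ℚ_[p]) : Prop where
  pi : ∀ z ∈ O, ∀ k, piX p (x z k) = z k
  nrm : ∀ z ∈ O, ∀ k, ‖-e z k * ρ k‖ = N k
  fr : ∀ z ∈ O, ∀ k, N k ≠ 0 → Frame p (D k) (x z k) (e z k) ∧ 0 < ρ k ∧ ρ k ^ 2 * D k = D j
  le : ∀ k, ‖(D k : ℚ_[p])‖ * N k ^ 2 ≤ ‖(D j : ℚ_[p])‖
  top : ‖(D j : ℚ_[p])‖ ≤ ‖(4 : ℚ_[p])‖ → N j = ‖(2 : ℚ_[p])‖
  sum : ∀ r : ℤ, ‖(D j : ℚ_[p])‖ * ((p : ℝ) ^ r) ^ 2 ≤ (p : ℝ) ^ (-(c : ℤ)) →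
    ∀ G : (Fin n → ℂ) → ℝ, Continuous G → (∃ B, ∀ w, |G w| ≤ B) →
      ∑ z ∈ O, ∫ s, G (fun k => piX p (uP p (-e z k * ρ k * s) • x z k)) ∂bm p r = ∑ z ∈ O, G z

theorem exists_frames (F : IntermediateField ℚ ℂ) [FiniteDimensional ℚ F] (n : ℕ) : ∃ c : ℕ,
    ∀ (τ : Fin n → ℍ) (D : Fin n → ℤ) (h : ∀ k, HasDisc (τ k) (D k)) (j : Fin n),
      ∃ ρ N x e, (∀ k, D k < -576) → Fr p (orbit_finite F h).toFinset D j c ρ N x e := by
  classical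
  obtain ⟨c, hc⟩ := cm_main p F n
  refine ⟨c + 2, fun τ D h j => ?_⟩
  by_cases hD : ∀ k, D k < -576
  swap
  · exact ⟨fun _ => 0, fun _ => 0, fun _ _ => ((1 : GG p) : XX p), fun _ _ => 0,
      fun h' => absurd h' hD⟩
  have hp : (1 : ℝ) < p := by exact_mod_cast (Fact.out : p.Prime).one_lt
  have hneg : ∀ k, D k < 0 := fun k => by linarith [hD k]
  have h1 : ∀ k, ∃ ρ : ℚ, (IsSquare (D k * D j) → 0 < ρ ∧ ρ ^ 2 * D k = D j ∧
      th (D j) = ρ * th (D k)) ∧ (¬ IsSquare (D k * D j) → ρ = 0) := by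
    intro k
    by_cases hk : IsSquare (D k * D j)
    · obtain ⟨ρ, hρ⟩ := exists_ratio (hneg k) (hneg j) hk
      exact ⟨ρ, fun _ => hρ, fun h' => absurd hk h'⟩
    · exact ⟨0, fun h' => absurd h' hk, fun _ => rfl⟩
  choose ρ hρ hρ' using h1
  have h2 : ∀ (z : Fin n → ℂ) (k : Fin n), ∃ (t : ℍ) (x : XX p) (e : ℚ_[p]),
      z ∈ (galOrbit F fun k => jInv (τ k)) → HasDisc t (D k) ∧ jInv t = z k ∧
      piX p x = jInv t ∧ (‖(D k : ℚ_[p])‖ ≤ ‖(4 : ℚ_[p])‖ → Frame p (D k) x e) ∧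
      (¬ ‖(D k : ℚ_[p])‖ ≤ ‖(4 : ℚ_[p])‖ → e = 0) ∧
      ∀ y : ℚ, ‖(y : ℚ_[p]) ^ 2 * D k‖ ≤ (p : ℝ) ^ (-2 : ℤ) →
        piX p (uP p (-e * y) • x) = jL (star p (1 + y * th (D k)) (sp 1 t)) := by
    intro z k
    by_cases hz : z ∈ (galOrbit F fun k => jInv (τ k))
    · obtain ⟨t, ht, hj⟩ := orbit_lift h hD hz k
      obtain ⟨x, e, hx⟩ := exists_frame p ht
      exact ⟨t, x, e, fun _ => ⟨ht, hj, hx⟩⟩
    · exact ⟨I, ((1 : GG p) : XX p), 0, fun h' => absurd h' hz⟩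
  choose t x e hx using h2
  have h2le : ‖(2 : ℚ_[p])‖ ≤ 1 := by simpa using Padic.norm_int_le_one (p := p) 2
  have hrel : ∀ k, IsSquare (D k * D j) → (ρ k : ℚ_[p]) ^ 2 * D k = D j := fun k hk => by
    exact_mod_cast congrArg (fun q : ℚ => (q : ℚ_[p])) (hρ k hk).2.1
  refine ⟨ρ, fun k => if ‖(D k : ℚ_[p])‖ ≤ ‖(4 : ℚ_[p])‖ then ‖(2 : ℚ_[p])‖ * ‖(ρ k : ℚ_[p])‖
    else 0, x, e, fun _ => ⟨?_, ?_, ?_, ?_, ?_, ?_⟩⟩
  · intro z hz k
    have := hx z k ((orbit_finite F h).mem_toFinset.1 hz)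
    rw [this.2.2.1, this.2.1]
  · intro z hz k
    have := hx z k ((orbit_finite F h).mem_toFinset.1 hz)
    split_ifs with hk
    · obtain ⟨g, Θ, -, -, -, -, he⟩ := this.2.2.2.1 hk
      rw [norm_mul, norm_neg, he]
    · rw [this.2.2.2.2.1 hk]; simp
  · intro z hz k hk
    have := hx z k ((orbit_finite F h).mem_toFinset.1 hz)
    have hk1 : ‖(D k : ℚ_[p])‖ ≤ ‖(4 : ℚ_[p])‖ := by
      by_contra h'
      exact hk (if_neg h')
    have hk2 : IsSquare (D k * D j) := by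
      by_contra h'
      exact hk (by simp [hρ' k h'])
    exact ⟨this.2.2.2.1 hk1, (hρ k hk2).1, (hρ k hk2).2.1⟩
  · intro k
    split_ifs with hk
    · by_cases hk2 : IsSquare (D k * D j)
      · rw [← hrel k hk2, norm_mul, norm_pow, mul_pow]
        have := mul_le_one₀ h2le (norm_nonneg _) h2le
        have h3 : 0 ≤ ‖(ρ k : ℚ_[p])‖ ^ 2 * ‖(D k : ℚ_[p])‖ := by positivity
        nlinarith
      · simp [hρ' k hk2]
    · simp
  · intro hj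
    have hsq : IsSquare (D j * D j) := ⟨D j, rfl⟩
    have h3 : ρ j = 1 := by
      have h4 := (hρ j hsq).2.1
      have h5 : (D j : ℚ) ≠ 0 := by exact_mod_cast (hneg j).ne
      have h6 : ρ j ^ 2 = 1 := mul_right_cancel₀ h5 (by rw [h4, one_mul])
      exact (pow_eq_one_iff_of_nonneg (hρ j hsq).1.le two_ne_zero).1 h6
    simp [hj, h3]
  · rintro r hr G hG ⟨B, hB⟩
    have hcont : ∀ z, Continuous fun s : ℚ_[p] =>
        G (fun k => piX p (uP p (-e z k * ρ k * s) • x z k)) := fun z =>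
      hG.comp (continuous_pi fun k => (continuous_piX p).comp
        (((continuous_uP p).comp (continuous_const.mul continuous_id)).smul continuous_const))
    rw [← integral_finsetSum _ fun z _ => Integrable.of_bound (hcont z).aestronglyMeasurable B
      (Eventually.of_forall fun s => hB _)]
    refine integral_of_rat p (continuous_finsetSum _ fun z _ => hcont z) r fun y hy => ?_
    have hy1 : ‖(y : ℚ_[p]) ^ 2 * D j‖ ≤ (p : ℝ) ^ (-((c + 2 : ℕ) : ℤ)) := by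
      refine le_trans ?_ hr
      rw [norm_mul, norm_pow, mul_comm]
      gcongr
    obtain ⟨σ, hσ, hσ'⟩ := hc (Finset.univ.image D)
      (Finset.card_image_le.trans (by simp))
      (fun D' hD' => by
        obtain ⟨k, -, rfl⟩ := Finset.mem_image.1 hD'
        exact ⟨hD k, (h k).isD⟩) (D j) (Finset.mem_image_of_mem _ (Finset.mem_univ _)) y
      (hy1.trans (zpow_le_zpow_right₀ hp.le (by push_cast; linarith)))
    rw [← sum_orbit (orbit_finite F h) hσ G]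
    refine Finset.sum_congr rfl fun z hz => congrArg G (funext fun k => ?_)
    obtain ⟨ht, hj, hπ, -, -, hmv⟩ := hx z k ((orbit_finite F h).mem_toFinset.1 hz)
    have h4 := hσ' (D k) (Finset.mem_image_of_mem _ (Finset.mem_univ _)) _ (discL_one ht)
    rw [jL_one, hj] at h4
    by_cases hk : IsSquare (D k * D j)
    · have h5 := hmv (ρ k * y) (by
        push_cast
        rw [show ((ρ k : ℚ_[p]) * y) ^ 2 * D k = y ^ 2 * ((ρ k : ℚ_[p]) ^ 2 * D k) by ring,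
          hrel k hk]
        exact hy1.trans (zpow_le_zpow_right₀ hp.le (by push_cast; linarith [Int.natCast_nonneg c])))
      rw [h4.1 hk, (hρ k hk).2.2, mul_assoc, ← Rat.cast_mul, h5]
      push_cast
      rw [show (1 : ℂ) + ρ k * y * th (D k) = 1 + y * (ρ k * th (D k)) by ring]
    · rw [h4.2 hk, hρ' k hk, ← hj, ← hπ]
      simp

end Pool.Agent.EQ
end
end

-- part Pool.Agent.P.MP_ad7a55_nt.TAvA
section

/-! The mean of an Euler product over a quadratic family. -/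

set_option autoImplicit false

noncomputable section

open Finset

namespace Pool.Agent.EQ

/-- The Euler product attached to `Y ^ 2 - 4 N`. -/
def Ph (K : ℝ) (N : ℤ) (X : ℕ) (Y : ℤ) : ℝ :=
  Real.exp (∑ l ∈ (Nat.primesLE X).filter (fun l : ℕ => ¬ (l : ℤ) ∣ N),
      (jacobiSym (Y ^ 2 - 4 * N) l : ℝ) / l +
    K * ∑ l ∈ (Y ^ 2 - 4 * N).natAbs.primeFactors, 1 / ((l : ℕ) : ℝ))

theorem Ph_pos (K : ℝ) (N : ℤ) (X : ℕ) (Y : ℤ) : 0 < Ph K N X Y := Real.exp_pos _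

theorem tava_exp_le {t M : ℝ} (h : |t| ≤ M) : Real.exp t ≤ 1 + t + t ^ 2 * Real.exp M := by
  have hM : 0 ≤ M := (abs_nonneg t).trans h
  have h1 : 1 - t ≤ Real.exp (-t) := by linarith [Real.add_one_le_exp (-t)]
  have h2 : Real.exp t * Real.exp (-t) = 1 := by rw [← Real.exp_add]; simp
  have h3 : Real.exp t - 1 ≤ t * Real.exp t := by nlinarith [Real.exp_pos t]
  have h4 : t + 1 ≤ Real.exp t := Real.add_one_le_exp t
  have h5 : Real.exp t ≤ Real.exp M := Real.exp_le_exp.2 ((le_abs_self t).trans h)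
  have h6 : 1 ≤ Real.exp M := Real.one_le_exp hM
  rcases le_total 0 t with ht | ht
  · have a1 : t * (Real.exp t - 1) ≤ t * (t * Real.exp t) := mul_le_mul_of_nonneg_left h3 ht
    have a2 : t ^ 2 * Real.exp t ≤ t ^ 2 * Real.exp M :=
      mul_le_mul_of_nonneg_left h5 (sq_nonneg t)
    nlinarith
  · have a1 : (-t) * (1 - Real.exp t) ≤ (-t) * (-t) :=
      mul_le_mul_of_nonneg_left (by linarith) (by linarith)
    have a2 : t ^ 2 * 1 ≤ t ^ 2 * Real.exp M := mul_le_mul_of_nonneg_left h6 (sq_nonneg t)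
    nlinarith

theorem tava_abs_jac (a : ℤ) (l : ℕ) : |(jacobiSym a l : ℝ)| ≤ 1 := by
  rcases jacobiSym.trichotomy a l with h | h | h <;> simp [h]

theorem tava_dvd_sq {l x y : ℤ} (N : ℤ) (h : l ∣ x - y) :
    l ∣ (x ^ 2 - 4 * N) - (y ^ 2 - 4 * N) := by
  have : (x ^ 2 - 4 * N) - (y ^ 2 - 4 * N) = (x - y) * (x + y) := by ring
  rw [this]
  exact h.mul_right _

theorem tava_jac_per {l : ℕ} {x y : ℤ} (N : ℤ) (h : (l : ℤ) ∣ x - y) :
    jacobiSym (x ^ 2 - 4 * N) l = jacobiSym (y ^ 2 - 4 * N) l :=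
  jacobiSym.mod_left' (Int.modEq_iff_dvd.2 (tava_dvd_sq N h)).symm

theorem tava_dvd_per {l x y : ℤ} (N : ℤ) (h : l ∣ x - y) :
    l ∣ x ^ 2 - 4 * N ↔ l ∣ y ^ 2 - 4 * N :=
  dvd_iff_dvd_of_dvd_sub (tava_dvd_sq N h)

theorem tava_not_dvd {l : ℕ} (hl : l.Prime) (h2 : l ≠ 2) {N : ℤ} (hN : ¬ (l : ℤ) ∣ N) :
    ¬ (l : ℤ) ∣ 4 * N := by
  intro h
  have hp : Prime (l : ℤ) := Nat.prime_iff_prime_int.1 hl
  rcases hp.dvd_or_dvd h with h | h
  · have h4 : l ∣ 2 ^ 2 := by exact_mod_cast h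
    exact h2 ((Nat.prime_dvd_prime_iff_eq hl Nat.prime_two).1 (hl.dvd_of_dvd_pow h4))
  · exact hN h

theorem tava_sum_jac {l : ℕ} (hl : l.Prime) (h2 : l ≠ 2) {N : ℤ} (hN : ¬ (l : ℤ) ∣ N) :
    ∑ r ∈ range l, (jacobiSym ((r : ℤ) ^ 2 - 4 * N) l : ℝ) = -1 := by
  have := sum_jac_sq hl h2 (tava_not_dvd hl h2 hN)
  exact_mod_cast this

theorem tava_roots {l : ℕ} (hl : l.Prime) (a : ℤ) :
    (((range l).filter fun r : ℕ => (l : ℤ) ∣ (r : ℤ) ^ 2 - a).card : ℝ) ≤ 2 := by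
  by_cases h2 : l = 2
  · have := card_filter_le (range l) fun r : ℕ => (l : ℤ) ∣ (r : ℤ) ^ 2 - a
    rw [card_range] at this
    have h3 : ((range l).filter fun r : ℕ => (l : ℤ) ∣ (r : ℤ) ^ 2 - a).card ≤ 2 := h2 ▸ this
    exact_mod_cast h3
  · have h := card_sq_roots hl h2 a
    have h3 : (((range l).filter fun r : ℕ => (l : ℤ) ∣ (r : ℤ) ^ 2 - a).card : ℤ) ≤ 2 := by
      rw [h]
      rcases jacobiSym.trichotomy a l with h | h | h <;> simp [h]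
    exact_mod_cast h3

/-- The mean of one local factor. -/
theorem tava_local (K : ℝ) {l : ℕ} (hl : l.Prime) (N : ℤ) {c : ℝ} (hc : |c| ≤ 4)
    (h0 : (l : ℤ) ∣ N → c = 0) :
    ∑ r ∈ range l, Real.exp ((c * (jacobiSym ((r : ℤ) ^ 2 - 4 * N) l : ℝ) +
        (if (l : ℤ) ∣ (r : ℤ) ^ 2 - 4 * N then K else 0)) / l) ≤
      l * Real.exp ((8 + 2 * |K| + (4 + |K|) ^ 2 * Real.exp (4 + |K|)) / (l : ℝ) ^ 2) := by
  have hl1 : (1 : ℝ) ≤ l := by exact_mod_cast hl.one_le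
  have hl0 : (0 : ℝ) < l := by linarith
  have hK : 0 ≤ |K| := abs_nonneg K
  set u : ℕ → ℝ := fun r => c * (jacobiSym ((r : ℤ) ^ 2 - 4 * N) l : ℝ) +
    (if (l : ℤ) ∣ (r : ℤ) ^ 2 - 4 * N then K else 0) with hu
  have hub : ∀ r, |u r| ≤ 4 + |K| := by
    intro r
    refine (abs_add_le _ _).trans (add_le_add ?_ ?_)
    · rw [abs_mul]
      have := tava_abs_jac ((r : ℤ) ^ 2 - 4 * N) l
      nlinarith [abs_nonneg c, abs_nonneg (jacobiSym ((r : ℤ) ^ 2 - 4 * N) l : ℝ)]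
    · split_ifs <;> simp
  have hpt : ∀ r ∈ range l, Real.exp (u r / l) ≤
      1 + u r / l + (4 + |K|) ^ 2 * Real.exp (4 + |K|) / (l : ℝ) ^ 2 := by
    intro r _
    have a1 : |u r / l| ≤ 4 + |K| := by
      rw [abs_div, abs_of_pos hl0]
      exact (div_le_self (abs_nonneg _) hl1).trans (hub r)
    refine (tava_exp_le a1).trans (add_le_add_right ?_ _)
    have a2 : u r ^ 2 ≤ (4 + |K|) ^ 2 := by
      rw [← sq_abs]
      exact pow_le_pow_left₀ (abs_nonneg _) (hub r) 2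
    rw [div_pow, div_mul_eq_mul_div]
    exact div_le_div_of_nonneg_right (mul_le_mul_of_nonneg_right a2 (Real.exp_pos _).le)
      (by positivity)
  have hs1 : ∑ r ∈ range l, c * (jacobiSym ((r : ℤ) ^ 2 - 4 * N) l : ℝ) ≤ 8 := by
    by_cases hN : (l : ℤ) ∣ N
    · simp [h0 hN]
    by_cases h2 : l = 2
    · have : ∀ r ∈ range l, c * (jacobiSym ((r : ℤ) ^ 2 - 4 * N) l : ℝ) ≤ 4 := by
        intro r _
        refine (le_abs_self _).trans ?_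
        rw [abs_mul]
        have := tava_abs_jac ((r : ℤ) ^ 2 - 4 * N) l
        nlinarith [abs_nonneg c, abs_nonneg (jacobiSym ((r : ℤ) ^ 2 - 4 * N) l : ℝ)]
      refine (sum_le_sum this).trans ?_
      rw [sum_const, card_range, h2]
      norm_num
    · rw [← mul_sum, tava_sum_jac hl h2 hN]
      linarith [neg_abs_le c]
  have hs2 : ∑ r ∈ range l, (if (l : ℤ) ∣ (r : ℤ) ^ 2 - 4 * N then K else 0) ≤ 2 * |K| := by
    rw [← sum_filter, sum_const, nsmul_eq_mul]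
    have a1 := tava_roots hl (4 * N)
    have a2 : (0 : ℝ) ≤ (((range l).filter
      fun r : ℕ => (l : ℤ) ∣ (r : ℤ) ^ 2 - 4 * N).card : ℝ) := by positivity
    nlinarith [le_abs_self K]
  have hs : ∑ r ∈ range l, u r ≤ 8 + 2 * |K| := by
    rw [hu, sum_add_distrib]
    linarith
  refine (sum_le_sum hpt).trans ?_
  rw [sum_add_distrib, sum_add_distrib, ← sum_div, sum_const, sum_const, card_range,
    nsmul_eq_mul, nsmul_eq_mul]
  have a3 := Real.add_one_le_exp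
    ((8 + 2 * |K| + (4 + |K|) ^ 2 * Real.exp (4 + |K|)) / (l : ℝ) ^ 2)
  refine le_trans ?_ (mul_le_mul_of_nonneg_left a3 hl0.le)
  have a4 : (∑ r ∈ range l, u r) / l ≤ (8 + 2 * |K|) / l :=
    div_le_div_of_nonneg_right hs hl0.le
  have a5 : (l : ℝ) * ((8 + 2 * |K| + (4 + |K|) ^ 2 * Real.exp (4 + |K|)) / (l : ℝ) ^ 2 + 1) =
      l * 1 + (8 + 2 * |K|) / l + l * ((4 + |K|) ^ 2 * Real.exp (4 + |K|) / (l : ℝ) ^ 2) := by
    field_simp
    ring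
  rw [a5]
  linarith

theorem tava_inv_sq {z : ℕ} (hz : 1 ≤ z) (Q : Finset ℕ) (hQ : ∀ l ∈ Q, z < l) :
    ∑ l ∈ Q, 1 / ((l : ℕ) : ℝ) ^ 2 ≤ 1 / (z : ℝ) := by
  have hsub : Q ⊆ Ioc z (z + Q.sup id) := by
    intro l hl
    have : l ≤ Q.sup id := le_sup (f := id) hl
    exact mem_Ioc.2 ⟨hQ l hl, by omega⟩
  have h1 := sum_Ioc_inv_sq_le_sub (α := ℝ) (k := z) (n := z + Q.sup id) (by omega) (by omega)
  have h2 : (0 : ℝ) ≤ (((z + Q.sup id : ℕ) : ℝ))⁻¹ := by positivity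
  simp only [one_div]
  refine (sum_le_sum_of_subset_of_nonneg hsub fun i _ _ => by positivity).trans ?_
  linarith

theorem tava_Icc (H : ℕ) : Icc (-(H : ℤ)) H = Ico (-(H : ℤ)) (-(H : ℤ) + (2 * H + 1 : ℕ)) := by
  ext x
  simp only [mem_Icc, mem_Ico]
  push_cast
  omega

/-- The small primes. -/
theorem av_small (K : ℝ) : ∃ C : ℝ, 0 < C ∧ ∀ (N : ℤ) (H : ℕ) (Q : Finset ℕ) (c : ℕ → ℝ),
    (∀ l ∈ Q, l.Prime ∧ |c l| ≤ 4 ∧ ((l : ℤ) ∣ N → c l = 0)) → ∏ l ∈ Q, l ≤ H →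
    ∑ Y ∈ Icc (-(H : ℤ)) H, Real.exp (∑ l ∈ Q, (c l * (jacobiSym (Y ^ 2 - 4 * N) l : ℝ) +
        (if (l : ℤ) ∣ Y ^ 2 - 4 * N then K else 0)) / l) ≤ C * H := by
  set B : ℝ := 8 + 2 * |K| + (4 + |K|) ^ 2 * Real.exp (4 + |K|) with hB
  have hB0 : 0 ≤ B := by positivity
  refine ⟨4 * Real.exp B, by positivity, fun N H Q c hQ hH => ?_⟩
  set F : ℕ → ℤ → ℝ := fun l Y => Real.exp ((c l * (jacobiSym (Y ^ 2 - 4 * N) l : ℝ) +
    (if (l : ℤ) ∣ Y ^ 2 - 4 * N then K else 0)) / l) with hF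
  have hper : ∀ (l : ℕ) (x y : ℤ), (l : ℤ) ∣ x - y → F l x = F l y := by
    intro l x y h
    simp only [hF, tava_jac_per N h, tava_dvd_per N h]
  have hq : 0 < ∏ l ∈ Q, l := prod_pos fun l hl => (hQ l hl).1.pos
  have hq' : (0 : ℝ) < ((∏ l ∈ Q, l : ℕ) : ℝ) := by exact_mod_cast hq
  have hH' : ((∏ l ∈ Q, l : ℕ) : ℝ) ≤ H := by exact_mod_cast hH
  have hH1 : (1 : ℝ) ≤ H := by exact_mod_cast hq.trans_le hH
  have h1 := sum_le_period hq (F := fun Y => ∏ l ∈ Q, F l Y)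
    (fun x => prod_nonneg fun l _ => (Real.exp_pos _).le)
    (fun x y h => prod_congr rfl fun l hl => hper l x y
      ((Int.natCast_dvd_natCast.2 (dvd_prod_of_mem (fun l => l) hl)).trans h))
    (-(H : ℤ)) (2 * H + 1)
  have h2 := sum_period_prod Q (fun l hl => (hQ l hl).1) (fun _ => 1) F
    (fun l _ x y h => hper l x y (by simpa using h))
  simp only [pow_one] at h2
  have h3 : ∏ l ∈ Q, ∑ r ∈ range l, F l r ≤ ∏ l ∈ Q, (l * Real.exp (B / (l : ℝ) ^ 2)) :=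
    prod_le_prod (fun l _ => sum_nonneg fun r _ => (Real.exp_pos _).le)
      fun l hl => tava_local K (hQ l hl).1 N (hQ l hl).2.1 (hQ l hl).2.2
  have h4 : ∑ l ∈ Q, B / (l : ℝ) ^ 2 ≤ B := by
    have a1 := tava_inv_sq le_rfl Q fun l hl => (hQ l hl).1.one_lt
    have a2 : ∑ l ∈ Q, B / (l : ℝ) ^ 2 = B * ∑ l ∈ Q, 1 / (l : ℝ) ^ 2 := by
      rw [mul_sum]
      exact sum_congr rfl fun l _ => by ring
    rw [a2]
    have a3 : ∑ l ∈ Q, 1 / (l : ℝ) ^ 2 ≤ 1 := by simpa using a1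
    exact mul_le_of_le_one_right hB0 a3
  rw [prod_mul_distrib, ← Real.exp_sum, ← Nat.cast_prod] at h3
  have h5 : ∏ l ∈ Q, ∑ r ∈ range l, F l r ≤ ((∏ l ∈ Q, l : ℕ) : ℝ) * Real.exp B :=
    h3.trans (mul_le_mul_of_nonneg_left (Real.exp_le_exp.2 h4) hq'.le)
  rw [h2] at h1
  simp only [Real.exp_sum]
  rw [tava_Icc]
  refine h1.trans ((mul_le_mul_of_nonneg_left h5 (by positivity)).trans ?_)
  have h6 : (((2 * H + 1 : ℕ) : ℝ) / ((∏ l ∈ Q, l : ℕ) : ℝ) + 1) *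
      (((∏ l ∈ Q, l : ℕ) : ℝ) * Real.exp B) =
      (2 * H + 1 + ((∏ l ∈ Q, l : ℕ) : ℝ)) * Real.exp B := by
    field_simp
    push_cast
    ring
  rw [h6]
  nlinarith [Real.exp_pos B]

/-- The correlation of two different primes. -/
theorem tava_pair (N : ℤ) (H : ℕ) {l m : ℕ} (hl : l.Prime) (hm : m.Prime) (hl2 : l ≠ 2)
    (hm2 : m ≠ 2) (hlm : l ≠ m) (hlN : ¬ (l : ℤ) ∣ N) (hmN : ¬ (m : ℤ) ∣ N) :
    ∑ Y ∈ Icc (-(H : ℤ)) H, (jacobiSym (Y ^ 2 - 4 * N) l : ℝ) * (jacobiSym (Y ^ 2 - 4 * N) m : ℝ) ≤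
      (2 * H + 1) / ((l : ℝ) * m) + 2 * ((l : ℝ) * m) := by
  have hq : 0 < l * m := Nat.mul_pos hl.pos hm.pos
  have hq1 : (1 : ℝ) ≤ (l : ℝ) * m := by exact_mod_cast hq
  have h1 := sum_le_period hq (F := fun Y => 1 +
      (jacobiSym (Y ^ 2 - 4 * N) l : ℝ) * (jacobiSym (Y ^ 2 - 4 * N) m : ℝ))
    (fun x => by
      have a1 := tava_abs_jac (x ^ 2 - 4 * N) l
      have a2 := tava_abs_jac (x ^ 2 - 4 * N) m
      have a3 := neg_abs_le
        ((jacobiSym (x ^ 2 - 4 * N) l : ℝ) * (jacobiSym (x ^ 2 - 4 * N) m : ℝ))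
      rw [abs_mul] at a3
      nlinarith [abs_nonneg (jacobiSym (x ^ 2 - 4 * N) l : ℝ),
        abs_nonneg (jacobiSym (x ^ 2 - 4 * N) m : ℝ)])
    (fun x y h => by
      have h' : (l : ℤ) * m ∣ x - y := by exact_mod_cast h
      simp only [tava_jac_per N ((dvd_mul_right _ _).trans h'),
        tava_jac_per N ((dvd_mul_left _ _).trans h')])
    (-(H : ℤ)) (2 * H + 1)
  have h2 := sum_period_prod {l, m} (by
      intro p hp
      rcases mem_insert.1 hp with rfl | hp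
      · exact hl
      · rw [mem_singleton.1 hp]; exact hm) (fun _ => 1)
    (fun p Y => (jacobiSym (Y ^ 2 - 4 * N) p : ℝ))
    (fun p _ x y h => by simp only [tava_jac_per N (by simpa using h : (p : ℤ) ∣ x - y)])
  simp only [pow_one, prod_pair hlm] at h2
  rw [tava_sum_jac hl hl2 hlN, tava_sum_jac hm hm2 hmN] at h2
  rw [sum_add_distrib, sum_add_distrib, h2, sum_const, sum_const, card_range, Int.card_Ico,
    nsmul_eq_mul, nsmul_eq_mul, ← tava_Icc] at h1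
  have h3 : (-(H : ℤ) + ((2 * H + 1 : ℕ) : ℤ) - -(H : ℤ)).toNat = 2 * H + 1 := by omega
  rw [h3] at h1
  have h4 : (((2 * H + 1 : ℕ) : ℝ) / ((l * m : ℕ) : ℝ) + 1) * (((l * m : ℕ) : ℝ) * 1 + -1 * -1) =
      ((2 * H + 1 : ℕ) : ℝ) * 1 + (2 * H + 1) / ((l : ℝ) * m) + (l : ℝ) * m + 1 := by
    have hl0 : (l : ℝ) ≠ 0 := by exact_mod_cast hl.ne_zero
    have hm0 : (m : ℝ) ≠ 0 := by exact_mod_cast hm.ne_zero
    push_cast
    field_simp
    ring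
  rw [h4] at h1
  linarith

/-- The variance over the middle range. -/
theorem av_var (N : ℤ) (H z : ℕ) (hz : 2 ≤ z) (Q : Finset ℕ)
    (hQ : ∀ l ∈ Q, l.Prime ∧ z < l ∧ l ^ 4 ≤ H ∧ ¬ (l : ℤ) ∣ N) :
    ∑ Y ∈ Icc (-(H : ℤ)) H, (∑ l ∈ Q, (jacobiSym (Y ^ 2 - 4 * N) l : ℝ) / l) ^ 2 ≤
      6 * H / z + 4 * Real.sqrt H := by
  have hz0 : (0 : ℝ) < z := by exact_mod_cast (by omega : 0 < z)
  have hz1 : (1 : ℝ) ≤ z := by exact_mod_cast (by omega : 1 ≤ z)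
  rcases Q.eq_empty_or_nonempty with rfl | hne
  · simp only [sum_empty, ne_eq, OfNat.ofNat_ne_zero, not_false_eq_true, zero_pow,
      sum_const_zero]
    positivity
  have hmax := hQ _ (Q.max'_mem hne)
  have hH1 : (1 : ℝ) ≤ H := by
    have : 1 ≤ H := (Nat.one_le_pow _ _ hmax.1.pos).trans hmax.2.2.1
    exact_mod_cast this
  have hcard : (Q.card : ℝ) ^ 2 ≤ Real.sqrt H := by
    have a1 : Q ⊆ Icc 1 (Q.max' hne) := fun l hl =>
      mem_Icc.2 ⟨(hQ l hl).1.one_le, Q.le_max' l hl⟩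
    have a2 := card_le_card a1
    rw [Nat.card_Icc, Nat.add_sub_cancel] at a2
    have a3 : Q.card ^ 4 ≤ H := (Nat.pow_le_pow_left a2 4).trans hmax.2.2.1
    have a4 : (Q.card : ℝ) ^ 4 ≤ H := by exact_mod_cast a3
    refine Real.le_sqrt_of_sq_le ?_
    rw [← pow_mul]
    exact a4
  have hs := tava_inv_sq (by omega : 1 ≤ z) Q fun l hl => (hQ l hl).2.1
  have hs0 : 0 ≤ ∑ l ∈ Q, 1 / (l : ℝ) ^ 2 := sum_nonneg fun l _ => by positivity
  have hterm : ∀ l ∈ Q, ∀ m ∈ Q, ∑ Y ∈ Icc (-(H : ℤ)) H,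
      (jacobiSym (Y ^ 2 - 4 * N) l : ℝ) / l * ((jacobiSym (Y ^ 2 - 4 * N) m : ℝ) / m) ≤
      (if l = m then (2 * H + 1) * (1 / (l : ℝ) ^ 2) else 0) +
        (2 * H + 1) * (1 / (l : ℝ) ^ 2 * (1 / (m : ℝ) ^ 2)) + 2 := by
    intro l hl m hm
    have hl0 : (0 : ℝ) < l := by exact_mod_cast (hQ l hl).1.pos
    have hm0 : (0 : ℝ) < m := by exact_mod_cast (hQ m hm).1.pos
    split_ifs with hlm
    · subst hlm
      have a1 : ∀ Y ∈ Icc (-(H : ℤ)) H,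
          (jacobiSym (Y ^ 2 - 4 * N) l : ℝ) / l * ((jacobiSym (Y ^ 2 - 4 * N) l : ℝ) / l) ≤
          1 / (l : ℝ) ^ 2 := by
        intro Y _
        rw [div_mul_div_comm, ← sq, ← sq]
        refine div_le_div_of_nonneg_right ?_ (by positivity)
        exact (sq_le_one_iff_abs_le_one _).2 (tava_abs_jac _ _)
      refine (sum_le_sum a1).trans ?_
      rw [sum_const, Int.card_Icc, nsmul_eq_mul]
      have a2 : ((H : ℤ) + 1 - -(H : ℤ)).toNat = 2 * H + 1 := by omega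
      rw [a2]
      push_cast
      have a3 : (0 : ℝ) ≤ (2 * H + 1) * (1 / (l : ℝ) ^ 2 * (1 / (l : ℝ) ^ 2)) := by positivity
      linarith
    · have a1 := tava_pair N H (hQ l hl).1 (hQ m hm).1 (by have := (hQ l hl).2.1; omega)
        (by have := (hQ m hm).2.1; omega) hlm (hQ l hl).2.2.2 (hQ m hm).2.2.2
      simp only [div_mul_div_comm]
      rw [← sum_div, div_le_iff₀ (by positivity)]
      refine a1.trans (le_of_eq ?_)
      field_simp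
      ring
  rw [sum_congr rfl fun Y _ => (sq _).trans (sum_mul_sum _ _ _ _), sum_comm]
  refine (sum_le_sum fun l hl => (sum_comm.le.trans (sum_le_sum (hterm l hl)))).trans ?_
  have e1 : ∑ l ∈ Q, ∑ m ∈ Q, ((if l = m then (2 * H + 1) * (1 / (l : ℝ) ^ 2) else 0) +
        (2 * H + 1) * (1 / (l : ℝ) ^ 2 * (1 / (m : ℝ) ^ 2)) + 2) =
      (2 * H + 1) * (∑ l ∈ Q, 1 / (l : ℝ) ^ 2) +
        (2 * H + 1) * ((∑ l ∈ Q, 1 / (l : ℝ) ^ 2) * ∑ l ∈ Q, 1 / (l : ℝ) ^ 2) +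
        2 * (Q.card : ℝ) ^ 2 := by
    simp only [sum_add_distrib]
    congr 1
    · congr 1
      · rw [mul_sum]
        exact sum_congr rfl fun l hl => by rw [sum_ite_eq, if_pos hl]
      · rw [sum_mul_sum]
        simp only [mul_sum]
    · simp only [sum_const, nsmul_eq_mul]
      ring
  rw [e1]
  have e2 : (1 : ℝ) / z ≤ 1 := by rw [div_le_one hz0]; exact hz1
  have e3 := (mul_le_of_le_one_right hs0 (hs.trans e2)).trans hs
  have e4 : (0 : ℝ) ≤ 2 * H + 1 := by positivity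
  have e5 := mul_le_mul_of_nonneg_left hs e4
  have e6 := mul_le_mul_of_nonneg_left e3 e4
  have e7 : (2 * H + 1) * ((1 : ℝ) / z) ≤ 3 * H * (1 / z) :=
    mul_le_mul_of_nonneg_right (by linarith) (by positivity)
  have e8 : 6 * (H : ℝ) / z = 2 * (3 * H * (1 / z)) := by ring
  have e9 := Real.sqrt_nonneg (H : ℝ)
  linarith

/-- The large primes. -/
theorem av_large : ∃ C : ℝ, ∀ (N Y : ℤ) (H X : ℕ), 1 ≤ H → N ≠ 0 → |N| ≤ H ^ 2 → |Y| ≤ H →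
    ¬ IsSquare (Y ^ 2 - 4 * N) →
    ∑ l ∈ (Nat.primesLE X).filter (fun l : ℕ => ¬ (l : ℤ) ∣ N ∧ H < l ^ 4),
      (jacobiSym (Y ^ 2 - 4 * N) l : ℝ) / l ≤ C := by
  obtain ⟨C₁, h₁⟩ := range_pow 25
  obtain ⟨C₂, h₂⟩ := tail_le
  refine ⟨1 + C₁ + C₂, fun N Y H X hH hN hNH hY hsq => ?_⟩
  have hex : ∃ v : ℕ, H < v ^ 4 := ⟨H + 1, by nlinarith [Nat.le_self_pow (by norm_num : 4 ≠ 0) (H + 1)]⟩
  set v := Nat.find hex with hv
  have hv1 : H < v ^ 4 := Nat.find_spec hex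
  have hv2 : 2 ≤ v := by
    by_contra h
    have : v ^ 4 ≤ 1 ^ 4 := Nat.pow_le_pow_left (by omega) 4
    omega
  set z := 400 * H ^ 4 with hz
  have hH4 : 1 ≤ H ^ 4 := Nat.one_le_pow _ _ hH
  have hzv : z ≤ v ^ 25 := by
    have a1 : H ^ 4 ≤ (v ^ 4) ^ 4 := Nat.pow_le_pow_left hv1.le 4
    have a2 : 2 ^ 9 ≤ v ^ 9 := Nat.pow_le_pow_left hv2 9
    calc z ≤ v ^ 9 * (v ^ 4) ^ 4 := Nat.mul_le_mul (by omega) a1
      _ = v ^ 25 := by ring
  have hD : (4 * (Y ^ 2 - 4 * N).natAbs) ^ 2 ≤ z := by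
    have a1 : Y ^ 2 ≤ (H : ℤ) ^ 2 := by
      rw [← sq_abs]
      exact pow_le_pow_left₀ (abs_nonneg _) hY 2
    have a2 : |Y ^ 2 - 4 * N| ≤ 5 * (H : ℤ) ^ 2 := by
      rw [abs_le] at hNH ⊢
      constructor <;> nlinarith [sq_nonneg Y]
    have a3 : (Y ^ 2 - 4 * N).natAbs ≤ 5 * H ^ 2 := by
      rw [← Int.natCast_natAbs] at a2
      exact_mod_cast a2
    calc (4 * (Y ^ 2 - 4 * N).natAbs) ^ 2 ≤ (4 * (5 * H ^ 2)) ^ 2 :=
          Nat.pow_le_pow_left (by omega) 2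
      _ = z := by rw [hz]; ring
  have hHz : H ^ 2 ≤ z := by
    have : H ^ 2 ≤ H ^ 4 := Nat.pow_le_pow_right hH (by norm_num)
    omega
  have t2 := h₂ _ _ (rc_jc hsq) z X (by omega) hD
  have t1 := h₁ v z hzv
  rw [← sum_filter_add_sum_filter_not _ (fun l => z < l)]
  have b2 : ∑ l ∈ ((Nat.primesLE X).filter (fun l : ℕ => ¬ (l : ℤ) ∣ N ∧ H < l ^ 4)).filter
      (fun l => z < l), (jacobiSym (Y ^ 2 - 4 * N) l : ℝ) / l =
      ∑ l ∈ (Nat.primesLE X).filter (fun l => z < l), jc (Y ^ 2 - 4 * N) l / l := by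
    refine sum_congr ?_ fun l hl => ?_
    · ext l
      simp only [mem_filter]
      refine ⟨fun h => ⟨h.1.1, h.2⟩, fun h => ⟨⟨h.1, fun hd => ?_, ?_⟩, h.2⟩⟩
      · have a1 := Int.le_of_dvd (abs_pos.2 hN) ((dvd_abs _ _).2 hd)
        have a2 : (l : ℤ) ≤ (H : ℤ) ^ 2 := a1.trans hNH
        have a3 : l ≤ H ^ 2 := by exact_mod_cast a2
        omega
      · have a1 : H ≤ H ^ 2 := Nat.le_self_pow (by norm_num) H
        have a2 : l ≤ l ^ 4 := Nat.le_self_pow (by norm_num) l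
        omega
    · have a1 := mem_filter.1 hl
      have a2 : Odd l := (Nat.mem_primesLE.1 a1.1).2.odd_of_ne_two (by omega)
      rw [jc, if_pos a2]
  have b1 : ∑ l ∈ ((Nat.primesLE X).filter (fun l : ℕ => ¬ (l : ℤ) ∣ N ∧ H < l ^ 4)).filter
      (fun l => ¬ z < l), (jacobiSym (Y ^ 2 - 4 * N) l : ℝ) / l ≤ 1 + C₁ := by
    have a1 : ((Nat.primesLE X).filter (fun l : ℕ => ¬ (l : ℤ) ∣ N ∧ H < l ^ 4)).filter
        (fun l => ¬ z < l) ⊆ insert v ((Nat.primesLE z).filter (fun l => v < l)) := by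
      intro l hl
      simp only [mem_filter, mem_insert, Nat.mem_primesLE] at hl ⊢
      have a2 : v ≤ l := Nat.find_min' hex hl.1.2.2
      rcases a2.eq_or_lt with h | h
      · exact Or.inl h.symm
      · exact Or.inr ⟨⟨by omega, hl.1.1.2⟩, h⟩
    have a2 : (1 : ℝ) / v ≤ 1 := by
      rw [div_le_one (by exact_mod_cast (by omega : 0 < v))]
      exact_mod_cast (by omega : 1 ≤ v)
    refine (sum_le_sum (g := fun l : ℕ => 1 / (l : ℝ)) fun l _ =>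
      div_le_div_of_nonneg_right ((le_abs_self _).trans (tava_abs_jac _ _))
        (by positivity)).trans ?_
    refine (sum_le_sum_of_subset_of_nonneg a1 fun i _ _ => by positivity).trans ?_
    rw [sum_insert (by simp)]
    linarith
  rw [b2]
  linarith

end Pool.Agent.EQ
end
end
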