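import Pool.Agent.K.MP_ad7a55_nt.C47
import Pool.Agent.K.MP_ad7a55_nt.C48
import Pool.Agent.P.MP_ad7a55_nt.SgD
import Pool.Agent.K.MP_ad7a55_nt.C49

-- part Pool.Agent.P.MP_ad7a55_nt.TGc
section

/-! Fibres of the map to configurations. -/

set_option autoImplicit false

noncomputable section

open Finset Matrix UpperHalfPlane

namespace Pool.Agent.EQ

theorem tgc_trans {P P' P'' : M2 × M2} (h : Geq P P') (h' : Geq P' P'') : Geq P P'' := by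
  obtain ⟨g, g0, g1, g2⟩ := h
  obtain ⟨k, k0, k1, k2⟩ := h'
  refine ⟨k * g, by rw [Matrix.det_mul, k0, g0, mul_one], ?_, ?_⟩
  · rw [Matrix.mul_assoc, g1, ← Matrix.mul_assoc, k1, Matrix.mul_assoc]
  · rw [Matrix.mul_assoc, g2, ← Matrix.mul_assoc, k2, Matrix.mul_assoc]

theorem tgc_ev_mul (τ : ℍ) (g : M2) (v : Fin 2 → ℤ) :
    ev τ (g *ᵥ v) = v 0 * ev τ (g *ᵥ ![1, 0]) + v 1 * ev τ (g *ᵥ ![0, 1]) := by
  simp only [ev, Matrix.mulVec, dotProduct, Fin.sum_univ_two, Matrix.cons_val_zero,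
    Matrix.cons_val_one]
  push_cast
  ring

theorem tgc_ev_smul (τ : ℍ) (k : ℤ) (v : Fin 2 → ℤ) : ev τ (k • v) = k * ev τ v := by
  simp only [ev, Pi.smul_apply, smul_eq_mul]
  push_cast
  ring

theorem tgc_ev_mem (c : ℂ) (τ : ℍ) (v : Fin 2 → ℤ) : c * ev τ v ∈ sp c (c * τ) :=
  mem_sp.2 ⟨v 0, -v 1, by
    simp only [ev]
    push_cast
    ring⟩

theorem tgc_surj {g : M2} (hg : g.det = 1) (w : Fin 2 → ℤ) : g *ᵥ (g.adjugate *ᵥ w) = w := by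
  rw [Matrix.mulVec_mulVec, Matrix.mul_adjugate, hg, one_smul, Matrix.one_mulVec]

/-- An intertwiner is a complex multiplication. -/
theorem tgc_lam {E : ℤ} {τ τ₀ : ℍ} {Θ Θ₀ g : M2} (h : TauTh E τ Θ) (h₀ : TauTh E τ₀ Θ₀)
    (hg : g.det = 1) (e : g * Θ = Θ₀ * g) : ∃ l : ℂ, l ≠ 0 ∧ sp l (l * τ) = sp 1 τ₀ ∧
      ∀ v, ev τ₀ (g *ᵥ v) = l * ev τ v := by
  have h1 := h.mul ![1, 0]
  have h2 := h₀.mul (g *ᵥ ![1, 0])
  rw [Matrix.mulVec_mulVec, ← e, ← Matrix.mulVec_mulVec, tgc_ev_mul] at h2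
  obtain ⟨A, B, C, hA, -, -, -, rfl⟩ := h
  have hA' : (A : ℂ) ≠ 0 := by exact_mod_cast hA.ne'
  have e0 : (Th A B C *ᵥ ![1, 0]) 0 = B := by
    simp [Th, Matrix.mulVec, dotProduct, Fin.sum_univ_two]
  have e1 : (Th A B C *ᵥ ![1, 0]) 1 = -2 * A := by
    simp [Th, Matrix.mulVec, dotProduct, Fin.sum_univ_two]
  rw [e0, e1] at h2
  have h3 : (B : ℂ) + 2 * A * τ = th E := by
    simp only [ev, e0, e1, Matrix.cons_val_zero, Matrix.cons_val_one] at h1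
    push_cast at h1
    linear_combination h1
  have h4 : ev τ₀ (g *ᵥ ![0, 1]) = -(ev τ₀ (g *ᵥ ![1, 0]) * τ) := by
    refine mul_left_cancel₀ (mul_ne_zero two_ne_zero hA') ?_
    push_cast at h2
    linear_combination -h2 + ev τ₀ (g *ᵥ ![1, 0]) * h3
  have key : ∀ v, ev τ₀ (g *ᵥ v) = ev τ₀ (g *ᵥ ![1, 0]) * ev τ v := by
    intro v
    rw [tgc_ev_mul, h4]
    simp only [ev]
    ring
  refine ⟨_, fun h0 => ?_, le_antisymm ?_ ?_, key⟩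
  · have h5 := key (g.adjugate *ᵥ ![1, 0])
    rw [tgc_surj hg, h0, zero_mul] at h5
    simp [ev] at h5
  · rw [sp_le_iff_lat]
    constructor
    · simpa using tgc_ev_mem 1 τ₀ (g *ᵥ ![1, 0])
    · have h5 := neg_mem (tgc_ev_mem 1 τ₀ (g *ᵥ ![0, 1]))
      rw [h4] at h5
      simpa using h5
  · rw [sp_le_iff_lat]
    constructor
    · have h5 := tgc_ev_mem (ev τ₀ (g *ᵥ ![1, 0])) τ (g.adjugate *ᵥ ![1, 0])
      rw [← key, tgc_surj hg] at h5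
      simpa [ev] using h5
    · have h5 := tgc_ev_mem (ev τ₀ (g *ᵥ ![1, 0])) τ (g.adjugate *ᵥ ![0, -1])
      rw [← key, tgc_surj hg] at h5
      simpa [ev] using h5

/-- A real linear map is determined by its values on a sublattice. -/
theorem tgc_uniq {τ : ℍ} {η : M2} (hη : η.det ≠ 0) {α β α' β' : ℂ}
    (h : ∀ w, rl α β (ev τ (η *ᵥ w)) = rl α' β' (ev τ (η *ᵥ w))) : α = α' ∧ β = β' := by
  have hd : (η.det : ℂ) ≠ 0 := by exact_mod_cast hη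
  have key : ∀ w, rl α β (ev τ w) = rl α' β' (ev τ w) := by
    intro w
    have h1 := h (η.adjugate *ᵥ w)
    rw [Matrix.mulVec_mulVec, Matrix.mul_adjugate, Matrix.smul_mulVec, Matrix.one_mulVec,
      tgc_ev_smul] at h1
    refine mul_left_cancel₀ hd ?_
    simp only [rl, map_mul, map_intCast] at h1 ⊢
    linear_combination h1
  have h1 := key ![1, 0]
  have h2 := key ![0, -1]
  simp only [rl, ev, Matrix.cons_val_zero, Matrix.cons_val_one, Int.cast_one, Int.cast_zero,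
    Int.cast_neg, zero_mul, sub_zero, map_one, mul_one, neg_mul, one_mul, zero_sub,
    neg_neg] at h1 h2
  have h3 : (τ : ℂ) - starRingEnd ℂ τ ≠ 0 := by
    rw [Complex.sub_conj]
    have : (τ : ℂ).im ≠ 0 := τ.im_pos.ne'
    exact mul_ne_zero (by exact_mod_cast mul_ne_zero two_ne_zero this) Complex.I_ne_zero
  have h4 : α = α' := by
    refine mul_right_cancel₀ h3 ?_
    linear_combination h2 - starRingEnd ℂ τ * h1
  refine ⟨h4, ?_⟩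
  rw [h4] at h1
  exact add_left_cancel h1

namespace Dt

variable {d : Dt} {κ : ℕ} {C : ℝ}

theorem tgc_scale (h : d.Good κ) {M₁ M₂ : Lt} {α β c : ℂ} {τ : ℍ} {Θ η₁ η₂ : M2} {B : ℤ}
    (g : d.Geo C M₁ M₂ α β c τ Θ η₁ η₂ B) {a : ℂ} (ha : a ≠ 0) :
    d.Geo C (pr a * M₁) (pr (starRingEnd ℂ a)⁻¹ * M₂) ((starRingEnd ℂ a)⁻¹ * α / a)
      ((starRingEnd ℂ a)⁻¹ * β / starRingEnd ℂ a) (a * c) τ Θ η₁ η₂ B := by
  have ha' : starRingEnd ℂ a ≠ 0 := (map_ne_zero _).2 ha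
  obtain ⟨b, hb⟩ : ∃ b, b = (starRingEnd ℂ a)⁻¹ := ⟨_, rfl⟩
  have hb0 : b ≠ 0 := hb ▸ inv_ne_zero ha'
  have hab : b * starRingEnd ℂ a = 1 := by rw [hb, inv_mul_cancel₀ ha']
  rw [← hb]
  have h₁ := g.d₁.isLat
  have h₂ := g.d₂.isLat
  have na : Complex.normSq a ≠ 0 := fun e => ha (Complex.normSq_eq_zero.1 e)
  have nb : 0 < Complex.normSq b := Complex.normSq_pos.2 hb0
  have eα : Complex.normSq (b * α / a) * (Complex.normSq a * vol M₁) =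
      Complex.normSq b * (Complex.normSq α * vol M₁) := by
    rw [map_div₀, map_mul]
    field_simp
  have eβ : Complex.normSq (b * β / starRingEnd ℂ a) * (Complex.normSq a * vol M₁) =
      Complex.normSq b * (Complex.normSq β * vol M₁) := by
    rw [map_div₀, map_mul, Complex.normSq_conj]
    field_simp
  have er : ∀ w, rl (b * α / a) (b * β / starRingEnd ℂ a) (a * w) = b * rl α β w := by
    intro w
    simp only [rl, map_mul]
    field_simp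
  have hT := (discL_up h.isD g.d₁).1
  have lk : ∀ (e : ℂ) (η : M2), d.Lk M₁ α β c τ e η →
      d.Lk (pr a * M₁) (b * α / a) (b * β / starRingEnd ℂ a) (a * c) τ e η := by
    intro e η k v
    have k1 := k v
    have n0 : (nm d.E (M₁ * OD d.E) : ℂ) ≠ 0 := by exact_mod_cast hT.nm_pos.ne'
    rw [mul_assoc a, er, mul_assoc (pr a), nm_pr_mul hT.isLat _ ha, mul_left_comm, k1,
      Complex.ofReal_mul, ← Complex.mul_conj, hb]
    field_simp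
  refine ⟨g.d₁.pr_mul ha, g.d₂.pr_mul hb0, ?_, ⟨fun z hz => ?_, ?_, ?_, ?_, ?_⟩,
    mul_ne_zero ha g.ne, ?_, g.th, lk _ _ g.k₁, lk _ _ g.k₂⟩
  · rw [cj_mul, cj_pr, mul_mul_mul_comm, pr_mul_pr, hab, g.ll, pr, ← Submodule.one_eq_span,
      one_mul]
  · obtain ⟨w, hw, rfl⟩ := mem_pr_mul.1 hz
    exact mem_pr_mul.2 ⟨_, g.hm.map w hw, (er w).symm⟩
  · rw [vol_pr_mul h₁ ha, vol_pr_mul h₂ hb0, mul_assoc, eβ]
    linear_combination Complex.normSq b * g.hm.inv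
  · rw [vol_pr_mul h₁ ha, vol_pr_mul h₂ hb0, sub_mul, eα, eβ]
    linear_combination Complex.normSq b * g.hm.deg
  · rw [vol_pr_mul h₁ ha, vol_pr_mul h₂ hb0, eα]
    nlinarith [mul_le_mul_of_nonneg_left g.hm.le₁ nb.le]
  · rw [vol_pr_mul h₁ ha, vol_pr_mul h₂ hb0, eβ]
    nlinarith [mul_le_mul_of_nonneg_left g.hm.le₂ nb.le]
  · rw [mul_assoc, g.bas, pr_mul_sp, mul_assoc]

/-- The scale can be prescribed. -/
theorem tgc_resc (h : d.Good κ) {z : ℂ × ℂ} {τ : ℍ} {Θ η₁ η₂ : M2} {B : ℤ}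
    (g : d.GZ C z τ Θ η₁ η₂ B) {l : ℂ} (hl : l ≠ 0) : ∃ (M₁ M₂ : Lt) (α β : ℂ),
      jL M₁ = z.1 ∧ jL M₂ = z.2 ∧ d.Geo C M₁ M₂ α β l τ Θ η₁ η₂ B := by
  obtain ⟨M₁, M₂, α, β, c, j1, j2, g⟩ := g
  have ha : l / c ≠ 0 := div_ne_zero hl g.ne
  have g' := tgc_scale h g ha
  rw [div_mul_cancel₀ l g.ne] at g'
  refine ⟨_, _, _, _, ?_, ?_, g'⟩
  · rw [jL_pr_mul g.d₁.isLat ha, j1]
  · rw [jL_pr_mul g.d₂.isLat (inv_ne_zero ((map_ne_zero _).2 ha)), j2]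

theorem tgc_det (h : d.Good κ) {M₁ M₂ : Lt} {α β c : ℂ} {τ : ℍ} {Θ η₁ η₂ : M2} {B : ℤ}
    (g : d.Geo C M₁ M₂ α β c τ Θ η₁ η₂ B) : η₁.det ≠ 0 := by
  have h1 := (g.cf h).1.det 1 0
  simp only [one_smul, zero_smul, add_zero, F, m, G] at h1
  rw [h1]
  have a1 := h.n_ne
  have a2 := h.a_pos.ne'
  have a3 := h.g₁_pos.ne'
  have a4 := h.g₂_pos.ne'
  simp [a1, a2, a3, a4]

/-- Normal form of the data relative to a base configuration. -/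
theorem tgc_norm (h : d.Good κ) {z : ℂ × ℂ} {τ τ₀ : ℍ} {Θ η₁ η₂ Θ₀ η₀ : M2} {B : ℤ}
    (g : d.GZ C z τ Θ η₁ η₂ B) (h₀ : TauTh d.E τ₀ Θ₀) (e : Geq (Θ, η₁) (Θ₀, η₀)) :
    ∃ (M₁ M₂ : Lt) (α β l : ℂ), jL M₁ = z.1 ∧ jL M₂ = z.2 ∧ d.Geo C M₁ M₂ α β l τ Θ η₁ η₂ B ∧
      M₁ * OD d.E = sp 1 τ₀ ∧ ∀ w, d.g₁ * rl α β (ev τ₀ (η₀ *ᵥ w)) =
        d.m * (d.a / nm d.E (sp 1 τ₀)) * ev τ₀ w := by
  obtain ⟨k, k0, k1, k2⟩ := e
  have hth : TauTh d.E τ Θ := by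
    obtain ⟨M₁, M₂, α, β, c, -, -, g⟩ := g
    exact g.th
  obtain ⟨l, hl, e1, e2⟩ := tgc_lam hth h₀ k0 k1
  obtain ⟨M₁, M₂, α, β, j1, j2, g'⟩ := tgc_resc h g hl
  refine ⟨M₁, M₂, α, β, l, j1, j2, g', g'.bas.trans e1, fun w => ?_⟩
  have k3 := g'.k₁ (k.adjugate *ᵥ w)
  have k4 : k * η₁ = η₀ * k := k2
  rw [← e2, ← e2, g'.bas, e1, tgc_surj k0, Matrix.mulVec_mulVec, k4, ← Matrix.mulVec_mulVec,
    tgc_surj k0] at k3
  exact k3

theorem geo_fib (h : d.Good κ) (P₀ : M2 × M2) (hP : IsTh d.E P₀.1) :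
    {z | ∃ τ Θ η₁ η₂ B, d.GZ C z τ Θ η₁ η₂ B ∧ Geq (Θ, η₁) P₀}.Finite ∧
    {z | ∃ τ Θ η₁ η₂ B, d.GZ C z τ Θ η₁ η₂ B ∧ Geq (Θ, η₁) P₀}.ncard ≤ d.n.natAbs ^ 9 := by
  rcases Set.eq_empty_or_nonempty
    {z | ∃ τ Θ η₁ η₂ B, d.GZ C z τ Θ η₁ η₂ B ∧ Geq (Θ, η₁) P₀} with h0 | ⟨z₀, hz₀⟩
  · rw [h0]
    simp
  obtain ⟨τ₀, Θ₀, η₀, η₀', B₀, g₀, e₀⟩ := hz₀
  have g₀' := g₀
  obtain ⟨N₁, N₂, α₁, β₁, c₁, -, -, g₁⟩ := g₀'
  obtain ⟨-, -, α₀, β₀, -, -, -, -, -, k₀⟩ := tgc_norm h g₀ g₁.th (Geq.refl _)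
  obtain ⟨r1, r2⟩ := card_rec h.n_ne h.cop (sp 1 τ₀)
    (pr ((nm d.E (sp 1 τ₀) : ℂ))⁻¹ * (d.LL * sp 1 τ₀)) α₀ β₀
  have q := tmx_img' (S := {z | ∃ τ Θ η₁ η₂ B, d.GZ C z τ Θ η₁ η₂ B ∧ Geq (Θ, η₁) P₀}) r1
    (fun M => (jL M.1, jL M.2)) fun z hz => by
      obtain ⟨τ, Θ, η₁, η₂, B, g, e⟩ := hz
      obtain ⟨M₁, M₂, α, β, l, j1, j2, g', t1, k⟩ :=
        tgc_norm h g g₁.th (tgc_trans e e₀.symm)
      have hg : (d.g₁ : ℂ) ≠ 0 := by exact_mod_cast h.g₁_pos.ne'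
      obtain ⟨rfl, rfl⟩ := tgc_uniq (tgc_det h g₁) fun w =>
        mul_left_cancel₀ hg ((k w).trans (k₀ w).symm)
      have t2 := g'.snd h
      rw [t1] at t2
      obtain ⟨-, -, u1, u2⟩ := discL_up h.isD g'.d₁
      obtain ⟨-, -, u3, u4⟩ := discL_up h.isD g'.d₂
      rw [t1] at u1 u2
      rw [t2] at u3 u4
      exact ⟨(M₁, M₂), ⟨g'.d₁.isLat, g'.d₂.isLat, u1, u2, u3, u4, g'.hm.map, g'.hm.deg⟩,
        Prod.ext j1 j2⟩
  exact ⟨q.1, q.2.trans r2⟩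

theorem geo_tau (h : d.Good κ) (τ : ℍ) :
    {z | ∃ Θ η₁ η₂ B, d.GZ C z τ Θ η₁ η₂ B}.Finite ∧
    {z | ∃ Θ η₁ η₂ B, d.GZ C z τ Θ η₁ η₂ B}.ncard ≤ d.G * d.G.divisors.card ^ 2 := by
  rcases Set.eq_empty_or_nonempty {z | ∃ Θ η₁ η₂ B, d.GZ C z τ Θ η₁ η₂ B} with h0 | ⟨z₀, hz₀⟩
  · rw [h0]
    simp
  obtain ⟨Θ₀, η₀, η₀', B₀, g₀⟩ := hz₀
  obtain ⟨N₁, N₂, α₁, β₁, -, -, g₁⟩ := tgc_resc h g₀ one_ne_zero
  have l2 : IsLat (pr ((nm d.E (sp 1 (1 * τ)) : ℂ))⁻¹ * (d.LL * sp 1 (1 * τ))) := by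
    rw [← g₁.bas, ← g₁.snd h]
    exact (discL_up h.isD g₁.d₂).1.isLat
  obtain ⟨r1, r2⟩ := card_index (isLat_sp one_ne_zero τ) h.g₁_pos
  obtain ⟨r3, r4⟩ := card_index l2 h.g₂_pos
  have q := tmx_img' (S := {z | ∃ Θ η₁ η₂ B, d.GZ C z τ Θ η₁ η₂ B}) (r1.prod r3)
    (fun M => (jL M.1, jL M.2)) fun z hz => by
      obtain ⟨Θ, η₁, η₂, B, g⟩ := hz
      obtain ⟨M₁, M₂, α, β, j1, j2, g'⟩ := tgc_resc h g one_ne_zero
      have t2 := g'.snd h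
      obtain ⟨-, u1, u2, -⟩ := discL_up h.isD g'.d₁
      obtain ⟨-, u3, u4, -⟩ := discL_up h.isD g'.d₂
      rw [t2] at u3 u4
      rw [g'.bas] at u1 u2 u3 u4
      exact ⟨(M₁, M₂), ⟨⟨g'.d₁.isLat, u2, u1⟩, g'.d₂.isLat, u4, u3⟩, Prod.ext j1 j2⟩
  refine ⟨q.1, q.2.trans ?_⟩
  rw [Set.ncard_prod]
  have hG : d.G ≠ 0 := mul_ne_zero h.g₁_pos.ne' h.g₂_pos.ne'
  have v1 : d.g₁.divisors.card ≤ d.G.divisors.card :=
    Finset.card_le_card (Nat.divisors_subset_of_dvd hG (Dvd.intro _ rfl))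
  have v2 : d.g₂.divisors.card ≤ d.G.divisors.card :=
    Finset.card_le_card (Nat.divisors_subset_of_dvd hG (Dvd.intro_left _ rfl))
  calc _ ≤ (d.g₁ * d.G.divisors.card) * (d.g₂ * d.G.divisors.card) :=
        Nat.mul_le_mul (r2.trans (Nat.mul_le_mul_left _ v1)) (r4.trans (Nat.mul_le_mul_left _ v2))
    _ = d.G * d.G.divisors.card ^ 2 := by
        rw [show d.G * d.G.divisors.card ^ 2 = d.g₁ * d.g₂ * d.G.divisors.card ^ 2 from rfl]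
        ring

/-- The box that contains all traces. -/
theorem GZ.box (h : d.Good κ) (hC : 1 ≤ C) {z : ℂ × ℂ} {τ : ℍ} {Θ η₁ η₂ : M2} {B : ℤ}
    (g : d.GZ C z τ Θ η₁ η₂ B) (hB : B ≠ 0) {H N : ℕ} (hH : 4 * C * d.G * d.a ≤ (H : ℝ) ^ 2)
    (hN : 4 * C * d.G * (-d.E) ≤ d.a * (N : ℝ) ^ 2) :
    |η₁.trace| ≤ H ∧ |d.x₁ (-η₂.trace) η₁.trace| ≤ d.a * N ∧ d.B (-η₂.trace) η₁.trace ≠ 0 ∧
      |d.B (-η₂.trace) η₁.trace| ≤ (H * N) ^ 2 := by
  obtain ⟨M₁, M₂, α, β, c, -, -, g⟩ := g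
  obtain ⟨-, c1, c2, c3, c4⟩ := g.cf h
  rw [← c1]
  generalize -η₂.trace = X at *
  generalize η₁.trace = Y at *
  have key : 4 * d.a * d.F X Y = d.x₁ X Y ^ 2 + (-d.E) * Y ^ 2 := by
    simp only [x₁, E, F]
    ring
  have key' : 4 * (d.a : ℝ) * d.F X Y = (d.x₁ X Y : ℝ) ^ 2 + (-d.E) * (Y : ℝ) ^ 2 := by
    exact_mod_cast key
  have ha : (0 : ℝ) < d.a := by exact_mod_cast h.a_pos
  have hE : (0 : ℝ) < -d.E := by
    have : (d.E : ℝ) < 0 := by exact_mod_cast h.E_neg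
    linarith
  have hG : (1 : ℝ) ≤ d.G := by
    exact_mod_cast Nat.one_le_iff_ne_zero.2 (mul_ne_zero h.g₁_pos.ne' h.g₂_pos.ne')
  have hCG : (1 : ℝ) ≤ C * d.G := by nlinarith
  have b0 : (d.x₁ X Y : ℝ) ^ 2 + (-d.E) * (Y : ℝ) ^ 2 ≤ 4 * d.a * (C * d.G * (-d.E)) := by
    rw [← key']
    exact mul_le_mul_of_nonneg_left c3 (by positivity)
  have b1 : (Y : ℝ) ^ 2 ≤ (H : ℝ) ^ 2 := by
    refine le_trans (le_of_mul_le_mul_left ?_ hE) hH
    nlinarith [sq_nonneg (d.x₁ X Y : ℝ)]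
  have b2 : (d.x₁ X Y : ℝ) ^ 2 ≤ ((d.a : ℝ) * N) ^ 2 := by
    have a1 := mul_le_mul_of_nonneg_left hN ha.le
    have a2 := mul_nonneg hE.le (sq_nonneg (Y : ℝ))
    nlinarith
  have b3 : (B : ℝ) ≤ ((H : ℝ) * N) ^ 2 := by
    have a1 := mul_le_mul_of_nonneg_right hH (sq_nonneg (N : ℝ))
    have a2 := mul_le_mul_of_nonneg_left hN (show (0 : ℝ) ≤ 4 * (C * d.G) by positivity)
    have a3 : 0 ≤ C * d.G * (-d.E) := by positivity
    have a4 := mul_le_mul_of_nonneg_right hCG a3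
    nlinarith
  refine ⟨?_, ?_, hB, ?_⟩
  · have := abs_le_of_sq_le_sq' b1 (Nat.cast_nonneg H)
    exact_mod_cast abs_le.2 this
  · have := abs_le_of_sq_le_sq' b2 (by positivity)
    exact_mod_cast abs_le.2 this
  · rw [abs_of_nonneg c2]
    exact_mod_cast b3

theorem geo_sum (h : d.Good κ) (S : Set (ℂ × ℂ)) (Z : Finset (ℤ × ℤ)) (R : M2 → M2 → M2 → Prop)
    (W : ℤ → ℤ → ℝ) (hS : ∀ z ∈ S, ∃ τ Θ η₁ η₂ B, d.GZ C z τ Θ η₁ η₂ B ∧
      (-η₂.trace, η₁.trace) ∈ Z ∧ R Θ η₁ η₂)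
    (hW : ∀ x ∈ Z, Few Geq (d.CS x.1 x.2 R) (W x.1 x.2)) :
    (S.ncard : ℝ) ≤ (d.n.natAbs : ℝ) ^ 9 * ∑ x ∈ Z, W x.1 x.2 := by
  classical
  by_cases hf : S.Finite
  swap
  · rw [Set.Infinite.ncard hf, Nat.cast_zero]
    exact mul_nonneg (by positivity) (Finset.sum_nonneg fun x hx => (hW x hx).nonneg)
  rw [Set.ncard_eq_toFinset_card S hf, Finset.mul_sum]
  have h1 : hf.toFinset ⊆ Z.biUnion fun x => hf.toFinset.filter fun z => ∃ τ Θ η₁ η₂ B,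
      d.GZ C z τ Θ η₁ η₂ B ∧ (-η₂.trace, η₁.trace) = x ∧ R Θ η₁ η₂ := by
    intro z hz
    obtain ⟨τ, Θ, η₁, η₂, B, g, hx, hR⟩ := hS z (hf.mem_toFinset.1 hz)
    exact Finset.mem_biUnion.2 ⟨_, hx, Finset.mem_filter.2 ⟨hz, τ, Θ, η₁, η₂, B, g, rfl, hR⟩⟩
  have h2 := (Finset.card_le_card h1).trans Finset.card_biUnion_le
  refine le_trans (Nat.cast_le.2 h2) ?_
  rw [Nat.cast_sum]
  refine Finset.sum_le_sum fun x hx => ?_
  rw [← Nat.cast_pow]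
  refine card_le_few (hW x hx) Geq.refl (fun _ _ => Geq.symm) _
    (fun z P => ∃ τ η₂ B, d.GZ C z τ P.1 P.2 η₂ B) (fun z hz => ?_) fun P₀ hP Z' _ hZ => ?_
  · obtain ⟨-, τ, Θ, η₁, η₂, B, g, rfl, hR⟩ := Finset.mem_filter.1 hz
    have g' := g
    obtain ⟨M₁, M₂, α, β, c, -, -, g'⟩ := g'
    exact ⟨(Θ, η₁), ⟨η₂, (g'.cf h).1, g'.tg h, hR⟩, τ, η₂, B, g⟩
  · obtain ⟨η₂, hc, -⟩ := hP
    obtain ⟨f1, f2⟩ := geo_fib (C := C) h P₀ hc.th
    refine le_trans ?_ f2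
    rw [← Set.ncard_coe_finset]
    refine Set.ncard_le_ncard (fun z hz => ?_) f1
    obtain ⟨P, ⟨τ, η₂, B, g⟩, e⟩ := hZ z hz
    exact ⟨τ, P.1, P.2, η₂, B, g, e⟩

end Dt

end Pool.Agent.EQ
end
end

-- part Pool.Agent.P.MP_ad7a55_nt.TNz
section

/-! Without a real zero near one, the value at one is not small. -/

set_option autoImplicit false

noncomputable section

open Finset

namespace Pool.Agent.EQ

theorem tnz_norm {q : ℕ} [NeZero q] {χ : DirichletCharacter ℂ q} (hχ : χ ≠ 1) (σ : ℝ) {t : ℝ}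
    (ht : 0 < t) : ‖sgbA χ ⌊t⌋₊ * (t : ℂ) ^ (-((σ : ℂ) + 1))‖ ≤ q * t ^ (-σ - 1) := by
  rw [norm_mul, Complex.norm_cpow_eq_rpow_re_of_pos ht]
  have h : (-((σ : ℂ) + 1)).re = -σ - 1 := by
    simp only [Complex.neg_re, Complex.add_re, Complex.one_re, Complex.ofReal_re]
    ring
  rw [h]
  exact mul_le_mul_of_nonneg_right (sgb_le_q hχ _) (Real.rpow_nonneg ht.le _)

theorem tnz_int {q : ℕ} [NeZero q] {χ : DirichletCharacter ℂ q} (hχ : χ ≠ 1) {σ : ℝ} (h0 : 0 < σ)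
    {a : ℝ} (ha : 0 < a) :
    MeasureTheory.IntegrableOn (fun t : ℝ => sgbA χ ⌊t⌋₊ * (t : ℂ) ^ (-((σ : ℂ) + 1)))
      (Set.Ioi a) := by
  have hm : Measurable fun t : ℝ => sgbA χ ⌊t⌋₊ :=
    (measurable_of_countable (sgbA χ)).comp Nat.measurable_floor
  have hm2 : Measurable fun t : ℝ => (t : ℂ) ^ (-((σ : ℂ) + 1)) :=
    Complex.measurable_ofReal.pow_const _
  refine MeasureTheory.Integrable.mono'
    ((integrableOn_Ioi_rpow_of_lt (a := -σ - 1) (by linarith) ha).const_mul (q : ℝ))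
    (hm.mul hm2).aestronglyMeasurable ?_
  filter_upwards [MeasureTheory.ae_restrict_mem measurableSet_Ioi] with t ht
  exact tnz_norm hχ σ (ha.trans ht)

theorem tnz_abel {q : ℕ} [NeZero q] {χ : DirichletCharacter ℂ q} (hχ : χ ≠ 1) {σ : ℝ} (h0 : 0 < σ)
    {N : ℕ} (hN : 1 ≤ N) :
    χ.LFunction σ - ∑ n ∈ Icc 1 N, χ n * (n : ℂ) ^ (-(σ : ℂ)) =
      σ * (∫ t in Set.Ioi (N : ℝ), sgbA χ ⌊t⌋₊ * (t : ℂ) ^ (-((σ : ℂ) + 1))) -
        sgbA χ N * (N : ℂ) ^ (-(σ : ℂ)) := by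
  induction N, hN using Nat.le_induction with
  | base =>
    rw [sgb_repr hχ (by simpa using h0)]
    simp [sgbA]
  | succ N hN ih =>
    have hN0 : (0 : ℝ) < N := by exact_mod_cast hN
    have hσ : (σ : ℂ) ≠ 0 := by exact_mod_cast h0.ne'
    have hle : (N : ℝ) ≤ ((N + 1 : ℕ) : ℝ) := by exact_mod_cast Nat.le_succ N
    have h1 := intervalIntegral.integral_Ioi_sub_Ioi (tnz_int hχ h0 hN0) hle
    have h2 : ∫ t in (N : ℝ)..((N + 1 : ℕ) : ℝ), sgbA χ ⌊t⌋₊ * (t : ℂ) ^ (-((σ : ℂ) + 1)) =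
        ∫ t in (N : ℝ)..((N + 1 : ℕ) : ℝ), sgbA χ N * (t : ℂ) ^ (-((σ : ℂ) + 1)) := by
      refine intervalIntegral.integral_congr_Ioo_of_le hle fun t ht => ?_
      have : ⌊t⌋₊ = N := by
        rw [Nat.floor_eq_iff (hN0.trans ht.1).le]
        exact ⟨ht.1.le, by exact_mod_cast ht.2⟩
      simp only [this]
    rw [h2, intervalIntegral.integral_const_mul, integral_cpow (Or.inr ⟨fun h => hσ (by
      linear_combination -h), by
        rw [Set.uIcc_of_le hle]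
        exact fun h => absurd h.1 (not_le.2 hN0)⟩)] at h1
    rw [show -((σ : ℂ) + 1) + 1 = -(σ : ℂ) by ring, Complex.ofReal_natCast,
      Complex.ofReal_natCast] at h1
    rw [sum_Icc_succ_top (by omega), ← sub_sub, ih, sgb_succ, sub_eq_iff_eq_add.1 h1]
    field_simp
    ring

theorem L_trunc {q : ℕ} [NeZero q] {χ : DirichletCharacter ℂ q} (hχ : χ ≠ 1) {σ : ℝ} (h0 : 0 < σ)
    {N : ℕ} (hN : 0 < N) :
    ‖χ.LFunction σ - ∑ n ∈ Icc 1 N, χ n * (n : ℂ) ^ (-(σ : ℂ))‖ ≤ 2 * q * (N : ℝ) ^ (-σ) := by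
  have hN0 : (0 : ℝ) < N := by exact_mod_cast hN
  rw [tnz_abel hχ h0 hN]
  have ha : -σ - 1 < -1 := by linarith
  have h1 : ‖∫ t in Set.Ioi (N : ℝ), sgbA χ ⌊t⌋₊ * (t : ℂ) ^ (-((σ : ℂ) + 1))‖ ≤
      ∫ t in Set.Ioi (N : ℝ), q * t ^ (-σ - 1) := by
    refine MeasureTheory.norm_integral_le_of_norm_le
      ((integrableOn_Ioi_rpow_of_lt ha hN0).const_mul _) ?_
    filter_upwards [MeasureTheory.ae_restrict_mem measurableSet_Ioi] with t ht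
    exact tnz_norm hχ σ (hN0.trans ht)
  rw [MeasureTheory.integral_const_mul, integral_Ioi_rpow_of_lt ha hN0,
    show -σ - 1 + 1 = -σ by ring, neg_div_neg_eq] at h1
  have h2 : ‖sgbA χ N * (N : ℂ) ^ (-(σ : ℂ))‖ ≤ q * (N : ℝ) ^ (-σ) := by
    rw [norm_mul, Complex.norm_natCast_cpow_of_pos hN]
    simp only [Complex.neg_re, Complex.ofReal_re]
    exact mul_le_mul_of_nonneg_right (sgb_le_q hχ _) (Real.rpow_nonneg hN0.le _)
  refine (norm_sub_le _ _).trans ?_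
  rw [norm_mul, Complex.norm_real, Real.norm_eq_abs, abs_of_pos h0]
  have h3 := mul_le_mul_of_nonneg_left h1 h0.le
  have h4 : σ * (q * ((N : ℝ) ^ (-σ) / σ)) = q * (N : ℝ) ^ (-σ) := by field_simp
  linarith

theorem tnz_rc {q : ℕ} [NeZero q] {χ : DirichletCharacter ℂ q} {ψ : ℕ → ℝ} (hχ : χ ≠ 1)
    (h2 : χ ^ 2 = 1) (h : ∀ n : ℕ, χ n = ψ n) : RC q ψ := by
  refine ⟨fun n => ?_, ?_, fun m n => ?_, fun N => ?_⟩
  · have := MulChar.isQuadratic_iff_sq_eq_one.mpr h2 (n : ZMod q)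
    rw [h] at this
    exact_mod_cast this
  · have := h 1
    rw [Nat.cast_one, map_one] at this
    exact_mod_cast this.symm
  · have := h (m * n)
    rw [Nat.cast_mul, map_mul, h, h] at this
    exact_mod_cast this.symm
  · have := sgb_le_q hχ N
    simp only [sgbA, h] at this
    rwa [← Complex.ofReal_sum, Complex.norm_real, Real.norm_eq_abs] at this

theorem tnz_trunc {q : ℕ} [NeZero q] {χ : DirichletCharacter ℂ q} {ψ : ℕ → ℝ} (hχ : χ ≠ 1)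
    (h : ∀ n : ℕ, χ n = ψ n) {σ : ℝ} (h0 : 0 < σ) {N : ℕ} (hN : 0 < N) :
    |(χ.LFunction σ).re - ∑ n ∈ Icc 1 N, ψ n * (n : ℝ) ^ (-σ)| ≤ 2 * q * (N : ℝ) ^ (-σ) := by
  refine le_trans (le_of_eq ?_) ((Complex.abs_re_le_norm _).trans (L_trunc hχ h0 hN))
  rw [Complex.sub_re, Complex.re_sum]
  congr 2
  refine sum_congr rfl fun n _ => ?_
  rw [h, Complex.re_ofReal_mul, ← Complex.ofReal_natCast, ← Complex.ofReal_neg,
    ← Complex.ofReal_cpow (Nat.cast_nonneg n), Complex.ofReal_re]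

theorem tnz_tan {b u v : ℝ} (h0 : 0 ≤ b) (h1 : b ≤ 1) (hu : 0 < u) (hv : 0 ≤ v) :
    v ^ (1 - b) ≤ u ^ (1 - b) + (1 - b) * u ^ (-b) * (v - u) := by
  have hs : -1 ≤ (v - u) / u := by
    rw [le_div_iff₀ hu]
    linarith
  have h2 := rpow_one_add_le_one_add_mul_self hs (p := 1 - b) (by linarith) (by linarith)
  have h3 : v = u * (1 + (v - u) / u) := by field_simp; ring
  have h4 : u ^ (1 - b) = u ^ (-b) * u := by
    rw [← Real.rpow_add_one hu.ne']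
    congr 1
    ring
  calc v ^ (1 - b) = u ^ (1 - b) * (1 + (v - u) / u) ^ (1 - b) := by
        rw [← Real.mul_rpow hu.le (by linarith), ← h3]
    _ ≤ u ^ (1 - b) * (1 + (1 - b) * ((v - u) / u)) :=
        mul_le_mul_of_nonneg_left h2 (Real.rpow_nonneg hu.le _)
    _ = _ := by
        rw [h4]
        field_simp

/-- Truncated zeta sum. -/
def tnzZ (b : ℝ) (M : ℕ) : ℝ := (1 - b) * ∑ m ∈ Icc 1 M, (m : ℝ) ^ (-b)

theorem tnz_succ (b : ℝ) (M : ℕ) :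
    tnzZ b (M + 1) = tnzZ b M + (1 - b) * ((M : ℝ) + 1) ^ (-b) := by
  unfold tnzZ
  rw [sum_Icc_succ_top (by omega)]
  push_cast
  ring

theorem tnz_E {b : ℝ} (h0 : 0 ≤ b) (h1 : b ≤ 1) {M N : ℕ} (h : M ≤ N) :
    tnzZ b N - (N : ℝ) ^ (1 - b) ≤ tnzZ b M - (M : ℝ) ^ (1 - b) := by
  induction N, h using Nat.le_induction with
  | base => exact le_rfl
  | succ N _ ih =>
    have := tnz_tan h0 h1 (u := (N : ℝ) + 1) (v := N) (by positivity) (by positivity)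
    rw [tnz_succ]
    push_cast
    linarith

theorem tnz_D {b : ℝ} (h0 : 0 ≤ b) (h1 : b ≤ 1) {M N : ℕ} (h : M ≤ N) :
    tnzZ b M - ((M : ℝ) + 1) ^ (1 - b) ≤ tnzZ b N - ((N : ℝ) + 1) ^ (1 - b) := by
  induction N, h using Nat.le_induction with
  | base => exact le_rfl
  | succ N _ ih =>
    have := tnz_tan h0 h1 (u := (N : ℝ) + 1) (v := N + 1 + 1) (by positivity) (by positivity)
    rw [tnz_succ]
    push_cast
    linarith

theorem tnz_Z {b : ℝ} (h0 : 0 ≤ b) (h1 : b ≤ 1) {M x : ℕ} (hM : 0 < M) (h : M ≤ x) {u : ℝ}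
    (hu1 : (M : ℝ) ≤ u) (hu2 : u ≤ M + 1) :
    |tnzZ b M - u ^ (1 - b) - (tnzZ b x - (x : ℝ) ^ (1 - b))| ≤ (M : ℝ) ^ (-b) := by
  have hM0 : (0 : ℝ) < M := by exact_mod_cast hM
  have ha : 0 ≤ 1 - b := by linarith
  have e1 := tnz_E h0 h1 h
  have e2 := tnz_D h0 h1 h
  have e3 := tnz_tan h0 h1 (u := (M : ℝ)) (v := M + 1) hM0 (by positivity)
  have e4 : (x : ℝ) ^ (1 - b) ≤ ((x : ℝ) + 1) ^ (1 - b) :=
    Real.rpow_le_rpow (by positivity) (by linarith) ha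
  have e5 : (M : ℝ) ^ (1 - b) ≤ u ^ (1 - b) := Real.rpow_le_rpow hM0.le hu1 ha
  have e6 : u ^ (1 - b) ≤ ((M : ℝ) + 1) ^ (1 - b) := Real.rpow_le_rpow (by linarith) hu2 ha
  have e7 : 0 ≤ b * (M : ℝ) ^ (-b) := mul_nonneg h0 (Real.rpow_nonneg hM0.le _)
  rw [abs_le]
  constructor <;> linarith

theorem tnz_le {b : ℝ} (h0 : 0 ≤ b) (h1 : b < 1) (x : ℕ) : tnzZ b x ≤ (x : ℝ) ^ (1 - b) := by
  have := tnz_E h0 h1.le (Nat.zero_le x)
  rw [Nat.cast_zero, Real.zero_rpow (by linarith)] at this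
  have h2 : tnzZ b 0 = 0 := by simp [tnzZ]
  linarith

theorem tnz_ge {b : ℝ} (h0 : 0 ≤ b) (h1 : b < 1) (x : ℕ) :
    -1 ≤ tnzZ b x - (x : ℝ) ^ (1 - b) := by
  have := tnz_D h0 h1.le (Nat.zero_le x)
  rw [Nat.cast_zero, zero_add, Real.one_rpow] at this
  have h2 : tnzZ b 0 = 0 := by simp [tnzZ]
  have e4 : (x : ℝ) ^ (1 - b) ≤ ((x : ℝ) + 1) ^ (1 - b) :=
    Real.rpow_le_rpow (by positivity) (by linarith) (by linarith)
  linarith

theorem tnz_hyp (f g : ℕ → ℝ) {y w : ℕ} (hy : 0 < y) (hw : 0 < w) :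
    ∑ n ∈ Icc 1 (y * w), ∑ d ∈ n.divisors, f d * g (n / d) =
      ∑ d ∈ Icc 1 y, f d * ∑ m ∈ Icc 1 (y * w / d), g m +
        ∑ m ∈ Icc 1 w, g m * (∑ d ∈ Icc 1 (y * w / m), f d - ∑ d ∈ Icc 1 y, f d) := by
  have hI : ∀ N : ℕ, Icc 1 N = Ioc 0 N := fun N => by
    ext n
    simp only [mem_Icc, mem_Ioc]
    omega
  simp only [hI]
  have h1 : ∑ n ∈ Ioc 0 (y * w), ∑ d ∈ n.divisors, f d * g (n / d) =
      ∑ d ∈ Ioc 0 (y * w), ∑ m ∈ Ioc 0 (y * w / d), f d * g m := by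
    rw [sum_sigma', sum_sigma']
    refine sum_bij' (fun p _ => ⟨p.2, p.1 / p.2⟩) (fun p _ => ⟨p.1 * p.2, p.1⟩) ?_ ?_ ?_ ?_ ?_
    · rintro ⟨n, d⟩ hp
      simp only [mem_sigma, mem_Ioc, Nat.mem_divisors] at hp ⊢
      obtain ⟨⟨a1, a2⟩, a3, -⟩ := hp
      have a4 := Nat.le_of_dvd a1 a3
      have a5 := Nat.pos_of_dvd_of_pos a3 a1
      exact ⟨⟨a5, a4.trans a2⟩, Nat.div_pos a4 a5, Nat.div_le_div_right a2⟩
    · rintro ⟨d, m⟩ hp
      simp only [mem_sigma, mem_Ioc, Nat.mem_divisors] at hp ⊢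
      obtain ⟨⟨a1, -⟩, a3, a4⟩ := hp
      rw [Nat.le_div_iff_mul_le a1, mul_comm] at a4
      exact ⟨⟨Nat.mul_pos a1 a3, a4⟩, dvd_mul_right _ _, (Nat.mul_pos a1 a3).ne'⟩
    · rintro ⟨n, d⟩ hp
      simp only [mem_sigma, mem_Ioc, Nat.mem_divisors] at hp
      simp only [Nat.mul_div_cancel' hp.2.1]
    · rintro ⟨d, m⟩ hp
      simp only [mem_sigma, mem_Ioc] at hp
      simp only [Nat.mul_div_cancel_left _ hp.1.1]
    · rintro ⟨n, d⟩ _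
      rfl
  rw [h1, ← sum_Ioc_consecutive _ (Nat.zero_le y) (Nat.le_mul_of_pos_right y hw)]
  congr 1
  · exact sum_congr rfl fun d _ => (mul_sum _ _ _).symm
  · rw [sum_comm' (t' := Ioc 0 w) (s' := fun m => Ioc y (y * w / m))]
    · refine sum_congr rfl fun m hm => ?_
      rw [mem_Ioc] at hm
      have h2 : y ≤ y * w / m := by
        rw [Nat.le_div_iff_mul_le hm.1]
        exact Nat.mul_le_mul_left _ hm.2
      rw [← sum_Ioc_consecutive _ (Nat.zero_le y) h2, add_sub_cancel_left, mul_sum]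
      exact sum_congr rfl fun d _ => mul_comm _ _
    · intro d m
      simp only [mem_Ioc]
      constructor
      · rintro ⟨⟨a1, -⟩, a3, a4⟩
        rw [Nat.le_div_iff_mul_le (hy.trans a1)] at a4
        refine ⟨⟨a1, ?_⟩, a3, ?_⟩
        · rwa [Nat.le_div_iff_mul_le a3, mul_comm]
        · exact Nat.le_of_mul_le_mul_left (le_trans (by nlinarith) a4) hy
      · rintro ⟨⟨a1, a2⟩, a3, -⟩
        rw [Nat.le_div_iff_mul_le a3] at a2
        refine ⟨⟨a1, le_trans (Nat.le_mul_of_pos_right d a3) a2⟩, a3, ?_⟩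
        rwa [Nat.le_div_iff_mul_le (hy.trans a1), mul_comm]

theorem tnz_core {ψ : ℕ → ℝ} (hψ : ∀ n, |ψ n| ≤ 1) {L K q b : ℝ} (hq : 0 ≤ q) (hK : 0 ≤ K)
    (h0 : 0 ≤ b) (h1 : b < 1)
    (hL1 : ∀ N : ℕ, 0 < N → |L - ∑ n ∈ Icc 1 N, ψ n * (n : ℝ) ^ (-(1 : ℝ))| ≤
      2 * q * (N : ℝ) ^ (-(1 : ℝ)))
    (hLb : ∀ N : ℕ, 0 < N → |K - ∑ n ∈ Icc 1 N, ψ n * (n : ℝ) ^ (-b)| ≤ 2 * q * (N : ℝ) ^ (-b))
    {y w : ℕ} (hy : 0 < y) (hw : 0 < w) :
    (1 - b) * ∑ n ∈ Icc 1 (y * w), rr ψ n * (n : ℝ) ^ (-b) ≤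
      ((y * w : ℕ) : ℝ) ^ (1 - b) * (L + 2 * q * (y : ℝ) ^ (-(1 : ℝ))) + 2 * q * (y : ℝ) ^ (-b) +
        y * (w : ℝ) ^ (-b) + 4 * q * (y : ℝ) ^ (-b) * (w : ℝ) ^ (1 - b) := by
  have hy0 : (0 : ℝ) < y := by exact_mod_cast hy
  have hw0 : (0 : ℝ) < w := by exact_mod_cast hw
  have ha : 0 ≤ 1 - b := by linarith
  have e1 : ∑ n ∈ Icc 1 (y * w), rr ψ n * (n : ℝ) ^ (-b) = ∑ n ∈ Icc 1 (y * w),
      ∑ d ∈ n.divisors, (ψ d * (d : ℝ) ^ (-b)) * ((n / d : ℕ) : ℝ) ^ (-b) := by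
    refine sum_congr rfl fun n _ => ?_
    rw [rr, sum_mul]
    refine sum_congr rfl fun d hd => ?_
    rw [mul_assoc, ← Real.mul_rpow (Nat.cast_nonneg _) (Nat.cast_nonneg _), ← Nat.cast_mul,
      Nat.mul_div_cancel' (Nat.dvd_of_mem_divisors hd)]
  rw [e1, tnz_hyp (fun d => ψ d * (d : ℝ) ^ (-b)) (fun m => (m : ℝ) ^ (-b)) hy hw, mul_add]
  have hz1 := tnz_le h0 h1 (y * w)
  have hz2 := tnz_ge h0 h1 (y * w)
  obtain ⟨z, hz⟩ : ∃ z, z = tnzZ b (y * w) - ((y * w : ℕ) : ℝ) ^ (1 - b) := ⟨_, rfl⟩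
  have e2 : (1 - b) * ∑ d ∈ Icc 1 y, ψ d * (d : ℝ) ^ (-b) *
      ∑ m ∈ Icc 1 (y * w / d), (m : ℝ) ^ (-b) ≤ ∑ d ∈ Icc 1 y,
        (((y * w : ℕ) : ℝ) ^ (1 - b) * (ψ d * (d : ℝ) ^ (-(1 : ℝ))) + z * (ψ d * (d : ℝ) ^ (-b)) +
          (w : ℝ) ^ (-b)) := by
    rw [mul_sum]
    refine sum_le_sum fun d hd => ?_
    rw [mem_Icc] at hd
    have hd0 : (0 : ℝ) < d := by exact_mod_cast hd.1
    have hd1 : (1 : ℝ) ≤ d := by exact_mod_cast hd.1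
    have a1 : w ≤ y * w / d := by
      rw [Nat.le_div_iff_mul_le hd.1, mul_comm]
      exact Nat.mul_le_mul_right _ hd.2
    have a2 := tnz_Z h0 h1.le (hw.trans_le a1) (Nat.div_le_self (y * w) d)
      (u := ((y * w : ℕ) : ℝ) / d) Nat.cast_div_le (by
        rw [div_le_iff₀ hd0]
        have := Nat.lt_div_mul_add (a := y * w) hd.1
        have : y * w ≤ (y * w / d + 1) * d := by nlinarith
        exact_mod_cast this)
    rw [← hz] at a2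
    have a3 : ((y * w / d : ℕ) : ℝ) ^ (-b) ≤ (w : ℝ) ^ (-b) :=
      Real.rpow_le_rpow_of_nonpos hw0 (by exact_mod_cast a1) (by linarith)
    have a4 : |ψ d * (d : ℝ) ^ (-b)| ≤ 1 := by
      rw [abs_mul, abs_of_nonneg (Real.rpow_nonneg hd0.le _)]
      exact mul_le_one₀ (hψ d) (Real.rpow_nonneg hd0.le _)
        (Real.rpow_le_one_of_one_le_of_nonpos hd1 (by linarith))
    have a5 : ψ d * (d : ℝ) ^ (-b) * (((y * w : ℕ) : ℝ) / d) ^ (1 - b) =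
        ((y * w : ℕ) : ℝ) ^ (1 - b) * (ψ d * (d : ℝ) ^ (-(1 : ℝ))) := by
      rw [Real.div_rpow (Nat.cast_nonneg _) hd0.le,
        show -(1 : ℝ) = -b - (1 - b) by ring, Real.rpow_sub hd0 (-b)]
      ring
    have a6 := (le_abs_self _).trans ((abs_mul _ _).trans_le
      (mul_le_mul a4 (a2.trans a3) (abs_nonneg _) zero_le_one))
    have a7 : (1 - b) * (ψ d * (d : ℝ) ^ (-b) * ∑ m ∈ Icc 1 (y * w / d), (m : ℝ) ^ (-b)) =
        ψ d * (d : ℝ) ^ (-b) * tnzZ b (y * w / d) := by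
      rw [tnzZ]
      ring
    rw [a7, ← a5]
    linarith
  rw [sum_add_distrib, sum_add_distrib, ← mul_sum, ← mul_sum, sum_const, Nat.card_Icc,
    Nat.add_sub_cancel, nsmul_eq_mul] at e2
  have b1 := abs_le.1 (hL1 y hy)
  have b2 := abs_le.1 (hLb y hy)
  have b3 : 0 ≤ 2 * q * (y : ℝ) ^ (-b) := by positivity
  have e3 : ((y * w : ℕ) : ℝ) ^ (1 - b) * ∑ d ∈ Icc 1 y, ψ d * (d : ℝ) ^ (-(1 : ℝ)) ≤
      ((y * w : ℕ) : ℝ) ^ (1 - b) * (L + 2 * q * (y : ℝ) ^ (-(1 : ℝ))) :=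
    mul_le_mul_of_nonneg_left (by linarith [b1.1]) (Real.rpow_nonneg (Nat.cast_nonneg _) _)
  have e4 : z * ∑ d ∈ Icc 1 y, ψ d * (d : ℝ) ^ (-b) ≤ 2 * q * (y : ℝ) ^ (-b) := by
    have c1 : z ≤ 0 := by linarith
    have c2 : -1 ≤ z := by linarith
    have c3 : -(2 * q * (y : ℝ) ^ (-b)) ≤ ∑ d ∈ Icc 1 y, ψ d * (d : ℝ) ^ (-b) := by
      linarith [b2.2]
    nlinarith
  have e5 : ∑ m ∈ Icc 1 w, (m : ℝ) ^ (-b) * (∑ d ∈ Icc 1 (y * w / m), ψ d * (d : ℝ) ^ (-b) -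
      ∑ d ∈ Icc 1 y, ψ d * (d : ℝ) ^ (-b)) ≤
        ∑ m ∈ Icc 1 w, (m : ℝ) ^ (-b) * (4 * q * (y : ℝ) ^ (-b)) := by
    refine sum_le_sum fun m hm => ?_
    rw [mem_Icc] at hm
    refine mul_le_mul_of_nonneg_left ?_ (Real.rpow_nonneg (Nat.cast_nonneg _) _)
    have a1 : y ≤ y * w / m := by
      rw [Nat.le_div_iff_mul_le hm.1]
      exact Nat.mul_le_mul_left _ hm.2
    have a2 := abs_le.1 (hLb _ (hy.trans_le a1))
    have a3 : ((y * w / m : ℕ) : ℝ) ^ (-b) ≤ (y : ℝ) ^ (-b) :=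
      Real.rpow_le_rpow_of_nonpos hy0 (by exact_mod_cast a1) (by linarith)
    have a4 := mul_le_mul_of_nonneg_left a3 hq
    linarith [a2.1, b2.2]
  have e6 := mul_le_mul_of_nonneg_left e5 ha
  rw [← sum_mul, ← mul_assoc] at e6
  have e7 := mul_le_mul_of_nonneg_right (tnz_le h0 h1 w)
    (show 0 ≤ 4 * q * (y : ℝ) ^ (-b) by positivity)
  rw [tnzZ] at e7
  linarith

theorem nz_sum {c : ℝ} (hc : 0 < c) : ∃ C : ℝ, 0 < C ∧ ∀ (q : ℕ) [NeZero q]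
    (χ : DirichletCharacter ℂ q) (ψ : ℕ → ℝ), χ ≠ 1 → χ ^ 2 = 1 → (∀ n : ℕ, χ n = ψ n) → 2 ≤ q →
    (∀ β : ℝ, 1 - c / Real.log q ≤ β → β < 1 → χ.LFunction β ≠ 0) →
    ∑ n ∈ Icc 1 (q ^ 9), rr ψ n / n ≤ C * ‖χ.LFunction 1‖ * Real.log q := by
  obtain ⟨c0, hc0, hS⟩ := siegel (ε := 1) one_pos
  obtain ⟨k, hk0, hk1, hk2⟩ : ∃ k : ℝ, 0 < k ∧ k ≤ c ∧ k ≤ 1 / 4 :=
    ⟨min c (1 / 4), lt_min hc (by norm_num), min_le_left _ _, min_le_right _ _⟩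
  refine ⟨Real.exp k ^ 9 * (1 + 9 / c0) / k, by positivity, fun q _ χ ψ hχ h2 h hq hz => ?_⟩
  have hrc := tnz_rc hχ h2 h
  have hl := Pool.Agent.Lib.Sieve.one_half_le_log hq
  have hl0 : 0 < Real.log q := by linarith
  have hq1 : (1 : ℝ) ≤ q := by exact_mod_cast le_trans one_le_two hq
  have hq0 : (0 : ℝ) < q := by linarith
  obtain ⟨b, hb⟩ : ∃ b : ℝ, b = 1 - k / Real.log q := ⟨_, rfl⟩
  have ha : 1 - b = k / Real.log q := by rw [hb]; ring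
  have ha0 : 0 < k / Real.log q := by positivity
  have ha1 : k / Real.log q ≤ 1 / 2 := by
    rw [div_le_iff₀ hl0]
    linarith
  have hb0 : 0 < b := by linarith
  have hb1 : b < 1 := by linarith
  have hK : 0 < (χ.LFunction b).re := by
    refine (posSer_one h2).re_pos (DirichletCharacter.differentiable_LFunction hχ)
      (fun x hx hx1 => ?_) hb1.le
    rcases hx1.eq_or_lt with rfl | hx1
    · exact DirichletCharacter.LFunction_apply_one_ne_zero hχ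
    · refine hz x (le_trans ?_ hx) hx1
      have := div_le_div_of_nonneg_right hk1 hl0.le
      linarith
  have hψ : ∀ n, |ψ n| ≤ 1 := fun n => by
    rcases hrc.val n with h | h | h <;> simp [h]
  have hq4 : 0 < q ^ 4 := by positivity
  have hq5 : 0 < q ^ 5 := by positivity
  have core := tnz_core hψ hq0.le hK.le hb0.le hb1 (fun N hN => tnz_trunc hχ h one_pos hN)
    (fun N hN => tnz_trunc hχ h hb0 hN) hq4 hq5
  rw [← pow_add] at core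
  have hW : (q : ℝ) ^ (1 - b) = Real.exp k := by
    rw [Real.rpow_def_of_pos hq0, ha]
    congr 1
    field_simp
  have hW1 : 1 ≤ Real.exp k := Real.one_le_exp hk0.le
  have hW' : (q : ℝ) ^ (-b) = Real.exp k / q := by
    rw [← hW, ← Real.rpow_sub_one hq0.ne']
    congr 1
    ring
  have hp : ∀ (j : ℕ) (t : ℝ), ((q ^ j : ℕ) : ℝ) ^ t = ((q : ℝ) ^ t) ^ j := fun j t => by
    rw [Nat.cast_pow, Real.rpow_pow_comm hq0.le]
  simp only [hp, hW, hW', Real.rpow_neg_one] at core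
  rw [Nat.cast_pow, Complex.ofReal_one] at core
  have hs := hS q χ hχ h2
  rw [Real.rpow_neg_one] at hs
  have hre := Complex.re_le_norm (χ.LFunction 1)
  generalize ‖χ.LFunction 1‖ = L at *
  generalize (χ.LFunction 1).re = L' at *
  generalize Real.exp k = W at *
  have hT : ∑ n ∈ Icc 1 (q ^ 9), rr ψ n / n ≤ ∑ n ∈ Icc 1 (q ^ (4 + 5)), rr ψ n * (n : ℝ) ^ (-b) := by
    refine sum_le_sum fun n hn => ?_
    rw [mem_Icc] at hn
    rw [div_eq_mul_inv, ← Real.rpow_neg_one]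
    exact mul_le_mul_of_nonneg_left (Real.rpow_le_rpow_of_exponent_le (by exact_mod_cast hn.1)
      (by linarith)) (hrc.rr_nonneg n)
  refine hT.trans ?_
  generalize ∑ n ∈ Icc 1 (q ^ (4 + 5)), rr ψ n * (n : ℝ) ^ (-b) = T at *
  have hi0 : 0 < (q : ℝ)⁻¹ := by positivity
  have hi1 : (q : ℝ)⁻¹ ≤ 1 := inv_le_one_of_one_le₀ hq1
  have hi3 : (q : ℝ)⁻¹ ^ 3 ≤ (q : ℝ)⁻¹ := pow_le_of_le_one hi0.le hi1 (by norm_num)
  have hw4 : W ^ 4 ≤ W ^ 9 := pow_le_pow_right₀ hW1 (by norm_num)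
  have hw5 : W ^ 5 ≤ W ^ 9 := pow_le_pow_right₀ hW1 (by norm_num)
  have hW9 : 0 < W ^ 9 := by positivity
  have e1 : W ^ (4 + 5) * (L' + 2 * q * (q : ℝ)⁻¹ ^ 4) + 2 * q * (W / q) ^ 4 +
      (q : ℝ) ^ 4 * (W / q) ^ 5 + 4 * q * (W / q) ^ 4 * W ^ 5 =
      W ^ 9 * L' + 6 * (W ^ 9 * (q : ℝ)⁻¹ ^ 3) + 2 * (W ^ 4 * (q : ℝ)⁻¹ ^ 3) +
        W ^ 5 * (q : ℝ)⁻¹ := by
    field_simp
    ring
  have e2 : W ^ 9 * (q : ℝ)⁻¹ ^ 3 ≤ W ^ 9 * (q : ℝ)⁻¹ := by gcongr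
  have e3 : W ^ 4 * (q : ℝ)⁻¹ ^ 3 ≤ W ^ 9 * (q : ℝ)⁻¹ := by gcongr
  have e4 : W ^ 5 * (q : ℝ)⁻¹ ≤ W ^ 9 * (q : ℝ)⁻¹ := by gcongr
  have e5 : W ^ 9 * L' ≤ W ^ 9 * L := by gcongr
  have e6 : W ^ 9 * (q : ℝ)⁻¹ ≤ W ^ 9 * (L / c0) := by
    gcongr
    rw [le_div_iff₀ hc0]
    linarith
  rw [e1, ha] at core
  have e7 : k / Real.log q * T ≤ W ^ 9 * L + 9 * (W ^ 9 * (L / c0)) := by linarith
  rw [div_mul_eq_mul_div, div_le_iff₀ hl0, ← le_div_iff₀' hk0] at e7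
  refine e7.trans (le_of_eq ?_)
  field_simp

theorem tnz_split (f : ℕ → ℝ) {z X : ℕ} (h : z ≤ X) :
    ∑ l ∈ Nat.primesLE X, f l =
      ∑ l ∈ Nat.primesLE z, f l + ∑ l ∈ (Nat.primesLE X).filter (fun l => z < l), f l := by
  rw [← sum_filter_add_sum_filter_not (Nat.primesLE X) (fun l => z < l), add_comm]
  congr 2
  ext l
  simp only [mem_filter, Nat.mem_primesLE, not_lt]
  exact ⟨fun a => ⟨a.2, a.1.2⟩, fun a => ⟨⟨a.1.trans h, a.2⟩, a.1⟩⟩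

theorem tnz_abs {ψ : ℕ → ℝ} (hψ : ∀ n, |ψ n| ≤ 1) (S : Finset ℕ) :
    |∑ l ∈ S, ψ l / l| ≤ ∑ l ∈ S, 1 / (l : ℝ) := by
  refine (abs_sum_le_sum_abs _ _).trans (sum_le_sum fun l _ => ?_)
  rw [abs_div, Nat.abs_cast]
  exact div_le_div_of_nonneg_right (hψ l) (Nat.cast_nonneg _)

theorem tnz_move : ∃ C : ℝ, ∀ (q : ℕ) (ψ : ℕ → ℝ), RC q ψ → 2 ≤ q → ∀ X : ℕ, q ≤ X ^ 3 →
    ∑ l ∈ Nat.primesLE X, ψ l / l ≤ ∑ l ∈ Nat.primesLE q, ψ l / l + C := by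
  obtain ⟨C3, h3⟩ := range_pow 3
  obtain ⟨C2, h2⟩ := range_pow 2
  obtain ⟨C1, h1⟩ := tail_le
  refine ⟨|C3| + |C2| + |C1|, fun q ψ hrc hq X hX => ?_⟩
  have hψ : ∀ n, |ψ n| ≤ 1 := fun n => by
    rcases hrc.val n with h | h | h <;> simp [h]
  have a1 := le_abs_self C1
  have a2 := le_abs_self C2
  have a3 := le_abs_self C3
  have b1 := abs_nonneg C1
  have b2 := abs_nonneg C2
  have b3 := abs_nonneg C3
  rcases le_total X q with h | h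
  · have := abs_le.1 ((tnz_abs hψ _).trans (h3 X q hX))
    rw [tnz_split _ h]
    linarith [this.1]
  · rcases le_total X (q ^ 2) with h' | h'
    · have := abs_le.1 ((tnz_abs hψ _).trans (h2 q X h'))
      rw [tnz_split _ h]
      linarith [this.2]
    · have := abs_le.1 ((tnz_abs hψ _).trans (h2 q (q ^ 2) le_rfl))
      have hq2 : q ≤ q ^ 2 := Nat.le_self_pow two_ne_zero q
      have h4 := h1 q ψ hrc (q ^ 2) X (hq.trans hq2) le_rfl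
      rw [tnz_split _ h', tnz_split _ hq2]
      linarith [this.2]

theorem nz_euler {c : ℝ} (hc : 0 < c) : ∃ C : ℝ, 0 < C ∧ ∀ (q : ℕ) [NeZero q]
    (χ : DirichletCharacter ℂ q) (ψ : ℕ → ℝ), χ ≠ 1 → χ ^ 2 = 1 → (∀ n : ℕ, χ n = ψ n) →
    (∀ β : ℝ, 1 - c / Real.log q ≤ β → β < 1 → χ.LFunction β ≠ 0) → ∀ X : ℕ, q ≤ X ^ 3 →
    Real.exp (∑ l ∈ Nat.primesLE X, ψ l / l) ≤ C * ‖χ.LFunction 1‖ := by
  obtain ⟨C1, hC1, h1⟩ := nz_sum hc
  obtain ⟨C2, hC2, h2⟩ := RC.euler_le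
  obtain ⟨C3, h3⟩ := tnz_move
  refine ⟨C2 * C1 * Real.exp (2 + C3), by positivity, fun q _ χ ψ hχ hχ2 h hz X hX => ?_⟩
  have hq : 2 ≤ q := by
    have h0 := NeZero.pos q
    by_contra hq
    obtain rfl : q = 1 := by omega
    exact hχ χ.level_one
  have hrc := tnz_rc hχ hχ2 h
  have hl := Pool.Agent.Lib.Sieve.one_half_le_log hq
  have hl0 : 0 < Real.log q := by linarith
  have e1 := h1 q χ ψ hχ hχ2 h hq hz
  have e2 := h2 q ψ hrc 1 q le_rfl (by omega)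
  have e3 : ∑ n ∈ Icc 1 1, rr ψ n / n = 1 := by simp [rr, hrc.one]
  have e4 : (Nat.primesLE q).filter (fun l => 1 < l) = Nat.primesLE q :=
    filter_true_of_mem fun l hl => (Nat.prime_of_mem_primesLE hl).one_lt
  rw [e3, e4, one_mul, one_mul] at e2
  simp only [add_div, sum_add_distrib] at e2
  have e5 := Pool.Agent.Lib.Sieve.le_sum_inv_primes hq
  have e6 := h3 q ψ hrc hq X hX
  have e7 : Real.exp (∑ l ∈ Nat.primesLE X, ψ l / l) * Real.log q ≤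
      Real.exp (∑ l ∈ Nat.primesLE q, 1 / (l : ℝ) + ∑ l ∈ Nat.primesLE q, ψ l / l) *
        Real.exp (2 + C3) := by
    rw [← Real.exp_log hl0, ← Real.exp_add, ← Real.exp_add]
    exact Real.exp_le_exp.2 (by linarith)
  refine le_of_mul_le_mul_right (e7.trans ?_) hl0
  calc _ ≤ C2 * (C1 * ‖χ.LFunction 1‖ * Real.log q) * Real.exp (2 + C3) :=
        mul_le_mul_of_nonneg_right (e2.trans (mul_le_mul_of_nonneg_left e1 hC2.le))
          (Real.exp_pos _).le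
    _ = _ := by ring

end Pool.Agent.EQ
end
end

-- part Pool.Agent.P.MP_ad7a55_nt.TSb
section

/-! Majorants of the weight at the remaining primes. -/

set_option autoImplicit false

noncomputable section

open Finset Matrix

namespace Pool.Agent.EQ

theorem tsb_idx {ι : Type} [Countable ι] {K M a : ℝ} {l : ℕ} {S : Set ℤ} {B : ℤ → ℤ}
    {w : ℤ → ℝ} {mu : ℤ → ℕ} (I : Finset ι) (e : ι → ℕ) (r : ι → ℤ) (π : ι → ℝ)
    (Ω : ι → ℕ → ℤ → Prop) (f : ι → ℕ → ℝ) (h1 : ∀ i ∈ I, 0 ≤ π i ∧ Lv l K (Ω i) (f i) a)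
    (h2 : ∑ i ∈ I, π i / (l : ℝ) ^ e i ≤ M)
    (h3 : ∀ x ∈ S, w x ≤ 0 ∨ ∃ i ∈ I, ∃ (y : ℤ) (k : ℕ), e i ≤ mu x ∧
      x = r i + (l : ℤ) ^ e i * y ∧ At (Ω i) y k ∧ (l : ℤ) ^ k ∣ B x ∧ w x ≤ π i * f i k) :
    LS K l S B w mu M a := by
  classical
  obtain ⟨c, hc⟩ := exists_injective_nat ι
  obtain ⟨g, hg⟩ : ∃ g : ι → ℕ × ℤ × ℕ, ∀ i, g i = (e i, r i, c i) := ⟨_, fun _ => rfl⟩
  have hi : Function.Injective g := fun i j h => hc (by
    rw [hg, hg] at h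
    exact (Prod.mk.inj (Prod.mk.inj h).2).2)
  refine ⟨I.image g, Function.extend g π 0, Function.extend g Ω (fun _ _ _ => False),
    Function.extend g f 0, fun t ht => ?_, ?_, fun x hx => ?_⟩
  · obtain ⟨i, h4, rfl⟩ := mem_image.1 ht
    rw [hi.extend_apply, hi.extend_apply, hi.extend_apply]
    exact h1 i h4
  · rw [sum_image fun i _ j _ h => hi h]
    refine le_trans (le_of_eq (sum_congr rfl fun i _ => ?_)) h2
    rw [hi.extend_apply, hg]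
  · refine (h3 x hx).imp id ?_
    rintro ⟨i, h4, y, k, a1, a2, a3, a4, a5⟩
    refine ⟨g i, mem_image_of_mem _ h4, y, k, ?_⟩
    rw [hi.extend_apply, hi.extend_apply, hi.extend_apply, hg]
    exact ⟨a1, a2, a3, a4, a5⟩

theorem tsb_union {K M M' a : ℝ} {l : ℕ} {S S' : Set ℤ} {B : ℤ → ℤ} {w : ℤ → ℝ} {mu : ℤ → ℕ}
    (h : LS K l S B w mu M a) (h' : LS K l S' B w mu M' a) :
    LS K l (S ∪ S') B w mu (M + M') a := by
  obtain ⟨T, π, Ω, f, h1, h2, h3⟩ := h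
  obtain ⟨T', π', Ω', f', h1', h2', h3'⟩ := h'
  refine tsb_idx (T.disjSum T') (Sum.elim (fun t => t.1) fun t => t.1)
    (Sum.elim (fun t => t.2.1) fun t => t.2.1) (Sum.elim π π') (Sum.elim Ω Ω') (Sum.elim f f')
    ?_ ?_ ?_
  · rintro (t | t) ht
    · exact h1 t (inl_mem_disjSum.1 ht)
    · exact h1' t (inr_mem_disjSum.1 ht)
  · rw [sum_disjSum]
    exact add_le_add h2 h2'
  · rintro x (hx | hx)
    · refine (h3 x hx).imp id ?_
      rintro ⟨t, ht, h4⟩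
      exact ⟨Sum.inl t, inl_mem_disjSum.2 ht, h4⟩
    · refine (h3' x hx).imp id ?_
      rintro ⟨t, ht, h4⟩
      exact ⟨Sum.inr t, inr_mem_disjSum.2 ht, h4⟩

theorem tsb_res {q : ℕ} (hq : 0 < q) (x : ℤ) : ∃ (r : ℕ) (y : ℤ), r < q ∧ x = r + q * y := by
  have h0 : (0 : ℤ) < q := by exact_mod_cast hq
  obtain ⟨r, hr⟩ := Int.eq_ofNat_of_zero_le (Int.emod_nonneg x h0.ne')
  have h1 := Int.emod_lt_of_pos x h0
  refine ⟨r, x / q, by omega, ?_⟩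
  rw [← hr]
  exact (Int.emod_add_mul_ediv x q).symm

theorem tsb_quad {l : ℕ} (hl : l.Prime) {A B C : ℤ} {s : ℕ} (h : ¬ Ct l (s + 1) A B C)
    (I : Finset ℕ) (e : ℕ → ℕ) (P : ℕ → ℤ → Prop) (π : ℕ → ℝ) (hπ : ∀ i, 0 ≤ π i)
    (hP : ∀ i x y, (l : ℤ) ^ e i ∣ x - y → P i x → P i y) {S : Set ℤ} {Q : ℤ → ℤ}
    (hQ : ∀ x, Q x = A * x ^ 2 + B * x + C) {w : ℤ → ℝ} {mu : ℤ → ℕ} {M : ℝ}
    (hM : ∑ i ∈ I, cnt (l ^ e i) (P i) * (π i / (l : ℝ) ^ e i) ≤ M)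
    (hS : ∀ x ∈ S, Q x ≠ 0 ∧ ∃ i ∈ I, e i ≤ mu x ∧ P i x ∧
      ∀ k : ℕ, padicValInt l (Q x) ≤ s + 2 * e i + 2 * k + 1 → w x ≤ π i * (k + 1)) :
    LS 1 l S Q w mu M 2 := by
  classical
  choose Ω o1 o2 using fun (μ : ℕ) (r : ℤ) => exists_qlev hl (ct_shift hl h r μ)
  refine tsb_idx (ι := Σ _ : ℕ, ℕ) (I.sigma fun i => (range (l ^ e i)).filter fun r : ℕ => P i r)
    (fun t => e t.1) (fun t => t.2) (fun t => π t.1) (fun t => Ω (e t.1) t.2)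
    (fun _ k => k + 1) (fun t _ => ⟨hπ _, o1 _ _⟩) ?_ fun x hx => Or.inr ?_
  · rw [sum_sigma]
    refine le_trans (le_of_eq (sum_congr rfl fun i _ => ?_)) hM
    rw [tqd_cnt]
    simp only [sum_const, nsmul_eq_mul]
  · obtain ⟨h0, i, hi, a1, a2, a3⟩ := hS x hx
    obtain ⟨r, y, h1, h2⟩ := tsb_res (pow_pos hl.pos (e i)) x
    push_cast at h2
    have h3 : Q x = A * (l : ℤ) ^ (2 * e i) * y ^ 2 + (2 * A * r + B) * (l : ℤ) ^ e i * y +
        (A * r ^ 2 + B * r + C) := by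
      rw [hQ, h2]
      ring
    obtain ⟨k, b1, b2, b3⟩ := o2 (e i) r y (h3 ▸ h0)
    rw [← h3] at b2 b3
    refine ⟨⟨i, r⟩, mem_sigma.2 ⟨hi, mem_filter.2 ⟨mem_range.2 h1, hP i x r ⟨y, ?_⟩ a2⟩⟩, y, k,
      a1, h2, b1, b2, a3 k b3⟩
    rw [h2]
    ring

theorem tsb_geo (A B : ℝ) (n : ℕ) :
    ∑ i ∈ range n, (A * i + B) / 2 ^ i = 2 * A + 2 * B - (2 * A * n + 2 * A + 2 * B) / 2 ^ n := by
  induction n with
  | zero => simp
  | succ n ih =>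
    rw [sum_range_succ, ih]
    push_cast
    field_simp
    ring

theorem tsb_geo_le {A B : ℝ} (hA : 0 ≤ A) (hB : 0 ≤ B) (n : ℕ) :
    ∑ i ∈ range n, (A * i + B) / 2 ^ i ≤ 2 * A + 2 * B := by
  rw [tsb_geo]
  have : 0 ≤ (2 * A * n + 2 * A + 2 * B) / 2 ^ n := by positivity
  linarith

theorem tsb_four {l : ℕ} (hl : l.Prime) {B : ℤ} (hB : B ≠ 0) :
    padicValInt l (4 * B) ≤ padicValInt l B + 2 := by
  have : Fact l.Prime := ⟨hl⟩
  rw [padicValInt.mul (by norm_num) hB]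
  have h1 : (l : ℤ) ^ padicValInt l 4 ∣ 4 := padicValInt_dvd _
  have h2 : l ^ padicValInt l 4 ≤ 4 := by exact_mod_cast Int.le_of_dvd (by norm_num) h1
  have h3 : padicValInt l 4 ≤ 2 := by
    by_contra h4
    have h5 : 2 ^ 3 ≤ l ^ padicValInt l 4 :=
      (Nat.pow_le_pow_left hl.two_le 3).trans (Nat.pow_le_pow_right hl.pos (by omega))
    omega
  omega

theorem tsb_lv {l : ℕ} {K a : ℝ} (hK : 1 ≤ K) (ha : 0 ≤ a) :
    Lv l K (fun _ _ => False) (fun _ => 1) a := by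
  refine ⟨fun _ _ _ _ h => h, fun k _ => ?_, fun _ => zero_le_one, fun k => ?_, le_rfl, ?_⟩
  · rw [tqd_zero (by simp)]
    exact Nat.zero_le _
  · have : (0 : ℝ) ≤ k := Nat.cast_nonneg k
    nlinarith
  · simpa using ha

namespace Dt

theorem tsb_W5 {d : Dt} {l : ℕ} (hl : l.Prime) {X Y : ℤ} (hB : d.B X Y ≠ 0) {v μ k : ℕ}
    (hv : padicValInt l d.m ≤ v) (hμ : μ ≤ 2 * d.ie l X Y + 1)
    (hk : padicValInt l (d.B X Y) ≤ padicValInt l d.m + padicValInt l d.E + 2 * μ + 2 * k + 1) :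
    d.W5 l X Y ≤ 16 * (l : ℝ) ^ d.ie l X Y * (6 * d.ie l X Y + (v + 9)) * (k + 1) := by
  have h1 := tsb_four hl hB
  unfold W5
  rw [mul_assoc (16 * (l : ℝ) ^ d.ie l X Y)]
  refine mul_le_mul_of_nonneg_left ?_ (by positivity)
  generalize d.ie l X Y = i at *
  have h2 : (0 : ℝ) ≤ i := Nat.cast_nonneg _
  have h3 : (0 : ℝ) ≤ k := Nat.cast_nonneg _
  have h4 : (0 : ℝ) ≤ v := Nat.cast_nonneg _
  have h5 := mul_nonneg h2 h3
  have h6 := mul_nonneg h4 h3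
  split_ifs with h7
  · have h8 : padicValInt l (4 * d.B X Y) ≤ v + 6 * i + 8 + 2 * k := by omega
    have h9 : (padicValInt l (4 * d.B X Y) : ℝ) ≤ v + 6 * i + 8 + 2 * k := by exact_mod_cast h8
    nlinarith
  · nlinarith

theorem tsb_ie {d : Dt} {κ : ℕ} (h : d.Good κ) {l : ℕ} (hl : l.Prime) (X Y : ℤ) :
    d.ie l X Y < padicValInt l d.E + 1 := by
  have : Fact l.Prime := ⟨hl⟩
  have h1 := ((padicValInt_dvd_iff _ _).1 (ie_spec h hl X Y).2.2.1).resolve_left h.E_neg.ne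
  omega

theorem tsb_D2 {d : Dt} {q x y : ℤ} (h : q ∣ x - y) (h1 : q ∣ d.Δ₂ x) : q ∣ d.Δ₂ y := by
  have := dvd_sub h1 (h.mul_right (x + y))
  rwa [show d.Δ₂ x - (x - y) * (x + y) = d.Δ₂ y by simp only [Δ₂]; ring] at this

theorem tsb_ms {d : Dt} {K K' : ℝ} (h : K ≤ K') (l : ℕ) (Y : ℤ) : d.ms K l Y ≤ d.ms K' l Y := by
  unfold ms
  split_ifs
  · exact h
  · gcongr
  · exact le_rfl

theorem tsb_one_ms {d : Dt} {K : ℝ} (h : 1 ≤ K) (l : ℕ) (Y : ℤ) : 1 ≤ d.ms K l Y := by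
  unfold ms
  split_ifs
  · exact h
  · have : 0 ≤ K / l := by positivity
    linarith
  · exact le_rfl

theorem tsb_aa {d : Dt} {K K' : ℝ} (h : K ≤ K') (l : ℕ) (Y : ℤ) : d.aa K l Y ≤ d.aa K' l Y := by
  unfold aa
  split_ifs <;> linarith

theorem tsb_jac {l : ℕ} (hl : l.Prime) {a : ℤ} (h : (l : ℤ) ∣ a) : jacobiSym a l = 0 := by
  rw [jacobiSym.mod_left, Int.emod_eq_zero_of_dvd h, jacobiSym.zero_left hl.one_lt]

theorem ls_ram' : ∃ K : ℝ, 1 ≤ K ∧ ∀ (d : Dt) (κ : ℕ), d.Good κ → ∀ l : ℕ, l.Prime → ¬ d.Dom l →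
    ¬ (l : ℤ) ∣ 2 * d.n * d.p → (l : ℤ) ∣ d.E → (l : ℤ) ∣ d.a → ∀ Y : ℤ,
    LS K l {X | d.B X Y ≠ 0} (fun X => d.B X Y) (fun X => d.Wt l X Y) (fun X => d.mu l X Y)
      (d.ms K l Y) (d.aa K l Y) := by
  refine ⟨3840, by norm_num, fun d κ h l hl hD h1 hE ha Y => ?_⟩
  have hp := tqd_prime hl
  have h2 : l ≠ 2 := fun e => h1 (by
    rw [e, mul_assoc]
    exact Dvd.intro _ rfl)
  obtain ⟨hb, hc⟩ := not_dvd_c h hl ha hE
  have hm := (val_m h hl hD).2 h1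
  have hJ : jacobiSym (d.G ^ 2 * d.E) l = 0 := tsb_jac hl (hE.mul_left _)
  have hma : (l : ℤ) ∣ d.m * d.a := ha.mul_left _
  have hW : ∀ X, d.Wt l X Y = if ¬ (l : ℤ) ∣ d.x₂ X Y then 1
      else if ¬ (l : ℤ) ∣ d.Δ₂ X then 1 + (jacobiSym (d.Δ₂ X) l : ℝ) else d.W5 l X Y := fun X => by
    unfold Wt xe Δe
    rw [if_neg hD, if_neg h1, if_neg (not_not.2 hE), if_pos ha, if_pos ha]
  by_cases hY : (l : ℤ) ∣ Y
  swap
  · have h3 : ¬ (l : ℤ) ∣ d.Δ₁ Y := fun h3 => hY (hp.dvd_of_dvd_pow (n := 2) (by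
      have := dvd_add h3 (hma.mul_left 4)
      rwa [Δ₁, sub_add_cancel] at this))
    refine ls_one (by norm_num) (tsb_one_ms (by norm_num) _ _) ?_ _ _ _ (fun X _ => ?_) _
    · unfold aa
      rw [if_neg h1, if_pos hma, if_neg h3, hJ]
      simp
    · rw [hW, if_pos]
      intro h4
      have h5 : (l : ℤ) ∣ 2 * d.c * Y := (dvd_add_left (hb.mul_right X)).1 h4
      exact hY ((hp.dvd_or_dvd h5).resolve_left fun h6 =>
        (hp.dvd_or_dvd h6).elim (tqd_not_two hl h2) hc)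
  have h3 : (l : ℤ) ∣ d.Δ₁ Y := dvd_sub (hY.trans (dvd_pow_self _ two_ne_zero)) (hma.mul_left 4)
  have haa : d.aa 3840 l Y = 3840 := by
    unfold aa
    rw [if_neg h1, if_pos hma, if_pos h3, hJ]
    simp
  have hms : d.ms 3840 l Y = 1 + 3840 / l := by
    unfold ms
    rw [if_neg h1, if_pos h3]
  have hmu : ∀ X, d.mu l X Y = 2 * d.ie l X Y + 1 := fun X => by
    unfold mu
    rw [if_pos ⟨hE, ha, hY⟩]
  have hx : ∀ X, (l : ℤ) ∣ d.x₂ X Y := fun X => dvd_add (hY.mul_left _) (hb.mul_right _)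
  have h4 : ¬ (l : ℤ) ∣ 4 * (d.m * d.c) := fun h4 => by
    rcases hp.dvd_or_dvd h4 with h5 | h5
    · exact tqd_not_two hl h2 (hp.dvd_of_dvd_pow (n := 2) (by simpa using h5))
    · exact (hp.dvd_or_dvd h5).elim hm hc
  have hl0 : (0 : ℝ) < l := by exact_mod_cast hl.pos
  have hl2 : (2 : ℝ) ≤ l := by exact_mod_cast hl.two_le
  rw [haa, hms]
  have p1 : LS 3840 l {X | ¬ (l : ℤ) ∣ d.Δ₂ X} (fun X => d.B X Y) (fun X => d.Wt l X Y)
      (fun X => d.mu l X Y) 1 3840 := by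
    refine tsb_idx (range l) (fun _ => 1) (fun r => r)
      (fun r => 1 + (jacobiSym (d.Δ₂ r) l : ℝ)) (fun _ _ _ => False) (fun _ _ => 1)
      (fun r _ => ⟨?_, tsb_lv (by norm_num) (by norm_num)⟩) ?_ fun X hX => Or.inr ?_
    · rcases jacobiSym.trichotomy (d.Δ₂ r) l with e | e | e <;> simp [e]
    · have h5 : ∑ r ∈ range l, (jacobiSym (d.Δ₂ r) l : ℝ) = -1 := by
        exact_mod_cast sum_jac_sq hl h2 h4
      rw [← sum_div, sum_add_distrib, h5, pow_one, div_le_one hl0]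
      simp
    · obtain ⟨r, y, h5, h6⟩ := tsb_res hl.pos X
      refine ⟨r, mem_range.2 h5, y, 0, by rw [hmu]; omega, by rw [pow_one]; exact h6,
        ⟨fun _ => not_false, fun e => absurd e (lt_irrefl 0)⟩, by simp, ?_⟩
      have h7 : jacobiSym (d.Δ₂ X) l = jacobiSym (d.Δ₂ r) l :=
        jacobiSym.mod_left' (Int.modEq_iff_dvd.2 ⟨-y * (X + r), by
          simp only [Δ₂]
          linear_combination (-(X + r)) * h6⟩)
      rw [hW, if_neg (not_not.2 (hx X)), if_pos (show ¬ (l : ℤ) ∣ d.Δ₂ X from hX), h7,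
        mul_one]
  have p2 : LS 1 l {X | d.B X Y ≠ 0 ∧ (l : ℤ) ∣ d.Δ₂ X} (fun X => d.B X Y) (fun X => d.Wt l X Y)
      (fun X => d.mu l X Y) (3840 / l) 2 := by
    refine tsb_quad hl (content h hl Y rfl) (range (padicValInt l d.E + 1))
      (fun i => max (2 * i) 1) (fun i X => (l : ℤ) ^ max (2 * i) 1 ∣ d.Δ₂ X)
      (fun i => 16 * (l : ℝ) ^ i * (6 * i + ((0 : ℕ) + 9))) (fun i => by positivity)
      (fun i x y => tsb_D2) (fun X => B_eq X Y) ?_ fun X hX => ⟨hX.1, d.ie l X Y,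
        mem_range.2 (tsb_ie h hl X Y), by rw [hmu]; omega, ?_, fun k hk => ?_⟩
    · refine le_trans (sum_le_sum (g := fun i : ℕ => 128 / (l : ℝ) * ((6 * i + 9) / 2 ^ i))
        fun i _ => ?_) ?_
      · have h5 : (cnt (l ^ max (2 * i) 1) fun X => (l : ℤ) ^ max (2 * i) 1 ∣ d.Δ₂ X) ≤ 4 := by
          have := cnt_sq_le' hl (max (2 * i) 1) 0 (a := 4 * (d.m * d.c))
            fun h5 => h4 ((dvd_pow_self _ (by norm_num)).trans h5)
          rw [pow_zero, mul_one] at this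
          exact this
        have h6 : ((cnt (l ^ max (2 * i) 1) fun X =>
            (l : ℤ) ^ max (2 * i) 1 ∣ d.Δ₂ X : ℕ) : ℝ) ≤ 4 := by exact_mod_cast h5
        have h7 : (l : ℝ) ^ i / (l : ℝ) ^ max (2 * i) 1 ≤ 2 / l / 2 ^ i := by
          cases i with
          | zero =>
            simp only [pow_zero, mul_zero, div_one]
            rw [max_eq_right (by norm_num), pow_one]
            gcongr
            norm_num
          | succ j =>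
            rw [max_eq_left (by omega), div_div, div_le_div_iff₀ (by positivity) (by positivity)]
            have h8 : (2 : ℝ) ^ j ≤ (l : ℝ) ^ j := pow_le_pow_left₀ (by norm_num) hl2 j
            calc (l : ℝ) ^ (j + 1) * (l * 2 ^ (j + 1)) = 2 * (l : ℝ) ^ (j + 2) * 2 ^ j := by ring
              _ ≤ 2 * (l : ℝ) ^ (j + 2) * (l : ℝ) ^ j := by gcongr
              _ = _ := by ring
        calc _ ≤ 4 * (16 * (l : ℝ) ^ i * (6 * i + ((0 : ℕ) + 9)) / (l : ℝ) ^ max (2 * i) 1) := by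
              gcongr
          _ = 64 * (6 * i + 9) * ((l : ℝ) ^ i / (l : ℝ) ^ max (2 * i) 1) := by
              push_cast
              ring
          _ ≤ 64 * (6 * i + 9) * (2 / l / 2 ^ i) := by gcongr
          _ = _ := by ring
      · rw [← mul_sum]
        refine (mul_le_mul_of_nonneg_left (tsb_geo_le (by norm_num) (by norm_num) _)
          (by positivity)).trans (le_of_eq (by ring))
    · have h5 := (ie_spec h hl X Y).2.1
      rw [Δe, if_pos ha] at h5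
      rcases le_total (2 * d.ie l X Y) 1 with h6 | h6
      · rw [max_eq_right h6, pow_one]
        exact hX.2
      · rwa [max_eq_left h6]
    · rw [hW, if_neg (not_not.2 (hx X)), if_neg (not_not.2 hX.2)]
      exact tsb_W5 hl hX.1 (padicValInt.eq_zero_of_not_dvd hm).le (by omega) hk
  refine (tsb_union p1 (p2.mono (by norm_num) subset_rfl (fun _ _ => le_rfl) (fun _ _ => le_rfl)
    le_rfl (by norm_num))).mono le_rfl (fun X hX => ?_) (fun _ _ => le_rfl) (fun _ _ => le_rfl)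
    le_rfl le_rfl
  by_cases h5 : (l : ℤ) ∣ d.Δ₂ X
  · exact Or.inr ⟨hX, h5⟩
  · exact Or.inl h5

theorem ls_bdd (L v : ℕ) : ∃ K : ℝ, 1 ≤ K ∧ ∀ (d : Dt) (κ : ℕ), d.Good κ → ∀ l : ℕ, l.Prime →
    l ≤ L → padicValInt l d.m ≤ v → ∀ Y : ℤ,
    LS 1 l {X | d.B X Y ≠ 0} (fun X => d.B X Y) (fun X => d.W5 l X Y) (fun X => 2 * d.ie l X Y)
      K 2 := by
  refine ⟨64 * (L : ℝ) ^ (v + 1) * (2 * 6 + 2 * (v + 9)) + 1, ?_,
    fun d κ h l hl hL hv Y => ?_⟩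
  · have : 0 ≤ 64 * (L : ℝ) ^ (v + 1) * (2 * 6 + 2 * (v + 9)) := by positivity
    linarith
  have : Fact l.Prime := ⟨hl⟩
  have hp := tqd_prime hl
  have hl0 : (0 : ℝ) < l := by exact_mod_cast hl.pos
  have hl2 : (2 : ℝ) ≤ l := by exact_mod_cast hl.two_le
  have hm : d.m ≠ 0 := mul_ne_zero h.n_ne
    (Int.natCast_ne_zero.2 (Nat.mul_pos h.g₁_pos h.g₂_pos).ne')
  refine tsb_quad hl (content h hl Y rfl) (range (padicValInt l d.E + 1)) (fun i => 2 * i)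
    (fun i X => (l : ℤ) ^ (2 * i) ∣ d.E ∧
      if (l : ℤ) ∣ d.a then (l : ℤ) ^ (2 * i) ∣ d.Δ₂ X else (l : ℤ) ^ (2 * i) ∣ d.x₁ X Y)
    (fun i => 16 * (l : ℝ) ^ i * (6 * i + (v + 9))) (fun i => by positivity)
    (fun i x y h1 h2 => ⟨h2.1, ?_⟩) (fun X => B_eq X Y) ?_ fun X hX => ⟨hX, d.ie l X Y,
      mem_range.2 (tsb_ie h hl X Y), le_rfl, ?_, fun k hk => tsb_W5 hl hX hv (by omega) hk⟩
  · have h3 := h2.2
    split_ifs at h3 ⊢
    · exact tsb_D2 h1 h3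
    · have := dvd_sub h3 (h1.mul_left (2 * d.a))
      rwa [show d.x₁ x Y - 2 * d.a * (x - y) = d.x₁ y Y by simp only [x₁]; ring] at this
  · refine le_trans (sum_le_sum
      (g := fun i : ℕ => 64 * (L : ℝ) ^ (v + 1) * ((6 * i + (v + 9)) / 2 ^ i)) fun i _ => ?_) ?_
    · have h5 : (cnt (l ^ (2 * i)) fun X => (l : ℤ) ^ (2 * i) ∣ d.E ∧
          if (l : ℤ) ∣ d.a then (l : ℤ) ^ (2 * i) ∣ d.Δ₂ X else (l : ℤ) ^ (2 * i) ∣ d.x₁ X Y) ≤
          4 * l ^ (v + 1) := by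
        have h4 : 1 ≤ l ^ (v + 1) := Nat.one_le_pow _ _ hl.pos
        rcases Nat.eq_zero_or_pos i with rfl | hi
        · exact (tqd_le_one fun x y _ _ => by simp).trans (by omega)
        by_cases hE : (l : ℤ) ^ (2 * i) ∣ d.E
        swap
        · rw [tqd_zero fun ⟨_, hx⟩ => hE hx.1]
          exact Nat.zero_le _
        by_cases ha : (l : ℤ) ∣ d.a
        · have hc := (not_dvd_c h hl ha ((dvd_pow_self _ (by omega)).trans hE)).2
          have hc0 : d.c ≠ 0 := fun e => hc (e ▸ dvd_zero _)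
          rw [tqd_congr (A' := fun X => (l : ℤ) ^ (2 * i) ∣ X ^ 2 - 4 * (d.m * d.c))
            fun X => by rw [if_pos ha, and_iff_right hE, Δ₂]]
          refine cnt_sq_le' hl _ _ fun h6 => ?_
          have h7 := ((padicValInt_dvd_iff _ _).1 h6).resolve_left
            (mul_ne_zero (by norm_num) (mul_ne_zero hm hc0))
          have h8 := tsb_four hl (mul_ne_zero hm hc0)
          rw [padicValInt.mul hm hc0, padicValInt.eq_zero_of_not_dvd hc] at h8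
          omega
        · rw [tqd_congr (A' := fun X => (l : ℤ) ^ (2 * i) ∣ 2 * d.a * X + d.b * Y)
            fun X => by rw [if_neg ha, and_iff_right hE, x₁, add_comm]]
          exact (cnt_lin_le hl _ ha _).trans (by omega)
      have h6 : ((cnt (l ^ (2 * i)) fun X => (l : ℤ) ^ (2 * i) ∣ d.E ∧
          if (l : ℤ) ∣ d.a then (l : ℤ) ^ (2 * i) ∣ d.Δ₂ X
          else (l : ℤ) ^ (2 * i) ∣ d.x₁ X Y : ℕ) : ℝ) ≤ 4 * (L : ℝ) ^ (v + 1) := by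
        exact_mod_cast h5.trans (Nat.mul_le_mul_left 4 (Nat.pow_le_pow_left hL _))
      have h7 : (l : ℝ) ^ i / (l : ℝ) ^ (2 * i) ≤ 1 / 2 ^ i := by
        rw [div_le_div_iff₀ (by positivity) (by positivity)]
        have h8 : (2 : ℝ) ^ i ≤ (l : ℝ) ^ i := pow_le_pow_left₀ (by norm_num) hl2 i
        calc (l : ℝ) ^ i * 2 ^ i ≤ (l : ℝ) ^ i * (l : ℝ) ^ i := by gcongr
          _ = _ := by ring
      calc _ ≤ 4 * (L : ℝ) ^ (v + 1) *
            (16 * (l : ℝ) ^ i * (6 * i + (v + 9)) / (l : ℝ) ^ (2 * i)) := by gcongr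
        _ = 64 * (L : ℝ) ^ (v + 1) * (6 * i + (v + 9)) * ((l : ℝ) ^ i / (l : ℝ) ^ (2 * i)) := by
            ring
        _ ≤ 64 * (L : ℝ) ^ (v + 1) * (6 * i + (v + 9)) * (1 / 2 ^ i) := by gcongr
        _ = _ := by ring
    · rw [← mul_sum]
      refine (mul_le_mul_of_nonneg_left (tsb_geo_le (by norm_num) (by positivity) _)
        (by positivity)).trans (by linarith)
  · obtain ⟨a1, a2, a3, -⟩ := ie_spec h hl X Y
    refine ⟨a3, ?_⟩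
    unfold xe at a1
    unfold Δe at a2
    split_ifs at a1 a2 ⊢
    · exact a2
    · exact a1

open Classical in
theorem ls_std (n : ℤ) (p κ : ℕ) : ∃ K : ℝ, 1 ≤ K ∧ ∀ d : Dt, d.Good κ → d.n = n → d.p = p →
    ∀ l : ℕ, l.Prime → ∀ Y : ℤ,
    LS K l {X | d.B X Y ≠ 0} (fun X => d.B X Y) (fun X => d.Wt l X Y)
      (fun X => if d.Dom l then 0 else d.mu l X Y) (d.ms K l Y) (d.aa K l Y) := by
  obtain ⟨K₁, k1, h1⟩ := ls_bdd (2 * n * p).natAbs (2 * n.natAbs + κ + 2)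
  obtain ⟨K₂, k2, h2⟩ := ls_ram
  obtain ⟨K₃, k3, h3⟩ := ls_ram'
  refine ⟨K₁ + K₂ + K₃ + 9, by linarith, fun d h hn hp l hl Y => ?_⟩
  subst hn hp
  have hK : (1 : ℝ) ≤ K₁ + K₂ + K₃ + 9 := by linarith
  by_cases hD : d.Dom l
  · refine ls_one hK (tsb_one_ms hK _ _) ?_ _ _ _ (fun X _ => ?_) _
    · unfold aa
      by_cases h4 : (l : ℤ) ∣ 2 * d.n * d.p
      · rw [if_pos h4]
        linarith
      have h5 : (l : ℤ) ∣ d.G := Int.natCast_dvd_natCast.2 (hD.2.elim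
        (fun h5 => dvd_of_one_le_padicValNat (by omega)) fun h5 => h5.2)
      have h6 : (l : ℤ) ∣ d.m * d.a := (h5.mul_left d.n).mul_right d.a
      rw [if_neg h4, if_pos h6,
        tsb_jac hl ((h5.trans (dvd_pow_self _ two_ne_zero)).mul_right _)]
      split_ifs
      · push_cast
        linarith
      · simp
    · unfold Wt
      rw [if_pos hD]
  simp only [if_neg hD]
  by_cases h4 : (l : ℤ) ∣ 2 * d.n * d.p
  · have h5 : 2 * d.n * d.p ≠ 0 := mul_ne_zero (mul_ne_zero two_ne_zero h.n_ne)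
      (Int.natCast_ne_zero.2 h.prime.ne_zero)
    refine (h1 d κ h l hl (Nat.le_of_dvd (Int.natAbs_pos.2 h5) (Int.natCast_dvd.1 h4))
      (val_m h hl hD).1 Y).mono hK subset_rfl (fun X _ => ?_) (fun X _ => Nat.le_add_right _ _)
      ?_ ?_
    · unfold Wt
      rw [if_neg hD, if_pos h4]
    · unfold ms
      rw [if_pos h4]
      linarith
    · unfold aa
      rw [if_pos h4]
      linarith
  by_cases hE : (l : ℤ) ∣ d.E
  swap
  · exact (ls_unr h hl hD h4 hE Y).mono (by linarith) subset_rfl (fun _ _ => le_rfl)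
      (fun _ _ => Nat.zero_le _) (tsb_one_ms hK _ _) (tsb_aa (by linarith) _ _)
  by_cases ha : (l : ℤ) ∣ d.a
  · exact (h3 d κ h l hl hD h4 hE ha Y).mono (by linarith) subset_rfl (fun _ _ => le_rfl)
      (fun _ _ => le_rfl) (tsb_ms (by linarith) _ _) (tsb_aa (by linarith) _ _)
  · exact (h2 d κ h l hl hD h4 hE ha Y).mono (by linarith) subset_rfl (fun _ _ => le_rfl)
      (fun _ _ => le_rfl) (tsb_ms (by linarith) _ _) (tsb_aa (by linarith) _ _)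

end Dt

end Pool.Agent.EQ
end
end

-- part Pool.Agent.P.MP_ad7a55_nt.UCp
section

/-! Close pairs of points with the same leafwise data. -/

set_option autoImplicit false

noncomputable section

open MeasureTheory Topology Filter UpperHalfPlane
open scoped MatrixGroups ENNReal BoundedContinuousFunction

namespace Pool.Agent.EQ

theorem ucp_nhds {H : Type} [Group H] [TopologicalSpace H] [IsTopologicalGroup H] (Γ : Subgroup H)
    (x : H ⧸ Γ) {O : Set H} (hO : O ∈ 𝓝 (1 : H)) : (fun g : H => g • x) '' O ∈ 𝓝 x := by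
  induction x using QuotientGroup.induction_on with
  | H g₀ =>
    have h1 : IsOpenMap fun g : H => ((g * g₀ : H) : H ⧸ Γ) :=
      (QuotientGroup.isOpenMap_coe (N := Γ)).comp (isOpenMap_mul_right g₀)
    have h2 := h1.image_mem_nhds hO
    rw [one_mul] at h2
    exact h2

variable {p q : ℕ} [Fact p.Prime] [Fact q.Prime] {κ : Type} [Fintype κ]

theorem ucp_class (n : ℕ) {x : ℚ_[p]} (hx : ‖x‖ ≤ 1) :
    ∃ s : Fin (p ^ n), ‖x - ((s : ℕ) : ℚ_[p])‖ ≤ (p : ℝ) ^ (-(n : ℤ)) := by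
  let z : ℤ_[p] := ⟨x, hx⟩
  refine ⟨⟨z.appr n, z.appr_lt n⟩, ?_⟩
  have h := (PadicInt.norm_le_pow_iff_mem_span_pow _ n).2 (z.appr_spec n)
  have e : ((z - (z.appr n : ℤ_[p]) : ℤ_[p]) : ℚ_[p]) = x - ((z.appr n : ℕ) : ℚ_[p]) := by
    push_cast; rfl
  rw [PadicInt.norm_def, e] at h
  exact h

theorem ucp_entry {a b : SL(2, ℚ_[p])} (ha : ‖a 1 1‖ = 1) (hb : ‖b 1 1‖ = 1) {s : ℚ_[p]} {R : ℝ}
    (h1 : ‖a 1 0 / a 1 1 - s‖ ≤ R) (h2 : ‖b 1 0 / b 1 1 - s‖ ≤ R) : ‖(a * b⁻¹) 1 0‖ ≤ R := by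
  have ha0 : a 1 1 ≠ 0 := by
    intro h; rw [h, norm_zero] at ha; exact zero_ne_one ha
  have hb0 : b 1 1 ≠ 0 := by
    intro h; rw [h, norm_zero] at hb; exact zero_ne_one hb
  have e : (a * b⁻¹) 1 0 = a 1 1 * b 1 1 * ((a 1 0 / a 1 1 - s) + -(b 1 0 / b 1 1 - s)) := by
    have i0 : b⁻¹ 0 0 = b 1 1 := by rw [Matrix.SpecialLinearGroup.SL2_inv_expl]; rfl
    have i1 : b⁻¹ 1 0 = -b 1 0 := by rw [Matrix.SpecialLinearGroup.SL2_inv_expl]; rfl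
    have i2 : (a * b⁻¹) 1 0 = a 1 0 * b⁻¹ 0 0 + a 1 1 * b⁻¹ 1 0 := by
      simp only [Matrix.SpecialLinearGroup.coe_mul, Matrix.mul_apply, Fin.sum_univ_two]
    rw [i2, i0, i1]
    field_simp
    ring
  rw [e, norm_mul, norm_mul, ha, hb, one_mul, one_mul]
  refine (Padic.nonarchimedean _ _).trans (max_le h1 ?_)
  rw [norm_neg]; exact h2

theorem ucp_box {𝒩 : Set (κ → G3 p q)} (h𝒩 : 𝒩 ∈ 𝓝 (1 : κ → G3 p q)) :
    ∃ O : Set (G3 p q), IsCompact O ∧ O ∈ 𝓝 (1 : G3 p q) ∧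
      (∀ g ∈ O, g.1.2 ∈ Kp p ∧ ‖g.1.2 1 1‖ = 1) ∧
      ∀ g g' : κ → G3 p q, (∀ k, g k ∈ O) → (∀ k, g' k ∈ O) → g * g'⁻¹ ∈ 𝒩 := by
  rw [nhds_pi, Filter.mem_pi] at h𝒩
  obtain ⟨I, -, t, ht, hsub⟩ := h𝒩
  have h0 : (⋂ k, t k) ∈ 𝓝 (1 : G3 p q) := iInter_mem.2 ht
  obtain ⟨V, hV, hVV⟩ := exists_nhds_split_inv h0
  have c1 : Continuous fun g : G3 p q => g.1.2 := continuous_snd.comp continuous_fst
  have hK : {g : G3 p q | g.1.2 ∈ Kp p} ∈ 𝓝 (1 : G3 p q) :=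
    ((Kp_open p).preimage c1).mem_nhds (Kp p).one_mem
  have c2 : Continuous fun g : G3 p q => g.1.2 1 1 :=
    (continuous_subtype_val.matrix_elem 1 1).comp c1
  have hU : {g : G3 p q | g.1.2 1 1 ∈ Metric.ball (1 : ℚ_[p]) 1} ∈ 𝓝 (1 : G3 p q) := by
    refine (Metric.isOpen_ball.preimage c2).mem_nhds ?_
    simp
  obtain ⟨O, hO, hOs, hOc⟩ := local_compact_nhds (inter_mem hV (inter_mem hK hU))
  refine ⟨O, hOc, hO, fun g hg => ⟨(hOs hg).2.1, ?_⟩, fun g g' hg hg' => hsub fun k _ => ?_⟩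
  · have h : ‖g.1.2 1 1 - 1‖ < 1 := mem_ball_iff_norm.1 (hOs hg).2.2
    have e : g.1.2 1 1 = 1 + (g.1.2 1 1 - 1) := by ring
    rw [e, Padic.add_eq_max_of_ne (by rw [norm_one]; exact h.ne'), norm_one]
    exact max_eq_left h.le
  · have := hVV (g k) (hOs (hg k)).1 (g' k) (hOs (hg' k)).1
    rw [div_eq_mul_inv] at this
    exact Set.mem_iInter.1 this k

theorem ucp_tight : ∃ K : Set (κ → X3 p q), IsCompact K ∧
    ∀ ρ : Measure (κ → X3 p q), (∀ k, ρ.map (fun w => w k) = m3 p q) → ρ Kᶜ ≤ 1 / 4 := by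
  have hε : (0 : ℝ≥0∞) < 1 / 4 / (Fintype.card κ : ℝ≥0∞) :=
    ENNReal.div_pos (by simp) (ENNReal.natCast_ne_top _)
  obtain ⟨Ω, hΩ, -, hm, -⟩ := lusin (m3 p q) (f := fun _ => (0 : ℝ)) measurable_const
    (A := Set.univ) (Eventually.of_forall fun _ => trivial) hε
  refine ⟨Set.pi Set.univ fun _ => Ω, isCompact_univ_pi fun _ => hΩ, fun ρ hρ => ?_⟩
  have hs : (Set.pi Set.univ fun _ : κ => Ω)ᶜ ⊆ ⋃ k, (fun w : κ → X3 p q => w k) ⁻¹' Ωᶜ := by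
    intro w hw
    by_contra h
    refine hw fun k _ => ?_
    by_contra h'
    exact h (Set.mem_iUnion.2 ⟨k, h'⟩)
  refine (measure_mono hs).trans ((measure_iUnion_fintype_le _ _).trans ?_)
  have hk : ∀ k, ρ ((fun w : κ → X3 p q => w k) ⁻¹' Ωᶜ) ≤ 1 / 4 / (Fintype.card κ : ℝ≥0∞) := by
    intro k
    refine (Measure.le_map_apply (measurable_pi_apply k).aemeasurable _).trans ?_
    rw [hρ k]; exact hm
  refine (Finset.sum_le_card_nsmul _ _ _ fun k _ => hk k).trans ?_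
  rw [Finset.card_univ, nsmul_eq_mul]
  exact ENNReal.mul_div_le

theorem ucp_small (A : ℝ) (c : ℕ) : ∀ᶠ n : ℕ in atTop,
    A * ((p : ℝ) ^ n) ^ c * (p : ℝ) ^ (-(((c + 1) * n : ℕ) : ℤ)) < 1 / 4 := by
  have hp : (1 : ℝ) < p := by exact_mod_cast (Fact.out : p.Prime).one_lt
  have h0 : (p : ℝ) ≠ 0 := by positivity
  have h1 : Tendsto (fun n : ℕ => A * ((p : ℝ)⁻¹) ^ n) atTop (𝓝 (A * 0)) :=
    (tendsto_pow_atTop_nhds_zero_of_lt_one (by positivity) (inv_lt_one_of_one_lt₀ hp)).const_mul A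
  rw [mul_zero] at h1
  filter_upwards [h1.eventually (gt_mem_nhds (by norm_num : (0 : ℝ) < 1 / 4))] with n hn
  have e : A * ((p : ℝ) ^ n) ^ c * (p : ℝ) ^ (-(((c + 1) * n : ℕ) : ℤ)) = A * ((p : ℝ)⁻¹) ^ n := by
    rw [zpow_neg, zpow_natCast, inv_pow, add_mul, one_mul, pow_add, mul_comm c n, pow_mul]
    field_simp
  rw [e]; exact hn

theorem close_pairs (hpq : p ≠ q) (k₀ : κ) {𝒩 : Set (κ → G3 p q)} (h𝒩 : 𝒩 ∈ 𝓝 (1 : κ → G3 p q)) :
    ∀ᶠ n : ℕ in atTop, ∀ ρ : Measure (κ → X3 p q), IsProbabilityMeasure ρ →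
      (∀ k, ρ.map (fun w => w k) = m3 p q) → ∀ G : Set (κ → X3 p q), 1 / 2 ≤ ρ G →
      ∃ y ∈ G, ∃ g ∈ 𝒩, g • y ∈ G ∧ (∀ k, ‖(g k).1.2 1 0‖ ≤ (p : ℝ) ^ (-(n : ℤ))) ∧
        (p : ℝ) ^ (-((Fintype.card κ + 1) * n : ℤ)) ≤ ‖(g k₀).1.2 1 0‖ := by
  classical
  obtain ⟨O, hOc, hO, hOK, hON⟩ := ucp_box h𝒩
  obtain ⟨K, hK, hKρ⟩ := ucp_tight (p := p) (q := q) (κ := κ)
  obtain ⟨T, -, hT⟩ := hK.elim_nhds_subcover
    (fun x => Set.pi Set.univ fun k => (fun g : G3 p q => g • x k) '' O)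
    (fun x _ => set_pi_mem_nhds Set.finite_univ fun k _ => ucp_nhds _ _ hO)
  have hc2 : IsCompact ((fun z : G3 p q × G3 p q => z.1 * z.2⁻¹) '' O ×ˢ O) :=
    (hOc.prod hOc).image (continuous_fst.mul continuous_snd.inv)
  obtain ⟨C, hC⟩ := m3_low hpq hc2 (by
    rintro _ ⟨⟨a, b⟩, ⟨ha, hb⟩, rfl⟩
    exact (Kp p).mul_mem (hOK a ha).1 ((Kp p).inv_mem (hOK b hb).1))
  filter_upwards [ucp_small (p := p) (T.card * C) (Fintype.card κ)] with n hn ρ hρ hm G hG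
  by_contra hne
  set m : ℕ := (Fintype.card κ + 1) * n with hmdef
  let E : (κ → X3 p q) → (κ → Fin (p ^ n)) → Set (κ → X3 p q) := fun x s =>
    {w | ∀ k, ∃ g ∈ O, ‖g.1.2 1 0 / g.1.2 1 1 - ((s k : ℕ) : ℚ_[p])‖ ≤ (p : ℝ) ^ (-(n : ℤ)) ∧
      g • x k = w k}
  have hE : ∀ x s, ρ (G ∩ E x s) ≤ ENNReal.ofReal (C * (p : ℝ) ^ (-(m : ℤ))) := by
    intro x s
    rcases (G ∩ E x s).eq_empty_or_nonempty with h0 | ⟨y, hyG, hyE⟩
    · rw [h0, measure_empty]; exact zero_le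
    choose g hgO hgs hgy using hyE
    refine le_trans ?_ (hC m (y k₀))
    rw [← hm k₀]
    refine le_trans (measure_mono ?_) (Measure.le_map_apply (measurable_pi_apply k₀).aemeasurable _)
    rintro y' ⟨hy'G, hy'E⟩
    choose g' hg'O hg's hg'y using hy'E
    have e : ∀ k, (g' k * (g k)⁻¹) • y k = y' k := by
      intro k
      rw [← hgy k, ← hg'y k, mul_smul, inv_smul_smul]
    have e' : (g' * g⁻¹) • y = y' := funext e
    refine ⟨g' k₀ * (g k₀)⁻¹, ⟨(g' k₀, g k₀), ⟨hg'O k₀, hgO k₀⟩, rfl⟩, ?_, (e k₀).symm⟩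
    by_contra hlt
    refine hne ⟨y, hyG, g' * g⁻¹, hON g' g hg'O hgO, by rw [e']; exact hy'G, fun k => ?_, ?_⟩
    · exact ucp_entry (hOK _ (hg'O k)).2 (hOK _ (hgO k)).2 (hg's k) (hgs k)
    · have e2 : ((Fintype.card κ + 1) * n : ℤ) = (m : ℤ) := by rw [hmdef]; push_cast; rfl
      rw [e2]
      exact (not_le.1 hlt).le
  have hsub : G ∩ K ⊆ ⋃ x ∈ T, ⋃ s, G ∩ E x s := by
    rintro w ⟨hwG, hwK⟩
    obtain ⟨x, hxT, hx⟩ := Set.mem_iUnion₂.1 (hT hwK)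
    choose g hgO hgw using fun k => hx k trivial
    have hcl : ∀ k, ∃ s : Fin (p ^ n),
        ‖(g k).1.2 1 0 / (g k).1.2 1 1 - ((s : ℕ) : ℚ_[p])‖ ≤ (p : ℝ) ^ (-(n : ℤ)) := by
      intro k
      refine ucp_class n ?_
      rw [norm_div, (hOK _ (hgO k)).2, div_one]
      exact (hOK _ (hgO k)).1 1 0
    choose s hs using hcl
    exact Set.mem_iUnion₂.2 ⟨x, hxT, Set.mem_iUnion.2 ⟨s, hwG, fun k => ⟨g k, hgO k, hs k, hgw k⟩⟩⟩
  have h1 : ρ (G ∩ K) ≤ ENNReal.ofReal (T.card * C * ((p : ℝ) ^ n) ^ Fintype.card κ *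
      (p : ℝ) ^ (-(m : ℤ))) := by
    refine (measure_mono hsub).trans ((measure_biUnion_finset_le _ _).trans ?_)
    have h2 : ∀ x ∈ T, ρ (⋃ s, G ∩ E x s) ≤ ENNReal.ofReal (((p : ℝ) ^ n) ^ Fintype.card κ *
        (C * (p : ℝ) ^ (-(m : ℤ)))) := by
      intro x _
      refine (measure_iUnion_fintype_le _ _).trans
        ((Finset.sum_le_card_nsmul _ _ _ fun s _ => hE x s).trans ?_)
      rw [Finset.card_univ, Fintype.card_fun, Fintype.card_fin, nsmul_eq_mul,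
        ENNReal.ofReal_mul (p := ((p : ℝ) ^ n) ^ Fintype.card κ) (by positivity),
        ← ENNReal.ofReal_natCast]
      push_cast
      exact le_rfl
    refine (Finset.sum_le_card_nsmul _ _ _ h2).trans ?_
    rw [nsmul_eq_mul, ← ENNReal.ofReal_natCast, ← ENNReal.ofReal_mul (by positivity)]
    exact le_of_eq (by congr 1; ring)
  have h3 : ρ (G ∩ K) < 1 / 4 := by
    refine h1.trans_lt ?_
    have : (1 / 4 : ℝ≥0∞) = ENNReal.ofReal (1 / 4) := by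
      rw [ENNReal.ofReal_div_of_pos (by norm_num)]; simp
    rw [this]
    exact (ENNReal.ofReal_lt_ofReal_iff (by norm_num)).2 hn
  have h4 : ρ G ≤ ρ (G ∩ K) + ρ Kᶜ := by
    refine le_trans (measure_mono ?_) (measure_union_le _ _)
    intro w hw
    by_cases h : w ∈ K
    · exact Or.inl ⟨hw, h⟩
    · exact Or.inr h
  have h5 : ρ (G ∩ K) + ρ Kᶜ < 1 / 4 + 1 / 4 :=
    ENNReal.add_lt_add_of_lt_of_le (measure_ne_top _ _) h3 (hKρ ρ hm)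
  have h6 : (1 / 4 + 1 / 4 : ℝ≥0∞) = 1 / 2 := by
    rw [ENNReal.div_add_div_same, ENNReal.div_eq_div_iff] <;> norm_num
  rw [h6] at h5
  exact absurd (hG.trans h4) (not_le.2 h5)

theorem Jn.pairs {M : ℕ} {h : κ → SL(2, ℚ_[q])} {ν : Measure (κ → X3 p q)} (H : Jn p q M h ν)
    (k₀ : κ) {𝒩 : Set (κ → G3 p q)} (h𝒩 : 𝒩 ∈ 𝓝 (1 : κ → G3 p q)) {G : Set (κ → X3 p q)}
    (hG : ν Gᶜ ≤ 1 / 4) : ∀ᶠ n : ℕ in atTop, ∃ y ∈ G, ∃ g ∈ 𝒩, g • y ∈ G ∧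
      (∀ t : ℕ, dat (fl3 p q κ) ν (al p q κ (M * t) • g • y) =
        dat (fl3 p q κ) ν (al p q κ (M * t) • y)) ∧
      (∀ k, ‖(g k).1.2 1 0‖ ≤ (p : ℝ) ^ (-(n : ℤ))) ∧
        (p : ℝ) ^ (-((Fintype.card κ + 1) * n : ℤ)) ≤ ‖(g k₀).1.2 1 0‖ := by
  have := H.prob
  let f : (κ → X3 p q) → ℕ → ℤ × ℤ × (κ → ℚ) → ℝ≥0∞ := fun w t =>
    dq (fl3 p q κ) ν (al p q κ (M * t) • w)
  have hf : Measurable f := measurable_pi_lambda _ fun t =>
    (measurable_dq (fl3 p q κ) ν).comp (measurable_const_smul (al p q κ (M * t)))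
  obtain ⟨ρ, hρ, hb, hfib, -, hinv⟩ := disint ν hf
  have hfb : ∀ᵐ w ∂ν, f (be p q h M • w) = f w := by
    filter_upwards [H.ae_al H.dat_b] with w hw
    funext t u
    have e : al p q κ (M * t) • be p q h M • w = be p q h M • al p q κ (M * t) • w := by
      rw [← mul_smul, al_be, mul_smul]
    change dat (fl3 p q κ) ν (al p q κ (M * t) • be p q h M • w) u.1 u.2.1 _ =
      dat (fl3 p q κ) ν (al p q κ (M * t) • w) u.1 u.2.1 _
    rw [e, hw t]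
  have hst : ∀ᵐ w ∂ν, be p q h M ∈ Stab (κ → G3 p q) (ρ w) :=
    hinv _ (measurable_const_smul (be p q h M)) H.b hfb
  have hall := hfib.and (H.marg_b ρ hb hst)
  have hA : ∫⁻ w, ρ w (toMeasurable ν Gᶜ) ∂ν = ν Gᶜ := by
    rw [← Measure.bind_apply (measurableSet_toMeasurable ν Gᶜ) ρ.aemeasurable, hb,
      measure_toMeasurable]
  obtain ⟨w, hw, hle⟩ := exists_notMem_null_le_lintegral
    (f := fun w => ρ w (toMeasurable ν Gᶜ)) 
    (ρ.measurable_coe (measurableSet_toMeasurable ν Gᶜ)).aemeasurable (ae_iff.1 hall)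
  have hw' := not_not.1 hw
  rw [hA] at hle
  have hhalf : 1 / 2 ≤ ρ w (G ∩ {w' | f w' = f w}) := by
    by_contra hlt
    have h1 : ρ w Set.univ ≤ ρ w (G ∩ {w' | f w' = f w}) +
        (ρ w (toMeasurable ν Gᶜ) + ρ w {w' | ¬ f w' = f w}) := by
      refine le_trans (measure_mono ?_)
        ((measure_union_le _ _).trans (add_le_add le_rfl (measure_union_le _ _)))
      intro x _
      by_cases h1 : x ∈ G
      · by_cases h2 : f x = f w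
        · exact Or.inl ⟨h1, h2⟩
        · exact Or.inr (Or.inr h2)
      · exact Or.inr (Or.inl (subset_toMeasurable ν Gᶜ h1))
    rw [measure_univ, ae_iff.1 hw'.1, add_zero] at h1
    have h2 : (1 / 4 : ℝ≥0∞) ≤ 1 / 2 := ENNReal.div_le_div_left (by norm_num) _
    have h3 := ENNReal.add_lt_add_of_lt_of_le (measure_ne_top (ρ w) (toMeasurable ν Gᶜ))
      (not_le.1 hlt) ((hle.trans hG).trans h2)
    rw [ENNReal.add_halves] at h3
    exact absurd h1 (not_le.2 h3)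
  filter_upwards [close_pairs H.ne k₀ h𝒩] with n hn
  obtain ⟨y, hy, g, hg, hgy, h1, h2⟩ := hn (ρ w) inferInstance hw'.2 _ hhalf
  refine ⟨y, hy.1, g, hg, hgy.1, fun t => dat_eq_of_dq _ _ ?_, h1, h2⟩
  have e : f (g • y) = f y := hgy.2.trans hy.2.symm
  exact congrFun e t

end Pool.Agent.EQ
end
end

-- part Pool.Agent.P.MP_ad7a55_nt.UCv
section

/-! Positive entropy: a set of full measure meets some leaf twice. -/

set_option autoImplicit false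

noncomputable section

open MeasureTheory Topology Filter UpperHalfPlane
open scoped MatrixGroups ENNReal BoundedContinuousFunction

namespace Pool.Agent.EQ

variable {p q : ℕ} [Fact p.Prime] [Fact q.Prime] {κ : Type} [Fintype κ]

theorem ucv_appr {x : ℚ_[p]} (hx : ‖x‖ ≤ 1) (n : ℕ) :
    ∃ m : Fin (p ^ n), ‖x - ((m : ℕ) : ℚ_[p])‖ ≤ (p : ℝ) ^ (-(n : ℤ)) := by
  let z : ℤ_[p] := ⟨x, hx⟩
  refine ⟨⟨z.appr n, z.appr_lt n⟩, ?_⟩
  have h := ((z - z.appr n).norm_le_pow_iff_mem_span_pow n).mpr (z.appr_spec n)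
  rw [PadicInt.norm_def, PadicInt.coe_sub, PadicInt.coe_natCast] at h
  exact h

theorem ucv_p_pos : (0 : ℝ) < p := by exact_mod_cast (Fact.out : p.Prime).pos

theorem ucv_sub {k : ℤ} {a b c : κ → ℚ_[p]} (h : ‖a - c‖ ≤ (p : ℝ) ^ k)
    (h' : ‖b - c‖ ≤ (p : ℝ) ^ k) : ‖a - b‖ ≤ (p : ℝ) ^ k := by
  have := norm_add_V h (show ‖c - b‖ ≤ (p : ℝ) ^ k by rwa [norm_sub_rev])
  simpa using this

theorem ucv_refine (e μ : ℕ) {d : κ → ℚ_[p]} (hd : ‖d‖ ≤ (p : ℝ) ^ (-(e : ℤ))) :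
    ∃ r : κ → Fin (p ^ μ), ‖d - fun k => (p : ℚ_[p]) ^ e * ((r k : ℕ) : ℚ_[p])‖ ≤
      (p : ℝ) ^ (-(e + μ : ℤ)) := by
  have hp := ucv_p_pos (p := p)
  have hp0 : (p : ℚ_[p]) ≠ 0 := Nat.cast_ne_zero.2 (Fact.out : p.Prime).ne_zero
  have hn : ‖(p : ℚ_[p]) ^ e‖ = (p : ℝ) ^ (-(e : ℤ)) := Padic.norm_p_pow e
  have h1 : ∀ k, ‖d k / (p : ℚ_[p]) ^ e‖ ≤ 1 := by
    intro k
    rw [norm_div, hn, div_le_one (by positivity)]
    exact (norm_le_pi_norm d k).trans hd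
  choose r hr using fun k => ucv_appr (h1 k) μ
  refine ⟨r, (pi_norm_le_iff_of_nonneg (by positivity)).2 fun k => ?_⟩
  have : (d - fun k => (p : ℚ_[p]) ^ e * ((r k : ℕ) : ℚ_[p])) k =
      (p : ℚ_[p]) ^ e * (d k / (p : ℚ_[p]) ^ e - ((r k : ℕ) : ℚ_[p])) := by
    simp only [Pi.sub_apply]
    field_simp
  rw [this, norm_mul, hn, neg_add, zpow_add₀ hp.ne']
  exact mul_le_mul_of_nonneg_left (hr k) (by positivity)

open Classical in
theorem ball_cover (μ t : ℕ) (S : Set ℕ) {A : Set (κ → ℚ_[p])} (hA : ∀ b ∈ A, ‖b‖ ≤ 1)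
    (h : ∀ τ ∈ S, τ < t → ∀ b ∈ A, ∀ b' ∈ A, ‖b - b'‖ ≤ (p : ℝ) ^ (-(μ * τ : ℤ)) →
      ‖b - b'‖ ≤ (p : ℝ) ^ (-(μ * (τ + 1) : ℤ))) :
    ∃ T : Finset (κ → ℚ_[p]),
      T.card ≤ (p ^ (μ * Fintype.card κ)) ^ ((Finset.range t).filter fun τ => τ ∉ S).card ∧
      ∀ b ∈ A, ∃ c ∈ T, ‖b - c‖ ≤ (p : ℝ) ^ (-(μ * t : ℤ)) := by
  induction t with
  | zero => exact ⟨{0}, by simp, fun b hb => ⟨0, by simp, by simpa using hA b hb⟩⟩
  | succ t ih =>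
    obtain ⟨T, hT, hc⟩ := ih fun τ hτ hlt => h τ hτ (Nat.lt_succ_of_lt hlt)
    by_cases hS : t ∈ S
    · have hex : ∀ c : κ → ℚ_[p], ∃ b₀ : κ → ℚ_[p], ∀ b ∈ A,
          ‖b - c‖ ≤ (p : ℝ) ^ (-(μ * t : ℤ)) → ‖b - b₀‖ ≤ (p : ℝ) ^ (-(μ * (t + 1) : ℤ)) := by
        intro c
        by_cases hb : ∃ b₀ ∈ A, ‖b₀ - c‖ ≤ (p : ℝ) ^ (-(μ * t : ℤ))
        · obtain ⟨b₀, h0, h1⟩ := hb
          exact ⟨b₀, fun b hb h2 => h t hS (Nat.lt_succ_self t) b hb b₀ h0 (ucv_sub h2 h1)⟩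
        · exact ⟨0, fun b hb' h2 => absurd ⟨b, hb', h2⟩ hb⟩
      choose f hf using hex
      refine ⟨T.image f, Finset.card_image_le.trans ?_, fun b hb => ?_⟩
      · rwa [Finset.range_add_one, Finset.filter_insert, if_neg (not_not.2 hS)]
      · obtain ⟨c, hcT, h2⟩ := hc b hb
        exact ⟨f c, Finset.mem_image_of_mem f hcT, by exact_mod_cast hf c b hb h2⟩
    · refine ⟨(T ×ˢ (Finset.univ : Finset (κ → Fin (p ^ μ)))).image
        fun z => z.1 + fun k => (p : ℚ_[p]) ^ (μ * t) * ((z.2 k : ℕ) : ℚ_[p]),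
        Finset.card_image_le.trans ?_, fun b hb => ?_⟩
      · rw [Finset.range_add_one, Finset.filter_insert, if_pos hS,
          Finset.card_insert_of_notMem (by simp), pow_succ, Finset.card_product, Finset.card_univ,
          Fintype.card_fun, Fintype.card_fin, ← pow_mul]
        exact Nat.mul_le_mul_right _ hT
      · obtain ⟨c, hcT, h2⟩ := hc b hb
        obtain ⟨r, hr⟩ := ucv_refine (μ * t) μ (d := b - c) (by exact_mod_cast h2)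
        refine ⟨_, Finset.mem_image_of_mem _ (Finset.mk_mem_product hcT (Finset.mem_univ r)), ?_⟩
        rw [← sub_sub]
        have e : (-(μ * ((t + 1 : ℕ) : ℤ)) : ℤ) = -(((μ * t : ℕ) : ℤ) + μ) := by push_cast; ring
        rw [e]
        exact hr

theorem ucv_basis {N : Set (κ → SL(2, ℚ_[p]))} (hN : N ∈ 𝓝 1) : ∃ ε : ℝ, 0 < ε ∧
    ∀ m : κ → SL(2, ℚ_[p]),
      (∀ k i j, ‖m k i j - (1 : Matrix (Fin 2) (Fin 2) ℚ_[p]) i j‖ < ε) → m ∈ N := by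
  let e : (κ → SL(2, ℚ_[p])) → κ → Fin 2 → Fin 2 → ℚ_[p] := fun m k i j => m k i j
  have he : IsInducing e :=
    IsInducing.piMap fun _ => Matrix.SpecialLinearGroup.isClosedEmbedding_val.isInducing
  rw [he.nhds_eq_comap, mem_comap] at hN
  obtain ⟨B, hB, hBN⟩ := hN
  obtain ⟨ε, hε, hball⟩ := Metric.mem_nhds_iff.1 hB
  refine ⟨ε, hε, fun m hm => hBN (hball ?_)⟩
  rw [Metric.mem_ball, dist_pi_lt_iff hε]
  intro k
  rw [dist_pi_lt_iff hε]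
  intro i
  rw [dist_pi_lt_iff hε]
  intro j
  rw [dist_eq_norm]
  exact hm k i j

theorem ucv_unit {x : ℚ_[p]} (h : ‖x - 1‖ < 1) : ‖x‖ = 1 := by
  have := Padic.add_eq_max_of_ne (q := x - 1) (r := 1) (by rw [norm_one]; exact h.ne)
  rw [sub_add_cancel, norm_one, max_eq_right h.le] at this
  exact this

theorem ucv_mul (a b : SL(2, ℚ_[p])) (i j : Fin 2) :
    (a * b : SL(2, ℚ_[p])) i j = a i 0 * b 0 j + a i 1 * b 1 j := by
  simp only [Matrix.SpecialLinearGroup.coe_mul, Matrix.mul_apply, Fin.sum_univ_two]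

theorem ucv_inv (a : SL(2, ℚ_[p])) : (a⁻¹ : SL(2, ℚ_[p])) 0 0 = a 1 1 ∧
    (a⁻¹ : SL(2, ℚ_[p])) 0 1 = -a 0 1 ∧ (a⁻¹ : SL(2, ℚ_[p])) 1 0 = -a 1 0 ∧
    (a⁻¹ : SL(2, ℚ_[p])) 1 1 = a 0 0 := by
  rw [Matrix.SpecialLinearGroup.SL2_inv_expl]
  exact ⟨rfl, rfl, rfl, rfl⟩

theorem ucv_mat (t : ℕ) (h : SL(2, ℚ_[p])) {ε : ℝ} (hε : ε ≤ 1)
    (hh : ∀ i j, ‖h i j - (1 : Matrix (Fin 2) (Fin 2) ℚ_[p]) i j‖ < ε) (i j : Fin 2) :
    ‖((uu (((p : ℚ_[p]) ^ (2 * t))⁻¹ * (h 0 1 / h 1 1)))⁻¹ * (aP p t).2⁻¹ * h * (aP p t).2 :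
      SL(2, ℚ_[p])) i j - (1 : Matrix (Fin 2) (Fin 2) ℚ_[p]) i j‖ < ε := by
  have hp0 : (p : ℚ_[p]) ≠ 0 := Nat.cast_ne_zero.2 (Fact.out : p.Prime).ne_zero
  have h11 : ‖h 1 1 - 1‖ < ε := by simpa using hh 1 1
  have h10 : ‖h 1 0‖ < ε := by simpa using hh 1 0
  have hu : ‖h 1 1‖ = 1 := ucv_unit (h11.trans_le hε)
  have hne : h 1 1 ≠ 0 := by
    intro h0
    rw [h0, norm_zero] at hu
    exact zero_ne_one hu
  have hdet : h 0 0 * h 1 1 - h 0 1 * h 1 0 = 1 := by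
    have := h.det_coe
    rwa [Matrix.det_fin_two] at this
  have key : (((uu (((p : ℚ_[p]) ^ (2 * t))⁻¹ * (h 0 1 / h 1 1)))⁻¹ * (aP p t).2⁻¹ * h *
      (aP p t).2 : SL(2, ℚ_[p])) : Matrix (Fin 2) (Fin 2) ℚ_[p]) =
      !![(h 1 1)⁻¹, 0; (p : ℚ_[p]) ^ (2 * t) * h 1 0, h 1 1] := by
    have hP : (p : ℚ_[p]) ^ t ≠ 0 := pow_ne_zero _ hp0
    have a00 : (aP p t).2 0 0 = (p : ℚ_[p]) ^ t := rfl
    have a01 : (aP p t).2 0 1 = 0 := rfl
    have a10 : (aP p t).2 1 0 = 0 := rfl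
    have a11 : (aP p t).2 1 1 = ((p : ℚ_[p]) ^ t)⁻¹ := rfl
    obtain ⟨b00, b01, b10, b11⟩ := ucv_inv (aP p t).2
    rw [uu_inv, mul_comm 2 t, pow_mul]
    generalize hv : ((((p : ℚ_[p]) ^ t) ^ 2)⁻¹ * (h 0 1 / h 1 1)) = v
    have u00 : uu (-v) 0 0 = 1 := rfl
    have u01 : uu (-v) 0 1 = -v := rfl
    have u10 : uu (-v) 1 0 = 0 := rfl
    have u11 : uu (-v) 1 1 = 1 := rfl
    have E : ∀ a b, (uu (-v) * (aP p t).2⁻¹ * h * (aP p t).2 : SL(2, ℚ_[p])) a b =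
        !![(h 1 1)⁻¹, 0; ((p : ℚ_[p]) ^ t) ^ 2 * h 1 0, h 1 1] a b := by
      simp only [Fin.forall_fin_two, ucv_mul, u00, u01, u10, u11, b00, b01, b10, b11, a00, a01,
        a10, a11, Matrix.of_apply, Matrix.cons_val', Matrix.cons_val_zero,
        Matrix.cons_val_one, Matrix.cons_val_fin_one]
      subst hv
      generalize (p : ℚ_[p]) ^ t = P at hP ⊢
      refine ⟨⟨?_, ?_⟩, ?_, ?_⟩
      · field_simp
        linear_combination P ^ 2 * hdet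
      · field_simp
        ring
      · field_simp
        ring
      · field_simp
        ring
    exact Matrix.ext E
  have hε0 : 0 < ε := (norm_nonneg _).trans_lt h11
  show ‖(((uu (((p : ℚ_[p]) ^ (2 * t))⁻¹ * (h 0 1 / h 1 1)))⁻¹ * (aP p t).2⁻¹ * h *
      (aP p t).2 : SL(2, ℚ_[p])) : Matrix (Fin 2) (Fin 2) ℚ_[p]) i j - _‖ < ε
  rw [key]
  fin_cases i <;> fin_cases j
  · have : (h 1 1)⁻¹ - 1 = -(h 1 1 - 1) / h 1 1 := by field_simp; ring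
    simp only [Fin.zero_eta, Matrix.of_apply, Matrix.cons_val', Matrix.cons_val_zero,
      Matrix.cons_val_fin_one, Matrix.one_apply_eq]
    rw [this, norm_div, norm_neg, hu, div_one]
    exact h11
  · simpa using hε0
  · have h1 : ‖(p : ℚ_[p]) ^ (2 * t)‖ ≤ 1 := by
      rw [norm_pow]
      exact pow_le_one₀ (norm_nonneg _) Padic.norm_p_lt_one.le
    have : ‖(p : ℚ_[p]) ^ (2 * t) * h 1 0‖ < ε := by
      rw [norm_mul]
      exact (mul_le_of_le_one_left (norm_nonneg _) h1).trans_lt h10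
    simpa using this
  · simpa using h11

theorem ucv_01 (g g' : SL(2, ℚ_[p])) (h : ‖g 0 0‖ = 1) (h' : ‖g' 0 0‖ = 1) :
    ‖(g * g'⁻¹ : SL(2, ℚ_[p])) 0 1‖ = ‖g 0 1 / g 0 0 - g' 0 1 / g' 0 0‖ := by
  have hne : ∀ x : ℚ_[p], ‖x‖ = 1 → x ≠ 0 := fun x hx h0 => by
    rw [h0, norm_zero] at hx
    exact zero_ne_one hx
  have h0 := hne _ h
  have h0' := hne _ h'
  have : (g * g'⁻¹ : SL(2, ℚ_[p])) 0 1 = g 0 0 * g' 0 0 * (g 0 1 / g 0 0 - g' 0 1 / g' 0 0) := by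
    rw [ucv_mul, (ucv_inv g').2.1, (ucv_inv g').2.2.2]
    field_simp
    ring
  rw [this, norm_mul, norm_mul, h, h', one_mul, one_mul]

theorem ucv_tube {K : Set (κ → X3 p q)} (hK : IsCompact K)
    (h : ∀ w ∈ K, ∀ v, fl3 p q κ v w ∈ K → v = 0) (μ : ℕ) :
    ∀ᶠ g : κ → G3 p q in 𝓝 1, ∀ y ∈ K, ∀ v : κ → ℚ_[p], ‖v‖ ≤ 1 → fl3 p q κ v (g • y) ∈ K →
      ‖v‖ ≤ (p : ℝ) ^ (-(μ : ℤ)) := by
  have hp := ucv_p_pos (p := p)
  let V : Set (κ → ℚ_[p]) := Metric.closedBall 0 1 ∩ {v | (p : ℝ) ^ (-(μ : ℤ)) ≤ ‖v‖}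
  have hV : IsCompact V :=
    (isCompact_closedBall 0 1).inter_right (isClosed_le continuous_const continuous_norm)
  have h1 : ∀ᶠ g : κ → G3 p q in 𝓝 1, ∀ z ∈ V ×ˢ K, fl3 p q κ z.1 (g • z.2) ∉ K := by
    refine (hV.prod hK).eventually_forall_of_forall_eventually fun z hz => ?_
    have hc : Continuous fun w : (κ → G3 p q) × (κ → ℚ_[p]) × (κ → X3 p q) =>
        fl3 p q κ w.2.1 (w.1 • w.2.2) :=
      (fl3 p q κ).continuous continuous_snd.fst (continuous_fst.smul continuous_snd.snd)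
    refine hc.continuousAt.eventually (hK.isClosed.isOpen_compl.mem_nhds ?_)
    intro hm
    simp only [one_smul] at hm
    have h0 := h z.2 hz.2 z.1 hm
    have h2 : (p : ℝ) ^ (-(μ : ℤ)) ≤ ‖z.1‖ := hz.1.2
    rw [h0, norm_zero] at h2
    exact absurd h2 (not_le.2 (by positivity))
  filter_upwards [h1] with g hg y hy v hv hm
  by_contra hlt
  exact hg (v, y) ⟨⟨by simpa using hv, (not_le.1 hlt).le⟩, hy⟩ hm

/-- A neighbourhood adapted to a compact set that meets every leaf at most once. -/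
theorem cover_nhds {K : Set (κ → X3 p q)} (hK : IsCompact K)
    (h : ∀ w ∈ K, ∀ v, fl3 p q κ v w ∈ K → v = 0) (μ : ℕ) :
    ∃ 𝒪 ∈ 𝓝 (1 : κ → G3 p q), IsCompact 𝒪 ∧ (∀ g ∈ 𝒪, ∀ k, (g k).1.2 ∈ Kp p ∧
      ‖(g k).1.2 0 0‖ = 1) ∧ ∀ g ∈ 𝒪, ∀ g' ∈ 𝒪, ∀ (x : κ → X3 p q) (t : ℕ),
      (al p q κ t)⁻¹ • g • x ∈ K → (al p q κ t)⁻¹ • g' • x ∈ K →
      ‖(fun k => (g k).1.2 0 1 / (g k).1.2 0 0) - fun k => (g' k).1.2 0 1 / (g' k).1.2 0 0‖ ≤
        (p : ℝ) ^ (-(2 * t : ℤ)) →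
      ‖(fun k => (g k).1.2 0 1 / (g k).1.2 0 0) - fun k => (g' k).1.2 0 1 / (g' k).1.2 0 0‖ ≤
        (p : ℝ) ^ (-(2 * t + μ : ℤ)) := by
  have hp := ucv_p_pos (p := p)
  have hp0 : (p : ℚ_[p]) ≠ 0 := Nat.cast_ne_zero.2 (Fact.out : p.Prime).ne_zero
  let Θ : (κ → G3 p q) × (κ → SL(2, ℚ_[p])) → κ → G3 p q :=
    fun z k => (((z.1 k).1.1, z.2 k), (z.1 k).2)
  have hΘ : Continuous Θ := continuous_pi fun k =>
    (((continuous_apply k).comp continuous_fst).fst.fst.prodMk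
      ((continuous_apply k).comp continuous_snd)).prodMk
      ((continuous_apply k).comp continuous_fst).snd
  have hN := (hΘ.tendsto' (1, 1) 1 rfl).eventually (ucv_tube hK h μ)
  rw [nhds_prod_eq, eventually_prod_iff] at hN
  obtain ⟨N₁, hN₁, N₂, hN₂, hN⟩ := hN
  obtain ⟨ε, hε, hεN⟩ := ucv_basis hN₂
  let W : Set (κ → G3 p q) :=
    {g | ∀ k i j, ‖(g k).1.2 i j - (1 : Matrix (Fin 2) (Fin 2) ℚ_[p]) i j‖ < min ε 1}
  have hW : W ∈ 𝓝 (1 : κ → G3 p q) := by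
    refine eventually_all.2 fun k => eventually_all.2 fun i => eventually_all.2 fun j => ?_
    have hc : Continuous fun g : κ → G3 p q =>
        ‖(g k).1.2 i j - (1 : Matrix (Fin 2) (Fin 2) ℚ_[p]) i j‖ :=
      (((continuous_subtype_val.comp (continuous_apply k).fst.snd).matrix_elem i j).sub
        continuous_const).norm
    refine hc.continuousAt.eventually (Iio_mem_nhds ?_)
    show ‖(1 : Matrix (Fin 2) (Fin 2) ℚ_[p]) i j - (1 : Matrix (Fin 2) (Fin 2) ℚ_[p]) i j‖ < _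
    rw [sub_self, norm_zero]
    exact lt_min hε one_pos
  obtain ⟨V, hV, hVs⟩ := exists_nhds_split_inv (inter_mem hN₁ hW)
  obtain ⟨O, hO, hOs, hOc⟩ := local_compact_nhds (inter_mem hV hW)
  have hO1 : ∀ g ∈ O, ∀ k, (g k).1.2 ∈ Kp p ∧ ‖(g k).1.2 0 0‖ = 1 := by
    intro g hg k
    have hw : ∀ i j, ‖(g k).1.2 i j - (1 : Matrix (Fin 2) (Fin 2) ℚ_[p]) i j‖ < 1 := fun i j =>
      ((hOs hg).2 k i j).trans_le (min_le_right _ _)
    have h00 : ‖(g k).1.2 0 0‖ = 1 := ucv_unit (by simpa using hw 0 0)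
    have h11 : ‖(g k).1.2 1 1‖ = 1 := ucv_unit (by simpa using hw 1 1)
    refine ⟨fun i j => ?_, h00⟩
    fin_cases i <;> fin_cases j
    · exact h00.le
    · exact le_of_lt (by simpa using hw 0 1)
    · exact le_of_lt (by simpa using hw 1 0)
    · exact h11.le
  refine ⟨O, hO, hOc, hO1, fun g hg g' hg' x t h1 h2 hb => ?_⟩
  have hd := hVs g (hOs hg).1 g' (hOs hg').1
  rw [div_eq_mul_inv] at hd
  set d : κ → G3 p q := g * g'⁻¹ with hdd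
  let v : κ → ℚ_[p] := fun k => ((p : ℚ_[p]) ^ (2 * t))⁻¹ * ((d k).1.2 0 1 / (d k).1.2 1 1)
  let m : κ → SL(2, ℚ_[p]) := fun k => (uu (v k))⁻¹ * (aP p t).2⁻¹ * (d k).1.2 * (aP p t).2
  have hm : N₂ m := hεN m fun k i j =>
    (ucv_mat t (d k).1.2 (min_le_right ε 1) (hd.2 k) i j).trans_le (min_le_left _ _)
  have hfl : fl3 p q κ v (Θ (d, m) • (al p q κ t)⁻¹ • g' • x) = (al p q κ t)⁻¹ • g • x := by
    funext k
    show u3 p q (v k) • Θ (d, m) k • (a3 p q t)⁻¹ • g' k • x k = (a3 p q t)⁻¹ • g k • x k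
    simp only [← mul_smul]
    congr 1
    refine Prod.ext (Prod.ext ?_ ?_) ?_
    · simp [Θ, hdd, u3, uP, a3, aP]
    · simp [Θ, m, hdd, u3, uP, a3, mul_assoc]
    · simp [Θ, hdd, u3, a3]
  have hn : ‖(p : ℚ_[p]) ^ (2 * t)‖ = (p : ℝ) ^ (-(2 * t : ℤ)) := by
    rw [Padic.norm_p_pow]
    push_cast
    rfl
  have hv : ∀ k, ‖((fun k => (g k).1.2 0 1 / (g k).1.2 0 0) -
      fun k => (g' k).1.2 0 1 / (g' k).1.2 0 0) k‖ = (p : ℝ) ^ (-(2 * t : ℤ)) * ‖v k‖ := by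
    intro k
    have h11 : ‖(d k).1.2 1 1‖ = 1 :=
      ucv_unit (by simpa using (hd.2 k 1 1).trans_le (min_le_right _ _))
    have h01 : ‖(d k).1.2 0 1‖ = _ := ucv_01 (g k).1.2 (g' k).1.2 (hO1 g hg k).2 (hO1 g' hg' k).2
    simp only [v]
    rw [norm_mul, norm_inv, hn, norm_div, h11, div_one, h01, mul_inv_cancel_left₀ (by positivity)]
    rfl
  have hv1 : ‖v‖ ≤ 1 := (pi_norm_le_iff_of_nonneg zero_le_one).2 fun k => by
    have := (norm_le_pi_norm _ k).trans hb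
    rw [hv] at this
    exact (mul_le_iff_le_one_right (by positivity)).1 this
  have hv2 := hN hd.1 hm _ h2 v hv1 (by rw [hfl]; exact h1)
  refine (pi_norm_le_iff_of_nonneg (by positivity)).2 fun k => ?_
  rw [hv, neg_add, zpow_add₀ hp.ne']
  exact mul_le_mul_of_nonneg_left ((norm_le_pi_norm v k).trans hv2) (by positivity)

theorem ucv_open (x : κ → X3 p q) {V : Set (κ → G3 p q)} (hV : V ∈ 𝓝 (1 : κ → G3 p q)) :
    (fun g : κ → G3 p q => g • x) '' V ∈ 𝓝 x := by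
  have ho : IsOpenMap fun g : κ → G3 p q => g • x := by
    refine IsOpenMap.piMap (f := fun k (g : G3 p q) => g • x k) (fun k => ?_) (by simp)
    obtain ⟨h, hh⟩ := QuotientGroup.mk_surjective (x k)
    rw [← hh]
    exact QuotientGroup.isOpenMap_coe.comp (isOpenMap_mul_right h)
  simpa using ho.image_mem_nhds hV

theorem ucv_piece (hpq : p ≠ q) (ν : Measure (κ → X3 p q)) (k₀ : κ)
    (hm : ν.map (fun w => w k₀) = m3 p q) {O : Set (κ → G3 p q)} (hO : IsCompact O)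
    (hK : ∀ g ∈ O, ∀ k, (g k).1.2 ∈ Kp p ∧ ‖(g k).1.2 0 0‖ = 1) : ∃ C : ℝ,
    ∀ (x : κ → X3 p q) (n : ℕ) (c : κ → ℚ_[p]),
      ν {w | ∃ g ∈ O, ‖(fun k => (g k).1.2 0 1 / (g k).1.2 0 0) - c‖ ≤ (p : ℝ) ^ (-(n : ℤ)) ∧
        w = g • x} ≤ ENNReal.ofReal (C * (p : ℝ) ^ (-(n : ℤ))) := by
  have hc : Continuous fun z : (κ → G3 p q) × (κ → G3 p q) => z.1 k₀ * (z.2 k₀)⁻¹ :=
    ((continuous_apply k₀).comp continuous_fst).mul
      ((continuous_apply k₀).comp continuous_snd).inv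
  obtain ⟨C, hC⟩ := m3_up hpq ((hO.prod hO).image hc) (by
    rintro _ ⟨z, hz, rfl⟩
    exact (Kp p).mul_mem (hK _ hz.1 k₀).1 ((Kp p).inv_mem (hK _ hz.2 k₀).1))
  refine ⟨C, fun x n c => ?_⟩
  rcases Set.eq_empty_or_nonempty {w | ∃ g ∈ O,
    ‖(fun k => (g k).1.2 0 1 / (g k).1.2 0 0) - c‖ ≤ (p : ℝ) ^ (-(n : ℤ)) ∧ w = g • x} with h | h
  · rw [h, measure_empty]
    exact bot_le
  obtain ⟨_, g₀, hg₀, h0, rfl⟩ := h
  refine le_trans ?_ (hC n ((g₀ • x) k₀))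
  rw [← hm]
  refine le_trans (measure_mono ?_)
    (Measure.le_map_apply (measurable_pi_apply k₀).aemeasurable _)
  rintro _ ⟨g, hg, h1, rfl⟩
  refine ⟨g k₀ * (g₀ k₀)⁻¹, ⟨(g, g₀), ⟨hg, hg₀⟩, rfl⟩, ?_, ?_⟩
  · refine le_trans (le_of_eq ?_) ((norm_le_pi_norm _ k₀).trans (ucv_sub h1 h0))
    exact ucv_01 (g k₀).1.2 (g₀ k₀).1.2 (hK g hg k₀).2 (hK g₀ hg₀ k₀).2
  · show g k₀ • x k₀ = (g k₀ * (g₀ k₀)⁻¹) • g₀ k₀ • x k₀
    rw [← mul_smul, inv_mul_cancel_right]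

theorem ucv_small {a : ℝ≥0∞} {B : ℝ} (h : ∀ t : ℕ, a ≤ ENNReal.ofReal (B * (3 / 4) ^ t)) :
    a = 0 := by
  have h1 : Tendsto (fun t : ℕ => ENNReal.ofReal (B * (3 / 4) ^ t)) atTop
      (𝓝 (ENNReal.ofReal (B * 0))) :=
    ENNReal.tendsto_ofReal
      ((tendsto_pow_atTop_nhds_zero_of_lt_one (by norm_num) (by norm_num)).const_mul B)
  have := ge_of_tendsto' h1 h
  simpa using this

theorem cover (hpq : p ≠ q) {M : ℕ} (hM : 0 < M) (ν : Measure (κ → X3 p q))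
    [IsProbabilityMeasure ν] (ha : al p q κ M ∈ Stab (κ → G3 p q) ν) (k₀ : κ)
    (hm : ν.map (fun w => w k₀) = m3 p q) {D : Set (κ → X3 p q)}
    (hD : ∀ w ∈ D, ∀ v, fl3 p q κ v w ∈ D → v = 0) : ¬ ∀ᵐ w ∂ν, w ∈ D := by
  classical
  intro hae
  have hp := ucv_p_pos (p := p)
  have hp2 : (2 : ℝ) ≤ p := by exact_mod_cast (Fact.out : p.Prime).two_le
  set N : ℕ := p ^ (2 * M * Fintype.card κ) with hN
  obtain ⟨L₀, hL₀⟩ := pow_unbounded_of_one_lt (N : ℝ) (by norm_num : (1 : ℝ) < 3 / 2)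
  set L : ℕ := L₀ + 1 with hL
  have hLpos : (0 : ℝ) < L := by positivity
  have hNL : (N : ℝ) ≤ (3 / 2) ^ L :=
    hL₀.le.trans (pow_le_pow_right₀ (by norm_num) (Nat.le_succ _))
  obtain ⟨K, hKc, hKD, hKν, -⟩ := lusin ν (f := fun _ => (0 : ℝ)) measurable_const hae
    (ε := ENNReal.ofReal (1 / (4 * L))) (ENNReal.ofReal_pos.2 (by positivity))
  obtain ⟨O, hO, hOc, hO1, hO2⟩ := cover_nhds hKc (fun w hw v hv => hD w (hKD hw) v (hKD hv))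
    (2 * M)
  obtain ⟨C, hC⟩ := ucv_piece hpq ν k₀ hm hOc hO1
  obtain ⟨F, -, hF⟩ := hKc.elim_nhds_subcover (fun x => (fun g : κ → G3 p q => g • x) '' O)
    fun x _ => ucv_open x hO
  let T : (κ → X3 p q) → κ → X3 p q := fun w => (al p q κ M)⁻¹ • w
  have hT : MeasurePreserving T ν ν := ⟨measurable_const_smul _, (Stab _ ν).inv_mem ha⟩
  have hTi : ∀ τ w, T^[τ] w = (al p q κ (M * τ))⁻¹ • w := by
    intro τ w
    rw [al_mul, ← inv_pow]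
    exact smul_iterate_apply _ _ _
  let B : Set (κ → X3 p q) := {w | ∃ n : ℕ,
    (1 / L : ℝ) * n < ((Finset.range n).filter fun t => T^[t] w ∈ Kᶜ).card}
  have hB : ENNReal.ofReal (1 / L) * ν B ≤ ν Kᶜ := by
    have := hopf_count ν hT Kᶜ (θ := 1 / L) (by positivity)
    simp only [B]
    convert this
  have hB' : ν B ≤ ENNReal.ofReal (1 / 4) := by
    have h1 : ENNReal.ofReal (1 / (4 * L)) = ENNReal.ofReal (1 / L) * ENNReal.ofReal (1 / 4) := by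
      rw [← ENNReal.ofReal_mul (by positivity)]
      congr 1
      field_simp
    refine (ENNReal.mul_le_mul_iff_right (a := ENNReal.ofReal (1 / L)) ?_ ENNReal.ofReal_ne_top).1 ?_
    · exact (ENNReal.ofReal_pos.2 (by positivity)).ne'
    · rw [← h1]
      exact hB.trans hKν
  have hz : ν (K \ B) = 0 := by
    refine ucv_small (B := F.card * max C 0) fun t => ?_
    let A : (κ → X3 p q) → Finset ℕ → Set (κ → ℚ_[p]) := fun x S =>
      {b | ∃ g ∈ O, b = (fun k => (g k).1.2 0 1 / (g k).1.2 0 0) ∧ ∀ τ ∈ S, T^[τ] (g • x) ∈ K}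
    have hA : ∀ x S, ∃ R : Finset (κ → ℚ_[p]),
        R.card ≤ N ^ ((Finset.range t).filter fun τ => τ ∉ S).card ∧
        ∀ b ∈ A x S, ∃ c ∈ R, ‖b - c‖ ≤ (p : ℝ) ^ (-((2 * M * t : ℕ) : ℤ)) := by
      intro x S
      obtain ⟨R, h1, h2⟩ := ball_cover (2 * M) t (S : Set ℕ) (A := A x S) (by
        rintro _ ⟨g, hg, rfl, -⟩
        refine (pi_norm_le_iff_of_nonneg zero_le_one).2 fun k => ?_
        rw [norm_div, (hO1 g hg k).2, div_one]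
        exact (hO1 g hg k).1 0 1) (by
        rintro τ hτ - _ ⟨g, hg, rfl, h1⟩ _ ⟨g', hg', rfl, h2⟩ h3
        have e1 : (-(((2 * M : ℕ) : ℤ) * τ) : ℤ) = -(2 * ((M * τ : ℕ) : ℤ)) := by push_cast; ring
        have e2 : (-(((2 * M : ℕ) : ℤ) * (τ + 1)) : ℤ) =
            -(2 * ((M * τ : ℕ) : ℤ) + ((2 * M : ℕ) : ℤ)) := by push_cast; ring
        rw [e1] at h3
        rw [e2]
        exact hO2 g hg g' hg' x (M * τ) (hTi τ _ ▸ h1 τ hτ) (hTi τ _ ▸ h2 τ hτ) h3)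
      refine ⟨R, ?_, fun b hb => by exact_mod_cast h2 b hb⟩
      simp only [Finset.mem_coe] at h1
      convert h1
    choose R hR1 hR2 using hA
    let P : Finset (Finset ℕ) := (Finset.range t).powerset.filter fun S =>
      L * ((Finset.range t).filter fun τ => τ ∉ S).card ≤ t
    have hsub : K \ B ⊆ ⋃ x ∈ F, ⋃ S ∈ P, ⋃ c ∈ R x S, {w | ∃ g ∈ O,
        ‖(fun k => (g k).1.2 0 1 / (g k).1.2 0 0) - c‖ ≤ (p : ℝ) ^ (-((2 * M * t : ℕ) : ℤ)) ∧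
          w = g • x} := by
      rintro w ⟨hw, hwB⟩
      obtain ⟨x, hx, g, hg, rfl⟩ := Set.mem_iUnion₂.1 (hF hw)
      let S : Finset ℕ := (Finset.range t).filter fun τ => T^[τ] (g • x) ∈ K
      have hS : S ∈ P := by
        refine Finset.mem_filter.2 ⟨Finset.mem_powerset.2 (Finset.filter_subset _ _), ?_⟩
        have h1 := not_lt.1 fun h => hwB ⟨t, h⟩
        have h2 : ((Finset.range t).filter fun τ => τ ∉ S) =
            (Finset.range t).filter fun τ => T^[τ] (g • x) ∈ Kᶜ :=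
          Finset.filter_congr fun τ hτ => by
            simp only [S, Finset.mem_filter, hτ, true_and, Set.mem_compl_iff]
        rw [h2]
        rw [one_div, inv_mul_eq_div, le_div_iff₀ hLpos, mul_comm] at h1
        exact_mod_cast h1
      obtain ⟨c, hc, h3⟩ := hR2 x S _ ⟨g, hg, rfl, fun τ hτ => (Finset.mem_filter.1 hτ).2⟩
      simp only [Set.mem_iUnion]
      exact ⟨x, hx, S, hS, c, hc, g, hg, h3, rfl⟩
    have hb : C * (p : ℝ) ^ (-((2 * M * t : ℕ) : ℤ)) ≤ max C 0 * (1 / 4) ^ t := by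
      refine mul_le_mul (le_max_left _ _) ?_ (by positivity) (le_max_right _ _)
      rw [zpow_neg, zpow_natCast, one_div, inv_pow]
      refine inv_anti₀ (by positivity) ?_
      rw [pow_mul]
      refine pow_le_pow_left₀ (by norm_num) ?_ t
      calc (4 : ℝ) = 2 ^ 2 := by norm_num
        _ ≤ 2 ^ (2 * M) := pow_le_pow_right₀ (by norm_num) (by omega)
        _ ≤ _ := pow_le_pow_left₀ (by norm_num) hp2 _
    have hR : ∀ x, ∀ S ∈ P, ((R x S).card : ℝ) ≤ (3 / 2) ^ t := by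
      intro x S hS
      have h1 : ((R x S).card : ℝ) ≤
          (N : ℝ) ^ ((Finset.range t).filter fun τ => τ ∉ S).card := by exact_mod_cast hR1 x S
      refine h1.trans ((pow_le_pow_left₀ (by positivity) hNL _).trans ?_)
      rw [← pow_mul]
      exact pow_le_pow_right₀ (by norm_num) (Finset.mem_filter.1 hS).2
    have hP : (P.card : ℝ) ≤ 2 ^ t := by
      have := Finset.card_filter_le (Finset.range t).powerset fun S =>
        L * ((Finset.range t).filter fun τ => τ ∉ S).card ≤ t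
      rw [Finset.card_powerset, Finset.card_range] at this
      exact_mod_cast this
    have hC0 : 0 ≤ max C 0 := le_max_right _ _
    calc ν (K \ B) ≤ ∑ x ∈ F, ∑ S ∈ P, ∑ c ∈ R x S, ENNReal.ofReal (max C 0 * (1 / 4) ^ t) := by
          refine (measure_mono hsub).trans ((measure_biUnion_finset_le _ _).trans
            (Finset.sum_le_sum fun x _ => (measure_biUnion_finset_le _ _).trans
              (Finset.sum_le_sum fun S _ => (measure_biUnion_finset_le _ _).trans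
                (Finset.sum_le_sum fun c _ => (hC x _ c).trans (ENNReal.ofReal_le_ofReal hb)))))
      _ ≤ ∑ x ∈ F, ∑ S ∈ P, ENNReal.ofReal ((3 / 2) ^ t * (max C 0 * (1 / 4) ^ t)) := by
          refine Finset.sum_le_sum fun x _ => Finset.sum_le_sum fun S hS => ?_
          rw [Finset.sum_const, nsmul_eq_mul, ← ENNReal.ofReal_natCast,
            ← ENNReal.ofReal_mul (by positivity)]
          exact ENNReal.ofReal_le_ofReal (mul_le_mul_of_nonneg_right (hR x S hS) (by positivity))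
      _ ≤ _ := by
          rw [Finset.sum_const, Finset.sum_const, nsmul_eq_mul, nsmul_eq_mul,
            ← ENNReal.ofReal_natCast, ← ENNReal.ofReal_natCast,
            ← ENNReal.ofReal_mul (by positivity), ← ENNReal.ofReal_mul (by positivity)]
          refine ENNReal.ofReal_le_ofReal ?_
          have e : (3 / 4 : ℝ) ^ t = 2 ^ t * ((3 / 2) ^ t * (1 / 4) ^ t) := by
            rw [← mul_pow, ← mul_pow]
            norm_num
          rw [e]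
          calc (F.card : ℝ) * (P.card * ((3 / 2) ^ t * (max C 0 * (1 / 4) ^ t)))
              ≤ F.card * (2 ^ t * ((3 / 2) ^ t * (max C 0 * (1 / 4) ^ t))) := by gcongr
            _ = _ := by ring
  have h1 : ν Set.univ ≤ ν Kᶜ + (ν B + ν (K \ B)) := by
    refine le_trans (measure_mono ?_) ((measure_union_le _ _).trans
      (add_le_add le_rfl (measure_union_le _ _)))
    intro w _
    by_cases hw : w ∈ K
    · by_cases hw' : w ∈ B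
      · exact Or.inr (Or.inl hw')
      · exact Or.inr (Or.inr ⟨hw, hw'⟩)
    · exact Or.inl hw
  have h2 : ν Kᶜ ≤ ENNReal.ofReal (1 / 4) := by
    refine hKν.trans (ENNReal.ofReal_le_ofReal (one_div_le_one_div_of_le (by norm_num) ?_))
    have : (1 : ℝ) ≤ L := by exact_mod_cast Nat.succ_le_succ (Nat.zero_le L₀)
    linarith
  rw [measure_univ, hz, add_zero] at h1
  have h3 := h1.trans (add_le_add h2 hB')
  rw [← ENNReal.ofReal_add (by norm_num) (by norm_num), ENNReal.one_le_ofReal] at h3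
  norm_num at h3

end Pool.Agent.EQ
end
end
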