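import Pool.Agent.K.MP_ad7a55_nt.C42
import Pool.Agent.K.MP_ad7a55_nt.C47
import Pool.Agent.K.MP_ad7a55_nt.C36
import Pool.Agent.K.MP_ad7a55_nt.C50
import Pool.Agent.K.MP_ad7a55_nt.C35
import Pool.Agent.K.MP_ad7a55_nt.C32
import Pool.Agent.K.MP_ad7a55_nt.C38

-- part Pool.Agent.P.MP_ad7a55_nt.UMv
section

/-! The diagonal elements act as Galois automorphisms. -/

set_option autoImplicit false

noncomputable section

open MeasureTheory Topology Filter UpperHalfPlane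
open scoped MatrixGroups ENNReal BoundedContinuousFunction

namespace Pool.Agent.EQ

theorem exists_AB (p : ℕ) [Fact p.Prime] (h2 : p ≠ 2) {r : ℚ_[p]} (hr : r ≠ 0) (n : ℕ) :
    ∃ A B : ℚ, ‖(A : ℚ_[p]) + B * r - 1‖ ≤ (p : ℝ) ^ (-(n + 1 : ℤ)) ∧
      ‖(A : ℚ_[p]) - B * r - p‖ ≤ (p : ℝ) ^ (-(n + 2 : ℤ)) := by
  have hp : (1 : ℝ) < p := by exact_mod_cast (Fact.out : p.Prime).one_lt
  have hr0 : 0 < ‖r‖ := norm_pos_iff.2 hr
  obtain ⟨B, hB⟩ := Padic.rat_dense (p := p) ((1 - p) / (2 * r))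
    (ε := (p : ℝ) ^ (-(n + 2 : ℤ)) / ‖r‖) (by positivity)
  have h1 : ‖((1 - p) / (2 * r) - B) * r‖ ≤ (p : ℝ) ^ (-(n + 2 : ℤ)) := by
    rw [norm_mul]; exact ((lt_div_iff₀ hr0).1 hB).le
  refine ⟨(1 + p) / 2, B, ?_, ?_⟩
  · have e : (((1 + p) / 2 : ℚ) : ℚ_[p]) + B * r - 1 = -(((1 - p) / (2 * r) - B) * r) := by
      push_cast; field_simp; ring
    rw [e, norm_neg]
    exact h1.trans (zpow_le_zpow_right₀ hp.le (by omega))
  · have e : (((1 + p) / 2 : ℚ) : ℚ_[p]) - B * r - p = ((1 - p) / (2 * r) - B) * r := by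
      push_cast; field_simp; ring
    rw [e]
    exact h1

theorem inK_AB (p : ℕ) [Fact p.Prime] {D : ℤ} (hD : D < 0) {r : ℚ_[p]} {A B : ℚ} {n : ℕ}
    (h : ‖(A : ℚ_[p]) + B * r - 1‖ ≤ (p : ℝ) ^ (-(n + 1 : ℤ))) : InK D (A + B * th D) := by
  refine ⟨fun h0 => ?_, A, B, rfl⟩
  have hp : (1 : ℝ) < p := by exact_mod_cast (Fact.out : p.Prime).one_lt
  have hs : 0 < Real.sqrt (-(D : ℝ)) := Real.sqrt_pos.2 (by
    have : (D : ℝ) < 0 := by exact_mod_cast hD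
    linarith)
  have h1 := congrArg Complex.re h0
  have h2 := congrArg Complex.im h0
  simp [th, hs.ne'] at h1 h2
  rw [h1, h2] at h
  simp only [Rat.cast_zero, zero_mul, add_zero, zero_sub, norm_neg, norm_one] at h
  exact absurd (zpow_lt_one_of_neg₀ hp (by omega)) (not_lt.2 h)

theorem cm_pow (F : IntermediateField ℚ ℂ) [FiniteDimensional ℚ F] (n : ℕ) : ∃ M : ℕ, 0 < M ∧
    ∀ (l : ℕ) [Fact l.Prime] (𝒟 : Finset ℤ), 𝒟.card ≤ n → (∀ D ∈ 𝒟, D < -576 ∧ IsD D) →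
      ∀ D₀ ∈ 𝒟, ∀ t : ℂ, InK D₀ t → ∃ σ : ℂ ≃+* ℂ, (∀ a ∈ F, σ a = a) ∧
        ∀ D ∈ 𝒟, ∀ Λ, DiscL Λ D →
          (IsSquare (D * D₀) → σ (jL Λ) = jL (star l (t ^ (2 * M)) Λ)) ∧
          (¬ IsSquare (D * D₀) → σ (jL Λ) = jL Λ) := by
  classical
  set d : ℕ := max 2 (Module.finrank ℚ F) with hd
  have hd2 : 2 ≤ d := le_max_left _ _
  have hdF : Module.finrank ℚ F ≤ d := le_max_right _ _
  have hM : 0 < d.factorial * 2 ^ n := Nat.mul_pos d.factorial_pos (by positivity)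
  obtain ⟨M, hM2⟩ : 2 ∣ d.factorial * 2 ^ n := (Nat.dvd_factorial two_pos hd2).mul_right _
  refine ⟨M, by omega, fun p _ 𝒟 hcard h𝒟 D₀ hD₀ t ht => ?_⟩
  rw [← hM2]
  have hneg : ∀ D ∈ 𝒟, D < 0 := fun D hD => (h𝒟 D hD).2.1
  have h0 : D₀ < 0 := hneg D₀ hD₀
  set f : ℕ := (∏ D ∈ 𝒟, D).natAbs with hf
  have hf0 : 0 < f := Int.natAbs_pos.2 (Finset.prod_ne_zero_iff.2 fun D hD => (hneg D hD).ne)
  have hdvd : ∀ D ∈ 𝒟, D ∣ (f : ℤ) := fun D hD =>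
    Int.dvd_natAbs.2 (Finset.dvd_prod_of_mem (fun D : ℤ => D) hD)
  set T : Finset ℤ := 𝒟.filter fun D => ¬ IsSquare (D * D₀) with hT
  have hTn : T.card ≤ n := (Finset.card_filter_le _ _).trans hcard
  have hDs : IsD (f ^ 2 * D₀) := cm_isD_sq (h𝒟 D₀ hD₀).2 hf0
  have hDs' : (f : ℤ) ^ 2 * D₀ < -576 := by
    have h1 : (1 : ℤ) ≤ (f : ℤ) ^ 2 := one_le_pow₀ (by exact_mod_cast hf0)
    have h2 := (h𝒟 D₀ hD₀).1
    nlinarith
  have ht' : InK (f ^ 2 * D₀) (t ^ 2 ^ (n - T.card)) := cm_inK_sq hf0 (cm_inK_pow h0 ht _)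
  have htM : InK (f ^ 2 * D₀) (t ^ (d.factorial * 2 ^ n)) := cm_inK_sq hf0 (cm_inK_pow h0 ht _)
  obtain ⟨σ, hσ, hact, hfix⟩ := realize hd2 hDs' T (fun D' hD' => by
    obtain ⟨h1, h2⟩ := Finset.mem_filter.1 hD'
    exact ⟨(h𝒟 D' h1).1, (h𝒟 D' h1).2, cm_not_sq hf0 h2⟩) (discL_star p (discL_OD hDs) ht')
  obtain ⟨k, hk⟩ : ∃ k, d.factorial * 2 ^ T.card = k + 1 :=
    Nat.exists_eq_succ_of_ne_zero (Nat.mul_pos d.factorial_pos (by positivity)).ne'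
  have hexp : 2 ^ (n - T.card) * (k + 1) = d.factorial * 2 ^ n := by
    rw [← hk, mul_left_comm, ← pow_add, Nat.sub_add_cancel hTn]
  rw [hk, star_pow p hDs ht', ← pow_mul, hexp] at hact
  refine ⟨σ, hσ.field F hdF, fun D hD Λ hΛ => ⟨fun hsq => ?_,
    fun hsq => hfix D (Finset.mem_filter.2 ⟨hD, hsq⟩) Λ hΛ⟩⟩
  obtain ⟨ρ, hρ0, hρ1, hρ⟩ := exists_ratio (hneg D hD) h0 hsq
  obtain ⟨g, hg0, hg⟩ := cm_ratio_nat hρ0 hρ1 hf0 (hdvd D hD)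
  have e : (f : ℤ) ^ 2 * D₀ = (g : ℤ) ^ 2 * D := by
    have : ((f : ℚ)) ^ 2 * D₀ = (g : ℚ) ^ 2 * D := by rw [hg, ← hρ1]; ring
    exact_mod_cast this
  have h𝔨 := discL_star p (discL_OD hDs) htM
  have hle : OD (f ^ 2 * D₀) ≤ OD D := by rw [e]; exact OD_sq_le (h𝒟 D hD).2 g
  have hup : Acts σ D (star p (t ^ (d.factorial * 2 ^ n)) (OD (f ^ 2 * D₀))) :=
    Acts.up (h𝒟 D hD).1 (h𝒟 D hD).2 (hσ.th hd2 (hneg D hD).le) hg0 (e ▸ h𝔨) (e ▸ hact)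
  rw [hup Λ hΛ, star_OD_mul p hDs hΛ hle htM]

variable {p q : ℕ} [Fact p.Prime] [Fact q.Prime] {D : ℤ} {rp : ℚ_[p]} {rq : ℚ_[q]}
  {hp : SL(2, ℚ_[p])} {hq : SL(2, ℚ_[q])} {x : X3 p q}

/-- a matrix applied to a rational vector -/
def umv_ap (G : SL(2, ℚ_[p])) (v : Fin 2 → ℚ) (i : Fin 2) : ℚ_[p] := G i 0 * v 0 + G i 1 * v 1

theorem umv_ap_smul (G : SL(2, ℚ_[p])) (c : ℚ) (v : Fin 2 → ℚ) (i : Fin 2) :
    umv_ap G (c • v) i = c * umv_ap G v i := by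
  simp only [umv_ap, Pi.smul_apply, smul_eq_mul]; push_cast; ring

theorem umv_ap_mul (h k : SL(2, ℚ_[p])) (v : Fin 2 → ℚ) (i : Fin 2) :
    umv_ap (h * k) v i = h i 0 * umv_ap k v 0 + h i 1 * umv_ap k v 1 := by
  simp only [umv_ap, Matrix.SpecialLinearGroup.coe_mul, Matrix.mul_apply, Fin.sum_univ_two]
  ring

theorem umv_ph_smul (g : SL(2, ℝ)) (c : ℚ) (v : Fin 2 → ℚ) :
    frame_ph g ((c • v) 0) ((c • v) 1) = c * frame_ph g (v 0) (v 1) :=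
  (frame_ph_mul g c _ _).symm

theorem umv_ph_inj (g : SL(2, ℝ)) {v w : Fin 2 → ℚ}
    (h : frame_ph g (v 0) (v 1) = frame_ph g (w 0) (w 1)) : v = w := by
  obtain ⟨h0, h1⟩ := frame_ph_inj g h
  funext i; fin_cases i
  · exact h0
  · exact h1

theorem umv_pow (f : Fin 2 → ℚ_[p]) : ∃ a : ℕ, ∀ i, ‖(p : ℚ_[p]) ^ a * f i‖ ≤ 1 := by
  have hp : (1 : ℝ) < p := by exact_mod_cast (Fact.out : p.Prime).one_lt
  obtain ⟨a, ha⟩ := pow_unbounded_of_one_lt ‖f‖ hp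
  refine ⟨a, fun i => ?_⟩
  rw [norm_mul, norm_pow, Padic.norm_p, inv_pow, inv_mul_le_iff₀ (by positivity), mul_one]
  exact (norm_le_pi_norm f i).trans ha.le

omit [Fact q.Prime] in
theorem umv_clear (x : ℚ) : ∃ m : ℤ, ¬ (p : ℤ) ∣ m ∧ InZp (p * q) (m * x) := by
  obtain ⟨a, m, hm, e⟩ := Nat.exists_eq_pow_mul_and_not_dvd x.den_nz p
    (Fact.out : p.Prime).ne_one
  refine ⟨m, by exact_mod_cast hm, a, q ^ a * x.num, ?_⟩
  have h1 : (x.den : ℚ) = p ^ a * m := by exact_mod_cast e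
  push_cast
  rw [← Rat.mul_den_eq_num x, h1]; ring

omit [Fact q.Prime] in
theorem umv_inv (n : ℕ) : InZp (p * q) ((p : ℚ) ^ n)⁻¹ := by
  have hp' : (p : ℚ) ≠ 0 := by exact_mod_cast (Fact.out : p.Prime).ne_zero
  refine ⟨n, q ^ n, ?_⟩
  push_cast
  rw [mul_pow]; field_simp

theorem umv_core (hpq : p ≠ q) {g : SL(2, ℝ)} {G G₁ : SL(2, ℚ_[p])} {G' : SL(2, ℚ_[q])}
    {Λ Λ' : Lt} {t : ℂ} {M : ℕ} {T : (Fin 2 → ℚ) → Fin 2 → ℚ}
    (hΛ : ∀ z, z ∈ Λ ↔ ∃ v : Fin 2 → ℚ, (∀ i, InZp (p * q) (v i)) ∧ (∀ i, ‖umv_ap G v i‖ ≤ 1) ∧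
      (∀ i, ‖umv_ap G' v i‖ ≤ 1) ∧ z = frame_ph g (v 0) (v 1))
    (hΛ' : ∀ z, z ∈ Λ' ↔ ∃ v : Fin 2 → ℚ, (∀ i, InZp (p * q) (v i)) ∧ (∀ i, ‖umv_ap G₁ v i‖ ≤ 1) ∧
      (∀ i, ‖umv_ap G' v i‖ ≤ 1) ∧ z = frame_ph g (v 0) (v 1))
    (hT : ∀ u, t * frame_ph g (u 0) (u 1) = frame_ph g (T u 0) (T u 1))
    (hs : Function.Surjective T)
    (hk : ∀ u, (∀ i, ‖umv_ap G u i‖ ≤ 1) ↔ ∀ i, ‖umv_ap G₁ (((p : ℚ) ^ M)⁻¹ • T u) i‖ ≤ 1) :
    pr ((p : ℂ) ^ M) * Λ' = star p t Λ := by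
  have hp : p.Prime := Fact.out
  have hq : q.Prime := Fact.out
  have hpr : Prime (p : ℤ) := Nat.prime_iff_prime_int.1 hp
  have hp' : (p : ℚ) ≠ 0 := by exact_mod_cast hp.ne_zero
  have hpc : (p : ℂ) ≠ 0 := by exact_mod_cast hp.ne_zero
  have hpq' : ‖(p : ℚ_[q])‖ = 1 :=
    Padic.norm_natCast_eq_one_iff.2 ((Nat.coprime_primes hq hp).2 hpq.symm)
  have hint : ∀ (m : ℤ) (y : ℚ_[p]), ‖y‖ ≤ 1 → ‖((m : ℚ) : ℚ_[p]) * y‖ ≤ 1 := fun m y hy =>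
    frame_mul_le p (by simpa using Padic.norm_int_le_one (p := p) m) hy
  ext z
  rw [mem_pr_mul, mem_star]
  constructor
  · rintro ⟨w, hw, rfl⟩
    obtain ⟨v, h1, h2, h3, rfl⟩ := (hΛ' w).1 hw
    constructor
    · obtain ⟨a, ha⟩ := umv_pow (umv_ap G v)
      refine ⟨a, (hΛ _).2 ⟨((p ^ M * p ^ a : ℤ) : ℚ) • v, fun i => (inZp_int _ _).mul (h1 i),
        fun i => ?_, fun i => ?_, ?_⟩⟩
      · have := hint (p ^ M) _ (ha i)
        rw [umv_ap_smul]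
        push_cast at this ⊢
        rwa [mul_assoc]
      · rw [umv_ap_smul]
        exact frame_mul_le q (by simpa using Padic.norm_int_le_one (p := q) (p ^ M * p ^ a)) (h3 i)
      · rw [umv_ph_smul]; push_cast; ring
    · obtain ⟨u, hu⟩ := hs ((p : ℚ) ^ M • v)
      have h4 := (hk u).2 (by rw [hu, inv_smul_smul₀ (pow_ne_zero _ hp')]; exact h2)
      obtain ⟨m0, hm0, hm0'⟩ := umv_clear (p := p) (q := q) (u 0)
      obtain ⟨m1, hm1, hm1'⟩ := umv_clear (p := p) (q := q) (u 1)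
      obtain ⟨b, hb⟩ := umv_pow (umv_ap G' u)
      have hqb : ¬ (p : ℤ) ∣ (q : ℤ) ^ b := fun h => hpq
        ((Nat.prime_dvd_prime_iff_eq hp hq).1 (by exact_mod_cast hpr.dvd_of_dvd_pow h))
      refine ⟨m0 * m1 * q ^ b, hpr.not_dvd_mul (hpr.not_dvd_mul hm0 hm1) hqb, _,
        (hΛ _).2 ⟨((m0 * m1 * q ^ b : ℤ) : ℚ) • u, fun i => ?_, fun i => ?_, fun i => ?_, rfl⟩, ?_⟩
      · fin_cases i
        · have := (inZp_int (p * q) (m1 * q ^ b)).mul hm0'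
          refine (congrArg (InZp (p * q)) ?_).mp this
          simp only [Pi.smul_apply, smul_eq_mul, Fin.zero_eta]; push_cast; ring
        · have := (inZp_int (p * q) (m0 * q ^ b)).mul hm1'
          refine (congrArg (InZp (p * q)) ?_).mp this
          simp only [Pi.smul_apply, smul_eq_mul, Fin.mk_one]; push_cast; ring
      · rw [umv_ap_smul]; exact hint _ _ (h4 i)
      · have := frame_mul_le q (Padic.norm_int_le_one (p := q) (m0 * m1)) (hb i)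
        rw [umv_ap_smul]
        push_cast at this ⊢
        rwa [mul_assoc]
      · rw [umv_ph_smul, mul_left_comm t, hT, hu, umv_ph_smul]; push_cast; ring
  · rintro ⟨⟨a, ha⟩, m, hm, w, hw, hz⟩
    obtain ⟨v, h1, -, h3, hv⟩ := (hΛ _).1 ha
    obtain ⟨u, -, h5, -, rfl⟩ := (hΛ _).1 hw
    have hm0 : (m : ℂ) ≠ 0 := by
      have : m ≠ 0 := fun h => hm (h ▸ dvd_zero _)
      exact_mod_cast this
    have hm1 : ‖(m : ℚ_[p])‖ = 1 :=
      le_antisymm (Padic.norm_int_le_one m) (not_lt.1 fun h' =>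
        hm (Padic.norm_intCast_lt_one_iff.1 h'))
    have hTu : T ((m : ℚ)⁻¹ • u) = ((p : ℚ) ^ a)⁻¹ • v := by
      refine umv_ph_inj g ?_
      rw [← hT, umv_ph_smul, umv_ph_smul, ← hv, mul_left_comm, ← hz]
      push_cast; field_simp
    have h6 := (hk ((m : ℚ)⁻¹ • u)).1 fun i => by
      rw [umv_ap_smul, norm_mul]
      push_cast
      rw [norm_inv, hm1, inv_one, one_mul]
      exact h5 i
    rw [hTu] at h6
    refine ⟨_, (hΛ' _).2 ⟨((p : ℚ) ^ M)⁻¹ • ((p : ℚ) ^ a)⁻¹ • v,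
      fun i => (umv_inv M).mul ((umv_inv a).mul (h1 i)), h6, fun i => ?_, rfl⟩, ?_⟩
    · rw [umv_ap_smul, umv_ap_smul, norm_mul, norm_mul]
      push_cast
      simp only [norm_inv, norm_pow, hpq', one_pow, inv_one, one_mul]
      exact h3 i
    · rw [umv_ph_smul, umv_ph_smul, ← hv]
      push_cast; field_simp

theorem umv_unit {c : ℕ} {h : SL(2, ℚ_[p])}
    (hb : Bd ((p : ℝ) ^ c) (h : Matrix (Fin 2) (Fin 2) ℚ_[p])) {e0 e1 y0 y1 : ℚ_[p]}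
    (h0 : ‖e0 - 1‖ ≤ (p : ℝ) ^ (-((2 * c : ℕ) + 1 : ℤ)))
    (h1 : ‖e1 - 1‖ ≤ (p : ℝ) ^ (-((2 * c : ℕ) + 1 : ℤ)))
    (hy : ∀ i, ‖h i 0 * y0 + h i 1 * y1‖ ≤ 1) (i : Fin 2) :
    ‖h i 0 * (e0 * y0) + h i 1 * (e1 * y1)‖ ≤ 1 := by
  have hp : (1 : ℝ) < p := by exact_mod_cast (Fact.out : p.Prime).one_lt
  have hd := frame_det h
  have a1 : ∀ {a w a' w' : ℚ_[p]}, ‖a‖ ≤ (p : ℝ) ^ c → ‖w‖ ≤ 1 → ‖a'‖ ≤ (p : ℝ) ^ c → ‖w'‖ ≤ 1 →
      ‖a * w + -(a' * w')‖ ≤ (p : ℝ) ^ c := fun ha hw ha' hw' => by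
    refine (Padic.nonarchimedean _ _).trans (max_le ?_ ?_)
    · rw [norm_mul]; exact (mul_le_of_le_one_right (norm_nonneg _) hw).trans ha
    · rw [norm_neg, norm_mul]; exact (mul_le_of_le_one_right (norm_nonneg _) hw').trans ha'
  have a2 : ‖y0‖ ≤ (p : ℝ) ^ c := by
    have : y0 = h 1 1 * (h 0 0 * y0 + h 0 1 * y1) + -(h 0 1 * (h 1 0 * y0 + h 1 1 * y1)) := by
      linear_combination (-y0) * hd
    rw [this]; exact a1 (hb 1 1) (hy 0) (hb 0 1) (hy 1)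
  have a3 : ‖y1‖ ≤ (p : ℝ) ^ c := by
    have : y1 = h 0 0 * (h 1 0 * y0 + h 1 1 * y1) + -(h 1 0 * (h 0 0 * y0 + h 0 1 * y1)) := by
      linear_combination (-y1) * hd
    rw [this]; exact a1 (hb 0 0) (hy 1) (hb 1 0) (hy 0)
  have a4 : ∀ {a e y : ℚ_[p]}, ‖a‖ ≤ (p : ℝ) ^ c → ‖e‖ ≤ (p : ℝ) ^ (-((2 * c : ℕ) + 1 : ℤ)) →
      ‖y‖ ≤ (p : ℝ) ^ c → ‖a * y * e‖ ≤ 1 := fun ha he hy => by
    rw [norm_mul, norm_mul]
    refine (mul_le_mul (mul_le_mul ha hy (norm_nonneg _) (by positivity)) he (norm_nonneg _)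
      (by positivity)).trans ?_
    rw [← pow_add, ← zpow_natCast, ← zpow_add₀ (by positivity)]
    exact zpow_le_one_of_nonpos₀ hp.le (by push_cast; omega)
  have : h i 0 * (e0 * y0) + h i 1 * (e1 * y1) =
      (h i 0 * y0 + h i 1 * y1) + (h i 0 * y0 * (e0 - 1) + h i 1 * y1 * (e1 - 1)) := by ring
  rw [this]
  exact frame_add_le p (hy i) (frame_add_le p (a4 (hb i 0) h0 a2) (a4 (hb i 1) h1 a3))

theorem umv_norm_one {δ : ℝ} (hδ : δ < 1) {e : ℚ_[p]} (h : ‖e - 1‖ ≤ δ) : ‖e‖ = 1 := by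
  have h1 : ‖e - 1‖ < 1 := h.trans_lt hδ
  rw [show e = 1 + (e - 1) by ring, Padic.add_eq_max_of_ne (by rw [norm_one]; exact h1.ne'),
    norm_one, max_eq_left h1.le]

theorem umv_pow_sub {δ : ℝ} (hδ : δ < 1) {e : ℚ_[p]} (h : ‖e - 1‖ ≤ δ) (n : ℕ) :
    ‖e ^ n - 1‖ ≤ δ := by
  induction n with
  | zero => simpa using (norm_nonneg _).trans h
  | succ n ih =>
    rw [show e ^ (n + 1) - 1 = e * (e ^ n - 1) + (e - 1) by ring]
    refine (Padic.nonarchimedean _ _).trans (max_le ?_ h)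
    rwa [norm_mul, umv_norm_one hδ h, one_mul]

theorem umv_inv_sub {δ : ℝ} (hδ : δ < 1) {e : ℚ_[p]} (h : ‖e - 1‖ ≤ δ) :
    e ≠ 0 ∧ ‖e⁻¹ - 1‖ ≤ δ := by
  have h1 := umv_norm_one hδ h
  have h0 : e ≠ 0 := fun h0 => by simp [h0] at h1
  refine ⟨h0, ?_⟩
  rwa [show e⁻¹ - 1 = -(e⁻¹ * (e - 1)) by field_simp; ring, norm_neg, norm_mul, norm_inv, h1,
    inv_one, one_mul]

theorem umv_powAB (hD : D < 0) {r : ℚ_[p]} (hr : r ^ 2 = D) (A B : ℚ) (n : ℕ) : ∃ A' B' : ℚ,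
    ((A : ℂ) + B * th D) ^ n = A' + B' * th D ∧ ((A : ℚ_[p]) + B * r) ^ n = A' + B' * r ∧
      ((A : ℚ_[p]) - B * r) ^ n = A' - B' * r := by
  induction n with
  | zero => exact ⟨1, 0, by simp, by simp, by simp⟩
  | succ n ih =>
    obtain ⟨A', B', h1, h2, h3⟩ := ih
    have hth := th_sq hD.le
    refine ⟨A' * A + B' * B * D, A' * B + B' * A, ?_, ?_, ?_⟩
    · rw [pow_succ, h1]; push_cast; linear_combination (B' : ℂ) * B * hth
    · rw [pow_succ, h2]; push_cast; linear_combination (B' : ℚ_[p]) * B * hr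
    · rw [pow_succ, h3]; push_cast; linear_combination (B' : ℚ_[p]) * B * hr

theorem umv_move (hpq : p ≠ q) (hD : D < 0) {g : SL(2, ℝ)} {h k : SL(2, ℚ_[p])}
    {G' : SL(2, ℚ_[q])} {Λ Λ' : Lt} {M c : ℕ} {Θ : Matrix (Fin 2) (Fin 2) ℚ} {r : ℚ_[p]}
    (hr : r ^ 2 = D)
    (hΛ : ∀ z, z ∈ Λ ↔ ∃ v : Fin 2 → ℚ, (∀ i, InZp (p * q) (v i)) ∧
      (∀ i, ‖umv_ap (h * k) v i‖ ≤ 1) ∧ (∀ i, ‖umv_ap G' v i‖ ≤ 1) ∧ z = frame_ph g (v 0) (v 1))
    (hΛ' : ∀ z, z ∈ Λ' ↔ ∃ v : Fin 2 → ℚ, (∀ i, InZp (p * q) (v i)) ∧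
      (∀ i, ‖umv_ap (h * ((aP p M).2 * k)) v i‖ ≤ 1) ∧ (∀ i, ‖umv_ap G' v i‖ ≤ 1) ∧
        z = frame_ph g (v 0) (v 1))
    (hth : ∀ a b : ℚ, th D * frame_ph g a b =
      frame_ph g (Θ 0 0 * a + Θ 0 1 * b) (Θ 1 0 * a + Θ 1 1 * b))
    (hP : (k : Matrix (Fin 2) (Fin 2) ℚ_[p]) * Θ.map (↑) =
      !![r, 0; 0, -r] * (k : Matrix (Fin 2) (Fin 2) ℚ_[p]))
    (hb : Bd ((p : ℝ) ^ c) (h : Matrix (Fin 2) (Fin 2) ℚ_[p])) {A B : ℚ}
    (h₁ : ‖(A : ℚ_[p]) + B * r - 1‖ ≤ (p : ℝ) ^ (-((2 * c : ℕ) + 1 : ℤ)))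
    (h₂ : ‖(A : ℚ_[p]) - B * r - p‖ ≤ (p : ℝ) ^ (-((2 * c : ℕ) + 2 : ℤ))) :
    pr ((p : ℂ) ^ M) * Λ' = star p ((A + B * th D) ^ (2 * M)) Λ := by
  have hp : (1 : ℝ) < p := by exact_mod_cast (Fact.out : p.Prime).one_lt
  have hp0 : (p : ℚ_[p]) ≠ 0 := by exact_mod_cast (Fact.out : p.Prime).ne_zero
  have hδ : (p : ℝ) ^ (-((2 * c : ℕ) + 1 : ℤ)) < 1 := zpow_lt_one_of_neg₀ hp (by omega)
  obtain ⟨A', B', e1, e2, e3⟩ := umv_powAB hD hr A B (2 * M)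
  have ht := (inK_AB p hD h₁).pow_star hD (2 * M)
  obtain ⟨-, A'', B'', e4⟩ := ht.inv hD
  let T : ℚ → ℚ → (Fin 2 → ℚ) → Fin 2 → ℚ := fun a b u i =>
    a * u i + b * (Θ i 0 * u 0 + Θ i 1 * u 1)
  have hT : ∀ (a b : ℚ) (u : Fin 2 → ℚ), ((a : ℂ) + b * th D) * frame_ph g (u 0) (u 1) =
      frame_ph g (T a b u 0) (T a b u 1) := fun a b u => by
    rw [add_mul, mul_assoc, hth]
    simp only [frame_ph, T]; push_cast; ring
  have q00 := congrFun₂ hP 0 0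
  have q01 := congrFun₂ hP 0 1
  have q10 := congrFun₂ hP 1 0
  have q11 := congrFun₂ hP 1 1
  simp only [Matrix.mul_apply, Fin.sum_univ_two, Matrix.map_apply, Matrix.of_apply,
    Matrix.cons_val', Matrix.cons_val_zero, Matrix.cons_val_one, Matrix.cons_val_fin_one,
    zero_mul, add_zero, zero_add] at q00 q01 q10 q11
  have f0 := umv_pow_sub hδ h₁ (2 * M)
  have f1 := umv_pow_sub (e := ((A : ℚ_[p]) - (B : ℚ_[p]) * r) / (p : ℚ_[p])) hδ (by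
    rw [show ((A : ℚ_[p]) - B * r) / p - 1 = ((A : ℚ_[p]) - B * r - p) / p by
      field_simp, norm_div,
      Padic.norm_p, div_inv_eq_mul]
    refine (mul_le_mul_of_nonneg_right h₂ (by positivity)).trans (le_of_eq ?_)
    rw [← zpow_add_one₀ (by positivity)]
    congr 1) (2 * M)
  refine umv_core hpq hΛ hΛ' (T := T A' B') (fun u => by rw [e1, hT]) (fun v => ?_) fun u => ?_
  · refine ⟨T A'' B'' v, umv_ph_inj g ?_⟩
    rw [← hT, ← hT, ← e1, ← e4, mul_inv_cancel_left₀ ht.1]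
  · have g0 : umv_ap ((aP p M).2 * k) (((p : ℚ) ^ M)⁻¹ • T A' B' u) 0 =
        ((A : ℚ_[p]) + B * r) ^ (2 * M) * umv_ap k u 0 := by
      rw [umv_ap_mul, umv_ap_smul, e2]
      simp only [aP, dg_val, Matrix.of_apply, Matrix.cons_val', Matrix.cons_val_zero,
        Matrix.cons_val_one, Matrix.cons_val_fin_one, zero_mul, add_zero]
      push_cast
      rw [mul_inv_cancel_left₀ (pow_ne_zero _ hp0)]
      simp only [umv_ap, T]
      push_cast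
      linear_combination (B' : ℚ_[p]) * u 0 * q00 + (B' : ℚ_[p]) * u 1 * q01
    have g1 : umv_ap ((aP p M).2 * k) (((p : ℚ) ^ M)⁻¹ • T A' B' u) 1 =
        (((A : ℚ_[p]) - B * r) / p) ^ (2 * M) * umv_ap k u 1 := by
      rw [umv_ap_mul, umv_ap_smul, umv_ap_smul, div_pow, e3]
      simp only [aP, dg_val, Matrix.of_apply, Matrix.cons_val', Matrix.cons_val_zero,
        Matrix.cons_val_one, Matrix.cons_val_fin_one, zero_mul, zero_add]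
      have : umv_ap k (T A' B' u) 1 = ((A' : ℚ_[p]) - B' * r) * umv_ap k u 1 := by
        simp only [umv_ap, T]
        push_cast
        linear_combination (B' : ℚ_[p]) * u 0 * q10 + (B' : ℚ_[p]) * u 1 * q11
      rw [this, two_mul, pow_add]
      push_cast
      field_simp
    simp only [umv_ap_mul h, g0, g1]
    refine ⟨fun hy => umv_unit hb f0 f1 hy, fun hy i => ?_⟩
    have := umv_unit hb (umv_inv_sub hδ f0).2 (umv_inv_sub hδ f1).2 hy i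
    rwa [inv_mul_cancel_left₀ (umv_inv_sub hδ f0).1, inv_mul_cancel_left₀ (umv_inv_sub hδ f1).1]
      at this

theorem Fr3.move_p (hpq : p ≠ q) (h : Fr3 p q D rp rq hq x) (hD : D < 0) {c : ℕ}
    (hb : Bd ((p : ℝ) ^ c) (hp : Matrix (Fin 2) (Fin 2) ℚ_[p])) {A B : ℚ}
    (h₁ : ‖(A : ℚ_[p]) + B * rp - 1‖ ≤ (p : ℝ) ^ (-((2 * c : ℕ) + 1 : ℤ)))
    (h₂ : ‖(A : ℚ_[p]) - B * rp - p‖ ≤ (p : ℝ) ^ (-((2 * c : ℕ) + 2 : ℤ))) (M : ℕ) :
    pr ((p : ℂ) ^ M) * lat3 p q (iP p q hp • a3 p q M • x) =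
      star p ((A + B * th D) ^ (2 * M)) (lat3 p q (iP p q hp • x)) := by
  have hr := (h.sq hD.le).1
  obtain ⟨g, Θ, rfl, hF⟩ := h
  refine umv_move hpq hD (g := g.1.1) (h := hp) (k := g.1.2) (G' := g.2) hr (fun z => ?_)
    (fun z => ?_) hF.th hF.2.1 hb h₁ h₂
  · have e : iP p q hp • (g : X3 p q) = ((((g.1.1, hp * g.1.2), g.2) : G3 p q) : X3 p q) := by
      rw [MulAction.Quotient.smul_mk, smul_eq_mul]
      exact congrArg _ (Prod.ext (Prod.ext (one_mul _) rfl) (one_mul _))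
    rw [e]
    exact mem_lat3 p q hpq _ z
  · have e : iP p q hp • a3 p q M • (g : X3 p q) =
        ((((g.1.1, hp * ((aP p M).2 * g.1.2)), g.2) : G3 p q) : X3 p q) := by
      rw [MulAction.Quotient.smul_mk, MulAction.Quotient.smul_mk, smul_eq_mul, smul_eq_mul]
      exact congrArg _ (Prod.ext (Prod.ext ((one_mul _).trans (one_mul _)) rfl)
        ((one_mul _).trans (one_mul _)))
    rw [e]
    exact mem_lat3 p q hpq _ z

theorem Fr3.move_q (hpq : p ≠ q) (h : Fr3 p q D rp rq hq x) (hD : D < 0) {c : ℕ}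
    (hb : Bd ((q : ℝ) ^ c) (hq : Matrix (Fin 2) (Fin 2) ℚ_[q])) {A B : ℚ}
    (h₁ : ‖(A : ℚ_[q]) + B * rq - 1‖ ≤ (q : ℝ) ^ (-((2 * c : ℕ) + 1 : ℤ)))
    (h₂ : ‖(A : ℚ_[q]) - B * rq - q‖ ≤ (q : ℝ) ^ (-((2 * c : ℕ) + 2 : ℤ))) (M : ℕ) :
    pr ((q : ℂ) ^ M) * lat3 p q (iP p q hp • b3 p q hq M • x) =
      star q ((A + B * th D) ^ (2 * M)) (lat3 p q (iP p q hp • x)) := by
  have hr := (h.sq hD.le).2
  obtain ⟨g, Θ, rfl, hF⟩ := h
  refine umv_move hpq.symm hD (g := g.1.1) (h := hq) (k := hq⁻¹ * g.2) (G' := hp * g.1.2) hr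
    (fun z => ?_) (fun z => ?_) hF.th hF.2.2 hb h₁ h₂
  · have e : iP p q hp • (g : X3 p q) =
        ((((g.1.1, hp * g.1.2), hq * (hq⁻¹ * g.2)) : G3 p q) : X3 p q) := by
      rw [MulAction.Quotient.smul_mk, smul_eq_mul]
      exact congrArg _ (Prod.ext (Prod.ext (one_mul _) rfl)
        ((one_mul _).trans (mul_inv_cancel_left _ _).symm))
    rw [e, mem_lat3 p q hpq, mul_comm q p]
    exact exists_congr fun v => and_congr_right fun _ => and_left_comm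
  · have e : iP p q hp • b3 p q hq M • (g : X3 p q) =
        ((((g.1.1, hp * g.1.2), hq * ((aP q M).2 * (hq⁻¹ * g.2))) : G3 p q) : X3 p q) := by
      rw [MulAction.Quotient.smul_mk, MulAction.Quotient.smul_mk, smul_eq_mul, smul_eq_mul]
      refine congrArg _ (Prod.ext (Prod.ext ((one_mul _).trans (one_mul _))
        (congrArg (hp * ·) (one_mul _))) ((one_mul _).trans ?_))
      simp only [b3, Prod.snd_mul, mul_assoc]
    rw [e, mem_lat3 p q hpq, mul_comm q p]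
    exact exists_congr fun v => and_congr_right fun _ => and_left_comm

theorem CF.orbit (hpq : p ≠ q) (h : CF p q D rp rq hp hq x) {c : ℕ}
    (hb : Bd ((p : ℝ) ^ c) (hp : Matrix (Fin 2) (Fin 2) ℚ_[p]))
    (hb' : Bd ((q : ℝ) ^ c) (hq : Matrix (Fin 2) (Fin 2) ℚ_[q])) {A B A' B' : ℚ}
    (h₁ : ‖(A : ℚ_[p]) + B * rp - 1‖ ≤ (p : ℝ) ^ (-((2 * c : ℕ) + 1 : ℤ)))
    (h₂ : ‖(A : ℚ_[p]) - B * rp - p‖ ≤ (p : ℝ) ^ (-((2 * c : ℕ) + 2 : ℤ)))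
    (h₃ : ‖(A' : ℚ_[q]) + B' * rq - 1‖ ≤ (q : ℝ) ^ (-((2 * c : ℕ) + 1 : ℤ)))
    (h₄ : ‖(A' : ℚ_[q]) - B' * rq - q‖ ≤ (q : ℝ) ^ (-((2 * c : ℕ) + 2 : ℤ))) {M : ℕ}
    {σ σ' : ℂ ≃+* ℂ}
    (hσ : ∀ Λ, DiscL Λ D → σ (jL Λ) = jL (star p ((A + B * th D) ^ (2 * M)) Λ))
    (hσ' : ∀ Λ, DiscL Λ D → σ' (jL Λ) = jL (star q ((A' + B' * th D) ^ (2 * M)) Λ)) (u v : ℕ) :
    CF p q D rp rq hp hq (a3 p q (M * u) • b3 p q hq (M * v) • x) ∧
      j3 p q (iP p q hp • a3 p q (M * u) • b3 p q hq (M * v) • x) =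
        (σ ^ u * σ' ^ v) (j3 p q (iP p q hp • x)) := by
  have hD : D < 0 := h.2.isD.1
  have step : ∀ (l : ℕ) [Fact l.Prime] (t : ℂ) (τ : ℂ ≃+* ℂ) (y y' : X3 p q), InK D t →
      (∀ Λ, DiscL Λ D → τ (jL Λ) = jL (star l t Λ)) → DiscL (lat3 p q y) D →
      pr ((l : ℂ) ^ M) * lat3 p q y' = star l t (lat3 p q y) →
      DiscL (lat3 p q y') D ∧ j3 p q y' = τ (j3 p q y) := by
    intro l _ t τ y y' ht hτ hy e
    have hl : (l : ℂ) ^ M ≠ 0 := pow_ne_zero _ (by exact_mod_cast (Fact.out : l.Prime).ne_zero)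
    have h1 := (discL_star l hy ht).pr_mul (inv_ne_zero hl)
    rw [← e, ← mul_assoc, pr_mul_pr, inv_mul_cancel₀ hl, pr_one_mul] at h1
    refine ⟨h1, ?_⟩
    rw [← (lat3_spec p q y).2, ← (lat3_spec p q y').2, hτ _ hy, ← e, jL_pr_mul h1.isLat hl]
  have hv : CF p q D rp rq hp hq (b3 p q hq (M * v) • x) ∧
      j3 p q (iP p q hp • b3 p q hq (M * v) • x) = (σ' ^ v) (j3 p q (iP p q hp • x)) := by
    induction v with
    | zero =>
      have : b3 p q hq (M * 0) = 1 := by rw [b3_mul, pow_zero]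
      rw [this, one_smul, pow_zero]
      exact ⟨h, rfl⟩
    | succ v ih =>
      have h5 := step q _ σ' _ _ ((inK_AB q hD h₃).pow_star hD _) hσ' ih.1.2
        (ih.1.1.move_q hpq hD hb' h₃ h₄ M)
      rw [Nat.mul_succ, add_comm, b3_add, mul_smul, pow_succ', RingAut.mul_apply, ← ih.2]
      exact ⟨⟨ih.1.1.smul_b M, h5.1⟩, h5.2⟩
  rw [RingAut.mul_apply, ← hv.2]
  generalize b3 p q hq (M * v) • x = y at hv ⊢
  induction u with
  | zero =>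
    have : a3 p q (M * 0) = 1 := by rw [a3_mul, pow_zero]
    rw [this, one_smul, pow_zero]
    exact ⟨hv.1, rfl⟩
  | succ u ih =>
    have h5 := step p _ σ _ _ ((inK_AB p hD h₁).pow_star hD _) hσ ih.1.2
      (ih.1.1.move_p hpq hD hb h₁ h₂ M)
    rw [Nat.mul_succ, add_comm, a3_add, mul_smul, pow_succ', RingAut.mul_apply, ← ih.2]
    exact ⟨⟨ih.1.1.smul_a M, h5.1⟩, h5.2⟩

end Pool.Agent.EQ
end
end

-- part Pool.Agent.P.MP_ad7a55_nt.VCm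
section

/-! Galois elements acting on all orders above a given one. -/

set_option autoImplicit false

noncomputable section

open MeasureTheory Topology Filter UpperHalfPlane
open scoped MatrixGroups ENNReal BoundedContinuousFunction

namespace Pool.Agent.EQ

theorem exists_cond {D E : ℤ} (hD : IsD D) (hE : IsD E) (h : OD E ≤ OD D) :
    ∃ g : ℕ, 0 < g ∧ E = g ^ 2 * D := by
  obtain ⟨m, n, e⟩ := mem_sp.1 (h (ord_right 1 ((E + th E) / 2)))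
  have hD' : (0 : ℝ) < -(D : ℝ) := by
    have : (D : ℝ) < 0 := by exact_mod_cast hD.1
    linarith
  have hE' : (0 : ℝ) < -(E : ℝ) := by
    have : (E : ℝ) < 0 := by exact_mod_cast hE.1
    linarith
  have h1 : Real.sqrt (-(E : ℝ)) = n * Real.sqrt (-(D : ℝ)) := by
    have h0 := congrArg Complex.im e
    have e1 : ((E + th E) / 2 : ℂ).im = Real.sqrt (-(E : ℝ)) / 2 := by simp [ord2_th_im]
    have e2 : ((m : ℂ) * 1 + n * ((D + th D) / 2)).im = n * (Real.sqrt (-(D : ℝ)) / 2) := by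
      simp [ord2_th_im]
    rw [e1, e2] at h0
    linarith
  have hn : 0 < n := by
    have h2 := Real.sqrt_pos.2 hE'
    have h3 := Real.sqrt_pos.2 hD'
    rw [h1] at h2
    have : (0 : ℝ) < n := (mul_pos_iff_of_pos_right h3).1 h2
    exact_mod_cast this
  have h4 : (E : ℝ) = (n : ℝ) ^ 2 * D := by
    have h5 := Real.sq_sqrt hE'.le
    rw [h1, mul_pow, Real.sq_sqrt hD'.le] at h5
    linarith
  refine ⟨n.toNat, by omega, ?_⟩
  rw [Int.toNat_of_nonneg hn.le]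
  exact_mod_cast h4

theorem OD_sq_mono {D E : ℤ} (hD : IsD D) (hE : IsD E) (h : OD E ≤ OD D) (f : ℕ) :
    OD (f ^ 2 * E) ≤ OD (f ^ 2 * D) := by
  obtain ⟨m, n, e⟩ := mem_sp.1 (h (ord_right 1 ((E + th E) / 2)))
  rw [OD_sq_mul hE, OD_sq_mul hD]
  refine ord_sp_le.2 ⟨ord_left _ _, mem_sp.2 ⟨f * m, n, ?_⟩⟩
  rw [e]
  push_cast
  ring

/-- The discriminant of a lattice stable under an order. -/
theorem disc_of_modS {Λ : Lt} (hΛ : IsLat Λ) {D : ℤ} (hD : IsD D) (h : ModS D Λ) :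
    ∃ D', DiscL Λ D' ∧ OD D ≤ OD D' := by
  obtain ⟨D', hD'⟩ := exists_discL hΛ (ord2_th_im_ne hD.1) (pr_mul_le.2 (h _ (th_mem_OD D)))
  exact ⟨D', hD', fun x hx => (hD'.end_iff x).1 (pr_mul_le.2 (h x hx))⟩

theorem disc_le {Λ Λ' : Lt} {D D' : ℤ} (h : DiscL Λ D) (h' : DiscL Λ' D') {m : ℕ} (hm : 0 < m)
    {c : ℂ} (hc : c ≠ 0) (h1 : pr m * Λ ≤ pr c * Λ') (h2 : pr c * Λ' ≤ Λ) : -D ≤ (m : ℤ) ^ 2 * -D' := by
  have _ := hc
  have hx : ((D' + th D') / 2 : ℂ) ∈ OD D' := ord_right _ _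
  have hr : (0 : ℝ) < -(D' : ℝ) := by
    have : (D' : ℝ) < 0 := by exact_mod_cast h'.isD.1
    linarith
  have hmx : (m : ℂ) * ((D' + th D') / 2) ∈ OD D := by
    refine (h.end_iff _).1 (pr_mul_le.2 fun w hw => h2 ?_)
    obtain ⟨w', hw', e⟩ := mem_pr_mul.1 (pr_mul_le.1 h1 w hw)
    refine mem_pr_mul.2 ⟨_, h'.modS _ hx w' hw', ?_⟩
    linear_combination ((D' + th D') / 2 : ℂ) * e
  have e : ((m : ℂ) * ((D' + th D') / 2)).im = m * (Real.sqrt (-(D' : ℝ)) / 2) := by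
    simp [ord2_th_im]
  have hm' : (0 : ℝ) < m := by exact_mod_cast hm
  have h3 := abs_le_of_mem_OD h.isD.1 hmx (by
    rw [e]
    exact (mul_pos hm' (div_pos (Real.sqrt_pos.2 hr) two_pos)).ne')
  rw [e, mul_pow, div_pow, Real.sq_sqrt hr.le] at h3
  have h4 : -(D : ℝ) ≤ (m : ℝ) ^ 2 * -(D' : ℝ) := by linarith
  exact_mod_cast h4

theorem disc_between {Λ Λ' : Lt} {D : ℤ} (h : DiscL Λ D) {N : ℕ} (hN : 0 < N)
    (h1 : pr N * Λ ≤ Λ') (h2 : Λ' ≤ Λ) :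
    ∃ D', DiscL Λ' D' ∧ OD (N ^ 2 * D) ≤ OD D' ∧ -D ≤ (N : ℤ) ^ 2 * -D' := by
  have hL : IsLat Λ' := h.isLat.of_between hN h1
    (le_trans (by exact_mod_cast pr_int_le N Λ') h2)
  have hM : ModS (N ^ 2 * D) Λ' := by
    intro x hx w hw
    rw [OD_sq_mul h.isD] at hx
    obtain ⟨a, b, rfl⟩ := mem_sp.1 hx
    have h3 : (N : ℂ) * ((D + th D) / 2 * w) ∈ Λ' :=
      pr_mul_le.1 h1 _ (h.modS _ (ord_right _ _) w (h2 hw))
    have h4 := Λ'.add_mem (Λ'.smul_mem a hw) (Λ'.smul_mem b h3)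
    have e : ((a : ℂ) * 1 + b * (N * ((D + th D) / 2))) * w =
        a • w + b • ((N : ℂ) * ((D + th D) / 2 * w)) := by
      simp only [zsmul_eq_mul]
      ring
    rw [e]
    exact h4
  obtain ⟨D', hD', hle⟩ := disc_of_modS hL (cm_isD_sq h.isD hN) hM
  exact ⟨D', hD', hle, disc_le h hD' hN one_ne_zero (by rwa [pr_one_mul]) (by rwa [pr_one_mul])⟩

theorem cm_pow2 (F : IntermediateField ℚ ℂ) [FiniteDimensional ℚ F] (n : ℕ) : ∃ M : ℕ, 0 < M ∧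
    ∀ (l : ℕ) [Fact l.Prime] (E : ℤ), E < -576 → IsD E → ∀ T : Finset ℤ, T.card ≤ n →
      (∀ D ∈ T, D < -576 ∧ IsD D ∧ ¬ IsSquare (D * E)) → ∀ t : ℂ, InK E t →
        ∃ σ : ℂ ≃+* ℂ, (∀ a ∈ F, σ a = a) ∧
          (∀ D Λ, D < -576 → OD E ≤ OD D → DiscL Λ D → σ (jL Λ) = jL (star l (t ^ M) Λ)) ∧
          ∀ D ∈ T, ∀ Λ, DiscL Λ D → σ (jL Λ) = jL Λ := by
  classical
  set d : ℕ := max 2 (Module.finrank ℚ F) with hd
  have hd2 : 2 ≤ d := le_max_left _ _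
  have hdF : Module.finrank ℚ F ≤ d := le_max_right _ _
  have hM : 0 < d.factorial * 2 ^ n := Nat.mul_pos d.factorial_pos (by positivity)
  refine ⟨d.factorial * 2 ^ n, hM, fun l _ E hE hE' T hTn hT t ht => ?_⟩
  have ht' : InK E (t ^ 2 ^ (n - T.card)) := cm_inK_pow hE'.1 ht _
  have htM : InK E (t ^ (d.factorial * 2 ^ n)) := cm_inK_pow hE'.1 ht _
  obtain ⟨σ, hσ, hact, hfix⟩ := realize hd2 hE T hT (discL_star l (discL_OD hE') ht')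
  obtain ⟨k, hk⟩ : ∃ k, d.factorial * 2 ^ T.card = k + 1 :=
    Nat.exists_eq_succ_of_ne_zero (Nat.mul_pos d.factorial_pos (by positivity)).ne'
  have hexp : 2 ^ (n - T.card) * (k + 1) = d.factorial * 2 ^ n := by
    rw [← hk, mul_left_comm, ← pow_add, Nat.sub_add_cancel hTn]
  rw [hk, star_pow l hE' ht', ← pow_mul, hexp] at hact
  refine ⟨σ, hσ.field F hdF, fun D Λ hD hle hΛ => ?_, hfix⟩
  obtain ⟨g, hg0, e⟩ := exists_cond hΛ.isD hE' hle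
  have h𝔨 := discL_star l (discL_OD hE') htM
  have hup : Acts σ D (star l (t ^ (d.factorial * 2 ^ n)) (OD E)) :=
    Acts.up hD hΛ.isD (hσ.th hd2 hΛ.isD.1.le) hg0 (e ▸ h𝔨) (e ▸ hact)
  rw [hup Λ hΛ, star_OD_mul l hE' hΛ hle htM]

end Pool.Agent.EQ
end
end

-- part Pool.Agent.P.MP_ad7a55_nt.VLa
section

/-! Sublattices of level N and complex multiplications. -/

set_option autoImplicit false

noncomputable section

open MeasureTheory Topology Filter UpperHalfPlane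
open scoped MatrixGroups ENNReal BoundedContinuousFunction

namespace Pool.Agent.EQ

variable (p : ℕ) [Fact p.Prime]

/-- The sublattice cut out by a linear form modulo `N`. -/
def latA (N : ℕ) (α β : ℤ) (g : GG p) : Lt where
  carrier := {z | ∃ a b : ℚ, InZp p a ∧ InZp p b ∧ InZp p ((α * a + β * b) / N) ∧
    (∀ i, ‖g.2 i 0 * a + g.2 i 1 * b‖ ≤ 1) ∧
    ‖α * (g.2 0 0 * a + g.2 0 1 * b) + β * (g.2 1 0 * a + g.2 1 1 * b)‖ ≤ ‖(N : ℚ_[p])‖ ∧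
    z = frame_ph g.1 a b}
  zero_mem' := ⟨0, 0, by simpa using inZp_int p 0, by simpa using inZp_int p 0,
    by simpa using inZp_int p 0, fun _ => by simp, by simp, by simp [frame_ph]⟩
  add_mem' := by
    rintro _ _ ⟨a, b, h1, h2, h3, h4, h5, rfl⟩ ⟨a', b', h1', h2', h3', h4', h5', rfl⟩
    refine ⟨a + a', b + b', h1.add h1', h2.add h2', ?_, fun i => ?_, ?_, ?_⟩
    · refine (congrArg (InZp p) ?_).mp (h3.add h3')
      ring
    · refine le_trans (le_of_eq ?_) ((Padic.nonarchimedean _ _).trans (max_le (h4 i) (h4' i)))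
      congr 1; push_cast; ring
    · refine le_trans (le_of_eq ?_) ((Padic.nonarchimedean _ _).trans (max_le h5 h5'))
      congr 1; push_cast; ring
    · simp only [frame_ph]; push_cast; ring
  smul_mem' := by
    rintro n _ ⟨a, b, h1, h2, h3, h4, h5, rfl⟩
    have hn := Padic.norm_int_le_one (p := p) n
    refine ⟨n * a, n * b, (inZp_int p n).mul h1, (inZp_int p n).mul h2, ?_, fun i => ?_, ?_, ?_⟩
    · refine (congrArg (InZp p) ?_).mp ((inZp_int p n).mul h3)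
      ring
    · have : ‖(n : ℚ_[p]) * (g.2 i 0 * a + g.2 i 1 * b)‖ ≤ 1 := by
        rw [norm_mul]; exact mul_le_one₀ hn (norm_nonneg _) (h4 i)
      refine le_trans (le_of_eq ?_) this
      congr 1; push_cast; ring
    · have : ‖(n : ℚ_[p]) * (α * (g.2 0 0 * a + g.2 0 1 * b) + β * (g.2 1 0 * a + g.2 1 1 * b))‖ ≤
          ‖(N : ℚ_[p])‖ := by
        rw [norm_mul]; exact (mul_le_of_le_one_left (norm_nonneg _) hn).trans h5
      refine le_trans (le_of_eq ?_) this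
      congr 1; push_cast; ring
    · simp only [zsmul_eq_mul, frame_ph]; push_cast; ring

/-- Multiplication by `w` has the matrix `V` in the frame `g`. -/
def Rot (w : ℂ) (g : GG p) (V : SL(2, ℚ_[p])) : Prop :=
  ∃ W : SL(2, ℚ), (∀ a b : ℚ, w * frame_ph g.1 a b =
    frame_ph g.1 (W 0 0 * a + W 0 1 * b) (W 1 0 * a + W 1 1 * b)) ∧ V * g.2 = g.2 * (emb p W).2

/-- Multiplication by `th D` has the matrix `Θ` in the frame `g`. -/
def ThM (D : ℤ) (g : SL(2, ℝ)) (Θ : Matrix (Fin 2) (Fin 2) ℤ) : Prop :=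
  (g : Matrix (Fin 2) (Fin 2) ℝ) * Θ.map (↑) =
    !![0, Real.sqrt (-(D : ℝ)); -Real.sqrt (-(D : ℝ)), 0] * (g : Matrix (Fin 2) (Fin 2) ℝ)

variable {p} {N : ℕ} {w : ℂ} {g : GG p} {V : SL(2, ℚ_[p])}

theorem vla_two (g : GG p) (δ : SL(2, ℚ)) (i : Fin 2) (a b : ℚ) :
    (g.2 * (emb p δ).2) i 0 * a + (g.2 * (emb p δ).2) i 1 * b =
      g.2 i 0 * ((δ 0 0 * a + δ 0 1 * b : ℚ) : ℚ_[p]) +
        g.2 i 1 * ((δ 1 0 * a + δ 1 1 * b : ℚ) : ℚ_[p]) := by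
  have e2 : ∀ j, (g.2 * (emb p δ).2) i j =
      g.2 i 0 * (δ 0 j : ℚ_[p]) + g.2 i 1 * (δ 1 j : ℚ_[p]) := by
    intro j
    simp [emb, Matrix.mul_apply, Fin.sum_univ_two]
  rw [e2, e2]; push_cast; ring

theorem vla_ph (g : SL(2, ℝ)) (δ : SL(2, ℚ)) (a b : ℚ) :
    frame_ph (g * (emb p δ).1) a b =
      frame_ph g (δ 0 0 * a + δ 0 1 * b) (δ 1 0 * a + δ 1 1 * b) := by
  have e1 : ∀ i j, (g * (emb p δ).1) i j = g i 0 * (δ 0 j : ℝ) + g i 1 * (δ 1 j : ℝ) := by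
    intro i j
    simp [emb, Matrix.mul_apply, Fin.sum_univ_two]
  simp only [frame_ph, e1]; push_cast; ring

theorem vla_mul {F : Type} [CommRing F] (W W' : SL(2, F)) (i : Fin 2) (a b : F) :
    (W * W') i 0 * a + (W * W') i 1 * b =
      W i 0 * (W' 0 0 * a + W' 0 1 * b) + W i 1 * (W' 1 0 * a + W' 1 1 * b) := by
  simp only [Matrix.SpecialLinearGroup.coe_mul, Matrix.mul_apply, Fin.sum_univ_two]
  ring

/-- the conditions away from `p` -/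
def vla_Q (p N : ℕ) (α β : ℤ) (a b : ℚ) : Prop :=
  InZp p a ∧ InZp p b ∧ InZp p ((α * a + β * b) / N)

/-- the conditions at `p` -/
def vla_P (N : ℕ) (α β : ℤ) (x y : ℚ_[p]) : Prop :=
  ‖x‖ ≤ 1 ∧ ‖y‖ ≤ 1 ∧ ‖α * x + β * y‖ ≤ ‖(N : ℚ_[p])‖

theorem vla_mem {α β : ℤ} {z : ℂ} : z ∈ latA p N α β g ↔ ∃ a b : ℚ, vla_Q p N α β a b ∧
    vla_P N α β (g.2 0 0 * (a : ℚ_[p]) + g.2 0 1 * (b : ℚ_[p]))
      (g.2 1 0 * (a : ℚ_[p]) + g.2 1 1 * (b : ℚ_[p])) ∧ z = frame_ph g.1 a b := by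
  constructor
  · rintro ⟨a, b, h1, h2, h3, h4, h5, h6⟩
    exact ⟨a, b, ⟨h1, h2, h3⟩, ⟨h4 0, h4 1, h5⟩, h6⟩
  · rintro ⟨a, b, ⟨h1, h2, h3⟩, ⟨h4, h4', h5⟩, h6⟩
    refine ⟨a, b, h1, h2, h3, fun i => ?_, h5, h6⟩
    fin_cases i
    · exact h4
    · exact h4'

omit [Fact p.Prime] in
theorem vla_Q.mul {α β : ℤ} {a b c : ℚ} (h : vla_Q p N α β a b) (hc : InZp p c) :
    vla_Q p N α β (c * a) (c * b) :=
  ⟨hc.mul h.1, hc.mul h.2.1, (congrArg (InZp p) (by ring)).mp (hc.mul h.2.2)⟩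

theorem vla_P.mul {α β : ℤ} {x y c x' y' : ℚ_[p]} (h : vla_P N α β x y) (hc : ‖c‖ ≤ 1)
    (hx : x' = c * x) (hy : y' = c * y) : vla_P N α β x' y' := by
  subst hx hy
  refine ⟨frame_mul_le p hc h.1, frame_mul_le p hc h.2.1, ?_⟩
  rw [show α * (c * x) + β * (c * y) = c * (α * x + β * y) by ring, norm_mul]
  exact (mul_le_of_le_one_left (norm_nonneg _) hc).trans h.2.2

theorem vla_add {x y : ℚ_[p]} {r : ℝ} (hx : ‖x‖ ≤ r) (hy : ‖y‖ ≤ r) : ‖x + y‖ ≤ r :=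
  (Padic.nonarchimedean _ _).trans (max_le hx hy)

theorem vla_mul_le {x y : ℚ_[p]} {r : ℝ} (hx : ‖x‖ ≤ 1) (hy : ‖y‖ ≤ r) : ‖x * y‖ ≤ r := by
  rw [norm_mul]
  exact (mul_le_of_le_one_left (norm_nonneg _) hx).trans hy

theorem latA_zero (N : ℕ) (g : GG p) : latA p N 0 0 g = latG p g := by
  ext z
  rw [vla_mem, frame_mem_latG]
  constructor
  · rintro ⟨a, b, h1, h2, h3⟩
    exact ⟨a, b, h1.1, h1.2.1, h2.1, h2.2.1, h3⟩
  · rintro ⟨a, b, h1, h2, h3, h4, h5⟩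
    exact ⟨a, b, ⟨h1, h2, by simpa using inZp_int p 0⟩, ⟨h3, h4, by simp⟩, h5⟩

theorem latA_le (N : ℕ) (α β : ℤ) (g : GG p) :
    latA p N α β g ≤ latG p g ∧ pr N * latG p g ≤ latA p N α β g := by
  constructor
  · intro z hz
    obtain ⟨a, b, h1, h2, h3⟩ := vla_mem.1 hz
    exact (frame_mem_latG p).2 ⟨a, b, h1.1, h1.2.1, h2.1, h2.2.1, h3⟩
  · rw [pr_mul_le]
    intro z hz
    obtain ⟨a, b, h1, h2, h3, h4, rfl⟩ := (frame_mem_latG p).1 hz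
    have hN : InZp p (N : ℚ) := by simpa using inZp_int p N
    have hN' : ‖(N : ℚ_[p])‖ ≤ 1 := by simpa using Padic.norm_int_le_one (p := p) N
    refine vla_mem.2 ⟨N * a, N * b, ⟨hN.mul h1, hN.mul h2, ?_⟩, ⟨?_, ?_, ?_⟩, ?_⟩
    · rcases Nat.eq_zero_or_pos N with h0 | h0
      · simpa [h0] using inZp_int p 0
      · have h5 : (N : ℚ) ≠ 0 := by exact_mod_cast h0.ne'
        refine (congrArg (InZp p) ?_).mp (((inZp_int p α).mul h1).add ((inZp_int p β).mul h2))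
        field_simp
    · refine le_trans (le_of_eq ?_) (frame_mul_le p hN' h3)
      congr 1; push_cast; ring
    · refine le_trans (le_of_eq ?_) (frame_mul_le p hN' h4)
      congr 1; push_cast; ring
    · refine le_trans (le_of_eq ?_) (vla_mul_le (frame_add_le p
        (frame_mul_le p (Padic.norm_int_le_one α) h3)
        (frame_mul_le p (Padic.norm_int_le_one β) h4)) le_rfl)
      congr 1; push_cast; ring
    · rw [← frame_ph_mul]; simp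

theorem vla_GN_le (α β : ℤ) (g : GG p) {γ : GG p} (hγ : γ ∈ GN p N) :
    latA p N α β (g * γ) ≤ latA p N α β g := by
  obtain ⟨δ, ⟨hδ, hδ'⟩, rfl⟩ := hγ
  intro z hz
  obtain ⟨a, b, ⟨ha, hb, hab⟩, h1, rfl⟩ := vla_mem.1 hz
  refine vla_mem.2 ⟨δ 0 0 * a + δ 0 1 * b, δ 1 0 * a + δ 1 1 * b,
    ⟨((hδ 0 0).mul ha).add ((hδ 0 1).mul hb), ((hδ 1 0).mul ha).add ((hδ 1 1).mul hb), ?_⟩, ?_,
    vla_ph g.1 δ a b⟩
  · refine (congrArg (InZp p) ?_).mp ((hab.add ((inZp_int p α).mul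
      (((hδ' 0 0).mul ha).add ((hδ' 0 1).mul hb)))).add ((inZp_int p β).mul
      (((hδ' 1 0).mul ha).add ((hδ' 1 1).mul hb))))
    simp only [Matrix.one_apply_eq, Matrix.one_apply_ne (show (0 : Fin 2) ≠ 1 by decide),
      Matrix.one_apply_ne (show (1 : Fin 2) ≠ 0 by decide)]
    ring
  · rw [← vla_two, ← vla_two]
    exact h1

theorem latA_GN (α β : ℤ) (g : GG p) {γ : GG p} (hγ : γ ∈ GN p N) :
    latA p N α β (g * γ) = latA p N α β g := by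
  refine le_antisymm (vla_GN_le α β g hγ) ?_
  have := vla_GN_le α β (g * γ) ((GN p N).inv_mem hγ)
  rwa [mul_inv_cancel_right] at this

theorem latG_left {k : SL(2, ℚ_[p])} (hk : k ∈ Kp p) (g : GG p) :
    latG p ((1, k) * g) = latG p g := by
  ext z
  rw [frame_mem_latG, frame_mem_latG, Prod.fst_mul, Prod.snd_mul, one_mul]
  simp only [vla_mul]
  constructor
  · rintro ⟨a, b, h1, h2, h3, h4, h5⟩
    obtain ⟨h6, h7⟩ := frame_K_inv p hk h3 h4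
    exact ⟨a, b, h1, h2, h6, h7, h5⟩
  · rintro ⟨a, b, h1, h2, h3, h4, h5⟩
    exact ⟨a, b, h1, h2, frame_K_le p hk h3 h4 0, frame_K_le p hk h3 h4 1, h5⟩

theorem vla_K (hN : 0 < N) (hg : g.2 ∈ KN p N) (α β : ℤ) (z : ℂ) : z ∈ latA p N α β g ↔
    ∃ m n : ℤ, (N : ℤ) ∣ α * m + β * n ∧ z = frame_ph g.1 m n := by
  have hN' : (N : ℚ) ≠ 0 := by exact_mod_cast hN.ne'
  have hNp : (N : ℚ_[p]) ≠ 0 := by exact_mod_cast hN.ne'
  have hi : ∀ n : ℤ, ‖(((n : ℤ) : ℚ) : ℚ_[p])‖ ≤ 1 := fun n => by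
    simpa using Padic.norm_int_le_one (p := p) n
  have hk : ∀ m n : ℤ, ‖α * (g.2 0 0 * ((m : ℚ) : ℚ_[p]) + g.2 0 1 * ((n : ℚ) : ℚ_[p])) +
      β * (g.2 1 0 * ((m : ℚ) : ℚ_[p]) + g.2 1 1 * ((n : ℚ) : ℚ_[p])) -
      ((α * m + β * n : ℤ) : ℚ_[p])‖ ≤ ‖(N : ℚ_[p])‖ := by
    intro m n
    refine le_trans (le_of_eq ?_) (vla_add
      (vla_mul_le (Padic.norm_int_le_one α) (vla_add (vla_mul_le (hi m) (hg.2 0 0))
        (vla_mul_le (hi n) (hg.2 0 1))))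
      (vla_mul_le (Padic.norm_int_le_one β) (vla_add (vla_mul_le (hi m) (hg.2 1 0))
        (vla_mul_le (hi n) (hg.2 1 1)))))
    simp only [Matrix.one_apply_eq, Matrix.one_apply_ne (show (0 : Fin 2) ≠ 1 by decide),
      Matrix.one_apply_ne (show (1 : Fin 2) ≠ 0 by decide)]
    congr 1; push_cast; ring
  rw [vla_mem]
  constructor
  · rintro ⟨a, b, ⟨ha, hb, hab⟩, ⟨h0, h1, h2⟩, rfl⟩
    obtain ⟨ha', hb'⟩ := frame_K_inv p hg.1 h0 h1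
    obtain ⟨m, rfl⟩ := frame_int p ha ha'
    obtain ⟨n, rfl⟩ := frame_int p hb hb'
    have h3 : ‖((α * m + β * n : ℤ) : ℚ_[p])‖ ≤ ‖(N : ℚ_[p])‖ := by
      have h4 := vla_add h2 ((norm_neg _).trans_le (hk m n))
      rwa [neg_sub, add_sub_cancel] at h4
    obtain ⟨t, ht⟩ := frame_int p hab (by
      push_cast at h3 ⊢
      rwa [norm_div, div_le_one (norm_pos_iff.2 hNp)])
    refine ⟨m, n, ⟨t, ?_⟩, rfl⟩
    rw [div_eq_iff hN', mul_comm (t : ℚ)] at ht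
    exact_mod_cast ht
  · rintro ⟨m, n, ⟨t, ht⟩, rfl⟩
    refine ⟨m, n, ⟨inZp_int p m, inZp_int p n, (congrArg (InZp p) ?_).mp (inZp_int p t)⟩,
      ⟨frame_K_le p hg.1 (hi m) (hi n) 0, frame_K_le p hg.1 (hi m) (hi n) 1, ?_⟩, rfl⟩
    · rw [eq_div_iff hN', mul_comm]
      exact_mod_cast ht.symm
    · have h3 : ‖((α * m + β * n : ℤ) : ℚ_[p])‖ ≤ ‖(N : ℚ_[p])‖ := by
        rw [ht, mul_comm]
        push_cast
        exact vla_mul_le (Padic.norm_int_le_one t) le_rfl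
      have h4 := vla_add (hk m n) h3
      rwa [sub_add_cancel] at h4

theorem vla_om (g : SL(2, ℝ)) : ∃ c : ℂ, c ≠ 0 ∧ ∀ m n : ℤ,
    frame_ph g m n = m * c - n * (c * ((g⁻¹ • UpperHalfPlane.I : ℍ) : ℂ)) := by
  have hd := frame_det g
  have hc : ((g 0 0 : ℂ) - g 1 0 * Complex.I) ≠ 0 := by
    intro h0
    have h1 := congrArg Complex.re h0
    have h2 := congrArg Complex.im h0
    simp at h1 h2
    rw [h1, h2] at hd
    simp at hd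
  have e2 : ((g 0 0 : ℂ) - g 1 0 * Complex.I) * ((g⁻¹ • UpperHalfPlane.I : ℍ) : ℂ) =
      -((g 0 1 : ℂ) - g 1 1 * Complex.I) := by
    rw [coe_specialLinearGroup_apply, Matrix.SpecialLinearGroup.SL2_inv_expl]
    have hc' : -(g 1 0 : ℂ) * Complex.I + g 0 0 ≠ 0 := by
      intro h0; apply hc; linear_combination h0
    simp only [Fin.isValue, Matrix.cons_val', Matrix.cons_val_zero,
      Matrix.cons_val_one, Matrix.cons_val_fin_one, Algebra.algebraMap_self, RingHom.id_apply,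
      coe_I, Complex.ofReal_neg]
    rw [← mul_div_assoc, div_eq_iff hc']
    ring
  refine ⟨_, hc, fun m n => ?_⟩
  rw [e2]
  simp only [frame_ph]; push_cast; ring

theorem vla_inv (hN : 0 < N) {ξ : MZ} (hξ : ξ.det = N) {φ : ℍ → ℍ}
    (h : ∀ τ : ℍ, ((ξ 0 0 : ℂ) * τ + ξ 0 1) / ((ξ 1 0 : ℂ) * τ + ξ 1 1) = φ τ) :
    GInv N fun τ => jInv (φ τ) := by
  have h0 : 0 < ξ.det := by rw [hξ]; exact_mod_cast hN
  have h1 : GInv 1 jInv := fun γ _ τ => jInv_smul γ τ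
  have h2 := h1.act h0
  rw [hξ, Int.natAbs_natCast, one_mul] at h2
  have h3 : act ξ = φ := funext fun τ => UpperHalfPlane.ext ((coe_act h0 τ).trans (h τ))
  rwa [h3] at h2

theorem jL_latA (hN : 0 < N) (g : GG p) :
    jL (latA p N 0 0 g) = jInv (pt p N g) ∧
      jL (latA p N 0 1 g) = jInv (mulH N hN (pt p N g)) ∧
      jL (latA p N 1 0 g) = jInv (divH N hN 0 (pt p N g)) ∧
      jL (latA p N 1 1 g) = jInv (divH N hN 1 (pt p N g)) := by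
  obtain ⟨γ, hγ, hK⟩ := exists_GN hN g
  simp only [← latA_GN _ _ g hγ, ← pt_GN g hγ]
  generalize g * γ = h at hK
  obtain ⟨c, hc, hm⟩ := vla_om h.1
  have hNc : (N : ℂ) ≠ 0 := by exact_mod_cast hN.ne'
  have i0 : GInv N jInv := fun γ _ τ => jInv_smul γ τ
  have i1 : GInv N fun τ => jInv (mulH N hN τ) :=
    vla_inv hN (ξ := !![N, 0; 0, 1]) (by simp [Matrix.det_fin_two]) fun τ => by simp
  have i2 : GInv N fun τ => jInv (divH N hN 0 τ) :=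
    vla_inv hN (ξ := !![1, 0; 0, N]) (by simp [Matrix.det_fin_two]) fun τ => by simp
  have i3 : GInv N fun τ => jInv (divH N hN 1 τ) :=
    vla_inv hN (ξ := !![1, 1; 0, N]) (by simp [Matrix.det_fin_two]) fun τ => by simp
  rw [i0.pt_K hN hK, i1.pt_K hN hK, i2.pt_K hN hK, i3.pt_K hN hK]
  generalize h.1⁻¹ • UpperHalfPlane.I = τ at hm
  rw [← jL_sp hc τ, ← jL_sp hc (mulH N hN τ), ← jL_sp (mul_ne_zero hNc hc) (divH N hN 0 τ),
    ← jL_sp (mul_ne_zero hNc hc) (divH N hN 1 τ), coe_mulH, coe_divH, coe_divH]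
  refine ⟨congrArg jL ?_, congrArg jL ?_, congrArg jL ?_, congrArg jL ?_⟩ <;> ext z <;>
    rw [vla_K hN hK, mem_sp] <;> simp only [hm] <;> constructor
  · rintro ⟨m, n, -, rfl⟩
    exact ⟨m, -n, by push_cast; ring⟩
  · rintro ⟨m, n, rfl⟩
    exact ⟨m, -n, by simp, by push_cast; ring⟩
  · rintro ⟨m, n, ⟨t, ht⟩, rfl⟩
    obtain rfl : n = N * t := by linear_combination ht
    exact ⟨m, -t, by push_cast; ring⟩
  · rintro ⟨m, n, rfl⟩
    exact ⟨m, -(N * n), by simp, by push_cast; ring⟩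
  · rintro ⟨m, n, ⟨t, ht⟩, rfl⟩
    obtain rfl : m = N * t := by linear_combination ht
    exact ⟨t, -n, by push_cast; field_simp; ring⟩
  · rintro ⟨m, n, rfl⟩
    exact ⟨N * m, -n, by simp, by push_cast; field_simp; ring⟩
  · rintro ⟨m, n, ⟨t, ht⟩, rfl⟩
    obtain rfl : m = N * t - n := by linear_combination ht
    exact ⟨t, -n, by push_cast; field_simp; ring⟩
  · rintro ⟨m, n, rfl⟩
    exact ⟨N * m + n, -n, by simp, by push_cast; field_simp; ring⟩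

theorem hasDisc_pt (hN : 0 < N) {D : ℤ} (h : DiscL (latG p g) D) : HasDisc (pt p N g) D := by
  obtain ⟨c, τ, hc, h1, h2⟩ := h
  have h3 : jInv τ = jInv (pt p N g) := by
    rw [← (jL_latA hN g).1, latA_zero, h1, jL_sp hc]
  obtain ⟨γ, hγ⟩ := jInv_inj h3
  rw [hγ]
  exact h2.smul γ

theorem discL_latG {D : ℤ} {τ : ℍ} (h : HasDisc τ D) (hj : piX p (g : XX p) = jInv τ) :
    DiscL (latG p g) D := by
  obtain ⟨h1, h2⟩ := latG_spec p g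
  obtain ⟨c, hc, h3⟩ := jL_inj (isLat_one τ) h1 (by rw [jL_one, h2, hj])
  rw [h3]
  exact (discL_one h).pr_mul hc

theorem vla_clear (x : ℚ) : ∃ m : ℤ, ¬ (p : ℤ) ∣ m ∧ InZp p (m * x) := by
  obtain ⟨a, m, hm, e⟩ := Nat.exists_eq_pow_mul_and_not_dvd x.den_nz p
    (Fact.out : p.Prime).ne_one
  refine ⟨m, by exact_mod_cast hm, a, x.num, ?_⟩
  have h1 : (x.den : ℚ) = p ^ a * m := by exact_mod_cast e
  push_cast
  rw [← Rat.mul_den_eq_num x, h1]; ring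

theorem vla_pow (hN : 0 < N) (α β : ℤ) (x y : ℚ_[p]) :
    ∃ a : ℕ, vla_P N α β ((p : ℚ_[p]) ^ a * x) ((p : ℚ_[p]) ^ a * y) := by
  have hp : (1 : ℝ) < p := by exact_mod_cast (Fact.out : p.Prime).one_lt
  have hNp : (N : ℚ_[p]) ≠ 0 := by exact_mod_cast hN.ne'
  obtain ⟨a, ha⟩ := pow_unbounded_of_one_lt (max ‖x‖ (max ‖y‖ ‖(α * x + β * y) / N‖)) hp
  have key : ∀ u : ℚ_[p], ‖u‖ ≤ (p : ℝ) ^ a → ‖(p : ℚ_[p]) ^ a * u‖ ≤ 1 := fun u hu => by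
    rwa [norm_mul, norm_pow, Padic.norm_p, inv_pow, inv_mul_le_iff₀ (by positivity), mul_one]
  rw [max_lt_iff, max_lt_iff] at ha
  refine ⟨a, key x ha.1.le, key y ha.2.1.le, ?_⟩
  refine le_trans (le_of_eq ?_) (vla_mul_le (key _ ha.2.2.le) le_rfl)
  congr 1; field_simp

theorem Rot.latA (hN : 0 < N) (h : Rot p w g V) (α β : ℤ) :
    latA p N α β ((1, V) * g) = star p w⁻¹ (latA p N α β g) := by
  obtain ⟨W, hW, hV⟩ := h
  have hp : p.Prime := Fact.out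
  have hpr : Prime (p : ℤ) := Nat.prime_iff_prime_int.1 hp
  have hpc : (p : ℂ) ≠ 0 := by exact_mod_cast hp.ne_zero
  have hw : w ≠ 0 := by
    rintro rfl
    have h1 := hW 1 0
    have h2 : frame_ph g.1 0 0 = 0 := by simp [frame_ph]
    rw [zero_mul, ← h2] at h1
    obtain ⟨h3, h4⟩ := frame_ph_inj _ h1
    have h5 := frame_det W
    have h6 : (0 : ℚ) = 1 := by linear_combination h5 + W 1 1 * h3 - W 0 1 * h4
    exact zero_ne_one h6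
  ext z
  rw [mem_star, vla_mem, Prod.fst_mul, Prod.snd_mul, one_mul, hV]
  simp only [vla_two]
  constructor
  · rintro ⟨a, b, hQ, hP, rfl⟩
    constructor
    · obtain ⟨e, he⟩ := vla_pow hN α β (g.2 0 0 * (a : ℚ_[p]) + g.2 0 1 * (b : ℚ_[p]))
        (g.2 1 0 * (a : ℚ_[p]) + g.2 1 1 * (b : ℚ_[p]))
      refine ⟨e, vla_mem.2 ⟨_, _, hQ.mul (inZp_int p (p ^ e)),
        he.mul (c := 1) (by simp) ?_ ?_, ?_⟩⟩
      · push_cast; ring
      · push_cast; ring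
      · rw [← frame_ph_mul]; push_cast; rfl
    · have hab := hW a b
      generalize W 0 0 * a + W 0 1 * b = c at hP hab
      generalize W 1 0 * a + W 1 1 * b = d at hP hab
      obtain ⟨m0, hm0, k0⟩ := vla_clear (p := p) c
      obtain ⟨m1, hm1, k1⟩ := vla_clear (p := p) d
      obtain ⟨m2, hm2, k2⟩ := vla_clear (p := p) ((α * c + β * d) / N)
      refine ⟨m0 * m1 * m2, hpr.not_dvd_mul (hpr.not_dvd_mul hm0 hm1) hm2, _,
        vla_mem.2 ⟨((m0 * m1 * m2 : ℤ) : ℚ) * c, ((m0 * m1 * m2 : ℤ) : ℚ) * d, ⟨?_, ?_, ?_⟩,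
          hP.mul (Padic.norm_int_le_one (m0 * m1 * m2)) ?_ ?_, rfl⟩, ?_⟩
      · refine (congrArg (InZp p) ?_).mp ((inZp_int p (m1 * m2)).mul k0)
        push_cast; ring
      · refine (congrArg (InZp p) ?_).mp ((inZp_int p (m0 * m2)).mul k1)
        push_cast; ring
      · refine (congrArg (InZp p) ?_).mp ((inZp_int p (m0 * m1)).mul k2)
        push_cast; ring
      · push_cast; ring
      · push_cast; ring
      · rw [← frame_ph_mul, ← hab]; push_cast; field_simp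
  · rintro ⟨⟨e, he⟩, m, hm, u, hu, hz⟩
    obtain ⟨a, b, hQ, -, hab⟩ := vla_mem.1 he
    obtain ⟨c, d, -, hP, rfl⟩ := vla_mem.1 hu
    have hz1 : z = frame_ph g.1 (((p : ℚ) ^ e)⁻¹ * a) (((p : ℚ) ^ e)⁻¹ * b) := by
      rw [← frame_ph_mul, ← hab]; push_cast; field_simp
    have hQ' := hQ.mul (c := ((p : ℚ) ^ e)⁻¹)
      (by simpa using frame_inZp_div p (inZp_int p 1) e)
    generalize ((p : ℚ) ^ e)⁻¹ * a = a' at hz1 hQ'
    generalize ((p : ℚ) ^ e)⁻¹ * b = b' at hz1 hQ'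
    have h1 : frame_ph g.1 c d = frame_ph g.1 (m * (W 0 0 * a' + W 0 1 * b'))
        (m * (W 1 0 * a' + W 1 1 * b')) := by
      rw [← frame_ph_mul, ← hW, ← hz1, mul_left_comm]
      push_cast
      rw [hz, mul_inv_cancel_left₀ hw]
    obtain ⟨rfl, rfl⟩ := frame_ph_inj _ h1
    have hm1 : ‖(m : ℚ_[p])‖ = 1 :=
      le_antisymm (Padic.norm_int_le_one m) (not_lt.1 fun h' =>
        hm (Padic.norm_intCast_lt_one_iff.1 h'))
    have hm0 : (m : ℚ_[p]) ≠ 0 := by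
      intro h0; rw [h0, norm_zero] at hm1; exact zero_ne_one hm1
    refine ⟨a', b', hQ', hP.mul (c := (m : ℚ_[p])⁻¹) (by rw [norm_inv, hm1, inv_one]) ?_ ?_, hz1⟩
    · push_cast; field_simp
    · push_cast; field_simp

theorem vla_rot_mul {w' : ℂ} {V' : SL(2, ℚ_[p])} (h : Rot p w g V) (h' : Rot p w' g V') :
    Rot p (w * w') g (V * V') := by
  obtain ⟨W, hW, hV⟩ := h
  obtain ⟨W', hW', hV'⟩ := h'
  refine ⟨W * W', fun a b => ?_, ?_⟩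
  · rw [mul_assoc, hW', hW, vla_mul, vla_mul]
  · rw [mul_assoc, hV', ← mul_assoc, hV, map_mul, Prod.snd_mul, mul_assoc]

theorem Rot.pow (h : Rot p w g V) (i : ℕ) : Rot p (w ^ i) g (V ^ i) := by
  induction i with
  | zero => exact ⟨1, fun a b => by simp, by simp⟩
  | succ i ih => rw [pow_succ, pow_succ]; exact vla_rot_mul ih h

theorem Rot.left (h : Rot p w g V) (a : SL(2, ℚ_[p])) :
    Rot p w ((1, a) * g) (a * V * a⁻¹) := by
  obtain ⟨W, hW, hV⟩ := h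
  refine ⟨W, fun a b => by rw [Prod.fst_mul, one_mul]; exact hW a b, ?_⟩
  rw [Prod.snd_mul, mul_assoc, inv_mul_cancel_left, mul_assoc, hV, mul_assoc]

theorem Rot.right (h : Rot p w g V) {γ : GG p} (hγ : γ ∈ Gam p) : Rot p w (g * γ) V := by
  obtain ⟨W, hW, hV⟩ := h
  obtain ⟨δ, -, rfl⟩ := hγ
  refine ⟨δ⁻¹ * (W * δ), fun a b => ?_, ?_⟩
  · rw [Prod.fst_mul, vla_ph, vla_ph, hW, ← vla_mul δ, ← vla_mul δ, mul_inv_cancel_left,
      vla_mul, vla_mul]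
  · simp only [Prod.snd_mul, map_mul, map_inv, Prod.snd_inv]
    rw [← mul_assoc, hV, mul_assoc, mul_assoc, mul_inv_cancel_left]

theorem vla_th {D : ℤ} {g : SL(2, ℝ)} {Θ : Matrix (Fin 2) (Fin 2) ℤ} (h : ThM D g Θ)
    (A B a b : ℚ) : (A + B * th D) * frame_ph g a b =
      frame_ph g (A * a + B * (Θ 0 0 * a + Θ 0 1 * b)) (A * b + B * (Θ 1 0 * a + Θ 1 1 * b)) := by
  have h1 := frame_th_ph h B a b
  simp only [frame_ph] at h1 ⊢
  push_cast at h1 ⊢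
  linear_combination h1

theorem exists_rot {D : ℤ} (hD : D < 0) {Θ : Matrix (Fin 2) (Fin 2) ℤ} (h : ThM D g.1 Θ) {A B : ℚ}
    (hn : A ^ 2 - B ^ 2 * D = 1) : ∃ V, Rot p (A + B * th D) g V := by
  obtain ⟨h1, h2, h3, h4⟩ := frame_entries h
  have hd := frame_det g.1
  have hs : Real.sqrt (-(D : ℝ)) ^ 2 = -(D : ℝ) :=
    Real.sq_sqrt (by exact_mod_cast (neg_pos.2 hD).le)
  generalize Real.sqrt (-(D : ℝ)) = s at h1 h2 h3 h4 hs
  have ht : (Θ 0 0 : ℝ) + Θ 1 1 = 0 := by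
    linear_combination g.1 1 1 * h1 - g.1 0 1 * h3 + g.1 0 0 * h4 - g.1 1 0 * h2 -
      ((Θ 0 0 : ℝ) + Θ 1 1) * hd
  have hdet : (Θ 0 0 : ℝ) * Θ 1 1 - Θ 0 1 * Θ 1 0 = -D := by
    linear_combination (g.1 1 0 * Θ 0 1 + g.1 1 1 * Θ 1 1) * h1 + s * g.1 1 0 * h4 -
      (g.1 1 0 * Θ 0 0 + g.1 1 1 * Θ 1 0) * h2 - s * g.1 1 1 * h3 + hs +
      (s ^ 2 - ((Θ 0 0 : ℝ) * Θ 1 1 - Θ 0 1 * Θ 1 0)) * hd
  have ht' : (Θ 0 0 : ℚ) + Θ 1 1 = 0 := by exact_mod_cast ht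
  have hdet' : (Θ 0 0 : ℚ) * Θ 1 1 - Θ 0 1 * Θ 1 0 = -D := by exact_mod_cast hdet
  let W : SL(2, ℚ) := ⟨!![A + B * Θ 0 0, B * Θ 0 1; B * Θ 1 0, A + B * Θ 1 1], by
    rw [Matrix.det_fin_two_of]
    linear_combination hn + A * B * ht' + B ^ 2 * hdet'⟩
  refine ⟨g.2 * (emb p W).2 * g.2⁻¹, W, fun a b => ?_, inv_mul_cancel_right _ _⟩
  rw [vla_th h]
  congr 1
  · change _ = (A + B * Θ 0 0) * a + B * Θ 0 1 * b
    ring
  · change _ = B * Θ 1 0 * a + (A + B * Θ 1 1) * b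
    ring

theorem Rot.eq {D : ℤ} {Θ : Matrix (Fin 2) (Fin 2) ℤ} (h : ThM D g.1 Θ) {A B : ℚ}
    (hV : Rot p (A + B * th D) g V) :
    (V : Matrix (Fin 2) (Fin 2) ℚ_[p]) * (g.2 : Matrix (Fin 2) (Fin 2) ℚ_[p]) =
      (A : ℚ_[p]) • (g.2 : Matrix (Fin 2) (Fin 2) ℚ_[p]) +
        (B : ℚ_[p]) • ((g.2 : Matrix (Fin 2) (Fin 2) ℚ_[p]) * Θ.map (↑)) := by
  obtain ⟨W, hW, hV⟩ := hV
  have key : ∀ (i : Fin 2) (a b : ℚ), (V * g.2) i 0 * a + (V * g.2) i 1 * b =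
      g.2 i 0 * ((A * a + B * (Θ 0 0 * a + Θ 0 1 * b) : ℚ) : ℚ_[p]) +
        g.2 i 1 * ((A * b + B * (Θ 1 0 * a + Θ 1 1 * b) : ℚ) : ℚ_[p]) := by
    intro i a b
    obtain ⟨h1, h2⟩ := frame_ph_inj _ ((hW a b).symm.trans (vla_th h A B a b))
    rw [hV, vla_two, h1, h2]
  rw [← Matrix.SpecialLinearGroup.coe_mul]
  ext i j
  have k0 := key i 1 0
  have k1 := key i 0 1
  push_cast at k0 k1
  simp only [Matrix.add_apply, Matrix.smul_apply, smul_eq_mul]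
  rw [Matrix.mul_apply (M := (g.2 : Matrix (Fin 2) (Fin 2) ℚ_[p])), Fin.sum_univ_two,
    Matrix.map_apply, Matrix.map_apply]
  fin_cases j
  · simp only [Fin.zero_eta]
    linear_combination k0
  · simp only [Fin.mk_one]
    linear_combination k1

end Pool.Agent.EQ
end
end
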