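import Pool.Agent.K.MP_ad7a55_nt.C50

/-! A finer labelling or large intersections. -/

set_option autoImplicit false

noncomputable section

open Finset Matrix
open scoped MatrixGroups Classical

namespace Pool.Agent.EQ

theorem yge_swap {α β : Type} (O : Finset α) (W : Finset β) (p : α → β → Prop) :
    mn O (fun x => prb W (p x)) = mn W fun w => prb O fun x => p x w := by
  simp only [pb_eq]
  exact mn_swap O W fun x w => if p x w then 1 else 0

theorem yge_cs {α β γ : Type} (O : Finset α) (B : Finset β) {U : Finset γ} (hU : U.Nonempty)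
    (hit : α → β → γ → Prop) {a : ℝ} (ha : 0 ≤ a)
    (h : ∀ b ∈ U, a ≤ mn O fun x => prb B fun q => hit x q b) :
    a ^ 2 ≤ mn (O ×ˢ U ×ˢ U) fun w => prb B fun q => hit w.1 q w.2.1 ∧ hit w.1 q w.2.2 := by
  have h1 : a ≤ mn (O ×ˢ B) fun s => prb U (hit s.1 s.2) := by
    rw [mn_prod]
    have e : (fun x => mn B fun q => prb U (hit x q)) =
        fun x => mn U fun b => prb B fun q => hit x q b := funext fun x => yge_swap B U (hit x)
    rw [e, mn_swap, ← mn_const hU a]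
    exact mn_mono h
  refine le_trans (pow_le_pow_left₀ ha h1 2) (le_trans (sq_mn_le _ _) (le_of_eq ?_))
  rw [mn_prod, mn_prod]
  refine congrArg _ (funext fun x => ?_)
  simp only [sq_prb]
  exact yge_swap B (U ×ˢ U) fun q z => hit x q z.1 ∧ hit x q z.2

theorem yge_ex {β : Type} {B : Finset β} {p : β → Prop} {t : ℝ} (ht : 0 < t) (h : t ≤ prb B p) :
    ∃ q ∈ B, p q := by
  by_contra hc
  have : ({q ∈ B | p q} : Finset β) = ∅ :=
    filter_eq_empty_iff.2 fun q hq hp => hc ⟨q, hq, hp⟩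
  unfold prb at h
  rw [this, card_empty, Nat.cast_zero, zero_div] at h
  linarith

theorem yge_card {α : Type} {O : Finset α} (hO : O.Nonempty) {p : α → Prop} [DecidablePred p]
    {t : ℝ} (h : t ≤ prb O p) : t * #O ≤ #({x ∈ O | p x} : Finset α) := by
  unfold prb at h
  rw [le_div_iff₀ (by exact_mod_cast hO.card_pos)] at h
  refine le_trans h (Nat.cast_le.2 (card_le_card fun x hx => ?_))
  exact mem_filter.2 ((@mem_filter _ _ (_) _ _).1 hx)

theorem yge_img {q : ℕ} {η η' : M2} {L : Set V2} (h : IsLn q L) (hc : IsCoprime η.det q) :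
    img (η' * η.adjugate) (img η L) = img η' L := by
  have e : η.adjugate.adjugate = η := by
    ext i j
    fin_cases i <;> fin_cases j <;> simp [adjugate_fin_two]
  have e2 : img η.adjugate (img η L) = pl η (img η L) := by
    unfold img pl
    rw [e]
  rw [img_mul, e2, (pl_img h hc).1]

/-- The directions compatible with two labels. -/
def ygeI {ι Λ : Type} [Fintype ι] (R : Λ → ℕ → Finset (ι → Set V2))
    (a : Λ × Λ × (ι → M2) × (ι → M2)) (q : ℕ) : Finset (ι → Set V2) :=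
  {ξ ∈ YQ ι q | (fun k => img (a.2.2.1 k) (ξ k)) ∈ R a.1 q ∧
    (fun k => img (a.2.2.2 k) (ξ k)) ∈ R a.2.1 q}

theorem yge_le {ι Λ : Type} [Fintype ι] (R : Λ → ℕ → Finset (ι → Set V2))
    (a : Λ × Λ × (ι → M2) × (ι → M2)) {q : ℕ} (hq : 0 < q)
    (hc : ∀ k, IsCoprime (a.2.2.1 k).det q) :
    #(ygeI R a q) ≤ #({ξ ∈ R a.1 q |
      (fun k => img (a.2.2.2 k * (a.2.2.1 k).adjugate) (ξ k)) ∈ R a.2.1 q} :
        Finset (ι → Set V2)) := by
  have hl : ∀ ξ ∈ ygeI R a q, ∀ k, IsLn q (ξ k) := fun ξ hξ k =>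
    (mem_Xn hq).1 (Fintype.mem_piFinset.1 (mem_filter.1 hξ).1 k)
  refine card_le_card_of_injOn (fun ξ k => img (a.2.2.1 k) (ξ k)) (fun ξ hξ => ?_)
    fun ξ hξ ξ' hξ' e => ?_
  · have hξ' := mem_coe.1 hξ
    refine mem_coe.2 (mem_filter.2 ⟨(mem_filter.1 hξ').2.1, ?_⟩)
    have e : (fun k => img (a.2.2.2 k * (a.2.2.1 k).adjugate) (img (a.2.2.1 k) (ξ k))) =
        fun k => img (a.2.2.2 k) (ξ k) := funext fun k => yge_img (hl ξ hξ' k) (hc k)
    rw [e]
    exact (mem_filter.1 hξ').2.2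
  · funext k
    have e1 : img (a.2.2.1 k) (ξ k) = img (a.2.2.1 k) (ξ' k) := congrFun e k
    rw [← (pl_img (hl ξ hξ k) (hc k)).1, e1, (pl_img (hl ξ' hξ' k) (hc k)).1]

theorem RD.Ok6.dich {α ι γ δ : Type} [Fintype ι] [Nonempty ι] {d : RD α ι γ δ} {y p C₁ : ℕ}
    {H Λ δ₀ : ℝ} (h : d.Ok6 y p H Λ δ₀ C₁) (hH : 0 ≤ H) (hΛ : 0 < Λ) {L u : ℕ}
    {pr : Fin L → Fin u → ℕ} {B : Finset ℕ} (hG : d.Grp p pr B) (hB : B.Nonempty)
    {σ I I' θ : ℝ} (c : ℝ) (hθ : 0 < θ) (hδ : 2 * δ₀ ≤ θ) (hL : d.Lab B σ I θ)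
    (hI : Real.exp (2 * I) * ((2 * H * Real.sqrt ((2 * y) ^ L) + 1) ^ 4) ^ (2 * Fintype.card ι) ≤
      Real.exp I') :
    d.Lab B (σ - c) I' (θ ^ 4 / 16) ∨ ∃ V R R', d.Big pr B σ c (θ ^ 4 / 16)
      (θ ^ 4 / 32 * Real.exp (-(2 * I))) (32 * Fintype.card ι * Λ / θ ^ 4) V R R' := by
  obtain ⟨Λt, Ω, lb, R, h1, h2, h3, h4⟩ := hL
  have hO := h.ne
  have hOc : (0 : ℝ) < #d.O := by exact_mod_cast hO.card_pos
  have : Nonempty (Fin u) := ⟨⟨0, hG.pos⟩⟩
  have hU : (univ : Finset (Fin L → Fin u)).Nonempty := univ_nonempty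
  have hθ4 : 0 < θ ^ 4 / 16 := by positivity
  obtain ⟨hit, hhit⟩ : ∃ hit : α → ℕ → (Fin L → Fin u) → Prop, ∀ x q b, hit x q b ↔
      d.In x ∧ d.π (bs pr b) x ∈ Ω ∧
        d.dir q (d.π (bs pr b) x) ∈ R (lb (d.π (bs pr b) x)) q := ⟨_, fun _ _ _ => Iff.rfl⟩
  obtain ⟨lab, hlab⟩ : ∃ lab : α × (Fin L → Fin u) × (Fin L → Fin u) →
      Λt × Λt × (ι → M2) × (ι → M2), ∀ w, lab w = (lb (d.π (bs pr w.2.1) w.1),
        lb (d.π (bs pr w.2.2) w.1), d.η (bs pr w.2.1) w.1, d.η (bs pr w.2.2) w.1) :=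
    ⟨_, fun _ => rfl⟩
  have hA : ∀ b ∈ (univ : Finset (Fin L → Fin u)),
      θ ^ 2 / 2 ≤ mn d.O fun x => prb B fun q => hit x q b := by
    intro b _
    obtain ⟨b1, -, b3, -⟩ := hG.bs b
    have a1 : θ ≤ prb d.O fun x => d.π (bs pr b) x ∈ Ω := by
      rw [pb_perm (h.maps _ b1 b3) (h.inj _ b1 b3) fun x => x ∈ Ω]
      unfold prb
      rw [le_div_iff₀ hOc]
      refine le_trans h2 ?_
      refine Nat.cast_le.2 (card_le_card fun x hx => ?_)
      exact (@mem_filter _ _ (_) _ _).2 ⟨(h1 x hx).1, hx⟩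
    have a2 := pb_sub d.O (fun x => d.π (bs pr b) x ∈ Ω) fun x => ¬ d.In x
    have a3 := h.tight
    have a4 : θ * prb d.O (fun x => d.π (bs pr b) x ∈ Ω ∧ ¬ ¬ d.In x) ≤
        mn d.O fun x => prb B fun q => hit x q b := by
      rw [pb_eq d.O, ← mn_mul]
      refine mn_mono fun x _ => ?_
      split_ifs with hh
      · rw [mul_one]
        refine le_trans (h1 _ hh.1).2.2 (pb_mono fun q _ hq => ?_)
        exact (hhit x q b).2 ⟨not_not.1 hh.2, hh.1, hq⟩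
      · rw [mul_zero]
        exact pb_nonneg _ _
    have a5 : θ * (θ / 2) ≤ θ * prb d.O (fun x => d.π (bs pr b) x ∈ Ω ∧ ¬ ¬ d.In x) :=
      mul_le_mul_of_nonneg_left (by linarith) hθ.le
    nlinarith
  have hM := yge_cs d.O B hU hit (by positivity) hA
  have hsplit : mn (d.O ×ˢ (univ : Finset (Fin L → Fin u)) ×ˢ (univ : Finset (Fin L → Fin u)))
      (fun w => prb B fun q => hit w.1 q w.2.1 ∧ hit w.1 q w.2.2) ≤
      mn (d.O ×ˢ (univ : Finset (Fin L → Fin u)) ×ˢ (univ : Finset (Fin L → Fin u)))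
        (fun w => prb B fun q => (hit w.1 q w.2.1 ∧ hit w.1 q w.2.2) ∧
          (#(ygeI R (lab w) q) : ℝ) ≤ (q : ℝ) ^ (σ - c)) +
      mn (d.O ×ˢ (univ : Finset (Fin L → Fin u)) ×ˢ (univ : Finset (Fin L → Fin u)))
        (fun w => prb B fun q => (hit w.1 q w.2.1 ∧ hit w.1 q w.2.2) ∧
          (q : ℝ) ^ (σ - c) ≤ (#(ygeI R (lab w) q) : ℝ)) := by
    rw [← mn_add]
    refine mn_mono fun w _ => le_trans (pb_mono fun q _ hq => ?_) (pb_or _ _ _)
    rcases le_total (#(ygeI R (lab w) q) : ℝ) ((q : ℝ) ^ (σ - c)) with hh | hh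
    · exact Or.inl ⟨hq, hh⟩
    · exact Or.inr ⟨hq, hh⟩
  have hTc : (#(Ω.image lb) : ℝ) * #(Ω.image lb) ≤ Real.exp (2 * I) := by
    rw [two_mul, Real.exp_add]
    exact mul_le_mul h3 h3 (by positivity) (Real.exp_pos I).le
  by_cases hs : θ ^ 4 / 8 ≤
      mn (d.O ×ˢ (univ : Finset (Fin L → Fin u)) ×ˢ (univ : Finset (Fin L → Fin u)))
        (fun w => prb B fun q => (hit w.1 q w.2.1 ∧ hit w.1 q w.2.2) ∧
          (#(ygeI R (lab w) q) : ℝ) ≤ (q : ℝ) ^ (σ - c))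
  · left
    rw [mn_prod, mn_swap] at hs
    obtain ⟨z, -, hz⟩ := exists_mn_le (hU.product hU) fun z => mn d.O fun x =>
      prb B fun q => (hit x q z.1 ∧ hit x q z.2) ∧
          (#(ygeI R (lab (x, z)) q) : ℝ) ≤ (q : ℝ) ^ (σ - c)
    have hz2 := le_trans hs hz
    have hr := pb_rev (O := d.O) (G := fun x => prb B fun q => (hit x q z.1 ∧ hit x q z.2) ∧
      (#(ygeI R (lab (x, z)) q) : ℝ) ≤ (q : ℝ) ^ (σ - c)) one_pos (fun x _ => pb_le_one _ _)
      hθ4.le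
    obtain ⟨b1, b2, b3, b4⟩ := hG.bs z.1
    obtain ⟨c1, c2, c3, c4⟩ := hG.bs z.2
    refine ⟨Λt × Λt × (ι → M2) × (ι → M2), {x ∈ d.O | θ ^ 4 / 16 ≤ prb B fun q =>
      (hit x q z.1 ∧ hit x q z.2) ∧ (#(ygeI R (lab (x, z)) q) : ℝ) ≤ (q : ℝ) ^ (σ - c)},
      fun x => lab (x, z),
      fun a q => if (#(ygeI R a q) : ℝ) ≤ (q : ℝ) ^ (σ - c) then ygeI R a q else ∅,
      fun x hx => ?_, yge_card hO ?_, ?_, fun a q _ => ?_⟩
    · obtain ⟨hx1, hx2⟩ := mem_filter.1 hx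
      obtain ⟨q0, -, hq0⟩ := yge_ex hθ4 hx2
      refine ⟨hx1, ((hhit _ _ _).1 hq0.1.1).1, le_trans hx2 (pb_mono fun q hq hh => ?_)⟩
      beta_reduce
      rw [if_pos hh.2]
      have hqP := hG.sub hq
      have m1 := ((hhit _ _ _).1 hh.1.1).2.2
      have m2 := ((hhit _ _ _).1 hh.1.2).2.2
      rw [h.dir_move b1 b3 hx1 hqP fun hb => disjoint_left.1 b4 hb hq] at m1
      rw [h.dir_move c1 c3 hx1 hqP fun hb => disjoint_left.1 c4 hb hq] at m2
      rw [hlab]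
      exact mem_filter.2 ⟨h.dir_mem hqP hx1, m1, m2⟩
    · rw [div_one] at hr
      linarith
    · have e1 := h.card_eta hH b1 b3
      have e2 := h.card_eta hH c1 c3
      rw [b2] at e1
      rw [c2] at e2
      refine le_trans ?_ hI
      have hsub : image (fun x => lab (x, z)) ({x ∈ d.O | θ ^ 4 / 16 ≤ prb B fun q =>
          (hit x q z.1 ∧ hit x q z.2) ∧ (#(ygeI R (lab (x, z)) q) : ℝ) ≤ (q : ℝ) ^ (σ - c)}) ⊆
          Ω.image lb ×ˢ Ω.image lb ×ˢ ({x ∈ d.O | d.Gd (bs pr z.1) x}).image (d.η (bs pr z.1)) ×ˢ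
            ({x ∈ d.O | d.Gd (bs pr z.2) x}).image (d.η (bs pr z.2)) := by
        intro a ha
        obtain ⟨x, hx, rfl⟩ := mem_image.1 ha
        obtain ⟨hx1, hx2⟩ := mem_filter.1 hx
        obtain ⟨q0, -, hq0⟩ := yge_ex hθ4 hx2
        have m1 := (hhit _ _ _).1 hq0.1.1
        have m2 := (hhit _ _ _).1 hq0.1.2
        rw [hlab]
        exact mem_product.2 ⟨mem_image_of_mem _ m1.2.1, mem_product.2 ⟨mem_image_of_mem _ m2.2.1,
          mem_product.2 ⟨mem_image_of_mem _ (mem_filter.2 ⟨hx1, m1.1, (h1 _ m1.2.1).2.1⟩),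
            mem_image_of_mem _ (mem_filter.2 ⟨hx1, m2.1, (h1 _ m2.2.1).2.1⟩)⟩⟩⟩
      refine le_trans (Nat.cast_le.2 (card_le_card hsub)) ?_
      rw [card_product, card_product, card_product, two_mul (Fintype.card ι), pow_add]
      push_cast
      rw [← mul_assoc]
      exact mul_le_mul hTc (mul_le_mul e1 e2 (by positivity) (by positivity)) (by positivity)
        (Real.exp_pos _).le
    · beta_reduce
      split_ifs with hh
      · exact ⟨filter_subset _ _, hh⟩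
      · refine ⟨empty_subset _, ?_⟩
        rw [card_empty, Nat.cast_zero]
        positivity
  · right
    have hm : (0 : ℝ) < Fintype.card ι := by exact_mod_cast Fintype.card_pos
    have ht : 0 < 32 * Fintype.card ι * Λ / θ ^ 4 := by positivity
    obtain ⟨T, hT⟩ : ∃ T, T =
      d.O ×ˢ (univ : Finset (Fin L → Fin u)) ×ˢ (univ : Finset (Fin L → Fin u)) := ⟨_, rfl⟩
    have hTn : T.Nonempty := hT ▸ hO.product (hU.product hU)
    obtain ⟨at', hat⟩ : ∃ at' : ι → α × (Fin L → Fin u) × (Fin L → Fin u) → Prop, ∀ k w, at' k w ↔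
        d.G2 (bs pr w.2.1) (bs pr w.2.2) w.1 ∧ 32 * Fintype.card ι * Λ / θ ^ 4 /
          (∏ l ∈ symmDiff (bs pr w.2.1) (bs pr w.2.2), l : ℕ) <
          prb d.O fun x' => d.G2 (bs pr w.2.1) (bs pr w.2.2) x' ∧
            d.gm (bs pr w.2.1) (bs pr w.2.2) x' k = d.gm (bs pr w.2.1) (bs pr w.2.2) w.1 k :=
      ⟨_, fun _ _ => Iff.rfl⟩
    have hat1 : ∀ k ∈ (univ : Finset ι),
        prb T (at' k) ≤ Λ / (32 * Fintype.card ι * Λ / θ ^ 4) := by
      intro k _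
      rw [hT, prb_prod, yge_swap, ← mn_const (hU.product hU) (Λ / _)]
      refine mn_mono fun z _ => ?_
      obtain ⟨b1, -, b3, -⟩ := hG.bs z.1
      obtain ⟨c1, -, c3, -⟩ := hG.bs z.2
      exact le_trans (pb_mono fun x _ hx => (hat k (x, z)).1 hx) (h.not_typ b1 b3 c1 c3 k ht)
    have hat2 : prb T (fun w => ∃ k ∈ (univ : Finset ι), at' k w) ≤ θ ^ 4 / 32 := by
      refine le_trans (pb_exists _ _ _) (le_trans (sum_le_sum hat1) (le_of_eq ?_))
      rw [sum_const, card_univ, nsmul_eq_mul]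
      field_simp
    rw [← hT] at hs hsplit hM
    have hr := pb_rev (O := T) (G := fun w => prb B fun q =>
      (hit w.1 q w.2.1 ∧ hit w.1 q w.2.2) ∧ (q : ℝ) ^ (σ - c) ≤ (#(ygeI R (lab w) q) : ℝ))
      one_pos (fun x _ => pb_le_one _ _) hθ4.le
    have hsb := pb_sub T (fun w => θ ^ 4 / 16 ≤ prb B fun q =>
      (hit w.1 q w.2.1 ∧ hit w.1 q w.2.2) ∧ (q : ℝ) ^ (σ - c) ≤ (#(ygeI R (lab w) q) : ℝ))
      fun w => ∃ k ∈ (univ : Finset ι), at' k w
    rw [div_one] at hr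
    have hV1 := yge_card hTn (t := θ ^ 4 / 32) (le_trans (by nlinarith [not_le.1 hs]) hsb)
    obtain ⟨V, hV⟩ : ∃ V, V = ({w ∈ T | (θ ^ 4 / 16 ≤ prb B fun q =>
      (hit w.1 q w.2.1 ∧ hit w.1 q w.2.2) ∧ (q : ℝ) ^ (σ - c) ≤ (#(ygeI R (lab w) q) : ℝ)) ∧
      ¬ ∃ k ∈ (univ : Finset ι), at' k w} :
        Finset (α × (Fin L → Fin u) × (Fin L → Fin u))) := ⟨_, rfl⟩
    have hV1' : θ ^ 4 / 32 * #T ≤ #V := by
      rw [hV]
      exact hV1
    have hVm : ∀ w ∈ V, w.1 ∈ d.O ∧ d.In w.1 ∧ d.π (bs pr w.2.1) w.1 ∈ Ω ∧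
        d.π (bs pr w.2.2) w.1 ∈ Ω ∧ (θ ^ 4 / 16 ≤ prb B fun q =>
          (q : ℝ) ^ (σ - c) ≤ (#(ygeI R (lab w) q) : ℝ)) ∧ ∀ k, ¬ at' k w := by
      intro w hw
      rw [hV] at hw
      obtain ⟨w1, w2, w3⟩ := mem_filter.1 hw
      obtain ⟨q0, -, hq0⟩ := yge_ex hθ4 w2
      have m1 := (hhit _ _ _).1 hq0.1.1
      have m2 := (hhit _ _ _).1 hq0.1.2
      rw [hT] at w1
      exact ⟨(mem_product.1 w1).1, m1.1, m1.2.1, m2.2.1,
        le_trans w2 (pb_mono fun q _ hq => hq.2), fun k hk => w3 ⟨k, mem_univ k, hk⟩⟩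
    have hTp : (0 : ℝ) < #T := by exact_mod_cast hTn.card_pos
    have hVn : V.Nonempty := by
      rw [← card_pos, ← Nat.cast_pos (α := ℝ)]
      exact lt_of_lt_of_le (by positivity) hV1'
    obtain ⟨a, -, ha⟩ := big_fibre hVn (fun w => ((lab w).1, (lab w).2.1))
      (Ω.image lb ×ˢ Ω.image lb) fun w hw => by
        rw [hlab]
        exact mem_product.2 ⟨mem_image_of_mem _ (hVm w hw).2.2.1,
          mem_image_of_mem _ (hVm w hw).2.2.2.1⟩
    have hG2 : ∀ w ∈ V, d.G2 (bs pr w.2.1) (bs pr w.2.2) w.1 := fun w hw =>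
      ⟨(hVm w hw).2.1, (h1 _ (hVm w hw).2.2.1).2.1, (h1 _ (hVm w hw).2.2.2.1).2.1⟩
    refine ⟨{w ∈ V | ((lab w).1, (lab w).2.1) = a}, R a.1, R a.2,
      fun w hw => ⟨(hVm w (mem_filter.1 hw).1).1, hG2 w (mem_filter.1 hw).1⟩, ?_,
      fun w hw k => ?_, fun q hq => ⟨(h4 _ q hq).1, (h4 _ q hq).1, (h4 _ q hq).2, (h4 _ q hq).2⟩,
      fun w hw => ?_⟩
    · have ha' : (#V : ℝ) ≤ Real.exp (2 * I) *
          #({w ∈ V | ((lab w).1, (lab w).2.1) = a} :
            Finset (α × (Fin L → Fin u) × (Fin L → Fin u))) := by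
        refine le_trans (Nat.cast_le.2 ha) ?_
        rw [card_product]
        push_cast
        refine mul_le_mul hTc (Nat.cast_le.2 (card_le_card fun w hw => ?_)) (Nat.cast_nonneg _)
          (Real.exp_pos _).le
        exact mem_filter.2 ((@mem_filter _ _ (_) _ _).1 hw)
      have hc : (#T : ℝ) = #d.O * (u : ℝ) ^ L * (u : ℝ) ^ L := by
        rw [hT, card_product, card_product, card_univ, Fintype.card_fun, Fintype.card_fin,
          Fintype.card_fin]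
        push_cast
        ring
      have he : Real.exp (-(2 * I)) * Real.exp (2 * I) = 1 := by
        rw [← Real.exp_add, neg_add_cancel, Real.exp_zero]
      have h5 := mul_le_mul_of_nonneg_left (le_trans hV1' ha') (Real.exp_pos (-(2 * I))).le
      rw [← mul_assoc _ (Real.exp (2 * I)), he, one_mul, hc] at h5
      refine le_trans (le_of_eq ?_) h5
      ring
    · have hw1 := (mem_filter.1 hw).1
      have := (hVm w hw1).2.2.2.2.2 k
      rw [hat] at this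
      exact not_lt.1 fun hh => this ⟨hG2 w hw1, hh⟩
    · obtain ⟨hw1, hw2⟩ := mem_filter.1 hw
      obtain ⟨b1, -, b3, b4⟩ := hG.bs w.2.1
      refine le_trans (hVm w hw1).2.2.2.2.1 (pb_mono fun q hq hh => le_trans hh ?_)
      have hqp := (h.prime q (hG.sub hq)).1
      have hle := yge_le R (lab w) hqp.pos fun k => by
        rw [hlab]
        show IsCoprime (d.η (bs pr w.2.1) w.1 k).det q
        rw [h.det _ b1 b3 _ (hVm w hw1).1 k, Nat.isCoprime_iff_coprime]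
        refine Nat.Coprime.prod_left fun l hl => ?_
        refine (Nat.coprime_primes (h.prime l (b1 hl)).1 hqp).2 ?_
        rintro rfl
        exact disjoint_left.1 b4 hl hq
      rw [← hw2]
      refine Nat.cast_le.2 (le_trans hle (le_of_eq ?_))
      rw [hlab]
      rfl

end Pool.Agent.EQ
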