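import Pool.Agent.K.MP_ad7a55_nt.C50
import Pool.Agent.K.MP_ad7a55_nt.C8
import Pool.Agent.K.MP_ad7a55_nt.C28
import Pool.Agent.K.MP_ad7a55_nt.C22

-- part Pool.Agent.P.MP_ad7a55_nt.YGf
section

/-! The marginals are light. -/

set_option autoImplicit false

noncomputable section

open Finset Matrix
open scoped MatrixGroups Classical

namespace Pool.Agent.EQ

theorem ygf_ndvd {q : ℕ} (hq : q.Prime) {S : Finset ℕ} (hS : ∀ l ∈ S, l.Prime) (h : q ∉ S) :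
    ¬ q ∣ ∏ l ∈ S, l := by
  intro k
  obtain ⟨l, hl, e⟩ := (hq.prime.dvd_finsetProd_iff _).1 k
  exact h (((Nat.prime_dvd_prime_iff_eq hq (hS l hl)).1 e) ▸ hl)

theorem ygf_Pj {q : ℕ} (hq : q.Prime) {m : ℕ} (hm : ¬ q ∣ m) (g : M2) :
    Pj q ((m : ℤ) • g) = Pj q g := by
  have := Fact.mk hq
  have h1 : ((m : ℕ) : ZMod q) ≠ 0 := by rwa [Ne, ZMod.natCast_eq_zero_iff]
  have h2 : xgbM q ((m : ℤ) • g) = ((m : ℕ) : ZMod q) • xgbM q g := by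
    ext i j
    rw [Matrix.smul_apply, xgb_Mapp, xgb_Mapp, Matrix.smul_apply, smul_eq_mul, smul_eq_mul,
      Int.cast_mul, Int.cast_natCast]
  rw [xgb_Pjeq h1 h2, xgb_Pjeq (q := q) one_ne_zero (M := xgbM q g) (one_smul _ _).symm]

theorem ygf_mem {L u : ℕ} {pr : Fin L → Fin u → ℕ}
    (hi : Function.Injective fun z : Fin L × Fin u => pr z.1 z.2) (b : Fin L → Fin u)
    (g : Fin L) (i : Fin u) : pr g i ∈ bs pr b ↔ b g = i := by
  constructor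
  · intro k
    obtain ⟨g', -, e⟩ := mem_image.1 k
    have e1 : (g', b g') = (g, i) := hi e
    obtain rfl : g' = g := congrArg Prod.fst e1
    exact congrArg Prod.snd e1
  · rintro rfl
    exact mem_image_of_mem _ (mem_univ g)

theorem ygf_two {L u : ℕ} {pr : Fin L → Fin u → ℕ}
    (hi : Function.Injective fun z : Fin L × Fin u => pr z.1 z.2) (a b c e : Fin L → Fin u)
    (I : Finset (Fin L))
    (hI : ∀ g ∈ I, a g ≠ b g ∧ c g ≠ a g ∧ e g ≠ a g ∧ c g ≠ b g ∧ e g ≠ b g) :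
    2 * #I ≤ #(symmDiff (bs pr a) (bs pr b) \ symmDiff (bs pr c) (bs pr e)) := by
  have k : #((univ : Finset Bool) ×ˢ I) ≤
      #(symmDiff (bs pr a) (bs pr b) \ symmDiff (bs pr c) (bs pr e)) := by
    refine card_le_card_of_injOn (fun z => pr z.2 (cond z.1 (a z.2) (b z.2))) (fun z hz => ?_)
      fun z hz z' _ hh => ?_
    · obtain ⟨s, g⟩ := z
      obtain ⟨h1, h2, h3, h4, h5⟩ := hI g (mem_product.1 (mem_coe.1 hz)).2
      have h6 := h1.symm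
      cases s <;>
        simp only [mem_coe, mem_sdiff, Finset.mem_symmDiff, ygf_mem hi, cond_true, cond_false] <;>
        tauto
    · obtain ⟨s, g⟩ := z
      obtain ⟨s', g'⟩ := z'
      have e1 : (g, cond s (a g) (b g)) = (g', cond s' (a g') (b g')) := hi hh
      obtain rfl : g = g' := congrArg Prod.fst e1
      have e2 : cond s (a g) (b g) = cond s' (a g) (b g) := congrArg Prod.snd e1
      have h1 := (hI g (mem_product.1 (mem_coe.1 hz)).2).1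
      cases s <;> cases s'
      · rfl
      · exact absurd e2.symm h1
      · exact absurd e2 h1
      · rfl
  rwa [card_product, card_univ, Fintype.card_bool] at k

theorem ygf_sd {β β' : Finset ℕ} : symmDiff β β' ⊆ β ∪ β' := by
  intro l hl
  rw [Finset.mem_symmDiff] at hl
  rw [mem_union]
  tauto

theorem ygf_side {α ι γ δ : Type} [Fintype ι] {d : RD α ι γ δ} {y p C₁ : ℕ}
    {H Λ δ₀ : ℝ} (h : d.Ok6 y p H Λ δ₀ C₁) {β β' : Finset ℕ} (hβ : β ⊆ d.P) (hp : #β ≤ p)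
    (hβ' : β' ⊆ d.P) (hp' : #β' ≤ p) (k : ι) {t : ℝ} (ht : 0 ≤ t) :
    ∃ g : α → M2, (∀ x ∈ d.O, d.G2 β β' x → (g x).det = (∏ l ∈ symmDiff β β', l : ℕ) ∧
      (∀ i j, |(g x i j : ℝ)| ≤ 2 * H ^ 2 * Real.sqrt (∏ l ∈ symmDiff β β', l : ℕ)) ∧
      ∀ q : ℕ, q.Prime → q ∉ β → Pj q (d.gm β β' x k) = Pj q (g x)) ∧
      ∀ (g₀ : M2) (A : Finset α), (∀ x ∈ A, x ∈ d.O ∧ d.G2 β β' x ∧ g x = g₀ ∧
        prb d.O (fun x' => d.G2 β β' x' ∧ d.gm β β' x' k = d.gm β β' x k) ≤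
          t / (∏ l ∈ symmDiff β β', l : ℕ)) →
        (#A : ℝ) ≤ t / (∏ l ∈ symmDiff β β', l : ℕ) * #d.O := by
  have h0 : ∀ x, ∃ g : M2, x ∈ d.O → d.G2 β β' x →
      d.gm β β' x k = ((∏ l ∈ β ∩ β', l : ℕ) : ℤ) • g ∧
      g.det = (∏ l ∈ symmDiff β β', l : ℕ) ∧
      ∀ i j, |(g i j : ℝ)| ≤ 2 * H ^ 2 * Real.sqrt (∏ l ∈ symmDiff β β', l : ℕ) := by
    intro x
    by_cases hx : x ∈ d.O ∧ d.G2 β β' x
    · obtain ⟨g, hg⟩ := (h.gm_div hβ hp hβ' hp' hx.1 hx.2 k).2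
      exact ⟨g, fun _ _ => hg⟩
    · exact ⟨0, fun a b => absurd ⟨a, b⟩ hx⟩
  choose g hg using h0
  refine ⟨g, fun x hx hG => ⟨(hg x hx hG).2.1, (hg x hx hG).2.2, fun q hq hq' => ?_⟩,
    fun g₀ A hA => ?_⟩
  · rw [(hg x hx hG).1]
    exact ygf_Pj hq (ygf_ndvd hq (fun l hl => (h.prime l (hβ (mem_inter.1 hl).1)).1)
      fun hl => hq' (mem_inter.1 hl).1) _
  · rcases A.eq_empty_or_nonempty with rfl | ⟨x₀, hx₀⟩
    · rw [card_empty, Nat.cast_zero]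
      positivity
    obtain ⟨a1, a2, a3, a4⟩ := hA x₀ hx₀
    have hO : (0 : ℝ) < #d.O := by exact_mod_cast h.ne.card_pos
    unfold prb at a4
    rw [div_le_iff₀ hO] at a4
    refine le_trans (Nat.cast_le.2 (card_le_card fun x hx => ?_)) a4
    obtain ⟨b1, b2, b3, -⟩ := hA x hx
    simp only [mem_filter]
    refine ⟨b1, b2, ?_⟩
    rw [(hg x b1 b2).1, (hg x₀ a1 a2).1, a3, b3]

theorem ygf_good {α ι γ δ : Type} [Fintype ι] {d : RD α ι γ δ} {y p C₁ : ℕ}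
    {H Λ δ₀ : ℝ} (h : d.Ok6 y p H Λ δ₀ C₁) (hy : 2 ≤ y) {L : ℕ} {β₁ β₁' β₂ β₂' E : Finset ℕ}
    (a1 : β₁ ⊆ d.P ∧ #β₁ = L ∧ #β₁ ≤ p) (a2 : β₁' ⊆ d.P ∧ #β₁' = L ∧ #β₁' ≤ p)
    (a3 : β₂ ⊆ d.P ∧ #β₂ = L ∧ #β₂ ≤ p) (a4 : β₂' ⊆ d.P ∧ #β₂' = L ∧ #β₂' ≤ p)
    (hE : ∀ q ∈ E, q ∈ d.P ∧ q ∉ β₁ ∧ q ∉ β₁' ∧ q ∉ β₂ ∧ q ∉ β₂')
    (hQ : (∏ q ∈ E, q) ^ 4 ≤ (∏ l ∈ symmDiff β₁ β₁' \ symmDiff β₂ β₂', l) *
      ∏ l ∈ symmDiff β₂ β₂' \ symmDiff β₁ β₁', l)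
    {t ε C : ℝ} (ht : 0 ≤ t) (hε : 0 ≤ ε) (hC : 0 ≤ C) (hCT : CT6 (2 * H ^ 2) ε C) (k : ι)
    (S : Finset (α × α))
    (hS : ∀ z ∈ S, (z.1 ∈ d.O ∧ d.G2 β₁ β₁' z.1 ∧
        prb d.O (fun x' => d.G2 β₁ β₁' x' ∧ d.gm β₁ β₁' x' k = d.gm β₁ β₁' z.1 k) ≤
          t / (∏ l ∈ symmDiff β₁ β₁', l : ℕ)) ∧ (z.2 ∈ d.O ∧ d.G2 β₂ β₂' z.2 ∧
        prb d.O (fun x' => d.G2 β₂ β₂' x' ∧ d.gm β₂ β₂' x' k = d.gm β₂ β₂' z.2 k) ≤
          t / (∏ l ∈ symmDiff β₂ β₂', l : ℕ)) ∧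
        ∀ q ∈ E, Pj q (d.gm β₁ β₁' z.1 k) = Pj q (d.gm β₂ β₂' z.2 k)) :
    ((∏ q ∈ E, q : ℕ) : ℝ) ^ 3 * #S ≤
      t ^ 2 * C * 2 ^ #E * 4 ^ (2 * L) * (2 * y : ℝ) ^ (4 * L * ε) * (#d.O : ℝ) ^ 2 := by
  obtain ⟨g, hg, hg'⟩ := ygf_side h a1.1 a1.2.2 a2.1 a2.2.2 k ht
  obtain ⟨f, hf, hf'⟩ := ygf_side h a3.1 a3.2.2 a4.1 a4.2.2 k ht
  have s1 : symmDiff β₁ β₁' ⊆ d.P := ygf_sd.trans (union_subset a1.1 a2.1)
  have s2 : symmDiff β₂ β₂' ⊆ d.P := ygf_sd.trans (union_subset a3.1 a4.1)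
  have c1 : #(symmDiff β₁ β₁') ≤ 2 * L :=
    (card_le_card ygf_sd).trans ((card_union_le _ _).trans (by omega))
  have c2 : #(symmDiff β₂ β₂') ≤ 2 * L :=
    (card_le_card ygf_sd).trans ((card_union_le _ _).trans (by omega))
  have n1 : ∀ q ∈ E, q ∉ symmDiff β₁ β₁' ∪ symmDiff β₂ β₂' := fun q hq hh => by
    obtain ⟨-, b1, b2, b3, b4⟩ := hE q hq
    rcases mem_union.1 hh with hh | hh <;> rcases mem_union.1 (ygf_sd hh) with hh | hh
    exacts [b1 hh, b2 hh, b3 hh, b4 hh]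
  generalize symmDiff β₁ β₁' = Δ at *
  generalize symmDiff β₂ β₂' = Δ' at *
  have bd : ∀ D : Finset ℕ, D ⊆ d.P → #D ≤ 2 * L → (0 : ℝ) < (∏ l ∈ D, l : ℕ) ∧
      ((∏ l ∈ D, l : ℕ) : ℝ) ≤ (2 * y : ℝ) ^ (2 * L) := fun D hD hc => by
    refine ⟨Nat.cast_pos.2 (prod_pos fun l hl => (h.prime l (hD hl)).1.pos), ?_⟩
    have e1 : ∏ l ∈ D, l ≤ (2 * y) ^ #D :=
      prod_le_pow_card _ _ _ fun l hl => (h.prime l (hD hl)).2.2
    have e2 : (2 * y) ^ #D ≤ (2 * y) ^ (2 * L) := Nat.pow_le_pow_right (by omega) hc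
    exact_mod_cast e1.trans e2
  obtain ⟨p1, q1⟩ := bd Δ s1 c1
  obtain ⟨p2, q2⟩ := bd Δ' s2 c2
  have hQ0 : (0 : ℝ) < (∏ q ∈ E, q : ℕ) :=
    Nat.cast_pos.2 (prod_pos fun q hq => (h.prime q (hE q hq).1).1.pos)
  have hT := hCT Δ Δ' E (S.image fun z => (g z.1, f z.2))
    (fun l hl => (h.prime l (union_subset s1 s2 hl)).1)
    (fun q hq => ⟨(h.prime q (hE q hq).1).1, by have := (h.prime q (hE q hq).1).2.1; omega,
      n1 q hq⟩) hQ (by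
      intro w hw
      obtain ⟨z, hz, rfl⟩ := mem_image.1 hw
      obtain ⟨⟨b1, b2, -⟩, ⟨b3, b4, -⟩, b5⟩ := hS z hz
      obtain ⟨e1, e2, e3⟩ := hg z.1 b1 b2
      obtain ⟨e4, e5, e6⟩ := hf z.2 b3 b4
      refine ⟨e1, e4, e2, e5, fun q hq => ?_⟩
      have hq' := (h.prime q (hE q hq).1).1
      rw [← e3 q hq' (hE q hq).2.1, ← e6 q hq' (hE q hq).2.2.2.1]
      exact b5 q hq)
  have hF := xgf_fib S (S.image fun z => (g z.1, f z.2)) (fun z => (g z.1, f z.2))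
    (A := (t / (∏ l ∈ Δ, l : ℕ) * #d.O) * (t / (∏ l ∈ Δ', l : ℕ) * #d.O))
    (fun z hz => mem_image_of_mem _ hz) (fun w _ => by
      set F := {z ∈ S | (g z.1, f z.2) = w} with hFd
      have e1 : #F ≤ #(F.image Prod.fst ×ˢ F.image Prod.snd) :=
        card_le_card fun z hz => mem_product.2 ⟨mem_image_of_mem _ hz, mem_image_of_mem _ hz⟩
      rw [card_product] at e1
      have e2 := hg' w.1 (F.image Prod.fst) fun x hx => by
        obtain ⟨z, hz, rfl⟩ := mem_image.1 hx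
        obtain ⟨m1, m2⟩ := mem_filter.1 hz
        obtain ⟨⟨b1, b2, b3⟩, -, -⟩ := hS z m1
        exact ⟨b1, b2, congrArg Prod.fst m2, b3⟩
      have e3 := hf' w.2 (F.image Prod.snd) fun x hx => by
        obtain ⟨z, hz, rfl⟩ := mem_image.1 hx
        obtain ⟨m1, m2⟩ := mem_filter.1 hz
        obtain ⟨-, ⟨b1, b2, b3⟩, -⟩ := hS z m1
        exact ⟨b1, b2, congrArg Prod.snd m2, b3⟩
      refine le_trans ?_ (mul_le_mul e2 e3 (Nat.cast_nonneg _) ((Nat.cast_nonneg _).trans e2))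
      exact_mod_cast e1)
  generalize ((∏ l ∈ Δ, l : ℕ) : ℝ) = a at *
  generalize ((∏ l ∈ Δ', l : ℕ) : ℝ) = b at *
  generalize ((∏ q ∈ E, q : ℕ) : ℝ) = Q at *
  have hy0 : (0 : ℝ) < 2 * y := by
    have : (2 : ℝ) ≤ y := by exact_mod_cast hy
    linarith
  have r1 : (a * b) ^ (1 + ε) = a * b * (a * b) ^ ε := by
    rw [Real.rpow_add (mul_pos p1 p2), Real.rpow_one]
  have r2 : (a * b) ^ ε ≤ (2 * y : ℝ) ^ (4 * L * ε) := by
    have e1 : a * b ≤ (2 * y : ℝ) ^ (4 * L : ℝ) := by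
      have e2 : (2 * y : ℝ) ^ (4 * L : ℝ) = (2 * y : ℝ) ^ (2 * L) * (2 * y : ℝ) ^ (2 * L) := by
        rw [← pow_add, ← Real.rpow_natCast]
        congr 1
        push_cast
        ring
      rw [e2]
      exact mul_le_mul q1 q2 p2.le (p1.le.trans q1)
    rw [Real.rpow_mul hy0.le]
    exact Real.rpow_le_rpow (mul_pos p1 p2).le e1 hε
  have r3 : (4 : ℝ) ^ #Δ ≤ 4 ^ (2 * L) := pow_le_pow_right₀ (by norm_num) c1
  have r4 : (#S : ℝ) ≤ (t / a * #d.O) * (t / b * #d.O) *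
      (C * 2 ^ #E * 4 ^ #Δ * (a * b) ^ (1 + ε) / Q ^ 3) :=
    hF.trans (mul_le_mul_of_nonneg_left hT (by positivity))
  have r5 : Q ^ 3 * ((t / a * #d.O) * (t / b * #d.O) *
      (C * 2 ^ #E * 4 ^ #Δ * (a * b) ^ (1 + ε) / Q ^ 3)) =
      t ^ 2 * C * 2 ^ #E * 4 ^ #Δ * (a * b) ^ ε * (#d.O : ℝ) ^ 2 := by
    rw [r1]
    field_simp
  refine (mul_le_mul_of_nonneg_left r4 (by positivity)).trans (r5.le.trans ?_)
  have r6 : 0 ≤ (a * b) ^ ε := by positivity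
  gcongr

theorem RD.Big.marg {α ι γ δ : Type} [Fintype ι] {d : RD α ι γ δ} {y p C₁ : ℕ}
    {H Λ δ₀ : ℝ} (h : d.Ok6 y p H Λ δ₀ C₁) (hy : 2 ≤ y) {L u : ℕ} {pr : Fin L → Fin u → ℕ}
    {B : Finset ℕ} (hG : d.Grp p pr B) {σ c' s v t : ℝ}
    {V : Finset (α × (Fin L → Fin u) × (Fin L → Fin u))} {R R' : ℕ → Finset (ι → Set V2)}
    (hV : d.Big pr B σ c' s v t V R R') (hv : 0 < v) (ht : 0 ≤ t) {ε C φ c : ℝ} (hε : 0 ≤ ε)
    (hC : 0 ≤ C) (hCT : CT6 (2 * H ^ 2) ε C) (hφ : 0 ≤ φ) (hc : 0 ≤ c) (k : ι) {E : Finset ℕ}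
    (hE : E ⊆ B) (hu : 16 ≤ u) (h1 : (2 * y) ^ (4 * #E) ≤ y ^ (2 * L))
    (h2 : 2 ^ L * (16 / (u : ℝ)) ^ ((L : ℝ) / 2) * (2 * y) ^ (3 * #E) ≤ 1)
    (h3 : ∀ q ∈ E, φ ≤ prb V fun w => (q : ℝ) ^ (c - 3) < prb V fun w' =>
      Pj q (d.gm (bs pr w'.2.1) (bs pr w'.2.2) w'.1 k) =
        Pj q (d.gm (bs pr w.2.1) (bs pr w.2.2) w.1 k)) :
    Real.exp (φ * #E * (c * Real.log y) - #E) * v ^ 2 ≤
      t ^ 2 * C * 2 ^ #E * 4 ^ (2 * L) * (2 * y : ℝ) ^ (4 * L * ε) + 1 := by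
  have hO : (0 : ℝ) < #d.O := by exact_mod_cast h.ne.card_pos
  have hu0 : (0 : ℝ) < u := by exact_mod_cast hG.pos
  have hw0 : 0 < v * #d.O * (u : ℝ) ^ L * (u : ℝ) ^ L := by positivity
  have hne : V.Nonempty := card_pos.1 (Nat.cast_pos.1 (hw0.trans_le hV.card))
  have hP : ∀ q ∈ E, q.Prime ∧ y < q ∧ q ≤ 2 * y := fun q hq => h.prime q (hG.sub (hE hq))
  have hnb : ∀ q ∈ E, ∀ b, q ∉ bs pr b := fun q hq b hb =>
    disjoint_left.1 (hG.bs b).2.2.2 hb (hE hq)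
  have hq1 : ∀ q ∈ E, (1 : ℝ) ≤ q := fun q hq => by exact_mod_cast (hP q hq).1.one_le
  have hqc : ∀ q ∈ E, (q : ℝ) ^ 3 * (q : ℝ) ^ (c - 3) = (q : ℝ) ^ c := fun q hq => by
    have h0 : (0 : ℝ) < q := lt_of_lt_of_le one_pos (hq1 q hq)
    rw [← Real.rpow_natCast, ← Real.rpow_add h0]
    congr 1
    push_cast
    ring
  have key := collide (Λ := fun _ => Set M2) hne E
    (fun q w => Pj q (d.gm (bs pr w.2.1) (bs pr w.2.2) w.1 k)) (fun q => (q : ℝ) ^ 3)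
    (fun q => (q : ℝ) ^ (c - 3)) (fun _ => φ)
    (fun q hq => by
      have e1 := card_Pj (hP q hq).1
        (V.image fun w => d.gm (bs pr w.2.1) (bs pr w.2.2) w.1 k) fun ξ hξ => by
        obtain ⟨w, hw, rfl⟩ := mem_image.1 hξ
        obtain ⟨b1, -, b2, -⟩ := hG.bs w.2.1
        obtain ⟨b3, -, b4, -⟩ := hG.bs w.2.2
        rw [h.gm_det b1 b2 b3 b4 (hV.mem w hw).1 k, Int.natCast_dvd_natCast,
          (hP q hq).1.dvd_mul, not_or]
        exact ⟨ygf_ndvd (hP q hq).1 (fun l hl => (h.prime l (b1 hl)).1) (hnb q hq _),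
          ygf_ndvd (hP q hq).1 (fun l hl => (h.prime l (b3 hl)).1) (hnb q hq _)⟩
      rw [image_image] at e1
      exact_mod_cast e1)
    (fun q hq => ⟨Real.rpow_pos_of_pos (lt_of_lt_of_le one_pos (hq1 q hq)) _, by
      rw [hqc q hq]; exact Real.one_le_rpow (hq1 q hq) hc⟩) h3
  have hQ1 : ∏ q ∈ E, q ≤ (2 * y) ^ #E := prod_le_pow_card _ _ _ fun q hq => (hP q hq).2.2
  have hQ : (0 : ℝ) < ((∏ q ∈ E, q : ℕ) : ℝ) ^ 3 := by
    have : 0 < ∏ q ∈ E, q := prod_pos fun q hq => (hP q hq).1.pos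
    positivity
  have hQ2 : ((∏ q ∈ E, q : ℕ) : ℝ) ^ 3 ≤ (2 * y : ℝ) ^ (3 * #E) := by
    rw [mul_comm 3, pow_mul]
    refine pow_le_pow_left₀ (Nat.cast_nonneg _) ?_ 3
    exact_mod_cast hQ1
  have hlog : Real.log (((∏ q ∈ E, q : ℕ) : ℝ) ^ 3) = ∑ q ∈ E, Real.log ((q : ℝ) ^ 3) := by
    rw [Nat.cast_prod, ← prod_pow, Real.log_prod]
    intro q hq
    exact (pow_pos (lt_of_lt_of_le one_pos (hq1 q hq)) 3).ne'
  have hs1 : φ * #E * (c * Real.log y) ≤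
      ∑ q ∈ E, φ * Real.log ((q : ℝ) ^ 3 * (q : ℝ) ^ (c - 3)) := by
    have e1 : φ * #E * (c * Real.log y) = ∑ q ∈ E, φ * (c * Real.log y) := by
      rw [sum_const, nsmul_eq_mul]
      ring
    rw [e1]
    refine sum_le_sum fun q hq => mul_le_mul_of_nonneg_left ?_ hφ
    rw [hqc q hq, Real.log_rpow (lt_of_lt_of_le one_pos (hq1 q hq))]
    refine mul_le_mul_of_nonneg_left (Real.log_le_log ?_ ?_) hc
    · exact_mod_cast (by omega : 0 < y)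
    · exact_mod_cast (hP q hq).2.1.le
  have hexp : Real.exp (φ * #E * (c * Real.log y) - #E) ≤
      ((∏ q ∈ E, q : ℕ) : ℝ) ^ 3 * Real.exp (∑ q ∈ E, (φ *
        Real.log ((q : ℝ) ^ 3 * (q : ℝ) ^ (c - 3)) - Real.log ((q : ℝ) ^ 3) - 1)) := by
    rw [← Real.exp_log hQ, ← Real.exp_add, hlog, sum_sub_distrib, sum_sub_distrib, sum_const,
      nsmul_eq_mul, mul_one]
    exact Real.exp_le_exp.2 (by linarith)
  set m : ℝ := t ^ 2 * C * 2 ^ #E * 4 ^ (2 * L) * (2 * y : ℝ) ^ (4 * L * ε) with hm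
  have m0 : 0 ≤ m := by positivity
  obtain ⟨W, hW, hW'⟩ : ∃ W : Finset ((α × (Fin L → Fin u) × (Fin L → Fin u)) ×
      (α × (Fin L → Fin u) × (Fin L → Fin u))), (∀ z ∈ W, z.1 ∈ V ∧ z.2 ∈ V ∧ ∀ q ∈ E,
        Pj q (d.gm (bs pr z.1.2.1) (bs pr z.1.2.2) z.1.1 k) =
          Pj q (d.gm (bs pr z.2.2.1) (bs pr z.2.2.2) z.2.1 k)) ∧
      Real.exp (∑ q ∈ E, (φ * Real.log ((q : ℝ) ^ 3 * (q : ℝ) ^ (c - 3)) -
        Real.log ((q : ℝ) ^ 3) - 1)) * (#V : ℝ) ^ 2 ≤ #W :=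
    ⟨_, fun z hz => ⟨(mem_product.1 (mem_filter.1 hz).1).1, (mem_product.1 (mem_filter.1 hz).1).2,
      (mem_filter.1 hz).2⟩, key⟩
  clear key
  let F : (α × (Fin L → Fin u) × (Fin L → Fin u)) × (α × (Fin L → Fin u) × (Fin L → Fin u)) →
      Fin 4 → Fin L → Fin u := fun z => ![z.1.2.1, z.1.2.2, z.2.2.1, z.2.2.2]
  have k1 : ∀ τ : Fin 4 → Fin L → Fin u,
      ((∏ q ∈ E, q : ℕ) : ℝ) ^ 3 * #{z ∈ W | F z = τ} ≤
      (m + if L ≤ 2 * #{g : Fin L | ¬ Function.Injective fun i => τ i g} then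
        (2 * y : ℝ) ^ (3 * #E) else 0) * (#d.O : ℝ) ^ 2 := by
    intro τ
    have f0 : ∀ z ∈ {z ∈ W | F z = τ}, z ∈ W ∧ z.1.2.1 = τ 0 ∧ z.1.2.2 = τ 1 ∧ z.2.2.1 = τ 2 ∧
        z.2.2.2 = τ 3 := fun z hz => by
      obtain ⟨e1, e2⟩ := mem_filter.1 hz
      exact ⟨e1, congrFun e2 0, congrFun e2 1, congrFun e2 2, congrFun e2 3⟩
    generalize ({z ∈ W | F z = τ} : Finset _) = Z at f0
    have f1 : #Z = #(Z.image fun z => (z.1.1, z.2.1)) := by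
      refine (card_image_of_injOn fun z hz z' hz' e => ?_).symm
      obtain ⟨-, b1, b2, b3, b4⟩ := f0 z hz
      obtain ⟨-, c1, c2, c3, c4⟩ := f0 z' hz'
      have e1 : z.1.1 = z'.1.1 := (Prod.mk.inj e).1
      have e2 : z.2.1 = z'.2.1 := (Prod.mk.inj e).2
      exact Prod.ext (Prod.ext e1 (Prod.ext (b1.trans c1.symm) (b2.trans c2.symm)))
        (Prod.ext e2 (Prod.ext (b3.trans c3.symm) (b4.trans c4.symm)))
    rw [f1]
    split_ifs with hz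
    · have f2 : #(Z.image fun z => (z.1.1, z.2.1)) ≤ #(d.O ×ˢ d.O) := by
        refine card_le_card fun w hw => ?_
        obtain ⟨z, hz, rfl⟩ := mem_image.1 hw
        obtain ⟨b1, b2, -⟩ := hW z (f0 z hz).1
        exact mem_product.2 ⟨(hV.mem _ b1).1, (hV.mem _ b2).1⟩
      rw [card_product, ← sq] at f2
      refine mul_le_mul (hQ2.trans (le_add_of_nonneg_left m0)) ?_ (Nat.cast_nonneg _)
        (by positivity)
      exact_mod_cast f2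
    rw [add_zero]
    have e := card_filter_add_card_filter_not (s := (univ : Finset (Fin L)))
      fun g => Function.Injective fun i => τ i g
    rw [card_univ, Fintype.card_fin] at e
    have ne : ∀ g ∈ ({g : Fin L | Function.Injective fun i => τ i g} : Finset (Fin L)),
        ∀ i j, i ≠ j → τ i g ≠ τ j g := fun g hg i j hij hh => hij ((mem_filter.1 hg).2 hh)
    have a1 := ygf_two hG.inj (τ 0) (τ 1) (τ 2) (τ 3) _ fun g hg =>
      ⟨ne g hg 0 1 (by decide), ne g hg 2 0 (by decide), ne g hg 3 0 (by decide),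
        ne g hg 2 1 (by decide), ne g hg 3 1 (by decide)⟩
    have a2 := ygf_two hG.inj (τ 2) (τ 3) (τ 0) (τ 1) _ fun g hg =>
      ⟨ne g hg 2 3 (by decide), ne g hg 0 2 (by decide), ne g hg 1 2 (by decide),
        ne g hg 0 3 (by decide), ne g hg 1 3 (by decide)⟩
    have gb : ∀ b, bs pr b ⊆ d.P ∧ #(bs pr b) = L ∧ #(bs pr b) ≤ p := fun b =>
      ⟨(hG.bs b).1, (hG.bs b).2.1, (hG.bs b).2.2.1⟩
    have lo : ∀ a b e f : Fin L → Fin u,
        L ≤ #(symmDiff (bs pr a) (bs pr b) \ symmDiff (bs pr e) (bs pr f)) →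
        y ^ L ≤ ∏ l ∈ symmDiff (bs pr a) (bs pr b) \ symmDiff (bs pr e) (bs pr f), l :=
      fun a b e f hh => (Nat.pow_le_pow_right (by omega) hh).trans (xgg_low fun l hl =>
        (h.prime l (union_subset (gb a).1 (gb b).1 (ygf_sd (mem_sdiff.1 hl).1))).2.1)
    refine ygf_good h hy (gb (τ 0)) (gb (τ 1)) (gb (τ 2)) (gb (τ 3))
      (fun q hq => ⟨hG.sub (hE hq), hnb q hq _, hnb q hq _, hnb q hq _, hnb q hq _⟩) ?_
      ht hε hC hCT k _ fun w hw => ?_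
    · refine (Nat.pow_le_pow_left hQ1 4).trans ?_
      rw [← pow_mul, mul_comm _ 4]
      refine h1.trans ?_
      rw [two_mul, pow_add]
      exact Nat.mul_le_mul (lo _ _ _ _ (by omega)) (lo _ _ _ _ (by omega))
    · obtain ⟨z, hz, rfl⟩ := mem_image.1 hw
      obtain ⟨b0, b1, b2, b3, b4⟩ := f0 z hz
      obtain ⟨c1, c2, c3⟩ := hW z b0
      rw [← b1, ← b2, ← b3, ← b4]
      exact ⟨⟨(hV.mem _ c1).1, (hV.mem _ c1).2, hV.typ _ c1 k⟩,
        ⟨(hV.mem _ c2).1, (hV.mem _ c2).2, hV.typ _ c2 k⟩, c3⟩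
  have k2 : ((∏ q ∈ E, q : ℕ) : ℝ) ^ 3 * #W ≤
      (m + 1) * ((u : ℝ) ^ L) ^ 4 * (#d.O : ℝ) ^ 2 := by
    rw [card_eq_sum_card_fiberwise (f := F) (s := W) (t := univ) fun z _ => mem_univ _,
      Nat.cast_sum, mul_sum]
    refine (sum_le_sum fun τ _ => k1 τ).trans ?_
    rw [← sum_mul, sum_add_distrib, sum_const, ← sum_filter, sum_const, nsmul_eq_mul,
      nsmul_eq_mul]
    refine mul_le_mul_of_nonneg_right ?_ (by positivity)
    have e : (#(univ : Finset (Fin 4 → Fin L → Fin u)) : ℝ) = ((u : ℝ) ^ L) ^ 4 := by simp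
    have e2 := xgg_over (L := L) (u := u) (r := 4) hG.pos (by omega)
    have e3 : ((4 : ℕ) : ℝ) ^ 2 = 16 := by norm_num
    rw [e3] at e2
    have e4 := mul_le_mul_of_nonneg_right e2 (show (0 : ℝ) ≤ (2 * y : ℝ) ^ (3 * #E) by positivity)
    have e5 := mul_le_mul_of_nonneg_right h2 (show (0 : ℝ) ≤ ((u : ℝ) ^ L) ^ 4 by positivity)
    rw [e]
    nlinarith
  have k3 : (v * #d.O * (u : ℝ) ^ L * (u : ℝ) ^ L) ^ 2 ≤ (#V : ℝ) ^ 2 :=
    pow_le_pow_left₀ hw0.le hV.card 2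
  have k4 : Real.exp (φ * #E * (c * Real.log y) - #E) *
      (v * #d.O * (u : ℝ) ^ L * (u : ℝ) ^ L) ^ 2 ≤
      (m + 1) * ((u : ℝ) ^ L) ^ 4 * (#d.O : ℝ) ^ 2 :=
    calc _ ≤ _ := mul_le_mul hexp k3 (sq_nonneg _) (by positivity)
      _ = _ := mul_assoc _ _ _
      _ ≤ _ := mul_le_mul_of_nonneg_left hW' hQ.le
      _ ≤ _ := k2
  refine le_of_mul_le_mul_right (a := ((u : ℝ) ^ L) ^ 4 * (#d.O : ℝ) ^ 2) ?_ (by positivity)
  calc _ = Real.exp (φ * #E * (c * Real.log y) - #E) *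
      (v * #d.O * (u : ℝ) ^ L * (u : ℝ) ^ L) ^ 2 := by ring
    _ ≤ _ := k4
    _ = _ := mul_assoc _ _ _

end Pool.Agent.EQ
end
end

-- part Pool.Agent.P.MP_ad7a55_nt.YGg
section

/-! Graphs give integral correspondences. -/

set_option autoImplicit false

noncomputable section

open Finset Matrix
open scoped MatrixGroups Classical

namespace Pool.Agent.EQ

theorem ygg_mf {α : Type} {p : α → Prop} {inst : DecidablePred p} {s : Finset α} {a : α}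
    (h : a ∈ @Finset.filter α p inst s) : a ∈ s ∧ p a := mem_filter.1 h

theorem ygg_sum {α 𝔅 : Type} [Fintype 𝔅] (O : Finset α) (V : Finset (α × 𝔅 × 𝔅))
    (hV : ∀ w ∈ V, w.1 ∈ O) :
    ∑ a ∈ O ×ˢ (univ : Finset 𝔅), (#{b' : 𝔅 | (a.1, a.2, b') ∈ V} : ℝ) = #V := by
  rw [card_eq_sum_card_fiberwise (s := V) (t := O ×ˢ (univ : Finset 𝔅))
    (f := fun w => (w.1, w.2.1)) (fun w hw => mem_coe.2 (mem_product.2
      ⟨hV w (mem_coe.1 hw), mem_univ _⟩)), Nat.cast_sum]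
  refine sum_congr rfl fun a _ => congrArg _ ?_
  refine card_bij (fun b' _ => (a.1, a.2, b')) (fun b' hb => ?_) (fun b₁ _ b₂ _ e => ?_)
    fun w hw => ?_
  · exact mem_filter.2 ⟨(mem_filter.1 hb).2, rfl⟩
  · exact congrArg (fun z => z.2.2) e
  · obtain ⟨h1, rfl⟩ := mem_filter.1 hw
    exact ⟨w.2.2, mem_filter.2 ⟨mem_univ _, h1⟩, rfl⟩

theorem ygg_un {L u : ℕ} {pr : Fin L → Fin u → ℕ}
    (hi : Function.Injective fun z : Fin L × Fin u => pr z.1 z.2) {r : ℕ}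
    (s : Fin (r + 1) → Fin L → Fin u)
    (h : ¬ L ≤ 2 * #{g : Fin L | ¬ Function.Injective fun i => s i g}) :
    r * L ≤ 2 * #((univ.biUnion fun i : Fin r => bs pr (s i.succ)) \ bs pr (s 0)) := by
  have e := card_filter_add_card_filter_not (s := (univ : Finset (Fin L)))
    fun g => Function.Injective fun i => s i g
  rw [card_univ, Fintype.card_fin] at e
  have k : #((univ : Finset (Fin r)) ×ˢ
      ({g : Fin L | Function.Injective fun i => s i g} : Finset (Fin L))) ≤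
      #((univ.biUnion fun i : Fin r => bs pr (s i.succ)) \ bs pr (s 0)) := by
    refine card_le_card_of_injOn (fun z => pr z.2 (s z.1.succ z.2)) (fun z hz => ?_)
      fun z hz z' _ e => ?_
    · refine mem_coe.2 (mem_sdiff.2 ⟨mem_biUnion.2 ⟨z.1, mem_univ _,
        mem_image_of_mem _ (mem_univ z.2)⟩, fun k => ?_⟩)
      obtain ⟨g', -, e⟩ := mem_image.1 k
      have e1 : (g', s 0 g') = (z.2, s z.1.succ z.2) := hi e
      have e2 : g' = z.2 := congrArg Prod.fst e1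
      have e3 : s 0 g' = s z.1.succ z.2 := congrArg Prod.snd e1
      rw [e2] at e3
      exact Fin.succ_ne_zero _ ((mem_filter.1 (mem_product.1 (mem_coe.1 hz)).2).2 e3).symm
    · have e1 : (z.2, s z.1.succ z.2) = (z'.2, s z'.1.succ z'.2) := hi e
      have e2 : z.2 = z'.2 := congrArg Prod.fst e1
      have e3 : s z.1.succ z.2 = s z'.1.succ z'.2 := congrArg Prod.snd e1
      rw [← e2] at e3
      exact Prod.ext (Fin.succ_injective _
        ((mem_filter.1 (mem_product.1 (mem_coe.1 hz)).2).2 e3)) e2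
  rw [card_product, card_univ, Fintype.card_fin] at k
  have : L ≤ 2 * #{g : Fin L | Function.Injective fun i => s i g} := by omega
  nlinarith

theorem ygg_count {α σ : Type} [Fintype σ] (O : Finset α) (bad : σ → Prop) [DecidablePred bad]
    (P : σ → α → Prop) {m : ℝ} (hm : 0 ≤ m) (h : ∀ s, ¬ bad s → prb O (P s) ≤ m)
    (T : Finset (σ × α)) (hT : ∀ z ∈ T, z.2 ∈ O ∧ P z.1 z.2) :
    (#T : ℝ) ≤ (#{s | bad s} + m * Fintype.card σ) * #O := by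
  rw [card_eq_sum_card_fiberwise (s := T) (t := (univ : Finset σ)) (f := Prod.fst)
    (fun _ _ => mem_coe.2 (mem_univ _)), Nat.cast_sum]
  have k : ∀ s : σ, (#{z ∈ T | z.1 = s} : ℝ) ≤ ((if bad s then 1 else 0) + m) * #O := by
    intro s
    have k1 : #{z ∈ T | z.1 = s} ≤ #{x ∈ O | P s x} := by
      refine card_le_card_of_injOn Prod.snd (fun z hz => ?_) fun z hz z' hz' e => ?_
      · obtain ⟨a, rfl⟩ := mem_filter.1 (mem_coe.1 hz)
        exact mem_coe.2 (mem_filter.2 (hT z a))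
      · exact Prod.ext ((mem_filter.1 (mem_coe.1 hz)).2.trans
          (mem_filter.1 (mem_coe.1 hz')).2.symm) e
    refine (Nat.cast_le.2 k1).trans ?_
    have h0 : (0 : ℝ) ≤ #O := Nat.cast_nonneg _
    split_ifs with hs
    · have : (#{x ∈ O | P s x} : ℝ) ≤ #O := Nat.cast_le.2 (card_filter_le _ _)
      nlinarith
    · have k2 := h s hs
      rw [zero_add]
      rcases h0.eq_or_lt with e | e
      · rw [card_eq_zero.1 (Nat.cast_eq_zero.1 e.symm)]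
        simp
      · unfold prb at k2
        exact (div_le_iff₀ e).1 k2
  refine (sum_le_sum fun s _ => k s).trans (le_of_eq ?_)
  rw [← sum_mul, sum_add_distrib, sum_boole, sum_const, card_univ, nsmul_eq_mul, mul_comm m]

theorem RD.Ok6.ygg_abs {α ι γ δ : Type} [Fintype ι] {d : RD α ι γ δ} {y p C₁ : ℕ}
    {H Λ δ₀ : ℝ} (h : d.Ok6 y p H Λ δ₀ C₁) {L u : ℕ}
    {pr : Fin L → Fin u → ℕ} {B : Finset ℕ} (hG : d.Grp p pr B) {b b' : Fin L → Fin u} {x : α}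
    (hx : x ∈ d.O) (hg : d.G2 (bs pr b) (bs pr b') x) (c : ι) (i j : Fin 2) :
    |d.gm (bs pr b) (bs pr b') x c i j| ≤ (⌈2 * H ^ 2 * (2 * (y : ℝ)) ^ L⌉₊ : ℕ) := by
  obtain ⟨a1, a2, a3, -⟩ := hG.bs b
  obtain ⟨b1, b2, b3, -⟩ := hG.bs b'
  have k := (h.gm_div a1 a3 b1 b3 hx hg c).1 i j
  have p1 : ∏ l ∈ bs pr b, l ≤ (2 * y) ^ L := by
    have := prod_le_pow_card (bs pr b) (fun l => l) (2 * y) fun l hl => (h.prime l (a1 hl)).2.2
    rwa [a2] at this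
  have p2 : ∏ l ∈ bs pr b', l ≤ (2 * y) ^ L := by
    have := prod_le_pow_card (bs pr b') (fun l => l) (2 * y) fun l hl => (h.prime l (b1 hl)).2.2
    rwa [b2] at this
  have p3 : Real.sqrt ((∏ l ∈ bs pr b, l) * ∏ l ∈ bs pr b', l : ℕ) ≤ (2 * (y : ℝ)) ^ L := by
    rw [Real.sqrt_le_left (by positivity), sq]
    exact_mod_cast Nat.mul_le_mul p1 p2
  have k2 : |(d.gm (bs pr b) (bs pr b') x c i j : ℝ)| ≤
      (⌈2 * H ^ 2 * (2 * (y : ℝ)) ^ L⌉₊ : ℕ) :=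
    k.trans ((mul_le_mul_of_nonneg_left p3 (by positivity)).trans (Nat.le_ceil _))
  exact_mod_cast k2

theorem RD.Ok6.ygg_xc {α ι γ δ : Type} [Fintype ι] {d : RD α ι γ δ} {y p C₁ : ℕ}
    {H Λ δ₀ : ℝ} (h : d.Ok6 y p H Λ δ₀ C₁) {L u : ℕ}
    {pr : Fin L → Fin u → ℕ} {B : Finset ℕ} (hG : d.Grp p pr B) {k l : ι} {r : ℕ}
    {b : Fin L → Fin u} {t : Fin r → Fin L → Fin u} {x : α} (hx : x ∈ d.O)
    (hg : ∀ i, d.G2 (bs pr b) (bs pr (t i)) x) (T : Finset ℕ) (X X' : ℕ → M2)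
    (hT : ∀ q ∈ T, q ∈ B ∧ ¬ (q : ℤ) ∣ (X q).det ∧ ∀ s i j, (q : ℤ) ∣
      (d.gm (bs pr b) (bs pr (t s)) x l * X q - X' q * d.gm (bs pr b) (bs pr (t s)) x k) i j)
    (hc : 16 * L + 1 ≤ #T)
    (h2 : 8 * (2 * H ^ 2 * (2 * y) ^ L) + 9 ≤ (y : ℝ) ^ (2 * L)) :
    Xc (2 * y * ((y : ℝ) ^ (2 * L)) ^ 7) (d.K (d.π (bs pr b) x) k) (d.K (d.π (bs pr b) x) l)
      ((univ.biUnion fun i => bs pr (t i)) \ bs pr b) := by
  obtain ⟨N, hNd⟩ : ∃ N : ℕ, N = ⌈2 * H ^ 2 * (2 * (y : ℝ)) ^ L⌉₊ := ⟨_, rfl⟩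
  have hN : 8 * N + 1 ≤ y ^ (2 * L) := by
    have h3 := Nat.ceil_lt_add_one (show 0 ≤ 2 * H ^ 2 * (2 * (y : ℝ)) ^ L by positivity)
    rw [← hNd] at h3
    have h5 : ((8 * N + 1 : ℕ) : ℝ) ≤ ((y ^ (2 * L) : ℕ) : ℝ) := by
      push_cast
      linarith
    exact_mod_cast h5
  have hP : ∀ q ∈ T, q.Prime ∧ y < q ∧ q ≤ 2 * y := fun q hq => h.prime q (hG.sub (hT q hq).1)
  have hbig : (8 * N + 1) ^ 8 < ∏ q ∈ T, q := by
    have h3 : (y + 1) ^ #T ≤ ∏ q ∈ T, q := pow_card_le_prod T _ _ fun q hq => (hP q hq).2.1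
    have h4 : (y + 1) ^ (16 * L + 1) ≤ (y + 1) ^ #T := Nat.pow_le_pow_right (by omega) hc
    have h5 : (y ^ (2 * L)) ^ 8 ≤ (y + 1) ^ (16 * L) := by
      rw [← pow_mul, show 2 * L * 8 = 16 * L by ring]
      exact Nat.pow_le_pow_left (by omega) _
    have hy : 0 < y := by
      obtain ⟨q, hq⟩ := card_pos.1 (show 0 < #T by omega)
      have := hP q hq
      omega
    have h6 : (y + 1) ^ (16 * L) < (y + 1) ^ (16 * L + 1) :=
      Nat.pow_lt_pow_right (by omega) (by omega)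
    exact (((Nat.pow_le_pow_left hN 8).trans h5).trans_lt h6).trans_le (h4.trans h3)
  obtain ⟨Z, Z', z1, z2, z3⟩ := tv (fun s => d.gm (bs pr b) (bs pr (t s)) x k)
    (fun s => d.gm (bs pr b) (bs pr (t s)) x l) (H := N) (Y := 2 * y) T X X'
    (fun q hq => ⟨(hP q hq).1, (hP q hq).2.2, (hT q hq).2.1, (hT q hq).2.2⟩)
    (fun s i j => by
      rw [hNd]
      exact ⟨h.ygg_abs hG hx (hg s) k i j, h.ygg_abs hG hx (hg s) l i j⟩) hbig
  refine ⟨Z, z1, fun i j => ?_, fun q hq v hv => ?_⟩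
  · have h3 : ((8 * N + 1 : ℕ) : ℤ) ≤ ((y ^ (2 * L) : ℕ) : ℤ) := Int.ofNat_le.2 hN
    have h4 : |Z i j| ≤ 2 * (y : ℤ) * ((y : ℤ) ^ (2 * L)) ^ 7 := by
      refine (z2 i j).trans ?_
      push_cast at h3 ⊢
      exact mul_le_mul_of_nonneg_left (pow_le_pow_left₀ (by positivity) h3 7) (by positivity)
    exact_mod_cast h4
  · obtain ⟨hq1, hq2⟩ := mem_sdiff.1 hq
    obtain ⟨s, _, hs⟩ := mem_biUnion.1 hq1
    obtain ⟨a1, -, a3, -⟩ := hG.bs b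
    obtain ⟨b1, -, b3, -⟩ := hG.bs (t s)
    rw [← (h.gm_ker a1 a3 b1 b3 hx (hg s) k).1 q (mem_sdiff.2 ⟨hs, hq2⟩)] at hv
    rw [← (h.gm_ker a1 a3 b1 b3 hx (hg s) l).1 q (mem_sdiff.2 ⟨hs, hq2⟩)]
    exact xgf_ker (z3 s) hv

theorem RD.Big.xc {α ι γ δ : Type} [Fintype ι] {d : RD α ι γ δ} {y p C₁ : ℕ}
    {H Λ δ₀ : ℝ} (h : d.Ok6 y p H Λ δ₀ C₁) (hy : 2 ≤ y) (hΛ : 0 ≤ Λ) {L u : ℕ}
    {pr : Fin L → Fin u → ℕ} {B : Finset ℕ} (hG : d.Grp p pr B) {σ c s v t : ℝ}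
    {V : Finset (α × (Fin L → Fin u) × (Fin L → Fin u))} {R R' : ℕ → Finset (ι → Set V2)}
    (hV : d.Big pr B σ c s v t V R R') (hv : 0 ≤ v) {k l : ι} (hkl : k ≠ l) {B' : Finset ℕ}
    (hB' : B' ⊆ B) {e : ℝ} (he : 0 < e)
    (h1 : ∀ q ∈ B', ∃ X X' : M2, ¬ (q : ℤ) ∣ X.det ∧ e * #V ≤ #{w ∈ V | ∀ i j, (q : ℤ) ∣
      (d.gm (bs pr w.2.1) (bs pr w.2.2) w.1 l * X -
        X' * d.gm (bs pr w.2.1) (bs pr w.2.2) w.1 k) i j})
    {r : ℕ} (hr : 0 < r) (hu : (r + 1) ^ 2 ≤ u) (hp : r * L ≤ p)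
    (h2 : 8 * (2 * H ^ 2 * (2 * y) ^ L) + 9 ≤ (y : ℝ) ^ (2 * L))
    (h3 : (16 * L + 1 : ℝ) ≤ (e / 8) ^ (r + 1) / 2 * #B')
    (h4 : 2 * y * ((y : ℝ) ^ (2 * L)) ^ 7 ≤ (y : ℝ) ^ p) :
    ((e / 8) ^ 2 * v) ^ r ≤ 2 ^ L * (((r : ℝ) + 1) ^ 2 / u) ^ ((L : ℝ) / 2) +
      Λ * (2 * y * ((y : ℝ) ^ (2 * L)) ^ 7) ^ C₁ / (y : ℝ) ^ ((r : ℝ) * L / 2) := by
  have hX0 : ∀ q : ℕ, ∃ (X X' : M2) (Vq : Finset (α × (Fin L → Fin u) × (Fin L → Fin u))),
      Vq ⊆ V ∧ (q ∈ B' → ¬ (q : ℤ) ∣ X.det ∧ e * #V ≤ #Vq) ∧ ∀ x b b', (x, b, b') ∈ Vq → ∀ i j,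
        (q : ℤ) ∣ (d.gm (bs pr b) (bs pr b') x l * X - X' * d.gm (bs pr b) (bs pr b') x k) i j :=
    fun q => by
    by_cases hq : q ∈ B'
    · obtain ⟨X, X', a1, a2⟩ := h1 q hq
      exact ⟨X, X', _, fun w hw => (ygg_mf hw).1, fun _ => ⟨a1, a2⟩,
        fun x b b' hw => (ygg_mf hw).2⟩
    · exact ⟨0, 0, ∅, empty_subset _, fun h => absurd h hq, fun x b b' hw => absurd hw
        (notMem_empty _)⟩
  choose X X' Vq hsub hX hVq using hX0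
  have hBne : B'.Nonempty := by
    rw [nonempty_iff_ne_empty]
    rintro rfl
    rw [card_empty, Nat.cast_zero, mul_zero] at h3
    have : (0 : ℝ) ≤ L := Nat.cast_nonneg _
    linarith
  have hu0 : (0 : ℝ) < u := Nat.cast_pos.2 hG.pos
  have hO : (0 : ℝ) < #d.O := Nat.cast_pos.2 h.ne.card_pos
  have hy1 : (1 : ℝ) ≤ y := by exact_mod_cast (by omega : 1 ≤ y)
  have hc : (Fintype.card (Fin L → Fin u) : ℝ) = (u : ℝ) ^ L := by simp
  have hA : (#(d.O ×ˢ (univ : Finset (Fin L → Fin u))) : ℝ) = #d.O * (u : ℝ) ^ L := by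
    rw [card_product, card_univ, Nat.cast_mul, hc]
  have key := fib_tuples (d.O ×ˢ (univ : Finset (Fin L → Fin u)))
    (fun a => ({b' : Fin L → Fin u | (a.1, a.2, b') ∈ V} : Finset _))
    (fun q a => ({b' : Fin L → Fin u | (a.1, a.2, b') ∈ Vq q} : Finset _)) he hv hBne hr
    (fun q _ a _ b' hb => mem_filter.2 ⟨mem_univ _, hsub q (mem_filter.1 hb).2⟩)
    (fun q hq => by
      have e1 := ygg_sum d.O V fun w hw => (hV.mem w hw).1
      have e2 := ygg_sum d.O (Vq q) fun w hw => (hV.mem w (hsub q hw)).1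
      refine le_trans (le_of_eq (congrArg _ ?_)) ((hX q hq).2.trans (le_of_eq ?_))
      · refine Eq.trans (sum_congr rfl fun a _ => congrArg _ (congrArg _ ?_)) e1
        ext b'
        simp only [mem_filter]
      · refine Eq.trans e2.symm (sum_congr rfl fun a _ => congrArg _ (congrArg _ ?_))
        ext b'
        simp only [mem_filter])
    (by
      have e1 := ygg_sum d.O V fun w hw => (hV.mem w hw).1
      rw [hA, hc, ← mul_assoc]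
      refine hV.card.trans (le_of_eq ?_)
      refine Eq.trans e1.symm (sum_congr rfl fun a _ => congrArg _ (congrArg _ ?_))
      ext b'
      simp only [mem_filter])
  obtain ⟨Z₀, hZ⟩ : ∃ Z₀ : ℝ, Z₀ = 2 * y * ((y : ℝ) ^ (2 * L)) ^ 7 := ⟨_, rfl⟩
  have hZ1 : 1 ≤ Z₀ := by
    have : (1 : ℝ) ≤ ((y : ℝ) ^ (2 * L)) ^ 7 := one_le_pow₀ (one_le_pow₀ hy1)
    rw [hZ]
    nlinarith
  obtain ⟨m, hm⟩ : ∃ m : ℝ, m = Λ * Z₀ ^ C₁ / (y : ℝ) ^ ((r : ℝ) * L / 2) := ⟨_, rfl⟩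
  have m0 : 0 ≤ m := by
    rw [hm]
    positivity
  rw [← hZ, ← hm]
  have hgood : ∀ s : Fin (r + 1) → Fin L → Fin u,
      ¬ L ≤ 2 * #{g : Fin L | ¬ Function.Injective fun i => s i g} →
      prb d.O (fun x => d.In (d.π (bs pr (s 0)) x) ∧
        Xc Z₀ (d.K (d.π (bs pr (s 0)) x) k) (d.K (d.π (bs pr (s 0)) x) l)
          ((univ.biUnion fun i : Fin r => bs pr (s i.succ)) \ bs pr (s 0))) ≤ m := by
    intro s hs
    obtain ⟨a1, -, a3, -⟩ := hG.bs (s 0)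
    have hU : (univ.biUnion fun i : Fin r => bs pr (s i.succ)) \ bs pr (s 0) ⊆ d.P :=
      sdiff_subset.trans (biUnion_subset.2 fun i _ => (hG.bs _).1)
    have hUp : #((univ.biUnion fun i : Fin r => bs pr (s i.succ)) \ bs pr (s 0)) ≤ p := by
      refine (card_le_card sdiff_subset).trans (card_biUnion_le.trans (le_trans ?_ hp))
      refine (sum_le_card_nsmul _ _ L fun i _ => xgg_bs _).trans (le_of_eq ?_)
      rw [card_univ, Fintype.card_fin, smul_eq_mul]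
    refine (pb_perm (h.maps _ a1 a3) (h.inj _ a1 a3) fun x => d.In x ∧ Xc Z₀ (d.K x k) (d.K x l)
      ((univ.biUnion fun i : Fin r => bs pr (s i.succ)) \ bs pr (s 0))).trans_le ?_
    refine (h.xc k l hkl _ hU hUp Z₀ hZ1 (hZ ▸ h4)).trans ?_
    rw [hm]
    refine div_le_div_of_nonneg_left (by positivity) (by positivity) ?_
    have k1 := (Nat.cast_le (α := ℝ)).2 (ygg_un hG.inj s hs)
    have k2 := (Nat.cast_le (α := ℝ)).2 (xgg_low (y := y) fun l hl => (h.prime l (hU hl)).2.1)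
    refine le_trans ?_ k2
    rw [Nat.cast_pow, ← Real.rpow_natCast]
    refine Real.rpow_le_rpow_of_exponent_le hy1 ?_
    push_cast at k1
    linarith
  have hov := xgg_over (L := L) (r := r + 1) hG.pos hu
  push_cast at hov
  have hcard : (Fintype.card (Fin (r + 1) → Fin L → Fin u) : ℝ) = ((u : ℝ) ^ L) ^ (r + 1) := by
    simp
  rw [hA, hc] at key
  have hfin : ∀ S : Finset ((α × (Fin L → Fin u)) × (Fin r → Fin L → Fin u)),
      (∀ z ∈ S, z.1.1 ∈ d.O ∧ (∀ i, (z.1.1, z.1.2, z.2 i) ∈ V) ∧ ∃ T : Finset ℕ,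
        16 * L + 1 ≤ #T ∧ ∀ q ∈ T, q ∈ B' ∧ ∀ i, (z.1.1, z.1.2, z.2 i) ∈ Vq q) →
      (#S : ℝ) ≤ (2 ^ L * (((r : ℝ) + 1) ^ 2 / u) ^ ((L : ℝ) / 2) + m) *
        (((u : ℝ) ^ L) ^ (r + 1) * #d.O) := by
    intro S hS
    have e1 : #S = #(S.image fun z =>
        ((Fin.cons z.1.2 z.2 : Fin (r + 1) → Fin L → Fin u), z.1.1)) := by
      refine (card_image_of_injective _ fun z z' e => ?_).symm
      have e1 : (Fin.cons z.1.2 z.2 : Fin (r + 1) → Fin L → Fin u) = Fin.cons z'.1.2 z'.2 :=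
        congrArg Prod.fst e
      have e2 : z.1.1 = z'.1.1 := congrArg Prod.snd e
      obtain ⟨e3, e4⟩ := Fin.cons_inj.1 e1
      exact Prod.ext (Prod.ext e2 e3) e4
    rw [e1]
    refine (ygg_count d.O _ _ m0 hgood _ fun w hw => ?_).trans ?_
    · obtain ⟨z, hz, rfl⟩ := mem_image.1 hw
      obtain ⟨s1, s2, T, s3, s4⟩ := hS z hz
      simp only [Fin.cons_zero, Fin.cons_succ]
      refine ⟨s1, (hV.mem _ (s2 ⟨0, hr⟩)).2.2.1, ?_⟩
      rw [hZ]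
      refine h.ygg_xc hG s1 (fun i => (hV.mem _ (s2 i)).2) T X X' (fun q hq => ?_) s3 h2
      exact ⟨hB' (s4 q hq).1, (hX q (s4 q hq).1).1, fun i => hVq q _ _ _ ((s4 q hq).2 i)⟩
    · rw [hcard, ← mul_assoc]
      refine mul_le_mul_of_nonneg_right ?_ hO.le
      rw [add_mul]
      exact add_le_add hov le_rfl
  have hle := key.trans (hfin _ fun z hz => by
    obtain ⟨z1, z2, z3⟩ := ygg_mf hz
    refine ⟨(mem_product.1 (mem_product.1 z1).1).1, fun i => (ygg_mf (z2 i)).2, _,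
      by exact_mod_cast h3.trans z3, fun q hq => ?_⟩
    obtain ⟨q1, q2⟩ := ygg_mf hq
    exact ⟨q1, fun i => (ygg_mf (q2 i)).2⟩)
  refine le_of_mul_le_mul_right (le_trans (le_of_eq ?_) hle)
    (show (0 : ℝ) < ((u : ℝ) ^ L) ^ (r + 1) * #d.O by positivity)
  ring

end Pool.Agent.EQ
end
end

-- part Pool.Agent.P.MP_ad7a55_nt.YUa
section

/-! Counting walks in the tree. -/

set_option autoImplicit false

noncomputable section

open Finset Matrix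
open scoped MatrixGroups Classical

namespace Pool.Agent.EQ

/-- The matrix of a walk. -/
def wk (ρ : Set V2 → M2) : (i : ℕ) → (Fin i → Set V2) → M2
  | 0, _ => 1
  | i + 1, t => wk ρ i (Fin.tail t) * ρ (t 0)

/-- The walks of length `i`. -/
def WK (n i : ℕ) : Finset (Fin i → Set V2) := Fintype.piFinset fun _ => Xn n

/-- The bound for pairs of walks. -/
def PB (a i w : ℕ) (H n Q ε : ℝ) : ℝ :=
  (2 * (a + 1)) ^ (2 * i) * (a * i + 1) ^ 3 * (4 * H ^ 2 + 1) ^ 4 * 2 ^ w *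
    (2 * H ^ 2 * n ^ i) ^ ε * ((2 * H ^ 2 * n ^ i) ^ 2 / Q ^ 3 + 3 * (2 * H ^ 2 * n ^ i))

variable {l a n : ℕ} {ρ : Set V2 → M2}

theorem yua_mem {i : ℕ} {t : Fin (i + 1) → Set V2} (ht : t ∈ WK n (i + 1)) :
    t 0 ∈ Xn n ∧ Fin.tail t ∈ WK n i :=
  ⟨Fintype.mem_piFinset.1 ht 0, Fintype.mem_piFinset.2 fun j => Fintype.mem_piFinset.1 ht j.succ⟩

theorem wk_det (h : ∀ L ∈ Xn n, (ρ L).det = n) (i : ℕ) {t : Fin i → Set V2} (ht : t ∈ WK n i) :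
    (wk ρ i t).det = (n : ℤ) ^ i := by
  induction i with
  | zero => simp [wk]
  | succ i ih => rw [wk, Matrix.det_mul, ih (yua_mem ht).2, h _ (yua_mem ht).1, pow_succ]

theorem wk_Cg {M : ℕ} {s : ℤ} (h : ∀ L ∈ Xn n, Cg M (ρ L) s) (i : ℕ) {t : Fin i → Set V2}
    (ht : t ∈ WK n i) : Cg M (wk ρ i t) (s ^ i) := by
  induction i with
  | zero => exact xla_cg.2 ⟨0, by simp [wk]⟩
  | succ i ih =>
    rw [wk, pow_succ]
    exact (ih (yua_mem ht).2).mul (h _ (yua_mem ht).1)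

theorem mn_WK (n i : ℕ) (G : (Fin (i + 1) → Set V2) → ℝ) :
    mn (WK n (i + 1)) G = mn (Xn n) fun L => mn (WK n i) fun t => G (Fin.cons L t) := by
  have h1 : ∑ z ∈ WK n (i + 1), G z = ∑ z ∈ Xn n ×ˢ WK n i, G (Fin.cons z.1 z.2) := by
    refine Finset.sum_bij' (fun t _ => (t 0, Fin.tail t)) (fun z _ => Fin.cons z.1 z.2)
      (fun t ht => mem_product.2 (yua_mem ht)) (fun z hz => ?_) (fun t _ => Fin.cons_self_tail t)
      (fun z _ => by simp) fun t _ => by rw [Fin.cons_self_tail]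
    refine Fintype.mem_piFinset.2 fun j => ?_
    refine Fin.cases ?_ (fun j => ?_) j
    · exact (mem_product.1 hz).1
    · exact Fintype.mem_piFinset.1 (mem_product.1 hz).2 j
  have h2 : ∀ k, #(WK n k) = #(Xn n) ^ k := fun k => by simp [WK]
  unfold mn
  rw [h1, Finset.sum_product, ← Finset.sum_div, div_div, h2, h2, pow_succ, Nat.cast_mul]

theorem yua_res (hl : l.Prime) {b s : ℕ} (hs : s ≤ b) {α β : ℤ}
    (h : ¬ (l : ℤ) ∣ α ∨ ¬ (l : ℤ) ∣ β) :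
    #((range (l ^ b)).filter fun t : ℕ => ((l ^ s : ℕ) : ℤ) ∣ α + β * t) ≤ l ^ (b - s) := by
  have hp : Prime (l : ℤ) := Nat.prime_iff_prime_int.1 hl
  have hpos : 0 < l ^ s := pow_pos hl.pos s
  rw [← card_range (l ^ (b - s))]
  refine card_le_card_of_injOn (fun t => t / l ^ s) (fun t ht => ?_) fun t ht t' ht' e => ?_
  · have h1 := mem_range.1 (mem_filter.1 ht).1
    refine mem_coe.2 (mem_range.2 ((Nat.div_lt_iff_lt_mul hpos).2 ?_))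
    rwa [← pow_add, Nat.sub_add_cancel hs]
  · have h1 := (mem_filter.1 ht).2
    have h2 := (mem_filter.1 ht').2
    have h3 : ((l ^ s : ℕ) : ℤ) ∣ (t' : ℤ) - t := by
      rcases Nat.eq_zero_or_pos s with rfl | h0
      · simp
      · have h4 : ¬ (l : ℤ) ∣ β := fun h4 => by
          have h5 : (l : ℤ) ∣ α + β * t :=
            (Int.natCast_dvd_natCast.2 (dvd_pow_self l h0.ne')).trans h1
          exact h.elim (fun h6 => h6 ((dvd_add_left (h4.mul_right _)).1 h5)) fun h6 => h6 h4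
        have h5 : IsCoprime ((l ^ s : ℕ) : ℤ) β := by
          push_cast
          exact ((hp.irreducible.coprime_iff_not_dvd).2 h4).pow_left
        refine h5.dvd_of_dvd_mul_left ?_
        have h6 := h2.sub h1
        rwa [add_sub_add_left_eq_sub, ← mul_sub] at h6
    have h4 : t % l ^ s = t' % l ^ s := (Nat.modEq_iff_dvd).2 h3
    have e' : t / l ^ s = t' / l ^ s := e
    rw [← Nat.div_add_mod t (l ^ s), e', h4, Nat.div_add_mod]

theorem line_count (hl : l.Prime) {b s : ℕ} (hs : s ≤ b) {Γ : M2} (hΓ : ¬ Dv l Γ) :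
    #{L ∈ Xn (l ^ b) | L ⊆ Ker (l ^ s) Γ} ≤ 2 * l ^ (b - s) := by
  have hn : 0 < l ^ b := pow_pos hl.pos b
  have hp : Prime (l : ℤ) := Nat.prime_iff_prime_int.1 hl
  obtain ⟨i, hi⟩ : ∃ i, ¬ (l : ℤ) ∣ Γ i 0 ∨ ¬ (l : ℤ) ∣ Γ i 1 := by
    by_contra hc
    push Not at hc
    exact hΓ fun i => Fin.forall_fin_two.2 (hc i)
  have hsub : {L ∈ Xn (l ^ b) | L ⊆ Ker (l ^ s) Γ} ⊆
      (((range (l ^ b)).filter fun t : ℕ => ((l ^ s : ℕ) : ℤ) ∣ Γ i 0 + Γ i 1 * t).image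
        fun t : ℕ => Ln (l ^ b) ![1, (t : ℤ)]) ∪
      ((range (l ^ b)).filter fun t : ℕ => ((l ^ s : ℕ) : ℤ) ∣ Γ i 1 + Γ i 0 * t).image
        fun t : ℕ => Ln (l ^ b) ![(t : ℤ), 1] := by
    intro L hL
    obtain ⟨hL, hK⟩ := mem_filter.1 hL
    obtain ⟨v, hv, rfl⟩ := (mem_Xn hn).1 hL
    by_cases h0 : (l : ℤ) ∣ v 0
    · have h1 : ¬ (l : ℤ) ∣ v 1 := fun h1 => hp.not_isUnit (hv.isUnit_of_dvd' h0 h1)
      obtain ⟨t, ht, x, hx⟩ := xlb_solve hn (a := v 1) (by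
        push_cast
        exact ((hp.irreducible.coprime_iff_not_dvd).2 h1).symm.pow_right) (v 0)
      have hm : (![(t : ℤ), 1] : V2) ∈ Ln (l ^ b) v := xlb_mem.2 ⟨-x, by
        simp only [Matrix.cons_val_zero, Matrix.cons_val_one]
        linear_combination -hx⟩
      refine mem_union_right _ (mem_image.2 ⟨t, mem_filter.2 ⟨mem_range.2 ht, ?_⟩,
        ((xlb_of_cop _ hv).eq (xlb_of_cop _ (by simpa using isCoprime_one_right)) hm).symm⟩)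
      have h2 := hK hm i
      rw [xlb_mv] at h2
      simpa [add_comm] using h2
    · obtain ⟨t, ht, x, hx⟩ := xlb_solve hn (a := v 0) (by
        push_cast
        exact ((hp.irreducible.coprime_iff_not_dvd).2 h0).symm.pow_right) (v 1)
      have hm : (![1, (t : ℤ)] : V2) ∈ Ln (l ^ b) v := xlb_mem.2 ⟨x, by
        simp only [Matrix.cons_val_zero, Matrix.cons_val_one]
        linear_combination hx⟩
      refine mem_union_left _ (mem_image.2 ⟨t, mem_filter.2 ⟨mem_range.2 ht, ?_⟩,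
        ((xlb_of_cop _ hv).eq (xlb_of_cop _ (by simpa using isCoprime_one_left)) hm).symm⟩)
      have h2 := hK hm i
      rw [xlb_mv] at h2
      simpa using h2
  refine (card_le_card hsub).trans ((card_union_le _ _).trans ?_)
  rw [two_mul]
  exact add_le_add (card_image_le.trans (yua_res hl hs hi))
    (card_image_le.trans (yua_res hl hs hi.symm))

/-- Entrywise quotient. -/
def yua_dv (m : ℕ) (g : M2) : M2 := Matrix.of fun i j => g i j / m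

theorem yua_smul {m : ℕ} {g : M2} (h : Dv m g) : (m : ℤ) • yua_dv m g = g := by
  ext i j
  exact Int.mul_ediv_cancel' (h i j)

theorem yua_cont {j : ℕ} {γ : M2} (h : ¬ Dv (l ^ (j + 1)) γ) :
    ∃ k ≤ j, Dv (l ^ k) γ ∧ ¬ Dv (l ^ (k + 1)) γ := by
  induction j with
  | zero => exact ⟨0, le_rfl, fun i j => by simp, h⟩
  | succ j ih =>
    by_cases h1 : Dv (l ^ (j + 1)) γ
    · exact ⟨j + 1, le_rfl, h1, h⟩
    · obtain ⟨k, hk, h2⟩ := ih h1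
      exact ⟨k, hk.trans (Nat.le_succ j), h2⟩

theorem yua_mulr {m : ℕ} {g : M2} (h : Dv m g) (g' : M2) : Dv m (g * g') := by
  obtain ⟨Y, rfl⟩ := xla_ex.1 h
  exact xla_ex.2 ⟨Y * g', smul_mul_assoc _ _ _⟩

theorem yua_mull {m : ℕ} {g : M2} (h : Dv m g) (g' : M2) : Dv m (g' * g) := by
  obtain ⟨Y, rfl⟩ := xla_ex.1 h
  exact xla_ex.2 ⟨g' * Y, mul_smul_comm _ _ _⟩

theorem yua_canc (hl : l.Prime) {u k : ℕ} {g : M2}
    (h : Dv (l ^ (u + k)) (((l ^ u : ℕ) : ℤ) • g)) : Dv (l ^ k) g := fun i j => by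
  have h1 := h i j
  rw [pow_add, Nat.cast_mul, Matrix.smul_apply, smul_eq_mul] at h1
  exact (mul_dvd_mul_iff_left (by exact_mod_cast (pow_pos hl.pos u).ne')).1 h1

theorem yua_up {u k : ℕ} {g : M2} (h : Dv (l ^ k) g) :
    Dv (l ^ (u + k)) (((l ^ u : ℕ) : ℤ) • g) := fun i j => by
  rw [pow_add, Nat.cast_mul, Matrix.smul_apply, smul_eq_mul]
  exact mul_dvd_mul_left _ (h i j)

theorem yua_mono {u k : ℕ} (hk : u ≤ k) {g : M2} (h : Dv (l ^ k) g) : Dv (l ^ u) g := fun i j =>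
  (Int.natCast_dvd_natCast.2 (pow_dvd_pow l hk)).trans (h i j)

theorem yua_prim {k : ℕ} {g : M2} (h : Dv (l ^ k) g) (h' : ¬ Dv (l ^ (k + 1)) g) :
    ¬ Dv l (yua_dv (l ^ k) g) := fun h1 => h' (by
  rw [← yua_smul h]
  exact yua_up (by rwa [pow_one]))

theorem yua_sub {m : ℕ} {g r : M2} (hn : 0 < n) (hr : r.det = n) (h : Dv m (g * r.adjugate)) :
    Ker n r ⊆ Ker m g := by
  intro v hv i
  obtain ⟨w, rfl⟩ := (mem_Ker_adj hn hr).1 hv
  rw [Matrix.mulVec_mulVec, xlb_mv]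
  exact ((h i 0).mul_right _).add ((h i 1).mul_right _)

theorem yua_inv (δ : SL(2, ℤ)) (g : M2) : ((δ⁻¹ : SL(2, ℤ)) : M2) * ((δ : M2) * g) = g := by
  rw [← mul_assoc, ← Matrix.SpecialLinearGroup.coe_mul, inv_mul_cancel,
    Matrix.SpecialLinearGroup.coe_one, one_mul]

theorem walk_count (hl : l.Prime)
    (h : ∀ L ∈ Xn (l ^ a), (ρ L).det = (l ^ a : ℕ) ∧ Ker (l ^ a) (ρ L) = L) (i j : ℕ) {γ : M2}
    (hγ : ¬ Dv (l ^ (j + 1)) γ) :
    #{t ∈ WK (l ^ a) i | ∃ δ : SL(2, ℤ), wk ρ i t = (δ : M2) * γ} ≤ (2 * (a + 1)) ^ i * l ^ j := by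
  have hn : 0 < l ^ a := pow_pos hl.pos a
  have hn' : ((l ^ a : ℕ) : ℤ) ≠ 0 := by exact_mod_cast hn.ne'
  induction i generalizing j γ with
  | zero =>
    refine (card_filter_le _ _).trans ?_
    rw [pow_zero, one_mul]
    simpa [WK] using Nat.one_le_pow j l hl.pos
  | succ i ih =>
    obtain ⟨k, hk, h1, h2⟩ := yua_cont hγ
    let g : Set V2 → M2 := fun L => yua_dv (l ^ a) (γ * (ρ L).adjugate)
    let A : ℕ → Finset (Set V2) := fun d => {L ∈ Xn (l ^ a) |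
      L ⊆ Ker (l ^ (a - d)) (yua_dv (l ^ k) γ) ∧ d ≤ k ∧ ¬ Dv (l ^ (k - d + 1)) (g L)}
    let B : Set V2 → Finset (Fin (i + 1) → Set V2) := fun L =>
      {t ∈ WK (l ^ a) i | ∃ δ : SL(2, ℤ), wk ρ i t = (δ : M2) * g L}.image fun t => Fin.cons L t
    have hsub : {t ∈ WK (l ^ a) (i + 1) | ∃ δ : SL(2, ℤ), wk ρ (i + 1) t = (δ : M2) * γ} ⊆
        (range (a + 1)).biUnion fun d => (A d).biUnion B := by
      intro t ht
      obtain ⟨ht, δ, e⟩ := mem_filter.1 ht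
      obtain ⟨hL, ht'⟩ := yua_mem ht
      obtain ⟨hd, hK⟩ := h _ hL
      rw [wk] at e
      have e1 : γ = ((δ⁻¹ : SL(2, ℤ)) : M2) * wk ρ i (Fin.tail t) * ρ (t 0) := by
        rw [mul_assoc, e, yua_inv]
      have e2 : γ * (ρ (t 0)).adjugate =
          ((l ^ a : ℕ) : ℤ) • (((δ⁻¹ : SL(2, ℤ)) : M2) * wk ρ i (Fin.tail t)) := by
        rw [e1, mul_assoc, Matrix.mul_adjugate, hd, mul_smul_comm, mul_one]
      have e3 : g (t 0) = ((δ⁻¹ : SL(2, ℤ)) : M2) * wk ρ i (Fin.tail t) :=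
        xla_cancel hn' ((yua_smul (xla_ex.2 ⟨_, e2⟩)).trans e2)
      rw [← e3] at e1 e2
      obtain ⟨c, hc, h3, h4⟩ := yua_cont (l := l) (j := k) (γ := g (t 0)) fun h5 =>
        h2 (e1 ▸ yua_mulr h5 _)
      have h5 : k ≤ a + c := by
        by_contra h6
        refine h4 (yua_canc hl (u := a) ?_)
        rw [← e2]
        exact yua_mono (by omega) (yua_mulr h1 _)
      refine mem_biUnion.2 ⟨k - c, mem_range.2 (by omega), mem_biUnion.2 ⟨t 0,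
        mem_filter.2 ⟨hL, ?_, Nat.sub_le _ _, by rwa [Nat.sub_sub_self hc]⟩, mem_image.2
          ⟨Fin.tail t, mem_filter.2 ⟨ht', δ, ?_⟩, Fin.cons_self_tail t⟩⟩⟩
      · rw [← hK]
        refine yua_sub hn hd (yua_canc hl (u := k) ?_)
        rw [← smul_mul_assoc, yua_smul h1, e2, show k + (a - (k - c)) = a + c by omega]
        exact yua_up h3
      · rw [e3]
        simpa using (yua_inv δ⁻¹ (wk ρ i (Fin.tail t))).symm
    have hd : ∀ d ∈ range (a + 1), #((A d).biUnion B) ≤ 2 * ((2 * (a + 1)) ^ i * l ^ j) := by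
      intro d hd
      have hd' : d ≤ a := Nat.lt_succ_iff.1 (mem_range.1 hd)
      by_cases hdk : d ≤ k
      · have h3 : #(A d) ≤ 2 * l ^ d := by
          have h4 := line_count hl (Nat.sub_le a d) (yua_prim h1 h2)
          rw [Nat.sub_sub_self hd'] at h4
          exact (card_le_card fun L hL =>
            mem_filter.2 ⟨(mem_filter.1 hL).1, (mem_filter.1 hL).2.1⟩).trans h4
        have h4 := card_biUnion_le_card_mul (A d) B _ fun L hL =>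
          card_image_le.trans (ih (k - d) (mem_filter.1 hL).2.2.2)
        refine h4.trans ((Nat.mul_le_mul_right _ h3).trans ?_)
        have h5 : l ^ d * l ^ (k - d) ≤ l ^ j := by
          rw [← pow_add]
          exact Nat.pow_le_pow_right hl.pos (by omega)
        calc 2 * l ^ d * ((2 * (a + 1)) ^ i * l ^ (k - d))
            = 2 * ((2 * (a + 1)) ^ i * (l ^ d * l ^ (k - d))) := by ring
          _ ≤ _ := by gcongr
      · have h3 : A d = ∅ := filter_eq_empty_iff.2 fun L _ hL => hdk hL.2.1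
        simp [h3]
    refine (card_le_card hsub).trans ((card_biUnion_le_card_mul _ _ _ hd).trans (le_of_eq ?_))
    rw [card_range]
    ring

theorem yua_fib {α β : Type} [DecidableEq β] (s : Finset α) (f : α → β) {c d : ℝ} (hc : 0 ≤ c)
    (h1 : ∀ x₀ ∈ s, (#{x ∈ s | f x = f x₀} : ℝ) ≤ c) (h2 : (#(s.image f) : ℝ) ≤ d) :
    (#s : ℝ) ≤ c * d := by
  rw [card_eq_sum_card_image f s, Nat.cast_sum]
  refine (sum_le_card_nsmul _ _ c fun y hy => ?_).trans ?_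
  · obtain ⟨x, hx, rfl⟩ := mem_image.1 hy
    exact h1 x hx
  · rw [nsmul_eq_mul, mul_comm]
    exact mul_le_mul_of_nonneg_left h2 hc

theorem yua_adj (g : M2) : g.adjugate.adjugate = g := by
  rw [Matrix.adjugate_adjugate' g]
  simp

theorem yua_ent (g : M2) (i j : Fin 2) : ∃ i' j', g.adjugate i j = g i' j' ∨
    g.adjugate i j = -g i' j' := by
  rw [Matrix.adjugate_fin_two]
  fin_cases i <;> fin_cases j
  · exact ⟨1, 1, Or.inl rfl⟩
  · exact ⟨0, 1, Or.inr rfl⟩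
  · exact ⟨1, 0, Or.inr rfl⟩
  · exact ⟨0, 0, Or.inl rfl⟩

theorem yua_dadj {m : ℕ} {g : M2} (h : Dv m g) : Dv m g.adjugate := fun i j => by
  obtain ⟨i', j', e | e⟩ := yua_ent g i j
  · exact e ▸ h i' j'
  · exact e ▸ (h i' j').neg_right

theorem yua_badj {c : ℝ} {g : M2} (h : ∀ i j, |(g i j : ℝ)| ≤ c) (i j : Fin 2) :
    |(g.adjugate i j : ℝ)| ≤ c := by
  obtain ⟨i', j', e | e⟩ := yua_ent g i j
  · exact e ▸ h i' j'
  · rw [e, Int.cast_neg, abs_neg]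
    exact h i' j'

theorem yua_eta (hl : l.Prime) {b e : ℕ} {H : ℝ} {X : M2} (hX : ¬ Dv l X) (E : Finset M2)
    (h : ∀ g ∈ E, g.det = (l ^ b : ℕ) ∧ ¬ Dv l g ∧ Dv (l ^ (b - e)) (X * g) ∧
      ∀ i j, |(g i j : ℝ)| ≤ H * Real.sqrt (l ^ b : ℕ)) :
    (#E : ℝ) ≤ (4 * H ^ 2 + 1) ^ 4 * (2 * l ^ e) := by
  have hn : 0 < l ^ b := pow_pos hl.pos b
  refine yua_fib E (fun g => Ker (l ^ b) g.adjugate) (by positivity) (fun g₀ _ => ?_) ?_
  · rw [← card_image_of_injective _ (Function.LeftInverse.injective yua_adj)]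
    refine card_bdd hn (Ker (l ^ b) g₀.adjugate) _ fun g' hg' => ?_
    obtain ⟨g, hg, rfl⟩ := mem_image.1 hg'
    obtain ⟨hg, e⟩ := mem_filter.1 hg
    exact ⟨(xla_det_adj g).trans (h g hg).1, e, yua_badj (h g hg).2.2.2⟩
  · have h1 : E.image (fun g => Ker (l ^ b) g.adjugate) ⊆
        {L ∈ Xn (l ^ b) | L ⊆ Ker (l ^ (b - e)) X} := by
      intro L hL
      obtain ⟨g, hg, rfl⟩ := mem_image.1 hL
      obtain ⟨h1, h2, h3, -⟩ := h g hg
      have h4 := (xla_det_adj g).trans h1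
      refine mem_filter.2 ⟨(mem_Xn hn).2 (isLn_Ker_prim hn h4 fun l' hl' hd h5 => h2 ?_),
        yua_sub hn h4 (by rwa [yua_adj])⟩
      rw [← (Nat.prime_dvd_prime_iff_eq hl' hl).1 (hl'.dvd_of_dvd_pow hd), ← yua_adj g]
      exact yua_dadj h5
    have h2 := (card_le_card h1).trans (line_count hl (Nat.sub_le b e) hX)
    have h3 : l ^ (b - (b - e)) ≤ l ^ e := Nat.pow_le_pow_right hl.pos (by omega)
    exact_mod_cast h2.trans (Nat.mul_le_mul_left 2 h3)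

theorem yua_det {k A : ℕ} (hl : l.Prime) {g : M2} (hd : g.det = (l ^ A : ℕ)) (h : Dv (l ^ k) g) :
    2 * k ≤ A ∧ (yua_dv (l ^ k) g).det = (l ^ (A - 2 * k) : ℕ) := by
  have h1 : ((l ^ (2 * k) : ℕ) : ℤ) * (yua_dv (l ^ k) g).det = (l ^ A : ℕ) := by
    rw [← hd]
    conv_rhs => rw [← yua_smul h, Matrix.det_smul, Fintype.card_fin]
    rw [pow_mul', Nat.cast_pow]
  have h2 : 2 * k ≤ A :=
    (Nat.pow_dvd_pow_iff_le_right hl.one_lt).1 (Int.natCast_dvd_natCast.1 ⟨_, h1.symm⟩)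
  refine ⟨h2, mul_left_cancel₀ (a := ((l ^ (2 * k) : ℕ) : ℤ))
    (by exact_mod_cast (pow_pos hl.pos _).ne') ?_⟩
  rw [h1, ← Nat.cast_mul, ← pow_add, Nat.add_sub_cancel' h2]

theorem yua_bdv {m : ℕ} (hm : 0 < m) {c : ℝ} {g : M2} (h : Dv m g)
    (hb : ∀ i j, |(g i j : ℝ)| ≤ m * c) (i j : Fin 2) : |(yua_dv m g i j : ℝ)| ≤ c := by
  have h1 := hb i j
  have hm' : (0 : ℝ) < m := by exact_mod_cast hm
  rw [← yua_smul h, Matrix.smul_apply, smul_eq_mul, Int.cast_mul, Int.cast_natCast, abs_mul,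
    abs_of_pos hm'] at h1
  exact le_of_mul_le_mul_left h1 hm'

theorem yua_img {α : Type} {m : ℕ} (s : Finset α) (f : α → M2) (h : ∀ x ∈ s, Dv m (f x)) :
    #(s.image f) ≤ #(s.image fun x => yua_dv m (f x)) := by
  refine (card_le_card fun g hg => ?_).trans (card_image_le (f := fun g : M2 => (m : ℤ) • g))
  obtain ⟨x, hx, rfl⟩ := mem_image.1 hg
  exact mem_image.2 ⟨_, mem_image_of_mem _ hx, yua_smul (h x hx)⟩

theorem yua_fix (hl : l.Prime)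
    (h : ∀ L ∈ Xn (l ^ a), (ρ L).det = (l ^ a : ℕ) ∧ Ker (l ^ a) (ρ L) = L) {i J j j' : ℕ} {H : ℝ}
    {η : (Fin i → Set V2) → M2} {X : M2} (hX : Dv (l ^ J) X) (hX' : ¬ Dv (l ^ (J + 1)) X)
    {T : Finset (Fin i → Set V2)} (hT : T ⊆ WK (l ^ a) i)
    (hη : ∀ t ∈ T, (∃ δ : SL(2, ℤ), η t = (δ : M2) * wk ρ i t) ∧ (η t).det = (l ^ (a * i) : ℕ) ∧
      ∀ j j', |(η t j j' : ℝ)| ≤ H * Real.sqrt (l ^ (a * i) : ℕ))
    (Z : Finset ((Fin i → Set V2) × (Fin i → Set V2)))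
    (hZ : ∀ z ∈ Z, z.1 ∈ T ∧ z.2 ∈ T ∧ η z.2 * (η z.1).adjugate = X ∧ Dv (l ^ j) (η z.1) ∧
      ¬ Dv (l ^ (j + 1)) (η z.1) ∧ Dv (l ^ j') (η z.2) ∧ ¬ Dv (l ^ (j' + 1)) (η z.2)) :
    (#Z : ℝ) ≤ (2 * (a + 1)) ^ (2 * i) * (4 * H ^ 2 + 1) ^ 4 * (2 * l ^ J) := by
  rcases Z.eq_empty_or_nonempty with rfl | ⟨z₁, hz₁⟩
  · rw [card_empty, Nat.cast_zero]
    positivity
  have hN : ((l ^ (a * i) : ℕ) : ℤ) ≠ 0 := by exact_mod_cast (pow_pos hl.pos _).ne'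
  have hXη : ∀ z ∈ Z, X * η z.1 = ((l ^ (a * i) : ℕ) : ℤ) • η z.2 := fun z hz => by
    rw [← (hZ z hz).2.2.1, mul_assoc, Matrix.adjugate_mul, (hη _ (hZ z hz).1).2.1, mul_smul_comm,
      mul_one]
  have hJ : j + j' ≤ J := by
    by_contra hc
    obtain ⟨-, -, e, h1, -, h2, -⟩ := hZ z₁ hz₁
    refine hX' (yua_mono (k := j' + j) (by omega) ?_)
    rw [← e, ← yua_smul h2, smul_mul_assoc]
    exact yua_up (yua_mull (yua_dadj h1) _)
  have hw : ∀ t ∈ T, ∀ g, η t = g →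
      t ∈ {t ∈ WK (l ^ a) i | ∃ δ : SL(2, ℤ), wk ρ i t = (δ : M2) * g} := fun t ht g e => by
    obtain ⟨δ, e1⟩ := (hη t ht).1
    exact mem_filter.2 ⟨hT ht, δ⁻¹, by rw [← e, e1, yua_inv]⟩
  have key := yua_fib Z (fun z => η z.1)
    (c := (((2 * (a + 1)) ^ i * l ^ j * ((2 * (a + 1)) ^ i * l ^ j') : ℕ) : ℝ))
    (d := (4 * H ^ 2 + 1) ^ 4 * (2 * l ^ (J - j - j'))) (Nat.cast_nonneg _) (fun z₀ hz₀ => ?_) ?_
  · refine key.trans (le_of_eq ?_)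
    obtain ⟨e, rfl⟩ := Nat.exists_eq_add_of_le hJ
    rw [show j + j' + e - j - j' = e by omega]
    push_cast
    ring
  · refine Nat.cast_le.2 ((card_le_card fun z hz => ?_).trans ((card_product _ _).le.trans
      (Nat.mul_le_mul (walk_count hl h i j (hZ z₀ hz₀).2.2.2.2.1)
        (walk_count hl h i j' (hZ z₀ hz₀).2.2.2.2.2.2))))
    obtain ⟨hz, e⟩ := mem_filter.1 hz
    refine mem_product.2 ⟨hw _ (hZ z hz).1 _ e, hw _ (hZ z hz).2.1 _ (xla_cancel hN ?_)⟩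
    rw [← hXη z hz, ← hXη z₀ hz₀, e]
  · refine (Nat.cast_le.2 (yua_img (m := l ^ j) Z _ fun z hz => (hZ z hz).2.2.2.1)).trans
      (yua_eta hl (b := a * i - 2 * j) (yua_prim hX hX') _ fun g hg => ?_)
    obtain ⟨z, hz, rfl⟩ := mem_image.1 hg
    obtain ⟨h1, -, -, h2, h3, h4, -⟩ := hZ z hz
    obtain ⟨h5, h6⟩ := yua_det hl (hη _ h1).2.1 h2
    refine ⟨h6, yua_prim h2 h3, ?_, yua_bdv (pow_pos hl.pos j) h2 fun u v => ?_⟩
    · by_cases hc : a * i - 2 * j - (J - j - j') = 0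
      · rw [hc]
        exact fun _ _ => by simp
      · refine yua_canc hl (u := j) (yua_canc hl (u := J) ?_)
        rw [← mul_smul_comm, yua_smul h2, ← smul_mul_assoc, yua_smul hX, hXη z hz,
          show J + (j + (a * i - 2 * j - (J - j - j'))) = a * i + j' by omega]
        exact yua_up h4
    · refine ((hη _ h1).2.2 u v).trans (le_of_eq ?_)
      obtain ⟨b, hb⟩ := Nat.exists_eq_add_of_le h5
      rw [hb, Nat.add_sub_cancel_left, pow_add, pow_mul', Nat.cast_mul, Nat.cast_pow _ 2,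
        Real.sqrt_mul (sq_nonneg _), Real.sqrt_sq (Nat.cast_nonneg _)]
      ring

theorem yua_num {u h Q : ℝ} (hu : 1 ≤ u) (hh : u ≤ h) (hQ : 1 ≤ Q) :
    u * ((h / u / Q ^ 2 + 1) * (h / u / Q + 1)) ≤ h ^ 2 / Q ^ 3 + 3 * h := by
  have h0 : 0 ≤ h := by linarith
  have e : u * ((h / u / Q ^ 2 + 1) * (h / u / Q + 1)) =
      h ^ 2 / Q ^ 3 / u + h / Q ^ 2 + h / Q + u := by
    field_simp
    ring
  have h1 : h ^ 2 / Q ^ 3 / u ≤ h ^ 2 / Q ^ 3 := div_le_self (by positivity) hu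
  have h2 : h / Q ^ 2 ≤ h := div_le_self h0 (one_le_pow₀ hQ)
  have h3 : h / Q ≤ h := div_le_self h0 hQ
  linarith

theorem pair_count {ε : ℝ} (hε : 0 < ε) : ∃ C : ℝ, 0 < C ∧ ∀ (l a i Q : ℕ) (H : ℝ)
    (ρ : Set V2 → M2) (T : Finset (Fin i → Set V2)) (η : (Fin i → Set V2) → M2), l.Prime →
    Odd Q → ¬ l ∣ Q → 1 ≤ H →
    (∀ L ∈ Xn (l ^ a), (ρ L).det = (l ^ a : ℕ) ∧ Ker (l ^ a) (ρ L) = L) → T ⊆ WK (l ^ a) i →
    (∀ t ∈ T, (∃ δ : SL(2, ℤ), η t = (δ : M2) * wk ρ i t) ∧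
      ∀ j j', |(η t j j' : ℝ)| ≤ H * Real.sqrt ((l ^ a) ^ i : ℕ)) →
    (#{z ∈ T ×ˢ T | ∃ s : ℤ, Cg Q (η z.2 * (η z.1).adjugate) s} : ℝ) ≤
      C * PB a i #Q.primeFactors H (l ^ a : ℕ) Q ε := by
  obtain ⟨C, hC, hs⟩ := scal_gen hε
  refine ⟨2 * C, by positivity, fun l a i Q H ρ T η hl hQ hlQ hH h hT hη₀ => ?_⟩
  have hη : ∀ t ∈ T, (∃ δ : SL(2, ℤ), η t = (δ : M2) * wk ρ i t) ∧
      (η t).det = (l ^ (a * i) : ℕ) ∧
      ∀ j j', |(η t j j' : ℝ)| ≤ H * Real.sqrt (l ^ (a * i) : ℕ) := fun t ht => by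
    obtain ⟨⟨δ, e⟩, h1⟩ := hη₀ t ht
    refine ⟨⟨δ, e⟩, ?_, by rwa [pow_mul]⟩
    rw [e, Matrix.det_mul, δ.det_coe, one_mul, wk_det (fun L hL => (h L hL).1) i (hT ht), pow_mul,
      Nat.cast_pow (l ^ a)]
  set Z := {z ∈ T ×ˢ T | ∃ s : ℤ, Cg Q (η z.2 * (η z.1).adjugate) s} with hZ
  set Hh : ℝ := 2 * H ^ 2 * ((l ^ a : ℕ) : ℝ) ^ i with hHh
  have hHh' : Hh = 2 * H ^ 2 * (l ^ (a * i) : ℕ) := by rw [hHh, pow_mul, Nat.cast_pow (l ^ a)]
  have hQ1 : (1 : ℝ) ≤ Q := by exact_mod_cast hQ.pos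
  have hl1 : (1 : ℝ) ≤ l := by exact_mod_cast hl.pos
  have hdX : ∀ z ∈ Z, (η z.2 * (η z.1).adjugate).det = (l ^ (2 * (a * i)) : ℕ) := fun z hz => by
    obtain ⟨h1, h2⟩ := mem_product.1 (mem_filter.1 hz).1
    rw [Matrix.det_mul, xla_det_adj, (hη _ h1).2.1, (hη _ h2).2.1, two_mul, pow_add, Nat.cast_mul]
  let Y : ℕ × ℕ × ℕ → Finset ((Fin i → Set V2) × (Fin i → Set V2)) := fun κ => {z ∈ Z |
    (Dv (l ^ κ.1) (η z.2 * (η z.1).adjugate) ∧ ¬ Dv (l ^ (κ.1 + 1)) (η z.2 * (η z.1).adjugate)) ∧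
    Dv (l ^ κ.2.1) (η z.1) ∧ ¬ Dv (l ^ (κ.2.1 + 1)) (η z.1) ∧
    Dv (l ^ κ.2.2) (η z.2) ∧ ¬ Dv (l ^ (κ.2.2 + 1)) (η z.2)}
  let R := range (a * i + 1) ×ˢ range (a * i + 1) ×ˢ range (a * i + 1)
  have hsub : Z ⊆ R.biUnion Y := by
    intro z hz
    obtain ⟨h1, h2⟩ := mem_product.1 (mem_filter.1 hz).1
    obtain ⟨J, hJ, k1⟩ := yua_cont (l := l) (j := a * i) (γ := η z.2 * (η z.1).adjugate)
      fun hc => by have := (yua_det hl (hdX z hz) hc).1; omega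
    obtain ⟨j, hj, k2⟩ := yua_cont (l := l) (j := a * i) (γ := η z.1)
      fun hc => by have := (yua_det hl (hη _ h1).2.1 hc).1; omega
    obtain ⟨j', hj', k3⟩ := yua_cont (l := l) (j := a * i) (γ := η z.2)
      fun hc => by have := (yua_det hl (hη _ h2).2.1 hc).1; omega
    exact mem_biUnion.2 ⟨(J, j, j'), mem_product.2 ⟨mem_range.2 (Nat.lt_succ_of_le hJ),
      mem_product.2 ⟨mem_range.2 (Nat.lt_succ_of_le hj), mem_range.2 (Nat.lt_succ_of_le hj')⟩⟩,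
      mem_filter.2 ⟨hz, k1, k2.1, k2.2, k3⟩⟩
  have hY : ∀ κ ∈ R, (#(Y κ) : ℝ) ≤ 2 * C * ((2 * (a + 1)) ^ (2 * i) * (4 * H ^ 2 + 1) ^ 4 *
      2 ^ #Q.primeFactors * Hh ^ ε * (Hh ^ 2 / Q ^ 3 + 3 * Hh)) := by
    rintro ⟨J, j, j'⟩ hκ
    have hJ : J ≤ a * i := Nat.lt_succ_iff.1 (mem_range.1 (mem_product.1 hκ).1)
    have hu1 : (1 : ℝ) ≤ (l : ℝ) ^ J := one_le_pow₀ hl1
    have hu0 : (0 : ℝ) < (l : ℝ) ^ J := by positivity
    have hu2 : (l : ℝ) ^ J ≤ Hh := by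
      have h1 : (l : ℝ) ^ J ≤ l ^ (a * i) := pow_le_pow_right₀ hl1 hJ
      have h2 : (1 : ℝ) ≤ 2 * H ^ 2 := by nlinarith
      rw [hHh', Nat.cast_pow]
      exact h1.trans (le_mul_of_one_le_left (by positivity) h2)
    have hu3 : 1 ≤ Hh / (l : ℝ) ^ J := (one_le_div hu0).2 hu2
    have key := yua_fib (Y (J, j, j')) (fun z => η z.2 * (η z.1).adjugate)
      (c := (2 * (a + 1)) ^ (2 * i) * (4 * H ^ 2 + 1) ^ 4 * (2 * l ^ J))
      (d := C * 2 ^ #Q.primeFactors * (Hh / l ^ J) ^ ε * (Hh / l ^ J / (Q : ℝ) ^ 2 + 1) *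
        (Hh / l ^ J / Q + 1)) (by positivity) (fun z₀ hz₀ => ?_) ?_
    · refine key.trans ?_
      have h1 : (Hh / l ^ J) ^ ε ≤ Hh ^ ε :=
        Real.rpow_le_rpow (by positivity) (div_le_self (by linarith) hu1) hε.le
      have h2 := yua_num hu1 hu2 hQ1
      have h3 : (0 : ℝ) ≤ Hh := by linarith
      calc _ = 2 * C * ((2 * (a + 1)) ^ (2 * i) * (4 * H ^ 2 + 1) ^ 4 * 2 ^ #Q.primeFactors *
            (Hh / l ^ J) ^ ε *
            (l ^ J * ((Hh / l ^ J / (Q : ℝ) ^ 2 + 1) * (Hh / l ^ J / Q + 1)))) := by ring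
        _ ≤ _ := by gcongr
    · obtain ⟨k1, k2⟩ := (mem_filter.1 hz₀).2.1
      refine yua_fix hl h (j := j) (j' := j') k1 k2 hT hη _ fun z hz => ?_
      obtain ⟨hz, e⟩ := mem_filter.1 hz
      obtain ⟨hz, -, k3⟩ := mem_filter.1 hz
      obtain ⟨h1, h2⟩ := mem_product.1 (mem_filter.1 hz).1
      exact ⟨h1, h2, e, k3⟩
    · refine (Nat.cast_le.2 (yua_img (m := l ^ J) _ _ fun z hz => (mem_filter.1 hz).2.1.1)).trans
        (hs Q (l ^ (2 * (a * i) - 2 * J)) _ _ hQ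
          ((hl.coprime_iff_not_dvd.2 hlQ).symm.pow_right _) (pow_pos hl.pos _) hu3 fun g hg => ?_)
      obtain ⟨z, hz, rfl⟩ := mem_image.1 hg
      obtain ⟨hz, ⟨k1, -⟩, -⟩ := mem_filter.1 hz
      obtain ⟨hp, s, k2⟩ := mem_filter.1 hz
      obtain ⟨h1, h2⟩ := mem_product.1 hp
      have hc : IsCoprime (Q : ℤ) ((l ^ J : ℕ) : ℤ) :=
        Nat.isCoprime_iff_coprime.2 ((hl.coprime_iff_not_dvd.2 hlQ).symm.pow_right _)
      have k3 : ∀ u v, (η z.2 * (η z.1).adjugate) u v =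
          ((l ^ J : ℕ) : ℤ) * yua_dv (l ^ J) (η z.2 * (η z.1).adjugate) u v := fun u v =>
        (congrFun (congrFun (yua_smul k1) u) v).symm
      refine ⟨(yua_det hl (hdX z hz) k1).2, yua_bdv (pow_pos hl.pos J) k1 fun u v => ?_,
        hc.dvd_of_dvd_mul_left ?_, hc.dvd_of_dvd_mul_left ?_, hc.dvd_of_dvd_mul_left ?_⟩
      · have h3 : ∀ w, |(η z.2 u w : ℝ) * ((η z.1).adjugate w v : ℤ)| ≤
            H ^ 2 * (l ^ (a * i) : ℕ) := fun w => by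
          have h4 := Real.mul_self_sqrt (Nat.cast_nonneg (α := ℝ) (l ^ (a * i)))
          rw [abs_mul]
          refine (mul_le_mul ((hη _ h2).2.2 u w) (yua_badj (hη _ h1).2.2 w v) (abs_nonneg _)
            (by positivity)).trans (le_of_eq ?_)
          linear_combination H ^ 2 * h4
        rw [Nat.cast_pow l J, mul_div_cancel₀ _ hu0.ne', hHh', Matrix.mul_apply, Fin.sum_univ_two,
          Int.cast_add, Int.cast_mul, Int.cast_mul]
        refine (abs_add_le _ _).trans ?_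
        linarith [h3 0, h3 1]
      · rw [← k3]
        simpa [Matrix.intCast_apply] using k2 0 1
      · rw [← k3]
        simpa [Matrix.intCast_apply] using k2 1 0
      · rw [mul_sub, ← k3, ← k3]
        simpa [Matrix.intCast_apply] using (k2 0 0).sub (k2 1 1)
  have h1 : (#Z : ℝ) ≤ ∑ κ ∈ R, (#(Y κ) : ℝ) := by
    exact_mod_cast (card_le_card hsub).trans card_biUnion_le
  refine h1.trans ((sum_le_card_nsmul _ _ _ hY).trans (le_of_eq ?_))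
  rw [nsmul_eq_mul, PB, ← hHh]
  simp only [R, card_product, card_range]
  push_cast
  ring

end Pool.Agent.EQ
end
end
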