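import Pool.Agent.K.MP_ad7a55_nt.C47
import Pool.Agent.K.MP_ad7a55_nt.C51
import Pool.Agent.K.MP_ad7a55_nt.C45
import Pool.Agent.K.MP_ad7a55_nt.C44
import Pool.Agent.K.MP_ad7a55_nt.C38
import Pool.Agent.K.MP_ad7a55_nt.C37

-- part Pool.Agent.P.MP_ad7a55_nt.CtG
section

/-! The exceptional points form a small part of the orbit. -/

set_option autoImplicit false

noncomputable section

open MeasureTheory Topology Filter UpperHalfPlane
open scoped MatrixGroups ENNReal BoundedContinuousFunction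

namespace Pool.Agent.EQ

/-- All fibres of the projection to two coordinates have the same size. -/
theorem frac_le {n : ℕ} {F : IntermediateField ℚ ℂ} {x : Fin n → ℂ} (hx : (galOrbit F x).Finite)
    (k l : Fin n) {S : Set (ℂ × ℂ)} (hS : S.Finite) :
    {z | z ∈ galOrbit F x ∧ (z k, z l) ∈ S}.ncard * (orb2 F (x k) (x l)).ncard ≤
      S.ncard * (galOrbit F x).ncard := by
  classical
  set O := hx.toFinset with hO
  have hmem : ∀ z, z ∈ O ↔ z ∈ galOrbit F x := fun z => hx.mem_toFinset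
  set f := (O.filter fun z => (z k, z l) = (x k, x l)).card with hf
  have himg : orb2 F (x k) (x l) = ↑(O.image fun z => (z k, z l)) := by
    ext w
    simp only [Finset.coe_image, Set.mem_image, Finset.mem_coe, hmem]
    constructor
    · rintro ⟨σ, hσ, rfl⟩
      exact ⟨_, ⟨σ, hσ, rfl⟩, rfl⟩
    · rintro ⟨_, ⟨σ, hσ, rfl⟩, rfl⟩
      exact ⟨σ, hσ, rfl⟩
  have hfib : ∀ y ∈ O, (O.filter fun z => (z k, z l) = (y k, y l)).card = f := by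
    intro y hy
    obtain ⟨σ, hσ, rfl⟩ := (hmem y).1 hy
    have h1 := sum_orbit hx hσ fun z => if (z k, z l) = (σ (x k), σ (x l)) then 1 else 0
    simp only [Prod.mk.injEq, EmbeddingLike.apply_eq_iff_eq, Finset.sum_boole, Nat.cast_inj] at h1
    simp only [hf, Prod.mk.injEq]
    exact h1.symm
  have h1 : f * (O.image fun z => (z k, z l)).card ≤ O.card :=
    Finset.mul_card_image_le_card _ _ fun w hw => by
      obtain ⟨y, hy, rfl⟩ := Finset.mem_image.1 hw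
      exact (hfib y hy).ge
  have h2 : (O.filter fun z => (z k, z l) ∈ S).card ≤ f * hS.toFinset.card :=
    Finset.card_le_mul_card_image_of_maps_to (f := fun z : Fin n → ℂ => (z k, z l))
      (fun z hz => hS.mem_toFinset.2 (Finset.mem_filter.1 hz).2) f fun w _ => by
        rcases ((O.filter fun z => (z k, z l) ∈ S).filter
          fun z => (z k, z l) = w).eq_empty_or_nonempty with h | ⟨y, hy⟩
        · rw [h]; exact Nat.zero_le _
        · obtain ⟨hy1, rfl⟩ := Finset.mem_filter.1 hy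
          rw [← hfib y (Finset.mem_filter.1 hy1).1]
          exact Finset.card_le_card (Finset.filter_subset_filter _ (Finset.filter_subset _ _))
  have e1 : {z | z ∈ galOrbit F x ∧ (z k, z l) ∈ S} = ↑(O.filter fun z => (z k, z l) ∈ S) := by
    ext z
    simp only [Set.mem_ofPred_eq, Finset.coe_filter, hmem]
  rw [e1, himg, Set.ncard_coe_finset, Set.ncard_coe_finset, Set.ncard_eq_toFinset_card _ hS,
    Set.ncard_eq_toFinset_card _ hx]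
  calc _ ≤ f * hS.toFinset.card * (O.image fun z => (z k, z l)).card := Nat.mul_le_mul_right _ h2
    _ = hS.toFinset.card * (f * (O.image fun z => (z k, z l)).card) := by ring
    _ ≤ _ := Nat.mul_le_mul_left _ h1

theorem ctg_num (K : ℝ) {t : ℝ} (ht : 0 < t) : ∃ Y : ℝ, ∀ X, Y ≤ X → K ≤ X ^ t :=
  eventually_atTop.1 ((tendsto_rpow_atTop ht).eventually_ge_atTop K)

/-- A set of pairs that is small against the class number has a small preimage. -/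
theorem ctg_core (F : IntermediateField ℚ ℂ) [FiniteDimensional ℚ F] {ε : ℝ} (hε : 0 < ε) :
    ∃ c₀ : ℝ, 0 < c₀ ∧ ∀ (n : ℕ) (τ : Fin n → ℍ) (D : Fin n → ℤ), (∀ k, HasDisc (τ k) (D k)) →
      ∀ (k l : Fin n) (E : ℤ) (g₁ g₂ : ℕ), IsD E → Nat.Coprime g₁ g₂ → 0 < g₁ → 0 < g₂ →
      D k = g₁ ^ 2 * E → D l = g₂ ^ 2 * E → D k < -576 → D l < -576 → ∀ S : Set (ℂ × ℂ),
      S.Finite → ∀ δ : ℝ, 0 ≤ δ →
      (S.ncard : ℝ) ≤ δ * (c₀ * (((g₁ : ℝ) * g₂) ^ 2 * (-(E : ℝ))) ^ (1 / 2 - ε)) →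
      ∀ A : Set (Fin n → ℂ), (∀ z ∈ A, z ∈ (galOrbit F fun k => jInv (τ k)) ∧ (z k, z l) ∈ S) →
      (A.ncard : ℝ) ≤ δ * (galOrbit F fun k => jInv (τ k)).ncard := by
  obtain ⟨c, hc, hcl⟩ := class_lower hε
  have hd : (0 : ℝ) < Module.finrank ℚ F := by exact_mod_cast Module.finrank_pos
  refine ⟨c / (15 * Module.finrank ℚ F), by positivity, fun n τ D hτ k l E g₁ g₂ hE hg h1 h2 e1 e2
    b1 b2 S hS δ hδ hcard A hA => ?_⟩
  have hO := orbit_finite F hτ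
  have hfin : (orb2 F (jInv (τ k)) (jInv (τ l))).Finite := by
    refine (hO.image fun z => (z k, z l)).subset ?_
    rintro _ ⟨σ, hσ, rfl⟩
    exact ⟨_, ⟨σ, hσ, rfl⟩, rfl⟩
  have hpos : (0 : ℝ) < (orb2 F (jInv (τ k)) (jInv (τ l))).ncard := by
    exact_mod_cast (Set.ncard_pos hfin).2 ⟨_, RingEquiv.refl _, fun _ _ => rfl, rfl⟩
  have a1 := hcl _ (cm_isD_sq hE (Nat.mul_pos h1 h2))
  have a2 := orbit_lower hE hg (e1 ▸ discL_one (hτ k)) (e2 ▸ discL_one (hτ l)) (e1 ▸ b1) (e2 ▸ b2)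
  rw [jL_one, jL_one] at a2
  have a3 : ((Cl ((g₁ * g₂ : ℕ) ^ 2 * E)).ncard : ℝ) ≤
      15 * (Module.finrank ℚ F * (orb2 F (jInv (τ k)) (jInv (τ l))).ncard) := by
    exact_mod_cast a2.trans (Nat.mul_le_mul_left _ (card_orb2_bot F hfin).2)
  have e3 : -((((g₁ * g₂ : ℕ) : ℤ) ^ 2 * E : ℤ) : ℝ) = ((g₁ : ℝ) * g₂) ^ 2 * (-(E : ℝ)) := by
    push_cast; ring
  rw [e3] at a1
  have a4 : c / (15 * Module.finrank ℚ F) * (((g₁ : ℝ) * g₂) ^ 2 * (-(E : ℝ))) ^ (1 / 2 - ε) ≤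
      (orb2 F (jInv (τ k)) (jInv (τ l))).ncard := by
    rw [div_mul_eq_mul_div, div_le_iff₀ (by positivity)]
    linarith
  have a5 : (A.ncard : ℝ) * (orb2 F (jInv (τ k)) (jInv (τ l))).ncard ≤
      S.ncard * (galOrbit F fun k => jInv (τ k)).ncard := by
    exact_mod_cast (Nat.mul_le_mul_right _ (Set.ncard_le_ncard (fun z hz => hA z hz)
      (hO.subset fun z hz => hz.1))).trans (frac_le hO k l hS)
  refine le_of_mul_le_mul_right (a5.trans ?_) hpos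
  have a6 := mul_le_mul_of_nonneg_right (hcard.trans (mul_le_mul_of_nonneg_left a4 hδ))
    (Nat.cast_nonneg (α := ℝ) (galOrbit F fun k => jInv (τ k)).ncard)
  linarith

/-- The comparison of the two powers. -/
theorem ctg_pow {C P c₀ δ X N ε t : ℝ} (hC : 0 ≤ C) (hc : 0 < c₀) (hδ : 0 < δ) (hX : 0 < X)
    (hP : 0 ≤ P) (hN : N ≤ P * X ^ (-(2 * t))) (hK : C * Real.sqrt P / (δ * c₀) ≤ X ^ (t - 2 * ε)) :
    C * X ^ (1 / 2 + ε) * Real.sqrt N ≤ δ * (c₀ * X ^ (1 / 2 - ε)) := by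
  have h1 : Real.sqrt N ≤ Real.sqrt P * X ^ (-t) := by
    refine (Real.sqrt_le_sqrt hN).trans (le_of_eq ?_)
    rw [Real.sqrt_mul hP, Real.sqrt_eq_rpow (X ^ _), ← Real.rpow_mul hX.le]
    congr 2; ring
  rw [div_le_iff₀ (by positivity)] at hK
  have h2 : X ^ (1 / 2 - ε) = X ^ (t - 2 * ε) * (X ^ (1 / 2 + ε) * X ^ (-t)) := by
    rw [← Real.rpow_add hX, ← Real.rpow_add hX]; congr 1; ring
  have h3 := mul_le_mul_of_nonneg_left h1 (show 0 ≤ C * X ^ (1 / 2 + ε) by positivity)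
  have h4 := mul_le_mul_of_nonneg_right hK (show 0 ≤ X ^ (1 / 2 + ε) * X ^ (-t) by positivity)
  rw [h2]
  linarith

variable (p : ℕ) [Fact p.Prime]

theorem frac_bad1 (F : IntermediateField ℚ ℂ) [FiniteDimensional ℚ F] (C : ℝ) (c : ℕ) {η δ : ℝ}
    (hη : 0 < η) (hδ : 0 < δ) : ∃ Y : ℝ, ∀ (n : ℕ) (τ : Fin n → ℍ) (D : Fin n → ℤ),
      (∀ k, HasDisc (τ k) (D k)) → ∀ k, D k < -576 → Y ≤ -(D k : ℝ) →
      ‖(D k : ℚ_[p])‖ ≤ (p : ℝ) ^ c * (-(D k : ℝ)) ^ (-η) →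
      ({z | z ∈ (galOrbit F fun k => jInv (τ k)) ∧ Bad1 p C (D k) (z k)}.ncard : ℝ) ≤
        δ * (galOrbit F fun k => jInv (τ k)).ncard := by
  have hε : 0 < η / 8 := by positivity
  obtain ⟨c₀, hc₀, hcore⟩ := ctg_core F hε
  obtain ⟨C', hC', hbad⟩ := card_bad1 p C hε
  obtain ⟨Y, hY⟩ := ctg_num (C' * Real.sqrt ((p : ℝ) ^ c) / (δ * c₀))
    (show 0 < η / 2 - 2 * (η / 8) by linarith)
  refine ⟨Y, fun n τ D hτ k hk hYk hp => ?_⟩
  have hD : D k < 0 := by omega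
  have hX : (0 : ℝ) < -(D k : ℝ) := by exact_mod_cast neg_pos.2 hD
  obtain ⟨hfin, hcard⟩ := hbad _ hD
  refine hcore n τ D hτ k k (D k) 1 1 (hτ k).isD (Nat.coprime_one_left 1) one_pos one_pos
    (by simp) (by simp) hk hk ((fun z => (z, z)) '' {z | Bad1 p C (D k) z}) (hfin.image _) δ hδ.le
    ?_ _ fun z hz => ⟨hz.1, z k, hz.2, rfl⟩
  have h1 : (((fun z => (z, z)) '' {z | Bad1 p C (D k) z}).ncard : ℝ) ≤
      {z | Bad1 p C (D k) z}.ncard := by exact_mod_cast Set.ncard_image_le hfin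
  rw [Nat.cast_one, one_mul, one_pow, one_mul]
  exact h1.trans (hcard.trans (ctg_pow hC'.le hc₀ hδ hX (by positivity)
    (by rwa [show 2 * (η / 2) = η by ring]) (hY _ hYk)))

/-- Both relative conductors have bounded valuation. -/
theorem ctg_unit {c g₁ g₂ : ℕ} (hg : Nat.Coprime g₁ g₂)
    (h : ‖(g₂ : ℚ_[p])‖ ≤ (p : ℝ) ^ c * ‖(g₁ : ℚ_[p])‖) : (p : ℝ) ^ (-(c : ℤ)) ≤ ‖(g₁ : ℚ_[p])‖ := by
  have hp : p.Prime := Fact.out
  have hp1 : (1 : ℝ) ≤ p := by exact_mod_cast hp.one_lt.le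
  have hu : ∀ g : ℕ, ¬ p ∣ g → ‖(g : ℚ_[p])‖ = 1 := fun g h =>
    Padic.norm_natCast_eq_one_iff.2 ((Nat.Prime.coprime_iff_not_dvd hp).2 h)
  rw [zpow_neg, zpow_natCast]
  by_cases h1 : p ∣ g₁
  · have h2 : ¬ p ∣ g₂ := fun h2 => hp.one_lt.ne' (Nat.eq_one_of_dvd_coprimes hg h1 h2)
    rw [hu g₂ h2] at h
    rwa [inv_le_iff_one_le_mul₀' (by positivity)]
  · rw [hu g₁ h1]
    exact inv_le_one_of_one_le₀ (one_le_pow₀ hp1)

theorem frac_bad2 (F : IntermediateField ℚ ℂ) [FiniteDimensional ℚ F] {m : ℤ} (hm : m ≠ 0)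
    (c c' : ℕ) {η δ : ℝ} (hη : 0 < η) (hδ : 0 < δ) : ∃ Y : ℝ, ∀ (n : ℕ) (τ : Fin n → ℍ)
      (D : Fin n → ℤ), (∀ k, HasDisc (τ k) (D k)) → ∀ (k l : Fin n) (ρ₁ ρ₂ : ℚ), D k < -576 →
      D l < -576 → 0 < ρ₁ → 0 < ρ₂ → ρ₁ ^ 2 * D k = ρ₂ ^ 2 * D l →
      ‖(ρ₁ : ℚ_[p])‖ ≤ (p : ℝ) ^ c * ‖(ρ₂ : ℚ_[p])‖ → ‖(ρ₂ : ℚ_[p])‖ ≤ (p : ℝ) ^ c * ‖(ρ₁ : ℚ_[p])‖ →
      Y ≤ -(D k : ℝ) → ‖(D k : ℚ_[p])‖ ≤ (p : ℝ) ^ c * (-(D k : ℝ)) ^ (-η) →
      ‖(D k : ℚ_[p])‖ ≤ (p : ℝ) ^ c * (-(D l : ℝ)) ^ (-η) →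
      ({z | z ∈ (galOrbit F fun k => jInv (τ k)) ∧ ∃ M₁ M₂, DiscL M₁ (D k) ∧ DiscL M₂ (D l) ∧
        jL M₁ = z k ∧ jL M₂ = z l ∧ Bad2 p m c' (D k) (D l) M₁ M₂}.ncard : ℝ) ≤
        δ * (galOrbit F fun k => jInv (τ k)).ncard := by
  have hε : 0 < η / 16 := by positivity
  have hp1 : (1 : ℝ) ≤ p := by exact_mod_cast (Fact.out : p.Prime).one_lt.le
  obtain ⟨c₀, hc₀, hcore⟩ := ctg_core F hε
  obtain ⟨C, hC, hex⟩ := card_Ex2 p hm (c + c') hε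
  obtain ⟨Y, hY⟩ := ctg_num (2 * C * Real.sqrt ((p : ℝ) ^ (3 * c)) / (δ * c₀))
    (show 0 < η / 4 - 2 * (η / 16) by linarith)
  refine ⟨Y, fun n τ D hτ k l ρ₁ ρ₂ hk hl h₁ h₂ hρ n₁ n₂ hYk hpk hpl => ?_⟩
  obtain ⟨E, g₁, g₂, hE, p₁, p₂, hg, e₁, e₂, hr⟩ := split_disc (hτ k).isD (hτ l).isD h₁ h₂ hρ
  have hn : ‖(ρ₁ : ℚ_[p])‖ * ‖(g₁ : ℚ_[p])‖ = ‖(ρ₂ : ℚ_[p])‖ * ‖(g₂ : ℚ_[p])‖ := by
    rw [← norm_mul, ← norm_mul]
    exact congrArg _ (by exact_mod_cast congrArg (fun q : ℚ => (q : ℚ_[p])) hr)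
  have r₁ : 0 < ‖(ρ₁ : ℚ_[p])‖ := norm_pos_iff.2 (by exact_mod_cast h₁.ne')
  have r₂ : 0 < ‖(ρ₂ : ℚ_[p])‖ := norm_pos_iff.2 (by exact_mod_cast h₂.ne')
  have u₁ : (p : ℝ) ^ (-(c : ℤ)) ≤ ‖(g₁ : ℚ_[p])‖ := ctg_unit p hg (le_of_mul_le_mul_left (by
    have := mul_le_mul_of_nonneg_right n₁ (norm_nonneg (g₁ : ℚ_[p]))
    linarith) r₂)
  have u₂ : (p : ℝ) ^ (-(c : ℤ)) ≤ ‖(g₂ : ℚ_[p])‖ := ctg_unit p hg.symm (le_of_mul_le_mul_left (by
    have := mul_le_mul_of_nonneg_right n₂ (norm_nonneg (g₂ : ℚ_[p]))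
    linarith) r₁)
  have hcc : (p : ℝ) ^ (-((c + c' : ℕ) : ℤ)) ≤ (p : ℝ) ^ (-(c : ℤ)) :=
    zpow_le_zpow_right₀ hp1 (by push_cast; omega)
  have hb := hex E g₁ g₂ hE hg (hcc.trans u₁) (hcc.trans u₂)
  obtain ⟨w, w', hw⟩ := orbit_classes hE hg (e₁ ▸ discL_one (hτ k)) (e₂ ▸ discL_one (hτ l))
    (e₁ ▸ hk) (e₂ ▸ hl)
  rw [← e₁, ← e₂] at hb
  refine hcore n τ D hτ k l E g₁ g₂ hE hg p₁ p₂ e₁ e₂ hk hl
    (Ex2 p m (c + c') (D k) (D l) w ∪ Ex2 p m (c + c') (D k) (D l) w')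
    ((Ex2_finite p _ _ _ _ _).union (Ex2_finite p _ _ _ _ _)) δ hδ.le ?_ _ ?_
  · set X := ((g₁ : ℝ) * g₂) ^ 2 * (-(E : ℝ)) with hX
    have hE1 : (1 : ℝ) ≤ -(E : ℝ) := by exact_mod_cast (by have := hE.1; omega : (1 : ℤ) ≤ -E)
    have q₁ : (1 : ℝ) ≤ (g₁ : ℝ) ^ 2 := one_le_pow₀ (by exact_mod_cast p₁)
    have q₂ : (1 : ℝ) ≤ (g₂ : ℝ) ^ 2 := one_le_pow₀ (by exact_mod_cast p₂)
    have d₁ : -(D k : ℝ) = (g₁ : ℝ) ^ 2 * (-(E : ℝ)) := by rw [e₁]; push_cast; ring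
    have d₂ : -(D l : ℝ) = (g₂ : ℝ) ^ 2 * (-(E : ℝ)) := by rw [e₂]; push_cast; ring
    have k₁ : 0 < -(D k : ℝ) := by rw [d₁]; positivity
    have k₂ : 0 < -(D l : ℝ) := by rw [d₂]; positivity
    have x₁ : -(D k : ℝ) ≤ X := by
      rw [d₁, hX, mul_pow, mul_right_comm]
      exact le_mul_of_one_le_right (by positivity) q₂
    have pX : 0 < X := k₁.trans_le x₁
    have x₂ : X ≤ -(D k : ℝ) * -(D l : ℝ) := by
      rw [d₁, d₂, mul_mul_mul_comm, ← mul_assoc, ← mul_pow, ← hX]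
      exact le_mul_of_one_le_right pX.le hE1
    have y₁ : ‖(D k : ℚ_[p])‖ ≤ (p : ℝ) ^ c * X ^ (-(η / 2)) := by
      refine le_of_sq_le_sq ?_ (by positivity)
      have y₂ : (-(D k : ℝ)) ^ (-η) * (-(D l : ℝ)) ^ (-η) ≤ (X ^ (-(η / 2))) ^ 2 := by
        rw [← Real.mul_rpow k₁.le k₂.le, ← Real.rpow_natCast, ← Real.rpow_mul pX.le,
          show -(η / 2) * ((2 : ℕ) : ℝ) = -η by push_cast; ring]
        exact Real.rpow_le_rpow_of_nonpos pX x₂ (by linarith)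
      have y₃ := mul_le_mul hpk hpl (norm_nonneg _) (by positivity)
      have y₄ := mul_le_mul_of_nonneg_left y₂ (sq_nonneg ((p : ℝ) ^ c))
      rw [mul_pow]
      linarith
    have y₅ : ‖(E : ℚ_[p])‖ ≤ (p : ℝ) ^ (3 * c) * X ^ (-(2 * (η / 4))) := by
      have z₁ : ‖(D k : ℚ_[p])‖ = ‖(g₁ : ℚ_[p])‖ ^ 2 * ‖(E : ℚ_[p])‖ := by
        rw [e₁]; push_cast; rw [norm_mul, norm_pow]
      rw [zpow_neg, zpow_natCast, inv_le_iff_one_le_mul₀' (by positivity)] at u₁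
      have z₂ := mul_le_mul_of_nonneg_right (one_le_pow₀ (n := 2) u₁) (norm_nonneg (E : ℚ_[p]))
      have z₃ := mul_le_mul_of_nonneg_left y₁ (sq_nonneg ((p : ℝ) ^ c))
      rw [show 2 * (η / 4) = η / 2 by ring, show (p : ℝ) ^ (3 * c) = ((p : ℝ) ^ c) ^ 3 by ring]
      rw [z₁] at z₃
      linarith
    have h3 : ((Ex2 p m (c + c') (D k) (D l) w ∪ Ex2 p m (c + c') (D k) (D l) w').ncard : ℝ) ≤
        (Ex2 p m (c + c') (D k) (D l) w).ncard + (Ex2 p m (c + c') (D k) (D l) w').ncard := by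
      exact_mod_cast Set.ncard_union_le _ _
    have h4 := ctg_pow (by positivity) hc₀ hδ pX (by positivity) y₅ (hY _ (hYk.trans x₁))
    linarith [hb w, hb w']
  · rintro z ⟨hz, M₁, M₂, m₁, m₂, j₁, j₂, hbad⟩
    refine ⟨hz, ?_⟩
    obtain ⟨σ, -, rfl⟩ := hz
    exact (hw σ M₁ M₂ m₁.isLat m₂.isLat (by rw [j₁, jL_one]) (by rw [j₂, jL_one])).imp
      (fun h => ⟨M₁, M₂, m₁, m₂, j₁, j₂, h, hbad.mono p (Nat.le_add_left _ _)⟩)
      fun h => ⟨M₁, M₂, m₁, m₂, j₁, j₂, h, hbad.mono p (Nat.le_add_left _ _)⟩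

end Pool.Agent.EQ
end
end

-- part Pool.Agent.P.MP_ad7a55_nt.MainB
section

/-! The induction over the coordinates. -/

set_option autoImplicit false

noncomputable section

open MeasureTheory Topology Filter UpperHalfPlane
open scoped MatrixGroups ENNReal BoundedContinuousFunction

namespace Pool.Agent.EQ

/-- The average over a finite set. -/
def avg {α : Type} (O : Finset α) (G : α → ℝ) : ℝ := (∑ z ∈ O, G z) / O.card

theorem abs_avg_le {α : Type} {O : Finset α} (hO : O.Nonempty) (G : α → ℝ) {B : ℝ}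
    (h : ∀ z ∈ O, |G z| ≤ B) : |avg O G| ≤ B := by
  have hc : (0 : ℝ) < O.card := by exact_mod_cast hO.card_pos
  rw [avg, abs_div, abs_of_pos hc, div_le_iff₀ hc]
  refine (Finset.abs_sum_le_sum_abs _ _).trans ((Finset.sum_le_card_nsmul _ _ _ h).trans ?_)
  rw [nsmul_eq_mul, mul_comm]

theorem ultra_max {β γ : Type} [LinearOrder γ] (𝒰 : Ultrafilter ℕ) {I : Finset β}
    (hI : I.Nonempty) (φ : ℕ → β → γ) : ∃ j ∈ I, ∀ᶠ i in 𝒰, ∀ k ∈ I, φ i k ≤ φ i j := by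
  have := (Ultrafilter.eventually_exists_mem_iff (f := 𝒰) (is := (I : Set β))
    (P := fun j i => ∀ k ∈ I, φ i k ≤ φ i j) I.finite_toSet).1
    (Eventually.of_forall fun i => I.exists_max_image (φ i) hI)
  exact this

theorem norm_int_eq (p : ℕ) [Fact p.Prime] {D : ℤ} (hD : D ≠ 0) :
    ‖(D : ℚ_[p])‖ = (p : ℝ) ^ (-(padicValInt p D : ℤ)) := by
  rw [Padic.norm_eq_zpow_neg_valuation (by exact_mod_cast hD), Padic.valuation_intCast]

theorem prod_bdd {n : ℕ} (f : Fin n → (ℂ →ᵇ ℝ)) (I : Finset (Fin n)) :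
    (Continuous fun w : Fin n → ℂ => ∏ k ∈ I, f k (w k)) ∧
      ∃ B, ∀ w : Fin n → ℂ, |∏ k ∈ I, f k (w k)| ≤ B :=
  ⟨continuous_finsetProd _ fun k _ => (f k).continuous.comp (continuous_apply k),
    ∏ k ∈ I, ‖f k‖, fun w => by
      rw [Finset.abs_prod]
      exact Finset.prod_le_prod (fun _ _ => abs_nonneg _) fun k _ => (f k).norm_coe_le_norm _⟩

/-- No isogeny of bounded degree between different coordinates. -/
def NoIsog {n : ℕ} (τ : ℕ → Fin n → ℍ) : Prop :=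
  ∀ k l, k ≠ l → ∀ N : ℕ, 0 < N → ∀ᶠ i in atTop, ∀ σ : ℂ ≃+* ℂ,
    ¬ Isog N (σ (jInv (τ i k))) (σ (jInv (τ i l)))

/-- One step of the induction, for a fixed prime. -/
theorem main_step {n : ℕ} (F : IntermediateField ℚ ℂ) [FiniteDimensional ℚ F]
    (τ : ℕ → Fin n → ℍ) (D : ℕ → Fin n → ℤ) (hD : ∀ i k, HasDisc (τ i k) (D i k))
    (hgen : NoIsog τ) (𝒰 : Ultrafilter ℕ) (h𝒰 : (𝒰 : Filter ℕ) ≤ atTop)
    (hbig : ∀ᶠ i in 𝒰, ∀ k, D i k < -576) (p : ℕ) [Fact p.Prime] (I : Finset (Fin n))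
    (j : Fin n) (hj : j ∈ I)
    (hmax : ∀ᶠ i in 𝒰, ∀ k ∈ I, padicValInt p (D i k) ≤ padicValInt p (D i j))
    (hdom : ∀ C : ℝ, ∀ᶠ i in 𝒰, ∀ k ∈ I,
      C * Real.sqrt (-(D i k : ℝ)) ≤ (p : ℝ) ^ padicValInt p (D i j))
    (f : Fin n → (ℂ →ᵇ ℝ)) : ∃ J ⊆ I, j ∈ J ∧
      Tendsto (fun i => avg (orbit_finite F (hD i)).toFinset (fun z => ∏ k ∈ I, f k (z k)) -
        (∏ k ∈ J, ∫ z, f k z ∂mY) *
          avg (orbit_finite F (hD i)).toFinset (fun z => ∏ k ∈ I \ J, f k (z k))) 𝒰 (𝓝 0) := by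
  classical
  have hp : (1 : ℝ) < p := by exact_mod_cast (Fact.out : p.Prime).one_lt
  have hp0 : (0 : ℝ) < p := one_pos.trans hp
  obtain ⟨c, hc⟩ := exists_frames p F n
  choose ρ N x e hF using fun i => hc (τ i) (D i) (hD i) j
  set O : ℕ → Finset (Fin n → ℂ) := fun i => (orbit_finite F (hD i)).toFinset with hO
  have hOne : ∀ i, (O i).Nonempty := fun i =>
    ⟨_, (orbit_finite F (hD i)).mem_toFinset.2 (orbit_self F _)⟩
  have hF' : ∀ᶠ i in 𝒰, Fr p (O i) (D i) j c (ρ i) (N i) (x i) (e i) := hbig.mono hF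
  have hneg : ∀ i k, D i k < 0 := fun i k => (hD i k).isD.1
  set v : ℕ → ℕ := fun i => padicValInt p (D i j) with hv
  set r : ℕ → ℤ := fun i => (v i : ℤ) / 2 - c with hr
  have hvt : Tendsto v 𝒰 atTop := by
    refine tendsto_atTop.2 fun b => (hdom ((p : ℝ) ^ b)).mono fun i hi => ?_
    have h1 : (1 : ℝ) ≤ Real.sqrt (-(D i j : ℝ)) := by
      rw [Real.one_le_sqrt]
      have : D i j ≤ -1 := by linarith [hneg i j]
      have : (D i j : ℝ) ≤ -1 := by exact_mod_cast this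
      linarith
    have h2 : (p : ℝ) ^ b ≤ (p : ℝ) ^ v i :=
      (le_mul_of_one_le_right (by positivity) h1).trans (hi j hj)
    exact (pow_le_pow_iff_right₀ hp).1 h2
  have hrt : Tendsto r 𝒰 atTop := by
    refine tendsto_atTop.2 fun b => (tendsto_atTop.1 hvt (2 * (b + c).toNat)).mono fun i hi => ?_
    simp only [hr]
    omega
  have hDj : ∀ i, ‖(D i j : ℚ_[p])‖ = (p : ℝ) ^ (-(v i : ℤ)) := fun i =>
    norm_int_eq p (hneg i j).ne
  have hr1 : ∀ i, ‖(D i j : ℚ_[p])‖ * ((p : ℝ) ^ r i) ^ 2 ≤ (p : ℝ) ^ (-(c : ℤ)) := fun i => by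
    rw [hDj, ← zpow_natCast, ← zpow_mul, ← zpow_add₀ hp0.ne']
    refine zpow_le_zpow_right₀ hp.le ?_
    simp only [hr]
    omega
  have hr2 : ∀ i, (p : ℝ) ^ v i ≤ (p : ℝ) ^ (2 * c + 1) * ((p : ℝ) ^ r i) ^ 2 := fun i => by
    rw [← zpow_natCast, ← zpow_natCast, ← zpow_natCast, ← zpow_mul, ← zpow_add₀ hp0.ne']
    refine zpow_le_zpow_right₀ hp.le ?_
    simp only [hr]
    omega
  set J := I.filter fun k => ¬ Tendsto (fun i => N i k) 𝒰 (𝓝 0) with hJ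
  have hJI : J ⊆ I := Finset.filter_subset _ _
  have hjJ : j ∈ J := by
    refine Finset.mem_filter.2 ⟨hj, fun h => ?_⟩
    have h4 : ∀ᶠ i in 𝒰, ‖(D i j : ℚ_[p])‖ ≤ ‖(4 : ℚ_[p])‖ := by
      filter_upwards [tendsto_atTop.1 hvt (padicValInt p 4)] with i hi
      have := norm_int_eq p (D := 4) (by norm_num)
      push_cast at this
      rw [hDj, this]
      exact zpow_le_zpow_right₀ hp.le (by omega)
    have h5 : Tendsto (fun _ : ℕ => ‖(2 : ℚ_[p])‖) 𝒰 (𝓝 0) :=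
      h.congr' (by filter_upwards [h4, hF'] with i h4 hF using hF.top h4)
    have := tendsto_nhds_unique h5 tendsto_const_nhds
    exact absurd this.symm (by simp)
  refine ⟨J, hJI, hjJ, ?_⟩
  set Φ : ℕ → (Fin n → ℂ) → ℝ := fun i z =>
    ∫ s, ∏ k ∈ I, f k (piX p (uP p (-e i z k * ρ i k * s) • x i z k)) ∂bm p (r i) -
      (∏ k ∈ J, ∫ z, f k z ∂mY) *
        ∫ s, ∏ k ∈ I \ J, f k (piX p (uP p (-e i z k * ρ i k * s) • x i z k)) ∂bm p (r i) with hΦ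
  choose z hz hzmax using fun i => (O i).exists_max_image (fun z => |Φ i z|) (hOne i)
  set d : ℕ → Fin n → ℚ_[p] := fun i k => -e i (z i) k * ρ i k with hd
  have hdN : ∀ᶠ i in 𝒰, ∀ k, ‖d i k‖ = N i k := hF'.mono fun i hi k => hi.nrm _ (hz i) k
  have hd1 : ∀ k ∈ I, ∀ᶠ i in 𝒰, d i k ∈ Metric.closedBall (0 : ℚ_[p]) 1 := by
    intro k hk
    filter_upwards [hF', hdN, hmax] with i hi h1 h2
    rw [mem_closedBall_zero_iff, h1 k]
    have h3 := hi.le k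
    have h4 : ‖(D i j : ℚ_[p])‖ ≤ ‖(D i k : ℚ_[p])‖ := by
      rw [hDj, norm_int_eq p (hneg i k).ne]
      exact zpow_le_zpow_right₀ hp.le (by have := h2 k hk; simp only [hv]; omega)
    have h5 : 0 < ‖(D i k : ℚ_[p])‖ := norm_pos_iff.2 (by exact_mod_cast (hneg i k).ne)
    have h6 : N i k ^ 2 ≤ 1 := by nlinarith
    exact (sq_le_one_iff_abs_le_one _).1 h6 |> (le_abs_self _).trans
  have hlim : ∀ k, ∃ a : ℚ_[p], k ∈ I → Tendsto (fun i => d i k) 𝒰 (𝓝 a) := by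
    intro k
    by_cases hk : k ∈ I
    · obtain ⟨a, -, ha⟩ := (isCompact_closedBall (0 : ℚ_[p]) 1).ultrafilter_le_nhds
        (𝒰.map fun i => d i k) (by rw [le_principal_iff]; exact hd1 k hk)
      exact ⟨a, fun _ => ha⟩
    · exact ⟨0, fun h => absurd h hk⟩
  choose a ha using hlim
  have haN : ∀ k ∈ I, Tendsto (fun i => N i k) 𝒰 (𝓝 ‖a k‖) := fun k hk =>
    (ha k hk).norm.congr' (hdN.mono fun i hi => hi k)
  have ha0 : ∀ k ∈ J, a k ≠ 0 := fun k hk h =>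
    (Finset.mem_filter.1 hk).2 (by simpa [h] using haN k (hJI hk))
  have ha1 : ∀ k ∈ I, k ∉ J → a k = 0 := fun k hk hk' => by
    have : Tendsto (fun i => N i k) 𝒰 (𝓝 0) := by
      by_contra h
      exact hk' (Finset.mem_filter.2 ⟨hk, h⟩)
    exact norm_eq_zero.1 (tendsto_nhds_unique (haN k hk) this)
  have key : ∀ k ∈ J, ∀ C : ℝ, ∀ᶠ i in 𝒰, Frame p (D i k) (x i (z i) k) (e i (z i) k) ∧
      0 < ρ i k ∧ ρ i k ^ 2 * D i k = D i j ∧
      ‖(D i k : ℚ_[p])‖ * (‖d i k‖ * (p : ℝ) ^ r i) ^ 2 ≤ 1 ∧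
      C * Real.sqrt (-(D i k : ℝ)) ≤ (‖d i k‖ * (p : ℝ) ^ r i) ^ 2 := by
    intro k hk C
    have hb : 0 < ‖a k‖ / 2 := half_pos (norm_pos_iff.2 (ha0 k hk))
    have h1 : ∀ᶠ i in 𝒰, ‖a k‖ / 2 < N i k :=
      (haN k (hJI hk)).eventually (lt_mem_nhds (by linarith))
    filter_upwards [h1, hF', hdN, hdom (C * (p : ℝ) ^ (2 * c + 1) / (‖a k‖ / 2) ^ 2)]
      with i h1 hi h2 h3
    obtain ⟨h4, h5, h6⟩ := hi.fr _ (hz i) k (hb.trans h1).ne'
    refine ⟨h4, h5, h6, ?_, ?_⟩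
    · rw [h2 k, mul_pow, ← mul_assoc]
      refine (mul_le_mul_of_nonneg_right (hi.le k) (by positivity)).trans ((hr1 i).trans ?_)
      exact zpow_le_one_of_nonpos₀ hp.le (by omega)
    · have h7 := (h3 k (hJI hk)).trans (hr2 i)
      rw [div_mul_eq_mul_div, div_le_iff₀ (by positivity)] at h7
      have h8 : C * Real.sqrt (-(D i k : ℝ)) ≤ ((p : ℝ) ^ r i) ^ 2 * (‖a k‖ / 2) ^ 2 := by
        refine le_of_mul_le_mul_left (a := (p : ℝ) ^ (2 * c + 1)) ?_ (by positivity)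
        linarith
      rw [h2 k, mul_pow, mul_comm (N i k ^ 2)]
      refine h8.trans ?_
      gcongr
  have hT : ∀ k ∈ J, Tt p 𝒰 (fun i => x i (z i) k) (fun i => d i k) r := by
    intro k hk ε hε
    obtain ⟨Ω, hΩ, h⟩ := tight_frame p hε
    refine ⟨Ω, hΩ, fun m => ?_⟩
    obtain ⟨C, hC⟩ := h m
    filter_upwards [key k hk C] with i hi
    exact hC _ _ _ _ _ (hneg i k) hi.1 hi.2.2.2.1 hi.2.2.2.2
  have hE : ∀ k ∈ J, ∀ l ∈ J, k ≠ l → NoExc p 𝒰 (fun i => x i (z i) k) (fun i => x i (z i) l)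
      (fun i => d i k) (fun i => d i l) r := by
    intro k hk l hl hkl q hq δ hδ R
    obtain ⟨C, M, hM, h⟩ := exc_frame p hq hδ R
    filter_upwards [key k hk C, key l hl C, h𝒰 (hgen k l hkl M hM), hF'] with i h1 h2 h3 h4
    intro P hP hP1
    by_contra h5
    push Not at h5
    have h6 := h _ _ _ _ _ _ _ _ _ (hneg i k) (hneg i l) h1.1 h2.1 h1.2.1 h2.2.1
      (h1.2.2.1.trans h2.2.2.1.symm) h1.2.2.2.1 h2.2.2.2.1 h1.2.2.2.2 h2.2.2.2.2 P hP hP1 h5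
    rw [h4.pi _ (hz i), h4.pi _ (hz i)] at h6
    obtain ⟨σ, -, hσ⟩ := (orbit_finite F (hD i)).mem_toFinset.1 (hz i)
    rw [hσ] at h6
    exact h3 σ h6
  have hstep := step p 𝒰 h𝒰 (fun i => x i (z i)) d a I J hJI ha0 ha1 ha r hrt hT hE f
  refine squeeze_zero_norm' ?_ (tendsto_norm_zero.comp hstep)
  filter_upwards [hF'] with i hi
  have h1 := hi.sum (r i) (hr1 i) _ (prod_bdd f I).1 (prod_bdd f I).2
  have h2 := hi.sum (r i) (hr1 i) _ (prod_bdd f (I \ J)).1 (prod_bdd f (I \ J)).2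
  have h3 : avg (O i) (fun z => ∏ k ∈ I, f k (z k)) - (∏ k ∈ J, ∫ z, f k z ∂mY) *
      avg (O i) (fun z => ∏ k ∈ I \ J, f k (z k)) = avg (O i) (Φ i) := by
    simp only [avg, hΦ]
    rw [← h1, ← h2, Finset.sum_sub_distrib, ← Finset.mul_sum]
    ring
  rw [h3]
  exact abs_avg_le (hOne i) _ (hzmax i)

end Pool.Agent.EQ
end
end

-- part Pool.Agent.P.MP_ad7a55_nt.TAvB
section

/-! The fourth moment. -/

set_option autoImplicit false

noncomputable section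

open Finset

namespace Pool.Agent.EQ

theorem tavb_jac_le_one (D : ℤ) (l : ℕ) : (jacobiSym D l : ℝ) ≤ 1 := by
  rcases jacobiSym.trichotomy D l with h | h | h <;> rw [h] <;> norm_num

theorem tavb_jac_le (D : ℤ) (l : ℕ) : (jacobiSym D l : ℝ) / l ≤ 1 / l :=
  div_le_div_of_nonneg_right (tavb_jac_le_one D l) (Nat.cast_nonneg _)

/-- The coefficient used at the small primes. -/
def tavbC (N : ℤ) (H X : ℕ) (l : ℕ) : ℝ :=
  if l ≤ X ∧ ¬ (l : ℤ) ∣ N ∧ l ^ 4 ≤ H then 4 else 0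

/-- The contribution of the small primes. -/
def tavbS (K : ℝ) (N : ℤ) (H X y : ℕ) (Y : ℤ) : ℝ :=
  ∑ l ∈ Nat.primesLE y, (tavbC N H X l * (jacobiSym (Y ^ 2 - 4 * N) l : ℝ) +
    (if (l : ℤ) ∣ Y ^ 2 - 4 * N then 4 * K else 0)) / l

/-- The middle primes. -/
def tavbQ (N : ℤ) (H X z : ℕ) : Finset ℕ :=
  (Nat.primesLE X).filter (fun l : ℕ => z < l ∧ l ^ 4 ≤ H ∧ ¬ (l : ℤ) ∣ N)

/-- The contribution of the middle primes. -/
def tavbV (N : ℤ) (H X z : ℕ) (Y : ℤ) : ℝ :=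
  ∑ l ∈ tavbQ N H X z, (jacobiSym (Y ^ 2 - 4 * N) l : ℝ) / l

theorem tavb_split (N : ℤ) (H X y z : ℕ) (hyz : y ≤ z) (f : ℕ → ℝ) :
    ∑ l ∈ (Nat.primesLE X).filter (fun l : ℕ => ¬ (l : ℤ) ∣ N), f l =
      ∑ l ∈ (Nat.primesLE X).filter (fun l : ℕ => ¬ (l : ℤ) ∣ N ∧ H < l ^ 4), f l +
      ∑ l ∈ (Nat.primesLE y).filter (fun l : ℕ => l ≤ X ∧ ¬ (l : ℤ) ∣ N ∧ l ^ 4 ≤ H), f l +
      ∑ l ∈ (Nat.primesLE X).filter
        (fun l : ℕ => y < l ∧ l ≤ z ∧ l ^ 4 ≤ H ∧ ¬ (l : ℤ) ∣ N), f l +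
      ∑ l ∈ tavbQ N H X z, f l := by
  have e : (Nat.primesLE y).filter (fun l : ℕ => l ≤ X ∧ ¬ (l : ℤ) ∣ N ∧ l ^ 4 ≤ H) =
      (Nat.primesLE X).filter (fun l : ℕ => l ≤ y ∧ ¬ (l : ℤ) ∣ N ∧ l ^ 4 ≤ H) := by
    ext l
    simp only [mem_filter, Nat.mem_primesLE]
    tauto
  rw [e, tavbQ]
  simp only [sum_filter]
  rw [← sum_add_distrib, ← sum_add_distrib, ← sum_add_distrib]
  refine sum_congr rfl fun l _ => ?_
  by_cases h1 : (l : ℤ) ∣ N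
  · simp [h1]
  by_cases h2 : l ^ 4 ≤ H
  · have h2' : ¬ H < l ^ 4 := not_lt.mpr h2
    by_cases h3 : l ≤ y
    · have h3' : ¬ y < l := not_lt.mpr h3
      have h4 : ¬ z < l := by omega
      simp [h1, h2, h2', h3, h3', h4]
    · have h3' : y < l := not_le.mp h3
      by_cases h4 : l ≤ z
      · have h4' : ¬ z < l := not_lt.mpr h4
        simp [h1, h2, h2', h3, h3', h4, h4']
      · have h4' : z < l := not_le.mp h4
        simp [h1, h2, h2', h3, h3', h4, h4']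
  · have h2' : H < l ^ 4 := not_le.mp h2
    simp [h1, h2, h2']

theorem tavb_mid (k : ℕ) : ∃ C : ℝ, ∀ y : ℕ,
    ∑ l ∈ (Nat.primesLE ((y + 2) ^ k)).filter (fun l => y < l), 1 / (l : ℝ) ≤ C := by
  obtain ⟨C, hC⟩ := range_pow k
  refine ⟨2 + C, fun y => ?_⟩
  have h1 := hC (y + 2) ((y + 2) ^ k) le_rfl
  have hsub : (Nat.primesLE ((y + 2) ^ k)).filter (fun l => y < l) ⊆
      {y + 1, y + 2} ∪ (Nat.primesLE ((y + 2) ^ k)).filter (fun l => y + 2 < l) := by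
    intro l hl
    simp only [mem_filter, mem_union, mem_insert, mem_singleton] at hl ⊢
    by_cases h : y + 2 < l
    · exact Or.inr ⟨hl.1, h⟩
    · left; omega
  have hdis : Disjoint ({y + 1, y + 2} : Finset ℕ)
      ((Nat.primesLE ((y + 2) ^ k)).filter (fun l => y + 2 < l)) := by
    rw [disjoint_left]
    intro l hl hl'
    simp only [mem_filter, mem_insert, mem_singleton] at hl hl'
    omega
  refine (sum_le_sum_of_subset_of_nonneg hsub fun _ _ _ => by positivity).trans ?_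
  rw [sum_union hdis, sum_pair (by omega)]
  have hy : (0 : ℝ) ≤ y := Nat.cast_nonneg _
  have a1 : 1 / ((y + 1 : ℕ) : ℝ) ≤ 1 := by
    rw [div_le_one (by positivity)]; push_cast; linarith
  have a2 : 1 / ((y + 2 : ℕ) : ℝ) ≤ 1 := by
    rw [div_le_one (by positivity)]; push_cast; linarith
  linarith

theorem tavb_log (H : ℕ) : Real.log ((H + 1 : ℕ) : ℝ) ≤ 2 * ((Nat.log 4 H : ℝ) + 1) := by
  have h1 : H + 1 ≤ 4 ^ (Nat.log 4 H + 1) := Nat.lt_pow_succ_log_self (by norm_num) H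
  have h2 : ((H + 1 : ℕ) : ℝ) ≤ (4 : ℝ) ^ (Nat.log 4 H + 1) := by exact_mod_cast h1
  have h3 := Real.log_le_log (by positivity) h2
  rw [Real.log_pow] at h3
  have h4 : Real.log 4 ≤ 2 := by
    have : Real.log 4 = 2 * Real.log 2 := by
      rw [show (4 : ℝ) = 2 ^ 2 by norm_num, Real.log_pow]; norm_num
    have h5 := Real.log_two_lt_d9
    linarith
  have h6 : (0 : ℝ) ≤ (Nat.log 4 H : ℝ) := Nat.cast_nonneg _
  push_cast at h3 ⊢
  nlinarith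

theorem tavb_big {D : ℤ} {H : ℕ} (hD : D ≠ 0) (hH : |D| ≤ 5 * (H : ℤ) ^ 2) :
    ∑ l ∈ D.natAbs.primeFactors, 1 / ((l : ℕ) : ℝ) ≤
      ∑ l ∈ Nat.primesLE (Nat.log 4 H), (if (l : ℤ) ∣ D then 1 else 0) / (l : ℝ) + 24 := by
  set y := Nat.log 4 H with hy
  have hy0 : (0 : ℝ) ≤ y := Nat.cast_nonneg _
  have hn : D.natAbs ≠ 0 := Int.natAbs_ne_zero.mpr hD
  have h1 := sum_big_primeFactors (n := D.natAbs) (z := (y : ℝ) + 1 / 2) (by positivity) hn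
  rw [← sum_filter_add_sum_filter_not D.natAbs.primeFactors
    (fun l : ℕ => (y : ℝ) + 1 / 2 < l), add_comm]
  refine add_le_add ?_ (h1.trans ?_)
  · have e : ∑ l ∈ Nat.primesLE y, (if (l : ℤ) ∣ D then 1 else 0) / (l : ℝ) =
        ∑ l ∈ (Nat.primesLE y).filter (fun l : ℕ => (l : ℤ) ∣ D), 1 / (l : ℝ) := by
      rw [sum_filter]
      refine sum_congr rfl fun l _ => ?_
      split_ifs <;> simp
    rw [e]
    refine sum_le_sum_of_subset_of_nonneg (fun l hl => ?_) fun _ _ _ => by positivity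
    simp only [mem_filter, Nat.mem_primeFactors, Nat.mem_primesLE, not_lt] at hl ⊢
    refine ⟨⟨?_, hl.1.1⟩, Int.natCast_dvd.mpr hl.1.2.1⟩
    have h2 : (l : ℝ) < (y : ℝ) + 1 := by linarith [hl.2]
    have h3 : l < y + 1 := by exact_mod_cast h2
    omega
  · have h2 : (D.natAbs : ℝ) ≤ 5 * ((H + 1 : ℕ) : ℝ) ^ 2 := by
      have h3 : (D.natAbs : ℤ) ≤ 5 * ((H + 1 : ℕ) : ℤ) ^ 2 := by
        rw [Int.natCast_natAbs]
        have : (0 : ℤ) ≤ H := Int.natCast_nonneg _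
        push_cast
        nlinarith
      exact_mod_cast h3
    have h4 : (0 : ℝ) < D.natAbs := by exact_mod_cast Nat.pos_of_ne_zero hn
    have h5 := Real.log_le_log h4 h2
    rw [Real.log_mul (by norm_num) (by positivity), Real.log_pow] at h5
    have h6 := tavb_log H
    have h7 : Real.log 5 ≤ 2 := by
      have h8 : Real.log 5 ≤ Real.log (2 ^ 3 * (5 / 8)) := le_of_eq (by norm_num)
      rw [Real.log_mul (by norm_num) (by norm_num), Real.log_pow] at h8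
      have h9 := Real.log_le_sub_one_of_pos (show (0 : ℝ) < 5 / 8 by norm_num)
      have h10 := Real.log_two_lt_d9
      push_cast at h8
      linarith
    rw [div_le_iff₀ (by positivity)]
    rw [← hy] at h6
    push_cast at h5 h6 ⊢
    linarith

theorem tavb_point {K : ℝ} (hK : 0 ≤ K) (k : ℕ) (hk : k ≠ 0) : ∃ C : ℝ, ∀ (N Y : ℤ) (H X : ℕ),
    1 ≤ H → N ≠ 0 → |N| ≤ H ^ 2 → |Y| ≤ H → ¬ IsSquare (Y ^ 2 - 4 * N) →
    Ph K N X Y ^ 4 ≤ Real.exp C * Real.exp (tavbS K N H X (Nat.log 4 H) Y +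
      4 * tavbV N H X ((Nat.log 4 H + 2) ^ k) Y) := by
  obtain ⟨C₁, h₁⟩ := av_large
  obtain ⟨C₂, h₂⟩ := tavb_mid k
  refine ⟨4 * C₁ + 4 * C₂ + 4 * K * 24, fun N Y H X hH hN hNH hY hsq => ?_⟩
  set y := Nat.log 4 H with hy
  have hD : Y ^ 2 - 4 * N ≠ 0 := by
    intro h; rw [h] at hsq; exact hsq IsSquare.zero
  have hDH : |Y ^ 2 - 4 * N| ≤ 5 * (H : ℤ) ^ 2 := by
    have a1 : Y ^ 2 ≤ (H : ℤ) ^ 2 := by
      rw [← sq_abs Y]; exact pow_le_pow_left₀ (abs_nonneg _) hY 2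
    have a2 := abs_le.mp hNH
    rw [abs_le]
    constructor <;> nlinarith [sq_nonneg Y]
  have hyz : y ≤ (y + 2) ^ k := le_trans (by omega) (Nat.le_self_pow hk (y + 2))
  rw [Ph, ← Real.exp_nat_mul, ← Real.exp_add, Real.exp_le_exp,
    tavb_split N H X y ((y + 2) ^ k) hyz]
  have b1 := h₁ N Y H X hH hN hNH hY hsq
  have b2 : ∑ l ∈ (Nat.primesLE X).filter
      (fun l : ℕ => y < l ∧ l ≤ (y + 2) ^ k ∧ l ^ 4 ≤ H ∧ ¬ (l : ℤ) ∣ N),
        (jacobiSym (Y ^ 2 - 4 * N) l : ℝ) / l ≤ C₂ := by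
    refine (sum_le_sum fun l _ => tavb_jac_le _ l).trans (le_trans ?_ (h₂ y))
    refine sum_le_sum_of_subset_of_nonneg (fun l hl => ?_) fun _ _ _ => by positivity
    simp only [mem_filter, Nat.mem_primesLE] at hl ⊢
    exact ⟨⟨hl.2.2.1, hl.1.2⟩, hl.2.1⟩
  have b3 := tavb_big hD hDH
  rw [← hy] at b3
  have b4 : tavbS K N H X y Y =
      4 * ∑ l ∈ (Nat.primesLE y).filter (fun l : ℕ => l ≤ X ∧ ¬ (l : ℤ) ∣ N ∧ l ^ 4 ≤ H),
        (jacobiSym (Y ^ 2 - 4 * N) l : ℝ) / l +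
      4 * K * ∑ l ∈ Nat.primesLE y, (if (l : ℤ) ∣ Y ^ 2 - 4 * N then 1 else 0) / (l : ℝ) := by
    rw [tavbS, sum_filter, mul_sum, mul_sum, ← sum_add_distrib]
    refine sum_congr rfl fun l _ => ?_
    rw [tavbC]
    split_ifs <;> ring
  have b5 := mul_le_mul_of_nonneg_left b3 hK
  rw [b4, tavbV]
  push_cast
  linarith

theorem tavb_crude {K : ℝ} (hK : 0 ≤ K) {k : ℕ} (hk : 8 + 4 * K ≤ k) (N Y : ℤ) (H X z : ℕ) :
    tavbS K N H X (Nat.log 4 H) Y + 4 * tavbV N H X z Y ≤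
      k * ∑ l ∈ Nat.primesLE (H + 1), 1 / (l : ℝ) := by
  have h0 : 0 ≤ ∑ l ∈ Nat.primesLE (H + 1), 1 / (l : ℝ) := sum_nonneg fun _ _ => by positivity
  have h1 : tavbS K N H X (Nat.log 4 H) Y ≤
      (4 + 4 * K) * ∑ l ∈ Nat.primesLE (H + 1), 1 / (l : ℝ) := by
    have hs : Nat.primesLE (Nat.log 4 H) ⊆ Nat.primesLE (H + 1) :=
      Nat.primesLE_mono ((Nat.log_le_self 4 H).trans (Nat.le_succ H))
    refine le_trans ?_ (mul_le_mul_of_nonneg_left (sum_le_sum_of_subset_of_nonneg hs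
      fun _ _ _ => by positivity) (by positivity))
    rw [tavbS, mul_sum]
    refine sum_le_sum fun l _ => ?_
    rw [mul_one_div]
    refine div_le_div_of_nonneg_right (add_le_add ?_ ?_) (Nat.cast_nonneg _)
    · have := tavb_jac_le_one (Y ^ 2 - 4 * N) l
      rw [tavbC]
      split_ifs <;> linarith
    · split_ifs <;> linarith
  have h2 : tavbV N H X z Y ≤ ∑ l ∈ Nat.primesLE (H + 1), 1 / (l : ℝ) := by
    refine (sum_le_sum fun l _ => tavb_jac_le _ l).trans ?_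
    refine sum_le_sum_of_subset_of_nonneg (fun l hl => ?_) fun _ _ _ => by positivity
    simp only [tavbQ, mem_filter, Nat.mem_primesLE] at hl ⊢
    have := Nat.le_self_pow (n := 4) (by norm_num) l
    exact ⟨by omega, hl.1.2⟩
  nlinarith

theorem tavb_log_pow {k : ℕ} (hk : k ≠ 0) {H : ℕ} (hH : 1 ≤ H) :
    Real.log ((H + 1 : ℕ) : ℝ) ^ k ≤ (2 * k) ^ k * (2 * Real.sqrt H) := by
  have hk' : (0 : ℝ) < k := by exact_mod_cast Nat.pos_of_ne_zero hk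
  have hH' : (1 : ℝ) ≤ H := by exact_mod_cast hH
  have hx : (1 : ℝ) ≤ ((H + 1 : ℕ) : ℝ) := by push_cast; linarith
  have h1 := Real.log_le_rpow_div (x := ((H + 1 : ℕ) : ℝ)) (ε := 1 / (2 * k)) (by positivity)
    (by positivity)
  have h2 : Real.log ((H + 1 : ℕ) : ℝ) ≤ 2 * k * ((H + 1 : ℕ) : ℝ) ^ (1 / (2 * k) : ℝ) := by
    refine h1.trans (le_of_eq ?_)
    field_simp
  refine (pow_le_pow_left₀ (Real.log_nonneg hx) h2 k).trans ?_
  rw [mul_pow]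
  refine mul_le_mul_of_nonneg_left ?_ (by positivity)
  rw [← Real.rpow_natCast, ← Real.rpow_mul (by positivity),
    show (1 / (2 * k) : ℝ) * k = 1 / 2 by field_simp, ← Real.sqrt_eq_rpow]
  rw [show 2 * Real.sqrt H = Real.sqrt (2 ^ 2 * H) by
    rw [Real.sqrt_mul (by norm_num), Real.sqrt_sq (by norm_num)]]
  refine Real.sqrt_le_sqrt ?_
  push_cast
  linarith

open Classical in
theorem av_Ph {K : ℝ} (hK : 0 ≤ K) : ∃ C : ℝ, 0 < C ∧ ∀ (N : ℤ) (H X : ℕ), 1 ≤ H → N ≠ 0 →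
    |N| ≤ H ^ 2 →
    ∑ Y ∈ (Icc (-(H : ℤ)) H).filter (fun Y => ¬ IsSquare (Y ^ 2 - 4 * N)), Ph K N X Y ^ 4 ≤
      C * H := by
  obtain ⟨k, hk, hk0⟩ : ∃ k : ℕ, 8 + 4 * K ≤ k ∧ k ≠ 0 := by
    refine ⟨⌈4 * K⌉₊ + 8, ?_, by omega⟩
    have := Nat.le_ceil (4 * K)
    push_cast
    linarith
  obtain ⟨C₀, h₀⟩ := tavb_point hK k hk0
  obtain ⟨C₁, hC₁, h₁⟩ := av_small (4 * K)
  obtain ⟨C₂, hC₂, h₂⟩ := exp_primes_le k
  refine ⟨Real.exp C₀ * (Real.exp 4 * C₁ + C₂ * (6 * 2 ^ k + 8 * (2 * k) ^ k)), by positivity,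
    fun N H X hH hN hNH => ?_⟩
  set y := Nat.log 4 H with hy
  set z := (y + 2) ^ k with hz
  set B := C₂ * Real.log ((H + 1 : ℕ) : ℝ) ^ k with hB
  have hH' : (1 : ℝ) ≤ H := by exact_mod_cast hH
  have hx : (1 : ℝ) ≤ ((H + 1 : ℕ) : ℝ) := by push_cast; linarith
  have hL := Real.log_nonneg hx
  have hB0 : 0 ≤ B := by positivity
  have hz2 : 2 ≤ z := le_trans (by omega) (Nat.le_self_pow hk0 (y + 2))
  have hz0 : (0 : ℝ) < z := by exact_mod_cast (by omega : 0 < z)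
  have p1 : ∀ Y : ℤ, Real.exp (tavbS K N H X y Y + 4 * tavbV N H X z Y) ≤
      Real.exp 4 * Real.exp (tavbS K N H X y Y) + B * tavbV N H X z Y ^ 2 := by
    intro Y
    by_cases hV : tavbV N H X z Y ≤ 1
    · have a1 : Real.exp (tavbS K N H X y Y + 4 * tavbV N H X z Y) ≤
          Real.exp 4 * Real.exp (tavbS K N H X y Y) := by
        rw [← Real.exp_add, Real.exp_le_exp]; linarith
      have a2 : 0 ≤ B * tavbV N H X z Y ^ 2 := by positivity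
      linarith
    · have a1 : Real.exp (tavbS K N H X y Y + 4 * tavbV N H X z Y) ≤ B :=
        (Real.exp_le_exp.mpr (tavb_crude hK hk N Y H X z)).trans (h₂ (H + 1) (by omega))
      have a2 : 1 ≤ tavbV N H X z Y ^ 2 := by nlinarith [not_le.mp hV]
      have a3 : 0 ≤ Real.exp 4 * Real.exp (tavbS K N H X y Y) := by positivity
      nlinarith
  have p2 : ∑ Y ∈ Icc (-(H : ℤ)) H, Real.exp (tavbS K N H X y Y) ≤ C₁ * H := by
    refine h₁ N H (Nat.primesLE y) (tavbC N H X) (fun l hl => ⟨Nat.prime_of_mem_primesLE hl, ?_,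
      fun h => ?_⟩) ?_
    · rw [tavbC]; split_ifs <;> norm_num
    · rw [tavbC, if_neg]; tauto
    · exact (primorial_le_four_pow y).trans (Nat.pow_log_le_self 4 (by omega))
  have p3 : ∑ Y ∈ Icc (-(H : ℤ)) H, tavbV N H X z Y ^ 2 ≤ 6 * H / z + 4 * Real.sqrt H := by
    refine av_var N H z hz2 (tavbQ N H X z) fun l hl => ?_
    simp only [tavbQ, mem_filter, Nat.mem_primesLE] at hl
    exact ⟨hl.1.2, hl.2⟩
  have p4 : Real.log ((H + 1 : ℕ) : ℝ) ^ k * (6 * H / z) ≤ 6 * 2 ^ k * H := by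
    have a1 : Real.log ((H + 1 : ℕ) : ℝ) ≤ 2 * ((y : ℝ) + 2) := by
      have := tavb_log H
      rw [← hy] at this
      linarith
    have a2 := pow_le_pow_left₀ hL a1 k
    have a3 : (z : ℝ) = ((y : ℝ) + 2) ^ k := by rw [hz]; push_cast; ring
    rw [mul_pow, ← a3] at a2
    refine (mul_le_mul_of_nonneg_right a2 (by positivity)).trans (le_of_eq ?_)
    field_simp
  have p5 : Real.log ((H + 1 : ℕ) : ℝ) ^ k * (4 * Real.sqrt H) ≤ 8 * (2 * k) ^ k * H := by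
    have a1 := tavb_log_pow hk0 hH
    have a2 : Real.sqrt H * Real.sqrt H = H := Real.mul_self_sqrt (by positivity)
    calc _ ≤ (2 * k) ^ k * (2 * Real.sqrt H) * (4 * Real.sqrt H) :=
          mul_le_mul_of_nonneg_right a1 (by positivity)
      _ = 8 * (2 * k) ^ k * (Real.sqrt H * Real.sqrt H) := by ring
      _ = _ := by rw [a2]
  calc ∑ Y ∈ (Icc (-(H : ℤ)) H).filter (fun Y => ¬ IsSquare (Y ^ 2 - 4 * N)), Ph K N X Y ^ 4
      ≤ ∑ Y ∈ (Icc (-(H : ℤ)) H).filter (fun Y => ¬ IsSquare (Y ^ 2 - 4 * N)), Real.exp C₀ *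
          (Real.exp 4 * Real.exp (tavbS K N H X y Y) + B * tavbV N H X z Y ^ 2) := by
        refine sum_le_sum fun Y hY => ?_
        simp only [mem_filter, mem_Icc] at hY
        exact (h₀ N Y H X hH hN hNH (abs_le.mpr hY.1) hY.2).trans
          (mul_le_mul_of_nonneg_left (p1 Y) (Real.exp_pos _).le)
    _ ≤ ∑ Y ∈ Icc (-(H : ℤ)) H, Real.exp C₀ *
          (Real.exp 4 * Real.exp (tavbS K N H X y Y) + B * tavbV N H X z Y ^ 2) :=
        sum_le_sum_of_subset_of_nonneg (filter_subset _ _) fun _ _ _ => by positivity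
    _ = Real.exp C₀ * (Real.exp 4 * ∑ Y ∈ Icc (-(H : ℤ)) H, Real.exp (tavbS K N H X y Y) +
          B * ∑ Y ∈ Icc (-(H : ℤ)) H, tavbV N H X z Y ^ 2) := by
        rw [← mul_sum, sum_add_distrib, ← mul_sum, ← mul_sum]
    _ ≤ Real.exp C₀ * (Real.exp 4 * (C₁ * H) + B * (6 * H / z + 4 * Real.sqrt H)) := by
        gcongr
    _ ≤ _ := by
        rw [mul_assoc (Real.exp C₀)]
        refine mul_le_mul_of_nonneg_left ?_ (Real.exp_pos _).le
        have a1 := mul_le_mul_of_nonneg_left (add_le_add p4 p5) hC₂.le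
        rw [hB]
        nlinarith

theorem tavb_young {a b : ℝ} (ha : 0 ≤ a) (hb : 0 ≤ b) : a * b ≤ a ^ (4 / 3 : ℝ) + b ^ 4 := by
  have hpq : (4 / 3 : ℝ).HolderConjugate 4 := by
    rw [Real.holderConjugate_iff]; norm_num
  have h := Real.young_inequality_of_nonneg ha hb hpq
  have e : b ^ (4 : ℝ) = b ^ 4 := by
    rw [← Real.rpow_natCast]; norm_num
  rw [e] at h
  have h1 : 0 ≤ a ^ (4 / 3 : ℝ) := by positivity
  have h2 : 0 ≤ b ^ 4 := by positivity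
  linarith

open Classical in
/-- A periodic factor with small mean of order `4 / 3`. -/
theorem av_mul {K : ℝ} (hK : 0 ≤ K) : ∃ C : ℝ, 0 < C ∧ ∀ (N : ℤ) (H X q : ℕ) (M : ℤ → ℝ) (ρ : ℝ),
    N ≠ 0 → |N| ≤ H ^ 2 → 0 < q → q ≤ H → 0 < ρ → (∀ Y, 0 ≤ M Y) →
    (∀ Y Y', (q : ℤ) ∣ Y - Y' → M Y = M Y') →
    ∑ r ∈ range q, M r ^ (4 / 3 : ℝ) ≤ q * ρ ^ (4 / 3 : ℝ) →
    ∑ Y ∈ (Icc (-(H : ℤ)) H).filter (fun Y => ¬ IsSquare (Y ^ 2 - 4 * N)), M Y * Ph K N X Y ≤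
      C * ρ * H := by
  obtain ⟨C, hC, h⟩ := av_Ph hK
  refine ⟨4 + C, by positivity, fun N H X q M ρ hN hNH hq hqH hρ hM hper hsum => ?_⟩
  have hH : 1 ≤ H := by omega
  have hH' : (1 : ℝ) ≤ H := by exact_mod_cast hH
  have hq' : (0 : ℝ) < q := by exact_mod_cast hq
  have hqH' : (q : ℝ) ≤ H := by exact_mod_cast hqH
  have hr : 0 < ρ ^ (4 / 3 : ℝ) := by positivity
  have p1 := h N H X hH hN hNH
  have p2 : ∑ Y ∈ Icc (-(H : ℤ)) H, M Y ^ (4 / 3 : ℝ) ≤ 4 * H * ρ ^ (4 / 3 : ℝ) := by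
    have a1 := sum_le_period hq (F := fun Y => M Y ^ (4 / 3 : ℝ))
      (fun Y => Real.rpow_nonneg (hM Y) _) (fun Y Y' hY => by rw [hper Y Y' hY]) (-(H : ℤ))
      (2 * H + 1)
    have e : Ico (-(H : ℤ)) (-(H : ℤ) + ((2 * H + 1 : ℕ) : ℤ)) = Icc (-(H : ℤ)) H := by
      ext Y
      simp only [mem_Ico, mem_Icc]
      push_cast
      omega
    rw [e] at a1
    refine a1.trans ((mul_le_mul_of_nonneg_left hsum (by positivity)).trans ?_)
    rw [← mul_assoc]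
    refine mul_le_mul_of_nonneg_right ?_ hr.le
    rw [add_mul, div_mul_cancel₀ _ hq'.ne']
    push_cast
    linarith
  have p3 : ∀ Y, M Y * Ph K N X Y ≤
      ρ / ρ ^ (4 / 3 : ℝ) * M Y ^ (4 / 3 : ℝ) + ρ * Ph K N X Y ^ 4 := by
    intro Y
    have a1 := tavb_young (div_nonneg (hM Y) hρ.le) (Ph_pos K N X Y).le
    rw [Real.div_rpow (hM Y) hρ.le] at a1
    have a2 := mul_le_mul_of_nonneg_left a1 hρ.le
    have e1 : ρ * (M Y / ρ * Ph K N X Y) = M Y * Ph K N X Y := by field_simp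
    rw [e1] at a2
    refine a2.trans (le_of_eq ?_)
    ring
  refine (sum_le_sum fun Y _ => p3 Y).trans ?_
  rw [sum_add_distrib, ← mul_sum, ← mul_sum]
  have p4 : ∑ Y ∈ (Icc (-(H : ℤ)) H).filter (fun Y => ¬ IsSquare (Y ^ 2 - 4 * N)),
      M Y ^ (4 / 3 : ℝ) ≤ 4 * H * ρ ^ (4 / 3 : ℝ) :=
    (sum_le_sum_of_subset_of_nonneg (filter_subset _ _)
      fun Y _ _ => Real.rpow_nonneg (hM Y) _).trans p2
  have p5 := mul_le_mul_of_nonneg_left p4 (div_pos hρ hr).le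
  have e2 : ρ / ρ ^ (4 / 3 : ℝ) * (4 * H * ρ ^ (4 / 3 : ℝ)) = 4 * ρ * H := by field_simp
  rw [e2] at p5
  have p6 := mul_le_mul_of_nonneg_left p1 hρ.le
  nlinarith

end Pool.Agent.EQ
end
end
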