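import Pool.Agent.K.MP_ad7a55_nt.C52
import Pool.Agent.K.MP_ad7a55_nt.C47

-- part Pool.Agent.P.MP_ad7a55_nt.TDa
section

/-! Two configurations with the same matrix give a pair with a level structure. -/

set_option autoImplicit false

noncomputable section

open Finset Matrix UpperHalfPlane

namespace Pool.Agent.EQ

theorem tda_par {a b c A B C : ℤ} (h : B ^ 2 - 4 * A * C = b ^ 2 - 4 * a * c) :
    ∃ k : ℤ, b = B + 2 * k := by
  have h1 : Even (B ^ 2 - b ^ 2) := ⟨2 * (A * C - a * c), by linear_combination h⟩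
  have h2 : Even (b - B) := by
    rw [Int.even_sub, Int.even_pow, Int.even_pow] at h1
    rw [Int.even_sub]
    simp only [ne_eq, OfNat.ofNat_ne_zero, not_false_eq_true, and_true] at h1
    exact h1.symm
  obtain ⟨k, hk⟩ := h2
  exact ⟨k, by linear_combination hk⟩

theorem tda_r₁ {a A B C k : ℤ} {η₁ η₂ : M2}
    (h : η₁ * Th A B C = (B + 2 * k) • η₁ - (2 * a) • η₂) (i : Fin 2) :
    a * η₂ i 0 = k * η₁ i 0 + A * η₁ i 1 ∧ a * η₂ i 1 = (k + B) * η₁ i 1 - C * η₁ i 0 := by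
  have h0 := congrFun (congrFun h i) 0
  have h1 := congrFun (congrFun h i) 1
  simp only [Matrix.sub_apply, Matrix.smul_apply, smul_eq_mul] at h0 h1
  simp [Th, Matrix.mul_apply, Fin.sum_univ_two] at h0 h1
  constructor
  · linarith
  · linarith

theorem tda_r₂ {c A B C k : ℤ} {η₁ η₂ : M2}
    (h : η₂ * Th A B C = (2 * c) • η₁ - (B + 2 * k) • η₂) (i : Fin 2) :
    c * η₁ i 0 = (k + B) * η₂ i 0 - A * η₂ i 1 ∧ c * η₁ i 1 = C * η₂ i 0 + k * η₂ i 1 := by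
  have h0 := congrFun (congrFun h i) 0
  have h1 := congrFun (congrFun h i) 1
  simp only [Matrix.sub_apply, Matrix.smul_apply, smul_eq_mul] at h0 h1
  simp [Th, Matrix.mul_apply, Fin.sum_univ_two] at h0 h1
  constructor
  · linarith
  · linarith

/-- A combination of two vectors that is nonzero modulo every prime factor of `q`. -/
theorem tda_prim {q : ℕ} (hq : q ≠ 0) (x₀ x₁ y₀ y₁ : ℤ)
    (h : ∀ l : ℕ, l.Prime → ¬ ((l : ℤ) ∣ x₀ ∧ (l : ℤ) ∣ x₁ ∧ (l : ℤ) ∣ y₀ ∧ (l : ℤ) ∣ y₁)) :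
    ∃ P : ℤ, ∀ l : ℕ, l.Prime → l ∣ q → ¬ ((l : ℤ) ∣ x₀ + P * y₀ ∧ (l : ℤ) ∣ x₁ + P * y₁) := by
  classical
  refine ⟨((∏ r ∈ q.primeFactors.filter (fun r : ℕ => ¬ ((r : ℤ) ∣ x₀ ∧ (r : ℤ) ∣ x₁)), r : ℕ) : ℤ), ?_⟩
  rintro l hl hlq ⟨h0, h1⟩
  have hp : Prime (l : ℤ) := Nat.prime_iff_prime_int.1 hl
  by_cases hx : (l : ℤ) ∣ x₀ ∧ (l : ℤ) ∣ x₁
  · have hn : ¬ (l : ℤ) ∣
        ((∏ r ∈ q.primeFactors.filter (fun r : ℕ => ¬ ((r : ℤ) ∣ x₀ ∧ (r : ℤ) ∣ x₁)), r : ℕ) : ℤ) := by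
      rw [Int.natCast_dvd_natCast, hl.prime.dvd_finsetProd_iff]
      rintro ⟨r, hr, hlr⟩
      rw [Finset.mem_filter] at hr
      have := (Nat.prime_dvd_prime_iff_eq hl (Nat.prime_of_mem_primeFactors hr.1)).1 hlr
      subst this
      exact hr.2 hx
    exact h l hl ⟨hx.1, hx.2, (hp.dvd_or_dvd ((dvd_add_right hx.1).1 h0)).resolve_left hn,
      (hp.dvd_or_dvd ((dvd_add_right hx.2).1 h1)).resolve_left hn⟩
  · have hd : (l : ℤ) ∣
        ((∏ r ∈ q.primeFactors.filter (fun r : ℕ => ¬ ((r : ℤ) ∣ x₀ ∧ (r : ℤ) ∣ x₁)), r : ℕ) : ℤ) := by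
      rw [Int.natCast_dvd_natCast]
      exact Finset.dvd_prod_of_mem (fun r : ℕ => r)
        (Finset.mem_filter.2 ⟨Nat.mem_primeFactors.2 ⟨hl, hlq, hq⟩, hx⟩)
    exact hx ⟨(dvd_add_left (hd.mul_right _)).1 h0, (dvd_add_left (hd.mul_right _)).1 h1⟩

theorem tda_side {τ : ℍ} {A B C k v₀ v₁ : ℤ} {q : ℕ} (hA : 0 < A)
    (h : (A : ℂ) * (τ : ℂ) ^ 2 + B * τ + C = 0) (h0 : (q : ℤ) ∣ (k + B) * v₀ + C * v₁)
    (h1 : (q : ℤ) ∣ A * v₀ - k * v₁) :
    (th (B ^ 2 - 4 * A * C) - ((-(B + 2 * k) : ℤ) : ℂ)) / 2 * (v₀ - v₁ * τ) ∈ pr q * sp 1 τ := by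
  obtain ⟨w₀, e0⟩ := h0
  obtain ⟨w₁, e1⟩ := h1
  have e0' : ((k : ℂ) + B) * v₀ + C * v₁ = q * w₀ := by exact_mod_cast e0
  have e1' : (A : ℂ) * v₀ - k * v₁ = q * w₁ := by exact_mod_cast e1
  refine mem_pr_mul.2 ⟨w₀ * 1 + w₁ * τ, mem_sp.2 ⟨w₀, w₁, rfl⟩, ?_⟩
  rw [← HasDisc.root hA h]
  push_cast
  linear_combination -e0' - τ * e1' + v₁ * h

theorem tda_vol (τ : ℍ) : vol (sp 1 τ) = τ.im := by
  simpa using vol_sp one_ne_zero τ

theorem tda_sub (τ : ℍ) : (τ : ℂ) - starRingEnd ℂ τ ≠ 0 := by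
  intro h
  have h1 := congrArg Complex.im h
  simp only [Complex.sub_im, Complex.conj_im, coe_im, Complex.zero_im] at h1
  linarith [τ.im_pos]

theorem tda_rl (τ τ' : ℍ) (u v : ℤ) :
    rl (((τ' : ℂ) - starRingEnd ℂ τ) / (τ - starRingEnd ℂ τ))
      (((τ : ℂ) - τ') / (τ - starRingEnd ℂ τ)) (u + v * τ) = u + v * τ' := by
  have h := tda_sub τ
  simp only [rl, map_add, map_mul, map_intCast]
  field_simp
  ring

theorem tda_hm {τ τ' : ℍ} {A B C A' B' C' j : ℤ} (hA : 0 < A) (hA' : 0 < A')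
    (h : (A : ℂ) * (τ : ℂ) ^ 2 + B * τ + C = 0) (h' : (A' : ℂ) * (τ' : ℂ) ^ 2 + B' * τ' + C' = 0)
    {E : ℤ} (hE : B ^ 2 - 4 * A * C = E) (hE' : B' ^ 2 - 4 * A' * C' = E)
    (hj : B * B' - E = 2 * j) (hτ : τ ∈ ModularGroup.fd) (hτ' : τ' ∈ ModularGroup.fd) {U : ℝ}
    (hU : τ.im ≤ U) (hU' : τ'.im ≤ U) :
    Hm 1 (4 * U ^ 2) E E (sp 1 τ) (sp 1 τ')
      (((τ' : ℂ) - starRingEnd ℂ τ) / (τ - starRingEnd ℂ τ))
      (((τ : ℂ) - τ') / (τ - starRingEnd ℂ τ)) (A' * C + A * C' - j) := by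
  have hy := τ.im_pos
  have hy' := τ'.im_pos
  have n0 : Complex.normSq ((τ : ℂ) - starRingEnd ℂ τ) = 4 * τ.im ^ 2 := by
    simp only [Complex.normSq_apply, Complex.sub_re, Complex.sub_im, Complex.conj_re,
      Complex.conj_im, coe_re, coe_im]
    ring
  have n1 : Complex.normSq ((τ' : ℂ) - starRingEnd ℂ τ) =
      (τ.re - τ'.re) ^ 2 + (τ.im + τ'.im) ^ 2 := by
    simp only [Complex.normSq_apply, Complex.sub_re, Complex.sub_im, Complex.conj_re,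
      Complex.conj_im, coe_re, coe_im]
    ring
  have n2 : Complex.normSq ((τ : ℂ) - τ') = (τ.re - τ'.re) ^ 2 + (τ.im - τ'.im) ^ 2 := by
    simp only [Complex.normSq_apply, Complex.sub_re, Complex.sub_im, coe_re, coe_im]
    ring
  have f1 := ModularGroup.three_le_four_mul_im_sq_of_mem_fd hτ
  have f2 := ModularGroup.three_le_four_mul_im_sq_of_mem_fd hτ'
  have f3 := abs_le.1 hτ.2
  have f4 := abs_le.1 hτ'.2
  have hx : (τ.re - τ'.re) ^ 2 ≤ 1 := by nlinarith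
  have hyy : 3 / 4 ≤ τ.im * τ'.im := by
    refine (pow_le_pow_iff_left₀ (by norm_num) (by positivity) two_ne_zero).1 ?_
    nlinarith
  have hU2 : 3 / 4 ≤ U ^ 2 := by nlinarith
  have hs : (τ.im + τ'.im) ^ 2 ≤ 4 * U ^ 2 := by nlinarith
  have key : (τ.re - τ'.re) ^ 2 + (τ.im + τ'.im) ^ 2 ≤ 16 * U ^ 2 * (τ.im * τ'.im) := by
    nlinarith
  have le1 : ((τ.re - τ'.re) ^ 2 + (τ.im + τ'.im) ^ 2) / (4 * τ.im ^ 2) * τ.im ≤
      4 * U ^ 2 * τ'.im := by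
    rw [div_mul_eq_mul_div, div_le_iff₀ (by positivity)]
    nlinarith
  refine ⟨fun z hz => ?_, ?_, ?_, ?_, ?_⟩
  · obtain ⟨u, v, rfl⟩ := mem_sp.1 hz
    rw [mul_one, tda_rl]
    exact mem_sp.2 ⟨u, v, by ring⟩
  · obtain ⟨p1, p2⟩ := ord_parts h
    obtain ⟨p1', p2'⟩ := ord_parts h'
    rw [hE] at p2
    rw [hE'] at p2'
    have hAr : (0 : ℝ) < A := by exact_mod_cast hA
    have hAr' : (0 : ℝ) < A' := by exact_mod_cast hA'
    have hEr : (B : ℝ) ^ 2 - 4 * A * C = E := by exact_mod_cast hE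
    have hEr' : (B' : ℝ) ^ 2 - 4 * A' * C' = E := by exact_mod_cast hE'
    have hjr : (B : ℝ) * B' - E = 2 * j := by exact_mod_cast hj
    have e1 : (A : ℝ) * τ.im = A' * τ'.im := by
      refine (pow_left_inj₀ (by positivity) (by positivity) two_ne_zero).1 ?_
      linear_combination (p2' - p2) / 4
    have hs : Real.sqrt ((E : ℝ) * E) = -(E : ℝ) := by
      rw [Real.sqrt_mul_self_eq_abs, abs_of_nonpos (by nlinarith)]
    have hB : (B : ℝ) = -(2 * A * τ.re) := by linarith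
    have hB' : (B' : ℝ) = -(2 * A' * τ'.re) := by linarith
    have hC : (C : ℝ) = A * (τ.re ^ 2 + τ.im ^ 2) := by
      refine mul_left_cancel₀ (a := 4 * (A : ℝ)) (by positivity) ?_
      rw [hB] at hEr
      linear_combination p2 - hEr
    have hC' : (C' : ℝ) = A' * (τ'.re ^ 2 + τ'.im ^ 2) := by
      refine mul_left_cancel₀ (a := 4 * (A' : ℝ)) (by positivity) ?_
      rw [hB'] at hEr'
      linear_combination p2' - hEr'
    have hE4 : -(E : ℝ) = 4 * (A * A') * (τ.im * τ'.im) := by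
      linear_combination p2 + 4 * A * τ.im * e1
    have hjj : (j : ℝ) = 2 * (A * A') * (τ.re * τ'.re + τ.im * τ'.im) := by
      rw [hB, hB'] at hjr
      linear_combination (hE4 - hjr) / 2
    rw [map_div₀, n0, n2, tda_vol, tda_vol, hs, hE4]
    push_cast
    rw [hC, hC', hjj]
    field_simp
    ring
  · rw [map_div₀, map_div₀, n0, n1, n2, tda_vol, tda_vol]
    field_simp
    ring
  · rw [map_div₀, n0, n1, tda_vol, tda_vol]
    exact le1
  · rw [map_div₀, n0, n2, tda_vol, tda_vol]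
    refine le_trans ?_ le1
    gcongr (_ + ?_) / _ * _
    nlinarith

namespace Dt

variable {d : Dt} {κ : ℕ}

/-- The content of a matrix. -/
def ctt (η : M2) : ℕ := Int.gcd (Int.gcd (η 0 0) (η 0 1)) (Int.gcd (η 1 0) (η 1 1))

theorem tda_ctt (η : M2) : (ctt η : ℤ) ∣ η 0 0 ∧ (ctt η : ℤ) ∣ η 0 1 ∧ (ctt η : ℤ) ∣ η 1 0 ∧
    (ctt η : ℤ) ∣ η 1 1 :=
  ⟨(Int.gcd_dvd_left _ _).trans (Int.gcd_dvd_left _ _),
    (Int.gcd_dvd_left _ _).trans (Int.gcd_dvd_right _ _),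
    (Int.gcd_dvd_right _ _).trans (Int.gcd_dvd_left _ _),
    (Int.gcd_dvd_right _ _).trans (Int.gcd_dvd_right _ _)⟩

theorem tda_dvd_ctt {η : M2} {s : ℤ} (h00 : s ∣ η 0 0) (h01 : s ∣ η 0 1) (h10 : s ∣ η 1 0)
    (h11 : s ∣ η 1 1) : s ∣ (ctt η : ℤ) :=
  Int.dvd_coe_gcd (Int.dvd_coe_gcd h00 h01) (Int.dvd_coe_gcd h10 h11)

theorem Cf.ctt_dvd (h : d.Good κ) {X Y : ℤ} {Θ η₁ η₂ : M2} (hc : d.Cf X Y Θ η₁ η₂) :
    (ctt η₁ : ℤ) ∣ d.m := by
  obtain ⟨A, B, C, -, hg, hE, rfl⟩ := hc.th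
  obtain ⟨k, hk⟩ := tda_par hE
  have r₂ := hc.r₂
  rw [hk] at r₂
  obtain ⟨a0, a1⟩ := tda_r₂ r₂ 0
  obtain ⟨b0, b1⟩ := tda_r₂ r₂ 1
  obtain ⟨t00, t01, t10, t11⟩ := tda_ctt η₁
  have d1 := hc.det 1 0
  have d2 := hc.det 0 1
  have d3 := hc.det 1 1
  simp only [Matrix.det_fin_two, F, Matrix.add_apply, Matrix.smul_apply, smul_eq_mul] at d1 d2 d3
  have ha : (ctt η₁ : ℤ) ∣ d.m * d.a := by
    have : d.m * d.a = η₁ 0 0 * η₁ 1 1 - η₁ 0 1 * η₁ 1 0 := by linear_combination -d1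
    rw [this]
    exact dvd_sub (t00.mul_right _) (t01.mul_right _)
  have hb : (ctt η₁ : ℤ) ∣ d.m * d.b := by
    have : d.m * d.b = η₁ 0 0 * η₂ 1 1 + η₁ 1 1 * η₂ 0 0 - η₁ 0 1 * η₂ 1 0 - η₁ 1 0 * η₂ 0 1 := by
      linear_combination d1 + d2 - d3
    rw [this]
    exact dvd_sub (dvd_sub (dvd_add (t00.mul_right _) (t11.mul_right _)) (t01.mul_right _))
      (t10.mul_right _)
  have hc' : (ctt η₁ : ℤ) ∣ d.m * d.c := by
    obtain ⟨u, v, w, e⟩ := ord_bezout hg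
    have : d.m * d.c = η₁ 0 0 * (d.c * (u * η₂ 1 0 + v * η₂ 1 1)) +
        η₁ 1 0 * (-d.c * (u * η₂ 0 0 + v * η₂ 0 1)) +
        η₁ 0 1 * (d.c * (w * η₂ 1 1 + v * η₂ 1 0)) +
        η₁ 1 1 * (-d.c * (w * η₂ 0 1 + v * η₂ 0 0)) := by
      linear_combination -d2 - (u * η₂ 1 0 + v * η₂ 1 1) * a0 + (u * η₂ 0 0 + v * η₂ 0 1) * b0 -
        (w * η₂ 1 1 + v * η₂ 1 0) * a1 + (w * η₂ 0 1 + v * η₂ 0 0) * b1 -
        (η₂ 0 0 * η₂ 1 1 - η₂ 0 1 * η₂ 1 0) * e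
    rw [this]
    exact dvd_add (dvd_add (dvd_add (t00.mul_right _) (t10.mul_right _)) (t01.mul_right _))
      (t11.mul_right _)
  obtain ⟨u, v, w, e⟩ := ord_bezout h.prim
  have : d.m = u * (d.m * d.a) + v * (d.m * d.b) + w * (d.m * d.c) := by
    linear_combination -d.m * e
  rw [this]
  exact dvd_add (dvd_add (ha.mul_left _) (hb.mul_left _)) (hc'.mul_left _)

theorem same_label (h : d.Good κ) {X Y X' Y' : ℤ} {Θ Θ' η η₂ η₂' : M2} (hc : d.Cf X Y Θ η η₂)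
    (hc' : d.Cf X' Y' Θ' η η₂') {τ τ' : ℍ} (ht : TauTh d.E τ Θ) (ht' : TauTh d.E τ' Θ')
    (hτ : τ ∈ ModularGroup.fd) (hτ' : τ' ∈ ModularGroup.fd) {U : ℝ} (hU : τ.im ≤ U)
    (hU' : τ'.im ≤ U) :
    (jInv τ, jInv τ') ∈ LevP (d.a.natAbs / Nat.gcd d.a.natAbs (ctt η)) (-d.b) (4 * U ^ 2) d.E := by
  have ht0 : ctt η ≠ 0 := by
    intro e
    have h1 := hc.ctt_dvd h
    rw [e, Nat.cast_zero, zero_dvd_iff, m, G] at h1
    have := h.g₁_pos
    have := h.g₂_pos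
    exact mul_ne_zero h.n_ne (by positivity) h1
  obtain ⟨A, B, C, hA, hg, hE, hr, rfl⟩ := ht
  obtain ⟨A', B', C', hA', hg', hE', hr', rfl⟩ := ht'
  obtain ⟨k, hk⟩ := tda_par hE
  obtain ⟨k', hk'⟩ := tda_par hE'
  have r₁ := hc.r₁
  have r₁' := hc'.r₁
  rw [hk] at r₁
  rw [hk'] at r₁'
  obtain ⟨a0, a1⟩ := tda_r₁ r₁ 0
  obtain ⟨b0, b1⟩ := tda_r₁ r₁ 1
  obtain ⟨a0', a1'⟩ := tda_r₁ r₁' 0
  obtain ⟨b0', b1'⟩ := tda_r₁ r₁' 1
  obtain ⟨⟨n00, t00⟩, ⟨n01, t01⟩, ⟨n10, t10⟩, ⟨n11, t11⟩⟩ := tda_ctt η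
  have hgp : 0 < Nat.gcd d.a.natAbs (ctt η) := Nat.gcd_pos_of_pos_right _ (Nat.pos_of_ne_zero ht0)
  have hcop := Nat.coprime_div_gcd_div_gcd hgp
  have ea := Nat.mul_div_cancel' (Nat.gcd_dvd_left d.a.natAbs (ctt η))
  have et := Nat.mul_div_cancel' (Nat.gcd_dvd_right d.a.natAbs (ctt η))
  generalize d.a.natAbs / Nat.gcd d.a.natAbs (ctt η) = q at hcop ea ⊢
  generalize ctt η / Nat.gcd d.a.natAbs (ctt η) = s at hcop et
  generalize Nat.gcd d.a.natAbs (ctt η) = g at hgp ea et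
  have ea' : d.a = g * q := by
    rw [← Nat.cast_mul, ea, Int.natAbs_of_nonneg h.a_pos.le]
  have et' : (ctt η : ℤ) = g * s := by rw [← Nat.cast_mul, et]
  have hq : q ≠ 0 := by
    rintro rfl
    have := h.a_pos
    simp [ea'] at this
  have hg0 : (g : ℤ) ≠ 0 := by exact_mod_cast hgp.ne'
  have red : ∀ x y : ℤ, d.a * x = ctt η * y → (q : ℤ) ∣ y := by
    intro x y e
    rw [ea', et', mul_assoc, mul_assoc] at e
    exact (Nat.isCoprime_iff_coprime.2 hcop).dvd_of_dvd_mul_left ⟨x, (mul_left_cancel₀ hg0 e).symm⟩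
  have c0 := red _ (k * n00 + A * n01) (by rw [a0, t00, t01]; ring)
  have c1 := red _ ((k + B) * n01 - C * n00) (by rw [a1, t00, t01]; ring)
  have c2 := red _ (k * n10 + A * n11) (by rw [b0, t10, t11]; ring)
  have c3 := red _ ((k + B) * n11 - C * n10) (by rw [b1, t10, t11]; ring)
  have c0' := red _ (k' * n00 + A' * n01) (by rw [a0', t00, t01]; ring)
  have c1' := red _ ((k' + B') * n01 - C' * n00) (by rw [a1', t00, t01]; ring)
  have c2' := red _ (k' * n10 + A' * n11) (by rw [b0', t10, t11]; ring)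
  have c3' := red _ ((k' + B') * n11 - C' * n10) (by rw [b1', t10, t11]; ring)
  obtain ⟨P, hP⟩ := tda_prim hq n11 (-n10) (-n01) n00 (by
    rintro l hl ⟨h1, h2, h3, h4⟩
    rw [dvd_neg] at h2 h3
    have h5 : (ctt η : ℤ) * l ∣ (ctt η : ℤ) * 1 := by
      rw [mul_one]
      refine tda_dvd_ctt ?_ ?_ ?_ ?_
      · rw [t00]; exact mul_dvd_mul_left _ h4
      · rw [t01]; exact mul_dvd_mul_left _ h3
      · rw [t10]; exact mul_dvd_mul_left _ h2
      · rw [t11]; exact mul_dvd_mul_left _ h1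
    have h6 := (mul_dvd_mul_iff_left (by exact_mod_cast ht0)).1 h5
    exact hl.one_lt.ne' (Nat.dvd_one.1 (by exact_mod_cast h6)))
  obtain ⟨j, hj⟩ : ∃ j : ℤ, B * B' - d.E = 2 * j :=
    ⟨B * (k - k') + 2 * A * C, by linear_combination hE + B * hk - B * hk'⟩
  have s1 := tda_side (k := k) (v₀ := n11 + P * -n01) (v₁ := -n10 + P * n00) (q := q) hA hr
    (by have := dvd_sub c3 (c1.mul_left P); rwa [show (k + B) * n11 - C * n10 -
      P * ((k + B) * n01 - C * n00) = (k + B) * (n11 + P * -n01) + C * (-n10 + P * n00) by ring]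
        at this)
    (by have := dvd_sub c2 (c0.mul_left P); rwa [show k * n10 + A * n11 -
      P * (k * n00 + A * n01) = A * (n11 + P * -n01) - k * (-n10 + P * n00) by ring] at this)
  have s2 := tda_side (k := k') (v₀ := n11 + P * -n01) (v₁ := -n10 + P * n00) (q := q) hA' hr'
    (by have := dvd_sub c3' (c1'.mul_left P); rwa [show (k' + B') * n11 - C' * n10 -
      P * ((k' + B') * n01 - C' * n00) = (k' + B') * (n11 + P * -n01) + C' * (-n10 + P * n00)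
        by ring] at this)
    (by have := dvd_sub c2' (c0'.mul_left P); rwa [show k' * n10 + A' * n11 -
      P * (k' * n00 + A' * n01) = A' * (n11 + P * -n01) - k' * (-n10 + P * n00) by ring] at this)
  rw [hE, ← hk] at s1
  rw [hE', ← hk'] at s2
  generalize n11 + P * -n01 = v₀ at hP s1 s2
  generalize -n10 + P * n00 = v₁ at hP s1 s2
  refine ⟨sp 1 τ, sp 1 τ', _, _, _, discL_one ⟨A, B, C, hA, hg, hr, hE.symm⟩,
    discL_one ⟨A', B', C', hA', hg', hr', hE'.symm⟩, jL_one τ, jL_one τ',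
    tda_hm hA hA' hr hr' hE hE' hj hτ hτ' hU hU', ?_, v₀ - v₁ * τ,
    mem_sp.2 ⟨v₀, -v₁, by push_cast; ring⟩, fun l hl hlq hm => hP l hl hlq ?_, s1, ?_⟩
  · obtain ⟨e, he⟩ := Int.even_mul_succ_self d.b
    exact ⟨2 * d.a * d.c - e, by rw [E]; linear_combination -he⟩
  · obtain ⟨w, hw, e⟩ := mem_pr_mul.1 hm
    obtain ⟨x, y, rfl⟩ := mem_sp.1 hw
    obtain ⟨e1, e2⟩ := ord_indep τ (m := l * x - v₀) (n := l * y + v₁) (by
      push_cast
      linear_combination e)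
    exact ⟨⟨x, by linear_combination -e1⟩, ⟨-y, by linear_combination e2⟩⟩
  · have e := tda_rl τ τ' v₀ (-v₁)
    rw [Int.cast_neg, neg_mul, neg_mul, ← sub_eq_add_neg, ← sub_eq_add_neg] at e
    rw [e]
    exact s2

end Dt

end Pool.Agent.EQ
end
end

-- part Pool.Agent.P.MP_ad7a55_nt.TLow
section

/-! The class number is as large as expected. -/

set_option autoImplicit false

noncomputable section

open Finset

namespace Pool.Agent.EQ

/-- The `L`-function of the character `n ↦ (d / n)` modulo `4 |d|` has no real zero in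
`[1 - c / log (4 |d|), 1)`. -/
def NoZero (c : ℝ) (d : ℤ) : Prop :=
  ∀ (q : ℕ) [NeZero q] (χ : DirichletCharacter ℂ q), q = 4 * d.natAbs →
    (∀ n : ℕ, Odd n → χ n = jacobiSym d n) →
    ∀ β : ℝ, 1 - c / Real.log q ≤ β → β < 1 → χ.LFunction β ≠ 0

/-- All orders in the field of `D` have class number of the expected size. -/
def Low (L : ℝ) (D : ℤ) : Prop :=
  ∀ D' : ℤ, IsD D' → IsSquare (D * D') → HH D' ≤ L * (Cl D').ncard

theorem tlow_shape {d f D' : ℤ} (hd : Squarefree d) (hf : f ≠ 0)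
    (h : IsSquare (f ^ 2 * d * D')) : ∃ g : ℤ, D' = g ^ 2 * d := by
  obtain ⟨r, hr⟩ := h
  have h1 : f ^ 2 ∣ r ^ 2 := ⟨d * D', by rw [sq r, ← hr]; ring⟩
  obtain ⟨s, rfl⟩ := (Int.pow_dvd_pow_iff (by norm_num : 2 ≠ 0)).1 h1
  have h2 : d * D' = s ^ 2 := by
    have h3 : f ^ 2 * (d * D') = f ^ 2 * s ^ 2 := by linear_combination hr
    exact mul_left_cancel₀ (pow_ne_zero 2 hf) h3
  have h4 : d ∣ s := (hd.dvd_pow_iff_dvd (by norm_num : 2 ≠ 0)).1 ⟨D', h2.symm⟩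
  obtain ⟨g, rfl⟩ := h4
  refine ⟨g, mul_left_cancel₀ hd.ne_zero ?_⟩
  linear_combination h2

theorem tlow_ne {D : ℤ} (hD : D < 0) [NeZero (4 * D.natAbs)] : sgeChi D ≠ 1 := by
  intro h
  have h0 : 0 < D.natAbs := Int.natAbs_pos.2 hD.ne
  obtain ⟨n, hn⟩ : ∃ n, n + 1 = 4 * D.natAbs := ⟨4 * D.natAbs - 1, by omega⟩
  have h1 := sgeChi_nat D n
  have h2 := sge_jac hn
  rw [show -(D.natAbs : ℤ) = D by omega] at h2
  rw [if_pos (Nat.odd_iff.2 (by omega)), h2, h] at h1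
  by_cases hu : IsUnit (n : ZMod (4 * D.natAbs))
  · rw [MulChar.one_apply hu] at h1
    norm_num at h1
  · rw [MulChar.map_nonunit _ hu] at h1
    norm_num at h1

theorem tlow_sq (D : ℤ) [NeZero (4 * D.natAbs)] : sgeChi D ^ 2 = 1 := by
  refine MulChar.isQuadratic_iff_sq_eq_one.1 fun x => ?_
  obtain ⟨a, rfl⟩ := ZMod.natCast_zmod_surjective x
  rw [sgeChi_nat]
  split_ifs
  · rcases jacobiSym.trichotomy D a with h | h | h <;> simp [h]
  · exact Or.inl rfl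

theorem tlow_jc (D : ℤ) [NeZero (4 * D.natAbs)] (n : ℕ) :
    sgeChi D (n : ZMod (4 * D.natAbs)) = (jc D n : ℝ) := by
  rw [sgeChi_nat, jc]
  split_ifs <;> simp

theorem tlow_odd {n m : ℕ} (h : n.Coprime (4 * m)) : Odd n := by
  have h1 : n.Coprime 2 := Nat.Coprime.coprime_dvd_right ⟨2 * m, by ring⟩ h
  exact Nat.coprime_two_right.1 h1

theorem tlow_jac {g d : ℤ} {n : ℕ} (h : n.Coprime (4 * (g ^ 2 * d).natAbs)) :
    jacobiSym (g ^ 2 * d) n = jacobiSym d n := by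
  have h1 : n.Coprime g.natAbs := by
    refine Nat.Coprime.coprime_dvd_right ⟨4 * g.natAbs * d.natAbs, ?_⟩ h
    rw [Int.natAbs_mul, Int.natAbs_pow]
    ring
  have h2 : Int.gcd g n = 1 := h1.symm
  rw [jacobiSym.mul_left, jacobiSym.sq_one' h2, one_mul]

theorem tlow_level {g d : ℤ} [NeZero (4 * d.natAbs)] [NeZero (4 * (g ^ 2 * d).natAbs)]
    (h : 4 * d.natAbs ∣ 4 * (g ^ 2 * d).natAbs) :
    sgeChi (g ^ 2 * d) = DirichletCharacter.changeLevel h (sgeChi d) := by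
  refine MulChar.ext fun u => ?_
  obtain ⟨n, hn⟩ := ZMod.natCast_zmod_surjective (u : ZMod (4 * (g ^ 2 * d).natAbs))
  have hc : n.Coprime (4 * (g ^ 2 * d).natAbs) :=
    (ZMod.isUnit_iff_coprime _ _).1 (hn ▸ u.isUnit)
  rw [DirichletCharacter.changeLevel_eq_cast_of_dvd, ← hn, ZMod.cast_natCast h, sgeChi_nat,
    sgeChi_nat, tlow_jac hc]

theorem tlow_exp {u : ℝ} (h : |u| ≤ 1 / 2) : Real.exp (-(u + 2 * u ^ 2)) ≤ 1 - u := by
  obtain ⟨h0, h1⟩ := abs_le.1 h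
  have h2 := Real.add_one_le_exp (u + 2 * u ^ 2)
  have h3 : 0 < u + 2 * u ^ 2 + 1 := by nlinarith [sq_nonneg u]
  rw [Real.exp_neg]
  refine (inv_anti₀ h3 h2).trans ?_
  rw [inv_eq_one_div, div_le_iff₀ h3]
  nlinarith [mul_nonneg (sq_nonneg u) (by linarith : (0 : ℝ) ≤ 1 - 2 * u)]

theorem tlow_abs (d : ℤ) (n : ℕ) : |jc d n| ≤ 1 := by
  rw [jc]
  split_ifs
  · rcases jacobiSym.trichotomy d n with h | h | h <;> simp [h]
  · simp

theorem tlow_prod (d : ℤ) (P : Finset ℕ) (hP : ∀ l ∈ P, l.Prime) :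
    Real.exp (-(∑ l ∈ P, jc d l / l) - 2) ≤
      ‖∏ l ∈ P, (1 - ((jc d l : ℝ) : ℂ) * (l : ℂ) ^ (-(1 : ℂ)))‖ := by
  have hu : ∀ l ∈ P, |jc d l / l| ≤ 1 / (l : ℝ) := fun l hl => by
    rw [abs_div, Nat.abs_cast]
    exact div_le_div_of_nonneg_right (tlow_abs d l) (Nat.cast_nonneg _)
  have h2 : ∀ l ∈ P, 1 / (l : ℝ) ≤ 1 / 2 := fun l hl =>
    one_div_le_one_div_of_le (by norm_num) (by exact_mod_cast (hP l hl).two_le)
  have h3 : ∑ l ∈ P, (jc d l / l) ^ 2 ≤ 1 := by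
    refine le_trans (sum_le_sum fun l hl => ?_) (Lib.Sieve.sum_inv_sq_primes_le P hP)
    rw [← sq_abs]
    exact pow_le_pow_left₀ (abs_nonneg _) (hu l hl) 2
  calc Real.exp (-(∑ l ∈ P, jc d l / l) - 2)
      ≤ Real.exp (∑ l ∈ P, -(jc d l / l + 2 * (jc d l / l) ^ 2)) := by
        refine Real.exp_le_exp.2 ?_
        rw [sum_neg_distrib, sum_add_distrib, ← mul_sum]
        linarith
    _ = ∏ l ∈ P, Real.exp (-(jc d l / l + 2 * (jc d l / l) ^ 2)) := Real.exp_sum _ _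
    _ ≤ ∏ l ∈ P, ‖1 - ((jc d l : ℝ) : ℂ) * (l : ℂ) ^ (-(1 : ℂ))‖ := by
        refine prod_le_prod (fun l _ => (Real.exp_pos _).le) fun l hl => ?_
        refine (tlow_exp ((hu l hl).trans (h2 l hl))).trans ?_
        have h4 : (1 : ℂ) - ((jc d l : ℝ) : ℂ) * (l : ℂ) ^ (-(1 : ℂ)) =
            ((1 - jc d l / l : ℝ) : ℂ) := by
          rw [Complex.cpow_neg_one]
          push_cast
          rw [div_eq_mul_inv]
        rw [h4, Complex.norm_real, Real.norm_eq_abs]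
        exact le_abs_self _
    _ = _ := (norm_prod _ _).symm

theorem tlow_sum {g d : ℤ} (h3 : 3 ≤ (g ^ 2 * d).natAbs) :
    ∑ l ∈ Nat.primesLE (g ^ 2 * d).natAbs, (jacobiSym (g ^ 2 * d) l : ℝ) / l ≤
      1 + ∑ l ∈ Nat.primesLE (g ^ 2 * d).natAbs, jc d l / l -
        ∑ l ∈ (4 * (g ^ 2 * d).natAbs).primeFactors, jc d l / l := by
  generalize hX : (g ^ 2 * d).natAbs = X at *
  have hsub : (4 * X).primeFactors = (Nat.primesLE X).filter (fun l => l ∣ 4 * X) := by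
    ext l
    rw [mem_filter, Nat.mem_primesLE, Nat.mem_primeFactors]
    refine ⟨fun ⟨h1, h2, _⟩ => ⟨⟨?_, h1⟩, h2⟩, fun ⟨⟨_, h1⟩, h2⟩ => ⟨h1, h2, by omega⟩⟩
    rcases (Nat.Prime.dvd_mul h1).1 h2 with h4 | h4
    · have h5 : l ∣ 2 := h1.dvd_of_dvd_pow (show l ∣ 2 ^ 2 from h4)
      exact (Nat.le_of_dvd (by norm_num) h5).trans (by omega)
    · exact Nat.le_of_dvd (by omega) h4
  have hone : ∑ l ∈ Nat.primesLE X, (if l = 2 then (1 : ℝ) else 0) ≤ 1 := by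
    rw [sum_ite_eq']
    split_ifs <;> norm_num
  rw [hsub, sum_filter, add_sub_assoc, ← sum_sub_distrib]
  refine le_trans (sum_le_sum fun l hl => ?_) (le_trans (le_of_eq (sum_add_distrib (f := fun l =>
    if l = 2 then (1 : ℝ) else 0))) (add_le_add_left hone _))
  have hp : l.Prime := (Nat.mem_primesLE.1 hl).2
  by_cases h2 : l = 2
  · subst h2
    rw [if_pos rfl, if_pos ⟨2 * X, by ring⟩, sub_self, add_zero]
    rcases jacobiSym.trichotomy (g ^ 2 * d) 2 with h | h | h <;> rw [h] <;> norm_num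
  · rw [if_neg h2, zero_add]
    split_ifs with hd
    · have h4 : l ∣ X := by
        refine ((Nat.Prime.dvd_mul hp).1 hd).resolve_left fun h4 => h2 ?_
        exact (Nat.prime_dvd_prime_iff_eq hp Nat.prime_two).1
          (hp.dvd_of_dvd_pow (show l ∣ 2 ^ 2 from h4))
      have h5 : jacobiSym (g ^ 2 * d) l = 0 := by
        refine jacobiSym.eq_zero_iff.2 ⟨hp.ne_zero, fun h6 => ?_⟩
        have h7 : X.Coprime l := hX ▸ h6
        exact hp.one_lt.ne' (Nat.eq_one_of_dvd_coprimes h7 h4 dvd_rfl)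
      rw [h5, sub_self]
      simp
    · have h4 : l.Coprime (4 * (g ^ 2 * d).natAbs) := hX ▸ (hp.coprime_iff_not_dvd.2 hd)
      rw [tlow_jac h4, sub_zero, jc, if_pos (hp.odd_of_ne_two h2)]

theorem tlow_one {d : ℤ} (hd : d < 0) : ∃ c : ℝ, 0 < c ∧ NoZero c d := by
  have h0 : 0 < d.natAbs := Int.natAbs_pos.2 hd.ne
  have : NeZero (4 * d.natAbs) := ⟨by omega⟩
  have h1 := (DirichletCharacter.differentiable_LFunction (tlow_ne hd)).continuous.continuousAt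
    (x := 1)
  have h2 := h1.eventually_ne (DirichletCharacter.LFunction_apply_one_ne_zero (tlow_ne hd))
  obtain ⟨δ, hδ, h3⟩ := Metric.eventually_nhds_iff.1 h2
  have hl : 0 < Real.log ((4 * d.natAbs : ℕ) : ℝ) :=
    Real.log_pos (by exact_mod_cast (by omega : 1 < 4 * d.natAbs))
  refine ⟨δ / 2 * Real.log ((4 * d.natAbs : ℕ) : ℝ), by positivity, ?_⟩
  intro q _ χ hq hχ β hβ hβ1
  subst hq
  have h4 : χ = sgeChi d := by
    refine MulChar.ext fun u => ?_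
    obtain ⟨n, hn⟩ := ZMod.natCast_zmod_surjective (u : ZMod (4 * d.natAbs))
    have hc : n.Coprime (4 * d.natAbs) := (ZMod.isUnit_iff_coprime _ _).1 (hn ▸ u.isUnit)
    rw [← hn, sgeChi_nat, if_pos (tlow_odd hc), hχ n (tlow_odd hc)]
  rw [h4]
  refine h3 ?_
  rw [mul_div_assoc, div_self hl.ne', mul_one] at hβ
  rw [Complex.dist_eq, ← Complex.ofReal_one, ← Complex.ofReal_sub, Complex.norm_real,
    Real.norm_eq_abs, abs_lt]
  constructor <;> linarith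

theorem tlow_mono {c c' : ℝ} {d : ℤ} (h : c' ≤ c) (hc : NoZero c d) : NoZero c' d := by
  intro q _ χ hq hχ β hβ hβ1
  refine hc q χ hq hχ β (le_trans ?_ hβ) hβ1
  have := div_le_div_of_nonneg_right h (Real.log_natCast_nonneg q)
  linarith

theorem low_of_noZero {c : ℝ} (hc : 0 < c) : ∃ L : ℝ, 0 < L ∧ ∀ d f : ℤ, Squarefree d →
    f ^ 2 * d < 0 → NoZero c d → Low L (f ^ 2 * d) := by
  obtain ⟨C, hC, hE⟩ := nz_euler hc
  refine ⟨1200 * Real.exp 3 * C, by positivity, fun d f hd hf hz D' hD' hsq => ?_⟩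
  have hf0 : f ≠ 0 := by
    rintro rfl
    simp at hf
  have hd0 : d < 0 := by
    by_contra hn
    exact absurd hf (not_lt.2 (mul_nonneg (sq_nonneg f) (not_lt.1 hn)))
  obtain ⟨g, rfl⟩ := tlow_shape hd hf0 hsq
  have h3 : 3 ≤ (g ^ 2 * d).natAbs := by
    obtain ⟨h1, h2⟩ := hD'
    omega
  have hdp : 0 < d.natAbs := Int.natAbs_pos.2 hd0.ne
  have : NeZero (4 * d.natAbs) := ⟨by omega⟩
  have : NeZero (4 * (g ^ 2 * d).natAbs) := ⟨by omega⟩
  have hdv : d.natAbs ∣ (g ^ 2 * d).natAbs := Int.natAbs_dvd_natAbs.2 (dvd_mul_left _ _)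
  have hX : 4 * d.natAbs ≤ (g ^ 2 * d).natAbs ^ 3 := by
    have h1 := Nat.le_of_dvd (by omega) hdv
    generalize (g ^ 2 * d).natAbs = X at *
    have h2 : 3 * 3 * X ≤ X * X * X := by gcongr
    calc 4 * d.natAbs ≤ 3 * 3 * X := by omega
      _ ≤ X * X * X := h2
      _ = X ^ 3 := by ring
  have h4 := hE (4 * d.natAbs) (sgeChi d) (jc d) (tlow_ne hd0) (tlow_sq d) (tlow_jc d)
    (hz _ (sgeChi d) rfl fun n hn => by rw [sgeChi_nat, if_pos hn]) _ hX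
  have h5 := class_ge hD'
  rw [tlow_level (Nat.mul_dvd_mul_left 4 hdv),
    DirichletCharacter.LFunction_changeLevel _ _ (Or.inl (tlow_ne hd0)), norm_mul] at h5
  simp only [tlow_jc] at h5
  have h6 := tlow_prod d (4 * (g ^ 2 * d).natAbs).primeFactors
    fun l hl => Nat.prime_of_mem_primeFactors hl
  have h7 := tlow_sum h3
  have h8 : EE (g ^ 2 * d) (g ^ 2 * d).natAbs ≤ Real.exp 3 *
      (Real.exp (∑ l ∈ Nat.primesLE (g ^ 2 * d).natAbs, jc d l / l) *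
        Real.exp (-(∑ l ∈ (4 * (g ^ 2 * d).natAbs).primeFactors, jc d l / l) - 2)) := by
    rw [EE, ← Real.exp_add, ← Real.exp_add]
    exact Real.exp_le_exp.2 (by linarith)
  rw [HH]
  generalize EE (g ^ 2 * d) (g ^ 2 * d).natAbs = E at *
  generalize ‖∏ l ∈ (4 * (g ^ 2 * d).natAbs).primeFactors,
    (1 - ((jc d l : ℝ) : ℂ) * (l : ℂ) ^ (-(1 : ℂ)))‖ = P at *
  have hA := norm_nonneg ((sgeChi d).LFunction 1)
  generalize ‖(sgeChi d).LFunction 1‖ = A at *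
  have hS := Real.sqrt_nonneg (-((g ^ 2 * d : ℤ) : ℝ))
  generalize Real.sqrt (-((g ^ 2 * d : ℤ) : ℝ)) = S at *
  calc S * E ≤ S * (Real.exp 3 * (C * A * P)) := by
        refine mul_le_mul_of_nonneg_left (h8.trans ?_) hS
        gcongr
    _ = Real.exp 3 * C * (S * (A * P)) := by ring
    _ ≤ Real.exp 3 * C * (1200 * ((Cl (g ^ 2 * d)).ncard : ℝ)) := by gcongr
    _ = _ := by ring

theorem noZero_of_finite (T : Finset ℤ) (hT : ∀ d ∈ T, d < 0) :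
    ∃ c : ℝ, 0 < c ∧ ∀ d ∈ T, NoZero c d := by
  induction T using Finset.induction_on with
  | empty => exact ⟨1, one_pos, fun d hd => absurd hd (notMem_empty d)⟩
  | insert a T _ ih =>
    obtain ⟨c, hc, h⟩ := ih fun d hd => hT d (mem_insert_of_mem hd)
    obtain ⟨c', hc', h'⟩ := tlow_one (hT a (mem_insert_self a T))
    refine ⟨min c c', lt_min hc hc', fun d hd => ?_⟩
    rcases mem_insert.1 hd with rfl | hd
    · exact tlow_mono (min_le_right _ _) h'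
    · exact tlow_mono (min_le_left _ _) (h d hd)

end Pool.Agent.EQ
end
end
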