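import Pool.Agent.K.MP_ad7a55_nt.C52
import Pool.Agent.K.MP_ad7a55_nt.C12
import Pool.Agent.K.MP_ad7a55_nt.C18
import Pool.Agent.K.MP_ad7a55_nt.C51
import Pool.Agent.K.MP_ad7a55_nt.C42
import Pool.Agent.K.MP_ad7a55_nt.C30
import Pool.Agent.K.MP_ad7a55_nt.C53

-- part Pool.Agent.P.MP_ad7a55_nt.TRow
section

/-! The sum over one row. -/

set_option autoImplicit false

noncomputable section

open Finset Matrix

namespace Pool.Agent.EQ

namespace Dt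

theorem trow_M {K M a : ℝ} {l : ℕ} {S : Set ℤ} {B : ℤ → ℤ} {w : ℤ → ℝ} {mu : ℤ → ℕ}
    (h : LS K l S B w mu M a) : 0 ≤ M := by
  obtain ⟨T, π, Ω, f, h1, h2, -⟩ := h
  exact (sum_nonneg fun t ht => div_nonneg (h1 t ht).1 (by positivity)).trans h2

theorem trow_ite (Q R : Finset ℕ) {g : ℕ → ℝ} (hg : ∀ l, 0 ≤ g l) :
    ∑ l ∈ Q, (if l ∈ R then g l else 0) ≤ ∑ l ∈ R, g l := by
  rw [sum_ite_mem]
  exact sum_le_sum_of_subset_of_nonneg inter_subset_right fun l _ _ => hg l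

theorem trow_W {d : Dt} {κ : ℕ} (h : d.Good κ) {l : ℕ} (hl : l.Prime)
    (h1 : (l : ℤ) ∣ 2 * d.n * d.p) : l ∈ (2 * d.n * d.p).natAbs.primeFactors := by
  refine Nat.mem_primeFactors.2 ⟨hl, Int.natCast_dvd.1 h1, Int.natAbs_ne_zero.2 ?_⟩
  exact mul_ne_zero (mul_ne_zero two_ne_zero h.n_ne) (Int.natCast_ne_zero.2 h.prime.ne_zero)

theorem trow_ms {d : Dt} {κ : ℕ} (h : d.Good κ) {K : ℝ} (hK : 1 ≤ K) (Y : ℤ) (Q R : Finset ℕ)
    (hQ : ∀ l ∈ Q, l.Prime) (hR : ∀ l ∈ Q, (l : ℤ) ∣ d.Δ₁ Y → l ∈ R) :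
    ∏ l ∈ Q, d.ms K l Y ≤ Real.exp (K * (2 * d.n * d.p).natAbs.primeFactors.card +
      K * ∑ l ∈ R, 1 / (l : ℝ)) := by
  have hK0 : 0 ≤ K := by linarith
  calc ∏ l ∈ Q, d.ms K l Y ≤ ∏ l ∈ Q, Real.exp
        ((if l ∈ (2 * d.n * d.p).natAbs.primeFactors then K else 0) +
          if l ∈ R then K * (1 / (l : ℝ)) else 0) := by
        refine prod_le_prod (fun l _ => ?_) fun l hl => ?_
        · unfold ms
          split_ifs <;> positivity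
        · refine le_trans ?_ (Real.add_one_le_exp _)
          have h1 : 0 ≤ (if l ∈ R then K * (1 / (l : ℝ)) else 0) := by split_ifs <;> positivity
          have h2 : 0 ≤ (if l ∈ (2 * d.n * d.p).natAbs.primeFactors then K else 0) := by
            split_ifs <;> positivity
          unfold ms
          split_ifs with h3 h4
          all_goals first
            | exact absurd (trow_W h (hQ l hl) h3) (by assumption)
            | exact absurd (hR l hl (by assumption)) (by assumption)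
            | (have h5 : K * (1 / (l : ℝ)) = K / l := by ring
               have h6 : 0 ≤ K / l := by positivity
               linarith)
    _ ≤ _ := by
        rw [← Real.exp_sum, sum_add_distrib, mul_sum]
        refine Real.exp_le_exp.2 (add_le_add ?_ (trow_ite _ _ fun l => by positivity))
        refine (trow_ite _ _ (g := fun _ => K) fun _ => hK0).trans ?_
        rw [sum_const, nsmul_eq_mul, mul_comm]

theorem trow_PP {d : Dt} {H N : ℕ} (hs : d.Sz H N)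
    (hN : 2 * d.n.natAbs * d.p ≤ N) {X Y : ℤ} (hb : d.Box H N X Y) :
    (d.B X Y).natAbs ≤ N ^ 6 ∧ d.PP X Y ⊆ Nat.primesLE (N ^ 7) := by
  have h1 : (d.B X Y).natAbs ≤ N ^ 6 := by
    have h2 : ((d.B X Y).natAbs : ℤ) ≤ ((H * N) ^ 2 : ℕ) := by
      rw [Int.natCast_natAbs]
      exact_mod_cast hb.le
    have h3 : (d.B X Y).natAbs ≤ (H * N) ^ 2 := by exact_mod_cast h2
    calc _ ≤ (H * N) ^ 2 := h3
      _ ≤ (N ^ 2 * N) ^ 2 := Nat.pow_le_pow_left (Nat.mul_le_mul_right _ hs.le) 2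
      _ = _ := by ring
  refine ⟨h1, fun l hl => Nat.mem_primesLE.2 ⟨?_, Nat.prime_of_mem_primeFactors hl⟩⟩
  refine (Nat.le_of_mem_primeFactors hl).trans ?_
  rw [Int.natAbs_mul, Int.natAbs_mul, Int.natAbs_mul, Int.natAbs_natCast]
  calc _ ≤ N * N ^ 6 := Nat.mul_le_mul hN h1
    _ = _ := by ring

open Classical in
/-- Shiu's bound on one row. -/
theorem trow_shiu (n : ℤ) (p κ : ℕ) : ∃ (K C : ℝ), 1 ≤ K ∧ 0 < C ∧
    ∀ d : Dt, d.Good κ → d.n = n → d.p = p → ∀ H N : ℕ, d.Sz H N → 2 * n.natAbs * p + 2 ≤ N →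
    ∀ (S : Finset ℕ) (k : ℕ → ℕ) (w : ℕ → ℤ → ℤ → ℝ) (M : ℕ → ℝ) (Y : ℤ) (T : Finset ℤ),
    (∀ l ∈ S, ¬ d.Dom l) → (∏ l ∈ S, l ^ k l) ^ 8 ≤ N →
    (∀ l ∈ S, LS 1 l T (fun X => d.B X Y) (fun X => w l X Y) (fun X => 2 * d.ie l X Y + k l)
      (M l) 2) →
    (∀ X ∈ T, d.Box H N X Y ∧ S ⊆ d.PP X Y ∧ (∀ l ∈ S, 0 ≤ w l X Y) ∧ d.JJ X Y ^ 32 ≤ N) →
    d.QQ Y ^ 4 ≤ N →
    ∑ X ∈ T, d.WS S w X Y ≤ C * N * (∏ l ∈ S, M l) *
      ((∏ l ∈ Nat.primesLE (N ^ 7) \ S, d.ms K l Y) *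
        Real.exp (∑ l ∈ Nat.primesLE (N + 1), (if l ∈ S then 2 else d.aa K l Y) / l)) := by
  obtain ⟨K, hK, hstd⟩ := ls_std n p κ
  obtain ⟨C, hC, hsh⟩ := shiu_types K 6
  refine ⟨K, 2 * C, hK, by positivity, ?_⟩
  intro d hd hn hp H N hs hN S k w M Y T hD hk hLS hT hQ
  have hms : ∀ l, 0 ≤ d.ms K l Y := fun l => by
    have hK0 : 0 ≤ K := by linarith
    unfold ms
    split_ifs <;> positivity
  have hM0 : 0 ≤ ∏ l ∈ S, M l := prod_nonneg fun l hl => trow_M (hLS l hl)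
  have hm0 : 0 ≤ ∏ l ∈ Nat.primesLE (N ^ 7) \ S, d.ms K l Y := prod_nonneg fun l _ => hms l
  rcases T.eq_empty_or_nonempty with rfl | ⟨X₀, hX₀⟩
  · rw [sum_empty]
    positivity
  have hN' : 2 * d.n.natAbs * d.p ≤ N := by rw [hn, hp]; omega
  set P := Nat.primesLE (N ^ 7) with hP
  have hPp : ∀ l ∈ P, l.Prime := fun l hl => Nat.prime_of_mem_primesLE hl
  have hSP : S ⊆ P := (hT X₀ hX₀).2.1.trans (trow_PP hs hN' (hT X₀ hX₀).1).2
  obtain ⟨x₀, hx₀⟩ := Box.ico hd.a_pos N Y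
  have key := hsh P x₀ (N + 1) T (fun X => d.B X Y)
    (fun l X => if l ∈ S then w l X Y else d.Wt l X Y)
    (fun l X => if l ∈ S then 2 * d.ie l X Y + k l else if d.Dom l then 0 else d.mu l X Y)
    (fun l => if l ∈ S then M l else d.ms K l Y) (fun l => if l ∈ S then 2 else d.aa K l Y)
    (fun l hl => ⟨hPp l hl, by
      by_cases h1 : l ∈ S
      · simp only [if_pos h1]
        exact (hLS l h1).mono hK (fun _ h => h) (fun _ _ => le_rfl) (fun _ _ => le_rfl) le_rfl le_rfl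
      · simp only [if_neg h1]
        exact (hstd d hd hn hp l (hPp l hl) Y).mono le_rfl (fun X hX => (hT X hX).1.ne)
          (fun _ _ => le_rfl) (fun _ _ => le_rfl) le_rfl le_rfl⟩)
    (fun X hX => by
      obtain ⟨hb, -, hw, hJ⟩ := hT X hX
      refine ⟨(hx₀ H X hb).1, (hx₀ H X hb).2, fun l _ => ?_, hb.ne,
        (trow_PP hs hN' hb).1.trans (Nat.pow_le_pow_left (Nat.le_succ N) 6), ?_⟩
      · split_ifs with h1
        · exact hw l h1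
        · exact Wt_nonneg l X Y
      · have h1 : ∏ l ∈ P, l ^ (if l ∈ S then 2 * d.ie l X Y + k l
              else if d.Dom l then 0 else d.mu l X Y) ≤
            ∏ l ∈ P, l ^ (if d.Dom l then 0 else d.mu l X Y) * (if l ∈ S then l ^ k l else 1) := by
          refine prod_le_prod' fun l hl => ?_
          by_cases h2 : l ∈ S
          · rw [if_pos h2, if_pos h2, if_neg (hD l h2), ← pow_add]
            refine Nat.pow_le_pow_right (hPp l hl).pos ?_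
            unfold mu
            omega
          · rw [if_neg h2, if_neg h2, mul_one]
        rw [prod_mul_distrib, prod_ite_mem, inter_eq_right.2 hSP] at h1
        have h2 := h1.trans (Nat.mul_le_mul_right _ (mod_le hd X Y P hPp))
        refine (Nat.pow_le_pow_left h2 2).trans (Nat.le_succ_of_le ?_)
        refine (Nat.pow_le_pow_iff_left (n := 8) (by norm_num)).1 ?_
        calc ((d.JJ X Y ^ 2 * d.QQ Y * ∏ l ∈ S, l ^ k l) ^ 2) ^ 8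
            = d.JJ X Y ^ 32 * (d.QQ Y ^ 4) ^ 4 * ((∏ l ∈ S, l ^ k l) ^ 8) ^ 2 := by ring
          _ ≤ N * N ^ 4 * N ^ 2 := by gcongr
          _ = N ^ 7 := by ring
          _ ≤ N ^ 8 := Nat.pow_le_pow_right (by omega) (by norm_num))
  have e1 : ∀ X ∈ T, d.WS S w X Y = ∏ l ∈ P, if l ∈ S then w l X Y else d.Wt l X Y := by
    intro X hX
    obtain ⟨hb, hS, -, -⟩ := hT X hX
    rw [← prod_sdiff hSP, WS, mul_comm]
    congr 1
    · rw [prod_congr rfl fun l hl => if_neg (mem_sdiff.1 hl).2]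
      refine prod_subset (sdiff_subset_sdiff (trow_PP hs hN' hb).2 Subset.rfl) fun l hl hl' => ?_
      exact Wt_eq_one hd (hPp l (mem_sdiff.1 hl).1) hb.ne
        fun h1 => hl' (mem_sdiff.2 ⟨h1, (mem_sdiff.1 hl).2⟩)
    · exact prod_congr rfl fun l hl => (if_pos hl).symm
  have e2 : ∏ l ∈ P, (if l ∈ S then M l else d.ms K l Y) =
      (∏ l ∈ S, M l) * ∏ l ∈ P \ S, d.ms K l Y := by
    rw [← prod_sdiff hSP, mul_comm, prod_congr rfl fun l hl => if_pos hl,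
      prod_congr rfl fun l hl => if_neg (mem_sdiff.1 hl).2]
  have e3 : P.filter (fun l => l ≤ N + 1) = Nat.primesLE (N + 1) := by
    have h1 : N + 1 ≤ N ^ 7 := by
      have h2 : 2 ≤ N := by omega
      calc N + 1 ≤ N ^ 2 := by nlinarith
        _ ≤ N ^ 7 := Nat.pow_le_pow_right (by omega) (by norm_num)
    ext l
    simp only [hP, mem_filter, Nat.mem_primesLE]
    exact ⟨fun h => ⟨h.2, h.1.2⟩, fun h => ⟨⟨h.1.trans h1, h.2⟩, h.1⟩⟩
  rw [sum_congr rfl e1]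
  rw [e2, e3] at key
  refine key.trans ?_
  have h1 : ((N + 1 : ℕ) : ℝ) ≤ 2 * N := by
    have : N + 1 ≤ 2 * N := by omega
    exact_mod_cast this
  calc _ ≤ C * (2 * N) * ((∏ l ∈ S, M l) * ∏ l ∈ P \ S, d.ms K l Y) *
        Real.exp (∑ l ∈ Nat.primesLE (N + 1), (if l ∈ S then 2 else d.aa K l Y) / l) := by gcongr
    _ = _ := by ring

theorem trow_jac (a : ℤ) (l : ℕ) : -1 ≤ (jacobiSym a l : ℝ) ∧ (jacobiSym a l : ℝ) ≤ 1 :=
  abs_le.1 (tava_abs_jac a l)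

theorem trow_aa_le (d : Dt) {K : ℝ} (hK : 1 ≤ K) (l : ℕ) (Y : ℤ) : d.aa K l Y ≤ K + 2 := by
  have h1 := trow_jac (d.G ^ 2 * d.E) l
  have h2 := trow_jac (d.Δ₁ Y) l
  unfold aa
  split_ifs <;> first | linarith | (rw [Int.cast_zero]; linarith)

/-- The exponent in the nondegenerate case. -/
theorem trow_exp {d : Dt} {κ : ℕ} (h : d.Good κ) {K : ℝ} (hK : 1 ≤ K) {Y : ℤ} (hY : d.Δ₁ Y ≠ 0)
    (S : Finset ℕ) (N : ℕ) :
    ∑ l ∈ Nat.primesLE (N + 1), (if l ∈ S then 2 else d.aa K l Y) / l ≤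
      ∑ l ∈ Nat.primesLE N, (jacobiSym (d.G ^ 2 * d.E) l : ℝ) / l +
      ∑ l ∈ (Nat.primesLE N).filter (fun l : ℕ => ¬ (l : ℤ) ∣ d.m * d.a),
        (jacobiSym (d.Δ₁ Y) l : ℝ) / l + 2 + 4 * S.card +
      (K + 2) * (2 * d.n * d.p).natAbs.primeFactors.card +
      K * ∑ l ∈ (d.Δ₁ Y).natAbs.primeFactors, 1 / (l : ℝ) := by
  have hK0 : 0 ≤ K := by linarith
  set g : ℕ → ℝ := fun l => (jacobiSym (d.G ^ 2 * d.E) l : ℝ) +
    (if (l : ℤ) ∣ d.m * d.a then 0 else (jacobiSym (d.Δ₁ Y) l : ℝ)) with hg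
  have hg2 : ∀ l, -2 ≤ g l ∧ g l ≤ 2 := fun l => by
    have h1 := trow_jac (d.G ^ 2 * d.E) l
    have h2 := trow_jac (d.Δ₁ Y) l
    simp only [hg]
    split_ifs <;> constructor <;> linarith
  have h1 : ∀ l ∈ Nat.primesLE (N + 1), (if l ∈ S then 2 else d.aa K l Y) / l ≤
      g l / l + (if l ∈ S then 4 else 0) +
      (if l ∈ (2 * d.n * d.p).natAbs.primeFactors then K + 2 else 0) +
      (if l ∈ (d.Δ₁ Y).natAbs.primeFactors then K * (1 / (l : ℝ)) else 0) := by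
    intro l hl
    have hlp := Nat.prime_of_mem_primesLE hl
    have hl1 : (1 : ℝ) ≤ l := by exact_mod_cast hlp.one_le
    have hdiv : ∀ u v : ℝ, 0 ≤ v → u ≤ g l + v → u / l ≤ g l / l + v := fun u v hv huv => by
      have h2 : u / l ≤ (g l + v) / l := div_le_div_of_nonneg_right huv (by linarith)
      have h3 : v / l ≤ v := div_le_self hv hl1
      rw [add_div] at h2
      linarith
    have a1 : (0 : ℝ) ≤ if l ∈ S then 4 else 0 := by split_ifs <;> norm_num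
    have a2 : 0 ≤ (if l ∈ (2 * d.n * d.p).natAbs.primeFactors then K + 2 else 0) := by
      split_ifs <;> positivity
    have a3 : 0 ≤ (if l ∈ (d.Δ₁ Y).natAbs.primeFactors then K * (1 / (l : ℝ)) else 0) := by
      split_ifs <;> positivity
    by_cases h2 : l ∈ S
    · rw [if_pos h2, if_pos h2]
      linarith [hdiv 2 4 (by norm_num) (by linarith [(hg2 l).1])]
    rw [if_neg h2]
    by_cases h3 : (l : ℤ) ∣ 2 * d.n * d.p
    · rw [aa, if_pos h3, if_pos (trow_W h hlp h3)]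
      linarith [hdiv K (K + 2) (by linarith) (by linarith [(hg2 l).1])]
    have h4 : d.aa K l Y = g l + if (l : ℤ) ∣ d.Δ₁ Y then K else 0 := by
      rw [aa, if_neg h3]
      simp only [hg]
      split_ifs <;> simp
    rw [h4, add_div]
    by_cases h5 : (l : ℤ) ∣ d.Δ₁ Y
    · have h6 : l ∈ (d.Δ₁ Y).natAbs.primeFactors :=
        Nat.mem_primeFactors.2 ⟨hlp, Int.natCast_dvd.1 h5, Int.natAbs_ne_zero.2 hY⟩
      rw [if_pos h5, if_pos h6, mul_one_div]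
      linarith
    · rw [if_neg h5, zero_div]
      linarith
  refine (sum_le_sum h1).trans ?_
  rw [sum_add_distrib, sum_add_distrib, sum_add_distrib]
  have b1 := trow_ite (Nat.primesLE (N + 1)) S (g := fun _ => (4 : ℝ)) fun _ => by norm_num
  have b2 := trow_ite (Nat.primesLE (N + 1)) (2 * d.n * d.p).natAbs.primeFactors
    (g := fun _ => K + 2) fun _ => by positivity
  have b3 := trow_ite (Nat.primesLE (N + 1)) (d.Δ₁ Y).natAbs.primeFactors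
    (g := fun l => K * (1 / (l : ℝ))) fun _ => by positivity
  rw [sum_const, nsmul_eq_mul] at b1 b2
  rw [← mul_sum] at b3
  have b4 : ∑ l ∈ Nat.primesLE (N + 1), g l / l ≤ ∑ l ∈ Nat.primesLE N, g l / l + 2 := by
    rw [Nat.primesLE_succ]
    split_ifs
    · rw [sum_insert (Nat.notMem_primesLE N)]
      have h2 : (1 : ℝ) ≤ ((N + 1 : ℕ) : ℝ) := by exact_mod_cast Nat.le_add_left 1 N
      have h3 : g (N + 1) / ((N + 1 : ℕ) : ℝ) ≤ 2 := by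
        rw [div_le_iff₀ (by linarith)]
        linarith [(hg2 (N + 1)).2]
      linarith
    · linarith
  have b5 : ∑ l ∈ Nat.primesLE N, g l / l =
      ∑ l ∈ Nat.primesLE N, (jacobiSym (d.G ^ 2 * d.E) l : ℝ) / l +
      ∑ l ∈ (Nat.primesLE N).filter (fun l : ℕ => ¬ (l : ℤ) ∣ d.m * d.a),
        (jacobiSym (d.Δ₁ Y) l : ℝ) / l := by
    rw [sum_filter, ← sum_add_distrib]
    refine sum_congr rfl fun l _ => ?_
    simp only [hg]
    split_ifs <;> ring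
  linarith

theorem cnt_row (n : ℤ) (p κ : ℕ) : ∃ (K C : ℝ) (A N₀ : ℕ), 0 ≤ K ∧ 0 < C ∧
    ∀ d : Dt, d.Good κ → d.n = n → d.p = p → ∀ H N : ℕ, d.Sz H N → N₀ ≤ N →
    ∀ (S : Finset ℕ) (k : ℕ → ℕ) (w : ℕ → ℤ → ℤ → ℝ) (M : ℕ → ℝ) (Y : ℤ) (T : Finset ℤ),
    (∀ l ∈ S, ¬ d.Dom l) → (∏ l ∈ S, l ^ k l) ^ 8 ≤ N →
    (∀ l ∈ S, LS 1 l T (fun X => d.B X Y) (fun X => w l X Y) (fun X => 2 * d.ie l X Y + k l)
      (M l) 2) →
    (∀ X ∈ T, d.Box H N X Y ∧ S ⊆ d.PP X Y ∧ (∀ l ∈ S, 0 ≤ w l X Y) ∧ d.JJ X Y ^ 32 ≤ N) →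
    d.QQ Y ^ 4 ≤ N →
    ∑ X ∈ T, d.WS S w X Y ≤ C * N * (∏ l ∈ S, C * M l) * Real.log N ^ A ∧
    (d.Δ₁ Y ≠ 0 → ∑ X ∈ T, d.WS S w X Y ≤ C * N * (∏ l ∈ S, C * M l) *
      (EE (d.G ^ 2 * d.E) (d.G ^ 2 * d.E).natAbs * Ph K (d.m * d.a) N Y)) := by
  obtain ⟨K, C, hK, hC, h⟩ := trow_shiu n p κ
  obtain ⟨C₁, hC₁, h₁⟩ := exp_primes_le (2 * (⌈K⌉₊ + 2))
  obtain ⟨C₂, hC₂, h₂⟩ := EE_comp 8
  set ω : ℝ := ((2 * n * p : ℤ).natAbs.primeFactors.card : ℝ) with hω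
  set A : ℕ := 2 * (⌈K⌉₊ + 2) with hA
  set D₁ : ℝ := C * (Real.exp (K * ω) * (C₁ * 7 ^ A)) with hD₁
  set D₂ : ℝ := C * (Real.exp (K * ω + 2 + (K + 2) * ω) * C₂) with hD₂
  have hD₁0 : 0 < D₁ := by positivity
  have hD₂0 : 0 < D₂ := by positivity
  have he4 : 1 ≤ Real.exp 4 := Real.one_le_exp (by norm_num)
  refine ⟨2 * K, Real.exp 4 + D₁ + D₂, A, 2 * n.natAbs * p + 2, by linarith, by positivity, ?_⟩
  intro d hd hn hp H N hs hN S k w M Y T hD hk hLS hT hQ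
  have key := h d hd hn hp H N hs hN S k w M Y T hD hk hLS hT hQ
  have hM : ∀ l ∈ S, 0 ≤ M l := fun l hl => trow_M (hLS l hl)
  have hM0 : 0 ≤ ∏ l ∈ S, M l := prod_nonneg hM
  have hPp : ∀ l ∈ Nat.primesLE (N ^ 7) \ S, l.Prime :=
    fun l hl => Nat.prime_of_mem_primesLE (mem_sdiff.1 hl).1
  have hN2 : 2 ≤ N := by omega
  have hK0 : 0 ≤ K := by linarith
  have hM4 : Real.exp (4 * S.card) * ∏ l ∈ S, M l ≤ ∏ l ∈ S, (Real.exp 4 + D₁ + D₂) * M l := by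
    rw [mul_comm 4, Real.exp_nat_mul, ← prod_const, ← prod_mul_distrib]
    exact prod_le_prod (fun l hl => mul_nonneg (by positivity) (hM l hl))
      fun l hl => mul_le_mul_of_nonneg_right (by linarith) (hM l hl)
  have hM1 : ∏ l ∈ S, M l ≤ ∏ l ∈ S, (Real.exp 4 + D₁ + D₂) * M l :=
    le_trans (le_mul_of_one_le_left hM0 (Real.one_le_exp (by positivity))) hM4
  have hM2 : 0 ≤ ∏ l ∈ S, (Real.exp 4 + D₁ + D₂) * M l := hM0.trans hM1
  refine ⟨key.trans ?_, fun hY => key.trans ?_⟩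
  · have h3 := trow_ms hd hK Y _ (Nat.primesLE (N ^ 7)) hPp fun l hl _ => (mem_sdiff.1 hl).1
    rw [hn, hp, ← hω] at h3
    have h4 : N + 1 ≤ N ^ 7 := by
      calc N + 1 ≤ N ^ 2 := by nlinarith
        _ ≤ N ^ 7 := Nat.pow_le_pow_right (by omega) (by norm_num)
    have h5 : ∑ l ∈ Nat.primesLE (N + 1), (if l ∈ S then 2 else d.aa K l Y) / l ≤
        (K + 2) * ∑ l ∈ Nat.primesLE (N ^ 7), 1 / (l : ℝ) := by
      rw [mul_sum]
      refine le_trans (sum_le_sum fun l _ => ?_) (sum_le_sum_of_subset_of_nonneg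
        (Nat.primesLE_mono h4) fun _ _ _ => by positivity)
      rw [mul_one_div]
      refine div_le_div_of_nonneg_right ?_ (by positivity)
      split_ifs
      · linarith
      · exact trow_aa_le d hK l Y
    have h6 := h₁ (N ^ 7) (by omega)
    have h7 : 0 ≤ ∑ l ∈ Nat.primesLE (N ^ 7), 1 / (l : ℝ) := sum_nonneg fun _ _ => by positivity
    have h8 : K + (K + 2) ≤ (A : ℝ) := by
      have := Nat.le_ceil K
      rw [hA]
      push_cast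
      linarith
    rw [Nat.cast_pow, Real.log_pow, mul_pow] at h6
    have h9 : (∏ l ∈ Nat.primesLE (N ^ 7) \ S, d.ms K l Y) *
        Real.exp (∑ l ∈ Nat.primesLE (N + 1), (if l ∈ S then 2 else d.aa K l Y) / l) ≤
        Real.exp (K * ω) * (C₁ * (7 ^ A * Real.log N ^ A)) := by
      refine (mul_le_mul_of_nonneg_right h3 (by positivity)).trans ?_
      refine le_trans ?_ (mul_le_mul_of_nonneg_left (by exact_mod_cast h6) (by positivity))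
      rw [← Real.exp_add, ← Real.exp_add]
      refine Real.exp_le_exp.2 ?_
      nlinarith [mul_le_mul_of_nonneg_right h8 h7]
    have hl : 0 ≤ Real.log N ^ A := pow_nonneg (Real.log_natCast_nonneg N) A
    calc _ ≤ C * N * (∏ l ∈ S, M l) * (Real.exp (K * ω) * (C₁ * (7 ^ A * Real.log N ^ A))) :=
          mul_le_mul_of_nonneg_left h9 (by positivity)
      _ = D₁ * N * (∏ l ∈ S, M l) * Real.log N ^ A := by rw [hD₁]; ring
      _ ≤ _ := by gcongr; linarith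
  · have h3 := trow_ms hd hK Y _ (d.Δ₁ Y).natAbs.primeFactors hPp fun l hl h4 =>
      Nat.mem_primeFactors.2 ⟨hPp l hl, Int.natCast_dvd.1 h4, Int.natAbs_ne_zero.2 hY⟩
    have h4 := trow_exp hd hK hY S N
    rw [hn, hp, ← hω] at h3 h4
    have h5 : EE (d.G ^ 2 * d.E) N ≤ C₂ * EE (d.G ^ 2 * d.E) (d.G ^ 2 * d.E).natAbs := by
      refine h₂ _ _ _ (hs.up.trans (Nat.pow_le_pow_right ?_ (by norm_num))) hs.low
      have h6 := hs.up
      rcases Nat.eq_zero_or_pos (d.G ^ 2 * d.E).natAbs with h7 | h7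
      · rw [h7] at h6
        omega
      · exact h7
    have h6 : (∏ l ∈ Nat.primesLE (N ^ 7) \ S, d.ms K l Y) *
        Real.exp (∑ l ∈ Nat.primesLE (N + 1), (if l ∈ S then 2 else d.aa K l Y) / l) ≤
        Real.exp (K * ω + 2 + (K + 2) * ω) * Real.exp (4 * S.card) *
          (EE (d.G ^ 2 * d.E) N * Ph (2 * K) (d.m * d.a) N Y) := by
      refine (mul_le_mul_of_nonneg_right h3 (by positivity)).trans ?_
      rw [EE, Ph, ← Real.exp_add, ← Real.exp_add, ← Real.exp_add, ← Real.exp_add]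
      refine Real.exp_le_exp.2 ?_
      simp only [Δ₁] at h4 ⊢
      linarith
    have hE := EE_pos (d.G ^ 2 * d.E) (d.G ^ 2 * d.E).natAbs
    have hPh := Ph_pos (2 * K) (d.m * d.a) N Y
    calc _ ≤ C * N * (∏ l ∈ S, M l) * (Real.exp (K * ω + 2 + (K + 2) * ω) * Real.exp (4 * S.card) *
          (C₂ * EE (d.G ^ 2 * d.E) (d.G ^ 2 * d.E).natAbs * Ph (2 * K) (d.m * d.a) N Y)) := by
          refine mul_le_mul_of_nonneg_left (h6.trans ?_) (by positivity)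
          gcongr
      _ = D₂ * N * (Real.exp (4 * S.card) * ∏ l ∈ S, M l) *
          (EE (d.G ^ 2 * d.E) (d.G ^ 2 * d.E).natAbs * Ph (2 * K) (d.m * d.a) N Y) := by
          rw [hD₂]; ring
      _ ≤ _ := by gcongr; linarith

theorem cnt_gen (n : ℤ) (p κ : ℕ) : ∃ (K C : ℝ) (N₀ : ℕ), 0 ≤ K ∧ 0 < C ∧
    ∀ d : Dt, d.Good κ → d.n = n → d.p = p → ∀ H N : ℕ, d.Sz H N → N₀ ≤ N →
    ∀ (S : Finset ℕ) (k : ℕ → ℕ) (w : ℕ → ℤ → ℤ → ℝ) (M : ℕ → ℤ → ℝ) (Z : Finset (ℤ × ℤ))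
      (U : Finset ℤ), (∀ l ∈ S, ¬ d.Dom l) → (∏ l ∈ S, l ^ k l) ^ 8 ≤ N →
    (∀ l ∈ S, ∀ Y, LS 1 l {X | (X, Y) ∈ Z} (fun X => d.B X Y) (fun X => w l X Y)
      (fun X => 2 * d.ie l X Y + k l) (M l Y) 2) →
    (∀ z ∈ Z, d.Box H N z.1 z.2 ∧ S ⊆ d.PP z.1 z.2 ∧ z.2 ∈ U ∧ d.Δ₁ z.2 ≠ 0 ∧
      ∀ l ∈ S, 0 ≤ w l z.1 z.2 ∧ w l z.1 z.2 ≤ d.W5 l z.1 z.2) →
    ∑ z ∈ Z, d.WS S w z.1 z.2 ≤ C * N * EE (d.G ^ 2 * d.E) (d.G ^ 2 * d.E).natAbs *
      (∑ Y ∈ U, (∏ l ∈ S, C * M l Y) * Ph K (d.m * d.a) N Y) + (N : ℝ) ^ (99 / 100 : ℝ) * H := by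
  classical
  obtain ⟨K, C, A, N₀, hK, hC, h⟩ := cnt_row n p κ
  obtain ⟨N₁, h₁⟩ := crude_sum n p κ
  refine ⟨K, C, max N₀ N₁, hK, hC, ?_⟩
  intro d hd hn hp H N hs hN S k w M Z U hD hk hLS hZ
  rw [← sum_filter_add_sum_filter_not Z (fun z => d.JJ z.1 z.2 ^ 32 ≤ N ∧ d.QQ z.2 ^ 4 ≤ N)]
  refine add_le_add ?_ ?_
  · set Z₁ := Z.filter (fun z => d.JJ z.1 z.2 ^ 32 ≤ N ∧ d.QQ z.2 ^ 4 ≤ N) with hZ₁
    rw [← sum_fiberwise_of_maps_to (s := Z₁) (t := U) (g := fun z => z.2)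
      (fun z hz => (hZ z (mem_filter.1 hz).1).2.2.1), mul_sum]
    refine sum_le_sum fun Y _ => ?_
    have hE := EE_pos (d.G ^ 2 * d.E) (d.G ^ 2 * d.E).natAbs
    have hPh := Ph_pos K (d.m * d.a) N Y
    rcases (Z₁.filter fun z => z.2 = Y).eq_empty_or_nonempty with h0 | ⟨z₀, hz₀⟩
    · have hM : 0 ≤ ∏ l ∈ S, C * M l Y :=
        prod_nonneg fun l hl => mul_nonneg hC.le (trow_M (hLS l hl Y))
      rw [h0, sum_empty]
      positivity
    have hz₁ := mem_filter.1 hz₀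
    have hz₂ := mem_filter.1 hz₁.1
    have hmem : ∀ X ∈ (Z₁.filter fun z => z.2 = Y).image Prod.fst, (X, Y) ∈ Z₁ := by
      intro X hX
      obtain ⟨z, hz, rfl⟩ := mem_image.1 hX
      obtain ⟨h2, rfl⟩ := mem_filter.1 hz
      exact h2
    have h2 := (h d hd hn hp H N hs (le_of_max_le_left hN) S k w (fun l => M l Y) Y
      ((Z₁.filter fun z => z.2 = Y).image Prod.fst) hD hk
      (fun l hl => (hLS l hl Y).mono le_rfl (fun X hX => (mem_filter.1 (hmem X hX)).1)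
        (fun _ _ => le_rfl) (fun _ _ => le_rfl) le_rfl le_rfl)
      (fun X hX => by
        have h3 := mem_filter.1 (hmem X hX)
        have h4 := hZ _ h3.1
        exact ⟨h4.1, h4.2.1, fun l hl => (h4.2.2.2.2 l hl).1, h3.2.1⟩)
      (hz₁.2 ▸ hz₂.2.2)).2 (hz₁.2 ▸ (hZ z₀ hz₂.1).2.2.2.1)
    rw [sum_image (fun x hx y hy hxy => Prod.ext hxy
      ((mem_filter.1 hx).2.trans (mem_filter.1 hy).2.symm))] at h2
    calc _ = ∑ z ∈ Z₁.filter fun z => z.2 = Y, d.WS S w z.1 Y :=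
          sum_congr rfl fun z hz => by rw [(mem_filter.1 hz).2]
      _ ≤ _ := h2
      _ = _ := by ring
  · refine le_trans (sum_le_sum fun z hz => ?_) (h₁ d hd hn hp H N hs (le_of_max_le_right hN) _
      fun z hz => ⟨(hZ z (mem_filter.1 hz).1).1, ?_⟩)
    · have h2 := hZ z (mem_filter.1 hz).1
      exact WS_le hd h2.1.ne h2.2.1 hD h2.2.2.2.2
    · have h2 := (mem_filter.1 hz).2
      omega

end Dt

end Pool.Agent.EQ
end
end

-- part Pool.Agent.P.MP_ad7a55_nt.UHb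
section

/-! The shearing argument. -/

set_option autoImplicit false

noncomputable section

open MeasureTheory Topology Filter UpperHalfPlane
open scoped MatrixGroups ENNReal BoundedContinuousFunction

namespace Pool.Agent.EQ

variable {p q : ℕ} [Fact p.Prime] [Fact q.Prime] {κ : Type} [Fintype κ]

/-- Most points of every plaque lie near the set `C`. -/
def Db (ν : Measure (κ → X3 p q)) (C : Set (κ → X3 p q)) (w : κ → X3 p q) : Prop :=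
  ∀ k l : ℤ, l ≤ k →
    lw (dat (fl3 p q κ) ν w) k l {v | fl3 p q κ v w ∉ Sat (fl3 p q κ) l C} ≤ 1 / 8

/-- A close pair in `C` displaced by a translation of definite size. -/
def Shr (ν : Measure (κ → X3 p q)) (C : Set (κ → X3 p q)) (𝒩 : Set (κ → G3 p q)) (R R' : ℝ)
    (n : ℕ) : Prop :=
  ∃ y ∈ C, ∃ g ∈ 𝒩, ∃ ω : κ → ℚ_[p], fl3 p q κ ω (g • y) ∈ C ∧ R ≤ ‖ω‖ ∧ ‖ω‖ ≤ R' ∧
    ∀ k l : ℤ, -(n : ℤ) ≤ l →
      dat (fl3 p q κ) ν (fl3 p q κ ω (g • y)) k l = dat (fl3 p q κ) ν y k l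

theorem uhb_pick {V : Type} [MeasurableSpace V] (t : Measure V) [IsProbabilityMeasure t]
    {A₁ A₂ A₃ A₄ : Set V} {P : V → Prop} (h₁ : t A₁ ≤ 1 / 8) (h₂ : t A₂ ≤ 1 / 8)
    (h₃ : t A₃ ≤ 1 / 8) (h₄ : t A₄ ≤ 1 / 8) (hP : ∀ᵐ v ∂t, P v) :
    ∃ v, v ∉ A₁ ∧ v ∉ A₂ ∧ v ∉ A₃ ∧ v ∉ A₄ ∧ P v := by
  by_contra hc
  have hs : (Set.univ : Set V) ⊆ A₁ ∪ A₂ ∪ A₃ ∪ A₄ ∪ {v | ¬ P v} := by
    intro v _
    by_contra hv
    simp only [Set.mem_union, Set.mem_ofPred_eq, not_or, not_not] at hv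
    exact hc ⟨v, hv.1.1.1.1, hv.1.1.1.2, hv.1.1.2, hv.1.2, hv.2⟩
  have h0 : t {v | ¬ P v} = 0 := ae_iff.1 hP
  have h : (1 : ℝ≥0∞) ≤ 1 / 8 + 1 / 8 + 1 / 8 + 1 / 8 + 0 := by
    calc (1 : ℝ≥0∞) = t Set.univ := measure_univ.symm
      _ ≤ t (A₁ ∪ A₂ ∪ A₃ ∪ A₄ ∪ {v | ¬ P v}) := measure_mono hs
      _ ≤ t A₁ + t A₂ + t A₃ + t A₄ + t {v | ¬ P v} := by
        refine (measure_union_le _ _).trans (add_le_add ?_ le_rfl)
        refine (measure_union_le _ _).trans (add_le_add ?_ le_rfl)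
        refine (measure_union_le _ _).trans (add_le_add ?_ le_rfl)
        exact measure_union_le _ _
      _ ≤ _ := by rw [h0]; gcongr
  have e : (1 / 8 : ℝ≥0∞) = ENNReal.ofReal (1 / 8) := by
    rw [ENNReal.ofReal_div_of_pos (by norm_num)]; simp
  rw [e, add_zero, ← ENNReal.ofReal_add (by norm_num) (by norm_num),
    ← ENNReal.ofReal_add (by norm_num) (by norm_num),
    ← ENNReal.ofReal_add (by norm_num) (by norm_num), ENNReal.one_le_ofReal] at h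
  norm_num at h

theorem uhb_one_lt : (1 : ℝ) < (p : ℝ) := by
  exact_mod_cast (Fact.out : p.Prime).one_lt

theorem uhb_zpow {a b : ℤ} (h : a ≤ b) : (p : ℝ) ^ a ≤ (p : ℝ) ^ b :=
  zpow_le_zpow_right₀ uhb_one_lt.le h

theorem hp_step {𝒩 : Set (κ → G3 p q)} (h𝒩 : 𝒩 ∈ 𝓝 (1 : κ → G3 p q)) (μ e : ℕ) :
    ∃ 𝒩' ∈ 𝓝 (1 : κ → G3 p q), ∀ᶠ n : ℕ in atTop, ∀ (ν : Measure (κ → X3 p q))
      (C : Set (κ → X3 p q)), IsCompact C → (∀ w ∈ C, Gd (fl3 p q κ) ν w) →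
      ∀ (J : Finset κ) (r : ℤ) (y : κ → X3 p q), ∀ g ∈ 𝒩', 0 ≤ r → Gd (fl3 p q κ) ν y →
      Gd (fl3 p q κ) ν (g • y) → dat (fl3 p q κ) ν (g • y) = dat (fl3 p q κ) ν y → Db ν C y →
      Db ν C (g • y) → (∀ j ∉ J, Conc (dat (fl3 p q κ) ν y) j) →
      (∀ j ∈ J, ThinAt (dat (fl3 p q κ) ν y) j r (r - e) (1 / 8)) →
      (∀ j ∈ J, Sm (g j).1.2 (r - μ)) → (∃ j ∈ J, ¬ Sm (g j).1.2 r) →
      Shr ν C 𝒩 ((p : ℝ) ^ (-(2 * e + 2 : ℤ))) ((p : ℝ) ^ (2 * μ)) n := by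
  classical
  obtain ⟨𝒩', h𝒩', n₀, hsh⟩ := shear_near h𝒩 μ
  refine ⟨𝒩', h𝒩', ?_⟩
  filter_upwards [eventually_ge_atTop n₀, eventually_ge_atTop e] with n hn hne
  intro ν C _ hCG J r y g hg hr hy hgy hd hb hb' hco hth hsm hns
  obtain ⟨j₀, hj₀, hns⟩ := hns
  obtain ⟨s₁, s₂, hs⟩ := not_sm_slab hns e
  have hnr : -(n : ℤ) ≤ r := by omega
  have hnre : -(n : ℤ) ≤ r - e := by omega
  have hre : r - e ≤ r := by omega
  have := hy.prob hnr
  have h₂ := hb' r (-n) hnr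
  rw [hd] at h₂
  have h₃ : lw (dat (fl3 p q κ) ν y) r (-n) {v | ‖v j₀ - s₁‖ ≤ (p : ℝ) ^ (r - e)} ≤ 1 / 8 := by
    rw [hy.slab j₀ hnre hre]; exact hth j₀ hj₀ s₁
  have h₄ : lw (dat (fl3 p q κ) ν y) r (-n) {v | ‖v j₀ - s₂‖ ≤ (p : ℝ) ^ (r - e)} ≤ 1 / 8 := by
    rw [hy.slab j₀ hnre hre]; exact hth j₀ hj₀ s₂
  have h₅ : ∀ᵐ v ∂lw (dat (fl3 p q κ) ν y) r (-n), ‖v‖ ≤ (p : ℝ) ^ r :=
    (withDensity_absolutelyContinuous _ _).ae_le (bmV_ae r)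
  have h₆ : ∀ᵐ v ∂lw (dat (fl3 p q κ) ν y) r (-n), ∀ j, j ∉ J →
      ‖v j‖ ≤ (p : ℝ) ^ (-(n : ℤ)) := by
    refine ae_all_iff.2 fun j => ?_
    by_cases hj : j ∈ J
    · exact Eventually.of_forall fun v h => (h hj).elim
    · have h1 := hy.conc (hco j hj) hnr
      have hm : MeasurableSet {v : κ → ℚ_[p] | ‖v j - 0‖ ≤ (p : ℝ) ^ (-(n : ℤ))} :=
        (isClosed_le (((continuous_apply j).sub continuous_const).norm)
          continuous_const).measurableSet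
      have h2 : ∀ᵐ v ∂lw (dat (fl3 p q κ) ν y) r (-n), ‖v j - 0‖ ≤ (p : ℝ) ^ (-(n : ℤ)) :=
        (prob_compl_eq_zero_iff hm).2 h1
      filter_upwards [h2] with v hv _
      simpa using hv
  obtain ⟨v, hv₁, hv₂, hv₃, hv₄, hv₅, hv₆⟩ := uhb_pick _ (hb r (-n) hnr) h₂ h₃ h₄ (h₅.and h₆)
  simp only [Set.mem_ofPred_eq, not_not, not_le] at hv₁ hv₂ hv₃ hv₄
  obtain ⟨v₁, hn₁, hc₁⟩ := hv₁
  obtain ⟨v₂, hn₂, hc₂⟩ := hv₂
  rw [← Flow.map_add, add_comm] at hc₁ hc₂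
  have hle : (p : ℝ) ^ (-(n : ℤ)) ≤ (p : ℝ) ^ (-(n₀ : ℤ)) := uhb_zpow (by omega)
  obtain ⟨hω, g₁, hg₁, hfl⟩ := hsh g hg J r v v₁ v₂ hv₅ hsm (fun j hj => (hv₆ j hj).trans hle)
    (hn₁.trans hle) (hn₂.trans hle)
  refine ⟨_, hc₁, g₁, hg₁, _, by rw [← hfl]; exact hc₂, ?_, hω, fun k l hl => ?_⟩
  · have h1 := hs (v j₀) ((norm_le_pi_norm v j₀).trans hv₅) hv₃ hv₄
    refine h1.le.trans (le_trans (le_of_eq ?_) (norm_le_pi_norm _ j₀))
    simp [hj₀]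
  · rw [← hfl]
    refine (hy.transfer hgy hd.symm (hCG _ hc₁) (n := -n) ?_ k hl).symm
    have : v + v₁ - (v + v₂) = v₁ + -v₂ := by abel
    rw [this]
    exact norm_add_V hn₁ (by rwa [norm_neg])

open Classical in
/-- Points with a small frequency of visits to a small set. -/
theorem uhb_freq {W : Type} [MeasurableSpace W] (ν : Measure W) [IsProbabilityMeasure ν]
    {T : W → W} (hT : MeasurePreserving T ν ν) {B : Set W} {θ : ℝ} (hθ : 0 < θ)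
    (hB : ν B ≤ ENNReal.ofReal θ * (1 / 8)) :
    ν {w | ∀ N : ℕ, (((Finset.range N).filter fun t => T^[t] w ∈ B).card : ℝ) ≤ θ * N}ᶜ ≤
      1 / 8 := by
  have h := (hopf_count ν hT B hθ.le).trans hB
  rw [ENNReal.mul_le_mul_iff_right (by simpa using hθ) ENNReal.ofReal_ne_top] at h
  refine le_trans (measure_mono fun w hw => ?_) h
  simpa using hw

theorem uhb_sm_K {g : SL(2, ℚ_[p])} (hg : g ∈ Kp p) {r : ℤ} (hr : r ≤ 0) : Sm g r := by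
  have h0 : ∀ i j, ‖g i j‖ ≤ 1 := hg
  refine Sm.mono (r := 0) ⟨?_, by simpa using h0 1 0⟩ hr
  rw [zpow_zero, mul_one, sub_eq_add_neg]
  exact (Padic.nonarchimedean _ _).trans (max_le (h0 _ _) (by rw [norm_neg]; exact h0 _ _))

theorem uhb_sm_step (g : G3 p q) (s d : ℕ) (r : ℤ)
    (h : Sm (a3 p q s * g * (a3 p q s)⁻¹).1.2 (r + d)) :
    Sm (a3 p q (s + d) * g * (a3 p q (s + d))⁻¹).1.2 r := by
  obtain ⟨-, -, a0, a1, -, a2⟩ := a3_conj s g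
  obtain ⟨-, -, b0, b1, -, b2⟩ := a3_conj (s + d) g
  have hp : (p : ℝ) ≠ 0 := (zero_lt_one.trans uhb_one_lt).ne'
  refine ⟨?_, ?_⟩
  · have h1 := (h.mono (r' := r) (by omega)).1
    rw [a0, a1] at h1
    rwa [b0, b1]
  · have h1 := h.2
    rw [a2] at h1
    rw [b2]
    refine le_trans (le_of_eq ?_) h1
    rw [mul_right_comm, mul_right_comm _ _ ((p : ℝ) ^ (2 * (r + d))), ← zpow_add₀ hp,
      ← zpow_add₀ hp]
    congr 2
    push_cast
    ring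

theorem uhb_not_sm (g : G3 p q) (s : ℕ) {a r : ℤ} (ha : (p : ℝ) ^ (-a) ≤ ‖g.1.2 1 0‖)
    (hr : a < 2 * r) : ¬ Sm (a3 p q s * g * (a3 p q s)⁻¹).1.2 r := by
  obtain ⟨-, -, -, -, -, a2⟩ := a3_conj s g
  have hp : (0 : ℝ) < p := zero_lt_one.trans uhb_one_lt
  intro h
  have h1 := h.2
  rw [a2] at h1
  have h2 : (p : ℝ) ^ (2 * s : ℤ) * (p : ℝ) ^ (-a) * (p : ℝ) ^ (2 * r) ≤ 1 := by
    refine le_trans ?_ h1
    gcongr
  rw [← zpow_add₀ hp.ne', ← zpow_add₀ hp.ne'] at h2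
  have h3 : (1 : ℝ) < (p : ℝ) ^ ((2 * s : ℤ) + -a + 2 * r) :=
    one_lt_zpow₀ uhb_one_lt (by omega)
  linarith

theorem Jn.hp_pairs {M : ℕ} {h : κ → SL(2, ℚ_[q])} {ν : Measure (κ → X3 p q)} (H : Jn p q M h ν)
    {J : Finset κ} (hJ : J.Nonempty) (h₀ : ∀ᵐ w ∂ν, ∀ j ∉ J, Conc (dat (fl3 p q κ) ν w) j)
    (h₁ : ∀ᵐ w ∂ν, ∀ j ∈ J, Thin (dat (fl3 p q κ) ν w) j) :
    ∃ (ε : ℝ≥0∞) (R R' : ℝ), 0 < ε ∧ 0 < R ∧ ∀ C : Set (κ → X3 p q), IsCompact C →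
      (∀ w ∈ C, Gd (fl3 p q κ) ν w) → ν Cᶜ ≤ ε → ∀ 𝒩 ∈ 𝓝 (1 : κ → G3 p q), ∀ n₀ : ℕ,
      ∃ n, n₀ ≤ n ∧ Shr ν C 𝒩 R R' n := by
  classical
  have := H.prob
  obtain ⟨k₀, hk₀⟩ := hJ
  have hM := H.pos
  set c : ℕ := Fintype.card κ with hc
  set θ : ℝ := 1 / (2 * c + 10) with hθ
  have hθ0 : 0 < θ := by positivity
  have hθ' : ENNReal.ofReal θ ≠ 0 := by simpa using hθ0
  have h8 : (0 : ℝ≥0∞) < 1 / 8 := by simp
  obtain ⟨e, he⟩ := thin_unif J h₁ (ε := 1 / 8) (η := ENNReal.ofReal θ * (1 / 8)) h8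
    (ENNReal.mul_pos hθ' h8.ne')
  refine ⟨1 / 8 * (ENNReal.ofReal θ * (1 / 8)), (p : ℝ) ^ (-(2 * e + 2 : ℤ)),
    (p : ℝ) ^ (2 * (2 * M)), ENNReal.mul_pos h8.ne' (ENNReal.mul_pos hθ' h8.ne').ne',
    zpow_pos (zero_lt_one.trans uhb_one_lt) _, fun C hC hCG hCε 𝒩 h𝒩 n₀ => ?_⟩
  obtain ⟨𝒩₁, h𝒩₁, hst⟩ := hp_step h𝒩 (2 * M) e
  obtain ⟨n, hn, hst⟩ := ((eventually_ge_atTop n₀).and hst).exists
  refine ⟨n, hn, ?_⟩
  have hK : {g : κ → G3 p q | ∀ j, (g j).1.2 ∈ Kp p} ∈ 𝓝 (1 : κ → G3 p q) :=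
    eventually_all.2 fun j => ((Kp_open p).preimage
      (continuous_snd.comp (continuous_fst.comp (continuous_apply j)))).mem_nhds (Kp p).one_mem
  obtain ⟨𝒩₂, h𝒩₂, n₁, hcj⟩ := conj_near (inter_mem h𝒩₁ hK)
  have hT : MeasurePreserving (fun w : κ → X3 p q => al p q κ M • w) ν ν :=
    ⟨measurable_const_smul _, H.a⟩
  set B₁ : Set (κ → X3 p q) := {w | Gd (fl3 p q κ) ν w ∧ ∃ k l : ℤ, l ≤ k ∧
    1 / 8 < lw (dat (fl3 p q κ) ν w) k l {v | fl3 p q κ v w ∉ Sat (fl3 p q κ) l C}} with hB₁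
  set B₃ : Set (κ → X3 p q) :=
    {w | ¬ ∀ j ∈ J, ThinAt (dat (fl3 p q κ) ν w) j 0 (-e) (1 / 8)} with hB₃
  have hb₁ : ν B₁ ≤ ENNReal.ofReal θ * (1 / 8) := by
    have h := (doob (fl3 p q κ) ν hC (1 / 8)).trans hCε
    rwa [ENNReal.mul_le_mul_iff_right h8.ne' (by simp)] at h
  have f₁ := uhb_freq ν hT hθ0 hb₁
  have f₃ := uhb_freq ν hT hθ0 he
  simp only [al_iter] at f₁ f₃
  have f₀ := H.ae_al ((ae_Gd (fl3 p q κ) ν).and (h₀.and H.dat_a))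
  set G₁ := {w : κ → X3 p q | ∀ N : ℕ,
    (((Finset.range N).filter fun t => al p q κ (M * t) • w ∈ B₁).card : ℝ) ≤ θ * N} with hG₁
  set G₃ := {w : κ → X3 p q | ∀ N : ℕ,
    (((Finset.range N).filter fun t => al p q κ (M * t) • w ∈ B₃).card : ℝ) ≤ θ * N} with hG₃
  set G₀ := {w : κ → X3 p q | ∀ t : ℕ, Gd (fl3 p q κ) ν (al p q κ (M * t) • w) ∧
    (∀ j ∉ J, Conc (dat (fl3 p q κ) ν (al p q κ (M * t) • w)) j) ∧ ∀ s : ℕ,
      shD ((p : ℚ_[p]) ^ (2 * (M * s))) (-(2 * (M * s) : ℕ))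
        (dat (fl3 p q κ) ν (al p q κ (M * s) • al p q κ (M * t) • w)) =
        dat (fl3 p q κ) ν (al p q κ (M * t) • w)} with hG₀
  have hG : ν (G₁ ∩ G₃ ∩ G₀)ᶜ ≤ 1 / 4 := by
    have g₀ : ν G₀ᶜ = 0 := f₀
    rw [Set.compl_inter, Set.compl_inter]
    refine (measure_union_le _ _).trans ?_
    rw [g₀, add_zero]
    refine (measure_union_le _ _).trans ((add_le_add f₁ f₃).trans (le_of_eq ?_))
    rw [← ENNReal.toReal_eq_toReal_iff' (by simp) (by simp), ENNReal.toReal_add (by simp) (by simp)]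
    norm_num
  obtain ⟨n₂, hn₂⟩ := eventually_atTop.1 (H.pairs k₀ h𝒩₂ hG)
  set n' : ℕ := n₁ + n₂ + 1 with hn'
  have hMn : n' ≤ M * n' := Nat.le_mul_of_pos_left _ hM
  obtain ⟨y, ⟨⟨y₁, y₃⟩, y₀⟩, g, hg, ⟨⟨z₁, -⟩, z₀⟩, hdat, hup, hlow⟩ :=
    hn₂ (8 * (M * n')) (by omega)
  let gg : ℕ → κ → G3 p q := fun i => al p q κ (M * (2 * i)) * g * (al p q κ (M * (2 * i)))⁻¹
  have hgg : ∀ i j, gg i j = a3 p q (M * (2 * i)) * g j * (a3 p q (M * (2 * i)))⁻¹ :=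
    fun _ _ => rfl
  have hns : ∀ i, ∃ j ∈ J, ¬ Sm (gg i j).1.2 ((2 * (M * ((2 * c + 3) * n')) : ℕ) : ℤ) := by
    intro i
    refine ⟨k₀, hk₀, uhb_not_sm (g k₀) _ hlow ?_⟩
    have h1 : (1 : ℤ) ≤ (M : ℤ) * n' := by
      have : 1 ≤ M * n' := by omega
      exact_mod_cast this
    push_cast
    nlinarith
  have hex : ∀ i, ∃ k : ℕ, ∃ j ∈ J, ¬ Sm (gg i j).1.2 ((2 * (M * k) : ℕ) : ℤ) :=
    fun i => ⟨_, hns i⟩
  have hk1 : ∀ i, Nat.find (hex i) ≤ Nat.find (hex (i + 1)) + 1 := by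
    intro i
    obtain ⟨j, hj, h⟩ := Nat.find_spec (hex (i + 1))
    refine Nat.find_min' _ ⟨j, hj, fun h' => h ?_⟩
    rw [hgg] at h' ⊢
    have e1 : M * (2 * (i + 1)) = M * (2 * i) + 2 * M := by ring
    rw [e1]
    refine uhb_sm_step _ _ _ _ (h'.mono (le_of_eq ?_))
    push_cast
    ring
  have hθL : θ * (((2 * c + 3 : ℕ) : ℝ) + 6) < 1 := by
    rw [hθ, div_mul_eq_mul_div, div_lt_one (by positivity)]
    push_cast
    linarith
  obtain ⟨i, hi, c₁, c₂, c₃⟩ := time_sel (L := 2 * c + 3) (n := n') (by omega)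
    (fun i => Nat.find (hex i)) hk1 (fun i _ => Nat.find_min' _ (hns i))
    (fun t => al p q κ (M * t) • y ∈ B₁) (fun t => al p q κ (M * t) • g • y ∈ B₁)
    (fun t => al p q κ (M * t) • y ∈ B₃) hθL
    (fun N => by rw [Finset.filter_congr_decidable]; exact y₁ N)
    (fun N => by rw [Finset.filter_congr_decidable]; exact z₁ N)
    (fun N => by rw [Finset.filter_congr_decidable]; exact y₃ N)
  set k := Nat.find (hex i) with hk
  have hmem : gg i ∈ 𝒩₁ ∩ {g : κ → G3 p q | ∀ j, (g j).1.2 ∈ Kp p} := by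
    refine hcj g hg _ fun j => ?_
    have hp : (0 : ℝ) < p := zero_lt_one.trans uhb_one_lt
    refine (mul_le_mul_of_nonneg_left (hup j) (zpow_pos hp _).le).trans ?_
    rw [← zpow_add₀ hp.ne']
    refine uhb_zpow ?_
    have h1 : M * i ≤ M * n' := Nat.mul_le_mul_left _ hi.le
    have h2 : M * (2 * i) = 2 * (M * i) := by ring
    omega
  have hsm : gg i • al p q κ (M * (2 * i)) • y = al p q κ (M * (2 * i)) • g • y := by
    simp only [gg, mul_smul, inv_smul_smul]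
  have hdb : ∀ w, Gd (fl3 p q κ) ν w → w ∉ B₁ → Db ν C w := by
    intro w hw hw' k l hl
    by_contra hlt
    exact hw' ⟨hw, k, l, hl, not_le.1 hlt⟩
  refine hst ν C hC hCG J ((2 * (M * k) : ℕ) : ℤ) (al p q κ (M * (2 * i)) • y) (gg i) hmem.1
    (Int.natCast_nonneg _) (y₀ _).1 (by rw [hsm]; exact (z₀ _).1) (by rw [hsm]; exact hdat _)
    (hdb _ (y₀ _).1 c₁) (by rw [hsm]; exact hdb _ (z₀ _).1 c₂) (y₀ _).2.1 (fun j hj => ?_)
    (fun j hj => ?_) (Nat.find_spec (hex i))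
  · have h3 : ThinAt (dat (fl3 p q κ) ν (al p q κ (M * (2 * i + k)) • y)) j 0 (-e) (1 / 8) :=
      not_not.1 c₃ j hj
    have e1 : M * (2 * i + k) = M * k + M * (2 * i) := by ring
    rw [e1, al_add, mul_smul] at h3
    rw [← (y₀ (2 * i)).2.2 k, thinAt_shD (H.sys k).nrm]
    have e2 : ((2 * (M * k) : ℕ) : ℤ) + -((2 * (M * k) : ℕ) : ℤ) = 0 := by omega
    have e3 : ((2 * (M * k) : ℕ) : ℤ) - e + -((2 * (M * k) : ℕ) : ℤ) = -e := by omega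
    rw [e2, e3]
    exact h3
  · rcases Nat.eq_zero_or_pos k with h0 | h0
    · refine uhb_sm_K (hmem.2 j) ?_
      rw [h0]
      omega
    · have h1 := Nat.find_min (hex i) (m := k - 1) (by omega)
      have h2 : Sm (gg i j).1.2 ((2 * (M * (k - 1)) : ℕ) : ℤ) := by
        by_contra h2
        exact h1 ⟨j, hj, h2⟩
      refine h2.mono (le_of_eq ?_)
      obtain ⟨k', hk'⟩ : ∃ k', k = k' + 1 := ⟨k - 1, by omega⟩
      rw [hk', Nat.add_sub_cancel]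
      push_cast
      ring

end Pool.Agent.EQ
end
end

-- part Pool.Agent.P.MP_ad7a55_nt.VCh
section

/-! Chains of isogenies between two lattices of the same discriminant. -/

set_option autoImplicit false

noncomputable section

open MeasureTheory Topology Filter UpperHalfPlane
open scoped MatrixGroups ENNReal BoundedContinuousFunction

namespace Pool.Agent.EQ

variable {p : ℕ} [Fact p.Prime]

theorem vch_one_lt : (1 : ℝ) < p := by exact_mod_cast (Fact.out : p.Prime).one_lt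

theorem vch_aP_add (s t : ℕ) : (aP p (s + t)).2 = (aP p s).2 * (aP p t).2 := by
  ext i j
  fin_cases i <;> fin_cases j <;> simp [aP, Matrix.mul_apply, Fin.sum_univ_two, pow_add, mul_comm]

theorem vch_aP_zero : (aP p 0).2 = 1 := by
  ext i j
  fin_cases i <;> fin_cases j <;> simp [aP]

theorem vch_mul_bd {R : ℝ} {a k k' : SL(2, ℚ_[p])} (hk : k ∈ Kp p) (hk' : k' ∈ Kp p)
    (h : ∀ i j, ‖a i j‖ ≤ R) (i j : Fin 2) : ‖(k * a * k') i j‖ ≤ R := by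
  have h1 : ∀ i j, ‖(k * a) i j‖ ≤ R := fun i j => by
    simp only [Matrix.SpecialLinearGroup.coe_mul, Matrix.mul_apply, Fin.sum_univ_two]
    refine (Padic.nonarchimedean _ _).trans (max_le ?_ ?_) <;> rw [norm_mul] <;>
      exact (mul_le_of_le_one_left (norm_nonneg _) (hk _ _)).trans (h _ _)
  generalize k * a = b at h1
  simp only [Matrix.SpecialLinearGroup.coe_mul, Matrix.mul_apply, Fin.sum_univ_two]
  refine (Padic.nonarchimedean _ _).trans (max_le ?_ ?_) <;> rw [norm_mul] <;>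
    exact (mul_le_of_le_one_right (norm_nonneg _) (hk' _ _)).trans (h1 _ _)

theorem vch_cartan {s : ℕ} {a : SL(2, ℚ_[p])} (hs : ‖a 1 1‖ ≤ (p : ℝ) ^ s)
    (h : ∀ i j, ‖a i j‖ ≤ ‖a 1 1‖) :
    ∃ t ≤ s, ∃ k ∈ Kp p, ∃ k' ∈ Kp p, a = k * (aP p t).2 * k' := by
  have hd := frame_det a
  have hp := vch_one_lt (p := p)
  have hpP : (p : ℚ_[p]) ≠ 0 := Nat.cast_ne_zero.2 (Fact.out : p.Prime).ne_zero
  have h1 : 1 ≤ ‖a 1 1‖ := by
    by_contra hlt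
    push Not at hlt
    have h2 : ‖a 0 0 * a 1 1 + -(a 0 1 * a 1 0)‖ < 1 := by
      refine (Padic.nonarchimedean _ _).trans_lt (max_lt ?_ ?_)
      · rw [norm_mul]
        exact mul_lt_one_of_nonneg_of_lt_one_right ((h _ _).trans hlt.le) (norm_nonneg _) hlt
      · rw [norm_neg, norm_mul]
        exact mul_lt_one_of_nonneg_of_lt_one_right ((h _ _).trans hlt.le) (norm_nonneg _)
          ((h _ _).trans_lt hlt)
    rw [← sub_eq_add_neg, hd, norm_one] at h2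
    exact lt_irrefl _ h2
  have h0 : a 1 1 ≠ 0 := fun e => by rw [e, norm_zero] at h1; linarith
  have hn : (0 : ℝ) < ‖a 1 1‖ := norm_pos_iff.2 h0
  have h3 := Padic.norm_eq_zpow_neg_valuation h0
  obtain ⟨t, ht⟩ : ∃ t : ℕ, -(a 1 1).valuation = t := by
    refine Int.eq_ofNat_of_zero_le ?_
    rw [h3] at h1
    exact (one_le_zpow_iff_right₀ hp).1 h1
  rw [ht, zpow_natCast] at h3
  have hu : ‖a 1 1 * (p : ℚ_[p]) ^ t‖ = 1 := by
    rw [norm_mul, Padic.norm_p_pow, h3, zpow_neg, zpow_natCast]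
    exact mul_inv_cancel₀ (by positivity)
  have hu0 : (a 1 1 * (p : ℚ_[p]) ^ t)⁻¹ ≠ 0 := inv_ne_zero (mul_ne_zero h0 (pow_ne_zero _ hpP))
  refine ⟨t, (pow_le_pow_iff_right₀ hp).1 (h3 ▸ hs), uu (a 0 1 / a 1 1), uu_mem_Kp p ?_,
    dg _ hu0 * ul (a 1 0 / a 1 1), (Kp p).mul_mem (fun i j => ?_) (ul_mem_Kp p ?_), ?_⟩
  · rw [norm_div, div_le_one hn]; exact h _ _
  · fin_cases i <;> fin_cases j
    · exact (show ‖(a 1 1 * (p : ℚ_[p]) ^ t)⁻¹‖ = 1 by rw [norm_inv, hu, inv_one]).le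
    · simp
    · simp
    · exact (show ‖(a 1 1 * (p : ℚ_[p]) ^ t)⁻¹⁻¹‖ = 1 by rw [inv_inv, hu]).le
  · rw [norm_div, div_le_one hn]; exact h _ _
  · have hq : (p : ℚ_[p]) ^ t ≠ 0 := pow_ne_zero _ hpP
    ext i j
    fin_cases i <;> fin_cases j <;> simp [aP, Matrix.mul_apply, Fin.sum_univ_two] <;> field_simp
    linear_combination hd

theorem cartan {s : ℕ} {a : SL(2, ℚ_[p])}
    (ha : Bd ((p : ℝ) ^ s) (a : Matrix (Fin 2) (Fin 2) ℚ_[p])) :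
    ∃ t ≤ s, ∃ k ∈ Kp p, ∃ k' ∈ Kp p, a = k * (aP p t).2 * k' := by
  obtain ⟨⟨i, j⟩, hm⟩ := Finite.exists_max fun x : Fin 2 × Fin 2 => ‖a x.1 x.2‖
  obtain ⟨w, hv⟩ : ∃ w : SL(2, ℚ_[p]), (w : Matrix (Fin 2) (Fin 2) ℚ_[p]) = !![0, 1; -1, 0] :=
    ⟨⟨!![0, 1; -1, 0], by simp [Matrix.det_fin_two]⟩, rfl⟩
  have hw : w ∈ Kp p := fun i j => by fin_cases i <;> fin_cases j <;> simp [hv]
  obtain ⟨k, hk, k', hk', e⟩ : ∃ k ∈ Kp p, ∃ k' ∈ Kp p, ‖(k * a * k') 1 1‖ = ‖a i j‖ := by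
    fin_cases i <;> fin_cases j
    · exact ⟨w, hw, w, hw, by
        simp [hv, Matrix.mul_apply, Fin.sum_univ_two, Matrix.vecMul, dotProduct]⟩
    · exact ⟨w, hw, 1, (Kp p).one_mem, by simp [hv, Matrix.mul_apply, Fin.sum_univ_two]⟩
    · exact ⟨1, (Kp p).one_mem, w, hw, by simp [hv, Matrix.mul_apply, Fin.sum_univ_two]⟩
    · exact ⟨1, (Kp p).one_mem, 1, (Kp p).one_mem, by simp⟩
  obtain ⟨t, ht, l, hl, l', hl', e'⟩ := vch_cartan (s := s) (a := k * a * k') (e ▸ ha i j)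
    fun i' j' => e ▸ vch_mul_bd hk hk' (fun x y => hm (x, y)) i' j'
  refine ⟨t, ht, k⁻¹ * l, (Kp p).mul_mem ((Kp p).inv_mem hk) hl, l' * k'⁻¹,
    (Kp p).mul_mem hl' ((Kp p).inv_mem hk'), ?_⟩
  calc a = k⁻¹ * (k * a * k') * k'⁻¹ := by group
    _ = _ := by rw [e']; group

/-- Vectors with prescribed `p`-adic size of the two coordinates. -/
def vchM (g : GG p) (e f : ℤ) (z : ℂ) : Prop := ∃ a b : ℚ, InZp p a ∧ InZp p b ∧
  ‖g.2 0 0 * a + g.2 0 1 * b‖ ≤ (p : ℝ) ^ e ∧ ‖g.2 1 0 * a + g.2 1 1 * b‖ ≤ (p : ℝ) ^ f ∧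
  z = frame_ph g.1 a b

theorem vch_mem {g : GG p} {i : ℕ} {z : ℂ} : z ∈ latG p (aP p i * g) ↔ vchM g i (-i) z := by
  have hp : (0 : ℝ) < p := zero_lt_one.trans vch_one_lt
  have e0 : ∀ a b : ℚ_[p], (aP p i * g).2 0 0 * a + (aP p i * g).2 0 1 * b =
      (p : ℚ_[p]) ^ i * (g.2 0 0 * a + g.2 0 1 * b) := fun a b => by
    simp [aP, Matrix.mul_apply, Fin.sum_univ_two]; ring
  have e1 : ∀ a b : ℚ_[p], (aP p i * g).2 1 0 * a + (aP p i * g).2 1 1 * b =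
      ((p : ℚ_[p]) ^ i)⁻¹ * (g.2 1 0 * a + g.2 1 1 * b) := fun a b => by
    simp [aP, Matrix.mul_apply, Fin.sum_univ_two]; ring
  have e2 : (aP p i * g).1 = g.1 := by simp [aP]
  rw [frame_mem_latG, vchM]
  simp only [e0, e1, e2, norm_mul, norm_inv, Padic.norm_p_pow, zpow_neg, inv_inv,
    inv_mul_le_iff₀ (zpow_pos hp _), mul_one, ← le_inv_mul_iff₀ (zpow_pos hp _)]

theorem vch_zero {g : GG p} {z : ℂ} : z ∈ latG p g ↔ vchM g 0 0 z := by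
  rw [frame_mem_latG, vchM]
  simp only [zpow_zero]

theorem vchM.mono {g : GG p} {e f e' f' : ℤ} {z : ℂ} (h : vchM g e f z) (he : e ≤ e') (hf : f ≤ f') :
    vchM g e' f' z := by
  obtain ⟨a, b, h1, h2, h3, h4, h5⟩ := h
  exact ⟨a, b, h1, h2, h3.trans (zpow_le_zpow_right₀ vch_one_lt.le he),
    h4.trans (zpow_le_zpow_right₀ vch_one_lt.le hf), h5⟩

theorem vchM.inter {g : GG p} {e f e' f' : ℤ} {z : ℂ} (h : vchM g e f z) (h' : vchM g e' f' z) :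
    vchM g e f' z := by
  obtain ⟨a, b, h1, h2, h3, -, h5⟩ := h
  obtain ⟨a', b', -, -, -, h4, h6⟩ := h'
  obtain ⟨rfl, rfl⟩ := frame_ph_inj g.1 (h5.symm.trans h6)
  exact ⟨a, b, h1, h2, h3, h4, h5⟩

theorem vch_scale {g : GG p} {e f : ℤ} {z : ℂ} (h : vchM g e f z) (k : ℤ) :
    vchM g (e - k) (f - k) ((p : ℂ) ^ k * z) := by
  obtain ⟨a, b, h1, h2, h3, h4, rfl⟩ := h
  have hp : (0 : ℝ) < p := zero_lt_one.trans vch_one_lt
  have hq : (p : ℚ) ≠ 0 := Nat.cast_ne_zero.2 (Fact.out : p.Prime).ne_zero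
  have hk : InZp p ((p : ℚ) ^ k) := by
    obtain ⟨n, rfl | rfl⟩ := k.eq_nat_or_neg
    · exact ⟨0, p ^ n, by simp⟩
    · exact ⟨n, 1, by simp [hq]⟩
  have e : ∀ (x y : ℚ_[p]) (r : ℤ), ‖x * a + y * b‖ ≤ (p : ℝ) ^ r →
      ‖x * (((p : ℚ) ^ k * a : ℚ) : ℚ_[p]) + y * (((p : ℚ) ^ k * b : ℚ) : ℚ_[p])‖ ≤
        (p : ℝ) ^ (r - k) := fun x y r h => by
    rw [show x * (((p : ℚ) ^ k * a : ℚ) : ℚ_[p]) + y * (((p : ℚ) ^ k * b : ℚ) : ℚ_[p]) =
      (p : ℚ_[p]) ^ k * (x * a + y * b) by push_cast; ring, norm_mul, Padic.norm_p_zpow,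
      sub_eq_neg_add, zpow_add₀ hp.ne']
    exact mul_le_mul_of_nonneg_left h (zpow_pos hp _).le
  refine ⟨_, _, hk.mul h1, hk.mul h2, e _ _ _ h3, e _ _ _ h4, ?_⟩
  rw [← frame_ph_mul]
  push_cast
  rfl

theorem vchM.up {g : GG p} {e f : ℤ} {z : ℂ} (h : vchM g e f z) (k : ℕ) :
    vchM g (e - k) (f - k) ((p : ℂ) ^ k * z) := by
  have := vch_scale h k
  rwa [zpow_natCast] at this

theorem vchM.down {g : GG p} {e f : ℤ} {z : ℂ} {k : ℕ} (h : vchM g e f ((p : ℂ) ^ k * z)) :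
    vchM g (e + k) (f + k) z := by
  have hq : (p : ℂ) ≠ 0 := Nat.cast_ne_zero.2 (Fact.out : p.Prime).ne_zero
  have := vch_scale h (-k)
  rwa [sub_neg_eq_add, sub_neg_eq_add, zpow_neg, zpow_natCast,
    inv_mul_cancel_left₀ (pow_ne_zero _ hq)] at this

theorem vch_le {Λ Λ' : Lt} {D D' : ℤ} (h : DiscL Λ D) (h' : DiscL Λ' D') (k : ℕ)
    (h1 : ∀ w ∈ Λ, (p : ℂ) ^ k * w ∈ Λ') (h2 : ∀ w ∈ Λ', (p : ℂ) ^ k * w ∈ Λ) {n : ℕ}
    (hn : 4 * k ≤ n) : -D ≤ (p : ℤ) ^ n * -D' := by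
  have hp : 0 < p := (Fact.out : p.Prime).pos
  have hq : (p : ℂ) ≠ 0 := Nat.cast_ne_zero.2 hp.ne'
  have h3 := disc_le h h' (m := p ^ (2 * k)) (pow_pos hp _) (pow_ne_zero k hq)
    (pr_mul_le.2 fun w hw => mem_pr_mul.2 ⟨_, h1 w hw, by push_cast; ring⟩) (pr_mul_le.2 h2)
  refine h3.trans (mul_le_mul_of_nonneg_right ?_ (by have := h'.isD.1; omega))
  push_cast
  rw [← pow_mul]
  exact pow_le_pow_right₀ (by exact_mod_cast hp) (by omega)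

theorem chain_disc {D : ℤ} {g : GG p} {t i : ℕ} (hi : i ≤ t) (h0 : DiscL (latG p g) D)
    (h1 : DiscL (latG p (aP p t * g)) D) : ∃ D', DiscL (latG p (aP p i * g)) D' ∧
      OD D ≤ OD D' ∧ -D ≤ (p : ℤ) ^ (2 * t) * -D' := by
  obtain ⟨j, rfl⟩ := Nat.exists_eq_add_of_le hi
  have a0 : ∀ w ∈ latG p (aP p i * g), (p : ℂ) ^ i * w ∈ latG p g := fun w hw =>
    vch_zero.2 (((vch_mem.1 hw).up i).mono (by omega) (by omega))
  have a1 : ∀ w ∈ latG p (aP p i * g), (p : ℂ) ^ j * w ∈ latG p (aP p (i + j) * g) := fun w hw =>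
    vch_mem.2 (((vch_mem.1 hw).up j).mono (by push_cast; omega) (by push_cast; omega))
  have hM : ModS D (latG p (aP p i * g)) := fun x hx w hw => by
    have b0 := vch_zero.1 (h0.modS x hx _ (a0 w hw))
    have b1 := vch_mem.1 (h1.modS x hx _ (a1 w hw))
    rw [mul_left_comm] at b0 b1
    exact vch_mem.2 ((b0.down.inter b1.down).mono (by omega) (by push_cast; omega))
  obtain ⟨D', hD', hle⟩ := disc_of_modS (latG_spec p _).1 h0.isD hM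
  refine ⟨D', hD', hle, ?_⟩
  rcases le_total i j with hij | hij
  · exact vch_le h0 hD' i (fun w hw =>
      vch_mem.2 (((vch_zero.1 hw).up i).mono (by omega) (by omega))) a0 (by omega)
  · exact vch_le h1 hD' j (fun w hw => vch_mem.2 (((vch_mem.1 hw).up j).mono
      (by push_cast; omega) (by push_cast; omega))) a1 (by omega)

theorem chain {D : ℤ} {g : GG p} {s : ℕ} {a : SL(2, ℚ_[p])} (h0 : DiscL (latG p g) D)
    (h1 : DiscL (latG p ((1, a) * g)) D)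
    (ha : Bd ((p : ℝ) ^ s) (a : Matrix (Fin 2) (Fin 2) ℚ_[p])) (P : SL(2, ℚ_[p]) → Prop)
    (hP : ∀ (c b : SL(2, ℚ_[p])) (D' : ℤ), Bd (p : ℝ) (b : Matrix (Fin 2) (Fin 2) ℚ_[p]) →
      DiscL (latG p ((1, c) * g)) D' → OD D ≤ OD D' → -D ≤ (p : ℤ) ^ (2 * s) * -D' →
      P c → P (b * c)) (h : P 1) : P a := by
  obtain ⟨t, ht, k, hk, k', hk', rfl⟩ := cartan ha
  have hp := vch_one_lt (p := p)
  have hpZ : (1 : ℤ) ≤ p := by exact_mod_cast hp.le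
  have hK : ∀ k ∈ Kp p, Bd (p : ℝ) (k : Matrix (Fin 2) (Fin 2) ℚ_[p]) := fun k hk i j =>
    (hk i j).trans hp.le
  have e : ∀ i, ((1, (aP p i).2 * k') : GG p) * g = aP p i * ((1, k') * g) := fun i => by
    rw [← mul_assoc]
    congr 1
    exact Prod.ext (by simp [aP]) rfl
  have g0 : DiscL (latG p ((1, k') * g)) D := by rwa [latG_left hk']
  have g1 : DiscL (latG p (aP p t * ((1, k') * g))) D := by
    rw [← e, ← latG_left hk, ← mul_assoc]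
    have e2 : ((1, k) : GG p) * (1, (aP p t).2 * k') = (1, k * (aP p t).2 * k') :=
      Prod.ext (one_mul _) (mul_assoc _ _ _).symm
    rwa [e2]
  have step : ∀ i ≤ t, ∀ b : SL(2, ℚ_[p]), Bd (p : ℝ) (b : Matrix (Fin 2) (Fin 2) ℚ_[p]) →
      P ((aP p i).2 * k') → P (b * ((aP p i).2 * k')) := fun i hi b hb => by
    obtain ⟨D', h2, h3, h4⟩ := chain_disc hi g0 g1
    refine hP _ b D' hb (by rwa [e]) h3 (h4.trans (mul_le_mul_of_nonneg_right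
      (pow_le_pow_right₀ hpZ (by omega)) (by have := h2.isD.1; omega)))
  have ha1 : Bd (p : ℝ) ((aP p 1).2 : Matrix (Fin 2) (Fin 2) ℚ_[p]) := fun i j => by
    fin_cases i <;> fin_cases j
    · simpa [aP] using (inv_le_one_of_one_le₀ hp.le).trans hp.le
    · simp [aP]
    · simp [aP]
    · simp [aP]
  have main : ∀ i ≤ t, P ((aP p i).2 * k') := fun i => by
    induction i with
    | zero =>
      intro _
      have h2 := hP 1 k' D (hK k' hk') (by rwa [Prod.mk_one_one, one_mul]) le_rfl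
        (le_mul_of_one_le_left (by have := h0.isD.1; omega) (one_le_pow₀ hpZ)) h
      rwa [vch_aP_zero, one_mul, ← mul_one k']
    | succ i ih =>
      intro hi
      rw [add_comm, vch_aP_add, mul_assoc]
      exact step i (by omega) _ ha1 (ih (by omega))
  rw [mul_assoc]
  exact step t le_rfl k (hK k hk) (main t le_rfl)

end Pool.Agent.EQ
end
end

-- part Pool.Agent.P.MP_ad7a55_nt.VRt
section

/-! Approximation of roots by rational elements of norm one. -/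

set_option autoImplicit false

noncomputable section

open MeasureTheory Topology Filter UpperHalfPlane
open scoped MatrixGroups ENNReal BoundedContinuousFunction

namespace Pool.Agent.EQ

variable (p : ℕ) [Fact p.Prime]

theorem vrt_step {M : ℕ} (hM : 0 < M) {D : ℤ} (hD : D < 0) {y : ℚ}
    (hy : ‖(y : ℚ_[p]) ^ 2 * D‖ ≤ ‖(M : ℚ_[p])‖ ^ 3 / p) :
    ∃ (l y' : ℚ), l ≠ 0 ∧ ‖(y' : ℚ_[p])‖ ≤ ‖(y : ℚ_[p])‖ / p ∧
      1 + y * th D = (1 + ((y / M : ℚ) : ℂ) * th D) ^ M * (l * (1 + y' * th D)) := by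
  have hp : (1 : ℝ) < p := by exact_mod_cast (Fact.out : p.Prime).one_lt
  have hM0 : (M : ℚ_[p]) ≠ 0 := by exact_mod_cast hM.ne'
  have hμ : 0 < ‖(M : ℚ_[p])‖ := norm_pos_iff.2 hM0
  have hμ1 : ‖(M : ℚ_[p])‖ ≤ 1 := by simpa using Padic.norm_int_le_one (p := p) M
  have hz : ((y / M : ℚ) : ℚ_[p]) = y / M := by push_cast; rfl
  have hzn : ‖((y / M : ℚ) : ℚ_[p])‖ = ‖(y : ℚ_[p])‖ / ‖(M : ℚ_[p])‖ := by rw [hz, norm_div]
  have hε : ‖((y / M : ℚ) : ℚ_[p]) ^ 2 * D‖ ≤ ‖(M : ℚ_[p])‖ / p := by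
    have : ‖((y / M : ℚ) : ℚ_[p]) ^ 2 * D‖ = ‖(y : ℚ_[p]) ^ 2 * D‖ / ‖(M : ℚ_[p])‖ ^ 2 := by
      rw [hz, ← norm_pow, ← norm_div]
      congr 1
      field_simp
    rw [this, div_le_iff₀ (by positivity)]
    refine hy.trans (le_of_eq ?_)
    ring
  have hε1 : ‖((y / M : ℚ) : ℚ_[p]) ^ 2 * D‖ < 1 := by
    refine hε.trans_lt ?_
    rw [div_lt_one (by linarith)]
    linarith
  obtain ⟨A, B, e, hA, hB, hB'⟩ := pow_est_star p hD hε1.le M
  have hMz : (M : ℚ_[p]) * ((y / M : ℚ) : ℚ_[p]) = y := by rw [hz]; field_simp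
  rw [hMz] at hB
  have hyz : ‖(y : ℚ_[p])‖ ≤ ‖((y / M : ℚ) : ℚ_[p])‖ := by
    rw [hzn, le_div_iff₀ hμ]
    exact mul_le_of_le_one_right (norm_nonneg _) hμ1
  have hA0 : A ≠ 0 := by
    rintro rfl
    have := hA.trans_lt hε1
    simp at this
  have hN := norm_ne_zero_star hD (b := B) (Or.inl hA0)
  have hE : ‖((A - y * B * D : ℚ) : ℚ_[p])‖ = 1 := by
    apply norm_eq_one_star
    have := Padic.nonarchimedean ((A : ℚ_[p]) - 1) (-(y * B * D))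
    have e2 : ((A - y * B * D : ℚ) : ℚ_[p]) - 1 = (A : ℚ_[p]) - 1 + -(y * B * D) := by
      push_cast
      ring
    rw [e2]
    refine (this.trans (max_le hA ?_)).trans_lt hε1
    simp only [norm_neg, norm_mul, sq]
    gcongr
  have hE0 : A - y * B * D ≠ 0 := by
    intro h0
    rw [h0] at hE
    simp at hE
  refine ⟨(A - y * B * D) / (A ^ 2 - B ^ 2 * D),
    (y * A - B) / (A - y * B * D), div_ne_zero hE0 hN, ?_, ?_⟩
  · rw [Rat.cast_div, norm_div, hE, div_one]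
    have := Padic.nonarchimedean ((y : ℚ_[p]) * ((A : ℚ_[p]) - 1))
      (-((B : ℚ_[p]) - (y : ℚ_[p])))
    have e2 : ((y * A - B : ℚ) : ℚ_[p]) = (y : ℚ_[p]) * (A - 1) + -(B - y) := by
      push_cast
      ring
    rw [e2]
    have h3 : ‖((y / M : ℚ) : ℚ_[p])‖ * ‖((y / M : ℚ) : ℚ_[p]) ^ 2 * D‖ ≤ ‖(y : ℚ_[p])‖ / p := by
      calc _ ≤ ‖(y : ℚ_[p])‖ / ‖(M : ℚ_[p])‖ * (‖(M : ℚ_[p])‖ / p) := by
            rw [hzn]
            gcongr
        _ = _ := by field_simp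
    refine (this.trans (max_le ?_ ?_)).trans h3
    · rw [norm_mul]
      gcongr
    · rwa [norm_neg]
  · rw [e]
    have hth := th_sq hD.le
    have hN' : (A : ℂ) ^ 2 - (B : ℂ) ^ 2 * D ≠ 0 := by exact_mod_cast hN
    have hE' : (A : ℂ) - y * B * D ≠ 0 := by exact_mod_cast hE0
    push_cast
    field_simp
    linear_combination -(B : ℂ) * (y * A - B) * hth

/-- Pairs close to `(1, 0)`. -/
def vrt_G (D : ℤ) (δ : ℝ) (a b : ℚ) : Prop :=
  ‖(a : ℚ_[p]) - 1‖ ≤ δ ∧ ‖(b : ℚ_[p]) ^ 2 * D‖ ≤ δ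

theorem vrt_cross {D : ℤ} {δ : ℝ} {b b' : ℚ_[p]} (hb : ‖b ^ 2 * D‖ ≤ δ) (hb' : ‖b' ^ 2 * D‖ ≤ δ) :
    ‖b * b' * D‖ ≤ δ := by
  have hδ : 0 ≤ δ := (norm_nonneg _).trans hb
  have e : ‖b * b' * D‖ ^ 2 = ‖b ^ 2 * D‖ * ‖b' ^ 2 * D‖ := by
    simp only [norm_mul, norm_pow]
    ring
  have : ‖b * b' * D‖ ^ 2 ≤ δ ^ 2 := by
    rw [e, sq δ]
    exact mul_le_mul hb hb' (norm_nonneg _) hδ
  exact (pow_le_pow_iff_left₀ (norm_nonneg _) hδ two_ne_zero).1 this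

theorem vrt_le_one {a : ℚ_[p]} {δ : ℝ} (hδ : δ ≤ 1) (ha : ‖a - 1‖ ≤ δ) : ‖a‖ ≤ 1 := by
  have := Padic.nonarchimedean (a - 1) 1
  rw [sub_add_cancel, norm_one] at this
  exact this.trans (max_le (ha.trans hδ) le_rfl)

theorem vrt_G.mul {D : ℤ} {δ : ℝ} (hδ : δ ≤ 1) {a b a' b' : ℚ} (h : vrt_G p D δ a b)
    (h' : vrt_G p D δ a' b') : vrt_G p D δ (a * a' + b * b' * D) (a * b' + b * a') := by
  have ha := vrt_le_one p hδ h.1
  have ha' := vrt_le_one p hδ h'.1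
  constructor
  · have e : ((a * a' + b * b' * D : ℚ) : ℚ_[p]) - 1 =
        ((a : ℚ_[p]) * (a' - 1) + (a - 1)) + b * b' * D := by
      push_cast
      ring
    rw [e]
    refine (Padic.nonarchimedean _ _).trans (max_le ((Padic.nonarchimedean _ _).trans
      (max_le ?_ h.1)) (vrt_cross p h.2 h'.2))
    rw [norm_mul]
    exact (mul_le_of_le_one_left (norm_nonneg _) ha).trans h'.1
  · have e : ((a * b' + b * a' : ℚ) : ℚ_[p]) = (a : ℚ_[p]) * b' + b * a' := by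
      push_cast
      ring
    have h1 : ‖(a : ℚ_[p]) * b'‖ ≤ ‖(b' : ℚ_[p])‖ := by
      rw [norm_mul]
      exact mul_le_of_le_one_left (norm_nonneg _) ha
    have h2 : ‖(b : ℚ_[p]) * a'‖ ≤ ‖(b : ℚ_[p])‖ := by
      rw [norm_mul]
      exact mul_le_of_le_one_right (norm_nonneg _) ha'
    have h3 := Padic.nonarchimedean ((a : ℚ_[p]) * (b' : ℚ_[p])) ((b : ℚ_[p]) * (a' : ℚ_[p]))
    rw [e]
    rcases le_total ‖(b : ℚ_[p])‖ ‖(b' : ℚ_[p])‖ with hle | hle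
    · refine le_trans ?_ h'.2
      have h4 := h3.trans (max_le h1 (h2.trans hle))
      simp only [norm_mul, norm_pow]
      gcongr
    · refine le_trans ?_ h.2
      have h4 := h3.trans (max_le (h1.trans hle) h2)
      simp only [norm_mul, norm_pow]
      gcongr

theorem vrt_mul_eq {D : ℤ} (hD : D < 0) (a b a' b' : ℚ) :
    ((a : ℂ) + b * th D) * (a' + b' * th D) =
      ((a * a' + b * b' * D : ℚ) : ℂ) + ((a * b' + b * a' : ℚ) : ℂ) * th D := by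
  have hth := th_sq hD.le
  push_cast
  linear_combination (b : ℂ) * b' * hth

theorem vrt_G.pow {D : ℤ} (hD : D < 0) {δ : ℝ} (hδ : δ ≤ 1) {a b : ℚ} (h : vrt_G p D δ a b)
    (i : ℕ) : ∃ A B : ℚ, ((a : ℂ) + b * th D) ^ i = A + B * th D ∧ vrt_G p D δ A B := by
  have h0 : 0 ≤ δ := (norm_nonneg _).trans h.1
  induction i with
  | zero => exact ⟨1, 0, by simp, by simpa using h0, by simpa using h0⟩
  | succ i ih =>
    obtain ⟨A, B, e, hG⟩ := ih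
    exact ⟨_, _, by rw [pow_succ, e, vrt_mul_eq hD], hG.mul p hδ h⟩

theorem vrt_sq {D : ℤ} (hD : D < 0) {δ : ℝ} (hδ : δ < 1) {z : ℚ}
    (hz : ‖(z : ℚ_[p]) ^ 2 * D‖ ≤ δ) : ∃ a b n : ℚ, n ≠ 0 ∧ a ^ 2 - b ^ 2 * D = 1 ∧
      vrt_G p D δ a b ∧ (1 + z * th D) ^ 2 = n * ((a : ℂ) + b * th D) := by
  have hn : (1 : ℚ) - z ^ 2 * D ≠ 0 := by
    simpa using norm_ne_zero_star hD (a := 1) (b := z) (Or.inl one_ne_zero)
  have hn' : (1 : ℚ_[p]) - (z : ℚ_[p]) ^ 2 * D ≠ 0 := by exact_mod_cast hn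
  have hnc : (1 : ℂ) - (z : ℂ) ^ 2 * D ≠ 0 := by exact_mod_cast hn
  have hn1 : ‖(1 : ℚ_[p]) - (z : ℚ_[p]) ^ 2 * D‖ = 1 := by
    apply norm_eq_one_star
    rw [sub_sub_cancel_left, norm_neg]
    exact hz.trans_lt hδ
  have h2 : ‖(2 : ℚ_[p])‖ ≤ 1 := by simpa using Padic.norm_int_le_one (p := p) 2
  refine ⟨(1 + z ^ 2 * D) / (1 - z ^ 2 * D), 2 * z / (1 - z ^ 2 * D), 1 - z ^ 2 * D, hn, ?_,
    ⟨?_, ?_⟩, ?_⟩
  · field_simp
    ring
  · have e : (((1 + z ^ 2 * D) / (1 - z ^ 2 * D) : ℚ) : ℚ_[p]) - 1 =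
        2 * ((z : ℚ_[p]) ^ 2 * D) / (1 - (z : ℚ_[p]) ^ 2 * D) := by
      push_cast
      field_simp
      ring
    rw [e, norm_div, hn1, div_one, norm_mul]
    exact (mul_le_of_le_one_left (norm_nonneg _) h2).trans hz
  · have e : ((2 * z / (1 - z ^ 2 * D) : ℚ) : ℚ_[p]) ^ 2 * D =
        2 ^ 2 * ((z : ℚ_[p]) ^ 2 * D) / (1 - (z : ℚ_[p]) ^ 2 * D) ^ 2 := by
      push_cast
      field_simp
    rw [e, norm_div, norm_pow, hn1, one_pow, div_one, norm_mul, norm_pow]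
    exact (mul_le_of_le_one_left (norm_nonneg _) (pow_le_one₀ (norm_nonneg _) h2)).trans hz
  · have hth := th_sq hD.le
    push_cast
    field_simp
    linear_combination (z : ℂ) ^ 2 * hth

theorem vrt_inj {D : ℤ} (hD : D < 0) {a b a' b' : ℚ}
    (h : (a : ℂ) + b * th D = a' + b' * th D) : a = a' ∧ b = b' := by
  have h1 := congrArg Complex.re h
  have h2 := congrArg Complex.im h
  have hs : 0 < Real.sqrt (-(D : ℝ)) := Real.sqrt_pos.2 (by exact_mod_cast neg_pos.2 hD)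
  simp [th, hs.ne'] at h1 h2
  exact ⟨h1, h2⟩

theorem root_U {M : ℕ} (hM : 0 < M) (m : ℕ) : ∃ c : ℕ, ∀ D : ℤ, D < 0 → ∀ y : ℚ,
    ‖(y : ℚ_[p]) ^ 2 * D‖ ≤ (p : ℝ) ^ (-(c : ℤ)) → ∀ ε : ℝ, 0 < ε → ∃ a b : ℚ,
      a ^ 2 - b ^ 2 * D = 1 ∧
      (∀ i : ℕ, ∃ A B : ℚ, ((a : ℂ) + b * th D) ^ i = A + B * th D ∧
        ‖(A : ℚ_[p]) - 1‖ ≤ (p : ℝ) ^ (-(m : ℤ)) ∧
        ‖(B : ℚ_[p]) ^ 2 * D‖ ≤ (p : ℝ) ^ (-(m : ℤ))) ∧
      ∃ A B : ℚ, ((a : ℂ) + b * th D) ^ M = A + B * th D ∧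
        ‖(A : ℚ_[p]) - 1‖ ≤ (p : ℝ) ^ (-(m : ℤ)) ∧
        ‖(B : ℚ_[p]) ^ 2 * D‖ ≤ (p : ℝ) ^ (-(m : ℤ)) ∧ ‖(B : ℚ_[p]) - A * y‖ ≤ ε := by
  have hp : (1 : ℝ) < p := by exact_mod_cast (Fact.out : p.Prime).one_lt
  have hp0 : (0 : ℝ) < p := by linarith
  have hM2 : 0 < 2 * M := by omega
  have hM0 : ((2 * M : ℕ) : ℚ_[p]) ≠ 0 := by exact_mod_cast hM2.ne'
  set μ := ‖((2 * M : ℕ) : ℚ_[p])‖ with hμd
  have hμ : 0 < μ := norm_pos_iff.2 hM0
  have hμ1 : μ ≤ 1 := by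
    have := Padic.norm_int_le_one (p := p) ((2 * M : ℕ) : ℤ)
    rwa [Int.cast_natCast] at this
  set δ : ℝ := (p : ℝ) ^ (-(m : ℤ)) / p with hδd
  have hm1 : (p : ℝ) ^ (-(m : ℤ)) ≤ 1 := zpow_le_one_of_nonpos₀ hp.le (by omega)
  have hm0 : 0 < (p : ℝ) ^ (-(m : ℤ)) := by positivity
  have hδ0 : 0 < δ := by positivity
  have hδm : δ ≤ (p : ℝ) ^ (-(m : ℤ)) := div_le_self hm0.le hp.le
  have hδp : δ ≤ 1 / p := by rw [hδd]; gcongr
  have hδ1 : δ < 1 := hδp.trans_lt (by rw [div_lt_one hp0]; exact hp)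
  obtain ⟨c, hc⟩ := exists_pow_lt_of_lt_one (x := μ ^ 3 * δ) (y := (p : ℝ)⁻¹)
    (by positivity) (inv_lt_one_of_one_lt₀ hp)
  rw [inv_pow, ← zpow_natCast, ← zpow_neg] at hc
  refine ⟨c, fun D hD y hy ε hε => ?_⟩
  have hy' := hy.trans hc.le
  have key : ∀ k : ℕ, ∃ a b e l : ℚ, a ^ 2 - b ^ 2 * D = 1 ∧ vrt_G p D δ a b ∧ l ≠ 0 ∧
      ‖(e : ℚ_[p])‖ ≤ ‖(y : ℚ_[p])‖ / p ^ k ∧
      1 + y * th D = ((a : ℂ) + b * th D) ^ M * (l * (1 + e * th D)) := by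
    intro k
    induction k with
    | zero =>
      exact ⟨1, 0, y, 1, by simp, ⟨by simpa using hδ0.le, by simpa using hδ0.le⟩, one_ne_zero,
        by simp, by simp⟩
    | succ k ih =>
      obtain ⟨a, b, e, l, hab, hG, hl, he, E⟩ := ih
      have he1 : ‖(e : ℚ_[p])‖ ≤ ‖(y : ℚ_[p])‖ :=
        he.trans (div_le_self (norm_nonneg _) (one_le_pow₀ hp.le))
      have he2 : ‖(e : ℚ_[p]) ^ 2 * D‖ ≤ μ ^ 3 * δ := by
        refine le_trans ?_ hy'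
        simp only [norm_mul, norm_pow]
        gcongr
      have he3 : ‖(e : ℚ_[p]) ^ 2 * D‖ ≤ μ ^ 3 / p := by
        refine he2.trans ?_
        rw [div_eq_mul_one_div]
        gcongr
      obtain ⟨l', e', hl', he', E'⟩ := vrt_step p hM2 hD he3
      have hz : ‖((e / (2 * M : ℕ) : ℚ) : ℚ_[p]) ^ 2 * D‖ ≤ δ := by
        have : ((e / (2 * M : ℕ) : ℚ) : ℚ_[p]) ^ 2 * D =
            (e : ℚ_[p]) ^ 2 * D / ((2 * M : ℕ) : ℚ_[p]) ^ 2 := by
          rw [Rat.cast_div, Rat.cast_natCast]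
          field_simp
        rw [this, norm_div, norm_pow, ← hμd, div_le_iff₀ (by positivity)]
        refine he2.trans ?_
        have : μ ^ 3 ≤ μ ^ 2 := pow_le_pow_of_le_one hμ.le hμ1 (by omega)
        rw [mul_comm δ]
        gcongr
      obtain ⟨a', b', n, hn, hab', hG', E''⟩ := vrt_sq p hD hδ1 hz
      refine ⟨a * a' + b * b' * D, a * b' + b * a', e', l * n ^ M * l', ?_,
        hG.mul p hδ1.le hG', mul_ne_zero (mul_ne_zero hl (pow_ne_zero _ hn)) hl', ?_, ?_⟩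
      · linear_combination (a' ^ 2 - b' ^ 2 * D) * hab + hab'
      · refine he'.trans ?_
        rw [pow_succ, ← div_div]
        gcongr
      · rw [E, E', pow_mul, E'', ← vrt_mul_eq hD, mul_pow, mul_pow]
        push_cast
        ring
  obtain ⟨k, hk⟩ := pow_unbounded_of_one_lt (‖(y : ℚ_[p])‖ / ε) hp
  obtain ⟨a, b, e, l, hab, hG, hl, he, E⟩ := key k
  have heε : ‖(e : ℚ_[p])‖ ≤ ε := by
    refine he.trans ?_
    rw [div_lt_iff₀ hε] at hk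
    rw [div_le_iff₀ (by positivity), mul_comm]
    exact hk.le
  refine ⟨a, b, hab, fun i => ?_, ?_⟩
  · obtain ⟨A, B, e1, h1⟩ := hG.pow p hD hδ1.le i
    exact ⟨A, B, e1, h1.1.trans hδm, h1.2.trans hδm⟩
  · obtain ⟨A, B, e1, h1⟩ := hG.pow p hD hδ1.le M
    refine ⟨A, B, e1, h1.1.trans hδm, h1.2.trans hδm, ?_⟩
    rw [e1] at E
    have hth := th_sq hD.le
    have E2 : ((1 : ℚ) : ℂ) + (y : ℚ) * th D =
        ((l * (A + B * e * D) : ℚ) : ℂ) + ((l * (A * e + B) : ℚ) : ℂ) * th D := by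
      push_cast
      linear_combination E + (l : ℂ) * B * e * hth
    obtain ⟨h2, h3⟩ := vrt_inj hD E2
    have h4 : B - A * y = e * (y * B * D + -A) := by
      apply mul_left_cancel₀ hl
      linear_combination y * h2 - h3
    have h5 : (B : ℚ_[p]) - A * y = e * (y * B * D + -A) := by exact_mod_cast h4
    rw [h5, norm_mul]
    refine (mul_le_of_le_one_right (norm_nonneg _) ?_).trans heε
    refine (Padic.nonarchimedean _ _).trans (max_le ?_ ?_)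
    · refine vrt_cross p (hy'.trans ?_) (h1.2.trans hδ1.le)
      exact mul_le_one₀ (pow_le_one₀ hμ.le hμ1) hδ0.le hδ1.le
    · rw [norm_neg]
      exact vrt_le_one p hδ1.le h1.1

theorem root_D (h2 : p ≠ 2) {D : ℤ} (hD : D < 0) {r : ℚ_[p]} (hr : r ^ 2 = D) (m : ℕ) :
    ∃ a b : ℚ, a ^ 2 - b ^ 2 * D = 1 ∧
      ‖((a : ℚ_[p]) + b * r) / p - 1‖ ≤ (p : ℝ) ^ (-(m : ℤ)) := by
  have hp0 : 0 < p := (Fact.out : p.Prime).pos
  have hp : (p : ℚ_[p]) ≠ 0 := by exact_mod_cast hp0.ne'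
  have hp1 : (1 : ℚ_[p]) + p ≠ 0 := by exact_mod_cast (by omega : 1 + p ≠ 0)
  have hr0 : r ≠ 0 := by
    rintro rfl
    have : (D : ℚ_[p]) = 0 := by simpa using hr.symm
    exact hD.ne (by exact_mod_cast this)
  set t : ℚ_[p] := (1 - p) / ((1 + p) * r) with ht
  have ht1 : 1 + t * r = 2 / (1 + p) := by
    rw [ht]
    field_simp
    ring
  have ht2 : 1 + t * r ≠ 0 := by
    rw [ht1]
    exact div_ne_zero two_ne_zero hp1
  have hc : ContinuousAt (fun x : ℚ_[p] => (1 - x * r) / (1 + x * r) / p - 1) t := by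
    have c1 : ContinuousAt (fun x : ℚ_[p] => 1 - x * r) t := by fun_prop
    have c2 : ContinuousAt (fun x : ℚ_[p] => 1 + x * r) t := by fun_prop
    exact ((c1.div c2 ht2).div_const _).sub continuousAt_const
  have h0 : (1 - t * r) / (1 + t * r) / p - 1 = 0 := by
    rw [ht1, ht]
    field_simp
    ring
  have hm0 : 0 < (p : ℝ) ^ (-(m : ℤ)) := by positivity
  obtain ⟨η, hη, h⟩ := Metric.continuousAt_iff.1 hc _ hm0
  obtain ⟨B, hB⟩ := Padic.rat_dense p t hη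
  have h1 := h (x := (B : ℚ_[p])) (by rwa [dist_comm, dist_eq_norm])
  rw [h0, dist_zero_right] at h1
  have hn : (1 : ℚ) - B ^ 2 * D ≠ 0 := by
    simpa using norm_ne_zero_star hD (a := 1) (b := B) (Or.inl one_ne_zero)
  have hn' : (1 : ℚ_[p]) - (B : ℚ_[p]) ^ 2 * D ≠ 0 := by exact_mod_cast hn
  have hf : (1 : ℚ_[p]) - (B : ℚ_[p]) ^ 2 * D = (1 - B * r) * (1 + B * r) := by
    rw [← hr]
    ring
  have hn1 : (1 : ℚ_[p]) - B * r ≠ 0 := left_ne_zero_of_mul (hf ▸ hn')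
  have hn2 : (1 : ℚ_[p]) + B * r ≠ 0 := right_ne_zero_of_mul (hf ▸ hn')
  refine ⟨(1 + B ^ 2 * D) / (1 - B ^ 2 * D), -2 * B / (1 - B ^ 2 * D), ?_, ?_⟩
  · field_simp
    ring
  · have e : (((1 + B ^ 2 * D) / (1 - B ^ 2 * D) : ℚ) : ℚ_[p]) +
        ((-2 * B / (1 - B ^ 2 * D) : ℚ) : ℚ_[p]) * r = (1 - B * r) / (1 + B * r) := by
      push_cast
      rw [hf, ← hr]
      field_simp
      ring
    rw [e]
    exact h1.le

end Pool.Agent.EQ
end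
end
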