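import Pool.Agent.K.MP_ad7a55_nt.C0
import Pool.Agent.K.MP_ad7a55_nt.C52
import Pool.Agent.P.MP_ad7a55_nt.SgD
import Pool.Agent.K.MP_ad7a55_nt.C50
import Pool.Agent.K.MP_ad7a55_nt.C55
import Pool.Agent.K.MP_ad7a55_nt.C3
import Pool.Agent.K.MP_ad7a55_nt.C57
import Pool.Agent.K.MP_ad7a55_nt.C59
import Pool.Agent.K.MP_ad7a55_nt.C15
import Pool.Agent.K.MP_ad7a55_nt.C38
import Pool.Agent.K.MP_ad7a55_nt.C32
import Pool.Agent.K.MP_ad7a55_nt.C33

-- part Pool.Agent.P.MP_ad7a55_nt.WLb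
section

/-! Two real characters do not both have a real zero near one. -/

set_option autoImplicit false

noncomputable section

open Finset

namespace Pool.Agent.EQ

theorem wlb_eq (f g : ArithmeticFunction ℝ) (X : ℕ) : SL1 (f * g : ArithmeticFunction ℝ) X =
    ∑ p ∈ (Icc 1 X ×ˢ Icc 1 X).filter (fun p : ℕ × ℕ => p.1 * p.2 ≤ X),
      f p.1 / p.1 * (g p.2 / p.2) := by
  rw [SL1, ← sum_fiberwise_of_maps_to (t := Icc 1 X) (g := fun p : ℕ × ℕ => p.1 * p.2)]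
  · refine sum_congr rfl fun m hm => ?_
    rw [mem_Icc] at hm
    rw [ArithmeticFunction.mul_apply, sum_div]
    refine sum_congr ?_ fun p hp => ?_
    · ext ⟨a, b⟩
      simp only [Nat.mem_divisorsAntidiagonal, mem_filter, mem_product, mem_Icc]
      constructor
      · rintro ⟨rfl, h0⟩
        have ha := Nat.pos_of_ne_zero (left_ne_zero_of_mul h0)
        have hb := Nat.pos_of_ne_zero (right_ne_zero_of_mul h0)
        exact ⟨⟨⟨⟨ha, (Nat.le_mul_of_pos_right a hb).trans hm.2⟩,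
          hb, (Nat.le_mul_of_pos_left b ha).trans hm.2⟩, hm.2⟩, rfl⟩
      · rintro ⟨-, h⟩
        exact ⟨h, by omega⟩
    · rw [← (mem_filter.1 hp).2, Nat.cast_mul, div_mul_div_comm]
  · intro p hp
    simp only [mem_filter, mem_product, mem_Icc] at hp ⊢
    exact ⟨Nat.mul_pos hp.1.1.1 hp.1.2.1, hp.2⟩

theorem wlb_nn {f g : ArithmeticFunction ℝ} (hf : ∀ n, 0 ≤ f n) (hg : ∀ n, 0 ≤ g n) (p : ℕ × ℕ) :
    0 ≤ f p.1 / p.1 * (g p.2 / p.2) :=
  mul_nonneg (div_nonneg (hf _) (Nat.cast_nonneg _)) (div_nonneg (hg _) (Nat.cast_nonneg _))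

theorem SL1_mul_le {f g : ArithmeticFunction ℝ} (hf : ∀ n, 0 ≤ f n) (hg : ∀ n, 0 ≤ g n) (X : ℕ) :
    SL1 (f * g : ArithmeticFunction ℝ) X ≤ SL1 f X * SL1 g X := by
  rw [wlb_eq, SL1, SL1, sum_mul_sum, ← sum_product']
  exact sum_le_sum_of_subset_of_nonneg (filter_subset _ _) fun p _ _ => wlb_nn hf hg p

theorem le_SL1_mul {f g : ArithmeticFunction ℝ} (hf : ∀ n, 0 ≤ f n) (hg : ∀ n, 0 ≤ g n)
    (X Y : ℕ) : SL1 f X * SL1 g Y ≤ SL1 (f * g : ArithmeticFunction ℝ) (X * Y) := by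
  rw [wlb_eq, SL1, SL1, sum_mul_sum, ← sum_product']
  refine sum_le_sum_of_subset_of_nonneg (fun p hp => ?_) fun p _ _ => wlb_nn hf hg p
  simp only [mem_filter, mem_product, mem_Icc] at hp ⊢
  obtain ⟨⟨h1, h2⟩, h3, h4⟩ := hp
  exact ⟨⟨⟨h1, h2.trans (Nat.le_mul_of_pos_right X (by omega))⟩,
    h3, h4.trans (Nat.le_mul_of_pos_left Y (by omega))⟩, Nat.mul_le_mul h2 h4⟩

theorem wlb_nonneg {a : ℕ → ℝ} (h : ∀ n, 0 ≤ a n) (X : ℕ) : 0 ≤ SL1 a X :=
  sum_nonneg fun _ _ => div_nonneg (h _) (Nat.cast_nonneg _)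

theorem wlb_mono {a : ℕ → ℝ} (h : ∀ n, 0 ≤ a n) {X Y : ℕ} (hXY : X ≤ Y) : SL1 a X ≤ SL1 a Y :=
  sum_le_sum_of_subset_of_nonneg (Icc_subset_Icc_right hXY) fun _ _ _ =>
    div_nonneg (h _) (Nat.cast_nonneg _)

theorem wlb_one {a : ℕ → ℝ} (h : ∀ n, 0 ≤ a n) (h1 : 1 ≤ a 1) {X : ℕ} (hX : 1 ≤ X) :
    1 ≤ SL1 a X := by
  refine le_trans ?_ (wlb_mono h hX)
  simpa [SL1] using h1

theorem wlb_mul_nn {f g : ArithmeticFunction ℝ} (hf : ∀ n, 0 ≤ f n) (hg : ∀ n, 0 ≤ g n) (n : ℕ) :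
    0 ≤ (f * g) n := by
  rw [ArithmeticFunction.mul_apply]
  exact sum_nonneg fun _ _ => mul_nonneg (hf _) (hg _)

theorem wlb_cast {f g : ArithmeticFunction ℝ} {F G : ArithmeticFunction ℂ}
    (hf : ∀ n, (f n : ℂ) = F n) (hg : ∀ n, (g n : ℂ) = G n) (n : ℕ) :
    ((f * g) n : ℂ) = (F * G) n := by
  rw [ArithmeticFunction.mul_apply, ArithmeticFunction.mul_apply, Complex.ofReal_sum]
  exact sum_congr rfl fun _ _ => by rw [Complex.ofReal_mul, hf, hg]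

theorem wlb_zeta (n : ℕ) : (((ArithmeticFunction.zeta : ArithmeticFunction ℝ) n : ℝ) : ℂ) =
    (ArithmeticFunction.zeta : ArithmeticFunction ℂ) n := by
  rw [ArithmeticFunction.natCoe_apply, ArithmeticFunction.natCoe_apply, Complex.ofReal_natCast]

theorem wlb_zeta_nn (n : ℕ) : 0 ≤ (ArithmeticFunction.zeta : ArithmeticFunction ℝ) n := by
  rw [ArithmeticFunction.natCoe_apply]
  exact Nat.cast_nonneg _

theorem wlb_harm (N : ℕ) :
    SL1 (ArithmeticFunction.zeta : ArithmeticFunction ℝ) N ≤ 1 + Real.log N := by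
  rcases Nat.eq_zero_or_pos N with rfl | hN
  · simp [SL1]
  · have h := (ttl_harm one_pos hN).2
    have e : SL1 (ArithmeticFunction.zeta : ArithmeticFunction ℝ) N =
        ∑ n ∈ Icc 1 N, 1 / (n : ℝ) := by
      refine sum_congr rfl fun n hn => ?_
      have h0 : n ≠ 0 := by have := (mem_Icc.1 hn).1; omega
      simp [ArithmeticFunction.natCoe_apply, h0]
    rw [e]
    simp only [Icc_self, sum_singleton, Nat.cast_one, Real.log_one, div_one] at h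
    linarith

theorem wlb_rr (u : ℕ → ℝ) :
    ⇑((ArithmeticFunction.zeta : ArithmeticFunction ℝ) * toArithmeticFunction u) = rr u := by
  funext k
  rw [ArithmeticFunction.coe_zeta_mul_apply, rr]
  refine sum_congr rfl fun d hd => ?_
  show (if d = 0 then (0 : ℝ) else u d) = u d
  rw [if_neg (Nat.pos_of_mem_divisors hd).ne']

variable {q : ℕ} [NeZero q] {χ ψ : DirichletCharacter ℂ q}

omit [NeZero q] in
theorem wlb_re (h2 : χ ^ 2 = 1) (n : ℕ) : χ n = ((χ n).re : ℝ) := by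
  rcases MulChar.isQuadratic_iff_sq_eq_one.mpr h2 (n : ZMod q) with e | e | e <;> simp [e]

omit [NeZero q] in
theorem wlb_char (h2 : χ ^ 2 = 1) (n : ℕ) :
    ((toArithmeticFunction (fun n : ℕ => (χ n).re) n : ℝ) : ℂ) =
      toArithmeticFunction (χ ·) n := by
  show (((if n = 0 then (0 : ℝ) else (χ n).re) : ℝ) : ℂ) = if n = 0 then 0 else χ n
  split_ifs
  · simp
  · exact (wlb_re h2 n).symm

theorem wlb_q : (1 : ℝ) ≤ q := by exact_mod_cast NeZero.pos q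

theorem ser_one (h : χ ≠ 1) (h2 : χ ^ 2 = 1) :
    Ser χ.LFunction (rr fun n => (χ n).re) (5 * q) := by
  have hr := tnz_rc h h2 (wlb_re h2)
  refine ⟨DirichletCharacter.differentiable_LFunction h, by linarith [wlb_q (q := q)],
    fun s hs => L_ball h hs, hr.rr_nonneg, (ttl_one hr).ge, fun s hs => ?_⟩
  rw [← wlb_rr, funext (wlb_cast wlb_zeta (wlb_char h2))]
  exact ArithmeticFunction.LSeriesHasSum_mul (ArithmeticFunction.LSeriesHasSum_zeta hs)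
    (SgCX.char_sum χ hs)

theorem ser_three (h : χ ≠ 1) (h' : ψ ≠ 1) (h'' : χ * ψ ≠ 1) (h2 : χ ^ 2 = 1) (h2' : ψ ^ 2 = 1) :
    ∃ a : ℕ → ℝ, Ser (fun s => χ.LFunction s * ψ.LFunction s * (χ * ψ).LFunction s) a
      ((5 * q) ^ 3) ∧ ∀ Y : ℕ, SL1 (rr fun n => (χ n).re) Y * SL1 (rr fun n => (ψ n).re) Y *
        SL1 (rr fun n => ((χ * ψ) n).re) Y ≤ (1 + Real.log (Y ^ 3 : ℕ)) ^ 2 * SL1 a (Y ^ 3) := by
  have h2'' : (χ * ψ) ^ 2 = 1 := by rw [mul_pow, h2, h2', one_mul]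
  have hc := wlb_cast wlb_zeta (wlb_cast (wlb_cast (wlb_char h2) (wlb_char h2')) (wlb_char h2''))
  have hF := ArithmeticFunction.isMultiplicative_zeta.natCast.mul
      ((χ.isMultiplicative_toArithmeticFunction.mul ψ.isMultiplicative_toArithmeticFunction).mul
        (χ * ψ).isMultiplicative_toArithmeticFunction)
  have n1 := (ser_one h h2).nn
  have n2 := (ser_one h' h2').nn
  have n3 := (ser_one h'' h2'').nn
  rw [← wlb_rr] at n1 n2 n3
  rw [← wlb_rr, ← wlb_rr, ← wlb_rr]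
  generalize (toArithmeticFunction fun n : ℕ => (χ n).re) = x1 at *
  generalize (toArithmeticFunction fun n : ℕ => (ψ n).re) = x2 at *
  generalize (toArithmeticFunction fun n : ℕ => ((χ * ψ) n).re) = x3 at *
  have hz := wlb_zeta_nn
  have hH := wlb_harm
  generalize (ArithmeticFunction.zeta : ArithmeticFunction ℝ) = z at *
  have hn : ∀ n, 0 ≤ (z * (x1 * x2 * x3)) n := by
    intro n
    rw [← Complex.zero_le_real, hc]
    rcases eq_or_ne n 0 with rfl | hn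
    · simp only [ArithmeticFunction.map_zero]
      exact Complex.zero_le_real.2 le_rfl
    · rw [hF.multiplicative_factorization _ hn]
      open scoped ComplexOrder in
      refine Finset.prod_nonneg fun p hp => ?_
      have hp' := Nat.prime_of_mem_primeFactors hp
      refine SgCX.four_nn hp' (fun k => ?_) (SgCX.char_pp χ hp') (SgCX.char_pp ψ hp')
        (fun k => ?_) (MulChar.isQuadratic_iff_sq_eq_one.mpr h2 p)
        (MulChar.isQuadratic_iff_sq_eq_one.mpr h2' p) _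
      · simp [hp'.ne_zero]
      · rw [SgCX.char_pp (χ * ψ) hp', MulChar.mul_apply]
  have hq := wlb_q (q := q)
  refine ⟨⇑(z * (x1 * x2 * x3)), ⟨((DirichletCharacter.differentiable_LFunction h).mul
    (DirichletCharacter.differentiable_LFunction h')).mul
    (DirichletCharacter.differentiable_LFunction h''), one_le_pow₀ (by linarith),
    fun s hs => ?_, hn, ?_, fun s hs => ?_⟩, fun Y => ?_⟩
  · rw [norm_mul, norm_mul, pow_three, ← mul_assoc]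
    exact mul_le_mul (mul_le_mul (L_ball h hs) (L_ball h' hs) (norm_nonneg _) (by positivity))
      (L_ball h'' hs) (norm_nonneg _) (by positivity)
  · have := hc 1
    rw [hF.map_one] at this
    exact le_of_eq (by exact_mod_cast this.symm)
  · rw [funext hc]
    exact ArithmeticFunction.LSeriesHasSum_mul (ArithmeticFunction.LSeriesHasSum_zeta hs)
      (ArithmeticFunction.LSeriesHasSum_mul
        (ArithmeticFunction.LSeriesHasSum_mul (SgCX.char_sum χ hs) (SgCX.char_sum ψ hs))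
        (SgCX.char_sum (χ * ψ) hs))
  · have e : z * x1 * (z * x2) * (z * x3) = z * (z * (z * (x1 * x2 * x3))) := by ring
    have k1 := mul_le_mul_of_nonneg_right (le_SL1_mul n1 n2 Y Y) (wlb_nonneg n3 Y)
    have k2 := le_SL1_mul (wlb_mul_nn n1 n2) n3 (Y * Y) Y
    rw [e, show Y * Y * Y = Y ^ 3 by ring] at k2
    have k3 := SL1_mul_le hz (wlb_mul_nn hz hn) (Y ^ 3)
    have k4 := SL1_mul_le hz hn (Y ^ 3)
    have k5 := hH (Y ^ 3)
    have k6 := wlb_nonneg hz (Y ^ 3)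
    have k7 := wlb_nonneg hn (Y ^ 3)
    refine k1.trans (k2.trans (k3.trans ((mul_le_mul_of_nonneg_left k4 k6).trans ?_)))
    rw [← mul_assoc, ← sq]
    exact mul_le_mul_of_nonneg_right (pow_le_pow_left₀ k6 k5 2) k7

theorem L_one_log (h : χ ≠ 1) (h2 : χ ^ 2 = 1) {Y : ℕ} (hY : q ^ 2 ≤ Y) :
    0 < (χ.LFunction 1).re ∧ (χ.LFunction 1).im = 0 ∧
      (χ.LFunction 1).re * Real.log q ≤ 200 * SL1 (rr fun n => (χ n).re) Y := by
  have hd := DirichletCharacter.differentiable_LFunction h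
  have hP := posSer_one h2
  have hr := tnz_rc h h2 (wlb_re h2)
  have h0 : 0 < (χ.LFunction 1).re := by
    have := hP.re_pos hd (σ := 1) (fun x h1 h3 => by
      rw [le_antisymm h3 h1]
      exact DirichletCharacter.LFunction_apply_one_ne_zero h) le_rfl
    simpa using this
  refine ⟨h0, by simpa using hP.im_eq_zero hd 1, ?_⟩
  have hq0 : 0 < q := NeZero.pos q
  have hqY : q ≤ Y := le_trans (Nat.le_self_pow two_ne_zero q) hY
  have hL : ∀ N : ℕ, 0 < N →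
      |∑ n ∈ Icc 1 N, (χ n).re / n - (χ.LFunction 1).re| ≤ 2 * q / N := by
    intro N hN
    have := tnz_trunc h (wlb_re h2) one_pos hN
    rw [abs_sub_comm]
    simpa only [Real.rpow_neg_one, Complex.ofReal_one, div_eq_mul_inv] using this
  have k1 := (abs_le.1 (ttl_S hr hL le_rfl hqY)).1
  have k2 := (ttl_harm hq0 hqY).1
  have k3 := ttl_log (hq0.trans_le hqY) hY
  have k4 : 2 * Real.log q ≤ Real.log Y := by
    have := Real.log_le_log (by positivity) (show (q : ℝ) ^ 2 ≤ Y by exact_mod_cast hY)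
    rwa [Real.log_pow, Nat.cast_ofNat] at this
  have k5 := wlb_one hr.rr_nonneg (ttl_one hr).ge (hq0.trans_le hqY)
  have k6 := wlb_nonneg hr.rr_nonneg q
  have k7 := mul_le_mul_of_nonneg_left
    (show Real.log q ≤ 2 * (∑ n ∈ Icc 1 Y, 1 / (n : ℝ) - ∑ n ∈ Icc 1 q, 1 / (n : ℝ)) by linarith)
    h0.le
  simp only [SL1] at k5 k6 ⊢
  linarith

theorem landau : ∃ c : ℝ, 0 < c ∧ ∀ (q : ℕ) [NeZero q] (χ ψ : DirichletCharacter ℂ q), χ ≠ 1 →
    ψ ≠ 1 → χ * ψ ≠ 1 → χ ^ 2 = 1 → ψ ^ 2 = 1 → ∀ β β' : ℝ, 1 - c / Real.log q ≤ β → β < 1 →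
      1 - c / Real.log q ≤ β' → β' < 1 → χ.LFunction β = 0 → ψ.LFunction β' ≠ 0 := by
  obtain ⟨B, C, hB, hC, hlow⟩ := ser_low 4
  obtain ⟨D, hD, hup⟩ := ser_up (3 * B + 12)
  obtain ⟨K, hK, hKe⟩ : ∃ K : ℝ, 0 < K ∧ K = D * C ^ 2 * 200 * (2 + 3 * B) ^ 2 :=
    ⟨_, by positivity, rfl⟩
  obtain ⟨c, hc, hc1, hc2⟩ : ∃ c : ℝ, 0 < c ∧ c ≤ 1 / 30 ∧ K * c < 1 := by
    refine ⟨min (1 / 30) (1 / (2 * K)), lt_min (by norm_num) (by positivity), min_le_left _ _, ?_⟩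
    refine (mul_le_mul_of_nonneg_left (min_le_right _ _) hK.le).trans_lt ?_
    rw [mul_one_div, div_lt_one (by positivity)]
    linarith
  refine ⟨c, hc, fun q _ χ ψ h h' h'' h2 h2' β β' b1 b2 b3 b4 z1 z2 => ?_⟩
  have h2'' : (χ * ψ) ^ 2 = 1 := by rw [mul_pow, h2, h2', one_mul]
  have hq : 2 ≤ q := by
    have h0 := NeZero.pos q
    by_contra h3
    obtain rfl : q = 1 := by omega
    exact h (DirichletCharacter.level_one χ)
  have hq' : (2 : ℝ) ≤ q := by exact_mod_cast hq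
  have hl : 1 / 2 ≤ Real.log q :=
    le_trans (by linarith [Real.log_two_gt_d9]) (Real.log_le_log two_pos hq')
  have hl0 : 0 < Real.log q := by linarith
  have hb : ∀ b : ℝ, 1 - c / Real.log q ≤ b → 14 / 15 ≤ b ∧ (1 - b) * Real.log q ≤ c := by
    intro b h1
    have h3 : c / Real.log q ≤ 1 / 15 := by
      rw [div_le_iff₀ hl0]
      linarith
    exact ⟨by linarith, (le_div_iff₀ hl0).1 (by linarith)⟩
  have hM : 5 * (q : ℝ) ≤ (q : ℝ) ^ 4 := by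
    have h3 : (2 : ℝ) ^ 3 ≤ (q : ℝ) ^ 3 := pow_le_pow_left₀ (by norm_num) hq' 3
    rw [pow_succ]
    exact mul_le_mul_of_nonneg_right (by linarith) (by linarith)
  have hM3 : (5 * (q : ℝ)) ^ 3 ≤ (q : ℝ) ^ (3 * B + 12) := by
    refine (pow_le_pow_left₀ (by positivity) hM 3).trans ?_
    rw [← pow_mul]
    exact pow_le_pow_right₀ (by linarith) (by omega)
  have hY : q ^ 2 ≤ q ^ B := Nat.pow_le_pow_right (by omega) hB
  obtain ⟨a, ha, hS⟩ := ser_three h h' h'' h2 h2'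
  obtain ⟨p1, i1, -⟩ := L_one_log h h2 hY
  obtain ⟨p2, i2, -⟩ := L_one_log h' h2' hY
  obtain ⟨p3, i3, k3⟩ := L_one_log h'' h2'' hY
  have k1 := hlow _ _ _ q β (ser_one h h2) hq hM (hb β b1).1 b2 (by linarith [(hb β b1).2]) z1
  have k2 := hlow _ _ _ q β' (ser_one h' h2') hq hM (hb β' b3).1 b4
    (by linarith [(hb β' b3).2]) z2
  have k4 := hup _ _ _ q β ha hq hM3 (hb β b1).1 b2 (by linarith [(hb β b1).2])
    (by simp only [z1, zero_mul])
  simp only [Complex.mul_re, Complex.mul_im, i1, i2, i3, mul_zero, zero_mul, sub_zero,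
    add_zero] at k4
  have k5 := hS (q ^ B)
  have k6 : SL1 a ((q ^ B) ^ 3) ≤ SL1 a (q ^ (3 * B + 12)) := by
    refine wlb_mono ha.nn ?_
    rw [← pow_mul]
    exact Nat.pow_le_pow_right (by omega) (by omega)
  have k7 : 1 ≤ SL1 a (q ^ (3 * B + 12)) := wlb_one ha.nn ha.one (Nat.one_le_pow _ _ (by omega))
  have k8 : Real.log (((q ^ B) ^ 3 : ℕ) : ℝ) = 3 * B * Real.log q := by
    rw [Nat.cast_pow, Nat.cast_pow, Real.log_pow, Real.log_pow]
    push_cast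
    ring
  rw [k8] at k5
  have k9 : (1 + 3 * B * Real.log q) ^ 2 ≤ ((2 + 3 * B) * Real.log q) ^ 2 :=
    pow_le_pow_left₀ (by positivity) (by linarith) 2
  have k10 := k5.trans (mul_le_mul k9 k6 (wlb_nonneg ha.nn _) (by positivity))
  have k11 := (hb β' b3).2
  have d1 : 0 < 1 - β := by linarith
  have d2 : 0 < 1 - β' := by linarith
  have k12 := mul_le_mul (mul_le_mul k1 k2 p2.le (p1.le.trans k1)) k3 (mul_pos p3 hl0).le
    (mul_nonneg (p1.le.trans k1) (p2.le.trans k2))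
  clear k5 k6 k8 k9 hS hlow hup hb
  generalize SL1 a (q ^ (3 * B + 12)) = S at *
  generalize SL1 (rr fun n => (χ n).re) (q ^ B) = S1 at *
  generalize SL1 (rr fun n => (ψ n).re) (q ^ B) = S2 at *
  generalize SL1 (rr fun n => ((χ * ψ) n).re) (q ^ B) = S3 at *
  generalize (χ.LFunction 1).re = L1 at *
  generalize (ψ.LFunction 1).re = L2 at *
  generalize ((χ * ψ).LFunction 1).re = L3 at *
  generalize Real.log q = l at *
  have hpos : 0 < (1 - β) * S * l := by positivity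
  have fin : (1 - β) * S * l ≤ (1 - β) * S * l * (K * c) :=
    calc (1 - β) * S * l ≤ D * (L1 * L2 * L3) * l := mul_le_mul_of_nonneg_right k4 hl0.le
      _ = D * (L1 * L2 * (L3 * l)) := by ring
      _ ≤ D * (C * (1 - β) * S1 * (C * (1 - β') * S2) * (200 * S3)) :=
        mul_le_mul_of_nonneg_left k12 hD.le
      _ = D * C ^ 2 * 200 * (1 - β) * (1 - β') * (S1 * S2 * S3) := by ring
      _ ≤ D * C ^ 2 * 200 * (1 - β) * (1 - β') * (((2 + 3 * B) * l) ^ 2 * S) :=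
        mul_le_mul_of_nonneg_left k10 (by positivity)
      _ = (1 - β) * S * l * (K * ((1 - β') * l)) := by rw [hKe]; ring
      _ ≤ _ := mul_le_mul_of_nonneg_left (mul_le_mul_of_nonneg_left k11 hK.le) hpos.le
  nlinarith

end Pool.Agent.EQ
end
end

-- part Pool.Agent.P.MP_ad7a55_nt.YGh
section

/-! Large intersections are impossible. -/

set_option autoImplicit false

noncomputable section

open Finset Matrix
open scoped MatrixGroups Classical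

namespace Pool.Agent.EQ

theorem ygh_lrg {W : Type} {V : Finset W} {B : Finset ℕ} (hV : V.Nonempty) (hB : B.Nonempty)
    (g : W → ℕ → Prop) {s : ℝ} (hs : 0 ≤ s) (h : ∀ w ∈ V, 2 * s ≤ prb B (g w)) :
    s * #B ≤ #{q ∈ B | s ≤ prb V fun w => g w q} := by
  have hn : (0 : ℝ) < #B := by exact_mod_cast hB.card_pos
  have h1 : 2 * s ≤ mn B fun q => prb V fun w => g w q := by
    have h2 : mn V (fun _ => 2 * s) ≤ mn V fun w => mn B fun q => if g w q then (1 : ℝ) else 0 :=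
      mn_mono fun w hw => (h w hw).trans_eq (pb_eq B (g w))
    rw [mn_const hV, mn_swap] at h2
    refine h2.trans_eq (congrArg _ (funext fun q => ?_))
    rw [pb_eq]
  have h3 := pb_rev (O := B) (G := fun q => prb V fun w => g w q) (B := 1) (t := s) one_pos
    (fun q _ => pb_le_one _ _) hs
  have h4 : s ≤ prb B fun q => s ≤ prb V fun w => g w q := by linarith
  unfold prb at h4
  rw [le_div_iff₀ hn] at h4
  refine h4.trans_eq ?_
  rw [Nat.cast_inj]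
  exact congrArg _ (Finset.filter_congr_decidable ..)

theorem ygh_pig {κ : Type} [Fintype κ] [Nonempty κ] (S : Finset ℕ) (T : κ → Finset ℕ)
    (h : ∀ q ∈ S, ∃ z, q ∈ T z) : ∃ z, (#S : ℝ) ≤ Fintype.card κ * #(T z) := by
  obtain ⟨z, -, hz⟩ := Finset.exists_max_image (univ : Finset κ) (fun z => #(T z)) univ_nonempty
  refine ⟨z, ?_⟩
  have h1 : #S ≤ ∑ z : κ, #(T z) :=
    (Finset.card_le_card fun q hq => by
      obtain ⟨z, hz⟩ := h q hq
      exact Finset.mem_biUnion.2 ⟨z, Finset.mem_univ _, hz⟩).trans Finset.card_biUnion_le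
  have h2 : ∑ z : κ, #(T z) ≤ Fintype.card κ * #(T z) := by
    refine (Finset.sum_le_card_nsmul _ _ _ hz).trans_eq ?_
    rw [Finset.card_univ, smul_eq_mul]
  exact_mod_cast h1.trans h2

theorem ygh_sub {ι : Type} [Fintype ι] (S : Finset ℕ) (D : ι → Finset ℕ) {b : ℕ}
    (h : ∀ k, #(D k) ≤ b) :
    (#S : ℝ) ≤ #{q ∈ S | ∀ k, q ∉ D k} + Fintype.card ι * b := by
  have h1 : S ⊆ {q ∈ S | ∀ k, q ∉ D k} ∪ univ.biUnion D := fun q hq => by
    by_cases h2 : ∀ k, q ∉ D k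
    · exact Finset.mem_union_left _ (Finset.mem_filter.2 ⟨hq, h2⟩)
    · push Not at h2
      obtain ⟨k, hk⟩ := h2
      exact Finset.mem_union_right _ (Finset.mem_biUnion.2 ⟨k, Finset.mem_univ _, hk⟩)
  have h2 : #(univ.biUnion D) ≤ Fintype.card ι * b := by
    refine Finset.card_biUnion_le.trans ((Finset.sum_le_card_nsmul _ _ b fun k _ => h k).trans_eq ?_)
    rw [Finset.card_univ, smul_eq_mul]
  have h3 := (Finset.card_le_card h1).trans (Finset.card_union_le _ _)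
  exact_mod_cast h3.trans (Nat.add_le_add_left h2 _)

theorem ygh_light {W ι : Type} [Fintype ι] (V : Finset W) (g : W → Prop) (F : ι → W → ℝ)
    {s φ a : ℝ} (h1 : s ≤ prb V g) (h2 : ∀ k, prb V (fun w => a < F k w) ≤ φ) :
    s - Fintype.card ι * φ ≤ prb V fun w => (∀ k, F k w ≤ a) ∧ g w := by
  have h3 := pb_exists V (univ : Finset ι) fun k w => a < F k w
  have h4 : ∑ k : ι, prb V (fun w => a < F k w) ≤ Fintype.card ι * φ := by
    refine (Finset.sum_le_card_nsmul _ _ φ fun k _ => h2 k).trans_eq ?_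
    rw [Finset.card_univ, nsmul_eq_mul]
  have h5 := pb_sub V g fun w => ∃ k ∈ (univ : Finset ι), a < F k w
  have h6 : prb V (fun w => g w ∧ ¬ ∃ k ∈ (univ : Finset ι), a < F k w) ≤
      prb V fun w => (∀ k, F k w ≤ a) ∧ g w :=
    pb_mono fun w _ hw => ⟨fun k => not_lt.1 fun hk => hw.2 ⟨k, Finset.mem_univ _, hk⟩, hw.1⟩
  linarith

theorem ygh_ndvd {q : ℕ} (hq : q.Prime) {β β' : Finset ℕ} (h : ∀ l ∈ β, l.Prime)
    (h' : ∀ l ∈ β', l.Prime) (hb : q ∉ β) (hb' : q ∉ β') :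
    ¬ (q : ℤ) ∣ (((∏ l ∈ β, l) * ∏ l ∈ β', l : ℕ) : ℤ) := by
  rw [Int.natCast_dvd_natCast, hq.dvd_mul, hq.prime.dvd_finsetProd_iff,
    hq.prime.dvd_finsetProd_iff]
  rintro (⟨l, hl, e⟩ | ⟨l, hl, e⟩)
  · exact hb (((Nat.prime_dvd_prime_iff_eq hq (h l hl)).1 e) ▸ hl)
  · exact hb' (((Nat.prime_dvd_prime_iff_eq hq (h' l hl)).1 e) ▸ hl)

theorem RD.Big.false {α ι γ δ : Type} [Fintype ι] [Nonempty ι] {d : RD α ι γ δ} {y p C₁ : ℕ}
    {H Λ δ₀ : ℝ} (h : d.Ok6 y p H Λ δ₀ C₁) (hΛ : 0 < Λ) {L u : ℕ} {pr : Fin L → Fin u → ℕ}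
    {B : Finset ℕ} (hG : d.Grp p pr B) {σ c₀ c e ε C I θ : ℝ} {q₀ r b : ℕ} (hθ : 0 < θ)
    (hc : 0 ≤ c) (he : 0 ≤ e) (hε : 0 ≤ ε) (hC : 0 ≤ C) (hGL : GLQ ι c₀ c e q₀)
    (hCT : CT6 (2 * H ^ 2) ε C) (hσ : σ ≤ Fintype.card ι - c₀)
    {V : Finset (α × (Fin L → Fin u) × (Fin L → Fin u))} {R R' : ℕ → Finset (ι → Set V2)}
    (hV : d.Big pr B σ c (θ ^ 4 / 16) (θ ^ 4 / 32 * Real.exp (-(2 * I)))
      (32 * Fintype.card ι * Λ / θ ^ 4) V R R')
    (hN : Num6 (Fintype.card ι) y L u r b (#B) p q₀ C₁ H Λ θ c e ε C I) : False := by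
  have hy := hN.y₂
  have hm : (0 : ℝ) < Fintype.card ι := by exact_mod_cast Fintype.card_pos
  have hyR : (0 : ℝ) < y := by exact_mod_cast (by omega : 0 < y)
  have hu : (0 : ℝ) < u := by exact_mod_cast hG.pos
  have hO : (0 : ℝ) < #d.O := by exact_mod_cast h.ne.card_pos
  have hv : 0 < θ ^ 4 / 32 * Real.exp (-(2 * I)) := by positivity
  have hVne : V.Nonempty := by
    have h1 : (0 : ℝ) < #V := lt_of_lt_of_le (by positivity) hV.card
    exact Finset.card_pos.1 (by exact_mod_cast h1)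
  have hBne : B.Nonempty := by
    obtain ⟨w, hw⟩ := hVne
    rcases B.eq_empty_or_nonempty with e0 | e0
    · have h1 := hV.lrg w hw
      rw [e0] at h1
      simp only [prb, Finset.filter_empty, Finset.card_empty, Nat.cast_zero, div_zero] at h1
      have : 0 < θ ^ 4 / 16 := by positivity
      linarith
    · exact e0
  have hn : (0 : ℝ) < #B := by exact_mod_cast hBne.card_pos
  have b1 := ygh_lrg hVne hBne (fun w q => (q : ℝ) ^ (σ - c) ≤
    #{ξ ∈ R q | (fun k => img (d.gm (bs pr w.2.1) (bs pr w.2.2) w.1 k) (ξ k)) ∈ R' q})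
    (s := θ ^ 4 / 32) (by positivity) fun w hw => le_trans (le_of_eq (by ring)) (hV.lrg w hw)
  obtain ⟨D, hD⟩ : ∃ D : ι → Finset ℕ, ∀ k q, q ∈ D k ↔ q ∈ B ∧
      θ ^ 4 / (64 * (Fintype.card ι : ℝ)) ≤ prb V fun w => (q : ℝ) ^ (c - 3) < prb V fun w' =>
        Pj q (d.gm (bs pr w'.2.1) (bs pr w'.2.2) w'.1 k) =
          Pj q (d.gm (bs pr w.2.1) (bs pr w.2.2) w.1 k) :=
    ⟨fun k => B.filter _, fun k q => Finset.mem_filter⟩
  have hDb : ∀ k, #(D k) ≤ b := fun k => by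
    by_contra hlt
    obtain ⟨E, hE, hEb⟩ := Finset.exists_subset_card_eq (not_le.1 hlt).le
    have mg := hV.marg h hy hG hv (by positivity) hε hC hCT
      (φ := θ ^ 4 / (64 * (Fintype.card ι : ℝ))) (by positivity) hc k (E := E)
      (fun q hq => ((hD k q).1 (hE hq)).1) hN.u₁ (by rw [hEb]; exact hN.n₃)
      (by rw [hEb]; exact hN.n₄) fun q hq => ((hD k q).1 (hE hq)).2
    rw [hEb] at mg
    exact absurd hN.n₂ (not_lt.2 mg)
  obtain ⟨T, hT⟩ : ∃ T : ι × ι → Finset ℕ, ∀ z q, q ∈ T z ↔ q ∈ B ∧ z.1 ≠ z.2 ∧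
      ∃ X X' : M2, ¬ (q : ℤ) ∣ X.det ∧ (2 * y : ℝ) ^ (-e) * #V ≤ #{w ∈ V | ∀ i j, (q : ℤ) ∣
        (d.gm (bs pr w.2.1) (bs pr w.2.2) w.1 z.2 * X -
          X' * d.gm (bs pr w.2.1) (bs pr w.2.2) w.1 z.1) i j} :=
    ⟨fun z => B.filter _, fun z q => Finset.mem_filter⟩
  obtain ⟨S, b2, hS⟩ : ∃ S : Finset ℕ, θ ^ 4 / 32 * #B ≤ #S + (Fintype.card ι : ℝ) * b ∧
      ∀ q ∈ S, (q ∈ B ∧ θ ^ 4 / 32 ≤ prb V fun w => (q : ℝ) ^ (σ - c) ≤
        #{ξ ∈ R q | (fun k => img (d.gm (bs pr w.2.1) (bs pr w.2.2) w.1 k) (ξ k)) ∈ R' q}) ∧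
        ∀ k, q ∉ D k :=
    ⟨_, b1.trans (ygh_sub _ D hDb), fun q hq =>
      ⟨Finset.mem_filter.1 (Finset.mem_filter.1 hq).1, (Finset.mem_filter.1 hq).2⟩⟩
  obtain ⟨z, hz⟩ := ygh_pig S T fun q hq => by
    obtain ⟨⟨hq1, hq2⟩, hq3⟩ := hS q hq
    obtain ⟨p1, p2, p3⟩ := h.prime q (hG.sub hq1)
    have q0 : (0 : ℝ) < q := by exact_mod_cast p1.pos
    have a1 := ygh_light V _ (fun k w => prb V fun w' =>
      Pj q (d.gm (bs pr w'.2.1) (bs pr w'.2.2) w'.1 k) =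
        Pj q (d.gm (bs pr w.2.1) (bs pr w.2.2) w.1 k)) (a := (q : ℝ) ^ (c - 3))
      (φ := θ ^ 4 / (64 * (Fintype.card ι : ℝ))) hq2
      fun k => (not_le.1 fun hk => hq3 k ((hD k q).2 ⟨hq1, hk⟩)).le
    have a2 : (q : ℝ) ^ (-c) ≤
        θ ^ 4 / 32 - Fintype.card ι * (θ ^ 4 / (64 * (Fintype.card ι : ℝ))) := by
      have e1 : θ ^ 4 / 32 - Fintype.card ι * (θ ^ 4 / (64 * (Fintype.card ι : ℝ))) =
          θ ^ 4 / 64 := by
        field_simp
        ring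
      rw [e1]
      exact (Real.rpow_le_rpow_of_nonpos hyR (by exact_mod_cast p2.le) (by linarith)).trans hN.n₁
    obtain ⟨s1, s2, s3, s4⟩ := hV.sz q hq1
    obtain ⟨k, l, hkl, X, X', x1, x2⟩ := hGL q p1 (hN.y₁.trans p2.le) _ V
      (fun w k => d.gm (bs pr w.2.1) (bs pr w.2.2) w.1 k)
      (fun w => (((∏ l ∈ bs pr w.2.1, l) * ∏ l ∈ bs pr w.2.2, l : ℕ) : ℤ)) (R q) (R' q) σ hVne
      (fun w hw => by
        obtain ⟨c1, -, c2, c3⟩ := hG.bs w.2.1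
        obtain ⟨c4, -, c5, c6⟩ := hG.bs w.2.2
        exact ⟨ygh_ndvd p1 (fun l hl => (h.prime l (c1 hl)).1) (fun l hl => (h.prime l (c4 hl)).1)
          (fun e0 => Finset.disjoint_left.1 c3 e0 hq1) fun e0 => Finset.disjoint_left.1 c6 e0 hq1,
          fun k => h.gm_det c1 c2 c4 c5 (hV.mem w hw).1 k⟩) s1 s2 s3 s4 hσ (a2.trans a1)
    refine ⟨(k, l), (hT _ _).2 ⟨hq1, hkl, X, X', x1, le_trans ?_ x2⟩⟩
    refine mul_le_mul_of_nonneg_right ?_ (by positivity)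
    exact Real.rpow_le_rpow_of_nonpos q0 (by exact_mod_cast p3) (by linarith)
  have b3 : θ ^ 4 / (64 * (Fintype.card ι : ℝ) ^ 2) * #B ≤ #(T z) := by
    rw [Fintype.card_prod, Nat.cast_mul] at hz
    have e1 : θ ^ 4 / (64 * (Fintype.card ι : ℝ) ^ 2) * #B =
        θ ^ 4 / 64 * #B / (Fintype.card ι * Fintype.card ι) := by
      field_simp
    rw [e1, div_le_iff₀ (by positivity)]
    have := hN.n₅
    linarith
  have hTne : (T z).Nonempty := by
    have h1 : (0 : ℝ) < #(T z) := lt_of_lt_of_le (by positivity) b3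
    exact Finset.card_pos.1 (by exact_mod_cast h1)
  obtain ⟨q1, hq1⟩ := hTne
  have he0 : (0 : ℝ) < (2 * y : ℝ) ^ (-e) := by positivity
  have xc := hV.xc h hy hΛ.le hG hv.le ((hT z q1).1 hq1).2.1 (B' := T z)
    (fun q hq => ((hT z q).1 hq).1) he0 (fun q hq => ((hT z q).1 hq).2.2) hN.r₀ hN.u₂ hN.p₁ hN.n₆
    (hN.n₇.trans (mul_le_mul_of_nonneg_left b3 (by positivity))) hN.n₈
  exact absurd hN.n₉ (not_lt.2 xc)

end Pool.Agent.EQ
end
end

-- part Pool.Agent.P.MP_ad7a55_nt.Good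
section

/-! Discarding small sets of bad points. -/

set_option autoImplicit false

noncomputable section

open MeasureTheory Topology Filter UpperHalfPlane
open scoped MatrixGroups ENNReal BoundedContinuousFunction

namespace Pool.Agent.EQ

open Classical in
theorem good_union {α ι : Type} {L : Filter ℕ} (O : ℕ → Finset α) (bad : ι → ℕ → α → Prop)
    (hbad : ∀ m, ∀ δ : ℝ, 0 < δ → ∀ᶠ i in L,
      ({z | z ∈ O i ∧ bad m i z}.ncard : ℝ) ≤ δ * (O i).card) {f : ι → ℕ}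
    (hf : Function.Injective f) (K : ℕ) : ∀ δ : ℝ, 0 < δ → ∀ᶠ i in L,
      (((O i).filter fun z => ∃ m, f m < K ∧ bad m i z).card : ℝ) ≤ δ * (O i).card := by
  induction K with
  | zero => exact fun δ hδ => Eventually.of_forall fun i => by simp; positivity
  | succ K ih =>
    intro δ hδ
    by_cases hK : ∃ m, f m = K
    · obtain ⟨m, hm⟩ := hK
      filter_upwards [ih _ (half_pos hδ), hbad m _ (half_pos hδ)] with i h1 h2
      have e : {z | z ∈ O i ∧ bad m i z} = ((O i).filter (bad m i) : Finset α) := by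
        ext z
        simp
      rw [e, Set.ncard_coe_finset] at h2
      have h3 : ((O i).filter fun z => ∃ m, f m < K + 1 ∧ bad m i z) ⊆
          ((O i).filter fun z => ∃ m, f m < K ∧ bad m i z) ∪ (O i).filter (bad m i) := by
        intro z hz
        simp only [Finset.mem_union, Finset.mem_filter] at hz ⊢
        obtain ⟨hz, m', h4, h5⟩ := hz
        rcases Nat.lt_succ_iff_lt_or_eq.1 h4 with h6 | h6
        · exact Or.inl ⟨hz, m', h6, h5⟩
        · exact Or.inr ⟨hz, hf (h6.trans hm.symm) ▸ h5⟩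
      have h4 := (Finset.card_le_card h3).trans (Finset.card_union_le _ _)
      have h5 : (((O i).filter fun z => ∃ m, f m < K + 1 ∧ bad m i z).card : ℝ) ≤
          ((O i).filter fun z => ∃ m, f m < K ∧ bad m i z).card +
            ((O i).filter (bad m i)).card := by exact_mod_cast h4
      linarith
    · filter_upwards [ih δ hδ] with i h1
      refine le_trans ?_ h1
      refine Nat.cast_le.2 (Finset.card_le_card fun z hz => ?_)
      simp only [Finset.mem_filter] at hz ⊢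
      obtain ⟨hz, m', h4, h5⟩ := hz
      exact ⟨hz, m', lt_of_le_of_ne (Nat.lt_succ_iff.1 h4) fun e => hK ⟨m', e⟩, h5⟩

open Classical in
theorem good_avg_le {α : Type} {O : Finset α} (hO : O.Nonempty) (G : α → ℝ) {A B δ : ℝ}
    (hA : 0 ≤ A) (hB0 : 0 ≤ B) (hB : ∀ z, |G z| ≤ B) (P : α → Prop)
    (h : ∀ z ∈ O, ¬ P z → |G z| ≤ A) (hP : ((O.filter P).card : ℝ) ≤ δ * O.card) :
    |avg O G| ≤ A + B * δ := by
  have hc : (0 : ℝ) < O.card := by exact_mod_cast hO.card_pos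
  rw [avg, abs_div, abs_of_pos hc, div_le_iff₀ hc]
  refine (Finset.abs_sum_le_sum_abs _ _).trans ?_
  calc ∑ z ∈ O, |G z| ≤ ∑ z ∈ O, (A + if P z then B else 0) := by
        refine Finset.sum_le_sum fun z hz => ?_
        split_ifs with e
        · linarith [hB z]
        · linarith [h z hz e]
    _ = O.card * A + (O.filter P).card * B := by
        rw [Finset.sum_add_distrib, ← Finset.sum_filter]
        simp
    _ ≤ _ := by nlinarith [mul_le_mul_of_nonneg_right hP hB0]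

theorem avg_tendsto_of_bad {α ι : Type} [Countable ι] {L : Filter ℕ} (hL : L ≤ atTop)
    (O : ℕ → Finset α) (hO : ∀ i, (O i).Nonempty) (Φ : ℕ → α → ℝ) {B : ℝ}
    (hB : ∀ i z, |Φ i z| ≤ B) (bad : ι → ℕ → α → Prop)
    (hbad : ∀ m, ∀ δ : ℝ, 0 < δ → ∀ᶠ i in L,
      ({z | z ∈ O i ∧ bad m i z}.ncard : ℝ) ≤ δ * (O i).card)
    (h : ∀ z : ℕ → α, (∀ i, z i ∈ O i) → (∀ m, ∀ᶠ i in L, ¬ bad m i (z i)) →
      Tendsto (fun i => Φ i (z i)) L (𝓝 0)) :
    Tendsto (fun i => avg (O i) (Φ i)) L (𝓝 0) := by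
  classical
  obtain ⟨f, hf⟩ := exists_injective_nat ι
  have hB0 : 0 ≤ B := (abs_nonneg _).trans (hB 0 (hO 0).choose)
  let P : ℕ → ℕ → Prop := fun i K =>
    (((O i).filter fun z => ∃ m, f m < K ∧ bad m i z).card : ℝ) ≤ 1 / (K + 2) * (O i).card
  let K : ℕ → ℕ := fun i => Nat.findGreatest (P i) i
  have hP : ∀ i, P i (K i) := fun i =>
    Nat.findGreatest_spec (Nat.zero_le i) (show P i 0 by simp [P])
  have hK : Tendsto K L atTop := tendsto_atTop.2 fun k => by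
    filter_upwards [hL (eventually_ge_atTop k), good_union O bad hbad hf k (1 / (k + 2))
      (by positivity)] with i h1 h2
    exact Nat.le_findGreatest h1 (by convert h2)
  have hne : ∀ i, ((O i).filter fun z => ¬ ∃ m, f m < K i ∧ bad m i z).Nonempty := fun i => by
    by_contra hn
    rw [Finset.not_nonempty_iff_eq_empty, Finset.filter_eq_empty_iff] at hn
    have h1 := hP i
    have hc : (0 : ℝ) < (O i).card := by exact_mod_cast (hO i).card_pos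
    simp only [P] at h1
    rw [Finset.filter_true_of_mem fun z hz => not_not.1 (hn hz)] at h1
    have h2 : 1 / ((K i : ℝ) + 2) ≤ 1 / 2 :=
      one_div_le_one_div_of_le two_pos (by linarith [Nat.cast_nonneg (α := ℝ) (K i)])
    nlinarith
  choose z hz hmax using fun i => Finset.exists_max_image _ (fun z => |Φ i z|) (hne i)
  have h1 := h z (fun i => (Finset.mem_filter.1 (hz i)).1) fun m => by
    filter_upwards [hK.eventually_gt_atTop (f m)] with i hi hb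
    exact (Finset.mem_filter.1 (hz i)).2 ⟨m, hi, hb⟩
  have h2 : Tendsto (fun i => 1 / ((K i : ℝ) + 2)) L (𝓝 0) :=
    tendsto_const_nhds.div_atTop
      (tendsto_atTop_add_const_right _ _ (tendsto_natCast_atTop_atTop.comp hK))
  have h3 := h1.abs.add (h2.const_mul B)
  rw [abs_zero, mul_zero, add_zero] at h3
  refine squeeze_zero_norm (fun i => ?_) h3
  exact good_avg_le (hO i) (Φ i) (abs_nonneg _) hB0 (hB i) (fun z => ∃ m, f m < K i ∧ bad m i z)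
    (fun w hw hn => hmax i w (Finset.mem_filter.2 ⟨hw, hn⟩)) (by convert hP i)

end Pool.Agent.EQ
end
end

-- part Pool.Agent.P.MP_ad7a55_nt.Main
section

/-! The main theorem. -/

set_option autoImplicit false

noncomputable section

open MeasureTheory Topology Filter UpperHalfPlane
open scoped MatrixGroups ENNReal BoundedContinuousFunction

namespace Pool.Agent.EQ

theorem noIsog_of_finite {n : ℕ} (τ : ℕ → Fin n → ℍ)
    (hgen : ∀ k l, k ≠ l → ∀ a b c d : ℤ, 0 < a * d - b * c →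
      {i | ∃ z w : ℍ, (w : ℂ) = (a * z + b) / (c * z + d) ∧ jInv (τ i k) = jInv z ∧
        jInv (τ i l) = jInv w}.Finite) : NoIsog τ := by
  intro k l hkl N hN
  have hfin := ((Set.finite_Icc (1 : ℤ) (N ^ 2)).prod ((Set.finite_Icc (0 : ℤ) (N ^ 2)).prod
    (Set.finite_Icc (1 : ℤ) (N ^ 2)))).biUnion (t := fun w =>
      {i | ∃ z w' : ℍ, (w' : ℂ) = (w.1 * z + w.2.1) / ((0 : ℤ) * z + w.2.2) ∧
        jInv (τ i l) = jInv z ∧ jInv (τ i k) = jInv w'}) fun w hw =>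
      hgen l k hkl.symm w.1 w.2.1 0 w.2.2 (by
        have h1 := hw.1.1
        have h2 := hw.2.2.1
        nlinarith)
  rw [← Nat.cofinite_eq_atTop]
  filter_upwards [hfin.compl_mem_cofinite] with i hi σ hσ
  obtain ⟨a, d, b, ha, ha', hd, hd', hb, hb', w, hw, hj⟩ := isog_gal σ hN hσ
  refine hi (Set.mem_biUnion (x := ((d : ℤ), b, (a : ℤ))) ⟨⟨?_, ?_⟩, ⟨hb, ?_⟩, ?_, ?_⟩
    ⟨τ i l, w, by simpa using hw, rfl, hj⟩)
  · change (1 : ℤ) ≤ d
    exact_mod_cast hd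
  · change (d : ℤ) ≤ N ^ 2
    exact_mod_cast hd'
  · exact hb'.le.trans (by exact_mod_cast ha')
  · change (1 : ℤ) ≤ a
    exact_mod_cast ha
  · change (a : ℤ) ≤ N ^ 2
    exact_mod_cast ha'

theorem main_ind {n : ℕ} (F : IntermediateField ℚ ℂ) [FiniteDimensional ℚ F] (S : Finset ℕ)
    (hS : ∀ p ∈ S, p.Prime) (τ : ℕ → Fin n → ℍ) (D : ℕ → Fin n → ℤ)
    (hD : ∀ i k, HasDisc (τ i k) (D i k))
    (hdom : ∀ k, ∀ C : ℝ, ∀ᶠ i in atTop, ∃ p ∈ S,
      C * |(D i k : ℝ)| ≤ ((p : ℝ) ^ padicValInt p (D i k)) ^ 2)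
    (hgen : NoIsog τ) (𝒰 : Ultrafilter ℕ) (h𝒰 : (𝒰 : Filter ℕ) ≤ atTop)
    (f : Fin n → (ℂ →ᵇ ℝ)) (I : Finset (Fin n)) :
    Tendsto (fun i => avg (orbit_finite F (hD i)).toFinset (fun z => ∏ k ∈ I, f k (z k))) 𝒰
      (𝓝 (∏ k ∈ I, ∫ z, f k z ∂mY)) := by
  classical
  have hneg : ∀ i k, D i k < 0 := fun i k => (hD i k).isD.1
  have hbig : ∀ᶠ i in 𝒰, ∀ k, D i k < -576 := by
    refine h𝒰 (eventually_all.2 fun k => (hdom k 577).mono ?_)
    rintro i ⟨p, hp, h⟩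
    have h1 : ((p : ℤ) ^ padicValInt p (D i k)) ≤ |D i k| :=
      Int.le_of_dvd (abs_pos.2 (hneg i k).ne) ((dvd_abs _ _).2 (padicValInt_dvd _))
    have h2 : ((p : ℝ) ^ padicValInt p (D i k)) ≤ |(D i k : ℝ)| := by exact_mod_cast h1
    have h3 : (D i k : ℝ) < 0 := by exact_mod_cast hneg i k
    have h4 : ((p : ℝ) ^ padicValInt p (D i k)) ^ 2 ≤ |(D i k : ℝ)| ^ 2 := by gcongr
    rw [abs_of_neg h3] at h h4
    have h5 : (D i k : ℝ) < -576 := by nlinarith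
    exact_mod_cast h5
  induction I using Finset.strongInduction with
  | H I ih =>
    rcases I.eq_empty_or_nonempty with rfl | hI
    · have : ∀ i, avg (orbit_finite F (hD i)).toFinset
          (fun z => ∏ k ∈ (∅ : Finset (Fin n)), f k (z k)) = 1 := fun i => by
        have h1 : (orbit_finite F (hD i)).toFinset.Nonempty :=
          ⟨_, (orbit_finite F (hD i)).mem_toFinset.2 (orbit_self F _)⟩
        have h2 : ((orbit_finite F (hD i)).toFinset.card : ℝ) ≠ 0 := by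
          exact_mod_cast h1.card_pos.ne'
        simp only [avg, Finset.prod_empty, Finset.sum_const, nsmul_eq_mul, mul_one]
        exact div_self h2
      rw [funext this, Finset.prod_empty]
      exact tendsto_const_nhds
    obtain ⟨j₀, hj₀, h0⟩ := ultra_max 𝒰 hI fun i k => -(D i k : ℝ)
    have hSne : S.Nonempty := by
      obtain ⟨i, p, hp, -⟩ := (hdom j₀ 0).exists
      exact ⟨p, hp⟩
    obtain ⟨p, hp, h1⟩ := ultra_max 𝒰 hSne fun i p => (p : ℝ) ^ padicValInt p (D i j₀)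
    obtain ⟨j, hj, h2⟩ := ultra_max 𝒰 hI fun i k => padicValInt p (D i k)
    have : Fact p.Prime := ⟨hS p hp⟩
    have hp1 : (1 : ℝ) < p := by exact_mod_cast (hS p hp).one_lt
    obtain ⟨J, hJI, hjJ, hJ⟩ := main_step F τ D hD hgen 𝒰 h𝒰 hbig p I j hj h2 (fun C => by
      filter_upwards [h0, h1, h2, h𝒰 (hdom j₀ (C ^ 2))] with i h0 h1 h2 h3 k hk
      obtain ⟨q, hq, h3⟩ := h3
      have h4 : (D i j₀ : ℝ) < 0 := by exact_mod_cast hneg i j₀
      have h5 : (D i k : ℝ) < 0 := by exact_mod_cast hneg i k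
      refine le_trans ?_ (pow_le_pow_right₀ hp1.le (h2 j₀ hj₀))
      refine le_trans ?_ (h1 q hq)
      refine (le_abs_self _).trans (abs_le_of_sq_le_sq ?_ (by positivity))
      rw [mul_pow, Real.sq_sqrt (by linarith)]
      refine le_trans ?_ h3
      rw [abs_of_neg h4]
      exact mul_le_mul_of_nonneg_left (h0 k hk) (sq_nonneg _)) f
    have h3 := ih (I \ J) (Finset.sdiff_ssubset hJI ⟨j, hjJ⟩)
    have h4 := hJ.add (h3.const_mul (∏ k ∈ J, ∫ z, f k z ∂mY))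
    simp only [sub_add_cancel, zero_add] at h4
    rwa [mul_comm, Finset.prod_sdiff hJI] at h4

/-- The uniform measure on a finite set. -/
def unif {α : Type} [MeasurableSpace α] (O : Finset α) : Measure α :=
  (O.card : ℝ≥0∞)⁻¹ • ∑ z ∈ O, Measure.dirac z

theorem unif_prob {α : Type} [MeasurableSpace α] {O : Finset α} (hO : O.Nonempty) :
    IsProbabilityMeasure (unif O) := by
  refine ⟨?_⟩
  simp only [unif, Measure.smul_apply, Measure.coe_finsetSum, Finset.sum_apply, measure_univ,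
    Finset.sum_const, nsmul_eq_mul, mul_one, smul_eq_mul]
  exact ENNReal.inv_mul_cancel (by exact_mod_cast hO.card_pos.ne') (by simp)

theorem integral_unif {α : Type} [MeasurableSpace α] [MeasurableSingletonClass α] (O : Finset α)
    (G : α → ℝ) : ∫ x, G x ∂unif O = avg O G := by
  rw [unif, integral_smul_measure, integral_finsetSum_measure fun z _ => integrable_dirac (by simp)]
  simp [avg, div_eq_inv_mul]

/-- From products along ultrafilters to the final statement. -/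
theorem final_of_prod {n : ℕ} (O : ℕ → Set (Fin n → ℂ)) (hO : ∀ i, (O i).Finite)
    (hne : ∀ i, (O i).Nonempty)
    (h : ∀ 𝒰 : Ultrafilter ℕ, (𝒰 : Filter ℕ) ≤ atTop → ∀ f : Fin n → (ℂ →ᵇ ℝ),
      Tendsto (fun i => avg (hO i).toFinset (fun z => ∏ k, f k (z k))) 𝒰
        (𝓝 (∏ k, ∫ z, f k z ∂mY)))
    (f : (Fin n → ℂ) → ℝ) (hf : Continuous f) (hc : HasCompactSupport f) :
    Tendsto (fun i => (∑ᶠ y ∈ O i, f y) / (O i).ncard) atTop
      (𝓝 (∫ y, f y ∂(Measure.pi fun _ : Fin n => mY))) := by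
  have : ∀ i, IsProbabilityMeasure (unif (hO i).toFinset) := fun i =>
    unif_prob (by simpa using hne i)
  have h1 := WT_of_prod mY (fun i => unif (hO i).toFinset) fun f => by
    simp only [integral_unif]
    exact tendsto_iff_ultrafilter _ _ _ |>.2 fun 𝒰 h𝒰 => h 𝒰 h𝒰 f
  obtain ⟨B, hB⟩ := hf.bounded_above_of_compact_support hc
  have h2 := h1 (BoundedContinuousFunction.ofNormedAddCommGroup f hf B hB)
  simp only [integral_unif] at h2
  refine h2.congr fun i => ?_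
  rw [avg, finsum_mem_eq_finite_toFinset_sum _ (hO i), Set.ncard_eq_toFinset_card _ (hO i)]
  rfl

theorem main {n : ℕ} (F : IntermediateField ℚ ℂ) [FiniteDimensional ℚ F] (S : Finset ℕ)
    (hS : ∀ p ∈ S, p.Prime) (τ : ℕ → Fin n → ℍ) (D : ℕ → Fin n → ℤ)
    (hD : ∀ i k, HasDisc (τ i k) (D i k))
    (hdom : ∀ k, ∀ C : ℝ, ∀ᶠ i in atTop, ∃ p ∈ S,
      C * |(D i k : ℝ)| ≤ ((p : ℝ) ^ padicValInt p (D i k)) ^ 2)
    (hgen : ∀ k l, k ≠ l → ∀ a b c d : ℤ, 0 < a * d - b * c →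
      {i | ∃ z w : ℍ, (w : ℂ) = (a * z + b) / (c * z + d) ∧ jInv (τ i k) = jInv z ∧
        jInv (τ i l) = jInv w}.Finite)
    (f : (Fin n → ℂ) → ℝ) (hf : Continuous f) (hc : HasCompactSupport f) :
    (∀ i, (galOrbit F fun k => jInv (τ i k)).Finite) ∧
      Tendsto (fun i => (∑ᶠ y ∈ galOrbit F (fun k => jInv (τ i k)), f y) /
        (galOrbit F fun k => jInv (τ i k)).ncard) atTop
        (𝓝 (∫ y, f y ∂(Measure.pi fun _ : Fin n => mY))) :=
  ⟨fun i => orbit_finite F (hD i), final_of_prod _ (fun i => orbit_finite F (hD i))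
    (fun _ => ⟨_, orbit_self F _⟩)
    (fun 𝒰 h𝒰 g => main_ind F S hS τ D hD hdom (noIsog_of_finite τ hgen) 𝒰 h𝒰 g Finset.univ)
    f hf hc⟩

end Pool.Agent.EQ
end
end

-- part Pool.Agent.P.MP_ad7a55_nt.TCn
section

/-! The counts. -/

set_option autoImplicit false

noncomputable section

open Finset Matrix

namespace Pool.Agent.EQ

theorem tcn_log (A : ℕ) (c : ℝ) : ∃ N₀ : ℕ, ∀ N : ℕ, N₀ ≤ N →
    c * Real.log N ^ A ≤ (N : ℝ) ^ (1 / 400 : ℝ) := by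
  have h := (isLittleO_log_rpow_rpow_atTop (A : ℝ) (by norm_num : (0 : ℝ) < 1 / 400)).bound
    (show (0 : ℝ) < 1 / (|c| + 1) by positivity)
  obtain ⟨x, hx⟩ := Filter.eventually_atTop.1 h
  refine ⟨⌈x⌉₊ + 1, fun N hN => ?_⟩
  have h1 : x ≤ N := (Nat.le_ceil x).trans (by exact_mod_cast (by omega : ⌈x⌉₊ ≤ N))
  have h2 := hx N h1
  have h3 : 0 ≤ Real.log N ^ A := pow_nonneg (Real.log_natCast_nonneg N) A
  have h4 : 0 ≤ (N : ℝ) ^ (1 / 400 : ℝ) := by positivity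
  rw [Real.rpow_natCast, Real.norm_of_nonneg h3, Real.norm_of_nonneg h4, one_div_mul_eq_div,
    le_div_iff₀ (by positivity)] at h2
  nlinarith [le_abs_self c]

theorem tcn_logge (c : ℝ) : ∃ N₀ : ℕ, ∀ N : ℕ, N₀ ≤ N → c ≤ Real.log N := by
  refine ⟨⌈Real.exp c⌉₊, fun N hN => ?_⟩
  have h : Real.exp c ≤ N := (Nat.le_ceil _).trans (by exact_mod_cast hN)
  exact (Real.le_log_iff_exp_le ((Real.exp_pos c).trans_le h)).2 h

theorem tcn_pow (N n : ℕ) : ((N : ℝ) ^ (1 / 400 : ℝ)) ^ n = (N : ℝ) ^ ((n : ℝ) / 400) := by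
  rw [← Real.rpow_natCast, ← Real.rpow_mul (Nat.cast_nonneg N)]
  congr 1
  ring

theorem tcn_full_pow (N : ℕ) : ((N : ℝ) ^ (1 / 400 : ℝ)) ^ 400 = N := by
  rw [tcn_pow]
  norm_num

theorem tcn_t {N : ℕ} {t : ℝ} (h : t ^ 200 ≤ N) : t ≤ ((N : ℝ) ^ (1 / 400 : ℝ)) ^ 2 := by
  refine le_of_pow_le_pow_left₀ (n := 200) (by norm_num) (by positivity) ?_
  rw [← pow_mul, show 2 * 200 = 400 from rfl, tcn_full_pow]
  exact h

theorem tcn_big (A : ℕ) : ∃ N₀ : ℕ, ∀ N H : ℕ, N₀ ≤ N → N ≤ H ^ 16 → ∀ t : ℝ, 1 ≤ t →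
    t ^ 200 ≤ N → t ^ 2 * Real.log N ^ A ≤ H := by
  obtain ⟨N₀, h⟩ := tcn_log A 1
  refine ⟨N₀ + 1, fun N H hN hH t ht htN => ?_⟩
  have h1 := h N (by omega)
  have h2 := tcn_t htN
  have hN1 : (1 : ℝ) ≤ N := by exact_mod_cast (by omega : 1 ≤ N)
  have hu : 1 ≤ (N : ℝ) ^ (1 / 400 : ℝ) := Real.one_le_rpow hN1 (by norm_num)
  have h3 : ((N : ℝ) ^ (1 / 400 : ℝ)) ^ 25 ≤ H := by
    refine le_of_pow_le_pow_left₀ (n := 16) (by norm_num) (by positivity) ?_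
    rw [← pow_mul, show 25 * 16 = 400 from rfl, tcn_full_pow]
    exact_mod_cast hH
  generalize (N : ℝ) ^ (1 / 400 : ℝ) = u at h1 h2 hu h3
  have h4 : 0 ≤ Real.log N ^ A := pow_nonneg (Real.log_natCast_nonneg N) A
  calc t ^ 2 * Real.log N ^ A ≤ (u ^ 2) ^ 2 * u :=
        mul_le_mul (pow_le_pow_left₀ (by linarith) h2 2) (by linarith) h4 (by positivity)
    _ = u ^ 5 := by ring
    _ ≤ u ^ 25 := pow_le_pow_right₀ hu (by norm_num)
    _ ≤ H := h3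

theorem tcn_rows (Z : Finset (ℤ × ℤ)) (f : ℤ → ℤ → ℝ) (g : ℝ)
    (h : ∀ (Y : ℤ) (T : Finset ℤ), T.Nonempty → (∀ X ∈ T, (X, Y) ∈ Z) → ∑ X ∈ T, f X Y ≤ g) :
    ∑ z ∈ Z, f z.1 z.2 ≤ (Z.image Prod.snd).card * g := by
  rw [← sum_fiberwise_of_maps_to (g := Prod.snd) (t := Z.image Prod.snd)
    (fun z hz => mem_image_of_mem _ hz), ← nsmul_eq_mul]
  refine sum_le_card_nsmul _ _ _ fun Y hY => ?_
  obtain ⟨z, hz, hzY⟩ := mem_image.1 hY
  have e : ∑ z ∈ Z.filter (fun z => z.2 = Y), f z.1 z.2 =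
      ∑ X ∈ (Z.filter (fun z => z.2 = Y)).image Prod.fst, f X Y := by
    rw [sum_image]
    · exact sum_congr rfl fun z hz => by rw [(mem_filter.1 hz).2]
    · intro a ha b hb hab
      exact Prod.ext hab ((mem_filter.1 ha).2.trans (mem_filter.1 hb).2.symm)
  rw [e]
  refine h Y _ ⟨z.1, mem_image_of_mem _ (mem_filter.2 ⟨hz, hzY⟩)⟩ fun X hX => ?_
  obtain ⟨w, hw, rfl⟩ := mem_image.1 hX
  rw [← (mem_filter.1 hw).2]
  exact (mem_filter.1 hw).1

theorem tcn_four {x L : ℝ} (h0 : 0 ≤ x) (h1 : x ≤ L) (hL : 1 ≤ L) : x ^ (4 / 3 : ℝ) ≤ x * L := by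
  rw [show (4 / 3 : ℝ) = 1 + 1 / 3 by norm_num, Real.rpow_add' h0 (by norm_num), Real.rpow_one]
  refine mul_le_mul_of_nonneg_left ?_ h0
  calc x ^ (1 / 3 : ℝ) ≤ L ^ (1 / 3 : ℝ) := Real.rpow_le_rpow h0 h1 (by norm_num)
    _ ≤ L ^ (1 : ℝ) := Real.rpow_le_rpow_of_exponent_le hL (by norm_num)
    _ = L := Real.rpow_one L

namespace Dt

theorem tcn_ma {d : Dt} {κ : ℕ} (h : d.Good κ) : d.m * d.a ≠ 0 := by
  have h1 : (0 : ℤ) < d.G := by exact_mod_cast Nat.mul_pos h.g₁_pos h.g₂_pos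
  exact mul_ne_zero (mul_ne_zero h.n_ne h1.ne') h.a_pos.ne'

theorem tcn_EE : ∃ C : ℝ, 0 < C ∧ ∀ (d : Dt) (H N : ℕ), d.Sz H N → 2 ≤ N →
    1 ≤ C * Real.log N * EE (d.G ^ 2 * d.E) (d.G ^ 2 * d.E).natAbs := by
  obtain ⟨C, hC, h⟩ := EE_log
  refine ⟨8 * C, by positivity, fun d H N hs hN => ?_⟩
  have h1 := hs.low
  have h2 := hs.up
  generalize (d.G ^ 2 * d.E).natAbs = X at h1 h2 ⊢
  have h3 : 2 ≤ X := by
    by_contra hX
    have : X ^ 2 ≤ 1 ^ 2 := Nat.pow_le_pow_left (by omega) 2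
    omega
  have h4 : Real.log X ≤ 8 * Real.log N := by
    have : Real.log X ≤ Real.log ((N : ℝ) ^ 8) :=
      Real.log_le_log (by exact_mod_cast (by omega : 0 < X)) (by exact_mod_cast h1)
    rw [Real.log_pow] at this
    exact_mod_cast this
  refine (h (d.G ^ 2 * d.E) X h3).2.trans (mul_le_mul_of_nonneg_right ?_ (EE_pos _ _).le)
  nlinarith

theorem tcn_small {δ : ℝ} (hδ : 0 < δ) : ∃ N₀ : ℕ, ∀ (d : Dt) (H N : ℕ), d.Sz H N → N₀ ≤ N →
    ∀ t : ℝ, 1 ≤ t → t ^ 200 ≤ N → (N : ℝ) ^ (99 / 100 : ℝ) * H ≤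
      δ / t * N * H * EE (d.G ^ 2 * d.E) (d.G ^ 2 * d.E).natAbs := by
  obtain ⟨C, hC, h⟩ := tcn_EE
  obtain ⟨N₀, h0⟩ := tcn_log 1 (C / δ)
  refine ⟨N₀ + 2, fun d H N hs hN t ht htN => ?_⟩
  have h1 := h d H N hs (by omega)
  have h2 := h0 N (by omega)
  have h3 := tcn_t htN
  have h4 := tcn_full_pow N
  have h5 : (N : ℝ) ^ (99 / 100 : ℝ) = ((N : ℝ) ^ (1 / 400 : ℝ)) ^ 396 := by
    rw [tcn_pow]
    norm_num
  have hN1 : (1 : ℝ) ≤ N := by exact_mod_cast (by omega : 1 ≤ N)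
  have hu : 1 ≤ (N : ℝ) ^ (1 / 400 : ℝ) := Real.one_le_rpow hN1 (by norm_num)
  have hE := EE_pos (d.G ^ 2 * d.E) (d.G ^ 2 * d.E).natAbs
  rw [h5]
  generalize (N : ℝ) ^ (1 / 400 : ℝ) = u at h2 h3 h4 hu
  generalize EE (d.G ^ 2 * d.E) (d.G ^ 2 * d.E).natAbs = e at h1 hE
  rw [pow_one, div_mul_eq_mul_div, div_le_iff₀ hδ] at h2
  have h6 : 1 ≤ u * δ * e := h1.trans (mul_le_mul_of_nonneg_right h2 hE.le)
  have h7 : t ≤ u ^ 4 * δ * e :=
    calc t ≤ u ^ 2 := h3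
      _ ≤ u ^ 3 * 1 := by rw [mul_one]; exact pow_le_pow_right₀ hu (by norm_num)
      _ ≤ u ^ 3 * (u * δ * e) := mul_le_mul_of_nonneg_left h6 (by positivity)
      _ = u ^ 4 * δ * e := by ring
  have ht0 : 0 < t := by linarith
  have h8 : 1 ≤ u ^ 4 * δ * e / t := (one_le_div ht0).2 h7
  have h9 : u ^ 400 = u ^ 396 * u ^ 4 := pow_add u 396 4
  have h10 : 0 ≤ u ^ 396 := pow_nonneg (by linarith) _
  rw [← h4, h9]
  generalize u ^ 396 = v at h10 ⊢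
  calc v * H = v * H * 1 := (mul_one _).symm
    _ ≤ v * H * (u ^ 4 * δ * e / t) := mul_le_mul_of_nonneg_left h8 (by positivity)
    _ = δ / t * (v * u ^ 4) * H * e := by ring

theorem tcn_WS_eq {d : Dt} {S : Finset ℕ} {X Y : ℤ} (hS : S ⊆ d.PP X Y) :
    d.WS S d.Wt X Y = d.WW X Y := by
  rw [WS, WW, mul_comm, prod_sdiff hS]

theorem tcn_WS_le {d : Dt} {S : Finset ℕ} {X Y : ℤ} (hS : S ⊆ d.PP X Y) {w : ℕ → ℤ → ℤ → ℝ}
    (hw : ∀ l ∈ S, 0 ≤ w l X Y ∧ w l X Y ≤ d.Wt l X Y) : d.WS S w X Y ≤ d.WW X Y := by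
  rw [← tcn_WS_eq hS, WS, WS]
  exact mul_le_mul_of_nonneg_right (prod_le_prod (fun l hl => (hw l hl).1) fun l hl => (hw l hl).2)
    (prod_nonneg fun l _ => Wt_nonneg l X Y)

theorem tcn_PP {d : Dt} {κ : ℕ} (h : d.Good κ) {X Y : ℤ} (hB : d.B X Y ≠ 0) {l : ℕ}
    (hl : l.Prime) (hd : (l : ℤ) ∣ 2 * d.n * d.p * d.B X Y) : l ∈ d.PP X Y := by
  have hp : (d.p : ℤ) ≠ 0 := by exact_mod_cast h.prime.ne_zero
  refine Nat.mem_primeFactors.2 ⟨hl, Int.natCast_dvd.1 hd, Int.natAbs_ne_zero.2 ?_⟩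
  exact mul_ne_zero (mul_ne_zero (mul_ne_zero two_ne_zero h.n_ne) hp) hB

theorem tcn_card : ∃ C : ℝ, 0 < C ∧ ∀ (d : Dt) (κ H N : ℕ), d.Good κ → d.Sz H N →
    ∀ U : Finset ℤ, (∀ Y ∈ U, IsSquare (d.Δ₁ Y)) → (U.card : ℝ) ≤ C * Real.sqrt H := by
  obtain ⟨C, hC, h⟩ := div_bound (show (0 : ℝ) < 1 / 4 by norm_num)
  refine ⟨4 * C, by positivity, fun d κ H N hd hs U hU => ?_⟩
  have h0 := tcn_ma hd
  obtain ⟨h1, h2⟩ := card_deg h0
  have h3 : U.card ≤ 2 * (4 * (d.m * d.a).natAbs).divisors.card := by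
    rw [← Set.ncard_coe_finset]
    exact (Set.ncard_le_ncard (fun Y hY => hU Y hY) h1).trans h2
  have h4 := h (4 * (d.m * d.a).natAbs) (by have := Int.natAbs_pos.2 h0; omega)
  have h5 : (((d.m * d.a).natAbs : ℕ) : ℝ) ≤ (H : ℝ) ^ 2 := by
    have := hs.ma
    rw [← Int.natCast_natAbs] at this
    exact_mod_cast this
  have h6 : ((4 * (d.m * d.a).natAbs : ℕ) : ℝ) ^ (1 / 4 : ℝ) ≤ 2 * Real.sqrt H := by
    have e : (2 * Real.sqrt H) ^ 4 = 16 * (H : ℝ) ^ 2 := by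
      rw [mul_pow, show 4 = 2 * 2 from rfl, pow_mul (Real.sqrt H), Real.sq_sqrt (Nat.cast_nonneg H)]
      norm_num
    calc ((4 * (d.m * d.a).natAbs : ℕ) : ℝ) ^ (1 / 4 : ℝ)
        ≤ ((2 * Real.sqrt H) ^ 4) ^ (1 / 4 : ℝ) := by
          refine Real.rpow_le_rpow (Nat.cast_nonneg _) ?_ (by norm_num)
          rw [e, Nat.cast_mul]
          push_cast at h5 ⊢
          nlinarith [sq_nonneg (H : ℝ)]
      _ = 2 * Real.sqrt H := by
          rw [one_div]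
          exact_mod_cast Real.pow_rpow_inv_natCast (by positivity : 0 ≤ 2 * Real.sqrt H)
            (by norm_num : (4 : ℕ) ≠ 0)
  have h7 : (U.card : ℝ) ≤ 2 * ((4 * (d.m * d.a).natAbs).divisors.card : ℝ) := by
    exact_mod_cast h3
  nlinarith

theorem cnt_deg (n : ℤ) (p κ : ℕ) {δ : ℝ} (hδ : 0 < δ) : ∃ A N₀ : ℕ,
    ∀ d : Dt, d.Good κ → d.n = n → d.p = p → ∀ H N : ℕ, d.Sz H N → N₀ ≤ N →
    ∀ t : ℝ, 1 ≤ t → t ^ 2 * Real.log N ^ A ≤ H → t ^ 200 ≤ N → ∀ Z : Finset (ℤ × ℤ),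
    (∀ z ∈ Z, d.Box H N z.1 z.2 ∧ IsSquare (d.Δ₁ z.2)) →
    ∑ z ∈ Z, d.WW z.1 z.2 ≤ δ / t * N * H * EE (d.G ^ 2 * d.E) (d.G ^ 2 * d.E).natAbs := by
  classical
  obtain ⟨K, C, A, N₁, -, hC, hrow⟩ := cnt_row n p κ
  obtain ⟨N₂, hcr⟩ := crude_sum n p κ
  obtain ⟨N₃, hsm⟩ := tcn_small (half_pos hδ)
  obtain ⟨C₁, hC₁, hcard⟩ := tcn_card
  obtain ⟨C₂, hC₂, hEE⟩ := tcn_EE
  obtain ⟨N₄, hlog⟩ := tcn_logge (2 * C₁ * C * C₂ / δ)
  refine ⟨2 * (A + 2), N₁ + N₂ + N₃ + N₄ + 2, fun d hd hn hp H N hs hN t ht htH htN Z hZ => ?_⟩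
  rw [← sum_filter_add_sum_filter_not Z
    (fun z => d.JJ z.1 z.2 ^ 32 ≤ N ∧ d.QQ z.2 ^ 4 ≤ N)]
  have b2 : ∑ z ∈ Z.filter (fun z => ¬ (d.JJ z.1 z.2 ^ 32 ≤ N ∧ d.QQ z.2 ^ 4 ≤ N)),
      d.WW z.1 z.2 ≤ δ / 2 / t * N * H * EE (d.G ^ 2 * d.E) (d.G ^ 2 * d.E).natAbs := by
    refine le_trans (sum_le_sum fun z hz => ?_) ((hcr d hd hn hp H N hs (by omega) _
      fun z hz => ⟨(hZ z (mem_filter.1 hz).1).1, ?_⟩).trans (hsm d H N hs (by omega) t ht htN))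
    · rw [← tcn_WS_eq (empty_subset _)]
      exact WS_le hd (hZ z (mem_filter.1 hz).1).1.ne (empty_subset _) (by simp) (by simp)
    · have := (mem_filter.1 hz).2
      omega
  have hL : 0 ≤ Real.log N := Real.log_natCast_nonneg N
  have b1 := tcn_rows (Z.filter (fun z => d.JJ z.1 z.2 ^ 32 ≤ N ∧ d.QQ z.2 ^ 4 ≤ N)) d.WW
    (C * N * Real.log N ^ A) (by
      intro Y T ⟨X₀, hX₀⟩ hT
      have := (hrow d hd hn hp H N hs (by omega) ∅ (fun _ => 0) d.Wt (fun _ => 0) Y T (by simp)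
        (by simp only [prod_empty, one_pow]; omega) (by simp)
        (fun X hX => ⟨(hZ _ (mem_filter.1 (hT X hX)).1).1, empty_subset _, by simp,
          (mem_filter.1 (hT X hX)).2.1⟩) (mem_filter.1 (hT X₀ hX₀)).2.2).1
      rw [prod_empty, mul_one] at this
      exact le_trans (le_of_eq (sum_congr rfl fun X _ => (tcn_WS_eq (empty_subset _)).symm)) this)
  have b3 := hcard d κ H N hd hs ((Z.filter
    (fun z => d.JJ z.1 z.2 ^ 32 ≤ N ∧ d.QQ z.2 ^ 4 ≤ N)).image Prod.snd) (by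
      intro Y hY
      obtain ⟨z, hz, rfl⟩ := mem_image.1 hY
      exact (hZ z (mem_filter.1 hz).1).2)
  have b4 := b1.trans (mul_le_mul_of_nonneg_right b3 (by positivity))
  have h1 := hEE d H N hs (by omega)
  have h2 := hlog N (by omega)
  have hE := EE_pos (d.G ^ 2 * d.E) (d.G ^ 2 * d.E).natAbs
  have h3 : t * Real.log N ^ (A + 2) ≤ Real.sqrt H := by
    refine Real.le_sqrt_of_sq_le ?_
    rw [mul_pow, ← pow_mul, mul_comm (A + 2)]
    exact htH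
  have h4 : Real.sqrt H * Real.sqrt H = H := Real.mul_self_sqrt (Nat.cast_nonneg H)
  have h5 := Real.sqrt_nonneg (H : ℝ)
  have ht0 : 0 < t := by linarith
  generalize EE (d.G ^ 2 * d.E) (d.G ^ 2 * d.E).natAbs = e at h1 hE b2 ⊢
  generalize Real.sqrt H = s at h3 h4 h5 b4
  generalize Real.log N = L at h1 h2 h3 hL b4
  rw [div_le_iff₀ hδ] at h2
  have h6 : C₁ * C * L ^ A ≤ δ / 2 / t * s * e := by
    rw [div_mul_eq_mul_div, div_mul_eq_mul_div, le_div_iff₀ ht0]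
    calc C₁ * C * L ^ A * t = C₁ * C * L ^ A * t * 1 := (mul_one _).symm
      _ ≤ C₁ * C * L ^ A * t * (C₂ * L * e) := mul_le_mul_of_nonneg_left h1 (by positivity)
      _ = (2 * C₁ * C * C₂) * (L ^ A * t * L * e / 2) := by ring
      _ ≤ (L * δ) * (L ^ A * t * L * e / 2) := mul_le_mul_of_nonneg_right h2 (by positivity)
      _ = δ / 2 * (t * L ^ (A + 2)) * e := by ring
      _ ≤ δ / 2 * s * e := by gcongr
  have h7 : C₁ * s * (C * N * L ^ A) ≤ δ / 2 / t * N * H * e :=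
    calc C₁ * s * (C * N * L ^ A) = C₁ * C * L ^ A * (s * N) := by ring
      _ ≤ δ / 2 / t * s * e * (s * N) := mul_le_mul_of_nonneg_right h6 (by positivity)
      _ = δ / 2 / t * N * (s * s) * e := by ring
      _ = δ / 2 / t * N * H * e := by rw [h4]
  calc _ ≤ δ / 2 / t * N * H * e + δ / 2 / t * N * H * e := add_le_add (b4.trans h7) b2
    _ = δ / t * N * H * e := by ring

theorem tcn_main (n : ℤ) (p κ : ℕ) {δ : ℝ} (hδ : 0 < δ) : ∃ (C₀ C : ℝ) (N₀ : ℕ), 0 < C₀ ∧ 0 < C ∧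
    ∀ d : Dt, d.Good κ → d.n = n → d.p = p → ∀ H N : ℕ, d.Sz H N → N₀ ≤ N →
    ∀ (S : Finset ℕ) (k : ℕ → ℕ) (w : ℕ → ℤ → ℤ → ℝ) (M : ℕ → ℤ → ℝ) (Z : Finset (ℤ × ℤ))
      (q : ℕ) (ρ t : ℝ), (∀ l ∈ S, ¬ d.Dom l) → (∏ l ∈ S, l ^ k l) ^ 8 ≤ N →
    (∀ l ∈ S, ∀ Y, LS 1 l {X | (X, Y) ∈ Z} (fun X => d.B X Y) (fun X => w l X Y)
      (fun X => 2 * d.ie l X Y + k l) (M l Y) 2) →
    (∀ z ∈ Z, d.Box H N z.1 z.2 ∧ S ⊆ d.PP z.1 z.2 ∧ ¬ IsSquare (d.Δ₁ z.2) ∧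
      ∀ l ∈ S, 0 ≤ w l z.1 z.2 ∧ w l z.1 z.2 ≤ d.Wt l z.1 z.2) →
    0 < q → q ≤ H → 0 < ρ → (∀ l ∈ S, ∀ Y, 0 ≤ M l Y) →
    (∀ l ∈ S, ∀ Y Y', (q : ℤ) ∣ Y - Y' → M l Y = M l Y') →
    ∑ r ∈ range q, (∏ l ∈ S, C₀ * M l r) ^ (4 / 3 : ℝ) ≤ q * ρ ^ (4 / 3 : ℝ) →
    1 ≤ t → t ^ 200 ≤ N →
    ∑ z ∈ Z, d.WS S w z.1 z.2 ≤
      (C * ρ + δ / t) * N * H * EE (d.G ^ 2 * d.E) (d.G ^ 2 * d.E).natAbs := by
  classical
  obtain ⟨K, C, N₁, hK, hC, hgen⟩ := cnt_gen n p κ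
  obtain ⟨C₁, hC₁, hav⟩ := av_mul hK
  obtain ⟨N₂, hsm⟩ := tcn_small hδ
  refine ⟨C, C * C₁, N₁ + N₂, hC, by positivity,
    fun d hd hn hp H N hs hN S k w M Z q ρ t hD hk hLS hZ hq hqH hρ hM0 hMp hM ht htN => ?_⟩
  have h1 := hgen d hd hn hp H N hs (by omega) S k w M Z
    ((Icc (-(H : ℤ)) H).filter (fun Y => ¬ IsSquare (Y ^ 2 - 4 * (d.m * d.a)))) hD hk hLS (by
      intro z hz
      obtain ⟨a1, a2, a3, a4⟩ := hZ z hz
      refine ⟨a1, a2, mem_filter.2 ⟨mem_Icc.2 (abs_le.1 a1.y), a3⟩, fun h0 => a3 ?_,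
        fun l hl => ⟨(a4 l hl).1, (a4 l hl).2.trans
          (Wt_le hd (Nat.prime_of_mem_primeFactors (a2 hl)) a1.ne)⟩⟩
      rw [h0]
      exact ⟨0, rfl⟩)
  have h2 := hav (d.m * d.a) H N q (fun Y => ∏ l ∈ S, C * M l Y) ρ (tcn_ma hd) hs.ma hq hqH hρ
    (fun Y => prod_nonneg fun l hl => mul_nonneg hC.le (hM0 l hl Y))
    (fun Y Y' h => prod_congr rfl fun l hl => by rw [hMp l hl Y Y' h]) hM
  have h3 := hsm d H N hs (by omega) t ht htN
  have hE := EE_pos (d.G ^ 2 * d.E) (d.G ^ 2 * d.E).natAbs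
  refine h1.trans ((add_le_add (mul_le_mul_of_nonneg_left h2 (by positivity)) h3).trans
    (le_of_eq ?_))
  ring

theorem tcn_all (n : ℤ) (p κ : ℕ) : ∃ (C₀ C : ℝ) (N₀ : ℕ), 0 < C₀ ∧ 0 < C ∧
    ∀ d : Dt, d.Good κ → d.n = n → d.p = p → ∀ H N : ℕ, d.Sz H N → N₀ ≤ N → N ≤ H ^ 16 →
    ∀ (S : Finset ℕ) (k : ℕ → ℕ) (w : ℕ → ℤ → ℤ → ℝ) (M : ℕ → ℤ → ℝ) (Z : Finset (ℤ × ℤ))
      (q : ℕ) (ρ t : ℝ), (∀ l ∈ S, ¬ d.Dom l) → (∏ l ∈ S, l ^ k l) ^ 8 ≤ N →
    (∀ l ∈ S, ∀ Y, LS 1 l {X | (X, Y) ∈ Z} (fun X => d.B X Y) (fun X => w l X Y)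
      (fun X => 2 * d.ie l X Y + k l) (M l Y) 2) →
    (∀ z ∈ Z, d.Box H N z.1 z.2 ∧ S ⊆ d.PP z.1 z.2 ∧
      ∀ l ∈ S, 0 ≤ w l z.1 z.2 ∧ w l z.1 z.2 ≤ d.Wt l z.1 z.2) →
    0 < q → (q : ℝ) ≤ t ^ 2 → 0 < ρ → (∀ l ∈ S, ∀ Y, 0 ≤ M l Y) →
    (∀ l ∈ S, ∀ Y Y', (q : ℤ) ∣ Y - Y' → M l Y = M l Y') →
    ∑ r ∈ range q, (∏ l ∈ S, C₀ * M l r) ^ (4 / 3 : ℝ) ≤ q * ρ ^ (4 / 3 : ℝ) →
    1 ≤ t → t ^ 200 ≤ N →
    ∑ z ∈ Z, d.WS S w z.1 z.2 ≤
      (C * ρ + 2 / t) * N * H * EE (d.G ^ 2 * d.E) (d.G ^ 2 * d.E).natAbs := by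
  classical
  obtain ⟨C₀, C, N₁, hC₀, hC, hmain⟩ := tcn_main n p κ one_pos
  obtain ⟨A, N₂, hdeg⟩ := cnt_deg n p κ one_pos
  obtain ⟨N₃, hbig⟩ := tcn_big A
  obtain ⟨N₄, hbig'⟩ := tcn_big 0
  refine ⟨C₀, C, N₁ + N₂ + N₃ + N₄, hC₀, hC,
    fun d hd hn hp H N hs hN hH S k w M Z q ρ t hD hk hLS hZ hq hqt hρ hM0 hMp hM ht htN => ?_⟩
  have hqH : q ≤ H := by
    have := hbig' N H (by omega) hH t ht htN
    rw [pow_zero, mul_one] at this
    exact_mod_cast hqt.trans this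
  have h1 := hmain d hd hn hp H N hs (by omega) S k w M
    (Z.filter fun z => ¬ IsSquare (d.Δ₁ z.2)) q ρ t hD hk
    (fun l hl Y => (hLS l hl Y).mono le_rfl (fun X hX => (mem_filter.1 hX).1)
      (fun _ _ => le_rfl) (fun _ _ => le_rfl) le_rfl le_rfl)
    (fun z hz => ⟨(hZ z (mem_filter.1 hz).1).1, (hZ z (mem_filter.1 hz).1).2.1,
      (mem_filter.1 hz).2, (hZ z (mem_filter.1 hz).1).2.2⟩) hq hqH hρ hM0 hMp hM ht htN
  have h2 := hdeg d hd hn hp H N hs (by omega) t ht (hbig N H (by omega) hH t ht htN) htN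
    (Z.filter fun z => IsSquare (d.Δ₁ z.2))
    (fun z hz => ⟨(hZ z (mem_filter.1 hz).1).1, (mem_filter.1 hz).2⟩)
  have h3 : ∑ z ∈ Z.filter (fun z => IsSquare (d.Δ₁ z.2)), d.WS S w z.1 z.2 ≤
      ∑ z ∈ Z.filter (fun z => IsSquare (d.Δ₁ z.2)), d.WW z.1 z.2 :=
    sum_le_sum fun z hz =>
      tcn_WS_le (hZ z (mem_filter.1 hz).1).2.1 (hZ z (mem_filter.1 hz).1).2.2
  rw [← sum_filter_add_sum_filter_not Z (fun z => IsSquare (d.Δ₁ z.2))]
  refine (add_le_add (h3.trans h2) h1).trans (le_of_eq ?_)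
  ring

theorem cnt_one (n : ℤ) (p κ : ℕ) {δ : ℝ} (hδ : 0 < δ) : ∃ r N₀ : ℕ,
    ∀ d : Dt, d.Good κ → d.n = n → d.p = p → ∀ H N : ℕ, d.Sz H N → N₀ ≤ N →
    ∀ Z : Finset (ℤ × ℤ), (∀ z ∈ Z, d.Box H N z.1 z.2 ∧ ¬ IsSquare (d.Δ₁ z.2) ∧
      (p : ℤ) ^ (padicValInt p d.E + r) ∣ d.B z.1 z.2) →
    ∑ z ∈ Z, d.WW z.1 z.2 ≤ δ * N * H * EE (d.G ^ 2 * d.E) (d.G ^ 2 * d.E).natAbs := by
  by_cases hp : p.Prime
  swap
  · exact ⟨0, 0, fun d hd _ h => absurd (h ▸ hd.prime) hp⟩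
  obtain ⟨C₀, C, N₁, hC₀, hC, hmain⟩ := tcn_main n p κ (half_pos hδ)
  obtain ⟨r, k, hls⟩ := ls_div hp (2 * n.natAbs + κ + 2)
    (show 0 < δ / (2 * C * C₀) by positivity)
  refine ⟨r, N₁ + (p ^ k) ^ 8 + 1, fun d hd hn hdp H N hs hN Z hZ => ?_⟩
  have hD : ¬ d.Dom p := fun h => h.1 hdp.symm
  have hv := (val_m hd hp hD).1
  rw [hn] at hv
  have hPP : ∀ z ∈ Z, {p} ⊆ d.PP z.1 z.2 := fun z hz =>
    singleton_subset_iff.2 (tcn_PP hd (hZ z hz).1.ne hp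
      (by rw [hdp]; exact (dvd_mul_left _ _).mul_right _))
  have h1 := hmain d hd hn hdp H N hs (by omega) {p} (fun _ => k) d.Wt
    (fun _ _ => δ / (2 * C * C₀)) Z 1 (C₀ * (δ / (2 * C * C₀))) 1
    (fun l hl => by rw [mem_singleton.1 hl]; exact hD) (by rw [prod_singleton]; omega)
    (fun l hl Y => by
      rw [mem_singleton.1 hl]
      exact (hls d κ hd hv Y).mono le_rfl
        (fun X hX => ⟨(hZ _ hX).1.ne, (hZ _ hX).2.2⟩)
        (fun X hX => Wt_le hd hp (hZ _ hX).1.ne) (fun _ _ => le_rfl) le_rfl le_rfl)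
    (fun z hz => ⟨(hZ z hz).1, hPP z hz, (hZ z hz).2.1,
      fun l _ => ⟨Wt_nonneg _ _ _, le_rfl⟩⟩)
    one_pos hs.one (by positivity) (fun _ _ _ => by positivity) (fun _ _ _ _ _ => rfl)
    (by simp) le_rfl (by rw [one_pow]; exact_mod_cast (by omega : 1 ≤ N))
  have e : C * (C₀ * (δ / (2 * C * C₀))) + δ / 2 / 1 = δ := by
    field_simp
    ring
  rw [e] at h1
  exact le_trans (le_of_eq (sum_congr rfl fun z hz => (tcn_WS_eq (hPP z hz)).symm)) h1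

theorem cnt_two (p : ℕ) (h2 : p ≠ 2) : ∃ C : ℝ, 0 < C ∧ ∀ k : ℕ, ∃ N₀ : ℕ,
    ∀ d : Dt, d.Good 0 → d.n = 1 → d.G = 1 → d.p = p → ¬ (p : ℤ) ∣ d.E → ∀ H N : ℕ, d.Sz H N →
    N₀ ≤ N → N ≤ H ^ 16 → ∀ Z : Finset (ℤ × ℤ), (∀ z ∈ Z, d.Box H N z.1 z.2) →
    ∑ z ∈ Z, d.WS {p} (fun l X Y => ((padicValInt l (d.B X Y) + 1 - k : ℕ) : ℝ)) z.1 z.2 ≤
      C / (p : ℝ) ^ k * N * H * EE d.E d.E.natAbs := by
  obtain ⟨C₀, C, N₁, hC₀, hC, hall⟩ := tcn_all 1 p 0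
  obtain ⟨K, hK, hls⟩ := ls_split
  refine ⟨C * C₀ * K + 2, by positivity, fun k => ⟨N₁ + (p ^ k) ^ 200,
    fun d hd hn hG hdp hE H N hs hN hH Z hZ => ?_⟩⟩
  have hp : p.Prime := hdp ▸ hd.prime
  have hD : ¬ d.Dom p := fun h => h.1 hdp.symm
  have hm : ¬ (p : ℤ) ∣ d.m := by
    rw [m, hn, hG]
    intro h
    exact hp.one_lt.ne' (Nat.dvd_one.1 (by exact_mod_cast h))
  obtain ⟨M, hM0, hMp, hM, hLS⟩ := hls d 0 hd p hp h2 hE hm k
  have hp1 : 1 ≤ p ^ k := Nat.one_le_pow _ _ hp.pos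
  have hp1' : (1 : ℝ) ≤ (p : ℝ) ^ k := by exact_mod_cast hp1
  have hdv : (p : ℤ) ∣ 2 * d.n * d.p := by rw [hdp]; exact dvd_mul_left _ _
  have h1 := hall d hd hn hdp H N hs (by omega) hH {p} (fun _ => k)
    (fun l X Y => ((padicValInt l (d.B X Y) + 1 - k : ℕ) : ℝ)) (fun _ => M) Z (p ^ (2 * k))
    (C₀ * (K / (p : ℝ) ^ k)) ((p : ℝ) ^ k)
    (fun l hl => by rw [mem_singleton.1 hl]; exact hD)
    (by
      rw [prod_singleton]
      exact (Nat.pow_le_pow_right hp1 (by norm_num)).trans (by omega : (p ^ k) ^ 200 ≤ N))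
    (fun l hl Y => by
      rw [mem_singleton.1 hl]
      exact (hLS Y).mono le_rfl (fun X hX => (hZ _ hX).ne) (fun _ _ => le_rfl)
        (fun _ _ => Nat.le_add_left _ _) le_rfl le_rfl)
    (fun z hz => ⟨hZ z hz, singleton_subset_iff.2 (tcn_PP hd (hZ z hz).ne hp (hdv.mul_right _)),
      fun l hl => ⟨Nat.cast_nonneg _, by
        have := Fact.mk hp
        have hE0 : padicValInt p d.E = 0 := padicValInt.eq_zero_of_not_dvd hE
        rw [mem_singleton.1 hl, Wt, if_neg hD, if_pos hdv, W5, hE0, if_pos (Nat.zero_le _),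
          padicValInt.mul (by norm_num) (hZ z hz).ne]
        have a1 : ((padicValInt p (d.B z.1 z.2) + 1 - k : ℕ) : ℝ) ≤
            ((1 + (padicValInt p 4 + padicValInt p (d.B z.1 z.2)) : ℕ) : ℝ) := by
          exact_mod_cast (by omega)
        have a2 : (1 : ℝ) ≤ (p : ℝ) ^ d.ie p z.1 z.2 := by
          exact_mod_cast Nat.one_le_pow _ _ hp.pos
        refine a1.trans ?_
        rw [Nat.cast_add, Nat.cast_one]
        exact le_mul_of_one_le_left (by positivity) (by linarith)⟩⟩)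
    (pow_pos hp.pos _) (le_of_eq (by push_cast; ring)) (by positivity) (fun _ _ => hM0)
    (fun _ _ => hMp)
    (by
      have e : ∀ r : ℕ, (∏ _l ∈ ({p} : Finset ℕ), C₀ * M r) ^ (4 / 3 : ℝ) =
          C₀ ^ (4 / 3 : ℝ) * M r ^ (4 / 3 : ℝ) := fun r => by
        rw [prod_singleton, Real.mul_rpow hC₀.le (hM0 r)]
      rw [sum_congr rfl fun r _ => e r, ← mul_sum, Real.mul_rpow hC₀.le (by positivity),
        mul_left_comm]
      exact mul_le_mul_of_nonneg_left hM (by positivity))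
    hp1' (by exact_mod_cast (by omega : (p ^ k) ^ 200 ≤ N))
  rw [hG, Nat.cast_one, one_pow, one_mul] at h1
  refine h1.trans (le_of_eq ?_)
  ring

theorem cnt_three : ∃ (C : ℝ) (N₀ : ℕ), 0 < C ∧
    ∀ d : Dt, d.Good 0 → d.n = 1 → d.G = 1 → d.p = 2 → ∀ H N : ℕ, d.Sz H N → N₀ ≤ N →
    N ≤ H ^ 16 → ∀ (q : ℕ) (b₀ : ℤ), 0 < q → q ^ 200 ≤ N → ∀ Z : Finset (ℤ × ℤ),
    (∀ z ∈ Z, d.Box H N z.1 z.2 ∧ d.LevC q b₀ z.1 z.2) →
    ∑ z ∈ Z, d.WW z.1 z.2 ≤ C * (q : ℝ) ^ (-(3 / 5 : ℝ)) * N * H * EE d.E d.E.natAbs := by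
  obtain ⟨C₀, C, N₁, hC₀, hC, hall⟩ := tcn_all 1 2 0
  obtain ⟨K, hK, hlev⟩ := lev_all
  obtain ⟨C₁, hC₁, hom⟩ := omega_bound ((C₀ + 1) * K) (show (0 : ℝ) < 1 / 10 by norm_num)
  refine ⟨C * C₁ ^ (3 / 2 : ℝ) + 2, N₁, by positivity,
    fun d hd hn hG hdp H N hs hN hH q b₀ hq hqN Z hZ => ?_⟩
  have hm : ∀ l : ℕ, l.Prime → ¬ (l : ℤ) ∣ d.m := fun l hl => by
    rw [m, hn, hG]
    intro h
    exact hl.one_lt.ne' (Nat.dvd_one.1 (by exact_mod_cast h))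
  have hex : ∀ l ∈ q.primeFactors, _ := fun l hl =>
    hlev d 0 hd l (Nat.prime_of_mem_primeFactors hl) (hm l (Nat.prime_of_mem_primeFactors hl))
      (q.factorization l) b₀
  simp only [LevM] at hex
  choose! M hM0 hMp hM hLS using hex
  have hprod : ∏ l ∈ q.primeFactors, l ^ q.factorization l = q :=
    (Nat.prod_primeFactors_pow_factorization hq.ne').symm
  have hdv : ∀ l : ℕ, ((l ^ q.factorization l : ℕ) : ℤ) ∣ q := fun l =>
    Int.natCast_dvd_natCast.2 (Nat.ordProj_dvd q l)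
  have hq1 : (1 : ℝ) ≤ q := by exact_mod_cast hq
  have hPP : ∀ z ∈ Z, q.primeFactors ⊆ d.PP z.1 z.2 := fun z hz l hl =>
    tcn_PP hd (hZ z hz).1.ne (Nat.prime_of_mem_primeFactors hl) (by
      rw [hn, hdp]
      have := (Int.natCast_dvd_natCast.2 (Nat.dvd_of_mem_primeFactors hl)).trans (hZ z hz).2.1
      exact this)
  have hsum : ∑ r ∈ range q, (∏ l ∈ q.primeFactors, C₀ * M l r) ^ (4 / 3 : ℝ) ≤
      q * (C₁ ^ (3 / 2 : ℝ) * (q : ℝ) ^ (-(3 / 5 : ℝ))) ^ (4 / 3 : ℝ) := by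
    have e1 := sum_period_prod q.primeFactors (fun l hl => Nat.prime_of_mem_primeFactors hl)
      (fun l => q.factorization l) (fun l Y => (C₀ * M l Y) ^ (4 / 3 : ℝ))
      (fun l hl x y h => by rw [hMp l hl x y h])
    rw [hprod] at e1
    have e2 : ∀ r : ℕ, (∏ l ∈ q.primeFactors, C₀ * M l r) ^ (4 / 3 : ℝ) =
        ∏ l ∈ q.primeFactors, (C₀ * M l r) ^ (4 / 3 : ℝ) := fun r =>
      (Real.finsetProd_rpow _ _ (fun l hl => mul_nonneg hC₀.le (hM0 l hl r).1) _).symm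
    have e3 : (q : ℝ) * (C₁ ^ (3 / 2 : ℝ) * (q : ℝ) ^ (-(3 / 5 : ℝ))) ^ (4 / 3 : ℝ) =
        (C₁ * (q : ℝ) ^ (1 / 10 : ℝ)) ^ 2 := by
      have hq0 : (0 : ℝ) < q := by linarith
      rw [Real.mul_rpow (by positivity) (by positivity), ← Real.rpow_mul hC₁.le,
        ← Real.rpow_mul hq0.le, mul_pow, ← Real.rpow_natCast ((q : ℝ) ^ (1 / 10 : ℝ)),
        ← Real.rpow_mul hq0.le, mul_left_comm, ← Real.rpow_one_add' hq0.le (by norm_num),
        ← Real.rpow_natCast C₁]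
      norm_num
    rw [sum_congr rfl fun r _ => e2 r, e1, e3]
    refine le_trans ?_ (pow_le_pow_left₀ (prod_nonneg fun l _ => by positivity)
      (hom q hq.ne') 2)
    rw [← prod_pow]
    refine prod_le_prod (fun l hl => sum_nonneg fun r _ =>
      Real.rpow_nonneg (mul_nonneg hC₀.le (hM0 l hl r).1) _) fun l hl => ?_
    have a0 : (1 : ℝ) ≤ (q.factorization l : ℝ) + 1 := le_add_of_nonneg_left (Nat.cast_nonneg _)
    have a1 := hM0 l hl
    have a2 := hM l hl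
    generalize (q.factorization l : ℝ) + 1 = j at a0 a1 a2
    have a3 : j ^ 2 ≤ j ^ 3 := pow_le_pow_right₀ a0 (by norm_num)
    have a4 : 1 ≤ K * j ^ 3 := one_le_mul_of_one_le_of_one_le hK (one_le_pow₀ a0)
    have a5 : C₀ * (K * j ^ 3) ≤ (C₀ + 1) * K * j ^ 3 := by nlinarith
    have a6 : 1 ≤ (C₀ + 1) * K * j ^ 3 := by nlinarith
    calc ∑ r ∈ range (l ^ q.factorization l), (C₀ * M l r) ^ (4 / 3 : ℝ)
        ≤ ∑ r ∈ range (l ^ q.factorization l), C₀ * M l r * ((C₀ + 1) * K * j ^ 3) :=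
          sum_le_sum fun r _ => tcn_four (mul_nonneg hC₀.le (a1 r).1)
            (le_trans (mul_le_mul_of_nonneg_left ((a1 r).2.trans
              (mul_le_mul_of_nonneg_left a3 (by linarith))) hC₀.le) a5) a6
      _ = C₀ * (∑ r ∈ range (l ^ q.factorization l), M l r) * ((C₀ + 1) * K * j ^ 3) := by
          rw [mul_sum, sum_mul]
      _ ≤ (C₀ + 1) * K * j ^ 3 * ((C₀ + 1) * K * j ^ 3) :=
          mul_le_mul_of_nonneg_right ((mul_le_mul_of_nonneg_left a2 hC₀.le).trans a5)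
            (by linarith)
      _ = ((C₀ + 1) * K * j ^ 3) ^ 2 := (sq _).symm
  have h1 := hall d hd hn hdp H N hs hN hH q.primeFactors (fun l => q.factorization l) d.Wt M Z q
    (C₁ ^ (3 / 2 : ℝ) * (q : ℝ) ^ (-(3 / 5 : ℝ))) q
    (fun l hl h => by
      rw [Dom, hG, padicValNat_one_right] at h
      rcases h.2 with h | h
      · omega
      · exact (Nat.prime_of_mem_primeFactors hl).one_lt.ne' (Nat.dvd_one.1 h.2))
    (by rw [hprod]; exact (Nat.pow_le_pow_right hq (by norm_num)).trans hqN)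
    (fun l hl Y => (hLS l hl Y).mono le_rfl
      (fun X hX => by
        obtain ⟨a1, a2, ⟨u, a3, a4⟩, v, a5, a6⟩ := hZ _ hX
        exact ⟨a1.ne, (hdv l).trans a2, ⟨u, (hdv l).trans a3, (hdv l).trans a4⟩,
          v, (hdv l).trans a5, (hdv l).trans a6⟩)
      (fun X hX => Wt_le hd (Nat.prime_of_mem_primeFactors hl) (hZ _ hX).1.ne)
      (fun _ _ => le_rfl) le_rfl le_rfl)
    (fun z hz => ⟨(hZ z hz).1, hPP z hz, fun l _ => ⟨Wt_nonneg _ _ _, le_rfl⟩⟩)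
    hq (by nlinarith) (by positivity) (fun l hl Y => (hM0 l hl Y).1)
    (fun l hl Y Y' h => hMp l hl Y Y' (by exact_mod_cast (hdv l).trans h)) hsum hq1
    (by exact_mod_cast hqN)
  rw [hG, Nat.cast_one, one_pow, one_mul] at h1
  refine le_trans (le_of_eq (sum_congr rfl fun z hz => (tcn_WS_eq (hPP z hz)).symm))
    (h1.trans ?_)
  have h3 : 1 / (q : ℝ) ≤ (q : ℝ) ^ (-(3 / 5 : ℝ)) := by
    rw [one_div, ← Real.rpow_neg_one]
    exact Real.rpow_le_rpow_of_exponent_le hq1 (by norm_num)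
  have hE := EE_pos d.E d.E.natAbs
  have h4 : C * (C₁ ^ (3 / 2 : ℝ) * (q : ℝ) ^ (-(3 / 5 : ℝ))) + 2 / q ≤
      (C * C₁ ^ (3 / 2 : ℝ) + 2) * (q : ℝ) ^ (-(3 / 5 : ℝ)) := by
    rw [div_eq_mul_one_div 2 (q : ℝ)]
    linarith
  gcongr

end Dt

end Pool.Agent.EQ
end
end

-- part Pool.Agent.P.MP_ad7a55_nt.UHc
section

/-! Almost every leafwise measure is invariant under a line. -/

set_option autoImplicit false

noncomputable section

open MeasureTheory Topology Filter UpperHalfPlane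
open scoped MatrixGroups ENNReal BoundedContinuousFunction

namespace Pool.Agent.EQ

theorem uhc_lim {V W G T : Type} [NormedAddCommGroup V] [ProperSpace V] [TopologicalSpace W]
    [T2Space W] [FirstCountableTopology W] [Monoid G] [TopologicalSpace G] [MulAction G W]
    [ContinuousSMul G W] (φ : Flow V W) (f : W → T → ℝ≥0∞) {C : Set W} (hCc : IsCompact C)
    (hCf : ContinuousOn f C) {g : ℕ → G} (hg : Tendsto g atTop (𝓝 1)) {y : ℕ → W}
    (hy : ∀ n, y n ∈ C) {ω : ℕ → V} (hz : ∀ n, φ (ω n) (g n • y n) ∈ C) {R R' : ℝ}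
    (hω : ∀ n, R ≤ ‖ω n‖) (hω' : ∀ n, ‖ω n‖ ≤ R')
    (hd : ∀ t, ∀ᶠ n in atTop, f (φ (ω n) (g n • y n)) t = f (y n) t) :
    ∃ y₀ ∈ C, ∃ ω₀ : V, R ≤ ‖ω₀‖ ∧ f (φ ω₀ y₀) = f y₀ := by
  have hK : IsCompact (C ×ˢ (Metric.closedBall (0 : V) R' ∩ {ω | R ≤ ‖ω‖})) :=
    hCc.prod ((isCompact_closedBall _ _).inter_right (isClosed_le continuous_const continuous_norm))
  obtain ⟨⟨y₀, ω₀⟩, ⟨hy₀, -, hω₀⟩, s, hs, hlim⟩ := hK.tendsto_subseq
    (x := fun n => (y n, ω n)) fun n => ⟨hy n, mem_closedBall_zero_iff.2 (hω' n), hω n⟩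
  have ly : Tendsto (fun n => y (s n)) atTop (𝓝 y₀) := (continuous_fst.tendsto _).comp hlim
  have lω : Tendsto (fun n => ω (s n)) atTop (𝓝 ω₀) := (continuous_snd.tendsto _).comp hlim
  have lg : Tendsto (fun n => g (s n) • y (s n)) atTop (𝓝 y₀) := by
    simpa using (hg.comp hs.tendsto_atTop).smul ly
  have lz : Tendsto (fun n => φ (ω (s n)) (g (s n) • y (s n))) atTop (𝓝 (φ ω₀ y₀)) :=
    (φ.cont'.tendsto (ω₀, y₀)).comp (lω.prodMk_nhds lg)
  have hz₀ : φ ω₀ y₀ ∈ C :=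
    hCc.isClosed.mem_of_tendsto lz (Eventually.of_forall fun n => hz (s n))
  have dy := (hCf y₀ hy₀).tendsto.comp
    (tendsto_nhdsWithin_iff.2 ⟨ly, Eventually.of_forall fun n => hy (s n)⟩)
  have dz := (hCf _ hz₀).tendsto.comp
    (tendsto_nhdsWithin_iff.2 ⟨lz, Eventually.of_forall fun n => hz (s n)⟩)
  refine ⟨y₀, hy₀, ω₀, hω₀, funext fun t => ?_⟩
  exact tendsto_nhds_unique_of_eventuallyEq (tendsto_pi_nhds.1 dz t) (tendsto_pi_nhds.1 dy t)
    (hs.tendsto_atTop.eventually (hd t))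

variable {p q : ℕ} [Fact p.Prime] [Fact q.Prime] {κ : Type} [Fintype κ]
  {M : ℕ} {h : κ → SL(2, ℚ_[q])} {ν : Measure (κ → X3 p q)}

theorem Jn.hp_main (H : Jn p q M h ν) {J : Finset κ} (hJ : J.Nonempty)
    (h₀ : ∀ᵐ w ∂ν, ∀ j ∉ J, Conc (dat (fl3 p q κ) ν w) j)
    (h₁ : ∀ᵐ w ∂ν, ∀ j ∈ J, Thin (dat (fl3 p q κ) ν w) j) :
    ¬ ∀ᵐ w ∂ν, ∀ ω ∈ Sig (dat (fl3 p q κ) ν w), ω = 0 := by
  intro hS
  have := H.prob
  obtain ⟨ε, R, R', hε, hR, hC⟩ := H.hp_pairs hJ h₀ h₁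
  obtain ⟨C, hCc, hCA, hCν, hCf⟩ := lusin ν (measurable_dq (fl3 p q κ) ν)
    (A := {w | Gd (fl3 p q κ) ν w ∧ ∀ ω ∈ Sig (dat (fl3 p q κ) ν w), ω = 0})
    ((ae_Gd (fl3 p q κ) ν).and hS) hε
  obtain ⟨N, hN⟩ := (𝓝 (1 : κ → G3 p q)).exists_antitone_basis
  have hex := fun n : ℕ => hC C hCc (fun w hw => (hCA hw).1) hCν (N n) (hN.mem n) n
  choose m hm y hy g hg ω hz hω hω' hd using hex
  obtain ⟨y₀, hy₀, ω₀, hω₀, he⟩ := uhc_lim (fl3 p q κ) (dq (fl3 p q κ) ν) hCc hCf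
    (hN.tendsto hg) hy hz hω hω' fun t => by
      filter_upwards [eventually_ge_atTop (-t.2.1).toNat] with n hn
      have h1 := hm n
      have h2 : -(m n : ℤ) ≤ t.2.1 := by omega
      exact congrFun (hd n t.1 t.2.1 h2) _
  have h0 := (hCA hy₀).2 ω₀ (mem_Sig_of_dat _ _ (dat_eq_of_dq _ _ he))
  rw [h0, norm_zero] at hω₀
  exact absurd hR (not_lt.2 hω₀)

theorem Jn.not_conc (H : Jn p q M h ν) [Nonempty κ] :
    ¬ ∀ᵐ w ∂ν, ∀ j, Conc (dat (fl3 p q κ) ν w) j := by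
  intro hc
  have := H.prob
  obtain ⟨k₀⟩ := ‹Nonempty κ›
  exact cover H.ne H.pos ν H.a k₀ (H.marg k₀)
    (D := {w | Gd (fl3 p q κ) ν w ∧ ∀ j, Conc (dat (fl3 p q κ) ν w) j})
    (fun w hw v hv => hw.1.once hw.2 hv.1) ((ae_Gd (fl3 p q κ) ν).and hc)

theorem Jn.lam_a (H : Jn p q M h ν) :
    ∀ᵐ w ∂ν, Lam (dat (fl3 p q κ) ν (al p q κ M • w)) = Lam (dat (fl3 p q κ) ν w) := by
  filter_upwards [H.dat_a] with w hw
  have h1 := hw 1
  rw [← h1, lam_shD (pow_ne_zero _ (Nat.cast_ne_zero.2 (Fact.out : p.Prime).ne_zero)), mul_one]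

theorem Jn.lam_ne (H : Jn p q M h ν) [Nonempty κ] :
    ∀ᵐ w ∂ν, ∃ d ∈ Lam (dat (fl3 p q κ) ν w), d ≠ 0 := by
  classical
  have := H.prob
  by_contra hne
  let A : Finset κ → Set (κ → X3 p q) := fun J =>
    {w | (¬ ∃ d ∈ Lam (dat (fl3 p q κ) ν w), d ≠ 0) ∧
      ∀ j, Conc (dat (fl3 p q κ) ν w) j ↔ j ∉ J}
  obtain ⟨J, hJ⟩ : ∃ J, ν (A J) ≠ 0 := by
    by_contra hall
    push Not at hall
    refine hne (ae_iff.2 (measure_mono_null (fun w hw => ?_) (measure_iUnion_null hall)))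
    exact Set.mem_iUnion.2 ⟨Finset.univ.filter fun j => ¬ Conc (dat (fl3 p q κ) ν w) j, hw,
      fun j => by simp⟩
  have hm : MeasurableSet (A J) := by
    have e : A J = {w | ∃ d ∈ Lam (dat (fl3 p q κ) ν w), d ≠ 0}ᶜ ∩
        ⋂ j, if j ∈ J then {w | Conc (dat (fl3 p q κ) ν w) j}ᶜ
          else {w | Conc (dat (fl3 p q κ) ν w) j} := by
      ext w
      simp only [A, Set.mem_ofPred_eq, Set.mem_inter_iff, Set.mem_compl_iff, Set.mem_iInter]
      refine and_congr Iff.rfl (forall_congr' fun j => ?_)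
      by_cases hj : j ∈ J <;> simp [hj]
    rw [e]
    refine (measurableSet_lam_ne _ _).compl.inter (MeasurableSet.iInter fun j => ?_)
    split_ifs
    · exact (measurableSet_conc _ _ j).compl
    · exact measurableSet_conc _ _ j
  have hi : ∀ v w, w ∈ A J → fl3 p q κ v w ∈ A J := fun v w hw =>
    ⟨by rw [lam_flow]; exact hw.1, fun j => (conc_flow _ _ j v w).trans (hw.2 j)⟩
  have ha : ∀ᵐ w ∂ν, al p q κ M • w ∈ A J ↔ w ∈ A J := by
    filter_upwards [H.lam_a, H.dat_a] with w h1 h2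
    have h3 : ∀ j, Conc (dat (fl3 p q κ) ν (al p q κ M • w)) j ↔ Conc (dat (fl3 p q κ) ν w) j := by
      intro j
      rw [← h2 1, conc_shD (H.sys 1).nrm, mul_one]
    simp only [A, Set.mem_ofPred_eq, h1, h3]
  have hb : ∀ᵐ w ∂ν, be p q h M • w ∈ A J ↔ w ∈ A J := by
    filter_upwards [H.dat_b] with w h1
    simp only [A, Set.mem_ofPred_eq, h1]
  have H' := H.cond hm hJ ha hb
  have := H'.prob
  have hd := dat_cond (fl3 p q κ) ν hm hJ hi
  have hmem : ∀ᵐ w ∂ProbabilityTheory.cond ν (A J), w ∈ A J := ProbabilityTheory.ae_cond_mem hm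
  have he : (-(2 * (M * 1) : ℕ) : ℤ) < 0 := by
    have := H.pos
    omega
  rcases J.eq_empty_or_nonempty with rfl | hJ'
  · refine H'.not_conc ?_
    filter_upwards [hd, hmem] with w h1 h2 j
    rw [h1]
    exact (h2.2 j).2 (Finset.notMem_empty j)
  · refine H'.hp_main hJ' ?_ ?_ ?_
    · filter_upwards [hd, hmem] with w h1 h2 j hj
      rw [h1]
      exact (h2.2 j).2 hj
    · filter_upwards [hd, hmem, ae_all_iff.2 fun j => (H'.sys 1).dich he j] with w h1 h2 h3 j hj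
      refine (h3 j).resolve_left fun hc => ?_
      rw [h1] at hc
      exact (h2.2 j).1 hc hj
    · filter_upwards [hd, hmem, (H'.sys 1).lam he] with w h1 h2 h3 ω hω
      by_contra h0
      have h4 := h3 ⟨ω, hω, h0⟩
      rw [h1] at h4
      exact h2.1 h4

end Pool.Agent.EQ
end
end

-- part Pool.Agent.P.MP_ad7a55_nt.VGal
section

/-! Galois orbits of families of complex numbers. -/

set_option autoImplicit false

noncomputable section

open MeasureTheory Topology Filter UpperHalfPlane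
open scoped MatrixGroups ENNReal BoundedContinuousFunction

namespace Pool.Agent.EQ

def galO {ι : Type} (F : IntermediateField ℚ ℂ) (x : ι → ℂ) : Set (ι → ℂ) :=
  {y | ∃ σ : ℂ ≃+* ℂ, (∀ a ∈ F, σ a = a) ∧ y = fun k => σ (x k)}

open Classical in
/-- A finite set as a `Finset`. -/
def fO {α : Type} (S : Set α) : Finset α := if h : S.Finite then h.toFinset else ∅

theorem mem_fO {α : Type} {S : Set α} (h : S.Finite) {a : α} : a ∈ fO S ↔ a ∈ S := by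
  rw [fO, dif_pos h, Set.Finite.mem_toFinset]

theorem fO_eq {α : Type} {S : Set α} (h : S.Finite) : fO S = h.toFinset := by
  rw [fO, dif_pos h]

theorem card_fO {α : Type} (S : Set α) : (fO S).card = S.ncard := by
  by_cases h : S.Finite
  · rw [fO_eq h, Set.ncard_eq_toFinset_card S h]
  · rw [fO, dif_neg h, Set.Infinite.ncard h, Finset.card_empty]

theorem galO_eq {n : ℕ} (F : IntermediateField ℚ ℂ) (x : Fin n → ℂ) :
    galO F x = galOrbit F x := rfl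

variable {ι ι' : Type} {F : IntermediateField ℚ ℂ} {x : ι → ℂ}

theorem galO_self (F : IntermediateField ℚ ℂ) (x : ι → ℂ) : x ∈ galO F x :=
  ⟨RingEquiv.refl ℂ, fun _ _ => rfl, rfl⟩

theorem galO_map {z : ι → ℂ} (hz : z ∈ galO F x) {σ : ℂ ≃+* ℂ} (hσ : ∀ a ∈ F, σ a = a) :
    (fun k => σ (z k)) ∈ galO F x := by
  obtain ⟨τ, hτ, rfl⟩ := hz
  exact ⟨τ.trans σ, fun a ha => by rw [RingEquiv.trans_apply, hτ a ha, hσ a ha], rfl⟩

theorem galO_of_mem {z : ι → ℂ} (hz : z ∈ galO F x) : galO F z = galO F x := by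
  have key : ∀ {u v : ι → ℂ}, u ∈ galO F v → galO F u ⊆ galO F v := by
    rintro u v hu _ ⟨σ, hσ, rfl⟩
    exact galO_map hu hσ
  refine (key hz).antisymm (key ?_)
  obtain ⟨τ, hτ, rfl⟩ := hz
  refine ⟨τ.symm, fun a ha => ?_, funext fun k => (τ.symm_apply_apply _).symm⟩
  rw [RingEquiv.symm_apply_eq, hτ a ha]

theorem galO_mono {F' : IntermediateField ℚ ℂ} (h : F ≤ F') (x : ι → ℂ) :
    galO F' x ⊆ galO F x := by
  rintro _ ⟨σ, hσ, rfl⟩
  exact ⟨σ, fun a ha => hσ a (h ha), rfl⟩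

theorem galO_comp {z : ι → ℂ} (hz : z ∈ galO F x) (s : ι' → ι) :
    (fun k => z (s k)) ∈ galO F fun k => x (s k) := by
  obtain ⟨σ, hσ, rfl⟩ := hz
  exact ⟨σ, hσ, rfl⟩

theorem sum_galO {σ : ℂ ≃+* ℂ} (hσ : ∀ a ∈ F, σ a = a) (G : (ι → ℂ) → ℝ) :
    ∑ z ∈ fO (galO F x), G (fun k => σ (z k)) = ∑ z ∈ fO (galO F x), G z := by
  by_cases h : (galO F x).Finite
  · have hσ' : ∀ a ∈ F, σ.symm a = a := fun a ha => by rw [RingEquiv.symm_apply_eq, hσ a ha]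
    refine Finset.sum_nbij' (fun z k => σ (z k)) (fun z k => σ.symm (z k)) ?_ ?_ ?_ ?_ ?_
    · exact fun z hz => (mem_fO h).2 (galO_map ((mem_fO h).1 hz) hσ)
    · exact fun z hz => (mem_fO h).2 (galO_map ((mem_fO h).1 hz) hσ')
    · exact fun z _ => funext fun k => σ.symm_apply_apply _
    · exact fun z _ => funext fun k => σ.apply_symm_apply _
    · exact fun z _ => rfl
  · rw [fO, dif_neg h, Finset.sum_empty, Finset.sum_empty]

theorem vgal_sum {α β : Type} (S : Finset α) (T : Finset β) (π : α → β) (h1 : ∀ a ∈ S, π a ∈ T)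
    {c : ℕ} (h2 : ∀ b ∈ T, {a | a ∈ S ∧ π a = b}.ncard = c) (G : β → ℝ) :
    ∑ a ∈ S, G (π a) = c * ∑ b ∈ T, G b := by
  classical
  rw [← Finset.sum_fiberwise_of_maps_to h1, Finset.mul_sum]
  refine Finset.sum_congr rfl fun b hb => ?_
  have e : ∑ a ∈ S.filter (fun a => π a = b), G (π a) = ∑ a ∈ S.filter (fun a => π a = b), G b :=
    Finset.sum_congr rfl fun a ha => by rw [(Finset.mem_filter.1 ha).2]
  have e2 : {a | a ∈ S ∧ π a = b} = ↑(S.filter fun a => π a = b) := by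
    ext a
    simp
  rw [e, Finset.sum_const, nsmul_eq_mul, ← h2 b hb, e2, Set.ncard_coe_finset]

open Classical in
theorem vgal_card {α : Type} (S : Finset α) (Q : α → Prop) :
    ({a | a ∈ S ∧ Q a}.ncard : ℝ) = ∑ a ∈ S, if Q a then (1 : ℝ) else 0 := by
  have e2 : {a | a ∈ S ∧ Q a} = ↑(S.filter Q) := by
    ext a
    simp
  rw [e2, Set.ncard_coe_finset, Finset.sum_boole]

open Classical in
theorem vgal_card2 {α : Type} (S : Finset α) (Q : α → α → Prop) :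
    ({z : α × α | z.1 ∈ S ∧ z.2 ∈ S ∧ Q z.1 z.2}.ncard : ℝ) =
      ∑ a ∈ S, ∑ b ∈ S, if Q a b then (1 : ℝ) else 0 := by
  have e : {z : α × α | z.1 ∈ S ∧ z.2 ∈ S ∧ Q z.1 z.2} = {z | z ∈ S ×ˢ S ∧ Q z.1 z.2} := by
    ext z
    simp only [Set.mem_setOf_eq, Finset.mem_product, and_assoc]
  rw [e, vgal_card, Finset.sum_product]

theorem vgal_fin (hx : (galO F x).Finite) (s : ι' → ι) : (galO F fun k => x (s k)).Finite := by
  refine (hx.image fun z k => z (s k)).subset ?_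
  rintro _ ⟨σ, hσ, rfl⟩
  exact ⟨fun k => σ (x k), ⟨σ, hσ, rfl⟩, rfl⟩

theorem vgal_maps (hx : (galO F x).Finite) (s : ι' → ι) :
    ∀ a ∈ fO (galO F x), (fun k => a (s k)) ∈ fO (galO F fun k => x (s k)) :=
  fun _ ha => (mem_fO (vgal_fin hx s)).2 (galO_comp ((mem_fO hx).1 ha) s)

theorem vgal_fib (hx : (galO F x).Finite) (s : ι' → ι) : ∃ c : ℕ, 0 < c ∧
    ∀ b ∈ fO (galO F fun k => x (s k)),
      {a | a ∈ fO (galO F x) ∧ (fun k => a (s k)) = b}.ncard = c := by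
  refine ⟨{a | a ∈ fO (galO F x) ∧ (fun k => a (s k)) = fun k => x (s k)}.ncard, ?_, ?_⟩
  · refine (Set.ncard_pos ((fO (galO F x)).finite_toSet.subset fun a ha => ha.1)).2 ?_
    exact ⟨x, (mem_fO hx).2 (galO_self F x), rfl⟩
  · intro b hb
    obtain ⟨σ, hσ, rfl⟩ := (mem_fO (vgal_fin hx s)).1 hb
    have hσ' : ∀ a ∈ F, σ.symm a = a := fun a ha => by rw [RingEquiv.symm_apply_eq, hσ a ha]
    have hinj : Function.Injective fun (z : ι → ℂ) k => σ (z k) :=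
      fun u v e => funext fun k => σ.injective (congrFun e k)
    rw [← Set.ncard_image_of_injective
      {a | a ∈ fO (galO F x) ∧ (fun k => a (s k)) = fun k => x (s k)} hinj]
    congr 1
    ext a
    constructor
    · rintro ⟨ha, e⟩
      refine ⟨fun k => σ.symm (a k), ⟨(mem_fO hx).2 (galO_map ((mem_fO hx).1 ha) hσ'), ?_⟩,
        funext fun k => σ.apply_symm_apply _⟩
      funext k
      rw [RingEquiv.symm_apply_eq]
      exact congrFun e k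
    · rintro ⟨u, ⟨hu, e⟩, rfl⟩
      refine ⟨(mem_fO hx).2 (galO_map ((mem_fO hx).1 hu) hσ), funext fun k => ?_⟩
      exact congrArg σ (congrFun e k)

/-- Averages along a map with fibres of constant size. -/
theorem avg_fiber {α β : Type} (S : Finset α) (T : Finset β) (π : α → β) (h1 : ∀ a ∈ S, π a ∈ T)
    {c : ℕ} (hc : 0 < c) (h2 : ∀ b ∈ T, {a | a ∈ S ∧ π a = b}.ncard = c) (G : β → ℝ) :
    avg S (fun a => G (π a)) = avg T G := by
  have e1 := vgal_sum S T π h1 h2 G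
  have e2 := vgal_sum S T π h1 h2 fun _ => 1
  rw [Finset.sum_const, Finset.sum_const, nsmul_eq_mul, nsmul_eq_mul, mul_one, mul_one] at e2
  have hc' : (c : ℝ) ≠ 0 := by exact_mod_cast hc.ne'
  rw [avg, avg, e1, e2, mul_div_mul_left _ _ hc']

theorem avg_comp (hx : (galO F x).Finite) (s : ι' → ι) (G : (ι' → ℂ) → ℝ) :
    avg (fO (galO F x)) (fun z => G fun k => z (s k)) =
      avg (fO (galO F fun k => x (s k))) G := by
  obtain ⟨c, hc, h2⟩ := vgal_fib hx s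
  exact avg_fiber _ _ (fun (z : ι → ℂ) k => z (s k)) (vgal_maps hx s) hc h2 G

theorem card_comp (hx : (galO F x).Finite) (s : ι' → ι) (P : (ι' → ℂ) → Prop) {δ : ℝ}
    (h : ({z | z ∈ (galO F fun k => x (s k)) ∧ P z}.ncard : ℝ) ≤
      δ * (galO F fun k => x (s k)).ncard) :
    ({z | z ∈ fO (galO F x) ∧ P fun k => z (s k)}.ncard : ℝ) ≤ δ * (fO (galO F x)).card := by
  classical
  obtain ⟨c, -, h2⟩ := vgal_fib hx s
  have hf := vgal_fin hx s
  have e1 := vgal_sum _ _ (fun (z : ι → ℂ) k => z (s k)) (vgal_maps hx s) h2 fun b => if P b then 1 else 0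
  have e2 := vgal_sum _ _ (fun (z : ι → ℂ) k => z (s k)) (vgal_maps hx s) h2 fun _ => 1
  rw [Finset.sum_const, Finset.sum_const, nsmul_eq_mul, nsmul_eq_mul, mul_one, mul_one,
    card_fO (galO F fun k => x (s k))] at e2
  have e3 : {z | z ∈ (galO F fun k => x (s k)) ∧ P z} =
      {z | z ∈ fO (galO F fun k => x (s k)) ∧ P z} := by
    ext z
    simp only [Set.mem_setOf_eq, mem_fO hf]
  rw [e3, vgal_card] at h
  rw [vgal_card, e1, e2]
  calc _ ≤ (c : ℝ) * (δ * (galO F fun k => x (s k)).ncard) :=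
        mul_le_mul_of_nonneg_left h (Nat.cast_nonneg c)
    _ = _ := by ring

theorem card_comp2 (hx : (galO F x).Finite) (s : ι' → ι) (P : (ι' → ℂ) → (ι' → ℂ) → Prop) {δ : ℝ}
    (h : ({z : (ι' → ℂ) × (ι' → ℂ) | z.1 ∈ (galO F fun k => x (s k)) ∧
      z.2 ∈ (galO F fun k => x (s k)) ∧ P z.1 z.2}.ncard : ℝ) ≤
      δ * (galO F fun k => x (s k)).ncard ^ 2) :
    ({z : (ι → ℂ) × (ι → ℂ) | z.1 ∈ fO (galO F x) ∧ z.2 ∈ fO (galO F x) ∧
      P (fun k => z.1 (s k)) fun k => z.2 (s k)}.ncard : ℝ) ≤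
      δ * (fO (galO F x)).card ^ 2 := by
  classical
  obtain ⟨c, -, h2⟩ := vgal_fib hx s
  have hf := vgal_fin hx s
  have e0 : ∀ a : ι' → ℂ, ∑ z ∈ fO (galO F x), (if P a fun k => z (s k) then (1 : ℝ) else 0) =
      c * ∑ b ∈ fO (galO F fun k => x (s k)), if P a b then (1 : ℝ) else 0 := fun a =>
    vgal_sum _ _ (fun (z : ι → ℂ) k => z (s k)) (vgal_maps hx s) h2 fun b => if P a b then 1 else 0
  have e1 := vgal_sum _ _ (fun (z : ι → ℂ) k => z (s k)) (vgal_maps hx s) h2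
    fun a => ∑ b ∈ fO (galO F fun k => x (s k)), if P a b then (1 : ℝ) else 0
  have e2 := vgal_sum _ _ (fun (z : ι → ℂ) k => z (s k)) (vgal_maps hx s) h2 fun _ => 1
  rw [Finset.sum_const, Finset.sum_const, nsmul_eq_mul, nsmul_eq_mul, mul_one, mul_one,
    card_fO (galO F fun k => x (s k))] at e2
  have e3 : {z : (ι' → ℂ) × (ι' → ℂ) | z.1 ∈ (galO F fun k => x (s k)) ∧
      z.2 ∈ (galO F fun k => x (s k)) ∧ P z.1 z.2} =
      {z : (ι' → ℂ) × (ι' → ℂ) | z.1 ∈ fO (galO F fun k => x (s k)) ∧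
      z.2 ∈ fO (galO F fun k => x (s k)) ∧ P z.1 z.2} := by
    ext z
    simp only [Set.mem_setOf_eq, mem_fO hf]
  rw [e3, vgal_card2] at h
  rw [vgal_card2 (fO (galO F x)) fun a b => P (fun k => a (s k)) fun k => b (s k)]
  simp only [e0]
  rw [← Finset.mul_sum, e1, e2]
  calc _ ≤ (c : ℝ) * (c * (δ * ((galO F fun k => x (s k)).ncard : ℝ) ^ 2)) :=
        mul_le_mul_of_nonneg_left (mul_le_mul_of_nonneg_left h (Nat.cast_nonneg c))
          (Nat.cast_nonneg c)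
    _ = _ := by ring

/-- A finite union of orbits contains an orbit with a worse average. -/
theorem exists_worst {Z : Set (ι → ℂ)} (hZ : Z.Finite) (hne : Z.Nonempty)
    (h : ∀ z ∈ Z, galO F z ⊆ Z) (G : (ι → ℂ) → ℝ) :
    ∃ z ∈ Z, |avg (fO Z) G| ≤ |avg (fO (galO F z)) G| := by
  classical
  have hne' : (fO Z).Nonempty := hne.imp fun z hz => (mem_fO hZ).2 hz
  have hf : ∀ z ∈ Z, (galO F z).Finite := fun z hz => hZ.subset (h z hz)
  obtain ⟨z, hz, hmax⟩ := (fO Z).exists_max_image (fun z => |avg (fO (galO F z)) G|) hne'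
  refine ⟨z, (mem_fO hZ).1 hz, ?_⟩
  have e : ∑ u ∈ fO Z, G u = ∑ u ∈ fO Z, avg (fO (galO F u)) G := by
    have hm : ∀ u ∈ fO Z, fO (galO F u) ∈ (fO Z).image fun u => fO (galO F u) :=
      fun u hu => Finset.mem_image_of_mem _ hu
    rw [← Finset.sum_fiberwise_of_maps_to hm G,
      ← Finset.sum_fiberwise_of_maps_to hm fun u => avg (fO (galO F u)) G]
    refine Finset.sum_congr rfl fun O hO => ?_
    obtain ⟨v, hv, rfl⟩ := Finset.mem_image.1 hO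
    have hv' := (mem_fO hZ).1 hv
    have e1 : ((fO Z).filter fun u => fO (galO F u) = fO (galO F v)) = fO (galO F v) := by
      ext u
      rw [Finset.mem_filter, mem_fO hZ, mem_fO (hf v hv')]
      constructor
      · rintro ⟨hu, e⟩
        rw [← mem_fO (hf v hv'), ← e, mem_fO (hf u hu)]
        exact galO_self F u
      · intro hu
        exact ⟨h v hv' hu, by rw [galO_of_mem hu]⟩
    have e2 : ∑ u ∈ (fO Z).filter (fun u => fO (galO F u) = fO (galO F v)),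
        avg (fO (galO F u)) G = ∑ u ∈ (fO Z).filter (fun u => fO (galO F u) = fO (galO F v)),
        avg (fO (galO F v)) G :=
      Finset.sum_congr rfl fun u hu => by rw [(Finset.mem_filter.1 hu).2]
    have hpos : ((fO (galO F v)).card : ℝ) ≠ 0 := by
      have : (fO (galO F v)).Nonempty := ⟨v, (mem_fO (hf v hv')).2 (galO_self F v)⟩
      exact_mod_cast this.card_pos.ne'
    rw [e2, e1, Finset.sum_const, nsmul_eq_mul, avg, mul_div_cancel₀ _ hpos]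
  have e' : avg (fO Z) G = avg (fO Z) fun u => avg (fO (galO F u)) G := by
    rw [avg, e]
    rfl
  rw [e']
  exact abs_avg_le hne' _ hmax

end Pool.Agent.EQ
end
end
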