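import Pool.Agent.K.MP_ad7a55_nt.C53
import Pool.Agent.K.MP_ad7a55_nt.C57
import Pool.Agent.K.MP_ad7a55_nt.C59
import Pool.Agent.K.MP_ad7a55_nt.C46
import Pool.Agent.K.MP_ad7a55_nt.C58
import Pool.Agent.K.MP_ad7a55_nt.C60
import Pool.Agent.Lib.Sieve.Mertens
import Pool.Agent.K.MP_ad7a55_nt.C54

-- part Pool.Agent.P.MP_ad7a55_nt.VMv
section

/-! Multiplications in a frame are close to unipotent or diagonal elements. -/

set_option autoImplicit false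

noncomputable section

open MeasureTheory Topology Filter UpperHalfPlane
open scoped MatrixGroups ENNReal BoundedContinuousFunction

namespace Pool.Agent.EQ

variable {p : ℕ} [Fact p.Prime] {N : ℕ}

theorem vmv_cancel (g : SL(2, ℚ_[p])) {X Y : Matrix (Fin 2) (Fin 2) ℚ_[p]}
    (h : X * (g : Matrix (Fin 2) (Fin 2) ℚ_[p]) = Y * (g : Matrix (Fin 2) (Fin 2) ℚ_[p])) :
    X = Y := by
  have h1 : (g : Matrix (Fin 2) (Fin 2) ℚ_[p]) *
      ((g⁻¹ : SL(2, ℚ_[p])) : Matrix (Fin 2) (Fin 2) ℚ_[p]) = 1 := by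
    rw [← Matrix.SpecialLinearGroup.coe_mul, mul_inv_cancel, Matrix.SpecialLinearGroup.coe_one]
  rw [← Matrix.mul_one X, ← Matrix.mul_one Y, ← h1, ← Matrix.mul_assoc, ← Matrix.mul_assoc, h]

theorem vmv_eq {D : ℤ} {g : GG p} {Θ : Matrix (Fin 2) (Fin 2) ℤ} {V : SL(2, ℚ_[p])} {A B : ℚ}
    (h : ThM D g.1 Θ) (hV : Rot p (A + B * th D) g V) {S : Matrix (Fin 2) (Fin 2) ℚ_[p]}
    (hS : (g.2 : Matrix (Fin 2) (Fin 2) ℚ_[p]) * Θ.map (↑) =
      S * (g.2 : Matrix (Fin 2) (Fin 2) ℚ_[p])) :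
    (V : Matrix (Fin 2) (Fin 2) ℚ_[p]) = (A : ℚ_[p]) • 1 + (B : ℚ_[p]) • S := by
  refine vmv_cancel g.2 ?_
  rw [Rot.eq h hV, hS, Matrix.add_mul, Matrix.smul_mul, Matrix.smul_mul, Matrix.one_mul]

theorem vmv_int {g : GG p} (hg : g.2 ∈ Kp p) (Θ : Matrix (Fin 2) (Fin 2) ℤ) :
    ∃ S : Matrix (Fin 2) (Fin 2) ℚ_[p], Bd 1 S ∧
      (g.2 : Matrix (Fin 2) (Fin 2) ℚ_[p]) * Θ.map (↑) =
        S * (g.2 : Matrix (Fin 2) (Fin 2) ℚ_[p]) := by
  refine ⟨(g.2 : Matrix (Fin 2) (Fin 2) ℚ_[p]) * Θ.map (↑) *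
    ((g.2⁻¹ : SL(2, ℚ_[p])) : Matrix (Fin 2) (Fin 2) ℚ_[p]), ?_, ?_⟩
  · exact Bd.K (fun i j => Padic.norm_int_le_one (p := p) (Θ i j)) hg ((Kp p).inv_mem hg)
  · rw [Matrix.mul_assoc _ _ (g.2 : Matrix (Fin 2) (Fin 2) ℚ_[p]),
      ← Matrix.SpecialLinearGroup.coe_mul, inv_mul_cancel, Matrix.SpecialLinearGroup.coe_one,
      Matrix.mul_one]

theorem vmv_small (p : ℕ) [Fact p.Prime] {ε : ℝ} (hε : 0 < ε) : ∃ m₀ : ℕ, ∀ m : ℕ, m₀ ≤ m →
    (p : ℝ) ^ (-(m : ℤ)) ≤ ε ∧ (p : ℝ) ^ (-(m : ℤ)) < 1 := by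
  have hp : (1 : ℝ) < p := by exact_mod_cast (Fact.out : p.Prime).one_lt
  obtain ⟨n, hn⟩ := pow_unbounded_of_one_lt ε⁻¹ hp
  refine ⟨n + 1, fun m hm => ⟨?_, zpow_lt_one_of_neg₀ hp (by omega)⟩⟩
  rw [zpow_neg, zpow_natCast]
  refine inv_le_of_inv_le₀ hε (hn.le.trans (pow_le_pow_right₀ hp.le (by omega)))

theorem vmv_sq {x y : ℝ} (hy : 0 ≤ y) (h : x ^ 2 ≤ y ^ 2) : x ≤ y :=
  le_of_sq_le_sq h hy

theorem vmv_add_le {x y : ℚ_[p]} {R : ℝ} (hx : ‖x‖ ≤ R) (hy : ‖y‖ ≤ R) : ‖x + y‖ ≤ R :=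
  (Padic.nonarchimedean _ _).trans (max_le hx hy)

theorem vmv_dg_pow {a : ℚ_[p]} (ha : a ≠ 0) (i : ℕ) :
    dg a ha ^ i = dg (a ^ i) (pow_ne_zero i ha) := by
  induction i with
  | zero => ext i j; fin_cases i <;> fin_cases j <;> simp
  | succ n ih =>
    rw [pow_succ, ih]
    ext i j
    fin_cases i <;> fin_cases j <;> simp [Matrix.mul_apply, Fin.sum_univ_two, pow_succ, mul_comm]

theorem frame_lift (p : ℕ) [Fact p.Prime] (hN : 0 < N) {τ : ℍ} {D : ℤ} (h : HasDisc τ D) :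
    ∃ (g : GG p) (Θ : Matrix (Fin 2) (Fin 2) ℤ) (e : ℚ_[p]), g.2 ∈ Kp p ∧ ThM D g.1 Θ ∧
      piX p (g : XX p) = jInv τ ∧
      (‖(D : ℚ_[p])‖ ≤ ‖(4 : ℚ_[p])‖ → (g.2 : Matrix (Fin 2) (Fin 2) ℚ_[p]) * Θ.map (↑) =
        !![0, e; D / e, 0] * (g.2 : Matrix (Fin 2) (Fin 2) ℚ_[p]) ∧ ‖e‖ = ‖(2 : ℚ_[p])‖) ∧
      (¬ ‖(D : ℚ_[p])‖ ≤ ‖(4 : ℚ_[p])‖ → e = 0) ∧
      ∃ γ ∈ Gam p, ∃ κ ∈ Kp p, ∃ δ ∈ CongruenceSubgroup.Gamma N,
        pt p N ((1, κ) * (g * γ)) = δ • τ := by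
  by_cases hD : ‖(D : ℚ_[p])‖ ≤ ‖(4 : ℚ_[p])‖
  · obtain ⟨x, e, ⟨g, Θ, rfl, hK, hR, hP, he⟩, h2⟩ := exists_frame_aux p h hD
    exact ⟨g, Θ, e, hK, hR, h2, fun _ => ⟨hP, he⟩, fun h' => absurd hD h',
      exists_lift hN g h2.symm⟩
  · obtain ⟨a, b, c, ha, -, hr, hDe⟩ := id h
    obtain ⟨g, hg1, hg2⟩ := frame_real ha hr
    have hx : piX p (((g, 1) : GG p) : XX p) = jInv τ := by
      rw [piX, toY_mk p (g := (g, 1)) (Kp p).one_mem, jY_mk, hg1]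
    refine ⟨(g, 1), !![b, 2 * c; -(2 * a), -b], 0, (Kp p).one_mem, ?_, hx,
      fun h' => absurd h' hD, fun _ => rfl, exists_lift hN _ hx.symm⟩
    rw [hDe]
    exact hg2

theorem move_U (p : ℕ) [Fact p.Prime] (hN : 0 < N) : ∃ m₀ : ℕ, ∀ m, m₀ ≤ m →
    ∀ (D : ℤ) (g : GG p) (Θ : Matrix (Fin 2) (Fin 2) ℤ) (e y : ℚ_[p]) (V : SL(2, ℚ_[p])) (A B : ℚ),
      g.2 ∈ Kp p → ThM D g.1 Θ →
      (‖(D : ℚ_[p])‖ ≤ ‖(4 : ℚ_[p])‖ → (g.2 : Matrix (Fin 2) (Fin 2) ℚ_[p]) * Θ.map (↑) =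
        !![0, e; D / e, 0] * (g.2 : Matrix (Fin 2) (Fin 2) ℚ_[p]) ∧ ‖e‖ = ‖(2 : ℚ_[p])‖) →
      (¬ ‖(D : ℚ_[p])‖ ≤ ‖(4 : ℚ_[p])‖ → e = 0) → Rot p (A + B * th D) g V →
      ‖(A : ℚ_[p]) - 1‖ ≤ (p : ℝ) ^ (-(m : ℤ)) → ‖(B : ℚ_[p]) ^ 2 * D‖ ≤ (p : ℝ) ^ (-(m : ℤ)) →
      ‖(B : ℚ_[p]) + A * y‖ ≤ ‖(N : ℚ_[p])‖ → V * (uu (-e * y))⁻¹ ∈ KN p N := by
  have hN0 : 0 < ‖(N : ℚ_[p])‖ := norm_pos_iff.2 (by exact_mod_cast hN.ne')
  have hN1 : ‖(N : ℚ_[p])‖ ≤ 1 := vgn_nat N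
  have h2n : 0 < ‖(2 : ℚ_[p])‖ := norm_pos_iff.2 (frame_two_ne p)
  have h21 : ‖(2 : ℚ_[p])‖ ≤ 1 := by simpa using vgn_nat (p := p) 2
  have h4n : 0 < ‖(4 : ℚ_[p])‖ := by rw [frame_four]; positivity
  have h41 : ‖(4 : ℚ_[p])‖ ≤ 1 := by simpa using vgn_nat (p := p) 4
  obtain ⟨m₀, hm₀⟩ := vmv_small p (ε := ‖(N : ℚ_[p])‖ ^ 2 * ‖(4 : ℚ_[p])‖) (by positivity)
  refine ⟨m₀, fun m hm D g Θ e y V A B hg hT h1 h2 hV hA hB hy => ?_⟩
  obtain ⟨hδ, hδ1⟩ := hm₀ m hm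
  have hδ2 : (p : ℝ) ^ (-(m : ℤ)) ≤ ‖(N : ℚ_[p])‖ ^ 2 :=
    hδ.trans (mul_le_of_le_one_right (by positivity) h41)
  have hδN : (p : ℝ) ^ (-(m : ℤ)) ≤ ‖(N : ℚ_[p])‖ :=
    hδ2.trans (by nlinarith)
  have hA1 : ‖(A : ℚ_[p])‖ = 1 := umv_norm_one hδ1 hA
  rw [uu_inv]
  refine vgn_mem ?_
  by_cases hD : ‖(D : ℚ_[p])‖ ≤ ‖(4 : ℚ_[p])‖
  · obtain ⟨hP, he⟩ := h1 hD
    have he0 : e ≠ 0 := by
      intro h0; rw [h0, norm_zero] at he; exact h2n.ne he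
    have hE := vmv_eq hT hV hP
    have hc : ‖(B : ℚ_[p]) * (D / e)‖ ≤ ‖(N : ℚ_[p])‖ := by
      refine vmv_sq hN0.le ?_
      have e1 : ‖(B : ℚ_[p]) * (D / e)‖ ^ 2 =
          ‖(B : ℚ_[p]) ^ 2 * D‖ * (‖(D : ℚ_[p])‖ / ‖(4 : ℚ_[p])‖) := by
        rw [frame_four, ← he, norm_mul, norm_mul, norm_div, norm_pow]
        ring
      rw [e1]
      exact (mul_le_of_le_one_right (norm_nonneg _) ((div_le_one h4n).2 hD)).trans (hB.trans hδ2)
    have hBD : ‖(B : ℚ_[p]) * D‖ ≤ 1 := by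
      have : (B : ℚ_[p]) * D = (B * (D / e)) * e := by field_simp
      rw [this, norm_mul, he]
      exact mul_le_one₀ (hc.trans hN1) (norm_nonneg _) h21
    have hd : ‖(B : ℚ_[p]) * D * y‖ ≤ ‖(N : ℚ_[p])‖ := by
      have e1 : ‖(B : ℚ_[p]) * D * y‖ = ‖(B : ℚ_[p]) * D * (B + A * y) + -(B ^ 2 * D)‖ := by
        rw [← mul_one ‖(B : ℚ_[p]) * D * y‖, ← hA1, ← norm_mul]
        congr 1
        ring
      rw [e1]
      refine vmv_add_le ?_ (by rw [norm_neg]; exact hB.trans hδN)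
      rw [norm_mul]
      exact (mul_le_of_le_one_left (norm_nonneg _) hBD).trans hy
    intro i j
    rw [Matrix.SpecialLinearGroup.coe_mul, hE]
    fin_cases i <;> fin_cases j
    · simpa [Matrix.mul_apply, Fin.sum_univ_two] using hA.trans hδN
    · have : ‖e * (B + A * y)‖ ≤ ‖(N : ℚ_[p])‖ := by
        rw [norm_mul, he]
        exact (mul_le_of_le_one_left (norm_nonneg _) h21).trans hy
      refine le_of_eq_of_le ?_ this
      congr 1
      simp [Matrix.mul_apply, Fin.sum_univ_two]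
      ring
    · refine le_of_eq_of_le ?_ hc
      congr 1
      simp [Matrix.mul_apply, Fin.sum_univ_two]
    · refine le_of_eq_of_le ?_ (vmv_add_le hd (hA.trans hδN))
      congr 1
      simp [Matrix.mul_apply, Fin.sum_univ_two]
      field_simp
      ring
  · obtain ⟨S, hS, hP⟩ := vmv_int hg Θ
    have hE := vmv_eq hT hV hP
    have hB' : ‖(B : ℚ_[p])‖ ≤ ‖(N : ℚ_[p])‖ := by
      refine vmv_sq hN0.le (le_of_mul_le_mul_right ?_ h4n)
      refine le_trans ?_ (hB.trans hδ)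
      rw [norm_mul, norm_pow]
      exact mul_le_mul_of_nonneg_left (not_le.1 hD).le (by positivity)
    intro i j
    rw [h2 hD, neg_zero, zero_mul, neg_zero, uu_zero, mul_one, hE]
    have e1 : ((A : ℚ_[p]) • (1 : Matrix (Fin 2) (Fin 2) ℚ_[p]) + (B : ℚ_[p]) • S) i j -
        (1 : Matrix (Fin 2) (Fin 2) ℚ_[p]) i j =
        (A - 1) * (1 : Matrix (Fin 2) (Fin 2) ℚ_[p]) i j + B * S i j := by
      simp only [Matrix.add_apply, Matrix.smul_apply, smul_eq_mul]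
      ring
    rw [e1]
    refine vmv_add_le ?_ ?_ <;> rw [norm_mul]
    · exact (mul_le_of_le_one_right (norm_nonneg _) ((Kp p).one_mem i j)).trans (hA.trans hδN)
    · exact (mul_le_of_le_one_right (norm_nonneg _) (hS i j)).trans hB'

theorem bd_U {D : ℤ} {g : GG p} {Θ : Matrix (Fin 2) (Fin 2) ℤ} {V : SL(2, ℚ_[p])} {A B : ℚ}
    {s : ℕ} (hg : g.2 ∈ Kp p) (h : ThM D g.1 Θ) (hV : Rot p (A + B * th D) g V)
    (hA : ‖(A : ℚ_[p])‖ ≤ 1) (hB : ‖(B : ℚ_[p])‖ ≤ (p : ℝ) ^ s) :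
    Bd ((p : ℝ) ^ s) (V : Matrix (Fin 2) (Fin 2) ℚ_[p]) := by
  have hp : (1 : ℝ) ≤ p := by exact_mod_cast (Fact.out : p.Prime).one_lt.le
  obtain ⟨S, hS, hP⟩ := vmv_int hg Θ
  intro i j
  rw [vmv_eq h hV hP]
  simp only [Matrix.add_apply, Matrix.smul_apply, smul_eq_mul]
  refine vmv_add_le ?_ ?_ <;> rw [norm_mul]
  · exact (mul_le_one₀ hA (norm_nonneg _) ((Kp p).one_mem i j)).trans (one_le_pow₀ hp)
  · exact (mul_le_of_le_one_right (norm_nonneg _) (hS i j)).trans hB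

theorem exists_s (p : ℕ) [Fact p.Prime] (B : ℝ) : ∃ m₀ : ℕ, ∀ m, m₀ ≤ m → ∀ D : ℤ, D < 0 →
    B ≤ -(D : ℝ) → ∃ s : ℕ, (p : ℝ) ^ (2 * s) * B ≤ -(D : ℝ) ∧
      ∀ b : ℚ_[p], ‖b ^ 2 * D‖ ≤ (p : ℝ) ^ (-(m : ℤ)) → ‖b‖ ≤ (p : ℝ) ^ s := by
  have hp : (1 : ℝ) < p := by exact_mod_cast (Fact.out : p.Prime).one_lt
  have hp0 : (0 : ℝ) < p := one_pos.trans hp
  obtain ⟨n, hn⟩ := pow_unbounded_of_one_lt B hp
  refine ⟨n + 1, fun m hm D hD hB => ⟨(padicValInt p D - m + 1) / 2, ?_, fun b hb => ?_⟩⟩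
  · rcases le_or_gt (padicValInt p D) m with h | h
    · rw [Nat.sub_eq_zero_of_le h]
      simpa using hB
    · have h1 : ((p : ℤ) ^ padicValInt p D) ≤ -D :=
        Int.le_of_dvd (neg_pos.2 hD) (dvd_neg.2 (padicValInt_dvd D))
      have h2 : (p : ℝ) ^ padicValInt p D ≤ -(D : ℝ) := by exact_mod_cast h1
      refine le_trans ?_ h2
      refine (mul_le_mul_of_nonneg_left hn.le (by positivity)).trans ?_
      rw [← pow_add]
      exact pow_le_pow_right₀ hp.le (by omega)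
  · refine vmv_sq (by positivity) ?_
    rw [norm_mul, norm_pow, norm_int_eq p hD.ne, zpow_neg, ← div_eq_mul_inv,
      div_le_iff₀ (by positivity), ← zpow_add₀ hp0.ne'] at hb
    refine hb.trans ?_
    rw [← pow_mul, ← zpow_natCast]
    exact zpow_le_zpow_right₀ hp.le (by omega)

theorem move_D (p : ℕ) [Fact p.Prime] (hN : 0 < N) (c : ℕ) : ∃ m : ℕ,
    ∀ (D : ℤ) (g : GG p) (Θ : Matrix (Fin 2) (Fin 2) ℤ) (r : ℚ_[p]) (h V : SL(2, ℚ_[p])) (a b : ℚ),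
      Bd ((p : ℝ) ^ c) (h : Matrix (Fin 2) (Fin 2) ℚ_[p]) → ThM D g.1 Θ →
      ((h⁻¹ * g.2 : SL(2, ℚ_[p])) : Matrix (Fin 2) (Fin 2) ℚ_[p]) * Θ.map (↑) =
        !![r, 0; 0, -r] * ((h⁻¹ * g.2 : SL(2, ℚ_[p])) : Matrix (Fin 2) (Fin 2) ℚ_[p]) →
      Rot p (a + b * th D) g V → ‖((a : ℚ_[p]) + b * r) / p - 1‖ ≤ (p : ℝ) ^ (-(m : ℤ)) →
      ∀ i : ℕ, V ^ i * (h * (aP p i).2 * h⁻¹)⁻¹ ∈ KN p N ∧
        Bd ((p : ℝ) ^ (2 * c + i)) ((V ^ i : SL(2, ℚ_[p])) : Matrix (Fin 2) (Fin 2) ℚ_[p]) := by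
  have hp : (1 : ℝ) < p := by exact_mod_cast (Fact.out : p.Prime).one_lt
  have hp0 : (p : ℚ_[p]) ≠ 0 := Nat.cast_ne_zero.2 (Fact.out : p.Prime).ne_zero
  have hM : 0 < ‖((N * p ^ (2 * c) : ℕ) : ℚ_[p])‖ := by
    refine norm_pos_iff.2 (Nat.cast_ne_zero.2 ?_)
    exact (Nat.mul_pos hN (pow_pos (Fact.out : p.Prime).pos _)).ne'
  obtain ⟨m, hm⟩ := vmv_small p hM
  obtain ⟨hδ, hδ1⟩ := hm m le_rfl
  refine ⟨m, fun D g Θ r h V a b hh hT hP hV hu i => ?_⟩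
  have hi : (h : Matrix (Fin 2) (Fin 2) ℚ_[p]) *
      ((h⁻¹ : SL(2, ℚ_[p])) : Matrix (Fin 2) (Fin 2) ℚ_[p]) = 1 := by
    rw [← Matrix.SpecialLinearGroup.coe_mul, mul_inv_cancel, Matrix.SpecialLinearGroup.coe_one]
  have hi' : ((h⁻¹ : SL(2, ℚ_[p])) : Matrix (Fin 2) (Fin 2) ℚ_[p]) *
      (h : Matrix (Fin 2) (Fin 2) ℚ_[p]) = 1 := by
    rw [← Matrix.SpecialLinearGroup.coe_mul, inv_mul_cancel, Matrix.SpecialLinearGroup.coe_one]
  have hS : (g.2 : Matrix (Fin 2) (Fin 2) ℚ_[p]) * Θ.map (↑) =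
      ((h : Matrix (Fin 2) (Fin 2) ℚ_[p]) * !![r, 0; 0, -r] *
        ((h⁻¹ : SL(2, ℚ_[p])) : Matrix (Fin 2) (Fin 2) ℚ_[p])) *
          (g.2 : Matrix (Fin 2) (Fin 2) ℚ_[p]) := by
    rw [Matrix.SpecialLinearGroup.coe_mul] at hP
    rw [Matrix.mul_assoc, Matrix.mul_assoc, ← hP, ← Matrix.mul_assoc, ← Matrix.mul_assoc, hi,
      Matrix.one_mul]
  have hE := vmv_eq hT hV hS
  have hW : ((h⁻¹ * V * h : SL(2, ℚ_[p])) : Matrix (Fin 2) (Fin 2) ℚ_[p]) =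
      !![(a : ℚ_[p]) + b * r, 0; 0, a - b * r] := by
    have e1 : ((h⁻¹ * V * h : SL(2, ℚ_[p])) : Matrix (Fin 2) (Fin 2) ℚ_[p]) =
        (a : ℚ_[p]) • 1 + (b : ℚ_[p]) • !![r, 0; 0, -r] := by
      rw [Matrix.SpecialLinearGroup.coe_mul, Matrix.SpecialLinearGroup.coe_mul, hE,
        Matrix.mul_add, Matrix.add_mul, Matrix.mul_smul, Matrix.mul_smul, Matrix.smul_mul,
        Matrix.smul_mul, Matrix.mul_one, hi', ← Matrix.mul_assoc, ← Matrix.mul_assoc, hi',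
        Matrix.one_mul, Matrix.mul_assoc, hi', Matrix.mul_one]
    rw [e1]
    ext i j
    fin_cases i <;> fin_cases j <;> simp [sub_eq_add_neg]
  have hdet : ((a : ℚ_[p]) + b * r) * (a - b * r) = 1 := by
    have := (h⁻¹ * V * h).det_coe
    rw [hW, Matrix.det_fin_two_of] at this
    simpa using this
  have hα : (a : ℚ_[p]) + b * r ≠ 0 := left_ne_zero_of_mul_eq_one hdet
  have hWd : h⁻¹ * V * h = dg ((a : ℚ_[p]) + b * r) hα := by
    refine Subtype.ext ?_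
    rw [hW, dg_val, eq_inv_of_mul_eq_one_right hdet]
  have hVd : V ^ i = h * dg (((a : ℚ_[p]) + b * r) ^ i) (pow_ne_zero i hα) * h⁻¹ := by
    rw [← vmv_dg_pow hα, ← hWd, ← conj_pow]
    congr 1
    group
  set u : ℚ_[p] := ((a : ℚ_[p]) + b * r) / p with hudef
  have hu1 := umv_pow_sub hδ1 hu i
  obtain ⟨hu0, hu2⟩ := umv_inv_sub hδ1 hu1
  have hαu : ((a : ℚ_[p]) + b * r) ^ i = u ^ i * (p : ℚ_[p]) ^ i := by
    rw [← mul_pow, hudef, div_mul_cancel₀ _ hp0]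
  constructor
  · have hk : dg (u ^ i) hu0 ∈ KN p (N * p ^ (2 * c)) := by
      refine vgn_mem fun i j => ?_
      fin_cases i <;> fin_cases j
      · simpa using hu1.trans hδ
      · simpa using hM.le
      · simpa using hM.le
      · simpa using hu2.trans hδ
    have e1 : dg (((a : ℚ_[p]) + b * r) ^ i) (pow_ne_zero i hα) = dg (u ^ i) hu0 * (aP p i).2 := by
      refine Subtype.ext ?_
      rw [dg_val, hαu]
      ext k l
      fin_cases k <;> fin_cases l <;>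
        simp [aP, Matrix.mul_apply, Fin.sum_univ_two, mul_comm]
    have e2 : V ^ i * (h * (aP p i).2 * h⁻¹)⁻¹ = h * dg (u ^ i) hu0 * h⁻¹ := by
      rw [hVd, e1]
      group
    rw [e2]
    exact KN_conj_bd hk hh
  · have hn : ‖((a : ℚ_[p]) + b * r) ^ i‖ = ((p : ℝ) ^ i)⁻¹ := by
      rw [hαu, norm_mul, umv_norm_one hδ1 hu1, one_mul, norm_pow, Padic.norm_p, inv_pow]
    have h1 : (1 : ℝ) ≤ (p : ℝ) ^ i := one_le_pow₀ hp.le
    have hb : Bd ((p : ℝ) ^ i) (dg (((a : ℚ_[p]) + b * r) ^ i) (pow_ne_zero i hα) :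
        Matrix (Fin 2) (Fin 2) ℚ_[p]) := by
      intro k l
      rw [dg_val]
      fin_cases k <;> fin_cases l
      · exact hn.le.trans ((inv_le_one_of_one_le₀ h1).trans h1)
      · simp
      · simp
      · show ‖(((a : ℚ_[p]) + b * r) ^ i)⁻¹‖ ≤ _
        rw [norm_inv, hn, inv_inv]
    have := hom_bd_mulP (hom_bd_mulP hh hb) (hom_bd_inv hh)
    rw [hVd, Matrix.SpecialLinearGroup.coe_mul, Matrix.SpecialLinearGroup.coe_mul,
      show (p : ℝ) ^ (2 * c + i) = (p : ℝ) ^ c * (p : ℝ) ^ i * (p : ℝ) ^ c by ring]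
    exact this

theorem Rot.disc {w : ℂ} {g : GG p} {V : SL(2, ℚ_[p])} (h : Rot p w g V) {D : ℤ}
    (hD : DiscL (latG p g) D) (hw : InK D w) (i : ℕ) :
    DiscL (latG p ((1, V ^ i) * g)) D ∧ Rot p w ((1, V ^ i) * g) V := by
  constructor
  · rw [← latA_zero 1, (h.pow i).latA one_pos, latA_zero]
    exact discL_star p hD ((hw.pow_star hD.isD.1 i).inv hD.isD.1)
  · have := h.left (V ^ i)
    rwa [show V ^ i * V * (V ^ i)⁻¹ = V by group] at this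

end Pool.Agent.EQ
end
end

-- part Pool.Agent.P.MP_ad7a55_nt.VRc
section

/-! Reciprocity law for points of level N. -/

set_option autoImplicit false

noncomputable section

open MeasureTheory Topology Filter UpperHalfPlane
open scoped MatrixGroups ENNReal BoundedContinuousFunction

namespace Pool.Agent.EQ

variable {p : ℕ} [Fact p.Prime] {N : ℕ}

theorem vrc_inK {D E : ℤ} (hD : IsD D) (hE : IsD E) (h : OD E ≤ OD D) {w : ℂ} (hw : InK E w) :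
    InK D w := by
  obtain ⟨c, -, rfl⟩ := exists_cond hD hE h
  refine cm_inK_ratio (ρ := c) ?_ hw
  rw [th_mul_sq, Rat.cast_natCast]

theorem vrc_disc {w : ℂ} {g : GG p} {V : SL(2, ℚ_[p])} (hV : Rot p w g V) {D : ℤ}
    (hD : DiscL (latG p g) D) (hw : InK D w) : DiscL (latG p ((1, V) * g)) D := by
  rw [← latA_zero 1, hV.latA one_pos, latA_zero]
  exact discL_star p hD (hw.inv hD.isD.1)

theorem vrc_mul (a b : SL(2, ℚ_[p])) (g : GG p) :
    ((1, a) : GG p) * ((1, b) * g) = (1, a * b) * g :=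
  Prod.ext (one_mul _) (mul_assoc _ _ _).symm

theorem vrc_ginv {L : IntermediateField ℚ ℂ} {f : ℍ → ℂ} (hf : f ∈ MF N L) : GInv N f :=
  fun _ hγ τ => MF.inv hf hγ τ

theorem vrc_down (hN : 0 < N) {N' : ℕ} (hN' : 0 < N') (h : N ∣ N') {L : IntermediateField ℚ ℂ}
    {σ : ℂ ≃+* ℂ} {g g' : GG p} {δ : SL(2, ℤ)}
    (H : ∀ f ∈ MF N' L, σ (f (pt p N' g)) = f (δ • pt p N' g')) :
    ∀ f ∈ MF N L, σ (f (pt p N g)) = f (δ • pt p N g') := fun f hf => by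
  rw [← (vrc_ginv hf).pt_level hN hN' h g, H f (MF.mono hN' h le_rfl hf)]
  exact (vrc_ginv (MF.smul hf δ)).pt_level hN hN' h g'

/-- The weak law at one point. -/
theorem rec_pt (hN : 0 < N) {L : IntermediateField ℚ ℂ} (hz : zt N ∈ L) {σ : ℂ ≃+* ℂ}
    (hσ : ∀ a ∈ L, σ a = a) {E : ℤ} (hE : IsD E) {w : ℂ} (hw : InK E w)
    (h : ∀ D Λ, D < -576 → OD E ≤ OD D → DiscL Λ D → σ (jL Λ) = jL (star p w⁻¹ Λ))
    {g : GG p} {V : SL(2, ℚ_[p])} (hV : Rot p w g V) {D : ℤ} (hD : DiscL (latG p g) D)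
    (hle : OD E ≤ OD (N ^ 2 * D)) (hb : 577 * (N : ℤ) ^ 2 ≤ -D) :
    ∃ δ, Scal N δ ∧ ∀ f ∈ MF N L, σ (f (pt p N g)) = f (δ • pt p N ((1, V) * g)) := by
  have hN2 : (0 : ℤ) < (N : ℤ) ^ 2 := by positivity
  have key : ∀ α β : ℤ, σ (jL (latA p N α β g)) = jL (latA p N α β ((1, V) * g)) := fun α β => by
    obtain ⟨l1, l2⟩ := latA_le N α β g
    obtain ⟨D', h1, h2, h3⟩ := disc_between hD hN l2 l1
    have h4 : 577 ≤ -D' := le_of_mul_le_mul_left (by linarith) hN2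
    rw [hV.latA hN]
    exact h D' _ (by omega) (hle.trans h2) h1
  have hd := vrc_disc hV hD (vrc_inK hD.isD hE (hle.trans (OD_sq_le hD.isD N)) hw)
  obtain ⟨a0, a1, a2, a3⟩ := jL_latA hN g
  obtain ⟨b0, b1, b2, b3⟩ := jL_latA hN ((1, V) * g)
  refine weak_rec hN hz hσ (hasDisc_pt hN hd) (by linarith) ?_ ?_ ?_ ?_
  · rw [← a0, ← b0, key]
  · rw [← a1, ← b1, key]
  · rw [← a2, ← b2, key]
  · rw [← a3, ← b3, key]

/-- The scalar is the same at the two ends of an isogeny. -/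
theorem rec_step (hN : 0 < N) {L : IntermediateField ℚ ℂ} (hz : zt (N * p ^ 2) ∈ L) :
    ∃ B : ℝ, ∀ (σ : ℂ ≃+* ℂ) (g g' : GG p) (D : ℤ) (δ δ₁ : SL(2, ℤ)) (b : SL(2, ℚ_[p])),
      DiscL (latG p g') D → B ≤ -(D : ℝ) → Bd (p : ℝ) (b : Matrix (Fin 2) (Fin 2) ℚ_[p]) →
      Scal (N * p ^ 2) δ₁ →
      (∀ f ∈ MF (N * p ^ 2) L, σ (f (pt p (N * p ^ 2) g)) = f (δ₁ • pt p (N * p ^ 2) g')) →
      (∀ f ∈ MF N L, σ (f (pt p N g)) = f (δ • pt p N g')) →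
      ∀ f ∈ MF N L, σ (f (pt p N ((1, b) * g))) = f (δ • pt p N ((1, b) * g')) := by
  have hp : 0 < p := (Fact.out : p.Prime).pos
  have hN1 : 0 < N * p ^ 2 := by positivity
  obtain ⟨S, hS, hsep⟩ := sep0 hN L
  obtain ⟨B, hB⟩ := disc_bound hS
  refine ⟨B, fun σ g g' D δ δ₁ b hD hBD hb hδ₁ H₁ H f hf => ?_⟩
  obtain ⟨ξ, hdet, hξ⟩ := pt_step hN hb
  have hpos : 0 < ξ.det := by rw [hdet]; positivity
  have habs : ξ.det.natAbs = p ^ 2 := by rw [hdet, Int.natAbs_pow, Int.natAbs_natCast]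
  have hG : δ * δ₁⁻¹ ∈ G0 N L := by
    refine hsep _ (δ₁ • pt p N g') ?_ fun u hu => ?_
    · rw [jInv_smul]
      exact hB _ D (hasDisc_pt hN hD) hBD
    · rw [mul_smul, inv_smul_smul, ← H u hu, vrc_down hN hN1 (dvd_mul_right _ _) H₁ u hu]
  have e1 : ∀ τ : ℍ, f (δ • τ) = f (δ₁ • τ) := fun τ => by
    rw [← hG f hf (δ₁ • τ), mul_smul, inv_smul_smul]
  obtain ⟨γ, hγ, e2⟩ := hξ g
  obtain ⟨γ', hγ', e3⟩ := hξ g'
  obtain ⟨ε, hε, e4⟩ := Scal.comm hpos (N := N) (δ := δ₁) (by rwa [habs])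
  have e5 := H₁ _ (MF.act hN hf hpos hN1 (by rw [habs]) le_rfl hz)
  rw [e1, e2, e3, MF.inv hf hγ, e5, MF.inv (MF.smul hf δ₁) hγ', ← act_SL δ₁ (pt p _ g'),
    ← act_mul hpos (vact_SL_det δ₁), e4, act_mul (vact_SL_det _) hpos, act_SL, mul_smul,
    MF.inv hf hε]

theorem vrc_pow_fix {σ : ℂ ≃+* ℂ} {a : ℂ} (h : σ a = a) (m : ℕ) : (σ ^ m) a = a := by
  induction m with
  | zero => rfl
  | succ m ih => rw [pow_succ, RingAut.mul_apply, h, ih]

/-- The scalar propagates along the orbit. -/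
theorem vrc_next (hN : 0 < N) {L : IntermediateField ℚ ℂ} (hz : zt (N * p ^ 2) ∈ L) :
    ∃ B : ℝ, 0 ≤ B ∧ 577 * ((N * p ^ 2 : ℕ) : ℝ) ^ 2 ≤ B ∧ ∀ {σ : ℂ ≃+* ℂ}, (∀ a ∈ L, σ a = a) →
      ∀ {E : ℤ}, IsD E → ∀ {w : ℂ}, InK E w →
      (∀ D Λ, D < -576 → OD E ≤ OD D → DiscL Λ D → σ (jL Λ) = jL (star p w⁻¹ Λ)) →
      ∀ {V : SL(2, ℚ_[p])} {s : ℕ} {D : ℤ} {δ : SL(2, ℤ)},
      Bd ((p : ℝ) ^ s) (V : Matrix (Fin 2) (Fin 2) ℚ_[p]) → (p : ℝ) ^ (2 * s) * B ≤ -(D : ℝ) →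
      OD E ≤ OD ((N * p ^ 2 : ℕ) ^ 2 * D) → ∀ y : GG p, DiscL (latG p y) D → Rot p w y V →
      (∀ f ∈ MF N L, σ (f (pt p N y)) = f (δ • pt p N ((1, V) * y))) →
      ∀ f ∈ MF N L, σ (f (pt p N ((1, V) * y))) = f (δ • pt p N ((1, V) * ((1, V) * y))) := by
  have hp : 0 < p := (Fact.out : p.Prime).pos
  have hN1 : 0 < N * p ^ 2 := by positivity
  obtain ⟨B, hB⟩ := rec_step (p := p) hN hz
  refine ⟨max B (577 * ((N * p ^ 2 : ℕ) : ℝ) ^ 2), le_max_of_le_right (by positivity),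
    le_max_right _ _, ?_⟩
  intro σ hσ E hE w hw h V s D δ hV hs hle y hy hR H
  have hle' := hle.trans (OD_sq_le hy.isD _)
  refine chain hy (vrc_disc hR hy (vrc_inK hy.isD hE hle' hw)) hV
    (fun c => ∀ f ∈ MF N L, σ (f (pt p N ((1, c) * y))) = f (δ • pt p N ((1, c) * ((1, V) * y))))
    (fun c b D' hb hD' hO hbd Hc => ?_) ?_
  · have h1 : -(D : ℝ) ≤ (p : ℝ) ^ (2 * s) * -(D' : ℝ) := by exact_mod_cast hbd
    have h2 := le_of_mul_le_mul_left (hs.trans h1) (by positivity)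
    have h3 : 577 * ((N * p ^ 2 : ℕ) : ℤ) ^ 2 ≤ -D' := by
      exact_mod_cast (le_max_right _ _).trans h2
    have e : ((1, c * V * c⁻¹) : GG p) * ((1, c) * y) = (1, c) * ((1, V) * y) := by
      rw [vrc_mul, vrc_mul, inv_mul_cancel_right]
    obtain ⟨δ₁, hδ₁, H₁⟩ := rec_pt hN1 hz hσ hE hw h (hR.left c) hD'
      (hle.trans (OD_sq_mono hD'.isD hy.isD hO _)) h3
    have hd := vrc_disc (hR.left c) hD' (vrc_inK hD'.isD hE (hle'.trans hO) hw)
    rw [e] at H₁ hd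
    have := hB σ _ _ D' δ δ₁ b hd ((le_max_left _ _).trans h2) hb hδ₁ H₁ Hc
    rwa [vrc_mul, vrc_mul b c] at this
  · rwa [← Prod.one_eq_mk, one_mul, one_mul]

theorem rec_main (p : ℕ) [Fact p.Prime] (hN : 0 < N) (F : IntermediateField ℚ ℂ)
    [FiniteDimensional ℚ F] (n : ℕ) : ∃ (M : ℕ) (B : ℝ), 0 < M ∧
      ∀ 𝒟 : Finset ℤ, 𝒟.card ≤ n → (∀ D ∈ 𝒟, D < -576 ∧ IsD D) → ∀ D₀ ∈ 𝒟, ∀ w : ℂ, InK D₀ w →
        ∃ σ : ℂ ≃+* ℂ, (∀ a ∈ F, σ a = a) ∧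
          (∀ D ∈ 𝒟, ¬ IsSquare (D * D₀) → ∀ τ, HasDisc τ D → ∀ f ∈ MF N F, σ (f τ) = f τ) ∧
          ∀ D ∈ 𝒟, IsSquare (D * D₀) → ∀ (g : GG p) (V : SL(2, ℚ_[p])) (s : ℕ),
            DiscL (latG p g) D → Rot p w g V →
            (∀ i ≤ M, Bd ((p : ℝ) ^ s) ((V ^ i : SL(2, ℚ_[p])) : Matrix (Fin 2) (Fin 2) ℚ_[p])) →
            (p : ℝ) ^ (2 * s) * B ≤ -(D : ℝ) →
            ∀ f ∈ MF N F, σ (f (pt p N g)) = f (pt p N ((1, V ^ M) * g)) := by
  classical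
  have hp : 0 < p := (Fact.out : p.Prime).pos
  have hN1 : 0 < N * p ^ 2 := by positivity
  obtain ⟨L, hL, hFL, -, hz⟩ := exists_field F F hN1
  obtain ⟨M₀, hM₀, hcm⟩ := cm_pow2 L n
  obtain ⟨m, hm, hfix⟩ := fix_pow hN
  obtain ⟨B, hB0, hB1, hB⟩ := vrc_next (p := p) hN hz
  refine ⟨M₀ * (2 * m), B, by positivity, fun 𝒟 hcard h𝒟 D₀ hD₀ w hw => ?_⟩
  have hneg : ∀ D ∈ 𝒟, D < 0 := fun D hD => (h𝒟 D hD).2.1
  have h0 : D₀ < 0 := hneg D₀ hD₀
  obtain ⟨f₀, hf0, hdvd⟩ : ∃ f₀ : ℕ, 0 < f₀ ∧ ∀ D ∈ 𝒟, D ∣ (f₀ : ℤ) :=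
    ⟨(∏ D ∈ 𝒟, D).natAbs,
      Int.natAbs_pos.2 (Finset.prod_ne_zero_iff.2 fun D hD => (hneg D hD).ne), fun D hD =>
      Int.dvd_natAbs.2 (Finset.dvd_prod_of_mem (fun D : ℤ => D) hD)⟩
  have hf1 : 0 < N * p ^ 2 * f₀ := Nat.mul_pos hN1 hf0
  have hE : IsD ((N * p ^ 2 * f₀ : ℕ) ^ 2 * D₀) := cm_isD_sq (h𝒟 D₀ hD₀).2 hf1
  have hE' : ((N * p ^ 2 * f₀ : ℕ) : ℤ) ^ 2 * D₀ < -576 := by
    have h1 : (1 : ℤ) ≤ ((N * p ^ 2 * f₀ : ℕ) : ℤ) ^ 2 := one_le_pow₀ (by exact_mod_cast hf1)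
    have h2 := (h𝒟 D₀ hD₀).1
    nlinarith
  have hwE : InK ((N * p ^ 2 * f₀ : ℕ) ^ 2 * D₀) w := cm_inK_sq hf1 hw
  obtain ⟨σ, hσ, hact, hT⟩ := hcm p _ hE' hE (𝒟.filter fun D => ¬ IsSquare (D * D₀))
    ((Finset.card_filter_le _ _).trans hcard) (fun D hD => by
      obtain ⟨h1, h2⟩ := Finset.mem_filter.1 hD
      exact ⟨(h𝒟 D h1).1, (h𝒟 D h1).2, cm_not_sq hf1 h2⟩) w⁻¹ (hwE.inv hE.1)
  rw [inv_pow] at hact
  refine ⟨σ ^ (2 * m), fun a ha => vrc_pow_fix (hσ a (hFL ha)) _, fun D hD hsq τ hτ f hf => ?_,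
    fun D hD hsq g V s hg hV hBd hs f hf => ?_⟩
  · have h1 := hT D (Finset.mem_filter.2 ⟨hD, hsq⟩) _ (discL_one hτ)
    rw [jL_one] at h1
    rw [mul_comm, pow_mul]
    exact vrc_pow_fix (hfix L σ hσ τ h1 f (MF.mono hN dvd_rfl hFL hf)) 2
  obtain ⟨ρ, hρ0, hρ1, -⟩ := exists_ratio (hneg D hD) h0 hsq
  obtain ⟨c, -, hc⟩ := cm_ratio_nat hρ0 hρ1 hf0 (hdvd D hD)
  have e : (f₀ : ℤ) ^ 2 * D₀ = (c : ℤ) ^ 2 * D := by
    have : ((f₀ : ℚ)) ^ 2 * D₀ = (c : ℚ) ^ 2 * D := by rw [hc, ← hρ1]; ring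
    exact_mod_cast this
  have hle : OD ((N * p ^ 2 * f₀ : ℕ) ^ 2 * D₀) ≤ OD ((N * p ^ 2 : ℕ) ^ 2 * D) := by
    have e' : ((N * p ^ 2 * f₀ : ℕ) : ℤ) ^ 2 * D₀ = (c : ℤ) ^ 2 * ((N * p ^ 2 : ℕ) ^ 2 * D) := by
      rw [Nat.cast_mul, mul_pow, mul_assoc, e, mul_left_comm]
    rw [e']
    exact OD_sq_le (cm_isD_sq hg.isD hN1) c
  have hw0 := hwE.pow_star hE.1 M₀
  have hw1 := vrc_inK hg.isD hE (hle.trans (OD_sq_le hg.isD _)) hw0
  have hV0 := hV.pow M₀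
  have hb0 := hBd M₀ (Nat.le_mul_of_pos_right _ (by positivity))
  rw [pow_mul V]
  generalize V ^ M₀ = V₀ at hV0 hb0 ⊢
  have hb1 : 577 * ((N * p ^ 2 : ℕ) : ℤ) ^ 2 ≤ -D := by
    have h1 : (1 : ℝ) ≤ (p : ℝ) ^ (2 * s) := one_le_pow₀ (by exact_mod_cast hp)
    exact_mod_cast hB1.trans ((le_mul_of_one_le_left hB0 h1).trans hs)
  obtain ⟨δ, hδ, H⟩ := rec_pt hN1 hz hσ hE hw0 hact hV0 hg hle hb1
  have hrel : ∀ i : ℕ, ∀ u ∈ MF N L, σ (u (pt p N ((1, V₀ ^ i) * g))) =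
      u (δ • pt p N ((1, V₀) * ((1, V₀ ^ i) * g))) := fun i => by
    induction i with
    | zero =>
      rw [pow_zero, ← Prod.one_eq_mk, one_mul]
      exact vrc_down hN hN1 (dvd_mul_right _ _) H
    | succ i ih =>
      have hr := hV0.left (V₀ ^ i)
      rw [← pow_succ, pow_succ', mul_inv_cancel_right] at hr
      rw [pow_succ', ← vrc_mul]
      exact hB hσ hE hw0 hact hb0 hs hle _
        (vrc_disc (hV0.pow i) hg (hw1.pow_star hg.isD.1 i)) hr ih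
  have hit : ∀ i : ℕ, ∀ u ∈ MF N L, (σ ^ i) (u (pt p N g)) =
      u (δ ^ i • pt p N ((1, V₀ ^ i) * g)) := fun i u hu => by
    induction i with
    | zero => rw [pow_zero, pow_zero, pow_zero, ← Prod.one_eq_mk, one_mul, one_smul, RingAut.one_apply]
    | succ i ih =>
      rw [pow_succ' σ, RingAut.mul_apply, ih, hrel i _ (MF.smul hu (δ ^ i)), vrc_mul, ← pow_succ',
        pow_succ δ, mul_smul]
  rw [hit _ f (MF.mono hN dvd_rfl hFL hf), pow_mul δ]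
  exact MF.inv hf (pow_mem (hδ.mono (dvd_mul_right _ _)).sq m) _

end Pool.Agent.EQ
end
end

-- part Pool.Agent.P.MP_ad7a55_nt.WLz
section

/-! Real zeros near one are rare. -/

set_option autoImplicit false

noncomputable section

open MeasureTheory Topology Filter UpperHalfPlane
open scoped MatrixGroups ENNReal BoundedContinuousFunction

namespace Pool.Agent.EQ

theorem wlz_zero {c : ℝ} {m : ℕ} (hm : 0 < m) (h : ¬ NoZero c (-(m : ℤ))) {Q : ℕ} [NeZero Q]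
    (hd : 4 * m ∣ Q) : ∃ (χ : DirichletCharacter ℂ Q) (β : ℝ), χ ≠ 1 ∧ χ ^ 2 = 1 ∧
      (∀ n : ℕ, n.Coprime Q → χ n = jacobiSym (-(m : ℤ)) n) ∧
      1 - c / Real.log (4 * m : ℕ) ≤ β ∧ β < 1 ∧ χ.LFunction β = 0 := by
  have hneg : -(m : ℤ) < 0 := by omega
  have ha : (-(m : ℤ)).natAbs = m := by omega
  unfold NoZero at h
  push Not at h
  obtain ⟨q, _, χ, rfl, hχ, β, hβ, hβ1, hz⟩ := h
  have h4 : χ = sgeChi (-(m : ℤ)) := by
    refine MulChar.ext fun u => ?_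
    obtain ⟨n, hn⟩ := ZMod.natCast_zmod_surjective (u : ZMod (4 * (-(m : ℤ)).natAbs))
    have hc : n.Coprime (4 * (-(m : ℤ)).natAbs) := (ZMod.isUnit_iff_coprime _ _).1 (hn ▸ u.isUnit)
    rw [← hn, sgeChi_nat, if_pos (tlow_odd hc), hχ n (tlow_odd hc)]
  have hne : χ ≠ 1 := h4 ▸ tlow_ne hneg
  have hd' : 4 * (-(m : ℤ)).natAbs ∣ Q := by rwa [ha]
  refine ⟨DirichletCharacter.changeLevel hd' χ, β,
    fun e => hne ((DirichletCharacter.changeLevel_eq_one_iff hd').1 e), ?_, fun n hn => ?_,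
    by rwa [ha] at hβ, hβ1, ?_⟩
  · rw [← map_pow, h4, tlow_sq, map_one]
  · have h1 := DirichletCharacter.changeLevel_eq_cast_of_dvd' χ hd' (a := n)
      (Nat.isCoprime_iff_coprime.2 hn)
    rw [Int.cast_natCast, Int.cast_natCast] at h1
    rw [h1, hχ n (tlow_odd (hn.coprime_dvd_right hd))]
  · rw [DirichletCharacter.LFunction_changeLevel hd' χ (Or.inl hne), hz, zero_mul]

theorem wlz_log {c β : ℝ} (hc : 0 < c) {a Q : ℕ} (ha : 1 < a) (hQ : 1 < Q) (h : Q ≤ a ^ 2)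
    (hβ : 1 - c / 2 / Real.log a ≤ β) : 1 - c / Real.log Q ≤ β := by
  have h1 : 0 < Real.log Q := Real.log_pos (by exact_mod_cast hQ)
  have h2 : Real.log Q ≤ 2 * Real.log a := by
    have h3 : Real.log Q ≤ Real.log ((a : ℝ) ^ 2) :=
      Real.log_le_log (by exact_mod_cast (by omega : 0 < Q)) (by exact_mod_cast h)
    rwa [Real.log_pow, Nat.cast_ofNat] at h3
  have _ := ha
  rw [div_div] at hβ
  linarith [div_le_div_of_nonneg_left hc.le h1 h2]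

theorem wlz_nsq {m m' : ℕ} (h : Squarefree m) (h' : Squarefree m') (hlt : m < m') :
    ¬ IsSquare ((m : ℤ) * m') := fun hs => by
  obtain ⟨g, hg⟩ := tlow_shape (Int.squarefree_natCast.2 h) one_ne_zero
    (D' := m') (by rwa [one_pow, one_mul])
  have hu : IsUnit g := Int.squarefree_natCast.2 h' g ⟨m, by rw [hg, sq]⟩
  rw [Int.isUnit_sq hu] at hg
  omega

theorem two_exc : ∃ c : ℝ, 0 < c ∧ ∀ m m' : ℕ, Squarefree m → Squarefree m' → m < m' →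
    m' ≤ 2 * m → NoZero c (-(m : ℤ)) ∨ NoZero c (-(m' : ℤ)) := by
  obtain ⟨c, hc, H⟩ := landau
  refine ⟨c / 2, by positivity, fun m m' hm hm' hlt hle => ?_⟩
  by_contra hcon
  rw [not_or] at hcon
  have h0 : 0 < m := Nat.pos_of_ne_zero hm.ne_zero
  have h1 : 0 < m * m' := Nat.mul_pos h0 (by omega)
  have : NeZero (4 * (m * m')) := ⟨by omega⟩
  obtain ⟨χ, β, a1, a2, a3, a4, a5, a6⟩ := wlz_zero h0 hcon.1 (Q := 4 * (m * m'))
    ⟨m', by ring⟩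
  obtain ⟨ψ, β', b1, b2, b3, b4, b5, b6⟩ := wlz_zero (by omega) hcon.2 (Q := 4 * (m * m'))
    ⟨m, by ring⟩
  refine H _ χ ψ a1 b1 (fun e => ?_) a2 b2 β β'
    (wlz_log hc (by omega) (by omega) (by nlinarith) a4) a5
    (wlz_log hc (by omega) (by omega) (by nlinarith) b4) b5 a6 b6
  obtain ⟨n, ho, hn⟩ := exists_jac_neg (wlz_nsq hm hm' hlt)
  have h2 : n.Coprime (m * m') := by
    by_contra h3
    rw [jacobiSym.eq_zero_iff.2 ⟨ho.pos.ne', fun h4 => h3 (by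
      rw [← Nat.cast_mul, Int.gcd_natCast_natCast] at h4
      exact Nat.Coprime.symm h4)⟩] at hn
    omega
  have h3 : n.Coprime (4 * (m * m')) :=
    Nat.Coprime.mul_right (Nat.Coprime.pow_right 2 (Nat.coprime_two_right.2 ho)) h2
  have h4 := MulChar.mul_apply χ ψ n
  rw [e, MulChar.one_apply ((ZMod.isUnit_iff_coprime _ _).2 h3), a3 n h3, b3 n h3,
    ← Int.cast_mul, ← jacobiSym.mul_left, neg_mul_neg, hn] at h4
  norm_num at h4

theorem card_lac {Z : Set ℕ} (h : ∀ m ∈ Z, ∀ m' ∈ Z, m < m' → 2 * m < m') (X : ℕ) :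
    (Z ∩ Set.Iic X).ncard ≤ Nat.log 2 X + 2 := by
  have key : ∀ m ∈ Z, ∀ m' ∈ Z, m < m' → (if m = 0 then 0 else Nat.log 2 m + 1) <
      if m' = 0 then 0 else Nat.log 2 m' + 1 := fun m hm m' hm' hlt => by
    have h1 := h m hm m' hm' hlt
    rw [if_neg (by omega : m' ≠ 0)]
    split_ifs with h0
    · omega
    · have h2 := Nat.log_mono_right (b := 2) (by omega : m * 2 ≤ m')
      rw [Nat.log_mul_base one_lt_two h0] at h2
      omega
  rw [← Finset.card_range (Nat.log 2 X + 2), ← Set.ncard_coe_finset]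
  refine Set.ncard_le_ncard_of_injOn (fun m => if m = 0 then 0 else Nat.log 2 m + 1)
    (fun m hm => ?_) (fun m hm m' hm' e => ?_) (Finset.finite_toSet _)
  · have h2 := Nat.log_mono_right (b := 2) (show m ≤ X from hm.2)
    rw [Finset.mem_coe, Finset.mem_range]
    split_ifs <;> omega
  · rcases lt_trichotomy m m' with a | a | a
    exacts [absurd e (key m hm.1 m' hm'.1 a).ne, a, absurd e (key m' hm'.1 m hm.1 a).ne']

theorem sparse : ∃ c : ℝ, 0 < c ∧ Tendsto (fun X : ℕ =>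
    (({m : ℕ | Squarefree m ∧ ¬ NoZero c (-(m : ℤ))} ∩ Set.Iic X).ncard : ℝ) / X) atTop (𝓝 0) := by
  obtain ⟨c, hc, H⟩ := two_exc
  refine ⟨c, hc, ?_⟩
  have h1 : Tendsto (fun X : ℕ => Real.logb (2 : ℕ) X / X + 2 / X) atTop (𝓝 0) := by
    have h2 := (Real.isLittleO_logb_id_atTop (b := (2 : ℕ))).tendsto_div_nhds_zero.comp
      tendsto_natCast_atTop_atTop
    simpa only [add_zero, Function.comp_apply, id] using h2.add (tendsto_const_div_atTop_nhds_zero_nat (2 : ℝ))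
  refine squeeze_zero (fun X => by positivity) (fun X => ?_) h1
  rw [← add_div]
  refine div_le_div_of_nonneg_right ?_ (Nat.cast_nonneg _)
  have h3 := card_lac (Z := {m : ℕ | Squarefree m ∧ ¬ NoZero c (-(m : ℤ))})
    (fun m hm m' hm' hlt => not_le.1 fun hle => (H m m' hm.1 hm'.1 hlt hle).elim hm.2 hm'.2) X
  have h4 := Real.natLog_le_logb X 2
  have h5 : ((_ : ℕ) : ℝ) ≤ ((Nat.log 2 X + 2 : ℕ) : ℝ) := Nat.cast_le.2 h3
  rw [Nat.cast_add, Nat.cast_ofNat] at h5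
  linarith

end Pool.Agent.EQ
end
end

-- part Pool.Agent.P.MP_ad7a55_nt.XBa
section

/-! The sieve bounds, uniformly in the special prime. -/

set_option autoImplicit false

noncomputable section

open Finset Matrix

namespace Pool.Agent.EQ

namespace Dt

theorem xba_two {d : Dt} (hn : d.n.natAbs = 1) {l : ℕ} (hl : l.Prime) (hp : d.p.Prime)
    (hne : l ≠ d.p) (hc : (l : ℤ) ∣ 2 * d.n * d.p) : l = 2 := by
  have h1 := Int.natCast_dvd.1 hc
  rw [Int.natAbs_mul, Int.natAbs_mul, hn, Int.natAbs_natCast] at h1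
  rcases (Nat.Prime.dvd_mul hl).1 h1 with h2 | h2
  · exact (Nat.prime_dvd_prime_iff_eq hl Nat.prime_two).1 h2
  · exact absurd ((Nat.prime_dvd_prime_iff_eq hl hp).1 h2) hne

theorem xba_sq {d : Dt} (h : d.Good 0) (hn : d.n.natAbs = 1) {l : ℕ} (hl : l.Prime)
    (hD : ¬ d.Dom l) (hne : l ≠ d.p) {u : ℤ} (hu : ¬ (l : ℤ) ∣ u) (k : ℕ) :
    cnt (l ^ k) (fun r => (l : ℤ) ^ k ∣ r ^ 2 - 4 * (d.m * u)) ≤ 4 * 8 := by
  have hv := val_m h hl hD
  have hp := tqd_prime hl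
  by_cases hc : (l : ℤ) ∣ 2 * d.n * d.p
  · have h2 := xba_two hn hl h.prime hne hc
    refine (cnt_sq_le' hl k 3 fun h1 => ?_).trans (by rw [h2]; norm_num)
    have h2 := tqd_split hl 2 6 _ _ h1 (by rw [h2]; norm_num)
    rw [mul_comm d.m u] at h2
    have h3 := tqd_split hl 0 6 _ _ h2 (by simpa using hu)
    have : Fact l.Prime := ⟨hl⟩
    have hm0 : d.m ≠ 0 := by
      have : (d.G : ℤ) ≠ 0 := by exact_mod_cast (Nat.mul_pos h.g₁_pos h.g₂_pos).ne'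
      exact mul_ne_zero h.n_ne this
    have h4 := ((padicValInt_dvd_iff _ _).1 h3).resolve_left hm0
    omega
  · refine (cnt_sq_le' hl k 0 fun h1 => ?_).trans (by norm_num)
    have h2 : (l : ℤ) ∣ 4 * (d.m * u) := (dvd_pow_self _ (by norm_num)).trans h1
    rcases hp.dvd_or_dvd h2 with h3 | h3
    · have h4 : (l : ℤ) ∣ 2 := hp.dvd_of_dvd_pow (n := 2) (by norm_num; exact h3)
      exact hc ((h4.mul_right _).mul_right _)
    · rcases hp.dvd_or_dvd h3 with h4 | h4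
      · exact hv.2 hc h4
      · exact hu h4

theorem xba_L {d : Dt} (h : d.Good 0) (hn : d.n.natAbs = 1) (hpE : ¬ (d.p : ℤ) ∣ d.E) {l : ℕ}
    (hl : l.Prime) (hD : ¬ d.Dom l) (hE : (l : ℤ) ∣ d.E) (k : ℕ) :
    (tcrL d l k).card ≤ 2 * (4 * 8) := by
  have hne : l ≠ d.p := fun e => hpE (e ▸ hE)
  by_cases ha : (l : ℤ) ∣ d.a
  · have hc := (not_dvd_c h hl ha hE).2
    refine tcr_pairs _ _ (fun s r => (l : ℤ) ^ k ∣ 2 * d.c * r + d.b * s) _ (xba_sq h hn hl hD hne hc k)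
      (fun s => cnt_lin_le hl k hc _) _ Prod.fst Prod.snd (fun z z' h1 h2 => Prod.ext h1 h2)
      fun z hz => ?_
    obtain ⟨h1, h2, h3⟩ := mem_filter.1 hz
    rw [xe, if_pos ha] at h2
    rw [Δe, if_pos ha] at h3
    exact ⟨mem_range.1 (mem_product.1 h1).1, mem_range.1 (mem_product.1 h1).2, h3, h2⟩
  · refine tcr_pairs _ _ (fun s r => (l : ℤ) ^ k ∣ 2 * d.a * r + d.b * s) _ (xba_sq h hn hl hD hne ha k)
      (fun s => cnt_lin_le hl k ha _) _ Prod.snd Prod.fst (fun z z' h1 h2 => Prod.ext h2 h1)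
      fun z hz => ?_
    obtain ⟨h1, h2, h3⟩ := mem_filter.1 hz
    rw [xe, if_neg ha, x₁, add_comm] at h2
    rw [Δe, if_neg ha] at h3
    exact ⟨mem_range.1 (mem_product.1 h1).2, mem_range.1 (mem_product.1 h1).1, h3, h2⟩

theorem xba_cntJ {d : Dt} (h : d.Good 0) (hn : d.n.natAbs = 1) (hpE : ¬ (d.p : ℤ) ∣ d.E)
    (H N J : ℕ) (hJ : 0 < J) (S : Finset (ℤ × ℤ))
    (hS : ∀ z ∈ S, d.Box H N z.1 z.2 ∧ d.JJ z.1 z.2 = J) :
    (S.card : ℝ) ≤ (∏ _l ∈ J.primeFactors,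
      ((2 * (4 * 8) : ℕ) : ℝ)) *
      (((2 * H + 1) / (J ^ 2 : ℕ) + 1) * ((N + 1) / (J ^ 2 : ℕ) + 1)) := by
  classical
  rcases S.eq_empty_or_nonempty with h0 | ⟨z0, hz0⟩
  · rw [h0, card_empty, Nat.cast_zero]; positivity
  have hP : ∀ l ∈ J.primeFactors, l.Prime := fun l hl => Nat.prime_of_mem_primeFactors hl
  have hJ2 : J ^ 2 = ∏ l ∈ J.primeFactors, l ^ (2 * J.factorization l) := by
    conv_lhs => rw [← Nat.prod_factorization_pow_eq_self hJ.ne']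
    rw [Finsupp.prod, ← prod_pow]
    exact prod_congr rfl fun l _ => by rw [← pow_mul, mul_comm]
  have h1 := tcr_card S
    (Fintype.piFinset fun l : J.primeFactors => tcrL d l (2 * J.factorization l))
    (fun z l => (tcrR ((l : ℕ) ^ (2 * J.factorization l)) z.1,
      tcrR ((l : ℕ) ^ (2 * J.factorization l)) z.2))
    (((2 * H + 1) / (J ^ 2 : ℕ) + 1) * ((N + 1) / (J ^ 2 : ℕ) + 1))
    (fun z hz => Fintype.mem_piFinset.2 fun l => by
      have h2 := (tcr_JJ h z.1 z.2).2.2.2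
      rw [(hS z hz).2] at h2
      have h3 := ie_spec h (hP l l.2) z.1 z.2
      rw [← (h2 l l.2).2.2] at h3
      exact tcr_memL d (hP l l.2) _ h3.1 h3.2.1)
    (fun b _ => by
      rcases (S.filter fun z => (fun l : J.primeFactors =>
        (tcrR ((l : ℕ) ^ (2 * J.factorization l)) z.1,
          tcrR ((l : ℕ) ^ (2 * J.factorization l)) z.2)) = b).eq_empty_or_nonempty
        with h0 | ⟨z1, hz1⟩
      · rw [h0, card_empty, Nat.cast_zero]; positivity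
      refine tcr_box h.a_pos H N (pow_pos hJ 2) (pow_pos hJ 2) z1.1 z1.2 _ fun z hz => ?_
      have e := (mem_filter.1 hz).2.trans (mem_filter.1 hz1).2.symm
      have key : ∀ (l : ℕ) (x y : ℤ), l ∈ J.primeFactors →
          tcrR (l ^ (2 * J.factorization l)) x = tcrR (l ^ (2 * J.factorization l)) y →
          (l : ℤ) ^ (2 * J.factorization l) ∣ x - y := by
        intro l x y hl he
        have a1 := (tcr_res (pow_pos (hP l hl).pos (2 * J.factorization l)) x).2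
        have a2 := (tcr_res (pow_pos (hP l hl).pos (2 * J.factorization l)) y).2
        rw [he] at a1
        have a3 := dvd_sub a1 a2
        rw [sub_sub_sub_cancel_right] at a3
        exact_mod_cast a3
      rw [hJ2]
      exact ⟨(hS z (mem_filter.1 hz).1).1,
        tcr_prod_dvd _ hP _ _ fun l hl => key l _ _ hl (congrArg Prod.fst (congrFun e ⟨l, hl⟩)),
        tcr_prod_dvd _ hP _ _ fun l hl => key l _ _ hl (congrArg Prod.snd (congrFun e ⟨l, hl⟩))⟩)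
  refine h1.trans (mul_le_mul_of_nonneg_right ?_ (by positivity))
  rw [Fintype.card_piFinset,
    prod_coe_sort J.primeFactors (fun l => (tcrL d l (2 * J.factorization l)).card)]
  have h2 := (tcr_JJ h z0.1 z0.2).2.2.2
  rw [(hS z0 hz0).2] at h2
  rw [← Nat.cast_prod]
  exact Nat.cast_le.2 (prod_le_prod' fun l hl => xba_L h hn hpE (hP l hl) (h2 l hl).1 (h2 l hl).2.1 _)

theorem xba_crude : ∃ N₀ : ℕ, ∀ d : Dt, d.Good 0 → d.n.natAbs = 1 → ¬ (d.p : ℤ) ∣ d.E →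
    ∀ H N : ℕ, d.Sz H N → N₀ ≤ N → 8 * d.p ≤ N → ∀ Z : Finset (ℤ × ℤ),
    (∀ z ∈ Z, d.Box H N z.1 z.2 ∧ (N < d.JJ z.1 z.2 ^ 32 ∨ N < d.QQ z.2 ^ 4)) →
    ∑ z ∈ Z, d.WC z.1 z.2 ≤ (N : ℝ) ^ (99 / 100 : ℝ) * H := by
  classical
  have hε : (0 : ℝ) < 1 / 25600 := by norm_num
  obtain ⟨C1, hC1, hW⟩ := WC_le hε
  obtain ⟨C2, hC2, hO⟩ := omega_bound
    ((2 * (4 * 8) : ℕ) : ℝ) hε
  obtain ⟨C3, hC3, hDv⟩ := div_bound hε
  obtain ⟨C, hC⟩ : ∃ C : ℝ, C = 13 * C1 * C2 * C3 + 12 * C1 * C3 + 1 := ⟨_, rfl⟩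
  have hC0 : 1 ≤ C := by
    have : 0 ≤ 13 * C1 * C2 * C3 + 12 * C1 * C3 := by positivity
    linarith
  refine ⟨max 1 ⌈C ^ 3200⌉₊, fun d h hn hpE H N hS hN hpN Z hZ => ?_⟩
  have hN1 : 1 ≤ N := (le_max_left _ _).trans hN
  have hN2 : 8 * d.n.natAbs * d.p ≤ N := by rw [hn, mul_one]; exact hpN
  have hN3 : C ^ 3200 ≤ N := Nat.ceil_le.1 ((le_max_right _ _).trans hN)
  have hNR : (1 : ℝ) ≤ N := by exact_mod_cast hN1
  have hHR : (1 : ℝ) ≤ H := by exact_mod_cast hS.one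
  obtain ⟨u, hu⟩ : ∃ u : ℝ, u = (N : ℝ) ^ (1 / 3200 : ℝ) := ⟨_, rfl⟩
  have hu0 : 0 < u := by rw [hu]; positivity
  have hupow : ∀ k : ℕ, u ^ k = (N : ℝ) ^ ((k : ℝ) / 3200) := fun k => by
    rw [hu, ← Real.rpow_natCast, ← Real.rpow_mul (by positivity)]
    congr 1; ring
  have huN : u ^ 3200 = N := by rw [hupow]; norm_num
  have hu99 : (N : ℝ) ^ (99 / 100 : ℝ) = u ^ 3168 := by rw [hupow]; norm_num
  have hCu : C ≤ u :=
    le_of_pow_le_pow_left₀ (n := 3200) (by norm_num) hu0.le (hN3.trans huN.ge)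
  have hu1 : 1 ≤ u := hC0.trans hCu
  have heps : ∀ x : ℕ, x ≤ N ^ 8 → (x : ℝ) ^ (1 / 25600 : ℝ) ≤ u := fun x hx => by
    have h1 : (x : ℝ) ≤ (N : ℝ) ^ 8 := by exact_mod_cast hx
    refine (Real.rpow_le_rpow (Nat.cast_nonneg _) h1 hε.le).trans (le_of_eq ?_)
    rw [hu, ← Real.rpow_natCast, ← Real.rpow_mul (by positivity)]
    norm_num
  have hG : 1 ≤ d.G := Nat.mul_pos h.g₁_pos h.g₂_pos
  have hE0 : 0 < d.E.natAbs := Int.natAbs_pos.2 h.E_neg.ne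
  have hE : d.E.natAbs ≤ N ^ 8 := by
    refine le_trans ?_ hS.low
    rw [Int.natAbs_mul, Int.natAbs_pow, Int.natAbs_natCast]
    exact Nat.le_mul_of_pos_left _ (pow_pos hG 2)
  have ha0 : 0 < d.a.natAbs := Int.natAbs_pos.2 h.a_pos.ne'
  have haH : d.a.natAbs ≤ H ^ 2 := by
    have h1 : (d.m * d.a).natAbs ≤ H ^ 2 := by
      have := hS.ma
      rw [← Int.natCast_natAbs] at this
      exact_mod_cast this
    refine le_trans ?_ h1
    rw [Int.natAbs_mul]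
    refine Nat.le_mul_of_pos_left _ (Int.natAbs_pos.2 (mul_ne_zero h.n_ne ?_))
    exact_mod_cast (Nat.pos_iff_ne_zero.1 hG)
  have haN : d.a.natAbs ≤ N ^ 8 := by
    refine haH.trans ((Nat.pow_le_pow_left hS.le 2).trans ?_)
    rw [← pow_mul]
    exact Nat.pow_le_pow_right hN1 (by norm_num)
  have hBn : ∀ z ∈ Z, (d.B z.1 z.2).natAbs ≤ (H * N) ^ 2 := fun z hz => by
    have := (hZ z hz).1.le
    rw [← Int.natCast_natAbs] at this
    exact_mod_cast this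
  have hWC : ∀ z ∈ Z, d.WC z.1 z.2 ≤ C1 * u * d.JJ z.1 z.2 := fun z hz => by
    refine (hW d 0 h z.1 z.2 (hZ z hz).1.ne).trans
      (mul_le_mul_of_nonneg_right (mul_le_mul_of_nonneg_left ?_ hC1.le) (Nat.cast_nonneg _))
    have e : |(8 * d.n * d.p * d.B z.1 z.2 : ℝ)| =
        ((8 * d.n.natAbs * d.p * (d.B z.1 z.2).natAbs : ℕ) : ℝ) := by
      push_cast [Nat.cast_natAbs]
      rw [abs_mul, abs_mul, abs_mul, Nat.abs_cast, abs_of_pos (by norm_num : (0 : ℝ) < 8)]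
    rw [e]
    refine heps _ ?_
    calc 8 * d.n.natAbs * d.p * (d.B z.1 z.2).natAbs ≤ N * (N ^ 2 * N) ^ 2 :=
          Nat.mul_le_mul hN2 ((hBn z hz).trans
            (Nat.pow_le_pow_left (Nat.mul_le_mul_right _ hS.le) 2))
      _ = N ^ 7 := by ring
      _ ≤ N ^ 8 := Nat.pow_le_pow_right hN1 (by norm_num)
  have P1 : ∑ z ∈ Z.filter (fun z => N < d.JJ z.1 z.2 ^ 32), d.WC z.1 z.2 ≤
      13 * C1 * C2 * C3 * (u ^ 3103 * H) := by
    have h1 := tcr_fibre (Z.filter fun z => N < d.JJ z.1 z.2 ^ 32) d.E.natAbs.divisors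
      (fun z => d.JJ z.1 z.2) (fun z => d.WC z.1 z.2) (13 * C1 * C2 * (u ^ 3102 * H))
      (fun z _ => Nat.mem_divisors.2 ⟨(tcr_JJ h z.1 z.2).2.1, hE0.ne'⟩) (fun J hJ => by
        obtain ⟨S, hSd⟩ : ∃ S, S = (Z.filter fun z => N < d.JJ z.1 z.2 ^ 32).filter
          fun z => d.JJ z.1 z.2 = J := ⟨_, rfl⟩
        rw [← hSd]
        have hSm : ∀ z ∈ S, z ∈ Z ∧ N < d.JJ z.1 z.2 ^ 32 ∧ d.JJ z.1 z.2 = J := fun z hz => by
          rw [hSd] at hz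
          exact ⟨(mem_filter.1 (mem_filter.1 hz).1).1, (mem_filter.1 (mem_filter.1 hz).1).2,
            (mem_filter.1 hz).2⟩
        rcases S.eq_empty_or_nonempty with h0 | ⟨z0, hz0⟩
        · rw [h0, sum_empty]; positivity
        obtain ⟨m1, m2, m3⟩ := hSm z0 hz0
        have hJ0 : 0 < J := Nat.pos_of_mem_divisors hJ
        have hJR : (1 : ℝ) ≤ J := by exact_mod_cast hJ0
        have hJ4 : J ^ 2 ≤ 2 * (H * N) := by
          have a1 := (tcr_JJ h z0.1 z0.2).2.2.1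
          rw [m3] at a1
          have a2 : J ^ 4 ∣ 4 * (d.B z0.1 z0.2).natAbs := by
            have := Int.natCast_dvd.1 (show ((J ^ 4 : ℕ) : ℤ) ∣ _ by exact_mod_cast a1)
            rwa [Int.natAbs_mul] at this
          have a3 := Nat.le_of_dvd (Nat.mul_pos (by norm_num) (Int.natAbs_pos.2 (hZ z0 m1).1.ne)) a2
          have a4 := hBn z0 m1
          refine (Nat.pow_le_pow_iff_left (n := 2) (by norm_num)).1 ?_
          calc (J ^ 2) ^ 2 = J ^ 4 := by ring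
            _ ≤ 4 * (H * N) ^ 2 := by omega
            _ = (2 * (H * N)) ^ 2 := by ring
        have hJu : u ^ 100 ≤ J := by
          refine le_of_pow_le_pow_left₀ (n := 32) (by norm_num) (by positivity) ?_
          rw [← pow_mul, huN, ← m3]
          exact_mod_cast m2.le
        have a1 := xba_cntJ h hn hpE H N J hJ0 S fun z hz => ⟨(hZ z (hSm z hz).1).1, (hSm z hz).2.2⟩
        have a2 : (∏ _l ∈ J.primeFactors,
            ((2 * (4 * 8) : ℕ) : ℝ)) ≤ C2 * u := by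
          refine le_trans (prod_le_prod (fun _ _ => Nat.cast_nonneg _) fun l _ => ?_)
            ((hO J hJ0.ne').trans (mul_le_mul_of_nonneg_left (heps J ?_) hC2.le))
          · refine le_mul_of_one_le_right (Nat.cast_nonneg _) (one_le_pow₀ ?_)
            have := Nat.cast_nonneg (α := ℝ) (J.factorization l)
            linarith
          · exact (Nat.le_of_dvd hE0 (Nat.dvd_of_mem_divisors hJ)).trans hE
        have a3 := tcr_num hHR hNR hJR (by exact_mod_cast hJ4)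
        have a4 : 13 * ((H : ℝ) * N) / J ≤ 13 * (u ^ 3100 * H) := by
          refine (div_le_div_of_nonneg_left (by positivity) (by positivity) hJu).trans (le_of_eq ?_)
          rw [← huN, div_eq_iff (by positivity), show 3200 = 3100 + 100 by norm_num, pow_add]
          generalize u ^ 3100 = x
          generalize u ^ 100 = y
          ring
        push_cast at a1 a2
        have a5 : ∑ z ∈ S, d.WC z.1 z.2 ≤ S.card * (C1 * u * J) := by
          rw [← nsmul_eq_mul]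
          exact sum_le_card_nsmul _ _ _ fun z hz => (hSm z hz).2.2 ▸ hWC z (hSm z hz).1
        have a6 := a1.trans (mul_le_mul_of_nonneg_right a2 (by positivity))
        calc ∑ z ∈ S, d.WC z.1 z.2 ≤ S.card * (C1 * u * J) := a5
          _ ≤ (C2 * u * (((2 * H + 1) / J ^ 2 + 1) * ((N + 1) / J ^ 2 + 1))) * (C1 * u * J) :=
              mul_le_mul_of_nonneg_right a6 (by positivity)
          _ = C1 * C2 * u ^ 2 * (J * (((2 * H + 1) / J ^ 2 + 1) * ((N + 1) / J ^ 2 + 1))) := by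
              ring
          _ ≤ C1 * C2 * u ^ 2 * (13 * (u ^ 3100 * H)) :=
              mul_le_mul_of_nonneg_left (a3.trans a4) (by positivity)
          _ = 13 * C1 * C2 * (u ^ 3102 * H) := by
              rw [show 3102 = 3100 + 2 by norm_num, pow_add]
              generalize u ^ 3100 = x
              ring)
    have h2 := (hDv _ hE0).trans (mul_le_mul_of_nonneg_left (heps _ hE) hC3.le)
    refine h1.trans ((mul_le_mul_of_nonneg_right h2 (by positivity)).trans (le_of_eq ?_))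
    rw [show 3103 = 3102 + 1 by norm_num, pow_succ]
    generalize u ^ 3102 = x
    ring
  have P2 : ∑ z ∈ Z.filter (fun z => ¬ N < d.JJ z.1 z.2 ^ 32), d.WC z.1 z.2 ≤
      12 * C1 * C3 * (u ^ 3103 * H) := by
    have hQ : ∀ Y : ℤ, (d.QQ Y : ℤ) ∣ d.a ∧ (d.QQ Y : ℤ) ∣ Y := fun Y => by
      have hT : ∀ l ∈ d.E.natAbs.primeFactors.filter (fun l : ℕ => (l : ℤ) ∣ d.a ∧ (l : ℤ) ∣ Y),
          l.Prime := fun l hl => Nat.prime_of_mem_primeFactors (mem_filter.1 hl).1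
      have a1 := tcr_prod_dvd _ hT (fun _ => 1) d.a fun l hl => by
        simpa using (mem_filter.1 hl).2.1
      have a2 := tcr_prod_dvd _ hT (fun _ => 1) Y fun l hl => by
        simpa using (mem_filter.1 hl).2.2
      simp only [pow_one] at a1 a2
      exact ⟨a1, a2⟩
    have h1 := tcr_fibre (Z.filter fun z => ¬ N < d.JJ z.1 z.2 ^ 32) d.a.natAbs.divisors
      (fun z => d.QQ z.2) (fun z => d.WC z.1 z.2) (12 * C1 * (u ^ 2901 * H))
      (fun z _ => Nat.mem_divisors.2 ⟨Int.natCast_dvd.1 (hQ z.2).1, ha0.ne'⟩) (fun Q hQd => by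
        obtain ⟨S, hSd⟩ : ∃ S, S = (Z.filter fun z => ¬ N < d.JJ z.1 z.2 ^ 32).filter
          fun z => d.QQ z.2 = Q := ⟨_, rfl⟩
        rw [← hSd]
        have hSm : ∀ z ∈ S, z ∈ Z ∧ ¬ N < d.JJ z.1 z.2 ^ 32 ∧ d.QQ z.2 = Q := fun z hz => by
          rw [hSd] at hz
          exact ⟨(mem_filter.1 (mem_filter.1 hz).1).1, (mem_filter.1 (mem_filter.1 hz).1).2,
            (mem_filter.1 hz).2⟩
        rcases S.eq_empty_or_nonempty with h0 | ⟨z0, hz0⟩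
        · rw [h0, sum_empty]; positivity
        obtain ⟨m1, m2, m3⟩ := hSm z0 hz0
        have hQ0 : 0 < Q := Nat.pos_of_mem_divisors hQd
        have hNQ : N < Q ^ 4 := m3 ▸ (hZ z0 m1).2.resolve_left m2
        have hQH : Q ≤ H ^ 2 := (Nat.le_of_dvd ha0 (Nat.dvd_of_mem_divisors hQd)).trans haH
        have hQu : u ^ 400 ≤ Q := by
          refine le_of_pow_le_pow_left₀ (n := 8) (by norm_num) (by positivity) ?_
          rw [← pow_mul, huN]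
          exact_mod_cast hNQ.le.trans (Nat.pow_le_pow_right hQ0 (by norm_num))
        have hHu : u ^ 400 ≤ H := by
          refine le_of_pow_le_pow_left₀ (n := 8) (by norm_num) (by positivity) ?_
          rw [← pow_mul, huN]
          have := hNQ.le.trans (Nat.pow_le_pow_left hQH 4)
          rw [← pow_mul] at this
          exact_mod_cast this
        have a1 := tcr_box h.a_pos H N one_pos hQ0 0 0 S fun z hz =>
          ⟨(hZ z (hSm z hz).1).1, by simp, by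
            rw [sub_zero, ← (hSm z hz).2.2]; exact (hQ z.2).2⟩
        have hu4 : 0 < u ^ 400 := by positivity
        have a2 : (2 * (H : ℝ) + 1) / Q + 1 ≤ 4 * H / u ^ 400 := by
          have b1 : (2 * (H : ℝ) + 1) / Q ≤ 3 * H / u ^ 400 :=
            div_le_div₀ (by positivity) (by linarith) hu4 hQu
          have b2 : 1 ≤ (H : ℝ) / u ^ 400 := (one_le_div hu4).2 hHu
          have b3 : 4 * (H : ℝ) / u ^ 400 = 3 * H / u ^ 400 + H / u ^ 400 := by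
            generalize u ^ 400 = x
            ring
          linarith
        have a3 : ((N : ℝ) + 1) / (1 : ℕ) + 1 ≤ 3 * u ^ 3200 := by
          rw [huN, Nat.cast_one, div_one]; linarith
        have a4 := a1.trans (mul_le_mul a2 a3 (by positivity) (by positivity))
        have a5 : ∑ z ∈ S, d.WC z.1 z.2 ≤ S.card * (C1 * u * u ^ 100) := by
          rw [← nsmul_eq_mul]
          refine sum_le_card_nsmul _ _ _ fun z hz => (hWC z (hSm z hz).1).trans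
            (mul_le_mul_of_nonneg_left ?_ (by positivity))
          refine le_of_pow_le_pow_left₀ (n := 32) (by norm_num) (by positivity) ?_
          rw [← pow_mul, huN]
          exact_mod_cast not_lt.1 (hSm z hz).2.1
        refine a5.trans ((mul_le_mul_of_nonneg_right a4 (by positivity)).trans (le_of_eq ?_))
        have e1 : u ^ 3200 = u ^ 2800 * u ^ 400 := by rw [← pow_add]
        have e2 : u ^ 2901 = u ^ 2800 * u ^ 100 * u := by rw [← pow_add, ← pow_succ]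
        rw [e1, e2]
        generalize u ^ 2800 = x
        generalize u ^ 100 = y
        generalize u ^ 400 = t at hu4
        field_simp
        ring)
    have h2 := (hDv _ ha0).trans (mul_le_mul_of_nonneg_left (heps _ haN) hC3.le)
    refine h1.trans ((mul_le_mul_of_nonneg_right h2 (by positivity)).trans ?_)
    have h3 : u ^ 2901 * u ≤ u ^ 3103 := by
      rw [← pow_succ]; exact pow_le_pow_right₀ hu1 (by norm_num)
    have h4 := mul_le_mul_of_nonneg_left h3 (show 0 ≤ 12 * C1 * C3 * H by positivity)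
    generalize u ^ 2901 = x at h4 ⊢
    generalize u ^ 3103 = y at h4 ⊢
    linarith
  rw [← sum_filter_add_sum_filter_not Z (fun z => N < d.JJ z.1 z.2 ^ 32), hu99]
  have h3 : u ^ 3103 * u ≤ u ^ 3168 := by
    rw [← pow_succ]; exact pow_le_pow_right₀ hu1 (by norm_num)
  have h4 : 0 ≤ u ^ 3103 * H := by positivity
  have h5 := mul_le_mul_of_nonneg_right hCu h4
  have h6 := mul_le_mul_of_nonneg_right h3 (show (0 : ℝ) ≤ H by positivity)
  rw [hC] at h5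
  generalize u ^ 3103 = x at P1 P2 h4 h5 h6
  generalize u ^ 3168 = y at h6 ⊢
  linarith

open Classical in
theorem xba_std : ∃ K : ℝ, 1 ≤ K ∧ ∀ d : Dt, d.Good 0 → d.n.natAbs = 1 →
    ∀ l : ℕ, l.Prime → l ≠ d.p → ∀ Y : ℤ,
    LS K l {X | d.B X Y ≠ 0} (fun X => d.B X Y) (fun X => d.Wt l X Y)
      (fun X => if d.Dom l then 0 else d.mu l X Y) (d.ms K l Y) (d.aa K l Y) := by
  obtain ⟨K₁, k1, h1⟩ := ls_bdd 2 4
  obtain ⟨K₂, k2, h2⟩ := ls_ram
  obtain ⟨K₃, k3, h3⟩ := ls_ram'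
  refine ⟨K₁ + K₂ + K₃ + 9, by linarith, fun d h hn l hl hne Y => ?_⟩
  have hK : (1 : ℝ) ≤ K₁ + K₂ + K₃ + 9 := by linarith
  by_cases hD : d.Dom l
  · refine ls_one hK (tsb_one_ms hK _ _) ?_ _ _ _ (fun X _ => ?_) _
    · unfold aa
      by_cases h4 : (l : ℤ) ∣ 2 * d.n * d.p
      · rw [if_pos h4]
        linarith
      have h5 : (l : ℤ) ∣ d.G := Int.natCast_dvd_natCast.2 (hD.2.elim
        (fun h5 => dvd_of_one_le_padicValNat (by omega)) fun h5 => h5.2)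
      have h6 : (l : ℤ) ∣ d.m * d.a := (h5.mul_left d.n).mul_right d.a
      rw [if_neg h4, if_pos h6,
        tsb_jac hl ((h5.trans (dvd_pow_self _ two_ne_zero)).mul_right _)]
      split_ifs
      · push_cast
        linarith
      · simp
    · unfold Wt
      rw [if_pos hD]
  simp only [if_neg hD]
  by_cases h4 : (l : ℤ) ∣ 2 * d.n * d.p
  · have h5 := (val_m h hl hD).1
    rw [hn] at h5
    refine (h1 d 0 h l hl (xba_two hn hl h.prime hne h4).le h5 Y).mono hK subset_rfl (fun X _ => ?_) (fun X _ => Nat.le_add_right _ _)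
      ?_ ?_
    · unfold Wt
      rw [if_neg hD, if_pos h4]
    · unfold ms
      rw [if_pos h4]
      linarith
    · unfold aa
      rw [if_pos h4]
      linarith
  by_cases hE : (l : ℤ) ∣ d.E
  swap
  · exact (ls_unr h hl hD h4 hE Y).mono (by linarith) subset_rfl (fun _ _ => le_rfl)
      (fun _ _ => Nat.zero_le _) (tsb_one_ms hK _ _) (tsb_aa (by linarith) _ _)
  by_cases ha : (l : ℤ) ∣ d.a
  · exact (h3 d 0 h l hl hD h4 hE ha Y).mono (by linarith) subset_rfl (fun _ _ => le_rfl)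
      (fun _ _ => le_rfl) (tsb_ms (by linarith) _ _) (tsb_aa (by linarith) _ _)
  · exact (h2 d 0 h l hl hD h4 hE ha Y).mono (by linarith) subset_rfl (fun _ _ => le_rfl)
      (fun _ _ => le_rfl) (tsb_ms (by linarith) _ _) (tsb_aa (by linarith) _ _)

open Classical in
/-- Shiu's bound on one row. -/
theorem xba_shiu : ∃ (K C : ℝ), 1 ≤ K ∧ 0 < C ∧
    ∀ d : Dt, d.Good 0 → d.n.natAbs = 1 → ∀ H N : ℕ, d.Sz H N → 2 * d.p + 2 ≤ N →
    ∀ (S : Finset ℕ) (k : ℕ → ℕ) (w : ℕ → ℤ → ℤ → ℝ) (M : ℕ → ℝ) (Y : ℤ) (T : Finset ℤ), d.p ∈ S →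
    (∀ l ∈ S, ¬ d.Dom l) → (∏ l ∈ S, l ^ k l) ^ 8 ≤ N →
    (∀ l ∈ S, LS 1 l T (fun X => d.B X Y) (fun X => w l X Y) (fun X => 2 * d.ie l X Y + k l)
      (M l) 2) →
    (∀ X ∈ T, d.Box H N X Y ∧ S ⊆ d.PP X Y ∧ (∀ l ∈ S, 0 ≤ w l X Y) ∧ d.JJ X Y ^ 32 ≤ N) →
    d.QQ Y ^ 4 ≤ N →
    ∑ X ∈ T, d.WS S w X Y ≤ C * N * (∏ l ∈ S, M l) *
      ((∏ l ∈ Nat.primesLE (N ^ 7) \ S, d.ms K l Y) *
        Real.exp (∑ l ∈ Nat.primesLE (N + 1), (if l ∈ S then 2 else d.aa K l Y) / l)) := by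
  obtain ⟨K, hK, hstd⟩ := xba_std
  obtain ⟨C, hC, hsh⟩ := shiu_types K 6
  refine ⟨K, 2 * C, hK, by positivity, ?_⟩
  intro d hd hn H N hs hN S k w M Y T hpS hD hk hLS hT hQ
  have hms : ∀ l, 0 ≤ d.ms K l Y := fun l => by
    have hK0 : 0 ≤ K := by linarith
    unfold ms
    split_ifs <;> positivity
  have hM0 : 0 ≤ ∏ l ∈ S, M l := prod_nonneg fun l hl => trow_M (hLS l hl)
  have hm0 : 0 ≤ ∏ l ∈ Nat.primesLE (N ^ 7) \ S, d.ms K l Y := prod_nonneg fun l _ => hms l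
  rcases T.eq_empty_or_nonempty with rfl | ⟨X₀, hX₀⟩
  · rw [sum_empty]
    positivity
  have hN' : 2 * d.n.natAbs * d.p ≤ N := by rw [hn]; omega
  set P := Nat.primesLE (N ^ 7) with hP
  have hPp : ∀ l ∈ P, l.Prime := fun l hl => Nat.prime_of_mem_primesLE hl
  have hSP : S ⊆ P := (hT X₀ hX₀).2.1.trans (trow_PP hs hN' (hT X₀ hX₀).1).2
  obtain ⟨x₀, hx₀⟩ := Box.ico hd.a_pos N Y
  have key := hsh P x₀ (N + 1) T (fun X => d.B X Y)
    (fun l X => if l ∈ S then w l X Y else d.Wt l X Y)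
    (fun l X => if l ∈ S then 2 * d.ie l X Y + k l else if d.Dom l then 0 else d.mu l X Y)
    (fun l => if l ∈ S then M l else d.ms K l Y) (fun l => if l ∈ S then 2 else d.aa K l Y)
    (fun l hl => ⟨hPp l hl, by
      by_cases h1 : l ∈ S
      · simp only [if_pos h1]
        exact (hLS l h1).mono hK (fun _ h => h) (fun _ _ => le_rfl) (fun _ _ => le_rfl) le_rfl le_rfl
      · simp only [if_neg h1]
        exact (hstd d hd hn l (hPp l hl) (fun e => h1 (e ▸ hpS)) Y).mono le_rfl (fun X hX => (hT X hX).1.ne)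
          (fun _ _ => le_rfl) (fun _ _ => le_rfl) le_rfl le_rfl⟩)
    (fun X hX => by
      obtain ⟨hb, -, hw, hJ⟩ := hT X hX
      refine ⟨(hx₀ H X hb).1, (hx₀ H X hb).2, fun l _ => ?_, hb.ne,
        (trow_PP hs hN' hb).1.trans (Nat.pow_le_pow_left (Nat.le_succ N) 6), ?_⟩
      · split_ifs with h1
        · exact hw l h1
        · exact Wt_nonneg l X Y
      · have h1 : ∏ l ∈ P, l ^ (if l ∈ S then 2 * d.ie l X Y + k l
              else if d.Dom l then 0 else d.mu l X Y) ≤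
            ∏ l ∈ P, l ^ (if d.Dom l then 0 else d.mu l X Y) * (if l ∈ S then l ^ k l else 1) := by
          refine prod_le_prod' fun l hl => ?_
          by_cases h2 : l ∈ S
          · rw [if_pos h2, if_pos h2, if_neg (hD l h2), ← pow_add]
            refine Nat.pow_le_pow_right (hPp l hl).pos ?_
            unfold mu
            omega
          · rw [if_neg h2, if_neg h2, mul_one]
        rw [prod_mul_distrib, prod_ite_mem, inter_eq_right.2 hSP] at h1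
        have h2 := h1.trans (Nat.mul_le_mul_right _ (mod_le hd X Y P hPp))
        refine (Nat.pow_le_pow_left h2 2).trans (Nat.le_succ_of_le ?_)
        refine (Nat.pow_le_pow_iff_left (n := 8) (by norm_num)).1 ?_
        calc ((d.JJ X Y ^ 2 * d.QQ Y * ∏ l ∈ S, l ^ k l) ^ 2) ^ 8
            = d.JJ X Y ^ 32 * (d.QQ Y ^ 4) ^ 4 * ((∏ l ∈ S, l ^ k l) ^ 8) ^ 2 := by ring
          _ ≤ N * N ^ 4 * N ^ 2 := by gcongr
          _ = N ^ 7 := by ring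
          _ ≤ N ^ 8 := Nat.pow_le_pow_right (by omega) (by norm_num))
  have e1 : ∀ X ∈ T, d.WS S w X Y = ∏ l ∈ P, if l ∈ S then w l X Y else d.Wt l X Y := by
    intro X hX
    obtain ⟨hb, hS, -, -⟩ := hT X hX
    rw [← prod_sdiff hSP, WS, mul_comm]
    congr 1
    · rw [prod_congr rfl fun l hl => if_neg (mem_sdiff.1 hl).2]
      refine prod_subset (sdiff_subset_sdiff (trow_PP hs hN' hb).2 Subset.rfl) fun l hl hl' => ?_
      exact Wt_eq_one hd (hPp l (mem_sdiff.1 hl).1) hb.ne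
        fun h1 => hl' (mem_sdiff.2 ⟨h1, (mem_sdiff.1 hl).2⟩)
    · exact prod_congr rfl fun l hl => (if_pos hl).symm
  have e2 : ∏ l ∈ P, (if l ∈ S then M l else d.ms K l Y) =
      (∏ l ∈ S, M l) * ∏ l ∈ P \ S, d.ms K l Y := by
    rw [← prod_sdiff hSP, mul_comm, prod_congr rfl fun l hl => if_pos hl,
      prod_congr rfl fun l hl => if_neg (mem_sdiff.1 hl).2]
  have e3 : P.filter (fun l => l ≤ N + 1) = Nat.primesLE (N + 1) := by
    have h1 : N + 1 ≤ N ^ 7 := by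
      have h2 : 2 ≤ N := by omega
      calc N + 1 ≤ N ^ 2 := by nlinarith
        _ ≤ N ^ 7 := Nat.pow_le_pow_right (by omega) (by norm_num)
    ext l
    simp only [hP, mem_filter, Nat.mem_primesLE]
    exact ⟨fun h => ⟨h.2, h.1.2⟩, fun h => ⟨⟨h.1.trans h1, h.2⟩, h.1⟩⟩
  rw [sum_congr rfl e1]
  rw [e2, e3] at key
  refine key.trans ?_
  have h1 : ((N + 1 : ℕ) : ℝ) ≤ 2 * N := by
    have : N + 1 ≤ 2 * N := by omega
    exact_mod_cast this
  calc _ ≤ C * (2 * N) * ((∏ l ∈ S, M l) * ∏ l ∈ P \ S, d.ms K l Y) *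
        Real.exp (∑ l ∈ Nat.primesLE (N + 1), (if l ∈ S then 2 else d.aa K l Y) / l) := by gcongr
    _ = _ := by ring

end Dt

end Pool.Agent.EQ
end
end

-- part Pool.Agent.P.MP_ad7a55_nt.XHa
section

/-! Many small split primes: definitions and the range t at least m. -/

set_option autoImplicit false

noncomputable section

open Finset
open scoped Classical ArithmeticFunction.vonMangoldt

namespace Pool.Agent.EQ

/-- The number of primes up to `z` with `(-m/p) = 1`. -/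
def nSp (m z : ℕ) : ℕ := #((Nat.primesLE z).filter fun p : ℕ => jacobiSym (-(m : ℤ)) p = 1)

/-- Many small primes split. -/
def Many (A m : ℕ) : Prop := ∀ t : ℕ, Real.log m ≤ t → t ≤ nSp m (t ^ A)

/-- The exceptional set. -/
def EX (A : ℕ) (c : ℝ) : Set ℕ := {m | Squarefree m ∧ ¬ (NoZero c (-(m : ℤ)) ∧ Many A m)}

/-- No zero in a disc. -/
def ZF (ε : ℝ) (m : ℕ) : Prop :=
  ∀ (q : ℕ) [NeZero q] (χ : DirichletCharacter ℂ q), q = 4 * m →
    (∀ n : ℕ, Odd n → χ n = jacobiSym (-(m : ℤ)) n) → ∀ s : ℂ, ‖s - 2‖ < 1 + ε → χ.LFunction s ≠ 0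

theorem nSp_mono (m : ℕ) {z z' : ℕ} (h : z ≤ z') : nSp m z ≤ nSp m z' := by
  unfold nSp
  refine Finset.card_le_card fun p hp => ?_
  rw [Finset.mem_filter, Nat.mem_primesLE] at hp ⊢
  exact ⟨⟨hp.1.1.trans h, hp.1.2⟩, hp.2⟩

theorem xha_class {z d : ℕ} (hd : 0 < d) (a : ℤ) :
    (#((Icc 1 z).filter fun x : ℕ => (d : ℤ) ∣ (x : ℤ) - a) : ℝ) ≤ z / d + 1 := by
  have h1 : #((Icc 1 z).filter fun x : ℕ => (d : ℤ) ∣ (x : ℤ) - a) ≤ #(range (z / d + 1)) := by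
    refine Finset.card_le_card_of_injOn (fun x => x / d) (fun x hx => ?_) fun x hx y hy e => ?_
    · have h2 := (Finset.mem_Icc.1 (Finset.mem_filter.1 hx).1).2
      exact Finset.mem_coe.2 (Finset.mem_range.2 (Nat.lt_succ_of_le (Nat.div_le_div_right h2)))
    · have h2 := (Finset.mem_filter.1 hx).2
      have h3 := (Finset.mem_filter.1 hy).2
      have h4 : (d : ℤ) ∣ (y : ℤ) - x := by
        have := dvd_sub h3 h2
        rwa [sub_sub_sub_cancel_right] at this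
      have h5 : x % d = y % d := (Nat.modEq_iff_dvd).2 h4
      have e' : x / d = y / d := e
      rw [← Nat.div_add_mod x d, ← Nat.div_add_mod y d, e', h5]
  rw [Finset.card_range] at h1
  have h2 : ((z / d : ℕ) : ℝ) ≤ z / d := Nat.cast_div_le
  have h3 : (#((Icc 1 z).filter fun x : ℕ => (d : ℤ) ∣ (x : ℤ) - a) : ℝ) ≤ (z / d + 1 : ℕ) := by exact_mod_cast h1
  push_cast at h3
  linarith

theorem xha_two {z d : ℕ} (hd : 0 < d) (a b : ℤ) (T : Finset ℕ) (hT : T ⊆ Icc 1 z)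
    (h : ∀ x ∈ T, (d : ℤ) ∣ (x : ℤ) - a ∨ (d : ℤ) ∣ (x : ℤ) - b) : (#T : ℝ) ≤ 2 * (z / d + 1) := by
  have h1 : T ⊆ ((Icc 1 z).filter fun x : ℕ => (d : ℤ) ∣ (x : ℤ) - a) ∪ ((Icc 1 z).filter fun x : ℕ => (d : ℤ) ∣ (x : ℤ) - b) := by
    intro x hx
    rcases h x hx with h2 | h2
    · exact Finset.mem_union_left _ (Finset.mem_filter.2 ⟨hT hx, h2⟩)
    · exact Finset.mem_union_right _ (Finset.mem_filter.2 ⟨hT hx, h2⟩)
  have h2 := (Finset.card_le_card h1).trans (Finset.card_union_le _ _)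
  have h3 : (#T : ℝ) ≤ #((Icc 1 z).filter fun x : ℕ => (d : ℤ) ∣ (x : ℤ) - a) +
      #((Icc 1 z).filter fun x : ℕ => (d : ℤ) ∣ (x : ℤ) - b) := by exact_mod_cast h2
  have h4 := xha_class (z := z) hd a
  have h5 := xha_class (z := z) hd b
  linarith

theorem xha_dvd_two {m p x : ℕ} (hp : p.Prime) (hm : p ∣ m) (h : p ∣ 4 * x ^ 2 + m) :
    p ∣ 2 * x := by
  have h1 : p ∣ 4 * x ^ 2 := (Nat.dvd_add_left hm).1 h
  have h2 : 4 * x ^ 2 = (2 * x) ^ 2 := by ring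
  rw [h2] at h1
  exact hp.dvd_of_dvd_pow h1

theorem xha_not_dvd {m p x : ℕ} (hm : ¬ p ∣ m) (h : p ∣ 4 * x ^ 2 + m) : ¬ p ∣ 2 * x := by
  intro h1
  apply hm
  have h2 : p ∣ 4 * x ^ 2 := by
    have h3 : 4 * x ^ 2 = (2 * x) * (2 * x) := by ring
    rw [h3]
    exact h1.mul_right _
  exact (Nat.dvd_add_right h2).1 h

theorem xha_roots {m p j : ℕ} (hm : Squarefree m) (hp : p.Prime) (hj : 1 ≤ j) (z : ℕ) :
    (#{x ∈ Icc 1 z | p ^ j ∣ 4 * x ^ 2 + m} : ℝ) ≤ 2 * (z / (p ^ j : ℕ) + 1) := by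
  have hd : 0 < p ^ j := pow_pos hp.pos j
  have hpj : p ∣ p ^ j := dvd_pow_self p (by omega)
  by_cases hpm : p ∣ m
  · rcases Nat.lt_or_ge 1 j with h2 | h2
    · have : {x ∈ Icc 1 z | p ^ j ∣ 4 * x ^ 2 + m} = ∅ := by
        refine Finset.filter_eq_empty_iff.2 fun x _ hx => ?_
        have h3 := xha_dvd_two hp hpm (hpj.trans hx)
        have h4 : p * p ∣ 4 * x ^ 2 := by
          have h5 : 4 * x ^ 2 = (2 * x) * (2 * x) := by ring
          rw [h5]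
          exact mul_dvd_mul h3 h3
        have h5 : p * p ∣ 4 * x ^ 2 + m := by
          rw [← pow_two]
          exact (pow_dvd_pow p h2).trans hx
        exact hp.one_lt.ne' (Nat.isUnit_iff.1 (hm p ((Nat.dvd_add_right h4).1 h5)))
      rw [this, Finset.card_empty, Nat.cast_zero]
      positivity
    · obtain rfl : j = 1 := by omega
      refine xha_two hd 0 1 _ (Finset.filter_subset _ _) fun x hx => ?_
      have h3 := xha_dvd_two hp hpm (hpj.trans (Finset.mem_filter.1 hx).2)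
      rw [pow_one]
      rcases (Nat.Prime.dvd_mul hp).1 h3 with h4 | h4
      · obtain rfl : p = 2 := (Nat.prime_dvd_prime_iff_eq hp Nat.prime_two).1 h4
        push_cast
        omega
      · left
        rw [sub_zero]
        exact_mod_cast h4
  · rcases ({x ∈ Icc 1 z | p ^ j ∣ 4 * x ^ 2 + m} : Finset ℕ).eq_empty_or_nonempty with h | ⟨y, hy⟩
    · rw [h, Finset.card_empty, Nat.cast_zero]
      positivity
    refine xha_two hd y (-y) _ (Finset.filter_subset _ _) fun x hx => ?_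
    have hx' := (Finset.mem_filter.1 hx).2
    have hy' := (Finset.mem_filter.1 hy).2
    have hx2 := xha_not_dvd hpm (hpj.trans hx')
    have hpz : Prime (p : ℤ) := Nat.prime_iff_prime_int.1 hp
    have h1 : (p : ℤ) ^ j ∣ 4 * (x : ℤ) ^ 2 + m := by exact_mod_cast hx'
    have h2 : (p : ℤ) ^ j ∣ 4 * (y : ℤ) ^ 2 + m := by exact_mod_cast hy'
    have h3 : (p : ℤ) ^ j ∣ 2 * (2 * (((x : ℤ) - y) * ((x : ℤ) - -y))) := by
      have h4 := dvd_sub h1 h2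
      have h5 : 4 * (x : ℤ) ^ 2 + m - (4 * (y : ℤ) ^ 2 + m) =
          2 * (2 * (((x : ℤ) - y) * ((x : ℤ) - -y))) := by ring
      rwa [h5] at h4
    have hp2 : ¬ (p : ℤ) ∣ 2 := by
      intro h4
      apply hx2
      have h5 : p ∣ 2 := by exact_mod_cast h4
      exact h5.mul_right _
    have h4 := hpz.pow_dvd_of_dvd_mul_left j hp2 (hpz.pow_dvd_of_dvd_mul_left j hp2 h3)
    push_cast
    by_cases h5 : (p : ℤ) ∣ (x : ℤ) - y
    · left
      refine hpz.pow_dvd_of_dvd_mul_right j (fun h6 => hx2 ?_) h4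
      have h7 := dvd_add h5 h6
      have h8 : (x : ℤ) - y + ((x : ℤ) - -y) = 2 * x := by ring
      rw [h8] at h7
      exact_mod_cast h7
    · right
      exact hpz.pow_dvd_of_dvd_mul_left j h5 h4

theorem xha_split {m p x : ℕ} (hp : p.Prime) (hm : ¬ p ∣ m) (h : p ∣ 4 * x ^ 2 + m) :
    jacobiSym (-(m : ℤ)) p = 1 := by
  have h1 : (-(m : ℤ)) % p = (2 * (x : ℤ)) ^ 2 % p := by
    refine Int.modEq_iff_dvd.2 ?_
    have h2 : (p : ℤ) ∣ 4 * (x : ℤ) ^ 2 + m := by exact_mod_cast h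
    have h3 : (2 * (x : ℤ)) ^ 2 - -(m : ℤ) = 4 * (x : ℤ) ^ 2 + m := by ring
    rwa [h3]
  rw [jacobiSym.mod_left' h1]
  refine jacobiSym.sq_one' ?_
  have h2 : Nat.Coprime (2 * x) p := ((Nat.Prime.coprime_iff_not_dvd hp).2 (xha_not_dvd hm h)).symm
  have h3 : (2 * (x : ℤ)) = ((2 * x : ℕ) : ℤ) := by push_cast; ring
  rw [h3, Int.gcd_natCast_natCast]
  exact h2

theorem xha_log_le {n W : ℕ} (hn : 0 < n) (hW : n ≤ W) {S : Finset ℕ} (hS : n.primeFactors ⊆ S) :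
    Real.log n ≤ ∑ p ∈ S, Real.log p *
      ∑ j ∈ Icc 1 (Nat.log p W), if p ^ j ∣ n then (1 : ℝ) else 0 := by
  rw [Real.log_nat_eq_sum_factorization, Finsupp.sum, Nat.support_factorization]
  refine le_trans (Finset.sum_le_sum fun p hp => ?_) (Finset.sum_le_sum_of_subset_of_nonneg hS
    fun p _ _ => mul_nonneg (Real.log_natCast_nonneg p)
      (Finset.sum_nonneg fun j _ => by split_ifs <;> norm_num))
  have hpp := Nat.prime_of_mem_primeFactors hp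
  rw [mul_comm]
  refine mul_le_mul_of_nonneg_left ?_ (Real.log_natCast_nonneg p)
  rw [Finset.sum_boole]
  have h1 : Icc 1 (n.factorization p) ⊆ {j ∈ Icc 1 (Nat.log p W) | p ^ j ∣ n} := by
    intro j hj
    have h2 := Finset.mem_Icc.1 hj
    have h3 : p ^ j ∣ n := (hpp.pow_dvd_iff_le_factorization hn.ne').2 h2.2
    refine Finset.mem_filter.2 ⟨Finset.mem_Icc.2 ⟨h2.1, ?_⟩, h3⟩
    exact Nat.le_log_of_pow_le hpp.one_lt ((Nat.le_of_dvd hn h3).trans hW)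
  have h2 := Finset.card_le_card h1
  rw [Nat.card_Icc, Nat.add_sub_cancel] at h2
  exact_mod_cast h2

theorem xha_geom {p : ℝ} (hp : 2 ≤ p) (L : ℕ) : ∑ j ∈ Icc 1 L, 1 / p ^ j ≤ 2 / p - 2 / p ^ (L + 1) := by
  have hp0 : 0 < p := by linarith
  induction L with
  | zero => simp
  | succ L ih =>
    rw [Finset.sum_Icc_succ_top (by omega)]
    have h1 : 2 / p ^ (L + 1 + 1) ≤ 1 / p ^ (L + 1) := by
      rw [div_le_div_iff₀ (by positivity) (by positivity), pow_succ p (L + 1)]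
      have : 0 < p ^ (L + 1) := by positivity
      nlinarith
    have h2 : 2 / p ^ (L + 1) = 1 / p ^ (L + 1) + 1 / p ^ (L + 1) := by ring
    linarith

theorem xha_upper {m z W : ℕ} (hm : Squarefree m) (hW : 4 * z ^ 2 + m ≤ W) {S : Finset ℕ}
    (hS : ∀ p ∈ S, p.Prime) (hS' : ∀ x ∈ Icc 1 z, (4 * x ^ 2 + m).primeFactors ⊆ S) :
    ∑ x ∈ Icc 1 z, Real.log (4 * x ^ 2 + m : ℕ) ≤
      4 * z * ∑ p ∈ S, Real.log p / p + #S * (2 * Real.log W) := by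
  have hm0 : 0 < m := Nat.pos_of_ne_zero hm.ne_zero
  have hW0 : W ≠ 0 := by omega
  have h1 : ∀ x ∈ Icc 1 z, Real.log (4 * x ^ 2 + m : ℕ) ≤ ∑ p ∈ S, Real.log p *
      ∑ j ∈ Icc 1 (Nat.log p W), if p ^ j ∣ 4 * x ^ 2 + m then (1 : ℝ) else 0 := by
    intro x hx
    refine xha_log_le (by omega) (le_trans ?_ hW) (hS' x hx)
    have := Nat.pow_le_pow_left (Finset.mem_Icc.1 hx).2 2
    omega
  refine (Finset.sum_le_sum h1).trans ?_
  rw [Finset.sum_comm, Finset.mul_sum, ← nsmul_eq_mul, ← Finset.sum_const, ← Finset.sum_add_distrib]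
  refine Finset.sum_le_sum fun p hp => ?_
  have hpp := hS p hp
  have hp2 : (2 : ℝ) ≤ p := by exact_mod_cast hpp.two_le
  have hl := Real.log_natCast_nonneg p
  rw [← Finset.mul_sum, Finset.sum_comm]
  have h2 : ∑ j ∈ Icc 1 (Nat.log p W), ∑ x ∈ Icc 1 z,
      (if p ^ j ∣ 4 * x ^ 2 + m then (1 : ℝ) else 0) ≤
      ∑ j ∈ Icc 1 (Nat.log p W), (2 * z * (1 / (p : ℝ) ^ j) + 2) := by
    refine Finset.sum_le_sum fun j hj => ?_
    rw [Finset.sum_boole]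
    refine (xha_roots hm hpp (Finset.mem_Icc.1 hj).1 z).trans (le_of_eq ?_)
    push_cast
    ring
  rw [Finset.sum_add_distrib, ← Finset.mul_sum, Finset.sum_const, Nat.card_Icc, Nat.add_sub_cancel,
    nsmul_eq_mul] at h2
  have h3 := xha_geom hp2 (Nat.log p W)
  have h4 : (0 : ℝ) ≤ 2 / (p : ℝ) ^ (Nat.log p W + 1) := by positivity
  have h5 : 2 * (z : ℝ) * ∑ j ∈ Icc 1 (Nat.log p W), 1 / (p : ℝ) ^ j ≤ 2 * z * (2 / p) :=
    mul_le_mul_of_nonneg_left (by linarith) (by positivity)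
  have h6 : (Nat.log p W : ℝ) * Real.log p ≤ Real.log W := by
    rw [← Real.log_pow]
    refine Real.log_le_log (by positivity) ?_
    exact_mod_cast Nat.pow_log_le_self p hW0
  have h7 := mul_le_mul_of_nonneg_left (h2.trans (add_le_add_left h5 _)) hl
  refine h7.trans ?_
  have h8 : Real.log p * (2 * z * (2 / p) + (Nat.log p W : ℝ) * 2) =
      4 * z * (Real.log p / p) + 2 * ((Nat.log p W : ℝ) * Real.log p) := by ring
  rw [h8]
  linarith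

theorem xha_lower (m z : ℕ) :
    2 * (z * Real.log z - z) ≤ ∑ x ∈ Icc 1 z, Real.log (4 * x ^ 2 + m : ℕ) := by
  have h1 : ∑ x ∈ Icc 1 z, Real.log x = Real.log (z.factorial : ℕ) := by
    induction z with
    | zero => simp
    | succ z ih =>
      rw [Finset.sum_Icc_succ_top (by omega), ih, Nat.factorial_succ, Nat.cast_mul,
        Real.log_mul (by positivity) (by positivity), add_comm]
  have h2 : z * Real.log z - z ≤ Real.log (z.factorial : ℕ) := by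
    rcases Nat.eq_zero_or_pos z with rfl | hz
    · simp
    have h3 := Real.pow_div_factorial_le_exp (z : ℝ) (Nat.cast_nonneg z) z
    have h4 := Real.log_le_log (by positivity) h3
    rw [Real.log_exp, Real.log_div (by positivity) (by positivity), Real.log_pow] at h4
    linarith
  refine le_trans (mul_le_mul_of_nonneg_left (h2.trans h1.ge) (by norm_num)) ?_
  rw [Finset.mul_sum]
  refine Finset.sum_le_sum fun x hx => ?_
  have hx0 : (0 : ℝ) < x := by exact_mod_cast (Finset.mem_Icc.1 hx).1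
  have h3 : 2 * Real.log x = Real.log ((x : ℝ) ^ 2) := by
    rw [Real.log_pow]
    norm_num
  rw [h3]
  refine Real.log_le_log (by positivity) ?_
  push_cast
  have : (0 : ℝ) ≤ m := Nat.cast_nonneg m
  nlinarith

theorem xha_mert {t : ℕ} (ht : 1 ≤ t) {S : Finset ℕ} (hS : ∀ p ∈ S, p.Prime) (hc : #S ≤ 2 * t) :
    ∑ p ∈ S, Real.log p / p ≤ 2 * Real.log t + 6 := by
  have ht0 : (0 : ℝ) < t := by exact_mod_cast ht
  rw [← Finset.sum_filter_add_sum_filter_not S fun p => p ≤ t ^ 2]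
  have h1 : ∑ p ∈ S with p ≤ t ^ 2, Real.log p / p ≤
      ∑ p ∈ Nat.primesLE (t ^ 2), Real.log p / p := by
    refine Finset.sum_le_sum_of_subset_of_nonneg (fun p hp => ?_) fun p _ _ => ?_
    · exact Nat.mem_primesLE.2 ⟨(Finset.mem_filter.1 hp).2, hS p (Finset.mem_filter.1 hp).1⟩
    · exact div_nonneg (Real.log_natCast_nonneg p) (Nat.cast_nonneg p)
  have h2 := Lib.Sieve.sum_log_div_le (N := t ^ 2) (Nat.one_le_pow _ _ ht)
  have h3 : Real.log 4 ≤ 2 := by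
    have h4 : Real.log 4 = 2 * Real.log 2 := by
      rw [show (4 : ℝ) = 2 ^ 2 by norm_num, Real.log_pow]
      norm_num
    have := Real.log_two_lt_d9
    linarith
  have h4 : Real.log (t ^ 2 : ℕ) = 2 * Real.log t := by
    rw [Nat.cast_pow, Real.log_pow]
    norm_num
  have h5 : ∑ p ∈ S with ¬ p ≤ t ^ 2, Real.log p / p ≤ ∑ p ∈ S with ¬ p ≤ t ^ 2, 2 / (t : ℝ) := by
    refine Finset.sum_le_sum fun p hp => ?_
    have h6 : t ^ 2 ≤ p := (not_le.1 (Finset.mem_filter.1 hp).2).le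
    have h7 : (t : ℝ) ^ 2 ≤ p := by exact_mod_cast h6
    have hp0 : (0 : ℝ) < p := lt_of_lt_of_le (by positivity) h7
    have h8 : (t : ℝ) ≤ Real.sqrt p := Real.le_sqrt_of_sq_le h7
    have h9 : Real.log p ≤ 2 * Real.sqrt p := by
      have h10 := Real.log_le_sub_one_of_pos (Real.sqrt_pos.2 hp0)
      rw [Real.log_sqrt hp0.le] at h10
      linarith
    have h10 : Real.sqrt p * Real.sqrt p = p := Real.mul_self_sqrt hp0.le
    have h11 := Real.sqrt_nonneg (p : ℝ)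
    rw [div_le_div_iff₀ hp0 ht0]
    nlinarith
  rw [Finset.sum_const, nsmul_eq_mul] at h5
  have h6 : (#({p ∈ S | ¬ p ≤ t ^ 2}) : ℝ) ≤ 2 * t := by
    exact_mod_cast (Finset.card_filter_le _ _).trans hc
  have h7 : (#({p ∈ S | ¬ p ≤ t ^ 2}) : ℝ) * (2 / t) ≤ 2 * t * (2 / t) :=
    mul_le_mul_of_nonneg_right h6 (by positivity)
  have h8 : 2 * (t : ℝ) * (2 / t) = 4 := by field_simp; norm_num
  linarith

theorem many_large : ∃ A₀ t₀ : ℕ, ∀ m : ℕ, Squarefree m → ∀ t : ℕ, t₀ ≤ t → m ≤ t →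
    t ≤ nSp m (t ^ A₀) := by
  refine ⟨21, 128, fun m hm t ht hmt => ?_⟩
  by_contra hc
  have hm0 : 0 < m := Nat.pos_of_ne_zero hm.ne_zero
  have ht1 : 1 ≤ t := by omega
  have hW : 4 * (t ^ 10) ^ 2 + m ≤ t ^ 21 := by
    have h1 : t ≤ t ^ 20 := Nat.le_self_pow (by norm_num) t
    have h2 : t ^ 21 = t * t ^ 20 := by ring
    have h3 : (t ^ 10) ^ 2 = t ^ 20 := by ring
    rw [h2, h3]
    nlinarith
  set S : Finset ℕ := ((Nat.primesLE (t ^ 21)).filter fun p : ℕ => jacobiSym (-(m : ℤ)) p = 1) ∪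
    m.primeFactors with hSdef
  have hS : ∀ p ∈ S, p.Prime := by
    intro p hp
    rcases Finset.mem_union.1 hp with h | h
    · exact (Nat.mem_primesLE.1 (Finset.mem_filter.1 h).1).2
    · exact Nat.prime_of_mem_primeFactors h
  have hSc : #S ≤ 2 * t := by
    refine (Finset.card_union_le _ _).trans ?_
    have h1 : #m.primeFactors ≤ m := by
      have h2 : m.primeFactors ⊆ Icc 1 m := fun p hp => Finset.mem_Icc.2
        ⟨(Nat.prime_of_mem_primeFactors hp).one_le, Nat.le_of_mem_primeFactors hp⟩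
      simpa using Finset.card_le_card h2
    unfold nSp at hc
    omega
  have hS' : ∀ x ∈ Icc 1 (t ^ 10), (4 * x ^ 2 + m).primeFactors ⊆ S := by
    intro x hx p hp
    have hpp := Nat.prime_of_mem_primeFactors hp
    by_cases h : p ∣ m
    · exact Finset.mem_union_right _ (Nat.mem_primeFactors.2 ⟨hpp, h, hm0.ne'⟩)
    · refine Finset.mem_union_left _ (Finset.mem_filter.2 ⟨Nat.mem_primesLE.2 ⟨?_, hpp⟩,
        xha_split hpp h (Nat.dvd_of_mem_primeFactors hp)⟩)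
      refine (Nat.le_of_mem_primeFactors hp).trans (le_trans ?_ hW)
      have := Nat.pow_le_pow_left (Finset.mem_Icc.1 hx).2 2
      omega
  have h1 := (xha_lower m (t ^ 10)).trans (xha_upper hm hW hS hS')
  have h2 := xha_mert ht1 hS hSc
  have hl : 4 ≤ Real.log t := by
    have h3 : Real.log ((2 : ℝ) ^ 7) ≤ Real.log t := by
      refine Real.log_le_log (by norm_num) ?_
      exact_mod_cast ht
    rw [Real.log_pow] at h3
    have := Real.log_two_gt_d9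
    push_cast at h3
    linarith
  have htr : (128 : ℝ) ≤ t := by exact_mod_cast ht
  have h3 : Real.log (t ^ 10 : ℕ) = 10 * Real.log t := by
    rw [Nat.cast_pow, Real.log_pow]
    norm_num
  have h4 : Real.log (t ^ 21 : ℕ) = 21 * Real.log t := by
    rw [Nat.cast_pow, Real.log_pow]
    norm_num
  rw [h3, h4] at h1
  have h5 : (128 * t : ℝ) ≤ (t ^ 10 : ℕ) := by
    have h6 : t * t ≤ t ^ 10 := by
      rw [← pow_two]
      exact Nat.pow_le_pow_right ht1 (by norm_num)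
    have h7 : 128 * t ≤ t ^ 10 := (Nat.mul_le_mul_right t ht).trans h6
    exact_mod_cast h7
  generalize ((t ^ 10 : ℕ) : ℝ) = z at h1 h5
  have h6 : (#S : ℝ) ≤ 2 * t := by exact_mod_cast hSc
  have hz : 0 < z := by linarith
  have h7 : 4 * z * ∑ p ∈ S, Real.log p / p ≤ 4 * z * (2 * Real.log t + 6) :=
    mul_le_mul_of_nonneg_left h2 (by positivity)
  have h8 : (#S : ℝ) * (2 * (21 * Real.log t)) ≤ 2 * t * (2 * (21 * Real.log t)) :=
    mul_le_mul_of_nonneg_right h6 (by positivity)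
  have h9 : 128 * t * Real.log t ≤ z * Real.log t :=
    mul_le_mul_of_nonneg_right h5 (by linarith)
  have h10 : z * 4 ≤ z * Real.log t := mul_le_mul_of_nonneg_left hl hz.le
  have h11 : 0 ≤ t * Real.log t := by positivity
  nlinarith

end Pool.Agent.EQ
end
end

-- part Pool.Agent.P.MP_ad7a55_nt.YGj
section

/-! The adaptive rigidity theorem. -/

set_option autoImplicit false

noncomputable section

open Finset Matrix
open scoped MatrixGroups Classical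

namespace Pool.Agent.EQ

theorem rig_step (ι : Type) [Fintype ι] [Nonempty ι] {c₀ θ₀ : ℝ} (hc₀ : 0 < c₀) (hθ₀ : 0 < θ₀)
    (hθ₀' : θ₀ ≤ 1) (C₁ : ℕ) : ∃ c : ℝ, 0 < c ∧ ∀ θ : ℝ, 0 < θ → θ ≤ 1 → ∃ K : ℝ, 1 ≤ K ∧
    ∀ H : ℝ, 1 ≤ H → ∃ y₀ : ℕ, ∀ (α γ δ : Type) (d : RD α ι γ δ) (y p : ℕ) (Λ δ₀ σ I : ℝ)
      (B : Finset ℕ), y₀ ≤ y → d.Ok6 y p H Λ δ₀ C₁ → 2 * δ₀ ≤ θ → B ⊆ d.P →
      (y : ℝ) ^ θ₀ / 4 ≤ #B → (y : ℝ) ^ θ₀ / 4 ≤ #(d.P \ B) → Real.log y ≤ I → 0 < Λ →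
      Λ ≤ Real.exp I → I ≤ (y : ℝ) ^ (θ₀ / 4) → K * I ≤ p * Real.log y →
      σ ≤ Fintype.card ι - c₀ → d.Lab B σ I θ → d.Lab B (σ - c) (K * I) (θ ^ 4 / 16) := by
  have hm : 0 < Fintype.card ι := Fintype.card_pos
  have he : 0 < θ₀ / (8 * (32 * (C₁ : ℝ) + 5)) := by positivity
  obtain ⟨c, q₀, hc, hc1, hGL⟩ := gl_apply6 ι he hc₀
  refine ⟨c, hc, fun θ hθ hθ1 => ?_⟩
  obtain ⟨ε, K, hε, hK, hnum⟩ := num6 C₁ q₀ hm hθ₀ hθ₀' hθ hθ1 hc hc1
  refine ⟨K, hK, fun H hH => ?_⟩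
  have hH0 : 0 ≤ H := by linarith
  have hH2 : 1 ≤ 2 * H ^ 2 := by nlinarith
  obtain ⟨C, hC, hCT⟩ := ct_pair hH2 hε
  obtain ⟨y₀, hy₀⟩ := hnum H C hH0 hC.le
  refine ⟨y₀, fun α γ δ d y p Λ δ₀ σ I B hy h hδ hB hB1 hB2 hI hΛ hΛI hI2 hKI hσ hL => ?_⟩
  obtain ⟨L, u, b, hLu, hexp, hN⟩ := hy₀ y p (#B) Λ I hy hI hΛ hΛI hI2 hKI hB1
  have hLu' : L * u ≤ #(d.P \ B) := by exact_mod_cast hLu.trans hB2
  have hcard : Fintype.card (Fin L × Fin u) ≤ Fintype.card (d.P \ B : Finset ℕ) := by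
    rw [Fintype.card_prod, Fintype.card_fin, Fintype.card_fin, Fintype.card_coe]
    exact hLu'
  obtain ⟨f⟩ := Function.Embedding.nonempty_of_card_le hcard
  have hG : d.Grp p (fun g i => (f (g, i) : ℕ)) B :=
    { sub := hB
      inj := fun z z' e => f.injective (Subtype.ext e)
      mem := fun g i => mem_sdiff.1 (f (g, i)).2
      le := le_trans (Nat.le_mul_of_pos_left L hN.r₀) hN.p₁
      pos := lt_of_lt_of_le (by norm_num) hN.u₁ }
  have hy0 : (0 : ℝ) < y := by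
    have := hN.y₂
    exact_mod_cast (by omega : 0 < y)
  have hBne : B.Nonempty := by
    have h1 : (0 : ℝ) < (y : ℝ) ^ θ₀ / 4 := by positivity
    exact card_pos.1 (Nat.cast_pos.1 (h1.trans_le hB1))
  rcases h.dich hH0 hΛ hG hBne c hθ hδ hL hexp with h1 | ⟨V, R, R', hV⟩
  · exact h1
  · exact (RD.Big.false h hΛ hG hθ hc.le he.le hε.le hC.le hGL hCT hσ hV hN).elim

theorem ygj_iter (ι : Type) [Fintype ι] [Nonempty ι] {c₀ θ₀ θ : ℝ} (hc₀ : 0 < c₀) (hθ₀ : 0 < θ₀)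
    (hθ₀' : θ₀ ≤ 1) (hθ : 0 < θ) (hθ' : θ ≤ 1) (C₁ : ℕ) : ∃ c : ℝ, 0 < c ∧ ∀ J : ℕ,
    ∃ θ' K : ℝ, 0 < θ' ∧ θ' ≤ 1 ∧ 1 ≤ K ∧
    ∀ H : ℝ, 1 ≤ H → ∃ y₀ : ℕ, ∀ (α γ δ : Type) (d : RD α ι γ δ) (y p : ℕ) (Λ δ₀ σ I : ℝ)
      (B : Finset ℕ), y₀ ≤ y → d.Ok6 y p H Λ δ₀ C₁ → 2 * δ₀ ≤ θ' → B ⊆ d.P →
      (y : ℝ) ^ θ₀ / 4 ≤ #B → (y : ℝ) ^ θ₀ / 4 ≤ #(d.P \ B) → Real.log y ≤ I → 0 < Λ →
      Λ ≤ Real.exp I → K * I ≤ (y : ℝ) ^ (θ₀ / 4) → K * I ≤ p * Real.log y →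
      σ ≤ Fintype.card ι - c₀ → d.Lab B σ I θ → d.Lab B (σ - J * c) (K * I) θ' := by
  obtain ⟨c, hc, hstep⟩ := rig_step ι hc₀ hθ₀ hθ₀' C₁
  refine ⟨c, hc, fun J => ?_⟩
  induction J with
  | zero =>
    refine ⟨θ, 1, hθ, hθ', le_rfl, fun H _ => ⟨0, ?_⟩⟩
    intro α γ δ d y p Λ δ₀ σ I B _ _ _ _ _ _ _ _ _ _ _ _ hL
    simpa using hL
  | succ J ih =>
    obtain ⟨θ', K, h0, h1, hK, ih⟩ := ih
    obtain ⟨K', hK', hs⟩ := hstep θ' h0 h1
    have h4 : θ' ^ 4 ≤ θ' := by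
      calc θ' ^ 4 ≤ θ' ^ 1 := pow_le_pow_of_le_one h0.le h1 (by norm_num)
        _ = θ' := pow_one _
    have h5 : θ' ^ 4 / 16 ≤ θ' := by
      have : 0 ≤ θ' ^ 4 := by positivity
      linarith
    refine ⟨θ' ^ 4 / 16, K' * K, by positivity, h5.trans h1,
      one_le_mul_of_one_le_of_one_le hK' hK, fun H hH => ?_⟩
    obtain ⟨y₁, hy₁⟩ := ih H hH
    obtain ⟨y₂, hy₂⟩ := hs H hH
    refine ⟨max y₁ y₂, ?_⟩
    intro α γ δ d y p Λ δ₀ σ I B hy h hδ hB hB1 hB2 hI hΛ hΛI hI2 hKI hσ hL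
    have hI0 : 0 ≤ I := (Real.log_natCast_nonneg y).trans hI
    have hKI0 : I ≤ K * I := le_mul_of_one_le_left hI0 hK
    have hKK : K * I ≤ K' * K * I := by
      rw [mul_assoc]
      exact le_mul_of_one_le_left (hI0.trans hKI0) hK'
    have hL1 := hy₁ α γ δ d y p Λ δ₀ σ I B ((le_max_left _ _).trans hy) h (hδ.trans h5) hB hB1 hB2
      hI hΛ hΛI (hKK.trans hI2) (hKK.trans hKI) hσ hL
    have hJc : (0 : ℝ) ≤ J * c := by positivity
    have hL2 := hy₂ α γ δ d y p Λ δ₀ (σ - J * c) (K * I) B ((le_max_right _ _).trans hy) h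
      (hδ.trans h5) hB hB1 hB2 (hI.trans hKI0) hΛ (hΛI.trans (Real.exp_le_exp.2 hKI0))
      (hKK.trans hI2) (by rw [← mul_assoc]; exact hKI) (by linarith) hL1
    have e1 : σ - ((J + 1 : ℕ) : ℝ) * c = σ - J * c - c := by push_cast; ring
    rw [e1, mul_assoc]
    exact hL2

theorem rig6 (ι : Type) [Fintype ι] [Nonempty ι] {c₀ θ₀ θ : ℝ} (hc₀ : 0 < c₀) (hθ₀ : 0 < θ₀)
    (hθ₀' : θ₀ ≤ 1) (hθ : 0 < θ) (C₁ : ℕ) : ∃ δ₀ K : ℝ, 0 < δ₀ ∧ 1 ≤ K ∧ ∀ C H : ℝ, 1 ≤ H →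
    ∃ y₀ : ℕ, ∀ (α γ δ : Type) (d : RD α ι γ δ) (y p : ℕ) (Λ I : ℝ), y₀ ≤ y →
      d.Ok6 y p H Λ δ₀ C₁ → (y : ℝ) ^ θ₀ ≤ #d.P → Real.log y ≤ I → 0 < Λ → Λ ≤ Real.exp I →
      K * I ≤ (y : ℝ) ^ (θ₀ / 4) → K * I ≤ p * Real.log y →
      (#(d.O.image d.C0) : ℝ) ≤ Real.exp I →
      (∀ q ∈ d.P, ∃ R : γ → Finset (ι → Set V2),
        (∀ a, (#(R a) : ℝ) ≤ C * (q : ℝ) ^ (Fintype.card ι - c₀ : ℝ)) ∧
        θ ≤ prb d.O fun x => d.In x ∧ d.dir q x ∈ R (d.C0 x)) → False := by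
  have hm0 : 0 < min θ 1 := lt_min hθ one_pos
  have hm1 : min θ 1 ≤ 1 := min_le_right _ _
  obtain ⟨c, hc, hit⟩ := ygj_iter ι (half_pos hc₀) hθ₀ hθ₀' (half_pos hm0) (by linarith) C₁
  obtain ⟨J, hJ⟩ := exists_nat_gt ((Fintype.card ι : ℝ) / c)
  rw [div_lt_iff₀ hc] at hJ
  obtain ⟨θ', K, h0, _, hK, hit⟩ := hit J
  refine ⟨θ' / 2, K, half_pos h0, hK, fun C H hH => ?_⟩
  obtain ⟨y₁, hy₁⟩ := hit H hH
  have hev := ((tendsto_rpow_atTop (half_pos hc₀)).comp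
    tendsto_natCast_atTop_atTop).eventually_ge_atTop C
  obtain ⟨y₂, hy₂⟩ := Filter.eventually_atTop.1 hev
  refine ⟨max y₁ (max y₂ 2), ?_⟩
  intro α γ δ d y p Λ I hy h hP hI hΛ hΛI hI2 hKI hC0 hA
  have hya : y₁ ≤ y := (le_max_left _ _).trans hy
  have hyb : y₂ ≤ y := ((le_max_left _ _).trans (le_max_right _ _)).trans hy
  have hyc : 2 ≤ y := ((le_max_right _ _).trans (le_max_right _ _)).trans hy
  have hy1 : (1 : ℝ) < y := by exact_mod_cast (by omega : 1 < y)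
  have hP2 : 1 < #d.P := by
    have h1 : (1 : ℝ) < (y : ℝ) ^ θ₀ := Real.one_lt_rpow hy1 hθ₀
    exact_mod_cast h1.trans_le hP
  obtain ⟨B, hB, hBc⟩ := exists_subset_card_eq (s := d.P) (n := #d.P / 2) (Nat.div_le_self _ _)
  have hB1 : (y : ℝ) ^ θ₀ / 4 ≤ #B := by
    have h1 : #d.P ≤ 4 * #B := by omega
    have h2 : (#d.P : ℝ) ≤ 4 * #B := by exact_mod_cast h1
    linarith
  have hB2 : (y : ℝ) ^ θ₀ / 4 ≤ #(d.P \ B) := by
    have h1 : #d.P ≤ 4 * #(d.P \ B) := by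
      rw [card_sdiff_of_subset hB]
      omega
    have h2 : (#d.P : ℝ) ≤ 4 * #(d.P \ B) := by exact_mod_cast h1
    linarith
  have hBne : B.Nonempty := card_pos.1 (by omega)
  have hL : d.Lab B (Fintype.card ι - c₀ / 2) I (min θ 1 / 2) := by
    refine h.lab hB hBne hm0.le hC0 fun q hq => ?_
    obtain ⟨R, h1, h2⟩ := hA q (hB hq)
    refine ⟨R, fun a => (h1 a).trans ?_, (min_le_left _ _).trans h2⟩
    have hq1 := (h.prime q (hB hq)).2.1
    have hq0 : (0 : ℝ) < q := by exact_mod_cast (by omega : 0 < q)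
    have h3 : C ≤ (q : ℝ) ^ (c₀ / 2) := hy₂ q (by omega)
    have e1 : (Fintype.card ι - c₀ / 2 : ℝ) = c₀ / 2 + (Fintype.card ι - c₀) := by ring
    rw [e1, Real.rpow_add hq0]
    exact mul_le_mul_of_nonneg_right h3 (by positivity)
  have hL2 := hy₁ α γ δ d y p Λ (θ' / 2) (Fintype.card ι - c₀ / 2) I B hya h (by linarith) hB hB1
    hB2 hI hΛ hΛI hI2 hKI le_rfl hL
  exact hL2.false h.ne (fun q hq => (h.prime q (hB hq)).1.one_lt) (by linarith) h0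

end Pool.Agent.EQ
end
end
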