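import Pool.Agent.K.MP_ad7a55_nt.C58
import Pool.Agent.K.MP_ad7a55_nt.C46
import Pool.Agent.K.MP_ad7a55_nt.C60
import Pool.Agent.K.MP_ad7a55_nt.C57
import Pool.Agent.K.MP_ad7a55_nt.C41
import Pool.Agent.K.MP_ad7a55_nt.C45
import Pool.Agent.K.MP_ad7a55_nt.C52
import Pool.Agent.K.MP_ad7a55_nt.C19
import Pool.Agent.K.MP_ad7a55_nt.C33
import Pool.Agent.K.MP_ad7a55_nt.C42
import Pool.Agent.K.MP_ad7a55_nt.C16
import Pool.Agent.K.MP_ad7a55_nt.C53

-- part Pool.Agent.P.MP_ad7a55_nt.YSa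
section

/-! Sums of divisor type prime to a modulus, and class numbers in small fields. -/

set_option autoImplicit false

noncomputable section

open Finset
open scoped Classical

namespace Pool.Agent.EQ

/-- A convolution with the indicator of the numbers prime to `P`. -/
def vv (P : ℕ) (ψ : ℕ → ℝ) (n : ℕ) : ℝ :=
  ∑ x ∈ n.divisorsAntidiagonal, if x.1.Coprime P then ψ x.2 else 0

theorem ysa_ind (Q : ℕ) {a : ℕ} (ha : a ≠ 0) :
    ∑ e ∈ a.divisors, (if e ∣ Q then ((ArithmeticFunction.moebius e : ℤ) : ℝ) else 0) =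
      if a.Coprime Q then 1 else 0 := by
  rw [← sum_filter]
  have h1 : a.divisors.filter (fun e => e ∣ Q) = (a.gcd Q).divisors := by
    ext e
    simp only [mem_filter, Nat.mem_divisors, Nat.dvd_gcd_iff]
    exact ⟨fun h => ⟨⟨h.1.1, h.2⟩, (Nat.gcd_pos_of_pos_left _ (Nat.pos_of_ne_zero ha)).ne'⟩,
      fun h => ⟨⟨h.1.1, ha⟩, h.1.2⟩⟩
  have h2 := congrArg (fun f : ArithmeticFunction ℝ => f (a.gcd Q))
    (ArithmeticFunction.coe_moebius_mul_coe_zeta (R := ℝ))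
  simp only [ArithmeticFunction.coe_mul_zeta_apply, ArithmeticFunction.intCoe_apply] at h2
  rw [h1, h2]
  by_cases h : a.Coprime Q
  · rw [if_pos h, show a.gcd Q = 1 from h, ArithmeticFunction.one_one]
  · rw [if_neg h, ArithmeticFunction.one_apply_ne h]

theorem ysa_sum {Q : ℕ} (hQ : Q ≠ 0) (ψ : ℕ → ℝ) (M : ℕ) :
    ∑ n ∈ Icc 1 M, vv Q ψ n = ∑ e ∈ Q.divisors,
      ((ArithmeticFunction.moebius e : ℤ) : ℝ) * ∑ k ∈ Icc 1 (M / e), rr ψ k := by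
  let f : ArithmeticFunction ℝ := ⟨fun k => if k = 0 then 0 else ψ k, by simp⟩
  let m : ArithmeticFunction ℝ :=
    ⟨fun e => if e ∣ Q then ((ArithmeticFunction.moebius e : ℤ) : ℝ) else 0, by simp⟩
  have he : ∀ k, ((ArithmeticFunction.zeta : ArithmeticFunction ℝ) * f) k = rr ψ k := by
    intro k
    rw [ArithmeticFunction.coe_zeta_mul_apply, rr]
    refine sum_congr rfl fun d hd => ?_
    show (if d = 0 then (0 : ℝ) else ψ d) = ψ d
    rw [if_neg (Nat.pos_of_mem_divisors hd).ne']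
  have hv : ∀ n, vv Q ψ n = (m * ((ArithmeticFunction.zeta : ArithmeticFunction ℝ) * f)) n := by
    intro n
    rw [← mul_assoc, ArithmeticFunction.mul_apply, vv]
    refine sum_congr rfl fun x hx => ?_
    have hx1 := Nat.left_ne_zero_of_mem_divisorsAntidiagonal hx
    have hx2 := Nat.right_ne_zero_of_mem_divisorsAntidiagonal hx
    rw [ArithmeticFunction.coe_mul_zeta_apply]
    show _ = (∑ e ∈ x.1.divisors, if e ∣ Q then ((ArithmeticFunction.moebius e : ℤ) : ℝ) else 0) *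
      (if x.2 = 0 then (0 : ℝ) else ψ x.2)
    rw [ysa_ind Q hx1, if_neg hx2]
    split_ifs <;> simp
  simp only [hv, ttl_Icc]
  rw [ArithmeticFunction.sum_Ioc_mul_eq_sum_sum]
  simp only [he]
  have h1 : ∀ n ∈ Ioc 0 M, m n * ∑ k ∈ Ioc 0 (M / n), rr ψ k = if n ∣ Q then
      ((ArithmeticFunction.moebius n : ℤ) : ℝ) * ∑ k ∈ Ioc 0 (M / n), rr ψ k else 0 := by
    intro n _
    show (if n ∣ Q then ((ArithmeticFunction.moebius n : ℤ) : ℝ) else 0) * _ = _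
    split_ifs <;> simp
  rw [sum_congr rfl h1, ← sum_filter]
  refine sum_subset (fun e he => Nat.mem_divisors.2 ⟨(mem_filter.1 he).2, hQ⟩) fun e h2 h3 => ?_
  have h4 : M < e := by
    by_contra h5
    exact h3 (mem_filter.2 ⟨mem_Ioc.2 ⟨Nat.pos_of_mem_divisors h2, not_lt.1 h5⟩,
      Nat.dvd_of_mem_divisors h2⟩)
  rw [Nat.div_eq_of_lt h4]
  simp

theorem ysa_term {q : ℕ} {ψ : ℕ → ℝ} (h : RC q ψ) {L : ℝ}
    (hL : ∀ N : ℕ, 0 < N → |∑ n ∈ Icc 1 N, ψ n / n - L| ≤ 2 * q / N) (M : ℕ) {e : ℕ}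
    (he : 0 < e) :
    |∑ k ∈ Icc 1 (M / e), rr ψ k - L * M * (1 / e)| ≤ |L| + 20 * Real.sqrt (q * M) := by
  have h1 := h.hyper hL (M / e)
  have h2 : Real.sqrt (q * (M / e : ℕ)) ≤ Real.sqrt (q * M) :=
    Real.sqrt_le_sqrt (mul_le_mul_of_nonneg_left (by exact_mod_cast Nat.div_le_self M e)
      (Nat.cast_nonneg q))
  have he0 : (0 : ℝ) < e := by exact_mod_cast he
  have b1 : ((M / e : ℕ) : ℝ) ≤ M / e := Nat.cast_div_le
  have b2 : (M : ℝ) / e ≤ ((M / e : ℕ) : ℝ) + 1 := by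
    rw [div_le_iff₀ he0]
    have h6 := Nat.lt_div_mul_add (a := M) he
    have h7 : (M : ℝ) < ((M / e : ℕ) : ℝ) * e + e := by exact_mod_cast h6
    linarith
  have b3 : |((M / e : ℕ) : ℝ) - M / e| ≤ 1 := abs_le.2 ⟨by linarith, by linarith⟩
  have b4 : |L * (((M / e : ℕ) : ℝ) - M / e)| ≤ |L| := by
    rw [abs_mul]
    exact mul_le_of_le_one_right (abs_nonneg _) b3
  have e1 : ∑ k ∈ Icc 1 (M / e), rr ψ k - L * M * (1 / e) =
      L * (((M / e : ℕ) : ℝ) - M / e) + (∑ k ∈ Icc 1 (M / e), rr ψ k - L * (M / e : ℕ)) := by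
    ring
  rw [e1]
  refine (abs_add_le _ _).trans ?_
  linarith

theorem ysa_sqf {q Q : ℕ} {ψ : ℕ → ℝ} (h : RC q ψ) {L : ℝ}
    (hL : ∀ N : ℕ, 0 < N → |∑ n ∈ Icc 1 N, ψ n / n - L| ≤ 2 * q / N) (hQ : Squarefree Q) (M : ℕ) :
    ∑ n ∈ Icc 1 M, vv Q ψ n ≤
      L * (∏ l ∈ Q.primeFactors, (1 - 1 / (l : ℝ))) * M + Q * (|L| + 20 * Real.sqrt (q * M)) := by
  let g : ArithmeticFunction ℝ := ⟨fun n => 1 / (n : ℝ), by simp⟩
  have hg : g.IsMultiplicative := by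
    refine ⟨?_, fun {m n} _ => ?_⟩
    · show 1 / ((1 : ℕ) : ℝ) = 1
      simp
    · show 1 / ((m * n : ℕ) : ℝ) = 1 / (m : ℝ) * (1 / (n : ℝ))
      rw [Nat.cast_mul, one_div_mul_one_div]
  have h1 : ∏ l ∈ Q.primeFactors, (1 - 1 / (l : ℝ)) =
      ∑ e ∈ Q.divisors, ((ArithmeticFunction.moebius e : ℤ) : ℝ) * (1 / (e : ℝ)) :=
    hg.prodPrimeFactors_one_sub_of_squarefree g hQ
  have hB : 0 ≤ |L| + 20 * Real.sqrt (q * M) := by positivity
  rw [ysa_sum hQ.ne_zero, h1]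
  calc ∑ e ∈ Q.divisors, ((ArithmeticFunction.moebius e : ℤ) : ℝ) * ∑ k ∈ Icc 1 (M / e), rr ψ k
      ≤ ∑ e ∈ Q.divisors, (L * M * (((ArithmeticFunction.moebius e : ℤ) : ℝ) * (1 / (e : ℝ))) +
          (|L| + 20 * Real.sqrt (q * M))) := by
        refine sum_le_sum fun e he => ?_
        have h2 := ysa_term h hL M (Nat.pos_of_mem_divisors he)
        have h3 : |((ArithmeticFunction.moebius e : ℤ) : ℝ)| ≤ 1 := by
          exact_mod_cast ArithmeticFunction.abs_moebius_le_one (n := e)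
        have h4 := (le_abs_self _).trans ((abs_mul _ _).trans_le
          (mul_le_mul h3 h2 (abs_nonneg _) zero_le_one))
        linarith
    _ = L * M * ∑ e ∈ Q.divisors, ((ArithmeticFunction.moebius e : ℤ) : ℝ) * (1 / (e : ℝ)) +
          Q.divisors.card * (|L| + 20 * Real.sqrt (q * M)) := by
        rw [sum_add_distrib, ← mul_sum, sum_const, nsmul_eq_mul]
    _ ≤ _ := by
        have h5 : (Q.divisors.card : ℝ) ≤ Q := by exact_mod_cast Nat.card_divisors_le_self Q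
        have h6 := mul_le_mul_of_nonneg_right h5 hB
        linarith

theorem cop_sum {q P : ℕ} {ψ : ℕ → ℝ} (h : RC q ψ) {L : ℝ}
    (hL : ∀ N : ℕ, 0 < N → |∑ n ∈ Icc 1 N, ψ n / n - L| ≤ 2 * q / N) (hP : 0 < P) (M : ℕ) :
    ∑ n ∈ Icc 1 M, vv P ψ n ≤
      L * (∏ l ∈ P.primeFactors, (1 - 1 / (l : ℝ))) * M + P * (|L| + 20 * Real.sqrt (q * M)) := by
  have hp : ∀ l ∈ P.primeFactors, l.Prime := fun l hl => Nat.prime_of_mem_primeFactors hl
  have h1 : Squarefree (∏ l ∈ P.primeFactors, l) := by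
    refine Finset.squarefree_prod_of_pairwise_isCoprime (fun a ha b hb hab => ?_)
      fun l hl => (hp l hl).squarefree
    exact Nat.coprime_iff_isRelPrime.1 ((Nat.coprime_primes (hp a ha) (hp b hb)).2 hab)
  have h2 := ysa_sqf h hL h1 M
  rw [Nat.primeFactors_prod hp] at h2
  have h3 : ∀ a : ℕ, a.Coprime (∏ l ∈ P.primeFactors, l) ↔ a.Coprime P := fun a => by
    refine ⟨fun h4 => Nat.coprime_of_dvd fun k hk h5 h6 => ?_,
      fun h4 => h4.coprime_dvd_right (Nat.prod_primeFactors_dvd P)⟩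
    exact hk.one_lt.ne' (Nat.eq_one_of_dvd_coprimes h4 h5
      (dvd_prod_of_mem _ (Nat.mem_primeFactors.2 ⟨hk, h6, hP.ne'⟩)))
  have h4 : ∀ n, vv (∏ l ∈ P.primeFactors, l) ψ n = vv P ψ n := fun n => by
    refine sum_congr rfl fun x _ => ?_
    by_cases h5 : x.1.Coprime P
    · rw [if_pos h5, if_pos ((h3 _).2 h5)]
    · rw [if_neg h5, if_neg (mt (h3 _).1 h5)]
  simp only [h4] at h2
  have h5 : ((∏ l ∈ P.primeFactors, l : ℕ) : ℝ) ≤ P := by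
    exact_mod_cast Nat.le_of_dvd hP (Nat.prod_primeFactors_dvd P)
  have h6 := mul_le_mul_of_nonneg_right h5
    (show 0 ≤ |L| + 20 * Real.sqrt (q * M) by positivity)
  linarith

theorem vv_jc {P : ℕ} (h2 : 2 ∣ P) (d : ℤ) (n : ℕ) :
    vv P (jc ((P : ℤ) ^ 2 * d)) n = if n.Coprime P then rr (jc ((P : ℤ) ^ 2 * d)) n else 0 := by
  have _ := h2
  rw [vv]
  by_cases h : n.Coprime P
  · rw [if_pos h, rr, ← Nat.sum_divisorsAntidiagonal' (fun _ b => jc ((P : ℤ) ^ 2 * d) b)]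
    refine sum_congr rfl fun x hx => if_pos ?_
    exact h.coprime_dvd_left ⟨x.2, (Nat.mem_divisorsAntidiagonal.1 hx).1.symm⟩
  · rw [if_neg h]
    refine sum_eq_zero fun x hx => ?_
    by_cases h1 : x.1.Coprime P
    · rw [if_pos h1, jc]
      have h3 : ¬ x.2.Coprime P := fun h3 =>
        h ((Nat.mem_divisorsAntidiagonal.1 hx).1 ▸ Nat.Coprime.mul_left h1 h3)
      have h4 : jacobiSym ((P : ℤ) ^ 2 * d) x.2 = 0 := by
        refine jacobiSym.eq_zero_iff.2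
          ⟨Nat.right_ne_zero_of_mem_divisorsAntidiagonal hx, fun h5 => h3 ?_⟩
        have h6 : ((P : ℤ) ^ 2 * d).natAbs.Coprime x.2 := h5
        refine (h6.coprime_dvd_left ⟨P * d.natAbs, ?_⟩).symm
        rw [Int.natAbs_mul, Int.natAbs_pow, Int.natAbs_natCast]
        ring
      rw [h4]
      simp
    · rw [if_neg h1]

theorem exists_L_jc {D : ℤ} (hD : D < 0) [NeZero (4 * D.natAbs)] :
    ∀ N : ℕ, 0 < N → |∑ n ∈ Icc 1 N, jc D n / n - ‖(sgeChi D).LFunction 1‖| ≤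
      2 * (4 * D.natAbs : ℕ) / N := by
  intro N hN
  have hχ := tlow_ne hD
  have h1 := tnz_trunc hχ (tlow_jc D) one_pos hN
  have hd := DirichletCharacter.differentiable_LFunction hχ
  have h2 : 0 < ((sgeChi D).LFunction (1 : ℝ)).re := by
    refine (posSer_one (tlow_sq D)).re_pos hd (fun x hx hx1 => ?_) le_rfl
    obtain rfl : x = 1 := le_antisymm hx1 hx
    exact DirichletCharacter.LFunction_apply_one_ne_zero hχ
  have h3 := (posSer_one (tlow_sq D)).im_eq_zero hd 1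
  rw [Complex.ofReal_one] at h1 h2 h3
  have h4 : ‖(sgeChi D).LFunction 1‖ = ((sgeChi D).LFunction 1).re := by
    rw [← Complex.abs_re_eq_norm.2 h3, abs_of_pos h2]
  rw [h4, abs_sub_comm]
  simp only [Real.rpow_neg_one] at h1
  simpa only [div_eq_mul_inv] using h1

theorem L_compare : ∃ C : ℝ, 0 < C ∧ ∀ (d g : ℤ) (P : ℕ) [NeZero (4 * (g ^ 2 * d).natAbs)]
    [NeZero (4 * ((P : ℤ) ^ 2 * d).natAbs)], d < 0 → (∀ l : ℕ, l.Prime → l ∣ P → (l : ℤ) ∣ 2 * (g ^ 2 * d)) →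
    ∑ l ∈ (4 * (g ^ 2 * d).natAbs).primeFactors with ¬ l ∣ P, 1 / (l : ℝ) ≤ 1000 →
    ‖(sgeChi ((P : ℤ) ^ 2 * d)).LFunction 1‖ ≤ C * ‖(sgeChi (g ^ 2 * d)).LFunction 1‖ := by
  refine ⟨Real.exp 1002, Real.exp_pos _, fun d g P _ _ hd0 hP hs => ?_⟩
  have hdp : 0 < d.natAbs := Int.natAbs_pos.2 hd0.ne
  have : NeZero (4 * d.natAbs) := ⟨by omega⟩
  have hg : d.natAbs ∣ (g ^ 2 * d).natAbs := Int.natAbs_dvd_natAbs.2 (dvd_mul_left _ _)
  have hp : d.natAbs ∣ ((P : ℤ) ^ 2 * d).natAbs := Int.natAbs_dvd_natAbs.2 (dvd_mul_left _ _)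
  have hsub : (4 * ((P : ℤ) ^ 2 * d).natAbs).primeFactors ⊆
      (4 * (g ^ 2 * d).natAbs).primeFactors := by
    intro l hl
    obtain ⟨h1, h2, -⟩ := Nat.mem_primeFactors.1 hl
    refine Nat.mem_primeFactors.2 ⟨h1, ?_, NeZero.ne _⟩
    rcases (Nat.Prime.dvd_mul h1).1 h2 with h3 | h3
    · exact h3.mul_right _
    · rw [Int.natAbs_mul, Int.natAbs_pow, Int.natAbs_natCast] at h3
      rcases (Nat.Prime.dvd_mul h1).1 h3 with h4 | h4
      · have h5 := Int.natCast_dvd.1 (hP l h1 (h1.dvd_of_dvd_pow h4))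
        rw [Int.natAbs_mul] at h5
        exact h5.trans (Nat.mul_dvd_mul_right (by norm_num) _)
      · exact (h4.trans hg).mul_left _
  have h6 := tlow_prod d ((4 * (g ^ 2 * d).natAbs).primeFactors \
    (4 * ((P : ℤ) ^ 2 * d).natAbs).primeFactors)
    fun l hl => Nat.prime_of_mem_primeFactors (mem_sdiff.1 hl).1
  have h7 : ∑ l ∈ (4 * (g ^ 2 * d).natAbs).primeFactors \
      (4 * ((P : ℤ) ^ 2 * d).natAbs).primeFactors, jc d l / l ≤ 1000 := by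
    refine (le_abs_self _).trans ((tnz_abs (tlow_abs d) _).trans (le_trans ?_ hs))
    refine sum_le_sum_of_subset_of_nonneg (fun l hl => ?_) fun l _ _ => by positivity
    obtain ⟨h1, h2⟩ := mem_sdiff.1 hl
    refine mem_filter.2 ⟨h1, fun h3 => h2 (Nat.mem_primeFactors.2
      ⟨Nat.prime_of_mem_primeFactors h1, ?_, NeZero.ne _⟩)⟩
    rw [Int.natAbs_mul, Int.natAbs_pow, Int.natAbs_natCast]
    exact ((h3.pow two_ne_zero).mul_right _).mul_left _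
  rw [tlow_level (Nat.mul_dvd_mul_left 4 hg), tlow_level (Nat.mul_dvd_mul_left 4 hp),
    DirichletCharacter.LFunction_changeLevel _ _ (Or.inl (tlow_ne hd0)),
    DirichletCharacter.LFunction_changeLevel _ _ (Or.inl (tlow_ne hd0)), norm_mul, norm_mul]
  simp only [tlow_jc]
  rw [← prod_sdiff hsub, norm_mul]
  have h8 : 1 ≤ Real.exp 1002 * ‖∏ l ∈ (4 * (g ^ 2 * d).natAbs).primeFactors \
      (4 * ((P : ℤ) ^ 2 * d).natAbs).primeFactors,
        (1 - ((jc d l : ℝ) : ℂ) * (l : ℂ) ^ (-(1 : ℂ)))‖ := by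
    refine le_trans ?_ (mul_le_mul_of_nonneg_left h6 (Real.exp_pos _).le)
    rw [← Real.exp_add]
    exact Real.one_le_exp (by linarith)
  refine (le_mul_of_one_le_left (mul_nonneg (norm_nonneg _) (norm_nonneg _)) h8).trans
    (le_of_eq ?_)
  ring

theorem ysa_euler : ∃ C : ℝ, 0 < C ∧ ∀ (q : ℕ) [NeZero q]
    (χ : DirichletCharacter ℂ q) (ψ : ℕ → ℝ), χ ≠ 1 → χ ^ 2 = 1 → (∀ n : ℕ, χ n = ψ n) →
    ∀ X : ℕ, q ≤ X ^ 3 →
    Real.exp (∑ l ∈ Nat.primesLE X, ψ l / l) ≤ C * q * ‖χ.LFunction 1‖ := by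
  obtain ⟨c, hc, h1⟩ := siegel (ε := 1 / 2) (by norm_num)
  obtain ⟨C2, hC2, h2⟩ := exp_primes_le 1
  obtain ⟨C3, h3⟩ := tnz_move
  refine ⟨Real.exp C3 * C2 * 2 / c, by positivity, fun q _ χ ψ hχ hχ2 h X hX => ?_⟩
  have hq : 2 ≤ q := by
    have h0 := NeZero.pos q
    by_contra hq
    obtain rfl : q = 1 := by omega
    exact hχ χ.level_one
  have hq0 : (0 : ℝ) < q := by exact_mod_cast NeZero.pos q
  have hrc := tnz_rc hχ hχ2 h
  have e1 := h1 q χ hχ hχ2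
  have e2 := h2 q hq
  rw [Nat.cast_one, one_mul, pow_one] at e2
  have e3 := h3 q ψ hrc hq X hX
  have e4 := (le_abs_self _).trans (tnz_abs (ttl_abs hrc) (Nat.primesLE q))
  have e5 := Real.log_le_rpow_div hq0.le (show (0 : ℝ) < 1 / 2 by norm_num)
  have e6 : (q : ℝ) ^ (1 / 2 : ℝ) = q * (q : ℝ) ^ (-(1 / 2) : ℝ) := by
    rw [mul_comm, ← Real.rpow_add_one hq0.ne']
    norm_num
  have e7 : (q : ℝ) ^ (-(1 / 2) : ℝ) ≤ ‖χ.LFunction 1‖ / c := by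
    rw [le_div_iff₀ hc]
    linarith
  have e8 : Real.log q ≤ 2 * (q * (‖χ.LFunction 1‖ / c)) := by
    have e9 := mul_le_mul_of_nonneg_left e7 hq0.le
    rw [e6] at e5
    linarith
  calc Real.exp (∑ l ∈ Nat.primesLE X, ψ l / l)
      ≤ Real.exp C3 * Real.exp (∑ l ∈ Nat.primesLE q, 1 / (l : ℝ)) := by
        rw [← Real.exp_add]
        exact Real.exp_le_exp.2 (by linarith)
    _ ≤ Real.exp C3 * (C2 * (2 * (q * (‖χ.LFunction 1‖ / c)))) :=
        mul_le_mul_of_nonneg_left (e2.trans (mul_le_mul_of_nonneg_left e8 hC2.le))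
          (Real.exp_pos _).le
    _ = _ := by ring

theorem low_small : ∃ C : ℝ, 0 < C ∧ ∀ d f : ℤ, Squarefree d → f ^ 2 * d < 0 →
    Low (C * d.natAbs) (f ^ 2 * d) := by
  obtain ⟨C, hC, hE⟩ := ysa_euler
  refine ⟨4800 * Real.exp 3 * C, by positivity, fun d f hd hf D' hD' hsq => ?_⟩
  have hf0 : f ≠ 0 := by
    rintro rfl
    simp at hf
  have hd0 : d < 0 := by
    by_contra hn
    exact absurd hf (not_lt.2 (mul_nonneg (sq_nonneg f) (not_lt.1 hn)))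
  obtain ⟨g, rfl⟩ := tlow_shape hd hf0 hsq
  have h3 : 3 ≤ (g ^ 2 * d).natAbs := by
    obtain ⟨h1, h2⟩ := hD'
    omega
  have hdp : 0 < d.natAbs := Int.natAbs_pos.2 hd0.ne
  have : NeZero (4 * d.natAbs) := ⟨by omega⟩
  have : NeZero (4 * (g ^ 2 * d).natAbs) := ⟨by omega⟩
  have hdv : d.natAbs ∣ (g ^ 2 * d).natAbs := Int.natAbs_dvd_natAbs.2 (dvd_mul_left _ _)
  have hX : 4 * d.natAbs ≤ (g ^ 2 * d).natAbs ^ 3 := by
    have h1 := Nat.le_of_dvd (by omega) hdv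
    generalize (g ^ 2 * d).natAbs = X at *
    have h2 : 3 * 3 * X ≤ X * X * X := by gcongr
    calc 4 * d.natAbs ≤ 3 * 3 * X := by omega
      _ ≤ X * X * X := h2
      _ = X ^ 3 := by ring
  have h4 := hE (4 * d.natAbs) (sgeChi d) (jc d) (tlow_ne hd0) (tlow_sq d) (tlow_jc d) _ hX
  rw [Nat.cast_mul, Nat.cast_ofNat] at h4
  have h5 := class_ge hD'
  rw [tlow_level (Nat.mul_dvd_mul_left 4 hdv),
    DirichletCharacter.LFunction_changeLevel _ _ (Or.inl (tlow_ne hd0)), norm_mul] at h5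
  simp only [tlow_jc] at h5
  have h6 := tlow_prod d (4 * (g ^ 2 * d).natAbs).primeFactors
    fun l hl => Nat.prime_of_mem_primeFactors hl
  have h7 := tlow_sum h3
  have h8 : EE (g ^ 2 * d) (g ^ 2 * d).natAbs ≤ Real.exp 3 *
      (Real.exp (∑ l ∈ Nat.primesLE (g ^ 2 * d).natAbs, jc d l / l) *
        Real.exp (-(∑ l ∈ (4 * (g ^ 2 * d).natAbs).primeFactors, jc d l / l) - 2)) := by
    rw [EE, ← Real.exp_add, ← Real.exp_add]
    exact Real.exp_le_exp.2 (by linarith)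
  rw [HH]
  generalize EE (g ^ 2 * d) (g ^ 2 * d).natAbs = E at *
  generalize ‖∏ l ∈ (4 * (g ^ 2 * d).natAbs).primeFactors,
    (1 - ((jc d l : ℝ) : ℂ) * (l : ℂ) ^ (-(1 : ℂ)))‖ = P at *
  have hA := norm_nonneg ((sgeChi d).LFunction 1)
  generalize ‖(sgeChi d).LFunction 1‖ = A at *
  have hS := Real.sqrt_nonneg (-((g ^ 2 * d : ℤ) : ℝ))
  generalize Real.sqrt (-((g ^ 2 * d : ℤ) : ℝ)) = S at *
  calc S * E ≤ S * (Real.exp 3 * (C * (4 * (d.natAbs : ℝ)) * A * P)) := by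
        refine mul_le_mul_of_nonneg_left (h8.trans ?_) hS
        gcongr
    _ = Real.exp 3 * (C * (4 * (d.natAbs : ℝ))) * (S * (A * P)) := by ring
    _ ≤ Real.exp 3 * (C * (4 * (d.natAbs : ℝ))) * (1200 * ((Cl (g ^ 2 * d)).ncard : ℝ)) := by
        gcongr
    _ = _ := by ring

end Pool.Agent.EQ
end
end

-- part Pool.Agent.P.MP_ad7a55_nt.MainC
section

/-! The induction step under the weaker hypothesis. -/

set_option autoImplicit false

noncomputable section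

open MeasureTheory Topology Filter UpperHalfPlane
open scoped MatrixGroups ENNReal BoundedContinuousFunction

namespace Pool.Agent.EQ

theorem two_norm_ge (p : ℕ) [Fact p.Prime] : 1 ≤ (p : ℝ) * ‖(2 : ℚ_[p])‖ := by
  have hp : (1 : ℝ) < p := by exact_mod_cast (Fact.out : p.Prime).one_lt
  have h1 := norm_int_eq p (D := 2) (by norm_num)
  push_cast at h1
  have h2 : padicValInt p 2 ≤ 1 := by
    by_contra h
    have h3 : (p : ℤ) ^ 2 ∣ 2 :=
      (pow_dvd_pow _ (by omega)).trans (padicValInt_dvd (p := p) 2)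
    have h4 := Int.le_of_dvd two_pos h3
    have h5 : (2 : ℤ) ≤ p := by exact_mod_cast (Fact.out : p.Prime).two_le
    nlinarith
  rw [h1]
  calc (1 : ℝ) = p * (p : ℝ) ^ (-1 : ℤ) := by rw [zpow_neg_one, mul_inv_cancel₀ (by positivity)]
    _ ≤ _ := mul_le_mul_of_nonneg_left (zpow_le_zpow_right₀ hp.le (by omega)) (by positivity)

theorem abs_integral_prod_le {n : ℕ} (f : Fin n → (ℂ →ᵇ ℝ)) (I : Finset (Fin n)) {α : Type}
    [MeasurableSpace α] (μ : Measure α) [IsProbabilityMeasure μ] (w : α → Fin n → ℂ) :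
    |∫ s, ∏ k ∈ I, f k (w s k) ∂μ| ≤ ∏ k ∈ I, ‖f k‖ := by
  have := norm_integral_le_of_norm_le_const (μ := μ) (f := fun s => ∏ k ∈ I, f k (w s k))
    (C := ∏ k ∈ I, ‖f k‖) (Eventually.of_forall fun s => by
      rw [norm_prod]
      exact Finset.prod_le_prod (fun _ _ => norm_nonneg _) fun k _ => (f k).norm_coe_le_norm _)
  simpa using this

/-- One step of the induction, for a fixed prime. -/
theorem main_step2 {n : ℕ} (F : IntermediateField ℚ ℂ) [FiniteDimensional ℚ F]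
    (τ : ℕ → Fin n → ℍ) (D : ℕ → Fin n → ℤ) (hD : ∀ i k, HasDisc (τ i k) (D i k))
    (hgen : NoIsog τ) (𝒰 : Ultrafilter ℕ) (h𝒰 : (𝒰 : Filter ℕ) ≤ atTop)
    (hinf : ∀ Y : ℝ, ∀ᶠ i in 𝒰, ∀ k, Y ≤ -(D i k : ℝ)) (p : ℕ) [Fact p.Prime]
    (I : Finset (Fin n)) (j : Fin n) (hj : j ∈ I)
    (hmax : ∀ᶠ i in 𝒰, ∀ k ∈ I, padicValInt p (D i k) ≤ padicValInt p (D i j))
    {η : ℝ} (hη : 0 < η)
    (hdom : ∀ᶠ i in 𝒰, ∀ k ∈ I, ‖(D i j : ℚ_[p])‖ ≤ (-(D i k : ℝ)) ^ (-η))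
    (f : Fin n → (ℂ →ᵇ ℝ)) : ∃ J ⊆ I, j ∈ J ∧
      Tendsto (fun i => avg (orbit_finite F (hD i)).toFinset (fun z => ∏ k ∈ I, f k (z k)) -
        (∏ k ∈ J, ∫ z, f k z ∂mY) *
          avg (orbit_finite F (hD i)).toFinset (fun z => ∏ k ∈ I \ J, f k (z k))) 𝒰 (𝓝 0) := by
  classical
  have hp : (1 : ℝ) < p := by exact_mod_cast (Fact.out : p.Prime).one_lt
  have hp0 : (0 : ℝ) < p := one_pos.trans hp
  have hbig : ∀ᶠ i in 𝒰, ∀ k, D i k < -576 := (hinf 577).mono fun i hi k => by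
    have : (D i k : ℝ) < -576 := by linarith [hi k]
    exact_mod_cast this
  obtain ⟨c, hc⟩ := exists_frames p F n
  choose ρ N x e hF using fun i => hc (τ i) (D i) (hD i) j
  set O : ℕ → Finset (Fin n → ℂ) := fun i => (orbit_finite F (hD i)).toFinset with hO
  have hmem : ∀ i z, z ∈ O i ↔ z ∈ galOrbit F fun k => jInv (τ i k) := fun i z =>
    (orbit_finite F (hD i)).mem_toFinset
  have hOne : ∀ i, (O i).Nonempty := fun i => ⟨_, (hmem i _).2 (orbit_self F _)⟩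
  have hF' : ∀ᶠ i in 𝒰, Fr p (O i) (D i) j c (ρ i) (N i) (x i) (e i) := hbig.mono hF
  have hneg : ∀ i k, D i k < 0 := fun i k => (hD i k).isD.1
  set v : ℕ → ℕ := fun i => padicValInt p (D i j) with hv
  set r : ℕ → ℤ := fun i => (v i : ℤ) / 2 - c with hr
  have hDj : ∀ i, ‖(D i j : ℚ_[p])‖ = (p : ℝ) ^ (-(v i : ℤ)) := fun i =>
    norm_int_eq p (hneg i j).ne
  have hvt : Tendsto v 𝒰 atTop := by
    refine tendsto_atTop.2 fun b => ?_
    have h1 := (tendsto_rpow_neg_atTop hη).eventually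
      (ge_mem_nhds (zpow_pos hp0 (-(b : ℤ))))
    obtain ⟨Y, hY⟩ := eventually_atTop.1 h1
    filter_upwards [hinf Y, hdom] with i h2 h3
    have h4 := (h3 j hj).trans (hY _ (h2 j))
    rw [hDj, zpow_le_zpow_iff_right₀ hp] at h4
    omega
  have hrt : Tendsto r 𝒰 atTop := by
    refine tendsto_atTop.2 fun b => (tendsto_atTop.1 hvt (2 * (b + c).toNat)).mono fun i hi => ?_
    simp only [hr]
    omega
  have hr1 : ∀ i, ‖(D i j : ℚ_[p])‖ * ((p : ℝ) ^ r i) ^ 2 ≤ (p : ℝ) ^ (-(c : ℤ)) := fun i => by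
    rw [hDj, ← zpow_natCast, ← zpow_mul, ← zpow_add₀ hp0.ne']
    refine zpow_le_zpow_right₀ hp.le ?_
    simp only [hr]
    omega
  have hr2 : ∀ i, 1 ≤ (p : ℝ) ^ (2 * c + 1) * (‖(D i j : ℚ_[p])‖ * ((p : ℝ) ^ r i) ^ 2) :=
    fun i => by
      rw [hDj, ← zpow_natCast, ← zpow_natCast, ← zpow_mul, ← zpow_add₀ hp0.ne',
        ← zpow_add₀ hp0.ne']
      refine one_le_zpow₀ hp.le ?_
      simp only [hr]
      omega
  set J := I.filter fun k => ¬ Tendsto (fun i => N i k) 𝒰 (𝓝 0) with hJ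
  have hJI : J ⊆ I := Finset.filter_subset _ _
  have hjJ : j ∈ J := by
    refine Finset.mem_filter.2 ⟨hj, fun h => ?_⟩
    have h4 : ∀ᶠ i in 𝒰, ‖(D i j : ℚ_[p])‖ ≤ ‖(4 : ℚ_[p])‖ := by
      filter_upwards [tendsto_atTop.1 hvt (padicValInt p 4)] with i hi
      have := norm_int_eq p (D := 4) (by norm_num)
      push_cast at this
      rw [hDj, this]
      exact zpow_le_zpow_right₀ hp.le (by omega)
    have h5 : Tendsto (fun _ : ℕ => ‖(2 : ℚ_[p])‖) 𝒰 (𝓝 0) :=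
      h.congr' (by filter_upwards [h4, hF'] with i h4 hF using hF.top h4)
    have := tendsto_nhds_unique h5 tendsto_const_nhds
    exact absurd this.symm (by simp)
  refine ⟨J, hJI, hjJ, ?_⟩
  have hN0 : ∀ᶠ i in 𝒰, ∀ k, 0 ≤ N i k := hF'.mono fun i hi k => by
    obtain ⟨z, hz⟩ := hOne i
    rw [← hi.nrm z hz k]; exact norm_nonneg _
  have hN1 : ∀ᶠ i in 𝒰, ∀ k ∈ I, N i k ≤ 1 := by
    filter_upwards [hF', hmax] with i hi h2 k hk
    have h3 := hi.le k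
    have h4 : ‖(D i j : ℚ_[p])‖ ≤ ‖(D i k : ℚ_[p])‖ := by
      rw [hDj, norm_int_eq p (hneg i k).ne]
      exact zpow_le_zpow_right₀ hp.le (by have := h2 k hk; simp only [hv]; omega)
    have h5 : 0 < ‖(D i k : ℚ_[p])‖ := norm_pos_iff.2 (by exact_mod_cast (hneg i k).ne)
    have h6 : N i k ^ 2 ≤ 1 := by nlinarith
    exact (le_abs_self _).trans ((sq_le_one_iff_abs_le_one _).1 h6)
  obtain ⟨c₁, hc₁⟩ : ∃ c₁ : ℕ, ∀ᶠ i in 𝒰, ∀ k ∈ J, 1 ≤ (p : ℝ) ^ c₁ * N i k := by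
    have h1 : ∀ k, ∃ c₁ : ℕ, k ∈ J → ∀ᶠ i in 𝒰, 1 ≤ (p : ℝ) ^ c₁ * N i k := by
      intro k
      by_cases hk : k ∈ J
      swap
      · exact ⟨0, fun h => absurd h hk⟩
      by_contra h
      push Not at h
      refine (Finset.mem_filter.1 hk).2 (Metric.tendsto_nhds.2 fun ε hε => ?_)
      obtain ⟨m, hm⟩ := pow_unbounded_of_one_lt ε⁻¹ hp
      filter_upwards [(h m).2, hN0] with i h1 h2
      rw [Real.dist_eq, sub_zero, abs_of_nonneg (h2 k)]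
      by_contra h3
      refine not_le.2 h1 ?_
      calc (1 : ℝ) = ε⁻¹ * ε := (inv_mul_cancel₀ hε.ne').symm
        _ ≤ _ := mul_le_mul hm.le (not_lt.1 h3) hε.le (by positivity)
    choose c₁ hc₁ using h1
    refine ⟨Finset.univ.sup c₁, ?_⟩
    filter_upwards [(eventually_all_finset J).2 fun k hk => hc₁ k hk, hN0] with i h1 h2 k hk
    exact (h1 k hk).trans (mul_le_mul_of_nonneg_right
      (pow_le_pow_right₀ hp.le (Finset.le_sup (Finset.mem_univ k))) (h2 k))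
  set c₀ := 2 * c + 3 + 2 * c₁ with hc₀
  have h20 : 0 < ‖(2 : ℚ_[p])‖ := norm_pos_iff.2 two_ne_zero
  have key : ∀ᶠ i in 𝒰, ∀ k ∈ J, (0 < ρ i k ∧ ρ i k ^ 2 * D i k = D i j ∧
      (∀ l ∈ J, ‖(ρ i k : ℚ_[p])‖ ≤ (p : ℝ) ^ c₀ * ‖(ρ i l : ℚ_[p])‖) ∧
      ∀ l ∈ I, ‖(D i k : ℚ_[p])‖ ≤ (p : ℝ) ^ c₀ * (-(D i l : ℝ)) ^ (-η)) ∧
      ∀ z ∈ O i, Frame p (D i k) (x i z k) (e i z k) ∧ piX p (x i z k) ∈ Cl (D i k) ∧
        ‖(D i k : ℚ_[p])‖ * (‖-e i z k * ρ i k‖ * (p : ℝ) ^ r i) ^ 2 ≤ 1 ∧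
        1 ≤ (p : ℝ) ^ c₀ * (‖(D i k : ℚ_[p])‖ * (‖-e i z k * ρ i k‖ * (p : ℝ) ^ r i) ^ 2) := by
    filter_upwards [hF', hc₁, hN1, hN0, hdom, hbig] with i hi h1 h2 h0 h3 hb k hk
    have hne : ∀ k ∈ J, N i k ≠ 0 := fun k hk h => by
      have := h1 k hk
      rw [h, mul_zero] at this
      linarith
    obtain ⟨z₀, hz₀⟩ := hOne i
    have hρN : ∀ k ∈ J, ‖(2 : ℚ_[p])‖ * ‖(ρ i k : ℚ_[p])‖ = N i k := fun k hk => by
      obtain ⟨g, Θ, -, -, -, -, he⟩ := (hi.fr z₀ hz₀ k (hne k hk)).1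
      rw [← hi.nrm z₀ hz₀ k, norm_mul, norm_neg, he]
    obtain ⟨-, h5, h6⟩ := hi.fr z₀ hz₀ k (hne k hk)
    have h7 : ‖(D i k : ℚ_[p])‖ * N i k ^ 2 = ‖(2 : ℚ_[p])‖ ^ 2 * ‖(D i j : ℚ_[p])‖ := by
      have : (ρ i k : ℚ_[p]) ^ 2 * D i k = D i j := by
        exact_mod_cast congrArg (fun q : ℚ => (q : ℚ_[p])) h6
      rw [← hρN k hk, ← this, norm_mul, norm_pow]; ring
    refine ⟨⟨h5, h6, fun l hl => ?_, fun l hl => ?_⟩, fun z hz => ⟨(hi.fr z hz k (hne k hk)).1,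
      ?_, ?_, ?_⟩⟩
    · refine le_of_mul_le_mul_left ?_ h20
      rw [hρN k hk, mul_left_comm, hρN l hl]
      exact (h2 k (hJI hk)).trans ((h1 l hl).trans (mul_le_mul_of_nonneg_right
        (pow_le_pow_right₀ hp.le (by omega)) (h0 l)))
    · have h8 : 1 ≤ ((p : ℝ) ^ c₁ * N i k) ^ 2 := one_le_pow₀ (h1 k hk)
      calc ‖(D i k : ℚ_[p])‖ ≤ ‖(D i k : ℚ_[p])‖ * ((p : ℝ) ^ c₁ * N i k) ^ 2 :=
            le_mul_of_one_le_right (norm_nonneg _) h8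
        _ = (p : ℝ) ^ (2 * c₁) * (‖(D i k : ℚ_[p])‖ * N i k ^ 2) := by ring
        _ ≤ _ := mul_le_mul (pow_le_pow_right₀ hp.le (by omega)) ((hi.le k).trans (h3 l hl))
            (by positivity) (by positivity)
    · obtain ⟨t, ht, hjt⟩ := orbit_lift (hD i) hb ((hmem i z).1 hz) k
      rw [hi.pi z hz k]
      exact ⟨_, discL_one ht, by rw [jL_one, hjt]⟩
    · rw [hi.nrm z hz k, mul_pow, ← mul_assoc]
      refine (mul_le_mul_of_nonneg_right (hi.le k) (by positivity)).trans ((hr1 i).trans ?_)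
      exact zpow_le_one_of_nonpos₀ hp.le (by omega)
    · rw [hi.nrm z hz k, mul_pow, ← mul_assoc ‖(D i k : ℚ_[p])‖, h7]
      have h8 : 1 ≤ ((p : ℝ) * ‖(2 : ℚ_[p])‖) ^ 2 := one_le_pow₀ (two_norm_ge p)
      calc (1 : ℝ) ≤ ((p : ℝ) * ‖(2 : ℚ_[p])‖) ^ 2 *
            ((p : ℝ) ^ (2 * c + 1) * (‖(D i j : ℚ_[p])‖ * ((p : ℝ) ^ r i) ^ 2)) :=
            one_le_mul_of_one_le_of_one_le h8 (hr2 i)
        _ = (p : ℝ) ^ (2 * c + 3) *
            (‖(2 : ℚ_[p])‖ ^ 2 * ‖(D i j : ℚ_[p])‖ * ((p : ℝ) ^ r i) ^ 2) := by ring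
        _ ≤ _ := mul_le_mul_of_nonneg_right (pow_le_pow_right₀ hp.le (by omega)) (by positivity)
  set Φ : ℕ → (Fin n → ℂ) → ℝ := fun i z =>
    ∫ s, ∏ k ∈ I, f k (piX p (uP p (-e i z k * ρ i k * s) • x i z k)) ∂bm p (r i) -
      (∏ k ∈ J, ∫ z, f k z ∂mY) *
        ∫ s, ∏ k ∈ I \ J, f k (piX p (uP p (-e i z k * ρ i k * s) • x i z k)) ∂bm p (r i) with hΦ
  have hΦB : ∀ i z, |Φ i z| ≤ ∏ k ∈ I, ‖f k‖ + |∏ k ∈ J, ∫ z, f k z ∂mY| * ∏ k ∈ I \ J, ‖f k‖ := by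
    intro i z
    refine (abs_sub _ _).trans (add_le_add (abs_integral_prod_le f I _ _) ?_)
    rw [abs_mul]
    exact mul_le_mul_of_nonneg_left (abs_integral_prod_le f _ _ _) (abs_nonneg _)
  set bad : (Fin n × ℕ) ⊕ (Fin n × Fin n × ℤ × ℕ) → ℕ → (Fin n → ℂ) → Prop := fun m i z =>
    m.elim (fun a => a.1 ∈ J ∧ Bad1 p a.2 (D i a.1) (z a.1)) fun a =>
      a.1 ∈ J ∧ a.2.1 ∈ J ∧ a.2.2.1 ≠ 0 ∧ ∃ M₁ M₂, DiscL M₁ (D i a.1) ∧ DiscL M₂ (D i a.2.1) ∧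
        jL M₁ = z a.1 ∧ jL M₂ = z a.2.1 ∧ Bad2 p a.2.2.1 a.2.2.2 (D i a.1) (D i a.2.1) M₁ M₂
    with hbad
  have hcard : ∀ i, ((O i).card : ℝ) = (galOrbit F fun k => jInv (τ i k)).ncard := fun i => by
    rw [Set.ncard_eq_toFinset_card _ (orbit_finite F (hD i))]
  have havg : Tendsto (fun i => avg (O i) (Φ i)) 𝒰 (𝓝 0) := by
    refine avg_tendsto_of_bad h𝒰 O hOne Φ hΦB bad ?_ ?_
    · rintro (⟨k, C⟩ | ⟨k, l, m, c'⟩) δ hδ
      · by_cases hk : k ∈ J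
        swap
        · refine Eventually.of_forall fun i => ?_
          simp only [hbad, Sum.elim_inl, hk, false_and, and_false, Set.ofPred_false,
            Set.ncard_empty, Nat.cast_zero]
          positivity
        obtain ⟨Y, hY⟩ := frac_bad1 p F C c₀ hη hδ
        filter_upwards [key, hinf Y, hbig] with i h1 h2 h3
        simp only [hbad, Sum.elim_inl, hk, true_and, hmem, hcard]
        exact hY n (τ i) (D i) (hD i) k (h3 k) (h2 k) ((h1 k hk).1.2.2.2 k (hJI hk))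
      · by_cases hk : k ∈ J ∧ l ∈ J ∧ m ≠ 0
        swap
        · refine Eventually.of_forall fun i => ?_
          have : {z | z ∈ O i ∧ bad (Sum.inr (k, l, m, c')) i z} = ∅ :=
            Set.eq_empty_of_forall_notMem fun z hz => hk ⟨hz.2.1, hz.2.2.1, hz.2.2.2.1⟩
          rw [this, Set.ncard_empty, Nat.cast_zero]
          positivity
        obtain ⟨hk, hl, hm⟩ := hk
        obtain ⟨Y, hY⟩ := frac_bad2 p F hm c₀ c' hη hδ
        filter_upwards [key, hinf Y, hbig] with i h1 h2 h3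
        simp only [hbad, Sum.elim_inr, hk, hl, hm, ne_eq, not_false_eq_true, true_and, hmem, hcard]
        exact hY n (τ i) (D i) (hD i) k l _ _ (h3 k) (h3 l) (h1 k hk).1.1 (h1 l hl).1.1
          ((h1 k hk).1.2.1.trans (h1 l hl).1.2.1.symm) ((h1 k hk).1.2.2.1 l hl)
          ((h1 l hl).1.2.2.1 k hk) (h2 k) ((h1 k hk).1.2.2.2 k (hJI hk))
          ((h1 k hk).1.2.2.2 l (hJI hl))
    intro z hz hgood
    set d : ℕ → Fin n → ℚ_[p] := fun i k => -e i (z i) k * ρ i k with hd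
    have hdN : ∀ᶠ i in 𝒰, ∀ k, ‖d i k‖ = N i k := hF'.mono fun i hi k => hi.nrm _ (hz i) k
    have hlim : ∀ k, ∃ a : ℚ_[p], k ∈ I → Tendsto (fun i => d i k) 𝒰 (𝓝 a) := by
      intro k
      by_cases hk : k ∈ I
      · obtain ⟨a, -, ha⟩ := (isCompact_closedBall (0 : ℚ_[p]) 1).ultrafilter_le_nhds
          (𝒰.map fun i => d i k) (by
            rw [le_principal_iff]
            change ∀ᶠ i in 𝒰, d i k ∈ Metric.closedBall (0 : ℚ_[p]) 1
            filter_upwards [hdN, hN1] with i h1 h2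
            rw [mem_closedBall_zero_iff, h1 k]
            exact h2 k hk)
        exact ⟨a, fun _ => ha⟩
      · exact ⟨0, fun h => absurd h hk⟩
    choose a ha using hlim
    have haN : ∀ k ∈ I, Tendsto (fun i => N i k) 𝒰 (𝓝 ‖a k‖) := fun k hk =>
      (ha k hk).norm.congr' (hdN.mono fun i hi => hi k)
    have ha0 : ∀ k ∈ J, a k ≠ 0 := fun k hk h =>
      (Finset.mem_filter.1 hk).2 (by simpa [h] using haN k (hJI hk))
    have ha1 : ∀ k ∈ I, k ∉ J → a k = 0 := fun k hk hk' => by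
      have : Tendsto (fun i => N i k) 𝒰 (𝓝 0) := by
        by_contra h
        exact hk' (Finset.mem_filter.2 ⟨hk, h⟩)
      exact norm_eq_zero.1 (tendsto_nhds_unique (haN k hk) this)
    have hT : ∀ k ∈ J, Tt p 𝒰 (fun i => x i (z i) k) (fun i => d i k) r := by
      intro k hk ε hε
      obtain ⟨Ω, hΩ, h⟩ := tight_frame2 p hε
      refine ⟨Ω, hΩ, fun m => ?_⟩
      obtain ⟨C, hC⟩ := h m c₀
      obtain ⟨b, hb⟩ := pow_unbounded_of_one_lt (C : ℝ) hp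
      filter_upwards [key, hgood (Sum.inl (k, C)), hF', hc₁, hdN,
        tendsto_atTop.1 hrt ((b + c₁ : ℕ) : ℤ), hN0] with i h1 h2 h3 h4 h5 h6 h7
      obtain ⟨-, h8⟩ := h1 k hk
      obtain ⟨h9, h10, h11, h12⟩ := h8 _ (hz i)
      refine hC _ _ _ _ _ h9 h10 h11 h12 ?_ ?_
      · rw [h5 k]
        calc (C : ℝ) ≤ (p : ℝ) ^ b * ((p : ℝ) ^ c₁ * N i k) :=
              hb.le.trans (le_mul_of_one_le_right (by positivity) (h4 k hk))
          _ = N i k * (p : ℝ) ^ ((b + c₁ : ℕ) : ℤ) := by rw [zpow_natCast]; ring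
          _ ≤ _ := mul_le_mul_of_nonneg_left (zpow_le_zpow_right₀ hp.le h6) (h7 k)
      · rw [h3.pi _ (hz i)]
        exact fun h => h2 ⟨hk, h⟩
    have hE : ∀ k ∈ J, ∀ l ∈ J, k ≠ l → NoExc p 𝒰 (fun i => x i (z i) k) (fun i => x i (z i) l)
        (fun i => d i k) (fun i => d i l) r := by
      intro k hk l hl hkl q hq δ hδ R
      obtain ⟨M, m, c', hM, hm, h⟩ := exc_frame2 p hq hδ R c₀
      filter_upwards [key, hgood (Sum.inr (k, l, m, c')), h𝒰 (hgen k l hkl M hM), hF']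
        with i h1 h2 h3 h4
      intro P hP hP1
      by_contra h5
      push Not at h5
      obtain ⟨a1, a2⟩ := h1 k hk
      obtain ⟨b1, b2⟩ := h1 l hl
      obtain ⟨a3, a4, a5, a6⟩ := a2 _ (hz i)
      obtain ⟨b3, b4, b5, b6⟩ := b2 _ (hz i)
      have h6 := h _ _ _ _ _ _ _ _ _ a3 b3 a4 b4 a1.1 b1.1 (a1.2.1.trans b1.2.1.symm) a5 b5 a6 b6
        (a1.2.2.1 l hl) (b1.2.2.1 k hk) P hP hP1 h5
      rw [h4.pi _ (hz i), h4.pi _ (hz i)] at h6
      rcases h6 with h6 | h6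
      · obtain ⟨σ, -, hσ⟩ := (hmem i _).1 (hz i)
        rw [hσ] at h6
        exact h3 σ h6
      · exact h2 ⟨hk, hl, hm, h6⟩
    exact step p 𝒰 h𝒰 (fun i => x i (z i)) d a I J hJI ha0 ha1 ha r hrt hT hE f
  refine havg.congr' ?_
  filter_upwards [hF'] with i hi
  have h1 := hi.sum (r i) (hr1 i) _ (prod_bdd f I).1 (prod_bdd f I).2
  have h2 := hi.sum (r i) (hr1 i) _ (prod_bdd f (I \ J)).1 (prod_bdd f (I \ J)).2
  simp only [avg, hΦ]
  rw [← h1, ← h2, Finset.sum_sub_distrib, ← Finset.mul_sum]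
  ring

end Pool.Agent.EQ
end
end

-- part Pool.Agent.P.MP_ad7a55_nt.TPair
section

/-! Pairs of close classes with a level structure. -/

set_option autoImplicit false

noncomputable section

open Finset Matrix UpperHalfPlane

namespace Pool.Agent.EQ

theorem LevP_finite (q : ℕ) (b₀ : ℤ) (C : ℝ) (E : ℤ) : (LevP q b₀ C E).Finite := by
  refine ((Cl_finite E).prod (Cl_finite E)).subset ?_
  rintro z ⟨M₁, M₂, α, β, B, h₁, h₂, e₁, e₂, -⟩
  exact ⟨⟨M₁, h₁, e₁⟩, ⟨M₂, h₂, e₂⟩⟩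

theorem tpair_biUnion {α β : Type*} {A : Set α} (hA : A.Finite) (F : α → Set β) {k : ℕ}
    (hF : ∀ x ∈ A, (F x).Finite ∧ (F x).ncard ≤ k) :
    (⋃ x ∈ A, F x).Finite ∧ (⋃ x ∈ A, F x).ncard ≤ A.ncard * k := by
  refine ⟨hA.biUnion fun x hx => (hF x hx).1, ?_⟩
  induction A, hA using Set.Finite.induction_on with
  | empty => simp
  | @insert a s ha hs ih =>
    rw [Set.biUnion_insert, Set.ncard_insert_of_notMem ha hs, add_mul, one_mul]
    have h1 := ih fun x hx => hF x (Set.mem_insert_of_mem _ hx)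
    have h2 := (hF a (Set.mem_insert _ _)).2
    have h3 := Set.ncard_union_le (F a) (⋃ x ∈ s, F x)
    omega

theorem tpair_diag {E : ℤ} {C : ℝ} {M₁ M₂ : Lt} {α β : ℂ} (h₁ : DiscL M₁ E) (h₂ : DiscL M₂ E)
    (hm : Hm 1 C E E M₁ M₂ α β 0) : jL M₂ = jL M₁ := by
  have v1 := vol_pos h₁.isLat
  have v2 := vol_pos h₂.isLat
  have hE : (E : ℝ) < 0 := by exact_mod_cast h₁.isD.1
  have hs : 0 < Real.sqrt (E * E) := Real.sqrt_pos.2 (mul_pos_of_neg_of_neg hE hE)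
  have hβ : β = 0 := by
    have h := hm.inv
    rw [Int.cast_zero, zero_mul] at h
    rcases mul_eq_zero.1 h with h | h
    · exact Complex.normSq_eq_zero.1 ((mul_eq_zero.1 h).resolve_left hs.ne')
    · exact absurd h v1.ne'
  subst hβ
  have hα : α ≠ 0 := by
    rintro rfl
    have h := hm.deg
    simp only [map_zero, sub_zero, zero_mul, Int.cast_one, one_mul] at h
    exact v2.ne h
  have e : M₂ = pr α * M₁ := by
    refine le_antisymm (fun w hw => ?_) (pr_mul_le.2 fun w hw => ?_)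
    · obtain ⟨z, hz, e⟩ := rl_index h₁.isLat h₂.isLat hm.map hm.deg w hw
      exact mem_pr_mul.2 ⟨z, hz, by simpa [rl] using e⟩
    · simpa [rl] using hm.map w hw
  rw [e, jL_pr_mul h₁.isLat hα]

theorem tpair_fib (E : ℤ) (w : ℂ) :
    {z : ℂ × ℂ | ∃ M₁ M₂, DiscL M₁ E ∧ DiscL M₂ E ∧ jL M₁ = z.1 ∧ jL M₂ = z.2 ∧
      jL (M₂ * cj M₁) = w}.Finite ∧
    {z : ℂ × ℂ | ∃ M₁ M₂, DiscL M₁ E ∧ DiscL M₂ E ∧ jL M₁ = z.1 ∧ jL M₂ = z.2 ∧
      jL (M₂ * cj M₁) = w}.ncard ≤ (Cl E).ncard := by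
  refine ⟨((Cl_finite E).prod (Cl_finite E)).subset ?_,
    Set.ncard_le_ncard_of_injOn Prod.fst ?_ ?_ (Cl_finite E)⟩
  · rintro z ⟨M₁, M₂, h₁, h₂, e₁, e₂, -⟩
    exact ⟨⟨M₁, h₁, e₁⟩, ⟨M₂, h₂, e₂⟩⟩
  · rintro z ⟨M₁, M₂, h₁, -, e₁, -⟩
    exact ⟨M₁, h₁, e₁⟩
  · rintro z ⟨M₁, M₂, h₁, h₂, e₁, e₂, e₃⟩ z' ⟨M₁', M₂', h₁', h₂', e₁', e₂', e₃'⟩ e
    refine Prod.ext e ?_
    have k := jL_mul_congr (h₂.mul h₁.cj le_rfl) (h₂'.mul h₁'.cj le_rfl) h₁ h₁' le_rfl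
      (e₃.trans e₃'.symm) (e₁.trans (e.trans e₁'.symm))
    have e1 : ∀ T U : Lt, U * cj T * T = T * cj T * U := fun T U => by ring
    rw [e1, e1, ctc_cancel h₁ h₂, ctc_cancel h₁' h₂', e₂, e₂'] at k
    exact k

theorem tpair_geo {d : Dt} (h : d.Good 0) (hn : d.n = 1) (g1 : d.g₁ = 1) (g2 : d.g₂ = 1) {q : ℕ}
    (hq : 0 < q) {b₀ : ℤ} {C : ℝ} {M₁ M₂ : Lt} {α β : ℂ} {B : ℤ} (h₁ : DiscL M₁ d.E)
    (h₂ : DiscL M₂ d.E) (hm : Hm 1 C d.E d.E M₁ M₂ α β B) (hl : LvP q b₀ d.E M₁ M₂ α β)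
    (hj : jL (M₂ * cj M₁) = jL d.LL) :
    ∃ τ Θ η₁ η₂, d.GZ C (jL M₁, jL M₂) τ Θ η₁ η₂ B ∧ Lvl q b₀ Θ η₁ η₂ := by
  have e1 : (d.g₁ : ℤ) ^ 2 * d.E = d.E := by rw [g1]; simp
  have e2 : (d.g₂ : ℤ) ^ 2 * d.E = d.E := by rw [g2]; simp
  obtain ⟨τ, hτ⟩ := jInv_surj (jL (M₁ * OD d.E))
  obtain ⟨s, c, Θ, η₁, η₂, hs, g⟩ := Dt.geo_ex (C := C) (α := α) (β := β) (B := B) h
    (e1.symm ▸ h₁) (e2.symm ▸ h₂) hj (by rw [e1, e2, hn]; exact hm) hτ
  refine ⟨τ, Θ, η₁, η₂, ⟨M₁, pr s * M₂, s * α, s * β, c, rfl, jL_pr_mul h₂.isLat hs, g⟩,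
    g.lvl h hn g1 g2 hq ?_⟩
  obtain ⟨l1, v, hv, l2, l3, l4⟩ := hl
  refine ⟨l1, v, hv, l2, l3, ?_⟩
  obtain ⟨w, hw, e⟩ := mem_pr_mul.1 l4
  refine mem_pr_mul.2 ⟨s * w, mem_pr_mul.2 ⟨w, hw, rfl⟩, ?_⟩
  simp only [rl] at e ⊢
  linear_combination s * e

theorem tpair_fin {d : Dt} {C : ℝ} (R : M2 → M2 → M2 → ℤ → Prop) :
    {z | ∃ τ Θ η₁ η₂ B, d.GZ C z τ Θ η₁ η₂ B ∧ R Θ η₁ η₂ B}.Finite := by
  refine ((Cl_finite (d.g₁ ^ 2 * d.E)).prod (Cl_finite (d.g₂ ^ 2 * d.E))).subset ?_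
  rintro z ⟨τ, Θ, η₁, η₂, B, ⟨M₁, M₂, α, β, c, e₁, e₂, g⟩, -⟩
  exact ⟨⟨M₁, g.d₁, e₁⟩, ⟨M₂, g.d₂, e₂⟩⟩

/-- Reduction to one class with a large leading coefficient. -/
theorem pair_red {E : ℤ} (hE : IsD E) (p : ℕ) (hp : p.Prime) (q : ℕ) (b₀ : ℤ) (C : ℝ) (Y : ℕ)
    {W : ℝ} (hW : 0 ≤ W)
    (h : ∀ d : Dt, d.Good 0 → d.n = 1 → d.g₁ = 1 → d.g₂ = 1 → d.p = p → d.E = E → |d.b| ≤ d.a →
      d.a ≤ d.c → Y < d.a → ({z | ∃ τ Θ η₁ η₂ B, d.GZ C z τ Θ η₁ η₂ B ∧ B ≠ 0 ∧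
        Lvl q b₀ Θ η₁ η₂}.ncard : ℝ) ≤ W) (hq : 0 < q) :
    ((LevP q b₀ C E).ncard : ℝ) ≤ (Cl E).ncard * (1 + 3 * Y ^ 2 + W) := by
  classical
  obtain ⟨Sm, hSm⟩ : ∃ Sm : Set ℂ, Sm = {w | ∃ a b c : ℤ, 0 < a ∧ |b| ≤ a ∧ a ≤ Y ∧
      b ^ 2 - 4 * a * c = E ∧ jL (sp a ((b - th E) / 2)) = w} ∩ Cl E := ⟨_, rfl⟩
  have hSf : Sm.Finite := hSm ▸ (Cl_finite E).inter_of_right _
  have hSc : Sm.ncard ≤ 3 * Y ^ 2 := by
    refine le_trans ?_ (card_small_red E Y)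
    by_cases hf : {w | ∃ a b c : ℤ, 0 < a ∧ |b| ≤ a ∧ a ≤ Y ∧
      b ^ 2 - 4 * a * c = E ∧ jL (sp a ((b - th E) / 2)) = w}.Finite
    · exact Set.ncard_le_ncard (hSm ▸ Set.inter_subset_left) hf
    · refine absurd (Set.Finite.subset (((Set.finite_Icc (1 : ℤ) Y).prod
        (Set.finite_Icc (-(Y : ℤ)) Y)).image fun x : ℤ × ℤ => jL (sp x.1 ((x.2 - th E) / 2))) ?_) hf
      rintro w ⟨a, b, c, h1, h2, h3, -, h5⟩
      have h6 := abs_le.1 h2
      exact ⟨(a, b), ⟨⟨h1, h3⟩, ⟨by dsimp only; omega, by dsimp only; omega⟩⟩, h5⟩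
  have key : ∀ w ∈ Cl E, ∃ G : Set (ℂ × ℂ), (G.Finite ∧ G.ncard ≤ ⌊W⌋₊) ∧ (w ∈ Sm ∨
      ∀ (M₁ M₂ : Lt) (α β : ℂ) (B : ℤ), DiscL M₁ E → DiscL M₂ E → Hm 1 C E E M₁ M₂ α β B →
        LvP q b₀ E M₁ M₂ α β → B ≠ 0 → jL (M₂ * cj M₁) = w → (jL M₁, jL M₂) ∈ G) := by
    intro w hw
    obtain ⟨a, b, c, h1, h2, h3, h4, h5, h6⟩ := exists_red hw
    rcases le_or_gt a Y with hY | hY
    · exact ⟨∅, ⟨Set.finite_empty, by simp⟩, Or.inl (hSm ▸ ⟨⟨a, b, c, h1, h2, hY, h5, h6⟩, hw⟩)⟩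
    · obtain ⟨d, hd⟩ : ∃ d : Dt, d = ⟨a, b, c, 1, 1, 1, p⟩ := ⟨_, rfl⟩
      have eE : d.E = E := by rw [hd]; exact h5
      have hg : d.Good 0 := by
        refine ⟨hd ▸ h1, eE ▸ hE.1, hd ▸ h4, hd ▸ one_ne_zero, hd ▸ one_pos, hd ▸ one_pos,
          hd ▸ Nat.coprime_one_left 1, hd ▸ hp, ?_⟩
        rw [hd]
        simp [Dt.G]
      have hb := h d hg (hd ▸ rfl) (hd ▸ rfl) (hd ▸ rfl) (hd ▸ rfl) eE (hd ▸ h2) (hd ▸ h3)
        (hd ▸ hY)
      refine ⟨_, ⟨tpair_fin fun Θ η₁ η₂ B => B ≠ 0 ∧ Lvl q b₀ Θ η₁ η₂, Nat.le_floor hb⟩,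
        Or.inr fun M₁ M₂ α β B h₁ h₂ hm hl hB hj => ?_⟩
      rw [← eE] at h₁ h₂ hm hl
      obtain ⟨τ, Θ, η₁, η₂, k1, k2⟩ := tpair_geo hg (hd ▸ rfl) (hd ▸ rfl) (hd ▸ rfl) hq h₁ h₂ hm hl
        (by rw [hj, ← h6, Dt.LL, eE, hd])
      exact ⟨τ, Θ, η₁, η₂, B, k1, hB, k2⟩
  choose! G hG1 hG2 using key
  have u1 := tpair_biUnion hSf _ fun w _ => tpair_fib E w
  have u2 := tpair_biUnion (Cl_finite E) G hG1
  have u0 : ((fun w : ℂ => (w, w)) '' Cl E).Finite := (Cl_finite E).image _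
  have hsub : LevP q b₀ C E ⊆ ((fun w : ℂ => (w, w)) '' Cl E ∪ ⋃ w ∈ Sm,
      {z : ℂ × ℂ | ∃ M₁ M₂, DiscL M₁ E ∧ DiscL M₂ E ∧ jL M₁ = z.1 ∧ jL M₂ = z.2 ∧
        jL (M₂ * cj M₁) = w}) ∪ ⋃ w ∈ Cl E, G w := by
    rintro z ⟨M₁, M₂, α, β, B, h₁, h₂, e₁, e₂, hm, hl⟩
    by_cases hB : B = 0
    · subst hB
      exact Or.inl (Or.inl ⟨jL M₁, ⟨M₁, h₁, rfl⟩,
        Prod.ext e₁ ((tpair_diag h₁ h₂ hm).symm.trans e₂)⟩)
    · have hw : jL (M₂ * cj M₁) ∈ Cl E := ⟨_, h₂.mul h₁.cj le_rfl, rfl⟩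
      rcases hG2 _ hw with k | k
      · exact Or.inl (Or.inr (Set.mem_biUnion k ⟨M₁, M₂, h₁, h₂, e₁, e₂, rfl⟩))
      · refine Or.inr (Set.mem_biUnion hw ?_)
        have := k M₁ M₂ α β B h₁ h₂ hm hl hB rfl
        rwa [e₁, e₂] at this
  have c1 := Set.ncard_le_ncard hsub ((u0.union u1.1).union u2.1)
  have c2 := (c1.trans (Set.ncard_union_le _ _)).trans
    (Nat.add_le_add ((Set.ncard_union_le _ _).trans (Nat.add_le_add
      (Set.ncard_image_le (Cl_finite E)) (u1.2.trans (Nat.mul_le_mul_right _ hSc)))) u2.2)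
  have c3 : ((LevP q b₀ C E).ncard : ℝ) ≤
      (Cl E).ncard + 3 * Y ^ 2 * (Cl E).ncard + (Cl E).ncard * (⌊W⌋₊ : ℝ) := by exact_mod_cast c2
  have c4 := mul_le_mul_of_nonneg_left (Nat.floor_le hW) (Nat.cast_nonneg (α := ℝ) (Cl E).ncard)
  linarith

theorem tpair_mono (q : ℕ) (b₀ : ℤ) {C C' : ℝ} (h : C ≤ C') (E : ℤ) :
    LevP q b₀ C E ⊆ LevP q b₀ C' E := by
  rintro z ⟨M₁, M₂, α, β, B, h₁, h₂, e₁, e₂, hm, hl⟩
  have k := mul_le_mul_of_nonneg_right h (vol_pos h₂.isLat).le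
  exact ⟨M₁, M₂, α, β, B, h₁, h₂, e₁, e₂, ⟨hm.map, hm.inv, hm.deg, hm.le₁.trans k, hm.le₂.trans k⟩,
    hl⟩

theorem tpair_ceil {u : ℝ} (hu : 1 ≤ u) : 2 * u ≤ (⌈2 * u⌉₊ : ℝ) ∧ (⌈2 * u⌉₊ : ℝ) ≤ 3 * u :=
  ⟨Nat.le_ceil _, (Nat.ceil_lt_add_one (by linarith)).le.trans (by linarith)⟩

theorem tpair_num {a x C : ℝ} (ha : 1 ≤ a) (hx : 3 * a ^ 2 ≤ x) (h8 : x ≤ a ^ 8) (hC : 1 ≤ C)
    (hCx : C ≤ x) : ∃ H N : ℕ, 1 ≤ H ∧ H ≤ N ∧ x ≤ (N : ℝ) ^ 4 ∧ (N : ℝ) ≤ x ^ 2 ∧ N ≤ H ^ 16 ∧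
      (N : ℝ) * H ≤ 9 * C * Real.sqrt x ∧ 4 * C * a ≤ (H : ℝ) ^ 2 ∧ 4 * C * x ≤ a * (N : ℝ) ^ 2 := by
  have ha0 : 0 < a := by linarith
  have hx3 : 3 ≤ x := by nlinarith
  have hax : a ≤ x / a := by rw [le_div_iff₀ ha0]; nlinarith
  have h1 : 1 ≤ C * a := one_le_mul_of_one_le_of_one_le hC ha
  have h2 : C * a ≤ C * (x / a) := mul_le_mul_of_nonneg_left hax (by linarith)
  obtain ⟨u, hu⟩ : ∃ u, u = Real.sqrt (C * a) := ⟨_, rfl⟩
  obtain ⟨v, hv⟩ : ∃ v, v = Real.sqrt (C * (x / a)) := ⟨_, rfl⟩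
  have hu1 : 1 ≤ u := hu ▸ Real.one_le_sqrt.2 h1
  have huv : u ≤ v := hu ▸ hv ▸ Real.sqrt_le_sqrt h2
  have hv1 : 1 ≤ v := hu1.trans huv
  have hu2 : u ^ 2 = C * a := hu ▸ Real.sq_sqrt (by linarith)
  have hv2 : v ^ 2 = C * (x / a) := hv ▸ Real.sq_sqrt (by linarith)
  have hv3 : a * v ^ 2 = C * x := by rw [hv2]; field_simp
  have hm : v * u = C * Real.sqrt x := by
    have hs := Real.sq_sqrt (show 0 ≤ x by linarith)
    refine (pow_left_inj₀ (by positivity) (by positivity) two_ne_zero).1 ?_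
    rw [mul_pow, mul_pow, hs, hu2]
    linear_combination C * hv3
  obtain ⟨a1, a2⟩ := tpair_ceil hu1
  obtain ⟨b1, b2⟩ := tpair_ceil hv1
  have hle : ⌈2 * u⌉₊ ≤ ⌈2 * v⌉₊ := Nat.ceil_mono (by linarith)
  generalize ⌈2 * u⌉₊ = H at a1 a2 hle
  generalize ⌈2 * v⌉₊ = N at b1 b2 hle
  have a3 : 4 * C * a ≤ (H : ℝ) ^ 2 := by
    have := pow_le_pow_left₀ (by linarith) a1 2
    linarith [show (2 * u) ^ 2 = 4 * u ^ 2 by ring]
  have b3 : 4 * v ^ 2 ≤ (N : ℝ) ^ 2 := by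
    have := pow_le_pow_left₀ (by linarith) b1 2
    linarith [show (2 * v) ^ 2 = 4 * v ^ 2 by ring]
  have b4 : v ^ 2 ≤ C * x := hv3 ▸ le_mul_of_one_le_left (sq_nonneg v) ha
  refine ⟨H, N, by exact_mod_cast (show (1 : ℝ) ≤ H by linarith), hle, ?_, ?_, ?_, ?_, a3, ?_⟩
  · have k1 : x / a ≤ (N : ℝ) ^ 2 := by
      have : x / a ≤ C * (x / a) := le_mul_of_one_le_left (by positivity) hC
      linarith [sq_nonneg v]
    calc x = a * (x / a) := by field_simp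
      _ ≤ (x / a) * (x / a) := mul_le_mul_of_nonneg_right hax (by positivity)
      _ ≤ (N : ℝ) ^ 2 * (N : ℝ) ^ 2 := mul_le_mul k1 k1 (by positivity) (by positivity)
      _ = _ := by ring
  · have k1 : v ≤ x := by
      refine (pow_le_pow_iff_left₀ (by linarith) (by linarith) two_ne_zero).1 (b4.trans ?_)
      rw [sq]
      exact mul_le_mul_of_nonneg_right hCx (by linarith)
    have k2 := mul_le_mul_of_nonneg_right hx3 (show 0 ≤ x by linarith)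
    rw [sq]
    linarith
  · have k1 : (N : ℝ) ≤ (H : ℝ) ^ 16 := by
      have k2 : C ≤ C ^ 8 := le_self_pow₀ hC (by norm_num)
      calc (N : ℝ) ≤ 3 * (C * x) := by linarith [le_self_pow₀ hv1 two_ne_zero]
        _ ≤ 4 ^ 8 * (C ^ 8 * a ^ 8) := by
            have := mul_le_mul k2 h8 (by linarith) (by positivity)
            have k3 : 0 ≤ C ^ 8 * a ^ 8 := by positivity
            linarith
        _ = (4 * C * a) ^ 8 := by ring
        _ ≤ ((H : ℝ) ^ 2) ^ 8 := pow_le_pow_left₀ (by positivity) a3 8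
        _ = _ := by ring
    exact_mod_cast k1
  · calc (N : ℝ) * H ≤ (3 * v) * (3 * u) := mul_le_mul b2 a2 (by positivity) (by positivity)
      _ = _ := by linear_combination 9 * hm
  · linarith [mul_le_mul_of_nonneg_left b3 ha0.le]

theorem tpair_boxfin {d : Dt} (ha : 0 < d.a) (H N : ℕ) :
    {z : ℤ × ℤ | d.Box H N z.1 z.2}.Finite := by
  refine ((Set.finite_Icc (-(d.a * N + |d.b| * H)) (d.a * N + |d.b| * H)).prod
    (Set.finite_Icc (-(H : ℤ)) H)).subset fun z hz => ⟨abs_le.1 ?_, abs_le.1 hz.y⟩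
  have h1 := hz.x
  have h2 : |d.b * z.2| ≤ |d.b| * H := by
    rw [abs_mul]
    exact mul_le_mul_of_nonneg_left hz.y (abs_nonneg _)
  have h3 : |2 * d.a * z.1| ≤ |d.x₁ z.1 z.2| + |d.b * z.2| := by
    rw [show 2 * d.a * z.1 = d.x₁ z.1 z.2 - d.b * z.2 by simp [Dt.x₁]]
    exact abs_sub _ _
  rw [abs_mul, abs_of_pos (by linarith : 0 < 2 * d.a)] at h3
  nlinarith [abs_nonneg z.1]

theorem tpair_main {E : ℤ} (hE : IsD E) {p : ℕ} (hp : p.Prime) {q : ℕ} (hq : 0 < q) (b₀ : ℤ)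
    {C s ρ : ℝ} (hC : 1 ≤ C) (hCx : C ≤ -(E : ℝ)) (hs : 0 ≤ s) (h8 : s ^ 8 = -(E : ℝ))
    (hρ : 0 ≤ ρ)
    (h : ∀ d : Dt, d.Good 0 → d.n = 1 → d.G = 1 → d.p = p → d.E = E → ∀ H N : ℕ, d.Sz H N →
      -(E : ℝ) ≤ (N : ℝ) ^ 4 → N ≤ H ^ 16 → ∃ W : ℤ → ℤ → ℝ,
      (∀ X Y, d.B X Y ≠ 0 → Few Geq (d.CS X Y (Lvl q b₀)) (W X Y)) ∧ ∀ Z : Finset (ℤ × ℤ),
        (∀ z ∈ Z, d.Box H N z.1 z.2 ∧ d.LevC q b₀ z.1 z.2) →
        ∑ z ∈ Z, W z.1 z.2 ≤ ρ * N * H * EE E E.natAbs) :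
    ((LevP q b₀ C E).ncard : ℝ) ≤ (Cl E).ncard * (1 + 3 * s ^ 2 + 9 * ρ * C * HH E) := by
  have hH := tti_HH_nonneg E
  have hx := tti_three hE
  have hab := tti_abs hE.1
  refine (pair_red hE p hp q b₀ C ⌊s⌋₊ (W := 9 * ρ * C * HH E) (by positivity) ?_ hq).trans ?_
  · intro d hg hn g1 g2 hdp hdE hb hc hY
    have hG : d.G = 1 := by rw [Dt.G, g1, g2]
    have ha : (1 : ℝ) ≤ d.a := by exact_mod_cast hg.a_pos
    have h3 : 3 * (d.a : ℝ) ^ 2 ≤ -(E : ℝ) := by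
      have k1 : d.b ^ 2 ≤ d.a ^ 2 := sq_le_sq' (abs_le.1 hb).1 (abs_le.1 hb).2
      have k2 : 3 * d.a ^ 2 ≤ -E := by
        rw [← hdE, Dt.E]
        nlinarith [mul_le_mul_of_nonneg_left hc hg.a_pos.le]
      exact_mod_cast k2
    have hsa : s ≤ d.a := by
      have k1 : ((⌊s⌋₊ : ℤ) : ℝ) + 1 ≤ d.a := by exact_mod_cast hY
      have k2 := Nat.lt_floor_add_one s
      push_cast at k1
      linarith
    obtain ⟨H, N, n1, n2, n3, n4, n5, n6, n7, n8⟩ := tpair_num ha h3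
      (h8 ▸ pow_le_pow_left₀ hs hsa 8) hC hCx
    have hN1 : 1 ≤ N := n1.trans n2
    have hSz : d.Sz H N := by
      refine ⟨n1, n2.trans (Nat.le_self_pow two_ne_zero N), ?_, ?_, ?_⟩
      · have k1 : (d.a : ℝ) ≤ (H : ℝ) ^ 2 := by
          linarith [mul_le_mul_of_nonneg_right hC (show (0 : ℝ) ≤ d.a by linarith)]
        rw [Dt.m, hn, hG, Nat.cast_one, mul_one, one_mul, abs_of_pos hg.a_pos]
        exact_mod_cast k1
      · rw [hG, hdE, Nat.cast_one, one_pow, one_mul]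
        have k1 : E.natAbs ≤ N ^ 4 := by
          rw [← hab] at n3
          exact_mod_cast n3
        exact k1.trans (Nat.pow_le_pow_right hN1 (by norm_num))
      · rw [hG, hdE, Nat.cast_one, one_pow, one_mul]
        rw [← hab] at n4
        exact_mod_cast n4
    obtain ⟨W, hW1, hW2⟩ := h d hg hn hG hdp hdE H N hSz n3 n5
    have hZ : {z : ℤ × ℤ | d.Box H N z.1 z.2 ∧ d.LevC q b₀ z.1 z.2}.Finite :=
      (tpair_boxfin hg.a_pos H N).subset fun z hz => hz.1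
    have k1 := Dt.geo_sum (C := C) hg {z | ∃ τ Θ η₁ η₂ B, d.GZ C z τ Θ η₁ η₂ B ∧ B ≠ 0 ∧
      Lvl q b₀ Θ η₁ η₂} hZ.toFinset (Lvl q b₀) W ?_
      fun x hx => hW1 _ _ (hZ.mem_toFinset.1 hx).1.ne
    · have k2 := hW2 hZ.toFinset fun z hz => hZ.mem_toFinset.1 hz
      rw [hn] at k1
      simp only [Int.natAbs_one, Nat.cast_one, one_pow, one_mul] at k1
      refine k1.trans (k2.trans ?_)
      have k3 := mul_le_mul_of_nonneg_left n6 (mul_nonneg hρ (EE_pos E E.natAbs).le)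
      rw [HH]
      linarith
    · rintro z ⟨τ, Θ, η₁, η₂, B, gz, hB, hl⟩
      obtain ⟨b1, b2, b3, b4⟩ := gz.box hg hC hB (H := H) (N := N)
        (by rw [hG]; simpa using n7) (by rw [hG, hdE]; simpa using n8)
      refine ⟨τ, Θ, η₁, η₂, B, gz, hZ.mem_toFinset.2 ⟨⟨b1, b2, b3, b4⟩, ?_⟩, hl⟩
      obtain ⟨M₁, M₂, α, β, c, -, -, g⟩ := gz
      exact Dt.levC_of_lvl hg hq (P := (Θ, η₁)) ⟨η₂, (g.cf hg).1, g.tg hg, hl⟩
  · refine mul_le_mul_of_nonneg_left ?_ (Nat.cast_nonneg _)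
    have k1 := pow_le_pow_left₀ (Nat.cast_nonneg _) (Nat.floor_le hs) 2
    linarith

theorem tpair_log (A : ℕ) (M : ℝ) : ∃ Y : ℝ, ∀ x s : ℝ, Y ≤ x → 0 ≤ s → s ^ 8 = x →
    M * Real.log x ^ A ≤ s := by
  have h0 : 0 < |M| * 8 ^ A + 1 := by positivity
  obtain ⟨S, hS⟩ := Filter.eventually_atTop.1
    ((Real.isLittleO_pow_log_id_atTop (n := A)).bound (inv_pos.2 h0))
  refine ⟨max S 0 ^ 8, fun x s hx hs h8 => ?_⟩
  have h1 : S ≤ s := (le_max_left _ _).trans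
    ((pow_le_pow_iff_left₀ (le_max_right _ _) hs (by norm_num)).1 (h8 ▸ hx))
  have h2 := hS s h1
  rw [id, Real.norm_of_nonneg hs, Real.norm_eq_abs, inv_mul_eq_div, le_div_iff₀ h0] at h2
  rw [← h8, Real.log_pow, mul_pow]
  have h3 : M * (((8 : ℕ) : ℝ) ^ A * Real.log s ^ A) ≤ |M| * 8 ^ A * |Real.log s ^ A| := by
    refine (le_abs_self _).trans (le_of_eq ?_)
    rw [abs_mul, abs_mul, abs_of_nonneg (by positivity : (0 : ℝ) ≤ ((8 : ℕ) : ℝ) ^ A), mul_assoc]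
    norm_num
  nlinarith [abs_nonneg (Real.log s ^ A)]

theorem tpair_root {x : ℝ} (hx : 1 ≤ x) : ∃ s : ℝ, 1 ≤ s ∧ s ^ 8 = x :=
  ⟨x ^ ((8 : ℕ) : ℝ)⁻¹, Real.one_le_rpow hx (by positivity),
    Real.rpow_inv_natCast_pow (by linarith) (by norm_num)⟩

theorem tpair_end : ∃ K L : ℝ, 0 < K ∧ 0 < L ∧ ∀ (E : ℤ) (s ρ C C₂ : ℝ), IsD E → 1 ≤ s →
    s ^ 8 = -(E : ℝ) → 0 ≤ ρ → 1 ≤ C → 0 ≤ C₂ → L * Real.log (-(E : ℝ)) ≤ ρ * s →
    ((Cl E).ncard : ℝ) * (1 + 3 * s ^ 2 + 9 * (C₂ * ρ) * C * HH E) ≤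
      K * (1 + 9 * C₂) * C * ρ * HH E ^ 2 := by
  obtain ⟨K, hK, H1⟩ := Cl_le
  obtain ⟨L, hL, H2⟩ := EE_log
  refine ⟨K, 4 * L, hK, by positivity, fun E s ρ C C₂ hE hs h8 hρ hC hC₂ hl => ?_⟩
  have hx := tti_three hE
  have hab := tti_abs hE.1
  have hH := tti_HH_nonneg E
  have b1 : 2 ≤ E.natAbs := by
    have : ((2 : ℕ) : ℝ) ≤ E.natAbs := by rw [hab]; push_cast; linarith
    exact_mod_cast this
  have h2 := (H2 E _ b1).2
  rw [hab] at h2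
  have hE0 := EE_pos E E.natAbs
  have e : HH E = s ^ 4 * EE E E.natAbs := by
    rw [HH, ← h8, show s ^ 8 = (s ^ 4) ^ 2 by ring, Real.sqrt_sq (by positivity)]
  have k1 : 4 ≤ ρ * s * EE E E.natAbs := by linarith [mul_le_mul_of_nonneg_right hl hE0.le]
  have k2 : 1 + 3 * s ^ 2 ≤ C * ρ * HH E := by
    have k3 : 1 ≤ s ^ 2 := one_le_pow₀ hs
    have k4 : s ^ 2 ≤ s ^ 3 := pow_le_pow_right₀ hs (by norm_num)
    calc 1 + 3 * s ^ 2 ≤ s ^ 3 * 4 := by linarith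
      _ ≤ s ^ 3 * (ρ * s * EE E E.natAbs) := mul_le_mul_of_nonneg_left k1 (by positivity)
      _ = 1 * (ρ * HH E) := by rw [e]; ring
      _ ≤ C * (ρ * HH E) := mul_le_mul_of_nonneg_right hC (by positivity)
      _ = _ := by ring
  calc _ ≤ (K * HH E) * (C * ρ * HH E + 9 * (C₂ * ρ) * C * HH E) :=
        mul_le_mul (H1 E hE) (by linarith) (by positivity) (by positivity)
    _ = _ := by ring

theorem pair_two {p : ℕ} (hp : p.Prime) (h2 : p ≠ 2) (C : ℝ) : ∃ K : ℝ, 0 < K ∧ ∀ k : ℕ,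
    ∃ Y : ℝ, ∀ E b₀ : ℤ, IsD E → jacobiSym E p = 1 → Y ≤ -(E : ℝ) →
      ((LevP (p ^ k) b₀ C E).ncard : ℝ) ≤ K / (p : ℝ) ^ k * HH E ^ 2 := by
  obtain ⟨C', hC1, hC'⟩ : ∃ C' : ℝ, 1 ≤ C' ∧ C ≤ C' := ⟨max C 1, le_max_right _ _, le_max_left _ _⟩
  obtain ⟨K, L, hK, hL, H1⟩ := tpair_end
  obtain ⟨C₂, hC₂, H2⟩ := Dt.cnt_two p h2
  refine ⟨K * (1 + 9 * C₂) * C', by positivity, fun k => ?_⟩
  obtain ⟨N₀, H3⟩ := H2 k
  obtain ⟨Y, H4⟩ := tpair_log 1 (L * (p : ℝ) ^ k)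
  refine ⟨max Y (max C' (N₀ ^ 4)), fun E b₀ hE hJ hY => ?_⟩
  have hx := tti_three hE
  obtain ⟨s, hs, h8⟩ := tpair_root (show 1 ≤ -(E : ℝ) by linarith)
  have hpk : (0 : ℝ) < (p : ℝ) ^ k := pow_pos (by exact_mod_cast hp.pos) k
  have k0 : ((LevP (p ^ k) b₀ C E).ncard : ℝ) ≤ (LevP (p ^ k) b₀ C' E).ncard := by
    exact_mod_cast Set.ncard_le_ncard (tpair_mono _ _ hC' E) (LevP_finite _ _ _ _)
  have k1 := tpair_main hE hp (pow_pos hp.pos k) b₀ hC1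
    ((le_max_left _ _).trans ((le_max_right _ _).trans hY)) (by linarith) h8
    (ρ := C₂ * ((p : ℝ) ^ k)⁻¹) (by positivity) ?_
  · have k2 := H4 _ s ((le_max_left _ _).trans hY) (by linarith) h8
    refine k0.trans (k1.trans ((H1 E s _ C' C₂ hE hs h8 (by positivity) hC1 hC₂.le ?_).trans
      (le_of_eq ?_)))
    · rw [inv_mul_eq_div, le_div_iff₀ hpk]
      linarith
    · rw [div_eq_mul_inv]
  · intro d hg hn hG hdp hdE H N hSz n3 n5
    subst hdp hdE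
    have hN : N₀ ≤ N := by
      have k2 : (N₀ : ℝ) ^ 4 ≤ (N : ℝ) ^ 4 :=
        ((le_max_right _ _).trans ((le_max_right _ _).trans hY)).trans n3
      exact_mod_cast (pow_le_pow_iff_left₀ (by positivity) (by positivity) (by norm_num)).1 k2
    have hpE : ¬ (d.p : ℤ) ∣ d.E := fun hd => by
      have := Fact.mk hp
      rw [← jacobiSym.legendreSym.to_jacobiSym, (legendreSym.eq_zero_iff d.p d.E).2
        ((ZMod.intCast_zmod_eq_zero_iff_dvd _ _).2 hd)] at hJ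
      exact zero_ne_one hJ
    refine ⟨_, fun X Y hB => Dt.few_lev hg h2 hJ k b₀ hB, fun Z hZ => ?_⟩
    rw [← div_eq_mul_inv]
    exact H3 d hg hn hG rfl hpE H N hSz hN n5 Z fun z hz => (hZ z hz).1

theorem pair_three (A : ℕ) : ∃ K Y : ℝ, 0 < K ∧ ∀ (E b₀ : ℤ) (q : ℕ) (C : ℝ), IsD E →
    Y ≤ -(E : ℝ) → 1 ≤ C → C ≤ Real.log (-(E : ℝ)) ^ A → 0 < q →
    (q : ℝ) ≤ Real.log (-(E : ℝ)) ^ A →
      ((LevP q b₀ C E).ncard : ℝ) ≤ K * C * (q : ℝ) ^ (-(3 / 5 : ℝ)) * HH E ^ 2 := by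
  obtain ⟨K, L, hK, hL, H1⟩ := tpair_end
  obtain ⟨C₂, N₀, hC₂, H3⟩ := Dt.cnt_three
  obtain ⟨Y₁, H4⟩ := tpair_log (A + 1) L
  obtain ⟨Y₂, H5⟩ := tpair_log (A * 800) 1
  obtain ⟨Y₃, H6⟩ := tpair_log A 1
  refine ⟨K * (1 + 9 * C₂), max (max Y₁ Y₂) (max Y₃ (N₀ ^ 4)), by positivity,
    fun E b₀ q C hE hY hC hCA hq hqA => ?_⟩
  have hx := tti_three hE
  obtain ⟨s, hs, h8⟩ := tpair_root (show 1 ≤ -(E : ℝ) by linarith)
  have hs8 : s ≤ -(E : ℝ) := h8 ▸ le_self_pow₀ hs (by norm_num)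
  have k4 := H4 _ s ((le_max_left _ _).trans ((le_max_left _ _).trans hY)) (by linarith) h8
  have k5 := H5 _ s ((le_max_right _ _).trans ((le_max_left _ _).trans hY)) (by linarith) h8
  have k6 := H6 _ s ((le_max_left _ _).trans ((le_max_right _ _).trans hY)) (by linarith) h8
  have hq1 : (1 : ℝ) ≤ q := by exact_mod_cast hq
  have hρ : 0 < (q : ℝ) ^ (-(3 / 5 : ℝ)) := Real.rpow_pos_of_pos (by linarith) _
  have k1 := tpair_main hE Nat.prime_two hq b₀ hC (by linarith) (by linarith) h8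
    (ρ := C₂ * (q : ℝ) ^ (-(3 / 5 : ℝ))) (by positivity) ?_
  · refine k1.trans (H1 E s _ C C₂ hE hs h8 hρ.le hC hC₂.le ?_)
    have k2 : 1 ≤ (q : ℝ) ^ (-(3 / 5 : ℝ)) * q := by
      rw [← Real.rpow_add_one (by linarith)]
      exact Real.one_le_rpow hq1 (by norm_num)
    have k3 : 0 ≤ L * Real.log (-(E : ℝ)) := mul_nonneg hL.le (Real.log_nonneg (by linarith))
    calc L * Real.log (-(E : ℝ)) ≤ ((q : ℝ) ^ (-(3 / 5 : ℝ)) * q) * (L * Real.log (-(E : ℝ))) :=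
          le_mul_of_one_le_left k3 k2
      _ ≤ ((q : ℝ) ^ (-(3 / 5 : ℝ)) * Real.log (-(E : ℝ)) ^ A) * (L * Real.log (-(E : ℝ))) :=
          mul_le_mul_of_nonneg_right (mul_le_mul_of_nonneg_left hqA hρ.le) k3
      _ = (q : ℝ) ^ (-(3 / 5 : ℝ)) * (L * Real.log (-(E : ℝ)) ^ (A + 1)) := by ring
      _ ≤ _ := mul_le_mul_of_nonneg_left k4 hρ.le
  · intro d hg hn hG hdp hdE H N hSz n3 n5
    subst hdE
    have hN : N₀ ≤ N := by
      have k2 : (N₀ : ℝ) ^ 4 ≤ (N : ℝ) ^ 4 :=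
        ((le_max_right _ _).trans ((le_max_right _ _).trans hY)).trans n3
      exact_mod_cast (pow_le_pow_iff_left₀ (by positivity) (by positivity) (by norm_num)).1 k2
    have hqN : q ^ 200 ≤ N := by
      have k2 : ((q : ℝ) ^ 200) ^ 4 ≤ (N : ℝ) ^ 4 := by
        calc ((q : ℝ) ^ 200) ^ 4 = (q : ℝ) ^ 800 := by rw [← pow_mul]
          _ ≤ (Real.log (-(d.E : ℝ)) ^ A) ^ 800 := pow_le_pow_left₀ (by linarith) hqA 800
          _ = 1 * Real.log (-(d.E : ℝ)) ^ (A * 800) := by rw [← pow_mul, one_mul]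
          _ ≤ _ := k5.trans (hs8.trans n3)
      exact_mod_cast (pow_le_pow_iff_left₀ (by positivity) (by positivity) (by norm_num)).1 k2
    exact ⟨d.WW, fun X Y hB => (Dt.few_WW hg hB).mono
      (fun P ⟨η₂, a, b, _⟩ => ⟨η₂, a, b, trivial⟩) le_rfl,
      fun Z hZ => H3 d hg hn hG hdp H N hSz hN n5 q b₀ hq hqN Z hZ⟩

end Pool.Agent.EQ
end
end

-- part Pool.Agent.P.MP_ad7a55_nt.UEl
section

/-! Classification of joinings of the rank two action. -/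

set_option autoImplicit false

noncomputable section

open MeasureTheory Topology Filter UpperHalfPlane
open scoped MatrixGroups ENNReal BoundedContinuousFunction

namespace Pool.Agent.EQ

variable (p : ℕ) [Fact p.Prime]

/-- Pairs related by an almost triangular correspondence. -/
def On (q : ℕ) (δ : ℚ) (R : ℝ) (m : ℕ) : Set (XX p × XX p) :=
  {w | ∃ P ∈ HomS p q δ w.1 w.2, (∀ i j, |P.1 i j| < R) ∧ Bd R P.2 ∧
    ‖P.2 1 0‖ ≤ (p : ℝ) ^ (-(m : ℤ))}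

def NP : Set (XX p × XX p) :=
  {w | ∃ q : ℕ, 0 < q ∧ ∃ δ : ℚ, δ ≠ 0 ∧ ∃ R : ℕ, 0 < R ∧ ∀ m, w ∈ On p q δ R m}

theorem isOpen_On (q : ℕ) (δ : ℚ) {R : ℝ} (hR : 0 < R) (m : ℕ) : IsOpen (On p q δ R m) := by
  rw [isOpen_iff_mem_nhds]
  rintro ⟨x, y⟩ ⟨P, hP, h1, h2, h3⟩
  have hv : Continuous fun g : SL(2, ℝ) => (g : Matrix (Fin 2) (Fin 2) ℝ) :=
    continuous_subtype_val
  have hv' : Continuous fun g : SL(2, ℚ_[p]) => (g : Matrix (Fin 2) (Fin 2) ℚ_[p]) :=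
    continuous_subtype_val
  have hc : Continuous fun z : GG p × GG p => (z.2.1 : Matrix (Fin 2) (Fin 2) ℝ) * P.1 *
      ((z.1.1⁻¹ : SL(2, ℝ)) : Matrix (Fin 2) (Fin 2) ℝ) :=
    ((hv.comp continuous_snd.fst).mul continuous_const).mul (hv.comp continuous_fst.fst.inv)
  have hc' : Continuous fun z : GG p × GG p => (z.2.2 : Matrix (Fin 2) (Fin 2) ℚ_[p]) * P.2 *
      ((z.1.2⁻¹ : SL(2, ℚ_[p])) : Matrix (Fin 2) (Fin 2) ℚ_[p]) :=
    ((hv'.comp continuous_snd.snd).mul continuous_const).mul (hv'.comp continuous_fst.snd.inv)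
  have e1 : ∀ᶠ z : GG p × GG p in 𝓝 (1, 1), ∀ i j, |((z.2.1 : Matrix (Fin 2) (Fin 2) ℝ) * P.1 *
      ((z.1.1⁻¹ : SL(2, ℝ)) : Matrix (Fin 2) (Fin 2) ℝ)) i j| < R := by
    refine eventually_all.2 fun i => eventually_all.2 fun j => ?_
    refine (hc.matrix_elem i j).abs.continuousAt.eventually_lt continuousAt_const ?_
    simpa using h1 i j
  have e2 : ∀ (i j : Fin 2) (r : ℝ), 0 < r → ‖P.2 i j‖ ≤ r →
      ∀ᶠ z : GG p × GG p in 𝓝 (1, 1), ‖((z.2.2 : Matrix (Fin 2) (Fin 2) ℚ_[p]) * P.2 *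
        ((z.1.2⁻¹ : SL(2, ℚ_[p])) : Matrix (Fin 2) (Fin 2) ℚ_[p])) i j‖ ≤ r := by
    intro i j r hr h
    have h4 := ((IsUltrametricDist.isOpen_closedBall (0 : ℚ_[p]) hr.ne').preimage
      (hc'.matrix_elem i j)).mem_nhds (x := (1, 1)) (by simpa using h)
    exact Filter.mem_of_superset h4 fun z hz => mem_closedBall_zero_iff.1 hz
  have hp : (0 : ℝ) < p := Nat.cast_pos.2 (Fact.out : p.Prime).pos
  have e := e1.and ((eventually_all.2 fun i => eventually_all.2 fun j =>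
    e2 i j R hR (h2 i j)).and (e2 1 0 _ (zpow_pos hp _) h3))
  obtain ⟨V, hV, W, hW, hVW⟩ := mem_nhds_prod_iff.1 e
  refine mem_of_superset (prod_mem_nhds (exists_nhds_smul p x hV) (exists_nhds_smul p y hW)) ?_
  rintro ⟨_, _⟩ ⟨⟨a, ha, rfl⟩, ⟨b, hb, rfl⟩⟩
  obtain ⟨k1, k2, k3⟩ := hVW (show (a, b) ∈ V ×ˢ W from ⟨ha, hb⟩)
  exact ⟨_, HomS.smul hP a b, k1, k2, k3⟩

theorem measurableSet_NP : MeasurableSet (NP p) := by
  have e : NP p = ⋃ q : ℕ, ⋃ _ : 0 < q, ⋃ δ : ℚ, ⋃ _ : δ ≠ 0, ⋃ R : ℕ, ⋃ _ : 0 < R,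
      ⋂ m, On p q δ R m := by
    ext w
    simp only [NP, Set.mem_ofPred_eq, Set.mem_iUnion, Set.mem_iInter, exists_prop]
  rw [e]
  exact MeasurableSet.iUnion fun q => MeasurableSet.iUnion fun _ => MeasurableSet.iUnion fun δ =>
    MeasurableSet.iUnion fun _ => MeasurableSet.iUnion fun R => MeasurableSet.iUnion fun hR =>
      MeasurableSet.iInter fun m => (isOpen_On p q δ (Nat.cast_pos.2 hR) m).measurableSet

theorem NN_subset (d₁ d₂ : ℚ_[p]) : NN p d₁ d₂ ⊆ NP p := by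
  rintro w ⟨q, hq, δ, hδ, P, hP, h1, -⟩
  obtain ⟨R, hR⟩ := exists_nat_gt (∑ z : Fin 2 × Fin 2, (|P.1 z.1 z.2| + ‖P.2 z.1 z.2‖))
  have h2 : ∀ i j, |P.1 i j| + ‖P.2 i j‖ < R := fun i j =>
    (Finset.single_le_sum (f := fun z : Fin 2 × Fin 2 => |P.1 z.1 z.2| + ‖P.2 z.1 z.2‖)
      (fun z _ => by positivity) (Finset.mem_univ (i, j))).trans_lt hR
  have h3 : (0 : ℝ) < R := lt_of_le_of_lt (by positivity) (h2 0 0)
  refine ⟨q, hq, δ, hδ, R, Nat.cast_pos.1 h3, fun m => ⟨P, hP, fun i j => ?_, fun i j => ?_, ?_⟩⟩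
  · linarith [h2 i j, norm_nonneg (P.2 i j)]
  · linarith [h2 i j, abs_nonneg (P.1 i j)]
  · rw [h1, norm_zero]
    positivity

variable {p}

theorem ext_mP {κ : Type} [Fintype κ] [DecidableEq κ] {d : κ → ℚ_[p]} (hd : ∀ k, d k ≠ 0)
    (μ : Measure (κ → XX p)) (h : μ ≤ mP p κ) (hi : Inv (ufl p d) μ) :
    μ = μ Set.univ • mP p κ := by
  have : IsFiniteMeasure μ := isFiniteMeasure_of_le _ h
  exact eq_of_all_free fun k => free_of_P fun g =>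
    mautner_U p _ (mprop_Stab (mP p κ) μ (mP_inv p) h) d hd (fun s => hi s) k g

theorem prod_of_line {κ : Type} [Fintype κ] [DecidableEq κ] (d : κ → ℚ_[p])
    [DecidablePred fun k => d k = 0] (ρ : Measure (κ → XX p)) [IsProbabilityMeasure ρ]
    (hi : Inv (ufl p d) ρ) (hm : ∀ k, ρ.map (fun w => w k) = mX p)
    (hN : ∀ k l, k ≠ l → ρ {w | (w k, w l) ∈ NP p} = 0)
    (hr : ρ.map (fun w (k : {k // d k = 0}) => w k) = mP p {k // d k = 0}) : ρ = mP p κ := by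
  let rA : (κ → XX p) → ({k // ¬ d k = 0} → XX p) := fun w k => w k
  let rB : (κ → XX p) → ({k // d k = 0} → XX p) := fun w k => w k
  have hA : Measurable rA := measurable_pi_lambda _ fun j => measurable_pi_apply j.1
  have hB : Measurable rB := measurable_pi_lambda _ fun j => measurable_pi_apply j.1
  have h1 : ∀ s, Measurable (ufl p (fun i : {k // ¬ d k = 0} => d i.1) s) := fun s =>
    ((ufl p _).continuous continuous_const continuous_id).measurable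
  have h2 : ∀ s, Measurable (ufl p d s) := fun s =>
    ((ufl p d).continuous continuous_const continuous_id).measurable
  have hinv : ∀ C, MeasurableSet C →
      Inv (ufl p fun i : {k // ¬ d k = 0} => d i.1) ((ρ.restrict (rB ⁻¹' C)).map rA) := by
    intro C hC s
    have h3 : ufl p (fun i : {k // ¬ d k = 0} => d i.1) s ∘ rA = rA ∘ ufl p d s := rfl
    have h4 : ufl p d s ⁻¹' (rB ⁻¹' C) = rB ⁻¹' C := by
      ext w
      have h5 : rB (ufl p d s w) = rB w := by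
        funext k
        simp [rB, ufl_apply, k.2]
      simp only [Set.mem_preimage, h5]
    rw [Measure.map_map (h1 s) hA, h3, ← Measure.map_map hA (h2 s)]
    conv_lhs => rw [← h4, ← Measure.restrict_map (h2 s) (hB hC), hi s]
  have hP : IsProbabilityMeasure (ρ.map rA) := Measure.isProbabilityMeasure_map hA.aemeasurable
  have hj : ρ.map rA = mP p {k // ¬ d k = 0} := by
    refine join p _ (fun i => d i.1) (fun i => i.2) _ ?_ (fun i => ?_) fun a b hab => ?_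
    · simpa using hinv Set.univ MeasurableSet.univ
    · rw [Measure.map_map (measurable_pi_apply i) hA]
      exact hm i.1
    · have h7 : MeasurableSet {w : {k // ¬ d k = 0} → XX p |
          (w a, w b) ∈ NN p (d a.1) (d b.1)} :=
        ((measurable_pi_apply a).prodMk (measurable_pi_apply b)) (join_measurableSet_NN p _ _)
      rw [Measure.map_apply hA h7]
      exact measure_mono_null (fun w hw => NN_subset p _ _ hw)
        (hN a.1 b.1 fun h => hab (Subtype.ext h))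
  refine (Measure.pi_eq fun s hs => ?_).symm
  have hC : MeasurableSet (Set.pi Set.univ fun j : {k // d k = 0} => s j.1) :=
    MeasurableSet.univ_pi fun j => hs j.1
  have hD : MeasurableSet (Set.pi Set.univ fun j : {k // ¬ d k = 0} => s j.1) :=
    MeasurableSet.univ_pi fun j => hs j.1
  have h5 := ext_mP (d := fun i : {k // ¬ d k = 0} => d i.1) (fun i => i.2) _
    (hj ▸ Measure.map_mono Measure.restrict_le_self hA) (hinv _ hC)
  have h6 := congrArg (fun μ : Measure ({k // ¬ d k = 0} → XX p) =>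
    μ (Set.pi Set.univ fun j => s j.1)) h5
  simp only [Measure.smul_apply, smul_eq_mul] at h6
  rw [Measure.map_apply hA hD, Measure.restrict_apply (hA hD),
    Measure.map_apply hA MeasurableSet.univ, Set.preimage_univ, Measure.restrict_apply_univ,
    ← Measure.map_apply hB hC, hr, mP, mP, Measure.pi_pi, Measure.pi_pi,
    Fintype.prod_subtype_mul_prod_subtype (fun k => d k = 0) (fun j => mX p (s j))] at h6
  rw [← h6]
  refine congrArg _ (Set.ext fun w => ?_)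
  simp only [Set.mem_pi, Set.mem_univ, true_imp_iff, Set.mem_inter_iff, Set.mem_preimage]
  refine ⟨fun hw => ⟨fun j => hw j.1, fun j => hw j.1⟩, fun hw j => ?_⟩
  by_cases hj : d j = 0
  · exact hw.2 ⟨j, hj⟩
  · exact hw.1 ⟨j, hj⟩

theorem uel_aux {q : ℕ} [Fact q.Prime] {M : ℕ} (n : ℕ) : ∀ (κ : Type) [Fintype κ],
    Fintype.card κ ≤ n → ∀ {h : κ → SL(2, ℚ_[q])} {ν : Measure (κ → X3 p q)}, Jn p q M h ν →
    (∀ k l, k ≠ l → ν {w | (pi3 p q (w k), pi3 p q (w l)) ∈ NP p} = 0) →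
    ν.map (piP p q) = mP p κ := by
  classical
  have hpi : ∀ κ : Type, Measurable (piP p q (κ := κ)) := fun κ =>
    measurable_pi_lambda _ fun k =>
      (continuous_pi3 p q).measurable.comp (measurable_pi_apply k)
  have hemp : ∀ (κ : Type) [Fintype κ] [IsEmpty κ] (ν : Measure (κ → X3 p q))
      [IsProbabilityMeasure ν], ν.map (piP p q) = mP p κ := by
    intro κ _ _ ν _
    have := Measure.isProbabilityMeasure_map (μ := ν) (hpi κ).aemeasurable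
    exact join_small p _ fun k => isEmptyElim k
  have hmeas : ∀ {ι : Type} (a b : ι), MeasurableSet {w : ι → XX p | (w a, w b) ∈ NP p} :=
    fun a b => ((measurable_pi_apply a).prodMk (measurable_pi_apply b)) (measurableSet_NP p)
  have hmeas' : ∀ {ι : Type} (a b : ι),
      MeasurableSet {w : ι → X3 p q | (pi3 p q (w a), pi3 p q (w b)) ∈ NP p} :=
    fun a b => hpi _ (hmeas a b)
  induction n with
  | zero =>
    intro κ _ hc h ν H _
    have := H.prob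
    have : IsEmpty κ := Fintype.card_eq_zero_iff.1 (by omega)
    exact hemp κ ν
  | succ n ih =>
    intro κ _ hc h ν H hN
    have := H.prob
    rcases isEmpty_or_nonempty κ with he | he
    · exact hemp κ ν
    obtain ⟨ρ, hρ, hb, hl, hT⟩ := line_kernel (fl3 p q κ) ν
    have ha := hT _ (measurable_const_smul (al p q κ M)) H.a H.lam_a
    have hb' := hT _ (measurable_const_smul (be p q h M)) H.b
      (H.dat_b.mono fun w hw => by rw [hw])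
    have hm := H.marg_a ρ hb ha
    have h2 : ∀ᵐ w ∂ν, ∀ k l, k ≠ l →
        ρ w {w | (pi3 p q (w k), pi3 p q (w l)) ∈ NP p} = 0 := by
      refine ae_all_iff.2 fun k => ae_all_iff.2 fun l => ?_
      by_cases hkl : k = l
      · exact Filter.Eventually.of_forall fun w h => absurd hkl h
      have h3 := hN k l hkl
      rw [← hb, Measure.bind_apply (hmeas' k l) ρ.measurable.aemeasurable,
        lintegral_eq_zero_iff (ρ.measurable_coe (hmeas' k l))] at h3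
      exact h3.mono fun w hw _ => hw
    have h3 : ∀ᵐ w ∂ν, (ρ w).map (piP p q) = mP p κ := by
      filter_upwards [H.lam_ne, hl, ha, hb', hm, h2] with w ⟨d, hd, hd0⟩ w2 w3 w4 w5 w6
      have H' : Jn p q M h (ρ w) := ⟨H.ne, H.pos, inferInstance, w3, w4, w5⟩
      have := Measure.isProbabilityMeasure_map (μ := ρ w) (hpi κ).aemeasurable
      refine prod_of_line d _ (fun s => ?_) (fun k => ?_) (fun k l hkl => ?_) ?_
      · have e1 : Measurable (ufl p d s) :=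
          ((ufl p d).continuous continuous_const continuous_id).measurable
        have e2 : Measurable (fl3 p q κ (s • d)) :=
          ((fl3 p q κ).continuous continuous_const continuous_id).measurable
        have e3 : ufl p d s ∘ piP p q = piP p q ∘ fl3 p q κ (s • d) := by
          funext x k
          change uP p (d k * s) • pi3 p q (x k) = pi3 p q (u3 p q (s * d k) • x k)
          rw [pi3_smul p q (Kp q).one_mem, mul_comm]
          rfl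
        rw [Measure.map_map e1 (hpi κ), e3, ← Measure.map_map (hpi κ) e2,
          w2 _ (smul_mem_Lam hd s)]
      · rw [Measure.map_map (measurable_pi_apply k) (hpi κ), ← map_pi3 H.ne, ← w5 k,
          Measure.map_map (continuous_pi3 p q).measurable (measurable_pi_apply k)]
        rfl
      · rw [Measure.map_apply (hpi κ) (hmeas k l)]
        exact w6 k l hkl
      · have e1 : Measurable fun (w : κ → X3 p q) (k : {k // d k = 0}) => w k :=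
          measurable_pi_lambda _ fun j => measurable_pi_apply j.1
        have e2 : Measurable fun (w : κ → XX p) (k : {k // d k = 0}) => w k :=
          measurable_pi_lambda _ fun j => measurable_pi_apply j.1
        obtain ⟨k0, hk0⟩ := Function.ne_iff.1 hd0
        have e3 : Fintype.card {k // d k = 0} < Fintype.card κ :=
          Fintype.card_subtype_lt (x := k0) hk0
        have e4 := ih {k // d k = 0} (by omega) (H'.sub fun k => d k = 0) fun a b hab => by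
          rw [Measure.map_apply e1 (hmeas' a b)]
          exact w6 a.1 b.1 fun h => hab (Subtype.ext h)
        rw [Measure.map_map (hpi _) e1] at e4
        rw [Measure.map_map e2 (hpi κ)]
        exact e4
    ext B hB
    rw [Measure.map_apply (hpi κ) hB, ← hb,
      Measure.bind_apply (hpi κ hB) ρ.measurable.aemeasurable,
      lintegral_congr_ae (g := fun _ => mP p κ B) (h3.mono fun w hw => by
        beta_reduce
        rw [← hw, Measure.map_apply (hpi κ) hB])]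
    simp

theorem el {q : ℕ} [Fact q.Prime] {M : ℕ} (κ : Type) [Fintype κ] {h : κ → SL(2, ℚ_[q])}
    {ν : Measure (κ → X3 p q)} (H : Jn p q M h ν)
    (hN : ∀ k l, k ≠ l → ν {w | (pi3 p q (w k), pi3 p q (w l)) ∈ NP p} = 0) :
    ν.map (piP p q) = mP p κ := by
  exact uel_aux _ κ le_rfl H hN

end Pool.Agent.EQ
end
end

-- part Pool.Agent.P.MP_ad7a55_nt.VEv
section

/-! Points of level N as evaluation maps. -/

set_option autoImplicit false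

noncomputable section

open MeasureTheory Topology Filter UpperHalfPlane
open scoped MatrixGroups ENNReal BoundedContinuousFunction

namespace Pool.Agent.EQ

abbrev Fn : Type := ℍ → ℂ

open Classical in
/-- The values at `τ` of the functions in `A`. -/
def evA (A : Set Fn) (τ : ℍ) : Fn → ℂ := fun f => if f ∈ A then f τ else 0

def evs {n : ℕ} (A : Set Fn) (τ : Fin n → ℍ) : Fin n × Fn → ℂ := fun a => evA A (τ a.1) a.2

open Classical in
/-- A point with given values. -/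
def rp {n : ℕ} (A : Set Fn) (z : Fin n × Fn → ℂ) (k : Fin n) : ℍ :=
  if h : ∃ τ, evA A τ = fun f => z (k, f) then h.choose else UpperHalfPlane.I

/-- The orbit of a point of level `N`. -/
def ON {n : ℕ} (N : ℕ) (F : IntermediateField ℚ ℂ) (τ : Fin n → ℍ) : Finset (Fin n × Fn → ℂ) :=
  fO (galO F (evs (MF N F) τ))

/-- The values of `j`. -/
def pj {n : ℕ} (z : Fin n × Fn → ℂ) : Fin n → ℂ := fun k => z (k, jInv)

variable {n N : ℕ} {F : IntermediateField ℚ ℂ} {τ : Fin n → ℍ} {D : Fin n → ℤ}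

theorem ev_of_mem {A : Set Fn} {f : Fn} (hf : f ∈ A) (τ : ℍ) : evA A τ f = f τ := by
  simp [evA, hf]

theorem ev_of_not {A : Set Fn} {f : Fn} (hf : f ∉ A) (τ : ℍ) : evA A τ f = 0 := by
  simp [evA, hf]

theorem pj_evs (hN : 0 < N) (F : IntermediateField ℚ ℂ) (τ : Fin n → ℍ) :
    pj (evs (MF N F) τ) = fun k => jInv (τ k) :=
  funext fun k => ev_of_mem (MF.j hN) (τ k)

theorem rp_congr {A : Set Fn} {z z' : Fin n × Fn → ℂ} {k : Fin n}
    (h : ∀ f, z (k, f) = z' (k, f)) : rp A z k = rp A z' k := by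
  classical
  exact congrArg (fun w : Fn → ℂ => if h : ∃ τ, evA A τ = w then h.choose else UpperHalfPlane.I)
    (funext h)

theorem vev_rp (hN : 0 < N) {z : Fin n × Fn → ℂ} (hz : z ∈ galO F (evs (MF N F) τ)) (k : Fin n) :
    evA (MF N F) (rp (MF N F) z k) = fun f => z (k, f) := by
  have h : ∃ t, evA (MF N F) t = fun f => z (k, f) := by
    obtain ⟨σ, hσ, rfl⟩ := hz
    obtain ⟨t, ht⟩ := exists_conj hN hσ (τ k)
    refine ⟨t, funext fun f => ?_⟩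
    change evA (MF N F) t f = σ (evA (MF N F) (τ k) f)
    by_cases hf : f ∈ MF N F
    · rw [ev_of_mem hf, ev_of_mem hf, ht f hf]
    · rw [ev_of_not hf, ev_of_not hf, map_zero]
  rw [rp, dif_pos h]
  exact h.choose_spec

theorem evs_rp (hN : 0 < N) {z : Fin n × Fn → ℂ} (hz : z ∈ galO F (evs (MF N F) τ)) :
    evs (MF N F) (rp (MF N F) z) = z :=
  funext fun a => congrFun (vev_rp hN hz a.1) a.2

theorem vev_fib (hN : 0 < N) (F : IntermediateField ℚ ℂ) (y : ℂ) :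
    {w : Fn → ℂ | ∃ t, jInv t = y ∧ evA (MF N F) t = w}.Finite := by
  haveI : NeZero N := ⟨hN.ne'⟩
  obtain ⟨t₀, rfl⟩ := jInv_surj y
  refine (Set.finite_range fun c : SL(2, ℤ) ⧸ CongruenceSubgroup.Gamma N =>
    evA (MF N F) (c.out⁻¹ • t₀)).subset ?_
  rintro _ ⟨t, ht, rfl⟩
  obtain ⟨γ, rfl⟩ := jInv_inj ht.symm
  obtain ⟨h, hh⟩ := QuotientGroup.mk_out_eq_mul (CongruenceSubgroup.Gamma N) γ⁻¹
  refine ⟨QuotientGroup.mk γ⁻¹, funext fun f => ?_⟩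
  change evA (MF N F) ((QuotientGroup.mk γ⁻¹ : SL(2, ℤ) ⧸ CongruenceSubgroup.Gamma N).out⁻¹ • t₀) f
    = _
  by_cases hf : f ∈ MF N F
  · rw [ev_of_mem hf, ev_of_mem hf, hh, mul_inv_rev, inv_inv, mul_smul,
      MF.inv hf ((CongruenceSubgroup.Gamma N).inv_mem h.2)]
  · rw [ev_of_not hf, ev_of_not hf]

theorem vev_j (hN : 0 < N) {z : Fin n × Fn → ℂ} (hz : z ∈ galO F (evs (MF N F) τ)) (k : Fin n) :
    jInv (rp (MF N F) z k) = z (k, jInv) :=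
  (ev_of_mem (MF.j hN) _).symm.trans (congrFun (vev_rp hN hz k) jInv)

theorem galO_fin (hN : 0 < N) (F : IntermediateField ℚ ℂ) (hD : ∀ k, HasDisc (τ k) (D k)) :
    (galO F (evs (MF N F) τ)).Finite := by
  have h1 := Set.Finite.pi' fun k =>
    (finite_orbit (discL_one (hD k))).biUnion fun y _ => vev_fib hN F y
  refine (h1.preimage (f := Function.curry) Function.curry_injective.injOn).subset fun z hz k => ?_
  refine Set.mem_biUnion (x := z (k, jInv)) ?_ ⟨rp (MF N F) z k, vev_j hN hz k, vev_rp hN hz k⟩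
  obtain ⟨σ, -, rfl⟩ := hz
  exact ⟨σ, by rw [jL_one]; exact congrArg σ (ev_of_mem (MF.j hN) (τ k)).symm⟩

theorem mem_ON (hN : 0 < N) (hD : ∀ k, HasDisc (τ k) (D k)) {z : Fin n × Fn → ℂ} :
    z ∈ ON N F τ ↔ z ∈ galO F (evs (MF N F) τ) := mem_fO (galO_fin hN F hD)

theorem ON_ne (hN : 0 < N) (F : IntermediateField ℚ ℂ) (hD : ∀ k, HasDisc (τ k) (D k)) :
    (ON N F τ).Nonempty := ⟨_, (mem_ON hN hD).2 (galO_self F _)⟩

theorem pj_mem (hN : 0 < N) {z : Fin n × Fn → ℂ} (hz : z ∈ galO F (evs (MF N F) τ)) :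
    pj z ∈ galOrbit F fun k => jInv (τ k) := by
  rw [← pj_evs hN F τ]
  exact galO_comp hz fun k : Fin n => (k, jInv)

theorem rp_val (hN : 0 < N) {z : Fin n × Fn → ℂ} (hz : z ∈ galO F (evs (MF N F) τ)) (k : Fin n)
    {f : Fn} (hf : f ∈ MF N F) : f (rp (MF N F) z k) = z (k, f) :=
  (ev_of_mem hf _).symm.trans (congrFun (vev_rp hN hz k) f)

theorem rp_disc (hN : 0 < N) (hD : ∀ k, HasDisc (τ k) (D k)) {z : Fin n × Fn → ℂ}
    (hz : z ∈ galO F (evs (MF N F) τ)) {k : Fin n} (hk : D k < -576) :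
    HasDisc (rp (MF N F) z k) (D k) := by
  obtain ⟨σ, -, hσ⟩ := pj_mem hN hz
  have h1 : jInv (rp (MF N F) z k) = σ (jInv (τ k)) := (vev_j hN hz k).trans (congrFun hσ k)
  obtain ⟨c, t, hc, h2, ht⟩ := disc_gal σ hk (discL_one (hD k)) (isLat_one (rp (MF N F) z k))
    (by rw [jL_one, jL_one, h1])
  have h3 : jInv t = jInv (rp (MF N F) z k) := by rw [← jL_sp hc t, ← h2, jL_one]
  obtain ⟨γ, hγ⟩ := jInv_inj h3
  rw [hγ]
  exact ht.smul γ

/-- Test functions can be evaluated at any point with the right values. -/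
theorem tst_rp (hN : 0 < N) (F : IntermediateField ℚ ℂ) : ∃ B : ℝ, ∀ (n : ℕ) (τ : Fin n → ℍ)
    (D : Fin n → ℤ), (∀ k, HasDisc (τ k) (D k)) → ∀ z ∈ galO F (evs (MF N F) τ), ∀ k,
      B ≤ -(D k : ℝ) → ∀ t : ℍ, (∀ f ∈ MF N F, f t = z (k, f)) → ∀ φ, Tst N F φ →
        φ t = φ (rp (MF N F) z k) := by
  obtain ⟨B, hB⟩ := sep hN F
  refine ⟨max B 577, fun n τ D hD z hz k hk t ht φ hφ => ?_⟩
  have h1 : D k < -576 := by
    have h2 : (D k : ℝ) < -576 := by linarith [le_max_right B 577]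
    exact_mod_cast h2
  obtain ⟨γ, hγ, rfl⟩ := hB _ _ (rp_disc hN hD hz h1) ((le_max_left _ _).trans hk) t
    fun f hf => (ht f hf).trans (rp_val hN hz k hf).symm
  exact hφ γ hγ _

theorem card_pj (hN : 0 < N) (hD : ∀ k, HasDisc (τ k) (D k)) (P : (Fin n → ℂ) → Prop) {δ : ℝ}
    (h : ({z | z ∈ (galOrbit F fun k => jInv (τ k)) ∧ P z}.ncard : ℝ) ≤
      δ * (galOrbit F fun k => jInv (τ k)).ncard) :
    ({z | z ∈ ON N F τ ∧ P (pj z)}.ncard : ℝ) ≤ δ * (ON N F τ).card := by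
  rw [← pj_evs hN F τ] at h
  exact card_comp (galO_fin hN F hD) (fun k : Fin n => (k, jInv)) P h

theorem card_pj2 (hN : 0 < N) (hD : ∀ k, HasDisc (τ k) (D k))
    (P : (Fin n → ℂ) → (Fin n → ℂ) → Prop) {δ : ℝ}
    (h : ({z : (Fin n → ℂ) × (Fin n → ℂ) | z.1 ∈ (galOrbit F fun k => jInv (τ k)) ∧
      z.2 ∈ (galOrbit F fun k => jInv (τ k)) ∧ P z.1 z.2}.ncard : ℝ) ≤
      δ * (galOrbit F fun k => jInv (τ k)).ncard ^ 2) :
    ({z : (Fin n × Fn → ℂ) × (Fin n × Fn → ℂ) | z.1 ∈ ON N F τ ∧ z.2 ∈ ON N F τ ∧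
      P (pj z.1) (pj z.2)}.ncard : ℝ) ≤ δ * (ON N F τ).card ^ 2 := by
  rw [← pj_evs hN F τ] at h
  exact card_comp2 (galO_fin hN F hD) (fun k : Fin n => (k, jInv)) P h

/-- Weights that depend only on the coordinates whose field differs from the fields in `I`. -/
def Oth (I : Finset (Fin n)) (D : Fin n → ℤ) (ψ : (Fin n × Fn → ℂ) → ℝ) : Prop :=
  ∀ z z' : Fin n × Fn → ℂ,
    (∀ k, (∀ l ∈ I, ¬ IsSquare (D k * D l)) → ∀ f, z (k, f) = z' (k, f)) → ψ z = ψ z'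

/-- No isogenies of bounded degree between the coordinates in `I`. -/
def NoIs (L : Filter ℕ) (τ : ℕ → Fin n → ℍ) (I : Finset (Fin n)) : Prop :=
  ∀ k ∈ I, ∀ l ∈ I, k ≠ l → ∀ M : ℕ, 0 < M → ∀ᶠ i in L, ∀ σ : ℂ ≃+* ℂ,
    ¬ Isog M (σ (jInv (τ i k))) (σ (jInv (τ i l)))

/-- The mean of a test function of level `N`. -/
def IN (N : ℕ) (φ : ℍ →ᵇ ℝ) : ℝ := ∫ τ, φ τ ∂mH (CongruenceSubgroup.Gamma N)

/-- The product of the test functions in `I`. -/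
def PT (N : ℕ) (F : IntermediateField ℚ ℂ) (φ : Fin n → (ℍ →ᵇ ℝ)) (I : Finset (Fin n))
    (z : Fin n × Fn → ℂ) : ℝ := ∏ k ∈ I, φ k (rp (MF N F) z k)

end Pool.Agent.EQ
end
end

-- part Pool.Agent.P.MP_ad7a55_nt.XAa
section

/-! Directions of complex multiplication points and moves by ideals. -/

set_option autoImplicit false

noncomputable section

open MeasureTheory Topology Filter UpperHalfPlane
open scoped MatrixGroups BoundedContinuousFunction Matrix Classical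

namespace Pool.Agent.EQ

theorem exists_fr (w : ℂ) : ∃ τ : ℍ, τ ∈ ModularGroup.fd ∧ jInv τ = w := by
  obtain ⟨τ, rfl⟩ := jInv_surj w
  obtain ⟨γ, hγ⟩ := ModularGroup.exists_smul_mem_fd τ
  exact ⟨γ • τ, hγ, jInv_smul γ τ⟩

/-- A point of the fundamental domain with given invariant. -/
def fr (w : ℂ) : ℍ := (exists_fr w).choose

/-- `Ω` is the matrix of multiplication by `th E`. -/
def Om (E : ℤ) (τ : ℍ) (Ω : M2) : Prop := ∀ v, ev τ (Ω *ᵥ v) = th E * ev τ v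

/-- The matrix of multiplication by `th E`. -/
def om (E : ℤ) (τ : ℍ) : M2 := if h : ∃ Ω, Om E τ Ω then h.choose else 0

/-- The matrix of multiplication by `th E + b`. -/
def AA (E b : ℤ) (τ : ℍ) : M2 := om E τ + b • (1 : M2)

/-- `E` is a square multiple of `D`. -/
def Fit (E D : ℤ) : Prop := ∃ f : ℕ, 0 < f ∧ E = f ^ 2 * D

/-- An isogeny of degree `d`. -/
def Ig (d : ℕ) (a b : ℂ) : Prop := ∃ (t : ℍ) (η : M2), η.det = d ∧ jInv (act η t) = a ∧ jInv t = b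

/-- The full Galois orbit of the invariants. -/
def Orb {n : ℕ} (τ : Fin n → ℍ) : Finset (Fin n → ℂ) := fO (galO ⊥ fun k => jInv (τ k))

variable {τ τ' : ℍ} {D D' E b : ℤ} {η η' : M2} {n d : ℕ}

theorem fr_spec (w : ℂ) : fr w ∈ ModularGroup.fd ∧ jInv (fr w) = w := (exists_fr w).choose_spec

theorem ev_adj (h : 0 < η.det) (τ : ℍ) (w : V2) :
    ev τ (η.adjugate *ᵥ w) = ((η 1 0 : ℂ) * τ + η 1 1) * ev (act η τ) w := by
  have e := vact_den_mul h τ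
  rw [tga_ev_mul, Matrix.adjugate_fin_two]
  simp only [ev, Matrix.of_apply, Matrix.cons_val', Matrix.cons_val_zero, Matrix.cons_val_one,
    Matrix.cons_val_fin_one]
  push_cast
  linear_combination (w 1 : ℂ) * e

theorem xaa_ev_smul (τ : ℍ) (η : M2) (x : ℤ) (v : V2) :
    ev τ ((x • η) *ᵥ v) = x * ev τ (η *ᵥ v) := by
  simp only [tga_ev_mul, Matrix.smul_apply, smul_eq_mul]
  push_cast
  ring

theorem xaa_ev_act (h : 0 < η.det) (τ : ℍ) (w : V2) :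
    ((η 1 0 : ℂ) * τ + η 1 1) * ev (act η τ) (η *ᵥ w) = η.det * ev τ w := by
  rw [← ev_adj h, Matrix.mulVec_mulVec, Matrix.adjugate_mul, xaa_ev_smul, Matrix.one_mulVec]

theorem xaa_adj_act (h : 0 < η.det) (τ : ℍ) : act η.adjugate (act η τ) = τ := by
  rw [← act_mul (by rwa [xla_det_adj]) h, Matrix.adjugate_mul, act_smul (by simp) h.ne', act_one]

theorem xaa_cop (hc : IsCoprime (n : ℤ) (2 * E)) (hb : (n : ℤ) ∣ b ^ 2 - E) :
    IsCoprime (2 * b) (n : ℤ) := by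
  obtain ⟨k, hk⟩ := hb
  obtain ⟨u, v, e⟩ := hc
  exact ⟨v * b, u - 2 * v * k, by linear_combination e + 2 * v * hk⟩

theorem xaa_has {c : ℂ} (hc : c ≠ 0) (h : DiscL (sp c (c * τ)) D) : HasDisc τ D := by
  obtain ⟨c', t, hc', e, h⟩ := h
  obtain ⟨γ, rfl, -⟩ := exists_SL_of_sp_eq hc' hc e.symm
  exact h.smul γ

theorem xaa_isD (h : IsD D) (hd : 0 < d) : IsD (d ^ 2 * D) := by
  refine ⟨mul_neg_of_pos_of_neg (by positivity) h.1, ?_⟩
  obtain ⟨k, hk | hk⟩ := Int.even_or_odd' (d : ℤ)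
  · rw [hk, show (2 * k) ^ 2 * D = 4 * (k ^ 2 * D) by ring]
    omega
  · rw [hk, show (2 * k + 1) ^ 2 * D = D + 4 * ((k ^ 2 + k) * D) by ring]
    have := h.2
    omega

theorem xaa_mem {x : ℂ} : x ∈ sp 1 τ ↔ ∃ v, x = ev τ v := by
  rw [mem_sp]
  constructor
  · rintro ⟨a, c, rfl⟩
    exact ⟨![a, -c], by simp [ev]⟩
  · rintro ⟨v, rfl⟩
    exact ⟨v 0, -v 1, by rw [ev]; push_cast; ring⟩

theorem xaa_discL (hE : E < 0) (hn : 0 < n) (hc : IsCoprime (n : ℤ) (2 * E))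
    (hb : (4 * n : ℤ) ∣ b ^ 2 - E) : DiscL (sp n ((-b + th E) / 2)) E := by
  obtain ⟨c, h⟩ := hb
  have h1 := discL_fac (m := n) hE (by exact_mod_cast hn) h hc.of_mul_right_right
  rwa [Int.cast_natCast] at h1

theorem HasDisc.tauTh (h : HasDisc τ D) : ∃ Θ, TauTh D τ Θ := by
  obtain ⟨A, B, C, h1, h2, h3, h4⟩ := h
  exact ⟨_, A, B, C, h1, h2, h4.symm, h3, rfl⟩

theorem om_eq {Θ : M2} (h : TauTh D τ Θ) (f : ℕ) : om (f ^ 2 * D) τ = (f : ℤ) • Θ := by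
  have hO : Om (f ^ 2 * D) τ ((f : ℤ) • Θ) := fun v => by
    rw [xaa_ev_smul, h.mul, th_mul_sq]
    push_cast
    ring
  have hex : ∃ Ω, Om (f ^ 2 * D) τ Ω := ⟨_, hO⟩
  rw [om, dif_pos hex]
  exact tga_mat_ext fun v => by rw [hex.choose_spec v, hO v]

theorem Fit.trans {E' : ℤ} (h : Fit E E') (h' : Fit E' D) : Fit E D := by
  obtain ⟨f, hf, rfl⟩ := h
  obtain ⟨g, hg, rfl⟩ := h'
  exact ⟨f * g, Nat.mul_pos hf hg, by push_cast; ring⟩

theorem fit_sq (hd : 0 < d) (D : ℤ) : Fit (d ^ 2 * D) D := by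
  exact ⟨d, hd, rfl⟩

theorem AA_ev (h : HasDisc τ D) (hf : Fit E D) (b : ℤ) (v : V2) :
    ev τ (AA E b τ *ᵥ v) = (th E + b) * ev τ v := by
  obtain ⟨f, -, rfl⟩ := hf
  obtain ⟨Θ, hΘ⟩ := h.tauTh
  rw [AA, om_eq hΘ, tga_ev_comb, hΘ.mul, Matrix.one_mulVec, th_mul_sq]
  push_cast
  ring

theorem AA_det (h : HasDisc τ D) (hf : Fit E D) (b : ℤ) :
    (AA E b τ).det = b ^ 2 - E ∧ (AA E b τ).trace = 2 * b := by
  obtain ⟨f, -, rfl⟩ := hf
  obtain ⟨Θ, hΘ⟩ := h.tauTh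
  rw [AA, om_eq hΘ]
  obtain ⟨A, B, C, -, -, rfl, -, rfl⟩ := hΘ
  rw [Matrix.det_fin_two, Matrix.trace_fin_two]
  simp [Th, Matrix.intCast_apply]
  constructor <;> ring

theorem AA_line (h : HasDisc τ D) (hf : Fit E D) (hn : 0 < n) (hc : IsCoprime (n : ℤ) (2 * E))
    (hb : (n : ℤ) ∣ b ^ 2 - E) : IsLn n (Ker n (AA E b τ)) := by
  obtain ⟨h1, h2⟩ := AA_det h hf b
  exact isLn_Ker hn (by rw [h1]; exact hb) (by rw [h2]; exact xaa_cop hc hb)

theorem AA_com (h : HasDisc τ D) (hf : Fit E D) (hη : 0 < η.det) (h' : HasDisc (act η τ) D')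
    (hf' : Fit E D') (b : ℤ) : η * AA E b τ = AA E b (act η τ) * η := by
  refine tga_mat_ext (τ := act η τ) fun v => mul_left_cancel₀ (act_den hη τ) ?_
  rw [← Matrix.mulVec_mulVec, ← Matrix.mulVec_mulVec, xaa_ev_act hη, AA_ev h hf, AA_ev h' hf']
  linear_combination (-(th E + b)) * xaa_ev_act hη τ v

theorem iso_unique (h : HasDisc τ D) (hn : 0 < n) (h₁ : η.det = n) (h₂ : η'.det = n)
    (hb : 4 * (n : ℤ) ^ 2 < -D) (e : jInv (act η τ) = jInv (act η' τ)) :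
    ∃ γ : SL(2, ℤ), η' = (γ : M2) * η := by
  have hn' : (0 : ℤ) < n := by exact_mod_cast hn
  have p₁ : 0 < η.det := by rwa [h₁]
  have p₂ : 0 < η'.det := by rwa [h₂]
  obtain ⟨γ, hγ⟩ := jInv_inj e
  have d1 : ((γ : M2) * η).det = n := by rw [Matrix.det_mul, γ.det_coe, one_mul, h₁]
  have d2 : (η'.adjugate * ((γ : M2) * η)).det = n ^ 2 := by
    rw [Matrix.det_mul, d1, xla_det_adj, h₂, sq]
  have d3 : act (η'.adjugate * ((γ : M2) * η)) τ = τ := by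
    rw [act_mul (by rwa [xla_det_adj]) (by rwa [d1]), act_mul (vact_SL_det γ) p₁, act_SL, ← hγ,
      xaa_adj_act p₂]
  have d4 : η' * (η'.adjugate * ((γ : M2) * η)) = (n : ℤ) • ((γ : M2) * η) := by
    rw [← mul_assoc, Matrix.mul_adjugate, h₂, smul_mul_assoc, one_mul]
  obtain ⟨k1, k2, k3⟩ := h.scalar (by rw [d2]; positivity) (by rwa [d2]) d3
  generalize η'.adjugate * ((γ : M2) * η) = ζ at d2 d4 k1 k2 k3
  have d5 : ζ = ζ 0 0 • (1 : M2) := by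
    ext i j
    fin_cases i <;> fin_cases j <;> simp [k1, k2, k3]
  rw [Matrix.det_fin_two, k1, ← k3, zero_mul, sub_zero, ← sq] at d2
  rw [d5, mul_smul_comm, mul_one] at d4
  rcases sq_eq_sq_iff_eq_or_eq_neg.1 d2 with k | k
  · rw [k] at d4
    exact ⟨γ, xla_cancel hn'.ne' d4⟩
  · refine ⟨-γ, xla_cancel hn'.ne' ?_⟩
    rw [Matrix.SpecialLinearGroup.coe_neg, neg_mul, smul_neg, ← d4, k, neg_zsmul, neg_neg]

theorem act_disc (h : HasDisc τ D) (hd : 0 < d) (hη : η.det = d) :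
    ∃ D', HasDisc (act η τ) D' ∧ Fit (d ^ 2 * D) D' ∧ -D ≤ (d : ℤ) ^ 2 * -D' := by
  have p : 0 < η.det := by rw [hη]; exact_mod_cast hd
  have hn : ((d : ℕ) : ℂ) = (η 0 0 : ℂ) * η 1 1 - η 0 1 * η 1 0 := by
    rw [← Int.cast_natCast, ← hη, Matrix.det_fin_two]
    push_cast
    rfl
  obtain ⟨D', h1, h2, h3⟩ := disc_between (discL_one h) hd
    (Λ' := sp ((η 1 0 : ℂ) * τ + η 1 1) (((η 1 0 : ℂ) * τ + η 1 1) * act η τ))
    (by
      rw [vact_den_mul p, pr_mul_sp, hn]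
      exact sp_le_iff_lat.2 ⟨mem_sp.2 ⟨η 0 0, -η 1 0, by push_cast; ring⟩,
        mem_sp.2 ⟨-η 0 1, η 1 1, by push_cast; ring⟩⟩)
    (by
      rw [vact_den_mul p]
      exact sp_le_iff_lat.2 ⟨mem_sp.2 ⟨η 1 1, η 1 0, by ring⟩, mem_sp.2 ⟨η 0 1, η 0 0, by ring⟩⟩)
  exact ⟨D', xaa_has (act_den p τ) h1, exists_cond h1.isD (xaa_isD h.isD hd) h2, h3⟩

theorem disc_of_gal (h : HasDisc τ D) (hD : D < -576) {σ : ℂ ≃+* ℂ} (e : jInv τ' = σ (jInv τ)) :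
    HasDisc τ' D := by
  have h1 := disc_gal σ hD (discL_one h) (isLat_one τ') (by rw [jL_one, jL_one, e])
  exact xaa_has one_ne_zero (by rwa [one_mul])

theorem Ig.symm {x y : ℂ} (hd : 0 < d) (h : Ig d x y) : Ig d y x := by
  obtain ⟨t, η, h1, h2, h3⟩ := h
  have p : 0 < η.det := by rw [h1]; exact_mod_cast hd
  exact ⟨act η t, η.adjugate, by rw [xla_det_adj, h1], by rw [xaa_adj_act p, h3], h2⟩

theorem Ig.trans {d' : ℕ} {x y z : ℂ} (hd : 0 < d) (hd' : 0 < d') (h : Ig d x y) (h' : Ig d' y z) :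
    Ig (d * d') x z := by
  obtain ⟨t, η, h1, h2, h3⟩ := h
  obtain ⟨t', η', h4, h5, h6⟩ := h'
  have p : 0 < η.det := by rw [h1]; exact_mod_cast hd
  have p' : 0 < η'.det := by rw [h4]; exact_mod_cast hd'
  obtain ⟨γ, rfl⟩ := jInv_inj (h5.trans h3.symm)
  have d1 : ((γ : M2) * η').det = d' := by rw [Matrix.det_mul, γ.det_coe, one_mul, h4]
  refine ⟨t', η * ((γ : M2) * η'), by rw [Matrix.det_mul, d1, h1, Nat.cast_mul], ?_, h6⟩
  rw [act_mul p (by rw [d1]; exact_mod_cast hd'), act_mul (vact_SL_det γ) p', act_SL, h2]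

theorem Ig.isog {x y : ℂ} (hd : 0 < d) (h : Ig d x y) : Isog d x y := by
  obtain ⟨t, η, h1, rfl, rfl⟩ := h
  have h2 := isog_act (ξ := η) (by rw [h1]; exact_mod_cast hd) t
  rwa [h1, Int.natAbs_natCast] at h2

theorem Isog.ig {x y : ℂ} (hd : 0 < d) (h : Isog d x y) : ∃ d', 0 < d' ∧ d' ≤ d ^ 2 ∧ Ig d' x y := by
  obtain ⟨t', rfl⟩ := jInv_surj x
  obtain ⟨t, rfl⟩ := jInv_surj y
  obtain ⟨ξ, h1, h2, rfl⟩ := h.exists_act hd
  have h3 : ξ.det = ξ.det.natAbs := (Int.natAbs_of_nonneg h1.le).symm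
  refine ⟨ξ.det.natAbs, Int.natAbs_pos.2 h1.ne', ?_, t, ξ, h3, rfl, rfl⟩
  rw [h3] at h2
  exact Nat.le_of_dvd (by positivity) (by exact_mod_cast h2)

theorem Ig.exists_Hn {x : ℂ} (hd : 0 < d) (h : Ig d x (jInv τ)) :
    ∃ g ∈ Hn d, jInv (act g τ) = x := by
  obtain ⟨t, η, h1, rfl, h3⟩ := h
  have p : 0 < η.det := by rw [h1]; exact_mod_cast hd
  obtain ⟨γ, rfl⟩ := jInv_inj h3.symm
  obtain ⟨γ', g, hg, e⟩ := Pool.Agent.EQ.exists_Hn (η := η * (γ : M2)) hd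
    (by rw [Matrix.det_mul, γ.det_coe, mul_one, h1])
  refine ⟨g, hg, ?_⟩
  rw [← act_SL, ← act_mul p (vact_SL_det γ), e,
    act_mul (vact_SL_det γ') (by rw [(mem_Hn hg).2]; exact_mod_cast hd), act_SL, jInv_smul]

theorem lat_move (h : HasDisc τ D) (hf : Fit E D) (hn : 0 < n) (hc : IsCoprime (n : ℤ) (2 * E))
    (hb : (4 * n : ℤ) ∣ b ^ 2 - E) (hη : η.det = n) (hk : Ker n (AA E b τ) ⊆ Ker n η) :
    jInv (act η τ) = jL (sp n ((-b + th E) / 2) * sp 1 τ) := by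
  have p : 0 < η.det := by rw [hη]; exact_mod_cast hn
  have hb' : (n : ℤ) ∣ b ^ 2 - E := (Dvd.intro_left _ rfl).trans hb
  have hK := (AA_line h hf hn hc hb').eq_Ker hn hη hk
  have hn' : (n : ℂ) ≠ 0 := by exact_mod_cast hn.ne'
  rw [← jL_sp (act_den p τ) (act η τ)]
  refine congrArg jL ?_
  have hL : ∀ x, x ∈ sp ((η 1 0 : ℂ) * τ + η 1 1) (((η 1 0 : ℂ) * τ + η 1 1) * act η τ) ↔
      x ∈ sp 1 τ ∧ ∃ y ∈ sp 1 (τ : ℂ), (th E + b) * x = n * y := fun x => by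
    have e : sp ((η 1 0 : ℂ) * τ + η 1 1) (((η 1 0 : ℂ) * τ + η 1 1) * act η τ) =
        pr ((η 1 0 : ℂ) * τ + η 1 1) * sp 1 (act η τ) := by rw [pr_mul_sp, mul_one]
    rw [e, mem_pr_mul]
    constructor
    · rintro ⟨w, hw, rfl⟩
      obtain ⟨w, rfl⟩ := xaa_mem.1 hw
      rw [← ev_adj p]
      have h1 : η.adjugate *ᵥ w ∈ Ker n (AA E b τ) := hK ▸ (mem_Ker_adj hn hη).2 ⟨w, rfl⟩
      choose u hu using h1
      refine ⟨xaa_mem.2 ⟨_, rfl⟩, _, xaa_mem.2 ⟨u, rfl⟩, ?_⟩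
      rw [← AA_ev h hf, ev, hu, hu, ev]
      push_cast
      ring
    · rintro ⟨h1, y, h2, h3⟩
      obtain ⟨v, rfl⟩ := xaa_mem.1 h1
      obtain ⟨u, rfl⟩ := xaa_mem.1 h2
      have h4 : AA E b τ *ᵥ v = fun i => n * u i := by
        refine tga_ev_inj (τ := τ) ?_
        rw [AA_ev h hf, h3, ev, ev]
        push_cast
        ring
      have h5 : v ∈ Ker n η := by
        rw [hK]
        intro i
        rw [h4]
        exact Dvd.intro _ rfl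
      obtain ⟨w, rfl⟩ := (mem_Ker_adj hn hη).1 h5
      exact ⟨_, xaa_mem.2 ⟨w, rfl⟩, (ev_adj p τ w).symm⟩
  obtain ⟨c, hc'⟩ := hb
  have hE : E < 0 := by
    obtain ⟨f, hf0, rfl⟩ := hf
    exact (xaa_isD h.isD hf0).1
  have hβ : ((-b + th E) / 2 : ℂ) ∈ OD D := by
    have h1 := beta_mem_fac (D := E) (b := b) (k := n * c) (by rw [hc']; ring)
    obtain ⟨f, -, rfl⟩ := hf
    exact OD_sq_le h.isD f h1
  refine le_antisymm (fun x hx => ?_) (Submodule.mul_le.2 fun a ha x hx => ?_)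
  · obtain ⟨h1, y, h2, h3⟩ := (hL x).1 hx
    refine mem_of_coprime_fac (xaa_cop hc hb') ?_ ?_
    · have h4 := Submodule.sub_mem _ (Submodule.mul_mem_mul (left_mem_sp_fac (n : ℂ) _) h2)
        (int_mul_mem_fac 2 (Submodule.mul_mem_mul (right_mem_sp_fac _ ((-b + th E) / 2)) h1))
      have e : ((2 * b : ℤ) : ℂ) * x = n * y - (2 : ℤ) * ((-b + th E) / 2 * x) := by
        push_cast
        linear_combination h3
      rwa [e]
    · rw [Int.cast_natCast]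
      exact Submodule.mul_mem_mul (left_mem_sp_fac _ _) h1
  · obtain ⟨r, s, rfl⟩ := mem_sp.1 ha
    rw [add_mul ((r : ℂ) * n), mul_assoc (r : ℂ), mul_assoc (s : ℂ)]
    refine Submodule.add_mem _ (int_mul_mem_fac r ((hL _).2 ?_)) (int_mul_mem_fac s ((hL _).2 ?_))
    · have h1 := int_mul_mem_fac (n : ℤ) hx
      rw [Int.cast_natCast] at h1
      obtain ⟨v, rfl⟩ := xaa_mem.1 hx
      exact ⟨h1, _, xaa_mem.2 ⟨AA E b τ *ᵥ v, rfl⟩, by rw [AA_ev h hf]; ring⟩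
    · refine ⟨pr_mul_le.1 (((discL_one h).end_iff _).2 hβ) x hx, _,
        int_mul_mem_fac (-2 * c) hx, ?_⟩
      have e1 := th_sq hE.le
      have e2 : (b : ℂ) ^ 2 - E = 4 * n * c := by exact_mod_cast hc'
      push_cast
      linear_combination (x / 2) * e1 - (x / 2) * e2

theorem Acts.move {σ : ℂ ≃+* ℂ} (hσ : σ (th E) = th E) (hn : 0 < n)
    (hc : IsCoprime (n : ℤ) (2 * E)) (hb : (4 * n : ℤ) ∣ b ^ 2 - E)
    (ha : Acts σ E (sp n ((-b + th E) / 2))) (h : HasDisc τ D) (hD : D < -576) (hf : Fit E D)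
    (hη : η.det = n) (hk : Ker n (AA E b τ) ⊆ Ker n η) : σ (jInv τ) = jInv (act η τ) := by
  rw [lat_move h hf hn hc hb hη hk, ← jL_one]
  obtain ⟨f, hf0, rfl⟩ := hf
  have h1 : σ (th D) = th D := by
    rw [th_mul_sq, map_mul, map_natCast] at hσ
    exact mul_left_cancel₀ (by exact_mod_cast hf0.ne') hσ
  exact Acts.up hD h.isD h1 hf0 (xaa_discL (xaa_isD h.isD hf0).1 hn hc hb) ha _ (discL_one h)

theorem cm_one (hE : E < -576) (hn : 0 < n) (hc : IsCoprime (n : ℤ) (2 * E))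
    (hb : (4 * n : ℤ) ∣ b ^ 2 - E) : ∃ σ : ℂ ≃+* ℂ, ∀ (τ : ℍ) (D : ℤ) (η : M2), HasDisc τ D →
      D < -576 → Fit E D → η.det = n → Ker n (AA E b τ) ⊆ Ker n η →
      σ (jInv τ) = jInv (act η τ) := by
  obtain ⟨σ, h1, h2⟩ := acts_surj hE (xaa_discL (by omega) hn hc hb)
  exact ⟨σ, fun τ D η h hD hf hη hk => Acts.move h1 hn hc hb h2 h hD hf hη hk⟩

variable {m : ℕ} {t : Fin m → ℍ} {Dk : Fin m → ℤ} {x : Fin m → ℂ}

theorem mem_Orb (h : ∀ k, HasDisc (t k) (Dk k)) :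
    x ∈ Orb t ↔ ∃ σ : ℂ ≃+* ℂ, x = fun k => σ (jInv (t k)) := by
  have hfin : (galO ⊥ fun k => jInv (t k)).Finite := by
    refine (Set.Finite.pi' fun k => finite_orbit (discL_one (h k))).subset ?_
    rintro _ ⟨σ, -, rfl⟩ k
    exact ⟨σ, by rw [jL_one]⟩
  rw [Orb, mem_fO hfin]
  refine ⟨fun ⟨σ, _, e⟩ => ⟨σ, e⟩, fun ⟨σ, e⟩ => ⟨σ, fun a ha => ?_, e⟩⟩
  obtain ⟨q, rfl⟩ := IntermediateField.mem_bot.1 ha
  rw [eq_ratCast, map_ratCast]

theorem Orb_ne (h : ∀ k, HasDisc (t k) (Dk k)) : (Orb t).Nonempty := by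
  exact ⟨_, (mem_Orb h).2 ⟨RingEquiv.refl ℂ, rfl⟩⟩

theorem Orb_map (h : ∀ k, HasDisc (t k) (Dk k)) (hx : x ∈ Orb t) (σ : ℂ ≃+* ℂ) :
    (fun k => σ (x k)) ∈ Orb t := by
  obtain ⟨σ', rfl⟩ := (mem_Orb h).1 hx
  exact (mem_Orb h).2 ⟨σ'.trans σ, rfl⟩

theorem Orb_disc (h : ∀ k, HasDisc (t k) (Dk k)) (hx : x ∈ Orb t) {k : Fin m}
    (hk : Dk k < -576) : HasDisc (fr (x k)) (Dk k) := by
  obtain ⟨σ, rfl⟩ := (mem_Orb h).1 hx
  exact disc_of_gal (h k) hk (fr_spec _).2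

end Pool.Agent.EQ
end
end
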