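import Pool.Agent.K.MP_ad7a55_nt.C61
import Pool.Agent.K.MP_ad7a55_nt.C15
import Pool.Agent.K.MP_ad7a55_nt.C19
import Pool.Agent.K.MP_ad7a55_nt.C60

-- part Pool.Agent.P.MP_ad7a55_nt.XBb
section

/-! The sieve bound with many split primes in the level. -/

set_option autoImplicit false

noncomputable section

open Finset
open scoped Classical

namespace Pool.Agent.EQ

theorem xbb_young {x t : ℝ} (hx : 0 ≤ x) (ht : 0 < t) : x ≤ x ^ (4 / 3 : ℝ) / t + t ^ 3 := by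
  rcases le_or_gt x (t ^ 3) with h | h
  · have : 0 ≤ x ^ (4 / 3 : ℝ) / t := by positivity
    linarith
  · have hx0 : 0 < x := lt_trans (by positivity) h
    have h1 : t ≤ x ^ (1 / 3 : ℝ) := by
      refine le_of_pow_le_pow_left₀ (n := 3) (by norm_num) (by positivity) ?_
      rw [← Real.rpow_natCast (x ^ (1 / 3 : ℝ)), ← Real.rpow_mul hx]
      norm_num
      exact h.le
    have h2 : x ^ (4 / 3 : ℝ) = x * x ^ (1 / 3 : ℝ) := by
      rw [show (4 / 3 : ℝ) = 1 + 1 / 3 by norm_num, Real.rpow_add hx0, Real.rpow_one]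
    have h3 : x ≤ x ^ (4 / 3 : ℝ) / t := by
      rw [le_div_iff₀ ht, h2]
      exact mul_le_mul_of_nonneg_left h1 hx
    have : 0 ≤ t ^ 3 := by positivity
    linarith

theorem xbb_per (l b : ℕ) {F : ℤ → ℝ} (hF : ∀ x y, (l : ℤ) ∣ x - y → F x = F y) :
    ∑ r ∈ range (l * b), F r = b * ∑ r ∈ range l, F r := by
  have e : ∀ j ∈ range b, ∑ i ∈ range l, F ((l * j + i : ℕ) : ℤ) = ∑ i ∈ range l, F i :=
    fun j _ => sum_congr rfl fun i _ => hF _ i ⟨j, by push_cast; ring⟩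
  rw [tlv_split l b fun r => F r, sum_congr rfl e, sum_const, card_range, nsmul_eq_mul]

theorem xbb_pow {N Q : ℕ} (hQ : 0 < Q) (h : Q ^ 100 ≤ N) :
    (N : ℝ) ^ (99 / 100 : ℝ) ≤ N / Q := by
  have hQ0 : (0 : ℝ) < Q := by exact_mod_cast hQ
  have hN : (0 : ℝ) < N := by exact_mod_cast lt_of_lt_of_le (pow_pos hQ 100) h
  have h1 : (Q : ℝ) ≤ (N : ℝ) ^ (1 / 100 : ℝ) := by
    refine le_of_pow_le_pow_left₀ (n := 100) (by norm_num) (by positivity) ?_
    rw [← Real.rpow_natCast ((N : ℝ) ^ (1 / 100 : ℝ)), ← Real.rpow_mul hN.le]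
    norm_num
    exact_mod_cast h
  rw [le_div_iff₀ hQ0]
  calc _ ≤ (N : ℝ) ^ (99 / 100 : ℝ) * (N : ℝ) ^ (1 / 100 : ℝ) :=
        mul_le_mul_of_nonneg_left h1 (by positivity)
    _ = N := by rw [← Real.rpow_add hN]; norm_num

namespace Dt

/-- The weight at a prime of the level. -/
def wl (d : Dt) (k : ℕ → ℕ) (l : ℕ) (X Y : ℤ) : ℝ := ((padicValInt l (d.B X Y) + 1 - k l : ℕ) : ℝ)

theorem xbb_simple (d : Dt) {l : ℕ} (hl : l.Prime) (Y : ℤ) (k : ℕ)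
    (h : ∀ j, 0 < j → cnt (l ^ j) (fun X => (l : ℤ) ^ j ∣ d.B X Y) ≤ 2) :
    LS 1 l {X | d.B X Y ≠ 0} (fun X => d.B X Y)
      (fun X => ((padicValInt l (d.B X Y) + 1 - k : ℕ) : ℝ)) (fun _ => k)
      (cnt (l ^ k) (fun X => (l : ℤ) ^ k ∣ d.B X Y) / (l : ℝ) ^ k) 2 := by
  have : Fact l.Prime := ⟨hl⟩
  have hq : (0 : ℤ) < (l : ℤ) ^ k := by
    have := hl.pos
    positivity
  have hc : ∀ r : ℕ, r < l ^ k → ∀ j, 0 < j →
      cnt (l ^ j) (fun y => (l : ℤ) ^ (k + j) ∣ d.B (r + (l : ℤ) ^ k * y) Y) ≤ 2 := by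
    intro r hr j hj
    refine le_trans ?_ (h (k + j) (by omega))
    rw [tqd_cnt, tqd_cnt]
    refine card_le_card_of_injOn (fun y => r + l ^ k * y) (fun y hy => ?_) fun y _ z _ e => ?_
    · obtain ⟨h1, h2⟩ := mem_filter.1 (mem_coe.1 hy)
      refine mem_coe.2 (mem_filter.2 ⟨mem_range.2 ?_, by push_cast; exact h2⟩)
      have h3 := Nat.mul_le_mul_left (l ^ k) (Nat.succ_le_of_lt (mem_range.1 h1))
      rw [← pow_add, Nat.mul_succ] at h3
      show r + l ^ k * y < _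
      omega
    · exact Nat.eq_of_mul_eq_mul_left (pow_pos hl.pos k) (Nat.add_left_cancel e)
  refine ⟨((range (l ^ k)).filter fun r : ℕ => (l : ℤ) ^ k ∣ d.B r Y).image
    fun r : ℕ => (k, (r : ℤ), 0), fun _ => 1,
    fun t j y => (l : ℤ) ^ (k + j) ∣ d.B (t.2.1 + (l : ℤ) ^ k * y) Y, fun _ j => j + 1,
    fun t ht => ⟨zero_le_one, ?_⟩, ?_, fun x hx => ?_⟩
  · obtain ⟨r, hr, rfl⟩ := mem_image.1 ht
    have hr' := mem_range.1 (mem_filter.1 hr).1
    refine ⟨fun j x y e1 e2 => ?_, hc r hr', fun j => by positivity, fun j => by simp, by simp, ?_⟩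
    · simp only [B_eq] at e2 ⊢
      refine tqd_poly ?_ e2
      rw [add_sub_add_left_eq_sub, ← mul_sub, pow_add]
      exact mul_dvd_mul_left _ e1
    · have h1 := hc r hr' 1 one_pos
      rw [pow_one] at h1
      have h2 : (cnt l fun y => (l : ℤ) ^ (k + 1) ∣ d.B (r + (l : ℤ) ^ k * y) Y : ℝ) ≤ 2 := by
        exact_mod_cast h1
      simpa using h2
  · rw [sum_image fun r _ s _ e => by exact_mod_cast (Prod.mk.inj (Prod.mk.inj e).2).1]
    simp only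
    rw [sum_const, nsmul_eq_mul, tqd_cnt, mul_one_div]
  · rcases lt_or_ge (padicValInt l (d.B x Y)) k with h1 | h1
    · left
      simp only [show padicValInt l (d.B x Y) + 1 - k = 0 by omega, Nat.cast_zero, le_refl]
    obtain ⟨j, hj⟩ := Nat.exists_eq_add_of_le h1
    obtain ⟨r, hr⟩ := Int.eq_ofNat_of_zero_le (Int.emod_nonneg x hq.ne')
    have hr1 := Int.emod_lt_of_pos x hq
    have hx' : x = (r : ℤ) + (l : ℤ) ^ k * (x / (l : ℤ) ^ k) := by
      rw [← hr]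
      exact (Int.emod_add_mul_ediv x _).symm
    have hv : ∀ i, (l : ℤ) ^ i ∣ d.B x Y ↔ i ≤ k + j := fun i => by
      rw [padicValInt_dvd_iff, hj]
      exact ⟨fun e => e.resolve_left hx, Or.inr⟩
    refine Or.inr ⟨(k, (r : ℤ), 0), mem_image_of_mem _ (mem_filter.2 ⟨mem_range.2 ?_, ?_⟩),
      x / (l : ℤ) ^ k, j, le_rfl, hx', ⟨fun e => ?_, fun _ => ?_⟩, (hv j).2 (by omega), ?_⟩
    · rw [hr] at hr1
      exact_mod_cast hr1
    · have e2 := (hv k).2 (by omega)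
      rw [B_eq] at e2 ⊢
      exact tqd_poly ⟨x / (l : ℤ) ^ k, by linarith⟩ e2
    · simp only [← hx', hv]
      omega
    · simp only [← hx', hv, le_refl]
    · simp only [hj, show k + j + 1 - k = j + 1 by omega, one_mul]
      push_cast
      exact le_rfl

theorem xbb_sharp : ∃ K : ℝ, 0 < K ∧ ∀ (d : Dt) (κ : ℕ), d.Good κ → ∀ l : ℕ, l.Prime → l ≠ 2 →
    ¬ (l : ℤ) ∣ d.E → ¬ (l : ℤ) ∣ d.m → ∀ k : ℕ, 0 < k → ∀ t : ℝ, 0 < t → t ^ 4 ≤ l →
    ∃ M : ℤ → ℝ, (∀ Y, 0 ≤ M Y) ∧ (∀ Y Y', (l : ℤ) ^ (2 * k) ∣ Y - Y' → M Y = M Y') ∧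
    ∑ r ∈ range (l ^ (2 * k)), M r ≤ (l : ℝ) ^ (2 * k) * ((1 + K / t) / (l : ℝ) ^ k) ∧
    ∀ Y, LS 1 l {X | d.B X Y ≠ 0} (fun X => d.B X Y)
      (fun X => ((padicValInt l (d.B X Y) + 1 - k : ℕ) : ℝ)) (fun _ => k) (M Y) 2 := by
  obtain ⟨K, hK, hls⟩ := ls_split
  refine ⟨3 * K + 1, by positivity, fun d κ hd l hl h2 hE hm k hk t ht htl => ?_⟩
  have hp := tqd_prime hl
  have hl0 : (0 : ℝ) < l := by exact_mod_cast hl.pos
  obtain ⟨M, hM0, hMp, hM, hLS⟩ := hls d κ hd l hl h2 hE hm k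
  obtain ⟨F, hF⟩ : ∃ F : ℤ → ℝ, F = fun Y =>
    ((1 + if (l : ℤ) ∣ d.a then 0 else jacobiSym d.E l * jacobiSym (d.Δ₁ Y) l : ℤ) : ℝ) :=
    ⟨_, rfl⟩
  have hjj : ∀ Y, -1 ≤ jacobiSym d.E l * jacobiSym (d.Δ₁ Y) l ∧
      jacobiSym d.E l * jacobiSym (d.Δ₁ Y) l ≤ 1 := fun Y => by
    rw [← jacobiSym.mul_left]
    exact tsa_jac_le _ l
  have hΔ : ∀ x y, (l : ℤ) ∣ x - y → (l : ℤ) ∣ d.Δ₁ x - d.Δ₁ y := fun x y e => by
    rw [show d.Δ₁ x - d.Δ₁ y = (x - y) * (x + y) by simp only [Δ₁]; ring]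
    exact e.mul_right _
  have hF0 : ∀ Y, 0 ≤ F Y := fun Y => by
    have := (hjj Y).1
    rw [hF]
    exact Int.cast_nonneg (by split_ifs <;> omega)
  have hFp : ∀ x y, (l : ℤ) ∣ x - y → F x = F y := fun x y e => by
    simp only [hF]
    rw [jacobiSym.mod_left' (Int.emod_eq_emod_iff_emod_sub_eq_zero.2
      (Int.emod_eq_zero_of_dvd (hΔ x y e)))]
  have hl2 : l ^ (2 * k) = l * l ^ (2 * k - 1) := by
    rw [← pow_succ', Nat.sub_add_cancel (by omega)]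
  have hl3 : (l : ℝ) ^ (2 * k) = l * ((l ^ (2 * k - 1) : ℕ) : ℝ) := by exact_mod_cast hl2
  have hdv : ∀ x y, (l : ℤ) ^ (2 * k) ∣ x - y → (l : ℤ) ∣ x - y := fun x y e =>
    (dvd_pow_self _ (by omega)).trans e
  refine ⟨fun Y => if (l : ℤ) ∣ d.Δ₁ Y then M Y else F Y / (l : ℝ) ^ k, fun Y => ?_,
    fun Y Y' e => ?_, ?_, fun Y => ?_⟩
  · have := hF0 Y
    have := hM0 Y
    simp only
    split_ifs <;> positivity
  · simp only [dvd_iff_dvd_of_dvd_sub (hΔ Y Y' (hdv Y Y' e)), hFp Y Y' (hdv Y Y' e),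
      hMp Y Y' (by exact_mod_cast e)]
  · obtain ⟨c, hc⟩ : ∃ c, c = K / (l : ℝ) ^ k := ⟨_, rfl⟩
    have hc0 : 0 < c := by rw [hc]; positivity
    rw [← hc] at hM
    have h1 : ∀ r ∈ range (l ^ (2 * k)), (if (l : ℤ) ∣ d.Δ₁ r then M r else F r / (l : ℝ) ^ k) ≤
        F r / (l : ℝ) ^ k + c / (t * c ^ (4 / 3 : ℝ)) * M r ^ (4 / 3 : ℝ) +
          c * t ^ 3 * if (l : ℤ) ∣ d.Δ₁ r then 1 else 0 := fun r _ => by
      have a1 := hF0 r
      have a2 := hM0 r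
      have a3 : 0 ≤ c / (t * c ^ (4 / 3 : ℝ)) * M r ^ (4 / 3 : ℝ) := by positivity
      split_ifs
      · have a4 := mul_le_mul_of_nonneg_left (xbb_young (div_nonneg a2 hc0.le) ht) hc0.le
        rw [Real.div_rpow a2 hc0.le, mul_div_cancel₀ _ hc0.ne'] at a4
        have a5 : 0 ≤ F r / (l : ℝ) ^ k := by positivity
        have a6 : c * (M r ^ (4 / 3 : ℝ) / c ^ (4 / 3 : ℝ) / t + t ^ 3) =
            c / (t * c ^ (4 / 3 : ℝ)) * M r ^ (4 / 3 : ℝ) + c * t ^ 3 * 1 := by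
          field_simp
        linarith
      · linarith
    refine (sum_le_sum h1).trans ?_
    rw [sum_add_distrib, sum_add_distrib, ← sum_div, ← mul_sum, ← mul_sum]
    have b1 : ∑ r ∈ range (l ^ (2 * k)), F r ≤ (l : ℝ) ^ (2 * k) * (1 + 1 / t) := by
      rw [hl2, xbb_per l _ hFp, hl3, mul_comm (l : ℝ), mul_assoc]
      refine mul_le_mul_of_nonneg_left ?_ (by positivity)
      simp only [hF]
      rw [← Int.cast_sum, sum_add_distrib, sum_const, card_range]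
      have : ∑ r ∈ range l, (if (l : ℤ) ∣ d.a then 0
          else jacobiSym d.E l * jacobiSym (d.Δ₁ r) l) ≤ 1 := by
        split_ifs with ha
        · simp
        · have := sum_jac_sq hl h2 (a := 4 * (d.m * d.a)) fun e =>
            (hp.dvd_or_dvd e).elim (twt_four hl h2) fun e => (hp.dvd_or_dvd e).elim hm ha
          have h4 := (tsa_jac_le d.E l).1
          simp only [Δ₁]
          rw [← mul_sum, this]
          omega
      have h3 : l • (1 : ℤ) + ∑ r ∈ range l, (if (l : ℤ) ∣ d.a then 0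
          else jacobiSym d.E l * jacobiSym (d.Δ₁ r) l) ≤ l + 1 := by
        rw [nsmul_eq_mul, mul_one]
        omega
      have h4 : t ≤ l := by
        rcases le_total t 1 with h5 | h5
        · exact h5.trans (by exact_mod_cast hl.one_le)
        · exact (le_self_pow₀ h5 (by norm_num)).trans htl
      have h5 : 1 ≤ (l : ℝ) * (1 / t) := by rwa [mul_one_div, one_le_div ht]
      refine le_trans (b := (l : ℝ) + 1) (by exact_mod_cast h3) (by linarith)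
    have b2 : ∑ r ∈ range (l ^ (2 * k)), (if (l : ℤ) ∣ d.Δ₁ r then (1 : ℝ) else 0) ≤
        ((l ^ (2 * k - 1) : ℕ) : ℝ) * 2 := by
      rw [hl2, xbb_per l _ (F := fun r => if (l : ℤ) ∣ d.Δ₁ r then (1 : ℝ) else 0) fun x y e => by
        simp only [dvd_iff_dvd_of_dvd_sub (hΔ x y e)]]
      refine mul_le_mul_of_nonneg_left ?_ (by positivity)
      have h3 := card_sq_roots hl h2 (4 * (d.m * d.a))
      have h4 := (tsa_jac_le (4 * (d.m * d.a)) l).2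
      rw [sum_boole]
      have h5 : (((range l).filter fun r : ℕ => (l : ℤ) ∣ (r : ℤ) ^ 2 - 4 * (d.m * d.a)).card : ℤ)
          ≤ 2 := by omega
      exact_mod_cast h5
    have b3 : c / (t * c ^ (4 / 3 : ℝ)) * ∑ r ∈ range (l ^ (2 * k)), M r ^ (4 / 3 : ℝ) ≤
        (l : ℝ) ^ (2 * k) * (c / t) := by
      refine (mul_le_mul_of_nonneg_left hM (by positivity)).trans (le_of_eq ?_)
      push_cast
      field_simp
    have b4 : c * t ^ 3 * (((l ^ (2 * k - 1) : ℕ) : ℝ) * 2) ≤ (l : ℝ) ^ (2 * k) * (2 * (c / t)) := by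
      rw [hl3]
      calc _ = t ^ 4 * ((l ^ (2 * k - 1) : ℕ) : ℝ) * (2 * (c / t)) := by field_simp
        _ ≤ _ := by gcongr
    calc _ ≤ (l : ℝ) ^ (2 * k) * (1 + 1 / t) / (l : ℝ) ^ k + (l : ℝ) ^ (2 * k) * (c / t) +
          (l : ℝ) ^ (2 * k) * (2 * (c / t)) :=
          add_le_add (add_le_add (by gcongr) b3)
            ((mul_le_mul_of_nonneg_left b2 (by positivity)).trans b4)
      _ = _ := by rw [hc]; field_simp; ring
  · by_cases hY : (l : ℤ) ∣ d.Δ₁ Y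
    · simp only [if_pos hY]
      exact hLS Y
    simp only [if_neg hY]
    have hd' : ¬ (l : ℤ) ∣ (d.b * Y) ^ 2 - 4 * d.a * (d.c * Y ^ 2 + d.m * d.E) := by
      rw [disc_B]
      exact fun e => (hp.dvd_or_dvd e).elim hE hY
    have hc : ∀ j, 0 < j → (cnt (l ^ j) (fun X => (l : ℤ) ^ j ∣ d.B X Y) : ℤ) =
        1 + if (l : ℤ) ∣ d.a then 0 else jacobiSym d.E l * jacobiSym (d.Δ₁ Y) l := by
      intro j hj
      simp only [B_eq]
      by_cases ha : (l : ℤ) ∣ d.a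
      · rw [if_pos ha, cnt_hensel' hl ha fun e => hd'
          (dvd_sub (dvd_pow e two_ne_zero) ((ha.mul_left _).mul_right _))]
        simp
      · rw [if_neg ha, cnt_hensel hl h2 ha hd' hj, disc_B, jacobiSym.mul_left]
    have h1 := xbb_simple d hl Y k fun j hj => by
      have h3 := hc j hj
      have h4 := (hjj Y).2
      split_ifs at h3 <;> omega
    rwa [show (cnt (l ^ k) (fun X => (l : ℤ) ^ k ∣ d.B X Y) : ℝ) = F Y by
      rw [hF]; simp only [← hc k hk, Int.cast_natCast]] at h1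

theorem xbb_ω {d : Dt} (hn : d.n.natAbs = 1) (hp : d.p.Prime) :
    (2 * d.n * d.p).natAbs.primeFactors.card ≤ 2 := by
  rw [Int.natAbs_mul, Int.natAbs_mul, hn, Int.natAbs_natCast, mul_one,
    show (2 : ℤ).natAbs = 2 from rfl, Nat.primeFactors_mul two_ne_zero hp.ne_zero,
    Nat.prime_two.primeFactors, hp.primeFactors]
  exact (card_union_le _ _).trans (by simp)

/-- One row, with no loss at the primes of `S`. -/
theorem xbb_row : ∃ (C : ℝ) (A : ℕ), 0 < C ∧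
    ∀ d : Dt, d.Good 0 → d.n.natAbs = 1 → ∀ H N : ℕ, d.Sz H N → 2 * d.p + 2 ≤ N →
    ∀ (S : Finset ℕ) (k : ℕ → ℕ) (w : ℕ → ℤ → ℤ → ℝ) (M : ℕ → ℝ) (Y : ℤ) (T : Finset ℤ), d.p ∈ S →
    (∀ l ∈ S, ¬ d.Dom l) → (∏ l ∈ S, l ^ k l) ^ 8 ≤ N →
    (∀ l ∈ S, LS 1 l T (fun X => d.B X Y) (fun X => w l X Y) (fun X => 2 * d.ie l X Y + k l)
      (M l) 2) →
    (∀ X ∈ T, d.Box H N X Y ∧ S ⊆ d.PP X Y ∧ (∀ l ∈ S, 0 ≤ w l X Y) ∧ d.JJ X Y ^ 32 ≤ N) →
    d.QQ Y ^ 4 ≤ N →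
    ∑ X ∈ T, d.WS S w X Y ≤ C * N * (∏ l ∈ S, M l) * Real.log N ^ A := by
  obtain ⟨K, C, hK, hC, h⟩ := xba_shiu
  obtain ⟨C₁, hC₁, h₁⟩ := exp_primes_le (2 * (⌈K⌉₊ + 2))
  set A : ℕ := 2 * (⌈K⌉₊ + 2) with hA
  refine ⟨C * (Real.exp (K * 2) * (C₁ * 7 ^ A)), A, by positivity, ?_⟩
  intro d hd hn H N hs hN S k w M Y T hpS hD hk hLS hT hQ
  have key := h d hd hn H N hs hN S k w M Y T hpS hD hk hLS hT hQ
  have hM0 : 0 ≤ ∏ l ∈ S, M l := prod_nonneg fun l hl => trow_M (hLS l hl)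
  have hPp : ∀ l ∈ Nat.primesLE (N ^ 7) \ S, l.Prime :=
    fun l hl => Nat.prime_of_mem_primesLE (mem_sdiff.1 hl).1
  have hN2 : 2 ≤ N := by omega
  have hK0 : 0 ≤ K := by linarith
  refine key.trans ?_
  have h3 := trow_ms hd hK Y _ (Nat.primesLE (N ^ 7)) hPp fun l hl _ => (mem_sdiff.1 hl).1
  have hω : (((2 * d.n * d.p).natAbs.primeFactors.card : ℕ) : ℝ) ≤ 2 := by
    exact_mod_cast xbb_ω hn hd.prime
  have h4 : N + 1 ≤ N ^ 7 := by
    calc N + 1 ≤ N ^ 2 := by nlinarith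
      _ ≤ N ^ 7 := Nat.pow_le_pow_right (by omega) (by norm_num)
  have h5 : ∑ l ∈ Nat.primesLE (N + 1), (if l ∈ S then 2 else d.aa K l Y) / l ≤
      (K + 2) * ∑ l ∈ Nat.primesLE (N ^ 7), 1 / (l : ℝ) := by
    rw [mul_sum]
    refine le_trans (sum_le_sum fun l _ => ?_) (sum_le_sum_of_subset_of_nonneg
      (Nat.primesLE_mono h4) fun _ _ _ => by positivity)
    rw [mul_one_div]
    refine div_le_div_of_nonneg_right ?_ (by positivity)
    split_ifs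
    · linarith
    · exact trow_aa_le d hK l Y
  have h6 := h₁ (N ^ 7) (by omega)
  have h7 : 0 ≤ ∑ l ∈ Nat.primesLE (N ^ 7), 1 / (l : ℝ) := sum_nonneg fun _ _ => by positivity
  have h8 : K + (K + 2) ≤ (A : ℝ) := by
    have := Nat.le_ceil K
    rw [hA]
    push_cast
    linarith
  rw [Nat.cast_pow, Real.log_pow, mul_pow] at h6
  have h9 : (∏ l ∈ Nat.primesLE (N ^ 7) \ S, d.ms K l Y) *
      Real.exp (∑ l ∈ Nat.primesLE (N + 1), (if l ∈ S then 2 else d.aa K l Y) / l) ≤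
      Real.exp (K * 2) * (C₁ * (7 ^ A * Real.log N ^ A)) := by
    refine (mul_le_mul_of_nonneg_right h3 (by positivity)).trans ?_
    refine le_trans ?_ (mul_le_mul_of_nonneg_left (by exact_mod_cast h6) (by positivity))
    rw [← Real.exp_add, ← Real.exp_add]
    refine Real.exp_le_exp.2 ?_
    nlinarith [mul_le_mul_of_nonneg_right h8 h7, mul_le_mul_of_nonneg_left hω hK0]
  calc _ ≤ C * N * (∏ l ∈ S, M l) * (Real.exp (K * 2) * (C₁ * (7 ^ A * Real.log N ^ A))) :=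
        mul_le_mul_of_nonneg_left h9 (by positivity)
    _ = _ := by ring

theorem xbb_W5 {d : Dt} {l : ℕ} (hl : l.Prime) (hE : ¬ (l : ℤ) ∣ d.E) {X Y : ℤ}
    (hB : d.B X Y ≠ 0) (k : ℕ → ℕ) : 0 ≤ d.wl k l X Y ∧ d.wl k l X Y ≤ d.W5 l X Y := by
  have := Fact.mk hl
  refine ⟨Nat.cast_nonneg _, le_trans ?_ ((tdt_W5 hl X Y).2 (padicValInt.eq_zero_of_not_dvd hE))⟩
  rw [padicValInt.mul (by norm_num) hB, wl]
  exact_mod_cast (by omega)

theorem xbb_zero {d : Dt} {κ : ℕ} (h : d.Good κ) {S : Finset ℕ} {k : ℕ → ℕ} {X Y : ℤ}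
    (hB : d.B X Y ≠ 0) (hS : ∀ l ∈ S, l.Prime ∧ 0 < k l) (h0 : ¬ S ⊆ d.PP X Y) :
    d.WS S (d.wl k) X Y = 0 := by
  obtain ⟨l, hl, hl'⟩ := not_subset.1 h0
  have h1 : ¬ (l : ℤ) ∣ d.B X Y := fun e => hl' (tcn_PP h hB (hS l hl).1 (e.mul_left _))
  have h2 := (hS l hl).2
  rw [WS, prod_eq_zero hl, zero_mul]
  rw [wl, padicValInt.eq_zero_of_not_dvd h1, show 0 + 1 - k l = 0 by omega, Nat.cast_zero]

/-- The count of configurations with a level structure at many split primes. -/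
theorem cnt_lev : ∃ (C : ℝ) (A N₀ : ℕ), 0 < C ∧ ∀ d : Dt, d.Good 0 → d.n.natAbs = 1 →
    ∀ H N : ℕ, d.Sz H N → N₀ ≤ N → ∀ (S : Finset ℕ) (k : ℕ → ℕ), d.p ∈ S →
    (∀ l ∈ S, l.Prime ∧ l ≠ 2 ∧ ¬ (l : ℤ) ∣ d.E ∧ ¬ l ∣ d.G ∧ 0 < k l) →
    ∑ l ∈ S, (l : ℝ) ^ (-(1 / 4 : ℝ)) ≤ 1 → (∏ l ∈ S, l ^ k l) ^ 100 ≤ N →
    (∏ l ∈ S, l ^ k l) ^ 2 ≤ H → ∀ Z : Finset (ℤ × ℤ), (∀ z ∈ Z, d.Box H N z.1 z.2) →
    ∑ z ∈ Z, d.WS S (d.wl k) z.1 z.2 ≤
      C * Real.log N ^ A / (∏ l ∈ S, l ^ k l : ℕ) * N * H := by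
  obtain ⟨C, A, hC, hrow⟩ := xbb_row
  obtain ⟨N₁, hcr⟩ := xba_crude
  obtain ⟨K, hK, hsh⟩ := xbb_sharp
  refine ⟨C * (5 * Real.exp K) + 1, A, N₁ + 3, by positivity,
    fun d hd hn H N hs hN S k hpS hS hS4 hQN hQH Z hZ => ?_⟩
  obtain ⟨Q, hQ⟩ : ∃ Q, Q = ∏ l ∈ S, l ^ k l := ⟨_, rfl⟩
  have hQ0 : 0 < Q := hQ ▸ prod_pos fun l hl => pow_pos (hS l hl).1.pos _
  have hE : ∀ l ∈ S, ¬ (l : ℤ) ∣ d.E := fun l hl => (hS l hl).2.2.1
  have hD : ∀ l ∈ S, ¬ d.Dom l := fun l hl h => by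
    have h1 := (hS l hl).2.2.2.1
    rcases h.2 with h | h
    · rw [padicValNat.eq_zero_of_not_dvd h1] at h
      omega
    · exact h1 h.2
  have hm : ∀ l ∈ S, ¬ (l : ℤ) ∣ d.m := fun l hl e => by
    rcases (tqd_prime (hS l hl).1).dvd_or_dvd e with e | e
    · have := Int.natCast_dvd.1 e
      rw [hn] at this
      exact (hS l hl).1.one_lt.ne' (Nat.dvd_one.1 this)
    · exact (hS l hl).2.2.2.1 (by exact_mod_cast e)
  have hl0 : ∀ l ∈ S, (0 : ℝ) < l := fun l hl => by exact_mod_cast (hS l hl).1.pos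
  have hex : ∀ l ∈ S, _ := fun l hl => hsh d 0 hd l (hS l hl).1 (hS l hl).2.1 (hE l hl)
    (hm l hl) (k l) (hS l hl).2.2.2.2 ((l : ℝ) ^ (1 / 4 : ℝ)) (Real.rpow_pos_of_pos (hl0 l hl) _)
    (le_of_eq (by
      rw [← Real.rpow_natCast, ← Real.rpow_mul (hl0 l hl).le]
      norm_num))
  choose! M hM0 hMp hM hLS using hex
  have hpQ : d.p ≤ Q := by
    refine Nat.le_of_dvd hQ0 (hQ ▸ (dvd_pow_self _ (hS _ hpS).2.2.2.2.ne').trans ?_)
    exact dvd_prod_of_mem (fun l => l ^ k l) hpS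
  rw [← hQ] at hQN hQH ⊢
  have hp2 := hd.prime.two_le
  have hpN : 8 * d.p ≤ N := by
    calc 8 * d.p ≤ 2 ^ 99 * Q := Nat.mul_le_mul (by norm_num) hpQ
      _ ≤ Q ^ 99 * Q := Nat.mul_le_mul_right _ (Nat.pow_le_pow_left (by omega) _)
      _ = Q ^ 100 := by ring
      _ ≤ N := hQN
  have hL1 : 1 ≤ Real.log N := by
    rw [Real.le_log_iff_exp_le (by exact_mod_cast (by omega : 0 < N))]
    have : (3 : ℝ) ≤ N := by exact_mod_cast (by omega : 3 ≤ N)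
    linarith [Real.exp_one_lt_d9]
  have hLA : 1 ≤ Real.log N ^ A := one_le_pow₀ hL1
  have hQ1 : (0 : ℝ) < Q := by exact_mod_cast hQ0
  set Z₀ := Z.filter (fun z => S ⊆ d.PP z.1 z.2) with hZ₀
  have e0 : ∑ z ∈ Z, d.WS S (d.wl k) z.1 z.2 = ∑ z ∈ Z₀, d.WS S (d.wl k) z.1 z.2 :=
    (sum_filter_of_ne fun z hz h0 => by
      by_contra h1
      exact h0 (xbb_zero hd (hZ z hz).ne (fun l hl => ⟨(hS l hl).1, (hS l hl).2.2.2.2⟩) h1)).symm
  rw [e0, ← sum_filter_add_sum_filter_not Z₀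
    (fun z => d.JJ z.1 z.2 ^ 32 ≤ N ∧ d.QQ z.2 ^ 4 ≤ N)]
  have b2 : ∑ z ∈ Z₀.filter (fun z => ¬ (d.JJ z.1 z.2 ^ 32 ≤ N ∧ d.QQ z.2 ^ 4 ≤ N)),
      d.WS S (d.wl k) z.1 z.2 ≤ N * H * Real.log N ^ A / Q := by
    refine le_trans (sum_le_sum fun z hz => ?_) ((hcr d hd hn (hE _ hpS) H N hs (by omega) hpN _
      fun z hz => ⟨hZ z (mem_filter.1 (mem_filter.1 hz).1).1, ?_⟩).trans ?_)
    · have h2 := mem_filter.1 (mem_filter.1 hz).1
      exact WS_le hd (hZ z h2.1).ne h2.2 hD fun l hl =>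
        xbb_W5 (hS l hl).1 (hE l hl) (hZ z h2.1).ne k
    · have := (mem_filter.1 hz).2
      omega
    · calc _ ≤ (N / Q : ℝ) * H * 1 := by
            rw [mul_one]
            exact mul_le_mul_of_nonneg_right (xbb_pow hQ0 hQN) (by positivity)
        _ ≤ (N / Q : ℝ) * H * Real.log N ^ A := by gcongr
        _ = _ := by ring
  set Z₁ := Z₀.filter (fun z => d.JJ z.1 z.2 ^ 32 ≤ N ∧ d.QQ z.2 ^ 4 ≤ N) with hZ₁
  have hF0 : ∀ Y, 0 ≤ ∏ l ∈ S, M l Y := fun Y => prod_nonneg fun l hl => hM0 l hl Y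
  have b1 : ∑ z ∈ Z₁, d.WS S (d.wl k) z.1 z.2 ≤
      ∑ Y ∈ Ico (-(H : ℤ)) (-(H : ℤ) + (2 * H + 1 : ℕ)),
        C * N * (∏ l ∈ S, M l Y) * Real.log N ^ A := by
    rw [← sum_fiberwise_of_maps_to (s := Z₁) (t := Ico (-(H : ℤ)) (-(H : ℤ) + (2 * H + 1 : ℕ)))
      (g := fun z => z.2) (fun z hz => by
        have := abs_le.1 (hZ z (mem_filter.1 (mem_filter.1 hz).1).1).y
        refine mem_Ico.2 ⟨this.1, ?_⟩
        push_cast
        omega)]
    refine sum_le_sum fun Y _ => ?_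
    rcases (Z₁.filter fun z => z.2 = Y).eq_empty_or_nonempty with h0 | ⟨z₀, hz₀⟩
    · have := hF0 Y
      rw [h0, sum_empty]
      positivity
    have hz₁ := mem_filter.1 hz₀
    have hz₂ := mem_filter.1 hz₁.1
    have hmem : ∀ X ∈ (Z₁.filter fun z => z.2 = Y).image Prod.fst, (X, Y) ∈ Z₁ := by
      intro X hX
      obtain ⟨z, hz, rfl⟩ := mem_image.1 hX
      obtain ⟨h2, rfl⟩ := mem_filter.1 hz
      exact h2
    have h2 := hrow d hd hn H N hs (by omega) S k (d.wl k) (fun l => M l Y) Y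
      ((Z₁.filter fun z => z.2 = Y).image Prod.fst) hpS hD
      (hQ ▸ (Nat.pow_le_pow_right hQ0 (by norm_num)).trans hQN)
      (fun l hl => (hLS l hl Y).mono le_rfl
        (fun X hX => (hZ _ (mem_filter.1 (mem_filter.1 (hmem X hX)).1).1).ne)
        (fun _ _ => le_rfl) (fun _ _ => Nat.le_add_left _ _) le_rfl le_rfl)
      (fun X hX => by
        have h3 := mem_filter.1 (hmem X hX)
        have h4 := mem_filter.1 h3.1
        exact ⟨hZ _ h4.1, h4.2, fun l _ => Nat.cast_nonneg _, h3.2.1⟩)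
      (hz₁.2 ▸ hz₂.2.2)
    rw [sum_image (fun x hx y hy hxy => Prod.ext hxy
      ((mem_filter.1 hx).2.trans (mem_filter.1 hy).2.symm))] at h2
    exact le_trans (le_of_eq (sum_congr rfl fun z hz => by rw [(mem_filter.1 hz).2])) h2
  have eQ : ∏ l ∈ S, l ^ (2 * k l) = Q ^ 2 := by
    rw [hQ, ← prod_pow]
    exact prod_congr rfl fun l _ => by ring
  have c1 := sum_period_prod S (fun l hl => (hS l hl).1) (fun l => 2 * k l) M hMp
  rw [eQ] at c1
  have c2 : ∏ l ∈ S, ∑ r ∈ range (l ^ (2 * k l)), M l r ≤ Q * Real.exp K := by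
    calc _ ≤ ∏ l ∈ S, (((l ^ k l : ℕ) : ℝ) * Real.exp (K * (l : ℝ) ^ (-(1 / 4 : ℝ)))) := by
          refine prod_le_prod (fun l hl => sum_nonneg fun r _ => hM0 l hl r) fun l hl => ?_
          have h0 := hl0 l hl
          refine (hM l hl).trans ?_
          have := Real.add_one_le_exp (K * (l : ℝ) ^ (-(1 / 4 : ℝ)))
          calc _ = (l : ℝ) ^ k l * (K * (l : ℝ) ^ (-(1 / 4 : ℝ)) + 1) := by
                rw [two_mul, pow_add, Real.rpow_neg h0.le]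
                field_simp
                ring
            _ ≤ _ := by push_cast; gcongr
      _ ≤ _ := by
          rw [prod_mul_distrib, ← Nat.cast_prod, ← hQ, ← Real.exp_sum, ← mul_sum]
          exact mul_le_mul_of_nonneg_left
            (Real.exp_le_exp.2 (mul_le_of_le_one_right hK.le hS4)) hQ1.le
  have c3 := sum_le_period (q := Q ^ 2) (pow_pos hQ0 2) (F := fun Y => ∏ l ∈ S, M l Y) hF0
    (fun x y e => prod_congr rfl fun l hl => hMp l hl x y (dvd_trans (by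
      rw [← eQ]
      exact_mod_cast dvd_prod_of_mem (fun l => l ^ (2 * k l)) hl) e)) (-(H : ℤ)) (2 * H + 1)
  rw [c1] at c3
  have c4 : (((2 * H + 1 : ℕ) : ℝ) / ((Q ^ 2 : ℕ) : ℝ) + 1) * (Q * Real.exp K) ≤
      5 * Real.exp K * H / Q := by
    have h1 : ((Q : ℝ)) ^ 2 ≤ H := by exact_mod_cast hQH
    have h2 : (1 : ℝ) ≤ H := by exact_mod_cast hs.one
    have h3 : (((2 * H + 1 : ℕ) : ℝ) / ((Q ^ 2 : ℕ) : ℝ) + 1) ≤ 5 * H / (Q : ℝ) ^ 2 := by
      push_cast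
      rw [div_add_one (by positivity)]
      exact div_le_div_of_nonneg_right (by linarith) (by positivity)
    refine (mul_le_mul_of_nonneg_right h3 (by positivity)).trans (le_of_eq ?_)
    field_simp
  have c5 := c3.trans ((mul_le_mul_of_nonneg_left c2 (by positivity)).trans c4)
  rw [← sum_mul, ← mul_sum] at b1
  calc _ ≤ C * N * (5 * Real.exp K * H / Q) * Real.log N ^ A + N * H * Real.log N ^ A / Q :=
        add_le_add (b1.trans (by gcongr)) b2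
    _ = _ := by ring

theorem xbb_mono {q q' : ℕ} (h : q ∣ q') {b₀ : ℤ} {Θ η₁ η₂ : M2} (hl : Lvl q' b₀ Θ η₁ η₂) :
    Lvl q b₀ Θ η₁ η₂ := by
  obtain ⟨v, r, s, l₁, l₂, a1, a2, a3, a4⟩ := hl
  have e : (q : ℤ) ∣ q' := Int.natCast_dvd_natCast.2 h
  exact ⟨v, r, s, l₁, l₂, e.trans a1, fun i => (mul_dvd_mul_left 2 e).trans (a2 i),
    fun i => e.trans (a3 i), fun i => e.trans (a4 i)⟩

theorem xbb_lev {d : Dt} {κ : ℕ} (h : d.Good κ) {l : ℕ} (hl : l.Prime) (h2 : l ≠ 2)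
    (hE : jacobiSym d.E l = 1) (k : ℕ) (b₀ : ℤ) {X Y : ℤ} (hB : d.B X Y ≠ 0) :
    Few (Leq l) (d.CS X Y (Lvl (l ^ k) b₀)) ((padicValInt l (d.B X Y) + 1 - k : ℕ) : ℝ) :=
  (twt_lev (d := ⟨d.a, d.b, d.c, d.n, d.g₁, d.g₂, l⟩) (κ := padicValNat l d.G)
    ⟨h.a_pos, h.E_neg, h.prim, h.n_ne, h.g₁_pos, h.g₂_pos, h.cop, hl, le_rfl⟩ h2 hE k b₀
    (X := X) (Y := Y) hB).mono
    (fun _ ⟨η₂, c1, c2, c3⟩ => ⟨η₂, ⟨c1.th, c1.r₁, c1.r₂, c1.det, c1.t₁, c1.t₂⟩, c2, c3⟩) le_rfl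

theorem few_levs {d : Dt} {κ : ℕ} (h : d.Good κ) (S : Finset ℕ) (k : ℕ → ℕ)
    (hS : ∀ l ∈ S, l.Prime ∧ l ≠ 2 ∧ jacobiSym d.E l = 1 ∧ 0 < k l) (b₀ : ℤ) {X Y : ℤ}
    (hB : d.B X Y ≠ 0) :
    Few Geq (d.CS X Y (Lvl (∏ l ∈ S, l ^ k l) b₀)) (d.WS S (d.wl k) X Y) := by
  have hdv : ∀ l ∈ S, l ^ k l ∣ ∏ l ∈ S, l ^ k l := fun l hl =>
    dvd_prod_of_mem (fun l => l ^ k l) hl
  by_cases h0 : S ⊆ d.PP X Y
  · have := twt_global h hB (R := Lvl (∏ l ∈ S, l ^ k l) b₀)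
      (fun l => if l ∈ S then d.wl k l X Y else d.Wt l X Y) (by
        intro l hl
        split_ifs with h3
        · obtain ⟨a1, a2, a3, -⟩ := hS l h3
          refine (xbb_lev h a1 a2 a3 (k l) b₀ hB).mono ?_ le_rfl
          rintro P ⟨η₂, c1, c2, c3⟩
          exact ⟨η₂, c1, c2, xbb_mono (hdv l h3) c3⟩
        · refine (few_Wt h (Nat.prime_of_mem_primeFactors hl) hB).mono ?_ le_rfl
          rintro P ⟨η₂, c1, c2, -⟩
          exact ⟨η₂, c1, c2, trivial⟩)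
    refine this.mono subset_rfl (le_of_eq ?_)
    rw [WS, ← prod_sdiff h0, mul_comm, prod_congr rfl fun l hl => if_pos hl,
      prod_congr rfl fun l hl => if_neg (mem_sdiff.1 hl).2]
  · rw [xbb_zero h hB (fun l hl => ⟨(hS l hl).1, (hS l hl).2.2.2⟩) h0]
    obtain ⟨l, hl, hl'⟩ := not_subset.1 h0
    obtain ⟨a1, a2, -, a5⟩ := hS l hl
    intro T hT _
    have : T = ∅ := by
      refine eq_empty_of_forall_notMem fun P hP => hl' (tcn_PP h hB a1 (Dvd.dvd.mul_left ?_ _))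
      have h1 := (levC_of_lvl h (prod_pos fun l hl => pow_pos (hS l hl).1.pos _) (hT P hP)).1
      have h3 : (l : ℤ) ∣ 4 * d.B X Y :=
        (Int.natCast_dvd_natCast.2 ((dvd_pow_self l a5.ne').trans (hdv l hl))).trans h1
      exact ((tqd_prime a1).dvd_or_dvd h3).resolve_left (twt_four a1 a2)
    rw [this]
    simp

end Dt

end Pool.Agent.EQ
end
end

-- part Pool.Agent.P.MP_ad7a55_nt.XHb
section

/-! Few fields have few small split primes. -/

set_option autoImplicit false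

noncomputable section

open Finset
open scoped Classical ArithmeticFunction.vonMangoldt

namespace Pool.Agent.EQ

theorem xhb_nsq {m m' : ℕ} (h : Squarefree m) (h' : Squarefree m') (hne : m ≠ m') :
    ¬ IsSquare ((m : ℤ) * m') := by
  intro hs
  have hs' : IsSquare (m * m') := by
    rw [← Nat.cast_mul] at hs
    exact Int.isSquare_natCast_iff.1 hs
  obtain ⟨s, hs'⟩ := hs'
  have h1 : m ∣ s := (h.dvd_pow_iff_dvd (n := 2) (by norm_num)).1 ⟨m', by rw [sq, ← hs']⟩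
  obtain ⟨a, rfl⟩ := h1
  have h2 : m' = m * (a * a) :=
    Nat.eq_of_mul_eq_mul_left (Nat.pos_of_ne_zero h.ne_zero) (by rw [hs']; ring)
  have h3 : a = 1 := Nat.isUnit_iff.1 (h' a ⟨m, by rw [h2]; ring⟩)
  rw [h3, mul_one, mul_one] at h2
  exact hne h2.symm

theorem xhb_neg {m : ℕ} (h : m ≠ 0) : ¬ IsSquare (-(m : ℤ)) := by
  rintro ⟨s, hs⟩
  have h1 := mul_self_nonneg s
  omega

theorem xhb_jc_mul (a b : ℤ) (n : ℕ) : jc (-a) n * jc (-b) n = jc (a * b) n := by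
  unfold jc
  split_ifs
  · rw [← Int.cast_mul, ← jacobiSym.mul_left, neg_mul_neg]
  · rw [mul_zero]

theorem xhb_fib {k : ℕ} {P : Finset ℕ} (hP : ∀ p ∈ P, p.Prime) (n : ℕ) :
    #{t ∈ Fintype.piFinset fun _ : Fin k => P | ∏ i, t i = n} ≤ k ^ k := by
  rcases eq_empty_or_nonempty {t ∈ Fintype.piFinset fun _ : Fin k => P | ∏ i, t i = n} with h | h
  · rw [h, card_empty]
    exact Nat.zero_le _
  obtain ⟨u, hu⟩ := h
  obtain ⟨h1, h2⟩ := mem_filter.1 hu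
  refine (card_le_card (t := Fintype.piFinset fun _ : Fin k => univ.image u) fun t ht => ?_).trans ?_
  · obtain ⟨h3, h4⟩ := mem_filter.1 ht
    refine Fintype.mem_piFinset.2 fun i => ?_
    have h5 := hP _ (Fintype.mem_piFinset.1 h3 i)
    have h6 : t i ∣ ∏ j, u j := by
      rw [h2, ← h4]
      exact dvd_prod_of_mem _ (mem_univ i)
    obtain ⟨j, -, hj⟩ := (Prime.dvd_finsetProd_iff h5.prime _).1 h6
    exact mem_image.2 ⟨j, mem_univ j,
      ((Nat.prime_dvd_prime_iff_eq h5 (hP _ (Fintype.mem_piFinset.1 h1 j))).1 hj).symm⟩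
  · rw [Fintype.card_piFinset, prod_const, card_univ, Fintype.card_fin]
    refine Nat.pow_le_pow_left (card_image_le.trans ?_) k
    rw [card_univ, Fintype.card_fin]

theorem xhb_sq (X Z : ℕ) (M : Finset ℕ) (hM : ∀ m ∈ M, Squarefree m ∧ m ≤ X) :
    ∑ n ∈ Icc 1 Z, (∑ m ∈ M, jc (-(m : ℤ)) n) ^ 2 ≤ #M * (Z + #M * (4 * (X : ℝ) ^ 2)) := by
  simp_rw [sq (∑ m ∈ M, _), sum_mul_sum]
  rw [sum_comm, ← nsmul_eq_mul]
  refine sum_le_card_nsmul _ _ _ fun m hm => ?_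
  rw [sum_comm]
  have hX : (0 : ℝ) ≤ 4 * (X : ℝ) ^ 2 := by positivity
  calc _ ≤ ∑ m' ∈ M, ((if m = m' then (Z : ℝ) else 0) + 4 * (X : ℝ) ^ 2) := by
        refine sum_le_sum fun m' hm' => ?_
        by_cases e : m = m'
        · subst e
          rw [if_pos rfl]
          refine le_add_of_le_of_nonneg ((sum_le_card_nsmul _ _ 1 fun n _ => ?_).trans_eq ?_) hX
          · rcases (rc_jc (xhb_neg (hM m hm).1.ne_zero)).val n with e | e | e <;> rw [e] <;> norm_num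
          · simp
        · rw [if_neg e, zero_add]
          simp_rw [xhb_jc_mul]
          refine (le_abs_self _).trans
            (((rc_jc (xhb_nsq (hM m hm).1 (hM m' hm').1 e)).bd Z).trans ?_)
          rw [Int.natAbs_mul, Int.natAbs_natCast, Int.natAbs_natCast]
          have := Nat.mul_le_mul (hM m hm).2 (hM m' hm').2
          have h2 : 4 * (m * m') ≤ 4 * X ^ 2 := by rw [sq]; omega
          exact_mod_cast h2
    _ = _ := by rw [sum_add_distrib, sum_ite_eq, if_pos hm, sum_const, nsmul_eq_mul]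

theorem sieve_pow (X z k : ℕ) (hk : 0 < k) (P M : Finset ℕ) (hP : ∀ p ∈ P, p.Prime ∧ p ≤ z)
    (hM : ∀ m ∈ M, Squarefree m ∧ m ≤ X ∧ ∑ p ∈ P, jc (-(m : ℤ)) p ≤ -(#P : ℝ) / 2)
    (h : 8 * (X : ℝ) ^ 2 ≤ (#P / (4 * k : ℝ)) ^ k) (h0 : P.Nonempty) :
    (#M : ℝ) ≤ 2 * (4 * k * z / #P) ^ k := by
  have hN : (0 : ℝ) < #P := by exact_mod_cast h0.card_pos
  have hk0 : (0 : ℝ) < k := by exact_mod_cast hk
  rcases M.eq_empty_or_nonempty with rfl | hMne
  · rw [card_empty, Nat.cast_zero]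
    positivity
  have hR : (0 : ℝ) < #M := by exact_mod_cast hMne.card_pos
  obtain ⟨T, hT⟩ : ∃ T, T = Fintype.piFinset fun _ : Fin k => P := ⟨_, rfl⟩
  obtain ⟨F, hF⟩ : ∃ F : ℕ → ℝ, F = fun n => ∑ m ∈ M, jc (-(m : ℤ)) n := ⟨_, rfl⟩
  have e1 : ∑ m ∈ M, (∑ p ∈ P, jc (-(m : ℤ)) p) ^ k = ∑ t ∈ T, F (∏ i, t i) := by
    rw [hF]
    beta_reduce
    rw [sum_comm]
    refine sum_congr rfl fun m hm => ?_
    have hr := rc_jc (xhb_neg (hM m hm).1.ne_zero)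
    rw [← Fin.prod_const, prod_univ_sum, ← hT]
    refine sum_congr rfl fun t _ => ?_
    exact (map_prod (⟨⟨jc (-(m : ℤ)), hr.one⟩, hr.mul⟩ : ℕ →* ℝ) t univ).symm
  have e2 : (#M : ℝ) * (#P / 2) ^ k ≤ (-1) ^ k * ∑ t ∈ T, F (∏ i, t i) := by
    rw [← e1, mul_sum, ← nsmul_eq_mul]
    refine card_nsmul_le_sum _ _ _ fun m hm => ?_
    rw [← mul_pow]
    refine pow_le_pow_left₀ (by positivity) ?_ k
    have := (hM m hm).2.2
    linarith
  have e3 : ((#M : ℝ) * (#P / 2) ^ k) ^ 2 ≤ (∑ t ∈ T, F (∏ i, t i)) ^ 2 := by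
    refine (pow_le_pow_left₀ (by positivity) e2 2).trans_eq ?_
    rw [mul_pow, ← pow_mul, mul_comm k 2, pow_mul, neg_one_sq, one_pow, one_mul]
  have e4 : ∑ t ∈ T, F (∏ i, t i) ^ 2 ≤ (k : ℝ) ^ k * ∑ n ∈ Icc 1 (z ^ k), F n ^ 2 := by
    rw [← sum_fiberwise_of_maps_to (s := T) (t := Icc 1 (z ^ k)) (g := fun t => ∏ i, t i), mul_sum]
    · refine sum_le_sum fun n _ => ?_
      rw [sum_congr rfl (g := fun _ => F n ^ 2) fun t ht => by rw [(mem_filter.1 ht).2], sum_const,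
        nsmul_eq_mul]
      refine mul_le_mul_of_nonneg_right ?_ (sq_nonneg _)
      rw [hT]
      exact_mod_cast xhb_fib (k := k) (fun p hp => (hP p hp).1) n
    · intro t ht
      rw [hT, Fintype.mem_piFinset] at ht
      refine mem_Icc.2 ⟨prod_pos fun i _ => (hP _ (ht i)).1.pos, ?_⟩
      refine (prod_le_pow_card _ _ z fun i _ => (hP _ (ht i)).2).trans_eq ?_
      rw [card_univ, Fintype.card_fin]
  have e5 : (#T : ℝ) = (#P : ℝ) ^ k := by
    rw [hT, Fintype.card_piFinset, prod_const, card_univ, Fintype.card_fin, Nat.cast_pow]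
  have e6 := xhb_sq X (z ^ k) M fun m hm => ⟨(hM m hm).1, (hM m hm).2.1⟩
  have e7 : ((#M : ℝ) * (#P / 2) ^ k) ^ 2 ≤
      (#P : ℝ) ^ k * ((k : ℝ) ^ k * (#M * ((z : ℝ) ^ k + #M * (4 * (X : ℝ) ^ 2)))) := by
    refine e3.trans (sq_sum_le_card_mul_sum_sq.trans ?_)
    rw [e5]
    refine mul_le_mul_of_nonneg_left (e4.trans (mul_le_mul_of_nonneg_left ?_ (by positivity)))
      (by positivity)
    rw [hF, ← Nat.cast_pow z]
    exact e6
  obtain ⟨a, ha⟩ : ∃ a : ℝ, a = (#P / (4 * k : ℝ)) ^ k := ⟨_, rfl⟩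
  have ha0 : 0 < a := by rw [ha]; positivity
  have e8 : ((#M : ℝ) * (#P / 2) ^ k) ^ 2 = (#P : ℝ) ^ k * ((k : ℝ) ^ k * (#M * (#M * a))) := by
    have : (((#P : ℝ) / 2) ^ k) ^ 2 = (#P : ℝ) ^ k * ((k : ℝ) ^ k * a) := by
      rw [ha, ← mul_pow, ← mul_pow, ← pow_mul, mul_comm k 2, pow_mul]
      congr 1
      field_simp
      ring
    rw [mul_pow, this]
    ring
  rw [e8] at e7
  have e9 := le_of_mul_le_mul_left (le_of_mul_le_mul_left (le_of_mul_le_mul_left e7 (by positivity))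
    (by positivity)) hR
  have e10 : (4 * k * z / #P : ℝ) ^ k = (z : ℝ) ^ k / a := by
    rw [ha, ← div_pow]
    congr 1
    field_simp
  rw [← ha] at h
  rw [e10, ← mul_div_assoc, le_div_iff₀ ha0]
  nlinarith [mul_le_mul_of_nonneg_left h hR.le]

theorem cheb_low : ∃ z₀ : ℕ, ∀ z : ℕ, z₀ ≤ z →
    (z : ℝ) ≤ 4 * Real.log z * #((Nat.primesLE z).filter fun p => p ≠ 2) := by
  refine ⟨64, fun z hz => ?_⟩
  have hz' : (64 : ℝ) ≤ z := by exact_mod_cast hz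
  have h1 := (Chebyshev.psi_ge z).trans (Chebyshev.psi_le_primeCounting_mul_log z)
  have h2 : (Nat.primeCounting z : ℝ) ≤ #((Nat.primesLE z).filter fun p => p ≠ 2) + 1 := by
    rw [← Nat.primesLE_card_eq_primeCounting, filter_ne']
    exact_mod_cast (by have := pred_card_le_card_erase (s := Nat.primesLE z) (a := 2); omega)
  have h3 : 0 ≤ Real.log z := Real.log_nonneg (by linarith)
  have h4 : Real.log z ≤ Real.log (z + 1) := Real.log_le_log (by linarith) (by linarith)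
  have h5 : Real.log (z + 1) ≤ (z + 1) / 64 - 1 + 6 * Real.log 2 := by
    have e : Real.log (z + 1) = Real.log ((z + 1) / 64) + 6 * Real.log 2 := by
      rw [Real.log_div (by linarith) (by norm_num), show (64 : ℝ) = 2 ^ 6 by norm_num, Real.log_pow]
      push_cast
      ring
    rw [e]
    have := Real.log_le_sub_one_of_pos (x := ((z : ℝ) + 1) / 64) (by linarith)
    linarith
  have h6 := Real.log_two_gt_d9
  have h7 := Real.log_two_lt_d9
  have h8 := mul_le_mul_of_nonneg_right h2 h3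
  have h9 : (z : ℝ) * (1 / 2) ≤ z * Real.log 2 := mul_le_mul_of_nonneg_left (by linarith) (by linarith)
  nlinarith

theorem xhb_sum {m z : ℕ} (hm : m ≠ 0) :
    ∑ p ∈ (Nat.primesLE z).filter fun p => p ≠ 2, jc (-(m : ℤ)) p ≤
      2 * nSp m z + 2 * Real.log m - #((Nat.primesLE z).filter fun p => p ≠ 2) := by
  obtain ⟨P, hP⟩ : ∃ P, P = (Nat.primesLE z).filter fun p => p ≠ 2 := ⟨_, rfl⟩
  rw [← hP]
  have h1 : (#{p ∈ P | jacobiSym (-(m : ℤ)) p = 1} : ℝ) ≤ nSp m z := by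
    rw [hP]
    exact_mod_cast card_le_card (filter_subset_filter _ (filter_subset _ _))
  have h2 : (#{p ∈ P | p ∣ m} : ℝ) ≤ 2 * Real.log m := by
    have a1 : #{p ∈ P | p ∣ m} ≤ #m.primeFactors := card_le_card fun p hp => by
      obtain ⟨b1, b2⟩ := mem_filter.1 hp
      rw [hP] at b1
      exact Nat.mem_primeFactors.2 ⟨Nat.prime_of_mem_primesLE (mem_filter.1 b1).1, b2, hm⟩
    have a2 : 2 ^ #m.primeFactors ≤ m :=
      (pow_card_le_prod _ _ _ fun p hp => (Nat.prime_of_mem_primeFactors hp).two_le).trans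
        (Nat.le_of_dvd (Nat.pos_of_ne_zero hm) (Nat.prod_primeFactors_dvd m))
    have a3 : Real.log ((2 : ℝ) ^ #m.primeFactors) ≤ Real.log m :=
      Real.log_le_log (by positivity) (by exact_mod_cast a2)
    rw [Real.log_pow] at a3
    have a4 : (#{p ∈ P | p ∣ m} : ℝ) ≤ #m.primeFactors := by exact_mod_cast a1
    have a5 := Real.log_two_gt_d9
    have a6 : (0 : ℝ) ≤ #m.primeFactors := Nat.cast_nonneg _
    nlinarith
  calc _ ≤ ∑ p ∈ P, (2 * (if jacobiSym (-(m : ℤ)) p = 1 then (1 : ℝ) else 0) +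
        (if p ∣ m then (1 : ℝ) else 0) - 1) := by
        refine sum_le_sum fun p hp => ?_
        rw [hP, mem_filter] at hp
        have hp1 := Nat.prime_of_mem_primesLE hp.1
        rw [jc, if_pos (hp1.odd_of_ne_two hp.2)]
        rcases jacobiSym.trichotomy (-(m : ℤ)) p with e | e | e
        · have b1 := (jacobiSym.eq_zero_iff.1 e).2
          rw [Int.neg_gcd, Int.gcd_natCast_natCast] at b1
          have b2 : p ∣ m := by
            by_contra b3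
            exact b1 ((Nat.Prime.coprime_iff_not_dvd hp1).2 b3).symm
          rw [e, if_pos b2]
          norm_num
        · rw [e]
          split_ifs <;> norm_num at *
        · rw [e]
          split_ifs <;> norm_num at *
    _ ≤ _ := by
        rw [sum_sub_distrib, sum_add_distrib, ← mul_sum, sum_boole, sum_boole, sum_const,
          nsmul_eq_mul, mul_one]
        linarith

theorem xhb_block {z₀ : ℕ} (hz : ∀ z : ℕ, z₀ ≤ z →
      (z : ℝ) ≤ 4 * Real.log z * #((Nat.primesLE z).filter fun p => p ≠ 2)) {X T D r : ℕ}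
    (hr : 0 < r) (hD : 4 * r ≤ D) (h1 : z₀ ≤ T) (h2 : 4 * (D + 4) ≤ T) (h3 : T ≤ X)
    (h4 : 24 * Real.log X ≤ (T : ℝ) ^ 2) {M : Finset ℕ}
    (hM : ∀ m ∈ M, Squarefree m ∧ m ≤ X ∧ Real.log m ≤ 2 * T ∧ nSp m (T ^ (D + 4)) ≤ 2 * T) :
    (#M : ℝ) ≤ 192 * (D + 4) * Real.log X ^ 2 * (X : ℝ) ^ (3 / r : ℝ) := by
  have hT : (16 : ℝ) ≤ T := by exact_mod_cast (by omega : 16 ≤ T)
  have hX : (T : ℝ) ≤ X := by exact_mod_cast h3
  have hD' : 4 * ((D : ℝ) + 4) ≤ T := by exact_mod_cast h2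
  have hD0 : (0 : ℝ) ≤ D := Nat.cast_nonneg _
  have hl2 := Real.log_two_gt_d9
  have hL : 1 ≤ Real.log X := by
    have : Real.log ((2 : ℝ) ^ 2) ≤ Real.log X := Real.log_le_log (by norm_num) (by linarith)
    rw [Real.log_pow] at this
    push_cast at this
    linarith
  have hlT : Real.log T ≤ Real.log X := Real.log_le_log (by linarith) hX
  have hlT' : Real.log T ≤ T := (Real.log_le_sub_one_of_pos (by linarith)).trans (by linarith)
  have hlT0 : 0 ≤ Real.log T := Real.log_nonneg (by linarith)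
  have hc := hz (T ^ (D + 4)) (h1.trans (Nat.le_self_pow (by omega) T))
  have hs := fun m (hm : m ∈ M) => xhb_sum (z := T ^ (D + 4)) (hM m hm).1.ne_zero
  obtain ⟨P, hP⟩ : ∃ P, P = (Nat.primesLE (T ^ (D + 4))).filter fun p => p ≠ 2 := ⟨_, rfl⟩
  rw [← hP] at hc hs
  rw [Nat.cast_pow, Real.log_pow, Nat.cast_add, Nat.cast_ofNat] at hc
  have hP0 : (0 : ℝ) ≤ #P := Nat.cast_nonneg _
  have hb : 4 * (((D : ℝ) + 4) * Real.log T) ≤ (T : ℝ) ^ 2 := by nlinarith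
  have hN : (T : ℝ) ^ (D + 2) ≤ #P := by
    refine le_of_mul_le_mul_left (a := (T : ℝ) ^ 2) ?_ (by positivity)
    refine le_trans (le_of_eq (by ring)) (hc.trans (mul_le_mul_of_nonneg_right hb hP0))
  have hTD : (1 : ℝ) ≤ (T : ℝ) ^ D := one_le_pow₀ (by linarith)
  have hN' : 16 * (T : ℝ) ≤ #P := by
    refine le_trans ?_ hN
    rw [pow_add]
    nlinarith
  have hPpos : (0 : ℝ) < #P := by linarith
  have hex : ∃ k : ℕ, 8 * X ^ 2 ≤ (T ^ D) ^ k :=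
    ⟨8 * X ^ 2, (Nat.lt_pow_self (Nat.one_lt_pow (by omega) (by omega))).le⟩
  obtain ⟨k, hk1, hk2⟩ : ∃ k : ℕ, 8 * X ^ 2 ≤ (T ^ D) ^ (k + 1) ∧ (T ^ D) ^ k ≤ X ^ 3 := by
    have a1 := Nat.find_spec hex
    have a0 : 0 < X ^ 2 := Nat.pow_pos (by omega)
    have a2 : Nat.find hex ≠ 0 := fun e => by
      rw [e, pow_zero] at a1
      omega
    obtain ⟨k, hk⟩ := Nat.exists_eq_succ_of_ne_zero a2
    refine ⟨k, by rw [hk] at a1; exact a1, ?_⟩
    have a3 := not_le.1 (Nat.find_min hex (m := k) (by omega))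
    refine a3.le.trans ?_
    rw [pow_succ' X 2]
    exact Nat.mul_le_mul_right _ (by omega)
  have hkL : 4 * ((k + 1 : ℕ) : ℝ) ≤ 24 * Real.log X := by
    have a1 : 2 ^ k ≤ X ^ 3 := le_trans (Nat.pow_le_pow_left
      (le_trans (by omega) (Nat.le_self_pow (by omega : D ≠ 0) T)) k) hk2
    have a2 : Real.log ((2 : ℝ) ^ k) ≤ Real.log ((X : ℝ) ^ 3) :=
      Real.log_le_log (by positivity) (by exact_mod_cast a1)
    rw [Real.log_pow, Real.log_pow] at a2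
    have a3 : (0 : ℝ) ≤ k := Nat.cast_nonneg _
    push_cast at a2 ⊢
    nlinarith
  have hk0 : (0 : ℝ) < 4 * ((k + 1 : ℕ) : ℝ) := by positivity
  have key := sieve_pow X (T ^ (D + 4)) (k + 1) (Nat.succ_pos k) P M
    (fun p hp => by
      rw [hP] at hp
      exact (Nat.mem_primesLE.1 (mem_filter.1 hp).1).symm)
    (fun m hm => ⟨(hM m hm).1, (hM m hm).2.1, by
      have a1 := hs m hm
      have a2 := (hM m hm).2.2.1
      have a3 : (nSp m (T ^ (D + 4)) : ℝ) ≤ 2 * T := by exact_mod_cast (hM m hm).2.2.2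
      linarith⟩)
    (by
      have a1 : 8 * (X : ℝ) ^ 2 ≤ ((T : ℝ) ^ D) ^ (k + 1) := by exact_mod_cast hk1
      refine a1.trans (pow_le_pow_left₀ (by positivity) ?_ _)
      rw [le_div_iff₀ hk0]
      refine le_trans ?_ hN
      rw [pow_add]
      exact mul_le_mul_of_nonneg_left (hkL.trans h4) (by positivity))
    (card_pos.1 (by exact_mod_cast hPpos))
  obtain ⟨B, hB⟩ : ∃ B : ℝ, B = 4 * ((k + 1 : ℕ) : ℝ) * ((T ^ (D + 4) : ℕ) : ℝ) / #P := ⟨_, rfl⟩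
  rw [← hB] at key
  have hB0 : 0 ≤ B := by rw [hB]; positivity
  have hB1 : B ≤ 24 * Real.log X * (4 * (((D : ℝ) + 4) * Real.log T)) := by
    rw [hB, mul_div_assoc]
    refine mul_le_mul hkL ?_ (by positivity) (by positivity)
    rw [div_le_iff₀ hPpos, Nat.cast_pow]
    exact hc
  have hB2 : B ≤ (T : ℝ) ^ 4 := by
    refine hB1.trans ((mul_le_mul h4 hb (by positivity) (by positivity)).trans_eq (by ring))
  have hB3 : B ≤ 96 * (D + 4) * Real.log X ^ 2 := by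
    refine hB1.trans ?_
    have : 24 * Real.log X * (4 * (((D : ℝ) + 4) * Real.log T)) ≤
        24 * Real.log X * (4 * (((D : ℝ) + 4) * Real.log X)) := by gcongr
    linarith
  have hB4 : B ^ k ≤ (X : ℝ) ^ (3 / r : ℝ) := by
    refine (pow_le_pow_left₀ hB0 hB2 k).trans ?_
    have a1 : ((T ^ 4) ^ k) ^ r ≤ X ^ 3 := by
      refine le_trans ?_ hk2
      rw [← pow_mul, ← pow_mul, ← pow_mul]
      exact Nat.pow_le_pow_right (by omega) (by nlinarith)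
    have a2 : (((T : ℝ) ^ 4) ^ k) ^ r ≤ ((X : ℝ) ^ (3 / r : ℝ)) ^ r := by
      rw [← Real.rpow_natCast ((X : ℝ) ^ (3 / r : ℝ)), ← Real.rpow_mul (by positivity),
        div_mul_cancel₀ _ (by positivity), show (3 : ℝ) = (3 : ℕ) by norm_num, Real.rpow_natCast]
      exact_mod_cast a1
    exact le_of_pow_le_pow_left₀ hr.ne' (by positivity) a2
  rw [pow_succ] at key
  have := mul_le_mul hB4 hB3 hB0 (by positivity)
  linarith

theorem few_medium {ε : ℝ} (hε : 0 < ε) : ∃ A₀ : ℕ, ∀ A : ℕ, A₀ ≤ A → ∃ C : ℝ, ∀ X : ℕ,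
    (({m : ℕ | Squarefree m ∧ ∃ t : ℕ, Real.log m ≤ t ∧ t < m ∧ nSp m (t ^ A) < t} ∩
      Set.Iic X).ncard : ℝ) ≤ C * (X : ℝ) ^ ε := by
  obtain ⟨z₀, hz⟩ := cheb_low
  obtain ⟨r, hr⟩ := exists_nat_gt (6 / ε)
  have hr0 : (0 : ℝ) < r := lt_trans (by positivity) hr
  have hr1 : (3 / r : ℝ) ≤ ε / 2 := by
    rw [div_lt_iff₀ hε] at hr
    rw [div_le_iff₀ hr0]
    linarith
  refine ⟨4 * r + 4, fun A hA => ?_⟩
  obtain ⟨D, rfl⟩ : ∃ D, A = D + 4 := ⟨A - 4, by omega⟩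
  obtain ⟨W, hW⟩ : ∃ W : ℝ, W = (z₀ + 4 * (D + 4)) / (ε / 2) + 24 / (ε / 2) ^ 2 + 1 := ⟨_, rfl⟩
  obtain ⟨X₀, hX₀⟩ := exists_nat_gt (Real.exp W)
  obtain ⟨C₁, hC₁⟩ : ∃ C₁ : ℝ, C₁ = 576 * (D + 4) / (ε / 6) ^ 3 := ⟨_, rfl⟩
  have hC0 : 0 ≤ C₁ := by rw [hC₁]; positivity
  refine ⟨X₀ + 2 + C₁, fun X => ?_⟩
  rcases Nat.eq_zero_or_pos X with rfl | hX
  · rw [Set.eq_empty_of_forall_notMem (s := _ ∩ _), Set.ncard_empty, Nat.cast_zero]
    · positivity
    · rintro m ⟨h1, h2⟩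
      exact h1.1.ne_zero (Nat.le_zero.1 h2)
  have hX1 : (1 : ℝ) ≤ X := by exact_mod_cast hX
  have hXe : 1 ≤ (X : ℝ) ^ ε := Real.one_le_rpow hX1 hε.le
  have hX0 : (0 : ℝ) ≤ X₀ := Nat.cast_nonneg _
  rcases lt_or_ge X X₀ with hlt | hge
  · have a1 := Set.ncard_le_ncard (s := {m : ℕ | Squarefree m ∧ ∃ t : ℕ, Real.log m ≤ t ∧ t < m ∧
      nSp m (t ^ (D + 4)) < t} ∩ Set.Iic X) (t := (range X₀ : Finset ℕ))
      (fun m hm => mem_coe.2 (mem_range.2 (lt_of_le_of_lt hm.2 hlt))) (finite_toSet _)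
    rw [Set.ncard_coe_finset, card_range] at a1
    refine (Nat.cast_le.2 a1).trans ?_
    nlinarith
  have hL : W ≤ Real.log X := by
    rw [Real.le_log_iff_exp_le (by linarith)]
    exact hX₀.le.trans (by exact_mod_cast hge)
  have b1 : (0 : ℝ) ≤ (z₀ + 4 * (D + 4)) / (ε / 2) := by positivity
  have b2 : (0 : ℝ) ≤ 24 / (ε / 2) ^ 2 := by positivity
  have hL1 : 1 ≤ Real.log X := by linarith
  have hL2 : (z₀ : ℝ) + 4 * (D + 4) ≤ ε / 2 * Real.log X := by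
    rw [mul_comm (ε / 2), ← div_le_iff₀ (by positivity)]
    linarith
  have hL3 : 24 * Real.log X ≤ (ε / 2 * Real.log X) ^ 2 := by
    have : 24 ≤ Real.log X * (ε / 2) ^ 2 := by
      rw [← div_le_iff₀ (by positivity)]
      linarith
    nlinarith
  obtain ⟨M, hM⟩ : ∃ M : ℕ → Finset ℕ, M = fun j => (range (X + 1)).filter fun m : ℕ =>
      Squarefree m ∧
      Real.log m ≤ 2 * (2 ^ j : ℕ) ∧ nSp m ((2 ^ j) ^ (D + 4)) ≤ 2 * 2 ^ j ∧
        ε / 2 * Real.log X ≤ (2 ^ j : ℕ) := ⟨_, rfl⟩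
  have a1 := Set.ncard_le_ncard (s := {m : ℕ | Squarefree m ∧ ∃ t : ℕ, Real.log m ≤ t ∧ t < m ∧
      nSp m (t ^ (D + 4)) < t} ∩ Set.Iic X)
      (t := (range (⌊(X : ℝ) ^ ε⌋₊ + 1) ∪ (range (Nat.log 2 X + 1)).biUnion M : Finset ℕ))
      (by
        rintro m ⟨⟨h1, t, h2, h3, h4⟩, h5⟩
        have h5' : m ≤ X := h5
        rw [mem_coe, mem_union]
        by_cases hm : (m : ℝ) ≤ (X : ℝ) ^ ε
        · exact Or.inl (mem_range.2 (Nat.lt_succ_of_le (Nat.le_floor hm)))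
        have h6 : ε * Real.log X ≤ Real.log m := by
          rw [← Real.log_rpow (by linarith)]
          exact Real.log_le_log (by linarith) (not_le.1 hm).le
        have h7 : t ≠ 0 := by omega
        have h8 := Nat.pow_log_le_self 2 h7
        have h9 := Nat.lt_pow_succ_log_self (b := 2) (by norm_num) t
        rw [pow_succ] at h9
        have h10 : (t : ℝ) ≤ 2 * (2 ^ Nat.log 2 t : ℕ) := by exact_mod_cast (by omega)
        refine Or.inr (mem_biUnion.2 ⟨Nat.log 2 t, mem_range.2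
          (Nat.lt_succ_of_le (Nat.log_mono_right (by omega))), ?_⟩)
        rw [hM]
        refine mem_filter.2 ⟨mem_range.2 (by omega), h1, h2.trans h10, ?_, by linarith⟩
        have := nSp_mono m (Nat.pow_le_pow_left h8 (D + 4))
        omega) (finite_toSet _)
  rw [Set.ncard_coe_finset] at a1
  have a2 : ∀ j ∈ range (Nat.log 2 X + 1),
      (#(M j) : ℝ) ≤ 192 * (D + 4) * Real.log X ^ 2 * (X : ℝ) ^ (3 / r : ℝ) := fun j hj => by
    rcases (M j).eq_empty_or_nonempty with e | ⟨m₀, e⟩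
    · rw [e, card_empty, Nat.cast_zero]
      positivity
    rw [hM] at e
    have c1 := (mem_filter.1 e).2.2.2.2
    have c2 : z₀ + 4 * (D + 4) ≤ 2 ^ j := by exact_mod_cast hL2.trans c1
    refine xhb_block hz (T := 2 ^ j) (by exact_mod_cast hr0) (by omega) (by omega) (by omega)
      (Nat.pow_le_of_le_log (by omega) (Nat.lt_succ_iff.1 (mem_range.1 hj)))
      (hL3.trans (pow_le_pow_left₀ (by positivity) c1 2)) fun m hm => ?_
    rw [hM] at hm
    obtain ⟨d1, d2, d3, d4, -⟩ := mem_filter.1 hm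
    exact ⟨d2, Nat.lt_succ_iff.1 (mem_range.1 d1), d3, d4⟩
  have a3 : ((Nat.log 2 X + 1 : ℕ) : ℝ) ≤ 3 * Real.log X := by
    have c1 : Real.log ((2 : ℝ) ^ Nat.log 2 X) ≤ Real.log X :=
      Real.log_le_log (by positivity) (by exact_mod_cast Nat.pow_log_le_self 2 hX.ne')
    rw [Real.log_pow] at c1
    have c2 := Real.log_two_gt_d9
    have c3 : (0 : ℝ) ≤ Nat.log 2 X := Nat.cast_nonneg _
    push_cast
    nlinarith
  have a4 : (#((range (Nat.log 2 X + 1)).biUnion M) : ℝ) ≤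
      3 * Real.log X * (192 * (D + 4) * Real.log X ^ 2 * (X : ℝ) ^ (3 / r : ℝ)) := by
    refine (Nat.cast_le.2 card_biUnion_le).trans ?_
    rw [Nat.cast_sum]
    refine (sum_le_card_nsmul _ _ _ a2).trans ?_
    rw [card_range, nsmul_eq_mul]
    exact mul_le_mul_of_nonneg_right a3 (by positivity)
  have a5 : Real.log X ^ 3 * (X : ℝ) ^ (3 / r : ℝ) ≤ (X : ℝ) ^ ε / (ε / 6) ^ 3 := by
    have c1 := Real.log_le_rpow_div (x := X) (ε := ε / 6) (by linarith) (by positivity)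
    refine (mul_le_mul (pow_le_pow_left₀ (by linarith) c1 3)
      (Real.rpow_le_rpow_of_exponent_le hX1 hr1) (by positivity) (by positivity)).trans_eq ?_
    rw [div_pow, div_mul_eq_mul_div, ← Real.rpow_natCast ((X : ℝ) ^ (ε / 6)),
      ← Real.rpow_mul (by linarith), ← Real.rpow_add (by linarith)]
    congr 2
    push_cast
    ring
  have a6 : (#((range (Nat.log 2 X + 1)).biUnion M) : ℝ) ≤ C₁ * (X : ℝ) ^ ε := by
    refine a4.trans ?_
    have := mul_le_mul_of_nonneg_left a5 (by positivity : (0 : ℝ) ≤ 576 * (D + 4))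
    rw [hC₁]
    refine le_trans (le_of_eq (by ring)) (this.trans_eq (by ring))
  have a7 : ((⌊(X : ℝ) ^ ε⌋₊ + 1 : ℕ) : ℝ) ≤ 2 * (X : ℝ) ^ ε := by
    have := Nat.floor_le (a := (X : ℝ) ^ ε) (by linarith)
    push_cast
    linarith
  refine (Nat.cast_le.2 (a1.trans (card_union_le _ _))).trans ?_
  rw [card_range, Nat.cast_add]
  nlinarith

end Pool.Agent.EQ
end
end
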