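import Pool.Agent.K.MP_ad7a55_nt.C61
import Pool.Agent.K.MP_ad7a55_nt.C1
import Pool.Agent.K.MP_ad7a55_nt.C62
import Pool.Agent.K.MP_ad7a55_nt.C60

-- part Pool.Agent.P.MP_ad7a55_nt.XHe
section

/-! A zero-free disc gives many small split primes. -/

set_option autoImplicit false

noncomputable section

open Finset
open scoped Classical ArithmeticFunction.vonMangoldt

namespace Pool.Agent.EQ

theorem xhe_log {x l : ℝ} (hx : 1 ≤ x) (hl : 0 < l) (k : ℕ) :
    Real.log x ^ k ≤ k.factorial * (1 / l) ^ k * x ^ l := by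
  have h0 := Real.log_nonneg hx
  have h1 := Real.pow_div_factorial_le_exp (Real.log x * l) (by positivity) k
  rw [← Real.rpow_def_of_pos (by linarith), div_le_iff₀ (by positivity), mul_pow] at h1
  rw [one_div, inv_pow, mul_assoc, mul_comm _ (x ^ l), ← mul_assoc, ← div_eq_mul_inv,
    le_div_iff₀ (by positivity), mul_comm (k.factorial : ℝ)]
  exact h1

theorem xhe_term {n : ℕ} (hn : 1 ≤ n) {l : ℝ} (hl : 0 < l) (k : ℕ) :
    Λ n * Real.log n ^ k / (n : ℝ) ^ 2 ≤ k.factorial * (1 / l) ^ k * (Λ n * (n : ℝ) ^ (l - 2)) := by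
  have h1 : (1 : ℝ) ≤ n := by exact_mod_cast hn
  have h2 : (n : ℝ) ^ (l - 2) = (n : ℝ) ^ l / (n : ℝ) ^ 2 := by
    rw [Real.rpow_sub (by linarith), Real.rpow_two]
  rw [h2, mul_div_assoc, mul_left_comm, ← mul_div_assoc (_ * _)]
  exact mul_le_mul_of_nonneg_left (div_le_div_of_nonneg_right (xhe_log h1 hl k) (by positivity))
    ArithmeticFunction.vonMangoldt_nonneg

theorem xhe_s1 : Summable fun n : ℕ => Λ n * (n : ℝ) ^ (-(5 / 4) : ℝ) := by
  refine Summable.of_nonneg_of_le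
    (fun n => mul_nonneg ArithmeticFunction.vonMangoldt_nonneg (by positivity)) (fun n => ?_)
    ((Real.summable_nat_rpow.2 (show (-(9 / 8) : ℝ) < -1 by norm_num)).mul_left 8)
  have h1 := ArithmeticFunction.vonMangoldt_le_log.trans
    (Real.log_le_rpow_div (Nat.cast_nonneg n) (show (0 : ℝ) < 1 / 8 by norm_num))
  refine (mul_le_mul_of_nonneg_right h1 (by positivity)).trans (le_of_eq ?_)
  rw [show (-(9 / 8) : ℝ) = 1 / 8 + -(5 / 4) by norm_num,
    Real.rpow_add' (Nat.cast_nonneg n) (by norm_num)]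
  ring

/-- The weight of the proper prime powers. -/
def xheG (n : ℕ) : ℝ := if n.Prime then 0 else Λ n * (n : ℝ) ^ (-(3 / 4) : ℝ)

theorem xhe_G0 (n : ℕ) : 0 ≤ xheG n := by
  unfold xheG
  split_ifs
  · exact le_rfl
  · exact mul_nonneg ArithmeticFunction.vonMangoldt_nonneg (by positivity)

theorem xhe_s2 : Summable xheG := by
  have hr : (2 : ℝ) ^ (-(3 / 4) : ℝ) < 1 :=
    Real.rpow_lt_one_of_one_lt_of_neg one_lt_two (by norm_num)
  have h1 : Summable fun x : ℕ × ℕ => xheG (x.1 ^ (x.2 + 2)) := by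
    refine Summable.of_nonneg_of_le (fun x => xhe_G0 _) (fun x => ?_)
      (xhe_s1.mul_of_nonneg (summable_geometric_of_lt_one (by positivity) hr)
        (fun n => mul_nonneg ArithmeticFunction.vonMangoldt_nonneg (by positivity))
        fun n => by positivity)
    obtain ⟨a, j⟩ := x
    have b0 : 0 ≤ Λ a := ArithmeticFunction.vonMangoldt_nonneg
    unfold xheG
    split_ifs
    · positivity
    rw [ArithmeticFunction.vonMangoldt_apply_pow (by omega), mul_assoc]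
    by_cases ha : Λ a = 0
    · simp [ha]
    have ha2 : (2 : ℝ) ≤ a := by
      exact_mod_cast (ArithmeticFunction.vonMangoldt_ne_zero_iff.1 ha).two_le
    refine mul_le_mul_of_nonneg_left ?_ b0
    have e : (((a ^ (j + 2) : ℕ) : ℝ)) ^ (-(3 / 4) : ℝ)
        = (a : ℝ) ^ (-(3 / 2) : ℝ) * ((a : ℝ) ^ (-(3 / 4) : ℝ)) ^ j := by
      rw [Nat.cast_pow, ← Real.rpow_natCast, ← Real.rpow_natCast, ← Real.rpow_mul (by linarith),
        ← Real.rpow_mul (by linarith), ← Real.rpow_add (by linarith)]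
      congr 1
      push_cast
      ring
    rw [e]
    exact mul_le_mul (Real.rpow_le_rpow_of_exponent_le (by linarith) (by norm_num))
      (pow_le_pow_left₀ (by positivity)
        (Real.rpow_le_rpow_of_nonpos two_pos ha2 (by norm_num)) j) (by positivity) (by positivity)
  have h2 : ∀ n : Function.support xheG, ∃ x : ℕ × ℕ, x.1 ^ (x.2 + 2) = n := by
    rintro ⟨n, hn⟩
    have hn' : xheG n ≠ 0 := hn
    unfold xheG at hn'
    split_ifs at hn' with hp
    · exact absurd rfl hn'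
    obtain ⟨p, k, h1, h2, rfl⟩ := (isPrimePow_nat_iff n).1
      (ArithmeticFunction.vonMangoldt_ne_zero_iff.1 (left_ne_zero_of_mul hn'))
    have : k ≠ 1 := by
      rintro rfl
      exact hp (by simpa using h1)
    exact ⟨(p, k - 2), by simp only; rw [show k - 2 + 2 = k by omega]⟩
  choose σ hσ using h2
  have h3 : Function.Injective σ := fun a b h => Subtype.ext (by rw [← hσ a, h, hσ b])
  have h4 : Summable (xheG ∘ ((↑) : Function.support xheG → ℕ)) :=
    (h1.comp_injective h3).congr fun n => by simp only [Function.comp_apply, hσ]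
  obtain ⟨s, hs⟩ := h4
  exact ⟨s, (hasSum_subtype_iff_of_support_subset subset_rfl).1 hs⟩

theorem xhe_jc (D : ℤ) (n : ℕ) : jc D n = 0 ∨ jc D n = 1 ∨ jc D n = -1 := by
  unfold jc
  split_ifs
  · rcases jacobiSym.trichotomy D n with h | h | h <;> simp [h]
  · exact Or.inl rfl

theorem xhe_a0 (n k : ℕ) : 0 ≤ Λ n * Real.log n ^ k / (n : ℝ) ^ 2 :=
  div_nonneg (mul_nonneg ArithmeticFunction.vonMangoldt_nonneg
    (pow_nonneg (Real.log_natCast_nonneg n) k)) (by positivity)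

theorem xhe_sa (k : ℕ) : Summable fun n : ℕ => Λ n * Real.log n ^ k / (n : ℝ) ^ 2 := by
  refine Summable.of_nonneg_of_le (fun n => xhe_a0 n k) (fun n => ?_)
    (xhe_s1.mul_left ((k.factorial : ℝ) * (1 / (3 / 4)) ^ k))
  rcases Nat.eq_zero_or_pos n with rfl | hn
  · simp
  · have := xhe_term hn (show (0 : ℝ) < 3 / 4 by norm_num) k
    rwa [show (3 / 4 - 2 : ℝ) = -(5 / 4) by norm_num] at this

theorem xhe_big {n k : ℕ} (h : Real.exp (4 * k) ≤ n) : Λ n * Real.log n ^ k / (n : ℝ) ^ 2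
    ≤ k.factorial * ((4 / 5) ^ k * (Λ n * (n : ℝ) ^ (-(5 / 4) : ℝ))) := by
  have h0 : (0 : ℝ) < n := (Real.exp_pos _).trans_le h
  have b0 : 0 ≤ Λ n := ArithmeticFunction.vonMangoldt_nonneg
  refine (xhe_term (by exact_mod_cast h0) (show (0 : ℝ) < 1 / 2 by norm_num) k).trans ?_
  have h1 : (n : ℝ) ^ (-(1 / 4) : ℝ) ≤ Real.exp (-1) ^ k := by
    refine (Real.rpow_le_rpow_of_nonpos (Real.exp_pos _) h (by norm_num)).trans (le_of_eq ?_)
    rw [← Real.exp_mul, ← Real.exp_nat_mul]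
    congr 1
    ring
  have h2 : 1 / (1 / 2) * Real.exp (-1) ≤ 4 / 5 := by
    rw [Real.exp_neg, ← div_eq_mul_inv, div_le_iff₀ (Real.exp_pos _)]
    linarith [Real.exp_one_gt_d9]
  have h3 : (1 / (1 / 2)) ^ k * (n : ℝ) ^ (-(1 / 4) : ℝ) ≤ (4 / 5) ^ k := by
    refine (mul_le_mul_of_nonneg_left h1 (by positivity)).trans ?_
    rw [← mul_pow]
    exact pow_le_pow_left₀ (by positivity) h2 k
  rw [show (1 / 2 - 2 : ℝ) = -(1 / 4) + -(5 / 4) by norm_num, Real.rpow_add h0, mul_assoc]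
  refine mul_le_mul_of_nonneg_left (le_trans (le_of_eq ?_)
    (mul_le_mul_of_nonneg_right h3 (by positivity))) (by positivity)
  ring

theorem xhe_prime {p k : ℕ} (hp : p.Prime) (hk : 0 < k) :
    2 * (Λ p * Real.log p ^ k / (p : ℝ) ^ 2) ≤ k.factorial * (8 * k / 2 ^ k) := by
  have h1 : (1 : ℝ) ≤ p := by exact_mod_cast hp.one_le
  have h2 := xhe_log h1 two_pos (k + 1)
  have h3 : (1 : ℝ) ≤ k := by exact_mod_cast hk
  rw [ArithmeticFunction.vonMangoldt_apply_prime hp, ← pow_succ']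
  rw [Real.rpow_two, ← div_le_iff₀ (by positivity)] at h2
  refine (mul_le_mul_of_nonneg_left h2 zero_le_two).trans ?_
  have e : 2 * (((k + 1).factorial : ℝ) * (1 / 2) ^ (k + 1)) = k.factorial * ((k + 1) / 2 ^ k) := by
    rw [Nat.factorial_succ, one_div, inv_pow, pow_succ]
    push_cast
    field_simp
  rw [e]
  gcongr
  linarith

theorem xhe_omega {m : ℕ} (hm : 0 < m) : (m.primeFactors.card : ℝ) ≤ 2 * Real.log m := by
  have h1 : 2 ^ m.primeFactors.card ≤ m :=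
    (pow_card_le_prod _ (fun p => p) 2 fun p hp => (Nat.prime_of_mem_primeFactors hp).two_le).trans
      (Nat.le_of_dvd hm (Nat.prod_primeFactors_dvd m))
  have h2 : (2 : ℝ) ^ m.primeFactors.card ≤ m := by exact_mod_cast h1
  have h3 := Real.log_le_log (by positivity) h2
  rw [Real.log_pow] at h3
  nlinarith [Real.log_two_gt_d9, (Nat.cast_nonneg _ : (0 : ℝ) ≤ m.primeFactors.card)]

theorem sum_split : ∃ C : ℝ, 0 < C ∧ ∀ m k z : ℕ, 0 < m → 0 < k → Real.exp (4 * k) ≤ z →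
    ∑' n : ℕ, (1 + jc (-(m : ℤ)) n) * (Λ n * Real.log n ^ k / (n : ℝ) ^ 2) ≤
      k.factorial * (C * (4 / 5) ^ k + (nSp m z + 2 * Real.log m + 1) * (8 * k / 2 ^ k)) := by
  have hs := (xhe_s1.add xhe_s2).hasSum
  have p1 : ∀ n : ℕ, 0 ≤ Λ n * (n : ℝ) ^ (-(5 / 4) : ℝ) := fun n =>
    mul_nonneg ArithmeticFunction.vonMangoldt_nonneg (by positivity)
  have p2 : 0 ≤ ∑' n : ℕ, (Λ n * (n : ℝ) ^ (-(5 / 4) : ℝ) + xheG n) :=
    tsum_nonneg fun n => add_nonneg (p1 n) (xhe_G0 n)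
  generalize ∑' n : ℕ, (Λ n * (n : ℝ) ^ (-(5 / 4) : ℝ) + xheG n) = S at hs p2
  refine ⟨2 * S + 1, by positivity, fun m k z hm hk hz => ?_⟩
  obtain ⟨T, hT⟩ : ∃ T : Finset ℕ, T = insert 2 (((Nat.primesLE z).filter
    fun p : ℕ => jacobiSym (-(m : ℤ)) p = 1) ∪ m.primeFactors) := ⟨_, rfl⟩
  have hc : (#T : ℝ) ≤ nSp m z + 2 * Real.log m + 1 := by
    have : #T ≤ nSp m z + m.primeFactors.card + 1 := by
      rw [hT]
      exact (card_insert_le _ _).trans (Nat.add_le_add_right (card_union_le _ _) 1)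
    have h' : (#T : ℝ) ≤ nSp m z + m.primeFactors.card + 1 := by exact_mod_cast this
    linarith [xhe_omega hm]
  have h1 : HasSum (fun n : ℕ => if n ∈ T then (8 * k / 2 ^ k : ℝ) else 0)
      (#T * (8 * k / 2 ^ k)) := by
    have := hasSum_sum_of_ne_finset_zero (L := SummationFilter.unconditional ℕ)
      (f := fun n : ℕ => if n ∈ T then (8 * k / 2 ^ k : ℝ) else 0) (s := T)
      fun n hn => if_neg hn
    rwa [sum_congr rfl fun n hn => if_pos hn, sum_const, nsmul_eq_mul] at this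
  have h2 := ((hs.mul_left (2 * (4 / 5 : ℝ) ^ k)).add h1).mul_left (k.factorial : ℝ)
  have j0 : ∀ n, 0 ≤ 1 + jc (-(m : ℤ)) n ∧ 1 + jc (-(m : ℤ)) n ≤ 2 := fun n => by
    rcases xhe_jc (-(m : ℤ)) n with h | h | h <;> rw [h] <;> norm_num
  have key : ∀ n : ℕ, (1 + jc (-(m : ℤ)) n) * (Λ n * Real.log n ^ k / (n : ℝ) ^ 2)
      ≤ k.factorial * (2 * (4 / 5 : ℝ) ^ k * (Λ n * (n : ℝ) ^ (-(5 / 4) : ℝ) + xheG n)
        + if n ∈ T then (8 * k / 2 ^ k : ℝ) else 0) := fun n => by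
    have a0 := mul_le_mul_of_nonneg_right (j0 n).2 (xhe_a0 n k)
    have a1 : (0 : ℝ) ≤ if n ∈ T then (8 * k / 2 ^ k : ℝ) else 0 := by
      split_ifs <;> positivity
    have a2 := p1 n
    have a3 := xhe_G0 n
    have a4 : (0 : ℝ) ≤ (4 / 5) ^ k := by positivity
    have a5 : (0 : ℝ) ≤ k.factorial := Nat.cast_nonneg _
    by_cases hp : n.Prime
    · by_cases hn : n ≤ z
      · by_cases hnT : n ∈ T
        · rw [if_pos hnT]
          exact a0.trans ((xhe_prime hp hk).trans (mul_le_mul_of_nonneg_left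
            (le_add_of_nonneg_left (by positivity)) a5))
        · have b1 : jc (-(m : ℤ)) n = -1 := by
            rw [hT, mem_insert, mem_union, not_or, not_or] at hnT
            have hodd : Odd n := hp.odd_of_ne_two hnT.1
            have : NeZero n := ⟨hp.ne_zero⟩
            rw [jc, if_pos hodd]
            rcases jacobiSym.trichotomy (-(m : ℤ)) n with h | h | h
            · refine absurd (Nat.mem_primeFactors.2 ⟨hp, ?_, hm.ne'⟩) hnT.2.2
              have := jacobiSym.eq_zero_iff_not_coprime.1 h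
              rw [Int.neg_gcd, Int.gcd_natCast_natCast, Nat.gcd_comm] at this
              exact (Nat.Prime.dvd_iff_not_coprime hp).2 this
            · exact absurd (mem_filter.2 ⟨Nat.mem_primesLE.2 ⟨hn, hp⟩, h⟩) hnT.2.1
            · simp [h]
          rw [b1, add_neg_cancel, zero_mul]
          positivity
      · have b1 := xhe_big (n := n) (k := k) (hz.trans (by exact_mod_cast (not_le.1 hn).le))
        nlinarith [mul_nonneg a5 a1, mul_nonneg a5 (mul_nonneg a4 a3)]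
    · rcases Nat.eq_zero_or_pos n with rfl | hn
      · simp only [Nat.cast_zero, ne_eq, OfNat.ofNat_ne_zero, not_false_eq_true, zero_pow, div_zero,
          mul_zero] at a2 ⊢
        positivity
      have b1 := xhe_term hn (show (0 : ℝ) < 5 / 4 by norm_num) k
      have b2 : xheG n = Λ n * (n : ℝ) ^ (5 / 4 - 2 : ℝ) := by
        rw [xheG, if_neg hp]
        norm_num
      rw [← b2, show (1 / (5 / 4) : ℝ) = 4 / 5 by norm_num] at b1
      nlinarith [mul_nonneg a5 a1, mul_nonneg a5 (mul_nonneg a4 a2)]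
  refine (Summable.tsum_le_tsum key (Summable.of_nonneg_of_le
    (fun n => mul_nonneg (j0 n).1 (xhe_a0 n k)) key h2.summable) h2.summable).trans ?_
  rw [h2.tsum_eq]
  refine mul_le_mul_of_nonneg_left (add_le_add ?_ (mul_le_mul_of_nonneg_right hc (by positivity)))
    (Nat.cast_nonneg _)
  nlinarith [show (0 : ℝ) ≤ (4 / 5) ^ k by positivity]

theorem xhe_low {m k : ℕ} {ε C₁ C₂ ρ₁ ρ₂ : ℝ} (hm : 0 < m) (hZ : ZF ε m)
    (h1 : ∀ (q : ℕ) [NeZero q] (χ : DirichletCharacter ℂ q), χ ≠ 1 →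
      (∀ s : ℂ, ‖s - 2‖ < 1 + ε → χ.LFunction s ≠ 0) → ∀ k : ℕ,
      ‖∑' n : ℕ, χ n * ((Λ n * Real.log n ^ k / (n : ℝ) ^ 2 : ℝ) : ℂ)‖ ≤
        C₁ * (Real.log q + 1) * k.factorial / ρ₁ ^ k)
    (h2 : |∑' n : ℕ, Λ n * Real.log n ^ k / (n : ℝ) ^ 2 - k.factorial|
      ≤ C₂ * k.factorial / ρ₂ ^ k) :
    k.factorial * (1 - C₂ * (1 / ρ₂ ^ k) - C₁ * (Real.log m + 3) * (1 / ρ₁ ^ k))
      - k.factorial * (C₁ * (Real.log 4 - 2) * (1 / ρ₁ ^ k))
      ≤ ∑' n : ℕ, (1 + jc (-(m : ℤ)) n) * (Λ n * Real.log n ^ k / (n : ℝ) ^ 2) := by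
  have e0 : (-(m : ℤ)).natAbs = m := by simp
  have : NeZero (4 * (-(m : ℤ)).natAbs) := ⟨by omega⟩
  have a1 := h1 _ (sgeChi (-(m : ℤ))) (tlow_ne (by omega))
    (hZ _ _ (by rw [e0]) fun n hn => by rw [sgeChi_nat, if_pos hn]) k
  have a2 : Summable fun n : ℕ => jc (-(m : ℤ)) n * (Λ n * Real.log n ^ k / (n : ℝ) ^ 2) := by
    refine Summable.of_norm_bounded (xhe_sa k) fun n => ?_
    rw [norm_mul, Real.norm_of_nonneg (xhe_a0 n k)]
    refine mul_le_of_le_one_left (xhe_a0 n k) ?_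
    rcases xhe_jc (-(m : ℤ)) n with h | h | h <;> simp [h]
  simp only [tlow_jc, ← Complex.ofReal_mul, ← Complex.ofReal_tsum, Complex.norm_real,
    Real.norm_eq_abs] at a1
  rw [e0, Nat.cast_mul, Real.log_mul (by norm_num) (by exact_mod_cast hm.ne'), Nat.cast_ofNat] at a1
  simp only [add_mul, one_mul]
  rw [(xhe_sa k).tsum_add a2]
  refine le_trans (le_of_eq ?_) (add_le_add (le_sub_iff_add_le.1 (abs_le.1 h2).1 :
    -(C₂ * k.factorial / ρ₂ ^ k) + k.factorial ≤ _) (abs_le.1 a1).1)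
  ring

theorem xhe_k (k : ℕ) : (8 * k / 2 ^ k : ℝ) ≤ 16 * (4 / 5) ^ k := by
  have h1 := one_add_mul_le_pow (show (-2 : ℝ) ≤ 3 / 5 by norm_num) k
  have h0 : (0 : ℝ) ≤ k := Nat.cast_nonneg k
  rw [div_le_iff₀ (by positivity), mul_assoc, ← mul_pow]
  norm_num at h1 ⊢
  linarith

theorem many_of_ZF {ε : ℝ} (hε : 0 < ε) : ∃ A₀ : ℕ, ∀ A : ℕ, A₀ ≤ A → ∀ c : ℝ, 0 < c →
    {m | m ∈ EX A c ∧ ZF ε m}.Finite := by
  obtain ⟨C₁, ρ₁, hC₁, hρ₁, h1⟩ := sum_chi hε
  obtain ⟨C₂, ρ₂, hC₂, hρ₂, h2⟩ := sum_zeta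
  obtain ⟨C₃, hC₃, h3⟩ := sum_split
  obtain ⟨ρ, r0, r1, r2, r3⟩ : ∃ ρ : ℝ, 1 < ρ ∧ ρ ≤ ρ₁ ∧ ρ ≤ ρ₂ ∧ ρ ≤ 5 / 4 :=
    ⟨min ρ₁ (min ρ₂ (5 / 4)), lt_min hρ₁ (lt_min hρ₂ (by norm_num)), min_le_left _ _,
      (min_le_right _ _).trans (min_le_left _ _), (min_le_right _ _).trans (min_le_right _ _)⟩
  have l0 := Real.log_pos r0
  obtain ⟨A₀, hA₀⟩ := exists_nat_ge (4 * (2 / Real.log ρ + 1))
  refine ⟨A₀, fun A hA c hc => ?_⟩
  obtain ⟨N, hN⟩ := exists_nat_ge (Real.exp (c / ε + (C₂ + C₃ + 2 * C₁ + 67)))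
  refine (Set.finite_le_nat N).subset fun m hm => ?_
  by_contra hmN
  have m1 : N < m := not_le.1 hmN
  have m0 : 0 < m := by omega
  have m2 : c / ε + (C₂ + C₃ + 2 * C₁ + 67) < Real.log m := by
    rw [Real.lt_log_iff_exp_lt (by exact_mod_cast m0)]
    exact hN.trans_lt (by exact_mod_cast m1)
  have ce : 0 < c / ε := by positivity
  have hNZ : NoZero c (-(m : ℤ)) := fun q _ χ hq hχ β hβ hβ1 => by
    have e0 : (-(m : ℤ)).natAbs = m := by simp
    rw [e0] at hq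
    refine hm.2 q χ hq hχ β ?_
    have a1 : Real.log m ≤ Real.log q :=
      Real.log_le_log (by exact_mod_cast m0) (by exact_mod_cast (show m ≤ q by omega))
    have a2 : c / Real.log q < ε := by
      rw [div_lt_iff₀ (by linarith), ← div_lt_iff₀' hε]
      linarith
    rw [show (β : ℂ) - 2 = ((β - 2 : ℝ) : ℂ) by push_cast; ring, Complex.norm_real, Real.norm_eq_abs,
      abs_of_neg (by linarith)]
    linarith
  have hM : ¬ Many A m := fun h => hm.1.2 ⟨hNZ, h⟩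
  unfold Many at hM
  push Not at hM
  obtain ⟨t, t1, t2⟩ := hM
  have t3 : (3 : ℝ) ≤ t := by linarith
  have t4 : 1 ≤ Real.log t := by
    rw [Real.le_log_iff_exp_le (by linarith)]
    linarith [Real.exp_one_lt_d9]
  obtain ⟨k, hk⟩ : ∃ k : ℕ, k = ⌈2 / Real.log ρ * Real.log t⌉₊ := ⟨_, rfl⟩
  have k0 : 0 < k := by
    rw [hk]
    exact Nat.ceil_pos.2 (by positivity)
  have k1 : 2 / Real.log ρ * Real.log t ≤ k := by
    rw [hk]
    exact Nat.le_ceil _
  have k2 : (k : ℝ) ≤ (2 / Real.log ρ + 1) * Real.log t := by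
    have := Nat.ceil_lt_add_one (show 0 ≤ 2 / Real.log ρ * Real.log t by positivity)
    rw [← hk] at this
    linarith
  have k3 : (t : ℝ) ^ 2 ≤ ρ ^ k := by
    rw [← Real.log_le_log_iff (by positivity) (by positivity), Real.log_pow, Real.log_pow]
    rw [div_mul_eq_mul_div, div_le_iff₀ l0] at k1
    exact_mod_cast k1
  have k4 : Real.exp (4 * k) ≤ ((t ^ A : ℕ) : ℝ) := by
    rw [Nat.cast_pow, ← Real.le_log_iff_exp_le (by positivity), Real.log_pow]
    have : (A₀ : ℝ) ≤ A := by exact_mod_cast hA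
    nlinarith
  have w : ∀ σ : ℝ, ρ ≤ σ → 1 / σ ^ k ≤ 1 / (t : ℝ) ^ 2 := fun σ h =>
    one_div_le_one_div_of_le (by positivity) (k3.trans (pow_le_pow_left₀ (by linarith) h k))
  have w1 := w _ r1
  have w2 := w _ r2
  have w3 : (4 / 5 : ℝ) ^ k ≤ 1 / (t : ℝ) ^ 2 := by
    have := w _ r3
    rwa [← one_div_pow, show (1 / (5 / 4) : ℝ) = 4 / 5 by norm_num] at this
  have b1 := (xhe_low m0 hm.2 h1 (h2 k)).trans (h3 m k (t ^ A) m0 k0 k4)
  have f0 : (0 : ℝ) < k.factorial := by exact_mod_cast k.factorial_pos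
  have l4 : Real.log 4 ≤ 2 := by
    rw [show (4 : ℝ) = 2 ^ 2 by norm_num, Real.log_pow]
    push_cast
    linarith [Real.log_two_lt_d9]
  have b2 : k.factorial * (C₁ * (Real.log 4 - 2) * (1 / ρ₁ ^ k)) ≤ 0 :=
    mul_nonpos_of_nonneg_of_nonpos f0.le (mul_nonpos_of_nonpos_of_nonneg
      (mul_nonpos_of_nonneg_of_nonpos hC₁.le (by linarith)) (by positivity))
  have b3 := le_of_mul_le_mul_left ((le_sub_self_iff _).2 b2 |>.trans b1) f0
  have t5 : (nSp m (t ^ A) : ℝ) ≤ t := by exact_mod_cast t2.le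
  have c1 : C₂ * (1 / ρ₂ ^ k) ≤ C₂ * (1 / (t : ℝ) ^ 2) := mul_le_mul_of_nonneg_left w2 hC₂.le
  have c2 : C₁ * (Real.log m + 3) * (1 / ρ₁ ^ k) ≤ C₁ * (2 * t) * (1 / (t : ℝ) ^ 2) :=
    mul_le_mul (mul_le_mul_of_nonneg_left (by linarith) hC₁.le) w1 (by positivity) (by positivity)
  have c3 : C₃ * (4 / 5) ^ k ≤ C₃ * (1 / (t : ℝ) ^ 2) := mul_le_mul_of_nonneg_left w3 hC₃.le
  have c4 : (nSp m (t ^ A) + 2 * Real.log m + 1) * (8 * k / 2 ^ k : ℝ)
      ≤ 4 * t * (16 * (1 / (t : ℝ) ^ 2)) :=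
    mul_le_mul (by linarith) ((xhe_k k).trans (by linarith)) (by positivity) (by positivity)
  have c5 : 1 ≤ (C₂ + C₃ + (2 * C₁ + 64) * t) * (1 / (t : ℝ) ^ 2) := by linarith
  rw [mul_one_div, one_le_div (by positivity)] at c5
  have c6 : C₂ + C₃ + 2 * C₁ + 67 < t := by linarith
  nlinarith [mul_le_mul_of_nonneg_left t3 (add_pos hC₂ hC₃).le]

end Pool.Agent.EQ
end
end

-- part Pool.Agent.P.MP_ad7a55_nt.YSb
section

/-! A majorant for the number of ideals in orders of large conductor. -/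

set_option autoImplicit false

noncomputable section

open Finset
open scoped Classical

namespace Pool.Agent.EQ

theorem ysb_r_le (D : ℤ) {l : ℕ} (hl : l.Prime) (h2 : l ≠ 2) (hD : ¬ (l : ℤ) ∣ D) {k : ℕ}
    (hk : 0 < k) : tid_r D l k ≤ 1 + jacobiSym D l := by
  have hp' : Prime (l : ℤ) := Nat.prime_iff_prime_int.1 hl
  have h5 : ¬ (l : ℤ) ∣ 2 := fun h => h2
    ((Nat.prime_dvd_prime_iff_eq hl Nat.prime_two).1 (by exact_mod_cast h))
  have hd : ¬ (l : ℤ) ∣ (0 : ℤ) ^ 2 - 4 * 1 * (-D) := fun h => by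
    have e : (0 : ℤ) ^ 2 - 4 * 1 * (-D) = 2 * (2 * D) := by ring
    rw [e] at h
    exact (hp'.dvd_or_dvd h).elim h5 fun h => (hp'.dvd_or_dvd h).elim h5 hD
  have hJ : jacobiSym ((0 : ℤ) ^ 2 - 4 * 1 * (-D)) l = jacobiSym D l := by
    have e : (0 : ℤ) ^ 2 - 4 * 1 * (-D) = 2 ^ 2 * D := by ring
    rw [e, jacobiSym.mul_left, jacobiSym.sq_one', one_mul]
    exact Int.isCoprime_iff_gcd_eq_one.1 (hp'.coprime_iff_not_dvd.2 h5).symm
  have h1 := cnt_hensel hl h2 hp'.not_dvd_one hd hk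
  rw [hJ] at h1
  have h3 := tid_cnt_mono (l ^ k) (A := tid_A D l k)
    (A' := fun y => (l : ℤ) ^ k ∣ 1 * y ^ 2 + 0 * y + -D) fun x hx => by
      have e : 1 * x ^ 2 + 0 * x + -D = x ^ 2 - D := by ring
      rw [e]
      exact hx.1
  have h4 : (cnt (l ^ k) (tid_A D l k) : ℤ) ≤ 1 + jacobiSym D l := by
    rw [← h1]
    exact_mod_cast h3
  rw [tid_r, if_neg hk.ne', if_neg h2]
  exact_mod_cast h4

theorem ysb_two_step {r : ℕ → ℝ} {x : ℝ} (hx : x ^ 2 = 1) (h0 : r 0 = 1)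
    (hr : ∀ k, 0 < k → r k ≤ 1 + x) (l k : ℕ) :
    ∑ i ∈ range (k + 1), tid_s l i * r (k - i) ≤ ∑ i ∈ range (k + 1), x ^ i := by
  have hs0 : tid_s l 0 = 1 := if_pos Even.zero
  have hs1 : tid_s l 1 = 0 := if_neg Nat.not_even_one
  have hs2 : ∀ i, tid_s l (i + 1 + 1) = tid_s l i := fun i => by
    unfold tid_s
    have : Even (i + 1 + 1) ↔ Even i := by
      rw [Nat.even_add_one, Nat.even_add_one, not_not]
    simp only [this]
  induction k using Nat.twoStepInduction with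
  | zero => simp [hs0, h0]
  | one =>
    have := hr 1 one_pos
    simp only [sum_range_succ, range_one, sum_singleton, hs0, hs1, pow_zero, pow_one, one_mul,
      zero_mul, add_zero, Nat.sub_zero]
    exact this
  | more k ih _ =>
    rw [sum_range_succ' _ (k + 2), sum_range_succ' _ (k + 1), sum_range_succ' _ (k + 2),
      sum_range_succ' _ (k + 1)]
    have e1 : ∑ i ∈ range (k + 1), tid_s l (i + 1 + 1) * r (k + 2 - (i + 1 + 1)) =
        ∑ i ∈ range (k + 1), tid_s l i * r (k - i) := by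
      refine sum_congr rfl fun i _ => ?_
      rw [hs2, show k + 2 - (i + 1 + 1) = k - i by omega]
    have e2 : ∑ i ∈ range (k + 1), x ^ (i + 1 + 1) = ∑ i ∈ range (k + 1), x ^ i := by
      refine sum_congr rfl fun i _ => ?_
      rw [add_assoc, pow_add, show 1 + 1 = 2 from rfl, hx, mul_one]
    have h3 := hr (k + 2) (by omega)
    rw [e1, e2, zero_add, hs0, hs1, Nat.sub_zero]
    simp only [pow_zero, pow_one]
    linarith

theorem ysb_f_nonneg (D : ℤ) (n : ℕ) : 0 ≤ (tid_pf tid_s * tid_pf (tid_r D)) n := by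
  rw [ArithmeticFunction.mul_apply]
  exact Finset.sum_nonneg fun p _ => mul_nonneg (tid_pf_nonneg tid_s_nonneg _)
    (tid_pf_nonneg (tid_r_nonneg D) _)

theorem ysb_nsq {D : ℤ} (hD : D < 0) : ¬ IsSquare D := by
  rintro ⟨r, rfl⟩
  nlinarith [mul_self_nonneg r]

theorem f_le_rr {D : ℤ} (hD : D < 0) {n : ℕ} (hn : 0 < n) (hc : n.Coprime (2 * D.natAbs)) :
    (tid_pf tid_s * tid_pf (tid_r D)) n ≤ rr (jc D) n := by
  have hM := (tid_pf_mul tid_s).mul (tid_pf_mul (tid_r D))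
  have hR := rc_jc (ysb_nsq hD)
  induction n using Nat.recOnPosPrimePosCoprime with
  | prime_pow p k hp hk =>
    have h1 : p.Coprime (2 * D.natAbs) := (Nat.coprime_pow_left_iff hk _ _).1 hc
    have h2 : ¬ p ∣ 2 * D.natAbs := (Nat.Prime.coprime_iff_not_dvd hp).1 h1
    have h3 : p ≠ 2 := fun h => h2 (h ▸ Dvd.intro _ rfl)
    have h4 : ¬ (p : ℤ) ∣ D := fun h => h2 (Dvd.dvd.mul_left (Int.natCast_dvd.1 h) 2)
    have h5 : jc D p = jacobiSym D p := if_pos (hp.odd_of_ne_two h3)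
    have h6 : Int.gcd D p = 1 := by
      have hp' : Prime (p : ℤ) := Nat.prime_iff_prime_int.1 hp
      exact Int.isCoprime_iff_gcd_eq_one.1 (hp'.coprime_iff_not_dvd.2 h4).symm
    have h7 : (jacobiSym D p : ℝ) ^ 2 = 1 := by exact_mod_cast jacobiSym.sq_one h6
    rw [tid_conv_pow hp (tid_r_zero D p) (if_pos Even.zero) k, rr, Nat.sum_divisors_prime_pow hp]
    simp only [ttl_pow hR, h5]
    exact ysb_two_step h7 (tid_r_zero D p) (fun j hj => ysb_r_le D hp h3 h4 hj) p k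
  | zero => exact absurd hn (lt_irrefl 0)
  | one => rw [hM.map_one, ttl_one hR]
  | coprime a b ha1 hb1 hab ha hb =>
    rw [hM.map_mul_of_coprime hab, hR.rr_mul hab]
    exact mul_le_mul (ha (by omega) (Nat.Coprime.coprime_mul_right hc))
      (hb (by omega) (Nat.Coprime.coprime_mul_left hc)) (ysb_f_nonneg D _) (hR.rr_nonneg _)

theorem ysb_loc1 {K c : ℝ} {a f : ℕ → ℝ} (h : HT K a f)
    (hc : ∀ I : ℕ, ∑ k ∈ range I, ((k : ℝ) + 4) ^ 2 * (7 / 8 : ℝ) ^ k ≤ c) {l : ℕ} (hlp : l.Prime)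
    (I : ℕ) : ∑ k ∈ range I, f (l ^ k) / ((l ^ k : ℕ) : ℝ) ≤
      Real.exp (1 / l + a l / l + K * (1 / l) ^ 2 + K * c * (Real.sqrt l)⁻¹ ^ 3) := by
  have hK := tht_K h
  have h0 : (0 : ℝ) < l := by exact_mod_cast hlp.pos
  refine (tht_three (fun k => f (l ^ k) / ((l ^ k : ℕ) : ℝ))
    (fun k => div_nonneg (h.nonneg _) (by positivity)) I).trans ?_
  refine le_trans ?_ (Real.add_one_le_exp _)
  have h2 : ∑ j ∈ range I, f (l ^ (j + 3)) / ((l ^ (j + 3) : ℕ) : ℝ) ≤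
      K * c * (Real.sqrt l)⁻¹ ^ 3 := by
    calc _ ≤ ∑ j ∈ range I, K * (Real.sqrt l)⁻¹ ^ 3 * (((j : ℝ) + 4) ^ 2 * (7 / 8 : ℝ) ^ j) := by
          refine sum_le_sum fun j _ => ?_
          have h3 := tht_pow h hlp (j + 3)
          have h4 := tht_rpow' hlp j
          have h5 : (0 : ℝ) ≤ j := by positivity
          push_cast at h3 ⊢
          rw [div_le_iff₀ (by positivity)]
          refine h3.trans ?_
          have h6 : ((j : ℝ) + 3 + 1) * (Real.sqrt l)⁻¹ ^ j ≤ ((j : ℝ) + 4) ^ 2 * (7 / 8 : ℝ) ^ j :=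
            mul_le_mul (by nlinarith) h4 (by positivity) (by positivity)
          calc K * ((j : ℝ) + 3 + 1) * ((l : ℝ) ^ (j + 3) * (Real.sqrt l)⁻¹ ^ (j + 3))
              = K * (Real.sqrt l)⁻¹ ^ 3 * (((j : ℝ) + 3 + 1) * (Real.sqrt l)⁻¹ ^ j) *
                (l : ℝ) ^ (j + 3) := by ring
            _ ≤ _ := by gcongr
      _ = K * (Real.sqrt l)⁻¹ ^ 3 * ∑ j ∈ range I, (((j : ℝ) + 4) ^ 2 * (7 / 8 : ℝ) ^ j) := by
          rw [mul_sum]
      _ ≤ K * (Real.sqrt l)⁻¹ ^ 3 * c := mul_le_mul_of_nonneg_left (hc I) (by positivity)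
      _ = _ := by ring
  have h3 := h.sq l hlp
  have h4 : f l / l + f (l ^ 2) / (l : ℝ) ^ 2 ≤ 1 / l + a l / l + K * (1 / l) ^ 2 := by
    calc f l / l + f (l ^ 2) / (l : ℝ) ^ 2 = (f l + f (l ^ 2) / l) / l := by field_simp
      _ ≤ (1 + a l + K / l) / l := div_le_div_of_nonneg_right h3 h0.le
      _ = _ := by field_simp
  have h5 := h.one
  simp only [pow_zero, pow_one, Nat.cast_one, div_one, Nat.cast_pow] at h2 ⊢
  linarith

theorem ysb_quarter {l : ℕ} (hl : l.Prime) :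
    Real.sqrt l ≤ 7 / 8 * (l : ℝ) ^ (3 / 4 : ℝ) := by
  have h2 : (2 : ℝ) ≤ l := by exact_mod_cast hl.two_le
  have h0 : (0 : ℝ) < l := by linarith
  have e1 : Real.sqrt l ^ 4 = (l : ℝ) ^ 2 := by
    rw [show 4 = 2 * 2 from rfl, pow_mul, Real.sq_sqrt h0.le]
  have e2 : ((l : ℝ) ^ (3 / 4 : ℝ)) ^ 4 = (l : ℝ) ^ 3 := by
    rw [← Real.rpow_natCast, ← Real.rpow_mul h0.le, ← Real.rpow_natCast]
    norm_num
  refine le_of_pow_le_pow_left₀ (n := 4) (by norm_num) (by positivity) ?_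
  rw [mul_pow, e1, e2]
  have h3 : (0 : ℝ) < (l : ℝ) ^ 2 := by positivity
  nlinarith

theorem ysb_loc2 {K c : ℝ} {a f : ℕ → ℝ} (h : HT K a f)
    (hc : ∀ I : ℕ, ∑ k ∈ range I, ((k : ℝ) + 4) ^ 2 * (7 / 8 : ℝ) ^ k ≤ c) {l : ℕ} (hlp : l.Prime)
    (I : ℕ) : ∑ k ∈ range I, f (l ^ k) / ((l ^ k : ℕ) : ℝ) ^ (3 / 4 : ℝ) ≤ K * c := by
  have hK := tht_K h
  have h0 : (0 : ℝ) < l := by exact_mod_cast hlp.pos
  calc _ ≤ ∑ k ∈ range I, K * (((k : ℝ) + 4) ^ 2 * (7 / 8 : ℝ) ^ k) := by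
        refine sum_le_sum fun k _ => ?_
        have h3 := h.pow l k hlp
        have h4 : Real.sqrt ((l : ℝ) ^ k) = Real.sqrt l ^ k := by
          rw [Real.sqrt_eq_iff_mul_self_eq (by positivity) (by positivity), ← mul_pow,
            Real.mul_self_sqrt h0.le]
        have h5 : ((l : ℝ) ^ k) ^ (3 / 4 : ℝ) = ((l : ℝ) ^ (3 / 4 : ℝ)) ^ k := by
          rw [← Real.rpow_natCast, ← Real.rpow_natCast, ← Real.rpow_mul h0.le,
            ← Real.rpow_mul h0.le, mul_comm]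
        have h6 : Real.sqrt l ^ k ≤ (7 / 8 * (l : ℝ) ^ (3 / 4 : ℝ)) ^ k :=
          pow_le_pow_left₀ (Real.sqrt_nonneg _) (ysb_quarter hlp) k
        have h7 : (0 : ℝ) ≤ k := by positivity
        have h8 : (k : ℝ) + 1 ≤ ((k : ℝ) + 4) ^ 2 := by nlinarith
        rw [Nat.cast_pow, h5, div_le_iff₀ (by positivity)]
        rw [h4] at h3
        rw [mul_pow] at h6
        calc f (l ^ k) ≤ K * (k + 1) * Real.sqrt l ^ k := h3
          _ ≤ K * ((k : ℝ) + 4) ^ 2 * ((7 / 8 : ℝ) ^ k * ((l : ℝ) ^ (3 / 4 : ℝ)) ^ k) := by gcongr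
          _ = _ := by ring
    _ = K * ∑ k ∈ range I, (((k : ℝ) + 4) ^ 2 * (7 / 8 : ℝ) ^ k) := by rw [mul_sum]
    _ ≤ K * c := mul_le_mul_of_nonneg_left (hc I) hK

theorem smooth_sums (K : ℝ) : ∃ C : ℝ, 1 ≤ C ∧ ∀ a f : ℕ → ℝ, HT K a f → ∀ S T : Finset ℕ,
    (∀ l ∈ S, l.Prime ∧ a l ≤ 1 ∧ (l ≠ 2 → a l ≤ 0)) → (∀ n ∈ T, n ≠ 0 ∧ n.primeFactors ⊆ S) →
    ∑ n ∈ T, f n / n ≤ C * Real.exp (∑ l ∈ S, 1 / (l : ℝ)) ∧
      ∑ n ∈ T, f n / (n : ℝ) ^ (3 / 4 : ℝ) ≤ C ^ #S := by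
  obtain ⟨c, hc0, hc⟩ := tht_geo
  have hE := Real.exp_pos (1 + K + K * c * 40)
  have hA : 0 ≤ |K| * c := by positivity
  refine ⟨Real.exp (1 + K + K * c * 40) + |K| * c + 1, by linarith, fun a f h S T hS hT => ?_⟩
  have hK := tht_K h
  have hP : ∀ p ∈ S, p.Prime := fun p hp => (hS p hp).1
  rw [abs_of_nonneg hK] at hA ⊢
  constructor
  · have h1 := tht_euler (fun n => f n / n) (fun n => div_nonneg (h.nonneg n) (by positivity))
      (by simpa using h.one)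
      (fun m n hmn => by
        have := h.mul m n hmn
        push_cast
        rw [div_mul_div_comm]
        exact div_le_div_of_nonneg_right this (by positivity))
      (fun l => Real.exp (1 / l + a l / l + K * (1 / l) ^ 2 + K * c * (Real.sqrt l)⁻¹ ^ 3))
      S hP (fun l hl I => ysb_loc1 h hc (hP l hl) I) T hT
    refine h1.trans ?_
    rw [← Real.exp_sum, sum_add_distrib, sum_add_distrib, sum_add_distrib, ← mul_sum, ← mul_sum]
    have h2 : ∑ l ∈ S, a l / l ≤ 1 := by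
      calc ∑ l ∈ S, a l / l ≤ ∑ l ∈ S, if l = 2 then (1 : ℝ) else 0 := by
            refine sum_le_sum fun l hl => ?_
            obtain ⟨h3, h4, h5⟩ := hS l hl
            have h0 : (0 : ℝ) < l := by exact_mod_cast h3.pos
            have h6 : (1 : ℝ) ≤ l := by exact_mod_cast h3.one_le
            split_ifs with h7
            · rw [div_le_one h0]
              linarith
            · exact div_nonpos_of_nonpos_of_nonneg (h5 h7) h0.le
        _ ≤ 1 := by
            rw [sum_ite_eq']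
            split_ifs <;> norm_num
    have h3 := Pool.Agent.Lib.Sieve.sum_inv_sq_primes_le _ hP
    have h4 : ∑ l ∈ S, (Real.sqrt l)⁻¹ ^ 3 ≤ 40 := by
      refine le_trans (sum_le_sum_of_subset_of_nonneg (fun l hl => ?_) fun _ _ _ => by positivity)
        (tht_w' (S.sup id))
      exact Nat.mem_primesLE.2 ⟨le_sup (f := id) hl, hP l hl⟩
    have h6 := mul_le_mul_of_nonneg_left h3 hK
    have h7 := mul_le_mul_of_nonneg_left h4 hA
    have h8 := Real.exp_pos (∑ l ∈ S, 1 / (l : ℝ))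
    calc _ ≤ Real.exp ((1 + K + K * c * 40) + ∑ l ∈ S, 1 / (l : ℝ)) :=
          Real.exp_le_exp.2 (by linarith)
      _ = Real.exp (1 + K + K * c * 40) * Real.exp (∑ l ∈ S, 1 / (l : ℝ)) := Real.exp_add _ _
      _ ≤ _ := mul_le_mul_of_nonneg_right (by linarith) h8.le
  · have h1 := tht_euler (fun n => f n / (n : ℝ) ^ (3 / 4 : ℝ))
      (fun n => div_nonneg (h.nonneg n) (by positivity))
      (by simpa using h.one)
      (fun m n hmn => by
        have := h.mul m n hmn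
        push_cast
        rw [div_mul_div_comm, Real.mul_rpow (by positivity) (by positivity)]
        exact div_le_div_of_nonneg_right this (by positivity))
      (fun _ => K * c) S hP (fun l hl I => ysb_loc2 h hc (hP l hl) I) T hT
    refine h1.trans ?_
    rw [prod_const]
    exact pow_le_pow_left₀ hA (by linarith) _

theorem ysb_HT (D : ℤ) :
    HT 8 (fun l => jacobiSym D l) (fun n => (tid_pf tid_s * tid_pf (tid_r D)) n) := by
  have hM := (tid_pf_mul tid_s).mul (tid_pf_mul (tid_r D))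
  have hs0 : ∀ l, tid_s l 0 = 1 := fun l => if_pos Even.zero
  have hs1 : ∀ l, tid_s l 1 = 0 := fun l => if_neg Nat.not_even_one
  have hs2 : ∀ l, tid_s l 2 = 1 := fun l => if_pos even_two
  have f1 : ∀ l : ℕ, l.Prime → (tid_pf tid_s * tid_pf (tid_r D)) l = tid_r D l 1 := fun l hl => by
    have := tid_conv_pow hl (tid_r_zero D l) (hs0 l) 1
    rw [pow_one] at this
    rw [this]
    simp [Finset.sum_range_succ, hs0, hs1]
  have f2 : ∀ l : ℕ, l.Prime → (tid_pf tid_s * tid_pf (tid_r D)) (l ^ 2) = tid_r D l 2 + 1 :=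
    fun l hl => by
      rw [tid_conv_pow hl (tid_r_zero D l) (hs0 l) 2]
      simp [Finset.sum_range_succ, hs0, hs1, hs2, tid_r_zero]
  have r1 : tid_r D 2 1 = 1 := by simp [tid_r]
  have r2 : tid_r D 2 2 = 2 := by simp [tid_r]
  refine ⟨fun n => ?_, hM.map_one.le, fun m n h => (hM.map_mul_of_coprime h).le, fun l hl => ?_,
    fun l hl => ?_, fun l k hl => ?_⟩
  · rw [ArithmeticFunction.mul_apply]
    exact Finset.sum_nonneg fun p _ => mul_nonneg (tid_pf_nonneg tid_s_nonneg _)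
      (tid_pf_nonneg (tid_r_nonneg D) _)
  · rw [f1 l hl]
    by_cases h : l = 2
    · rw [h, r1]
      norm_num
    · exact (tid_odd D hl h).1
  · rw [f1 l hl, f2 l hl]
    by_cases h : l = 2
    · subst h
      have hJ : (-1 : ℝ) ≤ jacobiSym D 2 := by
        rcases jacobiSym.trichotomy D 2 with h | h | h <;> rw [h] <;> norm_num
      rw [r1, r2]
      push_cast
      linarith
    · have h1 := (tid_odd D hl h).2
      have hl0 : (0 : ℝ) < l := by exact_mod_cast hl.pos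
      have h2 : (2 : ℝ) / l + 1 / l ≤ 8 / l := by
        rw [← add_div]
        exact div_le_div_of_nonneg_right (by norm_num) hl0.le
      rw [add_div]
      linarith
  · rw [tid_conv_pow hl (tid_r_zero D l) (hs0 l) k]
    have hl1 : (1 : ℝ) ≤ l := by exact_mod_cast hl.one_le
    have h1 : (l : ℝ) ^ (k / 2) ≤ Real.sqrt (l ^ k) := by
      refine Real.le_sqrt_of_sq_le ?_
      rw [← pow_mul]
      exact pow_le_pow_right₀ hl1 (by omega)
    have h2 := Finset.sum_le_card_nsmul (range (k + 1)) (fun i => tid_s l i * tid_r D l (k - i))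
      (8 * Real.sqrt (l ^ k)) fun i _ => by
        have h3 := tid_r_le D hl (k - i)
        have h4 : (l : ℝ) ^ ((k - i) / 2) ≤ l ^ (k / 2) := pow_le_pow_right₀ hl1 (by omega)
        have h5 := mul_le_of_le_one_left (tid_r_nonneg D l (k - i)) (tid_s_le l i)
        have h6 := Real.sqrt_nonneg ((l : ℝ) ^ k)
        linarith
    rw [Finset.card_range, nsmul_eq_mul] at h2
    push_cast at h2
    linarith

theorem ysb_split (S : Finset ℕ) {n : ℕ} (hn : 0 < n) : ∃ n1 n2 : ℕ, n = n1 * n2 ∧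
    (∀ l : ℕ, l.Prime → l ∣ n1 → l ∈ S) ∧ ∀ l : ℕ, l.Prime → l ∣ n2 → l ∉ S := by
  induction n using induction_on_primes with
  | zero => exact absurd hn (lt_irrefl 0)
  | one =>
    exact ⟨1, 1, rfl, fun l hl h => absurd h hl.not_dvd_one, fun l hl h => absurd h hl.not_dvd_one⟩
  | prime_mul p a hp ih =>
    obtain ⟨n1, n2, e, h1, h2⟩ := ih (Nat.pos_of_mul_pos_left hn)
    by_cases h : p ∈ S
    · refine ⟨p * n1, n2, by rw [e, mul_assoc], fun l hl h3 => ?_, h2⟩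
      rcases (Nat.Prime.dvd_mul hl).1 h3 with h4 | h4
      · rwa [(Nat.prime_dvd_prime_iff_eq hl hp).1 h4]
      · exact h1 l hl h4
    · refine ⟨n1, p * n2, by rw [e, mul_left_comm], h1, fun l hl h3 => ?_⟩
      rcases (Nat.Prime.dvd_mul hl).1 h3 with h4 | h4
      · rwa [(Nat.prime_dvd_prime_iff_eq hl hp).1 h4]
      · exact h2 l hl h4

theorem ysb_jc_sq {g d : ℤ} {e : ℕ} (h : e.Coprime g.natAbs) : jc (g ^ 2 * d) e = jc d e := by
  unfold jc
  have h1 : Int.gcd g e = 1 := by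
    rw [Int.gcd, Int.natAbs_natCast]
    exact h.symm
  rw [jacobiSym.mul_left, jacobiSym.sq_one' h1, one_mul]

theorem ysb_rr_sq {g d : ℤ} {n : ℕ} (h : n.Coprime g.natAbs) :
    rr (jc (g ^ 2 * d)) n = rr (jc d) n :=
  sum_congr rfl fun _ he => ysb_jc_sq (Nat.Coprime.coprime_dvd_left (Nat.dvd_of_mem_divisors he) h)

theorem idl_major : ∃ K : ℝ, 1 ≤ K ∧ ∀ D : ℤ, IsD D → ∃ u : ℕ → ℝ, (∀ n, 0 ≤ u n) ∧
    (∀ N : ℕ, ∑ n ∈ Icc 1 N, u n / n ≤
      K * Real.exp (∑ l ∈ (4 * D.natAbs).primeFactors, 1 / (l : ℝ)) ∧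
      ∑ n ∈ Icc 1 N, u n / (n : ℝ) ^ (3 / 4 : ℝ) ≤ K ^ #(4 * D.natAbs).primeFactors) ∧
    ∀ (d g : ℤ) (P : ℕ), D = g ^ 2 * d → 0 < P → 2 ∣ P →
      (∀ l : ℕ, l.Prime → l ∣ P → (l : ℤ) ∣ 2 * D) → ∀ n : ℕ, 0 < n → ((Idl D n).ncard : ℝ) ≤
        K * ∑ x ∈ n.divisorsAntidiagonal, u x.1 * vv P (jc ((P : ℤ) ^ 2 * d)) x.2 := by
  obtain ⟨C, hC, HC⟩ := smooth_sums 8
  refine ⟨C + 8, by linarith, fun D hD => ?_⟩
  have hD0 : D < 0 := hD.1
  have hDa : 0 < D.natAbs := Int.natAbs_pos.2 hD0.ne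
  have h40 : 4 * D.natAbs ≠ 0 := by omega
  have hmem : ∀ l : ℕ, l.Prime → (l ∈ (4 * D.natAbs).primeFactors ↔ l ∣ 2 * D.natAbs) := by
    intro l hl
    rw [Nat.mem_primeFactors]
    constructor
    · rintro ⟨-, h, -⟩
      rw [show 4 * D.natAbs = 2 * (2 * D.natAbs) by ring] at h
      rcases (Nat.Prime.dvd_mul hl).1 h with h | h
      · exact h.mul_right _
      · exact h
    · intro h
      refine ⟨hl, ?_, h40⟩
      rw [show 4 * D.natAbs = 2 * (2 * D.natAbs) by ring]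
      exact h.mul_left 2
  have hu0 : ∀ n : ℕ, 0 ≤ (if n.primeFactors ⊆ (4 * D.natAbs).primeFactors then
      (tid_pf tid_s * tid_pf (tid_r D)) n else 0) := fun n => by
    split_ifs
    · exact ysb_f_nonneg D n
    · exact le_rfl
  refine ⟨fun n => if n.primeFactors ⊆ (4 * D.natAbs).primeFactors then
    (tid_pf tid_s * tid_pf (tid_r D)) n else 0, hu0, fun N => ?_, ?_⟩
  · obtain ⟨h1, h2⟩ := HC _ _ (ysb_HT D) (4 * D.natAbs).primeFactors
      ((Icc 1 N).filter fun n => n.primeFactors ⊆ (4 * D.natAbs).primeFactors)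
      (fun l hl => by
        have hp := Nat.prime_of_mem_primeFactors hl
        refine ⟨hp, ?_, fun h2 => ?_⟩
        · show (jacobiSym D l : ℝ) ≤ 1
          rcases jacobiSym.trichotomy D l with h | h | h <;> rw [h] <;> norm_num
        · have h3 : l ∣ D.natAbs := ((Nat.Prime.dvd_mul hp).1 ((hmem l hp).1 hl)).resolve_left
            fun h => h2 ((Nat.prime_dvd_prime_iff_eq hp Nat.prime_two).1 h)
          have hJ : jacobiSym D l = 0 := by
            have : NeZero l := ⟨hp.ne_zero⟩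
            refine jacobiSym.eq_zero_iff_not_coprime.2 fun h => hp.not_dvd_one ?_
            rw [← h, Int.gcd, Int.natAbs_natCast]
            exact Nat.dvd_gcd h3 dvd_rfl
          show (jacobiSym D l : ℝ) ≤ 0
          rw [hJ]
          norm_num)
      (fun n hn => by
        obtain ⟨h3, h4⟩ := mem_filter.1 hn
        have := (mem_Icc.1 h3).1
        exact ⟨by omega, h4⟩)
    rw [sum_filter] at h1 h2
    simp only [ite_div, zero_div]
    constructor
    · exact h1.trans (mul_le_mul_of_nonneg_right (by linarith) (Real.exp_pos _).le)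
    · exact h2.trans (pow_le_pow_left₀ (by linarith) (by linarith) _)
  · intro d g P e hP h2 hPD n hn
    have hd : d < 0 := by
      by_contra h
      have : 0 ≤ g ^ 2 * d := mul_nonneg (sq_nonneg g) (not_lt.1 h)
      omega
    have hP0 : (0 : ℤ) < (P : ℤ) ^ 2 := by positivity
    have hR := rc_jc (ysb_nsq (mul_neg_of_pos_of_neg hP0 hd))
    have hv0 : ∀ m, 0 ≤ vv P (jc ((P : ℤ) ^ 2 * d)) m := fun m => by
      rw [vv_jc h2]
      split_ifs
      · exact hR.rr_nonneg m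
      · exact le_rfl
    obtain ⟨n1, n2, en, h1, h3⟩ := ysb_split (4 * D.natAbs).primeFactors hn
    have hn2 : 0 < n2 := Nat.pos_of_mul_pos_left (en ▸ hn)
    have hc2 : n2.Coprime (2 * D.natAbs) :=
      Nat.coprime_of_dvd fun l hl h4 h5 => h3 l hl h4 ((hmem l hl).2 h5)
    have hc12 : n1.Coprime n2 := Nat.coprime_of_dvd fun l hl h4 h5 => h3 l hl h5 (h1 l hl h4)
    have hcP : n2.Coprime P := Nat.coprime_of_dvd fun l hl h4 h5 => by
      have h6 := Int.natCast_dvd.1 (hPD l hl h5)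
      rw [Int.natAbs_mul] at h6
      exact h3 l hl h4 ((hmem l hl).2 h6)
    have hcg : n2.Coprime g.natAbs := by
      refine Nat.Coprime.coprime_dvd_right ?_ hc2
      rw [e, Int.natAbs_mul, Int.natAbs_pow]
      exact Dvd.dvd.mul_left (Dvd.dvd.mul_right (dvd_pow_self _ two_ne_zero) _) 2
    have hsub : n1.primeFactors ⊆ (4 * D.natAbs).primeFactors := fun l hl =>
      h1 l (Nat.prime_of_mem_primeFactors hl) (Nat.dvd_of_mem_primeFactors hl)
    have h4 : (tid_pf tid_s * tid_pf (tid_r D)) n2 ≤ vv P (jc ((P : ℤ) ^ 2 * d)) n2 := by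
      rw [vv_jc h2, if_pos hcP, ysb_rr_sq (by rwa [Int.natAbs_natCast]), ← ysb_rr_sq hcg, ← e]
      exact f_le_rr hD0 hn2 hc2
    have hM := (tid_pf_mul tid_s).mul (tid_pf_mul (tid_r D))
    have h5 : (tid_pf tid_s * tid_pf (tid_r D)) n ≤ ∑ x ∈ n.divisorsAntidiagonal,
        (if x.1.primeFactors ⊆ (4 * D.natAbs).primeFactors then
          (tid_pf tid_s * tid_pf (tid_r D)) x.1 else 0) * vv P (jc ((P : ℤ) ^ 2 * d)) x.2 := by
      refine le_trans ?_ (single_le_sum (f := fun x : ℕ × ℕ =>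
        (if x.1.primeFactors ⊆ (4 * D.natAbs).primeFactors then
          (tid_pf tid_s * tid_pf (tid_r D)) x.1 else 0) * vv P (jc ((P : ℤ) ^ 2 * d)) x.2)
        (fun x _ => mul_nonneg (hu0 _) (hv0 _)) (a := (n1, n2))
        (Nat.mem_divisorsAntidiagonal.2 ⟨en.symm, hn.ne'⟩))
      show _ ≤ (if n1.primeFactors ⊆ (4 * D.natAbs).primeFactors then
          (tid_pf tid_s * tid_pf (tid_r D)) n1 else 0) * vv P (jc ((P : ℤ) ^ 2 * d)) n2
      rw [if_pos hsub, en, hM.map_mul_of_coprime hc12]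
      exact mul_le_mul_of_nonneg_left h4 (ysb_f_nonneg D _)
    refine (tid_ncard D hn).trans ?_
    exact mul_le_mul (by linarith) h5 (ysb_f_nonneg D _) (by linarith)

end Pool.Agent.EQ
end
end

-- part Pool.Agent.P.MP_ad7a55_nt.Main2
section

/-! The main theorem under the weaker hypothesis. -/

set_option autoImplicit false

noncomputable section

open MeasureTheory Topology Filter UpperHalfPlane
open scoped MatrixGroups ENNReal BoundedContinuousFunction

namespace Pool.Agent.EQ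

theorem disc_tendsto {τ : ℕ → ℍ} {D : ℕ → ℤ} (hD : ∀ i, HasDisc (τ i) (D i))
    (h : ∀ z : ℂ, {i | jInv (τ i) = z}.Finite) (Y : ℝ) : ∀ᶠ i in atTop, Y ≤ -(D i : ℝ) := by
  have h1 := ((Set.finite_Icc (-⌈Y⌉) 0).biUnion fun E _ => Cl_finite E).biUnion fun z _ => h z
  rw [← Nat.cofinite_eq_atTop]
  filter_upwards [h1.compl_mem_cofinite] with i hi
  by_contra h2
  refine hi (Set.mem_biUnion (x := jInv (τ i)) (Set.mem_biUnion (x := D i)
    ⟨?_, (hD i).isD.1.le⟩ ⟨_, discL_one (hD i), jL_one _⟩) rfl)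
  have h3 : ((-⌈Y⌉ : ℤ) : ℝ) ≤ D i := by
    push_cast
    linarith [Int.le_ceil Y]
  exact_mod_cast h3

theorem main_ind2 {n : ℕ} (F : IntermediateField ℚ ℂ) [FiniteDimensional ℚ F] (S : Finset ℕ)
    (hS : ∀ p ∈ S, p.Prime) (τ : ℕ → Fin n → ℍ) (D : ℕ → Fin n → ℤ)
    (hD : ∀ i k, HasDisc (τ i k) (D i k)) {η : ℝ} (hη : 0 < η)
    (hdom : ∀ k, ∀ᶠ i in atTop,
      |(D i k : ℝ)| ^ η ≤ ∏ p ∈ S, (p : ℝ) ^ padicValInt p (D i k))
    (hinf : ∀ Y : ℝ, ∀ᶠ i in atTop, ∀ k, Y ≤ -(D i k : ℝ))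
    (hgen : NoIsog τ) (𝒰 : Ultrafilter ℕ) (h𝒰 : (𝒰 : Filter ℕ) ≤ atTop)
    (f : Fin n → (ℂ →ᵇ ℝ)) (I : Finset (Fin n)) :
    Tendsto (fun i => avg (orbit_finite F (hD i)).toFinset (fun z => ∏ k ∈ I, f k (z k))) 𝒰
      (𝓝 (∏ k ∈ I, ∫ z, f k z ∂mY)) := by
  classical
  have hneg : ∀ i k, D i k < 0 := fun i k => (hD i k).isD.1
  induction I using Finset.strongInduction with
  | H I ih =>
    rcases I.eq_empty_or_nonempty with rfl | hI
    · have : ∀ i, avg (orbit_finite F (hD i)).toFinset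
          (fun z => ∏ k ∈ (∅ : Finset (Fin n)), f k (z k)) = 1 := fun i => by
        have h1 : (orbit_finite F (hD i)).toFinset.Nonempty :=
          ⟨_, (orbit_finite F (hD i)).mem_toFinset.2 (orbit_self F _)⟩
        have h2 : ((orbit_finite F (hD i)).toFinset.card : ℝ) ≠ 0 := by
          exact_mod_cast h1.card_pos.ne'
        simp only [avg, Finset.prod_empty, Finset.sum_const, nsmul_eq_mul, mul_one]
        exact div_self h2
      rw [funext this, Finset.prod_empty]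
      exact tendsto_const_nhds
    obtain ⟨j₀, hj₀, h0⟩ := ultra_max 𝒰 hI fun i k => -(D i k : ℝ)
    have hSne : S.Nonempty := by
      rcases S.eq_empty_or_nonempty with rfl | h
      · obtain ⟨i, h1, h2⟩ := ((hdom j₀).and (hinf 2)).exists
        rw [Finset.prod_empty] at h1
        have h3 : 1 < |(D i j₀ : ℝ)| := by linarith [h2 j₀, neg_le_abs (D i j₀ : ℝ)]
        exact absurd (Real.one_lt_rpow h3 hη) (not_lt.2 h1)
      · exact h
    have hSc : (0 : ℝ) < S.card := by exact_mod_cast hSne.card_pos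
    obtain ⟨p, hp, h1⟩ := ultra_max 𝒰 hSne fun i p => (p : ℝ) ^ padicValInt p (D i j₀)
    obtain ⟨j, hj, h2⟩ := ultra_max 𝒰 hI fun i k => padicValInt p (D i k)
    have : Fact p.Prime := ⟨hS p hp⟩
    have hp1 : (1 : ℝ) < p := by exact_mod_cast (hS p hp).one_lt
    obtain ⟨J, hJI, hjJ, hJ⟩ := main_step2 F τ D hD hgen 𝒰 h𝒰 (fun Y => h𝒰 (hinf Y)) p I j hj h2
      (div_pos hη hSc) (by
      filter_upwards [h0, h1, h2, h𝒰 (hdom j₀)] with i h0 h1 h2 h3 k hk
      have h4 : (D i j₀ : ℝ) < 0 := by exact_mod_cast hneg i j₀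
      have h5 : (D i k : ℝ) < 0 := by exact_mod_cast hneg i k
      have h6 : (-(D i k : ℝ)) ^ η ≤ ((p : ℝ) ^ padicValInt p (D i j)) ^ S.card := by
        refine (Real.rpow_le_rpow (by linarith) (h0 k hk) hη.le).trans ?_
        rw [← abs_of_neg h4]
        refine h3.trans ?_
        rw [← Finset.prod_const]
        exact Finset.prod_le_prod (fun _ _ => by positivity) fun q hq =>
          (h1 q hq).trans (pow_le_pow_right₀ hp1.le (h2 j₀ hj₀))
      have h7 : (-(D i k : ℝ)) ^ (η / S.card) ≤ (p : ℝ) ^ padicValInt p (D i j) := by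
        rw [div_eq_mul_inv, Real.rpow_mul (by linarith)]
        refine (Real.rpow_le_rpow (Real.rpow_nonneg (by linarith) _) h6 (by positivity)).trans ?_
        rw [Real.pow_rpow_inv_natCast (by positivity) hSne.card_pos.ne']
      rw [norm_int_eq p (hneg i j).ne, zpow_neg, zpow_natCast, Real.rpow_neg (by linarith)]
      exact inv_anti₀ (Real.rpow_pos_of_pos (by linarith) _) h7) f
    have h3 := ih (I \ J) (Finset.sdiff_ssubset hJI ⟨j, hjJ⟩)
    have h4 := hJ.add (h3.const_mul (∏ k ∈ J, ∫ z, f k z ∂mY))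
    simp only [sub_add_cancel, zero_add] at h4
    rwa [mul_comm, Finset.prod_sdiff hJI] at h4

theorem main2 {n : ℕ} (F : IntermediateField ℚ ℂ) [FiniteDimensional ℚ F] (S : Finset ℕ)
    (hS : ∀ p ∈ S, p.Prime) (τ : ℕ → Fin n → ℍ) (D : ℕ → Fin n → ℤ)
    (hD : ∀ i k, HasDisc (τ i k) (D i k)) {η : ℝ} (hη : 0 < η)
    (hdom : ∀ k, ∀ᶠ i in atTop,
      |(D i k : ℝ)| ^ η ≤ ∏ p ∈ S, (p : ℝ) ^ padicValInt p (D i k))
    (hpt : ∀ k, ∀ z : ℂ, {i | jInv (τ i k) = z}.Finite)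
    (hgen : ∀ k l, k ≠ l → ∀ a b c d : ℤ, 0 < a * d - b * c →
      {i | ∃ z w : ℍ, (w : ℂ) = (a * z + b) / (c * z + d) ∧ jInv (τ i k) = jInv z ∧
        jInv (τ i l) = jInv w}.Finite)
    (f : (Fin n → ℂ) → ℝ) (hf : Continuous f) (hc : HasCompactSupport f) :
    (∀ i, (galOrbit F fun k => jInv (τ i k)).Finite) ∧
      Tendsto (fun i => (∑ᶠ y ∈ galOrbit F (fun k => jInv (τ i k)), f y) /
        (galOrbit F fun k => jInv (τ i k)).ncard) atTop
        (𝓝 (∫ y, f y ∂(Measure.pi fun _ : Fin n => mY))) :=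
  ⟨fun i => orbit_finite F (hD i), final_of_prod _ (fun i => orbit_finite F (hD i))
    (fun _ => ⟨_, orbit_self F _⟩)
    (fun 𝒰 h𝒰 g => main_ind2 F S hS τ D hD hη hdom
      (fun Y => eventually_all.2 fun k => disc_tendsto (fun i => hD i k) (hpt k) Y)
      (noIsog_of_finite τ hgen) 𝒰 h𝒰 g Finset.univ) f hf hc⟩

end Pool.Agent.EQ
end
end
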