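import Pool.Agent.K.MP_ad7a55_nt.C49
import Pool.Agent.K.MP_ad7a55_nt.C62
import Pool.Agent.K.MP_ad7a55_nt.C38
import Pool.Agent.K.MP_ad7a55_nt.C47
import Pool.Agent.K.MP_ad7a55_nt.C58
import Pool.Agent.K.MP_ad7a55_nt.C42
import Pool.Agent.K.MP_ad7a55_nt.C61
import Pool.Agent.K.MP_ad7a55_nt.C59
import Pool.Agent.K.MP_ad7a55_nt.C50
import Pool.Agent.K.MP_ad7a55_nt.C36

-- part Pool.Agent.P.MP_ad7a55_nt.UIm
section

/-! Framed points: tightness and close pairs. -/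

set_option autoImplicit false

noncomputable section

open MeasureTheory Topology Filter UpperHalfPlane
open scoped MatrixGroups ENNReal BoundedContinuousFunction

namespace Pool.Agent.EQ

variable {p q : ℕ} [Fact p.Prime] [Fact q.Prime]

theorem cf_tight (hpq : p ≠ q) (T : Finset SL(2, ℚ_[p])) {t : ℝ} (ht : 0 < t) :
    ∃ Ω : Set (X3 p q), IsCompact Ω ∧ ∀ (D : ℤ) (rp : ℚ_[p]) (rq : ℚ_[q]), ∀ hp ∈ T,
      ∀ (hq : SL(2, ℚ_[q])) (x : X3 p q), CF p q D rp rq hp hq x →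
        j3 p q (iP p q hp • x) ∉ Sh D t 1 → x ∈ Ω := by
  obtain ⟨Ω, hΩ, H⟩ := exists_compact3 p q hpq (1 / t)
  refine ⟨⋃ h ∈ T, (fun y => (iP p q h)⁻¹ • y) '' Ω,
    T.finite_toSet.isCompact_biUnion fun h _ => hΩ.image (continuous_const_smul _),
    fun D rp rq hp hT hq x hx hS => Set.mem_biUnion (Finset.mem_coe.2 hT)
      ⟨iP p q hp • x, ?_, inv_smul_smul _ _⟩⟩
  obtain ⟨c, τ, hc, e, hτ⟩ := hx.2
  obtain ⟨γ, hγ⟩ := ModularGroup.exists_smul_mem_fd τ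
  have hj : j3 p q (iP p q hp • x) = jInv (γ • τ) := by
    rw [← (lat3_spec p q _).2, e, jL_sp hc, jInv_smul]
  refine H _ (γ • τ) hγ ?_ hj
  by_contra hlt
  refine hS (hj ▸ mem_Sh_of_fd (hτ.smul γ) ?_)
  rw [not_le, div_lt_iff₀' ht] at hlt
  exact hlt.le

theorem uim_mem {g : SL(2, ℝ)} {z : ℂ} :
    z ∈ colL g ↔ ∃ m n : ℤ, z = frame_ph g (m : ℚ) (n : ℚ) := by
  rw [colL, mem_sp]
  refine exists₂_congr fun m n => ?_
  have e : frame_ph g (m : ℚ) (n : ℚ) = m * ((g 0 0 : ℂ) - g 1 0 * Complex.I) +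
      n * ((g 0 1 : ℂ) - g 1 1 * Complex.I) := by
    simp only [frame_ph]
    push_cast
    ring
  rw [e]

theorem uim_lat {g : G3 p q} (h1 : g.1.2 ∈ Kp p) (h2 : g.2 ∈ Kp q) :
    lat3 p q (g : X3 p q) = colL g.1.1 := by
  rw [lat3_eq p q (pi3_mk p q h2).symm, latG_K p h1, colL]

/-- The integral matrix of the square root of the discriminant. -/
theorem uim_theta {g : SL(2, ℝ)} {E : ℤ} (d : DiscL (colL g) E) :
    ∃ Θ : Matrix (Fin 2) (Fin 2) ℤ, (g : Matrix (Fin 2) (Fin 2) ℝ) * Θ.map (↑) =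
      !![0, Real.sqrt (-(E : ℝ)); -Real.sqrt (-(E : ℝ)), 0] * (g : Matrix (Fin 2) (Fin 2) ℝ) := by
  have h := pr_mul_le.1 ((d.end_iff (th E)).2 (th_mem_OD E))
  obtain ⟨a, c, e1⟩ := uim_mem.1 (h _ (uim_mem.2 ⟨1, 0, rfl⟩))
  obtain ⟨b, d, e2⟩ := uim_mem.1 (h _ (uim_mem.2 ⟨0, 1, rfl⟩))
  have r1 := congrArg Complex.re e1
  have i1 := congrArg Complex.im e1
  have r2 := congrArg Complex.re e2
  have i2 := congrArg Complex.im e2
  simp [frame_ph, th] at r1 i1 r2 i2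
  refine ⟨!![a, b; c, d], ?_⟩
  ext i j
  fin_cases i <;> fin_cases j <;> simp [Matrix.mul_apply, Fin.sum_univ_two] <;> linarith

theorem uim_add {x y : ℚ_[p]} {r : ℝ} (hx : ‖x‖ ≤ r) (hy : ‖y‖ ≤ r) : ‖x + y‖ ≤ r :=
  (Padic.nonarchimedean _ _).trans (max_le hx hy)

theorem uim_mul {x y : ℚ_[p]} {r : ℝ} (hx : ‖x‖ ≤ 1) (hy : ‖y‖ ≤ r) : ‖x * y‖ ≤ r := by
  rw [norm_mul]
  exact (mul_le_of_le_one_left (norm_nonneg _) hx).trans hy

theorem uim_two (h2 : p ≠ 2) : ‖(2 : ℚ_[p])‖ = 1 := by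
  have h : ¬ ‖((2 : ℕ) : ℚ_[p])‖ < 1 := fun h' => h2
    ((Nat.prime_dvd_prime_iff_eq Fact.out Nat.prime_two).1 (Padic.norm_natCast_lt_one_iff.1 h'))
  refine le_antisymm ?_ (by simpa using h)
  simpa using Padic.norm_int_le_one (p := p) 2

theorem uim_appr {x : ℚ_[p]} (hx : ‖x‖ ≤ 1) {ε : ℝ} (hε : 0 < ε) : ∃ n : ℤ, ‖x - n‖ < ε := by
  obtain ⟨m, hm⟩ := PadicInt.denseRange_intCast.exists_dist_lt (⟨x, hx⟩ : ℤ_[p]) hε
  refine ⟨m, ?_⟩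
  rw [dist_eq_norm, PadicInt.norm_def] at hm
  simpa using hm

/-- An approximate eigenvector. -/
theorem uim_lvl (h2 : p ≠ 2) {κ m : ℕ} {D E b₀ : ℤ} (hE : D = (p : ℤ) ^ (2 * κ) * E)
    {rp e : ℚ_[p]} {rq : ℚ_[q]} {hq : SL(2, ℚ_[q])} {g : G3 p q} {Θ : Matrix (Fin 2) (Fin 2) ℚ}
    (h : FrG p q D rp rq hq g Θ) (hK : g.1.2 ∈ Kp p) (d : DiscL (colL g.1.1) E)
    (he : rp = (p : ℚ_[p]) ^ κ * e) (he1 : ‖e‖ ≤ 1) (hb : 2 ∣ b₀ - E)
    (hb' : ‖e + b₀‖ ≤ (p : ℝ) ^ (-(m : ℤ))) {a b : ℤ}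
    (hv : ‖g.1.2 0 0 * a + g.1.2 0 1 * b‖ ≤ (p : ℝ) ^ (-(m : ℤ))) :
    (th E - b₀) / 2 * frame_ph g.1.1 a b ∈ pr ((p ^ m : ℕ) : ℂ) * colL g.1.1 := by
  obtain ⟨n, hn⟩ := hb
  have hn' : (b₀ : ℂ) - E = 2 * n := by exact_mod_cast hn
  have hy : (th E - b₀) / 2 ∈ OD E := mem_sp.2 ⟨-E - n, 1, by
    push_cast
    linear_combination (-1 / 2 : ℂ) * hn'⟩
  obtain ⟨u, w, e1⟩ := uim_mem.1 (pr_mul_le.1 ((d.end_iff _).2 hy) _ (uim_mem.2 ⟨a, b, rfl⟩))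
  have e2 := h.th a b
  have e3 : th D = (p : ℂ) ^ κ * th E := by
    have := th_mul_sq (p ^ κ) E
    rw [hE, mul_comm 2 κ, pow_mul]
    exact_mod_cast this
  have e4 : frame_ph g.1.1 ((p : ℚ) ^ κ * (2 * u + b₀ * a)) ((p : ℚ) ^ κ * (2 * w + b₀ * b)) =
      frame_ph g.1.1 (Θ 0 0 * a + Θ 0 1 * b) (Θ 1 0 * a + Θ 1 1 * b) := by
    rw [← e2, e3]
    simp only [frame_ph] at e1 ⊢
    push_cast at e1 ⊢
    linear_combination (-2 * (p : ℂ) ^ κ) * e1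
  obtain ⟨k1, k2⟩ := frame_ph_inj _ e4
  have c1 := congrArg (fun z : ℚ => (z : ℚ_[p])) k1
  have c2 := congrArg (fun z : ℚ => (z : ℚ_[p])) k2
  simp only [Rat.cast_add, Rat.cast_mul, Rat.cast_intCast, Rat.cast_pow, Rat.cast_natCast,
    Rat.cast_ofNat] at c1 c2
  have h00 := congrFun (congrFun h.2.1 0) 0
  have h01 := congrFun (congrFun h.2.1 0) 1
  have h10 := congrFun (congrFun h.2.1 1) 0
  have h11 := congrFun (congrFun h.2.1 1) 1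
  simp only [Matrix.mul_apply, Fin.sum_univ_two, Matrix.map_apply, Matrix.of_apply,
    Matrix.cons_val', Matrix.cons_val_zero, Matrix.cons_val_one, Matrix.cons_val_fin_one,
    Fin.isValue, zero_mul, zero_add, add_zero] at h00 h01 h10 h11
  have hp0 : (p : ℚ_[p]) ^ κ ≠ 0 :=
    pow_ne_zero _ (by exact_mod_cast (Fact.out : p.Prime).ne_zero)
  have hi : ∀ z : ℤ, ‖(z : ℚ_[p])‖ ≤ 1 := Padic.norm_int_le_one
  have x0 : 2 * (g.1.2 0 0 * u + g.1.2 0 1 * w) =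
      (e + -b₀) * (g.1.2 0 0 * a + g.1.2 0 1 * b) := by
    refine mul_left_cancel₀ hp0 ?_
    linear_combination g.1.2 0 0 * c1 + g.1.2 0 1 * c2 + (a : ℚ_[p]) * h00 + (b : ℚ_[p]) * h01 +
      (g.1.2 0 0 * a + g.1.2 0 1 * b) * he
  have x1 : 2 * (g.1.2 1 0 * u + g.1.2 1 1 * w) =
      -(g.1.2 1 0 * a + g.1.2 1 1 * b) * (e + b₀) := by
    refine mul_left_cancel₀ hp0 ?_
    linear_combination g.1.2 1 0 * c1 + g.1.2 1 1 * c2 + (a : ℚ_[p]) * h10 + (b : ℚ_[p]) * h11 -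
      (g.1.2 1 0 * a + g.1.2 1 1 * b) * he
  have n0 : ‖g.1.2 0 0 * u + g.1.2 0 1 * w‖ ≤ (p : ℝ) ^ (-(m : ℤ)) := by
    have := uim_mul (uim_add he1 (frame_neg_le p (hi b₀))) hv
    rwa [← x0, norm_mul, uim_two h2, one_mul] at this
  have n1 : ‖g.1.2 1 0 * u + g.1.2 1 1 * w‖ ≤ (p : ℝ) ^ (-(m : ℤ)) := by
    have := uim_mul (frame_neg_le p (frame_K_le p hK (hi a) (hi b) 1)) hb'
    rwa [← x1, norm_mul, uim_two h2, one_mul] at this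
  have hd := frame_det g.1.2
  have nu : ‖(u : ℚ_[p])‖ ≤ (p : ℝ) ^ (-(m : ℤ)) := by
    have : (u : ℚ_[p]) = g.1.2 1 1 * (g.1.2 0 0 * u + g.1.2 0 1 * w) +
        -g.1.2 0 1 * (g.1.2 1 0 * u + g.1.2 1 1 * w) := by linear_combination (-(u : ℚ_[p])) * hd
    rw [this]
    exact uim_add (uim_mul (hK 1 1) n0) (uim_mul (frame_neg_le p (hK 0 1)) n1)
  have nw : ‖(w : ℚ_[p])‖ ≤ (p : ℝ) ^ (-(m : ℤ)) := by
    have : (w : ℚ_[p]) = g.1.2 0 0 * (g.1.2 1 0 * u + g.1.2 1 1 * w) +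
        -g.1.2 1 0 * (g.1.2 0 0 * u + g.1.2 0 1 * w) := by linear_combination (-(w : ℚ_[p])) * hd
    rw [this]
    exact uim_add (uim_mul (hK 0 0) n1) (uim_mul (frame_neg_le p (hK 1 0)) n0)
  obtain ⟨u', rfl⟩ := (Padic.norm_int_le_pow_iff_dvd u m).1 nu
  obtain ⟨w', rfl⟩ := (Padic.norm_int_le_pow_iff_dvd w m).1 nw
  refine mem_pr_mul.2 ⟨_, uim_mem.2 ⟨u', w', rfl⟩, ?_⟩
  rw [e1]
  simp only [frame_ph]
  push_cast
  ring

theorem cf_op (hpq : p ≠ q) (h2 : p ≠ 2) (κ m : ℕ) {D E : ℤ} (hE : D = (p : ℤ) ^ (2 * κ) * E)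
    (hp' : ¬ (p : ℤ) ∣ E) (rp : ℚ_[p]) : ∃ b₀ : ℤ, ∀ (rq rq' : ℚ_[q]) (hp hp' : SL(2, ℚ_[p]))
      (hq hq' : SL(2, ℚ_[q])) (x x' : X3 p q), CF p q D rp rq hp hq x →
      CF p q D rp rq' hp' hq' x' → (x, x') ∈ Op p q m →
      (j3 p q x, j3 p q x') ∈ LevP (p ^ m) b₀ 8 E := by
  have hP : p.Prime := Fact.out
  have hp1 : (1 : ℝ) < p := by exact_mod_cast hP.one_lt
  have hp0 : (p : ℚ_[p]) ^ κ ≠ 0 := pow_ne_zero _ (by exact_mod_cast hP.ne_zero)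
  obtain ⟨e, he⟩ : ∃ e : ℚ_[p], rp = (p : ℚ_[p]) ^ κ * e := ⟨rp / p ^ κ, by field_simp⟩
  have hpos : (0 : ℝ) < (p : ℝ) ^ (-(m : ℤ)) := zpow_pos (by linarith) _
  have hi : ∀ z : ℤ, ‖(z : ℚ_[p])‖ ≤ 1 := Padic.norm_int_le_one
  by_cases he1 : ‖e‖ ≤ 1
  swap
  · refine ⟨0, fun rq rq' hp hp' hq hq' x x' h _ _ => absurd ?_ he1⟩
    have h1 := (h.1.sq h.2.isD.1.le).1
    have h3 : e ^ 2 = E := by
      refine mul_left_cancel₀ (pow_ne_zero 2 hp0) ?_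
      rw [← mul_pow, ← he, h1, hE]
      push_cast
      ring
    have h4 := hi E
    rw [← h3, norm_pow] at h4
    exact (pow_le_one_iff_of_nonneg (norm_nonneg _) two_ne_zero).1 h4
  obtain ⟨b₁, hb₁⟩ := uim_appr (frame_neg_le p he1) hpos
  obtain ⟨b₀, hb, hb'⟩ : ∃ b₀ : ℤ, 2 ∣ b₀ - E ∧ ‖e + b₀‖ ≤ (p : ℝ) ^ (-(m : ℤ)) := by
    refine ⟨b₁ + p ^ m * (E - b₁), ?_, ?_⟩
    · obtain ⟨k, hk⟩ : Odd ((p : ℤ) ^ m) := (Int.odd_coe_nat p |>.2 (hP.odd_of_ne_two h2)).pow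
      exact ⟨k * (E - b₁), by rw [hk]; ring⟩
    · have e1 : e + ((b₁ + p ^ m * (E - b₁) : ℤ) : ℚ_[p]) =
          -(-e - b₁) + ((E - b₁ : ℤ) : ℚ_[p]) * p ^ m := by
        push_cast
        ring
      rw [e1]
      refine uim_add (by rw [norm_neg]; exact hb₁.le) (uim_mul (hi _) ?_)
      rw [Padic.norm_p_pow]
  refine ⟨b₀, fun rq rq' hp hp'' hq hq' x x' h h' hO => ?_⟩
  obtain ⟨γ, γ1, γ2, γ3, γ4, hx'⟩ := hO
  obtain ⟨g, g1, g2, rfl⟩ := exists_rep3 p q hpq x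
  have hx2 : ((γ * g : G3 p q) : X3 p q) = x' := hx'.symm
  have k1 : (γ * g).1.2 ∈ Kp p := (Kp p).mul_mem γ2 g1
  have k2 : (γ * g).2 ∈ Kp q := (Kp q).mul_mem γ4 g2
  have l1 := uim_lat g1 g2
  have l2 := uim_lat k1 k2
  rw [hx2] at l2
  have d1 := h.disc0 hpq h2 hE hp'
  have d2 := h'.disc0 hpq h2 hE hp'
  rw [l1] at d1
  rw [l2] at d2
  obtain ⟨Θ, hΘ⟩ := h.1.rep rfl
  obtain ⟨Θ', hΘ'⟩ := h'.1.rep hx2
  obtain ⟨Θ₁, t1⟩ := uim_theta d1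
  obtain ⟨Θ₂, t2⟩ := uim_theta d2
  obtain ⟨α, β, B, -, hm, hrl, -⟩ := hm_of_frame (P := (γ.1.1 : Matrix (Fin 2) (Fin 2) ℝ))
    (η := 1) (s := -E) (R := 2) (by simp) t1 t2 d1 d2 (by have := d1.isD.1; omega) (by ring)
    (fun i j => (γ1 i j).le)
  have hε : 0 < min ((p : ℝ) ^ (-(m : ℤ))) 1 := lt_min hpos one_pos
  obtain ⟨a, ha⟩ := uim_appr (frame_neg_le p (g1 0 1)) hε
  obtain ⟨b, hb2⟩ := uim_appr (g1 0 0) hε
  have hd := frame_det g.1.2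
  have v0 : ‖g.1.2 0 0 * a + g.1.2 0 1 * b‖ ≤ (p : ℝ) ^ (-(m : ℤ)) := by
    have : g.1.2 0 0 * a + g.1.2 0 1 * b =
        -g.1.2 0 0 * (-g.1.2 0 1 - a) + -g.1.2 0 1 * (g.1.2 0 0 - b) := by ring
    rw [this]
    exact uim_add (uim_mul (frame_neg_le p (g1 0 0)) (ha.le.trans (min_le_left _ _)))
      (uim_mul (frame_neg_le p (g1 0 1)) (hb2.le.trans (min_le_left _ _)))
  have v1 : ‖(γ * g).1.2 0 0 * a + (γ * g).1.2 0 1 * b‖ ≤ (p : ℝ) ^ (-(m : ℤ)) := by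
    have : (γ * g).1.2 0 0 * a + (γ * g).1.2 0 1 * b = γ.1.2 0 0 * (g.1.2 0 0 * a + g.1.2 0 1 * b) +
        (g.1.2 1 0 * a + g.1.2 1 1 * b) * γ.1.2 0 1 := by
      simp only [Prod.fst_mul, Prod.snd_mul, Matrix.SpecialLinearGroup.coe_mul, Matrix.mul_apply,
        Fin.sum_univ_two]
      ring
    rw [this]
    exact uim_add (uim_mul (γ2 0 0) v0) (uim_mul (frame_K_le p g1 (hi a) (hi b) 1) γ3)
  refine ⟨colL g.1.1, colL (γ * g).1.1, α, β, B, d1, d2, ?_, ?_, ?_, hb, frame_ph g.1.1 a b,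
    uim_mem.2 ⟨a, b, rfl⟩, fun l hl hlp hv => ?_, uim_lvl h2 hE hΘ g1 d1 he he1 hb hb' v0, ?_⟩
  · rw [← l1, (lat3_spec p q _).2]
  · rw [← l2, (lat3_spec p q _).2]
  · have e8 : (2 : ℝ) * 2 ^ 2 = 8 := by norm_num
    rwa [Matrix.det_one, e8] at hm
  · obtain rfl : l = p := (Nat.prime_dvd_prime_iff_eq hl hP).1 (hl.dvd_of_dvd_pow hlp)
    obtain ⟨z, hz, ez⟩ := mem_pr_mul.1 hv
    obtain ⟨a', b', rfl⟩ := uim_mem.1 hz
    rw [show ((l : ℕ) : ℂ) = ((l : ℚ) : ℂ) by simp, frame_ph_mul] at ez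
    obtain ⟨ea, eb⟩ := frame_ph_inj _ ez
    have na : ‖(a : ℚ_[l])‖ < 1 := Padic.norm_intCast_lt_one_iff.2 ⟨a', by exact_mod_cast ea.symm⟩
    have nb : ‖(b : ℚ_[l])‖ < 1 := Padic.norm_intCast_lt_one_iff.2 ⟨b', by exact_mod_cast eb.symm⟩
    have e1 : (1 : ℚ_[l]) = (g.1.2 1 0 * (-g.1.2 0 1 - a) + g.1.2 1 1 * (g.1.2 0 0 - b)) +
        (g.1.2 1 0 * a + g.1.2 1 1 * b) := by linear_combination -hd
    have n1 := uim_add (uim_add (uim_mul (g1 1 0) (le_max_left _ _ |>.trans (le_max_left _ _)))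
      (uim_mul (g1 1 1) (le_max_right _ _ |>.trans (le_max_left _ _))))
      (uim_add (uim_mul (g1 1 0) (le_max_left _ _ |>.trans (le_max_right _ _)))
      (uim_mul (g1 1 1) (le_max_right _ _ |>.trans (le_max_right _ _))))
      (r := max (max ‖-g.1.2 0 1 - a‖ ‖g.1.2 0 0 - b‖) (max ‖(a : ℚ_[l])‖ ‖(b : ℚ_[l])‖))
    rw [← e1, norm_one] at n1
    exact absurd n1 (not_le.2 (max_lt (max_lt (ha.trans_le (min_le_right _ _))
      (hb2.trans_le (min_le_right _ _))) (max_lt na nb)))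
  · have := uim_lvl h2 hE hΘ' k1 d2 he he1 hb hb' v1
    rw [hrl]
    simpa using this

theorem uim_incl (c : ℕ) (g : GG p) {h : SL(2, ℚ_[p])}
    (hh : Bd ((p : ℝ) ^ c) (h : Matrix (Fin 2) (Fin 2) ℚ_[p])) :
    pr ((p : ℂ) ^ c) * latG p g ≤ latG p (((1, h) : GG p) * g) := by
  refine pr_mul_le.2 fun z hz => ?_
  obtain ⟨a, b, ha, hb, h0, h1, rfl⟩ := (frame_mem_latG p).1 hz
  have hp0 : (0 : ℝ) < p := by exact_mod_cast (Fact.out : p.Prime).pos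
  have hc : InZp p ((p : ℚ) ^ c) := by simpa using inZp_int p (p ^ c)
  have hn : ∀ i j, ‖h i j * (p : ℚ_[p]) ^ c‖ ≤ 1 := fun i j => by
    rw [norm_mul, Padic.norm_p_pow, zpow_neg, zpow_natCast, mul_inv_le_iff₀ (by positivity),
      one_mul]
    exact hh i j
  have key : ∀ i, ‖(((1, h) : GG p) * g).2 i 0 * (((p : ℚ) ^ c * a : ℚ) : ℚ_[p]) +
      (((1, h) : GG p) * g).2 i 1 * (((p : ℚ) ^ c * b : ℚ) : ℚ_[p])‖ ≤ 1 := fun i => by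
    refine le_trans (le_of_eq ?_) (uim_add (uim_mul (hn i 0) h0) (uim_mul (hn i 1) h1))
    congr 1
    simp only [Prod.snd_mul, Matrix.SpecialLinearGroup.coe_mul, Matrix.mul_apply, Fin.sum_univ_two]
    push_cast
    ring
  refine (frame_mem_latG p).2 ⟨_, _, hc.mul ha, hc.mul hb, key 0, key 1, ?_⟩
  rw [← frame_ph_mul, Prod.fst_mul, one_mul]
  push_cast
  rfl

theorem uim_bd_inv {R : ℝ} {h : SL(2, ℚ_[p])} (hh : Bd R (h : Matrix (Fin 2) (Fin 2) ℚ_[p])) :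
    Bd R ((h⁻¹ : SL(2, ℚ_[p])) : Matrix (Fin 2) (Fin 2) ℚ_[p]) := fun i j => by
  rw [Matrix.SpecialLinearGroup.SL2_inv_expl]
  fin_cases i <;> fin_cases j
  · simpa using hh 1 1
  · simpa using hh 0 1
  · simpa using hh 1 0
  · simpa using hh 0 0

theorem fib_hp (hpq : p ≠ q) (c : ℕ) (w : ℂ) :
    {z | ∃ (x : X3 p q) (h : SL(2, ℚ_[p])), Bd ((p : ℝ) ^ c) (h : Matrix (Fin 2) (Fin 2) ℚ_[p]) ∧
      j3 p q x = w ∧ z = j3 p q (iP p q h • x)}.Finite ∧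
    {z | ∃ (x : X3 p q) (h : SL(2, ℚ_[p])), Bd ((p : ℝ) ^ c) (h : Matrix (Fin 2) (Fin 2) ℚ_[p]) ∧
      j3 p q x = w ∧ z = j3 p q (iP p q h • x)}.ncard ≤ p ^ (6 * c) := by
  obtain ⟨Λ, hΛ, rfl⟩ := jL_surj w
  have hP : p.Prime := Fact.out
  obtain ⟨f1, f2⟩ := card_between (N := p ^ (2 * c)) (pow_pos hP.pos _) hΛ
  have hc0 : (p : ℂ) ^ c ≠ 0 := pow_ne_zero _ (by exact_mod_cast hP.ne_zero)
  have := tmx_img' (S := {z | ∃ (x : X3 p q) (h : SL(2, ℚ_[p])),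
      Bd ((p : ℝ) ^ c) (h : Matrix (Fin 2) (Fin 2) ℚ_[p]) ∧
      j3 p q x = jL Λ ∧ z = j3 p q (iP p q h • x)}) f1 jL (by
    rintro z ⟨x, h, hh, hx, rfl⟩
    obtain ⟨g, -, hg⟩ := exists_rep p (pi3 p q x)
    have l1 := lat3_eq p q hg
    have l2 : lat3 p q (iP p q h • x) = latG p (((1, h) : GG p) * g) := lat3_eq p q (by
      rw [pi3_smul p q (g := iP p q h) (Kp q).one_mem, ← hg]
      rfl)
    have i1 := uim_incl c g hh
    have i2 := uim_incl c (((1, h) : GG p) * g) (uim_bd_inv hh)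
    have e : ((1, h⁻¹) : GG p) * (((1, h) : GG p) * g) = g := by
      rw [← mul_assoc]
      simp
    rw [e, ← l1, ← l2] at i2
    rw [← l1, ← l2] at i1
    obtain ⟨t, ht, rfl⟩ := jL_inj (lat3_spec p q x).1 hΛ ((lat3_spec p q x).2.trans hx)
    refine ⟨pr t * (pr ((p : ℂ) ^ c) * lat3 p q (iP p q h • x)), ⟨?_, ?_⟩, ?_⟩
    · have e2 : pr ((p ^ (2 * c) : ℕ) : ℂ) * (pr t * lat3 p q x) =
          pr t * (pr ((p : ℂ) ^ c) * (pr ((p : ℂ) ^ c) * lat3 p q x)) := by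
        rw [← mul_assoc (pr _) (pr ((p : ℂ) ^ c)) (lat3 p q x), pr_mul_pr, mul_left_comm]
        congr 3
        push_cast
        ring
      rw [e2]
      exact (pr_mul_le_iff ht).2 ((pr_mul_le_iff hc0).2 i1)
    · exact (pr_mul_le_iff ht).2 i2
    · rw [jL_pr_mul ((lat3_spec p q _).1.pr_mul hc0) ht, jL_pr_mul (lat3_spec p q _).1 hc0,
        (lat3_spec p q _).2])
  refine ⟨this.1, this.2.trans (f2.trans (le_of_eq ?_))⟩
  rw [← pow_mul]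
  congr 1
  ring

theorem bw_set (hpq : p ≠ q) (h2 : p ≠ 2) (c : ℕ) : ∃ K : ℝ, 0 < K ∧ ∀ m : ℕ, ∃ Y : ℝ,
    ∀ (D : ℤ) (κ : ℕ) (rp : ℚ_[p]), κ ≤ c → IsD D → Spl p κ D → Y ≤ -(D : ℝ) →
      ∃ S : Set (ℂ × ℂ), S.Finite ∧ (S.ncard : ℝ) ≤ K * (p : ℝ) ^ (-(m : ℤ)) * HH D ^ 2 ∧
        ∀ (rq rq' : ℚ_[q]) (hp hp' : SL(2, ℚ_[p])) (hq hq' : SL(2, ℚ_[q])) (x x' : X3 p q),
          Bd ((p : ℝ) ^ c) (hp : Matrix (Fin 2) (Fin 2) ℚ_[p]) →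
          Bd ((p : ℝ) ^ c) (hp' : Matrix (Fin 2) (Fin 2) ℚ_[p]) → CF p q D rp rq hp hq x →
          CF p q D rp rq' hp' hq' x' → (x, x') ∈ Op p q m →
          (j3 p q (iP p q hp • x), j3 p q (iP p q hp' • x')) ∈ S := by
  have hP : p.Prime := Fact.out
  have hp1 : (1 : ℝ) ≤ p := by exact_mod_cast hP.one_lt.le
  obtain ⟨K, hK, H⟩ := pair_two hP h2 8
  obtain ⟨C, hC, H'⟩ := HH_le (ε := 1) one_pos
  refine ⟨K * C ^ 2 * ((p : ℝ) ^ (6 * c) * (p : ℝ) ^ (6 * c)), by positivity, fun m => ?_⟩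
  obtain ⟨Y, HY⟩ := H m
  refine ⟨max Y 0 * (p : ℝ) ^ (2 * c), fun D κ rp hκ hD hS hY => ?_⟩
  obtain ⟨E, hE, hJ⟩ := hS
  have hE' : D = ((p ^ κ : ℕ) : ℤ) ^ 2 * E := by
    rw [hE]
    push_cast
    ring
  have hED : IsD E := ctf_odd (g := p ^ κ) (fun h => h2
    ((Nat.prime_dvd_prime_iff_eq Nat.prime_two hP).1 (Nat.prime_two.dvd_of_dvd_pow h)).symm)
    (hE' ▸ hD)
  have h3 := tti_three hED
  have hpE : ¬ (p : ℤ) ∣ E := by
    rintro ⟨k, rfl⟩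
    have h0 : jacobiSym (p : ℤ) p = 0 :=
      jacobiSym.eq_zero_iff.2 ⟨hP.ne_zero, by simpa using hP.one_lt.ne'⟩
    rw [jacobiSym.mul_left, h0, zero_mul] at hJ
    exact zero_ne_one hJ
  have hYE : Y ≤ -(E : ℝ) := by
    have e1 : -(D : ℝ) = -(E : ℝ) * (p : ℝ) ^ (2 * κ) := by
      rw [hE]
      push_cast
      ring
    have e2 : (p : ℝ) ^ (2 * κ) ≤ (p : ℝ) ^ (2 * c) := pow_le_pow_right₀ hp1 (by omega)
    have e3 := hY.trans (e1.le.trans (mul_le_mul_of_nonneg_left e2 (by linarith)))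
    exact (le_max_left _ _).trans (le_of_mul_le_mul_right e3 (by positivity))
  obtain ⟨b₀, hb₀⟩ := cf_op (q := q) hpq h2 κ m hE hpE rp
  set F : ℂ → Set ℂ := fun w => {z | ∃ (x : X3 p q) (h : SL(2, ℚ_[p])),
    Bd ((p : ℝ) ^ c) (h : Matrix (Fin 2) (Fin 2) ℚ_[p]) ∧
      j3 p q x = w ∧ z = j3 p q (iP p q h • x)} with hF
  obtain ⟨u1, u2⟩ := tpair_biUnion (LevP_finite (p ^ m) b₀ 8 E) (fun w => F w.1 ×ˢ F w.2)
    (k := p ^ (6 * c) * p ^ (6 * c)) fun w _ => ⟨(fib_hp hpq c w.1).1.prod (fib_hp hpq c w.2).1, by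
      rw [Set.ncard_prod]
      exact Nat.mul_le_mul (fib_hp hpq c w.1).2 (fib_hp hpq c w.2).2⟩
  refine ⟨_, u1, ?_, fun rq rq' hp hp' hq hq' x x' b1 b2 c1 c2 hO =>
    Set.mem_biUnion (hb₀ rq rq' hp hp' hq hq' x x' c1 c2 hO)
      ⟨⟨x, hp, b1, rfl, rfl⟩, ⟨x', hp', b2, rfl, rfl⟩⟩⟩
  have k1 := HY E b₀ hED hJ hYE
  have k2 : HH E ≤ C * HH D := by
    have := H' E (p ^ κ) (by exact_mod_cast (show (E : ℝ) < -1 by linarith)) (pow_pos hP.pos _)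
    rw [← hE', Real.rpow_one] at this
    refine le_of_mul_le_mul_left (a := ((p ^ κ : ℕ) : ℝ)) (this.trans (le_of_eq (by ring))) ?_
    exact_mod_cast pow_pos hP.pos _
  have k3 : HH E ^ 2 ≤ (C * HH D) ^ 2 := pow_le_pow_left₀ (tti_HH_nonneg E) k2 2
  calc _ ≤ ((LevP (p ^ m) b₀ 8 E).ncard : ℝ) * ((p : ℝ) ^ (6 * c) * (p : ℝ) ^ (6 * c)) := by
        exact_mod_cast u2
    _ ≤ K / (p : ℝ) ^ m * (C * HH D) ^ 2 * ((p : ℝ) ^ (6 * c) * (p : ℝ) ^ (6 * c)) :=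
        mul_le_mul_of_nonneg_right
          (k1.trans (mul_le_mul_of_nonneg_left k3 (by positivity))) (by positivity)
    _ = _ := by
        rw [zpow_neg, zpow_natCast]
        ring

end Pool.Agent.EQ
end
end

-- part Pool.Agent.P.MP_ad7a55_nt.UIn
section

/-! Framed points: almost triangular correspondences. -/

set_option autoImplicit false

noncomputable section

open MeasureTheory Topology Filter UpperHalfPlane
open scoped MatrixGroups ENNReal BoundedContinuousFunction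

namespace Pool.Agent.EQ

variable {p q : ℕ} [Fact p.Prime] [Fact q.Prime]

theorem uin_frame {F : Type} [CommRing F] (h₁ h₂ g₁ g₂ : SL(2, F))
    {P X : Matrix (Fin 2) (Fin 2) F}
    (h : (h₂ : Matrix (Fin 2) (Fin 2) F) * P * ((h₁⁻¹ : SL(2, F)) : Matrix (Fin 2) (Fin 2) F) *
      (g₁ : Matrix (Fin 2) (Fin 2) F) = (g₂ : Matrix (Fin 2) (Fin 2) F) * X) :
    P * ((h₁⁻¹ * g₁ : SL(2, F)) : Matrix (Fin 2) (Fin 2) F) =
      ((h₂⁻¹ * g₂ : SL(2, F)) : Matrix (Fin 2) (Fin 2) F) * X := by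
  have e : ((h₂⁻¹ : SL(2, F)) : Matrix (Fin 2) (Fin 2) F) * (h₂ : Matrix (Fin 2) (Fin 2) F) = 1 := by
    rw [← Matrix.SpecialLinearGroup.coe_mul, inv_mul_cancel, Matrix.SpecialLinearGroup.coe_one]
  rw [Matrix.SpecialLinearGroup.coe_mul, Matrix.SpecialLinearGroup.coe_mul, Matrix.mul_assoc, ← h]
  simp only [← Matrix.mul_assoc]
  rw [e, Matrix.one_mul]

theorem uin_diag {F : Type} [CommRing F] (r₁ r₂ : F) (Q : Matrix (Fin 2) (Fin 2) F) :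
    excW !![r₂, 0; 0, -r₂] Q !![r₁, 0; 0, -r₁] =
      2 * (r₁ * r₂) * (Q 0 0 * Q 1 1 + Q 0 1 * Q 1 0) := by
  rw [excW_eq]
  simp only [Matrix.of_apply, Matrix.cons_val', Matrix.cons_val_zero, Matrix.cons_val_one,
    Matrix.cons_val_fin_one]
  ring

theorem uin_cast {F : Type} [CommRing F] (A B C : Matrix (Fin 2) (Fin 2) ℤ) :
    ((excW A B C : ℤ) : F) = excW (A.map (↑)) (B.map (↑)) (C.map (↑)) := by
  simp only [excW_eq, Matrix.map_apply]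
  push_cast
  ring

theorem uin_scale {F : Type} [Field F] [CharZero F] {N : ℕ} {ξ : Matrix (Fin 2) (Fin 2) ℚ}
    {η : Matrix (Fin 2) (Fin 2) ℤ} (hη : ∀ i j, (N : ℚ) * ξ i j = η i j)
    {P A B : Matrix (Fin 2) (Fin 2) F} (h : P * A = B * ξ.map (↑)) :
    ((N : F) • P) * A = B * η.map (↑) := by
  have e : η.map ((↑) : ℤ → F) = (N : F) • ξ.map ((↑) : ℚ → F) := by
    ext i j
    have := congrArg (fun z : ℚ => (z : F)) (hη i j)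
    simp only [Rat.cast_mul, Rat.cast_natCast, Rat.cast_intCast] at this
    simp only [Matrix.map_apply, Matrix.smul_apply, smul_eq_mul, this]
  rw [e, Matrix.smul_mul, Matrix.mul_smul, h]

theorem uin_core {q' : ℕ} (hq' : 0 < q') {δ : ℚ} (hδ : δ ≠ 0) {R : ℝ} {c c₀ : ℕ}
    (hc₀ : R ≤ (p : ℝ) ^ c₀) (r : ℕ) {D₁ D₂ : ℤ} {r₁ r₂ : ℚ_[p]} {h₁ h₂ : SL(2, ℚ_[p])}
    {g₁ g₂ : GG p} {Θ₁ Θ₂ : Matrix (Fin 2) (Fin 2) ℤ} {ρ₁ ρ₂ : ℚ}
    (k₁ : g₁.2 ∈ Kp p) (k₂ : g₂.2 ∈ Kp p) (dl₁ : DiscL (latG p g₁) D₁)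
    (dl₂ : DiscL (latG p g₂) D₂)
    (fr₁ : (g₁.1 : Matrix (Fin 2) (Fin 2) ℝ) * Θ₁.map (↑) =
      !![0, Real.sqrt (-(D₁ : ℝ)); -Real.sqrt (-(D₁ : ℝ)), 0] * (g₁.1 : Matrix (Fin 2) (Fin 2) ℝ))
    (fr₂ : (g₂.1 : Matrix (Fin 2) (Fin 2) ℝ) * Θ₂.map (↑) =
      !![0, Real.sqrt (-(D₂ : ℝ)); -Real.sqrt (-(D₂ : ℝ)), 0] * (g₂.1 : Matrix (Fin 2) (Fin 2) ℝ))
    (fp₁ : ((h₁⁻¹ * g₁.2 : SL(2, ℚ_[p])) : Matrix (Fin 2) (Fin 2) ℚ_[p]) * Θ₁.map (↑) =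
      !![r₁, 0; 0, -r₁] * ((h₁⁻¹ * g₁.2 : SL(2, ℚ_[p])) : Matrix (Fin 2) (Fin 2) ℚ_[p]))
    (fp₂ : ((h₂⁻¹ * g₂.2 : SL(2, ℚ_[p])) : Matrix (Fin 2) (Fin 2) ℚ_[p]) * Θ₂.map (↑) =
      !![r₂, 0; 0, -r₂] * ((h₂⁻¹ * g₂.2 : SL(2, ℚ_[p])) : Matrix (Fin 2) (Fin 2) ℚ_[p]))
    (sq₁ : r₁ ^ 2 = D₁)
    (b₁ : Bd ((p : ℝ) ^ c) (h₁ : Matrix (Fin 2) (Fin 2) ℚ_[p]))
    (b₂ : Bd ((p : ℝ) ^ c) (h₂ : Matrix (Fin 2) (Fin 2) ℚ_[p])) (hρ₁ : 0 < ρ₁) (hρ₂ : 0 < ρ₂)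
    (hρ : ρ₁ ^ 2 * D₁ = ρ₂ ^ 2 * D₂) (hr : (ρ₁ : ℚ_[p]) * r₁ = ρ₂ * r₂)
    (hD : (p : ℝ) ^ (-(2 * c : ℤ)) ≤ ‖(D₁ : ℚ_[p])‖)
    {P₁ : Matrix (Fin 2) (Fin 2) ℝ} {P₂ : Matrix (Fin 2) (Fin 2) ℚ_[p]}
    (hP : ((P₁, (h₂ : Matrix (Fin 2) (Fin 2) ℚ_[p]) * P₂ *
      ((h₁⁻¹ : SL(2, ℚ_[p])) : Matrix (Fin 2) (Fin 2) ℚ_[p])) : MM p) ∈
        HomS p q' δ (g₁ : XX p) (g₂ : XX p))
    (hd2 : P₂.det = δ) (hB₁ : ∀ i j, |P₁ i j| < R) (hB₂ : Bd R P₂)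
    (hm : ‖P₂ 1 0‖ ≤ (p : ℝ) ^ (-((r + 2 * c + c₀ : ℕ) : ℤ))) :
    Isog ((p ^ (c + c₀ + c) * q') ^ 2 * δ.num.natAbs) (piX p (g₁ : XX p)) (piX p (g₂ : XX p)) ∨
      Bad3 p ((p ^ (c + c₀ + c) * q') ^ 2 * δ.den * δ.num)
        (2 * (((p ^ (c + c₀ + c) * q' * δ.den : ℕ) : ℝ) * R) ^ 2) r D₁ D₂ (latG p g₁)
        (latG p g₂) := by
  have hp1 : (1 : ℝ) < p := by exact_mod_cast (Fact.out : p.Prime).one_lt
  have hp0 : (0 : ℝ) < p := one_pos.trans hp1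
  have hpN : 0 < p := (Fact.out : p.Prime).pos
  obtain ⟨c₁, hc₁⟩ : ∃ c₁, c₁ = c + c₀ + c := ⟨_, rfl⟩
  rw [← hc₁]
  obtain ⟨n₁, hn₁def⟩ : ∃ n₁ : ℕ, n₁ = p ^ c₁ * q' * δ.den := ⟨_, rfl⟩
  rw [← hn₁def]
  have n10 : 0 < n₁ := by
    have := δ.den_pos
    rw [hn₁def]; positivity
  have hD₁ : D₁ < 0 := dl₁.isD.1
  obtain ⟨ξ, hξ, hdet, hH⟩ := HomS.rep hP rfl rfl
  have hd1 : P₁.det = δ := (HomS.det hP).1
  obtain ⟨n, hn₁, -, hn, hnR⟩ := exc_Pi hD₁ hρ₁ hρ₂ hρ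
  have hR : 0 ≤ R := (norm_nonneg _).trans (hB₂ 0 0)
  have hB : Bd ((p : ℝ) ^ c * R * (p : ℝ) ^ c) ((h₂ : Matrix (Fin 2) (Fin 2) ℚ_[p]) * P₂ *
      ((h₁⁻¹ : SL(2, ℚ_[p])) : Matrix (Fin 2) (Fin 2) ℚ_[p])) :=
    hom_bd_mulP (hom_bd_mulP b₂ hB₂) (hom_bd_inv b₁)
  have hc : (p : ℝ) ^ c * R * (p : ℝ) ^ c ≤ (p : ℝ) ^ c₁ := by
    rw [hc₁, pow_add, pow_add]
    gcongr
  have hBξ : Bd ((p : ℝ) ^ c * R * (p : ℝ) ^ c) (ξ.map ((↑) : ℚ → ℚ_[p])) :=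
    exc2_bd_frame p k₁ k₂ hB hH.2
  have hint : ∀ i j, ∃ k : ℤ, (n₁ : ℚ) * ξ i j = k := by
    intro i j
    obtain ⟨k, hk⟩ : ∃ k : ℤ, (p : ℚ) ^ c₁ * (q' * ξ i j) = k := by
      refine exc_int p (InZp.mul (by exact_mod_cast inZp_int p (p ^ c₁)) (hξ i j)) ?_
      push_cast
      refine exc2_pow p ?_
      have h3 : ‖(q' : ℚ_[p])‖ ≤ 1 := by simpa using Padic.norm_int_le_one (p := p) (q' : ℤ)
      rw [norm_mul]
      exact (mul_le_of_le_one_left (norm_nonneg _) h3).trans ((hBξ i j).trans hc)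
    refine ⟨δ.den * k, ?_⟩
    rw [hn₁def]
    push_cast
    rw [← hk]
    ring
  choose m hmη using hint
  obtain ⟨η, hη⟩ : ∃ η : Matrix (Fin 2) (Fin 2) ℤ, ∀ i j, (n₁ : ℚ) * ξ i j = η i j :=
    ⟨Matrix.of m, hmη⟩
  have hηd : (η.det : ℚ) = (n₁ : ℚ) ^ 2 * δ := by
    rw [← hdet, Matrix.det_fin_two, Matrix.det_fin_two]
    push_cast
    simp only [← hη]
    ring
  have hηn : η.det = (p ^ c₁ * q') ^ 2 * δ.den * δ.num := by
    have : (η.det : ℚ) = (((p ^ c₁ * q') ^ 2 * δ.den * δ.num : ℤ) : ℚ) := by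
      rw [hηd, hn₁def]
      push_cast
      rw [← Rat.mul_den_eq_num δ]
      ring
    exact_mod_cast this
  have e1 := uin_scale hη hH.1
  have e2 := uin_scale hη (uin_frame h₁ h₂ g₁.2 g₂.2 hH.2)
  have hn0 : 0 ≤ -n := by
    have : (0 : ℝ) ≤ ((-n : ℤ) : ℝ) := by
      rw [Int.cast_neg, hnR, neg_neg]; positivity
    exact_mod_cast this
  have hBd : Bd ((n₁ : ℝ) * R) ((n₁ : ℝ) • P₁) := fun i j => by
    rw [Matrix.smul_apply, smul_eq_mul, norm_mul, Real.norm_natCast, Real.norm_eq_abs]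
    exact mul_le_mul_of_nonneg_left (hB₁ i j).le (Nat.cast_nonneg _)
  have l₁ : latG p g₁ = colL g₁.1 := latG_K p k₁
  have l₂ : latG p g₂ = colL g₂.1 := latG_K p k₂
  obtain ⟨α, β, B, hB0, hHm, -, h4, hz⟩ := hm_of_frame (s := -n) e1 fr₁ fr₂ (l₁ ▸ dl₁) (l₂ ▸ dl₂)
    hn0 (by rw [neg_sq, hn]) hBd
  rcases hB0.eq_or_lt with h0 | h0
  · left
    obtain ⟨ha, hb⟩ := hz h0.symm
    have hn1 : (n₁ : ℝ) ≠ 0 := by positivity
    simp only [Matrix.smul_apply, smul_eq_mul] at ha hb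
    refine exc_isog p hq' hδ hc k₁ k₂ hξ hdet hH hd1 hB (mul_left_cancel₀ hn1 ha)
      (mul_left_cancel₀ hn1 ?_)
    change (n₁ : ℝ) * P₁ 1 0 = n₁ * -P₁ 0 1
    rw [hb, mul_neg]
  right
  refine ⟨α, β, B, h0, ?_, ?_⟩
  · rw [l₁, l₂, ← hηn]
    exact hHm
  have r20 : (ρ₂ : ℚ_[p]) ≠ 0 := by exact_mod_cast hρ₂.ne'
  have hn₁' : (n : ℚ_[p]) * ρ₂ = ρ₁ * D₁ := by
    exact_mod_cast congrArg (fun z : ℚ => (z : ℚ_[p])) hn₁
  have hrr : r₁ * r₂ = n := by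
    refine mul_right_cancel₀ r20 ?_
    rw [hn₁', ← sq₁]
    linear_combination (-r₁) * hr
  have hηp : ((η.det : ℤ) : ℚ_[p]) = (n₁ : ℚ_[p]) ^ 2 * (P₂ 0 0 * P₂ 1 1 - P₂ 0 1 * P₂ 1 0) := by
    rw [← Matrix.det_fin_two, hd2]
    have := congrArg (fun z : ℚ => (z : ℚ_[p])) hηd
    simpa only [Rat.cast_intCast, Rat.cast_mul, Rat.cast_pow, Rat.cast_natCast] using this
  have hW : ((excW Θ₂ η Θ₁ : ℤ) : ℚ_[p]) =
      2 * n * ((n₁ : ℚ_[p]) ^ 2 * (P₂ 0 0 * P₂ 1 1 + P₂ 0 1 * P₂ 1 0)) := by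
    rw [uin_cast, excW_conj _ _ fp₁ fp₂ e2, uin_diag, hrr]
    simp only [Matrix.smul_apply, smul_eq_mul]
    ring
  have hBp : (B : ℚ_[p]) = -(n * (n₁ : ℚ_[p]) ^ 2 * (P₂ 0 1 * P₂ 1 0)) := by
    have h5 := congrArg (fun z : ℤ => (z : ℚ_[p])) h4
    simp only [Int.cast_mul, Int.cast_sub, Int.cast_neg, Int.cast_ofNat] at h5
    rw [hW, hηp] at h5
    linear_combination (1 / 4 : ℚ_[p]) * h5
  have h3 : ‖(n₁ : ℚ_[p])‖ ≤ 1 := by simpa using Padic.norm_int_le_one (p := p) (n₁ : ℤ)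
  have h6 : ‖(n : ℚ_[p])‖ ≤ 1 := Padic.norm_int_le_one n
  rw [hBp, norm_neg, norm_mul, norm_mul, norm_mul, norm_pow]
  calc ‖(n : ℚ_[p])‖ * ‖(n₁ : ℚ_[p])‖ ^ 2 * (‖P₂ 0 1‖ * ‖P₂ 1 0‖)
      ≤ 1 * ((p : ℝ) ^ c₀ * (p : ℝ) ^ (-((r + 2 * c + c₀ : ℕ) : ℤ))) :=
        mul_le_mul (mul_le_one₀ h6 (by positivity) (pow_le_one₀ (norm_nonneg _) h3))
          (mul_le_mul ((hB₂ 0 1).trans hc₀) hm (norm_nonneg _) (by positivity)) (by positivity)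
          zero_le_one
    _ = (p : ℝ) ^ (-(r : ℤ)) * (p : ℝ) ^ (-(2 * c : ℤ)) := by
        rw [one_mul, ← zpow_natCast, ← zpow_add₀ hp0.ne', ← zpow_add₀ hp0.ne']
        congr 1
        push_cast
        ring
    _ ≤ _ := mul_le_mul_of_nonneg_left hD (by positivity)

theorem uin_smul {q' : ℕ} {δ : ℚ} {x y : XX p} {P : MM p} (h : P ∈ HomS p q' δ x y)
    (a b : SL(2, ℚ_[p])) :
    ((P.1, (b : Matrix (Fin 2) (Fin 2) ℚ_[p]) * P.2 *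
      ((a⁻¹ : SL(2, ℚ_[p])) : Matrix (Fin 2) (Fin 2) ℚ_[p])) : MM p) ∈
        HomS p q' δ (((1, a) : GG p) • x) (((1, b) : GG p) • y) := by
  have := HomS.smul h ((1, a) : GG p) ((1, b) : GG p)
  simpa only [inv_one, Matrix.SpecialLinearGroup.coe_one, Matrix.one_mul, Matrix.mul_one]
    using this

theorem uin_j (h : SL(2, ℚ_[p])) (x : X3 p q) :
    j3 p q (iP p q h • x) = piX p (((1, h) : GG p) • pi3 p q x) := by
  unfold j3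
  rw [pi3_smul p q (show (iP p q h).2 ∈ Kp q from (Kp q).one_mem)]
  rfl

theorem cf_on (hpq : p ≠ q) {q' : ℕ} (hq' : 0 < q') {δ : ℚ} (hδ : δ ≠ 0) (R : ℝ) (c : ℕ) :
    ∃ (N : ℕ) (n : ℤ) (C : ℝ), 0 < N ∧ n ≠ 0 ∧ ∀ r : ℕ, ∃ m : ℕ,
      ∀ (D₁ D₂ : ℤ) (r₁ r₂ : ℚ_[p]) (s₁ s₂ : ℚ_[q]) (h₁ h₂ : SL(2, ℚ_[p])) (k₁ k₂ : SL(2, ℚ_[q]))
        (x₁ x₂ : X3 p q) (ρ₁ ρ₂ : ℚ), CF p q D₁ r₁ s₁ h₁ k₁ x₁ → CF p q D₂ r₂ s₂ h₂ k₂ x₂ →
        Bd ((p : ℝ) ^ c) (h₁ : Matrix (Fin 2) (Fin 2) ℚ_[p]) →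
        Bd ((p : ℝ) ^ c) (h₂ : Matrix (Fin 2) (Fin 2) ℚ_[p]) → 0 < ρ₁ → 0 < ρ₂ →
        ρ₁ ^ 2 * D₁ = ρ₂ ^ 2 * D₂ → (ρ₁ : ℚ_[p]) * r₁ = ρ₂ * r₂ →
        (p : ℝ) ^ (-(2 * c : ℤ)) ≤ ‖(D₁ : ℚ_[p])‖ →
        (pi3 p q x₁, pi3 p q x₂) ∈ On p q' δ R m →
        Isog N (j3 p q (iP p q h₁ • x₁)) (j3 p q (iP p q h₂ • x₂)) ∨
          ∃ M₁ M₂, DiscL M₁ D₁ ∧ DiscL M₂ D₂ ∧ jL M₁ = j3 p q (iP p q h₁ • x₁) ∧
            jL M₂ = j3 p q (iP p q h₂ • x₂) ∧ Bad3 p n C r D₁ D₂ M₁ M₂ := by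
  have hp1 : (1 : ℝ) < p := by exact_mod_cast (Fact.out : p.Prime).one_lt
  have hpN : 0 < p := (Fact.out : p.Prime).pos
  obtain ⟨c₀, hc₀⟩ := pow_unbounded_of_one_lt R hp1
  have hnum : δ.num ≠ 0 := Rat.num_ne_zero.2 hδ
  refine ⟨(p ^ (c + c₀ + c) * q') ^ 2 * δ.num.natAbs,
    (p ^ (c + c₀ + c) * q') ^ 2 * δ.den * δ.num,
    2 * (((p ^ (c + c₀ + c) * q' * δ.den : ℕ) : ℝ) * R) ^ 2, ?_, ?_, fun r => ⟨r + 2 * c + c₀, ?_⟩⟩
  · have h2 : 0 < δ.num.natAbs := Int.natAbs_pos.2 hnum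
    positivity
  · have := δ.den_pos
    positivity
  intro D₁ D₂ r₁ r₂ s₁ s₂ h₁ h₂ k₁ k₂ x₁ x₂ ρ₁ ρ₂ cf₁ cf₂ b₁ b₂ hρ₁ hρ₂ hρ hr hD hOn
  obtain ⟨P, hP, hB₁, hB₂, hm⟩ := hOn
  obtain ⟨g₁, Θ₁, m₁, e₁, dl₁, fr₁, fp₁⟩ := cf₁.frame hpq
  obtain ⟨g₂, Θ₂, m₂, e₂, dl₂, fr₂, fp₂⟩ := cf₂.frame hpq
  have hP' := uin_smul hP h₁ h₂
  dsimp only at hP'
  rw [← e₁, ← e₂] at hP'
  rw [uin_j, uin_j, ← e₁, ← e₂]
  rcases uin_core hq' hδ hc₀.le r m₁ m₂ dl₁ dl₂ fr₁ fr₂ fp₁ fp₂ (cf₁.1.sq dl₁.isD.1.le).1 b₁ b₂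
    hρ₁ hρ₂ hρ hr hD hP' (HomS.det hP).2 hB₁ hB₂ hm with h | h
  · exact Or.inl h
  · exact Or.inr ⟨_, _, dl₁, dl₂, (latG_spec p g₁).2, (latG_spec p g₂).2, h⟩

end Pool.Agent.EQ
end
end

-- part Pool.Agent.P.MP_ad7a55_nt.VCl
section

/-! Classes of coordinates with the same field. -/

set_option autoImplicit false

noncomputable section

open MeasureTheory Topology Filter UpperHalfPlane
open scoped MatrixGroups ENNReal BoundedContinuousFunction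

namespace Pool.Agent.EQ

variable {n : ℕ}

/-- The coordinates in `I` have the same field, large discriminants and no isogenies. -/
structure Cls (L : Filter ℕ) (τ : ℕ → Fin n → ℍ) (D : ℕ → Fin n → ℤ) (I : Finset (Fin n)) :
    Prop where
  disc : ∀ i k, HasDisc (τ i k) (D i k)
  big : ∀ᶠ i in L, ∀ k, D i k < -576
  sq : ∀ᶠ i in L, ∀ k ∈ I, ∀ l ∈ I, IsSquare (D i k * D i l)
  inf : ∀ Y : ℝ, ∀ᶠ i in L, ∀ k ∈ I, Y ≤ -(D i k : ℝ)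
  noi : NoIs L τ I

/-- Bounded weights that depend only on the coordinates with another field. -/
structure WtN (L : Filter ℕ) (D : ℕ → Fin n → ℤ) (I : Finset (Fin n))
    (ψ : ℕ → (Fin n × Fn → ℂ) → ℝ) : Prop where
  oth : ∀ᶠ i in L, Oth I (D i) (ψ i)
  bd : ∃ B, ∀ i z, |ψ i z| ≤ B

def StepN (L : Filter ℕ) (N : ℕ) (F : IntermediateField ℚ ℂ) (τ : ℕ → Fin n → ℍ)
    (φ : Fin n → (ℍ →ᵇ ℝ)) (I : Finset (Fin n)) (ψ : ℕ → (Fin n × Fn → ℂ) → ℝ) : Prop :=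
  ∃ J ⊆ I, J.Nonempty ∧ Tendsto (fun i => avg (ON N F (τ i)) fun z =>
    ψ i z * (PT N F φ I z - (∏ k ∈ J, IN N (φ k)) * PT N F φ (I \ J) z)) L (𝓝 0)

def Eqd (L : Filter ℕ) (N : ℕ) (F : IntermediateField ℚ ℂ) (τ : ℕ → Fin n → ℍ)
    (φ : Fin n → (ℍ →ᵇ ℝ)) (I : Finset (Fin n)) (ψ : ℕ → (Fin n × Fn → ℂ) → ℝ) : Prop :=
  Tendsto (fun i => avg (ON N F (τ i)) fun z =>
    ψ i z * (PT N F φ I z - ∏ k ∈ I, IN N (φ k))) L (𝓝 0)

variable {L : Filter ℕ} {N : ℕ} {F : IntermediateField ℚ ℂ} {τ : ℕ → Fin n → ℍ}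
  {D : ℕ → Fin n → ℤ} {φ : Fin n → (ℍ →ᵇ ℝ)} {I J : Finset (Fin n)}
  {ψ : ℕ → (Fin n × Fn → ℂ) → ℝ}

theorem Oth.mono {D : Fin n → ℤ} {ψ : (Fin n × Fn → ℂ) → ℝ} (h : Oth I D ψ) (hJ : J ⊆ I) :
    Oth J D ψ := fun z z' h' => h z z' fun k hk => h' k fun l hl => hk l (hJ hl)

theorem Cls.mono (h : Cls L τ D I) (hJ : J ⊆ I) : Cls L τ D J :=
  ⟨h.disc, h.big, h.sq.mono fun _ a k hk l hl => a k (hJ hk) l (hJ hl),
    fun Y => (h.inf Y).mono fun _ a k hk => a k (hJ hk),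
    fun k hk l hl => h.noi k (hJ hk) l (hJ hl)⟩

theorem WtN.mono (h : WtN L D I ψ) (hJ : J ⊆ I) : WtN L D J ψ :=
  ⟨h.oth.mono fun _ a => a.mono hJ, h.bd⟩

theorem abs_PT_le (N : ℕ) (F : IntermediateField ℚ ℂ) (φ : Fin n → (ℍ →ᵇ ℝ)) (I : Finset (Fin n))
    (z : Fin n × Fn → ℂ) : |PT N F φ I z| ≤ ∏ k ∈ I, ‖φ k‖ := by
  rw [PT, Finset.abs_prod]
  exact Finset.prod_le_prod (fun _ _ => abs_nonneg _) fun k _ => (φ k).norm_coe_le_norm _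

theorem oth_PT {D : Fin n → ℤ} (h : ∀ k ∈ J, ∀ l ∈ I, ¬ IsSquare (D k * D l)) :
    Oth I D (PT N F φ J) := fun _ _ h' =>
  Finset.prod_congr rfl fun k hk => by rw [rp_congr (h' k (h k hk))]

theorem eqd_of_step (h : ∀ J ⊆ I, J.Nonempty → StepN L N F τ φ J ψ) : Eqd L N F τ φ I ψ := by
  classical
  induction I using Finset.strongInduction with
  | H I ih =>
    rcases I.eq_empty_or_nonempty with rfl | hI
    · simpa [Eqd, PT, avg] using tendsto_const_nhds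
    obtain ⟨J, hJI, hJ, h1⟩ := h I subset_rfl hI
    have h2 := ih (I \ J) (Finset.sdiff_ssubset hJI hJ) fun K hK =>
      h K (hK.trans Finset.sdiff_subset)
    have h3 := h1.add (h2.const_mul (∏ k ∈ J, IN N (φ k)))
    rw [mul_zero, add_zero] at h3
    refine h3.congr fun i => ?_
    simp only [avg]
    rw [← mul_div_assoc, ← add_div, Finset.mul_sum, ← Finset.sum_add_distrib,
      ← Finset.prod_sdiff hJI]
    congr 1
    exact Finset.sum_congr rfl fun z _ => by ring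

end Pool.Agent.EQ
end
end

-- part Pool.Agent.P.MP_ad7a55_nt.VH1
section

/-! Unipotent frames along an orbit of level N. -/

set_option autoImplicit false

noncomputable section

open MeasureTheory Topology Filter UpperHalfPlane
open scoped MatrixGroups ENNReal BoundedContinuousFunction

namespace Pool.Agent.EQ

variable (p : ℕ) [Fact p.Prime]

structure FrN {n : ℕ} (N : ℕ) (F : IntermediateField ℚ ℂ) (O : Finset (Fin n × Fn → ℂ))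
    (D : Fin n → ℤ) (j : Fin n) (c : ℕ) (B : ℝ) (ρ : Fin n → ℚ) (Nm : Fin n → ℝ)
    (x : (Fin n × Fn → ℂ) → Fin n → XN p N) (a : (Fin n × Fn → ℂ) → Fin n → SL(2, ℚ_[p]))
    (e : (Fin n × Fn → ℂ) → Fin n → ℚ_[p]) : Prop where
  pi : ∀ z ∈ O, ∀ k, piX p (cov p N (x z k)) = pj z k
  nrm : ∀ z ∈ O, ∀ k, ‖-e z k * ρ k‖ = Nm k
  fr : ∀ z ∈ O, ∀ k, Nm k ≠ 0 →
    Frame p (D k) (cov p N (x z k)) (e z k) ∧ 0 < ρ k ∧ ρ k ^ 2 * D k = D j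
  le : ∀ k, ‖(D k : ℚ_[p])‖ * Nm k ^ 2 ≤ ‖(D j : ℚ_[p])‖
  top : ‖(D j : ℚ_[p])‖ ≤ ‖(4 : ℚ_[p])‖ → Nm j = ‖(2 : ℚ_[p])‖
  sum : ∀ r : ℤ, ‖(D j : ℚ_[p])‖ * ((p : ℝ) ^ r) ^ 2 ≤ (p : ℝ) ^ (-(c : ℤ)) →
    ∀ I : Finset (Fin n), (∀ k ∈ I, IsSquare (D k * D j) ∧ B ≤ -(D k : ℝ)) →
    ∀ φ : Fin n → (ℍ →ᵇ ℝ), (∀ k, Tst N F (φ k)) → ∀ ψ, Oth {j} D ψ →
      ∑ z ∈ O, ψ z * ∫ s, ∏ k ∈ I,
        φ k (ptX p N (((1, a z k) : GG p) • uP p (-e z k * ρ k * s) • x z k)) ∂bm p r =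
      ∑ z ∈ O, ψ z * PT N F φ I z

theorem vh1_pt {N : ℕ} (hN : 0 < N) (M : ℕ) (B₁ : ℝ) : ∃ m : ℕ, ∀ (D D₀ : ℤ) (ρ a b y : ℚ)
    (g γ : GG p) (Θ : Matrix (Fin 2) (Fin 2) ℤ) (e : ℚ_[p]) (κ : SL(2, ℚ_[p])), D < 0 →
    B₁ ≤ -(D : ℝ) → ρ ^ 2 * D = D₀ → th D₀ = ρ * th D → a ^ 2 - b ^ 2 * D₀ = 1 →
    (∀ i : ℕ, ∃ A B : ℚ, ((a : ℂ) + b * th D₀) ^ i = A + B * th D₀ ∧
      ‖(A : ℚ_[p]) - 1‖ ≤ (p : ℝ) ^ (-(m : ℤ)) ∧ ‖(B : ℚ_[p]) ^ 2 * D₀‖ ≤ (p : ℝ) ^ (-(m : ℤ))) →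
    (∃ A B : ℚ, ((a : ℂ) + b * th D₀) ^ M = A + B * th D₀ ∧
      ‖(A : ℚ_[p]) - 1‖ ≤ (p : ℝ) ^ (-(m : ℤ)) ∧ ‖(B : ℚ_[p]) ^ 2 * D₀‖ ≤ (p : ℝ) ^ (-(m : ℤ)) ∧
      ‖((B : ℚ_[p]) + A * y) * ρ‖ ≤ ‖(N : ℚ_[p])‖) → g.2 ∈ Kp p → ThM D g.1 Θ →
    (‖(D : ℚ_[p])‖ ≤ ‖(4 : ℚ_[p])‖ → (g.2 : Matrix (Fin 2) (Fin 2) ℚ_[p]) * Θ.map (↑) =
      !![0, e; D / e, 0] * (g.2 : Matrix (Fin 2) (Fin 2) ℚ_[p]) ∧ ‖e‖ = ‖(2 : ℚ_[p])‖) →
    (¬ ‖(D : ℚ_[p])‖ ≤ ‖(4 : ℚ_[p])‖ → e = 0) → γ ∈ Gam p → κ ∈ Kp p →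
    ∃ (V : SL(2, ℚ_[p])) (s : ℕ), Rot p (a + b * th D₀) ((1, κ) * (g * γ)) V ∧
      (∀ i ≤ M, Bd ((p : ℝ) ^ s) ((V ^ i : SL(2, ℚ_[p])) : Matrix (Fin 2) (Fin 2) ℚ_[p])) ∧
      (p : ℝ) ^ (2 * s) * B₁ ≤ -(D : ℝ) ∧
      ∃ k ∈ KN p N, V ^ M * κ = k * (κ * uu (-e * ρ * y)) := by
  obtain ⟨m₀, h₀⟩ := move_U p hN
  obtain ⟨m₁, h₁⟩ := exists_s p B₁
  have hp : (1 : ℝ) < p := by exact_mod_cast (Fact.out : p.Prime).one_lt
  refine ⟨max m₀ m₁, fun D D₀ ρ a b y g γ Θ e κ hD hB hρ hth hab hi hM hg hΘ c1 c2 hγ hκ => ?_⟩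
  obtain ⟨s, hs, hs'⟩ := h₁ _ (le_max_right m₀ m₁) D hD hB
  have e1 : ∀ A B : ℚ, (A : ℂ) + B * th D₀ = A + ((B * ρ : ℚ) : ℂ) * th D := fun A B => by
    rw [hth]; push_cast; ring
  have e2 : ∀ B : ℚ, ((B * ρ : ℚ) : ℚ_[p]) ^ 2 * D = (B : ℚ_[p]) ^ 2 * D₀ := fun B => by
    have : (ρ : ℚ_[p]) ^ 2 * D = D₀ := by exact_mod_cast congrArg (fun q : ℚ => (q : ℚ_[p])) hρ
    rw [← this]; push_cast; ring
  obtain ⟨V, hV⟩ := exists_rot (p := p) hD hΘ (A := a) (B := b * ρ) (by rw [← hab, ← hρ]; ring)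
  rw [← e1] at hV
  refine ⟨κ * V * κ⁻¹, s, (hV.right hγ).left κ, fun i _ => ?_, hs, ?_⟩
  · obtain ⟨A, B, h1, h2, h3⟩ := hi i
    have h4 := hV.pow i
    rw [h1, e1] at h4
    rw [conj_pow, Matrix.SpecialLinearGroup.coe_mul, Matrix.SpecialLinearGroup.coe_mul]
    exact (bd_U hg hΘ h4 (vrt_le_one p (zpow_le_one_of_nonpos₀ hp.le (by omega)) h2)
      (hs' _ (by rwa [e2]))).K hκ ((Kp p).inv_mem hκ)
  · obtain ⟨A, B, h1, h2, h3, h5⟩ := hM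
    have h4 := hV.pow M
    rw [h1, e1] at h4
    have h6 := h₀ _ (le_max_left m₀ m₁) D g Θ e (ρ * y) _ A (B * ρ) hg hΘ c1 c2 h4 h2
      (by rwa [e2]) (le_trans (le_of_eq (by congr 1; push_cast; ring)) h5)
    refine ⟨_, KN_conj h6 hκ, ?_⟩
    rw [conj_pow, mul_assoc (-e)]
    group

theorem vh1_cont {N : ℕ} (hN : 0 < N) {φ : ℍ →ᵇ ℝ} (hφ : GInv N φ) (κ : SL(2, ℚ_[p])) (d : ℚ_[p])
    (x : XN p N) : Continuous fun s => φ (ptX p N (((1, κ) : GG p) • uP p (d * s) • x)) := by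
  have h : Continuous fun s => uP p (d * s) • x :=
    ((continuous_uP p).comp (continuous_const.mul continuous_id)).smul continuous_const
  exact (hφ.continuous hN φ.continuous).comp ((continuous_const_smul ((1, κ) : GG p)).comp h)

theorem exists_framesN {N : ℕ} (hN : 0 < N) (F : IntermediateField ℚ ℂ) [FiniteDimensional ℚ F]
    (n : ℕ) : ∃ (c : ℕ) (B : ℝ), ∀ (τ : Fin n → ℍ) (D : Fin n → ℤ), (∀ k, HasDisc (τ k) (D k)) →
      ∀ j : Fin n, ∃ ρ Nm x a e, (∀ z k, a z k ∈ Kp p) ∧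
        ((∀ k, D k < -576) → FrN p N F (ON N F τ) D j c B ρ Nm x a e) := by
  classical
  obtain ⟨M, B₁, hM, hrec⟩ := rec_main p hN F n
  obtain ⟨B₂, hB₂⟩ := tst_rp hN F
  obtain ⟨m, hm⟩ := vh1_pt p hN M B₁
  obtain ⟨c, hc⟩ := root_U p hM m
  refine ⟨c, max B₁ B₂, fun τ D h j => ?_⟩
  by_cases hD : ∀ k, D k < -576
  swap
  · exact ⟨fun _ => 0, fun _ => 0, fun _ _ => ((1 : GG p) : XN p N), fun _ _ => 1, fun _ _ => 0,
      fun _ _ => (Kp p).one_mem, fun h' => absurd h' hD⟩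
  have hneg : ∀ k, D k < 0 := fun k => by linarith [hD k]
  have h1 : ∀ k, ∃ ρ : ℚ, (IsSquare (D k * D j) → 0 < ρ ∧ ρ ^ 2 * D k = D j ∧
      th (D j) = ρ * th (D k)) ∧ (¬ IsSquare (D k * D j) → ρ = 0) := by
    intro k
    by_cases hk : IsSquare (D k * D j)
    · obtain ⟨ρ, hρ⟩ := exists_ratio (hneg k) (hneg j) hk
      exact ⟨ρ, fun _ => hρ, fun h' => absurd hk h'⟩
    · exact ⟨0, fun h' => absurd h' hk, fun _ => rfl⟩
  choose ρ hρ hρ' using h1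
  have h2 : ∀ (z : Fin n × Fn → ℂ) (k : Fin n), ∃ (g γ : GG p) (Θ : Matrix (Fin 2) (Fin 2) ℤ)
      (e : ℚ_[p]) (κ : SL(2, ℚ_[p])), κ ∈ Kp p ∧ (z ∈ galO F (evs (MF N F) τ) →
      g.2 ∈ Kp p ∧ ThM (D k) g.1 Θ ∧ piX p (g : XX p) = jInv (rp (MF N F) z k) ∧
      (‖(D k : ℚ_[p])‖ ≤ ‖(4 : ℚ_[p])‖ → (g.2 : Matrix (Fin 2) (Fin 2) ℚ_[p]) * Θ.map (↑) =
        !![0, e; D k / e, 0] * (g.2 : Matrix (Fin 2) (Fin 2) ℚ_[p]) ∧ ‖e‖ = ‖(2 : ℚ_[p])‖) ∧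
      (¬ ‖(D k : ℚ_[p])‖ ≤ ‖(4 : ℚ_[p])‖ → e = 0) ∧ γ ∈ Gam p ∧
      ∀ f ∈ MF N F, f (pt p N ((1, κ) * (g * γ))) = z (k, f)) := by
    intro z k
    by_cases hz : z ∈ galO F (evs (MF N F) τ)
    · obtain ⟨g, Θ, e, a1, a2, a3, a4, a5, γ, a6, κ, a7, δ, a8, a9⟩ :=
        frame_lift p hN (rp_disc hN h hz (hD k))
      exact ⟨g, γ, Θ, e, κ, a7, fun _ => ⟨a1, a2, a3, a4, a5, a6, fun f hf => by
        rw [a9, MF.inv hf a8, rp_val hN hz k hf]⟩⟩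
    · exact ⟨1, 1, 0, 0, 1, (Kp p).one_mem, fun h' => absurd h' hz⟩
  choose g γ Θ e κ hκ hx using h2
  have h2le : ‖(2 : ℚ_[p])‖ ≤ 1 := by simpa using Padic.norm_int_le_one (p := p) 2
  have hrel : ∀ k, IsSquare (D k * D j) → (ρ k : ℚ_[p]) ^ 2 * D k = D j := fun k hk => by
    exact_mod_cast congrArg (fun q : ℚ => (q : ℚ_[p])) (hρ k hk).2.1
  have hcov : ∀ z ∈ ON N F τ, ∀ k,
      cov p N ((g z k * γ z k : GG p) : XN p N) = (g z k : XX p) := fun z hz k =>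
    QuotientGroup.mk_mul_of_mem _ (hx z k ((mem_ON hN h).1 hz)).2.2.2.2.2.1
  refine ⟨ρ, fun k => if ‖(D k : ℚ_[p])‖ ≤ ‖(4 : ℚ_[p])‖ then ‖(2 : ℚ_[p])‖ * ‖(ρ k : ℚ_[p])‖
    else 0, fun z k => ((g z k * γ z k : GG p) : XN p N), κ, e, hκ,
    fun _ => ⟨?_, ?_, ?_, ?_, ?_, ?_⟩⟩
  · intro z hz k
    rw [hcov z hz, (hx z k ((mem_ON hN h).1 hz)).2.2.1]
    exact vev_j hN ((mem_ON hN h).1 hz) k
  · intro z hz k
    have := hx z k ((mem_ON hN h).1 hz)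
    split_ifs with hk
    · rw [norm_mul, norm_neg, (this.2.2.2.1 hk).2]
    · rw [this.2.2.2.2.1 hk]; simp
  · intro z hz k hk
    have := hx z k ((mem_ON hN h).1 hz)
    have hk1 : ‖(D k : ℚ_[p])‖ ≤ ‖(4 : ℚ_[p])‖ := by
      by_contra h'
      exact hk (if_neg h')
    have hk2 : IsSquare (D k * D j) := by
      by_contra h'
      exact hk (by simp [hρ' k h'])
    exact ⟨⟨g z k, Θ z k, (hcov z hz k).symm, this.1, this.2.1, this.2.2.2.1 hk1⟩,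
      (hρ k hk2).1, (hρ k hk2).2.1⟩
  · intro k
    split_ifs with hk
    · by_cases hk2 : IsSquare (D k * D j)
      · rw [← hrel k hk2, norm_mul, norm_pow, mul_pow]
        have := mul_le_one₀ h2le (norm_nonneg _) h2le
        have h3 : 0 ≤ ‖(ρ k : ℚ_[p])‖ ^ 2 * ‖(D k : ℚ_[p])‖ := by positivity
        nlinarith
      · simp [hρ' k hk2]
    · simp
  · intro hj
    have hsq : IsSquare (D j * D j) := ⟨D j, rfl⟩
    have h3 : ρ j = 1 := by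
      have h4 := (hρ j hsq).2.1
      have h5 : (D j : ℚ) ≠ 0 := by exact_mod_cast (hneg j).ne
      have h6 : ρ j ^ 2 = 1 := mul_right_cancel₀ h5 (by rw [h4, one_mul])
      exact (pow_eq_one_iff_of_nonneg (hρ j hsq).1.le two_ne_zero).1 h6
    simp [hj, h3]
  intro r hr I hI φ hφ ψ hψ
  have hG : ∀ k, GInv N (φ k) := fun k δ hδ t => hφ k δ (Gamma_le_G0 hδ) t
  have hcont : ∀ z, Continuous fun s : ℚ_[p] => ∏ k ∈ I, φ k (ptX p N (((1, κ z k) : GG p) •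
      uP p (-e z k * ρ k * s) • ((g z k * γ z k : GG p) : XN p N))) := fun z =>
    continuous_finsetProd _ fun k _ => vh1_cont p hN (hG k) _ _ _
  simp only [← integral_const_mul]
  rw [← integral_finsetSum _ fun z _ => (Integrable.of_bound (hcont z).aestronglyMeasurable
    (∏ k ∈ I, ‖φ k‖) (Eventually.of_forall fun s => (Finset.norm_prod_le _ _).trans
      (Finset.prod_le_prod (fun k _ => norm_nonneg _)
        fun k _ => (φ k).norm_coe_le_norm _))).const_mul _]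
  refine integral_of_rat p (continuous_finsetSum _ fun z _ => (hcont z).const_mul _) r
    fun y hy => ?_
  have hy1 : ‖((-y : ℚ) : ℚ_[p]) ^ 2 * D j‖ ≤ (p : ℝ) ^ (-(c : ℤ)) := by
    refine le_trans ?_ hr
    rw [norm_mul, norm_pow, mul_comm, Rat.cast_neg, norm_neg]
    gcongr
  have hN0 : (0 : ℝ) < ‖(N : ℚ_[p])‖ := norm_pos_iff.2 (Nat.cast_ne_zero.2 hN.ne')
  have hS : (0 : ℝ) < 1 + ∑ k, ‖(ρ k : ℚ_[p])‖ :=
    add_pos_of_pos_of_nonneg one_pos (Finset.sum_nonneg fun _ _ => norm_nonneg _)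
  obtain ⟨a, b, hab, hi, A, B, hA1, hA2, hA3, hA4⟩ := hc (D j) (hneg j) (-y) hy1 _ (div_pos hN0 hS)
  obtain ⟨σ, hσ, hσ1, hσ2⟩ := hrec (Finset.univ.image D) (Finset.card_image_le.trans (by simp))
    (fun D' hD' => by
      obtain ⟨k, -, rfl⟩ := Finset.mem_image.1 hD'
      exact ⟨hD k, (h k).isD⟩) (D j) (Finset.mem_image_of_mem _ (Finset.mem_univ _))
    (a + b * th (D j)) ⟨fun h0 => by
      obtain ⟨rfl, rfl⟩ := vrt_inj (hneg j) (a' := 0) (b' := 0) (h0.trans (by simp))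
      simp at hab, a, b, rfl⟩
  refine Eq.trans (Finset.sum_congr rfl fun z hz => ?_)
    (sum_galO hσ fun z => ψ z * PT N F φ I z)
  have hz' := (mem_ON hN h).1 hz
  have hmem : ∀ k, D k ∈ Finset.univ.image D := fun k =>
    Finset.mem_image_of_mem _ (Finset.mem_univ _)
  refine congrArg₂ (· * ·) (hψ _ _ fun k hk f => ?_) (Finset.prod_congr rfl fun k hk => ?_)
  · by_cases hf : f ∈ MF N F
    · rw [← rp_val hN hz' k hf, hσ1 _ (hmem k) (hk j (Finset.mem_singleton_self j)) _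
        (rp_disc hN h hz' (hD k)) f hf]
    · rw [show z (k, f) = 0 from (congrFun (vev_rp hN hz' k) f).symm.trans (ev_of_not hf _),
        map_zero]
  obtain ⟨a1, a2, a3, a4, a5, a6, a7⟩ := hx z k hz'
  obtain ⟨hsq, hB⟩ := hI k hk
  obtain ⟨V, s, v1, v2, v3, k', v4, v5⟩ := hm (D k) (D j) (ρ k) a b y _ _ _ _ _ (hneg k)
    ((le_max_left _ _).trans hB) (hρ k hsq).2.1 (hρ k hsq).2.2 hab hi ⟨A, B, hA1, hA2, hA3, by
      rw [Rat.cast_neg, mul_neg, sub_neg_eq_add, le_div_iff₀ hS] at hA4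
      rw [norm_mul]
      refine le_trans (mul_le_mul_of_nonneg_left ?_ (norm_nonneg _)) hA4
      linarith [Finset.single_le_sum (f := fun k => ‖(ρ k : ℚ_[p])‖) (fun _ _ => norm_nonneg _)
        (Finset.mem_univ k)]⟩ a1 a2 a4 a5 a6 (hκ z k)
  have hd : DiscL (latG p ((1, κ z k) * (g z k * γ z k))) (D k) := by
    rw [latG_left (hκ z k), latG_mul_Gam p _ a6]
    exact discL_latG (rp_disc hN h hz' (hD k)) a3
  rw [← hB₂ n τ D h _ (galO_map hz' hσ) k ((le_max_right _ _).trans hB) _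
    (fun f hf => by rw [← hσ2 _ (hmem k) hsq _ V s hd v1 v2 v3 f hf, a7 f hf]) _ (hφ k),
    ← (hG k).ptX_K hN v4, smul_smul, smul_smul, ptX_smul, ← mul_assoc _ _ (g z k * γ z k), uP]
  simp only [Prod.mk_mul_mk, mul_one, v5, mul_assoc k']

end Pool.Agent.EQ
end
end

-- part Pool.Agent.P.MP_ad7a55_nt.VMe
section

/-! The invariant measure of the covering space. -/

set_option autoImplicit false

noncomputable section

open MeasureTheory Topology Filter UpperHalfPlane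
open scoped MatrixGroups ENNReal BoundedContinuousFunction

namespace Pool.Agent.EQ

variable (p : ℕ) [Fact p.Prime] (N : ℕ)

theorem exists_mN : ∃ m : Measure (XN p N), IsProbabilityMeasure m ∧
    (0 < N → ∀ g, g ∈ Stab (GG p) m) := by
  by_cases hN : 0 < N
  swap
  · exact ⟨Measure.dirac ((1 : GG p) : XN p N), inferInstance, fun h => absurd h hN⟩
  obtain ⟨s, hs⟩ := exists_sec (GN_disc p N)
  set μR : Measure SL(2, ℝ) := Measure.haar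
  set μP : Measure SL(2, ℚ_[p]) := Measure.haar
  obtain ⟨c, hc0, hc1, hc⟩ := map_haar μR
  set μ : Measure (GG p) := μR.prod μP with hμ
  have := um_unimod2 p μ
  obtain ⟨ρ, hρ⟩ := um_exists (GN_disc p N) hs μ
  obtain ⟨R, -, hR⟩ := cov_fib (p := p) hN
  have hS := haarB2_S_meas p ModularGroup.isClosed_fd.measurableSet
  have h1 : ρ Set.univ ≠ ∞ := by
    refine ne_top_of_le_ne_top ?_ (um_le (GN_disc p N) hs ρ
      (F := ⋃ r ∈ R, (fun g => g * r⁻¹) ⁻¹' haarB2_S p ModularGroup.fd)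
      (Finset.measurableSet_biUnion R fun r _ => measurable_mul_const _ hS)
      MeasurableSet.univ fun x _ => ?_)
    · rw [hρ]
      refine ne_top_of_le_ne_top ?_ (measure_biUnion_finset_le R _)
      refine ENNReal.sum_ne_top.2 fun r _ => ?_
      rw [measure_preimage_mul_right, hμ, haarB2_S, Measure.prod_prod,
        ← Measure.map_apply haarB2_cont.measurable ModularGroup.isClosed_fd.measurableSet, hc,
        Measure.smul_apply, smul_eq_mul]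
      exact ENNReal.mul_ne_top (ENNReal.mul_ne_top hc1 haarB2_fd_lt_top.ne)
        (Kp_compact p).measure_lt_top.ne
    · obtain ⟨g, hg, e⟩ := haarB2_onto p (cov p N x)
      obtain ⟨r, hr, e'⟩ := hR g x e.symm
      refine ⟨g * r, Set.mem_biUnion hr ?_, e'.symm⟩
      simpa using hg
  have h0 : ρ Set.univ ≠ 0 := fun h0 => by
    have h2 := um_null (GN_disc p N) hs ρ h0
    rw [hρ] at h2
    exact (isOpen_univ.measure_pos μ ⟨1, trivial⟩).ne' (by simpa using h2)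
  refine ⟨(ρ Set.univ)⁻¹ • ρ, ⟨?_⟩, fun _ g => ?_⟩
  · rw [Measure.smul_apply, smul_eq_mul, ENNReal.inv_mul_cancel h0 h1]
  · have h3 : g ∈ Stab (GG p) ρ := by
      rw [um_stab (GN_disc p N) hs, hρ]
      exact map_mul_left_eq_self μ g
    rw [mem_Stab, Measure.map_smul, mem_Stab.1 h3]

def mN : Measure (XN p N) := (exists_mN p N).choose

instance instProbmN : IsProbabilityMeasure (mN p N) := (exists_mN p N).choose_spec.1

def mPN (κ : Type) [Fintype κ] : Measure (κ → XN p N) := Measure.pi fun _ => mN p N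

instance instProbmPN (κ : Type) [Fintype κ] : IsProbabilityMeasure (mPN p N κ) := by
  unfold mPN; infer_instance

variable {p N}

theorem mN_inv (hN : 0 < N) (g : GG p) : (mN p N).map (fun x => g • x) = mN p N :=
  (exists_mN p N).choose_spec.2 hN g

theorem eq_mN (hN : 0 < N) (μ : Measure (XN p N)) [IsFiniteMeasure μ]
    (h : ∀ g, g ∈ Stab (GG p) μ) : μ = μ Set.univ • mN p N := by
  exact um_uniq (GN_disc p N) μ _ h (mN_inv hN)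

theorem eq_mN_of_P (hN : 0 < N) (μ : Measure (XN p N)) [IsFiniteMeasure μ]
    (h : ∀ g : SL(2, ℚ_[p]), ((1, g) : GG p) ∈ Stab (GG p) μ) : μ = μ Set.univ • mN p N := by
  have := unimod (Measure.haar : Measure SL(2, ℝ))
  have := unimod (Measure.haar : Measure SL(2, ℚ_[p]))
  exact eq_mN hN μ (um_prod (GN_disc p N) Measure.haar Measure.haar (Homeomorph.prodComm _ _)
    (fun _ _ => rfl) (dense_fstN hN) μ h)

theorem eq_mN_of_R (hN : 0 < N) (μ : Measure (XN p N)) [IsFiniteMeasure μ]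
    (h : ∀ g : SL(2, ℝ), ((g, 1) : GG p) ∈ Stab (GG p) μ) : μ = μ Set.univ • mN p N := by
  have := unimod (Measure.haar : Measure SL(2, ℝ))
  have := unimod (Measure.haar : Measure SL(2, ℚ_[p]))
  exact eq_mN hN μ (um_prod (GN_disc p N) Measure.haar Measure.haar (Homeomorph.refl _)
    (fun _ _ => rfl) (dense_sndN hN) μ h)

theorem map_cov (hN : 0 < N) : (mN p N).map (cov p N) = mX p := by
  have hm := (continuous_cov p N).measurable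
  have := Measure.isProbabilityMeasure_map (μ := mN p N) hm.aemeasurable
  have h := eq_mX_of_P p ((mN p N).map (cov p N)) fun g => by
    rw [mem_Stab, Measure.map_map (measurable_const_smul _) hm]
    conv_rhs => rw [← mN_inv hN (1, g)]
    rw [Measure.map_map hm (measurable_const_smul _)]
    congr 1
    funext x
    exact (cov_smul p N (1, g) x).symm
  rwa [measure_univ, one_smul] at h

theorem mN_null (hN : 0 < N) (μ : Measure (GG p)) [μ.IsHaarMeasure] {E : Set (XN p N)}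
    (hE : MeasurableSet E) (h : μ {g | (g : XN p N) ∈ E} = 0) : mN p N E = 0 := by
  obtain ⟨s, hs⟩ := exists_sec (GN_disc p N)
  obtain ⟨c, hc⟩ := um_haar (GN_disc p N) hs (mN p N) (mN_inv hN) μ
  have h1 := um_le (GN_disc p N) hs (mN p N) (F := {g | (g : XN p N) ∈ E})
    (QuotientGroup.measurable_coe hE) hE fun x hx => ⟨s x, by
      change ((s x : GG p) : XN p N) ∈ E
      rw [hs.2 x]; exact hx, hs.2 x⟩
  rw [hc, Measure.smul_apply, h, smul_zero] at h1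
  exact le_antisymm h1 zero_le

theorem mPN_inv (hN : 0 < N) {κ : Type} [Fintype κ] (g : κ → GG p) :
    (mPN p N κ).map (fun w => g • w) = mPN p N κ := by
  exact (measurePreserving_pi (fun _ : κ => mN p N) (fun _ : κ => mN p N)
    (f := fun k x => g k • x) fun k => ⟨measurable_const_smul _, mN_inv hN (g k)⟩).map_eq

theorem map_covP (hN : 0 < N) (κ : Type) [Fintype κ] :
    (mPN p N κ).map (covP p N) = mP p κ := by
  exact (measurePreserving_pi (fun _ : κ => mN p N) (fun _ : κ => mX p)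
    (f := fun _ x => cov p N x) fun _ => ⟨(continuous_cov p N).measurable, map_cov hN⟩).map_eq

theorem vme_apply {s : XN p N → GG p} (hs : IsSec s) (μ : Measure (XN p N)) {F : Set (GG p)}
    (hF : MeasurableSet F) :
    um_L s μ F = ∫⁻ x, ∑' γ : GN p N, F.indicator (1 : GG p → ℝ≥0∞) (s x * γ) ∂μ := by
  have := (GN_disc p N).countable
  unfold um_L
  rw [Measure.map_apply measurable_fst hF, lift_apply (GN_disc p N) hs _ (measurable_fst hF),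
    lintegral_map (Measurable.ennreal_tsum fun γ => meas_ind_lift hs (measurable_fst hF) γ) um_meas]
  rfl

theorem vme_meas {s : XN p N → GG p} (hs : IsSec s) {F : Set (GG p)} (hF : MeasurableSet F) :
    Measurable fun x => ∑' γ : GN p N, F.indicator (1 : GG p → ℝ≥0∞) (s x * γ) := by
  have := (GN_disc p N).countable
  exact Measurable.ennreal_tsum fun γ => (measurable_one.indicator hF).comp (hs.1.mul_const _)

theorem vme_toR_inj : Function.Injective toR := by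
  intro a b h
  ext i j
  have := congrArg (fun g : SL(2, ℝ) => g i j) h
  simpa [toR] using this

/-- The embedding of the principal congruence subgroup. -/
def vmeI (p : ℕ) [Fact p.Prime] (N : ℕ) (δ : CongruenceSubgroup.Gamma N) : GN p N :=
  ⟨(toR (δ : SL(2, ℤ))⁻¹, toP p (δ : SL(2, ℤ))⁻¹), (int_mem_GN (inv_mem δ.2)).1⟩

theorem vme_I_inj : Function.Injective (vmeI p N) := by
  intro a b h
  have h1 : toR (a : SL(2, ℤ))⁻¹ = toR (b : SL(2, ℤ))⁻¹ :=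
    congrArg (fun γ : GN p N => (γ : GG p).1) h
  exact Subtype.ext (inv_injective (vme_toR_inj h1))

/-- The part of the group above a subset of the half plane. -/
def vmeS (p : ℕ) [Fact p.Prime] (N : ℕ) (B : Set ℍ) : Set (GG p) :=
  ((fun g : SL(2, ℝ) => g⁻¹ • UpperHalfPlane.I) ⁻¹' B) ×ˢ (KN p N : Set SL(2, ℚ_[p]))

theorem vme_S_meas (hN : 0 < N) {B : Set ℍ} (hB : MeasurableSet B) :
    MeasurableSet (vmeS p N B) :=
  (haarB2_cont.measurable hB).prod (KN_open hN).measurableSet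

theorem vme_fib (hN : 0 < N) {g : GG p} (hg : g.2 ∈ KN p N) (B : Set ℍ) :
    ∑' γ : GN p N, (vmeS p N B).indicator (1 : GG p → ℝ≥0∞) (g * γ) =
      ∑' δ : CongruenceSubgroup.Gamma N,
        B.indicator 1 ((δ : SL(2, ℤ)) • g.1⁻¹ • UpperHalfPlane.I) := by
  rw [← (vme_I_inj (p := p) (N := N)).tsum_eq]
  · refine tsum_congr fun δ => ?_
    have e : (g * (vmeI p N δ : GG p)).1⁻¹ • UpperHalfPlane.I =
        (δ : SL(2, ℤ)) • g.1⁻¹ • UpperHalfPlane.I := by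
      change (g.1 * toR (δ : SL(2, ℤ))⁻¹)⁻¹ • UpperHalfPlane.I = _
      rw [mul_inv_rev, ← map_inv, inv_inv, mul_smul, haarB2_toR_smul]
    have hK : (g * (vmeI p N δ : GG p)).2 ∈ KN p N :=
      (KN p N).mul_mem hg (int_mem_GN (inv_mem δ.2)).2
    by_cases hB : (δ : SL(2, ℤ)) • g.1⁻¹ • UpperHalfPlane.I ∈ B
    · rw [Set.indicator_of_mem hB, Set.indicator_of_mem]
      · rfl
      · exact ⟨by rw [Set.mem_preimage, e]; exact hB, hK⟩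
    · rw [Set.indicator_of_notMem hB, Set.indicator_of_notMem]
      intro h
      have h1 := h.1
      rw [Set.mem_preimage, e] at h1
      exact hB h1
  · intro γ hγ
    have h1 : g * (γ : GG p) ∈ vmeS p N B := by
      by_contra h
      exact hγ (Set.indicator_of_notMem h _)
    have hK : (γ : GG p).2 ∈ KN p N := by
      have := (KN p N).mul_mem ((KN p N).inv_mem hg) h1.2
      simpa using this
    obtain ⟨δ, hδ, e⟩ := int_of_GN hN γ.2 hK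
    refine ⟨⟨δ⁻¹, inv_mem hδ⟩, Subtype.ext ?_⟩
    rw [e]
    simp [vmeI]

theorem vme_sum (Γ : Subgroup SL(2, ℤ)) (F : SL(2, ℤ) → ℝ≥0∞) :
    ∑' c : SL(2, ℤ) ⧸ Γ, ∑' δ : Γ, F (c.out * δ) = ∑' ε, F ε := by
  rw [← ENNReal.tsum_prod (f := fun (c : SL(2, ℤ) ⧸ Γ) (δ : Γ) => F (c.out * δ))]
  have hb : Function.Bijective fun w : (SL(2, ℤ) ⧸ Γ) × Γ => w.1.out * (w.2 : SL(2, ℤ)) := by
    constructor
    · rintro ⟨c, δ⟩ ⟨c', δ'⟩ h
      have h' : c.out * (δ : SL(2, ℤ)) = c'.out * δ' := h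
      have h1 : c = c' := by
        have := congrArg (fun ε : SL(2, ℤ) => (ε : SL(2, ℤ) ⧸ Γ)) h'
        simpa [QuotientGroup.mk_mul_of_mem _ δ.2, QuotientGroup.mk_mul_of_mem _ δ'.2] using this
      subst h1
      exact Prod.ext rfl (Subtype.ext (mul_left_cancel h'))
    · intro ε
      have h : (ε : SL(2, ℤ) ⧸ Γ).out⁻¹ * ε ∈ Γ := QuotientGroup.eq.1 (QuotientGroup.out_eq' _)
      exact ⟨((ε : SL(2, ℤ) ⧸ Γ), ⟨_, h⟩), by simp⟩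
  exact (Equiv.ofBijective _ hb).tsum_eq F

theorem vme_neg_ne (ε : SL(2, ℤ)) : ε ≠ -ε := by
  intro h
  have h1 : (1 : SL(2, ℤ)) = -1 := by
    have : ε⁻¹ * ε = ε⁻¹ * -ε := by rw [← h]
    simpa using this
  have h2 := congrArg (fun g : SL(2, ℤ) => g 0 0) h1
  simp at h2

open ModularGroup in
theorem vme_le (τ : ℍ) : ∑' ε : SL(2, ℤ), (fdo : Set ℍ).indicator (1 : ℍ → ℝ≥0∞) (ε • τ) ≤ 2 := by
  classical
  by_cases h : ∃ ε : SL(2, ℤ), ε • τ ∈ fdo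
  · obtain ⟨ε, hε⟩ := h
    rw [tsum_eq_sum (s := {ε, -ε})]
    · rw [Finset.sum_pair (vme_neg_ne ε)]
      exact (add_le_add (Set.indicator_le_self _ _ _) (Set.indicator_le_self _ _ _)).trans
        (le_of_eq one_add_one_eq_two)
    · intro η hη
      refine Set.indicator_of_notMem (fun h => hη ?_) _
      have h1 : (η * ε⁻¹) • ε • τ ∈ fdo := by simpa [mul_smul] using h
      rcases eq_one_or_neg_one_of_mem_fdo_mem_fdo hε h1 with h2 | h2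
      · simp [mul_inv_eq_one.1 h2]
      · have : η = -ε := by
          rw [mul_inv_eq_iff_eq_mul] at h2
          simpa using h2
        simp [this]
  · rw [tsum_congr fun ε => Set.indicator_of_notMem (fun h' => h ⟨ε, h'⟩) _]
    simp

open ModularGroup in
theorem vme_ge (τ : ℍ) : 2 ≤ ∑' ε : SL(2, ℤ), (fd : Set ℍ).indicator (1 : ℍ → ℝ≥0∞) (ε • τ) := by
  classical
  obtain ⟨ε, hε⟩ := exists_smul_mem_fd τ
  refine le_trans (le_of_eq ?_) (ENNReal.sum_le_tsum {ε, -ε})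
  rw [Finset.sum_pair (vme_neg_ne ε), SL_neg_smul, Set.indicator_of_mem hε]
  exact one_add_one_eq_two.symm

theorem vme_count (hN : 0 < N) {φ : ℍ → ℝ} (hφ : GInv N φ) (A : Set ℝ) (D : Set ℍ) (g' : GG p) :
    ∃ τ : ℍ, ∑' c : SL(2, ℤ) ⧸ CongruenceSubgroup.Gamma N, ∑' γ : GN p N,
      (vmeS p N ((fun w => c.out • w) ⁻¹' D ∩ φ ⁻¹' A)).indicator (1 : GG p → ℝ≥0∞) (g' * γ) =
      (∑' ε : SL(2, ℤ), D.indicator (1 : ℍ → ℝ≥0∞) (ε • τ)) *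
        ((fun x => φ (ptX p N x)) ⁻¹' A).indicator 1 (g' : XN p N) := by
  obtain ⟨g, hg, e⟩ := exists_repN hN (g' : XN p N)
  refine ⟨g.1⁻¹ • UpperHalfPlane.I, ?_⟩
  have h1 : φ (ptX p N (g' : XN p N)) = φ (g.1⁻¹ • UpperHalfPlane.I) := by
    rw [← e]
    exact hφ.pt_K hN hg
  rw [← vme_sum (CongruenceSubgroup.Gamma N), ← ENNReal.tsum_mul_right]
  refine tsum_congr fun c => ?_
  rw [← tsum_fib_lift _ e, vme_fib hN hg, ← ENNReal.tsum_mul_right]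
  refine tsum_congr fun δ => ?_
  rw [Set.inter_indicator_one, Pi.mul_apply, mul_smul]
  congr 1
  have h2 := hφ δ δ.2 (g.1⁻¹ • UpperHalfPlane.I)
  by_cases hA : φ (g.1⁻¹ • UpperHalfPlane.I) ∈ A
  · rw [Set.indicator_of_mem, Set.indicator_of_mem]
    · rfl
    · rw [Set.mem_preimage, h1]; exact hA
    · rw [Set.mem_preimage, h2]; exact hA
  · rw [Set.indicator_of_notMem, Set.indicator_of_notMem]
    · rw [Set.mem_preimage, h1]; exact hA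
    · rw [Set.mem_preimage, h2]; exact hA

theorem vme_smul_meas (ε : SL(2, ℤ)) : Measurable fun w : ℍ => ε • w :=
  (continuous_const_smul (toR ε)).measurable

theorem vme_vol (ε : SL(2, ℤ)) (D B : Set ℍ) :
    volume ((fun w : ℍ => ε • w) ⁻¹' D ∩ B) = volume (D ∩ (fun w : ℍ => ε⁻¹ • w) ⁻¹' B) := by
  rw [← vol_preimage_hb (toR ε) (D ∩ _)]
  congr 1
  ext w
  simp [haarB2_toR_smul]

open ModularGroup in
theorem vme_main (hN : 0 < N) {φ : ℍ → ℝ} (hc : Continuous φ) (hφ : GInv N φ) :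
    ∃ C : ℝ≥0∞, ∀ A : Set ℝ, MeasurableSet A → 2 * mN p N ((fun x => φ (ptX p N x)) ⁻¹' A) =
      C * ∑' c : SL(2, ℤ) ⧸ CongruenceSubgroup.Gamma N,
        volume (fd ∩ (fun w : ℍ => c.out⁻¹ • w) ⁻¹' (φ ⁻¹' A)) := by
  have : NeZero N := ⟨hN.ne'⟩
  obtain ⟨s, hs⟩ := exists_sec (GN_disc p N)
  set μR : Measure SL(2, ℝ) := Measure.haar
  set μP : Measure SL(2, ℚ_[p]) := Measure.haar
  obtain ⟨c0, -, -, hc0⟩ := map_haar μR
  obtain ⟨c1, hc1⟩ := um_haar (GN_disc p N) hs (mN p N) (mN_inv hN) (μR.prod μP)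
  refine ⟨c1 * (c0 * μP (KN p N)), fun A hA => ?_⟩
  have hE : MeasurableSet ((fun x => φ (ptX p N x)) ⁻¹' A) :=
    (hφ.continuous hN hc).measurable hA
  have hB : ∀ (D : Set ℍ), MeasurableSet D → ∀ ε : SL(2, ℤ),
      MeasurableSet ((fun w => ε • w) ⁻¹' D ∩ φ ⁻¹' A) :=
    fun D hD ε => (vme_smul_meas ε hD).inter (hc.measurable hA)
  have key : ∀ D : Set ℍ, MeasurableSet D →
      c1 * (c0 * μP (KN p N)) * ∑' c : SL(2, ℤ) ⧸ CongruenceSubgroup.Gamma N,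
        volume (D ∩ (fun w : ℍ => c.out⁻¹ • w) ⁻¹' (φ ⁻¹' A)) =
      ∫⁻ x, ∑' c : SL(2, ℤ) ⧸ CongruenceSubgroup.Gamma N, ∑' γ : GN p N,
        (vmeS p N ((fun w => c.out • w) ⁻¹' D ∩ φ ⁻¹' A)).indicator (1 : GG p → ℝ≥0∞) (s x * γ)
          ∂mN p N := by
    intro D hD
    rw [lintegral_tsum fun c => (vme_meas hs (vme_S_meas hN (hB D hD _))).aemeasurable,
      ← ENNReal.tsum_mul_left]
    refine tsum_congr fun c => ?_
    rw [← vme_apply hs _ (vme_S_meas hN (hB D hD _)), hc1, Measure.smul_apply, smul_eq_mul, vmeS,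
      Measure.prod_prod, ← Measure.map_apply haarB2_cont.measurable (hB D hD _), hc0,
      Measure.smul_apply, smul_eq_mul, vme_vol]
    ring
  rw [← lintegral_indicator_one hE, ← lintegral_const_mul _ (measurable_one.indicator hE)]
  refine le_antisymm ?_ ?_
  · rw [key _ isClosed_fd.measurableSet]
    refine lintegral_mono fun x => ?_
    obtain ⟨τ, hτ⟩ := vme_count hN hφ A fd (s x)
    rw [hτ, hs.2 x]
    exact mul_le_mul_left (vme_ge τ) _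
  · simp only [haarB2_inter]
    rw [key _ isOpen_fdo.measurableSet]
    refine lintegral_mono fun x => ?_
    obtain ⟨τ, hτ⟩ := vme_count hN hφ A fdo (s x)
    rw [hτ, hs.2 x]
    exact mul_le_mul_left (vme_le τ) _

open ModularGroup in
theorem vme_mH (Γ : Subgroup SL(2, ℤ)) {B : Set ℍ} (hB : MeasurableSet B) :
    mH Γ B = ((Γ.index : ℝ≥0∞)⁻¹ * (volume (fd : Set ℍ))⁻¹) *
      ∑' c : SL(2, ℤ) ⧸ Γ, volume (fd ∩ (fun w : ℍ => c.out⁻¹ • w) ⁻¹' B) := by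
  rw [mH, Measure.smul_apply, smul_eq_mul, Measure.sum_apply _ hB, mul_assoc]
  congr 1
  rw [← ENNReal.tsum_mul_left]
  refine tsum_congr fun c => ?_
  rw [Measure.map_apply (vme_smul_meas _) hB,
    ProbabilityTheory.cond_apply isClosed_fd.measurableSet]

theorem vme_alg {a b C K S T : ℝ≥0∞} (h1 : 2 * a = C * S) (h2 : 2 * 1 = C * T) (h3 : b = K * S)
    (h4 : 1 = K * T) : a = b := by
  have e : 2 * a * (K * T) = 2 * 1 * b := by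
    rw [h1, h2, h3]; ring
  rw [← h4, mul_one, mul_one] at e
  exact (ENNReal.mul_right_inj (by norm_num) (by norm_num)).1 e

theorem vme_law (hN : 0 < N) {φ : ℍ → ℝ} (hc : Continuous φ) (hφ : GInv N φ) :
    (mN p N).map (fun x => φ (ptX p N x)) = (mH (CongruenceSubgroup.Gamma N)).map φ := by
  have : NeZero N := ⟨hN.ne'⟩
  have := mH_prob (Γ := CongruenceSubgroup.Gamma N)
  obtain ⟨C, hC⟩ := vme_main (p := p) hN hc hφ
  ext A hA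
  rw [Measure.map_apply (hφ.continuous hN hc).measurable hA, Measure.map_apply hc.measurable hA]
  have h2 := hC Set.univ MeasurableSet.univ
  have h4 := vme_mH (CongruenceSubgroup.Gamma N) (hc.measurable MeasurableSet.univ)
  rw [Set.preimage_univ, measure_univ] at h2
  rw [Set.preimage_univ, measure_univ] at h4
  rw [Set.preimage_univ (f := φ)] at h2
  exact vme_alg (hC A hA) h2 (vme_mH _ (hc.measurable hA)) h4

theorem integral_ptX (hN : 0 < N) {φ : ℍ →ᵇ ℝ} (hφ : GInv N φ) :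
    ∫ x, φ (ptX p N x) ∂mN p N = IN N φ := by
  have h := vme_law (p := p) hN φ.continuous hφ
  have h1 := integral_map (μ := mN p N) (φ := fun x => φ (ptX p N x)) (f := fun t : ℝ => t)
    (hφ.continuous hN φ.continuous).measurable.aemeasurable aestronglyMeasurable_id
  have h2 := integral_map (μ := mH (CongruenceSubgroup.Gamma N)) (φ := φ) (f := fun t : ℝ => t)
    φ.continuous.measurable.aemeasurable aestronglyMeasurable_id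
  rw [← h1, h, h2, IN]

theorem integral_mPN_prod (hN : 0 < N) {κ : Type} [Fintype κ] (a : κ → GG p)
    {φ : κ → (ℍ →ᵇ ℝ)} (hφ : ∀ k, GInv N (φ k)) :
    ∫ w, ∏ k, φ k (ptX p N (a k • w k)) ∂mPN p N κ = ∏ k, IN N (φ k) := by
  rw [mPN, integral_fintype_prod_eq_prod (fun k (x : XN p N) => φ k (ptX p N (a k • x)))]
  refine Finset.prod_congr rfl fun k _ => ?_
  rw [← integral_ptX (p := p) hN (hφ k)]
  conv_rhs => rw [← mN_inv hN (a k)]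
  rw [integral_map (measurable_const_smul _).aemeasurable
    ((hφ k).continuous hN (φ k).continuous).aestronglyMeasurable]

theorem IN_level (hN : 0 < N) {N' : ℕ} (hN' : 0 < N') (h : N ∣ N') {φ : ℍ →ᵇ ℝ}
    (hφ : GInv N φ) : IN N' φ = IN N φ := by
  have : NeZero N := ⟨hN.ne'⟩
  have : NeZero N' := ⟨hN'.ne'⟩
  refine integral_level (fun γ hγ => ?_) φ.continuous.measurable hφ
  rw [CongruenceSubgroup.Gamma_mem] at hγ ⊢
  obtain ⟨h1, h2, h3, h4⟩ := hγ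
  have c1 := congrArg (ZMod.castHom h (ZMod N)) h1
  have c2 := congrArg (ZMod.castHom h (ZMod N)) h2
  have c3 := congrArg (ZMod.castHom h (ZMod N)) h3
  have c4 := congrArg (ZMod.castHom h (ZMod N)) h4
  rw [map_intCast] at c1 c2 c3 c4
  rw [map_one] at c1 c4
  rw [map_zero] at c2 c3
  exact ⟨c1, c2, c3, c4⟩

theorem abs_IN_le (hN : 0 < N) (φ : ℍ →ᵇ ℝ) : |IN N φ| ≤ ‖φ‖ := by
  have : NeZero N := ⟨hN.ne'⟩
  have := mH_prob (Γ := CongruenceSubgroup.Gamma N)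
  exact φ.norm_integral_le_norm _

theorem Tst.ginv {L : IntermediateField ℚ ℂ} {φ : ℍ →ᵇ ℝ} (h : Tst N L φ) : GInv N φ :=
  fun γ hγ τ => h γ (Gamma_le_G0 hγ) τ

end Pool.Agent.EQ
end
end

-- part Pool.Agent.P.MP_ad7a55_nt.XAc
section

/-! Reciprocity for the moves. -/

set_option autoImplicit false

noncomputable section

open MeasureTheory Topology Filter UpperHalfPlane
open scoped MatrixGroups BoundedContinuousFunction Matrix Classical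

namespace Pool.Agent.EQ

variable {N n : ℕ} {L : IntermediateField ℚ ℂ} {σ : ℂ ≃+* ℂ} {τ τ' : ℍ} {η : M2}

theorem xac_det (hN : 0 < N) (hc : n.Coprime N) (hη : η.det = n) {h : M2} (hh : h ∈ Hn n) :
    (lf N η h).det = n := by
  obtain ⟨γ, e, -⟩ := lf_spec hN hc (W := η) (by rw [hη, sub_self]; exact dvd_zero _)
    (mem_Hn hh).2
  rw [e, Matrix.det_mul, γ.det_coe, one_mul, (mem_Hn hh).2]

theorem xac_core (hN : 0 < N) (hn : 0 < n) (hη : η.det = n) (hc : n.Coprime N)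
    (h : ∀ f ∈ MF N L, σ (f τ) = f τ') {f : ℍ → ℂ} (hf : f ∈ MF N L) :
    ∃ g ∈ Hn n, f (act (lf N η g) τ') = σ (f (act η τ)) ∧
      jInv (act (lf N η g) τ') = σ (jInv (act η τ)) := by
  have hW : (N : ℤ) ∣ η.det - n := by rw [hη, sub_self]; exact dvd_zero _
  obtain ⟨γ₀, h₀, hh₀, e₀⟩ := exists_Hn hn hη
  obtain ⟨γ, e₁, e₂⟩ := lf_spec hN hc hW (mem_Hn hh₀).2
  have e₃ : lf N η h₀ = ((γ * γ₀⁻¹ : SL(2, ℤ)) : M2) * η := by
    rw [e₁]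
    nth_rewrite 1 [e₀]
    rw [← mul_assoc, ← Matrix.SpecialLinearGroup.coe_mul, inv_mul_cancel_right]
  have e₄ : ∀ u ∈ MF N L, u (act (lf N η h₀) τ) = u (act η τ) := fun u hu => by
    rw [e₃]
    exact act_congr hc hn hu hη (by rw [← e₃]; exact e₂) τ
  obtain ⟨g, h1, h2⟩ := mem_of_power_sums (ι := Hn n) (ι' := Hn n)
    (fun i => σ (f (act (lf N η i) τ))) (fun i => σ (jInv (act (lf N η i) τ)))
    (fun i => f (act (lf N η i) τ')) (fun i => jInv (act (lf N η i) τ')) (fun a b => by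
      have h3 := h _ (TW_mem hN hn hc hW
        (MF.mul hN (MF.pow hN hf a) (MF.pow hN (MF.j hN) b)))
      simp only [TW, map_sum, map_mul, map_pow] at h3
      rw [Finset.sum_coe_sort (Hn n) fun i => σ (f (act (lf N η i) τ)) ^ a *
          σ (jInv (act (lf N η i) τ)) ^ b,
        Finset.sum_coe_sort (Hn n) fun i => f (act (lf N η i) τ') ^ a *
          jInv (act (lf N η i) τ') ^ b]
      exact h3) ⟨h₀, hh₀⟩
  refine ⟨g, g.2, ?_, ?_⟩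
  · rw [h1, e₄ f hf]
  · rw [h2, e₄ _ (MF.j hN)]

theorem rec_iso (hN : 0 < N) {D : ℤ} (hD : HasDisc τ' D) (hn : 0 < n)
    (hη : η.det = n) (hc : n.Coprime N) (hb : 4 * (n : ℤ) ^ 2 < -D)
    (h : ∀ f ∈ MF N L, σ (f τ) = f τ') : ∃ η' : M2, η'.det = n ∧
      (∀ i j, (N : ℤ) ∣ (η' - η) i j) ∧ ∀ f ∈ MF N L, σ (f (act η τ)) = f (act η' τ') := by
  have hW : (N : ℤ) ∣ η.det - n := by rw [hη, sub_self]; exact dvd_zero _
  obtain ⟨g₀, hg₀, -, j₀⟩ := xac_core hN hn hη hc h (MF.j hN)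
  obtain ⟨γ₀, e₀, c₀⟩ := lf_spec hN hc hW (mem_Hn hg₀).2
  refine ⟨lf N η g₀, xac_det hN hc hη hg₀, c₀, fun f hf => ?_⟩
  obtain ⟨g, hg, h1, h2⟩ := xac_core hN hn hη hc h hf
  obtain ⟨γ₁, e₁, -⟩ := lf_spec hN hc hW (mem_Hn hg).2
  obtain ⟨γ, e⟩ := iso_unique hD hn (xac_det hN hc hη hg₀) (xac_det hN hc hη hg) hb
    (j₀.trans h2.symm)
  have e₂ : g = ((γ₁⁻¹ * γ * γ₀ : SL(2, ℤ)) : M2) * g₀ := by
    rw [Matrix.SpecialLinearGroup.coe_mul, Matrix.SpecialLinearGroup.coe_mul, mul_assoc, ← e₀,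
      mul_assoc, ← e, e₁, ← mul_assoc, ← Matrix.SpecialLinearGroup.coe_mul, inv_mul_cancel,
      Matrix.SpecialLinearGroup.coe_one, one_mul]
  rw [← h1, Hn_unique hg₀ hg e₂]

theorem gal_iso (hn : 0 < n) (hη : η.det = n) (h : σ (jInv τ) = jInv τ') :
    ∃ η' : M2, η'.det = n ∧ σ (jInv (act η τ)) = jInv (act η' τ') := by
  have key : ∀ f ∈ MF 1 ⊥, σ (f τ) = f τ' := fun f hf => by
    obtain ⟨P, h1, h2⟩ := MF.poly one_pos hf fun γ t =>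
      MF.inv hf (by rw [CongruenceSubgroup.Gamma_one_top]; exact Subgroup.mem_top γ) t
    have h3 : P.map (σ : ℂ →+* ℂ) = P := Polynomial.ext fun k => by
      obtain ⟨q, hq⟩ := IntermediateField.mem_bot.1 (h1 k)
      rw [Polynomial.coeff_map, ← hq, eq_ratCast, map_ratCast]
    have h4 := Polynomial.eval_map_apply (p := P) (σ : ℂ →+* ℂ) (jInv τ)
    rw [h3] at h4
    rw [h2, h2, ← h]
    exact h4.symm
  obtain ⟨g, hg, -, h1⟩ := xac_core one_pos hn hη (Nat.coprime_one_right n) key (MF.j one_pos)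
  exact ⟨_, xac_det one_pos (Nat.coprime_one_right n) hη hg, h1.symm⟩

theorem Ig.gal {x y : ℂ} (hn : 0 < n) (h : Ig n x y) (σ : ℂ ≃+* ℂ) : Ig n (σ x) (σ y) := by
  obtain ⟨t, ζ, h1, rfl, rfl⟩ := h
  obtain ⟨ζ', h2, h3⟩ := gal_iso (σ := σ) (τ := t) (τ' := fr (σ (jInv t))) hn h1
    (fr_spec _).2.symm
  exact ⟨_, ζ', h2, h3.symm, (fr_spec _).2⟩

theorem xac_neg (hN : 0 < N) {D : ℤ} (hD : 577 * (N : ℤ) ^ 2 ≤ -D) : D < -576 := by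
  have h1 : (1 : ℤ) ≤ (N : ℤ) ^ 2 := one_le_pow₀ (by exact_mod_cast hN)
  linarith

theorem move_half (hN : 0 < N) (hz : zt N ∈ L) (hσ : ∀ a ∈ L, σ a = a) {E b s D : ℤ}
    (hn : 0 < n) (hc : IsCoprime (n : ℤ) (2 * N * E)) (hb : (4 * n : ℤ) ∣ b ^ 2 - E)
    (ha : ∀ (τ : ℍ) (D : ℤ) (η : M2), HasDisc τ D → D < -576 → Fit E D → η.det = n →
      Ker n (AA E b τ) ⊆ Ker n η → σ (jInv τ) = jInv (act η τ))
    (h : HasDisc τ D) (hf : Fit E (N ^ 2 * D)) (hD : 577 * (N : ℤ) ^ 2 ≤ -D) (hη : η.det = n)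
    (hk : Ker n (AA E b τ) ⊆ Ker n η) (hs : Cg N η s) :
    ∃ δ, Scal N δ ∧ ∀ f ∈ MF N L, σ (f τ) = f (δ • act η τ) := by
  have hN' : (0 : ℤ) < N := by exact_mod_cast hN
  have hn' : (0 : ℤ) < n := by exact_mod_cast hn
  have hNc : (N : ℂ) ≠ 0 := by exact_mod_cast hN.ne'
  have hN2 : (0 : ℤ) < (N : ℤ) ^ 2 := by positivity
  have hD' := xac_neg hN hD
  have hf' : Fit E D := hf.trans (fit_sq hN D)
  have h0 := ha τ D η h hD' hf' hη hk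
  have hcN : IsCoprime (N : ℤ) (n : ℤ) := hc.of_mul_right_left.of_mul_right_right.symm
  have pη : 0 < η.det := by rw [hη]; exact hn'
  have key : ∀ (ξ : M2) (w : ℍ → ℍ), ξ.det = N →
      (∀ x : ℍ, ((ξ 1 0 : ℂ) * x + ξ 1 1) * (w x : ℂ) = (ξ 0 0 : ℂ) * x + ξ 0 1) →
      σ (jInv (w τ)) = jInv (w (act η τ)) := by
    intro ξ w hξ hw
    have hp : 0 < ξ.det := by rw [hξ]; exact hN'
    obtain ⟨Y, hY⟩ := xla_cg.1 hs
    obtain ⟨η', e⟩ : ∃ η' : M2, ξ * η = η' * ξ := ⟨s • (1 : M2) + ξ * Y * ξ.adjugate, by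
      rw [hY, add_mul, mul_add, mul_assoc (ξ * Y), Matrix.adjugate_mul, hξ]
      simp only [smul_mul_assoc, mul_smul_comm, one_mul, mul_one]⟩
    have hd : η'.det = n := by
      have h1 := congrArg Matrix.det e
      rw [Matrix.det_mul, Matrix.det_mul, hξ, hη, mul_comm] at h1
      exact (mul_right_cancel₀ hN'.ne' h1).symm
    obtain ⟨D', h1, h2, h3⟩ := act_disc h hN hξ
    have h4 : 577 ≤ -D' := le_of_mul_le_mul_left (by linarith) hN2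
    have h5 := AA_com h hf' hp h1 (hf.trans h2) b
    have h6 : IsCoprime ξ.det (n : ℤ) := by rw [hξ]; exact hcN
    have h7 := ha _ D' η' h1 (by omega) (hf.trans h2) hd fun v hv =>
      (Ker_com e h6 v).2.2 (hk ((Ker_com h5 h6 v).2.1 hv))
    rw [← act_mul (by rw [hd]; exact hn') hp, ← e, act_mul hp pη, vact_ext hp (hw τ),
      vact_ext hp (hw (act η τ))] at h7
    exact h7
  exact weak_rec hN hz hσ (disc_of_gal h hD' h0.symm) (by linarith) h0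
    (key !![(N : ℤ), 0; 0, 1] (mulH N hN) (by simp [Matrix.det_fin_two]) fun x => by simp)
    (key !![1, 0; 0, (N : ℤ)] (divH N hN 0) (by simp [Matrix.det_fin_two])
      fun x => by simp [mul_div_cancel₀ _ hNc])
    (key !![1, 1; 0, (N : ℤ)] (divH N hN 1) (by simp [Matrix.det_fin_two])
      fun x => by simp [mul_div_cancel₀ _ hNc])

theorem xac_pow {E b q : ℤ} (hE : E < 0) (hq : IsCoprime q E) (k : ℕ)
    (h : 4 * q ^ (k + 1) ∣ b ^ 2 - E) :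
    sp q ((-b + th E) / 2) ^ (k + 1) = sp ((q ^ (k + 1) : ℤ) : ℂ) ((-b + th E) / 2) := by
  induction k with
  | zero => rw [zero_add, pow_one, pow_one]
  | succ k ih =>
    obtain ⟨c, hc⟩ := h
    have h1 : b ^ 2 - E = 4 * (q * q ^ (k + 1)) * c := by rw [hc]; ring
    have h2 : b ^ 2 - E = 4 * q * (q ^ (k + 1) * c) := by rw [hc]; ring
    rw [pow_succ', ih ⟨q * c, by rw [hc]; ring⟩, mul_split_fac hE h1 (coprime_fac h2 hq),
      ← pow_succ']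

theorem xac_fix {a : ℂ} (h : σ a = a) (m : ℕ) : (σ ^ m) a = a := by
  induction m with
  | zero => rfl
  | succ m ih => rw [pow_succ, RingAut.mul_apply, h, ih]

theorem xac_cg {X Y : M2} {a a' : ℤ} (h : Cg N X a) (h1 : ∀ i j, (N : ℤ) ∣ (Y - X) i j)
    (h2 : (N : ℤ) ∣ a - a') : Cg N Y a' := fun i j => by
  have e : (Y - a' • (1 : M2)) i j =
      (Y - X) i j + (X - a • (1 : M2)) i j + (a - a') * (1 : M2) i j := by
    simp only [Matrix.sub_apply, Matrix.smul_apply, smul_eq_mul]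
    ring
  rw [e]
  exact dvd_add (dvd_add (h1 i j) (h i j)) (h2.mul_right _)

theorem xac_scal {δ : SL(2, ℤ)} (h : Scal N δ) :
    Cg N (δ : M2) (δ 0 0) ∧ (N : ℤ) ∣ δ 0 0 * δ 0 0 - 1 := by
  obtain ⟨h1, h2, h3⟩ := h
  constructor
  · intro i j
    rw [Matrix.sub_apply, Matrix.smul_apply, smul_eq_mul, Matrix.one_apply]
    fin_cases i <;> fin_cases j
    · simp
    · simpa using h1
    · simpa using h2
    · simpa using dvd_sub_comm.1 h3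
  · have hdet := δ.det_coe
    rw [Matrix.det_fin_two] at hdet
    have e : δ 0 0 * δ 0 0 - 1 = δ 0 0 * (δ 0 0 - δ 1 1) + δ 0 1 * δ 1 0 := by
      linear_combination hdet
    rw [e]
    exact dvd_add (h3.mul_left _) (h2.mul_left _)

theorem xac_two (hN : 0 < N) (hz : zt N ∈ L) (hσ : ∀ a ∈ L, σ a = a) {E b s D : ℤ}
    (hn : 0 < n) (hc : IsCoprime (n : ℤ) (2 * N * E)) (hb : (4 * (n * n : ℕ) : ℤ) ∣ b ^ 2 - E)
    (hs : (n : ℤ) = s ^ 2)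
    (ha : ∀ (τ : ℍ) (D : ℤ) (η : M2), HasDisc τ D → D < -576 → Fit E D → η.det = n →
      Ker n (AA E b τ) ⊆ Ker n η → σ (jInv τ) = jInv (act η τ))
    (h : HasDisc τ D) (hf : Fit E (N ^ 2 * D)) (hD : 577 * (N : ℤ) ^ 2 ≤ -D)
    (h4 : 4 * (n : ℤ) ^ 2 < -D) (hη : η.det = (n * n : ℕ))
    (hk : Ker (n * n) (AA E b τ) ⊆ Ker (n * n) η) (hg : Cg N η n) :
    ∀ f ∈ MF N L, σ (σ (f τ)) = f (act η τ) := by
  have hn' : (0 : ℤ) < n := by exact_mod_cast hn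
  have hD' := xac_neg hN hD
  have hf' : Fit E D := hf.trans (fit_sq hN D)
  have hcN : IsCoprime (n : ℤ) (N : ℤ) := hc.of_mul_right_left.of_mul_right_right
  have hcE : IsCoprime (n : ℤ) (2 * E) :=
    hc.of_mul_right_left.of_mul_right_left.mul_right hc.of_mul_right_right
  have hb2 : ((n * n : ℕ) : ℤ) ∣ b ^ 2 - E := (dvd_mul_left _ _).trans hb
  have hb4 : (4 * n : ℤ) ∣ b ^ 2 - E :=
    (mul_dvd_mul_left 4 (Int.natCast_dvd_natCast.2 (dvd_mul_right n n))).trans hb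
  have hb1 : (n : ℤ) ∣ b ^ 2 - E := (dvd_mul_left _ _).trans hb4
  have hsN : IsCoprime s (N : ℤ) := by
    rw [hs, sq] at hcN
    exact hcN.of_mul_left_left
  obtain ⟨η₀, d₀, k₀, c₀⟩ := (AA_line h hf' hn hcE hb1).exists_Cg hn hN hsN
    (by rw [hs, sub_self]; exact dvd_zero _)
  obtain ⟨δ, hδ, H⟩ := move_half hN hz hσ hn hc hb4 ha h hf hD d₀ k₀.ge c₀
  have p₀ : 0 < η₀.det := by rw [d₀]; exact hn'
  rw [← act_SL, ← act_mul (vact_SL_det δ) p₀] at H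
  obtain ⟨s1, s2⟩ := xac_scal hδ
  have c₁ := s1.mul c₀
  have d₁ : ((δ : M2) * η₀).det = n := by rw [Matrix.det_mul, δ.det_coe, one_mul, d₀]
  have k₁ : Ker n (AA E b τ) ⊆ Ker n ((δ : M2) * η₀) := by rw [Ker_SL, k₀]
  generalize (δ : M2) * η₀ = η₁ at H c₁ d₁ k₁
  have p₁ : 0 < η₁.det := by rw [d₁]; exact hn'
  have h₁ : HasDisc (act η₁ τ) D := disc_of_gal h hD' (H _ (MF.j hN)).symm
  obtain ⟨η', d', c', H'⟩ := rec_iso hN h₁ hn d₁ (Nat.isCoprime_iff_coprime.1 hcN) h4 H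
  obtain ⟨ζ, dζ, kζ⟩ := (AA_line h₁ hf' hn hcE hb1).exists_mat hn
  obtain ⟨γ', e'⟩ := iso_unique h₁ hn dζ d' h4
    ((ha _ D ζ h₁ hD' hf' dζ kζ.ge).symm.trans (H' _ (MF.j hN)))
  have k' : Ker n (AA E b (act η₁ τ)) ⊆ Ker n η' := by rw [e', Ker_SL, kζ]
  have k₂ := Ker_step hn (AA_com h hf' p₁ h₁ hf' b) k₁ k'
  have hnn : 0 < n * n := Nat.mul_pos hn hn
  have l₂ := AA_line h hf' hnn (by rw [Nat.cast_mul]; exact hcE.mul_left hcE) hb2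
  have d₂ : (η' * η₁).det = (n * n : ℕ) := by rw [Matrix.det_mul, d', d₁, Nat.cast_mul]
  obtain ⟨γ, e⟩ := exists_SL_of_Ker hnn hη d₂ ((l₂.eq_Ker hnn hη hk).le.trans k₂)
  have c₂ : Cg N (η' * η₁) n := by
    refine xac_cg ((xac_cg c₁ c' (dvd_zero _ |>.trans (sub_self _).symm.dvd)).mul c₁)
      (fun i j => by rw [sub_self]; exact dvd_zero _) ?_
    have e₁ : δ 0 0 * s * (δ 0 0 * s) - n = (δ 0 0 * δ 0 0 - 1) * s ^ 2 := by rw [hs]; ring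
    rw [e₁]
    exact s2.mul_right _
  rw [e] at c₂
  intro f hf
  rw [H f hf, H' f hf, ← act_mul (by rw [d']; exact hn') p₁, e,
    act_mul (vact_SL_det γ) (by rw [hη]; exact_mod_cast hnn), act_SL,
    MF.inv hf (Cg.gamma hcN hg c₂)]

theorem move (hN : 0 < N) (F : IntermediateField ℚ ℂ) [FiniteDimensional ℚ F] (r : ℕ) :
    ∃ e : ℕ, 0 < e ∧ ∀ (E b : ℤ) (n₀ : ℕ) (T : Finset ℤ), E < -576 → T.card ≤ r →
      (∀ D ∈ T, D < -576 ∧ IsD D ∧ ¬ IsSquare (D * E)) → 0 < n₀ →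
      IsCoprime (n₀ : ℤ) (2 * N * E) → (4 * n₀ ^ (2 * e) : ℤ) ∣ b ^ 2 - E →
      ∃ σ : ℂ ≃+* ℂ, (∀ a ∈ F, σ a = a) ∧
        (∀ D ∈ T, ∀ τ, HasDisc τ D → ∀ f ∈ MF N F, σ (f τ) = f τ) ∧
        ∀ (τ : ℍ) (D : ℤ) (η : M2), HasDisc τ D → Fit E (N ^ 2 * D) → 577 * (N : ℤ) ^ 2 ≤ -D →
          4 * (n₀ : ℤ) ^ (2 * e) < -D → η.det = (n₀ ^ (2 * e) : ℕ) →
          Ker (n₀ ^ (2 * e)) (AA E b τ) ⊆ Ker (n₀ ^ (2 * e)) η → Cg N η (n₀ ^ e) →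
          ∀ f ∈ MF N F, σ (f τ) = f (act η τ) := by
  obtain ⟨L, hL, hFL, -, hz⟩ := exists_field F F hN
  obtain ⟨m, hm, hfix⟩ := fix_pow hN
  obtain ⟨d, hd2, hdL⟩ : ∃ d : ℕ, 2 ≤ d ∧ Module.finrank ℚ L ≤ d :=
    ⟨max 2 (Module.finrank ℚ L), le_max_left _ _, le_max_right _ _⟩
  obtain ⟨e', he'⟩ : 2 ∣ d.factorial := Nat.dvd_factorial two_pos hd2
  have hdf := d.factorial_pos
  obtain ⟨e, he⟩ : ∃ e, e = d.factorial * 2 ^ r * m := ⟨_, rfl⟩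
  refine ⟨e, by rw [he]; positivity, fun E b n₀ T hE hT hTE hn₀ hc hb => ?_⟩
  have hE0 : E < 0 := by omega
  have hn₀' : (0 : ℤ) < n₀ := by exact_mod_cast hn₀
  have hdv : ∀ k, k ≤ 2 * e → 4 * (n₀ : ℤ) ^ k ∣ b ^ 2 - E := fun k hk =>
    (mul_dvd_mul_left 4 (pow_dvd_pow _ hk)).trans hb
  obtain ⟨k, hk⟩ : ∃ k, d.factorial * 2 ^ T.card * m = k + 1 :=
    Nat.exists_eq_succ_of_ne_zero (by positivity)
  have hexp : 2 ^ (r - T.card) * (k + 1) = e := by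
    rw [← hk, he, ← Nat.sub_add_cancel hT, pow_add, Nat.add_sub_cancel]
    ring
  have hq : IsCoprime ((n₀ : ℤ) ^ 2 ^ (r - T.card)) E := hc.of_mul_right_right.pow_left
  have hle : 2 ^ (r - T.card) ≤ 2 * e := by
    rw [← hexp]
    nlinarith [Nat.zero_le (2 ^ (r - T.card) * k), Nat.zero_le (2 ^ (r - T.card))]
  obtain ⟨c, hc'⟩ := hdv _ hle
  have h𝔞 := discL_fac hE0 (by positivity) hc' hq
  obtain ⟨σ₀, hσ₀, hact, hT₀⟩ := realize hd2 hE T hTE h𝔞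
  have hact₁ := galb_acts_pow hact (galb_disc_pow h𝔞 (by positivity)) m
  rw [← pow_mul, hk, xac_pow hE0 hq k (by rw [← pow_mul, hexp]; exact hdv e (by omega)),
    ← pow_mul, hexp, ← Nat.cast_pow, Int.cast_natCast] at hact₁
  have hL₁ : ∀ a ∈ L, (σ₀ ^ m) a = a := fun a ha => xac_fix (hσ₀.field L hdL a ha) m
  have hn₁ : 0 < n₀ ^ e := by positivity
  have hc₁ : IsCoprime ((n₀ ^ e : ℕ) : ℤ) (2 * N * E) := by
    rw [Nat.cast_pow]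
    exact hc.pow_left
  have hsq : n₀ ^ (2 * e) = n₀ ^ e * n₀ ^ e := by rw [two_mul, pow_add]
  refine ⟨σ₀ ^ m * σ₀ ^ m, fun a ha => ?_, fun D hD τ hτ f hf => ?_,
    fun τ D η hτ hf hD h4 hη hk' hg f hf' => ?_⟩
  · rw [RingAut.mul_apply, hL₁ a (hFL ha), hL₁ a (hFL ha)]
  · have h1 := hT₀ D hD _ (discL_one hτ)
    rw [jL_one] at h1
    have h2 := hfix L σ₀ (hσ₀.field L hdL) τ h1 f (MF.mono hN dvd_rfl hFL hf)
    rw [RingAut.mul_apply, h2, h2]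
  · rw [hsq] at hη hk'
    rw [RingAut.mul_apply]
    refine xac_two (s := (n₀ : ℤ) ^ (e' * 2 ^ r * m)) hN hz hL₁ hn₁ hc₁ ?_ ?_
      (fun τ D η h1 h2 h3 h5 h6 => Acts.move (xac_fix (hσ₀.th hd2 hE0.le) m) hn₁
        (hc₁.of_mul_right_left.of_mul_right_left.mul_right hc₁.of_mul_right_right)
        (by rw [Nat.cast_pow]; exact hdv e (by omega)) hact₁ h1 h2 h3 h5 h6)
      hτ hf hD ?_ hη hk' ?_ f (MF.mono hN dvd_rfl hFL hf')
    · rw [← hsq, Nat.cast_pow]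
      exact hb
    · rw [Nat.cast_pow, ← pow_mul, he, he']
      congr 1
      ring
    · rw [Nat.cast_pow, ← pow_mul, mul_comm e]
      exact h4
    · rw [Nat.cast_pow]
      exact hg

end Pool.Agent.EQ
end
end
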