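import Pool.Agent.K.MP_ad7a55_nt.C63
import Pool.Agent.K.MP_ad7a55_nt.C62

/-! Pairs of close classes with a level structure at many split primes. -/

set_option autoImplicit false

noncomputable section

open Finset Matrix

namespace Pool.Agent.EQ

/-- Pairs of close classes with the same directions at many split primes. -/
theorem pair_many : ∃ (K Y : ℝ) (A : ℕ), 0 < K ∧ ∀ (E b₀ : ℤ) (S : Finset ℕ) (k : ℕ → ℕ) (C : ℝ),
    IsD E → Y ≤ -(E : ℝ) → 1 ≤ C → C ≤ -(E : ℝ) → S.Nonempty →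
    (∀ l ∈ S, l.Prime ∧ l ≠ 2 ∧ jacobiSym E l = 1 ∧ 0 < k l) →
    ∑ l ∈ S, (l : ℝ) ^ (-(1 / 4 : ℝ)) ≤ 1 →
    (((∏ l ∈ S, l ^ k l : ℕ) : ℝ)) ^ 400 ≤ -(E : ℝ) →
    ((LevP (∏ l ∈ S, l ^ k l) b₀ C E).ncard : ℝ) ≤
      K * C * Real.log (-(E : ℝ)) ^ A / (∏ l ∈ S, l ^ k l : ℕ) * HH E ^ 2 := by
  obtain ⟨K, L, hK, hL, H1⟩ := tpair_end
  obtain ⟨C₂, A, N₀, hC₂, H3⟩ := Dt.cnt_lev
  obtain ⟨C₃, hC₃, H2⟩ := EE_log
  obtain ⟨Y₁, H4⟩ := tpair_log 2 (L ^ 2)
  refine ⟨K * (1 + 9 * (C₂ * C₃ * 2 ^ A)), max Y₁ (N₀ ^ 4), A + 1, by positivity,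
    fun E b₀ S k C hE hY hC hCE ⟨p, hp⟩ hS hS4 hQE => ?_⟩
  obtain ⟨Q, hQ⟩ : ∃ Q, Q = ∏ l ∈ S, l ^ k l := ⟨_, rfl⟩
  have hQ0 : 0 < Q := hQ ▸ prod_pos fun l hl => pow_pos (hS l hl).1.pos _
  rw [← hQ] at hQE ⊢
  have hx := tti_three hE
  have hab := tti_abs hE.1
  obtain ⟨s, hs, h8⟩ := tpair_root (show 1 ≤ -(E : ℝ) by linarith)
  have k4 := H4 _ s ((le_max_left _ _).trans hY) (by linarith) h8
  have hq1 : (1 : ℝ) ≤ Q := by exact_mod_cast hQ0
  have hl1 : 1 ≤ Real.log (-(E : ℝ)) := by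
    rw [Real.le_log_iff_exp_le (by linarith)]
    linarith [Real.exp_one_lt_d9]
  have hρ : 0 < Real.log (-(E : ℝ)) ^ (A + 1) / Q := by positivity
  have k1 := tpair_main hE (hS p hp).1 hQ0 b₀ hC hCE (by linarith) h8
    (ρ := C₂ * C₃ * 2 ^ A * (Real.log (-(E : ℝ)) ^ (A + 1) / Q)) (by positivity) ?_
  · refine k1.trans ((H1 E s _ C _ hE hs h8 hρ.le hC (by positivity) ?_).trans (le_of_eq ?_))
    · have k2 : (Q : ℝ) ^ 2 ≤ s := by
        refine le_of_pow_le_pow_left₀ (n := 8) (by norm_num) (by linarith) ?_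
        rw [h8, ← pow_mul]
        exact (pow_le_pow_right₀ hq1 (by norm_num)).trans hQE
      have k3 : L * Real.log (-(E : ℝ)) * Q ≤ s := by
        refine le_of_pow_le_pow_left₀ (n := 2) (by norm_num) (by linarith) ?_
        rw [mul_pow, mul_pow, sq s]
        exact mul_le_mul k4 k2 (by positivity) (by linarith)
      rw [div_mul_eq_mul_div, le_div_iff₀ (by linarith)]
      exact k3.trans (le_mul_of_one_le_left (by linarith) (one_le_pow₀ hl1))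
    · ring
  · intro d hg hn hG hdp hdE H N hSz n3 n5
    subst hdE
    have hN : N₀ ≤ N := by
      have k2 : (N₀ : ℝ) ^ 4 ≤ (N : ℝ) ^ 4 := ((le_max_right _ _).trans hY).trans n3
      exact_mod_cast (pow_le_pow_iff_left₀ (by positivity) (by positivity) (by norm_num)).1 k2
    have hqN : Q ^ 100 ≤ N := by
      have k2 : ((Q : ℝ) ^ 100) ^ 4 ≤ (N : ℝ) ^ 4 := by
        rw [← pow_mul]
        exact hQE.trans n3
      exact_mod_cast (pow_le_pow_iff_left₀ (by positivity) (by positivity) (by norm_num)).1 k2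
    have hqH : Q ^ 2 ≤ H := by
      refine (Nat.pow_le_pow_iff_left (n := 16) (by norm_num)).1 (le_trans ?_ n5)
      rw [← pow_mul]
      exact (Nat.pow_le_pow_right hQ0 (by norm_num)).trans hqN
    have hG' : ∀ l ∈ S, ¬ l ∣ d.G := fun l hl e => by
      rw [hG] at e
      exact (hS l hl).1.one_lt.ne' (Nat.dvd_one.1 e)
    have hE' : ∀ l ∈ S, ¬ (l : ℤ) ∣ d.E := fun l hl e => by
      have hJ := (hS l hl).2.2.1
      rw [Dt.tsa_jac_zero (hS l hl).1 e] at hJ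
      exact zero_ne_one hJ
    refine ⟨d.WS S (d.wl k), fun X Y hB => hQ ▸ Dt.few_levs hg S k hS b₀ hB, fun Z hZ => ?_⟩
    have k2 := H3 d hg (by rw [hn]; rfl) H N hSz hN S k (hdp ▸ hp) (fun l hl =>
      ⟨(hS l hl).1, (hS l hl).2.1, hE' l hl, hG' l hl, (hS l hl).2.2.2⟩) hS4
      (hQ ▸ hqN) (hQ ▸ hqH) Z fun z hz => (hZ z hz).1
    rw [← hQ] at k2
    refine k2.trans ?_
    have b1 : 2 ≤ d.E.natAbs := by
      have : ((2 : ℕ) : ℝ) ≤ d.E.natAbs := by rw [hab]; push_cast; linarith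
      exact_mod_cast this
    have k3 := (H2 d.E _ b1).2
    rw [hab] at k3
    have k5 : Real.log N ≤ 2 * Real.log (-(d.E : ℝ)) := by
      have u1 := hSz.up
      rw [hG, Nat.cast_one, one_pow, one_mul] at u1
      have u2 : (N : ℝ) ≤ (-(d.E : ℝ)) ^ 2 := by
        rw [← hab]
        exact_mod_cast u1
      have u3 : (0 : ℝ) < N := by exact_mod_cast lt_of_lt_of_le (pow_pos hQ0 _) hqN
      have u4 := Real.log_le_log u3 u2
      rw [Real.log_pow] at u4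
      exact_mod_cast u4
    have k6 := pow_le_pow_left₀ (Real.log_natCast_nonneg N) k5 A
    have hE0 := EE_pos d.E d.E.natAbs
    calc _ ≤ C₂ * (2 * Real.log (-(d.E : ℝ))) ^ A / Q * N * H * 1 := by rw [mul_one]; gcongr
      _ ≤ C₂ * (2 * Real.log (-(d.E : ℝ))) ^ A / Q * N * H *
          (C₃ * Real.log (-(d.E : ℝ)) * EE d.E d.E.natAbs) :=
          mul_le_mul_of_nonneg_left k3 (by positivity)
      _ = _ := by ring

end Pool.Agent.EQ
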