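import Pool.Agent.K.MP_ad7a55_nt.C63
import Pool.Agent.K.MP_ad7a55_nt.C61
import Pool.Agent.K.MP_ad7a55_nt.C65
import Pool.Agent.K.MP_ad7a55_nt.C58
import Pool.Agent.K.MP_ad7a55_nt.C57

-- part Pool.Agent.P.MP_ad7a55_nt.XHc
section

/-! The exceptional set is thin. -/

set_option autoImplicit false

noncomputable section

open Finset
open scoped Classical ArithmeticFunction.vonMangoldt

namespace Pool.Agent.EQ

theorem thin {ε : ℝ} (hε : 0 < ε) : ∃ (c : ℝ) (A₀ : ℕ), 0 < c ∧ ∀ A : ℕ, A₀ ≤ A → ∃ C : ℝ,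
    ∀ X : ℕ, ((EX A c ∩ Set.Iic X).ncard : ℝ) ≤ C * (X : ℝ) ^ ε := by
  obtain ⟨c, hc, H⟩ := two_exc
  obtain ⟨A₁, t₀, h1⟩ := many_large
  obtain ⟨A₂, h2⟩ := few_medium hε
  refine ⟨c, max A₁ A₂, hc, fun A hA => ?_⟩
  obtain ⟨C, hC⟩ := h2 A (le_of_max_le_right hA)
  refine ⟨1 / (ε * Real.log 2) + 2 + C + t₀, fun X => ?_⟩
  rcases Nat.eq_zero_or_pos X with rfl | hX
  · have : EX A c ∩ Set.Iic 0 = ∅ := Set.eq_empty_of_forall_notMem fun m hm =>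
      hm.1.1.ne_zero (Nat.le_zero.1 hm.2)
    rw [this, Nat.cast_zero, Real.zero_rpow hε.ne']
    simp
  have hfin : ∀ Z : Set ℕ, (Z ∩ Set.Iic X).Finite := fun Z =>
    (Set.finite_Iic X).subset Set.inter_subset_right
  have hsub : EX A c ∩ Set.Iic X ⊆
      ({m : ℕ | Squarefree m ∧ ¬ NoZero c (-(m : ℤ))} ∩ Set.Iic X ∪
        {m : ℕ | Squarefree m ∧ ∃ t : ℕ, Real.log m ≤ t ∧ t < m ∧ nSp m (t ^ A) < t} ∩
          Set.Iic X) ∪ (range t₀ : Finset ℕ) := by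
    rintro m ⟨⟨hm, hn⟩, hmX⟩
    by_cases hz : NoZero c (-(m : ℤ))
    · have h3 : ¬ Many A m := fun h => hn ⟨hz, h⟩
      unfold Many at h3
      push Not at h3
      obtain ⟨t, t1, t2⟩ := h3
      rcases Nat.lt_or_ge t m with h4 | h4
      · exact Or.inl (Or.inr ⟨⟨hm, t, t1, h4, t2⟩, hmX⟩)
      · refine Or.inr (mem_coe.2 (mem_range.2 ?_))
        by_contra h5
        have h0 : 0 < m := Nat.pos_of_ne_zero hm.ne_zero
        have h6 := h1 m hm t (by omega) h4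
        have h7 := nSp_mono m
          (Nat.pow_le_pow_right (by omega : 0 < t) (le_of_max_le_left hA))
        omega
    · exact Or.inl (Or.inl ⟨⟨hm, hz⟩, hmX⟩)
  have a1 := Set.ncard_le_ncard hsub (((hfin _).union (hfin _)).union (finite_toSet _))
  have a2 := a1.trans ((Set.ncard_union_le _ _).trans
    (Nat.add_le_add_right (Set.ncard_union_le _ _) _))
  rw [Set.ncard_coe_finset, card_range] at a2
  have a3 := card_lac (Z := {m : ℕ | Squarefree m ∧ ¬ NoZero c (-(m : ℤ))})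
    (fun m hm m' hm' hlt => not_le.1 fun hle => (H m m' hm.1 hm'.1 hlt hle).elim hm.2 hm'.2) X
  have a4 := a2.trans (Nat.add_le_add_right (Nat.add_le_add_right a3 _) _)
  have a5 : ((_ : ℕ) : ℝ) ≤ ((_ : ℕ) : ℝ) := Nat.cast_le.2 a4
  rw [Nat.cast_add, Nat.cast_add, Nat.cast_add, Nat.cast_ofNat] at a5
  have b1 : (1 : ℝ) ≤ (X : ℝ) ^ ε := Real.one_le_rpow (by exact_mod_cast hX) hε.le
  have b2 : (Nat.log 2 X : ℝ) ≤ 1 / (ε * Real.log 2) * (X : ℝ) ^ ε := by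
    refine (Real.natLog_le_logb X 2).trans ?_
    have h3 : 0 < Real.log 2 := Real.log_pos one_lt_two
    rw [Real.logb, Nat.cast_ofNat, div_le_iff₀ h3]
    refine (Real.log_le_rpow_div (Nat.cast_nonneg X) hε).trans (le_of_eq ?_)
    field_simp
  have b3 := mul_le_mul_of_nonneg_left b1 (Nat.cast_nonneg (α := ℝ) t₀)
  have b4 := hC X
  linarith

end Pool.Agent.EQ
end
end

-- part Pool.Agent.P.MP_ad7a55_nt.YHa
section

/-! Fields without many split primes at large scales are very rare. -/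

set_option autoImplicit false

noncomputable section

open Finset
open scoped Classical

namespace Pool.Agent.EQ

/-- The threshold scale. -/
def thr (B : ℕ) (X : ℝ) : ℝ := X / Real.log X ^ B

/-- Many split primes at all scales above `Z`. -/
def ManyT (A m : ℕ) (Z : ℝ) : Prop := ∀ t : ℕ, Z ≤ Real.log t → t ≤ nSp m (t ^ A)

/-- The exceptional set. -/
def EY (B A : ℕ) (c : ℝ) : Set ℕ :=
  {m | Squarefree m ∧ ¬ (NoZero c (-(m : ℤ)) ∧ ManyT A m (thr B (Real.log m)))}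

theorem ManyT.mono {A A' m : ℕ} {Z Z' : ℝ} (h : ManyT A m Z) (hA : A ≤ A') (hZ : Z ≤ Z') :
    ManyT A' m Z' := by
  intro t ht
  rcases Nat.eq_zero_or_pos t with rfl | h0
  · exact Nat.zero_le _
  · exact (h t (hZ.trans ht)).trans (nSp_mono m (Nat.pow_le_pow_right h0 hA))

theorem thr_mono (B : ℕ) {X X' : ℝ} (h : Real.exp B ≤ X) (h' : X ≤ X') : thr B X ≤ thr B X' := by
  unfold thr
  rcases Nat.eq_zero_or_pos B with rfl | hB
  · rw [pow_zero, pow_zero, div_one, div_one]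
    exact h'
  have hB' : (0 : ℝ) < B := by exact_mod_cast hB
  have hX : 0 < X := (Real.exp_pos _).trans_le h
  have hX' : 0 < X' := hX.trans_le h'
  have h1 : (B : ℝ) ≤ Real.log X := (Real.le_log_iff_exp_le hX).2 h
  have h2 : Real.log X ≤ Real.log X' := Real.log_le_log hX h'
  obtain ⟨u, hu⟩ : ∃ u, u = Real.log X := ⟨_, rfl⟩
  obtain ⟨d, hd⟩ : ∃ d, d = Real.log X' - Real.log X := ⟨_, rfl⟩
  have hd0 : 0 ≤ d := by rw [hd]; linarith
  have e1 : Real.log X' = u + d := by rw [hu, hd]; ring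
  have e2 : X' = X * Real.exp d := by
    rw [hd, Real.exp_sub, Real.exp_log hX, Real.exp_log hX']
    field_simp
  rw [← hu] at h1
  have hu0 : 0 < u := by linarith
  rw [e1, ← hu, div_le_div_iff₀ (by positivity) (by positivity)]
  have a1 : u + d ≤ u * Real.exp (d / u) := by
    have := Real.add_one_le_exp (d / u)
    calc u + d = u * (d / u + 1) := by field_simp; ring
      _ ≤ _ := mul_le_mul_of_nonneg_left this hu0.le
  have a2 : (u + d) ^ B ≤ u ^ B * Real.exp d := by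
    refine (pow_le_pow_left₀ (by positivity) a1 B).trans ?_
    rw [mul_pow, ← Real.exp_nat_mul]
    refine mul_le_mul_of_nonneg_left (Real.exp_le_exp.2 ?_) (by positivity)
    rw [← mul_div_assoc, div_le_iff₀ hu0]
    nlinarith
  calc X * (u + d) ^ B ≤ X * (u ^ B * Real.exp d) := mul_le_mul_of_nonneg_left a2 hX.le
    _ = X' * u ^ B := by rw [e2]; ring

theorem thr_anti {B B' : ℕ} (h : B ≤ B') {X : ℝ} (hX : Real.exp 1 ≤ X) : thr B' X ≤ thr B X := by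
  have h0 : 0 < X := (Real.exp_pos _).trans_le hX
  have h1 : 1 ≤ Real.log X := (Real.le_log_iff_exp_le h0).2 hX
  exact div_le_div_of_nonneg_left h0.le (by positivity) (pow_le_pow_right₀ h1 h)

theorem thr_tendsto (B : ℕ) : Filter.Tendsto (thr B) Filter.atTop Filter.atTop := by
  refine ((Real.tendsto_exp_div_pow_atTop B).comp Real.tendsto_log_atTop).congr' ?_
  filter_upwards [Filter.eventually_gt_atTop (0 : ℝ)] with X hX
  simp only [Function.comp, thr, Real.exp_log hX]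

theorem yha_ev (B : ℕ) (K : ℝ) : ∃ X₀ : ℕ, ∀ X : ℕ, X₀ ≤ X →
    K ≤ Real.log (Real.log X) ∧ K ≤ thr B (Real.log X) ∧ K ≤ Real.log X ∧ K ≤ X := by
  have h0 : Filter.Tendsto (fun X : ℕ => (X : ℝ)) Filter.atTop Filter.atTop :=
    tendsto_natCast_atTop_atTop
  have h1 := Real.tendsto_log_atTop.comp h0
  have h2 := Real.tendsto_log_atTop.comp h1
  have h3 := (thr_tendsto B).comp h1
  exact Filter.eventually_atTop.1 ((h2.eventually_ge_atTop K).and ((h3.eventually_ge_atTop K).and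
    ((h1.eventually_ge_atTop K).and (h0.eventually_ge_atTop K))))

theorem yha_log2 {X : ℕ} (hX : X ≠ 0) : (Nat.log 2 X : ℝ) ≤ 2 * Real.log X := by
  have c1 : Real.log ((2 : ℝ) ^ Nat.log 2 X) ≤ Real.log X :=
    Real.log_le_log (by positivity) (by exact_mod_cast Nat.pow_log_le_self 2 hX)
  rw [Real.log_pow] at c1
  have c2 := Real.log_two_gt_d9
  have c3 : (0 : ℝ) ≤ Nat.log 2 X := Nat.cast_nonneg _
  nlinarith

theorem yha_four {L : ℝ} (B : ℕ) (hL : 0 < L) (hl : 1 ≤ Real.log L) :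
    4 * L ≤ Real.exp (4 * Real.log L ^ (B + 1)) := by
  have a1 : Real.log L ≤ Real.log L ^ (B + 1) := le_self_pow₀ hl (by omega)
  have a2 : (4 : ℝ) ≤ Real.exp 3 := by
    have := Real.add_one_le_exp 3
    linarith
  calc 4 * L ≤ Real.exp 3 * Real.exp (Real.log L) := by
        rw [Real.exp_log hL]
        exact mul_le_mul_of_nonneg_right a2 hL.le
    _ ≤ _ := by
        rw [← Real.exp_add]
        exact Real.exp_le_exp.2 (by linarith)

theorem yha_block {z₀ : ℕ} (hz : ∀ z : ℕ, z₀ ≤ z →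
      (z : ℝ) ≤ 4 * Real.log z * #((Nat.primesLE z).filter fun p => p ≠ 2)) {X T : ℕ}
    (h1 : z₀ ≤ T) (h2 : 32 ≤ T) (h3 : T ≤ X)
    (h4 : 24 * Real.log X ≤ (T : ℝ) ^ 2) {M : Finset ℕ}
    (hM : ∀ m ∈ M, Squarefree m ∧ m ≤ X ∧ Real.log m ≤ 2 * T ∧ nSp m (T ^ 8) ≤ 2 * T) :
    ∃ k : ℕ, (T ^ 4) ^ k ≤ X ^ 3 ∧ (#M : ℝ) ≤ 2 * (768 * Real.log X ^ 2) ^ (k + 1) := by
  have hT : (32 : ℝ) ≤ T := by exact_mod_cast h2
  have hX : (T : ℝ) ≤ X := by exact_mod_cast h3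
  have hl2 := Real.log_two_gt_d9
  have hL : 1 ≤ Real.log X := by
    have : Real.log ((2 : ℝ) ^ 2) ≤ Real.log X := Real.log_le_log (by norm_num) (by linarith)
    rw [Real.log_pow] at this
    push_cast at this
    linarith
  have hlT : Real.log T ≤ Real.log X := Real.log_le_log (by linarith) hX
  have hlT' : Real.log T ≤ T := (Real.log_le_sub_one_of_pos (by linarith)).trans (by linarith)
  have hlT0 : 0 ≤ Real.log T := Real.log_nonneg (by linarith)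
  have hc := hz (T ^ 8) (h1.trans (Nat.le_self_pow (by omega) T))
  have hs := fun m (hm : m ∈ M) => xhb_sum (z := T ^ 8) (hM m hm).1.ne_zero
  obtain ⟨P, hP⟩ : ∃ P, P = (Nat.primesLE (T ^ 8)).filter fun p => p ≠ 2 := ⟨_, rfl⟩
  rw [← hP] at hc hs
  rw [Nat.cast_pow, Real.log_pow, Nat.cast_ofNat] at hc
  have hP0 : (0 : ℝ) ≤ #P := Nat.cast_nonneg _
  have hb : 4 * (8 * Real.log T) ≤ (T : ℝ) ^ 2 := by nlinarith
  have hN : (T : ℝ) ^ 6 ≤ #P := by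
    refine le_of_mul_le_mul_left (a := (T : ℝ) ^ 2) ?_ (by positivity)
    refine le_trans (le_of_eq (by ring)) (hc.trans (mul_le_mul_of_nonneg_right hb hP0))
  have hTD : (1 : ℝ) ≤ (T : ℝ) ^ 4 := one_le_pow₀ (by linarith)
  have hN' : 16 * (T : ℝ) ≤ #P := by
    refine le_trans ?_ hN
    rw [show 6 = 4 + 2 from rfl, pow_add]
    nlinarith
  have hPpos : (0 : ℝ) < #P := by linarith
  have hex : ∃ k : ℕ, 8 * X ^ 2 ≤ (T ^ 4) ^ k :=
    ⟨8 * X ^ 2, (Nat.lt_pow_self (Nat.one_lt_pow (by omega) (by omega))).le⟩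
  obtain ⟨k, hk1, hk2⟩ : ∃ k : ℕ, 8 * X ^ 2 ≤ (T ^ 4) ^ (k + 1) ∧ (T ^ 4) ^ k ≤ X ^ 3 := by
    have a1 := Nat.find_spec hex
    have a0 : 0 < X ^ 2 := Nat.pow_pos (by omega)
    have a2 : Nat.find hex ≠ 0 := fun e => by
      rw [e, pow_zero] at a1
      omega
    obtain ⟨k, hk⟩ := Nat.exists_eq_succ_of_ne_zero a2
    refine ⟨k, by rw [hk] at a1; exact a1, ?_⟩
    have a3 := not_le.1 (Nat.find_min hex (m := k) (by omega))
    refine a3.le.trans ?_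
    rw [pow_succ' X 2]
    exact Nat.mul_le_mul_right _ (by omega)
  have hkL : 4 * ((k + 1 : ℕ) : ℝ) ≤ 24 * Real.log X := by
    have a1 : 2 ^ k ≤ X ^ 3 := le_trans (Nat.pow_le_pow_left
      (le_trans (by omega) (Nat.le_self_pow (by omega : 4 ≠ 0) T)) k) hk2
    have a2 : Real.log ((2 : ℝ) ^ k) ≤ Real.log ((X : ℝ) ^ 3) :=
      Real.log_le_log (by positivity) (by exact_mod_cast a1)
    rw [Real.log_pow, Real.log_pow] at a2
    have a3 : (0 : ℝ) ≤ k := Nat.cast_nonneg _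
    push_cast at a2 ⊢
    nlinarith
  have hk0 : (0 : ℝ) < 4 * ((k + 1 : ℕ) : ℝ) := by positivity
  have key := sieve_pow X (T ^ 8) (k + 1) (Nat.succ_pos k) P M
    (fun p hp => by
      rw [hP] at hp
      exact (Nat.mem_primesLE.1 (mem_filter.1 hp).1).symm)
    (fun m hm => ⟨(hM m hm).1, (hM m hm).2.1, by
      have a1 := hs m hm
      have a2 := (hM m hm).2.2.1
      have a3 : (nSp m (T ^ 8) : ℝ) ≤ 2 * T := by exact_mod_cast (hM m hm).2.2.2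
      linarith⟩)
    (by
      have a1 : 8 * (X : ℝ) ^ 2 ≤ ((T : ℝ) ^ 4) ^ (k + 1) := by exact_mod_cast hk1
      refine a1.trans (pow_le_pow_left₀ (by positivity) ?_ _)
      rw [le_div_iff₀ hk0]
      refine le_trans ?_ hN
      rw [show 6 = 4 + 2 from rfl, pow_add]
      exact mul_le_mul_of_nonneg_left (hkL.trans h4) (by positivity))
    (card_pos.1 (by exact_mod_cast hPpos))
  refine ⟨k, hk2, key.trans (mul_le_mul_of_nonneg_left
    (pow_le_pow_left₀ (by positivity) ?_ _) (by norm_num))⟩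
  have hB1 : 4 * ((k + 1 : ℕ) : ℝ) * ((T ^ 8 : ℕ) : ℝ) / #P ≤
      24 * Real.log X * (4 * (8 * Real.log T)) := by
    rw [mul_div_assoc]
    refine mul_le_mul hkL ?_ (by positivity) (by positivity)
    rw [div_le_iff₀ hPpos, Nat.cast_pow]
    exact hc
  refine hB1.trans ?_
  have : 24 * Real.log X * (4 * (8 * Real.log T)) ≤ 24 * Real.log X * (4 * (8 * Real.log X)) := by
    gcongr
  linarith

theorem block6 (B : ℕ) : ∃ (C : ℝ) (X₀ : ℕ), ∀ (X T : ℕ) (M : Finset ℕ), X₀ ≤ X →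
    thr B (Real.log X) / 4 ≤ Real.log T → T ≤ X →
    (∀ m ∈ M, Squarefree m ∧ m ≤ X ∧ nSp m (T ^ 8) ≤ 2 * T) →
    (#M : ℝ) ≤ Real.exp (C * Real.log (Real.log X) ^ (B + 1)) := by
  obtain ⟨z₀, hz⟩ := cheb_low
  obtain ⟨c, hc⟩ : ∃ c : ℝ, c = Real.log (z₀ + 32) := ⟨_, rfl⟩
  have hz0 : (0 : ℝ) ≤ z₀ := Nat.cast_nonneg _
  have hc0 : 0 ≤ c := by rw [hc]; exact Real.log_nonneg (by linarith)
  obtain ⟨X₀, hX₀⟩ := yha_ev (B + 1) (4 * (1 + c))
  refine ⟨37, X₀, fun X T M hX hT hTX hM => ?_⟩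
  obtain ⟨b1, b2, b3, b4⟩ := hX₀ X hX
  unfold thr at hT b2
  obtain ⟨L, hL⟩ : ∃ L, L = Real.log X := ⟨_, rfl⟩
  obtain ⟨l, hl⟩ : ∃ l, l = Real.log L := ⟨_, rfl⟩
  rw [← hL, ← hl] at hT b1 b2 ⊢
  rw [← hL] at b3
  have hl1 : 1 ≤ l := by linarith
  have hL1 : 1 ≤ L := by linarith
  have hlB : 0 < l ^ B := by positivity
  have a1 : l + c ≤ Real.log T := by
    refine le_trans ?_ hT
    rw [le_div_iff₀ (by positivity), pow_succ] at b2
    rw [le_div_iff₀ (by norm_num), le_div_iff₀ hlB]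
    refine le_trans ?_ b2
    have : (l + c) * 4 ≤ 4 * (1 + c) * l := by nlinarith
    nlinarith
  have hT0 : (0 : ℝ) < T := by
    rcases Nat.eq_zero_or_pos T with rfl | h
    · rw [Nat.cast_zero, Real.log_zero] at a1
      linarith
    · exact_mod_cast h
  have a2 : L * (z₀ + 32) ≤ T := by
    have := (Real.le_log_iff_exp_le hT0).1 a1
    rwa [Real.exp_add, hl, hc, Real.exp_log (by linarith), Real.exp_log (by linarith)] at this
  have a3 : (z₀ : ℝ) + 32 ≤ T := by nlinarith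
  have a4 : 32 * L ≤ T := by nlinarith
  have a5 : z₀ + 32 ≤ T := by exact_mod_cast a3
  obtain ⟨k, hk, hM'⟩ := yha_block hz (X := X) (T := T) (M := M) (by omega) (by omega) hTX
    (by rw [← hL]; nlinarith) fun m hm => ⟨(hM m hm).1, (hM m hm).2.1, by
      have e1 : Real.log m ≤ Real.log X := Real.log_le_log
        (by exact_mod_cast Nat.pos_of_ne_zero (hM m hm).1.ne_zero) (by exact_mod_cast (hM m hm).2.1)
      linarith, (hM m hm).2.2⟩
  rw [← hL] at hM'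
  have a6 : (k : ℝ) ≤ 3 * l ^ B := by
    have e1 : Real.log (((T : ℝ) ^ 4) ^ k) ≤ Real.log ((X : ℝ) ^ 3) :=
      Real.log_le_log (by positivity) (by exact_mod_cast hk)
    rw [Real.log_pow, Real.log_pow, Real.log_pow, ← hL] at e1
    push_cast at e1
    have e2 : (k : ℝ) * (L / l ^ B) ≤ 3 * L :=
      (mul_le_mul_of_nonneg_left (by linarith) (Nat.cast_nonneg k)).trans e1
    rw [← mul_div_assoc, div_le_iff₀ hlB] at e2
    refine le_of_mul_le_mul_right (a := L) ?_ (by linarith)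
    linarith
  have a7 : 768 * L ^ 2 ≤ Real.exp (9 * l) := by
    have e1 : (768 : ℝ) ≤ Real.exp 7 := by
      have f1 := Real.exp_one_gt_d9
      have f2 : Real.exp 7 = Real.exp 1 ^ 7 := by rw [← Real.exp_nat_mul]; norm_num
      rw [f2]
      exact le_trans (by norm_num) (pow_le_pow_left₀ (by norm_num : (0 : ℝ) ≤ 2.7) (by linarith) 7)
    have e2 : L ^ 2 = Real.exp (2 * l) := by
      rw [show (2 : ℝ) * l = l + l by ring, Real.exp_add, hl, Real.exp_log (by linarith), sq]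
    rw [e2]
    refine (mul_le_mul_of_nonneg_right e1 (Real.exp_pos _).le).trans ?_
    rw [← Real.exp_add]
    exact Real.exp_le_exp.2 (by linarith)
  have a8 : (1 : ℝ) ≤ l ^ B := one_le_pow₀ hl1
  have a9 : (2 : ℝ) ≤ Real.exp 1 := by
    have := Real.add_one_le_exp 1
    linarith
  refine hM'.trans ((mul_le_mul a9 (pow_le_pow_left₀ (by positivity) a7 _) (by positivity)
    (Real.exp_pos _).le).trans ?_)
  rw [← Real.exp_nat_mul, ← Real.exp_add]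
  refine Real.exp_le_exp.2 ?_
  push_cast
  rw [pow_succ]
  have e3 : ((k : ℝ) + 1) * (9 * l) ≤ 4 * l ^ B * (9 * l) :=
    mul_le_mul_of_nonneg_right (by linarith) (by linarith)
  nlinarith

theorem range_bad (B : ℕ) : ∃ (C : ℝ) (X₀ : ℕ), ∀ X : ℕ, X₀ ≤ X →
    (#{m ∈ range (X + 1) | X < m ^ 2 ∧ Squarefree m ∧ ∃ t : ℕ,
      thr B (Real.log m) ≤ Real.log t ∧ t < m ∧ nSp m (t ^ 8) < t} : ℝ) ≤
      Real.exp (C * Real.log (Real.log X) ^ (B + 1)) := by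
  obtain ⟨C, X₁, hC⟩ := block6 B
  obtain ⟨X₂, hX₂⟩ := yha_ev B (2 * Real.exp B + 4)
  refine ⟨C + 4, max X₁ X₂, fun X hX => ?_⟩
  obtain ⟨b1, b2, b3, b4⟩ := hX₂ X (le_of_max_le_right hX)
  have hB := Real.exp_pos B
  have hX0 : X ≠ 0 := by
    rintro rfl
    rw [Nat.cast_zero] at b4
    linarith
  have hl2 := Real.log_two_lt_d9
  obtain ⟨M, hM⟩ : ∃ M : ℕ → Finset ℕ, M = fun j => (range (X + 1)).filter fun m : ℕ =>
      Squarefree m ∧ nSp m ((2 ^ j) ^ 8) ≤ 2 * 2 ^ j ∧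
        thr B (Real.log X) / 4 ≤ Real.log (2 ^ j : ℕ) := ⟨_, rfl⟩
  have a1 : #{m ∈ range (X + 1) | X < m ^ 2 ∧ Squarefree m ∧ ∃ t : ℕ,
      thr B (Real.log m) ≤ Real.log t ∧ t < m ∧ nSp m (t ^ 8) < t} ≤
      #((range (Nat.log 2 X + 1)).biUnion M) := by
    refine card_le_card fun m hm => ?_
    obtain ⟨h5, h6, h1, t, h2, h3, h4⟩ := mem_filter.1 hm
    have h5' : m ≤ X := Nat.lt_succ_iff.1 (mem_range.1 h5)
    have h7 : t ≠ 0 := by omega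
    have h8 := Nat.pow_log_le_self 2 h7
    have h9 := Nat.lt_pow_succ_log_self (b := 2) (by norm_num) t
    rw [pow_succ] at h9
    refine mem_biUnion.2 ⟨Nat.log 2 t, mem_range.2
      (Nat.lt_succ_of_le (Nat.log_mono_right (by omega))), ?_⟩
    rw [hM]
    refine mem_filter.2 ⟨h5, h1, ?_, ?_⟩
    · have := nSp_mono m (Nat.pow_le_pow_left h8 8)
      omega
    have c1 : Real.log X / 2 ≤ Real.log m := by
      have d1 : Real.log X ≤ Real.log ((m : ℝ) ^ 2) :=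
        Real.log_le_log (by linarith) (by exact_mod_cast h6.le)
      rw [Real.log_pow] at d1
      push_cast at d1
      linarith
    have c2 := thr_mono B (by linarith : Real.exp B ≤ Real.log X / 2) c1
    have c3 : thr B (Real.log X) / 2 ≤ thr B (Real.log X / 2) := by
      unfold thr
      rw [div_right_comm]
      have d1 : 0 < Real.log (Real.log X / 2) := Real.log_pos (by linarith)
      exact div_le_div_of_nonneg_left (by linarith) (by positivity)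
        (pow_le_pow_left₀ d1.le (Real.log_le_log (by linarith) (by linarith)) B)
    have c4 : Real.log t ≤ Real.log (2 ^ Nat.log 2 t : ℕ) + Real.log 2 := by
      rw [← Real.log_mul (by positivity) (by norm_num)]
      exact Real.log_le_log (by exact_mod_cast Nat.pos_of_ne_zero h7) (by exact_mod_cast h9.le)
    linarith
  have a2 : ∀ j ∈ range (Nat.log 2 X + 1),
      (#(M j) : ℝ) ≤ Real.exp (C * Real.log (Real.log X) ^ (B + 1)) := fun j hj => by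
    rcases (M j).eq_empty_or_nonempty with e | ⟨m₀, e⟩
    · rw [e, card_empty, Nat.cast_zero]
      positivity
    rw [hM] at e
    refine hC X (2 ^ j) _ (le_of_max_le_left hX) (mem_filter.1 e).2.2.2
      (Nat.pow_le_of_le_log hX0 (Nat.lt_succ_iff.1 (mem_range.1 hj))) fun m hm => ?_
    rw [hM] at hm
    obtain ⟨d1, d2, d3, -⟩ := mem_filter.1 hm
    exact ⟨d2, Nat.lt_succ_iff.1 (mem_range.1 d1), d3⟩
  have a3 : ((Nat.log 2 X + 1 : ℕ) : ℝ) ≤ Real.exp (4 * Real.log (Real.log X) ^ (B + 1)) := by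
    refine le_trans ?_ (yha_four B (by linarith) (by linarith))
    have := yha_log2 hX0
    push_cast
    linarith
  refine (Nat.cast_le.2 (a1.trans card_biUnion_le)).trans ?_
  rw [Nat.cast_sum]
  refine (sum_le_card_nsmul _ _ _ a2).trans ?_
  rw [card_range, nsmul_eq_mul, add_mul, add_comm (C * _), Real.exp_add]
  exact mul_le_mul_of_nonneg_right a3 (Real.exp_pos _).le

theorem sqrt_rec (p : ℕ → Prop) (B : ℕ) {C : ℝ} {X₀ : ℕ} (h : ∀ X : ℕ, X₀ ≤ X →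
    (#{m ∈ range (X + 1) | X < m ^ 2 ∧ p m} : ℝ) ≤
      Real.exp (C * Real.log (Real.log X) ^ (B + 1))) : ∃ C' : ℝ, ∀ X : ℕ,
    (#{m ∈ range (X + 1) | p m} : ℝ) ≤ C' * Real.exp (Real.log (Real.log X) ^ (B + 2)) := by
  obtain ⟨X₂, hX₂⟩ := yha_ev B (|C| + 9)
  obtain ⟨f, hf⟩ : ∃ f : ℕ → ℝ, f = fun X => (#{m ∈ range (X + 1) | p m} : ℝ) := ⟨_, rfl⟩
  obtain ⟨g, hg⟩ : ∃ g : ℕ → ℝ, g = fun X : ℕ => Real.exp (Real.log (Real.log X) ^ (B + 2)) :=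
    ⟨_, rfl⟩
  have hf0 : ∀ X, 0 ≤ f X := fun X => by rw [hf]; exact Nat.cast_nonneg _
  have hg0 : ∀ X, 0 < g X := fun X => by rw [hg]; exact Real.exp_pos _
  obtain ⟨C', hC'⟩ : ∃ C', C' = 1 + ∑ X ∈ range (max X₀ X₂), f X / g X := ⟨_, rfl⟩
  have hs : ∀ X ∈ range (max X₀ X₂), 0 ≤ f X / g X := fun X _ => div_nonneg (hf0 X) (hg0 X).le
  have hC1 : 1 ≤ C' := by
    rw [hC']
    exact le_add_of_nonneg_right (sum_nonneg hs)
  suffices H : ∀ X, f X ≤ C' * g X by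
    refine ⟨C', fun X => ?_⟩
    have := H X
    rw [hf, hg] at this
    exact this
  intro X
  induction X using Nat.strong_induction_on with
  | _ X ih =>
  rcases lt_or_ge X (max X₀ X₂) with hlt | hge
  · rw [← div_le_iff₀ (hg0 X), hC']
    have := single_le_sum hs (mem_range.2 hlt)
    linarith
  obtain ⟨b1, -, b3, b4⟩ := hX₂ X (le_of_max_le_right hge)
  have hC0 := abs_nonneg C
  have hX9 : 9 ≤ X := by exact_mod_cast (by linarith : (9 : ℝ) ≤ X)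
  have hY3 : 3 ≤ Nat.sqrt X := Nat.le_sqrt.2 hX9
  have hYX : Nat.sqrt X < X := Nat.sqrt_lt_self (by omega)
  have a1 : f X ≤ f (Nat.sqrt X) + Real.exp (C * Real.log (Real.log X) ^ (B + 1)) := by
    refine le_trans ?_ (add_le_add le_rfl (h X (le_of_max_le_left hge)))
    rw [hf]
    beta_reduce
    rw [← Nat.cast_add]
    refine Nat.cast_le.2 (le_trans (card_le_card fun m hm => ?_) (card_union_le _ _))
    obtain ⟨d1, d2⟩ := mem_filter.1 hm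
    rw [mem_union]
    by_cases e : X < m ^ 2
    · exact Or.inr (mem_filter.2 ⟨d1, e, d2⟩)
    · exact Or.inl (mem_filter.2 ⟨mem_range.2 (Nat.lt_succ_of_le (Nat.le_sqrt'.2 (not_lt.1 e))), d2⟩)
  have hl2 := Real.log_two_lt_d9
  have hl2' := Real.log_two_gt_d9
  have hY : (3 : ℝ) ≤ Nat.sqrt X := by exact_mod_cast hY3
  have c1 : 1 ≤ Real.log (Nat.sqrt X) := by
    rw [Real.le_log_iff_exp_le (by linarith)]
    have := Real.exp_one_lt_d9
    linarith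
  have c2 : Real.log (Nat.sqrt X) ≤ Real.log X / 2 := by
    have d1 : Real.log ((Nat.sqrt X : ℝ) ^ 2) ≤ Real.log X :=
      Real.log_le_log (by positivity) (by exact_mod_cast Nat.sqrt_le' X)
    rw [Real.log_pow] at d1
    push_cast at d1
    linarith
  have c3 : Real.log (Real.log (Nat.sqrt X)) ≤ Real.log (Real.log X) - Real.log 2 := by
    rw [← Real.log_div (by linarith) (by norm_num)]
    exact Real.log_le_log (by linarith) c2
  have c4 : 0 ≤ Real.log (Real.log (Nat.sqrt X)) := Real.log_nonneg c1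
  have ih' := ih _ hYX
  rw [hg] at ih' ⊢
  beta_reduce at ih' ⊢
  obtain ⟨l, hl⟩ : ∃ l, l = Real.log (Real.log X) := ⟨_, rfl⟩
  obtain ⟨l', hl'⟩ : ∃ l', l' = Real.log (Real.log (Nat.sqrt X)) := ⟨_, rfl⟩
  rw [← hl'] at ih' c3 c4
  rw [← hl] at a1 b1 c3 ⊢
  have e1 : (1 : ℝ) ≤ l ^ (B + 1) := one_le_pow₀ (by linarith)
  have e2 : l' ^ (B + 1) ≤ l ^ (B + 1) := pow_le_pow_left₀ c4 (by linarith) _
  have e3 : l' ^ (B + 2) ≤ l ^ (B + 2) - Real.log 2 := by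
    rw [pow_succ l', pow_succ l]
    have := mul_le_mul e2 c3 c4 (by linarith)
    nlinarith
  have e4 : C * l ^ (B + 1) ≤ l ^ (B + 2) - Real.log 2 := by
    rw [pow_succ l (B + 1)]
    have := le_abs_self C
    nlinarith
  have e5 : Real.exp (l ^ (B + 2) - Real.log 2) = Real.exp (l ^ (B + 2)) / 2 := by
    rw [Real.exp_sub, Real.exp_log (by norm_num)]
  have e6 := (Real.exp_le_exp.2 e3).trans_eq e5
  have e7 := (Real.exp_le_exp.2 e4).trans_eq e5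
  have e8 := mul_le_mul_of_nonneg_left e6 (by linarith : 0 ≤ C')
  have e9 := mul_le_mul_of_nonneg_right hC1 (Real.exp_pos (l ^ (B + 2))).le
  linarith

theorem thin6 (B : ℕ) : ∃ (c : ℝ) (A : ℕ) (C : ℝ), 0 < c ∧ ∀ X : ℕ,
    ((EY B A c ∩ Set.Iic X).ncard : ℝ) ≤ C * Real.exp (Real.log (Real.log X) ^ (B + 2)) := by
  obtain ⟨c, hc, H⟩ := two_exc
  obtain ⟨A₁, t₀, h1⟩ := many_large
  obtain ⟨C, X₁, h2⟩ := range_bad B
  obtain ⟨X₂, hX₂⟩ := yha_ev B (t₀ ^ 2 + 1)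
  obtain ⟨C', hC'⟩ := sqrt_rec (fun m => m ∈ EY B (max 8 A₁) c) B (C := |C| + 5)
    (X₀ := max X₁ X₂) fun X hX => by
      obtain ⟨b1, -, b3, b4⟩ := hX₂ X (le_of_max_le_right hX)
      have ht0 : (0 : ℝ) ≤ (t₀ : ℝ) ^ 2 := by positivity
      have hX0 : X ≠ 0 := by
        rintro rfl
        rw [Nat.cast_zero] at b4
        linarith
      have hXt : t₀ ^ 2 ≤ X := by exact_mod_cast (by linarith : (t₀ : ℝ) ^ 2 ≤ X)
      have a3 := card_lac (Z := {m : ℕ | Squarefree m ∧ ¬ NoZero c (-(m : ℤ))})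
        (fun m hm m' hm' hlt => not_le.1 fun hle => (H m m' hm.1 hm'.1 hlt hle).elim hm.2 hm'.2) X
      have a4 : #((range (X + 1)).filter fun m : ℕ => Squarefree m ∧ ¬ NoZero c (-(m : ℤ))) ≤ Nat.log 2 X + 2 := by
        refine le_trans ?_ a3
        rw [← Set.ncard_coe_finset]
        refine Set.ncard_le_ncard (fun m hm => ?_) ((Set.finite_Iic X).subset Set.inter_subset_right)
        obtain ⟨d1, d2⟩ := mem_filter.1 (mem_coe.1 hm)
        exact ⟨d2, Nat.lt_succ_iff.1 (mem_range.1 d1)⟩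
      have a1 : #{m ∈ range (X + 1) | X < m ^ 2 ∧ m ∈ EY B (max 8 A₁) c} ≤
          #((range (X + 1)).filter fun m : ℕ => Squarefree m ∧ ¬ NoZero c (-(m : ℤ))) +
          #{m ∈ range (X + 1) | X < m ^ 2 ∧ Squarefree m ∧ ∃ t : ℕ,
            thr B (Real.log m) ≤ Real.log t ∧ t < m ∧ nSp m (t ^ 8) < t} := by
        refine le_trans (card_le_card fun m hm => ?_) (card_union_le _ _)
        obtain ⟨d1, d2, hm, hn⟩ := mem_filter.1 hm
        rw [mem_union]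
        by_cases hz : NoZero c (-(m : ℤ))
        · have h3 : ¬ ManyT (max 8 A₁) m (thr B (Real.log m)) := fun h => hn ⟨hz, h⟩
          unfold ManyT at h3
          push Not at h3
          obtain ⟨t, t1, t2⟩ := h3
          have t0 : 0 < t := by omega
          rcases Nat.lt_or_ge t m with h4 | h4
          · exact Or.inr (mem_filter.2 ⟨d1, d2, hm, t, t1, h4,
              (nSp_mono m (Nat.pow_le_pow_right t0 (le_max_left 8 A₁))).trans_lt t2⟩)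
          · have h5 : t₀ < m := lt_of_pow_lt_pow_left₀ 2 (Nat.zero_le _) (hXt.trans_lt d2)
            have h6 := h1 m hm t (by omega) h4
            have h7 := nSp_mono m (Nat.pow_le_pow_right t0 (le_max_right 8 A₁))
            omega
        · exact Or.inl (mem_filter.2 ⟨d1, hm, hz⟩)
      have a5 : ((Nat.log 2 X + 2 : ℕ) : ℝ) ≤ Real.exp (4 * Real.log (Real.log X) ^ (B + 1)) := by
        refine le_trans ?_ (yha_four B (by linarith) (by linarith))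
        have := yha_log2 hX0
        push_cast
        linarith
      have a6 := h2 X (le_of_max_le_left hX)
      have a7 : ((_ : ℕ) : ℝ) ≤ ((_ : ℕ) : ℝ) := Nat.cast_le.2 (a1.trans (Nat.add_le_add_right a4 _))
      rw [Nat.cast_add] at a7
      refine (a7.trans (add_le_add a5 a6)).trans ?_
      have e1 : (1 : ℝ) ≤ Real.log (Real.log X) ^ (B + 1) := one_le_pow₀ (by linarith)
      obtain ⟨w, hw⟩ : ∃ w, w = Real.log (Real.log X) ^ (B + 1) := ⟨_, rfl⟩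
      rw [← hw] at e1 ⊢
      have e2 := abs_nonneg C
      have e3 := le_abs_self C
      have e4 : Real.exp (4 * w) ≤ Real.exp ((|C| + 4) * w) := Real.exp_le_exp.2 (by nlinarith)
      have e5 : Real.exp (C * w) ≤ Real.exp ((|C| + 4) * w) := Real.exp_le_exp.2 (by nlinarith)
      have e6 : 2 ≤ Real.exp w := by
        have := Real.add_one_le_exp w
        linarith
      rw [show (|C| + 5) * w = w + (|C| + 4) * w by ring, Real.exp_add]
      have e7 := mul_le_mul_of_nonneg_right e6 (Real.exp_pos ((|C| + 4) * w)).le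
      linarith
  refine ⟨c, max 8 A₁, C', hc, fun X => le_trans (Nat.cast_le.2 ?_) (hC' X)⟩
  rw [← Set.ncard_coe_finset]
  refine Set.ncard_le_ncard (fun m hm => ?_) (finite_toSet _)
  exact mem_coe.2 (mem_filter.2 ⟨mem_range.2 (Nat.lt_succ_of_le hm.2), hm.1⟩)

end Pool.Agent.EQ
end
end

-- part Pool.Agent.P.MP_ad7a55_nt.TEx
section

/-! Exceptional pairs are rare. -/

set_option autoImplicit false

noncomputable section

open Finset Matrix UpperHalfPlane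

namespace Pool.Agent.EQ

variable (p : ℕ) [Fact p.Prime]

/-- Exceptional pairs over a fixed class. -/
def Ex4 (n : ℤ) (C : ℝ) (r : ℕ) (E : ℤ) (g₁ g₂ : ℕ) (w : ℂ) : Set (ℂ × ℂ) :=
  {z | ∃ M₁ M₂, DiscL M₁ (g₁ ^ 2 * E) ∧ DiscL M₂ (g₂ ^ 2 * E) ∧ jL M₁ = z.1 ∧ jL M₂ = z.2 ∧
    jL (M₂ * cj M₁) = w ∧ Bad3 p n C r (g₁ ^ 2 * E) (g₂ ^ 2 * E) M₁ M₂}

theorem tex_box (d : Dt) (ha : 0 < d.a) (H N : ℕ) :
    ∃ Z : Finset (ℤ × ℤ), ∀ X Y : ℤ, d.Box H N X Y → (X, Y) ∈ Z := by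
  refine ⟨Icc (-(d.a * N + |d.b| * H)) (d.a * N + |d.b| * H) ×ˢ Icc (-(H : ℤ)) H,
    fun X Y h => ?_⟩
  rw [mem_product, mem_Icc, mem_Icc, ← abs_le, ← abs_le]
  refine ⟨?_, h.y⟩
  have h1 := h.x
  have h2 : |d.b * Y| ≤ |d.b| * H := by
    rw [abs_mul]
    exact mul_le_mul_of_nonneg_left h.y (abs_nonneg _)
  have h3 : |2 * d.a * X| ≤ |d.x₁ X Y| + |d.b * Y| := by
    have e : 2 * d.a * X = d.x₁ X Y - d.b * Y := by
      simp only [Dt.x₁]
      ring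
    rw [e]
    exact abs_sub _ _
  have h4 : |X| ≤ |2 * d.a * X| := by
    rw [abs_mul, abs_of_pos (by omega : 0 < 2 * d.a)]
    exact le_mul_of_one_le_left (abs_nonneg _) (by omega)
  show |X| ≤ _
  linarith

theorem tex_sum {d : Dt} {κ : ℕ} (h : d.Good κ) {C : ℝ} (hC : 1 ≤ C) {H N : ℕ}
    (hH : 4 * C * d.G * d.a ≤ (H : ℝ) ^ 2) (hN : 4 * C * d.G * (-d.E) ≤ d.a * (N : ℝ) ^ 2)
    (S : Set (ℂ × ℂ)) (P : ℤ → ℤ → Prop)
    (hS : ∀ z ∈ S, ∃ τ Θ η₁ η₂ B, d.GZ C z τ Θ η₁ η₂ B ∧ B ≠ 0 ∧ P (-η₂.trace) η₁.trace)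
    {W : ℝ} (hW : ∀ Z : Finset (ℤ × ℤ), (∀ z ∈ Z, d.Box H N z.1 z.2 ∧ P z.1 z.2) →
      ∑ z ∈ Z, d.WW z.1 z.2 ≤ W) : (S.ncard : ℝ) ≤ (d.n.natAbs : ℝ) ^ 9 * W := by
  classical
  obtain ⟨Z, hZ⟩ := tex_box d h.a_pos H N
  have h1 := Dt.geo_sum (C := C) h S (Z.filter fun z => d.Box H N z.1 z.2 ∧ P z.1 z.2)
    (fun _ _ _ => True) d.WW (fun z hz => by
      obtain ⟨τ, Θ, η₁, η₂, B, g, hB, hP⟩ := hS z hz
      obtain ⟨b1, b2, b3, b4⟩ := g.box h hC hB hH hN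
      have hb : d.Box H N (-η₂.trace) η₁.trace := ⟨b1, b2, b3, b4⟩
      exact ⟨τ, Θ, η₁, η₂, B, g, mem_filter.2 ⟨hZ _ _ hb, hb, hP⟩, trivial⟩)
    (fun x hx => Dt.few_WW h (mem_filter.1 hx).2.1.ne)
  exact h1.trans (mul_le_mul_of_nonneg_left (hW _ fun z hz => (mem_filter.1 hz).2) (by positivity))

theorem tex_rep : ∃ rep : ℂ → ℍ, ∀ w, rep w ∈ ModularGroup.fd ∧ jInv (rep w) = w := by
  have h : ∀ w : ℂ, ∃ τ : ℍ, τ ∈ ModularGroup.fd ∧ jInv τ = w := by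
    intro w
    obtain ⟨τ, rfl⟩ := jInv_surj w
    obtain ⟨γ, hγ⟩ := ModularGroup.exists_smul_mem_fd τ
    exact ⟨γ • τ, hγ, jInv_smul γ τ⟩
  choose rep hrep using h
  exact ⟨rep, hrep⟩

theorem tex_log (c : ℝ) (hc : 0 < c) (A : ℕ) :
    ∃ N₀ : ℕ, ∀ N : ℕ, N₀ ≤ N → c * Real.log N ^ A ≤ N := by
  have h := (Real.isLittleO_pow_log_id_atTop (n := A)).bound (c := c⁻¹) (inv_pos.2 hc)
  obtain ⟨N₀, hN⟩ := Filter.eventually_atTop.1 (tendsto_natCast_atTop_atTop (R := ℝ).eventually h)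
  refine ⟨N₀, fun N hN' => ?_⟩
  have h1 := hN N hN'
  rw [id, Real.norm_of_nonneg (pow_nonneg (Real.log_natCast_nonneg N) _),
    Real.norm_of_nonneg (Nat.cast_nonneg N)] at h1
  calc c * Real.log N ^ A ≤ c * (c⁻¹ * N) := mul_le_mul_of_nonneg_left h1 hc.le
    _ = N := by rw [← mul_assoc, mul_inv_cancel₀ hc.ne', one_mul]

theorem tex_ceil {x : ℝ} (hx : 1 ≤ x) : ∃ H : ℕ, x ≤ (H : ℝ) ^ 2 ∧ (H : ℝ) ^ 2 ≤ 4 * x := by
  have h0 : 0 ≤ x := by linarith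
  have h1 : 1 ≤ Real.sqrt x := Real.one_le_sqrt.2 hx
  have h2 := Nat.le_ceil (Real.sqrt x)
  have h3 := (Nat.ceil_lt_add_one (Real.sqrt_nonneg x)).le
  have h4 := Real.sq_sqrt h0
  refine ⟨⌈Real.sqrt x⌉₊, ?_, ?_⟩
  · calc x = Real.sqrt x ^ 2 := h4.symm
      _ ≤ _ := pow_le_pow_left₀ (Real.sqrt_nonneg x) h2 2
  · calc ((⌈Real.sqrt x⌉₊ : ℕ) : ℝ) ^ 2 ≤ (2 * Real.sqrt x) ^ 2 :=
          pow_le_pow_left₀ (Nat.cast_nonneg _) (by linarith) 2
      _ = 4 * x := by rw [mul_pow, h4]; norm_num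

theorem tex_up {C G a e x : ℝ} (hC : 1 ≤ C) (hG : 1 ≤ G) (hE : 3 * a ^ 2 ≤ e) (hR : C ≤ G * a)
    (hx : x ≤ 16 * C * G * e) : x ≤ ((G ^ 2 * e) ^ 2) ^ 2 := by
  have he : 0 ≤ e := le_trans (by positivity) hE
  have h1 : 3 * (G * a) ^ 2 ≤ G ^ 2 * e :=
    calc 3 * (G * a) ^ 2 = G ^ 2 * (3 * a ^ 2) := by ring
      _ ≤ _ := mul_le_mul_of_nonneg_left hE (sq_nonneg G)
  have h2 : G * e ≤ G ^ 2 * e :=
    mul_le_mul_of_nonneg_right (le_self_pow₀ hG two_ne_zero) he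
  have h3 : C ^ 2 ≤ (G * a) ^ 2 := pow_le_pow_left₀ (by linarith) hR 2
  have h4 : C ≤ C ^ 2 := le_self_pow₀ hC two_ne_zero
  have h5 : x ≤ 16 * C * (G ^ 2 * e) :=
    hx.trans (by rw [mul_assoc (16 * C)]; exact mul_le_mul_of_nonneg_left h2 (by linarith))
  generalize G ^ 2 * e = D at h1 h5 ⊢
  have h6 : 3 * C ≤ D := by linarith
  have h7 : 3 ^ 2 ≤ D ^ 2 := pow_le_pow_left₀ (by norm_num) (by linarith) 2
  have h8 : 16 * C * D ≤ 6 * D * D := mul_le_mul_of_nonneg_right (by linarith) (by linarith)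
  have h9 : 6 * D ^ 2 ≤ D ^ 2 * D ^ 2 := mul_le_mul_of_nonneg_right (by linarith) (sq_nonneg D)
  calc x ≤ 6 * D * D := h5.trans h8
    _ = 6 * D ^ 2 := by ring
    _ ≤ D ^ 2 * D ^ 2 := h9
    _ = _ := by ring

theorem tex_real {C G a e : ℝ} (hC : 1 ≤ C) (hG : 1 ≤ G) (ha : 1 ≤ a) (hE : 3 * a ^ 2 ≤ e) :
    ∃ H N : ℕ, 4 * C * G * a ≤ (H : ℝ) ^ 2 ∧ 4 * C * G * e ≤ a * (N : ℝ) ^ 2 ∧
      (N : ℝ) ^ 2 ≤ 16 * C * G * e ∧ H ≤ 2 * N ∧ 2 ≤ N ∧ 1 ≤ H ∧ G ^ 2 * e ≤ ((N : ℝ) ^ 2) ^ 2 ∧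
      (N : ℝ) * H ≤ 16 * C * Real.sqrt (G ^ 2 * e) := by
  have ha0 : 0 < a := by linarith
  have haa : 0 ≤ a ^ 2 := sq_nonneg a
  have he : 0 ≤ e := by linarith
  have hCG : 1 ≤ C * G := one_le_mul_of_one_le_of_one_le hC hG
  have hCGa : 1 ≤ C * G * a := one_le_mul_of_one_le_of_one_le hCG ha
  have hx : 4 ≤ 4 * C * G * a := by linarith
  have hea : a ≤ e / a := by
    rw [le_div_iff₀ ha0]
    linarith
  have hxy : 4 * C * G * a ≤ 4 * C * G * (e / a) :=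
    mul_le_mul_of_nonneg_left hea (by linarith)
  obtain ⟨H, hH1, hH2⟩ := tex_ceil (x := 4 * C * G * a) (by linarith)
  obtain ⟨N, hN1, hN2⟩ := tex_ceil (x := 4 * C * G * (e / a)) (by linarith)
  have hee : e / a ≤ e := div_le_self he ha
  refine ⟨H, N, hH1, ?_, ?_, ?_, ?_, ?_, ?_, ?_⟩
  · have h1 := mul_le_mul_of_nonneg_left hN1 ha0.le
    have h2 : a * (4 * C * G * (e / a)) = 4 * C * G * e := by field_simp
    linarith
  · have h1 : 16 * C * G * (e / a) ≤ 16 * C * G * e :=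
      mul_le_mul_of_nonneg_left hee (by linarith)
    linarith
  · have h1 : (H : ℝ) ^ 2 ≤ ((2 * N : ℕ) : ℝ) ^ 2 := by
      push_cast
      rw [mul_pow]
      linarith
    exact_mod_cast (pow_le_pow_iff_left₀ (Nat.cast_nonneg _) (Nat.cast_nonneg _) two_ne_zero).1 h1
  · have h1 : ((2 : ℕ) : ℝ) ^ 2 ≤ (N : ℝ) ^ 2 := by
      push_cast
      linarith
    exact_mod_cast (pow_le_pow_iff_left₀ (Nat.cast_nonneg _) (Nat.cast_nonneg _) two_ne_zero).1 h1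
  · have h1 : ((1 : ℕ) : ℝ) ^ 2 ≤ (H : ℝ) ^ 2 := by
      push_cast
      linarith
    exact_mod_cast (pow_le_pow_iff_left₀ (Nat.cast_nonneg _) (Nat.cast_nonneg _) two_ne_zero).1 h1
  · have h0 : 0 ≤ G * (e / a) := mul_nonneg (by linarith) (by linarith)
    have h1 : G * (e / a) ≤ (N : ℝ) ^ 2 :=
      calc G * (e / a) ≤ 4 * C * (G * (e / a)) := le_mul_of_one_le_left h0 (by linarith)
        _ = 4 * C * G * (e / a) := by ring
        _ ≤ _ := hN1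
    have h2 : e ≤ (e / a) ^ 2 := by
      rw [div_pow, le_div_iff₀ (by positivity), sq e]
      exact mul_le_mul_of_nonneg_left (by linarith) he
    calc G ^ 2 * e ≤ G ^ 2 * (e / a) ^ 2 := mul_le_mul_of_nonneg_left h2 (sq_nonneg _)
      _ = (G * (e / a)) ^ 2 := by ring
      _ ≤ _ := pow_le_pow_left₀ h0 h1 2
  · have h0 : 0 ≤ G ^ 2 * e := mul_nonneg (sq_nonneg _) he
    refine (pow_le_pow_iff_left₀ (by positivity) (by positivity) two_ne_zero).1 ?_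
    rw [mul_pow, mul_pow (16 * C), Real.sq_sqrt h0]
    calc (N : ℝ) ^ 2 * (H : ℝ) ^ 2 ≤ (4 * (4 * C * G * (e / a))) * (4 * (4 * C * G * a)) :=
          mul_le_mul hN2 hH2 (sq_nonneg _) (by linarith)
      _ = (16 * C) ^ 2 * (G ^ 2 * e) := by
          field_simp
          ring

/-- The sizes of the box. -/
theorem tex_sz {d : Dt} {κ : ℕ} (h : d.Good κ) {C : ℝ} (hC : 1 ≤ C) (hn : (|d.n| : ℝ) ≤ C)
    (hb : |d.b| ≤ d.a) (hc : d.a ≤ d.c) (hR : C ≤ d.G * d.a) : ∃ H N : ℕ, d.Sz H N ∧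
      4 * C * d.G * d.a ≤ (H : ℝ) ^ 2 ∧ 4 * C * d.G * (-d.E) ≤ d.a * (N : ℝ) ^ 2 ∧
      (N : ℝ) ^ 2 ≤ 16 * C * d.G * (-d.E) ∧ H ≤ 2 * N ∧
      (N : ℝ) * H ≤ 16 * C * Real.sqrt (-((d.G ^ 2 * d.E : ℤ) : ℝ)) := by
  have ha : (1 : ℝ) ≤ d.a := by exact_mod_cast h.a_pos
  have hG0 : 0 < d.G := Nat.mul_pos h.g₁_pos h.g₂_pos
  have hG : (1 : ℝ) ≤ d.G := by exact_mod_cast hG0
  have hE0 : 3 * d.a ^ 2 ≤ -d.E := by
    have h1 : d.b ^ 2 ≤ d.a ^ 2 := by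
      rw [← sq_abs d.b]
      exact pow_le_pow_left₀ (abs_nonneg _) hb 2
    have h2 := mul_le_mul_of_nonneg_left hc h.a_pos.le
    simp only [Dt.E]
    linarith
  have hE : 3 * (d.a : ℝ) ^ 2 ≤ -(d.E : ℝ) := by exact_mod_cast hE0
  have hD' : -((d.G ^ 2 * d.E : ℤ) : ℝ) = (d.G : ℝ) ^ 2 * -(d.E : ℝ) := by
    push_cast
    ring
  have hD : (((d.G ^ 2 * d.E : ℤ).natAbs : ℕ) : ℝ) = (d.G : ℝ) ^ 2 * -(d.E : ℝ) := by
    rw [tti_abs (mul_neg_of_pos_of_neg (by positivity) h.E_neg), hD']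
  have hma : ((|d.m * d.a| : ℤ) : ℝ) = |(d.n : ℝ)| * (d.G * d.a) := by
    simp only [Dt.m]
    push_cast
    rw [abs_mul, abs_mul, abs_of_nonneg (by linarith : (0 : ℝ) ≤ d.G),
      abs_of_nonneg (by linarith : (0 : ℝ) ≤ d.a), mul_assoc]
  obtain ⟨H, N, h1, h2, h3, h4, h5, h6, h7, h8⟩ := tex_real hC hG ha hE
  have hGa : 0 ≤ (d.G : ℝ) * d.a := by positivity
  refine ⟨H, N, ⟨h6, ?_, ?_, ?_, ?_⟩, h1, h2, h3, h4, by rw [hD']; exact h8⟩
  · exact h4.trans (by rw [sq]; exact Nat.mul_le_mul_right N h5)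
  · have h9 : ((|d.m * d.a| : ℤ) : ℝ) ≤ (H : ℝ) ^ 2 := by
      rw [hma]
      have h10 := mul_le_mul_of_nonneg_right hn hGa
      have h11 : 0 ≤ C * (d.G * d.a) := mul_nonneg (by linarith) hGa
      linarith
    exact_mod_cast h9
  · have h9 : (d.G ^ 2 * d.E : ℤ).natAbs ≤ (N ^ 2) ^ 2 := by
      rw [← hD] at h7
      exact_mod_cast h7
    rw [← pow_mul] at h9
    exact h9.trans (Nat.pow_le_pow_right (by omega) (by norm_num))
  · have h9 := tex_up hC hG hE hR h3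
    rw [← hD] at h9
    exact_mod_cast (pow_le_pow_iff_left₀ (Nat.cast_nonneg _) (by positivity) two_ne_zero).1 h9

/-- From an exceptional pair to geometric data. -/
theorem tex_geo {d : Dt} {κ : ℕ} (h : d.Good κ) {C C' : ℝ} (hC : C ≤ C') {r : ℕ} {rep : ℂ → ℍ}
    (hrep : ∀ w, rep w ∈ ModularGroup.fd ∧ jInv (rep w) = w) {z : ℂ × ℂ}
    (hz : z ∈ Ex4 p d.n C r d.E d.g₁ d.g₂ (jL d.LL)) :
    ∃ w Θ η₁ η₂ B, d.GZ C' z (rep w) Θ η₁ η₂ B ∧ B ≠ 0 ∧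
      (p : ℤ) ^ (padicValInt p d.E + r) ∣ d.B (-η₂.trace) η₁.trace := by
  obtain ⟨M₁, M₂, h₁, h₂, e₁, e₂, hw, α, β, B, hB, hm, hp⟩ := hz
  have hv := (vol_pos h₂.isLat).le
  have hm' : Hm d.n C' (d.g₁ ^ 2 * d.E) (d.g₂ ^ 2 * d.E) M₁ M₂ α β B :=
    ⟨hm.map, hm.inv, hm.deg, hm.le₁.trans (mul_le_mul_of_nonneg_right hC hv),
      hm.le₂.trans (mul_le_mul_of_nonneg_right hC hv)⟩
  obtain ⟨s, c, Θ, η₁, η₂, hs, g⟩ := Dt.geo_ex h h₁ h₂ hw hm' (hrep (jL (M₁ * OD d.E))).2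
  refine ⟨_, Θ, η₁, η₂, B, ⟨M₁, pr s * M₂, s * α, s * β, c, e₁,
    (jL_pr_mul h₂.isLat hs).trans e₂, g⟩, hB.ne', ?_⟩
  rw [← (g.cf h).2.1, ← Padic.norm_int_le_pow_iff_dvd]
  refine hp.trans ?_
  have hp1 : (0 : ℝ) < p := by exact_mod_cast (Fact.out : p.Prime).pos
  have h1 : ‖((d.E : ℤ) : ℚ_[p])‖ ≤ (p : ℝ) ^ (-(padicValInt p d.E : ℤ)) :=
    (Padic.norm_int_le_pow_iff_dvd _ _).2 (padicValInt_dvd d.E)
  have h2 : ‖((d.g₁ ^ 2 * d.E : ℤ) : ℚ_[p])‖ ≤ (p : ℝ) ^ (-(padicValInt p d.E : ℤ)) := by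
    rw [Int.cast_mul, norm_mul]
    exact (mul_le_of_le_one_left (norm_nonneg _) (Padic.norm_int_le_one _)).trans h1
  refine (mul_le_mul_of_nonneg_left h2 (zpow_pos hp1 _).le).trans (le_of_eq ?_)
  rw [← zpow_add₀ hp1.ne']
  congr 1
  push_cast
  ring

theorem ex4_le {n : ℤ} (hn : n ≠ 0) (C : ℝ) (κ : ℕ) {δ : ℝ} (hδ : 0 < δ) : ∃ r N₀ : ℕ, 0 < N₀ ∧
    ∀ (E : ℤ) (g₁ g₂ : ℕ), IsD E → 0 < g₁ → 0 < g₂ → g₁.Coprime g₂ →
      padicValNat p (g₁ * g₂) ≤ κ → ∀ w : ℂ,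
      ({z | z ∈ Ex4 p n C r E g₁ g₂ w ∧ ¬ Isog N₀ z.1 z.2}.ncard : ℝ) ≤
        δ * HH ((g₁ * g₂ : ℕ) ^ 2 * E) := by
  have hp : p.Prime := Fact.out
  obtain ⟨C', hC1, hC2, hC3⟩ : ∃ C' : ℝ, 1 ≤ C' ∧ C ≤ C' ∧ (|n| : ℝ) ≤ C' :=
    ⟨max 1 (max C |n|), le_max_left _ _, (le_max_left _ _).trans (le_max_right _ _),
      (le_max_right _ _).trans (le_max_right _ _)⟩
  have hν : (0 : ℝ) < (n.natAbs : ℝ) ^ 9 := by
    have : 0 < n.natAbs := Int.natAbs_pos.2 hn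
    positivity
  obtain ⟨δ', hδ', hδe⟩ : ∃ δ' : ℝ, 0 < δ' ∧ (n.natAbs : ℝ) ^ 9 * δ' * (16 * C') = δ / 2 := by
    refine ⟨δ / 2 / ((n.natAbs : ℝ) ^ 9 * (16 * C')), by positivity, ?_⟩
    field_simp
  obtain ⟨r, N₁, hone⟩ := Dt.cnt_one n p κ hδ'
  obtain ⟨A, N₂, hdeg⟩ := Dt.cnt_deg n p κ hδ'
  obtain ⟨R₀, hsm⟩ := Dt.deg_small n hC1 (2 * A) (half_pos hδ)
  obtain ⟨N₃, hlog⟩ := tex_log (16 * C') (by positivity) (2 * A)
  obtain ⟨rep, hrep⟩ := tex_rep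
  obtain ⟨R, hR1, hR2, hR3⟩ : ∃ R : ℕ, C' ≤ R ∧ R₀ ≤ R ∧ (N₁ + N₂ + N₃) ^ 2 ≤ R := by
    refine ⟨⌈C'⌉₊ + ⌈R₀⌉₊ + (N₁ + N₂ + N₃) ^ 2, ?_, ?_, by omega⟩
    · exact (Nat.le_ceil _).trans (by exact_mod_cast (by omega))
    · exact (Nat.le_ceil _).trans (by exact_mod_cast (by omega))
  refine ⟨r, R.factorial, Nat.factorial_pos R, fun E g₁ g₂ hE hg₁ hg₂ hg hv w => ?_⟩
  set S := {z | z ∈ Ex4 p n C r E g₁ g₂ w ∧ ¬ Isog R.factorial z.1 z.2} with hS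
  rcases S.eq_empty_or_nonempty with h0 | ⟨z₀, hz₀⟩
  · rw [h0, Set.ncard_empty, Nat.cast_zero]
    exact mul_nonneg hδ.le (tti_HH_nonneg _)
  have hw : w ∈ Cl E := by
    obtain ⟨⟨M₁, M₂, h₁, h₂, -, -, hw, -⟩, -⟩ := hz₀
    exact ⟨_, (discL_mul_cop hE hg.symm h₂ h₁.cj).1, hw⟩
  obtain ⟨a, b, c, ha, hb, hc, hprim, hEe, hwe⟩ := exists_red hw
  obtain ⟨d, rfl, rfl, rfl, rfl, rfl, rfl, hdp⟩ : ∃ d : Dt, d.a = a ∧ d.b = b ∧ d.c = c ∧
      d.n = n ∧ d.g₁ = g₁ ∧ d.g₂ = g₂ ∧ d.p = p := ⟨⟨a, b, c, n, g₁, g₂, p⟩, by simp⟩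
  obtain rfl : d.E = E := hEe
  obtain rfl : jL d.LL = w := hwe
  have h : d.Good κ := ⟨ha, hE.1, hprim, hn, hg₁, hg₂, hg, hdp ▸ hp, hdp ▸ hv⟩
  show (S.ncard : ℝ) ≤ δ * HH (d.G ^ 2 * d.E)
  have hG : 0 < d.G := Nat.mul_pos hg₁ hg₂
  have hGa : (R : ℝ) ≤ d.G * d.a := by
    by_contra hlt
    obtain ⟨w, Θ, η₁, η₂, B, ⟨M₁, M₂, α, β, c, e₁, e₂, g⟩, -⟩ := tex_geo p h hC2 hrep hz₀.1
    refine hz₀.2 ?_
    rw [← e₁, ← e₂]
    refine g.isog h ?_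
    have h1 : (d.G : ℤ) * d.a ≤ R := by exact_mod_cast (not_le.1 hlt).le
    have h2 : (d.G : ℤ) * d.a = ((d.G * d.a.natAbs : ℕ) : ℤ) := by
      push_cast
      rw [abs_of_pos ha]
    rw [h2] at h1 ⊢
    exact Int.natCast_dvd_natCast.2 (Nat.dvd_factorial
      (Nat.mul_pos hG (Int.natAbs_pos.2 ha.ne')) (by exact_mod_cast h1))
  obtain ⟨H, N, hsz, hH, hN, hN', hHN, hprod⟩ := tex_sz h hC1 hC3 hb hc (hR1.trans hGa)
  have hGa0 : 0 ≤ (d.G : ℝ) * d.a := (Nat.cast_nonneg R).trans hGa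
  have hGH : 4 * ((d.G : ℝ) * d.a) ≤ (H : ℝ) ^ 2 := by
    have h1 := le_mul_of_one_le_left hGa0 hC1
    linarith
  have hNl : N₁ + N₂ + N₃ ≤ N := by
    have h1 : (H : ℝ) ^ 2 ≤ ((2 * N : ℕ) : ℝ) ^ 2 :=
      pow_le_pow_left₀ (Nat.cast_nonneg _) (by exact_mod_cast hHN) 2
    have h2 : (R : ℝ) ≤ (N : ℝ) ^ 2 := by
      push_cast at h1
      rw [mul_pow] at h1
      linarith
    have h3 : R ≤ N ^ 2 := by exact_mod_cast h2
    exact (pow_le_pow_iff_left₀ (Nat.zero_le _) (Nat.zero_le _) two_ne_zero).1 (hR3.trans h3)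
  have hfin : (d.n.natAbs : ℝ) ^ 9 * (δ' * N * H * EE (d.G ^ 2 * d.E) (d.G ^ 2 * d.E).natAbs) ≤
      δ / 2 * HH (d.G ^ 2 * d.E) := by
    rw [HH, ← hδe]
    have h1 := EE_pos (d.G ^ 2 * d.E) (d.G ^ 2 * d.E).natAbs
    generalize EE (d.G ^ 2 * d.E) (d.G ^ 2 * d.E).natAbs = e at h1 ⊢
    calc (d.n.natAbs : ℝ) ^ 9 * (δ' * N * H * e)
        = (d.n.natAbs : ℝ) ^ 9 * δ' * e * (N * H) := by ring
      _ ≤ (d.n.natAbs : ℝ) ^ 9 * δ' * e *
            (16 * C' * Real.sqrt (-((d.G ^ 2 * d.E : ℤ) : ℝ))) :=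
          mul_le_mul_of_nonneg_left hprod (by positivity)
      _ = _ := by ring
  set T := {z | ∃ w Θ η₁ η₂ B, d.GZ C' z (rep w) Θ η₁ η₂ B ∧ B ≠ 0 ∧
    IsSquare (d.Δ₁ η₁.trace)} with hT
  have hA : ((S \ T).ncard : ℝ) ≤ δ / 2 * HH (d.G ^ 2 * d.E) := by
    refine le_trans (tex_sum h hC1 hH hN (S \ T) (fun X Y => ¬ IsSquare (d.Δ₁ Y) ∧
      (p : ℤ) ^ (padicValInt p d.E + r) ∣ d.B X Y) (fun z hz => ?_)
      (hone d h rfl hdp H N hsz (by omega))) hfin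
    obtain ⟨w, Θ, η₁, η₂, B, g, hB, hd⟩ := tex_geo p h hC2 hrep hz.1.1
    exact ⟨_, Θ, η₁, η₂, B, g, hB, fun hs => hz.2 ⟨w, Θ, η₁, η₂, B, g, hB, hs⟩, hd⟩
  have hB : ((S ∩ T).ncard : ℝ) ≤ δ / 2 * HH (d.G ^ 2 * d.E) := by
    by_cases hl : Real.log N ^ A ≤ H
    · have h1 := hdeg d h rfl hdp H N hsz (by omega) 1 le_rfl (by simpa using hl)
        (by
          have h2 := hsz.one
          rw [one_pow]
          exact_mod_cast (by omega : 1 ≤ N))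
      rw [div_one] at h1
      refine le_trans (tex_sum h hC1 hH hN (S ∩ T) (fun X Y => IsSquare (d.Δ₁ Y))
        (fun z hz => ?_) h1) hfin
      obtain ⟨w, Θ, η₁, η₂, B, g, hB, hs⟩ := hz.2
      exact ⟨_, Θ, η₁, η₂, B, g, hB, hs⟩
    · have ha1 : (1 : ℝ) ≤ d.a := by exact_mod_cast ha
      have hN0 : (0 : ℝ) < N := by
        have h2 := hsz.one
        exact_mod_cast (by omega : 0 < N)
      have hE0 : (0 : ℝ) < -(d.E : ℝ) := by
        have : (d.E : ℝ) < 0 := by exact_mod_cast hE.1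
        linarith
      have h1 : (H : ℝ) ^ 2 ≤ Real.log N ^ (2 * A) := by
        rw [mul_comm, pow_mul]
        exact pow_le_pow_left₀ (Nat.cast_nonneg _) (not_le.1 hl).le 2
      have h2 : (d.G : ℝ) * d.a ≤ Real.log N ^ (2 * A) := by linarith
      have h3 : (d.G : ℝ) ≤ Real.log N ^ (2 * A) :=
        (le_mul_of_one_le_right (Nat.cast_nonneg _) ha1).trans h2
      have h4 : 16 * C' * d.G ≤ N :=
        (mul_le_mul_of_nonneg_left h3 (by positivity)).trans (hlog N (by omega))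
      have h5 : (N : ℝ) ≤ -(d.E : ℝ) := by
        have h6 := mul_le_mul_of_nonneg_right h4 hE0.le
        exact le_of_mul_le_mul_left (a := (N : ℝ)) (by linarith) hN0
      have h6 : (d.G : ℝ) * d.a ≤ Real.log (-(d.E : ℝ)) ^ (2 * A) :=
        h2.trans (pow_le_pow_left₀ (Real.log_natCast_nonneg N) (Real.log_le_log hN0 h5) _)
      refine le_trans ?_ (hsm d κ h rfl (hR2.trans hGa) h6 rep hrep)
      refine Nat.cast_le.2 (Set.ncard_le_ncard ?_ ?_)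
      · rintro z ⟨-, w, Θ, η₁, η₂, B, g, -, hs⟩
        exact ⟨w, Θ, η₁, η₂, B, g, hs⟩
      · refine ((Cl_finite (d.g₁ ^ 2 * d.E)).prod (Cl_finite (d.g₂ ^ 2 * d.E))).subset ?_
        rintro z ⟨w, Θ, η₁, η₂, B, ⟨M₁, M₂, α, β, c, e₁, e₂, g⟩, -⟩
        exact ⟨⟨M₁, g.d₁, e₁⟩, ⟨M₂, g.d₂, e₂⟩⟩
  have hU : S.ncard ≤ (S \ T).ncard + (S ∩ T).ncard := by
    have h1 := Set.ncard_union_le (S \ T) (S ∩ T)
    rwa [Set.sdiff_union_inter] at h1
  have hU' : (S.ncard : ℝ) ≤ (S \ T).ncard + (S ∩ T).ncard := by exact_mod_cast hU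
  linarith

end Pool.Agent.EQ
end
end
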