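import Pool.Agent.K.MP_ad7a55_nt.C65
import Pool.Agent.K.MP_ad7a55_nt.C60
import Pool.Agent.K.MP_ad7a55_nt.C66
import Pool.Agent.K.MP_ad7a55_nt.C32

-- part Pool.Agent.P.MP_ad7a55_nt.USt
section

/-! Averages over pieces of orbits of the rank two action. -/

set_option autoImplicit false

noncomputable section

open MeasureTheory Topology Filter UpperHalfPlane
open scoped MatrixGroups ENNReal BoundedContinuousFunction

namespace Pool.Agent.EQ

variable (p q : ℕ) [Fact p.Prime] [Fact q.Prime] {κ : Type} [Fintype κ]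

/-- The orbit of the rank two action. -/
def yy (M : ℕ) (h : κ → SL(2, ℚ_[q])) (x : κ → X3 p q) (u : ℕ × ℕ) : κ → X3 p q :=
  al p q κ (M * u.1) • be p q h (M * u.2) • x

def sqr (i : ℕ) : Finset (ℕ × ℕ) := Finset.range (i + 1) ×ˢ Finset.range (i + 1)

/-- The three counting hypotheses for families of points. -/
structure Cnt {ζ : Type} (L : Filter ℕ) (O : ℕ → Finset ζ) (y : ℕ → ζ → ℕ × ℕ → κ → X3 p q) :
    Prop where
  tight : ∀ ε : ℝ, 0 < ε → ∃ Ω : Set (X3 p q), IsCompact Ω ∧ ∀ k, ∀ᶠ i in L, ∀ u,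
    ({z | z ∈ O i ∧ y i z u k ∉ Ω}.ncard : ℝ) ≤ ε * (O i).card
  bow : ∃ C : ℝ, ∀ k (m : ℕ), ∀ᶠ i in L, ∀ u u',
    ({z : ζ × ζ | z.1 ∈ O i ∧ z.2 ∈ O i ∧ (y i z.1 u k, y i z.2 u' k) ∈ Op p q m}.ncard : ℝ) ≤
      C * (p : ℝ) ^ (-(m : ℤ)) * (O i).card ^ 2
  exc : ∀ k l, k ≠ l → ∀ q' : ℕ, 0 < q' → ∀ δ : ℚ, δ ≠ 0 → ∀ R ε : ℝ, 0 < ε → ∃ m : ℕ,
    ∀ᶠ i in L, ∀ u, ({z | z ∈ O i ∧
      (pi3 p q (y i z u k), pi3 p q (y i z u l)) ∈ On p q' δ R m}.ncard : ℝ) ≤ ε * (O i).card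

variable {p q}

/-- A finite weighted sum of point masses. -/
def ustM {A W : Type} [MeasurableSpace W] (S : Finset A) (ω : A → ℝ) (Y : A → W) : Measure W :=
  ∑ a ∈ S, ENNReal.ofReal (ω a) • Measure.dirac (Y a)

theorem ust_lint {A W : Type} [MeasurableSpace W] [MeasurableSingletonClass W] (S : Finset A)
    (ω : A → ℝ) (Y : A → W) (f : W → ℝ≥0∞) :
    ∫⁻ w, f w ∂ustM S ω Y = ∑ a ∈ S, ENNReal.ofReal (ω a) * f (Y a) := by
  rw [ustM, lintegral_finsetSum_measure]
  refine Finset.sum_congr rfl fun a _ => ?_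
  rw [lintegral_smul_measure, lintegral_dirac, smul_eq_mul]

theorem ust_apply {A W : Type} [MeasurableSpace W] [MeasurableSingletonClass W] (S : Finset A)
    (ω : A → ℝ) (Y : A → W) (E : Set W) :
    ustM S ω Y E = ∑ a ∈ S, ENNReal.ofReal (ω a) * E.indicator 1 (Y a) := by
  rw [ustM, Measure.finsetSum_apply]
  refine Finset.sum_congr rfl fun a _ => ?_
  rw [Measure.smul_apply, Measure.dirac_apply, smul_eq_mul]

theorem ust_int {A W : Type} [MeasurableSpace W] [MeasurableSingletonClass W] (S : Finset A)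
    {ω : A → ℝ} (hω : ∀ a, 0 ≤ ω a) (Y : A → W) (f : W → ℝ) :
    ∫ w, f w ∂ustM S ω Y = ∑ a ∈ S, ω a * f (Y a) := by
  rw [ustM, integral_finsetSum_measure fun a _ =>
    (integrable_dirac (by simp)).smul_measure ENNReal.ofReal_ne_top]
  refine Finset.sum_congr rfl fun a _ => ?_
  rw [integral_smul_measure, integral_dirac, ENNReal.toReal_ofReal (hω a), smul_eq_mul]

theorem ust_prob {A W : Type} [MeasurableSpace W] [MeasurableSingletonClass W] (S : Finset A)
    {ω : A → ℝ} (hω : ∀ a, 0 ≤ ω a) (h1 : ∑ a ∈ S, ω a = 1) (Y : A → W) :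
    IsProbabilityMeasure (ustM S ω Y) := by
  refine ⟨?_⟩
  rw [ust_apply]
  simp only [Set.indicator_univ, Pi.one_apply, mul_one]
  rw [← ENNReal.ofReal_sum_of_nonneg fun a _ => hω a, h1, ENNReal.ofReal_one]

theorem ust_prod {A W : Type} [MeasurableSpace W] [MeasurableSingletonClass W] (S : Finset A)
    {ω : A → ℝ} (hω : ∀ a, 0 ≤ ω a) (Y : A → W) [SFinite (ustM S ω Y)] {E : Set (W × W)}
    (hE : MeasurableSet E) : (ustM S ω Y).prod (ustM S ω Y) E =
      ustM (S ×ˢ S) (fun a => ω a.1 * ω a.2) (fun a => (Y a.1, Y a.2)) E := by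
  rw [Measure.prod_apply hE, ust_lint, ust_apply, Finset.sum_product]
  refine Finset.sum_congr rfl fun a _ => ?_
  rw [ust_apply, Finset.mul_sum]
  refine Finset.sum_congr rfl fun b _ => ?_
  rw [ENNReal.ofReal_mul (hω a), mul_assoc]
  rfl

theorem ust_le {A W ζ υ : Type} [MeasurableSpace W] [MeasurableSingletonClass W] (S : Finset A)
    {ω : A → ℝ} {t : ℝ} (ht : 0 ≤ t) (hω : ∀ a, ω a ≤ t) (Y : A → W) (E : Set W) (U : Finset υ)
    (π : A → υ) (σ : A → ζ) (Z : υ → Set ζ) (hfin : ∀ u, (Z u).Finite) (hπ : ∀ a ∈ S, π a ∈ U)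
    (hσ : ∀ a ∈ S, Y a ∈ E → σ a ∈ Z (π a)) (hinj : ∀ a b, π a = π b → σ a = σ b → a = b)
    {B : ℝ} (hB : ∀ u, ((Z u).ncard : ℝ) ≤ B) :
    ustM S ω Y E ≤ ENNReal.ofReal (t * (U.card * B)) := by
  classical
  have h1 : ((S.filter fun a => Y a ∈ E).card : ℝ) ≤ U.card * B := by
    rw [Finset.card_eq_sum_card_fiberwise (f := π) (t := U) fun a ha =>
      hπ a (Finset.mem_filter.1 ha).1, Nat.cast_sum, ← nsmul_eq_mul]
    refine Finset.sum_le_card_nsmul _ _ _ fun u _ => le_trans ?_ (hB u)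
    rw [Nat.cast_le, ← Set.ncard_coe_finset]
    refine Set.ncard_le_ncard_of_injOn σ (fun a ha => ?_) (fun a ha b hb hab => ?_) (hfin u)
    · obtain ⟨h2, h3⟩ := Finset.mem_filter.1 (Finset.mem_coe.1 ha)
      obtain ⟨h4, h5⟩ := Finset.mem_filter.1 h2
      rw [← h3]
      exact hσ a h4 h5
    · exact hinj a b (((Finset.mem_filter.1 (Finset.mem_coe.1 ha)).2).trans
        ((Finset.mem_filter.1 (Finset.mem_coe.1 hb)).2).symm) hab
  calc ustM S ω Y E ≤ ∑ a ∈ S, if Y a ∈ E then ENNReal.ofReal t else 0 := by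
        rw [ust_apply]
        refine Finset.sum_le_sum fun a _ => ?_
        by_cases ha : Y a ∈ E
        · rw [Set.indicator_of_mem ha, if_pos ha, Pi.one_apply, mul_one]
          exact ENNReal.ofReal_le_ofReal (hω a)
        · rw [Set.indicator_of_notMem ha, if_neg ha, mul_zero]
    _ = ENNReal.ofReal (t * (S.filter fun a => Y a ∈ E).card) := by
        rw [← Finset.sum_filter, Finset.sum_const, nsmul_eq_mul, ENNReal.ofReal_mul ht,
          ENNReal.ofReal_natCast, mul_comm]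
    _ ≤ _ := ENNReal.ofReal_le_ofReal (mul_le_mul_of_nonneg_left h1 ht)

theorem ust_card (i : ℕ) : ((sqr i).card : ℝ) = (i + 1) * (i + 1) := by
  simp [sqr]

theorem ust_tel1 (i : ℕ) (g : ℕ × ℕ → ℝ) {B : ℝ} (hg : ∀ u, |g u| ≤ B) :
    |∑ u ∈ sqr i, (g (u.1 + 1, u.2) - g u)| ≤ (i + 1) * (2 * B) := by
  rw [sqr, Finset.sum_product_right]
  refine (Finset.abs_sum_le_sum_abs _ _).trans ((Finset.sum_le_card_nsmul _ _ (2 * B)
    fun v _ => ?_).trans (by simp))
  rw [Finset.sum_range_sub (fun u => g (u, v))]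
  exact (abs_sub _ _).trans (by linarith [hg (i + 1, v), hg (0, v)])

theorem ust_tel2 (i : ℕ) (g : ℕ × ℕ → ℝ) {B : ℝ} (hg : ∀ u, |g u| ≤ B) :
    |∑ u ∈ sqr i, (g (u.1, u.2 + 1) - g u)| ≤ (i + 1) * (2 * B) := by
  rw [sqr, Finset.sum_product]
  refine (Finset.abs_sum_le_sum_abs _ _).trans ((Finset.sum_le_card_nsmul _ _ (2 * B)
    fun v _ => ?_).trans (by simp))
  rw [Finset.sum_range_sub (fun u => g (v, u))]
  exact (abs_sub _ _).trans (by linarith [hg (v, i + 1), hg (v, 0)])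

theorem ust_shift {ζ W : Type} [MeasurableSpace W] [MeasurableSingletonClass W] (O : Finset ζ)
    (i : ℕ) {w : ζ → ℝ} (hw : ∀ z, 0 ≤ w z) (hT : 0 < ∑ z ∈ O, w z) (y : ζ → ℕ × ℕ → W)
    (f g : W → ℝ) {B : ℝ}
    (h : ∀ z, w z ≠ 0 → |∑ u ∈ sqr i, (g (y z u) - f (y z u))| ≤ (i + 1) * B) :
    |∫ x, g x ∂ustM (O ×ˢ sqr i) (fun a => w a.1 / ((∑ z ∈ O, w z) * (sqr i).card))
        (fun a => y a.1 a.2) -
      ∫ x, f x ∂ustM (O ×ˢ sqr i) (fun a => w a.1 / ((∑ z ∈ O, w z) * (sqr i).card))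
        (fun a => y a.1 a.2)| ≤ B * (1 / ((i : ℝ) + 1)) := by
  have hω : ∀ z : ζ, 0 ≤ w z / ((∑ z ∈ O, w z) * (sqr i).card) := fun z =>
    div_nonneg (hw z) (by positivity)
  have hω' : ∀ a : ζ × (ℕ × ℕ), 0 ≤ w a.1 / ((∑ z ∈ O, w z) * (sqr i).card) := fun a => hω a.1
  rw [ust_int _ hω', ust_int _ hω', ← Finset.sum_sub_distrib, Finset.sum_product]
  refine (Finset.abs_sum_le_sum_abs _ _).trans ?_
  have h1 : ∀ z ∈ O, |∑ u ∈ sqr i, (w z / ((∑ z ∈ O, w z) * (sqr i).card) * g (y z u) -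
      w z / ((∑ z ∈ O, w z) * (sqr i).card) * f (y z u))| ≤
      w z / ((∑ z ∈ O, w z) * (sqr i).card) * ((i + 1) * B) := by
    intro z _
    simp only [← mul_sub]
    rw [← Finset.mul_sum, abs_mul, abs_of_nonneg (hω z)]
    by_cases h0 : w z = 0
    · simp [h0]
    · exact mul_le_mul_of_nonneg_left (h z h0) (hω z)
  refine (Finset.sum_le_sum h1).trans (le_of_eq ?_)
  rw [← Finset.sum_mul, ← Finset.sum_div, ust_card]
  have h2 : (0 : ℝ) < i + 1 := by positivity
  field_simp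

theorem ust_a (M : ℕ) (h : κ → SL(2, ℚ_[q])) (x : κ → X3 p q) (u : ℕ × ℕ) :
    al p q κ M • yy p q M h x u = yy p q M h x (u.1 + 1, u.2) := by
  simp only [yy]
  rw [← mul_smul (al p q κ M), ← al_add, Nat.mul_succ, add_comm]

theorem ust_be_add (h : κ → SL(2, ℚ_[q])) (s t : ℕ) :
    be p q h (s + t) = be p q h s * be p q h t :=
  funext fun k => b3_add p q (h k) s t

theorem ust_b (M : ℕ) (h : κ → SL(2, ℚ_[q])) (x : κ → X3 p q) (u : ℕ × ℕ) :
    be p q h M • yy p q M h x u = yy p q M h x (u.1, u.2 + 1) := by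
  simp only [yy]
  rw [← mul_smul (be p q h M), ← al_be, mul_smul, ← mul_smul (be p q h M), ← ust_be_add,
    Nat.mul_succ, add_comm]

theorem ust_avg_le {α : Type} (O : Finset α) (G H : α → ℝ) (h : ∀ z, |G z| ≤ H z) :
    |avg O G| ≤ avg O H := by
  rw [avg, avg, abs_div, Nat.abs_cast]
  exact div_le_div_of_nonneg_right ((Finset.abs_sum_le_sum_abs _ _).trans
    (Finset.sum_le_sum fun z _ => h z)) (Nat.cast_nonneg _)

theorem st3 (hpq : p ≠ q) {M : ℕ} (hM : 0 < M) (h : κ → SL(2, ℚ_[q])) (𝒰 : Ultrafilter ℕ)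
    (h𝒰 : (𝒰 : Filter ℕ) ≤ atTop) {ζ : Type} (O : ℕ → Finset ζ) (x : ℕ → ζ → κ → X3 p q)
    (y : ℕ → ζ → ℕ × ℕ → κ → X3 p q) (hc : Cnt p q 𝒰 O y) (w : ℕ → ζ → ℝ)
    (hw : ∀ i z, 0 ≤ w i z ∧ w i z ≤ 1) (hy : ∀ i z, w i z ≠ 0 → y i z = yy p q M h (x i z))
    (Φ : (κ → XX p) →ᵇ ℝ) :
    Tendsto (fun i => avg (O i) fun z => w i z *
      (avg (sqr i) (fun u => Φ (piP p q (y i z u))) - ∫ x, Φ x ∂mP p κ)) 𝒰 (𝓝 0) := by
  classical
  have hw0 : ∀ i, 0 ≤ avg (O i) (w i) := fun i =>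
    div_nonneg (Finset.sum_nonneg fun z _ => (hw i z).1) (Nat.cast_nonneg _)
  have hw1 : ∀ i, avg (O i) (w i) ≤ 1 := fun i => by
    refine div_le_one_of_le₀ ?_ (Nat.cast_nonneg _)
    simpa using Finset.sum_le_card_nsmul (O i) (w i) 1 fun z _ => (hw i z).2
  by_cases hcase : ∃ c : ℝ, 0 < c ∧ ∀ᶠ i in 𝒰, c ≤ avg (O i) (w i)
  swap
  · have h1 : Tendsto (fun i => avg (O i) (w i)) 𝒰 (𝓝 0) := by
      refine tendsto_order.2 ⟨fun a ha => Eventually.of_forall fun i => ha.trans_le (hw0 i),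
        fun a ha => ?_⟩
      have h2 : ¬ ∀ᶠ i in 𝒰, a ≤ avg (O i) (w i) := fun h2 => hcase ⟨a, ha, h2⟩
      exact (Ultrafilter.eventually_not.2 h2).mono fun i hi => not_le.1 hi
    have h2 := h1.mul_const (2 * ‖Φ‖)
    rw [zero_mul] at h2
    refine squeeze_zero_norm (fun i => ?_) h2
    have h3 : avg (O i) (w i) * (2 * ‖Φ‖) = avg (O i) fun z => w i z * (2 * ‖Φ‖) := by
      rw [avg, avg, ← Finset.sum_mul]
      ring
    rw [h3, Real.norm_eq_abs]
    refine ust_avg_le _ _ _ fun z => ?_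
    rw [abs_mul, abs_of_nonneg (hw i z).1]
    refine mul_le_mul_of_nonneg_left ((abs_sub _ _).trans ?_) (hw i z).1
    have h4 : |avg (sqr i) fun u => Φ (piP p q (y i z u))| ≤ ‖Φ‖ :=
      abs_avg_le ⟨(0, 0), by simp [sqr]⟩ _ fun u _ => Φ.norm_coe_le_norm _
    have h5 : |∫ x, Φ x ∂mP p κ| ≤ ‖Φ‖ := Φ.norm_integral_le_norm (mP p κ)
    linarith
  obtain ⟨c, hc0, hcw⟩ := hcase
  let T : ℕ → ℝ := fun i => ∑ z ∈ O i, w i z
  let ω : ℕ → ζ × (ℕ × ℕ) → ℝ := fun i a => w i a.1 / (T i * (sqr i).card)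
  let μ : ℕ → Measure (κ → X3 p q) := fun i => ustM (O i ×ˢ sqr i) (ω i) fun a => y i a.1 a.2
  let ν : ℕ → Measure (κ → X3 p q) := fun i =>
    if 0 < T i then μ i else Measure.dirac fun _ => ((1 : G3 p q) : X3 p q)
  have hT0 : ∀ i, 0 ≤ T i := fun i => Finset.sum_nonneg fun z _ => (hw i z).1
  have hn : ∀ i, (0 : ℝ) < (sqr i).card := fun i => by rw [ust_card]; positivity
  have hω : ∀ i a, 0 ≤ ω i a := fun i a => div_nonneg (hw i a.1).1 (mul_nonneg (hT0 i) (hn i).le)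
  have hω' : ∀ i a, ω i a ≤ 1 / (T i * (sqr i).card) := fun i a =>
    div_le_div_of_nonneg_right (hw i a.1).2 (mul_nonneg (hT0 i) (hn i).le)
  have hμ : ∀ i, 0 < T i → IsProbabilityMeasure (μ i) := fun i hi => by
    refine ust_prob _ (hω i) ?_ _
    rw [Finset.sum_product]
    simp only [ω, Finset.sum_const, nsmul_eq_mul]
    rw [← Finset.mul_sum, ← Finset.sum_div]
    have := hn i
    change _ * (T i / _) = 1
    field_simp
  have hν : ∀ i, IsProbabilityMeasure (ν i) := fun i => by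
    simp only [ν]
    split_ifs with hi
    · exact hμ i hi
    · infer_instance
  have hev : ∀ᶠ i in 𝒰, (0 : ℝ) < (O i).card ∧ c * (O i).card ≤ T i ∧ 0 < T i ∧ ν i = μ i := by
    refine hcw.mono fun i hi => ?_
    have h1 : (0 : ℝ) < (O i).card := by
      refine lt_of_le_of_ne (Nat.cast_nonneg _) fun h0 => ?_
      rw [avg, ← h0, div_zero] at hi
      exact absurd hc0 (not_lt.2 hi)
    have h2 : c * (O i).card ≤ T i := (le_div_iff₀ h1).1 hi
    have h3 : 0 < T i := (mul_pos hc0 h1).trans_le h2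
    exact ⟨h1, h2, h3, if_pos h3⟩
  have hz : ∀ B : ℝ, Tendsto (fun i : ℕ => B * (1 / ((i : ℝ) + 1))) 𝒰 (𝓝 0) := fun B => by
    have h1 := (tendsto_one_div_add_atTop_nhds_zero_nat (𝕜 := ℝ)).const_mul B
    rw [mul_zero] at h1
    exact h1.mono_left h𝒰
  have hone : ∀ (i : ℕ) (E : Set (κ → X3 p q)) (ε : ℝ), 0 < ε →
      ((0 : ℝ) < (O i).card ∧ c * (O i).card ≤ T i ∧ 0 < T i ∧ ν i = μ i) →
      (∀ u, ({z | z ∈ O i ∧ y i z u ∈ E}.ncard : ℝ) ≤ ε * c * (O i).card) →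
      ν i E ≤ ENNReal.ofReal ε := by
    rintro i E ε hε ⟨h1, h2, h3, h4⟩ h5
    rw [h4]
    refine (ust_le _ (by have := hn i; positivity) (hω' i) _ E (sqr i) Prod.snd Prod.fst
      (fun u => {z | z ∈ O i ∧ y i z u ∈ E})
      (fun u => (O i).finite_toSet.subset fun z hz => hz.1)
      (fun a ha => (Finset.mem_product.1 ha).2)
      (fun a ha hE => ⟨(Finset.mem_product.1 ha).1, hE⟩)
      (fun a b e1 e2 => Prod.ext e2 e1) h5).trans (ENNReal.ofReal_le_ofReal ?_)
    have h6 := hn i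
    have h7 : 1 / (T i * (sqr i).card) * ((sqr i).card * (ε * c * (O i).card)) =
        ε * (c * (O i).card / T i) := by field_simp
    rw [h7]
    exact mul_le_of_le_one_right hε.le ((div_le_one h3).2 h2)
  have key := block3 hpq hM h 𝒰 h𝒰 ν (fun f => ?_) (fun f => ?_) (fun ε hε => ?_) ?_
    (fun k l hkl q' hq' δ hδ R ε hε => ?_) Φ
  · have h1 := tendsto_sub_nhds_zero_iff.2 key
    refine squeeze_zero_norm' ?_ (tendsto_zero_iff_norm_tendsto_zero.1 h1)
    refine hev.mono fun i hi => ?_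
    obtain ⟨h2, h3, h4, h5⟩ := hi
    have h6 : (avg (O i) fun z => w i z *
        (avg (sqr i) (fun u => Φ (piP p q (y i z u))) - ∫ x, Φ x ∂mP p κ)) =
        avg (O i) (w i) * (∫ x, Φ x ∂(ν i).map (piP p q) - ∫ x, Φ x ∂mP p κ) := by
      rw [integral_map (continuous_piP p q).measurable.aemeasurable
        Φ.continuous.aestronglyMeasurable, h5, ust_int _ (hω i), Finset.sum_product]
      simp only [avg, ω, mul_sub, Finset.sum_sub_distrib, ← Finset.mul_sum, ← Finset.sum_mul]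
      have h7 : ∀ z, w i z / (T i * (sqr i).card) * ∑ u ∈ sqr i, Φ (piP p q (y i z u)) =
          (T i)⁻¹ * (w i z * ((∑ u ∈ sqr i, Φ (piP p q (y i z u))) / (sqr i).card)) := fun z => by
        have := hn i
        field_simp
      simp only [h7, ← Finset.mul_sum]
      change (_ - T i * _) / _ = T i / _ * _ - T i / _ * _
      field_simp
    rw [h6, norm_mul, Real.norm_of_nonneg (hw0 i)]
    exact mul_le_of_le_one_left (norm_nonneg _) (hw1 i)
  · refine squeeze_zero_norm' (hev.mono fun i hi => ?_) (hz (2 * ‖f‖))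
    rw [hi.2.2.2]
    refine ust_shift (O i) i (fun z => (hw i z).1) hi.2.2.1 (y i) f
      (fun x => f (al p q κ M • x)) fun z hz => ?_
    rw [hy i z hz]
    simp only [ust_a]
    exact ust_tel1 i (fun u => f (yy p q M h (x i z) u)) fun u => f.norm_coe_le_norm _
  · refine squeeze_zero_norm' (hev.mono fun i hi => ?_) (hz (2 * ‖f‖))
    rw [hi.2.2.2]
    refine ust_shift (O i) i (fun z => (hw i z).1) hi.2.2.1 (y i) f
      (fun x => f (be p q h M • x)) fun z hz => ?_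
    rw [hy i z hz]
    simp only [ust_b]
    exact ust_tel2 i (fun u => f (yy p q M h (x i z) u)) fun u => f.norm_coe_le_norm _
  · obtain ⟨Ω, hΩ, h1⟩ := hc.tight (ε * c) (mul_pos hε hc0)
    refine ⟨Ω, hΩ, fun k => ?_⟩
    filter_upwards [hev, h1 k] with i hi h2
    exact hone i {w | w k ∉ Ω} ε hε hi h2
  · obtain ⟨C, h1⟩ := hc.bow
    refine ⟨C / c ^ 2, fun k m => ?_⟩
    filter_upwards [hev, h1 k m] with i hi h2
    obtain ⟨h3, h4, h5, h6⟩ := hi
    have := hμ i h5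
    have hE : MeasurableSet {w : (κ → X3 p q) × (κ → X3 p q) | (w.1 k, w.2 k) ∈ Op p q m} :=
      ((isOpen_Op p q m).preimage (((continuous_apply k).comp continuous_fst).prodMk
        ((continuous_apply k).comp continuous_snd))).measurableSet
    have h7 := hn i
    rw [h6, ust_prod _ (hω i) _ hE]
    refine (ust_le _ (t := 1 / (T i * (sqr i).card) * (1 / (T i * (sqr i).card))) (by positivity)
      (fun a => mul_le_mul (hω' i a.1) (hω' i a.2) (hω i a.2) (by positivity))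
      (fun a : (ζ × (ℕ × ℕ)) × (ζ × (ℕ × ℕ)) => (y i a.1.1 a.1.2, y i a.2.1 a.2.2))
      {w : (κ → X3 p q) × (κ → X3 p q) | (w.1 k, w.2 k) ∈ Op p q m}
      (sqr i ×ˢ sqr i) (fun a => (a.1.2, a.2.2)) (fun a => (a.1.1, a.2.1))
      (fun u => {z : ζ × ζ | z.1 ∈ O i ∧ z.2 ∈ O i ∧
        (y i z.1 u.1 k, y i z.2 u.2 k) ∈ Op p q m})
      (fun u => ((O i).finite_toSet.prod (O i).finite_toSet).subset fun z hz => ⟨hz.1, hz.2.1⟩)
      (fun a ha => Finset.mem_product.2 ⟨(Finset.mem_product.1 (Finset.mem_product.1 ha).1).2,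
        (Finset.mem_product.1 (Finset.mem_product.1 ha).2).2⟩)
      (fun a ha hE => ⟨(Finset.mem_product.1 (Finset.mem_product.1 ha).1).1,
        (Finset.mem_product.1 (Finset.mem_product.1 ha).2).1, hE⟩)
      (fun a b e1 e2 => Prod.ext (Prod.ext (Prod.mk.inj e2).1 (Prod.mk.inj e1).1)
        (Prod.ext (Prod.mk.inj e2).2 (Prod.mk.inj e1).2))
      (fun u => h2 u.1 u.2)).trans (ENNReal.ofReal_le_ofReal ?_)
    have h8 : 0 ≤ C * (p : ℝ) ^ (-(m : ℤ)) :=
      nonneg_of_mul_nonneg_left ((Nat.cast_nonneg _).trans (h2 (0, 0) (0, 0))) (by positivity)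
    have h9 : 1 / (T i * (sqr i).card) * (1 / (T i * (sqr i).card)) *
        ((sqr i ×ˢ sqr i).card * (C * (p : ℝ) ^ (-(m : ℤ)) * (O i).card ^ 2)) =
        C * (p : ℝ) ^ (-(m : ℤ)) / c ^ 2 * (c * (O i).card / T i) ^ 2 := by
      rw [Finset.card_product, Nat.cast_mul]
      field_simp
    rw [h9, div_mul_eq_mul_div C]
    exact mul_le_of_le_one_right (by positivity)
      (pow_le_one₀ (by positivity) ((div_le_one h5).2 h4))
  · obtain ⟨m, h1⟩ := hc.exc k l hkl q' hq' δ hδ R (ε * c) (mul_pos hε hc0)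
    refine ⟨m, ?_⟩
    filter_upwards [hev, h1] with i hi h2
    exact hone i {w | (pi3 p q (w k), pi3 p q (w l)) ∈ On p q' δ R m} ε hε hi h2

end Pool.Agent.EQ
end
end

-- part Pool.Agent.P.MP_ad7a55_nt.VRg
section

/-! Rigidity of measures on the covering space. -/

set_option autoImplicit false

noncomputable section

open MeasureTheory Topology Filter UpperHalfPlane
open scoped MatrixGroups ENNReal BoundedContinuousFunction

namespace Pool.Agent.EQ

variable {p : ℕ} [Fact p.Prime] {N : ℕ} {κ : Type} [Fintype κ]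

theorem vrg_le {W : Type} [TopologicalSpace W] [PolishSpace W] [MeasurableSpace W] [BorelSpace W]
    {ν m : Measure W} [IsFiniteMeasure ν] (h : ∀ K, IsCompact K → ν K ≤ m K) : ν ≤ m := by
  refine Measure.le_iff.2 fun B hB => ?_
  rw [hB.measure_eq_iSup_isCompact_of_ne_top (measure_ne_top ν B)]
  exact iSup_le fun K => iSup_le fun hK => iSup_le fun hc => (h K hc).trans (measure_mono hK)

/-- Right translation by an element of the big lattice. -/
def vrgT (p : ℕ) [Fact p.Prime] (N : ℕ) (r : Gam p) : XN p N → XN p N :=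
  Quotient.map' (fun g => g * r.1) fun a b hab => by
    rw [QuotientGroup.leftRel_apply] at hab ⊢
    have := GN_conj hab ((Gam p).inv_mem r.2)
    simpa [mul_assoc] using this

theorem vrgT_mk (r : Gam p) (g : GG p) :
    vrgT p N r (g : XN p N) = ((g * r.1 : GG p) : XN p N) := rfl

theorem vrgT_cont (r : Gam p) : Continuous (vrgT p N r) := by
  refine (QuotientGroup.isQuotientMap_mk (GN p N)).continuous_iff.2 ?_
  exact QuotientGroup.continuous_mk.comp (continuous_id.mul continuous_const)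

theorem vrgT_smul (r : Gam p) (g : GG p) (x : XN p N) :
    vrgT p N r (g • x) = g • vrgT p N r x := by
  induction x using QuotientGroup.induction_on with
  | H a =>
    rw [MulAction.Quotient.smul_coe, vrgT_mk, vrgT_mk, MulAction.Quotient.smul_coe,
      smul_eq_mul, smul_eq_mul, mul_assoc]

theorem vrgT_map (hN : 0 < N) (r : Gam p) : (mN p N).map (vrgT p N r) = mN p N := by
  have hm := (vrgT_cont (N := N) r).measurable
  have := Measure.isProbabilityMeasure_map (μ := mN p N) hm.aemeasurable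
  have h := eq_mN hN ((mN p N).map (vrgT p N r)) fun g => by
    rw [mem_Stab, Measure.map_map (measurable_const_smul g) hm]
    conv_rhs => rw [← mN_inv hN g, Measure.map_map hm (measurable_const_smul g)]
    congr 1
    funext x
    exact (vrgT_smul r g x).symm
  rwa [measure_univ, one_smul] at h

theorem le_mPN (hN : 0 < N) (p : ℕ) [Fact p.Prime] (κ : Type) [Fintype κ] :
    ∃ c : ℝ≥0∞, c ≠ ∞ ∧ ∀ (ν : Measure (κ → XN p N)) (C : ℝ≥0∞), IsFiniteMeasure ν →
      ν.map (covP p N) ≤ C • mP p κ → ν ≤ (C * c) • mPN p N κ := by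
  classical
  obtain ⟨R, hR, hf⟩ := cov_fib (p := p) hN
  refine ⟨(Fintype.card (κ → R) : ℝ≥0∞), ENNReal.natCast_ne_top _, fun ν C hν h => ?_⟩
  refine vrg_le fun K hK => ?_
  have hc := continuous_covP p N (κ := κ)
  have hA : MeasurableSet (covP p N '' K) := (hK.image hc).measurableSet
  let T : (κ → R) → (κ → XN p N) → (κ → XN p N) := fun r w k =>
    vrgT p N ⟨(r k).1, hR _ (r k).2⟩ (w k)
  have hT : ∀ r, MeasurePreserving (T r) (mPN p N κ) (mPN p N κ) := fun r =>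
    measurePreserving_pi (fun _ : κ => mN p N) (fun _ : κ => mN p N)
      (f := fun k x => vrgT p N ⟨(r k).1, hR _ (r k).2⟩ x)
      fun k => ⟨(vrgT_cont _).measurable, vrgT_map hN _⟩
  have hsub : covP p N ⁻¹' (covP p N '' K) ⊆ ⋃ r, T r ⁻¹' K := by
    rintro y ⟨x, hx, hxy⟩
    have h1 : ∀ k, ∃ r : R, x k = vrgT p N ⟨r.1, hR _ r.2⟩ (y k) := fun k => by
      obtain ⟨g, hg⟩ := QuotientGroup.mk_surjective (y k)
      have e : cov p N (x k) = cov p N (y k) := congrFun hxy k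
      rw [← hg, cov_mk] at e
      obtain ⟨r, hr, e'⟩ := hf g (x k) e
      exact ⟨⟨r, hr⟩, by rw [← hg, vrgT_mk]; exact e'⟩
    choose r hr using h1
    refine Set.mem_iUnion.2 ⟨r, ?_⟩
    have : T r y = x := funext fun k => (hr k).symm
    rw [Set.mem_preimage, this]
    exact hx
  have h2 : mPN p N κ (covP p N ⁻¹' (covP p N '' K)) ≤
      (Fintype.card (κ → R) : ℝ≥0∞) * mPN p N κ K := by
    refine (measure_mono hsub).trans ((measure_iUnion_fintype_le _ _).trans (le_of_eq ?_))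
    rw [Finset.sum_congr rfl fun r _ => (hT r).measure_preimage hK.measurableSet.nullMeasurableSet]
    simp
  calc ν K ≤ ν (covP p N ⁻¹' (covP p N '' K)) := measure_mono (Set.subset_preimage_image _ _)
    _ = ν.map (covP p N) (covP p N '' K) := (Measure.map_apply hc.measurable hA).symm
    _ ≤ C * mP p κ (covP p N '' K) := h _
    _ = C * mPN p N κ (covP p N ⁻¹' (covP p N '' K)) := by
      rw [← map_covP hN κ, Measure.map_apply hc.measurable hA]
    _ ≤ C * ((Fintype.card (κ → R) : ℝ≥0∞) * mPN p N κ K) := by gcongr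
    _ = _ := by rw [Measure.smul_apply, smul_eq_mul, mul_assoc]

/-- Forget the coordinate `k`. -/
def vrgRes (k : κ) (w : κ → XN p N) : {j // j ≠ k} → XN p N := fun j => w j.1

omit [Fintype κ] in
theorem vrg_meas_res (k : κ) : Measurable (vrgRes (p := p) (N := N) k) :=
  measurable_pi_lambda _ fun j => measurable_pi_apply j.1

/-- The law of the coordinate `k` on the event that the other coordinates lie in `C`. -/
def vrgSlice (ρ : Measure (κ → XN p N)) (k : κ) (C : Set ({j // j ≠ k} → XN p N)) :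
    Measure (XN p N) :=
  (ρ.restrict (vrgRes k ⁻¹' C)).map (fun w => w k)

omit [Fintype κ] in
theorem vrgSlice_apply (ρ : Measure (κ → XN p N)) (k : κ) (C : Set ({j // j ≠ k} → XN p N))
    {B : Set (XN p N)} (hB : MeasurableSet B) :
    vrgSlice ρ k C B = ρ ((fun w => w k) ⁻¹' B ∩ vrgRes k ⁻¹' C) := by
  rw [vrgSlice, Measure.map_apply (measurable_pi_apply k) hB,
    Measure.restrict_apply (measurable_pi_apply k hB)]

theorem vrgSlice_stab [DecidableEq κ] {ρ : Measure (κ → XN p N)} {k : κ}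
    {C : Set ({j // j ≠ k} → XN p N)} (hC : MeasurableSet C) {g : GG p}
    (h : Pi.mulSingle (M := fun _ => GG p) k g ∈ Stab (κ → GG p) ρ) :
    g ∈ Stab (GG p) (vrgSlice ρ k C) := by
  rw [mem_Stab] at h ⊢
  ext B hB
  have hm : MeasurableSet ((fun w : κ → XN p N => w k) ⁻¹' B ∩ vrgRes k ⁻¹' C) :=
    (measurable_pi_apply k hB).inter (vrg_meas_res k hC)
  rw [Measure.map_apply (measurable_const_smul g) hB,
    vrgSlice_apply _ _ _ (measurable_const_smul g hB), vrgSlice_apply _ _ _ hB]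
  conv_rhs => rw [← h]
  rw [Measure.map_apply (measurable_const_smul _) hm]
  congr 1
  ext w
  have e1 : (Pi.mulSingle (M := fun _ => GG p) k g • w) k = g • w k := by
    simp [Pi.smul_apply']
  have e2 : vrgRes k (Pi.mulSingle (M := fun _ => GG p) k g • w) = vrgRes k w := by
    funext j
    simp [vrgRes, Pi.smul_apply', Pi.mulSingle_eq_of_ne j.2]
  simp only [Set.mem_inter_iff, Set.mem_preimage, e1, e2]

theorem vrg_free [DecidableEq κ] (hN : 0 < N) {ρ : Measure (κ → XN p N)} [IsFiniteMeasure ρ]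
    {k : κ} (h : ∀ g : SL(2, ℚ_[p]),
      Pi.mulSingle (M := fun _ => GG p) k (1, g) ∈ Stab (κ → GG p) ρ)
    {B : Set (XN p N)} {C : Set ({j // j ≠ k} → XN p N)} (hB : MeasurableSet B)
    (hC : MeasurableSet C) :
    ρ ((fun w => w k) ⁻¹' B ∩ vrgRes k ⁻¹' C) = mN p N B * ρ (vrgRes k ⁻¹' C) := by
  have : IsFiniteMeasure (vrgSlice ρ k C) := by unfold vrgSlice; infer_instance
  rw [← vrgSlice_apply ρ k C hB, eq_mN_of_P hN (vrgSlice ρ k C) fun g => vrgSlice_stab hC (h g),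
    Measure.smul_apply, smul_eq_mul,
    vrgSlice_apply ρ k C MeasurableSet.univ, Set.preimage_univ, Set.univ_inter, mul_comm]

theorem eq_of_all_P [DecidableEq κ] (hN : 0 < N) (ρ : Measure (κ → XN p N)) [IsFiniteMeasure ρ]
    (h : ∀ k (g : SL(2, ℚ_[p])),
      Pi.mulSingle (M := fun _ => GG p) k (1, g) ∈ Stab (κ → GG p) ρ) :
    ρ = ρ Set.univ • mPN p N κ := by
  have key : ∀ s : κ → Set (XN p N), (∀ j, MeasurableSet (s j)) → ∀ T : Finset κ,
      ρ (Set.pi (T : Set κ) s) = (∏ j ∈ T, mN p N (s j)) * ρ Set.univ := by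
    intro s hs T
    induction T using Finset.induction_on with
    | empty => simp
    | insert k T hk ih =>
      have hC : MeasurableSet
          (Set.pi {j : {j // j ≠ k} | j.1 ∈ T} fun j : {j // j ≠ k} => s j.1) :=
        MeasurableSet.pi (Set.to_countable _) fun j _ => hs j.1
      have e1 : vrgRes k ⁻¹' (Set.pi {j : {j // j ≠ k} | j.1 ∈ T} fun j : {j // j ≠ k} => s j.1) =
          Set.pi (T : Set κ) s := by
        ext w
        simp only [Set.mem_pi, Set.mem_preimage, vrgRes, Set.mem_ofPred_eq, Finset.mem_coe]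
        exact ⟨fun hw j hj => hw ⟨j, fun e => hk (e ▸ hj)⟩ hj, fun hw j hj => hw j.1 hj⟩
      have e2 : Set.pi ((insert k T : Finset κ) : Set κ) s =
          (fun w => w k) ⁻¹' s k ∩ Set.pi (T : Set κ) s := by
        rw [Finset.coe_insert, Set.insert_pi]
      have := vrg_free hN (h k) (hs k) hC
      rw [e1] at this
      rw [e2, this, ih, Finset.prod_insert hk, mul_assoc]
  refine ext_of_generate_finite _ generateFrom_pi.symm isPiSystem_pi ?_ (by simp)
  rintro _ ⟨s, hs, rfl⟩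
  have hs' : ∀ j, MeasurableSet (s j) := fun j => hs j (Set.mem_univ j)
  have := key s hs' Finset.univ
  rw [Finset.coe_univ] at this
  rw [this, Measure.smul_apply, smul_eq_mul, mPN, Measure.pi_pi, mul_comm]

theorem vrg_mprop (hN : 0 < N) (ν : Measure (κ → XN p N))
    [IsFiniteMeasure ν] {C : ℝ≥0∞} (hC : C ≠ ∞) (h : ν.map (covP p N) ≤ C • mP p κ) :
    MProp (Stab (κ → GG p) ν) := by
  obtain ⟨c, hc, hle⟩ := le_mPN hN p κ
  have : IsFiniteMeasure ((C * c) • mPN p N κ) :=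
    ⟨by simpa using ENNReal.mul_lt_top hC.lt_top hc.lt_top⟩
  exact mprop_Stab ((C * c) • mPN p N κ) ν
    (fun g => by rw [Measure.map_smul, mPN_inv hN]) (hle ν C inferInstance h)

theorem rig_U (hN : 0 < N) {d : κ → ℚ_[p]} (hd : ∀ k, d k ≠ 0) (ν : Measure (κ → XN p N))
    [IsFiniteMeasure ν] {C : ℝ≥0∞} (hC : C ≠ ∞) (h : ν.map (covP p N) ≤ C • mP p κ)
    (hi : Inv (uflN p N d) ν) : ν = ν Set.univ • mPN p N κ := by
  classical
  exact eq_of_all_P hN ν fun k g =>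
    mautner_U p _ (vrg_mprop hN ν hC h) d hd (fun s => hi s) k g

theorem rig_A (hN : 0 < N) {M : ℕ} (hM : 0 < M) (ν : Measure (κ → XN p N))
    [IsFiniteMeasure ν] {C : ℝ≥0∞} (hC : C ≠ ∞) (h : ν.map (covP p N) ≤ C • mP p κ)
    (hi : (fun _ => aP p M) ∈ Stab (κ → GG p) ν) : ν = ν Set.univ • mPN p N κ := by
  classical
  have h1 : ‖(p : ℚ_[p]) ^ M‖ < 1 := by
    rw [norm_pow]
    exact pow_lt_one₀ (norm_nonneg _) Padic.norm_p_lt_one hM.ne'
  refine eq_of_all_P hN ν fun k g => ?_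
  refine maut_contract (vrg_mprop hN ν hC h)
    ((MonoidHom.mulSingle (fun _ : κ => GG p) k).comp (MonoidHom.inr SL(2, ℝ) SL(2, ℚ_[p])))
    ((continuous_mulSingle (A := fun _ : κ => GG p) k).comp (continuous_const.prodMk continuous_id))
    ((p : ℚ_[p]) ^ M)
    (pow_ne_zero _ (Nat.cast_ne_zero.2 (Fact.out : p.Prime).ne_zero)) h1
    (A := fun _ => aP p M) hi (fun b => ?_) g
  funext j
  by_cases hj : j = k
  · subst hj
    simp [aP]
  · simp [Pi.mulSingle_eq_of_ne hj]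

theorem erg_mPN (hN : 0 < N) {d : κ → ℚ_[p]} (hd : ∀ k, d k ≠ 0) :
    Erg (uflN p N d) (mPN p N κ) := by
  classical
  refine erg_of_ext _ (fun s => mPN_inv hN fun k => uP p (d k * s)) fun μ hμ hi => ?_
  have : IsFiniteMeasure μ := isFiniteMeasure_of_le _ hμ
  exact eq_of_all_P hN μ fun k g =>
    mautner_U p _ (mprop_Stab (mPN p N κ) μ (mPN_inv hN) hμ) d hd (fun s => hi s) k g

theorem exists_limN (hN : 0 < N) (𝒰 : Ultrafilter ℕ) (h𝒰 : (𝒰 : Filter ℕ) ≤ atTop)
    (μ : ℕ → Measure (κ → XN p N)) [∀ i, IsProbabilityMeasure (μ i)]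
    (lam : ℕ → Measure (κ → XX p)) [∀ i, IsProbabilityMeasure (lam i)] (h : WT 𝒰 lam (mP p κ))
    {C : ℝ≥0∞} (hC : C ≠ ∞) (hle : ∀ᶠ i in 𝒰, (μ i).map (covP p N) ≤ C • lam i) :
    ∃ ν : Measure (κ → XN p N), IsProbabilityMeasure ν ∧ WT 𝒰 μ ν ∧
      ν.map (covP p N) ≤ C • mP p κ := by
  have hc := continuous_covP p N (κ := κ)
  obtain ⟨ν, hν, hw⟩ := exists_WT 𝒰 h𝒰 μ fun ε hε => by
    have hδ : ε / (C + 1) ≠ 0 :=
      (ENNReal.div_pos hε.ne' (ENNReal.add_ne_top.2 ⟨hC, ENNReal.one_ne_top⟩)).ne'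
    obtain ⟨K, -, hK, hlt⟩ := MeasurableSet.univ.exists_isCompact_sdiff_lt
      (measure_ne_top (mP p κ) _) hδ
    obtain ⟨K1, hK1, hs⟩ := exists_compact_superset hK
    have hF : mP p κ (interior K1)ᶜ < ε / (C + 1) :=
      lt_of_le_of_lt (measure_mono fun x hx => Set.mem_sdiff_of_mem trivial fun h' => hx (hs h')) hlt
    refine ⟨covP p N ⁻¹' K1, isCompact_covP hN hK1, ?_⟩
    filter_upwards [hle, h.closed_lt isOpen_interior.isClosed_compl hF] with i h1 h2
    calc μ i (covP p N ⁻¹' K1)ᶜ = (μ i).map (covP p N) K1ᶜ := by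
          rw [Measure.map_apply hc.measurable hK1.measurableSet.compl, Set.preimage_compl]
      _ ≤ C * lam i K1ᶜ := h1 _
      _ ≤ (C + 1) * (ε / (C + 1)) :=
          mul_le_mul' le_self_add
            ((measure_mono (Set.compl_subset_compl.2 interior_subset)).trans h2.le)
      _ ≤ ε := ENNReal.mul_div_le
  refine ⟨ν, hν, hw, ?_⟩
  have h1 : ∀ i, IsProbabilityMeasure ((μ i).map (covP p N)) := fun i =>
    Measure.isProbabilityMeasure_map hc.measurable.aemeasurable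
  have h2 : IsProbabilityMeasure (ν.map (covP p N)) :=
    Measure.isProbabilityMeasure_map hc.measurable.aemeasurable
  have hw' := hw.map hc
  refine vrg_le fun K hK => ?_
  have h3 : Tendsto (fun c => C * c) (𝓝[>] (mP p κ K)) (𝓝 (C * mP p κ K)) :=
    (ENNReal.Tendsto.const_mul tendsto_id (Or.inr hC)).mono_left nhdsWithin_le_nhds
  have h4 : (𝓝[>] (mP p κ K)).NeBot := nhdsGT_neBot_of_exists_gt ⟨⊤, measure_lt_top _ _⟩
  refine ge_of_tendsto h3 (eventually_nhdsWithin_of_forall fun c hcK => ?_)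
  obtain ⟨V, hKV, hV, hVc⟩ := K.exists_isOpen_lt_of_lt c hcK
  obtain ⟨L, hL, hKL, hLV⟩ := exists_compact_between hK hV hKV
  refine (measure_mono hKL).trans (hw'.open_le isOpen_interior ?_)
  filter_upwards [hle, h.closed_lt hL.isClosed ((measure_mono hLV).trans_lt hVc)] with i h5 h6
  calc (μ i).map (covP p N) (interior L) ≤ C * lam i (interior L) := h5 _
    _ ≤ C * c := mul_le_mul' le_rfl ((measure_mono interior_subset).trans h6.le)

theorem lift_A (hN : 0 < N) {M : ℕ} (hM : 0 < M) (𝒰 : Ultrafilter ℕ)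
    (h𝒰 : (𝒰 : Filter ℕ) ≤ atTop) (μ : ℕ → Measure (κ → XN p N))
    [∀ i, IsProbabilityMeasure (μ i)] (lam : ℕ → Measure (κ → XX p))
    [∀ i, IsProbabilityMeasure (lam i)] (h : WT 𝒰 lam (mP p κ)) {C : ℝ≥0∞} (hC : C ≠ ∞)
    (hle : ∀ᶠ i in 𝒰, (μ i).map (covP p N) ≤ C • lam i)
    (ha : ∀ f : (κ → XN p N) →ᵇ ℝ, Tendsto
      (fun i => ∫ w, f ((fun _ => aP p M : κ → GG p) • w) ∂μ i - ∫ w, f w ∂μ i) 𝒰 (𝓝 0)) :
    WT 𝒰 μ (mPN p N κ) := by
  obtain ⟨ν, hν, hw, hl⟩ := exists_limN hN 𝒰 h𝒰 μ lam h hC hle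
  have hi : (fun _ => aP p M) ∈ Stab (κ → GG p) ν := by
    have hc : Continuous fun w : κ → XN p N => (fun _ => aP p M : κ → GG p) • w :=
      continuous_const_smul _
    have := Measure.isProbabilityMeasure_map (μ := ν) hc.measurable.aemeasurable
    refine ext_of_forall_integral_eq_of_IsFiniteMeasure fun f => ?_
    rw [integral_map hc.measurable.aemeasurable f.continuous.aestronglyMeasurable]
    have h1 := (hw (f.compContinuous ⟨_, hc⟩)).sub (hw f)
    exact sub_eq_zero.1 (tendsto_nhds_unique h1 (ha f))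
  have e := rig_A hN hM ν hC hl hi
  rw [measure_univ, one_smul] at e
  exact e ▸ hw

end Pool.Agent.EQ
end
end
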