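import Pool.Agent.K.MP_ad7a55_nt.C66
import Pool.Agent.K.MP_ad7a55_nt.C64
import Pool.Agent.K.MP_ad7a55_nt.C68

-- part Pool.Agent.P.MP_ad7a55_nt.VTc
section

/-! Test functions with compact support on the curve. -/

set_option autoImplicit false

noncomputable section

open MeasureTheory Topology Filter UpperHalfPlane
open scoped MatrixGroups ENNReal BoundedContinuousFunction

namespace Pool.Agent.EQ

/-- Support in finitely many translates of a compact set, up to the level. -/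
def CSp (φ : ℍ → ℝ) : Prop :=
  ∃ K : Set ℍ, IsCompact K ∧ ∀ τ, φ τ ≠ 0 → ∃ γ : SL(2, ℤ), γ • τ ∈ K

def Tc (N : ℕ) (F : IntermediateField ℚ ℂ) (φ : ℍ →ᵇ ℝ) : Prop := Tst N F φ ∧ CSp φ

/-- Equidistribution for every class whose field avoids `E`. -/
def GoodE (E : Set ℕ) : Prop :=
  ∀ (n N : ℕ), 0 < N → ∀ (F : IntermediateField ℚ ℂ) [FiniteDimensional ℚ F] (𝒰 : Ultrafilter ℕ),
    (𝒰 : Filter ℕ) ≤ atTop → ∀ (τ : ℕ → Fin n → ℍ) (D : ℕ → Fin n → ℤ) (I : Finset (Fin n))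
      (φ : Fin n → (ℍ →ᵇ ℝ)) (ψ : ℕ → (Fin n × Fn → ℂ) → ℝ), Cls 𝒰 τ D I →
      (∀ k, Tc N F (φ k)) → WtN 𝒰 D I ψ →
      (∀ᶠ i in 𝒰, ∀ k ∈ I, ∃ d f : ℤ, Squarefree d ∧ D i k = f ^ 2 * d ∧ d.natAbs ∉ E) →
      Eqd 𝒰 N F τ φ I ψ

variable {n N : ℕ}

theorem vtc_one (hN : 0 < N) (F : IntermediateField ℚ ℂ) {K : Set ℍ} (hK : IsCompact K) :
    ∃ A : Set (ℍ →ᵇ ℝ), A.Countable ∧ (∀ φ ∈ A, Tst N F φ) ∧
      ∀ φ, Tst N F φ → (∀ τ, φ τ ≠ 0 → ∃ γ : SL(2, ℤ), γ • τ ∈ K) →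
        ∀ ε : ℝ, 0 < ε → ∃ φ' ∈ A, ‖φ - φ'‖ ≤ ε := by
  have : NeZero N := ⟨hN.ne'⟩
  have := (CongruenceSubgroup.Gamma N).fintypeQuotientOfFiniteIndex
  let C : Set ℍ := ⋃ c : SL(2, ℤ) ⧸ CongruenceSubgroup.Gamma N, (fun x : ℍ => c.out⁻¹ • x) '' K
  have hC : IsCompact C := isCompact_iUnion fun c => hK.image (vmh_cont _)
  have : CompactSpace C := isCompact_iff_compactSpace.mp hC
  let S : Set (ℍ →ᵇ ℝ) := {φ | Tst N F φ ∧ ∀ τ, φ τ ≠ 0 → ∃ γ : SL(2, ℤ), γ • τ ∈ K}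
  let ρ : (ℍ →ᵇ ℝ) → C(C, ℝ) := fun φ => ⟨fun x => φ x, φ.continuous.comp continuous_subtype_val⟩
  have key : ∀ φ ∈ S, ∀ φ' ∈ S, ‖φ - φ'‖ ≤ dist (ρ φ) (ρ φ') := by
    intro φ hφ φ' hφ'
    rw [BoundedContinuousFunction.norm_le dist_nonneg]
    intro τ
    by_cases h0 : ∃ γ : SL(2, ℤ), γ • τ ∈ K
    · obtain ⟨γ, hγ⟩ := h0
      obtain ⟨h, hh⟩ := QuotientGroup.mk_out_eq_mul (CongruenceSubgroup.Gamma N) γ
      have hm : (h : SL(2, ℤ))⁻¹ • τ ∈ C := by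
        refine Set.mem_iUnion.mpr ⟨(γ : SL(2, ℤ) ⧸ CongruenceSubgroup.Gamma N), γ • τ, hγ, ?_⟩
        simp only [hh, mul_inv_rev, mul_smul, inv_smul_smul]
      have hi : (h : SL(2, ℤ))⁻¹ ∈ G0 N F := Gamma_le_G0 (inv_mem h.2)
      have e := ContinuousMap.dist_apply_le_dist (f := ρ φ) (g := ρ φ') ⟨_, hm⟩
      change dist (φ ((h : SL(2, ℤ))⁻¹ • τ)) (φ' ((h : SL(2, ℤ))⁻¹ • τ)) ≤ _ at e
      rw [hφ.1 _ hi, hφ'.1 _ hi, dist_eq_norm] at e
      exact e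
    · have e1 : φ τ = 0 := by
        by_contra h
        exact h0 (hφ.2 τ h)
      have e2 : φ' τ = 0 := by
        by_contra h
        exact h0 (hφ'.2 τ h)
      simp only [BoundedContinuousFunction.coe_sub, Pi.sub_apply, e1, e2, sub_zero, norm_zero]
      exact dist_nonneg
  obtain ⟨t, ht, htc, htd⟩ :=
    (TopologicalSpace.IsSeparable.of_separableSpace (ρ '' S)).exists_countable_dense_subset
  have hpre : ∀ x : t, ∃ φ ∈ S, ρ φ = x := fun x => ht x.2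
  choose pre hp1 hp2 using hpre
  have := htc.to_subtype
  refine ⟨Set.range pre, Set.countable_range _, ?_, fun φ h1 h2 ε hε => ?_⟩
  · rintro _ ⟨x, rfl⟩
    exact (hp1 x).1
  · obtain ⟨y, hy, hd⟩ := Metric.mem_closure_iff.mp (htd ⟨φ, ⟨h1, h2⟩, rfl⟩) ε hε
    refine ⟨pre ⟨y, hy⟩, ⟨_, rfl⟩, (key φ ⟨h1, h2⟩ _ (hp1 _)).trans ?_⟩
    rw [hp2]
    exact hd.le

theorem exists_dense (hN : 0 < N) (F : IntermediateField ℚ ℂ) : ∃ A : Set (ℍ →ᵇ ℝ),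
    A.Countable ∧ (∀ φ ∈ A, Tst N F φ) ∧
      ∀ φ, Tc N F φ → ∀ ε : ℝ, 0 < ε → ∃ φ' ∈ A, ‖φ - φ'‖ ≤ ε := by
  choose A h1 h2 h3 using fun j : ℕ => vtc_one hN F ((CompactExhaustion.choice ℍ).isCompact j)
  refine ⟨⋃ j, A j, Set.countable_iUnion h1, fun φ hφ => ?_, fun φ hφ ε hε => ?_⟩
  · obtain ⟨j, hj⟩ := Set.mem_iUnion.mp hφ
    exact h2 j φ hj
  · obtain ⟨K, hK, hs⟩ := hφ.2
    obtain ⟨j, hj⟩ := (CompactExhaustion.choice ℍ).exists_superset_of_isCompact hK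
    obtain ⟨φ', g1, g2⟩ := h3 j φ hφ.1 (fun τ h => (hs τ h).imp fun γ hγ => hj hγ) ε hε
    exact ⟨φ', Set.mem_iUnion.mpr ⟨j, g1⟩, g2⟩

theorem countable_nf : {F : IntermediateField ℚ ℂ | FiniteDimensional ℚ F}.Countable := by
  refine ((Algebraic.countable ℚ ℂ).image fun α => IntermediateField.adjoin ℚ {α}).mono ?_
  intro F hF
  have : FiniteDimensional ℚ F := hF
  obtain ⟨α, hα⟩ := Field.exists_primitive_element ℚ F
  refine ⟨(α : ℂ), ?_, ?_⟩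
  · exact (Algebra.IsAlgebraic.isAlgebraic (R := ℚ) α).algHom F.val
  · exact (IntermediateField.lift_adjoin_simple ℚ F α).symm.trans
      ((congrArg IntermediateField.lift hα).trans (IntermediateField.lift_top ℚ F))

theorem vtc_prod {ι : Type} (I : Finset ι) {R δ : ℝ} (hR : 1 ≤ R) (hδ : 0 ≤ δ) (a b : ι → ℝ)
    (ha : ∀ k, |a k| ≤ R) (hb : ∀ k, |b k| ≤ R) (hd : ∀ k, |a k - b k| ≤ δ) :
    |∏ k ∈ I, b k| ≤ R ^ I.card ∧ |∏ k ∈ I, a k - ∏ k ∈ I, b k| ≤ I.card * R ^ I.card * δ := by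
  classical
  induction I using Finset.induction_on with
  | empty => simp
  | insert x s hx ih =>
    obtain ⟨i1, i2⟩ := ih
    have hp : 0 ≤ R ^ s.card := by positivity
    have hR0 : 0 ≤ R := by linarith
    rw [Finset.prod_insert hx, Finset.prod_insert hx, Finset.card_insert_of_notMem hx, pow_succ]
    constructor
    · rw [abs_mul, mul_comm]
      exact mul_le_mul i1 (hb x) (abs_nonneg _) hp
    · have e : a x * ∏ k ∈ s, a k - b x * ∏ k ∈ s, b k =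
          a x * (∏ k ∈ s, a k - ∏ k ∈ s, b k) + (a x - b x) * ∏ k ∈ s, b k := by ring
      rw [e]
      refine (abs_add_le _ _).trans ?_
      rw [abs_mul, abs_mul]
      have j1 := mul_le_mul (ha x) i2 (abs_nonneg _) hR0
      have j2 := mul_le_mul (hd x) i1 (abs_nonneg _) hδ
      have j3 : δ * R ^ s.card ≤ δ * R ^ s.card * R :=
        le_mul_of_one_le_right (mul_nonneg hδ hp) hR
      push_cast
      nlinarith

theorem vtc_avg {α : Type} (O : Finset α) (G G' : α → ℝ) {b : ℝ} (hb : 0 ≤ b)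
    (h : ∀ z, |G z - G' z| ≤ b) : |avg O G| ≤ |avg O G'| + b := by
  rcases O.eq_empty_or_nonempty with rfl | hO
  · simpa [avg] using hb
  · have e : avg O G = avg O G' + avg O fun z => G z - G' z := by
      simp only [avg, Finset.sum_sub_distrib]
      ring
    rw [e]
    exact (abs_add_le _ _).trans (add_le_add le_rfl (abs_avg_le hO _ fun z _ => h z))

theorem vtc_IN (hN : 0 < N) (φ φ' : ℍ →ᵇ ℝ) : |IN N φ - IN N φ'| ≤ ‖φ - φ'‖ := by
  have : NeZero N := ⟨hN.ne'⟩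
  have := mH_prob (Γ := CongruenceSubgroup.Gamma N)
  have e : IN N φ - IN N φ' = IN N (φ - φ') :=
    (integral_sub (φ.integrable _) (φ'.integrable _)).symm
  rw [e]
  exact abs_IN_le hN _

theorem eqd_of_approx (hN : 0 < N) {L : Filter ℕ} {F : IntermediateField ℚ ℂ}
    {τ : ℕ → Fin n → ℍ} {φ : Fin n → (ℍ →ᵇ ℝ)} {I : Finset (Fin n)}
    {ψ : ℕ → (Fin n × Fn → ℂ) → ℝ} (hψ : ∃ B, ∀ i z, |ψ i z| ≤ B)
    (h : ∀ ε : ℝ, 0 < ε → ∃ φ' : Fin n → (ℍ →ᵇ ℝ), (∀ k, ‖φ k - φ' k‖ ≤ ε) ∧ ∀ᶠ i in L,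
      |avg (ON N F (τ i)) fun z => ψ i z * (PT N F φ' I z - ∏ k ∈ I, IN N (φ' k))| ≤ ε) :
    Eqd L N F τ φ I ψ := by
  obtain ⟨B, hB⟩ := hψ
  have hB0 : 0 ≤ B := (abs_nonneg _).trans (hB 0 0)
  set R : ℝ := 1 + ∑ k, ‖φ k‖ with hRd
  have hs : ∀ k, ‖φ k‖ ≤ ∑ k, ‖φ k‖ := fun k =>
    Finset.single_le_sum (f := fun k => ‖φ k‖) (fun _ _ => norm_nonneg _) (Finset.mem_univ k)
  have hR : 1 ≤ R := le_add_of_nonneg_right (Finset.sum_nonneg fun _ _ => norm_nonneg _)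
  set C : ℝ := I.card * R ^ I.card with hCd
  have hC : 0 ≤ C := by positivity
  rw [Eqd, Metric.tendsto_nhds]
  intro ε hε
  have hq : 0 < 2 * (1 + B * (2 * C)) := by positivity
  set δ : ℝ := min 1 (ε / (2 * (1 + B * (2 * C)))) with hδd
  have hδ : 0 < δ := lt_min one_pos (div_pos hε hq)
  have hδ1 : δ ≤ 1 := min_le_left _ _
  have hδ2 : δ * (2 * (1 + B * (2 * C))) ≤ ε := (le_div_iff₀ hq).mp (min_le_right _ _)
  obtain ⟨φ', g1, g2⟩ := h δ hδ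
  have n1 : ∀ k, ‖φ k‖ ≤ R := fun k => by linarith [hs k]
  have n2 : ∀ k, ‖φ' k‖ ≤ R := fun k => by
    have e : φ' k = φ k - (φ k - φ' k) := by abel
    have := norm_sub_le (φ k) (φ k - φ' k)
    rw [← e] at this
    linarith [hs k, g1 k]
  filter_upwards [g2] with i hi
  rw [Real.dist_eq, sub_zero]
  have hb : 0 ≤ B * (2 * C * δ) := by positivity
  refine lt_of_le_of_lt (vtc_avg _ _
    (fun z => ψ i z * (PT N F φ' I z - ∏ k ∈ I, IN N (φ' k))) hb fun z => ?_) ?_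
  · have a1 := (vtc_prod I hR hδ.le (fun k => φ k (rp (MF N F) z k))
      (fun k => φ' k (rp (MF N F) z k))
      (fun k => ((φ k).norm_coe_le_norm _).trans (n1 k))
      (fun k => ((φ' k).norm_coe_le_norm _).trans (n2 k))
      (fun k => ((φ k - φ' k).norm_coe_le_norm _).trans (g1 k))).2
    have a2 := (vtc_prod I hR hδ.le (fun k => IN N (φ k)) (fun k => IN N (φ' k))
      (fun k => (abs_IN_le hN _).trans (n1 k)) (fun k => (abs_IN_le hN _).trans (n2 k))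
      (fun k => (vtc_IN hN _ _).trans (g1 k))).2
    rw [← mul_sub, abs_mul]
    refine mul_le_mul (hB i z) ?_ (abs_nonneg _) hB0
    have e : PT N F φ I z - ∏ k ∈ I, IN N (φ k) - (PT N F φ' I z - ∏ k ∈ I, IN N (φ' k)) =
        (PT N F φ I z - PT N F φ' I z) - (∏ k ∈ I, IN N (φ k) - ∏ k ∈ I, IN N (φ' k)) := by ring
    rw [e]
    refine (abs_sub _ _).trans ?_
    change |PT N F φ I z - PT N F φ' I z| ≤ C * δ at a1
    change _ ≤ C * δ at a2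
    linarith
  · nlinarith

theorem isog_conj {M : ℕ} (hM : 0 < M) : ∃ M', 0 < M' ∧ ∀ (a b : ℂ) (σ σ' : ℂ ≃+* ℂ),
    Isog M (σ a) (σ b) → Isog M' (σ' a) (σ' b) := by
  refine ⟨(M ^ 4).factorial, Nat.factorial_pos _, fun a b σ σ' h => ?_⟩
  obtain ⟨τ₁, h₁⟩ := jInv_surj (σ' a)
  obtain ⟨τ₂, h₂⟩ := jInv_surj (σ' b)
  have e : Isog M ((σ'.symm.trans σ) (jInv τ₁)) ((σ'.symm.trans σ) (jInv τ₂)) := by
    rw [h₁, h₂]
    simpa using h
  obtain ⟨a₀, d, b₀, ha, haM, hd, hdM, -, -, w, hw, hj⟩ := isog_gal _ hM e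
  have hdet : (!![(d : ℤ), b₀; 0, (a₀ : ℤ)] : MZ).det = ((d * a₀ : ℕ) : ℤ) := by
    rw [Matrix.det_fin_two_of]
    push_cast
    ring
  have hpos : 0 < (!![(d : ℤ), b₀; 0, (a₀ : ℤ)] : MZ).det := by
    rw [hdet]
    exact_mod_cast Nat.mul_pos hd ha
  have hact : act !![(d : ℤ), b₀; 0, (a₀ : ℤ)] τ₂ = w := by
    apply UpperHalfPlane.ext
    rw [coe_act hpos, hw]
    simp
  have g := isog_act hpos τ₂
  rw [hact, ← hj, h₁, h₂, hdet, Int.natAbs_natCast] at g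
  refine g.mono (Nat.dvd_factorial (Nat.mul_pos hd ha) ?_)
  calc d * a₀ ≤ M ^ 2 * M ^ 2 := Nat.mul_le_mul hdM haM
    _ = M ^ 4 := by ring

end Pool.Agent.EQ
end
end

-- part Pool.Agent.P.MP_ad7a55_nt.YHd
section

/-! A small zero-free disc gives many split primes at large scales. -/

set_option autoImplicit false

noncomputable section

open Finset
open scoped Classical ArithmeticFunction.vonMangoldt

namespace Pool.Agent.EQ

theorem logderiv6 {η : ℝ} (hη : 0 < η) (hη' : η ≤ 1 / 3) (f : ℂ → ℂ) (c : ℂ) (M : ℝ)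
    (hf : DifferentiableOn ℂ f (Metric.ball c (1 + η)))
    (h0 : ∀ z ∈ Metric.ball c (1 + η), f z ≠ 0) (hM : 1 ≤ M)
    (hb : ∀ z ∈ Metric.ball c (1 + η), ‖f z‖ ≤ M * ‖f c‖) (k : ℕ) :
    ‖iteratedDeriv k (fun z => deriv f z / f z) c‖ ≤
      50 / η ^ 2 * (Real.log M + 1) * k.factorial / (1 + η / 2) ^ k := by
  obtain ⟨h, hh, hn⟩ := xhd_prim (show 0 < 1 + η by linarith) hf h0 hM hb
  have hlog : 0 ≤ Real.log M := Real.log_nonneg hM
  have hδ : 0 < η / 4 := by linarith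
  have hg : DifferentiableOn ℂ (fun z => deriv f z / f z) (Metric.ball c (1 + η)) :=
    (hf.deriv Metric.isOpen_ball).div hf h0
  have hhd : DifferentiableOn ℂ h (Metric.ball c (1 + η)) :=
    fun z hz => (hh z hz).differentiableAt.differentiableWithinAt
  have hs : ∀ z ∈ Metric.sphere c (1 + η / 2), ‖deriv f z / f z‖ ≤
      50 / η ^ 2 * (Real.log M + 1) := by
    intro z hz
    have hz1 : dist z c = 1 + η / 2 := Metric.mem_sphere.1 hz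
    have hsub : Metric.closedBall z (η / 4) ⊆ Metric.ball c (1 + η) :=
      Metric.closedBall_subset_ball' (by linarith)
    rw [← (hh z (by rw [Metric.mem_ball]; linarith)).deriv]
    refine (Complex.norm_deriv_le_of_forall_mem_sphere_norm_le
      (C := 2 * (Real.log M + 1) * (1 + 3 * η / 4) / (1 + η - (1 + 3 * η / 4))) hδ
      (hhd.diffContOnCl_ball hsub) fun w hw => ?_).trans ?_
    · refine (hn w (hsub (Metric.sphere_subset_closedBall hw))).trans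
        (xhd_mono (by linarith) (norm_nonneg _) ?_ (by linarith))
      have h1 := dist_triangle w z c
      rw [Metric.mem_sphere.1 hw, hz1, dist_eq_norm] at h1
      linarith
    · have e : 2 * (Real.log M + 1) * (1 + 3 * η / 4) / (1 + η - (1 + 3 * η / 4)) / (η / 4) =
          32 * (1 + 3 * η / 4) / η ^ 2 * (Real.log M + 1) := by
        rw [show 1 + η - (1 + 3 * η / 4) = η / 4 by ring]
        field_simp
        ring
      rw [e]
      exact mul_le_mul_of_nonneg_right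
        (div_le_div_of_nonneg_right (by linarith) (by positivity)) (by linarith)
  refine (Complex.norm_iteratedDeriv_le_of_forall_mem_sphere_norm_le k
    (show 0 < 1 + η / 2 by linarith)
    (hg.diffContOnCl_ball (Metric.closedBall_subset_ball (by linarith))) hs).trans (le_of_eq ?_)
  ring

theorem sum_chi6 : ∃ C : ℝ, 0 < C ∧ ∀ η : ℝ, 0 < η → η ≤ 1 / 3 → ∀ (q : ℕ) [NeZero q]
    (χ : DirichletCharacter ℂ q), χ ≠ 1 → (∀ s : ℂ, ‖s - 2‖ < 1 + η → χ.LFunction s ≠ 0) →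
    ∀ k : ℕ, ‖∑' n : ℕ, χ n * ((Λ n * Real.log n ^ k / (n : ℝ) ^ 2 : ℝ) : ℂ)‖ ≤
      C / η ^ 2 * (Real.log q + 1) * k.factorial / (1 + η / 2) ^ k := by
  refine ⟨500, by norm_num, ?_⟩
  intro η he he2 q _ χ hχ hz k
  have hq : (1 : ℝ) ≤ q := by exact_mod_cast Nat.pos_of_ne_zero (NeZero.ne q)
  have h1 := logderiv6 he he2 χ.LFunction 2 (10 * q)
    (χ.differentiable_LFunction hχ).differentiableOn
    (fun s hs => hz s (mem_ball_iff_norm.1 hs)) (by linarith)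
    (fun s hs => by
      have h2 := L_ball hχ (s := s) (Metric.ball_subset_closedBall
        (Metric.ball_subset_ball (by linarith) hs))
      have h3 := mul_le_mul_of_nonneg_left (xhd_two χ) (show (0 : ℝ) ≤ 5 * q by linarith)
      linarith) k
  have h2 : (fun z => deriv χ.LFunction z / χ.LFunction z) =ᶠ[nhds 2]
      fun z => -LSeries (fun n : ℕ => χ n * (Λ n : ℂ)) z := by
    filter_upwards [xhd_nhds] with s hs
    have h3 : χ.LFunction =ᶠ[nhds s] LSeries fun n : ℕ => χ n := by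
      filter_upwards [(isOpen_lt continuous_const Complex.continuous_re).mem_nhds hs] with w hw
      exact χ.LFunction_eq_LSeries hw
    have h4 : LSeries (fun n : ℕ => χ n * (Λ n : ℂ)) s = _ :=
      χ.LSeries_twist_vonMangoldt_eq hs
    rw [h4, h3.deriv_eq, χ.LFunction_eq_LSeries hs, neg_div, neg_neg]
  rw [h2.iteratedDeriv_eq, iteratedDeriv_fun_neg, norm_neg,
    xhd_deriv (fun n : ℕ => χ n) (fun s hs => χ.LSeriesSummable_twist_vonMangoldt hs) k,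
    norm_mul, norm_pow, norm_neg, norm_one, one_pow, one_mul] at h1
  refine h1.trans (div_le_div_of_nonneg_right
    (mul_le_mul_of_nonneg_right ?_ (Nat.cast_nonneg _)) (by positivity))
  rw [show (500 : ℝ) / η ^ 2 = 50 / η ^ 2 * 10 by ring, mul_assoc]
  refine mul_le_mul_of_nonneg_left ?_ (by positivity)
  have h5 : Real.log 10 ≤ 10 - 1 := Real.log_le_sub_one_of_pos (by norm_num)
  have h6 := Real.log_nonneg hq
  rw [Real.log_mul (by norm_num) (by linarith)]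
  linarith

theorem yhd_ev (B : ℕ) (a b : ℝ) : ∃ X₀ : ℝ, ∀ X : ℝ, X₀ ≤ X →
    Real.log X ^ B ≤ X / 3 ∧ a ≤ X ∧ b ≤ Real.log X := by
  have h1 := (Real.isLittleO_pow_log_id_atTop (n := B)).bound (show (0 : ℝ) < 1 / 3 by norm_num)
  have h2 := Real.tendsto_log_atTop.eventually_ge_atTop b
  obtain ⟨X₀, h⟩ := Filter.eventually_atTop.1
    (h1.and ((Filter.eventually_ge_atTop a).and (h2.and (Filter.eventually_ge_atTop 0))))
  refine ⟨X₀, fun X hX => ?_⟩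
  obtain ⟨a1, a2, a3, a4⟩ := h X hX
  refine ⟨?_, a2, a3⟩
  rw [id, Real.norm_of_nonneg a4] at a1
  exact ((le_abs_self _).trans a1).trans (le_of_eq (by ring))

theorem yhd_exp {η : ℝ} (h0 : 0 ≤ η) (h1 : η ≤ 1 / 3) : Real.exp (η / 3) ≤ 1 + η / 2 := by
  have h2 := Real.abs_exp_sub_one_sub_id_le (x := η / 3) (by rw [abs_of_nonneg] <;> linarith)
  have h3 := (abs_le.1 h2).2
  nlinarith

theorem yhd_exp5 : Real.exp (1 / 5) ≤ 5 / 4 := by
  have h2 := Real.abs_exp_sub_one_sub_id_le (x := 1 / 5) (by rw [abs_of_nonneg] <;> norm_num)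
  have h3 := (abs_le.1 h2).2
  linarith

theorem many_of_ZF6 (B : ℕ) : ∃ (A : ℕ) (X₀ : ℝ), ∀ (m : ℕ) (X : ℝ), X₀ ≤ X → 0 < m →
    Real.log m ≤ X → ZF (Real.log X ^ (B + 2) / X) m → ManyT A m (thr B X) := by
  obtain ⟨C₁, hC₁, h1⟩ := sum_chi6
  obtain ⟨C₂, ρ₂, hC₂, hρ₂, h2⟩ := sum_zeta
  obtain ⟨C₃, hC₃, h3⟩ := sum_split
  obtain ⟨X₀, hX₀⟩ := yhd_ev (B + 2) (8 * C₁ + 4 * (C₃ + 64)) (2 + 4 * C₂ / (ρ₂ - 1))
  refine ⟨45, X₀, fun m X hX m0 hm hZ t ht => ?_⟩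
  obtain ⟨x1, x2, x3⟩ := hX₀ X hX
  have r0 : 0 < ρ₂ - 1 := by linarith
  have x4 : 0 < 4 * C₂ / (ρ₂ - 1) := by positivity
  have xp : 3 ≤ X := by linarith
  have x0 : 0 < X := by linarith
  obtain ⟨l, hl⟩ : ∃ l, l = Real.log X := ⟨_, rfl⟩
  unfold thr at ht
  rw [← hl] at x1 x3 hZ ht
  have l2 : 2 ≤ l := by linarith
  have lB : 0 < l ^ B := by positivity
  obtain ⟨η, hη⟩ : ∃ η, η = l ^ (B + 2) / X := ⟨_, rfl⟩
  rw [← hη] at hZ
  have e0 : 0 < η := by rw [hη]; positivity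
  have e1 : η ≤ 1 / 3 := by rw [hη, div_le_iff₀ x0]; linarith
  have e2 : 1 ≤ η * X := by
    rw [hη, div_mul_cancel₀ _ x0.ne']
    exact one_le_pow₀ (by linarith)
  have e3 : l ^ 2 ≤ η * Real.log t := by
    refine le_trans (le_of_eq ?_) (mul_le_mul_of_nonneg_left ht e0.le)
    rw [hη]
    field_simp
    ring
  have t4 : l ≤ Real.log t := by nlinarith
  have t0 : (0 : ℝ) < t := by
    rcases Nat.eq_zero_or_pos t with rfl | h
    · simp only [Nat.cast_zero, Real.log_zero] at t4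
      linarith
    · exact_mod_cast h
  have t1 : X ≤ t := by
    rw [hl] at t4
    exact (Real.log_le_log_iff x0 t0).1 t4
  by_contra t2
  obtain ⟨k, hk⟩ : ∃ k : ℕ, k = ⌈10 * Real.log t⌉₊ := ⟨_, rfl⟩
  have k0 : 0 < k := by
    rw [hk]
    exact Nat.ceil_pos.2 (by linarith)
  have k1 : 10 * Real.log t ≤ k := by
    rw [hk]
    exact Nat.le_ceil _
  have k2 : (k : ℝ) ≤ 10 * Real.log t + 1 := by
    have := Nat.ceil_lt_add_one (show 0 ≤ 10 * Real.log t by linarith)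
    rw [← hk] at this
    linarith
  have k4 : Real.exp (4 * k) ≤ ((t ^ 45 : ℕ) : ℝ) := by
    rw [Nat.cast_pow, ← Real.le_log_iff_exp_le (by positivity), Real.log_pow]
    push_cast
    linarith
  have w1 : 1 / (1 + η / 2) ^ k ≤ 1 / X ^ 4 := by
    refine one_div_le_one_div_of_le (by positivity)
      (le_trans ?_ (pow_le_pow_left₀ (Real.exp_pos _).le (yhd_exp e0.le e1) k))
    rw [← Real.exp_nat_mul, ← Real.log_le_iff_le_exp (by positivity), Real.log_pow, ← hl]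
    have := mul_le_mul_of_nonneg_left k1 e0.le
    push_cast
    nlinarith
  have w2 : C₂ * (1 / ρ₂ ^ k) ≤ 1 / 4 := by
    have a1 := one_add_mul_le_pow (show (-2 : ℝ) ≤ ρ₂ - 1 by linarith) k
    rw [add_sub_cancel] at a1
    have a2 : 4 * C₂ / (ρ₂ - 1) ≤ k := by linarith
    rw [div_le_iff₀ r0] at a2
    rw [mul_one_div, div_le_iff₀ (by positivity)]
    linarith
  have w3 : (4 / 5 : ℝ) ^ k ≤ 1 / (t : ℝ) ^ 2 := by
    rw [show (4 / 5 : ℝ) = 1 / (5 / 4) by norm_num, one_div_pow]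
    refine one_div_le_one_div_of_le (by positivity)
      (le_trans ?_ (pow_le_pow_left₀ (Real.exp_pos _).le yhd_exp5 k))
    rw [← Real.exp_nat_mul, ← Real.log_le_iff_le_exp (by positivity), Real.log_pow]
    push_cast
    linarith
  have b1 := (xhe_low m0 hZ (h1 η e0 e1) (h2 k)).trans (h3 m k (t ^ 45) m0 k0 k4)
  have f0 : (0 : ℝ) < k.factorial := by exact_mod_cast k.factorial_pos
  have l4 : Real.log 4 ≤ 2 := by
    rw [show (4 : ℝ) = 2 ^ 2 by norm_num, Real.log_pow]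
    push_cast
    linarith [Real.log_two_lt_d9]
  have b2 : k.factorial * (C₁ / η ^ 2 * (Real.log 4 - 2) * (1 / (1 + η / 2) ^ k)) ≤ 0 :=
    mul_nonpos_of_nonneg_of_nonpos f0.le (mul_nonpos_of_nonpos_of_nonneg
      (mul_nonpos_of_nonneg_of_nonpos (by positivity) (by linarith)) (by positivity))
  have b3 := le_of_mul_le_mul_left ((le_sub_self_iff _).2 b2 |>.trans b1) f0
  have t5 : (nSp m (t ^ 45) : ℝ) ≤ t := by exact_mod_cast (not_le.1 t2).le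
  have lm : 0 ≤ Real.log m := Real.log_natCast_nonneg m
  have c0 : C₁ / η ^ 2 ≤ C₁ * X ^ 2 := by
    rw [div_le_iff₀ (by positivity), mul_assoc, ← mul_pow]
    exact le_mul_of_one_le_right hC₁.le (one_le_pow₀ (by linarith))
  have c2 : C₁ / η ^ 2 * (Real.log m + 3) * (1 / (1 + η / 2) ^ k) ≤ 1 / 4 := by
    refine (mul_le_mul (mul_le_mul c0 (show Real.log m + 3 ≤ 2 * X by linarith) (by linarith)
      (by positivity)) w1 (by positivity) (by positivity)).trans ?_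
    rw [show C₁ * X ^ 2 * (2 * X) * (1 / X ^ 4) = 2 * C₁ / X by field_simp, div_le_iff₀ x0]
    linarith
  have c3 : C₃ * (4 / 5) ^ k ≤ C₃ * (1 / (t : ℝ) ^ 2) := mul_le_mul_of_nonneg_left w3 hC₃.le
  have c4 : (nSp m (t ^ 45) + 2 * Real.log m + 1) * (8 * k / 2 ^ k : ℝ)
      ≤ 4 * t * (16 * (1 / (t : ℝ) ^ 2)) :=
    mul_le_mul (by linarith) ((xhe_k k).trans (by linarith)) (by positivity) (by positivity)
  have c5 : 1 / 2 ≤ (C₃ + 64 * t) * (1 / (t : ℝ) ^ 2) := by linarith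
  rw [mul_one_div, le_div_iff₀ (by positivity)] at c5
  have c6 : 4 * (C₃ + 64) ≤ t := by linarith
  nlinarith

theorem noZero_of_ZF6 (B : ℕ) (c : ℝ) : ∃ X₀ : ℝ, ∀ (m : ℕ) (X : ℝ), X₀ ≤ X →
    thr B X ≤ Real.log m → ZF (Real.log X ^ (B + 2) / X) m → NoZero c (-(m : ℤ)) := by
  obtain ⟨X₀, hX₀⟩ := yhd_ev 0 1 (|c| + 1)
  refine ⟨X₀, fun m X hX hm hZ q _ χ hq hχ β hβ hβ1 => ?_⟩
  obtain ⟨-, x2, x3⟩ := hX₀ X hX
  have x0 : 0 < X := by linarith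
  have e0 : (-(m : ℤ)).natAbs = m := by simp
  rw [e0] at hq
  refine hZ q χ hq hχ β ?_
  unfold thr at hm
  obtain ⟨l, hl⟩ : ∃ l, l = Real.log X := ⟨_, rfl⟩
  rw [← hl] at x3 hm ⊢
  have c0 := abs_nonneg c
  have c1 := le_abs_self c
  have l1 : 0 < l := by linarith
  have m0 : 0 < m := Nat.pos_of_ne_zero fun e => NeZero.ne q (by omega)
  have a1 : Real.log m ≤ Real.log q :=
    Real.log_le_log (by exact_mod_cast m0) (by exact_mod_cast (show m ≤ q by omega))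
  have a3 : 0 < X / l ^ B := by positivity
  have a4 : 0 < l ^ (B + 2) / X := by positivity
  have a2 : c / Real.log q < l ^ (B + 2) / X := by
    rw [div_lt_iff₀ (by linarith)]
    refine lt_of_lt_of_le ?_ (mul_le_mul_of_nonneg_left (hm.trans a1) a4.le)
    rw [show l ^ (B + 2) / X * (X / l ^ B) = l ^ 2 by field_simp; ring]
    nlinarith
  rw [show (β : ℂ) - 2 = ((β - 2 : ℝ) : ℂ) by push_cast; ring, Complex.norm_real, Real.norm_eq_abs,
    abs_of_neg (by linarith)]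
  linarith

end Pool.Agent.EQ
end
end

-- part Pool.Agent.P.MP_ad7a55_nt.TFc
section

/-! The proportion of exceptional points in a Galois orbit. -/

set_option autoImplicit false

noncomputable section

open Finset Matrix UpperHalfPlane

namespace Pool.Agent.EQ

theorem tfc_core (F : IntermediateField ℚ ℂ) [FiniteDimensional ℚ F] {n : ℕ} {τ : Fin n → ℍ}
    {D : Fin n → ℤ} (hτ : ∀ k, HasDisc (τ k) (D k)) (k l : Fin n) {E : ℤ} {g₁ g₂ : ℕ} (hE : IsD E)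
    (hg : Nat.Coprime g₁ g₂) (e1 : D k = g₁ ^ 2 * E) (e2 : D l = g₂ ^ 2 * E) (b1 : D k < -576)
    (b2 : D l < -576) {S : Set (ℂ × ℂ)} (hS : S.Finite) {A : Set (Fin n → ℂ)}
    (hA : ∀ z ∈ A, z ∈ (galOrbit F fun k => jInv (τ k)) ∧ (z k, z l) ∈ S) :
    (A.ncard : ℝ) * (Cl ((g₁ * g₂ : ℕ) ^ 2 * E)).ncard ≤
      15 * Module.finrank ℚ F * S.ncard * (galOrbit F fun k => jInv (τ k)).ncard := by
  have hO := orbit_finite F hτ
  have hfin : (orb2 F (jInv (τ k)) (jInv (τ l))).Finite := by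
    refine (hO.image fun z => (z k, z l)).subset ?_
    rintro _ ⟨σ, hσ, rfl⟩
    exact ⟨_, ⟨σ, hσ, rfl⟩, rfl⟩
  have a2 := orbit_lower hE hg (e1 ▸ discL_one (hτ k)) (e2 ▸ discL_one (hτ l)) (e1 ▸ b1) (e2 ▸ b2)
  rw [jL_one, jL_one] at a2
  have a3 : ((Cl ((g₁ * g₂ : ℕ) ^ 2 * E)).ncard : ℝ) ≤
      15 * (Module.finrank ℚ F * (orb2 F (jInv (τ k)) (jInv (τ l))).ncard) := by
    exact_mod_cast a2.trans (Nat.mul_le_mul_left _ (card_orb2_bot F hfin).2)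
  have a5 : (A.ncard : ℝ) * (orb2 F (jInv (τ k)) (jInv (τ l))).ncard ≤
      S.ncard * (galOrbit F fun k => jInv (τ k)).ncard := by
    exact_mod_cast (Nat.mul_le_mul_right _ (Set.ncard_le_ncard (fun z hz => hA z hz)
      (hO.subset fun z hz => hz.1))).trans (frac_le hO k l hS)
  have a6 := mul_le_mul_of_nonneg_left a3 (Nat.cast_nonneg (α := ℝ) A.ncard)
  have a7 := mul_le_mul_of_nonneg_left a5
    (show (0 : ℝ) ≤ 15 * Module.finrank ℚ F by positivity)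
  linarith

theorem tfc_fin {A O S c H K L δ : ℝ} (hA : A * c ≤ K * S * O)
    (hS : S ≤ δ / (K * (|L| + 1)) * H) (hH : H ≤ L * c) (hH0 : 0 < H) (hc : 0 ≤ c) (hK : 0 < K)
    (hO : 0 ≤ O) (hδ : 0 < δ) : A ≤ δ * O := by
  have hc0 : 0 < c := by
    refine lt_of_le_of_ne hc fun h => ?_
    rw [← h, mul_zero] at hH
    linarith
  have h1 : H ≤ (|L| + 1) * c :=
    hH.trans (mul_le_mul_of_nonneg_right (by linarith [le_abs_self L]) hc)
  have h2 := hS.trans (mul_le_mul_of_nonneg_left h1 (by positivity))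
  have h3 := mul_le_mul_of_nonneg_right (mul_le_mul_of_nonneg_left h2 hK.le) hO
  have h4 : K * (δ / (K * (|L| + 1)) * ((|L| + 1) * c)) * O = δ * O * c := by field_simp
  exact le_of_mul_le_mul_right (by linarith) hc0

theorem tfc_HH {D : ℤ} (hD : IsD D) : 0 < HH D :=
  mul_pos (Real.sqrt_pos.2 (by linarith [tti_three hD])) (EE_pos _ _)

theorem tfc_rank (F : IntermediateField ℚ ℂ) [FiniteDimensional ℚ F] :
    (0 : ℝ) < 15 * Module.finrank ℚ F := by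
  have hd : (0 : ℝ) < Module.finrank ℚ F := by exact_mod_cast Module.finrank_pos
  positivity

theorem orbit_one (F : IntermediateField ℚ ℂ) [FiniteDimensional ℚ F] {n : ℕ} {τ : Fin n → ℍ}
    {D : Fin n → ℤ} (h : ∀ k, HasDisc (τ k) (D k)) (k : Fin n) (hk : D k < -576) {S : Set ℂ}
    (hS : S.Finite) :
    ({z | z ∈ (galOrbit F fun k => jInv (τ k)) ∧ z k ∈ S}.ncard : ℝ) * (Cl (D k)).ncard ≤
      15 * Module.finrank ℚ F * S.ncard * (galOrbit F fun k => jInv (τ k)).ncard := by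
  have h1 := tfc_core F h k k (g₁ := 1) (g₂ := 1) (h k).isD (Nat.coprime_one_left 1) (by simp)
    (by simp) hk hk (hS.image fun z => (z, z))
    (A := {z | z ∈ (galOrbit F fun k => jInv (τ k)) ∧ z k ∈ S}) fun z hz => ⟨hz.1, z k, hz.2, rfl⟩
  rw [Set.ncard_image_of_injective _ fun a b hab => congrArg Prod.fst hab] at h1
  simpa using h1

theorem orbit_two (F : IntermediateField ℚ ℂ) [FiniteDimensional ℚ F] {n : ℕ} {τ : Fin n → ℍ}
    {D : Fin n → ℤ} (h : ∀ k, HasDisc (τ k) (D k)) (k : Fin n) (hk : D k < -576)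
    {S : Set (ℂ × ℂ)} (hS : S.Finite) :
    ({w : (Fin n → ℂ) × (Fin n → ℂ) | w.1 ∈ (galOrbit F fun k => jInv (τ k)) ∧
        w.2 ∈ (galOrbit F fun k => jInv (τ k)) ∧ (w.1 k, w.2 k) ∈ S}.ncard : ℝ) *
        (Cl (D k)).ncard ^ 2 ≤
      (15 * Module.finrank ℚ F) ^ 2 * S.ncard * (galOrbit F fun k => jInv (τ k)).ncard ^ 2 := by
  have hO := orbit_finite F h
  obtain ⟨A, hA⟩ : ∃ A : ℂ → Set (Fin n → ℂ), A = fun a =>
      {z | z ∈ (galOrbit F fun k => jInv (τ k)) ∧ z k ∈ ({a} : Set ℂ)} := ⟨_, rfl⟩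
  have hAf : ∀ a, (A a).Finite := fun a => hO.subset (by rw [hA]; exact fun z hz => hz.1)
  have h1 : ∀ a, ((A a).ncard : ℝ) * (Cl (D k)).ncard ≤
      15 * Module.finrank ℚ F * (galOrbit F fun k => jInv (τ k)).ncard := fun a => by
    have := orbit_one F h k hk (Set.finite_singleton a)
    rw [Set.ncard_singleton, Nat.cast_one, mul_one] at this
    rw [hA]
    exact this
  have h2 : {w : (Fin n → ℂ) × (Fin n → ℂ) | w.1 ∈ (galOrbit F fun k => jInv (τ k)) ∧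
      w.2 ∈ (galOrbit F fun k => jInv (τ k)) ∧ (w.1 k, w.2 k) ∈ S}.ncard ≤
      ∑ s ∈ hS.toFinset, (A s.1).ncard * (A s.2).ncard := by
    refine le_trans (Set.ncard_le_ncard (t := ⋃ s ∈ hS.toFinset, A s.1 ×ˢ A s.2) ?_
      (Set.Finite.biUnion (Finset.finite_toSet _) fun s _ => (hAf _).prod (hAf _))) ?_
    · rintro w ⟨a1, a2, a3⟩
      refine Set.mem_biUnion (hS.mem_toFinset.2 a3) ?_
      rw [hA]
      exact ⟨⟨a1, rfl⟩, a2, rfl⟩
    · exact (Finset.set_ncard_biUnion_le _ _).trans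
        (Finset.sum_le_sum fun s _ => Set.ncard_prod.le)
  have h3 := mul_le_mul_of_nonneg_right ((Nat.cast_le (α := ℝ)).2 h2)
    (sq_nonneg ((Cl (D k)).ncard : ℝ))
  refine h3.trans ?_
  rw [Nat.cast_sum, Finset.sum_mul]
  refine (Finset.sum_le_card_nsmul _ _ ((15 * Module.finrank ℚ F *
    (galOrbit F fun k => jInv (τ k)).ncard : ℝ) ^ 2) fun s _ => ?_).trans (le_of_eq ?_)
  · refine le_trans (le_of_eq ?_) ((mul_le_mul (h1 s.1) (h1 s.2) (by positivity)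
      (by positivity)).trans_eq (sq _).symm)
    push_cast
    ring
  · rw [nsmul_eq_mul, ← Set.ncard_eq_toFinset_card _ hS]
    ring

variable (p : ℕ) [Fact p.Prime]

theorem frac_bad1' (F : IntermediateField ℚ ℂ) [FiniteDimensional ℚ F] (C L : ℝ) {δ : ℝ}
    (hδ : 0 < δ) : ∃ r : ℕ, ∀ (n : ℕ) (τ : Fin n → ℍ) (D : Fin n → ℤ),
      (∀ k, HasDisc (τ k) (D k)) → ∀ k, D k < -576 → Low L (D k) →
      ‖(D k : ℚ_[p])‖ ≤ (p : ℝ) ^ (-(r : ℤ)) →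
      ({z | z ∈ (galOrbit F fun k => jInv (τ k)) ∧ Bad1 p C (D k) (z k)}.ncard : ℝ) ≤
        δ * (galOrbit F fun k => jInv (τ k)).ncard := by
  have hp : p.Prime := Fact.out
  have hp1 : (1 : ℝ) < p := by exact_mod_cast hp.one_lt
  have hK := tfc_rank F
  obtain ⟨m, hm⟩ := Sh_dvd hp C (δ := δ / (15 * Module.finrank ℚ F * (|L| + 1))) (by positivity)
  obtain ⟨s, hs⟩ := pow_unbounded_of_one_lt C hp1
  refine ⟨m + s, fun n τ D hτ k hk hL hD => ?_⟩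
  refine le_trans ?_ (tfc_fin (orbit_one F hτ k hk (tti_finite (D k) C (p ^ m))) (hm _ (hτ k).isD)
    (hL _ (hτ k).isD ⟨_, rfl⟩) (tfc_HH (hτ k).isD) (Nat.cast_nonneg _) hK (Nat.cast_nonneg _) hδ)
  refine Nat.cast_le.2 (Set.ncard_le_ncard ?_ ((orbit_finite F hτ).subset fun z hz => hz.1))
  rintro z ⟨hz, a, -, a1, a2, a3⟩
  refine ⟨hz, a, a1, ?_, a3⟩
  have h1 : ‖((a : ℤ) : ℚ_[p])‖ ≤ (p : ℝ) ^ (-(m : ℤ)) := by
    rw [Int.cast_natCast]
    refine a2.trans ((mul_le_mul hs.le hD (norm_nonneg _) (by positivity)).trans_eq ?_)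
    rw [← zpow_natCast, ← zpow_add₀ (by positivity)]
    congr 1
    push_cast
    ring
  exact_mod_cast (Padic.norm_int_le_pow_iff_dvd _ _).1 h1

omit [Fact p.Prime] in
theorem frac_sh (F : IntermediateField ℚ ℂ) [FiniteDimensional ℚ F] (L : ℝ) {δ : ℝ}
    (hδ : 0 < δ) : ∃ t Y : ℝ, 0 < t ∧ ∀ (n : ℕ) (τ : Fin n → ℍ) (D : Fin n → ℤ),
      (∀ k, HasDisc (τ k) (D k)) → ∀ k, D k < -576 → Low L (D k) → Y ≤ -(D k : ℝ) →
      ({z | z ∈ (galOrbit F fun k => jInv (τ k)) ∧ z k ∈ Sh (D k) t 1}.ncard : ℝ) ≤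
        δ * (galOrbit F fun k => jInv (τ k)).ncard := by
  have hK := tfc_rank F
  obtain ⟨K, hK0, hS⟩ := Sh_le
  obtain ⟨t, ht⟩ : ∃ t : ℝ, t = δ / (15 * Module.finrank ℚ F * (|L| + 1)) / K := ⟨_, rfl⟩
  have ht0 : 0 < t := by rw [ht]; positivity
  refine ⟨t, max (1 / t ^ 4) t, ht0, fun n τ D hτ k hk hL hY => ?_⟩
  refine tfc_fin (orbit_one F hτ k hk (tti_finite (D k) t 1)) ?_
    (hL _ (hτ k).isD ⟨_, rfl⟩) (tfc_HH (hτ k).isD) (Nat.cast_nonneg _) hK (Nat.cast_nonneg _) hδ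
  refine (hS _ t (hτ k).isD ?_ ht0.le ((le_max_right _ _).trans hY)).trans_eq ?_
  · have := (le_max_left _ _).trans hY
    rwa [div_le_iff₀' (by positivity)] at this
  · rw [ht, mul_div_cancel₀ _ hK0.ne']

theorem frac_bad3 (F : IntermediateField ℚ ℂ) [FiniteDimensional ℚ F] {m : ℤ} (hm : m ≠ 0)
    (C L : ℝ) (c : ℕ) {δ : ℝ} (hδ : 0 < δ) : ∃ r N₀ : ℕ, 0 < N₀ ∧ ∀ (n : ℕ) (τ : Fin n → ℍ)
      (D : Fin n → ℤ), (∀ k, HasDisc (τ k) (D k)) → ∀ (k l : Fin n) (ρ₁ ρ₂ : ℚ), D k < -576 →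
      D l < -576 → 0 < ρ₁ → 0 < ρ₂ → ρ₁ ^ 2 * D k = ρ₂ ^ 2 * D l →
      ‖(ρ₁ : ℚ_[p])‖ ≤ (p : ℝ) ^ c * ‖(ρ₂ : ℚ_[p])‖ → ‖(ρ₂ : ℚ_[p])‖ ≤ (p : ℝ) ^ c * ‖(ρ₁ : ℚ_[p])‖ →
      Low L (D k) → (∀ σ : ℂ ≃+* ℂ, ¬ Isog N₀ (σ (jInv (τ k))) (σ (jInv (τ l)))) →
      ({z | z ∈ (galOrbit F fun k => jInv (τ k)) ∧ ∃ M₁ M₂, DiscL M₁ (D k) ∧ DiscL M₂ (D l) ∧
        jL M₁ = z k ∧ jL M₂ = z l ∧ Bad3 p m C r (D k) (D l) M₁ M₂}.ncard : ℝ) ≤
        δ * (galOrbit F fun k => jInv (τ k)).ncard := by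
  have hp : p.Prime := Fact.out
  have hp1 : (1 : ℝ) < p := by exact_mod_cast hp.one_lt
  have hK := tfc_rank F
  obtain ⟨r, N₀, hN, hex⟩ := ex4_le p hm C (2 * c)
    (δ := δ / (15 * Module.finrank ℚ F * (|L| + 1)) / 2) (by positivity)
  refine ⟨r, N₀, hN, fun n τ D hτ k l ρ₁ ρ₂ hk hl h₁ h₂ hρ n₁ n₂ hL hI => ?_⟩
  obtain ⟨E, g₁, g₂, hE, p₁, p₂, hg, e₁, e₂, hr⟩ := split_disc (hτ k).isD (hτ l).isD h₁ h₂ hρ
  have hn : ‖(ρ₁ : ℚ_[p])‖ * ‖(g₁ : ℚ_[p])‖ = ‖(ρ₂ : ℚ_[p])‖ * ‖(g₂ : ℚ_[p])‖ := by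
    rw [← norm_mul, ← norm_mul]
    exact congrArg _ (by exact_mod_cast congrArg (fun q : ℚ => (q : ℚ_[p])) hr)
  have r₁ : 0 < ‖(ρ₁ : ℚ_[p])‖ := norm_pos_iff.2 (by exact_mod_cast h₁.ne')
  have r₂ : 0 < ‖(ρ₂ : ℚ_[p])‖ := norm_pos_iff.2 (by exact_mod_cast h₂.ne')
  have u₁ : (p : ℝ) ^ (-(c : ℤ)) ≤ ‖(g₁ : ℚ_[p])‖ := ctg_unit p hg (le_of_mul_le_mul_left (by
    have := mul_le_mul_of_nonneg_right n₁ (norm_nonneg (g₁ : ℚ_[p]))
    linarith) r₂)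
  have u₂ : (p : ℝ) ^ (-(c : ℤ)) ≤ ‖(g₂ : ℚ_[p])‖ := ctg_unit p hg.symm (le_of_mul_le_mul_left (by
    have := mul_le_mul_of_nonneg_right n₂ (norm_nonneg (g₂ : ℚ_[p]))
    linarith) r₁)
  have hv : padicValNat p (g₁ * g₂) ≤ 2 * c := by
    by_contra hv
    have h1 : p ^ (2 * c + 1) ∣ g₁ * g₂ :=
      (padicValNat_dvd_iff_le (Nat.mul_pos p₁ p₂).ne').2 (by omega)
    have h2 := (Padic.norm_int_le_pow_iff_dvd (p := p) ((g₁ * g₂ : ℕ) : ℤ) (2 * c + 1)).2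
      (by exact_mod_cast h1)
    rw [Int.cast_natCast, Nat.cast_mul, norm_mul] at h2
    have h3 := (mul_le_mul u₁ u₂ (by positivity) (norm_nonneg _)).trans h2
    rw [← zpow_add₀ (by positivity), zpow_le_zpow_iff_right₀ hp1] at h3
    push_cast at h3
    omega
  have hb := hex E g₁ g₂ hE p₁ p₂ hg hv
  obtain ⟨w, w', hw⟩ := orbit_classes hE hg (e₁ ▸ discL_one (hτ k)) (e₂ ▸ discL_one (hτ l))
    (e₁ ▸ hk) (e₂ ▸ hl)
  have hf : ∀ w, {z | z ∈ Ex4 p m C r E g₁ g₂ w ∧ ¬ Isog N₀ z.1 z.2}.Finite := fun w => by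
    refine ((Cl_finite (g₁ ^ 2 * E)).prod (Cl_finite (g₂ ^ 2 * E))).subset ?_
    rintro z ⟨⟨M₁, M₂, a₁, a₂, b₁, b₂, -⟩, -⟩
    exact ⟨⟨M₁, a₁, b₁⟩, ⟨M₂, a₂, b₂⟩⟩
  have hD := cm_isD_sq hE (Nat.mul_pos p₁ p₂)
  refine tfc_fin (tfc_core F hτ k l hE hg e₁ e₂ hk hl ((hf w).union (hf w')) ?_) ?_
    (hL _ hD ⟨g₁ * (g₁ * g₂ : ℕ) * E, by rw [e₁]; ring⟩) (tfc_HH hD) (Nat.cast_nonneg _) hK
    (Nat.cast_nonneg _) hδ
  · rintro z ⟨hz, M₁, M₂, m₁, m₂, j₁, j₂, hbad⟩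
    refine ⟨hz, ?_⟩
    obtain ⟨σ, -, rfl⟩ := hz
    rw [e₁] at m₁ hbad
    rw [e₂] at m₂ hbad
    exact (hw σ M₁ M₂ m₁.isLat m₂.isLat (by rw [j₁, jL_one]) (by rw [j₂, jL_one])).imp
      (fun h => ⟨⟨M₁, M₂, m₁, m₂, j₁, j₂, h, hbad⟩, hI σ⟩)
      fun h => ⟨⟨M₁, M₂, m₁, m₂, j₁, j₂, h, hbad⟩, hI σ⟩
  · have h3 := (Nat.cast_le (α := ℝ)).2 (Set.ncard_union_le
      {z | z ∈ Ex4 p m C r E g₁ g₂ w ∧ ¬ Isog N₀ z.1 z.2}
      {z | z ∈ Ex4 p m C r E g₁ g₂ w' ∧ ¬ Isog N₀ z.1 z.2})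
    rw [Nat.cast_add] at h3
    linarith [hb w, hb w']

theorem Bad2.bad3 {n : ℤ} {c r : ℕ} {D₁ D₂ : ℤ} {M₁ M₂ : Lt} (h : Bad2 p n c D₁ D₂ M₁ M₂)
    (hD : ‖(D₂ : ℚ_[p])‖ ≤ (p : ℝ) ^ (-((r + c : ℕ) : ℤ))) :
    Bad3 p n ((p : ℝ) ^ c) r D₁ D₂ M₁ M₂ := by
  have hp : (0 : ℝ) < p := by exact_mod_cast (Fact.out : p.Prime).pos
  obtain ⟨α, β, B, hB, h1, h2, h3, h4, h5, h6, -⟩ := h
  refine ⟨α, β, B, by exact_mod_cast hB, ⟨h1, by exact_mod_cast h2, h3, h4, h5⟩, ?_⟩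
  rw [Int.cast_natCast]
  refine h6.trans ((mul_le_mul_of_nonneg_left hD (by positivity)).trans_eq ?_)
  rw [mul_right_comm, ← zpow_natCast, ← zpow_add₀ hp.ne']
  congr 2
  push_cast
  ring

end Pool.Agent.EQ
end
end
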