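import Pool.Agent.K.MP_ad7a55_nt.C53
import Pool.Agent.K.MP_ad7a55_nt.C69
import Pool.Agent.K.MP_ad7a55_nt.C51
import Pool.Agent.K.MP_ad7a55_nt.C70
import Mathlib.NumberTheory.ModularForms.ProperlyDiscontinuous
import Mathlib.Topology.ContinuousMap.StoneWeierstrass
import Mathlib.MeasureTheory.Integral.Pi
import Pool.Agent.K.MP_ad7a55_nt.C63
import Pool.Agent.K.MP_ad7a55_nt.C68
import Pool.Agent.K.MP_ad7a55_nt.C16
import Pool.Agent.K.MP_ad7a55_nt.C46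
import Pool.Agent.K.MP_ad7a55_nt.C66
import Pool.Agent.K.MP_ad7a55_nt.C62
import Pool.Agent.K.MP_ad7a55_nt.C1
import Pool.Agent.K.MP_ad7a55_nt.C58

-- part Pool.Agent.P.MP_ad7a55_nt.UMd
section

/-! Framed lifts of a Galois orbit. -/

set_option autoImplicit false

noncomputable section

open MeasureTheory Topology Filter UpperHalfPlane
open scoped MatrixGroups ENNReal BoundedContinuousFunction

namespace Pool.Agent.EQ

theorem umd_symm {F : IntermediateField ℚ ℂ} {σ : ℂ ≃+* ℂ} (hσ : ∀ a ∈ F, σ a = a) :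
    ∀ a ∈ F, σ.symm a = a := fun a ha => by
  rw [RingEquiv.symm_apply_eq, hσ a ha]

theorem umd_inj {n : ℕ} (σ : ℂ ≃+* ℂ) :
    Function.Injective fun (z : Fin n → ℂ) (k : Fin n) => σ (z k) := fun _ _ h =>
  funext fun k => σ.injective (congrFun h k)

theorem umd_pow {σ : ℂ ≃+* ℂ} {a : ℂ} (h : σ a = a) (u : ℕ) : (σ ^ u) a = a := by
  induction u with
  | zero => rfl
  | succ u ih =>
    rw [pow_succ]
    change (σ ^ u) (σ a) = a
    rw [h, ih]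

theorem umd_pow2 {σ σ' : ℂ ≃+* ℂ} {a : ℂ} (h : σ a = a) (h' : σ' a = a) (u v : ℕ) :
    (σ ^ u * σ' ^ v) a = a := by
  change (σ ^ u) ((σ' ^ v) a) = a
  rw [umd_pow h', umd_pow h]

theorem umd_norm (p : ℕ) [Fact p.Prime] (h2 : p ≠ 2) {c : ℕ} {D : ℤ}
    (h : ∃ κ ≤ c, Spl p κ D) {r : ℚ_[p]} (hr : r ^ 2 = D) : (p : ℝ) ^ (-(c : ℤ)) ≤ ‖r‖ := by
  obtain ⟨κ, hκ, hs⟩ := h
  obtain ⟨r', h1, h3⟩ := Spl.sqrt p h2 hs
  have hp : (1 : ℝ) ≤ p := by exact_mod_cast (Fact.out : p.Prime).one_lt.le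
  have h4 : ‖r‖ ^ 2 = ‖r'‖ ^ 2 := by rw [← norm_pow, ← norm_pow, hr, h1]
  have h5 : ‖r‖ = ‖r'‖ := (pow_left_inj₀ (norm_nonneg _) (norm_nonneg _) two_ne_zero).1 h4
  rw [h5, h3]
  exact zpow_le_zpow_right₀ hp (by omega)

theorem umd_sq (p : ℕ) [Fact p.Prime] {ρ : ℚ} (h0 : 0 < ρ) {D D₀ : ℤ} (h : ρ ^ 2 * D = D₀)
    {r : ℚ_[p]} (hr : r ^ 2 = D₀) : (r / ρ) ^ 2 = D := by
  have h1 : (ρ : ℚ_[p]) ≠ 0 := by exact_mod_cast h0.ne'
  have h2 : (ρ : ℚ_[p]) ^ 2 * D = D₀ := by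
    exact_mod_cast congrArg (fun x : ℚ => (x : ℚ_[p])) h
  rw [div_pow, hr, ← h2]
  field_simp

theorem umd_mul (p : ℕ) [Fact p.Prime] {ρ : ℚ} (h0 : 0 < ρ) (B : ℚ) (r : ℚ_[p]) :
    ((B * ρ : ℚ) : ℚ_[p]) * (r / ρ) = B * r := by
  have h1 : (ρ : ℚ_[p]) ≠ 0 := by exact_mod_cast h0.ne'
  push_cast
  field_simp

theorem orbit_card {n : ℕ} {F : IntermediateField ℚ ℂ} (x : Fin n → ℂ) {σ : ℂ ≃+* ℂ}
    (hσ : ∀ a ∈ F, σ a = a) (P : (Fin n → ℂ) → Prop) :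
    {z | z ∈ galOrbit F x ∧ P fun k => σ (z k)}.ncard = {z | z ∈ galOrbit F x ∧ P z}.ncard := by
  rw [← Set.ncard_image_of_injective _ (umd_inj σ)]
  congr 1
  ext z
  constructor
  · rintro ⟨w, ⟨hw, hP⟩, rfl⟩
    exact ⟨orbit_map hw hσ, hP⟩
  · rintro ⟨hz, hP⟩
    refine ⟨fun k => σ.symm (z k), ⟨orbit_map hz (umd_symm hσ), ?_⟩, ?_⟩
    · simpa using hP
    · simp

theorem orbit_card2 {n : ℕ} {F : IntermediateField ℚ ℂ} (x : Fin n → ℂ) {σ σ' : ℂ ≃+* ℂ}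
    (hσ : ∀ a ∈ F, σ a = a) (hσ' : ∀ a ∈ F, σ' a = a) (P : (Fin n → ℂ) → (Fin n → ℂ) → Prop) :
    {z : (Fin n → ℂ) × (Fin n → ℂ) | z.1 ∈ galOrbit F x ∧ z.2 ∈ galOrbit F x ∧
        P (fun k => σ (z.1 k)) fun k => σ' (z.2 k)}.ncard =
      {z : (Fin n → ℂ) × (Fin n → ℂ) | z.1 ∈ galOrbit F x ∧ z.2 ∈ galOrbit F x ∧
        P z.1 z.2}.ncard := by
  rw [← Set.ncard_image_of_injective _ ((umd_inj (n := n) σ).prodMap (umd_inj (n := n) σ'))]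
  congr 1
  ext z
  constructor
  · rintro ⟨w, ⟨hw, hw', hP⟩, rfl⟩
    exact ⟨orbit_map hw hσ, orbit_map hw' hσ', hP⟩
  · rintro ⟨hz, hz', hP⟩
    refine ⟨(fun k => σ.symm (z.1 k), fun k => σ'.symm (z.2 k)),
      ⟨orbit_map hz (umd_symm hσ), orbit_map hz' (umd_symm hσ'), ?_⟩, ?_⟩
    · simpa using hP
    · ext k <;> simp

variable (p q : ℕ) [Fact p.Prime] [Fact q.Prime]

/-- Framed lifts of the coordinates in `J` of the points of an orbit. -/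
structure FD {n : ℕ} (F : IntermediateField ℚ ℂ) (x₀ : Fin n → ℂ) (D : Fin n → ℤ) (j : Fin n)
    (J : Finset (Fin n)) (M : ℕ) (T : Finset SL(2, ℚ_[p])) (T' : Finset SL(2, ℚ_[q]))
    (ρ : Fin n → ℚ) (rp : Fin n → ℚ_[p]) (rq : Fin n → ℚ_[q]) (x : (Fin n → ℂ) → J → X3 p q)
    (hp : (Fin n → ℂ) → J → SL(2, ℚ_[p])) (hq : (Fin n → ℂ) → J → SL(2, ℚ_[q]))
    (σ : ℕ × ℕ → ℂ ≃+* ℂ) : Prop where
  fix : ∀ u, ∀ a ∈ F, σ u a = a
  rat : ∀ k ∈ J, 0 < ρ k ∧ ρ k ^ 2 * D k = D j ∧ (ρ k : ℚ_[p]) * rp k = rp j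
  mem : ∀ z ∈ galOrbit F x₀, ∀ k, hp z k ∈ T ∧ hq z k ∈ T'
  cf : ∀ z ∈ galOrbit F x₀, ∀ u (k : J),
    CF p q (D k) (rp k) (rq k) (hp z k) (hq z k) (yy p q M (hq z) (x z) u k)
  pi : ∀ z ∈ galOrbit F x₀, ∀ u (k : J),
    j3 p q (iP p q (hp z k) • yy p q M (hq z) (x z) u k) = σ u (z k)
  out : ∀ z ∈ galOrbit F x₀, ∀ u k, ¬ IsSquare (D k * D j) → σ u (z k) = z k

theorem exists_fd (hpq : p ≠ q) (h2 : p ≠ 2) (h2' : q ≠ 2) (F : IntermediateField ℚ ℂ)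
    [FiniteDimensional ℚ F] (n c : ℕ) :
    ∃ (M : ℕ) (T : Finset SL(2, ℚ_[p])) (T' : Finset SL(2, ℚ_[q])), 0 < M ∧
      (∀ h ∈ T, Bd ((p : ℝ) ^ c) (h : Matrix (Fin 2) (Fin 2) ℚ_[p])) ∧
      ∀ (τ : Fin n → ℍ) (D : Fin n → ℤ) (j : Fin n) (J : Finset (Fin n)),
        (∀ k, HasDisc (τ k) (D k)) → j ∈ J → ∃ ρ rp rq x hp hq σ, (∀ k, D k < -576) →
          (∀ k ∈ J, IsSquare (D k * D j) ∧ (∃ κ ≤ c, Spl p κ (D k)) ∧ ∃ κ ≤ c, Spl q κ (D k)) →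
          FD p q F (fun k => jInv (τ k)) D j J M T T' ρ rp rq x hp hq σ := by
  classical
  obtain ⟨M, hM, hcm⟩ := cm_pow F n
  obtain ⟨T, T', hT, hT', hcf⟩ := exists_cf p q hpq h2 h2' c
  refine ⟨M, T, T', hM, hT, fun τ D j J h hj => ?_⟩
  by_cases H : (∀ k, D k < -576) ∧
    ∀ k ∈ J, IsSquare (D k * D j) ∧ (∃ κ ≤ c, Spl p κ (D k)) ∧ ∃ κ ≤ c, Spl q κ (D k)
  swap
  · exact ⟨fun _ => 0, fun _ => 0, fun _ => 0, fun _ _ => ((1 : G3 p q) : X3 p q), fun _ _ => 1,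
      fun _ _ => 1, fun _ => RingEquiv.refl _, fun h₁ h₂ => absurd ⟨h₁, h₂⟩ H⟩
  obtain ⟨hD, hJ⟩ := H
  have hneg : ∀ k, D k < 0 := fun k => by linarith [hD k]
  have h1 : ∀ k, ∃ ρ : ℚ, IsSquare (D k * D j) → 0 < ρ ∧ ρ ^ 2 * D k = D j ∧
      th (D j) = ρ * th (D k) := by
    intro k
    by_cases hk : IsSquare (D k * D j)
    · obtain ⟨ρ, hρ⟩ := exists_ratio (hneg k) (hneg j) hk
      exact ⟨ρ, fun _ => hρ⟩
    · exact ⟨0, fun h' => absurd h' hk⟩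
  choose ρ hρ using h1
  have hρj : ρ j = 1 := by
    have hsq : IsSquare (D j * D j) := ⟨D j, rfl⟩
    have h4 := (hρ j hsq).2.1
    have h5 : (D j : ℚ) ≠ 0 := by exact_mod_cast (hneg j).ne
    have h6 : ρ j ^ 2 = 1 := mul_right_cancel₀ h5 (by rw [h4, one_mul])
    exact (pow_eq_one_iff_of_nonneg (hρ j hsq).1.le two_ne_zero).1 h6
  obtain ⟨κp, -, hκp⟩ := (hJ j hj).2.1
  obtain ⟨κq, -, hκq⟩ := (hJ j hj).2.2
  obtain ⟨r, hr, -⟩ := Spl.sqrt p h2 hκp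
  obtain ⟨r', hr', -⟩ := Spl.sqrt q h2' hκq
  have hr0 : r ≠ 0 := by
    rintro rfl
    have h3 : ((D j : ℤ) : ℚ_[p]) = 0 := by rw [← hr]; simp
    exact (hneg j).ne (by exact_mod_cast h3)
  have hr0' : r' ≠ 0 := by
    rintro rfl
    have h3 : ((D j : ℤ) : ℚ_[q]) = 0 := by rw [← hr']; simp
    exact (hneg j).ne (by exact_mod_cast h3)
  obtain ⟨A, B, hA, hB⟩ := exists_AB p h2 hr0 (2 * c)
  obtain ⟨A', B', hA', hB'⟩ := exists_AB q h2' hr0' (2 * c)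
  have hcard : (Finset.univ.image D).card ≤ n := Finset.card_image_le.trans (by simp)
  have hall : ∀ D' ∈ Finset.univ.image D, D' < -576 ∧ IsD D' := fun D' hD' => by
    obtain ⟨k, -, rfl⟩ := Finset.mem_image.1 hD'
    exact ⟨hD k, (discL_one (h k)).isD⟩
  have hmem : ∀ k, D k ∈ Finset.univ.image D := fun k =>
    Finset.mem_image_of_mem _ (Finset.mem_univ k)
  obtain ⟨s, hs, hs1⟩ := hcm p _ hcard hall (D j) (hmem j) _ (inK_AB p (hneg j) hA)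
  obtain ⟨s', hs', hs2⟩ := hcm q _ hcard hall (D j) (hmem j) _ (inK_AB q (hneg j) hA')
  have h3 : ∀ (z : Fin n → ℂ) (k : J), ∃ (hp : SL(2, ℚ_[p])) (hq : SL(2, ℚ_[q])) (x : X3 p q),
      z ∈ (galOrbit F fun k => jInv (τ k)) → hp ∈ T ∧ hq ∈ T' ∧
        CF p q (D k) (r / ρ k) (r' / ρ k) hp hq x ∧ j3 p q (iP p q hp • x) = z k := by
    intro z k
    by_cases hz : z ∈ (galOrbit F fun k => jInv (τ k))
    · obtain ⟨t, ht, hjt⟩ := orbit_lift h hD hz k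
      obtain ⟨hk1, hk2, hk3⟩ := hJ k k.2
      have e1 := umd_sq p (hρ k hk1).1 (hρ k hk1).2.1 hr
      have e2 := umd_sq q (hρ k hk1).1 (hρ k hk1).2.1 hr'
      obtain ⟨hp, hp1, hq, hq1, x, hx, hx'⟩ := hcf t (D k) _ _ ht e1 e2 (umd_norm p h2 hk2 e1)
        (umd_norm q h2' hk3 e2)
      exact ⟨hp, hq, x, fun _ => ⟨hp1, hq1, hx, hx'.trans hjt⟩⟩
    · exact ⟨1, 1, ((1 : G3 p q) : X3 p q), fun h' => absurd h' hz⟩
  choose hp hq x hx using h3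
  have key : ∀ z ∈ (galOrbit F fun k => jInv (τ k)), ∀ (u : ℕ × ℕ) (k : J),
      CF p q (D k) (r / ρ k) (r' / ρ k) (hp z k) (hq z k)
          (a3 p q (M * u.1) • b3 p q (hq z k) (M * u.2) • x z k) ∧
        j3 p q (iP p q (hp z k) • a3 p q (M * u.1) • b3 p q (hq z k) (M * u.2) • x z k) =
          (s ^ u.1 * s' ^ u.2) (z k) := by
    intro z hz u k
    obtain ⟨m1, m2, m3, m4⟩ := hx z k hz
    obtain ⟨hk1, -, -⟩ := hJ k k.2
    obtain ⟨ρ0, -, ρ2⟩ := hρ k hk1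
    have e : ∀ A B : ℚ, ((A : ℂ) + ((B * ρ k : ℚ) : ℂ) * th (D k)) = A + B * th (D j) := by
      intro A B
      rw [ρ2]
      push_cast
      ring
    rw [← m4]
    refine CF.orbit hpq m3 (hT _ m1) (hT' _ m2) (A := A) (B := B * ρ k) (A' := A')
      (B' := B' * ρ k) ?_ ?_ ?_ ?_ (fun Λ hΛ => ?_) (fun Λ hΛ => ?_) u.1 u.2
    · rw [umd_mul p ρ0]; exact hA
    · rw [umd_mul p ρ0]; exact hB
    · rw [umd_mul q ρ0]; exact hA'
    · rw [umd_mul q ρ0]; exact hB'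
    · rw [e]; exact (hs1 _ (hmem k) Λ hΛ).1 hk1
    · rw [e]; exact (hs2 _ (hmem k) Λ hΛ).1 hk1
  refine ⟨ρ, fun k => r / ρ k, fun k => r' / ρ k, x, hp, hq, fun u => s ^ u.1 * s' ^ u.2,
    fun _ _ => ⟨?_, ?_, ?_, ?_, ?_, ?_⟩⟩
  · intro u a ha
    exact umd_pow2 (hs a ha) (hs' a ha) _ _
  · intro k hk
    obtain ⟨ρ0, ρ1, -⟩ := hρ k (hJ k hk).1
    refine ⟨ρ0, ρ1, ?_⟩
    have h4 : (ρ k : ℚ_[p]) ≠ 0 := by exact_mod_cast ρ0.ne'
    rw [hρj]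
    push_cast
    field_simp
  · intro z hz k
    exact ⟨(hx z k hz).1, (hx z k hz).2.1⟩
  · intro z hz u k
    exact (key z hz u k).1
  · intro z hz u k
    exact (key z hz u k).2
  · intro z hz u k hk
    obtain ⟨t, ht, hjt⟩ := orbit_lift h hD hz k
    rw [← hjt, ← jL_one]
    exact umd_pow2 ((hs1 _ (hmem k) _ (discL_one ht)).2 hk)
      ((hs2 _ (hmem k) _ (discL_one ht)).2 hk) _ _

end Pool.Agent.EQ
end
end

-- part Pool.Agent.P.MP_ad7a55_nt.USt2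
section

/-! Averages over pieces of orbits, with finitely many types. -/

set_option autoImplicit false

noncomputable section

open MeasureTheory Topology Filter UpperHalfPlane
open scoped MatrixGroups ENNReal BoundedContinuousFunction

namespace Pool.Agent.EQ

variable {p q : ℕ} [Fact p.Prime] [Fact q.Prime] {κ : Type} [Fintype κ]

theorem integral_mP_prod (h : κ → SL(2, ℚ_[p])) (f : κ → (ℂ →ᵇ ℝ)) :
    ∫ x, ∏ k, f k (piX p (((1, h k) : GG p) • x k)) ∂mP p κ = ∏ k, ∫ z, f k z ∂mY := by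
  rw [mP, integral_fintype_prod_eq_prod
    (fun k (x : XX p) => f k (piX p (((1, h k) : GG p) • x)))]
  refine Finset.prod_congr rfl fun k _ => ?_
  have h1 : ∫ x, f k (piX p (((1, h k) : GG p) • x)) ∂mX p = ∫ x, f k (piX p x) ∂mX p := by
    conv_rhs => rw [← mX_inv p ((1, h k) : GG p)]
    exact (integral_map (f := fun x => f k (piX p x)) (measurable_const_smul _).aemeasurable
      ((f k).continuous.comp (continuous_piX p)).aestronglyMeasurable).symm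
  rw [h1, ← map_piX p, integral_map (continuous_piX p).measurable.aemeasurable
    (f k).continuous.aestronglyMeasurable]

/-- The test function of a type. -/
def ust2_Phi (h : κ → SL(2, ℚ_[p])) (f : κ → (ℂ →ᵇ ℝ)) : (κ → XX p) →ᵇ ℝ :=
  ∏ k, (f k).compContinuous ⟨fun x => piX p (((1, h k) : GG p) • x k),
    (continuous_piX p).comp ((continuous_const_smul _).comp (continuous_apply k))⟩

theorem ust2_Phi_apply (h : κ → SL(2, ℚ_[p])) (f : κ → (ℂ →ᵇ ℝ)) (x : κ → XX p) :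
    ust2_Phi h f x = ∏ k, f k (piX p (((1, h k) : GG p) • x k)) := by
  simp [ust2_Phi]

theorem ust2_Phi_piP (h : κ → SL(2, ℚ_[p])) (f : κ → (ℂ →ᵇ ℝ)) (y : κ → X3 p q) :
    ust2_Phi h f (piP p q y) = ∏ k, f k (j3 p q (iP p q (h k) • y k)) := by
  rw [ust2_Phi_apply]
  refine Finset.prod_congr rfl fun k _ => ?_
  rw [j3, pi3_smul p q (g := iP p q (h k)) (Kp q).one_mem]
  rfl

theorem ust2_avg_sum {α τ : Type} (O : Finset α) (S : Finset τ) (c : ℝ) (G H : τ → α → ℝ) :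
    ∑ t ∈ S, c * (avg O (G t) - avg O (H t)) = avg O fun z => ∑ t ∈ S, c * (G t z - H t z) := by
  simp only [avg]
  rw [Finset.sum_comm, Finset.sum_div]
  refine Finset.sum_congr rfl fun t _ => ?_
  rw [← Finset.mul_sum, Finset.sum_sub_distrib]
  ring

theorem ust2_type (hpq : p ≠ q) {M : ℕ} (hM : 0 < M) (𝒰 : Ultrafilter ℕ)
    (h𝒰 : (𝒰 : Filter ℕ) ≤ atTop) {ζ : Type} (O : ℕ → Finset ζ) (x : ℕ → ζ → κ → X3 p q)
    (hp : ℕ → ζ → κ → SL(2, ℚ_[p])) (hq : ℕ → ζ → κ → SL(2, ℚ_[q]))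
    (hc : Cnt p q 𝒰 O fun i z => yy p q M (hq i z) (x i z)) (f : κ → (ℂ →ᵇ ℝ))
    (t : (κ → SL(2, ℚ_[p])) × (κ → SL(2, ℚ_[q]))) (w : ℕ → ζ → ℝ)
    (hw : ∀ i z, 0 ≤ w i z ∧ w i z ≤ 1) (ht : ∀ i z, w i z ≠ 0 → (hp i z, hq i z) = t) :
    Tendsto (fun i => avg (O i) fun z => w i z *
      (avg (sqr i) (fun u => ∏ k,
        f k (j3 p q (iP p q (hp i z k) • yy p q M (hq i z) (x i z) u k))) -
        ∏ k, ∫ z, f k z ∂mY)) 𝒰 (𝓝 0) := by
  have h1 := st3 hpq hM t.2 𝒰 h𝒰 O x _ hc w hw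
    (fun i z hz => by rw [← ht i z hz]) (ust2_Phi t.1 f)
  refine h1.congr fun i => ?_
  refine congrArg (avg (O i)) (funext fun z => ?_)
  by_cases hz : w i z = 0
  · rw [hz, zero_mul, zero_mul]
  · rw [← ht i z hz]
    simp only [ust2_Phi_piP]
    rw [← integral_mP_prod (hp i z) f]
    simp only [ust2_Phi_apply]

theorem st3' (hpq : p ≠ q) {M : ℕ} (hM : 0 < M) (𝒰 : Ultrafilter ℕ)
    (h𝒰 : (𝒰 : Filter ℕ) ≤ atTop) {ζ : Type} (O : ℕ → Finset ζ) (x : ℕ → ζ → κ → X3 p q)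
    (T : Finset SL(2, ℚ_[p])) (T' : Finset SL(2, ℚ_[q])) (hp : ℕ → ζ → κ → SL(2, ℚ_[p]))
    (hq : ℕ → ζ → κ → SL(2, ℚ_[q])) (hT : ∀ᶠ i in 𝒰, ∀ z ∈ O i, ∀ k, hp i z k ∈ T ∧ hq i z k ∈ T')
    (hc : Cnt p q 𝒰 O fun i z => yy p q M (hq i z) (x i z)) (ψ : ℕ → ζ → ℝ) {B : ℝ}
    (hψ : ∀ i z, |ψ i z| ≤ B) (f : κ → (ℂ →ᵇ ℝ)) :
    Tendsto (fun i => avg (O i) fun z => ψ i z *
      (avg (sqr i) (fun u => ∏ k,
        f k (j3 p q (iP p q (hp i z k) • yy p q M (hq i z) (x i z) u k))) -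
        ∏ k, ∫ z, f k z ∂mY)) 𝒰 (𝓝 0) := by
  classical
  have hB : 0 < |B| + 1 := by positivity
  have hle : ∀ i z, |ψ i z| ≤ |B| + 1 := fun i z =>
    (hψ i z).trans ((le_abs_self B).trans (by linarith))
  let S := Fintype.piFinset (fun _ : κ => T) ×ˢ Fintype.piFinset (fun _ : κ => T')
  let W : (ℕ → ζ → ℝ) → ((κ → SL(2, ℚ_[p])) × (κ → SL(2, ℚ_[q]))) → ℕ → ζ → ℝ :=
    fun φ t i z => if (hp i z, hq i z) = t then max (φ i z) 0 / (|B| + 1) else 0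
  have hW : ∀ φ : ℕ → ζ → ℝ, (∀ i z, φ i z ≤ |B| + 1) → ∀ t i z,
      0 ≤ W φ t i z ∧ W φ t i z ≤ 1 := fun φ hφ t i z => by
    simp only [W]
    split_ifs
    · exact ⟨div_nonneg (le_max_right _ _) hB.le,
        (div_le_one hB).2 (max_le (hφ i z) hB.le)⟩
    · exact ⟨le_rfl, zero_le_one⟩
  have hW' : ∀ φ t i z, W φ t i z ≠ 0 → (hp i z, hq i z) = t := fun φ t i z hz => by
    by_contra hn
    exact hz (if_neg hn)
  have h1 := tendsto_finsetSum S fun t _ =>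
    ((ust2_type hpq hM 𝒰 h𝒰 O x hp hq hc f t (W ψ t)
      (hW ψ (fun i z => (le_abs_self _).trans (hle i z)) t) (hW' ψ t)).sub
    (ust2_type hpq hM 𝒰 h𝒰 O x hp hq hc f t (W (fun i z => -ψ i z) t)
      (hW _ (fun i z => (neg_le_abs _).trans (hle i z)) t) (hW' _ t))).const_mul (|B| + 1)
  simp only [sub_zero, mul_zero, Finset.sum_const_zero] at h1
  refine h1.congr' (hT.mono fun i hi => ?_)
  beta_reduce
  rw [ust2_avg_sum]
  simp only [avg]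
  congr 1
  refine Finset.sum_congr rfl fun z hz => ?_
  have hm : (hp i z, hq i z) ∈ S := Finset.mem_product.2
    ⟨Fintype.mem_piFinset.2 fun k => (hi z hz k).1, Fintype.mem_piFinset.2 fun k => (hi z hz k).2⟩
  rw [Finset.sum_eq_single_of_mem _ hm fun t _ hn => by
    simp only [W, if_neg (Ne.symm hn), zero_mul, sub_zero, mul_zero]]
  simp only [W, if_true]
  rw [← sub_mul, ← mul_assoc, ← sub_div, mul_div_cancel₀ _ hB.ne', max_zero_sub_max_neg_zero_eq_self]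

end Pool.Agent.EQ
end
end

-- part Pool.Agent.P.MP_ad7a55_nt.VAv
section

/-! Averages over finite sets of points of the curve of full level. -/

set_option autoImplicit false

noncomputable section

open MeasureTheory Topology Filter UpperHalfPlane
open scoped MatrixGroups ENNReal BoundedContinuousFunction

namespace Pool.Agent.EQ

theorem vav_range {G α : Type} (f f' : G → α) (h : ∀ g g', f g = f g' ↔ f' g = f' g') :
    (Set.range f).ncard = (Set.range f').ncard := by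
  have e : Setoid.ker f = Setoid.ker f' := Setoid.ext h
  rw [← Nat.card_coe_set_eq, ← Nat.card_coe_set_eq,
    ← Nat.card_congr (Setoid.quotientKerEquivRange f),
    ← Nat.card_congr (Setoid.quotientKerEquivRange f'), e]

theorem avg_cls {X G α β : Type} (W : Set X) (a : G → X → X) (π₀ : X → α) (π₁ : X → β)
    (r : G → G → Prop) (hW : ∀ g, ∀ w ∈ W, a g w ∈ W)
    (h1 : ∀ w ∈ W, ∀ w' ∈ W, π₁ w = π₁ w' ↔ ∃ g, π₀ w' = π₀ (a g w))
    (h0 : ∀ w ∈ W, ∀ g g', π₀ (a g w) = π₀ (a g' w) ↔ r g g') (hf : (π₀ '' W).Finite)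
    (G₀ : α → ℝ) (G₁ : β → ℝ) (hG : ∀ w ∈ W, G₀ (π₀ w) = G₁ (π₁ w)) :
    avg (fO (π₀ '' W)) G₀ = avg (fO (π₁ '' W)) G₁ := by
  classical
  rcases W.eq_empty_or_nonempty with rfl | ⟨w₀, hw₀⟩
  · simp [avg, fO]
  let P : α → β := fun y => if h : ∃ w ∈ W, π₀ w = y then π₁ h.choose else π₁ w₀
  have hP : ∀ w ∈ W, P (π₀ w) = π₁ w := fun w hw => by
    have h : ∃ w' ∈ W, π₀ w' = π₀ w := ⟨w, hw, rfl⟩
    obtain ⟨g, hg⟩ := (h1 w hw w hw).1 rfl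
    simp only [P, dif_pos h]
    exact ((h1 w hw _ h.choose_spec.1).2 ⟨g, h.choose_spec.2.trans hg⟩).symm
  have hf1 : (π₁ '' W).Finite := (hf.image P).subset (by
    rintro _ ⟨w, hw, rfl⟩
    exact ⟨_, ⟨w, hw, rfl⟩, hP w hw⟩)
  have hfib : ∀ w ∈ W, {y | y ∈ fO (π₀ '' W) ∧ P y = π₁ w} =
      Set.range fun g => π₀ (a g w) := fun w hw => by
    ext y
    constructor
    · rintro ⟨hy, e⟩
      obtain ⟨w', hw', rfl⟩ := (mem_fO hf).1 hy
      rw [hP w' hw'] at e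
      obtain ⟨g, hg⟩ := (h1 w hw w' hw').1 e.symm
      exact ⟨g, hg.symm⟩
    · rintro ⟨g, rfl⟩
      exact ⟨(mem_fO hf).2 ⟨_, hW g w hw, rfl⟩,
        (hP _ (hW g w hw)).trans ((h1 w hw _ (hW g w hw)).2 ⟨g, rfl⟩).symm⟩
  have hc : 0 < (Set.range fun g => π₀ (a g w₀)).ncard := by
    refine (Set.ncard_pos (hf.subset ?_)).2 ?_
    · rintro _ ⟨g, rfl⟩
      exact ⟨_, hW g w₀ hw₀, rfl⟩
    · obtain ⟨g, -⟩ := (h1 w₀ hw₀ w₀ hw₀).1 rfl
      exact ⟨_, g, rfl⟩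
  rw [← avg_fiber (fO (π₀ '' W)) (fO (π₁ '' W)) P ?_ hc ?_ G₁]
  · unfold avg
    congr 1
    refine Finset.sum_congr rfl fun y hy => ?_
    obtain ⟨w, hw, rfl⟩ := (mem_fO hf).1 hy
    rw [hG w hw, ← hP w hw]
  · intro y hy
    obtain ⟨w, hw, rfl⟩ := (mem_fO hf).1 hy
    exact (mem_fO hf1).2 ⟨w, hw, (hP w hw).symm⟩
  · intro b hb
    obtain ⟨w, hw, rfl⟩ := (mem_fO hf1).1 hb
    rw [hfib w hw]
    exact vav_range _ _ fun g g' => (h0 w hw g g').trans (h0 w₀ hw₀ g g').symm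

variable {n N : ℕ}

def mkN (N : ℕ) (w : Fin n → ℍ) : Fin n → YG (CongruenceSubgroup.Gamma N) :=
  fun k => Quotient.mk _ (w k)

def AvW (N : ℕ) (W : Set (Fin n → ℍ)) (g : (Fin n → ℍ) → ℝ) : ℝ :=
  avg (fO (mkN N '' W)) fun y => g fun k => (y k).out

theorem vav_mk {Γ : Subgroup SL(2, ℤ)} {τ τ' : ℍ} :
    (Quotient.mk _ τ : YG Γ) = Quotient.mk _ τ' ↔ ∃ δ ∈ Γ, τ = δ • τ' := by
  rw [Quotient.eq, MulAction.orbitRel_apply]
  constructor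
  · rintro ⟨δ, h⟩
    exact ⟨δ, δ.2, h.symm⟩
  · rintro ⟨δ, hδ, h⟩
    exact ⟨⟨δ, hδ⟩, h.symm⟩

theorem vav_mkN {w w' : Fin n → ℍ} :
    mkN N w = mkN N w' ↔ ∀ k, ∃ δ ∈ CongruenceSubgroup.Gamma N, w k = δ • w' k := by
  rw [funext_iff]
  exact forall_congr' fun k => vav_mk

theorem vav_out (w : Fin n → ℍ) : ∃ δ : Fin n → SL(2, ℤ),
    (∀ k, δ k ∈ CongruenceSubgroup.Gamma N) ∧ (fun k => (mkN N w k).out) = fun k => δ k • w k := by
  have h : mkN N (fun k => (mkN N w k).out) = mkN N w := funext fun k => Quotient.out_eq _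
  choose δ h1 h2 using vav_mkN.1 h
  exact ⟨δ, h1, funext h2⟩

theorem vav_cls {ε ε' : SL(2, ℤ)} (h : (ε : SL(2, ℤ) ⧸ CongruenceSubgroup.Gamma N) = ε') :
    ∃ δ ∈ CongruenceSubgroup.Gamma N, ε = δ * ε' := by
  have h1 : ε'⁻¹ * ε ∈ CongruenceSubgroup.Gamma N := QuotientGroup.eq.1 h.symm
  exact ⟨_, (CongruenceSubgroup.Gamma_normal N).conj_mem _ h1 ε', by group⟩

theorem finite_mkN (hN : 0 < N) {W : Set (Fin n → ℍ)} {Z : Set (Fin n → ℂ)} (hZ : Z.Finite)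
    (h : ∀ w ∈ W, (fun k => jInv (w k)) ∈ Z) : (mkN N '' W).Finite := by
  have : NeZero N := ⟨hN.ne'⟩
  have key : ∀ c : ℂ, {y : YG (CongruenceSubgroup.Gamma N) |
      ∃ τ, Quotient.mk _ τ = y ∧ jInv τ = c}.Finite := fun c => by
    by_cases hc : ∃ τ, jInv τ = c
    · obtain ⟨τ₀, rfl⟩ := hc
      refine (Set.finite_range fun q : SL(2, ℤ) ⧸ CongruenceSubgroup.Gamma N =>
        (Quotient.mk _ (q.out • τ₀) : YG (CongruenceSubgroup.Gamma N))).subset ?_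
      rintro _ ⟨τ, rfl, e⟩
      obtain ⟨γ, rfl⟩ := jInv_inj e.symm
      obtain ⟨δ, hδ, e'⟩ := vav_cls (QuotientGroup.out_eq'
        (γ : SL(2, ℤ) ⧸ CongruenceSubgroup.Gamma N))
      exact ⟨(γ : SL(2, ℤ) ⧸ CongruenceSubgroup.Gamma N), vav_mk.2 ⟨δ, hδ, by rw [e', mul_smul]⟩⟩
    · refine Set.finite_empty.subset ?_
      rintro _ ⟨τ, -, e⟩
      exact hc ⟨τ, e⟩
  refine (hZ.biUnion fun z _ => Set.Finite.pi' fun k => key (z k)).subset ?_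
  rintro _ ⟨w, hw, rfl⟩
  exact Set.mem_biUnion (h w hw) fun k => ⟨w k, rfl, rfl⟩

theorem avW_eq (Λ : Fin n → Subgroup SL(2, ℤ)) (hΛ : ∀ k, CongruenceSubgroup.Gamma N ≤ Λ k)
    {W : Set (Fin n → ℍ)} (hf : (mkN N '' W).Finite)
    (hW : ∀ γ : Fin n → SL(2, ℤ), (∀ k, γ k ∈ Λ k) → ∀ w ∈ W, (fun k => γ k • w k) ∈ W)
    (hs : ∀ w ∈ W, ∀ (k : Fin n) (γ : SL(2, ℤ)), γ • w k = w k → γ = 1 ∨ γ = -1)
    {β : Type} (π : (Fin n → ℍ) → β)
    (hπ : ∀ w ∈ W, ∀ w' ∈ W, π w = π w' ↔ ∀ k, ∃ γ ∈ Λ k, w' k = γ • w k)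
    (g : (Fin n → ℍ) → ℝ) (G : β → ℝ) (hG : ∀ w ∈ W, g w = G (π w)) :
    AvW N W g = avg (fO (π '' W)) G := by
  refine avg_cls (G := {γ : Fin n → SL(2, ℤ) // ∀ k, γ k ∈ Λ k}) W
    (fun γ w k => γ.1 k • w k) (mkN N) π
    (fun γ γ' => ∀ k, ∃ δ ∈ CongruenceSubgroup.Gamma N,
      (γ.1 k)⁻¹ * δ * γ'.1 k = 1 ∨ (γ.1 k)⁻¹ * δ * γ'.1 k = -1)
    (fun γ w hw => hW γ.1 γ.2 w hw) (fun w hw w' hw' => ?_) (fun w hw γ γ' => ?_) hf _ G
    fun w hw => ?_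
  · rw [hπ w hw w' hw']
    constructor
    · intro h
      choose γ h1 h2 using h
      exact ⟨⟨γ, h1⟩, congrArg (mkN N) (funext h2)⟩
    · rintro ⟨γ, h⟩ k
      obtain ⟨δ, hδ, e⟩ := vav_mkN.1 h k
      exact ⟨δ * γ.1 k, mul_mem (hΛ k hδ) (γ.2 k), by rw [e, mul_smul]⟩
  · rw [vav_mkN]
    refine forall_congr' fun k => exists_congr fun δ => and_congr_right fun _ => ?_
    have e : γ.1 k • w k = δ • γ'.1 k • w k ↔ ((γ.1 k)⁻¹ * δ * γ'.1 k) • w k = w k := by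
      rw [mul_smul, mul_smul, inv_smul_eq_iff, eq_comm]
    rw [e]
    refine ⟨hs w hw k _, ?_⟩
    rintro (h | h)
    · rw [h, one_smul]
    · rw [h, ModularGroup.SL_neg_smul, one_smul]
  · obtain ⟨δ, h1, h2⟩ := vav_out (N := N) w
    have h3 := hW δ (fun k => hΛ k (h1 k)) w hw
    change g (fun k => (mkN N w k).out) = _
    rw [h2, hG _ h3, (hπ w hw _ h3).2 fun k => ⟨δ k, hΛ k (h1 k), rfl⟩]

theorem avW_smul {W : Set (Fin n → ℍ)} (hf : (mkN N '' W).Finite) (γ : Fin n → SL(2, ℤ))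
    (hW : ∀ w ∈ W, (fun k => γ k • w k) ∈ W) {g : (Fin n → ℍ) → ℝ}
    (hg : ∀ δ : Fin n → SL(2, ℤ), (∀ k, δ k ∈ CongruenceSubgroup.Gamma N) →
      ∀ w, g (fun k => δ k • w k) = g w) :
    AvW N W (fun w => g fun k => γ k • w k) = AvW N W g := by
  have hn := CongruenceSubgroup.Gamma_normal N
  let T : (Fin n → YG (CongruenceSubgroup.Gamma N)) → Fin n → YG (CongruenceSubgroup.Gamma N) :=
    fun y => mkN N fun k => γ k • (y k).out
  have hm : Set.MapsTo T (mkN N '' W) (mkN N '' W) := by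
    rintro _ ⟨w, hw, rfl⟩
    refine ⟨_, hW w hw, Eq.symm (vav_mkN.2 fun k => ?_)⟩
    obtain ⟨δ, h1, h2⟩ := vav_out (N := N) w
    refine ⟨_, hn.conj_mem _ (h1 k) (γ k), ?_⟩
    rw [show (mkN N w k).out = δ k • w k from congrFun h2 k, mul_smul, mul_smul, inv_smul_smul]
  have hi : Function.Injective T := fun y y' h => funext fun k => by
    obtain ⟨δ, h1, h2⟩ := vav_mkN.1 h k
    rw [← Quotient.out_eq (y k), ← Quotient.out_eq (y' k)]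
    refine vav_mk.2 ⟨_, hn.conj_mem _ h1 (γ k)⁻¹, ?_⟩
    rw [inv_inv, mul_smul, mul_smul, ← h2, inv_smul_smul]
  have hb := (hf.injOn_iff_bijOn_of_mapsTo hm).1 hi.injOn
  have hc : (↑(fO (mkN N '' W)) : Set _) = mkN N '' W := Set.ext fun _ => mem_fO hf
  unfold AvW avg
  congr 1
  refine Finset.sum_nbij T (fun y hy => (mem_fO hf).2 (hm ((mem_fO hf).1 hy))) hi.injOn
    (by rw [hc]; exact hb.surjOn) fun y _ => ?_
  obtain ⟨δ, h1, h2⟩ := vav_out (N := N) fun k => γ k • (y k).out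
  change _ = g fun k => (mkN N (fun k => γ k • (y k).out) k).out
  rw [h2, hg δ h1]

theorem vav_lin (W : Set (Fin n → ℍ)) {ι : Type} [Fintype ι] (C : ℝ)
    (f : ι → (Fin n → ℍ) → ℝ) :
    AvW N W (fun w => C * ∑ c, f c w) = C * ∑ c, AvW N W (f c) := by
  unfold AvW avg
  rw [← Finset.mul_sum, Finset.sum_comm, ← Finset.sum_div, mul_div_assoc]

theorem exists_tc (hN : 0 < N) (F : IntermediateField ℚ ℂ) (a : Fin n → (ℍ →ᵇ ℝ))
    (ha : ∀ k, GInv N (a k) ∧ CSp (a k)) : ∃ φ : Fin n → (ℍ →ᵇ ℝ),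
      (∀ k, Tc N F (φ k) ∧ IN N (φ k) = IN N (a k)) ∧ ∀ W : Set (Fin n → ℍ),
        (mkN N '' W).Finite →
        (∀ γ : Fin n → SL(2, ℤ), (∀ k, γ k ∈ G0 N F) → ∀ w ∈ W, (fun k => γ k • w k) ∈ W) →
        AvW N W (fun w => ∏ k, a k (w k)) = AvW N W fun w => ∏ k, φ k (w k) := by
  classical
  have : NeZero N := ⟨hN.ne'⟩
  have hn := CongruenceSubgroup.Gamma_normal N
  have := mH_prob (Γ := CongruenceSubgroup.Gamma N)
  let H := (G0 N F).map (QuotientGroup.mk' (CongruenceSubgroup.Gamma N))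
  have : Fintype H := Fintype.ofFinite _
  have hex : ∀ c : H, ∃ ρ ∈ G0 N F, (ρ : SL(2, ℤ) ⧸ CongruenceSubgroup.Gamma N) = c.1 :=
    fun c => c.2
  choose ρ hρ hρ' using hex
  have hc : (Fintype.card H : ℝ) ≠ 0 := by exact_mod_cast Fintype.card_ne_zero
  let φ : Fin n → (ℍ →ᵇ ℝ) := fun k => (Fintype.card H : ℝ)⁻¹ • ∑ c : H, cact (a k) (ρ c : MZ)
  have hφ : ∀ k τ, φ k τ = (Fintype.card H : ℝ)⁻¹ * ∑ c : H, a k (ρ c • τ) := fun k τ => by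
    simp only [φ, BoundedContinuousFunction.smul_apply, smul_eq_mul,
      BoundedContinuousFunction.sum_apply, cact_apply, act_SL]
  refine ⟨φ, fun k => ⟨⟨fun γ hγ τ => ?_, ?_⟩, ?_⟩, fun W hf hW => ?_⟩
  · rw [hφ, hφ, ← Equiv.sum_comp (Equiv.mulRight (⟨_, γ, hγ, rfl⟩ : H)) fun c => a k (ρ c • τ)]
    congr 1
    refine Finset.sum_congr rfl fun c _ => ?_
    obtain ⟨δ, hδ, e⟩ := vav_cls (N := N) (ε := ρ (Equiv.mulRight (⟨_, γ, hγ, rfl⟩ : H) c))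
      (ε' := ρ c * γ) (by rw [hρ', QuotientGroup.mk_mul, hρ']; rfl)
    rw [e, mul_smul, (ha k).1 δ hδ, mul_smul]
  · obtain ⟨K, hK, h⟩ := (ha k).2
    refine ⟨K, hK, fun τ hτ => ?_⟩
    rw [hφ] at hτ
    obtain ⟨c, -, h1⟩ := Finset.exists_ne_zero_of_sum_ne_zero (right_ne_zero_of_mul hτ)
    obtain ⟨γ, h2⟩ := h _ h1
    exact ⟨γ * ρ c, by rwa [mul_smul]⟩
  · have h1 : ∀ c : H, ∫ τ, a k (ρ c • τ) ∂mH (CongruenceSubgroup.Gamma N) = IN N (a k) :=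
      fun c => by
        have h := map_mH_smul (Γ := CongruenceSubgroup.Gamma N) (ρ c) (π := a k)
          (a k).continuous.measurable (ha k).1
        have e1 := integral_map (μ := mH (CongruenceSubgroup.Gamma N))
          (φ := fun τ => a k (ρ c • τ)) (f := fun t : ℝ => t)
          ((a k).continuous.measurable.comp (vme_smul_meas _)).aemeasurable aestronglyMeasurable_id
        have e2 := integral_map (μ := mH (CongruenceSubgroup.Gamma N)) (φ := a k)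
          (f := fun t : ℝ => t) (a k).continuous.measurable.aemeasurable aestronglyMeasurable_id
        rw [← e1, h, e2, IN]
    have h2 : ∀ c : H, Integrable (fun τ => a k (ρ c • τ)) (mH (CongruenceSubgroup.Gamma N)) :=
      fun c => by
        have := (cact (a k) (ρ c : MZ)).integrable (mH (CongruenceSubgroup.Gamma N))
        refine this.congr (Eventually.of_forall fun τ => ?_)
        rw [cact_apply, act_SL]
    rw [IN]
    simp only [hφ]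
    rw [integral_const_mul, integral_finsetSum _ fun c _ => h2 c]
    simp only [h1, Finset.sum_const, Finset.card_univ, nsmul_eq_mul]
    rw [← mul_assoc, inv_mul_cancel₀ hc, one_mul]
  · have h1 : ∀ w : Fin n → ℍ, ∏ k, φ k (w k) = ((Fintype.card H : ℝ) ^ n)⁻¹ *
        ∑ c : Fin n → H, ∏ k, a k (ρ (c k) • w k) := fun w => by
      simp only [hφ]
      rw [Finset.prod_mul_distrib, Finset.prod_const, Finset.card_univ, Fintype.card_fin, inv_pow,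
        Fintype.prod_sum]
    have h2 : ∀ c : Fin n → H, AvW N W (fun w => ∏ k, a k (ρ (c k) • w k)) =
        AvW N W fun w => ∏ k, a k (w k) := fun c =>
      avW_smul hf (fun k => ρ (c k)) (hW _ fun k => hρ _) (g := fun w => ∏ k, a k (w k))
        fun δ hδ w => Finset.prod_congr rfl fun k _ => (ha k).1 _ (hδ k) _
    simp only [h1]
    rw [vav_lin]
    simp only [h2, Finset.sum_const, Finset.card_univ, nsmul_eq_mul, Fintype.card_fun,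
      Fintype.card_fin, Nat.cast_pow]
    rw [← mul_assoc, inv_mul_cancel₀ (pow_ne_zero _ hc), one_mul]

end Pool.Agent.EQ
end
end

-- part Pool.Agent.P.MP_ad7a55_nt.VSw
section

/-! Approximation by products on the product of curves. -/

set_option autoImplicit false

noncomputable section

open MeasureTheory Topology Filter UpperHalfPlane
open scoped MatrixGroups ENNReal BoundedContinuousFunction

namespace Pool.Agent.EQ

/-- Finite sums of products of continuous functions of one coordinate. -/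
def vsw_P {ι : Type} [Fintype ι] {Y : ι → Type} [∀ k, TopologicalSpace (Y k)]
    (g : (∀ k, Y k) → ℝ) : Prop :=
  ∃ (T : Type) (_ : Fintype T) (c : T → ℝ) (a : T → ∀ k, Y k → ℝ),
    (∀ j k, Continuous (a j k)) ∧ ∀ y, g y = ∑ j, c j * ∏ k, a j k (y k)

theorem vsw_add {ι : Type} [Fintype ι] {Y : ι → Type} [∀ k, TopologicalSpace (Y k)]
    {g h : (∀ k, Y k) → ℝ} (hg : vsw_P g) (hh : vsw_P h) : vsw_P fun y => g y + h y := by
  obtain ⟨T, _, c, a, ha, hg⟩ := hg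
  obtain ⟨T', _, c', a', ha', hh⟩ := hh
  refine ⟨T ⊕ T', inferInstance, Sum.elim c c', Sum.elim a a', ?_, fun y => ?_⟩
  · rintro (j | j) k
    · exact ha j k
    · exact ha' j k
  · simp only [Fintype.sum_sum_type, Sum.elim_inl, Sum.elim_inr, hg y, hh y]

theorem vsw_mul {ι : Type} [Fintype ι] {Y : ι → Type} [∀ k, TopologicalSpace (Y k)]
    {g h : (∀ k, Y k) → ℝ} (hg : vsw_P g) (hh : vsw_P h) : vsw_P fun y => g y * h y := by
  obtain ⟨T, _, c, a, ha, hg⟩ := hg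
  obtain ⟨T', _, c', a', ha', hh⟩ := hh
  refine ⟨T × T', inferInstance, fun j => c j.1 * c' j.2, fun j k y => a j.1 k y * a' j.2 k y,
    fun j k => (ha j.1 k).mul (ha' j.2 k), fun y => ?_⟩
  simp only [hg y, hh y, Fintype.sum_prod_type, Finset.sum_mul_sum, Finset.prod_mul_distrib]
  refine Finset.sum_congr rfl fun i _ => Finset.sum_congr rfl fun j _ => ?_
  ring

theorem vsw_const {ι : Type} [Fintype ι] {Y : ι → Type} [∀ k, TopologicalSpace (Y k)]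
    (r : ℝ) : vsw_P (Y := Y) fun _ => r := by
  refine ⟨Unit, inferInstance, fun _ => r, fun _ _ _ => 1, fun _ _ => continuous_const,
    fun y => ?_⟩
  simp

theorem vsw_one {ι : Type} [Fintype ι] {Y : ι → Type} [∀ k, TopologicalSpace (Y k)]
    (k : ι) {b : Y k → ℝ} (hb : Continuous b) : vsw_P (Y := Y) fun y => b (y k) := by
  classical
  refine ⟨Unit, inferInstance, fun _ => 1,
    fun _ => Function.update (fun l (_ : Y l) => (1 : ℝ)) k b, fun _ l => ?_, fun y => ?_⟩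
  · beta_reduce
    by_cases h : l = k
    · subst h
      rw [Function.update_self]
      exact hb
    · rw [Function.update_of_ne h]
      exact continuous_const
  · beta_reduce
    rw [Fintype.sum_unique, one_mul, Finset.prod_eq_single k]
    · rw [Function.update_self]
    · intro l _ h
      rw [Function.update_of_ne h]
    · intro h
      exact absurd (Finset.mem_univ k) h

/-- The algebra of finite sums of products. -/
def vsw_A {ι : Type} [Fintype ι] (Y : ι → Type) [∀ k, TopologicalSpace (Y k)] :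
    Subalgebra ℝ C(∀ k, Y k, ℝ) where
  carrier := {g | vsw_P (g : (∀ k, Y k) → ℝ)}
  mul_mem' := fun hg hh => vsw_mul hg hh
  add_mem' := fun hg hh => vsw_add hg hh
  algebraMap_mem' := fun r => by
    have h : ((algebraMap ℝ C(∀ k, Y k, ℝ) r : C(∀ k, Y k, ℝ)) : (∀ k, Y k) → ℝ) = fun _ => r := by
      funext y
      simp
    show vsw_P _
    rw [h]
    exact vsw_const r

theorem vsw_sep {ι : Type} [Fintype ι] (Y : ι → Type) [∀ k, TopologicalSpace (Y k)]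
    [∀ k, T2Space (Y k)] [∀ k, LocallyCompactSpace (Y k)] : (vsw_A Y).SeparatesPoints := by
  intro x y hxy
  obtain ⟨k, hk⟩ := Function.ne_iff.1 hxy
  obtain ⟨b, h1, h0, -, -⟩ := exists_continuous_one_zero_of_isCompact
    (isCompact_singleton (x := x k)) (isClosed_singleton (x := y k))
    (Set.disjoint_singleton.2 hk)
  refine ⟨fun z => b (z k), ⟨⟨fun z => b (z k), b.continuous.comp (continuous_apply k)⟩,
    vsw_one k b.continuous, rfl⟩, ?_⟩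
  have e1 : b (x k) = 1 := h1 rfl
  have e0 : b (y k) = 0 := h0 rfl
  simp only [e1, e0]
  exact one_ne_zero

theorem sw_prod {ι : Type} [Fintype ι] {Y : ι → Type} [∀ k, TopologicalSpace (Y k)]
    [∀ k, T2Space (Y k)] [∀ k, LocallyCompactSpace (Y k)] {f : (∀ k, Y k) → ℝ}
    (hf : Continuous f) (hs : HasCompactSupport f) {ε : ℝ} (hε : 0 < ε) :
    ∃ (m : ℕ) (c : Fin m → ℝ) (a : Fin m → ∀ k, Y k → ℝ),
      (∀ j k, Continuous (a j k) ∧ HasCompactSupport (a j k)) ∧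
        ∀ y, |f y - ∑ j, c j * ∏ k, a j k (y k)| ≤ ε := by
  have hu : ∀ k, ∃ u : C(Y k, ℝ), Set.EqOn u 1 ((fun y : ∀ k, Y k => y k) '' tsupport f) ∧
      HasCompactSupport u ∧ ∀ x, u x ∈ Set.Icc (0 : ℝ) 1 := fun k => by
    obtain ⟨u, h1, -, h2, h3⟩ := exists_continuous_one_zero_of_isCompact
      (hs.isCompact.image (continuous_apply k)) isClosed_empty (Set.disjoint_empty _)
    exact ⟨u, h1, h2, h3⟩
  choose u hu1 hu2 hu3 using hu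
  have hK : IsCompact (Set.pi Set.univ fun k => tsupport (u k)) :=
    isCompact_univ_pi fun k => (hu2 k).isCompact
  obtain ⟨g, ⟨T, _, c, a, ha, hg⟩, hfg⟩ :=
    ContinuousMap.exists_mem_subalgebra_near_continuous_of_isCompact_of_separatesPoints
      (vsw_sep Y) ⟨f, hf⟩ hK hε
  refine ⟨Fintype.card T, fun j => c ((Fintype.equivFin T).symm j),
    fun j k y => a ((Fintype.equivFin T).symm j) k y * u k y,
    fun j k => ⟨(ha _ k).mul (u k).continuous, (hu2 k).mul_left⟩, fun y => ?_⟩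
  have e1 : ∑ j, c ((Fintype.equivFin T).symm j) *
      ∏ k, a ((Fintype.equivFin T).symm j) k (y k) * u k (y k) = g y * ∏ k, u k (y k) := by
    rw [hg y, Finset.sum_mul, ← (Fintype.equivFin T).symm.sum_comp]
    refine Finset.sum_congr rfl fun j _ => ?_
    rw [Finset.prod_mul_distrib, mul_assoc]
  have e2 : f y = f y * ∏ k, u k (y k) := by
    by_cases h : y ∈ tsupport f
    · rw [Finset.prod_eq_one fun k _ => hu1 k ⟨y, h, rfl⟩, mul_one]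
    · rw [image_eq_zero_of_notMem_tsupport h, zero_mul]
  have h0 : 0 ≤ ∏ k, u k (y k) := Finset.prod_nonneg fun k _ => (hu3 k _).1
  have h1 : ∏ k, u k (y k) ≤ 1 :=
    Finset.prod_le_one (fun k _ => (hu3 k _).1) fun k _ => (hu3 k _).2
  rw [e1, e2, ← sub_mul, abs_mul, abs_of_nonneg h0]
  by_cases hy : y ∈ Set.pi Set.univ fun k => tsupport (u k)
  · have h2 : |f y - g y| ≤ ε := by
      have := (hfg y hy).le
      rwa [Real.norm_eq_abs, abs_sub_comm] at this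
    calc |f y - g y| * ∏ k, u k (y k) ≤ ε * 1 := mul_le_mul h2 h1 h0 hε.le
      _ = ε := mul_one ε
  · obtain ⟨k, hk⟩ : ∃ k, y k ∉ tsupport (u k) := by
      by_contra hc
      exact hy fun k _ => by_contra fun h => hc ⟨k, h⟩
    have h3 : u k (y k) = 0 := image_eq_zero_of_notMem_tsupport hk
    have h4 : ∏ k, u k (y k) = 0 := Finset.prod_eq_zero (Finset.mem_univ k) h3
    rw [h4, mul_zero]
    exact hε.le

theorem vsw_ccs (Γ : Subgroup SL(2, ℤ)) : ContinuousConstSMul Γ ℍ :=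
  ⟨fun γ => continuous_const_smul (Matrix.SpecialLinearGroup.mapGL ℝ (γ : SL(2, ℤ)))⟩

theorem vsw_pd : ProperlyDiscontinuousSMul SL(2, ℤ) ℍ := by
  constructor
  intro K L hK hL
  have h := (Subgroup.properlyDiscontinuousSMul_iff (α := ℍ) 𝒮ℒ).1 inferInstance hK hL
  refine (h.preimage (Matrix.SpecialLinearGroup.mapGL_injective (R := ℤ) (S := ℝ)).injOn).subset
    fun γ hγ => ⟨⟨γ, rfl⟩, hγ⟩

theorem vsw_oq (Γ : Subgroup SL(2, ℤ)) :
    IsOpenQuotientMap (Quotient.mk (MulAction.orbitRel Γ ℍ)) := by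
  have := vsw_ccs Γ
  exact MulAction.isOpenQuotientMap_quotientMk

theorem YG_t2 (Γ : Subgroup SL(2, ℤ)) : T2Space (YG Γ) := by
  have := vsw_ccs Γ
  have := vsw_pd
  exact t2Space_of_properlyDiscontinuousSMul_of_t2Space

theorem YG_lc (Γ : Subgroup SL(2, ℤ)) : LocallyCompactSpace (YG Γ) :=
  (vsw_oq Γ).locallyCompactSpace

theorem vsw_lift {X Z : Type} [TopologicalSpace X] [TopologicalSpace Z]
    [WeaklyLocallyCompactSpace X] {π : X → Z} (hπ : IsOpenQuotientMap π) {S : Set Z}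
    (hS : IsCompact S) : ∃ K : Set X, IsCompact K ∧ S ⊆ π '' K := by
  refine hS.induction_on (p := fun S => ∃ K : Set X, IsCompact K ∧ S ⊆ π '' K) ?_ ?_ ?_ ?_
  · exact ⟨∅, isCompact_empty, Set.empty_subset _⟩
  · rintro s t hst ⟨K, hK, h⟩
    exact ⟨K, hK, hst.trans h⟩
  · rintro s t ⟨K, hK, h⟩ ⟨K', hK', h'⟩
    refine ⟨K ∪ K', hK.union hK', ?_⟩
    rw [Set.image_union]
    exact Set.union_subset_union h h'
  · intro z _
    obtain ⟨x, rfl⟩ := hπ.surjective z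
    obtain ⟨K, hK, hx⟩ := exists_compact_mem_nhds x
    exact ⟨π '' K, mem_nhdsWithin_of_mem_nhds (hπ.isOpenMap.image_mem_nhds hx), K, hK,
      Set.Subset.rfl⟩

theorem YG_pull {Γ : Subgroup SL(2, ℤ)} {a : YG Γ → ℝ} (hc : Continuous a)
    (hs : HasCompactSupport a) :
    ∃ b : ℍ →ᵇ ℝ, (∀ τ, b τ = a (Quotient.mk _ τ)) ∧ CSp b := by
  obtain ⟨C, hC⟩ := hc.bounded_above_of_compact_support hs
  refine ⟨BoundedContinuousFunction.ofNormedAddCommGroup (fun τ => a (Quotient.mk _ τ))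
    (hc.comp (vsw_oq Γ).continuous) C fun τ => hC _, fun τ => rfl, ?_⟩
  obtain ⟨K, hK, hS⟩ := vsw_lift (vsw_oq Γ) hs.isCompact
  refine ⟨K, hK, fun τ hτ => ?_⟩
  obtain ⟨x, hx, he⟩ := hS (subset_tsupport a hτ)
  obtain ⟨γ, hγ⟩ : x ∈ MulAction.orbit Γ τ := MulAction.orbitRel_apply.1 (Quotient.exact he)
  refine ⟨γ, ?_⟩
  have e : (γ : SL(2, ℤ)) • τ = x := hγ
  rw [e]
  exact hx

theorem vsw_avg_sum {α T : Type} [Fintype T] (O : Finset α) (c : T → ℝ) (G : T → α → ℝ) :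
    avg O (fun y => ∑ j, c j * G j y) = ∑ j, c j * avg O (G j) := by
  simp only [avg]
  rw [Finset.sum_comm, Finset.sum_div]
  refine Finset.sum_congr rfl fun j _ => ?_
  rw [← Finset.mul_sum, mul_div_assoc]

theorem vsw_avg_sub {α : Type} (O : Finset α) {F G : α → ℝ} {ε : ℝ} (hε : 0 ≤ ε)
    (h : ∀ y, |F y - G y| ≤ ε) : |avg O F - avg O G| ≤ ε := by
  rcases O.eq_empty_or_nonempty with rfl | hO
  · simpa [avg] using hε
  · have e : avg O F - avg O G = avg O fun y => F y - G y := by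
      simp only [avg]
      rw [Finset.sum_sub_distrib, sub_div]
    rw [e]
    exact abs_avg_le hO _ fun z _ => h z

theorem vsw_int {n : ℕ} {Γ : Fin n → Subgroup SL(2, ℤ)} (μ : Measure (Fin n → ℍ))
    [IsProbabilityMeasure μ] {F : (∀ k, YG (Γ k)) → ℝ} (hF : Continuous F) {C : ℝ}
    (hC : ∀ y, ‖F y‖ ≤ C) : Integrable (fun w : Fin n → ℍ => F fun k => Quotient.mk _ (w k)) μ := by
  have hc : Continuous fun w : Fin n → ℍ => F fun k => Quotient.mk _ (w k) :=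
    hF.comp (continuous_pi fun k => (vsw_oq (Γ k)).continuous.comp (continuous_apply k))
  exact Integrable.of_bound hc.aestronglyMeasurable C (Eventually.of_forall fun w => hC _)

/-- Convergence for products of functions of one variable is enough. -/
theorem final_prod {n : ℕ} (Γ : Fin n → Subgroup SL(2, ℤ)) [∀ k, (Γ k).FiniteIndex]
    (O : ℕ → Set (∀ k, YG (Γ k))) (hO : ∀ i, (O i).Finite)
    (h : ∀ a : ∀ k, YG (Γ k) → ℝ, (∀ k, Continuous (a k) ∧ HasCompactSupport (a k)) →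
      Tendsto (fun i => avg (fO (O i)) fun y => ∏ k, a k (y k)) atTop
        (𝓝 (∏ k, ∫ w, a k (Quotient.mk _ w) ∂mH (Γ k))))
    (f : (∀ k, YG (Γ k)) → ℝ) (hf : Continuous f) (hs : HasCompactSupport f) :
    Tendsto (fun i => (∑ᶠ y ∈ O i, f y) / (O i).ncard) atTop
      (𝓝 (∫ w, f (fun k => Quotient.mk _ (w k)) ∂(Measure.pi fun k => mH (Γ k)))) := by
  have := fun k => YG_t2 (Γ k)
  have := fun k => YG_lc (Γ k)
  have : ∀ k, IsProbabilityMeasure (mH (Γ k)) := fun k => mH_prob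
  have e0 : (fun i => (∑ᶠ y ∈ O i, f y) / (O i).ncard) = fun i => avg (fO (O i)) f := by
    funext i
    rw [avg, card_fO, fO_eq (hO i), finsum_mem_eq_finite_toFinset_sum f (hO i)]
  rw [e0, Metric.tendsto_atTop]
  intro ε hε
  obtain ⟨m, c, a, ha, hfa⟩ := sw_prod hf hs (show 0 < ε / 4 by positivity)
  have hpc : ∀ j, Continuous fun y : ∀ k, YG (Γ k) => ∏ k, a j k (y k) := fun j =>
    continuous_finsetProd _ fun k _ => (ha j k).1.comp (continuous_apply k)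
  have hpb : ∀ j, ∃ C, ∀ y : ∀ k, YG (Γ k), ‖∏ k, a j k (y k)‖ ≤ C := fun j => by
    choose C hC using fun k => (ha j k).1.bounded_above_of_compact_support (ha j k).2
    refine ⟨∏ k, C k, fun y => ?_⟩
    rw [norm_prod]
    exact Finset.prod_le_prod (fun k _ => norm_nonneg _) fun k _ => hC k _
  have hpi : ∀ j, Integrable (fun w : Fin n → ℍ => ∏ k, a j k (Quotient.mk _ (w k)))
      (Measure.pi fun k => mH (Γ k)) := fun j => by
    obtain ⟨C, hC⟩ := hpb j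
    exact vsw_int _ (hpc j) hC
  obtain ⟨C, hC⟩ := hf.bounded_above_of_compact_support hs
  have hfi := vsw_int (Measure.pi fun k => mH (Γ k)) hf hC
  have hgi : Integrable (fun w : Fin n → ℍ => ∑ j, c j * ∏ k, a j k (Quotient.mk _ (w k)))
      (Measure.pi fun k => mH (Γ k)) :=
    integrable_finsetSum _ fun j _ => (hpi j).const_mul (c j)
  have e1 : ∫ w : Fin n → ℍ, ∑ j, c j * ∏ k, a j k (Quotient.mk _ (w k))
      ∂(Measure.pi fun k => mH (Γ k)) = ∑ j, c j * ∏ k, ∫ w, a j k (Quotient.mk _ w) ∂mH (Γ k) := by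
    rw [integral_finsetSum _ fun j _ => (hpi j).const_mul (c j)]
    refine Finset.sum_congr rfl fun j _ => ?_
    rw [integral_const_mul,
      integral_fintype_prod_eq_prod (fun k (w : ℍ) => a j k (Quotient.mk _ w))]
  have h1 : |(∑ j, c j * ∏ k, ∫ w, a j k (Quotient.mk _ w) ∂mH (Γ k)) -
      ∫ w, f (fun k => Quotient.mk _ (w k)) ∂(Measure.pi fun k => mH (Γ k))| ≤ ε / 4 := by
    rw [← e1, ← integral_sub hgi hfi, ← Real.norm_eq_abs]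
    refine (norm_integral_le_of_norm_le_const (C := ε / 4) (Eventually.of_forall fun w => ?_)).trans ?_
    · rw [Real.norm_eq_abs, abs_sub_comm]
      exact hfa fun k => Quotient.mk _ (w k)
    · rw [probReal_univ, mul_one]
  have h2 : Tendsto (fun i => ∑ j, c j * avg (fO (O i)) fun y => ∏ k, a j k (y k)) atTop
      (𝓝 (∑ j, c j * ∏ k, ∫ w, a j k (Quotient.mk _ w) ∂mH (Γ k))) :=
    tendsto_finsetSum _ fun j _ => (h (a j) (ha j)).const_mul (c j)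
  obtain ⟨N, hN⟩ := Metric.tendsto_atTop.1 h2 (ε / 4) (by positivity)
  refine ⟨N, fun i hi => ?_⟩
  have h3 := hN i hi
  have h4 := vsw_avg_sub (fO (O i)) (show 0 ≤ ε / 4 by positivity) hfa
  rw [vsw_avg_sum] at h4
  rw [Real.dist_eq] at h3 ⊢
  have h5 := abs_sub_le (avg (fO (O i)) f)
    (∑ j, c j * avg (fO (O i)) fun y => ∏ k, a j k (y k))
    (∑ j, c j * ∏ k, ∫ w, a j k (Quotient.mk _ w) ∂mH (Γ k))
  have h6 := abs_sub_le (avg (fO (O i)) f)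
    (∑ j, c j * ∏ k, ∫ w, a j k (Quotient.mk _ w) ∂mH (Γ k))
    (∫ w, f (fun k => Quotient.mk _ (w k)) ∂(Measure.pi fun k => mH (Γ k)))
  linarith

end Pool.Agent.EQ
end
end

-- part Pool.Agent.P.MP_ad7a55_nt.XBd
section

/-! Pairs of lattices of different orders with related directions. -/

set_option autoImplicit false

noncomputable section

open MeasureTheory Topology Filter UpperHalfPlane
open scoped MatrixGroups BoundedContinuousFunction Matrix Classical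

namespace Pool.Agent.EQ

/-- A level structure modulo `q` respected by a real-linear map. -/
def LvQ (q : ℕ) (b₀ E : ℤ) (G : ℕ) (M₁ M₂ : Lt) (α β : ℂ) : Prop :=
  2 ∣ b₀ - E ∧ ∃ v ∈ M₁, (∀ l : ℕ, l.Prime → l ∣ q → v ∉ pr l * M₁) ∧
    G * (th E - b₀) * v ∈ pr q * M₁ ∧ G * (th E - b₀) * rl α β v ∈ pr q * M₂

/-- Pairs in a fixed relative class with a map that respects the level structure. -/
def XS (n : ℤ) (C : ℝ) (q : ℕ) (b₀ E : ℤ) (g₁ g₂ : ℕ) (w : ℂ) : Set (ℂ × ℂ) :=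
  {z | ∃ (M₁ M₂ : Lt) (α β : ℂ) (B : ℤ), DiscL M₁ (g₁ ^ 2 * E) ∧ DiscL M₂ (g₂ ^ 2 * E) ∧
    jL M₁ = z.1 ∧ jL M₂ = z.2 ∧ jL (M₂ * cj M₁) = w ∧
    Hm n C (g₁ ^ 2 * E) (g₂ ^ 2 * E) M₁ M₂ α β B ∧ LvQ q b₀ E (g₁ * g₂) M₁ M₂ α β}

theorem XS_finite (n : ℤ) (C : ℝ) (q : ℕ) (b₀ E : ℤ) (g₁ g₂ : ℕ) (w : ℂ) :
    (XS n C q b₀ E g₁ g₂ w).Finite := by
  refine ((Cl_finite (g₁ ^ 2 * E)).prod (Cl_finite (g₂ ^ 2 * E))).subset ?_
  rintro z ⟨M₁, M₂, α, β, B, h₁, h₂, e₁, e₂, -⟩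
  exact ⟨⟨M₁, h₁, e₁⟩, ⟨M₂, h₂, e₂⟩⟩

theorem hm_int {E : ℤ} (hE : IsD E) {g₁ g₂ : ℕ} (hg : g₁.Coprime g₂) {M₁ M₂ : Lt}
    (h₁ : DiscL M₁ (g₁ ^ 2 * E)) (h₂ : DiscL M₂ (g₂ ^ 2 * E)) {α β : ℂ}
    (h : ∀ z ∈ M₁, rl α β z ∈ M₂) : ∃ B : ℤ,
      Real.sqrt (((g₁ : ℤ) ^ 2 * E : ℤ) * ((g₂ : ℤ) ^ 2 * E : ℤ)) * Complex.normSq β * vol M₁ =
        B * vol M₂ := by
  obtain ⟨k₁, k₂, -⟩ := discL_mul_cop hE hg h₁ h₂
  obtain ⟨n, hn⟩ := k₁.normSq_nat (rl_mem h₁.isLat h).2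
  have v1 := vol_pos h₁.isLat
  have d1 : (0 : ℝ) < -(((g₁ : ℤ) ^ 2 * E : ℤ) : ℝ) := by
    have : (((g₁ : ℤ) ^ 2 * E : ℤ) : ℝ) < 0 := by exact_mod_cast h₁.isD.1
    linarith
  have d2 : (0 : ℝ) < -(((g₂ : ℤ) ^ 2 * E : ℤ) : ℝ) := by
    have : (((g₂ : ℤ) ^ 2 * E : ℤ) : ℝ) < 0 := by exact_mod_cast h₂.isD.1
    linarith
  refine ⟨n, ?_⟩
  rw [← neg_mul_neg (((g₁ : ℤ) ^ 2 * E : ℤ) : ℝ), Real.sqrt_mul d1.le]
  rw [k₂, nm, nm, map_mul, map_mul, map_mul, Complex.normSq_I, Complex.normSq_ofReal,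
    Complex.normSq_ofNat] at hn
  have s1 := Real.sqrt_pos.2 d1
  have s2 := Real.sqrt_pos.2 d2
  generalize Real.sqrt (-(((g₁ : ℤ) ^ 2 * E : ℤ) : ℝ)) = x at hn s1 ⊢
  generalize Real.sqrt (-(((g₂ : ℤ) ^ 2 * E : ℤ) : ℝ)) = y at hn s2 ⊢
  field_simp at hn
  push_cast
  linear_combination hn

theorem xbd_be {E b₀ : ℤ} (h : 2 ∣ b₀ - E) : (th E - b₀) / 2 ∈ OD E := by
  obtain ⟨k, hk⟩ := h
  refine mem_sp.2 ⟨-(k + E), 1, ?_⟩
  have e : (b₀ : ℂ) - E = 2 * k := by exact_mod_cast hk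
  push_cast
  linear_combination (-1 / 2 : ℂ) * e

theorem xbd_div {E b₀ : ℤ} (h : 2 ∣ b₀ - E) {T M : Lt} (hT : DiscL T E) (hM : M ≤ T) {q G : ℕ}
    (hc : IsCoprime (q : ℤ) (2 * G)) {w : ℂ} (hw : w ∈ M)
    (h1 : G * (th E - b₀) * w ∈ pr q * M) : ∃ u ∈ T, q * u = (th E - b₀) / 2 * w := by
  obtain ⟨u, hu, e⟩ := mem_pr_mul.1 h1
  refine mem_pr_mul.1 (mem_of_coprime_fac hc
    (mem_pr_mul.2 ⟨_, ctd2_OD_mul hT (xbd_be h) (hM hw), ?_⟩) (mem_pr_mul.2 ⟨u, hM hu, ?_⟩))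
  · push_cast
    ring
  · push_cast
    linear_combination e

theorem Dt.Geo.lvq {d : Dt} {κ : ℕ} {C : ℝ} {M₁ M₂ : Lt} {α β c : ℂ} {τ : ℍ} {Θ η₁ η₂ : M2}
    {B : ℤ} (h : d.Good κ) (g : d.Geo C M₁ M₂ α β c τ Θ η₁ η₂ B) {q : ℕ} (hq : 0 < q)
    (hc : IsCoprime (q : ℤ) (2 * d.m)) {b₀ : ℤ} (hl : LvQ q b₀ d.E d.G M₁ M₂ α β) :
    Lvl q b₀ Θ η₁ η₂ := by
  obtain ⟨t₁, -, s₁, r₁⟩ := discL_up h.isD g.d₁
  obtain ⟨t₂, -, s₂, r₂⟩ := discL_up h.isD g.d₂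
  have q0 : (q : ℂ) ≠ 0 := Nat.cast_ne_zero.2 hq.ne'
  have hcG : IsCoprime (q : ℤ) (2 * d.G) :=
    hc.of_isCoprime_of_dvd_right ⟨d.n, by simp only [Dt.m]; ring⟩
  have hcm : IsCoprime (q : ℤ) d.m := hc.of_mul_right_right
  obtain ⟨hb, w, hw, hp, h3, h4⟩ := hl
  obtain ⟨w1, hw1, e1⟩ := xbd_div hb t₁ s₁ hcG hw h3
  obtain ⟨w2, hw2, e2⟩ := xbd_div hb t₂ s₂ hcG (g.hm.map _ hw) h4
  obtain ⟨v, rfl⟩ := tgb_mem.1 (g.bas.le (s₁ hw))
  have hcv : IsCoprime (Int.gcd (v 0) (v 1) : ℤ) q := by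
    rw [Nat.isCoprime_iff_coprime]
    refine Nat.coprime_of_dvd fun l hl l1 l2 => hp l hl l2 ?_
    obtain ⟨a, ha⟩ := (Int.natCast_dvd_natCast.2 l1).trans (Int.gcd_dvd_left (v 0) (v 1))
    obtain ⟨b, hb'⟩ := (Int.natCast_dvd_natCast.2 l1).trans (Int.gcd_dvd_right (v 0) (v 1))
    have e : (l : ℂ) * (c * ev τ ![a, b]) = c * ev τ v := by
      simp only [ev, ha, hb', Matrix.cons_val_zero, Matrix.cons_val_one]
      push_cast
      ring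
    have hlg : IsCoprime (l : ℤ) (d.g₁ : ℤ) :=
      (hcG.of_isCoprime_of_dvd_left (Int.natCast_dvd_natCast.2 l2)).of_isCoprime_of_dvd_right
        ⟨2 * d.g₂, by simp only [Dt.G]; push_cast; ring⟩
    refine mem_pr_mul.2 ⟨c * ev τ ![a, b], mem_of_coprime_fac hlg ?_ ?_, e⟩
    · rw [Int.cast_natCast, e]
      exact hw
    · rw [Int.cast_natCast]
      exact pr_mul_le.1 r₁ _ (g.bas.ge (tgb_mem.2 ⟨_, rfl⟩))
  obtain ⟨r, t, hr⟩ := hcv
  rw [Int.gcd_eq_gcd_ab] at hr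
  have key : ∀ (e : ℂ) (η : M2), e ∈ d.LL → d.Lk M₁ α β c τ e η →
      ∃ lam : ℤ, ∀ i, (q : ℤ) ∣ (η *ᵥ v) i - lam * v i := by
    intro e η he hk
    have k1 := hk v
    have k2 := Dt.tgb_up h g he hw1
    generalize η *ᵥ v = u at k1 ⊢
    have k3 : ((dt v u * d.m : ℤ) * ((Pool.Agent.EQ.th d.E - b₀) / 2) / q : ℂ) ∈ OD d.E := by
      refine (t₂.end_iff _).1 (pr_mul_le.2 fun w hw => ?_)
      obtain ⟨z, hz, e3⟩ := rl_index g.d₁.isLat g.d₂.isLat g.hm.map g.hm.deg _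
        (pr_mul_le.1 r₂ w hw)
      obtain ⟨s, rfl⟩ := tgb_mem.1 (g.bas.le (s₁ hz))
      have e4 : dt v u • s = dt s u • v + dt v s • u := by
        funext i
        revert i
        refine Fin.forall_fin_two.2 ⟨?_, ?_⟩ <;>
          simp only [dt, Pi.add_apply, Pi.smul_apply, smul_eq_mul] <;> ring
      have e5 := congrArg (fun y => rl α β (c * ev τ y)) e4
      simp only [tgb_lin, tgb_smul, cte_lin, tgb_rl, e3] at e5
      refine (congrArg (· ∈ M₂ * OD d.E) ?_).mp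
        (add_mem ((M₂ * OD d.E).smul_mem (dt s u * d.g₁) hw2)
          ((M₂ * OD d.E).smul_mem (dt v s * d.m) k2))
      simp only [zsmul_eq_mul]
      rw [div_mul_eq_mul_div _ (q : ℂ), eq_div_iff q0]
      have em : (d.m : ℂ) = d.n * (d.g₁ * d.g₂) := by
        simp only [Dt.m, Dt.G]
        push_cast
        ring
      push_cast
      linear_combination (dt s u * d.g₁ : ℂ) * e2 +
        (dt v s * d.m * (e / nm d.E (M₁ * OD d.E)) : ℂ) * e1 -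
        (Pool.Agent.EQ.th d.E - b₀) / 2 * d.g₁ * e5 -
        (Pool.Agent.EQ.th d.E - b₀) / 2 * dt v s * k1 -
        (Pool.Agent.EQ.th d.E - b₀) / 2 * dt v u * w * em
    obtain ⟨x, y, e6⟩ := mem_sp.1 k3
    rw [div_eq_iff q0] at e6
    generalize hN : dt v u * d.m = N at e6
    have e7 := congrArg Complex.im e6
    simp at e7
    have e8 : N = q * y := by
      have : (N : ℝ) = q * y :=
        mul_right_cancel₀ (ord2_th_im_ne h.E_neg) (by linarith)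
      exact_mod_cast this
    obtain ⟨y', e9⟩ : (q : ℤ) ∣ dt v u := hcm.dvd_of_dvd_mul_right ⟨y, hN.trans e8⟩
    rw [dt] at e9
    refine ⟨r * (v 0).gcdA (v 1) * u 0 + r * (v 0).gcdB (v 1) * u 1, Fin.forall_fin_two.2
      ⟨⟨t * u 0 - r * (v 0).gcdB (v 1) * y', ?_⟩, ⟨t * u 1 + r * (v 0).gcdA (v 1) * y', ?_⟩⟩⟩
    · linear_combination (-u 0) * hr - r * (v 0).gcdB (v 1) * e9
    · linear_combination (-u 1) * hr + r * (v 0).gcdA (v 1) * e9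
  obtain ⟨l₁, k₁⟩ := key _ _ (ord_left _ _) g.k₁
  obtain ⟨l₂, k₂⟩ := key _ _ (ord_right _ _) g.k₂
  obtain ⟨u, rfl⟩ := tgb_mem.1 (g.bas.le hw1)
  refine ⟨v, r * (v 0).gcdA (v 1), r * (v 0).gcdB (v 1), l₁, l₂, ⟨-t, by linear_combination hr⟩,
    fun i => ?_, k₁, k₂⟩
  have e9 := tgb_inj g.ne (τ := τ) (k := 2 * q) (u := u) (v := (1 : ℤ) • (Θ *ᵥ v) + (-b₀) • v) (by
    rw [tgb_lin, g.th.mul]
    push_cast
    linear_combination (-2) * e1) i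
  simpa [sub_eq_add_neg] using e9

theorem xbd_diag {n D₁ D₂ : ℤ} (hn : n.natAbs = 1) {C : ℝ} {M₁ M₂ : Lt} {α β : ℂ}
    (h₁ : DiscL M₁ D₁) (h₂ : DiscL M₂ D₂) (hm : Hm n C D₁ D₂ M₁ M₂ α β 0) :
    Isog 1 (jL M₁) (jL M₂) := by
  have v1 := vol_pos h₁.isLat
  have v2 := vol_pos h₂.isLat
  have hE : (D₁ : ℝ) < 0 := by exact_mod_cast h₁.isD.1
  have hE' : (D₂ : ℝ) < 0 := by exact_mod_cast h₂.isD.1
  have hs : 0 < Real.sqrt (D₁ * D₂) := Real.sqrt_pos.2 (mul_pos_of_neg_of_neg hE hE')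
  have hβ : β = 0 := by
    have h := hm.inv
    rw [Int.cast_zero, zero_mul] at h
    rcases mul_eq_zero.1 h with h | h
    · exact Complex.normSq_eq_zero.1 ((mul_eq_zero.1 h).resolve_left hs.ne')
    · exact absurd h v1.ne'
  subst hβ
  have hd := hm.deg
  rw [map_zero, sub_zero] at hd
  obtain rfl : n = 1 := by
    rcases Int.natAbs_eq_iff.1 hn with h | h
    · simpa using h
    · exfalso
      rw [h] at hd
      have := mul_nonneg (Complex.normSq_nonneg α) v1.le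
      push_cast at hd
      linarith
  have hα : α ≠ 0 := by
    rintro rfl
    simp only [map_zero, zero_mul, Int.cast_one, one_mul] at hd
    exact v2.ne hd
  have e : M₂ = pr α * M₁ := by
    refine le_antisymm (fun w hw => ?_) (pr_mul_le.2 fun w hw => ?_)
    · obtain ⟨z, hz, e⟩ := rl_index h₁.isLat h₂.isLat hm.map hm.deg w hw
      exact mem_pr_mul.2 ⟨z, hz, by simpa [rl] using e⟩
    · simpa [rl] using hm.map w hw
  refine ⟨M₁, M₁, h₁.isLat, h₁.isLat, rfl, by rw [e, jL_pr_mul h₁.isLat hα], le_rfl,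
    pr_mul_le.2 fun w hw => by simpa using hw⟩

theorem xbd_geo {d : Dt} (h : d.Good 0) {C : ℝ} {q : ℕ} (hq : 0 < q)
    (hc : IsCoprime (q : ℤ) (2 * d.m)) {b₀ : ℤ} (hn : d.n.natAbs = 1) {z : ℂ × ℂ}
    (hz : z ∈ XS d.n C q b₀ d.E d.g₁ d.g₂ (jL d.LL)) (hi : ¬ Isog 1 z.1 z.2) :
    ∃ τ Θ η₁ η₂ B, d.GZ C z τ Θ η₁ η₂ B ∧ B ≠ 0 ∧ Lvl q b₀ Θ η₁ η₂ := by
  obtain ⟨M₁, M₂, α, β, B, h₁, h₂, e₁, e₂, hj, hm, hl⟩ := hz
  have hB : B ≠ 0 := by
    rintro rfl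
    exact hi (e₁ ▸ e₂ ▸ xbd_diag hn h₁ h₂ hm)
  obtain ⟨τ, hτ⟩ := jInv_surj (jL (M₁ * OD d.E))
  obtain ⟨s, c, Θ, η₁, η₂, hs, g⟩ := Dt.geo_ex h h₁ h₂ hj hm hτ
  refine ⟨τ, Θ, η₁, η₂, B, ⟨M₁, pr s * M₂, s * α, s * β, c, e₁,
    (jL_pr_mul h₂.isLat hs).trans e₂, g⟩, hB, g.lvq h hq hc ?_⟩
  obtain ⟨l1, v, hv, l2, l3, l4⟩ := hl
  refine ⟨l1, v, hv, l2, l3, ?_⟩
  obtain ⟨w, hw, e⟩ := mem_pr_mul.1 l4
  refine mem_pr_mul.2 ⟨s * w, mem_pr_mul.2 ⟨w, hw, rfl⟩, ?_⟩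
  simp only [rl, Dt.G] at e ⊢
  linear_combination s * e

theorem xs_le : ∃ (K : ℝ) (A R₀ : ℕ), 0 < K ∧ ∀ (n b₀ E : ℤ) (C : ℝ) (g₁ g₂ R : ℕ) (S : Finset ℕ)
    (w : ℂ), n.natAbs = 1 → 1 ≤ C → IsD E → 0 < g₁ → 0 < g₂ → g₁.Coprime g₂ → S.Nonempty →
    (∀ l ∈ S, l.Prime ∧ l ≠ 2 ∧ jacobiSym E l = 1 ∧ ¬ l ∣ g₁ * g₂) →
    ∑ l ∈ S, (l : ℝ) ^ (-(1 / 4 : ℝ)) ≤ 1 → R₀ ≤ R → C ≤ R → (∏ l ∈ S, l) ^ 200 ≤ R →
    ({z | z ∈ XS n C (∏ l ∈ S, l) b₀ E g₁ g₂ w ∧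
        ∀ M : ℕ, 0 < M → M ≤ R → ¬ Isog M z.1 z.2}.ncard : ℝ) ≤
      K * C * Real.log (-(((g₁ * g₂ : ℕ) ^ 2 * E : ℤ) : ℝ)) ^ A / (∏ l ∈ S, l : ℕ) *
        HH ((g₁ * g₂ : ℕ) ^ 2 * E) := by
  obtain ⟨C₂, A, N₀, hC₂, hcnt⟩ := Dt.cnt_lev
  obtain ⟨L, hL, hEE⟩ := EE_log
  refine ⟨16 * C₂ * 2 ^ A * L, A + 1, N₀ ^ 2, by positivity,
    fun n b₀ E C g₁ g₂ R S w hn hC hE hg₁ hg₂ hg hS hP hsum hR hCR hqR => ?_⟩
  obtain ⟨p, hp⟩ := hS
  obtain ⟨q, hq⟩ : ∃ q, q = ∏ l ∈ S, l := ⟨_, rfl⟩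
  have hq' : ∏ l ∈ S, l ^ (fun _ => 1 : ℕ → ℕ) l = q := by simp only [pow_one, hq]
  rw [← hq] at hqR ⊢
  have hq0 : 0 < q := hq ▸ Finset.prod_pos fun l hl => (hP l hl).1.pos
  have hD : ((g₁ * g₂ : ℕ) : ℤ) ^ 2 * E ≤ -3 := by
    have h1 : (1 : ℤ) ≤ ((g₁ * g₂ : ℕ) : ℤ) ^ 2 :=
      one_le_pow₀ (by exact_mod_cast Nat.mul_pos hg₁ hg₂)
    have h2 : E ≤ -3 := by
      obtain ⟨h0, h4⟩ := hE
      omega
    nlinarith
  have hD3 : (3 : ℝ) ≤ -((((g₁ * g₂ : ℕ) : ℤ) ^ 2 * E : ℤ) : ℝ) := by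
    have : ((((g₁ * g₂ : ℕ) : ℤ) ^ 2 * E : ℤ) : ℝ) ≤ -3 := by exact_mod_cast hD
    linarith
  have hlog : 0 ≤ Real.log (-((((g₁ * g₂ : ℕ) : ℤ) ^ 2 * E : ℤ) : ℝ)) :=
    Real.log_nonneg (by linarith)
  have hR1 : 1 ≤ R := by exact_mod_cast hC.trans hCR
  set T := {z | z ∈ XS n C q b₀ E g₁ g₂ w ∧ ∀ M : ℕ, 0 < M → M ≤ R → ¬ Isog M z.1 z.2} with hT
  rcases T.eq_empty_or_nonempty with h0 | ⟨z₀, hz₀⟩
  · rw [h0, Set.ncard_empty, Nat.cast_zero]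
    have := tti_HH_nonneg (((g₁ * g₂ : ℕ) : ℤ) ^ 2 * E)
    positivity
  have hw : w ∈ Cl E := by
    obtain ⟨⟨M₁, M₂, α, β, B, h₁, h₂, -, -, hw, -⟩, -⟩ := hz₀
    exact ⟨_, (discL_mul_cop hE hg.symm h₂ h₁.cj).1, hw⟩
  obtain ⟨a, b, c, ha, hb, hc, hprim, hEe, hwe⟩ := exists_red hw
  obtain ⟨d, rfl, rfl, rfl, rfl, rfl, rfl, rfl⟩ : ∃ d : Dt, d.a = a ∧ d.b = b ∧ d.c = c ∧
      d.n = n ∧ d.g₁ = g₁ ∧ d.g₂ = g₂ ∧ d.p = p := ⟨⟨a, b, c, n, g₁, g₂, p⟩, by simp⟩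
  obtain rfl : d.E = E := hEe
  obtain rfl : jL d.LL = w := hwe
  have hn0 : d.n ≠ 0 := Int.natAbs_ne_zero.1 (by omega)
  have h : d.Good 0 := ⟨ha, hE.1, hprim, hn0, hg₁, hg₂, hg, (hP _ hp).1,
    (padicValNat.eq_zero_of_not_dvd (hP _ hp).2.2.2).le⟩
  change (3 : ℝ) ≤ -((d.G ^ 2 * d.E : ℤ) : ℝ) at hD3
  change 0 ≤ Real.log (-((d.G ^ 2 * d.E : ℤ) : ℝ)) at hlog
  change (d.G : ℤ) ^ 2 * d.E ≤ -3 at hD
  show (T.ncard : ℝ) ≤ 16 * C₂ * 2 ^ A * L * C * Real.log (-((d.G ^ 2 * d.E : ℤ) : ℝ)) ^ (A + 1) /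
    q * HH (d.G ^ 2 * d.E)
  have hG : 0 < d.G := Nat.mul_pos hg₁ hg₂
  have hcop : IsCoprime (q : ℤ) (2 * d.m) := by
    rw [hq, Nat.cast_prod]
    refine IsCoprime.prod_left fun l hl => ?_
    obtain ⟨l1, l2, -, l4⟩ := hP l hl
    rw [Int.isCoprime_iff_gcd_eq_one, Int.gcd, Int.natAbs_natCast, Dt.m, Int.natAbs_mul,
      Int.natAbs_mul, hn, one_mul, Int.natAbs_natCast]
    refine (Nat.Prime.coprime_iff_not_dvd l1).2 fun hd => ?_
    rcases (Nat.Prime.dvd_mul l1).1 hd with hd | hd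
    · exact l2 ((Nat.prime_dvd_prime_iff_eq l1 Nat.prime_two).1 hd)
    · exact l4 hd
  have hgeo : ∀ z ∈ T, ∃ τ Θ η₁ η₂ B, d.GZ C z τ Θ η₁ η₂ B ∧ B ≠ 0 ∧ Lvl q b₀ Θ η₁ η₂ :=
    fun z hz => xbd_geo h hq0 hcop hn hz.1 (hz.2 1 one_pos hR1)
  have hGa : (R : ℝ) ≤ d.G * d.a := by
    by_contra hlt
    obtain ⟨τ, Θ, η₁, η₂, B, ⟨M₁, M₂, α, β, c, e₁, e₂, g⟩, -⟩ := hgeo z₀ hz₀
    have h1 : (d.G : ℤ) * d.a ≤ R := by exact_mod_cast (not_le.1 hlt).le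
    have h2 : (d.G : ℤ) * d.a = ((d.G * d.a.natAbs : ℕ) : ℤ) := by
      push_cast
      rw [abs_of_pos ha]
    refine hz₀.2 (d.G * d.a.natAbs) (Nat.mul_pos hG (Int.natAbs_pos.2 ha.ne'))
      (by rw [h2] at h1; exact_mod_cast h1) ?_
    rw [← e₁, ← e₂]
    exact g.isog h (h2 ▸ dvd_rfl)
  have hnC : (|d.n| : ℝ) ≤ C := by
    have e : ((d.n.natAbs : ℕ) : ℝ) = |(d.n : ℝ)| := by rw [Nat.cast_natAbs, Int.cast_abs]
    rw [← e, hn, Nat.cast_one]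
    exact hC
  obtain ⟨H, N, hsz, hH, hN, -, hHN, hprod⟩ := tex_sz h hC hnC hb hc (hCR.trans hGa)
  have hGa0 : 0 ≤ (d.G : ℝ) * d.a := (Nat.cast_nonneg R).trans hGa
  have hRH : 4 * R ≤ H ^ 2 := by
    have h1 := le_mul_of_one_le_left hGa0 hC
    have h2 : 4 * (R : ℝ) ≤ (H : ℝ) ^ 2 := by linarith
    exact_mod_cast h2
  have hRN : R ≤ N ^ 2 := by
    have h1 : H ^ 2 ≤ (2 * N) ^ 2 := Nat.pow_le_pow_left hHN 2
    rw [mul_pow] at h1
    omega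
  have hq2 : q ^ 200 = (q ^ 100) ^ 2 := by rw [← pow_mul]
  have hN0 : N₀ ≤ N :=
    (pow_le_pow_iff_left₀ (Nat.zero_le _) (Nat.zero_le _) two_ne_zero).1 (hR.trans hRN)
  have hqN : q ^ 100 ≤ N :=
    (pow_le_pow_iff_left₀ (Nat.zero_le _) (Nat.zero_le _) two_ne_zero).1 (hq2 ▸ hqR.trans hRN)
  have hqH : q ^ 2 ≤ H := by
    refine (Nat.pow_le_pow_right hq0 (by norm_num : 2 ≤ 100)).trans ?_
    refine (pow_le_pow_iff_left₀ (Nat.zero_le _) (Nat.zero_le _) two_ne_zero).1 ?_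
    rw [← hq2]
    omega
  have hZ := tpair_boxfin h.a_pos H N
  have k1 := Dt.geo_sum (C := C) h T hZ.toFinset (Lvl q b₀) (d.WS S (d.wl fun _ => 1))
    (fun z hz => by
      obtain ⟨τ, Θ, η₁, η₂, B, gz, hB, hl⟩ := hgeo z hz
      obtain ⟨b1, b2, b3, b4⟩ := gz.box h hC hB hH hN
      exact ⟨τ, Θ, η₁, η₂, B, gz, hZ.mem_toFinset.2 ⟨b1, b2, b3, b4⟩, hl⟩)
    (fun x hx => by
      have k := Dt.few_levs h S (fun _ => 1)
        (fun l hl => ⟨(hP l hl).1, (hP l hl).2.1, (hP l hl).2.2.1, one_pos⟩) b₀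
        (hZ.mem_toFinset.1 hx).ne
      rwa [hq'] at k)
  have k2 := hcnt d h hn H N hsz hN0 S (fun _ => 1) hp
    (fun l hl => by
      obtain ⟨l1, l2, l3, l4⟩ := hP l hl
      refine ⟨l1, l2, fun hd => ?_, l4, one_pos⟩
      have := Fact.mk l1
      rw [← jacobiSym.legendreSym.to_jacobiSym, (legendreSym.eq_zero_iff l d.E).2
        ((ZMod.intCast_zmod_eq_zero_iff_dvd _ _).2 hd)] at l3
      exact zero_ne_one l3)
    hsum (hq'.symm ▸ hqN) (hq'.symm ▸ hqH) hZ.toFinset fun z hz => hZ.mem_toFinset.1 hz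
  rw [hq'] at k2
  rw [hn, Nat.cast_one, one_pow, one_mul] at k1
  refine k1.trans (k2.trans ?_)
  have hab := tti_abs (show (d.G : ℤ) ^ 2 * d.E < 0 by omega)
  have hN1 : (1 : ℝ) ≤ N := by exact_mod_cast (Nat.one_le_pow _ _ hq0).trans hqN
  have k3 : Real.log N ≤ 2 * Real.log (-((d.G ^ 2 * d.E : ℤ) : ℝ)) := by
    have h1 : (N : ℝ) ≤ (-((d.G ^ 2 * d.E : ℤ) : ℝ)) ^ 2 := by
      rw [← hab]
      exact_mod_cast hsz.up
    have h2 := Real.log_le_log (by linarith) h1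
    rwa [Real.log_pow, Nat.cast_ofNat] at h2
  have k4 := (hEE (d.G ^ 2 * d.E) (d.G ^ 2 * d.E).natAbs (by omega)).2
  rw [hab] at k4
  rw [HH]
  have k5 := pow_le_pow_left₀ (Real.log_natCast_nonneg N) k3 A
  have k6 := Real.sqrt_nonneg (-((d.G ^ 2 * d.E : ℤ) : ℝ))
  generalize Real.sqrt (-((d.G ^ 2 * d.E : ℤ) : ℝ)) = s at hprod k6 ⊢
  generalize EE (d.G ^ 2 * d.E) (d.G ^ 2 * d.E).natAbs = e at k4 ⊢
  generalize Real.log (-((d.G ^ 2 * d.E : ℤ) : ℝ)) = x at k4 k5 hlog ⊢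
  calc C₂ * Real.log N ^ A / q * N * H = C₂ / q * (Real.log N ^ A * (N * H)) * 1 := by ring
    _ ≤ C₂ / q * ((2 * x) ^ A * (16 * C * s)) * (L * x * e) :=
        mul_le_mul (mul_le_mul_of_nonneg_left
          (mul_le_mul k5 hprod (by positivity) (by positivity)) (by positivity)) k4 zero_le_one
          (by positivity)
    _ = _ := by
        rw [mul_pow]
        ring

end Pool.Agent.EQ
end
end

-- part Pool.Agent.P.MP_ad7a55_nt.XKd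
section

/-! The truncated fundamental domain. -/

set_option autoImplicit false

noncomputable section

open MeasureTheory Topology Filter UpperHalfPlane
open scoped MatrixGroups BoundedContinuousFunction Matrix Classical

namespace Pool.Agent.EQ

/-- The truncated fundamental domain. -/
def KU (U : ℝ) : Set ℍ := {τ | τ ∈ ModularGroup.fd ∧ τ.im ≤ U}

/-- A modulus of continuity. -/
def EqC (ω : ℝ → ℝ) (g : ℍ → ℝ) : Prop :=
  ∀ ε : ℝ, 0 < ε → ∀ z w : ℍ, dist z w ≤ ω ε → |g z - g w| ≤ ε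

theorem dist_act {ξ : M2} (h : 0 < ξ.det) (z w : ℍ) : dist (act ξ z) (act ξ w) = dist z w := by
  obtain ⟨g, c, hc, e⟩ := exists_real h
  rw [(act_real hc e z).2, (act_real hc e w).2, dist_smul]

theorem isCompact_KU (U : ℝ) : IsCompact (KU U) := by
  exact ModularGroup.isCompact_truncatedFundamentalDomain U

theorem exists_net (U : ℝ) {r : ℝ} (hr : 0 < r) : ∃ (R : Finset ℍ) (cl : ℍ → ℍ),
    (∀ w ∈ R, w ∈ KU U) ∧ (∀ τ ∈ KU U, cl τ ∈ R ∧ dist τ (cl τ) ≤ r) ∧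
      ∀ τ, τ ∉ KU U → cl τ ∉ KU U := by
  obtain ⟨t, h1, h2, h3⟩ := (isCompact_KU U).finite_cover_balls hr
  have h4 : ∀ τ : ℍ, ∃ w : ℍ, (τ ∈ KU U → w ∈ t ∧ dist τ w ≤ r) ∧ (τ ∉ KU U → w = τ) := fun τ => by
    by_cases h : τ ∈ KU U
    · obtain ⟨w, hw, e⟩ := Set.mem_iUnion₂.1 (h3 h)
      exact ⟨w, fun _ => ⟨hw, le_of_lt e⟩, fun h' => absurd h h'⟩
    · exact ⟨τ, fun h' => absurd h' h, fun _ => rfl⟩
  choose cl h5 h6 using h4
  refine ⟨h2.toFinset, cl, fun w hw => h1 (h2.mem_toFinset.1 hw),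
    fun τ h => ⟨h2.mem_toFinset.2 (h5 τ h).1, (h5 τ h).2⟩, fun τ h => ?_⟩
  rw [h6 τ h]
  exact h

theorem xkd_dist (γ : SL(2, ℤ)) (z w : ℍ) : dist (γ • z) (γ • w) = dist z w := by
  rw [← act_SL, ← act_SL, dist_act (vact_SL_det γ)]

theorem xkd_unif {N : ℕ} (hN : 0 < N) {F : IntermediateField ℚ ℂ} {φ : ℍ →ᵇ ℝ} (h : Tc N F φ) :
    UniformContinuous φ := by
  obtain ⟨hT, K, hK, hs⟩ := h
  have := vcj_fin hN
  have := Fintype.ofFinite (vcjQ N)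
  have hc : Continuous fun (z : ℍ) (c : vcjQ N) => φ (c.out⁻¹ • z) :=
    continuous_pi fun c => φ.continuous.comp (Isometry.of_dist_eq (xkd_dist c.out⁻¹)).continuous
  have hu := Metric.uniformContinuousOn_iff.1
    ((hK.cthickening (r := 1)).uniformContinuousOn_of_continuous hc.continuousOn)
  have key : ∀ (γ : SL(2, ℤ)) (x : ℍ),
      φ ((QuotientGroup.mk γ : vcjQ N).out⁻¹ • γ • x) = φ x := fun γ x => by
    obtain ⟨g, e⟩ := QuotientGroup.mk_out_eq_mul (CongruenceSubgroup.Gamma N) γ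
    rw [e, mul_inv_rev, mul_smul, inv_smul_smul, hT.ginv _ (inv_mem g.2)]
  refine Metric.uniformContinuous_iff.2 fun ε hε => ?_
  obtain ⟨δ, hδ, H⟩ := hu ε hε
  have main : ∀ z w : ℍ, φ z ≠ 0 → dist z w < min δ 1 → dist (φ z) (φ w) < ε := by
    intro z w hz hd
    obtain ⟨γ, hγ⟩ := hs z hz
    rw [← xkd_dist γ] at hd
    have h1 := H (γ • z) (Metric.self_subset_cthickening K hγ) (γ • w)
      (Metric.mem_cthickening_of_dist_le _ _ 1 K hγ (by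
        rw [dist_comm]
        exact (hd.trans_le (min_le_right _ _)).le)) (hd.trans_le (min_le_left _ _))
    have h2 := (dist_le_pi_dist _ _ (QuotientGroup.mk γ : vcjQ N)).trans_lt h1
    simpa only [key] using h2
  refine ⟨min δ 1, lt_min hδ one_pos, fun {z w} hd => ?_⟩
  by_cases hz : φ z = 0
  · by_cases hw : φ w = 0
    · rw [hz, hw, dist_self]
      exact hε
    · rw [dist_comm] at hd ⊢
      exact main w z hw hd
  · exact main z w hz hd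

theorem Tc.eqC {N : ℕ} (hN : 0 < N) {F : IntermediateField ℚ ℂ} {ι : Type} [Fintype ι]
    {φ : ι → (ℍ →ᵇ ℝ)} (h : ∀ k, Tc N F (φ k)) :
    ∃ ω : ℝ → ℝ, (∀ ε, 0 < ε → 0 < ω ε) ∧ ∀ k, EqC ω (φ k) := by
  have hu : UniformContinuous fun (z : ℍ) (k : ι) => φ k z :=
    uniformContinuous_pi.2 fun k => xkd_unif hN (h k)
  have h1 : ∀ ε : ℝ, ∃ δ : ℝ, 0 < ε → 0 < δ ∧ ∀ k z w, dist z w ≤ δ → |φ k z - φ k w| ≤ ε := by
    intro ε
    by_cases hε : 0 < ε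
    · obtain ⟨δ, hδ, H⟩ := Metric.uniformContinuous_iff.1 hu ε hε
      refine ⟨δ / 2, fun _ => ⟨half_pos hδ, fun k z w hd => ?_⟩⟩
      exact ((dist_le_pi_dist _ _ k).trans_lt (H (hd.trans_lt (half_lt_self hδ)))).le
    · exact ⟨1, fun h => absurd h hε⟩
  choose ω hω using h1
  exact ⟨ω, fun ε hε => (hω ε hε).1, fun k ε hε => (hω ε hε).2 k⟩

theorem xkd_im {η : M2} (h : 0 < η.det) (τ : ℍ) :
    (act η τ).im * ‖(η 1 0 : ℂ) * τ + η 1 1‖ ^ 2 = η.det * τ.im := by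
  have hn := Complex.normSq_pos.2 (act_den h τ)
  rw [← coe_im, coe_act h, Complex.div_im, ← Complex.normSq_eq_norm_sq, ← sub_div,
    div_mul_cancel₀ _ hn.ne', Matrix.det_fin_two]
  simp
  ring

theorem ht_le_KU {U : ℝ} (hU : 1 ≤ U) {τ : ℍ} {η : M2} {n : ℕ} (hn : 0 < n) (hd : η.det = n)
    (h : τ ∈ KU U) (h' : act η τ ∈ KU U) (i j : Fin 2) :
    |(η i j : ℝ)| ≤ 4 * U ^ 2 * Real.sqrt n := by
  have hn' : (0 : ℝ) < n := by exact_mod_cast hn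
  have h0 : 0 < η.det := by rw [hd]; exact_mod_cast hn
  have e1 := xkd_im h0 τ
  have e2 := vact_den_mul h0 τ
  rw [hd, Int.cast_natCast] at e1
  have hy := (act η τ).im_pos
  have hy3 := ModularGroup.three_le_four_mul_im_sq_of_mem_fd h'.1
  have hy5 : 5 / 6 ≤ (act η τ).im := by nlinarith
  have hs := Real.sqrt_nonneg n
  have hs2 := Real.sq_sqrt hn'.le
  have hU2 : U ≤ U ^ 2 := by nlinarith
  have b1 : ‖(η 1 0 : ℂ) * τ + η 1 1‖ ≤ 11 / 10 * U * Real.sqrt n := by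
    refine (sq_le_sq₀ (norm_nonneg _) (by positivity)).1 ?_
    have f1 := mul_le_mul_of_nonneg_right hy5 (sq_nonneg ‖(η 1 0 : ℂ) * τ + η 1 1‖)
    have f2 := mul_le_mul_of_nonneg_left (h.2.trans hU2) hn'.le
    have f3 : 0 ≤ (n : ℝ) * U ^ 2 := by positivity
    rw [mul_pow, mul_pow, hs2]
    linarith
  have b2 : ‖(act η τ : ℂ)‖ ≤ 3 / 2 * U := by
    refine (Complex.norm_le_abs_re_add_abs_im _).trans ?_
    have f1 : |(act η τ).re| ≤ 1 / 2 := h'.1.2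
    have f2 := h'.2
    rw [coe_re, coe_im, abs_of_pos hy]
    linarith
  have b3 : ‖(η 0 0 : ℂ) * τ + η 0 1‖ ≤ 33 / 20 * (U ^ 2 * Real.sqrt n) := by
    rw [← e2, norm_mul]
    refine (mul_le_mul b1 b2 (norm_nonneg _) (by positivity)).trans_eq ?_
    ring
  have b4 : ‖(η 1 0 : ℂ) * τ + η 1 1‖ ≤ 33 / 20 * (U ^ 2 * Real.sqrt n) := by
    have f1 := mul_le_mul_of_nonneg_right hU2 hs
    have f2 : 0 ≤ U ^ 2 * Real.sqrt n := by positivity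
    linarith
  have key : ∀ a b : ℤ, ‖(a : ℂ) * τ + b‖ ≤ 33 / 20 * (U ^ 2 * Real.sqrt n) →
      |(a : ℝ)| ≤ 4 * U ^ 2 * Real.sqrt n ∧ |(b : ℝ)| ≤ 4 * U ^ 2 * Real.sqrt n := by
    intro a b hab
    have f1 := tga_coord h.1 (u := b) (w := -a) (S := 33 / 20 * (U ^ 2 * Real.sqrt n)) (by
      refine le_trans (le_of_eq (congrArg _ ?_)) hab
      push_cast
      ring)
    rw [Int.cast_neg, abs_neg] at f1
    have f2 : 0 ≤ U ^ 2 * Real.sqrt n := by positivity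
    constructor <;> linarith [f1.1, f1.2]
  fin_cases i <;> fin_cases j
  exacts [(key _ _ b3).1, (key _ _ b3).2, (key _ _ b4).1, (key _ _ b4).2]

theorem xkd_split (l k : ℕ) (v : V2) : ∃ j, j ≤ k ∧ ∃ v' : V2, v = (l : ℤ) ^ j • v' ∧
    (j = k ∨ ∃ i, ¬ (l : ℤ) ∣ v' i) := by
  induction k with
  | zero => exact ⟨0, le_rfl, v, by simp, Or.inl rfl⟩
  | succ k ih =>
    obtain ⟨j, hj, v', e, h⟩ := ih
    by_cases h1 : ∃ i, ¬ (l : ℤ) ∣ v' i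
    · exact ⟨j, hj.trans (Nat.le_succ k), v', e, Or.inr h1⟩
    · obtain rfl := h.resolve_right h1
      push Not at h1
      choose w hw using h1
      refine ⟨j + 1, le_rfl, w, ?_, Or.inl rfl⟩
      rw [e, pow_succ, mul_smul]
      exact congrArg _ (funext hw)

theorem xkd_lines {l k j : ℕ} (hl : l.Prime) (hk : 0 < k) (hj : j ≤ k) {v : V2}
    (h : j = k ∨ ∃ i, ¬ (l : ℤ) ∣ v i) :
    ((Xn (l ^ k)).filter fun L => (l : ℤ) ^ j • v ∈ L).card ≤ 2 * l ^ j := by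
  have hn : 0 < l ^ k := pow_pos hl.pos k
  rcases hj.eq_or_lt with rfl | hlt
  · refine (Finset.card_filter_le _ _).trans (Nat.le_of_mul_le_mul_right (c := l) ?_ hl.pos)
    refine (card_Xn hl hk).2.trans ?_
    have := hl.pos
    calc l ^ j * (l + 1) ≤ l ^ j * (2 * l) := Nat.mul_le_mul_left _ (by omega)
      _ = _ := by ring
  have hp : Prime (l : ℤ) := Nat.prime_iff_prime_int.1 hl
  obtain ⟨a, b, c, e⟩ : xlb_Pm (l ^ k) v := xlb_of_primes fun l' hl' hd => by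
    obtain rfl := (Nat.prime_dvd_prime_iff_eq hl' hl).1 (hl'.dvd_of_dvd_pow hd)
    exact h.resolve_left hlt.ne
  obtain ⟨r, rfl⟩ := Nat.exists_eq_add_of_lt hlt
  have hs : ((Xn (l ^ (j + r + 1))).filter fun L => (l : ℤ) ^ j • v ∈ L) ⊆
      (Finset.range (l ^ j)).image fun t : ℕ => Ln (l ^ (j + r + 1))
        ![v 0 - (l : ℤ) ^ (r + 1) * t * b, v 1 + (l : ℤ) ^ (r + 1) * t * a] := by
    intro L hL
    obtain ⟨h1, h2⟩ := Finset.mem_filter.1 hL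
    obtain ⟨u, hu, rfl⟩ := (mem_Xn hn).1 h1
    obtain ⟨y, hy⟩ := xlb_mem.1 h2
    simp only [Pi.smul_apply, smul_eq_mul] at hy
    push_cast at hy e
    have hy' : u 0 * v 1 - u 1 * v 0 = (l : ℤ) ^ (r + 1) * y :=
      mul_left_cancel₀ (pow_ne_zero j hp.ne_zero) (by linear_combination hy)
    have hx : ¬ (l : ℤ) ∣ a * u 0 + b * u 1 := by
      rintro ⟨x, hx⟩
      refine hp.not_isUnit (hu.isUnit_of_dvd'
        ⟨x * v 0 + b * (l : ℤ) ^ r * y + c * (l : ℤ) ^ (j + r) * u 0, ?_⟩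
        ⟨x * v 1 - a * (l : ℤ) ^ r * y + c * (l : ℤ) ^ (j + r) * u 1, ?_⟩)
      · linear_combination v 0 * hx + b * hy' - u 0 * e
      · linear_combination v 1 * hx - a * hy' - u 1 * e
    obtain ⟨t, ht, x, hx'⟩ := xlb_solve (pow_pos hl.pos j) (a := a * u 0 + b * u 1) (by
      push_cast
      exact ((hp.irreducible.coprime_iff_not_dvd).2 hx).symm.pow_right) (-y)
    refine Finset.mem_image.2 ⟨t, Finset.mem_range.2 ht, xlb_Pm.eq ⟨a, b, c, ?_⟩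
      (xlb_of_cop _ hu) (xlb_mem.2 ⟨-x, ?_⟩)⟩
    · simp only [Matrix.cons_val_zero, Matrix.cons_val_one]
      push_cast
      linear_combination e
    · simp only [Matrix.cons_val_zero, Matrix.cons_val_one]
      push_cast at hx' ⊢
      linear_combination -hy' - (l : ℤ) ^ (r + 1) * hx'
  refine (Finset.card_le_card hs).trans (Finset.card_image_le.trans ?_)
  rw [Finset.card_range]
  omega

theorem xkd_box {τ : ℍ} (h : τ ∈ ModularGroup.fd) {ρ : ℝ} (hρ : 0 ≤ ρ) : ∃ B : Finset V2,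
    (B.card : ℝ) ≤ 24 * ρ ^ 2 ∧ ∀ v : V2, v ≠ 0 → ‖ev τ v‖ ≤ ρ → v ∈ B := by
  obtain ⟨m, hm⟩ : ∃ m : ℕ, m = ⌊8 / 5 * ρ⌋₊ := ⟨_, rfl⟩
  have h1 : (m : ℝ) ≤ 8 / 5 * ρ := hm ▸ Nat.floor_le (by positivity)
  have h2 : 8 / 5 * ρ < m + 1 := hm ▸ Nat.lt_floor_add_one _
  refine ⟨(Fintype.piFinset fun _ : Fin 2 => Finset.Icc (-(m : ℤ)) m).erase 0, ?_, fun v hv hb => ?_⟩
  · have h3 : ((Fintype.piFinset fun _ : Fin 2 => Finset.Icc (-(m : ℤ)) m).erase 0).card ≤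
        8 * m ^ 2 := by
      rw [Finset.card_erase_of_mem (Fintype.mem_piFinset.2 fun _ => by simp),
        Fintype.card_piFinset, Finset.prod_const, Int.card_Icc, Finset.card_univ, Fintype.card_fin,
        show ((m : ℤ) + 1 - -(m : ℤ)).toNat = 2 * m + 1 by omega]
      have : m ≤ m ^ 2 := Nat.le_self_pow two_ne_zero m
      have : (2 * m + 1) ^ 2 = 4 * m ^ 2 + 4 * m + 1 := by ring
      omega
    have h4 : (m : ℝ) ^ 2 ≤ (8 / 5 * ρ) ^ 2 := pow_le_pow_left₀ (Nat.cast_nonneg _) h1 2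
    refine (Nat.cast_le.2 h3).trans ?_
    push_cast
    nlinarith [sq_nonneg ρ]
  · have h3 := tga_coord h hb
    have h4 : ∀ x : ℤ, |(x : ℝ)| ≤ 8 / 5 * ρ → x ∈ Finset.Icc (-(m : ℤ)) m := fun x hx => by
      have h5 : |x| < (m : ℤ) + 1 := by exact_mod_cast hx.trans_lt h2
      have := abs_lt.1 h5
      exact Finset.mem_Icc.2 ⟨by omega, by omega⟩
    refine Finset.mem_erase.2 ⟨hv, Fintype.mem_piFinset.2 fun i => ?_⟩
    fin_cases i
    exacts [h4 _ h3.1, h4 _ h3.2]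

theorem cusp_count {U Y : ℝ} (hY : 0 < Y) {τ : ℍ} (h : τ ∈ KU U) {l k : ℕ} (hl : l.Prime)
    (hk : 0 < k) : (((Xn (l ^ k)).filter fun L => ∃ η : M2, η.det = (l ^ k : ℕ) ∧
      Ker (l ^ k) η = L ∧ Y ≤ (act η τ).im).card : ℝ) ≤ 96 * U * (l ^ k : ℕ) / Y := by
  have hn : 0 < l ^ k := pow_pos hl.pos k
  have hn' : (0 : ℝ) < (l ^ k : ℕ) := by exact_mod_cast hn
  have hU : 0 < U := τ.im_pos.trans_le h.2
  have l2 : (2 : ℝ) ≤ l := by exact_mod_cast hl.two_le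
  have l0 : (0 : ℝ) < l := by linarith
  obtain ⟨R, R0, hR⟩ : ∃ R : ℝ, 0 ≤ R ∧ R ^ 2 = U * (l ^ k : ℕ) / Y :=
    ⟨Real.sqrt _, Real.sqrt_nonneg _, Real.sq_sqrt (by positivity)⟩
  choose B hB hB' using fun j : ℕ => xkd_box h.1 (ρ := R / (l : ℝ) ^ j) (by positivity)
  have hs : ((Xn (l ^ k)).filter fun L => ∃ η : M2, η.det = (l ^ k : ℕ) ∧
      Ker (l ^ k) η = L ∧ Y ≤ (act η τ).im) ⊆ (Finset.range (k + 1)).biUnion fun j =>
        ((B j).filter fun v => j = k ∨ ∃ i, ¬ (l : ℤ) ∣ v i).biUnion fun v =>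
          (Xn (l ^ k)).filter fun L => (l : ℤ) ^ j • v ∈ L := by
    intro L hL
    obtain ⟨h1, η, hd, hK, hy⟩ := Finset.mem_filter.1 hL
    have h0 : 0 < η.det := by rw [hd]; exact_mod_cast hn
    obtain ⟨j, hj, v, e, hv⟩ := xkd_split l k ![η 1 1, -η 1 0]
    have e0 : η 1 1 = (l : ℤ) ^ j * v 0 := congrFun e 0
    have e1 : -η 1 0 = (l : ℤ) ^ j * v 1 := congrFun e 1
    have e2 : (η 1 0 : ℂ) * τ + η 1 1 = (l : ℂ) ^ j * ev τ v := by
      rw [e0, neg_eq_iff_eq_neg.1 e1, ev]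
      push_cast
      ring
    refine Finset.mem_biUnion.2 ⟨j, Finset.mem_range.2 (by omega), Finset.mem_biUnion.2
      ⟨v, Finset.mem_filter.2 ⟨hB' j v ?_ ?_, hv⟩, Finset.mem_filter.2 ⟨h1, ?_⟩⟩⟩
    · rintro rfl
      exact act_den h0 τ (by rw [e2]; simp [ev])
    · have f1 := xkd_im h0 τ
      rw [hd, Int.cast_natCast] at f1
      have f2 : ‖(η 1 0 : ℂ) * τ + η 1 1‖ ≤ R := by
        refine (sq_le_sq₀ (norm_nonneg _) R0).1 ?_
        rw [hR, le_div_iff₀ hY]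
        have f3 := mul_le_mul_of_nonneg_right hy (sq_nonneg ‖(η 1 0 : ℂ) * τ + η 1 1‖)
        have f4 := mul_le_mul_of_nonneg_left h.2 hn'.le
        linarith
      rw [e2, norm_mul, norm_pow, Complex.norm_natCast] at f2
      rwa [le_div_iff₀' (by positivity)]
    · rw [← e, ← hK, xlb_ker]
      rw [Matrix.det_fin_two] at hd
      simp only [Matrix.cons_val_zero, Matrix.cons_val_one]
      exact ⟨⟨1, by linear_combination hd⟩, 0, by ring⟩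
  refine (Nat.cast_le.2 ((Finset.card_le_card hs).trans Finset.card_biUnion_le)).trans ?_
  rw [Nat.cast_sum]
  refine (Finset.sum_le_sum (g := fun j => 48 * R ^ 2 * (1 / 2 : ℝ) ^ j) fun j hj => ?_).trans ?_
  · have f1 := Finset.card_biUnion_le_card_mul
      ((B j).filter fun v => j = k ∨ ∃ i, ¬ (l : ℤ) ∣ v i)
      (fun v => (Xn (l ^ k)).filter fun L => (l : ℤ) ^ j • v ∈ L) (2 * l ^ j) fun v hv =>
        xkd_lines hl hk (Nat.lt_succ_iff.1 (Finset.mem_range.1 hj)) (Finset.mem_filter.1 hv).2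
    refine (Nat.cast_le.2 (f1.trans
      (Nat.mul_le_mul_right _ (Finset.card_filter_le _ _)))).trans ?_
    push_cast
    refine (mul_le_mul_of_nonneg_right (hB j) (by positivity)).trans ?_
    have f2 : 24 * (R / (l : ℝ) ^ j) ^ 2 * (2 * (l : ℝ) ^ j) = 48 * R ^ 2 * (1 / l : ℝ) ^ j := by
      rw [one_div, inv_pow]
      field_simp
      ring
    rw [f2]
    exact mul_le_mul_of_nonneg_left
      (pow_le_pow_left₀ (by positivity) (one_div_le_one_div_of_le two_pos l2) j) (by positivity)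
  · rw [← Finset.mul_sum]
    refine (mul_le_mul_of_nonneg_left (sum_geometric_two_le _) (by positivity)).trans_eq ?_
    rw [hR]
    ring

end Pool.Agent.EQ
end
end

-- part Pool.Agent.P.MP_ad7a55_nt.UMc
section

/-! The counting hypotheses hold for framed lifts of Galois orbits. -/

set_option autoImplicit false

noncomputable section

open MeasureTheory Topology Filter UpperHalfPlane
open scoped MatrixGroups ENNReal BoundedContinuousFunction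

namespace Pool.Agent.EQ

variable {p q : ℕ} [Fact p.Prime] [Fact q.Prime]

theorem umc_norm (h2 : p ≠ 2) {κ c : ℕ} {D : ℤ} (h : Spl p κ D) (hκ : κ ≤ c) :
    (p : ℝ) ^ (-(2 * c : ℤ)) ≤ ‖(D : ℚ_[p])‖ := by
  obtain ⟨r, hr, hn⟩ := h.sqrt p h2
  rw [← hr, norm_pow, hn, ← zpow_natCast, ← zpow_mul]
  exact beta_mono p (by push_cast; omega)

theorem umc_ratio (h2 : p ≠ 2) {κ κ' c : ℕ} {D D' : ℤ} (h : Spl p κ D) (h' : Spl p κ' D')
    (hκ : κ ≤ c) {ρ ρ' : ℚ} (e : ρ ^ 2 * D = ρ' ^ 2 * D') :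
    ‖(ρ : ℚ_[p])‖ ≤ (p : ℝ) ^ c * ‖(ρ' : ℚ_[p])‖ := by
  obtain ⟨r, hr, hn⟩ := h.sqrt p h2
  obtain ⟨r', hr', hn'⟩ := h'.sqrt p h2
  have e1 : ((ρ : ℚ_[p]) * r) ^ 2 = ((ρ' : ℚ_[p]) * r') ^ 2 := by
    rw [mul_pow, mul_pow, hr, hr']
    exact_mod_cast congrArg (fun t : ℚ => (t : ℚ_[p])) e
  have e2 := congrArg norm e1
  rw [norm_pow, norm_pow, pow_left_inj₀ (norm_nonneg _) (norm_nonneg _) two_ne_zero, norm_mul,
    norm_mul, hn, hn'] at e2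
  have h0 : (p : ℝ) ≠ 0 := (zero_lt_one.trans (beta_one_lt p)).ne'
  have e3 : ‖(ρ : ℚ_[p])‖ = (p : ℝ) ^ (-(κ' : ℤ) + κ) * ‖(ρ' : ℚ_[p])‖ := by
    rw [zpow_add₀ h0, mul_right_comm, mul_comm _ ‖(ρ' : ℚ_[p])‖, ← e2, mul_assoc, ← zpow_add₀ h0]
    simp
  rw [e3, ← zpow_natCast]
  exact mul_le_mul_of_nonneg_right (beta_mono p (by omega)) (norm_nonneg _)

theorem umc_bow {A O S c H K L R t : ℝ} (hA : A * c ^ 2 ≤ R ^ 2 * S * O ^ 2)
    (hS : S ≤ K * t * H ^ 2) (hH : H ≤ L * c) (hH0 : 0 < H) (hK : 0 ≤ K) (ht : 0 ≤ t) :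
    A ≤ R ^ 2 * K * L ^ 2 * t * O ^ 2 := by
  have hc : c ≠ 0 := by
    rintro rfl
    linarith
  have h1 : H ^ 2 ≤ (L * c) ^ 2 := pow_le_pow_left₀ hH0.le hH 2
  have h2 := hS.trans (mul_le_mul_of_nonneg_left h1 (mul_nonneg hK ht))
  have h3 := mul_le_mul_of_nonneg_right (mul_le_mul_of_nonneg_left h2 (sq_nonneg R)) (sq_nonneg O)
  refine le_of_mul_le_mul_right (hA.trans (h3.trans_eq ?_)) (by positivity)
  ring

theorem cnt_fd (hpq : p ≠ q) (h2 : p ≠ 2) {n : ℕ} (F : IntermediateField ℚ ℂ)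
    [FiniteDimensional ℚ F] (τ : ℕ → Fin n → ℍ) (D : ℕ → Fin n → ℤ)
    (hD : ∀ i k, HasDisc (τ i k) (D i k)) (hgen : NoIsog τ) (𝒰 : Ultrafilter ℕ)
    (h𝒰 : (𝒰 : Filter ℕ) ≤ atTop) (hinf : ∀ Y : ℝ, ∀ᶠ i in 𝒰, ∀ k, Y ≤ -(D i k : ℝ)) (j : Fin n)
    (J : Finset (Fin n)) {c M : ℕ} {L : ℝ} {T : Finset SL(2, ℚ_[p])} {T' : Finset SL(2, ℚ_[q])}
    (hT : ∀ h ∈ T, Bd ((p : ℝ) ^ c) (h : Matrix (Fin 2) (Fin 2) ℚ_[p]))
    (hJ : ∀ᶠ i in 𝒰, ∀ k ∈ J, Low L (D i k) ∧ ∃ κ ≤ c, Spl p κ (D i k))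
    {ρ : ℕ → Fin n → ℚ} {rp : ℕ → Fin n → ℚ_[p]} {rq : ℕ → Fin n → ℚ_[q]}
    {x : ℕ → (Fin n → ℂ) → J → X3 p q} {hp : ℕ → (Fin n → ℂ) → J → SL(2, ℚ_[p])}
    {hq : ℕ → (Fin n → ℂ) → J → SL(2, ℚ_[q])} {σ : ℕ → ℕ × ℕ → ℂ ≃+* ℂ}
    (h : ∀ᶠ i in 𝒰, FD p q F (fun k => jInv (τ i k)) (D i) j J M T T' (ρ i) (rp i) (rq i) (x i)
      (hp i) (hq i) (σ i)) :
    Cnt p q 𝒰 (fun i => (orbit_finite F (hD i)).toFinset)
      fun i z => yy p q M (hq i z) (x i z) := by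
  have hb : ∀ᶠ i in 𝒰, ∀ k, D i k < -576 := by
    filter_upwards [hinf 577] with i hi k
    have : (577 : ℤ) ≤ -D i k := by exact_mod_cast hi k
    omega
  have hcard : ∀ i, ((orbit_finite F (hD i)).toFinset.card : ℝ) =
      (galOrbit F fun k => jInv (τ i k)).ncard := fun i => by
    rw [Set.ncard_eq_toFinset_card _ (orbit_finite F (hD i))]
  refine ⟨fun ε hε => ?_, ?_, fun k l hkl q' hq' δ hδ R ε hε => ?_⟩
  · obtain ⟨t, Y, ht, hs⟩ := frac_sh F L hε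
    obtain ⟨Ω, hΩ, hc⟩ := cf_tight hpq T ht
    refine ⟨Ω, hΩ, fun k => ?_⟩
    filter_upwards [h, hJ, hinf Y, hb] with i hi hJi hY hbi u
    rw [hcard]
    refine le_trans ?_ (hs n (τ i) (D i) (hD i) k (hbi k) (hJi k k.2).1 (hY k))
    rw [← orbit_card _ (hi.fix u) fun w => w k.1 ∈ Sh (D i k) t 1]
    refine Nat.cast_le.2 (Set.ncard_le_ncard (fun z hz => ?_)
      ((orbit_finite F (hD i)).subset fun z hz => hz.1))
    have hz' := (Set.Finite.mem_toFinset _).1 hz.1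
    refine ⟨hz', by_contra fun hn => hz.2 (hc _ _ _ _ (hi.mem z hz' k).1 _ _ (hi.cf z hz' u k) ?_)⟩
    rwa [hi.pi z hz' u k]
  · obtain ⟨K, hK, hs⟩ := bw_set hpq h2 c
    refine ⟨(15 * Module.finrank ℚ F) ^ 2 * K * L ^ 2, fun k m => ?_⟩
    obtain ⟨Y, hs⟩ := hs m
    filter_upwards [h, hJ, hinf Y, hb] with i hi hJi hY hbi u u'
    obtain ⟨hL, κ, hκ, hsp⟩ := hJi k k.2
    obtain ⟨S, hS, hSc, hm⟩ := hs (D i k) κ (rp i k) hκ (hD i k).isD hsp (hY k)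
    rw [hcard]
    refine le_trans ?_ (umc_bow (orbit_two F (hD i) k (hbi k) hS) hSc
      (hL _ (hD i k).isD ⟨_, rfl⟩) (tfc_HH (hD i k).isD) hK.le (beta_pos p _).le)
    rw [← orbit_card2 _ (hi.fix u) (hi.fix u') fun w w' => (w k.1, w' k.1) ∈ S]
    refine Nat.cast_le.2 (Set.ncard_le_ncard (fun z hz => ?_)
      (((orbit_finite F (hD i)).prod (orbit_finite F (hD i))).subset fun z hz => ⟨hz.1, hz.2.1⟩))
    have h1 := (Set.Finite.mem_toFinset _).1 hz.1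
    have h2 := (Set.Finite.mem_toFinset _).1 hz.2.1
    refine ⟨h1, h2, ?_⟩
    have := hm _ _ _ _ _ _ _ _ (hT _ (hi.mem _ h1 k).1) (hT _ (hi.mem _ h2 k).1) (hi.cf _ h1 u k)
      (hi.cf _ h2 u' k) hz.2.2
    rwa [hi.pi _ h1, hi.pi _ h2] at this
  · obtain ⟨N, n', C, hN, hn', hs⟩ := cf_on hpq hq' hδ R c
    obtain ⟨r, N₀, hN₀, hf⟩ := frac_bad3 (p := p) F hn' C L c hε
    obtain ⟨m, hs⟩ := hs r
    have hkl' : (k : Fin n) ≠ l := fun e => hkl (Subtype.ext e)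
    refine ⟨m, ?_⟩
    filter_upwards [h, hJ, hb, h𝒰 (hgen k l hkl' N hN), h𝒰 (hgen k l hkl' N₀ hN₀)]
      with i hi hJi hbi g1 g2 u
    obtain ⟨hL, κ, hκ, hsp⟩ := hJi k k.2
    obtain ⟨-, κ', hκ', hsp'⟩ := hJi l l.2
    obtain ⟨a1, a2, a3⟩ := hi.rat k k.2
    obtain ⟨b1, b2, b3⟩ := hi.rat l l.2
    rw [hcard]
    refine le_trans ?_ (hf n (τ i) (D i) (hD i) k l _ _ (hbi k) (hbi l) a1 b1 (a2.trans b2.symm)
      (umc_ratio h2 hsp hsp' hκ (a2.trans b2.symm)) (umc_ratio h2 hsp' hsp hκ' (b2.trans a2.symm))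
      hL g2)
    rw [← orbit_card _ (hi.fix u) fun w => ∃ M₁ M₂, DiscL M₁ (D i k) ∧ DiscL M₂ (D i l) ∧
      jL M₁ = w k.1 ∧ jL M₂ = w l.1 ∧ Bad3 p n' C r (D i k) (D i l) M₁ M₂]
    refine Nat.cast_le.2 (Set.ncard_le_ncard (fun z hz => ?_)
      ((orbit_finite F (hD i)).subset fun z hz => hz.1))
    have hz' := (Set.Finite.mem_toFinset _).1 hz.1
    have := hs _ _ _ _ _ _ _ _ _ _ _ _ _ _ (hi.cf z hz' u k) (hi.cf z hz' u l)
      (hT _ (hi.mem z hz' k).1) (hT _ (hi.mem z hz' l).1) a1 b1 (a2.trans b2.symm)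
      (a3.trans b3.symm) (umc_norm h2 hsp hκ) hz.2
    rw [hi.pi z hz', hi.pi z hz'] at this
    refine ⟨hz', this.resolve_left ?_⟩
    obtain ⟨σ', -, rfl⟩ := hz'
    exact g1 (σ'.trans (σ i u))

end Pool.Agent.EQ
end
end

-- part Pool.Agent.P.MP_ad7a55_nt.UMu
section

/-! The induction step when a valuation is unbounded. -/

set_option autoImplicit false

noncomputable section

open MeasureTheory Topology Filter UpperHalfPlane
open scoped MatrixGroups ENNReal BoundedContinuousFunction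

namespace Pool.Agent.EQ

theorem Low.of_sq {L : ℝ} {D D' : ℤ} (h : Low L D) (hD : D ≠ 0) (hs : IsSquare (D' * D)) :
    D' ≠ 0 → Low L D' := by
  intro hD' E hE hs'
  refine h E hE ?_
  obtain ⟨a, ha⟩ := hs
  obtain ⟨b, hb⟩ := hs'
  have h1 : D' ^ 2 ∣ (a * b) ^ 2 := ⟨D * E, by linear_combination (-(b * b)) * ha - D' * D * hb⟩
  obtain ⟨s, hs⟩ := (Int.pow_dvd_pow_iff (by norm_num : 2 ≠ 0)).1 h1
  refine ⟨s, mul_left_cancel₀ (pow_ne_zero 2 hD') ?_⟩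
  linear_combination (b * b) * ha + D' * D * hb + (a * b + D' * s) * hs

theorem umu_sq {ρ : ℚ} {D E : ℤ} (h : ρ ^ 2 * D = E) : IsSquare (D * E) := by
  rw [← Rat.isSquare_intCast_iff]
  exact ⟨ρ * D, by push_cast; rw [← h]; ring⟩

theorem main_step3U {n : ℕ} (F : IntermediateField ℚ ℂ) [FiniteDimensional ℚ F]
    (τ : ℕ → Fin n → ℍ) (D : ℕ → Fin n → ℤ) (hD : ∀ i k, HasDisc (τ i k) (D i k))
    (hgen : NoIsog τ) (𝒰 : Ultrafilter ℕ) (h𝒰 : (𝒰 : Filter ℕ) ≤ atTop)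
    (hinf : ∀ Y : ℝ, ∀ᶠ i in 𝒰, ∀ k, Y ≤ -(D i k : ℝ)) (p : ℕ) [Fact p.Prime]
    (I : Finset (Fin n)) (j : Fin n) (hj : j ∈ I)
    (hmax : ∀ᶠ i in 𝒰, ∀ k ∈ I, IsSquare (D i k * D i j) →
      padicValInt p (D i k) ≤ padicValInt p (D i j))
    (hv : Tendsto (fun i => padicValInt p (D i j)) 𝒰 atTop) {L : ℝ}
    (hL : ∀ᶠ i in 𝒰, Low L (D i j)) (f : Fin n → (ℂ →ᵇ ℝ)) : ∃ J ⊆ I, j ∈ J ∧
      Tendsto (fun i => avg (orbit_finite F (hD i)).toFinset (fun z => ∏ k ∈ I, f k (z k)) -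
        (∏ k ∈ J, ∫ z, f k z ∂mY) *
          avg (orbit_finite F (hD i)).toFinset (fun z => ∏ k ∈ I \ J, f k (z k))) 𝒰 (𝓝 0) := by
  classical
  have hp : (1 : ℝ) < p := by exact_mod_cast (Fact.out : p.Prime).one_lt
  have hp0 : (0 : ℝ) < p := one_pos.trans hp
  have hbig : ∀ᶠ i in 𝒰, ∀ k, D i k < -576 := (hinf 577).mono fun i hi k => by
    have : (D i k : ℝ) < -576 := by linarith [hi k]
    exact_mod_cast this
  obtain ⟨c, hc⟩ := exists_frames p F n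
  choose ρ N x e hF using fun i => hc (τ i) (D i) (hD i) j
  set O : ℕ → Finset (Fin n → ℂ) := fun i => (orbit_finite F (hD i)).toFinset with hO
  have hmem : ∀ i z, z ∈ O i ↔ z ∈ galOrbit F fun k => jInv (τ i k) := fun i z =>
    (orbit_finite F (hD i)).mem_toFinset
  have hOne : ∀ i, (O i).Nonempty := fun i => ⟨_, (hmem i _).2 (orbit_self F _)⟩
  have hF' : ∀ᶠ i in 𝒰, Fr p (O i) (D i) j c (ρ i) (N i) (x i) (e i) := hbig.mono hF
  have hneg : ∀ i k, D i k < 0 := fun i k => (hD i k).isD.1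
  set v : ℕ → ℕ := fun i => padicValInt p (D i j) with hvd
  set r : ℕ → ℤ := fun i => (v i : ℤ) / 2 - c with hr
  have hDj : ∀ i, ‖(D i j : ℚ_[p])‖ = (p : ℝ) ^ (-(v i : ℤ)) := fun i =>
    norm_int_eq p (hneg i j).ne
  have hvt : Tendsto v 𝒰 atTop := hv
  have hrt : Tendsto r 𝒰 atTop := by
    refine tendsto_atTop.2 fun b => (tendsto_atTop.1 hvt (2 * (b + c).toNat)).mono fun i hi => ?_
    simp only [hr]
    omega
  have hr1 : ∀ i, ‖(D i j : ℚ_[p])‖ * ((p : ℝ) ^ r i) ^ 2 ≤ (p : ℝ) ^ (-(c : ℤ)) := fun i => by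
    rw [hDj, ← zpow_natCast, ← zpow_mul, ← zpow_add₀ hp0.ne']
    refine zpow_le_zpow_right₀ hp.le ?_
    simp only [hr]
    omega
  have hr2 : ∀ i, 1 ≤ (p : ℝ) ^ (2 * c + 1) * (‖(D i j : ℚ_[p])‖ * ((p : ℝ) ^ r i) ^ 2) :=
    fun i => by
      rw [hDj, ← zpow_natCast, ← zpow_natCast, ← zpow_mul, ← zpow_add₀ hp0.ne',
        ← zpow_add₀ hp0.ne']
      refine one_le_zpow₀ hp.le ?_
      simp only [hr]
      omega
  set J := I.filter fun k => ¬ Tendsto (fun i => N i k) 𝒰 (𝓝 0) with hJ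
  have hJI : J ⊆ I := Finset.filter_subset _ _
  have hjJ : j ∈ J := by
    refine Finset.mem_filter.2 ⟨hj, fun h => ?_⟩
    have h4 : ∀ᶠ i in 𝒰, ‖(D i j : ℚ_[p])‖ ≤ ‖(4 : ℚ_[p])‖ := by
      filter_upwards [tendsto_atTop.1 hvt (padicValInt p 4)] with i hi
      have := norm_int_eq p (D := 4) (by norm_num)
      push_cast at this
      rw [hDj, this]
      exact zpow_le_zpow_right₀ hp.le (by omega)
    have h5 : Tendsto (fun _ : ℕ => ‖(2 : ℚ_[p])‖) 𝒰 (𝓝 0) :=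
      h.congr' (by filter_upwards [h4, hF'] with i h4 hF using hF.top h4)
    have := tendsto_nhds_unique h5 tendsto_const_nhds
    exact absurd this.symm (by simp)
  refine ⟨J, hJI, hjJ, ?_⟩
  have hN0 : ∀ᶠ i in 𝒰, ∀ k, 0 ≤ N i k := hF'.mono fun i hi k => by
    obtain ⟨z, hz⟩ := hOne i
    rw [← hi.nrm z hz k]; exact norm_nonneg _
  have hN1 : ∀ᶠ i in 𝒰, ∀ k ∈ I, N i k ≤ 1 := by
    filter_upwards [hF', hmax] with i hi h2 k hk
    by_cases h0 : N i k = 0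
    · rw [h0]; exact zero_le_one
    obtain ⟨z₀, hz₀⟩ := hOne i
    have hsq := umu_sq (hi.fr z₀ hz₀ k h0).2.2
    have h3 := hi.le k
    have h4 : ‖(D i j : ℚ_[p])‖ ≤ ‖(D i k : ℚ_[p])‖ := by
      rw [hDj, norm_int_eq p (hneg i k).ne]
      exact zpow_le_zpow_right₀ hp.le (by have := h2 k hk hsq; simp only [hvd]; omega)
    have h5 : 0 < ‖(D i k : ℚ_[p])‖ := norm_pos_iff.2 (by exact_mod_cast (hneg i k).ne)
    have h6 : N i k ^ 2 ≤ 1 := by nlinarith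
    exact (le_abs_self _).trans ((sq_le_one_iff_abs_le_one _).1 h6)
  obtain ⟨c₁, hc₁⟩ : ∃ c₁ : ℕ, ∀ᶠ i in 𝒰, ∀ k ∈ J, 1 ≤ (p : ℝ) ^ c₁ * N i k := by
    have h1 : ∀ k, ∃ c₁ : ℕ, k ∈ J → ∀ᶠ i in 𝒰, 1 ≤ (p : ℝ) ^ c₁ * N i k := by
      intro k
      by_cases hk : k ∈ J
      swap
      · exact ⟨0, fun h => absurd h hk⟩
      by_contra h
      push Not at h
      refine (Finset.mem_filter.1 hk).2 (Metric.tendsto_nhds.2 fun ε hε => ?_)
      obtain ⟨m, hm⟩ := pow_unbounded_of_one_lt ε⁻¹ hp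
      filter_upwards [(h m).2, hN0] with i h1 h2
      rw [Real.dist_eq, sub_zero, abs_of_nonneg (h2 k)]
      by_contra h3
      refine not_le.2 h1 ?_
      calc (1 : ℝ) = ε⁻¹ * ε := (inv_mul_cancel₀ hε.ne').symm
        _ ≤ _ := mul_le_mul hm.le (not_lt.1 h3) hε.le (by positivity)
    choose c₁ hc₁ using h1
    refine ⟨Finset.univ.sup c₁, ?_⟩
    filter_upwards [(eventually_all_finset J).2 fun k hk => hc₁ k hk, hN0] with i h1 h2 k hk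
    exact (h1 k hk).trans (mul_le_mul_of_nonneg_right
      (pow_le_pow_right₀ hp.le (Finset.le_sup (Finset.mem_univ k))) (h2 k))
  set c₀ := 2 * c + 3 + 2 * c₁ with hc₀
  have h20 : 0 < ‖(2 : ℚ_[p])‖ := norm_pos_iff.2 two_ne_zero
  have key : ∀ᶠ i in 𝒰, ∀ k ∈ J, (0 < ρ i k ∧ ρ i k ^ 2 * D i k = D i j ∧
      (∀ l ∈ J, ‖(ρ i k : ℚ_[p])‖ ≤ (p : ℝ) ^ c₀ * ‖(ρ i l : ℚ_[p])‖) ∧
      ‖(D i k : ℚ_[p])‖ ≤ (p : ℝ) ^ c₀ * ‖(D i j : ℚ_[p])‖ ∧ Low L (D i k)) ∧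
      ∀ z ∈ O i, Frame p (D i k) (x i z k) (e i z k) ∧ piX p (x i z k) ∈ Cl (D i k) ∧
        ‖(D i k : ℚ_[p])‖ * (‖-e i z k * ρ i k‖ * (p : ℝ) ^ r i) ^ 2 ≤ 1 ∧
        1 ≤ (p : ℝ) ^ c₀ * (‖(D i k : ℚ_[p])‖ * (‖-e i z k * ρ i k‖ * (p : ℝ) ^ r i) ^ 2) := by
    filter_upwards [hF', hc₁, hN1, hN0, hL, hbig] with i hi h1 h2 h0 h3 hb k hk
    have hne : ∀ k ∈ J, N i k ≠ 0 := fun k hk h => by
      have := h1 k hk
      rw [h, mul_zero] at this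
      linarith
    obtain ⟨z₀, hz₀⟩ := hOne i
    have hρN : ∀ k ∈ J, ‖(2 : ℚ_[p])‖ * ‖(ρ i k : ℚ_[p])‖ = N i k := fun k hk => by
      obtain ⟨g, Θ, -, -, -, -, he⟩ := (hi.fr z₀ hz₀ k (hne k hk)).1
      rw [← hi.nrm z₀ hz₀ k, norm_mul, norm_neg, he]
    obtain ⟨-, h5, h6⟩ := hi.fr z₀ hz₀ k (hne k hk)
    have h7 : ‖(D i k : ℚ_[p])‖ * N i k ^ 2 = ‖(2 : ℚ_[p])‖ ^ 2 * ‖(D i j : ℚ_[p])‖ := by
      have : (ρ i k : ℚ_[p]) ^ 2 * D i k = D i j := by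
        exact_mod_cast congrArg (fun q : ℚ => (q : ℚ_[p])) h6
      rw [← hρN k hk, ← this, norm_mul, norm_pow]; ring
    refine ⟨⟨h5, h6, fun l hl => ?_, ?_, h3.of_sq (hneg i j).ne (umu_sq h6) (hneg i k).ne⟩,
      fun z hz => ⟨(hi.fr z hz k (hne k hk)).1, ?_, ?_, ?_⟩⟩
    · refine le_of_mul_le_mul_left ?_ h20
      rw [hρN k hk, mul_left_comm, hρN l hl]
      exact (h2 k (hJI hk)).trans ((h1 l hl).trans (mul_le_mul_of_nonneg_right
        (pow_le_pow_right₀ hp.le (by omega)) (h0 l)))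
    · have h8 : 1 ≤ ((p : ℝ) ^ c₁ * N i k) ^ 2 := one_le_pow₀ (h1 k hk)
      calc ‖(D i k : ℚ_[p])‖ ≤ ‖(D i k : ℚ_[p])‖ * ((p : ℝ) ^ c₁ * N i k) ^ 2 :=
            le_mul_of_one_le_right (norm_nonneg _) h8
        _ = (p : ℝ) ^ (2 * c₁) * (‖(D i k : ℚ_[p])‖ * N i k ^ 2) := by ring
        _ ≤ _ := mul_le_mul (pow_le_pow_right₀ hp.le (by omega)) (hi.le k)
            (by positivity) (by positivity)
    · obtain ⟨t, ht, hjt⟩ := orbit_lift (hD i) hb ((hmem i z).1 hz) k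
      rw [hi.pi z hz k]
      exact ⟨_, discL_one ht, by rw [jL_one, hjt]⟩
    · rw [hi.nrm z hz k, mul_pow, ← mul_assoc]
      refine (mul_le_mul_of_nonneg_right (hi.le k) (by positivity)).trans ((hr1 i).trans ?_)
      exact zpow_le_one_of_nonpos₀ hp.le (by omega)
    · rw [hi.nrm z hz k, mul_pow, ← mul_assoc ‖(D i k : ℚ_[p])‖, h7]
      have h8 : 1 ≤ ((p : ℝ) * ‖(2 : ℚ_[p])‖) ^ 2 := one_le_pow₀ (two_norm_ge p)
      calc (1 : ℝ) ≤ ((p : ℝ) * ‖(2 : ℚ_[p])‖) ^ 2 *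
            ((p : ℝ) ^ (2 * c + 1) * (‖(D i j : ℚ_[p])‖ * ((p : ℝ) ^ r i) ^ 2)) :=
            one_le_mul_of_one_le_of_one_le h8 (hr2 i)
        _ = (p : ℝ) ^ (2 * c + 3) *
            (‖(2 : ℚ_[p])‖ ^ 2 * ‖(D i j : ℚ_[p])‖ * ((p : ℝ) ^ r i) ^ 2) := by ring
        _ ≤ _ := mul_le_mul_of_nonneg_right (pow_le_pow_right₀ hp.le (by omega)) (by positivity)
  set Φ : ℕ → (Fin n → ℂ) → ℝ := fun i z =>
    ∫ s, ∏ k ∈ I, f k (piX p (uP p (-e i z k * ρ i k * s) • x i z k)) ∂bm p (r i) -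
      (∏ k ∈ J, ∫ z, f k z ∂mY) *
        ∫ s, ∏ k ∈ I \ J, f k (piX p (uP p (-e i z k * ρ i k * s) • x i z k)) ∂bm p (r i) with hΦ
  have hΦB : ∀ i z, |Φ i z| ≤ ∏ k ∈ I, ‖f k‖ + |∏ k ∈ J, ∫ z, f k z ∂mY| * ∏ k ∈ I \ J, ‖f k‖ := by
    intro i z
    refine (abs_sub _ _).trans (add_le_add (abs_integral_prod_le f I _ _) ?_)
    rw [abs_mul]
    exact mul_le_mul_of_nonneg_left (abs_integral_prod_le f _ _ _) (abs_nonneg _)
  set bad : (Fin n × ℕ) ⊕ (Fin n × Fin n × ℤ × ℕ) → ℕ → (Fin n → ℂ) → Prop := fun m i z =>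
    m.elim (fun a => a.1 ∈ J ∧ Bad1 p a.2 (D i a.1) (z a.1)) fun a =>
      a.1 ∈ J ∧ a.2.1 ∈ J ∧ a.2.2.1 ≠ 0 ∧ a.1 ≠ a.2.1 ∧
        ∃ M₁ M₂, DiscL M₁ (D i a.1) ∧ DiscL M₂ (D i a.2.1) ∧
        jL M₁ = z a.1 ∧ jL M₂ = z a.2.1 ∧ Bad2 p a.2.2.1 a.2.2.2 (D i a.1) (D i a.2.1) M₁ M₂
    with hbad
  have hcard : ∀ i, ((O i).card : ℝ) = (galOrbit F fun k => jInv (τ i k)).ncard := fun i => by
    rw [Set.ncard_eq_toFinset_card _ (orbit_finite F (hD i))]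
  have hsm : ∀ b : ℕ, ∀ᶠ i in 𝒰, ∀ k ∈ J, ‖(D i k : ℚ_[p])‖ ≤ (p : ℝ) ^ (-(b : ℤ)) := fun b => by
    filter_upwards [key, tendsto_atTop.1 hvt (b + c₀)] with i h1 h2 k hk
    refine (h1 k hk).1.2.2.2.1.trans ?_
    rw [hDj, ← zpow_natCast, ← zpow_add₀ hp0.ne']
    exact zpow_le_zpow_right₀ hp.le (by omega)
  have havg : Tendsto (fun i => avg (O i) (Φ i)) 𝒰 (𝓝 0) := by
    refine avg_tendsto_of_bad h𝒰 O hOne Φ hΦB bad ?_ ?_
    · rintro (⟨k, C⟩ | ⟨k, l, m, c'⟩) δ hδ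
      · by_cases hk : k ∈ J
        swap
        · refine Eventually.of_forall fun i => ?_
          simp only [hbad, Sum.elim_inl, hk, false_and, and_false, Set.ofPred_false,
            Set.ncard_empty, Nat.cast_zero]
          positivity
        obtain ⟨Y, hY⟩ := frac_bad1' p F C L hδ
        filter_upwards [key, hsm Y, hbig] with i h1 h2 h3
        simp only [hbad, Sum.elim_inl, hk, true_and, hmem, hcard]
        exact hY n (τ i) (D i) (hD i) k (h3 k) (h1 k hk).1.2.2.2.2 (h2 k hk)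
      · by_cases hk : k ∈ J ∧ l ∈ J ∧ m ≠ 0 ∧ k ≠ l
        swap
        · refine Eventually.of_forall fun i => ?_
          have : {z | z ∈ O i ∧ bad (Sum.inr (k, l, m, c')) i z} = ∅ :=
            Set.eq_empty_of_forall_notMem fun z hz => hk
              ⟨hz.2.1, hz.2.2.1, hz.2.2.2.1, hz.2.2.2.2.1⟩
          rw [this, Set.ncard_empty, Nat.cast_zero]
          positivity
        obtain ⟨hk, hl, hm, hkl⟩ := hk
        obtain ⟨Y, N₀, hN₀, hY⟩ := frac_bad3 p F hm ((p : ℝ) ^ c') L c₀ hδ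
        filter_upwards [key, hsm (Y + c'), hbig, h𝒰 (hgen k l hkl N₀ hN₀)] with i h1 h2 h3 h4
        rw [hcard]
        refine le_trans (Nat.cast_le.2 (Set.ncard_le_ncard ?_
          ((orbit_finite F (hD i)).subset fun z hz => hz.1)))
          (hY n (τ i) (D i) (hD i) k l _ _ (h3 k) (h3 l) (h1 k hk).1.1 (h1 l hl).1.1
            ((h1 k hk).1.2.1.trans (h1 l hl).1.2.1.symm) ((h1 k hk).1.2.2.1 l hl)
            ((h1 l hl).1.2.2.1 k hk) (h1 k hk).1.2.2.2.2 h4)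
        rintro z ⟨hz, -, -, -, -, M₁, M₂, a1, a2, a3, a4, a5⟩
        exact ⟨(hmem i z).1 hz, M₁, M₂, a1, a2, a3, a4, a5.bad3 p (h2 l hl)⟩
    intro z hz hgood
    set d : ℕ → Fin n → ℚ_[p] := fun i k => -e i (z i) k * ρ i k with hd
    have hdN : ∀ᶠ i in 𝒰, ∀ k, ‖d i k‖ = N i k := hF'.mono fun i hi k => hi.nrm _ (hz i) k
    have hlim : ∀ k, ∃ a : ℚ_[p], k ∈ I → Tendsto (fun i => d i k) 𝒰 (𝓝 a) := by
      intro k
      by_cases hk : k ∈ I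
      · obtain ⟨a, -, ha⟩ := (isCompact_closedBall (0 : ℚ_[p]) 1).ultrafilter_le_nhds
          (𝒰.map fun i => d i k) (by
            rw [le_principal_iff]
            change ∀ᶠ i in 𝒰, d i k ∈ Metric.closedBall (0 : ℚ_[p]) 1
            filter_upwards [hdN, hN1] with i h1 h2
            rw [mem_closedBall_zero_iff, h1 k]
            exact h2 k hk)
        exact ⟨a, fun _ => ha⟩
      · exact ⟨0, fun h => absurd h hk⟩
    choose a ha using hlim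
    have haN : ∀ k ∈ I, Tendsto (fun i => N i k) 𝒰 (𝓝 ‖a k‖) := fun k hk =>
      (ha k hk).norm.congr' (hdN.mono fun i hi => hi k)
    have ha0 : ∀ k ∈ J, a k ≠ 0 := fun k hk h =>
      (Finset.mem_filter.1 hk).2 (by simpa [h] using haN k (hJI hk))
    have ha1 : ∀ k ∈ I, k ∉ J → a k = 0 := fun k hk hk' => by
      have : Tendsto (fun i => N i k) 𝒰 (𝓝 0) := by
        by_contra h
        exact hk' (Finset.mem_filter.2 ⟨hk, h⟩)
      exact norm_eq_zero.1 (tendsto_nhds_unique (haN k hk) this)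
    have hT : ∀ k ∈ J, Tt p 𝒰 (fun i => x i (z i) k) (fun i => d i k) r := by
      intro k hk ε hε
      obtain ⟨Ω, hΩ, h⟩ := tight_frame2 p hε
      refine ⟨Ω, hΩ, fun m => ?_⟩
      obtain ⟨C, hC⟩ := h m c₀
      obtain ⟨b, hb⟩ := pow_unbounded_of_one_lt (C : ℝ) hp
      filter_upwards [key, hgood (Sum.inl (k, C)), hF', hc₁, hdN,
        tendsto_atTop.1 hrt ((b + c₁ : ℕ) : ℤ), hN0] with i h1 h2 h3 h4 h5 h6 h7
      obtain ⟨-, h8⟩ := h1 k hk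
      obtain ⟨h9, h10, h11, h12⟩ := h8 _ (hz i)
      refine hC _ _ _ _ _ h9 h10 h11 h12 ?_ ?_
      · rw [h5 k]
        calc (C : ℝ) ≤ (p : ℝ) ^ b * ((p : ℝ) ^ c₁ * N i k) :=
              hb.le.trans (le_mul_of_one_le_right (by positivity) (h4 k hk))
          _ = N i k * (p : ℝ) ^ ((b + c₁ : ℕ) : ℤ) := by rw [zpow_natCast]; ring
          _ ≤ _ := mul_le_mul_of_nonneg_left (zpow_le_zpow_right₀ hp.le h6) (h7 k)
      · rw [h3.pi _ (hz i)]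
        exact fun h => h2 ⟨hk, h⟩
    have hE : ∀ k ∈ J, ∀ l ∈ J, k ≠ l → NoExc p 𝒰 (fun i => x i (z i) k) (fun i => x i (z i) l)
        (fun i => d i k) (fun i => d i l) r := by
      intro k hk l hl hkl q hq δ hδ R
      obtain ⟨M, m, c', hM, hm, h⟩ := exc_frame2 p hq hδ R c₀
      filter_upwards [key, hgood (Sum.inr (k, l, m, c')), h𝒰 (hgen k l hkl M hM), hF']
        with i h1 h2 h3 h4
      intro P hP hP1
      by_contra h5
      push Not at h5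
      obtain ⟨a1, a2⟩ := h1 k hk
      obtain ⟨b1, b2⟩ := h1 l hl
      obtain ⟨a3, a4, a5, a6⟩ := a2 _ (hz i)
      obtain ⟨b3, b4, b5, b6⟩ := b2 _ (hz i)
      have h6 := h _ _ _ _ _ _ _ _ _ a3 b3 a4 b4 a1.1 b1.1 (a1.2.1.trans b1.2.1.symm) a5 b5 a6 b6
        (a1.2.2.1 l hl) (b1.2.2.1 k hk) P hP hP1 h5
      rw [h4.pi _ (hz i), h4.pi _ (hz i)] at h6
      rcases h6 with h6 | h6
      · obtain ⟨σ, -, hσ⟩ := (hmem i _).1 (hz i)
        rw [hσ] at h6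
        exact h3 σ h6
      · exact h2 ⟨hk, hl, hm, hkl, h6⟩
    exact step p 𝒰 h𝒰 (fun i => x i (z i)) d a I J hJI ha0 ha1 ha r hrt hT hE f
  refine havg.congr' ?_
  filter_upwards [hF'] with i hi
  have h1 := hi.sum (r i) (hr1 i) _ (prod_bdd f I).1 (prod_bdd f I).2
  have h2 := hi.sum (r i) (hr1 i) _ (prod_bdd f (I \ J)).1 (prod_bdd f (I \ J)).2
  simp only [avg, hΦ]
  rw [← h1, ← h2, Finset.sum_sub_distrib, ← Finset.mul_sum]
  ring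

end Pool.Agent.EQ
end
end

-- part Pool.Agent.P.MP_ad7a55_nt.XBc
section

/-! Pairs of points with the same direction. -/

set_option autoImplicit false

noncomputable section

open MeasureTheory Topology Filter UpperHalfPlane
open scoped MatrixGroups BoundedContinuousFunction Matrix Classical

namespace Pool.Agent.EQ

theorem lev_of_dir {τ τ' : ℍ} {D b b₀ : ℤ} {f Q : ℕ} {U : ℝ} (h : HasDisc τ D) (h' : HasDisc τ' D)
    (hf : 0 < f) (hτ : τ ∈ KU U) (hτ' : τ' ∈ KU U) (hQ : 0 < Q)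
    (hc : IsCoprime (Q : ℤ) (2 * (f ^ 2 * D))) (hb : (Q : ℤ) ∣ b ^ 2 - f ^ 2 * D)
    (h₀ : 2 ∣ b₀ - D) (h₁ : (Q : ℤ) ∣ f * b₀ + b)
    (e : Ker Q (AA (f ^ 2 * D) b τ) = Ker Q (AA (f ^ 2 * D) b τ')) :
    (jInv τ, jInv τ') ∈ LevP Q b₀ (4 * U ^ 2) D := by
  obtain ⟨v, hv, ev1⟩ := AA_line h ⟨f, hf, rfl⟩ hQ hc hb
  have m1 : v ∈ Ker Q (AA (f ^ 2 * D) b τ) := ev1 ▸ xlb_self Q v
  have m2 : v ∈ Ker Q (AA (f ^ 2 * D) b τ') := e ▸ m1
  have hc2 : IsCoprime (Q : ℤ) (f * 2) :=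
    IsCoprime.of_mul_right_left (z := f * D) (by rwa [show (f : ℤ) * 2 * (f * D) = 2 * (f ^ 2 * D) by ring])
  have side : ∀ {t : ℍ} {A B C : ℤ}, 0 < A → Int.gcd (Int.gcd A B) C = 1 →
      (A : ℂ) * (t : ℂ) ^ 2 + B * t + C = 0 → D = B ^ 2 - 4 * A * C →
      v ∈ Ker Q (AA (f ^ 2 * D) b t) →
      (th D - b₀) / 2 * (v 0 - v 1 * t) ∈ pr Q * sp 1 t := by
    intro t A B C hA hg hr hD hm
    obtain ⟨x, hx⟩ := h₀
    obtain ⟨y, hy⟩ := Int.even_mul_succ_self B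
    obtain ⟨k, hk⟩ : ∃ k : ℤ, b₀ = -(B + 2 * k) :=
      ⟨-x - y + 2 * A * C, by linear_combination hx + hD + hy⟩
    rw [AA, om_eq ⟨A, B, C, hA, hg, hD.symm, hr, rfl⟩ f, xlb_ker] at hm
    simp only [Th, Matrix.add_apply, Matrix.smul_apply, smul_eq_mul, Matrix.of_apply,
      Matrix.cons_val', Matrix.cons_val_zero, Matrix.cons_val_one, Matrix.cons_val_fin_one,
      Matrix.one_apply_eq, Matrix.one_apply_ne (show (0 : Fin 2) ≠ 1 by decide),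
      Matrix.one_apply_ne (show (1 : Fin 2) ≠ 0 by decide)] at hm
    have s := tda_side (k := k) (v₀ := v 0) (v₁ := v 1) (q := Q) hA hr
      (hc2.dvd_of_dvd_mul_left (by
        have := dvd_sub hm.1 (h₁.mul_right (v 0))
        rwa [show (f * B + b * 1) * v 0 + (f * (2 * C) + b * 0) * v 1 - (f * b₀ + b) * v 0 =
          f * 2 * ((k + B) * v 0 + C * v 1) by rw [hk]; ring] at this))
      (hc2.dvd_of_dvd_mul_left (by
        have := dvd_sub (h₁.mul_right (v 1)) hm.2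
        rwa [show (f * b₀ + b) * v 1 - ((f * (-2 * A) + b * 0) * v 0 + (f * -B + b * 1) * v 1) =
          f * 2 * (A * v 0 - k * v 1) by rw [hk]; ring] at this))
    rwa [← hD, ← hk] at s
  obtain ⟨A, B, C, hA, hg, hr, hD⟩ := id h
  obtain ⟨A', B', C', hA', hg', hr', hD'⟩ := id h'
  have s1 := side hA hg hr hD m1
  have s2 := side hA' hg' hr' hD' m2
  obtain ⟨k, hk⟩ := tda_par (hD.symm.trans hD')
  obtain ⟨j, hj⟩ : ∃ j : ℤ, B * B' - D = 2 * j :=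
    ⟨B * k + 2 * A * C, by linear_combination B * hk - hD⟩
  refine ⟨sp 1 τ, sp 1 τ', _, _, _, discL_one h, discL_one h', jL_one τ, jL_one τ',
    tda_hm hA hA' hr hr' hD.symm hD'.symm hj hτ.1 hτ'.1 hτ.2 hτ'.2, h₀, v 0 - v 1 * τ,
    mem_sp.2 ⟨v 0, -v 1, by push_cast; ring⟩, fun l hl hlq hm => ?_, s1, ?_⟩
  · obtain ⟨w, hw, e⟩ := mem_pr_mul.1 hm
    obtain ⟨x, y, rfl⟩ := mem_sp.1 hw
    obtain ⟨e1, e2⟩ := ord_indep τ (m := l * x - v 0) (n := l * y + v 1) (by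
      push_cast
      linear_combination e)
    have := hv.isUnit_of_dvd' (x := (l : ℤ)) ⟨x, by linear_combination -e1⟩
      ⟨-y, by linear_combination e2⟩
    exact (Nat.prime_iff_prime_int.1 hl).not_isUnit this
  · have e := tda_rl τ τ' (v 0) (-v 1)
    rw [Int.cast_neg, neg_mul, neg_mul, ← sub_eq_add_neg, ← sub_eq_add_neg] at e
    rw [e]
    exact s2

theorem levP_le (C : ℝ) : ∃ (K Y : ℝ) (A : ℕ), 0 < K ∧ ∀ (D b₀ : ℤ) (S : Finset ℕ) (k : ℕ → ℕ),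
    IsD D → Y ≤ -(D : ℝ) → (∀ l ∈ S, l.Prime ∧ l ≠ 2 ∧ jacobiSym D l = 1 ∧ 0 < k l) →
    ∑ l ∈ S, (l : ℝ) ^ (-(1 / 4 : ℝ)) ≤ 1 → ((∏ l ∈ S, l ^ k l : ℕ) : ℤ) ^ 400 ≤ -D →
    ((LevP (∏ l ∈ S, l ^ k l) b₀ C D).ncard : ℝ) ≤
      K * Real.log (-(D : ℝ)) ^ A / (∏ l ∈ S, l ^ k l : ℕ) * HH D ^ 2 := by
  obtain ⟨C', hC1, hC'⟩ : ∃ C' : ℝ, 1 ≤ C' ∧ C ≤ C' := ⟨max C 1, le_max_right _ _, le_max_left _ _⟩
  obtain ⟨K, L, hK, hL, H1⟩ := tpair_end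
  obtain ⟨C₂, A, N₀, hC₂, H2⟩ := Dt.cnt_lev
  obtain ⟨C₃, hC₃, H3⟩ := Dt.tcn_EE
  obtain ⟨K₀, hK₀, H0⟩ := Cl_le
  obtain ⟨C₄, hC₄⟩ : ∃ C₄ : ℝ, C₄ = C₂ * C₃ * 2 ^ (A + 1) := ⟨_, rfl⟩
  have hC₄0 : 0 < C₄ := by rw [hC₄]; positivity
  refine ⟨K * (1 + 9 * C₄) * C' + K₀ ^ 2, max (L ^ 16) (max C' (((N₀ + 2 : ℕ) : ℝ) ^ 4)), A + 1,
    by positivity, fun D b₀ S k hD hY hS hsum hQ => ?_⟩
  have hx := tti_three hD
  have hH := tti_HH_nonneg D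
  have hlog : 1 ≤ Real.log (-(D : ℝ)) := by
    rw [Real.le_log_iff_exp_le (by linarith)]
    linarith [Real.exp_one_lt_d9]
  have hlA : 1 ≤ Real.log (-(D : ℝ)) ^ A := one_le_pow₀ hlog
  have hlA' : 1 ≤ Real.log (-(D : ℝ)) ^ (A + 1) := one_le_pow₀ hlog
  have hQ0 : 0 < ∏ l ∈ S, l ^ k l := Finset.prod_pos fun l hl => pow_pos (hS l hl).1.pos _
  rcases S.eq_empty_or_nonempty with rfl | ⟨p, hp⟩
  · have a1 : (LevP (∏ l ∈ (∅ : Finset ℕ), l ^ k l) b₀ C D).ncard ≤ (Cl D ×ˢ Cl D).ncard := by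
      refine Set.ncard_le_ncard ?_ ((Cl_finite D).prod (Cl_finite D))
      rintro z ⟨M₁, M₂, α, β, B, h₁, h₂, e₁, e₂, -⟩
      exact ⟨⟨M₁, h₁, e₁⟩, ⟨M₂, h₂, e₂⟩⟩
    rw [Set.ncard_prod] at a1
    have a2 := H0 D hD
    calc _ ≤ ((Cl D).ncard : ℝ) * (Cl D).ncard := by exact_mod_cast a1
      _ ≤ (K₀ * HH D) * (K₀ * HH D) := by gcongr
      _ = K₀ ^ 2 * 1 * HH D ^ 2 := by ring
      _ ≤ (K * (1 + 9 * C₄) * C' + K₀ ^ 2) * Real.log (-(D : ℝ)) ^ (A + 1) * HH D ^ 2 := by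
          gcongr
          exact le_add_of_nonneg_left (by positivity)
      _ = _ := by simp
  generalize hq : ∏ l ∈ S, l ^ k l = q at hQ hQ0 ⊢
  have q1 : (1 : ℝ) ≤ q := by exact_mod_cast hQ0
  have hQ' : (q : ℝ) ^ 400 ≤ -(D : ℝ) := by exact_mod_cast hQ
  obtain ⟨s, hs, h8⟩ := tpair_root (show 1 ≤ -(D : ℝ) by linarith)
  have k0 : ((LevP q b₀ C D).ncard : ℝ) ≤ (LevP q b₀ C' D).ncard := by
    exact_mod_cast Set.ncard_le_ncard (tpair_mono _ _ hC' D) (LevP_finite _ _ _ _)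
  have k1 := tpair_main hD (hS p hp).1 hQ0 b₀ hC1
    ((le_max_left _ _).trans ((le_max_right _ _).trans hY)) (by linarith) h8
    (ρ := C₄ * (Real.log (-(D : ℝ)) ^ (A + 1) / q)) (by positivity) ?_
  · refine k0.trans (k1.trans ((H1 D s _ C' C₄ hD hs h8 (by positivity) hC1 hC₄0.le ?_).trans ?_))
    · have b1 : L ^ 2 ≤ s := by
        refine (pow_le_pow_iff_left₀ (by positivity) (by linarith) (show 8 ≠ 0 by norm_num)).1 ?_
        rw [← pow_mul, h8]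
        exact (le_max_left _ _).trans hY
      have b2 : (q : ℝ) ^ 2 ≤ s := by
        refine (pow_le_pow_iff_left₀ (by positivity) (by linarith) (show 8 ≠ 0 by norm_num)).1 ?_
        rw [← pow_mul, h8]
        exact (pow_le_pow_right₀ q1 (by norm_num)).trans hQ'
      have b3 : L * q ≤ s := by nlinarith [sq_nonneg (L - q)]
      rw [div_mul_eq_mul_div, le_div_iff₀ (by linarith)]
      calc L * Real.log (-(D : ℝ)) * q = 1 * Real.log (-(D : ℝ)) * (L * q) := by ring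
        _ ≤ Real.log (-(D : ℝ)) ^ A * Real.log (-(D : ℝ)) * s := by gcongr
        _ = _ := by ring
    · rw [mul_div_assoc]
      gcongr
      exact le_add_of_nonneg_right (by positivity)
  · intro d hg hn hG hdp hdE H N hSz n3 n5
    subst hdp hdE
    have hN : N₀ + 2 ≤ N := by
      have k2 : ((N₀ + 2 : ℕ) : ℝ) ^ 4 ≤ (N : ℝ) ^ 4 :=
        ((le_max_right _ _).trans ((le_max_right _ _).trans hY)).trans n3
      exact_mod_cast (pow_le_pow_iff_left₀ (by positivity) (by positivity) (by norm_num)).1 k2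
    have c1 : q ^ 100 ≤ N := by
      have k2 : ((q : ℝ) ^ 100) ^ 4 ≤ (N : ℝ) ^ 4 := by
        rw [← pow_mul]
        exact hQ'.trans n3
      exact_mod_cast (pow_le_pow_iff_left₀ (by positivity) (by positivity) (by norm_num)).1 k2
    have c2 : q ^ 2 ≤ H := by
      refine (Nat.pow_le_pow_iff_left (show 16 ≠ 0 by norm_num)).1 ?_
      rw [← pow_mul]
      exact (Nat.pow_le_pow_right hQ0 (by norm_num)).trans (c1.trans n5)
    refine ⟨_, fun X Y hB => hq ▸ Dt.few_levs hg S k hS b₀ hB, fun Z hZ => ?_⟩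
    have c3 := H2 d hg (by rw [hn]; rfl) H N hSz (by omega) S k hp (fun l hl => by
      obtain ⟨u1, u2, u3, u4⟩ := hS l hl
      refine ⟨u1, u2, fun hd => ?_, by rw [hG]; exact u1.not_dvd_one, u4⟩
      have := Fact.mk u1
      rw [← jacobiSym.legendreSym.to_jacobiSym, (legendreSym.eq_zero_iff l d.E).2
        ((ZMod.intCast_zmod_eq_zero_iff_dvd _ _).2 hd)] at u3
      exact zero_ne_one u3) hsum (hq ▸ c1) (hq ▸ c2) Z fun z hz => (hZ z hz).1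
    have c4 := H3 d H N hSz (by omega)
    have c5 := hSz.up
    rw [hG, Nat.cast_one, one_pow, one_mul] at c4 c5
    rw [hq] at c3
    have N1 : (1 : ℝ) ≤ N := by exact_mod_cast (show 1 ≤ N by omega)
    have c6 : Real.log N ≤ 2 * Real.log (-(d.E : ℝ)) := by
      have : (N : ℝ) ≤ (-(d.E : ℝ)) ^ 2 := by
        rw [← tti_abs hD.1]
        exact_mod_cast c5
      refine (Real.log_le_log (by linarith) this).trans_eq ?_
      rw [Real.log_pow]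
      norm_num
    have c7 := Real.log_nonneg N1
    have c8 := (EE_pos d.E d.E.natAbs).le
    calc _ ≤ C₂ * Real.log N ^ A / q * N * H * 1 := by rwa [mul_one]
      _ ≤ C₂ * (2 * Real.log (-(d.E : ℝ))) ^ A / q * N * H *
          (C₃ * (2 * Real.log (-(d.E : ℝ))) * EE d.E d.E.natAbs) := by
          gcongr
          exact c4.trans (by gcongr)
      _ = _ := by rw [hC₄]; ring

theorem lin_orb (L U : ℝ) : ∃ (K Y : ℝ) (A : ℕ), 0 < K ∧ ∀ (n : ℕ) (τ : Fin n → ℍ)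
    (D : Fin n → ℤ), (∀ k, HasDisc (τ k) (D k)) → ∀ (c : Fin n) (E b : ℤ) (S : Finset ℕ)
    (k : ℕ → ℕ), Y ≤ -(D c : ℝ) → Low L (D c) → Fit E (D c) →
    (∀ l ∈ S, l.Prime ∧ ¬ (l : ℤ) ∣ 2 * E ∧ 0 < k l ∧ (l : ℤ) ^ k l ∣ b ^ 2 - E) →
    ∑ l ∈ S, (l : ℝ) ^ (-(1 / 4 : ℝ)) ≤ 1 → ((∏ l ∈ S, l ^ k l : ℕ) : ℤ) ^ 400 ≤ -D c →
    (((Orb τ ×ˢ Orb τ).filter fun z => fr (z.1 c) ∈ KU U ∧ fr (z.2 c) ∈ KU U ∧
      ∀ l ∈ S, Ker (l ^ k l) (AA E b (fr (z.1 c))) = Ker (l ^ k l) (AA E b (fr (z.2 c)))).card : ℝ) ≤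
      K * Real.log (-(D c : ℝ)) ^ A / (∏ l ∈ S, l ^ k l : ℕ) * ((Orb τ).card : ℝ) ^ 2 := by
  obtain ⟨K, Y, A, hK, H⟩ := levP_le (4 * U ^ 2)
  refine ⟨225 * (L ^ 2 + 1) * K, max Y 577, A, by positivity,
    fun n τ D hτ c E b S k hY hL hF hS hsum hQ => ?_⟩
  obtain ⟨f, hf, rfl⟩ := hF
  have hD := (hτ c).isD
  have h576 : D c < -576 := by
    have : (577 : ℝ) ≤ -(D c : ℝ) := (le_max_right _ _).trans hY
    have : (577 : ℤ) ≤ -D c := by exact_mod_cast this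
    omega
  have hcl : ∀ l ∈ S, IsCoprime (l : ℤ) (2 * (f ^ 2 * D c)) := fun l hl =>
    ((Nat.prime_iff_prime_int.1 (hS l hl).1).irreducible.coprime_iff_not_dvd).2 (hS l hl).2.1
  have hQ0 : 0 < ∏ l ∈ S, l ^ k l := Finset.prod_pos fun l hl => pow_pos (hS l hl).1.pos _
  have hc : IsCoprime ((∏ l ∈ S, l ^ k l : ℕ) : ℤ) (2 * (f ^ 2 * D c)) := by
    push_cast
    exact IsCoprime.prod_left fun l hl => (hcl l hl).pow_left
  have hcop : ∀ a ∈ S, ∀ a' ∈ S, a ≠ a' → IsCoprime ((a : ℤ) ^ k a) ((a' : ℤ) ^ k a') :=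
    fun a ha a' ha' hne => (Nat.isCoprime_iff_coprime.2
      ((Nat.coprime_primes (hS a ha).1 (hS a' ha').1).2 hne)).pow
  have hb : ((∏ l ∈ S, l ^ k l : ℕ) : ℤ) ∣ b ^ 2 - f ^ 2 * D c := by
    push_cast
    exact Finset.prod_dvd_of_coprime (fun a ha a' ha' hne => hcop a ha a' ha' hne)
      fun l hl => (hS l hl).2.2.2
  have hker : ∀ (η : M2) (v : V2), v ∈ Ker (∏ l ∈ S, l ^ k l) η ↔ ∀ l ∈ S, v ∈ Ker (l ^ k l) η := by
    intro η v
    refine ⟨fun hv l hl => Ker_anti (Finset.dvd_prod_of_mem _ hl) η hv, fun hv i => ?_⟩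
    push_cast
    exact Finset.prod_dvd_of_coprime (fun a ha a' ha' hne => hcop a ha a' ha' hne)
      fun l hl => by exact_mod_cast hv l hl i
  have hJ : ∀ l ∈ S, l.Prime ∧ l ≠ 2 ∧ jacobiSym (D c) l = 1 ∧ 0 < k l := fun l hl => by
    obtain ⟨u1, u2, u3, u4⟩ := hS l hl
    refine ⟨u1, ?_, ?_, u3⟩
    · rintro rfl
      exact u2 (Dvd.intro _ rfl)
    have u5 : (l : ℤ) ∣ b ^ 2 - f ^ 2 * D c := (dvd_pow_self _ u3.ne').trans u4
    have u6 : IsCoprime (l : ℤ) (f ^ 2 * D c) := (hcl l hl).of_mul_right_right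
    have u7 : IsCoprime (l : ℤ) (b ^ 2) := by
      obtain ⟨w, hw⟩ := u5
      rw [show b ^ 2 = f ^ 2 * D c + l * w by linear_combination hw]
      exact u6.add_mul_left_right w
    have e1 : jacobiSym ((f : ℤ) ^ 2 * D c) l = jacobiSym (b ^ 2) l :=
      jacobiSym.mod_left' (Int.modEq_iff_dvd.2 u5)
    rw [jacobiSym.mul_left, jacobiSym.sq_one' (Int.isCoprime_iff_gcd_eq_one.1
      ((IsCoprime.pow_right_iff two_pos).1 u6.of_mul_right_left).symm),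
      jacobiSym.sq_one' (Int.isCoprime_iff_gcd_eq_one.1
      ((IsCoprime.pow_right_iff two_pos).1 u7).symm), one_mul] at e1
    exact e1
  obtain ⟨b₀, h₀, h₁⟩ : ∃ b₀ : ℤ, 2 ∣ b₀ - D c ∧ ((∏ l ∈ S, l ^ k l : ℕ) : ℤ) ∣ f * b₀ + b := by
    generalize ((∏ l ∈ S, l ^ k l : ℕ) : ℤ) = q at hc
    obtain ⟨x, y, e⟩ := hc
    refine ⟨-(y * 2 * f * D c * b) + x * q * D c, ⟨-(y * f * D c * b) - y * f ^ 2 * D c ^ 2, ?_⟩,
      ⟨x * b + f * x * D c, ?_⟩⟩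
    · linear_combination D c * e
    · linear_combination -b * e
  have a1 := H (D c) b₀ S k hD ((le_max_left _ _).trans hY) hJ hsum hQ
  have a2 := orbit_two ⊥ hτ c h576 (LevP_finite (∏ l ∈ S, l ^ k l) b₀ (4 * U ^ 2) (D c))
  rw [IntermediateField.finrank_bot, ← galO_eq, ← card_fO (galO _ _)] at a2
  have a3 := hL _ hD ⟨_, rfl⟩
  have a4 := tfc_HH hD
  have hO := orbit_finite ⊥ hτ
  refine (fun (H : ∀ T : Finset ((Fin n → ℂ) × (Fin n → ℂ)), (∀ z ∈ T,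
    (z.1 ∈ Orb τ ∧ z.2 ∈ Orb τ) ∧ fr (z.1 c) ∈ KU U ∧ fr (z.2 c) ∈ KU U ∧ ∀ l ∈ S,
      Ker (l ^ k l) (AA (f ^ 2 * D c) b (fr (z.1 c))) =
        Ker (l ^ k l) (AA (f ^ 2 * D c) b (fr (z.2 c)))) → (T.card : ℝ) ≤ _) =>
    H _ fun z hz => by simpa only [Finset.mem_filter, Finset.mem_product] using hz) fun T hT => ?_
  have a5 : T.card ≤ {w : (Fin n → ℂ) × (Fin n → ℂ) | w.1 ∈ (galO ⊥ fun k => jInv (τ k)) ∧
      w.2 ∈ (galO ⊥ fun k => jInv (τ k)) ∧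
      (w.1 c, w.2 c) ∈ LevP (∏ l ∈ S, l ^ k l) b₀ (4 * U ^ 2) (D c)}.ncard := by
    rw [← Set.ncard_coe_finset]
    refine Set.ncard_le_ncard (fun z hz => ?_)
      ((hO.prod hO).subset fun z hz => ⟨hz.1, hz.2.1⟩)
    obtain ⟨⟨z1, z2⟩, z3, z4, z5⟩ := hT z hz
    refine ⟨(mem_fO hO).1 z1, (mem_fO hO).1 z2, ?_⟩
    have := lev_of_dir (Orb_disc hτ z1 h576) (Orb_disc hτ z2 h576) hf z3 z4 hQ0 hc hb h₀ h₁
      (Set.ext fun v => by
        rw [hker, hker]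
        exact forall₂_congr fun l hl => by rw [z5 l hl])
    rwa [(fr_spec _).2, (fr_spec _).2] at this
  have a6 : (T.card : ℝ) * (Cl (D c)).ncard ^ 2 ≤ _ :=
    le_trans (mul_le_mul_of_nonneg_right (by exact_mod_cast a5) (by positivity)) a2
  have a7 : HH (D c) ^ 2 ≤ (L ^ 2 + 1) * (Cl (D c)).ncard ^ 2 := by
    have := pow_le_pow_left₀ a4.le a3 2
    rw [mul_pow] at this
    nlinarith [sq_nonneg ((Cl (D c)).ncard : ℝ)]
  refine le_of_mul_le_mul_right ?_ (pow_pos a4 2)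
  calc (T.card : ℝ) * HH (D c) ^ 2 ≤ T.card * ((L ^ 2 + 1) * (Cl (D c)).ncard ^ 2) := by gcongr
    _ = (L ^ 2 + 1) * (T.card * (Cl (D c)).ncard ^ 2) := by ring
    _ ≤ (L ^ 2 + 1) * ((15 * (1 : ℕ)) ^ 2 * (K * Real.log (-(D c : ℝ)) ^ A /
        (∏ l ∈ S, l ^ k l : ℕ) * HH (D c) ^ 2) * ((Orb τ).card : ℝ) ^ 2) := by
        refine mul_le_mul_of_nonneg_left (a6.trans ?_) (by positivity)
        unfold Orb
        gcongr
    _ = _ := by push_cast; ring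

theorem tight_orb (L : ℝ) {δ : ℝ} (hδ : 0 < δ) : ∃ U Y : ℝ, 1 ≤ U ∧ ∀ (n : ℕ) (τ : Fin n → ℍ)
    (D : Fin n → ℤ), (∀ k, HasDisc (τ k) (D k)) → ∀ c : Fin n, Y ≤ -(D c : ℝ) → Low L (D c) →
    prb (Orb τ) (fun x => fr (x c) ∉ KU U) ≤ δ := by
  obtain ⟨t, Y, ht, H⟩ := frac_sh ⊥ L hδ
  refine ⟨max 1 (1 / t), max Y 577, le_max_left _ _, fun n τ D hτ c hY hL => ?_⟩
  have h576 : D c < -576 := by
    have : (577 : ℝ) ≤ -(D c : ℝ) := (le_max_right _ _).trans hY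
    have : (577 : ℤ) ≤ -D c := by exact_mod_cast this
    omega
  have a1 := H n τ D hτ c h576 hL ((le_max_left _ _).trans hY)
  have hO := orbit_finite ⊥ hτ
  rw [← galO_eq, ← card_fO (galO _ _)] at a1
  unfold prb
  rw [div_le_iff₀ (by exact_mod_cast (Orb_ne hτ).card_pos)]
  refine le_trans ?_ a1
  rw [← Set.ncard_coe_finset, Nat.cast_le]
  refine Set.ncard_le_ncard (fun z hz => ?_) (hO.subset fun z hz => hz.1)
  simp only [Finset.mem_coe, Finset.mem_filter] at hz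
  refine ⟨(mem_fO hO).1 hz.1, ?_⟩
  have a2 : max 1 (1 / t) < (fr (z c)).im := not_le.1 fun h => hz.2 ⟨(fr_spec _).1, h⟩
  have a3 := (le_max_right _ _).trans a2.le
  rw [div_le_iff₀' ht] at a3
  have := mem_Sh_of_fd (Orb_disc hτ hz.1 h576) a3
  rwa [(fr_spec _).2] at this

end Pool.Agent.EQ
end
end
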