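import Pool.Agent.K.MP_ad7a55_nt.C71
import Pool.Agent.K.MP_ad7a55_nt.C66
import Pool.Agent.K.MP_ad7a55_nt.C21
import Pool.Agent.K.MP_ad7a55_nt.C70
import Pool.Agent.K.MP_ad7a55_nt.C22
import Pool.Agent.K.MP_ad7a55_nt.C1
import Pool.Agent.K.MP_ad7a55_nt.C62
import Pool.Agent.K.MP_ad7a55_nt.C64

-- part Pool.Agent.P.MP_ad7a55_nt.XBe
section

/-! Small matrices rarely relate the directions of two coordinates. -/

set_option autoImplicit false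

noncomputable section

open MeasureTheory Topology Filter UpperHalfPlane
open scoped MatrixGroups BoundedContinuousFunction Matrix Classical

namespace Pool.Agent.EQ

theorem xbe_fac {X : M2} (hX : X.det ≠ 0) :
    ∃ g ∈ Hn X.det.natAbs, ∃ Y : M2, X = g.adjugate * Y := by
  have hn : 0 < X.det.natAbs := Int.natAbs_pos.2 hX
  have key : ∀ T : M2, T * T = 1 → (X * T).det = X.det.natAbs →
      ∃ g ∈ Hn X.det.natAbs, ∃ Y : M2, X = g.adjugate * Y := by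
    intro T hT hd
    obtain ⟨γ, g, hg, e⟩ := exists_Hn (η := (X * T).adjugate) hn (by rw [xla_det_adj, hd])
    have e1 := congrArg Matrix.adjugate e
    rw [Matrix.adjugate_adjugate _ (by simp), Matrix.adjugate_mul_distrib] at e1
    refine ⟨g, hg, (γ : M2).adjugate * T, ?_⟩
    rw [← mul_assoc, ← e1]
    simp [mul_assoc, hT]
  rcases hX.lt_or_gt with h | h
  · refine key !![1, 0; 0, -1] (by simp [← Matrix.one_fin_two]) ?_
    rw [Matrix.det_mul, Matrix.det_fin_two_of, Int.natCast_natAbs, abs_of_neg h]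
    ring
  · exact key 1 (mul_one _) (by rw [mul_one, Int.natCast_natAbs, abs_of_pos h])

theorem xbe_ev (τ : ℍ) (v : V2) : ev τ v ∈ sp 1 τ :=
  mem_sp.2 ⟨v 0, -v 1, by rw [ev]; push_cast; ring⟩

theorem xbe_int {M : Lt} {z : ℂ} (h : z ∈ M) (n : ℤ) : (n : ℂ) * z ∈ M := by
  rw [← zsmul_eq_mul]
  exact M.smul_mem n h

theorem xbe_cop {M : Lt} {u z : ℂ} {q : ℕ} {m : ℤ} (hu : u ∈ M) (hc : IsCoprime (q : ℤ) m)
    (hz : z ∈ M) (h : (m : ℂ) * u = q * z) : u ∈ pr q * M := by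
  obtain ⟨a, b, e⟩ := hc
  have e' : (a : ℂ) * q + b * m = 1 := by exact_mod_cast e
  exact mem_pr_mul.2 ⟨_, M.add_mem (xbe_int hu a) (xbe_int hz b), by
    linear_combination u * e' - b * h⟩

theorem xbe_th {M : Lt} {E : ℤ} {g : ℕ} (h : DiscL M (g ^ 2 * E)) {z : ℂ} (hz : z ∈ M) (k : ℕ)
    (b : ℤ) : ((g * k : ℕ) : ℂ) * (th E - b) * z ∈ M := by
  have h1 := pr_mul_le.1 ((h.end_iff _).2 (th_mem_OD _)) z hz
  rw [th_mul_sq] at h1
  have h2 := M.sub_mem (xbe_int h1 k) (xbe_int hz (g * k * b))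
  refine (congrArg (· ∈ M) ?_).mp h2
  push_cast
  ring

theorem xbe_side {τ : ℍ} {D E b : ℤ} {q : ℕ} (h : HasDisc τ D) (hf : Fit E D) {v : V2}
    (hv : v ∈ Ker q (AA E b τ)) : ∃ w : V2, (th E + b) * ev τ v = q * ev τ w := by
  choose w hw using hv
  refine ⟨w, ?_⟩
  rw [← AA_ev h hf, ev, ev, hw 0, hw 1]
  push_cast
  ring

theorem xbe_norm {τ : ℍ} {U : ℝ} (hU : 1 ≤ U) (h : τ ∈ KU U) :
    ‖(τ : ℂ)‖ ≤ 3 / 2 * U ∧ 5 / 6 ≤ τ.im := by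
  have hy := τ.im_pos
  have hy3 := ModularGroup.three_le_four_mul_im_sq_of_mem_fd h.1
  refine ⟨(Complex.norm_le_abs_re_add_abs_im _).trans ?_, by nlinarith⟩
  have f1 : |τ.re| ≤ 1 / 2 := h.1.2
  have f2 := h.2
  rw [coe_re, coe_im, abs_of_pos hy]
  linarith

theorem xbe_bd {U S : ℝ} (hU : 1 ≤ U) {x y t : ℂ} (hx : ‖x‖ ≤ S) (hy : ‖y‖ ≤ S)
    (ht : ‖t‖ ≤ 3 / 2 * U) : ‖x - y * t‖ ≤ 5 / 2 * U * S := by
  have h0 : 0 ≤ S := (norm_nonneg _).trans hx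
  have h1 := mul_le_mul hy ht (norm_nonneg _) h0
  have h2 := norm_sub_le x (y * t)
  rw [norm_mul] at h2
  nlinarith

theorem xbe_map {τ₁ τ₂ : ℍ} {U Z : ℝ} (hU : 1 ≤ U) (h₁ : τ₁ ∈ KU U) (h₂ : τ₂ ∈ KU U) {X : M2}
    (hZ : ∀ i j, |(X i j : ℝ)| ≤ Z) : ∃ α β : ℂ,
    (∀ v, rl α β (ev τ₁ v) = ev τ₂ (X *ᵥ v)) ∧
      (Complex.normSq α - Complex.normSq β) * τ₁.im = X.det * τ₂.im ∧
      Complex.normSq α * τ₁.im ≤ 100 * U ^ 5 * Z ^ 2 * τ₂.im ∧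
      Complex.normSq β * τ₁.im ≤ 100 * U ^ 5 * Z ^ 2 * τ₂.im := by
  obtain ⟨n1, y1⟩ := xbe_norm hU h₁
  obtain ⟨n2, y2⟩ := xbe_norm hU h₂
  have hZ' : ∀ i j, ‖(X i j : ℂ)‖ ≤ Z := fun i j => by
    rw [Complex.norm_intCast]
    exact hZ i j
  have hZ0 : 0 ≤ Z := (abs_nonneg _).trans (hZ 0 0)
  have p0 := xbe_bd hU (hZ' 0 0) (hZ' 1 0) n2
  have p1 := xbe_bd hU (hZ' 0 1) (hZ' 1 1) n2
  have n0 : Complex.normSq ((τ₁ : ℂ) - starRingEnd ℂ τ₁) = 4 * τ₁.im ^ 2 := by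
    simp only [Complex.normSq_apply, Complex.sub_re, Complex.sub_im, Complex.conj_re,
      Complex.conj_im, coe_re, coe_im]
    ring
  have key : ∀ t : ℂ, ‖t‖ ≤ 5 / 2 * U * (5 / 2 * U * Z) →
      Complex.normSq (t / (τ₁ - starRingEnd ℂ τ₁)) * τ₁.im ≤ 100 * U ^ 5 * Z ^ 2 * τ₂.im := by
    intro t ht
    have a1 := pow_le_pow_left₀ (norm_nonneg _) ht 2
    rw [map_div₀, n0, Complex.normSq_eq_norm_sq, div_mul_eq_mul_div, div_le_iff₀ (by positivity),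
      show 100 * U ^ 5 * Z ^ 2 * τ₂.im * (4 * τ₁.im ^ 2) =
        400 * (U * (τ₂.im * τ₁.im)) * (U ^ 4 * Z ^ 2) * τ₁.im by ring]
    refine mul_le_mul_of_nonneg_right (a1.trans ?_) τ₁.im_pos.le
    have a2 : 5 / 6 * (5 / 6) ≤ τ₂.im * τ₁.im := mul_le_mul y2 y1 (by norm_num) τ₂.im_pos.le
    have a3 : 1 * (5 / 6 * (5 / 6)) ≤ U * (τ₂.im * τ₁.im) :=
      mul_le_mul hU a2 (by norm_num) (by linarith)
    have a4 : 0 ≤ U ^ 4 * Z ^ 2 := by positivity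
    nlinarith
  have hd := tda_sub τ₁
  refine ⟨(-((X 0 1 : ℂ) - X 1 1 * τ₂) - ((X 0 0 : ℂ) - X 1 0 * τ₂) * starRingEnd ℂ τ₁) /
      (τ₁ - starRingEnd ℂ τ₁),
    (((X 0 1 : ℂ) - X 1 1 * τ₂) - -((X 0 0 : ℂ) - X 1 0 * τ₂) * τ₁) / (τ₁ - starRingEnd ℂ τ₁),
    fun v => ?_, ?_, key _ (xbe_bd hU (by rwa [norm_neg]) p0 (by rwa [Complex.norm_conj])),
    key _ (xbe_bd hU p1 (by rwa [norm_neg]) n1)⟩
  · rw [tga_ev_mul]
    simp only [rl, ev, map_sub, map_mul, map_intCast]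
    field_simp
    ring
  · have hy := τ₁.im_pos.ne'
    rw [map_div₀, map_div₀, n0, Matrix.det_fin_two]
    simp only [Complex.normSq_apply, Complex.sub_re, Complex.sub_im, Complex.conj_re,
      Complex.conj_im, coe_re, coe_im, Complex.neg_re, Complex.neg_im, Complex.mul_re,
      Complex.mul_im, Complex.intCast_re, Complex.intCast_im]
    push_cast
    field_simp
    ring

theorem xs_of_mat {τ₁ τ₂ : ℍ} {U Z : ℝ} (hU : 1 ≤ U) (h₁ : τ₁ ∈ KU U) (h₂ : τ₂ ∈ KU U) {X : M2}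
    (hX : X.det ≠ 0) (hZ : ∀ i j, |(X i j : ℝ)| ≤ Z) : ∃ g ∈ Hn X.det.natAbs,
    ∀ (E E' D₂ b b₀ : ℤ) (f g₁ g₂ q : ℕ), IsD E' → g₁.Coprime g₂ → HasDisc τ₁ (g₁ ^ 2 * E') →
      HasDisc τ₂ D₂ → HasDisc (act g τ₂) (g₂ ^ 2 * E') → E = f ^ 2 * (g₁ ^ 2 * E') → Fit E D₂ →
      0 < f → 0 < q → IsCoprime (q : ℤ) (2 * E * X.det) → (q : ℤ) ∣ b ^ 2 - E → 2 ∣ b₀ - E' →
      (q : ℤ) ∣ f * g₁ * b₀ + b →
      (∀ v ∈ Ker q (AA E b τ₁), X *ᵥ v ∈ Ker q (AA E b τ₂)) →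
      (jInv τ₁, jInv (act g τ₂)) ∈ XS X.det.sign (100 * U ^ 5 * Z ^ 2) q b₀ E' g₁ g₂
        (jL (sp 1 (act g τ₂) * cj (sp 1 τ₁))) := by
  obtain ⟨g, hg, Y, hY⟩ := xbe_fac hX
  obtain ⟨α, β, r1, r2, r3, r4⟩ := xbe_map hU h₁ h₂ hZ
  obtain ⟨d0, hd⟩ := mem_Hn hg
  have g0 : 0 < g.det := by rw [hd]; exact_mod_cast d0
  have c0 := act_den g0 τ₂
  refine ⟨g, hg, fun E E' D₂ b b₀ f g₁ g₂ q hE' hc a₁ a₂ a₃ hE f₂ hf hq hqc hb hb₀ ⟨t, ht⟩ hK => ?_⟩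
  have m₁ := discL_one a₁
  have m₂ := (discL_one a₃).pr_mul c0
  have f₁ : Fit E (g₁ ^ 2 * E') := ⟨f, hf, hE⟩
  have hM : ∀ w, ev τ₂ (g.adjugate *ᵥ w) ∈ pr ((g 1 0 : ℂ) * τ₂ + g 1 1) * sp 1 (act g τ₂) :=
    fun w => mem_pr_mul.2 ⟨_, xbe_ev _ w, (ev_adj g0 τ₂ w).symm⟩
  have hv : vol (pr ((g 1 0 : ℂ) * τ₂ + g 1 1) * sp 1 (act g τ₂)) = X.det.natAbs * τ₂.im := by
    rw [vol_pr_mul (isLat_one _) c0, tda_vol, Complex.normSq_eq_norm_sq, mul_comm, xkd_im g0, hd,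
      Int.cast_natCast]
  have hj : jL (pr ((g 1 0 : ℂ) * τ₂ + g 1 1) * sp 1 (act g τ₂) * cj (sp 1 τ₁)) =
      jL (sp 1 (act g τ₂) * cj (sp 1 τ₁)) := by
    rw [mul_assoc, jL_pr_mul (discL_mul_cop hE' hc.symm (discL_one a₃) m₁.cj).1.isLat c0]
  have hj' := (jL_pr_mul (isLat_one (act g τ₂)) c0).trans (jL_one _)
  generalize pr ((g 1 0 : ℂ) * τ₂ + g 1 1) * sp 1 (act g τ₂) = M at m₂ hM hv hj hj'
  have hX' : ∀ v, ev τ₂ (X *ᵥ v) ∈ M := fun v => by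
    rw [hY, ← Matrix.mulVec_mulVec]
    exact hM _
  have hδ : ∀ w, (X.det.natAbs : ℂ) * ev τ₂ w ∈ M := fun w => by
    have := hM (g *ᵥ w)
    rw [Matrix.mulVec_mulVec, Matrix.adjugate_mul, Matrix.smul_mulVec, Matrix.one_mulVec, hd,
      ev] at this
    refine (congrArg (· ∈ M) ?_).mp this
    simp only [ev, Pi.smul_apply, smul_eq_mul]
    generalize X.det.natAbs = δ
    push_cast
    ring
  have hm : ∀ z ∈ sp 1 τ₁, rl α β z ∈ M := fun z hz => by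
    obtain ⟨x, y, rfl⟩ := mem_sp.1 hz
    have := hX' ![x, -y]
    rw [← r1, ev] at this
    refine (congrArg (fun z => rl α β z ∈ M) ?_).mp this
    simp
  obtain ⟨B, hB⟩ := hm_int hE' hc m₁ m₂ hm
  have d1 : (1 : ℝ) ≤ X.det.natAbs := by exact_mod_cast d0
  have hle : 100 * U ^ 5 * Z ^ 2 * τ₂.im ≤ 100 * U ^ 5 * Z ^ 2 * vol M := by
    rw [hv]
    exact mul_le_mul_of_nonneg_left (le_mul_of_one_le_left τ₂.im_pos.le d1) (by positivity)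
  obtain ⟨v, hv1, hv2⟩ := AA_line a₁ f₁ hq hqc.of_mul_right_left hb
  have k₁ : v ∈ Ker q (AA E b τ₁) := hv2 ▸ xlb_self q v
  obtain ⟨w₁, e₁⟩ := xbe_side a₁ f₁ k₁
  obtain ⟨w₂, e₂⟩ := xbe_side a₂ f₂ (hK v k₁)
  have hth : th E = f * (g₁ * th E') := by rw [hE, th_mul_sq, th_mul_sq]
  have ht' : (f : ℂ) * g₁ * b₀ + b = q * t := by exact_mod_cast ht
  have cf : IsCoprime (q : ℤ) f := by
    refine hqc.of_isCoprime_of_dvd_right ⟨2 * f * (g₁ ^ 2 * E') * X.det, ?_⟩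
    rw [hE]
    ring
  have cd : IsCoprime (q : ℤ) X.det.natAbs :=
    hqc.of_isCoprime_of_dvd_right (Int.natAbs_dvd.2 (Dvd.intro_left _ rfl))
  rw [hth] at e₁ e₂
  refine ⟨sp 1 τ₁, M, α, β, B, m₁, m₂, jL_one _, hj', hj, ⟨hm, by exact_mod_cast hB, ?_, ?_, ?_⟩,
    hb₀, ev τ₁ v, xbe_ev _ _, fun l hl _ k => ?_, ?_, ?_⟩
  · rw [tda_vol, r2, hv, ← mul_assoc, ← Int.cast_natCast (R := ℝ), ← Int.cast_mul,
      Int.sign_mul_natAbs]
  · rw [tda_vol]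
    exact r3.trans hle
  · rw [tda_vol]
    exact r4.trans hle
  · obtain ⟨w, hw, e⟩ := mem_pr_mul.1 k
    obtain ⟨x, y, rfl⟩ := mem_sp.1 hw
    obtain ⟨e1, e2⟩ := ord_indep τ₁ (m := l * x - v 0) (n := l * y + v 1) (by
      rw [ev] at e
      push_cast
      linear_combination e)
    exact (Nat.prime_iff_prime_int.1 hl).not_isUnit
      (hv1.isUnit_of_dvd' ⟨x, by linear_combination -e1⟩ ⟨-y, by linear_combination e2⟩)
  · refine xbe_cop (xbe_th m₁ (xbe_ev τ₁ v) g₂ b₀) cf (xbe_int ((sp 1 τ₁).sub_mem (xbe_ev τ₁ w₁)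
      (xbe_int (xbe_ev τ₁ v) t)) g₂) ?_
    push_cast
    linear_combination g₂ * e₁ - g₂ * ev τ₁ v * ht'
  · rw [r1, mul_comm g₁]
    refine xbe_cop (xbe_th m₂ (hX' v) g₁ b₀) (cf.mul_right cd) (xbe_int (M.sub_mem (hδ w₂)
      (xbe_int (hδ (X *ᵥ v)) t)) g₂) ?_
    generalize X.det.natAbs = δ
    push_cast
    linear_combination g₂ * δ * e₂ - g₂ * δ * ev τ₂ (X *ᵥ v) * ht'

theorem xbe_gal {n : ℕ} (x z : Fin n → ℂ) :
    z ∈ galOrbit ⊥ x ↔ ∃ σ : ℂ ≃+* ℂ, z = fun k => σ (x k) :=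
  exists_congr fun σ => and_iff_right fun a ha => by
    obtain ⟨q, rfl⟩ := IntermediateField.mem_bot.1 ha
    exact map_ratCast σ q

theorem xbe_cnt {n : ℕ} {τ : Fin n → ℍ} {D : Fin n → ℤ} (hτ : ∀ k, HasDisc (τ k) (D k))
    (k l : Fin n) {δ : ℕ} (hδ : 0 < δ) {h : M2} (hh : h.det = δ) {E : ℤ} {g₁ g₂ : ℕ} (hE : IsD E)
    (hg : g₁.Coprime g₂) (e1 : D k = g₁ ^ 2 * E) (a : HasDisc (act h (τ l)) (g₂ ^ 2 * E))
    (b1 : D k < -576) (b2 : g₂ ^ 2 * E < -576) {S : Set (ℂ × ℂ)} (hS : S.Finite) :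
    prb (Orb τ) (fun x => ∃ σ : ℂ ≃+* ℂ, (x = fun i => σ (jInv (τ i))) ∧
      (x k, σ (jInv (act h (τ l)))) ∈ S) * (Cl ((g₁ * g₂ : ℕ) ^ 2 * E)).ncard ≤
      15 * S.ncard * (δ : ℝ) ^ 2 := by
  obtain ⟨t, t0, t1⟩ : ∃ t : Fin (n + 1) → ℍ, t 0 = act h (τ l) ∧ ∀ i : Fin n, t i.succ = τ i :=
    ⟨Fin.cons (act h (τ l)) τ, rfl, fun _ => rfl⟩
  have ht : ∀ i, HasDisc (t i) ((Fin.cons (g₂ ^ 2 * E) D : Fin (n + 1) → ℤ) i) := fun i => by
    refine Fin.cases ?_ (fun i => ?_) i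
    · rw [t0]
      exact a
    · rw [t1]
      exact hτ i
  have hO := orbit_finite ⊥ ht
  have k1 := tfc_core ⊥ ht k.succ 0 hE hg e1 rfl b1 b2 hS
    (A := {z | z ∈ (galOrbit ⊥ fun i => jInv (t i)) ∧ (z k.succ, z 0) ∈ S}) fun z hz => hz
  rw [IntermediateField.finrank_bot, Nat.cast_one, mul_one] at k1
  have k2 : (galOrbit ⊥ fun i => jInv (t i)).ncard ≤ (Orb τ).card * δ ^ 2 := by
    refine le_trans ?_ (Nat.mul_le_mul_left _ (card_Hn δ))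
    rw [← Finset.card_product, ← Set.ncard_coe_finset]
    refine le_trans (Set.ncard_le_ncard ?_ ((Finset.finite_toSet _).image _))
      (Set.ncard_image_le (f := fun y : (Fin n → ℂ) × M2 =>
        (Fin.cons (jInv (act y.2 (fr (y.1 l)))) y.1 : Fin (n + 1) → ℂ)) (Finset.finite_toSet _))
    intro z hz
    obtain ⟨σ, rfl⟩ := (xbe_gal _ _).1 hz
    have i1 : Ig δ (σ (jInv (act h (τ l)))) (jInv (fr (σ (jInv (τ l))))) := by
      rw [(fr_spec _).2]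
      exact Ig.gal hδ ⟨τ l, h, hh, rfl, rfl⟩ σ
    obtain ⟨g, hg, e⟩ := i1.exists_Hn hδ
    refine ⟨(fun i => σ (jInv (τ i)), g), Finset.mem_coe.2 (Finset.mem_product.2
      ⟨(mem_Orb hτ).2 ⟨σ, rfl⟩, hg⟩), funext fun i => ?_⟩
    refine Fin.cases ?_ (fun i => ?_) i
    · rw [t0]
      exact e
    · rw [t1]
      rfl
  have k3 : ((Orb τ).filter fun x => ∃ σ : ℂ ≃+* ℂ, (x = fun i => σ (jInv (τ i))) ∧
      (x k, σ (jInv (act h (τ l)))) ∈ S).card ≤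
      {z | z ∈ (galOrbit ⊥ fun i => jInv (t i)) ∧ (z k.succ, z 0) ∈ S}.ncard := by
    have hA : {z | z ∈ (galOrbit ⊥ fun i => jInv (t i)) ∧ (z k.succ, z 0) ∈ S}.Finite :=
      hO.subset fun z hz => hz.1
    rw [← Set.ncard_coe_finset]
    refine le_trans (Set.ncard_le_ncard ?_ (hA.image _))
      (Set.ncard_image_le (f := fun (z : Fin (n + 1) → ℂ) (i : Fin n) => z i.succ) hA)
    intro x hx
    obtain ⟨σ, rfl, e⟩ := (Finset.mem_filter.1 (Finset.mem_coe.1 hx)).2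
    refine ⟨fun i => σ (jInv (t i)), ⟨(xbe_gal _ _).2 ⟨σ, rfl⟩, ?_⟩, funext fun i => ?_⟩
    · simp only [t0, t1]
      exact e
    · simp only [t1]
  have o0 : (0 : ℝ) < (Orb τ).card := Nat.cast_pos.2 (Orb_ne hτ).card_pos
  have k4 := mul_le_mul_of_nonneg_right ((Nat.cast_le (α := ℝ)).2 k3)
    (Nat.cast_nonneg (α := ℝ) (Cl ((g₁ * g₂ : ℕ) ^ 2 * E)).ncard)
  have k5 := mul_le_mul_of_nonneg_left ((Nat.cast_le (α := ℝ)).2 k2)
    (show (0 : ℝ) ≤ 15 * S.ncard by positivity)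
  rw [xec_pb, Finset.sum_boole, div_mul_eq_mul_div, div_le_iff₀ o0]
  rw [Nat.cast_mul, Nat.cast_pow] at k5
  linarith

theorem xbe_jac {E b F : ℤ} {p : ℕ} (hp : p.Prime) (h1 : ¬ (p : ℤ) ∣ F ^ 2 * E)
    (h2 : (p : ℤ) ∣ b ^ 2 - F ^ 2 * E) : jacobiSym E p = 1 := by
  have key : ∀ a : ℤ, ¬ (p : ℤ) ∣ a → jacobiSym (a ^ 2) p = 1 := fun a ha =>
    jacobiSym.sq_one' (Int.isCoprime_iff_gcd_eq_one.1
      (((Nat.prime_iff_prime_int.1 hp).coprime_iff_not_dvd.2 ha).symm))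
  have a1 := key F fun h => h1 ((h.trans (dvd_pow_self F two_ne_zero)).mul_right _)
  have a2 := key b fun h => h1 ((dvd_sub_right (h.trans (dvd_pow_self b two_ne_zero))).1 h2)
  have a3 : jacobiSym (F ^ 2 * E) p = jacobiSym (b ^ 2) p :=
    jacobiSym.mod_left' (Int.modEq_iff_dvd.2 h2)
  rwa [jacobiSym.mul_left, a1, a2, one_mul] at a3

theorem xc_one (L U : ℝ) (hU : 1 ≤ U) : ∃ (K : ℝ) (A R₀ : ℕ), 0 < K ∧ ∀ (n : ℕ) (τ : Fin n → ℍ)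
    (D : Fin n → ℤ), (∀ k, HasDisc (τ k) (D k)) → ∀ (k l : Fin n) (E b : ℤ) (β : Finset ℕ)
    (δ R : ℕ) (Z Λ : ℝ), Low L (D k) → Fit E (D k) → Fit E (D l) → β.Nonempty →
    (∀ p ∈ β, p.Prime ∧ ¬ (p : ℤ) ∣ 2 * E * δ ∧ (p : ℤ) ∣ b ^ 2 - E) →
    ∑ p ∈ β, (p : ℝ) ^ (-(1 / 4 : ℝ)) ≤ 1 → 1 ≤ Z → 0 < δ → δ ≤ R → R₀ * Z ^ 2 ≤ R →
    (∏ p ∈ β, p) ^ 200 ≤ R → (R : ℤ) ^ 3 ≤ -D k → (R : ℤ) ^ 3 ≤ -D l → 1 ≤ Λ →
    Real.log (-(D k : ℝ)) ≤ Λ → Real.log (-(D l : ℝ)) ≤ Λ →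
    (∀ d, 0 < d → d ≤ R ^ 3 → ¬ Ig d (jInv (τ k)) (jInv (τ l))) →
    prb (Orb τ) (fun x => fr (x k) ∈ KU U ∧ fr (x l) ∈ KU U ∧ ∃ X : M2, X.det.natAbs = δ ∧
      (∀ i j, |(X i j : ℝ)| ≤ Z) ∧ ∀ p ∈ β, ∀ v ∈ Ker p (AA E b (fr (x k))),
        X *ᵥ v ∈ Ker p (AA E b (fr (x l)))) ≤
      K * Λ ^ A * Z ^ 2 * (δ : ℝ) ^ 4 / (∏ p ∈ β, p : ℕ) := by
  obtain ⟨K, A, R₁, hK, hxs⟩ := xs_le
  refine ⟨60 * (|L| + 1) * (K * (100 * U ^ 5) * 3 ^ A), A, max (max R₁ 577) ⌈100 * U ^ 5⌉₊,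
    by positivity, fun n τ D hτ k l E b β δ R Z Λ hL ⟨f, hf, hE⟩ ⟨f', hf', hE'⟩ hβ hp hs hZ hδ hδR
      hR hq bk bl hΛ lk ll hI => ?_⟩
  have Z1 : 1 ≤ Z ^ 2 := one_le_pow₀ hZ
  have U1 : 1 ≤ U ^ 5 := one_le_pow₀ hU
  have C1 : 1 ≤ 100 * U ^ 5 * Z ^ 2 := one_le_mul_of_one_le_of_one_le (by linarith) Z1
  have hR0 : max (max R₁ 577) ⌈100 * U ^ 5⌉₊ ≤ R :=
    (Nat.cast_le (α := ℝ)).1 ((le_mul_of_one_le_right (Nat.cast_nonneg _) Z1).trans hR)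
  have R1 : R₁ ≤ R := by omega
  have R2 : (577 : ℤ) ≤ R := by omega
  have R3 : 100 * U ^ 5 * Z ^ 2 ≤ R := le_trans (mul_le_mul_of_nonneg_right
    ((Nat.le_ceil _).trans (Nat.cast_le.2 (le_max_right _ _))) (by positivity)) hR
  have R4 : (R : ℤ) ≤ R ^ 3 := le_self_pow₀ (by omega) (by norm_num)
  have R5 : (R : ℤ) ^ 2 ≤ R ^ 3 := pow_le_pow_right₀ (by omega) (by norm_num)
  have d2 : (δ : ℤ) ^ 2 ≤ R ^ 2 := pow_le_pow_left₀ (by positivity) (by exact_mod_cast hδR) 2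
  have ck : D k < -576 := by omega
  have cl : D l < -576 := by omega
  have q0 : 0 < ∏ p ∈ β, p := Finset.prod_pos fun p h => (hp p h).1.pos
  have hqc : IsCoprime ((∏ p ∈ β, p : ℕ) : ℤ) (2 * E * δ) := by
    rw [Nat.cast_prod]
    exact IsCoprime.prod_left fun p h =>
      (Nat.prime_iff_prime_int.1 (hp p h).1).coprime_iff_not_dvd.2 (hp p h).2.1
  have hqb : ((∏ p ∈ β, p : ℕ) : ℤ) ∣ b ^ 2 - E := by
    rw [Nat.cast_prod]
    exact Finset.prod_dvd_of_coprime (fun a ha c hc hac => Nat.isCoprime_iff_coprime.2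
      ((Nat.coprime_primes (hp a ha).1 (hp c hc).1).2 hac)) fun p h => (hp p h).2.2
  obtain ⟨m, hm⟩ : ∃ m : ℝ, m = K * (100 * U ^ 5 * Z ^ 2) * (3 * Λ) ^ A / (∏ p ∈ β, p : ℕ) :=
    ⟨_, rfl⟩
  have m0 : 0 < m := by rw [hm]; positivity
  have key : ∀ h ∈ Hn δ, prb (Orb τ) (fun x => ∃ σ : ℂ ≃+* ℂ, (x = fun i => σ (jInv (τ i))) ∧
      ∃ g ∈ Hn δ, σ (jInv (act h (τ l))) = jInv (act g (fr (x l))) ∧ ∃ s : ℤ, (s = 1 ∨ s = -1) ∧
      ∀ (E' b₀ : ℤ) (g₁ g₂ : ℕ), IsD E' → g₁.Coprime g₂ → D k = g₁ ^ 2 * E' →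
        HasDisc (act g (fr (x l))) (g₂ ^ 2 * E') → 2 ∣ b₀ - E' →
        ((∏ p ∈ β, p : ℕ) : ℤ) ∣ f * g₁ * b₀ + b →
        (x k, jInv (act g (fr (x l)))) ∈ XS s (100 * U ^ 5 * Z ^ 2) (∏ p ∈ β, p) b₀ E' g₁ g₂
          (jL (sp 1 (act g (fr (x l))) * cj (sp 1 (fr (x k)))))) ≤
      60 * (|L| + 1) * m * (δ : ℝ) ^ 2 := by
    intro h hh
    have hd := (mem_Hn hh).2
    obtain ⟨D', a', ⟨f₁, hf₁, e₁⟩, a₂⟩ := act_disc (hτ l) hδ hd
    have c' : D' < -576 := by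
      by_contra hn
      have s1 := mul_le_mul_of_nonneg_left (show -D' ≤ 576 by omega) (sq_nonneg (δ : ℤ))
      have s2 := mul_le_mul_of_nonneg_left R2 (sq_nonneg (R : ℤ))
      have s3 : (0 : ℤ) < R ^ 2 := pow_pos (by omega) 2
      linarith
    obtain ⟨E', g₁, g₂, iE, p₁, p₂, hg, ek, rfl, hr⟩ := split_disc (hτ k).isD a'.isD
      (ρ₁ := δ * f) (ρ₂ := f' * f₁) (by positivity) (by positivity) (by
        have : ((δ : ℤ) * f) ^ 2 * D k = (f' * f₁) ^ 2 * D' := by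
          linear_combination (δ : ℤ) ^ 2 * (hE' - hE) + (f' : ℤ) ^ 2 * e₁
        exact_mod_cast this)
    have hr' : (δ : ℤ) * f * g₁ = f' * f₁ * g₂ := by exact_mod_cast hr
    have hEE : E = (f * g₁) ^ 2 * E' := by rw [hE, ek]; ring
    obtain ⟨b₀, u1, u2⟩ : ∃ b₀ : ℤ, 2 ∣ b₀ - E' ∧ ((∏ p ∈ β, p : ℕ) : ℤ) ∣ f * g₁ * b₀ + b := by
      obtain ⟨x, y, e⟩ := hqc.of_isCoprime_of_dvd_right (x := 2 * ((f : ℤ) * g₁))
        ⟨f * g₁ * E' * δ, by rw [hEE]; ring⟩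
      exact ⟨E' - 2 * (y * (f * g₁ * E' + b)), ⟨-(y * (f * g₁ * E' + b)), by ring⟩,
        x * (f * g₁ * E' + b), by linear_combination -(f * g₁ * E' + b) * e⟩
    obtain ⟨w, w', hw⟩ := orbit_classes iE hg (ek ▸ discL_one (hτ k)) (discL_one a') (ek ▸ ck) c'
    have iG := cm_isD_sq iE (Nat.mul_pos p₁ p₂)
    have lg : Real.log (-(((g₁ * g₂ : ℕ) ^ 2 * E' : ℤ) : ℝ)) ≤ 3 * Λ := by
      have t1 : -((g₁ * g₂ : ℕ) ^ 2 * E' : ℤ) ≤ -D k * (-D l * -D l) := by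
        have s1 : (1 : ℤ) ≤ f₁ ^ 2 := one_le_pow₀ (by exact_mod_cast hf₁)
        have s2 : -(g₂ ^ 2 * E') ≤ -D l * -D l := by
          have s4 := mul_le_mul_of_nonneg_right s1 (show 0 ≤ -(g₂ ^ 2 * E') by omega)
          have s5 := mul_le_mul_of_nonneg_right (d2.trans (R5.trans bl)) (show 0 ≤ -D l by omega)
          linarith
        have s3 : (g₁ : ℤ) ^ 2 ≤ -D k := by
          have s4 := mul_le_mul_of_nonneg_left (show 1 ≤ -E' by linarith [iE.1])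
            (sq_nonneg (g₁ : ℤ))
          linarith
        refine le_trans (le_of_eq ?_) (mul_le_mul s3 s2 (by omega) (by omega))
        push_cast
        ring
      have t2 : (0 : ℝ) < -(D k : ℝ) := by linarith [tti_three (hτ k).isD]
      have t3 : (0 : ℝ) < -(D l : ℝ) := by linarith [tti_three (hτ l).isD]
      refine (Real.log_le_log (by linarith [tti_three iG])
        (show _ ≤ -(D k : ℝ) * (-(D l : ℝ) * -(D l : ℝ)) by exact_mod_cast t1)).trans ?_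
      rw [Real.log_mul t2.ne' (by positivity), Real.log_mul t3.ne' t3.ne']
      linarith
    obtain ⟨T, hT⟩ : ∃ T : ℤ → ℂ → Set (ℂ × ℂ), T = fun s w =>
        {z | z ∈ XS s (100 * U ^ 5 * Z ^ 2) (∏ p ∈ β, p) b₀ E' g₁ g₂ w ∧
          ∀ M : ℕ, 0 < M → M ≤ R → ¬ Isog M z.1 z.2} := ⟨_, rfl⟩
    have T1 : ∀ s w, (T s w).Finite := fun s w => by
      rw [hT]
      exact (XS_finite _ _ _ _ _ _ _ _).subset fun z hz => hz.1
    have H0 := tfc_HH iG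
    have T2 : ∀ s w, s.natAbs = 1 → ((T s w).ncard : ℝ) ≤ m * HH ((g₁ * g₂ : ℕ) ^ 2 * E') := by
      intro s w e
      rw [hT, hm]
      refine (hxs s b₀ E' _ g₁ g₂ R β w e C1 iE p₁ p₂ hg hβ (fun p h => ?_) hs R1 R3
        hq).trans ?_
      · obtain ⟨v1, v2, v3⟩ := hp p h
        have v4 := Nat.prime_iff_prime_int.1 v1
        have v5 : ¬ (p : ℤ) ∣ δ * f * g₁ := fun e => v2 (v4.dvd_of_dvd_pow (n := 2)
          ((e.mul_right (4 * δ * (f * g₁) ^ 3 * E' ^ 2)).trans (dvd_of_eq (by rw [hEE]; ring))))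
        refine ⟨v1, ?_, xbe_jac v1 (fun e => v2 ?_) (hEE ▸ v3), fun e => v5 ?_⟩
        · rintro rfl
          exact v2 ⟨E * δ, by push_cast; ring⟩
        · exact ((hEE ▸ e).mul_left 2).mul_right _
        · rcases (Nat.Prime.dvd_mul v1).1 e with e | e
          · exact (Int.natCast_dvd_natCast.2 e).mul_left _
          · exact hr' ▸ (Int.natCast_dvd_natCast.2 e).mul_left _
      · have := Real.log_nonneg (show 1 ≤ -(((g₁ * g₂ : ℕ) ^ 2 * E' : ℤ) : ℝ) by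
          linarith [tti_three iG])
        gcongr
    have k1 := xbe_cnt hτ k l hδ hd iE hg ek a' ck c'
      (((T1 1 w).union (T1 1 w')).union ((T1 (-1) w).union (T1 (-1) w')))
    have k2 : ((T 1 w ∪ T 1 w' ∪ (T (-1) w ∪ T (-1) w')).ncard : ℝ) ≤
        4 * m * HH ((g₁ * g₂ : ℕ) ^ 2 * E') := by
      have := (Nat.cast_le (α := ℝ)).2 ((Set.ncard_union_le _ _).trans (Nat.add_le_add
        (Set.ncard_union_le (T 1 w) (T 1 w')) (Set.ncard_union_le (T (-1) w) (T (-1) w'))))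
      push_cast at this
      linarith [T2 1 w rfl, T2 1 w' rfl, T2 (-1) w rfl, T2 (-1) w' rfl]
    refine le_trans (pb_mono fun x hx hx' => ?_)
      ((tfc_fin (K := 15) (L := L) (δ := 60 * (|L| + 1) * m) k1 (k2.trans (le_of_eq ?_))
        (hL _ iG ⟨g₁ * (g₁ * g₂ : ℕ) * E', by rw [ek]; ring⟩) H0 (Nat.cast_nonneg _) (by norm_num)
        (by positivity) (by positivity)))
    · obtain ⟨σ, e, g, -, j, s, hs, hX⟩ := hx'
      refine ⟨σ, e, ?_⟩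
      have xk : x k = σ (jInv (τ k)) := congrFun e k
      have y1 := hX E' b₀ g₁ g₂ iE hg ek (disc_of_gal a' c' j.symm) u1 u2
      have y2 := hw σ _ _ (isLat_one (fr (x k))) (isLat_one (act g (fr (x l))))
        (by rw [jL_one, jL_one, (fr_spec _).2, xk]) (by rw [jL_one, jL_one, j])
      have y3 : ∀ M : ℕ, 0 < M → M ≤ R → ¬ Isog M (x k) (σ (jInv (act h (τ l)))) := by
        intro M M0 MR i
        obtain ⟨d, d0, dM, i1⟩ := i.ig M0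
        have i2 := (i1.trans d0 hδ (Ig.gal hδ ⟨τ l, h, hd, rfl, rfl⟩ σ)).gal
          (Nat.mul_pos d0 hδ) σ.symm
        rw [xk, σ.symm_apply_apply, σ.symm_apply_apply] at i2
        exact hI _ (Nat.mul_pos d0 hδ)
          (Nat.mul_le_mul (dM.trans (Nat.pow_le_pow_left MR 2)) hδR) i2
      rw [← j] at y1
      rw [hT]
      rcases hs with rfl | rfl <;> rcases y2 with y2 | y2 <;> rw [y2] at y1
      · exact Or.inl (Or.inl ⟨y1, y3⟩)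
      · exact Or.inl (Or.inr ⟨y1, y3⟩)
      · exact Or.inr (Or.inl ⟨y1, y3⟩)
      · exact Or.inr (Or.inr ⟨y1, y3⟩)
    · field_simp
      ring
  refine le_trans (pb_mono fun x hx hx' => ?_) ((pb_exists _ _ _).trans
    ((Finset.sum_le_card_nsmul _ _ _ key).trans ?_))
  · obtain ⟨u1, u2, X, hX, hXZ, hK⟩ := hx'
    obtain ⟨σ, e⟩ := (mem_Orb hτ).1 hx
    have X0 : X.det ≠ 0 := Int.natAbs_pos.1 (hX ▸ hδ)
    obtain ⟨g, hg, hxs⟩ := xs_of_mat hU u1 u2 X0 hXZ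
    rw [hX] at hg
    have i1 := Ig.gal hδ ⟨fr (x l), g, (mem_Hn hg).2, rfl, (fr_spec _).2⟩ σ.symm
    rw [show σ.symm (x l) = jInv (τ l) by rw [e, σ.symm_apply_apply]] at i1
    obtain ⟨h, hh, j⟩ := i1.exists_Hn hδ
    refine ⟨h, hh, σ, e, g, hg, by rw [j, σ.apply_symm_apply], X.det.sign, ?_,
      fun E' b₀ g₁ g₂ iE hc ek a u1 u2 => ?_⟩
    · exact X0.lt_or_gt.symm.imp Int.sign_eq_one_of_pos Int.sign_eq_neg_one_of_neg
    · have := hxs E E' (D l) b b₀ f g₁ g₂ _ iE hc (ek ▸ Orb_disc hτ hx ck) (Orb_disc hτ hx cl) a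
        (ek ▸ hE) ⟨f', hf', hE'⟩ hf q0 (hqc.of_isCoprime_of_dvd_right
          (mul_dvd_mul_left _ (hX ▸ Int.dvd_natAbs.2 dvd_rfl))) hqb u1 u2 fun v hv =>
        (mem_Ker_prod fun p h => (hp p h).1).2 fun p h =>
          hK p h v ((mem_Ker_prod fun p h => (hp p h).1).1 hv p h)
      rwa [(fr_spec _).2] at this
  · rw [nsmul_eq_mul]
    refine (mul_le_mul_of_nonneg_right (show _ ≤ (δ : ℝ) ^ 2 by exact_mod_cast card_Hn δ)
      (by positivity)).trans (le_of_eq ?_)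
    rw [hm, mul_pow 3]
    ring

theorem xc_orb (L U : ℝ) (hU : 1 ≤ U) : ∃ (K : ℝ) (A R₀ : ℕ), 0 < K ∧ ∀ (n : ℕ) (τ : Fin n → ℍ)
    (D : Fin n → ℤ), (∀ k, HasDisc (τ k) (D k)) → ∀ (k l : Fin n) (E b : ℤ) (β : Finset ℕ)
    (R : ℕ) (Z Λ : ℝ), Low L (D k) → Fit E (D k) → Fit E (D l) →
    (∀ p ∈ β, p.Prime ∧ ¬ (p : ℤ) ∣ 2 * E ∧ (p : ℤ) ∣ b ^ 2 - E) →
    ∑ p ∈ β, (p : ℝ) ^ (-(1 / 4 : ℝ)) ≤ 1 → 1 ≤ Z → R₀ * Z ^ 2 ≤ R →
    (∏ p ∈ β, p) ^ 200 ≤ R → (R : ℤ) ^ 3 ≤ -D k → (R : ℤ) ^ 3 ≤ -D l → 1 ≤ Λ →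
    Real.log (-(D k : ℝ)) ≤ Λ → Real.log (-(D l : ℝ)) ≤ Λ →
    (∀ d, 0 < d → d ≤ R ^ 3 → ¬ Ig d (jInv (τ k)) (jInv (τ l))) →
    prb (Orb τ) (fun x => fr (x k) ∈ KU U ∧ fr (x l) ∈ KU U ∧
      Xc Z (fun p => Ker p (AA E b (fr (x k)))) (fun p => Ker p (AA E b (fr (x l)))) β) ≤
      K * Λ ^ A * Z ^ 14 / (∏ p ∈ β, p : ℕ) := by
  obtain ⟨K, A, R₀, hK, h1⟩ := xc_one L U hU
  refine ⟨64 * (K + 1), A, max R₀ 2, by positivity,
    fun n τ D hτ k l E b β R Z Λ hL fk fl hp hs hZ hR hq bk bl hΛ lk ll hI => ?_⟩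
  have Z0 : 0 ≤ Z ^ 2 := sq_nonneg Z
  have R1 : R₀ * Z ^ 2 ≤ R :=
    (mul_le_mul_of_nonneg_right (Nat.cast_le.2 (le_max_left _ _)) Z0).trans hR
  have R2 : 2 * Z ^ 2 ≤ R :=
    (mul_le_mul_of_nonneg_right (by exact_mod_cast le_max_right R₀ 2) Z0).trans hR
  have q0 : (0 : ℝ) < (∏ p ∈ β, p : ℕ) := Nat.cast_pos.2 (Finset.prod_pos fun p h => (hp p h).1.pos)
  have key : ∀ δ ∈ Finset.Icc 1 ⌊2 * Z ^ 2⌋₊, prb (Orb τ) (fun x => fr (x k) ∈ KU U ∧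
      fr (x l) ∈ KU U ∧ ∃ X : M2, X.det.natAbs = δ ∧ (∀ i j, |(X i j : ℝ)| ≤ Z) ∧
      ∀ p ∈ β.filter fun p => ¬ p ∣ δ, ∀ v ∈ Ker p (AA E b (fr (x k))),
        X *ᵥ v ∈ Ker p (AA E b (fr (x l)))) ≤
      (K + 1) * Λ ^ A * Z ^ 2 * (2 * Z ^ 2) ^ 5 / (∏ p ∈ β, p : ℕ) := by
    intro δ hδ
    obtain ⟨d0, d1⟩ := Finset.mem_Icc.1 hδ
    have d2 : (δ : ℝ) ≤ 2 * Z ^ 2 := (Nat.le_floor_iff (by positivity)).1 d1
    have d3 : (1 : ℝ) ≤ δ := Nat.one_le_cast.2 d0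
    have e := Finset.prod_filter_mul_prod_filter_not β (fun p => p ∣ δ) fun p => p
    have a1 : ∏ p ∈ β.filter fun p => p ∣ δ, p ≤ δ :=
      Nat.le_of_dvd d0 (Finset.prod_primes_dvd δ
        (fun p h => (hp p (Finset.mem_filter.1 h).1).1.prime) fun p h => (Finset.mem_filter.1 h).2)
    have a0 : 0 < ∏ p ∈ β.filter fun p => p ∣ δ, p :=
      Finset.prod_pos fun p h => (hp p (Finset.mem_filter.1 h).1).1.pos
    have a2 : 0 < ∏ p ∈ β.filter fun p => ¬ p ∣ δ, p :=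
      Finset.prod_pos fun p h => (hp p (Finset.mem_filter.1 h).1).1.pos
    have a3 : ((∏ p ∈ β, p : ℕ) : ℝ) ≤ δ * (∏ p ∈ β.filter fun p => ¬ p ∣ δ, p : ℕ) := by
      rw [← e]
      exact_mod_cast Nat.mul_le_mul_right _ a1
    have a4 : (0 : ℝ) < (∏ p ∈ β.filter fun p => ¬ p ∣ δ, p : ℕ) := Nat.cast_pos.2 a2
    have L1 : 1 ≤ Λ ^ A := one_le_pow₀ hΛ
    refine le_trans (b := (K + 1) * Λ ^ A * Z ^ 2 * (δ : ℝ) ^ 4 /
      (∏ p ∈ β.filter fun p => ¬ p ∣ δ, p : ℕ)) ?_ ?_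
    · rcases (β.filter fun p => ¬ p ∣ δ).eq_empty_or_nonempty with h0 | h0
      · refine (pb_le_one _ _).trans ?_
        rw [h0, Finset.prod_empty, Nat.cast_one, div_one]
        exact one_le_mul_of_one_le_of_one_le (one_le_mul_of_one_le_of_one_le
          (one_le_mul_of_one_le_of_one_le (by linarith) L1) (one_le_pow₀ hZ)) (one_le_pow₀ d3)
      · refine (h1 n τ D hτ k l E b _ δ R Z Λ hL fk fl h0 (fun p h => ?_)
          ((Finset.sum_le_sum_of_subset_of_nonneg (Finset.filter_subset _ _)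
            fun p _ _ => by positivity).trans hs) hZ d0 (Nat.cast_le.1 (d2.trans R2)) R1
          ((Nat.pow_le_pow_left ((Nat.le_mul_of_pos_left _ a0).trans e.le) _).trans hq)
          bk bl hΛ lk ll hI).trans (by gcongr; linarith)
        obtain ⟨v0, v1⟩ := Finset.mem_filter.1 h
        obtain ⟨v2, v3, v4⟩ := hp p v0
        exact ⟨v2, fun e => ((Nat.prime_iff_prime_int.1 v2).dvd_or_dvd e).elim v3
          fun e => v1 (Int.natCast_dvd_natCast.1 e), v4⟩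
    · rw [div_le_div_iff₀ a4 q0]
      calc _ ≤ (K + 1) * Λ ^ A * Z ^ 2 * (δ : ℝ) ^ 4 *
            (δ * (∏ p ∈ β.filter fun p => ¬ p ∣ δ, p : ℕ)) := by gcongr
        _ = (K + 1) * Λ ^ A * Z ^ 2 * (δ : ℝ) ^ 5 *
            (∏ p ∈ β.filter fun p => ¬ p ∣ δ, p : ℕ) := by ring
        _ ≤ _ := by gcongr
  refine le_trans (pb_mono fun x hx hx' => ?_) ((pb_exists _ _ _).trans
    ((Finset.sum_le_card_nsmul _ _ _ key).trans ?_))
  · obtain ⟨u1, u2, X, X0, hX, hK⟩ := hx'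
    refine ⟨_, Finset.mem_Icc.2 ⟨Int.natAbs_pos.2 X0, Nat.le_floor ?_⟩, u1, u2, X, rfl, hX,
      fun p h => hK p (Finset.mem_filter.1 h).1⟩
    have Z1 : 0 ≤ Z := by linarith
    have t1 := mul_le_mul (hX 0 0) (hX 1 1) (abs_nonneg _) Z1
    have t2 := mul_le_mul (hX 0 1) (hX 1 0) (abs_nonneg _) Z1
    rw [Nat.cast_natAbs, Matrix.det_fin_two]
    push_cast
    refine (abs_sub _ _).trans ?_
    rw [abs_mul, abs_mul]
    linarith
  · rw [nsmul_eq_mul, Nat.card_Icc, Nat.add_sub_cancel]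
    refine (mul_le_mul_of_nonneg_right (Nat.floor_le (by positivity)) (by positivity)).trans
      (le_of_eq ?_)
    ring

end Pool.Agent.EQ
end
end

-- part Pool.Agent.P.MP_ad7a55_nt.XKg
section

/-! Hecke points from a given point: an upper bound for averages. -/

set_option autoImplicit false

noncomputable section

open MeasureTheory Topology Filter UpperHalfPlane
open scoped MatrixGroups BoundedContinuousFunction Matrix Classical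

namespace Pool.Agent.EQ

theorem xkg_ball {w : ℍ} (hw : w ∈ ModularGroup.fd) {r : ℝ} (hr : 0 < r) :
    0 < (ProbabilityTheory.cond (volume : Measure ℍ) ModularGroup.fd).real (Metric.ball w r) := by
  have := vmh_prob
  refine ENNReal.toReal_pos ?_ (measure_ne_top _ _)
  rw [ProbabilityTheory.cond_apply' Metric.isOpen_ball.measurableSet]
  refine mul_ne_zero (ENNReal.inv_ne_zero.2 jbas_volume_fd_lt_top.ne) (ne_of_gt ?_)
  have hne : (Metric.ball w r ∩ ModularGroup.fdo).Nonempty := by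
    rw [ModularGroup.fd_eq_closure_fdo] at hw
    exact mem_closure_iff.1 hw _ Metric.isOpen_ball (Metric.mem_ball_self hr)
  refine (jbas_vol_pos (Metric.isOpen_ball.inter ModularGroup.isOpen_fdo) hne).trans_le
    (measure_mono ?_)
  exact fun z hz => ⟨ModularGroup.fdo_subset_fd hz.2, hz.1⟩

theorem xkg_low {α : Type} (R : Finset α) (m : α → ℝ) (h : ∀ w ∈ R, 0 < m w) :
    ∃ c : ℝ, 0 < c ∧ ∀ w ∈ R, c ≤ m w := by
  rcases R.eq_empty_or_nonempty with rfl | hR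
  · exact ⟨1, one_pos, fun w hw => absurd hw (Finset.notMem_empty w)⟩
  · obtain ⟨w, hw, hm⟩ := R.exists_min_image m hR
    exact ⟨m w, h w hw, hm⟩

theorem xkg_dist (γ : SL(2, ℤ)) (z w : ℍ) : dist (γ • z) (γ • w) = dist z w := by
  rw [← act_SL, ← act_SL, dist_act (vact_SL_det γ)]

theorem xkg_int (γ : SL(2, ℤ)) (φ : ℍ →ᵇ ℝ) : Integrable (fun τ => φ (γ • τ))
    (ProbabilityTheory.cond (volume : Measure ℍ) ModularGroup.fd) := by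
  have := vmh_prob
  exact (φ.compContinuous ⟨_, vmh_cont γ⟩).integrable _

theorem bad_classes (Y : ℝ) {ω : ℝ → ℝ} (hω : ∀ ε, 0 < ε → 0 < ω ε) {ε : ℝ} (hε : 0 < ε) :
    ∃ C : ℝ, 0 < C ∧ ∀ (M : ℕ) (g : ℍ →ᵇ ℝ), 0 < M → GInv M g → EqC ω g →
      ({c : vcjQ M | ∃ w ∈ KU Y, ε < |g (c.out⁻¹ • w)|}.ncard : ℝ) ≤
        C * IN M (g * g) * (CongruenceSubgroup.Gamma M).index := by
  have hprob := vmh_prob
  have hr : 0 < ω (ε / 2) / 2 := half_pos (hω _ (half_pos hε))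
  obtain ⟨R, cl, hR, hcl, -⟩ := exists_net Y hr
  obtain ⟨c0, hc0, hlow⟩ := xkg_low R
    (fun w => (ProbabilityTheory.cond (volume : Measure ℍ) ModularGroup.fd).real
      (Metric.ball w (ω (ε / 2) / 2))) fun w hw => xkg_ball (hR w hw).1 hr
  refine ⟨4 / (ε ^ 2 * c0), by positivity, fun M g hM hg he => ?_⟩
  have : NeZero M := ⟨hM.ne'⟩
  have hfin := vcj_fin hM
  have := Fintype.ofFinite (vcjQ M)
  have hidx : (0 : ℝ) < (CongruenceSubgroup.Gamma M).index := by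
    exact_mod_cast Nat.pos_of_ne_zero Subgroup.FiniteIndex.index_ne_zero
  have h0 : ∀ (c : vcjQ M) (τ : ℍ), 0 ≤ (g * g) (c.out⁻¹ • τ) := fun c τ => mul_self_nonneg _
  have hbad : ∀ c : vcjQ M, (∃ w ∈ KU Y, ε < |g (c.out⁻¹ • w)|) → ε ^ 2 / 4 * c0 ≤
      ∫ τ, (g * g) (c.out⁻¹ • τ) ∂ProbabilityTheory.cond volume ModularGroup.fd := by
    rintro c ⟨w, hw, hlt⟩
    obtain ⟨h1, h2⟩ := hcl w hw
    refine le_trans ?_ (mul_meas_ge_le_integral_of_nonneg (Eventually.of_forall (h0 c))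
      (xkg_int _ _) (ε ^ 2 / 4))
    refine mul_le_mul_of_nonneg_left ((hlow _ h1).trans (measureReal_mono fun τ hτ => ?_))
      (by positivity)
    have h3 : dist τ w ≤ ω (ε / 2) := by
      have h4 := dist_triangle τ (cl w) w
      have h5 := Metric.mem_ball.1 hτ
      rw [dist_comm (cl w) w] at h4
      linarith
    have h6 := he (ε / 2) (half_pos hε) (c.out⁻¹ • τ) (c.out⁻¹ • w) (by rw [xkg_dist]; exact h3)
    have h7 : ε / 2 ≤ |g (c.out⁻¹ • τ)| := by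
      have h8 := abs_sub_abs_le_abs_sub (g (c.out⁻¹ • w)) (g (c.out⁻¹ • τ))
      rw [abs_sub_comm] at h8
      linarith
    have h9 := mul_self_le_mul_self (half_pos hε).le h7
    rw [abs_mul_abs_self] at h9
    change ε ^ 2 / 4 ≤ g (c.out⁻¹ • τ) * g (c.out⁻¹ • τ)
    linarith
  have hsum : (({c : vcjQ M | ∃ w ∈ KU Y, ε < |g (c.out⁻¹ • w)|}.ncard : ℝ)) * (ε ^ 2 / 4 * c0) ≤
      ∑ c : vcjQ M,
        ∫ τ, (g * g) (c.out⁻¹ • τ) ∂ProbabilityTheory.cond volume ModularGroup.fd := by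
    rw [Set.ncard_eq_toFinset_card', ← nsmul_eq_mul]
    refine (Finset.card_nsmul_le_sum _ _ _ fun c hc => hbad c (by
      rw [Set.mem_toFinset] at hc
      exact hc)).trans ?_
    exact Finset.sum_le_sum_of_subset_of_nonneg (Finset.subset_univ _)
      fun c _ _ => integral_nonneg (h0 c)
  have hI : IN M (g * g) * (CongruenceSubgroup.Gamma M).index = ∑ c : vcjQ M,
      ∫ τ, (g * g) (c.out⁻¹ • τ) ∂ProbabilityTheory.cond volume ModularGroup.fd := by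
    rw [IN, integral_mH, finsum_eq_sum_of_fintype, mul_comm, ← mul_assoc,
      mul_inv_cancel₀ hidx.ne', one_mul]
  rw [mul_assoc, hI, div_mul_eq_mul_div, le_div_iff₀ (by positivity)]
  linarith

theorem xkg_gamma {M : ℕ} {δ : SL(2, ℤ)} (h : δ ∈ CongruenceSubgroup.Gamma M) :
    Cg M (δ : M2) 1 := by
  rw [CongruenceSubgroup.Gamma_mem] at h
  obtain ⟨h1, h2, h3, h4⟩ := h
  intro i j
  rw [← ZMod.intCast_zmod_eq_zero_iff_dvd]
  fin_cases i <;> fin_cases j <;> simp [h1, h2, h3, h4]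

theorem xkg_cong {M : ℕ} {s : ℤ} {ρ : M2} (h : Cg M ρ s) (γ : SL(2, ℤ)) {δ : SL(2, ℤ)}
    (hδ : δ ∈ CongruenceSubgroup.Gamma M) (i j : Fin 2) :
    (M : ℤ) ∣ ((γ : M2) * ρ) i j - (s • ((γ * δ : SL(2, ℤ)) : M2)) i j := by
  obtain ⟨Y, rfl⟩ := xla_cg.1 h
  obtain ⟨Z, hZ⟩ := xla_cg.1 (xkg_gamma hδ)
  have e : (γ : M2) * (s • (1 : M2) + (M : ℤ) • Y) - s • ((γ * δ : SL(2, ℤ)) : M2) =
      (M : ℤ) • ((γ : M2) * Y - s • ((γ : M2) * Z)) := by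
    rw [Matrix.SpecialLinearGroup.coe_mul, hZ]
    simp only [mul_add, mul_smul_comm, mul_one, one_smul]
    module
  exact xla_ex.2 ⟨_, e⟩ i j

theorem he_point (U : ℝ) {ω : ℝ → ℝ} (hω : ∀ ε, 0 < ε → 0 < ω ε) {ε : ℝ} (hε : 0 < ε) :
    ∃ (ε' : ℝ) (a l₀ : ℕ), 0 < ε' ∧ ∀ (M : ℕ) (g : ℍ →ᵇ ℝ), 0 < M → GInv M g → (∀ z, |g z| ≤ 1) →
      EqC ω g → IN M (g * g) ≤ ε' → ∀ (l k : ℕ) (s : ℤ), l.Prime → l₀ * k ≤ l → 0 < k →
      ¬ l ∣ M → M ^ a ≤ l ^ k → IsCoprime s M → ∀ τ ∈ KU U, ∀ ρ : Set V2 → M2,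
      (∀ L ∈ Xn (l ^ k), (ρ L).det = (l ^ k : ℕ) ∧ Ker (l ^ k) (ρ L) = L ∧ Cg M (ρ L) s) →
      |mn (Xn (l ^ k)) fun L => g (act (ρ L) τ)| ≤ ε := by
  obtain ⟨U1, hU1, hU1'⟩ : ∃ U1 : ℝ, U ≤ U1 ∧ 1 ≤ U1 := ⟨max U 1, le_max_left _ _, le_max_right _ _⟩
  obtain ⟨Y, hY, hYe⟩ : ∃ Y : ℝ, 0 < Y ∧ Y = 384 * U1 / ε := ⟨_, by positivity, rfl⟩
  obtain ⟨W, hW1, hW2⟩ : ∃ W : ℝ, U1 ≤ W ∧ Y ≤ W := ⟨max U1 Y, le_max_left _ _, le_max_right _ _⟩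
  have hW : 1 ≤ W := hU1'.trans hW1
  obtain ⟨C, a, hC, hcls⟩ := cls_total (H := 4 * W ^ 2) (by nlinarith)
  obtain ⟨C', hC', hbad⟩ := bad_classes Y hω (ε := ε / 4) (by positivity)
  refine ⟨ε / (4 * C * C'), a, ⌈4 * C / ε⌉₊, by positivity,
    fun M g hM hg hg1 he hI l k s hl hlk hk hlM hMa hs τ hτ ρ hρ => ?_⟩
  have hfin := vcj_fin hM
  have := Fintype.ofFinite (vcjQ M)
  have hn : 0 < l ^ k := pow_pos hl.pos k
  have hn' : (0 : ℝ) < (l ^ k : ℕ) := by exact_mod_cast hn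
  have hX : ((l ^ k : ℕ) : ℝ) ≤ (Xn (l ^ k)).card := by exact_mod_cast (card_Xn hl hk).1
  choose γ hγ using fun L : Set V2 => ModularGroup.exists_smul_mem_fd (act (ρ L) τ)
  have hdρ : ∀ L ∈ Xn (l ^ k), 0 < (ρ L).det := fun L hL => by
    rw [(hρ L hL).1]; exact_mod_cast hn
  have hdη : ∀ L ∈ Xn (l ^ k), ((γ L : M2) * ρ L).det = (l ^ k : ℕ) := fun L hL => by
    rw [Matrix.det_mul, (γ L).det_coe, one_mul, (hρ L hL).1]
  have hkη : ∀ L ∈ Xn (l ^ k), Ker (l ^ k) ((γ L : M2) * ρ L) = L := fun L hL => by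
    rw [Ker_SL, (hρ L hL).2.1]
  have haη : ∀ L ∈ Xn (l ^ k), act ((γ L : M2) * ρ L) τ = γ L • act (ρ L) τ := fun L hL => by
    rw [act_mul (vact_SL_det _) (hdρ L hL), act_SL]
  have hA := cusp_count hY hτ hl hk
  obtain ⟨A, hAe⟩ : ∃ A, A = (Xn (l ^ k)).filter fun L => ∃ η : M2, η.det = (l ^ k : ℕ) ∧
      Ker (l ^ k) η = L ∧ Y ≤ (act η τ).im := ⟨_, rfl⟩
  rw [← hAe] at hA
  have hA' : (A.card : ℝ) ≤ ε / 4 * (l ^ k : ℕ) := by
    refine hA.trans ?_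
    rw [div_le_iff₀ hY, hYe]
    have e : ε / 4 * ((l ^ k : ℕ) : ℝ) * (384 * U1 / ε) = 96 * U1 * (l ^ k : ℕ) := by
      field_simp
      ring
    rw [e]
    exact mul_le_mul_of_nonneg_right (by linarith) hn'.le
  obtain ⟨B, hBe⟩ : ∃ B, B = (Xn (l ^ k)).filter fun L =>
      γ L • act (ρ L) τ ∈ KU Y ∧ ε / 4 < |g (act (ρ L) τ)| := ⟨_, rfl⟩
  have hBm : ∀ L ∈ B, L ∈ Xn (l ^ k) ∧ γ L • act (ρ L) τ ∈ KU Y ∧ ε / 4 < |g (act (ρ L) τ)| :=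
    fun L hL => by
      rw [hBe] at hL
      exact Finset.mem_filter.1 hL
  have hS := hbad M g hM hg he
  obtain ⟨S, hSe⟩ : ∃ S, S = {c : vcjQ M | ∃ w ∈ KU Y, ε / 4 < |g (c.out⁻¹ • w)|} := ⟨_, rfl⟩
  rw [← hSe] at hS
  have hB : (B.card : ℝ) ≤ ε / 2 * (l ^ k : ℕ) := by
    have h1 := hcls l k M (S.toFinset.image fun c => s • (c.out : M2))
      (B.image fun L => (γ L : M2) * ρ L) hl hM hlM hMa (fun η hη => by
        obtain ⟨L, hL, rfl⟩ := Finset.mem_image.1 hη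
        obtain ⟨h1, h2, h3⟩ := hBm L hL
        refine ⟨hdη L h1, ht_le_KU hW hn (hdη L h1) ⟨hτ.1, hτ.2.trans (hU1.trans hW1)⟩ ?_, ?_⟩
        · rw [haη L h1]
          exact ⟨h2.1, h2.2.trans hW2⟩
        · obtain ⟨δ, e⟩ := QuotientGroup.mk_out_eq_mul (CongruenceSubgroup.Gamma M) (γ L)
          refine ⟨_, Finset.mem_image.2 ⟨(QuotientGroup.mk (γ L) : vcjQ M), ?_, rfl⟩, ?_⟩
          · rw [Set.mem_toFinset, hSe]
            refine ⟨_, h2, ?_⟩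
            rw [e, mul_inv_rev, mul_smul, inv_smul_smul, hg _ (inv_mem δ.2)]
            exact h3
          · rw [e]
            exact xkg_cong (hρ L h1).2.2 (γ L) δ.2)
    rw [Finset.card_image_of_injOn (fun L hL L' hL' e => by
      rw [← hkη L (hBm L hL).1, ← hkη L' (hBm L' hL').1]
      exact congrArg (Ker (l ^ k)) e)] at h1
    have hM' : (0 : ℝ) < (M : ℝ) ^ 3 := by positivity
    have h2 : ((S.toFinset.image fun c => s • (c.out : M2)).card : ℝ) ≤ ε / (4 * C) * (M : ℝ) ^ 3 := by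
      have h3 : ((S.toFinset.image fun c => s • (c.out : M2)).card : ℝ) ≤ S.ncard := by
        rw [Set.ncard_eq_toFinset_card']
        exact_mod_cast Finset.card_image_le
      have h4 : ((CongruenceSubgroup.Gamma M).index : ℝ) ≤ (M : ℝ) ^ 3 := by
        exact_mod_cast index_Gamma_le hM
      have h5 : C' * IN M (g * g) ≤ ε / (4 * C) := by
        refine (mul_le_mul_of_nonneg_left hI hC'.le).trans (le_of_eq ?_)
        field_simp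
      refine h3.trans (hS.trans ((mul_le_mul_of_nonneg_right h5 (Nat.cast_nonneg _)).trans ?_))
      exact mul_le_mul_of_nonneg_left h4 (by positivity)
    have h6 : (k : ℝ) / l ≤ ε / (4 * C) := by
      have hl' : (0 : ℝ) < l := by exact_mod_cast hl.pos
      have h7 : ((⌈4 * C / ε⌉₊ : ℕ) : ℝ) * k ≤ l := by exact_mod_cast hlk
      have h8 : 4 * C / ε * k ≤ l :=
        (mul_le_mul_of_nonneg_right (Nat.le_ceil _) (Nat.cast_nonneg k)).trans h7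
      rw [div_mul_eq_mul_div, div_le_iff₀ hε] at h8
      rw [div_le_div_iff₀ hl' (by positivity)]
      linarith
    have h9 := (div_le_iff₀ hM').2 h2
    refine h1.trans ((mul_le_mul_of_nonneg_left (add_le_add h9 h6) (by positivity)).trans
      (le_of_eq ?_))
    field_simp
    ring
  have hpt : ∀ L ∈ Xn (l ^ k), |g (act (ρ L) τ)| ≤
      ε / 4 + ((if L ∈ A then 1 else 0) + if L ∈ B then 1 else 0) := fun L hL => by
    have h1 := hg1 (act (ρ L) τ)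
    by_cases hLA : L ∈ A
    · rw [if_pos hLA]
      split_ifs <;> linarith
    · by_cases hLB : L ∈ B
      · rw [if_neg hLA, if_pos hLB]
        linarith
      · rw [if_neg hLA, if_neg hLB, add_zero, add_zero]
        by_contra hc
        refine hLB ?_
        rw [hBe]
        refine Finset.mem_filter.2 ⟨hL, ⟨hγ L, ?_⟩, not_le.1 hc⟩
        by_contra hc'
        refine hLA ?_
        rw [hAe]
        exact Finset.mem_filter.2 ⟨hL, _, hdη L hL, hkη L hL, by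
          rw [haη L hL]; exact (not_le.1 hc').le⟩
  have hcard : ∀ D : Finset (Set V2),
      ∑ L ∈ Xn (l ^ k), (if L ∈ D then (1 : ℝ) else 0) ≤ D.card := fun D => by
    rw [Finset.sum_boole]
    exact_mod_cast Finset.card_le_card fun L hL => (Finset.mem_filter.1 hL).2
  refine (abs_mn_le _ _).trans ?_
  unfold mn
  rw [div_le_iff₀ (hn'.trans_le hX)]
  refine (Finset.sum_le_sum hpt).trans ?_
  rw [Finset.sum_add_distrib, Finset.sum_add_distrib, Finset.sum_const, nsmul_eq_mul]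
  have h1 := hcard A
  have h2 := hcard B
  have h3 := mul_le_mul_of_nonneg_left hX hε.le
  linarith

end Pool.Agent.EQ
end
end

-- part Pool.Agent.P.MP_ad7a55_nt.UMs
section

/-! The induction step when the valuations are bounded. -/

set_option autoImplicit false

noncomputable section

open MeasureTheory Topology Filter UpperHalfPlane
open scoped MatrixGroups ENNReal BoundedContinuousFunction

namespace Pool.Agent.EQ

theorem ums_sq {a b c : ℤ} (hb : b ≠ 0) (h : IsSquare (a * b)) (h' : IsSquare (b * c)) :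
    IsSquare (a * c) := by
  obtain ⟨x, hx⟩ := h
  obtain ⟨y, hy⟩ := h'
  have h1 : b ^ 2 ∣ (x * y) ^ 2 := ⟨a * c, by linear_combination -(y * y) * hx - (a * b) * hy⟩
  obtain ⟨z, hz⟩ := (Int.pow_dvd_pow_iff two_ne_zero).1 h1
  refine ⟨z, mul_left_cancel₀ (pow_ne_zero 2 hb) ?_⟩
  linear_combination (y * y) * hx + (a * b) * hy + (x * y + b * z) * hz

theorem main_step3D {n : ℕ} (F : IntermediateField ℚ ℂ) [FiniteDimensional ℚ F]
    (τ : ℕ → Fin n → ℍ) (D : ℕ → Fin n → ℤ) (hD : ∀ i k, HasDisc (τ i k) (D i k))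
    (hgen : NoIsog τ) (𝒰 : Ultrafilter ℕ) (h𝒰 : (𝒰 : Filter ℕ) ≤ atTop)
    (hinf : ∀ Y : ℝ, ∀ᶠ i in 𝒰, ∀ k, Y ≤ -(D i k : ℝ)) (p q : ℕ) [Fact p.Prime] [Fact q.Prime]
    (hpq : p ≠ q) (h2 : p ≠ 2) (h2' : q ≠ 2) (I : Finset (Fin n)) (j : Fin n) (hj : j ∈ I) {c : ℕ}
    (hc : ∀ᶠ i in 𝒰, ∀ k ∈ I, IsSquare (D i k * D i j) →
      (∃ κ ≤ c, Spl p κ (D i k)) ∧ ∃ κ ≤ c, Spl q κ (D i k)) {L : ℝ}
    (hL : ∀ᶠ i in 𝒰, Low L (D i j)) (f : Fin n → (ℂ →ᵇ ℝ)) : ∃ J ⊆ I, j ∈ J ∧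
      Tendsto (fun i => avg (orbit_finite F (hD i)).toFinset (fun z => ∏ k ∈ I, f k (z k)) -
        (∏ k ∈ J, ∫ z, f k z ∂mY) *
          avg (orbit_finite F (hD i)).toFinset (fun z => ∏ k ∈ I \ J, f k (z k))) 𝒰 (𝓝 0) := by
  classical
  have hneg : ∀ i k, D i k < 0 := fun i k => (hD i k).isD.1
  have hbig : ∀ᶠ i in 𝒰, ∀ k, D i k < -576 := (hinf 577).mono fun i hi k => by
    have : (D i k : ℝ) < -576 := by linarith [hi k]
    exact_mod_cast this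
  set J := I.filter fun k => ∀ᶠ i in 𝒰, IsSquare (D i k * D i j) with hJ
  have hJI : J ⊆ I := Finset.filter_subset _ _
  have hjJ : j ∈ J := Finset.mem_filter.2 ⟨hj, Eventually.of_forall fun i => ⟨_, rfl⟩⟩
  have h1 : ∀ᶠ i in 𝒰, ∀ k ∈ J, IsSquare (D i k * D i j) :=
    (eventually_all_finset J).2 fun k hk => (Finset.mem_filter.1 hk).2
  have h3 : ∀ᶠ i in 𝒰, ∀ k ∈ I \ J, ¬ IsSquare (D i k * D i j) :=
    (eventually_all_finset _).2 fun k hk => Ultrafilter.eventually_not.2 fun h =>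
      (Finset.mem_sdiff.1 hk).2 (Finset.mem_filter.2 ⟨(Finset.mem_sdiff.1 hk).1, h⟩)
  obtain ⟨M, T, T', hM, hT, h4⟩ := exists_fd p q hpq h2 h2' F n c
  choose ρ rp rq x hp hq σ h5 using fun i => h4 (τ i) (D i) j J (hD i) hjJ
  have h6 : ∀ᶠ i in 𝒰, FD p q F (fun k => jInv (τ i k)) (D i) j J M T T' (ρ i) (rp i) (rq i) (x i)
      (hp i) (hq i) (σ i) := by
    filter_upwards [hbig, h1, hc] with i a1 a2 a3
    exact h5 i a1 fun k hk => ⟨a2 k hk, a3 k (hJI hk) (a2 k hk)⟩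
  have h7 := cnt_fd hpq h2 F τ D hD hgen 𝒰 h𝒰 hinf j J (L := L) hT (by
    filter_upwards [h1, hc, hL] with i a2 a3 a4 k hk
    exact ⟨a4.of_sq (hneg i j).ne (a2 k hk) (hneg i k).ne, (a3 k (hJI hk) (a2 k hk)).1⟩) h6
  obtain ⟨B, hB⟩ := (prod_bdd f (I \ J)).2
  have h8 := st3' hpq hM 𝒰 h𝒰 (fun i => (orbit_finite F (hD i)).toFinset) x T T' hp hq (by
    filter_upwards [h6] with i a z hz k
    exact a.mem z ((orbit_finite F (hD i)).mem_toFinset.1 hz) k) h7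
    (fun _ z => ∏ k ∈ I \ J, f k (z k)) (fun _ z => hB z) fun k : J => f k
  refine ⟨J, hJI, hjJ, h8.congr' ?_⟩
  filter_upwards [h6, h3] with i a b
  have hs : ((sqr i).card : ℝ) ≠ 0 := by
    have : (sqr i).Nonempty := ⟨(0, 0), by simp [sqr]⟩
    exact_mod_cast this.card_pos.ne'
  have e1 : ∀ z ∈ (orbit_finite F (hD i)).toFinset, ∀ u, (∏ k ∈ I \ J, f k (z k)) *
      ∏ k : J, f k (j3 p q (iP p q (hp i z k) • yy p q M (hq i z) (x i z) u k)) =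
        ∏ k ∈ I, f k (σ i u (z k)) := by
    intro z hz u
    have hz' := (orbit_finite F (hD i)).mem_toFinset.1 hz
    rw [← Finset.prod_sdiff hJI, ← Finset.prod_coe_sort J]
    congr 1
    · exact Finset.prod_congr rfl fun k hk => by rw [a.out z hz' u k (b k hk)]
    · exact Finset.prod_congr rfl fun k _ => by rw [a.pi z hz' u k]
  have e2 : ∑ z ∈ (orbit_finite F (hD i)).toFinset, (∏ k ∈ I \ J, f k (z k)) *
      avg (sqr i) (fun u => ∏ k : J,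
        f k (j3 p q (iP p q (hp i z k) • yy p q M (hq i z) (x i z) u k))) =
      ∑ z ∈ (orbit_finite F (hD i)).toFinset, ∏ k ∈ I, f k (z k) := by
    have e3 : ∀ z ∈ (orbit_finite F (hD i)).toFinset, (∏ k ∈ I \ J, f k (z k)) *
        avg (sqr i) (fun u => ∏ k : J,
          f k (j3 p q (iP p q (hp i z k) • yy p q M (hq i z) (x i z) u k))) =
        (∑ u ∈ sqr i, ∏ k ∈ I, f k (σ i u (z k))) / (sqr i).card := by
      intro z hz
      rw [avg, ← mul_div_assoc, Finset.mul_sum, Finset.sum_congr rfl fun u _ => e1 z hz u]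
    rw [Finset.sum_congr rfl e3, ← Finset.sum_div, Finset.sum_comm,
      Finset.sum_congr rfl fun u _ => sum_orbit (orbit_finite F (hD i)) (a.fix u)
        fun z => ∏ k ∈ I, f k (z k), Finset.sum_const, nsmul_eq_mul, mul_div_cancel_left₀ _ hs]
  rw [Finset.prod_coe_sort J fun k => ∫ z, f k z ∂mY]
  simp only [mul_sub]
  rw [avg, Finset.sum_sub_distrib, e2, ← Finset.sum_mul, avg, avg]
  ring

theorem main_step3 {n : ℕ} (F : IntermediateField ℚ ℂ) [FiniteDimensional ℚ F]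
    (τ : ℕ → Fin n → ℍ) (D : ℕ → Fin n → ℤ) (hD : ∀ i k, HasDisc (τ i k) (D i k))
    (hgen : NoIsog τ) (𝒰 : Ultrafilter ℕ) (h𝒰 : (𝒰 : Filter ℕ) ≤ atTop)
    (hinf : ∀ Y : ℝ, ∀ᶠ i in 𝒰, ∀ k, Y ≤ -(D i k : ℝ)) (p q : ℕ) [Fact p.Prime] [Fact q.Prime]
    (hpq : p ≠ q) (h2 : p ≠ 2) (h2' : q ≠ 2) (I : Finset (Fin n)) (j₀ : Fin n) (hj : j₀ ∈ I)
    (hc : ∀ᶠ i in 𝒰, (∃ κ, Spl p κ (D i j₀)) ∧ ∃ κ, Spl q κ (D i j₀)) {L : ℝ}
    (hL : ∀ᶠ i in 𝒰, Low L (D i j₀)) (f : Fin n → (ℂ →ᵇ ℝ)) : ∃ J ⊆ I, J.Nonempty ∧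
      Tendsto (fun i => avg (orbit_finite F (hD i)).toFinset (fun z => ∏ k ∈ I, f k (z k)) -
        (∏ k ∈ J, ∫ z, f k z ∂mY) *
          avg (orbit_finite F (hD i)).toFinset (fun z => ∏ k ∈ I \ J, f k (z k))) 𝒰 (𝓝 0) := by
  classical
  have hneg : ∀ i k, D i k < 0 := fun i k => (hD i k).isD.1
  set I' := I.filter fun k => ∀ᶠ i in 𝒰, IsSquare (D i k * D i j₀) with hI'
  have hI : I' ⊆ I := Finset.filter_subset _ _
  have hj' : j₀ ∈ I' := Finset.mem_filter.2 ⟨hj, Eventually.of_forall fun i => ⟨_, rfl⟩⟩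
  have h1 : ∀ᶠ i in 𝒰, ∀ k ∈ I', IsSquare (D i k * D i j₀) :=
    (eventually_all_finset I').2 fun k hk => (Finset.mem_filter.1 hk).2
  have h3 : ∀ᶠ i in 𝒰, ∀ k ∈ I, IsSquare (D i k * D i j₀) → k ∈ I' := by
    refine (eventually_all_finset _).2 fun k hk => ?_
    by_cases h : ∀ᶠ i in 𝒰, IsSquare (D i k * D i j₀)
    · exact Eventually.of_forall fun _ _ => Finset.mem_filter.2 ⟨hk, h⟩
    · exact (Ultrafilter.eventually_not.2 h).mono fun i a b => absurd b a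
  have key : ∀ (l : ℕ) [Fact l.Prime], (∃ J ⊆ I, J.Nonempty ∧
      Tendsto (fun i => avg (orbit_finite F (hD i)).toFinset (fun z => ∏ k ∈ I, f k (z k)) -
        (∏ k ∈ J, ∫ z, f k z ∂mY) *
          avg (orbit_finite F (hD i)).toFinset (fun z => ∏ k ∈ I \ J, f k (z k))) 𝒰 (𝓝 0)) ∨
      ∃ c : ℕ, ∀ᶠ i in 𝒰, ∀ k ∈ I', padicValInt l (D i k) ≤ c := by
    intro l _
    obtain ⟨j, hjI, h4⟩ := ultra_max 𝒰 ⟨j₀, hj'⟩ fun i k => padicValInt l (D i k)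
    by_cases h5 : Tendsto (fun i => padicValInt l (D i j)) 𝒰 atTop
    · obtain ⟨J, a1, a2, a3⟩ := main_step3U F τ D hD hgen 𝒰 h𝒰 hinf l I j (hI hjI) (by
        filter_upwards [h1, h3, h4] with i b1 b2 b3 k hk hs
        exact b3 k (b2 k hk (ums_sq (hneg i j).ne hs (b1 j hjI)))) h5 (L := L) (by
        filter_upwards [h1, hL] with i b1 b2
        exact b2.of_sq (hneg i j₀).ne (b1 j hjI) (hneg i j).ne) f
      exact Or.inl ⟨J, a1, ⟨j, a2⟩, a3⟩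
    · rw [tendsto_atTop] at h5
      push Not at h5
      obtain ⟨c, h5⟩ := h5
      refine Or.inr ⟨c, ?_⟩
      filter_upwards [h4, h5] with i b1 b2 k hk
      exact (b1 k hk).trans b2.le
  rcases key p with h | ⟨c, h4⟩
  · exact h
  rcases key q with h | ⟨c', h5⟩
  · exact h
  obtain ⟨J, a1, a2, a3⟩ := main_step3D F τ D hD hgen 𝒰 h𝒰 hinf p q hpq h2 h2' I j₀ hj
    (c := max c c') (by
    filter_upwards [h3, h4, h5, hc] with i b1 b2 b3 ⟨⟨κ, b4⟩, κ', b5⟩ k hk hs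
    obtain ⟨e, b6⟩ := Spl.of_sq p b4 (hneg i k).ne hs
    obtain ⟨e', b7⟩ := Spl.of_sq q b5 (hneg i k).ne hs
    have c1 := b2 k (b1 k hk hs)
    have c2 := b3 k (b1 k hk hs)
    rw [Spl.val p b6] at c1
    rw [Spl.val q b7] at c2
    exact ⟨⟨e, by omega, b6⟩, e', by omega, b7⟩) hL f
  exact ⟨J, a1, ⟨j₀, a2⟩, a3⟩

end Pool.Agent.EQ
end
end

-- part Pool.Agent.P.MP_ad7a55_nt.VFd
section

/-! Diagonal frames: complements. -/

set_option autoImplicit false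

noncomputable section

open MeasureTheory Topology Filter UpperHalfPlane
open scoped MatrixGroups ENNReal BoundedContinuousFunction

namespace Pool.Agent.EQ

variable {p q : ℕ} [Fact p.Prime] [Fact q.Prime]

theorem exists_fd2 (hpq : p ≠ q) (h2 : p ≠ 2) (h2' : q ≠ 2) (F : IntermediateField ℚ ℂ)
    [FiniteDimensional ℚ F] (n c : ℕ) :
    ∃ (M : ℕ) (T : Finset SL(2, ℚ_[p])) (T' : Finset SL(2, ℚ_[q])), 0 < M ∧
      (∀ h ∈ T, Bd ((p : ℝ) ^ c) (h : Matrix (Fin 2) (Fin 2) ℚ_[p])) ∧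
      ∀ (τ : Fin n → ℍ) (D : Fin n → ℤ) (j : Fin n) (J : Finset (Fin n)),
        (∀ k, HasDisc (τ k) (D k)) → j ∈ J → ∃ ρ rp rq x hp hq, ∃ s s' : ℂ ≃+* ℂ,
          (∀ k, D k < -576) →
          (∀ k ∈ J, IsSquare (D k * D j) ∧ (∃ κ ≤ c, Spl p κ (D k)) ∧ ∃ κ ≤ c, Spl q κ (D k)) →
          FD p q F (fun k => jInv (τ k)) D j J M T T' ρ rp rq x hp hq
            fun u => s ^ u.1 * s' ^ u.2 := by
  classical
  obtain ⟨M, hM, hcm⟩ := cm_pow F n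
  obtain ⟨T, T', hT, hT', hcf⟩ := exists_cf p q hpq h2 h2' c
  refine ⟨M, T, T', hM, hT, fun τ D j J h hj => ?_⟩
  by_cases H : (∀ k, D k < -576) ∧
    ∀ k ∈ J, IsSquare (D k * D j) ∧ (∃ κ ≤ c, Spl p κ (D k)) ∧ ∃ κ ≤ c, Spl q κ (D k)
  swap
  · exact ⟨fun _ => 0, fun _ => 0, fun _ => 0, fun _ _ => ((1 : G3 p q) : X3 p q), fun _ _ => 1,
      fun _ _ => 1, RingEquiv.refl _, RingEquiv.refl _, fun h₁ h₂ => absurd ⟨h₁, h₂⟩ H⟩
  obtain ⟨hD, hJ⟩ := H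
  have hneg : ∀ k, D k < 0 := fun k => by linarith [hD k]
  have h1 : ∀ k, ∃ ρ : ℚ, IsSquare (D k * D j) → 0 < ρ ∧ ρ ^ 2 * D k = D j ∧
      th (D j) = ρ * th (D k) := by
    intro k
    by_cases hk : IsSquare (D k * D j)
    · obtain ⟨ρ, hρ⟩ := exists_ratio (hneg k) (hneg j) hk
      exact ⟨ρ, fun _ => hρ⟩
    · exact ⟨0, fun h' => absurd h' hk⟩
  choose ρ hρ using h1
  have hρj : ρ j = 1 := by
    have hsq : IsSquare (D j * D j) := ⟨D j, rfl⟩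
    have h4 := (hρ j hsq).2.1
    have h5 : (D j : ℚ) ≠ 0 := by exact_mod_cast (hneg j).ne
    have h6 : ρ j ^ 2 = 1 := mul_right_cancel₀ h5 (by rw [h4, one_mul])
    exact (pow_eq_one_iff_of_nonneg (hρ j hsq).1.le two_ne_zero).1 h6
  obtain ⟨κp, -, hκp⟩ := (hJ j hj).2.1
  obtain ⟨κq, -, hκq⟩ := (hJ j hj).2.2
  obtain ⟨r, hr, -⟩ := Spl.sqrt p h2 hκp
  obtain ⟨r', hr', -⟩ := Spl.sqrt q h2' hκq
  have hr0 : r ≠ 0 := by
    rintro rfl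
    have h3 : ((D j : ℤ) : ℚ_[p]) = 0 := by rw [← hr]; simp
    exact (hneg j).ne (by exact_mod_cast h3)
  have hr0' : r' ≠ 0 := by
    rintro rfl
    have h3 : ((D j : ℤ) : ℚ_[q]) = 0 := by rw [← hr']; simp
    exact (hneg j).ne (by exact_mod_cast h3)
  obtain ⟨A, B, hA, hB⟩ := exists_AB p h2 hr0 (2 * c)
  obtain ⟨A', B', hA', hB'⟩ := exists_AB q h2' hr0' (2 * c)
  have hcard : (Finset.univ.image D).card ≤ n := Finset.card_image_le.trans (by simp)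
  have hall : ∀ D' ∈ Finset.univ.image D, D' < -576 ∧ IsD D' := fun D' hD' => by
    obtain ⟨k, -, rfl⟩ := Finset.mem_image.1 hD'
    exact ⟨hD k, (discL_one (h k)).isD⟩
  have hmem : ∀ k, D k ∈ Finset.univ.image D := fun k =>
    Finset.mem_image_of_mem _ (Finset.mem_univ k)
  obtain ⟨s, hs, hs1⟩ := hcm p _ hcard hall (D j) (hmem j) _ (inK_AB p (hneg j) hA)
  obtain ⟨s', hs', hs2⟩ := hcm q _ hcard hall (D j) (hmem j) _ (inK_AB q (hneg j) hA')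
  have h3 : ∀ (z : Fin n → ℂ) (k : J), ∃ (hp : SL(2, ℚ_[p])) (hq : SL(2, ℚ_[q])) (x : X3 p q),
      z ∈ (galOrbit F fun k => jInv (τ k)) → hp ∈ T ∧ hq ∈ T' ∧
        CF p q (D k) (r / ρ k) (r' / ρ k) hp hq x ∧ j3 p q (iP p q hp • x) = z k := by
    intro z k
    by_cases hz : z ∈ (galOrbit F fun k => jInv (τ k))
    · obtain ⟨t, ht, hjt⟩ := orbit_lift h hD hz k
      obtain ⟨hk1, hk2, hk3⟩ := hJ k k.2
      have e1 := umd_sq p (hρ k hk1).1 (hρ k hk1).2.1 hr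
      have e2 := umd_sq q (hρ k hk1).1 (hρ k hk1).2.1 hr'
      obtain ⟨hp, hp1, hq, hq1, x, hx, hx'⟩ := hcf t (D k) _ _ ht e1 e2 (umd_norm p h2 hk2 e1)
        (umd_norm q h2' hk3 e2)
      exact ⟨hp, hq, x, fun _ => ⟨hp1, hq1, hx, hx'.trans hjt⟩⟩
    · exact ⟨1, 1, ((1 : G3 p q) : X3 p q), fun h' => absurd h' hz⟩
  choose hp hq x hx using h3
  have key : ∀ z ∈ (galOrbit F fun k => jInv (τ k)), ∀ (u : ℕ × ℕ) (k : J),
      CF p q (D k) (r / ρ k) (r' / ρ k) (hp z k) (hq z k)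
          (a3 p q (M * u.1) • b3 p q (hq z k) (M * u.2) • x z k) ∧
        j3 p q (iP p q (hp z k) • a3 p q (M * u.1) • b3 p q (hq z k) (M * u.2) • x z k) =
          (s ^ u.1 * s' ^ u.2) (z k) := by
    intro z hz u k
    obtain ⟨m1, m2, m3, m4⟩ := hx z k hz
    obtain ⟨hk1, -, -⟩ := hJ k k.2
    obtain ⟨ρ0, -, ρ2⟩ := hρ k hk1
    have e : ∀ A B : ℚ, ((A : ℂ) + ((B * ρ k : ℚ) : ℂ) * th (D k)) = A + B * th (D j) := by
      intro A B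
      rw [ρ2]
      push_cast
      ring
    rw [← m4]
    refine CF.orbit hpq m3 (hT _ m1) (hT' _ m2) (A := A) (B := B * ρ k) (A' := A')
      (B' := B' * ρ k) ?_ ?_ ?_ ?_ (fun Λ hΛ => ?_) (fun Λ hΛ => ?_) u.1 u.2
    · rw [umd_mul p ρ0]; exact hA
    · rw [umd_mul p ρ0]; exact hB
    · rw [umd_mul q ρ0]; exact hA'
    · rw [umd_mul q ρ0]; exact hB'
    · rw [e]; exact (hs1 _ (hmem k) Λ hΛ).1 hk1
    · rw [e]; exact (hs2 _ (hmem k) Λ hΛ).1 hk1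
  refine ⟨ρ, fun k => r / ρ k, fun k => r' / ρ k, x, hp, hq, s, s',
    fun _ _ => ⟨?_, ?_, ?_, ?_, ?_, ?_⟩⟩
  · intro u a ha
    exact umd_pow2 (hs a ha) (hs' a ha) _ _
  · intro k hk
    obtain ⟨ρ0, ρ1, -⟩ := hρ k (hJ k hk).1
    refine ⟨ρ0, ρ1, ?_⟩
    have h4 : (ρ k : ℚ_[p]) ≠ 0 := by exact_mod_cast ρ0.ne'
    rw [hρj]
    push_cast
    field_simp
  · intro z hz k
    exact ⟨(hx z k hz).1, (hx z k hz).2.1⟩
  · intro z hz u k
    exact (key z hz u k).1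
  · intro z hz u k
    exact (key z hz u k).2
  · intro z hz u k hk
    obtain ⟨t, ht, hjt⟩ := orbit_lift h hD hz k
    rw [← hjt, ← jL_one]
    exact umd_pow2 ((hs1 _ (hmem k) _ (discL_one ht)).2 hk)
      ((hs2 _ (hmem k) _ (discL_one ht)).2 hk) _ _

theorem yy_mul {κ : Type} (M M' : ℕ) (h : κ → SL(2, ℚ_[q])) (x : κ → X3 p q) (u : ℕ × ℕ) :
    yy p q (M * M') h x u = yy p q M h x (M' * u.1, M' * u.2) := by
  simp only [yy, mul_assoc]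

theorem FD.scale {n : ℕ} {F : IntermediateField ℚ ℂ} {x₀ : Fin n → ℂ} {D : Fin n → ℤ} {j : Fin n}
    {J : Finset (Fin n)} {M : ℕ} {T : Finset SL(2, ℚ_[p])} {T' : Finset SL(2, ℚ_[q])}
    {ρ : Fin n → ℚ} {rp : Fin n → ℚ_[p]} {rq : Fin n → ℚ_[q]} {x : (Fin n → ℂ) → J → X3 p q}
    {hp : (Fin n → ℂ) → J → SL(2, ℚ_[p])} {hq : (Fin n → ℂ) → J → SL(2, ℚ_[q])}
    {σ : ℕ × ℕ → ℂ ≃+* ℂ} (h : FD p q F x₀ D j J M T T' ρ rp rq x hp hq σ) (M' : ℕ) :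
    FD p q F x₀ D j J (M * M') T T' ρ rp rq x hp hq fun u => σ (M' * u.1, M' * u.2) := by
  refine ⟨fun u => h.fix _, h.rat, h.mem, fun z hz u k => ?_, fun z hz u k => ?_,
    fun z hz u k hk => h.out z hz _ k hk⟩
  · rw [yy_mul]
    exact h.cf z hz _ k
  · rw [yy_mul]
    exact h.pi z hz _ k

theorem cnt_fd2 (hpq : p ≠ q) (h2 : p ≠ 2) {n : ℕ} (F : IntermediateField ℚ ℂ)
    [FiniteDimensional ℚ F] (τ : ℕ → Fin n → ℍ) (D : ℕ → Fin n → ℤ)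
    (hD : ∀ i k, HasDisc (τ i k) (D i k)) (𝒰 : Ultrafilter ℕ) (j : Fin n) (J : Finset (Fin n))
    (hgen : NoIs 𝒰 τ J) (hbig : ∀ᶠ i in 𝒰, ∀ k, D i k < -576)
    (hinf : ∀ Y : ℝ, ∀ᶠ i in 𝒰, ∀ k ∈ J, Y ≤ -(D i k : ℝ))
    {c M : ℕ} {L : ℝ} {T : Finset SL(2, ℚ_[p])} {T' : Finset SL(2, ℚ_[q])}
    (hT : ∀ h ∈ T, Bd ((p : ℝ) ^ c) (h : Matrix (Fin 2) (Fin 2) ℚ_[p]))
    (hJ : ∀ᶠ i in 𝒰, ∀ k ∈ J, Low L (D i k) ∧ ∃ κ ≤ c, Spl p κ (D i k))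
    {ρ : ℕ → Fin n → ℚ} {rp : ℕ → Fin n → ℚ_[p]} {rq : ℕ → Fin n → ℚ_[q]}
    {x : ℕ → (Fin n → ℂ) → J → X3 p q} {hp : ℕ → (Fin n → ℂ) → J → SL(2, ℚ_[p])}
    {hq : ℕ → (Fin n → ℂ) → J → SL(2, ℚ_[q])} {σ : ℕ → ℕ × ℕ → ℂ ≃+* ℂ}
    (h : ∀ᶠ i in 𝒰, FD p q F (fun k => jInv (τ i k)) (D i) j J M T T' (ρ i) (rp i) (rq i) (x i)
      (hp i) (hq i) (σ i)) :
    Cnt p q 𝒰 (fun i => (orbit_finite F (hD i)).toFinset)
      fun i z => yy p q M (hq i z) (x i z) := by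
  have hb := hbig
  have hcard : ∀ i, ((orbit_finite F (hD i)).toFinset.card : ℝ) =
      (galOrbit F fun k => jInv (τ i k)).ncard := fun i => by
    rw [Set.ncard_eq_toFinset_card _ (orbit_finite F (hD i))]
  refine ⟨fun ε hε => ?_, ?_, fun k l hkl q' hq' δ hδ R ε hε => ?_⟩
  · obtain ⟨t, Y, ht, hs⟩ := frac_sh F L hε
    obtain ⟨Ω, hΩ, hc⟩ := cf_tight hpq T ht
    refine ⟨Ω, hΩ, fun k => ?_⟩
    filter_upwards [h, hJ, hinf Y, hb] with i hi hJi hY hbi u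
    rw [hcard]
    refine le_trans ?_ (hs n (τ i) (D i) (hD i) k (hbi k) (hJi k k.2).1 (hY k k.2))
    rw [← orbit_card _ (hi.fix u) fun w => w k.1 ∈ Sh (D i k) t 1]
    refine Nat.cast_le.2 (Set.ncard_le_ncard (fun z hz => ?_)
      ((orbit_finite F (hD i)).subset fun z hz => hz.1))
    have hz' := (Set.Finite.mem_toFinset _).1 hz.1
    refine ⟨hz', by_contra fun hn => hz.2 (hc _ _ _ _ (hi.mem z hz' k).1 _ _ (hi.cf z hz' u k) ?_)⟩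
    rwa [hi.pi z hz' u k]
  · obtain ⟨K, hK, hs⟩ := bw_set hpq h2 c
    refine ⟨(15 * Module.finrank ℚ F) ^ 2 * K * L ^ 2, fun k m => ?_⟩
    obtain ⟨Y, hs⟩ := hs m
    filter_upwards [h, hJ, hinf Y, hb] with i hi hJi hY hbi u u'
    obtain ⟨hL, κ, hκ, hsp⟩ := hJi k k.2
    obtain ⟨S, hS, hSc, hm⟩ := hs (D i k) κ (rp i k) hκ (hD i k).isD hsp (hY k k.2)
    rw [hcard]
    refine le_trans ?_ (umc_bow (orbit_two F (hD i) k (hbi k) hS) hSc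
      (hL _ (hD i k).isD ⟨_, rfl⟩) (tfc_HH (hD i k).isD) hK.le (beta_pos p _).le)
    rw [← orbit_card2 _ (hi.fix u) (hi.fix u') fun w w' => (w k.1, w' k.1) ∈ S]
    refine Nat.cast_le.2 (Set.ncard_le_ncard (fun z hz => ?_)
      (((orbit_finite F (hD i)).prod (orbit_finite F (hD i))).subset fun z hz => ⟨hz.1, hz.2.1⟩))
    have h1 := (Set.Finite.mem_toFinset _).1 hz.1
    have h2 := (Set.Finite.mem_toFinset _).1 hz.2.1
    refine ⟨h1, h2, ?_⟩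
    have := hm _ _ _ _ _ _ _ _ (hT _ (hi.mem _ h1 k).1) (hT _ (hi.mem _ h2 k).1) (hi.cf _ h1 u k)
      (hi.cf _ h2 u' k) hz.2.2
    rwa [hi.pi _ h1, hi.pi _ h2] at this
  · obtain ⟨N, n', C, hN, hn', hs⟩ := cf_on hpq hq' hδ R c
    obtain ⟨r, N₀, hN₀, hf⟩ := frac_bad3 (p := p) F hn' C L c hε
    obtain ⟨m, hs⟩ := hs r
    have hkl' : (k : Fin n) ≠ l := fun e => hkl (Subtype.ext e)
    refine ⟨m, ?_⟩
    filter_upwards [h, hJ, hb, hgen k k.2 l l.2 hkl' N hN, hgen k k.2 l l.2 hkl' N₀ hN₀]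
      with i hi hJi hbi g1 g2 u
    obtain ⟨hL, κ, hκ, hsp⟩ := hJi k k.2
    obtain ⟨-, κ', hκ', hsp'⟩ := hJi l l.2
    obtain ⟨a1, a2, a3⟩ := hi.rat k k.2
    obtain ⟨b1, b2, b3⟩ := hi.rat l l.2
    rw [hcard]
    refine le_trans ?_ (hf n (τ i) (D i) (hD i) k l _ _ (hbi k) (hbi l) a1 b1 (a2.trans b2.symm)
      (umc_ratio h2 hsp hsp' hκ (a2.trans b2.symm)) (umc_ratio h2 hsp' hsp hκ' (b2.trans a2.symm))
      hL g2)
    rw [← orbit_card _ (hi.fix u) fun w => ∃ M₁ M₂, DiscL M₁ (D i k) ∧ DiscL M₂ (D i l) ∧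
      jL M₁ = w k.1 ∧ jL M₂ = w l.1 ∧ Bad3 p n' C r (D i k) (D i l) M₁ M₂]
    refine Nat.cast_le.2 (Set.ncard_le_ncard (fun z hz => ?_)
      ((orbit_finite F (hD i)).subset fun z hz => hz.1))
    have hz' := (Set.Finite.mem_toFinset _).1 hz.1
    have := hs _ _ _ _ _ _ _ _ _ _ _ _ _ _ (hi.cf z hz' u k) (hi.cf z hz' u l)
      (hT _ (hi.mem z hz' k).1) (hT _ (hi.mem z hz' l).1) a1 b1 (a2.trans b2.symm)
      (a3.trans b3.symm) (umc_norm h2 hsp hκ) hz.2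
    rw [hi.pi z hz', hi.pi z hz'] at this
    refine ⟨hz', this.resolve_left ?_⟩
    obtain ⟨σ', -, rfl⟩ := hz'
    exact g1 (σ'.trans (σ i u))

theorem Cnt.pull {N n : ℕ} (hN : 0 < N) {F : IntermediateField ℚ ℂ} {τ : ℕ → Fin n → ℍ}
    {D : ℕ → Fin n → ℤ} (hD : ∀ i k, HasDisc (τ i k) (D i k)) {κ : Type} [Fintype κ]
    {L : Filter ℕ} {y : ℕ → (Fin n → ℂ) → ℕ × ℕ → κ → X3 p q}
    (h : Cnt p q L (fun i => (orbit_finite F (hD i)).toFinset) y) :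
    Cnt p q L (fun i => ON N F (τ i)) fun i z => y i (pj z) := by
  have hcard : ∀ i, ((orbit_finite F (hD i)).toFinset.card : ℝ) =
      (galOrbit F fun k => jInv (τ i k)).ncard := fun i => by
    rw [Set.ncard_eq_toFinset_card _ (orbit_finite F (hD i))]
  refine ⟨fun ε hε => ?_, ?_, fun k l hkl q' hq' δ hδ R ε hε => ?_⟩
  · obtain ⟨Ω, hΩ, hs⟩ := h.tight ε hε
    refine ⟨Ω, hΩ, fun k => ?_⟩
    filter_upwards [hs k] with i hi u
    have h1 := hi u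
    rw [hcard] at h1
    simp only [Set.Finite.mem_toFinset] at h1
    exact card_pj hN (hD i) (fun w => y i w u k ∉ Ω) h1
  · obtain ⟨C, hs⟩ := h.bow
    refine ⟨C, fun k m => ?_⟩
    filter_upwards [hs k m] with i hi u u'
    have h1 := hi u u'
    rw [hcard] at h1
    simp only [Set.Finite.mem_toFinset] at h1
    exact card_pj2 hN (hD i) (fun w w' => (y i w u k, y i w' u' k) ∈ Op p q m) h1
  · obtain ⟨m, hs⟩ := h.exc k l hkl q' hq' δ hδ R ε hε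
    refine ⟨m, ?_⟩
    filter_upwards [hs] with i hi u
    have h1 := hi u
    rw [hcard] at h1
    simp only [Set.Finite.mem_toFinset] at h1
    exact card_pj hN (hD i)
      (fun w => (pi3 p q (y i w u k), pi3 p q (y i w u l)) ∈ On p q' δ R m) h1

end Pool.Agent.EQ
end
end

-- part Pool.Agent.P.MP_ad7a55_nt.YBc
section

/-! Equal directions with an explicit class number constant. -/

set_option autoImplicit false

noncomputable section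

open MeasureTheory Topology Filter UpperHalfPlane
open scoped MatrixGroups BoundedContinuousFunction Matrix Classical

namespace Pool.Agent.EQ

theorem lin_orb6 (U : ℝ) : ∃ (K Y : ℝ) (A : ℕ), 0 < K ∧ ∀ (L : ℝ) (n : ℕ) (τ : Fin n → ℍ)
    (D : Fin n → ℤ), (∀ k, HasDisc (τ k) (D k)) → ∀ (c : Fin n) (E b : ℤ) (S : Finset ℕ)
    (k : ℕ → ℕ), Y ≤ -(D c : ℝ) → Low L (D c) → Fit E (D c) →
    (∀ l ∈ S, l.Prime ∧ ¬ (l : ℤ) ∣ 2 * E ∧ 0 < k l ∧ (l : ℤ) ^ k l ∣ b ^ 2 - E) →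
    ∑ l ∈ S, (l : ℝ) ^ (-(1 / 4 : ℝ)) ≤ 1 → ((∏ l ∈ S, l ^ k l : ℕ) : ℤ) ^ 400 ≤ -D c →
    (((Orb τ ×ˢ Orb τ).filter fun z => fr (z.1 c) ∈ KU U ∧ fr (z.2 c) ∈ KU U ∧
      ∀ l ∈ S, Ker (l ^ k l) (AA E b (fr (z.1 c))) = Ker (l ^ k l) (AA E b (fr (z.2 c)))).card : ℝ) ≤
      K * (L ^ 2 + 1) * Real.log (-(D c : ℝ)) ^ A / (∏ l ∈ S, l ^ k l : ℕ) *
        ((Orb τ).card : ℝ) ^ 2 := by
  obtain ⟨K, Y, A, hK, H⟩ := levP_le (4 * U ^ 2)
  refine ⟨225 * K, max Y 577, A, by positivity,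
    fun L n τ D hτ c E b S k hY hL hF hS hsum hQ => ?_⟩
  obtain ⟨f, hf, rfl⟩ := hF
  have hD := (hτ c).isD
  have h576 : D c < -576 := by
    have : (577 : ℝ) ≤ -(D c : ℝ) := (le_max_right _ _).trans hY
    have : (577 : ℤ) ≤ -D c := by exact_mod_cast this
    omega
  have hcl : ∀ l ∈ S, IsCoprime (l : ℤ) (2 * (f ^ 2 * D c)) := fun l hl =>
    ((Nat.prime_iff_prime_int.1 (hS l hl).1).irreducible.coprime_iff_not_dvd).2 (hS l hl).2.1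
  have hQ0 : 0 < ∏ l ∈ S, l ^ k l := Finset.prod_pos fun l hl => pow_pos (hS l hl).1.pos _
  have hc : IsCoprime ((∏ l ∈ S, l ^ k l : ℕ) : ℤ) (2 * (f ^ 2 * D c)) := by
    push_cast
    exact IsCoprime.prod_left fun l hl => (hcl l hl).pow_left
  have hcop : ∀ a ∈ S, ∀ a' ∈ S, a ≠ a' → IsCoprime ((a : ℤ) ^ k a) ((a' : ℤ) ^ k a') :=
    fun a ha a' ha' hne => (Nat.isCoprime_iff_coprime.2
      ((Nat.coprime_primes (hS a ha).1 (hS a' ha').1).2 hne)).pow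
  have hb : ((∏ l ∈ S, l ^ k l : ℕ) : ℤ) ∣ b ^ 2 - f ^ 2 * D c := by
    push_cast
    exact Finset.prod_dvd_of_coprime (fun a ha a' ha' hne => hcop a ha a' ha' hne)
      fun l hl => (hS l hl).2.2.2
  have hker : ∀ (η : M2) (v : V2), v ∈ Ker (∏ l ∈ S, l ^ k l) η ↔ ∀ l ∈ S, v ∈ Ker (l ^ k l) η := by
    intro η v
    refine ⟨fun hv l hl => Ker_anti (Finset.dvd_prod_of_mem _ hl) η hv, fun hv i => ?_⟩
    push_cast
    exact Finset.prod_dvd_of_coprime (fun a ha a' ha' hne => hcop a ha a' ha' hne)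
      fun l hl => by exact_mod_cast hv l hl i
  have hJ : ∀ l ∈ S, l.Prime ∧ l ≠ 2 ∧ jacobiSym (D c) l = 1 ∧ 0 < k l := fun l hl => by
    obtain ⟨u1, u2, u3, u4⟩ := hS l hl
    refine ⟨u1, ?_, ?_, u3⟩
    · rintro rfl
      exact u2 (Dvd.intro _ rfl)
    have u5 : (l : ℤ) ∣ b ^ 2 - f ^ 2 * D c := (dvd_pow_self _ u3.ne').trans u4
    have u6 : IsCoprime (l : ℤ) (f ^ 2 * D c) := (hcl l hl).of_mul_right_right
    have u7 : IsCoprime (l : ℤ) (b ^ 2) := by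
      obtain ⟨w, hw⟩ := u5
      rw [show b ^ 2 = f ^ 2 * D c + l * w by linear_combination hw]
      exact u6.add_mul_left_right w
    have e1 : jacobiSym ((f : ℤ) ^ 2 * D c) l = jacobiSym (b ^ 2) l :=
      jacobiSym.mod_left' (Int.modEq_iff_dvd.2 u5)
    rw [jacobiSym.mul_left, jacobiSym.sq_one' (Int.isCoprime_iff_gcd_eq_one.1
      ((IsCoprime.pow_right_iff two_pos).1 u6.of_mul_right_left).symm),
      jacobiSym.sq_one' (Int.isCoprime_iff_gcd_eq_one.1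
      ((IsCoprime.pow_right_iff two_pos).1 u7).symm), one_mul] at e1
    exact e1
  obtain ⟨b₀, h₀, h₁⟩ : ∃ b₀ : ℤ, 2 ∣ b₀ - D c ∧ ((∏ l ∈ S, l ^ k l : ℕ) : ℤ) ∣ f * b₀ + b := by
    generalize ((∏ l ∈ S, l ^ k l : ℕ) : ℤ) = q at hc
    obtain ⟨x, y, e⟩ := hc
    refine ⟨-(y * 2 * f * D c * b) + x * q * D c, ⟨-(y * f * D c * b) - y * f ^ 2 * D c ^ 2, ?_⟩,
      ⟨x * b + f * x * D c, ?_⟩⟩
    · linear_combination D c * e
    · linear_combination -b * e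
  have a1 := H (D c) b₀ S k hD ((le_max_left _ _).trans hY) hJ hsum hQ
  have a2 := orbit_two ⊥ hτ c h576 (LevP_finite (∏ l ∈ S, l ^ k l) b₀ (4 * U ^ 2) (D c))
  rw [IntermediateField.finrank_bot, ← galO_eq, ← card_fO (galO _ _)] at a2
  have a3 := hL _ hD ⟨_, rfl⟩
  have a4 := tfc_HH hD
  have hO := orbit_finite ⊥ hτ
  refine (fun (H : ∀ T : Finset ((Fin n → ℂ) × (Fin n → ℂ)), (∀ z ∈ T,
    (z.1 ∈ Orb τ ∧ z.2 ∈ Orb τ) ∧ fr (z.1 c) ∈ KU U ∧ fr (z.2 c) ∈ KU U ∧ ∀ l ∈ S,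
      Ker (l ^ k l) (AA (f ^ 2 * D c) b (fr (z.1 c))) =
        Ker (l ^ k l) (AA (f ^ 2 * D c) b (fr (z.2 c)))) → (T.card : ℝ) ≤ _) =>
    H _ fun z hz => by simpa only [Finset.mem_filter, Finset.mem_product] using hz) fun T hT => ?_
  have a5 : T.card ≤ {w : (Fin n → ℂ) × (Fin n → ℂ) | w.1 ∈ (galO ⊥ fun k => jInv (τ k)) ∧
      w.2 ∈ (galO ⊥ fun k => jInv (τ k)) ∧
      (w.1 c, w.2 c) ∈ LevP (∏ l ∈ S, l ^ k l) b₀ (4 * U ^ 2) (D c)}.ncard := by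
    rw [← Set.ncard_coe_finset]
    refine Set.ncard_le_ncard (fun z hz => ?_)
      ((hO.prod hO).subset fun z hz => ⟨hz.1, hz.2.1⟩)
    obtain ⟨⟨z1, z2⟩, z3, z4, z5⟩ := hT z hz
    refine ⟨(mem_fO hO).1 z1, (mem_fO hO).1 z2, ?_⟩
    have := lev_of_dir (Orb_disc hτ z1 h576) (Orb_disc hτ z2 h576) hf z3 z4 hQ0 hc hb h₀ h₁
      (Set.ext fun v => by
        rw [hker, hker]
        exact forall₂_congr fun l hl => by rw [z5 l hl])
    rwa [(fr_spec _).2, (fr_spec _).2] at this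
  have a6 : (T.card : ℝ) * (Cl (D c)).ncard ^ 2 ≤ _ :=
    le_trans (mul_le_mul_of_nonneg_right (by exact_mod_cast a5) (by positivity)) a2
  have a7 : HH (D c) ^ 2 ≤ (L ^ 2 + 1) * (Cl (D c)).ncard ^ 2 := by
    have := pow_le_pow_left₀ a4.le a3 2
    rw [mul_pow] at this
    nlinarith [sq_nonneg ((Cl (D c)).ncard : ℝ)]
  refine le_of_mul_le_mul_right ?_ (pow_pos a4 2)
  calc (T.card : ℝ) * HH (D c) ^ 2 ≤ T.card * ((L ^ 2 + 1) * (Cl (D c)).ncard ^ 2) := by gcongr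
    _ = (L ^ 2 + 1) * (T.card * (Cl (D c)).ncard ^ 2) := by ring
    _ ≤ (L ^ 2 + 1) * ((15 * (1 : ℕ)) ^ 2 * (K * Real.log (-(D c : ℝ)) ^ A /
        (∏ l ∈ S, l ^ k l : ℕ) * HH (D c) ^ 2) * ((Orb τ).card : ℝ) ^ 2) := by
        refine mul_le_mul_of_nonneg_left (a6.trans ?_) (by positivity)
        unfold Orb
        gcongr
    _ = _ := by push_cast; ring

theorem ybc_adj {τ : ℍ} {D E : ℤ} (h : HasDisc τ D) (hf : Fit E D) (b : ℤ) :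
    (AA E b τ).adjugate = -(AA E (-b) τ) := by
  have h2 := (AA_det h hf 0).2
  rw [AA, Matrix.trace_fin_two] at h2
  simp only [zero_smul, add_zero, mul_zero] at h2
  rw [Matrix.adjugate_fin_two]
  ext i j
  fin_cases i <;> fin_cases j <;> simp [AA, Matrix.intCast_apply] <;> linarith

theorem ybc_neg (l : ℕ) (η : M2) : Ker l (-η) = Ker l η := by
  ext v
  simp only [Ker, Set.mem_ofPred_eq, Matrix.neg_mulVec, Pi.neg_apply, dvd_neg]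

theorem ybc_mod {l : ℕ} {E b b' : ℤ} (τ : ℍ) (h : (l : ℤ) ∣ b' - b) :
    Ker l (AA E b' τ) = Ker l (AA E b τ) := by
  ext v
  have e : ∀ i, (AA E b' τ *ᵥ v) i = (AA E b τ *ᵥ v) i + (b' - b) * v i := fun i => by
    simp only [AA, Matrix.add_mulVec, Matrix.smul_mulVec, Matrix.one_mulVec, Pi.add_apply,
      Pi.smul_apply, smul_eq_mul]
    ring
  simp only [Ker, Set.mem_ofPred_eq, e]
  exact forall_congr' fun i => dvd_add_left (h.mul_right _)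

theorem lin_mix (U : ℝ) : ∃ (K Y : ℝ) (A : ℕ), 0 < K ∧ ∀ (L : ℝ) (n : ℕ) (τ : Fin n → ℍ)
    (D : Fin n → ℤ), (∀ k, HasDisc (τ k) (D k)) → ∀ (c : Fin n) (E b : ℤ) (β β' : Finset ℕ),
    Y ≤ -(D c : ℝ) → Low L (D c) → Fit E (D c) → Disjoint β β' →
    (∀ l ∈ β ∪ β', l.Prime ∧ ¬ (l : ℤ) ∣ 2 * E ∧ (l : ℤ) ∣ b ^ 2 - E) →
    ∑ l ∈ β ∪ β', (l : ℝ) ^ (-(1 / 4 : ℝ)) ≤ 1 → ((∏ l ∈ β ∪ β', l : ℕ) : ℤ) ^ 400 ≤ -D c →
    (((Orb τ ×ˢ Orb τ).filter fun z => fr (z.1 c) ∈ KU U ∧ fr (z.2 c) ∈ KU U ∧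
      (∀ l ∈ β, Ker l (AA E b (fr (z.1 c))).adjugate = Ker l (AA E b (fr (z.2 c))).adjugate) ∧
      ∀ l ∈ β', Ker l (AA E b (fr (z.1 c))) = Ker l (AA E b (fr (z.2 c)))).card : ℝ) ≤
      K * (L ^ 2 + 1) * Real.log (-(D c : ℝ)) ^ A / ((∏ l ∈ β, l : ℕ) * (∏ l ∈ β', l : ℕ)) *
        ((Orb τ).card : ℝ) ^ 2 := by
  obtain ⟨K, Y, A, hK, H⟩ := lin_orb6 U
  refine ⟨K, max Y 577, A, hK, fun L n τ D hτ c E b β β' hY hL hF hd hS hsum hQ => ?_⟩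
  have h576 : D c < -576 := by
    have : (577 : ℝ) ≤ -(D c : ℝ) := (le_max_right _ _).trans hY
    have : (577 : ℤ) ≤ -D c := by exact_mod_cast this
    omega
  have hcop : IsCoprime (∏ l ∈ β, (l : ℤ)) (∏ l ∈ β', (l : ℤ)) :=
    IsCoprime.prod_left fun a ha => IsCoprime.prod_right fun a' ha' =>
      Nat.isCoprime_iff_coprime.2 ((Nat.coprime_primes (hS a (Finset.mem_union_left _ ha)).1
        (hS a' (Finset.mem_union_right _ ha')).1).2 fun e =>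
          Finset.disjoint_left.1 hd ha (e ▸ ha'))
  obtain ⟨b', h1, h2⟩ : ∃ b' : ℤ, (∀ l ∈ β, (l : ℤ) ∣ b' - -b) ∧ ∀ l ∈ β', (l : ℤ) ∣ b' - b := by
    obtain ⟨x, y, e⟩ := hcop
    refine ⟨b * x * (∏ l ∈ β, (l : ℤ)) - b * y * ∏ l ∈ β', (l : ℤ), fun l hl => ?_, fun l hl => ?_⟩
    · refine (Finset.dvd_prod_of_mem (fun l : ℕ => (l : ℤ)) hl).trans ⟨2 * b * x, ?_⟩
      linear_combination -b * e
    · refine (Finset.dvd_prod_of_mem (fun l : ℕ => (l : ℤ)) hl).trans ⟨-2 * b * y, ?_⟩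
      linear_combination b * e
  have a1 := H L n τ D hτ c E b' (β ∪ β') (fun _ => 1) ((le_max_left _ _).trans hY) hL hF
    (fun l hl => by
      obtain ⟨u1, u2, u3⟩ := hS l hl
      refine ⟨u1, u2, one_pos, ?_⟩
      rw [pow_one]
      rcases Finset.mem_union.1 hl with hl | hl
      · have := dvd_add u3 ((h1 l hl).mul_right (b' - b))
        rwa [show b ^ 2 - E + (b' - -b) * (b' - b) = b' ^ 2 - E by ring] at this
      · have := dvd_add u3 ((h2 l hl).mul_right (b' + b))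
        rwa [show b ^ 2 - E + (b' - b) * (b' + b) = b' ^ 2 - E by ring] at this)
    hsum (by simpa only [pow_one] using hQ)
  simp only [pow_one] at a1
  rw [Finset.prod_union hd, Nat.cast_mul] at a1
  refine le_trans ?_ a1
  rw [Nat.cast_le]
  refine Finset.card_le_card fun z hz => ?_
  simp only [Finset.mem_filter, Finset.mem_product] at hz ⊢
  obtain ⟨⟨z1, z2⟩, z3, z4, z5, z6⟩ := hz
  refine ⟨⟨z1, z2⟩, z3, z4, fun l hl => ?_⟩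
  rcases Finset.mem_union.1 hl with hl | hl
  · have := z5 l hl
    rw [ybc_adj (Orb_disc hτ z1 h576) hF, ybc_adj (Orb_disc hτ z2 h576) hF, ybc_neg,
      ybc_neg] at this
    rw [ybc_mod _ (h1 l hl), ybc_mod _ (h1 l hl), this]
  · rw [ybc_mod _ (h2 l hl), ybc_mod _ (h2 l hl), z6 l hl]

theorem AA_line_adj {τ : ℍ} {D E b : ℤ} {l : ℕ} (h : HasDisc τ D) (hf : Fit E D) (hl : 0 < l)
    (hc : IsCoprime (l : ℤ) (2 * E)) (hb : (l : ℤ) ∣ b ^ 2 - E) :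
    IsLn l (Ker l (AA E b τ).adjugate) := by
  rw [ybc_adj h hf, ybc_neg]
  exact AA_line h hf hl hc (by rwa [neg_sq])

/-- Little mass in the cusp for the discriminant `D`. -/
def Tg (Uf Yf : ℝ → ℝ) (D : ℤ) : Prop :=
  ∀ δ : ℝ, 0 < δ → Yf δ ≤ -(D : ℝ) → ∀ (n : ℕ) (τ : Fin n → ℍ) (D' : Fin n → ℤ),
    (∀ k, HasDisc (τ k) (D' k)) → ∀ c : Fin n, D' c = D →
      prb (Orb τ) (fun x => fr (x c) ∉ KU (Uf δ)) ≤ δ

theorem Tg.mono {Uf Yf Uf' Yf' : ℝ → ℝ} {D : ℤ} (h : Tg Uf Yf D) (hU : ∀ δ, Uf δ ≤ Uf' δ)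
    (hY : ∀ δ, Yf δ ≤ Yf' δ) : Tg Uf' Yf' D := by
  intro δ hδ hD n τ D' hτ c hc
  refine le_trans ?_ (h δ hδ ((hY δ).trans hD) n τ D' hτ c hc)
  unfold prb
  refine div_le_div_of_nonneg_right ?_ (Nat.cast_nonneg _)
  rw [Nat.cast_le]
  refine Finset.card_le_card fun z hz => ?_
  simp only [Finset.mem_filter] at hz ⊢
  exact ⟨hz.1, fun hm => hz.2 ⟨hm.1, hm.2.trans (hU δ)⟩⟩

theorem tg_of_low (L : ℝ) : ∃ Uf Yf : ℝ → ℝ, (∀ δ, 1 ≤ Uf δ) ∧ ∀ D : ℤ, Low L D → Tg Uf Yf D := by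
  have H : ∀ δ : ℝ, ∃ U Y : ℝ, 1 ≤ U ∧ (0 < δ → ∀ (n : ℕ) (τ : Fin n → ℍ)
      (D : Fin n → ℤ), (∀ k, HasDisc (τ k) (D k)) → ∀ c : Fin n, Y ≤ -(D c : ℝ) → Low L (D c) →
      prb (Orb τ) (fun x => fr (x c) ∉ KU U) ≤ δ) := fun δ => by
    by_cases hδ : 0 < δ
    · obtain ⟨U, Y, h1, h2⟩ := tight_orb L hδ
      exact ⟨U, Y, h1, fun _ => h2⟩
    · exact ⟨1, 0, le_rfl, fun h => absurd h hδ⟩
  choose Uf Yf h1 h2 using H
  refine ⟨Uf, Yf, h1, fun D hL δ hδ hY n τ D' hτ c hc => ?_⟩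
  subst hc
  exact h2 δ hδ n τ D' hτ c hY hL

end Pool.Agent.EQ
end
end

-- part Pool.Agent.P.MP_ad7a55_nt.YBe
section

/-! Relations between two coordinates with an explicit class number constant. -/

set_option autoImplicit false

noncomputable section

open MeasureTheory Topology Filter UpperHalfPlane
open scoped MatrixGroups BoundedContinuousFunction Matrix Classical

namespace Pool.Agent.EQ

theorem xc_one6 (U : ℝ) (hU : 1 ≤ U) : ∃ (K : ℝ) (A R₀ : ℕ), 0 < K ∧ ∀ (L : ℝ) (n : ℕ)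
    (τ : Fin n → ℍ) (D : Fin n → ℤ), (∀ k, HasDisc (τ k) (D k)) → ∀ (k l : Fin n) (E b : ℤ)
    (β : Finset ℕ) (δ R : ℕ) (Z Λ : ℝ), Low L (D k) → Fit E (D k) → Fit E (D l) → β.Nonempty →
    (∀ p ∈ β, p.Prime ∧ ¬ (p : ℤ) ∣ 2 * E * δ ∧ (p : ℤ) ∣ b ^ 2 - E) →
    ∑ p ∈ β, (p : ℝ) ^ (-(1 / 4 : ℝ)) ≤ 1 → 1 ≤ Z → 0 < δ → δ ≤ R → R₀ * Z ^ 2 ≤ R →
    (∏ p ∈ β, p) ^ 200 ≤ R → (R : ℤ) ^ 3 ≤ -D k → (R : ℤ) ^ 3 ≤ -D l → 1 ≤ Λ →
    Real.log (-(D k : ℝ)) ≤ Λ → Real.log (-(D l : ℝ)) ≤ Λ →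
    (∀ d, 0 < d → d ≤ R ^ 3 → ¬ Ig d (jInv (τ k)) (jInv (τ l))) →
    prb (Orb τ) (fun x => fr (x k) ∈ KU U ∧ fr (x l) ∈ KU U ∧ ∃ X : M2, X.det.natAbs = δ ∧
      (∀ i j, |(X i j : ℝ)| ≤ Z) ∧ ∀ p ∈ β, ∀ v ∈ Ker p (AA E b (fr (x k))),
        X *ᵥ v ∈ Ker p (AA E b (fr (x l)))) ≤
      K * (|L| + 1) * Λ ^ A * Z ^ 2 * (δ : ℝ) ^ 4 / (∏ p ∈ β, p : ℕ) := by
  obtain ⟨K, A, R₁, hK, hxs⟩ := xs_le
  refine ⟨60 * (K * (100 * U ^ 5) * 3 ^ A), A, max (max R₁ 577) ⌈100 * U ^ 5⌉₊,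
    by positivity, fun L n τ D hτ k l E b β δ R Z Λ hL ⟨f, hf, hE⟩ ⟨f', hf', hE'⟩ hβ hp hs hZ hδ hδR
      hR hq bk bl hΛ lk ll hI => ?_⟩
  have Z1 : 1 ≤ Z ^ 2 := one_le_pow₀ hZ
  have U1 : 1 ≤ U ^ 5 := one_le_pow₀ hU
  have C1 : 1 ≤ 100 * U ^ 5 * Z ^ 2 := one_le_mul_of_one_le_of_one_le (by linarith) Z1
  have hR0 : max (max R₁ 577) ⌈100 * U ^ 5⌉₊ ≤ R :=
    (Nat.cast_le (α := ℝ)).1 ((le_mul_of_one_le_right (Nat.cast_nonneg _) Z1).trans hR)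
  have R1 : R₁ ≤ R := by omega
  have R2 : (577 : ℤ) ≤ R := by omega
  have R3 : 100 * U ^ 5 * Z ^ 2 ≤ R := le_trans (mul_le_mul_of_nonneg_right
    ((Nat.le_ceil _).trans (Nat.cast_le.2 (le_max_right _ _))) (by positivity)) hR
  have R4 : (R : ℤ) ≤ R ^ 3 := le_self_pow₀ (by omega) (by norm_num)
  have R5 : (R : ℤ) ^ 2 ≤ R ^ 3 := pow_le_pow_right₀ (by omega) (by norm_num)
  have d2 : (δ : ℤ) ^ 2 ≤ R ^ 2 := pow_le_pow_left₀ (by positivity) (by exact_mod_cast hδR) 2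
  have ck : D k < -576 := by omega
  have cl : D l < -576 := by omega
  have q0 : 0 < ∏ p ∈ β, p := Finset.prod_pos fun p h => (hp p h).1.pos
  have hqc : IsCoprime ((∏ p ∈ β, p : ℕ) : ℤ) (2 * E * δ) := by
    rw [Nat.cast_prod]
    exact IsCoprime.prod_left fun p h =>
      (Nat.prime_iff_prime_int.1 (hp p h).1).coprime_iff_not_dvd.2 (hp p h).2.1
  have hqb : ((∏ p ∈ β, p : ℕ) : ℤ) ∣ b ^ 2 - E := by
    rw [Nat.cast_prod]
    exact Finset.prod_dvd_of_coprime (fun a ha c hc hac => Nat.isCoprime_iff_coprime.2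
      ((Nat.coprime_primes (hp a ha).1 (hp c hc).1).2 hac)) fun p h => (hp p h).2.2
  obtain ⟨m, hm⟩ : ∃ m : ℝ, m = K * (100 * U ^ 5 * Z ^ 2) * (3 * Λ) ^ A / (∏ p ∈ β, p : ℕ) :=
    ⟨_, rfl⟩
  have m0 : 0 < m := by rw [hm]; positivity
  have key : ∀ h ∈ Hn δ, prb (Orb τ) (fun x => ∃ σ : ℂ ≃+* ℂ, (x = fun i => σ (jInv (τ i))) ∧
      ∃ g ∈ Hn δ, σ (jInv (act h (τ l))) = jInv (act g (fr (x l))) ∧ ∃ s : ℤ, (s = 1 ∨ s = -1) ∧
      ∀ (E' b₀ : ℤ) (g₁ g₂ : ℕ), IsD E' → g₁.Coprime g₂ → D k = g₁ ^ 2 * E' →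
        HasDisc (act g (fr (x l))) (g₂ ^ 2 * E') → 2 ∣ b₀ - E' →
        ((∏ p ∈ β, p : ℕ) : ℤ) ∣ f * g₁ * b₀ + b →
        (x k, jInv (act g (fr (x l)))) ∈ XS s (100 * U ^ 5 * Z ^ 2) (∏ p ∈ β, p) b₀ E' g₁ g₂
          (jL (sp 1 (act g (fr (x l))) * cj (sp 1 (fr (x k)))))) ≤
      60 * (|L| + 1) * m * (δ : ℝ) ^ 2 := by
    intro h hh
    have hd := (mem_Hn hh).2
    obtain ⟨D', a', ⟨f₁, hf₁, e₁⟩, a₂⟩ := act_disc (hτ l) hδ hd
    have c' : D' < -576 := by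
      by_contra hn
      have s1 := mul_le_mul_of_nonneg_left (show -D' ≤ 576 by omega) (sq_nonneg (δ : ℤ))
      have s2 := mul_le_mul_of_nonneg_left R2 (sq_nonneg (R : ℤ))
      have s3 : (0 : ℤ) < R ^ 2 := pow_pos (by omega) 2
      linarith
    obtain ⟨E', g₁, g₂, iE, p₁, p₂, hg, ek, rfl, hr⟩ := split_disc (hτ k).isD a'.isD
      (ρ₁ := δ * f) (ρ₂ := f' * f₁) (by positivity) (by positivity) (by
        have : ((δ : ℤ) * f) ^ 2 * D k = (f' * f₁) ^ 2 * D' := by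
          linear_combination (δ : ℤ) ^ 2 * (hE' - hE) + (f' : ℤ) ^ 2 * e₁
        exact_mod_cast this)
    have hr' : (δ : ℤ) * f * g₁ = f' * f₁ * g₂ := by exact_mod_cast hr
    have hEE : E = (f * g₁) ^ 2 * E' := by rw [hE, ek]; ring
    obtain ⟨b₀, u1, u2⟩ : ∃ b₀ : ℤ, 2 ∣ b₀ - E' ∧ ((∏ p ∈ β, p : ℕ) : ℤ) ∣ f * g₁ * b₀ + b := by
      obtain ⟨x, y, e⟩ := hqc.of_isCoprime_of_dvd_right (x := 2 * ((f : ℤ) * g₁))
        ⟨f * g₁ * E' * δ, by rw [hEE]; ring⟩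
      exact ⟨E' - 2 * (y * (f * g₁ * E' + b)), ⟨-(y * (f * g₁ * E' + b)), by ring⟩,
        x * (f * g₁ * E' + b), by linear_combination -(f * g₁ * E' + b) * e⟩
    obtain ⟨w, w', hw⟩ := orbit_classes iE hg (ek ▸ discL_one (hτ k)) (discL_one a') (ek ▸ ck) c'
    have iG := cm_isD_sq iE (Nat.mul_pos p₁ p₂)
    have lg : Real.log (-(((g₁ * g₂ : ℕ) ^ 2 * E' : ℤ) : ℝ)) ≤ 3 * Λ := by
      have t1 : -((g₁ * g₂ : ℕ) ^ 2 * E' : ℤ) ≤ -D k * (-D l * -D l) := by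
        have s1 : (1 : ℤ) ≤ f₁ ^ 2 := one_le_pow₀ (by exact_mod_cast hf₁)
        have s2 : -(g₂ ^ 2 * E') ≤ -D l * -D l := by
          have s4 := mul_le_mul_of_nonneg_right s1 (show 0 ≤ -(g₂ ^ 2 * E') by omega)
          have s5 := mul_le_mul_of_nonneg_right (d2.trans (R5.trans bl)) (show 0 ≤ -D l by omega)
          linarith
        have s3 : (g₁ : ℤ) ^ 2 ≤ -D k := by
          have s4 := mul_le_mul_of_nonneg_left (show 1 ≤ -E' by linarith [iE.1])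
            (sq_nonneg (g₁ : ℤ))
          linarith
        refine le_trans (le_of_eq ?_) (mul_le_mul s3 s2 (by omega) (by omega))
        push_cast
        ring
      have t2 : (0 : ℝ) < -(D k : ℝ) := by linarith [tti_three (hτ k).isD]
      have t3 : (0 : ℝ) < -(D l : ℝ) := by linarith [tti_three (hτ l).isD]
      refine (Real.log_le_log (by linarith [tti_three iG])
        (show _ ≤ -(D k : ℝ) * (-(D l : ℝ) * -(D l : ℝ)) by exact_mod_cast t1)).trans ?_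
      rw [Real.log_mul t2.ne' (by positivity), Real.log_mul t3.ne' t3.ne']
      linarith
    obtain ⟨T, hT⟩ : ∃ T : ℤ → ℂ → Set (ℂ × ℂ), T = fun s w =>
        {z | z ∈ XS s (100 * U ^ 5 * Z ^ 2) (∏ p ∈ β, p) b₀ E' g₁ g₂ w ∧
          ∀ M : ℕ, 0 < M → M ≤ R → ¬ Isog M z.1 z.2} := ⟨_, rfl⟩
    have T1 : ∀ s w, (T s w).Finite := fun s w => by
      rw [hT]
      exact (XS_finite _ _ _ _ _ _ _ _).subset fun z hz => hz.1
    have H0 := tfc_HH iG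
    have T2 : ∀ s w, s.natAbs = 1 → ((T s w).ncard : ℝ) ≤ m * HH ((g₁ * g₂ : ℕ) ^ 2 * E') := by
      intro s w e
      rw [hT, hm]
      refine (hxs s b₀ E' _ g₁ g₂ R β w e C1 iE p₁ p₂ hg hβ (fun p h => ?_) hs R1 R3
        hq).trans ?_
      · obtain ⟨v1, v2, v3⟩ := hp p h
        have v4 := Nat.prime_iff_prime_int.1 v1
        have v5 : ¬ (p : ℤ) ∣ δ * f * g₁ := fun e => v2 (v4.dvd_of_dvd_pow (n := 2)
          ((e.mul_right (4 * δ * (f * g₁) ^ 3 * E' ^ 2)).trans (dvd_of_eq (by rw [hEE]; ring))))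
        refine ⟨v1, ?_, xbe_jac v1 (fun e => v2 ?_) (hEE ▸ v3), fun e => v5 ?_⟩
        · rintro rfl
          exact v2 ⟨E * δ, by push_cast; ring⟩
        · exact ((hEE ▸ e).mul_left 2).mul_right _
        · rcases (Nat.Prime.dvd_mul v1).1 e with e | e
          · exact (Int.natCast_dvd_natCast.2 e).mul_left _
          · exact hr' ▸ (Int.natCast_dvd_natCast.2 e).mul_left _
      · have := Real.log_nonneg (show 1 ≤ -(((g₁ * g₂ : ℕ) ^ 2 * E' : ℤ) : ℝ) by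
          linarith [tti_three iG])
        gcongr
    have k1 := xbe_cnt hτ k l hδ hd iE hg ek a' ck c'
      (((T1 1 w).union (T1 1 w')).union ((T1 (-1) w).union (T1 (-1) w')))
    have k2 : ((T 1 w ∪ T 1 w' ∪ (T (-1) w ∪ T (-1) w')).ncard : ℝ) ≤
        4 * m * HH ((g₁ * g₂ : ℕ) ^ 2 * E') := by
      have := (Nat.cast_le (α := ℝ)).2 ((Set.ncard_union_le _ _).trans (Nat.add_le_add
        (Set.ncard_union_le (T 1 w) (T 1 w')) (Set.ncard_union_le (T (-1) w) (T (-1) w'))))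
      push_cast at this
      linarith [T2 1 w rfl, T2 1 w' rfl, T2 (-1) w rfl, T2 (-1) w' rfl]
    refine le_trans (pb_mono fun x hx hx' => ?_)
      ((tfc_fin (K := 15) (L := L) (δ := 60 * (|L| + 1) * m) k1 (k2.trans (le_of_eq ?_))
        (hL _ iG ⟨g₁ * (g₁ * g₂ : ℕ) * E', by rw [ek]; ring⟩) H0 (Nat.cast_nonneg _) (by norm_num)
        (by positivity) (by positivity)))
    · obtain ⟨σ, e, g, -, j, s, hs, hX⟩ := hx'
      refine ⟨σ, e, ?_⟩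
      have xk : x k = σ (jInv (τ k)) := congrFun e k
      have y1 := hX E' b₀ g₁ g₂ iE hg ek (disc_of_gal a' c' j.symm) u1 u2
      have y2 := hw σ _ _ (isLat_one (fr (x k))) (isLat_one (act g (fr (x l))))
        (by rw [jL_one, jL_one, (fr_spec _).2, xk]) (by rw [jL_one, jL_one, j])
      have y3 : ∀ M : ℕ, 0 < M → M ≤ R → ¬ Isog M (x k) (σ (jInv (act h (τ l)))) := by
        intro M M0 MR i
        obtain ⟨d, d0, dM, i1⟩ := i.ig M0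
        have i2 := (i1.trans d0 hδ (Ig.gal hδ ⟨τ l, h, hd, rfl, rfl⟩ σ)).gal
          (Nat.mul_pos d0 hδ) σ.symm
        rw [xk, σ.symm_apply_apply, σ.symm_apply_apply] at i2
        exact hI _ (Nat.mul_pos d0 hδ)
          (Nat.mul_le_mul (dM.trans (Nat.pow_le_pow_left MR 2)) hδR) i2
      rw [← j] at y1
      rw [hT]
      rcases hs with rfl | rfl <;> rcases y2 with y2 | y2 <;> rw [y2] at y1
      · exact Or.inl (Or.inl ⟨y1, y3⟩)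
      · exact Or.inl (Or.inr ⟨y1, y3⟩)
      · exact Or.inr (Or.inl ⟨y1, y3⟩)
      · exact Or.inr (Or.inr ⟨y1, y3⟩)
    · field_simp
      ring
  refine le_trans (pb_mono fun x hx hx' => ?_) ((pb_exists _ _ _).trans
    ((Finset.sum_le_card_nsmul _ _ _ key).trans ?_))
  · obtain ⟨u1, u2, X, hX, hXZ, hK⟩ := hx'
    obtain ⟨σ, e⟩ := (mem_Orb hτ).1 hx
    have X0 : X.det ≠ 0 := Int.natAbs_pos.1 (hX ▸ hδ)
    obtain ⟨g, hg, hxs⟩ := xs_of_mat hU u1 u2 X0 hXZ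
    rw [hX] at hg
    have i1 := Ig.gal hδ ⟨fr (x l), g, (mem_Hn hg).2, rfl, (fr_spec _).2⟩ σ.symm
    rw [show σ.symm (x l) = jInv (τ l) by rw [e, σ.symm_apply_apply]] at i1
    obtain ⟨h, hh, j⟩ := i1.exists_Hn hδ
    refine ⟨h, hh, σ, e, g, hg, by rw [j, σ.apply_symm_apply], X.det.sign, ?_,
      fun E' b₀ g₁ g₂ iE hc ek a u1 u2 => ?_⟩
    · exact X0.lt_or_gt.symm.imp Int.sign_eq_one_of_pos Int.sign_eq_neg_one_of_neg
    · have := hxs E E' (D l) b b₀ f g₁ g₂ _ iE hc (ek ▸ Orb_disc hτ hx ck) (Orb_disc hτ hx cl) a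
        (ek ▸ hE) ⟨f', hf', hE'⟩ hf q0 (hqc.of_isCoprime_of_dvd_right
          (mul_dvd_mul_left _ (hX ▸ Int.dvd_natAbs.2 dvd_rfl))) hqb u1 u2 fun v hv =>
        (mem_Ker_prod fun p h => (hp p h).1).2 fun p h =>
          hK p h v ((mem_Ker_prod fun p h => (hp p h).1).1 hv p h)
      rwa [(fr_spec _).2] at this
  · rw [nsmul_eq_mul]
    refine (mul_le_mul_of_nonneg_right (show _ ≤ (δ : ℝ) ^ 2 by exact_mod_cast card_Hn δ)
      (by positivity)).trans (le_of_eq ?_)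
    rw [hm, mul_pow 3]
    ring

theorem xc_orb6 (U : ℝ) (hU : 1 ≤ U) : ∃ (K : ℝ) (A R₀ : ℕ), 0 < K ∧ ∀ (L : ℝ) (n : ℕ)
    (τ : Fin n → ℍ) (D : Fin n → ℤ), (∀ k, HasDisc (τ k) (D k)) → ∀ (k l : Fin n) (E b : ℤ)
    (β : Finset ℕ) (R : ℕ) (Z Λ : ℝ), Low L (D k) → Fit E (D k) → Fit E (D l) →
    (∀ p ∈ β, p.Prime ∧ ¬ (p : ℤ) ∣ 2 * E ∧ (p : ℤ) ∣ b ^ 2 - E) →
    ∑ p ∈ β, (p : ℝ) ^ (-(1 / 4 : ℝ)) ≤ 1 → 1 ≤ Z → R₀ * Z ^ 2 ≤ R →
    (∏ p ∈ β, p) ^ 200 ≤ R → (R : ℤ) ^ 3 ≤ -D k → (R : ℤ) ^ 3 ≤ -D l → 1 ≤ Λ →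
    Real.log (-(D k : ℝ)) ≤ Λ → Real.log (-(D l : ℝ)) ≤ Λ →
    (∀ d, 0 < d → d ≤ R ^ 3 → ¬ Ig d (jInv (τ k)) (jInv (τ l))) →
    prb (Orb τ) (fun x => fr (x k) ∈ KU U ∧ fr (x l) ∈ KU U ∧
      Xc Z (fun p => Ker p (AA E b (fr (x k)))) (fun p => Ker p (AA E b (fr (x l)))) β) ≤
      K * (|L| + 1) * Λ ^ A * Z ^ 14 / (∏ p ∈ β, p : ℕ) := by
  obtain ⟨K, A, R₀, hK, h1⟩ := xc_one6 U hU
  refine ⟨64 * (K + 1), A, max R₀ 2, by positivity,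
    fun L n τ D hτ k l E b β R Z Λ hL fk fl hp hs hZ hR hq bk bl hΛ lk ll hI => ?_⟩
  have Z0 : 0 ≤ Z ^ 2 := sq_nonneg Z
  have R1 : R₀ * Z ^ 2 ≤ R :=
    (mul_le_mul_of_nonneg_right (Nat.cast_le.2 (le_max_left _ _)) Z0).trans hR
  have R2 : 2 * Z ^ 2 ≤ R :=
    (mul_le_mul_of_nonneg_right (by exact_mod_cast le_max_right R₀ 2) Z0).trans hR
  have q0 : (0 : ℝ) < (∏ p ∈ β, p : ℕ) := Nat.cast_pos.2 (Finset.prod_pos fun p h => (hp p h).1.pos)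
  have key : ∀ δ ∈ Finset.Icc 1 ⌊2 * Z ^ 2⌋₊, prb (Orb τ) (fun x => fr (x k) ∈ KU U ∧
      fr (x l) ∈ KU U ∧ ∃ X : M2, X.det.natAbs = δ ∧ (∀ i j, |(X i j : ℝ)| ≤ Z) ∧
      ∀ p ∈ β.filter fun p => ¬ p ∣ δ, ∀ v ∈ Ker p (AA E b (fr (x k))),
        X *ᵥ v ∈ Ker p (AA E b (fr (x l)))) ≤
      (K + 1) * (|L| + 1) * Λ ^ A * Z ^ 2 * (2 * Z ^ 2) ^ 5 / (∏ p ∈ β, p : ℕ) := by
    intro δ hδ
    obtain ⟨d0, d1⟩ := Finset.mem_Icc.1 hδ
    have d2 : (δ : ℝ) ≤ 2 * Z ^ 2 := (Nat.le_floor_iff (by positivity)).1 d1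
    have d3 : (1 : ℝ) ≤ δ := Nat.one_le_cast.2 d0
    have e := Finset.prod_filter_mul_prod_filter_not β (fun p => p ∣ δ) fun p => p
    have a1 : ∏ p ∈ β.filter fun p => p ∣ δ, p ≤ δ :=
      Nat.le_of_dvd d0 (Finset.prod_primes_dvd δ
        (fun p h => (hp p (Finset.mem_filter.1 h).1).1.prime) fun p h => (Finset.mem_filter.1 h).2)
    have a0 : 0 < ∏ p ∈ β.filter fun p => p ∣ δ, p :=
      Finset.prod_pos fun p h => (hp p (Finset.mem_filter.1 h).1).1.pos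
    have a2 : 0 < ∏ p ∈ β.filter fun p => ¬ p ∣ δ, p :=
      Finset.prod_pos fun p h => (hp p (Finset.mem_filter.1 h).1).1.pos
    have a3 : ((∏ p ∈ β, p : ℕ) : ℝ) ≤ δ * (∏ p ∈ β.filter fun p => ¬ p ∣ δ, p : ℕ) := by
      rw [← e]
      exact_mod_cast Nat.mul_le_mul_right _ a1
    have a4 : (0 : ℝ) < (∏ p ∈ β.filter fun p => ¬ p ∣ δ, p : ℕ) := Nat.cast_pos.2 a2
    have L1 : 1 ≤ Λ ^ A := one_le_pow₀ hΛ
    refine le_trans (b := (K + 1) * (|L| + 1) * Λ ^ A * Z ^ 2 * (δ : ℝ) ^ 4 /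
      (∏ p ∈ β.filter fun p => ¬ p ∣ δ, p : ℕ)) ?_ ?_
    · rcases (β.filter fun p => ¬ p ∣ δ).eq_empty_or_nonempty with h0 | h0
      · refine (pb_le_one _ _).trans ?_
        rw [h0, Finset.prod_empty, Nat.cast_one, div_one]
        exact one_le_mul_of_one_le_of_one_le (one_le_mul_of_one_le_of_one_le
          (one_le_mul_of_one_le_of_one_le (one_le_mul_of_one_le_of_one_le (by linarith)
            (by linarith [abs_nonneg L])) L1) (one_le_pow₀ hZ)) (one_le_pow₀ d3)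
      · refine (h1 L n τ D hτ k l E b _ δ R Z Λ hL fk fl h0 (fun p h => ?_)
          ((Finset.sum_le_sum_of_subset_of_nonneg (Finset.filter_subset _ _)
            fun p _ _ => by positivity).trans hs) hZ d0 (Nat.cast_le.1 (d2.trans R2)) R1
          ((Nat.pow_le_pow_left ((Nat.le_mul_of_pos_left _ a0).trans e.le) _).trans hq)
          bk bl hΛ lk ll hI).trans (by gcongr; linarith)
        obtain ⟨v0, v1⟩ := Finset.mem_filter.1 h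
        obtain ⟨v2, v3, v4⟩ := hp p v0
        exact ⟨v2, fun e => ((Nat.prime_iff_prime_int.1 v2).dvd_or_dvd e).elim v3
          fun e => v1 (Int.natCast_dvd_natCast.1 e), v4⟩
    · rw [div_le_div_iff₀ a4 q0]
      calc _ ≤ (K + 1) * (|L| + 1) * Λ ^ A * Z ^ 2 * (δ : ℝ) ^ 4 *
            (δ * (∏ p ∈ β.filter fun p => ¬ p ∣ δ, p : ℕ)) := by gcongr
        _ = (K + 1) * (|L| + 1) * Λ ^ A * Z ^ 2 * (δ : ℝ) ^ 5 *
            (∏ p ∈ β.filter fun p => ¬ p ∣ δ, p : ℕ) := by ring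
        _ ≤ _ := by gcongr
  refine le_trans (pb_mono fun x hx hx' => ?_) ((pb_exists _ _ _).trans
    ((Finset.sum_le_card_nsmul _ _ _ key).trans ?_))
  · obtain ⟨u1, u2, X, X0, hX, hK⟩ := hx'
    refine ⟨_, Finset.mem_Icc.2 ⟨Int.natAbs_pos.2 X0, Nat.le_floor ?_⟩, u1, u2, X, rfl, hX,
      fun p h => hK p (Finset.mem_filter.1 h).1⟩
    have Z1 : 0 ≤ Z := by linarith
    have t1 := mul_le_mul (hX 0 0) (hX 1 1) (abs_nonneg _) Z1
    have t2 := mul_le_mul (hX 0 1) (hX 1 0) (abs_nonneg _) Z1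
    rw [Nat.cast_natAbs, Matrix.det_fin_two]
    push_cast
    refine (abs_sub _ _).trans ?_
    rw [abs_mul, abs_mul]
    linarith
  · rw [nsmul_eq_mul, Nat.card_Icc, Nat.add_sub_cancel]
    refine (mul_le_mul_of_nonneg_right (Nat.floor_le (by positivity)) (by positivity)).trans
      (le_of_eq ?_)
    ring

end Pool.Agent.EQ
end
end

-- part Pool.Agent.P.MP_ad7a55_nt.UMain
section

/-! The main theorem. -/

set_option autoImplicit false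

noncomputable section

open MeasureTheory Topology Filter UpperHalfPlane
open scoped MatrixGroups ENNReal BoundedContinuousFunction

namespace Pool.Agent.EQ

theorem ultra_fin {β : Type} (𝒰 : Ultrafilter ℕ) (S : Finset β) {P : ℕ → β → Prop}
    (h : ∀ᶠ i in 𝒰, ∃ b ∈ S, P i b) : ∃ b ∈ S, ∀ᶠ i in 𝒰, P i b := by
  by_contra h1
  push Not at h1
  have h2 : ∀ᶠ i in 𝒰, ∀ b ∈ S, ¬ P i b :=
    (eventually_all_finset S).2 h1
  obtain ⟨i, ⟨b, hb, h3⟩, h4⟩ := (h.and h2).exists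
  exact h4 b hb h3

theorem main_ind3 {n : ℕ} (F : IntermediateField ℚ ℂ) [FiniteDimensional ℚ F] (S S' : Finset ℕ)
    (hS : ∀ p ∈ S, p.Prime) (hS' : ∀ p ∈ S', p.Prime) (τ : ℕ → Fin n → ℍ) (D : ℕ → Fin n → ℤ)
    (hD : ∀ i k, HasDisc (τ i k) (D i k)) {η L : ℝ} (hη : 0 < η)
    (hdom : ∀ k, ∀ᶠ i in atTop,
      |(D i k : ℝ)| ^ η ≤ ∏ p ∈ S, (p : ℝ) ^ padicValInt p (D i k) ∨
        (Low L (D i k) ∧ ∃ p ∈ S', ∃ q ∈ S', p ≠ q ∧ p ≠ 2 ∧ q ≠ 2 ∧ (∃ κ, Spl p κ (D i k)) ∧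
          ∃ κ, Spl q κ (D i k)))
    (hinf : ∀ Y : ℝ, ∀ᶠ i in atTop, ∀ k, Y ≤ -(D i k : ℝ))
    (hgen : NoIsog τ) (𝒰 : Ultrafilter ℕ) (h𝒰 : (𝒰 : Filter ℕ) ≤ atTop)
    (f : Fin n → (ℂ →ᵇ ℝ)) (I : Finset (Fin n)) :
    Tendsto (fun i => avg (orbit_finite F (hD i)).toFinset (fun z => ∏ k ∈ I, f k (z k))) 𝒰
      (𝓝 (∏ k ∈ I, ∫ z, f k z ∂mY)) := by
  classical
  have hneg : ∀ i k, D i k < 0 := fun i k => (hD i k).isD.1
  induction I using Finset.strongInduction with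
  | H I ih =>
    rcases I.eq_empty_or_nonempty with rfl | hI
    · have : ∀ i, avg (orbit_finite F (hD i)).toFinset
          (fun z => ∏ k ∈ (∅ : Finset (Fin n)), f k (z k)) = 1 := fun i => by
        have h1 : (orbit_finite F (hD i)).toFinset.Nonempty :=
          ⟨_, (orbit_finite F (hD i)).mem_toFinset.2 (orbit_self F _)⟩
        have h2 : ((orbit_finite F (hD i)).toFinset.card : ℝ) ≠ 0 := by
          exact_mod_cast h1.card_pos.ne'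
        simp only [avg, Finset.prod_empty, Finset.sum_const, nsmul_eq_mul, mul_one]
        exact div_self h2
      rw [funext this, Finset.prod_empty]
      exact tendsto_const_nhds
    suffices h : ∃ J ⊆ I, J.Nonempty ∧
        Tendsto (fun i => avg (orbit_finite F (hD i)).toFinset (fun z => ∏ k ∈ I, f k (z k)) -
          (∏ k ∈ J, ∫ z, f k z ∂mY) *
            avg (orbit_finite F (hD i)).toFinset (fun z => ∏ k ∈ I \ J, f k (z k))) 𝒰 (𝓝 0) by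
      obtain ⟨J, hJI, hJne, hJ⟩ := h
      have h3 := ih (I \ J) (Finset.sdiff_ssubset hJI hJne)
      have h4 := hJ.add (h3.const_mul (∏ k ∈ J, ∫ z, f k z ∂mY))
      simp only [sub_add_cancel, zero_add] at h4
      rwa [mul_comm, Finset.prod_sdiff hJI] at h4
    by_cases hA : ∀ k ∈ I, ∀ᶠ i in 𝒰,
        |(D i k : ℝ)| ^ η ≤ ∏ p ∈ S, (p : ℝ) ^ padicValInt p (D i k)
    swap
    · push Not at hA
      obtain ⟨j₀, hj₀, h0⟩ := hA
      have h1 : ∀ᶠ i in 𝒰, Low L (D i j₀) ∧ ∃ p ∈ S', ∃ q ∈ S', p ≠ q ∧ p ≠ 2 ∧ q ≠ 2 ∧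
          (∃ κ, Spl p κ (D i j₀)) ∧ ∃ κ, Spl q κ (D i j₀) := by
        filter_upwards [h0, h𝒰 (hdom j₀)] with i h2 h3
        exact h3.resolve_left (not_le.2 h2)
      obtain ⟨p, hp, h2⟩ := ultra_fin 𝒰 S' (h1.mono fun i hi => hi.2)
      obtain ⟨q, hq, h3⟩ := ultra_fin 𝒰 S' h2
      obtain ⟨-, hpq, hp2, hq2, -⟩ := h3.exists
      have : Fact p.Prime := ⟨hS' p hp⟩
      have : Fact q.Prime := ⟨hS' q hq⟩
      exact main_step3 F τ D hD hgen 𝒰 h𝒰 (fun Y => h𝒰 (hinf Y)) p q hpq hp2 hq2 I j₀ hj₀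
        (h3.mono fun i hi => hi.2.2.2) (h1.mono fun i hi => hi.1) f
    obtain ⟨j₀, hj₀, h0⟩ := ultra_max 𝒰 hI fun i k => -(D i k : ℝ)
    have hSne : S.Nonempty := by
      rcases S.eq_empty_or_nonempty with rfl | h
      · obtain ⟨i, h1, h2⟩ := ((hA j₀ hj₀).and (h𝒰 (hinf 2))).exists
        rw [Finset.prod_empty] at h1
        have h3 : 1 < |(D i j₀ : ℝ)| := by linarith [h2 j₀, neg_le_abs (D i j₀ : ℝ)]
        exact absurd (Real.one_lt_rpow h3 hη) (not_lt.2 h1)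
      · exact h
    have hSc : (0 : ℝ) < S.card := by exact_mod_cast hSne.card_pos
    obtain ⟨p, hp, h1⟩ := ultra_max 𝒰 hSne fun i p => (p : ℝ) ^ padicValInt p (D i j₀)
    obtain ⟨j, hj, h2⟩ := ultra_max 𝒰 hI fun i k => padicValInt p (D i k)
    have : Fact p.Prime := ⟨hS p hp⟩
    have hp1 : (1 : ℝ) < p := by exact_mod_cast (hS p hp).one_lt
    obtain ⟨J, hJI, hjJ, hJ⟩ := main_step2 F τ D hD hgen 𝒰 h𝒰 (fun Y => h𝒰 (hinf Y)) p I j hj h2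
      (div_pos hη hSc) (by
      filter_upwards [h0, h1, h2, hA j₀ hj₀] with i h0 h1 h2 h3 k hk
      have h4 : (D i j₀ : ℝ) < 0 := by exact_mod_cast hneg i j₀
      have h5 : (D i k : ℝ) < 0 := by exact_mod_cast hneg i k
      have h6 : (-(D i k : ℝ)) ^ η ≤ ((p : ℝ) ^ padicValInt p (D i j)) ^ S.card := by
        refine (Real.rpow_le_rpow (by linarith) (h0 k hk) hη.le).trans ?_
        rw [← abs_of_neg h4]
        refine h3.trans ?_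
        rw [← Finset.prod_const]
        exact Finset.prod_le_prod (fun _ _ => by positivity) fun q hq =>
          (h1 q hq).trans (pow_le_pow_right₀ hp1.le (h2 j₀ hj₀))
      have h7 : (-(D i k : ℝ)) ^ (η / S.card) ≤ (p : ℝ) ^ padicValInt p (D i j) := by
        rw [div_eq_mul_inv, Real.rpow_mul (by linarith)]
        refine (Real.rpow_le_rpow (Real.rpow_nonneg (by linarith) _) h6 (by positivity)).trans ?_
        rw [Real.pow_rpow_inv_natCast (by positivity) hSne.card_pos.ne']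
      rw [norm_int_eq p (hneg i j).ne, zpow_neg, zpow_natCast, Real.rpow_neg (by linarith)]
      exact inv_anti₀ (Real.rpow_pos_of_pos (by linarith) _) h7) f
    exact ⟨J, hJI, ⟨j, hjJ⟩, hJ⟩

theorem Low.mono {L L' : ℝ} {D : ℤ} (h : Low L D) (hL : L ≤ L') : Low L' D := fun D' h1 h2 =>
  (h D' h1 h2).trans (mul_le_mul_of_nonneg_right hL (Nat.cast_nonneg _))

theorem main3 {n : ℕ} (F : IntermediateField ℚ ℂ) [FiniteDimensional ℚ F] (S : Finset ℕ)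
    (hS : ∀ p ∈ S, p.Prime) (T : Finset ℤ) {η c : ℝ} (hη : 0 < η) (hc : 0 < c)
    (τ : ℕ → Fin n → ℍ) (D : ℕ → Fin n → ℤ) (hD : ∀ i k, HasDisc (τ i k) (D i k))
    (hdom : ∀ k, ∀ᶠ i in atTop,
      |(D i k : ℝ)| ^ η ≤ ∏ p ∈ S, (p : ℝ) ^ padicValInt p (D i k) ∨
        ∃ d f : ℤ, Squarefree d ∧ D i k = f ^ 2 * d ∧ (d ∈ T ∨ (NoZero c d ∧ ∃ p ∈ S, ∃ q ∈ S,
          p ≠ q ∧ p ≠ 2 ∧ q ≠ 2 ∧ jacobiSym d p = 1 ∧ jacobiSym d q = 1)))
    (hpt : ∀ k, ∀ z : ℂ, {i | jInv (τ i k) = z}.Finite)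
    (hgen : ∀ k l, k ≠ l → ∀ a b c d : ℤ, 0 < a * d - b * c →
      {i | ∃ z w : ℍ, (w : ℂ) = (a * z + b) / (c * z + d) ∧ jInv (τ i k) = jInv z ∧
        jInv (τ i l) = jInv w}.Finite)
    (f : (Fin n → ℂ) → ℝ) (hf : Continuous f) (hs : HasCompactSupport f) :
    (∀ i, (galOrbit F fun k => jInv (τ i k)).Finite) ∧
      Tendsto (fun i => (∑ᶠ y ∈ galOrbit F (fun k => jInv (τ i k)), f y) /
        (galOrbit F fun k => jInv (τ i k)).ncard) atTop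
        (𝓝 (∫ y, f y ∂(Measure.pi fun _ : Fin n => mY))) := by
  classical
  set T' := T.filter fun d => d < 0 with hT'
  have hT0 : ∀ d ∈ T', d < 0 := fun d hd => (Finset.mem_filter.1 hd).2
  obtain ⟨c', hc', h1⟩ := noZero_of_finite T' hT0
  obtain ⟨p₀, q₀, hp₀, hq₀, h2, h3, h4, h5⟩ := exists_split T' fun d hd => (hT0 d hd).ne
  obtain ⟨L, -, hL⟩ := low_of_noZero hc
  obtain ⟨L', -, hL'⟩ := low_of_noZero hc'
  refine ⟨fun i => orbit_finite F (hD i), final_of_prod _ (fun i => orbit_finite F (hD i))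
    (fun _ => ⟨_, orbit_self F _⟩)
    (fun 𝒰 h𝒰 g => main_ind3 F S (insert p₀ (insert q₀ S)) hS ?_ τ D hD (L := max L L') hη ?_
      (fun Y => eventually_all.2 fun k => disc_tendsto (fun i => hD i k) (hpt k) Y)
      (noIsog_of_finite τ hgen) 𝒰 h𝒰 g Finset.univ) f hf hs⟩
  · intro p hp
    simp only [Finset.mem_insert] at hp
    rcases hp with rfl | rfl | hp
    exacts [hp₀, hq₀, hS p hp]
  intro k
  filter_upwards [hdom k] with i hi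
  refine hi.imp_right ?_
  rintro ⟨d, e, h6, h7, h8⟩
  have h9 : e ^ 2 * d < 0 := h7 ▸ (hD i k).isD.1
  have he : e ≠ 0 := by
    rintro rfl
    simp at h9
  have hd : d < 0 := by
    by_contra h
    exact absurd h9 (not_lt.2 (mul_nonneg (sq_nonneg e) (not_lt.1 h)))
  rw [h7]
  rcases h8 with h8 | ⟨h8, p, hp, q, hq, a1, a2, a3, a4, a5⟩
  · have h10 : d ∈ T' := Finset.mem_filter.2 ⟨h8, hd⟩
    have : Fact p₀.Prime := ⟨hp₀⟩
    have : Fact q₀.Prime := ⟨hq₀⟩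
    exact ⟨(hL' d e h6 h9 (h1 d h10)).mono (le_max_right _ _), p₀, by simp, q₀, by simp, h4, h2, h3,
      spl_of_jac p₀ (h5 d h10).1 he, spl_of_jac q₀ (h5 d h10).2 he⟩
  · have : Fact p.Prime := ⟨hS p hp⟩
    have : Fact q.Prime := ⟨hS q hq⟩
    exact ⟨(hL d e h6 h9 h8).mono (le_max_left _ _), p, by simp [hp], q, by simp [hq], a1, a2, a3,
      spl_of_jac p a4 he, spl_of_jac q a5 he⟩

end Pool.Agent.EQ
end
end
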