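import Pool.Agent.K.MP_ad7a55_nt.C72
import Pool.Agent.K.MP_ad7a55_nt.C61
import Pool.Agent.K.MP_ad7a55_nt.C59
import Pool.Agent.K.MP_ad7a55_nt.C64

-- part Pool.Agent.P.MP_ad7a55_nt.VH2
section

/-! Diagonal frames along an orbit of level N. -/

set_option autoImplicit false

noncomputable section

open MeasureTheory Topology Filter UpperHalfPlane
open scoped MatrixGroups ENNReal BoundedContinuousFunction

namespace Pool.Agent.EQ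

variable (p q : ℕ) [Fact p.Prime] [Fact q.Prime]

structure FDN {n : ℕ} (N : ℕ) (F : IntermediateField ℚ ℂ) (O : Finset (Fin n × Fn → ℂ))
    (D : Fin n → ℤ) (j : Fin n) (J : Finset (Fin n)) (M : ℕ) (x : (Fin n → ℂ) → J → X3 p q)
    (hp : (Fin n → ℂ) → J → SL(2, ℚ_[p])) (hq : (Fin n → ℂ) → J → SL(2, ℚ_[q]))
    (xt : (Fin n × Fn → ℂ) → ℕ → J → XN p N) (a : (Fin n × Fn → ℂ) → ℕ → J → SL(2, ℚ_[p]))
    (σ : ℕ × ℕ → ℂ ≃+* ℂ) : Prop where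
  fix : ∀ u, ∀ c ∈ F, σ u c = c
  cv : ∀ z ∈ O, ∀ v, covP p N (xt z v) = piP p q (yy p q M (hq (pj z)) (x (pj z)) (0, v))
  val : ∀ z ∈ O, ∀ (u : ℕ × ℕ) (k : J), ∀ f ∈ MF N F,
    f (ptX p N (((1, a z u.2 k * hp (pj z) k) : GG p) • aP p (M * u.1) • xt z u.2 k)) =
      σ u (z (k, f))
  out : ∀ z ∈ O, ∀ u k, ¬ IsSquare (D k * D j) → ∀ f, σ u (z (k, f)) = z (k, f)

theorem vh2_th {ρ : ℚ} (h0 : 0 < ρ) {D D₀ : ℤ} (h : ρ ^ 2 * D = D₀) : th D₀ = ρ * th D := by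
  have h1 : -(D₀ : ℝ) = (ρ : ℝ) ^ 2 * -(D : ℝ) := by
    have : (ρ : ℝ) ^ 2 * D = D₀ := by exact_mod_cast congrArg (fun x : ℚ => (x : ℝ)) h
    linarith
  have h2 : (0 : ℝ) ≤ ρ := by exact_mod_cast h0.le
  rw [th, th, h1, Real.sqrt_mul (sq_nonneg _), Real.sqrt_sq h2]
  push_cast
  ring

theorem vh2_inK {D : ℤ} (hD : D < 0) {a b : ℚ} (h : a ^ 2 - b ^ 2 * D = 1) :
    InK D (a + b * th D) := by
  refine ⟨fun h0 => ?_, a, b, rfl⟩
  have h1 : (a : ℂ) ^ 2 - (b : ℂ) ^ 2 * D = 1 := by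
    exact_mod_cast congrArg (fun x : ℚ => (x : ℂ)) h
  have h2 := th_sq hD.le
  have h3 : (1 : ℂ) = 0 := by
    linear_combination -h1 + ((a : ℂ) - b * th D) * h0 + (b : ℂ) ^ 2 * h2
  exact one_ne_zero h3

variable {p q}

theorem vh2_iter {N M : ℕ} {F : IntermediateField ℚ ℂ} {σ : ℂ ≃+* ℂ} {D : ℤ} {w : ℂ}
    {V : SL(2, ℚ_[p])} (hR : ∀ g : GG p, DiscL (latG p g) D → Rot p w g V →
      ∀ f ∈ MF N F, σ (f (pt p N g)) = f (pt p N ((1, V ^ M) * g)))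
    {g : GG p} (hD : DiscL (latG p g) D) (hw : InK D w) (hV : Rot p w g V) (i : ℕ) :
    ∀ f ∈ MF N F, (σ ^ i) (f (pt p N g)) = f (pt p N ((1, V ^ (M * i)) * g)) := by
  intro f hf
  induction i with
  | zero =>
    have e : ((1, V ^ (M * 0)) * g : GG p) = g := Prod.ext (one_mul _) (by simp)
    rw [e]
    rfl
  | succ i ih =>
    obtain ⟨h1, h2⟩ := hV.disc hD hw (M * i)
    have e : ((1, V ^ (M * (i + 1))) * g : GG p) = (1, V ^ M) * ((1, V ^ (M * i)) * g) := by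
      refine Prod.ext (by simp) ?_
      simp only [Prod.snd_mul]
      rw [← mul_assoc, ← pow_add, mul_add, mul_one, add_comm]
    rw [pow_succ', e, ← hR _ h1 h2 f hf, ← ih]
    rfl

theorem vh2_loc {N c M : ℕ} (hN : 0 < N) (hpq : p ≠ q) {F : IntermediateField ℚ ℂ} {D : ℤ}
    (hD : D < 0) {rp : ℚ_[p]} {rq : ℚ_[q]} {hp : SL(2, ℚ_[p])} {hq : SL(2, ℚ_[q])} {y : X3 p q}
    (hcf : CF p q D rp rq hp hq y) {a b : ℚ} (hab : a ^ 2 - b ^ 2 * D = 1)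
    (hmv : ∀ (g : GG p) (Θ : Matrix (Fin 2) (Fin 2) ℤ) (V : SL(2, ℚ_[p])), ThM D g.1 Θ →
      ((hp⁻¹ * g.2 : SL(2, ℚ_[p])) : Matrix (Fin 2) (Fin 2) ℚ_[p]) * Θ.map (↑) =
        !![rp, 0; 0, -rp] * ((hp⁻¹ * g.2 : SL(2, ℚ_[p])) : Matrix (Fin 2) (Fin 2) ℚ_[p]) →
      Rot p (a + b * th D) g V → ∀ i : ℕ, V ^ i * (hp * (aP p i).2 * hp⁻¹)⁻¹ ∈ KN p N ∧
        Bd ((p : ℝ) ^ (2 * c + i)) ((V ^ i : SL(2, ℚ_[p])) : Matrix (Fin 2) (Fin 2) ℚ_[p]))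
    {σ : ℂ ≃+* ℂ} (hR : ∀ (g : GG p) (V : SL(2, ℚ_[p])), DiscL (latG p g) D →
      Rot p (a + b * th D) g V → (∀ i ≤ M, Bd ((p : ℝ) ^ (2 * c + M))
        ((V ^ i : SL(2, ℚ_[p])) : Matrix (Fin 2) (Fin 2) ℚ_[p])) →
      ∀ f ∈ MF N F, σ (f (pt p N g)) = f (pt p N ((1, V ^ M) * g)))
    {t : ℍ} (ht : jInv t = j3 p q (iP p q hp • y)) :
    ∃ (xt : XN p N) (κ : SL(2, ℚ_[p])), κ ∈ Kp p ∧ cov p N xt = pi3 p q y ∧ ∀ i, ∀ f ∈ MF N F,
      f (ptX p N (((1, κ * hp) : GG p) • aP p (M * i) • xt)) = (σ ^ i) (f t) := by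
  obtain ⟨g, Θ, -, g2, g3, g4, g5⟩ := hcf.frame hpq
  have h1 : jInv t = piX p (g : XX p) := by
    rw [ht, j3, pi3_smul p q (g := iP p q hp) (Kp q).one_mem, g2]
    rfl
  obtain ⟨γ, hγ, κ, hκ, δ, hδ, e⟩ := exists_lift hN g h1
  obtain ⟨V, hV⟩ := exists_rot (p := p) (g := g) hD g4 hab
  have h2 := hmv g Θ V g4 g5 hV
  have hp1 : (1 : ℝ) ≤ p := by exact_mod_cast (Fact.out : p.Prime).one_lt.le
  refine ⟨((1, hp⁻¹) : GG p) • ((g * γ : GG p) : XN p N), κ, hκ, ?_, fun i f hf => ?_⟩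
  · have e1 : ((g * γ : GG p) : XX p) = (g : XX p) :=
      QuotientGroup.mk_mul_of_mem g hγ
    have e2 : ((1, hp⁻¹) : GG p) * (1, hp) = 1 := Prod.ext (one_mul _) (inv_mul_cancel _)
    rw [cov_smul, cov_mk, e1, g2, ← mul_smul, e2, one_smul]
  · have h3 : DiscL (latG p ((1, κ) * (g * γ))) D := by
      rw [latG_left hκ, latG_mul_Gam p g hγ]
      exact g3
    have h4 := vh2_iter (N := N) (M := M) (F := F) (σ := σ) (fun g' d r => hR g' _ d r fun l hl => by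
      rw [conj_pow, Matrix.SpecialLinearGroup.coe_mul, Matrix.SpecialLinearGroup.coe_mul]
      exact Bd.K (fun a b => ((h2 l).2 a b).trans (pow_le_pow_right₀ hp1 (by omega))) hκ
        ((Kp p).inv_mem hκ)) h3 (vh2_inK hD hab) ((hV.right hγ).left κ) i f hf
    have e3 : ((1, (κ * V * κ⁻¹) ^ (M * i)) * ((1, κ) * (g * γ)) : GG p) =
        (1, κ * (V ^ (M * i) * (hp * (aP p (M * i)).2 * hp⁻¹)⁻¹) * κ⁻¹) *
          ((1, κ * hp) * (aP p (M * i) * (1, hp⁻¹)) * (g * γ)) := by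
      refine Prod.ext (by simp [aP]) ?_
      simp only [Prod.snd_mul, conj_pow]
      group
    rw [e, MF.inv hf hδ, e3, ← ptX_smul, GInv.ptX_K hN hf.1 (KN_conj (h2 _).1 hκ)] at h4
    rw [h4, ← mul_smul, ← mul_smul, mul_assoc]
    rfl

variable (p q)

theorem exists_fdN {N : ℕ} (hN : 0 < N) (hpq : p ≠ q) (h2 : p ≠ 2) (h2' : q ≠ 2)
    (F : IntermediateField ℚ ℂ) [FiniteDimensional ℚ F] (n c : ℕ) :
    ∃ (M : ℕ) (T : Finset SL(2, ℚ_[p])) (T' : Finset SL(2, ℚ_[q])) (B : ℝ), 0 < M ∧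
      (∀ h ∈ T, Bd ((p : ℝ) ^ c) (h : Matrix (Fin 2) (Fin 2) ℚ_[p])) ∧
      ∀ (τ : Fin n → ℍ) (D : Fin n → ℤ) (j : Fin n) (J : Finset (Fin n)),
        (∀ k, HasDisc (τ k) (D k)) → j ∈ J → ∃ ρ rp rq x hp hq σ xt a σ',
          (∀ z v k, a z v k ∈ Kp p) ∧ ((∀ k, D k < -576) →
          (∀ k ∈ J, IsSquare (D k * D j) ∧ (∃ κ ≤ c, Spl p κ (D k)) ∧ (∃ κ ≤ c, Spl q κ (D k)) ∧
            B ≤ -(D k : ℝ)) →
          FD p q F (fun k => jInv (τ k)) D j J M T T' ρ rp rq x hp hq σ ∧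
            FDN p q N F (ON N F τ) D j J M x hp hq xt a σ') := by
  classical
  obtain ⟨M₀, T, T', hM₀, hT, hfd⟩ := exists_fd2 hpq h2 h2' F n c
  obtain ⟨MR, B₁, hMR, hrec⟩ := rec_main p hN F n
  obtain ⟨m, hm, hfix⟩ := fix_pow hN
  obtain ⟨m', hmv⟩ := move_D p hN c
  refine ⟨M₀ * (MR * m), T, T', (p : ℝ) ^ (2 * (2 * c + MR)) * |B₁|, by positivity, hT,
    fun τ D j J h hj => ?_⟩
  obtain ⟨ρ, rp', rq, x, hp, hq, s, s', H⟩ := hfd τ D j J h hj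
  by_cases H₁ : (∀ k, D k < -576) ∧ ∀ k ∈ J, IsSquare (D k * D j) ∧ (∃ κ ≤ c, Spl p κ (D k)) ∧
    (∃ κ ≤ c, Spl q κ (D k)) ∧ (p : ℝ) ^ (2 * (2 * c + MR)) * |B₁| ≤ -(D k : ℝ)
  swap
  · exact ⟨ρ, rp', rq, x, hp, hq, fun _ => s, fun _ _ _ => ((1 : GG p) : XN p N), fun _ _ _ => 1,
      fun _ => s, fun _ _ _ => (Kp p).one_mem, fun h₁ h₂ => absurd ⟨h₁, h₂⟩ H₁⟩
  obtain ⟨hD, hJ⟩ := H₁
  have hneg : ∀ k, D k < 0 := fun k => by linarith [hD k]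
  have H₀ := H hD fun k hk => ⟨(hJ k hk).1, (hJ k hk).2.1, (hJ k hk).2.2.1⟩
  have H₂ := H₀.scale (MR * m)
  have hr : rp' j ^ 2 = D j :=
    ((H₀.cf _ (galO_self F fun k => jInv (τ k)) (0, 0) ⟨j, hj⟩).1.sq (hneg j).le).1
  obtain ⟨a, b, hab, hab'⟩ := root_D p h2 (hneg j) hr m'
  have hcard : (Finset.univ.image D).card ≤ n := Finset.card_image_le.trans (by simp)
  have hall : ∀ D' ∈ Finset.univ.image D, D' < -576 ∧ IsD D' := fun D' hD' => by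
    obtain ⟨k, -, rfl⟩ := Finset.mem_image.1 hD'
    exact ⟨hD k, (h k).isD⟩
  have hmem : ∀ k, D k ∈ Finset.univ.image D := fun k =>
    Finset.mem_image_of_mem _ (Finset.mem_univ k)
  obtain ⟨σ, hσ, hσ1, hσ2⟩ := hrec _ hcard hall (D j) (hmem j) _ (vh2_inK (hneg j) hab)
  have e01 : s ^ (0, 1).1 * s' ^ (0, 1).2 = s' := by simp
  have hs' : ∀ a ∈ F, s' a = a := fun a ha => by
    have := H₀.fix (0, 1) a ha
    rwa [e01] at this
  have key : ∀ (z : Fin n × Fn → ℂ) (v : ℕ) (k : J), ∃ (xt : XN p N) (κ : SL(2, ℚ_[p])),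
      κ ∈ Kp p ∧ (z ∈ ON N F τ → cov p N xt =
        pi3 p q (yy p q (M₀ * (MR * m)) (hq (pj z)) (x (pj z)) (0, v) k) ∧ ∀ i, ∀ f ∈ MF N F,
        f (ptX p N (((1, κ * hp (pj z) k) : GG p) • aP p (MR * i) • xt)) =
          (σ ^ i) (((s' ^ m) ^ (MR * v)) (z (k, f)))) := by
    intro z v k
    by_cases hz : z ∈ ON N F τ
    swap
    · exact ⟨((1 : GG p) : XN p N), 1, (Kp p).one_mem, fun h' => absurd h' hz⟩
    have hz1 := (mem_ON hN h).1 hz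
    have hz2 := pj_mem hN hz1
    have hz3 := galO_map hz1 (σ := (s' ^ m) ^ (MR * v)) fun a ha =>
      umd_pow (umd_pow (hs' a ha) m) _
    obtain ⟨ρ0, ρ1, ρ2⟩ := H₀.rat k k.2
    have e1 : ((a : ℂ) + ((b * ρ k : ℚ) : ℂ) * th (D k)) = a + b * th (D j) := by
      rw [vh2_th ρ0 ρ1]
      push_cast
      ring
    have e2 : ((b * ρ k : ℚ) : ℚ_[p]) * rp' k = b * rp' j := by
      rw [← ρ2]
      push_cast
      ring
    have e3 : s ^ (MR * m * 0) * s' ^ (MR * m * v) = (s' ^ m) ^ (MR * v) := by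
      rw [mul_zero, pow_zero, one_mul, ← pow_mul, mul_left_comm, mul_assoc]
    obtain ⟨xt, κ, k1, k2, k3⟩ := vh2_loc (c := c) (M := MR) (F := F) (σ := σ) hN hpq (hneg k)
      (H₂.cf _ hz2 (0, v) k) (a := a) (b := b * ρ k) (by rw [mul_pow, mul_assoc, ρ1, hab])
      (fun g Θ V g1 g2 g3 => hmv (D k) g Θ (rp' k) _ V a _ (hT _ (H₀.mem _ hz2 k).1) g1 g2 g3
        (by rw [e2]; exact hab'))
      (fun g V g1 g2 g3 => hσ2 _ (hmem k) (hJ k k.2).1 g V _ g1 (e1 ▸ g2) g3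
        ((mul_le_mul_of_nonneg_left (le_abs_self B₁) (by positivity)).trans (hJ k k.2).2.2.2))
      (t := rp (MF N F) (fun a => ((s' ^ m) ^ (MR * v)) (z a)) k) (by
        rw [rp_val hN hz3 k (MF.j hN), H₂.pi _ hz2 (0, v) k, ← e3]
        rfl)
    exact ⟨xt, κ, k1, fun _ => ⟨k2, fun i f hf => by rw [k3 i f hf, rp_val hN hz3 k hf]⟩⟩
  choose xt κ hκ hx using key
  refine ⟨ρ, rp', rq, x, hp, hq, _, xt, κ,
    fun u => σ ^ (M₀ * m * u.1) * (s' ^ m) ^ (MR * u.2), hκ, fun _ _ => ⟨H₂, ?_, ?_, ?_, ?_⟩⟩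
  · exact fun u a ha => umd_pow2 (hσ a ha) (umd_pow (hs' a ha) m) _ _
  · exact fun z hz v => funext fun k => (hx z v k hz).1
  · intro z hz u k f hf
    have e : M₀ * (MR * m) * u.1 = MR * (M₀ * m * u.1) := by ring
    rw [e]
    exact (hx z u.2 k hz).2 _ f hf
  · intro z hz u k hk f
    have hz1 := (mem_ON hN h).1 hz
    by_cases hf : f ∈ MF N F
    · have h3 := H₀.out _ (pj_mem hN hz1) (0, 1) k hk
      rw [e01] at h3
      rw [← rp_val hN hz1 k hf]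
      refine umd_pow2 (hσ1 _ (hmem k) hk _ (rp_disc hN h hz1 (hD k)) f hf)
        (hfix F s' hs' _ ?_ f hf) _ _
      rw [rp_val hN hz1 k (MF.j hN)]
      exact h3
    · have h3 : z (k, f) = 0 := by
        rw [← evs_rp hN hz1]
        exact ev_of_not hf _
      rw [h3, map_zero]

end Pool.Agent.EQ
end
end

-- part Pool.Agent.P.MP_ad7a55_nt.YSc
section

/-! Tightness for orders of large conductor. -/

set_option autoImplicit false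

noncomputable section

open MeasureTheory Topology Filter UpperHalfPlane Finset
open scoped MatrixGroups BoundedContinuousFunction Matrix Classical

namespace Pool.Agent.EQ

theorem exists_P : ∃ Y : ℝ, ∀ D : ℤ, Y ≤ -(D : ℝ) → ∃ P : ℕ, 0 < P ∧ 2 ∣ P ∧
    (∀ l : ℕ, l.Prime → l ∣ P → (l : ℤ) ∣ 2 * D) ∧ (P : ℝ) ^ 50 ≤ -(D : ℝ) ∧
    ∑ l ∈ (4 * D.natAbs).primeFactors with ¬ l ∣ P, 1 / (l : ℝ) ≤ 1000 := by
  refine ⟨Real.exp 200, fun D hD => ?_⟩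
  have hx : 0 < -(D : ℝ) := (Real.exp_pos _).trans_le hD
  have hD0 : D < 0 := by
    have : (D : ℝ) < 0 := by linarith
    exact_mod_cast this
  have hlog : 200 ≤ Real.log (-(D : ℝ)) := (Real.le_log_iff_exp_le hx).2 hD
  obtain ⟨z, hz⟩ : ∃ z : ℝ, z = Real.log (-(D : ℝ)) / 100 := ⟨_, rfl⟩
  have hz2 : 2 ≤ z := by rw [hz]; linarith
  have hn : 4 * D.natAbs ≠ 0 := by have := Int.natAbs_pos.2 hD0.ne; omega
  obtain ⟨S, hS⟩ : ∃ S : Finset ℕ,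
      S = (4 * D.natAbs).primeFactors.filter (fun l : ℕ => (l : ℝ) ≤ z) := ⟨_, rfl⟩
  have hSm : ∀ l, l ∈ S ↔ l ∈ (4 * D.natAbs).primeFactors ∧ (l : ℝ) ≤ z := fun l => by
    rw [hS, mem_filter]
  have hSp : ∀ l ∈ S, l.Prime := fun l hl => Nat.prime_of_mem_primeFactors ((hSm l).1 hl).1
  refine ⟨∏ l ∈ S, l, prod_pos fun l hl => (hSp l hl).pos, ?_, fun l hl h => ?_, ?_, ?_⟩
  · refine dvd_prod_of_mem _ ((hSm 2).2 ⟨?_, by exact_mod_cast hz2⟩)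
    exact Nat.mem_primeFactors.2 ⟨Nat.prime_two, Dvd.dvd.mul_right (by norm_num) _, hn⟩
  · obtain ⟨l', hl', h'⟩ := (Prime.dvd_finsetProd_iff hl.prime _).1 h
    have e := (Nat.prime_dvd_prime_iff_eq hl (hSp l' hl')).1 h'
    subst e
    have h1 := Nat.dvd_of_mem_primeFactors ((hSm l).1 hl').1
    rcases (Nat.Prime.dvd_mul hl).1 h1 with h2 | h2
    · have h3 : l ∣ 2 := hl.dvd_of_dvd_pow (n := 2) (by simpa using h2)
      exact Dvd.dvd.mul_right (by exact_mod_cast h3) _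
    · exact Dvd.dvd.mul_left (Int.natCast_dvd.2 h2) _
  · have h1 : ∏ l ∈ S, l ≤ primorial ⌊z⌋₊ := by
      refine prod_le_prod_of_subset_of_one_le' (fun l hl => ?_) fun l hl _ => ?_
      · exact mem_filter.2 ⟨mem_range.2 (Nat.lt_succ_of_le (Nat.le_floor ((hSm l).1 hl).2)),
          hSp l hl⟩
      · exact (mem_filter.1 hl).2.one_le
    have h2 : ((∏ l ∈ S, l : ℕ) : ℝ) ≤ 4 ^ ⌊z⌋₊ := by
      exact_mod_cast h1.trans (primorial_le_four_pow _)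
    have h4 : (4 : ℝ) ≤ Real.exp 2 := by
      have := Real.add_one_le_exp (1 : ℝ)
      rw [show (2 : ℝ) = 1 + 1 by norm_num, Real.exp_add]
      nlinarith
    have h3 : (4 : ℝ) ^ ⌊z⌋₊ ≤ Real.exp (2 * z) := by
      refine (pow_le_pow_left₀ (by norm_num) h4 _).trans ?_
      rw [← Real.exp_nat_mul]
      refine Real.exp_le_exp.2 ?_
      have := Nat.floor_le (a := z) (by linarith)
      linarith
    refine (pow_le_pow_left₀ (Nat.cast_nonneg _) (h2.trans h3) 50).trans (le_of_eq ?_)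
    rw [← Real.exp_nat_mul, ← Real.exp_log hx]
    congr 1
    rw [hz]
    push_cast
    ring
  · have h1 := sum_big_primeFactors (z := z) (by linarith) hn
    refine le_trans (sum_le_sum_of_subset_of_nonneg (fun l hl => ?_) fun l _ _ => by positivity)
      (h1.trans ?_)
    · rw [mem_filter] at hl ⊢
      exact ⟨hl.1, not_le.1 fun h => hl.2 (dvd_prod_of_mem _ ((hSm l).2 ⟨hl.1, h⟩))⟩
    · rw [div_le_iff₀ (by linarith), Nat.cast_mul, tti_abs hD0,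
        Real.log_mul (by norm_num) hx.ne', hz]
      have := Real.log_le_sub_one_of_pos (x := ((4 : ℕ) : ℝ)) (by norm_num)
      push_cast at this ⊢
      linarith

theorem ysc_swap (u v : ℕ → ℝ) (N : ℕ) :
    ∑ n ∈ Icc 1 N, ∑ x ∈ n.divisorsAntidiagonal, u x.1 * v x.2 =
      ∑ a ∈ Icc 1 N, u a * ∑ b ∈ Icc 1 (N / a), v b := by
  have h := ArithmeticFunction.sum_Ioc_mul_eq_sum_sum
    (⟨fun n => if n = 0 then 0 else u n, by simp⟩ : ArithmeticFunction ℝ)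
    (⟨fun n => if n = 0 then 0 else v n, by simp⟩ : ArithmeticFunction ℝ) N
  have e : ∀ M : ℕ, Ioc 0 M = Icc 1 M := fun M => by
    ext a
    simp only [mem_Ioc, mem_Icc]
    omega
  simp only [e, ArithmeticFunction.mul_apply, ArithmeticFunction.coe_mk] at h
  refine Eq.trans (sum_congr rfl fun n _ => sum_congr rfl fun x hx => ?_)
    (h.trans (sum_congr rfl fun a ha => ?_))
  · obtain ⟨h1, h2⟩ := Nat.ne_zero_of_mem_divisorsAntidiagonal hx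
    rw [if_neg h1, if_neg h2]
  · rw [if_neg (by have := (mem_Icc.1 ha).1; omega)]
    congr 1
    exact sum_congr rfl fun b hb => if_neg (by have := (mem_Icc.1 hb).1; omega)

theorem ysc_rho {n P : ℕ} (hP : 0 < P) {B : ℝ}
    (h : ∑ l ∈ n.primeFactors with ¬ l ∣ P, 1 / (l : ℝ) ≤ B) :
    (∏ l ∈ P.primeFactors, (1 - 1 / (l : ℝ))) * Real.exp (∑ l ∈ n.primeFactors, 1 / (l : ℝ)) ≤
      Real.exp B := by
  have h1 : ∏ l ∈ P.primeFactors, (1 - 1 / (l : ℝ)) ≤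
      Real.exp (-∑ l ∈ P.primeFactors, 1 / (l : ℝ)) := by
    rw [← sum_neg_distrib, Real.exp_sum]
    refine prod_le_prod (fun l hl => ?_) fun l _ => ?_
    · have : (1 : ℝ) ≤ l := by exact_mod_cast (Nat.prime_of_mem_primeFactors hl).one_le
      have := (div_le_one (by linarith : (0 : ℝ) < l)).2 this
      linarith
    · have := Real.add_one_le_exp (-(1 / (l : ℝ)))
      linarith
  have h2 : ∑ l ∈ n.primeFactors with l ∣ P, 1 / (l : ℝ) ≤ ∑ l ∈ P.primeFactors, 1 / (l : ℝ) := by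
    refine sum_le_sum_of_subset_of_nonneg (fun l hl => ?_) fun l _ _ => by positivity
    rw [mem_filter] at hl
    exact Nat.mem_primeFactors.2 ⟨Nat.prime_of_mem_primeFactors hl.1, hl.2, hP.ne'⟩
  have h3 := sum_filter_add_sum_filter_not n.primeFactors (fun l => l ∣ P) fun l => 1 / (l : ℝ)
  refine (mul_le_mul_of_nonneg_right h1 (Real.exp_pos _).le).trans ?_
  rw [← Real.exp_add]
  exact Real.exp_le_exp.2 (by linarith)

theorem ysc_one {q P L ρ : ℝ} {N a : ℕ} (hq : 1 ≤ q) (hP : 0 ≤ P) (hL0 : 0 ≤ L) (hL : L ≤ 3 * q)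
    (hρ : 0 ≤ ρ) (ha : 1 ≤ a) (haN : a ≤ N) :
    L * ρ * ((N / a : ℕ) : ℝ) + P * (|L| + 20 * Real.sqrt (q * ((N / a : ℕ) : ℝ))) ≤
      L * ρ * N * (1 / a) + 23 * P * q * (N : ℝ) ^ (3 / 4 : ℝ) * (1 / (a : ℝ) ^ (3 / 4 : ℝ)) := by
  have ha0 : (0 : ℝ) < a := by exact_mod_cast ha
  have h1 : ((N / a : ℕ) : ℝ) ≤ (N : ℝ) / a := Nat.cast_div_le
  have h2 : (1 : ℝ) ≤ (N : ℝ) / a := by
    rw [le_div_iff₀ ha0, one_mul]
    exact_mod_cast haN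
  obtain ⟨w, hw⟩ : ∃ w : ℝ, w = ((N : ℝ) / a) ^ (3 / 4 : ℝ) := ⟨_, rfl⟩
  have hw1 : 1 ≤ w := by rw [hw]; exact Real.one_le_rpow h2 (by norm_num)
  have h3 : Real.sqrt ((N : ℝ) / a) ≤ w := by
    rw [hw, Real.sqrt_eq_rpow]
    exact Real.rpow_le_rpow_of_exponent_le h2 (by norm_num)
  have h4 : Real.sqrt q ≤ q := by
    rw [Real.sqrt_le_left (by linarith)]
    nlinarith
  have h5 : Real.sqrt (q * ((N / a : ℕ) : ℝ)) ≤ q * w := by
    rw [Real.sqrt_mul (by linarith)]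
    exact mul_le_mul h4 ((Real.sqrt_le_sqrt h1).trans h3) (Real.sqrt_nonneg _) (by linarith)
  have h6 : (N : ℝ) ^ (3 / 4 : ℝ) * (1 / (a : ℝ) ^ (3 / 4 : ℝ)) = w := by
    rw [hw, Real.div_rpow (Nat.cast_nonneg _) ha0.le, mul_one_div]
  rw [mul_assoc (23 * P * q), h6, abs_of_nonneg hL0, mul_assoc (L * ρ), mul_one_div]
  have h7 : L + 20 * Real.sqrt (q * ((N / a : ℕ) : ℝ)) ≤ 23 * q * w := by nlinarith
  have h8 := mul_le_mul_of_nonneg_left h7 hP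
  have h9 := mul_le_mul_of_nonneg_left h1 (mul_nonneg hL0 hρ)
  nlinarith

theorem ysc_err {A c t : ℝ} (hA : 0 < A) (hc : 0 < c) (ht : 0 < t) : ∃ Y : ℝ, ∀ x P e N W : ℝ,
    Y ≤ x → 0 ≤ P → 0 ≤ e → 0 ≤ N → P ^ 50 ≤ x → e ^ 50 ≤ x → N ≤ t * Real.sqrt x →
    W ≤ A * (4 * x) ^ (1 / 100 : ℝ) →
    23 * P * (4 * (P ^ 2 * e)) * N ^ (3 / 4 : ℝ) * W ≤ t * (c * x ^ (1 / 2 - 1 / 100 : ℝ)) := by
  obtain ⟨B, hB⟩ : ∃ B : ℝ, B = max 1 (368 * A * t ^ (3 / 4 : ℝ) / (t * c)) := ⟨_, rfl⟩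
  have hB1 : 1 ≤ B := by rw [hB]; exact le_max_left _ _
  have hB2 : 368 * A * t ^ (3 / 4 : ℝ) ≤ B * (t * c) := by
    rw [← div_le_iff₀ (by positivity), hB]
    exact le_max_right _ _
  refine ⟨B ^ 200, fun x P e N W hx hP he hN hPx hex hNx hW => ?_⟩
  have hx1 : 1 ≤ x := (one_le_pow₀ hB1).trans hx
  obtain ⟨y, hy⟩ : ∃ y : ℝ, y = x ^ (1 / 200 : ℝ) := ⟨_, rfl⟩
  have hy0 : 0 ≤ y := by rw [hy]; positivity
  have hp : ∀ k : ℕ, y ^ k = x ^ ((k : ℝ) / 200) := fun k => by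
    rw [hy, ← Real.rpow_natCast, ← Real.rpow_mul (by linarith)]
    congr 1
    ring
  have h200 : y ^ 200 = x := by
    rw [hp]
    norm_num
  have hBy : B ≤ y := by
    refine le_of_pow_le_pow_left₀ (n := 200) (by norm_num) hy0 ?_
    rw [h200]
    exact hx
  have hy1 : 1 ≤ y := hB1.trans hBy
  have h4 : ∀ s : ℝ, s ^ 50 ≤ x → s ≤ y ^ 4 := fun s hs => by
    refine le_of_pow_le_pow_left₀ (n := 50) (by norm_num) (by positivity) ?_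
    rw [← pow_mul]
    exact hs.trans_eq h200.symm
  have hP4 := h4 P hPx
  have he4 := h4 e hex
  have h75 : N ^ (3 / 4 : ℝ) ≤ t ^ (3 / 4 : ℝ) * y ^ 75 := by
    refine (Real.rpow_le_rpow hN hNx (by norm_num)).trans (le_of_eq ?_)
    rw [Real.mul_rpow ht.le (Real.sqrt_nonneg _), Real.sqrt_eq_rpow,
      ← Real.rpow_mul (by linarith), hp]
    norm_num
  have h2 : W ≤ 4 * A * y ^ 2 := by
    refine hW.trans ?_
    rw [Real.mul_rpow (by norm_num) (by linarith), hp]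
    have h5 : (4 : ℝ) ^ (1 / 100 : ℝ) ≤ 4 := by
      have := Real.rpow_le_rpow_of_exponent_le (x := (4 : ℝ)) (by norm_num)
        (show (1 / 100 : ℝ) ≤ 1 by norm_num)
      rwa [Real.rpow_one] at this
    have h6 : (((2 : ℕ) : ℝ) / 200) = 1 / 100 := by norm_num
    rw [h6]
    have h7 : 0 ≤ A * x ^ (1 / 100 : ℝ) := by positivity
    nlinarith
  have h98 : x ^ (1 / 2 - 1 / 100 : ℝ) = y ^ 98 := by
    rw [hp]
    norm_num
  rw [h98]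
  have hN0 : 0 ≤ N ^ (3 / 4 : ℝ) := by positivity
  have h5 : y ≤ y ^ 5 := le_self_pow₀ hy1 (by norm_num)
  calc 23 * P * (4 * (P ^ 2 * e)) * N ^ (3 / 4 : ℝ) * W
      ≤ 23 * P * (4 * (P ^ 2 * e)) * N ^ (3 / 4 : ℝ) * (4 * A * y ^ 2) :=
        mul_le_mul_of_nonneg_left h2 (by positivity)
    _ ≤ 23 * y ^ 4 * (4 * ((y ^ 4) ^ 2 * y ^ 4)) * (t ^ (3 / 4 : ℝ) * y ^ 75) *
        (4 * A * y ^ 2) := by gcongr
    _ = 368 * A * t ^ (3 / 4 : ℝ) * y ^ 93 := by ring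
    _ ≤ y ^ 5 * (t * c) * y ^ 93 := by
        refine mul_le_mul_of_nonneg_right (hB2.trans ?_) (by positivity)
        exact mul_le_mul_of_nonneg_right (hBy.trans h5) (by positivity)
    _ = _ := by ring

theorem ysc_pow {K : ℝ} (hK : 1 ≤ K) (n : ℕ) :
    K ^ #n.primeFactors ≤ ∏ l ∈ n.primeFactors, (K * (n.factorization l + 1) ^ 3) := by
  rw [← prod_const]
  refine prod_le_prod (fun _ _ => by linarith) fun l _ => ?_
  refine le_mul_of_one_le_right (by linarith) (one_le_pow₀ ?_)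
  have : (0 : ℝ) ≤ n.factorization l := Nat.cast_nonneg _
  linarith

theorem sh_large : ∃ K : ℝ, 0 < K ∧ ∀ t : ℝ, 0 < t → ∃ Y : ℝ, ∀ d g : ℤ, IsD (g ^ 2 * d) →
    Y ≤ -((g ^ 2 * d : ℤ) : ℝ) → (d.natAbs : ℝ) ^ 50 ≤ -((g ^ 2 * d : ℤ) : ℝ) →
    ((Sh (g ^ 2 * d) t 1).ncard : ℝ) ≤ K * t * (Cl (g ^ 2 * d)).ncard := by
  obtain ⟨K, hK, HK⟩ := idl_major
  obtain ⟨C, hC, HC⟩ := L_compare
  obtain ⟨Y₀, HP⟩ := exists_P
  obtain ⟨A, hA, HA⟩ := omega_bound K (ε := 1 / 100) (by norm_num)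
  obtain ⟨c, hc, Hc⟩ := class_lower (ε := 1 / 100) (by norm_num)
  have hK0 : 0 < K := by linarith
  refine ⟨K * (K * C * Real.exp 1000 * 1200 + 1), by positivity, fun t ht => ?_⟩
  obtain ⟨Y₁, HY⟩ := ysc_err hA hc ht
  refine ⟨max Y₀ Y₁, fun d g hD hY hd => ?_⟩
  obtain ⟨P, hP, h2, hPl, hPx, hPs⟩ := HP _ ((le_max_left _ _).trans hY)
  obtain ⟨u, hu, Hu, HI⟩ := HK _ hD
  have hd0 : d < 0 := by
    by_contra h
    exact absurd hD.1 (not_lt.2 (mul_nonneg (sq_nonneg g) (not_lt.1 h)))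
  have hE : (P : ℤ) ^ 2 * d < 0 := mul_neg_of_pos_of_neg (by positivity) hd0
  have hn : 4 * (g ^ 2 * d).natAbs ≠ 0 := by have := Int.natAbs_pos.2 hD.1.ne; omega
  have hq : 4 * ((P : ℤ) ^ 2 * d).natAbs ≠ 0 := by have := Int.natAbs_pos.2 hE.ne; omega
  have i1 : NeZero (4 * (g ^ 2 * d).natAbs) := ⟨hn⟩
  have i2 : NeZero (4 * ((P : ℤ) ^ 2 * d).natAbs) := ⟨hq⟩
  have hrc := rc_jc (Δ := (P : ℤ) ^ 2 * d) fun h => absurd hE (not_lt.2 h.nonneg)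
  have hL := exists_L_jc hE
  have hLC := HC d g P hd0 hPl hPs
  have hcl := class_ge hD
  obtain ⟨L, hLd⟩ : ∃ L : ℝ, L = ‖(sgeChi ((P : ℤ) ^ 2 * d)).LFunction 1‖ := ⟨_, rfl⟩
  obtain ⟨L', hL'⟩ : ∃ L : ℝ, L = ‖(sgeChi (g ^ 2 * d)).LFunction 1‖ := ⟨_, rfl⟩
  rw [← hLd] at hL hLC
  rw [← hL'] at hLC hcl
  have hL0 : 0 ≤ L := by rw [hLd]; exact norm_nonneg _
  have hcop := cop_sum hrc hL hP
  have hrho := ysc_rho hP hPs
  have hρ0 : 0 ≤ ∏ l ∈ P.primeFactors, (1 - 1 / (l : ℝ)) := prod_nonneg fun l hl => by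
    have : (1 : ℝ) ≤ l := by exact_mod_cast (Nat.prime_of_mem_primeFactors hl).one_le
    have := (div_le_one (by linarith : (0 : ℝ) < l)).2 this
    linarith
  have hqe : ((4 * ((P : ℤ) ^ 2 * d).natAbs : ℕ) : ℝ) = 4 * ((P : ℝ) ^ 2 * d.natAbs) := by
    rw [Int.natAbs_mul, Int.natAbs_pow, Int.natAbs_natCast]
    push_cast
    ring
  have hq1 : (1 : ℝ) ≤ (4 * ((P : ℤ) ^ 2 * d).natAbs : ℕ) := by
    exact_mod_cast Nat.pos_of_ne_zero hq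
  have hL3 : L ≤ 3 * (4 * ((P : ℤ) ^ 2 * d).natAbs : ℕ) := by
    have h1 := hL 1 one_pos
    rw [Icc_self, sum_singleton, hrc.one, Nat.cast_one, div_one, div_one] at h1
    have := (abs_le.1 h1).1
    linarith
  obtain ⟨ρ, hρ⟩ : ∃ ρ : ℝ, ρ = ∏ l ∈ P.primeFactors, (1 - 1 / (l : ℝ)) := ⟨_, rfl⟩
  rw [← hρ] at hcop hrho hρ0
  obtain ⟨q, hqd⟩ : ∃ q : ℝ, q = (4 * ((P : ℤ) ^ 2 * d).natAbs : ℕ) := ⟨_, rfl⟩
  rw [← hqd] at hcop hqe hq1 hL3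
  have hsum := tti_sum (g ^ 2 * d) t 1
  obtain ⟨N, hN⟩ : ∃ N : ℕ, N = ⌊t * Real.sqrt (-((g ^ 2 * d : ℤ) : ℝ))⌋₊ := ⟨_, rfl⟩
  have hNx : (N : ℝ) ≤ t * Real.sqrt (-((g ^ 2 * d : ℤ) : ℝ)) := by
    rw [hN]
    exact Nat.floor_le (by positivity)
  rw [← hN, filter_true_of_mem fun n _ => one_dvd n] at hsum
  obtain ⟨hu1, hu2⟩ := Hu N
  have hW : K ^ #(4 * (g ^ 2 * d).natAbs).primeFactors ≤
      A * (4 * -((g ^ 2 * d : ℤ) : ℝ)) ^ (1 / 100 : ℝ) := by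
    refine (ysc_pow hK _).trans ((HA _ hn).trans_eq ?_)
    rw [Nat.cast_mul, tti_abs hD.1, Nat.cast_ofNat]
  have herr := (HY _ P d.natAbs N _ ((le_max_right _ _).trans hY) (Nat.cast_nonneg _)
    (Nat.cast_nonneg _) (Nat.cast_nonneg _) hPx hd hNx hW).trans
    (mul_le_mul_of_nonneg_left (Hc _ hD) ht.le)
  rw [← hqe] at herr
  have a1 : ∑ n ∈ Icc 1 N, ((Idl (g ^ 2 * d) n).ncard : ℝ) ≤
      K * ∑ a ∈ Icc 1 N, u a * ∑ b ∈ Icc 1 (N / a), vv P (jc ((P : ℤ) ^ 2 * d)) b := by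
    rw [← ysc_swap, mul_sum]
    exact sum_le_sum fun n hn => HI d g P rfl hP h2 hPl n (mem_Icc.1 hn).1
  have a2 : ∑ a ∈ Icc 1 N, u a * ∑ b ∈ Icc 1 (N / a), vv P (jc ((P : ℤ) ^ 2 * d)) b ≤
      L * ρ * N * ∑ a ∈ Icc 1 N, u a / a +
        23 * P * q * (N : ℝ) ^ (3 / 4 : ℝ) * ∑ a ∈ Icc 1 N, u a / (a : ℝ) ^ (3 / 4 : ℝ) := by
    rw [mul_sum, mul_sum, ← sum_add_distrib]
    refine sum_le_sum fun a ha => ?_
    have h1 := (hcop (N / a)).trans (ysc_one hq1 (Nat.cast_nonneg P) hL0 hL3 hρ0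
      (mem_Icc.1 ha).1 (mem_Icc.1 ha).2)
    refine (mul_le_mul_of_nonneg_left h1 (hu a)).trans (le_of_eq ?_)
    ring
  have a3 : L * ρ * N * ∑ a ∈ Icc 1 N, u a / a ≤
      K * C * Real.exp 1000 * 1200 * t * (Cl (g ^ 2 * d)).ncard := by
    have hL'0 : 0 ≤ L' := by rw [hL']; exact norm_nonneg _
    calc L * ρ * N * ∑ a ∈ Icc 1 N, u a / a
        ≤ L * ρ * N * (K * Real.exp (∑ l ∈ (4 * (g ^ 2 * d).natAbs).primeFactors, 1 / (l : ℝ))) :=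
          mul_le_mul_of_nonneg_left hu1 (by positivity)
      _ = K * L * N * (ρ * Real.exp (∑ l ∈ (4 * (g ^ 2 * d).natAbs).primeFactors, 1 / (l : ℝ))) := by
          ring
      _ ≤ K * (C * L') * (t * Real.sqrt (-((g ^ 2 * d : ℤ) : ℝ))) * Real.exp 1000 := by gcongr
      _ = K * C * Real.exp 1000 * t * (Real.sqrt (-((g ^ 2 * d : ℤ) : ℝ)) * L') := by ring
      _ ≤ K * C * Real.exp 1000 * t * (1200 * (Cl (g ^ 2 * d)).ncard) := by gcongr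
      _ = _ := by ring
  have a4 : 23 * P * q * (N : ℝ) ^ (3 / 4 : ℝ) * ∑ a ∈ Icc 1 N, u a / (a : ℝ) ^ (3 / 4 : ℝ) ≤
      t * (Cl (g ^ 2 * d)).ncard :=
    (mul_le_mul_of_nonneg_left hu2 (by positivity)).trans herr
  refine hsum.trans (a1.trans ((mul_le_mul_of_nonneg_left (a2.trans (add_le_add a3 a4))
    hK0.le).trans (le_of_eq ?_)))
  ring

theorem tg_large : ∃ Uf Yf : ℝ → ℝ, (∀ δ, 1 ≤ Uf δ) ∧ ∀ d g : ℤ,
    (d.natAbs : ℝ) ^ 50 ≤ -((g ^ 2 * d : ℤ) : ℝ) → Tg Uf Yf (g ^ 2 * d) := by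
  obtain ⟨K, hK, H⟩ := sh_large
  choose! Y HY using H
  have hF := tfc_rank ⊥
  obtain ⟨T, hT⟩ : ∃ T : ℝ → ℝ, ∀ δ, T δ =
      δ / (15 * Module.finrank ℚ (⊥ : IntermediateField ℚ ℂ) * (|(1 : ℝ)| + 1)) / K :=
    ⟨_, fun _ => rfl⟩
  refine ⟨fun δ => max 1 (1 / T δ), fun δ => max (Y (T δ)) 577, fun δ => le_max_left _ _,
    fun d g hd δ hδ hY n τ D hτ c hc => ?_⟩
  have ht : 0 < T δ := by rw [hT]; positivity
  have hD := (hτ c).isD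
  have h577 : (577 : ℝ) ≤ -(D c : ℝ) := by
    rw [hc]
    exact (le_max_right _ _).trans hY
  have h576 : D c < -576 := by
    have : (577 : ℤ) ≤ -D c := by exact_mod_cast h577
    omega
  have hS := HY _ ht d g (hc ▸ hD) ((le_max_left _ _).trans hY) hd
  rw [← hc] at hS
  have hcl : (0 : ℝ) < (Cl (D c)).ncard := by
    obtain ⟨c', hc', Hc⟩ := class_lower (ε := 1 / 100) (by norm_num)
    exact lt_of_lt_of_le (mul_pos hc' (Real.rpow_pos_of_pos (by linarith) _)) (Hc _ hD)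
  have a1 := tfc_fin (L := 1) (H := (Cl (D c)).ncard)
    (orbit_one ⊥ hτ c h576 (tti_finite (D c) (T δ) 1)) (hS.trans_eq (by
      rw [hT, mul_div_cancel₀ _ hK.ne'])) (one_mul _).ge hcl hcl.le hF (Nat.cast_nonneg _) hδ
  have hO := orbit_finite ⊥ hτ
  rw [← galO_eq, ← card_fO (galO _ _)] at a1
  unfold prb
  rw [div_le_iff₀ (by exact_mod_cast (Orb_ne hτ).card_pos)]
  refine le_trans ?_ a1
  rw [← Set.ncard_coe_finset, Nat.cast_le]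
  refine Set.ncard_le_ncard (fun z hz => ?_) (hO.subset fun z hz => hz.1)
  simp only [Finset.mem_coe, Finset.mem_filter] at hz
  refine ⟨(mem_fO hO).1 hz.1, ?_⟩
  have a2 : max 1 (1 / T δ) < (fr (z c)).im := not_le.1 fun h => hz.2 ⟨(fr_spec _).1, h⟩
  have a3 := (le_max_right _ _).trans a2.le
  rw [div_le_iff₀' ht] at a3
  have := mem_Sh_of_fd (Orb_disc hτ hz.1 h576) a3
  rwa [(fr_spec _).2] at this

end Pool.Agent.EQ
end
end
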