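import Pool.Agent.K.MP_ad7a55_nt.C69
import Pool.Agent.K.MP_ad7a55_nt.C44
import Pool.Agent.K.MP_ad7a55_nt.C72
import Pool.Agent.K.MP_ad7a55_nt.C71

-- part Pool.Agent.P.MP_ad7a55_nt.VBk
section

/-! Unipotent orbits on the covering space. -/

set_option autoImplicit false

noncomputable section

open MeasureTheory Topology Filter UpperHalfPlane
open scoped MatrixGroups ENNReal BoundedContinuousFunction

namespace Pool.Agent.EQ

variable {p : ℕ} [Fact p.Prime] {N : ℕ}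

instance vbk_prob {κ : Type} [Fintype κ] (d : κ → ℚ_[p]) (r : ℤ) (x : κ → XN p N) :
    IsProbabilityMeasure (orb (uflN p N d) r x) := instProborb _ _ _

theorem vbk_cont {κ : Type} (s : ℚ_[p]) :
    Continuous fun z : (κ → ℚ_[p]) × (κ → XN p N) => uflN p N z.1 s z.2 :=
  continuous_pi fun k =>
    ((continuous_uP p).comp (((continuous_apply k).comp continuous_fst).mul continuous_const)).smul
      ((continuous_apply k).comp continuous_snd)

theorem vbk_inv {κ : Type} [Fintype κ] {L : Filter ℕ} [L.NeBot] (x : ℕ → κ → XN p N)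
    (d : ℕ → κ → ℚ_[p]) (e : κ → ℚ_[p]) (hd : Tendsto d L (𝓝 e)) (r : ℕ → ℤ)
    (hr : Tendsto r L atTop) (ν : Measure (κ → XN p N)) [IsProbabilityMeasure ν]
    (hν : WT L (fun i => orb (uflN p N (d i)) (r i) (x i)) ν) : Inv (uflN p N e) ν := by
  intro s
  have hc : Continuous (uflN p N e s) := (uflN p N e).continuous continuous_const continuous_id
  refine WT.unique (μ := fun i => orb (uflN p N (d i)) (r i) (x i)) (L := L) ?_ hν
  intro g
  rw [integral_map hc.measurable.aemeasurable g.continuous.aestronglyMeasurable]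
  have h1 := hν.param hd (g.compContinuous ⟨_, vbk_cont s⟩)
  refine h1.congr' ?_
  filter_upwards [block_large p hr s] with i hi
  have hci : Continuous (uflN p N (d i) s) :=
    (uflN p N (d i)).continuous continuous_const continuous_id
  conv_rhs => rw [← map_orb (uflN p N (d i)) hi (x i)]
  rw [integral_map hci.measurable.aemeasurable g.continuous.aestronglyMeasurable]
  rfl

theorem vbk_cont_avg {κ : Type} [Fintype κ] (F : (κ → XN p N) →ᵇ ℝ) (a : ℤ) :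
    Continuous fun z : (κ → ℚ_[p]) × (κ → XN p N) => ∫ w, F w ∂orb (uflN p N z.1) a z.2 := by
  simp only [integral_orb _ _ _ F.continuous]
  refine continuous_of_dominated (bound := fun _ => ‖F‖) (fun z => ?_)
    (fun z => ae_of_all _ fun s => F.norm_coe_le_norm _) (integrable_const _)
    (ae_of_all _ fun s => F.continuous.comp (vbk_cont s))
  exact (F.continuous.comp
    ((uflN p N z.1).continuous continuous_id continuous_const)).aestronglyMeasurable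

/-- The deviation of the ball average from a constant. -/
def vbk_dev {κ : Type} [Fintype κ] (F : (κ → XN p N) →ᵇ ℝ) (a : ℤ) (c : ℝ) :
    ((κ → ℚ_[p]) × (κ → XN p N)) →ᵇ ℝ :=
  BoundedContinuousFunction.ofNormedAddCommGroup
    (fun z => |∫ w, F w ∂orb (uflN p N z.1) a z.2 - c|)
    ((vbk_cont_avg F a).sub continuous_const).abs (‖F‖ + |c|) fun z => by
      rw [Real.norm_eq_abs, abs_abs]
      exact (abs_sub _ _).trans (add_le_add (block_abs_le F _) le_rfl)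

theorem vbk_dev_apply {κ : Type} [Fintype κ] (F : (κ → XN p N) →ᵇ ℝ) (a : ℤ) (c : ℝ)
    (t : κ → ℚ_[p]) (w : κ → XN p N) :
    vbk_dev F a c (t, w) = |∫ w, F w ∂orb (uflN p N t) a w - c| := rfl

theorem vbk_bound {κ : Type} [Fintype κ] (F : (κ → XN p N) →ᵇ ℝ) {a r : ℤ} (har : a ≤ r) (c : ℝ)
    (t : κ → ℚ_[p]) (x : κ → XN p N) {G : ℚ_[p] → ℝ} (hG : Continuous G) {C : ℝ}
    (hC : ∀ s, |G s| ≤ C) (hinv : ∀ t s, ‖t‖ ≤ (p : ℝ) ^ a → G (t + s) = G s) :
    |∫ s, F (uflN p N t s x) * G s ∂bm p r - c * ∫ s, G s ∂bm p r| ≤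
      C * ∫ w, vbk_dev F a c (t, w) ∂orb (uflN p N t) r x := by
  have hfl : Continuous fun s => uflN p N t s x := (uflN p N t).continuous continuous_id continuous_const
  have hH : Continuous fun s => F (uflN p N t s x) := F.continuous.comp hfl
  have hD : Continuous fun w => vbk_dev F a c (t, w) :=
    (vbk_dev F a c).continuous.comp (continuous_const.prodMk continuous_id)
  have hAc : Continuous fun w => ∫ w, F w ∂orb (uflN p N t) a w := continuous_integral_orb _ a F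
  have hGi : Integrable G (bm p r) :=
    Integrable.of_bound hG.aestronglyMeasurable C (ae_of_all _ hC)
  have hC0 : 0 ≤ C := (abs_nonneg _).trans (hC 0)
  rw [block_avg p har hH hG (fun s => F.norm_coe_le_norm _) hC hinv, integral_orb _ _ _ hD]
  have h1 : ∀ s, ∫ t', F (uflN p N t (t' + s) x) ∂bm p a =
      ∫ w, F w ∂orb (uflN p N t) a (uflN p N t s x) := by
    intro s
    rw [integral_orb _ _ _ F.continuous]
    simp only [Flow.map_add]
  simp only [h1]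
  have hi1 : Integrable (fun s => (∫ w, F w ∂orb (uflN p N t) a (uflN p N t s x)) * G s) (bm p r) := by
    refine Integrable.of_bound ((hAc.comp hfl).mul hG).aestronglyMeasurable (‖F‖ * C)
      (ae_of_all _ fun s => ?_)
    rw [Real.norm_eq_abs, abs_mul]
    exact mul_le_mul (block_abs_le F _) (hC _) (abs_nonneg _) (norm_nonneg _)
  rw [← integral_const_mul, ← integral_sub hi1 (hGi.const_mul c), ← integral_const_mul,
    ← Real.norm_eq_abs]
  refine norm_integral_le_of_norm_le ?_ (ae_of_all _ fun s => ?_)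
  · refine Integrable.const_mul ?_ C
    exact Integrable.of_bound (hD.comp hfl).aestronglyMeasurable ‖vbk_dev F a c‖
      (ae_of_all _ fun s => (vbk_dev F a c).norm_coe_le_norm _)
  · rw [← sub_mul, Real.norm_eq_abs, abs_mul, vbk_dev_apply, mul_comm]
    exact mul_le_mul_of_nonneg_right (hC _) (abs_nonneg _)

theorem vbk_map {κ : Type} [Fintype κ] (d : κ → ℚ_[p]) (r : ℤ) (x : κ → XN p N) :
    (orb (uflN p N d) r x).map (covP p N) = orb (ufl p d) r (covP p N x) := by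
  rw [orb, orb, Measure.map_map (continuous_covP p N).measurable (measurable_flow _ _)]
  refine congrArg (fun f => Measure.map f (bm p r)) ?_
  funext s k
  exact cov_smul p N _ _

theorem vbk_K (hN : 0 < N) {φ : ℍ →ᵇ ℝ} (hφ : GInv N φ) {a b : SL(2, ℚ_[p])}
    (h : a * b⁻¹ ∈ KN p N) (y : XN p N) :
    φ (ptX p N (((1, a) : GG p) • y)) = φ (ptX p N (((1, b) : GG p) • y)) := by
  rw [← hφ.ptX_K hN h (((1, b) : GG p) • y), ← mul_smul, Prod.mk_mul_mk, one_mul,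
    inv_mul_cancel_right]

theorem lift_U (hN : 0 < N) {κ : Type} [Fintype κ] (𝒰 : Ultrafilter ℕ)
    (h𝒰 : (𝒰 : Filter ℕ) ≤ atTop) (x : ℕ → κ → XN p N) (d : ℕ → κ → ℚ_[p]) (e : κ → ℚ_[p])
    (he : ∀ k, e k ≠ 0) (hd : Tendsto d 𝒰 (𝓝 e)) (r : ℕ → ℤ) (hr : Tendsto r 𝒰 atTop)
    (h : WT 𝒰 (fun i => orb (ufl p (d i)) (r i) (covP p N (x i))) (mP p κ)) :
    WT 𝒰 (fun i => orb (uflN p N (d i)) (r i) (x i)) (mPN p N κ) := by
  obtain ⟨ν, hν1, hν, hle⟩ := exists_limN hN 𝒰 h𝒰 (fun i => orb (uflN p N (d i)) (r i) (x i))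
    (fun i => orb (ufl p (d i)) (r i) (covP p N (x i))) h (C := 1) ENNReal.one_ne_top
    (Eventually.of_forall fun i => by rw [vbk_map, one_smul])
  have hI := vbk_inv x d e hd r hr ν hν
  have h1 := rig_U hN he ν ENNReal.one_ne_top hle hI
  rw [measure_univ, one_smul] at h1
  rwa [h1] at hν

theorem block_stepN (hN : 0 < N) {κ : Type} [Fintype κ] {L : Filter ℕ} (x : ℕ → κ → XN p N)
    (d : ℕ → κ → ℚ_[p]) (e : κ → ℚ_[p]) (he : ∀ k, e k ≠ 0) (hd : Tendsto d L (𝓝 e)) (r : ℕ → ℤ)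
    (hr : Tendsto r L atTop)
    (hν : WT L (fun i => orb (uflN p N (d i)) (r i) (x i)) (mPN p N κ))
    (F : (κ → XN p N) →ᵇ ℝ) (G : ℕ → ℚ_[p] → ℝ) (hG : ∀ i, Continuous (G i)) {C : ℝ}
    (hC : ∀ i s, |G i s| ≤ C)
    (hinv : ∀ a : ℕ, ∀ᶠ i in L, ∀ t s, ‖t‖ ≤ (p : ℝ) ^ (a : ℤ) → G i (t + s) = G i s) :
    Tendsto (fun i => ∫ s, F (uflN p N (d i) s (x i)) * G i s ∂bm p (r i) -
      (∫ w, F w ∂mPN p N κ) * ∫ s, G i s ∂bm p (r i)) L (𝓝 0) := by
  have hC0 : 0 ≤ C := (abs_nonneg _).trans (hC 0 0)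
  rw [Metric.tendsto_nhds]
  intro ε hε
  have hl := ((erg_mPN hN he).l1 F).const_mul C
  rw [mul_zero] at hl
  obtain ⟨a, ha⟩ := (hl.eventually (gt_mem_nhds hε)).exists
  have h1 := (hν.param hd (vbk_dev F a (∫ w, F w ∂mPN p N κ))).const_mul C
  filter_upwards [h1.eventually (gt_mem_nhds ha), hinv a, hr.eventually_ge_atTop (a : ℤ)]
    with i h2 h3 h4
  rw [Real.dist_eq, sub_zero]
  exact (vbk_bound F h4 _ (d i) (x i) (hG i) (hC i) h3).trans_lt h2

theorem stepN (hN : 0 < N) {ι : Type} [Fintype ι] [DecidableEq ι] (𝒰 : Ultrafilter ℕ)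
    (h𝒰 : (𝒰 : Filter ℕ) ≤ atTop) (x : ℕ → ι → XN p N) (a : ℕ → ι → SL(2, ℚ_[p]))
    (ha : ∀ i k, a i k ∈ Kp p) (d : ℕ → ι → ℚ_[p]) (e : ι → ℚ_[p])
    (I J : Finset ι) (hJ : J ⊆ I) (he : ∀ k ∈ J, e k ≠ 0) (he' : ∀ k ∈ I, k ∉ J → e k = 0)
    (hd : ∀ k ∈ I, Tendsto (fun i => d i k) 𝒰 (𝓝 (e k))) (r : ℕ → ℤ) (hr : Tendsto r 𝒰 atTop)
    (hT : ∀ k ∈ J, Tt p 𝒰 (fun i => cov p N (x i k)) (fun i => d i k) r)
    (hE : ∀ k ∈ J, ∀ l ∈ J, k ≠ l → NoExc p 𝒰 (fun i => cov p N (x i k))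
      (fun i => cov p N (x i l)) (fun i => d i k) (fun i => d i l) r)
    (φ : ι → (ℍ →ᵇ ℝ)) (hφ : ∀ k, GInv N (φ k)) :
    Tendsto (fun i =>
      ∫ s, ∏ k ∈ I, φ k (ptX p N (((1, a i k) : GG p) • uP p (d i k * s) • x i k)) ∂bm p (r i) -
      (∏ k ∈ J, IN N (φ k)) * ∫ s, ∏ k ∈ I \ J,
        φ k (ptX p N (((1, a i k) : GG p) • uP p (d i k * s) • x i k)) ∂bm p (r i)) 𝒰 (𝓝 0) := by
  have hp : (0 : ℝ) < p := by exact_mod_cast (Fact.out : p.Prime).pos
  have hNn : (0 : ℝ) < ‖(N : ℚ_[p])‖ := norm_pos_iff.2 (Nat.cast_ne_zero.2 hN.ne')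
  obtain ⟨R, -, hR⟩ := KN_reps (p := p) hN
  choose b hbR hb using fun k => ultra_fin 𝒰 R (P := fun i c => a i k * c⁻¹ ∈ KN p N)
    (Eventually.of_forall fun i => hR _ (ha i k))
  have hdJ : Tendsto (fun i (k : J) => d i k) 𝒰 (𝓝 fun k : J => e k) :=
    tendsto_pi_nhds.2 fun k => hd k (hJ k.2)
  have hν0 := block p (κ := J) 𝒰 h𝒰 (fun i k => cov p N (x i k)) (fun i k => d i k) (fun k => e k)
    (fun k => he k k.2) (fun k => hd k (hJ k.2)) r hr (fun k => hT k k.2)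
    (fun k l hkl => hE k k.2 l l.2 fun h => hkl (Subtype.ext h))
  have hν := lift_U hN (κ := J) 𝒰 h𝒰 (fun i k => x i k) (fun i k => d i k) (fun k => e k)
    (fun k => he k k.2) hdJ r hr hν0
  have hc : ∀ k, Continuous fun y : XN p N => φ k (ptX p N y) :=
    fun k => (hφ k).continuous hN (φ k).continuous
  let F : (J → XN p N) →ᵇ ℝ := ∏ k : J, BoundedContinuousFunction.ofNormedAddCommGroup
    (fun w : J → XN p N => φ k (ptX p N (((1, b k) : GG p) • w k)))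
    ((hc k).comp ((continuous_const_smul ((1, b k) : GG p)).comp (continuous_apply k))) ‖φ k‖
    fun w => (φ k).norm_coe_le_norm _
  have hF : ∀ w, F w = ∏ k : J, φ k (ptX p N (((1, b k) : GG p) • w k)) := by
    intro w
    simp [F]
  have hm : ∫ w, F w ∂mPN p N J = ∏ k ∈ J, IN N (φ k) := by
    simp only [hF]
    rw [integral_mPN_prod hN (fun k : J => ((1, b k) : GG p)) (φ := fun k : J => φ k)
      (fun k => hφ k), ← Finset.prod_coe_sort J]
  have h := block_stepN hN (κ := J) (fun i k => x i k) (fun i k => d i k) (fun k => e k)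
    (fun k => he k k.2) hdJ r hr hν F
    (fun i s => ∏ k ∈ I \ J, φ k (ptX p N (((1, a i k) : GG p) • uP p (d i k * s) • x i k))) ?_
    (C := ∏ k ∈ I \ J, ‖φ k‖) ?_ ?_
  · rw [hm] at h
    refine h.congr' ?_
    filter_upwards [eventually_all.2 hb] with i hi
    refine congrArg (fun t => t - _) (integral_congr_ae (ae_of_all _ fun s => ?_))
    simp only
    rw [hF, ← Finset.prod_sdiff hJ, mul_comm, ← Finset.prod_coe_sort J]
    refine congrArg (fun t => _ * t) (Finset.prod_congr rfl fun k _ => ?_)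
    exact (vbk_K hN (hφ k) (hi k) _).symm
  · intro i
    refine continuous_finsetProd _ fun k _ =>
      (hc k).comp ((continuous_const_smul ((1, a i k) : GG p)).comp ?_)
    exact ((continuous_uP p).comp (continuous_const.mul continuous_id)).smul continuous_const
  · intro i s
    rw [Finset.abs_prod]
    exact Finset.prod_le_prod (fun k _ => abs_nonneg _) fun k _ => (φ k).norm_coe_le_norm _
  · intro c
    have h1 : ∀ k ∈ I \ J, ∀ᶠ i in (𝒰 : Filter ℕ),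
        ‖d i k‖ < ‖(N : ℚ_[p])‖ * ((p : ℝ) ^ (c : ℤ))⁻¹ := by
      intro k hk
      obtain ⟨hkI, hkJ⟩ := Finset.mem_sdiff.1 hk
      have h2 := (hd k hkI).norm
      rw [he' k hkI hkJ, norm_zero] at h2
      exact h2.eventually (gt_mem_nhds (by positivity))
    filter_upwards [(Filter.eventually_all_finset _).2 h1] with i hi t s ht
    refine Finset.prod_congr rfl fun k hk => ?_
    have h3 : ‖d i k * t‖ ≤ ‖(N : ℚ_[p])‖ := by
      rw [norm_mul]
      calc ‖d i k‖ * ‖t‖ ≤ ‖(N : ℚ_[p])‖ * ((p : ℝ) ^ (c : ℤ))⁻¹ * (p : ℝ) ^ (c : ℤ) :=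
            mul_le_mul (hi k hk).le ht (norm_nonneg _) (by positivity)
        _ = _ := inv_mul_cancel_right₀ (by positivity) _
    rw [mul_add, uP_add, mul_smul, ← mul_smul ((1, a i k) : GG p)]
    have h4 : ((1, a i k) : GG p) * uP p (d i k * t) = (1, a i k * uu (d i k * t)) := by
      rw [uP, Prod.mk_mul_mk, one_mul]
    rw [h4]
    exact vbk_K hN (hφ k) (KN_conj (uu_mem_KN h3) (ha i k)) _

end Pool.Agent.EQ
end
end

-- part Pool.Agent.P.MP_ad7a55_nt.VS3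
section

/-! Orbits of two commuting elements, lifted to the covering space. -/

set_option autoImplicit false

noncomputable section

open MeasureTheory Topology Filter UpperHalfPlane
open scoped MatrixGroups ENNReal BoundedContinuousFunction

namespace Pool.Agent.EQ

variable {p q : ℕ} [Fact p.Prime] [Fact q.Prime] {N : ℕ} {κ : Type} [Fintype κ]

theorem vs3_avg {α β : Type} (O : Finset α) (U : Finset β) (G : α → β → ℝ) :
    (avg O fun z => avg U (G z)) = (∑ a ∈ O ×ˢ U, G a.1 a.2) / (O.card * U.card) := by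
  simp only [avg]
  rw [Finset.sum_product, ← Finset.sum_div, div_div, mul_comm]

theorem vs3_avg_mul {β : Type} {U : Finset β} (hU : (0 : ℝ) < U.card) (c I : ℝ) (G : β → ℝ) :
    c * (avg U G - I) = avg U fun u => c * (G u - I) := by
  simp only [avg]
  rw [← Finset.mul_sum, Finset.sum_sub_distrib, Finset.sum_const, nsmul_eq_mul]
  field_simp

theorem vs3_avg_sum {α τ : Type} (O : Finset α) (S : Finset τ) (G : τ → α → ℝ) :
    ∑ t ∈ S, avg O (G t) = avg O fun z => ∑ t ∈ S, G t z := by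
  simp only [avg]
  rw [Finset.sum_comm, Finset.sum_div]

open Classical in
/-- The normalised weighted sum of point masses. -/
def vs3M {A W : Type} [MeasurableSpace W] (S : Finset A) (ω : A → ℝ) (Y : A → W) (y₀ : W) :
    Measure W :=
  if 0 < ∑ a ∈ S, ω a then ustM S (fun a => ω a / ∑ a ∈ S, ω a) Y else Measure.dirac y₀

theorem vs3_eq {A W : Type} [MeasurableSpace W] {S : Finset A} {ω : A → ℝ}
    (h : 0 < ∑ a ∈ S, ω a) (Y : A → W) (y₀ : W) :
    vs3M S ω Y y₀ = ustM S (fun a => ω a / ∑ a ∈ S, ω a) Y := if_pos h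

theorem vs3_prob {A W : Type} [MeasurableSpace W] [MeasurableSingletonClass W] (S : Finset A)
    {ω : A → ℝ} (hω : ∀ a, 0 ≤ ω a) (Y : A → W) (y₀ : W) :
    IsProbabilityMeasure (vs3M S ω Y y₀) := by
  unfold vs3M
  split_ifs with h
  · refine ust_prob _ (fun a => div_nonneg (hω a) h.le) ?_ _
    rw [← Finset.sum_div, div_self h.ne']
  · infer_instance

theorem vs3_int {A W : Type} [MeasurableSpace W] [MeasurableSingletonClass W] {S : Finset A}
    {ω : A → ℝ} (hω : ∀ a, 0 ≤ ω a) (h : 0 < ∑ a ∈ S, ω a) (Y : A → W) (y₀ : W) (f : W → ℝ) :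
    ∫ w, f w ∂vs3M S ω Y y₀ = (∑ a ∈ S, ω a * f (Y a)) / ∑ a ∈ S, ω a := by
  rw [vs3_eq h, ust_int _ (fun a => div_nonneg (hω a) h.le), Finset.sum_div]
  exact Finset.sum_congr rfl fun a _ => by ring

theorem vs3_dev {A W : Type} [MeasurableSpace W] [MeasurableSingletonClass W] {S : Finset A}
    {ω : A → ℝ} (hω : ∀ a, 0 ≤ ω a) (h : 0 < ∑ a ∈ S, ω a) (Y : A → W) (y₀ : W) (f : W → ℝ)
    (I n : ℝ) : (∑ a ∈ S, ω a * (f (Y a) - I)) / n =
      (∑ a ∈ S, ω a) / n * (∫ w, f w ∂vs3M S ω Y y₀ - I) := by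
  rw [vs3_int hω h]
  simp only [mul_sub, Finset.sum_sub_distrib, ← Finset.sum_mul]
  have := h.ne'
  rw [sub_div]
  congr 1
  · field_simp
  · ring

theorem vs3_le {A W W' : Type} [MeasurableSpace W] [MeasurableSingletonClass W]
    [MeasurableSpace W'] [MeasurableSingletonClass W'] (S : Finset A) {ω ω' : A → ℝ}
    {Y : A → W} {Y' : A → W'} {π : W → W'} (hπ : Measurable π) {C : ℝ} (hC : 0 ≤ C)
    (h : ∀ a ∈ S, ω a ≤ C * ω' a) (hY : ∀ a ∈ S, ω a ≠ 0 → π (Y a) = Y' a) :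
    (ustM S ω Y).map π ≤ ENNReal.ofReal C • ustM S ω' Y' := by
  refine Measure.le_iff.2 fun E hE => ?_
  rw [Measure.map_apply hπ hE, Measure.smul_apply, ust_apply, ust_apply, smul_eq_mul,
    Finset.mul_sum]
  refine Finset.sum_le_sum fun a ha => ?_
  by_cases h0 : ω a = 0
  · simp [h0]
  · rw [← mul_assoc, ← ENNReal.ofReal_mul hC, ← hY a ha h0]
    exact mul_le_mul_left (ENNReal.ofReal_le_ofReal (h a ha)) _

theorem vs3_piP (M : ℕ) (h : κ → SL(2, ℚ_[q])) (x : κ → X3 p q) (u : ℕ × ℕ) :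
    piP p q (yy p q M h x u) =
      fun k => aP p (M * u.1) • piP p q (yy p q M h x (0, u.2)) k := by
  have e : yy p q M h x u = al p q κ (M * u.1) • yy p q M h x (0, u.2) := by
    simp only [yy]
    rw [← mul_smul (al p q κ (M * u.1)) (al p q κ (M * 0)), ← al_add, mul_zero, add_zero]
  rw [e]
  funext k
  exact pi3_smul p q (g := a3 p q (M * u.1)) (Kp q).one_mem _

theorem st3N (hN : 0 < N) (hpq : p ≠ q) {M : ℕ} (hM : 0 < M) (h : κ → SL(2, ℚ_[q]))
    (𝒰 : Ultrafilter ℕ) (h𝒰 : (𝒰 : Filter ℕ) ≤ atTop) {ζ : Type} (O : ℕ → Finset ζ)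
    (x : ℕ → ζ → κ → X3 p q) (y : ℕ → ζ → ℕ × ℕ → κ → X3 p q) (hc : Cnt p q 𝒰 O y)
    (w : ℕ → ζ → ℝ) (hw : ∀ i z, 0 ≤ w i z ∧ w i z ≤ 1)
    (hy : ∀ i z, w i z ≠ 0 → y i z = yy p q M h (x i z)) (xt : ℕ → ζ → ℕ → κ → XN p N)
    (hx : ∀ᶠ i in 𝒰, ∀ z ∈ O i, ∀ v, covP p N (xt i z v) = piP p q (y i z (0, v)))
    (ω : ℕ → ζ → ℕ → ℝ) (hω : ∀ i z v, 0 ≤ ω i z v ∧ ω i z v ≤ w i z)
    (Φ : (κ → XN p N) →ᵇ ℝ) :
    Tendsto (fun i => avg (O i) fun z => avg (sqr i) fun u => ω i z u.2 *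
      (Φ (fun k => aP p (M * u.1) • xt i z u.2 k) - ∫ x, Φ x ∂mPN p N κ)) 𝒰 (𝓝 0) := by
  classical
  let S : ℕ → Finset (ζ × (ℕ × ℕ)) := fun i => O i ×ˢ sqr i
  let n : ℕ → ℝ := fun i => (O i).card * (sqr i).card
  let ω' : ℕ → ζ × (ℕ × ℕ) → ℝ := fun i a => ω i a.1 a.2.2
  let w' : ℕ → ζ × (ℕ × ℕ) → ℝ := fun i a => w i a.1
  let Y : ℕ → ζ × (ℕ × ℕ) → κ → XN p N := fun i a k => aP p (M * a.2.1) • xt i a.1 a.2.2 k
  let Y' : ℕ → ζ × (ℕ × ℕ) → κ → XX p := fun i a => piP p q (y i a.1 a.2)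
  have hω0 : ∀ i a, 0 ≤ ω' i a := fun i a => (hω i a.1 a.2.2).1
  have hw0 : ∀ i a, 0 ≤ w' i a := fun i a => (hw i a.1).1
  have hs : ∀ i, (0 : ℝ) < (sqr i).card := fun i => by rw [ust_card]; positivity
  have hn0 : ∀ i, 0 ≤ n i := fun i => mul_nonneg (Nat.cast_nonneg _) (hs i).le
  have hT0 : ∀ i, 0 ≤ ∑ a ∈ S i, ω' i a := fun i => Finset.sum_nonneg fun a _ => hω0 i a
  have hT1 : ∀ i, ∑ a ∈ S i, ω' i a ≤ ∑ a ∈ S i, w' i a := fun i =>
    Finset.sum_le_sum fun a _ => (hω i a.1 a.2.2).2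
  have hT2 : ∀ i, ∑ a ∈ S i, w' i a ≤ n i := fun i => by
    have := Finset.sum_le_card_nsmul (S i) (w' i) 1 fun a _ => (hw i a.1).2
    rwa [nsmul_eq_mul, mul_one, Finset.card_product, Nat.cast_mul] at this
  have hgoal : ∀ i, (avg (O i) fun z => avg (sqr i) fun u => ω i z u.2 *
      (Φ (fun k => aP p (M * u.1) • xt i z u.2 k) - ∫ x, Φ x ∂mPN p N κ)) =
      (∑ a ∈ S i, ω' i a * (Φ (Y i a) - ∫ x, Φ x ∂mPN p N κ)) / n i := fun i => vs3_avg _ _ _
  simp only [hgoal]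
  by_cases hcase : ∃ c : ℝ, 0 < c ∧ ∀ᶠ i in 𝒰, c ≤ (∑ a ∈ S i, ω' i a) / n i
  swap
  · have h1 : Tendsto (fun i => (∑ a ∈ S i, ω' i a) / n i) 𝒰 (𝓝 0) := by
      refine tendsto_order.2 ⟨fun a ha => Eventually.of_forall fun i =>
        ha.trans_le (div_nonneg (hT0 i) (hn0 i)), fun a ha => ?_⟩
      have h2 : ¬ ∀ᶠ i in 𝒰, a ≤ (∑ a ∈ S i, ω' i a) / n i := fun h2 => hcase ⟨a, ha, h2⟩
      exact (Ultrafilter.eventually_not.2 h2).mono fun i hi => not_le.1 hi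
    have h2 := h1.mul_const (2 * ‖Φ‖)
    rw [zero_mul] at h2
    refine squeeze_zero_norm (fun i => ?_) h2
    rw [Real.norm_eq_abs, abs_div, abs_of_nonneg (hn0 i), div_mul_eq_mul_div, Finset.sum_mul]
    refine div_le_div_of_nonneg_right ((Finset.abs_sum_le_sum_abs _ _).trans
      (Finset.sum_le_sum fun a _ => ?_)) (hn0 i)
    rw [abs_mul, abs_of_nonneg (hω0 i a)]
    refine mul_le_mul_of_nonneg_left ((abs_sub _ _).trans ?_) (hω0 i a)
    have h4 : |Φ (Y i a)| ≤ ‖Φ‖ := Φ.norm_coe_le_norm _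
    have h5 : |∫ x, Φ x ∂mPN p N κ| ≤ ‖Φ‖ := Φ.norm_integral_le_norm (mPN p N κ)
    linarith
  obtain ⟨c, hc0, hcw⟩ := hcase
  have hev : ∀ᶠ i in 𝒰, 0 < n i ∧ c * n i ≤ ∑ a ∈ S i, ω' i a ∧ 0 < ∑ a ∈ S i, ω' i a ∧
      0 < ∑ a ∈ S i, w' i a := by
    refine hcw.mono fun i hi => ?_
    have h1 : 0 < n i := by
      refine lt_of_le_of_ne (hn0 i) fun h0 => ?_
      rw [← h0, div_zero] at hi
      exact absurd hc0 (not_lt.2 hi)
    have h2 := (le_div_iff₀ h1).1 hi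
    have h3 := (mul_pos hc0 h1).trans_le h2
    exact ⟨h1, h2, h3, h3.trans_le (hT1 i)⟩
  let μ : ℕ → Measure (κ → XN p N) := fun i =>
    vs3M (S i) (ω' i) (Y i) fun _ => ((1 : GG p) : XN p N)
  let lam : ℕ → Measure (κ → XX p) := fun i =>
    vs3M (S i) (w' i) (Y' i) fun _ => ((1 : GG p) : XX p)
  have hμ : ∀ i, IsProbabilityMeasure (μ i) := fun i => vs3_prob _ (hω0 i) _ _
  have hlam : ∀ i, IsProbabilityMeasure (lam i) := fun i => vs3_prob _ (hw0 i) _ _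
  have hWT : WT 𝒰 lam (mP p κ) := fun f => by
    have h1 := (tendsto_zero_iff_norm_tendsto_zero.1
      (st3 hpq hM h 𝒰 h𝒰 O x y hc w hw hy f)).const_mul c⁻¹
    rw [mul_zero] at h1
    refine tendsto_sub_nhds_zero_iff.1 (squeeze_zero_norm' (hev.mono fun i hi => ?_) h1)
    obtain ⟨h2, h3, -, h5⟩ := hi
    simp only [vs3_avg_mul (hs i)]
    rw [vs3_avg, vs3_dev (hw0 i) h5 (Y' i) (fun _ => ((1 : GG p) : XX p)) f, norm_mul,
      ← mul_assoc]
    refine le_mul_of_one_le_left (norm_nonneg _) ?_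
    rw [Real.norm_of_nonneg (div_nonneg h5.le h2.le), ← div_eq_inv_mul, one_le_div hc0,
      le_div_iff₀ h2]
    exact h3.trans (hT1 i)
  have key := lift_A hN hM 𝒰 h𝒰 μ lam hWT (C := ENNReal.ofReal c⁻¹) ENNReal.ofReal_ne_top ?_
    (fun f => ?_) Φ
  · have h1 := tendsto_sub_nhds_zero_iff.2 key
    refine squeeze_zero_norm' (hev.mono fun i hi => ?_) (tendsto_zero_iff_norm_tendsto_zero.1 h1)
    obtain ⟨h2, -, h4, -⟩ := hi
    rw [vs3_dev (hω0 i) h4 (Y i) (fun _ => ((1 : GG p) : XN p N)) Φ, norm_mul,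
      Real.norm_of_nonneg (div_nonneg h4.le h2.le)]
    exact mul_le_of_le_one_left (norm_nonneg _) ((div_le_one h2).2 ((hT1 i).trans (hT2 i)))
  · filter_upwards [hev, hx] with i hi hxi
    obtain ⟨h2, h3, h4, h5⟩ := hi
    simp only [μ, lam]
    rw [vs3_eq h4, vs3_eq h5]
    refine vs3_le _ (continuous_covP p N).measurable (inv_nonneg.2 hc0.le) (fun a _ => ?_)
      fun a ha h0 => ?_
    · rw [← div_eq_inv_mul, div_div]
      refine div_le_div₀ (hw0 i a) (hω i a.1 a.2.2).2 (mul_pos h5 hc0) (le_trans ?_ h3)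
      rw [mul_comm]
      exact mul_le_mul_of_nonneg_left (hT2 i) hc0.le
    · have h6 : ω i a.1 a.2.2 ≠ 0 := fun e => h0 (by simp only [ω', e, zero_div])
      have h7 : w i a.1 ≠ 0 := fun e =>
        h6 (le_antisymm (e ▸ (hω i a.1 a.2.2).2) (hω i a.1 a.2.2).1)
      have h8 := hxi a.1 (Finset.mem_product.1 ha).1 a.2.2
      simp only [Y']
      rw [hy i a.1 h7] at h8 ⊢
      rw [vs3_piP, ← h8]
      funext k
      exact cov_smul p N _ _
  · have hz : Tendsto (fun i : ℕ => 2 * ‖f‖ / c * (1 / ((i : ℝ) + 1))) 𝒰 (𝓝 0) := by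
      have h1 := (tendsto_one_div_add_atTop_nhds_zero_nat (𝕜 := ℝ)).const_mul (2 * ‖f‖ / c)
      rw [mul_zero] at h1
      exact h1.mono_left h𝒰
    refine squeeze_zero_norm' (hev.mono fun i hi => ?_) hz
    obtain ⟨h2, h3, h4, -⟩ := hi
    simp only [μ]
    rw [vs3_int (hω0 i) h4, vs3_int (hω0 i) h4, ← sub_div, ← Finset.sum_sub_distrib,
      Real.norm_eq_abs, abs_div, abs_of_pos h4, div_le_iff₀ h4, Finset.sum_product]
    have h5 : ∀ z ∈ O i, |∑ u ∈ sqr i, (ω' i (z, u) *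
        f ((fun _ => aP p M : κ → GG p) • Y i (z, u)) - ω' i (z, u) * f (Y i (z, u)))| ≤
        (i + 1) * (2 * ‖f‖) := fun z _ => by
      have h6 : ∀ u : ℕ × ℕ, (fun _ => aP p M : κ → GG p) • Y i (z, u) =
          Y i (z, (u.1 + 1, u.2)) := fun u => by
        funext k
        simp only [Y, Pi.smul_apply']
        rw [← mul_smul, ← ug_aP_add, Nat.mul_succ, add_comm]
      simp only [h6]
      refine ust_tel1 i (fun u => ω' i (z, u) * f (Y i (z, u))) fun u => ?_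
      rw [abs_mul, abs_of_nonneg (hω0 i _)]
      exact (mul_le_of_le_one_left (abs_nonneg _) ((hω i z u.2).2.trans (hw i z).2)).trans
        (f.norm_coe_le_norm _)
    refine (Finset.abs_sum_le_sum_abs _ _).trans ((Finset.sum_le_card_nsmul _ _ _ h5).trans ?_)
    refine le_trans (le_of_eq ?_) (mul_le_mul_of_nonneg_left h3 (by positivity))
    simp only [n]
    rw [nsmul_eq_mul, ust_card]
    have h7 : (0 : ℝ) < i + 1 := by positivity
    field_simp

/-- The test function of a type. -/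
def vs3_Phi (hN : 0 < N) (g : κ → GG p) (φ : κ → (ℍ →ᵇ ℝ)) (hφ : ∀ k, GInv N (φ k)) :
    (κ → XN p N) →ᵇ ℝ :=
  ∏ k, BoundedContinuousFunction.ofNormedAddCommGroup (fun x => φ k (ptX p N (g k • x k)))
    (((hφ k).continuous hN (φ k).continuous).comp
      ((continuous_const_smul (g k)).comp (continuous_apply k))) ‖φ k‖
    fun _ => (φ k).norm_coe_le_norm _

theorem vs3_Phi_apply (hN : 0 < N) (g : κ → GG p) (φ : κ → (ℍ →ᵇ ℝ)) (hφ : ∀ k, GInv N (φ k))
    (x : κ → XN p N) : vs3_Phi hN g φ hφ x = ∏ k, φ k (ptX p N (g k • x k)) := by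
  simp [vs3_Phi]

theorem vs3_type (hN : 0 < N) (hpq : p ≠ q) {M : ℕ} (hM : 0 < M) (𝒰 : Ultrafilter ℕ)
    (h𝒰 : (𝒰 : Filter ℕ) ≤ atTop) {ζ : Type} (O : ℕ → Finset ζ) (x : ℕ → ζ → κ → X3 p q)
    (hp : ℕ → ζ → κ → SL(2, ℚ_[p])) (hq : ℕ → ζ → κ → SL(2, ℚ_[q]))
    (hc : Cnt p q 𝒰 O fun i z => yy p q M (hq i z) (x i z)) (xt : ℕ → ζ → ℕ → κ → XN p N)
    (hx : ∀ᶠ i in 𝒰, ∀ z ∈ O i, ∀ v,
      covP p N (xt i z v) = piP p q (yy p q M (hq i z) (x i z) (0, v)))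
    (a : ℕ → ζ → ℕ → κ → SL(2, ℚ_[p])) (ha : ∀ i z v k, a i z v k ∈ Kp p)
    (φ : κ → (ℍ →ᵇ ℝ)) (hφ : ∀ k, GInv N (φ k))
    (t : (κ → SL(2, ℚ_[p])) × (κ → SL(2, ℚ_[q]))) (w : ℕ → ζ → ℝ)
    (hw : ∀ i z, 0 ≤ w i z ∧ w i z ≤ 1) (ht : ∀ i z, w i z ≠ 0 → (hp i z, hq i z) = t) :
    Tendsto (fun i => avg (O i) fun z => w i z * (avg (sqr i) (fun u => ∏ k,
      φ k (ptX p N (((1, a i z u.2 k * hp i z k) : GG p) • aP p (M * u.1) • xt i z u.2 k))) -
        ∏ k, IN N (φ k))) 𝒰 (𝓝 0) := by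
  classical
  obtain ⟨R, -, hR⟩ := KN_reps (p := p) hN
  choose r hr hr' using fun i z v k => hR _ (ha i z v k)
  have h1 := tendsto_finsetSum (Fintype.piFinset fun _ : κ => R) fun s _ =>
    st3N hN hpq hM t.2 𝒰 h𝒰 O x _ hc w hw (fun i z hz => by rw [← ht i z hz]) xt hx
      (fun i z v => if r i z v = s then w i z else 0)
      (fun i z v => by
        split_ifs
        · exact ⟨(hw i z).1, le_rfl⟩
        · exact ⟨le_rfl, (hw i z).1⟩)
      (vs3_Phi hN (fun k => ((1, s k * t.1 k) : GG p)) φ hφ)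
  simp only [Finset.sum_const_zero] at h1
  refine h1.congr fun i => ?_
  rw [vs3_avg_sum]
  refine congrArg (avg (O i)) (funext fun z => ?_)
  rw [vs3_avg_sum, vs3_avg_mul (by rw [ust_card]; positivity)]
  refine congrArg (avg (sqr i)) (funext fun u => ?_)
  rw [Finset.sum_eq_single_of_mem (r i z u.2) (Fintype.mem_piFinset.2 (hr i z u.2))
    fun s _ hn => by rw [if_neg (Ne.symm hn), zero_mul], if_pos rfl]
  by_cases hz : w i z = 0
  · rw [hz, zero_mul, zero_mul]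
  · simp only [vs3_Phi_apply]
    rw [integral_mPN_prod hN _ hφ, ← ht i z hz]
    congr 2
    refine Finset.prod_congr rfl fun k _ => ?_
    rw [← (hφ k).ptX_K hN (hr' i z u.2 k), ← mul_smul ((1, _) : GG p) ((1, _) : GG p),
      Prod.mk_mul_mk, one_mul, ← mul_assoc, inv_mul_cancel_right]

theorem st3N' (hN : 0 < N) (hpq : p ≠ q) {M : ℕ} (hM : 0 < M) (𝒰 : Ultrafilter ℕ)
    (h𝒰 : (𝒰 : Filter ℕ) ≤ atTop) {ζ : Type} (O : ℕ → Finset ζ) (x : ℕ → ζ → κ → X3 p q)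
    (T : Finset SL(2, ℚ_[p])) (T' : Finset SL(2, ℚ_[q])) (hp : ℕ → ζ → κ → SL(2, ℚ_[p]))
    (hq : ℕ → ζ → κ → SL(2, ℚ_[q]))
    (hT : ∀ᶠ i in 𝒰, ∀ z ∈ O i, ∀ k, hp i z k ∈ T ∧ hq i z k ∈ T')
    (hc : Cnt p q 𝒰 O fun i z => yy p q M (hq i z) (x i z)) (xt : ℕ → ζ → ℕ → κ → XN p N)
    (hx : ∀ᶠ i in 𝒰, ∀ z ∈ O i, ∀ v,
      covP p N (xt i z v) = piP p q (yy p q M (hq i z) (x i z) (0, v)))
    (a : ℕ → ζ → ℕ → κ → SL(2, ℚ_[p])) (ha : ∀ i z v k, a i z v k ∈ Kp p)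
    (ψ : ℕ → ζ → ℝ) {B : ℝ} (hψ : ∀ i z, |ψ i z| ≤ B) (φ : κ → (ℍ →ᵇ ℝ))
    (hφ : ∀ k, GInv N (φ k)) :
    Tendsto (fun i => avg (O i) fun z => ψ i z * (avg (sqr i) (fun u => ∏ k,
      φ k (ptX p N (((1, a i z u.2 k * hp i z k) : GG p) • aP p (M * u.1) • xt i z u.2 k))) -
        ∏ k, IN N (φ k))) 𝒰 (𝓝 0) := by
  classical
  have hB : 0 < |B| + 1 := by positivity
  have hle : ∀ i z, |ψ i z| ≤ |B| + 1 := fun i z =>
    (hψ i z).trans ((le_abs_self B).trans (by linarith))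
  let S := Fintype.piFinset (fun _ : κ => T) ×ˢ Fintype.piFinset (fun _ : κ => T')
  let W : (ℕ → ζ → ℝ) → ((κ → SL(2, ℚ_[p])) × (κ → SL(2, ℚ_[q]))) → ℕ → ζ → ℝ :=
    fun φ t i z => if (hp i z, hq i z) = t then max (φ i z) 0 / (|B| + 1) else 0
  have hW : ∀ φ : ℕ → ζ → ℝ, (∀ i z, φ i z ≤ |B| + 1) → ∀ t i z,
      0 ≤ W φ t i z ∧ W φ t i z ≤ 1 := fun φ hφ t i z => by
    simp only [W]
    split_ifs
    · exact ⟨div_nonneg (le_max_right _ _) hB.le,
        (div_le_one hB).2 (max_le (hφ i z) hB.le)⟩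
    · exact ⟨le_rfl, zero_le_one⟩
  have hW' : ∀ φ t i z, W φ t i z ≠ 0 → (hp i z, hq i z) = t := fun φ t i z hz => by
    by_contra hn
    exact hz (if_neg hn)
  have h1 := tendsto_finsetSum S fun t _ =>
    ((vs3_type hN hpq hM 𝒰 h𝒰 O x hp hq hc xt hx a ha φ hφ t (W ψ t)
      (hW ψ (fun i z => (le_abs_self _).trans (hle i z)) t) (hW' ψ t)).sub
    (vs3_type hN hpq hM 𝒰 h𝒰 O x hp hq hc xt hx a ha φ hφ t (W (fun i z => -ψ i z) t)
      (hW _ (fun i z => (neg_le_abs _).trans (hle i z)) t) (hW' _ t))).const_mul (|B| + 1)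
  simp only [sub_zero, mul_zero, Finset.sum_const_zero] at h1
  refine h1.congr' (hT.mono fun i hi => ?_)
  beta_reduce
  rw [ust2_avg_sum]
  simp only [avg]
  congr 1
  refine Finset.sum_congr rfl fun z hz => ?_
  have hm : (hp i z, hq i z) ∈ S := Finset.mem_product.2
    ⟨Fintype.mem_piFinset.2 fun k => (hi z hz k).1, Fintype.mem_piFinset.2 fun k => (hi z hz k).2⟩
  rw [Finset.sum_eq_single_of_mem _ hm fun t _ hn => by
    simp only [W, if_neg (Ne.symm hn), zero_mul, sub_zero, mul_zero]]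
  simp only [W, if_true]
  rw [← sub_mul, ← mul_assoc, ← sub_div, mul_div_cancel₀ _ hB.ne', max_zero_sub_max_neg_zero_eq_self]

end Pool.Agent.EQ
end
end
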