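import Pool.Agent.K.MP_ad7a55_nt.C66
import Pool.Agent.K.MP_ad7a55_nt.C75
import Pool.Agent.K.MP_ad7a55_nt.C71
import Pool.Agent.K.MP_ad7a55_nt.C73
import Pool.Agent.K.MP_ad7a55_nt.C70
import Pool.Agent.K.MP_ad7a55_nt.C72
import Pool.Agent.K.MP_ad7a55_nt.C16

-- part Pool.Agent.P.MP_ad7a55_nt.VI1
section

/-! One step of the induction: unipotent case. -/

set_option autoImplicit false

noncomputable section

open MeasureTheory Topology Filter UpperHalfPlane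
open scoped MatrixGroups ENNReal BoundedContinuousFunction

namespace Pool.Agent.EQ

variable {n : ℕ} {N : ℕ} {F : IntermediateField ℚ ℂ} {τ : ℕ → Fin n → ℍ}
  {D : ℕ → Fin n → ℤ} {φ : Fin n → (ℍ →ᵇ ℝ)} {I : Finset (Fin n)}
  {ψ : ℕ → (Fin n × Fn → ℂ) → ℝ}

theorem vi1_abs_le {m : ℕ} (f : Fin m → (ℍ →ᵇ ℝ)) (I : Finset (Fin m)) {α : Type}
    [MeasurableSpace α] (μ : Measure α) [IsProbabilityMeasure μ] (w : α → Fin m → ℍ) :
    |∫ s, ∏ k ∈ I, f k (w s k) ∂μ| ≤ ∏ k ∈ I, ‖f k‖ := by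
  have := norm_integral_le_of_norm_le_const (μ := μ) (f := fun s => ∏ k ∈ I, f k (w s k))
    (C := ∏ k ∈ I, ‖f k‖) (Eventually.of_forall fun s => by
      rw [norm_prod]
      exact Finset.prod_le_prod (fun _ _ => norm_nonneg _) fun k _ => (f k).norm_coe_le_norm _)
  simpa using this

theorem vi1_small {𝒰 : Ultrafilter ℕ} (hC : Cls 𝒰 τ D I) (p : ℕ) [Fact p.Prime] {j k : Fin n}
    (hv : Tendsto (fun i => padicValInt p (D i j)) 𝒰 atTop) {c : ℕ}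
    (h : ∀ᶠ i in 𝒰, ‖(D i k : ℚ_[p])‖ ≤ (p : ℝ) ^ c * ‖(D i j : ℚ_[p])‖) (b : ℕ) :
    ∀ᶠ i in 𝒰, ‖(D i k : ℚ_[p])‖ ≤ (p : ℝ) ^ (-(b : ℤ)) := by
  have hp : (1 : ℝ) < p := by exact_mod_cast (Fact.out : p.Prime).one_lt
  have hp0 : (0 : ℝ) < p := one_pos.trans hp
  filter_upwards [h, tendsto_atTop.1 hv (b + c)] with i h1 h2
  refine h1.trans ?_
  rw [norm_int_eq p (hC.disc i j).isD.1.ne, ← zpow_natCast, ← zpow_add₀ hp0.ne']
  exact zpow_le_zpow_right₀ hp.le (by omega)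

theorem stepU (hN : 0 < N) [FiniteDimensional ℚ F] {𝒰 : Ultrafilter ℕ}
    (h𝒰 : (𝒰 : Filter ℕ) ≤ atTop) (hC : Cls 𝒰 τ D I) (hφ : ∀ k, Tst N F (φ k))
    (hψ : WtN 𝒰 D I ψ) (p : ℕ) [Fact p.Prime] {j : Fin n} (hj : j ∈ I)
    (hmax : ∀ᶠ i in 𝒰, ∀ k ∈ I, padicValInt p (D i k) ≤ padicValInt p (D i j))
    (hv : Tendsto (fun i => padicValInt p (D i j)) 𝒰 atTop)
    (h1 : ∀ k ∈ I, ∀ c : ℕ,
      (∀ᶠ i in 𝒰, ‖(D i k : ℚ_[p])‖ ≤ (p : ℝ) ^ c * ‖(D i j : ℚ_[p])‖) → ∀ C δ : ℝ, 0 < δ →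
      ∀ᶠ i in 𝒰, ({z | z ∈ (galOrbit F fun k => jInv (τ i k)) ∧
        Bad1 p C (D i k) (z k)}.ncard : ℝ) ≤ δ * (galOrbit F fun k => jInv (τ i k)).ncard)
    (h2 : ∀ k ∈ I, ∀ l ∈ I, k ≠ l → ∀ (c : ℕ) (ρ₁ ρ₂ : ℕ → ℚ),
      (∀ᶠ i in 𝒰, ‖(D i k : ℚ_[p])‖ ≤ (p : ℝ) ^ c * ‖(D i j : ℚ_[p])‖ ∧
        ‖(D i l : ℚ_[p])‖ ≤ (p : ℝ) ^ c * ‖(D i j : ℚ_[p])‖ ∧ 0 < ρ₁ i ∧ 0 < ρ₂ i ∧
        ρ₁ i ^ 2 * D i k = ρ₂ i ^ 2 * D i l ∧
        ‖(ρ₁ i : ℚ_[p])‖ ≤ (p : ℝ) ^ c * ‖(ρ₂ i : ℚ_[p])‖ ∧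
        ‖(ρ₂ i : ℚ_[p])‖ ≤ (p : ℝ) ^ c * ‖(ρ₁ i : ℚ_[p])‖) →
      ∀ m : ℤ, m ≠ 0 → ∀ (c' : ℕ) (δ : ℝ), 0 < δ →
      ∀ᶠ i in 𝒰, ({z | z ∈ (galOrbit F fun k => jInv (τ i k)) ∧ ∃ M₁ M₂, DiscL M₁ (D i k) ∧
        DiscL M₂ (D i l) ∧ jL M₁ = z k ∧ jL M₂ = z l ∧
        Bad2 p m c' (D i k) (D i l) M₁ M₂}.ncard : ℝ) ≤
        δ * (galOrbit F fun k => jInv (τ i k)).ncard) :
    StepN 𝒰 N F τ φ I ψ := by
  classical
  have hp : (1 : ℝ) < p := by exact_mod_cast (Fact.out : p.Prime).one_lt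
  have hp0 : (0 : ℝ) < p := one_pos.trans hp
  have hD := hC.disc
  have hbig := hC.big
  obtain ⟨Bψ, hBψ⟩ := hψ.bd
  obtain ⟨c, B, hc⟩ := exists_framesN p hN F n
  choose ρ Nm x a e hK hF using fun i => hc (τ i) (D i) (hD i) j
  set O : ℕ → Finset (Fin n × Fn → ℂ) := fun i => ON N F (τ i) with hO
  have hmem : ∀ i z, z ∈ O i → pj z ∈ galOrbit F fun k => jInv (τ i k) := fun i z hz =>
    pj_mem hN ((mem_ON hN (hD i)).1 hz)
  have hOne : ∀ i, (O i).Nonempty := fun i => ON_ne hN F (hD i)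
  have hF' : ∀ᶠ i in 𝒰, FrN p N F (O i) (D i) j c B (ρ i) (Nm i) (x i) (a i) (e i) :=
    hbig.mono hF
  have hneg : ∀ i k, D i k < 0 := fun i k => (hD i k).isD.1
  set v : ℕ → ℕ := fun i => padicValInt p (D i j) with hvd
  set r : ℕ → ℤ := fun i => (v i : ℤ) / 2 - c with hr
  have hDj : ∀ i, ‖(D i j : ℚ_[p])‖ = (p : ℝ) ^ (-(v i : ℤ)) := fun i =>
    norm_int_eq p (hneg i j).ne
  have hvt : Tendsto v 𝒰 atTop := hv
  have hrt : Tendsto r 𝒰 atTop := by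
    refine tendsto_atTop.2 fun b => (tendsto_atTop.1 hvt (2 * (b + c).toNat)).mono fun i hi => ?_
    simp only [hr]
    omega
  have hr1 : ∀ i, ‖(D i j : ℚ_[p])‖ * ((p : ℝ) ^ r i) ^ 2 ≤ (p : ℝ) ^ (-(c : ℤ)) := fun i => by
    rw [hDj, ← zpow_natCast, ← zpow_mul, ← zpow_add₀ hp0.ne']
    refine zpow_le_zpow_right₀ hp.le ?_
    simp only [hr]
    omega
  have hr2 : ∀ i, 1 ≤ (p : ℝ) ^ (2 * c + 1) * (‖(D i j : ℚ_[p])‖ * ((p : ℝ) ^ r i) ^ 2) :=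
    fun i => by
      rw [hDj, ← zpow_natCast, ← zpow_natCast, ← zpow_mul, ← zpow_add₀ hp0.ne',
        ← zpow_add₀ hp0.ne']
      refine one_le_zpow₀ hp.le ?_
      simp only [hr]
      omega
  set J := I.filter fun k => ¬ Tendsto (fun i => Nm i k) 𝒰 (𝓝 0) with hJ
  have hJI : J ⊆ I := Finset.filter_subset _ _
  have hjJ : j ∈ J := by
    refine Finset.mem_filter.2 ⟨hj, fun h => ?_⟩
    have h4 : ∀ᶠ i in 𝒰, ‖(D i j : ℚ_[p])‖ ≤ ‖(4 : ℚ_[p])‖ := by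
      filter_upwards [tendsto_atTop.1 hvt (padicValInt p 4)] with i hi
      have := norm_int_eq p (D := 4) (by norm_num)
      push_cast at this
      rw [hDj, this]
      exact zpow_le_zpow_right₀ hp.le (by omega)
    have h5 : Tendsto (fun _ : ℕ => ‖(2 : ℚ_[p])‖) 𝒰 (𝓝 0) :=
      h.congr' (by filter_upwards [h4, hF'] with i h4 hF using hF.top h4)
    have := tendsto_nhds_unique h5 tendsto_const_nhds
    exact absurd this.symm (by simp)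
  refine ⟨J, hJI, ⟨j, hjJ⟩, ?_⟩
  have hN0 : ∀ᶠ i in 𝒰, ∀ k, 0 ≤ Nm i k := hF'.mono fun i hi k => by
    obtain ⟨z, hz⟩ := hOne i
    rw [← hi.nrm z hz k]; exact norm_nonneg _
  have hN1 : ∀ᶠ i in 𝒰, ∀ k ∈ I, Nm i k ≤ 1 := by
    filter_upwards [hF', hmax] with i hi h2 k hk
    have h3 := hi.le k
    have h4 : ‖(D i j : ℚ_[p])‖ ≤ ‖(D i k : ℚ_[p])‖ := by
      rw [hDj, norm_int_eq p (hneg i k).ne]
      exact zpow_le_zpow_right₀ hp.le (by have := h2 k hk; simp only [hvd]; omega)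
    have h5 : 0 < ‖(D i k : ℚ_[p])‖ := norm_pos_iff.2 (by exact_mod_cast (hneg i k).ne)
    have h6 : Nm i k ^ 2 ≤ 1 := by nlinarith
    exact (le_abs_self _).trans ((sq_le_one_iff_abs_le_one _).1 h6)
  obtain ⟨c₁, hc₁⟩ : ∃ c₁ : ℕ, ∀ᶠ i in 𝒰, ∀ k ∈ J, 1 ≤ (p : ℝ) ^ c₁ * Nm i k := by
    have h1 : ∀ k, ∃ c₁ : ℕ, k ∈ J → ∀ᶠ i in 𝒰, 1 ≤ (p : ℝ) ^ c₁ * Nm i k := by
      intro k
      by_cases hk : k ∈ J
      swap
      · exact ⟨0, fun h => absurd h hk⟩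
      by_contra h
      push Not at h
      refine (Finset.mem_filter.1 hk).2 (Metric.tendsto_nhds.2 fun ε hε => ?_)
      obtain ⟨m, hm⟩ := pow_unbounded_of_one_lt ε⁻¹ hp
      filter_upwards [(h m).2, hN0] with i h1 h2
      rw [Real.dist_eq, sub_zero, abs_of_nonneg (h2 k)]
      by_contra h3
      refine not_le.2 h1 ?_
      calc (1 : ℝ) = ε⁻¹ * ε := (inv_mul_cancel₀ hε.ne').symm
        _ ≤ _ := mul_le_mul hm.le (not_lt.1 h3) hε.le (by positivity)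
    choose c₁ hc₁ using h1
    refine ⟨Finset.univ.sup c₁, ?_⟩
    filter_upwards [(eventually_all_finset J).2 fun k hk => hc₁ k hk, hN0] with i h1 h2 k hk
    exact (h1 k hk).trans (mul_le_mul_of_nonneg_right
      (pow_le_pow_right₀ hp.le (Finset.le_sup (Finset.mem_univ k))) (h2 k))
  set c₀ := 2 * c + 3 + 2 * c₁ with hc₀
  have h20 : 0 < ‖(2 : ℚ_[p])‖ := norm_pos_iff.2 two_ne_zero
  have key : ∀ᶠ i in 𝒰, ∀ k ∈ J, (0 < ρ i k ∧ ρ i k ^ 2 * D i k = D i j ∧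
      (∀ l ∈ J, ‖(ρ i k : ℚ_[p])‖ ≤ (p : ℝ) ^ c₀ * ‖(ρ i l : ℚ_[p])‖) ∧
      ‖(D i k : ℚ_[p])‖ ≤ (p : ℝ) ^ c₀ * ‖(D i j : ℚ_[p])‖) ∧
      ∀ z ∈ O i, Frame p (D i k) (cov p N (x i z k)) (e i z k) ∧
        piX p (cov p N (x i z k)) ∈ Cl (D i k) ∧
        ‖(D i k : ℚ_[p])‖ * (‖-e i z k * ρ i k‖ * (p : ℝ) ^ r i) ^ 2 ≤ 1 ∧
        1 ≤ (p : ℝ) ^ c₀ * (‖(D i k : ℚ_[p])‖ * (‖-e i z k * ρ i k‖ * (p : ℝ) ^ r i) ^ 2) := by
    filter_upwards [hF', hc₁, hN1, hN0, hbig] with i hi h1 h2 h0 hb k hk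
    have hne : ∀ k ∈ J, Nm i k ≠ 0 := fun k hk h => by
      have := h1 k hk
      rw [h, mul_zero] at this
      linarith
    obtain ⟨z₀, hz₀⟩ := hOne i
    have hρN : ∀ k ∈ J, ‖(2 : ℚ_[p])‖ * ‖(ρ i k : ℚ_[p])‖ = Nm i k := fun k hk => by
      obtain ⟨g, Θ, -, -, -, -, he⟩ := (hi.fr z₀ hz₀ k (hne k hk)).1
      rw [← hi.nrm z₀ hz₀ k, norm_mul, norm_neg, he]
    obtain ⟨-, h5, h6⟩ := hi.fr z₀ hz₀ k (hne k hk)
    have h7 : ‖(D i k : ℚ_[p])‖ * Nm i k ^ 2 = ‖(2 : ℚ_[p])‖ ^ 2 * ‖(D i j : ℚ_[p])‖ := by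
      have : (ρ i k : ℚ_[p]) ^ 2 * D i k = D i j := by
        exact_mod_cast congrArg (fun q : ℚ => (q : ℚ_[p])) h6
      rw [← hρN k hk, ← this, norm_mul, norm_pow]; ring
    refine ⟨⟨h5, h6, fun l hl => ?_, ?_⟩,
      fun z hz => ⟨(hi.fr z hz k (hne k hk)).1, ?_, ?_, ?_⟩⟩
    · refine le_of_mul_le_mul_left ?_ h20
      rw [hρN k hk, mul_left_comm, hρN l hl]
      exact (h2 k (hJI hk)).trans ((h1 l hl).trans (mul_le_mul_of_nonneg_right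
        (pow_le_pow_right₀ hp.le (by omega)) (h0 l)))
    · have h8 : 1 ≤ ((p : ℝ) ^ c₁ * Nm i k) ^ 2 := one_le_pow₀ (h1 k hk)
      calc ‖(D i k : ℚ_[p])‖ ≤ ‖(D i k : ℚ_[p])‖ * ((p : ℝ) ^ c₁ * Nm i k) ^ 2 :=
            le_mul_of_one_le_right (norm_nonneg _) h8
        _ = (p : ℝ) ^ (2 * c₁) * (‖(D i k : ℚ_[p])‖ * Nm i k ^ 2) := by ring
        _ ≤ _ := mul_le_mul (pow_le_pow_right₀ hp.le (by omega)) (hi.le k)
            (by positivity) (by positivity)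
    · obtain ⟨t, ht, hjt⟩ := orbit_lift (hD i) hb (hmem i z hz) k
      rw [hi.pi z hz k]
      exact ⟨_, discL_one ht, by rw [jL_one, hjt]⟩
    · rw [hi.nrm z hz k, mul_pow, ← mul_assoc]
      refine (mul_le_mul_of_nonneg_right (hi.le k) (by positivity)).trans ((hr1 i).trans ?_)
      exact zpow_le_one_of_nonpos₀ hp.le (by omega)
    · rw [hi.nrm z hz k, mul_pow, ← mul_assoc ‖(D i k : ℚ_[p])‖, h7]
      have h8 : 1 ≤ ((p : ℝ) * ‖(2 : ℚ_[p])‖) ^ 2 := one_le_pow₀ (two_norm_ge p)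
      calc (1 : ℝ) ≤ ((p : ℝ) * ‖(2 : ℚ_[p])‖) ^ 2 *
            ((p : ℝ) ^ (2 * c + 1) * (‖(D i j : ℚ_[p])‖ * ((p : ℝ) ^ r i) ^ 2)) :=
            one_le_mul_of_one_le_of_one_le h8 (hr2 i)
        _ = (p : ℝ) ^ (2 * c + 3) *
            (‖(2 : ℚ_[p])‖ ^ 2 * ‖(D i j : ℚ_[p])‖ * ((p : ℝ) ^ r i) ^ 2) := by ring
        _ ≤ _ := mul_le_mul_of_nonneg_right (pow_le_pow_right₀ hp.le (by omega)) (by positivity)
  set Ψ : ℕ → (Fin n × Fn → ℂ) → ℝ := fun i z =>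
    ∫ s, ∏ k ∈ I, φ k (ptX p N (((1, a i z k) : GG p) • uP p (-e i z k * ρ i k * s) • x i z k))
      ∂bm p (r i) - (∏ k ∈ J, IN N (φ k)) * ∫ s, ∏ k ∈ I \ J,
        φ k (ptX p N (((1, a i z k) : GG p) • uP p (-e i z k * ρ i k * s) • x i z k))
          ∂bm p (r i) with hΨ
  have hΨB : ∀ i z, |Ψ i z| ≤ ∏ k ∈ I, ‖φ k‖ + |∏ k ∈ J, IN N (φ k)| * ∏ k ∈ I \ J, ‖φ k‖ := by
    intro i z
    refine (abs_sub _ _).trans (add_le_add (vi1_abs_le φ I _ _) ?_)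
    rw [abs_mul]
    exact mul_le_mul_of_nonneg_left (vi1_abs_le φ _ _ _) (abs_nonneg _)
  have hΦB : ∀ i z, |ψ i z * Ψ i z| ≤
      Bψ * (∏ k ∈ I, ‖φ k‖ + |∏ k ∈ J, IN N (φ k)| * ∏ k ∈ I \ J, ‖φ k‖) := by
    intro i z
    rw [abs_mul]
    exact mul_le_mul (hBψ i z) (hΨB i z) (abs_nonneg _) ((abs_nonneg _).trans (hBψ i z))
  set bad : (Fin n × ℕ) ⊕ (Fin n × Fin n × ℤ × ℕ) → ℕ → (Fin n → ℂ) → Prop := fun m i z =>
    m.elim (fun a => a.1 ∈ J ∧ Bad1 p a.2 (D i a.1) (z a.1)) fun a =>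
      a.1 ∈ J ∧ a.2.1 ∈ J ∧ a.2.2.1 ≠ 0 ∧ a.1 ≠ a.2.1 ∧
        ∃ M₁ M₂, DiscL M₁ (D i a.1) ∧ DiscL M₂ (D i a.2.1) ∧
        jL M₁ = z a.1 ∧ jL M₂ = z a.2.1 ∧ Bad2 p a.2.2.1 a.2.2.2 (D i a.1) (D i a.2.1) M₁ M₂
    with hbad
  have havg : Tendsto (fun i => avg (O i) fun z => ψ i z * Ψ i z) 𝒰 (𝓝 0) := by
    refine avg_tendsto_of_bad h𝒰 O hOne (fun i z => ψ i z * Ψ i z) hΦB
      (fun m i z => bad m i (pj z)) ?_ ?_
    · have hred : ∀ m, (∀ δ : ℝ, 0 < δ → ∀ᶠ i in 𝒰,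
          ({z | z ∈ (galOrbit F fun k => jInv (τ i k)) ∧ bad m i z}.ncard : ℝ) ≤
            δ * (galOrbit F fun k => jInv (τ i k)).ncard) := by
        rintro (⟨k, C⟩ | ⟨k, l, m, c'⟩) δ hδ
        · by_cases hk : k ∈ J
          swap
          · refine Eventually.of_forall fun i => ?_
            simp only [hbad, Sum.elim_inl, hk, false_and, and_false, Set.ofPred_false,
              Set.ncard_empty, Nat.cast_zero]
            positivity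
          filter_upwards [h1 k (hJI hk) c₀ (key.mono fun i hi => (hi k hk).1.2.2.2) C δ hδ]
            with i hi
          simp only [hbad, Sum.elim_inl, hk, true_and]
          exact hi
        · by_cases hk : k ∈ J ∧ l ∈ J ∧ m ≠ 0 ∧ k ≠ l
          swap
          · refine Eventually.of_forall fun i => ?_
            have : {z | z ∈ (galOrbit F fun k => jInv (τ i k)) ∧
                bad (Sum.inr (k, l, m, c')) i z} = ∅ :=
              Set.eq_empty_of_forall_notMem fun z hz => hk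
                ⟨hz.2.1, hz.2.2.1, hz.2.2.2.1, hz.2.2.2.2.1⟩
            rw [this, Set.ncard_empty, Nat.cast_zero]
            positivity
          obtain ⟨hk, hl, hm, hkl⟩ := hk
          filter_upwards [h2 k (hJI hk) l (hJI hl) hkl c₀ (fun i => ρ i k) (fun i => ρ i l)
            (key.mono fun i hi => ⟨(hi k hk).1.2.2.2, (hi l hl).1.2.2.2, (hi k hk).1.1,
              (hi l hl).1.1, (hi k hk).1.2.1.trans (hi l hl).1.2.1.symm,
              (hi k hk).1.2.2.1 l hl, (hi l hl).1.2.2.1 k hk⟩) m hm c' δ hδ] with i hi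
          simp only [hbad, Sum.elim_inr, hk, hl, hm, hkl, ne_eq, not_false_eq_true, true_and]
          exact hi
      intro m δ hδ
      exact (hred m δ hδ).mono fun i hi => card_pj hN (hD i) (bad m i) hi
    intro z hz hgood
    set d : ℕ → Fin n → ℚ_[p] := fun i k => -e i (z i) k * ρ i k with hd
    have hdN : ∀ᶠ i in 𝒰, ∀ k, ‖d i k‖ = Nm i k := hF'.mono fun i hi k => hi.nrm _ (hz i) k
    have hlim : ∀ k, ∃ a : ℚ_[p], k ∈ I → Tendsto (fun i => d i k) 𝒰 (𝓝 a) := by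
      intro k
      by_cases hk : k ∈ I
      · obtain ⟨a, -, ha⟩ := (isCompact_closedBall (0 : ℚ_[p]) 1).ultrafilter_le_nhds
          (𝒰.map fun i => d i k) (by
            rw [le_principal_iff]
            change ∀ᶠ i in 𝒰, d i k ∈ Metric.closedBall (0 : ℚ_[p]) 1
            filter_upwards [hdN, hN1] with i h1 h2
            rw [mem_closedBall_zero_iff, h1 k]
            exact h2 k hk)
        exact ⟨a, fun _ => ha⟩
      · exact ⟨0, fun h => absurd h hk⟩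
    choose b hb using hlim
    have haN : ∀ k ∈ I, Tendsto (fun i => Nm i k) 𝒰 (𝓝 ‖b k‖) := fun k hk =>
      (hb k hk).norm.congr' (hdN.mono fun i hi => hi k)
    have ha0 : ∀ k ∈ J, b k ≠ 0 := fun k hk h =>
      (Finset.mem_filter.1 hk).2 (by simpa [h] using haN k (hJI hk))
    have ha1 : ∀ k ∈ I, k ∉ J → b k = 0 := fun k hk hk' => by
      have : Tendsto (fun i => Nm i k) 𝒰 (𝓝 0) := by
        by_contra h
        exact hk' (Finset.mem_filter.2 ⟨hk, h⟩)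
      exact norm_eq_zero.1 (tendsto_nhds_unique (haN k hk) this)
    have hT : ∀ k ∈ J, Tt p 𝒰 (fun i => cov p N (x i (z i) k)) (fun i => d i k) r := by
      intro k hk ε hε
      obtain ⟨Ω, hΩ, h⟩ := tight_frame2 p hε
      refine ⟨Ω, hΩ, fun m => ?_⟩
      obtain ⟨C, hC⟩ := h m c₀
      obtain ⟨b, hb⟩ := pow_unbounded_of_one_lt (C : ℝ) hp
      filter_upwards [key, hgood (Sum.inl (k, C)), hF', hc₁, hdN,
        tendsto_atTop.1 hrt ((b + c₁ : ℕ) : ℤ), hN0] with i h1 h2 h3 h4 h5 h6 h7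
      obtain ⟨-, h8⟩ := h1 k hk
      obtain ⟨h9, h10, h11, h12⟩ := h8 _ (hz i)
      refine hC _ _ _ _ _ h9 h10 h11 h12 ?_ ?_
      · rw [h5 k]
        calc (C : ℝ) ≤ (p : ℝ) ^ b * ((p : ℝ) ^ c₁ * Nm i k) :=
              hb.le.trans (le_mul_of_one_le_right (by positivity) (h4 k hk))
          _ = Nm i k * (p : ℝ) ^ ((b + c₁ : ℕ) : ℤ) := by rw [zpow_natCast]; ring
          _ ≤ _ := mul_le_mul_of_nonneg_left (zpow_le_zpow_right₀ hp.le h6) (h7 k)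
      · rw [h3.pi _ (hz i)]
        exact fun h => h2 ⟨hk, h⟩
    have hE : ∀ k ∈ J, ∀ l ∈ J, k ≠ l → NoExc p 𝒰 (fun i => cov p N (x i (z i) k))
        (fun i => cov p N (x i (z i) l)) (fun i => d i k) (fun i => d i l) r := by
      intro k hk l hl hkl q hq δ hδ R
      obtain ⟨M, m, c', hM, hm, h⟩ := exc_frame2 p hq hδ R c₀
      filter_upwards [key, hgood (Sum.inr (k, l, m, c')),
        hC.noi k (hJI hk) l (hJI hl) hkl M hM, hF'] with i h1 h2 h3 h4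
      intro P hP hP1
      by_contra h5
      push Not at h5
      obtain ⟨a1, a2⟩ := h1 k hk
      obtain ⟨b1, b2⟩ := h1 l hl
      obtain ⟨a3, a4, a5, a6⟩ := a2 _ (hz i)
      obtain ⟨b3, b4, b5, b6⟩ := b2 _ (hz i)
      have h6 := h _ _ _ _ _ _ _ _ _ a3 b3 a4 b4 a1.1 b1.1 (a1.2.1.trans b1.2.1.symm) a5 b5 a6 b6
        (a1.2.2.1 l hl) (b1.2.2.1 k hk) P hP hP1 h5
      rw [h4.pi _ (hz i), h4.pi _ (hz i)] at h6
      rcases h6 with h6 | h6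
      · obtain ⟨σ, -, hσ⟩ := hmem i _ (hz i)
        rw [hσ] at h6
        exact h3 σ h6
      · exact h2 ⟨hk, hl, hm, hkl, h6⟩
    have hS : Tendsto (fun i => Ψ i (z i)) 𝒰 (𝓝 0) :=
      stepN hN 𝒰 h𝒰 (fun i => x i (z i)) (fun i => a i (z i)) (fun i k => hK i _ k) d b I J hJI
        ha0 ha1 hb r hrt hT hE φ fun k => (hφ k).ginv
    have hS' := hS.abs.const_mul Bψ
    rw [abs_zero, mul_zero] at hS'
    refine squeeze_zero_norm (fun i => ?_) hS'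
    rw [Real.norm_eq_abs, abs_mul]
    exact mul_le_mul_of_nonneg_right (hBψ _ _) (abs_nonneg _)
  refine havg.congr' ?_
  filter_upwards [hF', hψ.oth, hC.sq, hC.inf B] with i hi ho hs hb
  have ho' : Oth {j} (D i) (ψ i) := ho.mono (Finset.singleton_subset_iff.2 hj)
  have h1 := hi.sum (r i) (hr1 i) I (fun k hk => ⟨hs k hk j hj, hb k hk⟩) φ hφ _ ho'
  have h2 := hi.sum (r i) (hr1 i) (I \ J) (fun k hk =>
    ⟨hs k (Finset.sdiff_subset hk) j hj, hb k (Finset.sdiff_subset hk)⟩) φ hφ _ ho'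
  simp only [avg, hΨ, mul_sub, Finset.sum_sub_distrib, mul_left_comm (ψ i _),
    ← Finset.mul_sum]
  rw [h1, h2]

theorem stepU_a (hN : 0 < N) [FiniteDimensional ℚ F] {𝒰 : Ultrafilter ℕ}
    (h𝒰 : (𝒰 : Filter ℕ) ≤ atTop) (hC : Cls 𝒰 τ D I) (hφ : ∀ k, Tst N F (φ k))
    (hψ : WtN 𝒰 D I ψ) (p : ℕ) [Fact p.Prime] {j : Fin n} (hj : j ∈ I)
    (hmax : ∀ᶠ i in 𝒰, ∀ k ∈ I, padicValInt p (D i k) ≤ padicValInt p (D i j)) {η : ℝ}
    (hη : 0 < η) (hdom : ∀ᶠ i in 𝒰, ∀ k ∈ I, ‖(D i j : ℚ_[p])‖ ≤ (-(D i k : ℝ)) ^ (-η)) :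
    StepN 𝒰 N F τ φ I ψ := by
  have hp : (1 : ℝ) < p := by exact_mod_cast (Fact.out : p.Prime).one_lt
  have hp0 : (0 : ℝ) < p := one_pos.trans hp
  have hv : Tendsto (fun i => padicValInt p (D i j)) 𝒰 atTop := by
    refine tendsto_atTop.2 fun b => ?_
    have h1 := (tendsto_rpow_neg_atTop hη).eventually
      (ge_mem_nhds (zpow_pos hp0 (-(b : ℤ))))
    obtain ⟨Y, hY⟩ := eventually_atTop.1 h1
    filter_upwards [hC.inf Y, hdom] with i h2 h3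
    have h4 := (h3 j hj).trans (hY _ (h2 j hj))
    rw [norm_int_eq p (hC.disc i j).isD.1.ne, zpow_le_zpow_iff_right₀ hp] at h4
    omega
  refine stepU hN h𝒰 hC hφ hψ p hj hmax hv ?_ ?_
  · intro k hk c hc C δ hδ
    obtain ⟨Y, hY⟩ := frac_bad1 p F C c hη hδ
    filter_upwards [hc, hC.inf Y, hC.big, hdom] with i h1 h2 h3 h4
    exact hY n (τ i) (D i) (hC.disc i) k (h3 k) (h2 k hk)
      (h1.trans (mul_le_mul_of_nonneg_left (h4 k hk) (by positivity)))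
  · intro k hk l hl hkl c ρ₁ ρ₂ hc m hm c' δ hδ
    obtain ⟨Y, hY⟩ := frac_bad2 p F hm c c' hη hδ
    filter_upwards [hc, hC.inf Y, hC.big, hdom] with i h1 h2 h3 h4
    obtain ⟨a1, -, a3, a4, a5, a6, a7⟩ := h1
    exact hY n (τ i) (D i) (hC.disc i) k l _ _ (h3 k) (h3 l) a3 a4 a5 a6 a7 (h2 k hk)
      (a1.trans (mul_le_mul_of_nonneg_left (h4 k hk) (by positivity)))
      (a1.trans (mul_le_mul_of_nonneg_left (h4 l hl) (by positivity)))

theorem stepU_L (hN : 0 < N) [FiniteDimensional ℚ F] {𝒰 : Ultrafilter ℕ}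
    (h𝒰 : (𝒰 : Filter ℕ) ≤ atTop) (hC : Cls 𝒰 τ D I) (hφ : ∀ k, Tst N F (φ k))
    (hψ : WtN 𝒰 D I ψ) (p : ℕ) [Fact p.Prime] {j : Fin n} (hj : j ∈ I)
    (hmax : ∀ᶠ i in 𝒰, ∀ k ∈ I, padicValInt p (D i k) ≤ padicValInt p (D i j))
    (hv : Tendsto (fun i => padicValInt p (D i j)) 𝒰 atTop) {L : ℝ}
    (hL : ∀ᶠ i in 𝒰, ∀ k ∈ I, Low L (D i k)) : StepN 𝒰 N F τ φ I ψ := by
  refine stepU hN h𝒰 hC hφ hψ p hj hmax hv ?_ ?_
  · intro k hk c hc C δ hδ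
    obtain ⟨Y, hY⟩ := frac_bad1' p F C L hδ
    filter_upwards [vi1_small hC p hv hc Y, hC.big, hL] with i h1 h2 h3
    exact hY n (τ i) (D i) (hC.disc i) k (h2 k) (h3 k hk) h1
  · intro k hk l hl hkl c ρ₁ ρ₂ hc m hm c' δ hδ
    obtain ⟨Y, N₀, hN₀, hY⟩ := frac_bad3 p F hm ((p : ℝ) ^ c') L c hδ
    filter_upwards [hc, vi1_small hC p hv (hc.mono fun i hi => hi.2.1) (Y + c'), hC.big, hL,
      hC.noi k hk l hl hkl N₀ hN₀] with i h1 h2 h3 h4 h5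
    obtain ⟨-, -, a3, a4, a5, a6, a7⟩ := h1
    refine le_trans (Nat.cast_le.2 (Set.ncard_le_ncard ?_
      ((orbit_finite F (hC.disc i)).subset fun z hz => hz.1)))
      (hY n (τ i) (D i) (hC.disc i) k l _ _ (h3 k) (h3 l) a3 a4 a5 a6 a7 (h4 k hk) h5)
    rintro z ⟨hz, M₁, M₂, b1, b2, b3, b4, b5⟩
    exact ⟨hz, M₁, M₂, b1, b2, b3, b4, b5.bad3 p h2⟩

end Pool.Agent.EQ
end
end

-- part Pool.Agent.P.MP_ad7a55_nt.VI2
section

/-! One step of the induction: diagonal case. -/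

set_option autoImplicit false

noncomputable section

open MeasureTheory Topology Filter UpperHalfPlane
open scoped MatrixGroups ENNReal BoundedContinuousFunction

namespace Pool.Agent.EQ

variable {n : ℕ} {N : ℕ} {F : IntermediateField ℚ ℂ} {τ : ℕ → Fin n → ℍ}
  {D : ℕ → Fin n → ℤ} {φ : Fin n → (ℍ →ᵇ ℝ)} {I : Finset (Fin n)}
  {ψ : ℕ → (Fin n × Fn → ℂ) → ℝ}

theorem stepD (hN : 0 < N) [FiniteDimensional ℚ F] {𝒰 : Ultrafilter ℕ}
    (h𝒰 : (𝒰 : Filter ℕ) ≤ atTop) (hC : Cls 𝒰 τ D I) (hI : I.Nonempty)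
    (hφ : ∀ k, Tst N F (φ k)) (hψ : WtN 𝒰 D I ψ) (p q : ℕ) [Fact p.Prime] [Fact q.Prime]
    (hpq : p ≠ q) (h2 : p ≠ 2) (h2' : q ≠ 2) {c : ℕ} {L : ℝ}
    (hc : ∀ᶠ i in 𝒰, ∀ k ∈ I, Low L (D i k) ∧ (∃ κ ≤ c, Spl p κ (D i k)) ∧
      ∃ κ ≤ c, Spl q κ (D i k)) : Eqd 𝒰 N F τ φ I ψ := by
  classical
  obtain ⟨j, hj⟩ := hI
  have hD := hC.disc
  obtain ⟨M, T, T', B₁, hM, hT, h4⟩ := exists_fdN p q hN hpq h2 h2' F n c
  choose ρ rp' rq x hp hq σ xt a σ' ha h5 using fun i => h4 (τ i) (D i) j I (hD i) hj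
  obtain ⟨B₂, hB₂⟩ := tst_rp hN F
  have h6 : ∀ᶠ i in 𝒰, FD p q F (fun k => jInv (τ i k)) (D i) j I M T T' (ρ i) (rp' i) (rq i)
      (x i) (hp i) (hq i) (σ i) ∧
      FDN p q N F (ON N F (τ i)) (D i) j I M (x i) (hp i) (hq i) (xt i) (a i) (σ' i) := by
    filter_upwards [hC.big, hC.sq, hc, hC.inf B₁] with i a1 a2 a3 a4
    exact h5 i a1 fun k hk => ⟨a2 k hk j hj, (a3 k hk).2.1, (a3 k hk).2.2, a4 k hk⟩
  have h7 := cnt_fd2 hpq h2 F τ D hD 𝒰 j I hC.noi hC.big hC.inf (L := L) hT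
    (hc.mono fun i a3 k hk => ⟨(a3 k hk).1, (a3 k hk).2.1⟩) (h6.mono fun i b => b.1)
  obtain ⟨B, hB⟩ := hψ.bd
  have h8 := st3N' hN hpq hM 𝒰 h𝒰 (fun i => ON N F (τ i)) (fun i z => x i (pj z)) T T'
    (fun i z => hp i (pj z)) (fun i z => hq i (pj z)) (by
      filter_upwards [h6] with i b z hz k
      exact b.1.mem _ (pj_mem hN ((mem_ON hN (hD i)).1 hz)) k) (Cnt.pull hN hD h7) xt
    (h6.mono fun i b => b.2.cv) a ha ψ hB (fun k : I => φ k) fun k => (hφ k).ginv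
  refine h8.congr' ?_
  filter_upwards [h6, hψ.oth, hC.inf B₂] with i b b2 b3
  have hs : ((sqr i).card : ℝ) ≠ 0 := by
    have : (sqr i).Nonempty := ⟨(0, 0), by simp [sqr]⟩
    exact_mod_cast this.card_pos.ne'
  have e1 : ∀ z ∈ ON N F (τ i), ∀ u : ℕ × ℕ, ψ i z * ∏ k : I, φ k (ptX p N
      (((1, a i z u.2 k * hp i (pj z) k) : GG p) • aP p (M * u.1) • xt i z u.2 k)) =
        ψ i (fun k => σ' i u (z k)) * PT N F φ I fun k => σ' i u (z k) := by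
    intro z hz u
    have hz' := galO_map ((mem_ON hN (hD i)).1 hz) (b.2.fix u)
    rw [PT, ← Finset.prod_coe_sort I]
    refine congrArg₂ (· * ·) (b2 _ _ fun k hk f => (b.2.out z hz u k (hk j hj) f).symm)
      (Finset.prod_congr rfl fun k _ => ?_)
    exact hB₂ n (τ i) (D i) (hD i) _ hz' k (b3 k k.2) _ (b.2.val z hz u k) _ (hφ k)
  have e2 : ∑ z ∈ ON N F (τ i), ψ i z * avg (sqr i) (fun u => ∏ k : I, φ k (ptX p N
      (((1, a i z u.2 k * hp i (pj z) k) : GG p) • aP p (M * u.1) • xt i z u.2 k))) =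
      ∑ z ∈ ON N F (τ i), ψ i z * PT N F φ I z := by
    have e3 : ∀ z ∈ ON N F (τ i), ψ i z * avg (sqr i) (fun u => ∏ k : I, φ k (ptX p N
        (((1, a i z u.2 k * hp i (pj z) k) : GG p) • aP p (M * u.1) • xt i z u.2 k))) =
        (∑ u ∈ sqr i, ψ i (fun k => σ' i u (z k)) * PT N F φ I fun k => σ' i u (z k)) /
          (sqr i).card := by
      intro z hz
      rw [avg, ← mul_div_assoc, Finset.mul_sum, Finset.sum_congr rfl fun u _ => e1 z hz u]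
    rw [Finset.sum_congr rfl e3, ← Finset.sum_div, Finset.sum_comm, ON,
      Finset.sum_congr rfl fun u _ => sum_galO (b.2.fix u) fun z => ψ i z * PT N F φ I z,
      Finset.sum_const, nsmul_eq_mul, mul_div_cancel_left₀ _ hs]
  rw [Finset.prod_coe_sort I fun k => IN N (φ k)]
  simp only [mul_sub]
  rw [avg, avg, Finset.sum_sub_distrib, Finset.sum_sub_distrib, e2]

end Pool.Agent.EQ
end
end

-- part Pool.Agent.P.MP_ad7a55_nt.WSt
section

/-! One step of the factorisation for invariant measures. -/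

set_option autoImplicit false

noncomputable section

open MeasureTheory Topology Filter UpperHalfPlane
open scoped MatrixGroups ENNReal BoundedContinuousFunction

namespace Pool.Agent.EQ

variable (p : ℕ) [Fact p.Prime]

/-- Pairs related by a bounded rational map that intertwines the two flows. -/
def NR (q : ℕ) (δ : ℚ) (R : ℝ) (d₁ d₂ : ℚ_[p]) : Set (XX p × XX p) :=
  {w | ∃ P ∈ HomS p q δ w.1 w.2, Bd R P.2 ∧ P.2 1 0 = 0 ∧ d₁ * P.2 0 0 = d₂ * P.2 1 1}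

variable {p} {W : Type} [TopologicalSpace W] [PolishSpace W] [MeasurableSpace W] [BorelSpace W]

theorem wst_anti {α : Type} (T : ℕ → Set α) (hT : Antitone T) (h0 : (T 0).Finite)
    (hne : ∀ r, (T r).Nonempty) : ∃ a, ∀ r, a ∈ T r := by
  by_contra hcon
  push Not at hcon
  have h1 : ∀ᶠ l : ℕ in atTop, ∀ a ∈ T 0, a ∉ T l := by
    rw [Filter.eventually_all_finite h0]
    intro a _
    obtain ⟨l, hl⟩ := hcon a
    filter_upwards [eventually_ge_atTop l] with l' hl' hh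
    exact hl (hT hl' hh)
  obtain ⟨l, hl⟩ := h1.exists
  obtain ⟨a, ha⟩ := hne l
  exact hl a (hT (Nat.zero_le l) ha) ha

theorem wst_Pfl_zero (d₁ d₂ : ℚ_[p]) (P : Matrix (Fin 2) (Fin 2) ℚ_[p]) :
    Pfl p d₁ d₂ 0 P = P := by
  rw [Pfl_eq]
  ext i j
  fin_cases i <;> fin_cases j <;> simp

theorem wst_inter {q : ℕ} (hq : 0 < q) (δ : ℚ) (R : ℝ) {d₁ d₂ : ℚ_[p]} (h₂ : d₂ ≠ 0)
    {x y : XX p} (h : ∀ r : ℕ, ∃ P ∈ HomS p q δ x y, Bd R P.1 ∧
      ∀ s : ℚ_[p], ‖s‖ ≤ (p : ℝ) ^ (r : ℤ) → Bd R (Pfl p d₁ d₂ s P.2)) :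
    (x, y) ∈ NR p q δ R d₁ d₂ := by
  have hp : (1 : ℝ) < p := by exact_mod_cast (Fact.out : p.Prime).one_lt
  obtain ⟨g, hg⟩ := QuotientGroup.mk_surjective x
  obtain ⟨g', hg'⟩ := QuotientGroup.mk_surjective y
  obtain ⟨ξ, hξ⟩ := wst_anti (fun r : ℕ => {ξ : Matrix (Fin 2) (Fin 2) ℚ |
      (∀ i j, InZp p (q * ξ i j)) ∧ ∃ P ∈ HomS p q δ x y, IsHom p g g' ξ P ∧ Bd R P.1 ∧
        ∀ s : ℚ_[p], ‖s‖ ≤ (p : ℝ) ^ (r : ℤ) → Bd R (Pfl p d₁ d₂ s P.2)})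
    (fun r r' hr ξ hξ => by
      obtain ⟨a1, P, a2, a3, a4, a5⟩ := hξ
      exact ⟨a1, P, a2, a3, a4, fun s hs => a5 s (hs.trans
        (zpow_le_zpow_right₀ hp.le (by exact_mod_cast hr)))⟩)
    (by
      refine (finite_hom hq R (C := {g, g'}) (Set.toFinite _).isCompact).subset ?_
      rintro ξ ⟨a1, P, -, a3, a4, a5⟩
      refine ⟨a1, g, by simp, g', by simp, P, a3, a4, ?_⟩
      have := a5 0 (by simp)
      rwa [wst_Pfl_zero] at this)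
    (fun r => by
      obtain ⟨P, a1, a2, a3⟩ := h r
      obtain ⟨ξ, b1, -, b3⟩ := HomS.rep a1 hg hg'
      exact ⟨ξ, b1, P, a1, b3, a2, a3⟩)
  obtain ⟨-, P, a1, a2, -, a4⟩ := hξ 0
  have h3 : ∀ s : ℚ_[p], Bd R (Pfl p d₁ d₂ s P.2) := fun s => by
    obtain ⟨l, hl⟩ := pow_unbounded_of_one_lt ‖s‖ hp
    obtain ⟨-, P', -, b2, -, b4⟩ := hξ l
    have e : P.2 = P'.2 := by
      have e1 := a2.2.trans b2.2.symm
      have e2 := congrArg (· * ((g.2⁻¹ : SL(2, ℚ_[p])) : Matrix (Fin 2) (Fin 2) ℚ_[p])) e1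
      simpa only [Matrix.mul_assoc, sing_mul_inv, Matrix.mul_one] using e2
    rw [e]
    exact b4 s (by rw [zpow_natCast]; exact hl.le)
  have h4 : P.2 1 0 = 0 := by
    have : d₂ * P.2 1 0 = 0 := by
      refine sing_affine p (a := P.2 0 0) (R := R) fun s => ?_
      have := h3 s 0 0
      rw [Pfl_eq] at this
      simpa using this
    exact (mul_eq_zero.1 this).resolve_left h₂
  refine ⟨P, a1, ?_, h4, ?_⟩
  · have := h3 0
    rwa [wst_Pfl_zero] at this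
  have : d₂ * P.2 1 1 - d₁ * P.2 0 0 = 0 := by
    refine sing_affine p (a := P.2 0 1) (R := R) fun s => ?_
    have := h3 s 0 1
    rw [Pfl_eq] at this
    simpa [h4] using this
  exact (sub_eq_zero.1 this).symm

theorem small_exc (μ : Measure W) [IsProbabilityMeasure μ] {x y : W → XX p} (hx : Continuous x)
    (hy : Continuous y) {q : ℕ} (hq : 0 < q) (δ : ℚ) (R : ℝ) {d₁ d₂ : ℚ_[p]} (h₁ : d₁ ≠ 0)
    (h₂ : d₂ ≠ 0) (h : μ {w | (x w, y w) ∈ NR p q δ (|R| + 1) d₁ d₂} = 0) :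
    Tendsto (fun r : ℕ => μ {w | ∃ P ∈ HomS p q δ (x w) (y w), Bd R P.1 ∧
      ∀ s : ℚ_[p], ‖s‖ ≤ (p : ℝ) ^ (r : ℤ) → Bd R (Pfl p d₁ d₂ s P.2)}) atTop (𝓝 0) := by
  have _ := h₁
  have hp : (1 : ℝ) < p := by exact_mod_cast (Fact.out : p.Prime).one_lt
  have hR : 0 < |R| + 1 := by positivity
  set U : ℕ → Set W := fun r => {w | ∃ P ∈ HomS p q δ (x w) (y w), (∀ i j, |P.1 i j| < |R| + 1) ∧
    ∀ s : ℚ_[p], ‖s‖ ≤ (p : ℝ) ^ (r : ℤ) → Bd (|R| + 1) (Pfl p d₁ d₂ s P.2)} with hU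
  have hUo : ∀ r, IsOpen (U r) := fun r =>
    (isOpen_hom q δ hR d₁ d₂ (r : ℤ)).preimage (hx.prodMk hy)
  have hUa : Antitone U := fun r r' hr w hw => by
    obtain ⟨P, a1, a2, a3⟩ := hw
    exact ⟨P, a1, a2, fun s hs => a3 s (hs.trans
      (zpow_le_zpow_right₀ hp.le (by exact_mod_cast hr)))⟩
  have hlim := tendsto_measure_iInter_atTop (μ := μ)
    (fun r => (hUo r).measurableSet.nullMeasurableSet) hUa ⟨0, measure_ne_top _ _⟩
  have h0 : μ (⋂ r, U r) = 0 := by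
    refine measure_mono_null (fun w hw => ?_) h
    refine wst_inter hq δ _ h₂ fun r => ?_
    obtain ⟨P, a1, a2, a3⟩ := Set.mem_iInter.1 hw r
    exact ⟨P, a1, fun i j => (a2 i j).le, a3⟩
  rw [h0] at hlim
  have hle : R ≤ |R| + 1 := (le_abs_self R).trans (by linarith)
  refine tendsto_of_tendsto_of_tendsto_of_le_of_le tendsto_const_nhds hlim (fun _ => zero_le)
    fun r => measure_mono ?_
  rintro w ⟨P, a1, a2, a3⟩
  exact ⟨P, a1, fun i j => lt_of_le_of_lt ((a2 i j).trans (le_abs_self R)) (by linarith),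
    fun s hs => lin_bd_mono (a3 s hs) hle⟩

/-- The unipotent flow at speed `d`. -/
def wstFl (p : ℕ) [Fact p.Prime] (d : ℚ_[p]) : Flow ℚ_[p] (XX p) where
  toFun s x := uP p (d * s) • x
  cont' := ((continuous_uP p).comp (continuous_const.mul continuous_fst)).smul continuous_snd
  map_add' s t x := by simp only [mul_add, uP_add, mul_smul]
  map_zero' x := by simp

theorem wst_erg {d : ℚ_[p]} (hd : d ≠ 0) : Erg (wstFl p d) (mX p) := by
  refine erg_of_ext _ (fun s => mX_inv p (uP p (d * s))) fun μ hμ hi => ?_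
  have : IsFiniteMeasure μ := isFiniteMeasure_of_le _ hμ
  refine eq_mX_of_P p μ fun g =>
    mautner_U1 p _ (mprop_Stab (mX p) μ (mX_inv p) hμ) (fun s => ?_) g
  have h1 : μ.map (fun x => uP p (d * (s / d)) • x) = μ := hi (s / d)
  rw [mul_div_cancel₀ _ hd] at h1
  exact h1

theorem exists_om (p : ℕ) [Fact p.Prime] {ε : ℝ≥0∞} (hε : 0 < ε) : ∃ Ω : Set (XX p),
    IsCompact Ω ∧ ∀ (j : ℕ) (d : ℚ_[p]), d ≠ 0 → Tendsto (fun r : ℕ =>
      mX p {x | ε < bm p r {s | aP p j • uP p (d * s) • x ∉ Ω}}) atTop (𝓝 0) ∧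
      ∀ r : ℕ, MeasurableSet {x | ε < bm p r {s | aP p j • uP p (d * s) • x ∉ Ω}} := by
  obtain ⟨K, -, hK, hlt⟩ := MeasurableSet.univ.exists_isCompact_sdiff_lt
    (measure_ne_top (mX p) _) hε.ne'
  obtain ⟨Ω, hΩ, hs⟩ := exists_compact_superset hK
  refine ⟨Ω, hΩ, fun j d hd => ?_⟩
  have hc : Continuous fun y : XX p => aP p j • y := continuous_const_smul _
  have hUo : IsOpen {y : XX p | aP p j • y ∉ Ω} := hΩ.isClosed.isOpen_compl.preimage hc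
  have hFc : IsClosed {y : XX p | aP p j • y ∉ interior Ω} :=
    isOpen_interior.isClosed_compl.preimage hc
  have hF : mX p {y : XX p | aP p j • y ∉ interior Ω} < ε := by
    have h1 := Measure.map_apply (μ := mX p) hc.measurable
      (isOpen_interior (s := Ω)).isClosed_compl.measurableSet
    rw [mX_inv] at h1
    refine lt_of_le_of_lt (le_of_eq h1.symm) (lt_of_le_of_lt (measure_mono ?_) hlt)
    exact fun y hy => ⟨trivial, fun hyK => hy (hs hyK)⟩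
  have he : ∀ (r : ℕ) (x : XX p), bm p r {s | aP p j • uP p (d * s) • x ∉ Ω} =
      orb (wstFl p d) r x {y : XX p | aP p j • y ∉ Ω} := fun r x =>
    (orb_apply (wstFl p d) r x hUo.measurableSet).symm
  have hm : ∀ r : ℕ, MeasurableSet {x | ε < bm p r {s | aP p j • uP p (d * s) • x ∉ Ω}} :=
    fun r => by
      simp only [he]
      exact measurableSet_lt measurable_const (dec_meas_orb _ _ hUo.measurableSet)
  refine ⟨?_, hm⟩
  have := tendsto_measure_of_ae_tendsto_indicator_of_isFiniteMeasure (μ := mX p) atTop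
    MeasurableSet.empty hm ?_
  · simpa using this
  filter_upwards [wst_erg hd] with x hx
  filter_upwards [WT.closed_lt hx hFc hF] with r hr
  refine iff_of_false (fun h1 => ?_) (Set.notMem_empty x)
  rw [he] at h1
  exact lt_irrefl _ (h1.trans (lt_of_le_of_lt
    (measure_mono fun y hy h2 => hy (interior_subset h2)) hr))

/-- A diagonal choice of radii. -/
theorem exists_rad {α T : Type} [MeasurableSpace α] [Countable T] (L : Filter ℕ)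
    (hL : L ≤ atTop) (μ : ℕ → Measure α) (B : T → ℕ → ℕ → Set α)
    (h : ∀ t, ∀ᶠ i in L, Tendsto (fun r => μ i (B t i r)) atTop (𝓝 0)) :
    ∃ (r : ℕ → ℕ) (Z : ℕ → Set α), Tendsto r atTop atTop ∧ (∀ i, MeasurableSet (Z i)) ∧
      Tendsto (fun i => μ i (Z i)) atTop (𝓝 0) ∧ ∀ t, ∀ᶠ i in L, B t i (r i) ⊆ Z i := by
  classical
  obtain ⟨f, hf⟩ := Countable.exists_injective_nat T
  have hfin : ∀ i, {t | f t ≤ i ∧ Tendsto (fun r => μ i (B t i r)) atTop (𝓝 0)}.Finite := fun i =>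
    ((Set.finite_Iic i).preimage hf.injOn).subset fun t ht => ht.1
  have key : ∀ i : ℕ, ∃ r : ℕ, i ≤ r ∧
      μ i (⋃ t ∈ (hfin i).toFinset, B t i r) ≤ ((i : ℝ≥0∞) + 1)⁻¹ := fun i => by
    have h1 : Tendsto (fun r => ∑ t ∈ (hfin i).toFinset, μ i (B t i r)) atTop (𝓝 0) := by
      have := tendsto_finset_sum (hfin i).toFinset
        (f := fun t r => μ i (B t i r)) (a := fun _ => 0) (x := atTop)
        fun t ht => ((hfin i).mem_toFinset.1 ht).2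
      simpa using this
    have h2 : (0 : ℝ≥0∞) < ((i : ℝ≥0∞) + 1)⁻¹ := ENNReal.inv_pos.2 (by simp)
    obtain ⟨r, a1, a2⟩ := ((eventually_ge_atTop i).and (h1.eventually (gt_mem_nhds h2))).exists
    exact ⟨r, a1, (measure_biUnion_finset_le _ _).trans a2.le⟩
  choose r hr1 hr2 using key
  refine ⟨r, fun i => toMeasurable (μ i) (⋃ t ∈ (hfin i).toFinset, B t i (r i)),
    tendsto_atTop_mono hr1 tendsto_id, fun i => measurableSet_toMeasurable _ _, ?_, fun t => ?_⟩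
  · have h3 : Tendsto (fun i : ℕ => ((i : ℝ≥0∞) + 1)⁻¹) atTop (𝓝 0) := by
      have := ENNReal.tendsto_inv_nat_nhds_zero.comp (tendsto_add_atTop_nat 1)
      simpa [Function.comp_def] using this
    refine tendsto_of_tendsto_of_tendsto_of_le_of_le tendsto_const_nhds h3 (fun _ => zero_le)
      fun i => ?_
    simpa only [measure_toMeasurable] using hr2 i
  · filter_upwards [h t, hL (eventually_ge_atTop (f t))] with i a1 a2
    refine Set.Subset.trans ?_ (subset_toMeasurable _ _)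
    exact Set.subset_biUnion_of_mem (u := fun t => B t i (r i))
      (show t ∈ ((hfin i).toFinset : Set T) from (hfin i).mem_toFinset.2 ⟨a2, a1⟩)

theorem integral_of_good {α : Type} [MeasurableSpace α] {L : Filter ℕ} (hL : L ≤ atTop)
    (μ : ℕ → Measure α) [∀ i, IsProbabilityMeasure (μ i)] (Z : ℕ → Set α)
    (hZ : ∀ i, MeasurableSet (Z i)) (h0 : Tendsto (fun i => μ i (Z i)) atTop (𝓝 0))
    (Φ : ℕ → α → ℝ) {C : ℝ} (hC : ∀ i x, |Φ i x| ≤ C)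
    (h : ∀ x : ℕ → α, (∀ᶠ i in L, x i ∉ Z i) → Tendsto (fun i => Φ i (x i)) L (𝓝 0)) :
    Tendsto (fun i => ∫ x, Φ i x ∂μ i) L (𝓝 0) := by
  have key : ∀ i : ℕ, ∃ x : α, (Z i)ᶜ.Nonempty →
      x ∉ Z i ∧ ∀ y, y ∉ Z i → |Φ i y| ≤ |Φ i x| + 1 / ((i : ℝ) + 1) := fun i => by
    by_cases hne : (Z i)ᶜ.Nonempty
    · have hb : BddAbove ((fun y => |Φ i y|) '' (Z i)ᶜ) := ⟨C, by rintro _ ⟨y, -, rfl⟩; exact hC i y⟩
      have hp : (0 : ℝ) < 1 / ((i : ℝ) + 1) := by positivity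
      obtain ⟨_, ⟨x, hx, rfl⟩, hlt⟩ := exists_lt_of_lt_csSup (hne.image fun y => |Φ i y|)
        (sub_lt_self (sSup ((fun y => |Φ i y|) '' (Z i)ᶜ)) hp)
      refine ⟨x, fun _ => ⟨hx, fun y hy => ?_⟩⟩
      have := le_csSup hb ⟨y, hy, rfl⟩
      simp only at this hlt
      linarith
    · exact ⟨(nonempty_of_isProbabilityMeasure (μ i)).some, fun h1 => (hne h1).elim⟩
  choose x hx using key
  have hne : ∀ᶠ i in L, (Z i)ᶜ.Nonempty := by
    filter_upwards [hL (h0.eventually (gt_mem_nhds zero_lt_one))] with i hi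
    by_contra hc
    rw [Set.not_nonempty_iff_eq_empty, Set.compl_empty_iff] at hc
    simp [hc] at hi
  have h1 := (h x (hne.mono fun i hi => (hx i hi).1)).abs
  have h2 : Tendsto (fun i : ℕ => 1 / ((i : ℝ) + 1)) L (𝓝 0) :=
    tendsto_one_div_add_atTop_nhds_zero_nat.mono_left hL
  have h3 : Tendsto (fun i => (μ i).real (Z i)) L (𝓝 0) := by
    have := (ENNReal.tendsto_toReal ENNReal.zero_ne_top).comp (h0.mono_left hL)
    simpa [Function.comp_def, Measure.real] using this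
  have h4 := (h1.add h2).add (h3.mul_const C)
  simp only [abs_zero, add_zero, zero_mul] at h4
  refine squeeze_zero_norm' ?_ h4
  filter_upwards [hne] with i hi
  have hI : Integrable ((Z i).indicator fun _ : α => C) (μ i) :=
    (integrable_const C).indicator (hZ i)
  refine (norm_integral_le_of_norm_le (g := fun y => (|Φ i (x i)| + 1 / ((i : ℝ) + 1)) +
    (Z i).indicator (fun _ => C) y) ((integrable_const _).add hI) (ae_of_all _ fun y => ?_)).trans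
    (le_of_eq ?_)
  · rw [Real.norm_eq_abs]
    by_cases hy : y ∈ Z i
    · rw [Set.indicator_of_mem hy]
      have : (0 : ℝ) ≤ |Φ i (x i)| + 1 / ((i : ℝ) + 1) := by positivity
      linarith [hC i y]
    · rw [Set.indicator_of_notMem hy, add_zero]
      exact (hx i hi).2 y hy
  · rw [integral_add (integrable_const _) hI, integral_indicator_const _ (hZ i)]
    simp

theorem stepM {N : ℕ} (hN : 0 < N) {ι : Type} [Fintype ι] [DecidableEq ι] (𝒰 : Ultrafilter ℕ)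
    (h𝒰 : (𝒰 : Filter ℕ) ≤ atTop) (μ : ℕ → Measure (ι → XN p N))
    [∀ i, IsProbabilityMeasure (μ i)] (a : ℕ → ι → SL(2, ℚ_[p])) (ha : ∀ i k, a i k ∈ Kp p)
    (d : ℕ → ι → ℚ_[p]) (e : ι → ℚ_[p]) (I J : Finset ι) (hJ : J ⊆ I) (he : ∀ k ∈ J, e k ≠ 0)
    (he' : ∀ k ∈ I, k ∉ J → e k = 0) (hd : ∀ k ∈ I, Tendsto (fun i => d i k) 𝒰 (𝓝 (e k)))
    (hi : ∀ i, Inv (uflN p N (d i)) (μ i)) (hm : ∀ i k, (μ i).map (fun w => w k) = mN p N)
    (hE : ∀ k ∈ J, ∀ l ∈ J, k ≠ l → ∀ q : ℕ, 0 < q → ∀ δ : ℚ, δ ≠ 0 → ∀ R : ℝ, ∀ᶠ i in 𝒰,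
      μ i {w | (cov p N (w k), cov p N (w l)) ∈ NR p q δ R (d i k) (d i l)} = 0)
    (φ : ι → (ℍ →ᵇ ℝ)) (hφ : ∀ k, GInv N (φ k)) :
    Tendsto (fun i => ∫ w, ∏ k ∈ I, φ k (ptX p N (((1, a i k) : GG p) • w k)) ∂μ i -
      (∏ k ∈ J, IN N (φ k)) *
        ∫ w, ∏ k ∈ I \ J, φ k (ptX p N (((1, a i k) : GG p) • w k)) ∂μ i) 𝒰 (𝓝 0) := by
  have hε : ∀ m : ℕ, (0 : ℝ≥0∞) < ((m : ℝ≥0∞) + 1)⁻¹ := fun m => ENNReal.inv_pos.2 (by simp)
  choose Ω hΩ hΩ' using fun m : ℕ => exists_om p (hε m)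
  have hd0 : ∀ k ∈ J, ∀ᶠ i in 𝒰, d i k ≠ 0 := fun k hk => (hd k (hJ hk)).eventually_ne (he k hk)
  have hcv : ∀ k, Continuous fun w : ι → XN p N => cov p N (w k) := fun k =>
    (continuous_cov p N).comp (continuous_apply k)
  obtain ⟨r, Z, hr, hZ, hZ0, hB⟩ := exists_rad (T := (ι × ι × ℕ × ℚ × ℕ) ⊕ (ι × ℕ × ℕ)) 𝒰 h𝒰 μ
    (fun t i r => Sum.elim
      (fun t : ι × ι × ℕ × ℚ × ℕ => {w : ι → XN p N |
        (t.1 ∈ J ∧ t.2.1 ∈ J ∧ t.1 ≠ t.2.1 ∧ 0 < t.2.2.1 ∧ t.2.2.2.1 ≠ 0) ∧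
        ∃ P ∈ HomS p t.2.2.1 t.2.2.2.1 (cov p N (w t.1)) (cov p N (w t.2.1)),
          Bd (t.2.2.2.2 : ℝ) P.1 ∧ ∀ s : ℚ_[p], ‖s‖ ≤ (p : ℝ) ^ (r : ℤ) →
            Bd (t.2.2.2.2 : ℝ) (Pfl p (d i t.1) (d i t.2.1) s P.2)})
      (fun t : ι × ℕ × ℕ => {w : ι → XN p N | t.1 ∈ J ∧ ((t.2.2 : ℝ≥0∞) + 1)⁻¹ <
        bm p r {s | aP p t.2.1 • uP p (d i t.1 * s) • cov p N (w t.1) ∉ Ω t.2.2}}) t) (by
    rintro (⟨k, l, q, δ, R⟩ | ⟨k, j, m⟩)
    · by_cases hc : k ∈ J ∧ l ∈ J ∧ k ≠ l ∧ 0 < q ∧ δ ≠ 0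
      · obtain ⟨c1, c2, c3, c4, c5⟩ := id hc
        filter_upwards [hd0 k c1, hd0 l c2, hE k c1 l c2 c3 q c4 δ c5 (|(R : ℝ)| + 1)]
          with i b1 b2 b3
        simpa only [Sum.elim_inl, hc, ne_eq, not_false_eq_true, and_self, true_and] using
          small_exc (μ i) (hcv k) (hcv l) c4 δ (R : ℝ) b1 b2 b3
      · refine Eventually.of_forall fun i => ?_
        simp only [Sum.elim_inl, hc, false_and, Set.setOf_false, measure_empty]
        exact tendsto_const_nhds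
    · by_cases hc : k ∈ J
      · filter_upwards [hd0 k hc] with i b1
        obtain ⟨o1, o2⟩ := hΩ' m j (d i k) b1
        refine o1.congr fun r => ?_
        rw [← map_cov hN, Measure.map_apply (continuous_cov p N).measurable (o2 r), ← hm i k,
          Measure.map_apply (measurable_pi_apply k) ((continuous_cov p N).measurable (o2 r))]
        simp only [Sum.elim_inr, hc, true_and]
        rfl
      · refine Eventually.of_forall fun i => ?_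
        simp only [Sum.elim_inr, hc, false_and, Set.setOf_false, measure_empty]
        exact tendsto_const_nhds)
  have hr' : Tendsto (fun i => (r i : ℤ)) 𝒰 atTop :=
    (tendsto_natCast_atTop_atTop.comp hr).mono_left h𝒰
  have hct : ∀ (S : Finset ι) (i : ℕ), Continuous fun w : ι → XN p N =>
      ∏ k ∈ S, φ k (ptX p N (((1, a i k) : GG p) • w k)) := fun S i =>
    continuous_finset_prod _ fun k _ => ((hφ k).continuous hN (φ k).continuous).comp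
      ((continuous_const_smul ((1, a i k) : GG p)).comp (continuous_apply k))
  have hbd : ∀ (S : Finset ι) (i : ℕ) (w : ι → XN p N),
      ‖∏ k ∈ S, φ k (ptX p N (((1, a i k) : GG p) • w k))‖ ≤ ∏ k ∈ S, ‖φ k‖ := fun S i w => by
    rw [norm_prod]
    exact Finset.prod_le_prod (fun _ _ => norm_nonneg _) fun k _ => (φ k).norm_coe_le_norm _
  set F : Finset ι → ℕ → ((ι → XN p N) →ᵇ ℝ) := fun S i =>
    BoundedContinuousFunction.ofNormedAddCommGroup _ (hct S i) _ (hbd S i) with hF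
  set G : Finset ι → ℕ → (ι → XN p N) → ℝ := fun S i w =>
    ∫ x, F S i x ∂orb (uflN p N (d i)) (r i) w with hG
  have hGb : ∀ S i w, |G S i w| ≤ ∏ k ∈ S, ‖φ k‖ := fun S i w => by
    have := norm_integral_le_of_norm_le_const (μ := orb (uflN p N (d i)) (r i) w)
      (f := fun x => F S i x) (ae_of_all _ (hbd S i))
    simpa using this
  have hGi : ∀ S i, Integrable (G S i) (μ i) := fun S i =>
    Integrable.of_bound (continuous_integral_orb _ _ _).aestronglyMeasurable _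
      (ae_of_all _ (hGb S i))
  have hGe : ∀ S i w, G S i w = ∫ s, ∏ k ∈ S,
      φ k (ptX p N (((1, a i k) : GG p) • uP p (d i k * s) • w k)) ∂bm p (r i) := fun S i w =>
    integral_orb _ _ _ (F S i).continuous
  have main := integral_of_good h𝒰 μ Z hZ hZ0
    (fun i w => G I i w - (∏ k ∈ J, IN N (φ k)) * G (I \ J) i w)
    (C := ∏ k ∈ I, ‖φ k‖ + |∏ k ∈ J, IN N (φ k)| * ∏ k ∈ I \ J, ‖φ k‖)
    (fun i w => (abs_sub _ _).trans (add_le_add (hGb _ _ _) (by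
      rw [abs_mul]
      exact mul_le_mul_of_nonneg_left (hGb _ _ _) (abs_nonneg _))))
    (fun x hx => by
      simp only [hGe]
      refine stepN hN 𝒰 h𝒰 x a ha d e I J hJ he he' hd (fun i => (r i : ℤ)) hr' ?_ ?_ φ hφ
      · intro k hk ε hε0
        obtain ⟨m, hm'⟩ := ENNReal.exists_inv_nat_lt hε0.ne'
        refine ⟨Ω m, hΩ m, fun j => ?_⟩
        filter_upwards [hx, hB (Sum.inr (k, j, m))] with i b1 b2
        refine le_trans (not_lt.1 fun hh => b1 (b2 ⟨hk, hh⟩)) (le_trans ?_ hm'.le)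
        exact ENNReal.inv_le_inv.2 le_self_add
      · intro k hk l hl hkl q hq δ hδ R
        filter_upwards [hx, hB (Sum.inl (k, l, q, δ, ⌈R⌉₊))] with i b1 b2 P hP b3
        by_contra hh
        push Not at hh
        exact b1 (b2 ⟨⟨hk, hl, hkl, hq, hδ⟩, P, hP, lin_bd_mono b3 (Nat.le_ceil R),
          fun s hs => lin_bd_mono (hh s hs) (Nat.le_ceil R)⟩))
  refine main.congr fun i => ?_
  rw [integral_sub (hGi _ _) ((hGi _ _).const_mul _), integral_const_mul]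
  exact congrArg₂ (fun u v => u - (∏ k ∈ J, IN N (φ k)) * v)
    ((hi i).integral_orb _ (r i) (F I i)) ((hi i).integral_orb _ (r i) (F (I \ J) i))

end Pool.Agent.EQ
end
end

-- part Pool.Agent.P.MP_ad7a55_nt.VI3
section

/-! Equidistribution for one class. -/

set_option autoImplicit false

noncomputable section

open MeasureTheory Topology Filter UpperHalfPlane
open scoped MatrixGroups ENNReal BoundedContinuousFunction

namespace Pool.Agent.EQ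

variable {n : ℕ} {N : ℕ} {F : IntermediateField ℚ ℂ} {τ : ℕ → Fin n → ℍ}
  {D : ℕ → Fin n → ℤ} {φ : Fin n → (ℍ →ᵇ ℝ)} {I : Finset (Fin n)}
  {ψ : ℕ → (Fin n × Fn → ℂ) → ℝ}

theorem vi3_step {L : Filter ℕ} (hI : I.Nonempty) (h : Eqd L N F τ φ I ψ) :
    StepN L N F τ φ I ψ := by
  refine ⟨I, subset_rfl, hI, ?_⟩
  have h1 : ∀ z, PT N F φ (I \ I) z = 1 := fun z => by
    rw [Finset.sdiff_self, PT, Finset.prod_empty]
  simp only [h1, mul_one]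
  exact h

theorem clsA (hN : 0 < N) [FiniteDimensional ℚ F] {𝒰 : Ultrafilter ℕ}
    (h𝒰 : (𝒰 : Filter ℕ) ≤ atTop) (hC : Cls 𝒰 τ D I) (hφ : ∀ k, Tst N F (φ k))
    (hψ : WtN 𝒰 D I ψ) (S : Finset ℕ) (hS : ∀ p ∈ S, p.Prime) {η : ℝ} (hη : 0 < η)
    (hdom : ∀ᶠ i in 𝒰, ∀ k ∈ I,
      |(D i k : ℝ)| ^ η ≤ ∏ p ∈ S, (p : ℝ) ^ padicValInt p (D i k)) : Eqd 𝒰 N F τ φ I ψ := by
  classical
  have hneg : ∀ i k, D i k < 0 := fun i k => (hC.disc i k).isD.1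
  refine eqd_of_step fun J hJI hJ => ?_
  obtain ⟨j₀, hj₀, h0⟩ := ultra_max 𝒰 hJ fun i k => -(D i k : ℝ)
  have hA : ∀ᶠ i in 𝒰,
      |(D i j₀ : ℝ)| ^ η ≤ ∏ p ∈ S, (p : ℝ) ^ padicValInt p (D i j₀) :=
    hdom.mono fun i hi => hi j₀ (hJI hj₀)
  have hSne : S.Nonempty := by
    rcases S.eq_empty_or_nonempty with rfl | h
    · obtain ⟨i, h1, h2⟩ := (hA.and (hC.inf 2)).exists
      rw [Finset.prod_empty] at h1
      have h3 : 1 < |(D i j₀ : ℝ)| := by linarith [h2 j₀ (hJI hj₀), neg_le_abs (D i j₀ : ℝ)]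
      exact absurd (Real.one_lt_rpow h3 hη) (not_lt.2 h1)
    · exact h
  have hSc : (0 : ℝ) < S.card := by exact_mod_cast hSne.card_pos
  obtain ⟨p, hp, h1⟩ := ultra_max 𝒰 hSne fun i p => (p : ℝ) ^ padicValInt p (D i j₀)
  obtain ⟨j, hj, h2⟩ := ultra_max 𝒰 hJ fun i k => padicValInt p (D i k)
  have : Fact p.Prime := ⟨hS p hp⟩
  have hp1 : (1 : ℝ) < p := by exact_mod_cast (hS p hp).one_lt
  refine stepU_a hN h𝒰 (hC.mono hJI) hφ (hψ.mono hJI) p hj h2 (div_pos hη hSc) ?_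
  filter_upwards [h0, h1, h2, hA] with i h0 h1 h2 h3 k hk
  have h4 : (D i j₀ : ℝ) < 0 := by exact_mod_cast hneg i j₀
  have h5 : (D i k : ℝ) < 0 := by exact_mod_cast hneg i k
  have h6 : (-(D i k : ℝ)) ^ η ≤ ((p : ℝ) ^ padicValInt p (D i j)) ^ S.card := by
    refine (Real.rpow_le_rpow (by linarith) (h0 k hk) hη.le).trans ?_
    rw [← abs_of_neg h4]
    refine h3.trans ?_
    rw [← Finset.prod_const]
    exact Finset.prod_le_prod (fun _ _ => by positivity) fun q hq =>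
      (h1 q hq).trans (pow_le_pow_right₀ hp1.le (h2 j₀ hj₀))
  have h7 : (-(D i k : ℝ)) ^ (η / S.card) ≤ (p : ℝ) ^ padicValInt p (D i j) := by
    rw [div_eq_mul_inv, Real.rpow_mul (by linarith)]
    refine (Real.rpow_le_rpow (Real.rpow_nonneg (by linarith) _) h6 (by positivity)).trans ?_
    rw [Real.pow_rpow_inv_natCast (by positivity) hSne.card_pos.ne']
  rw [norm_int_eq p (hneg i j).ne, zpow_neg, zpow_natCast, Real.rpow_neg (by linarith)]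
  exact inv_anti₀ (Real.rpow_pos_of_pos (by linarith) _) h7

theorem clsC (hN : 0 < N) [FiniteDimensional ℚ F] {𝒰 : Ultrafilter ℕ}
    (h𝒰 : (𝒰 : Filter ℕ) ≤ atTop) (hC : Cls 𝒰 τ D I) (hφ : ∀ k, Tst N F (φ k))
    (hψ : WtN 𝒰 D I ψ) (p q : ℕ) [Fact p.Prime] [Fact q.Prime]
    (hpq : p ≠ q) (h2 : p ≠ 2) (h2' : q ≠ 2) {L : ℝ}
    (hc : ∀ᶠ i in 𝒰, ∀ k ∈ I, Low L (D i k) ∧ (∃ κ, Spl p κ (D i k)) ∧ ∃ κ, Spl q κ (D i k)) :
    Eqd 𝒰 N F τ φ I ψ := by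
  classical
  refine eqd_of_step fun J hJI hJ => ?_
  have key : ∀ (l : ℕ) [Fact l.Prime], StepN 𝒰 N F τ φ J ψ ∨
      ∃ c : ℕ, ∀ᶠ i in 𝒰, ∀ k ∈ J, padicValInt l (D i k) ≤ c := by
    intro l _
    obtain ⟨j, hjI, h4⟩ := ultra_max 𝒰 hJ fun i k => padicValInt l (D i k)
    by_cases h5 : Tendsto (fun i => padicValInt l (D i j)) 𝒰 atTop
    · exact Or.inl (stepU_L hN h𝒰 (hC.mono hJI) hφ (hψ.mono hJI) l hjI h4 h5 (L := L)
        (hc.mono fun i hi k hk => (hi k (hJI hk)).1))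
    · rw [tendsto_atTop] at h5
      push Not at h5
      obtain ⟨c, h5⟩ := h5
      refine Or.inr ⟨c, ?_⟩
      filter_upwards [h4, h5] with i b1 b2 k hk
      exact (b1 k hk).trans b2.le
  rcases key p with h | ⟨c, h4⟩
  · exact h
  rcases key q with h | ⟨c', h5⟩
  · exact h
  refine vi3_step hJ (stepD hN h𝒰 (hC.mono hJI) hJ hφ (hψ.mono hJI) p q hpq h2 h2'
    (c := max c c') (L := L) ?_)
  filter_upwards [h4, h5, hc] with i b2 b3 b4 k hk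
  obtain ⟨b5, ⟨e, b6⟩, e', b7⟩ := b4 k (hJI hk)
  have c1 := b2 k hk
  have c2 := b3 k hk
  rw [Spl.val p b6] at c1
  rw [Spl.val q b7] at c2
  exact ⟨b5, ⟨e, by omega, b6⟩, e', by omega, b7⟩

end Pool.Agent.EQ
end
end

-- part Pool.Agent.P.MP_ad7a55_nt.WPs
section

/-! The maps between covers given by integral matrices. -/

set_option autoImplicit false

noncomputable section

open MeasureTheory Topology Filter UpperHalfPlane
open scoped MatrixGroups ENNReal BoundedContinuousFunction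

namespace Pool.Agent.EQ

variable (p : ℕ) [Fact p.Prime]

/-- `Ψ` sends `(g, h)` to `(g ξ⁻¹, η h ξ⁻¹)`, the first entry scaled to determinant one. -/
def IsPsi (N N₂ : ℕ) (ξ η : MZ) (Ψ : XN p N₂ → XN p N) : Prop :=
  Continuous Ψ ∧ ∃ c : ℝ, c ≠ 0 ∧ ∀ g : GG p, ∃ g' : GG p, Ψ (g : XN p N₂) = (g' : XN p N) ∧
    (g'.1 : Matrix (Fin 2) (Fin 2) ℝ) * ξ.map (↑) = c • (g.1 : Matrix (Fin 2) (Fin 2) ℝ) ∧
    (g'.2 : Matrix (Fin 2) (Fin 2) ℚ_[p]) * ξ.map (↑) =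
      η.map (↑) * (g.2 : Matrix (Fin 2) (Fin 2) ℚ_[p])

variable {p} {N N₂ : ℕ} {ξ η : MZ} {Ψ : XN p N₂ → XN p N}

theorem wps_det {F : Type} [Field F] (A : MZ) :
    (A.map ((↑) : ℤ → F)).det = (A.det : F) := by
  simp [Matrix.det_fin_two]

theorem wps_cancel {F : Type} [Field F] [CharZero F] {A : MZ} (hA : A.det ≠ 0)
    {P Q : Matrix (Fin 2) (Fin 2) F} (h : P * A.map (↑) = Q * A.map (↑)) : P = Q := by
  have hu : IsUnit (A.map ((↑) : ℤ → F)) := by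
    rw [Matrix.isUnit_iff_isUnit_det, wps_det]
    exact (Int.cast_ne_zero.2 hA).isUnit
  exact hu.mul_right_cancel h

theorem wps_mul {F : Type} [Field F] (A B : MZ) :
    (A * B).map ((↑) : ℤ → F) = A.map (↑) * B.map (↑) := by
  ext i j
  simp [Matrix.mul_apply]

theorem wps_QF {F : Type} [Field F] [CharZero F] (A : MZ) :
    (A.map ((↑) : ℤ → ℚ)).map ((↑) : ℚ → F) = A.map (↑) := by
  ext i j
  simp

theorem wps_adj (A : MZ) (i j : Fin 2) {F : Type} [Field F] :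
    (A.map ((↑) : ℤ → F)).adjugate i j = ((A.adjugate i j : ℤ) : F) := by
  fin_cases i <;> fin_cases j <;> simp [Matrix.adjugate_fin_two]

/-- The relation between the two representatives. -/
def wpsR (c : ℝ) (ξ η : MZ) (g g' : GG p) : Prop :=
  (g'.1 : Matrix (Fin 2) (Fin 2) ℝ) * ξ.map (↑) = c • (g.1 : Matrix (Fin 2) (Fin 2) ℝ) ∧
    (g'.2 : Matrix (Fin 2) (Fin 2) ℚ_[p]) * ξ.map (↑) =
      η.map (↑) * (g.2 : Matrix (Fin 2) (Fin 2) ℚ_[p])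

theorem wps_uniq {c : ℝ} (hξ : 0 < ξ.det) {g g' g'' : GG p} (h : wpsR c ξ η g g')
    (h' : wpsR c ξ η g g'') : g' = g'' :=
  Prod.ext (Subtype.ext (wps_cancel hξ.ne' (h.1.trans h'.1.symm)))
    (Subtype.ext (wps_cancel hξ.ne' (h.2.trans h'.2.symm)))

theorem wps_left {c : ℝ} {g g' : GG p} (h : wpsR c ξ η g g') (b : SL(2, ℝ))
    {k k' : SL(2, ℚ_[p])} (hk : (k' : Matrix (Fin 2) (Fin 2) ℚ_[p]) * η.map (↑) =
      η.map (↑) * (k : Matrix (Fin 2) (Fin 2) ℚ_[p])) :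
    wpsR c ξ η ((b, k) * g) ((b, k') * g') := by
  refine ⟨?_, ?_⟩
  · simp only [Prod.fst_mul, Matrix.SpecialLinearGroup.coe_mul]
    rw [Matrix.mul_assoc, h.1, Matrix.mul_smul]
  · simp only [Prod.snd_mul, Matrix.SpecialLinearGroup.coe_mul]
    rw [Matrix.mul_assoc, h.2, ← Matrix.mul_assoc, hk, Matrix.mul_assoc]

theorem wps_right {c : ℝ} {g g' : GG p} (h : wpsR c ξ η g g') {γ γ' : SL(2, ℚ)}
    (hγ : (γ' : Matrix (Fin 2) (Fin 2) ℚ) * ξ.map (↑) =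
      ξ.map (↑) * (γ : Matrix (Fin 2) (Fin 2) ℚ)) :
    wpsR c ξ η (g * emb p γ) (g' * emb p γ') := by
  have h1 := congrArg (fun A : Matrix (Fin 2) (Fin 2) ℚ => A.map ((↑) : ℚ → ℝ)) hγ
  have h2 := congrArg (fun A : Matrix (Fin 2) (Fin 2) ℚ => A.map ((↑) : ℚ → ℚ_[p])) hγ
  simp only [hom_map_mul, wps_QF] at h1 h2
  refine ⟨?_, ?_⟩
  · change g'.1.1 * γ'.1.map ((↑) : ℚ → ℝ) * _ = c • (g.1.1 * γ.1.map ((↑) : ℚ → ℝ))
    rw [Matrix.mul_assoc, h1, ← Matrix.mul_assoc, h.1, Matrix.smul_mul]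
  · change g'.2.1 * γ'.1.map ((↑) : ℚ → ℚ_[p]) * _ = _ * (g.2.1 * γ.1.map ((↑) : ℚ → ℚ_[p]))
    rw [Matrix.mul_assoc, h2, ← Matrix.mul_assoc, h.2, Matrix.mul_assoc]

theorem wps_conj (p : ℕ) (hN₂ : 0 < N₂) (hξ : 0 < ξ.det) (h : N * ξ.det.natAbs ∣ N₂)
    {γ : SL(2, ℚ)} (hγ : γ ∈ GamN p N₂) : ∃ γ' ∈ GamN p N,
      (γ' : Matrix (Fin 2) (Fin 2) ℚ) * ξ.map (↑) = ξ.map (↑) * (γ : Matrix (Fin 2) (Fin 2) ℚ) := by
  obtain ⟨m, hm⟩ := h
  have hN : (N : ℚ) ≠ 0 := by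
    rintro h0
    have : N = 0 := by exact_mod_cast h0
    simp [hm, this] at hN₂
  have hN' : (N₂ : ℚ) ≠ 0 := by exact_mod_cast hN₂.ne'
  have hm' : (N₂ : ℚ) = N * ξ.det * m := by
    rw [hm, Nat.cast_mul, Nat.cast_mul, Nat.cast_natAbs, abs_of_pos hξ]
  set X : Matrix (Fin 2) (Fin 2) ℚ := ξ.map (↑) with hX
  set A : Matrix (Fin 2) (Fin 2) ℚ := (N₂ : ℚ)⁻¹ • ((γ : Matrix (Fin 2) (Fin 2) ℚ) - 1) with hA
  have hA' : ∀ i j, InZp p (A i j) := fun i j => by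
    refine (congrArg (InZp p) ?_).mp (hγ.2 i j)
    rw [hA, Matrix.smul_apply, Matrix.sub_apply, smul_eq_mul, div_eq_inv_mul]
  set B : Matrix (Fin 2) (Fin 2) ℚ := (m : ℚ) • (X * A * X.adjugate) with hB
  have hB' : ∀ i j, InZp p (B i j) := fun i j => by
    have k := fun l n => ((inZp_int p (ξ i l)).mul (hA' l n)).mul (inZp_int p (ξ.adjugate n j))
    refine (congrArg (InZp p) ?_).mp
      ((inZp_int p m).mul (((k 0 0).add (k 1 0)).add ((k 0 1).add (k 1 1))))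
    simp only [hB, Matrix.smul_apply, Matrix.mul_apply, Fin.sum_univ_two, smul_eq_mul, hX, wps_adj,
      Matrix.map_apply, Int.cast_natCast]
    ring
  have e : (1 + (N : ℚ) • B) * X = X * (γ : Matrix (Fin 2) (Fin 2) ℚ) := by
    have e1 : (γ : Matrix (Fin 2) (Fin 2) ℚ) = 1 + (N₂ : ℚ) • A := by
      rw [hA, smul_smul, mul_inv_cancel₀ hN', one_smul, add_sub_cancel]
    have e2 : X.det = ((ξ.det : ℤ) : ℚ) := wps_det ξ
    clear_value B A X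
    rw [e1, hB, Matrix.add_mul, Matrix.mul_add, Matrix.one_mul, Matrix.mul_one, Matrix.smul_mul,
      Matrix.smul_mul, Matrix.mul_assoc, Matrix.adjugate_mul, Matrix.mul_smul, Matrix.mul_smul,
      Matrix.mul_one, smul_smul, smul_smul, e2, hm', mul_right_comm]
  have hd : (1 + (N : ℚ) • B).det = 1 := by
    have h1 := congrArg Matrix.det e
    rw [Matrix.det_mul, Matrix.det_mul, γ.det_coe, mul_one, hX, wps_det] at h1
    exact mul_right_cancel₀ (Int.cast_ne_zero.2 hξ.ne') (h1.trans (one_mul _).symm)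
  refine ⟨⟨_, hd⟩, ⟨fun i j => ?_, fun i j => ?_⟩, e⟩
  · exact ((GamQ p).one_mem i j).add (by simpa using (inZp_int p N).mul (hB' i j))
  · refine (congrArg (InZp p) ?_).mp (hB' i j)
    change _ = ((1 + (N : ℚ) • B) i j - _) / _
    rw [Matrix.add_apply, add_sub_cancel_left, Matrix.smul_apply, smul_eq_mul,
      mul_div_cancel_left₀ _ hN]

theorem exists_psi (p : ℕ) [Fact p.Prime] (hN₂ : 0 < N₂) (hξ : 0 < ξ.det) (hη : η.det = ξ.det)
    (h : N * ξ.det.natAbs ∣ N₂) : ∃ Ψ, IsPsi p N N₂ ξ η Ψ := by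
  obtain ⟨g₀, c, hc, hg₀⟩ := exists_real hξ
  have hd : ((ξ.det : ℤ) : ℚ_[p]) ≠ 0 := Int.cast_ne_zero.2 hξ.ne'
  have hdet : ∀ k : SL(2, ℚ_[p]), (((ξ.det : ℤ) : ℚ_[p])⁻¹ • (η.map ((↑) : ℤ → ℚ_[p]) *
      (k : Matrix (Fin 2) (Fin 2) ℚ_[p]) * (ξ.map ((↑) : ℤ → ℚ_[p])).adjugate)).det = 1 := by
    intro k
    rw [Matrix.det_smul, Matrix.det_mul, Matrix.det_mul, Matrix.det_adjugate, k.det_coe, wps_det,
      wps_det, hη, Fintype.card_fin]
    simp only [Nat.add_one_sub_one, pow_one]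
    field_simp
  let F : GG p → GG p := fun g => (g.1 * g₀⁻¹, ⟨_, hdet g.2⟩)
  have hF : ∀ g, wpsR c ξ η g (F g) := fun g => by
    refine ⟨?_, ?_⟩
    · have e : ξ.map ((↑) : ℤ → ℝ) = c • (g₀ : Matrix (Fin 2) (Fin 2) ℝ) := by
        ext i j
        exact hg₀ i j
      change ((g.1 * g₀⁻¹ : SL(2, ℝ)) : Matrix (Fin 2) (Fin 2) ℝ) * _ = _
      rw [e, Matrix.mul_smul, ← Matrix.SpecialLinearGroup.coe_mul, inv_mul_cancel_right]
    · change (((ξ.det : ℤ) : ℚ_[p])⁻¹ • _) * _ = _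
      rw [Matrix.smul_mul, Matrix.mul_assoc, Matrix.adjugate_mul, Matrix.mul_smul, Matrix.mul_one,
        smul_smul, wps_det, inv_mul_cancel₀ hd, one_smul]
  have hFc : Continuous F := by
    refine (continuous_fst.mul continuous_const).prodMk (Continuous.subtype_mk ?_ _)
    have h2 : Continuous fun g : GG p => (g.2 : Matrix (Fin 2) (Fin 2) ℚ_[p]) :=
      continuous_subtype_val.comp continuous_snd
    have h3 : Continuous fun g : GG p => η.map ((↑) : ℤ → ℚ_[p]) *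
        (g.2 : Matrix (Fin 2) (Fin 2) ℚ_[p]) * (ξ.map ((↑) : ℤ → ℚ_[p])).adjugate :=
      (continuous_const.matrix_mul h2).matrix_mul continuous_const
    exact h3.const_smul ((ξ.det : ℤ) : ℚ_[p])⁻¹
  refine ⟨Quotient.map' F fun a b hab => ?_, ?_, c, hc, fun g => ⟨F g, rfl, hF g⟩⟩
  · rw [QuotientGroup.leftRel_apply] at hab ⊢
    obtain ⟨γ, hγ, e⟩ := hab
    obtain ⟨γ', hγ', e'⟩ := wps_conj p hN₂ hξ h hγ
    have h1 := wps_right (hF a) e'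
    rw [e, mul_inv_cancel_left] at h1
    rw [wps_uniq hξ (hF b) h1, inv_mul_cancel_left]
    exact ⟨γ', hγ', rfl⟩
  · refine (QuotientGroup.isQuotientMap_mk (GN p N₂)).continuous_iff.2 ?_
    exact QuotientGroup.continuous_mk.comp hFc

theorem IsPsi.smul (h : IsPsi p N N₂ ξ η Ψ) (hξ : 0 < ξ.det) (b : SL(2, ℝ))
    {k k' : SL(2, ℚ_[p])} (hk : (k' : Matrix (Fin 2) (Fin 2) ℚ_[p]) * η.map (↑) =
      η.map (↑) * (k : Matrix (Fin 2) (Fin 2) ℚ_[p])) (x : XN p N₂) :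
    Ψ (((b, k) : GG p) • x) = ((b, k') : GG p) • Ψ x := by
  obtain ⟨-, c, -, hc⟩ := h
  obtain ⟨g, rfl⟩ := QuotientGroup.mk_surjective x
  obtain ⟨g', e, hg'⟩ := hc g
  obtain ⟨g'', e', hg''⟩ := hc ((b, k) * g)
  rw [MulAction.Quotient.smul_coe, smul_eq_mul, e, e', MulAction.Quotient.smul_coe, smul_eq_mul,
    wps_uniq hξ hg'' (wps_left hg' b hk)]

theorem IsPsi.map (h : IsPsi p N N₂ ξ η Ψ) (hξ : 0 < ξ.det) (hN : 0 < N) (hN₂ : 0 < N₂) :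
    (mN p N₂).map Ψ = mN p N := by
  have hm := h.1.measurable
  have := Measure.isProbabilityMeasure_map (μ := mN p N₂) hm.aemeasurable
  have h1 := eq_mN_of_R hN ((mN p N₂).map Ψ) fun g => by
    rw [mem_Stab, Measure.map_map (measurable_const_smul _) hm]
    conv_rhs => rw [← mN_inv hN₂ (g, 1), Measure.map_map hm (measurable_const_smul _)]
    congr 1
    funext x
    exact (h.smul hξ g (by simp) x).symm
  rwa [measure_univ, one_smul] at h1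

theorem IsPsi.flow {a b d : ℤ} (h : IsPsi p N N₂ ξ !![a, b; 0, d] Ψ) (hξ : 0 < ξ.det)
    (hd : d ≠ 0) (s : ℚ_[p]) (x : XN p N₂) :
    Ψ (uP p s • x) = uP p ((a : ℚ_[p]) / d * s) • Ψ x := by
  have hd' : (d : ℚ_[p]) ≠ 0 := Int.cast_ne_zero.2 hd
  refine h.smul hξ 1 ?_ x
  ext i j
  fin_cases i <;> fin_cases j <;> simp [Matrix.mul_apply, Fin.sum_univ_two]
  field_simp
  ring

theorem IsPsi.pt (h : IsPsi p N N₂ ξ η Ψ) (hξ : 0 < ξ.det) (hN : 0 < N) (hN₂ : 0 < N₂)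
    (hd : N * ξ.det.natAbs ∣ N₂) {γ : SL(2, ℤ)} (hγ : ξ = (γ : MZ) * η) {β : Type} {f : ℍ → β}
    (hf : GInv N f) (x : XN p N₂) :
    f (ptX p N (((1, toP p γ) : GG p) • Ψ x)) = f (act ξ (ptX p N₂ x)) := by
  obtain ⟨-, c, hc, h⟩ := h
  obtain ⟨g, hg, rfl⟩ := exists_repN hN₂ x
  obtain ⟨g', e, h1, h2⟩ := h g
  have hdp : ((ξ.det : ℤ) : ℚ_[p]) ≠ 0 := Int.cast_ne_zero.2 hξ.ne'
  set X : Matrix (Fin 2) (Fin 2) ℚ_[p] := ξ.map (↑) with hX
  have e1 : ((toP p γ * g'.2 : SL(2, ℚ_[p])) : Matrix (Fin 2) (Fin 2) ℚ_[p]) * X =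
      X * (g.2 : Matrix (Fin 2) (Fin 2) ℚ_[p]) := by
    rw [Matrix.SpecialLinearGroup.coe_mul, Matrix.mul_assoc, h2, ← Matrix.mul_assoc]
    congr 1
    rw [hX, hγ, wps_mul]
    rfl
  have hk : toP p γ * g'.2 ∈ KN p N := by
    refine vgn_mem fun i j => ?_
    have e2 : ((ξ.det : ℤ) : ℚ_[p]) •
        (((toP p γ * g'.2 : SL(2, ℚ_[p])) : Matrix (Fin 2) (Fin 2) ℚ_[p]) - 1) =
        X * ((g.2 : Matrix (Fin 2) (Fin 2) ℚ_[p]) - 1) * X.adjugate := by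
      rw [Matrix.mul_sub, ← e1, Matrix.mul_one, Matrix.sub_mul, Matrix.mul_assoc _ X,
        Matrix.mul_adjugate, Matrix.mul_smul, Matrix.mul_one, hX, wps_det, smul_sub]
    have b1 : Bd 1 X := fun i j => Padic.norm_int_le_one _
    have b2 : Bd 1 X.adjugate := fun i j => by
      rw [hX, wps_adj]
      exact Padic.norm_int_le_one _
    have b3 : Bd ‖(N₂ : ℚ_[p])‖ ((g.2 : Matrix (Fin 2) (Fin 2) ℚ_[p]) - 1) := hg.2
    have b4 := hom_bd_mulP (hom_bd_mulP b1 b3) b2 i j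
    rw [← e2, one_mul, mul_one, Matrix.smul_apply, smul_eq_mul, norm_mul] at b4
    obtain ⟨m, rfl⟩ := hd
    rw [Nat.cast_mul, Nat.cast_mul, Nat.cast_natAbs, abs_of_pos hξ, norm_mul, norm_mul] at b4
    refine le_of_mul_le_mul_left (b4.trans ?_) (norm_pos_iff.2 hdp)
    rw [mul_comm ‖(N : ℚ_[p])‖]
    exact mul_le_of_le_one_right (by positivity) (vgn_nat m)
  have e3 := hf.pt_K hN (g := (1, toP p γ) * g') hk
  have e4 := ((hf.act hξ).mono hd).pt_K hN₂ hg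
  have e5 := (act_real (ξ := ξ) (g := g'.1⁻¹ * g.1) hc (fun i j => by
    have h3 : ξ.map ((↑) : ℤ → ℝ) =
        c • ((g'.1⁻¹ * g.1 : SL(2, ℝ)) : Matrix (Fin 2) (Fin 2) ℝ) := by
      rw [Matrix.SpecialLinearGroup.coe_mul, ← Matrix.mul_smul, ← h1, ← Matrix.mul_assoc,
        sing_inv_mul, Matrix.one_mul]
    exact congrFun (congrFun h3 i) j) (g.1⁻¹ • UpperHalfPlane.I)).2
  rw [e, ptX_smul, e3]
  refine Eq.trans ?_ e4.symm
  rw [e5, mul_smul, smul_inv_smul, Prod.fst_mul, one_mul]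

theorem wps_scal {F : Type} [Field F] [CharZero F] (g : SL(2, F)) (W : Matrix (Fin 2) (Fin 2) ℚ)
    (h1 : sing_cj g W 0 1 = 0) (h2 : sing_cj g W 1 0 = 0)
    (h3 : sing_cj g W 0 0 = sing_cj g W 1 1) : W 0 1 = 0 ∧ W 1 0 = 0 ∧ W 0 0 = W 1 1 := by
  have e : sing_cj g W = sing_cj g W 0 0 • (1 : Matrix (Fin 2) (Fin 2) F) := by
    ext i j
    fin_cases i <;> fin_cases j <;> simp [h1, h2, h3]
  generalize sing_cj g W 0 0 = t at e
  have e1 := (sing_cj_iff g W _).2 e.symm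
  have e2 := congrArg (fun M => ((g⁻¹ : SL(2, F)) : Matrix (Fin 2) (Fin 2) F) * M) e1
  simp only [Matrix.smul_mul, Matrix.mul_smul, ← Matrix.mul_assoc, sing_inv_mul,
    Matrix.one_mul] at e2
  have k := fun i j => congrFun (congrFun e2 i) j
  have k01 := k 0 1
  have k10 := k 1 0
  have k00 := k 0 0
  have k11 := k 1 1
  simp only [Matrix.smul_apply, Matrix.map_apply, Matrix.one_apply_eq, smul_eq_mul, mul_one, ne_eq,
    zero_ne_one, one_ne_zero, not_false_eq_true, Matrix.one_apply_ne, mul_zero] at k01 k10 k00 k11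
  exact ⟨by exact_mod_cast k01.symm, by exact_mod_cast k10.symm,
    by exact_mod_cast k00.symm.trans k11⟩

theorem wps_sub {F : Type} [Field F] [CharZero F] (W : Matrix (Fin 2) (Fin 2) F) :
    {s : F | ((ul s : Matrix (Fin 2) (Fin 2) F) * W * ((ul s)⁻¹ : SL(2, F))) 0 1 ≠ 0 ∧
      ((ul s : Matrix (Fin 2) (Fin 2) F) * W * ((ul s)⁻¹ : SL(2, F))) 0 0 =
        ((ul s : Matrix (Fin 2) (Fin 2) F) * W * ((ul s)⁻¹ : SL(2, F))) 1 1}.Subsingleton := by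
  have hs : ∀ s : F, (ul s : Matrix (Fin 2) (Fin 2) F) * W * ((ul s)⁻¹ : SL(2, F)) =
      !![W 0 0 - W 0 1 * s, W 0 1;
        W 1 0 + s * (W 0 0 - W 1 1) - s ^ 2 * W 0 1, s * W 0 1 + W 1 1] := fun s => by
    rw [ul_inv, ul_val, ul_val]
    conv_lhs => rw [Matrix.eta_fin_two W]
    simp only [Matrix.mul_fin_two]
    ext i j
    fin_cases i <;> fin_cases j <;> simp <;> ring
  intro s hs1 t ht1
  simp only [Set.mem_ofPred_eq, hs] at hs1 ht1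
  simp only [Matrix.of_apply, Matrix.cons_val', Matrix.cons_val_zero, Matrix.cons_val_one,
    Matrix.cons_val_fin_one] at hs1 ht1
  have : (2 * W 0 1) * s = (2 * W 0 1) * t := by linear_combination ht1.2 - hs1.2
  exact mul_left_cancel₀ (mul_ne_zero two_ne_zero hs1.1) this

theorem wps_emb (g : GG p) (γ : SL(2, ℚ)) (W : Matrix (Fin 2) (Fin 2) ℚ) :
    sing_cj (g * emb p γ).2 W = sing_cj g.2 ((γ : Matrix (Fin 2) (Fin 2) ℚ) * W *
      ((γ⁻¹ : SL(2, ℚ)) : Matrix (Fin 2) (Fin 2) ℚ)) := by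
  rw [sing_cj, sing_cj, Prod.snd_mul, mul_inv_rev, ← Prod.snd_inv, ← map_inv, hom_map_mul,
    hom_map_mul]
  simp only [Matrix.SpecialLinearGroup.coe_mul, Matrix.mul_assoc]
  rfl

/-- Frames in which a rational matrix that is not scalar is triangular with one eigenvalue. -/
theorem null_tri (p : ℕ) [Fact p.Prime] (hN : 0 < N) : mN p N {x | ∃ g : GG p, (g : XN p N) = x ∧
    ∃ W : Matrix (Fin 2) (Fin 2) ℚ, ¬ (W 0 1 = 0 ∧ W 1 0 = 0 ∧ W 0 0 = W 1 1) ∧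
      sing_cj g.2 W 1 0 = 0 ∧ sing_cj g.2 W 0 0 = sing_cj g.2 W 1 1} = 0 := by
  have : Countable (Matrix (Fin 2) (Fin 2) ℚ) := inferInstanceAs (Countable (Fin 2 → Fin 2 → ℚ))
  set E : Set (XN p N) := {x | ∃ g : GG p, (g : XN p N) = x ∧
    ∃ W : Matrix (Fin 2) (Fin 2) ℚ, ¬ (W 0 1 = 0 ∧ W 1 0 = 0 ∧ W 0 0 = W 1 1) ∧
      sing_cj g.2 W 1 0 = 0 ∧ sing_cj g.2 W 0 0 = sing_cj g.2 W 1 1} with hE
  have hM : MeasurableSet E := by
    have e : E = ⋃ W : Matrix (Fin 2) (Fin 2) ℚ, ⋃ _ : ¬ (W 0 1 = 0 ∧ W 1 0 = 0 ∧ W 0 0 = W 1 1),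
        (fun g : GG p => (g : XN p N)) ''
          {g | sing_cj g.2 W 1 0 = 0 ∧ sing_cj g.2 W 0 0 = sing_cj g.2 W 1 1} := by
      ext x
      simp only [Set.mem_iUnion]
      exact ⟨fun ⟨g, h1, W, h2, h3⟩ => ⟨W, h2, g, h3, h1⟩,
        fun ⟨W, h2, g, h3, h1⟩ => ⟨g, h1, W, h2, h3⟩⟩
    rw [e]
    refine MeasurableSet.iUnion fun W => MeasurableSet.iUnion fun _ => join_meas_sigma ?_
    have hc : ∀ i j, Continuous fun g : GG p => sing_cj g.2 W i j := fun i j =>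
      ((sing_cj_cont W).comp continuous_snd).matrix_elem i j
    exact (isSigmaCompact_univ.of_isClosed_subset ((isClosed_eq (hc 1 0) continuous_const).inter
      (isClosed_eq (hc 0 0) (hc 1 1))) (Set.subset_univ _)).image QuotientGroup.continuous_mk
  have hcount : ∀ x : XN p N, {s : ℚ_[p] | ((1, ul s) : GG p) • x ∈ E}.Countable := fun x => by
    obtain ⟨g₀, rfl⟩ := QuotientGroup.mk_surjective x
    refine (Set.countable_iUnion fun W : Matrix (Fin 2) (Fin 2) ℚ =>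
      (wps_sub (sing_cj g₀.2 W)).countable).mono ?_
    rintro s ⟨g, h1, W, h2, h3, h4⟩
    obtain ⟨γ, -, e⟩ : ((1, ul s) * g₀)⁻¹ * g ∈ GN p N := QuotientGroup.eq.1 h1.symm
    obtain rfl : g = (1, ul s) * g₀ * emb p γ := by rw [e, mul_inv_cancel_left]
    have h5 : sing_cj ((1, ul s) * g₀ * emb p γ : GG p).2 W 0 1 ≠ 0 := fun h =>
      h2 (wps_scal _ W h h3 h4)
    rw [wps_emb, Prod.snd_mul, sing_cj_mul] at h4 h5
    exact Set.mem_iUnion.2 ⟨_, h5, h4⟩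
  have hc : Continuous fun w : XN p N × ℚ_[p] => ((1, ul w.2) : GG p) • w.1 := by
    have h : Continuous fun w : XN p N × ℚ_[p] => ((1, ul w.2) : GG p) :=
      continuous_const.prodMk (continuous_ul.comp continuous_snd)
    exact h.smul continuous_fst
  have hA := hc.measurable hM
  have h1 := Measure.prod_apply (μ := mN p N) (ν := bm p 0) hA
  have h2 := Measure.prod_apply_symm (μ := mN p N) (ν := bm p 0) hA
  have h3 : ∀ x : XN p N, bm p 0 (Prod.mk x ⁻¹' ((fun w : XN p N × ℚ_[p] =>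
      ((1, ul w.2) : GG p) • w.1) ⁻¹' E)) = 0 := fun x => bm_countable p 0 (hcount x)
  have h4 : ∀ s : ℚ_[p], mN p N ((fun x => (x, s)) ⁻¹' ((fun w : XN p N × ℚ_[p] =>
      ((1, ul w.2) : GG p) • w.1) ⁻¹' E)) = mN p N E := fun s => by
    conv_rhs => rw [← mN_inv hN (1, ul s), Measure.map_apply (measurable_const_smul _) hM]
    rfl
  simp only [h3, lintegral_zero] at h1
  simp only [h4, lintegral_const, measure_univ, mul_one] at h2
  rw [← h2, h1]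

theorem wps_isog {q c : ℕ} (hq : 0 < q) {δ l : ℚ} (hδ : δ ≠ 0) {R : ℝ} (hc : R ≤ (p : ℝ) ^ c)
    {ξ' : MZ} (hξ : 0 < ξ.det) (hξ' : 0 < ξ'.det) {ζ : Matrix (Fin 2) (Fin 2) ℚ}
    (hζ : ∀ i j, InZp p (q * ζ i j)) (hd : ζ.det = δ) (hb : Bd R (ζ.map ((↑) : ℚ → ℚ_[p])))
    (h : l • ξ'.map ((↑) : ℤ → ℚ) = ζ * ξ.map (↑)) (τ : ℍ) :
    Isog ((p ^ c * q) ^ 2 * δ.num.natAbs) (jInv (act ξ' τ)) (jInv (act ξ τ)) := by
  have hp : p.Prime := Fact.out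
  have hp0 : (0 : ℝ) < p := by exact_mod_cast hp.pos
  choose n hn using fun i j => exc_int p (x := ((p ^ c : ℤ) : ℚ) * (q * ζ i j))
    ((inZp_int p _).mul (hζ i j)) (by
      push_cast
      rw [norm_mul, norm_mul, norm_pow, Padic.norm_p, inv_pow, inv_mul_le_iff₀ (by positivity),
        mul_one]
      exact (mul_le_of_le_one_left (norm_nonneg _) (vgn_nat q)).trans ((hb i j).trans hc))
  set t : ℚ := (p : ℚ) ^ c * q with ht
  have ht0 : t ≠ 0 := mul_ne_zero (pow_ne_zero _ (Nat.cast_ne_zero.2 hp.ne_zero))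
    (Nat.cast_ne_zero.2 hq.ne')
  have e1 : (Matrix.of n : MZ).map ((↑) : ℤ → ℚ) = t • ζ := by
    ext i j
    rw [Matrix.map_apply, Matrix.of_apply, ← hn, Matrix.smul_apply, smul_eq_mul, ht]
    push_cast
    ring
  generalize (Matrix.of n : MZ) = ν at e1
  have e2 : ((ν.det : ℤ) : ℚ) = t ^ 2 * δ := by
    rw [← wps_det, e1, Matrix.det_smul, hd, Fintype.card_fin]
  have e3 := congrArg Matrix.det h
  rw [Matrix.det_smul, Matrix.det_mul, wps_det, wps_det, hd, Fintype.card_fin] at e3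
  have x1 : (0 : ℚ) < ξ.det := by exact_mod_cast hξ
  have x2 : (0 : ℚ) < ξ'.det := by exact_mod_cast hξ'
  have hl : l ≠ 0 := by
    rintro rfl
    exact mul_ne_zero hδ x1.ne' (by simpa using e3.symm)
  have hδ' : 0 < δ := by
    have : 0 < δ * ξ.det := by rw [← e3]; positivity
    exact (mul_pos_iff_of_pos_right x1).1 this
  have hν : 0 < ν.det := by
    have : (0 : ℚ) < ν.det := by rw [e2]; positivity
    exact_mod_cast this
  have e4 : ((t * l).den : ℤ) • (ν * ξ) = (t * l).num • ξ' := by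
    refine Matrix.map_injective (Int.cast_injective (α := ℚ)) ?_
    have e5 : (ν * ξ).map ((↑) : ℤ → ℚ) = (t * l) • ξ'.map ((↑) : ℤ → ℚ) := by
      rw [wps_mul, e1, Matrix.smul_mul, ← h, smul_smul]
    ext i j
    have e6 := congrFun (congrFun e5 i) j
    simp only [Matrix.map_apply, Matrix.smul_apply, smul_eq_mul, Int.cast_mul,
      Int.cast_natCast] at e6 ⊢
    rw [e6, ← mul_assoc, Rat.den_mul_eq_num]
  have e7 : act ξ' τ = act ν (act ξ τ) := by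
    rw [← act_mul hν hξ, ← act_smul (ξ := ν * ξ) (by rw [Matrix.det_mul]; positivity)
      (m := (t * l).den) (Int.natCast_ne_zero.2 (t * l).den_nz), e4,
      act_smul hξ' (Rat.num_ne_zero.2 (mul_ne_zero ht0 hl))]
  rw [e7]
  refine (isog_act hν _).mono ⟨δ.den, ?_⟩
  have e8 : (((p ^ c * q) ^ 2 * δ.num.natAbs : ℕ) : ℚ) = ((ν.det.natAbs * δ.den : ℕ) : ℚ) := by
    push_cast
    rw [Nat.cast_natAbs, Nat.cast_natAbs, abs_of_pos hν, abs_of_pos (Rat.num_pos.2 hδ'), e2,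
      ← Rat.mul_den_eq_num, ht]
    ring
  exact_mod_cast e8

theorem psi_null (p : ℕ) [Fact p.Prime] {q : ℕ} (hq : 0 < q) {δ : ℚ} (hδ : δ ≠ 0) (R : ℝ) :
    ∃ M : ℕ, 0 < M ∧
    ∀ (N N₂ : ℕ) (ξ ξ' : MZ) (γ γ' : SL(2, ℤ)) (a b d a' b' d' : ℤ) (Ψ Ψ' : XN p N₂ → XN p N)
      (v : ℚ_[p]), 0 < N₂ → 0 < ξ.det → 0 < ξ'.det → ξ = (γ : MZ) * !![a, b; 0, d] →
      ξ' = (γ' : MZ) * !![a', b'; 0, d'] → IsPsi p N N₂ ξ !![a, b; 0, d] Ψ →
      IsPsi p N N₂ ξ' !![a', b'; 0, d'] Ψ' → v ≠ 0 →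
      (∃ τ, ¬ Isog M (jInv (act ξ τ)) (jInv (act ξ' τ))) →
      mN p N₂ {x | (cov p N (Ψ x), cov p N (Ψ' x)) ∈
        NR p q δ R ((a : ℚ_[p]) / d * v) ((a' : ℚ_[p]) / d' * v)} = 0 := by
  have hp : p.Prime := Fact.out
  have hp1 : (1 : ℝ) < p := by exact_mod_cast hp.one_lt
  obtain ⟨c, hc⟩ := pow_unbounded_of_one_lt R hp1
  have hM : 0 < (p ^ c * q) ^ 2 * δ.num.natAbs :=
    Nat.mul_pos (pow_pos (Nat.mul_pos (pow_pos hp.pos c) hq) 2)
      (Int.natAbs_pos.2 (Rat.num_ne_zero.2 hδ))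
  refine ⟨_, hM, ?_⟩
  rintro N N₂ ξ ξ' γ γ' a b d a' b' d' Ψ Ψ' v hN₂ hξ hξ' eξ eξ' ⟨-, c₁, -, h₁⟩ ⟨-, c₂, -, h₂⟩ hv
    ⟨τ, hτ⟩
  refine measure_mono_null ?_ (null_tri p hN₂)
  rintro x ⟨P, hP, hR, h10, hdg⟩
  obtain ⟨g, rfl⟩ := QuotientGroup.mk_surjective x
  obtain ⟨g₁, e₁, -, r₁⟩ := h₁ g
  obtain ⟨g₂, e₂, -, r₂⟩ := h₂ g
  obtain ⟨ζ, hζ, hζd, -, hh⟩ := HomS.rep hP (g := g₁) (g' := g₂) (by rw [e₁]; rfl)
    (by rw [e₂]; rfl)
  have had : ξ.det = a * d := by rw [eξ, Matrix.det_mul, γ.det_coe]; simp [Matrix.det_fin_two]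
  have had' : ξ'.det = a' * d' := by
    rw [eξ', Matrix.det_mul, γ'.det_coe]; simp [Matrix.det_fin_two]
  have hd : (d : ℚ_[p]) ≠ 0 := Int.cast_ne_zero.2 (right_ne_zero_of_mul (had ▸ hξ.ne'))
  have ha' : (a' : ℚ_[p]) ≠ 0 := Int.cast_ne_zero.2 (left_ne_zero_of_mul (had' ▸ hξ'.ne'))
  have hd' : (d' : ℚ_[p]) ≠ 0 := Int.cast_ne_zero.2 (right_ne_zero_of_mul (had' ▸ hξ'.ne'))
  have hq' : ((ξ'.det : ℤ) : ℚ) ≠ 0 := Int.cast_ne_zero.2 hξ'.ne'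
  obtain ⟨W, hW⟩ : ∃ W : Matrix (Fin 2) (Fin 2) ℚ, ξ'.map (↑) * W = ζ * ξ.map (↑) := by
    refine ⟨((ξ'.det : ℤ) : ℚ)⁻¹ • ((ξ'.map (↑)).adjugate * (ζ * ξ.map (↑))), ?_⟩
    rw [Matrix.mul_smul, ← Matrix.mul_assoc, Matrix.mul_adjugate, Matrix.smul_mul, Matrix.one_mul,
      smul_smul, wps_det, inv_mul_cancel₀ hq', one_smul]
  have hWp := congrArg (fun A : Matrix (Fin 2) (Fin 2) ℚ => A.map ((↑) : ℚ → ℚ_[p])) hW
  simp only [hom_map_mul, wps_QF] at hWp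
  have key : P.2 * (!![a, b; 0, d] : MZ).map (↑) =
      (!![a', b'; 0, d'] : MZ).map (↑) * sing_cj g.2 W := by
    rw [sing_cj, ← Matrix.mul_assoc, ← Matrix.mul_assoc, ← r₂, Matrix.mul_assoc _ _ (W.map _), hWp,
      ← Matrix.mul_assoc, ← hh, Matrix.mul_assoc P.2, r₁, Matrix.mul_assoc, Matrix.mul_assoc,
      sing_mul_inv, Matrix.mul_one]
  have k10 := congrFun (congrFun key 1) 0
  have k00 := congrFun (congrFun key 0) 0
  have k11 := congrFun (congrFun key 1) 1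
  simp only [Matrix.mul_apply, Fin.sum_univ_two, Matrix.map_apply, Matrix.of_apply,
    Matrix.cons_val', Matrix.cons_val_zero, Matrix.cons_val_one, Matrix.cons_val_fin_one, h10,
    Int.cast_zero, zero_mul, mul_zero, add_zero, zero_add] at k10 k00 k11
  have v10 : sing_cj g.2 W 1 0 = 0 := (mul_eq_zero.1 k10.symm).resolve_left hd'
  have v00 : sing_cj g.2 W 0 0 = sing_cj g.2 W 1 1 := by
    rw [v10, mul_zero, add_zero] at k00
    have h3 : (a : ℚ_[p]) * P.2 0 0 * d' = a' * P.2 1 1 * d := by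
      have h4 : (a : ℚ_[p]) / d * v * P.2 0 0 = (a' : ℚ_[p]) / d' * v * P.2 1 1 := hdg
      field_simp at h4
      linear_combination h4
    refine mul_left_cancel₀ (mul_ne_zero ha' hd') ?_
    linear_combination h3 - (d' : ℚ_[p]) * k00 + (a' : ℚ_[p]) * k11
  refine ⟨g, rfl, W, fun hs => hτ ?_, v10, v00⟩
  have eW : W = W 0 0 • (1 : Matrix (Fin 2) (Fin 2) ℚ) := by
    ext i j
    fin_cases i <;> fin_cases j <;> simp [hs.1, hs.2.1, hs.2.2]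
  generalize W 0 0 = l at eW
  rw [(sing_cj_scalar g.2 W l).2 eW] at key
  subst eW
  have eζ : ζ.map ((↑) : ℚ → ℚ_[p]) = (toP p γ' : Matrix (Fin 2) (Fin 2) ℚ_[p]) * P.2 *
      (((toP p γ)⁻¹ : SL(2, ℚ_[p])) : Matrix (Fin 2) (Fin 2) ℚ_[p]) := by
    refine wps_cancel hξ.ne' ?_
    have t1 : ξ.map ((↑) : ℤ → ℚ_[p]) =
        (toP p γ : Matrix (Fin 2) (Fin 2) ℚ_[p]) * (!![a, b; 0, d] : MZ).map (↑) := by
      rw [eξ, wps_mul]; rfl
    have t2 : ξ'.map ((↑) : ℤ → ℚ_[p]) =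
        (toP p γ' : Matrix (Fin 2) (Fin 2) ℚ_[p]) * (!![a', b'; 0, d'] : MZ).map (↑) := by
      rw [eξ', wps_mul]; rfl
    have t3 : (((toP p γ)⁻¹ : SL(2, ℚ_[p])) : Matrix (Fin 2) (Fin 2) ℚ_[p]) *
        ξ.map ((↑) : ℤ → ℚ_[p]) = (!![a, b; 0, d] : MZ).map (↑) := by
      rw [t1, ← Matrix.mul_assoc, sing_inv_mul, Matrix.one_mul]
    rw [← hWp, Matrix.mul_assoc, t3, Matrix.mul_assoc, key, t2, Matrix.mul_assoc, hom_map_smul,
      Matrix.map_one _ Rat.cast_zero Rat.cast_one]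
  have hb : Bd R (ζ.map ((↑) : ℚ → ℚ_[p])) := by
    rw [eζ]
    exact hR.K (toP_mem_Kp p γ') ((Kp p).inv_mem (toP_mem_Kp p γ))
  rw [Matrix.mul_smul, Matrix.mul_one] at hW
  exact (wps_isog hq hδ hc.le hξ hξ' hζ hζd hb hW τ).symm hM

end Pool.Agent.EQ
end
end

-- part Pool.Agent.P.MP_ad7a55_nt.VM
section

/-! The induction over the classes of coordinates. -/

set_option autoImplicit false

noncomputable section

open MeasureTheory Topology Filter UpperHalfPlane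
open scoped MatrixGroups ENNReal BoundedContinuousFunction

namespace Pool.Agent.EQ

variable {n N : ℕ} {E : Set ℕ} {F : IntermediateField ℚ ℂ} {τ : ℕ → Fin n → ℍ}
  {D : ℕ → Fin n → ℤ} {φ : Fin n → (ℍ →ᵇ ℝ)}

/-- One class. -/
theorem clsAll (hE : GoodE E) (hN : 0 < N) [FiniteDimensional ℚ F] {𝒰 : Ultrafilter ℕ}
    (h𝒰 : (𝒰 : Filter ℕ) ≤ atTop) {I : Finset (Fin n)} {ψ : ℕ → (Fin n × Fn → ℂ) → ℝ}
    (hC : Cls 𝒰 τ D I) (hφ : ∀ k, Tc N F (φ k)) (hψ : WtN 𝒰 D I ψ) (S S' : Finset ℕ)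
    (hS : ∀ p ∈ S, p.Prime) (hS' : ∀ p ∈ S', p.Prime) {η L : ℝ} (hη : 0 < η)
    (hdom : ∀ k ∈ I, ∀ᶠ i in 𝒰,
      |(D i k : ℝ)| ^ η ≤ ∏ p ∈ S, (p : ℝ) ^ padicValInt p (D i k) ∨
        (Low L (D i k) ∧ ∃ p ∈ S', ∃ q ∈ S', p ≠ q ∧ p ≠ 2 ∧ q ≠ 2 ∧ (∃ κ, Spl p κ (D i k)) ∧
          ∃ κ, Spl q κ (D i k)) ∨
        ∃ d f : ℤ, Squarefree d ∧ D i k = f ^ 2 * d ∧ d.natAbs ∉ E) : Eqd 𝒰 N F τ φ I ψ := by
  have hneg : ∀ i k, D i k < 0 := fun i k => (hC.disc i k).isD.1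
  by_cases hA : ∀ k ∈ I, ∀ᶠ i in 𝒰, |(D i k : ℝ)| ^ η ≤ ∏ p ∈ S, (p : ℝ) ^ padicValInt p (D i k)
  · exact clsA hN h𝒰 hC (fun k => (hφ k).1) hψ S hS hη ((eventually_all_finset I).2 hA)
  obtain ⟨j, hj⟩ := not_forall.1 hA
  obtain ⟨hj, h0⟩ := Classical.not_imp.1 hj
  rcases Ultrafilter.eventually_or.1 ((Ultrafilter.eventually_or.1 (hdom j hj)).resolve_left h0)
    with h1 | h1
  · obtain ⟨p, hp, h2⟩ := ultra_fin 𝒰 S' (h1.mono fun i hi => hi.2)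
    obtain ⟨q, hq, h3⟩ := ultra_fin 𝒰 S' h2
    obtain ⟨-, hpq, hp2, hq2, -⟩ := h3.exists
    have : Fact p.Prime := ⟨hS' p hp⟩
    have : Fact q.Prime := ⟨hS' q hq⟩
    refine clsC hN h𝒰 hC (fun k => (hφ k).1) hψ p q hpq hp2 hq2 (L := L) ?_
    filter_upwards [h1, h3, hC.sq] with i a1 ⟨_, _, _, ⟨κ, a2⟩, κ', a3⟩ a4 k hk
    exact ⟨a1.1.of_sq (hneg i j).ne (a4 k hk j hj) (hneg i k).ne,
      a2.of_sq p (hneg i k).ne (a4 k hk j hj), a3.of_sq q (hneg i k).ne (a4 k hk j hj)⟩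
  · refine hE n N hN F 𝒰 h𝒰 τ D I φ ψ hC hφ hψ ?_
    filter_upwards [h1, hC.sq] with i ⟨d, f, a1, a2, a3⟩ a4 k hk
    obtain ⟨g, hg⟩ := tlow_shape (f := f) a1 (fun h => (hneg i j).ne (by simp [a2, h]))
      (a2 ▸ a4 j hj k hk)
    exact ⟨d, g, a1, hg, a3⟩

theorem mainV (hE : GoodE E) (hN : 0 < N) [FiniteDimensional ℚ F] {𝒰 : Ultrafilter ℕ}
    (h𝒰 : (𝒰 : Filter ℕ) ≤ atTop) (hD : ∀ i k, HasDisc (τ i k) (D i k))
    (hinf : ∀ Y : ℝ, ∀ᶠ i in 𝒰, ∀ k, Y ≤ -(D i k : ℝ)) (hgen : NoIs 𝒰 τ Finset.univ)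
    (hφ : ∀ k, Tc N F (φ k)) (S S' : Finset ℕ)
    (hS : ∀ p ∈ S, p.Prime) (hS' : ∀ p ∈ S', p.Prime) {η L : ℝ} (hη : 0 < η)
    (hdom : ∀ k, ∀ᶠ i in 𝒰,
      |(D i k : ℝ)| ^ η ≤ ∏ p ∈ S, (p : ℝ) ^ padicValInt p (D i k) ∨
        (Low L (D i k) ∧ ∃ p ∈ S', ∃ q ∈ S', p ≠ q ∧ p ≠ 2 ∧ q ≠ 2 ∧ (∃ κ, Spl p κ (D i k)) ∧
          ∃ κ, Spl q κ (D i k)) ∨
        ∃ d f : ℤ, Squarefree d ∧ D i k = f ^ 2 * d ∧ d.natAbs ∉ E) (I : Finset (Fin n)) :
    Tendsto (fun i => avg (ON N F (τ i)) (PT N F φ I)) 𝒰 (𝓝 (∏ k ∈ I, IN N (φ k))) := by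
  classical
  have hneg : ∀ i k, D i k < 0 := fun i k => (hD i k).isD.1
  induction I using Finset.strongInduction with
  | H I ih =>
    rcases I.eq_empty_or_nonempty with rfl | ⟨j, hj⟩
    · have : ∀ i, avg (ON N F (τ i)) (PT N F φ ∅) = 1 := fun i => by
        have h2 : ((ON N F (τ i)).card : ℝ) ≠ 0 := by
          exact_mod_cast (ON_ne hN F (hD i)).card_pos.ne'
        simp only [avg, PT, Finset.prod_empty, Finset.sum_const, nsmul_eq_mul, mul_one]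
        exact div_self h2
      rw [funext this, Finset.prod_empty]
      exact tendsto_const_nhds
    set C := I.filter fun k => ∀ᶠ i in 𝒰, IsSquare (D i k * D i j) with hCd
    have hCI : C ⊆ I := Finset.filter_subset _ _
    have hjC : j ∈ C := Finset.mem_filter.2 ⟨hj, Eventually.of_forall fun i => ⟨_, rfl⟩⟩
    have h1 : ∀ᶠ i in 𝒰, ∀ k ∈ C, IsSquare (D i k * D i j) :=
      (eventually_all_finset C).2 fun k hk => (Finset.mem_filter.1 hk).2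
    have h2 : ∀ᶠ i in 𝒰, ∀ k ∈ I \ C, ¬ IsSquare (D i k * D i j) :=
      (eventually_all_finset _).2 fun k hk => Ultrafilter.eventually_not.2 fun h =>
        (Finset.mem_sdiff.1 hk).2 (Finset.mem_filter.2 ⟨(Finset.mem_sdiff.1 hk).1, h⟩)
    have hC : Cls 𝒰 τ D C :=
      ⟨hD, (hinf 577).mono fun i hi k => by
          have : (D i k : ℝ) < -576 := by linarith [hi k]
          exact_mod_cast this,
        h1.mono fun i hi k hk l hl => ums_sq (hneg i j).ne (hi k hk) (mul_comm (D i l) _ ▸ hi l hl),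
        fun Y => (hinf Y).mono fun i hi k _ => hi k,
        fun k _ l _ => hgen k (Finset.mem_univ k) l (Finset.mem_univ l)⟩
    have hψ : WtN 𝒰 D C fun _ => PT N F φ (I \ C) :=
      ⟨(h1.and h2).mono fun i hi => oth_PT fun k hk l hl h =>
        hi.2 k hk (ums_sq (hneg i l).ne h (hi.1 l hl)), _, fun _ z => abs_PT_le N F φ _ z⟩
    have h3 := (clsAll hE hN h𝒰 hC hφ hψ S S' hS hS' hη fun k _ => hdom k).add
      ((ih (I \ C) (Finset.sdiff_ssubset hCI ⟨j, hjC⟩)).mul_const (∏ k ∈ C, IN N (φ k)))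
    rw [zero_add, Finset.prod_sdiff hCI] at h3
    refine h3.congr fun i => ?_
    simp only [avg, mul_sub, Finset.sum_sub_distrib, ← Finset.sum_mul, PT, Finset.prod_sdiff hCI]
    ring

theorem mainW (hE : GoodE E) (hN : 0 < N) [FiniteDimensional ℚ F] (S : Finset ℕ)
    (hS : ∀ p ∈ S, p.Prime) (T : Finset ℤ) {η c : ℝ} (hη : 0 < η) (hc : 0 < c)
    (hD : ∀ i k, HasDisc (τ i k) (D i k))
    (hdom : ∀ k, ∀ᶠ i in atTop,
      |(D i k : ℝ)| ^ η ≤ ∏ p ∈ S, (p : ℝ) ^ padicValInt p (D i k) ∨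
        ∃ d f : ℤ, Squarefree d ∧ D i k = f ^ 2 * d ∧ (d ∈ T ∨ d.natAbs ∉ E ∨
          (NoZero c d ∧ ∃ p ∈ S, ∃ q ∈ S,
            p ≠ q ∧ p ≠ 2 ∧ q ≠ 2 ∧ jacobiSym d p = 1 ∧ jacobiSym d q = 1)))
    (hinf : ∀ Y : ℝ, ∀ᶠ i in atTop, ∀ k, Y ≤ -(D i k : ℝ)) (hgen : NoIsog τ)
    (hφ : ∀ k, Tc N F (φ k)) :
    Tendsto (fun i => avg (ON N F (τ i)) (PT N F φ Finset.univ)) atTop
      (𝓝 (∏ k, IN N (φ k))) := by
  classical
  set T' := T.filter fun d => d < 0 with hT'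
  have hT0 : ∀ d ∈ T', d < 0 := fun d hd => (Finset.mem_filter.1 hd).2
  obtain ⟨c', hc', h1⟩ := noZero_of_finite T' hT0
  obtain ⟨p₀, q₀, hp₀, hq₀, h2, h3, h4, h5⟩ := exists_split T' fun d hd => (hT0 d hd).ne
  obtain ⟨L, -, hL⟩ := low_of_noZero hc
  obtain ⟨L', -, hL'⟩ := low_of_noZero hc'
  refine (tendsto_iff_ultrafilter _ _ _).2 fun 𝒰 h𝒰 => mainV hE hN h𝒰 hD (fun Y => h𝒰 (hinf Y))
    (fun k _ l _ hkl M hM => h𝒰 (hgen k l hkl M hM)) hφ S (insert p₀ (insert q₀ S)) hS ?_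
    (L := max L L') hη (fun k => h𝒰 ?_) Finset.univ
  · intro p hp
    simp only [Finset.mem_insert] at hp
    rcases hp with rfl | rfl | hp
    exacts [hp₀, hq₀, hS p hp]
  filter_upwards [hdom k] with i hi
  refine hi.imp_right ?_
  rintro ⟨d, e, h6, h7, h8⟩
  have h9 : e ^ 2 * d < 0 := h7 ▸ (hD i k).isD.1
  have he : e ≠ 0 := by
    rintro rfl
    simp at h9
  have hd : d < 0 := by
    by_contra h
    exact absurd h9 (not_lt.2 (mul_nonneg (sq_nonneg e) (not_lt.1 h)))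
  rcases h8 with h8 | h8 | ⟨h8, p, hp, q, hq, a1, a2, a3, a4, a5⟩
  · have h10 : d ∈ T' := Finset.mem_filter.2 ⟨h8, hd⟩
    have : Fact p₀.Prime := ⟨hp₀⟩
    have : Fact q₀.Prime := ⟨hq₀⟩
    rw [h7]
    exact Or.inl ⟨(hL' d e h6 h9 (h1 d h10)).mono (le_max_right _ _), p₀, by simp, q₀, by simp,
      h4, h2, h3, spl_of_jac p₀ (h5 d h10).1 he, spl_of_jac q₀ (h5 d h10).2 he⟩
  · exact Or.inr ⟨d, e, h6, h7, h8⟩
  · have : Fact p.Prime := ⟨hS p hp⟩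
    have : Fact q.Prime := ⟨hS q hq⟩
    rw [h7]
    exact Or.inl ⟨(hL d e h6 h9 h8).mono (le_max_left _ _), p, by simp [hp], q, by simp [hq],
      a1, a2, a3, spl_of_jac p a4 he, spl_of_jac q a5 he⟩

end Pool.Agent.EQ
end
end

-- part Pool.Agent.P.MP_ad7a55_nt.WHk
section

/-! Equidistribution of the special curves of large degree. -/

set_option autoImplicit false

noncomputable section

open MeasureTheory Topology Filter UpperHalfPlane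
open scoped MatrixGroups ENNReal BoundedContinuousFunction

namespace Pool.Agent.EQ

variable {N : ℕ} {ι : Type} [Fintype ι] [DecidableEq ι]

theorem whk_meas (p : ℕ) [Fact p.Prime] (q : ℕ) (δ : ℚ) (R : ℝ) (d₁ d₂ : ℚ_[p]) :
    MeasurableSet (NR p q δ R d₁ d₂) := by
  have : LocallyCompactSpace (Matrix (Fin 2) (Fin 2) ℝ) :=
    inferInstanceAs (LocallyCompactSpace (Fin 2 → Fin 2 → ℝ))
  have : LocallyCompactSpace (Matrix (Fin 2) (Fin 2) ℚ_[p]) :=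
    inferInstanceAs (LocallyCompactSpace (Fin 2 → Fin 2 → ℚ_[p]))
  have : SecondCountableTopology (Matrix (Fin 2) (Fin 2) ℝ) :=
    inferInstanceAs (SecondCountableTopology (Fin 2 → Fin 2 → ℝ))
  have : SecondCountableTopology (Matrix (Fin 2) (Fin 2) ℚ_[p]) :=
    inferInstanceAs (SecondCountableTopology (Fin 2 → Fin 2 → ℚ_[p]))
  have : Countable (Matrix (Fin 2) (Fin 2) ℚ) :=
    inferInstanceAs (Countable (Fin 2 → Fin 2 → ℚ))
  let S : Matrix (Fin 2) (Fin 2) ℚ → Set ((GG p × GG p) × MM p) := fun ξ =>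
    {z | IsHom p z.1.1 z.1.2 ξ z.2 ∧ Bd R z.2.2 ∧ z.2.2 1 0 = 0 ∧
      d₁ * z.2.2 0 0 = d₂ * z.2.2 1 1}
  let F : (GG p × GG p) × MM p → XX p × XX p := fun z => ((z.1.1 : XX p), (z.1.2 : XX p))
  have hF : Continuous F :=
    (QuotientGroup.continuous_mk.comp continuous_fst.fst).prodMk
      (QuotientGroup.continuous_mk.comp continuous_fst.snd)
  have hS : ∀ ξ, IsClosed (S ξ) := by
    intro ξ
    have c1 : Continuous fun z : (GG p × GG p) × MM p =>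
        (z.1.1.1 : Matrix (Fin 2) (Fin 2) ℝ) := continuous_subtype_val.comp continuous_fst.fst.fst
    have c2 : Continuous fun z : (GG p × GG p) × MM p =>
        (z.1.2.1 : Matrix (Fin 2) (Fin 2) ℝ) := continuous_subtype_val.comp continuous_fst.snd.fst
    have c3 : Continuous fun z : (GG p × GG p) × MM p =>
        (z.1.1.2 : Matrix (Fin 2) (Fin 2) ℚ_[p]) :=
      continuous_subtype_val.comp continuous_fst.fst.snd
    have c4 : Continuous fun z : (GG p × GG p) × MM p =>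
        (z.1.2.2 : Matrix (Fin 2) (Fin 2) ℚ_[p]) :=
      continuous_subtype_val.comp continuous_fst.snd.snd
    have c5 : ∀ i j, Continuous fun z : (GG p × GG p) × MM p => z.2.2 i j := fun i j =>
      continuous_snd.snd.matrix_elem i j
    have c6 : IsClosed {z : (GG p × GG p) × MM p | Bd R z.2.2} := by
      have e : {z : (GG p × GG p) × MM p | Bd R z.2.2} = ⋂ i, ⋂ j, {z | ‖z.2.2 i j‖ ≤ R} := by
        ext z
        simp only [Bd, Set.mem_ofPred_eq, Set.mem_iInter]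
      rw [e]
      exact isClosed_iInter fun i => isClosed_iInter fun j =>
        isClosed_le (c5 i j).norm continuous_const
    refine IsClosed.inter (IsClosed.inter ?_ ?_) (IsClosed.inter c6 (IsClosed.inter ?_ ?_))
    · exact isClosed_eq (continuous_snd.fst.matrix_mul c1) (c2.matrix_mul continuous_const)
    · exact isClosed_eq (continuous_snd.snd.matrix_mul c3) (c4.matrix_mul continuous_const)
    · exact isClosed_eq (c5 1 0) continuous_const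
    · exact isClosed_eq (continuous_const.mul (c5 0 0)) (continuous_const.mul (c5 1 1))
  have hE : NR p q δ R d₁ d₂ = ⋃ ξ : Matrix (Fin 2) (Fin 2) ℚ,
      ⋃ _ : (∀ i j, InZp p (q * ξ i j)) ∧ ξ.det = δ, F '' S ξ := by
    ext w
    simp only [Set.mem_iUnion]
    constructor
    · rintro ⟨P, ⟨g, g', hg, hg', ξ, h1, h2, h3⟩, h4, h5⟩
      exact ⟨ξ, ⟨h1, h2⟩, ((g, g'), P), ⟨h3, h4, h5⟩, Prod.ext hg hg'⟩
    · rintro ⟨ξ, ⟨h1, h2⟩, ⟨⟨g, g'⟩, P⟩, ⟨h3, h4, h5⟩, rfl⟩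
      exact ⟨P, ⟨g, g', rfl, rfl, ξ, h1, h2, h3⟩, h4, h5⟩
  rw [hE]
  refine MeasurableSet.iUnion fun ξ => MeasurableSet.iUnion fun _ => join_meas_sigma ?_
  exact (isSigmaCompact_univ.of_isClosed_subset (hS ξ) (Set.subset_univ _)).image hF

theorem whk_hnf {ξ : MZ} (h : 0 < ξ.det) : ∃ (γ : SL(2, ℤ)) (a b d : ℤ), a ≠ 0 ∧ d ≠ 0 ∧
    (!![a, b; 0, d] : MZ).det = ξ.det ∧ ξ = (γ : MZ) * !![a, b; 0, d] := by
  obtain ⟨γ, a, d, b, ha, hd, h1, h2⟩ := act_hnf h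
  refine ⟨γ, a, b, d, by exact_mod_cast ha.ne', by exact_mod_cast hd.ne', ?_, h2⟩
  rw [Matrix.det_fin_two_of, mul_zero, sub_zero, h1]

theorem whk_U (p : ℕ) [Fact p.Prime] (hN : 0 < N) (𝒰 : Ultrafilter ℕ)
    (h𝒰 : (𝒰 : Filter ℕ) ≤ atTop)
    (φ : ι → (ℍ →ᵇ ℝ)) (hφ : ∀ k, GInv N (φ k)) (ξ : ℕ → ι → MZ) (M : ℕ → ℕ)
    (h : ∀ i, 0 < M i ∧ ∀ k, 0 < (ξ i k).det ∧ N * (ξ i k).det.natAbs ∣ M i) (I : Finset ι)
    (hno : ∀ k ∈ I, ∀ l ∈ I, k ≠ l → ∀ m : ℕ, 0 < m → ∀ᶠ i in 𝒰,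
      ∃ τ, ¬ Isog m (jInv (act (ξ i k) τ)) (jInv (act (ξ i l) τ))) :
    Tendsto (fun i => IN (M i) (∏ k ∈ I, cact (φ k) (ξ i k))) 𝒰 (𝓝 (∏ k ∈ I, IN N (φ k))) := by
  classical
  choose γ a b d ha hd hdet hγ using fun i k => whk_hnf ((h i).2 k).1
  choose Ψ hΨ using fun i k =>
    exists_psi p (h i).1 ((h i).2 k).1 (hdet i k) ((h i).2 k).2
  have hc : ∀ i, Continuous fun (x : XN p (M i)) k => Ψ i k x := fun i =>
    continuous_pi fun k => (hΨ i k).1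
  obtain ⟨μ, hμ⟩ : ∃ μ : ℕ → Measure (ι → XN p N),
      ∀ i, μ i = (mN p (M i)).map fun x k => Ψ i k x := ⟨_, fun _ => rfl⟩
  have hP : ∀ i, IsProbabilityMeasure (μ i) := fun i => by
    rw [hμ]
    exact Measure.isProbabilityMeasure_map (hc i).measurable.aemeasurable
  have key : ∀ i (I : Finset ι), IN (M i) (∏ k ∈ I, cact (φ k) (ξ i k)) =
      ∫ w, ∏ k ∈ I, φ k (ptX p N (((1, toP p (γ i k)) : GG p) • w k)) ∂μ i := by
    intro i I
    have h1 : GInv (M i) (∏ k ∈ I, cact (φ k) (ξ i k) : ℍ →ᵇ ℝ) := fun g hg τ => by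
      rw [BoundedContinuousFunction.prod_apply, BoundedContinuousFunction.prod_apply]
      exact Finset.prod_congr rfl fun k _ =>
        ((hφ k).act ((h i).2 k).1).mono ((h i).2 k).2 g hg τ
    have h2 : Continuous fun w : ι → XN p N =>
        ∏ k ∈ I, φ k (ptX p N (((1, toP p (γ i k)) : GG p) • w k)) :=
      continuous_finsetProd _ fun k _ => ((hφ k).continuous hN (φ k).continuous).comp
        ((continuous_const_smul ((1, toP p (γ i k)) : GG p)).comp (continuous_apply k))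
    rw [← integral_ptX (p := p) (h i).1 h1, hμ,
      integral_map (hc i).measurable.aemeasurable h2.aestronglyMeasurable]
    refine integral_congr_ae (Eventually.of_forall fun x => ?_)
    simp only [BoundedContinuousFunction.prod_apply]
    exact Finset.prod_congr rfl fun k _ =>
      ((hΨ i k).pt ((h i).2 k).1 hN (h i).1 ((h i).2 k).2 (hγ i k) (hφ k) x).symm
  have hm : ∀ i k, (μ i).map (fun w => w k) = mN p N := fun i k => by
    rw [hμ, Measure.map_map (measurable_pi_apply k) (hc i).measurable]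
    exact (hΨ i k).map ((h i).2 k).1 hN (h i).1
  obtain ⟨v, hv⟩ : ∃ v : ℕ → ι → ℚ_[p], ∀ i k, v i k = (a i k : ℚ_[p]) / d i k :=
    ⟨_, fun _ _ => rfl⟩
  have hv0 : ∀ i k, v i k ≠ 0 := fun i k => by
    rw [hv]
    exact div_ne_zero (by exact_mod_cast ha i k) (by exact_mod_cast hd i k)
  simp only [key]
  induction I using Finset.strongInduction with
  | H I ih =>
  rcases I.eq_empty_or_nonempty with rfl | hI
  · simp
  obtain ⟨j, hj, hmax⟩ := ultra_max 𝒰 hI fun i k => ‖v i k‖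
  have hlim : ∀ k, ∃ e : ℚ_[p], k ∈ I → Tendsto (fun i => v i k * (v i j)⁻¹) 𝒰 (𝓝 e) := by
    intro k
    by_cases hk : k ∈ I
    · obtain ⟨e, -, he⟩ := (isCompact_closedBall (0 : ℚ_[p]) 1).ultrafilter_le_nhds
        (𝒰.map fun i => v i k * (v i j)⁻¹) (by
          rw [le_principal_iff]
          refine hmax.mono fun i hi => ?_
          change v i k * (v i j)⁻¹ ∈ Metric.closedBall (0 : ℚ_[p]) 1
          rw [mem_closedBall_zero_iff, norm_mul, norm_inv, ← div_eq_mul_inv,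
            div_le_one (norm_pos_iff.2 (hv0 i j))]
          exact hi k hk)
      exact ⟨e, fun _ => he⟩
    · exact ⟨0, fun hk' => absurd hk' hk⟩
  choose e he using hlim
  have hej : e j = 1 := by
    refine tendsto_nhds_unique (he j hj) ?_
    simp only [mul_inv_cancel₀ (hv0 _ j)]
    exact tendsto_const_nhds
  have hJI : I.filter (fun k => e k ≠ 0) ⊆ I := Finset.filter_subset _ _
  have hjJ : j ∈ I.filter (fun k => e k ≠ 0) :=
    Finset.mem_filter.2 ⟨hj, by rw [hej]; exact one_ne_zero⟩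
  have hinv : ∀ i, Inv (uflN p N fun k => v i k * (v i j)⁻¹) (μ i) := fun i s => by
    have e1 : (uflN p N (fun k => v i k * (v i j)⁻¹) s ∘ fun x k => Ψ i k x) =
        (fun x k => Ψ i k x) ∘ fun x => uP p ((v i j)⁻¹ * s) • x := by
      funext x k
      change uP p (v i k * (v i j)⁻¹ * s) • Ψ i k x = Ψ i k (uP p ((v i j)⁻¹ * s) • x)
      rw [(hΨ i k).flow ((h i).2 k).1 (hd i k), ← hv, mul_assoc]
    have e2 : Continuous (uflN p N (fun k => v i k * (v i j)⁻¹) s) :=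
      (uflN p N _).continuous continuous_const continuous_id
    rw [hμ, Measure.map_map e2.measurable (hc i).measurable, e1,
      ← Measure.map_map (hc i).measurable (measurable_const_smul _), mN_inv (h i).1]
  have hstep := stepM hN 𝒰 h𝒰 μ (fun i k => toP p (γ i k)) (fun i k => toP_mem_Kp p _)
    (fun i k => v i k * (v i j)⁻¹) e I _ hJI (fun k hk => (Finset.mem_filter.1 hk).2)
    (fun k hk hk' => by_contra fun h0 => hk' (Finset.mem_filter.2 ⟨hk, h0⟩)) he hinv hm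
    (fun k hk l hl hkl q hq δ hδ R => by
      obtain ⟨m, hm0, hm1⟩ := psi_null p hq hδ R
      filter_upwards [hno k (hJI hk) l (hJI hl) hkl m hm0] with i hi
      have hs : MeasurableSet {w : ι → XN p N | (cov p N (w k), cov p N (w l)) ∈
          NR p q δ R (v i k * (v i j)⁻¹) (v i l * (v i j)⁻¹)} :=
        (((continuous_cov p N).comp (continuous_apply k)).prodMk
          ((continuous_cov p N).comp (continuous_apply l))).measurable (whk_meas p q δ R _ _)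
      rw [hμ, Measure.map_apply (hc i).measurable hs, hv i k, hv i l]
      exact hm1 N (M i) (ξ i k) (ξ i l) (γ i k) (γ i l) _ _ _ _ _ _ (Ψ i k) (Ψ i l) _ (h i).1
        ((h i).2 k).1 ((h i).2 l).1 (hγ i k) (hγ i l) (hΨ i k) (hΨ i l)
        (inv_ne_zero (hv0 i j)) hi) φ hφ
  have h2 := ih (I \ I.filter fun k => e k ≠ 0) (Finset.sdiff_ssubset hJI ⟨j, hjJ⟩)
    fun k hk l hl => hno k (Finset.sdiff_subset hk) l (Finset.sdiff_subset hl)
  have h3 := hstep.add (h2.const_mul (∏ k ∈ I.filter (fun k => e k ≠ 0), IN N (φ k)))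
  rw [zero_add, mul_comm, Finset.prod_sdiff hJI] at h3
  simpa only [sub_add_cancel] using h3

theorem heckU (hN : 0 < N) (𝒰 : Ultrafilter ℕ) (h𝒰 : (𝒰 : Filter ℕ) ≤ atTop)
    (φ : ι → (ℍ →ᵇ ℝ)) (hφ : ∀ k, GInv N (φ k)) (ξ : ℕ → ι → MZ) (M : ℕ → ℕ)
    (h : ∀ i, 0 < M i ∧ ∀ k, 0 < (ξ i k).det ∧ N * (ξ i k).det.natAbs ∣ M i) (I : Finset ι)
    (hno : ∀ k ∈ I, ∀ l ∈ I, k ≠ l → ∀ m : ℕ, 0 < m → ∀ᶠ i in 𝒰,
      ∃ τ, ¬ Isog m (jInv (act (ξ i k) τ)) (jInv (act (ξ i l) τ))) :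
    Tendsto (fun i => IN (M i) (∏ k ∈ I, cact (φ k) (ξ i k))) 𝒰 (𝓝 (∏ k ∈ I, IN N (φ k))) :=
  whk_U 2 hN 𝒰 h𝒰 φ hφ ξ M h I hno

theorem heck (hN : 0 < N) (φ : ι → (ℍ →ᵇ ℝ)) (hφ : ∀ k, GInv N (φ k)) (I : Finset ι) {ε : ℝ}
    (hε : 0 < ε) : ∃ m : ℕ, 0 < m ∧ ∀ (r : ι → ι) (ξ : ι → MZ) (M : ℕ), 0 < M →
      (∀ k, 0 < (ξ k).det ∧ N * (ξ k).det.natAbs ∣ M) →
      (∀ k ∈ I, ∀ l ∈ I, k ≠ l → r k = r l →
        ∃ τ, ¬ Isog m (jInv (act (ξ k) τ)) (jInv (act (ξ l) τ))) →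
      |∏ b ∈ I.image r, IN M (∏ k ∈ I.filter (fun k => r k = b), cact (φ k) (ξ k)) -
        ∏ k ∈ I, IN N (φ k)| ≤ ε := by
  by_contra hc
  have hc' : ∀ i : ℕ, ∃ (r : ι → ι) (ξ : ι → MZ) (M : ℕ),
      (0 < M ∧ ∀ k, 0 < (ξ k).det ∧ N * (ξ k).det.natAbs ∣ M) ∧
      (∀ k ∈ I, ∀ l ∈ I, k ≠ l → r k = r l →
        ∃ τ, ¬ Isog i.factorial (jInv (act (ξ k) τ)) (jInv (act (ξ l) τ))) ∧
      ε < |∏ b ∈ I.image r, IN M (∏ k ∈ I.filter (fun k => r k = b), cact (φ k) (ξ k)) -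
        ∏ k ∈ I, IN N (φ k)| := fun i => by
    by_contra h1
    refine hc ⟨i.factorial, i.factorial_pos, fun r ξ M h2 h3 h4 => ?_⟩
    exact not_lt.1 fun h5 => h1 ⟨r, ξ, M, ⟨h2, h3⟩, h4, h5⟩
  choose r ξ M h1 h2 h3 using hc'
  have h𝒰 : (hyperfilter ℕ : Filter ℕ) ≤ atTop := Nat.hyperfilter_le_atTop
  obtain ⟨r₀, -, hr⟩ := ultra_fin (hyperfilter ℕ) (Finset.univ : Finset (ι → ι))
    (P := fun i b => r i = b) (Eventually.of_forall fun i => ⟨r i, Finset.mem_univ _, rfl⟩)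
  have h4 := tendsto_finsetProd (I.image r₀) fun b _ =>
    heckU hN (hyperfilter ℕ) h𝒰 φ hφ ξ M h1 (I.filter fun k => r₀ k = b)
      fun k hk l hl hkl m hm => by
        filter_upwards [hr, h𝒰 (eventually_ge_atTop m)] with i hi hi'
        obtain ⟨hk1, hk2⟩ := Finset.mem_filter.1 hk
        obtain ⟨hl1, hl2⟩ := Finset.mem_filter.1 hl
        obtain ⟨τ, hτ⟩ := h2 i k hk1 l hl1 hkl (by rw [hi, hk2, hl2])
        exact ⟨τ, fun h5 => hτ (h5.mono (Nat.dvd_factorial hm hi'))⟩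
  rw [Finset.prod_fiberwise_of_maps_to fun k hk => Finset.mem_image_of_mem r₀ hk] at h4
  obtain ⟨i, hi, hi'⟩ := (hr.and (Metric.tendsto_nhds.1 h4 ε hε)).exists
  have h5 := h3 i
  rw [hi] at h5
  exact lt_asymm h5 hi'

end Pool.Agent.EQ
end
end

-- part Pool.Agent.P.MP_ad7a55_nt.VF
section

/-! The reduction of the statement to the curve of full level. -/

set_option autoImplicit false

noncomputable section

open MeasureTheory Topology Filter UpperHalfPlane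
open scoped MatrixGroups ENNReal BoundedContinuousFunction

namespace Pool.Agent.EQ

variable {n N : ℕ} {F L F' : IntermediateField ℚ ℂ} {Γ : Fin n → Subgroup SL(2, ℤ)}
  {B : Fin n → Set (ℍ → ℂ)}

/-- The lifts of the orbit to the upper half planes. -/
def orbW (F : IntermediateField ℚ ℂ) (B : Fin n → Set (ℍ → ℂ)) (τ : Fin n → ℍ) :
    Set (Fin n → ℍ) :=
  {w | ∃ σ : ℂ ≃+* ℂ, (∀ a ∈ F, σ a = a) ∧ ∀ k, ∀ f ∈ B k, f (w k) = σ (f (τ k))}

theorem orbG_eq (τ : Fin n → ℍ) :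
    orbG F Γ B τ = (fun w k => Quotient.mk _ (w k)) '' orbW F B τ := by
  ext y
  constructor
  · rintro ⟨σ, w, h1, h2, h3⟩
    exact ⟨w, ⟨σ, h1, h3⟩, (funext h2).symm⟩
  · rintro ⟨w, ⟨σ, h1, h3⟩, rfl⟩
    exact ⟨σ, w, h1, fun _ => rfl, h3⟩

theorem vf_eq (Λ : Subgroup SL(2, ℤ)) (a b : ℍ) :
    (Quotient.mk _ a : YG Λ) = Quotient.mk _ b ↔ ∃ γ ∈ Λ, b = γ • a := by
  rw [eq_comm, Quotient.eq, MulAction.orbitRel_apply]
  exact ⟨fun ⟨g, h⟩ => ⟨g, g.2, h.symm⟩, fun ⟨g, hg, h⟩ => ⟨⟨g, hg⟩, h.symm⟩⟩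

theorem vf_fin {β : Type} {W : Set (Fin n → ℍ)} (hf : (mkN N '' W).Finite) (π : (Fin n → ℍ) → β)
    (h : ∀ w w' : Fin n → ℍ, (∀ k, ∃ γ ∈ CongruenceSubgroup.Gamma N, w' k = γ • w k) →
      π w = π w') : (π '' W).Finite := by
  refine (hf.image fun y => π fun k => (y k).out).subset ?_
  rintro _ ⟨w, hw, rfl⟩
  exact ⟨_, ⟨w, hw, rfl⟩, h _ _ fun k => (vf_eq _ _ _).1 (Quotient.out_eq _)⟩

theorem vf_evs {w w' : Fin n → ℍ} (h : ∀ k, ∃ γ ∈ G0 N F, w' k = γ • w k) :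
    evs (MF N F) w = evs (MF N F) w' := by
  funext ⟨k, f⟩
  obtain ⟨γ, hγ, e⟩ := h k
  change evA _ (w k) f = evA _ (w' k) f
  by_cases hf : f ∈ MF N F
  · rw [ev_of_mem hf, ev_of_mem hf, e, hγ f hf]
  · rw [ev_of_not hf, ev_of_not hf]

theorem vf_avg {α : Type} {O : Finset α} (hO : O.Nonempty) (G : α → ℝ) (c : ℝ) :
    avg O (fun z => G z - c) = avg O G - c := by
  have hc : (O.card : ℝ) ≠ 0 := Nat.cast_ne_zero.2 hO.card_pos.ne'
  rw [avg, avg, Finset.sum_sub_distrib, Finset.sum_const, nsmul_eq_mul, sub_div,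
    mul_div_cancel_left₀ _ hc]

theorem orbG_fin (hN : 0 < N) (hΓ : ∀ k, CongruenceSubgroup.Gamma N ≤ Γ k)
    (hj : ∀ k, jInv ∈ B k) {τ : Fin n → ℍ} {D : Fin n → ℤ} (hD : ∀ k, HasDisc (τ k) (D k)) :
    (mkN N '' orbW F B τ).Finite ∧ (orbG F Γ B τ).Finite := by
  have h1 : (mkN N '' orbW F B τ).Finite := finite_mkN hN (orbit_finite F hD)
    fun w ⟨σ, hσ, hw⟩ => ⟨σ, hσ, funext fun k => hw k _ (hj k)⟩
  refine ⟨h1, ?_⟩
  rw [orbG_eq]
  exact vf_fin h1 _ fun w w' h => funext fun k =>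
    (vf_eq _ _ _).2 ((h k).imp fun γ hγ => ⟨hΓ k hγ.1, hγ.2⟩)

/-- The average over the orbit is dominated by the average over one orbit of full level. -/
theorem orb_worst (hN : 0 < N) (hΓ : ∀ k, CongruenceSubgroup.Gamma N ≤ Γ k)
    (hj : ∀ k, jInv ∈ B k) (hB : ∀ k, ∀ f ∈ B k, IsMF (Γ k) N L f) (hF : F ≤ F') (hL : L ≤ F')
    (a : ∀ k, YG (Γ k) → ℝ) (ha : ∀ k, Continuous (a k) ∧ HasCompactSupport (a k)) :
    ∃ (φ : Fin n → (ℍ →ᵇ ℝ)) (Y : ℝ),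
      (∀ k, Tc N F' (φ k) ∧ IN N (φ k) = ∫ w, a k (Quotient.mk _ w) ∂mH (Γ k)) ∧
      ∀ (τ : Fin n → ℍ) (D : Fin n → ℤ), (∀ k, HasDisc (τ k) (D k)) → ∀ c : ℝ,
        ∃ (w : Fin n → ℍ) (σ : ℂ ≃+* ℂ), (∀ k, HasDisc (w k) (D k)) ∧
          (∀ k, jInv (w k) = σ (jInv (τ k))) ∧ ((∀ k, Y ≤ -(D k : ℝ)) →
            |avg (fO (orbG F Γ B τ)) (fun y => ∏ k, a k (y k)) - c| ≤
              |avg (ON N F' w) (PT N F' φ Finset.univ) - c|) := by
  choose b hb hbs using fun k => YG_pull (ha k).1 (ha k).2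
  have hbΓ : ∀ k, ∀ γ ∈ Γ k, ∀ t : ℍ, b k (γ • t) = b k t := fun k γ hγ t => by
    rw [hb, hb, (vf_eq (Γ k) t (γ • t)).2 ⟨γ, hγ, rfl⟩]
  obtain ⟨φ, hφ, hφW⟩ := exists_tc hN F' b fun k => ⟨fun γ hγ => hbΓ k γ (hΓ k hγ), hbs k⟩
  obtain ⟨B1, hB1⟩ := sep hN F'
  obtain ⟨B2, hB2⟩ := tst_rp hN F'
  have hBM : ∀ k, ∀ f ∈ B k, f ∈ MF N F' := fun k f hf => (hB k f hf).mf (hΓ k) hL
  refine ⟨φ, max 577 (max B1 B2), fun k => ⟨(hφ k).1, ?_⟩, fun τ D hD c => ?_⟩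
  · have : NeZero N := ⟨hN.ne'⟩
    have : (Γ k).FiniteIndex := Subgroup.finiteIndex_of_le (hΓ k)
    rw [(hφ k).2, IN, integral_level (hΓ k) (b k).continuous.measurable (hbΓ k)]
    simp only [hb]
  by_cases hY : ∀ k, max 577 (max B1 B2) ≤ -(D k : ℝ)
  swap
  · exact ⟨τ, RingEquiv.refl _, hD, fun _ => rfl, fun h => absurd h hY⟩
  have hD1 : ∀ k, D k < -576 := fun k => by
    have h1 : ((577 : ℤ) : ℝ) ≤ ((-D k : ℤ) : ℝ) := by
      push_cast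
      exact (le_max_left _ _).trans (hY k)
    have h2 := Int.cast_le.1 h1
    omega
  have hf := (orbG_fin (F := F) hN hΓ hj hD).1
  have hWD : ∀ w ∈ orbW F B τ, ∀ k, HasDisc (w k) (D k) := by
    rintro w ⟨σ, hσ, hw⟩ k
    obtain ⟨t, ht, e⟩ := orbit_lift (F := F) hD hD1 ⟨σ, hσ, rfl⟩ k
    obtain ⟨γ, hγ⟩ := jInv_inj (e.trans (hw k _ (hj k)).symm)
    rw [hγ]
    exact ht.smul γ
  have hst : ∀ w ∈ orbW F B τ, ∀ (k : Fin n) (γ : SL(2, ℤ)), γ • w k = w k → γ = 1 ∨ γ = -1 :=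
    fun w hw k γ h => (hWD w hw k).stab (by have := hD1 k; omega) h
  have hW : ∀ γ : Fin n → SL(2, ℤ), (∀ k, ∀ f ∈ B k, ∀ t : ℍ, f (γ k • t) = f t) →
      ∀ w ∈ orbW F B τ, (fun k => γ k • w k) ∈ orbW F B τ :=
    fun γ h w ⟨σ, hσ, hw⟩ => ⟨σ, hσ, fun k f hf => (h k f hf _).trans (hw k f hf)⟩
  have hW0 : ∀ γ : Fin n → SL(2, ℤ), (∀ k, γ k ∈ G0 N F') →
      ∀ w ∈ orbW F B τ, (fun k => γ k • w k) ∈ orbW F B τ :=
    fun γ h => hW γ fun k f hf => h k f (hBM k f hf)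
  have e1 := avW_eq Γ hΓ hf (fun γ h => hW γ fun k f hf => (hB k f hf).1 _ (h k)) hst
    (fun w k => (Quotient.mk _ (w k) : YG (Γ k)))
    (fun w _ w' _ => funext_iff.trans (forall_congr' fun k => vf_eq _ _ _))
    (fun w => ∏ k, b k (w k)) (fun y => ∏ k, a k (y k)) fun w _ => by simp only [hb]
  have e3 := avW_eq (fun _ => G0 N F') (fun _ => Gamma_le_G0) hf hW0 hst (evs (MF N F'))
    (fun w hw w' _ => ⟨fun e k => hB1 _ _ (hWD w hw k)
      ((le_max_left _ _).trans ((le_max_right _ _).trans (hY k))) _ fun f hf =>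
        (ev_of_mem hf _).symm.trans ((congrFun e (k, f)).symm.trans (ev_of_mem hf _)), vf_evs⟩)
    (fun w => ∏ k, φ k (w k)) (PT N F' φ Finset.univ) fun w hw =>
      Finset.prod_congr rfl fun k _ => hB2 n w D (hWD w hw) _ (galO_self _ _) k
        ((le_max_right _ _).trans ((le_max_right _ _).trans (hY k))) _
        (fun f hf => (ev_of_mem hf _).symm) _ (hφ k).1.1
  have hZ : (evs (MF N F') '' orbW F B τ).Finite :=
    vf_fin hf _ fun w w' h => vf_evs fun k => (h k).imp fun γ hγ => ⟨Gamma_le_G0 hγ.1, hγ.2⟩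
  have hτ : τ ∈ orbW F B τ := ⟨RingEquiv.refl _, fun _ _ => rfl, fun _ _ _ => rfl⟩
  obtain ⟨_, ⟨w, hw, rfl⟩, hle⟩ := exists_worst (F := F') hZ ⟨_, τ, hτ, rfl⟩ (by
    rintro _ ⟨w, ⟨σ₀, h₀, hw⟩, rfl⟩ _ ⟨σ, hσ, rfl⟩
    choose w' hw' using fun k => exists_conj hN hσ (w k)
    refine ⟨w', ⟨σ₀.trans σ, fun x hx => ?_, fun k f hf => ?_⟩, funext fun ⟨k, f⟩ => ?_⟩
    · rw [RingEquiv.trans_apply, h₀ x hx, hσ x (hF hx)]
    · rw [RingEquiv.trans_apply, hw' k f (hBM k f hf), hw k f hf]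
    · change evA _ (w' k) f = σ (evA _ (w k) f)
      by_cases hf : f ∈ MF N F'
      · rw [ev_of_mem hf, ev_of_mem hf, hw' k f hf]
      · rw [ev_of_not hf, ev_of_not hf, map_zero]) fun z => PT N F' φ Finset.univ z - c
  have hD' := hWD w hw
  obtain ⟨σ, -, hσ⟩ := hw
  refine ⟨w, σ, hD', fun k => hσ k _ (hj k), fun _ => ?_⟩
  rw [orbG_eq, ← e1, hφW _ hf hW0, e3, ← vf_avg ⟨_, (mem_fO hZ).2 ⟨τ, hτ, rfl⟩⟩,
    ← vf_avg (ON_ne hN F' hD')]
  exact hle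

theorem final4 {E : Set ℕ} (hE : GoodE E) (hN : 0 < N)
    (hΓ : ∀ k, CongruenceSubgroup.Gamma N ≤ Γ k) [FiniteDimensional ℚ F] [FiniteDimensional ℚ L]
    (hj : ∀ k, jInv ∈ B k) (hB : ∀ k, ∀ f ∈ B k, IsMF (Γ k) N L f) (S : Finset ℕ)
    (hS : ∀ p ∈ S, p.Prime) (T : Finset ℤ) {η c : ℝ} (hη : 0 < η) (hc : 0 < c)
    (τ : ℕ → Fin n → ℍ) (D : ℕ → Fin n → ℤ) (hD : ∀ i k, HasDisc (τ i k) (D i k))
    (hdom : ∀ k, ∀ᶠ i in atTop,
      |(D i k : ℝ)| ^ η ≤ ∏ p ∈ S, (p : ℝ) ^ padicValInt p (D i k) ∨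
        ∃ d f : ℤ, Squarefree d ∧ D i k = f ^ 2 * d ∧ (d ∈ T ∨ d.natAbs ∉ E ∨
          (NoZero c d ∧ ∃ p ∈ S, ∃ q ∈ S,
            p ≠ q ∧ p ≠ 2 ∧ q ≠ 2 ∧ jacobiSym d p = 1 ∧ jacobiSym d q = 1)))
    (hpt : ∀ k, ∀ z : ℂ, {i | jInv (τ i k) = z}.Finite)
    (hgen : ∀ k l, k ≠ l → ∀ a b c d : ℤ, 0 < a * d - b * c →
      {i | ∃ z w : ℍ, (w : ℂ) = (a * z + b) / (c * z + d) ∧ jInv (τ i k) = jInv z ∧
        jInv (τ i l) = jInv w}.Finite)
    (f : (∀ k, YG (Γ k)) → ℝ) (hf : Continuous f) (hs : HasCompactSupport f) :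
    (∀ i, (orbG F Γ B (τ i)).Finite) ∧
      Tendsto (fun i => (∑ᶠ y ∈ orbG F Γ B (τ i), f y) / (orbG F Γ B (τ i)).ncard) atTop
        (𝓝 (∫ w, f (fun k => Quotient.mk _ (w k)) ∂(Measure.pi fun k => mH (Γ k)))) := by
  obtain ⟨F', hF', hF, hL, -⟩ := exists_field F L hN
  have : NeZero N := ⟨hN.ne'⟩
  have : ∀ k, (Γ k).FiniteIndex := fun k => Subgroup.finiteIndex_of_le (hΓ k)
  have hfin := fun i => (orbG_fin (F := F) hN hΓ hj (hD i)).2
  refine ⟨hfin, final_prod Γ _ hfin (fun a ha => ?_) f hf hs⟩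
  obtain ⟨φ, Y, hφ, hw⟩ := orb_worst hN hΓ hj hB hF hL a ha
  choose w σ h1 h2 h3 using fun i => hw (τ i) (D i) (hD i) (∏ k, IN N (φ k))
  have hinf : ∀ Y : ℝ, ∀ᶠ i in atTop, ∀ k, Y ≤ -(D i k : ℝ) := fun Y =>
    eventually_all.2 fun k => disc_tendsto (fun i => hD i k) (hpt k) Y
  have hno : NoIsog w := fun k l hkl M hM => by
    filter_upwards [noIsog_of_finite τ hgen k l hkl M hM] with i hi σ'
    rw [h2, h2]
    exact hi ((σ i).trans σ')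
  have key := mainW hE hN S hS T hη hc h1 hdom hinf hno fun k => (hφ k).1
  simp only [← fun k => (hφ k).2]
  rw [tendsto_iff_norm_sub_tendsto_zero] at key ⊢
  exact squeeze_zero' (Eventually.of_forall fun _ => norm_nonneg _)
    ((hinf Y).mono fun i hi => h3 i hi) key

end Pool.Agent.EQ
end
end

-- part Pool.Agent.P.MP_ad7a55_nt.XKe
section

/-! Related matrices and the mean square of Hecke averages. -/

set_option autoImplicit false

noncomputable section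

open MeasureTheory Topology Filter UpperHalfPlane
open scoped MatrixGroups BoundedContinuousFunction Matrix Classical

namespace Pool.Agent.EQ

/-- `A` and `B` differ by a matrix of determinant at most `m`, up to scalars. -/
def Rel (m : ℕ) (A B : M2) : Prop :=
  ∃ (s t : ℤ) (X : M2), s ≠ 0 ∧ t ≠ 0 ∧ 0 < X.det ∧ X.det ≤ m ∧ s • A = t • (X * B)

variable {m : ℕ} {A B : M2}

theorem xke_pt : ∃ τ : ℍ, ∀ a b c : ℤ, (a : ℂ) * (τ : ℂ) ^ 2 + b * τ + c = 0 →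
    a = 0 ∧ b = 0 ∧ c = 0 := by
  have h2 : (0 : ℝ) < √2 := Real.sqrt_pos.2 two_pos
  have hr : (0 : ℝ) < √√2 := Real.sqrt_pos.2 h2
  have hs : √√2 * √√2 = √(2 : ℝ) := Real.mul_self_sqrt h2.le
  refine ⟨⟨⟨0, √√2⟩, hr⟩, fun a b c h => ?_⟩
  have h1 := congrArg Complex.re h
  have h3 := congrArg Complex.im h
  simp only [sq, Complex.add_re, Complex.mul_re, Complex.mul_im, Complex.intCast_re,
    Complex.intCast_im, Complex.add_im, Complex.zero_re, Complex.zero_im] at h1 h3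
  have hb : (b : ℝ) * √√2 = 0 := by linarith
  have hb' : b = 0 := by exact_mod_cast (mul_eq_zero.1 hb).resolve_right hr.ne'
  have hc : (a : ℝ) * √2 = c := by rw [← hs]; linarith
  have ha : a = 0 := by
    by_contra ha
    exact (irrational_sqrt_two.intCast_mul ha).ne_int c hc
  refine ⟨ha, hb', ?_⟩
  rw [ha] at hc
  have : (c : ℝ) = 0 := by rw [← hc]; simp
  exact_mod_cast this

theorem xke_cop (h : Rel m A B) : ∃ (s t : ℤ) (X : M2), IsCoprime s t ∧ s ≠ 0 ∧ t ≠ 0 ∧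
    0 < X.det ∧ X.det ≤ m ∧ s • A = t • (X * B) := by
  obtain ⟨s, t, X, hs, ht, h1, h2, e⟩ := h
  have hg : 0 < Int.gcd s t := Int.gcd_pos_of_ne_zero_left t hs
  obtain ⟨s', t', hc, e1, e2⟩ := Int.exists_gcd_one hg
  have hg' : (Int.gcd s t : ℤ) ≠ 0 := by exact_mod_cast hg.ne'
  generalize (Int.gcd s t : ℤ) = g at e1 e2 hg'
  refine ⟨s', t', X, Int.isCoprime_iff_gcd_eq_one.2 hc, ?_, ?_, h1, h2, ?_⟩
  · rintro rfl
    exact hs (by rw [e1, zero_mul])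
  · rintro rfl
    exact ht (by rw [e2, zero_mul])
  · apply xla_cancel hg'
    rw [smul_smul, smul_smul, mul_comm g s', mul_comm g t', ← e1, ← e2, e]

theorem xke_ndvd {l : ℕ} (hl : l.Prime) {s t x a b : ℤ} (hc : IsCoprime s t) (hx : ¬ (l : ℤ) ∣ x)
    (ha : ¬ (l : ℤ) ∣ a) (hb : ¬ (l : ℤ) ∣ b) (e : s ^ 2 * a = t ^ 2 * (x * b)) :
    ¬ (l : ℤ) ∣ s ∧ ¬ (l : ℤ) ∣ t := by
  have hp : Prime (l : ℤ) := Nat.prime_iff_prime_int.1 hl
  have h1 : (l : ℤ) ∣ s → (l : ℤ) ∣ t := fun h => by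
    have h2 : (l : ℤ) ∣ t ^ 2 * (x * b) := e ▸ (dvd_pow h two_ne_zero).mul_right a
    rcases hp.dvd_or_dvd h2 with h3 | h3
    · exact hp.dvd_of_dvd_pow h3
    · exact ((hp.dvd_or_dvd h3).elim hx hb).elim
  have h2 : (l : ℤ) ∣ t → (l : ℤ) ∣ s := fun h => by
    have h2 : (l : ℤ) ∣ s ^ 2 * a := e ▸ (dvd_pow h two_ne_zero).mul_right _
    rcases hp.dvd_or_dvd h2 with h3 | h3
    · exact hp.dvd_of_dvd_pow h3
    · exact (ha h3).elim
  exact ⟨fun h => hp.not_isUnit (hc.isUnit_of_dvd' h (h1 h)),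
    fun h => hp.not_isUnit (hc.isUnit_of_dvd' (h2 h) h)⟩

theorem xke_small {l : ℕ} {x : ℤ} (h1 : 0 < x) (h2 : x ≤ m) (hm : m < l) : ¬ (l : ℤ) ∣ x :=
  fun h => by
    have := Int.le_of_dvd h1 h
    omega

theorem xke_pow {l : ℕ} (hl : l.Prime) (e : ℕ) {x : ℤ} (h : ¬ (l : ℤ) ∣ x) :
    IsCoprime x ((l ^ e : ℕ) : ℤ) := by
  have hp : Prime (l : ℤ) := Nat.prime_iff_prime_int.1 hl
  rw [Nat.cast_pow]
  exact (hp.irreducible.coprime_iff_not_dvd.2 h).symm.pow_right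

theorem xke_ker {n : ℕ} {s : ℤ} (h : IsCoprime s n) (X : M2) : Ker n (s • X) = Ker n X := by
  have e : s • X = (s • (1 : M2)) * X := by rw [Matrix.smul_mul, Matrix.one_mul]
  rw [e]
  refine Ker_cop ?_ X
  rw [Matrix.det_smul, Matrix.det_one, mul_one]
  exact h.pow_left

theorem rel_of_isog (hm : 0 < m) (hA : 0 < A.det) (hB : 0 < B.det)
    (h : ∀ τ, Isog m (jInv (act A τ)) (jInv (act B τ))) : Rel (m ^ 2) A B := by
  obtain ⟨τ, hτ⟩ := xke_pt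
  obtain ⟨ξ, h1, h2, e⟩ := (h τ).exists_act hm
  have hY : 0 < (ξ * B).det := by rw [Matrix.det_mul]; exact mul_pos h1 hB
  rw [← act_mul h1 hB] at e
  have hle : ξ.det ≤ ((m ^ 2 : ℕ) : ℤ) := by
    rw [Nat.cast_pow]
    exact Int.le_of_dvd (by positivity) h2
  have e1 := vact_den_mul hA τ
  have e2 := vact_den_mul hY τ
  rw [← e] at e2
  have key : ∀ Y : M2, 0 < Y.det →
      ((Y 1 0 : ℂ) * τ + Y 1 1) * (act A τ : ℂ) = (Y 0 0 : ℂ) * τ + Y 0 1 →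
      ∃ t : ℤ, t ≠ 0 ∧ Y.det • A = t • Y := fun Y hY e2 => by
    obtain ⟨ha, hb, hc⟩ := hτ (A 0 0 * Y 1 0 - Y 0 0 * A 1 0)
      (A 0 0 * Y 1 1 + A 0 1 * Y 1 0 - Y 0 0 * A 1 1 - Y 0 1 * A 1 0)
      (A 0 1 * Y 1 1 - Y 0 1 * A 1 1) (by
        push_cast
        linear_combination ((A 1 0 : ℂ) * τ + A 1 1) * e2 - ((Y 1 0 : ℂ) * τ + Y 1 1) * e1)
    have e3 : Y.det • A = (Y 1 1 * A 0 0 - Y 0 1 * A 1 0) • Y := by
      ext i j
      rw [Matrix.det_fin_two]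
      fin_cases i <;> fin_cases j <;> simp only [Matrix.smul_apply, smul_eq_mul, Fin.zero_eta,
        Fin.mk_one, Fin.isValue]
      · linear_combination (-Y 0 1) * ha
      · linear_combination Y 0 0 * hc - Y 0 1 * hb
      · linear_combination (-Y 1 1) * ha
      · linear_combination Y 1 0 * hc - Y 1 1 * hb
    refine ⟨_, fun h0 => ?_, e3⟩
    rw [h0, zero_smul] at e3
    have e4 := congrArg Matrix.det e3
    rw [Matrix.det_smul, Matrix.det_zero] at e4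
    exact (mul_pos (pow_pos hY _) hA).ne' e4
  obtain ⟨t, ht, e3⟩ := key _ hY e2
  exact ⟨_, t, ξ, hY.ne', ht, h1, hle, e3⟩

theorem Rel.isog (h : Rel m A B) (hA : 0 < A.det) (hB : 0 < B.det) (τ : ℍ) :
    Isog m.factorial (jInv (act A τ)) (jInv (act B τ)) := by
  obtain ⟨s, t, X, hs, ht, h1, h2, e⟩ := h
  have hY : 0 < (X * B).det := by rw [Matrix.det_mul]; exact mul_pos h1 hB
  rw [← act_smul hA hs, e, act_smul hY ht, act_mul h1 hB]
  exact (isog_act h1 _).mono (Nat.dvd_factorial (by omega) (by omega))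

theorem Rel.mono {m' : ℕ} (h : Rel m A B) (hm : m ≤ m') : Rel m' A B := by
  obtain ⟨s, t, X, hs, ht, h1, h2, e⟩ := h
  exact ⟨s, t, X, hs, ht, h1, h2.trans (by exact_mod_cast hm), e⟩

theorem Rel.ker (h : Rel m A B) {l e : ℕ} (hl : l.Prime) (hm : m < l) {a b : ℤ}
    (hA : A.det = (l : ℤ) ^ e * a) (hB : B.det = (l : ℤ) ^ e * b) (ha : ¬ (l : ℤ) ∣ a)
    (hb : ¬ (l : ℤ) ∣ b) : Ker (l ^ e) A = Ker (l ^ e) B := by
  obtain ⟨s, t, X, hc, hs, ht, h1, h2, e1⟩ := xke_cop h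
  have hx := xke_small h1 h2 hm
  have e2 := congrArg Matrix.det e1
  rw [Matrix.det_smul, Matrix.det_smul, Matrix.det_mul, Fintype.card_fin, hA, hB] at e2
  have hl0 : (l : ℤ) ^ e ≠ 0 := pow_ne_zero _ (by exact_mod_cast hl.ne_zero)
  have e3 : s ^ 2 * a = t ^ 2 * (X.det * b) := by
    apply mul_left_cancel₀ hl0
    linear_combination e2
  obtain ⟨h3, h4⟩ := xke_ndvd hl hc hx ha hb e3
  rw [← xke_ker (xke_pow hl e h3) A, e1, xke_ker (xke_pow hl e h4), Ker_cop (xke_pow hl e hx)]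

theorem Rel.cancel {η : M2} (h : Rel m (A * η) (B * η)) (hη : η.det ≠ 0) : Rel m A B := by
  obtain ⟨s, t, X, hs, ht, h1, h2, e⟩ := h
  refine ⟨s, t, X, hs, ht, h1, h2, xla_cancel hη ?_⟩
  have e1 := congrArg (· * η.adjugate) e
  simp only [Matrix.smul_mul, Matrix.mul_assoc, Matrix.mul_adjugate, Matrix.mul_smul,
    Matrix.mul_one] at e1
  rw [smul_comm, e1, smul_comm]

theorem Rel.strip {ν ν' : M2} (h : Rel m (ν * A) (ν' * B)) {q : ℕ} (hq : q.Prime) (hm : m < q)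
    (hν : ν.det = q) (hν' : ν'.det = q) (hA : ¬ (q : ℤ) ∣ A.det) (hB : ¬ (q : ℤ) ∣ B.det) :
    Rel m A B := by
  obtain ⟨s, t, X, hc, hs, ht, h1, h2, e1⟩ := xke_cop h
  have hx := xke_small h1 h2 hm
  have hp : Prime (q : ℤ) := Nat.prime_iff_prime_int.1 hq
  have e2 := congrArg Matrix.det e1
  rw [Matrix.det_smul, Matrix.det_smul, Matrix.det_mul, Matrix.det_mul, Matrix.det_mul,
    Fintype.card_fin, hν, hν'] at e2
  have e3 : s ^ 2 * A.det = t ^ 2 * (X.det * B.det) := by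
    apply mul_left_cancel₀ hp.ne_zero
    linear_combination e2
  obtain ⟨-, h4⟩ := xke_ndvd hq hc hx hA hB e3
  have e4 : s • (q : ℤ) • A = t • (ν.adjugate * X * ν' * B) := by
    have := congrArg (ν.adjugate * ·) e1
    simp only [Matrix.mul_smul, ← Matrix.mul_assoc, Matrix.adjugate_mul, hν, Matrix.smul_mul,
      Matrix.one_mul] at this
    exact this
  have e5 : (q : ℤ) • s • (A * B.adjugate) = (t * B.det) • (ν.adjugate * X * ν') := by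
    have := congrArg (· * B.adjugate) e4
    simp only [Matrix.smul_mul, Matrix.mul_assoc _ B, Matrix.mul_adjugate, Matrix.mul_smul,
      Matrix.mul_one] at this
    rw [smul_comm, this, smul_smul]
  obtain ⟨X', hX⟩ := (xla_ex (m := (q : ℤ)) (X := ν.adjugate * X * ν')).1 fun i j => by
    have h5 : (q : ℤ) ∣ t * B.det * (ν.adjugate * X * ν') i j :=
      ⟨_, (congrFun (congrFun e5 i) j).symm⟩
    rcases hp.dvd_or_dvd h5 with h6 | h6
    · exact ((hp.dvd_or_dvd h6).elim h4 hB).elim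
    · exact h6
  have e6 : X'.det = X.det := by
    have := congrArg Matrix.det hX
    rw [Matrix.det_mul, Matrix.det_mul, xla_det_adj, hν, hν', Matrix.det_smul,
      Fintype.card_fin] at this
    apply mul_left_cancel₀ (pow_ne_zero 2 hp.ne_zero)
    linear_combination -this
  refine ⟨s, t, X', hs, ht, e6 ▸ h1, e6 ▸ h2, xla_cancel hp.ne_zero ?_⟩
  rw [smul_comm, e4, hX, Matrix.smul_mul, smul_comm]

variable {κ : Type} [Fintype κ]

/-- The centred product along the matrices `ζ`. -/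
def Fz (N : ℕ) (φ : κ → (ℍ →ᵇ ℝ)) (ζ : κ → M2) : ℍ →ᵇ ℝ :=
  ∏ k, cact (φ k) (ζ k) - BoundedContinuousFunction.const ℍ (∏ k, IN N (φ k))

/-- Two families with different directions at `q`, of level `M`. -/
structure Tw (N m M q : ℕ) (ζ ζ' : κ → M2) : Prop where
  prime : q.Prime
  lt : m < q
  det : ∀ k, ∃ d : ℕ, 0 < d ∧ ¬ q ∣ d ∧ N * (d * q) ∣ M ∧ (ζ k).det = (d * q : ℕ) ∧
    (ζ' k).det = (d * q : ℕ)
  ne : ∀ k l, Ker q (ζ k) ≠ Ker q (ζ' l)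
  rel : ∀ k l, k ≠ l → ¬ Rel m (ζ k) (ζ l) ∧ ¬ Rel m (ζ' k) (ζ' l)

theorem xke_apply (N : ℕ) (φ : κ → (ℍ →ᵇ ℝ)) (ζ : κ → M2) (z : ℍ) :
    Fz N φ ζ z = ∏ k, φ k (act (ζ k) z) - ∏ k, IN N (φ k) := by
  simp only [Fz, BoundedContinuousFunction.coe_sub, Pi.sub_apply,
    BoundedContinuousFunction.prod_apply, cact_apply, BoundedContinuousFunction.const_apply]

theorem xke_ginv {N M : ℕ} {φ : κ → (ℍ →ᵇ ℝ)} (hφ : ∀ k, GInv N (φ k)) {ζ : κ → M2}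
    (h : ∀ k, 0 < (ζ k).det ∧ N * (ζ k).det.natAbs ∣ M) : GInv M (Fz N φ ζ) := by
  intro γ hγ τ
  rw [xke_apply, xke_apply]
  congr 1
  exact Finset.prod_congr rfl fun k _ => (((hφ k).act (h k).1).mono (h k).2) γ hγ τ

theorem Fz_ginv {N M q : ℕ} {φ : κ → (ℍ →ᵇ ℝ)} (hφ : ∀ k, GInv N (φ k)) {ζ ζ' : κ → M2}
    (h : Tw N m M q ζ ζ') : GInv M (Fz N φ ζ * Fz N φ ζ') := by
  have h1 : GInv M (Fz N φ ζ) := xke_ginv hφ fun k => by
    obtain ⟨d, hd, -, h2, h3, -⟩ := h.det k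
    rw [h3, Int.natAbs_natCast]
    exact ⟨by exact_mod_cast Nat.mul_pos hd h.prime.pos, h2⟩
  have h2 : GInv M (Fz N φ ζ') := xke_ginv hφ fun k => by
    obtain ⟨d, hd, -, h2, -, h3⟩ := h.det k
    rw [h3, Int.natAbs_natCast]
    exact ⟨by exact_mod_cast Nat.mul_pos hd h.prime.pos, h2⟩
  intro γ hγ τ
  show Fz N φ ζ (γ • τ) * Fz N φ ζ' (γ • τ) = Fz N φ ζ τ * Fz N φ ζ' τ
  rw [h1 γ hγ τ, h2 γ hγ τ]

theorem xke_half [Nonempty κ] {x : κ → ℝ} (h : ∀ k, |x k| ≤ 1 / 2) : |∏ k, x k| ≤ 1 / 2 := by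
  rw [Finset.abs_prod]
  calc ∏ k, |x k| ≤ ∏ _k : κ, (1 / 2 : ℝ) :=
        Finset.prod_le_prod (fun k _ => abs_nonneg _) fun k _ => h k
    _ = (1 / 2) ^ Fintype.card κ := by rw [Finset.prod_const, Finset.card_univ]
    _ ≤ 1 / 2 := pow_le_of_le_one (by norm_num) (by norm_num) Fintype.card_ne_zero

theorem abs_Fz_le {N : ℕ} (hN : 0 < N) [Nonempty κ] {φ : κ → (ℍ →ᵇ ℝ)} (h : ∀ k, ‖φ k‖ ≤ 1 / 2)
    (ζ : κ → M2) (z : ℍ) : |Fz N φ ζ z| ≤ 1 := by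
  rw [xke_apply]
  have h1 := xke_half (x := fun k => φ k (act (ζ k) z)) fun k =>
    ((φ k).norm_coe_le_norm _).trans (h k)
  have h2 := xke_half (x := fun k => IN N (φ k)) fun k => (abs_IN_le hN _).trans (h k)
  exact (abs_sub _ _).trans (by linarith)

theorem xke_IN_one {M : ℕ} (hM : 0 < M) : IN M 1 = 1 := by
  have : NeZero M := ⟨hM.ne'⟩
  have := mH_prob (Γ := CongruenceSubgroup.Gamma M)
  simp [IN]

theorem xke_IN_sum {M : ℕ} (hM : 0 < M) {ι : Type} (s : Finset ι) (f : ι → (ℍ →ᵇ ℝ))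
    (c : ι → ℝ) : IN M (∑ i ∈ s, f i * BoundedContinuousFunction.const ℍ (c i)) =
      ∑ i ∈ s, IN M (f i) * c i := by
  have : NeZero M := ⟨hM.ne'⟩
  have := mH_prob (Γ := CongruenceSubgroup.Gamma M)
  simp only [IN, BoundedContinuousFunction.sum_apply, BoundedContinuousFunction.coe_mul,
    Pi.mul_apply, BoundedContinuousFunction.const_apply]
  rw [integral_finsetSum _ fun i _ => ((f i).integrable _).mul_const _]
  exact Finset.sum_congr rfl fun i _ => integral_mul_const _ _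

theorem xke_heck {ι : Type} [Fintype ι] {N : ℕ} (hN : 0 < N) (φ : ι → (ℍ →ᵇ ℝ))
    (hφ : ∀ k, GInv N (φ k)) (I : Finset ι) {ε : ℝ} (hε : 0 < ε) :
    ∃ m : ℕ, ∀ (ξ : ι → M2) (M : ℕ), 0 < M →
      (∀ k, 0 < (ξ k).det ∧ N * (ξ k).det.natAbs ∣ M) →
      (∀ k l, k ≠ l → ¬ Rel m (ξ k) (ξ l)) →
      |IN M (∏ k ∈ I, cact (φ k) (ξ k)) - ∏ k ∈ I, IN N (φ k)| ≤ ε := by
  rcases I.eq_empty_or_nonempty with rfl | ⟨b, hb⟩
  · refine ⟨0, fun ξ M hM _ _ => ?_⟩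
    rw [Finset.prod_empty, Finset.prod_empty, xke_IN_one hM, sub_self, abs_zero]
    exact hε.le
  · obtain ⟨m, hm, h⟩ := heck hN φ hφ I hε
    refine ⟨m ^ 2, fun ξ M hM h1 h2 => ?_⟩
    have h3 := h (fun _ => b) ξ M hM h1 fun k _ l _ hkl _ => by
      by_contra h4
      exact h2 k l hkl (rel_of_isog hm (h1 k).1 (h1 l).1 fun τ => by
        by_contra h5
        exact h4 ⟨τ, h5⟩)
    rwa [Finset.image_const ⟨b, hb⟩, Finset.prod_singleton,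
      Finset.filter_true_of_mem fun _ _ => rfl] at h3

theorem four_fold {N : ℕ} (hN : 0 < N) (φ : κ → (ℍ →ᵇ ℝ)) (hφ : ∀ k, GInv N (φ k)) {ε : ℝ}
    (hε : 0 < ε) : ∃ m₀ : ℕ, ∀ (M : ℕ) (ζ : Fin 4 → κ → M2), 0 < M →
      (∀ i k, 0 < (ζ i k).det ∧ N * (ζ i k).det.natAbs ∣ M) →
      (∀ i k j l, (i, k) ≠ (j, l) → ¬ Rel m₀ (ζ i k) (ζ j l)) →
      |IN M (∏ i, Fz N φ (ζ i))| ≤ ε := by
  set J : ℝ := ∏ k, IN N (φ k) with hJ
  set c : Finset (Fin 4) → ℝ := fun S => ∏ _i ∈ Finset.univ \ S, (-J) with hc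
  set C : ℝ := ∑ S ∈ (Finset.univ : Finset (Fin 4)).powerset, |c S| with hC
  have hC0 : 0 ≤ C := Finset.sum_nonneg fun S _ => abs_nonneg _
  have hε' : 0 < ε / (C + 1) := by positivity
  choose m hm using fun S : Finset (Fin 4) => xke_heck hN (fun x : Fin 4 × κ => φ x.2)
    (fun x => hφ x.2) (S ×ˢ Finset.univ) hε'
  refine ⟨Finset.univ.sup m, fun M ζ hM h1 h2 => ?_⟩
  have h3 : ∀ S : Finset (Fin 4),
      |IN M (∏ i ∈ S, ∏ k, cact (φ k) (ζ i k)) - ∏ _i ∈ S, J| ≤ ε / (C + 1) := fun S => by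
    have := hm S (fun x => ζ x.1 x.2) M hM (fun x => h1 x.1 x.2) fun x y hxy hr =>
      h2 x.1 x.2 y.1 y.2 hxy (hr.mono (Finset.le_sup (f := m) (Finset.mem_univ S)))
    rwa [Finset.prod_product, Finset.prod_product] at this
  have e1 : ∏ i, Fz N φ (ζ i) = ∑ S ∈ (Finset.univ : Finset (Fin 4)).powerset,
      (∏ i ∈ S, ∏ k, cact (φ k) (ζ i k)) * BoundedContinuousFunction.const ℍ (c S) := by
    ext z
    simp only [BoundedContinuousFunction.prod_apply, BoundedContinuousFunction.sum_apply,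
      BoundedContinuousFunction.coe_mul, Pi.mul_apply, BoundedContinuousFunction.const_apply,
      xke_apply, cact_apply, sub_eq_add_neg]
    exact Finset.prod_add _ _ _
  have e2 : ∑ S ∈ (Finset.univ : Finset (Fin 4)).powerset, (∏ _i ∈ S, J) * c S = 0 := by
    rw [← Finset.prod_add]
    simp
  rw [e1, xke_IN_sum hM, ← sub_zero (∑ S ∈ _, _), ← e2, ← Finset.sum_sub_distrib]
  calc _ ≤ ∑ S ∈ (Finset.univ : Finset (Fin 4)).powerset, ε / (C + 1) * |c S| := by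
        refine (Finset.abs_sum_le_sum_abs _ _).trans (Finset.sum_le_sum fun S _ => ?_)
        rw [← sub_mul, abs_mul]
        exact mul_le_mul_of_nonneg_right (h3 S) (abs_nonneg _)
    _ = ε / (C + 1) * C := by rw [← Finset.mul_sum]
    _ ≤ ε / (C + 1) * (C + 1) := mul_le_mul_of_nonneg_left (by linarith) hε'.le
    _ = ε := div_mul_cancel₀ _ (by linarith)

end Pool.Agent.EQ
end
end
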