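import Pool.Agent.K.MP_ad7a55_nt.C66
import Pool.Agent.K.MP_ad7a55_nt.C71
import Pool.Agent.K.MP_ad7a55_nt.C77
import Pool.Agent.K.MP_ad7a55_nt.C21
import Pool.Agent.K.MP_ad7a55_nt.C58
import Pool.Agent.K.MP_ad7a55_nt.C72
import Pool.Agent.K.MP_ad7a55_nt.C62
import Pool.Agent.K.MP_ad7a55_nt.C22
import Pool.Agent.K.MP_ad7a55_nt.C47
import Pool.Agent.K.MP_ad7a55_nt.C8

-- part Pool.Agent.P.MP_ad7a55_nt.XDa
section

/-! The data attached to a tuple of complex multiplication points. -/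

set_option autoImplicit false

noncomputable section

open MeasureTheory Topology Filter UpperHalfPlane Finset
open scoped MatrixGroups BoundedContinuousFunction Matrix Classical

namespace Pool.Agent.EQ

/-- The big coordinates and their clusters. -/
structure Shp (n : ℕ) (ι : Type) where
  N : ℕ
  e : ℕ
  I : Finset (Fin n)
  J : Finset (Fin n)
  cr : ι → Fin n
  bs : Fin n → ι
  sub : J ⊆ I
  mem : ∀ c, cr c ∈ J
  bs_cr : ∀ c, bs (cr c) = c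

/-- Points, degrees and primes. -/
structure VD (n : ℕ) where
  τ : Fin n → ℍ
  D : Fin n → ℤ
  dg : Fin n → ℕ
  E : ℤ
  b : ℤ
  P : Finset ℕ
  M : ℕ
  l : Fin M → ℕ
  l' : Fin M → ℕ
  R : ℕ

/-- The cell of a point. -/
def cel (U : ℝ) (cl : ℍ → ℍ) (τ : ℍ) : Option ℍ := if τ ∈ KU U then some (cl τ) else none

/-- The normal form with prescribed kernels at `d` and `q`. -/
def hq (d q : ℕ) (h : M2) (ξ : Set V2) : M2 :=
  if e : ∃ g ∈ Hn (d * q), Ker d g = Ker d h ∧ Ker q g = ξ then e.choose else 1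

/-- Representatives of the matrices of determinant `d` modulo level `N`. -/
def RPm (N d : ℕ) (ζ : M2) : Prop := ∃ c : vcjQ N, ∃ h ∈ Hn d, ζ = (c.out : SL(2, ℤ)) * h

/-- The type of the coarse data. -/
abbrev Cty (n : ℕ) (ι : Type) (M : ℕ) : Type :=
  (Fin n → ℂ) × (Fin n → M2) × (ι → Option ℍ) × (ι → Fin M → Set V2 × Set V2)

/-- The automorphism attached to a set of primes. -/
def VD.sg {n : ℕ} (v : VD n) (β : Finset ℕ) : ℂ ≃+* ℂ :=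
  if h : ∃ σ : ℂ ≃+* ℂ, ∀ (τ : ℍ) (D : ℤ) (η : M2), HasDisc τ D → D < -576 → Fit v.E D →
    η.det = (∏ l ∈ β, l : ℕ) → Ker (∏ l ∈ β, l) (AA v.E v.b τ) ⊆ Ker (∏ l ∈ β, l) η →
    σ (jInv τ) = jInv (act η τ) then h.choose else RingEquiv.refl ℂ

/-- The move of a point of the orbit. -/
def VD.mv {n : ℕ} (v : VD n) (β : Finset ℕ) (x : Fin n → ℂ) : Fin n → ℂ := fun k => v.sg β (x k)

namespace Shp

variable {n : ℕ} {ι : Type} (s : Shp n ι) (v : VD n)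

/-- A cluster. -/
abbrev Cu (c : ι) : Type := {k : Fin n // k ∈ s.J ∧ s.bs k = c}

/-- The point of the cluster `c`. -/
def ct (x : Fin n → ℂ) (c : ι) : ℍ := fr (x (s.cr c))

/-- The direction matrix. -/
def A (x : Fin n → ℂ) (c : ι) : M2 := AA v.E v.b (s.ct x c)

/-- The isogeny from the point of the cluster to the coordinate `k`. -/
def hk (x : Fin n → ℂ) (k : Fin n) : M2 :=
  if h : ∃ g ∈ Hn (v.dg k), jInv (act g (s.ct x (s.bs k))) = x k then h.choose else 1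

/-- The long part of a move. -/
def a₁ (i : Fin v.M) : ℕ := v.l i ^ (2 * s.e * v.R)

/-- The short part of a move. -/
def a₂ (i : Fin v.M) : ℕ := v.l' i ^ (2 * s.e)

/-- The product of the degrees. -/
def dd : ℕ := ∏ k ∈ s.J, v.dg k

/-- A common level. -/
def MM : ℕ := s.N * s.dd v * ∏ q ∈ v.P, q

/-- A matrix with the given kernels, scalar modulo the level. -/
def IsRho (i : Fin v.M) (L : Set V2 × Set V2) (ρ : M2) : Prop :=
  ρ.det = (s.a₁ v i * s.a₂ v i : ℕ) ∧ Ker (s.a₁ v i) ρ = L.1 ∧ Ker (s.a₂ v i) ρ = L.2 ∧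
    Cg (s.MM v) ρ ((v.l i : ℤ) ^ (s.e * v.R) * (v.l' i : ℤ) ^ s.e)

/-- The chosen matrix. -/
def rho (i : Fin v.M) (L : Set V2 × Set V2) : M2 :=
  if h : ∃ ρ, s.IsRho v i L ρ then h.choose else 1

/-- The possible directions of the move `i`. -/
def Xi (i : Fin v.M) : Finset (Set V2 × Set V2) := Xn (s.a₁ v i) ×ˢ Xn (s.a₂ v i)

/-- The directions at the moves. -/
def lab (x : Fin n → ℂ) (c : ι) : Fin v.M → Set V2 × Set V2 :=
  fun i => (Ker (s.a₁ v i) (s.A v x c), Ker (s.a₂ v i) (s.A v x c))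

/-- The small coordinates. -/
def sm (x : Fin n → ℂ) : Fin n → ℂ := fun k => if k ∈ s.I \ s.J then x k else 0

/-- The coarse data. -/
def C0 (U : ℝ) (cl : ℍ → ℍ) (x : Fin n → ℂ) : Cty n ι v.M :=
  (s.sm x, fun k => if k ∈ s.J then s.hk v x k else 0, fun c => cel U cl (s.ct x c), s.lab v x)

/-- The matrix of a move. -/
def et (β : Finset ℕ) (x : Fin n → ℂ) (c : ι) : M2 :=
  if h : ∃ η : M2, η.det = (∏ l ∈ β, l : ℕ) ∧
    Ker (∏ l ∈ β, l) (s.A v x c) ⊆ Ker (∏ l ∈ β, l) η ∧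
    act η (s.ct x c) = s.ct (v.mv β x) c then h.choose else 1

/-- The abstract data. -/
def rd (U : ℝ) (cl : ℍ → ℍ) : RD (Fin n → ℂ) ι (Cty n ι v.M) (ι → Option ℍ) where
  O := Orb v.τ
  P := v.P
  A := s.A v
  π := v.mv
  η := s.et v
  In := fun x => ∀ c, s.ct x c ∈ KU U
  C0 := s.C0 v U cl
  cl := fun x c => cel U cl (s.ct x c)

/-- The weighted sum over the moves. -/
def val (φ : Fin n → (ℍ →ᵇ ℝ)) (ζ : Fin n → M2) (Ls : ι → Fin v.M → Set V2 × Set V2) (w : ι → ℍ)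
    (W : Fin v.M → ℝ) : ℝ :=
  ∑ i, W i * (∏ k ∈ s.J, φ k (act (ζ k * s.rho v i (Ls (s.bs k) i)) (w (s.bs k))) -
    ∏ k ∈ s.J, IN s.N (φ k))

/-- The sum over the moves is large for some level data. -/
def Ev (φ : Fin n → (ℍ →ᵇ ℝ)) (Ws : (Fin n → ℂ) → Finset (Fin v.M → ℝ)) (t : ℝ)
    (x : Fin n → ℂ) : Prop :=
  ∃ W ∈ Ws (s.sm x), ∃ γ : Fin n → vcjQ s.N, t * v.M ≤
    |s.val v φ (fun k => ((γ k).out : SL(2, ℤ)) * s.hk v x k) (s.lab v x) (s.ct x) W|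

/-- The directions `ξ` at `q` correlate with the coarse data `a`. -/
def Cor (φ : Fin n → (ℍ →ᵇ ℝ)) (Ws : (Fin n → ℂ) → Finset (Fin v.M → ℝ)) (t : ℝ) (q : ℕ)
    (a : Cty n ι v.M) (ξ : ι → Set V2) : Prop :=
  ∃ W ∈ Ws a.1, ∃ γ : Fin n → vcjQ s.N, t * v.M ≤
    |s.val v φ (fun k => ((γ k).out : SL(2, ℤ)) * hq (v.dg k) q (a.2.1 k) (ξ (s.bs k))) a.2.2.2
      (fun c => (a.2.2.1 c).getD UpperHalfPlane.I) W|

/-- Directions along which two different twists correlate. -/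
def Bad (φ : Fin n → (ℍ →ᵇ ℝ)) (m : ℕ) (ε : ℝ) (Rn : Finset ℍ) (c : ι)
    (Ls : Fin v.M → Set V2 × Set V2) : Prop :=
  ∃ w ∈ Rn, ∃ q ∈ v.P, ∃ ζ ζ' : s.Cu c → M2,
    (∀ k : s.Cu c, RPm s.N (v.dg k * q) (ζ k) ∧ RPm s.N (v.dg k * q) (ζ' k)) ∧
    Tw s.N m (s.N * s.dd v * q) q ζ ζ' ∧ ε * v.M <
      |∑ i, (Fz s.N (fun k : s.Cu c => φ k) ζ * Fz s.N (fun k : s.Cu c => φ k) ζ')
        (act (s.rho v i (Ls i)) w)|

/-- A usable prime. -/
def Pm (y q : ℕ) : Prop :=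
  q.Prime ∧ y < q ∧ q ≤ 2 * y ∧ ¬ (q : ℤ) ∣ 2 * s.N * v.E * s.dd v

structure Ok (L T : ℝ) (a m₀ y : ℕ) : Prop where
  N_pos : 0 < s.N
  e_pos : 0 < s.e
  hT : 100 ≤ T
  disc : ∀ k, HasDisc (v.τ k) (v.D k)
  big : ∀ k, v.D k < -576
  Ebig : v.E < -576
  fit : ∀ k ∈ s.J, Fit v.E (s.N ^ 2 * v.D k)
  low : ∀ k ∈ s.J, Low L (v.D k)
  small : ∀ k ∈ s.I \ s.J, -(v.D k : ℝ) ≤ Real.exp T
  large : ∀ k ∈ s.J, Real.exp (T ^ 16) ≤ -(v.D k : ℝ) ∧ Real.log (-(v.D k : ℝ)) ≤ T ^ a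
  deg : ∀ k ∈ s.J, 0 < v.dg k ∧ (v.dg k : ℝ) ≤ Real.exp T ∧
    Ig (v.dg k) (jInv (v.τ k)) (jInv (v.τ (s.cr (s.bs k))))
  sep : ∀ c c', c ≠ c' → ∀ d : ℕ, 0 < d → (d : ℝ) ≤ Real.exp (T ^ 16) →
    ¬ Ig d (jInv (v.τ (s.cr c))) (jInv (v.τ (s.cr c')))
  noi : ∀ k ∈ s.J, ∀ l ∈ s.J, k ≠ l → ∀ d : ℕ, 0 < d → d ≤ m₀ →
    ¬ Ig d (jInv (v.τ k)) (jInv (v.τ l))
  pP : ∀ q ∈ v.P, s.Pm v y q
  pl : ∀ i, s.Pm v y (v.l i) ∧ s.Pm v y (v.l' i) ∧ v.l i ∉ v.P ∧ v.l' i ∉ v.P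
  inj : Function.Injective v.l ∧ Function.Injective v.l' ∧ ∀ i j, v.l i ≠ v.l' j
  bP : (4 * (∏ q ∈ v.P, q : ℕ) : ℤ) ∣ v.b ^ 2 - v.E
  bl : ∀ i, (4 * (v.l i ^ v.R * v.l' i : ℕ) ^ (2 * s.e) : ℤ) ∣ v.b ^ 2 - v.E
  ylo : T ^ 256 ≤ y
  yhi : (y : ℝ) ≤ T ^ a
  ylog : (2 * y + 1 : ℝ) ≤ Real.exp T
  cP : T ^ 12 ≤ #v.P ∧ (#v.P : ℝ) ≤ 2 * T ^ 12
  cM : T ^ 2 ≤ v.M ∧ (v.M : ℝ) ≤ 2 * T ^ 2
  cR : T ^ 2 ≤ v.R ∧ (v.R : ℝ) ≤ 2 * T ^ 2

variable {s v} {L T : ℝ} {a m₀ y : ℕ} {x : Fin n → ℂ} {β : Finset ℕ}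

theorem xda_pm {q : ℕ} (h : s.Pm v y q) :
    IsCoprime (q : ℤ) (2 * v.E) ∧ q.Coprime s.N ∧ q.Coprime (s.dd v) := by
  have hc : IsCoprime (q : ℤ) (2 * s.N * v.E * s.dd v) :=
    (Nat.prime_iff_prime_int.1 h.1).coprime_iff_not_dvd.2 h.2.2.2
  refine ⟨hc.of_isCoprime_of_dvd_right ⟨s.N * s.dd v, by ring⟩, Nat.isCoprime_iff_coprime.1 ?_,
    Nat.isCoprime_iff_coprime.1 ?_⟩
  · exact hc.of_isCoprime_of_dvd_right ⟨2 * v.E * s.dd v, by ring⟩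
  · exact hc.of_isCoprime_of_dvd_right ⟨2 * s.N * v.E, by ring⟩

theorem Ok.xda_n (h : s.Ok v L T a m₀ y) (hβ : β ⊆ v.P) :
    0 < ∏ l ∈ β, l ∧ IsCoprime ((∏ l ∈ β, l : ℕ) : ℤ) (2 * v.E) ∧
      (4 * (∏ l ∈ β, l : ℕ) : ℤ) ∣ v.b ^ 2 - v.E ∧ (∏ l ∈ β, l).Coprime (s.dd v) := by
  refine ⟨prod_pos fun l hl => (h.pP l (hβ hl)).1.pos, ?_, ?_,
    Nat.Coprime.prod_left fun l hl => (xda_pm (h.pP l (hβ hl))).2.2⟩
  · rw [Nat.cast_prod]
    exact IsCoprime.prod_left fun l hl => (xda_pm (h.pP l (hβ hl))).1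
  · exact (mul_dvd_mul_left 4 (Int.natCast_dvd_natCast.2
      (prod_dvd_prod_of_subset _ _ _ hβ))).trans h.bP

theorem Ok.xda_cop (h : s.Ok v L T a m₀ y) (hβ : β ⊆ v.P) {q : ℕ} (hq : q.Prime) (hP : q ∉ v.P) :
    q.Coprime (∏ l ∈ β, l) :=
  Nat.Coprime.prod_right fun l hl => (Nat.coprime_primes hq (h.pP l (hβ hl)).1).2
    fun e => hP (e ▸ hβ hl)

theorem xda_split {a b : ℕ} (hab : a.Coprime b) {K K' : Set V2} (h : IsLn a K) (h' : IsLn b K')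
    {η : M2} (e : Ker a η ∩ Ker b η = K ∩ K') : Ker a η = K := by
  obtain ⟨u, -, rfl⟩ := h
  obtain ⟨u', -, rfl⟩ := h'
  have hs : IsCoprime (b : ℤ) a := Nat.isCoprime_iff_coprime.2 hab.symm
  ext w
  have h1 : (b : ℤ) • w ∈ Ker b η := fun i => by
    rw [Matrix.mulVec_smul]
    exact dvd_mul_right _ _
  have h2 : (b : ℤ) • w ∈ Ln b u' := xlb_mem.2 ⟨u' 0 * w 1 - u' 1 * w 0, by
    simp only [Pi.smul_apply, smul_eq_mul]
    ring⟩
  have h3 : (b : ℤ) • w ∈ Ln a u ↔ w ∈ Ln a u := by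
    have e' : u 0 * ((b : ℤ) • w) 1 - u 1 * ((b : ℤ) • w) 0 = b * (u 0 * w 1 - u 1 * w 0) := by
      simp only [Pi.smul_apply, smul_eq_mul]
      ring
    rw [xlb_mem, xlb_mem, e']
    exact ⟨hs.symm.dvd_of_dvd_mul_left, fun k => k.mul_left _⟩
  have h4 := Set.ext_iff.1 e ((b : ℤ) • w)
  simp only [Set.mem_inter_iff, h1, h2, and_true] at h4
  rw [← xla_smul hs η w, h4, h3]

theorem xda_adj {d : ℕ} {η : M2} (hc : IsCoprime η.det d) (g : M2) (w : V2) :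
    w ∈ Ker d g ↔ η.adjugate *ᵥ w ∈ Ker d (g * η) := by
  rw [mem_Ker_mul, Matrix.mulVec_mulVec, Matrix.mul_adjugate, Matrix.smul_mulVec,
    Matrix.one_mulVec, xla_smul hc]

theorem Ok.ct_disc (h : s.Ok v L T a m₀ y) (hx : x ∈ Orb v.τ) (c : ι) :
    HasDisc (s.ct x c) (v.D (s.cr c)) ∧ Fit v.E (v.D (s.cr c)) := by
  exact ⟨Orb_disc h.disc hx (h.big _), (h.fit _ (s.mem c)).trans (fit_sq h.N_pos _)⟩

theorem Ok.prod_le (h : s.Ok v L T a m₀ y) (hβ : β ⊆ v.P) :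
    ((∏ q ∈ β, q : ℕ) : ℝ) ≤ Real.exp (2 * T ^ 13) ∧
      ∑ q ∈ β, (q : ℝ) ^ (-(1 / 4 : ℝ)) ≤ 1 := by
  have hT := h.hT
  have hT1 : (1 : ℝ) ≤ T := by linarith
  have hT0 : (0 : ℝ) < T := by linarith
  have hc : (#β : ℝ) ≤ 2 * T ^ 12 := (Nat.cast_le.2 (card_le_card hβ)).trans h.cP.2
  constructor
  · rw [Nat.cast_prod]
    calc ∏ q ∈ β, (q : ℝ) ≤ ∏ q ∈ β, Real.exp T := by
          refine prod_le_prod (fun q _ => Nat.cast_nonneg q) fun q hq => ?_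
          have h1 : (q : ℝ) ≤ 2 * y := by exact_mod_cast (h.pP q (hβ hq)).2.2.1
          linarith [h.ylog]
      _ = Real.exp (#β * T) := by rw [prod_const, Real.exp_nat_mul]
      _ ≤ Real.exp (2 * T ^ 13) := by
          refine Real.exp_le_exp.2 ((mul_le_mul_of_nonneg_right hc hT0.le).trans_eq ?_)
          ring
  · have h64 : (0 : ℝ) < T ^ 64 := by positivity
    calc ∑ q ∈ β, (q : ℝ) ^ (-(1 / 4 : ℝ)) ≤ ∑ q ∈ β, (T ^ 64)⁻¹ := by
          refine sum_le_sum fun q hq => ?_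
          have h1 : (y : ℝ) ≤ q := by exact_mod_cast (h.pP q (hβ hq)).2.1.le
          have h2 : (T ^ 64) ^ 4 ≤ (q : ℝ) := by
            rw [← pow_mul]
            exact h.ylo.trans h1
          have h3 := Real.rpow_le_rpow_of_nonpos (by positivity) h2
            (by norm_num : (-(1 / 4 : ℝ)) ≤ 0)
          refine h3.trans_eq ?_
          rw [← Real.rpow_natCast _ 4, ← Real.rpow_mul h64.le]
          norm_num [Real.rpow_neg_one]
      _ = #β * (T ^ 64)⁻¹ := by rw [sum_const, nsmul_eq_mul]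
      _ ≤ 1 := by
          rw [← div_eq_mul_inv, div_le_one h64]
          calc (#β : ℝ) ≤ T * T ^ 12 :=
                hc.trans (mul_le_mul_of_nonneg_right (by linarith) (by positivity))
            _ = T ^ 13 := by ring
            _ ≤ T ^ 64 := pow_le_pow_right₀ hT1 (by norm_num)

theorem Ok.sg_spec (h : s.Ok v L T a m₀ y) (hβ : β ⊆ v.P) (τ : ℍ) (D : ℤ) (η : M2)
    (h₁ : HasDisc τ D) (h₂ : D < -576) (h₃ : Fit v.E D) (h₄ : η.det = (∏ l ∈ β, l : ℕ))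
    (h₅ : Ker (∏ l ∈ β, l) (AA v.E v.b τ) ⊆ Ker (∏ l ∈ β, l) η) :
    v.sg β (jInv τ) = jInv (act η τ) := by
  obtain ⟨n0, nc, nb, -⟩ := h.xda_n hβ
  have e := cm_one h.Ebig n0 nc nb
  rw [VD.sg, dif_pos e]
  exact e.choose_spec τ D η h₁ h₂ h₃ h₄ h₅

theorem Ok.et_spec (h : s.Ok v L T a m₀ y) (hβ : β ⊆ v.P) (hx : x ∈ Orb v.τ) (c : ι) :
    (s.et v β x c).det = (∏ l ∈ β, l : ℕ) ∧
      (∀ l ∈ β, Ker l (s.et v β x c) = Ker l (s.A v x c)) ∧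
      act (s.et v β x c) (s.ct x c) = s.ct (v.mv β x) c ∧
      s.et v β x c * s.A v x c = s.A v (v.mv β x) c * s.et v β x c := by
  obtain ⟨n0, nc, nb, -⟩ := h.xda_n hβ
  obtain ⟨hd, hf⟩ := h.ct_disc hx c
  have nb' := (dvd_mul_left _ 4).trans nb
  have hex : ∃ η : M2, η.det = (∏ l ∈ β, l : ℕ) ∧
      Ker (∏ l ∈ β, l) (s.A v x c) ⊆ Ker (∏ l ∈ β, l) η ∧
      act η (s.ct x c) = s.ct (v.mv β x) c := by
    obtain ⟨η, hη, hk⟩ := (AA_line hd hf n0 nc nb').exists_mat n0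
    have e1 := h.sg_spec hβ _ _ η hd (h.big _) hf hη hk.ge
    have e2 : jInv (act η (s.ct x c)) = jInv (s.ct (v.mv β x) c) := by
      rw [← e1, ct, ct, (fr_spec _).2, (fr_spec _).2]
      rfl
    obtain ⟨γ, hγ⟩ := jInv_inj e2
    refine ⟨(γ : M2) * η, by rw [Matrix.det_mul, γ.det_coe, one_mul, hη], ?_, ?_⟩
    · rw [Ker_SL, hk]
      exact subset_rfl
    · rw [act_mul (by rw [γ.det_coe]; exact one_pos) (by rw [hη]; exact_mod_cast n0), act_SL, hγ]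
  have hs := hex.choose_spec
  have he : s.et v β x c = hex.choose := by rw [et, dif_pos hex]
  rw [← he] at hs
  obtain ⟨h1, h2, h3⟩ := hs
  refine ⟨h1, fun l hl => ?_, h3, ?_⟩
  · have hp := (h.pP l (hβ hl)).1
    have hm := mul_prod_erase β (fun l => l) hl
    have hcop : l.Coprime (∏ q ∈ β.erase l, q) :=
      Nat.Coprime.prod_right fun q hq => (Nat.coprime_primes hp
        (h.pP q (hβ (mem_of_mem_erase hq))).1).2 (ne_of_mem_erase hq).symm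
    generalize ∏ q ∈ β.erase l, q = m at hm hcop
    have hln : l ∣ ∏ q ∈ β, q := ⟨m, hm.symm⟩
    have hl1 : IsLn l (Ker l (s.A v x c)) := AA_line hd hf hp.pos (xda_pm (h.pP l (hβ hl))).1
      ((Int.natCast_dvd_natCast.2 hln).trans nb')
    have hl2 : IsLn l (Ker l (s.et v β x c)) := by
      refine isLn_Ker_prime hp (by rw [h1]; exact Int.natCast_dvd_natCast.2 hln) fun hh => ?_
      rw [h1, ← hm, ← Nat.cast_pow, Int.natCast_dvd_natCast, sq] at hh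
      exact hp.one_lt.ne' (hcop.eq_one_of_dvd (Nat.dvd_of_mul_dvd_mul_left hp.pos hh))
    refine (hl1.eq_of_le hl2 fun w hw => ?_).symm
    rw [← xla_smul (Nat.isCoprime_iff_coprime.2 hcop.symm)]
    refine Ker_anti hln _ (h2 fun i => ?_)
    rw [← hm, Matrix.mulVec_smul, Pi.smul_apply, smul_eq_mul, Nat.cast_mul, mul_comm]
    exact mul_dvd_mul_left _ (hw i)
  · obtain ⟨hd', hf'⟩ := h.ct_disc (Orb_map h.disc hx (v.sg β)) c
    have := AA_com hd hf (η := s.et v β x c) (by rw [h1]; exact_mod_cast n0)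
      (by rw [h3]; exact hd') hf' v.b
    rw [h3] at this
    exact this

theorem Ok.hk_spec (h : s.Ok v L T a m₀ y) (hx : x ∈ Orb v.τ) {k : Fin n} (hk : k ∈ s.J) :
    s.hk v x k ∈ Hn (v.dg k) ∧ jInv (act (s.hk v x k) (s.ct x (s.bs k))) = x k := by
  have hex : ∃ g ∈ Hn (v.dg k), jInv (act g (s.ct x (s.bs k))) = x k := by
    obtain ⟨σ, rfl⟩ := (mem_Orb h.disc).1 hx
    obtain ⟨d0, -, hi⟩ := h.deg k hk
    refine Ig.exists_Hn d0 ?_
    rw [ct, (fr_spec _).2]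
    exact hi.gal d0 σ
  rw [Shp.hk, dif_pos hex]
  exact hex.choose_spec

theorem Ok.hk_move (h : s.Ok v L T a m₀ y) (hβ : β ⊆ v.P) (hx : x ∈ Orb v.τ) {k : Fin n}
    (hk : k ∈ s.J) : Ker (v.dg k) (s.hk v (v.mv β x) k * s.et v β x (s.bs k)) =
      Ker (v.dg k) (s.hk v x k) := by
  obtain ⟨n0, nc, nb, nd⟩ := h.xda_n hβ
  obtain ⟨hd, hf⟩ := h.ct_disc hx (s.bs k)
  obtain ⟨g1, g2⟩ := h.hk_spec hx hk
  obtain ⟨g1', g2'⟩ := h.hk_spec (x := v.mv β x) (Orb_map h.disc hx (v.sg β)) hk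
  obtain ⟨e1, -, e3, -⟩ := h.et_spec hβ hx (s.bs k)
  obtain ⟨d0, gd⟩ := mem_Hn g1
  have gd' := (mem_Hn g1').2
  have n0' : (0 : ℤ) < (∏ l ∈ β, l : ℕ) := by exact_mod_cast n0
  have d0' : (0 : ℤ) < v.dg k := by exact_mod_cast d0
  have ht1 : HasDisc (act (s.hk v x k) (s.ct x (s.bs k))) (v.D k) := by
    obtain ⟨σ, hσ⟩ := (mem_Orb h.disc).1 hx
    exact disc_of_gal (h.disc k) (h.big k) (g2.trans (congrFun hσ k))
  have hf1 : Fit v.E (v.D k) := (h.fit k hk).trans (fit_sq h.N_pos _)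
  obtain ⟨η, hη, hke⟩ := (AA_line ht1 hf1 n0 nc ((dvd_mul_left _ 4).trans nb)).exists_mat n0
  have e4 := h.sg_spec hβ _ _ η ht1 (h.big _) hf1 hη hke.ge
  have e5 : jInv (act (η * s.hk v x k) (s.ct x (s.bs k))) =
      jInv (act (s.hk v (v.mv β x) k * s.et v β x (s.bs k)) (s.ct x (s.bs k))) := by
    rw [act_mul (by rwa [hη]) (by rwa [gd]), act_mul (by rwa [gd']) (by rwa [e1]), e3, g2', ← e4,
      g2]
    rfl
  have hb : 4 * ((v.dg k * ∏ l ∈ β, l : ℕ) : ℤ) ^ 2 < -v.D (s.cr (s.bs k)) := by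
    have hT := h.hT
    have b1 := (h.prod_le hβ).1
    have b2 := (h.deg k hk).2.1
    have b3 := (h.large _ (s.mem (s.bs k))).1
    have b4 : ((v.dg k * ∏ l ∈ β, l : ℕ) : ℝ) ≤ Real.exp (T + 2 * T ^ 13) := by
      rw [Nat.cast_mul, Real.exp_add]
      exact mul_le_mul b2 b1 (Nat.cast_nonneg _) (Real.exp_pos _).le
    have b5 : (4 : ℝ) ≤ Real.exp 3 := by linarith [Real.add_one_le_exp 3]
    have b6 : 3 + 2 * (T + 2 * T ^ 13) < T ^ 16 := by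
      have c1 : T ≤ T ^ 13 := le_self_pow₀ (by linarith) (by norm_num)
      have c2 : T ^ 14 ≤ T ^ 16 := pow_le_pow_right₀ (by linarith) (by norm_num)
      have c3 : 100 * T ^ 13 ≤ T ^ 14 := by
        rw [pow_succ' T 13]
        exact mul_le_mul_of_nonneg_right hT (by positivity)
      linarith
    have b7 : 4 * ((v.dg k * ∏ l ∈ β, l : ℕ) : ℝ) ^ 2 < -(v.D (s.cr (s.bs k)) : ℝ) :=
      calc 4 * ((v.dg k * ∏ l ∈ β, l : ℕ) : ℝ) ^ 2
          ≤ Real.exp 3 * Real.exp (T + 2 * T ^ 13) ^ 2 := by gcongr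
        _ = Real.exp (3 + 2 * (T + 2 * T ^ 13)) := by
            rw [Real.exp_add 3, ← Real.exp_nat_mul, Nat.cast_ofNat]
        _ < Real.exp (T ^ 16) := Real.exp_lt_exp.2 b6
        _ ≤ _ := b3
    exact_mod_cast b7
  obtain ⟨γ, hγ⟩ := iso_unique hd (Nat.mul_pos d0 n0)
    (by rw [Matrix.det_mul, hη, gd, Nat.cast_mul, mul_comm])
    (by rw [Matrix.det_mul, gd', e1, Nat.cast_mul]) hb e5
  rw [hγ, Ker_SL, Ker_cop]
  rw [hη]
  exact Nat.isCoprime_iff_coprime.2 (nd.coprime_dvd_right (dvd_prod_of_mem _ hk))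

theorem Ok.lab_mem (h : s.Ok v L T a m₀ y) (hx : x ∈ Orb v.τ) (c : ι) (i : Fin v.M) :
    s.lab v x c i ∈ s.Xi v i := by
  obtain ⟨hd, hf⟩ := h.ct_disc hx c
  obtain ⟨p1, p2, -⟩ := h.pl i
  have hb := (dvd_mul_left _ 4).trans (h.bl i)
  have e : ((v.l i ^ v.R * v.l' i : ℕ) : ℤ) ^ (2 * s.e) = (s.a₁ v i : ℤ) * s.a₂ v i := by
    rw [a₁, a₂]
    push_cast
    ring
  rw [e] at hb
  have a1 : 0 < s.a₁ v i := pow_pos p1.1.pos _
  have a2 : 0 < s.a₂ v i := pow_pos p2.1.pos _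
  refine mem_product.2 ⟨(mem_Xn a1).2 (AA_line hd hf a1 ?_ ((dvd_mul_right _ _).trans hb)),
    (mem_Xn a2).2 (AA_line hd hf a2 ?_ ((dvd_mul_left _ _).trans hb))⟩
  · rw [a₁, Nat.cast_pow]
    exact (xda_pm p1).1.pow_left
  · rw [a₂, Nat.cast_pow]
    exact (xda_pm p2).1.pow_left

theorem Ok.rho_spec (h : s.Ok v L T a m₀ y) (i : Fin v.M) {K : Set V2 × Set V2}
    (hK : K ∈ s.Xi v i) : s.IsRho v i K (s.rho v i K) := by
  obtain ⟨p1, p2, q1, q2⟩ := h.pl i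
  have a1 : 0 < s.a₁ v i := pow_pos p1.1.pos _
  have a2 : 0 < s.a₂ v i := pow_pos p2.1.pos _
  obtain ⟨k1, k2⟩ := mem_product.1 hK
  rw [mem_Xn a1] at k1
  rw [mem_Xn a2] at k2
  have hab : (s.a₁ v i).Coprime (s.a₂ v i) :=
    Nat.Coprime.pow _ _ ((Nat.coprime_primes p1.1 p2.1).2 (h.inj.2.2 i i))
  have hM : 0 < s.MM v := Nat.mul_pos (Nat.mul_pos h.N_pos (prod_pos fun k hk => (h.deg k hk).1))
    (h.xda_n subset_rfl).1
  have hc : ∀ q, s.Pm v y q → q ∉ v.P → IsCoprime (q : ℤ) (s.MM v) := fun q hq hP =>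
    Nat.isCoprime_iff_coprime.2 (((xda_pm hq).2.1.mul_right (xda_pm hq).2.2).mul_right
      (h.xda_cop subset_rfl hq.1 hP))
  have hex : ∃ ρ, s.IsRho v i K ρ := by
    obtain ⟨η, e1, e2, e3⟩ := (k1.inter hab a1 a2 k2).exists_Cg (Nat.mul_pos a1 a2) hM
      (s := (v.l i : ℤ) ^ (s.e * v.R) * (v.l' i : ℤ) ^ s.e)
      ((hc _ p1 q1).pow_left.mul_left (hc _ p2 q2).pow_left)
      ⟨0, by rw [a₁, a₂]; push_cast; ring⟩
    rw [Ker_inter hab] at e2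
    refine ⟨η, e1, xda_split hab k1 k2 e2, xda_split hab.symm k2 k1 ?_, e3⟩
    rw [Set.inter_comm, e2, Set.inter_comm]
  rw [rho, dif_pos hex]
  exact hex.choose_spec

theorem Ok.aux (h : s.Ok v L T a m₀ y) (hβ : β ⊆ v.P) (hx : x ∈ Orb v.τ) {x' : Fin n → ℂ}
    (hx' : x' ∈ Orb v.τ) {U : ℝ} {cl : ℍ → ℍ} (e₁ : s.C0 v U cl x = s.C0 v U cl x')
    (e₂ : s.et v β x = s.et v β x')
    (e₃ : ∀ c, cel U cl (s.ct (v.mv β x) c) = cel U cl (s.ct (v.mv β x') c)) :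
    s.C0 v U cl (v.mv β x) = s.C0 v U cl (v.mv β x') := by
  obtain ⟨n0, nc, nb, nd⟩ := h.xda_n hβ
  have f1 : s.sm x = s.sm x' := congrArg (fun z => z.1) e₁
  have f2 : (fun k => if k ∈ s.J then s.hk v x k else 0) =
      fun k => if k ∈ s.J then s.hk v x' k else 0 := congrArg (fun z => z.2.1) e₁
  have f4 : s.lab v x = s.lab v x' := congrArg (fun z => z.2.2.2) e₁
  have hy := Orb_map h.disc hx (v.sg β)
  have hy' := Orb_map h.disc hx' (v.sg β)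
  refine Prod.ext ?_ (Prod.ext ?_ (Prod.ext (funext e₃) ?_))
  · funext k
    have := congrFun f1 k
    show (if k ∈ s.I \ s.J then v.sg β (x k) else 0) = if k ∈ s.I \ s.J then v.sg β (x' k) else 0
    by_cases hk : k ∈ s.I \ s.J
    · rw [sm, sm, if_pos hk, if_pos hk] at this
      rw [this]
    · rw [if_neg hk, if_neg hk]
  · funext k
    show (if k ∈ s.J then s.hk v (v.mv β x) k else 0) =
      if k ∈ s.J then s.hk v (v.mv β x') k else 0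
    by_cases hk : k ∈ s.J
    · have g0 := congrFun f2 k
      simp only [if_pos hk] at g0
      rw [if_pos hk, if_pos hk]
      have g1 := (h.hk_spec (x := v.mv β x) hy hk).1
      have g2 := (h.hk_spec (x := v.mv β x') hy' hk).1
      have m1 := h.hk_move hβ hx hk
      have m2 := h.hk_move hβ hx' hk
      rw [← e₂, ← g0, ← m1] at m2
      have hc : IsCoprime (s.et v β x (s.bs k)).det (v.dg k) := by
        rw [(h.et_spec hβ hx _).1]
        exact Nat.isCoprime_iff_coprime.2 (nd.coprime_dvd_right (dvd_prod_of_mem _ hk))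
      obtain ⟨γ, hγ⟩ := exists_SL_of_Ker (mem_Hn g1).1 (mem_Hn g1).2 (mem_Hn g2).2 fun w hw => by
        rw [xda_adj hc] at hw ⊢
        rwa [m2]
      exact (Hn_unique g1 g2 hγ).symm
    · rw [if_neg hk, if_neg hk]
  · funext c i
    obtain ⟨p1, p2, q1, q2⟩ := h.pl i
    obtain ⟨t1, -, -, t2⟩ := h.et_spec hβ hx c
    obtain ⟨-, -, -, t3⟩ := h.et_spec hβ hx' c
    rw [← e₂] at t3
    have key : ∀ q j : ℕ, q.Prime → q ∉ v.P →
        Ker (q ^ j) (s.A v x c) = Ker (q ^ j) (s.A v x' c) →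
        Ker (q ^ j) (s.A v (v.mv β x) c) = Ker (q ^ j) (s.A v (v.mv β x') c) := by
      intro q j hq hP e
      have hc : IsCoprime (s.et v β x c).det (q ^ j : ℕ) := by
        rw [t1]
        exact Nat.isCoprime_iff_coprime.2 ((h.xda_cop hβ hq hP).symm.pow_right _)
      ext w
      rw [(Ker_com t2 hc w).2, (Ker_com t3 hc w).2, e]
    have f5 := congrFun (congrFun f4 c) i
    exact Prod.ext (key _ _ p1.1 q1 (congrArg Prod.fst f5)) (key _ _ p2.1 q2 (congrArg Prod.snd f5))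

end Shp

end Pool.Agent.EQ
end
end

-- part Pool.Agent.P.MP_ad7a55_nt.XKf
section

/-! Hecke averages of products with two different directions are small. -/

set_option autoImplicit false

noncomputable section

open MeasureTheory Topology Filter UpperHalfPlane
open scoped MatrixGroups BoundedContinuousFunction Matrix Classical

namespace Pool.Agent.EQ

theorem xkf_cg {M : ℕ} {γ : SL(2, ℤ)} (h : γ ∈ CongruenceSubgroup.Gamma M) :
    Cg M (γ : M2) 1 := by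
  obtain ⟨h0, h1, h2, h3⟩ := CongruenceSubgroup.Gamma_mem.1 h
  intro i j
  rw [← ZMod.intCast_zmod_eq_zero_iff_dvd]
  fin_cases i <;> fin_cases j <;> simp [h0, h1, h2, h3]

theorem xkf_same {M n : ℕ} {f : ℍ → ℝ} (hf : GInv M f) (hn : 0 < n) {η η' : M2} {s : ℤ}
    (hs : IsCoprime s M) (h : η.det = n) (h' : η'.det = n) (hk : Ker n η = Ker n η')
    (c : Cg M η s) (c' : Cg M η' s) (τ : ℍ) : f (act η' τ) = f (act η τ) := by
  obtain ⟨γ, rfl⟩ := exists_SL_of_Ker hn h h' hk.le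
  have h0 : 0 < η.det := by
    rw [h]
    exact_mod_cast hn
  rw [act_mul (by rw [γ.det_coe]; exact one_pos) h0, act_SL]
  exact hf γ (Cg.gamma hs c c') _

theorem xkf_cop {M n : ℕ} {s : ℤ} (h : n.Coprime M) (hs : (M : ℤ) ∣ (n : ℤ) - s ^ 2) :
    IsCoprime s M := by
  obtain ⟨a, b, hab⟩ := Nat.isCoprime_iff_coprime.2 h
  obtain ⟨t, ht⟩ := hs
  exact ⟨a * s, a * t + b, by linear_combination hab - a * ht⟩

theorem xkf_prod {ι : Type} (S : Finset ι) {a b : ι → ℝ} (ha : ∀ i, |a i| ≤ 1)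
    (hb : ∀ i, |b i| ≤ 1) {δ : ℝ} (h : ∀ i, |a i - b i| ≤ δ) :
    |∏ i ∈ S, a i - ∏ i ∈ S, b i| ≤ S.card * δ := by
  induction S using Finset.induction_on with
  | empty => simp
  | insert i S hi ih =>
    rw [Finset.prod_insert hi, Finset.prod_insert hi, Finset.card_insert_of_notMem hi]
    have h1 : |∏ j ∈ S, b j| ≤ 1 := by
      rw [Finset.abs_prod]
      exact Finset.prod_le_one (fun j _ => abs_nonneg _) fun j _ => hb j
    have e : a i * ∏ j ∈ S, a j - b i * ∏ j ∈ S, b j =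
        a i * (∏ j ∈ S, a j - ∏ j ∈ S, b j) + (a i - b i) * ∏ j ∈ S, b j := by ring
    have h2 := mul_le_mul (ha i) ih (abs_nonneg _) zero_le_one
    have h3 := mul_le_mul (h i) h1 (abs_nonneg _) ((abs_nonneg _).trans (h i))
    rw [e]
    refine (abs_add_le _ _).trans ?_
    rw [abs_mul, abs_mul]
    push_cast
    linarith

theorem xkf_IN_sum {N : ℕ} (hN : 0 < N) {ι : Type} (S : Finset ι) (F : ι → (ℍ →ᵇ ℝ)) :
    IN N (∑ i ∈ S, F i) = ∑ i ∈ S, IN N (F i) := by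
  have : NeZero N := ⟨hN.ne'⟩
  have := mH_prob (Γ := CongruenceSubgroup.Gamma N)
  unfold IN
  rw [← integral_finsetSum S fun i _ => (F i).integrable _]
  simp only [BoundedContinuousFunction.sum_apply]

theorem xkf_IN_smul (N : ℕ) (c : ℝ) (F : ℍ →ᵇ ℝ) : IN N (c • F) = c * IN N F := by
  unfold IN
  rw [← integral_const_mul]
  rfl

/-- The Hecke average. -/
def xkfG (X : Finset (Set V2)) (f : ℍ →ᵇ ℝ) (ρ : Set V2 → M2) : ℍ →ᵇ ℝ :=
  (X.card : ℝ)⁻¹ • ∑ L ∈ X, cact f (ρ L)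

theorem xkf_apply (X : Finset (Set V2)) (f : ℍ →ᵇ ℝ) (ρ : Set V2 → M2) (z : ℍ) :
    xkfG X f ρ z = mn X fun L => f (act (ρ L) z) := by
  unfold xkfG mn
  rw [BoundedContinuousFunction.coe_smul, div_eq_inv_mul]
  simp only [BoundedContinuousFunction.sum_apply, cact_apply, smul_eq_mul]

theorem xkf_mn_le {α : Type} {X : Finset α} {G : α → ℝ} {c : ℝ} (hc : 0 ≤ c)
    (h : ∀ x ∈ X, |G x| ≤ c) : |mn X G| ≤ c := by
  rcases X.eq_empty_or_nonempty with rfl | hX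
  · simpa [mn] using hc
  exact (abs_mn_le X G).trans ((mn_mono h).trans (mn_const hX c).le)

theorem xkf_sq {N : ℕ} (hN : 0 < N) {X : Finset (Set V2)} (hX : X.Nonempty) {f : ℍ →ᵇ ℝ}
    (hf : ∀ z, |f z| ≤ 1) (ρ : Set V2 → M2) {δ : ℝ} (hδ : 0 ≤ δ)
    (h : ∀ L ∈ X, ∀ L' ∈ X, L ≠ L' → IN N (cact f (ρ L) * cact f (ρ L')) ≤ δ) :
    IN N (xkfG X f ρ * xkfG X f ρ) ≤ 1 / X.card + δ := by
  have hc : (0 : ℝ) < X.card := by exact_mod_cast hX.card_pos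
  have h1 : ∀ L ∈ X, ∑ L' ∈ X, IN N (cact f (ρ L) * cact f (ρ L')) ≤ 1 + X.card * δ := by
    intro L hL
    have h2 : ∀ L' ∈ X, IN N (cact f (ρ L) * cact f (ρ L')) ≤ (if L = L' then 1 else 0) + δ := by
      intro L' hL'
      split_ifs with e
      · refine (le_abs_self _).trans ((abs_IN_le hN _).trans (le_trans ?_ (le_add_of_nonneg_right hδ)))
        refine (BoundedContinuousFunction.norm_le zero_le_one).2 fun z => ?_
        rw [BoundedContinuousFunction.mul_apply, Real.norm_eq_abs, abs_mul]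
        exact mul_le_one₀ (hf _) (abs_nonneg _) (hf _)
      · rw [zero_add]
        exact h L hL L' hL' e
    refine (Finset.sum_le_sum h2).trans (le_of_eq ?_)
    rw [Finset.sum_add_distrib, Finset.sum_ite_eq, if_pos hL, Finset.sum_const, nsmul_eq_mul]
  unfold xkfG
  rw [smul_mul_smul_comm, xkf_IN_smul, Finset.sum_mul_sum, xkf_IN_sum hN]
  simp only [xkf_IN_sum hN]
  have h3 := Finset.sum_le_sum h1
  rw [Finset.sum_const, nsmul_eq_mul] at h3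
  refine (mul_le_mul_of_nonneg_left h3 (by positivity)).trans (le_of_eq ?_)
  field_simp

theorem xkf_ginv {M n : ℕ} (hn : 0 < n) {f : ℍ →ᵇ ℝ} (hf : GInv M f) {s : ℤ} (hs : IsCoprime s M)
    {ρ : Set V2 → M2} (h : ∀ L ∈ Xn n, (ρ L).det = n ∧ Ker n (ρ L) = L ∧ Cg M (ρ L) s) :
    GInv M (xkfG (Xn n) f ρ) := by
  intro γ hγ τ
  have hc : IsCoprime (γ : M2).det n := by
    rw [γ.det_coe]
    exact isCoprime_one_left
  rw [xkf_apply, xkf_apply]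
  unfold mn
  rw [← sum_Xn_pull hn hc fun L => f (act (ρ L) τ)]
  congr 1
  refine Finset.sum_congr rfl fun L hL => ?_
  obtain ⟨a1, a2, a3⟩ := h L hL
  obtain ⟨b1, b2, b3⟩ := h _ ((mem_Xn hn).2 (((mem_Xn hn).1 hL).pull hn hc))
  beta_reduce
  rw [← act_SL, ← act_mul (ξ := ρ L) (η := (γ : M2)) (by rw [a1]; exact_mod_cast hn)
    (by rw [γ.det_coe]; exact one_pos)]
  refine xkf_same hf hn hs b1 (by rw [Matrix.det_mul, γ.det_coe, mul_one, a1]) ?_ b3 ?_ τ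
  · rw [b2]
    ext v
    rw [mem_Ker_mul, a2]
    rfl
  · have := a3.mul (xkf_cg hγ)
    rwa [mul_one] at this

theorem xkf_split {M n n' : ℕ} (hn : 0 < n) (hn' : 0 < n') (hc : n.Coprime n') {f : ℍ →ᵇ ℝ}
    (hf : GInv M f) {s s' : ℤ} (hs : IsCoprime s M) (hs' : IsCoprime s' M) {ρ₁ ρ₂ : Set V2 → M2}
    (h₁ : ∀ L ∈ Xn n, (ρ₁ L).det = n ∧ Ker n (ρ₁ L) = L ∧ Cg M (ρ₁ L) s)
    (h₂ : ∀ L ∈ Xn n', (ρ₂ L).det = n' ∧ Ker n' (ρ₂ L) = L ∧ Cg M (ρ₂ L) s')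
    {ρ : Set V2 × Set V2 → M2} (h : ∀ L ∈ Xn n ×ˢ Xn n', (ρ L).det = (n * n' : ℕ) ∧
      Ker n (ρ L) = L.1 ∧ Ker n' (ρ L) = L.2 ∧ Cg M (ρ L) (s * s')) (τ : ℍ) :
    (mn (Xn n ×ˢ Xn n') fun L => f (act (ρ L) τ)) =
      mn (Xn n) fun L => xkfG (Xn n') f ρ₂ (act (ρ₁ L) τ) := by
  simp only [xkf_apply]
  unfold mn
  rw [Finset.sum_product, Finset.card_product, Nat.cast_mul, ← Finset.sum_div, div_div,
    mul_comm ((Xn n').card : ℝ)]
  congr 1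
  refine Finset.sum_congr rfl fun L hL => ?_
  obtain ⟨a1, a2, a3⟩ := h₁ L hL
  have c1 : IsCoprime (ρ₁ L).det n' := by
    rw [a1]
    exact Nat.isCoprime_iff_coprime.2 hc
  rw [← sum_Xn_pull hn' c1 fun L' => f (act (ρ (L, L')) τ)]
  refine Finset.sum_congr rfl fun L' hL' => ?_
  obtain ⟨b1, b2, b3⟩ := h₂ L' hL'
  obtain ⟨d1, d2, d3, d4⟩ := h (L, {v | ρ₁ L *ᵥ v ∈ L'})
    (Finset.mem_product.2 ⟨hL, (mem_Xn hn').2 (((mem_Xn hn').1 hL').pull hn' c1)⟩)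
  have c2 : IsCoprime (ρ₂ L').det n := by
    rw [b1]
    exact Nat.isCoprime_iff_coprime.2 hc.symm
  beta_reduce
  rw [← act_mul (ξ := ρ₂ L') (η := ρ₁ L) (by rw [b1]; exact_mod_cast hn')
    (by rw [a1]; exact_mod_cast hn)]
  refine xkf_same hf (Nat.mul_pos hn hn') (hs.mul_left hs') ?_ d1 ?_ ?_ d4 τ
  · rw [Matrix.det_mul, a1, b1, Nat.cast_mul, mul_comm]
  · rw [Ker_inter hc, Ker_inter hc, d2, d3, Ker_cop c2, a2]
    congr 1
    ext v
    rw [mem_Ker_mul, b2]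
    rfl
  · rw [mul_comm s]
    exact b3.mul a3

variable {κ : Type} [Fintype κ] [Nonempty κ]

omit [Nonempty κ] in
theorem xkf_Fz (N : ℕ) (φ : κ → (ℍ →ᵇ ℝ)) (ζ : κ → M2) (z : ℍ) :
    Fz N φ ζ z = ∏ k, φ k (act (ζ k) z) - ∏ k, IN N (φ k) := by
  unfold Fz
  rw [BoundedContinuousFunction.sub_apply, BoundedContinuousFunction.prod_apply]
  rfl

omit [Nonempty κ] in
theorem xkf_Fz_mul (N : ℕ) (φ : κ → (ℍ →ᵇ ℝ)) {ζ : κ → M2} (h : ∀ k, 0 < (ζ k).det) {η : M2}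
    (hη : 0 < η.det) (z : ℍ) : Fz N φ (fun k => ζ k * η) z = Fz N φ ζ (act η z) := by
  rw [xkf_Fz, xkf_Fz]
  simp only [fun k => act_mul (h k) hη z]

theorem xkf_lip (N : ℕ) {φ : κ → (ℍ →ᵇ ℝ)} (hb : ∀ k, ‖φ k‖ ≤ 1 / 2) {ω : ℝ → ℝ}
    (hc : ∀ k, EqC ω (φ k)) {ζ : κ → M2} (h : ∀ k, 0 < (ζ k).det) {ε : ℝ} (hε : 0 < ε) {z w : ℍ}
    (hd : dist z w ≤ ω (ε / (2 * Fintype.card κ))) : |Fz N φ ζ z - Fz N φ ζ w| ≤ ε / 2 := by
  have hκ : (0 : ℝ) < Fintype.card κ := by exact_mod_cast Fintype.card_pos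
  have h1 : ∀ k u, |φ k u| ≤ 1 := fun k u =>
    ((φ k).norm_coe_le_norm u).trans ((hb k).trans (by norm_num))
  rw [xkf_Fz, xkf_Fz, sub_sub_sub_cancel_right]
  refine (xkf_prod Finset.univ (fun k => h1 k _) (fun k => h1 k _) fun k =>
    hc k (ε / (2 * Fintype.card κ)) (by positivity) _ _ (by rwa [dist_act (h k)])).trans
      (le_of_eq ?_)
  rw [Finset.card_univ]
  field_simp

omit [Fintype κ] [Nonempty κ] in
theorem xkf_det {N m M q : ℕ} {ζ ζ' : κ → M2} (h : Tw N m M q ζ ζ') (b : Bool) (k : κ) :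
    ∃ d : ℕ, 0 < d * q ∧ ¬ q ∣ d ∧ N * (d * q) ∣ M ∧ (cond b ζ ζ' k).det = (d * q : ℕ) := by
  obtain ⟨d, h1, h2, h3, h4, h5⟩ := h.det k
  refine ⟨d, Nat.mul_pos h1 h.prime.pos, h2, h3, ?_⟩
  cases b
  · exact h5
  · exact h4

omit [Fintype κ] [Nonempty κ] in
theorem xkf_rel {N m M q : ℕ} {ζ ζ' : κ → M2} (h : Tw N m M q ζ ζ') {l e : ℕ} (hl : l.Prime)
    (hm : m < l) (hM : ¬ l ∣ M) {η η' : M2} (hη : η.det = (l ^ e : ℕ))
    (hη' : η'.det = (l ^ e : ℕ)) (hk : Ker (l ^ e) η = Ker (l ^ e) η' → η = η') {b b' : Bool}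
    {k k' : κ} (hr : Rel m (cond b ζ ζ' k * η) (cond b' ζ ζ' k' * η')) :
    η = η' ∧ b = b' ∧ k = k' := by
  obtain ⟨d, a1, a2, a3, a4⟩ := xkf_det h b k
  obtain ⟨d', b1, b2, b3, b4⟩ := xkf_det h b' k'
  have nd : ∀ x : ℕ, N * x ∣ M → ¬ l ∣ x := fun x hx hlx =>
    hM (hlx.trans ((Dvd.intro_left N rfl).trans hx))
  have cp : ∀ x : ℕ, N * x ∣ M → IsCoprime (x : ℤ) (l ^ e : ℕ) := fun x hx =>
    Nat.isCoprime_iff_coprime.2 ((hl.coprime_iff_not_dvd.2 (nd x hx)).symm.pow_right e)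
  have e1 : η = η' := by
    have := hr.ker (e := e) hl hm (a := (d * q : ℕ)) (b := (d' * q : ℕ))
      (by rw [Matrix.det_mul, a4, hη, Nat.cast_pow, mul_comm])
      (by rw [Matrix.det_mul, b4, hη', Nat.cast_pow, mul_comm])
      (fun x => nd _ a3 (Int.natCast_dvd_natCast.1 x))
      (fun x => nd _ b3 (Int.natCast_dvd_natCast.1 x))
    rw [Ker_cop (by rw [a4]; exact cp _ a3), Ker_cop (by rw [b4]; exact cp _ b3)] at this
    exact hk this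
  subst e1
  have h2 := hr.cancel (by rw [hη]; exact_mod_cast (pow_pos hl.pos e).ne')
  have h3 := h2.ker (e := 1) h.prime h.lt (a := d) (b := d')
    (by rw [a4, Nat.cast_mul, pow_one, mul_comm]) (by rw [b4, Nat.cast_mul, pow_one, mul_comm])
    (fun x => a2 (Int.natCast_dvd_natCast.1 x)) (fun x => b2 (Int.natCast_dvd_natCast.1 x))
  rw [pow_one] at h3
  refine ⟨rfl, ?_⟩
  cases b <;> cases b'
  · exact ⟨rfl, by_contra fun x => (h.rel k k' x).2 h2⟩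
  · exact absurd h3.symm (h.ne k' k)
  · exact absurd h3 (h.ne k k')
  · exact ⟨rfl, by_contra fun x => (h.rel k k' x).1 h2⟩

theorem he_main {N : ℕ} (hN : 0 < N) (φ : κ → (ℍ →ᵇ ℝ)) (hφ : ∀ k, GInv N (φ k))
    (hb : ∀ k, ‖φ k‖ ≤ 1 / 2) {ω : ℝ → ℝ} (hω : ∀ ε, 0 < ε → 0 < ω ε) (hc : ∀ k, EqC ω (φ k))
    (U : ℝ) {ε : ℝ} (hε : 0 < ε) : ∃ m a : ℕ, ∀ (M q : ℕ) (ζ ζ' : κ → M2), 0 < M →
      Tw N m M q ζ ζ' → ∀ (l l' k e : ℕ) (s s' : ℤ), l.Prime → l'.Prime → l ≠ l' → m * k ≤ l →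
      m < l' → ¬ l ∣ M → ¬ l' ∣ M → 0 < k → 0 < e → M ^ a ≤ l ^ k →
      (M : ℤ) ∣ (l ^ k : ℕ) - s ^ 2 → (M : ℤ) ∣ (l' ^ e : ℕ) - s' ^ 2 → ∀ τ ∈ KU U,
      ∀ ρ : Set V2 × Set V2 → M2, (∀ L ∈ Xn (l ^ k) ×ˢ Xn (l' ^ e),
        (ρ L).det = (l ^ k * l' ^ e : ℕ) ∧ Ker (l ^ k) (ρ L) = L.1 ∧ Ker (l' ^ e) (ρ L) = L.2 ∧
          Cg M (ρ L) (s * s')) →
      |mn (Xn (l ^ k) ×ˢ Xn (l' ^ e)) fun L => (Fz N φ ζ * Fz N φ ζ') (act (ρ L) τ)| ≤ ε := by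
  have hκ : (0 : ℝ) < Fintype.card κ := by exact_mod_cast Fintype.card_pos
  obtain ⟨ε', a, l₀, hε', hP⟩ := he_point U (ω := fun x => ω (x / (2 * Fintype.card κ)))
    (fun x hx => hω _ (by positivity)) hε
  obtain ⟨m₀, hF⟩ := four_fold hN φ hφ (half_pos hε')
  refine ⟨l₀ + m₀ + ⌈2 / ε'⌉₊, a, ?_⟩
  intro M q ζ ζ' hM hT l l' k e s s' hl hl' hne hml hml' hlM hlM' hk he hMa hs hs' τ hτ ρ hρ
  have hn : 0 < l ^ k := pow_pos hl.pos k
  have hn' : 0 < l' ^ e := pow_pos hl'.pos e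
  have cs : IsCoprime s M := xkf_cop ((hl.coprime_iff_not_dvd.2 hlM).pow_left k) hs
  have cs' : IsCoprime s' M := xkf_cop ((hl'.coprime_iff_not_dvd.2 hlM').pow_left e) hs'
  have cn : (l ^ k).Coprime (l' ^ e) := Nat.coprime_pow_primes k e hl hl' hne
  choose! ρ₁ h₁ using fun (L : Set V2) (hL : L ∈ Xn (l ^ k)) =>
    ((mem_Xn hn).1 hL).exists_Cg hn hM cs hs
  choose! ρ₂ h₂ using fun (L : Set V2) (hL : L ∈ Xn (l' ^ e)) =>
    ((mem_Xn hn').1 hL).exists_Cg hn' hM cs' hs'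
  have hf := Fz_ginv hφ hT
  have hd : ∀ b k, 0 < (cond b ζ ζ' k).det := fun b k => by
    obtain ⟨d, a1, -, -, a4⟩ := xkf_det hT b k
    rw [a4]
    exact_mod_cast a1
  have hd2 : ∀ L ∈ Xn (l' ^ e), 0 < (ρ₂ L).det := fun L hL => by
    rw [(h₂ L hL).1]
    exact_mod_cast hn'
  have hb1 : ∀ z, |(Fz N φ ζ * Fz N φ ζ') z| ≤ 1 := fun z => by
    rw [BoundedContinuousFunction.mul_apply, abs_mul]
    exact mul_le_one₀ (abs_Fz_le hN hb _ _) (abs_nonneg _) (abs_Fz_le hN hb _ _)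
  have hg := xkf_ginv hn' hf cs' h₂
  rw [xkf_split hn hn' cn hf cs cs' h₁ h₂ hρ τ]
  refine hP M _ hM hg (fun z => ?_) (fun x hx z w hzw => ?_) ?_ l k s hl
    ((Nat.mul_le_mul_right k (by omega)).trans hml) hk hlM hMa cs τ hτ ρ₁ h₁
  · rw [xkf_apply]
    exact xkf_mn_le zero_le_one fun L _ => hb1 _
  · rw [xkf_apply, xkf_apply]
    have e1 : ∀ G G' : Set V2 → ℝ, mn (Xn (l' ^ e)) G - mn (Xn (l' ^ e)) G' =
        mn (Xn (l' ^ e)) fun L => G L - G' L := fun G G' => by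
      unfold mn
      rw [Finset.sum_sub_distrib, sub_div]
    rw [e1]
    refine xkf_mn_le hx.le fun L hL => ?_
    have h0 : dist (act (ρ₂ L) z) (act (ρ₂ L) w) ≤ ω (x / (2 * Fintype.card κ)) := by
      rwa [dist_act (hd2 L hL)]
    have h1 := xkf_lip N hb hc (hd true) hx h0
    have h2 := xkf_lip N hb hc (hd false) hx h0
    have h3 := mul_le_mul (abs_Fz_le hN hb ζ (act (ρ₂ L) z)) h2 (abs_nonneg _) zero_le_one
    have h4 := mul_le_mul h1 (abs_Fz_le hN hb ζ' (act (ρ₂ L) w)) (abs_nonneg _) (half_pos hx).le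
    rw [← abs_mul] at h3 h4
    have h5 := (abs_add_le _ _).trans (add_le_add h3 h4)
    refine le_trans (le_of_eq (congrArg _ ?_)) (h5.trans (le_of_eq (by ring)))
    simp only [BoundedContinuousFunction.mul_apply, cond_true, cond_false]
    ring
  · have hcard : l' ^ e ≤ (Xn (l' ^ e)).card := (card_Xn hl' he).1
    have hgg : GInv M (xkfG (Xn (l' ^ e)) (Fz N φ ζ * Fz N φ ζ') ρ₂ *
        xkfG (Xn (l' ^ e)) (Fz N φ ζ * Fz N φ ζ') ρ₂) := fun γ hγ z => by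
      rw [BoundedContinuousFunction.mul_apply, BoundedContinuousFunction.mul_apply, hg γ hγ z]
    rw [← IN_level hM (Nat.mul_pos hM hn') (Dvd.intro _ rfl) hgg]
    refine (xkf_sq (Nat.mul_pos hM hn') (Finset.card_pos.1 (hn'.trans_le hcard)) hb1 ρ₂
      (half_pos hε').le fun L hL L' hL' hLL => ?_).trans ?_
    · let b : Fin 4 → Bool := ![true, false, true, false]
      let Λ : Fin 4 → Set V2 := ![L, L, L', L']
      have hΛ : ∀ i, Λ i ∈ Xn (l' ^ e) := fun i => by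
        fin_cases i
        exacts [hL, hL, hL', hL']
      have hinj : ∀ i j, Λ i = Λ j → b i = b j → i = j := fun i j => by
        fin_cases i <;> fin_cases j <;> simp [b, Λ, hLL, hLL.symm]
      have h4 := hF (M * l' ^ e) (fun i k => cond (b i) ζ ζ' k * ρ₂ (Λ i)) (Nat.mul_pos hM hn')
        (fun i k => ?_) fun i k j k' hij hr => ?_
      · refine le_trans (le_of_eq (congrArg _ ?_)) ((le_abs_self _).trans h4)
        ext z
        rw [BoundedContinuousFunction.prod_apply]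
        simp only [fun i => xkf_Fz_mul N φ (hd (b i)) (hd2 _ (hΛ i)) z]
        rw [Fin.prod_univ_four, mul_assoc]
        rfl
      · obtain ⟨d, a1, -, a3, a4⟩ := xkf_det hT (b i) k
        refine ⟨by rw [Matrix.det_mul]; exact mul_pos (hd _ _) (hd2 _ (hΛ i)), ?_⟩
        rw [Matrix.det_mul, a4, (h₂ _ (hΛ i)).1, ← Nat.cast_mul, Int.natAbs_natCast, ← mul_assoc]
        exact Nat.mul_dvd_mul_right a3 _
      · obtain ⟨r1, r2, r3⟩ := xkf_rel hT hl' hml' hlM' (h₂ _ (hΛ i)).1 (h₂ _ (hΛ j)).1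
          (fun x => by rw [(h₂ _ (hΛ i)).2.1, (h₂ _ (hΛ j)).2.1] at x; rw [x])
          (hr.mono (by omega))
        refine hij (Prod.ext (hinj i j ?_ r2) r3)
        rw [← (h₂ _ (hΛ i)).2.1, r1, (h₂ _ (hΛ j)).2.1]
    · have h1 : ⌈2 / ε'⌉₊ ≤ (Xn (l' ^ e)).card :=
        le_trans (by omega) ((Nat.le_self_pow he.ne' l').trans hcard)
      have h2 : 2 / ε' ≤ (Xn (l' ^ e)).card := Nat.ceil_le.1 h1
      have h3 : (0 : ℝ) < (Xn (l' ^ e)).card := by exact_mod_cast hn'.trans_le hcard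
      rw [div_le_iff₀ hε'] at h2
      have h4 : 1 / ((Xn (l' ^ e)).card : ℝ) ≤ ε' / 2 := by
        rw [div_le_iff₀ h3]
        linarith
      linarith

end Pool.Agent.EQ
end
end

-- part Pool.Agent.P.MP_ad7a55_nt.XDb
section

/-! Reduction to sums over the moves. -/

set_option autoImplicit false

noncomputable section

open MeasureTheory Topology Filter UpperHalfPlane Finset
open scoped MatrixGroups BoundedContinuousFunction Matrix Classical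

namespace Pool.Agent.EQ

theorem xdb_card {κ : Type} (F : IntermediateField ℚ ℂ) [FiniteDimensional ℚ F] {x : κ → ℂ}
    (h : (galO F x).Finite) :
    (galO ⊥ x).Finite ∧ (galO ⊥ x).ncard ≤ Module.finrank ℚ F * (galO F x).ncard := by
  have key := ctf_cover (S := galO ⊥ x) (T := (Set.univ : Set (F →ₐ[ℚ] ℂ))) Set.finite_univ
    (fun φ => {z | ∃ σ : ℂ ≃+* ℂ, (∀ a : F, σ a = φ a) ∧ z = fun k => σ (x k)})
    (n := (galO F x).ncard) ?_ ?_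
  · refine ⟨key.1, key.2.trans ?_⟩
    rw [mul_comm, Set.ncard_univ]
    exact Nat.mul_le_mul_right _ (card_algHom_le_finrank ℚ F ℂ)
  · intro φ _
    by_cases he : ∃ σ₀ : ℂ ≃+* ℂ, ∀ a : F, σ₀ a = φ a
    · obtain ⟨σ₀, hσ₀⟩ := he
      have hsub : {z | ∃ σ : ℂ ≃+* ℂ, (∀ a : F, σ a = φ a) ∧ z = fun k => σ (x k)} ⊆
          (fun (z : κ → ℂ) k => σ₀ (z k)) '' galO F x := by
        rintro _ ⟨σ, hσ, rfl⟩
        refine ⟨fun k => σ₀.symm (σ (x k)), ⟨σ.trans σ₀.symm, fun a ha => ?_, rfl⟩,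
          funext fun k => σ₀.apply_symm_apply _⟩
        rw [RingEquiv.trans_apply, RingEquiv.symm_apply_eq]
        exact (hσ ⟨a, ha⟩).trans (hσ₀ ⟨a, ha⟩).symm
      exact ⟨(h.image _).subset hsub,
        (Set.ncard_le_ncard hsub (h.image _)).trans (Set.ncard_image_le h)⟩
    · have hemp : {z | ∃ σ : ℂ ≃+* ℂ, (∀ a : F, σ a = φ a) ∧ z = fun k => σ (x k)} = ∅ := by
        ext z
        exact ⟨fun ⟨σ, hσ, _⟩ => he ⟨σ, hσ⟩, False.elim⟩
      rw [hemp]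
      simp
  · rintro _ ⟨σ, -, rfl⟩
    exact ⟨(σ.toRingHom.comp (algebraMap F ℂ)).toRatAlgHom, Set.mem_univ _, σ, fun a => rfl, rfl⟩

theorem prb_pj {n N : ℕ} (hN : 0 < N) (F : IntermediateField ℚ ℂ) [FiniteDimensional ℚ F]
    {τ : Fin n → ℍ} {D : Fin n → ℤ} (h : ∀ k, HasDisc (τ k) (D k)) (p : (Fin n → ℂ) → Prop) :
    prb (ON N F τ) (fun z => p (pj z)) ≤ Module.finrank ℚ F * prb (Orb τ) p := by
  have hx := galO_fin hN F h
  have e1 : prb (ON N F τ) (fun z => p (pj z)) = prb (fO (galO F fun k => jInv (τ k))) p := by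
    rw [pb_eq, pb_eq, ← pj_evs hN F τ]
    exact avg_comp hx (fun k : Fin n => (k, jInv)) fun w => if p w then 1 else 0
  have hf : (galO F fun k => jInv (τ k)).Finite := by
    rw [← pj_evs hN F τ]
    exact vgal_fin hx fun k : Fin n => (k, jInv)
  obtain ⟨h1, h2⟩ := xdb_card F hf
  rw [← card_fO, ← card_fO] at h2
  have h3 : (#(Orb τ) : ℝ) ≤ Module.finrank ℚ F * #(fO (galO F fun k => jInv (τ k))) := by
    exact_mod_cast h2
  have h4 : (0 : ℝ) < #(fO (galO F fun k => jInv (τ k))) := by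
    exact_mod_cast Finset.card_pos.2 ⟨_, (mem_fO hf).2 (galO_self F _)⟩
  have h5 : (0 : ℝ) < #(Orb τ) := by exact_mod_cast (Orb_ne h).card_pos
  have h6 : (#{z ∈ fO (galO F fun k => jInv (τ k)) | p z} : ℝ) ≤ #{z ∈ Orb τ | p z} := by
    exact_mod_cast Finset.card_le_card (Finset.filter_subset_filter _ fun z hz =>
      (mem_fO h1).2 (galO_mono bot_le _ ((mem_fO hf).1 hz)))
  rw [e1, prb, prb, ← mul_div_assoc, div_le_div_iff₀ h4 h5]
  calc _ ≤ (#{z ∈ Orb τ | p z} : ℝ) *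
        (Module.finrank ℚ F * #(fO (galO F fun k => jInv (τ k)))) :=
        mul_le_mul h6 h3 h5.le (Nat.cast_nonneg _)
    _ = _ := by ring

theorem xdb_sq {a m : ℤ} (hm : m ≠ 0) (h : IsSquare (a * m ^ 2)) : IsSquare a := by
  obtain ⟨r, hr⟩ := h
  obtain ⟨q, rfl⟩ : m ∣ r := (Int.pow_dvd_pow_iff two_ne_zero).1 ⟨a, by rw [sq r, ← hr]; ring⟩
  exact ⟨q, mul_right_cancel₀ (pow_ne_zero 2 hm) (by rw [hr]; ring)⟩

namespace Shp

variable {n : ℕ} {ι : Type}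

theorem xdb_pm {s : Shp n ι} {v : VD n} {y q : ℕ} (h : s.Pm v y q) :
    IsCoprime (q : ℤ) (2 * s.N * v.E * s.dd v) :=
  (Nat.prime_iff_prime_int.1 h.1).coprime_iff_not_dvd.2 h.2.2.2

theorem xdb_cop {s : Shp n ι} {v : VD n} {L T : ℝ} {a m₀ y : ℕ} (h : s.Ok v L T a m₀ y)
    (i : Fin v.M) : 0 < v.l i ^ v.R * v.l' i ∧
      IsCoprime ((v.l i ^ v.R * v.l' i : ℕ) : ℤ) (2 * s.N * v.E * s.dd v) := by
  obtain ⟨h1, h2, -⟩ := h.pl i
  refine ⟨Nat.mul_pos (pow_pos h1.1.pos _) h2.1.pos, ?_⟩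
  rw [Nat.cast_mul, Nat.cast_pow]
  exact (xdb_pm h1).pow_left.mul_left (xdb_pm h2)

theorem xdb_disc {s : Shp n ι} {v : VD n} {L T : ℝ} {a m₀ y : ℕ} (h : s.Ok v L T a m₀ y)
    {x : Fin n → ℂ} (hx : x ∈ Orb v.τ) {k : Fin n} {t : ℍ} (ht : jInv t = x k) :
    HasDisc t (v.D k) := by
  obtain ⟨σ, rfl⟩ := (mem_Orb h.disc).1 hx
  exact disc_of_gal (h.disc k) (h.big k) ht

theorem move_pt {s : Shp n ι} {v : VD n} {L T : ℝ} {a m₀ y : ℕ} (h : s.Ok v L T a m₀ y)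
    {x : Fin n → ℂ} (hx : x ∈ Orb v.τ) {k : Fin n} (hk : k ∈ s.J) {t : ℍ} (ht : jInv t = x k) :
    ∃ c : vcjQ s.N, ∀ i, ∃ η : M2, η.det = ((v.l i ^ v.R * v.l' i) ^ (2 * s.e) : ℕ) ∧
      Ker ((v.l i ^ v.R * v.l' i) ^ (2 * s.e)) (AA v.E v.b t) ⊆
        Ker ((v.l i ^ v.R * v.l' i) ^ (2 * s.e)) η ∧
      Cg s.N η (((v.l i ^ v.R * v.l' i : ℕ) : ℤ) ^ s.e) ∧ ∀ φ : ℍ → ℝ, GInv s.N φ →
        φ (act η t) = φ (act ((c.out : SL(2, ℤ)) * s.hk v x k * s.rho v i (s.lab v x (s.bs k) i))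
          (s.ct x (s.bs k))) := by
  obtain ⟨k1, k2⟩ := h.hk_spec hx hk
  obtain ⟨hd, k3⟩ := mem_Hn k1
  have hd' : 0 < (s.hk v x k).det := by rw [k3]; exact_mod_cast hd
  obtain ⟨g, hg⟩ := jInv_inj (k2.trans ht.symm)
  have hD := xdb_disc h hx ht
  have hF : Fit v.E (v.D k) := (h.fit k hk).trans (fit_sq h.N_pos _)
  obtain ⟨c1, c2⟩ := h.ct_disc hx (s.bs k)
  have z1 : ((g : M2) * s.hk v x k).det = v.dg k := by
    rw [Matrix.det_mul, g.det_coe, one_mul, k3]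
  have z2 : 0 < ((g : M2) * s.hk v x k).det := by rw [z1]; exact_mod_cast hd
  have z3 : act ((g : M2) * s.hk v x k) (s.ct x (s.bs k)) = t := by
    rw [act_mul (vact_SL_det g) hd', act_SL, hg]
  have z4 := AA_com c1 c2 z2 (z3 ▸ hD) hF v.b
  rw [z3] at z4
  refine ⟨QuotientGroup.mk g, fun i => ?_⟩
  obtain ⟨p0, p1⟩ := xdb_cop h i
  have hn : 0 < (v.l i ^ v.R * v.l' i) ^ (2 * s.e) := pow_pos p0 _
  have en : (v.l i ^ v.R * v.l' i) ^ (2 * s.e) = s.a₁ v i * s.a₂ v i := by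
    rw [a₁, a₂, mul_pow, ← pow_mul, mul_comm v.R]
  have dv : v.dg k ∣ s.dd v := Finset.dvd_prod_of_mem _ hk
  have dv' : (v.dg k : ℤ) ∣ s.dd v := by exact_mod_cast dv
  have q1 : IsCoprime ((v.l i ^ v.R * v.l' i : ℕ) : ℤ) (2 * v.E) :=
    p1.of_isCoprime_of_dvd_right ⟨s.N * s.dd v, by ring⟩
  have q2 : IsCoprime ((v.l i ^ v.R * v.l' i : ℕ) : ℤ) ((s.N * v.dg k : ℕ) : ℤ) := by
    refine p1.of_isCoprime_of_dvd_right ?_
    rw [Nat.cast_mul]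
    exact (mul_dvd_mul_left _ dv').trans ⟨2 * v.E, by ring⟩
  have q3 : IsCoprime ((v.l i ^ v.R * v.l' i : ℕ) : ℤ) (s.N : ℤ) :=
    p1.of_isCoprime_of_dvd_right ⟨2 * v.E * s.dd v, by ring⟩
  have q4 : IsCoprime ((v.l i ^ v.R * v.l' i : ℕ) : ℤ) (v.dg k : ℤ) :=
    p1.of_isCoprime_of_dvd_right (dv'.mul_left _)
  have hl := AA_line (b := v.b) hD hF hn (by rw [Nat.cast_pow]; exact q1.pow_left)
    (by rw [Nat.cast_pow]; exact (Dvd.intro_left _ rfl).trans (h.bl i))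
  obtain ⟨η, e1, e2, e3⟩ := hl.exists_Cg hn h.N_pos
    (s := ((v.l i ^ v.R * v.l' i : ℕ) : ℤ) ^ s.e) q3.pow_left
    (by rw [Nat.cast_pow, ← pow_mul, mul_comm s.e, sub_self]; exact dvd_zero _)
  obtain ⟨r1, r2, r3, r4⟩ := h.rho_spec i (h.lab_mem hx (s.bs k) i)
  have ca : (s.a₁ v i).Coprime (s.a₂ v i) :=
    Nat.Coprime.pow _ _ ((Nat.coprime_primes (h.pl i).1.1 (h.pl i).2.1.1).2 (h.inj.2.2 i i))
  have r5 : Ker ((v.l i ^ v.R * v.l' i) ^ (2 * s.e)) (s.rho v i (s.lab v x (s.bs k) i)) =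
      Ker ((v.l i ^ v.R * v.l' i) ^ (2 * s.e)) (s.A v x (s.bs k)) := by
    rw [en, Ker_inter ca, Ker_inter ca, r2, r3]
    rfl
  have r6 : Cg (s.N * v.dg k) (s.rho v i (s.lab v x (s.bs k) i))
      (((v.l i ^ v.R * v.l' i : ℕ) : ℤ) ^ s.e) := by
    rw [Nat.cast_mul, Nat.cast_pow, mul_pow, ← pow_mul, mul_comm v.R]
    exact r4.mono ((Nat.mul_dvd_mul_left _ dv).mul_right _)
  rw [← en] at r1
  have r7 : 0 < (s.rho v i (s.lab v x (s.bs k) i)).det := by rw [r1]; exact_mod_cast hn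
  obtain ⟨γ, hγ, e4⟩ := swap_Cg hn hd z1 r1 e1
    (Nat.Coprime.pow_left _ (Nat.isCoprime_iff_coprime.1 q4)) q2.pow_left r6 e3 fun w hw => by
      rw [e2]
      rw [r5] at hw
      refine (Ker_com z4 ?_ w).1.2 hw
      rw [z1, Nat.cast_pow]
      exact q4.symm.pow_right
  refine ⟨η, e1, e2.ge, e3, fun φ hφ => ?_⟩
  obtain ⟨δ, hδ⟩ := QuotientGroup.mk_out_eq_mul (CongruenceSubgroup.Gamma s.N) g
  have r8 : 0 < (s.hk v x k * s.rho v i (s.lab v x (s.bs k) i)).det := by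
    rw [Matrix.det_mul]
    exact mul_pos hd' r7
  have r9 : 0 < ((g : M2) * s.hk v x k * s.rho v i (s.lab v x (s.bs k) i)).det := by
    rw [Matrix.det_mul]
    exact mul_pos z2 r7
  rw [← z3, ← act_mul (by rw [e1]; exact_mod_cast hn) z2, e4, act_mul (vact_SL_det γ) r9, act_SL,
    hφ γ hγ, mul_assoc, mul_assoc, act_mul (vact_SL_det _) r8, act_mul (vact_SL_det _) r8, act_SL,
    act_SL, hδ, mul_smul]
  exact (hφ.smul g δ δ.2 _).symm

theorem xdb_size {s : Shp n ι} {v : VD n} {L T : ℝ} {a m₀ y : ℕ} (h : s.Ok v L T a m₀ y)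
    (he : (s.e : ℝ) ≤ T) (i : Fin v.M) {k : Fin n} (hk : k ∈ s.J) :
    4 * ((v.l i ^ v.R * v.l' i : ℕ) : ℤ) ^ (2 * s.e) < -v.D k := by
  have hT := h.hT
  have hq : ∀ q, s.Pm v y q → (q : ℝ) ≤ Real.exp T := fun q hq => by
    have h1 : (q : ℝ) ≤ 2 * y := by exact_mod_cast hq.2.2.1
    linarith [h.ylog]
  have h1 : ((v.l i ^ v.R * v.l' i : ℕ) : ℝ) ≤ Real.exp ((v.R + 1) * T) := by
    rw [add_mul, one_mul, Real.exp_add, Real.exp_nat_mul, Nat.cast_mul, Nat.cast_pow]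
    exact mul_le_mul (pow_le_pow_left₀ (Nat.cast_nonneg _) (hq _ (h.pl i).1) _)
      (hq _ (h.pl i).2.1) (Nat.cast_nonneg _) (by positivity)
  have h2 : ((v.l i ^ v.R * v.l' i : ℕ) : ℝ) ^ (2 * s.e) ≤
      Real.exp ((2 * s.e : ℕ) * ((v.R + 1) * T)) := by
    rw [Real.exp_nat_mul]
    exact pow_le_pow_left₀ (Nat.cast_nonneg _) h1 _
  have h3 : ((2 * s.e : ℕ) : ℝ) * ((v.R + 1) * T) ≤ 6 * T ^ 4 := by
    have a1 : (v.R + 1 : ℝ) ≤ 3 * T ^ 2 := by nlinarith [h.cR.2]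
    have a2 : ((2 * s.e : ℕ) : ℝ) ≤ 2 * T := by push_cast; linarith
    calc _ ≤ 2 * T * (3 * T ^ 2 * T) := by gcongr
      _ = _ := by ring
  have h4 : 6 * T ^ 4 + 4 ≤ T ^ 16 := by
    have a1 : (1 : ℝ) ≤ T ^ 4 := one_le_pow₀ (by linarith)
    have a2 : T ≤ T ^ 12 := le_self_pow₀ (by linarith) (by norm_num)
    have a3 : T ^ 16 = T ^ 12 * T ^ 4 := by ring
    nlinarith
  have h5 : (4 : ℝ) < Real.exp 4 := by linarith [Real.add_one_le_exp 4]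
  have h6 : 4 * ((v.l i ^ v.R * v.l' i : ℕ) : ℝ) ^ (2 * s.e) < -(v.D k : ℝ) :=
    calc _ ≤ 4 * Real.exp (6 * T ^ 4) :=
          mul_le_mul_of_nonneg_left (h2.trans (Real.exp_le_exp.2 h3)) (by norm_num)
      _ < Real.exp 4 * Real.exp (6 * T ^ 4) := mul_lt_mul_of_pos_right h5 (Real.exp_pos _)
      _ ≤ Real.exp (T ^ 16) := by rw [← Real.exp_add]; exact Real.exp_le_exp.2 (by linarith)
      _ ≤ _ := (h.large k hk).1
  exact_mod_cast h6

theorem xdb_big {s : Shp n ι} {v : VD n} {L T : ℝ} {a m₀ y : ℕ} (h : s.Ok v L T a m₀ y)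
    {k : Fin n} (hk : k ∈ s.J) : T ≤ -(v.D k : ℝ) := by
  have hT := h.hT
  have a2 : T ≤ T ^ 16 := le_self_pow₀ (by linarith) (by norm_num)
  linarith [Real.add_one_le_exp (T ^ 16), (h.large k hk).1]

theorem xdb_abs {N : ℕ} {F : IntermediateField ℚ ℂ} {φ : Fin n → (ℍ →ᵇ ℝ)} (h : ∀ k, ‖φ k‖ ≤ 1)
    (I : Finset (Fin n)) (z : Fin n × Fn → ℂ) : |PT N F φ I z| ≤ 1 := by
  rw [PT, Finset.abs_prod]
  exact Finset.prod_le_one (fun _ _ => abs_nonneg _) fun k _ =>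
    ((φ k).norm_coe_le_norm _).trans (h k)

theorem xdb_cell {N : ℕ} (hN : 0 < N) {F : IntermediateField ℚ ℂ} {τ : Fin n → ℍ}
    {z : Fin n × Fn → ℂ} (hz : z ∈ galO F (evs (MF N F) τ)) (k : Fin n) :
    ∃ c : vcjQ N, ∀ f, evA (MF N F) (c.out⁻¹ • fr (pj z k)) f = z (k, f) := by
  obtain ⟨g, hg⟩ := jInv_inj ((fr_spec (pj z k)).2.trans (vev_j hN hz k).symm)
  refine ⟨QuotientGroup.mk g⁻¹, fun f => ?_⟩
  rw [← congrFun (vev_rp hN hz k) f]
  by_cases hf : f ∈ MF N F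
  · rw [ev_of_mem hf, ev_of_mem hf, vcj_mk hf, inv_inv, ← hg]
  · rw [ev_of_not hf, ev_of_not hf]

theorem red {N : ℕ} (hN : 0 < N) (F : IntermediateField ℚ ℂ) [FiniteDimensional ℚ F] (n : ℕ) :
    ∃ (e : ℕ) (T₀ : ℝ), 0 < e ∧ ∀ (ι : Type) [Nonempty ι] (s : Shp n ι)
      (φ : Fin n → (ℍ →ᵇ ℝ)), s.N = N → s.e = e → (∀ k, Tst N F (φ k)) → (∀ k, ‖φ k‖ ≤ 1) →
      ∀ (v : VD n) (L T : ℝ) (a m₀ y : ℕ) (ψ : (Fin n × Fn → ℂ) → ℝ) (θ : ℝ), T₀ ≤ T →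
      s.Ok v L T a m₀ y → Oth s.I v.D ψ → (∀ z, |ψ z| ≤ 1) → 0 < θ →
      θ ≤ |avg (ON N F v.τ) fun z => ψ z *
        (PT N F φ s.I z - (∏ k ∈ s.J, IN N (φ k)) * PT N F φ (s.I \ s.J) z)| →
      ∃ Ws : (Fin n → ℂ) → Finset (Fin v.M → ℝ),
        (∀ u, #(Ws u) ≤ N ^ (3 * n) ∧ ∀ W ∈ Ws u, ∀ i, |W i| ≤ 1) ∧
        θ / (4 * Module.finrank ℚ F) ≤ prb (Orb v.τ) (s.Ev v φ Ws (θ / 2)) := by
  obtain ⟨e, he, hmv⟩ := move hN F n
  obtain ⟨B, hB⟩ := tst_rp hN F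
  refine ⟨e, max (max e B) (577 * N ^ 2), he, ?_⟩
  intro ι _ s φ hsN hse hφ hφ1 v L T a m₀ y ψ θ hT h hψ hψ1 hθ hav
  subst hsN hse
  have T1 : (s.e : ℝ) ≤ T := ((le_max_left _ _).trans (le_max_left _ _)).trans hT
  have T2 : B ≤ T := ((le_max_right _ _).trans (le_max_left _ _)).trans hT
  have T3 : (577 * s.N ^ 2 : ℝ) ≤ T := (le_max_right _ _).trans hT
  have hex := fun i : Fin v.M => hmv v.E v.b (v.l i ^ v.R * v.l' i)
    ((univ.filter fun k => ¬ IsSquare (v.D k * v.E)).image v.D) h.Ebig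
    (card_image_le.trans ((card_filter_le _ _).trans (by simp)))
    (fun D hD => by
      obtain ⟨k, hk, rfl⟩ := mem_image.1 hD
      exact ⟨h.big k, (h.disc k).isD, (mem_filter.1 hk).2⟩)
    (xdb_cop h i).1 (xdb_cop h i).2.of_mul_right_left (h.bl i)
  choose σ s1 s2 s3 using hex
  haveI := vcj_fin hN
  letI := Fintype.ofFinite (vcjQ s.N)
  have hM : (0 : ℝ) < v.M := lt_of_lt_of_le (pow_pos (by linarith [h.hT]) 2) h.cM.1
  have hMne : (univ : Finset (Fin v.M)).Nonempty := by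
    have : 0 < v.M := by exact_mod_cast hM
    exact ⟨⟨0, this⟩, mem_univ _⟩
  have hsplit : ∀ z, PT s.N F φ s.I z - (∏ k ∈ s.J, IN s.N (φ k)) * PT s.N F φ (s.I \ s.J) z =
      PT s.N F φ (s.I \ s.J) z * (PT s.N F φ s.J z - ∏ k ∈ s.J, IN s.N (φ k)) := fun z => by
    rw [PT, ← prod_sdiff s.sub, mul_sub, mul_comm (∏ k ∈ s.J, IN s.N (φ k))]
    rfl
  simp only [hsplit] at hav
  set Φ : (Fin n × Fn → ℂ) → ℝ := fun z =>
    PT s.N F φ (s.I \ s.J) z * (PT s.N F φ s.J z - ∏ k ∈ s.J, IN s.N (φ k)) with hΦ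
  have hΦ2 : ∀ z, |Φ z| ≤ 2 := fun z => by
    have a1 := xdb_abs (N := s.N) (F := F) hφ1 (s.I \ s.J) z
    have a2 := xdb_abs (N := s.N) (F := F) hφ1 s.J z
    have a3 : |∏ k ∈ s.J, IN s.N (φ k)| ≤ 1 := by
      rw [Finset.abs_prod]
      exact Finset.prod_le_one (fun _ _ => abs_nonneg _) fun k _ =>
        (abs_IN_le hN _).trans (hφ1 k)
    rw [hΦ, abs_mul]
    calc _ ≤ 1 * (1 + 1) := mul_le_mul a1 ((abs_sub _ _).trans (add_le_add a2 a3))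
          (abs_nonneg _) zero_le_one
      _ = 2 := by norm_num
  have hfix : ∀ z ∈ ON s.N F v.τ, ∀ i, ψ (fun b => σ i (z b)) = ψ z := fun z hz i => by
    have hz' := (mem_ON hN h.disc).1 hz
    refine hψ _ _ fun k hk f => ?_
    by_cases hf : f ∈ MF s.N F
    · rw [← rp_val hN hz' k hf]
      refine s2 i (v.D k) (mem_image_of_mem _ (mem_filter.2 ⟨mem_univ _, fun hs => ?_⟩)) _
        (rp_disc hN h.disc hz' (h.big k)) f hf
      obtain ⟨c⟩ := ‹Nonempty ι›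
      obtain ⟨m, hm, hE⟩ := (h.fit _ (s.mem c)).trans (fit_sq hN _)
      refine hk _ (s.sub (s.mem c)) (xdb_sq (m := m) (by exact_mod_cast hm.ne') ?_)
      rwa [hE, mul_comm ((m : ℤ) ^ 2), ← mul_assoc] at hs
    · rw [← congrFun (vev_rp hN hz' k) f, ev_of_not hf, map_zero]
  have e1 : avg (ON s.N F v.τ) (fun z => ψ z * Φ z) =
      mn (ON s.N F v.τ) fun z => ψ z * mn univ fun i => Φ fun b => σ i (z b) := by
    have a1 : ∀ i, mn (ON s.N F v.τ) (fun z => ψ z * Φ fun b => σ i (z b)) =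
        avg (ON s.N F v.τ) fun z => ψ z * Φ z := fun i => by
      rw [mn, avg, ON, ← sum_galO (s1 i) fun z => ψ z * Φ z]
      congr 1
      exact sum_congr rfl fun z hz => by rw [hfix z hz i]
    simp only [← mn_mul]
    rw [mn_swap]
    simp only [a1]
    rw [mn_const hMne]
  have e2 : θ ≤ mn (ON s.N F v.τ) fun z => |mn univ fun i => Φ fun b => σ i (z b)| := by
    refine hav.trans ?_
    rw [e1]
    refine (abs_mn_le _ _).trans (mn_mono fun z _ => ?_)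
    rw [abs_mul]
    exact mul_le_of_le_one_left (abs_nonneg _) (hψ1 z)
  have e3 := pb_rev (O := ON s.N F v.τ) (G := fun z => |mn univ fun i => Φ fun b => σ i (z b)|)
    two_pos (fun z _ => (abs_mn_le _ _).trans
      ((mn_mono fun i _ => hΦ2 _).trans (mn_const hMne 2).le)) (half_pos hθ).le
  refine ⟨fun u => (univ : Finset (Fin n → vcjQ s.N)).image fun c i => PT s.N F φ (s.I \ s.J)
    fun b => σ i (evs (MF s.N F) (fun k => (c k).out⁻¹ • fr (u k)) b), fun u => ⟨?_, ?_⟩, ?_⟩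
  · refine card_image_le.trans ?_
    rw [card_univ, Fintype.card_fun, Fintype.card_fin, pow_mul, ← Nat.card_eq_fintype_card]
    exact Nat.pow_le_pow_left (index_Gamma_le hN) n
  · intro W hW i
    obtain ⟨c, -, rfl⟩ := mem_image.1 hW
    exact xdb_abs hφ1 _ _
  have hfr : (0 : ℝ) < Module.finrank ℚ F := by exact_mod_cast Module.finrank_pos
  rw [← div_div, div_le_iff₀' hfr]
  refine le_trans ?_ (prb_pj hN F h.disc _)
  refine le_trans (by linarith) (e3.trans (pb_mono fun z hz hG => ?_))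
  have hz' := (mem_ON hN h.disc).1 hz
  have hx : pj z ∈ Orb v.τ := by
    obtain ⟨σ', -, e⟩ := pj_mem hN hz'
    exact (mem_Orb h.disc).2 ⟨σ', e⟩
  choose c hc using xdb_cell hN hz'
  have hγ : ∀ k, ∃ γ : vcjQ s.N, k ∈ s.J → ∀ i,
      φ k (rp (MF s.N F) (fun b => σ i (z b)) k) =
        φ k (act ((γ.out : SL(2, ℤ)) * s.hk v (pj z) k *
          s.rho v i (s.lab v (pj z) (s.bs k) i)) (s.ct (pj z) (s.bs k))) := fun k => by
    by_cases hk : k ∈ s.J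
    · obtain ⟨γ, hγ⟩ := move_pt h hx hk (vev_j hN hz' k)
      refine ⟨γ, fun _ i => ?_⟩
      obtain ⟨η, a1, a2, a3, a4⟩ := hγ i
      rw [← a4 _ (hφ k).ginv]
      refine (hB n v.τ v.D h.disc _ (galO_map hz' (s1 i)) k (T2.trans (xdb_big h hk)) _
        (fun f hf => ?_) _ (hφ k)).symm
      rw [← rp_val hN hz' k hf]
      refine (s3 i _ (v.D k) η (rp_disc hN h.disc hz' (h.big k)) (h.fit k hk) ?_
        (xdb_size h T1 i hk) a1 a2 a3 f hf).symm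
      exact_mod_cast T3.trans (xdb_big h hk)
    · exact ⟨QuotientGroup.mk 1, fun hk' => absurd hk' hk⟩
  choose γ hγ using hγ
  refine ⟨_, mem_image_of_mem _ (mem_univ c), γ, ?_⟩
  have e4 : s.val v φ (fun k => ((γ k).out : SL(2, ℤ)) * s.hk v (pj z) k) (s.lab v (pj z))
      (s.ct (pj z)) (fun i => PT s.N F φ (s.I \ s.J) fun b => σ i (evs (MF s.N F)
        (fun k => (c k).out⁻¹ • fr (s.sm (pj z) k)) b)) = ∑ i, Φ fun b => σ i (z b) := by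
    refine sum_congr rfl fun i _ => ?_
    rw [hΦ]
    congr 1
    · refine prod_congr rfl fun k hk => congrArg (φ k) (rp_congr fun f => congrArg (σ i) ?_)
      rw [← hc k f, evs, sm, if_pos hk]
    · congr 1
      exact prod_congr rfl fun k hk => (hγ k hk i).symm
  rw [e4]
  rw [mn, card_univ, Fintype.card_fin, abs_div, Nat.abs_cast, le_div_iff₀ hM] at hG
  exact hG

end Shp

end Pool.Agent.EQ
end
end

-- part Pool.Agent.P.MP_ad7a55_nt.XDc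
section

/-! Bad directions are rare. -/

set_option autoImplicit false

noncomputable section

open MeasureTheory Topology Filter UpperHalfPlane Finset
open scoped MatrixGroups BoundedContinuousFunction Matrix Classical

namespace Pool.Agent.EQ

theorem xdc_tel (ι : Type) [Fintype ι] : ∃ A B : ι → Finset ι, (∀ c, c ∉ A c) ∧
    ∀ a b : ι → ℝ, ∏ c, a c - ∏ c, b c =
      ∑ c, ((∏ j ∈ A c, a j) * ∏ j ∈ B c, b j) * (a c - b c) := by
  let _ : LinearOrder ι := LinearOrder.lift' (Fintype.equivFin ι) (Fintype.equivFin ι).injective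
  refine ⟨fun c => {j | j < c}, fun c => {j | c < j}, fun c => by simp, fun a b => ?_⟩
  have h := Finset.prod_add_ordered (univ : Finset ι) b (fun c => a c - b c)
  simp only [add_sub_cancel] at h
  rw [h, add_sub_cancel_left]
  exact sum_congr rfl fun c _ => by ring

theorem xdc_prod_le {ι : Type} (A : Finset ι) {a : ι → ℝ} (h : ∀ j, |a j| ≤ 1) :
    |∏ j ∈ A, a j| ≤ 1 := by
  rw [Finset.abs_prod]
  exact Finset.prod_le_one (fun j _ => abs_nonneg _) fun j _ => h j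

theorem xdc_fib {ι Y : Type} [Fintype ι] (X : Finset Y) (c : ι) (S : Finset (ι → Y))
    (hS : S ⊆ Fintype.piFinset fun _ : ι => X) {B : ℝ}
    (h : ∀ T ⊆ S, (∀ ξ ∈ T, ∀ ξ' ∈ T, ∀ j, j ≠ c → ξ j = ξ' j) → (#T : ℝ) ≤ B) :
    (#S : ℝ) ≤ B * (#X : ℝ) ^ (Fintype.card ι - 1) := by
  have h1 := card_eq_sum_card_fiberwise (s := S)
    (t := Fintype.piFinset fun _ : {j : ι // ¬ j = c} => X) (f := fun ξ j => ξ j.1)
    (fun ξ hξ => by
      have := Fintype.mem_piFinset.1 (hS hξ)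
      exact Fintype.mem_piFinset.2 fun j => this j.1)
  rw [h1]
  push_cast
  refine (sum_le_card_nsmul _ _ B fun b _ => h _ (filter_subset _ _) fun ξ hξ ξ' hξ' j hj => ?_).trans
    (le_of_eq ?_)
  · exact (congrFun (mem_filter.1 hξ).2 ⟨j, hj⟩).trans (congrFun (mem_filter.1 hξ').2 ⟨j, hj⟩).symm
  · rw [Fintype.card_piFinset, prod_const, card_univ, Fintype.card_subtype_compl,
      Fintype.card_subtype_eq, nsmul_eq_mul, mul_comm]
    push_cast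
    rfl

theorem cor_count {ι Y : Type} [Fintype ι] [Nonempty ι] {M : ℕ} (hM : 0 < M) (X : Finset Y)
    (G : ι → Y → Fin M → ℝ) (I : ι → ℝ) (W : Fin M → ℝ) {t e : ℝ} (ht : 0 < t)
    (hG : ∀ c, ∀ ξ ∈ X, ∀ i, |G c ξ i| ≤ 1 ∧ |G c ξ i - I c| ≤ 1) (hI : ∀ c, |I c| ≤ 1)
    (hW : ∀ i, |W i| ≤ 1)
    (h : ∀ c, ∀ ξ ∈ X, ∀ ξ' ∈ X, ξ ≠ ξ' → |∑ i, (G c ξ i - I c) * (G c ξ' i - I c)| ≤ e * M)
    (he : 2 * e ≤ (t / Fintype.card ι) ^ 2) :
    (#{ξ ∈ Fintype.piFinset fun _ : ι => X |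
      t * M ≤ |∑ i, W i * (∏ c, G c (ξ c) i - ∏ c, I c)|} : ℝ) ≤
      2 * (Fintype.card ι : ℝ) ^ 3 / t ^ 2 * (#X : ℝ) ^ (Fintype.card ι - 1) := by
  obtain ⟨A, B, hA, hAB⟩ := xdc_tel ι
  have hr : (0 : ℝ) < Fintype.card ι := by exact_mod_cast Fintype.card_pos
  have ht' : 0 < t / Fintype.card ι := div_pos ht hr
  let w : ι → (ι → Y) → Fin M → ℝ := fun c ξ i =>
    W i * ((∏ j ∈ A c, G j (ξ j) i) * ∏ j ∈ B c, I j)
  let S : ι → Finset (ι → Y) := fun c => {ξ ∈ Fintype.piFinset fun _ : ι => X |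
    t / Fintype.card ι * M ≤ |∑ i, w c ξ i * (G c (ξ c) i - I c)|}
  have h1 : ∀ c, (#(S c) : ℝ) ≤
      2 / (t / Fintype.card ι) ^ 2 * (#X : ℝ) ^ (Fintype.card ι - 1) := fun c => by
    refine xdc_fib X c (S c) (filter_subset _ _) fun T hT hc => ?_
    rcases T.eq_empty_or_nonempty with rfl | ⟨ξ₀, h0⟩
    · rw [card_empty, Nat.cast_zero]
      positivity
    have hX : ∀ ξ ∈ T, ∀ j, ξ j ∈ X := fun ξ hξ =>
      Fintype.mem_piFinset.1 (mem_filter.1 (hT hξ)).1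
    refine few_corr hM T (w c ξ₀) (fun ξ i => G c (ξ c) i - I c) ht' (fun i => ?_)
      (fun ξ hξ i => (hG c _ (hX ξ hξ c) i).2) (fun ξ hξ => ?_) (fun ξ hξ ξ' hξ' hne => ?_) he
    · simp only [w, abs_mul]
      exact mul_le_one₀ (hW i) (by positivity) (mul_le_one₀
        (xdc_prod_le _ fun j => (hG j _ (hX ξ₀ h0 j) i).1) (abs_nonneg _) (xdc_prod_le _ hI))
    · have e1 : w c ξ₀ = w c ξ := funext fun i => by
        simp only [w]
        rw [prod_congr rfl fun j hj => by rw [hc ξ₀ h0 ξ hξ j fun e => hA c (e ▸ hj)]]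
      rw [e1]
      exact (mem_filter.1 (hT hξ)).2
    · refine h c _ (hX ξ hξ c) _ (hX ξ' hξ' c) fun e => hne (funext fun j => ?_)
      by_cases hj : j = c
      · rw [hj, e]
      · exact hc ξ hξ ξ' hξ' j hj
  have h2 : ({ξ ∈ Fintype.piFinset fun _ : ι => X |
      t * M ≤ |∑ i, W i * (∏ c, G c (ξ c) i - ∏ c, I c)|} : Finset (ι → Y)) ⊆ univ.biUnion S := by
    intro ξ hξ
    obtain ⟨a1, a2⟩ := mem_filter.1 hξ
    by_contra hn
    have a3 : ∀ c, |∑ i, w c ξ i * (G c (ξ c) i - I c)| < t / Fintype.card ι * M := fun c =>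
      not_le.1 fun a => hn (mem_biUnion.2 ⟨c, mem_univ _, mem_filter.2 ⟨a1, a⟩⟩)
    have a4 : ∑ i, W i * (∏ c, G c (ξ c) i - ∏ c, I c) =
        ∑ c, ∑ i, w c ξ i * (G c (ξ c) i - I c) := by
      rw [sum_comm]
      refine sum_congr rfl fun i _ => ?_
      rw [hAB (fun c => G c (ξ c) i) I, mul_sum]
      exact sum_congr rfl fun c _ => by simp only [w]; ring
    have a5 := (abs_sum_le_sum_abs _ _).trans_lt (sum_lt_sum_of_nonempty univ_nonempty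
      fun c _ => a3 c)
    rw [← a4, sum_const, card_univ, nsmul_eq_mul, ← mul_assoc, mul_div_cancel₀ _ hr.ne'] at a5
    exact absurd a2 (not_le.2 a5)
  have h3 := (card_le_card h2).trans card_biUnion_le
  have h4 := sum_le_sum fun c (_ : c ∈ (univ : Finset ι)) => h1 c
  rw [sum_const, card_univ, nsmul_eq_mul, ← Nat.cast_sum] at h4
  refine ((Nat.cast_le.2 h3).trans h4).trans (le_of_eq ?_)
  field_simp

theorem xdc_union {α β : Type} (O : Finset α) (I : Finset β) (p : β → α → Prop) {c B : ℝ}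
    (hc : 0 ≤ c) (hB : (#I : ℝ) ≤ B) (h : ∀ i ∈ I, prb O (p i) ≤ c) :
    prb O (fun x => ∃ i ∈ I, p i x) ≤ B * c := by
  refine (pb_exists O I p).trans ((sum_le_card_nsmul _ _ c h).trans ?_)
  rw [nsmul_eq_mul]
  exact mul_le_mul_of_nonneg_right hB hc

theorem xdc_and {α : Type} (O : Finset α) (a : Prop) (p : α → Prop) {c : ℝ} (hc : 0 ≤ c)
    (h : a → prb O p ≤ c) : prb O (fun x => a ∧ p x) ≤ c := by
  by_cases ha : a
  · exact (pb_mono fun x _ hx => hx.2).trans (h ha)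
  · simpa [prb, ha] using hc

theorem xdc_tw {κ : Type} {N m m' M q : ℕ} {ζ ζ' : κ → M2} (h : Tw N m' M q ζ ζ') (hm : m ≤ m') :
    Tw N m M q ζ ζ' :=
  ⟨h.prime, hm.trans_lt h.lt, h.det, h.ne, fun k l hkl =>
    ⟨fun r => (h.rel k l hkl).1 (r.mono hm), fun r => (h.rel k l hkl).2 (r.mono hm)⟩⟩

theorem xdc_rp {N : ℕ} (hN : 0 < N) (d : ℕ) :
    ∃ Z : Finset M2, #Z ≤ N ^ 3 * d ^ 2 ∧ ∀ ζ, RPm N d ζ → ζ ∈ Z := by
  have := vcj_fin hN
  have : Fintype (vcjQ N) := Fintype.ofFinite _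
  refine ⟨((univ : Finset (vcjQ N)) ×ˢ Hn d).image fun z => ((z.1.out : SL(2, ℤ)) : M2) * z.2,
    card_image_le.trans ?_, ?_⟩
  · rw [card_product, card_univ, ← Nat.card_eq_fintype_card]
    exact Nat.mul_le_mul (index_Gamma_le hN) (card_Hn d)
  · rintro _ ⟨c, h, hh, rfl⟩
    exact mem_image.2 ⟨(c, h), mem_product.2 ⟨mem_univ _, hh⟩, rfl⟩

theorem xdc_le_exp (T : ℝ) : T ≤ Real.exp T := by linarith [Real.add_one_le_exp T]

theorem xdc_pow_exp {x T : ℝ} (h0 : 0 ≤ x) (h : x ≤ Real.exp T) (k : ℕ) :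
    x ^ k ≤ Real.exp (k * T) := by
  rw [Real.exp_nat_mul]
  exact pow_le_pow_left₀ h0 h k

theorem xdc_mul_exp {x y a b : ℝ} (hy : 0 ≤ y) (h : x ≤ Real.exp a) (h' : y ≤ Real.exp b) :
    x * y ≤ Real.exp (a + b) := by
  rw [Real.exp_add]
  exact mul_le_mul h h' hy (Real.exp_pos _).le

theorem xdc_pows {T : ℝ} (h : 100 ≤ T) : 4 * T ^ 4 ≤ T ^ 256 ∧ 4 * T ^ 2 ≤ T ^ 64 ∧ T ≤ T ^ 2 := by
  have h1 : (1 : ℝ) ≤ T := by linarith
  have a : ∀ i j : ℕ, i + 1 ≤ j → 4 * T ^ i ≤ T ^ j := fun i j hij =>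
    calc 4 * T ^ i ≤ T * T ^ i := mul_le_mul_of_nonneg_right (by linarith) (by positivity)
      _ = T ^ (i + 1) := by ring
      _ ≤ T ^ j := pow_le_pow_right₀ h1 hij
  exact ⟨a 4 256 (by norm_num), a 2 64 (by norm_num), by nlinarith⟩

namespace Shp

variable {n : ℕ} {ι : Type} (s : Shp n ι)

section
variable {s} {v : VD n} {L T : ℝ} {a m₀ y : ℕ}

theorem xdc_pm (h : s.Ok v L T a m₀ y) {q : ℕ} (hq : s.Pm v y q) :
    T ^ 256 ≤ q ∧ (q : ℝ) ≤ Real.exp T := by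
  have h1 : (y : ℝ) ≤ q := by exact_mod_cast hq.2.1.le
  have h2 : (q : ℝ) ≤ 2 * y := by exact_mod_cast hq.2.2.1
  exact ⟨h.ylo.trans h1, by linarith [h.ylog]⟩

theorem xdc_R (h : s.Ok v L T a m₀ y) : 0 < v.R := by
  have h1 := h.cR.1
  have h2 := h.hT
  have : (0 : ℝ) < v.R := by nlinarith
  exact_mod_cast this

theorem xdc_dd (h : s.Ok v L T a m₀ y) : 0 < s.dd v ∧ (s.dd v : ℝ) ≤ Real.exp (n * T) := by
  refine ⟨prod_pos fun k hk => (h.deg k hk).1, ?_⟩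
  have h1 := Finset.prod_le_prod (s := s.J) (f := fun k => (v.dg k : ℝ))
    (g := fun _ => Real.exp T) (fun k _ => Nat.cast_nonneg _) fun k hk => (h.deg k hk).2.1
  rw [prod_const, ← Nat.cast_prod] at h1
  refine h1.trans ?_
  rw [Real.exp_nat_mul]
  refine pow_le_pow_right₀ (Real.one_le_exp (by linarith [h.hT])) ?_
  simpa using card_le_univ s.J

theorem xdc_xi (h : s.Ok v L T a m₀ y) (i : Fin v.M) : (s.Xi v i).Nonempty := by
  have h1 : 0 < 2 * s.e := by linarith [h.e_pos]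
  have p1 := (h.pl i).1.1
  have p2 := (h.pl i).2.1.1
  refine Finset.Nonempty.product (card_pos.1 ?_) (card_pos.1 ?_)
  · exact (pow_pos p1.pos _).trans_le (card_Xn p1 (Nat.mul_pos h1 (xdc_R h))).1
  · exact (pow_pos p2.pos _).trans_le (card_Xn p2 h1).1

theorem xdc_nd (h : s.Ok v L T a m₀ y) {l q : ℕ} (hl : s.Pm v y l) (hP : l ∉ v.P) (hq : q ∈ v.P) :
    ¬ l ∣ s.N * s.dd v * q := by
  intro hd
  rcases (hl.1.dvd_mul).1 hd with h1 | h1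
  · refine hl.2.2.2 ((Int.natCast_dvd_natCast.2 h1).trans ⟨2 * v.E, ?_⟩)
    push_cast
    ring
  · exact hP ((Nat.prime_dvd_prime_iff_eq hl.1 (h.pP q hq).1).1 h1 ▸ hq)

theorem xdc_lev (h : s.Ok v L T a m₀ y) (hN : (s.N : ℝ) ≤ T) {a' : ℕ}
    (ha : (a' * (n + 2) : ℝ) ≤ T) {q : ℕ} (hq : q ∈ v.P) (i : Fin v.M) :
    (s.N * s.dd v * q) ^ a' ≤ v.l i ^ (2 * s.e * v.R) := by
  have hT := h.hT
  have h1 : ((s.N * s.dd v * q : ℕ) : ℝ) ≤ Real.exp (T + n * T + T) := by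
    push_cast
    exact xdc_mul_exp (Nat.cast_nonneg _) (xdc_mul_exp (Nat.cast_nonneg _)
      (hN.trans (xdc_le_exp T)) (xdc_dd h).2) (xdc_pm h (h.pP q hq)).2
  have h2 := xdc_pow_exp (Nat.cast_nonneg _) h1 a'
  have h3 : Real.exp 1 ≤ v.l i := by
    have b1 := (xdc_pm h (h.pl i).1).1
    have b2 := (xdc_pows hT).1
    have b3 : (1 : ℝ) ≤ T ^ 4 := one_le_pow₀ (by linarith)
    linarith [Real.exp_one_lt_d9]
  have h4 := pow_le_pow_left₀ (Real.exp_pos 1).le h3 (2 * s.e * v.R)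
  rw [← Real.exp_nat_mul] at h4
  have h5 : (1 : ℝ) ≤ s.e := by exact_mod_cast h.e_pos
  have h6 : a' * (T + n * T + T) ≤ ((2 * s.e * v.R : ℕ) : ℝ) * 1 := by
    push_cast
    have b1 := h.cR.1
    have b2 : (a' * (n + 2) : ℝ) * T ≤ T * T := mul_le_mul_of_nonneg_right ha (by linarith)
    have b3 : (1 : ℝ) * v.R ≤ s.e * v.R := mul_le_mul_of_nonneg_right h5 (Nat.cast_nonneg _)
    nlinarith
  exact_mod_cast h2.trans ((Real.exp_le_exp.2 h6).trans h4)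

theorem xdc_mk (h : s.Ok v L T a m₀ y) {m : ℕ} (hm : (m * s.e : ℝ) ≤ T) (i : Fin v.M) :
    m * (2 * s.e * v.R) ≤ v.l i ∧ m < v.l' i := by
  have hT := h.hT
  obtain ⟨b1, -, b2⟩ := xdc_pows hT
  have h5 : (1 : ℝ) ≤ s.e := by exact_mod_cast h.e_pos
  have b3 : T ^ 2 * T ≤ T ^ 2 * T ^ 2 := mul_le_mul_of_nonneg_left b2 (by positivity)
  have b4 : (m * s.e : ℝ) * v.R ≤ T * (2 * T ^ 2) :=
    mul_le_mul hm h.cR.2 (Nat.cast_nonneg _) (by linarith)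
  have b5 : (m : ℝ) * 1 ≤ m * s.e := mul_le_mul_of_nonneg_left h5 (Nat.cast_nonneg _)
  have b6 : (1 : ℝ) * T ^ 2 ≤ T ^ 2 * T ^ 2 :=
    mul_le_mul_of_nonneg_right (by linarith) (by positivity)
  constructor
  · have : ((m * (2 * s.e * v.R) : ℕ) : ℝ) ≤ v.l i := by
      push_cast
      nlinarith [(xdc_pm h (h.pl i).1).1]
    exact_mod_cast this
  · have : (m : ℝ) < v.l' i := by nlinarith [(xdc_pm h (h.pl i).2.1).1]
    exact_mod_cast this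

theorem xdc_Z (h : s.Ok v L T a m₀ y) (hN : (s.N : ℝ) ≤ T) {q : ℕ} (hq : q ∈ v.P) (c : ι) :
    ∃ Z : Finset (s.Cu c → M2), (#Z : ℝ) ≤ Real.exp (n * (7 * T)) ∧
      ∀ ζ : s.Cu c → M2, (∀ k : s.Cu c, RPm s.N (v.dg k * q) (ζ k)) → ζ ∈ Z := by
  choose Z hZ hZ' using fun d => xdc_rp h.N_pos d
  refine ⟨Fintype.piFinset fun k : s.Cu c => Z (v.dg k * q), ?_,
    fun ζ hζ => Fintype.mem_piFinset.2 fun k => hZ' _ _ (hζ k)⟩
  have h1 : ∀ k : s.Cu c, (#(Z (v.dg k * q)) : ℝ) ≤ Real.exp (7 * T) := fun k => by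
    have b1 := xdc_pow_exp (Nat.cast_nonneg _) (hN.trans (xdc_le_exp T)) 3
    have b2 := xdc_pow_exp (by positivity) (xdc_mul_exp (Nat.cast_nonneg _)
      (h.deg k k.2.1).2.1 (xdc_pm h (h.pP q hq)).2) 2
    have b3 := xdc_mul_exp (by positivity) b1 b2
    have b4 : (#(Z (v.dg k * q)) : ℝ) ≤ (s.N : ℝ) ^ 3 * ((v.dg k : ℝ) * q) ^ 2 := by
      exact_mod_cast hZ _
    refine b4.trans (b3.trans (le_of_eq ?_))
    congr 1
    push_cast
    ring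
  have h2 := Finset.prod_le_prod (s := univ) (fun k _ => Nat.cast_nonneg _) fun k _ => h1 k
  rw [prod_const, ← Nat.cast_prod, ← Fintype.card_piFinset] at h2
  refine h2.trans ?_
  rw [Real.exp_nat_mul]
  refine pow_le_pow_right₀ (Real.one_le_exp (by linarith [h.hT])) ?_
  simpa using Fintype.card_subtype_le fun k : Fin n => k ∈ s.J ∧ s.bs k = c

end

theorem bad_prob (hN : 0 < s.N) (φ : Fin n → (ℍ →ᵇ ℝ)) (hφ : ∀ k, GInv s.N (φ k))
    (hb : ∀ k, ‖φ k‖ ≤ 1 / 2) {ω : ℝ → ℝ} (hω : ∀ ε, 0 < ε → 0 < ω ε) (hc : ∀ k, EqC ω (φ k))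
    (U : ℝ) {ε : ℝ} (hε : 0 < ε) (Rn : Finset ℍ) (hR : ∀ w ∈ Rn, w ∈ KU U) (c : ι) :
    ∃ (m : ℕ) (T₀ : ℝ), ∀ (v : VD n) (L T : ℝ) (a m₀ y m' : ℕ), T₀ ≤ T → s.Ok v L T a m₀ y →
      m ≤ m' → prb (Fintype.piFinset (s.Xi v)) (s.Bad v φ m' ε Rn c) ≤ Real.exp (-T) := by
  have : Nonempty (s.Cu c) := ⟨⟨s.cr c, s.mem c, s.bs_cr c⟩⟩
  obtain ⟨m, a', H⟩ := he_main hN (fun k : s.Cu c => φ k) (fun k => hφ k) (fun k => hb k) hω
    (fun k => hc k) U (half_pos hε)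
  obtain ⟨t, t0, t1, t2⟩ : ∃ t : ℝ, 0 < t ∧ t ≤ 1 ∧ t ≤ ε / 2 :=
    ⟨min 1 (ε / 2), lt_min one_pos (half_pos hε), min_le_left _ _, min_le_right _ _⟩
  refine ⟨m, s.N + a' * (n + 2) + m * s.e + #Rn + 16 * (16 + 14 * n) / t ^ 2,
    fun v L T a m₀ y m' hT h hm => ?_⟩
  have n1 : (0 : ℝ) ≤ s.N := Nat.cast_nonneg _
  have n2 : (0 : ℝ) ≤ a' * (n + 2) := by positivity
  have n3 : (0 : ℝ) ≤ m * s.e := by positivity
  have n4 : (0 : ℝ) ≤ #Rn := Nat.cast_nonneg _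
  have n5 : (0 : ℝ) ≤ 16 * (16 + 14 * n) / t ^ 2 := by positivity
  have hT0 := h.hT
  have e0 : 0 < 2 * s.e := by linarith [h.e_pos]
  have key : ∀ w ∈ Rn, ∀ q ∈ v.P, ∀ ζ ζ' : s.Cu c → M2, Tw s.N m' (s.N * s.dd v * q) q ζ ζ' →
      prb (Fintype.piFinset (s.Xi v)) (fun Ls => ε * v.M <
        |∑ i, (Fz s.N (fun k : s.Cu c => φ k) ζ * Fz s.N (fun k : s.Cu c => φ k) ζ')
          (act (s.rho v i (Ls i)) w)|) ≤ 2 * Real.exp (-(t ^ 2 * v.M / 16)) := by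
    intro w hw q hq ζ ζ' hz
    refine le_trans (pb_mono fun Ls _ hL => ?_) (hoeffding (s.Xi v) (xdc_xi h)
      (fun i K => (Fz s.N (fun k : s.Cu c => φ k) ζ * Fz s.N (fun k : s.Cu c => φ k) ζ')
        (act (s.rho v i K) w)) (fun i K _ => ?_) (e := ε / 2) (fun i => ?_) t0 t1)
    · exact lt_of_le_of_lt (mul_le_mul_of_nonneg_right (by linarith) (Nat.cast_nonneg _)) hL
    · rw [BoundedContinuousFunction.mul_apply, abs_mul]
      exact mul_le_one₀ (abs_Fz_le hN (fun k : s.Cu c => hb k) _ _) (abs_nonneg _)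
        (abs_Fz_le hN (fun k : s.Cu c => hb k) _ _)
    · obtain ⟨p1, p2, p3, p4⟩ := h.pl i
      refine H _ q ζ ζ' (Nat.mul_pos (Nat.mul_pos hN (xdc_dd h).1) (h.pP q hq).1.pos)
        (xdc_tw hz hm) (v.l i) (v.l' i) (2 * s.e * v.R) (2 * s.e) ((v.l i : ℤ) ^ (s.e * v.R))
        ((v.l' i : ℤ) ^ s.e) p1.1 p2.1 (h.inj.2.2 i i) (xdc_mk h (by linarith) i).1
        (xdc_mk h (by linarith) i).2 (xdc_nd h p1 p3 hq) (xdc_nd h p2 p4 hq)
        (Nat.mul_pos e0 (xdc_R h)) e0 (xdc_lev h (by linarith) (by linarith) hq i)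
        ⟨0, by push_cast; ring⟩ ⟨0, by push_cast; ring⟩ w (hR w hw) (s.rho v i) fun K hK => ?_
      obtain ⟨r1, r2, r3, r4⟩ := h.rho_spec i hK
      exact ⟨r1, r2, r3, r4.mono (Nat.mul_dvd_mul_left _ (dvd_prod_of_mem _ hq))⟩
  choose! Z hZ hZ' using fun q (hq : q ∈ v.P) => xdc_Z h (by linarith) hq c
  have hP : (#v.P : ℝ) ≤ Real.exp (T + 12 * T) := h.cP.2.trans (xdc_mul_exp (by positivity)
    (le_trans (by linarith) (xdc_le_exp T))
    (by exact_mod_cast xdc_pow_exp (by linarith) (xdc_le_exp T) 12))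
  have main := xdc_union (Fintype.piFinset (s.Xi v)) Rn _ (by positivity)
    (le_trans (by linarith) (xdc_le_exp T)) fun w hw =>
    xdc_union _ v.P _ (by positivity) hP fun q hq =>
    xdc_union _ (Z q) _ (by positivity) (hZ q hq) fun ζ _ =>
    xdc_union _ (Z q) _ (by positivity) (hZ q hq) fun ζ' _ =>
    xdc_and _ _ _ (by positivity) (key w hw q hq ζ ζ')
  refine le_trans (pb_mono fun Ls _ hL => ?_) (main.trans ?_)
  · obtain ⟨w, hw, q, hq, ζ, ζ', h1, h2, h3⟩ := hL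
    exact ⟨w, hw, q, hq, ζ, hZ' q hq ζ fun k => (h1 k).1, ζ', hZ' q hq ζ' fun k => (h1 k).2, h2, h3⟩
  · have b1 : 2 * Real.exp (-(t ^ 2 * v.M / 16)) ≤ Real.exp (T + -(t ^ 2 * v.M / 16)) :=
      xdc_mul_exp (Real.exp_pos _).le (le_trans (by linarith) (xdc_le_exp T)) le_rfl
    refine (xdc_mul_exp (by positivity) le_rfl (xdc_mul_exp (by positivity) le_rfl
      (xdc_mul_exp (by positivity) le_rfl (xdc_mul_exp (by positivity) le_rfl b1)))).trans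
      (Real.exp_le_exp.2 ?_)
    have b2 : 16 * (16 + 14 * n) ≤ T * t ^ 2 :=
      (div_le_iff₀ (by positivity)).1 (by linarith)
    have b3 : 16 * (16 + 14 * n) * T ≤ T * t ^ 2 * T := mul_le_mul_of_nonneg_right b2 (by linarith)
    have b4 : t ^ 2 * T ^ 2 ≤ t ^ 2 * v.M := mul_le_mul_of_nonneg_left h.cM.1 (by positivity)
    nlinarith

section
variable {s} {v : VD n} {L T : ℝ} {a m₀ y : ℕ}

theorem xdc_card (h : s.Ok v L T a m₀ y) {l : ℕ} (hl : s.Pm v y l) {k : ℕ} (hk : 0 < k) :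
    (#(Xn (l ^ k)) : ℝ) ≤ (l ^ k : ℕ) * Real.exp (1 / (4 * T ^ 2)) := by
  have hT := h.hT
  have l0 : (0 : ℝ) < l := by exact_mod_cast hl.1.pos
  have h1 : (#(Xn (l ^ k)) : ℝ) * l ≤ (l ^ k : ℕ) * (l + 1) := by exact_mod_cast (card_Xn hl.1 hk).2
  have h2 : 4 * T ^ 2 ≤ l := (xdc_pows hT).2.1.trans
    ((pow_le_pow_right₀ (by linarith) (by norm_num)).trans (xdc_pm h hl).1)
  have h3 : 1 / (l : ℝ) ≤ 1 / (4 * T ^ 2) := one_div_le_one_div_of_le (by positivity) h2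
  have h4 : (l + 1 : ℝ) / l ≤ Real.exp (1 / (4 * T ^ 2)) := by
    rw [add_div, div_self l0.ne']
    linarith [Real.add_one_le_exp (1 / (4 * T ^ 2))]
  refine le_trans ?_ (mul_le_mul_of_nonneg_left h4 (Nat.cast_nonneg _))
  rw [← mul_div_assoc, le_div_iff₀ l0]
  exact h1

theorem xdc_pi (h : s.Ok v L T a m₀ y) :
    (#(Fintype.piFinset (s.Xi v)) : ℝ) ≤ 3 * ((∏ i, s.a₁ v i) * ∏ i, s.a₂ v i : ℕ) := by
  have hT := h.hT
  have e0 : 0 < 2 * s.e := by linarith [h.e_pos]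
  have h1 : ∀ i, (#(s.Xi v i) : ℝ) ≤ (s.a₁ v i * s.a₂ v i : ℕ) * Real.exp (1 / (2 * T ^ 2)) := by
    intro i
    have b := mul_le_mul (xdc_card h (h.pl i).1 (Nat.mul_pos e0 (xdc_R h)))
      (xdc_card h (h.pl i).2.1 e0) (Nat.cast_nonneg _) (by positivity)
    have e : 1 / (2 * T ^ 2) = 1 / (4 * T ^ 2) + 1 / (4 * T ^ 2) := by
      field_simp
      norm_num
    rw [Xi, card_product, e, Real.exp_add, Nat.cast_mul, Nat.cast_mul, mul_mul_mul_comm]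
    exact b
  have h2 := Finset.prod_le_prod (s := univ) (fun i _ => Nat.cast_nonneg _) fun i _ => h1 i
  rw [← Nat.cast_prod, ← Fintype.card_piFinset, prod_mul_distrib, prod_const, ← Nat.cast_prod,
    prod_mul_distrib, card_univ, Fintype.card_fin, ← Real.exp_nat_mul] at h2
  refine h2.trans ?_
  rw [mul_comm]
  refine mul_le_mul_of_nonneg_right ?_ (Nat.cast_nonneg _)
  have h3 : v.M * (1 / (2 * T ^ 2)) ≤ 1 := by
    rw [mul_one_div, div_le_one (by positivity)]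
    exact h.cM.2
  linarith [Real.exp_le_exp.2 h3, Real.exp_one_lt_d9]

theorem xdc_S (h : s.Ok v L T a m₀ y) (he : (6400 * s.e : ℝ) ≤ T) :
    ∃ (S : Finset ℕ) (k : ℕ → ℕ),
      (∀ l ∈ S, l.Prime ∧ ¬ (l : ℤ) ∣ 2 * v.E ∧ 0 < k l ∧ (l : ℤ) ^ k l ∣ v.b ^ 2 - v.E) ∧
      ∑ l ∈ S, (l : ℝ) ^ (-(1 / 4 : ℝ)) ≤ 1 ∧
      ((∏ l ∈ S, l ^ k l : ℕ) : ℝ) ^ 400 ≤ Real.exp (T ^ 16) ∧
      (∏ l ∈ S, l ^ k l = (∏ i, s.a₁ v i) * ∏ i, s.a₂ v i) ∧
      ∀ l ∈ S, ∃ i, l ^ k l = s.a₁ v i ∨ l ^ k l = s.a₂ v i := by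
  have hT := h.hT
  have T1 : (1 : ℝ) ≤ T := by linarith
  have e0 : 0 < 2 * s.e := by linarith [h.e_pos]
  have hR := xdc_R h
  obtain ⟨k, k1, k2⟩ : ∃ k : ℕ → ℕ, (∀ i, k (v.l i) = 2 * s.e * v.R) ∧ ∀ i, k (v.l' i) = 2 * s.e :=
    ⟨fun p => if ∃ i, v.l i = p then 2 * s.e * v.R else 2 * s.e, fun i => if_pos ⟨i, rfl⟩,
      fun i => if_neg fun ⟨j, hj⟩ => h.inj.2.2 j i hj⟩
  have hS : ∀ l ∈ univ.image v.l ∪ univ.image v.l', ∃ i, l = v.l i ∨ l = v.l' i := fun l hl => by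
    rcases mem_union.1 hl with h1 | h1 <;> obtain ⟨i, -, rfl⟩ := mem_image.1 h1
    exacts [⟨i, Or.inl rfl⟩, ⟨i, Or.inr rfl⟩]
  have hpm : ∀ l ∈ univ.image v.l ∪ univ.image v.l', s.Pm v y l ∧ 0 < k l ∧ k l ≤ 2 * s.e * v.R ∧
      (l : ℤ) ^ k l ∣ v.b ^ 2 - v.E := fun l hl => by
    obtain ⟨i, rfl | rfl⟩ := hS l hl
    · refine ⟨(h.pl i).1, k1 i ▸ Nat.mul_pos e0 hR, (k1 i).le, Dvd.dvd.trans ?_ (h.bl i)⟩
      refine ⟨4 * (v.l' i : ℤ) ^ (2 * s.e), ?_⟩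
      rw [k1]
      push_cast
      ring
    · refine ⟨(h.pl i).2.1, k2 i ▸ e0, k2 i ▸ Nat.le_mul_of_pos_right _ hR,
        Dvd.dvd.trans ?_ (h.bl i)⟩
      refine ⟨4 * ((v.l i : ℤ) ^ v.R) ^ (2 * s.e), ?_⟩
      rw [k2]
      push_cast
      ring
  have hc : (#(univ.image v.l ∪ univ.image v.l') : ℝ) ≤ 4 * T ^ 2 := by
    have b := (card_union_le (univ.image v.l) (univ.image v.l')).trans
      (add_le_add card_image_le card_image_le)
    rw [card_univ, Fintype.card_fin] at b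
    have b' : (#(univ.image v.l ∪ univ.image v.l') : ℝ) ≤ v.M + v.M := by exact_mod_cast b
    linarith [h.cM.2]
  refine ⟨univ.image v.l ∪ univ.image v.l', k, fun l hl => ⟨(hpm l hl).1.1, fun hd => ?_,
    (hpm l hl).2.1, (hpm l hl).2.2.2⟩, ?_, ?_, ?_, fun l hl => ?_⟩
  · exact (hpm l hl).1.2.2.2 (hd.trans ⟨s.N * s.dd v, by ring⟩)
  · refine (sum_le_card_nsmul _ _ (T ^ 64)⁻¹ fun l hl => ?_).trans ?_
    · refine (Real.rpow_le_rpow_of_nonpos (by positivity) (xdc_pm h (hpm l hl).1).1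
        (by norm_num)).trans (le_of_eq ?_)
      rw [← Real.rpow_natCast, ← Real.rpow_mul (by linarith), ← Real.rpow_natCast,
        ← Real.rpow_neg (by linarith)]
      norm_num
    · rw [nsmul_eq_mul, ← div_eq_mul_inv, div_le_one (by positivity)]
      exact hc.trans (xdc_pows hT).2.1
  · have b1 : ∀ l ∈ univ.image v.l ∪ univ.image v.l',
        ((l ^ k l : ℕ) : ℝ) ≤ Real.exp ((2 * s.e * v.R : ℕ) * T) := fun l hl => by
      have c1 : (k l : ℝ) ≤ (2 * s.e * v.R : ℕ) := by exact_mod_cast (hpm l hl).2.2.1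
      rw [Nat.cast_pow]
      exact (xdc_pow_exp (Nat.cast_nonneg _) (xdc_pm h (hpm l hl).1).2 _).trans
        (Real.exp_le_exp.2 (mul_le_mul_of_nonneg_right c1 (by linarith)))
    have b2 := Finset.prod_le_prod (fun l _ => Nat.cast_nonneg _) b1
    rw [prod_const, ← Nat.cast_prod, ← Real.exp_nat_mul] at b2
    refine (xdc_pow_exp (Nat.cast_nonneg _) b2 400).trans (Real.exp_le_exp.2 ?_)
    have b3 : ((2 * s.e * v.R : ℕ) : ℝ) * T ≤ 2 * s.e * (2 * T ^ 2) * T := by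
      push_cast
      exact mul_le_mul_of_nonneg_right (mul_le_mul_of_nonneg_left h.cR.2 (by positivity))
        (by linarith)
    have b4 := mul_le_mul hc b3 (by positivity) (by positivity)
    have b5 : (6400 * s.e : ℝ) * T ^ 5 ≤ T * T ^ 5 := mul_le_mul_of_nonneg_right he (by positivity)
    have b6 : T ^ 6 ≤ T ^ 16 := pow_le_pow_right₀ T1 (by norm_num)
    push_cast at b4 ⊢
    nlinarith
  · rw [prod_union (disjoint_left.2 fun l h1 h2 => by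
        obtain ⟨i, -, rfl⟩ := mem_image.1 h1
        obtain ⟨j, -, e⟩ := mem_image.1 h2
        exact h.inj.2.2 i j e.symm),
      prod_image h.inj.1.injOn, prod_image h.inj.2.1.injOn]
    simp only [k1, k2, a₁, a₂]
  · obtain ⟨i, rfl | rfl⟩ := hS l hl
    · exact ⟨i, Or.inl (by rw [k1, a₁])⟩
    · exact ⟨i, Or.inr (by rw [k2, a₂])⟩

end

theorem bad_orb (L U : ℝ) (a : ℕ) {δ : ℝ} (hδ : 0 < δ) : ∃ T₀ : ℝ, ∀ (v : VD n) (T : ℝ)
    (m₀ y : ℕ), T₀ ≤ T → s.Ok v L T a m₀ y → ∀ (c : ι) (B : (Fin v.M → Set V2 × Set V2) → Prop),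
      prb (Fintype.piFinset (s.Xi v)) B ≤ Real.exp (-T) →
      prb (Orb v.τ) (fun x => s.ct x c ∈ KU U ∧ B (s.lab v x c)) ≤ δ := by
  obtain ⟨K, Y, A, hK, H⟩ := lin_orb L U
  obtain ⟨T₁, hT₁⟩ := eventually_atTop.1
    ((Real.tendsto_pow_mul_exp_neg_atTop_nhds_zero (a * A)).eventually
      (ge_mem_nhds (show 0 < δ ^ 2 / (3 * K) by positivity)))
  refine ⟨max T₁ (max Y (6400 * s.e)), fun v T m₀ y hT h c B hB => ?_⟩
  obtain ⟨t1, t2⟩ := max_le_iff.1 hT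
  obtain ⟨t2, t3⟩ := max_le_iff.1 t2
  have T1 : (1 : ℝ) ≤ T := by linarith [h.hT]
  obtain ⟨S, k, s1, s2, s3, s4, s5⟩ := xdc_S h t3
  obtain ⟨l1, l2⟩ := h.large _ (s.mem c)
  have l0 : 0 ≤ Real.log (-(v.D (s.cr c) : ℝ)) :=
    Real.log_nonneg ((Real.one_le_exp (by positivity)).trans l1)
  have hF : Fit v.E (v.D (s.cr c)) := by
    obtain ⟨f, hf, e⟩ := h.fit _ (s.mem c)
    exact ⟨f * s.N, Nat.mul_pos hf h.N_pos, by rw [e]; push_cast; ring⟩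
  have hQ : (0 : ℝ) < (∏ l ∈ S, l ^ k l : ℕ) := by
    exact_mod_cast prod_pos fun l hl => pow_pos (s1 l hl).1.pos _
  have h1 := H n v.τ v.D h.disc (s.cr c) v.E v.b S k
    (t2.trans ((le_self_pow₀ T1 (by norm_num)).trans ((xdc_le_exp _).trans l1)))
    (h.low _ (s.mem c)) hF s1 s2 (by exact_mod_cast s3.trans l1)
  have h2 := transfer (Orb v.τ) (fun x => s.ct x c ∈ KU U) (fun x => s.lab v x c)
    ((Fintype.piFinset (s.Xi v)).filter B) (le_trans (Nat.cast_le.2 (card_le_card fun z hz => by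
      simp only [mem_filter] at hz
      obtain ⟨z1, z2, z3, z4⟩ := hz
      refine mem_filter.2 ⟨z1, z2, z3, fun l hl => ?_⟩
      obtain ⟨i, e | e⟩ := s5 l hl <;> rw [e]
      · exact congrArg Prod.fst (congrFun z4 i)
      · exact congrArg Prod.snd (congrFun z4 i))) h1) (by positivity)
  have h3 : (#((Fintype.piFinset (s.Xi v)).filter B) : ℝ) ≤
      Real.exp (-T) * (3 * (∏ l ∈ S, l ^ k l : ℕ)) := by
    have p0 : (0 : ℝ) < #(Fintype.piFinset (s.Xi v)) := by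
      exact_mod_cast (Fintype.piFinset_nonempty.2 (xdc_xi h)).card_pos
    rw [prb, div_le_iff₀ p0] at hB
    exact hB.trans (mul_le_mul_of_nonneg_left (s4 ▸ xdc_pi h) (Real.exp_pos _).le)
  have h4 : Real.log (-(v.D (s.cr c) : ℝ)) ^ A ≤ T ^ (a * A) := by
    rw [pow_mul]
    exact pow_le_pow_left₀ l0 l2 A
  have h5 := (le_div_iff₀ (by positivity)).1 (hT₁ T t1)
  refine le_trans (pb_mono fun x hx h0 => ?_) (le_of_sq_le_sq (h2.trans ?_) hδ.le)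
  · exact ⟨h0.1, mem_filter.2 ⟨Fintype.mem_piFinset.2 (h.lab_mem hx c), h0.2⟩⟩
  · refine (mul_le_mul_of_nonneg_right h3 (by positivity)).trans (le_trans ?_ h5)
    have e : Real.exp (-T) * (3 * (∏ l ∈ S, l ^ k l : ℕ)) *
        (K * Real.log (-(v.D (s.cr c) : ℝ)) ^ A / (∏ l ∈ S, l ^ k l : ℕ)) =
        Real.log (-(v.D (s.cr c) : ℝ)) ^ A * Real.exp (-T) * (3 * K) := by
      field_simp
    rw [e]
    exact mul_le_mul_of_nonneg_right (mul_le_mul_of_nonneg_right h4 (Real.exp_pos _).le)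
      (by positivity)

end Shp

end Pool.Agent.EQ
end
end
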