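import Pool.Agent.K.MP_ad7a55_nt.C78
import Pool.Agent.K.MP_ad7a55_nt.C61

/-! Choice of the window, the clusters and the primes. -/

set_option autoImplicit false

noncomputable section

open MeasureTheory Topology Filter UpperHalfPlane Finset
open scoped MatrixGroups BoundedContinuousFunction Matrix Classical

namespace Pool.Agent.EQ

theorem pool (A : ℕ) (C : ℝ) : ∃ X₀ : ℝ, ∀ (X : ℝ) (m : ℕ), X₀ ≤ X → Real.log m ≤ X → Many A m →
    ∃ y : ℕ, X ≤ y ∧ (y : ℝ) ≤ X ^ (3 * A) ∧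
      C * X ≤ #{p ∈ Ioc y (2 * y) | p.Prime ∧ jacobiSym (-(m : ℤ)) p = 1} := by
  obtain ⟨C', hC0, hC⟩ : ∃ C' : ℝ, 0 ≤ C' ∧ C ≤ C' := ⟨max C 0, le_max_right _ _, le_max_left _ _⟩
  have hA0 : (0 : ℝ) ≤ A := Nat.cast_nonneg A
  have hB : 0 ≤ 12 * A * C' := by positivity
  refine ⟨(12 * A * C' + C' + 4) ^ 2, fun X m hX hm hM => ?_⟩
  have hX0 : 0 ≤ X := le_trans (sq_nonneg _) hX
  obtain ⟨s, hs, rfl⟩ : ∃ s : ℝ, 12 * A * C' + C' + 4 ≤ s ∧ X = s ^ 2 :=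
    ⟨√X, Real.le_sqrt_of_sq_le hX, (Real.sq_sqrt hX0).symm⟩
  have hs4 : 4 ≤ s := by linarith
  have hX2 : (16 : ℝ) ≤ s ^ 2 := by nlinarith
  generalize hX' : s ^ 2 = X at *
  obtain ⟨t, ht1, ht2⟩ : ∃ t : ℕ, X ^ 2 ≤ t ∧ (t : ℝ) ≤ X ^ 3 :=
    ⟨⌈X ^ 2⌉₊, Nat.le_ceil _, (Nat.ceil_lt_add_one (by positivity)).le.trans (by nlinarith)⟩
  obtain ⟨y, hy1, hy2⟩ : ∃ y : ℕ, X ≤ y ∧ (y : ℝ) ≤ X + 1 :=
    ⟨⌈X⌉₊, Nat.le_ceil _, (Nat.ceil_lt_add_one hX0).le⟩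
  have hy0 : 0 < y := by
    have : (0 : ℝ) < y := by linarith
    exact_mod_cast this
  have htA : ((t ^ A : ℕ) : ℝ) ≤ X ^ (3 * A) := by
    rw [pow_mul]
    push_cast
    exact pow_le_pow_left₀ (Nat.cast_nonneg _) ht2 A
  by_contra hc
  push Not at hc
  have h1 := hM t (by nlinarith)
  let S := (range (Nat.log 2 (t ^ A) + 1)).filter fun j => y * 2 ^ j ≤ t ^ A
  have h2 : ((Nat.primesLE (t ^ A)).filter fun p : ℕ => jacobiSym (-(m : ℤ)) p = 1) ⊆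
      range (y + 1) ∪ S.biUnion fun j =>
        {p ∈ Ioc (y * 2 ^ j) (2 * (y * 2 ^ j)) | p.Prime ∧ jacobiSym (-(m : ℤ)) p = 1} := by
    intro p hp
    obtain ⟨h3, h4⟩ := mem_filter.1 hp
    obtain ⟨h5, h6⟩ := Nat.mem_primesLE.1 h3
    rcases le_or_gt p y with h7 | h7
    · exact mem_union_left _ (mem_range.2 (by omega))
    · have h8 : (p - 1) / y ≠ 0 := (Nat.div_pos (by omega) hy0).ne'
      have h9 := Nat.pow_log_le_self 2 h8
      have h10 := Nat.lt_pow_succ_log_self (b := 2) (by norm_num) ((p - 1) / y)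
      generalize Nat.log 2 ((p - 1) / y) = j at h9 h10
      rw [Nat.le_div_iff_mul_le hy0, mul_comm] at h9
      rw [Nat.div_lt_iff_lt_mul hy0, Nat.succ_eq_add_one, pow_succ] at h10
      have h11 : 2 ^ j ≤ y * 2 ^ j := Nat.le_mul_of_pos_left _ hy0
      have h12 : 2 ^ j * 2 * y = 2 * (y * 2 ^ j) := by ring
      refine mem_union_right _ (mem_biUnion.2 ⟨j, mem_filter.2 ⟨mem_range.2 ?_, by omega⟩,
        mem_filter.2 ⟨mem_Ioc.2 ⟨by omega, by omega⟩, h6, h4⟩⟩)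
      exact Nat.lt_succ_of_le (Nat.le_log_of_pow_le (by norm_num) (by omega))
  have h3 := (card_le_card h2).trans ((card_union_le _ _).trans
    (Nat.add_le_add_left card_biUnion_le _))
  rw [card_range] at h3
  have h4 : (t : ℝ) ≤ y + 1 + ∑ j ∈ S, (#{p ∈ Ioc (y * 2 ^ j) (2 * (y * 2 ^ j)) |
      p.Prime ∧ jacobiSym (-(m : ℤ)) p = 1} : ℝ) := by exact_mod_cast h1.trans h3
  have h5 : ∑ j ∈ S, (#{p ∈ Ioc (y * 2 ^ j) (2 * (y * 2 ^ j)) |
      p.Prime ∧ jacobiSym (-(m : ℤ)) p = 1} : ℝ) ≤ #S * (C' * X) := by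
    rw [← nsmul_eq_mul]
    refine sum_le_card_nsmul _ _ _ fun j hj => ?_
    have h6 : (y : ℝ) ≤ (y * 2 ^ j : ℕ) := by
      exact_mod_cast Nat.le_mul_of_pos_right y (by positivity : 0 < 2 ^ j)
    have h7 : ((y * 2 ^ j : ℕ) : ℝ) ≤ (t ^ A : ℕ) := by exact_mod_cast (mem_filter.1 hj).2
    exact (hc _ (hy1.trans h6) (h7.trans htA)).le.trans (mul_le_mul_of_nonneg_right hC hX0)
  have h6 : (#S : ℝ) ≤ 12 * A * s + 1 := by
    have h7 : #S ≤ Nat.log 2 (t ^ A) + 1 := (card_filter_le _ _).trans (card_range _).le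
    have ht0 : t ^ A ≠ 0 := by
      have : (0 : ℝ) < t := by nlinarith
      exact pow_ne_zero _ (Nat.cast_pos.1 this).ne'
    have h8 := Nat.pow_log_le_self 2 ht0
    generalize Nat.log 2 (t ^ A) = K at h7 h8
    have h9 : (2 : ℝ) ^ K ≤ X ^ (3 * A) := le_trans (by exact_mod_cast h8) htA
    have h10 := Real.log_le_log (by positivity) h9
    rw [Real.log_pow, Real.log_pow, ← hX', Real.log_pow] at h10
    have h11 : Real.log s ≤ s := (Real.log_le_sub_one_of_pos (by linarith)).trans (by linarith)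
    have h12 := Real.log_two_gt_d9
    have h13 : (#S : ℝ) ≤ K + 1 := by exact_mod_cast h7
    have h14 : (0 : ℝ) ≤ K := Nat.cast_nonneg K
    push_cast at h10
    nlinarith [mul_le_mul_of_nonneg_left h11 hA0]
  have h7 := mul_le_mul_of_nonneg_right h6 (mul_nonneg hC0 hX0)
  have h8 : (12 * A * s + 1) * C' ≤ (12 * A * C' + C') * s := by nlinarith
  have h9 : (12 * A * C' + C') * s ≤ X - 4 * s := by nlinarith
  have h10 := mul_le_mul_of_nonneg_right (h8.trans h9) hX0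
  nlinarith

theorem xta_hensel {E : ℤ} {p : ℕ} (hp : p.Prime) (h2 : p ≠ 2) (h : jacobiSym E p = 1) (j : ℕ) :
    ∃ c : ℤ, (p : ℤ) ^ j ∣ c ^ 2 - E := by
  have := Fact.mk hp
  have hp' : Prime (p : ℤ) := Nat.prime_iff_prime_int.1 hp
  have hE : ¬ (p : ℤ) ∣ E := by
    intro hd
    have h3 : jacobiSym E p = 0 := by
      rw [← jacobiSym.legendreSym.to_jacobiSym, legendreSym.eq_zero_iff]
      exact (ZMod.intCast_zmod_eq_zero_iff_dvd _ _).2 hd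
    omega
  have key : ∀ k : ℕ, ∃ c : ℤ, (p : ℤ) ^ (k + 1) ∣ c ^ 2 - E := by
    intro k
    induction k with
    | zero =>
      obtain ⟨r, hr⟩ := ZMod.isSquare_of_jacobiSym_eq_one h
      refine ⟨r.valMinAbs, ?_⟩
      rw [zero_add, pow_one]
      refine (ZMod.intCast_zmod_eq_zero_iff_dvd _ p).1 ?_
      push_cast
      rw [hr, sq, sub_self]
    | succ k ih =>
      obtain ⟨c, w, hw⟩ := ih
      have h3 : ¬ (p : ℤ) ∣ 2 * c := by
        intro hd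
        rcases hp'.dvd_or_dvd hd with h4 | h4
        · exact h2 ((Nat.prime_dvd_prime_iff_eq hp Nat.prime_two).1 (by exact_mod_cast h4))
        · refine hE ?_
          rw [show E = c * c - p * (p ^ k * w) by linear_combination -hw]
          exact (h4.mul_right _).sub (dvd_mul_right _ _)
      obtain ⟨u, v, huv⟩ := (hp'.irreducible.coprime_iff_not_dvd).2 h3
      refine ⟨c - p ^ (k + 1) * (v * w), u * w + p ^ k * (v * w) ^ 2, ?_⟩
      linear_combination hw - (p : ℤ) ^ (k + 1) * w * huv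
  obtain ⟨c, hc⟩ := key j
  exact ⟨c, (pow_dvd_pow _ (Nat.le_succ j)).trans hc⟩

theorem exists_root {E : ℤ} (hE : IsD E) (S : Finset ℕ)
    (hS : ∀ p ∈ S, p.Prime ∧ p ≠ 2 ∧ jacobiSym E p = 1) (j : ℕ) :
    ∃ b : ℤ, (4 * (∏ p ∈ S, p ^ j : ℕ) : ℤ) ∣ b ^ 2 - E := by
  induction S using Finset.induction_on with
  | empty =>
    rcases hE.2 with h | h
    · exact ⟨0, by simp only [prod_empty]; omega⟩
    · exact ⟨1, by simp only [prod_empty]; omega⟩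
  | insert p S hp ih =>
    obtain ⟨b, hb⟩ := ih fun q hq => hS q (mem_insert_of_mem hq)
    obtain ⟨h1, h2, h3⟩ := hS p (mem_insert_self _ _)
    obtain ⟨c, hc⟩ := xta_hensel h1 h2 h3 j
    have h4 : Nat.Coprime (4 * ∏ q ∈ S, q ^ j) (p ^ j) := by
      refine Nat.Coprime.pow_right _ (Nat.Coprime.mul_left ?_ (Nat.Coprime.prod_left fun q hq => ?_))
      · exact Nat.Coprime.pow_left 2 ((Nat.coprime_primes Nat.prime_two h1).2 h2.symm)
      · exact Nat.Coprime.pow_left _ ((Nat.coprime_primes (hS q (mem_insert_of_mem hq)).1 h1).2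
          fun e => hp (e ▸ hq))
    have h5 := Nat.isCoprime_iff_coprime.2 h4
    rw [prod_insert hp]
    push_cast at h5 hb ⊢
    generalize (p : ℤ) ^ j = P at h5 hc ⊢
    rw [mul_left_comm, mul_comm P]
    generalize 4 * ∏ q ∈ S, (q : ℤ) ^ j = M at h5 hb ⊢
    obtain ⟨u, v, huv⟩ := id h5
    refine ⟨b + u * M * (c - b), h5.mul_dvd ?_ ?_⟩
    · have e : (b + u * M * (c - b)) ^ 2 - E =
          b ^ 2 - E + M * (u * (c - b) * (2 * b + u * M * (c - b))) := by ring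
      rw [e]
      exact hb.add (dvd_mul_right _ _)
    · have e : (b + u * M * (c - b)) ^ 2 - E =
          c ^ 2 - E + P * (v * (b - c) * (2 * c + v * P * (b - c))) := by
        rw [show u * M = 1 - v * P by linear_combination huv]
        ring
      rw [e]
      exact hc.add (dvd_mul_right _ _)

theorem window (r : ℕ) (T₀ : ℝ) : ∃ X₀ : ℝ, ∀ (X : ℝ) (V : Finset ℝ), X₀ ≤ X → #V ≤ r →
    ∃ T : ℝ, T₀ ≤ T ∧ T ^ 256 ≤ X ∧ X ≤ T ^ 16 ^ (r + 2) ∧ ∀ u ∈ V, u ≤ T ∨ T ^ 16 < u := by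
  refine ⟨(max T₀ 1) ^ 16 ^ (r + 2), fun X V hX hV => ?_⟩
  have h1 : (1 : ℝ) ≤ max T₀ 1 := le_max_right _ _
  have hX0 : 0 ≤ X := le_trans (by positivity) hX
  have hK : 16 ^ (r + 2) ≠ 0 := by positivity
  obtain ⟨Z, hZ0, rfl⟩ : ∃ Z : ℝ, 0 ≤ Z ∧ X = Z ^ 16 ^ (r + 2) :=
    ⟨X ^ (((16 ^ (r + 2) : ℕ) : ℝ)⁻¹), by positivity, (Real.rpow_inv_natCast_pow hX0 hK).symm⟩
  have h2 : max T₀ 1 ≤ Z := (pow_le_pow_iff_left₀ (by linarith) hZ0 hK).1 hX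
  have h3 : 1 ≤ Z := h1.trans h2
  have hm : ∀ i j, i ≤ j → Z ^ 16 ^ i ≤ Z ^ 16 ^ j := fun i j h =>
    pow_le_pow_right₀ h3 (Nat.pow_le_pow_right (by norm_num) h)
  have hs : ∀ i, (Z ^ 16 ^ i) ^ 16 = Z ^ 16 ^ (i + 1) := fun i => by rw [← pow_mul, ← pow_succ]
  obtain ⟨i, hi, h4⟩ : ∃ i ∈ range (r + 1), ∀ u ∈ V, u ≤ Z ^ 16 ^ i ∨ (Z ^ 16 ^ i) ^ 16 < u := by
    by_contra hc
    push Not at hc
    choose! f hf1 hf2 hf3 using hc
    have h5 := card_le_card_of_injOn (s := range (r + 1)) (t := V) f (fun i hi => hf1 i hi)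
      fun i hi j hj e => by
        by_contra hne
        rcases lt_or_gt_of_ne hne with h | h
        · have := hm (i + 1) j h
          linarith [hf2 j hj, hf3 i hi, hs i]
        · have := hm (j + 1) i h
          linarith [hf2 i hi, hf3 j hj, hs j]
    rw [card_range] at h5
    omega
  have h5 : Z ≤ Z ^ 16 ^ i := by simpa using hm 0 i (Nat.zero_le i)
  refine ⟨Z ^ 16 ^ i, (le_max_left _ _).trans (h2.trans h5), ?_,
    pow_le_pow_left₀ hZ0 h5 _, h4⟩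
  rw [← pow_mul, show 256 = 16 ^ 2 by norm_num, ← pow_add]
  exact hm _ _ (by have := mem_range.1 hi; omega)

theorem clusters {n : ℕ} (x : Fin n → ℂ) (J : Finset (Fin n)) (hJ : J.Nonempty) {u w : ℝ}
    (hu : 1 ≤ u) (huw : u ^ 2 ≤ w) (h : ∀ k ∈ J, ∀ l ∈ J, ∀ d : ℕ, 0 < d → (d : ℝ) ≤ w →
      Ig d (x k) (x l) → ∃ d' : ℕ, 0 < d' ∧ (d' : ℝ) ≤ u ∧ Ig d' (x k) (x l)) :
    ∃ (r : ℕ) (cr : Fin (r + 1) → Fin n) (bs : Fin n → Fin (r + 1)) (dg : Fin n → ℕ), r < n ∧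
      (∀ c, cr c ∈ J) ∧ (∀ c, bs (cr c) = c) ∧
      (∀ k ∈ J, 0 < dg k ∧ (dg k : ℝ) ≤ u ∧ Ig (dg k) (x k) (x (cr (bs k)))) ∧
      ∀ c c', c ≠ c' → ∀ d : ℕ, 0 < d → (d : ℝ) ≤ w → ¬ Ig d (x (cr c)) (x (cr c')) := by
  let ρ : Fin n → Fin n → Prop := fun k l => ∃ d' : ℕ, 0 < d' ∧ (d' : ℝ) ≤ u ∧ Ig d' (x k) (x l)
  have r1 : ∀ k, ρ k k := fun k => by
    obtain ⟨t, ht⟩ := jInv_surj (x k)
    exact ⟨1, one_pos, by simpa using hu, t, 1, by simp, by rw [act_one, ht], ht⟩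
  have r2 : ∀ k l, ρ k l → ρ l k := fun k l ⟨d, h1, h2, h3⟩ => ⟨d, h1, h2, h3.symm h1⟩
  have r3 : ∀ k ∈ J, ∀ l, ∀ m ∈ J, ρ k l → ρ l m → ρ k m := by
    rintro k hk l m hm ⟨d, h1, h2, h3⟩ ⟨d', h4, h5, h6⟩
    refine h k hk m hm (d * d') (Nat.mul_pos h1 h4) (le_trans ?_ huw) (h3.trans h1 h4 h6)
    push_cast
    rw [sq]
    exact mul_le_mul h2 h5 (Nat.cast_nonneg _) (by linarith)
  have : Nonempty (Fin n) := ⟨hJ.choose⟩
  obtain ⟨rep, p1, p2⟩ : ∃ rep : Fin n → Fin n, (∀ k ∈ J, rep k ∈ J ∧ ρ k (rep k)) ∧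
      ∀ k ∈ J, ∀ l ∈ J, ρ k l → rep k = rep l := by
    refine ⟨fun k => Classical.epsilon fun l => l ∈ J ∧ ρ k l, fun k hk =>
      Classical.epsilon_spec (p := fun l => l ∈ J ∧ ρ k l) ⟨k, hk, r1 k⟩, fun k hk l hl hkl => ?_⟩
    refine congrArg Classical.epsilon (funext fun m => propext (and_congr_right fun hm => ?_))
    exact ⟨r3 l hl k m hm (r2 _ _ hkl), r3 k hk l m hm hkl⟩
  obtain ⟨r, hr⟩ : ∃ r, #(J.image rep) = r + 1 :=
    Nat.exists_eq_succ_of_ne_zero (hJ.image rep).card_pos.ne'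
  let ε := (J.image rep).equivFinOfCardEq hr
  have p3 : ∀ z ∈ J.image rep, z ∈ J ∧ rep z = z := by
    intro z hz
    obtain ⟨k, hk, rfl⟩ := mem_image.1 hz
    exact ⟨(p1 k hk).1, (p2 k hk _ (p1 k hk).1 (p1 k hk).2).symm⟩
  choose! dg g1 g2 g3 using fun k (hk : k ∈ J) => (p1 k hk).2
  refine ⟨r, fun c => (ε.symm c).1,
    fun k => if hk : k ∈ J then ε ⟨rep k, mem_image_of_mem _ hk⟩ else 0, dg, ?_,
    fun c => (p3 _ (ε.symm c).2).1, fun c => ?_, fun k hk => ⟨g1 k hk, g2 k hk, ?_⟩,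
    fun c c' hne d hd hw hI => hne (ε.symm.injective (Subtype.ext ?_))⟩
  · have := card_le_univ (J.image rep)
    rw [Fintype.card_fin] at this
    omega
  · obtain ⟨h1, h2⟩ := p3 _ (ε.symm c).2
    simp only [dif_pos h1, h2, Subtype.coe_eta, Equiv.apply_symm_apply]
  · simp only [dif_pos hk, Equiv.symm_apply_apply]
    exact g3 k hk
  · obtain ⟨h1, h2⟩ := p3 _ (ε.symm c).2
    obtain ⟨h3, h4⟩ := p3 _ (ε.symm c').2
    rw [← h2, ← h4]
    exact p2 _ h1 _ h3 (h _ h1 _ h3 d hd hw hI)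

theorem xta_bad {Z : ℤ} (hZ : Z ≠ 0) {B : ℝ} (hB : (Z.natAbs : ℝ) ≤ Real.exp B) (S : Finset ℕ)
    (hS : ∀ p ∈ S, p.Prime ∧ 3 ≤ p ∧ (p : ℤ) ∣ Z) : (#S : ℝ) ≤ B := by
  have h1 : ∏ p ∈ S, p ∣ Z.natAbs := Finset.prod_primes_dvd _ (fun p hp => (hS p hp).1.prime)
    fun p hp => Int.natCast_dvd.1 (hS p hp).2.2
  have h2 := (pow_card_le_prod S (fun p => p) 3 fun p hp => (hS p hp).2.1).trans
    (Nat.le_of_dvd (Int.natAbs_pos.2 hZ) h1)
  have h3 : (3 : ℝ) ^ #S ≤ Real.exp B := le_trans (by exact_mod_cast h2) hB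
  have h4 : Real.exp 1 ^ #S ≤ 3 ^ #S :=
    pow_le_pow_left₀ (Real.exp_pos 1).le (Real.exp_one_lt_d9.le.trans (by norm_num)) _
  rw [← Real.exp_nat_mul, mul_one] at h4
  exact Real.exp_le_exp.1 (h4.trans h3)

theorem xta_ceil {T : ℝ} (hT : 1 ≤ T) (k : ℕ) : ∃ m : ℕ, T ^ k ≤ m ∧ (m : ℝ) ≤ 2 * T ^ k := by
  have := one_le_pow₀ (n := k) hT
  exact ⟨⌈T ^ k⌉₊, Nat.le_ceil _, (Nat.ceil_lt_add_one (by positivity)).le.trans (by linarith)⟩

theorem exists_setup (n N e A : ℕ) (hN : 0 < N) (he : 0 < e) : ∃ a : ℕ, ∀ T₀ : ℝ, ∃ X₀ : ℝ,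
    ∀ (τ : Fin n → ℍ) (D : Fin n → ℤ) (I : Finset (Fin n)) (d : ℤ) (L : ℝ) (m₀ : ℕ),
      (∀ k, HasDisc (τ k) (D k)) → (∀ k, D k < -576) → (∀ k ∈ I, ∃ f : ℤ, D k = f ^ 2 * d) →
      Many A d.natAbs → (∀ k ∈ I, Low L (D k)) → (∃ k ∈ I, X₀ ≤ -(D k : ℝ)) →
      (∀ k ∈ I, ∀ l ∈ I, k ≠ l → ∀ g : ℕ, 0 < g → g ≤ m₀ → ¬ Ig g (jInv (τ k)) (jInv (τ l))) →
      ∃ (r : ℕ) (s : Shp n (Fin (r + 1))) (v : VD n) (T : ℝ) (y : ℕ), r < n ∧ s.N = N ∧
        s.e = e ∧ s.I = I ∧ v.τ = τ ∧ v.D = D ∧ T₀ ≤ T ∧ s.Ok v L T a m₀ y := by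
  refine ⟨16 ^ (n + n ^ 2 + 2) * (3 * A + 1), fun T₀ => ?_⟩
  generalize ha : 16 ^ (n + n ^ 2 + 2) * (3 * A + 1) = a
  obtain ⟨X₁, hW⟩ := window (n + n ^ 2) (max T₀ (max 100 (3 * (a + 1).factorial)))
  obtain ⟨X₂, hP⟩ := pool A (2 * n + 3)
  refine ⟨Real.exp (max (2 * N ^ 3) (max X₁ X₂)),
    fun τ D I d L m₀ hD hbig hf hM hlow ⟨k₁, hk₁, hX⟩ hno => ?_⟩
  have hpos : ∀ k, (0 : ℝ) < -(D k : ℝ) := fun k => by
    have : (D k : ℝ) < -576 := by exact_mod_cast hbig k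
    linarith
  obtain ⟨k₀, hk₀, hmax⟩ := exists_max_image I (fun k => Real.log (-(D k : ℝ))) ⟨k₁, hk₁⟩
  generalize hXd : Real.log (-(D k₀ : ℝ)) = X at hmax
  have hX' : max (2 * (N : ℝ) ^ 3) (max X₁ X₂) ≤ X :=
    ((Real.le_log_iff_exp_le (hpos k₁)).2 hX).trans (hmax k₁ hk₁)
  simp only [max_le_iff] at hX'
  obtain ⟨hXN, hX1, hX2⟩ := hX'
  have hDX : ∀ k ∈ I, -(D k : ℝ) ≤ Real.exp X := fun k hk =>
    (Real.log_le_iff_le_exp (hpos k)).1 (hmax k hk)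
  let dgm : Fin n × Fin n → ℕ := fun p => sInf {g | 0 < g ∧ Ig g (jInv (τ p.1)) (jInv (τ p.2))}
  obtain ⟨T, hT0, hT1, hT2, hT3⟩ := hW X (I.image (fun k => Real.log (-(D k : ℝ))) ∪
      univ.image fun p => Real.log (dgm p)) hX1 (by
    refine (card_union_le _ _).trans (Nat.add_le_add (card_image_le.trans ?_) (card_image_le.trans ?_))
    · simpa using card_le_univ I
    · simp [sq])
  simp only [max_le_iff] at hT0
  obtain ⟨hT0, hT4, hT5⟩ := hT0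
  have hT6 : (1 : ℝ) ≤ T := by linarith
  have hpw : ∀ i j, i ≤ j → T ^ i ≤ T ^ j := fun i j h => pow_le_pow_right₀ hT6 h
  have hT7 : 100 * T ^ 12 ≤ X := by
    have h1 := hpw 13 256 (by norm_num)
    have h2 : 0 ≤ T ^ 12 := by positivity
    nlinarith
  have hT8 : T ≤ T ^ 12 := by simpa using hpw 1 12 (by norm_num)
  have hT9 := hpw 2 12 (by norm_num)
  let J := I.filter fun k => T < Real.log (-(D k : ℝ))
  have hk₀J : k₀ ∈ J := mem_filter.2 ⟨hk₀, by rw [hXd]; linarith⟩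
  have hJI : J ⊆ I := filter_subset _ _
  obtain ⟨r, cr, bs, dg, hr, c1, c2, c3, c4⟩ := clusters (fun k => jInv (τ k)) J ⟨k₀, hk₀J⟩
    (u := Real.exp T) (w := Real.exp (T ^ 16)) (Real.one_le_exp (by linarith))
    (by
      rw [← Real.exp_nat_mul, Real.exp_le_exp]
      have := hpw 2 16 (by norm_num)
      push_cast
      nlinarith)
    (fun k _ l _ g hg hw hI => by
      have h1 : dgm (k, l) ∈ {g | 0 < g ∧ Ig g (jInv (τ k)) (jInv (τ l))} :=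
        Nat.sInf_mem ⟨g, hg, hI⟩
      have h2 : dgm (k, l) ≤ g := Nat.sInf_le ⟨hg, hI⟩
      have h3 : (0 : ℝ) < dgm (k, l) := by exact_mod_cast h1.1
      refine ⟨_, h1.1, (Real.log_le_iff_le_exp h3).1 ?_, h1.2⟩
      refine (hT3 _ (mem_union_right _ (mem_image_of_mem _ (mem_univ (k, l))))).resolve_right ?_
      exact not_lt.2 ((Real.log_le_iff_le_exp h3).2 (le_trans (by exact_mod_cast h2) hw)))
  choose! f hf using hf
  have hf0 : ∀ k ∈ I, 0 < (f k).natAbs := fun k hk => Int.natAbs_pos.2 fun e => by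
    have := hbig k
    rw [hf k hk, e] at this
    simp at this
  have hd0 : d < 0 := by
    have := hbig k₀
    rw [hf k₀ hk₀] at this
    by_contra hc
    have := mul_nonneg (sq_nonneg (f k₀)) (not_lt.1 hc)
    omega
  have hdc : -(d.natAbs : ℤ) = d := by omega
  have habs : ∀ k ∈ I, ((f k).natAbs : ℝ) ^ 2 * d.natAbs ≤ Real.exp X := fun k hk => by
    have h1 : (((f k).natAbs : ℤ) ^ 2 * d.natAbs : ℤ) = -D k := by
      rw [hf k hk, Int.natAbs_sq]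
      linear_combination -(f k ^ 2) * hdc
    have h2 : ((f k).natAbs : ℝ) ^ 2 * d.natAbs = -(D k : ℝ) := by
      have h3 := congrArg (Int.cast : ℤ → ℝ) h1
      simpa only [Int.cast_mul, Int.cast_pow, Int.cast_natCast, Int.cast_neg] using h3
    exact h2 ▸ hDX k hk
  have hd1 : (1 : ℝ) ≤ d.natAbs := by exact_mod_cast Int.natAbs_pos.2 hd0.ne
  have hdX : (d.natAbs : ℝ) ≤ Real.exp X := by
    have h1 : (1 : ℝ) ≤ (f k₀).natAbs := by exact_mod_cast hf0 k₀ hk₀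
    exact le_trans (le_mul_of_one_le_left (by linarith) (one_le_pow₀ h1)) (habs k₀ hk₀)
  obtain ⟨y, y1, y2, y3⟩ := hP X d.natAbs hX2 ((Real.log_le_iff_le_exp (by linarith)).2 hdX) hM
  obtain ⟨F, hF⟩ : ∃ F : ℕ, F = ∏ k ∈ I, (f k).natAbs := ⟨_, rfl⟩
  obtain ⟨E, hE⟩ : ∃ E : ℤ, E = ((N * F : ℕ) : ℤ) ^ 2 * d := ⟨_, rfl⟩
  have hfit : ∀ k ∈ I, Fit E (N ^ 2 * D k) := fun k hk => by
    refine ⟨∏ l ∈ I.erase k, (f l).natAbs, prod_pos fun l hl => hf0 l (mem_of_mem_erase hl), ?_⟩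
    rw [hE, hF, ← mul_prod_erase I _ hk, hf k hk, ← Int.natAbs_sq (f k)]
    generalize ∏ l ∈ I.erase k, (f l).natAbs = G
    push_cast
    ring
  obtain ⟨hEI, hEb⟩ : IsD E ∧ E < -576 := by
    obtain ⟨g, hg, e⟩ := (hfit k₀ hk₀).trans (fit_sq hN _)
    rw [e]
    refine ⟨galA2_isD (hD k₀).isD hg, ?_⟩
    have h1 : (1 : ℤ) ≤ (g : ℤ) ^ 2 := one_le_pow₀ (by exact_mod_cast hg)
    nlinarith [hbig k₀]
  obtain ⟨dd, hdd⟩ : ∃ dd : ℕ, dd = ∏ k ∈ J, dg k := ⟨_, rfl⟩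
  have hdd0 : 0 < dd := hdd ▸ prod_pos fun k hk => (c3 k hk).1
  have he1 : 1 ≤ Real.exp X := Real.one_le_exp (by linarith)
  have hprod : ∀ (S : Finset (Fin n)) (g : Fin n → ℝ), (∀ k ∈ S, 0 ≤ g k ∧ g k ≤ Real.exp X) →
      ∏ k ∈ S, g k ≤ Real.exp X ^ n := fun S g hg => by
    refine (prod_le_prod (fun k hk => (hg k hk).1) fun k hk => (hg k hk).2).trans ?_
    rw [prod_const]
    exact pow_le_pow_right₀ he1 (by simpa using card_le_univ S)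
  have hZ : (((2 * N * E * dd : ℤ).natAbs : ℕ) : ℝ) ≤ Real.exp ((2 * n + 2) * X) := by
    have h1 : (F : ℝ) ^ 2 ≤ Real.exp X ^ n := by
      rw [hF]
      push_cast
      rw [← prod_pow]
      refine hprod _ _ fun k hk => ⟨sq_nonneg _, le_trans ?_ (habs k hk)⟩
      exact le_mul_of_one_le_right (sq_nonneg _) hd1
    have h2 : (dd : ℝ) ≤ Real.exp X ^ n := by
      rw [hdd]
      push_cast
      exact hprod _ _ fun k hk => ⟨Nat.cast_nonneg _,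
        (c3 k hk).2.1.trans (Real.exp_le_exp.2 (by linarith))⟩
    have h3 : 2 * (N : ℝ) ^ 3 ≤ Real.exp X := hXN.trans (by linarith [Real.add_one_le_exp X])
    have h4 : (2 * N * E * dd : ℤ).natAbs = 2 * N ^ 3 * (F ^ 2 * (d.natAbs * dd)) := by
      rw [hE]
      simp only [Int.natAbs_mul, Int.natAbs_pow, Int.natAbs_natCast, Int.reduceAbs]
      ring
    have h5 : Real.exp ((2 * n + 2) * X) =
        Real.exp X * (Real.exp X ^ n * (Real.exp X * Real.exp X ^ n)) := by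
      rw [show (2 * n + 2 : ℝ) = ((2 * n + 2 : ℕ) : ℝ) by push_cast; ring, Real.exp_nat_mul]
      ring
    rw [h4, h5]
    simp only [Nat.cast_mul, Nat.cast_pow, Nat.cast_ofNat]
    gcongr
  have hZ0 : (2 * N * E * dd : ℤ) ≠ 0 := by
    have h1 : E ≠ 0 := by omega
    positivity
  have hy3 : 3 ≤ y := by
    have : (3 : ℝ) ≤ y := by linarith
    exact_mod_cast this
  generalize hQ : ({p ∈ Ioc y (2 * y) | p.Prime ∧ jacobiSym (-(d.natAbs : ℤ)) p = 1} : Finset ℕ) = Q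
    at y3
  have hQ' : ∀ p ∈ Q, p.Prime ∧ y < p ∧ p ≤ 2 * y ∧ jacobiSym d p = 1 := fun p hp => by
    rw [← hQ, mem_filter, mem_Ioc, hdc] at hp
    exact ⟨hp.2.1, hp.1.1, hp.1.2, hp.2.2⟩
  have hbad := xta_bad hZ0 hZ (Q.filter fun p => (p : ℤ) ∣ 2 * N * E * dd) fun p hp => by
    obtain ⟨h1, h2⟩ := mem_filter.1 hp
    exact ⟨(hQ' p h1).1, by have := (hQ' p h1).2.1; omega, h2⟩
  have hsum := card_filter_add_card_filter_not (s := Q) fun p : ℕ => (p : ℤ) ∣ 2 * N * E * dd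
  generalize hG : (Q.filter fun p : ℕ => ¬ (p : ℤ) ∣ 2 * N * E * dd) = G at hsum
  have hG' : ∀ p ∈ G, p ∈ Q ∧ ¬ (p : ℤ) ∣ 2 * N * E * dd := fun p hp => by
    rw [← hG] at hp
    exact mem_filter.1 hp
  have hGX : X ≤ #G := by
    have h1 : (#(Q.filter fun p : ℕ => (p : ℤ) ∣ 2 * N * E * dd) : ℝ) + #G = #Q := by
      exact_mod_cast hsum
    linarith
  obtain ⟨m₁, m1, m2⟩ := xta_ceil hT6 12
  obtain ⟨M, m3, m4⟩ := xta_ceil hT6 2
  have hcard : m₁ + (M + M) ≤ #G := by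
    have : (m₁ : ℝ) + (M + M) ≤ #G := by linarith
    exact_mod_cast this
  obtain ⟨P, hPG, hPc⟩ := exists_subset_card_eq (s := G) (n := m₁) (by omega)
  obtain ⟨j⟩ := Function.Embedding.nonempty_of_card_le (α := Fin M ⊕ Fin M) (β := ↥(G \ P)) (by
    rw [Fintype.card_sum, Fintype.card_fin, Fintype.card_coe, card_sdiff_of_subset hPG]
    omega)
  have hj : ∀ z, (j z).1 ∈ G ∧ (j z).1 ∉ P := fun z => mem_sdiff.1 (j z).2
  have hjj : ∀ z z', (j z).1 = (j z').1 → z = z' := fun z z' e => j.injective (Subtype.ext e)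
  obtain ⟨b, hb⟩ := exists_root hEI G (fun p hp => by
    obtain ⟨h1, h2⟩ := hG' p hp
    obtain ⟨h3, h4, -, h5⟩ := hQ' p h1
    refine ⟨h3, by omega, ?_⟩
    rw [hE, jacobiSym.mul_left, h5, mul_one]
    refine jacobiSym.sq_one' ?_
    rw [Int.gcd_natCast_natCast]
    refine ((Nat.Prime.coprime_iff_not_dvd h3).2 fun h6 => h2 ?_).symm
    refine Dvd.dvd.mul_right (Dvd.dvd.mul_left ?_ _) _
    rw [hE, sq]
    exact ((Int.natCast_dvd_natCast.2 h6).mul_right _).mul_right _) (2 * e * (M + 1) + 1)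
  have hdv : ∀ W : ℕ, W ∣ ∏ p ∈ G, p ^ (2 * e * (M + 1) + 1) → (4 * W : ℤ) ∣ b ^ 2 - E :=
    fun W h => (mul_dvd_mul_left 4 (Int.natCast_dvd_natCast.2 h)).trans hb
  have hyT : (y : ℝ) ≤ T ^ a := by
    refine y2.trans ((pow_le_pow_left₀ (by linarith) hT2 _).trans ?_)
    rw [← pow_mul]
    exact hpw _ _ (ha ▸ Nat.mul_le_mul_left _ (Nat.le_succ _))
  have hPm : ∀ p ∈ G, p.Prime ∧ y < p ∧ p ≤ 2 * y ∧ ¬ (p : ℤ) ∣ 2 * N * E * (∏ k ∈ J, dg k : ℕ) :=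
    fun p hp => by
      obtain ⟨h1, h2⟩ := hG' p hp
      obtain ⟨h3, h4, h5, -⟩ := hQ' p h1
      exact ⟨h3, h4, h5, hdd ▸ h2⟩
  refine ⟨r, ⟨N, e, I, J, cr, bs, hJI, c1, c2⟩,
    ⟨τ, D, dg, E, b, P, M, fun i => (j (.inl i)).1, fun i => (j (.inr i)).1, M⟩, T, y, hr, rfl, rfl,
    rfl, rfl, rfl, hT0, hN, he, hT4, hD, hbig, hEb, fun k hk => hfit k (hJI hk),
    fun k hk => hlow k (hJI hk), fun k hk => ?_, fun k hk => ⟨?_, ?_⟩, c3, c4,
    fun k hk l hl => hno k (hJI hk) l (hJI hl), fun q hq => hPm q (hPG hq),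
    fun i => ⟨hPm _ (hj _).1, hPm _ (hj _).1, (hj _).2, (hj _).2⟩,
    ⟨fun i i' h => Sum.inl_injective (hjj _ _ h), fun i i' h => Sum.inr_injective (hjj _ _ h),
      fun i i' h => Sum.inl_ne_inr (hjj _ _ h)⟩, hdv _ ?_, fun i => ?_, hT1.trans y1, hyT, ?_,
    ⟨by rw [hPc]; exact m1, by rw [hPc]; exact m2⟩, ⟨m3, m4⟩, ⟨m3, m4⟩⟩
  · obtain ⟨h1, h2⟩ := mem_sdiff.1 hk
    exact (Real.log_le_iff_le_exp (hpos k)).1 (not_lt.1 fun h => h2 (mem_filter.2 ⟨h1, h⟩))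
  · refine (Real.le_log_iff_exp_le (hpos k)).1 (le_of_lt ?_)
    exact (hT3 _ (mem_union_left _ (mem_image_of_mem _ (hJI hk)))).resolve_left
      (not_le.2 (mem_filter.1 hk).2)
  · refine (hmax k (hJI hk)).trans (hT2.trans (hpw _ _ ?_))
    exact ha ▸ Nat.le_mul_of_pos_right _ (Nat.succ_pos _)
  · exact (prod_dvd_prod_of_dvd _ _ fun p _ => dvd_pow_self p (Nat.succ_ne_zero _)).trans
      (prod_dvd_prod_of_subset _ _ _ hPG)
  · have h1 := hdv (((j (.inl i)).1 ^ M * (j (.inr i)).1) ^ (2 * e)) (by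
      refine Dvd.dvd.trans ?_ (prod_dvd_prod_of_subset {(j (.inl i)).1, (j (.inr i)).1} _ _ (by
        intro p hp
        rcases mem_insert.1 hp with rfl | hp
        · exact (hj _).1
        · exact mem_singleton.1 hp ▸ (hj _).1))
      rw [prod_pair fun h => Sum.inl_ne_inr (hjj _ _ h), mul_pow, ← pow_mul]
      exact mul_dvd_mul (pow_dvd_pow _ (by nlinarith)) (pow_dvd_pow _ (by nlinarith)))
    rwa [Nat.cast_pow] at h1
  · have h1 := Real.pow_div_factorial_le_exp T (by linarith) (a + 1)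
    have h2 : (0 : ℝ) < (a + 1).factorial := by exact_mod_cast Nat.factorial_pos _
    have h3 := one_le_pow₀ (n := a) hT6
    have h4 : 3 * T ^ a ≤ T ^ (a + 1) / (a + 1).factorial := by
      rw [le_div_iff₀ h2, pow_succ]
      nlinarith
    linarith

end Pool.Agent.EQ
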