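import Pool.Agent.K.MP_ad7a55_nt.C55
import Pool.Agent.K.MP_ad7a55_nt.C71
import Pool.Agent.K.MP_ad7a55_nt.C78
import Pool.Agent.K.MP_ad7a55_nt.C77
import Pool.Agent.K.MP_ad7a55_nt.C16
import Pool.Agent.K.MP_ad7a55_nt.C72
import Pool.Agent.K.MP_ad7a55_nt.C42

-- part Pool.Agent.P.MP_ad7a55_nt.YUd
section

/-! Hecke averages of bounded functions. -/

set_option autoImplicit false

noncomputable section

open MeasureTheory Topology Filter UpperHalfPlane Finset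
open scoped MatrixGroups BoundedContinuousFunction Matrix Classical

namespace Pool.Agent.EQ

/-- Lipschitz functions. -/
def Lip (K : ℝ) (f : ℍ → ℝ) : Prop := ∀ z w, |f z - f w| ≤ K * dist z w

/-- The mean of finitely many functions. -/
def mnB {α : Type} (O : Finset α) (F : α → (ℍ →ᵇ ℝ)) : ℍ →ᵇ ℝ := (#O : ℝ)⁻¹ • ∑ x ∈ O, F x

/-- Matrices with all kernels, scalar modulo the level. -/
def IsR (n M : ℕ) (s : ℤ) (ρ : Set V2 → M2) : Prop :=
  ∀ L ∈ Xn n, (ρ L).det = n ∧ Ker n (ρ L) = L ∧ Cg M (ρ L) s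

/-- The Hecke average. -/
def HK (n : ℕ) (ρ : Set V2 → M2) (f : ℍ →ᵇ ℝ) : ℍ →ᵇ ℝ := mnB (Xn n) fun L => cact f (ρ L)

/-- Mean zero over `Γ(R)`. -/
def ZM (R M : ℕ) (f : ℍ → ℝ) : Prop := ∀ z, mn (cs R M) (fun c => f (c.out • z)) = 0

variable {α : Type} {n M N : ℕ} {s : ℤ} {ρ : Set V2 → M2} {f g : ℍ →ᵇ ℝ} {K B : ℝ}

theorem mnB_apply (O : Finset α) (F : α → (ℍ →ᵇ ℝ)) (z : ℍ) :
    mnB O F z = mn O fun x => F x z := by
  unfold mnB mn
  rw [BoundedContinuousFunction.coe_smul, div_eq_inv_mul]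
  simp only [BoundedContinuousFunction.sum_apply, smul_eq_mul]

theorem IN_mnB (hM : 0 < M) (O : Finset α) (F : α → (ℍ →ᵇ ℝ)) :
    IN M (mnB O F) = mn O fun x => IN M (F x) := by
  unfold mnB mn
  rw [xkf_IN_smul, xkf_IN_sum hM, div_eq_inv_mul]

theorem IN_mono (hM : 0 < M) (h : ∀ z, f z ≤ g z) : IN M f ≤ IN M g := by
  have : NeZero M := ⟨hM.ne'⟩
  have := mH_prob (Γ := CongruenceSubgroup.Gamma M)
  exact integral_mono (f.integrable _) (g.integrable _) h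

theorem IN_add (hM : 0 < M) (f g : ℍ →ᵇ ℝ) : IN M (f + g) = IN M f + IN M g := by
  have : NeZero M := ⟨hM.ne'⟩
  have := mH_prob (Γ := CongruenceSubgroup.Gamma M)
  exact integral_add (f.integrable _) (g.integrable _)

theorem IN_smul (M : ℕ) (c : ℝ) (f : ℍ →ᵇ ℝ) : IN M (c • f) = c * IN M f := by
  exact xkf_IN_smul M c f

theorem IN_const (hM : 0 < M) (c : ℝ) : IN M (BoundedContinuousFunction.const ℍ c) = c := by
  have : NeZero M := ⟨hM.ne'⟩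
  have := mH_prob (Γ := CongruenceSubgroup.Gamma M)
  unfold IN
  simp

theorem yud_sq (hM : 0 < M) (f : ℍ →ᵇ ℝ) : 0 ≤ IN M (f * f) := by
  rw [← IN_const hM 0]
  exact IN_mono hM fun z => mul_self_nonneg (f z)

theorem IN_cs (hM : 0 < M) (f g : ℍ →ᵇ ℝ) : IN M (f * g) ^ 2 ≤ IN M (f * f) * IN M (g * g) := by
  have h : ∀ x : ℝ, 0 ≤ IN M (f * f) * (x * x) + 2 * IN M (f * g) * x + IN M (g * g) := by
    intro x
    have e : (x • f + g) * (x • f + g) = (x * x) • (f * f) + (2 * x) • (f * g) + g * g := by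
      ext z
      simp only [BoundedContinuousFunction.mul_apply, BoundedContinuousFunction.add_apply,
        BoundedContinuousFunction.smul_apply, smul_eq_mul]
      ring
    have h1 := yud_sq hM (x • f + g)
    rw [e, IN_add hM, IN_add hM, IN_smul, IN_smul] at h1
    linarith
  have h2 := discrim_le_zero h
  unfold discrim at h2
  linarith

theorem IN_abs_sq (hM : 0 < M) (f : ℍ →ᵇ ℝ) : IN M |f| ^ 2 ≤ IN M (f * f) := by
  have h := IN_cs hM |f| (BoundedContinuousFunction.const ℍ 1)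
  have e1 : |f| * BoundedContinuousFunction.const ℍ (1 : ℝ) = |f| := by
    ext z
    simp
  have e2 : BoundedContinuousFunction.const ℍ (1 : ℝ) * BoundedContinuousFunction.const ℍ 1 =
      BoundedContinuousFunction.const ℍ 1 := by
    ext z
    simp
  have e3 : |f| * |f| = f * f := by
    ext z
    exact abs_mul_abs_self (f z)
  rwa [e1, e2, e3, IN_const hM, mul_one] at h

theorem IN_fd (hM : 0 < M) (h : ∀ (γ : SL(2, ℤ)) z, f (γ • z) = f z) :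
    IN M f = ∫ z, f z ∂ProbabilityTheory.cond volume ModularGroup.fd := by
  have : NeZero M := ⟨hM.ne'⟩
  have := (CongruenceSubgroup.Gamma M).fintypeQuotientOfFiniteIndex
  have h0 : ((CongruenceSubgroup.Gamma M).index : ℝ) ≠ 0 := by
    exact_mod_cast Subgroup.FiniteIndex.index_ne_zero
  unfold IN
  rw [integral_mH]
  simp only [h]
  rw [finsum_eq_sum_of_fintype, Finset.sum_const, Finset.card_univ, nsmul_eq_mul,
    ← Nat.card_eq_fintype_card, ← Subgroup.index_eq_card, ← mul_assoc, inv_mul_cancel₀ h0, one_mul]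

theorem ginv_cact (h : GInv N f) {ξ : M2} (hξ : 0 < ξ.det) (hM : N * ξ.det.natAbs ∣ M) :
    GInv M (cact f ξ) := by
  exact GInv.mono hM (h.act hξ)

theorem IN_cact (hN : 0 < N) (hM : 0 < M) (h : GInv N f) {ξ : M2} (hξ : 0 < ξ.det)
    (hd : N * ξ.det.natAbs ∣ M) : IN M (cact f ξ) = IN N f := by
  have key : ∀ ε : ℝ, 0 < ε → |IN M (cact f ξ) - IN N f| ≤ ε := by
    intro ε hε
    obtain ⟨m, -, hm⟩ := heck (ι := Unit) hN (fun _ => f) (fun _ => h) {()} hε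
    have h1 := hm id (fun _ => ξ) M hM (fun _ => ⟨hξ, hd⟩) fun k _ l _ hkl =>
      absurd (Subsingleton.elim k l) hkl
    simpa [Finset.filter_singleton] using h1
  exact sub_eq_zero.1 (abs_nonpos_iff.1 (le_of_forall_pos_le_add fun ε hε => by
    simpa using key ε hε))

theorem Lip.cact (h : Lip K f) (ξ : M2) : Lip K (cact f ξ) := by
  intro z w
  rw [cact_apply, cact_apply]
  by_cases hξ : 0 < ξ.det
  · rw [← dist_act hξ z w]
    exact h _ _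
  · simp only [act, dif_neg hξ]
    exact h _ _

theorem yud_sub (O : Finset α) (G G' : α → ℝ) :
    mn O G - mn O G' = mn O fun x => G x - G' x := by
  unfold mn
  rw [Finset.sum_sub_distrib, sub_div]

theorem yud_congr {O : Finset α} {G G' : α → ℝ} (h : ∀ x ∈ O, G x = G' x) : mn O G = mn O G' := by
  unfold mn
  rw [Finset.sum_congr rfl h]

theorem Lip.mnB (hK : 0 ≤ K) {O : Finset α} {F : α → (ℍ →ᵇ ℝ)} (h : ∀ x ∈ O, Lip K (F x)) :
    Lip K (mnB O F) := by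
  intro z w
  rw [mnB_apply, mnB_apply, yud_sub]
  exact xkf_mn_le (mul_nonneg hK dist_nonneg) fun x hx => h x hx z w

theorem Lip.prod (hK : 0 ≤ K) {O : Finset α} {F : α → (ℍ →ᵇ ℝ)}
    (h : ∀ x ∈ O, Lip K (F x) ∧ ∀ z, |F x z| ≤ 1) : Lip (#O * K) (∏ x ∈ O, F x : ℍ →ᵇ ℝ) := by
  intro z w
  rw [BoundedContinuousFunction.prod_apply, BoundedContinuousFunction.prod_apply]
  induction O using Finset.induction_on with
  | empty => simp
  | insert i S hi ih =>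
    have ih' := ih fun x hx => h x (Finset.mem_insert_of_mem hx)
    obtain ⟨a1, a2⟩ := h i (Finset.mem_insert_self i S)
    rw [Finset.prod_insert hi, Finset.prod_insert hi, Finset.card_insert_of_notMem hi]
    have h1 : |∏ j ∈ S, F j w| ≤ 1 := by
      rw [Finset.abs_prod]
      exact Finset.prod_le_one (fun j _ => abs_nonneg _) fun j hj =>
        (h j (Finset.mem_insert_of_mem hj)).2 w
    have e : F i z * ∏ j ∈ S, F j z - F i w * ∏ j ∈ S, F j w =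
        F i z * (∏ j ∈ S, F j z - ∏ j ∈ S, F j w) + (F i z - F i w) * ∏ j ∈ S, F j w := by ring
    have h2 := mul_le_mul (a2 z) ih' (abs_nonneg _) zero_le_one
    have h3 := mul_le_mul (a1 z w) h1 (abs_nonneg _) (mul_nonneg hK dist_nonneg)
    rw [e]
    refine (abs_add_le _ _).trans ?_
    rw [abs_mul, abs_mul]
    push_cast
    linarith

theorem Lip.eqC {f : ℍ → ℝ} (h : Lip K f) (hK : 0 < K) : EqC (fun ε => ε / K) f := by
  intro ε _ z w hd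
  refine (h z w).trans ?_
  rwa [le_div_iff₀ hK, mul_comm] at hd

theorem abs_mnB_le (hB : 0 ≤ B) {O : Finset α} {F : α → (ℍ →ᵇ ℝ)} {z : ℍ}
    (h : ∀ x ∈ O, |F x z| ≤ B) : |mnB O F z| ≤ B := by
  rw [mnB_apply]
  exact xkf_mn_le hB h

theorem yud_ent {η : M2} : Cg M η s ↔ (M : ℤ) ∣ η 0 0 - s ∧ (M : ℤ) ∣ η 0 1 ∧
    (M : ℤ) ∣ η 1 0 ∧ (M : ℤ) ∣ η 1 1 - s := by
  unfold Cg
  simp only [Fin.forall_fin_two, Matrix.sub_apply, Matrix.smul_apply, Matrix.one_apply_eq,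
    Matrix.one_apply_ne (show (0 : Fin 2) ≠ 1 by decide),
    Matrix.one_apply_ne (show (1 : Fin 2) ≠ 0 by decide), smul_eq_mul, mul_one, mul_zero,
    sub_zero, and_assoc]

theorem yud_det {η : M2} (h : Cg M η s) : (M : ℤ) ∣ η.det - s ^ 2 := by
  obtain ⟨⟨a, ha⟩, ⟨b, hb⟩, -, ⟨d, hd⟩⟩ := yud_ent.1 h
  refine ⟨a * η 1 1 + s * d - b * η 1 0, ?_⟩
  rw [Matrix.det_fin_two]
  linear_combination η 1 1 * ha + s * hd - η 1 0 * hb

theorem yud_adj {η : M2} (h : Cg M η s) : Cg M η.adjugate s := by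
  obtain ⟨a, b, c, d⟩ := yud_ent.1 h
  rw [yud_ent, Matrix.adjugate_fin_two]
  exact ⟨d, b.neg_right, c.neg_right, a⟩

theorem yud_pos (hn : 0 < n) {η : M2} (h : η.det = n) : 0 < η.det := by
  rw [h]
  exact_mod_cast hn

theorem act_eq_of_Ker {β : Type} {F : ℍ → β} (h : GInv M F) (hn : 0 < n) (hc : n.Coprime M)
    {η η' : M2} (h1 : η.det = n) (h2 : η'.det = n) (h3 : Ker n η ⊆ Ker n η') (h4 : Cg M η s)
    (h5 : Cg M η' s) (z : ℍ) : F (act η z) = F (act η' z) := by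
  have hs : IsCoprime s M := xkf_cop hc (h1 ▸ yud_det h4)
  obtain ⟨γ, rfl⟩ := exists_SL_of_Ker hn h1 h2 h3
  rw [act_mul (vact_SL_det γ) (yud_pos hn h1), act_SL]
  exact (h γ (Cg.gamma hs h4 h5) _).symm

theorem IsR.mono {M' : ℕ} (h : IsR n M s ρ) (hM : M' ∣ M) : IsR n M' s ρ := by
  intro L hL
  obtain ⟨a, b, c⟩ := h L hL
  exact ⟨a, b, c.mono hM⟩

theorem yud_apply (n : ℕ) (ρ : Set V2 → M2) (f : ℍ →ᵇ ℝ) (z : ℍ) :
    HK n ρ f z = mn (Xn n) fun L => f (act (ρ L) z) := mnB_apply _ _ z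

theorem yud_cop (γ : SL(2, ℤ)) (n : ℕ) : IsCoprime (γ : M2).det n := by
  rw [γ.det_coe]
  exact isCoprime_one_left

theorem yud_ne (hn : 0 < n) : (Xn n).Nonempty :=
  ⟨Ln n ![1, 0], (mem_Xn hn).2 ⟨![1, 0], isCoprime_one_left, rfl⟩⟩

theorem HK_smul (hn : 0 < n) (hc : n.Coprime M) (h : IsR n M s ρ) (hf : GInv M f)
    (γ : SL(2, ℤ)) (z : ℍ) : HK n ρ f (γ • z) = HK n ρ (cact f γ) z := by
  rw [yud_apply, yud_apply]
  unfold mn
  rw [← sum_Xn_pull hn (yud_cop γ n) fun L => cact f γ (act (ρ L) z)]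
  congr 1
  refine Finset.sum_congr rfl fun L hL => ?_
  obtain ⟨a1, a2, a3⟩ := h L hL
  obtain ⟨b1, b2, b3⟩ := h _ ((mem_Xn hn).2 (((mem_Xn hn).1 hL).pull hn (yud_cop γ n)))
  have c := a3.conj γ⁻¹
  rw [inv_inv] at c
  have d : (((γ⁻¹ : SL(2, ℤ)) : M2) * ρ L * (γ : M2)).det = n := by
    rw [Matrix.det_mul, Matrix.det_mul, γ.det_coe, γ⁻¹.det_coe, a1, one_mul, mul_one]
  have e := act_eq_of_Ker (hf.smul γ) hn hc d b1 (by
    rw [b2, mul_assoc, Ker_SL]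
    intro v hv
    rwa [mem_Ker_mul, a2] at hv) c b3 z
  beta_reduce at e ⊢
  rw [cact_apply, act_SL, ← e, mul_assoc, act_mul (vact_SL_det _) (by
    rw [Matrix.det_mul, γ.det_coe, mul_one]
    exact yud_pos hn a1), act_SL, smul_inv_smul, act_mul (yud_pos hn a1) (vact_SL_det γ), act_SL]

theorem HK_ginv (hn : 0 < n) (hc : n.Coprime M) (h : IsR n M s ρ) (hf : GInv M f) :
    GInv M (HK n ρ f) := by
  intro γ hγ z
  have e : cact f γ = f := by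
    ext w
    rw [cact_apply, act_SL]
    exact hf γ hγ w
  rw [HK_smul hn hc h hf, e]

theorem yud_dvd {η : M2} (h : η.det = n) (M : ℕ) : M * η.det.natAbs ∣ M * n := by
  rw [h, Int.natAbs_natCast]

theorem IN_HK (hn : 0 < n) (hM : 0 < M) (hc : n.Coprime M) (h : IsR n M s ρ) (hf : GInv M f) :
    IN M (HK n ρ f) = IN M f := by
  have hMn : 0 < M * n := Nat.mul_pos hM hn
  rw [← IN_level hM hMn (dvd_mul_right M n) (HK_ginv hn hc h hf), HK, IN_mnB hMn,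
    ← mn_const (yud_ne hn) (IN M f)]
  exact yud_congr fun L hL =>
    IN_cact hM hMn hf (yud_pos hn (h L hL).1) (yud_dvd (h L hL).1 M)

theorem yud_mul (hf : GInv M f) (hg : GInv M g) : GInv M (f * g : ℍ →ᵇ ℝ) := by
  intro γ hγ z
  rw [BoundedContinuousFunction.mul_apply, BoundedContinuousFunction.mul_apply, hf γ hγ, hg γ hγ]

theorem yud_HK_mul (n : ℕ) (ρ : Set V2 → M2) (f g : ℍ →ᵇ ℝ) :
    HK n ρ f * g = mnB (Xn n) fun L => cact f (ρ L) * g := by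
  ext z
  rw [BoundedContinuousFunction.mul_apply, yud_apply, mnB_apply, mul_comm, ← mn_mul]
  exact yud_congr fun L _ => mul_comm _ _

theorem yud_ind (hn : 0 < n) (hM : 0 < M) (hc : n.Coprime M) (h : IsR n M s ρ) (hf : GInv M f)
    (hg : GInv M g) {L L' : Set V2} (hL : L ∈ Xn n) (hL' : L' ∈ Xn n) :
    IN (M * n) (cact g (ρ L) * f) = IN (M * n) (cact g (ρ L') * f) := by
  have hMn : 0 < M * n := Nat.mul_pos hM hn
  obtain ⟨γ, hγ, e⟩ := line_trans_Gamma hn hM hc ((mem_Xn hn).1 hL) ((mem_Xn hn).1 hL')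
  obtain ⟨a1, a2, a3⟩ := h L hL
  obtain ⟨b1, b2, b3⟩ := h L' hL'
  have h1 : GInv (M * n) (cact g (ρ L) * f : ℍ →ᵇ ℝ) :=
    yud_mul (ginv_cact hg (yud_pos hn a1) (yud_dvd a1 M)) (hf.mono (dvd_mul_right M n))
  rw [← IN_cact hMn hMn h1 (vact_SL_det γ) (by rw [γ.det_coe]; simp)]
  congr 1
  ext z
  have c := a3.mul (xkf_cg hγ)
  rw [mul_one] at c
  rw [cact_apply, BoundedContinuousFunction.mul_apply, BoundedContinuousFunction.mul_apply,
    cact_apply, cact_apply, ← act_mul (yud_pos hn a1) (vact_SL_det γ), act_SL, hf γ hγ,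
    act_eq_of_Ker hg hn hc (by rw [Matrix.det_mul, γ.det_coe, mul_one, a1]) b1
      (by rw [Ker_mul_pl, a2, b2, e]) c b3]

theorem yud_flip (hn : 0 < n) (hM : 0 < M) (hc : n.Coprime M) (h : IsR n M s ρ) (hf : GInv M f)
    (hg : GInv M g) {L : Set V2} (hL : L ∈ Xn n) :
    IN (M * n) (cact f (ρ L) * g) = IN (M * n) (cact g (ρ L) * f) := by
  have hMn : 0 < M * n := Nat.mul_pos hM hn
  obtain ⟨a1, a2, a3⟩ := h L hL
  have d : (ρ L).adjugate.det = n := by rw [xla_det_adj, a1]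
  have hL' : Ker n (ρ L).adjugate ∈ Xn n :=
    (mem_Xn hn).2 (isLn_Ker_adj hn a1 (a2.symm ▸ (mem_Xn hn).1 hL))
  obtain ⟨b1, b2, b3⟩ := h _ hL'
  have h1 : GInv (M * n) (cact g (ρ L).adjugate * f : ℍ →ᵇ ℝ) :=
    yud_mul (ginv_cact hg (yud_pos hn d) (yud_dvd d M)) (hf.mono (dvd_mul_right M n))
  have h2 : GInv (M * n) (cact f (ρ L) * g : ℍ →ᵇ ℝ) :=
    yud_mul (ginv_cact hf (yud_pos hn a1) (yud_dvd a1 M)) (hg.mono (dvd_mul_right M n))
  have e1 : cact g (ρ (Ker n (ρ L).adjugate)) = cact g (ρ L).adjugate := by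
    ext z
    exact act_eq_of_Ker hg hn hc b1 d b2.le b3 (yud_adj a3) z
  rw [yud_ind hn hM hc h hf hg hL hL', e1,
    ← IN_cact hMn (Nat.mul_pos hMn hn) h1 (yud_pos hn a1) (yud_dvd a1 _),
    ← IN_level hMn (Nat.mul_pos hMn hn) (dvd_mul_right _ n) h2]
  congr 1
  ext z
  rw [cact_apply, BoundedContinuousFunction.mul_apply, BoundedContinuousFunction.mul_apply,
    cact_apply, cact_apply, ← act_mul (yud_pos hn d) (yud_pos hn a1), Matrix.adjugate_mul,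
    act_smul (by simp) (yud_pos hn a1).ne', act_one, mul_comm]

theorem HK_sym (hn : 0 < n) (hM : 0 < M) (hc : n.Coprime M) (h : IsR n M s ρ) (hf : GInv M f)
    (hg : GInv M g) : IN M (HK n ρ f * g) = IN M (f * HK n ρ g) := by
  have hMn : 0 < M * n := Nat.mul_pos hM hn
  rw [mul_comm f, ← IN_level hM hMn (dvd_mul_right M n) (yud_mul (HK_ginv hn hc h hf) hg),
    ← IN_level hM hMn (dvd_mul_right M n) (yud_mul (HK_ginv hn hc h hg) hf), yud_HK_mul,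
    yud_HK_mul, IN_mnB hMn, IN_mnB hMn]
  exact yud_congr fun L hL => yud_flip hn hM hc h hf hg hL

theorem yud_seq {b : ℕ → ℝ} (h0 : ∀ j, 0 ≤ b j) (h1 : b 0 ≤ 1)
    (h2 : ∀ j, b (j + 1) ^ 2 ≤ b j * b (j + 2)) (i : ℕ) : b 1 ^ (i + 1) ≤ b (i + 1) := by
  have key : ∀ j, b 1 * b j ≤ b (j + 1) := by
    intro j
    induction j with
    | zero => exact mul_le_of_le_one_right (h0 1) h1
    | succ j ih =>
      rcases (h0 (j + 1)).eq_or_lt with e | e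
      · rw [← e, mul_zero]
        exact h0 _
      · refine le_of_mul_le_mul_left ?_ e
        have h3 := mul_le_mul_of_nonneg_left (h2 j) (h0 1)
        have h4 := mul_le_mul_of_nonneg_right ih (h0 (j + 2))
        nlinarith
  induction i with
  | zero => simp
  | succ i ih =>
    rw [pow_succ']
    exact (mul_le_mul_of_nonneg_left ih (h0 1)).trans (key _)

theorem HK_pow (hn : 0 < n) (hM : 0 < M) (hc : n.Coprime M) (h : IsR n M s ρ) (hf : GInv M f)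
    (hb : ∀ z, |f z| ≤ 1) {i : ℕ} (hi : 0 < i) :
    IN M (HK n ρ f * HK n ρ f) ^ i ≤ IN M ((HK n ρ)^[i] f * (HK n ρ)^[i] f) := by
  have hG : ∀ j, GInv M ((HK n ρ)^[j] f) := by
    intro j
    induction j with
    | zero => exact hf
    | succ j ih =>
      rw [Function.iterate_succ_apply']
      exact HK_ginv hn hc h ih
  obtain ⟨k, rfl⟩ : ∃ k, i = k + 1 := ⟨i - 1, by omega⟩
  refine yud_seq (b := fun j => IN M ((HK n ρ)^[j] f * (HK n ρ)^[j] f)) (fun j => yud_sq hM _) ?_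
    (fun j => ?_) k
  · refine le_trans (IN_mono hM fun z => ?_) (IN_const hM 1).le
    exact (abs_mul_abs_self (f z)).symm.le.trans (mul_le_one₀ (hb z) (abs_nonneg _) (hb z))
  · have e := HK_sym hn hM hc h (hG j) (hG (j + 1))
    rw [← Function.iterate_succ_apply' (HK n ρ) j, ← Function.iterate_succ_apply' (HK n ρ)] at e
    rw [e]
    exact IN_cs hM _ _

theorem HK_iter (hn : 0 < n) (h : ∀ L ∈ Xn n, (ρ L).det = n) (f : ℍ →ᵇ ℝ) (i : ℕ) (z : ℍ) :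
    (HK n ρ)^[i] f z = mn (WK n i) fun t => f (act (wk ρ i t) z) := by
  induction i generalizing z with
  | zero =>
    have hne : (WK n 0).Nonempty := ⟨Fin.elim0, Fintype.mem_piFinset.2 fun j => j.elim0⟩
    rw [Function.iterate_zero_apply, ← mn_const hne (f z)]
    exact yud_congr fun t _ => by rw [wk, act_one]
  | succ i ih =>
    rw [Function.iterate_succ_apply', yud_apply, mn_WK]
    refine yud_congr fun L hL => ?_
    rw [ih]
    refine yud_congr fun t ht => ?_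
    have d : 0 < (wk ρ i t).det := by
      rw [wk_det h i ht]
      positivity
    rw [wk, Fin.tail_cons, Fin.cons_zero, act_mul d (yud_pos hn (h L hL))]

end Pool.Agent.EQ
end
end

-- part Pool.Agent.P.MP_ad7a55_nt.XDd
section

/-! Step A: the direction at a prime is correlated with the coarse data. -/

set_option autoImplicit false

noncomputable section

open MeasureTheory Topology Filter UpperHalfPlane Finset
open scoped MatrixGroups BoundedContinuousFunction Matrix Classical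

namespace Pool.Agent.EQ

theorem xdd_gam {N N' : ℕ} (h : N ∣ N') {γ : SL(2, ℤ)} (hγ : γ ∈ CongruenceSubgroup.Gamma N') :
    γ ∈ CongruenceSubgroup.Gamma N := by
  rw [CongruenceSubgroup.Gamma_mem] at hγ ⊢
  have e : ∀ x : ℤ, ZMod.castHom h (ZMod N) (x : ZMod N') = x := fun x => map_intCast _ x
  obtain ⟨h0, h1, h2, h3⟩ := hγ
  exact ⟨by rw [← e, h0, map_one], by rw [← e, h1, map_zero], by rw [← e, h2, map_zero],
    by rw [← e, h3, map_one]⟩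

theorem xdd_det (γ : SL(2, ℤ)) (X : M2) : ((γ : M2) * X).det = X.det := by
  rw [Matrix.det_mul, γ.det_coe, one_mul]

theorem xdd_act (γ : SL(2, ℤ)) {X : M2} (hX : 0 < X.det) (τ : ℍ) :
    act ((γ : M2) * X) τ = γ • act X τ := by
  rw [act_mul (by rw [γ.det_coe]; exact one_pos) hX, act_SL]

theorem xdd_out {N : ℕ} {φ : ℍ → ℝ} (hφ : GInv N φ) (g : SL(2, ℤ)) {X : M2} (hX : 0 < X.det)
    (τ : ℍ) : φ (act (((QuotientGroup.mk g : vcjQ N).out : SL(2, ℤ)) * X) τ) =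
      φ (act ((g : M2) * X) τ) := by
  obtain ⟨δ, e⟩ := QuotientGroup.mk_out_eq_mul (CongruenceSubgroup.Gamma N) g
  rw [e, xdd_act _ hX, xdd_act _ hX, mul_smul]
  exact hφ.smul g δ δ.2 _

theorem xdd_cop {q d : ℕ} (hq : q.Prime) (hc : ¬ q ∣ d) : IsCoprime (d : ℤ) (q : ℤ) :=
  Nat.isCoprime_iff_coprime.2 ((Nat.Prime.coprime_iff_not_dvd hq).2 hc).symm

theorem xdd_prod {κ : Type} (J : Finset κ) (f g : κ → ℝ) {ε : ℝ}
    (h : ∀ k ∈ J, |f k| ≤ 1 ∧ |g k| ≤ 1 ∧ |f k - g k| ≤ ε) :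
    |∏ k ∈ J, f k - ∏ k ∈ J, g k| ≤ #J * ε := by
  induction J using Finset.induction_on with
  | empty => simp
  | insert k J hk ih =>
    obtain ⟨h1, -, h3⟩ := h k (mem_insert_self _ _)
    have h4 := ih fun l hl => h l (mem_insert_of_mem hl)
    have h5 : |∏ l ∈ J, g l| ≤ 1 := by
      rw [Finset.abs_prod]
      exact Finset.prod_le_one (fun _ _ => abs_nonneg _) fun l hl =>
        (h l (mem_insert_of_mem hl)).2.1
    rw [prod_insert hk, prod_insert hk, card_insert_of_notMem hk,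
      show f k * ∏ l ∈ J, f l - g k * ∏ l ∈ J, g l =
        f k * (∏ l ∈ J, f l - ∏ l ∈ J, g l) + (f k - g k) * ∏ l ∈ J, g l by ring]
    refine (abs_add_le _ _).trans ?_
    rw [abs_mul, abs_mul]
    have h6 := mul_le_mul h1 h4 (abs_nonneg _) zero_le_one
    have h7 := mul_le_mul h3 h5 (abs_nonneg _) ((abs_nonneg _).trans h3)
    push_cast
    linarith

theorem hq_spec {d q : ℕ} (hd : 0 < d) (hq' : q.Prime) (hc : ¬ q ∣ d) {h : M2} (hh : h.det = d)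
    {ξ : Set V2} (hξ : IsLn q ξ) : hq d q h ξ ∈ Hn (d * q) ∧ Ker d (hq d q h ξ) = Ker d h ∧
      Ker q (hq d q h ξ) = ξ ∧ (∃ ν : M2, ν.det = q ∧ hq d q h ξ = ν * h) ∧
      ∀ ζ : M2, ζ.det = (d * q : ℕ) → Ker d ζ = Ker d h → Ker q ζ = ξ →
        ∃ γ : SL(2, ℤ), ζ = (γ : M2) * hq d q h ξ := by
  have hcop := xdd_cop hq' hc
  have hn : 0 < d * q := Nat.mul_pos hd hq'.pos
  obtain ⟨ν, h1, h2⟩ := (hξ.pull (η := h.adjugate) hq'.pos
    (by rw [xla_det_adj, hh]; exact hcop)).exists_mat hq'.pos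
  obtain ⟨μ, -, h3⟩ := hξ.exists_mat hq'.pos
  have h4 : (ν * h).det = (d * q : ℕ) := by rw [Matrix.det_mul, h1, hh]; push_cast; ring
  have h5 : Ker d (ν * h) = Ker d h := Ker_cop (by rw [h1]; exact hcop.symm) h
  have h6 : Ker q (ν * h) = ξ := by
    ext w
    rw [mem_Ker_mul, h2, Set.mem_ofPred_eq, Matrix.mulVec_mulVec, Matrix.adjugate_mul, hh,
      Matrix.smul_mulVec, Matrix.one_mulVec, ← h3]
    exact xla_smul hcop μ w
  have e : ∃ g ∈ Hn (d * q), Ker d g = Ker d h ∧ Ker q g = ξ := by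
    obtain ⟨γ, g, hg, e⟩ := exists_Hn hn h4
    exact ⟨g, hg, by rw [← h5, e, Ker_SL], by rw [← h6, e, Ker_SL]⟩
  have hs : hq d q h ξ ∈ Hn (d * q) ∧ Ker d (hq d q h ξ) = Ker d h ∧ Ker q (hq d q h ξ) = ξ := by
    rw [hq, dif_pos e]
    exact e.choose_spec
  have hu : ∀ ζ : M2, ζ.det = (d * q : ℕ) → Ker d ζ = Ker d h → Ker q ζ = ξ →
      ∃ γ : SL(2, ℤ), ζ = (γ : M2) * hq d q h ξ := fun ζ e1 e2 e3 => by
    have hdq : d.Coprime q := Nat.isCoprime_iff_coprime.1 hcop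
    refine exists_SL_of_Ker hn (mem_Hn hs.1).2 e1 (le_of_eq ?_)
    rw [Ker_inter hdq, Ker_inter hdq, e2, e3, hs.2.1, hs.2.2]
  refine ⟨hs.1, hs.2.1, hs.2.2, ?_, hu⟩
  obtain ⟨γ, e1⟩ := hu _ h4 h5 h6
  refine ⟨((γ⁻¹ : SL(2, ℤ)) : M2) * ν, by rw [xdd_det, h1], ?_⟩
  rw [Matrix.mul_assoc, e1, ← Matrix.mul_assoc, ← Matrix.SpecialLinearGroup.coe_mul,
    inv_mul_cancel, Matrix.SpecialLinearGroup.coe_one, Matrix.one_mul]

namespace Shp

variable {n : ℕ} {ι : Type} {s : Shp n ι} {v : VD n} {L T : ℝ} {a m₀ y : ℕ} {x : Fin n → ℂ}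
  {φ : Fin n → (ℍ →ᵇ ℝ)} {Ws : (Fin n → ℂ) → Finset (Fin v.M → ℝ)} {U t : ℝ} {cl : ℍ → ℍ} {q : ℕ}

theorem xdd_nd (h : s.Ok v L T a m₀ y) (hq : q ∈ v.P) {k : Fin n} (hk : k ∈ s.J) :
    ¬ q ∣ v.dg k := fun h1 =>
  (h.pP q hq).2.2.2 (Dvd.dvd.mul_left
    (Int.natCast_dvd_natCast.2 (h1.trans (Finset.dvd_prod_of_mem _ hk))) _)

theorem xdd_et (h : s.Ok v L T a m₀ y) (hx : x ∈ Orb v.τ) (hq : q ∈ v.P) (c : ι) :
    (s.et v {q} x c).det = q ∧ Ker q (s.et v {q} x c) = Ker q (s.A v x c) ∧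
      act (s.et v {q} x c) (s.ct x c) = s.ct (v.mv {q} x) c ∧
      s.et v {q} x c * s.A v x c = s.A v (v.mv {q} x) c * s.et v {q} x c := by
  obtain ⟨h1, h2, h3⟩ := h.et_spec (singleton_subset_iff.2 hq) hx c
  rw [prod_singleton] at h1
  exact ⟨h1, h2 q (mem_singleton_self q), h3⟩

theorem xdd_line (h : s.Ok v L T a m₀ y) (hx : x ∈ Orb v.τ) (hq : q ∈ v.P) (c : ι) :
    IsLn q (Ker q (s.A v x c)) := by
  obtain ⟨h1, h2, -⟩ := xdd_et h hx hq c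
  have hp := (h.pP q hq).1
  rw [← h2]
  refine isLn_Ker_prime hp (by rw [h1]) ?_
  rw [h1]
  intro h3
  have h4 : q ^ 2 ∣ q := by exact_mod_cast h3
  have h5 := Nat.le_of_dvd hp.pos h4
  have h6 := hp.two_le
  nlinarith

theorem xdd_rho (h : s.Ok v L T a m₀ y) (hx : x ∈ Orb v.τ) (c : ι) (i : Fin v.M) :
    0 < (s.rho v i (s.lab v x c i)).det := by
  rw [(h.rho_spec i (h.lab_mem hx c i)).1]
  exact_mod_cast Nat.mul_pos (pow_pos (h.pl i).1.1.pos _) (pow_pos (h.pl i).2.1.1.pos _)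

theorem xdd_swap (h : s.Ok v L T a m₀ y) (hx : x ∈ Orb v.τ) (hq : q ∈ v.P) (c : ι)
    (i : Fin v.M) : ∃ δ ∈ CongruenceSubgroup.Gamma (s.N * s.dd v),
      s.rho v i (s.lab v (v.mv {q} x) c i) * s.et v {q} x c =
        (δ : M2) * (s.et v {q} x c * s.rho v i (s.lab v x c i)) := by
  obtain ⟨e1, -, -, e4⟩ := xdd_et h hx hq c
  have hy : v.mv {q} x ∈ Orb v.τ := Orb_map h.disc hx _
  obtain ⟨r1, r2, r3, r4⟩ := h.rho_spec i (h.lab_mem hx c i)
  obtain ⟨s1, s2, s3, s4⟩ := h.rho_spec i (h.lab_mem hy c i)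
  obtain ⟨p1, p2, p3, p4⟩ := h.pl i
  have hp := (h.pP q hq).1
  have c1 : (v.l i).Coprime q := (Nat.coprime_primes p1.1 hp).2 fun e => p3 (e ▸ hq)
  have c2 : (v.l' i).Coprime q := (Nat.coprime_primes p2.1 hp).2 fun e => p4 (e ▸ hq)
  have c3 : (s.a₁ v i).Coprime (s.a₂ v i) :=
    Nat.Coprime.pow _ _ ((Nat.coprime_primes p1.1 p2.1).2 (h.inj.2.2 i i))
  have c4 : ∀ l, s.Pm v y l → l.Coprime q → IsCoprime (l : ℤ) (s.N * s.dd v * q : ℕ) :=
    fun l hl hc => by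
      refine Nat.isCoprime_iff_coprime.2 (Nat.Coprime.mul_right ?_ hc)
      refine (Nat.Prime.coprime_iff_not_dvd hl.1).2 fun h1 => hl.2.2.2 ?_
      refine (Int.natCast_dvd_natCast.2 h1).trans ⟨2 * v.E, ?_⟩
      push_cast
      ring
  have c5 : (s.a₁ v i).Coprime q := c1.pow_left _
  have c6 : (s.a₂ v i).Coprime q := c2.pow_left _
  refine swap_Cg (Nat.mul_pos (pow_pos p1.1.pos _) (pow_pos p2.1.pos _)) hp.pos e1 r1 s1
    (c5.mul_left c6) ((c4 _ p1 c1).pow_left.mul_left (c4 _ p2 c2).pow_left)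
    (r4.mono (Nat.mul_dvd_mul_left _ (Finset.dvd_prod_of_mem _ hq))) (s4.mono (Dvd.intro _ rfl))
    fun w hw => ?_
  change w ∈ Ker (s.a₁ v i * s.a₂ v i) _ at hw
  change _ ∈ Ker (s.a₁ v i * s.a₂ v i) _
  rw [Ker_inter c3, r2, r3] at hw
  rw [Ker_inter c3, s2, s3]
  exact ⟨(Ker_com e4 (by rw [e1]; exact Nat.isCoprime_iff_coprime.2 c5.symm) w).1.2 hw.1,
    (Ker_com e4 (by rw [e1]; exact Nat.isCoprime_iff_coprime.2 c6.symm) w).1.2 hw.2⟩

theorem xdd_key (h : s.Ok v L T a m₀ y) (hx : x ∈ Orb v.τ) (hq' : q ∈ v.P) {k : Fin n}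
    (hk : k ∈ s.J) (γ : SL(2, ℤ)) : ∃ γ' : vcjQ s.N, ∀ ψ : ℍ → ℝ, GInv s.N ψ → ∀ i,
      ψ (act ((γ : M2) * s.hk v (v.mv {q} x) k * s.rho v i (s.lab v (v.mv {q} x) (s.bs k) i))
        (s.ct (v.mv {q} x) (s.bs k))) =
      ψ (act ((γ'.out : SL(2, ℤ)) * hq (v.dg k) q (s.hk v x k) (Ker q (s.A v x (s.bs k))) *
        s.rho v i (s.lab v x (s.bs k) i)) (s.ct x (s.bs k))) := by
  obtain ⟨e1, e2, e3, -⟩ := xdd_et h hx hq' (s.bs k)
  have hy : v.mv {q} x ∈ Orb v.τ := Orb_map h.disc hx _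
  have hp := (h.pP q hq').1
  obtain ⟨d0, d1⟩ := mem_Hn (h.hk_spec hx hk).1
  have d2 : ((γ : M2) * s.hk v (v.mv {q} x) k).det = v.dg k := by
    rw [xdd_det, (mem_Hn (h.hk_spec hy hk).1).2]
  have d3 : 0 < ((γ : M2) * s.hk v (v.mv {q} x) k).det := by rw [d2]; exact_mod_cast d0
  have d4 : 0 < (s.et v {q} x (s.bs k)).det := by rw [e1]; exact_mod_cast hp.pos
  obtain ⟨u1, -, -, -, u5⟩ := hq_spec d0 hp (xdd_nd h hq' hk) d1 (xdd_line h hx hq' (s.bs k))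
  obtain ⟨g, hg⟩ := u5 ((γ : M2) * s.hk v (v.mv {q} x) k * s.et v {q} x (s.bs k))
    (by rw [Matrix.det_mul, d2, e1, Nat.cast_mul])
    (by rw [Matrix.mul_assoc, Ker_SL, h.hk_move (singleton_subset_iff.2 hq') hx hk])
    (by rw [Ker_cop (by rw [d2]; exact xdd_cop hp (xdd_nd h hq' hk)), e2])
  refine ⟨QuotientGroup.mk g, fun ψ hψ i => ?_⟩
  have r1 := xdd_rho h hx (s.bs k) i
  have r2 := xdd_rho h hy (s.bs k) i
  have d5 : 0 < (hq (v.dg k) q (s.hk v x k) (Ker q (s.A v x (s.bs k)))).det := by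
    rw [(mem_Hn u1).2]
    exact_mod_cast (mem_Hn u1).1
  obtain ⟨δ, hδ, e5⟩ := xdd_swap h hx hq' (s.bs k) i
  obtain ⟨δ', hδ', e6⟩ := act_conj d3 s.N (γ := δ) (xdd_gam (by
    rw [d2, Int.natAbs_natCast]
    exact Nat.mul_dvd_mul_left _ (Finset.dvd_prod_of_mem _ hk)) hδ)
  rw [Matrix.mul_assoc ((QuotientGroup.mk g : vcjQ s.N).out : SL(2, ℤ)).1,
    xdd_out hψ g (by rw [Matrix.det_mul]; exact mul_pos d5 r1), ← Matrix.mul_assoc, ← hg, ← e3,
    ← act_mul (by rw [Matrix.det_mul _ (s.rho _ _ _)]; exact mul_pos d3 r2) d4, Matrix.mul_assoc _ _ (s.et _ _ _ _),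
    e5, ← Matrix.mul_assoc, e6, Matrix.mul_assoc, xdd_act _ (by
      rw [Matrix.det_mul, Matrix.det_mul (s.et _ _ _ _)]
      exact mul_pos d3 (mul_pos d4 r1)), hψ δ' hδ',
    ← Matrix.mul_assoc]

theorem cor_of_ev (h : s.Ok v L T a m₀ y) (hφ : ∀ k, GInv s.N (φ k)) (hb : ∀ k, ‖φ k‖ ≤ 1)
    {ω : ℝ → ℝ} (hc : ∀ k, EqC ω (φ k)) {ε : ℝ} (hε : 0 < ε)
    (hcl : ∀ τ ∈ KU U, dist τ (cl τ) ≤ ω ε) (hW : ∀ u, ∀ W ∈ Ws u, ∀ i, |W i| ≤ 1)
    (hx : x ∈ Orb v.τ) (hI : ∀ c, s.ct x c ∈ KU U) (hq : q ∈ v.P)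
    (hE : s.Ev v φ Ws t (v.mv {q} x)) :
    s.Cor v φ (fun u => Ws (v.mv {q} u)) (t - n * ε) q (s.C0 v U cl x)
      fun c => Ker q (s.A v x c) := by
  obtain ⟨W, hW1, γ, hγ⟩ := hE
  have h1 : ∀ k, ∃ γ' : vcjQ s.N, k ∈ s.J → _ := fun k => by
    by_cases hk : k ∈ s.J
    · obtain ⟨γ', h2⟩ := xdd_key h hx hq hk (γ k).out
      exact ⟨γ', fun _ => h2 (φ k) (hφ k)⟩
    · exact ⟨γ k, fun h2 => absurd h2 hk⟩
  choose γ' h2 using h1
  have hsm : s.sm (v.mv {q} x) = v.mv {q} (s.sm x) := funext fun k => by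
    simp only [sm, VD.mv]
    split_ifs
    · rfl
    · exact (map_zero _).symm
  refine ⟨W, (show W ∈ Ws (v.mv {q} (s.sm x)) from hsm ▸ hW1), γ', ?_⟩
  have hb' : ∀ k z, |φ k z| ≤ 1 := fun k z => ((φ k).norm_coe_le_norm z).trans (hb k)
  have h3 : ∀ A B : ℝ, t * v.M ≤ |A| → |A - B| ≤ ∑ _i : Fin v.M, n * ε →
      (t - n * ε) * v.M ≤ |B| := fun A B h4 h5 => by
    rw [sum_const, card_univ, Fintype.card_fin, nsmul_eq_mul] at h5
    have h6 := abs_sub_abs_le_abs_sub A B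
    linarith
  refine h3 _ _ hγ ?_
  rw [val, val, ← sum_sub_distrib]
  refine (abs_sum_le_sum_abs _ _).trans (sum_le_sum fun i _ => ?_)
  rw [← mul_sub, sub_sub_sub_cancel_right, abs_mul]
  refine (mul_le_of_le_one_left (abs_nonneg _) (hW _ W hW1 i)).trans
    ((xdd_prod _ _ _ (ε := ε) fun k hk => ⟨hb' _ _, hb' _ _, ?_⟩).trans ?_)
  · rw [h2 k hk i]
    simp only [C0, if_pos hk, cel, if_pos (hI _), Option.getD_some]
    refine hc k ε hε _ _ ?_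
    obtain ⟨d0, d1⟩ := mem_Hn (h.hk_spec hx hk).1
    have u1 := mem_Hn (hq_spec d0 (h.pP q hq).1 (xdd_nd h hq hk) d1 (xdd_line h hx hq (s.bs k))).1
    rw [dist_act (by
      rw [Matrix.det_mul, xdd_det, u1.2]
      exact mul_pos (by exact_mod_cast u1.1) (xdd_rho h hx _ i))]
    exact hcl _ (hI _)
  · refine mul_le_mul_of_nonneg_right ?_ hε.le
    exact_mod_cast (card_le_univ s.J).trans_eq (Fintype.card_fin n)

theorem xdd_fib [Fintype ι] (f : Fin n → ℝ) : ∏ k ∈ s.J, f k = ∏ c, ∏ k : s.Cu c, f k := by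
  rw [← Finset.prod_fiberwise s.J s.bs f]
  exact prod_congr rfl fun c _ => Finset.prod_subtype _ (fun k => mem_filter) f

theorem xdd_rel (h : s.Ok v L T a m₀ y) (hx : x ∈ Orb v.τ) {m : ℕ} (hm : m ≤ m₀) {k l : Fin n}
    (hk : k ∈ s.J) (hl : l ∈ s.J) (hkl : k ≠ l) (e : s.bs k = s.bs l) :
    ¬ Rel m (s.hk v x k) (s.hk v x l) := by
  rintro ⟨s₁, t₁, X, hs, ht, h1, h2, e1⟩
  obtain ⟨a1, a2⟩ := h.hk_spec hx hk
  obtain ⟨b1, b2⟩ := h.hk_spec hx hl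
  have a3 : 0 < (s.hk v x k).det := by rw [(mem_Hn a1).2]; exact_mod_cast (mem_Hn a1).1
  have b3 : 0 < (s.hk v x l).det := by rw [(mem_Hn b1).2]; exact_mod_cast (mem_Hn b1).1
  have hY : 0 < (X * s.hk v x l).det := by rw [Matrix.det_mul]; exact mul_pos h1 b3
  rw [← act_smul a3 hs, e1, act_smul hY ht, act_mul h1 b3, e] at a2
  have h3 : Ig X.det.toNat (x k) (x l) := ⟨_, X, by omega, a2, b2⟩
  obtain ⟨σ, rfl⟩ := (mem_Orb h.disc).1 hx
  have h4 := h3.gal (by omega) σ.symm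
  simp only [RingEquiv.symm_apply_apply] at h4
  exact h.noi k hk l hl hkl _ (by omega) (by omega) h4

theorem xdd_tw (h : s.Ok v L T a m₀ y) (hx : x ∈ Orb v.τ) (hq' : q ∈ v.P) {m : ℕ} (hm : m ≤ m₀)
    (hm' : m ≤ y) (γ : Fin n → SL(2, ℤ)) (c : ι) {ξ ξ' : Set V2} (hξ : IsLn q ξ) (hξ' : IsLn q ξ')
    (hne : ξ ≠ ξ') : Tw s.N m (s.N * s.dd v * q) q
      (fun k : s.Cu c => (γ k : M2) * hq (v.dg k) q (s.hk v x k) ξ)
      fun k : s.Cu c => (γ k : M2) * hq (v.dg k) q (s.hk v x k) ξ' := by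
  obtain ⟨hp, hy, -⟩ := h.pP q hq'
  have H := fun (k : s.Cu c) (ξ : Set V2) (hξ : IsLn q ξ) =>
    hq_spec (mem_Hn (h.hk_spec hx k.2.1).1).1 hp (xdd_nd h hq' k.2.1)
      (mem_Hn (h.hk_spec hx k.2.1).1).2 hξ
  have hr : ∀ ξ, IsLn q ξ → ∀ k l : s.Cu c, k ≠ l →
      ¬ Rel m ((γ k : M2) * hq (v.dg k) q (s.hk v x k) ξ)
        ((γ l : M2) * hq (v.dg l) q (s.hk v x l) ξ) := fun ξ hξ k l hkl hr => by
    obtain ⟨ν, n1, n2⟩ := (H k ξ hξ).2.2.2.1
    obtain ⟨ν', n1', n2'⟩ := (H l ξ hξ).2.2.2.1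
    rw [n2, n2', ← Matrix.mul_assoc, ← Matrix.mul_assoc] at hr
    have hd : ∀ k : s.Cu c, ¬ (q : ℤ) ∣ (s.hk v x k).det := fun k => by
      rw [(mem_Hn (h.hk_spec hx k.2.1).1).2, Int.natCast_dvd_natCast]
      exact xdd_nd h hq' k.2.1
    exact xdd_rel h hx hm k.2.1 l.2.1 (fun e => hkl (Subtype.ext e)) (k.2.2.trans l.2.2.symm)
      (hr.strip hp (by omega) (by rw [xdd_det, n1]) (by rw [xdd_det, n1']) (hd k) (hd l))
  refine ⟨hp, by omega, fun k => ⟨v.dg k, (h.deg k k.2.1).1, xdd_nd h hq' k.2.1, ?_, ?_, ?_⟩,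
    fun k l => ?_, fun k l hkl => ⟨hr ξ hξ k l hkl, hr ξ' hξ' k l hkl⟩⟩
  · rw [← mul_assoc]
    exact Nat.mul_dvd_mul_right (Nat.mul_dvd_mul_left _ (Finset.dvd_prod_of_mem _ k.2.1)) _
  · rw [xdd_det, (mem_Hn (H k ξ hξ).1).2]
  · rw [xdd_det, (mem_Hn (H k ξ' hξ').1).2]
  · rw [Ker_SL, Ker_SL, (H k ξ hξ).2.2.1, (H l ξ' hξ').2.2.1]
    exact hne

theorem xdd_one [Fintype ι] [Nonempty ι] (h : s.Ok v L T a m₀ y) (hb : ∀ k, ‖φ k‖ ≤ 1 / 2)
    (ht : 0 < t) {W : Fin v.M → ℝ} (hW : ∀ i, |W i| ≤ 1)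
    {Rn : Finset ℍ} (hcl : ∀ τ ∈ KU U, cl τ ∈ Rn) {m : ℕ} (hm : m ≤ m₀) (hm' : m ≤ y) {ε : ℝ}
    (he : 2 * ε ≤ (t / Fintype.card ι) ^ 2) (hx : x ∈ Orb v.τ) (hI : ∀ c, s.ct x c ∈ KU U)
    (hB : ∀ c, ¬ s.Bad v φ m ε Rn c (s.lab v x c)) (hq' : q ∈ v.P) (γ : Fin n → vcjQ s.N) :
    (#{ξ ∈ Fintype.piFinset fun _ : ι => Xn q | t * v.M ≤
      |s.val v φ (fun k => ((γ k).out : SL(2, ℤ)) *
        hq (v.dg k) q ((s.C0 v U cl x).2.1 k) (ξ (s.bs k))) (s.lab v x)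
        (fun c => (cel U cl (s.ct x c)).getD UpperHalfPlane.I) W|} : ℝ) ≤
      2 * (Fintype.card ι : ℝ) ^ 3 / t ^ 2 * (#(Xn q) : ℝ) ^ (Fintype.card ι - 1) := by
  have hp := (h.pP q hq').1
  have hM : 0 < v.M := by
    have h1 := h.cM.1
    have h2 := h.hT
    have h3 : (0 : ℝ) < v.M := by nlinarith
    exact_mod_cast h3
  have hne : ∀ c, Nonempty (s.Cu c) := fun c => ⟨⟨s.cr c, s.mem c, s.bs_cr c⟩⟩
  have H := fun (c : ι) (k : s.Cu c) (ξ : Set V2) (hξ : ξ ∈ Xn q) =>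
    (hq_spec (mem_Hn (h.hk_spec hx k.2.1).1).1 hp (xdd_nd h hq' k.2.1)
      (mem_Hn (h.hk_spec hx k.2.1).1).2 ((mem_Xn hp.pos).1 hξ)).1
  have hI' : ∀ c, |∏ k : s.Cu c, IN s.N (φ k)| ≤ 1 / 2 := fun c =>
    xke_half fun k => (abs_IN_le h.N_pos _).trans (hb _)
  have key := cor_count hM (Xn q)
    (fun c ξ i => ∏ k : s.Cu c, φ k (act (((γ k).out : SL(2, ℤ)) * hq (v.dg k) q (s.hk v x k) ξ *
      s.rho v i (s.lab v x c i)) (cl (s.ct x c))))
    (fun c => ∏ k : s.Cu c, IN s.N (φ k)) W ht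
    (fun c ξ _ i => by
      have h1 : |∏ k : s.Cu c, φ k (act (((γ k).out : SL(2, ℤ)) * hq (v.dg k) q (s.hk v x k) ξ *
          s.rho v i (s.lab v x c i)) (cl (s.ct x c)))| ≤ 1 / 2 :=
        xke_half fun k => ((φ k).norm_coe_le_norm _).trans (hb _)
      exact ⟨h1.trans (by norm_num), (abs_sub _ _).trans (by linarith [hI' c])⟩)
    (fun c => (hI' c).trans (by norm_num)) hW
    (fun c ξ hξ ξ' hξ' hne => by
      refine le_of_not_gt fun hlt => hB c ⟨_, hcl _ (hI c), q, hq', _, _,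
        fun k => ⟨⟨γ k, _, H c k ξ hξ, rfl⟩, ⟨γ k, _, H c k ξ' hξ', rfl⟩⟩,
        xdd_tw h hx hq' hm hm' (fun k => (γ k).out) c ((mem_Xn hp.pos).1 hξ)
          ((mem_Xn hp.pos).1 hξ') hne, hlt.trans_eq ?_⟩
      have h1 : ∀ ξ ∈ Xn q, ∀ i, ∏ k : s.Cu c, φ k (act (((γ k).out : SL(2, ℤ)) *
          hq (v.dg k) q (s.hk v x k) ξ * s.rho v i (s.lab v x c i)) (cl (s.ct x c))) =
          ∏ k : s.Cu c, φ k (act (((γ k).out : SL(2, ℤ)) * hq (v.dg k) q (s.hk v x k) ξ)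
            (act (s.rho v i (s.lab v x c i)) (cl (s.ct x c)))) := fun ξ hξ i =>
        prod_congr rfl fun k _ => by
          rw [act_mul _ (xdd_rho h hx c i)]
          rw [xdd_det, (mem_Hn (H c k ξ hξ)).2]
          exact_mod_cast (mem_Hn (H c k ξ hξ)).1
      refine congrArg _ (sum_congr rfl fun i _ => ?_)
      rw [BoundedContinuousFunction.mul_apply, xke_apply, xke_apply, h1 ξ hξ, h1 ξ' hξ']) he
  refine le_trans (le_of_eq ?_) key
  refine congrArg _ (congrArg _ (filter_congr fun ξ _ => ?_))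
  refine iff_of_eq (congrArg (fun r => t * v.M ≤ |r|) (sum_congr rfl fun i _ => ?_))
  rw [xdd_fib, xdd_fib]
  refine congrArg (fun r => W i * (r - _)) (prod_congr rfl fun c _ => prod_congr rfl fun k _ => ?_)
  simp only [C0, if_pos k.2.1, k.2.2, cel, if_pos (hI _), Option.getD_some]

theorem card_cor [Fintype ι] [Nonempty ι] (h : s.Ok v L T a m₀ y) (hb : ∀ k, ‖φ k‖ ≤ 1 / 2)
    (ht : 0 < t) {B : ℕ} (hW : ∀ u, #(Ws u) ≤ B ∧ ∀ W ∈ Ws u, ∀ i, |W i| ≤ 1)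
    {Rn : Finset ℍ} (hcl : ∀ τ ∈ KU U, cl τ ∈ Rn) {m : ℕ} (hm : m ≤ m₀) (hm' : m ≤ y) {ε : ℝ}
    (he : 2 * ε ≤ (t / Fintype.card ι) ^ 2) (hx : x ∈ Orb v.τ) (hI : ∀ c, s.ct x c ∈ KU U)
    (hB : ∀ c, ¬ s.Bad v φ m ε Rn c (s.lab v x c)) (hq : q ∈ v.P) :
    (#{ξ ∈ Fintype.piFinset fun _ : ι => Xn q | s.Cor v φ Ws t q (s.C0 v U cl x) ξ} : ℝ) ≤
      B * (s.N : ℝ) ^ (3 * n) * (2 * (Fintype.card ι : ℝ) ^ 3 / t ^ 2) * 2 ^ Fintype.card ι *
        (q : ℝ) ^ Fintype.card ι / q := by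
  have hp := (h.pP q hq).1
  have hfin := vcj_fin h.N_pos
  have hft : Fintype (vcjQ s.N) := Fintype.ofFinite _
  have hq0 : (0 : ℝ) < q := by exact_mod_cast hp.pos
  have h1 : (#(Xn q) : ℝ) ≤ 2 * q := by
    have h2 := card_Xn_prime hp
    have h3 := hp.pos
    exact_mod_cast (show #(Xn q) ≤ 2 * q by omega)
  have h2 : (#(univ : Finset (Fin n → vcjQ s.N)) : ℝ) ≤ (s.N : ℝ) ^ (3 * n) := by
    rw [card_univ, Fintype.card_fun, Fintype.card_fin, ← Nat.card_eq_fintype_card, pow_mul]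
    exact_mod_cast Nat.pow_le_pow_left (index_Gamma_le h.N_pos) n
  have h3 : (#(Xn q) : ℝ) ^ (Fintype.card ι - 1) ≤
      2 ^ Fintype.card ι * (q : ℝ) ^ Fintype.card ι / q := by
    obtain ⟨j, hj⟩ := Nat.exists_eq_succ_of_ne_zero (Fintype.card_ne_zero (α := ι))
    rw [hj, Nat.succ_sub_one, pow_succ (q : ℝ), ← mul_assoc, mul_div_cancel_right₀ _ hq0.ne']
    refine (pow_le_pow_left₀ (Nat.cast_nonneg _) h1 j).trans ?_
    rw [mul_pow]
    exact mul_le_mul_of_nonneg_right (pow_le_pow_right₀ one_le_two (Nat.le_succ j)) (by positivity)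
  have h4 : ({ξ ∈ Fintype.piFinset fun _ : ι => Xn q | s.Cor v φ Ws t q (s.C0 v U cl x) ξ} :
      Finset (ι → Set V2)) ⊆ (Ws (s.sm x) ×ˢ (univ : Finset (Fin n → vcjQ s.N))).biUnion
        fun p => {ξ ∈ Fintype.piFinset fun _ : ι => Xn q | t * v.M ≤
          |s.val v φ (fun k => ((p.2 k).out : SL(2, ℤ)) *
            Pool.Agent.EQ.hq (v.dg k) q ((s.C0 v U cl x).2.1 k) (ξ (s.bs k))) (s.lab v x)
            (fun c => (cel U cl (s.ct x c)).getD UpperHalfPlane.I) p.1|} := fun ξ hξ => by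
    obtain ⟨h5, W, h6, γ, h7⟩ := mem_filter.1 hξ
    exact mem_biUnion.2 ⟨(W, γ), mem_product.2 ⟨h6, mem_univ _⟩, mem_filter.2 ⟨h5, h7⟩⟩
  refine (Nat.cast_le.2 ((card_le_card h4).trans card_biUnion_le)).trans ?_
  rw [Nat.cast_sum]
  refine (sum_le_sum fun p hp => xdd_one h hb ht ((hW _).2 _ (mem_product.1 hp).1) hcl hm hm' he
    hx hI hB hq p.2).trans ?_
  rw [sum_const, card_product, nsmul_eq_mul, Nat.cast_mul]
  have h5 : (#(Ws (s.sm x)) : ℝ) ≤ B := Nat.cast_le.2 (hW _).1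
  refine le_trans (b := B * (s.N : ℝ) ^ (3 * n) * (2 * (Fintype.card ι : ℝ) ^ 3 / t ^ 2 *
    (2 ^ Fintype.card ι * (q : ℝ) ^ Fintype.card ι / q))) ?_ (le_of_eq (by ring))
  gcongr

theorem stepA [Fintype ι] [Nonempty ι] (s : Shp n ι) (hN : 0 < s.N) (φ : Fin n → (ℍ →ᵇ ℝ))
    (hφ : ∀ k, GInv s.N (φ k)) (hb : ∀ k, ‖φ k‖ ≤ 1 / 2) {ω : ℝ → ℝ}
    (hω : ∀ ε, 0 < ε → 0 < ω ε) (hc : ∀ k, EqC ω (φ k)) (L U : ℝ) (a B : ℕ) {t θ : ℝ}
    (ht : 0 < t) (hθ : 0 < θ) : ∃ (cl : ℍ → ℍ) (Rn : Finset ℍ) (C T₀ : ℝ) (m₀ : ℕ),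
      (∀ τ ∈ KU U, cl τ ∈ Rn) ∧ ∀ (v : VD n) (T : ℝ) (y : ℕ), T₀ ≤ T → s.Ok v L T a m₀ y →
      ∀ Ws : (Fin n → ℂ) → Finset (Fin v.M → ℝ), (∀ u, #(Ws u) ≤ B ∧ ∀ W ∈ Ws u, ∀ i, |W i| ≤ 1) →
      θ ≤ prb (Orb v.τ) (s.Ev v φ Ws t) →
      prb (Orb v.τ) (fun x => ¬ ∀ c, s.ct x c ∈ KU U) ≤ θ / 4 → ∀ q ∈ v.P,
      ∃ R : Cty n ι v.M → Finset (ι → Set V2),
        (∀ b, (#(R b) : ℝ) ≤ C * (q : ℝ) ^ Fintype.card ι / q) ∧
        θ / 2 ≤ prb (Orb v.τ) fun x => (fun c => Ker q (s.A v x c)) ∈ R (s.C0 v U cl x) := by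
  have hc0 : (0 : ℝ) < Fintype.card ι := Nat.cast_pos.2 Fintype.card_pos
  have he : 0 < t / (2 * (n + 1)) := by positivity
  have ht' : 0 < t - n * (t / (2 * (n + 1))) := by
    rw [sub_pos, ← mul_div_assoc, div_lt_iff₀ (by positivity)]
    nlinarith [mul_nonneg ht.le (Nat.cast_nonneg (α := ℝ) n)]
  generalize t / (2 * (n + 1)) = e at he ht'
  obtain ⟨Rn, cl, hR, hcl, -⟩ := exists_net U (hω e he)
  have hε : 0 < ((t - n * e) / Fintype.card ι) ^ 2 / 2 := by positivity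
  choose m T₁ hbad using s.bad_prob hN φ hφ hb hω hc U hε Rn hR
  obtain ⟨T₂, horb⟩ := s.bad_orb L U a (δ := θ / (4 * Fintype.card ι)) (by positivity)
  obtain ⟨m₀, hm⟩ := Finite.exists_le m
  obtain ⟨T₃, hT⟩ := Finite.exists_le T₁
  refine ⟨cl, Rn, B * (s.N : ℝ) ^ (3 * n) * (2 * (Fintype.card ι : ℝ) ^ 3 / (t - n * e) ^ 2) *
    2 ^ Fintype.card ι, max m₀ (max T₂ T₃), m₀, fun τ hτ => (hcl τ hτ).1,
    fun v T y hT₀ h Ws hW hE hI q hq => ?_⟩
  obtain ⟨t1, t2, t3⟩ : (m₀ : ℝ) ≤ T ∧ T₂ ≤ T ∧ T₃ ≤ T := by simpa only [max_le_iff] using hT₀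
  have hy : m₀ ≤ y := by
    have h1 : T ≤ T ^ 256 := le_self_pow₀ (by linarith [h.hT]) (by norm_num)
    exact_mod_cast t1.trans (h1.trans h.ylo)
  refine ⟨fun b => if ∃ x ∈ Orb v.τ, (∀ c, s.ct x c ∈ KU U) ∧
      (∀ c, ¬ s.Bad v φ m₀ (((t - n * e) / Fintype.card ι) ^ 2 / 2) Rn c (s.lab v x c)) ∧
      s.C0 v U cl x = b then {ξ ∈ Fintype.piFinset fun _ : ι => Xn q |
        s.Cor v φ (fun u => Ws (v.mv {q} u)) (t - n * e) q b ξ} else ∅, fun b => ?_, ?_⟩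
  · beta_reduce
    split_ifs with h1
    · obtain ⟨x, hx, h2, h3, rfl⟩ := h1
      exact card_cor h hb ht' (fun u => hW _) (fun τ hτ => (hcl τ hτ).1) le_rfl hy
        (le_of_eq (by ring)) hx h2 h3 hq
    · rw [card_empty, Nat.cast_zero]
      positivity
  · have h1 := pb_perm (O := Orb v.τ) (π := v.mv {q}) (fun x hx => Orb_map h.disc hx _)
      (fun x _ x' _ e => funext fun k => (v.sg {q}).injective (congrFun e k)) (s.Ev v φ Ws t)
    have h2 := (pb_exists (Orb v.τ) univ fun c x => s.ct x c ∈ KU U ∧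
      s.Bad v φ m₀ (((t - n * e) / Fintype.card ι) ^ 2 / 2) Rn c (s.lab v x c)).trans
      (sum_le_sum fun c _ => horb v T m₀ y t2 h c _
        (hbad c v L T a m₀ y m₀ ((hT c).trans t3) h (hm c)))
    rw [sum_const, card_univ, nsmul_eq_mul,
      show (Fintype.card ι : ℝ) * (θ / (4 * Fintype.card ι)) = θ / 4 by field_simp] at h2
    have h3 := (pb_or _ _ _).trans (add_le_add hI h2)
    have h4 := (sub_le_sub (hE.trans h1.ge) h3).trans (pb_sub _ _ _)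
    refine le_trans (le_of_eq (by ring)) (h4.trans (pb_mono fun x hx h5 => ?_))
    obtain ⟨h5, h6⟩ := h5
    rw [not_or, not_not] at h6
    beta_reduce
    rw [if_pos ⟨x, hx, h6.1, fun c h7 => h6.2 ⟨c, mem_univ c, h6.1 c, h7⟩, rfl⟩]
    exact mem_filter.2 ⟨Fintype.mem_piFinset.2 fun c =>
      (mem_Xn (h.pP q hq).1.pos).2 (xdd_line h hx hq c),
      cor_of_ev h hφ (fun k => (hb k).trans (by norm_num)) hc he (fun τ hτ => (hcl τ hτ).2)
        (fun u => (hW u).2) hx h6.1 hq h5⟩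

end Shp

end Pool.Agent.EQ
end
end

-- part Pool.Agent.P.MP_ad7a55_nt.YAa
section

/-! Families of test functions. -/

set_option autoImplicit false

noncomputable section

open MeasureTheory Topology Filter UpperHalfPlane Finset
open scoped MatrixGroups BoundedContinuousFunction Matrix Classical

namespace Pool.Agent.EQ

/-- A matrix of determinant `q` with kernel `L` in a fixed class modulo `N`. -/
def nu (N q : ℕ) (L : Set V2) : M2 :=
  if h : ∃ ν : M2, ν.det = q ∧ Ker q ν = L ∧ Dv N (ν - !![1, 0; 0, (q : ℤ)]) then h.choose else 1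

/-- Positive determinant prime to `q₀`. -/
def Ad (q₀ : ℕ) (η : M2) : Prop := 0 < η.det ∧ IsCoprime η.det q₀

variable {κ : Type}

structure Fam (N q₀ : ℕ) (K : ℝ) (G : (κ → M2) → (ℍ →ᵇ ℝ)) : Prop where
  mul : ∀ (ζ : κ → M2) (η : M2), (∀ k, Ad q₀ (ζ k)) → Ad q₀ η → ∀ z,
    G (fun k => ζ k * η) z = G ζ (act η z)
  inv : ∀ (ζ : κ → M2) (δ : κ → SL(2, ℤ)), (∀ k, Ad q₀ (ζ k)) →
    (∀ k, δ k ∈ CongruenceSubgroup.Gamma N) → G (fun k => (δ k : M2) * ζ k) = G ζ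
  bd : ∀ ζ z, |G ζ z| ≤ 1 / 2
  lip : ∀ ζ, Lip K (G ζ)

/-- One step in the direction `ξ`. -/
def up (N q : ℕ) (ζ : κ → M2) (ξ : Set V2) : κ → M2 := fun k => nu N q (img (ζ k) ξ) * ζ k

/-- The mean over the directions at `q`. -/
def Tq (N q : ℕ) (G : (κ → M2) → (ℍ →ᵇ ℝ)) (ζ : κ → M2) : ℍ →ᵇ ℝ :=
  mnB (Xn q) fun ξ => G (up N q ζ ξ)

/-- Half the square of the distance from `I`. -/
def sqF (G : (κ → M2) → (ℍ →ᵇ ℝ)) (I : ℝ) (ζ : κ → M2) : ℍ →ᵇ ℝ :=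
  (1 / 2 : ℝ) • ((G ζ - BoundedContinuousFunction.const ℍ I) *
    (G ζ - BoundedContinuousFunction.const ℍ I))

/-- The product family. -/
def prF [Fintype κ] (φ : κ → (ℍ →ᵇ ℝ)) (ζ : κ → M2) : ℍ →ᵇ ℝ := ∏ k, cact (φ k) (ζ k)

/-- No relation of degree at most `m`. -/
def NRel (m : ℕ) (ζ : κ → M2) : Prop := ∀ k l, k ≠ l → ¬ Rel m (ζ k) (ζ l)

variable {N q q₀ M : ℕ} {K : ℝ} {G : (κ → M2) → (ℍ →ᵇ ℝ)} {ζ : κ → M2} {ξ : Set V2}

theorem yaa_gamma {γ : SL(2, ℤ)} : γ ∈ CongruenceSubgroup.Gamma N ↔ Dv N ((γ : M2) - 1) := by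
  constructor
  · intro h i j
    rw [CongruenceSubgroup.Gamma_mem] at h
    obtain ⟨h0, h1, h2, h3⟩ := h
    rw [← ZMod.intCast_zmod_eq_zero_iff_dvd, Matrix.sub_apply, Int.cast_sub, sub_eq_zero]
    fin_cases i <;> fin_cases j
    · simpa using h0
    · simpa using h1
    · simpa using h2
    · simpa using h3
  · intro h2
    have h3 : ∀ i j, ((γ i j : ℤ) : ZMod N) = (((1 : M2) i j : ℤ) : ZMod N) := fun i j => by
      rw [← sub_eq_zero, ← Int.cast_sub, ZMod.intCast_zmod_eq_zero_iff_dvd]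
      exact h2 i j
    rw [CongruenceSubgroup.Gamma_mem]
    exact ⟨by simpa using h3 0 0, by simpa using h3 0 1, by simpa using h3 1 0,
      by simpa using h3 1 1⟩

theorem yaa_mono {γ : SL(2, ℤ)} (h : N ∣ M) (hγ : γ ∈ CongruenceSubgroup.Gamma M) :
    γ ∈ CongruenceSubgroup.Gamma N :=
  yaa_gamma.2 fun i j => (Int.natCast_dvd_natCast.2 h).trans (yaa_gamma.1 hγ i j)

theorem yaa_dv_right {X D : M2} {γ : SL(2, ℤ)} (h : Dv N (X - D))
    (hγ : γ ∈ CongruenceSubgroup.Gamma N) : Dv N (X * (γ : M2) - D) := by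
  obtain ⟨Y, hY⟩ := xla_ex.1 h
  obtain ⟨Z, hZ⟩ := xla_ex.1 (yaa_gamma.1 hγ)
  refine xla_ex.2 ⟨X * Z + Y, ?_⟩
  rw [smul_add, ← hY, ← mul_smul_comm, ← hZ, mul_sub, mul_one]
  abel

theorem yaa_cop (hq : q.Prime) (hc : ¬ q ∣ N) : IsCoprime (q : ℤ) (N : ℤ) :=
  Nat.isCoprime_iff_coprime.2 ((Nat.Prime.coprime_iff_not_dvd hq).2 hc)

theorem yaa_SL (γ : SL(2, ℤ)) (n : ℕ) : IsCoprime (γ : M2).det (n : ℤ) := by
  rw [γ.det_coe]
  exact isCoprime_one_left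

theorem yaa_Ad_SL (γ : SL(2, ℤ)) (n : ℕ) : Ad n (γ : M2) :=
  ⟨by rw [γ.det_coe]; exact one_pos, yaa_SL γ n⟩

theorem yaa_Ad_left {η : M2} (h : Ad (q₀ * q) η) : Ad q₀ η :=
  ⟨h.1, by have := h.2; rw [Nat.cast_mul] at this; exact this.of_mul_right_left⟩

theorem yaa_Ad_right {η : M2} (h : Ad (q₀ * q) η) : Ad q η :=
  ⟨h.1, by have := h.2; rw [Nat.cast_mul] at this; exact this.of_mul_right_right⟩

theorem yaa_detD : (!![1, 0; 0, (q : ℤ)] : M2).det = q := by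
  rw [Matrix.det_fin_two_of]
  ring

theorem yaa_lift (hN : 0 < N) (hq : q.Prime) (hc : ¬ q ∣ N) {A B : M2} (h : (A * B).det = q * q) :
    ∃ (γ : SL(2, ℤ)) (u v : ℤ) (Y : M2), u * q + v * N = 1 ∧
      (γ : M2) = u • (A * B) + (N : ℤ) • Y := by
  obtain ⟨u, v, e⟩ := yaa_cop hq hc
  obtain ⟨γ, hγ⟩ := exists_lift_SL hN (W := u • (A * B)) (by
    rw [Matrix.det_smul, h, Fintype.card_fin]
    exact ⟨-v * (u * q + 1), by linear_combination (u * q + 1) * e⟩)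
  obtain ⟨Y, hY⟩ := (xla_ex (m := (N : ℤ)) (X := (γ : M2) - u • (A * B))).1 hγ
  exact ⟨γ, u, v, Y, e, by rw [← hY]; abel⟩

theorem nu_spec (hN : 0 < N) (hq : q.Prime) (hc : ¬ q ∣ N) (hξ : IsLn q ξ) :
    (nu N q ξ).det = q ∧ Ker q (nu N q ξ) = ξ ∧ Dv N (nu N q ξ - !![1, 0; 0, (q : ℤ)]) := by
  have hex : ∃ ν : M2, ν.det = q ∧ Ker q ν = ξ ∧ Dv N (ν - !![1, 0; 0, (q : ℤ)]) := by
    obtain ⟨η, h1, h2⟩ := hξ.exists_mat hq.pos
    obtain ⟨γ, u, v, Y, e, hγ⟩ := yaa_lift hN hq hc (A := !![1, 0; 0, (q : ℤ)])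
      (B := η.adjugate) (by rw [Matrix.det_mul, yaa_detD, xla_det_adj, h1])
    refine ⟨(γ : M2) * η, by rw [Matrix.det_mul, γ.det_coe, h1, one_mul],
      by rw [Ker_SL, h2], xla_ex.2 ⟨Y * η - v • !![1, 0; 0, (q : ℤ)], ?_⟩⟩
    have e1 : u * q = 1 - N * v := by linear_combination e
    rw [hγ, add_mul, smul_mul_assoc, smul_mul_assoc, mul_assoc, Matrix.adjugate_mul, h1,
      mul_smul_comm, mul_one, smul_smul, e1]
    module
  unfold nu
  rw [dif_pos hex]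
  exact hex.choose_spec

theorem yaa_eq (hN : 0 < N) (hq : q.Prime) (hc : ¬ q ∣ N) (hξ : IsLn q ξ) {ν : M2}
    (h1 : ν.det = q) (h2 : Ker q ν = ξ) (h3 : Dv N (ν - !![1, 0; 0, (q : ℤ)])) :
    ∃ γ ∈ CongruenceSubgroup.Gamma N, ν = (γ : M2) * nu N q ξ := by
  obtain ⟨a1, a2, a3⟩ := nu_spec hN hq hc hξ
  refine gamma_of_Ker hq.pos a1 h1 ((Nat.Prime.coprime_iff_not_dvd hq).2 hc)
    (by rw [a2, h2]) fun i j => ?_
  have := dvd_sub (h3 i j) (a3 i j)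
  simp only [Matrix.sub_apply] at this ⊢
  rwa [sub_sub_sub_cancel_right] at this

theorem yaa_step (hN : 0 < N) (hq : q.Prime) (hc : ¬ q ∣ N) (hξ : IsLn q ξ) {δ : SL(2, ℤ)}
    (hδ : δ ∈ CongruenceSubgroup.Gamma N) :
    ∃ γ ∈ CongruenceSubgroup.Gamma N, nu N q (img (δ : M2) ξ) * δ = (γ : M2) * nu N q ξ := by
  obtain ⟨a1, a2, a3⟩ := nu_spec hN hq hc (hξ.img hq.pos (yaa_SL δ q))
  exact yaa_eq hN hq hc hξ (by rw [Matrix.det_mul, a1, δ.det_coe, mul_one])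
    (by rw [Ker_mul_pl, a2, (pl_img hξ (yaa_SL δ q)).1]) (yaa_dv_right a3 hδ)

theorem up_spec (hN : 0 < N) (hq : q.Prime) (hc : ¬ q ∣ N) (hξ : IsLn q ξ) {k : κ}
    (hζ : Ad q (ζ k)) : (up N q ζ ξ k).det = q * (ζ k).det ∧ Ker q (up N q ζ ξ k) = ξ := by
  obtain ⟨a1, a2, -⟩ := nu_spec hN hq hc (hξ.img hq.pos hζ.2)
  unfold up
  exact ⟨by rw [Matrix.det_mul, a1], by rw [Ker_mul_pl, a2, (pl_img hξ hζ.2).1]⟩

theorem yaa_Ad_up (hN : 0 < N) (hq : q.Prime) (hc : ¬ q ∣ N) (hq₀ : q.Coprime q₀)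
    (hξ : IsLn q ξ) {k : κ} (hζ : Ad (q₀ * q) (ζ k)) : Ad q₀ (up N q ζ ξ k) := by
  have h := (up_spec hN hq hc hξ (yaa_Ad_right hζ)).1
  unfold Ad
  rw [h]
  exact ⟨mul_pos (by exact_mod_cast hq.pos) hζ.1,
    (Nat.isCoprime_iff_coprime.2 hq₀).mul_left (yaa_Ad_left hζ).2⟩

theorem Fam.of_one (h : Fam N 1 K G) (q : ℕ) : Fam N q K G := by
  have a : ∀ η : M2, Ad q η → Ad 1 η := fun η h => ⟨h.1, by
    rw [Nat.cast_one]
    exact isCoprime_one_right⟩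
  exact ⟨fun ζ η h1 h2 => h.mul ζ η (fun k => a _ (h1 k)) (a _ h2),
    fun ζ δ h1 h2 => h.inv ζ δ (fun k => a _ (h1 k)) h2, h.bd, h.lip⟩

theorem Fam.ginv (h : Fam N q₀ K G) (hζ : ∀ k, Ad q₀ (ζ k) ∧ N * (ζ k).det.natAbs ∣ M) :
    GInv M (G ζ) := by
  intro γ hγ τ
  choose γ' h1 h2 using fun k => act_conj (hζ k).1.1 N (yaa_mono (hζ k).2 hγ)
  rw [← act_SL, ← h.mul ζ γ (fun k => (hζ k).1) (yaa_Ad_SL γ q₀) τ,
    ← h.inv ζ γ' (fun k => (hζ k).1) h1]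
  simp only [h2]

theorem Fam.up_inv (h : Fam N q₀ K G) (hN : 0 < N) (hq : q.Prime) (hc : ¬ q ∣ N)
    (hq₀ : q.Coprime q₀) (hζ : ∀ k, Ad (q₀ * q) (ζ k)) (hξ : IsLn q ξ) (δ : κ → SL(2, ℤ))
    (hδ : ∀ k, δ k ∈ CongruenceSubgroup.Gamma N) :
    G (up N q (fun k => (δ k : M2) * ζ k) ξ) = G (up N q ζ ξ) := by
  choose γ h1 h2 using fun k =>
    yaa_step hN hq hc (hξ.img hq.pos (yaa_Ad_right (hζ k)).2) (hδ k)
  rw [← h.inv (up N q ζ ξ) γ (fun k => yaa_Ad_up hN hq hc hq₀ hξ (hζ k)) h1]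
  congr 1
  funext k
  unfold up
  rw [img_mul, ← mul_assoc, h2, mul_assoc]

theorem Fam.up_mul (h : Fam N q₀ K G) (hN : 0 < N) (hq : q.Prime) (hc : ¬ q ∣ N)
    (hq₀ : q.Coprime q₀) (hζ : ∀ k, Ad (q₀ * q) (ζ k)) (hξ : IsLn q ξ) {η : M2}
    (hη : Ad (q₀ * q) η) (z : ℍ) :
    G (up N q (fun k => ζ k * η) ξ) z = G (up N q ζ (img η ξ)) (act η z) := by
  rw [← h.mul (up N q ζ (img η ξ)) η
    (fun k => yaa_Ad_up hN hq hc hq₀ (hξ.img hq.pos (yaa_Ad_right hη).2) (hζ k))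
    (yaa_Ad_left hη) z]
  have e : up N q (fun k => ζ k * η) ξ = fun k => up N q ζ (img η ξ) k * η := by
    funext k
    unfold up
    rw [img_mul, mul_assoc]
  rw [e]

theorem Fam.up_smul (h : Fam N q₀ K G) (hN : 0 < N) (hq : q.Prime) (hc : ¬ q ∣ N)
    (hq₀ : q.Coprime q₀) (hζ : ∀ k, Ad (q₀ * q) (ζ k) ∧ N * (ζ k).det.natAbs ∣ M)
    (hξ : IsLn q ξ) {δ : SL(2, ℤ)} (hδ : δ ∈ CongruenceSubgroup.Gamma M) (z : ℍ) :
    G (up N q ζ ξ) (δ • z) = G (up N q ζ (pl (δ : M2) ξ)) z := by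
  have hξ' := hξ.pl hq.pos (yaa_SL δ q)
  choose γ' h1 h2 using fun k => act_conj (hζ k).1.1 N (yaa_mono (hζ k).2 hδ)
  have a := h.up_mul hN hq hc hq₀ (fun k => (hζ k).1) hξ' (yaa_Ad_SL δ _) z
  rw [(pl_img hξ (yaa_SL δ q)).2, act_SL] at a
  rw [← a, ← h.up_inv hN hq hc hq₀ (fun k => (hζ k).1) hξ' γ' h1]
  simp only [h2]

theorem Fam.tq (h : Fam N q₀ K G) (hK : 0 ≤ K) (hN : 0 < N) (hq : q.Prime) (hc : ¬ q ∣ N)
    (hq₀ : q.Coprime q₀) : Fam N (q₀ * q) K (Tq N q G) := by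
  refine ⟨fun ζ η h1 h2 z => ?_, fun ζ δ h1 h2 => ?_,
    fun ζ z => abs_mnB_le (by norm_num) fun ξ _ => h.bd _ _,
    fun ζ => Lip.mnB hK fun ξ _ => h.lip _⟩
  · unfold Tq
    rw [mnB_apply, mnB_apply, ← mn_Xn_img hq.pos (yaa_Ad_right h2).2
      fun ξ => G (up N q ζ ξ) (act η z)]
    unfold mn
    rw [Finset.sum_congr rfl fun ξ hξ =>
      h.up_mul hN hq hc hq₀ h1 ((mem_Xn hq.pos).1 hξ) h2 z]
  · unfold Tq mnB
    rw [Finset.sum_congr rfl fun ξ hξ =>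
      h.up_inv hN hq hc hq₀ h1 ((mem_Xn hq.pos).1 hξ) δ h2]

theorem Fam.sq (h : Fam N q₀ K G) {I : ℝ} (hI : |I| ≤ 1 / 2) : Fam N q₀ K (sqF G I) := by
  have e : ∀ ζ z, sqF G I ζ z = 1 / 2 * ((G ζ z - I) * (G ζ z - I)) := fun ζ z => by
    simp [sqF]
  have b : ∀ ζ z, |G ζ z - I| ≤ 1 := fun ζ z => by
    have h1 := abs_le.1 (h.bd ζ z)
    have h2 := abs_le.1 hI
    rw [abs_le]
    constructor <;> linarith [h1.1, h1.2, h2.1, h2.2]
  refine ⟨fun ζ η h1 h2 z => by rw [e, e, h.mul ζ η h1 h2], fun ζ δ h1 h2 => ?_,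
    fun ζ z => ?_, fun ζ z w => ?_⟩
  · unfold sqF
    rw [h.inv ζ δ h1 h2]
  · rw [e, abs_mul, abs_mul, abs_of_pos (by norm_num : (0 : ℝ) < 1 / 2)]
    have := mul_le_one₀ (b ζ z) (abs_nonneg _) (b ζ z)
    linarith
  · rw [e, e]
    have e2 : 1 / 2 * ((G ζ z - I) * (G ζ z - I)) - 1 / 2 * ((G ζ w - I) * (G ζ w - I)) =
        (G ζ z - G ζ w) * (((G ζ z - I) + (G ζ w - I)) / 2) := by ring
    have h3 : |((G ζ z - I) + (G ζ w - I)) / 2| ≤ 1 := by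
      have h1 := abs_le.1 (b ζ z)
      have h2 := abs_le.1 (b ζ w)
      rw [abs_le]
      constructor <;> linarith [h1.1, h1.2, h2.1, h2.2]
    rw [e2, abs_mul]
    exact (mul_le_of_le_one_right (abs_nonneg _) h3).trans (h.lip ζ z w)

theorem fam_const (N q₀ : ℕ) (hK : 0 ≤ K) :
    Fam N q₀ K fun _ : κ → M2 => BoundedContinuousFunction.const ℍ (1 / 2 : ℝ) := by
  refine ⟨fun _ _ _ _ _ => rfl, fun _ _ _ _ => rfl, fun _ z => ?_, fun _ z w => ?_⟩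
  · rw [BoundedContinuousFunction.const_apply, abs_of_pos (by norm_num)]
  · show |(1 / 2 : ℝ) - 1 / 2| ≤ _
    rw [sub_self, abs_zero]
    exact mul_nonneg hK dist_nonneg

theorem fam_pr [Fintype κ] [Nonempty κ] {φ : κ → (ℍ →ᵇ ℝ)} (h : ∀ k, GInv N (φ k))
    (hb : ∀ k, ‖φ k‖ ≤ 1 / 2) {K₀ : ℝ} (hK₀ : 0 ≤ K₀) (hl : ∀ k, Lip K₀ (φ k))
    (hK : Fintype.card κ * K₀ ≤ K) : Fam N 1 K (prF φ) := by
  have e : ∀ ζ z, prF φ ζ z = ∏ k, φ k (act (ζ k) z) := fun ζ z => by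
    unfold prF
    rw [BoundedContinuousFunction.prod_apply]
    rfl
  have b : ∀ k z, |φ k z| ≤ 1 / 2 := fun k z =>
    ((φ k).norm_coe_le_norm z).trans (hb k)
  refine ⟨fun ζ η h1 h2 z => ?_, fun ζ δ h1 h2 => ?_, fun ζ z => ?_, fun ζ z w => ?_⟩
  · rw [e, e]
    exact Finset.prod_congr rfl fun k _ => by rw [act_mul (h1 k).1 h2.1]
  · ext z
    rw [e, e]
    exact Finset.prod_congr rfl fun k _ => by
      rw [act_mul (yaa_Ad_SL (δ k) 1).1 (h1 k).1, act_SL, h k _ (h2 k)]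
  · obtain ⟨k0⟩ := ‹Nonempty κ›
    rw [e, Finset.abs_prod, ← Finset.mul_prod_erase _ _ (Finset.mem_univ k0)]
    exact (mul_le_of_le_one_right (abs_nonneg _) (Finset.prod_le_one (fun _ _ => abs_nonneg _)
      fun k _ => (b k _).trans (by norm_num))).trans (b k0 _)
  · have := Lip.prod hK₀ (O := (Finset.univ : Finset κ)) (F := fun k => cact (φ k) (ζ k))
      (fun k _ => ⟨(hl k).cact _, fun z => (b k _).trans (by norm_num)⟩) z w
    rw [Finset.card_univ] at this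
    exact this.trans (mul_le_mul_of_nonneg_right hK dist_nonneg)

theorem exists_up (hN : 0 < N) (hq : q.Prime) (hc : ¬ q ∣ N) {d : ℕ} (hd : 0 < d) (hc' : ¬ q ∣ d)
    {η h : M2} (h1 : η.det = (d * q : ℕ)) (h2 : h.det = d) (h3 : Ker d h ⊆ Ker d η)
    (h4 : Ker q η = ξ) : ∃ c : vcjQ N, ∃ δ ∈ CongruenceSubgroup.Gamma N,
      η = (δ : M2) * (nu N q (img ((c.out : SL(2, ℤ)) * h) ξ) * ((c.out : SL(2, ℤ)) * h)) := by
  have hdq : q.Coprime d := (Nat.Prime.coprime_iff_not_dvd hq).2 hc'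
  have hq0 : (q : ℤ) ≠ 0 := by exact_mod_cast hq.ne_zero
  obtain ⟨ζ₁, ζ₂, a1, a2, a3⟩ := exists_fact hd hq.pos hdq.symm (η := η) (by rw [h1, Nat.cast_mul])
  rw [a3, Ker_cop (by rw [a2]; exact Nat.isCoprime_iff_coprime.2 hdq)] at h3
  obtain ⟨γ0, a4⟩ := exists_SL_of_Ker hd h2 a1 h3
  have b1 : (ζ₂ * (γ0 : M2)).det = q := by rw [Matrix.det_mul, a2, γ0.det_coe, mul_one]
  obtain ⟨g, u, v, Y, e, hg⟩ := yaa_lift hN hq hc (A := (ζ₂ * (γ0 : M2)).adjugate)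
    (B := !![1, 0; 0, (q : ℤ)]) (by rw [Matrix.det_mul, yaa_detD, xla_det_adj, b1])
  have b2 : Dv N (ζ₂ * (γ0 : M2) * (g : M2) - !![1, 0; 0, (q : ℤ)]) := by
    refine xla_ex.2 ⟨ζ₂ * (γ0 : M2) * Y - v • !![1, 0; 0, (q : ℤ)], ?_⟩
    have e1 : u * q = 1 - N * v := by linear_combination e
    rw [hg, mul_add, mul_smul_comm, mul_smul_comm, ← mul_assoc _ (Matrix.adjugate _),
      Matrix.mul_adjugate, b1, smul_mul_assoc, one_mul, smul_smul, e1]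
    module
  obtain ⟨δ0, hδ0⟩ := QuotientGroup.mk_out_eq_mul (CongruenceSubgroup.Gamma N) g⁻¹
  refine ⟨(g⁻¹ : SL(2, ℤ)), ?_⟩
  set c : SL(2, ℤ) := (QuotientGroup.mk (s := CongruenceSubgroup.Gamma N) g⁻¹).out with hcdef
  have hδ2 : g⁻¹ * (δ0 : SL(2, ℤ))⁻¹ * g ∈ CongruenceSubgroup.Gamma N := by
    have := (CongruenceSubgroup.Gamma_normal N).conj_mem _ (inv_mem δ0.2) g⁻¹
    rwa [inv_inv] at this
  have e2 : c⁻¹ = g * (g⁻¹ * (δ0 : SL(2, ℤ))⁻¹ * g) := by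
    rw [hδ0]
    group
  have b3 : Dv N (ζ₂ * (γ0 : M2) * ((c⁻¹ : SL(2, ℤ)) : M2) - !![1, 0; 0, (q : ℤ)]) := by
    rw [e2, Matrix.SpecialLinearGroup.coe_mul, ← mul_assoc]
    exact yaa_dv_right b2 hδ2
  have b4 : (ζ₂ * (γ0 : M2) * ((c⁻¹ : SL(2, ℤ)) : M2)).det = q := by
    rw [Matrix.det_mul, b1, Matrix.SpecialLinearGroup.det_coe, mul_one]
  have b5 : η = ζ₂ * (γ0 : M2) * ((c⁻¹ : SL(2, ℤ)) : M2) * ((c : M2) * h) := by
    rw [mul_assoc _ _ ((c : M2) * h), ← mul_assoc _ (c : M2), ← Matrix.SpecialLinearGroup.coe_mul,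
      inv_mul_cancel, Matrix.SpecialLinearGroup.coe_one, one_mul, a3, a4, mul_assoc]
  have b6 : IsLn q (Ker q (ζ₂ * (γ0 : M2) * ((c⁻¹ : SL(2, ℤ)) : M2))) := by
    refine isLn_Ker_prime hq (by rw [b4]) ?_
    rw [b4, pow_two]
    intro hh
    have h6 := (mul_dvd_mul_iff_left hq0).1 (hh.trans (dvd_of_eq (mul_one (q : ℤ)).symm))
    exact hq.one_lt.ne' (by exact_mod_cast Int.eq_one_of_dvd_one (by positivity) h6)
  have b7 : IsCoprime ((c : M2) * h).det (q : ℤ) := by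
    rw [Matrix.det_mul, c.det_coe, one_mul, h2]
    exact (Nat.isCoprime_iff_coprime.2 hdq).symm
  have b8 : img ((c : M2) * h) ξ = Ker q (ζ₂ * (γ0 : M2) * ((c⁻¹ : SL(2, ℤ)) : M2)) := by
    rw [← h4]
    conv_lhs => rw [b5, Ker_mul_pl]
    exact (pl_img b6 b7).2
  obtain ⟨δ, hδ, e3⟩ := yaa_eq hN hq hc b6 b4 rfl b3
  refine ⟨δ, hδ, ?_⟩
  rw [b8, ← mul_assoc, ← e3]
  exact b5

theorem exists_twist (hN : 0 < N) (hM : 0 < M) (hq : q.Prime) (hc : ¬ q ∣ M)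
    (hζ : ∀ k, 0 < (ζ k).det ∧ N * (ζ k).det.natAbs ∣ M) : ∃ ζ' : κ → M2,
      (∀ k, (ζ' k).det = (ζ k).det) ∧ ∀ ξ ∈ Xn q, ∀ k, ∃ δ ∈ CongruenceSubgroup.Gamma N,
        up N q ζ ξ k = (δ : M2) * (ζ' k * nu M q ξ) := by
  have hcN : ∀ k : κ, ¬ q ∣ N := fun k hh => hc ((hh.mul_right _).trans (hζ k).2)
  have hcd : ∀ k : κ, ¬ q ∣ (ζ k).det.natAbs := fun k hh => hc ((hh.mul_left _).trans (hζ k).2)
  have hdd : ∀ k : κ, (((ζ k).det.natAbs : ℕ) : ℤ) = (ζ k).det := fun k =>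
    Int.natAbs_of_nonneg (hζ k).1.le
  have hAd : ∀ k : κ, Ad q (ζ k) := fun k => ⟨(hζ k).1, by
    rw [← hdd k]
    exact (yaa_cop hq (hcd k)).symm⟩
  have hne : (Xn q).Nonempty := by
    have := (card_Xn hq one_pos).1
    rw [pow_one] at this
    exact Finset.card_pos.1 (hq.pos.trans_le this)
  obtain ⟨ξ0, hξ0⟩ := hne
  rw [mem_Xn hq.pos] at hξ0
  obtain ⟨m1, m2, m3⟩ := nu_spec hM hq hc hξ0
  have key : ∀ k : κ, ∃ ζ' : M2, ζ'.det = (ζ k).det ∧ up N q ζ ξ0 k = ζ' * nu M q ξ0 := by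
    intro k
    obtain ⟨a1, a2⟩ := up_spec hN hq (hcN k) hξ0 (hAd k)
    obtain ⟨ζ₁, ζ₂, b1, b2, b3⟩ := exists_fact hq.pos (Int.natAbs_pos.2 (hζ k).1.ne')
      ((Nat.Prime.coprime_iff_not_dvd hq).2 (hcd k)) (η := up N q ζ ξ0 k) (by rw [a1, hdd])
    rw [b3, Ker_cop (by rw [b2]; exact (yaa_cop hq (hcd k)).symm)] at a2
    obtain ⟨γ, hγ⟩ := exists_SL_of_Ker hq.pos m1 b1 (by rw [m2, a2])
    exact ⟨ζ₂ * (γ : M2), by rw [Matrix.det_mul, γ.det_coe, mul_one, b2, hdd],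
      by rw [b3, hγ, mul_assoc]⟩
  choose ζ' h1 h2 using key
  refine ⟨ζ', h1, fun ξ hξ k => ?_⟩
  rw [mem_Xn hq.pos] at hξ
  obtain ⟨γ1, g1, e1⟩ := line_trans_Gamma hq.pos hM ((Nat.Prime.coprime_iff_not_dvd hq).2 hc)
    hξ0 hξ
  have e0 : img (γ1 : M2) ξ = ξ0 := by rw [← e1, (pl_img hξ0 (yaa_SL γ1 q)).2]
  obtain ⟨γ2, g2, e2⟩ := yaa_step hM hq hc hξ g1
  rw [e0] at e2
  obtain ⟨γ1', g1', e1'⟩ := act_conj (hζ k).1 N (yaa_mono (hζ k).2 g1)
  obtain ⟨γ2', g2', e2'⟩ := act_conj (ξ := ζ' k) (by rw [h1]; exact (hζ k).1) N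
    (yaa_mono (by rw [h1]; exact (hζ k).2) g2)
  obtain ⟨γ3, g3, e3⟩ := yaa_step hN hq (hcN k) (hξ.img hq.pos (hAd k).2) g1'
  rw [← img_mul, ← e1', img_mul, e0] at e3
  refine ⟨γ3⁻¹ * γ2', mul_mem (inv_mem g3) g2', ?_⟩
  have e4 : (γ3 : M2) * up N q ζ ξ k = (γ2' : M2) * (ζ' k * nu M q ξ) := by
    have e5 : up N q ζ ξ0 k * (γ1 : M2) = (γ3 : M2) * up N q ζ ξ k := by
      unfold up
      rw [mul_assoc, e1', ← mul_assoc, e3, mul_assoc]
    rw [← e5, h2, mul_assoc, e2, ← mul_assoc, e2', mul_assoc]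
  rw [Matrix.SpecialLinearGroup.coe_mul, mul_assoc, ← e4, ← mul_assoc,
    ← Matrix.SpecialLinearGroup.coe_mul, inv_mul_cancel, Matrix.SpecialLinearGroup.coe_one,
    one_mul]

end Pool.Agent.EQ
end
end

-- part Pool.Agent.P.MP_ad7a55_nt.YUe
section

/-! Nets, the cusp, balls and Lipschitz approximation. -/

set_option autoImplicit false

noncomputable section

open MeasureTheory Topology Filter UpperHalfPlane Finset
open scoped MatrixGroups BoundedContinuousFunction Matrix Classical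

namespace Pool.Agent.EQ

theorem yue_im {τ : ℍ} (h : τ ∈ ModularGroup.fd) : 1 / 2 < τ.im := by
  have := ModularGroup.three_le_four_mul_im_sq_of_mem_fd h
  have := τ.im_pos
  nlinarith

theorem yue_floor {x y m : ℝ} (hm : 0 < m) (h : ⌊x / m⌋ = ⌊y / m⌋) : |x - y| ≤ m := by
  have h1 := Int.abs_sub_lt_one_of_floor_eq_floor h
  rw [← sub_div, abs_div, abs_of_pos hm, div_lt_one hm] at h1
  exact h1.le

theorem net_card : ∃ C : ℝ, 0 < C ∧ ∀ U δ : ℝ, 1 ≤ U → 0 < δ → δ ≤ 1 →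
    ∃ (R : Finset ℍ) (cl : ℍ → ℍ), (#R : ℝ) ≤ C * U / δ ^ 2 ∧
      ∀ τ ∈ KU U, cl τ ∈ R ∧ dist τ (cl τ) ≤ δ := by
  refine ⟨42, by norm_num, fun U δ hU h0 h1 => ?_⟩
  have hm : 0 < δ / 4 := by positivity
  let ι : ℍ → ℤ × ℤ := fun τ => (⌊τ.re / (δ / 4)⌋, ⌊τ.im / (δ / 4)⌋)
  have hex : ∀ p : ℤ × ℤ, ∃ w : ℍ, (∃ τ ∈ KU U, ι τ = p) → w ∈ KU U ∧ ι w = p := by
    intro p
    by_cases h : ∃ τ ∈ KU U, ι τ = p
    · obtain ⟨τ, h⟩ := h
      exact ⟨τ, fun _ => h⟩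
    · exact ⟨I, fun h' => absurd h' h⟩
  choose rep hrep using hex
  obtain ⟨a, ha1, ha2⟩ : ∃ a : ℕ, 2 / δ ≤ a ∧ (a : ℝ) < 2 / δ + 1 :=
    ⟨_, Nat.le_ceil _, Nat.ceil_lt_add_one (by positivity)⟩
  obtain ⟨b, hb1, hb2⟩ : ∃ b : ℕ, 4 * U / δ ≤ b ∧ (b : ℝ) < 4 * U / δ + 1 :=
    ⟨_, Nat.le_ceil _, Nat.ceil_lt_add_one (by positivity)⟩
  refine ⟨(Icc (-(a : ℤ)) a ×ˢ Icc (0 : ℤ) b).image rep, fun τ => rep (ι τ), ?_,
    fun τ hτ => ⟨mem_image_of_mem _ ?_, ?_⟩⟩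
  · have hc : #((Icc (-(a : ℤ)) a ×ˢ Icc (0 : ℤ) b).image rep) ≤ (2 * a + 1) * (b + 1) := by
      refine card_image_le.trans (le_of_eq ?_)
      rw [card_product, Int.card_Icc, Int.card_Icc]
      congr 1
      omega
    have hc' : (#((Icc (-(a : ℤ)) a ×ˢ Icc (0 : ℤ) b).image rep) : ℝ) ≤ (2 * a + 1) * (b + 1) := by
      exact_mod_cast hc
    have h2 : 1 ≤ 1 / δ := by rw [le_div_iff₀ h0]; linarith
    have h3 : 1 ≤ U / δ := by rw [le_div_iff₀ h0]; linarith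
    have e1 : 2 / δ = 2 * (1 / δ) := by ring
    have e2 : 4 * U / δ = 4 * (U / δ) := by ring
    have h4 : 2 * (a : ℝ) + 1 ≤ 7 * (1 / δ) := by linarith
    have h5 : (b : ℝ) + 1 ≤ 6 * (U / δ) := by linarith
    refine hc'.trans ((mul_le_mul h4 h5 (by positivity) (by positivity)).trans (le_of_eq ?_))
    field_simp
    norm_num
  · have h2 := abs_le.1 hτ.1.2
    have h3 := hτ.2
    have h4 := τ.im_pos
    have e1 : τ.re / (δ / 4) = 4 * τ.re / δ := by field_simp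
    have e2 : τ.im / (δ / 4) = 4 * τ.im / δ := by field_simp
    have h5 : 4 * τ.re / δ ≤ 2 / δ := div_le_div_of_nonneg_right (by linarith) h0.le
    have h6 : -(2 / δ) ≤ 4 * τ.re / δ := by
      rw [← neg_div]; exact div_le_div_of_nonneg_right (by linarith) h0.le
    have h7 : 4 * τ.im / δ ≤ 4 * U / δ := div_le_div_of_nonneg_right (by linarith) h0.le
    refine mem_product.2 ⟨mem_Icc.2 ⟨?_, ?_⟩, mem_Icc.2 ⟨?_, ?_⟩⟩
    · refine Int.le_floor.2 ?_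
      push_cast
      linarith
    · have h8 := Int.floor_le (τ.re / (δ / 4))
      have h9 : ((⌊τ.re / (δ / 4)⌋ : ℤ) : ℝ) ≤ ((a : ℤ) : ℝ) := by push_cast; linarith
      exact_mod_cast h9
    · exact Int.floor_nonneg.2 (by positivity)
    · have h8 := Int.floor_le (τ.im / (δ / 4))
      have h9 : ((⌊τ.im / (δ / 4)⌋ : ℤ) : ℝ) ≤ ((b : ℤ) : ℝ) := by push_cast; linarith
      exact_mod_cast h9
  · obtain ⟨hw, he⟩ := hrep (ι τ) ⟨τ, hτ, rfl⟩
    beta_reduce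
    generalize rep (ι τ) = w at hw he ⊢
    have h2 : |w.re - τ.re| ≤ δ / 4 := yue_floor hm (congrArg Prod.fst he)
    have h3 : |w.im - τ.im| ≤ δ / 4 := yue_floor hm (congrArg Prod.snd he)
    have h4 : dist (w : ℂ) τ ≤ δ / 2 := by
      rw [Complex.dist_eq]
      refine (Complex.norm_le_abs_re_add_abs_im _).trans ?_
      rw [Complex.sub_re, Complex.sub_im]
      change |w.re - τ.re| + |w.im - τ.im| ≤ δ / 2
      linarith
    have h5 : 1 / 2 ≤ √(w.im * τ.im) := by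
      refine Real.le_sqrt_of_sq_le ?_
      have := yue_im hw.1
      have := yue_im hτ.1
      nlinarith
    rw [dist_comm]
    refine (dist_le_dist_coe_div_sqrt w τ).trans ?_
    rw [div_le_iff₀ (by linarith)]
    nlinarith

theorem yue_max {z : ℍ} (hz : z ∈ ModularGroup.fd) (γ : SL(2, ℤ)) : (γ • z).im ≤ z.im := by
  rw [ModularGroup.im_smul_eq_div_normSq, ModularGroup.denom_apply]
  refine div_le_self z.im_pos.le ?_
  have hd : γ 0 0 * γ 1 1 - γ 0 1 * γ 1 0 = 1 := by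
    have := γ.det_coe
    rwa [Matrix.det_fin_two] at this
  generalize γ 1 0 = c at hd ⊢
  generalize γ 1 1 = d at hd ⊢
  have h1 : 1 ≤ c ^ 2 - |c * d| + d ^ 2 := by
    have h2 : c ≠ 0 ∨ d ≠ 0 := by
      by_contra h
      push Not at h
      simp [h.1, h.2] at hd
    rw [abs_mul, ← sq_abs c, ← sq_abs d]
    have h3 := abs_nonneg c
    have h4 := abs_nonneg d
    rcases h2 with h | h
    · have := Int.one_le_abs h
      nlinarith [sq_nonneg (|c| - 2 * |d|)]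
    · have := Int.one_le_abs h
      nlinarith [sq_nonneg (|d| - 2 * |c|)]
  have h2 : (1 : ℝ) ≤ (c : ℝ) ^ 2 - |(c : ℝ) * d| + (d : ℝ) ^ 2 := by exact_mod_cast h1
  have h3 : 1 ≤ z.re * z.re + z.im * z.im := hz.1
  have h4 : |2 * z.re * ((c : ℝ) * d)| ≤ |(c : ℝ) * d| := by
    rw [abs_mul, abs_mul, abs_two]
    refine mul_le_of_le_one_left (abs_nonneg _) ?_
    have := hz.2
    linarith
  have h5 := (abs_le.1 h4).1
  have e : Complex.normSq ((c : ℂ) * z + d) =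
      (c : ℝ) ^ 2 * (z.re * z.re + z.im * z.im) + 2 * z.re * ((c : ℝ) * d) + (d : ℝ) ^ 2 := by
    rw [Complex.normSq_apply]
    simp
    ring
  rw [e]
  nlinarith [mul_le_mul_of_nonneg_left h3 (sq_nonneg (c : ℝ))]

theorem yue_vol {t : ℝ} (ht : 0 < t) :
    volume (ModularGroup.fd ∩ {z : ℍ | t < z.im}) ≤ ENNReal.ofReal t⁻¹ := by
  rw [volume_eq_lintegral]
  have hs : UpperHalfPlane.coe '' (ModularGroup.fd ∩ {z : ℍ | t < z.im}) ⊆
      Complex.measurableEquivRealProd ⁻¹' (Set.Icc (-(1 / 2) : ℝ) (1 / 2) ×ˢ Set.Ioi t) := by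
    rintro _ ⟨τ, hτ, rfl⟩
    exact ⟨abs_le.1 hτ.1.2, hτ.2⟩
  refine (lintegral_mono_set hs).trans (le_of_eq ?_)
  have h1 := Complex.volume_preserving_equiv_real_prod.setLIntegral_comp_preimage_emb
    Complex.measurableEquivRealProd.measurableEmbedding
    (fun q : ℝ × ℝ => (1 : ENNReal) * (((1 / ‖q.2‖₊) ^ 2 : NNReal) : ENNReal))
    (Set.Icc (-(1 / 2) : ℝ) (1 / 2) ×ˢ Set.Ioi t)
  rw [Measure.volume_eq_prod, ← Measure.prod_restrict,
    lintegral_prod_mul (f := fun _ => 1)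
      (g := fun y : ℝ => (((1 / ‖y‖₊) ^ 2 : NNReal) : ENNReal)) (by fun_prop) (by fun_prop)] at h1
  have h2 : ∫⁻ y in Set.Ioi t, (((1 / ‖y‖₊) ^ 2 : NNReal) : ENNReal) = ENNReal.ofReal t⁻¹ := by
    have h3 : ∫ y in Set.Ioi t, y ^ (-2 : ℝ) = t⁻¹ := by
      rw [integral_Ioi_rpow_of_lt (by norm_num) ht]
      norm_num
      exact Real.rpow_neg_one t
    rw [← h3, ofReal_integral_eq_lintegral_ofReal (integrableOn_Ioi_rpow_of_lt (by norm_num) ht)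
      ((ae_restrict_iff' measurableSet_Ioi).2 (Eventually.of_forall fun y hy =>
        Real.rpow_nonneg (ht.trans hy).le _))]
    refine setLIntegral_congr_fun measurableSet_Ioi fun y hy => ?_
    have hy' : 0 < y := ht.trans hy
    rw [ENNReal.ofReal, ENNReal.coe_inj]
    ext
    rw [Real.coe_toNNReal _ (by positivity), Real.rpow_neg hy'.le]
    simp [abs_of_pos hy']
  rw [h2] at h1
  simp only [one_mul] at h1
  refine h1.trans ?_
  simp
  norm_num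

theorem exists_cut : ∃ C : ℝ, 0 < C ∧ ∀ U : ℝ, 1 ≤ U → ∃ χ : ℍ →ᵇ ℝ,
    (∀ (γ : SL(2, ℤ)) z, χ (γ • z) = χ z) ∧ (∀ z, 0 ≤ χ z ∧ χ z ≤ 1) ∧
      (∀ z ∈ ModularGroup.fd, z ∉ KU U → χ z = 1) ∧ IN 1 χ ≤ C / U := by
  choose g hg using ModularGroup.exists_max_im
  let lh : ℍ → ℝ := fun z => Real.log (g z • z).im
  have h1 : ∀ (γ : SL(2, ℤ)) z, Real.log (γ • z).im ≤ lh z := fun γ z =>
    Real.log_le_log (γ • z).im_pos (hg z γ)
  have h2 : ∀ (γ : SL(2, ℤ)) z, lh (γ • z) ≤ lh z := fun γ z => by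
    have := h1 (g (γ • z) * γ) z
    rwa [mul_smul] at this
  have h3 : ∀ (γ : SL(2, ℤ)) z, lh (γ • z) = lh z := fun γ z => le_antisymm (h2 γ z) (by
    have := h2 γ⁻¹ (γ • z)
    rwa [inv_smul_smul] at this)
  have h4 : LipschitzWith 1 lh := LipschitzWith.of_le_add fun z w => by
    have h5 := dist_log_im_le (g z • z) (g z • w)
    rw [xkg_dist, Real.dist_eq] at h5
    have h6 := h1 (g z) w
    have h7 := (abs_le.1 h5).2
    change Real.log (g z • z).im ≤ _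
    linarith
  refine ⟨(volume (ModularGroup.fd : Set ℍ))⁻¹.toReal * Real.exp 1 + 1, by positivity,
    fun U hU => ?_⟩
  have hU0 : 0 < U := by linarith
  have hb : ∀ z, 0 ≤ max 0 (min 1 (lh z - Real.log U + 1)) ∧
      max 0 (min 1 (lh z - Real.log U + 1)) ≤ 1 := fun z =>
    ⟨le_max_left _ _, max_le zero_le_one (min_le_left _ _)⟩
  have hcont := h4.continuous
  let χ : ℍ →ᵇ ℝ := BoundedContinuousFunction.ofNormedAddCommGroup
    (fun z => max 0 (min 1 (lh z - Real.log U + 1))) (by fun_prop) 1 fun z => by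
      rw [Real.norm_of_nonneg (hb z).1]; exact (hb z).2
  have hχ : ∀ z, χ z = max 0 (min 1 (lh z - Real.log U + 1)) := fun z => rfl
  have hinv : ∀ (γ : SL(2, ℤ)) z, χ (γ • z) = χ z := fun γ z => by rw [hχ, hχ, h3]
  refine ⟨χ, hinv, hb, fun z hz hn => ?_, ?_⟩
  · have h5 : U < z.im := not_le.1 fun h => hn ⟨hz, h⟩
    have h6 := h1 1 z
    rw [one_smul] at h6
    have h7 := Real.log_le_log hU0 h5.le
    rw [hχ, min_eq_left (by linarith), max_eq_right zero_le_one]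
  · have hprob := vmh_prob
    have ht : 0 < U * Real.exp (-1) := by positivity
    have hA : MeasurableSet {z : ℍ | U * Real.exp (-1) < z.im} :=
      (isOpen_lt continuous_const continuous_im).measurableSet
    rw [IN_fd one_pos hinv]
    have h5 : ∫ z, χ z ∂ProbabilityTheory.cond volume ModularGroup.fd ≤
        (ProbabilityTheory.cond (volume : Measure ℍ) ModularGroup.fd).real
          {z : ℍ | U * Real.exp (-1) < z.im} := by
      rw [← integral_indicator_one hA]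
      refine integral_mono_ae (χ.integrable _) ((integrable_const (1 : ℝ)).indicator hA) ?_
      filter_upwards [ProbabilityTheory.ae_cond_mem (μ := volume)
        ModularGroup.isClosed_fd.measurableSet] with z hz
      by_cases h : U * Real.exp (-1) < z.im
      · rw [Set.indicator_of_mem (by exact h)]
        exact (hb z).2
      · rw [Set.indicator_of_notMem (by exact h), hχ]
        refine max_le le_rfl (min_le_of_right_le ?_)
        have h6 : lh z ≤ Real.log (U * Real.exp (-1)) :=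
          Real.log_le_log (g z • z).im_pos ((yue_max hz _).trans (not_lt.1 h))
        rw [Real.log_mul hU0.ne' (Real.exp_pos _).ne', Real.log_exp] at h6
        linarith
    refine h5.trans ?_
    rw [measureReal_def, ProbabilityTheory.cond_apply' hA, ENNReal.toReal_mul]
    have h6 := ENNReal.toReal_le_of_le_ofReal (by positivity) (yue_vol ht)
    refine (mul_le_mul_of_nonneg_left h6 ENNReal.toReal_nonneg).trans ?_
    rw [mul_inv, Real.exp_neg, inv_inv, le_div_iff₀ hU0]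
    have e : (volume (ModularGroup.fd : Set ℍ))⁻¹.toReal * (U⁻¹ * Real.exp 1) * U =
        (volume (ModularGroup.fd : Set ℍ))⁻¹.toReal * Real.exp 1 := by field_simp
    rw [e]
    linarith

theorem ball_lower {w : ℍ} (hw : w ∈ ModularGroup.fd) {r : ℝ} (hr : 0 < r) : ∃ c : ℝ, 0 < c ∧
    ∀ (M : ℕ) (g : ℍ →ᵇ ℝ) (s : ℝ), 0 < M → GInv M g → (∀ z, 0 ≤ g z) →
      (∀ z, dist z w ≤ r → s ≤ g z) → c * s ≤ (M : ℝ) ^ 3 * IN M g := by
  have hprob := vmh_prob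
  have hc := xkg_ball hw hr
  refine ⟨_, hc, fun M g s hM hg h0 hs => ?_⟩
  have : NeZero M := ⟨hM.ne'⟩
  have hfin := vcj_fin hM
  have := Fintype.ofFinite (vcjQ M)
  have hidx : (0 : ℝ) < (CongruenceSubgroup.Gamma M).index := by
    exact_mod_cast Nat.pos_of_ne_zero Subgroup.FiniteIndex.index_ne_zero
  have hI0 : 0 ≤ IN M g := integral_nonneg h0
  rcases le_total s 0 with hs0 | hs0
  · exact (mul_nonpos_of_nonneg_of_nonpos hc.le hs0).trans (by positivity)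
  have hI : ((CongruenceSubgroup.Gamma M).index : ℝ) * IN M g = ∑ c : vcjQ M,
      ∫ τ, g (c.out⁻¹ • τ) ∂ProbabilityTheory.cond volume ModularGroup.fd := by
    rw [IN, integral_mH, finsum_eq_sum_of_fintype, ← mul_assoc,
      mul_inv_cancel₀ hidx.ne', one_mul]
  have h4 : ((CongruenceSubgroup.Gamma M).index : ℝ) ≤ (M : ℝ) ^ 3 := by
    exact_mod_cast index_Gamma_le hM
  refine le_trans ?_ (mul_le_mul_of_nonneg_right h4 hI0)
  rw [hI]
  refine le_trans ?_ (single_le_sum (f := fun c : vcjQ M =>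
    ∫ τ, g (c.out⁻¹ • τ) ∂ProbabilityTheory.cond volume ModularGroup.fd)
    (fun c _ => integral_nonneg fun τ => h0 _) (mem_univ (QuotientGroup.mk 1)))
  obtain ⟨δ, e⟩ := QuotientGroup.mk_out_eq_mul (CongruenceSubgroup.Gamma M) 1
  have e2 : ∀ τ : ℍ, g ((QuotientGroup.mk 1 : vcjQ M).out⁻¹ • τ) = g τ := fun τ => by
    rw [e, one_mul, hg _ (inv_mem δ.2)]
  simp only [e2]
  refine le_trans ?_ (mul_meas_ge_le_integral_of_nonneg (Eventually.of_forall h0)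
    (g.integrable _) s)
  rw [mul_comm]
  exact mul_le_mul_of_nonneg_left (measureReal_mono fun τ hτ => hs τ (Metric.mem_ball.1 hτ).le) hs0

theorem exists_lip {N : ℕ} {φ : ℍ →ᵇ ℝ} (h : GInv N φ) (hb : ‖φ‖ ≤ 1 / 2) {ω : ℝ → ℝ}
    (hω : ∀ ε, 0 < ε → 0 < ω ε) (hc : EqC ω φ) {ε : ℝ} (hε : 0 < ε) : ∃ K : ℝ, 0 < K ∧
      ∃ φ' : ℍ →ᵇ ℝ, GInv N φ' ∧ ‖φ'‖ ≤ 1 / 2 ∧ Lip K φ' ∧ ‖φ - φ'‖ ≤ ε := by
  have hω0 := hω ε hε
  obtain ⟨K, hK, hK1⟩ : ∃ K : ℝ, 0 < K ∧ K * ω ε = 1 :=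
    ⟨(ω ε)⁻¹, inv_pos.2 hω0, inv_mul_cancel₀ hω0.ne'⟩
  have hφ : ∀ z, -(1 / 2) ≤ φ z ∧ φ z ≤ 1 / 2 := fun z =>
    abs_le.1 ((φ.norm_coe_le_norm z).trans hb)
  let F : ℍ → ℝ := fun z => ⨅ w, (φ w + K * dist z w)
  have hlo : ∀ z w, -(1 / 2) ≤ φ w + K * dist z w := fun z w => by
    have := (hφ w).1
    have : 0 ≤ K * dist z w := by positivity
    linarith
  have hle : ∀ z w, F z ≤ φ w + K * dist z w := fun z w =>
    ciInf_le ⟨-(1 / 2), by rintro _ ⟨w, rfl⟩; exact hlo z w⟩ w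
  have h1 : ∀ z, F z ≤ φ z := fun z => by simpa using hle z z
  have h2 : ∀ z, -(1 / 2) ≤ F z := fun z => le_ciInf (hlo z)
  have h3 : ∀ z, φ z - ε ≤ F z := fun z => le_ciInf fun w => by
    rcases le_total (dist z w) (ω ε) with hd | hd
    · have := (abs_le.1 (hc ε hε z w hd)).2
      have : 0 ≤ K * dist z w := by positivity
      linarith
    · have := mul_le_mul_of_nonneg_left hd hK.le
      have := (hφ w).1
      have := (hφ z).2
      linarith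
  have h4 : ∀ z z', F z - K * dist z z' ≤ F z' := fun z z' => le_ciInf fun w => by
    have := hle z w
    have := mul_le_mul_of_nonneg_left (dist_triangle z z' w) hK.le
    linarith
  have h5 : Lip K F := fun z z' => by
    have h6 := h4 z z'
    have h7 := h4 z' z
    rw [dist_comm] at h7
    exact abs_le.2 ⟨by linarith, by linarith⟩
  have h6 : ∀ γ ∈ CongruenceSubgroup.Gamma N, ∀ z, F (γ • z) ≤ F z := fun γ hγ z =>
    le_ciInf fun w => by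
      have := hle (γ • z) (γ • w)
      rwa [h γ hγ, xkg_dist] at this
  have hcont : Continuous F :=
    (LipschitzWith.of_dist_le' (K := K) fun z z' => by rw [Real.dist_eq]; exact h5 z z').continuous
  have hn : ∀ z, ‖F z‖ ≤ 1 / 2 := fun z => abs_le.2 ⟨h2 z, (h1 z).trans (hφ z).2⟩
  refine ⟨K, hK, BoundedContinuousFunction.ofNormedAddCommGroup F hcont (1 / 2) hn,
    fun γ hγ z => le_antisymm (h6 γ hγ z) ?_, (BoundedContinuousFunction.norm_le (by norm_num)).2 hn,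
    h5, (BoundedContinuousFunction.norm_le hε.le).2 fun z => ?_⟩
  · have := h6 γ⁻¹ (inv_mem hγ) (γ • z)
    rwa [inv_smul_smul] at this
  · change |φ z - F z| ≤ ε
    have := h1 z
    have := h3 z
    exact abs_le.2 ⟨by linarith, by linarith⟩

end Pool.Agent.EQ
end
end

-- part Pool.Agent.P.MP_ad7a55_nt.XDe
section

/-! The finitary theorem for a fixed cluster shape. -/

set_option autoImplicit false

noncomputable section

open MeasureTheory Topology Filter UpperHalfPlane Finset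
open scoped MatrixGroups BoundedContinuousFunction Matrix Classical

namespace Pool.Agent.EQ

theorem xde_grow (K : ℝ) (m : ℕ) : ∃ T₀ : ℝ, ∀ T : ℝ, T₀ ≤ T → 1 ≤ T →
    K * T ^ m ≤ Real.exp (T ^ 6) := by
  refine ⟨K * (m + 1).factorial, fun T h1 h2 => ?_⟩
  have h3 := Real.pow_div_factorial_le_exp T (by linarith) (m + 1)
  have h4 : (0 : ℝ) < (m + 1).factorial := by positivity
  have h5 : K * T ^ m ≤ T ^ (m + 1) / (m + 1).factorial := by
    rw [le_div_iff₀ h4, pow_succ]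
    have h6 : (0 : ℝ) ≤ T ^ m := by positivity
    nlinarith [mul_le_mul_of_nonneg_left h1 h6]
  exact h5.trans (h3.trans (Real.exp_le_exp.2 (le_self_pow₀ h2 (by norm_num))))

theorem xde_Cl (D : ℤ) : #((Cl_finite D).toFinset) ≤ 3 * D.natAbs ^ 2 := by
  rw [← Set.ncard_eq_toFinset_card _ (Cl_finite D)]
  refine le_trans (Set.ncard_le_ncard (fun w hw => ?_) ?_) (card_small_red D D.natAbs)
  · obtain ⟨a, b, c, h1, h2, h3, -, h5, h6⟩ := exists_red hw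
    refine ⟨a, b, c, h1, h2, ?_, h5, h6⟩
    have h7 := abs_le.1 h2
    have h8 : b ^ 2 ≤ a ^ 2 := sq_le_sq' h7.1 h7.2
    have h9 : a ≤ -D := by nlinarith
    omega
  · refine ((Finset.finite_toSet (Icc (1 : ℤ) D.natAbs ×ˢ Icc (-(D.natAbs : ℤ)) D.natAbs)).image
      fun x : ℤ × ℤ => jL (sp x.1 ((x.2 - th D) / 2))).subset ?_
    rintro w ⟨a, b, c, h1, h2, h3, -, h5⟩
    refine ⟨(a, b), ?_, h5⟩
    have h6 := abs_le.1 h2
    simp only [Finset.mem_coe, Finset.mem_product, Finset.mem_Icc]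
    omega

theorem xde_pi {κ β : Type} [Fintype κ] [DecidableEq κ] (S : κ → Finset β) {B : ℝ}
    (h : ∀ k, (#(S k) : ℝ) ≤ B) :
    (#(Fintype.piFinset S) : ℝ) ≤ B ^ Fintype.card κ := by
  rw [Fintype.card_piFinset, Nat.cast_prod, ← card_univ, ← prod_const]
  exact prod_le_prod (fun k _ => by positivity) fun k _ => h k

theorem xde_Xn {l k : ℕ} (hl : l.Prime) (hk : 0 < k) {T : ℝ} (h : (l : ℝ) ≤ Real.exp T) :
    (#(Xn (l ^ k)) : ℝ) ≤ Real.exp (1 + k * T) := by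
  have h1 := (card_Xn hl hk).2
  have h2 : #(Xn (l ^ k)) ≤ 2 * l ^ k := by
    refine Nat.le_of_mul_le_mul_right (h1.trans ?_) hl.pos
    have := hl.pos
    calc l ^ k * (l + 1) ≤ l ^ k * (2 * l) := Nat.mul_le_mul_left _ (by omega)
      _ = 2 * l ^ k * l := by ring
  refine (Nat.cast_le.2 h2).trans ?_
  rw [Real.exp_add, Real.exp_nat_mul]
  push_cast
  have h3 := Real.add_one_le_exp (1 : ℝ)
  exact mul_le_mul (by linarith) (pow_le_pow_left₀ (by positivity) h k) (by positivity)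
    (by positivity)

namespace Shp

variable {n : ℕ} {ι : Type} [Fintype ι]

omit [Fintype ι] in
theorem Ok.xde_Xi {s : Shp n ι} {v : VD n} {L T : ℝ} {a m₀ y : ℕ} (h : s.Ok v L T a m₀ y)
    (i : Fin v.M) : (#(s.Xi v i) : ℝ) ≤ Real.exp ((6 * s.e + 2) * T ^ 3) := by
  have hT := h.hT
  have he := h.e_pos
  have hR : 0 < v.R := by
    have h1 : (0 : ℝ) < v.R := lt_of_lt_of_le (by positivity) h.cR.1
    exact_mod_cast h1
  have hl : ∀ q, s.Pm v y q → (q : ℝ) ≤ Real.exp T := fun q hq => by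
    have h1 : (q : ℝ) ≤ 2 * y := by exact_mod_cast hq.2.2.1
    linarith [h.ylog]
  have h1 := xde_Xn (h.pl i).1.1 (k := 2 * s.e * v.R) (by positivity) (hl _ (h.pl i).1)
  have h2 := xde_Xn (h.pl i).2.1.1 (k := 2 * s.e) (by positivity) (hl _ (h.pl i).2.1)
  rw [Xi, card_product, Nat.cast_mul]
  refine (mul_le_mul h1 h2 (by positivity) (by positivity)).trans ?_
  rw [← Real.exp_add, Real.exp_le_exp]
  push_cast
  have h3 : (1 : ℝ) ≤ T ^ 3 := one_le_pow₀ (by linarith)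
  have h4 : T ≤ T ^ 3 := le_self_pow₀ (by linarith) (by norm_num)
  have h5 : (v.R : ℝ) * T ≤ 2 * T ^ 3 := by
    have := mul_le_mul_of_nonneg_right h.cR.2 (by linarith : (0 : ℝ) ≤ T)
    linarith [pow_succ T 2]
  have h6 : (0 : ℝ) ≤ s.e := by positivity
  nlinarith [mul_le_mul_of_nonneg_left h5 h6, mul_le_mul_of_nonneg_left h4 h6]

omit [Fintype ι] in
theorem Ok.xde_pr {s : Shp n ι} {v : VD n} {L T : ℝ} {a m₀ y : ℕ} (h : s.Ok v L T a m₀ y)
    {q : ℕ} (hq : q ∈ v.P) : q.Prime ∧ ¬ (q : ℤ) ∣ 2 * v.E ∧ (q : ℤ) ∣ v.b ^ 2 - v.E := by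
  refine ⟨(h.pP q hq).1, fun hd => (h.pP q hq).2.2.2 (hd.trans ⟨s.N * s.dd v, by ring⟩), ?_⟩
  exact ((Int.natCast_dvd_natCast.2 (dvd_prod_of_mem (fun q => q) hq)).mul_left 4).trans h.bP

omit [Fintype ι] in
theorem Ok.xde_big {s : Shp n ι} {v : VD n} {L T : ℝ} {a m₀ y : ℕ} (h : s.Ok v L T a m₀ y)
    {k : Fin n} (hk : k ∈ s.J) : T ≤ -(v.D k : ℝ) := by
  have hT := h.hT
  have h1 : T ≤ T ^ 16 := le_self_pow₀ (by linarith) (by norm_num)
  linarith [(h.large k hk).1, Real.add_one_le_exp (T ^ 16)]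

omit [Fintype ι] in
theorem Ok.xde_fit {s : Shp n ι} {v : VD n} {L T : ℝ} {a m₀ y : ℕ} (h : s.Ok v L T a m₀ y)
    (c : ι) : Fit v.E (v.D (s.cr c)) :=
  (h.fit _ (s.mem c)).trans (fit_sq h.N_pos _)

theorem card_C0 (s : Shp n ι) (Rn : Finset ℍ) : ∃ T₀ : ℝ, ∀ (v : VD n) (L T U : ℝ) (a m₀ y : ℕ)
    (cl : ℍ → ℍ), T₀ ≤ T → s.Ok v L T a m₀ y → (∀ τ ∈ KU U, cl τ ∈ Rn) →
    (#((Orb v.τ).image (s.C0 v U cl)) : ℝ) ≤ Real.exp (T ^ 6) := by
  refine ⟨6 * n + Fintype.card ι * #Rn + Fintype.card ι * (12 * s.e + 4),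
    fun v L T U a m₀ y cl hT₀ h hcl => ?_⟩
  have hT := h.hT
  have hsub : (Orb v.τ).image (s.C0 v U cl) ⊆
      (Fintype.piFinset fun k => if k ∈ s.I \ s.J then (Cl_finite (v.D k)).toFinset else {0}) ×ˢ
      (Fintype.piFinset fun k => if k ∈ s.J then Hn (v.dg k) else {0}) ×ˢ
      (Fintype.piFinset fun _ : ι => insert none (Rn.image some)) ×ˢ
      (Fintype.piFinset fun _ : ι => Fintype.piFinset fun i => s.Xi v i) := by
    refine image_subset_iff.2 fun x hx => mem_product.2 ⟨?_, mem_product.2 ⟨?_,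
      mem_product.2 ⟨?_, ?_⟩⟩⟩
    · refine Fintype.mem_piFinset.2 fun k => ?_
      simp only [C0, sm]
      split_ifs with hk
      · rw [Set.Finite.mem_toFinset]
        exact ⟨_, discL_one (Orb_disc h.disc hx (h.big k)), by rw [jL_one, (fr_spec _).2]⟩
      · exact mem_singleton_self _
    · refine Fintype.mem_piFinset.2 fun k => ?_
      simp only [C0]
      split_ifs with hk
      · exact (h.hk_spec hx hk).1
      · exact mem_singleton_self _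
    · refine Fintype.mem_piFinset.2 fun c => ?_
      simp only [C0, cel]
      split_ifs with hk
      · exact mem_insert_of_mem (mem_image_of_mem _ (hcl _ hk))
      · exact mem_insert_self _ _
    · exact Fintype.mem_piFinset.2 fun c => Fintype.mem_piFinset.2 fun i => h.lab_mem hx c i
  have e1 : (1 : ℝ) ≤ Real.exp (3 * T) := Real.one_le_exp (by linarith)
  have e2 : Real.exp (3 * T) = Real.exp T * Real.exp T ^ 2 := by
    rw [← pow_succ', ← Real.exp_nat_mul]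
    norm_num
  have e3 : (3 : ℝ) ≤ Real.exp T := by linarith [Real.add_one_le_exp T]
  have h1 := xde_pi (fun k => if k ∈ s.I \ s.J then (Cl_finite (v.D k)).toFinset else {0})
    (B := Real.exp (3 * T)) fun k => by
      split_ifs with hk
      · refine (Nat.cast_le.2 (xde_Cl _)).trans ?_
        have h2 : ((v.D k).natAbs : ℝ) ≤ Real.exp T := by
          have h3 : ((v.D k).natAbs : ℤ) = -v.D k := by have := h.big k; omega
          rw [← Int.cast_natCast, h3, Int.cast_neg]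
          exact h.small k hk
        rw [e2]
        push_cast
        exact mul_le_mul e3 (pow_le_pow_left₀ (by positivity) h2 2) (by positivity) (by positivity)
      · rwa [card_singleton, Nat.cast_one]
  have h2 := xde_pi (fun k => if k ∈ s.J then Hn (v.dg k) else {0})
    (B := Real.exp (3 * T)) fun k => by
      split_ifs with hk
      · refine (Nat.cast_le.2 (card_Hn _)).trans ?_
        rw [e2]
        push_cast
        exact (pow_le_pow_left₀ (by positivity) (h.deg k hk).2.1 2).trans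
          (le_mul_of_one_le_left (by positivity) (by linarith))
      · rwa [card_singleton, Nat.cast_one]
  have h3 := xde_pi (fun _ : ι => insert none (Rn.image some)) (B := Real.exp #Rn) fun _ => by
    refine le_trans ?_ (Real.add_one_le_exp _)
    exact_mod_cast (card_insert_le _ _).trans (Nat.succ_le_succ card_image_le)
  have h4 := xde_pi (fun _ : ι => Fintype.piFinset fun i => s.Xi v i)
    (B := Real.exp ((6 * s.e + 2) * T ^ 3) ^ Fintype.card (Fin v.M)) fun _ =>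
      xde_pi (fun i => s.Xi v i) h.xde_Xi
  refine (Nat.cast_le.2 (card_le_card hsub)).trans ?_
  rw [card_product, card_product, card_product, Nat.cast_mul, Nat.cast_mul, Nat.cast_mul]
  refine (mul_le_mul h1 (mul_le_mul h2 (mul_le_mul h3 h4 (by positivity) (by positivity))
    (by positivity) (by positivity)) (by positivity) (by positivity)).trans ?_
  simp only [← Real.exp_nat_mul, ← Real.exp_add, Fintype.card_fin]
  rw [Real.exp_le_exp]
  have k1 : (1 : ℝ) ≤ T ^ 5 := one_le_pow₀ (by linarith)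
  have k2 : T ≤ T ^ 5 := le_self_pow₀ (by linarith) (by norm_num)
  have k3 : (v.M : ℝ) * ((6 * s.e + 2) * T ^ 3) ≤ (12 * s.e + 4) * T ^ 5 := by
    refine (mul_le_mul_of_nonneg_right h.cM.2 (by positivity)).trans (le_of_eq ?_)
    ring
  have k4 := mul_le_mul_of_nonneg_left k3 (Nat.cast_nonneg (α := ℝ) (Fintype.card ι))
  have k5 := mul_le_mul_of_nonneg_left k2 (by positivity : (0 : ℝ) ≤ 6 * n)
  have k6 := mul_le_mul_of_nonneg_left k1 (by positivity : (0 : ℝ) ≤ Fintype.card ι * #Rn)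
  have k7 := mul_le_mul_of_nonneg_right hT₀ (by positivity : (0 : ℝ) ≤ T ^ 5)
  have k8 : T * T ^ 5 = T ^ 6 := by ring
  nlinarith

theorem rd_ok (s : Shp n ι) (Rn : Finset ℍ) (L : ℝ) {U : ℝ} (hU : 1 ≤ U) (a : ℕ) :
    ∃ T₀ : ℝ, ∀ (v : VD n) (T θ C δ₀ : ℝ) (m₀ y : ℕ) (cl : ℍ → ℍ), T₀ ≤ T → s.Ok v L T a m₀ y →
    (∀ τ ∈ KU U, cl τ ∈ Rn) → prb (Orb v.τ) (fun x => ¬ ∀ c, s.ct x c ∈ KU U) ≤ δ₀ →
    (∀ q ∈ v.P, ∃ R : Cty n ι v.M → Finset (ι → Set V2),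
      (∀ b, (#(R b) : ℝ) ≤ C * (q : ℝ) ^ Fintype.card ι / q) ∧
      θ ≤ prb (Orb v.τ) fun x => (fun c => Ker q (s.A v x c)) ∈ R (s.C0 v U cl x)) →
    (s.rd v U cl).Ok y (4 * U ^ 2) ((#Rn : ℝ) ^ Fintype.card ι) (T ^ 6) (Real.exp (T ^ 6)) θ C δ₀
      14 := by
  obtain ⟨T₁, h₁⟩ := s.card_C0 Rn
  obtain ⟨K, Y, A, hK, h₂⟩ := lin_orb L U
  obtain ⟨K', A', R₀, hK', h₃⟩ := xc_orb L U hU
  obtain ⟨T₂, g₂⟩ := xde_grow K (a * A)
  obtain ⟨T₃, g₃⟩ := xde_grow K' (a * A')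
  refine ⟨max (max T₁ Y) (max (max T₂ T₃) R₀), fun v T θ C δ₀ m₀ y cl hT₀ h hcl ht hA => ?_⟩
  simp only [max_le_iff] at hT₀
  obtain ⟨⟨t1, t2⟩, ⟨t3, t4⟩, t5⟩ := hT₀
  have hT := h.hT
  have hT1 : (1 : ℝ) ≤ T := by linarith
  have p13 : (1 : ℝ) ≤ T ^ 13 := one_le_pow₀ hT1
  have p16 : 1000000 * T ^ 13 ≤ T ^ 16 := by
    have h4 : (100 : ℝ) ^ 3 ≤ T ^ 3 := pow_le_pow_left₀ (by norm_num) hT 3
    have h5 : T ^ 16 = T ^ 3 * T ^ 13 := by ring
    rw [h5]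
    exact mul_le_mul_of_nonneg_right (by linarith) (by positivity)
  have hpos : ∀ β ⊆ v.P, 0 < ∏ l ∈ β, l := fun β hβ => prod_pos fun l hl => (h.pP l (hβ hl)).1.pos
  refine ⟨Orb_ne h.disc, fun l hl => ⟨(h.pP l hl).1, (h.pP l hl).2.1, (h.pP l hl).2.2.1⟩,
    fun x hx c l hl => ?_, fun β _ x hx => Orb_map h.disc hx (v.sg β),
    fun β _ x _ x' _ e => funext fun k => (v.sg β).injective (congrFun e k),
    fun β hβ x hx c => (h.et_spec hβ hx c).1, fun β hβ x hx c => (h.et_spec hβ hx c).2.2.2,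
    fun β hβ x hx g c => ?_, fun x _ x' _ e g c => ?_,
    le_trans (Nat.cast_le.2 (card_le_card fun z hz => ?_)) (h₁ v L T U a m₀ y cl t1 h hcl), ?_,
    fun β hβ x hx x' hx' _ _ e₁ e₂ e₃ => h.aux hβ hx hx' e₁ e₂ fun c => congrFun e₃ c, ht, hA,
    fun c β hβ => ?_, fun k l hkl β hβ Z hZ hZ' => ?_⟩
  · obtain ⟨q1, q2, q3⟩ := h.xde_pr hl
    exact AA_line (h.ct_disc hx c).1 (h.ct_disc hx c).2 q1.pos
      ((Nat.prime_iff_prime_int.1 q1).coprime_iff_not_dvd.2 q2) q3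
  · obtain ⟨q1, q2, q3, -⟩ := h.et_spec hβ hx c
    have q4 : act (s.et v β x c) (s.ct x c) ∈ KU U := by
      rw [q3]
      exact g.2 c
    exact ⟨q1, q2, ht_le_KU hU (hpos β hβ) q1 (g.1 c) q4⟩
  · have e' : cel U cl (s.ct x c) = cel U cl (s.ct x' c) := congrFun (congrArg (·.2.2.1) e) c
    by_contra hn
    rw [cel, cel, if_pos (g c), if_neg hn] at e'
    exact Option.some_ne_none _ e'
  · simp only [mem_image] at hz ⊢
    exact hz
  · refine le_trans (Nat.cast_le.2 (card_le_card fun z hz => ?_))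
      (xde_pi (fun _ : ι => Rn.image some) fun _ => Nat.cast_le.2 card_image_le)
    simp only [mem_image, mem_filter] at hz
    obtain ⟨x, hx, rfl⟩ := hz
    refine Fintype.mem_piFinset.2 fun c => ?_
    have g : s.ct x c ∈ KU U := hx.2 c
    change cel U cl (s.ct x c) ∈ _
    rw [cel, if_pos g]
    exact mem_image_of_mem _ (hcl _ g)
  · have hc := s.mem c
    have h4 := h₂ n v.τ v.D h.disc (s.cr c) v.E v.b β (fun _ => 1) (t2.trans (h.xde_big hc))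
      (h.low _ hc) (h.xde_fit c) (fun l hl => by
        obtain ⟨q1, q2, q3⟩ := h.xde_pr (hβ hl)
        exact ⟨q1, q2, one_pos, by rwa [pow_one]⟩) (h.prod_le hβ).2 (by
        simp only [pow_one]
        have h5 : (((∏ l ∈ β, l : ℕ) : ℝ)) ^ 400 ≤ -(v.D (s.cr c) : ℝ) := by
          refine (pow_le_pow_left₀ (by positivity) (h.prod_le hβ).1 400).trans
            (le_trans ?_ (h.large _ hc).1)
          rw [← Real.exp_nat_mul, Real.exp_le_exp]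
          push_cast
          linarith
        exact_mod_cast h5)
    simp only [pow_one] at h4
    refine le_trans (Nat.cast_le.2 (card_le_card fun z hz => ?_)) (h4.trans ?_)
    · rw [mem_filter] at hz ⊢
      exact ⟨hz.1, hz.2.1 c, hz.2.2.1 c, hz.2.2.2⟩
    · refine mul_le_mul_of_nonneg_right (div_le_div_of_nonneg_right ?_ (by positivity))
        (by positivity)
      refine le_trans (mul_le_mul_of_nonneg_left ?_ hK.le) (g₂ T t3 hT1)
      rw [pow_mul]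
      exact pow_le_pow_left₀ (Real.log_nonneg (hT1.trans (h.xde_big hc))) (h.large _ hc).2 _
  · obtain ⟨R, hR⟩ : ∃ R : ℕ, R = ⌊Real.exp (T ^ 16 / 3)⌋₊ := ⟨_, rfl⟩
    have r1 : (R : ℝ) ^ 3 ≤ Real.exp (T ^ 16) := by
      refine (pow_le_pow_left₀ (by positivity) (hR ▸ Nat.floor_le (by positivity)) 3).trans
        (le_of_eq ?_)
      rw [← Real.exp_nat_mul]
      congr 1
      push_cast
      ring
    have r2 : Real.exp (400 * T ^ 13) ≤ R := by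
      have h4 := Nat.lt_floor_add_one (Real.exp (T ^ 16 / 3))
      rw [← hR] at h4
      have h5 : Real.exp (400 * T ^ 13 + 1) ≤ Real.exp (T ^ 16 / 3) :=
        Real.exp_le_exp.2 (by linarith)
      rw [Real.exp_add] at h5
      have h6 : (1 : ℝ) ≤ Real.exp (400 * T ^ 13) := Real.one_le_exp (by positivity)
      have h7 := Real.add_one_le_exp (1 : ℝ)
      nlinarith
    have r3 : ∀ c, (R : ℤ) ^ 3 ≤ -v.D (s.cr c) := fun c => by
      exact_mod_cast r1.trans (h.large _ (s.mem c)).1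
    have z1 : Z ≤ Real.exp (2 * T ^ 13) := by
      have h4 : (y : ℝ) ≤ Real.exp T := by linarith [h.ylog, Nat.cast_nonneg (α := ℝ) y]
      refine hZ'.trans ((pow_le_pow_left₀ (by positivity) h4 _).trans ?_)
      rw [← Real.exp_nat_mul, Real.exp_le_exp]
      refine (mul_le_mul_of_nonneg_right h.cP.2 (by linarith)).trans (le_of_eq ?_)
      ring
    have h4 := h₃ n v.τ v.D h.disc (s.cr k) (s.cr l) v.E v.b β R Z (T ^ a) (h.low _ (s.mem k))
      (h.xde_fit k) (h.xde_fit l) (fun p hp => h.xde_pr (hβ hp)) (h.prod_le hβ).2 hZ (by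
        refine le_trans ?_ r2
        have h5 : (R₀ : ℝ) ≤ Real.exp (T ^ 13) := by
          have h6 : T ≤ T ^ 13 := le_self_pow₀ hT1 (by norm_num)
          linarith [Real.add_one_le_exp (T ^ 13)]
        refine (mul_le_mul h5 (pow_le_pow_left₀ (by linarith) z1 2) (by positivity)
          (by positivity)).trans ?_
        rw [← Real.exp_nat_mul, ← Real.exp_add, Real.exp_le_exp]
        push_cast
        linarith) (by
        have h5 : (((∏ l ∈ β, l : ℕ) : ℝ)) ^ 200 ≤ R := by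
          refine (pow_le_pow_left₀ (by positivity) (h.prod_le hβ).1 200).trans (le_trans ?_ r2)
          rw [← Real.exp_nat_mul, Real.exp_le_exp]
          push_cast
          linarith
        exact_mod_cast h5) (r3 k) (r3 l) (one_le_pow₀ hT1) (h.large _ (s.mem k)).2
      (h.large _ (s.mem l)).2 fun d hd hd' => h.sep k l hkl d hd
        (le_trans (by exact_mod_cast hd') r1)
    refine le_trans (pb_mono fun x _ hx => ⟨hx.1 k, hx.1 l, hx.2⟩) (h4.trans ?_)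
    refine div_le_div_of_nonneg_right (mul_le_mul_of_nonneg_right ?_ (by positivity))
      (by positivity)
    rw [← pow_mul]
    exact g₃ T t4 hT1

end Shp

theorem fin_main {N : ℕ} (hN : 0 < N) (F : IntermediateField ℚ ℂ) [FiniteDimensional ℚ F] (n : ℕ) :
    ∃ e : ℕ, 0 < e ∧ ∀ (φ : Fin n → (ℍ →ᵇ ℝ)), (∀ k, Tc N F (φ k)) → (∀ k, ‖φ k‖ ≤ 1 / 2) →
      ∀ (ι : Type) [Fintype ι] [Nonempty ι] (s : Shp n ι), s.N = N → s.e = e →
      ∀ (L θ : ℝ) (a : ℕ), 0 < θ → ∃ (m₀ : ℕ) (T₀ : ℝ), ∀ (v : VD n) (T : ℝ) (y : ℕ)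
        (ψ : (Fin n × Fn → ℂ) → ℝ), T₀ ≤ T → s.Ok v L T a m₀ y → Oth s.I v.D ψ →
        (∀ z, |ψ z| ≤ 1) → |avg (ON N F v.τ) fun z => ψ z *
          (PT N F φ s.I z - (∏ k ∈ s.J, IN N (φ k)) * PT N F φ (s.I \ s.J) z)| ≤ θ := by
  obtain ⟨e, T₁, he, h₁⟩ := Shp.red hN F n
  refine ⟨e, he, fun φ hφ hb ι _ _ s hsN hse L θ a hθ => ?_⟩
  have hr : (0 : ℝ) < Module.finrank ℚ F := by exact_mod_cast Module.finrank_pos
  have hc : (0 : ℝ) < Fintype.card ι := by exact_mod_cast Fintype.card_pos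
  obtain ⟨θ₁, hθ₁, e₁⟩ : ∃ θ₁ : ℝ, 0 < θ₁ ∧ θ₁ = θ / (4 * Module.finrank ℚ F) :=
    ⟨_, by positivity, rfl⟩
  obtain ⟨δ₀, hδ₀, h₂⟩ := rig ι (half_pos hθ₁) 14 a
  obtain ⟨U, Y, hU, h₃⟩ := tight_orb L (δ := min δ₀ (θ₁ / 4) / Fintype.card ι)
    (div_pos (lt_min hδ₀ (by positivity)) hc)
  obtain ⟨ω, hω, hω'⟩ := Tc.eqC hN hφ
  obtain ⟨cl, Rn, C, T₂, m₀, hcl, h₄⟩ := s.stepA (hsN ▸ hN) φ (fun k => hsN ▸ (hφ k).1.ginv) hb hω
    hω' L U a (N ^ (3 * n)) (half_pos hθ) hθ₁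
  obtain ⟨T₃, h₅⟩ := s.rd_ok Rn L hU a
  obtain ⟨T₄, h₆⟩ := h₂ C (4 * U ^ 2) ((#Rn : ℝ) ^ Fintype.card ι)
  refine ⟨m₀, max (max T₁ T₂) (max (max T₃ T₄) Y), fun v T y ψ hT₀ h hψ hψ' => ?_⟩
  simp only [max_le_iff] at hT₀
  obtain ⟨⟨t1, t2⟩, ⟨t3, t4⟩, t5⟩ := hT₀
  have hT1 : (1 : ℝ) ≤ T := by linarith [h.hT]
  have hT6 : T ≤ T ^ 6 := le_self_pow₀ hT1 (by norm_num)
  by_contra hn
  obtain ⟨Ws, hW, hE⟩ := h₁ ι s φ hsN hse (fun k => (hφ k).1) (fun k => by linarith [hb k]) v L T a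
    m₀ y ψ θ t1 h hψ hψ' hθ (not_le.1 hn).le
  rw [← e₁] at hE
  have ht : prb (Orb v.τ) (fun x => ¬ ∀ c, s.ct x c ∈ KU U) ≤ min δ₀ (θ₁ / 4) := by
    refine le_trans (pb_mono fun x _ hx => ?_)
      ((pb_exists (Orb v.τ) univ fun c x => fr (x (s.cr c)) ∉ KU U).trans ?_)
    · obtain ⟨c, hc⟩ := not_forall.1 hx
      exact ⟨c, mem_univ c, hc⟩
    · refine (sum_le_card_nsmul _ _ _ fun c _ => h₃ n v.τ v.D h.disc (s.cr c)
        (t5.trans (h.xde_big (s.mem c))) (h.low _ (s.mem c))).trans (le_of_eq ?_)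
      rw [card_univ, nsmul_eq_mul, mul_div_cancel₀ _ hc.ne']
  refine h₆ (T ^ 6) (t4.trans hT6) _ _ _ (s.rd v U cl) y (h₅ v T (θ₁ / 2) C δ₀ m₀ y cl t3 h hcl
    (ht.trans (min_le_left _ _)) (h₄ v T y t2 h Ws hW hE (ht.trans (min_le_right _ _))))
    (h.yhi.trans (pow_le_pow_left₀ (by linarith) hT6 a)) ?_
  rw [← pow_mul]
  exact h.cP.1

end Pool.Agent.EQ
end
end
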