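import Pool.Agent.K.MP_ad7a55_nt.C80
import Pool.Agent.K.MP_ad7a55_nt.C1

/-! Few lines lead into the cusp. -/

set_option autoImplicit false

noncomputable section

open MeasureTheory Topology Filter UpperHalfPlane Finset
open scoped MatrixGroups BoundedContinuousFunction Matrix Classical

namespace Pool.Agent.EQ

/-- The move along the line `L` takes `τ` above height `Y`. -/
def Up (l : ℕ) (Y : ℝ) (τ : ℍ) (L : Set V2) : Prop :=
  ∃ η : M2, η.det = l ∧ Ker l η = L ∧ Y ≤ (act η τ).im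

theorem zta_lines {l : ℕ} (hl : l.Prime) {v : V2} (h : ∃ i, ¬ (l : ℤ) ∣ v i) :
    #{L ∈ Xn l | v ∈ L} ≤ 2 := by
  have h1 := xkd_lines (k := 1) (j := 0) hl one_pos zero_le_one (v := v) (Or.inr h)
  simpa only [pow_one, pow_zero, one_smul, mul_one] using h1

theorem zta_norm (τ : ℍ) (c d : ℤ) :
    ‖(c : ℂ) * τ + d‖ ^ 2 = ((c : ℝ) * τ.re + d) ^ 2 + ((c : ℝ) * τ.im) ^ 2 := by
  rw [← Complex.normSq_eq_norm_sq, Complex.normSq_apply]
  simp
  ring

theorem zta_rows {x h R : ℝ} (hh : 5 / 6 ≤ h) (hR : 0 ≤ R) : ∃ B : Finset V2,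
    (#B : ℝ) * h ≤ 7 * R ^ 2 ∧ ∀ c d : ℤ, c ≠ 0 →
      ((c : ℝ) * x + d) ^ 2 + ((c : ℝ) * h) ^ 2 ≤ R ^ 2 → ![d, -c] ∈ B := by
  have h0 : 0 < h := by linarith
  obtain ⟨m, hm⟩ : ∃ m : ℕ, m = ⌊R / h⌋₊ := ⟨_, rfl⟩
  obtain ⟨n, hn⟩ : ∃ n : ℕ, n = ⌊2 * R⌋₊ := ⟨_, rfl⟩
  have m1 : (m : ℝ) ≤ R / h := hm ▸ Nat.floor_le (by positivity)
  have m2 : R / h < m + 1 := hm ▸ Nat.lt_floor_add_one _
  have n1 : (n : ℝ) ≤ 2 * R := hn ▸ Nat.floor_le (by positivity)
  have n2 : 2 * R < n + 1 := hn ▸ Nat.lt_floor_add_one _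
  rw [le_div_iff₀ h0] at m1
  rw [div_lt_iff₀ h0] at m2
  refine ⟨(((Icc (-(m : ℤ)) m).erase 0) ×ˢ Icc (0 : ℤ) n).image
    fun p : ℤ × ℤ => ![⌈-(p.1 : ℝ) * x - R⌉ + p.2, -p.1], ?_, fun c d hc hb => ?_⟩
  · have h1 : #((((Icc (-(m : ℤ)) m).erase 0) ×ˢ Icc (0 : ℤ) n).image
        fun p : ℤ × ℤ => (![⌈-(p.1 : ℝ) * x - R⌉ + p.2, -p.1] : V2)) ≤ 2 * m * (n + 1) := by
      refine card_image_le.trans (le_of_eq ?_)
      rw [card_product, card_erase_of_mem (by simp), Int.card_Icc, Int.card_Icc]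
      congr 1
      all_goals omega
    refine (mul_le_mul_of_nonneg_right (Nat.cast_le.2 h1) h0.le).trans ?_
    push_cast
    rcases Nat.eq_zero_or_pos m with h2 | h2
    · rw [h2]
      simp only [Nat.cast_zero, mul_zero, zero_mul]
      positivity
    · have h3 : (1 : ℝ) ≤ m := by exact_mod_cast h2
      have h4 : h ≤ R := by nlinarith
      have h5 : (n : ℝ) + 1 ≤ 7 / 2 * R := by linarith
      have h6 := mul_le_mul m1 h5 (by positivity) hR
      nlinarith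
  · have b1 : |(c : ℝ) * x + d| ≤ R :=
      abs_le_of_sq_le_sq' (by nlinarith [sq_nonneg ((c : ℝ) * h)]) hR |> abs_le.2
    have b2 : |(c : ℝ) * h| ≤ R :=
      abs_le_of_sq_le_sq' (by nlinarith [sq_nonneg ((c : ℝ) * x + d)]) hR |> abs_le.2
    rw [abs_mul, abs_of_pos h0] at b2
    have b3 : |(c : ℝ)| < m + 1 := lt_of_mul_lt_mul_right (b2.trans_lt m2) h0.le
    have b4 : |c| < (m : ℤ) + 1 := by exact_mod_cast b3
    have b5 := abs_lt.1 b4
    have b6 := abs_le.1 b1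
    have b7 : ⌈-(c : ℝ) * x - R⌉ ≤ d := Int.ceil_le.2 (by linarith)
    have b8 := Int.le_ceil (-(c : ℝ) * x - R)
    have b9 : ((d - ⌈-(c : ℝ) * x - R⌉ : ℤ) : ℝ) < (((n : ℤ) + 1 : ℤ) : ℝ) := by
      push_cast
      linarith
    have b10 : d - ⌈-(c : ℝ) * x - R⌉ < (n : ℤ) + 1 := by exact_mod_cast b9
    refine mem_image.2 ⟨(c, d - ⌈-(c : ℝ) * x - R⌉), mem_product.2
      ⟨mem_erase.2 ⟨hc, mem_Icc.2 ⟨by omega, by omega⟩⟩, mem_Icc.2 ⟨by omega, by omega⟩⟩, ?_⟩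
    simp only [add_sub_cancel]

theorem cusp7 {U Y : ℝ} {τ : ℍ} (h : τ ∈ KU U) {l : ℕ} (hl : l.Prime) (hU : U ≤ l) (hY : 2 ≤ Y)
    (hY' : Y ≤ l) : (#{L ∈ Xn l | Up l Y τ L} : ℝ) ≤ 30 * l / Y := by
  have l2 : (2 : ℝ) ≤ l := by exact_mod_cast hl.two_le
  have hY0 : 0 < Y := by linarith
  have hy := τ.im_pos
  have hy3 := ModularGroup.three_le_four_mul_im_sq_of_mem_fd h.1
  have hy5 : 5 / 6 ≤ τ.im := by nlinarith
  have hyl : τ.im ≤ l := h.2.trans hU
  have hp : Prime (l : ℤ) := Nat.prime_iff_prime_int.1 hl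
  obtain ⟨R, R0, hR⟩ : ∃ R : ℝ, 0 ≤ R ∧ R ^ 2 = l * τ.im / Y :=
    ⟨Real.sqrt _, Real.sqrt_nonneg _, Real.sq_sqrt (by positivity)⟩
  obtain ⟨B, hB, hB'⟩ := zta_rows (x := τ.re) hy5 R0
  have hs : {L ∈ Xn l | Up l Y τ L} ⊆
      ((insert ![1, 0] (insert ![-1, 0] B)).filter fun v : V2 => ∃ i, ¬ (l : ℤ) ∣ v i).biUnion
        fun v => {L ∈ Xn l | v ∈ L} := by
    intro L hL
    obtain ⟨h1, η, hd, hK, hy'⟩ := mem_filter.1 hL
    have h0 : 0 < η.det := by rw [hd]; exact_mod_cast hl.pos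
    have f1 := xkd_im h0 τ
    have f0 := act_den h0 τ
    rw [hd, Int.cast_natCast, zta_norm] at f1
    rw [Matrix.det_fin_two] at hd
    have hv : ![η 1 1, -η 1 0] ∈ L := by
      rw [← hK, xlb_ker]
      simp only [Matrix.cons_val_zero, Matrix.cons_val_one]
      exact ⟨⟨1, by linear_combination hd⟩, 0, by ring⟩
    generalize η 0 0 = a at hd
    generalize η 0 1 = b at hd
    generalize η 1 0 = c at *
    generalize η 1 1 = d at *
    have f2 : Y * (((c : ℝ) * τ.re + d) ^ 2 + ((c : ℝ) * τ.im) ^ 2) ≤ l * τ.im := by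
      rw [← f1]
      exact mul_le_mul_of_nonneg_right hy' (by positivity)
    have big : ∀ e : ℤ, e ≠ 0 → (l : ℤ) ∣ e → (l : ℝ) ^ 2 ≤ (e : ℝ) ^ 2 := by
      intro e he hle
      have g1 : (l : ℤ) ≤ |e| := Int.le_of_dvd (abs_pos.2 he) ((dvd_abs _ _).2 hle)
      have g2 : (l : ℝ) ≤ |(e : ℝ)| := by exact_mod_cast g1
      rw [← sq_abs (e : ℝ)]
      exact pow_le_pow_left₀ (by linarith) g2 2
    refine mem_biUnion.2 ⟨![d, -c], mem_filter.2 ?_, mem_filter.2 ⟨h1, hv⟩⟩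
    by_cases hc : c = 0
    · subst hc
      have hd0 : d ≠ 0 := by
        rintro rfl
        simp at f0
      have hnd : ¬ (l : ℤ) ∣ d := by
        intro hld
        have g1 := big d hd0 hld
        simp only [Int.cast_zero, zero_mul, zero_add, ne_eq, OfNat.ofNat_ne_zero,
          not_false_eq_true, zero_pow, add_zero] at f2
        have g2 := mul_le_mul hY g1 (by positivity) hY0.le
        nlinarith
      refine ⟨?_, 0, hnd⟩
      have g1 : (l : ℤ) = a * d := by linear_combination -hd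
      have g2 : IsUnit d := by
        rcases hp.irreducible.isUnit_or_isUnit g1 with g | g
        · exact absurd (by
            obtain ⟨u, rfl⟩ := g
            exact ⟨(u⁻¹ : ℤˣ), by rw [g1, mul_right_comm, Units.mul_inv, one_mul]⟩) hnd
        · exact g
      rcases Int.isUnit_iff.1 g2 with rfl | rfl
      · exact mem_insert.2 (Or.inl (by simp))
      · exact mem_insert.2 (Or.inr (mem_insert.2 (Or.inl (by simp))))
    · refine ⟨mem_insert_of_mem (mem_insert_of_mem (hB' c d hc ?_)), 1, ?_⟩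
      · rw [hR, le_div_iff₀ hY0]
        linarith
      · intro hlc
        have g0 : (l : ℤ) ∣ c := (dvd_neg.1 hlc)
        have g1 := big c hc g0
        have g2 : (l : ℝ) ^ 2 * τ.im ^ 2 ≤ ((c : ℝ) * τ.re + d) ^ 2 + ((c : ℝ) * τ.im) ^ 2 := by
          have := mul_le_mul_of_nonneg_right g1 (sq_nonneg τ.im)
          rw [mul_pow]
          linarith [sq_nonneg ((c : ℝ) * τ.re + d)]
        have g3 := mul_le_mul hY g2 (by positivity) hY0.le
        have g4 : 1 ≤ (l : ℝ) * τ.im := by nlinarith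
        nlinarith
  have c1 := card_biUnion_le_card_mul
    ((insert ![1, 0] (insert ![-1, 0] B)).filter fun v : V2 => ∃ i, ¬ (l : ℤ) ∣ v i)
    (fun v => {L ∈ Xn l | v ∈ L}) 2 fun v hv => zta_lines hl (mem_filter.1 hv).2
  have c2 : #((insert ![1, 0] (insert ![-1, 0] B)).filter fun v : V2 => ∃ i, ¬ (l : ℤ) ∣ v i) ≤
      #B + 1 + 1 :=
    (card_filter_le _ _).trans ((card_insert_le _ _).trans
      (Nat.add_le_add_right (card_insert_le _ _) 1))
  have c3 : #{L ∈ Xn l | Up l Y τ L} ≤ (#B + 1 + 1) * 2 :=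
    (card_le_card hs).trans (c1.trans (Nat.mul_le_mul_right _ c2))
  have c4 : (#B : ℝ) ≤ 7 * (l / Y) := by
    refine le_of_mul_le_mul_right (hB.trans (le_of_eq ?_)) hy
    rw [hR]
    ring
  have c5 : 1 ≤ (l : ℝ) / Y := by rw [le_div_iff₀ hY0]; linarith
  refine (Nat.cast_le.2 c3).trans ?_
  push_cast
  rw [mul_div_assoc]
  linarith

theorem Up.near {l : ℕ} (hl : 0 < l) {Y : ℝ} {τ τ' : ℍ} {L : Set V2} (h : Up l Y τ L)
    (hd : dist τ τ' ≤ 1) : Up l (Y / 3) τ' L := by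
  obtain ⟨η, h1, h2, h3⟩ := h
  have h0 : 0 < η.det := by rw [h1]; exact_mod_cast hl
  refine ⟨η, h1, h2, ?_⟩
  have h4 := im_le_im_mul_exp_dist (act η τ) (act η τ')
  rw [dist_act h0] at h4
  have h5 : Real.exp (dist τ τ') ≤ 3 :=
    (Real.exp_le_exp.2 hd).trans (Real.exp_one_lt_d9.le.trans (by norm_num))
  have h6 := mul_le_mul_of_nonneg_left h5 (act η τ').im_pos.le
  linarith

theorem many_hits {κ α : Type} [Fintype κ] (X : κ → Finset α) (B : κ → α → Prop) (w : κ → ℝ)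
    {ε t : ℝ} (hε : 0 < ε) (hε' : ε ≤ 1) (hX : ∀ k, (#(X k) : ℝ) ≤ w k)
    (hB : ∀ k, (#{a ∈ X k | B k a} : ℝ) ≤ ε * w k) :
    (#{f ∈ Fintype.piFinset X | t ≤ #{k | B k (f k)}} : ℝ) ≤
      2 ^ Fintype.card κ * ε ^ t * ∏ k, w k := by
  have hw : ∀ k, 0 ≤ w k := fun k => (Nat.cast_nonneg _).trans (hX k)
  have hW : 0 ≤ ∏ k, w k := prod_nonneg fun k _ => hw k
  have hs : {f ∈ Fintype.piFinset X | t ≤ #{k | B k (f k)}} ⊆
      ((univ : Finset κ).powerset.filter fun S => t ≤ #S).biUnion fun S =>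
        Fintype.piFinset fun k => if k ∈ S then {a ∈ X k | B k a} else X k := by
    intro f hf
    obtain ⟨h1, h2⟩ := mem_filter.1 hf
    refine mem_biUnion.2 ⟨univ.filter fun k => B k (f k), mem_filter.2 ⟨mem_powerset.2 (subset_univ _), h2⟩,
      Fintype.mem_piFinset.2 fun k => ?_⟩
    have h3 := Fintype.mem_piFinset.1 h1 k
    split_ifs with h4
    · exact mem_filter.2 ⟨h3, (mem_filter.1 h4).2⟩
    · exact h3
  refine (Nat.cast_le.2 ((card_le_card hs).trans card_biUnion_le)).trans ?_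
  rw [Nat.cast_sum]
  refine (sum_le_card_nsmul _ _ (ε ^ t * ∏ k, w k) fun S hS => ?_).trans ?_
  · rw [Fintype.card_piFinset, Nat.cast_prod]
    have h1 : ∏ k, (#(if k ∈ S then {a ∈ X k | B k a} else X k) : ℝ) ≤
        ∏ k, ((if k ∈ S then ε else 1) * w k) := by
      refine prod_le_prod (fun k _ => Nat.cast_nonneg _) fun k _ => ?_
      split_ifs
      · exact hB k
      · rw [one_mul]
        exact hX k
    refine h1.trans ?_
    rw [prod_mul_distrib, prod_ite_mem, univ_inter, prod_const, ← Real.rpow_natCast]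
    exact mul_le_mul_of_nonneg_right
      (Real.rpow_le_rpow_of_exponent_ge hε hε' (mem_filter.1 hS).2) hW
  · rw [nsmul_eq_mul, mul_assoc]
    refine mul_le_mul_of_nonneg_right ?_ (mul_nonneg (Real.rpow_pos_of_pos hε t).le hW)
    have h1 : #((univ : Finset κ).powerset.filter fun S => t ≤ #S) ≤ 2 ^ Fintype.card κ :=
      (card_filter_le _ _).trans (by rw [card_powerset, card_univ])
    exact_mod_cast h1

theorem zta_one {U Y θ : ℝ} {P : Finset ℕ} (hY : 100 ≤ Y) (hθ : 3 ≤ θ * Real.log (Y / 100))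
    (hP : ∀ l ∈ P, l.Prime ∧ U ≤ l ∧ Y ≤ l) {z : ℍ} (hz : z ∈ KU U) :
    (#{Ls ∈ Fintype.piFinset fun l : P => Xn l |
      θ * #P ≤ #{l : P | Up l (Y / 3) z (Ls l)}} : ℝ) ≤
      Real.exp (-(#P : ℝ)) * (∏ l ∈ P, l : ℕ) := by
  have hY0 : 0 < Y := by linarith
  have hε : 0 < 100 / Y := by positivity
  have h1 := many_hits (fun l : P => Xn l) (fun l : P => Up l (Y / 3) z)
    (fun l : P => 3 / 2 * ((l : ℕ) : ℝ)) (t := θ * #P) hε ((div_le_one hY0).2 hY)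
    (fun l => by
      have g1 := (hP l l.2).1
      have g2 : (2 : ℝ) ≤ (l : ℕ) := by exact_mod_cast g1.two_le
      have g3 : (#(Xn l) : ℝ) ≤ (l : ℕ) + 1 := by exact_mod_cast card_Xn_prime g1
      linarith)
    (fun l => by
      obtain ⟨g1, g2, g3⟩ := hP l l.2
      refine (cusp7 hz g1 g2 (by linarith) (by linarith)).trans ?_
      have g4 : 0 ≤ ((l : ℕ) : ℝ) / Y := by positivity
      have g5 : 30 * ((l : ℕ) : ℝ) / (Y / 3) = 90 * (((l : ℕ) : ℝ) / Y) := by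
        field_simp
        ring
      have g6 : 100 / Y * (3 / 2 * ((l : ℕ) : ℝ)) = 150 * (((l : ℕ) : ℝ) / Y) := by ring
      rw [g5, g6]
      linarith)
  have e : (fun a b => Classical.propDecidable (a = b) : DecidableEq P) =
      fun a b => a.instDecidableEq b := Subsingleton.elim _ _
  rw [e] at h1
  refine h1.trans ?_
  rw [prod_mul_distrib, prod_const, card_univ, Fintype.card_coe,
    prod_coe_sort P fun l => (l : ℝ), Nat.cast_prod, ← mul_assoc]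
  refine mul_le_mul_of_nonneg_right ?_ (prod_nonneg fun l _ => Nat.cast_nonneg l)
  have h2 : (100 / Y) ^ (θ * #P) ≤ Real.exp (-3 * (#P : ℝ)) := by
    rw [Real.rpow_def_of_pos hε, Real.exp_le_exp, ← inv_div, Real.log_inv]
    have := mul_le_mul_of_nonneg_right hθ (Nat.cast_nonneg (α := ℝ) #P)
    linarith
  have h3 : (2 : ℝ) ^ #P * (3 / 2) ^ #P ≤ Real.exp (2 * (#P : ℝ)) := by
    rw [← mul_pow, mul_comm (2 : ℝ) (#P : ℝ), Real.exp_nat_mul]
    exact pow_le_pow_left₀ (by norm_num) (by linarith [Real.add_one_le_exp (2 : ℝ)]) _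
  have h4 := mul_le_mul h3 h2 (Real.rpow_pos_of_pos hε _).le (Real.exp_pos _).le
  rw [← Real.exp_add, show 2 * (#P : ℝ) + -3 * (#P : ℝ) = -(#P : ℝ) by ring] at h4
  rw [mul_right_comm]
  exact h4

theorem bad7 : ∃ C : ℝ, 0 < C ∧ ∀ (U Y θ : ℝ) (P : Finset ℕ), 1 ≤ U → 100 ≤ Y →
    3 ≤ θ * Real.log (Y / 100) → (∀ l ∈ P, l.Prime ∧ U ≤ l ∧ Y ≤ l) →
    (#{Ls ∈ Fintype.piFinset fun l : P => Xn l |
      ∃ τ ∈ KU U, θ * #P ≤ #{l : P | Up l Y τ (Ls l)}} : ℝ) ≤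
      C * U * Real.exp (-(#P : ℝ)) * (∏ l ∈ P, l : ℕ) := by
  obtain ⟨C, hC, H⟩ := net_card
  refine ⟨4 * C, by positivity, fun U Y θ P hU hY hθ hP => ?_⟩
  obtain ⟨R, cl, hR, hcl⟩ := H U (1 / 2) hU (by norm_num) (by norm_num)
  have hex : ∀ w : ℍ, ∃ z : ℍ, z ∈ KU U ∧ ((∃ τ ∈ KU U, cl τ = w) → cl z = w) := by
    intro w
    by_cases h : ∃ τ ∈ KU U, cl τ = w
    · obtain ⟨τ, h1, h2⟩ := h
      exact ⟨τ, h1, fun _ => h2⟩
    · refine ⟨I, ⟨⟨?_, ?_⟩, ?_⟩, fun h' => absurd h' h⟩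
      · simp
      · simp
      · simpa using hU
  choose rep hrep hrep' using hex
  have hs : {Ls ∈ Fintype.piFinset fun l : P => Xn l |
      ∃ τ ∈ KU U, θ * #P ≤ #{l : P | Up l Y τ (Ls l)}} ⊆ R.biUnion fun w =>
        {Ls ∈ Fintype.piFinset fun l : P => Xn l |
          θ * #P ≤ #{l : P | Up l (Y / 3) (rep w) (Ls l)}} := by
    intro Ls hL
    obtain ⟨h1, τ, h2, h3⟩ := mem_filter.1 hL
    obtain ⟨h4, h5⟩ := hcl τ h2
    have h6 := (hcl _ (hrep (cl τ))).2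
    rw [hrep' (cl τ) ⟨τ, h2, rfl⟩] at h6
    have h7 : dist τ (rep (cl τ)) ≤ 1 := by
      have := dist_triangle_right τ (rep (cl τ)) (cl τ)
      linarith
    refine mem_biUnion.2 ⟨cl τ, h4, mem_filter.2 ⟨h1, h3.trans (Nat.cast_le.2
      (card_le_card fun l hl => mem_filter.2 ⟨mem_univ _, ?_⟩))⟩⟩
    exact (mem_filter.1 hl).2.near (hP l l.2).1.pos h7
  refine (Nat.cast_le.2 ((card_le_card hs).trans card_biUnion_le)).trans ?_
  rw [Nat.cast_sum]
  refine (sum_le_card_nsmul _ _ _ fun w _ => zta_one hY hθ hP (hrep w)).trans ?_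
  rw [nsmul_eq_mul, mul_assoc (4 * C * U)]
  refine mul_le_mul_of_nonneg_right (hR.trans (le_of_eq (by ring))) (by positivity)

end Pool.Agent.EQ
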