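import Pool.Agent.K.MP_ad7a55_nt.C79
import Pool.Agent.K.MP_ad7a55_nt.C80
import Pool.Agent.K.MP_ad7a55_nt.C70
import Pool.Agent.K.MP_ad7a55_nt.C71
import Pool.Agent.K.MP_ad7a55_nt.C81

-- part Pool.Agent.P.MP_ad7a55_nt.XTb
section

/-! Equidistribution outside the exceptional set. -/

set_option autoImplicit false

noncomputable section

open MeasureTheory Topology Filter UpperHalfPlane Finset
open scoped MatrixGroups BoundedContinuousFunction Matrix Classical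

namespace Pool.Agent.EQ

variable {n N : ℕ}

theorem fin_top (hN : 0 < N) (F : IntermediateField ℚ ℂ) [FiniteDimensional ℚ F]
    (φ : Fin n → (ℍ →ᵇ ℝ)) (hφ : ∀ k, Tc N F (φ k)) (hb : ∀ k, ‖φ k‖ ≤ 1 / 2) (A : ℕ) (L : ℝ)
    {θ : ℝ} (hθ : 0 < θ) : ∃ (m₀ : ℕ) (X₀ : ℝ), ∀ (τ : Fin n → ℍ) (D : Fin n → ℤ)
      (I : Finset (Fin n)) (d : ℤ) (ψ : (Fin n × Fn → ℂ) → ℝ),
      (∀ k, HasDisc (τ k) (D k)) → (∀ k, D k < -576) → (∀ k ∈ I, ∃ f : ℤ, D k = f ^ 2 * d) →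
      Many A d.natAbs → (∀ k ∈ I, Low L (D k)) → (∃ k ∈ I, X₀ ≤ -(D k : ℝ)) →
      (∀ k ∈ I, ∀ l ∈ I, k ≠ l → ∀ g : ℕ, 0 < g → g ≤ m₀ → ¬ Ig g (jInv (τ k)) (jInv (τ l))) →
      Oth I D ψ → (∀ z, |ψ z| ≤ 1) → ∃ J ⊆ I, J.Nonempty ∧ |avg (ON N F τ) fun z => ψ z *
        (PT N F φ I z - (∏ k ∈ J, IN N (φ k)) * PT N F φ (I \ J) z)| ≤ θ := by
  obtain ⟨e, he, hm⟩ := fin_main hN F n
  obtain ⟨a, ha⟩ := exists_setup n N e A hN he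
  have key : ∀ r : Fin n, ∀ᶠ m : ℕ in atTop,
      ∀ s ∈ {s : Shp n (Fin (r + 1)) | s.N = N ∧ s.e = e}, ∀ (v : VD n) (T : ℝ) (y : ℕ)
        (ψ : (Fin n × Fn → ℂ) → ℝ), (m : ℝ) ≤ T → s.Ok v L T a m y → Oth s.I v.D ψ →
        (∀ z, |ψ z| ≤ 1) → |avg (ON N F v.τ) fun z => ψ z *
          (PT N F φ s.I z - (∏ k ∈ s.J, IN N (φ k)) * PT N F φ (s.I \ s.J) z)| ≤ θ := by
    intro r
    have hf : {s : Shp n (Fin (r + 1)) | s.N = N ∧ s.e = e}.Finite := by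
      refine Set.Finite.of_injOn (f := fun s => (s.I, s.J, s.cr, s.bs)) (Set.mapsTo_univ _ _) ?_
        Set.finite_univ
      rintro ⟨N1, e1, I1, J1, c1, b1, _, _, _⟩ ⟨rfl, rfl⟩ ⟨N2, e2, I2, J2, c2, b2, _, _, _⟩ ⟨h1, h2⟩ h
      simp only [Prod.mk.injEq] at h h1 h2
      obtain ⟨rfl, rfl, rfl, rfl⟩ := h
      subst h1 h2
      rfl
    refine (eventually_all_finite hf).2 fun s hs => ?_
    obtain ⟨m₀, T₀, h⟩ := hm φ hφ hb _ s hs.1 hs.2 L θ a hθ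
    filter_upwards [eventually_ge_atTop m₀,
      tendsto_natCast_atTop_atTop.eventually (eventually_ge_atTop T₀)] with m h1 h2 v T y ψ h3 h4
    exact h v T y ψ (h2.trans h3)
      { h4 with noi := fun k hk l hl hkl d hd hd' => h4.noi k hk l hl hkl d hd (hd'.trans h1) }
  obtain ⟨m, hm'⟩ := (eventually_all.2 key).exists
  obtain ⟨X₀, hX⟩ := ha m
  refine ⟨m, X₀, fun τ D I d ψ h1 h2 h3 h4 h5 h6 h7 h8 h9 => ?_⟩
  obtain ⟨r, s, v, T, y, hr, g1, g2, rfl, rfl, rfl, g3, g4⟩ := hX τ D I d L m h1 h2 h3 h4 h5 h6 h7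
  exact ⟨s.J, s.sub, ⟨_, s.mem 0⟩, hm' ⟨r, hr⟩ s ⟨g1, g2⟩ v T y ψ g3 g4 h8 h9⟩

variable {F : IntermediateField ℚ ℂ} {τ : ℕ → Fin n → ℍ} {D : ℕ → Fin n → ℤ}
  {φ : Fin n → (ℍ →ᵇ ℝ)} {I : Finset (Fin n)} {ψ : ℕ → (Fin n × Fn → ℂ) → ℝ}

theorem stepX (hN : 0 < N) [FiniteDimensional ℚ F] {𝒰 : Ultrafilter ℕ} (hC : Cls 𝒰 τ D I)
    (hI : I.Nonempty) (hφ : ∀ k, Tc N F (φ k)) (hb : ∀ k, ‖φ k‖ ≤ 1 / 2)
    (ho : ∀ᶠ i in 𝒰, Oth I (D i) (ψ i)) (hψ : ∀ i z, |ψ i z| ≤ 1) {A : ℕ} {c : ℝ} (hc : 0 < c)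
    (h : ∀ᶠ i in 𝒰, ∀ k ∈ I, ∃ d f : ℤ, Squarefree d ∧ D i k = f ^ 2 * d ∧ d.natAbs ∉ EX A c) :
    StepN 𝒰 N F τ φ I ψ := by
  obtain ⟨L, -, hL⟩ := low_of_noZero hc
  obtain ⟨k₀, hk₀⟩ := hI
  have key : ∀ j : ℕ, ∃ J : Finset (Fin n), ∀ᶠ i in 𝒰, J ⊆ I ∧ J.Nonempty ∧
      |avg (ON N F (τ i)) fun z => ψ i z *
        (PT N F φ I z - (∏ k ∈ J, IN N (φ k)) * PT N F φ (I \ J) z)| ≤ 1 / ((j : ℝ) + 1) := by
    intro j
    obtain ⟨m₀, X₀, hf⟩ := fin_top hN F φ hφ hb A L (θ := 1 / ((j : ℝ) + 1)) (by positivity)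
    have noi : ∀ᶠ i in 𝒰, ∀ k ∈ I, ∀ l ∈ I, ∀ g ∈ Icc 1 m₀, k ≠ l →
        ¬ Ig g (jInv (τ i k)) (jInv (τ i l)) := by
      refine (eventually_all_finset I).2 fun k hk => (eventually_all_finset I).2 fun l hl =>
        (eventually_all_finset _).2 fun g hg => ?_
      by_cases hkl : k = l
      · exact Eventually.of_forall fun i h' => (h' hkl).elim
      · have hg' : 0 < g := (mem_Icc.1 hg).1
        filter_upwards [hC.noi k hk l hl hkl g hg'] with i hi _ h'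
        exact hi (RingEquiv.refl ℂ) (h'.isog hg')
    refine Ultrafilter.eventually_exists_iff.1 ?_
    filter_upwards [h, hC.big, hC.sq, hC.inf X₀, noi, ho] with i h1 h2 h3 h4 h5 h6
    obtain ⟨d, f, hd, e, hE⟩ := h1 k₀ hk₀
    have hneg : f ^ 2 * d < 0 := by rw [← e]; linarith [h2 k₀]
    have hf0 : f ≠ 0 := by
      rintro rfl
      simp at hneg
    have hd0 : d < 0 := by
      by_contra hn
      exact absurd hneg (not_lt.2 (mul_nonneg (sq_nonneg f) (not_lt.1 hn)))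
    have hE' : NoZero c (-(d.natAbs : ℤ)) ∧ Many A d.natAbs := by
      by_contra hn
      exact hE ⟨Int.squarefree_natAbs.2 hd, hn⟩
    rw [Int.ofNat_natAbs_of_nonpos hd0.le, neg_neg] at hE'
    have sh : ∀ k ∈ I, ∃ g : ℤ, D i k = g ^ 2 * d := fun k hk =>
      tlow_shape hd hf0 (by rw [← e]; exact h3 k₀ hk₀ k hk)
    refine hf (τ i) (D i) I d (ψ i) (hC.disc i) h2 sh hE'.2 (fun k hk => ?_) ⟨k₀, hk₀, h4 k₀ hk₀⟩
      (fun k hk l hl hkl g g1 g2 => h5 k hk l hl g (mem_Icc.2 ⟨g1, g2⟩) hkl) h6 (hψ i)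
    obtain ⟨g, hg⟩ := sh k hk
    rw [hg]
    exact hL d g hd (by rw [← hg]; linarith [h2 k]) hE'.1
  choose Jf hJ using key
  obtain ⟨J, hinf⟩ := Finite.exists_infinite_fiber Jf
  have hinf' : (Jf ⁻¹' {J}).Infinite := Set.infinite_coe_iff.1 hinf
  obtain ⟨j₀, hj₀⟩ := hinf'.nonempty
  obtain ⟨i₀, hi₀⟩ := (hJ j₀).exists
  rw [show Jf j₀ = J from hj₀] at hi₀
  refine ⟨J, hi₀.1, hi₀.2.1, Metric.tendsto_nhds.2 fun ε hε => ?_⟩
  obtain ⟨j₁, hj₁⟩ := exists_nat_one_div_lt hε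
  obtain ⟨j, hj, hlt⟩ := hinf'.exists_gt j₁
  filter_upwards [hJ j] with i hi
  rw [show Jf j = J from hj] at hi
  rw [Real.dist_eq, sub_zero]
  refine hi.2.2.trans_lt (lt_of_le_of_lt ?_ hj₁)
  have : (j₁ : ℝ) ≤ j := by exact_mod_cast hlt.le
  exact one_div_le_one_div_of_le (by positivity) (by linarith)

theorem Eqd.scale {𝓕 : Filter ℕ} {u w : ℝ} (hu : u ≠ 0) (hw : w ≠ 0)
    (h : Eqd 𝓕 N F τ (fun k => u • φ k) I fun i z => w * ψ i z) : Eqd 𝓕 N F τ φ I ψ := by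
  have h1 := h.const_mul (w * u ^ #I)⁻¹
  rw [mul_zero] at h1
  refine h1.congr fun i => ?_
  have e1 : ∀ z, PT N F (fun k => u • φ k) I z = u ^ #I * PT N F φ I z := fun z => by
    simp only [PT, BoundedContinuousFunction.coe_smul, smul_eq_mul,
      Finset.prod_mul_distrib, Finset.prod_const]
  have e2 : ∏ k ∈ I, IN N (u • φ k) = u ^ #I * ∏ k ∈ I, IN N (φ k) := by
    simp only [IN, BoundedContinuousFunction.coe_smul, smul_eq_mul, integral_const_mul,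
      Finset.prod_mul_distrib, Finset.prod_const]
  have h0 : w * u ^ #I ≠ 0 := mul_ne_zero hw (pow_ne_zero _ hu)
  simp only [avg, e1, e2]
  rw [← mul_div_assoc, Finset.mul_sum]
  congr 1
  refine Finset.sum_congr rfl fun z _ => ?_
  field_simp

theorem goodE_EX (A : ℕ) {c : ℝ} (hc : 0 < c) : GoodE (EX A c) := by
  intro n N hN F _ 𝒰 _ τ D I φ ψ hC hφ hW h
  obtain ⟨B, hB⟩ := hW.bd
  have hS : 0 ≤ ∑ k, ‖φ k‖ := Finset.sum_nonneg fun _ _ => norm_nonneg _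
  have hu : 0 < 1 / (2 * (∑ k, ‖φ k‖ + 1)) := by positivity
  have hw : 0 < 1 / (|B| + 1) := by positivity
  refine Eqd.scale hu.ne' hw.ne' (eqd_of_step fun J hJ hne => stepX hN (hC.mono hJ) hne
    (fun k => ⟨fun γ hγ t => ?_, ?_⟩) (fun k => ?_) ?_ (fun i z => ?_) (A := A) hc
    (h.mono fun i hi k hk => hi k (hJ hk)))
  · simp only [BoundedContinuousFunction.coe_smul, (hφ k).1 γ hγ t]
  · obtain ⟨K, hK, hK'⟩ := (hφ k).2
    refine ⟨K, hK, fun t ht => hK' t fun h0 => ht ?_⟩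
    simp only [BoundedContinuousFunction.coe_smul, h0, smul_zero]
  · have h1 : ‖φ k‖ ≤ ∑ k, ‖φ k‖ :=
      Finset.single_le_sum (f := fun k => ‖φ k‖) (fun _ _ => norm_nonneg _) (mem_univ k)
    rw [norm_smul, Real.norm_of_nonneg hu.le, one_div, inv_mul_le_iff₀ (by positivity)]
    linarith
  · filter_upwards [hW.oth] with i hi z z' hz
    exact congrArg (fun t => 1 / (|B| + 1) * t) (hi.mono hJ z z' hz)
  · rw [abs_mul, abs_of_pos hw, one_div, inv_mul_le_iff₀ (by positivity)]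
    linarith [hB i z, le_abs_self B]

end Pool.Agent.EQ
end
end

-- part Pool.Agent.P.MP_ad7a55_nt.YUg
section

/-! The Hecke average on new functions. -/

set_option autoImplicit false

noncomputable section

open MeasureTheory Topology Filter UpperHalfPlane Finset
open scoped MatrixGroups BoundedContinuousFunction Matrix Classical

namespace Pool.Agent.EQ

theorem yug_eps (a α : ℕ) {x n : ℝ} (hx : 1 ≤ x) (hn : 0 ≤ n)
    (h : n ^ (3 * α) ≤ 2 ^ (3 * a * α) * x ^ (1500 * a)) :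
    (2 * (4 * (x ^ 3) ^ 2) ^ 2 * n ^ (3 * α)) ^ (1 / (100 * ((a : ℝ) + 1))) ≤
      32 * 2 ^ α * x ^ 18 := by
  have hx0 : 0 ≤ x := by linarith
  have hZ : (0 : ℝ) ≤ 32 * 2 ^ α * x ^ 18 := by positivity
  have h1 : 2 * (4 * (x ^ 3) ^ 2) ^ 2 * n ^ (3 * α) ≤ (32 * 2 ^ α * x ^ 18) ^ (100 * (a + 1)) := by
    have e1 : (32 : ℝ) ≤ 32 ^ (100 * (a + 1)) := le_self_pow₀ (by norm_num) (by omega)
    have e2 : (2 : ℝ) ^ (3 * a * α) ≤ (2 ^ α) ^ (100 * (a + 1)) := by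
      rw [← pow_mul]; exact pow_le_pow_right₀ (by norm_num) (by nlinarith)
    have e3 : x ^ 12 * x ^ (1500 * a) ≤ (x ^ 18) ^ (100 * (a + 1)) := by
      rw [← pow_mul, ← pow_add]; exact pow_le_pow_right₀ hx (by omega)
    calc _ = 32 * x ^ 12 * n ^ (3 * α) := by ring
      _ ≤ 32 * x ^ 12 * (2 ^ (3 * a * α) * x ^ (1500 * a)) := by gcongr
      _ = 32 * 2 ^ (3 * a * α) * (x ^ 12 * x ^ (1500 * a)) := by ring
      _ ≤ 32 ^ (100 * (a + 1)) * (2 ^ α) ^ (100 * (a + 1)) * (x ^ 18) ^ (100 * (a + 1)) := by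
          gcongr
      _ = _ := by rw [mul_pow, mul_pow]
  have h2 : ((32 * 2 ^ α * x ^ 18) ^ (100 * (a + 1)) : ℝ) ^ (1 / (100 * ((a : ℝ) + 1))) =
      32 * 2 ^ α * x ^ 18 := by
    have := Real.pow_rpow_inv_natCast hZ (n := 100 * (a + 1)) (by omega)
    rw [one_div]
    simpa using this
  rw [← h2]
  exact Real.rpow_le_rpow (by positivity) h1 (by positivity)

/-- The constant of the numerical bound. -/
def yug_c (a : ℕ) (C : ℝ) : ℝ :=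
  (|C| + 1) * (65 ^ 4 * 32 * 1120 * (3 * a + 1) ^ 3) * (64 * (2 * (a + 1)) ^ 6 * 2 ^ (3 * a))

theorem yug_const (a α : ℕ) (C : ℝ) (hα : 1 ≤ α) :
    |C| * 2 ^ α * ((2 * ((a : ℝ) + 1)) ^ (2 * (3 * α)) * (a * (3 * α : ℕ) + 1) ^ 3) * 65 ^ 4 *
      2 ^ α * (32 * 2 ^ α) * (1120 * 2 ^ (3 * a * α)) ≤ yug_c a C ^ α := by
  have ha : (0 : ℝ) ≤ a := Nat.cast_nonneg a
  have h1 : (α : ℝ) ≤ 2 ^ α := by exact_mod_cast (Nat.lt_two_pow_self (n := α)).le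
  have hα' : (1 : ℝ) ≤ α := by exact_mod_cast hα
  have h2 : (a : ℝ) * (3 * α : ℕ) + 1 ≤ (3 * a + 1) * 2 ^ α := by
    push_cast
    calc _ ≤ (3 * (a : ℝ) + 1) * α := by nlinarith
      _ ≤ _ := by gcongr
  have h3 : |C| ≤ (|C| + 1) ^ α :=
    (by linarith : |C| ≤ |C| + 1).trans (le_self_pow₀ (by linarith [abs_nonneg C]) (by omega))
  have h4 : (65 ^ 4 * 32 * 1120 * (3 * (a : ℝ) + 1) ^ 3) ≤
      (65 ^ 4 * 32 * 1120 * (3 * (a : ℝ) + 1) ^ 3) ^ α := by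
    refine le_self_pow₀ ?_ (by omega)
    have : (1 : ℝ) ≤ (3 * (a : ℝ) + 1) ^ 3 := one_le_pow₀ (by linarith)
    nlinarith
  have h5 : ((64 : ℝ) * (2 * (a + 1)) ^ 6 * 2 ^ (3 * a)) ^ α =
      (2 ^ α) ^ 6 * (2 * ((a : ℝ) + 1)) ^ (2 * (3 * α)) * 2 ^ (3 * a * α) := by
    rw [mul_pow, mul_pow, ← pow_mul, ← pow_mul, ← pow_mul, mul_comm α 6, pow_mul 2 6 α]
    congr 2
    · norm_num
    · congr 1; ring
  unfold yug_c
  rw [mul_pow ((|C| + 1) * _), mul_pow (|C| + 1), h5]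
  calc _ ≤ |C| * 2 ^ α * ((2 * ((a : ℝ) + 1)) ^ (2 * (3 * α)) * ((3 * a + 1) * 2 ^ α) ^ 3) *
        65 ^ 4 * 2 ^ α * (32 * 2 ^ α) * (1120 * 2 ^ (3 * a * α)) := by gcongr
    _ = |C| * (65 ^ 4 * 32 * 1120 * (3 * (a : ℝ) + 1) ^ 3) *
        ((2 ^ α) ^ 6 * (2 * ((a : ℝ) + 1)) ^ (2 * (3 * α)) * 2 ^ (3 * a * α)) := by ring
    _ ≤ _ := by gcongr

theorem yug_core (a α : ℕ) (C : ℝ) (hα : 1 ≤ α) {x m Q D n : ℝ} (hx : 1 ≤ x) (hm0 : 0 ≤ m)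
    (hm : m ^ 3 ≤ x ^ 50) (hQ : 0 < Q) (hn : 0 < n) (hD : x ^ 500 / 2 ^ α ≤ D)
    (h1 : n ^ (3 * α) ≤ 2 ^ (3 * a * α) * x ^ (1500 * a))
    (h2 : Q ^ 3 ≤ 2 ^ (3 * a * α) * n ^ (3 * α)) (hc : yug_c a C ^ α ≤ x ^ 250) :
    C * (x ^ 3) ^ 3 * (m * Q) ^ 3 / D *
      PB a (3 * α) α (4 * (x ^ 3) ^ 2) n Q (1 / (100 * (a + 1))) / n ^ (2 * (3 * α)) ≤
      (x ^ 3)⁻¹ := by
  have hx0 : 0 < x := by linarith
  have hD0 : 0 < D := lt_of_lt_of_le (by positivity) hD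
  have he := yug_eps a α hx hn.le h1
  have hk := yug_const a α C hα
  set E := (2 * (4 * (x ^ 3) ^ 2) ^ 2 * n ^ (3 * α)) ^ (1 / (100 * ((a : ℝ) + 1))) with hE
  have hE0 : 0 ≤ E := by positivity
  have hN : 0 < n ^ (3 * α) := by positivity
  have hT : (1 : ℝ) ≤ 2 ^ (3 * a * α) := one_le_pow₀ (by norm_num)
  have hx12 : 1 ≤ x ^ 12 := one_le_pow₀ hx
  have hR : Q ^ 3 / n ^ (3 * α) ≤ 2 ^ (3 * a * α) := by rwa [div_le_iff₀ hN]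
  have hR0 : 0 ≤ Q ^ 3 / n ^ (3 * α) := by positivity
  have h3 : 1024 * x ^ 24 + 96 * x ^ 12 * (Q ^ 3 / n ^ (3 * α)) ≤
      1120 * 2 ^ (3 * a * α) * x ^ 24 := by
    have e1 : x ^ 12 ≤ x ^ 24 := pow_le_pow_right₀ hx (by norm_num)
    have e2 : x ^ 12 * (Q ^ 3 / n ^ (3 * α)) ≤ x ^ 24 * 2 ^ (3 * a * α) := by gcongr
    have e3 : x ^ 24 ≤ x ^ 24 * 2 ^ (3 * a * α) := le_mul_of_one_le_right (by positivity) hT
    nlinarith
  have h4 : (4 * (4 * (x ^ 3) ^ 2) ^ 2 + 1) ^ 4 ≤ 65 ^ 4 * x ^ 48 := by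
    have : 4 * (4 * (x ^ 3) ^ 2) ^ 2 + 1 ≤ 65 * x ^ 12 := by nlinarith
    calc _ ≤ (65 * x ^ 12) ^ 4 := by gcongr
      _ = _ := by ring
  have h5 : D⁻¹ ≤ 2 ^ α / x ^ 500 := by
    rw [← inv_div]; exact inv_anti₀ (by positivity) hD
  have hC : C ≤ |C| := le_abs_self C
  have hC0 : 0 ≤ |C| := abs_nonneg C
  have e0 : C * (x ^ 3) ^ 3 * (m * Q) ^ 3 / D *
      PB a (3 * α) α (4 * (x ^ 3) ^ 2) n Q (1 / (100 * (a + 1))) / n ^ (2 * (3 * α)) =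
      C * (x ^ 9 * m ^ 3 * D⁻¹ *
        ((2 * ((a : ℝ) + 1)) ^ (2 * (3 * α)) * (a * (3 * α : ℕ) + 1) ^ 3) *
        (4 * (4 * (x ^ 3) ^ 2) ^ 2 + 1) ^ 4 * 2 ^ α * E *
        (1024 * x ^ 24 + 96 * x ^ 12 * (Q ^ 3 / n ^ (3 * α)))) := by
    unfold PB
    rw [← hE, mul_comm 2 (3 * α), pow_mul n (3 * α) 2]
    generalize n ^ (3 * α) = N at hN
    generalize (2 * ((a : ℝ) + 1)) ^ (3 * α * 2) = c1
    field_simp
    ring
  rw [e0]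
  calc _ ≤ |C| * (x ^ 9 * x ^ 50 * (2 ^ α / x ^ 500) *
        ((2 * ((a : ℝ) + 1)) ^ (2 * (3 * α)) * (a * (3 * α : ℕ) + 1) ^ 3) *
        (65 ^ 4 * x ^ 48) * 2 ^ α * (32 * 2 ^ α * x ^ 18) *
        (1120 * 2 ^ (3 * a * α) * x ^ 24)) := by gcongr
    _ = (|C| * 2 ^ α * ((2 * ((a : ℝ) + 1)) ^ (2 * (3 * α)) * (a * (3 * α : ℕ) + 1) ^ 3) *
        65 ^ 4 * 2 ^ α * (32 * 2 ^ α) * (1120 * 2 ^ (3 * a * α))) * (x ^ 149 / x ^ 500) := by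
          ring
    _ ≤ x ^ 250 * (x ^ 149 / x ^ 500) := by gcongr; exact hk.trans hc
    _ ≤ _ := by
      rw [← mul_div_assoc, ← pow_add, inv_eq_one_div, div_le_div_iff₀ (by positivity)
        (by positivity), ← pow_add, one_mul]
      exact pow_le_pow_right₀ hx (by norm_num)

theorem ug_num (a : ℕ) (C : ℝ) : ∃ y₀ : ℕ, ∀ (y M₀ l : ℕ) (A : Finset ℕ), y₀ ≤ y →
    M₀ ^ 30 ≤ y → A.Nonempty → (∀ p ∈ A, y < p ∧ p ≤ 2 * y) → y < l → l ≤ 2 * y →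
    C * ((y : ℝ) ^ (3 * #A / 500 : ℝ)) ^ 3 * ((M₀ * ∏ p ∈ A, p ^ a : ℕ) : ℝ) ^ 3 /
        (∏ p ∈ A, ((p : ℝ) - 1) / 2) *
        PB a (3 * #A) #A (4 * ((y : ℝ) ^ (3 * #A / 500 : ℝ)) ^ 2) (l ^ a : ℕ) (∏ p ∈ A, p ^ a : ℕ)
          (1 / (100 * (a + 1))) / ((l ^ a : ℕ) : ℝ) ^ (2 * (3 * #A)) ≤
      (y : ℝ) ^ (-(3 * #A / 500 : ℝ)) := by
  refine ⟨⌈yug_c a C ^ 2⌉₊ + 1, fun y M₀ l A hy hM hA hp hl1 hl2 => ?_⟩
  have hα : 1 ≤ #A := hA.card_pos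
  have hy1 : (1 : ℝ) ≤ y := by exact_mod_cast (by omega : 1 ≤ y)
  have hy0 : (0 : ℝ) < y := by linarith
  set x : ℝ := (y : ℝ) ^ (#A / 500 : ℝ) with hxd
  have hx : 1 ≤ x := Real.one_le_rpow hy1 (by positivity)
  have hx500 : x ^ 500 = (y : ℝ) ^ #A := by
    rw [hxd, ← Real.rpow_natCast, ← Real.rpow_mul hy0.le, ← Real.rpow_natCast]
    congr 1; push_cast; ring
  have hx3 : (y : ℝ) ^ (3 * #A / 500 : ℝ) = x ^ 3 := by
    rw [hxd, ← Real.rpow_natCast, ← Real.rpow_mul hy0.le]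
    congr 1; push_cast; ring
  have hyA : (y : ℝ) ≤ (y : ℝ) ^ #A := le_self_pow₀ hy1 (by omega)
  have hl1' : (y : ℝ) ≤ l := by exact_mod_cast hl1.le
  have hl2' : (l : ℝ) ≤ 2 * y := by exact_mod_cast hl2
  have hl0 : (0 : ℝ) < l := by linarith
  rw [Real.rpow_neg hy0.le, hx3, Nat.cast_mul]
  refine yug_core a #A C hα hx (Nat.cast_nonneg _) ?_ ?_ ?_ ?_ ?_ ?_ ?_
  · refine le_of_pow_le_pow_left₀ (n := 10) (by norm_num) (by positivity) ?_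
    rw [← pow_mul, ← pow_mul]
    have : (M₀ : ℝ) ^ 30 ≤ y := by exact_mod_cast hM
    norm_num only
    rw [hx500]; linarith
  · have : 0 < ∏ p ∈ A, p ^ a := prod_pos fun p h => pow_pos (by have := (hp p h).1; omega) _
    exact_mod_cast this
  · push_cast; positivity
  · rw [hx500, ← div_pow, ← prod_const]
    refine prod_le_prod (fun p _ => by positivity) fun p h => ?_
    have : (y : ℝ) + 1 ≤ p := by exact_mod_cast (hp p h).1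
    linarith
  · push_cast
    calc ((l : ℝ) ^ a) ^ (3 * #A) ≤ ((2 * (y : ℝ)) ^ a) ^ (3 * #A) := by gcongr
      _ = 2 ^ (3 * a * #A) * ((y : ℝ) ^ #A) ^ (3 * a) := by
          rw [← pow_mul, ← pow_mul, mul_pow]; congr 2 <;> ring
      _ = _ := by rw [← hx500, ← pow_mul]; congr 2; ring
  · push_cast
    have : (∏ p ∈ A, (p : ℝ) ^ a) ≤ ((2 * (y : ℝ)) ^ a) ^ #A := by
      rw [← prod_const]
      refine prod_le_prod (fun p _ => by positivity) fun p h => ?_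
      have : (p : ℝ) ≤ 2 * y := by exact_mod_cast (hp p h).2
      gcongr
    calc (∏ p ∈ A, (p : ℝ) ^ a) ^ 3 ≤ (((2 * (y : ℝ)) ^ a) ^ #A) ^ 3 := by gcongr
      _ = 2 ^ (3 * a * #A) * ((y : ℝ) ^ a) ^ (3 * #A) := by
          rw [← pow_mul, ← pow_mul, ← pow_mul, mul_pow]; congr 2 <;> ring
      _ ≤ _ := by gcongr
  · refine le_of_pow_le_pow_left₀ (n := 2) (by norm_num) (by positivity) ?_
    rw [← pow_mul, ← pow_mul, mul_comm (#A) 2, pow_mul]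
    norm_num only
    rw [hx500]
    have h1 : yug_c a C ^ 2 ≤ y := by
      have h2 : ((⌈yug_c a C ^ 2⌉₊ + 1 : ℕ) : ℝ) ≤ y := by exact_mod_cast hy
      have h3 := Nat.le_ceil (yug_c a C ^ 2)
      push_cast at h2; linarith
    gcongr

theorem ug_new (a : ℕ) : ∃ (C : ℝ) (y₀ : ℕ), 0 < C ∧ ∀ (y M₀ M l : ℕ) (A : Finset ℕ) (s : ℤ)
    (ρ : Set V2 → M2) (f : ℍ →ᵇ ℝ) (K B : ℝ), y₀ ≤ y → 0 < M₀ → M₀ ^ 30 ≤ y →
    M = M₀ * ∏ p ∈ A, p ^ a → A.Nonempty →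
    (∀ p ∈ A, p.Prime ∧ y < p ∧ p ≤ 2 * y ∧ ¬ p ∣ M₀ ∧ p ≠ l) → l.Prime → y < l → l ≤ 2 * y →
    ¬ l ∣ M₀ → IsR (l ^ a) M s ρ → GInv M f → 0 < B → (∀ z, |f z| ≤ B) → 0 ≤ K → Lip K f →
    (∀ p ∈ A, ZM (M / p ^ a) M f) →
    IN M |HK (l ^ a) ρ f| ≤ C * (B + K) * (y : ℝ) ^ (-(1 / 1000 : ℝ)) := by
  obtain ⟨C, hC, hpow⟩ := ug_pow (ε := 1 / (100 * ((a : ℝ) + 1))) (by positivity)
  obtain ⟨y₀, hnum⟩ := ug_num a C
  refine ⟨C + 1, max y₀ 2, by linarith, ?_⟩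
  intro y M₀ M l A s ρ f K B hy hM0 hM30 hM hA hp hl hl1 hl2 hlM hR hf hB hfB hK hL hZ
  have hy2 : 2 ≤ y := (le_max_right _ _).trans hy
  have hy1 : (1 : ℝ) ≤ y := by exact_mod_cast (by omega : 1 ≤ y)
  have hy0 : (0 : ℝ) < y := by linarith
  have hα : 1 ≤ #A := hA.card_pos
  have hMpos : 0 < M := by
    rw [hM]; exact Nat.mul_pos hM0 (prod_pos fun p h => pow_pos (hp p h).1.pos _)
  have hn : 0 < l ^ a := pow_pos hl.pos _
  have hcop : (l ^ a).Coprime M := by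
    rw [hM]
    refine Nat.Coprime.pow_left _ (Nat.Coprime.mul_right ((Nat.Prime.coprime_iff_not_dvd hl).2 hlM)
      (Nat.Coprime.prod_right fun p h => Nat.Coprime.pow_right _ ?_))
    exact (Nat.coprime_primes hl (hp p h).1).2 (hp p h).2.2.2.2.symm
  set g : ℍ →ᵇ ℝ := B⁻¹ • f with hg
  have hgz : ∀ z, g z = B⁻¹ * f z := fun z => by simp [hg]
  have hBi : 0 < B⁻¹ := inv_pos.2 hB
  have g1 : GInv M g := fun γ hγ τ => by rw [hgz, hgz, hf γ hγ τ]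
  have g2 : ∀ z, |g z| ≤ 1 := fun z => by
    rw [hgz, abs_mul, abs_of_pos hBi, inv_mul_le_iff₀ hB, mul_one]; exact hfB z
  have g3 : Lip (K / B) g := fun z w => by
    rw [hgz, hgz, ← mul_sub, abs_mul, abs_of_pos hBi]
    calc _ ≤ B⁻¹ * (K * dist z w) := mul_le_mul_of_nonneg_left (hL z w) hBi.le
      _ = _ := by ring
  have g4 : ∀ p ∈ A, ZM (M / p ^ a) M g := fun p h z => by
    have := hZ p h z
    unfold mn at this ⊢
    simp only [hgz]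
    rw [← mul_sum, mul_div_assoc, this, mul_zero]
  have hHK : |HK (l ^ a) ρ f| = B • |HK (l ^ a) ρ g| := by
    ext z
    have : HK (l ^ a) ρ f z = B * HK (l ^ a) ρ g z := by
      unfold HK
      rw [mnB_apply, mnB_apply]
      unfold mn
      simp only [cact_apply, hgz]
      rw [← mul_sum, mul_div_assoc, ← mul_assoc, mul_inv_cancel₀ hB.ne', one_mul]
    simp only [BoundedContinuousFunction.coe_abs, Pi.abs_apply,
      BoundedContinuousFunction.coe_smul, smul_eq_mul]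
    rw [this, abs_mul, abs_of_pos hB]
  have hK' : 0 ≤ K / B := div_nonneg hK hB.le
  have hU : 1 ≤ (y : ℝ) ^ (3 * #A / 500 : ℝ) := Real.one_le_rpow hy1 (by positivity)
  have k1 := hpow a M₀ M l (3 * #A) A s ρ g (K / B) _ hM0 hM
    (fun p h => ⟨(hp p h).1, by have := (hp p h).2.1; omega, (hp p h).2.2.2.1, (hp p h).2.2.2.2⟩)
    hl hlM hR g1 g2 hK' g3 g4 hU
  have k2 := hnum y M₀ l A ((le_max_left _ _).trans hy) hM30 hA
    (fun p h => ⟨(hp p h).2.1, (hp p h).2.2.1⟩) hl1 hl2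
  rw [← hM] at k2
  have k3 := HK_pow hn hMpos hcop hR g1 g2 (i := 3 * #A) (by omega)
  have k4 := IN_abs_sq hMpos (HK (l ^ a) ρ g)
  set t := IN M |HK (l ^ a) ρ g| with ht
  set v : ℝ := (y : ℝ) ^ (-(1 / 1000 : ℝ)) with hv
  have hv0 : 0 < v := Real.rpow_pos_of_pos hy0 _
  have hvi : v ^ (2 * (3 * #A)) = (y : ℝ) ^ (-(3 * #A / 500 : ℝ)) := by
    rw [hv, ← Real.rpow_natCast, ← Real.rpow_mul hy0.le]
    congr 1; push_cast; ring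
  have k5 : t ^ (2 * (3 * #A)) ≤ (C * (1 + K / B) ^ 2 + 1) * v ^ (2 * (3 * #A)) := by
    rw [pow_mul t, hvi]
    have e1 : (t ^ 2) ^ (3 * #A) ≤
        IN M (HK (l ^ a) ρ g * HK (l ^ a) ρ g) ^ (3 * #A) := by gcongr
    have e2 : C * (1 + K / B) ^ 2 / (y : ℝ) ^ (3 * #A / 500 : ℝ) =
        C * (1 + K / B) ^ 2 * (y : ℝ) ^ (-(3 * #A / 500 : ℝ)) := by
      rw [Real.rpow_neg hy0.le, div_eq_mul_inv]
    rw [e2] at k1
    linarith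
  have k6 : C * (1 + K / B) ^ 2 + 1 ≤ ((C + 1) * (1 + K / B)) ^ (2 * (3 * #A)) := by
    have e1 : 1 ≤ (1 + K / B) ^ 2 := one_le_pow₀ (by linarith)
    have e2 : C + 1 ≤ (C + 1) ^ 2 := le_self_pow₀ (by linarith) (by norm_num)
    have e3 : 1 ≤ (C + 1) * (1 + K / B) := one_le_mul_of_one_le_of_one_le (by linarith) (by linarith)
    calc _ ≤ (C + 1) * (1 + K / B) ^ 2 := by nlinarith
      _ ≤ (C + 1) ^ 2 * (1 + K / B) ^ 2 := by gcongr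
      _ = ((C + 1) * (1 + K / B)) ^ 2 := by ring
      _ ≤ _ := pow_le_pow_right₀ e3 (by omega)
  have k7 : t ≤ (C + 1) * (1 + K / B) * v := by
    refine le_of_pow_le_pow_left₀ (n := 2 * (3 * #A)) (by omega) (by positivity) ?_
    rw [mul_pow _ v]
    exact k5.trans (by gcongr)
  rw [hHK, IN_smul, ← ht]
  calc B * t ≤ B * ((C + 1) * (1 + K / B) * v) := by gcongr
    _ = _ := by field_simp

end Pool.Agent.EQ
end
end
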