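import Pool.Agent.K.MP_ad7a55_nt.C77
import Pool.Agent.K.MP_ad7a55_nt.C83
import Pool.Agent.K.MP_ad7a55_nt.C68
import Pool.Agent.K.MP_ad7a55_nt.C64
import Pool.Agent.K.MP_ad7a55_nt.C78
import Pool.Agent.K.MP_ad7a55_nt.C80
import Pool.Agent.K.MP_ad7a55_nt.C72

-- part Pool.Agent.P.MP_ad7a55_nt.XZ
section

/-! Monotonicity of the exceptional set and the merged hypothesis. -/

set_option autoImplicit false

noncomputable section

open Finset
open scoped Classical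

namespace Pool.Agent.EQ

theorem NoZero.anti {c c' : ℝ} {d : ℤ} (h : NoZero c d) (hc : c' ≤ c) : NoZero c' d := by
  intro q _ χ hq hχ β h1 h2
  refine h q χ hq hχ β (le_trans ?_ h1) h2
  have h0 : 0 ≤ Real.log q := Real.log_natCast_nonneg q
  have := div_le_div_of_nonneg_right hc h0
  linarith

theorem Many.mono {A A' m : ℕ} (h : Many A m) (hA : A ≤ A') : Many A' m := by
  intro t ht
  rcases Nat.eq_zero_or_pos t with rfl | h0
  · exact Nat.zero_le _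
  · exact (h t ht).trans (nSp_mono m (Nat.pow_le_pow_right h0 hA))

theorem EX_anti {A A' : ℕ} {c c' : ℝ} (hA : A ≤ A') (hc : c' ≤ c) : EX A' c' ⊆ EX A c :=
  fun _ hm => ⟨hm.1, fun h => hm.2 ⟨h.1.anti hc, h.2.mono hA⟩⟩

theorem xz_neg {t : UpperHalfPlane} {D d f : ℤ} (hD : HasDisc t D) (e : D = f ^ 2 * d) :
    -(d.natAbs : ℤ) = d := by
  have h1 : D < 0 := hD.isD.1
  have h2 : d ≤ 0 := by
    by_contra h
    have : 0 ≤ f ^ 2 * d := mul_nonneg (sq_nonneg f) (le_of_lt (not_le.1 h))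
    omega
  omega

/-- All the sufficient conditions on the field reduce to avoiding one good set. -/
theorem merge (A₀ A : ℕ) {c₀ c η : ℝ} (hc₀ : 0 < c₀) (hc : 0 < c) (hη : 0 < η) (T : Finset ℤ) :
    ∃ (E : Set ℕ) (T' : Finset ℤ), GoodE E ∧ ∀ d : ℤ, -(d.natAbs : ℤ) = d → ∀ P : Prop,
      (d ∈ T ∨ d.natAbs ∉ EX A₀ c₀ ∨
        (∀ (N : ℕ) [NeZero N] (χ : DirichletCharacter ℂ N), N = 4 * d.natAbs →
          (∀ m : ℕ, Odd m → χ m = jacobiSym d m) →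
          ∀ s : ℂ, ‖s - 2‖ < 1 + η → χ.LFunction s ≠ 0) ∨
        (NoZero c d ∧ (P ∨ ∀ t : ℕ, Real.log |(d : ℝ)| ≤ t → ∃ Q : Finset ℕ, t ≤ Q.card ∧
          ∀ p ∈ Q, p.Prime ∧ p ≤ t ^ A ∧ jacobiSym d p = 1))) →
      d ∈ T' ∨ d.natAbs ∉ E ∨ (NoZero c d ∧ P) := by
  obtain ⟨A₁, hA₁⟩ := many_of_ZF hη
  have hm : 0 < min c₀ c := lt_min hc₀ hc
  have hfin := hA₁ (max A₁ (max A₀ A)) (le_max_left _ _) _ hm
  refine ⟨EX (max A₁ (max A₀ A)) (min c₀ c), T ∪ hfin.toFinset.image fun m : ℕ => -(m : ℤ),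
    goodE_EX _ hm, fun d hd P h => ?_⟩
  rcases h with h | h | h | ⟨h, h' | h'⟩
  · exact Or.inl (mem_union_left _ h)
  · exact Or.inr (Or.inl fun hE => h (EX_anti ((le_max_left _ _).trans (le_max_right _ _))
      (min_le_left _ _) hE))
  · by_cases hE : d.natAbs ∈ EX (max A₁ (max A₀ A)) (min c₀ c)
    · refine Or.inl (mem_union_right _ (mem_image.2 ⟨d.natAbs, ?_, hd⟩))
      refine hfin.mem_toFinset.2 ⟨hE, fun q _ χ hq hχ => h q χ hq ?_⟩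
      rwa [hd] at hχ
    · exact Or.inr (Or.inl hE)
  · exact Or.inr (Or.inr ⟨h, h'⟩)
  · refine Or.inr (Or.inl fun hE => hE.2 ⟨?_, Many.mono (A := A) (fun t ht => ?_)
      ((le_max_right _ _).trans (le_max_right _ _))⟩)
    · rw [hd]
      exact h.anti (min_le_right _ _)
    · obtain ⟨Q, hQ, hp⟩ := h' t (by rwa [← Int.cast_abs, ← Nat.cast_natAbs])
      refine hQ.trans (card_le_card fun p h => ?_)
      rw [mem_filter, Nat.mem_primesLE, hd]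
      exact ⟨⟨(hp p h).2.1, (hp p h).1⟩, (hp p h).2.2⟩

end Pool.Agent.EQ
end
end

-- part Pool.Agent.P.MP_ad7a55_nt.YUh
section

/-! The uniform gap. -/

set_option autoImplicit false

noncomputable section

open MeasureTheory Topology Filter UpperHalfPlane Finset
open scoped MatrixGroups BoundedContinuousFunction Matrix Classical

namespace Pool.Agent.EQ

theorem yuh_out {M : ℕ} {F : SL(2, ℤ) → ℝ}
    (hF : ∀ g, ∀ δ ∈ CongruenceSubgroup.Gamma M, F (δ * g) = F g) (g : SL(2, ℤ)) :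
    F (g : vcjQ M).out = F g := by
  obtain ⟨h, e⟩ := QuotientGroup.mk_out_eq_mul (CongruenceSubgroup.Gamma M) g
  have e2 : g * (h : SL(2, ℤ)) = g * h * g⁻¹ * g := by group
  rw [e, e2]
  exact hF g _ ((ylaNormal M).conj_mem _ h.2 g)

theorem yuh_conj {M R : ℕ} (hM : 0 < M) (h : R ∣ M) {F : SL(2, ℤ) → ℝ}
    (hF : ∀ g, ∀ δ ∈ CongruenceSubgroup.Gamma M, F (δ * g) = F g) (γ : SL(2, ℤ)) :
    mn (cs R M) (fun c => F (γ * c.out * γ⁻¹)) = mn (cs R M) fun c => F c.out := by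
  have e : ∀ c : vcjQ M, ((γ * c.out * γ⁻¹ : SL(2, ℤ)) : vcjQ M) =
      (γ : vcjQ M) * c * (γ : vcjQ M)⁻¹ := fun c => by
    rw [QuotientGroup.mk_mul, QuotientGroup.mk_mul, QuotientGroup.mk_inv, QuotientGroup.out_eq']
  have h1 : ∀ c ∈ cs R M, (γ : vcjQ M) * c * (γ : vcjQ M)⁻¹ ∈ cs R M := fun c hc => by
    rw [← e, mem_cs hM h]
    exact (ylaNormal R).conj_mem _ (out_mem_cs hc) γ
  have h2 : Set.InjOn (fun c : vcjQ M => (γ : vcjQ M) * c * (γ : vcjQ M)⁻¹) (cs R M) :=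
    fun c _ c' _ e' => mul_left_cancel (mul_right_cancel e')
  rw [← mn_perm h1 h2 fun c => F c.out]
  congr 1
  funext c
  rw [← e, yuh_out hF]

/-- The mean over the classes of a level. -/
def yuhAv (R M : ℕ) (f : ℍ →ᵇ ℝ) : ℍ →ᵇ ℝ :=
  mnB (cs R M) fun c => cact f ((c.out : SL(2, ℤ)) : M2)

theorem yuh_av (R M : ℕ) (f : ℍ →ᵇ ℝ) (z : ℍ) :
    yuhAv R M f z = mn (cs R M) fun c => f (c.out • z) := by
  rw [yuhAv, mnB_apply]
  congr 1
  funext c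
  rw [cact_apply, act_SL]

theorem yuh_left {M : ℕ} {f : ℍ → ℝ} (hf : GInv M f) (z : ℍ) (g : SL(2, ℤ)) :
    ∀ δ ∈ CongruenceSubgroup.Gamma M, f ((δ * g) • z) = f (g • z) := fun δ hδ => by
  rw [mul_smul, hf δ hδ]

theorem yuh_av_inv {R M : ℕ} (hM : 0 < M) (h : R ∣ M) {f : ℍ →ᵇ ℝ} (hf : GInv M f) :
    GInv R (yuhAv R M f) := fun γ hγ z => by
  rw [yuh_av, yuh_av, ← (cs_shift hM h (F := fun g => f (g • z)) (yuh_left hf z) hγ).1]
  congr 1
  funext c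
  rw [mul_smul]

theorem yuh_av_zm {R R' M : ℕ} (hM : 0 < M) (h : R' ∣ M) {f : ℍ →ᵇ ℝ} (hf : GInv M f)
    (hz : ZM R' M f) : ZM R' M (yuhAv R M f) := fun z => by
  have e : (fun c' : vcjQ M => yuhAv R M f (c'.out • z)) =
      fun c' => mn (cs R M) fun c => f (c.out • c'.out • z) := funext fun c' => yuh_av _ _ _ _
  have e2 : (fun c : vcjQ M => mn (cs R' M) fun c' => f (c.out • c'.out • z)) = fun _ => 0 := by
    funext c
    rw [← hz (c.out • z),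
      ← yuh_conj hM h (F := fun g => f (g • c.out • z)) (yuh_left hf _) c.out]
    congr 1
    funext c'
    rw [mul_smul, mul_smul, inv_smul_smul]
  rw [e, mn_swap, e2]
  simp [mn]

theorem yuh_zm_sub {R M : ℕ} {f g : ℍ →ᵇ ℝ} (hf : ZM R M f) (hg : ZM R M g) :
    ZM R M (f - g : ℍ →ᵇ ℝ) := fun z => by
  have h1 := hf z
  have h2 := hg z
  simp only [mn, BoundedContinuousFunction.sub_apply, sum_sub_distrib, sub_div] at h1 h2 ⊢
  rw [h1, h2, sub_zero]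

theorem yuh_new {R M : ℕ} (hM : 0 < M) (h : R ∣ M) {f : ℍ →ᵇ ℝ} (hf : GInv M f) :
    ZM R M (f - yuhAv R M f : ℍ →ᵇ ℝ) := fun z => by
  have h1 : mn (cs R M) (fun c => yuhAv R M f (c.out • z)) = yuhAv R M f z := by
    rw [← mn_const (cs_ne hM h) (yuhAv R M f z)]
    simp only [mn]
    rw [sum_congr rfl fun c hc => yuh_av_inv hM h hf _ (out_mem_cs hc) z]
  have h2 := yuh_av R M f z
  simp only [mn, BoundedContinuousFunction.sub_apply, sum_sub_distrib, sub_div] at h1 h2 ⊢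
  rw [h1, h2, sub_self]

theorem yuh_down {M M' R' u : ℕ} (hM : 0 < M) (h1 : M' ∣ M) (h2 : R' * u ∣ M) (h3 : R' ∣ M')
    (hu : u.Coprime M') {g : ℍ → ℝ} (hg : GInv M' g) (hz : ZM (R' * u) M g) : ZM R' M' g :=
  fun z => by
  rw [← cs_level hM h1 h2 h3 hu (F := fun h => g (h • z)) (yuh_left hg z)]
  exact hz z

theorem yuh_zero {M n : ℕ} (hM : 0 < M) (ρ : Set V2 → M2) {f : ℍ →ᵇ ℝ} (hf : GInv M f)
    (hz : ZM M M f) : IN M |HK n ρ f| = 0 := by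
  have h0 : ∀ z, f z = 0 := fun z => by
    rw [← hz z, ← mn_const (cs_ne hM dvd_rfl) (f z)]
    simp only [mn]
    rw [sum_congr rfl fun c hc => hf _ (out_mem_cs hc) z]
  have h1 : |HK n ρ f| = BoundedContinuousFunction.const ℍ (0 : ℝ) := by
    ext z
    rw [BoundedContinuousFunction.coe_abs, Pi.abs_apply, HK, mnB_apply]
    simp [mn, cact_apply, h0]
  rw [h1, IN_const hM]

theorem yuh_split {M n : ℕ} (hM : 0 < M) (ρ : Set V2 → M2) (f g : ℍ →ᵇ ℝ) :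
    IN M |HK n ρ f| ≤ IN M |HK n ρ g| + IN M |HK n ρ (f - g)| := by
  rw [← IN_add hM]
  refine IN_mono hM fun z => ?_
  have e : HK n ρ f z = HK n ρ g z + HK n ρ (f - g) z := by
    simp only [HK, mnB_apply, ← mn_add, cact_apply, BoundedContinuousFunction.sub_apply,
      add_sub_cancel]
  simp only [BoundedContinuousFunction.add_apply, BoundedContinuousFunction.coe_abs, Pi.abs_apply]
  rw [e]
  exact abs_add_le _ _

theorem yuh_div {a M₀ p : ℕ} {A : Finset ℕ} (hp : p ∈ A) (h0 : 0 < p) :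
    (M₀ * ∏ q ∈ A, q ^ a) / p ^ a = M₀ * ∏ q ∈ A.erase p, q ^ a := by
  rw [← Finset.mul_prod_erase A (fun q => q ^ a) hp, mul_left_comm,
    Nat.mul_div_cancel_left _ (pow_pos h0 a)]

theorem yuh_cop {a M₀ p : ℕ} {A : Finset ℕ} (hp : p.Prime) (h0 : ¬ p ∣ M₀)
    (h : ∀ q ∈ A, q.Prime ∧ q ≠ p) : (p ^ a).Coprime (M₀ * ∏ q ∈ A, q ^ a) := by
  refine Nat.Coprime.pow_left _ (Nat.Coprime.mul_right (hp.coprime_iff_not_dvd.2 h0) ?_)
  refine Nat.Coprime.prod_right fun q hq => Nat.Coprime.pow_right _ ?_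
  exact (Nat.coprime_primes hp (h q hq).1).2 (h q hq).2.symm

theorem yuh_ind {a M₀ l : ℕ} {s : ℤ} {ρ : Set V2 → M2} {c : ℝ} {P : ℕ → Prop} (hc : 0 ≤ c)
    (hM₀ : 0 < M₀) (hl : l.Prime) (hl0 : ¬ l ∣ M₀)
    (hP : ∀ p, P p → p.Prime ∧ ¬ p ∣ M₀ ∧ p ≠ l)
    (H : ∀ (A : Finset ℕ) (f : ℍ →ᵇ ℝ) (K B : ℝ), A.Nonempty → (∀ p ∈ A, P p) →
      IsR (l ^ a) (M₀ * ∏ p ∈ A, p ^ a) s ρ → GInv (M₀ * ∏ p ∈ A, p ^ a) f → 0 < B →
      (∀ z, |f z| ≤ B) → 0 ≤ K → Lip K f →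
      (∀ p ∈ A, ZM ((M₀ * ∏ p ∈ A, p ^ a) / p ^ a) (M₀ * ∏ p ∈ A, p ^ a) f) →
      IN (M₀ * ∏ p ∈ A, p ^ a) |HK (l ^ a) ρ f| ≤ c * (B + K)) (A₂ : Finset ℕ) :
    ∀ (A : Finset ℕ) (f : ℍ →ᵇ ℝ) (K B : ℝ), A₂ ⊆ A → (∀ p ∈ A, P p) →
      IsR (l ^ a) (M₀ * ∏ p ∈ A, p ^ a) s ρ → GInv (M₀ * ∏ p ∈ A, p ^ a) f → 0 < B →
      (∀ z, |f z| ≤ B) → 0 ≤ K → Lip K f → ZM M₀ (M₀ * ∏ p ∈ A, p ^ a) f →
      (∀ p ∈ A, p ∉ A₂ → ZM ((M₀ * ∏ p ∈ A, p ^ a) / p ^ a) (M₀ * ∏ p ∈ A, p ^ a) f) →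
      IN (M₀ * ∏ p ∈ A, p ^ a) |HK (l ^ a) ρ f| ≤ 3 ^ #A₂ * (c * (B + K)) := by
  induction A₂ using Finset.induction_on with
  | empty =>
    intro A f K B _ hA hR hf hB hb hK hL hz hn
    rw [card_empty, pow_zero, one_mul]
    rcases A.eq_empty_or_nonempty with rfl | hne
    · rw [prod_empty, mul_one] at hf hz ⊢
      rw [yuh_zero hM₀ ρ hf hz]
      positivity
    · exact H A f K B hne hA hR hf hB hb hK hL fun p hp => hn p hp (notMem_empty p)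
  | insert p A₂ hp ih =>
    intro A f K B hs hA hR hf hB hb hK hL hz hn
    have hpA : p ∈ A := hs (mem_insert_self _ _)
    have pos : ∀ A' : Finset ℕ, A' ⊆ A → 0 < M₀ * ∏ q ∈ A', q ^ a := fun A' h' =>
      mul_pos hM₀ (prod_pos fun q hq => pow_pos (hP q (hA q (h' hq))).1.pos a)
    have dv : ∀ A' A'' : Finset ℕ, A' ⊆ A'' →
        M₀ * ∏ q ∈ A', q ^ a ∣ M₀ * ∏ q ∈ A'', q ^ a := fun A' A'' h' =>
      mul_dvd_mul_left _ (prod_dvd_prod_of_subset _ _ _ h')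
    have hM := pos A Subset.rfl
    have hR0 := pos (A.erase p) (erase_subset _ _)
    have hd := dv (A.erase p) A (erase_subset _ _)
    have hq0 : ∀ q ∈ A, 0 < q := fun q hq => (hP q (hA q hq)).1.pos
    obtain ⟨g, hg⟩ : ∃ g, g = yuhAv (M₀ * ∏ q ∈ A.erase p, q ^ a) (M₀ * ∏ q ∈ A, q ^ a) f :=
      ⟨_, rfl⟩
    have g1 : GInv (M₀ * ∏ q ∈ A.erase p, q ^ a) g := hg ▸ yuh_av_inv hM hd hf
    have g2 : ∀ z, |g z| ≤ B := fun z => hg ▸ abs_mnB_le hB.le fun c _ => hb _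
    have g3 : Lip K g := hg ▸ Lip.mnB hK fun c _ => hL.cact _
    have g4 : ZM M₀ (M₀ * ∏ q ∈ A, q ^ a) g := hg ▸ yuh_av_zm hM (dvd_mul_right _ _) hf hz
    have g5 : ∀ q ∈ A, q ∉ insert p A₂ →
        ZM ((M₀ * ∏ q ∈ A, q ^ a) / q ^ a) (M₀ * ∏ q ∈ A, q ^ a) g := fun q hq hq' => by
      rw [hg]
      refine yuh_av_zm hM ?_ hf (hn q hq hq')
      rw [yuh_div hq (hq0 q hq)]
      exact dv _ _ (erase_subset _ _)
    have cl : (l ^ a).Coprime (M₀ * ∏ q ∈ A.erase p, q ^ a) :=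
      yuh_cop hl hl0 fun q hq => ⟨(hP q (hA q (mem_of_mem_erase hq))).1,
        (hP q (hA q (mem_of_mem_erase hq))).2.2⟩
    have cp : (p ^ a).Coprime (M₀ * ∏ q ∈ A.erase p, q ^ a) :=
      yuh_cop (hP p (hA p hpA)).1 (hP p (hA p hpA)).2.1 fun q hq =>
        ⟨(hP q (hA q (mem_of_mem_erase hq))).1, ne_of_mem_erase hq⟩
    have b1 : IN (M₀ * ∏ q ∈ A.erase p, q ^ a) |HK (l ^ a) ρ g| ≤ 3 ^ #A₂ * (c * (B + K)) := by
      refine ih (A.erase p) g K B (fun q hq => mem_erase.2 ⟨fun e => hp (e ▸ hq),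
        hs (mem_insert_of_mem hq)⟩) (fun q hq => hA q (mem_of_mem_erase hq)) (hR.mono hd) g1 hB g2
        hK g3 ?_ fun q hq hq' => ?_
      · refine yuh_down (u := 1) hM hd ?_ (dvd_mul_right _ _) (Nat.coprime_one_left _) g1 ?_
        · rw [mul_one]
          exact dvd_mul_right _ _
        · rw [mul_one]
          exact g4
      · have hqA := mem_of_mem_erase hq
        have hqp := ne_of_mem_erase hq
        have e : (M₀ * ∏ q ∈ (A.erase p).erase q, q ^ a) * p ^ a =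
            M₀ * ∏ q ∈ A.erase q, q ^ a := by
          rw [erase_right_comm, mul_assoc,
            Finset.prod_erase_mul _ (fun q => q ^ a) (mem_erase.2 ⟨hqp.symm, hpA⟩)]
        rw [yuh_div hq (hq0 q hqA)]
        refine yuh_down hM hd ?_ (dv _ _ (erase_subset _ _)) cp g1 ?_
        · rw [e]
          exact dv _ _ (erase_subset _ _)
        · rw [e, ← yuh_div hqA (hq0 q hqA)]
          exact g5 q hqA fun h' => (mem_insert.1 h').elim hqp hq'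
    have b2 : IN (M₀ * ∏ q ∈ A, q ^ a) |HK (l ^ a) ρ (f - g)| ≤
        3 ^ #A₂ * (c * (2 * B + 2 * K)) := by
      refine ih A (f - g) (2 * K) (2 * B) (fun q hq => hs (mem_insert_of_mem hq)) hA hR
        (fun γ hγ z => ?_) (by positivity) (fun z => ?_) (by positivity) (fun z w => ?_)
        (yuh_zm_sub hz g4) fun q hq hq' => ?_
      · simp only [BoundedContinuousFunction.sub_apply]
        rw [hf γ hγ, GInv.mono hd g1 γ hγ]
      · have h1 := abs_le.1 (hb z)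
        have h2 := abs_le.1 (g2 z)
        rw [BoundedContinuousFunction.sub_apply, abs_le]
        constructor <;> linarith [h1.1, h1.2, h2.1, h2.2]
      · have h1 := abs_le.1 (hL z w)
        have h2 := abs_le.1 (g3 z w)
        simp only [BoundedContinuousFunction.sub_apply]
        rw [abs_le]
        constructor <;> linarith [h1.1, h1.2, h2.1, h2.2]
      · by_cases e : q = p
        · rw [e, yuh_div hpA (hq0 p hpA), hg]
          exact yuh_new hM hd hf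
        · have h' : q ∉ insert p A₂ := fun h' => (mem_insert.1 h').elim e hq'
          exact yuh_zm_sub (hn q hq h') (g5 q hq h')
    have b3 : IN (M₀ * ∏ q ∈ A, q ^ a) |HK (l ^ a) ρ g| =
        IN (M₀ * ∏ q ∈ A.erase p, q ^ a) |HK (l ^ a) ρ g| := by
      refine IN_level hR0 hM hd fun γ hγ z => ?_
      simp only [BoundedContinuousFunction.coe_abs, Pi.abs_apply]
      rw [HK_ginv (pow_pos hl.pos a) cl (hR.mono hd) g1 γ hγ]
    have b4 := yuh_split (n := l ^ a) hM ρ f g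
    rw [card_insert_of_notMem hp, pow_succ]
    linarith

theorem ug (a : ℕ) : ∃ (C : ℝ) (y₀ : ℕ), 0 < C ∧ ∀ (y M₀ M l : ℕ) (A : Finset ℕ) (s : ℤ)
    (ρ : Set V2 → M2) (f : ℍ →ᵇ ℝ) (K B : ℝ), y₀ ≤ y → 0 < M₀ → M₀ ^ 30 ≤ y →
    M = M₀ * ∏ p ∈ A, p ^ a →
    (∀ p ∈ A, p.Prime ∧ y < p ∧ p ≤ 2 * y ∧ ¬ p ∣ M₀ ∧ p ≠ l) → l.Prime → y < l → l ≤ 2 * y →
    ¬ l ∣ M₀ → IsR (l ^ a) M s ρ → GInv M f → 0 < B → (∀ z, |f z| ≤ B) → 0 ≤ K → Lip K f →
    ZM M₀ M f →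
    IN M |HK (l ^ a) ρ f| ≤ C * 3 ^ #A * (B + K) * (y : ℝ) ^ (-(1 / 1000 : ℝ)) := by
  obtain ⟨C, y₀, hC, H⟩ := ug_new a
  refine ⟨C, y₀, hC, ?_⟩
  intro y M₀ M l A s ρ f K B hy hM₀ h30 hM hA hl hl1 hl2 hl0 hR hf hB hb hK hL hz
  subst hM
  have key := yuh_ind (a := a) (s := s) (ρ := ρ) (c := C * (y : ℝ) ^ (-(1 / 1000 : ℝ)))
    (P := fun p => p.Prime ∧ y < p ∧ p ≤ 2 * y ∧ ¬ p ∣ M₀ ∧ p ≠ l) (by positivity) hM₀ hl hl0
    (fun p hp => ⟨hp.1, hp.2.2.2⟩)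
    (fun A f K B hne hA hR hf hB hb hK hL hn => by
      have := H y M₀ _ l A s ρ f K B hy hM₀ h30 rfl hne hA hl hl1 hl2 hl0 hR hf hB hb hK hL hn
      linarith)
    A A f K B Subset.rfl hA hR hf hB hb hK hL hz fun p hp hp' => absurd hp hp'
  linarith

end Pool.Agent.EQ
end
end

-- part Pool.Agent.P.MP_ad7a55_nt.YCb
section

/-! Products over the vertices of a cube. -/

set_option autoImplicit false

noncomputable section

open MeasureTheory Topology Filter UpperHalfPlane Finset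
open scoped MatrixGroups BoundedContinuousFunction Matrix Classical

namespace Pool.Agent.EQ

/-- The directions at the primes `l j`. -/
def LB {k : ℕ} (e : ℕ) (l : Fin k → ℕ) : Finset (Fin k → Set V2) :=
  Fintype.piFinset fun j => Xn (l j ^ (2 * e))

/-- Matrices for the moves along subsets of the primes `l j`. -/
def IsRS {k : ℕ} (e M : ℕ) (l : Fin k → ℕ) (ρ : Finset (Fin k) → (Fin k → Set V2) → M2) : Prop :=
  ∀ S, ∀ Ls ∈ LB e l, (ρ S Ls).det = ((∏ j ∈ S, l j) ^ (2 * e) : ℕ) ∧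
    (∀ j ∈ S, Ker (l j ^ (2 * e)) (ρ S Ls) = Ls j) ∧
    Cg M (ρ S Ls) (((∏ j ∈ S, l j : ℕ) : ℤ) ^ e)

/-- Different primes of size `y`, prime to the level. -/
structure CuP (y M₀ q : ℕ) {k : ℕ} (l : Fin k → ℕ) : Prop where
  pos : 0 < M₀
  hq : q.Prime ∧ y < q ∧ q ≤ 2 * y ∧ ¬ q ∣ M₀
  hl : ∀ j, (l j).Prime ∧ y < l j ∧ l j ≤ 2 * y ∧ ¬ l j ∣ M₀ ∧ l j ≠ q
  inj : Function.Injective l

variable {y M₀ q k e : ℕ} {l : Fin k → ℕ} {ρ : Finset (Fin k) → (Fin k → Set V2) → M2}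

theorem ycb_cg {M : ℕ} {γ : SL(2, ℤ)} (h : γ ∈ CongruenceSubgroup.Gamma M) :
    Cg M (γ : M2) 1 := by
  obtain ⟨h0, h1, h2, h3⟩ := CongruenceSubgroup.Gamma_mem.1 h
  intro i j
  rw [← ZMod.intCast_zmod_eq_zero_iff_dvd]
  fin_cases i <;> fin_cases j <;> simp [h0, h1, h2, h3]

theorem ycb_congr {α : Type} {O : Finset α} {G G' : α → ℝ} (h : ∀ x ∈ O, G x = G' x) :
    mn O G = mn O G' :=
  le_antisymm (mn_mono fun x hx => (h x hx).le) (mn_mono fun x hx => (h x hx).ge)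

theorem ycb_le {α : Type} {O : Finset α} {G : α → ℝ} {B : ℝ} (hB : 0 ≤ B)
    (h : ∀ x ∈ O, G x ≤ B) : mn O G ≤ B := by
  rcases O.eq_empty_or_nonempty with rfl | hO
  · simpa [mn] using hB
  · exact (mn_mono h).trans (mn_const hO B).le

theorem ycb_update {α κ : Type} [Fintype κ] [d : DecidableEq κ] (X : κ → Finset α) (j : κ)
    (hX : (X j).Nonempty) (G : (κ → α) → ℝ) : mn (Fintype.piFinset X) G =
      mn (Fintype.piFinset X) fun t => mn (X j) fun a => G (Function.update t j a) := by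
  obtain rfl : d = fun a b => Classical.propDecidable (a = b) := Subsingleton.elim _ _
  exact mn_update X j hX G

theorem ycb_ne {n : ℕ} (hn : 0 < n) : (Xn n).Nonempty :=
  ⟨_, (mem_Xn hn).2 ⟨![1, 0], by simpa using isCoprime_one_left, rfl⟩⟩

theorem ycb_det (γ : SL(2, ℤ)) (n : ℕ) : IsCoprime (γ : M2).det n := by
  rw [γ.det_coe]
  exact isCoprime_one_left

theorem ycb_lp (h : CuP y M₀ q l) (j : Fin k) (a : ℕ) : 0 < l j ^ a := pow_pos (h.hl j).1.pos a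

theorem ycb_ll (h : CuP y M₀ q l) {i j : Fin k} (hij : i ≠ j) : (l i).Coprime (l j) :=
  (Nat.coprime_primes (h.hl i).1 (h.hl j).1).2 fun e => hij (h.inj e)

theorem ycb_lq (h : CuP y M₀ q l) (j : Fin k) : (l j).Coprime q :=
  (Nat.coprime_primes (h.hl j).1 h.hq.1).2 (h.hl j).2.2.2.2

theorem ycb_lM (h : CuP y M₀ q l) (j : Fin k) : (l j).Coprime M₀ :=
  (Nat.Prime.coprime_iff_not_dvd (h.hl j).1).2 (h.hl j).2.2.2.1

theorem ycb_pp (h : CuP y M₀ q l) (S : Finset (Fin k)) (a : ℕ) : 0 < (∏ j ∈ S, l j) ^ a :=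
  pow_pos (prod_pos fun j _ => (h.hl j).1.pos) a

theorem ycb_LB (h : CuP y M₀ q l) {Ls : Fin k → Set V2} :
    Ls ∈ LB e l ↔ ∀ j, IsLn (l j ^ (2 * e)) (Ls j) := by
  rw [LB, Fintype.mem_piFinset]
  exact forall_congr' fun j => mem_Xn (ycb_lp h j _)

theorem ycb_plLB (h : CuP y M₀ q l) {Ls : Fin k → Set V2} (hL : Ls ∈ LB e l) (γ : SL(2, ℤ)) :
    (fun j => pl (γ : M2) (Ls j)) ∈ LB e l :=
  (ycb_LB h).2 fun j => ((ycb_LB h).1 hL j).pl (ycb_lp h j _) (ycb_det γ _)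

theorem ycb_gam (h : CuP y M₀ q l) (S : Finset (Fin k)) {η η' : M2}
    (d : η.det = ((∏ j ∈ S, l j) ^ (2 * e) : ℕ)) (d' : η'.det = ((∏ j ∈ S, l j) ^ (2 * e) : ℕ))
    (hk : ∀ j ∈ S, Ker (l j ^ (2 * e)) η = Ker (l j ^ (2 * e)) η')
    (c : Cg (M₀ * q) η (((∏ j ∈ S, l j : ℕ) : ℤ) ^ e))
    (c' : Cg (M₀ * q) η' (((∏ j ∈ S, l j : ℕ) : ℤ) ^ e)) :
    ∃ δ ∈ CongruenceSubgroup.Gamma (M₀ * q), η' = (δ : M2) * η := by
  have h1 : Ker ((∏ j ∈ S, l j) ^ (2 * e)) η ⊆ Ker ((∏ j ∈ S, l j) ^ (2 * e)) η' := by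
    intro v hv i
    have h2 : ∀ j ∈ S, v ∈ Ker (l j ^ (2 * e)) η' := fun j hj =>
      hk j hj ▸ Ker_anti (pow_dvd_pow_of_dvd (dvd_prod_of_mem l hj) _) η hv
    rw [← prod_pow, Nat.cast_prod]
    exact Finset.prod_dvd_of_coprime (fun a _ b _ hab => Nat.isCoprime_iff_coprime.2
      (Nat.Coprime.pow _ _ (ycb_ll h hab))) fun j hj => h2 j hj i
  obtain ⟨δ, rfl⟩ := exists_SL_of_Ker (ycb_pp h S _) d d' h1
  refine ⟨δ, Cg.gamma (IsCoprime.pow_left (Nat.isCoprime_iff_coprime.2 ?_)) c c', rfl⟩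
  exact Nat.Coprime.prod_left fun j _ => Nat.Coprime.mul_right (ycb_lM h j) (ycb_lq h j)

theorem CuP.trans (h : CuP y M₀ q l) (e : ℕ) {x x' : (Fin k → Set V2) × Set V2 × Set V2}
    (hx : x ∈ LB e l ×ˢ (Xn q).offDiag) (hx' : x' ∈ LB e l ×ˢ (Xn q).offDiag) :
    ∃ γ ∈ CongruenceSubgroup.Gamma M₀,
      ((fun j => pl (γ : M2) (x.1 j)), pl (γ : M2) x.2.1, pl (γ : M2) x.2.2) = x' := by
  obtain ⟨a1, a2⟩ := mem_product.1 hx
  obtain ⟨b1, b2⟩ := mem_product.1 hx'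
  choose g hg using fun j => line_trans ((ycb_LB h).1 a1 j) ((ycb_LB h).1 b1 j)
  obtain ⟨g₀, c1, c2⟩ := pair_trans h.hq.1 a2 b2
  obtain ⟨γ, hγ, hd⟩ := crt_SL (univ : Finset (Option (Fin k)))
    (fun o => o.elim q fun j => l j ^ (2 * e)) h.pos
    (fun o _ => by
      cases o with
      | none => exact ⟨h.hq.1.pos, (Nat.Prime.coprime_iff_not_dvd h.hq.1).2 h.hq.2.2.2⟩
      | some j => exact ⟨ycb_lp h j _, Nat.Coprime.pow_left _ (ycb_lM h j)⟩)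
    (fun o _ o' _ hne => by
      cases o with
      | none =>
        cases o' with
        | none => exact absurd rfl hne
        | some j => exact (Nat.Coprime.pow_left _ (ycb_lq h j)).symm
      | some i =>
        cases o' with
        | none => exact Nat.Coprime.pow_left _ (ycb_lq h i)
        | some j => exact Nat.Coprime.pow _ _ (ycb_ll h fun e => hne (congrArg some e)))
    (fun o => o.elim g₀ g)
  obtain ⟨d1, d2, -⟩ := mem_offDiag.1 a2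
  refine ⟨γ, hγ, Prod.ext (funext fun j => ?_) (Prod.ext ?_ ?_)⟩
  · exact (pl_congr ((ycb_LB h).1 a1 j) (hd (some j) (mem_univ _))).trans (hg j)
  · exact (pl_congr ((mem_Xn h.hq.1.pos).1 d1) (hd none (mem_univ _))).trans c1
  · exact (pl_congr ((mem_Xn h.hq.1.pos).1 d2) (hd none (mem_univ _))).trans c2

theorem IsRS.smul (h : CuP y M₀ q l) (hρ : IsRS e (M₀ * q) l ρ) (S : Finset (Fin k))
    {Ls : Fin k → Set V2} (hL : Ls ∈ LB e l) (γ : SL(2, ℤ)) :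
    ∃ δ ∈ CongruenceSubgroup.Gamma (M₀ * q),
      ρ S Ls * (γ : M2) = (γ : M2) * (δ : M2) * ρ S fun j => pl (γ : M2) (Ls j) := by
  obtain ⟨a1, a2, a3⟩ := hρ S Ls hL
  obtain ⟨b1, b2, b3⟩ := hρ S _ (ycb_plLB h hL γ)
  have c := a3.conj γ⁻¹
  rw [inv_inv, mul_assoc] at c
  obtain ⟨δ, hδ, hd⟩ := ycb_gam h S b1
    (η' := ((γ⁻¹ : SL(2, ℤ)) : M2) * (ρ S Ls * (γ : M2)))
    (by rw [Matrix.det_mul, Matrix.det_mul, γ.det_coe, γ⁻¹.det_coe, a1, one_mul, mul_one])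
    (fun j hj => by rw [b2 j hj, Ker_SL, Ker_mul_pl, a2 j hj]) b3 c
  refine ⟨δ, hδ, ?_⟩
  rw [mul_assoc, ← hd, ← mul_assoc, ← Matrix.SpecialLinearGroup.coe_mul, mul_inv_cancel,
    Matrix.SpecialLinearGroup.coe_one, one_mul]

theorem IsRS.split (h : CuP y M₀ q l) (hρ : IsRS e (M₀ * q) l ρ) {S : Finset (Fin k)} {j : Fin k}
    (hj : j ∈ S) {Ls Ls' : Fin k → Set V2} (hL : Ls ∈ LB e l) (hL' : Ls' ∈ LB e l)
    (hLL : ∀ i ∈ S.erase j, Ls' i = Ls i) {η : M2} (h1 : η.det = (l j ^ (2 * e) : ℕ))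
    (h2 : Ker (l j ^ (2 * e)) η = Ls j)
    (h3 : Cg (M₀ * q * ∏ i ∈ S.erase j, l i ^ (2 * e)) η ((l j : ℤ) ^ e)) :
    ∃ δ ∈ CongruenceSubgroup.Gamma (M₀ * q), ρ S Ls = (δ : M2) * (ρ (S.erase j) Ls' * η) := by
  obtain ⟨a1, a2, a3⟩ := hρ S Ls hL
  obtain ⟨b1, b2, b3⟩ := hρ (S.erase j) Ls' hL'
  refine ycb_gam h S ?_ a1 (fun i hi => ?_) ?_ a3
  · rw [Matrix.det_mul, b1, h1, ← Nat.cast_mul, ← mul_pow, prod_erase_mul S l hj]
  · rw [a2 i hi]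
    by_cases hij : i = j
    · subst hij
      rw [Ker_cop, h2]
      rw [b1]
      exact Nat.isCoprime_iff_coprime.2 (Nat.Coprime.pow _ _
        (Nat.Coprime.prod_left fun i' hi' => ycb_ll h (ne_of_mem_erase hi')))
    · have hi' : i ∈ S.erase j := mem_erase.2 ⟨hij, hi⟩
      rw [Ker_Cg (h3.mono (Dvd.dvd.mul_left (dvd_prod_of_mem (fun i => l i ^ (2 * e)) hi') _)),
        b2 i hi', hLL i hi']
      exact IsCoprime.pow_left (Nat.isCoprime_iff_coprime.2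
        (Nat.Coprime.pow_right _ (ycb_ll h fun e => hij e.symm)))
  · have c := b3.mul (h3.mono (Dvd.intro _ rfl))
    rwa [← mul_pow, ← Nat.cast_mul, prod_erase_mul S l hj] at c

/-- The action on the index set. -/
def ycbA (g : SL(2, ℤ)) (x : (Fin k → Set V2) × Set V2 × Set V2) :
    (Fin k → Set V2) × Set V2 × Set V2 :=
  ((fun j => pl (g : M2) (x.1 j)), pl (g : M2) x.2.1, pl (g : M2) x.2.2)

/-- The product over the tests. -/
def ycbF {κ : Type} (ρ : Finset (Fin k) → (Fin k → Set V2) → M2)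
    (f : κ → Set V2 × Set V2 → (ℍ →ᵇ ℝ)) (I : Finset κ) (S : κ → Finset (Fin k))
    (x : (Fin k → Set V2) × Set V2 × Set V2) : ℍ →ᵇ ℝ :=
  ∏ i ∈ I, cact (f i x.2) (ρ (S i) x.1)

/-- Equivariant families. -/
def ycbE {κ : Type} (M₀ q : ℕ) (f : κ → Set V2 × Set V2 → (ℍ →ᵇ ℝ)) : Prop :=
  ∀ i, ∀ δ ∈ CongruenceSubgroup.Gamma M₀, ∀ ω ∈ (Xn q).offDiag, ∀ z,
    f i ω (δ • z) = f i (pl (δ : M2) ω.1, pl (δ : M2) ω.2) z

variable {κ : Type} {f : κ → Set V2 × Set V2 → (ℍ →ᵇ ℝ)}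
  {x : (Fin k → Set V2) × Set V2 × Set V2}

theorem ycb_sub {N N' : ℕ} (h : N ∣ N') {γ : SL(2, ℤ)} (hγ : γ ∈ CongruenceSubgroup.Gamma N') :
    γ ∈ CongruenceSubgroup.Gamma N := by
  rw [CongruenceSubgroup.Gamma_mem] at hγ ⊢
  have e : ∀ x : ℤ, ZMod.castHom h (ZMod N) (x : ZMod N') = x := fun x => map_intCast _ x
  obtain ⟨h0, h1, h2, h3⟩ := hγ
  exact ⟨by rw [← e, h0, map_one], by rw [← e, h1, map_zero], by rw [← e, h2, map_zero],
    by rw [← e, h3, map_one]⟩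

theorem ycb_fix {M n : ℕ} {g : SL(2, ℤ)} (hg : g ∈ CongruenceSubgroup.Gamma M) (hn : n ∣ M)
    {L : Set V2} (hL : IsLn n L) : pl (g : M2) L = L :=
  pl_Cg hL ((ycb_cg hg).mono hn) isCoprime_one_left

theorem ycb_back (g : SL(2, ℤ)) (L : Set V2) :
    pl ((g⁻¹ : SL(2, ℤ)) : M2) (pl (g : M2) L) = L := by
  rw [← pl_mul, ← Matrix.SpecialLinearGroup.coe_mul, mul_inv_cancel,
    Matrix.SpecialLinearGroup.coe_one]
  ext v
  simp [pl]

theorem ycb_inj (g : SL(2, ℤ)) {L L' : Set V2} (h : pl (g : M2) L = pl (g : M2) L') : L = L' := by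
  rw [← ycb_back g L, h, ycb_back]

theorem ycb_off (hq : 0 < q) (g : SL(2, ℤ)) {ω : Set V2 × Set V2} (h : ω ∈ (Xn q).offDiag) :
    (pl (g : M2) ω.1, pl (g : M2) ω.2) ∈ (Xn q).offDiag := by
  obtain ⟨a1, a2, a3⟩ := mem_offDiag.1 h
  exact mem_offDiag.2 ⟨(mem_Xn hq).2 (((mem_Xn hq).1 a1).pl hq (ycb_det g _)),
    (mem_Xn hq).2 (((mem_Xn hq).1 a2).pl hq (ycb_det g _)), fun e => a3 (ycb_inj g e)⟩

theorem ycb_mem (h : CuP y M₀ q l) (g : SL(2, ℤ)) (hx : x ∈ LB e l ×ˢ (Xn q).offDiag) :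
    ycbA g x ∈ LB e l ×ˢ (Xn q).offDiag :=
  mem_product.2 ⟨ycb_plLB h (mem_product.1 hx).1 g, ycb_off h.hq.1.pos g (mem_product.1 hx).2⟩

theorem ycb_Ainj (g : SL(2, ℤ)) : Function.Injective (ycbA (k := k) g) := fun x x' hx => by
  have a1 := congrArg Prod.fst hx
  have a2 := congrArg (fun z => z.2.1) hx
  have a3 := congrArg (fun z => z.2.2) hx
  exact Prod.ext (funext fun j => ycb_inj g (congrFun a1 j))
    (Prod.ext (ycb_inj g a2) (ycb_inj g a3))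

theorem ycb_ginv (h : CuP y M₀ q l) (hf : ycbE M₀ q f) (i : κ) {ω : Set V2 × Set V2}
    (hω : ω ∈ (Xn q).offDiag) : GInv (M₀ * q) (f i ω) := fun δ hδ z => by
  obtain ⟨a1, a2, -⟩ := mem_offDiag.1 hω
  rw [hf i δ (ycb_sub (Dvd.intro _ rfl) hδ) ω hω,
    ycb_fix hδ (Dvd.intro_left _ rfl) ((mem_Xn h.hq.1.pos).1 a1),
    ycb_fix hδ (Dvd.intro_left _ rfl) ((mem_Xn h.hq.1.pos).1 a2)]

theorem ycb_apply (I : Finset κ) (S : κ → Finset (Fin k)) (z : ℍ) :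
    ycbF ρ f I S x z = ∏ i ∈ I, f i x.2 (act (ρ (S i) x.1) z) := by
  rw [ycbF, BoundedContinuousFunction.prod_apply]
  rfl

theorem ycb_pos (h : CuP y M₀ q l) (hρ : IsRS e (M₀ * q) l ρ) (S : Finset (Fin k))
    {Ls : Fin k → Set V2} (hL : Ls ∈ LB e l) : 0 < (ρ S Ls).det := by
  rw [(hρ S Ls hL).1]
  exact_mod_cast ycb_pp h S _

theorem ycb_eqv (h : CuP y M₀ q l) (hρ : IsRS e (M₀ * q) l ρ) (hf : ycbE M₀ q f) (I : Finset κ)
    (S : κ → Finset (Fin k)) (hx : x ∈ LB e l ×ˢ (Xn q).offDiag) {γ : SL(2, ℤ)}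
    (hγ : γ ∈ CongruenceSubgroup.Gamma M₀) (z : ℍ) :
    ycbF ρ f I S x (γ • z) = ycbF ρ f I S (ycbA γ x) z := by
  obtain ⟨a1, a2⟩ := mem_product.1 hx
  rw [ycb_apply, ycb_apply]
  refine prod_congr rfl fun i _ => ?_
  obtain ⟨δ, hδ, hd⟩ := hρ.smul h (S i) a1 γ
  have p := ycb_pos h hρ (S i) (ycb_plLB h a1 γ)
  rw [← act_SL, ← act_mul (ycb_pos h hρ _ a1) (vact_SL_det γ), hd,
    ← Matrix.SpecialLinearGroup.coe_mul, act_mul (vact_SL_det _) p, act_SL, mul_smul,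
    hf i γ hγ _ a2, ycb_ginv h hf i (ycb_off h.hq.1.pos γ a2) δ hδ]
  rfl

theorem ycb_minv (h : CuP y M₀ q l) (hρ : IsRS e (M₀ * q) l ρ) (hf : ycbE M₀ q f) (I : Finset κ)
    (S : κ → Finset (Fin k)) : GInv M₀ (mnB (LB e l ×ˢ (Xn q).offDiag) (ycbF ρ f I S)) :=
  fun γ hγ z => by
  rw [mnB_apply, mnB_apply, ycb_congr fun x hx => ycb_eqv h hρ hf I S hx hγ z]
  exact mn_perm (fun x hx => ycb_mem h γ hx) (ycb_Ainj γ).injOn fun x => ycbF ρ f I S x z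

theorem ycb_abs (hb : ∀ i ω z, |f i ω z| ≤ 1) (I : Finset κ) (S : κ → Finset (Fin k)) (z : ℍ) :
    |ycbF ρ f I S x z| ≤ 1 := by
  rw [ycb_apply, Finset.abs_prod]
  exact Finset.prod_le_one (fun j _ => abs_nonneg _) fun j _ => hb _ _ _

theorem ycb_lev (h : CuP y M₀ q l) (hρ : IsRS e (M₀ * q) l ρ) (hf : ycbE M₀ q f) (I : Finset κ)
    (S : κ → Finset (Fin k)) (hx : x ∈ LB e l ×ˢ (Xn q).offDiag) {M : ℕ}
    (hM : ∀ i ∈ I, M₀ * q * (∏ j ∈ S i, l j) ^ (2 * e) ∣ M) : GInv M (ycbF ρ f I S x) :=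
  fun γ hγ z => by
  obtain ⟨a1, a2⟩ := mem_product.1 hx
  rw [ycb_apply, ycb_apply]
  refine prod_congr rfl fun i hi => ?_
  refine ginv_cact (ycb_ginv h hf i a2) (ycb_pos h hρ (S i) a1) ?_ γ hγ z
  rw [(hρ (S i) _ a1).1, Int.natAbs_natCast]
  exact hM i hi

theorem ycb_zm (h : CuP y M₀ q l) (hρ : IsRS e (M₀ * q) l ρ) (hf : ycbE M₀ q f) (I : Finset κ)
    (S : κ → Finset (Fin k)) (hx : x ∈ LB e l ×ˢ (Xn q).offDiag) {M : ℕ} (hM : 0 < M)
    (h0 : M₀ ∣ M) (hg : GInv M (ycbF ρ f I S x)) :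
    ZM M₀ M (ycbF ρ f I S x - mnB (LB e l ×ˢ (Xn q).offDiag) (ycbF ρ f I S) : ℍ →ᵇ ℝ) := by
  intro z
  have hT : 0 < M * (q * (∏ j, l j) ^ (2 * e)) :=
    Nat.mul_pos hM (Nat.mul_pos h.hq.1.pos (ycb_pp h _ _))
  have d0 : M₀ ∣ M * (q * (∏ j, l j) ^ (2 * e)) := h0.mul_right _
  have a1 := cs_level (M' := M) (R' := M₀) (u := 1) hT (Dvd.intro _ rfl) (by rwa [mul_one]) h0
    (Nat.coprime_one_left _) (F := fun g => ycbF ρ f I S x (g • z))
    fun g δ hδ => by rw [mul_smul, hg δ hδ]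
  rw [mul_one] at a1
  have a2 := avg_trans hT d0 (LB e l ×ˢ (Xn q).offDiag) ycbA (fun g _ b hb => ycb_mem h g hb)
    (fun g _ g' _ b _ => by
      simp only [ycbA, Matrix.SpecialLinearGroup.coe_mul, pl_mul])
    (fun g hg b hb => by
      obtain ⟨b1, b2⟩ := mem_product.1 hb
      obtain ⟨c1, c2, -⟩ := mem_offDiag.1 b2
      have dq : q ∣ M * (q * (∏ j, l j) ^ (2 * e)) := (Dvd.intro _ rfl : q ∣ _).mul_left _
      refine Prod.ext (funext fun j => ycb_fix hg ?_ ((ycb_LB h).1 b1 j)) (Prod.ext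
        (ycb_fix hg dq ((mem_Xn h.hq.1.pos).1 c1)) (ycb_fix hg dq ((mem_Xn h.hq.1.pos).1 c2)))
      exact ((pow_dvd_pow_of_dvd (dvd_prod_of_mem l (mem_univ j)) _).mul_left _).mul_left _)
    (fun b hb b' hb' => h.trans e hb hb') (fun x => ycbF ρ f I S x z) hx
  rw [← ycb_congr fun c hc => ycb_eqv h hρ hf I S hx (out_mem_cs hc) z, a1, ← mnB_apply] at a2
  have a3 : ∀ c ∈ cs M₀ M, (ycbF ρ f I S x - mnB (LB e l ×ˢ (Xn q).offDiag) (ycbF ρ f I S) :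
      ℍ →ᵇ ℝ) (c.out • z) = ycbF ρ f I S x (c.out • z) +
        -mnB (LB e l ×ˢ (Xn q).offDiag) (ycbF ρ f I S) z := fun c hc => by
    rw [BoundedContinuousFunction.sub_apply, ycb_minv h hρ hf I S _ (out_mem_cs hc),
      sub_eq_add_neg]
  rw [ycb_congr a3, mn_add, a2, mn_const (cs_ne hM h0), add_neg_cancel]

theorem ycb_HK (n : ℕ) (η : Set V2 → M2) (g : ℍ →ᵇ ℝ) (z : ℍ) :
    HK n η g z = mn (Xn n) fun L => g (act (η L) z) := by
  rw [HK, mnB_apply]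
  rfl

theorem ycb_move (h : CuP y M₀ q l) (hρ : IsRS e (M₀ * q) l ρ) (hf : ycbE M₀ q f) (I : Finset κ)
    (S : κ → Finset (Fin k)) (j : Fin k) {M : ℕ} {η : Set V2 → M2}
    (hη : IsR (l j ^ (2 * e)) M ((l j : ℤ) ^ e) η)
    (hM : M₀ * q * ∏ i ∈ univ.erase j, l i ^ (2 * e) ∣ M) (z : ℍ) :
    mnB (LB e l ×ˢ (Xn q).offDiag) (ycbF ρ f I S) z = mn (LB e l ×ˢ (Xn q).offDiag) fun x =>
      ycbF ρ f {i ∈ I | ¬ j ∈ S i} S x z *
        HK (l j ^ (2 * e)) η (ycbF ρ f {i ∈ I | j ∈ S i} (fun i => (S i).erase j) x) z := by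
  have a1 : ∀ G : (Fin k → Set V2) × Set V2 × Set V2 → ℝ, mn (LB e l ×ˢ (Xn q).offDiag) G =
      mn (LB e l ×ˢ (Xn q).offDiag) fun x => mn (Xn (l j ^ (2 * e))) fun L =>
        G (Function.update x.1 j L, x.2) := fun G => by
    rw [mn_prod, mn_prod, LB, ycb_update (fun j => Xn (l j ^ (2 * e))) j (ycb_ne (ycb_lp h j _))]
    exact congrArg _ (funext fun t => mn_swap _ _ fun L ω => G (Function.update t j L, ω))
  rw [mnB_apply, a1]
  refine ycb_congr fun x hx => ?_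
  rw [ycb_HK, ← mn_mul]
  refine ycb_congr fun L hL => ?_
  obtain ⟨b1, b2⟩ := mem_product.1 hx
  have b3 : Function.update x.1 j L ∈ LB e l := (ycb_LB h).2 fun i => by
    by_cases hi : i = j
    · subst hi
      rw [Function.update_self]
      exact (mem_Xn (ycb_lp h i _)).1 hL
    · rw [Function.update_of_ne hi]
      exact (ycb_LB h).1 b1 i
  obtain ⟨c1, c2, c3⟩ := hη L hL
  have c4 : 0 < (η L).det := by
    rw [c1]
    exact_mod_cast ycb_lp h j _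
  rw [ycb_apply, ycb_apply, ycb_apply, ← prod_filter_not_mul_prod_filter I fun i => j ∈ S i]
  congr 1
  · refine prod_congr rfl fun i hi => ?_
    have hj := (mem_filter.1 hi).2
    obtain ⟨d1, d2, d3⟩ := hρ (S i) _ b1
    obtain ⟨d4, d5, d6⟩ := hρ (S i) _ b3
    obtain ⟨δ, hδ, hd⟩ := ycb_gam h (S i) d1 d4 (fun i' hi' => by
      rw [d2 i' hi', d5 i' hi', Function.update_of_ne fun e : i' = j => hj (e ▸ hi')]) d3 d6
    change f i x.2 (act (ρ (S i) (Function.update x.1 j L)) z) = _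
    rw [hd, act_mul (vact_SL_det δ) (ycb_pos h hρ _ b1), act_SL, ycb_ginv h hf i b2 δ hδ]
  · refine prod_congr rfl fun i hi => ?_
    have hj := (mem_filter.1 hi).2
    obtain ⟨δ, hδ, hd⟩ := hρ.split h hj b3 b1
      (fun i' hi' => (Function.update_of_ne (ne_of_mem_erase hi') _ _).symm) c1
      (by rw [c2, Function.update_self]) (c3.mono (dvd_trans (mul_dvd_mul_left _
        (prod_dvd_prod_of_subset _ _ _ (erase_subset_erase j (subset_univ _)))) hM))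
    have p := ycb_pos h hρ ((S i).erase j) b1
    change f i x.2 (act (ρ (S i) (Function.update x.1 j L)) z) = _
    rw [hd, act_mul (vact_SL_det δ) (by rw [Matrix.det_mul]; exact mul_pos p c4), act_SL,
      ycb_ginv h hf i b2 δ hδ, act_mul p c4]

theorem ycb_gabs {N : ℕ} {g : ℍ →ᵇ ℝ} (h : GInv N g) : GInv N (|g| : ℍ →ᵇ ℝ) :=
  fun γ hγ z => congrArg abs (h γ hγ z)

theorem ycb_step (he : 0 < e) (h : CuP y M₀ q l) (hρ : IsRS e (M₀ * q) l ρ) (hf : ycbE M₀ q f)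
    (hb : ∀ i ω z, |f i ω z| ≤ 1) {K D : ℝ} (hK : 0 ≤ K) (hD : 0 ≤ D) (hL : ∀ i ω, Lip K (f i ω))
    (I : Finset κ) (S : κ → Finset (Fin k)) (j : Fin k) {n₀ : ℕ} (hI : #I ≤ n₀)
    (hu : ∀ (A : Finset ℕ) (η : Set V2 → M2) (g : ℍ →ᵇ ℝ), #A ≤ k →
      (∀ p ∈ A, p.Prime ∧ y < p ∧ p ≤ 2 * y ∧ ¬ p ∣ M₀ ∧ p ≠ l j) →
      IsR (l j ^ (2 * e)) (M₀ * ∏ p ∈ A, p ^ (2 * e)) ((l j : ℤ) ^ e) η →
      GInv (M₀ * ∏ p ∈ A, p ^ (2 * e)) g → (∀ z, |g z| ≤ 2) → Lip (2 * (n₀ * K)) g →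
      ZM M₀ (M₀ * ∏ p ∈ A, p ^ (2 * e)) g →
      IN (M₀ * ∏ p ∈ A, p ^ (2 * e)) |HK (l j ^ (2 * e)) η g| ≤ D) :
    IN M₀ |mnB (LB e l ×ˢ (Xn q).offDiag) (ycbF ρ f I S)| ≤
      min (IN M₀ |mnB (LB e l ×ˢ (Xn q).offDiag) (ycbF ρ f {i ∈ I | ¬ j ∈ S i} S)|)
        (IN M₀ |mnB (LB e l ×ˢ (Xn q).offDiag)
          (ycbF ρ f {i ∈ I | j ∈ S i} fun i => (S i).erase j)|) + D := by
  set O := LB e l ×ˢ (Xn q).offDiag
  set A : Finset ℕ := insert q ((univ.erase j).image l) with hA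
  have hq : q ∉ (univ.erase j).image l := fun hh => by
    obtain ⟨i, -, hi⟩ := mem_image.1 hh
    exact (h.hl i).2.2.2.2 hi
  have hc : #A ≤ k := by
    have h1 := card_image_le (s := univ.erase j) (f := l)
    rw [card_erase_of_mem (mem_univ j), card_univ, Fintype.card_fin] at h1
    have h2 := j.pos
    rw [hA, card_insert_of_notMem hq]
    omega
  have hp : ∀ p ∈ A, p.Prime ∧ y < p ∧ p ≤ 2 * y ∧ ¬ p ∣ M₀ ∧ p ≠ l j := fun p hp => by
    rcases mem_insert.1 hp with rfl | hp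
    · exact ⟨h.hq.1, h.hq.2.1, h.hq.2.2.1, h.hq.2.2.2, (h.hl j).2.2.2.2.symm⟩
    · obtain ⟨i, hi, rfl⟩ := mem_image.1 hp
      exact ⟨(h.hl i).1, (h.hl i).2.1, (h.hl i).2.2.1, (h.hl i).2.2.2.1,
        fun e => ne_of_mem_erase hi (h.inj e)⟩
  set M := M₀ * ∏ p ∈ A, p ^ (2 * e) with hM
  have hM0 : 0 < M := Nat.mul_pos h.pos (prod_pos fun p h' => pow_pos (hp p h').1.pos _)
  have d0 : M₀ ∣ M := Dvd.intro _ rfl
  have d1 : M₀ * q * ∏ i ∈ univ.erase j, l i ^ (2 * e) ∣ M := by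
    rw [hM, hA, prod_insert hq, prod_image fun a _ b _ e => h.inj e, mul_assoc]
    exact mul_dvd_mul_left _ (mul_dvd_mul_right (dvd_pow_self q (by omega)) _)
  have c0 : (l j).Coprime M := Nat.Coprime.mul_right (ycb_lM h j)
    (Nat.Coprime.prod_right fun p h' => Nat.Coprime.pow_right _
      ((Nat.coprime_primes (h.hl j).1 (hp p h').1).2 (hp p h').2.2.2.2.symm))
  have hn := ycb_lp h j (2 * e)
  have hex : ∀ L : Set V2, ∃ η : M2, L ∈ Xn (l j ^ (2 * e)) → η.det = (l j ^ (2 * e) : ℕ) ∧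
      Ker (l j ^ (2 * e)) η = L ∧ Cg M η ((l j : ℤ) ^ e) := fun L => by
    by_cases hL : L ∈ Xn (l j ^ (2 * e))
    · obtain ⟨η, hη⟩ := ((mem_Xn hn).1 hL).exists_Cg hn hM0 (s := (l j : ℤ) ^ e)
        (IsCoprime.pow_left (Nat.isCoprime_iff_coprime.2 c0))
        ⟨0, by push_cast; ring⟩
      exact ⟨η, fun _ => hη⟩
    · exact ⟨1, fun h' => absurd h' hL⟩
  choose η hη using hex
  have hR : IsR (l j ^ (2 * e)) M ((l j : ℤ) ^ e) η := hη
  set P0 := ycbF ρ f {i ∈ I | ¬ j ∈ S i} S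
  set P1 := ycbF ρ f {i ∈ I | j ∈ S i} fun i => (S i).erase j
  have i0 : GInv M₀ (mnB O P0) := ycb_minv h hρ hf _ _
  have i1 : GInv M₀ (mnB O P1) := ycb_minv h hρ hf _ _
  have b0 : ∀ z, |mnB O P0 z| ≤ 1 := fun z => abs_mnB_le zero_le_one fun x _ => ycb_abs hb _ _ z
  have b1 : ∀ z, |mnB O P1 z| ≤ 1 := fun z => abs_mnB_le zero_le_one fun x _ => ycb_abs hb _ _ z
  have l1 : ∀ x, Lip (n₀ * K) (P1 x) := fun x z w => by
    have h1 := Lip.prod hK (O := {i ∈ I | j ∈ S i})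
      (F := fun i => cact (f i x.2) (ρ ((S i).erase j) x.1))
      (fun i _ => ⟨(hL i _).cact _, fun z => hb i _ _⟩) z w
    refine h1.trans (mul_le_mul_of_nonneg_right (mul_le_mul_of_nonneg_right ?_ hK) dist_nonneg)
    exact_mod_cast (card_filter_le _ _).trans hI
  have l2 : Lip (n₀ * K) (mnB O P1) := Lip.mnB (by positivity) fun x _ => l1 x
  have e1 : ∀ x ∈ O, IN M |HK (l j ^ (2 * e)) η (P1 x - mnB O P1)| ≤ D := fun x hx => by
    have g1 : GInv M (P1 x) := ycb_lev h hρ hf _ _ hx fun i _ => by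
      refine dvd_trans (mul_dvd_mul_left _ ?_) d1
      rw [← prod_pow]
      exact prod_dvd_prod_of_subset _ _ _ (erase_subset_erase j (subset_univ _))
    refine hu A η _ hc hp hR (fun γ hγ z => ?_) (fun z => ?_) (fun z w => ?_)
      (ycb_zm h hρ hf _ _ hx hM0 d0 g1)
    · rw [BoundedContinuousFunction.sub_apply, BoundedContinuousFunction.sub_apply, g1 γ hγ,
        i1.mono d0 γ hγ]
    · rw [BoundedContinuousFunction.sub_apply]
      have := abs_sub (P1 x z) (mnB O P1 z)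
      have t : |P1 x z| ≤ 1 := ycb_abs hb _ _ z
      linarith [b1 z]
    · rw [BoundedContinuousFunction.sub_apply, BoundedContinuousFunction.sub_apply, sub_sub_sub_comm]
      have := abs_sub (P1 x z - P1 x w) (mnB O P1 z - mnB O P1 w)
      linarith [l1 x z w, l2 z w]
  have e2 : ∀ z, |mnB O (ycbF ρ f I S) z| ≤ |mnB O P0 z| * |HK (l j ^ (2 * e)) η (mnB O P1) z| +
      mnB O (fun x => |HK (l j ^ (2 * e)) η (P1 x - mnB O P1)|) z := fun z => by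
    have s1 : ∀ x, P0 x z * HK (l j ^ (2 * e)) η (P1 x) z =
        HK (l j ^ (2 * e)) η (mnB O P1) z * P0 x z +
          P0 x z * HK (l j ^ (2 * e)) η (P1 x - mnB O P1) z := fun x => by
      have s2 : HK (l j ^ (2 * e)) η (P1 x) z = HK (l j ^ (2 * e)) η (mnB O P1) z +
          HK (l j ^ (2 * e)) η (P1 x - mnB O P1) z := by
        rw [ycb_HK, ycb_HK, ycb_HK, ← mn_add]
        exact ycb_congr fun L _ => by rw [BoundedContinuousFunction.sub_apply, add_sub_cancel]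
      rw [s2]
      ring
    rw [ycb_move h hρ hf I S j hR d1, ycb_congr fun x _ => s1 x, mn_add, mn_mul, ← mnB_apply,
      mnB_apply O fun x => |HK (l j ^ (2 * e)) η (P1 x - mnB O P1)|]
    refine (abs_add_le _ _).trans (add_le_add (le_of_eq ?_) ((abs_mn_le _ _).trans
      (mn_mono fun x _ => ?_)))
    · rw [abs_mul, mul_comm]
    · rw [abs_mul]
      exact mul_le_of_le_one_left (abs_nonneg _) (ycb_abs hb _ _ z)
  have e3 : IN M (mnB O fun x => |HK (l j ^ (2 * e)) η (P1 x - mnB O P1)|) ≤ D := by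
    rw [IN_mnB hM0]
    exact ycb_le hD e1
  have e4 : ∀ z, |HK (l j ^ (2 * e)) η (mnB O P1) z| ≤ HK (l j ^ (2 * e)) η |mnB O P1| z :=
    fun z => by
      rw [ycb_HK, ycb_HK]
      exact abs_mn_le _ _
  have e5 : ∀ z, |HK (l j ^ (2 * e)) η (mnB O P1) z| ≤ 1 := fun z => by
    rw [ycb_HK]
    exact (abs_mn_le _ _).trans (ycb_le zero_le_one fun L _ => b1 _)
  rw [← IN_level h.pos hM0 d0 (ycb_gabs (ycb_minv h hρ hf I S)), ← min_add_add_right, le_min_iff]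
  constructor
  · rw [← IN_level h.pos hM0 d0 (ycb_gabs i0)]
    refine le_trans (IN_mono hM0 fun z => ?_) ((IN_add hM0 _ _).le.trans (add_le_add le_rfl e3))
    exact (e2 z).trans (add_le_add (mul_le_of_le_one_right (abs_nonneg _) (e5 z)) le_rfl)
  · rw [← IN_level h.pos hM0 d0 (ycb_gabs i1),
      ← IN_HK hn hM0 (Nat.Coprime.pow_left _ c0) hR ((ycb_gabs i1).mono d0)]
    refine le_trans (IN_mono hM0 fun z => ?_) ((IN_add hM0 _ _).le.trans (add_le_add le_rfl e3))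
    exact (e2 z).trans (add_le_add
      ((mul_le_of_le_one_left (abs_nonneg _) (b0 z)).trans (e4 z)) le_rfl)

theorem ycb_base (h : CuP y M₀ q l) (hρ : IsRS e (M₀ * q) l ρ) (hf : ycbE M₀ q f) (i₀ : κ)
    {S : κ → Finset (Fin k)} (hS : S i₀ = ∅) {b : ℝ}
    (hb : ∀ z, |mn (Xn q).offDiag fun ω => f i₀ ω z| ≤ b) :
    IN M₀ |mnB (LB e l ×ˢ (Xn q).offDiag) (ycbF ρ f {i₀} S)| ≤ b := by
  refine (IN_mono h.pos fun z => ?_).trans (IN_const h.pos b).le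
  have a1 : ∀ x ∈ LB e l ×ˢ (Xn q).offDiag, ycbF ρ f {i₀} S x z = f i₀ x.2 z := fun x hx => by
    obtain ⟨b1, b2⟩ := mem_product.1 hx
    obtain ⟨d1, -, d3⟩ := hρ ∅ _ b1
    obtain ⟨δ, hδ, hd⟩ := ycb_gam (e := e) h ∅ (η := 1) (by simp) d1
      (fun j hj => absurd hj (notMem_empty j)) (fun i j => by simp) d3
    rw [ycb_apply, prod_singleton, hS, hd, mul_one, act_SL, ycb_ginv h hf i₀ b2 δ hδ]
  change |mnB (LB e l ×ˢ (Xn q).offDiag) (ycbF ρ f {i₀} S) z| ≤ b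
  rw [mnB_apply, ycb_congr a1, mn_prod]
  exact (abs_mn_le _ _).trans (ycb_le ((abs_nonneg _).trans (hb z)) fun t _ => hb z)

theorem cube {e : ℕ} (he : 0 < e) : ∃ (C : ℝ) (y₀ : ℕ), 0 < C ∧ ∀ (y M₀ q k : ℕ) (l : Fin k → ℕ)
    (ρ : Finset (Fin k) → (Fin k → Set V2) → M2) (κ : Type) (I : Finset κ)
    (f : κ → Set V2 × Set V2 → (ℍ →ᵇ ℝ)) (S : κ → Finset (Fin k)) (i₀ : κ) (K b : ℝ), y₀ ≤ y →
    M₀ ^ 30 ≤ y → CuP y M₀ q l → IsRS e (M₀ * q) l ρ → (∀ i ω z, |f i ω z| ≤ 1) → 0 ≤ K →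
    (∀ i ω, Lip K (f i ω)) →
    (∀ i, ∀ δ ∈ CongruenceSubgroup.Gamma M₀, ∀ ω ∈ (Xn q).offDiag, ∀ z,
      f i ω (δ • z) = f i (pl (δ : M2) ω.1, pl (δ : M2) ω.2) z) →
    i₀ ∈ I → (∀ i ∈ I, i ≠ i₀ → S i ≠ S i₀) →
    (∀ z, |mn (Xn q).offDiag fun ω => f i₀ ω z| ≤ b) →
    IN M₀ |mnB (LB e l ×ˢ (Xn q).offDiag) fun x => ∏ i ∈ I, cact (f i x.2) (ρ (S i) x.1)| ≤
      b + k * (C * 3 ^ k * (1 + #I * K) * (y : ℝ) ^ (-(1 / 1000 : ℝ))) := by
  obtain ⟨C, y₀, hC, hug⟩ := ug (2 * e)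
  refine ⟨2 * C, y₀, by positivity, ?_⟩
  intro y M₀ q k l ρ κ I f S i₀ K b hy hM h hρ hb hK hL hf hi hS h0
  set D : ℝ := 2 * C * 3 ^ k * (1 + #I * K) * (y : ℝ) ^ (-(1 / 1000 : ℝ)) with hD
  have hD0 : 0 ≤ D := by positivity
  have key : ∀ (J : Finset (Fin k)) (I' : Finset κ) (S' : κ → Finset (Fin k)), #I' ≤ #I →
      i₀ ∈ I' → (∀ i ∈ I', i ≠ i₀ → S' i ≠ S' i₀) → (∀ i ∈ I', S' i ⊆ J) →
      IN M₀ |mnB (LB e l ×ˢ (Xn q).offDiag) (ycbF ρ f I' S')| ≤ b + #J * D := by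
    intro J
    induction J using Finset.induction_on with
    | empty =>
      intro I' S' _ h1 h2 h3
      have h4 : I' = {i₀} := eq_singleton_iff_unique_mem.2 ⟨h1, fun i hi' => by
        by_contra hne
        exact h2 i hi' hne ((subset_empty.1 (h3 i hi')).trans (subset_empty.1 (h3 i₀ h1)).symm)⟩
      rw [card_empty, Nat.cast_zero, zero_mul, add_zero, h4]
      exact ycb_base h hρ hf i₀ (subset_empty.1 (h3 i₀ h1)) h0
    | insert j J hj ih =>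
      intro I' S' h1 h2 h3 h4
      have h5 := ycb_step he h hρ hf hb hK hD0 hL I' S' j h1 fun A η g a1 a2 a3 a4 a5 a6 a7 => by
        refine (hug y M₀ _ (l j) A _ η g (2 * (#I * K)) 2 hy h.pos hM rfl a2 (h.hl j).1
          (h.hl j).2.1 (h.hl j).2.2.1 (h.hl j).2.2.2.1 a3 a4 two_pos a5 (by positivity) a6
          a7).trans ?_
        have a8 : (3 : ℝ) ^ #A ≤ 3 ^ k := pow_le_pow_right₀ (by norm_num) a1
        rw [hD]
        refine mul_le_mul_of_nonneg_right ?_ (by positivity)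
        have a9 := mul_le_mul_of_nonneg_left a8
          (show 0 ≤ 2 * C * (1 + #I * K) by positivity)
        linarith
      rw [card_insert_of_notMem hj]
      push_cast
      by_cases hj0 : j ∈ S' i₀
      · have h6 := ih {i ∈ I' | j ∈ S' i} (fun i => (S' i).erase j)
          ((card_filter_le _ _).trans h1) (mem_filter.2 ⟨h2, hj0⟩)
          (fun i hi' hne e' => h3 i (mem_filter.1 hi').1 hne (by
            rw [← insert_erase (mem_filter.1 hi').2, ← insert_erase hj0]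
            exact congrArg (insert j) e'))
          fun i hi' => subset_insert_iff.1 (h4 i (mem_filter.1 hi').1)
        linarith [min_le_right
          (IN M₀ |mnB (LB e l ×ˢ (Xn q).offDiag) (ycbF ρ f {i ∈ I' | ¬ j ∈ S' i} S')|)
          (IN M₀ |mnB (LB e l ×ˢ (Xn q).offDiag)
            (ycbF ρ f {i ∈ I' | j ∈ S' i} fun i => (S' i).erase j)|)]
      · have h6 := ih {i ∈ I' | ¬ j ∈ S' i} S' ((card_filter_le _ _).trans h1)
          (mem_filter.2 ⟨h2, hj0⟩) (fun i hi' => h3 i (mem_filter.1 hi').1)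
          fun i hi' => (subset_insert_iff_of_notMem (mem_filter.1 hi').2).1
            (h4 i (mem_filter.1 hi').1)
        linarith [min_le_left
          (IN M₀ |mnB (LB e l ×ˢ (Xn q).offDiag) (ycbF ρ f {i ∈ I' | ¬ j ∈ S' i} S')|)
          (IN M₀ |mnB (LB e l ×ˢ (Xn q).offDiag)
            (ycbF ρ f {i ∈ I' | j ∈ S' i} fun i => (S' i).erase j)|)]
  have h1 := key univ I S le_rfl hi hS fun i _ => subset_univ _
  rw [card_univ, Fintype.card_fin] at h1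
  exact h1

end Pool.Agent.EQ
end
end

-- part Pool.Agent.P.MP_ad7a55_nt.YCc
section

/-! Large deviations for the cube. -/

set_option autoImplicit false

noncomputable section

open MeasureTheory Topology Filter UpperHalfPlane Finset
open scoped MatrixGroups BoundedContinuousFunction Matrix Classical

namespace Pool.Agent.EQ

theorem ycc_ev (A : ℝ) {b : ℝ} (hb : 0 < b) (n : ℕ) :
    ∀ᶠ L : ℝ in atTop, A * L ^ n ≤ Real.exp (b * L) := by
  have h := (isLittleO_pow_exp_pos_mul_atTop n hb).bound (c := 1 / (|A| + 1)) (by positivity)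
  filter_upwards [h, eventually_ge_atTop (0 : ℝ)] with L hL h0
  rw [Real.norm_of_nonneg (by positivity), Real.norm_of_nonneg (Real.exp_pos _).le] at hL
  have h1 : A * L ^ n ≤ (|A| + 1) * L ^ n :=
    mul_le_mul_of_nonneg_right (by linarith [le_abs_self A]) (by positivity)
  have h2 : (|A| + 1) * L ^ n ≤ (|A| + 1) * (1 / (|A| + 1) * Real.exp (b * L)) :=
    mul_le_mul_of_nonneg_left hL (by positivity)
  have h3 : (|A| + 1) * (1 / (|A| + 1) * Real.exp (b * L)) = Real.exp (b * L) := by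
    field_simp
  linarith

theorem ycc_one {T L R N u : ℝ} (hT : 1 ≤ T) (hL : 12 * T ^ 2 ≤ L) (hR : 0 ≤ R) (hRL : R ≤ 2 * L)
    (hN : L ^ 3 ≤ N) (hu : 0 ≤ u) (huT : u ≤ T) : u ^ 2 * (R ^ 2 / N) ≤ Real.exp (-1) := by
  have hT2 : 1 ≤ T ^ 2 := one_le_pow₀ hT
  have hL0 : 0 < L := by linarith
  have h1 : R ^ 2 / N ≤ (2 * L) ^ 2 / L ^ 3 :=
    div_le_div₀ (by positivity) (pow_le_pow_left₀ hR hRL 2) (by positivity) hN
  have h2 : (2 * L) ^ 2 / L ^ 3 = 4 / L := by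
    field_simp
    ring
  have h3 : u ^ 2 * (R ^ 2 / N) ≤ T ^ 2 * (4 / L) := by
    rw [← h2]
    refine mul_le_mul (pow_le_pow_left₀ hu huT 2) h1 ?_ (by positivity)
    exact div_nonneg (by positivity) (le_trans (by positivity) hN)
  have h4 : T ^ 2 * (4 / L) ≤ 1 / 3 := by
    rw [← mul_div_assoc, div_le_div_iff₀ hL0 (by norm_num)]
    linarith
  have h5 : (1 / 3 : ℝ) ≤ Real.exp (-1) := by
    rw [Real.exp_neg, one_div]
    exact inv_anti₀ (Real.exp_pos 1) (by linarith [Real.exp_one_lt_d9])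
  linarith

theorem ycc_two {C K L : ℝ} {k r : ℕ} (hL : 1 ≤ L) (hk : (2 : ℝ) ^ k ≤ 2 * L ^ 3)
    (hr : (r : ℝ) ≤ 2 * L) {E : ℝ} (hE : 0 ≤ E) :
    E + k * (C * 3 ^ k * (1 + (2 * r : ℕ) * K) * E) ≤
      (1 + 8 * |C| * (1 + 4 * |K|)) * L ^ 10 * E := by
  have h1 : (k : ℝ) ≤ 2 * L ^ 3 := le_trans (by exact_mod_cast Nat.lt_two_pow_self.le) hk
  have h2 : (3 : ℝ) ^ k ≤ (2 * L ^ 3) ^ 2 := by
    refine le_trans ?_ (pow_le_pow_left₀ (by positivity) hk 2)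
    rw [← pow_mul, mul_comm, pow_mul]
    exact pow_le_pow_left₀ (by norm_num) (by norm_num) k
  have hK := abs_nonneg K
  have h3 : |1 + ((2 * r : ℕ) : ℝ) * K| ≤ (1 + 4 * |K|) * L := by
    refine le_trans (abs_add_le _ _) ?_
    rw [abs_one, abs_mul, Nat.abs_cast]
    push_cast
    nlinarith [mul_le_mul_of_nonneg_right hr hK]
  have h4 : C * 3 ^ k * (1 + ((2 * r : ℕ) : ℝ) * K) ≤
      |C| * (2 * L ^ 3) ^ 2 * ((1 + 4 * |K|) * L) := by
    refine le_trans (le_abs_self _) ?_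
    rw [abs_mul, abs_mul, abs_of_nonneg (by positivity : (0 : ℝ) ≤ 3 ^ k)]
    exact mul_le_mul (mul_le_mul_of_nonneg_left h2 (abs_nonneg C)) h3 (abs_nonneg _)
      (by positivity)
  have h5 : (k : ℝ) * (C * 3 ^ k * (1 + ((2 * r : ℕ) : ℝ) * K) * E) ≤
      2 * L ^ 3 * (|C| * (2 * L ^ 3) ^ 2 * ((1 + 4 * |K|) * L) * E) := by
    refine le_trans (mul_le_mul_of_nonneg_left (mul_le_mul_of_nonneg_right h4 hE)
      (Nat.cast_nonneg k)) (mul_le_mul_of_nonneg_right h1 (by positivity))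
  have h6 : E ≤ L ^ 10 * E := le_mul_of_one_le_left hE (one_le_pow₀ hL)
  nlinarith

theorem cube_num {t : ℝ} (ht : 0 < t) : ∃ c : ℝ, 0 < c ∧ c ≤ 1 / 30 ∧ ∀ C K c₀ : ℝ, 0 < c₀ →
    ∃ y₀ : ℕ, ∀ y k : ℕ, y₀ ≤ y → Real.log y ^ 3 ≤ 2 ^ k → 2 ^ k ≤ 2 * Real.log y ^ 3 →
    ∃ r : ℕ, ((y : ℝ) ^ c) ^ 3 / c₀ * (2 / t) ^ (2 * r) * (((r : ℝ) ^ 2 / 2 ^ k) ^ r +
      (1 / y + k * (C * 3 ^ k * (1 + (2 * r : ℕ) * K) * (y : ℝ) ^ (-(1 / 1000 : ℝ))))) ≤
      (y : ℝ) ^ (-c) * (y : ℝ) ^ (-c) := by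
  obtain ⟨T, hT, htT⟩ : ∃ T : ℝ, 1 ≤ T ∧ 2 / t ≤ T := ⟨max 1 (2 / t), le_max_left _ _, le_max_right _ _⟩
  have ha : 0 ≤ Real.log T := Real.log_nonneg hT
  obtain ⟨c, hc, hc1, hc2⟩ : ∃ c : ℝ, 0 < c ∧ c ≤ 1 / 48000 ∧ 12 * c * Real.log T ≤ 1 / 4000 := by
    refine ⟨1 / (48000 * (Real.log T + 1)), by positivity, ?_, ?_⟩
    · exact one_div_le_one_div_of_le (by norm_num) (by linarith)
    · rw [mul_one_div, div_mul_eq_mul_div, div_le_div_iff₀ (by positivity) (by norm_num)]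
      linarith
  refine ⟨c, hc, by linarith, fun C K c₀ hc₀ => ?_⟩
  set D : ℝ := 1 + 8 * |C| * (1 + 4 * |K|) with hD
  have hD0 : 0 ≤ D := by positivity
  have hev : ∀ᶠ L : ℝ in atTop, 12 * T ^ 2 ≤ L ∧ 2 / c₀ * L ^ 0 ≤ Real.exp (c * L) ∧
      2 * T ^ 2 * D / c₀ * L ^ 10 ≤ Real.exp (1 / 2000 * L) :=
    (eventually_ge_atTop _).and ((ycc_ev _ hc 0).and (ycc_ev _ (by norm_num) 10))
  have hev2 := ((Real.tendsto_log_atTop.comp tendsto_natCast_atTop_atTop).eventually hev).and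
    (eventually_ge_atTop 1)
  obtain ⟨y₀, hy₀⟩ := eventually_atTop.1 hev2
  refine ⟨y₀, fun y k hy hk1 hk2 => ?_⟩
  obtain ⟨⟨e1, e2, e3⟩, hy1⟩ := hy₀ y hy
  simp only [Function.comp_apply] at e1 e2 e3
  have hy0 : (0 : ℝ) < y := by exact_mod_cast hy1
  have hpw : ∀ s : ℝ, (y : ℝ) ^ s = Real.exp (s * Real.log y) := fun s => by
    rw [Real.rpow_def_of_pos hy0, mul_comm]
  have hyi : 1 / (y : ℝ) = Real.exp (-Real.log y) := by
    rw [Real.exp_neg, Real.exp_log hy0, one_div]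
  rw [hyi]
  simp only [hpw]
  generalize Real.log y = L at *
  have hT2 : 1 ≤ T ^ 2 := one_le_pow₀ hT
  have hL : 1 ≤ L := by linarith
  have hcL : 0 ≤ 6 * c * L := by positivity
  refine ⟨⌈6 * c * L⌉₊, ?_⟩
  have r1 : 6 * c * L ≤ (⌈6 * c * L⌉₊ : ℝ) := Nat.le_ceil _
  have r2 : (⌈6 * c * L⌉₊ : ℝ) ≤ 6 * c * L + 1 := (Nat.ceil_lt_add_one hcL).le
  generalize ⌈6 * c * L⌉₊ = r at *
  have r3 : (r : ℝ) ≤ 2 * L := by nlinarith
  have ht2 : (0 : ℝ) ≤ 2 / t := by positivity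
  have a1 : (2 / t) ^ (2 * r) * ((r : ℝ) ^ 2 / 2 ^ k) ^ r ≤ Real.exp (-(6 * c * L)) := by
    rw [pow_mul, ← mul_pow]
    refine le_trans (pow_le_pow_left₀ (by positivity)
      (ycc_one hT e1 (Nat.cast_nonneg r) r3 hk1 ht2 htT) r) ?_
    rw [← Real.exp_nat_mul]
    exact Real.exp_le_exp.2 (by linarith)
  have a2 : (2 / t) ^ (2 * r) ≤ T ^ 2 * Real.exp (1 / 4000 * L) := by
    refine le_trans (pow_le_pow_left₀ ht2 htT _) ?_
    have hT0 : 0 < T := by linarith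
    have : T ^ (2 * r) = Real.exp (((2 * r : ℕ) : ℝ) * Real.log T) := by
      rw [Real.exp_nat_mul, Real.exp_log hT0]
    have h2 : T ^ 2 = Real.exp (((2 : ℕ) : ℝ) * Real.log T) := by
      rw [Real.exp_nat_mul, Real.exp_log hT0]
    rw [this, h2, ← Real.exp_add]
    refine Real.exp_le_exp.2 ?_
    push_cast
    nlinarith [mul_le_mul_of_nonneg_right r2 ha, mul_le_mul_of_nonneg_right hc2 (by linarith : 0 ≤ L)]
  have a3 : Real.exp (-L) + k * (C * 3 ^ k * (1 + (2 * r : ℕ) * K) * Real.exp (-(1 / 1000) * L)) ≤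
      D * L ^ 10 * Real.exp (-(1 / 1000) * L) := by
    refine le_trans ?_ (ycc_two hL hk2 r3 (Real.exp_pos _).le)
    have : Real.exp (-L) ≤ Real.exp (-(1 / 1000) * L) := Real.exp_le_exp.2 (by linarith)
    linarith
  have b0 : 0 < Real.exp (c * L) ^ 3 / c₀ := by positivity
  have b1 : Real.exp (c * L) ^ 3 / c₀ * Real.exp (-(6 * c * L)) ≤
      Real.exp (-c * L) * Real.exp (-c * L) / 2 := by
    have h1 : Real.exp (c * L) ^ 3 * Real.exp (-(6 * c * L)) * Real.exp (c * L) =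
        Real.exp (-c * L) * Real.exp (-c * L) := by
      rw [← Real.exp_nat_mul, ← Real.exp_add, ← Real.exp_add, ← Real.exp_add]
      congr 1
      push_cast
      ring
    rw [← h1]
    have h2 := mul_le_mul_of_nonneg_left e2
      (by positivity : 0 ≤ Real.exp (c * L) ^ 3 * Real.exp (-(6 * c * L)))
    refine le_trans (le_of_eq ?_) (div_le_div_of_nonneg_right h2 (by norm_num))
    field_simp
  have b2 : Real.exp (c * L) ^ 3 / c₀ * (T ^ 2 * Real.exp (1 / 4000 * L) *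
      (D * L ^ 10 * Real.exp (-(1 / 1000) * L))) ≤ Real.exp (-c * L) * Real.exp (-c * L) / 2 := by
    have h1 : Real.exp (c * L) ^ 3 * Real.exp (1 / 4000 * L) * Real.exp (-(1 / 1000) * L) *
        Real.exp (1 / 2000 * L) ≤ Real.exp (-c * L) * Real.exp (-c * L) := by
      rw [← Real.exp_nat_mul, ← Real.exp_add, ← Real.exp_add, ← Real.exp_add, ← Real.exp_add]
      refine Real.exp_le_exp.2 ?_
      push_cast
      nlinarith
    have h2 := mul_le_mul_of_nonneg_left e3 (by positivity :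
      0 ≤ Real.exp (c * L) ^ 3 * Real.exp (1 / 4000 * L) * Real.exp (-(1 / 1000) * L))
    refine le_trans (le_of_eq ?_) (div_le_div_of_nonneg_right (h2.trans h1) (by norm_num))
    field_simp
  have b3 : (2 / t) ^ (2 * r) * (Real.exp (-L) +
      k * (C * 3 ^ k * (1 + (2 * r : ℕ) * K) * Real.exp (-(1 / 1000) * L))) ≤
      T ^ 2 * Real.exp (1 / 4000 * L) * (D * L ^ 10 * Real.exp (-(1 / 1000) * L)) :=
    le_trans (mul_le_mul_of_nonneg_left a3 (by positivity))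
      (mul_le_mul_of_nonneg_right a2 (by positivity))
  rw [mul_assoc, mul_add, mul_add]
  have b4 := mul_le_mul_of_nonneg_left a1 b0.le
  have b5 := mul_le_mul_of_nonneg_left b3 b0.le
  linarith

theorem ycc_cg {N : ℕ} {γ : SL(2, ℤ)} (h : γ ∈ CongruenceSubgroup.Gamma N) : Cg N (γ : M2) 1 := by
  obtain ⟨h0, h1, h2, h3⟩ := CongruenceSubgroup.Gamma_mem.1 h
  intro i j
  rw [← ZMod.intCast_zmod_eq_zero_iff_dvd]
  fin_cases i <;> fin_cases j <;> simp [h0, h1, h2, h3]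

theorem ycc_le {N M : ℕ} (hd : N ∣ M) {γ : SL(2, ℤ)} (h : γ ∈ CongruenceSubgroup.Gamma M) :
    γ ∈ CongruenceSubgroup.Gamma N :=
  Cg.gamma (η := 1) (s := 1) isCoprime_one_left (fun i j => by simp)
    (by rw [mul_one]; exact (ycc_cg h).mono hd)

theorem ycc_pl_inj (γ : SL(2, ℤ)) : Function.Injective (pl (γ : M2)) := by
  intro L L' h
  have h1 : ∀ X : Set V2, pl ((γ⁻¹ : SL(2, ℤ)) : M2) (pl (γ : M2) X) = X := fun X => by
    rw [← pl_mul, ← Matrix.SpecialLinearGroup.coe_mul, mul_inv_cancel]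
    ext v
    simp [pl]
  rw [← h1 L, h, h1]

theorem ycc_pl_mem {n : ℕ} (hn : 0 < n) (γ : SL(2, ℤ)) {L : Set V2} (h : L ∈ Xn n) :
    pl (γ : M2) L ∈ Xn n :=
  (mem_Xn hn).2 (((mem_Xn hn).1 h).pl hn (by rw [γ.det_coe]; exact isCoprime_one_left))

theorem ycc_off {α : Type} (X : Finset α) (a : α → ℝ) (ha : ∀ x, |a x| ≤ 1)
    (h0 : ∑ x ∈ X, a x = 0) {y : ℕ} (hy : 0 < y) (hX : y + 1 ≤ #X) :
    |mn X.offDiag fun ω => a ω.1 * a ω.2| ≤ 1 / y := by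
  have h1 : ∑ ω ∈ X ×ˢ X, a ω.1 * a ω.2 = 0 := by
    rw [Finset.sum_product' (f := fun x x' => a x * a x'), ← Finset.sum_mul_sum, h0, mul_zero]
  rw [← Finset.diag_union_offDiag, Finset.sum_union (Finset.disjoint_diag_offDiag X),
    Finset.sum_diag] at h1
  have h2 : |∑ x ∈ X, a x * a x| ≤ #X := by
    refine le_trans (Finset.abs_sum_le_sum_abs _ _) ?_
    refine le_trans (Finset.sum_le_sum (g := fun _ => (1 : ℝ)) fun x _ => ?_) (by simp)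
    rw [abs_mul]
    exact mul_le_one₀ (ha x) (abs_nonneg _) (ha x)
  have h3 : ((#X.offDiag : ℕ) : ℝ) = #X * #X - #X := by
    rw [Finset.offDiag_card, Nat.cast_sub (Nat.le_mul_self _), Nat.cast_mul]
  have h4 : (y : ℝ) + 1 ≤ #X := by exact_mod_cast hX
  have h5 : (0 : ℝ) < y := by exact_mod_cast hy
  have h6 : ∑ ω ∈ X.offDiag, a ω.1 * a ω.2 = -∑ x ∈ X, a x * a x := by linarith
  unfold mn
  rw [abs_div, Nat.abs_cast, h6, abs_neg, h3, div_le_div_iff₀ (by nlinarith) h5]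
  nlinarith [mul_le_mul_of_nonneg_right h2 h5.le]

theorem ycc_lip {K : ℝ} (hK : 0 ≤ K) {f g : ℍ →ᵇ ℝ} (hf : ∀ z, |f z| ≤ 1) (hg : ∀ z, |g z| ≤ 1)
    (h1 : Lip K f) (h2 : Lip K g) : Lip (2 * K) (f * g : ℍ →ᵇ ℝ) := by
  intro z w
  have e : (f * g) z - (f * g) w = (f z - f w) * g z + f w * (g z - g w) := by
    simp only [BoundedContinuousFunction.mul_apply]
    ring
  rw [e]
  refine le_trans (abs_add_le _ _) ?_
  rw [abs_mul, abs_mul]
  have a1 := mul_le_mul (h1 z w) (hg z) (abs_nonneg _) (by positivity)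
  have a2 := mul_le_mul (hf w) (h2 z w) (abs_nonneg _) zero_le_one
  linarith

theorem ycc_mn_nonneg {α : Type} {O : Finset α} {G : α → ℝ} (h : ∀ x ∈ O, 0 ≤ G x) :
    0 ≤ mn O G := div_nonneg (Finset.sum_nonneg h) (Nat.cast_nonneg _)

theorem ycc_mn_congr {α : Type} {O : Finset α} {G G' : α → ℝ} (h : ∀ x ∈ O, G x = G' x) :
    mn O G = mn O G' := by
  unfold mn
  rw [Finset.sum_congr rfl h]

theorem ycc_low {α : Type} (R : Finset α) (m : α → ℝ) (h : ∀ w ∈ R, 0 < m w) :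
    ∃ c : ℝ, 0 < c ∧ ∀ w ∈ R, c ≤ m w := by
  rcases R.eq_empty_or_nonempty with rfl | hR
  · exact ⟨1, one_pos, fun w hw => absurd hw (Finset.notMem_empty w)⟩
  · obtain ⟨w, hw, hm⟩ := R.exists_min_image m hR
    exact ⟨m w, h w hw, hm⟩

theorem ycc_ginv {y M₀ q k e : ℕ} {l : Fin k → ℕ} {ρ : Finset (Fin k) → (Fin k → Set V2) → M2}
    (h : CuP y M₀ q l) (hρ : IsRS e (M₀ * q) l ρ) {Y : Set V2 × Set V2 → (ℍ →ᵇ ℝ)}
    (hY : ∀ δ ∈ CongruenceSubgroup.Gamma M₀, ∀ ω ∈ (Xn q).offDiag, ∀ z,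
      Y ω (δ • z) = Y (pl (δ : M2) ω.1, pl (δ : M2) ω.2) z) (m : ℕ) :
    GInv M₀ (mnB (LB e l ×ˢ (Xn q).offDiag) fun x =>
      (mnB univ fun S => cact (Y x.2) (ρ S x.1)) ^ m) := by
  intro δ hδ z
  have hq := h.hq.1.pos
  have hdet : ∀ S, ∀ Ls ∈ LB e l, 0 < (ρ S Ls).det := fun S Ls hL => by
    rw [(hρ S Ls hL).1]
    exact_mod_cast pow_pos (Finset.prod_pos fun j _ => (h.hl j).1.pos) _
  have hoff : ∀ ω ∈ (Xn q).offDiag, (pl (δ : M2) ω.1, pl (δ : M2) ω.2) ∈ (Xn q).offDiag := by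
    intro ω hω
    obtain ⟨h1, h2, h3⟩ := Finset.mem_offDiag.1 hω
    exact Finset.mem_offDiag.2 ⟨ycc_pl_mem hq δ h1, ycc_pl_mem hq δ h2,
      fun h4 => h3 (ycc_pl_inj δ h4)⟩
  have hLB : ∀ Ls ∈ LB e l, (fun j => pl (δ : M2) (Ls j)) ∈ LB e l := fun Ls hL =>
    Fintype.mem_piFinset.2 fun j =>
      ycc_pl_mem (pow_pos (h.hl j).1.pos _) δ (Fintype.mem_piFinset.1 hL j)
  rw [mnB_apply, mnB_apply]
  rw [← mn_perm (O := LB e l ×ˢ (Xn q).offDiag)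
    (π := fun x => ((fun j => pl (δ : M2) (x.1 j)), pl (δ : M2) x.2.1, pl (δ : M2) x.2.2))
    (fun x hx => Finset.mem_product.2
      ⟨hLB _ (Finset.mem_product.1 hx).1, hoff _ (Finset.mem_product.1 hx).2⟩)
    (fun x _ x' _ hxx => by
      simp only [Prod.mk.injEq] at hxx
      exact Prod.ext (funext fun j => ycc_pl_inj δ (congrFun hxx.1 j))
        (Prod.ext (ycc_pl_inj δ hxx.2.1) (ycc_pl_inj δ hxx.2.2)))
    (fun x => ((mnB univ fun S => cact (Y x.2) (ρ S x.1)) ^ m) z)]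
  refine ycc_mn_congr fun x hx => ?_
  obtain ⟨hx1, hx2⟩ := Finset.mem_product.1 hx
  simp only [BoundedContinuousFunction.pow_apply, mnB_apply, cact_apply]
  refine congrArg (· ^ m) (ycc_mn_congr fun S _ => ?_)
  obtain ⟨δ', hδ', e1⟩ := hρ.smul h S hx1 δ
  have hc : Cg q (δ' : M2) 1 := (ycc_cg hδ').mono (Dvd.intro_left _ rfl)
  obtain ⟨h1, h2, -⟩ := Finset.mem_offDiag.1 (hoff _ hx2)
  rw [← act_SL δ z, ← act_mul (hdet S _ hx1) (vact_SL_det δ), e1,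
    ← Matrix.SpecialLinearGroup.coe_mul, act_mul (vact_SL_det _) (hdet S _ (hLB _ hx1)), act_SL,
    mul_smul, hY δ hδ _ hx2, hY δ' (ycc_le (Dvd.intro _ rfl) hδ') _ (hoff _ hx2),
    pl_Cg ((mem_Xn hq).1 h1) hc isCoprime_one_left, pl_Cg ((mem_Xn hq).1 h2) hc isCoprime_one_left]

theorem ycc_up {σ β : Type} [Fintype σ] [Nonempty σ] {M : ℕ} (hM : 0 < M) (O : Finset β)
    (G : β → σ → (ℍ →ᵇ ℝ)) (hG : ∀ x S z, |G x S z| ≤ 1) (r : ℕ) {B : ℝ} (hB : 0 ≤ B)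
    (h : ∀ (T : Fin (2 * r) → σ) (i₀ : Fin (2 * r)), (∀ i, i ≠ i₀ → T i ≠ T i₀) →
      IN M |mnB O fun x => ∏ i, G x (T i)| ≤ B) :
    IN M (mnB O fun x => (mnB univ (G x)) ^ (2 * r)) ≤ ((r : ℝ) ^ 2 / Fintype.card σ) ^ r + B := by
  have h1 : IN M (mnB O fun x => (mnB univ (G x)) ^ (2 * r)) ≤
      IN M (mnB (univ : Finset (Fin (2 * r) → σ)) fun T => |mnB O fun x => ∏ i, G x (T i)|) := by
    refine IN_mono hM fun z => ?_
    simp only [mnB_apply, BoundedContinuousFunction.pow_apply, mn_pow,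
      BoundedContinuousFunction.coe_abs, Pi.abs_apply, BoundedContinuousFunction.coe_prod,
      Finset.prod_apply]
    rw [mn_swap]
    exact mn_mono fun T _ => le_abs_self _
  rw [IN_mnB hM univ] at h1
  refine h1.trans (le_trans ?_ (add_le_add_left (few_single σ r) B))
  rw [pb_eq, ← mn_const (O := (univ : Finset (Fin (2 * r) → σ))) Finset.univ_nonempty B, ← mn_add]
  refine mn_mono fun T _ => ?_
  split_ifs with hT
  · obtain ⟨i₀, hi⟩ := hT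
    simpa using h T i₀ hi
  · have : IN M |mnB O fun x => ∏ i, G x (T i)| ≤ IN M (BoundedContinuousFunction.const ℍ 1) := by
      refine IN_mono hM fun z => ?_
      refine abs_mnB_le zero_le_one fun x _ => ?_
      rw [BoundedContinuousFunction.coe_prod, Finset.prod_apply, Finset.abs_prod]
      exact Finset.prod_le_one (fun i _ => abs_nonneg _) fun i _ => hG _ _ _
    rw [IN_const hM] at this
    linarith

theorem cube_bad {t : ℝ} (ht : 0 < t) : ∃ c : ℝ, 0 < c ∧ c ≤ 1 ∧ ∀ (e : ℕ) (K : ℝ) (Rn : Finset ℍ),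
    0 < e → 0 < K → (∀ w ∈ Rn, w ∈ ModularGroup.fd) → ∃ y₀ : ℕ, ∀ (y M₀ q k : ℕ)
    (l : Fin k → ℕ) (ρ : Finset (Fin k) → (Fin k → Set V2) → M2) (F : Set V2 → (ℍ →ᵇ ℝ)),
    y₀ ≤ y → (M₀ : ℝ) ≤ (y : ℝ) ^ c → Real.log y ^ 3 ≤ 2 ^ k → 2 ^ k ≤ 2 * Real.log y ^ 3 →
    CuP y M₀ q l → IsRS e (M₀ * q) l ρ → (∀ ξ z, |F ξ z| ≤ 1) → (∀ ξ, Lip K (F ξ)) →
    (∀ δ ∈ CongruenceSubgroup.Gamma M₀, ∀ ξ ∈ Xn q, ∀ z, F ξ (δ • z) = F (pl (δ : M2) ξ) z) →
    (∀ z, ∑ ξ ∈ Xn q, F ξ z = 0) → ∀ w ∈ Rn,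
    prb (LB e l) (fun Ls => (y : ℝ) ^ (-c) < prb (Xn q).offDiag fun ω =>
      t < |mn univ fun S => F ω.1 (act (ρ S Ls) w) * F ω.2 (act (ρ S Ls) w)|) ≤
      (y : ℝ) ^ (-c) := by
  obtain ⟨c, hc, hc30, hnum⟩ := cube_num ht
  refine ⟨c, hc, by linarith, fun e K Rn he hK hR => ?_⟩
  obtain ⟨C, y₁, hC, hcube⟩ := cube he
  have hr : 0 < t / (4 * K) := by positivity
  choose! cw hcw hball using fun w (hw : w ∈ Rn) => ball_lower (hR w hw) hr
  obtain ⟨c₀, hc₀, hlow⟩ := ycc_low Rn cw hcw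
  obtain ⟨y₂, hnum⟩ := hnum C (2 * K) c₀ hc₀
  refine ⟨max 1 (max y₁ y₂), ?_⟩
  intro y M₀ q k l ρ F hy hM hk1 hk2 hP hρ hF hLip hinv hsum w hw
  have hy1 : 1 ≤ y := le_trans (le_max_left _ _) hy
  have hy2 : y₁ ≤ y := le_trans (le_max_left _ _) (le_trans (le_max_right _ _) hy)
  have hy3 : y₂ ≤ y := le_trans (le_max_right _ _) (le_trans (le_max_right _ _) hy)
  have hy0 : (0 : ℝ) < y := by exact_mod_cast hy1
  obtain ⟨r, hnr⟩ := hnum y k hy3 hk1 hk2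
  have hM30 : M₀ ^ 30 ≤ y := by
    have h1 : (M₀ : ℝ) ^ 30 ≤ ((y : ℝ) ^ c) ^ 30 := pow_le_pow_left₀ (Nat.cast_nonneg _) hM 30
    rw [← Real.rpow_mul_natCast hy0.le] at h1
    have h2 : (y : ℝ) ^ (c * (30 : ℕ)) ≤ (y : ℝ) ^ (1 : ℝ) :=
      Real.rpow_le_rpow_of_exponent_le (by exact_mod_cast hy1) (by push_cast; linarith)
    rw [Real.rpow_one] at h2
    exact_mod_cast h1.trans h2
  obtain ⟨Y, hYd⟩ : ∃ Y : Set V2 × Set V2 → (ℍ →ᵇ ℝ), Y = fun ω => F ω.1 * F ω.2 := ⟨_, rfl⟩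
  have hY1 : ∀ ω z, |Y ω z| ≤ 1 := fun ω z => by
    simp only [hYd, BoundedContinuousFunction.mul_apply, abs_mul]
    exact mul_le_one₀ (hF _ _) (abs_nonneg _) (hF _ _)
  have hY2 : ∀ ω, Lip (2 * K) (Y ω) := fun ω => by
    rw [hYd]
    exact ycc_lip hK.le (hF _) (hF _) (hLip _) (hLip _)
  have hY3 : ∀ δ ∈ CongruenceSubgroup.Gamma M₀, ∀ ω ∈ (Xn q).offDiag, ∀ z,
      Y ω (δ • z) = Y (pl (δ : M2) ω.1, pl (δ : M2) ω.2) z := fun δ hδ ω hω z => by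
    obtain ⟨h1, h2, -⟩ := Finset.mem_offDiag.1 hω
    simp only [hYd, BoundedContinuousFunction.mul_apply, hinv δ hδ _ h1, hinv δ hδ _ h2]
  have hY4 : ∀ z, |mn (Xn q).offDiag fun ω => Y ω z| ≤ 1 / y := fun z => by
    have h1 := (card_Xn hP.hq.1 one_pos).1
    rw [pow_one] at h1
    rw [hYd]
    exact ycc_off (Xn q) (fun ξ => F ξ z) (fun ξ => hF ξ z) (hsum z) hy1
      (le_trans hP.hq.2.1 h1)
  obtain ⟨g, hg⟩ : ∃ g : ℍ →ᵇ ℝ, g = mnB (LB e l ×ˢ (Xn q).offDiag) fun x =>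
    (mnB univ fun S => cact (Y x.2) (ρ S x.1)) ^ (2 * r) := ⟨_, rfl⟩
  have hup : IN M₀ g ≤ ((r : ℝ) ^ 2 / Fintype.card (Finset (Fin k))) ^ r + (1 / y +
      k * (C * 3 ^ k * (1 + (2 * r : ℕ) * (2 * K)) * (y : ℝ) ^ (-(1 / 1000 : ℝ)))) := by
    rw [hg]
    refine ycc_up hP.pos (LB e l ×ˢ (Xn q).offDiag) (fun x S => cact (Y x.2) (ρ S x.1))
      (fun x S z => hY1 _ _) r (by positivity) fun T i₀ hT => ?_
    have := hcube y M₀ q k l ρ (Fin (2 * r)) univ (fun _ => Y) T i₀ (2 * K) (1 / y) hy2 hM30 hP hρ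
      (fun _ => hY1) (by positivity) (fun _ => hY2) (fun _ => hY3) (Finset.mem_univ _)
      (fun i _ => hT i) hY4
    rwa [Finset.card_univ, Fintype.card_fin] at this
  rw [Fintype.card_finset, Fintype.card_fin, Nat.cast_pow, Nat.cast_ofNat] at hup
  obtain ⟨P, hPd⟩ : ∃ P : ℝ, P = prb (LB e l ×ˢ (Xn q).offDiag) fun x =>
    t < |mn univ fun S => F x.2.1 (act (ρ S x.1) w) * F x.2.2 (act (ρ S x.1) w)| := ⟨_, rfl⟩
  have hP0 : 0 ≤ P := hPd ▸ pb_nonneg _ _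
  have hg0 : ∀ z, 0 ≤ g z := fun z => by
    rw [hg, mnB_apply]
    refine ycc_mn_nonneg fun x _ => ?_
    rw [BoundedContinuousFunction.pow_apply]
    exact (even_two_mul r).pow_nonneg _
  have hlo : ∀ z, dist z w ≤ t / (4 * K) → (t / 2) ^ (2 * r) * P ≤ g z := fun z hz => by
    rw [hg, mnB_apply, hPd, pb_eq, ← mn_mul]
    refine mn_mono fun x _ => ?_
    rw [BoundedContinuousFunction.pow_apply]
    split_ifs with hx
    · have h1 : Lip (2 * K) (mnB univ fun S => cact (Y x.2) (ρ S x.1)) :=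
        Lip.mnB (by positivity) fun S _ => (hY2 _).cact _
      have h2 := h1 z w
      have h3 : 2 * K * dist z w ≤ t / 2 := by
        refine le_trans (mul_le_mul_of_nonneg_left hz (by positivity)) (le_of_eq ?_)
        field_simp
        norm_num
      have h4 : (mnB univ fun S => cact (Y x.2) (ρ S x.1)) w =
          mn univ fun S => F x.2.1 (act (ρ S x.1) w) * F x.2.2 (act (ρ S x.1) w) := by
        rw [mnB_apply, hYd]
        rfl
      rw [← h4] at hx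
      have h5 := abs_sub_abs_le_abs_sub ((mnB univ fun S => cact (Y x.2) (ρ S x.1)) w)
        ((mnB univ fun S => cact (Y x.2) (ρ S x.1)) z)
      rw [abs_sub_comm] at h5
      rw [mul_one, ← (even_two_mul r).pow_abs ((mnB univ fun S => cact (Y x.2) (ρ S x.1)) z)]
      exact pow_le_pow_left₀ (by positivity) (by linarith) _
    · rw [mul_zero]
      exact (even_two_mul r).pow_nonneg _
  have hb := hball w hw M₀ g _ hP.pos (by rw [hg]; exact ycc_ginv hP hρ hY3 _) hg0 hlo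
  have hIN : 0 ≤ IN M₀ g := by
    have := IN_mono (g := g) (f := BoundedContinuousFunction.const ℍ 0) hP.pos hg0
    rwa [IN_const hP.pos] at this
  have h1 : c₀ * ((t / 2) ^ (2 * r) * P) ≤ ((y : ℝ) ^ c) ^ 3 * IN M₀ g :=
    le_trans (mul_le_mul_of_nonneg_right (hlow w hw) (by positivity))
      (hb.trans (mul_le_mul_of_nonneg_right (pow_le_pow_left₀ (Nat.cast_nonneg _) hM 3) hIN))
  have h2 : P ≤ ((y : ℝ) ^ c) ^ 3 / c₀ * (2 / t) ^ (2 * r) * IN M₀ g := by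
    have h3 : (2 / t) ^ (2 * r) * (t / 2) ^ (2 * r) = 1 := by
      rw [← mul_pow]
      field_simp
      simp
    have h4 := mul_le_mul_of_nonneg_left h1 (by positivity : 0 ≤ (2 / t) ^ (2 * r) / c₀)
    have h5 : (2 / t) ^ (2 * r) / c₀ * (c₀ * ((t / 2) ^ (2 * r) * P)) =
        ((2 / t) ^ (2 * r) * (t / 2) ^ (2 * r)) * P := by
      field_simp
    rw [h5, h3, one_mul] at h4
    refine h4.trans (le_of_eq ?_)
    ring
  have h3 : P ≤ (y : ℝ) ^ (-c) * (y : ℝ) ^ (-c) :=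
    h2.trans (le_trans (mul_le_mul_of_nonneg_left hup (by positivity)) hnr)
  have hyc : 0 < (y : ℝ) ^ (-c) := Real.rpow_pos_of_pos hy0 _
  refine le_trans (pb_mono fun Ls _ h => le_of_lt h)
    (le_trans (pb_markov (fun Ls _ => pb_nonneg _ _) hyc) ?_)
  rw [div_le_iff₀ hyc]
  rw [hPd, prb_prod] at h3
  exact h3

end Pool.Agent.EQ
end
end

-- part Pool.Agent.P.MP_ad7a55_nt.YDa
section

/-! The data of a class of coordinates at large primes. -/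

set_option autoImplicit false

noncomputable section

open MeasureTheory Topology Filter UpperHalfPlane Finset
open scoped MatrixGroups BoundedContinuousFunction Matrix Classical

namespace Pool.Agent.EQ

/-- The type of the coarse data. -/
abbrev Cty6 (n : ℕ) (ι : Type) (M : ℕ) : Type :=
  (Fin n → ℂ) × (Fin n → M2) × (ι → Option ℍ) × (ι → Fin M → Set V2)

namespace Shp

variable {n : ℕ} {ι : Type} (s : Shp n ι) (v : VD n)

/-- The matrix of the move along the primes in `S`. -/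
def rho6 (S : Finset (Fin v.M)) (Ls : Fin v.M → Set V2) : M2 :=
  if h : ∃ ρ : M2, ρ.det = ((∏ j ∈ S, v.l j) ^ (2 * s.e) : ℕ) ∧
    (∀ j ∈ S, Ker (v.l j ^ (2 * s.e)) ρ = Ls j) ∧
    Cg (s.MM v) ρ (((∏ j ∈ S, v.l j : ℕ) : ℤ) ^ s.e) then h.choose else 1

/-- The directions at the test primes. -/
def lab6 (x : Fin n → ℂ) (c : ι) : Fin v.M → Set V2 :=
  fun j => Ker (v.l j ^ (2 * s.e)) (s.A v x c)

/-- The point after the test move. -/
def pt6 (x : Fin n → ℂ) (c : ι) (S : Finset (Fin v.M)) : ℍ :=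
  act (s.rho6 v S (s.lab6 v x c)) (s.ct x c)

/-- The coarse data. -/
def C6 (U : ℝ) (cl : ℍ → ℍ) (x : Fin n → ℂ) : Cty6 n ι v.M :=
  (s.sm x, fun k => if k ∈ s.J then s.hk v x k else 0, fun c => cel U cl (s.ct x c), s.lab6 v x)

/-- The matrices of a cluster. -/
def zt6 (γ : Fin n → vcjQ s.N) (h : Fin n → M2) (c : ι) : s.Cu c → M2 :=
  fun k => ((γ k).out : SL(2, ℤ)) * h k

/-- The rigidity data. -/
def rd6 (P : Finset ℕ) (U : ℝ) (cl : ℍ → ℍ) : RD (Fin n → ℂ) ι (Cty6 n ι v.M) Unit where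
  O := Orb v.τ
  P := P
  A := s.A v
  π := v.mv
  η := s.et v
  In := fun x => ∀ c, s.ct x c ∈ KU U
  C0 := s.C6 v U cl
  cl := fun _ => ()

/-- Families for all clusters. -/
abbrev Fm : Type := ∀ c : ι, (s.Cu c → M2) → (ℍ →ᵇ ℝ)

/-- Sets of weights. -/
abbrev Wt (v : VD n) : Type := (Fin n → ℂ) → Finset (Finset (Fin v.M) → ℝ)

/-- At most `B` weights, bounded by one. -/
def WB {v : VD n} (B : ℕ) (Ws : Wt v) : Prop := ∀ u, #(Ws u) ≤ B ∧ ∀ W ∈ Ws u, ∀ S, |W S| ≤ 1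

variable [Fintype ι]

/-- The tests see a bias. -/
def Ev6 (G : s.Fm) (Ws : Wt v) (a t : ℝ) (x : Fin n → ℂ) : Prop :=
  ∃ W ∈ Ws (s.sm x), ∃ γ : Fin n → vcjQ s.N,
    t ≤ |mn univ fun S => W S * (∏ c, G c (s.zt6 γ (s.hk v x) c) (s.pt6 v x c S) - a)|

/-- The directions at `q` correlate with the tests. -/
def EA (G : s.Fm) (Ws : Wt v) (t : ℝ) (q : ℕ) (x : Fin n → ℂ) : Prop :=
  ∃ W ∈ Ws (s.sm x), ∃ γ : Fin n → vcjQ s.N,
    t ≤ |mn univ fun S => W S *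
      (∏ c, G c (up s.N q (s.zt6 γ (s.hk v x) c) (Ker q (s.A v x c))) (s.pt6 v x c S) -
        ∏ c, Tq s.N q (G c) (s.zt6 γ (s.hk v x) c) (s.pt6 v x c S))|

omit [Fintype ι] in
structure Ok6 (L G T W : ℝ) (a m₀ y : ℕ) : Prop where
  N_pos : 0 < s.N
  e_pos : 0 < s.e
  hG : 100 ≤ G
  GT : G ≤ T
  Ty : G * T ≤ Real.log y
  yW : G * v.M * Real.log y ≤ W
  Mlo : Real.log y ^ 3 ≤ 2 ^ v.M
  Mhi : 2 ^ v.M ≤ 2 * Real.log y ^ 3
  disc : ∀ k, HasDisc (v.τ k) (v.D k)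
  big : ∀ k, v.D k < -576
  Ebig : v.E < -576
  fit : ∀ k ∈ s.J, Fit v.E (s.N ^ 2 * v.D k)
  low : ∀ k ∈ s.J, Low L (v.D k)
  hL : |L| ≤ Real.exp T
  small : ∀ k ∈ s.I \ s.J, -(v.D k : ℝ) ≤ Real.exp T
  large : ∀ k ∈ s.J, Real.exp W ≤ -(v.D k : ℝ) ∧ Real.log (-(v.D k : ℝ)) ≤ Real.exp T
  deg : ∀ k ∈ s.J, 0 < v.dg k ∧ (v.dg k : ℝ) ≤ Real.exp T ∧
    Ig (v.dg k) (jInv (v.τ k)) (jInv (v.τ (s.cr (s.bs k))))
  sep : ∀ c c', c ≠ c' → ∀ d : ℕ, 0 < d → (d : ℝ) ≤ Real.exp W →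
    ¬ Ig d (jInv (v.τ (s.cr c))) (jInv (v.τ (s.cr c')))
  noi : ∀ k ∈ s.J, ∀ l ∈ s.J, k ≠ l → ∀ d : ℕ, 0 < d → d ≤ m₀ →
    ¬ Ig d (jInv (v.τ k)) (jInv (v.τ l))
  pP : ∀ q ∈ v.P, s.Pm v y q
  pl : ∀ i, s.Pm v y (v.l i) ∧ v.l i ∉ v.P
  inj : Function.Injective v.l
  bP : (4 * (∏ q ∈ v.P, q : ℕ) : ℤ) ∣ v.b ^ 2 - v.E
  bl : (4 * (∏ i, v.l i : ℕ) ^ (2 * s.e) : ℤ) ∣ v.b ^ 2 - v.E
  cP : y ≤ #v.P ^ a

variable {s v} {L G T W : ℝ} {a m₀ y : ℕ} {x : Fin n → ℂ} {β : Finset ℕ}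

omit [Fintype ι]

theorem yda_ln {κ : Type} {b : κ → ℕ} {K : κ → Set V2} (h0 : ∀ j, 0 < b j)
    (hc : ∀ i j, i ≠ j → (b i).Coprime (b j)) (hK : ∀ j, IsLn (b j) (K j)) (S : Finset κ) :
    IsLn (∏ j ∈ S, b j) {w | ∀ j ∈ S, w ∈ K j} := by
  induction S using Finset.induction_on with
  | empty =>
    refine ⟨![1, 0], by simpa using isCoprime_one_left, ?_⟩
    ext w
    simp [xlb_mem]
  | insert i S hi ih =>
    have e : {w | ∀ j ∈ insert i S, w ∈ K j} = K i ∩ {w | ∀ j ∈ S, w ∈ K j} := by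
      ext w
      simp
    rw [prod_insert hi, e]
    exact IsLn.inter (Nat.Coprime.prod_right fun j hj => hc i j fun e => hi (e ▸ hj)) (h0 i)
      (prod_pos fun j _ => h0 j) (hK i) ih

theorem yda_ker {κ : Type} {b : κ → ℕ} (hc : ∀ i j, i ≠ j → (b i).Coprime (b j)) (S : Finset κ)
    (η : M2) : Ker (∏ j ∈ S, b j) η = {w | ∀ j ∈ S, w ∈ Ker (b j) η} := by
  induction S using Finset.induction_on with
  | empty =>
    ext w
    simp [Ker]
  | insert i S hi ih =>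
    rw [prod_insert hi,
      Ker_inter (Nat.Coprime.prod_right fun j hj => hc i j fun e => hi (e ▸ hj)), ih]
    ext w
    simp

theorem Ok6.yda_n (h : s.Ok6 v L G T W a m₀ y) (hβ : β ⊆ v.P) :
    0 < ∏ l ∈ β, l ∧ IsCoprime ((∏ l ∈ β, l : ℕ) : ℤ) (2 * v.E) ∧
      (4 * (∏ l ∈ β, l : ℕ) : ℤ) ∣ v.b ^ 2 - v.E ∧ (∏ l ∈ β, l).Coprime (s.dd v) := by
  refine ⟨prod_pos fun l hl => (h.pP l (hβ hl)).1.pos, ?_, ?_,
    Nat.Coprime.prod_left fun l hl => (xda_pm (h.pP l (hβ hl))).2.2⟩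
  · rw [Nat.cast_prod]
    exact IsCoprime.prod_left fun l hl => (xda_pm (h.pP l (hβ hl))).1
  · exact (mul_dvd_mul_left 4 (Int.natCast_dvd_natCast.2
      (prod_dvd_prod_of_subset _ _ _ hβ))).trans h.bP

theorem Ok6.yda_l (h : s.Ok6 v L G T W a m₀ y) (S : Finset (Fin v.M)) :
    0 < (∏ j ∈ S, v.l j) ^ (2 * s.e) ∧
      IsCoprime (((∏ j ∈ S, v.l j) ^ (2 * s.e) : ℕ) : ℤ) (2 * v.E) ∧
      (4 * ((∏ j ∈ S, v.l j) ^ (2 * s.e) : ℕ) : ℤ) ∣ v.b ^ 2 - v.E := by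
  refine ⟨pow_pos (prod_pos fun j _ => (h.pl j).1.1.pos) _, ?_, ?_⟩
  · rw [Nat.cast_pow, Nat.cast_prod]
    exact (IsCoprime.prod_left fun j _ => (xda_pm (h.pl j).1).1).pow_left
  · refine (mul_dvd_mul_left 4 ?_).trans h.bl
    rw [Nat.cast_pow]
    exact pow_dvd_pow_of_dvd (Int.natCast_dvd_natCast.2
      (prod_dvd_prod_of_subset _ _ _ (subset_univ S))) _

theorem Ok6.yda_cop (h : s.Ok6 v L G T W a m₀ y) (i j : Fin v.M) (hij : i ≠ j) :
    (v.l i ^ (2 * s.e)).Coprime (v.l j ^ (2 * s.e)) :=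
  Nat.Coprime.pow _ _ ((Nat.coprime_primes (h.pl i).1.1 (h.pl j).1.1).2 fun e => hij (h.inj e))

theorem Ok6.num (h : s.Ok6 v L G T W a m₀ y) : 1 ≤ v.M ∧ G ^ 2 ≤ Real.log y ∧
    G * G * T ≤ W ∧ (v.M : ℝ) ≤ 5 * Real.log (Real.log y) ∧
    ∀ q, s.Pm v y q → Real.log q ≤ 2 * Real.log y := by
  have hG := h.hG
  have hGT := h.GT
  have hTy := h.Ty
  have hY : G ^ 2 ≤ Real.log y := by nlinarith
  have hY4 : (10000 : ℝ) ≤ Real.log y := by nlinarith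
  have hM : 1 ≤ v.M := by
    by_contra hc
    have h0 : v.M = 0 := by omega
    have h1 := h.Mlo
    rw [h0, pow_zero] at h1
    have h2 : Real.log y ≤ Real.log y ^ 3 := le_self_pow₀ (by linarith) (by norm_num)
    linarith
  have hM' : (1 : ℝ) ≤ v.M := by exact_mod_cast hM
  have hl2 := Real.log_two_gt_d9
  have hl2' := Real.log_two_lt_d9
  refine ⟨hM, hY, ?_, ?_, fun q hq => ?_⟩
  · have h1 : G * (G * T) ≤ G * Real.log y := mul_le_mul_of_nonneg_left hTy (by linarith)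
    have h2 : G * Real.log y * 1 ≤ G * Real.log y * v.M :=
      mul_le_mul_of_nonneg_left hM' (by positivity)
    have h3 := h.yW
    linarith
  · have h1 := Real.log_le_log (by positivity) h.Mhi
    rw [Real.log_pow, Real.log_mul (by norm_num) (by positivity), Real.log_pow] at h1
    have h2 : Real.log (2 ^ 13) ≤ Real.log (Real.log y) :=
      Real.log_le_log (by positivity) (by linarith)
    rw [Real.log_pow] at h2
    push_cast at h1 h2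
    nlinarith
  · have h1 : (q : ℝ) ≤ 2 * y := by exact_mod_cast hq.2.2.1
    have h2 : (0 : ℝ) < q := by exact_mod_cast hq.1.pos
    have h3 : (0 : ℝ) < y := by linarith
    have h4 := Real.log_le_log h2 h1
    rw [Real.log_mul (by norm_num) h3.ne'] at h4
    linarith

theorem Ok6.yda_y (h : s.Ok6 v L G T W a m₀ y) : (0 : ℝ) < y ∧ (v.M : ℝ) ≤ y := by
  obtain ⟨-, hY, -, hM, -⟩ := h.num
  have hG := h.hG
  have hY4 : (10000 : ℝ) ≤ Real.log y := by nlinarith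
  have hy0 : (0 : ℝ) < y := by
    rcases (Nat.cast_nonneg y : (0 : ℝ) ≤ y).eq_or_lt with e | e
    · rw [← e, Real.log_zero] at hY4
      norm_num at hY4
    · exact e
  refine ⟨hy0, ?_⟩
  have h1 := Real.quadratic_le_exp_of_nonneg (x := Real.log y) (by linarith)
  rw [Real.exp_log hy0] at h1
  have h2 : Real.log (Real.log y) ≤ Real.log y :=
    (Real.log_le_sub_one_of_pos (by linarith)).trans (by linarith)
  nlinarith

theorem Ok6.ct_disc (h : s.Ok6 v L G T W a m₀ y) (hx : x ∈ Orb v.τ) (c : ι) :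
    HasDisc (s.ct x c) (v.D (s.cr c)) ∧ Fit v.E (v.D (s.cr c)) := by
  exact ⟨Orb_disc h.disc hx (h.big _), (h.fit _ (s.mem c)).trans (fit_sq h.N_pos _)⟩

theorem Ok6.dd_le (h : s.Ok6 v L G T W a m₀ y) :
    0 < s.dd v ∧ (s.dd v : ℝ) ≤ Real.exp (n * T) := by
  refine ⟨prod_pos fun k hk => (h.deg k hk).1, ?_⟩
  have hT : 0 ≤ T := by linarith [h.hG, h.GT]
  have hJ : (#s.J : ℝ) ≤ n := by exact_mod_cast (card_le_univ s.J).trans_eq (Fintype.card_fin n)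
  rw [dd, Nat.cast_prod]
  calc ∏ k ∈ s.J, (v.dg k : ℝ) ≤ ∏ k ∈ s.J, Real.exp T :=
        prod_le_prod (fun k _ => Nat.cast_nonneg _) fun k hk => (h.deg k hk).2.1
    _ = Real.exp (#s.J * T) := by rw [prod_const, Real.exp_nat_mul]
    _ ≤ _ := Real.exp_le_exp.2 (mul_le_mul_of_nonneg_right hJ hT)

theorem Ok6.prod_le (h : s.Ok6 v L G T W a m₀ y) (hβ : ∀ q ∈ β, s.Pm v y q)
    (hc : (#β : ℝ) ≤ G * v.M / 2000) : ((∏ q ∈ β, q : ℕ) : ℝ) ≤ Real.exp (W / 1000) ∧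
      ∑ q ∈ β, (q : ℝ) ^ (-(1 / 4 : ℝ)) ≤ 1 := by
  obtain ⟨hM, hY, -, hM5, hq⟩ := h.num
  have hG := h.hG
  have hY4 : (10000 : ℝ) ≤ Real.log y := by nlinarith
  have hy0 : (0 : ℝ) < y := h.yda_y.1
  constructor
  · rw [Nat.cast_prod]
    calc ∏ q ∈ β, (q : ℝ) ≤ ∏ q ∈ β, Real.exp (2 * Real.log y) := by
          refine prod_le_prod (fun q _ => Nat.cast_nonneg q) fun q hq' => ?_
          have h2 : (0 : ℝ) < q := by exact_mod_cast (hβ q hq').1.pos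
          rw [← Real.log_le_iff_le_exp h2]
          exact hq q (hβ q hq')
      _ = Real.exp (#β * (2 * Real.log y)) := by rw [prod_const, Real.exp_nat_mul]
      _ ≤ Real.exp (W / 1000) := by
          refine Real.exp_le_exp.2 ?_
          have h1 := mul_le_mul_of_nonneg_right hc (by linarith : 0 ≤ 2 * Real.log y)
          have h2 := h.yW
          linarith
  · have h0 := Real.exp_pos (Real.log y / 4)
    calc ∑ q ∈ β, (q : ℝ) ^ (-(1 / 4 : ℝ)) ≤ ∑ q ∈ β, (Real.exp (Real.log y / 4))⁻¹ := by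
          refine sum_le_sum fun q hq' => ?_
          have h1 : (y : ℝ) ≤ q := by exact_mod_cast (hβ q hq').2.1.le
          have h3 := Real.rpow_le_rpow_of_nonpos hy0 h1 (by norm_num : (-(1 / 4 : ℝ)) ≤ 0)
          refine h3.trans_eq ?_
          rw [Real.rpow_def_of_pos hy0, ← Real.exp_neg]
          congr 1
          ring
      _ = #β * (Real.exp (Real.log y / 4))⁻¹ := by rw [sum_const, nsmul_eq_mul]
      _ ≤ 1 := by
          rw [← div_eq_mul_inv, div_le_one h0]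
          have h1 := Real.quadratic_le_exp_of_nonneg (x := Real.log y / 4) (by linarith)
          have h2 : Real.log (Real.log y) ≤ Real.log y :=
            (Real.log_le_sub_one_of_pos (by linarith)).trans (by linarith)
          have h3 : G ≤ Real.log y := by nlinarith
          have h4 : G * v.M ≤ Real.log y * (5 * Real.log y) :=
            mul_le_mul h3 (by linarith) (Nat.cast_nonneg _) (by linarith)
          nlinarith

theorem Ok6.sg_spec (h : s.Ok6 v L G T W a m₀ y) (hβ : β ⊆ v.P) (τ : ℍ) (D : ℤ) (η : M2)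
    (h₁ : HasDisc τ D) (h₂ : D < -576) (h₃ : Fit v.E D) (h₄ : η.det = (∏ l ∈ β, l : ℕ))
    (h₅ : Ker (∏ l ∈ β, l) (AA v.E v.b τ) ⊆ Ker (∏ l ∈ β, l) η) :
    v.sg β (jInv τ) = jInv (act η τ) := by
  obtain ⟨n0, nc, nb, -⟩ := h.yda_n hβ
  have e := cm_one h.Ebig n0 nc nb
  rw [VD.sg, dif_pos e]
  exact e.choose_spec τ D η h₁ h₂ h₃ h₄ h₅

theorem Ok6.et_spec (h : s.Ok6 v L G T W a m₀ y) (hβ : β ⊆ v.P) (hx : x ∈ Orb v.τ) (c : ι) :
    (s.et v β x c).det = (∏ l ∈ β, l : ℕ) ∧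
      (∀ l ∈ β, Ker l (s.et v β x c) = Ker l (s.A v x c)) ∧
      act (s.et v β x c) (s.ct x c) = s.ct (v.mv β x) c ∧
      s.et v β x c * s.A v x c = s.A v (v.mv β x) c * s.et v β x c := by
  obtain ⟨n0, nc, nb, -⟩ := h.yda_n hβ
  obtain ⟨hd, hf⟩ := h.ct_disc hx c
  have nb' := (dvd_mul_left _ 4).trans nb
  have hex : ∃ η : M2, η.det = (∏ l ∈ β, l : ℕ) ∧
      Ker (∏ l ∈ β, l) (s.A v x c) ⊆ Ker (∏ l ∈ β, l) η ∧
      act η (s.ct x c) = s.ct (v.mv β x) c := by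
    obtain ⟨η, hη, hk⟩ := (AA_line hd hf n0 nc nb').exists_mat n0
    have e1 := h.sg_spec hβ _ _ η hd (h.big _) hf hη hk.ge
    have e2 : jInv (act η (s.ct x c)) = jInv (s.ct (v.mv β x) c) := by
      rw [← e1, ct, ct, (fr_spec _).2, (fr_spec _).2]
      rfl
    obtain ⟨γ, hγ⟩ := jInv_inj e2
    refine ⟨(γ : M2) * η, by rw [Matrix.det_mul, γ.det_coe, one_mul, hη], ?_, ?_⟩
    · rw [Ker_SL, hk]
      exact subset_rfl
    · rw [act_mul (by rw [γ.det_coe]; exact one_pos) (by rw [hη]; exact_mod_cast n0), act_SL, hγ]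
  have hs := hex.choose_spec
  have he : s.et v β x c = hex.choose := by rw [et, dif_pos hex]
  rw [← he] at hs
  obtain ⟨h1, h2, h3⟩ := hs
  refine ⟨h1, fun l hl => ?_, h3, ?_⟩
  · have hp := (h.pP l (hβ hl)).1
    have hm := mul_prod_erase β (fun l => l) hl
    have hcop : l.Coprime (∏ q ∈ β.erase l, q) :=
      Nat.Coprime.prod_right fun q hq => (Nat.coprime_primes hp
        (h.pP q (hβ (mem_of_mem_erase hq))).1).2 (ne_of_mem_erase hq).symm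
    generalize ∏ q ∈ β.erase l, q = m at hm hcop
    have hln : l ∣ ∏ q ∈ β, q := ⟨m, hm.symm⟩
    have hl1 : IsLn l (Ker l (s.A v x c)) := AA_line hd hf hp.pos (xda_pm (h.pP l (hβ hl))).1
      ((Int.natCast_dvd_natCast.2 hln).trans nb')
    have hl2 : IsLn l (Ker l (s.et v β x c)) := by
      refine isLn_Ker_prime hp (by rw [h1]; exact Int.natCast_dvd_natCast.2 hln) fun hh => ?_
      rw [h1, ← hm, ← Nat.cast_pow, Int.natCast_dvd_natCast, sq] at hh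
      exact hp.one_lt.ne' (hcop.eq_one_of_dvd (Nat.dvd_of_mul_dvd_mul_left hp.pos hh))
    refine (hl1.eq_of_le hl2 fun w hw => ?_).symm
    rw [← xla_smul (Nat.isCoprime_iff_coprime.2 hcop.symm)]
    refine Ker_anti hln _ (h2 fun i => ?_)
    rw [← hm, Matrix.mulVec_smul, Pi.smul_apply, smul_eq_mul, Nat.cast_mul, mul_comm]
    exact mul_dvd_mul_left _ (hw i)
  · obtain ⟨hd', hf'⟩ := h.ct_disc (Orb_map h.disc hx (v.sg β)) c
    have := AA_com hd hf (η := s.et v β x c) (by rw [h1]; exact_mod_cast n0)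
      (by rw [h3]; exact hd') hf' v.b
    rw [h3] at this
    exact this

theorem Ok6.hk_spec (h : s.Ok6 v L G T W a m₀ y) (hx : x ∈ Orb v.τ) {k : Fin n} (hk : k ∈ s.J) :
    s.hk v x k ∈ Hn (v.dg k) ∧ jInv (act (s.hk v x k) (s.ct x (s.bs k))) = x k := by
  have hex : ∃ g ∈ Hn (v.dg k), jInv (act g (s.ct x (s.bs k))) = x k := by
    obtain ⟨σ, rfl⟩ := (mem_Orb h.disc).1 hx
    obtain ⟨d0, -, hi⟩ := h.deg k hk
    refine Ig.exists_Hn d0 ?_
    rw [ct, (fr_spec _).2]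
    exact hi.gal d0 σ
  rw [Shp.hk, dif_pos hex]
  exact hex.choose_spec

theorem Ok6.hk_move (h : s.Ok6 v L G T W a m₀ y) {q : ℕ} (hq : q ∈ v.P) (hx : x ∈ Orb v.τ)
    {k : Fin n} (hk : k ∈ s.J) :
    Ker (v.dg k) (s.hk v (v.mv {q} x) k * s.et v {q} x (s.bs k)) = Ker (v.dg k) (s.hk v x k) := by
  have hβ : ({q} : Finset ℕ) ⊆ v.P := singleton_subset_iff.2 hq
  generalize hβq : ({q} : Finset ℕ) = β at hβ
  obtain ⟨n0, nc, nb, nd⟩ := h.yda_n hβ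
  obtain ⟨hd, hf⟩ := h.ct_disc hx (s.bs k)
  obtain ⟨g1, g2⟩ := h.hk_spec hx hk
  obtain ⟨g1', g2'⟩ := h.hk_spec (x := v.mv β x) (Orb_map h.disc hx (v.sg β)) hk
  obtain ⟨e1, -, e3, -⟩ := h.et_spec hβ hx (s.bs k)
  obtain ⟨d0, gd⟩ := mem_Hn g1
  have gd' := (mem_Hn g1').2
  have n0' : (0 : ℤ) < (∏ l ∈ β, l : ℕ) := by exact_mod_cast n0
  have d0' : (0 : ℤ) < v.dg k := by exact_mod_cast d0
  have ht1 : HasDisc (act (s.hk v x k) (s.ct x (s.bs k))) (v.D k) := by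
    obtain ⟨σ, hσ⟩ := (mem_Orb h.disc).1 hx
    exact disc_of_gal (h.disc k) (h.big k) (g2.trans (congrFun hσ k))
  have hf1 : Fit v.E (v.D k) := (h.fit k hk).trans (fit_sq h.N_pos _)
  obtain ⟨η, hη, hke⟩ := (AA_line ht1 hf1 n0 nc ((dvd_mul_left _ 4).trans nb)).exists_mat n0
  have e4 := h.sg_spec hβ _ _ η ht1 (h.big _) hf1 hη hke.ge
  have e5 : jInv (act (η * s.hk v x k) (s.ct x (s.bs k))) =
      jInv (act (s.hk v (v.mv β x) k * s.et v β x (s.bs k)) (s.ct x (s.bs k))) := by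
    rw [act_mul (by rwa [hη]) (by rwa [gd]), act_mul (by rwa [gd']) (by rwa [e1]), e3, g2', ← e4,
      g2]
    rfl
  have hb : 4 * ((v.dg k * ∏ l ∈ β, l : ℕ) : ℤ) ^ 2 < -v.D (s.cr (s.bs k)) := by
    have hG := h.hG
    have hGT := h.GT
    have hTy := h.Ty
    obtain ⟨hM, hY, -, -, hlq⟩ := h.num
    have hM' : (1 : ℝ) ≤ v.M := by exact_mod_cast hM
    have hY4 : (10000 : ℝ) ≤ Real.log y := by nlinarith
    have b1 : ((∏ l ∈ β, l : ℕ) : ℝ) ≤ Real.exp (2 * Real.log y) := by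
      rw [← hβq, prod_singleton, ← Real.log_le_iff_le_exp (by exact_mod_cast (h.pP q hq).1.pos)]
      exact hlq q (h.pP q hq)
    have b2 := (h.deg k hk).2.1
    have b3 := (h.large _ (s.mem (s.bs k))).1
    have b4 : ((v.dg k * ∏ l ∈ β, l : ℕ) : ℝ) ≤ Real.exp (T + 2 * Real.log y) := by
      rw [Nat.cast_mul, Real.exp_add]
      exact mul_le_mul b2 b1 (Nat.cast_nonneg _) (Real.exp_pos _).le
    have b5 : (4 : ℝ) ≤ Real.exp 3 := by linarith [Real.add_one_le_exp 3]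
    have b6 : 3 + 2 * (T + 2 * Real.log y) < W := by
      have c1 : 100 * T ≤ G * T := mul_le_mul_of_nonneg_right hG (by linarith)
      have c2 : 100 * 1 ≤ G * v.M := mul_le_mul hG hM' (by norm_num) (by linarith)
      have c3 := mul_le_mul_of_nonneg_right c2 (by linarith : 0 ≤ Real.log y)
      have c4 := h.yW
      linarith
    have b7 : 4 * ((v.dg k * ∏ l ∈ β, l : ℕ) : ℝ) ^ 2 < -(v.D (s.cr (s.bs k)) : ℝ) :=
      calc 4 * ((v.dg k * ∏ l ∈ β, l : ℕ) : ℝ) ^ 2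
          ≤ Real.exp 3 * Real.exp (T + 2 * Real.log y) ^ 2 := by gcongr
        _ = Real.exp (3 + 2 * (T + 2 * Real.log y)) := by
            rw [Real.exp_add 3, ← Real.exp_nat_mul, Nat.cast_ofNat]
        _ < Real.exp W := Real.exp_lt_exp.2 b6
        _ ≤ _ := b3
    exact_mod_cast b7
  obtain ⟨γ, hγ⟩ := iso_unique hd (Nat.mul_pos d0 n0)
    (by rw [Matrix.det_mul, hη, gd, Nat.cast_mul, mul_comm])
    (by rw [Matrix.det_mul, gd', e1, Nat.cast_mul]) hb e5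
  rw [hγ, Ker_SL, Ker_cop]
  rw [hη]
  exact Nat.isCoprime_iff_coprime.2 (nd.coprime_dvd_right (dvd_prod_of_mem _ hk))

theorem Ok6.lab_mem (h : s.Ok6 v L G T W a m₀ y) (hx : x ∈ Orb v.τ) (c : ι) :
    s.lab6 v x c ∈ LB s.e v.l := by
  obtain ⟨hd, hf⟩ := h.ct_disc hx c
  refine Fintype.mem_piFinset.2 fun j => ?_
  have p1 := (h.pl j).1
  have a1 : 0 < v.l j ^ (2 * s.e) := pow_pos p1.1.pos _
  refine (mem_Xn a1).2 (AA_line hd hf a1 ?_ ?_)
  · rw [Nat.cast_pow]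
    exact (xda_pm p1).1.pow_left
  · have := (h.yda_l {j}).2.2
    rw [prod_singleton] at this
    exact (dvd_mul_left _ 4).trans this

theorem Ok6.rho_spec (h : s.Ok6 v L G T W a m₀ y) : IsRS s.e (s.MM v) v.l (s.rho6 v) := by
  intro S Ls hL
  have a1 : ∀ j, 0 < v.l j ^ (2 * s.e) := fun j => pow_pos (h.pl j).1.1.pos _
  have k1 : ∀ j, IsLn (v.l j ^ (2 * s.e)) (Ls j) := fun j =>
    (mem_Xn (a1 j)).1 (Fintype.mem_piFinset.1 hL j)
  have hM : 0 < s.MM v := Nat.mul_pos (Nat.mul_pos h.N_pos h.dd_le.1) (h.yda_n subset_rfl).1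
  have hc : ∀ j, (v.l j).Coprime (s.MM v) := fun j =>
    ((xda_pm (h.pl j).1).2.1.mul_right (xda_pm (h.pl j).1).2.2).mul_right
      (Nat.Coprime.prod_right fun l hl => (Nat.coprime_primes (h.pl j).1.1 (h.pP l hl).1).2
        fun e => (h.pl j).2 (e ▸ hl))
  have hex : ∃ ρ : M2, ρ.det = ((∏ j ∈ S, v.l j) ^ (2 * s.e) : ℕ) ∧
      (∀ j ∈ S, Ker (v.l j ^ (2 * s.e)) ρ = Ls j) ∧
      Cg (s.MM v) ρ (((∏ j ∈ S, v.l j : ℕ) : ℤ) ^ s.e) := by
    have k2 := yda_ln a1 h.yda_cop k1 S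
    obtain ⟨η, e1, e2, e3⟩ := k2.exists_Cg (prod_pos fun j _ => a1 j) hM
      (s := ((∏ j ∈ S, v.l j : ℕ) : ℤ) ^ s.e)
      (Nat.isCoprime_iff_coprime.2 (Nat.Coprime.prod_left fun j _ => hc j)).pow_left
      ⟨0, by rw [prod_pow]; push_cast; ring⟩
    refine ⟨η, by rw [e1, prod_pow], fun j hj => ?_, e3⟩
    have hj' : (v.l j ^ (2 * s.e)).Coprime (∏ i ∈ S.erase j, v.l i ^ (2 * s.e)) :=
      Nat.Coprime.prod_right fun i hi => h.yda_cop j i (ne_of_mem_erase hi).symm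
    rw [← mul_prod_erase S _ hj, Ker_inter hj'] at e2
    refine xda_split hj' (k1 j) (yda_ln a1 h.yda_cop k1 (S.erase j)) (e2.trans ?_)
    ext w
    refine ⟨fun hw => ⟨hw j hj, fun i hi => hw i (mem_of_mem_erase hi)⟩, fun hw i hi => ?_⟩
    by_cases e : i = j
    · rw [e]
      exact hw.1
    · exact hw.2 i (mem_erase.2 ⟨e, hi⟩)
  rw [rho6, dif_pos hex]
  exact hex.choose_spec

theorem Ok6.rho_ker (h : s.Ok6 v L G T W a m₀ y) (hx : x ∈ Orb v.τ) (c : ι)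
    (S : Finset (Fin v.M)) : Ker ((∏ j ∈ S, v.l j) ^ (2 * s.e)) (s.rho6 v S (s.lab6 v x c)) =
      Ker ((∏ j ∈ S, v.l j) ^ (2 * s.e)) (s.A v x c) := by
  have h1 := (h.rho_spec S _ (h.lab_mem hx c)).2.1
  rw [← prod_pow, yda_ker h.yda_cop, yda_ker h.yda_cop]
  ext w
  exact forall₂_congr fun j hj => by rw [h1 j hj]; rfl

theorem Ok6.cup (h : s.Ok6 v L G T W a m₀ y) {q : ℕ} (hq : q ∈ v.P) :
    CuP y (s.N * s.dd v) q v.l ∧ IsRS s.e (s.N * s.dd v * q) v.l (s.rho6 v) := by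
  have hc : ∀ p, s.Pm v y p → ¬ p ∣ s.N * s.dd v := fun p hp =>
    (Nat.Prime.coprime_iff_not_dvd hp.1).1 ((xda_pm hp).2.1.mul_right (xda_pm hp).2.2)
  have p0 := h.pP q hq
  refine ⟨⟨Nat.mul_pos h.N_pos h.dd_le.1, ⟨p0.1, p0.2.1, p0.2.2.1, hc q p0⟩, fun j => ?_, h.inj⟩,
    fun S Ls hL => ?_⟩
  · obtain ⟨p1, p2⟩ := h.pl j
    exact ⟨p1.1, p1.2.1, p1.2.2.1, hc _ p1, fun e => p2 (e ▸ hq)⟩
  · obtain ⟨a1, a2, a3⟩ := h.rho_spec S Ls hL
    exact ⟨a1, a2, a3.mono (Nat.mul_dvd_mul_left _ (dvd_prod_of_mem (fun q => q) hq))⟩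

theorem Ok6.card_LB (h : s.Ok6 v L G T W a m₀ y) :
    (#(LB s.e v.l) : ℝ) ≤ 3 * (∏ j, v.l j ^ (2 * s.e) : ℕ) := by
  obtain ⟨hy0, hMy⟩ := h.yda_y
  rw [LB, Fintype.card_piFinset, Nat.cast_prod, Nat.cast_prod]
  calc ∏ j, (#(Xn (v.l j ^ (2 * s.e))) : ℝ) ≤
        ∏ j, Real.exp (1 / y) * ((v.l j ^ (2 * s.e) : ℕ) : ℝ) := by
        refine prod_le_prod (fun j _ => Nat.cast_nonneg _) fun j _ => ?_
        have p1 := (h.pl j).1
        have h1 : (#(Xn (v.l j ^ (2 * s.e))) : ℝ) * v.l j ≤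
            ((v.l j ^ (2 * s.e) : ℕ) : ℝ) * (v.l j + 1) := by
          exact_mod_cast (card_Xn p1.1 (k := 2 * s.e) (by have := h.e_pos; omega)).2
        have h2 : (y : ℝ) ≤ v.l j := by exact_mod_cast p1.2.1.le
        have h3 : (0 : ℝ) < v.l j := by linarith
        have h4 : (v.l j : ℝ) + 1 ≤ Real.exp (1 / y) * v.l j := by
          have e1 := Real.add_one_le_exp (1 / (y : ℝ))
          have e2 : 1 ≤ 1 / (y : ℝ) * v.l j := by
            rw [one_div, inv_mul_eq_div, le_div_iff₀ hy0]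
            linarith
          nlinarith
        refine le_of_mul_le_mul_right (h1.trans ?_) h3
        calc _ ≤ ((v.l j ^ (2 * s.e) : ℕ) : ℝ) * (Real.exp (1 / y) * v.l j) := by gcongr
          _ = _ := by ring
    _ = Real.exp (v.M * (1 / y)) * ∏ j, ((v.l j ^ (2 * s.e) : ℕ) : ℝ) := by
        rw [prod_mul_distrib, prod_const, card_univ, Fintype.card_fin, Real.exp_nat_mul]
    _ ≤ _ := by
        refine mul_le_mul_of_nonneg_right ?_ (prod_nonneg fun j _ => Nat.cast_nonneg _)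
        have e1 : (v.M : ℝ) * (1 / y) ≤ 1 := by rwa [mul_one_div, div_le_one hy0]
        linarith [Real.exp_le_exp.2 e1, Real.exp_one_lt_d9]

theorem Ok6.zt_det (h : s.Ok6 v L G T W a m₀ y) (hx : x ∈ Orb v.τ) (γ : Fin n → vcjQ s.N) (c : ι)
    (k : s.Cu c) : (s.zt6 γ (s.hk v x) c k).det = v.dg k ∧ v.dg k ∣ s.dd v := by
  refine ⟨?_, dvd_prod_of_mem _ k.2.1⟩
  rw [zt6, Matrix.det_mul, Matrix.SpecialLinearGroup.det_coe, one_mul,
    (mem_Hn (h.hk_spec hx k.2.1).1).2]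

theorem Ok6.nrel (h : s.Ok6 v L G T W a m₀ y) (hx : x ∈ Orb v.τ) (γ : Fin n → vcjQ s.N) (c : ι)
    {m : ℕ} (hm : m.factorial ^ 2 ≤ m₀) : NRel m (s.zt6 γ (s.hk v x) c) := by
  intro k l hkl hr
  have hp : ∀ k : s.Cu c, 0 < (s.zt6 γ (s.hk v x) c k).det := fun k => by
    rw [(h.zt_det hx γ c k).1]
    exact_mod_cast (h.deg k k.2.1).1
  have hj : ∀ k : s.Cu c, jInv (act (s.zt6 γ (s.hk v x) c k) (s.ct x c)) = x k := fun k => by
    obtain ⟨g1, g2⟩ := h.hk_spec hx k.2.1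
    rw [k.2.2] at g2
    rw [zt6, act_mul (by rw [Matrix.SpecialLinearGroup.det_coe]; exact one_pos)
      (by rw [(mem_Hn g1).2]; exact_mod_cast (mem_Hn g1).1), act_SL, jInv_smul, g2]
  have h1 := hr.isog (hp k) (hp l) (s.ct x c)
  rw [hj, hj] at h1
  obtain ⟨d, d0, d1, d2⟩ := h1.ig (Nat.factorial_pos m)
  obtain ⟨σ, hσ⟩ := (mem_Orb h.disc).1 hx
  have h2 := d2.gal d0 σ.symm
  rw [congrFun hσ k, congrFun hσ l, σ.symm_apply_apply, σ.symm_apply_apply] at h2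
  exact h.noi k k.2.1 l l.2.1 (fun e => hkl (Subtype.ext e)) d d0 (d1.trans hm) h2

theorem Ok6.test_tight (h : s.Ok6 v L G T W a m₀ y) (c : ι) (S : Finset (Fin v.M)) (U : ℝ) :
    prb (Orb v.τ) (fun x => ¬ ∃ γ : SL(2, ℤ), γ • s.pt6 v x c S ∈ KU U) ≤
      prb (Orb v.τ) fun x => s.ct x c ∉ KU U := by
  obtain ⟨n0, nc, nb⟩ := h.yda_l S
  obtain ⟨σ, hσ⟩ := cm_one h.Ebig n0 nc nb
  rw [← pb_perm (π := fun x k => σ (x k)) (fun x hx => Orb_map h.disc hx σ)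
    (fun x _ x' _ e => funext fun k => σ.injective (congrFun e k)) fun x => s.ct x c ∉ KU U]
  refine pb_mono fun x hx hn hU => hn ?_
  obtain ⟨hd, hf⟩ := h.ct_disc hx c
  have e1 := hσ _ _ _ hd (h.big _) hf (h.rho_spec S _ (h.lab_mem hx c)).1 (h.rho_ker hx c S).ge
  have e2 : jInv (s.pt6 v x c S) = jInv (s.ct (fun k => σ (x k)) c) := by
    rw [pt6, ← e1, ct, ct, (fr_spec _).2, (fr_spec _).2]
  obtain ⟨γ, hγ⟩ := jInv_inj e2
  exact ⟨γ, hγ ▸ hU⟩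

theorem Ok6.mono (h : s.Ok6 v L G T W a m₀ y) {m : ℕ} (hm : m ≤ m₀) :
    s.Ok6 v L G T W a m y := by
  exact { h with noi := fun k hk l hl hkl d d0 d1 => h.noi k hk l hl hkl d d0 (d1.trans hm) }

theorem prb_mv (h : ∀ k, HasDisc (v.τ k) (v.D k)) (β : Finset ℕ) (p : (Fin n → ℂ) → Prop) :
    prb (Orb v.τ) (fun x => p (v.mv β x)) = prb (Orb v.τ) p := by
  exact pb_perm (π := v.mv β) (fun x hx => Orb_map h hx (v.sg β))
    (fun x _ x' _ e => funext fun k => (v.sg β).injective (congrFun e k)) p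

end Shp

end Pool.Agent.EQ
end
end
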