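import Pool.Agent.K.MP_ad7a55_nt.C85
import Pool.Agent.K.MP_ad7a55_nt.C78
import Pool.Agent.K.MP_ad7a55_nt.C8

-- part Pool.Agent.P.MP_ad7a55_nt.YDb
section

/-! Reduction to the tests along the cube. -/

set_option autoImplicit false

noncomputable section

open MeasureTheory Topology Filter UpperHalfPlane Finset
open scoped MatrixGroups BoundedContinuousFunction Matrix Classical

namespace Pool.Agent.EQ

theorem ydb_tel {κ : Type} (J : Finset κ) {f g : κ → ℝ} {ε : ℝ} (hf : ∀ k, |f k| ≤ 1)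
    (hg : ∀ k, |g k| ≤ 1) (hd : ∀ k, |f k - g k| ≤ ε) :
    |∏ k ∈ J, f k - ∏ k ∈ J, g k| ≤ #J * ε := by
  induction J using Finset.induction_on with
  | empty => simp
  | insert a J ha ih =>
    rw [prod_insert ha, prod_insert ha, card_insert_of_notMem ha]
    have h1 : |∏ k ∈ J, g k| ≤ 1 := by
      rw [Finset.abs_prod]
      exact Finset.prod_le_one (fun _ _ => abs_nonneg _) fun k _ => hg k
    have e : f a * ∏ k ∈ J, f k - g a * ∏ k ∈ J, g k =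
        f a * (∏ k ∈ J, f k - ∏ k ∈ J, g k) + (f a - g a) * ∏ k ∈ J, g k := by ring
    rw [e]
    refine (abs_add_le _ _).trans ?_
    rw [abs_mul, abs_mul]
    have h2 := mul_le_mul (hf a) ih (abs_nonneg _) zero_le_one
    have h3 := mul_le_mul (hd a) h1 (abs_nonneg _) ((abs_nonneg _).trans (hd a))
    push_cast
    linarith

theorem ydb_IN {N : ℕ} (hN : 0 < N) (f g : ℍ →ᵇ ℝ) : |IN N f - IN N g| ≤ ‖f - g‖ := by
  have : NeZero N := ⟨hN.ne'⟩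
  have := mH_prob (Γ := CongruenceSubgroup.Gamma N)
  have e : IN N f - IN N g = IN N (f - g) := (integral_sub (f.integrable _) (g.integrable _)).symm
  rw [e]
  exact abs_IN_le hN _

namespace Shp

variable {n : ℕ} {ι : Type}

theorem ydb_cop {s : Shp n ι} {v : VD n} {L G T W : ℝ} {a m₀ y : ℕ}
    (h : s.Ok6 v L G T W a m₀ y) (S : Finset (Fin v.M)) : 0 < ∏ j ∈ S, v.l j ∧
      IsCoprime ((∏ j ∈ S, v.l j : ℕ) : ℤ) (2 * s.N * v.E * s.dd v) := by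
  refine ⟨Finset.prod_pos fun j _ => (h.pl j).1.1.pos, ?_⟩
  rw [Nat.cast_prod]
  exact IsCoprime.prod_left fun j _ => xdb_pm (h.pl j).1

theorem ydb_bl {s : Shp n ι} {v : VD n} {L G T W : ℝ} {a m₀ y : ℕ}
    (h : s.Ok6 v L G T W a m₀ y) (S : Finset (Fin v.M)) :
    (4 * (∏ j ∈ S, v.l j : ℕ) ^ (2 * s.e) : ℤ) ∣ v.b ^ 2 - v.E := by
  refine Dvd.dvd.trans (mul_dvd_mul_left _ (pow_dvd_pow_of_dvd ?_ _)) h.bl
  exact Int.natCast_dvd_natCast.2 (Finset.prod_dvd_prod_of_subset _ _ _ (subset_univ S))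

theorem ydb_disc {s : Shp n ι} {v : VD n} {L G T W : ℝ} {a m₀ y : ℕ}
    (h : s.Ok6 v L G T W a m₀ y) {x : Fin n → ℂ} (hx : x ∈ Orb v.τ) {k : Fin n} {t : ℍ}
    (ht : jInv t = x k) : HasDisc t (v.D k) := by
  obtain ⟨σ, rfl⟩ := (mem_Orb h.disc).1 hx
  exact disc_of_gal (h.disc k) (h.big k) ht

theorem move_pt6 {s : Shp n ι} {v : VD n} {L G T W : ℝ} {a m₀ y : ℕ}
    (h : s.Ok6 v L G T W a m₀ y) {x : Fin n → ℂ} (hx : x ∈ Orb v.τ) {k : Fin n} (hk : k ∈ s.J)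
    {t : ℍ} (ht : jInv t = x k) : ∃ c : vcjQ s.N, ∀ S : Finset (Fin v.M), ∃ η : M2,
      η.det = ((∏ j ∈ S, v.l j) ^ (2 * s.e) : ℕ) ∧
      Ker ((∏ j ∈ S, v.l j) ^ (2 * s.e)) (AA v.E v.b t) ⊆ Ker ((∏ j ∈ S, v.l j) ^ (2 * s.e)) η ∧
      Cg s.N η (((∏ j ∈ S, v.l j : ℕ) : ℤ) ^ s.e) ∧ ∀ φ : ℍ → ℝ, GInv s.N φ →
        φ (act η t) = φ (act ((c.out : SL(2, ℤ)) * s.hk v x k) (s.pt6 v x (s.bs k) S)) := by
  obtain ⟨k1, k2⟩ := h.hk_spec hx hk
  obtain ⟨hd, k3⟩ := mem_Hn k1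
  have hd' : 0 < (s.hk v x k).det := by rw [k3]; exact_mod_cast hd
  obtain ⟨g, hg⟩ := jInv_inj (k2.trans ht.symm)
  have hD := ydb_disc h hx ht
  have hF : Fit v.E (v.D k) := (h.fit k hk).trans (fit_sq h.N_pos _)
  obtain ⟨c1, c2⟩ := h.ct_disc hx (s.bs k)
  have z1 : ((g : M2) * s.hk v x k).det = v.dg k := by
    rw [Matrix.det_mul, g.det_coe, one_mul, k3]
  have z2 : 0 < ((g : M2) * s.hk v x k).det := by rw [z1]; exact_mod_cast hd
  have z3 : act ((g : M2) * s.hk v x k) (s.ct x (s.bs k)) = t := by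
    rw [act_mul (vact_SL_det g) hd', act_SL, hg]
  have z4 := AA_com c1 c2 z2 (z3 ▸ hD) hF v.b
  rw [z3] at z4
  refine ⟨QuotientGroup.mk g, fun S => ?_⟩
  obtain ⟨p0, p1⟩ := ydb_cop h S
  have hn : 0 < (∏ j ∈ S, v.l j) ^ (2 * s.e) := pow_pos p0 _
  have dv : v.dg k ∣ s.dd v := Finset.dvd_prod_of_mem _ hk
  have dv' : (v.dg k : ℤ) ∣ s.dd v := by exact_mod_cast dv
  have q1 : IsCoprime ((∏ j ∈ S, v.l j : ℕ) : ℤ) (2 * v.E) :=
    p1.of_isCoprime_of_dvd_right ⟨s.N * s.dd v, by ring⟩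
  have q2 : IsCoprime ((∏ j ∈ S, v.l j : ℕ) : ℤ) ((s.N * v.dg k : ℕ) : ℤ) := by
    refine p1.of_isCoprime_of_dvd_right ?_
    rw [Nat.cast_mul]
    exact (mul_dvd_mul_left _ dv').trans ⟨2 * v.E, by ring⟩
  have q3 : IsCoprime ((∏ j ∈ S, v.l j : ℕ) : ℤ) (s.N : ℤ) :=
    p1.of_isCoprime_of_dvd_right ⟨2 * v.E * s.dd v, by ring⟩
  have q4 : IsCoprime ((∏ j ∈ S, v.l j : ℕ) : ℤ) (v.dg k : ℤ) :=
    p1.of_isCoprime_of_dvd_right (dv'.mul_left _)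
  have hl := AA_line (b := v.b) hD hF hn (by rw [Nat.cast_pow]; exact q1.pow_left)
    (by rw [Nat.cast_pow]; exact (Dvd.intro_left _ rfl).trans (ydb_bl h S))
  obtain ⟨η, e1, e2, e3⟩ := hl.exists_Cg hn h.N_pos
    (s := ((∏ j ∈ S, v.l j : ℕ) : ℤ) ^ s.e) q3.pow_left
    (by rw [Nat.cast_pow, ← pow_mul, mul_comm s.e, sub_self]; exact dvd_zero _)
  obtain ⟨r1, -, r4⟩ := h.rho_spec S _ (h.lab_mem hx (s.bs k))
  have r5 := h.rho_ker hx (s.bs k) S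
  have r6 : Cg (s.N * v.dg k) (s.rho6 v S (s.lab6 v x (s.bs k)))
      (((∏ j ∈ S, v.l j : ℕ) : ℤ) ^ s.e) := r4.mono ((Nat.mul_dvd_mul_left _ dv).mul_right _)
  have r7 : 0 < (s.rho6 v S (s.lab6 v x (s.bs k))).det := by rw [r1]; exact_mod_cast hn
  obtain ⟨γ, hγ, e4⟩ := swap_Cg hn hd z1 r1 e1
    (Nat.Coprime.pow_left _ (Nat.isCoprime_iff_coprime.1 q4)) q2.pow_left r6 e3 fun w hw => by
      rw [e2]
      rw [r5] at hw
      refine (Ker_com z4 ?_ w).1.2 hw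
      rw [z1, Nat.cast_pow]
      exact q4.symm.pow_right
  refine ⟨η, e1, e2.ge, e3, fun φ hφ => ?_⟩
  obtain ⟨δ, hδ⟩ := QuotientGroup.mk_out_eq_mul (CongruenceSubgroup.Gamma s.N) g
  have r9 : 0 < ((g : M2) * s.hk v x k * s.rho6 v S (s.lab6 v x (s.bs k))).det := by
    rw [Matrix.det_mul]
    exact mul_pos z2 r7
  rw [← z3, ← act_mul (by rw [e1]; exact_mod_cast hn) z2, e4, act_mul (vact_SL_det γ) r9, act_SL,
    hφ γ hγ, act_mul z2 r7, act_mul (vact_SL_det _) hd', act_mul (vact_SL_det _) hd', act_SL,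
    act_SL, hδ, mul_smul]
  exact (hφ.smul g δ δ.2 _).symm

theorem prod_Cu [Fintype ι] (s : Shp n ι) (f : Fin n → ℝ) :
    ∏ c, ∏ k : s.Cu c, f k = ∏ k ∈ s.J, f k := by
  rw [← Finset.prod_fiberwise_of_maps_to (s := s.J) (t := univ) (g := s.bs)
    (fun _ _ => mem_univ _) f]
  refine prod_congr rfl fun c _ => ?_
  exact (Finset.prod_subtype (s.J.filter fun k => s.bs k = c)
    (p := fun k => k ∈ s.J ∧ s.bs k = c) (fun k => mem_filter) f).symm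

theorem ydb_val [Fintype ι] (s : Shp n ι) (φ : Fin n → (ℍ →ᵇ ℝ)) (γ : Fin n → vcjQ s.N)
    (h : Fin n → M2) (p : ι → ℍ) :
    ∏ c, (prF fun k : s.Cu c => φ k) (s.zt6 γ h c) (p c) =
      ∏ k ∈ s.J, φ k (act (((γ k).out : SL(2, ℤ)) * h k) (p (s.bs k))) := by
  rw [← prod_Cu]
  refine prod_congr rfl fun c _ => ?_
  rw [prF, BoundedContinuousFunction.prod_apply]
  refine prod_congr rfl fun k _ => ?_
  rw [cact_apply, k.2.2]
  rfl

theorem ydb_size {s : Shp n ι} {v : VD n} {L G T W : ℝ} {a m₀ y : ℕ}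
    (h : s.Ok6 v L G T W a m₀ y) (he : (8 * s.e : ℝ) ≤ G) (S : Finset (Fin v.M)) {k : Fin n}
    (hk : k ∈ s.J) : 4 * ((∏ j ∈ S, v.l j : ℕ) : ℤ) ^ (2 * s.e) < -v.D k := by
  obtain ⟨-, n1, n2, -, n3⟩ := h.num
  have hG := h.hG
  have hT := h.GT
  have hy : 0 ≤ Real.log y := le_trans (by positivity) n1
  have h1 : ((∏ j ∈ S, v.l j : ℕ) : ℝ) ≤ Real.exp (v.M * (2 * Real.log y)) := by
    rw [Nat.cast_prod]
    calc _ ≤ ∏ _j ∈ S, Real.exp (2 * Real.log y) :=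
          Finset.prod_le_prod (fun _ _ => Nat.cast_nonneg _) fun j _ => by
            have hp : (0 : ℝ) < v.l j := by exact_mod_cast (h.pl j).1.1.pos
            rw [← Real.log_le_iff_le_exp hp]
            exact n3 _ (h.pl j).1
      _ = Real.exp (#S * (2 * Real.log y)) := by rw [prod_const, Real.exp_nat_mul]
      _ ≤ _ := by
          refine Real.exp_le_exp.2 (mul_le_mul_of_nonneg_right ?_ (by positivity))
          exact_mod_cast (card_le_univ S).trans (by simp)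
  have h2 : ((∏ j ∈ S, v.l j : ℕ) : ℝ) ^ (2 * s.e) ≤
      Real.exp ((2 * s.e : ℕ) * (v.M * (2 * Real.log y))) := by
    rw [Real.exp_nat_mul]
    exact pow_le_pow_left₀ (Nat.cast_nonneg _) h1 _
  have h3 : ((2 * s.e : ℕ) : ℝ) * (v.M * (2 * Real.log y)) ≤ W / 2 := by
    have a1 : 0 ≤ (v.M : ℝ) * Real.log y := by positivity
    have a2 := mul_le_mul_of_nonneg_right he a1
    have a3 := h.yW
    push_cast
    nlinarith
  have h4 : 8 ≤ W := by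
    have a1 : 100 * 100 ≤ G * G := by nlinarith
    nlinarith
  have h5 : (4 : ℝ) < Real.exp 4 := by linarith [Real.add_one_le_exp 4]
  have h6 : 4 * ((∏ j ∈ S, v.l j : ℕ) : ℝ) ^ (2 * s.e) < -(v.D k : ℝ) :=
    calc _ ≤ 4 * Real.exp (W / 2) :=
          mul_le_mul_of_nonneg_left (h2.trans (Real.exp_le_exp.2 h3)) (by norm_num)
      _ < Real.exp 4 * Real.exp (W / 2) := mul_lt_mul_of_pos_right h5 (Real.exp_pos _)
      _ ≤ Real.exp W := by rw [← Real.exp_add]; exact Real.exp_le_exp.2 (by linarith)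
      _ ≤ _ := (h.large k hk).1
  exact_mod_cast h6

theorem ydb_big {s : Shp n ι} {v : VD n} {L G T W : ℝ} {a m₀ y : ℕ}
    (h : s.Ok6 v L G T W a m₀ y) {k : Fin n} (hk : k ∈ s.J) : G ≤ -(v.D k : ℝ) := by
  obtain ⟨-, -, n2, -, -⟩ := h.num
  have hG := h.hG
  have hT := h.GT
  have a1 : 1 ≤ G * T := by nlinarith
  have a2 : G ≤ W := by nlinarith
  linarith [Real.add_one_le_exp W, (h.large k hk).1]

theorem red6 {N : ℕ} (hN : 0 < N) (F : IntermediateField ℚ ℂ) [FiniteDimensional ℚ F] (n : ℕ) :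
    ∃ (e : ℕ) (G₀ : ℝ), 0 < e ∧ ∀ (ι : Type) [Fintype ι] [Nonempty ι] (s : Shp n ι)
      (φ : Fin n → (ℍ →ᵇ ℝ)), s.N = N → s.e = e → (∀ k, Tst N F (φ k)) → (∀ k, ‖φ k‖ ≤ 1) →
      ∀ (v : VD n) (L G T W : ℝ) (a m₀ y : ℕ) (ψ : (Fin n × Fn → ℂ) → ℝ) (θ : ℝ), G₀ ≤ G →
      s.Ok6 v L G T W a m₀ y → Oth s.I v.D ψ → (∀ z, |ψ z| ≤ 1) → 0 < θ →
      θ ≤ |avg (ON N F v.τ) fun z => ψ z *
        (PT N F φ s.I z - (∏ k ∈ s.J, IN N (φ k)) * PT N F φ (s.I \ s.J) z)| →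
      ∃ Ws : Wt v, WB (N ^ (3 * n)) Ws ∧ θ / (4 * Module.finrank ℚ F) ≤ prb (Orb v.τ)
        (s.Ev6 v (fun c => prF fun k : s.Cu c => φ k) Ws (∏ k ∈ s.J, IN N (φ k)) (θ / 2)) := by
  obtain ⟨e, he, hmv⟩ := move hN F n
  obtain ⟨B, hB⟩ := tst_rp hN F
  refine ⟨e, max (max (8 * e) B) (577 * N ^ 2), he, ?_⟩
  intro ι _ _ s φ hsN hse hφ hφ1 v L G T W a m₀ y ψ θ hT h hψ hψ1 hθ hav
  subst hsN hse
  have T1 : (8 * s.e : ℝ) ≤ G := ((le_max_left _ _).trans (le_max_left _ _)).trans hT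
  have T2 : B ≤ G := ((le_max_right _ _).trans (le_max_left _ _)).trans hT
  have T3 : (577 * s.N ^ 2 : ℝ) ≤ G := (le_max_right _ _).trans hT
  have hex := fun i : Finset (Fin v.M) => hmv v.E v.b (∏ j ∈ i, v.l j)
    ((univ.filter fun k => ¬ IsSquare (v.D k * v.E)).image v.D) h.Ebig
    (card_image_le.trans ((card_filter_le _ _).trans (by simp)))
    (fun D hD => by
      obtain ⟨k, hk, rfl⟩ := mem_image.1 hD
      exact ⟨h.big k, (h.disc k).isD, (mem_filter.1 hk).2⟩)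
    (ydb_cop h i).1 (ydb_cop h i).2.of_mul_right_left (ydb_bl h i)
  choose σ s1 s2 s3 using hex
  haveI := vcj_fin hN
  letI := Fintype.ofFinite (vcjQ s.N)
  have hMne : (univ : Finset (Finset (Fin v.M))).Nonempty := ⟨∅, mem_univ _⟩
  have hsplit : ∀ z, PT s.N F φ s.I z - (∏ k ∈ s.J, IN s.N (φ k)) * PT s.N F φ (s.I \ s.J) z =
      PT s.N F φ (s.I \ s.J) z * (PT s.N F φ s.J z - ∏ k ∈ s.J, IN s.N (φ k)) := fun z => by
    rw [PT, ← prod_sdiff s.sub, mul_sub, mul_comm (∏ k ∈ s.J, IN s.N (φ k))]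
    rfl
  simp only [hsplit] at hav
  set Φ : (Fin n × Fn → ℂ) → ℝ := fun z =>
    PT s.N F φ (s.I \ s.J) z * (PT s.N F φ s.J z - ∏ k ∈ s.J, IN s.N (φ k)) with hΦ
  have hΦ2 : ∀ z, |Φ z| ≤ 2 := fun z => by
    have a1 := xdb_abs (N := s.N) (F := F) hφ1 (s.I \ s.J) z
    have a2 := xdb_abs (N := s.N) (F := F) hφ1 s.J z
    have a3 : |∏ k ∈ s.J, IN s.N (φ k)| ≤ 1 := by
      rw [Finset.abs_prod]
      exact Finset.prod_le_one (fun _ _ => abs_nonneg _) fun k _ =>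
        (abs_IN_le hN _).trans (hφ1 k)
    rw [hΦ, abs_mul]
    calc _ ≤ 1 * (1 + 1) := mul_le_mul a1 ((abs_sub _ _).trans (add_le_add a2 a3))
          (abs_nonneg _) zero_le_one
      _ = 2 := by norm_num
  have hfix : ∀ z ∈ ON s.N F v.τ, ∀ i, ψ (fun b => σ i (z b)) = ψ z := fun z hz i => by
    have hz' := (mem_ON hN h.disc).1 hz
    refine hψ _ _ fun k hk f => ?_
    by_cases hf : f ∈ MF s.N F
    · rw [← rp_val hN hz' k hf]
      refine s2 i (v.D k) (mem_image_of_mem _ (mem_filter.2 ⟨mem_univ _, fun hs => ?_⟩)) _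
        (rp_disc hN h.disc hz' (h.big k)) f hf
      obtain ⟨c⟩ := ‹Nonempty ι›
      obtain ⟨m, hm, hE⟩ := (h.fit _ (s.mem c)).trans (fit_sq hN _)
      refine hk _ (s.sub (s.mem c)) (xdb_sq (m := m) (by exact_mod_cast hm.ne') ?_)
      rwa [hE, mul_comm ((m : ℤ) ^ 2), ← mul_assoc] at hs
    · rw [← congrFun (vev_rp hN hz' k) f, ev_of_not hf, map_zero]
  have e1 : avg (ON s.N F v.τ) (fun z => ψ z * Φ z) =
      mn (ON s.N F v.τ) fun z => ψ z * mn univ fun i => Φ fun b => σ i (z b) := by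
    have a1 : ∀ i, mn (ON s.N F v.τ) (fun z => ψ z * Φ fun b => σ i (z b)) =
        avg (ON s.N F v.τ) fun z => ψ z * Φ z := fun i => by
      rw [mn, avg, ON, ← sum_galO (s1 i) fun z => ψ z * Φ z]
      congr 1
      exact sum_congr rfl fun z hz => by rw [hfix z hz i]
    simp only [← mn_mul]
    rw [mn_swap]
    simp only [a1]
    rw [mn_const hMne]
  have e2 : θ ≤ mn (ON s.N F v.τ) fun z => |mn univ fun i => Φ fun b => σ i (z b)| := by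
    refine hav.trans ?_
    rw [e1]
    refine (abs_mn_le _ _).trans (mn_mono fun z _ => ?_)
    rw [abs_mul]
    exact mul_le_of_le_one_left (abs_nonneg _) (hψ1 z)
  have e3 := pb_rev (O := ON s.N F v.τ) (G := fun z => |mn univ fun i => Φ fun b => σ i (z b)|)
    two_pos (fun z _ => (abs_mn_le _ _).trans
      ((mn_mono fun i _ => hΦ2 _).trans (mn_const hMne 2).le)) (half_pos hθ).le
  refine ⟨fun u => (univ : Finset (Fin n → vcjQ s.N)).image fun c i => PT s.N F φ (s.I \ s.J)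
    fun b => σ i (evs (MF s.N F) (fun k => (c k).out⁻¹ • fr (u k)) b), fun u => ⟨?_, ?_⟩, ?_⟩
  · refine card_image_le.trans ?_
    rw [card_univ, Fintype.card_fun, Fintype.card_fin, pow_mul, ← Nat.card_eq_fintype_card]
    exact Nat.pow_le_pow_left (index_Gamma_le hN) n
  · intro W hW i
    obtain ⟨c, -, rfl⟩ := mem_image.1 hW
    exact xdb_abs hφ1 _ _
  have hfr : (0 : ℝ) < Module.finrank ℚ F := by exact_mod_cast Module.finrank_pos
  rw [← div_div, div_le_iff₀' hfr]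
  refine le_trans ?_ (prb_pj hN F h.disc _)
  refine le_trans (by linarith) (e3.trans (pb_mono fun z hz hG => ?_))
  have hz' := (mem_ON hN h.disc).1 hz
  have hx : pj z ∈ Orb v.τ := by
    obtain ⟨σ', -, e⟩ := pj_mem hN hz'
    exact (mem_Orb h.disc).2 ⟨σ', e⟩
  choose c hc using xdb_cell hN hz'
  have hγ : ∀ k, ∃ γ : vcjQ s.N, k ∈ s.J → ∀ i,
      φ k (rp (MF s.N F) (fun b => σ i (z b)) k) =
        φ k (act ((γ.out : SL(2, ℤ)) * s.hk v (pj z) k) (s.pt6 v (pj z) (s.bs k) i)) :=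
    fun k => by
    by_cases hk : k ∈ s.J
    · obtain ⟨γ, hγ⟩ := move_pt6 h hx hk (vev_j hN hz' k)
      refine ⟨γ, fun _ i => ?_⟩
      obtain ⟨η, a1, a2, a3, a4⟩ := hγ i
      rw [← a4 _ (hφ k).ginv]
      refine (hB n v.τ v.D h.disc _ (galO_map hz' (s1 i)) k (T2.trans (ydb_big h hk)) _
        (fun f hf => ?_) _ (hφ k)).symm
      rw [← rp_val hN hz' k hf]
      refine (s3 i _ (v.D k) η (rp_disc hN h.disc hz' (h.big k)) (h.fit k hk) ?_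
        (ydb_size h T1 i hk) a1 a2 a3 f hf).symm
      exact_mod_cast T3.trans (ydb_big h hk)
    · exact ⟨QuotientGroup.mk 1, fun hk' => absurd hk' hk⟩
  choose γ hγ using hγ
  refine ⟨_, mem_image_of_mem _ (mem_univ c), γ, hG.trans (le_of_eq ?_)⟩
  refine congrArg (fun u => |mn univ u|) (funext fun i => ?_)
  rw [hΦ, ydb_val s φ γ _ fun c => s.pt6 v (pj z) c i]
  refine congrArg₂ (· * ·) ?_ (congrArg (· - _) ?_)
  · refine prod_congr rfl fun k hk => congrArg (φ k) (rp_congr fun f => congrArg (σ i) ?_)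
    rw [← hc k f, evs, sm, if_pos hk]
  · exact prod_congr rfl fun k hk => hγ k hk i

theorem Ev6.approx [Fintype ι] {s : Shp n ι} (hN : 0 < s.N) {v : VD n}
    {φ φ' : Fin n → (ℍ →ᵇ ℝ)} (hb : ∀ k, ‖φ k‖ ≤ 1) (hb' : ∀ k, ‖φ' k‖ ≤ 1) {ε t : ℝ}
    (hε : 0 ≤ ε) (hd : ∀ k, ‖φ k - φ' k‖ ≤ ε) {B : ℕ} {Ws : Wt v} (hW : WB B Ws) {x : Fin n → ℂ}
    (h : s.Ev6 v (fun c => prF fun k : s.Cu c => φ k) Ws (∏ k ∈ s.J, IN s.N (φ k)) t x) :
    s.Ev6 v (fun c => prF fun k : s.Cu c => φ' k) Ws (∏ k ∈ s.J, IN s.N (φ' k))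
      (t - 2 * n * ε) x := by
  obtain ⟨w, hw, γ, h⟩ := h
  refine ⟨w, hw, γ, ?_⟩
  have hne : (univ : Finset (Finset (Fin v.M))).Nonempty := ⟨∅, mem_univ _⟩
  have hJ : (#s.J : ℝ) * ε ≤ n * ε := by
    refine mul_le_mul_of_nonneg_right ?_ hε
    exact_mod_cast (card_le_univ s.J).trans (by simp)
  have b1 : |∏ k ∈ s.J, IN s.N (φ k) - ∏ k ∈ s.J, IN s.N (φ' k)| ≤ n * ε :=
    (ydb_tel s.J (fun k => (abs_IN_le hN _).trans (hb k)) (fun k => (abs_IN_le hN _).trans (hb' k))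
      fun k => (ydb_IN hN _ _).trans (hd k)).trans hJ
  have b2 : ∀ p : Fin n → ℍ, |∏ k ∈ s.J, φ k (p k) - ∏ k ∈ s.J, φ' k (p k)| ≤ n * ε := fun p =>
    (ydb_tel s.J (fun k => ((φ k).norm_coe_le_norm _).trans (hb k))
      (fun k => ((φ' k).norm_coe_le_norm _).trans (hb' k))
      fun k => ((φ k - φ' k).norm_coe_le_norm (p k)).trans (hd k)).trans hJ
  have key : ∀ f g : Finset (Fin v.M) → ℝ, (∀ S, |f S - g S| ≤ 2 * n * ε) →
      t ≤ |mn univ f| → t - 2 * n * ε ≤ |mn univ g| := fun f g hfg ht => by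
    have e : mn univ f = mn univ g + mn univ fun S => f S - g S := by
      rw [← mn_add]
      exact congrArg _ (funext fun S => by ring)
    have a1 : |mn univ fun S => f S - g S| ≤ 2 * n * ε :=
      (abs_mn_le _ _).trans ((mn_mono fun S _ => hfg S).trans (mn_const hne _).le)
    have a2 := abs_add_le (mn univ g) (mn univ fun S => f S - g S)
    rw [← e] at a2
    linarith
  refine key _ _ (fun S => ?_) h
  rw [ydb_val s φ γ _ fun c => s.pt6 v x c S, ydb_val s φ' γ _ fun c => s.pt6 v x c S,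
    ← mul_sub, abs_mul]
  refine (mul_le_of_le_one_left (abs_nonneg _) ((hW _).2 w hw S)).trans ?_
  have a1 := b2 fun k => act (((γ k).out : SL(2, ℤ)) * s.hk v x k) (s.pt6 v x (s.bs k) S)
  rw [sub_sub_sub_comm]
  refine (abs_sub _ _).trans ?_
  linarith

end Shp

end Pool.Agent.EQ
end
end

-- part Pool.Agent.P.MP_ad7a55_nt.YDc
section

/-! Moving the tests by one prime. -/

set_option autoImplicit false

noncomputable section

open MeasureTheory Topology Filter UpperHalfPlane Finset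
open scoped MatrixGroups BoundedContinuousFunction Matrix Classical

namespace Pool.Agent.EQ

namespace Shp

variable {n : ℕ} {ι : Type} {s : Shp n ι} {v : VD n} {L G T W K t : ℝ} {a m₀ y q q₀ : ℕ}
  {x : Fin n → ℂ} {𝒢 : s.Fm} {Ws : Wt v}

theorem ydc_et (h : s.Ok6 v L G T W a m₀ y) (hx : x ∈ Orb v.τ) (hq : q ∈ v.P) (c : ι) :
    (s.et v {q} x c).det = q ∧ Ker q (s.et v {q} x c) = Ker q (s.A v x c) ∧
      act (s.et v {q} x c) (s.ct x c) = s.ct (v.mv {q} x) c ∧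
      s.et v {q} x c * s.A v x c = s.A v (v.mv {q} x) c * s.et v {q} x c := by
  obtain ⟨h1, h2, h3⟩ := h.et_spec (singleton_subset_iff.2 hq) hx c
  rw [prod_singleton] at h1
  exact ⟨h1, h2 q (mem_singleton_self q), h3⟩

theorem ydc_rho (h : s.Ok6 v L G T W a m₀ y) (hx : x ∈ Orb v.τ) (c : ι)
    (S : Finset (Fin v.M)) : 0 < (s.rho6 v S (s.lab6 v x c)).det := by
  rw [(h.rho_spec S _ (h.lab_mem hx c)).1]
  exact_mod_cast pow_pos (prod_pos fun j _ => (h.pl j).1.1.pos) _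

theorem ydc_swap (h : s.Ok6 v L G T W a m₀ y) (hx : x ∈ Orb v.τ) (hq : q ∈ v.P) (c : ι)
    (S : Finset (Fin v.M)) : ∃ δ ∈ CongruenceSubgroup.Gamma (s.N * s.dd v),
      s.rho6 v S (s.lab6 v (v.mv {q} x) c) * s.et v {q} x c =
        (δ : M2) * (s.et v {q} x c * s.rho6 v S (s.lab6 v x c)) := by
  obtain ⟨e1, -, -, e4⟩ := ydc_et h hx hq c
  have hy : v.mv {q} x ∈ Orb v.τ := Orb_map h.disc hx _
  obtain ⟨cu, rs⟩ := h.cup hq
  obtain ⟨r1, -, r3⟩ := rs S _ (h.lab_mem hx c)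
  obtain ⟨s1, -, s3⟩ := rs S _ (h.lab_mem hy c)
  have c1 : (∏ j ∈ S, v.l j).Coprime q := Nat.Coprime.prod_left fun j _ => ycb_lq cu j
  have c2 : (∏ j ∈ S, v.l j).Coprime (s.N * s.dd v) :=
    Nat.Coprime.prod_left fun j _ => ycb_lM cu j
  have c3 : ((∏ j ∈ S, v.l j) ^ (2 * s.e)).Coprime q := c1.pow_left _
  refine swap_Cg (ycb_pp cu S _) cu.hq.1.pos e1 r1 s1 c3
    (Nat.isCoprime_iff_coprime.2 (c2.mul_right c1)).pow_left r3 (s3.mono (Dvd.intro _ rfl))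
    fun w hw => ?_
  rw [h.rho_ker hx] at hw
  rw [h.rho_ker hy]
  exact (Ker_com e4 (by rw [e1]; exact Nat.isCoprime_iff_coprime.2 c3.symm) w).1.2 hw

theorem ydc_key (h : s.Ok6 v L G T W a m₀ y) (hx : x ∈ Orb v.τ) (hq : q ∈ v.P)
    (γ' : Fin n → vcjQ s.N) (k : Fin n) : ∃ γ : vcjQ s.N, k ∈ s.J →
      ∃ δ ∈ CongruenceSubgroup.Gamma s.N,
        ((γ' k).out : SL(2, ℤ)) * s.hk v (v.mv {q} x) k * s.et v {q} x (s.bs k) =
          (δ : M2) * (nu s.N q (img ((γ.out : SL(2, ℤ)) * s.hk v x k)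
            (Ker q (s.A v x (s.bs k)))) * ((γ.out : SL(2, ℤ)) * s.hk v x k)) := by
  by_cases hk : k ∈ s.J
  swap
  · exact ⟨γ' k, fun h1 => absurd h1 hk⟩
  obtain ⟨e1, e2, -, -⟩ := ydc_et h hx hq (s.bs k)
  have hy : v.mv {q} x ∈ Orb v.τ := Orb_map h.disc hx _
  have hp := (h.pP q hq).1
  obtain ⟨-, cN, cd⟩ := xda_pm (h.pP q hq)
  obtain ⟨d0, d1⟩ := mem_Hn (h.hk_spec hx hk).1
  have cg : q.Coprime (v.dg k) := cd.coprime_dvd_right (Finset.dvd_prod_of_mem _ hk)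
  have d2 : ((((γ' k).out : SL(2, ℤ)) : M2) * s.hk v (v.mv {q} x) k).det = v.dg k := by
    rw [Matrix.det_mul, Matrix.SpecialLinearGroup.det_coe, one_mul,
      (mem_Hn (h.hk_spec hy hk).1).2]
  obtain ⟨γ, hγ⟩ := exists_up (ξ := Ker q (s.A v x (s.bs k))) h.N_pos hp
    ((Nat.Prime.coprime_iff_not_dvd hp).1 cN) d0 ((Nat.Prime.coprime_iff_not_dvd hp).1 cg)
    (η := (((γ' k).out : SL(2, ℤ)) : M2) * s.hk v (v.mv {q} x) k * s.et v {q} x (s.bs k))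
    (h := s.hk v x k) (by rw [Matrix.det_mul, d2, e1, Nat.cast_mul]) d1
    (by rw [Matrix.mul_assoc, Ker_SL, h.hk_move hq hx hk])
    (by rw [Ker_cop (by rw [d2]; exact Nat.isCoprime_iff_coprime.2 cg.symm), e2])
  exact ⟨γ, fun _ => hγ⟩

theorem ydc_sm (β : Finset ℕ) (x : Fin n → ℂ) : s.sm (v.mv β x) = v.mv β (s.sm x) := by
  funext k
  unfold sm VD.mv
  beta_reduce
  split_ifs
  · rfl
  · rw [map_zero]

theorem ydc_prod {κ : Type} (J : Finset κ) (f g : κ → ℝ)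
    (h : ∀ k ∈ J, |f k| ≤ 1 ∧ |g k| ≤ 1) :
    |∏ k ∈ J, f k - ∏ k ∈ J, g k| ≤ ∑ k ∈ J, |f k - g k| := by
  induction J using Finset.induction_on with
  | empty => simp
  | insert k J hk ih =>
    obtain ⟨h1, -⟩ := h k (mem_insert_self _ _)
    have h4 := ih fun l hl => h l (mem_insert_of_mem hl)
    have h5 : |∏ l ∈ J, g l| ≤ 1 := by
      rw [Finset.abs_prod]
      exact Finset.prod_le_one (fun _ _ => abs_nonneg _) fun l hl =>
        (h l (mem_insert_of_mem hl)).2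
    rw [prod_insert hk, prod_insert hk, sum_insert hk,
      show f k * ∏ l ∈ J, f l - g k * ∏ l ∈ J, g l =
        f k * (∏ l ∈ J, f l - ∏ l ∈ J, g l) + (f k - g k) * ∏ l ∈ J, g l by ring]
    refine (abs_add_le _ _).trans ?_
    rw [abs_mul, abs_mul]
    have h6 := mul_le_mul h1 h4 (abs_nonneg _) zero_le_one
    have h7 := mul_le_of_le_one_right (abs_nonneg (f k - g k)) h5
    linarith

theorem ydc_half {α : Type} {O : Finset α} (hO : O.Nonempty) (p : α → Prop) {F : α → ℝ} {t : ℝ}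
    (ht : 0 ≤ t) (h : ∀ z ∈ O, F z ≤ 1 / 2 ∧ (¬ p z → F z ≤ t / 2)) :
    mn O F ≤ 1 / 2 * prb O p + t / 2 := by
  rw [pb_eq, ← mn_mul, ← mn_const hO (t / 2), ← mn_add]
  refine mn_mono fun z hz => ?_
  obtain ⟨h1, h2⟩ := h z hz
  split_ifs with h3
  · linarith
  · linarith [h2 h3]

theorem ydc_sq {κ : Type} (F : (κ → M2) → (ℍ →ᵇ ℝ)) (I : ℝ) (ζ : κ → M2) (z : ℍ) :
    sqF F I ζ z = 1 / 2 * (F ζ z - I) ^ 2 := by
  simp [sqF, sq]

theorem Ok6.val_move (h : s.Ok6 v L G T W a m₀ y) (hF : ∀ c, Fam s.N q₀ K (𝒢 c))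
    (h₀ : q₀.Coprime (s.dd v * ∏ j, v.l j)) (hq : q ∈ v.P) (hq₀ : q.Coprime q₀)
    (hx : x ∈ Orb v.τ) (γ' : Fin n → vcjQ s.N) : ∃ γ : Fin n → vcjQ s.N, ∀ c S,
      𝒢 c (s.zt6 γ' (s.hk v (v.mv {q} x)) c) (s.pt6 v (v.mv {q} x) c S) =
        𝒢 c (up s.N q (s.zt6 γ (s.hk v x) c) (Ker q (s.A v x c))) (s.pt6 v x c S) := by
  choose γ hγ using ydc_key h hx hq γ'
  refine ⟨γ, fun c S => ?_⟩
  have hy : v.mv {q} x ∈ Orb v.τ := Orb_map h.disc hx _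
  have hp := (h.pP q hq).1
  obtain ⟨e1, -, e3, -⟩ := ydc_et h hx hq c
  obtain ⟨δ₀, hδ₀, e5⟩ := ydc_swap h hx hq c S
  have r1 := ydc_rho h hx c S
  have r2 := ydc_rho h hy c S
  have d4 : 0 < (s.et v {q} x c).det := by rw [e1]; exact_mod_cast hp.pos
  have cd : q₀.Coprime (s.dd v) := h₀.coprime_mul_right_right
  have a1 : ∀ k : s.Cu c, Ad q₀ (s.zt6 γ' (s.hk v (v.mv {q} x)) c k) ∧
      s.N * (s.zt6 γ' (s.hk v (v.mv {q} x)) c k).det.natAbs ∣ s.N * s.dd v := fun k => by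
    obtain ⟨z1, z2⟩ := h.zt_det hy γ' c k
    unfold Ad
    rw [z1, Int.natAbs_natCast]
    exact ⟨⟨by exact_mod_cast (h.deg k k.2.1).1,
      Nat.isCoprime_iff_coprime.2 (cd.coprime_dvd_right z2).symm⟩, Nat.mul_dvd_mul_left _ z2⟩
  have a2 : Ad q₀ (s.et v {q} x c) := ⟨d4, by rw [e1]; exact Nat.isCoprime_iff_coprime.2 hq₀⟩
  choose δ hδ e6 using fun k : s.Cu c => hγ k k.2.1
  have e7 : ∀ k : s.Cu c, s.zt6 γ' (s.hk v (v.mv {q} x)) c k * s.et v {q} x c =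
      (δ k : M2) * up s.N q (s.zt6 γ (s.hk v x) c) (Ker q (s.A v x c)) k := fun k => by
    have := e6 k
    rw [k.2.2] at this
    exact this
  have a3 : ∀ k : s.Cu c, Ad q₀ (up s.N q (s.zt6 γ (s.hk v x) c) (Ker q (s.A v x c)) k) :=
    fun k => by
      have e8 := congrArg Matrix.det (e7 k)
      rw [Matrix.det_mul, Matrix.det_mul, Matrix.SpecialLinearGroup.det_coe, one_mul] at e8
      unfold Ad
      rw [← e8]
      exact ⟨mul_pos (a1 k).1.1 d4, (a1 k).1.2.mul_left a2.2⟩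
  unfold pt6
  rw [← e3, ← act_mul r2 d4, e5, act_mul (yaa_Ad_SL δ₀ 1).1
    (by rw [Matrix.det_mul]; exact mul_pos d4 r1), act_SL, (hF c).ginv a1 δ₀ hδ₀, act_mul d4 r1,
    ← (hF c).mul _ _ (fun k => (a1 k).1) a2, ← (hF c).inv _ δ a3 hδ]
  simp only [e7]

variable [Fintype ι]

theorem Ok6.ev_move (h : s.Ok6 v L G T W a m₀ y) (hF : ∀ c, Fam s.N q₀ K (𝒢 c))
    (h₀ : q₀.Coprime (s.dd v * ∏ j, v.l j)) (hq : q ∈ v.P) (hq₀ : q.Coprime q₀) {b θ : ℝ}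
    (hE : θ ≤ prb (Orb v.τ) (s.Ev6 v 𝒢 Ws b t)) :
    θ / 2 ≤ prb (Orb v.τ) (s.EA v 𝒢 (fun u => Ws (v.mv {q} u)) (t / 2) q) ∨
      θ / 2 ≤ prb (Orb v.τ)
        (s.Ev6 v (fun c => Tq s.N q (𝒢 c)) (fun u => Ws (v.mv {q} u)) b (t / 2)) := by
  rw [← prb_mv h.disc {q}] at hE
  have h1 := hE.trans ((pb_mono (p' := fun x =>
      s.EA v 𝒢 (fun u => Ws (v.mv {q} u)) (t / 2) q x ∨
      s.Ev6 v (fun c => Tq s.N q (𝒢 c)) (fun u => Ws (v.mv {q} u)) b (t / 2) x)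
      fun x hx h2 => ?_).trans (pb_or _ _ _))
  · by_contra hc
    push Not at hc
    linarith [hc.1, hc.2]
  obtain ⟨W', hW', γ', h3⟩ := h2
  rw [ydc_sm] at hW'
  obtain ⟨γ, hγ⟩ := h.val_move hF h₀ hq hq₀ hx γ'
  simp only [hγ] at h3
  by_contra hc
  rw [not_or] at hc
  have h4 := not_le.1 fun h5 => hc.1 ⟨W', hW', γ, h5⟩
  have h5 := not_le.1 fun h5 => hc.2 ⟨W', hW', γ, h5⟩
  have h6 := (abs_add_le _ _).trans_lt (add_lt_add h4 h5)
  rw [← mn_add, add_halves] at h6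
  refine absurd (h3.trans_eq (congrArg _ (congrArg _ (funext fun S => ?_)))) (not_le.2 h6)
  ring

/-- The second family. -/
def fam2 (𝒢 : s.Fm) (I : ι → ℝ) (c : ι) : s.Fm := fun c' =>
  if c' = c then sqF (𝒢 c') (I c') else fun _ => BoundedContinuousFunction.const ℍ (1 / 2 : ℝ)

theorem fam2_fam (hK : 0 ≤ K) (hF : ∀ c, Fam s.N q₀ K (𝒢 c)) {I : ι → ℝ}
    (hI : ∀ c, |I c| ≤ 1 / 2) (c c' : ι) : Fam s.N q₀ K (fam2 𝒢 I c c') := by
  unfold fam2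
  split_ifs
  · exact (hF c').sq (hI c')
  · exact fam_const _ _ hK

theorem ev_sq [Nonempty ι] (hb : ∀ c ζ z, |𝒢 c ζ z| ≤ 1) {I : ι → ℝ} (hI : ∀ c, |I c| ≤ 1)
    {B : ℕ} (hW : WB B Ws) (ht : 0 ≤ t) {θ : ℝ}
    (hE : θ ≤ prb (Orb v.τ) (s.Ev6 v 𝒢 Ws (∏ c, I c) t)) :
    ∃ c, θ / Fintype.card ι ≤ prb (Orb v.τ) (s.Ev6 v (fam2 𝒢 I c) (fun _ => {fun _ => 1}) 0
      ((1 / 2) ^ Fintype.card ι * (t / Fintype.card ι) ^ 2)) := by
  have hm : (0 : ℝ) < Fintype.card ι := by exact_mod_cast Fintype.card_pos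
  have h1 := hE.trans ((pb_mono (p' := fun x => ∃ c ∈ (univ : Finset ι),
      s.Ev6 v (fam2 𝒢 I c) (fun _ => {fun _ => 1}) 0
        ((1 / 2) ^ Fintype.card ι * (t / Fintype.card ι) ^ 2) x)
      fun x _ h2 => ?_).trans (pb_exists _ _ _))
  · obtain ⟨c, -, hc⟩ := exists_le_of_sum_le (s := (univ : Finset ι)) univ_nonempty
      (f := fun _ => θ / Fintype.card ι) (le_trans (le_of_eq (by
        rw [sum_const, card_univ, nsmul_eq_mul, mul_div_cancel₀ _ hm.ne'])) h1)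
    exact ⟨c, hc⟩
  obtain ⟨W', hW', γ, h3⟩ := h2
  set g : ι → Finset (Fin v.M) → ℝ :=
    fun c S => 𝒢 c (s.zt6 γ (s.hk v x) c) (s.pt6 v x c S) with hg
  have h4 : t ≤ ∑ c, mn univ fun S => |g c S - I c| := by
    rw [← mn_sum]
    refine h3.trans ((abs_mn_le _ _).trans (mn_mono fun S _ => ?_))
    rw [abs_mul]
    exact (mul_le_of_le_one_left (abs_nonneg _) ((hW _).2 W' hW' S)).trans
      (ydc_prod univ (fun c => g c S) I fun c _ => ⟨hb c _ _, hI c⟩)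
  obtain ⟨c, -, hc⟩ := exists_le_of_sum_le (s := (univ : Finset ι)) univ_nonempty
    (f := fun _ => t / Fintype.card ι) (le_trans (le_of_eq (by
      rw [sum_const, card_univ, nsmul_eq_mul, mul_div_cancel₀ _ hm.ne'])) h4)
  refine ⟨c, mem_univ c, fun _ => 1, mem_singleton_self _, γ, le_trans ?_ (le_abs_self _)⟩
  have h5 : (t / Fintype.card ι) ^ 2 ≤ mn univ fun S => |g c S - I c| ^ 2 :=
    (pow_le_pow_left₀ (by positivity) hc 2).trans (sq_mn_le _ _)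
  refine (mul_le_mul_of_nonneg_left h5 (by positivity)).trans ?_
  rw [← mn_mul]
  refine mn_mono fun S _ => le_of_eq ?_
  have h6 : ∏ c' ∈ univ.erase c, fam2 𝒢 I c c' (s.zt6 γ (s.hk v x) c') (s.pt6 v x c' S) =
      (1 / 2) ^ (Fintype.card ι - 1) := by
    rw [← card_univ, ← card_erase_of_mem (mem_univ c), ← prod_const]
    refine prod_congr rfl fun c' hc' => ?_
    unfold fam2
    rw [if_neg (ne_of_mem_erase hc')]
    rfl
  have h7 : fam2 𝒢 I c c (s.zt6 γ (s.hk v x) c) (s.pt6 v x c S) = 1 / 2 * (g c S - I c) ^ 2 := by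
    unfold fam2
    rw [if_pos rfl, ydc_sq]
  obtain ⟨m, e⟩ : ∃ m, Fintype.card ι = m + 1 :=
    Nat.exists_eq_succ_of_ne_zero Fintype.card_ne_zero
  rw [← mul_prod_erase _ _ (mem_univ c), h6, h7, sq_abs, e, Nat.add_sub_cancel]
  ring

theorem Ok6.ev_rare (h : s.Ok6 v L G T W a m₀ y) {I : ι → ℝ} {c : ι} (hq : q ∈ v.P)
    (hb : ∀ ζ z, |𝒢 c ζ z - I c| ≤ 1) (ht : 0 < t) {U δ : ℝ}
    (hs : ∀ x ∈ Orb v.τ, ∀ (γ : Fin n → vcjQ s.N) (g : SL(2, ℤ)) (z : ℍ), g • z ∈ KU U →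
      Tq s.N q (sqF (𝒢 c) (I c)) (s.zt6 γ (s.hk v x) c) z ≤ t / 2)
    (hU : prb (Orb v.τ) (fun x => s.ct x c ∉ KU U) ≤ δ) :
    prb (Orb v.τ) (s.Ev6 v (fun c' => Tq s.N q (fam2 𝒢 I c c')) (fun _ => {fun _ => 1}) 0 t) ≤
      δ / t := by
  have hX : (Xn q).Nonempty := ycb_ne (h.pP q hq).1.pos
  have hδ : 0 ≤ δ := (pb_nonneg _ _).trans hU
  refine (pb_mono (p' := fun x => t ≤ prb (univ : Finset (Finset (Fin v.M)))
    fun S => ¬ ∃ g : SL(2, ℤ), g • s.pt6 v x c S ∈ KU U) fun x hx h2 => ?_).trans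
    ((pb_markov (fun x _ => pb_nonneg _ _) ht).trans (div_le_div_of_nonneg_right ?_ ht.le))
  swap
  · simp only [pb_eq univ]
    rw [mn_swap]
    refine ycb_le hδ fun S _ => le_trans (le_of_eq ?_) ((h.test_tight c S U).trans hU)
    rw [pb_eq]
  obtain ⟨W', hW', γ, h3⟩ := h2
  rw [mem_singleton] at hW'
  subst hW'
  have h4 := h3.trans ((abs_mn_le _ _).trans (ydc_half univ_nonempty
    (fun S => ¬ ∃ g : SL(2, ℤ), g • s.pt6 v x c S ∈ KU U) ht.le fun S _ => ?_))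
  · linarith
  have h5 : ∏ c' ∈ univ.erase c,
      |Tq s.N q (fam2 𝒢 I c c') (s.zt6 γ (s.hk v x) c') (s.pt6 v x c' S)| ≤ 1 := by
    refine prod_le_one (fun _ _ => abs_nonneg _) fun c' hc' => ?_
    unfold fam2 Tq
    rw [if_neg (ne_of_mem_erase hc')]
    refine abs_mnB_le zero_le_one fun ξ _ => ?_
    rw [BoundedContinuousFunction.const_apply, abs_of_pos (by norm_num)]
    norm_num
  have h6 : fam2 𝒢 I c c = sqF (𝒢 c) (I c) := by
    unfold fam2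
    rw [if_pos rfl]
  have h7 : 0 ≤ Tq s.N q (sqF (𝒢 c) (I c)) (s.zt6 γ (s.hk v x) c) (s.pt6 v x c S) := by
    unfold Tq
    rw [mnB_apply, ← mn_const hX 0]
    refine mn_mono fun ξ _ => ?_
    rw [ydc_sq]
    positivity
  have h8 : Tq s.N q (sqF (𝒢 c) (I c)) (s.zt6 γ (s.hk v x) c) (s.pt6 v x c S) ≤ 1 / 2 := by
    unfold Tq
    rw [mnB_apply]
    refine ycb_le (by norm_num) fun ξ _ => ?_
    rw [ydc_sq, ← sq_abs]
    have := pow_le_one₀ (n := 2) (abs_nonneg _)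
      (hb (up s.N q (s.zt6 γ (s.hk v x) c) ξ) (s.pt6 v x c S))
    linarith
  beta_reduce
  rw [one_mul, sub_zero, Finset.abs_prod, ← mul_prod_erase _ _ (mem_univ c)]
  have h9 := mul_le_of_le_one_right (abs_nonneg (Tq s.N q (fam2 𝒢 I c c)
    (s.zt6 γ (s.hk v x) c) (s.pt6 v x c S))) h5
  refine ⟨h9.trans ?_, fun h10 => h9.trans ?_⟩
  · rw [h6, abs_of_nonneg h7]
    exact h8
  · rw [h6, abs_of_nonneg h7]
    obtain ⟨g, hg⟩ := not_not.1 h10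
    exact hs x hx γ g _ hg

end Shp

end Pool.Agent.EQ
end
end

-- part Pool.Agent.P.MP_ad7a55_nt.YDd
section

/-! Few labels of the test primes are bad. -/

set_option autoImplicit false

noncomputable section

open MeasureTheory Topology Filter UpperHalfPlane Finset
open scoped MatrixGroups BoundedContinuousFunction Matrix Classical

namespace Pool.Agent.EQ

namespace Shp

variable {n : ℕ} {ι : Type} (s : Shp n ι)

/-- Directions at the test primes along which many pairs of directions at `q` correlate. -/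
def Bad6 (v : VD n) (c : ι) (𝒢 : (s.Cu c → M2) → (ℍ →ᵇ ℝ)) (q : ℕ) (ε σ : ℝ) (Rn : Finset ℍ)
    (Ls : Fin v.M → Set V2) : Prop :=
  ∃ w ∈ Rn, ∃ ζ : s.Cu c → M2, (∀ k : s.Cu c, RPm s.N (v.dg k) (ζ k)) ∧
    σ < prb (Xn q).offDiag fun ω => ε < |mn univ fun S =>
      (𝒢 (up s.N q ζ ω.1) - Tq s.N q 𝒢 ζ) (act (s.rho6 v S Ls) w) *
        (𝒢 (up s.N q ζ ω.2) - Tq s.N q 𝒢 ζ) (act (s.rho6 v S Ls) w)|

theorem ydd_card {α : Type} (O : Finset α) (B : α → Prop) {c : ℝ} (h : prb O B ≤ c) :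
    (#(O.filter B) : ℝ) ≤ c * #O := by
  rcases O.eq_empty_or_nonempty with rfl | hO
  · simp
  · have p0 : (0 : ℝ) < #O := by exact_mod_cast hO.card_pos
    rwa [prb, div_le_iff₀ p0] at h

section
variable {s} {v : VD n} {L G T W : ℝ} {a m₀ y : ℕ}

theorem ydd_y (h : s.Ok6 v L G T W a m₀ y) : (0 : ℝ) < y ∧ G ≤ Real.log y ∧ G ≤ y := by
  have h1 := h.hG
  have h2 := h.GT
  have h3 := h.Ty
  have h4 : G ≤ Real.log y := by nlinarith
  have h5 : (0 : ℝ) < y := by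
    rcases (Nat.cast_nonneg (α := ℝ) y).eq_or_lt with e | e
    · rw [← e, Real.log_zero] at h4
      linarith
    · exact e
  exact ⟨h5, h4, h4.trans (Real.log_le_self h5.le)⟩

theorem ydd_pow (h : s.Ok6 v L G T W a m₀ y) {b c : ℝ} (hc : 0 < c) (hb : b ≤ c * G) :
    Real.exp (b * T) ≤ (y : ℝ) ^ c := by
  have h1 := h.hG
  have h2 := h.GT
  rw [Real.rpow_def_of_pos (ydd_y h).1]
  refine Real.exp_le_exp.2 ?_
  have h3 : b * T ≤ c * G * T := mul_le_mul_of_nonneg_right hb (by linarith)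
  have h4 : c * (G * T) ≤ c * Real.log y := mul_le_mul_of_nonneg_left h.Ty hc.le
  nlinarith

theorem ydd_Z (h : s.Ok6 v L G T W a m₀ y) (hN : (s.N : ℝ) ≤ T) (c : ι) :
    ∃ Z : Finset (s.Cu c → M2), (#Z : ℝ) ≤ Real.exp (n * (5 * T)) ∧
      ∀ ζ : s.Cu c → M2, (∀ k : s.Cu c, RPm s.N (v.dg k) (ζ k)) → ζ ∈ Z := by
  choose Z hZ hZ' using fun d => xdc_rp h.N_pos d
  refine ⟨Fintype.piFinset fun k : s.Cu c => Z (v.dg k), ?_,
    fun ζ hζ => Fintype.mem_piFinset.2 fun k => hZ' _ _ (hζ k)⟩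
  have h1 : ∀ k : s.Cu c, (#(Z (v.dg k)) : ℝ) ≤ Real.exp (5 * T) := fun k => by
    have b1 := xdc_pow_exp (Nat.cast_nonneg _) (hN.trans (xdc_le_exp T)) 3
    have b2 := xdc_pow_exp (Nat.cast_nonneg _) (h.deg k k.2.1).2.1 2
    have b3 := xdc_mul_exp (by positivity) b1 b2
    have b4 : (#(Z (v.dg k)) : ℝ) ≤ (s.N : ℝ) ^ 3 * (v.dg k : ℝ) ^ 2 := by
      exact_mod_cast hZ _
    refine b4.trans (b3.trans (le_of_eq ?_))
    have e : ((3 : ℕ) : ℝ) * T + ((2 : ℕ) : ℝ) * T = 5 * T := by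
      push_cast
      ring
    rw [e]
  have h2 := Finset.prod_le_prod (s := univ) (fun k _ => Nat.cast_nonneg _) fun k _ => h1 k
  rw [prod_const, ← Nat.cast_prod, ← Fintype.card_piFinset] at h2
  refine h2.trans ?_
  rw [Real.exp_nat_mul]
  refine pow_le_pow_right₀ (Real.one_le_exp (by linarith [h.hG, h.GT])) ?_
  simpa using Fintype.card_subtype_le fun k : Fin n => k ∈ s.J ∧ s.bs k = c

theorem ydd_ad (h : s.Ok6 v L G T W a m₀ y) {q q₀ : ℕ} (h₀ : q₀.Coprime (s.dd v)) (hq : q ∈ v.P)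
    {c : ι} {ζ : s.Cu c → M2} (hζ : ∀ k : s.Cu c, RPm s.N (v.dg k) (ζ k)) (k : s.Cu c) :
    Ad (q₀ * q) (ζ k) ∧ s.N * (ζ k).det.natAbs ∣ s.N * s.dd v := by
  obtain ⟨γ, η, hη, e⟩ := hζ k
  obtain ⟨d0, d1⟩ := mem_Hn hη
  have hd : (ζ k).det = v.dg k := by
    rw [e, Matrix.det_mul, Matrix.SpecialLinearGroup.det_coe, one_mul, d1]
  have hdv : v.dg k ∣ s.dd v := dvd_prod_of_mem _ k.2.1
  have hp := h.pP q hq
  have hqd : q.Coprime (s.dd v) := (Nat.Prime.coprime_iff_not_dvd hp.1).2 fun hh =>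
    hp.2.2.2 ((Int.natCast_dvd_natCast.2 hh).trans ⟨2 * s.N * v.E, by ring⟩)
  refine ⟨⟨by rw [hd]; exact_mod_cast d0, ?_⟩, ?_⟩
  · rw [hd]
    exact Nat.isCoprime_iff_coprime.2
      (Nat.Coprime.coprime_dvd_left hdv (Nat.Coprime.mul_left h₀ hqd).symm)
  · rw [hd, Int.natAbs_natCast]
    exact Nat.mul_dvd_mul_left _ hdv

theorem ydd_prod (h : s.Ok6 v L G T W a m₀ y) (he : (1600 * s.e : ℝ) ≤ G) :
    ((∏ j, v.l j ^ (2 * s.e) : ℕ) : ℝ) ^ 400 ≤ Real.exp W := by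
  obtain ⟨-, -, -, -, n5⟩ := h.num
  have hG := h.hG
  have l0 : 0 ≤ Real.log y := by linarith [(ydd_y h).2.1]
  have b1 : ∀ j, ((v.l j ^ (2 * s.e) : ℕ) : ℝ) ≤
      Real.exp ((2 * s.e : ℕ) * (2 * Real.log y)) := fun j => by
    have p0 : (0 : ℝ) < v.l j := by exact_mod_cast (h.pl j).1.1.pos
    rw [Nat.cast_pow]
    refine xdc_pow_exp p0.le ?_ _
    rw [← Real.log_le_iff_le_exp p0]
    exact n5 _ (h.pl j).1
  have b2 := Finset.prod_le_prod (s := univ) (fun j _ => Nat.cast_nonneg _) fun j _ => b1 j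
  rw [prod_const, ← Nat.cast_prod, ← Real.exp_nat_mul, card_univ, Fintype.card_fin] at b2
  refine (xdc_pow_exp (Nat.cast_nonneg _) b2 400).trans (Real.exp_le_exp.2 (le_trans ?_ h.yW))
  have b3 : (1600 * s.e : ℝ) * (v.M * Real.log y) ≤ G * (v.M * Real.log y) :=
    mul_le_mul_of_nonneg_right he (by positivity)
  push_cast
  nlinarith

end

theorem bad6_prob {ε : ℝ} (hε : 0 < ε) : ∃ c₁ : ℝ, 0 < c₁ ∧ c₁ ≤ 1 ∧ ∀ (n : ℕ) (ι : Type)
    (s : Shp n ι) (K : ℝ) (Rn : Finset ℍ), 0 < K → (∀ w ∈ Rn, w ∈ ModularGroup.fd) → ∃ G₀ : ℝ,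
    ∀ (v : VD n) (L G T W : ℝ) (a m₀ y q q₀ : ℕ) (c : ι) (𝒢 : (s.Cu c → M2) → (ℍ →ᵇ ℝ)),
    G₀ ≤ G → s.Ok6 v L G T W a m₀ y → Fam s.N q₀ K 𝒢 → q₀.Coprime (s.dd v) → q ∈ v.P →
    q.Coprime q₀ → prb (LB s.e v.l) (s.Bad6 v c 𝒢 q ε ((y : ℝ) ^ (-c₁)) Rn) ≤
      (y : ℝ) ^ (-(c₁ / 2)) := by
  obtain ⟨c₁, hc, hc1, H⟩ := cube_bad hε
  refine ⟨c₁, hc, hc1, fun n ι s K Rn hK hR => ?_⟩
  rcases Nat.eq_zero_or_pos s.e with e0 | e0
  · exact ⟨0, fun v L G T W a m₀ y q q₀ c 𝒢 _ h => absurd h.e_pos (by omega)⟩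
  obtain ⟨y₀, H⟩ := H s.e (2 * K) Rn e0 (by positivity) hR
  refine ⟨y₀ + s.N + #Rn + (10 * n + 2) / c₁,
    fun v L G T W a m₀ y q q₀ c 𝒢 hG h hF h₀ hq hq₀ => ?_⟩
  have n1 : (0 : ℝ) ≤ s.N := Nat.cast_nonneg _
  have n2 : (0 : ℝ) ≤ y₀ := Nat.cast_nonneg _
  have n3 : (0 : ℝ) ≤ #Rn := Nat.cast_nonneg _
  have n4 : (0 : ℝ) ≤ (10 * n + 2) / c₁ := by positivity
  have n5 : (0 : ℝ) ≤ n := Nat.cast_nonneg _
  have n6 : (10 * n + 2 : ℝ) ≤ G * c₁ := (div_le_iff₀ hc).1 (by linarith)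
  have GT := h.GT
  obtain ⟨y0, -, yG⟩ := ydd_y h
  have hy : y₀ ≤ y := by
    have : (y₀ : ℝ) ≤ y := by linarith
    exact_mod_cast this
  have hp := h.pP q hq
  have hqN : ¬ q ∣ s.N := fun hh =>
    hp.2.2.2 ((Int.natCast_dvd_natCast.2 hh).trans ⟨2 * v.E * s.dd v, by ring⟩)
  have hM : ((s.N * s.dd v : ℕ) : ℝ) ≤ (y : ℝ) ^ c₁ := by
    refine le_trans ?_ (ydd_pow h hc (b := 1 + n) (by linarith))
    rw [Nat.cast_mul, add_mul, one_mul]
    exact xdc_mul_exp (Nat.cast_nonneg _) (le_trans (by linarith) (xdc_le_exp T)) h.dd_le.2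
  have hT := hF.tq hK.le h.N_pos hp.1 hqN hq₀
  have key : ∀ w ∈ Rn, ∀ ζ : s.Cu c → M2, (∀ k : s.Cu c, RPm s.N (v.dg k) (ζ k)) →
      prb (LB s.e v.l) (fun Ls => (y : ℝ) ^ (-c₁) < prb (Xn q).offDiag fun ω =>
        ε < |mn univ fun S =>
          (𝒢 (up s.N q ζ ω.1) - Tq s.N q 𝒢 ζ) (act (s.rho6 v S Ls) w) *
            (𝒢 (up s.N q ζ ω.2) - Tq s.N q 𝒢 ζ) (act (s.rho6 v S Ls) w)|) ≤
        (y : ℝ) ^ (-c₁) := by
    intro w hw ζ hζ
    have hA := ydd_ad h h₀ hq hζ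
    refine H y (s.N * s.dd v) q v.M v.l (s.rho6 v)
      (fun ξ => 𝒢 (up s.N q ζ ξ) - Tq s.N q 𝒢 ζ) hy hM h.Mlo h.Mhi (h.cup hq).1 (h.cup hq).2
      (fun ξ z => ?_) (fun ξ z z' => ?_) (fun δ hδ ξ hξ z => ?_) (fun z => ?_) w hw
    · have a1 := abs_le.1 (hF.bd (up s.N q ζ ξ) z)
      have a2 := abs_le.1 (hT.bd ζ z)
      rw [BoundedContinuousFunction.sub_apply, abs_le]
      constructor <;> linarith [a1.1, a1.2, a2.1, a2.2]
    · have a1 := abs_le.1 (hF.lip (up s.N q ζ ξ) z z')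
      have a2 := abs_le.1 (hT.lip ζ z z')
      rw [BoundedContinuousFunction.sub_apply, BoundedContinuousFunction.sub_apply, abs_le]
      constructor <;> linarith [a1.1, a1.2, a2.1, a2.2]
    · rw [BoundedContinuousFunction.sub_apply, BoundedContinuousFunction.sub_apply,
        hF.up_smul h.N_pos hp.1 hqN hq₀ hA ((mem_Xn hp.1.pos).1 hξ) hδ z, hT.ginv hA δ hδ z]
    · simp only [BoundedContinuousFunction.sub_apply]
      rw [sum_sub_distrib, sum_const, nsmul_eq_mul, Tq, mnB_apply, mn]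
      rcases (Xn q).eq_empty_or_nonempty with e | hne
      · rw [e]
        simp
      · have p0 : (#(Xn q) : ℝ) ≠ 0 := by exact_mod_cast hne.card_pos.ne'
        rw [mul_div_cancel₀ _ p0, sub_self]
  obtain ⟨Z, hZ, hZ'⟩ := ydd_Z h (by linarith) c
  have main := xdc_union (LB s.e v.l) Rn _ (by positivity)
    (le_trans (by linarith) (xdc_le_exp T)) fun w hw =>
    xdc_union _ Z _ (by positivity) hZ fun ζ _ =>
    xdc_and _ _ _ (by positivity) (key w hw ζ)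
  refine le_trans (pb_mono fun Ls _ hL => ?_) (main.trans ?_)
  · obtain ⟨w, hw, ζ, h1, h2⟩ := hL
    exact ⟨w, hw, ζ, hZ' ζ h1, h1, h2⟩
  · have b1 : Real.exp T * Real.exp (n * (5 * T)) ≤ (y : ℝ) ^ (c₁ / 2) := by
      refine le_trans (le_of_eq ?_) (ydd_pow h (half_pos hc) (b := 1 + 5 * n) (by linarith))
      rw [← Real.exp_add]
      exact congrArg Real.exp (by ring)
    rw [← mul_assoc]
    refine (mul_le_mul_of_nonneg_right b1 (by positivity)).trans (le_of_eq ?_)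
    rw [← Real.rpow_add y0]
    exact congrArg _ (by ring)

theorem bad6_orb (U : ℝ) (a : ℕ) {c₁ δ : ℝ} (hc : 0 < c₁) (hδ : 0 < δ) : ∃ G₀ : ℝ,
    ∀ (v : VD n) (L G T W : ℝ) (m₀ y : ℕ), G₀ ≤ G → s.Ok6 v L G T W a m₀ y →
    ∀ (c : ι) (B : (Fin v.M → Set V2) → Prop), prb (LB s.e v.l) B ≤ (y : ℝ) ^ (-c₁) →
      prb (Orb v.τ) (fun x => s.ct x c ∈ KU U ∧ B (s.lab6 v x c)) ≤ δ := by
  obtain ⟨K, Y, A, hK, H⟩ := lin_orb6 U
  obtain ⟨T₁, hT₁⟩ := eventually_atTop.1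
    (Real.tendsto_exp_neg_atTop_nhds_zero.eventually
      (ge_mem_nhds (show 0 < δ ^ 2 / (6 * K) by positivity)))
  refine ⟨max (2 * T₁ / c₁) (max Y (max (1600 * s.e) (max 2000 ((4 + 2 * A) / c₁)))),
    fun v L G T W m₀ y hG h c B hB => ?_⟩
  obtain ⟨t1, t2⟩ := max_le_iff.1 hG
  obtain ⟨t2, t3⟩ := max_le_iff.1 t2
  obtain ⟨t3, t4⟩ := max_le_iff.1 t3
  obtain ⟨t4, t5⟩ := max_le_iff.1 t4
  have GT := h.GT
  obtain ⟨y0, yG, -⟩ := ydd_y h
  obtain ⟨-, -, n3, -, -⟩ := h.num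
  obtain ⟨l1, l2⟩ := h.large _ (s.mem c)
  have GW : G ≤ W := by
    have b1 : 1 * 1 ≤ G * T := mul_le_mul (by linarith) (by linarith) (by norm_num) (by linarith)
    have b2 : G * (1 * 1) ≤ G * (G * T) := mul_le_mul_of_nonneg_left b1 (by linarith)
    linarith
  have l0 : 0 ≤ Real.log (-(v.D (s.cr c) : ℝ)) :=
    Real.log_nonneg ((Real.one_le_exp (by linarith)).trans l1)
  have hF : Fit v.E (v.D (s.cr c)) := by
    obtain ⟨f, hf, e⟩ := h.fit _ (s.mem c)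
    exact ⟨f * s.N, Nat.mul_pos hf h.N_pos, by rw [e]; push_cast; ring⟩
  have e0 : 0 < 2 * s.e := by linarith [h.e_pos]
  have s4 : ∏ l ∈ univ.image v.l, l ^ (2 * s.e) = ∏ j, v.l j ^ (2 * s.e) :=
    prod_image h.inj.injOn
  have hQ : (0 : ℝ) < (∏ j, v.l j ^ (2 * s.e) : ℕ) := by
    exact_mod_cast prod_pos fun j _ => pow_pos (h.pl j).1.1.pos _
  have hpm : ∀ l ∈ univ.image v.l, s.Pm v y l := fun l hl => by
    obtain ⟨j, -, rfl⟩ := mem_image.1 hl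
    exact (h.pl j).1
  have hcS : (#(univ.image v.l) : ℝ) ≤ G * v.M / 2000 := by
    have b1 : #(univ.image v.l) ≤ v.M := card_image_le.trans (by simp)
    have b2 : (#(univ.image v.l) : ℝ) ≤ v.M := by exact_mod_cast b1
    have b3 : (2000 : ℝ) * v.M ≤ G * v.M := mul_le_mul_of_nonneg_right t4 (Nat.cast_nonneg _)
    linarith
  have h1 := H L n v.τ v.D h.disc (s.cr c) v.E v.b (univ.image v.l) (fun _ => 2 * s.e)
    (t2.trans (GW.trans ((xdc_le_exp _).trans l1))) (h.low _ (s.mem c)) hF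
    (fun l hl => ⟨(hpm l hl).1,
      fun hd => (hpm l hl).2.2.2 (hd.trans ⟨s.N * s.dd v, by ring⟩), e0, by
        obtain ⟨j, -, rfl⟩ := mem_image.1 hl
        exact ((pow_dvd_pow_of_dvd (Int.natCast_dvd_natCast.2
          (dvd_prod_of_mem _ (mem_univ j))) _).mul_left 4).trans h.bl⟩)
    (h.prod_le hpm hcS).2 (by
      rw [s4]
      exact_mod_cast (ydd_prod h t3).trans l1)
  rw [s4] at h1
  have h2 := transfer (Orb v.τ) (fun x => s.ct x c ∈ KU U) (fun x => s.lab6 v x c)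
    ((LB s.e v.l).filter B) (le_trans (Nat.cast_le.2 (card_le_card fun z hz => by
      simp only [mem_filter] at hz
      obtain ⟨z1, z2, z3, z4⟩ := hz
      refine mem_filter.2 ⟨z1, z2, z3, fun l hl => ?_⟩
      obtain ⟨j, -, rfl⟩ := mem_image.1 hl
      exact congrFun z4 j)) h1) (by positivity)
  have h3 : (#((LB s.e v.l).filter B) : ℝ) ≤
      (y : ℝ) ^ (-c₁) * (3 * (∏ j, v.l j ^ (2 * s.e) : ℕ)) :=
    (ydd_card _ _ hB).trans (mul_le_mul_of_nonneg_left h.card_LB (by positivity))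
  have h4 := xdc_pow_exp l0 l2 A
  have h5 := (le_div_iff₀ (by positivity)).1 (hT₁ (c₁ / 2 * Real.log y) (by
    have b1 : 2 * T₁ ≤ G * c₁ := (div_le_iff₀ hc).1 t1
    have b2 : c₁ * G ≤ c₁ * Real.log y := mul_le_mul_of_nonneg_left yG hc.le
    show T₁ ≤ _
    linarith))
  have h6 : (L ^ 2 + 1) * Real.log (-(v.D (s.cr c) : ℝ)) ^ A ≤ 2 * (y : ℝ) ^ (c₁ / 2) := by
    have b1 : 4 + 2 * A ≤ G * c₁ := (div_le_iff₀ hc).1 t5
    have b2 := ydd_pow h (half_pos hc) (b := 2 + A) (by linarith)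
    have b3 := xdc_pow_exp (abs_nonneg L) h.hL 2
    have b4 : 1 ≤ Real.exp (2 * T) := Real.one_le_exp (by linarith)
    rw [sq_abs] at b3
    push_cast at b3
    rw [add_mul, Real.exp_add] at b2
    refine (mul_le_mul (show _ ≤ 2 * Real.exp (2 * T) by linarith) h4 (by positivity)
      (by positivity)).trans ?_
    linarith
  have h7 : (y : ℝ) ^ (-c₁) * (y : ℝ) ^ (c₁ / 2) = Real.exp (-(c₁ / 2 * Real.log y)) := by
    rw [← Real.rpow_add y0, Real.rpow_def_of_pos y0]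
    exact congrArg Real.exp (by ring)
  refine le_trans (pb_mono fun x hx h0 => ?_) (le_of_sq_le_sq (h2.trans ?_) hδ.le)
  · exact ⟨h0.1, mem_filter.2 ⟨h.lab_mem hx c, h0.2⟩⟩
  · refine (mul_le_mul_of_nonneg_right h3 (by positivity)).trans (le_trans ?_ h5)
    have e : (y : ℝ) ^ (-c₁) * (3 * (∏ j, v.l j ^ (2 * s.e) : ℕ)) *
        (K * (L ^ 2 + 1) * Real.log (-(v.D (s.cr c) : ℝ)) ^ A / (∏ j, v.l j ^ (2 * s.e) : ℕ)) =
        (3 * K * (y : ℝ) ^ (-c₁)) * ((L ^ 2 + 1) * Real.log (-(v.D (s.cr c) : ℝ)) ^ A) := by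
      field_simp
    rw [e, ← h7]
    refine (mul_le_mul_of_nonneg_left h6 (by positivity)).trans (le_of_eq ?_)
    ring

end Shp

end Pool.Agent.EQ
end
end
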