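import Pool.Agent.K.MP_ad7a55_nt.C86
import Pool.Agent.K.MP_ad7a55_nt.C80

/-! Step A: the directions lie in small sets. -/

set_option autoImplicit false

noncomputable section

open MeasureTheory Topology Filter UpperHalfPlane Finset
open scoped MatrixGroups BoundedContinuousFunction Matrix Classical

namespace Pool.Agent.EQ

theorem yde_sub {α : Type} {O : Finset α} (hO : O.Nonempty) {A B : α → ℝ} {c : ℝ}
    (h : ∀ x ∈ O, |A x - B x| ≤ c) : |mn O A - mn O B| ≤ c := by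
  have e : mn O A - mn O B = mn O fun x => A x - B x := by
    unfold mn
    rw [← sub_div, ← Finset.sum_sub_distrib]
  rw [e]
  exact (abs_mn_le _ _).trans ((mn_mono h).trans (mn_const hO c).le)

theorem yde_num {q y X m : ℕ} (hq : 0 < q) (hy : q ≤ 2 * y) (hX : (X : ℝ) ≤ 2 * q) (hm : m ≠ 0)
    {τ c : ℝ} (hτ : 0 < τ) (hc : 0 < c) (hc' : c ≤ 1) :
    m * (4 / τ ^ 2 + 2 * Real.sqrt ((y : ℝ) ^ (-c)) * X / τ) * (X : ℝ) ^ (m - 1) ≤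
      m * (4 / τ ^ 2 + 8 / τ) * 2 ^ m * (q : ℝ) ^ (m - c / 2 : ℝ) := by
  obtain ⟨j, rfl⟩ := Nat.exists_eq_succ_of_ne_zero hm
  have q0 : (0 : ℝ) < q := by exact_mod_cast hq
  have q1 : (1 : ℝ) ≤ q := by exact_mod_cast hq
  have y1 : (q : ℝ) / 2 ≤ y := by
    have : (q : ℝ) ≤ 2 * y := by exact_mod_cast hy
    linarith
  obtain ⟨r, hr⟩ : ∃ r : ℝ, r = (q : ℝ) ^ (-(c / 2)) := ⟨_, rfl⟩
  have r0 : 0 < r := by rw [hr]; positivity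
  have e1 : (q : ℝ) ^ ((j.succ : ℕ) - c / 2 : ℝ) = (q : ℝ) ^ j * (q * r) := by
    rw [sub_eq_add_neg, Real.rpow_add q0, Real.rpow_natCast, ← hr, pow_succ, mul_assoc]
  have r1 : 1 ≤ q * r := by
    have h1 : (q : ℝ) * r = (q : ℝ) ^ (1 + -(c / 2)) := by
      rw [Real.rpow_add q0, Real.rpow_one, hr]
    rw [h1]
    exact Real.one_le_rpow q1 (by linarith)
  have r2 : Real.sqrt ((y : ℝ) ^ (-c)) ≤ 2 * r := by
    rw [Real.sqrt_eq_rpow, ← Real.rpow_mul (Nat.cast_nonneg y),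
      show -c * (1 / 2) = -(c / 2) by ring]
    refine (Real.rpow_le_rpow_of_nonpos (half_pos q0) y1 (by linarith)).trans ?_
    rw [Real.div_rpow q0.le zero_le_two, ← hr, div_le_iff₀ (by positivity)]
    have h2 : (2 : ℝ) * 2 ^ (-(c / 2)) = 2 ^ (1 + -(c / 2)) := by
      rw [Real.rpow_add two_pos, Real.rpow_one]
    have h3 : (1 : ℝ) ≤ 2 * 2 ^ (-(c / 2)) := by
      rw [h2]
      exact Real.one_le_rpow one_le_two (by linarith)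
    nlinarith
  have h4 : (X : ℝ) ^ j ≤ 2 ^ j.succ * (q : ℝ) ^ j := by
    refine (pow_le_pow_left₀ (Nat.cast_nonneg _) hX j).trans ?_
    rw [mul_pow]
    exact mul_le_mul_of_nonneg_right (pow_le_pow_right₀ one_le_two (Nat.le_succ j)) (by positivity)
  have h5 : 4 / τ ^ 2 + 2 * Real.sqrt ((y : ℝ) ^ (-c)) * X / τ ≤ (4 / τ ^ 2 + 8 / τ) * (q * r) := by
    rw [add_mul]
    refine add_le_add (le_mul_of_one_le_right (by positivity) r1) ?_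
    rw [div_mul_eq_mul_div]
    refine div_le_div_of_nonneg_right ?_ hτ.le
    have h6 := mul_le_mul r2 hX (Nat.cast_nonneg _) (by positivity)
    linarith
  rw [Nat.succ_sub_one, e1]
  refine (mul_le_mul (mul_le_mul_of_nonneg_left h5 (Nat.cast_nonneg _)) h4 (by positivity)
    (by positivity)).trans (le_of_eq ?_)
  ring

theorem yde_one {α β ι : Type} [Fintype ι] [Nonempty ι] [Fintype β] (X : Finset α)
    (F : ι → α → (ℍ →ᵇ ℝ)) (T : ι → (ℍ →ᵇ ℝ)) (pt : ι → β → ℍ) (W : β → ℝ) {t e σ : ℝ}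
    (ht : 0 < t) (hs : 0 ≤ σ) (hF : ∀ c ξ z, |F c ξ z| ≤ 1 / 2) (hT : ∀ c z, |T c z| ≤ 1 / 2)
    (hW : ∀ i, |W i| ≤ 1)
    (h : ∀ c, ¬ σ < prb X.offDiag fun ω => e < |mn univ fun S =>
      (F c ω.1 - T c) (pt c S) * (F c ω.2 - T c) (pt c S)|)
    (he : 2 * e ≤ (t / Fintype.card ι) ^ 2) :
    (#{ξ ∈ Fintype.piFinset fun _ : ι => X | t ≤ |mn univ fun S => W S *
      (∏ c, F c (ξ c) (pt c S) - ∏ c, T c (pt c S))|} : ℝ) ≤
      Fintype.card ι * (4 / (t / Fintype.card ι) ^ 2 +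
        2 * Real.sqrt σ * #X / (t / Fintype.card ι)) * (#X : ℝ) ^ (Fintype.card ι - 1) :=
  cor_count6 univ X (fun c ξ S => F c ξ (pt c S)) (fun c S => T c (pt c S)) W ht hs
    (fun c ξ _ S => ⟨(hF c ξ _).trans (by norm_num), (abs_sub _ _).trans
      ((add_le_add (hF c ξ _) (hT c _)).trans (by norm_num))⟩)
    (fun c S => (hT c _).trans (by norm_num)) hW (fun c => le_of_not_gt (h c)) he

namespace Shp

variable {n : ℕ} {ι : Type} [Fintype ι] (s : Shp n ι)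

/-- The correlation event read from the coarse data. -/
def Cor6 (v : VD n) (𝒢 : s.Fm) (Ws : Wt v) (t : ℝ) (q : ℕ) (b : Cty6 n ι v.M)
    (ξ : ι → Set V2) : Prop :=
  ∃ W ∈ Ws b.1, ∃ γ : Fin n → vcjQ s.N, t ≤ |mn univ fun S => W S *
    (∏ c, 𝒢 c (up s.N q (s.zt6 γ b.2.1 c) (ξ c))
        (act (s.rho6 v S (b.2.2.2 c)) ((b.2.2.1 c).getD UpperHalfPlane.I)) -
      ∏ c, Tq s.N q (𝒢 c) (s.zt6 γ b.2.1 c)
        (act (s.rho6 v S (b.2.2.2 c)) ((b.2.2.1 c).getD UpperHalfPlane.I)))|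

variable {s} {v : VD n} {L G T W K U t ε : ℝ} {a m₀ y q q₀ B : ℕ} {x : Fin n → ℂ} {𝒢 : s.Fm}
  {Ws : Wt v} {cl : ℍ → ℍ}

omit [Fintype ι] in
theorem yde_zt (γ : Fin n → vcjQ s.N) (c : ι) :
    s.zt6 γ (s.C6 v U cl x).2.1 c = s.zt6 γ (s.hk v x) c := funext fun k => by
  simp only [zt6, C6, if_pos k.2.1]

omit [Fintype ι] in
theorem yde_cel {c : ι} (hI : s.ct x c ∈ KU U) :
    ((s.C6 v U cl x).2.2.1 c).getD UpperHalfPlane.I = cl (s.ct x c) := by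
  simp only [C6, cel, if_pos hI, Option.getD_some]

omit [Fintype ι] in
theorem yde_rho (h : s.Ok6 v L G T W a m₀ y) (hx : x ∈ Orb v.τ) (c : ι) (S : Finset (Fin v.M)) :
    0 < (s.rho6 v S (s.lab6 v x c)).det := by
  rw [(h.rho_spec S _ (h.lab_mem hx c)).1]
  exact_mod_cast pow_pos (prod_pos fun j _ => (h.pl j).1.1.pos) _

omit [Fintype ι] in
theorem yde_line (h : s.Ok6 v L G T W a m₀ y) (hx : x ∈ Orb v.τ) (hq : q ∈ v.P) (c : ι) :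
    IsLn q (Ker q (s.A v x c)) := by
  obtain ⟨h1, h2, -⟩ := h.et_spec (singleton_subset_iff.2 hq) hx c
  rw [prod_singleton] at h1
  have hp := (h.pP q hq).1
  rw [← h2 q (mem_singleton_self q)]
  refine isLn_Ker_prime hp (by rw [h1]) ?_
  rw [h1]
  intro h3
  have h4 : q ^ 2 ∣ q := by exact_mod_cast h3
  have h5 := Nat.le_of_dvd hp.pos h4
  have h6 := hp.two_le
  nlinarith

theorem yde_tq {κ : Type} {N : ℕ} {F : (κ → M2) → (ℍ →ᵇ ℝ)} (hF : Fam N q₀ K F) (ζ : κ → M2)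
    (z : ℍ) : |Tq N q F ζ z| ≤ 1 / 2 :=
  abs_mnB_le (by norm_num) fun _ _ => hF.bd _ z

theorem yde_cor (hI : ∀ c, s.ct x c ∈ KU U) (ξ : ι → Set V2) :
    s.Cor6 v 𝒢 Ws t q (s.C6 v U cl x) ξ ↔ ∃ W ∈ Ws (s.sm x), ∃ γ : Fin n → vcjQ s.N,
      t ≤ |mn univ fun S => W S *
        (∏ c, 𝒢 c (up s.N q (s.zt6 γ (s.hk v x) c) (ξ c))
            (act (s.rho6 v S (s.lab6 v x c)) (cl (s.ct x c))) -
          ∏ c, Tq s.N q (𝒢 c) (s.zt6 γ (s.hk v x) c)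
            (act (s.rho6 v S (s.lab6 v x c)) (cl (s.ct x c))))| := by
  unfold Cor6
  simp only [yde_zt, fun c => yde_cel (cl := cl) (v := v) (hI c)]
  exact Iff.rfl

theorem Ok6.cor_of_ea (h : s.Ok6 v L G T W a m₀ y) (hK : 0 ≤ K) (hF : ∀ c, Fam s.N q₀ K (𝒢 c))
    (hcl : ∀ τ ∈ KU U, dist τ (cl τ) ≤ ε) (hW : WB B Ws) (hx : x ∈ Orb v.τ)
    (hI : ∀ c, s.ct x c ∈ KU U) (hE : s.EA v 𝒢 Ws t q x) :
    s.Cor6 v 𝒢 Ws (t - 2 * Fintype.card ι * K * ε) q (s.C6 v U cl x)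
      fun c => Ker q (s.A v x c) := by
  obtain ⟨V, hV, γ, hγ⟩ := hE
  refine (yde_cor hI _).2 ⟨V, hV, γ, ?_⟩
  have h3 : ∀ A B : ℝ, t ≤ |A| → |A - B| ≤ 2 * Fintype.card ι * K * ε →
      t - 2 * Fintype.card ι * K * ε ≤ |B| := fun A B h4 h5 => by
    have h6 := abs_sub_abs_le_abs_sub A B
    linarith
  refine h3 _ _ hγ (yde_sub univ_nonempty fun S _ => ?_)
  have hd : ∀ c, K * dist (s.pt6 v x c S) (act (s.rho6 v S (s.lab6 v x c)) (cl (s.ct x c))) ≤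
      K * ε := fun c => by
    refine mul_le_mul_of_nonneg_left ?_ hK
    rw [pt6, dist_act (yde_rho h hx c S)]
    exact hcl _ (hI c)
  have b1 : ∀ c ζ z, |𝒢 c ζ z| ≤ 1 := fun c ζ z => ((hF c).bd ζ z).trans (by norm_num)
  have b2 : ∀ c ζ z, |Tq s.N q (𝒢 c) ζ z| ≤ 1 := fun c ζ z =>
    (yde_tq (hF c) ζ z).trans (by norm_num)
  have p1 := xdd_prod univ
    (fun c => 𝒢 c (up s.N q (s.zt6 γ (s.hk v x) c) (Ker q (s.A v x c))) (s.pt6 v x c S))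
    (fun c => 𝒢 c (up s.N q (s.zt6 γ (s.hk v x) c) (Ker q (s.A v x c)))
      (act (s.rho6 v S (s.lab6 v x c)) (cl (s.ct x c)))) (ε := K * ε)
    fun c _ => ⟨b1 _ _ _, b1 _ _ _, ((hF c).lip _ _ _).trans (hd c)⟩
  have p2 := xdd_prod univ
    (fun c => Tq s.N q (𝒢 c) (s.zt6 γ (s.hk v x) c) (s.pt6 v x c S))
    (fun c => Tq s.N q (𝒢 c) (s.zt6 γ (s.hk v x) c)
      (act (s.rho6 v S (s.lab6 v x c)) (cl (s.ct x c)))) (ε := K * ε)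
    fun c _ => ⟨b2 _ _ _, b2 _ _ _,
      (Lip.mnB hK (fun ξ _ => (hF c).lip (up s.N q (s.zt6 γ (s.hk v x) c) ξ)) _ _).trans (hd c)⟩
  rw [card_univ] at p1 p2
  rw [← mul_sub, abs_mul, sub_sub_sub_comm]
  refine (mul_le_of_le_one_left (abs_nonneg _) ((hW _).2 V hV S)).trans
    ((abs_sub _ _).trans ((add_le_add p1 p2).trans (le_of_eq ?_)))
  ring

theorem Ok6.card_cor6 [Nonempty ι] (h : s.Ok6 v L G T W a m₀ y) (hF : ∀ c, Fam s.N q₀ K (𝒢 c))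
    (ht : 0 < t) (hW : WB B Ws) {Rn : Finset ℍ} (hcl : ∀ τ ∈ KU U, cl τ ∈ Rn)
    (he : 2 * ε ≤ (t / Fintype.card ι) ^ 2) {c₁ : ℝ} (hc : 0 < c₁) (hc' : c₁ ≤ 1)
    (hx : x ∈ Orb v.τ) (hI : ∀ c, s.ct x c ∈ KU U) (hq : q ∈ v.P)
    (hB : ∀ c, ¬ s.Bad6 v c (𝒢 c) q ε ((y : ℝ) ^ (-c₁)) Rn (s.lab6 v x c)) :
    (#{ξ ∈ YQ ι q | s.Cor6 v 𝒢 Ws t q (s.C6 v U cl x) ξ} : ℝ) ≤
      B * (s.N : ℝ) ^ (3 * n) * (Fintype.card ι * (4 / (t / Fintype.card ι) ^ 2 +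
        8 / (t / Fintype.card ι)) * 2 ^ Fintype.card ι) *
        (q : ℝ) ^ (Fintype.card ι - c₁ / 2 : ℝ) := by
  obtain ⟨hp, -, hy, -⟩ := h.pP q hq
  have hfin := vcj_fin h.N_pos
  have hft : Fintype (vcjQ s.N) := Fintype.ofFinite _
  have hm : (0 : ℝ) < Fintype.card ι := Nat.cast_pos.2 Fintype.card_pos
  have h1 : (#(Xn q) : ℝ) ≤ 2 * q := by
    have h2 := card_Xn_prime hp
    have h3 := hp.pos
    exact_mod_cast (show (Xn q).card ≤ 2 * q by omega)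
  have h2 : (#(univ : Finset (Fin n → vcjQ s.N)) : ℝ) ≤ (s.N : ℝ) ^ (3 * n) := by
    rw [card_univ, Fintype.card_fun, Fintype.card_fin, ← Nat.card_eq_fintype_card, pow_mul]
    exact_mod_cast Nat.pow_le_pow_left (index_Gamma_le h.N_pos) n
  have h4 : ({ξ ∈ YQ ι q | s.Cor6 v 𝒢 Ws t q (s.C6 v U cl x) ξ} : Finset (ι → Set V2)) ⊆
      (Ws (s.sm x) ×ˢ (univ : Finset (Fin n → vcjQ s.N))).biUnion
        fun p => {ξ ∈ Fintype.piFinset fun _ : ι => Xn q | t ≤ |mn univ fun S => p.1 S *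
          (∏ c, 𝒢 c (up s.N q (s.zt6 p.2 (s.hk v x) c) (ξ c))
              (act (s.rho6 v S (s.lab6 v x c)) (cl (s.ct x c))) -
            ∏ c, Tq s.N q (𝒢 c) (s.zt6 p.2 (s.hk v x) c)
              (act (s.rho6 v S (s.lab6 v x c)) (cl (s.ct x c))))|} := fun ξ hξ => by
    obtain ⟨h5, h8⟩ := mem_filter.1 hξ
    obtain ⟨V, h6, γ, h7⟩ := (yde_cor hI ξ).1 h8
    exact mem_biUnion.2 ⟨(V, γ), mem_product.2 ⟨h6, mem_univ _⟩, mem_filter.2 ⟨h5, h7⟩⟩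
  refine (Nat.cast_le.2 ((card_le_card h4).trans card_biUnion_le)).trans ?_
  rw [Nat.cast_sum]
  have h9 := yde_num (m := Fintype.card ι) hp.pos hy h1 Fintype.card_ne_zero (div_pos ht hm) hc hc'
  refine le_trans (sum_le_sum fun p hp' => (yde_one (Xn q)
    (fun c ξ => 𝒢 c (up s.N q (s.zt6 p.2 (s.hk v x) c) ξ))
    (fun c => Tq s.N q (𝒢 c) (s.zt6 p.2 (s.hk v x) c))
    (fun c S => act (s.rho6 v S (s.lab6 v x c)) (cl (s.ct x c))) p.1 ht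
    (Real.rpow_nonneg (Nat.cast_nonneg y) (-c₁)) (fun c ξ z => (hF c).bd _ z)
    (fun c z => yde_tq (hF c) _ z) ((hW _).2 _ (mem_product.1 hp').1)
    (fun c hlt => hB c ⟨cl (s.ct x c), hcl _ (hI c), s.zt6 p.2 (s.hk v x) c,
      fun k => ⟨p.2 k, _, (h.hk_spec hx k.2.1).1, rfl⟩, hlt⟩) he).trans h9) ?_
  rw [sum_const, card_product, nsmul_eq_mul, Nat.cast_mul]
  have h5 : (#(Ws (s.sm x)) : ℝ) ≤ B := Nat.cast_le.2 (hW _).1
  rw [mul_assoc (B * (s.N : ℝ) ^ (3 * n))]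
  refine mul_le_mul_of_nonneg_right (mul_le_mul h5 h2 (Nat.cast_nonneg _) (Nat.cast_nonneg _)) ?_
  have h10 := div_pos ht hm
  positivity

theorem stepA6 (ι : Type) [Fintype ι] [Nonempty ι] {t : ℝ} (ht : 0 < t) : ∃ c₀ : ℝ, 0 < c₀ ∧
    ∀ (n : ℕ) (s : Shp n ι) (K U θ : ℝ) (a B : ℕ), 0 < K → 0 < θ →
    ∃ (cl : ℍ → ℍ) (Rn : Finset ℍ) (C G₀ : ℝ), (∀ τ ∈ KU U, cl τ ∈ Rn) ∧
    ∀ (v : VD n) (L G T W : ℝ) (m₀ y q q₀ : ℕ) (𝒢 : s.Fm) (Ws : Wt v), G₀ ≤ G →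
      s.Ok6 v L G T W a m₀ y → (∀ c, Fam s.N q₀ K (𝒢 c)) → q₀.Coprime (s.dd v) → q ∈ v.P →
      q.Coprime q₀ → WB B Ws → θ ≤ prb (Orb v.τ) (s.EA v 𝒢 Ws t q) →
      prb (Orb v.τ) (fun x => ¬ ∀ c, s.ct x c ∈ KU U) ≤ θ / 4 →
      ∃ R : Cty6 n ι v.M → Finset (ι → Set V2),
        (∀ b, (#(R b) : ℝ) ≤ C * (q : ℝ) ^ (Fintype.card ι - c₀ : ℝ)) ∧
        θ / 2 ≤ prb (Orb v.τ) fun x => (∀ c, s.ct x c ∈ KU U) ∧
          (fun c => Ker q (s.A v x c)) ∈ R (s.C6 v U cl x) := by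
  have hm : (0 : ℝ) < Fintype.card ι := Nat.cast_pos.2 Fintype.card_pos
  have hε : 0 < (t / 2 / Fintype.card ι) ^ 2 / 2 := by positivity
  obtain ⟨c₁, hc, hc', hbad⟩ := bad6_prob hε
  refine ⟨c₁ / 2, half_pos hc, fun n s K U θ a B hK hθ => ?_⟩
  obtain ⟨Rn, cl, hR, hcl, -⟩ := exists_net U (r := t / (4 * Fintype.card ι * K)) (by positivity)
  obtain ⟨G₁, hG₁⟩ := hbad n ι s K Rn hK fun w hw => (hR w hw).1
  obtain ⟨G₂, hG₂⟩ := s.bad6_orb U a (half_pos hc) (δ := θ / (4 * Fintype.card ι)) (by positivity)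
  refine ⟨cl, Rn, B * (s.N : ℝ) ^ (3 * n) * (Fintype.card ι * (4 / (t / 2 / Fintype.card ι) ^ 2 +
    8 / (t / 2 / Fintype.card ι)) * 2 ^ Fintype.card ι), max G₁ G₂, fun τ hτ => (hcl τ hτ).1,
    fun v L G T W m₀ y q q₀ 𝒢 Ws hG h hF h₀ hq hq₀ hW hE hI => ?_⟩
  obtain ⟨g1, g2⟩ := max_le_iff.1 hG
  refine ⟨fun b => if ∃ x ∈ Orb v.τ, (∀ c, s.ct x c ∈ KU U) ∧
      (∀ c, ¬ s.Bad6 v c (𝒢 c) q ((t / 2 / Fintype.card ι) ^ 2 / 2) ((y : ℝ) ^ (-c₁)) Rn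
        (s.lab6 v x c)) ∧
      s.C6 v U cl x = b then {ξ ∈ YQ ι q | s.Cor6 v 𝒢 Ws (t / 2) q b ξ} else ∅, fun b => ?_, ?_⟩
  · beta_reduce
    split_ifs with h1
    · obtain ⟨x, hx, h2, h3, rfl⟩ := h1
      exact h.card_cor6 hF (half_pos ht) hW (fun τ hτ => (hcl τ hτ).1) (le_of_eq (by ring)) hc hc'
        hx h2 hq h3
    · rw [card_empty, Nat.cast_zero]
      positivity
  · have h2 := (pb_exists (Orb v.τ) univ fun c x => s.ct x c ∈ KU U ∧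
      s.Bad6 v c (𝒢 c) q ((t / 2 / Fintype.card ι) ^ 2 / 2) ((y : ℝ) ^ (-c₁)) Rn
        (s.lab6 v x c)).trans
      (sum_le_sum fun c _ => hG₂ v L G T W m₀ y g2 h c _
        (hG₁ v L G T W a m₀ y q q₀ c (𝒢 c) g1 h (hF c) h₀ hq hq₀))
    rw [sum_const, card_univ, nsmul_eq_mul,
      show (Fintype.card ι : ℝ) * (θ / (4 * Fintype.card ι)) = θ / 4 by field_simp] at h2
    have h3 := (pb_or _ _ _).trans (add_le_add hI h2)
    have h4 := (sub_le_sub hE h3).trans (pb_sub _ _ _)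
    refine le_trans (le_of_eq (by ring)) (h4.trans (pb_mono fun x hx h5 => ?_))
    obtain ⟨h5, h6⟩ := h5
    rw [not_or, not_not] at h6
    refine ⟨h6.1, ?_⟩
    beta_reduce
    rw [if_pos ⟨x, hx, h6.1, fun c h7 => h6.2 ⟨c, mem_univ c, h6.1 c, h7⟩, rfl⟩]
    have h8 := h.cor_of_ea hK.le hF (fun τ hτ => (hcl τ hτ).2) hW hx h6.1 h5
    rw [show t - 2 * Fintype.card ι * K * (t / (4 * Fintype.card ι * K)) = t / 2 by
      field_simp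
      ring] at h8
    exact mem_filter.2 ⟨Fintype.mem_piFinset.2 fun c =>
      (mem_Xn (h.pP q hq).1.pos).2 (yde_line h hx hq c), h8⟩

end Shp

end Pool.Agent.EQ
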