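import Pool.Agent.K.MP_ad7a55_nt.C88
import Pool.Agent.K.MP_ad7a55_nt.C72
import Pool.Agent.K.MP_ad7a55_nt.C61
import Pool.Agent.K.MP_ad7a55_nt.C80
import Pool.Agent.K.MP_ad7a55_nt.C86
import Pool.Agent.K.MP_ad7a55_nt.C81
import Pool.Agent.K.MP_ad7a55_nt.C87
import Pool.Agent.K.MP_ad7a55_nt.C83
import Pool.Agent.K.MP_ad7a55_nt.C77

-- part Pool.Agent.P.MP_ad7a55_nt.YDf
section

/-! The rigidity theorem excludes correlated directions. -/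

set_option autoImplicit false

noncomputable section

open MeasureTheory Topology Filter UpperHalfPlane Finset
open scoped MatrixGroups BoundedContinuousFunction Matrix Classical

namespace Pool.Agent.EQ

theorem ydf_grow (K : ℝ) (m : ℕ) {ε : ℝ} (hε : 0 < ε) : ∃ X₀ : ℝ, ∀ X : ℝ, X₀ ≤ X → 0 ≤ X →
    K * X ^ m ≤ Real.exp (ε * X) := by
  refine ⟨K * (m + 1).factorial / ε ^ (m + 1), fun X h1 h2 => ?_⟩
  have h3 := Real.pow_div_factorial_le_exp (ε * X) (by positivity) (m + 1)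
  have h4 : (0 : ℝ) < (m + 1).factorial := by positivity
  rw [div_le_iff₀ (by positivity)] at h1
  refine le_trans ?_ h3
  rw [le_div_iff₀ h4, mul_pow, pow_succ X]
  have h6 : (0 : ℝ) ≤ X ^ m := by positivity
  nlinarith [mul_le_mul_of_nonneg_left h1 h6]

namespace Shp

variable {n : ℕ} {ι : Type} [Fintype ι]

omit [Fintype ι] in
theorem Ok6.ydf_num {s : Shp n ι} {v : VD n} {L G T W : ℝ} {a m₀ y : ℕ}
    (h : s.Ok6 v L G T W a m₀ y) : G ≤ Real.log y ∧ 100 * T ≤ Real.log y ∧ 10000 * G ≤ W ∧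
      Real.exp (Real.log y) = y ∧ ∀ k ∈ s.J, G ≤ -(v.D k : ℝ) := by
  obtain ⟨-, h2, h3, -⟩ := h.num
  have hG := h.hG
  have hT := h.GT
  have h4 : G ≤ Real.log y := by nlinarith
  have h5 : 100 * T ≤ Real.log y := by nlinarith [h.Ty]
  have h6 : 10000 * G ≤ W := by
    have h7 : (10000 : ℝ) ≤ G * T := by nlinarith
    nlinarith
  refine ⟨h4, h5, h6, Real.exp_log ?_, fun k hk => ?_⟩
  · rcases Nat.eq_zero_or_pos y with h0 | h0
    · rw [h0, Nat.cast_zero, Real.log_zero] at h4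
      linarith
    · exact_mod_cast h0
  · linarith [(h.large k hk).1, Real.add_one_le_exp W]

omit [Fintype ι] in
theorem Ok6.ydf_pr {s : Shp n ι} {v : VD n} {L G T W : ℝ} {a m₀ y : ℕ}
    (h : s.Ok6 v L G T W a m₀ y) {q : ℕ} (hq : q ∈ v.P) :
    q.Prime ∧ ¬ (q : ℤ) ∣ 2 * v.E ∧ (q : ℤ) ∣ v.b ^ 2 - v.E := by
  refine ⟨(h.pP q hq).1, fun hd => (h.pP q hq).2.2.2 (hd.trans ⟨s.N * s.dd v, by ring⟩), ?_⟩
  exact ((Int.natCast_dvd_natCast.2 (dvd_prod_of_mem (fun q => q) hq)).mul_left 4).trans h.bP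

omit [Fintype ι] in
theorem Ok6.ydf_fit {s : Shp n ι} {v : VD n} {L G T W : ℝ} {a m₀ y : ℕ}
    (h : s.Ok6 v L G T W a m₀ y) (c : ι) : Fit v.E (v.D (s.cr c)) :=
  (h.fit _ (s.mem c)).trans (fit_sq h.N_pos _)

omit [Fintype ι] in
theorem Ok6.ydf_const {s : Shp n ι} {v : VD n} {L G T W K X : ℝ} {a m₀ y m : ℕ}
    (h : s.Ok6 v L G T W a m₀ y) (hK : 0 ≤ K) (hX : X ≤ 2 * Real.exp (2 * T))
    (hg : 2 * K + m + 2 ≤ G) : K * X * Real.exp T ^ m ≤ y := by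
  obtain ⟨n1, n2, -, n4, -⟩ := h.ydf_num
  have hG := h.hG
  have hT := h.GT
  have h2 : 2 * K ≤ Real.exp (2 * K * T) := by
    have h3 : 2 * K * 1 ≤ 2 * K * T := mul_le_mul_of_nonneg_left (by linarith) (by linarith)
    linarith [Real.add_one_le_exp (2 * K * T)]
  calc K * X * Real.exp T ^ m ≤ K * (2 * Real.exp (2 * T)) * Real.exp T ^ m :=
        mul_le_mul_of_nonneg_right (mul_le_mul_of_nonneg_left hX hK) (by positivity)
    _ = 2 * K * (Real.exp (2 * T) * Real.exp T ^ m) := by ring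
    _ ≤ Real.exp (2 * K * T) * (Real.exp (2 * T) * Real.exp T ^ m) :=
        mul_le_mul_of_nonneg_right h2 (by positivity)
    _ ≤ y := by
        rw [← Real.exp_nat_mul, ← Real.exp_add, ← Real.exp_add, ← n4, Real.exp_le_exp]
        have h3 := mul_le_mul_of_nonneg_right hg (show 0 ≤ T by linarith)
        linarith [h.Ty]

theorem card_C6 (s : Shp n ι) (Rn : Finset ℍ) : ∃ C : ℝ, 1 ≤ C ∧ ∀ (v : VD n) (L G T W U : ℝ)
    (a m₀ y : ℕ) (cl : ℍ → ℍ), s.Ok6 v L G T W a m₀ y → (∀ τ ∈ KU U, cl τ ∈ Rn) →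
    (#((Orb v.τ).image (s.C6 v U cl)) : ℝ) ≤ Real.exp (C * v.M * Real.log y) := by
  refine ⟨1 + (6 * n + Fintype.card ι * #Rn + Fintype.card ι * (1 + 4 * s.e)),
    le_add_of_nonneg_right (by positivity), fun v L G T W U a m₀ y cl h hcl => ?_⟩
  have hG := h.hG
  have hT : 100 ≤ T := hG.trans h.GT
  have he := h.e_pos
  obtain ⟨n1, n2, -, n4, -⟩ := h.ydf_num
  obtain ⟨m1, -, -, -, m5⟩ := h.num
  have hsub : (Orb v.τ).image (s.C6 v U cl) ⊆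
      (Fintype.piFinset fun k => if k ∈ s.I \ s.J then (Cl_finite (v.D k)).toFinset else {0}) ×ˢ
      (Fintype.piFinset fun k => if k ∈ s.J then Hn (v.dg k) else {0}) ×ˢ
      (Fintype.piFinset fun _ : ι => insert none (Rn.image some)) ×ˢ
      (Fintype.piFinset fun _ : ι => LB s.e v.l) := by
    refine image_subset_iff.2 fun x hx => mem_product.2 ⟨?_, mem_product.2 ⟨?_,
      mem_product.2 ⟨?_, ?_⟩⟩⟩
    · refine Fintype.mem_piFinset.2 fun k => ?_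
      simp only [C6, sm]
      split_ifs with hk
      · rw [Set.Finite.mem_toFinset]
        exact ⟨_, discL_one (Orb_disc h.disc hx (h.big k)), by rw [jL_one, (fr_spec _).2]⟩
      · exact mem_singleton_self _
    · refine Fintype.mem_piFinset.2 fun k => ?_
      simp only [C6]
      split_ifs with hk
      · exact (h.hk_spec hx hk).1
      · exact mem_singleton_self _
    · refine Fintype.mem_piFinset.2 fun c => ?_
      simp only [C6, cel]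
      split_ifs with hk
      · exact mem_insert_of_mem (mem_image_of_mem _ (hcl _ hk))
      · exact mem_insert_self _ _
    · exact Fintype.mem_piFinset.2 fun c => h.lab_mem hx c
  have e1 : (1 : ℝ) ≤ Real.exp (3 * T) := Real.one_le_exp (by linarith)
  have e2 : Real.exp (3 * T) = Real.exp T * Real.exp T ^ 2 := by
    rw [← pow_succ', ← Real.exp_nat_mul]
    norm_num
  have e3 : (3 : ℝ) ≤ Real.exp T := by linarith [Real.add_one_le_exp T]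
  have h1 := xde_pi (fun k => if k ∈ s.I \ s.J then (Cl_finite (v.D k)).toFinset else {0})
    (B := Real.exp (3 * T)) fun k => by
      split_ifs with hk
      · refine (Nat.cast_le.2 (xde_Cl _)).trans ?_
        have h2 : ((v.D k).natAbs : ℝ) ≤ Real.exp T := by
          have h3 : ((v.D k).natAbs : ℤ) = -v.D k := by have := h.big k; omega
          rw [← Int.cast_natCast, h3, Int.cast_neg]
          exact h.small k hk
        rw [e2]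
        push_cast
        exact mul_le_mul e3 (pow_le_pow_left₀ (by positivity) h2 2) (by positivity) (by positivity)
      · rwa [card_singleton, Nat.cast_one]
  have h2 := xde_pi (fun k => if k ∈ s.J then Hn (v.dg k) else {0})
    (B := Real.exp (3 * T)) fun k => by
      split_ifs with hk
      · refine (Nat.cast_le.2 (card_Hn _)).trans ?_
        rw [e2]
        push_cast
        exact (pow_le_pow_left₀ (by positivity) (h.deg k hk).2.1 2).trans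
          (le_mul_of_one_le_left (by positivity) (by linarith))
      · rwa [card_singleton, Nat.cast_one]
  have h3 := xde_pi (fun _ : ι => insert none (Rn.image some)) (B := Real.exp #Rn) fun _ => by
    refine le_trans ?_ (Real.add_one_le_exp _)
    exact_mod_cast (card_insert_le _ _).trans (Nat.succ_le_succ card_image_le)
  have h4 := xde_pi (fun _ : ι => LB s.e v.l)
    (B := Real.exp (1 + (2 * s.e : ℕ) * (2 * Real.log y)) ^ Fintype.card (Fin v.M)) fun _ =>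
      xde_pi (fun j => Xn (v.l j ^ (2 * s.e))) fun j => by
        have p1 := (h.pl j).1
        refine xde_Xn p1.1 (by positivity) ?_
        have p2 : (0 : ℝ) < v.l j := by exact_mod_cast p1.1.pos
        rw [← Real.exp_log p2]
        exact Real.exp_le_exp.2 (m5 _ p1)
  refine (Nat.cast_le.2 (card_le_card hsub)).trans ?_
  rw [card_product, card_product, card_product, Nat.cast_mul, Nat.cast_mul, Nat.cast_mul]
  refine (mul_le_mul h1 (mul_le_mul h2 (mul_le_mul h3 h4 (by positivity) (by positivity))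
    (by positivity) (by positivity)) (by positivity) (by positivity)).trans ?_
  simp only [← Real.exp_nat_mul, ← Real.exp_add, Fintype.card_fin]
  rw [Real.exp_le_exp]
  push_cast
  have k0 : (1 : ℝ) ≤ v.M := by exact_mod_cast m1
  have k1 : Real.log y ≤ v.M * Real.log y := le_mul_of_one_le_left (by linarith) k0
  have k2 : (v.M : ℝ) ≤ v.M * Real.log y := le_mul_of_one_le_right (by linarith) (by linarith)
  have k3 : (v.M : ℝ) * (1 + 2 * s.e * (2 * Real.log y)) ≤ (1 + 4 * s.e) * (v.M * Real.log y) := by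
    linarith
  have k4 := mul_le_mul_of_nonneg_left k3 (Nat.cast_nonneg (α := ℝ) (Fintype.card ι))
  have k5 := mul_le_mul_of_nonneg_left (by linarith : T ≤ v.M * Real.log y)
    (by positivity : (0 : ℝ) ≤ 6 * n)
  have k6 := mul_le_mul_of_nonneg_left (by linarith : 1 ≤ v.M * Real.log y)
    (by positivity : (0 : ℝ) ≤ Fintype.card ι * #Rn)
  linarith

theorem rd_ok6 (s : Shp n ι) {U : ℝ} (hU : 1 ≤ U) (a : ℕ) : ∃ G₀ : ℝ, ∀ (v : VD n)
    (L G T W δ₀ : ℝ) (m₀ y : ℕ) (cl : ℍ → ℍ) (P : Finset ℕ), G₀ ≤ G → s.Ok6 v L G T W a m₀ y →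
    P ⊆ v.P → prb (Orb v.τ) (fun x => ¬ ∀ c, s.ct x c ∈ KU U) ≤ δ₀ →
    (s.rd6 v P U cl).Ok6 y ⌊G * v.M / 4000⌋₊ (4 * U ^ 2) y δ₀ 14 := by
  obtain ⟨K, Y, A, hK, h₂⟩ := lin_mix U
  obtain ⟨K', A', R₀, hK', h₃⟩ := xc_orb6 U hU
  refine ⟨max Y (max (max (2 * K + A + 2) (2 * K' + A' + 2)) R₀),
    fun v L G T W δ₀ m₀ y cl P hG₀ h hP ht => ?_⟩
  simp only [max_le_iff] at hG₀
  obtain ⟨t2, ⟨t3, t4⟩, t5⟩ := hG₀
  have hG := h.hG
  have hT : 100 ≤ T := hG.trans h.GT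
  obtain ⟨n1, n2, n3, n4, n5⟩ := h.ydf_num
  have hl1 : (1 : ℝ) ≤ Real.log y := by linarith
  have hp : (⌊G * v.M / 4000⌋₊ : ℝ) ≤ G * v.M / 4000 := Nat.floor_le (by positivity)
  have hp0 : 0 ≤ G * v.M / 4000 := by positivity
  have hpos : ∀ β ⊆ v.P, 0 < ∏ l ∈ β, l := fun β hβ => prod_pos fun l hl => (h.pP l (hβ hl)).1.pos
  have eL : Real.exp T ^ 2 = Real.exp (2 * T) := by
    rw [← Real.exp_nat_mul]
    norm_num
  have eT : (1 : ℝ) ≤ Real.exp T := Real.one_le_exp (by linarith)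
  have hL := h.hL
  refine ⟨Orb_ne h.disc,
    fun l hl => ⟨(h.pP l (hP hl)).1, (h.pP l (hP hl)).2.1, (h.pP l (hP hl)).2.2.1⟩,
    fun x hx c l hl => ?_, fun β _ _ x hx => Orb_map h.disc hx (v.sg β),
    fun β _ _ x _ x' _ e => funext fun k => (v.sg β).injective (congrFun e k),
    fun β hβ _ x hx c => (h.et_spec (hβ.trans hP) hx c).1,
    fun β hβ _ x hx c => (h.et_spec (hβ.trans hP) hx c).2.2.2,
    fun β hβ _ x hx g c => ?_, ht, fun c β hβ β' hβ' hd c1 c2 => ?_,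
    fun k l hkl β hβ c1 Z hZ hZ' => ?_⟩
  · obtain ⟨q1, q2, q3⟩ := h.ydf_pr (hP hl)
    have q4 := (Nat.prime_iff_prime_int.1 q1).coprime_iff_not_dvd.2 q2
    exact ⟨AA_line (h.ct_disc hx c).1 (h.ct_disc hx c).2 q1.pos q4 q3,
      AA_line_adj (h.ct_disc hx c).1 (h.ct_disc hx c).2 q1.pos q4 q3⟩
  · obtain ⟨q1, q2, q3, -⟩ := h.et_spec (hβ.trans hP) hx c
    have q4 : act (s.et v β x c) (s.ct x c) ∈ KU U := by
      rw [q3]
      exact g.2 c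
    exact ⟨q1, q2, ht_le_KU hU (hpos β (hβ.trans hP)) q1 (g.1 c) q4⟩
  · have hc := s.mem c
    have hu : β ∪ β' ⊆ v.P := (union_subset hβ hβ').trans hP
    have hpl := h.prod_le (β := β ∪ β') (fun q hq => h.pP q (hu hq)) (by
      have c3 : (#(β ∪ β') : ℝ) ≤ #β + #β' := by exact_mod_cast card_union_le β β'
      have c4 : (#β : ℝ) ≤ ⌊G * v.M / 4000⌋₊ := by exact_mod_cast c1
      have c5 : (#β' : ℝ) ≤ ⌊G * v.M / 4000⌋₊ := by exact_mod_cast c2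
      linarith)
    have h4 := h₂ L n v.τ v.D h.disc (s.cr c) v.E v.b β β' (t2.trans (n5 _ hc))
      (h.low _ hc) (h.ydf_fit c) hd (fun l hl => h.ydf_pr (hu hl)) hpl.2 (by
        have h5 : (((∏ l ∈ β ∪ β', l : ℕ) : ℝ)) ^ 400 ≤ -(v.D (s.cr c) : ℝ) := by
          refine (pow_le_pow_left₀ (by positivity) hpl.1 400).trans
            (le_trans ?_ (h.large _ hc).1)
          rw [← Real.exp_nat_mul, Real.exp_le_exp]
          push_cast
          linarith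
        exact_mod_cast h5)
    refine le_trans (Nat.cast_le.2 (card_le_card fun z hz => ?_)) (h4.trans ?_)
    · rw [mem_filter] at hz ⊢
      exact ⟨hz.1, hz.2.1 c, hz.2.2.1 c, hz.2.2.2⟩
    · refine mul_le_mul_of_nonneg_right (div_le_div_of_nonneg_right ?_ (by positivity))
        (by positivity)
      refine le_trans (mul_le_mul_of_nonneg_left ?_ (by positivity))
        (h.ydf_const hK.le ?_ t3)
      · exact pow_le_pow_left₀ (Real.log_nonneg (by linarith [n5 _ hc])) (h.large _ hc).2 _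
      · have h6 : L ^ 2 ≤ Real.exp T ^ 2 := by
          rw [← sq_abs]
          exact pow_le_pow_left₀ (abs_nonneg _) hL 2
        rw [← eL]
        nlinarith
  · obtain ⟨R, hR⟩ : ∃ R : ℕ, R = ⌊Real.exp (W / 3)⌋₊ := ⟨_, rfl⟩
    have hu : β ⊆ v.P := hβ.trans hP
    have hpl := h.prod_le (β := β) (fun q hq => h.pP q (hu hq)) (by
      have c4 : (#β : ℝ) ≤ ⌊G * v.M / 4000⌋₊ := by exact_mod_cast c1
      linarith)
    have r1 : (R : ℝ) ^ 3 ≤ Real.exp W := by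
      refine (pow_le_pow_left₀ (by positivity) (hR ▸ Nat.floor_le (by positivity)) 3).trans
        (le_of_eq ?_)
      rw [← Real.exp_nat_mul]
      congr 1
      push_cast
      ring
    have r2 : Real.exp (W / 4) ≤ R := by
      have h4 := Nat.lt_floor_add_one (Real.exp (W / 3))
      rw [← hR] at h4
      have h5 : Real.exp (W / 4 + 1) ≤ Real.exp (W / 3) := Real.exp_le_exp.2 (by linarith)
      rw [Real.exp_add] at h5
      have h6 : (1 : ℝ) ≤ Real.exp (W / 4) := Real.one_le_exp (by linarith)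
      have h7 := Real.add_one_le_exp (1 : ℝ)
      nlinarith
    have r3 : ∀ c, (R : ℤ) ^ 3 ≤ -v.D (s.cr c) := fun c => by
      exact_mod_cast r1.trans (h.large _ (s.mem c)).1
    have z1 : Z ≤ Real.exp (W / 4000) := by
      refine hZ'.trans ?_
      rw [← n4, ← Real.exp_nat_mul, Real.exp_le_exp]
      refine (mul_le_mul_of_nonneg_right hp (by linarith)).trans ?_
      linarith [h.yW]
    have h4 := h₃ L n v.τ v.D h.disc (s.cr k) (s.cr l) v.E v.b β R Z (Real.exp T)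
      (h.low _ (s.mem k)) (h.ydf_fit k) (h.ydf_fit l) (fun p hp => h.ydf_pr (hu hp)) hpl.2 hZ (by
        refine le_trans ?_ r2
        have h5 : (R₀ : ℝ) ≤ Real.exp (W / 10000) := by
          linarith [Real.add_one_le_exp (W / 10000)]
        refine (mul_le_mul h5 (pow_le_pow_left₀ (by linarith) z1 2) (by positivity)
          (by positivity)).trans ?_
        rw [← Real.exp_nat_mul, ← Real.exp_add, Real.exp_le_exp]
        push_cast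
        linarith) (by
        have h5 : (((∏ l ∈ β, l : ℕ) : ℝ)) ^ 200 ≤ R := by
          refine (pow_le_pow_left₀ (by positivity) hpl.1 200).trans (le_trans ?_ r2)
          rw [← Real.exp_nat_mul, Real.exp_le_exp]
          push_cast
          linarith
        exact_mod_cast h5) (r3 k) (r3 l) eT (h.large _ (s.mem k)).2
      (h.large _ (s.mem l)).2 fun d hd hd' => h.sep k l hkl d hd
        (le_trans (by exact_mod_cast hd') r1)
    refine le_trans (pb_mono fun x _ hx => ⟨hx.1 k, hx.1 l, hx.2⟩) (h4.trans ?_)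
    refine div_le_div_of_nonneg_right (mul_le_mul_of_nonneg_right ?_ (by positivity))
      (by positivity)
    refine h.ydf_const hK'.le ?_ t4
    rw [← eL]
    nlinarith

theorem Ok6.tight {s : Shp n ι} {v : VD n} {L G T W δ : ℝ} {a m₀ y : ℕ} {Uf Yf : ℝ → ℝ}
    (h : s.Ok6 v L G T W a m₀ y) (ht : ∀ k ∈ s.J, Tg Uf Yf (v.D k)) (hδ : 0 < δ)
    (hG : Yf δ ≤ G) : (∀ c, prb (Orb v.τ) (fun x => s.ct x c ∉ KU (Uf δ)) ≤ δ) ∧
      prb (Orb v.τ) (fun x => ¬ ∀ c, s.ct x c ∈ KU (Uf δ)) ≤ Fintype.card ι * δ := by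
  have h1 : ∀ c, prb (Orb v.τ) (fun x => s.ct x c ∉ KU (Uf δ)) ≤ δ := fun c =>
    ht _ (s.mem c) δ hδ (hG.trans (h.ydf_num.2.2.2.2 _ (s.mem c))) n v.τ v.D h.disc (s.cr c) rfl
  refine ⟨h1, le_trans (pb_mono fun x _ hx => ?_)
    ((pb_exists (Orb v.τ) univ fun c x => s.ct x c ∉ KU (Uf δ)).trans ?_)⟩
  · obtain ⟨c, hc⟩ := not_forall.1 hx
    exact ⟨c, mem_univ c, hc⟩
  · refine (sum_le_card_nsmul _ _ _ fun c _ => h1 c).trans (le_of_eq ?_)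
    rw [card_univ, nsmul_eq_mul]

theorem ydf_root {y a m k : ℕ} (h1 : 2 ^ a < y) (h2 : y ≤ k ^ a) (h3 : k ≤ 2 * m) :
    (y : ℝ) ^ (1 / (2 * a + 2) : ℝ) ≤ m := by
  have h4 : y ≤ (2 * m) ^ a := h2.trans (Nat.pow_le_pow_left h3 a)
  have h5 : 2 ≤ m := by
    by_contra hn
    have h6 : (2 * m) ^ a ≤ 2 ^ a := Nat.pow_le_pow_left (by omega) a
    omega
  have h6 : y ≤ m ^ (2 * a + 2) := by
    refine h4.trans ((Nat.pow_le_pow_left (Nat.mul_le_mul_right m h5) a).trans ?_)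
    rw [← sq, ← pow_mul]
    exact Nat.pow_le_pow_right (by omega) (by omega)
  have h7 : (y : ℝ) ≤ (m : ℝ) ^ (2 * a + 2) := by exact_mod_cast h6
  refine (Real.rpow_le_rpow (by positivity) h7 (by positivity)).trans (le_of_eq ?_)
  rw [← Real.rpow_natCast, ← Real.rpow_mul (by positivity)]
  push_cast
  rw [mul_one_div_cancel (by positivity), Real.rpow_one]

theorem noA [Nonempty ι] (s : Shp n ι) {K t θ : ℝ} (hK : 0 < K) (ht : 0 < t) (hθ : 0 < θ)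
    (Uf Yf : ℝ → ℝ) (hU : ∀ δ, 1 ≤ Uf δ) (a B : ℕ) : ∃ G₀ : ℝ, ∀ (v : VD n) (L G T W : ℝ)
    (m₀ y q₀ : ℕ) (𝒢 : s.Fm) (Ws : ℕ → Wt v) (P : Finset ℕ), G₀ ≤ G →
    s.Ok6 v L G T W a m₀ y → (∀ k ∈ s.J, Tg Uf Yf (v.D k)) → (∀ c, Fam s.N q₀ K (𝒢 c)) →
    q₀.Coprime (s.dd v) → P ⊆ v.P → #v.P ≤ 2 * #P → (∀ q ∈ P, q.Coprime q₀ ∧ WB B (Ws q)) →
    ∃ q ∈ P, prb (Orb v.τ) (s.EA v 𝒢 (Ws q) t q) < θ := by
  have hc : (0 : ℝ) < Fintype.card ι := by exact_mod_cast Fintype.card_pos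
  obtain ⟨c₀, hc₀, h₁⟩ := stepA6 ι ht
  have hθ₀ : (0 : ℝ) < 1 / (2 * a + 2) := by positivity
  have hθ₁ : (1 / (2 * a + 2) : ℝ) ≤ 1 := by
    rw [div_le_one (by positivity)]
    linarith [Nat.cast_nonneg (α := ℝ) a]
  obtain ⟨δ₀, K₁, hδ₀, hK₁, h₂⟩ := rig6 ι hc₀ hθ₀ hθ₁ (half_pos hθ) 14
  obtain ⟨δ, hδ, eδ⟩ : ∃ δ : ℝ, 0 < δ ∧ Fintype.card ι * δ = min δ₀ (θ / 4) :=
    ⟨min δ₀ (θ / 4) / Fintype.card ι, div_pos (lt_min hδ₀ (by positivity)) hc,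
      mul_div_cancel₀ _ hc.ne'⟩
  obtain ⟨cl, Rn, C, G₁, hcl, h₃⟩ := h₁ n s K (Uf δ) θ a B hK hθ
  obtain ⟨C₂, hC₂, h₄⟩ := s.card_C6 Rn
  obtain ⟨G₂, h₅⟩ := s.rd_ok6 (hU δ) a
  obtain ⟨y₀, h₆⟩ := h₂ C (4 * Uf δ ^ 2) (by nlinarith [hU δ])
  obtain ⟨X₀, h₇⟩ := ydf_grow (5 * K₁ * C₂) 2 (ε := 1 / (2 * a + 2) / 4) (by positivity)
  refine ⟨max (max (max G₁ G₂) (max (Yf δ) (4000 * (K₁ * C₂ + 1))))
    (max (max y₀ X₀) (2 ^ a + 1)), fun v L G T W m₀ y q₀ 𝒢 Ws P hG₀ h hg hF hq₀ hP hP' hW => ?_⟩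
  simp only [max_le_iff] at hG₀
  obtain ⟨⟨⟨t1, t2⟩, t3, t4⟩, ⟨t5, t6⟩, t7⟩ := hG₀
  by_contra hn
  have hE : ∀ q ∈ P, θ ≤ prb (Orb v.τ) (s.EA v 𝒢 (Ws q) t q) := fun q hq =>
    not_lt.1 fun h' => hn ⟨q, hq, h'⟩
  have hti := (h.tight hg hδ t3).2
  rw [eδ] at hti
  have hG := h.hG
  obtain ⟨n1, -, -, n4, -⟩ := h.ydf_num
  obtain ⟨m1, -, -, m4, -⟩ := h.num
  have k0 : (1 : ℝ) ≤ v.M := by exact_mod_cast m1
  have k1 : Real.log y ≤ y := by linarith [Real.add_one_le_exp (Real.log y)]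
  have k2 : (0 : ℝ) < y := by linarith
  have k3 : Real.log y ≤ C₂ * v.M * Real.log y :=
    le_mul_of_one_le_left (by linarith) (one_le_mul_of_one_le_of_one_le hC₂ k0)
  have k4 : 0 ≤ K₁ * C₂ := by positivity
  refine h₆ _ _ _ (s.rd6 v P (Uf δ) cl) y ⌊G * v.M / 4000⌋₊ y (C₂ * v.M * Real.log y)
    (by exact_mod_cast t5.trans (n1.trans k1))
    (h₅ v L G T W δ₀ m₀ y cl P t2 h hP (hti.trans (min_le_left _ _)))
    (ydf_root ?_ h.cP hP') k3 k2 (n4.symm.le.trans (Real.exp_le_exp.2 k3)) ?_ ?_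
    (le_trans (Nat.cast_le.2 (card_le_card fun z hz => ?_))
      (h₄ v L G T W (Uf δ) a m₀ y cl h hcl)) fun q hq => ?_
  · have k5 : (2 : ℝ) ^ a < y := by linarith
    exact_mod_cast k5
  · rw [Real.rpow_def_of_pos k2, mul_comm (Real.log y)]
    refine le_trans ?_ (h₇ _ (t6.trans n1) (by linarith))
    have k5 : (v.M : ℝ) ≤ 5 * Real.log y := by
      linarith [Real.log_le_sub_one_of_pos (by linarith : 0 < Real.log y)]
    have k6 := mul_le_mul_of_nonneg_left k5 (mul_nonneg k4 (by linarith : 0 ≤ Real.log y))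
    nlinarith
  · rw [← mul_assoc]
    refine mul_le_mul_of_nonneg_right ?_ (by linarith)
    have k5 := Nat.lt_floor_add_one (G * v.M / 4000)
    have k6 := mul_le_mul_of_nonneg_right t4 (by linarith : (0 : ℝ) ≤ v.M)
    nlinarith
  · simp only [mem_image] at hz ⊢
    exact hz
  · exact h₃ v L G T W m₀ y q q₀ 𝒢 (Ws q) t1 h hF hq₀ (hP hq) (hW q hq).1 (hW q hq).2 (hE q hq)
      (hti.trans (min_le_right _ _))

end Shp

end Pool.Agent.EQ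
end
end

-- part Pool.Agent.P.MP_ad7a55_nt.YDg
section

/-! The finite main theorem at large primes. -/

set_option autoImplicit false

noncomputable section

open MeasureTheory Topology Filter UpperHalfPlane Finset
open scoped MatrixGroups BoundedContinuousFunction Matrix Classical

namespace Pool.Agent.EQ

theorem ydg_prod {κ : Type} [Fintype κ] [Nonempty κ] (f : κ → ℝ) (h : ∀ k, |f k| ≤ 1 / 2) :
    |∏ k, f k| ≤ 1 / 2 := by
  obtain ⟨k₀⟩ := ‹Nonempty κ›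
  rw [← Finset.mul_prod_erase univ f (Finset.mem_univ k₀), abs_mul, Finset.abs_prod]
  have h1 : ∏ k ∈ univ.erase k₀, |f k| ≤ 1 :=
    Finset.prod_le_one (fun k _ => abs_nonneg _) fun k _ => (h k).trans (by norm_num)
  have h2 := mul_le_mul (h k₀) h1 (Finset.prod_nonneg fun k _ => abs_nonneg _) (by norm_num)
  rwa [mul_one] at h2

theorem ydg_pm {n : ℕ} {ι : Type} {s : Shp n ι} {v : VD n} {y q : ℕ} (h : s.Pm v y q) :
    ¬ q ∣ s.N * s.dd v := by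
  intro h1
  refine h.2.2.2 ((Int.natCast_dvd_natCast.2 h1).trans ⟨2 * v.E, ?_⟩)
  push_cast
  ring

theorem ydg_pow {N d b y n : ℕ} {G T : ℝ} (hd : (d : ℝ) ≤ Real.exp (n * T))
    (hT : 1 ≤ T) (hG : (b : ℝ) * (N + n) ≤ G) (hy : G * T ≤ Real.log y) (hy0 : 0 < y) :
    (N * d) ^ b ≤ y := by
  have h1 : (N : ℝ) ≤ Real.exp (N * T) := by
    have h2 := Real.add_one_le_exp (N * T)
    have h3 : (N : ℝ) ≤ N * T := le_mul_of_one_le_right (Nat.cast_nonneg _) hT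
    linarith
  have h2 : ((N * d : ℕ) : ℝ) ≤ Real.exp ((N + n) * T) := by
    rw [add_mul, Real.exp_add, Nat.cast_mul]
    exact mul_le_mul h1 hd (Nat.cast_nonneg _) (Real.exp_pos _).le
  have h3 := pow_le_pow_left₀ (Nat.cast_nonneg _) h2 b
  rw [← Real.exp_nat_mul] at h3
  have h4 : Real.exp (b * ((N + n) * T)) ≤ y := by
    rw [← Real.exp_log (Nat.cast_pos.2 hy0 : (0 : ℝ) < y)]
    refine Real.exp_le_exp.2 (le_trans ?_ hy)
    rw [← mul_assoc]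
    exact mul_le_mul_of_nonneg_right hG (by linarith)
  exact_mod_cast h3.trans h4

theorem Shp.no_ev {n : ℕ} {ι : Type} [Fintype ι] [Nonempty ι] (s : Shp n ι) (hN : 0 < s.N)
    (φ : Fin n → (ℍ →ᵇ ℝ)) (hφ : ∀ k, GInv s.N (φ k)) (hb : ∀ k, ‖φ k‖ ≤ 1 / 2) {K t θ : ℝ}
    (hK : 0 < K) (hl : ∀ k, Lip K (φ k)) (ht : 0 < t) (hθ : 0 < θ) (Uf Yf : ℝ → ℝ)
    (hU : ∀ δ, 1 ≤ Uf δ) (a B : ℕ) : ∃ (m₀ : ℕ) (G₀ : ℝ), ∀ (v : VD n) (L G T W : ℝ) (y : ℕ)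
    (Ws : Shp.Wt v), G₀ ≤ G → s.Ok6 v L G T W a m₀ y → (∀ k ∈ s.J, Tg Uf Yf (v.D k)) →
    Shp.WB B Ws → prb (Orb v.τ)
      (s.Ev6 v (fun c => prF fun k : s.Cu c => φ k) Ws (∏ k ∈ s.J, IN s.N (φ k)) t) < θ := by
  have hne : ∀ c, Nonempty (s.Cu c) := fun c => ⟨⟨s.cr c, s.mem c, s.bs_cr c⟩⟩
  have hm : (0 : ℝ) < Fintype.card ι := by exact_mod_cast Fintype.card_pos
  obtain ⟨K1, hK1, hK1'⟩ : ∃ K1 : ℝ, 0 < K1 ∧ ∀ c, Fintype.card (s.Cu c) * K ≤ K1 := by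
    refine ⟨(n + 1) * K, by positivity, fun c => mul_le_mul_of_nonneg_right ?_ hK.le⟩
    have h1 : Fintype.card (s.Cu c) ≤ n := (Fintype.card_subtype_le _).trans (Fintype.card_fin n).le
    exact_mod_cast h1.trans (Nat.le_succ n)
  have hF1 : ∀ c, Fam s.N 1 K1 (prF fun k : s.Cu c => φ k) := fun c =>
    fam_pr (fun k => hφ k) (fun k => hb k) hK.le (fun k => hl k) (hK1' c)
  have hI : ∀ c, |∏ k : s.Cu c, IN s.N (φ k)| ≤ 1 / 2 := fun c =>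
    ydg_prod _ fun k => (abs_IN_le hN _).trans (hb k)
  obtain ⟨t2, ht2, ht2e⟩ : ∃ t2 : ℝ, 0 < t2 ∧
      t2 = (1 / 2) ^ Fintype.card ι * (t / 2 / Fintype.card ι) ^ 2 := ⟨_, by positivity, rfl⟩
  obtain ⟨θ2, hθ2, hθ2e⟩ : ∃ θ2 : ℝ, 0 < θ2 ∧ θ2 = θ / 2 / Fintype.card ι :=
    ⟨_, by positivity, rfl⟩
  obtain ⟨G1, hA1⟩ := Shp.noA s hK1 (half_pos ht) (half_pos hθ) Uf Yf hU a B
  obtain ⟨G2, hA2⟩ := Shp.noA s hK1 (half_pos ht2) (half_pos hθ2) Uf Yf hU a 1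
  have hδ : 0 < t2 * θ2 / 8 := by positivity
  choose mc ac hq using fun c => tq_small hN (fun k : s.Cu c => φ k) (fun k => hφ k)
    (fun k => hb k) hK (fun k => hl k) (Uf (t2 * θ2 / 8)) (half_pos (half_pos ht2))
  have hmc : ∀ c, mc c ≤ univ.sup mc := fun c => Finset.le_sup (Finset.mem_univ c)
  have hac : ∀ c, ac c ≤ univ.sup ac := fun c => Finset.le_sup (Finset.mem_univ c)
  generalize univ.sup mc = mm at hmc
  generalize univ.sup ac = aa at hac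
  refine ⟨mm.factorial ^ 2, max (max G1 G2) (max (Yf (t2 * θ2 / 8)) (max mm (aa * (s.N + n)))),
    fun v L G T W y Ws hG h hT hW => ?_⟩
  simp only [max_le_iff] at hG
  obtain ⟨⟨g1, g2⟩, g3, g4, g5⟩ := hG
  have hG := h.hG
  have hGy := h.num.2.1
  have hy1 : (1 : ℝ) < y := by
    by_contra h1
    have := Real.log_nonpos (Nat.cast_nonneg y) (not_lt.1 h1)
    nlinarith
  have hy1' : 1 < y := by exact_mod_cast hy1
  have hmy : mm ≤ y := by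
    have h1 := Real.log_le_sub_one_of_pos (by linarith : (0 : ℝ) < y)
    have h2 : (mm : ℝ) ≤ y := by nlinarith
    exact_mod_cast h2
  have hP2 : 2 ≤ v.P.card := by
    by_contra h1
    have h2 : v.P.card ^ a ≤ 1 := pow_le_one₀ (Nat.zero_le _) (by omega)
    have := h.cP
    omega
  by_contra hE
  rw [not_lt] at hE
  obtain ⟨q₀, hq₀, h1⟩ := hA1 v L G T W _ y 1 (fun c => prF fun k : s.Cu c => φ k)
    (fun q u => Ws (v.mv {q} u)) v.P g1 h hT hF1 (Nat.coprime_one_left _) Finset.Subset.rfl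
    (by omega) fun q _ => ⟨Nat.coprime_one_right _, fun u => hW _⟩
  have p₀ := h.pP q₀ hq₀
  have h2 := (h.ev_move hF1 (Nat.coprime_one_left _) hq₀ (Nat.coprime_one_right _) hE).resolve_left
    (not_le.2 h1)
  have hF2 : ∀ c, Fam s.N q₀ K1 (Tq s.N q₀ (prF fun k : s.Cu c => φ k)) := fun c => by
    have := (hF1 c).tq hK1.le hN p₀.1 (fun h3 => ydg_pm p₀ (h3.mul_right _))
      (Nat.coprime_one_right _)
    rwa [one_mul] at this
  rw [← s.prod_Cu fun k => IN s.N (φ k)] at h2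
  obtain ⟨c, h3⟩ := Shp.ev_sq (I := fun c => ∏ k : s.Cu c, IN s.N (φ k)) (B := B)
    (fun c ζ z => ((hF2 c).bd ζ z).trans (by norm_num)) (fun c => (hI c).trans (by norm_num))
    (fun u => hW _) (half_pos ht).le h2
  rw [← ht2e, ← hθ2e] at h3
  have hF3 := Shp.fam2_fam (𝒢 := fun c => Tq s.N q₀ (prF fun k : s.Cu c => φ k)) hK1.le hF2 hI c
  have hd : q₀.Coprime (s.dd v) :=
    (Nat.Prime.coprime_iff_not_dvd p₀.1).2 fun h4 => ydg_pm p₀ (h4.mul_left _)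
  obtain ⟨q, hq', h4⟩ := hA2 v L G T W _ y q₀ _ (fun _ _ => {fun _ => 1}) (v.P.erase q₀) g2 h hT
    hF3 hd (Finset.erase_subset _ _) (by rw [Finset.card_erase_of_mem hq₀]; omega)
    fun q hq' => ⟨(Nat.coprime_primes (h.pP q (Finset.mem_of_mem_erase hq')).1 p₀.1).2
      (Finset.ne_of_mem_erase hq'), fun u => ⟨(Finset.card_singleton _).le, fun W' hW' S => by
        rw [Finset.mem_singleton.1 hW', abs_one]⟩⟩
  have hqP := Finset.mem_of_mem_erase hq'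
  have hqq := Finset.ne_of_mem_erase hq'
  have p₁ := h.pP q hqP
  have hd' : q₀.Coprime (s.dd v * ∏ j, v.l j) :=
    hd.mul_right (Nat.Coprime.prod_right fun j _ =>
      (Nat.coprime_primes p₀.1 (h.pl j).1.1).2 fun e => (h.pl j).2 (e ▸ hq₀))
  have h5 := (h.ev_move hF3 hd' hqP ((Nat.coprime_primes p₁.1 p₀.1).2 hqq) h3).resolve_left
    (not_le.2 h4)
  have hT1 : 1 ≤ T := by linarith [h.GT]
  have h6 := h.ev_rare (𝒢 := fun c => Tq s.N q₀ (prF fun k : s.Cu c => φ k))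
    (I := fun c => ∏ k : s.Cu c, IN s.N (φ k)) (c := c) hqP (fun ζ z => by
      have b1 := abs_le.1 ((hF2 c).bd ζ z)
      have b2 := abs_le.1 (hI c)
      rw [abs_le]
      constructor <;> linarith [b1.1, b1.2, b2.1, b2.2]) (half_pos ht2)
    (fun x hx γ g z hz => hq c (s.N * s.dd v) q₀ q _ (Nat.mul_pos hN h.dd_le.1) p₀.1 p₁.1 hqq.symm
      (lt_of_le_of_lt ((hmc c).trans hmy) p₀.2.1) (lt_of_le_of_lt ((hmc c).trans hmy) p₁.2.1)
      (ydg_pm p₀) (ydg_pm p₁)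
      ((ydg_pow h.dd_le.2 hT1 (le_trans (mul_le_mul_of_nonneg_right
        (by exact_mod_cast hac c) (by positivity)) g5) h.Ty (by omega)).trans p₁.2.1.le)
      (fun k => by
        obtain ⟨e1, e2⟩ := h.zt_det hx γ c k
        rw [e1, Int.natAbs_natCast]
        exact ⟨by exact_mod_cast (h.deg k k.2.1).1, Nat.mul_dvd_mul_left _ e2⟩)
      (h.nrel hx γ c (Nat.pow_le_pow_left (Nat.factorial_le (hmc c)) 2)) g z hz)
    ((h.tight hT hδ g3).1 c)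
  have h7 : t2 * θ2 / 8 / (t2 / 2) = θ2 / 4 := by
    field_simp
    norm_num
  have h8 := h5.trans h6
  rw [h7] at h8
  linarith

theorem fin_main6 {N : ℕ} (hN : 0 < N) (F : IntermediateField ℚ ℂ) [FiniteDimensional ℚ F]
    (n : ℕ) : ∃ e : ℕ, 0 < e ∧ ∀ (φ : Fin n → (ℍ →ᵇ ℝ)), (∀ k, Tc N F (φ k)) →
      (∀ k, ‖φ k‖ ≤ 1 / 2) → ∀ (ι : Type) [Fintype ι] [Nonempty ι] (s : Shp n ι), s.N = N →
      s.e = e → ∀ (Uf Yf : ℝ → ℝ), (∀ δ, 1 ≤ Uf δ) → ∀ (θ : ℝ) (a : ℕ), 0 < θ →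
      ∃ (m₀ : ℕ) (G₀ : ℝ), ∀ (v : VD n) (L G T W : ℝ) (y : ℕ) (ψ : (Fin n × Fn → ℂ) → ℝ),
        G₀ ≤ G → s.Ok6 v L G T W a m₀ y → (∀ k ∈ s.J, Tg Uf Yf (v.D k)) → Oth s.I v.D ψ →
        (∀ z, |ψ z| ≤ 1) → |avg (ON N F v.τ) fun z => ψ z *
          (PT N F φ s.I z - (∏ k ∈ s.J, IN N (φ k)) * PT N F φ (s.I \ s.J) z)| ≤ θ := by
  obtain ⟨e, G1, he, hred⟩ := Shp.red6 hN F n
  refine ⟨e, he, fun φ hφ hb ι _ _ s hsN hse Uf Yf hU θ a hθ => ?_⟩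
  subst hsN
  obtain ⟨ω, hω, hc⟩ := Tc.eqC hN hφ
  have hε : 0 < θ / (8 * (n + 1)) := by positivity
  choose Kf hKf φ' h1 h2 h3 h4 using fun k => exists_lip (hφ k).1.ginv (hb k) hω (hc k) hε
  have hK : 0 < ∑ k, Kf k + 1 := by
    have := Finset.sum_nonneg fun k (_ : k ∈ univ) => (hKf k).le
    linarith
  have hl : ∀ k, Lip (∑ k, Kf k + 1) (φ' k) := fun k z w => by
    refine (h3 k z w).trans (mul_le_mul_of_nonneg_right ?_ dist_nonneg)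
    have := Finset.single_le_sum (fun k (_ : k ∈ univ) => (hKf k).le) (Finset.mem_univ k)
    linarith
  have ht : 0 < θ / 2 - 2 * n * (θ / (8 * (n + 1))) := by
    have e1 : θ / 2 - 2 * n * (θ / (8 * (n + 1))) = θ * (n + 2) / (4 * (n + 1)) := by
      field_simp
      ring
    rw [e1]
    positivity
  have hr : (0 : ℝ) < Module.finrank ℚ F := by exact_mod_cast Module.finrank_pos
  have hθ' : 0 < θ / (4 * Module.finrank ℚ F) := by positivity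
  obtain ⟨m₀, G2, hno⟩ := s.no_ev hN φ' h1 h2 hK hl ht hθ' Uf Yf hU a (s.N ^ (3 * n))
  refine ⟨m₀, max G1 G2, fun v L G T W y ψ hG h hT hO hψ => ?_⟩
  by_contra hE
  have hb1 : ∀ k, ‖φ k‖ ≤ 1 := fun k => (hb k).trans (by norm_num)
  obtain ⟨Ws, hW, h5⟩ := hred ι s φ rfl hse (fun k => (hφ k).1) hb1 v L G T W a m₀ y ψ θ
    ((le_max_left _ _).trans hG) h hO hψ hθ (not_le.1 hE).le
  have h6 := hno v L G T W y Ws ((le_max_right _ _).trans hG) h hT hW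
  exact absurd (h5.trans (pb_mono fun x _ hx => Shp.Ev6.approx hN hb1
    (fun k => (h2 k).trans (by norm_num)) hε.le h4 hW hx)) (not_le.2 h6)

end Pool.Agent.EQ
end
end

-- part Pool.Agent.P.MP_ad7a55_nt.YTb
section

/-! One step of the induction at large primes. -/

set_option autoImplicit false

noncomputable section

open MeasureTheory Topology Filter UpperHalfPlane Finset
open scoped MatrixGroups BoundedContinuousFunction Matrix Classical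

namespace Pool.Agent.EQ

/-- The conditions on the largest discriminant. -/
def Sc (B A : ℕ) (Uf Yf : ℝ → ℝ) (D : ℤ) : Prop :=
  ∃ (d f : ℤ) (L : ℝ), Squarefree d ∧ D = f ^ 2 * d ∧
    ManyT A d.natAbs (thr B (Real.log (-(D : ℝ)))) ∧ Low L D ∧
    |L| ≤ Real.exp (2 * thr B (Real.log (-(D : ℝ)))) ∧ ∀ g : ℤ,
      Real.exp (thr B (Real.log (-(D : ℝ))) * Real.log (Real.log (-(D : ℝ)))) ≤
        -((g ^ 2 * d : ℤ) : ℝ) → Tg Uf Yf (g ^ 2 * d)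

/-- One step is possible when the largest discriminant satisfies `Q`. -/
def GoodQ (n : ℕ) (Q : ℤ → Prop) : Prop :=
  ∀ N : ℕ, 0 < N → ∀ (F : IntermediateField ℚ ℂ) [FiniteDimensional ℚ F] (𝒰 : Ultrafilter ℕ)
    (τ : ℕ → Fin n → ℍ) (D : ℕ → Fin n → ℤ) (I : Finset (Fin n)) (φ : Fin n → (ℍ →ᵇ ℝ))
    (ψ : ℕ → (Fin n × Fn → ℂ) → ℝ), Cls 𝒰 τ D I → (∀ k, Tc N F (φ k)) → (∀ k, ‖φ k‖ ≤ 1 / 2) →
    (∀ᶠ i in 𝒰, Oth I (D i) (ψ i)) → (∀ i z, |ψ i z| ≤ 1) → ∀ k₀ ∈ I,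
    (∀ᶠ i in 𝒰, (∀ k ∈ I, D i k₀ ≤ D i k) ∧ Q (D i k₀)) → StepN 𝒰 N F τ φ I ψ

variable {n N : ℕ}

theorem fin_top6 (hN : 0 < N) (F : IntermediateField ℚ ℂ) [FiniteDimensional ℚ F]
    (φ : Fin n → (ℍ →ᵇ ℝ)) (hφ : ∀ k, Tc N F (φ k)) (hb : ∀ k, ‖φ k‖ ≤ 1 / 2) (A : ℕ)
    (Uf Yf : ℝ → ℝ) (hU : ∀ δ, 1 ≤ Uf δ) {θ : ℝ} (hθ : 0 < θ) : ∃ (m₀ : ℕ) (X₀ : ℝ),
    ∀ (τ : Fin n → ℍ) (D : Fin n → ℤ) (I : Finset (Fin n)) (k₀ : Fin n)
      (ψ : (Fin n × Fn → ℂ) → ℝ), (∀ k, HasDisc (τ k) (D k)) → (∀ k, D k < -576) → k₀ ∈ I →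
      (∀ k ∈ I, D k₀ ≤ D k ∧ IsSquare (D k₀ * D k)) → X₀ ≤ -(D k₀ : ℝ) →
      Sc (BB n) A Uf Yf (D k₀) →
      (∀ k ∈ I, ∀ l ∈ I, k ≠ l → ∀ g : ℕ, 0 < g → g ≤ m₀ → ¬ Ig g (jInv (τ k)) (jInv (τ l))) →
      Oth I D ψ → (∀ z, |ψ z| ≤ 1) → ∃ J ⊆ I, J.Nonempty ∧ |avg (ON N F τ) fun z => ψ z *
        (PT N F φ I z - (∏ k ∈ J, IN N (φ k)) * PT N F φ (I \ J) z)| ≤ θ := by
  obtain ⟨e, he, hm⟩ := fin_main6 hN F n
  obtain ⟨a, ha⟩ := exists_setup6 n N e A hN he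
  have key : ∀ r : Fin n, ∀ᶠ m : ℕ in atTop,
      ∀ s ∈ {s : Shp n (Fin (r + 1)) | s.N = N ∧ s.e = e}, ∀ (v : VD n) (L G T W : ℝ) (y : ℕ)
        (ψ : (Fin n × Fn → ℂ) → ℝ), (m : ℝ) ≤ G → s.Ok6 v L G T W a m y →
        (∀ k ∈ s.J, Tg Uf Yf (v.D k)) → Oth s.I v.D ψ →
        (∀ z, |ψ z| ≤ 1) → |avg (ON N F v.τ) fun z => ψ z *
          (PT N F φ s.I z - (∏ k ∈ s.J, IN N (φ k)) * PT N F φ (s.I \ s.J) z)| ≤ θ := by
    intro r
    have hf : {s : Shp n (Fin (r + 1)) | s.N = N ∧ s.e = e}.Finite := by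
      refine Set.Finite.of_injOn (f := fun s => (s.I, s.J, s.cr, s.bs)) (Set.mapsTo_univ _ _) ?_
        Set.finite_univ
      rintro ⟨N1, e1, I1, J1, c1, b1, _, _, _⟩ ⟨rfl, rfl⟩ ⟨N2, e2, I2, J2, c2, b2, _, _, _⟩ ⟨h1, h2⟩ h
      simp only [Prod.mk.injEq] at h h1 h2
      obtain ⟨rfl, rfl, rfl, rfl⟩ := h
      subst h1 h2
      rfl
    refine (eventually_all_finite hf).2 fun s hs => ?_
    obtain ⟨m₀, G₀, h⟩ := hm φ hφ hb _ s hs.1 hs.2 Uf Yf hU θ a hθ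
    filter_upwards [eventually_ge_atTop m₀,
      tendsto_natCast_atTop_atTop.eventually (eventually_ge_atTop G₀)]
      with m h1 h2 v L G T W y ψ h3 h4
    exact h v L G T W y ψ (h2.trans h3)
      { h4 with noi := fun k hk l hl hkl d hd hd' => h4.noi k hk l hl hkl d hd (hd'.trans h1) }
  obtain ⟨m, hm'⟩ := (eventually_all.2 key).exists
  obtain ⟨X₀, hX⟩ := ha m
  refine ⟨m, Real.exp X₀, fun τ D I k₀ ψ h1 h2 h3 h4 h5 h6 h7 h8 h9 => ?_⟩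
  obtain ⟨d, f, L, hd, e', hM, hL, hLe, hT⟩ := h6
  have hne : ∀ k, D k ≠ 0 := fun k => by linarith [h2 k] |> ne_of_lt
  have hf0 : f ≠ 0 := by
    rintro rfl
    exact hne k₀ (by rw [e']; simp)
  have sh : ∀ k ∈ I, ∃ g : ℤ, D k = g ^ 2 * d := fun k hk =>
    tlow_shape hd hf0 (by rw [← e']; exact (h4 k hk).2)
  have lw : ∀ k ∈ I, Low L (D k) := fun k hk =>
    hL.of_sq (hne k₀) (by rw [mul_comm]; exact (h4 k hk).2) (hne k)
  have hX0 : X₀ ≤ Real.log (-(D k₀ : ℝ)) :=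
    (Real.le_log_iff_exp_le ((Real.exp_pos _).trans_le h5)).2 h5
  obtain ⟨r, s, v, G, T, W, y, hr, g1, g2, rfl, rfl, rfl, g3, g4, g5⟩ :=
    hX τ D I k₀ d L _ m h1 h2 sh h3 (fun k hk => (h4 k hk).1) rfl hX0 hM lw hLe h7
  refine ⟨s.J, s.sub, ⟨_, s.mem 0⟩,
    hm' ⟨r, hr⟩ s ⟨g1, g2⟩ v L G T W y ψ g3 g5 (fun k hk => ?_) h8 h9⟩
  obtain ⟨g, hg⟩ := sh k (s.sub hk)
  rw [hg]
  refine hT g ?_
  rw [← hg]
  exact (Real.exp_le_exp.2 g4).trans (g5.large k hk).1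

theorem goodQ_Sc (n A : ℕ) {Uf Yf : ℝ → ℝ} (hU : ∀ δ, 1 ≤ Uf δ) :
    GoodQ n (Sc (BB n) A Uf Yf) := by
  intro N hN F _ 𝒰 τ D I φ ψ hC hφ hb ho hψ k₀ hk₀ h
  have key : ∀ j : ℕ, ∃ J : Finset (Fin n), ∀ᶠ i in 𝒰, J ⊆ I ∧ J.Nonempty ∧
      |avg (ON N F (τ i)) fun z => ψ i z *
        (PT N F φ I z - (∏ k ∈ J, IN N (φ k)) * PT N F φ (I \ J) z)| ≤ 1 / ((j : ℝ) + 1) := by
    intro j
    obtain ⟨m₀, X₀, hf⟩ := fin_top6 hN F φ hφ hb A Uf Yf hU (θ := 1 / ((j : ℝ) + 1))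
      (by positivity)
    have noi : ∀ᶠ i in 𝒰, ∀ k ∈ I, ∀ l ∈ I, ∀ g ∈ Icc 1 m₀, k ≠ l →
        ¬ Ig g (jInv (τ i k)) (jInv (τ i l)) := by
      refine (eventually_all_finset I).2 fun k hk => (eventually_all_finset I).2 fun l hl =>
        (eventually_all_finset _).2 fun g hg => ?_
      by_cases hkl : k = l
      · exact Eventually.of_forall fun i h' => (h' hkl).elim
      · have hg' : 0 < g := (mem_Icc.1 hg).1
        filter_upwards [hC.noi k hk l hl hkl g hg'] with i hi _ h'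
        exact hi (RingEquiv.refl ℂ) (h'.isog hg')
    refine Ultrafilter.eventually_exists_iff.1 ?_
    filter_upwards [h, hC.big, hC.sq, hC.inf X₀, noi, ho] with i h1 h2 h3 h4 h5 h6
    exact hf (τ i) (D i) I k₀ (ψ i) (hC.disc i) h2 hk₀
      (fun k hk => ⟨h1.1 k hk, h3 k₀ hk₀ k hk⟩) (h4 k₀ hk₀) h1.2
      (fun k hk l hl hkl g g1 g2 => h5 k hk l hl g (mem_Icc.2 ⟨g1, g2⟩) hkl) h6 (hψ i)
  choose Jf hJ using key
  obtain ⟨J, hinf⟩ := Finite.exists_infinite_fiber Jf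
  have hinf' : (Jf ⁻¹' {J}).Infinite := Set.infinite_coe_iff.1 hinf
  obtain ⟨j₀, hj₀⟩ := hinf'.nonempty
  obtain ⟨i₀, hi₀⟩ := (hJ j₀).exists
  rw [show Jf j₀ = J from hj₀] at hi₀
  refine ⟨J, hi₀.1, hi₀.2.1, Metric.tendsto_nhds.2 fun ε hε => ?_⟩
  obtain ⟨j₁, hj₁⟩ := exists_nat_one_div_lt hε
  obtain ⟨j, hj, hlt⟩ := hinf'.exists_gt j₁
  filter_upwards [hJ j] with i hi
  rw [show Jf j = J from hj] at hi
  rw [Real.dist_eq, sub_zero]
  refine hi.2.2.trans_lt (lt_of_le_of_lt ?_ hj₁)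
  have : (j₁ : ℝ) ≤ j := by exact_mod_cast hlt.le
  exact one_div_le_one_div_of_le (by positivity) (by linarith)

theorem GoodQ.mono {Q Q' : ℤ → Prop} (h : GoodQ n Q) {Y : ℝ}
    (hQ : ∀ D : ℤ, Y ≤ -(D : ℝ) → Q' D → Q D) : GoodQ n Q' := by
  intro N hN F _ 𝒰 τ D I φ ψ hC hφ hb ho hψ k₀ hk₀ h'
  refine h N hN F 𝒰 τ D I φ ψ hC hφ hb ho hψ k₀ hk₀ ?_
  filter_upwards [h', hC.inf Y] with i h1 h2
  exact ⟨h1.1, hQ _ (h2 k₀ hk₀) h1.2⟩

theorem ytb_clsA (hN : 0 < N) {F : IntermediateField ℚ ℂ} [FiniteDimensional ℚ F]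
    {𝒰 : Ultrafilter ℕ} (h𝒰 : (𝒰 : Filter ℕ) ≤ atTop) {τ : ℕ → Fin n → ℍ} {D : ℕ → Fin n → ℤ}
    {φ : Fin n → (ℍ →ᵇ ℝ)} {J : Finset (Fin n)} {ψ : ℕ → (Fin n × Fn → ℂ) → ℝ}
    (hC : Cls 𝒰 τ D J) (hφ : ∀ k, Tst N F (φ k)) (hψ : WtN 𝒰 D J ψ) (S : Finset ℕ)
    (hS : ∀ p ∈ S, p.Prime) {η : ℝ} (hη : 0 < η) {j₀ : Fin n} (hj₀ : j₀ ∈ J)
    (h0 : ∀ᶠ i in 𝒰, ∀ k ∈ J, -(D i k : ℝ) ≤ -(D i j₀ : ℝ))
    (hA : ∀ᶠ i in 𝒰, |(D i j₀ : ℝ)| ^ η ≤ ∏ p ∈ S, (p : ℝ) ^ padicValInt p (D i j₀)) :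
    StepN 𝒰 N F τ φ J ψ := by
  have hneg : ∀ i k, D i k < 0 := fun i k => (hC.disc i k).isD.1
  have hJ : J.Nonempty := ⟨j₀, hj₀⟩
  have hSne : S.Nonempty := by
    rcases S.eq_empty_or_nonempty with rfl | h
    · obtain ⟨i, h1, h2⟩ := (hA.and (hC.inf 2)).exists
      rw [Finset.prod_empty] at h1
      have h3 : 1 < |(D i j₀ : ℝ)| := by linarith [h2 j₀ hj₀, neg_le_abs (D i j₀ : ℝ)]
      exact absurd (Real.one_lt_rpow h3 hη) (not_lt.2 h1)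
    · exact h
  have hSc : (0 : ℝ) < S.card := by exact_mod_cast hSne.card_pos
  obtain ⟨p, hp, h1⟩ := ultra_max 𝒰 hSne fun i p => (p : ℝ) ^ padicValInt p (D i j₀)
  obtain ⟨j, hj, h2⟩ := ultra_max 𝒰 hJ fun i k => padicValInt p (D i k)
  have : Fact p.Prime := ⟨hS p hp⟩
  have hp1 : (1 : ℝ) < p := by exact_mod_cast (hS p hp).one_lt
  refine stepU_a hN h𝒰 hC hφ hψ p hj h2 (div_pos hη hSc) ?_
  filter_upwards [h0, h1, h2, hA] with i h0 h1 h2 h3 k hk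
  have h4 : (D i j₀ : ℝ) < 0 := by exact_mod_cast hneg i j₀
  have h5 : (D i k : ℝ) < 0 := by exact_mod_cast hneg i k
  have h6 : (-(D i k : ℝ)) ^ η ≤ ((p : ℝ) ^ padicValInt p (D i j)) ^ S.card := by
    refine (Real.rpow_le_rpow (by linarith) (h0 k hk) hη.le).trans ?_
    rw [← abs_of_neg h4]
    refine h3.trans ?_
    rw [← Finset.prod_const]
    exact Finset.prod_le_prod (fun _ _ => by positivity) fun q hq =>
      (h1 q hq).trans (pow_le_pow_right₀ hp1.le (h2 j₀ hj₀))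
  have h7 : (-(D i k : ℝ)) ^ (η / S.card) ≤ (p : ℝ) ^ padicValInt p (D i j) := by
    rw [div_eq_mul_inv, Real.rpow_mul (by linarith)]
    refine (Real.rpow_le_rpow (Real.rpow_nonneg (by linarith) _) h6 (by positivity)).trans ?_
    rw [Real.pow_rpow_inv_natCast (by positivity) hSne.card_pos.ne']
  rw [norm_int_eq p (hneg i j).ne, zpow_neg, zpow_natCast, Real.rpow_neg (by linarith)]
  exact inv_anti₀ (Real.rpow_pos_of_pos (by linarith) _) h7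

theorem clsQ {Q : ℤ → Prop} (hQ : GoodQ n Q) (hN : 0 < N) {F : IntermediateField ℚ ℂ}
    [FiniteDimensional ℚ F] {𝒰 : Ultrafilter ℕ} (h𝒰 : (𝒰 : Filter ℕ) ≤ atTop)
    {τ : ℕ → Fin n → ℍ} {D : ℕ → Fin n → ℤ} {φ : Fin n → (ℍ →ᵇ ℝ)} {I : Finset (Fin n)}
    {ψ : ℕ → (Fin n × Fn → ℂ) → ℝ} (hC : Cls 𝒰 τ D I) (hφ : ∀ k, Tc N F (φ k))
    (hψ : WtN 𝒰 D I ψ) (S : Finset ℕ) (hS : ∀ p ∈ S, p.Prime) {η : ℝ} (hη : 0 < η)
    (hdom : ∀ k ∈ I, ∀ᶠ i in 𝒰,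
      |(D i k : ℝ)| ^ η ≤ ∏ p ∈ S, (p : ℝ) ^ padicValInt p (D i k) ∨ Q (D i k)) :
    Eqd 𝒰 N F τ φ I ψ := by
  obtain ⟨B, hB⟩ := hψ.bd
  have hS0 : 0 ≤ ∑ k, ‖φ k‖ := Finset.sum_nonneg fun _ _ => norm_nonneg _
  have hu : 0 < 1 / (2 * (∑ k, ‖φ k‖ + 1)) := by positivity
  have hw : 0 < 1 / (|B| + 1) := by positivity
  have a1 : ∀ k, Tc N F ((1 / (2 * (∑ k, ‖φ k‖ + 1))) • φ k) := fun k => by
    refine ⟨fun γ hγ t => ?_, ?_⟩
    · simp only [BoundedContinuousFunction.coe_smul, (hφ k).1 γ hγ t]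
    · obtain ⟨K, hK, hK'⟩ := (hφ k).2
      refine ⟨K, hK, fun t ht => hK' t fun h0 => ht ?_⟩
      simp only [BoundedContinuousFunction.coe_smul, h0, smul_zero]
  have a2 : ∀ k, ‖(1 / (2 * (∑ k, ‖φ k‖ + 1))) • φ k‖ ≤ 1 / 2 := fun k => by
    have h1 : ‖φ k‖ ≤ ∑ k, ‖φ k‖ :=
      Finset.single_le_sum (f := fun k => ‖φ k‖) (fun _ _ => norm_nonneg _) (mem_univ k)
    rw [norm_smul, Real.norm_of_nonneg hu.le, one_div, inv_mul_le_iff₀ (by positivity)]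
    linarith
  have a3 : ∀ᶠ i in 𝒰, Oth I (D i) fun z => 1 / (|B| + 1) * ψ i z := by
    filter_upwards [hψ.oth] with i hi z z' hz
    exact congrArg (fun t => 1 / (|B| + 1) * t) (hi z z' hz)
  have a4 : ∀ i z, |1 / (|B| + 1) * ψ i z| ≤ 1 := fun i z => by
    rw [abs_mul, abs_of_pos hw, one_div, inv_mul_le_iff₀ (by positivity)]
    linarith [hB i z, le_abs_self B]
  refine Eqd.scale hu.ne' hw.ne' (eqd_of_step fun J hJ hne => ?_)
  obtain ⟨j₀, hj₀, h0⟩ := ultra_max 𝒰 hne fun i k => -(D i k : ℝ)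
  rcases Ultrafilter.eventually_or.1 (hdom j₀ (hJ hj₀)) with hA | hq
  · exact ytb_clsA hN h𝒰 (hC.mono hJ) (fun k => (a1 k).1)
      ⟨a3.mono fun _ a => a.mono hJ, 1, a4⟩ S hS hη hj₀ h0 hA
  · refine hQ N hN F 𝒰 τ D J _ _ (hC.mono hJ) a1 a2 (a3.mono fun _ a => a.mono hJ) a4 j₀ hj₀ ?_
    filter_upwards [h0, hq] with i b1 b2
    refine ⟨fun k hk => ?_, b2⟩
    have := neg_le_neg_iff.1 (b1 k hk)
    exact_mod_cast this

end Pool.Agent.EQ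
end
end

-- part Pool.Agent.P.MP_ad7a55_nt.YVa
section

/-! The induction over the classes with a condition on the discriminants. -/

set_option autoImplicit false

noncomputable section

open MeasureTheory Topology Filter UpperHalfPlane
open scoped MatrixGroups ENNReal BoundedContinuousFunction

namespace Pool.Agent.EQ

variable {n N : ℕ} {Q : ℤ → Prop}

theorem yva_cls (hQ : GoodQ n Q) (hN : 0 < N) {F : IntermediateField ℚ ℂ} [FiniteDimensional ℚ F]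
    {τ : ℕ → Fin n → ℍ} {D : ℕ → Fin n → ℤ} {φ : Fin n → (ℍ →ᵇ ℝ)} {𝒰 : Ultrafilter ℕ}
    (h𝒰 : (𝒰 : Filter ℕ) ≤ atTop) {I : Finset (Fin n)} {ψ : ℕ → (Fin n × Fn → ℂ) → ℝ}
    (hC : Cls 𝒰 τ D I) (hφ : ∀ k, Tc N F (φ k)) (hψ : WtN 𝒰 D I ψ) (S : Finset ℕ)
    (hS : ∀ p ∈ S, p.Prime) {η L : ℝ} (hη : 0 < η)
    (hdom : ∀ k ∈ I, ∀ᶠ i in 𝒰,
      (|(D i k : ℝ)| ^ η ≤ ∏ p ∈ S, (p : ℝ) ^ padicValInt p (D i k) ∨ Q (D i k)) ∨
        (Low L (D i k) ∧ ∃ p ∈ S, ∃ q ∈ S, p ≠ q ∧ p ≠ 2 ∧ q ≠ 2 ∧ (∃ κ, Spl p κ (D i k)) ∧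
          ∃ κ, Spl q κ (D i k))) : Eqd 𝒰 N F τ φ I ψ := by
  have hneg : ∀ i k, D i k < 0 := fun i k => (hC.disc i k).isD.1
  by_cases hA : ∀ k ∈ I, ∀ᶠ i in 𝒰,
      |(D i k : ℝ)| ^ η ≤ ∏ p ∈ S, (p : ℝ) ^ padicValInt p (D i k) ∨ Q (D i k)
  · exact clsQ hQ hN h𝒰 hC hφ hψ S hS hη hA
  obtain ⟨j, hj⟩ := not_forall.1 hA
  obtain ⟨hj, h0⟩ := Classical.not_imp.1 hj
  have h1 := (Ultrafilter.eventually_or.1 (hdom j hj)).resolve_left h0
  obtain ⟨p, hp, h2⟩ := ultra_fin 𝒰 S (h1.mono fun i hi => hi.2)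
  obtain ⟨q, hq, h3⟩ := ultra_fin 𝒰 S h2
  obtain ⟨-, hpq, hp2, hq2, -⟩ := h3.exists
  have : Fact p.Prime := ⟨hS p hp⟩
  have : Fact q.Prime := ⟨hS q hq⟩
  refine clsC hN h𝒰 hC (fun k => (hφ k).1) hψ p q hpq hp2 hq2 (L := L) ?_
  filter_upwards [h1, h3, hC.sq] with i a1 ⟨_, _, _, ⟨κ, a2⟩, κ', a3⟩ a4 k hk
  exact ⟨a1.1.of_sq (hneg i j).ne (a4 k hk j hj) (hneg i k).ne,
    a2.of_sq p (hneg i k).ne (a4 k hk j hj), a3.of_sq q (hneg i k).ne (a4 k hk j hj)⟩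

theorem mainV6 (hQ : GoodQ n Q) (hN : 0 < N) {F : IntermediateField ℚ ℂ} [FiniteDimensional ℚ F]
    {τ : ℕ → Fin n → ℍ} {D : ℕ → Fin n → ℤ} {φ : Fin n → (ℍ →ᵇ ℝ)} {𝒰 : Ultrafilter ℕ}
    (h𝒰 : (𝒰 : Filter ℕ) ≤ atTop) (hD : ∀ i k, HasDisc (τ i k) (D i k))
    (hinf : ∀ Y : ℝ, ∀ᶠ i in 𝒰, ∀ k, Y ≤ -(D i k : ℝ)) (hgen : NoIs 𝒰 τ Finset.univ)
    (hφ : ∀ k, Tc N F (φ k)) (S : Finset ℕ) (hS : ∀ p ∈ S, p.Prime) {η L : ℝ} (hη : 0 < η)
    (hdom : ∀ k, ∀ᶠ i in 𝒰,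
      (|(D i k : ℝ)| ^ η ≤ ∏ p ∈ S, (p : ℝ) ^ padicValInt p (D i k) ∨ Q (D i k)) ∨
        (Low L (D i k) ∧ ∃ p ∈ S, ∃ q ∈ S, p ≠ q ∧ p ≠ 2 ∧ q ≠ 2 ∧ (∃ κ, Spl p κ (D i k)) ∧
          ∃ κ, Spl q κ (D i k))) (I : Finset (Fin n)) :
    Tendsto (fun i => avg (ON N F (τ i)) (PT N F φ I)) 𝒰 (𝓝 (∏ k ∈ I, IN N (φ k))) := by
  classical
  have hneg : ∀ i k, D i k < 0 := fun i k => (hD i k).isD.1
  induction I using Finset.strongInduction with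
  | H I ih =>
    rcases I.eq_empty_or_nonempty with rfl | ⟨j, hj⟩
    · have : ∀ i, avg (ON N F (τ i)) (PT N F φ ∅) = 1 := fun i => by
        have h2 : ((ON N F (τ i)).card : ℝ) ≠ 0 := by
          exact_mod_cast (ON_ne hN F (hD i)).card_pos.ne'
        simp only [avg, PT, Finset.prod_empty, Finset.sum_const, nsmul_eq_mul, mul_one]
        exact div_self h2
      rw [funext this, Finset.prod_empty]
      exact tendsto_const_nhds
    set C := I.filter fun k => ∀ᶠ i in 𝒰, IsSquare (D i k * D i j) with hCd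
    have hCI : C ⊆ I := Finset.filter_subset _ _
    have hjC : j ∈ C := Finset.mem_filter.2 ⟨hj, Eventually.of_forall fun i => ⟨_, rfl⟩⟩
    have h1 : ∀ᶠ i in 𝒰, ∀ k ∈ C, IsSquare (D i k * D i j) :=
      (eventually_all_finset C).2 fun k hk => (Finset.mem_filter.1 hk).2
    have h2 : ∀ᶠ i in 𝒰, ∀ k ∈ I \ C, ¬ IsSquare (D i k * D i j) :=
      (eventually_all_finset _).2 fun k hk => Ultrafilter.eventually_not.2 fun h =>
        (Finset.mem_sdiff.1 hk).2 (Finset.mem_filter.2 ⟨(Finset.mem_sdiff.1 hk).1, h⟩)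
    have hC : Cls 𝒰 τ D C :=
      ⟨hD, (hinf 577).mono fun i hi k => by
          have : (D i k : ℝ) < -576 := by linarith [hi k]
          exact_mod_cast this,
        h1.mono fun i hi k hk l hl => ums_sq (hneg i j).ne (hi k hk) (mul_comm (D i l) _ ▸ hi l hl),
        fun Y => (hinf Y).mono fun i hi k _ => hi k,
        fun k _ l _ => hgen k (Finset.mem_univ k) l (Finset.mem_univ l)⟩
    have hψ : WtN 𝒰 D C fun _ => PT N F φ (I \ C) :=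
      ⟨(h1.and h2).mono fun i hi => oth_PT fun k hk l hl h =>
        hi.2 k hk (ums_sq (hneg i l).ne h (hi.1 l hl)), _, fun _ z => abs_PT_le N F φ _ z⟩
    have h3 := (yva_cls hQ hN h𝒰 hC hφ hψ S hS hη fun k _ => hdom k).add
      ((ih (I \ C) (Finset.sdiff_ssubset hCI ⟨j, hjC⟩)).mul_const (∏ k ∈ C, IN N (φ k)))
    rw [zero_add, Finset.prod_sdiff hCI] at h3
    refine h3.congr fun i => ?_
    simp only [avg, mul_sub, Finset.sum_sub_distrib, ← Finset.sum_mul, PT, Finset.prod_sdiff hCI]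
    ring

theorem yva_mainW (hQ : GoodQ n Q) (hN : 0 < N) {F : IntermediateField ℚ ℂ}
    [FiniteDimensional ℚ F] {τ : ℕ → Fin n → ℍ} {D : ℕ → Fin n → ℤ} {φ : Fin n → (ℍ →ᵇ ℝ)}
    (S : Finset ℕ) (hS : ∀ p ∈ S, p.Prime) {η c Y : ℝ} (hη : 0 < η) (hc : 0 < c)
    (hD : ∀ i k, HasDisc (τ i k) (D i k))
    (hdom : ∀ k, ∀ᶠ i in atTop, Y ≤ -(D i k : ℝ) →
      (|(D i k : ℝ)| ^ η ≤ ∏ p ∈ S, (p : ℝ) ^ padicValInt p (D i k) ∨ Q (D i k)) ∨
        ∃ d f : ℤ, Squarefree d ∧ D i k = f ^ 2 * d ∧ NoZero c d ∧ ∃ p ∈ S, ∃ q ∈ S,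
          p ≠ q ∧ p ≠ 2 ∧ q ≠ 2 ∧ jacobiSym d p = 1 ∧ jacobiSym d q = 1)
    (hinf : ∀ Y : ℝ, ∀ᶠ i in atTop, ∀ k, Y ≤ -(D i k : ℝ)) (hgen : NoIsog τ)
    (hφ : ∀ k, Tc N F (φ k)) :
    Tendsto (fun i => avg (ON N F (τ i)) (PT N F φ Finset.univ)) atTop
      (𝓝 (∏ k, IN N (φ k))) := by
  classical
  obtain ⟨L, -, hL⟩ := low_of_noZero hc
  refine (tendsto_iff_ultrafilter _ _ _).2 fun 𝒰 h𝒰 => mainV6 hQ hN h𝒰 hD (fun Y => h𝒰 (hinf Y))
    (fun k _ l _ hkl M hM => h𝒰 (hgen k l hkl M hM)) hφ S hS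
    (L := L) hη (fun k => h𝒰 ?_) Finset.univ
  filter_upwards [hdom k, hinf Y] with i hi hY
  refine (hi (hY k)).imp_right ?_
  rintro ⟨d, e, h6, h7, h8, p, hp, q, hq, a1, a2, a3, a4, a5⟩
  have h9 : e ^ 2 * d < 0 := h7 ▸ (hD i k).isD.1
  have he : e ≠ 0 := by
    rintro rfl
    simp at h9
  have : Fact p.Prime := ⟨hS p hp⟩
  have : Fact q.Prime := ⟨hS q hq⟩
  rw [h7]
  exact ⟨hL d e h6 h9 h8, p, hp, q, hq, a1, a2, a3, spl_of_jac p a4 he, spl_of_jac q a5 he⟩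

theorem final6 (hQ : GoodQ n Q) (hN : 0 < N) {F L : IntermediateField ℚ ℂ}
    {Γ : Fin n → Subgroup SL(2, ℤ)} {B : Fin n → Set (ℍ → ℂ)}
    (hΓ : ∀ k, CongruenceSubgroup.Gamma N ≤ Γ k) [FiniteDimensional ℚ F] [FiniteDimensional ℚ L]
    (hj : ∀ k, jInv ∈ B k) (hB : ∀ k, ∀ f ∈ B k, IsMF (Γ k) N L f) (S : Finset ℕ)
    (hS : ∀ p ∈ S, p.Prime) {η c Y : ℝ} (hη : 0 < η) (hc : 0 < c)
    (τ : ℕ → Fin n → ℍ) (D : ℕ → Fin n → ℤ) (hD : ∀ i k, HasDisc (τ i k) (D i k))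
    (hdom : ∀ k, ∀ᶠ i in atTop, Y ≤ -(D i k : ℝ) →
      (|(D i k : ℝ)| ^ η ≤ ∏ p ∈ S, (p : ℝ) ^ padicValInt p (D i k) ∨ Q (D i k)) ∨
        ∃ d f : ℤ, Squarefree d ∧ D i k = f ^ 2 * d ∧ NoZero c d ∧ ∃ p ∈ S, ∃ q ∈ S,
          p ≠ q ∧ p ≠ 2 ∧ q ≠ 2 ∧ jacobiSym d p = 1 ∧ jacobiSym d q = 1)
    (hpt : ∀ k, ∀ z : ℂ, {i | jInv (τ i k) = z}.Finite)
    (hgen : ∀ k l, k ≠ l → ∀ a b c d : ℤ, 0 < a * d - b * c →
      {i | ∃ z w : ℍ, (w : ℂ) = (a * z + b) / (c * z + d) ∧ jInv (τ i k) = jInv z ∧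
        jInv (τ i l) = jInv w}.Finite)
    (f : (∀ k, YG (Γ k)) → ℝ) (hf : Continuous f) (hs : HasCompactSupport f) :
    (∀ i, (orbG F Γ B (τ i)).Finite) ∧
      Tendsto (fun i => (∑ᶠ y ∈ orbG F Γ B (τ i), f y) / (orbG F Γ B (τ i)).ncard) atTop
        (𝓝 (∫ w, f (fun k => Quotient.mk _ (w k)) ∂(Measure.pi fun k => mH (Γ k)))) := by
  obtain ⟨F', hF', hF, hL, -⟩ := exists_field F L hN
  have : NeZero N := ⟨hN.ne'⟩
  have : ∀ k, (Γ k).FiniteIndex := fun k => Subgroup.finiteIndex_of_le (hΓ k)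
  have hfin := fun i => (orbG_fin (F := F) hN hΓ hj (hD i)).2
  refine ⟨hfin, final_prod Γ _ hfin (fun a ha => ?_) f hf hs⟩
  obtain ⟨φ, Y', hφ, hw⟩ := orb_worst hN hΓ hj hB hF hL a ha
  choose w σ h1 h2 h3 using fun i => hw (τ i) (D i) (hD i) (∏ k, IN N (φ k))
  have hinf : ∀ Y : ℝ, ∀ᶠ i in atTop, ∀ k, Y ≤ -(D i k : ℝ) := fun Y =>
    eventually_all.2 fun k => disc_tendsto (fun i => hD i k) (hpt k) Y
  have hno : NoIsog w := fun k l hkl M hM => by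
    filter_upwards [noIsog_of_finite τ hgen k l hkl M hM] with i hi σ'
    rw [h2, h2]
    exact hi ((σ i).trans σ')
  have key := yva_mainW hQ hN S hS hη hc h1 hdom hinf hno fun k => (hφ k).1
  simp only [← fun k => (hφ k).2]
  rw [tendsto_iff_norm_sub_tendsto_zero] at key ⊢
  exact squeeze_zero' (Eventually.of_forall fun _ => norm_nonneg _)
    ((hinf Y').mono fun i hi => h3 i hi) key

end Pool.Agent.EQ
end
end
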