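import Pool.Agent.K.MP_ad7a55_nt.C90
import Pool.Agent.K.MP_ad7a55_nt.C89
import Pool.Agent.K.MP_ad7a55_nt.C84
import Pool.Agent.K.MP_ad7a55_nt.C70
import Pool.Agent.K.MP_ad7a55_nt.C73
import Pool.Agent.K.MP_ad7a55_nt.C85
import Pool.Agent.K.MP_ad7a55_nt.C76

-- part Pool.Agent.P.MP_ad7a55_nt.ZSb
section

/-! One step of the induction from good windows. -/

set_option autoImplicit false

noncomputable section

open MeasureTheory Topology Filter UpperHalfPlane Finset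
open scoped MatrixGroups BoundedContinuousFunction Matrix Classical

namespace Pool.Agent.EQ

/-- Many good windows and a class number that is not small. -/
def Sc7 (r : ℕ) (D : ℤ) : Prop :=
  (∃ d f : ℤ, Squarefree d ∧ D = f ^ 2 * d) ∧ Low (Real.log (-(D : ℝ)) ^ 4) D ∧
    ∃ Js : Finset ℕ, r < #Js ∧ ∀ j ∈ Js, Wn D (Real.log (-(D : ℝ))) j

variable {n N : ℕ}

theorem fin_top7 (hN : 0 < N) (F : IntermediateField ℚ ℂ) [FiniteDimensional ℚ F]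
    (φ : Fin n → (ℍ →ᵇ ℝ)) (hφ : ∀ k, Tc N F (φ k)) (hb : ∀ k, ‖φ k‖ ≤ 1 / 2) {θ : ℝ}
    (hθ : 0 < θ) : ∃ (m₀ : ℕ) (X₀ : ℝ),
    ∀ (τ : Fin n → ℍ) (D : Fin n → ℤ) (I : Finset (Fin n)) (k₀ : Fin n)
      (ψ : (Fin n × Fn → ℂ) → ℝ), (∀ k, HasDisc (τ k) (D k)) → (∀ k, D k < -576) → k₀ ∈ I →
      (∀ k ∈ I, D k₀ ≤ D k ∧ IsSquare (D k₀ * D k)) → X₀ ≤ -(D k₀ : ℝ) →
      Sc7 (4 * (n + n ^ 2)) (D k₀) →
      (∀ k ∈ I, ∀ l ∈ I, k ≠ l → ∀ g : ℕ, 0 < g → g ≤ m₀ → ¬ Ig g (jInv (τ k)) (jInv (τ l))) →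
      Oth I D ψ → (∀ z, |ψ z| ≤ 1) → ∃ J ⊆ I, J.Nonempty ∧ |avg (ON N F τ) fun z => ψ z *
        (PT N F φ I z - (∏ k ∈ J, IN N (φ k)) * PT N F φ (I \ J) z)| ≤ θ := by
  obtain ⟨e, he, hm⟩ := fin_main6 hN F n
  obtain ⟨Uf, Yf, hU, hT⟩ := tg_pool
  have key : ∀ r : Fin n, ∀ᶠ m : ℕ in atTop,
      ∀ s ∈ {s : Shp n (Fin (r + 1)) | s.N = N ∧ s.e = e}, ∀ (v : VD n) (L G T W : ℝ) (y : ℕ)
        (ψ : (Fin n × Fn → ℂ) → ℝ), (m : ℝ) ≤ G → s.Ok6 v L G T W 3 m y →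
        (∀ k ∈ s.J, Tg Uf Yf (v.D k)) → Oth s.I v.D ψ →
        (∀ z, |ψ z| ≤ 1) → |avg (ON N F v.τ) fun z => ψ z *
          (PT N F φ s.I z - (∏ k ∈ s.J, IN N (φ k)) * PT N F φ (s.I \ s.J) z)| ≤ θ := by
    intro r
    have hf : {s : Shp n (Fin (r + 1)) | s.N = N ∧ s.e = e}.Finite := by
      refine Set.Finite.of_injOn (f := fun s => (s.I, s.J, s.cr, s.bs)) (Set.mapsTo_univ _ _) ?_
        Set.finite_univ
      rintro ⟨N1, e1, I1, J1, c1, b1, _, _, _⟩ ⟨rfl, rfl⟩ ⟨N2, e2, I2, J2, c2, b2, _, _, _⟩ ⟨h1, h2⟩ h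
      simp only [Prod.mk.injEq] at h h1 h2
      obtain ⟨rfl, rfl, rfl, rfl⟩ := h
      subst h1 h2
      rfl
    refine (eventually_all_finite hf).2 fun s hs => ?_
    obtain ⟨m₀, G₀, h⟩ := hm φ hφ hb _ s hs.1 hs.2 Uf Yf hU θ 3 hθ
    filter_upwards [eventually_ge_atTop m₀,
      tendsto_natCast_atTop_atTop.eventually (eventually_ge_atTop G₀)]
      with m h1 h2 v L G T W y ψ h3 h4
    exact h v L G T W y ψ (h2.trans h3)
      { h4 with noi := fun k hk l hl hkl d hd hd' => h4.noi k hk l hl hkl d hd (hd'.trans h1) }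
  obtain ⟨m, hm'⟩ := (eventually_all.2 key).exists
  obtain ⟨X₀, hX⟩ := exists_setup7 n N e hN he m
  refine ⟨m, Real.exp X₀, fun τ D I k₀ ψ h1 h2 h3 h4 h5 h6 h7 h8 h9 => ?_⟩
  obtain ⟨⟨d, f, hd, e'⟩, hL, Js, hJs, hW⟩ := h6
  have hne : ∀ k, D k ≠ 0 := fun k => by linarith [h2 k] |> ne_of_lt
  have hf0 : f ≠ 0 := by
    rintro rfl
    exact hne k₀ (by rw [e']; simp)
  have sh : ∀ k ∈ I, ∃ g : ℤ, D k = g ^ 2 * d := fun k hk =>
    tlow_shape hd hf0 (by rw [← e']; exact (h4 k hk).2)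
  have lw : ∀ k ∈ I, Low (Real.log (-(D k₀ : ℝ)) ^ 4) (D k) := fun k hk =>
    hL.of_sq (hne k₀) (by rw [mul_comm]; exact (h4 k hk).2) (hne k)
  have hX0 : X₀ ≤ Real.log (-(D k₀ : ℝ)) :=
    (Real.le_log_iff_exp_le ((Real.exp_pos _).trans_le h5)).2 h5
  have hbig : ∀ k, (576 : ℝ) < -(D k : ℝ) := fun k => by
    have : ((D k : ℤ) : ℝ) < ((-576 : ℤ) : ℝ) := by exact_mod_cast h2 k
    push_cast at this
    linarith
  have hlog : ∀ k, 1 ≤ Real.log (-(D k : ℝ)) := fun k => by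
    rw [Real.le_log_iff_exp_le (by linarith [hbig k])]
    linarith [hbig k, Real.exp_one_lt_d9]
  have hX1 := hlog k₀
  have hL5 : |Real.log (-(D k₀ : ℝ)) ^ 4| ≤ Real.log (-(D k₀ : ℝ)) ^ 5 := by
    rw [abs_of_nonneg (by positivity)]
    exact pow_le_pow_right₀ hX1 (by norm_num)
  obtain ⟨r, s, v, G, T, W, y, hr, g1, g2, rfl, rfl, rfl, g3, g4, g5, g6, g7⟩ :=
    hX τ D I k₀ d _ _ m Js h1 h2 sh h3 (fun k hk => (h4 k hk).1) rfl hX0 hJs hW lw hL5 h7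
  refine ⟨s.J, s.sub, ⟨_, s.mem 0⟩,
    hm' ⟨r, hr⟩ s ⟨g1, g2⟩ v _ G T W y ψ g3 g7 (fun k hk => ?_) h8 h9⟩
  refine hT (v.D k) v.E v.b _ (Real.log (Real.log (-(v.D k₀ : ℝ)))) y v.P g7.Ebig
    ((g7.fit k hk).trans (fit_sq g7.N_pos _)) (g7.low k hk) ?_ ?_ g4 ?_ g6 fun p hp => ?_
  · refine Real.log_le_log (by linarith [hlog k]) (Real.log_le_log (by linarith [hbig k]) ?_)
    have : ((v.D k₀ : ℤ) : ℝ) ≤ v.D k := by exact_mod_cast (h4 k (s.sub hk)).1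
    linarith
  · refine hL5.trans (le_of_eq ?_)
    rw [show (5 : ℝ) = ((5 : ℕ) : ℝ) by norm_num, Real.exp_nat_mul, Real.exp_log (by linarith)]
  · have : W ≤ Real.log (-(v.D k : ℝ)) :=
      (Real.le_log_iff_exp_le (by linarith [hbig k])).2 (g7.large k hk).1
    linarith
  · obtain ⟨q1, q2, q3, q4⟩ := g7.pP p hp
    refine ⟨q1, q2, q3, fun h => q4 (h.trans ⟨s.N * s.dd v, by ring⟩), Dvd.dvd.trans ?_ g7.bP⟩
    exact mul_dvd_mul_left 4 (Int.natCast_dvd_natCast.2 (Finset.dvd_prod_of_mem (fun q => q) hp))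

theorem goodQ_Sc7 (n : ℕ) : GoodQ n (Sc7 (4 * (n + n ^ 2))) := by
  intro N hN F _ 𝒰 τ D I φ ψ hC hφ hb ho hψ k₀ hk₀ h
  have key : ∀ j : ℕ, ∃ J : Finset (Fin n), ∀ᶠ i in 𝒰, J ⊆ I ∧ J.Nonempty ∧
      |avg (ON N F (τ i)) fun z => ψ i z *
        (PT N F φ I z - (∏ k ∈ J, IN N (φ k)) * PT N F φ (I \ J) z)| ≤ 1 / ((j : ℝ) + 1) := by
    intro j
    obtain ⟨m₀, X₀, hf⟩ := fin_top7 hN F φ hφ hb (θ := 1 / ((j : ℝ) + 1))
      (by positivity)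
    have noi : ∀ᶠ i in 𝒰, ∀ k ∈ I, ∀ l ∈ I, ∀ g ∈ Icc 1 m₀, k ≠ l →
        ¬ Ig g (jInv (τ i k)) (jInv (τ i l)) := by
      refine (eventually_all_finset I).2 fun k hk => (eventually_all_finset I).2 fun l hl =>
        (eventually_all_finset _).2 fun g hg => ?_
      by_cases hkl : k = l
      · exact Eventually.of_forall fun i h' => (h' hkl).elim
      · have hg' : 0 < g := (mem_Icc.1 hg).1
        filter_upwards [hC.noi k hk l hl hkl g hg'] with i hi _ h'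
        exact hi (RingEquiv.refl ℂ) (h'.isog hg')
    refine Ultrafilter.eventually_exists_iff.1 ?_
    filter_upwards [h, hC.big, hC.sq, hC.inf X₀, noi, ho] with i h1 h2 h3 h4 h5 h6
    exact hf (τ i) (D i) I k₀ (ψ i) (hC.disc i) h2 hk₀
      (fun k hk => ⟨h1.1 k hk, h3 k₀ hk₀ k hk⟩) (h4 k₀ hk₀) h1.2
      (fun k hk l hl hkl g g1 g2 => h5 k hk l hl g (mem_Icc.2 ⟨g1, g2⟩) hkl) h6 (hψ i)
  choose Jf hJ using key
  obtain ⟨J, hinf⟩ := Finite.exists_infinite_fiber Jf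
  have hinf' : (Jf ⁻¹' {J}).Infinite := Set.infinite_coe_iff.1 hinf
  obtain ⟨j₀, hj₀⟩ := hinf'.nonempty
  obtain ⟨i₀, hi₀⟩ := (hJ j₀).exists
  rw [show Jf j₀ = J from hj₀] at hi₀
  refine ⟨J, hi₀.1, hi₀.2.1, Metric.tendsto_nhds.2 fun ε hε => ?_⟩
  obtain ⟨j₁, hj₁⟩ := exists_nat_one_div_lt hε
  obtain ⟨j, hj, hlt⟩ := hinf'.exists_gt j₁
  filter_upwards [hJ j] with i hi
  rw [show Jf j = J from hj] at hi
  rw [Real.dist_eq, sub_zero]
  refine hi.2.2.trans_lt (lt_of_le_of_lt ?_ hj₁)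
  have : (j₁ : ℝ) ≤ j := by exact_mod_cast hlt.le
  exact one_div_le_one_div_of_le (by positivity) (by linarith)

theorem GoodQ.or {Q Q' : ℤ → Prop} (h : GoodQ n Q) (h' : GoodQ n Q') :
    GoodQ n fun D => Q D ∨ Q' D := by
  intro N hN F _ 𝒰 τ D I φ ψ hC hφ hb ho hψ k₀ hk₀ h''
  have h1 : ∀ᶠ i in 𝒰, Q (D i k₀) ∨ Q' (D i k₀) := h''.mono fun _ hi => hi.2
  rcases Ultrafilter.eventually_or.1 h1 with h2 | h2
  · refine h N hN F 𝒰 τ D I φ ψ hC hφ hb ho hψ k₀ hk₀ ?_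
    filter_upwards [h'', h2] with i a b using ⟨a.1, b⟩
  · refine h' N hN F 𝒰 τ D I φ ψ hC hφ hb ho hψ k₀ hk₀ ?_
    filter_upwards [h'', h2] with i a b using ⟨a.1, b⟩

end Pool.Agent.EQ
end
end

-- part Pool.Agent.P.MP_ad7a55_nt.YZ
section

/-! The conditions on the discriminants reduce to one scale condition. -/

set_option autoImplicit false

noncomputable section

open Finset
open scoped Classical

namespace Pool.Agent.EQ

/-- Large conductor, or no exceptional zero and many split primes. -/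
def Qs (B A : ℕ) (c : ℝ) (D : ℤ) : Prop :=
  ∃ d f : ℤ, Squarefree d ∧ D = f ^ 2 * d ∧
    (Real.log d.natAbs ≤ thr B (Real.log (-(D : ℝ))) ∨
      (NoZero c d ∧ ManyT A d.natAbs (thr B (Real.log (-(D : ℝ))))))

theorem yz_ev (B : ℕ) (Z₀ X₀ : ℝ) : ∃ Y : ℝ, ∀ y : ℝ, Y ≤ y → 0 < y ∧ X₀ ≤ Real.log y ∧
    Z₀ ≤ thr B (Real.log y) := by
  have h1 := (Real.tendsto_log_atTop).eventually_ge_atTop X₀
  have h2 := ((thr_tendsto B).comp Real.tendsto_log_atTop).eventually_ge_atTop Z₀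
  obtain ⟨Y, hY⟩ := Filter.eventually_atTop.1 ((Filter.eventually_gt_atTop (0 : ℝ)).and (h1.and h2))
  exact ⟨Y, fun y hy => ⟨(hY y hy).1, (hY y hy).2.1, (hY y hy).2.2⟩⟩

theorem yz_le_exp {m : ℕ} {Z : ℝ} (h : Real.log m ≤ Z) : (m : ℝ) ≤ Real.exp Z := by
  rcases Nat.eq_zero_or_pos m with rfl | h0
  · simpa using (Real.exp_pos Z).le
  · have h1 : (0 : ℝ) < m := by exact_mod_cast h0
    calc (m : ℝ) = Real.exp (Real.log m) := (Real.exp_log h1).symm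
      _ ≤ Real.exp Z := Real.exp_le_exp.2 h

theorem yz_le_of_log {m t : ℕ} {Z : ℝ} (hZ : 0 < Z) (h : Real.log m ≤ Z) (ht : Z ≤ Real.log t) :
    m ≤ t := by
  rcases Nat.eq_zero_or_pos t with rfl | h0
  · simp at ht
    linarith
  · have h1 : (0 : ℝ) < t := by exact_mod_cast h0
    have h2 : (m : ℝ) ≤ t := by
      calc (m : ℝ) ≤ Real.exp Z := yz_le_exp h
        _ ≤ Real.exp (Real.log t) := Real.exp_le_exp.2 ht
        _ = t := Real.exp_log h1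
    exact_mod_cast h2

theorem yz_neg {D d f : ℤ} (h1 : D < 0) (e : D = f ^ 2 * d) : -(d.natAbs : ℤ) = d := by
  have h2 : d ≤ 0 := by
    by_contra h
    have : 0 ≤ f ^ 2 * d := mul_nonneg (sq_nonneg f) (le_of_lt (not_le.1 h))
    omega
  omega

theorem yz_log_le {D d f : ℤ} (h1 : D < 0) (e : D = f ^ 2 * d) :
    0 < d.natAbs ∧ Real.log d.natAbs ≤ Real.log (-(D : ℝ)) := by
  have h2 := yz_neg h1 e
  have hf : f ≠ 0 := by
    rintro rfl
    simp at e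
    omega
  have hd : d ≠ 0 := by
    rintro rfl
    simp at e
    omega
  have h0 : 0 < d.natAbs := Int.natAbs_pos.2 hd
  have h3 : 1 ≤ f ^ 2 := by
    have := sq_pos_of_ne_zero hf
    omega
  have h4 : (d.natAbs : ℤ) ≤ -D := by
    have h5 : (0 : ℤ) ≤ d.natAbs := Int.natCast_nonneg _
    have h6 : -D = f ^ 2 * (d.natAbs : ℤ) := by
      rw [e]
      conv_lhs => rw [← h2]
      ring
    nlinarith
  refine ⟨h0, Real.log_le_log (by exact_mod_cast h0) ?_⟩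
  have h7 := (Int.cast_le (R := ℝ)).2 h4
  rwa [Int.cast_natCast, Int.cast_neg] at h7

theorem sc_of_qs (B A : ℕ) {c : ℝ} (hc : 0 < c) : ∃ (A' : ℕ) (Uf Yf : ℝ → ℝ) (Y : ℝ),
    (∀ δ, 1 ≤ Uf δ) ∧ ∀ D : ℤ, Y ≤ -(D : ℝ) → Qs B A c D → Sc B A' Uf Yf D := by
  obtain ⟨C, hC, hlow⟩ := low_small
  obtain ⟨A₀, t₀, hmany⟩ := many_large
  obtain ⟨U₁, Y₁, hU₁, htg₁⟩ := tg_large
  obtain ⟨L₀, hL₀, hlow₀⟩ := low_of_noZero hc
  obtain ⟨U₂, Y₂, -, htg₂⟩ := tg_of_low L₀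
  obtain ⟨Y, hY⟩ := yz_ev B (max (max 1 (Real.log t₀)) (max C L₀)) (Real.exp 50)
  refine ⟨max A A₀, fun δ => max (U₁ δ) (U₂ δ), fun δ => max (Y₁ δ) (Y₂ δ), Y,
    fun δ => (hU₁ δ).trans (le_max_left _ _), fun D hD hQ => ?_⟩
  obtain ⟨hD0, hX, hZ⟩ := hY _ hD
  obtain ⟨d, f, hd, e, h⟩ := hQ
  obtain ⟨Z, hZe⟩ : ∃ Z, Z = thr B (Real.log (-(D : ℝ))) := ⟨_, rfl⟩
  rw [← hZe] at hZ h
  have z1 : 1 ≤ Z := ((le_max_left _ _).trans (le_max_left _ _)).trans hZ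
  have z2 : Real.log t₀ ≤ Z := ((le_max_right _ _).trans (le_max_left _ _)).trans hZ
  have z3 : C ≤ Z := ((le_max_left _ _).trans (le_max_right _ _)).trans hZ
  have z4 : L₀ ≤ Z := ((le_max_right _ _).trans (le_max_right _ _)).trans hZ
  have hneg : D < 0 := by
    have : (D : ℝ) < 0 := by linarith
    exact_mod_cast this
  have h50 : 50 ≤ Real.log (Real.log (-(D : ℝ))) := by
    have := Real.log_le_log (Real.exp_pos 50) hX
    rwa [Real.log_exp] at this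
  have hexp : Z ≤ Real.exp Z := by linarith [Real.add_one_le_exp Z]
  unfold Sc
  rw [← hZe]
  rcases h with h | ⟨hz, hm⟩
  · have hdZ := yz_le_exp h
    refine ⟨d, f, C * d.natAbs, hd, e, ?_, ?_, ?_, fun g hg => ?_⟩
    · refine ManyT.mono (A := A₀) (Z := Z) (fun t ht => ?_) (le_max_right _ _) le_rfl
      exact hmany _ (Int.squarefree_natAbs.2 hd) t (yz_le_of_log (by linarith) z2 ht)
        (yz_le_of_log (by linarith) h ht)
    · rw [e]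
      exact hlow d f hd (e ▸ hneg)
    · rw [abs_of_nonneg (by positivity), two_mul, Real.exp_add]
      exact mul_le_mul (z3.trans hexp) hdZ (Nat.cast_nonneg _) (Real.exp_pos _).le
    · refine (htg₁ d g (le_trans ?_ hg)).mono (fun δ => le_max_left _ _) fun δ => le_max_left _ _
      calc (d.natAbs : ℝ) ^ 50 ≤ Real.exp Z ^ 50 := pow_le_pow_left₀ (Nat.cast_nonneg _) hdZ 50
        _ = Real.exp (Z * 50) := by rw [← Real.exp_nat_mul, mul_comm]; norm_num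
        _ ≤ _ := Real.exp_le_exp.2 (mul_le_mul_of_nonneg_left h50 (by linarith))
  · refine ⟨d, f, L₀, hd, e, hm.mono (le_max_left _ _) le_rfl, ?_, ?_, fun g hg => ?_⟩
    · rw [e]
      exact hlow₀ d f hd (e ▸ hneg) hz
    · rw [abs_of_pos hL₀]
      exact (z4.trans hexp).trans (Real.exp_le_exp.2 (by linarith))
    · have h1 : g ^ 2 * d < 0 := by
        have h2 : ((g ^ 2 * d : ℤ) : ℝ) < 0 := by linarith [(Real.exp_pos _).trans_le hg]
        exact_mod_cast h2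
      exact (htg₂ _ (hlow₀ d g hd h1 hz)).mono (fun δ => le_max_right _ _)
        fun δ => le_max_right _ _

theorem goodQ_Qs (n A : ℕ) {c : ℝ} (hc : 0 < c) : GoodQ n (Qs (BB n) A c) := by
  obtain ⟨A', Uf, Yf, Y, hU, h⟩ := sc_of_qs (BB n) A hc
  exact (goodQ_Sc n A' hU).mono h

theorem merge6 (B A₀ A : ℕ) {c₀ c : ℝ} (hc₀ : 0 < c₀) (hc : 0 < c) :
    ∃ (A' : ℕ) (c' Y : ℝ), 0 < c' ∧ ∀ D d f : ℤ, Y ≤ -(D : ℝ) → Squarefree d → D = f ^ 2 * d →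
      ∀ X w : ℝ, X = Real.log |(D : ℝ)| → w = Real.log X ^ (B + 2) → ∀ P : Prop,
      (d.natAbs ∉ EY B A₀ c₀ ∨ Real.log |(d : ℝ)| ≤ X / w ∨
        (∀ (N : ℕ) [NeZero N] (χ : DirichletCharacter ℂ N), N = 4 * d.natAbs →
          (∀ m : ℕ, Odd m → χ m = jacobiSym d m) →
          ∀ s : ℂ, ‖s - 2‖ < 1 + w / X → χ.LFunction s ≠ 0) ∨
        (NoZero c d ∧ (P ∨ ∀ t : ℕ, X / w ≤ Real.log t → ∃ Q : Finset ℕ, t ≤ Q.card ∧
          ∀ p ∈ Q, p.Prime ∧ p ≤ t ^ A ∧ jacobiSym d p = 1))) →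
      Qs B A' c' D ∨ (NoZero c d ∧ P) := by
  obtain ⟨A₁, X₁, hA₁⟩ := many_of_ZF6 B
  obtain ⟨X₂, hX₂⟩ := noZero_of_ZF6 B (min c₀ c)
  obtain ⟨Y, hY⟩ := yz_ev B (Real.exp B) (max (Real.exp 1) (max X₁ X₂))
  refine ⟨max A₁ (max A₀ A), min c₀ c, Y, lt_min hc₀ hc,
    fun D d f hD hd e X w hX hw P h => ?_⟩
  obtain ⟨hD0, hX0, hZ⟩ := hY _ hD
  have hneg : D < 0 := by
    have : (D : ℝ) < 0 := by linarith
    exact_mod_cast this
  have hXe : X = Real.log (-(D : ℝ)) := by rw [hX, abs_of_neg (by linarith)]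
  have hdd := yz_neg hneg e
  obtain ⟨hm0, hml⟩ := yz_log_le hneg e
  have habs : |(d : ℝ)| = (d.natAbs : ℝ) := by rw [← Int.cast_abs, ← Nat.cast_natAbs]
  rw [← hXe] at hX0 hZ hml
  have x1 : Real.exp 1 ≤ X := (le_max_left _ _).trans hX0
  have x2 : X₁ ≤ X := ((le_max_left _ _).trans (le_max_right _ _)).trans hX0
  have x3 : X₂ ≤ X := ((le_max_right _ _).trans (le_max_right _ _)).trans hX0
  have hw' : X / w ≤ thr B X := by
    rw [hw]
    exact thr_anti (Nat.le_add_right B 2) x1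
  by_cases hs : Real.log d.natAbs ≤ thr B X
  · exact Or.inl ⟨d, f, hd, e, Or.inl (hXe ▸ hs)⟩
  have hs' : thr B X ≤ Real.log d.natAbs := (not_le.1 hs).le
  rcases h with h | h | h | ⟨h, h' | h'⟩
  · have h1 : NoZero c₀ (-(d.natAbs : ℤ)) ∧ ManyT A₀ d.natAbs (thr B (Real.log d.natAbs)) := by
      by_contra h2
      exact h ⟨Int.squarefree_natAbs.2 hd, h2⟩
    rw [hdd] at h1
    refine Or.inl ⟨d, f, hd, e, Or.inr ⟨h1.1.anti (min_le_left _ _), ?_⟩⟩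
    rw [← hXe]
    exact h1.2.mono ((le_max_left _ _).trans (le_max_right _ _)) (thr_mono B (hZ.trans hs') hml)
  · rw [habs] at h
    exact absurd (h.trans hw') hs
  · have hzf : ZF (Real.log X ^ (B + 2) / X) d.natAbs := by
      intro q _ χ hq hχ s hs
      rw [hdd] at hχ
      exact h q χ hq hχ s (by rwa [hw])
    have h1 := hX₂ _ X x3 hs' hzf
    rw [hdd] at h1
    refine Or.inl ⟨d, f, hd, e, Or.inr ⟨h1, ?_⟩⟩
    rw [← hXe]
    exact (hA₁ _ X x2 hm0 hml hzf).mono (le_max_left _ _) le_rfl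
  · exact Or.inr ⟨h, h'⟩
  · refine Or.inl ⟨d, f, hd, e, Or.inr ⟨h.anti (min_le_right _ _), ?_⟩⟩
    rw [← hXe]
    refine ManyT.mono (A := A) (Z := thr B X) (fun t ht => ?_)
      ((le_max_right _ _).trans (le_max_right _ _)) le_rfl
    obtain ⟨Q, hQ, hp⟩ := h' t (hw'.trans ht)
    refine hQ.trans (card_le_card fun p h => ?_)
    rw [mem_filter, Nat.mem_primesLE, hdd]
    exact ⟨⟨(hp p h).2.1, (hp p h).1⟩, (hp p h).2.2⟩

end Pool.Agent.EQ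
end
end

-- part Pool.Agent.P.MP_ad7a55_nt.ZZ
section

/-! The class number condition. -/

set_option autoImplicit false

noncomputable section

open Finset
open scoped Classical

namespace Pool.Agent.EQ

/-- The class number is larger than the classical lower bound by a power of `log log`. -/
def Big (b : ℕ) (D : ℤ) : Prop :=
  Real.sqrt (-(D : ℝ)) * (Real.log (Real.log (-(D : ℝ))) ^ b / Real.log (-(D : ℝ))) ≤ (Cl D).ncard

/-- The exponent of the threshold. -/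
def B7 (n : ℕ) : ℕ := 8 * (n + n ^ 2) + 30

theorem sc7_of_big (r : ℕ) : ∃ Y : ℝ, ∀ (b : ℕ) (D : ℤ), Y ≤ -(D : ℝ) → 2 * r + 22 ≤ b →
    Big b D → Sc7 r D := by
  obtain ⟨Y₁, h₁⟩ := low_of_class
  obtain ⟨C, hC⟩ := mass_ge
  obtain ⟨X₀, hX₀⟩ := many_win r
  have t1 := Real.tendsto_log_atTop
  have t2 := t1.comp t1
  have t3 := t1.comp t2
  obtain ⟨Y, hY⟩ := Filter.eventually_atTop.1 ((Filter.eventually_ge_atTop Y₁).and
    ((Filter.eventually_ge_atTop (16 : ℝ)).and ((t1.eventually_ge_atTop X₀).and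
    ((t1.eventually_gt_atTop 0).and ((t2.eventually_ge_atTop 1).and
    ((t3.eventually_ge_atTop C).and (t3.eventually_ge_atTop 0)))))))
  refine ⟨Y, fun b D hD hb hB => ?_⟩
  obtain ⟨a1, a2, a3, a4, a5, a6, a7⟩ := hY _ hD
  simp only [Function.comp] at a5 a6 a7
  have hw : 1 ≤ Real.log (Real.log (-(D : ℝ))) ^ b := one_le_pow₀ a5
  have hs := Real.sqrt_nonneg (-(D : ℝ))
  have hcl : Real.sqrt (-(D : ℝ)) / Real.log (-(D : ℝ)) ≤ (Cl D).ncard := by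
    refine le_trans ?_ hB
    rw [div_eq_mul_one_div]
    exact mul_le_mul_of_nonneg_left (div_le_div_of_nonneg_right hw a4.le) hs
  obtain ⟨hI, hd, hL⟩ := h₁ D a1 hcl
  have h16 : 16 ≤ -D := by exact_mod_cast a2
  have hm := hC D _ hI h16 (lt_of_lt_of_le one_pos hw) hB
  rw [Real.log_pow] at hm
  have hb' : (2 * r + 22 : ℝ) ≤ b := by exact_mod_cast hb
  have h2 := mul_le_mul_of_nonneg_right hb' a7
  exact ⟨hd, hL, hX₀ D _ rfl a3 hI.1 (by linarith)⟩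

theorem Qs.anti {B B' A : ℕ} {c : ℝ} {D : ℤ} (hB : B ≤ B') (hD : 16 ≤ -(D : ℝ))
    (h : Qs B' A c D) : Qs B A c D := by
  have he : Real.exp 1 ≤ Real.log (-(D : ℝ)) := by
    have h1 : Real.log 16 ≤ Real.log (-(D : ℝ)) := Real.log_le_log (by norm_num) hD
    have h2 : Real.log 16 = 4 * Real.log 2 := by
      rw [show (16 : ℝ) = 2 ^ 4 by norm_num, Real.log_pow]
      norm_num
    have h3 := Real.log_two_gt_d9
    have h4 := Real.exp_one_lt_d9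
    linarith
  have ht := thr_anti hB he
  obtain ⟨d, f, hd, e, h | ⟨hz, hm⟩⟩ := h
  · exact ⟨d, f, hd, e, Or.inl (h.trans ht)⟩
  · exact ⟨d, f, hd, e, Or.inr ⟨hz, hm.mono le_rfl ht⟩⟩

theorem goodQ7 (n A : ℕ) {c : ℝ} (hc : 0 < c) :
    GoodQ n fun D => Big (B7 n + 2) D ∨ Qs (B7 n) A c D := by
  obtain ⟨Y, hY⟩ := sc7_of_big (4 * (n + n ^ 2))
  refine ((goodQ_Sc7 n).or (goodQ_Qs n A hc)).mono (Y := max Y 16) fun D hD h => ?_
  rcases h with h | h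
  · exact Or.inl (hY _ D ((le_max_left _ _).trans hD) (by unfold B7; omega) h)
  · exact Or.inr (h.anti (by unfold BB B7; omega) ((le_max_right _ _).trans hD))

theorem big_of {b : ℕ} {D : ℤ} (hD : D < 0) {x w : ℝ} (hx : x = Real.log |(D : ℝ)|)
    (hw : w = Real.log x ^ b) (h : Real.sqrt |(D : ℝ)| * w / x ≤
      {z : ℂ | ∃ t : UpperHalfPlane, HasDisc t D ∧ jInv t = z}.ncard) : Big b D := by
  have h0 : (D : ℝ) < 0 := by exact_mod_cast hD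
  rw [Cl_eq, hw, hx, abs_of_neg h0, mul_div_assoc] at h
  exact h

end Pool.Agent.EQ
end
end
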